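import Pool.Agent.ROT.W8Geo3
import Pool.Agent.ROT.W8Geo2
import Pool.Agent.ROT.W8Psi
import Pool.Agent.ROT.W8Hp

/-!
# ROT / W8Cls (helper84): row W8 of ROT / F3, the walks of the class `P5` of helper94 in the classes of `F3Cls`

* `Wc P O Y x K ρ0` : constants (all fields homogeneous in the lengths), **`wc_ex`** : they exist, `Wc.smul` : change of the unit;
  `Wc.shp`, `Wc.sht`, `Wc.shy` : the shapes at the scale `S` (`T = l S`, `h2 = th m S`, `h3 = m S`, `h5 = K S`, `θ = x S`,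
  `ρ = ρ0 S`, start pieces in the ball `x S`);
* **`P5.term`** : the marks `x = w_k3`, `y = w_k4` are marks of `HpM` (tip .. `x` in `Pre`, block `x` .. `y` in `OtB`, the rest behind
  `y` in `EdQ` with the data `Y`).
-/

set_option autoImplicit false

namespace Pool.Agent.ROT.F3.W8

open Finset ComplexConjugate
open Pool.Agent.NTS.Res (step pos saw fug)
open Pool.Agent.SCF.Z (SCut GB GBt GC nx_bd md pos_md E5)
open NTSF (pos_zero)

lemma w8r_of {P Y : Tp} {O : Ot} (hP : P.Ok) (hY : Y.Ok) (lr : P.l < P.r) (Om : 0 < O.m) (Or : O.m ≤ O.r)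
    (un : 2 * (P.r + P.r2) + 2 * O.r ≤ Y.rg) : W8R P O Y :=
  ⟨hP.l, lr, hP.m, by linarith [hP.m22, hP.m], hP.th, hP.th1, by linarith [hP.cs], hP.e1, hP.κ1, by linarith [hP.cs, hP.c],
    by linarith [hP.c1], Om, Or, by linarith [hY.cs, hY.c], by linarith [hY.c1], hY.κ, by linarith [hY.rg, hY.r, hY.r2],
    by linarith [hY.rr, hY.rg, hY.r, hY.r2], un⟩

/-- the constants -/
structure Wc (P : Tp) (O : Ot) (Y : Tp) (x K ρ0 : ℝ) : Prop where
  x0 : 0 < x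
  xl : 2 * x ≤ P.l
  xm : 4 * x ≤ (1 - P.th) * P.m
  xth : x ≤ P.th * P.m
  xr : 8 * x ≤ P.r - P.l
  xr2 : 4 * x ≤ P.r2 - P.m
  xe : 4 * x ≤ (1 - P.cs) * P.l - P.e
  xκ : 4 * x ≤ P.κ1
  xY : x ≤ Y.κ
  xK : x ≤ K
  Kl : P.l ≤ K
  Km : P.m ≤ K
  KY : Y.r0 - Y.κ ≤ K
  ρ1 : 2 * x + 10 * (K + 2 * x) + 2 * O.r ≤ ρ0
  ρ2 : Y.rg + K + 2 * x ≤ ρ0
  ρ3 : Y.r0 - Y.κ + K + 2 * x ≤ ρ0
  R0 : 0 < O.r

/-- **the constants exist** -/
theorem wc_ex {P Y : Tp} {O : Ot} (hW : W8R P O Y) : ∃ x K ρ0 : ℝ, Wc P O Y x K ρ0 := by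
  obtain ⟨x, hx⟩ : ∃ x : ℝ, x = min (min (P.l / 2) (min ((1 - P.th) * P.m / 4) (P.th * P.m)))
    (min (min ((P.r - P.l) / 8) ((P.r2 - P.m) / 4)) (min (((1 - P.cs) * P.l - P.e) / 4) (min (P.κ1 / 4) Y.κ))) := ⟨_, rfl⟩
  have a2 : x ≤ P.l / 2 := by rw [hx]; exact (min_le_left _ _).trans (min_le_left _ _)
  have a3 : x ≤ (1 - P.th) * P.m / 4 := by
    rw [hx]; exact (min_le_left _ _).trans ((min_le_right _ _).trans (min_le_left _ _))
  have a4 : x ≤ P.th * P.m := by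
    rw [hx]; exact (min_le_left _ _).trans ((min_le_right _ _).trans (min_le_right _ _))
  have a5 : x ≤ (P.r - P.l) / 8 := by
    rw [hx]; exact (min_le_right _ _).trans ((min_le_left _ _).trans (min_le_left _ _))
  have a6 : x ≤ (P.r2 - P.m) / 4 := by
    rw [hx]; exact (min_le_right _ _).trans ((min_le_left _ _).trans (min_le_right _ _))
  have a7 : x ≤ ((1 - P.cs) * P.l - P.e) / 4 := by
    rw [hx]; exact (min_le_right _ _).trans ((min_le_right _ _).trans (min_le_left _ _))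
  have a8 : x ≤ P.κ1 / 4 := by
    rw [hx]; exact (min_le_right _ _).trans ((min_le_right _ _).trans ((min_le_right _ _).trans (min_le_left _ _)))
  have a9 : x ≤ Y.κ := by
    rw [hx]; exact (min_le_right _ _).trans ((min_le_right _ _).trans ((min_le_right _ _).trans (min_le_right _ _)))
  have l0 := hW.l
  have m0 := hW.m
  have p1 : 0 < (1 - P.th) * P.m := mul_pos (by linarith [hW.th1]) m0
  have p2 : 0 < P.th * P.m := mul_pos hW.th m0
  have x0 : 0 < x := by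
    rw [hx]
    refine lt_min (lt_min (by linarith) (lt_min (by linarith) p2))
      (lt_min (lt_min (by linarith [hW.lr]) (by linarith [hW.mr])) (lt_min (by linarith [hW.e])
        (lt_min (by linarith [hW.κ1]) hW.Yκ)))
  have r0 : 0 < O.r := hW.Om.trans_le hW.Or
  obtain ⟨K, hK⟩ : ∃ K : ℝ, K = P.l + P.m + |Y.r0 - Y.κ| := ⟨_, rfl⟩
  obtain ⟨ρ0, hρ⟩ : ∃ ρ0 : ℝ, ρ0 = 2 * x + 10 * (K + 2 * x) + 2 * O.r + |Y.rg| + |Y.r0 - Y.κ| := ⟨_, rfl⟩
  have b1 := le_abs_self Y.rg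
  have b2 := le_abs_self (Y.r0 - Y.κ)
  have c1 := abs_nonneg Y.rg
  have c2 := abs_nonneg (Y.r0 - Y.κ)
  exact ⟨x, K, ρ0, x0, by linarith, by linarith, a4, by linarith, by linarith, by linarith, by linarith, a9, by linarith,
    by linarith, by linarith, by linarith, by linarith, by linarith, by linarith, r0⟩

section

variable {P Y : Tp} {O : Ot} {x K ρ0 : ℝ}

lemma Wc.K0 (w : Wc P O Y x K ρ0) : 0 < K := w.x0.trans_le w.xK

/-- change of the unit of length -/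
theorem Wc.smul (w : Wc P O Y x K ρ0) {a : ℝ} (ha : 0 < a) {P' Y' : Tp} {O' : Ot} (h1 : P'.l = a * P.l) (h2 : P'.m = a * P.m)
    (h3 : P'.th = P.th) (h4 : P'.r = a * P.r) (h5 : P'.r2 = a * P.r2) (h6 : P'.cs = P.cs) (h7 : P'.e = a * P.e)
    (h8 : P'.κ1 = a * P.κ1) (h9 : Y'.κ = a * Y.κ) (h10 : Y'.r0 = a * Y.r0) (h11 : Y'.rg = a * Y.rg) (h12 : O'.r = a * O.r) :
    Wc P' O' Y' (a * x) (a * K) (a * ρ0) := by
  have m1 : ∀ {b c : ℝ}, b ≤ c → a * b ≤ a * c := fun h => mul_le_mul_of_nonneg_left h ha.le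
  constructor
  · exact mul_pos ha w.x0
  · rw [h1]; linarith [m1 w.xl]
  · rw [h2, h3]; linarith [m1 w.xm]
  · rw [h2, h3]; linarith [m1 w.xth]
  · rw [h1, h4]; linarith [m1 w.xr]
  · rw [h2, h5]; linarith [m1 w.xr2]
  · rw [h1, h6, h7]; linarith [m1 w.xe]
  · rw [h8]; linarith [m1 w.xκ]
  · rw [h9]; exact m1 w.xY
  · exact m1 w.xK
  · rw [h1]; exact m1 w.Kl
  · rw [h2]; exact m1 w.Km
  · rw [h9, h10]; linarith [m1 w.KY]
  · rw [h12]; linarith [m1 w.ρ1]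
  · rw [h11]; linarith [m1 w.ρ2]
  · rw [h9, h10]; linarith [m1 w.ρ3]
  · rw [h12]; exact mul_pos ha w.R0

/-- **the shape** of 94 -/
theorem Wc.shp (w : Wc P O Y x K ρ0) {S : ℝ} (hS : 0 ≤ S) :
    Shp5 (x / K) (x / K) (ρ0 / K) (K * S) (P.l * S) (P.th * P.m * S) (P.m * S) (K * S) (x * S) (ρ0 * S) (O.r * S) := by
  have hK := w.K0
  have e1 : x / K * (K * S) = x * S := by field_simp
  have e2 : ρ0 / K * (K * S) = ρ0 * S := by field_simp
  have m1 : ∀ {a b : ℝ}, a ≤ b → a * S ≤ b * S := fun h => mul_le_mul_of_nonneg_right h hS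
  have hxm := w.xm
  have hm : P.th * P.m ≤ P.m := by nlinarith [w.x0, w.xm]
  constructor
  · rw [e1]
    linarith [m1 w.xl]
  · exact m1 w.Kl
  · rw [e1]
    exact m1 w.xth
  · exact m1 (hm.trans w.Km)
  · rw [e1]
    have : (x + P.th * P.m + x) * S ≤ P.m * S := m1 (by linarith [w.x0])
    linarith
  · exact m1 w.Km
  · rw [e1]
    exact m1 w.xK
  · exact le_rfl
  · rw [e1]
  · exact m1 w.xK
  · exact mul_nonneg w.R0.le hS
  · rw [e1]
    have := m1 w.ρ1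
    linarith
  · rw [e2]

/-- the shape of the first part -/
theorem Wc.sht (w : Wc P O Y x K ρ0) (hW : W8R P O Y) (cs1 : P.cs ≤ 1) {S : ℝ} (hS : 0 < S) :
    ShT P S (x / K * (K * S)) (P.th * P.m * S) (x * S) := by
  have hK := w.K0
  have e1 : x / K * (K * S) = x * S := by field_simp
  have m1 : ∀ {a b : ℝ}, a ≤ b → a * S ≤ b * S := fun h => mul_le_mul_of_nonneg_right h hS.le
  have x0 := w.x0
  rw [e1]
  constructor
  · exact mul_lt_mul_of_pos_right (by linarith [w.xl]) hS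
  · have : (P.th * P.m + x) * S < P.m * S := mul_lt_mul_of_pos_right (by linarith [w.xm]) hS
    linarith
  · exact le_rfl
  · have : (P.l + 4 * x + 2 * x) * S ≤ P.r * S := m1 (by linarith [w.xr])
    linarith
  · have : (P.m + 3 * x) * S ≤ P.r2 * S := m1 (by linarith [w.xr2])
    linarith
  · have h1 : P.cs * (x * S + x * S) ≤ 1 * (x * S + x * S) := mul_le_mul_of_nonneg_right cs1 (by positivity)
    have h2 : (2 * x + P.e) * S ≤ ((1 - P.cs) * P.l) * S := m1 (by linarith [w.xe])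
    linarith
  · have h1 : P.c * (x * S) ≤ 1 * (x * S) := mul_le_mul_of_nonneg_right hW.c1 (by positivity)
    have h2 : (2 * x) * S ≤ P.κ1 * S := m1 (by linarith [w.xκ])
    linarith
  · exact hW.cs
  · exact cs1
  · exact hW.c0
  · exact hW.c1

/-- the shape behind `y` -/
theorem Wc.shy (w : Wc P O Y x K ρ0) (hW : W8R P O Y) {S : ℝ} (hS : 0 ≤ S) : ShY Y S (K * S) (x * S) (ρ0 * S) := by
  have m1 : ∀ {a b : ℝ}, a ≤ b → a * S ≤ b * S := fun h => mul_le_mul_of_nonneg_right h hS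
  have x0 := w.x0
  have K0 := w.K0
  have hκ := hW.Yκ
  constructor
  · exact mul_nonneg K0.le hS
  · have := m1 w.ρ2
    linarith
  · have := m1 w.ρ3
    linarith
  · exact hW.Yc0
  · exact hW.Yc1
  · have h1 : Y.c * (x * S) ≤ 1 * (x * S) := mul_le_mul_of_nonneg_right hW.Yc1 (by positivity)
    have h2 := m1 w.xY
    linarith
  · have h1 : Y.c * (Y.r0 - Y.κ) ≤ K + Y.κ := by
      rcases le_or_gt 0 (Y.r0 - Y.κ) with h2 | h2
      · have h3 : Y.c * (Y.r0 - Y.κ) ≤ 1 * (Y.r0 - Y.κ) := mul_le_mul_of_nonneg_right hW.Yc1 h2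
        linarith [w.KY]
      · have h3 : Y.c * (Y.r0 - Y.κ) ≤ 0 := mul_nonpos_of_nonneg_of_nonpos hW.Yc0 h2.le
        linarith
    have := m1 h1
    linarith

end

/-- the block of the walk as a segment of the word -/
lemma seg_md {n : ℕ} (s : Fin n → Fin 3) {k k' : ℕ} (hk : k ≤ k') (hk' : k' ≤ n) :
    List.ofFn (md s k (k' - k)) = seg (List.ofFn s) k k' := by
  rw [md_ofFn s hk hk', seg, List.drop_take]

/-- **one end of the rest**, with a block `x` .. `y` from `OtB` -/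
theorem Rg.edQ {P : Tp} {O : Ot} {S T' h5 θ ρ : ℝ} {n : ℕ} {s : Fin n → Fin 3} {k3 k4 k5 : ℕ}
    (h : Rg (O.m * S) h5 (O.r * S) θ ρ s k3 k4 k5) (e3 : Even k3) (hb : ((List.ofFn s).take k4).drop k3 ∈ OtB 1 O S T')
    (hS : 0 ≤ S) (cO : P.c ≤ O.c) (κ : O.κ ≤ P.κ) (κ0 : 0 ≤ P.κ) (r0 : P.r0 ≤ O.m) (h50 : 0 ≤ h5)
    (hρ1 : P.rg * S + O.r * S + h5 + 2 * θ ≤ ρ) (hρ2 : P.r0 * S + O.r * S + h5 + 2 * θ ≤ ρ) :
    EdQ 1 P S ((List.ofFn s).drop k3) := by
  have hl := h.lt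
  have hth := h.th
  have hpc : Pc ((List.ofFn s).drop k3) (n - k3) (psh (pos s) k3) := (pc_w s).drop (by omega) e3
  have hpb : Pc (((List.ofFn s).take k4).drop k3) (k4 - k3) (psh (pos s) k3) := ((pc_w s).take (by omega)).drop (by omega) e3
  refine ⟨h.restC e3 hρ1 h50, fun k hk => ?_⟩
  rw [hpc.len] at hk
  rw [hpc.pos k hk]
  rcases le_or_gt (k3 + k) k4 with h6 | h6
  · left
    have h7 := hb.s k (by rw [hpb.len]; omega)
    rw [hpb.pos k (by omega)] at h7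
    unfold Kn at h7 ⊢
    have h8 := mul_le_mul_of_nonneg_right cO (norm_nonneg (psh (pos s) k3 k))
    have h9 := mul_le_mul_of_nonneg_right κ hS
    linarith
  · right
    by_contra hcon
    push Not at hcon
    have hL : ‖pos s k4 - pos s k3‖ ≤ O.r * S := h.g4.2.2.2.2.2.1 k4 h.g4.1.le le_rfl
    have hκS := mul_nonneg κ0 hS
    have e7 : ‖pos s (k3 + k) - pos s k4‖ ≤ P.r0 * S + O.r * S := by
      have : pos s (k3 + k) - pos s k4 = psh (pos s) k3 k - (pos s k4 - pos s k3) := by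
        rw [psh]
        ring
      rw [this]
      exact (norm_sub_le _ _).trans (by linarith)
    have e4 : (pos s k3).re + O.m * S ≤ (pos s k4).re := h.g4.2.2.2.2.2.2.1
    have e8 : O.m * S ≤ (psh (pos s) k3 k).re := by
      rw [psh, Complex.sub_re]
      rcases h.y (r0 := P.r0 * S + O.r * S) (by linarith) h6 (by omega) e7 with ⟨-, h7, -⟩ | ⟨-, h7⟩ <;> linarith
    have e9 := (le_abs_self _).trans (Complex.abs_re_le_norm (psh (pos s) k3 k))
    have := mul_le_mul_of_nonneg_right r0 hS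
    linarith

/-- behind `y` -/
lemma Rg.yg {h4 h5 L2 θ ρ : ℝ} {n : ℕ} {s : Fin n → Fin 3} {k3 k4 k5 : ℕ} (h : Rg h4 h5 L2 θ ρ s k3 k4 k5) :
    Yg h5 θ ρ s k4 k5 := ⟨h.g4.2.1, h.g5, h.c⟩

/-- **the walks of the class `P5` in the classes of `F3Cls`** -/
theorem P5.term {P Y : Tp} {O : Ot} {x K ρ0 S T' : ℝ} (hW : W8R P O Y) (cs1 : P.cs ≤ 1) (w : Wc P O Y x K ρ0) (hS : 0 < S)
    {n : ℕ} {s : Fin n → Fin 3} (hs : s ∈ saw n) {k0 k1 k2 k3 k4 k5 : ℕ}
    (h : P5 (fun _ b => List.ofFn b ∈ OtB 1 O S T') (x / K) (K * S) (P.l * S) (P.th * P.m * S) (P.m * S) (K * S) (x * S)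
      (ρ0 * S) s k0 k1 k2 k3 k4 k5) (la : (k5 : ℝ) ≤ P.la * T') (lb : (k5 : ℝ) ≤ P.lb * T') :
    HpM 1 P O Y S T' (List.ofFn s) k3 k4 := by
  have hg : ∀ (m : ℕ) (b : Fin m → Fin 3), List.ofFn b ∈ OtB 1 O S T' → GB (O.m * S) (O.r * S) b 0 m := fun m b hb =>
    gb_of_blk hb.k hb.f
  have h' : E5 (fun _ s k => NC0 (x / K * (K * S)) s k) (fun _ b => List.ofFn b ∈ OtB 1 O S T') (P.l * S) (P.th * P.m * S)
    (P.m * S) (K * S) (x * S) (ρ0 * S) s k0 k1 k2 k3 k4 k5 := h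
  have hd := E5.dg h'
  have hr := E5.rg h' hg
  have l1 := hd.lt
  have l2 := hr.lt
  have hb2 : seg (List.ofFn s) k3 k4 ∈ OtB 1 O S T' := by
    rw [← seg_md s l2.1.le (by omega)]
    exact h'.2.2.2.2.1.2
  have c1 : ((k1 : ℕ) : ℝ) ≤ P.la * T' := le_trans (by exact_mod_cast (by omega : k1 ≤ k5)) la
  have c2 : ((k3 - k1 : ℕ) : ℝ) ≤ P.lb * T' := le_trans (by exact_mod_cast (by omega : k3 - k1 ≤ k5)) lb
  have hpre := hd.pre (w.sht hW cs1 hS) (pc_nc0 (x / K * (K * S))) hd.a.2.2.2 hs (show k3 ≤ n by omega) c1 c2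
  have hed := hr.yg.edQ (w.shy hW hS.le) (show k4 ≤ n by omega) le_rfl
  rw [ev_zero] at hpre hed
  rw [List.take_of_length_le (by rw [List.length_ofFn])] at hed
  exact ⟨l2.1.le, by rw [List.length_ofFn]; omega, ⟨k1, hpre⟩, hb2, hed⟩

end Pool.Agent.ROT.F3.W8
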