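import Pool.Agent.ROT.F3PrmO22
import Pool.Agent.ROT.W8Cls

/-!
# ROT / F3PrmW22 (helper22): the numeric instance of the constants of W8

* **`wcN`**, `w8rN` : `Wc`, `W8R` for the native gate `E.n`, **`wcF`**, `w8rF` : for the gate `E.f.up y`, `0 ≤ y ≤ 30 ρ`; the same
  `x = 9/1000 ρ`, `K = 50000000 ρ`, `ρ0 = 600000000 ρ` in the whole window.
-/

set_option autoImplicit false

namespace Pool.Agent.ROT.F3

open Pool.Agent.ROT.F3.W8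

/-- the room conditions -/
theorem w8rN {E : En} {O : Ot} {Y : Tp} {ρ τ : ℝ} (hρ : 0 < ρ) (hτ : 0 < τ) (h : E.Nr (bE ρ τ)) (hO : O.Nr (bO ρ τ))
    (hY : Y.Nr (bY ρ τ)) : W8R E.n O Y := by
  have ho := outOk hρ hτ le_rfl (by norm_num : (0 : ℝ) ≤ 1 / 100000000) h hO hY
  have hE := h.ok hρ hτ le_rfl (by norm_num : (0 : ℝ) ≤ 1 / 100000000)
  exact w8r_of hE.n ho.oY hE.nlr ho.m ho.mr.le ho.un

/-- **the constants** -/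
theorem wcN {E : En} {O : Ot} {Y : Tp} {ρ τ : ℝ} (hρ : 0 < ρ) (h : E.Nr (bE ρ τ)) (hO : O.Nr (bO ρ τ))
    (hY : Y.Nr (bY ρ τ)) : Wc E.n O Y (9/1000 * ρ) (50000000 * ρ) (600000000 * ρ) := by
  have l1 : 1/2 * ρ ≤ E.n.l := h.n.l.1
  have l2 : E.n.l ≤ 101 / 100 * (1/2 * ρ) := h.n.l.2
  have r1 : 1 * ρ ≤ E.n.r := h.n.r.1
  have r2 : E.n.r ≤ 101 / 100 * (1 * ρ) := h.n.r.2
  have m1 : 81/10 * ρ ≤ E.n.m := h.n.m.1
  have m2 : E.n.m ≤ 101 / 100 * (81/10 * ρ) := h.n.m.2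
  have th1 : 3/4 ≤ E.n.th := h.n.th.1
  have th2 : E.n.th ≤ 101 / 100 * (3/4) := h.n.th.2
  have r21 : 41/2 * ρ ≤ E.n.r2 := h.n.r2.1
  have r22 : E.n.r2 ≤ 101 / 100 * (41/2 * ρ) := h.n.r2.2
  have κ11 : 1/25 * ρ ≤ E.n.κ1 := h.n.κ1.1
  have κ12 : E.n.κ1 ≤ 101 / 100 * (1/25 * ρ) := h.n.κ1.2
  have cs1 : 3/5 ≤ E.n.cs := h.n.cs.1
  have cs2 : E.n.cs ≤ 101 / 100 * (3/5) := h.n.cs.2
  have e1 : 3/20 * ρ ≤ E.n.e := h.n.e.1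
  have e2 : E.n.e ≤ 101 / 100 * (3/20 * ρ) := h.n.e.2
  have or1 : 22000000 * ρ ≤ O.r := hO.r.1
  have or2 : O.r ≤ 101 / 100 * (22000000 * ρ) := hO.r.2
  have yr01 : 48000000 * ρ ≤ Y.r0 := hY.r0.1
  have yr02 : Y.r0 ≤ 101 / 100 * (48000000 * ρ) := hY.r0.2
  have yrg1 : 46000000 * ρ ≤ Y.rg := hY.rg.1
  have yrg2 : Y.rg ≤ 101 / 100 * (46000000 * ρ) := hY.rg.2
  have yκ1 : 1000 * ρ ≤ Y.κ := hY.κ.1
  have yκ2 : Y.κ ≤ 101 / 100 * (1000 * ρ) := hY.κ.2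
  have q1 : (1 - 101 / 100 * (3/4)) * (81/10 * ρ) ≤ (1 - E.n.th) * E.n.m :=
    mul_le_mul (by linarith) (by linarith) (by positivity) (by linarith)
  have q2 : (3/4) * (81/10 * ρ) ≤ E.n.th * E.n.m :=
    mul_le_mul (by linarith) (by linarith) (by positivity) (by linarith)
  have q3 : (1 - 101 / 100 * (3/5)) * (1/2 * ρ) ≤ (1 - E.n.cs) * E.n.l :=
    mul_le_mul (by linarith) (by linarith) (by positivity) (by linarith)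
  constructor <;> linarith

/-- the room conditions -/
theorem w8rF {E : En} {O : Ot} {Y : Tp} {ρ τ : ℝ} (hρ : 0 < ρ) (hτ : 0 < τ) (h : E.Nr (bE ρ τ)) (hO : O.Nr (bO ρ τ))
    (hY : Y.Nr (bY ρ τ)) {y : ℝ} (hy : 0 ≤ y) (hy1 : y ≤ 30 * ρ) : W8R (E.f.up y) O Y := by
  have ho := outOk hρ hτ le_rfl (by norm_num : (0 : ℝ) ≤ 1 / 100000000) h hO hY
  have hE := h.ok hρ hτ le_rfl (by norm_num : (0 : ℝ) ≤ 1 / 100000000)
  have l2 : E.f.l ≤ 101 / 100 * (60 * ρ) := h.f.l.2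
  have r1 : 105 * ρ ≤ E.f.r := h.f.r.1
  exact w8r_of (hE.f.up hy) ho.oY (by show E.f.l + y < E.f.r; linarith) ho.m ho.mr.le ho.unf

/-- **the constants** -/
theorem wcF {E : En} {O : Ot} {Y : Tp} {ρ τ : ℝ} (hρ : 0 < ρ) (h : E.Nr (bE ρ τ)) (hO : O.Nr (bO ρ τ))
    (hY : Y.Nr (bY ρ τ)) {y : ℝ} (hy : 0 ≤ y) (hy1 : y ≤ 30 * ρ) : Wc (E.f.up y) O Y (9/1000 * ρ) (50000000 * ρ) (600000000 * ρ) := by
  have l1 : 60 * ρ ≤ E.f.l := h.f.l.1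
  have l2 : E.f.l ≤ 101 / 100 * (60 * ρ) := h.f.l.2
  have r1 : 105 * ρ ≤ E.f.r := h.f.r.1
  have r2 : E.f.r ≤ 101 / 100 * (105 * ρ) := h.f.r.2
  have m1 : 11400 * ρ ≤ E.f.m := h.f.m.1
  have m2 : E.f.m ≤ 101 / 100 * (11400 * ρ) := h.f.m.2
  have th1 : 3/4 ≤ E.f.th := h.f.th.1
  have th2 : E.f.th ≤ 101 / 100 * (3/4) := h.f.th.2
  have r21 : 28500 * ρ ≤ E.f.r2 := h.f.r2.1
  have r22 : E.f.r2 ≤ 101 / 100 * (28500 * ρ) := h.f.r2.2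
  have κ11 : 1 * ρ ≤ E.f.κ1 := h.f.κ1.1
  have κ12 : E.f.κ1 ≤ 101 / 100 * (1 * ρ) := h.f.κ1.2
  have cs1 : 11/20 ≤ E.f.cs := h.f.cs.1
  have cs2 : E.f.cs ≤ 101 / 100 * (11/20) := h.f.cs.2
  have e1 : 6/5 * ρ ≤ E.f.e := h.f.e.1
  have e2 : E.f.e ≤ 101 / 100 * (6/5 * ρ) := h.f.e.2
  have or1 : 22000000 * ρ ≤ O.r := hO.r.1
  have or2 : O.r ≤ 101 / 100 * (22000000 * ρ) := hO.r.2
  have yr01 : 48000000 * ρ ≤ Y.r0 := hY.r0.1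
  have yr02 : Y.r0 ≤ 101 / 100 * (48000000 * ρ) := hY.r0.2
  have yrg1 : 46000000 * ρ ≤ Y.rg := hY.rg.1
  have yrg2 : Y.rg ≤ 101 / 100 * (46000000 * ρ) := hY.rg.2
  have yκ1 : 1000 * ρ ≤ Y.κ := hY.κ.1
  have yκ2 : Y.κ ≤ 101 / 100 * (1000 * ρ) := hY.κ.2
  have q1 : (1 - 101 / 100 * (3/4)) * (11400 * ρ) ≤ (1 - E.f.th) * E.f.m :=
    mul_le_mul (by linarith) (by linarith) (by positivity) (by linarith)
  have q2 : (3/4) * (11400 * ρ) ≤ E.f.th * E.f.m :=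
    mul_le_mul (by linarith) (by linarith) (by positivity) (by linarith)
  have q3 : (1 - 101 / 100 * (11/20)) * (60 * ρ) ≤ (1 - E.f.cs) * E.f.l :=
    mul_le_mul (by linarith) (by linarith) (by positivity) (by linarith)
  have q4 : 0 ≤ (1 - E.f.cs) * y := mul_nonneg (by linarith) hy
  have e1 : (E.f.up y).l = E.f.l + y := rfl
  have e2 : (E.f.up y).r = E.f.r := rfl
  have e3 : (E.f.up y).m = E.f.m := rfl
  have e4 : (E.f.up y).th = E.f.th := rfl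
  have e5 : (E.f.up y).r2 = E.f.r2 := rfl
  have e6 : (E.f.up y).κ1 = E.f.κ1 := rfl
  have e7 : (E.f.up y).cs = E.f.cs := rfl
  have e8 : (E.f.up y).e = E.f.e := rfl
  constructor <;> first | linarith | (rw [e3, e4]; linarith) | (rw [e7, e1, e8]; linarith)

end Pool.Agent.ROT.F3
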