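import Mathlib

/-!
# ROT, F3 (form (B) of helper2), row C2, soft part (helper36)

* `isProd_of`, **`prod_lim`** : a weak limit of product measures is a product measure (up to the normalisation);
  `prod_cond` : the conditional law of the second coordinate does not depend on the first one;
* **`mark_lim`** : marks (first cuts) which are functions of the curve up to small errors with small probability: in the
  limit the mark is a measurable function of the curve, and the joint laws converge;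
* `graph_of` : the same for a given joint limit.
-/

set_option autoImplicit false

open MeasureTheory Filter Topology Set BoundedContinuousFunction
open scoped ENNReal

namespace Pool.Agent.ROT.F3

section prod

variable {P Q ι : Type*} [TopologicalSpace P] [MeasurableSpace P] [BorelSpace P] [HasOuterApproxClosed P]
  [TopologicalSpace Q] [MeasurableSpace Q] [BorelSpace Q] [HasOuterApproxClosed Q]

/-- the product identity for bounded continuous functions gives the product structure -/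
theorem isProd_of {κ : Measure (P × Q)} [IsFiniteMeasure κ]
    (h : ∀ (f : P →ᵇ ℝ) (g : Q →ᵇ ℝ), (∫ p, f p.1 * g p.2 ∂κ) * κ.real univ = (∫ p, f p.1 ∂κ) * ∫ p, g p.2 ∂κ) :
    κ univ • κ = (κ.map Prod.fst).prod (κ.map Prod.snd) := by
  have hf : κ univ ≠ ∞ := measure_ne_top κ univ
  haveI : IsFiniteMeasure (κ univ • κ) := by
    constructor
    rw [Measure.smul_apply, smul_eq_mul]
    exact ENNReal.mul_lt_top (lt_of_le_of_ne le_top hf) (lt_of_le_of_ne le_top hf)
  refine Measure.eq_prod_of_integral_mul_boundedContinuousFunction fun f g => ?_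
  have e1 : ∫ x, f x ∂(κ.map Prod.fst) = ∫ p, f p.1 ∂κ :=
    integral_map measurable_fst.aemeasurable f.continuous.aestronglyMeasurable
  have e2 : ∫ x, g x ∂(κ.map Prod.snd) = ∫ p, g p.2 ∂κ :=
    integral_map measurable_snd.aemeasurable g.continuous.aestronglyMeasurable
  rw [e1, e2, integral_smul_measure, ← h f g, smul_eq_mul, mul_comm]
  rfl

/-- **weak limits of products are products** -/
theorem prod_lim {l : Filter ι} [l.NeBot] {κn : ι → Measure (P × Q)} {α : ι → Measure P} {β : ι → Measure Q}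
    [∀ i, IsFiniteMeasure (α i)] [∀ i, IsFiniteMeasure (β i)] (hn : ∀ᶠ i in l, κn i = (α i).prod (β i))
    {κ : Measure (P × Q)} [IsFiniteMeasure κ]
    (hlim : ∀ (f : P →ᵇ ℝ) (g : Q →ᵇ ℝ),
      Tendsto (fun i => ∫ p, f p.1 * g p.2 ∂κn i) l (𝓝 (∫ p, f p.1 * g p.2 ∂κ))) :
    κ univ • κ = (κ.map Prod.fst).prod (κ.map Prod.snd) := by
  refine isProd_of fun f g => ?_
  have a1 := hlim f g
  have a2 := hlim f 1
  have a3 := hlim 1 g
  have a4 := hlim 1 1
  simp only [BoundedContinuousFunction.coe_one, Pi.one_apply, mul_one, one_mul] at a2 a3 a4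
  have e4 : ∫ _p : P × Q, (1 : ℝ) ∂κ = κ.real univ := by simp
  rw [e4] at a4
  refine tendsto_nhds_unique (a1.mul a4) ((a2.mul a3).congr' ?_)
  filter_upwards [hn] with i hi
  rw [hi]
  have b1 : ∫ p, f p.1 * g p.2 ∂((α i).prod (β i)) = (∫ x, f x ∂α i) * ∫ y, g y ∂β i :=
    integral_prod_mul (fun x => f x) (fun y => g y)
  have b2 : ∫ p, f p.1 ∂((α i).prod (β i)) = (∫ x, f x ∂α i) * ∫ _y : Q, (1 : ℝ) ∂β i := by
    have := integral_prod_mul (μ := α i) (ν := β i) (fun x => f x) (fun _ => (1 : ℝ))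
    simpa using this
  have b3 : ∫ p, g p.2 ∂((α i).prod (β i)) = (∫ _x : P, (1 : ℝ) ∂α i) * ∫ y, g y ∂β i := by
    have := integral_prod_mul (μ := α i) (ν := β i) (fun _ => (1 : ℝ)) (fun y => g y)
    simpa using this
  have b4 : ∫ _p : P × Q, (1 : ℝ) ∂((α i).prod (β i)) = (∫ _x : P, (1 : ℝ) ∂α i) * ∫ _y : Q, (1 : ℝ) ∂β i := by
    have := integral_prod_mul (μ := α i) (ν := β i) (fun _ => (1 : ℝ)) (fun _ => (1 : ℝ))
    simpa using this
  rw [b1, b2, b3, b4]
  ring

omit [TopologicalSpace P] [BorelSpace P] [HasOuterApproxClosed P] [TopologicalSpace Q] [BorelSpace Q]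
  [HasOuterApproxClosed Q] in
/-- product structure: the second coordinate does not see the first one -/
theorem prod_cond {κ : Measure (P × Q)} [IsFiniteMeasure κ]
    (h : κ univ • κ = (κ.map Prod.fst).prod (κ.map Prod.snd)) {E : Set P} (hE : MeasurableSet E) {g : Q → ℝ}
    (hg : AEStronglyMeasurable g (κ.map Prod.snd)) :
    (∫ p in Prod.fst ⁻¹' E, g p.2 ∂κ) * κ.real univ = κ.real (Prod.fst ⁻¹' E) * ∫ p, g p.2 ∂κ := by
  have e0 : κ.real univ * ∫ p in Prod.fst ⁻¹' E, g p.2 ∂κ = ∫ p in E ×ˢ univ, g p.2 ∂(κ univ • κ) := by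
    rw [Measure.restrict_smul, integral_smul_measure, smul_eq_mul, prod_univ]
    rfl
  rw [mul_comm, e0, h, ← Measure.prod_restrict, Measure.restrict_univ]
  have h1 := integral_prod_mul (μ := (κ.map Prod.fst).restrict E) (ν := κ.map Prod.snd) (fun _ => (1 : ℝ)) g
  simp only [one_mul] at h1
  have h2 : ∫ _x in E, (1 : ℝ) ∂(κ.map Prod.fst) = κ.real (Prod.fst ⁻¹' E) := by
    rw [setIntegral_const, smul_eq_mul, mul_one, map_measureReal_apply measurable_fst hE]
  rw [h1, h2, integral_map measurable_snd.aemeasurable hg]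

end prod

section mark

variable {X Y : Type*} [PseudoMetricSpace X] [MeasurableSpace X] [BorelSpace X]
  [PseudoMetricSpace Y] [CompleteSpace Y] [SecondCountableTopology Y] [MeasurableSpace Y] [BorelSpace Y]

/-- a sequence of maps which is fast Cauchy in measure converges almost everywhere -/
lemma cau_lim {ν : Measure X} [IsFiniteMeasure ν] {Z : ℕ → X → Y} (hZ : ∀ k, Measurable (Z k))
    (h : ∀ k, ν {x | (1 / 2 : ℝ) ^ k + (1 / 2) ^ (k + 1) < dist (Z k x) (Z (k + 1) x)} ≤
      ENNReal.ofReal ((1 / 2) ^ k + (1 / 2) ^ (k + 1))) :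
    ∃ ζ : X → Y, Measurable ζ ∧ ∀ᵐ x ∂ν, Tendsto (fun k => Z k x) atTop (𝓝 (ζ x)) := by
  have hs : Summable fun k : ℕ => (1 / 2 : ℝ) ^ k + (1 / 2) ^ (k + 1) :=
    summable_geometric_two.add ((summable_nat_add_iff 1).2 summable_geometric_two)
  refine measurable_limit_of_tendsto_metrizable_ae (fun k => (hZ k).aemeasurable) ?_
  have h1 : ∑' k, ν {x | (1 / 2 : ℝ) ^ k + (1 / 2) ^ (k + 1) < dist (Z k x) (Z (k + 1) x)} ≠ ∞ := by
    refine ne_top_of_le_ne_top ?_ (ENNReal.tsum_le_tsum h)
    rw [← ENNReal.ofReal_tsum_of_nonneg (fun k => by positivity) hs]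
    exact ENNReal.ofReal_ne_top
  filter_upwards [ae_eventually_notMem h1] with x hx
  obtain ⟨k0, hk⟩ := eventually_atTop.1 hx
  have hc : CauchySeq fun k => Z (k + k0) x := by
    refine cauchySeq_of_dist_le_of_summable (fun k : ℕ => (1 / 2 : ℝ) ^ (k + k0) + (1 / 2) ^ (k + k0 + 1)) (fun k => ?_)
      ((summable_nat_add_iff k0).2 hs)
    have h2 := hk (k + k0) (Nat.le_add_left _ _)
    simp only [mem_setOf_eq, not_lt] at h2
    rw [show k.succ + k0 = k + k0 + 1 by omega]
    exact h2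
  obtain ⟨y, hy⟩ := cauchySeq_tendsto_of_complete hc
  exact ⟨y, (tendsto_add_atTop_iff_nat k0).1 hy⟩

omit [PseudoMetricSpace Y] [CompleteSpace Y] [SecondCountableTopology Y] [BorelSpace Y] in
lemma open_le {κn : ℕ → Measure (X × Y)} [∀ i, IsProbabilityMeasure (κn i)] {ν : Measure X} [IsProbabilityMeasure ν]
    (hν : ∀ F : X →ᵇ ℝ, Tendsto (fun i => ∫ p, F p.1 ∂κn i) atTop (𝓝 (∫ x, F x ∂ν))) {U : Set X} (hU : IsOpen U) :
    ν U ≤ liminf (fun i => κn i (Prod.fst ⁻¹' U)) atTop := by
  have hp : ∀ i, IsProbabilityMeasure ((κn i).map Prod.fst) := fun i =>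
    Measure.isProbabilityMeasure_map measurable_fst.aemeasurable
  let ρ : ℕ → ProbabilityMeasure X := fun i => ⟨(κn i).map Prod.fst, hp i⟩
  let ρ' : ProbabilityMeasure X := ⟨ν, inferInstance⟩
  have h1 : Tendsto ρ atTop (𝓝 ρ') := by
    refine ProbabilityMeasure.tendsto_iff_forall_integral_tendsto.2 fun F => ?_
    refine (hν F).congr fun i => ?_
    exact (integral_map measurable_fst.aemeasurable F.continuous.aestronglyMeasurable).symm
  have h2 := ProbabilityMeasure.le_liminf_measure_open_of_tendsto h1 hU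
  refine h2.trans (le_of_eq ?_)
  congr 1
  funext i
  exact Measure.map_apply measurable_fst hU.measurableSet

/-- **marks**: a mark which is, up to `ε` and up to probability `ε`, a continuous function of the curve, is in the limit a
measurable function of the curve -/
theorem mark_lim {κn : ℕ → Measure (X × Y)} [∀ i, IsProbabilityMeasure (κn i)] {ν : Measure X} [IsProbabilityMeasure ν]
    (hν : ∀ F : X →ᵇ ℝ, Tendsto (fun i => ∫ p, F p.1 ∂κn i) atTop (𝓝 (∫ x, F x ∂ν)))
    (hz : ∀ ε : ℝ, 0 < ε → ∃ Z : X → Y, Continuous Z ∧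
      ∀ᶠ i in atTop, (κn i).real {p | ε < dist p.2 (Z p.1)} ≤ ε) :
    ∃ ζ : X → Y, Measurable ζ ∧ ∀ (F : X × Y → ℝ) (K C : ℝ), Continuous F → (∀ p, |F p| ≤ C) →
      (∀ x y y', |F (x, y) - F (x, y')| ≤ K * dist y y') →
      Tendsto (fun i => ∫ p, F p ∂κn i) atTop (𝓝 (∫ x, F (x, ζ x) ∂ν)) := by
  have hpow : ∀ k : ℕ, (0 : ℝ) < (1 / 2) ^ k := fun k => by positivity
  choose Z hZc hZ using fun k : ℕ => hz ((1 / 2) ^ k) (hpow k)
  have hms : ∀ k, MeasurableSet {p : X × Y | (1 / 2 : ℝ) ^ k < dist p.2 (Z k p.1)} := fun k =>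
    measurableSet_lt measurable_const (measurable_snd.dist ((hZc k).measurable.comp measurable_fst))
  have hc : ∀ k, ν {x | (1 / 2 : ℝ) ^ k + (1 / 2) ^ (k + 1) < dist (Z k x) (Z (k + 1) x)} ≤
      ENNReal.ofReal ((1 / 2) ^ k + (1 / 2) ^ (k + 1)) := by
    intro k
    have hU : IsOpen {x : X | (1 / 2 : ℝ) ^ k + (1 / 2) ^ (k + 1) < dist (Z k x) (Z (k + 1) x)} :=
      isOpen_lt continuous_const ((hZc k).dist (hZc (k + 1)))
    refine (open_le hν hU).trans ?_
    refine liminf_le_of_frequently_le' (Eventually.frequently ?_)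
    filter_upwards [hZ k, hZ (k + 1)] with i h1 h2
    have h3 : (Prod.fst ⁻¹' {x : X | (1 / 2 : ℝ) ^ k + (1 / 2) ^ (k + 1) < dist (Z k x) (Z (k + 1) x)} : Set (X × Y)) ⊆
        {p | (1 / 2 : ℝ) ^ k < dist p.2 (Z k p.1)} ∪ {p | (1 / 2 : ℝ) ^ (k + 1) < dist p.2 (Z (k + 1) p.1)} := by
      rintro ⟨x, y⟩ hx
      simp only [mem_preimage, mem_setOf_eq] at hx
      by_contra hcon
      simp only [mem_union, mem_setOf_eq, not_or, not_lt] at hcon
      have h4 := dist_triangle_left (Z k x) (Z (k + 1) x) y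
      linarith [hcon.1, hcon.2]
    refine (measure_mono h3).trans ((measure_union_le _ _).trans ?_)
    rw [ENNReal.ofReal_add (hpow _).le (hpow _).le]
    refine add_le_add ?_ ?_
    · exact ENNReal.le_ofReal_iff_toReal_le (measure_ne_top _ _) (hpow _).le |>.2 h1
    · exact ENNReal.le_ofReal_iff_toReal_le (measure_ne_top _ _) (hpow _).le |>.2 h2
  obtain ⟨ζ, hζm, hζ⟩ := cau_lim (fun k => (hZc k).measurable) hc
  refine ⟨ζ, hζm, fun F K C hF hC hK => ?_⟩
  have hFm : ∀ i, AEStronglyMeasurable F (κn i) := fun i => hF.measurable.aestronglyMeasurable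
  have hC0 : 0 ≤ C := by
    obtain ⟨x⟩ : Nonempty X := by
      by_contra hne
      rw [not_nonempty_iff] at hne
      have : ν univ = 0 := by
        rw [univ_eq_empty_iff.2 hne, measure_empty]
      rw [measure_univ] at this
      exact one_ne_zero this
    exact (abs_nonneg _).trans (hC (x, ζ x))
  -- the limit in k
  have hk : Tendsto (fun k => ∫ x, F (x, Z k x) ∂ν) atTop (𝓝 (∫ x, F (x, ζ x) ∂ν)) := by
    refine tendsto_integral_of_dominated_convergence (fun _ => C) (fun k => ?_) (integrable_const _) (fun k => ?_) ?_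
    · exact (hF.comp (continuous_id.prodMk (hZc k))).aestronglyMeasurable
    · exact Eventually.of_forall fun x => hC _
    · filter_upwards [hζ] with x hx
      exact (hF.tendsto (x, ζ x)).comp (tendsto_const_nhds.prodMk_nhds hx)
  rw [Metric.tendsto_atTop] at hk ⊢
  intro ε hε
  obtain ⟨k1, hk1⟩ := hk (ε / 4) (by positivity)
  have hk2 : Tendsto (fun k : ℕ => |K| * (1 / 2 : ℝ) ^ k + 2 * C * (1 / 2) ^ k) atTop (𝓝 0) := by
    have h1 : Tendsto (fun k : ℕ => (1 / 2 : ℝ) ^ k) atTop (𝓝 0) :=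
      tendsto_pow_atTop_nhds_zero_of_lt_one (by norm_num) (by norm_num)
    simpa using (h1.const_mul |K|).add (h1.const_mul (2 * C))
  obtain ⟨k2, hk2'⟩ := (Metric.tendsto_atTop.1 hk2) (ε / 4) (by positivity)
  obtain ⟨k, hkd⟩ : ∃ k, k = max k1 k2 := ⟨_, rfl⟩
  have b1 := hk1 k (hkd ▸ le_max_left _ _)
  have b2 := hk2' k (hkd ▸ le_max_right _ _)
  rw [Real.dist_eq, sub_zero] at b2
  have b2' := (le_abs_self _).trans_lt b2
  have b3 := hν (BoundedContinuousFunction.ofNormedAddCommGroup (fun x => F (x, Z k x))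
    (hF.comp (continuous_id.prodMk (hZc k))) C fun x => hC _)
  have b4 := (Metric.tendsto_nhds.1 b3) (ε / 4) (by positivity)
  obtain ⟨i0, hi0⟩ := eventually_atTop.1 (b4.and (hZ k))
  refine ⟨i0, fun i hi => ?_⟩
  obtain ⟨c1, c2⟩ := hi0 i hi
  have c3 : ∫ p, F (p.1, Z k p.1) ∂κn i = ∫ p : X × Y, (BoundedContinuousFunction.ofNormedAddCommGroup
    (fun x => F (x, Z k x)) (hF.comp (continuous_id.prodMk (hZc k))) C fun x => hC _) p.1 ∂κn i := rfl
  rw [← c3] at c1
  have c4 : |∫ p, F p ∂κn i - ∫ p, F (p.1, Z k p.1) ∂κn i| ≤ |K| * (1 / 2) ^ k + 2 * C * (1 / 2) ^ k := by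
    have hG : Continuous fun p : X × Y => F (p.1, Z k p.1) :=
      hF.comp (continuous_fst.prodMk ((hZc k).comp continuous_fst))
    have i1 : Integrable F (κn i) := Integrable.of_bound (hFm i) C (Eventually.of_forall hC)
    have i2 : Integrable (fun p : X × Y => F (p.1, Z k p.1)) (κn i) :=
      Integrable.of_bound hG.measurable.aestronglyMeasurable C (Eventually.of_forall fun p => hC _)
    have i3 : Integrable ({p : X × Y | (1 / 2 : ℝ) ^ k < dist p.2 (Z k p.1)}.indicator fun _ => (1 : ℝ)) (κn i) :=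
      (integrable_const 1).indicator (hms k)
    rw [← integral_sub i1 i2]
    have h1 : ∀ p : X × Y, |F p - F (p.1, Z k p.1)| ≤ |K| * (1 / 2) ^ k +
        2 * C * ({p : X × Y | (1 / 2 : ℝ) ^ k < dist p.2 (Z k p.1)}.indicator (fun _ => (1 : ℝ)) p) := by
      rintro ⟨x, y⟩
      by_cases hp : (x, y) ∈ {p : X × Y | (1 / 2 : ℝ) ^ k < dist p.2 (Z k p.1)}
      · rw [indicator_of_mem hp]
        have h2 := abs_sub (F (x, y)) (F (x, Z k x))
        have h3 := hC (x, y)
        have h4 := hC (x, Z k x)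
        have h5 : 0 ≤ |K| * (1 / 2 : ℝ) ^ k := by positivity
        show |F (x, y) - F (x, Z k x)| ≤ _
        linarith
      · rw [indicator_of_notMem hp, mul_zero, add_zero]
        simp only [mem_setOf_eq, not_lt] at hp
        refine (hK x y (Z k x)).trans ?_
        exact (mul_le_mul_of_nonneg_right (le_abs_self K) dist_nonneg).trans
          (mul_le_mul_of_nonneg_left hp (abs_nonneg K))
    refine (abs_integral_le_integral_abs).trans ((integral_mono (i1.sub i2).abs
      ((integrable_const (|K| * (1 / 2 : ℝ) ^ k)).add (i3.const_mul (2 * C))) h1).trans ?_)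
    rw [integral_add' (integrable_const _) (i3.const_mul _), integral_const, probReal_univ, one_smul,
      integral_const_mul, integral_indicator_const _ (hms k), smul_eq_mul, mul_one]
    exact add_le_add le_rfl (mul_le_mul_of_nonneg_left c2 (by positivity))
  rw [Real.dist_eq] at b1 c1 ⊢
  have d1 := abs_lt.1 b1
  have d2 := abs_lt.1 c1
  have d3 := abs_le.1 c4
  rw [abs_lt]
  have d4 : ∫ x, (BoundedContinuousFunction.ofNormedAddCommGroup (fun x => F (x, Z k x))
    (hF.comp (continuous_id.prodMk (hZc k))) C fun x => hC _) x ∂ν = ∫ x, F (x, Z k x) ∂ν := rfl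
  rw [d4] at d2
  constructor <;> linarith [d1.1, d1.2, d2.1, d2.2, d3.1, d3.2]

end mark

end Pool.Agent.ROT.F3
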