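import Pool.Agent.ROT.F3PicW
import Pool.Agent.ROT.F3Cls
import Pool.Agent.RMP.PubWA

/-!
# ROT, F3 (helper76): sectors and regions of the three explicit paths

* `SeP a δ v`, `SeQ a δ v` : the sector of the class `a` at the start and at the end; `seP_of`, `seQ_of` : from level and lateral
  coordinate; `Rq` : the regions with own tolerances at both ends; `rq_P`, `rq_Q` : points near the start, near the end;
  **`rq_shift`** : shift of both ends; `Rq.sep01`, `Rq.sep12`.
-/

set_option autoImplicit false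

namespace Pool.Agent.ROT.F3.Q12

open ComplexConjugate
open Pool.Agent.ROT.F3.Pw

/-! ### 1. Coordinates of the three directions -/

lemma e1_re : (ev 1).re = -(1 / 2) := by
  unfold ev
  rw [show ((1 : Fin 3) : ℕ) = 1 from rfl, pow_one]
  exact Pool.Agent.RMP.W.om_re

lemma e1_im : (ev 1).im = Real.sqrt 3 / 2 := by
  unfold ev
  rw [show ((1 : Fin 3) : ℕ) = 1 from rfl, pow_one]
  exact Pool.Agent.RMP.W.om_im

lemma e2_eq : ev 2 = conj (ev 1) := by
  rw [← ev_neg]
  rfl

lemma e2_re : (ev 2).re = -(1 / 2) := by rw [e2_eq, Complex.conj_re, e1_re]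

lemma e2_im : (ev 2).im = -(Real.sqrt 3 / 2) := by rw [e2_eq, Complex.conj_im, e1_im]

lemma lv0 (v : ℂ) : lv (ev 0) v = v.re := by
  unfold lv
  rw [ev_zero, map_one, one_mul]

lemma ltl0 (v : ℂ) : ltl (ev 0) v = v.im := by
  unfold ltl
  rw [ev_zero, map_one, one_mul]

lemma lv1 (v : ℂ) : lv (ev 1) v = -(1 / 2) * v.re + Real.sqrt 3 / 2 * v.im := by
  unfold lv
  rw [Complex.mul_re, Complex.conj_re, Complex.conj_im, e1_re, e1_im]
  ring

lemma ltl1 (v : ℂ) : ltl (ev 1) v = -(1 / 2) * v.im - Real.sqrt 3 / 2 * v.re := by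
  unfold ltl
  rw [Complex.mul_im, Complex.conj_re, Complex.conj_im, e1_re, e1_im]
  ring

lemma lv2 (v : ℂ) : lv (ev 2) v = -(1 / 2) * v.re - Real.sqrt 3 / 2 * v.im := by
  unfold lv
  rw [Complex.mul_re, Complex.conj_re, Complex.conj_im, e2_re, e2_im]
  ring

lemma ltl2 (v : ℂ) : ltl (ev 2) v = -(1 / 2) * v.im + Real.sqrt 3 / 2 * v.re := by
  unfold ltl
  rw [Complex.mul_im, Complex.conj_re, Complex.conj_im, e2_re, e2_im]
  ring

/-- the factor `1 / √3` -/
noncomputable def q3 : ℝ := 1 / Real.sqrt 3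

lemma q3_pos : 0 < q3 := by
  unfold q3
  have := s3p
  positivity

lemma q3_le : q3 ≤ 1 := inv3

lemma q3_mul : q3 * Real.sqrt 3 = 1 := by
  unfold q3
  have := s3p
  field_simp

lemma q3_im (x : ℝ) : x / Real.sqrt 3 = q3 * x := by
  unfold q3
  ring

lemma s3_q3 : Real.sqrt 3 = 3 * q3 := by
  have h1 := s3
  have h2 := q3_mul
  have h3 := s3p
  have : Real.sqrt 3 * (Real.sqrt 3 - 3 * q3) = 0 := by
    rw [mul_sub, h1]
    linear_combination -3 * h2
  rcases mul_eq_zero.1 this with h | h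
  · exact absurd h h3.ne'
  · linarith

lemma cx_q (v : ℂ) : cx v = -(2 * q3) * v.im := by
  unfold cx q3
  ring

lemma cy_q (v : ℂ) : cy v = v.re + q3 * v.im := by
  unfold cy
  rw [q3_im]

lemma q33 : 3 * (q3 * q3) = 1 := by
  have h1 := q3_mul
  rw [s3_q3] at h1
  linarith

/-- `v = 2 x`: coordinates from the level and the lateral coordinate -/
lemma c0 (v : ℂ) : cx v + cy v = lv (ev 0) v - q3 * ltl (ev 0) v ∧ cy v = lv (ev 0) v + q3 * ltl (ev 0) v := by
  rw [cx_q, cy_q, lv0, ltl0]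
  constructor <;> ring

lemma c1 (v : ℂ) : cx v = -lv (ev 1) v + q3 * ltl (ev 1) v ∧ cx v + cy v = -lv (ev 1) v - q3 * ltl (ev 1) v := by
  rw [cx_q, cy_q, lv1, ltl1, s3_q3]
  have h := q33
  constructor
  · linear_combination (1 / 2 * v.re) * h
  · linear_combination (-(1 / 2) * v.re) * h

lemma c2 (v : ℂ) : cx v = lv (ev 2) v + q3 * ltl (ev 2) v ∧ cy v = -lv (ev 2) v + q3 * ltl (ev 2) v := by
  rw [cx_q, cy_q, lv2, ltl2, s3_q3]
  have h := q33
  constructor
  · linear_combination (-(1 / 2) * v.re) * h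
  · linear_combination (-(1 / 2) * v.re) * h

/-! ### 2. Sectors -/

/-- the sector of the class `a` at the start -/
def SeP (a : Fin 3) (δ : ℝ) (v : ℂ) : Prop :=
  match a with
  | 0 => -δ ≤ cx v + cy v
  | 1 => cx v + cy v ≤ δ ∧ cx v ≤ δ
  | 2 => -δ ≤ cx v

/-- the sector of the class `a` at the end (seen from the end) -/
def SeQ (a : Fin 3) (δ : ℝ) (v : ℂ) : Prop :=
  match a with
  | 0 => -δ ≤ cy v
  | 1 => cy v ≤ δ ∧ -δ ≤ cx v
  | 2 => cx v ≤ δ

lemma q3_abs {x β : ℝ} (h : |x| ≤ β) : |q3 * x| ≤ β := by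
  rw [abs_mul, abs_of_pos q3_pos]
  calc q3 * |x| ≤ 1 * |x| := mul_le_mul_of_nonneg_right q3_le (abs_nonneg x)
    _ ≤ β := by rw [one_mul]; exact h

lemma seP_of {a : Fin 3} {α β : ℝ} {v : ℂ} (h : -α ≤ lv (ev a) v) (h' : |ltl (ev a) v| ≤ β) : SeP a (α + β) v := by
  have h2 := abs_le.1 (q3_abs h')
  match a with
  | 0 =>
    show -(α + β) ≤ cx v + cy v
    rw [(c0 v).1]
    linarith [h2.2]
  | 1 =>
    refine ⟨?_, ?_⟩
    · rw [(c1 v).2]
      linarith [h2.1]
    · rw [(c1 v).1]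
      linarith [h2.2]
  | 2 =>
    show -(α + β) ≤ cx v
    rw [(c2 v).1]
    linarith [h2.1]

lemma seQ_of {a : Fin 3} {α β : ℝ} {v : ℂ} (h : -α ≤ lv (ev (-a)) v) (h' : |ltl (ev (-a)) v| ≤ β) : SeQ a (α + β) v := by
  have h2 := abs_le.1 (q3_abs h')
  match a with
  | 0 =>
    rw [show -(0 : Fin 3) = 0 from rfl] at h h2
    show -(α + β) ≤ cy v
    rw [(c0 v).2]
    linarith [h2.1]
  | 1 =>
    rw [show -(1 : Fin 3) = 2 from rfl] at h h2
    refine ⟨?_, ?_⟩
    · rw [(c2 v).2]
      linarith [h2.2]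
    · rw [(c2 v).1]
      linarith [h2.1]
  | 2 =>
    rw [show -(2 : Fin 3) = 1 from rfl] at h h2
    show cx v ≤ α + β
    rw [(c1 v).1]
    linarith [h2.2]

/-! ### 3. Regions -/

/-- **the region of the class `a`** with its own tolerance at each end -/
def Rq (a : Fin 3) (δ δ' M : ℝ) (Y v : ℂ) : Prop :=
  match a with
  | 0 => -δ ≤ cx v + cy v ∨ cy Y - δ' ≤ cy v
  | 1 => cx v + cy v ≤ δ ∧ cy v ≤ cy Y + δ' ∧ -M ≤ v.re ∧ cx v ≤ δ ∧ cx Y - δ' ≤ cx v
  | 2 => -δ ≤ cx v ∨ cx v ≤ cx Y + δ' ∨ v.re ≤ -M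

/-- from the regions of F3PicW, with the true end -/
theorem rq_of {a : Fin 3} {δ M M' r : ℝ} {t t' v : ℂ} (h : Rg a δ M t v) (ht : ‖t' - t‖ ≤ r)
    (hM : a = 1 → M + δ ≤ M') (hM2 : a = 2 → M' ≤ M - δ) : Rq a δ (δ + 2 * r) M' t' v := by
  have b1 := abs_le.1 ((abs_cx (t' - t)).trans (mul_le_mul_of_nonneg_left ht (by norm_num)))
  have b2 := abs_le.1 ((abs_cy (t' - t)).trans (mul_le_mul_of_nonneg_left ht (by norm_num)))
  rw [cx_sub] at b1
  rw [cy_sub] at b2
  match a with
  | 0 =>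
    rcases h with h | h
    · exact Or.inl h
    · right
      linarith
  | 1 =>
    obtain ⟨e1, e2, e3, e4, e5⟩ := h
    have := hM rfl
    exact ⟨e1, by linarith, by linarith, e4, by linarith⟩
  | 2 =>
    have := hM2 rfl
    rcases h with h | h | h
    · exact Or.inl h
    · right; left
      linarith
    · right; right
      linarith

lemma Rq.mono {a : Fin 3} {δ δ' δ1 δ1' M : ℝ} {Y v : ℂ} (h : Rq a δ δ' M Y v) (hd : δ ≤ δ1) (hd' : δ' ≤ δ1') :
    Rq a δ1 δ1' M Y v := by
  match a with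
  | 0 =>
    rcases h with h | h
    · exact Or.inl (by linarith)
    · exact Or.inr (by linarith)
  | 1 =>
    obtain ⟨h1, h2, h3, h4, h5⟩ := h
    exact ⟨by linarith, by linarith, by linarith, by linarith, by linarith⟩
  | 2 =>
    rcases h with h | h | h
    · exact Or.inl (by linarith)
    · exact Or.inr (Or.inl (by linarith))
    · exact Or.inr (Or.inr (by linarith))

/-- **the classes 0 and 1** -/
theorem Rq.sep01 {δ δ' M M' : ℝ} {Y Y' v u z w : ℂ} (h : Rq 0 δ δ' M Y v) (h' : Rq 1 δ δ' M' Y' u) (hw : w = z + Y' - Y)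
    (hz : cx z + cy z < -(2 * δ)) (hw' : cy w < -(2 * δ')) : v ≠ u + z := by
  rintro rfl
  obtain ⟨h1, h2, -⟩ := h'
  rw [hw, cy_sub, cy_add] at hw'
  rcases h with h | h
  · rw [cx_add, cy_add] at h
    linarith
  · rw [cy_add] at h
    linarith

/-- **the classes 1 and 2** -/
theorem Rq.sep12 {δ δ' M M' : ℝ} {Y Y' v u z w : ℂ} (h : Rq 1 δ δ' M Y v) (h' : Rq 2 δ δ' M' Y' u) (hw : w = z + Y' - Y)
    (hz : 2 * δ < cx z) (hw' : cx w < -(2 * δ')) (hM : M + z.re < M') : v ≠ u + z := by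
  rintro rfl
  obtain ⟨-, -, h3, h4, h5⟩ := h
  rw [hw, cx_sub, cx_add] at hw'
  rw [cx_add] at h4 h5
  rw [Complex.add_re] at h3
  rcases h' with h | h | h
  · linarith
  · linarith
  · linarith

/-- points near the start -/
theorem rq_P {a : Fin 3} {δ δ' M r : ℝ} {Y v : ℂ} (h : SeP a δ v) (hv : ‖v‖ ≤ r) (hM : a = 1 → r ≤ M) (hδ' : 0 ≤ δ')
    (h1 : 2 * r ≤ cy Y) (h2 : cx Y ≤ -(2 * r)) : Rq a δ δ' M Y v := by
  have a1 := abs_le.1 ((abs_cx v).trans (mul_le_mul_of_nonneg_left hv (by norm_num)))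
  have a2 := abs_le.1 ((abs_cy v).trans (mul_le_mul_of_nonneg_left hv (by norm_num)))
  have a3 := abs_le.1 ((Complex.abs_re_le_norm v).trans hv)
  match a with
  | 0 => exact Or.inl h
  | 1 =>
    obtain ⟨g1, g2⟩ := h
    have := hM rfl
    exact ⟨g1, by linarith [a2.2], by linarith [a3.1], g2, by linarith [a1.1]⟩
  | 2 => exact Or.inl h

/-- points near the end -/
theorem rq_Q {a : Fin 3} {δ δ' M r : ℝ} {Y v : ℂ} (h : SeQ a δ' v) (hv : ‖v‖ ≤ r) (hM : a = 1 → r ≤ M + Y.re) (hδ : 0 ≤ δ)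
    (h1 : cx Y + cy Y ≤ -(2 * r)) (h2 : cx Y ≤ -(2 * r)) : Rq a δ δ' M Y (Y + v) := by
  have a1 := abs_le.1 ((abs_cx v).trans (mul_le_mul_of_nonneg_left hv (by norm_num)))
  have a2 := abs_le.1 ((abs_cs v).trans (mul_le_mul_of_nonneg_left hv (by norm_num)))
  have a3 := abs_le.1 ((Complex.abs_re_le_norm v).trans hv)
  match a with
  | 0 =>
    have h : -δ' ≤ cy v := h
    right
    rw [cy_add]
    linarith
  | 1 =>
    obtain ⟨g1, g2⟩ := h
    have := hM rfl
    refine ⟨?_, ?_, ?_, ?_, ?_⟩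
    · rw [cx_add, cy_add]
      linarith [a2.2]
    · rw [cy_add]
      linarith
    · rw [Complex.add_re]
      linarith [a3.1]
    · rw [cx_add]
      linarith [a1.2]
    · rw [cx_add]
      linarith
  | 2 =>
    have h : cx v ≤ δ' := h
    right
    left
    rw [cx_add]
    linarith

/-- **both ends shifted** -/
theorem rq_shift {a : Fin 3} {δ δ' δ1 δ2 M M' r : ℝ} {t u k0 k1 : ℂ} (h : Rq a δ δ' M t u) (h0 : SeP a δ1 k0)
    (h1 : SeQ a δ2 k1) (hk : ‖k0‖ ≤ r) (hM : a = 1 → M + r ≤ M') (hM2 : a = 2 → M' + r ≤ M) :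
    Rq a (δ + δ1) (δ' + δ2) M' (t + k0 - k1) (u + k0) := by
  have a3 := abs_le.1 ((Complex.abs_re_le_norm k0).trans hk)
  match a with
  | 0 =>
    have h0 : -δ1 ≤ cx k0 + cy k0 := h0
    have h1 : -δ2 ≤ cy k1 := h1
    rcases h with h | h
    · left
      rw [cx_add, cy_add]
      linarith
    · right
      rw [cy_sub, cy_add, cy_add]
      linarith
  | 1 =>
    obtain ⟨g1, g2⟩ := h0
    obtain ⟨g3, g4⟩ := h1
    obtain ⟨e1, e2, e3, e4, e5⟩ := h
    have := hM rfl
    refine ⟨?_, ?_, ?_, ?_, ?_⟩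
    · rw [cx_add, cy_add]
      linarith
    · rw [cy_sub, cy_add, cy_add]
      linarith
    · rw [Complex.add_re]
      linarith [a3.1]
    · rw [cx_add]
      linarith
    · rw [cx_sub, cx_add, cx_add]
      linarith
  | 2 =>
    have h0 : -δ1 ≤ cx k0 := h0
    have h1 : cx k1 ≤ δ2 := h1
    have := hM2 rfl
    rcases h with h | h | h
    · left
      rw [cx_add]
      linarith
    · right
      left
      rw [cx_sub, cx_add, cx_add]
      linarith
    · right
      right
      rw [Complex.add_re]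
      linarith [a3.2]

lemma cx_cont : Continuous cx := by
  unfold cx
  fun_prop

lemma cy_cont : Continuous cy := by
  unfold cy
  fun_prop

/-- the regions are closed -/
lemma rg_closed (a : Fin 3) (δ M : ℝ) (Y : ℂ) : IsClosed {v : ℂ | Rg a δ M Y v} := by
  match a with
  | 0 =>
    exact (isClosed_le continuous_const (cx_cont.add cy_cont)).union (isClosed_le continuous_const cy_cont)
  | 1 =>
    exact (isClosed_le (cx_cont.add cy_cont) continuous_const).inter ((isClosed_le cy_cont continuous_const).inter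
      ((isClosed_le continuous_const Complex.continuous_re).inter ((isClosed_le cx_cont continuous_const).inter
        (isClosed_le continuous_const cx_cont))))
  | 2 =>
    exact (isClosed_le continuous_const cx_cont).union ((isClosed_le cx_cont continuous_const).union
      (isClosed_le Complex.continuous_re continuous_const))

/-- closed in the point and the end together -/
lemma rq_closed {X : Type*} [TopologicalSpace X] (a : Fin 3) (δ δ' M : ℝ) {f g : X → ℂ} (hf : Continuous f) (hg : Continuous g) :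
    IsClosed {x : X | Rq a δ δ' M (f x) (g x)} := by
  have fx := cx_cont.comp hf
  have fy := cy_cont.comp hf
  have gx := cx_cont.comp hg
  have gy := cy_cont.comp hg
  have gr := Complex.continuous_re.comp hg
  match a with
  | 0 =>
    exact (isClosed_le continuous_const (gx.add gy)).union (isClosed_le (fy.sub continuous_const) gy)
  | 1 =>
    exact (isClosed_le (gx.add gy) continuous_const).inter ((isClosed_le gy (fy.add continuous_const)).inter
      ((isClosed_le continuous_const gr).inter ((isClosed_le gx continuous_const).inter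
        (isClosed_le (fx.sub continuous_const) gx))))
  | 2 =>
    exact (isClosed_le continuous_const gx).union ((isClosed_le gx (fx.add continuous_const)).union
      (isClosed_le gr continuous_const))

end Pool.Agent.ROT.F3.Q12
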