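import Pool.Agent.ROT.F3Mark
import Pool.Agent.ROT.F3Q12a
import Pool.Agent.ROT.F3CoreV

/-!
# ROT, F3 (helper76): the arcs of the three explicit paths behind the foreign gates

* `QK` : the closed conditions of a marked rest of the picture (`b` in the strip, middle piece in the region), `qk_closed`;
* `Gd a δ δ' M ϱ Y` : the arcs in the region with the end near `Y`; **`gd_of`** : the arc between the foreign gates is in `Gd`.
-/

set_option autoImplicit false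

open MeasureTheory Filter Topology Set ComplexConjugate

namespace Pool.Agent.ROT.F3.Q12

open Pool.Agent.ROT.F3 Pool.Agent.ROT.F3.CC Pool.Agent.ROT.F3.Mk Pool.Agent.ROT.F3.Pw

/-! ### 1. Times -/

lemma exists_cv {p q x : ℝ} (h : x ∈ uIcc p q) : ∃ u : unitInterval, p + (u : ℝ) * (q - p) = x := by
  rcases lt_trichotomy p q with h1 | h1 | h1
  · rw [uIcc_of_le h1.le] at h
    have h0 : 0 < q - p := by linarith
    refine ⟨⟨(x - p) / (q - p), div_nonneg (by linarith [h.1]) h0.le, (div_le_one h0).2 (by linarith [h.2])⟩, ?_⟩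
    show p + (x - p) / (q - p) * (q - p) = x
    rw [div_mul_cancel₀ _ h0.ne']
    ring
  · subst h1
    rw [uIcc_self, mem_singleton_iff] at h
    refine ⟨0, ?_⟩
    rw [h, sub_self, mul_zero, add_zero]
  · rw [uIcc_of_ge h1.le] at h
    have h0 : q - p < 0 := by linarith
    refine ⟨⟨(x - p) / (q - p), div_nonneg_of_nonpos (by linarith [h.2]) h0.le, ?_⟩, ?_⟩
    · rw [div_le_one_of_neg h0]
      linarith [h.1]
    · show p + (x - p) / (q - p) * (q - p) = x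
      rw [div_mul_cancel₀ _ h0.ne]
      ring

/-- a closed condition on all the points of a piece -/
lemma cutp_all {g : C(unitInterval, ℂ)} {p q : ℝ} {K : Set ℂ} (h : ∀ u : unitInterval, cutp g p q u ∈ K) {x : ℝ}
    (hx : x ∈ uIcc p q) : ex g x - ex g p ∈ K := by
  obtain ⟨u, hu⟩ := exists_cv hx
  have := h u
  rw [cutp_apply, hu] at this
  exact this

/-! ### 2. The closed conditions -/

/-- the strip of the outer blocks -/
def StB (d : ℂ) (w r ε : ℝ) : Set ℂ := {v | |ltl d v| ≤ w ∧ -ε ≤ lv d v ∧ ‖v‖ ≤ r}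

lemma stB_closed (d : ℂ) (w r ε : ℝ) : IsClosed (StB d w r ε) :=
  (isClosed_le (ltl_cont' d).abs continuous_const).inter ((isClosed_le continuous_const (lv_cont' d)).inter
    (isClosed_le continuous_norm continuous_const))

/-- **the marked rests of the picture** -/
structure QK (a : Fin 3) (w w' r r' ε h M : ℝ) (t : ℂ) (x : MP) : Prop where
  h0 : 0 ≤ x.2.1
  h1 : x.2.1 ≤ x.2.2
  h2 : x.2.2 ≤ 1
  z : x.1.1 0 = 0
  b : ∀ u : unitInterval, (two x).1.1 u ∈ StB (ev a) w r ε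
  b' : ∀ u : unitInterval, (two x).2.1 u ∈ StB (ev (-a)) w' r' ε
  m : ∀ u : unitInterval, Rg a h M t ((mid x).1 u)
  e : ‖dsp (mid x) - t‖ ≤ h

lemma allpts_closed {X : Type*} [TopologicalSpace X] {f : X → C(unitInterval, ℂ)} (hf : Continuous f) {K : Set ℂ}
    (hK : IsClosed K) : IsClosed {x : X | ∀ u : unitInterval, f x u ∈ K} := by
  have e : {x : X | ∀ u : unitInterval, f x u ∈ K} = ⋂ u : unitInterval, {x | f x u ∈ K} := by
    ext x
    simp
  rw [e]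
  exact isClosed_iInter fun u => hK.preimage ((continuous_eval_const u).comp hf)

theorem qk_closed (a : Fin 3) (w w' r r' ε h M : ℝ) (t : ℂ) : IsClosed {x : MP | QK a w w' r r' ε h M t x} := by
  have e : {x : MP | QK a w w' r r' ε h M t x} = {x | 0 ≤ x.2.1} ∩ {x | x.2.1 ≤ x.2.2} ∩ {x | x.2.2 ≤ 1} ∩ {x | x.1.1 0 = 0} ∩
      {x | ∀ u : unitInterval, (two x).1.1 u ∈ StB (ev a) w r ε} ∩ {x | ∀ u : unitInterval, (two x).2.1 u ∈ StB (ev (-a)) w' r' ε} ∩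
      {x | ∀ u : unitInterval, (mid x).1 u ∈ {v | Rg a h M t v}} ∩ {x | ‖dsp (mid x) - t‖ ≤ h} := by
    ext x
    simp only [mem_inter_iff, mem_ofPred_eq]
    constructor
    · intro h
      exact ⟨⟨⟨⟨⟨⟨⟨h.h0, h.h1⟩, h.h2⟩, h.z⟩, h.b⟩, h.b'⟩, h.m⟩, h.e⟩
    · rintro ⟨⟨⟨⟨⟨⟨⟨h1, h2⟩, h3⟩, h4⟩, h5⟩, h6⟩, h7⟩, h8⟩
      exact ⟨h1, h2, h3, h4, h5, h6, h7, h8⟩
  rw [e]
  have c0 : Continuous fun x : MP => (two x).1.1 := continuous_fst.comp (continuous_fst.comp two_cont)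
  have c1 : Continuous fun x : MP => (two x).2.1 := continuous_fst.comp (continuous_snd.comp two_cont)
  have c2 : Continuous fun x : MP => (mid x).1 := continuous_fst.comp mid_cont
  refine ((((((IsClosed.inter ?_ ?_).inter ?_).inter ?_).inter ?_).inter ?_).inter ?_).inter ?_
  · exact isClosed_le continuous_const (by fun_prop)
  · exact isClosed_le (by fun_prop) (by fun_prop)
  · exact isClosed_le (by fun_prop) continuous_const
  · exact isClosed_eq ((continuous_eval_const (0 : unitInterval)).comp (by fun_prop)) continuous_const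
  · exact allpts_closed c0 (stB_closed _ _ _ _)
  · exact allpts_closed c1 (stB_closed _ _ _ _)
  · exact allpts_closed c2 (rg_closed _ _ _ _)
  · exact isClosed_le ((dsp_cont.comp mid_cont).sub continuous_const).norm continuous_const

/-! ### 3. The arcs -/

/-- **the arcs of the picture** -/
def Gd (a : Fin 3) (δ δ' M ϱ : ℝ) (Y : ℂ) : Set Pie :=
  {x | (∀ u : unitInterval, Rq a δ δ' M (dsp x) (x.1 u)) ∧ ‖dsp x - Y‖ ≤ ϱ}

lemma gd_closed (a : Fin 3) (δ δ' M ϱ : ℝ) (Y : ℂ) : IsClosed (Gd a δ δ' M ϱ Y) := by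
  have e0 : Gd a δ δ' M ϱ Y = {x : Pie | ∀ u : unitInterval, Rq a δ δ' M (dsp x) (x.1 u)} ∩ {x | ‖dsp x - Y‖ ≤ ϱ} := rfl
  rw [e0]
  refine IsClosed.inter ?_ (isClosed_le (dsp_cont.sub continuous_const).norm continuous_const)
  have e : {x : Pie | ∀ u : unitInterval, Rq a δ δ' M (dsp x) (x.1 u)} = ⋂ u : unitInterval, {x : Pie | Rq a δ δ' M (dsp x) (x.1 u)} := by
    ext x
    simp
  rw [e]
  exact isClosed_iInter fun u => rq_closed a δ δ' M dsp_cont ((continuous_eval_const u).comp continuous_fst)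

lemma lv_subQ (d v w : ℂ) : lv d (v - w) = lv d v - lv d w := by
  unfold lv
  rw [mul_sub, Complex.sub_re]

lemma ltl_subQ (d v w : ℂ) : ltl d (v - w) = ltl d v - ltl d w := by
  unfold ltl
  rw [mul_sub, Complex.sub_im]

lemma lv_le_normQ {d : ℂ} (hd : ‖d‖ = 1) (v : ℂ) : |lv d v| ≤ ‖v‖ := by
  unfold lv
  refine (Complex.abs_re_le_norm _).trans ?_
  rw [norm_mul, Complex.norm_conj, hd, one_mul]

lemma norm_le_lt {d : ℂ} (hd : ‖d‖ = 1) (v : ℂ) : ‖v‖ ≤ |lv d v| + |ltl d v| := by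
  have h := Complex.norm_le_abs_re_add_abs_im (conj d * v)
  rwa [norm_mul, Complex.norm_conj, hd, one_mul] at h

lemma norm_evQ (a : Fin 3) : ‖ev a‖ = 1 := ev_norm a

/-- **one end**: `v` a point seen from the foreign gate `X`, both in the strip of the block -/
lemma sect {d t1 X z : ℂ} {c κ r0 w r ε ε0 k : ℝ} (hd : ‖d‖ = 1) (ht : ‖t1 - d‖ ≤ ε0) (hc : ε0 ≤ c) (hz : z ∈ StB d w r ε)
    (hX : X ∈ StB d w r ε) (hk : ‖X‖ ≤ k) (hv : Kn t1 c κ (z - X) ∨ r0 - κ ≤ ‖z - X‖) (hfar : ε + k + 2 * w < r0 - κ)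
    (hκ : 0 ≤ κ) : -κ ≤ lv d (z - X) ∧ |ltl d (z - X)| ≤ 2 * w := by
  have h1 : |ltl d (z - X)| ≤ 2 * w := by
    rw [ltl_subQ]
    refine (abs_sub _ _).trans ?_
    linarith [hz.1, hX.1]
  refine ⟨?_, h1⟩
  rcases hv with h | h
  · unfold Kn at h
    have h2 : lv t1 (z - X) - lv d (z - X) ≤ ε0 * ‖z - X‖ := by
      have e : lv t1 (z - X) - lv d (z - X) = (conj (t1 - d) * (z - X)).re := by
        unfold lv
        rw [map_sub, sub_mul, Complex.sub_re]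
      rw [e]
      refine (Complex.re_le_norm _).trans ?_
      rw [norm_mul, Complex.norm_conj]
      exact mul_le_mul_of_nonneg_right ht (norm_nonneg _)
    have h3 := mul_le_mul_of_nonneg_right hc (norm_nonneg (z - X))
    linarith
  · by_contra hn
    rw [not_le] at hn
    have h2 := norm_le_lt hd (z - X)
    have h3 : lv d (z - X) < 0 := by linarith
    rw [abs_of_neg h3] at h2
    have h4 : -(ε + k) ≤ lv d (z - X) := by
      rw [lv_subQ]
      have h5 := (abs_le.1 ((lv_le_normQ hd X).trans hk)).2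
      linarith [hz.2.1]
    linarith

/-- **the arc between the foreign gates** -/
theorem gd_of {a : Fin 3} {E E' : En} {ε0 : ℝ} (hE : E.Ok ε0) (hE' : E'.Ok ε0) {t1 t1' : ℂ} (ht : ‖t1 - ev a‖ ≤ ε0)
    (ht' : ‖t1' - ev (-a)‖ ≤ ε0) {W : Wn} {AC : Set Pie} (hA : AC ⊆ ArV t1 t1' E E' W) {w w' r r' ε h M M' : ℝ} {t Y β β' : ℂ}
    {x : MP} (hx : QK a w w' r r' ε h M t x) {τ τ' : ℝ} (hτ : τ ≤ x.2.1) (hτ' : x.2.2 ≤ τ')
    (hv : (x.1, (τ, τ')) ∈ VT (ev a) (ev (-a)) E E' AC) {εb εb' ϱ δ δ' : ℝ} (hb : ‖dsp (two x).1 - β‖ ≤ εb)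
    (hb' : ‖dsp (two x).2 - β'‖ ≤ εb') (hty : t = Y - (β - E.kc * ev a) + (β' - E'.kc * ev (-a)))
    (hh : 0 ≤ h) (hw : 0 ≤ w) (hw' : 0 ≤ w') (hϱ : h + εb + εb' + E.kr + E'.kr ≤ ϱ)
    (hδ : h + (E.f.κ + 2 * w) ≤ δ) (hδ' : 3 * h + (E'.f.κ + 2 * w') ≤ δ') (hf : ε + E.k + 2 * w < E.f.r0 - E.f.κ)
    (hf' : ε + E'.k + 2 * w' < E'.f.r0 - E'.f.κ)
    (m1 : a = 1 → M + h + 2 * r ≤ M' ∧ 2 * r ≤ M' ∧ 2 * r' + ϱ ≤ M' + Y.re) (m2 : a = 2 → M' + 2 * r + h ≤ M)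
    (y1 : 4 * r + 2 * ϱ ≤ cy Y) (y2 : cx Y ≤ -(4 * r + 2 * ϱ)) (y3 : cx Y + cy Y ≤ -(4 * r' + 2 * ϱ))
    (y4 : cx Y ≤ -(4 * r' + 2 * ϱ)) : pcut x.1 τ τ' ∈ Gd a δ δ' M' ϱ Y := by
  obtain ⟨⟨⟨g, T⟩, s, s'⟩, hxe⟩ : ∃ y, y = x := ⟨_, rfl⟩
  subst hxe
  obtain ⟨h0, h1, h2, hz, hB, hB', hM, hE1⟩ := hx
  simp only at h0 h1 h2 hz hτ hτ'
  have v0 : 0 ≤ τ := hv.h0
  have v1 : τ ≤ τ' := hv.h1
  have v2 : τ' ≤ 1 := hv.h2
  have kp : KV (ev a) E (pcut (g, T) 0 τ) := hv.kp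
  have kq : KV (ev (-a)) E' (pcut (g, T) 1 τ') := hv.kq
  obtain ⟨⟨a0, ⟨a1, a2⟩, a3⟩, -⟩ := hA hv.a
  -- the points
  have pB : ∀ y : ℝ, 0 ≤ y → y ≤ s → ex g y ∈ StB (ev a) w r ε := by
    intro y hy0 hys
    have := cutp_all (g := g) (p := 0) (q := s) (K := StB (ev a) w r ε) hB (x := y) (by rw [uIcc_of_le h0]; exact ⟨hy0, hys⟩)
    rwa [ex_zero, hz, sub_zero] at this
  have pB' : ∀ y : ℝ, s' ≤ y → y ≤ 1 → ex g y - g 1 ∈ StB (ev (-a)) w' r' ε := by
    intro y hy0 hys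
    have := cutp_all (g := g) (p := 1) (q := s') (K := StB (ev (-a)) w' r' ε) hB' (x := y)
      (by rw [uIcc_of_ge h2]; exact ⟨hy0, hys⟩)
    rwa [ex_one] at this
  have pM : ∀ y : ℝ, s ≤ y → y ≤ s' → Rg a h M t (ex g y - ex g s) := by
    intro y hy0 hys
    exact cutp_all (g := g) (p := s) (q := s') (K := {v | Rg a h M t v}) hM (x := y) (by rw [uIcc_of_le h1]; exact ⟨hy0, hys⟩)
  have pA : ∀ y : ℝ, τ ≤ y → y ≤ τ' → (Kn t1 E.f.c E.f.κ (ex g y - ex g τ) ∨ E.f.r0 - E.f.κ ≤ ‖ex g y - ex g τ‖) ∧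
      (Kn t1' E'.f.c E'.f.κ (ex g y - ex g τ') ∨ E'.f.r0 - E'.f.κ ≤ ‖ex g y - ex g τ'‖) := by
    intro y hy0 hys
    have h5 : ∀ u : unitInterval, cutp g τ τ' u ∈ {v : ℂ | v ∈ EdK t1 E.f ∧ v - (ex g τ' - ex g τ) ∈ EdK t1' E'.f} := by
      intro u
      obtain ⟨b1, b2⟩ := a3 u
      refine ⟨b1, ?_⟩
      have e : (pcut (g, T) τ τ').1 1 = ex g τ' - ex g τ := cutp_one g τ τ'
      rw [e] at b2
      exact b2
    have h6 := cutp_all h5 (x := y) (by rw [uIcc_of_le v1]; exact ⟨hy0, hys⟩)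
    refine ⟨h6.1.2, ?_⟩
    have h7 := h6.2.2
    have e : ex g y - ex g τ - (ex g τ' - ex g τ) = ex g y - ex g τ' := by ring
    rwa [e] at h7
  -- the gates
  have X0 : ‖ex g τ‖ ≤ E.k := by
    have := kp.b 1
    have e : (pcut (g, T) 0 τ).1 1 = ex g τ := by
      show cutp g 0 τ 1 = _
      rw [cutp_one, ex_zero, hz, sub_zero]
    rwa [e] at this
  have X1 : ‖ex g τ - (E.kc : ℂ) * ev a‖ ≤ E.kr := by
    have := kp.cell
    have e : (pcut (g, T) 0 τ).1 1 = ex g τ := by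
      show cutp g 0 τ 1 = _
      rw [cutp_one, ex_zero, hz, sub_zero]
    rwa [e] at this
  have X0' : ‖ex g τ' - g 1‖ ≤ E'.k := by
    have := kq.b 1
    have e : (pcut (g, T) 1 τ').1 1 = ex g τ' - g 1 := by
      show cutp g 1 τ' 1 = _
      rw [cutp_one, ex_one]
    rwa [e] at this
  have X1' : ‖(ex g τ' - g 1) - (E'.kc : ℂ) * ev (-a)‖ ≤ E'.kr := by
    have := kq.cell
    have e : (pcut (g, T) 1 τ').1 1 = ex g τ' - g 1 := by
      show cutp g 1 τ' 1 = _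
      rw [cutp_one, ex_one]
    rwa [e] at this
  have Y0 : ‖ex g s - β‖ ≤ εb := by
    have e : dsp (two ((g, T), (s, s'))).1 = ex g s := by
      show dsp (pcut (g, T) 0 s) = _
      rw [dsp_pcut, ex_zero, hz, sub_zero]
    rwa [e] at hb
  have Y0' : ‖(ex g s' - g 1) - β'‖ ≤ εb' := by
    have e : dsp (two ((g, T), (s, s'))).2 = ex g s' - g 1 := by
      show dsp (pcut (g, T) 1 s') = _
      rw [dsp_pcut, ex_one]
    rwa [e] at hb'
  have D0 : ‖(ex g s' - ex g s) - t‖ ≤ h := by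
    have e : dsp (mid ((g, T), (s, s'))) = ex g s' - ex g s := by
      show dsp (pcut (g, T) s s') = _
      rw [dsp_pcut]
    rwa [e] at hE1
  have D1 : dsp (pcut (g, T) τ τ') = ex g τ' - ex g τ := dsp_pcut _ _ _
  have D2 : ‖(ex g τ' - ex g τ) - Y‖ ≤ ϱ := by
    have e : (ex g τ' - ex g τ) - Y = ((ex g s' - ex g s) - t) + (ex g s - β) - (ex g τ - (E.kc : ℂ) * ev a) +
        ((ex g τ' - g 1) - (E'.kc : ℂ) * ev (-a)) - ((ex g s' - g 1) - β') := by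
      rw [hty]
      ring
    rw [e]
    refine (norm_sub_le _ _).trans ?_
    refine (add_le_add ((norm_add_le _ _).trans (add_le_add ((norm_sub_le _ _).trans (add_le_add (norm_add_le _ _) le_rfl))
      le_rfl)) le_rfl).trans ?_
    linarith
  have hc0 : ε0 ≤ E.f.c := by linarith [hE.c, hE.n.c, hE.n.cs]
  have hc0' : ε0 ≤ E'.f.c := by linarith [hE'.c, hE'.n.c, hE'.n.cs]
  have hκ := hE.f.κ
  have hκ' := hE'.f.κ
  -- sectors
  have sP : ∀ y : ℝ, τ ≤ y → y ≤ s → SeP a (E.f.κ + 2 * w) (ex g y - ex g τ) ∧ ‖ex g y - ex g τ‖ ≤ 2 * r := by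
    intro y hy0 hys
    have b1 := pB y (v0.trans hy0) hys
    have b2 := pB τ v0 hτ
    obtain ⟨c1, c2⟩ := sect (norm_evQ a) ht hc0 b1 b2 X0 (pA y hy0 (by linarith)).1 hf hκ.le
    refine ⟨seP_of c1 c2, (norm_sub_le _ _).trans ?_⟩
    linarith [b1.2.2, b2.2.2]
  have sQ : ∀ y : ℝ, s' ≤ y → y ≤ τ' → SeQ a (E'.f.κ + 2 * w') (ex g y - ex g τ') ∧ ‖ex g y - ex g τ'‖ ≤ 2 * r' := by
    intro y hy0 hys
    have b1 := pB' y hy0 (hys.trans v2)
    have b2 := pB' τ' hτ' v2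
    have e : (ex g y - g 1) - (ex g τ' - g 1) = ex g y - ex g τ' := by ring
    have c := sect (norm_evQ (-a)) ht' hc0' b1 b2 X0' (by rw [e]; exact (pA y (by linarith) hys).2) hf' hκ'.le
    rw [e] at c
    refine ⟨seQ_of c.1 c.2, ?_⟩
    rw [← e]
    refine (norm_sub_le _ _).trans ?_
    linarith [b1.2.2, b2.2.2]
  have hϱ0 : 0 ≤ ϱ := (norm_nonneg _).trans D2
  have hr0 : 0 ≤ r := (norm_nonneg _).trans (pB 0 le_rfl h0).2.2
  -- the true end
  obtain ⟨Z, hZ⟩ : ∃ Z : ℂ, Z = ex g τ' - ex g τ := ⟨_, rfl⟩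
  rw [← hZ] at D1 D2
  have z1 := abs_le.1 ((abs_cx (Z - Y)).trans (mul_le_mul_of_nonneg_left D2 (by norm_num)))
  have z2 := abs_le.1 ((abs_cy (Z - Y)).trans (mul_le_mul_of_nonneg_left D2 (by norm_num)))
  have z3 := abs_le.1 ((abs_cs (Z - Y)).trans (mul_le_mul_of_nonneg_left D2 (by norm_num)))
  have z4 := abs_le.1 ((Complex.abs_re_le_norm (Z - Y)).trans D2)
  rw [cx_sub] at z1 z3
  rw [cy_sub] at z2 z3
  rw [Complex.sub_re] at z4
  refine ⟨fun u => ?_, by rw [D1]; exact D2⟩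
  rw [D1]
  show Rq a δ δ' M' Z (cutp g τ τ' u)
  rw [cutp_apply]
  obtain ⟨y, hy⟩ : ∃ y : ℝ, y = τ + (u : ℝ) * (τ' - τ) := ⟨_, rfl⟩
  have hd0 : 0 ≤ τ' - τ := by linarith
  have hy0 : τ ≤ y := by
    rw [hy]
    have := mul_nonneg u.2.1 hd0
    linarith
  have hy1 : y ≤ τ' := by
    rw [hy]
    have := mul_le_mul_of_nonneg_right u.2.2 hd0
    linarith
  rw [← hy]
  rcases le_or_gt y s with c1 | c1
  · obtain ⟨s1, s2⟩ := sP y hy0 c1
    refine (rq_P (δ' := δ') s1 s2 (fun ha => (m1 ha).2.1) (by linarith) (by linarith) (by linarith)).mono ?_ le_rfl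
    linarith
  · rcases le_or_gt s' y with c2 | c2
    · obtain ⟨s1, s2⟩ := sQ y c2 hy1
      have e : ex g y - ex g τ = Z + (ex g y - ex g τ') := by
        rw [hZ]
        ring
      rw [e]
      refine (rq_Q (δ := δ) s1 s2 (fun ha => by linarith [(m1 ha).2.2]) (by linarith) (by linarith) (by linarith)).mono
        le_rfl ?_
      linarith
    · obtain ⟨k1, k2⟩ := sP s hτ le_rfl
      obtain ⟨k3, k4⟩ := sQ s' le_rfl hτ'
      obtain ⟨M1, hM1⟩ : ∃ M1 : ℝ, M1 = if a = 2 then M - h else M + h := ⟨_, rfl⟩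
      have q1 := rq_of (M' := M1) (t' := ex g s' - ex g s) (r := h) (pM y c1.le c2.le) D0
        (fun ha => by rw [hM1, if_neg (by rw [ha]; decide)]) (fun ha => by rw [hM1, if_pos ha])
      have r1 := rq_shift (M' := M') q1 k1 k3 k2 (fun ha => by
        rw [hM1, if_neg (by rw [ha]; decide)]
        exact (m1 ha).1) (fun ha => by
        rw [hM1, if_pos ha]
        linarith [m2 ha])
      have e : ex g y - ex g s + (ex g s - ex g τ) = ex g y - ex g τ := by ring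
      have e2 : ex g s' - ex g s + (ex g s - ex g τ) - (ex g s' - ex g τ') = Z := by
        rw [hZ]
        ring
      rw [e, e2] at r1
      exact r1.mono (by linarith) (by linarith)

end Pool.Agent.ROT.F3.Q12
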