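import Pool.Agent.ROT.F3Q12b
import Pool.Agent.ROT.F3CoreA

/-!
# ROT, F3 (helper76): `q12`, `q23` of `core_abs` from the arcs of the picture

* `law_snd` : the law of the arcs of a class; **`law_pos`** : it charges the arcs of the picture, from the limit of the marked rests;
* **`q_of`** : two classes of arcs which are disjoint for all positions in the cells: the hypothesis of `core_abs`;
* `sep01`, `sep12` : the disjointness for the classes 0, 1 and 1, 2 with the centres `h (v ev j - v ev i)`.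
-/

set_option autoImplicit false

open MeasureTheory Filter Topology Set ComplexConjugate
open scoped ENNReal

namespace Pool.Agent.ROT.F3.Q12

open Pool.Agent.ROT.F3 Pool.Agent.ROT.F3.CC Pool.Agent.ROT.F3.Mk Pool.Agent.ROT.F3.Pw

/-! ### 1. The law of the arcs -/

lemma law_snd {tt tt' : Pie → ℝ} {C : Set Pie} (β : Measure Pie) (mt : Measurable tt) (mt' : Measurable tt') {G : Set Pie} (hG : MeasurableSet G) :
    ((clsC tt tt' C).law β).snd G = β (C ∩ {r | pcut r (tt r) (tt' r) ∈ G}) := by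
  have h1 : Measurable (tau tt tt') := tau_meas mt mt'
  have h2 : MeasurableSet {r : Pie | pcut r (tt r) (tt' r) ∈ G} := pcut_meas measurable_id mt mt' hG
  rw [Measure.snd_apply hG]
  show ((β.restrict C).map (tau tt tt')) _ = _
  rw [Measure.map_apply h1 (measurable_snd hG), Measure.restrict_apply (h1 (measurable_snd hG))]
  rw [inter_comm]
  rfl

/-- **the law of the arcs charges the arcs of the picture** -/
theorem law_pos {bh : Measure MP} {β κ κ' : Measure Pie} [SFinite κ'] (hle : bh.map Prod.fst ≤ β) {u : ℝ} (hu : 0 < u)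
    (hprod : bh.map two = ENNReal.ofReal u • κ.prod κ') {K : Set MP} (hq : ∀ᵐ x ∂bh, x ∈ K) {S S' : Set Pie}
    (hS : MeasurableSet S) (hS' : MeasurableSet S') {b0 b0' : ℂ} {εb εb' : ℝ} (hκ : κ (S ∩ {p | ‖dsp p - b0‖ ≤ εb}) ≠ 0)
    (hκ' : κ' (S' ∩ {p | ‖dsp p - b0'‖ ≤ εb'}) ≠ 0) {tt tt' : Pie → ℝ} {C : Set Pie} (mt : Measurable tt)
    (mt' : Measurable tt') (mC : MeasurableSet C)
    (hloc : ∀ᵐ x ∂bh, (two x).1 ∈ S → (two x).2 ∈ S' → x.1 ∈ C ∧ tt x.1 ≤ x.2.1 ∧ x.2.2 ≤ tt' x.1) {G : Set Pie}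
    (hG : MeasurableSet G)
    (hgd : ∀ x ∈ K, ‖dsp (two x).1 - b0‖ ≤ εb → ‖dsp (two x).2 - b0'‖ ≤ εb' → x.1 ∈ C → tt x.1 ≤ x.2.1 → x.2.2 ≤ tt' x.1 →
      pcut x.1 (tt x.1) (tt' x.1) ∈ G) : ((clsC tt tt' C).law β).snd G ≠ 0 := by
  have h2 : MeasurableSet {r : Pie | pcut r (tt r) (tt' r) ∈ G} := pcut_meas measurable_id mt mt' hG
  have hA : MeasurableSet (C ∩ {r | pcut r (tt r) (tt' r) ∈ G}) := mC.inter h2
  have c1 : ∀ (b : ℂ) (e : ℝ), MeasurableSet {p : Pie | ‖dsp p - b‖ ≤ e} := fun b e =>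
    (isClosed_le (dsp_cont.sub continuous_const).norm continuous_const).measurableSet
  rw [law_snd β mt mt' hG]
  have h3 : bh (two ⁻¹' ((S ∩ {p | ‖dsp p - b0‖ ≤ εb}) ×ˢ (S' ∩ {p | ‖dsp p - b0'‖ ≤ εb'}))) ≠ 0 := by
    rw [← Measure.map_apply two_cont.measurable ((hS.inter (c1 _ _)).prod (hS'.inter (c1 _ _))), hprod, Measure.smul_apply,
      smul_eq_mul, Measure.prod_prod]
    refine mul_ne_zero ?_ (mul_ne_zero hκ hκ')
    rw [Ne, ENNReal.ofReal_eq_zero, not_le]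
    exact hu
  have h4 : bh (two ⁻¹' ((S ∩ {p | ‖dsp p - b0‖ ≤ εb}) ×ˢ (S' ∩ {p | ‖dsp p - b0'‖ ≤ εb'}))) ≤
      (bh.map Prod.fst) (C ∩ {r | pcut r (tt r) (tt' r) ∈ G}) := by
    rw [Measure.map_apply measurable_fst hA]
    refine measure_mono_ae ?_
    filter_upwards [hq, hloc] with x g1 g2 g3
    obtain ⟨⟨g4, g5⟩, ⟨g6, g7⟩⟩ := g3
    obtain ⟨g8, g9, g10⟩ := g2 g4 g6
    exact ⟨g8, hgd x g1 g5 g7 g8 g9 g10⟩
  intro h0
  exact h3 (le_antisymm (h4.trans ((hle _).trans (le_of_eq h0))) zero_le)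

/-- one small cell carries mass -/
lemma cell_ex {κ : Measure Pie} {S : Set Pie} (h : κ S ≠ 0) {e : ℝ} (he : 0 < e) : ∃ b0 : ℂ, κ (S ∩ {p | ‖dsp p - b0‖ ≤ e}) ≠ 0 := by
  by_contra hc
  push Not at hc
  apply h
  have h1 : S ⊆ ⋃ n : ℕ, S ∩ {p | ‖dsp p - TopologicalSpace.denseSeq ℂ n‖ ≤ e} := by
    intro p hp
    obtain ⟨n, hn⟩ := Metric.denseRange_iff.1 (TopologicalSpace.denseRange_denseSeq ℂ) (dsp p) e he
    rw [mem_iUnion]
    refine ⟨n, hp, ?_⟩
    show ‖dsp p - _‖ ≤ e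
    rw [← dist_eq_norm]
    exact hn.le
  exact le_antisymm ((measure_mono h1).trans ((measure_iUnion_le _).trans (by simp [hc]))) zero_le

/-! ### 2. The hypothesis of `core_abs` -/

/-- **two classes of arcs** -/
theorem q_of {m1 m2 : Measure Pie} [SFinite m1] [SFinite m2] {G1 G2 : Set Pie} (h1 : m1 G1 ≠ 0) (h2 : m2 G2 ≠ 0)
    {Z12 W12 : Set ℂ} (mZ : MeasurableSet Z12) (mW : MeasurableSet W12) {z0 w0 Y1 Y2 : ℂ} {ϱ r r' : ℝ}
    (hd : ∀ x ∈ G1, ∀ y ∈ G2, ∀ z : ℂ, ‖z - z0‖ ≤ r → ‖z + dsp y - dsp x - w0‖ ≤ r' → ∀ s t : unitInterval, x.1 s ≠ y.1 t + z)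
    (e1 : ∀ x ∈ G1, ‖dsp x - Y1‖ ≤ ϱ) (e2 : ∀ x ∈ G2, ‖dsp x - Y2‖ ≤ ϱ) (hY : w0 = z0 + Y2 - Y1)
    (hr : 0 < r) (hr' : 0 < r') (hϱ : 2 * ϱ < r ∨ 2 * ϱ < r') (sZ : Metric.closedBall z0 r ⊆ Z12)
    (sW : Metric.closedBall w0 r' ⊆ W12) :
    (m1.prod (m2.prod volume)) (DD Prod.fst Prod.fst yP yP Z12 W12 ∩
      {p | zw yP yP p ∈ Metric.closedBall z0 r ×ˢ Metric.closedBall w0 r'}) ≠ 0 := by
  have my : Measurable yP := dsp_cont.measurable.neg
  obtain ⟨E, hE⟩ : ∃ E : Set (Pie × (Pie × ℂ)), E = DD Prod.fst Prod.fst yP yP Z12 W12 ∩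
      {p | zw yP yP p ∈ Metric.closedBall z0 r ×ˢ Metric.closedBall w0 r'} := ⟨_, rfl⟩
  have mE : MeasurableSet E := by
    rw [hE]
    refine (dd_meas measurable_fst measurable_fst my my mZ mW).inter ?_
    have hm : Measurable (zw yP yP : Pie × (Pie × ℂ) → ℂ × ℂ) := by
      unfold zw
      exact Measurable.prodMk (by fun_prop) (((measurable_snd.comp measurable_snd).add (my.comp measurable_fst)).sub
        (my.comp (measurable_fst.comp measurable_snd)))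
    exact hm (Metric.isClosed_closedBall.measurableSet.prod Metric.isClosed_closedBall.measurableSet)
  rw [← hE]
  intro h0
  rw [Measure.measure_prod_null mE] at h0
  obtain ⟨x, hx, hx0⟩ : ∃ x ∈ G1, (m2.prod volume) (Prod.mk x ⁻¹' E) = 0 := by
    by_contra hc
    push Not at hc
    refine h1 (measure_mono_null (fun x hx => ?_) (ae_iff.1 h0))
    exact hc x hx
  rw [Measure.measure_prod_null (measurable_prodMk_left mE)] at hx0
  obtain ⟨y, hy, hy0⟩ : ∃ y ∈ G2, volume (Prod.mk y ⁻¹' (Prod.mk x ⁻¹' E)) = 0 := by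
    by_contra hc
    push Not at hc
    refine h2 (measure_mono_null (fun y hy => ?_) (ae_iff.1 hx0))
    exact hc y hy
  have ex := e1 x hx
  have ey := e2 y hy
  obtain ⟨zs, ρ, hρ, hz⟩ : ∃ (zs : ℂ) (ρ : ℝ), 0 < ρ ∧ ∀ z ∈ Metric.ball zs ρ, ‖z - z0‖ ≤ r ∧ ‖z + dsp y - dsp x - w0‖ ≤ r' := by
    rcases hϱ with hϱ | hϱ
    · refine ⟨z0 + (dsp x - Y1) - (dsp y - Y2), min (r - 2 * ϱ) r', lt_min (by linarith) hr', fun z hz => ?_⟩
      rw [mem_ball_iff_norm] at hz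
      constructor
      · have e : z - z0 = (z - (z0 + (dsp x - Y1) - (dsp y - Y2))) + (dsp x - Y1) - (dsp y - Y2) := by ring
        rw [e]
        refine (norm_sub_le _ _).trans ((add_le_add (norm_add_le _ _) le_rfl).trans ?_)
        linarith [hz.le.trans (min_le_left _ _)]
      · have e : z + dsp y - dsp x - w0 = z - (z0 + (dsp x - Y1) - (dsp y - Y2)) := by
          rw [hY]
          ring
        rw [e]
        exact hz.le.trans (min_le_right _ _)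
    · refine ⟨z0, min r (r' - 2 * ϱ), lt_min hr (by linarith), fun z hz => ?_⟩
      rw [mem_ball_iff_norm] at hz
      constructor
      · exact hz.le.trans (min_le_left _ _)
      · have e : z + dsp y - dsp x - w0 = (z - z0) + (dsp y - Y2) - (dsp x - Y1) := by
          rw [hY]
          ring
        rw [e]
        refine (norm_sub_le _ _).trans ((add_le_add (norm_add_le _ _) le_rfl).trans ?_)
        linarith [hz.le.trans (min_le_right _ _)]
  have h3 : Metric.ball zs ρ ⊆ Prod.mk y ⁻¹' (Prod.mk x ⁻¹' E) := by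
    intro z hzb
    obtain ⟨a1, a2⟩ := hz z hzb
    have ew : z + yP x - yP y = z + dsp y - dsp x := by
      unfold yP
      ring
    have b1 : z ∈ Metric.closedBall z0 r := by rw [mem_closedBall_iff_norm]; exact a1
    have b2 : z + yP x - yP y ∈ Metric.closedBall w0 r' := by rw [mem_closedBall_iff_norm, ew]; exact a2
    show (x, (y, z)) ∈ E
    rw [hE]
    exact ⟨⟨fun s t => hd x hx y hy z a1 a2 s t, sZ b1, sW b2⟩, b1, b2⟩
  have h4 : 0 < volume (Metric.ball zs ρ) := Metric.measure_ball_pos volume zs hρ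
  exact absurd (measure_mono_null h3 hy0) h4.ne'

/-! ### 3. The centres -/

/-- the centres of the cells -/
noncomputable def cenQ (v : ℂ) (h : ℝ) (i j : Fin 3) : ℂ := (h : ℂ) * (v * ev j - v * ev i)

lemma cx_ev (i : Fin 3) : cx (ev i) = (match i with | 0 => 0 | 1 => -1 | 2 => 1 : ℝ) := by
  match i with
  | 0 => rw [cx_q, ev_zero, Complex.one_im, mul_zero]
  | 1 =>
    rw [cx_q, e1_im, s3_q3]
    linear_combination -q33
  | 2 =>
    rw [cx_q, e2_im, s3_q3]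
    linear_combination q33

lemma cy_ev (i : Fin 3) : cy (ev i) = (match i with | 0 => 1 | 1 => 0 | 2 => -1 : ℝ) := by
  match i with
  | 0 => rw [cy_q, ev_zero, Complex.one_im, Complex.one_re, mul_zero, add_zero]
  | 1 =>
    rw [cy_q, e1_im, e1_re, s3_q3]
    linear_combination (1 / 2 : ℝ) * q33
  | 2 =>
    rw [cy_q, e2_im, e2_re, s3_q3]
    linear_combination (-(1 / 2) : ℝ) * q33

/-- the distance of the turned centre from the centre -/
lemma cen_near {v : ℂ} {ε : ℝ} (hv : ‖v - 1‖ ≤ ε) {h : ℝ} (hh : 0 ≤ h) (i j : Fin 3) :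
    ‖cenQ v h i j - (h : ℂ) * (ev j - ev i)‖ ≤ 2 * (ε * h) := by
  have e : cenQ v h i j - (h : ℂ) * (ev j - ev i) = (v - 1) * ((h : ℂ) * (ev j - ev i)) := by
    unfold cenQ
    ring
  have h1 : ‖ev j - ev i‖ ≤ 2 := (norm_sub_le _ _).trans (by rw [ev_norm, ev_norm]; norm_num)
  rw [e, norm_mul, norm_mul, Complex.norm_real, Real.norm_of_nonneg hh]
  have h2 := mul_le_mul hv (mul_le_mul_of_nonneg_left h1 hh) (by positivity) ((norm_nonneg _).trans hv)
  linarith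

/-- a linear coordinate at a point of the cell -/
lemma cell_lo {v z : ℂ} {ε h r : ℝ} (hv : ‖v - 1‖ ≤ ε) (hh : 0 ≤ h) {i j : Fin 3} (hz : ‖z - cenQ v h i j‖ ≤ r) :
    ‖z - (h : ℂ) * (ev j - ev i)‖ ≤ r + 2 * (ε * h) := by
  have e : z - (h : ℂ) * (ev j - ev i) = (z - cenQ v h i j) + (cenQ v h i j - (h : ℂ) * (ev j - ev i)) := by ring
  rw [e]
  exact (norm_add_le _ _).trans (add_le_add hz (cen_near hv hh i j))

variable {v : ℂ} {ε h h' r r' δ δ' M1 M2 ϱ : ℝ} {Y1 Y2 : ℂ}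

/-- **the classes 0 and 1 in the cells** -/
theorem gd_sep01 (hv : ‖v - 1‖ ≤ ε) (hh : 0 ≤ h) (hh' : 0 ≤ h') (hδ : δ + r + 2 * (ε * h) < h)
    (hδ' : δ' + r' + 2 * (ε * h') < h') {x y : Pie} (hx : x ∈ Gd 0 δ δ' M1 ϱ Y1) (hy : y ∈ Gd 1 δ δ' M2 ϱ Y2) {z : ℂ}
    (hz : ‖z - cenQ v h 0 1‖ ≤ r) (hw : ‖z + dsp y - dsp x - cenQ v h' 0 2‖ ≤ r') (s t : unitInterval) : x.1 s ≠ y.1 t + z := by
  refine Rq.sep01 (hx.1 s) (hy.1 t) (w := z + dsp y - dsp x) rfl ?_ ?_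
  · have a1 := abs_le.1 ((abs_cs _).trans (mul_le_mul_of_nonneg_left (cell_lo hv hh hz) (by norm_num)))
    rw [cx_sub, cy_sub, cx_mul, cy_mul, cx_sub, cy_sub, cx_ev, cx_ev, cy_ev, cy_ev] at a1
    simp only at a1
    linarith [a1.2]
  · generalize z + dsp y - dsp x = W at hw ⊢
    have a1 := abs_le.1 ((abs_cy _).trans (mul_le_mul_of_nonneg_left (cell_lo hv hh' hw) (by norm_num)))
    rw [cy_sub, cy_mul, cy_sub, cy_ev, cy_ev] at a1
    simp only at a1
    linarith [a1.2]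

/-- **the classes 1 and 2 in the cells** -/
theorem gd_sep12 (hv : ‖v - 1‖ ≤ ε) (hh : 0 ≤ h) (hh' : 0 ≤ h') (hδ : δ + r + 2 * (ε * h) < h)
    (hδ' : δ' + r' + 2 * (ε * h') < h') (hM : M1 + r + 2 * (ε * h) < M2) {x y : Pie} (hx : x ∈ Gd 1 δ δ' M1 ϱ Y1)
    (hy : y ∈ Gd 2 δ δ' M2 ϱ Y2) {z : ℂ}
    (hz : ‖z - cenQ v h 1 2‖ ≤ r) (hw : ‖z + dsp y - dsp x - cenQ v h' 2 1‖ ≤ r') (s t : unitInterval) : x.1 s ≠ y.1 t + z := by
  have hc := cell_lo hv hh hz
  refine Rq.sep12 (hx.1 s) (hy.1 t) (w := z + dsp y - dsp x) rfl ?_ ?_ ?_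
  · have a1 := abs_le.1 ((abs_cx _).trans (mul_le_mul_of_nonneg_left hc (by norm_num)))
    rw [cx_sub, cx_mul, cx_sub, cx_ev, cx_ev] at a1
    simp only at a1
    linarith [a1.1]
  · generalize z + dsp y - dsp x = W at hw ⊢
    have a1 := abs_le.1 ((abs_cx _).trans (mul_le_mul_of_nonneg_left (cell_lo hv hh' hw) (by norm_num)))
    rw [cx_sub, cx_mul, cx_sub, cx_ev, cx_ev] at a1
    simp only at a1
    linarith [a1.2]
  · have a1 := abs_le.1 ((Complex.abs_re_le_norm _).trans hc)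
    rw [Complex.sub_re, Complex.re_ofReal_mul, Complex.sub_re, e1_re, e2_re] at a1
    linarith [a1.2]

end Pool.Agent.ROT.F3.Q12
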