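import Pool.Agent.ROT.F3Q12d

/-!
# ROT, F3 (helper76): the regions of the whole rests of the picture; companions by regions

* **`reg_of`** : a piece with ends in sectors and a middle part in a region of the picture; **`rest_reg`** : whole rests;
* **`sec_gen`**, `zball` : companions by regions;
* `law_pos2` : the law of the arcs charges the region; `cell_bh` : marked rests with the blocks in given cells.
-/

set_option autoImplicit false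

open MeasureTheory Filter Topology Set ComplexConjugate
open scoped ENNReal NNReal BoundedContinuousFunction

namespace Pool.Agent.ROT.F3.Q12

open Pool.Agent.ROT.F3 Pool.Agent.ROT.F3.CC Pool.Agent.ROT.F3.Mk Pool.Agent.ROT.F3.Pw

/-! ### 1. Regions -/

/-- **the region of a piece between `τ` and `τ'`** -/
theorem reg_of {a : Fin 3} {g : C(unitInterval, ℂ)} {s s' τ τ' δ1 δ1' R R' h M M' ϱ δ δ' : ℝ} {t Y : ℂ} (hτ : τ ≤ s)
    (hτ' : s' ≤ τ') (hh : 0 ≤ h) (hδ1 : 0 ≤ δ1) (hδ1' : 0 ≤ δ1')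
    (sP : ∀ y, τ ≤ y → y ≤ s → SeP a δ1 (ex g y - ex g τ) ∧ ‖ex g y - ex g τ‖ ≤ R)
    (sQ : ∀ y, s' ≤ y → y ≤ τ' → SeQ a δ1' (ex g y - ex g τ') ∧ ‖ex g y - ex g τ'‖ ≤ R')
    (pM : ∀ y, s ≤ y → y ≤ s' → Rg a h M t (ex g y - ex g s)) (D0 : ‖(ex g s' - ex g s) - t‖ ≤ h)
    (D2 : ‖(ex g τ' - ex g τ) - Y‖ ≤ ϱ) (hδ : h + δ1 ≤ δ) (hδ' : 3 * h + δ1' ≤ δ')
    (m1 : a = 1 → M + h + R ≤ M' ∧ R ≤ M' ∧ R' + ϱ ≤ M' + Y.re) (m2 : a = 2 → M' + R + h ≤ M)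
    (y1 : 2 * R + 2 * ϱ ≤ cy Y) (y2 : cx Y ≤ -(2 * R + 2 * ϱ)) (y3 : cx Y + cy Y ≤ -(2 * R' + 2 * ϱ))
    (y4 : cx Y ≤ -(2 * R' + 2 * ϱ)) {y : ℝ} (hy0 : τ ≤ y) (hy1 : y ≤ τ') :
    Rq a δ δ' M' (ex g τ' - ex g τ) (ex g y - ex g τ) := by
  -- the true end
  obtain ⟨Z, hZ⟩ : ∃ Z : ℂ, Z = ex g τ' - ex g τ := ⟨_, rfl⟩
  rw [← hZ] at D2
  rw [← hZ]
  have z1 := abs_le.1 ((abs_cx (Z - Y)).trans (mul_le_mul_of_nonneg_left D2 (by norm_num)))
  have z2 := abs_le.1 ((abs_cy (Z - Y)).trans (mul_le_mul_of_nonneg_left D2 (by norm_num)))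
  have z3 := abs_le.1 ((abs_cs (Z - Y)).trans (mul_le_mul_of_nonneg_left D2 (by norm_num)))
  have z4 := abs_le.1 ((Complex.abs_re_le_norm (Z - Y)).trans D2)
  rw [cx_sub] at z1 z3
  rw [cy_sub] at z2 z3
  rw [Complex.sub_re] at z4
  rcases le_or_gt y s with c1 | c1
  · obtain ⟨s1, s2⟩ := sP y hy0 c1
    exact (rq_P (δ' := δ') s1 s2 (fun ha => (m1 ha).2.1) (by linarith) (by linarith) (by linarith)).mono (by linarith) le_rfl
  · rcases le_or_gt s' y with c2 | c2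
    · obtain ⟨s1, s2⟩ := sQ y c2 hy1
      have e : ex g y - ex g τ = Z + (ex g y - ex g τ') := by
        rw [hZ]
        ring
      rw [e]
      exact (rq_Q (δ := δ) s1 s2 (fun ha => by linarith [(m1 ha).2.2]) (by linarith) (by linarith) (by linarith)).mono
        le_rfl (by linarith)
    · obtain ⟨k1, k2⟩ := sP s hτ le_rfl
      obtain ⟨k3, k4⟩ := sQ s' le_rfl hτ'
      obtain ⟨M1, hM1⟩ : ∃ M1 : ℝ, M1 = if a = 2 then M - h else M + h := ⟨_, rfl⟩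
      have q1 := rq_of (M' := M1) (t' := ex g s' - ex g s) (r := h) (pM y c1.le c2.le) D0
        (fun ha => by rw [hM1, if_neg (by rw [ha]; decide)]) (fun ha => by rw [hM1, if_pos ha])
      have r1 := rq_shift (M' := M') q1 k1 k3 k2 (fun ha => by
        rw [hM1, if_neg (by rw [ha]; decide)]
        exact (m1 ha).1) (fun ha => by
        rw [hM1, if_pos ha]
        linarith [m2 ha])
      have e : ex g y - ex g s + (ex g s - ex g τ) = ex g y - ex g τ := by ring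
      have e2 : ex g s' - ex g s + (ex g s - ex g τ) - (ex g s' - ex g τ') = Z := by
        rw [hZ]
        ring
      rw [e, e2] at r1
      exact r1.mono (by linarith) (by linarith)

/-- points of the strip of an outer block -/
lemma otv_stB {d : ℂ} {O : Ot} {k : Pie} (h : OtV d O k) (hc : 0 ≤ O.c) {ε : ℝ} (hε : O.κ ≤ ε) (u : unitInterval) :
    k.1 u ∈ StB d O.hw O.r ε := by
  refine ⟨h.hw u, ?_, h.b u⟩
  have h1 : O.c * ‖k.1 u‖ - O.κ ≤ lv d (k.1 u) := h.s u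
  have h2 := mul_nonneg hc (norm_nonneg (k.1 u))
  linarith

/-- the conditions of F3Q12b -/
lemma epy_qk {a : Fin 3} {O O' : Ot} {Yp Yq : Tp} {V : Wn} {x : MP} (h : EPY (ev a) (ev (-a)) O O' Yp Yq V x) (hc : 0 ≤ O.c)
    (hc' : 0 ≤ O'.c) {ε hh M : ℝ} {t : ℂ} (hε : O.κ ≤ ε) (hε' : O'.κ ≤ ε) (hm : ∀ s : unitInterval, Rg a hh M t ((mid x).1 s))
    (he : ‖dsp (mid x) - t‖ ≤ hh) : QK a O.hw O'.hw O.r O'.r ε hh M t x :=
  ⟨h.h0, h.h1, h.h2, h.z, otv_stB h.p hc hε, otv_stB h.q hc' hε', hm, he⟩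

/-- **the region of a whole rest** -/
theorem rest_reg {a : Fin 3} {w w' r r' ε h M M' : ℝ} {t Y b0 b0' : ℂ} {x : MP} (hx : QK a w w' r r' ε h M t x)
    {εb εb' ϱ δ δ' : ℝ} (hb : ‖dsp (two x).1 - b0‖ ≤ εb) (hb' : ‖dsp (two x).2 - b0'‖ ≤ εb') (hY : ‖b0 + t - b0' - Y‖ ≤ ϱ - (h + εb + εb'))
    (hh : 0 ≤ h) (hw : 0 ≤ w) (hw' : 0 ≤ w') (hε : 0 ≤ ε) (hδ : h + (ε + w) ≤ δ) (hδ' : 3 * h + (ε + w') ≤ δ')
    (m1 : a = 1 → M + h + r ≤ M' ∧ r ≤ M' ∧ r' + ϱ ≤ M' + Y.re) (m2 : a = 2 → M' + r + h ≤ M)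
    (y1 : 2 * r + 2 * ϱ ≤ cy Y) (y2 : cx Y ≤ -(2 * r + 2 * ϱ)) (y3 : cx Y + cy Y ≤ -(2 * r' + 2 * ϱ))
    (y4 : cx Y ≤ -(2 * r' + 2 * ϱ)) : x.1 ∈ Gd a δ δ' M' ϱ Y := by
  obtain ⟨⟨⟨g, T⟩, s, s'⟩, hxe⟩ : ∃ y, y = x := ⟨_, rfl⟩
  subst hxe
  obtain ⟨h0, h1, h2, hz, hB, hB', hM, hE1⟩ := hx
  simp only at h0 h1 h2 hz
  -- the points
  have pB : ∀ y : ℝ, 0 ≤ y → y ≤ s → ex g y ∈ StB (ev a) w r ε := by
    intro y hy0 hys
    have := cutp_all (g := g) (p := 0) (q := s) (K := StB (ev a) w r ε) hB (x := y) (by rw [uIcc_of_le h0]; exact ⟨hy0, hys⟩)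
    rwa [ex_zero, hz, sub_zero] at this
  have pB' : ∀ y : ℝ, s' ≤ y → y ≤ 1 → ex g y - g 1 ∈ StB (ev (-a)) w' r' ε := by
    intro y hy0 hys
    have := cutp_all (g := g) (p := 1) (q := s') (K := StB (ev (-a)) w' r' ε) hB' (x := y)
      (by rw [uIcc_of_ge h2]; exact ⟨hy0, hys⟩)
    rwa [ex_one] at this
  have pM : ∀ y : ℝ, s ≤ y → y ≤ s' → Rg a h M t (ex g y - ex g s) := by
    intro y hy0 hys
    exact cutp_all (g := g) (p := s) (q := s') (K := {v | Rg a h M t v}) hM (x := y) (by rw [uIcc_of_le h1]; exact ⟨hy0, hys⟩)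
  have Y0 : ‖ex g s - b0‖ ≤ εb := by
    have e : dsp (two ((g, T), (s, s'))).1 = ex g s := by
      show dsp (pcut (g, T) 0 s) = _
      rw [dsp_pcut, ex_zero, hz, sub_zero]
    rwa [e] at hb
  have Y0' : ‖(ex g s' - g 1) - b0'‖ ≤ εb' := by
    have e : dsp (two ((g, T), (s, s'))).2 = ex g s' - g 1 := by
      show dsp (pcut (g, T) 1 s') = _
      rw [dsp_pcut, ex_one]
    rwa [e] at hb'
  have D0 : ‖(ex g s' - ex g s) - t‖ ≤ h := by
    have e : dsp (mid ((g, T), (s, s'))) = ex g s' - ex g s := by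
      show dsp (pcut (g, T) s s') = _
      rw [dsp_pcut]
    rwa [e] at hE1
  have D1 : dsp ((g, T) : Pie) = ex g 1 - ex g 0 := by
    show g 1 - g 0 = _
    rw [ex_one, ex_zero]
  have D2 : ‖(ex g 1 - ex g 0) - Y‖ ≤ ϱ := by
    have e : (ex g 1 - ex g 0) - Y = ((ex g s' - ex g s) - t) + (ex g s - b0) - ((ex g s' - g 1) - b0') + (b0 + t - b0' - Y) := by
      rw [ex_one, ex_zero, hz]
      ring
    rw [e]
    refine (norm_add_le _ _).trans ((add_le_add ((norm_sub_le _ _).trans (add_le_add (norm_add_le _ _) le_rfl)) hY).trans ?_)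
    linarith
  refine ⟨fun u => ?_, by rw [D1]; exact D2⟩
  have hr0 : 0 ≤ r := (norm_nonneg _).trans (pB 0 le_rfl h0).2.2
  have hu : (u : ℝ) ∈ Icc (0 : ℝ) 1 := u.2
  have key := reg_of (a := a) (g := g) (s := s) (s' := s') (τ := 0) (τ' := 1) (δ1 := ε + w) (δ1' := ε + w') (R := r) (R' := r')
    (h := h) (M := M) (M' := M') (ϱ := ϱ) (δ := δ) (δ' := δ') (t := t) (Y := Y) h0 h2 hh (by linarith) (by linarith)
    (fun y hy0 hys => by
      have b1 := pB y hy0 hys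
      rw [ex_zero, hz, sub_zero]
      exact ⟨seP_of b1.2.1 b1.1, b1.2.2⟩)
    (fun y hy0 hys => by
      have b1 := pB' y hy0 hys
      rw [ex_one]
      exact ⟨seQ_of b1.2.1 b1.1, b1.2.2⟩)
    pM D0 D2 hδ hδ' m1 m2 y1 y2 y3 y4 (y := (u : ℝ)) hu.1 hu.2
  rw [D1]
  rw [ex_coe] at key
  show Rq a δ δ' M' (ex g 1 - ex g 0) (g u)
  have e : g u = g u - ex g 0 := by rw [ex_zero, hz, sub_zero]
  rw [e]
  exact key

/-! ### 2. Companions by regions -/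

/-- a set of companions of positive mass, each with a ball of relative positions -/
theorem sec_gen {m : Measure Pie} [SFinite m] {G : Set Pie} (h : m G ≠ 0) {E : Set (Pie × ℂ)} (mE : MeasurableSet E)
    (hE : ∀ y ∈ G, ∃ (zs : ℂ) (ρ : ℝ), 0 < ρ ∧ ∀ z ∈ Metric.ball zs ρ, (y, z) ∈ E) : (m.prod volume) E ≠ 0 := by
  intro h0
  rw [Measure.measure_prod_null mE] at h0
  obtain ⟨y, hy, hy0⟩ : ∃ y ∈ G, volume (Prod.mk y ⁻¹' E) = 0 := by
    by_contra hc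
    push Not at hc
    refine h (measure_mono_null (fun y hy => ?_) (ae_iff.1 h0))
    exact hc y hy
  obtain ⟨zs, ρ, hρ, hz⟩ := hE y hy
  exact absurd (measure_mono_null (fun z hzb => hz z hzb) hy0) (Metric.measure_ball_pos volume zs hρ).ne'

/-- **the ball of relative positions** -/
lemma zball {z0 w0 Y1 Y2 d1 d2 : ℂ} {ϱ r r' : ℝ} (e1 : ‖d1 - Y1‖ ≤ ϱ) (e2 : ‖d2 - Y2‖ ≤ ϱ) (hY : w0 = z0 + Y2 - Y1) (hr : 0 < r)
    (hr' : 0 < r') (hϱ : 2 * ϱ < r ∨ 2 * ϱ < r') : ∃ (zs : ℂ) (ρ : ℝ), 0 < ρ ∧ ∀ z ∈ Metric.ball zs ρ,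
      ‖z - z0‖ < r ∧ ‖z + d2 - d1 - w0‖ < r' := by
  rcases hϱ with hϱ | hϱ
  · refine ⟨z0 + (d1 - Y1) - (d2 - Y2), min (r - 2 * ϱ) r', lt_min (by linarith) hr', fun z hz => ?_⟩
    rw [mem_ball_iff_norm] at hz
    constructor
    · have e : z - z0 = (z - (z0 + (d1 - Y1) - (d2 - Y2))) + (d1 - Y1) - (d2 - Y2) := by ring
      rw [e]
      refine lt_of_le_of_lt ((norm_sub_le _ _).trans (add_le_add (norm_add_le _ _) le_rfl)) ?_
      linarith [lt_of_lt_of_le hz (min_le_left _ _)]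
    · have e : z + d2 - d1 - w0 = z - (z0 + (d1 - Y1) - (d2 - Y2)) := by
        rw [hY]
        ring
      rw [e]
      exact lt_of_lt_of_le hz (min_le_right _ _)
  · refine ⟨z0, min r (r' - 2 * ϱ), lt_min hr (by linarith), fun z hz => ?_⟩
    rw [mem_ball_iff_norm] at hz
    constructor
    · exact lt_of_lt_of_le hz (min_le_left _ _)
    · have e : z + d2 - d1 - w0 = (z - z0) + (d2 - Y2) - (d1 - Y1) := by
        rw [hY]
        ring
      rw [e]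
      refine lt_of_le_of_lt ((norm_sub_le _ _).trans (add_le_add (norm_add_le _ _) le_rfl)) ?_
      linarith [lt_of_lt_of_le hz (min_le_right _ _)]

lemma yP_add (x y : Pie) (z : ℂ) : z + yP x - yP y = z + dsp y - dsp x := by
  unfold yP
  ring

/-- **companions by regions, first place** -/
theorem sec_fst {x : Pie} {m : Measure Pie} [SFinite m] {G : Set Pie} (h : m G ≠ 0) {z0 w0 Y1 Y2 : ℂ} {ϱ r r' : ℝ}
    (hd : ∀ y ∈ G, ∀ z : ℂ, ‖z - z0‖ ≤ r → ‖z + dsp y - dsp x - w0‖ ≤ r' → ∀ s t : unitInterval, x.1 s ≠ y.1 t + z)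
    (e1 : ‖dsp x - Y1‖ ≤ ϱ) (e2 : ∀ y ∈ G, ‖dsp y - Y2‖ ≤ ϱ) (hY : w0 = z0 + Y2 - Y1) (hr : 0 < r) (hr' : 0 < r')
    (hϱ : 2 * ϱ < r ∨ 2 * ϱ < r') :
    (m.prod volume) {q : Pie × ℂ | (x, q) ∈ DD Prod.fst Prod.fst yP yP (Metric.ball z0 r) (Metric.ball w0 r')} ≠ 0 := by
  have my : Measurable yP := dsp_cont.measurable.neg
  have mD := dd_meas (A := Pie) (B := Pie) measurable_fst measurable_fst my my (Metric.isOpen_ball (x := z0) (ε := r)).measurableSet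
    (Metric.isOpen_ball (x := w0) (ε := r')).measurableSet
  refine sec_gen h (measurable_prodMk_left mD) fun y hy => ?_
  obtain ⟨zs, ρ, hρ, hz⟩ := zball e1 (e2 y hy) hY hr hr' hϱ
  refine ⟨zs, ρ, hρ, fun z hzb => ?_⟩
  obtain ⟨a1, a2⟩ := hz z hzb
  refine ⟨fun s t => hd y hy z a1.le a2.le s t, ?_, ?_⟩
  · show z ∈ Metric.ball z0 r
    rw [mem_ball_iff_norm]
    exact a1
  · show z + yP x - yP y ∈ Metric.ball w0 r'
    rw [mem_ball_iff_norm, yP_add]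
    exact a2

/-- **companions by regions, second place** -/
theorem sec_snd {y : Pie} {m : Measure Pie} [SFinite m] {G : Set Pie} (h : m G ≠ 0) {z0 w0 Y1 Y2 : ℂ} {ϱ r r' : ℝ}
    (hd : ∀ x ∈ G, ∀ z : ℂ, ‖z - z0‖ ≤ r → ‖z + dsp y - dsp x - w0‖ ≤ r' → ∀ s t : unitInterval, x.1 s ≠ y.1 t + z)
    (e1 : ∀ x ∈ G, ‖dsp x - Y1‖ ≤ ϱ) (e2 : ‖dsp y - Y2‖ ≤ ϱ) (hY : w0 = z0 + Y2 - Y1) (hr : 0 < r) (hr' : 0 < r')
    (hϱ : 2 * ϱ < r ∨ 2 * ϱ < r') :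
    (m.prod volume) {q : Pie × ℂ | (q.1, (y, q.2)) ∈ DD Prod.fst Prod.fst yP yP (Metric.ball z0 r) (Metric.ball w0 r')} ≠ 0 := by
  have my : Measurable yP := dsp_cont.measurable.neg
  have mD := dd_meas (A := Pie) (B := Pie) measurable_fst measurable_fst my my (Metric.isOpen_ball (x := z0) (ε := r)).measurableSet
    (Metric.isOpen_ball (x := w0) (ε := r')).measurableSet
  have m2 : Measurable fun q : Pie × ℂ => (q.1, (y, q.2)) := by fun_prop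
  refine sec_gen h (m2 mD) fun x hx => ?_
  obtain ⟨zs, ρ, hρ, hz⟩ := zball (e1 x hx) e2 hY hr hr' hϱ
  refine ⟨zs, ρ, hρ, fun z hzb => ?_⟩
  obtain ⟨a1, a2⟩ := hz z hzb
  refine ⟨fun s t => hd x hx z a1.le a2.le s t, ?_, ?_⟩
  · show z ∈ Metric.ball z0 r
    rw [mem_ball_iff_norm]
    exact a1
  · show z + yP x - yP y ∈ Metric.ball w0 r'
    rw [mem_ball_iff_norm, yP_add]
    exact a2

/-- a set which carries marked rests has positive mass -/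
lemma fst_ne {bh : Measure MP} {β : Measure Pie} (hle : bh.map Prod.fst ≤ β) (h0 : bh ≠ 0) {G : Set Pie} (hG : ∀ᵐ x ∂bh, x.1 ∈ G) :
    β G ≠ 0 := by
  intro h
  have h1 : (bh.map Prod.fst) G = 0 := le_antisymm ((hle G).trans h.le) zero_le
  have h2 : ∀ᵐ p ∂(bh.map Prod.fst), p ∉ G := by
    rw [ae_iff]
    simpa using h1
  have h3 : ∀ᵐ x ∂bh, x.1 ∉ G := ae_of_ae_map measurable_fst.aemeasurable h2
  have h4 : ∀ᵐ x ∂bh, False := by
    filter_upwards [hG, h3] with x a1 a2 using a2 a1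
  exact h0 (ae_eq_bot.1 (Filter.eventually_false_iff_eq_bot.1 h4))

/-! ### 3. The law of the arcs -/

/-- **the law of the arcs charges the region** -/
theorem law_pos2 {bh : Measure MP} {β : Measure Pie} (hle : bh.map Prod.fst ≤ β) {S S' : Set Pie}
    (hpos : bh {x | (two x).1 ∈ S ∧ (two x).2 ∈ S'} ≠ 0) {K : MP → Prop} (hK : ∀ᵐ x ∂bh, K x) {tt tt' : Pie → ℝ} {C : Set Pie}
    (mt : Measurable tt) (mt' : Measurable tt') (mC : MeasurableSet C)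
    (hloc : ∀ᵐ x ∂bh, (two x).1 ∈ S → (two x).2 ∈ S' → x.1 ∈ C ∧ tt x.1 ≤ x.2.1 ∧ x.2.2 ≤ tt' x.1) {G : Set Pie}
    (hG : MeasurableSet G) (hgd : ∀ x : MP, K x → x.1 ∈ C → tt x.1 ≤ x.2.1 → x.2.2 ≤ tt' x.1 →
      pcut x.1 (tt x.1) (tt' x.1) ∈ G) : ((clsC tt tt' C).law β).snd G ≠ 0 := by
  have h2 : MeasurableSet {r : Pie | pcut r (tt r) (tt' r) ∈ G} := pcut_meas measurable_id mt mt' hG
  have hA : MeasurableSet (C ∩ {r | pcut r (tt r) (tt' r) ∈ G}) := mC.inter h2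
  rw [law_snd β mt mt' hG]
  have h4 : bh {x | (two x).1 ∈ S ∧ (two x).2 ∈ S'} ≤ (bh.map Prod.fst) (C ∩ {r | pcut r (tt r) (tt' r) ∈ G}) := by
    rw [Measure.map_apply measurable_fst hA]
    refine measure_mono_ae ?_
    filter_upwards [hK, hloc] with x g1 g2 g3
    obtain ⟨g8, g9, g10⟩ := g2 g3.1 g3.2
    exact ⟨g8, hgd x g1 g8 g9 g10⟩
  intro h0
  exact hpos (le_antisymm (h4.trans ((hle _).trans (le_of_eq h0))) zero_le)

/-- **marked rests with the blocks in given cells** -/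
theorem cell_bh {bh : Measure MP} [IsFiniteMeasure bh] {β κ κ' : Measure Pie} [SFinite κ'] (hle : bh.map Prod.fst ≤ β)
    {u : ℝ} (hu : 0 < u) (hprod : bh.map two = ENNReal.ofReal u • κ.prod κ') {S S' : Set Pie} (hS : MeasurableSet S)
    (hS' : MeasurableSet S') {b0 b0' : ℂ} {εb εb' : ℝ} (hκ : κ (S ∩ {p | ‖dsp p - b0‖ ≤ εb}) ≠ 0)
    (hκ' : κ' (S' ∩ {p | ‖dsp p - b0'‖ ≤ εb'}) ≠ 0) {K : MP → Prop} (hK : ∀ᵐ x ∂bh, K x) :
    ∃ bc : Measure MP, IsFiniteMeasure bc ∧ bc.map Prod.fst ≤ β ∧ bc {x | (two x).1 ∈ S ∧ (two x).2 ∈ S'} ≠ 0 ∧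
      ∀ᵐ x ∂bc, K x ∧ ‖dsp (two x).1 - b0‖ ≤ εb ∧ ‖dsp (two x).2 - b0'‖ ≤ εb' := by
  have c1 : ∀ (b : ℂ) (e : ℝ), MeasurableSet {p : Pie | ‖dsp p - b‖ ≤ e} := fun b e =>
    (isClosed_le (dsp_cont.sub continuous_const).norm continuous_const).measurableSet
  obtain ⟨D, hD⟩ : ∃ D : Set MP, D = two ⁻¹' ({p | ‖dsp p - b0‖ ≤ εb} ×ˢ {p | ‖dsp p - b0'‖ ≤ εb'}) := ⟨_, rfl⟩
  have mD : MeasurableSet D := by
    rw [hD]
    exact two_cont.measurable ((c1 _ _).prod (c1 _ _))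
  refine ⟨bh.restrict D, inferInstance, ?_, ?_, ?_⟩
  · exact (Measure.map_mono Measure.restrict_le_self measurable_fst).trans hle
  · have h3 : bh (two ⁻¹' ((S ∩ {p | ‖dsp p - b0‖ ≤ εb}) ×ˢ (S' ∩ {p | ‖dsp p - b0'‖ ≤ εb'}))) ≠ 0 := by
      rw [← Measure.map_apply two_cont.measurable ((hS.inter (c1 _ _)).prod (hS'.inter (c1 _ _))), hprod, Measure.smul_apply,
        smul_eq_mul, Measure.prod_prod]
      refine mul_ne_zero ?_ (mul_ne_zero hκ hκ')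
      rw [Ne, ENNReal.ofReal_eq_zero, not_le]
      exact hu
    have m2 : MeasurableSet {x : MP | (two x).1 ∈ S ∧ (two x).2 ∈ S'} := two_cont.measurable (hS.prod hS')
    rw [Measure.restrict_apply m2]
    intro h0
    refine h3 (measure_mono_null (fun x hx => ?_) h0)
    obtain ⟨⟨a1, a2⟩, ⟨a3, a4⟩⟩ := hx
    rw [hD]
    exact ⟨⟨a1, a3⟩, ⟨a2, a4⟩⟩
  · rw [ae_restrict_iff' mD]
    filter_upwards [hK] with x hx hxD
    rw [hD] at hxD
    exact ⟨hx, hxD.1, hxD.2⟩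

end Pool.Agent.ROT.F3.Q12
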