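import Pool.Agent.ROT.F3W7t

/-!
# ROT, F3 (helper63): rests with companions, from a set of disjoint partners

* **`sec_fst`, `sec_snd`** : the sections (first place, second place) are charged if they contain a ball for every partner of a set of
  positive mass;
* `TTs m1 Z W` : the pieces with companions in the first place (`TT` : in the second place); `tts_meas`, `tts_ac`;
* **`tt_reg`, `tts_reg`** : the hypotheses of 76's `q_of` for one fixed piece.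
-/

set_option autoImplicit false

open MeasureTheory Filter Topology Set
open scoped ENNReal

namespace Pool.Agent.ROT.F3

open Pool.Agent.ROT.F3.CC (Pie yP dsp dsp_cont)

/-- **first place** -/
theorem sec_fst {A B : Type*} [MeasurableSpace A] [MeasurableSpace B] {b2 : Measure B} [SFinite b2] {D : Set (A × (B × ℂ))}
    (hD : MeasurableSet D) {E : Set B} (hE : b2 E ≠ 0) {a : A}
    (h : ∀ y ∈ E, ∃ (z : ℂ) (ρ : ℝ), 0 < ρ ∧ ∀ u ∈ Metric.ball z ρ, (a, (y, u)) ∈ D) :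
    (b2.prod (volume : Measure ℂ)) {p | (a, p) ∈ D} ≠ 0 := by
  intro h0
  have mS : MeasurableSet {p : B × ℂ | (a, p) ∈ D} := measurable_prodMk_left hD
  rw [Measure.measure_prod_null mS] at h0
  obtain ⟨y, hy, hy0⟩ : ∃ y ∈ E, volume (Prod.mk y ⁻¹' {p : B × ℂ | (a, p) ∈ D}) = 0 := by
    by_contra hc
    push Not at hc
    exact hE (measure_mono_null (fun y hy => hc y hy) (ae_iff.1 h0))
  obtain ⟨z, ρ, hρ, hz⟩ := h y hy
  exact (Metric.measure_ball_pos volume z hρ).ne' (measure_mono_null (fun u hu => hz u hu) hy0)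

/-- **second place** -/
theorem sec_snd {A B : Type*} [MeasurableSpace A] [MeasurableSpace B] {b1 : Measure A} [SFinite b1] {D : Set (A × (B × ℂ))}
    (hD : MeasurableSet D) {E : Set A} (hE : b1 E ≠ 0) {b : B}
    (h : ∀ y ∈ E, ∃ (z : ℂ) (ρ : ℝ), 0 < ρ ∧ ∀ u ∈ Metric.ball z ρ, (y, (b, u)) ∈ D) :
    (b1.prod (volume : Measure ℂ)) {p | (p.1, (b, p.2)) ∈ D} ≠ 0 := by
  intro h0
  have mf : Measurable fun p : A × ℂ => (p.1, (b, p.2)) := by fun_prop
  have mS : MeasurableSet {p : A × ℂ | (p.1, (b, p.2)) ∈ D} := mf hD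
  rw [Measure.measure_prod_null mS] at h0
  obtain ⟨y, hy, hy0⟩ : ∃ y ∈ E, volume (Prod.mk y ⁻¹' {p : A × ℂ | (p.1, (b, p.2)) ∈ D}) = 0 := by
    by_contra hc
    push Not at hc
    exact hE (measure_mono_null (fun y hy => hc y hy) (ae_iff.1 h0))
  obtain ⟨z, ρ, hρ, hz⟩ := h y hy
  exact (Metric.measure_ball_pos volume z hρ).ne' (measure_mono_null (fun u hu => hz u hu) hy0)

/-- the pieces which have companions in the first place -/
def TTs (b1 : Measure Pie) (Z W : Set ℂ) : Set Pie :=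
  {r | (b1.prod (volume : Measure ℂ)) {q | (q.1, (r, q.2)) ∈ DD Prod.fst Prod.fst yP yP Z W} ≠ 0}

lemma tts_meas {b1 : Measure Pie} [SFinite b1] {Z W : Set ℂ} (hZ : MeasurableSet Z) (hW : MeasurableSet W) :
    MeasurableSet (TTs b1 Z W) := by
  have mf : Measurable fun p : Pie × (Pie × ℂ) => (p.2.1, (p.1, p.2.2)) := by fun_prop
  have h := chg_meas (ν := b1.prod (volume : Measure ℂ)) (mf (dd_pie hZ hW))
  exact h

/-- what is needed for a ball of positions -/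
lemma ball_ex {x y z0 w0 Y1 Y2 : ℂ} {ϱ r r' : ℝ} (ex : ‖x - Y1‖ ≤ ϱ) (ey : ‖y - Y2‖ ≤ ϱ) (hY : w0 = z0 + Y2 - Y1)
    (hr : 0 < r) (hr' : 0 < r') (hϱ : 2 * ϱ < r ∨ 2 * ϱ < r') :
    ∃ (zs : ℂ) (ρ : ℝ), 0 < ρ ∧ ∀ z ∈ Metric.ball zs ρ, ‖z - z0‖ ≤ r ∧ ‖z + y - x - w0‖ ≤ r' := by
  rcases hϱ with hϱ | hϱ
  · refine ⟨z0 + (x - Y1) - (y - Y2), min (r - 2 * ϱ) r', lt_min (by linarith) hr', fun z hz => ?_⟩
    rw [mem_ball_iff_norm] at hz
    constructor
    · have e : z - z0 = (z - (z0 + (x - Y1) - (y - Y2))) + (x - Y1) - (y - Y2) := by ring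
      rw [e]
      refine (norm_sub_le _ _).trans ((add_le_add (norm_add_le _ _) le_rfl).trans ?_)
      linarith [hz.le.trans (min_le_left _ _)]
    · have e : z + y - x - w0 = z - (z0 + (x - Y1) - (y - Y2)) := by
        rw [hY]
        ring
      rw [e]
      exact hz.le.trans (min_le_right _ _)
  · refine ⟨z0, min r (r' - 2 * ϱ), lt_min hr (by linarith), fun z hz => ?_⟩
    rw [mem_ball_iff_norm] at hz
    constructor
    · exact hz.le.trans (min_le_left _ _)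
    · have e : z + y - x - w0 = (z - z0) + (y - Y2) - (x - Y1) := by
        rw [hY]
        ring
      rw [e]
      refine (norm_sub_le _ _).trans ((add_le_add (norm_add_le _ _) le_rfl).trans ?_)
      linarith [hz.le.trans (min_le_right _ _)]

lemma yP_add (z : ℂ) (x y : Pie) : z + yP x - yP y = z + dsp y - dsp x := by
  unfold yP
  ring

section

variable {z0 w0 Y1 Y2 : ℂ} {ϱ r r' : ℝ} {Z W : Set ℂ} (mZ : MeasurableSet Z) (mW : MeasurableSet W)
  (hY : w0 = z0 + Y2 - Y1) (hr : 0 < r) (hr' : 0 < r') (hϱ : 2 * ϱ < r ∨ 2 * ϱ < r')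
  (sZ : Metric.closedBall z0 r ⊆ Z) (sW : Metric.closedBall w0 r' ⊆ W)

include mZ mW hY hr hr' hϱ sZ sW

/-- **a piece in the first place**, partners `G2` -/
theorem tt_reg {m2 : Measure Pie} [SFinite m2] {G2 : Set Pie} (h2 : m2 G2 ≠ 0) {x : Pie}
    (hd : ∀ y ∈ G2, ∀ z : ℂ, ‖z - z0‖ ≤ r → ‖z + dsp y - dsp x - w0‖ ≤ r' → ∀ s t : unitInterval, x.1 s ≠ y.1 t + z)
    (e1 : ‖dsp x - Y1‖ ≤ ϱ) (e2 : ∀ y ∈ G2, ‖dsp y - Y2‖ ≤ ϱ) : x ∈ TT m2 Z W := by
  refine sec_fst (dd_pie mZ mW) h2 fun y hy => ?_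
  obtain ⟨zs, ρ, hρ, hz⟩ := ball_ex e1 (e2 y hy) hY hr hr' hϱ
  refine ⟨zs, ρ, hρ, fun z hzb => ?_⟩
  obtain ⟨a1, a2⟩ := hz z hzb
  refine ⟨fun s t => hd y hy z a1 a2 s t, sZ (by rw [mem_closedBall_iff_norm]; exact a1), sW ?_⟩
  show z + yP x - yP y ∈ Metric.closedBall w0 r'
  rw [mem_closedBall_iff_norm, yP_add]
  exact a2

/-- **a piece in the second place**, partners `G1` -/
theorem tts_reg {m1 : Measure Pie} [SFinite m1] {G1 : Set Pie} (h1 : m1 G1 ≠ 0) {y : Pie}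
    (hd : ∀ x ∈ G1, ∀ z : ℂ, ‖z - z0‖ ≤ r → ‖z + dsp y - dsp x - w0‖ ≤ r' → ∀ s t : unitInterval, x.1 s ≠ y.1 t + z)
    (e1 : ∀ x ∈ G1, ‖dsp x - Y1‖ ≤ ϱ) (e2 : ‖dsp y - Y2‖ ≤ ϱ) : y ∈ TTs m1 Z W := by
  refine sec_snd (dd_pie mZ mW) h1 fun x hx => ?_
  obtain ⟨zs, ρ, hρ, hz⟩ := ball_ex (e1 x hx) e2 hY hr hr' hϱ
  refine ⟨zs, ρ, hρ, fun z hzb => ?_⟩
  obtain ⟨a1, a2⟩ := hz z hzb
  refine ⟨fun s t => hd x hx z a1 a2 s t, sZ (by rw [mem_closedBall_iff_norm]; exact a1), sW ?_⟩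
  show z + yP x - yP y ∈ Metric.closedBall w0 r'
  rw [mem_closedBall_iff_norm, yP_add]
  exact a2

end

end Pool.Agent.ROT.F3
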