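import Pool.Agent.ROT.F3Q12e
import Pool.Agent.ROT.F3TReg
import Pool.Agent.ROT.F3Fin3

/-!
# ROT, F3 (helper76): the positivity of the companions, `QPos`

* `ClsL.rlim` : the limits of the rests against bounded continuous functions;
* `QIn` : the limits of the outer blocks and the sets of good blocks, one class; `TQ` : rests with companions (all the classes);
  `HlQ` : locality of the foreign gates (`hloc`); `QNum` : numbers;
* **`qpos_pic`** : `QPos 0 1 3` and `QPos 1 2 5`.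
-/

set_option autoImplicit false

open MeasureTheory Filter Topology Set ComplexConjugate
open scoped ENNReal NNReal BoundedContinuousFunction

namespace Pool.Agent.ROT.F3E

open Pool.Agent.ROT.F3 Pool.Agent.ROT.F3.CC Pool.Agent.ROT.F3.Bt Pool.Agent.ROT.F3.Mk Pool.Agent.ROT.F3.Pw Pool.Agent.ROT.F3.Q12

/-- the limits of the rests against bounded continuous functions -/
lemma ClsL.rlim {P : Prm} (h : P.Ok) {V : Ultrafilter ℕ} (hV : (V : Filter ℕ) ≤ atTop) {β b : Fin 3 → Measure Pie}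
    (H : ClsL V P β b) (a : Fin 3) (g : Pie →ᵇ ℝ) :
    Tendsto (fun N : ℕ => ∫ x, g x ∂(rm (cb N) N (uT N) (P.R0 a (wnd P a) N) fun _ => 1)) V (𝓝 (∫ x, g x ∂(β a))) := by
  obtain ⟨k1, k2, k3, k4, k5, k6, k7, k8⟩ := pos_prm h a
  obtain ⟨m, h1, h2, -⟩ := rst_lim k1 k2 k5 k6 (w := fun _ _ => 1) (Eventually.of_forall fun N R _ => le_rfl) V hV (i := a)
    (j := -a) (Rs := fun N => rcl P a N) (Eventually.of_forall fun N R hR => hR)
  rw [← WLim.uniq h1 (H.wβ a)]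
  exact h2 g

/-- one class at the outer gates -/
structure QIn (V : Ultrafilter ℕ) (O O' : Ot) (a : Fin 3) (κ κ' : Measure Pie) (S S' : Set Pie) : Prop where
  fκ : IsFiniteMeasure κ
  fκ' : IsFiniteMeasure κ'
  lκ : ∀ g : Pie →ᵇ ℝ, Tendsto (fun N : ℕ => ∫ x, g x ∂(rm 1 N (uT N) (OtB (ev a) O N (uT N)) fun _ => 1)) V
    (𝓝 (∫ x, g x ∂κ))
  lκ' : ∀ g : Pie →ᵇ ℝ, Tendsto (fun N : ℕ => ∫ x, g x ∂(rm 1 N (uT N) (OtB (ev (-a)) O' N (uT N)) fun _ => 1)) V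
    (𝓝 (∫ x, g x ∂κ'))
  mS : MeasurableSet S
  mS' : MeasurableSet S'
  hS : κ S ≠ 0
  hS' : κ' S' ≠ 0

/-- the rests with companions -/
noncomputable def TQ (P : Prm) (ρ : ℝ) (β : Fin 3 → Measure Pie) (a : Fin 3) : Set Pie :=
  if a = 0 then TT (β 1) (cZ0 P 0 1 ρ) (cW0 P 0 1 ρ)
  else if a = 1 then TTs (β 0) (cZ0 P 0 1 ρ) (cW0 P 0 1 ρ) else TTs (β 1) (cZ0 P 1 2 ρ) (cW0 P 1 2 ρ)

/-- **locality of the foreign gates** for the marked rests with outer gates -/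
def HlQ (P : Prm) (ρ : ℝ) (O O' : Ot) (Yp Yq : Tp) (Vw : Pool.Agent.ROT.F3.Wn) (β : Fin 3 → Measure Pie) (a : Fin 3) (S S' C : Set Pie)
    (t t' : Pie → ℝ) : Prop :=
  ∀ bh : Measure MP, IsFiniteMeasure bh → bh.map Prod.fst ≤ β a → (∀ᵐ x ∂bh, EPY (ev a) (ev (-a)) O O' Yp Yq Vw x) →
    (∀ᵐ x ∂bh, x.1 ∈ TQ P ρ β a) → ∀ᵐ x ∂bh, (two x).1 ∈ S → (two x).2 ∈ S' → x.1 ∈ C ∧ t x.1 ≤ x.2.1 ∧ x.2.2 ≤ t' x.1

/-- **the numbers** -/
structure QNum (P : Prm) (O O' : Ot) (ρ η L Θ : ℝ) : Prop where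
  eta : 10000 * η ≤ ρ
  κ : O.κ ≤ 1 / 10 * ρ
  κ' : O'.κ ≤ 1 / 10 * ρ
  w0 : 0 ≤ O.hw
  w0' : 0 ≤ O'.hw
  w : O.hw ≤ 1 / 10 * ρ
  w' : O'.hw ≤ 1 / 10 * ρ
  tht : 50000 * ρ + (O.r + O'.r) ≤ Θ
  big : 8 * (O.r + O'.r) + 50000 * ρ ≤ L
  big' : 2 * Θ ≤ L

section

variable {P : Prm} (h : P.Ok) {ρ τ : ℝ} (hρ : 0 < ρ) (hp1 : P.p.Nr (bE ρ τ)) (hq1 : P.q.Nr (bE ρ τ))
  (hu : ‖P.u - 1‖ ≤ 1 / 100000000) {V : Ultrafilter ℕ} (hV : (V : Filter ℕ) ≤ atTop) {β b : Fin 3 → Measure Pie}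
  (H : ClsL V P β b)

/-- the end of the arcs of the class `a` -/
noncomputable def Yar (P : Prm) (L : ℝ) (a : Fin 3) : ℂ := pwI L + (hq P : ℂ) * (P.u * ev (-a)) - (hp P : ℂ) * (P.u * ev a)

/-- the end of the rests of the class `a` -/
noncomputable def Yre (P : Prm) (L : ℝ) (a : Fin 3) : ℂ :=
  pwI L + ((hq P - P.q.kc : ℝ) : ℂ) * ev (-a) - ((hp P - P.p.kc : ℝ) : ℂ) * ev a

/-- the depth of the region of the picture, of the region of the arcs -/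
noncomputable def Mpi (L : ℝ) (a : Fin 3) : ℝ := if a = 1 then L else 4 * L
noncomputable def Mar (L : ℝ) (a : Fin 3) : ℝ := if a = 1 then 2 * L else 3 * L

include hρ in
lemma kc_le {E : En} (hE : E.Nr (bE ρ τ)) : 0 ≤ E.kc ∧ E.kc ≤ 12000 * ρ ∧ 0 ≤ E.n.m ∧ E.kr ≤ 101 / 10000 * ρ ∧ 0 < E.kr ∧
    8 * ρ ≤ E.n.m ∧ E.f.κ ≤ 1 / 10 * ρ ∧ 0 < E.f.κ ∧ E.k ≤ 30000 * ρ ∧ 1900000 * ρ ≤ E.f.r0 := by
  have kc1 := hE.kc.1
  have kc2 := hE.kc.2
  have a0 : 81/10 * ρ ≤ E.n.m := hE.n.m.1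
  have b0 : 11400 * ρ ≤ E.f.m := hE.f.m.1
  have b1 : E.f.m ≤ 101 / 100 * (11400 * ρ) := hE.f.m.2
  have l0 : 60 * ρ ≤ E.f.l := hE.f.l.1
  have l1 : E.f.l ≤ 101 / 100 * (60 * ρ) := hE.f.l.2
  have k0 : 1/100 * ρ ≤ E.kr := hE.kr.1
  have k1 : E.kr ≤ 101 / 100 * (1/100 * ρ) := hE.kr.2
  have c0 : 9/100 * ρ ≤ E.f.κ := hE.f.κ.1
  have c1 : E.f.κ ≤ 101 / 100 * (9/100 * ρ) := hE.f.κ.2
  have d1 : E.rk ≤ 101 / 100 * (80 * ρ) := hE.rk.2
  have d2 : E.f.r2 ≤ 101 / 100 * (28500 * ρ) := hE.f.r2.2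
  have d3 : 1950000 * ρ ≤ E.f.r0 := hE.f.r0.1
  have e : E.k = E.rk + E.f.r2 := rfl
  refine ⟨by linarith, by linarith, by linarith, by linarith, by linarith, by linarith, by linarith, by linarith, by linarith,
    by linarith⟩

include h in
lemma yar_near {L : ℝ} (h0 : 0 ≤ hp P) (h0' : 0 ≤ hq P) (a : Fin 3) : ‖Yar P L a - pwI L‖ ≤ hp P + hq P := by
  have e : Yar P L a - pwI L = (hq P : ℂ) * (P.u * ev (-a)) - (hp P : ℂ) * (P.u * ev a) := by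
    unfold Yar
    ring
  rw [e]
  refine (norm_sub_le _ _).trans ?_
  rw [norm_mul, norm_mul, norm_mul, norm_mul, h.u, ev_norm, ev_norm, Complex.norm_real, Complex.norm_real, Real.norm_of_nonneg h0,
    Real.norm_of_nonneg h0']
  linarith

lemma yre_near {L : ℝ} (h0 : 0 ≤ hp P - P.p.kc) (h0' : 0 ≤ hq P - P.q.kc) (a : Fin 3) :
    ‖Yre P L a - pwI L‖ ≤ (hp P - P.p.kc) + (hq P - P.q.kc) := by
  have e : Yre P L a - pwI L = ((hq P - P.q.kc : ℝ) : ℂ) * ev (-a) - ((hp P - P.p.kc : ℝ) : ℂ) * ev a := by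
    unfold Yre
    ring
  rw [e]
  refine (norm_sub_le _ _).trans ?_
  rw [norm_mul, norm_mul, ev_norm, ev_norm, Complex.norm_real, Complex.norm_real, Real.norm_of_nonneg h0,
    Real.norm_of_nonneg h0']
  linarith

/-- coordinates of a point near `pwI L` -/
lemma pwI_coord {L e : ℝ} {z : ℂ} (hz : ‖z - pwI L‖ ≤ e) : L - 2 * e ≤ cy z ∧ cx z ≤ -2 * L + 2 * e ∧
    cx z + cy z ≤ -L + 2 * e ∧ -e ≤ z.re := by
  have z1 := abs_le.1 ((abs_cx (z - pwI L)).trans (mul_le_mul_of_nonneg_left hz (by norm_num)))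
  have z2 := abs_le.1 ((abs_cy (z - pwI L)).trans (mul_le_mul_of_nonneg_left hz (by norm_num)))
  have z3 := abs_le.1 ((abs_cs (z - pwI L)).trans (mul_le_mul_of_nonneg_left hz (by norm_num)))
  have z4 := abs_le.1 ((Complex.abs_re_le_norm (z - pwI L)).trans hz)
  rw [cx_sub, cx_pwI] at z1
  rw [cy_sub, cy_pwI] at z2
  rw [cx_sub, cy_sub, cx_pwI, cy_pwI] at z3
  rw [Complex.sub_re] at z4
  have e0 : (pwI L).re = 0 := rfl
  rw [e0] at z4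
  exact ⟨by linarith [z2.1], by linarith [z1.2], by linarith [z3.2], by linarith [z4.1]⟩

include h hρ hp1 hq1 hu hV H

/-- **one class**: marked rests of the picture with the blocks in small cells -/
theorem one_cls {O O' : Ot} {Yp Yq : Tp} {Vw : Pool.Agent.ROT.F3.Wn} {lp lq η L Θ : ℝ} {a : Fin 3} (n : PNum P (wnd P a) Vw O O' Yp Yq lp lq η L Θ)
    (q : QNum P O O' ρ η L Θ) {κ κ' : Measure Pie} {S S' : Set Pie} (hi : QIn V O O' a κ κ' S S') :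
    ∃ bc : Measure MP, IsFiniteMeasure bc ∧ bc.map Prod.fst ≤ β a ∧ bc {x | (two x).1 ∈ S ∧ (two x).2 ∈ S'} ≠ 0 ∧
      ∀ᵐ x ∂bc, EPY (ev a) (ev (-a)) O O' Yp Yq Vw x ∧
        x.1 ∈ Gd a (2 * η + (1 / 10 * ρ + O.hw)) (3 * (2 * η) + (1 / 10 * ρ + O'.hw)) (Mar L a)
          (4 * η + 1 / 100000000 * (hp P + hq P)) (Yre P L a) ∧
        ∀ s s' : ℝ, s ≤ x.2.1 → x.2.2 ≤ s' → (x.1, (s, s')) ∈ VC P a →
          pcut x.1 s s' ∈ Gd a (2 * η + (P.p.f.κ + 2 * O.hw)) (3 * (2 * η) + (P.q.f.κ + 2 * O'.hw)) (Mar L a)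
            (2 * η + η + η + P.p.kr + P.q.kr) (Yar P L a) := by
  have := hi.fκ
  have := hi.fκ'
  have := H.fβ a
  obtain ⟨p1, p2, p3, p4, p5, p6, p7, p8, p9, p10⟩ := kc_le hρ hp1
  obtain ⟨q1, q2, q3, q4, q5, q6, q7, q8, q9, q10⟩ := kc_le hρ hq1
  obtain ⟨a1, a2⟩ := hh_le hρ hp1
  obtain ⟨b1, b2⟩ := hh_le hρ hq1
  have ehp : hp P = P.p.kc + P.p.n.m := rfl
  have ehq : hq P = P.q.kc + P.q.n.m := rfl
  rw [← ehp] at a1 a2
  rw [← ehq] at b1 b2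
  have hη := n.hη
  have hL := n.hL
  have heta := q.eta
  have hO := n.r
  have hO' := n.r'
  have hΘ := q.tht
  have hbig := q.big
  have hbig' := q.big'
  have hk0 : κ univ ≠ 0 := fun h0 => hi.hS (measure_mono_null (subset_univ _) h0)
  have hk0' : κ' univ ≠ 0 := fun h0 => hi.hS' (measure_mono_null (subset_univ _) h0)
  -- a first picture: the blocks are short
  have hM : ∀ {x : ℝ}, 0 ≤ x → a = 1 → L + 2 * Θ ≤ 2 * Mpi L a := by
    intro x _ ha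
    rw [Mpi, if_pos ha]
    linarith
  obtain ⟨bh, -, -, ⟨u, hu0, hprod⟩, hae⟩ := pic_law h.p.n h.q.n n (t := pwI L) (by rw [sub_self, norm_zero]; linarith)
    (M := Mpi L a) (fun ha => hM le_rfl ha) hV (ClsL.rlim h hV H a) hi.lκ hi.lκ' hk0 hk0'
  have c1 : ∀ R : ℝ, MeasurableSet {p : Pie | ‖dsp p‖ ≤ R} := fun R =>
    (isClosed_le dsp_cont.norm continuous_const).measurableSet
  have cc : ∀ (b : ℂ) (e : ℝ), MeasurableSet {p : Pie | ‖dsp p - b‖ ≤ e} := fun b e =>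
    (isClosed_le (dsp_cont.sub continuous_const).norm continuous_const).measurableSet
  have hd1 : ∀ {d : ℂ} {O : Ot} {k : Pie}, OtV d O k → ‖dsp k‖ ≤ O.r := by
    intro d O k hk
    have e : dsp k = k.1 1 := by
      unfold dsp
      rw [hk.z, sub_zero]
    rw [e]
    exact hk.b 1
  have hz : (ENNReal.ofReal u • κ.prod κ') {z : Pie × Pie | ¬(‖dsp z.1‖ ≤ O.r ∧ ‖dsp z.2‖ ≤ O'.r)} = 0 := by
    have hm : MeasurableSet {z : Pie × Pie | ¬(‖dsp z.1‖ ≤ O.r ∧ ‖dsp z.2‖ ≤ O'.r)} :=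
      ((measurable_fst (c1 O.r)).inter (measurable_snd (c1 O'.r))).compl
    rw [← hprod, Measure.map_apply two_cont.measurable hm]
    refine measure_mono_null (fun x hx => ?_) (ae_iff.1 hae)
    intro hx2
    exact hx ⟨hd1 hx2.1.p, hd1 hx2.1.q⟩
  have hz2 : (κ.prod κ') {z : Pie × Pie | ¬(‖dsp z.1‖ ≤ O.r ∧ ‖dsp z.2‖ ≤ O'.r)} = 0 := by
    rw [Measure.smul_apply, smul_eq_mul] at hz
    exact (mul_eq_zero.1 hz).resolve_left (by rw [ENNReal.ofReal_eq_zero, not_le]; exact hu0)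
  have s1 : κ {p | ‖dsp p‖ ≤ O.r}ᶜ = 0 := by
    have h3 : (κ.prod κ') ({p | ‖dsp p‖ ≤ O.r}ᶜ ×ˢ univ) = 0 :=
      measure_mono_null (fun z hz => fun h4 => hz.1 h4.1) hz2
    rw [Measure.prod_prod] at h3
    exact (mul_eq_zero.1 h3).resolve_right hk0'
  have s2 : κ' {p | ‖dsp p‖ ≤ O'.r}ᶜ = 0 := by
    have h3 : (κ.prod κ') (univ ×ˢ {p | ‖dsp p‖ ≤ O'.r}ᶜ) = 0 :=
      measure_mono_null (fun z hz => fun h4 => hz.2 h4.2) hz2
    rw [Measure.prod_prod] at h3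
    exact (mul_eq_zero.1 h3).resolve_left hk0
  have inter : ∀ {m : Measure Pie} {A B : Set Pie}, m A ≠ 0 → m Bᶜ = 0 → m (A ∩ B) ≠ 0 := by
    intro m A B hA hB h0
    have h3 : A ⊆ (A ∩ B) ∪ Bᶜ := fun x hx => by
      by_cases hxB : x ∈ B
      · exact Or.inl ⟨hx, hxB⟩
      · exact Or.inr hxB
    exact hA (measure_mono_null h3 (measure_union_null h0 hB))
  -- the cells
  have cel : ∀ {m : Measure Pie} {A : Set Pie} {R : ℝ}, m A ≠ 0 → m {p | ‖dsp p‖ ≤ R}ᶜ = 0 →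
      ∃ b0 : ℂ, m (A ∩ {p | ‖dsp p - b0‖ ≤ η}) ≠ 0 ∧ ‖b0‖ ≤ R + η := by
    intro m A R hA hB
    obtain ⟨b0, hb0⟩ := cell_ex (inter hA hB) hη
    obtain ⟨p, hp⟩ : (A ∩ {p | ‖dsp p‖ ≤ R} ∩ {p | ‖dsp p - b0‖ ≤ η}).Nonempty := by
      by_contra hc
      rw [Set.not_nonempty_iff_eq_empty] at hc
      rw [hc, measure_empty] at hb0
      exact hb0 rfl
    have hsub : A ∩ {p | ‖dsp p‖ ≤ R} ∩ {p | ‖dsp p - b0‖ ≤ η} ⊆ A ∩ {p | ‖dsp p - b0‖ ≤ η} := fun x hx => ⟨hx.1.1, hx.2⟩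
    refine ⟨b0, fun h0 => hb0 (measure_mono_null hsub h0), ?_⟩
    have h3 : ‖dsp p - b0‖ ≤ η := hp.2
    have h4 : ‖dsp p‖ ≤ R := hp.1.2
    have h5 := norm_sub_le (dsp p) (dsp p - b0)
    rw [sub_sub_cancel] at h5
    linarith
  obtain ⟨b0, hb0, nb0⟩ := cel hi.hS s1
  obtain ⟨b0', hb0', nb0'⟩ := cel hi.hS' s2
  -- the picture
  obtain ⟨t, ht⟩ : ∃ t : ℂ, t = Yar P L a - (b0 - P.p.kc * ev a) + (b0' - P.q.kc * ev (-a)) := ⟨_, rfl⟩
  have hh0 : 0 ≤ hp P := a1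
  have nk : ∀ (E : En) (i : Fin 3), 0 ≤ E.kc → ‖(E.kc : ℂ) * ev i‖ ≤ E.kc := by
    intro E i hE
    rw [norm_mul, ev_norm, Complex.norm_real, Real.norm_of_nonneg hE, mul_one]
  have hYa := yar_near h (L := L) a1 b1 a
  have tn : ‖t - pwI L‖ ≤ Θ := by
    have e : t - pwI L = (Yar P L a - pwI L) - (b0 - P.p.kc * ev a) + (b0' - P.q.kc * ev (-a)) := by
      rw [ht]
      ring
    rw [e]
    refine (norm_add_le _ _).trans ((add_le_add ((norm_sub_le _ _).trans (add_le_add hYa ((norm_sub_le _ _).trans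
      (add_le_add nb0 (nk P.p a p1))))) ((norm_sub_le _ _).trans (add_le_add nb0' (nk P.q (-a) q1)))).trans ?_)
    linarith
  obtain ⟨bh, f1, f2, ⟨u, hu0, hprod⟩, hae⟩ := pic_law h.p.n h.q.n n (t := t) tn (M := Mpi L a) (fun ha => hM le_rfl ha) hV
    (ClsL.rlim h hV H a) hi.lκ hi.lκ' hk0 hk0'
  obtain ⟨bc, g1, g2, g3, g4⟩ := cell_bh f2 hu0 hprod hi.mS hi.mS' hb0 hb0' hae
  refine ⟨bc, g1, g2, g3, ?_⟩
  filter_upwards [g4] with x hx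
  obtain ⟨⟨x1, x2, x3⟩, x4, x5⟩ := hx
  have qk : QK a O.hw O'.hw O.r O'.r (1 / 10 * ρ) (2 * η) (Mpi L a) t x := epy_qk x1 n.c0 n.c0' q.κ q.κ' x2 x3
  refine ⟨x1, ?_, fun s s' hs hs' hv => ?_⟩
  · -- the whole rest
    have d1 : 0 ≤ hp P - P.p.kc := by rw [ehp]; linarith
    have d2 : 0 ≤ hq P - P.q.kc := by rw [ehq]; linarith
    have hY := yre_near (L := L) d1 d2 a
    obtain ⟨k1, k2, k3, k4⟩ := pwI_coord hY
    have eY : b0 + t - b0' - Yre P L a = (hq P : ℂ) * ((P.u - 1) * ev (-a)) - (hp P : ℂ) * ((P.u - 1) * ev a) := by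
      rw [ht]
      unfold Yar Yre
      push_cast
      ring
    have nY : ‖b0 + t - b0' - Yre P L a‖ ≤ 1 / 100000000 * (hp P + hq P) := by
      rw [eY]
      refine (norm_sub_le _ _).trans ?_
      rw [norm_mul, norm_mul, norm_mul, norm_mul, ev_norm, ev_norm, Complex.norm_real, Complex.norm_real, Real.norm_of_nonneg a1,
        Real.norm_of_nonneg b1]
      have e1 := mul_le_mul_of_nonneg_left hu b1
      have e2 := mul_le_mul_of_nonneg_left hu a1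
      linarith
    refine rest_reg qk x4 x5 (ϱ := 4 * η + 1 / 100000000 * (hp P + hq P)) (by linarith) (by linarith) q.w0 q.w0' (by linarith)
      (by linarith) (by linarith) (fun ha => ?_) (fun ha => ?_) ?_ ?_ ?_ ?_
    · rw [Mpi, Mar, if_pos ha, if_pos ha]
      refine ⟨by linarith, by linarith, by linarith⟩
    · rw [Mpi, Mar, if_neg (by rw [ha]; decide), if_neg (by rw [ha]; decide)]
      linarith
    · linarith
    · linarith
    · linarith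
    · linarith
  · -- the arc
    obtain ⟨k1, k2, k3, k4⟩ := pwI_coord hYa
    have hup : ‖P.u - 1‖ ≤ ‖P.u - 1‖ := le_rfl
    refine gd_of (W := wnd P a) h.p h.q (turn_le (v := P.u) (a := a)) (turn_le (v := P.u) (a := -a)) (AV_sub P a) qk hs hs' hv x4 x5 ht
      (by linarith) q.w0 q.w0' le_rfl le_rfl le_rfl ?_ ?_ (fun ha => ?_) (fun ha => ?_) ?_ ?_ ?_ ?_
    · linarith [q.w]
    · linarith [q.w']
    · rw [Mpi, Mar, if_pos ha, if_pos ha]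
      refine ⟨by linarith, by linarith, by linarith⟩
    · rw [Mpi, Mar, if_neg (by rw [ha]; decide), if_neg (by rw [ha]; decide)]
      linarith
    · linarith
    · linarith
    · linarith
    · linarith

omit h hρ hp1 hq1 hu hV H in
/-- the classes are separated in their cells -/
lemma gd_sep {v : ℂ} {ε g g' r r' δ δ' ϱ L : ℝ} {Y1 Y2 : ℂ} (hv : ‖v - 1‖ ≤ ε) (hg : 0 ≤ g) (hg' : 0 ≤ g')
    (hδ : δ + r + 2 * (ε * g) < g) (hδ' : δ' + r' + 2 * (ε * g') < g') (hL : r + 2 * (ε * g) < L) {i j : Fin 3}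
    (hij : i = 0 ∧ j = 1 ∨ i = 1 ∧ j = 2) {x y : Pie} (hx : x ∈ Gd i δ δ' (Mar L i) ϱ Y1) (hy : y ∈ Gd j δ δ' (Mar L j) ϱ Y2)
    {z : ℂ} (hz : ‖z - cen v g i j‖ ≤ r) (hw : ‖z + dsp y - dsp x - cen v g' (-i) (-j)‖ ≤ r') (s t : unitInterval) :
    x.1 s ≠ y.1 t + z := by
  have e1 : -(1 : Fin 3) = 2 := by decide
  have e2 : -(2 : Fin 3) = 1 := by decide
  rcases hij with ⟨rfl, rfl⟩ | ⟨rfl, rfl⟩
  · rw [neg_zero, e1] at hw
    exact gd_sep01 hv hg hg' hδ hδ' hx hy hz hw s t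
  · rw [e1, e2] at hw
    refine gd_sep12 hv hg hg' hδ hδ' ?_ hx hy hz hw s t
    rw [Mar, Mar, if_pos rfl, if_neg (by decide)]
    linarith

omit h hρ hp1 hq1 hu hV H in
lemma yar_sub (L : ℝ) (i j : Fin 3) : cen P.u (hq P) (-i) (-j) = cen P.u (hp P) i j + Yar P L j - Yar P L i := by
  unfold cen Yar
  ring

omit h hρ hp1 hq1 hu hV H in
lemma yre_sub (L : ℝ) (i j : Fin 3) : cen 1 (hq P - P.q.kc) (-i) (-j) = cen 1 (hp P - P.p.kc) i j + Yre P L j - Yre P L i := by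
  unfold cen Yre
  ring

omit h hu hV H in
/-- **whole rests have companions**: both places -/
lemma tq_of {O O' : Ot} {η L Θ : ℝ} (hη : 0 < η) (hO : 0 < O.r) (hO' : 0 < O'.r) (q : QNum P O O' ρ η L Θ) {β : Fin 3 → Measure Pie}
    (fβ : ∀ a, IsFiniteMeasure (β a)) {i j : Fin 3} (hij : i = 0 ∧ j = 1 ∨ i = 1 ∧ j = 2) :
    (∀ x ∈ Gd i (2 * η + (1 / 10 * ρ + O.hw)) (3 * (2 * η) + (1 / 10 * ρ + O'.hw)) (Mar L i)
      (4 * η + 1 / 100000000 * (hp P + hq P)) (Yre P L i),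
      β j (Gd j (2 * η + (1 / 10 * ρ + O.hw)) (3 * (2 * η) + (1 / 10 * ρ + O'.hw)) (Mar L j)
        (4 * η + 1 / 100000000 * (hp P + hq P)) (Yre P L j)) ≠ 0 → x ∈ TT (β j) (cZ0 P i j ρ) (cW0 P i j ρ)) ∧
    (∀ y ∈ Gd j (2 * η + (1 / 10 * ρ + O.hw)) (3 * (2 * η) + (1 / 10 * ρ + O'.hw)) (Mar L j)
      (4 * η + 1 / 100000000 * (hp P + hq P)) (Yre P L j),
      β i (Gd i (2 * η + (1 / 10 * ρ + O.hw)) (3 * (2 * η) + (1 / 10 * ρ + O'.hw)) (Mar L i)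
        (4 * η + 1 / 100000000 * (hp P + hq P)) (Yre P L i)) ≠ 0 → y ∈ TTs (β i) (cZ0 P i j ρ) (cW0 P i j ρ)) := by
  obtain ⟨p1, p2, p3, p4, p5, p6, p7, p8, p9, p10⟩ := kc_le hρ hp1
  obtain ⟨q1, q2, q3, q4, q5, q6, q7, q8, q9, q10⟩ := kc_le hρ hq1
  obtain ⟨a1, a2⟩ := hh_le hρ hp1
  obtain ⟨b1, b2⟩ := hh_le hρ hq1
  have ehp : hp P = P.p.kc + P.p.n.m := rfl
  have ehq : hq P = P.q.kc + P.q.n.m := rfl
  rw [← ehp] at a1 a2
  rw [← ehq] at b1 b2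
  have heta := q.eta
  have hbig := q.big
  have d1 : 8 * ρ ≤ hp P - P.p.kc := by rw [ehp]; linarith
  have d2 : 8 * ρ ≤ hq P - P.q.kc := by rw [ehq]; linarith
  have eZ : cZ0 P i j ρ = Metric.ball (cen 1 (hp P - P.p.kc) i j) (3 / 5 * ρ) := by
    unfold cZ0 Z0E cen
    rw [one_mul, one_mul]
  have eW : cW0 P i j ρ = Metric.ball (cen 1 (hq P - P.q.kc) (-i) (-j)) (3 / 5 * ρ) := by
    unfold cW0 Z0E cen
    rw [one_mul, one_mul]
  have hsep : ∀ {x y : Pie}, x ∈ Gd i (2 * η + (1 / 10 * ρ + O.hw)) (3 * (2 * η) + (1 / 10 * ρ + O'.hw)) (Mar L i)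
      (4 * η + 1 / 100000000 * (hp P + hq P)) (Yre P L i) →
      y ∈ Gd j (2 * η + (1 / 10 * ρ + O.hw)) (3 * (2 * η) + (1 / 10 * ρ + O'.hw)) (Mar L j)
        (4 * η + 1 / 100000000 * (hp P + hq P)) (Yre P L j) → ∀ z : ℂ, ‖z - cen 1 (hp P - P.p.kc) i j‖ ≤ 3 / 5 * ρ →
      ‖z + dsp y - dsp x - cen 1 (hq P - P.q.kc) (-i) (-j)‖ ≤ 3 / 5 * ρ → ∀ s t : unitInterval, x.1 s ≠ y.1 t + z := by
    intro x y hx hy z hz hw s t
    refine gd_sep (v := 1) (ε := 0) (by rw [sub_self, norm_zero]) (by linarith) (by linarith) ?_ ?_ ?_ hij hx hy hz hw s t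
    · linarith [q.w]
    · linarith [q.w']
    · linarith
  have hr : 0 < 3 / 5 * ρ := by positivity
  have hϱ : 2 * (4 * η + 1 / 100000000 * (hp P + hq P)) < 3 / 5 * ρ := by linarith
  have := fβ i
  have := fβ j
  rw [eZ, eW]
  constructor
  · intro x hx hne
    exact Q12.sec_fst hne (fun y hy z hz hw => hsep hx hy z hz hw) hx.2 (fun y hy => hy.2) (yre_sub L i j) hr hr (Or.inl hϱ)
  · intro y hy hne
    exact Q12.sec_snd hne (fun x hx z hz hw => hsep hx hy z hz hw) (fun x hx => hx.2) hy.2 (yre_sub L i j) hr hr (Or.inl hϱ)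

/-- **`QPos` from the picture** -/
theorem qpos_pic {O O' : Ot} {Yp Yq : Tp} {Vw : Fin 3 → Pool.Agent.ROT.F3.Wn} {lp lq η L Θ : ℝ}
    (n : ∀ a, PNum P (wnd P a) (Vw a) O O' Yp Yq lp lq η L Θ) (q : QNum P O O' ρ η L Θ) {κ κ' : Fin 3 → Measure Pie}
    {S S' : Fin 3 → Set Pie} (hi : ∀ a, QIn V O O' a (κ a) (κ' a) (S a) (S' a)) {t t' : Fin 3 → Pie → ℝ} {C : Fin 3 → Set Pie}
    (mt : ∀ a, Measurable (t a)) (mt' : ∀ a, Measurable (t' a)) (mC : ∀ a, MeasurableSet (C a))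
    (hC : ∀ a, ∀ x ∈ C a, (x, (t a x, t' a x)) ∈ VC P a)
    (hl : ∀ a, HlQ P ρ O O' Yp Yq (Vw a) β a (S a) (S' a) (C a) (t a) (t' a)) :
    QPos P ρ β t t' C 0 1 3 ∧ QPos P ρ β t t' C 1 2 5 := by
  have key := fun a => one_cls h hρ hp1 hq1 hu hV H (n a) q (hi a)
  choose bc g1 g2 g3 g4 using key
  have hη := (n 0).hη
  have hO := (n 0).r
  have hO' := (n 0).r'
  obtain ⟨p1, p2, p3, p4, p5, p6, p7, p8, p9, p10⟩ := kc_le hρ hp1
  obtain ⟨q1, q2, q3, q4, q5, q6, q7, q8, q9, q10⟩ := kc_le hρ hq1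
  obtain ⟨a1, a2⟩ := hh_le hρ hp1
  obtain ⟨b1, b2⟩ := hh_le hρ hq1
  have ehp : hp P = P.p.kc + P.p.n.m := rfl
  have ehq : hq P = P.q.kc + P.q.n.m := rfl
  rw [← ehp] at a1 a2
  rw [← ehq] at b1 b2
  have heta := q.eta
  have hbig := q.big
  have f1 : 11460 * ρ ≤ P.p.kc := by
    have kc1 := hp1.kc.1
    have b0 : 11400 * ρ ≤ P.p.f.m := hp1.f.m.1
    have l0 : 60 * ρ ≤ P.p.f.l := hp1.f.l.1
    linarith
  have f2 : 11460 * ρ ≤ P.q.kc := by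
    have kc1 := hq1.kc.1
    have b0 : 11400 * ρ ≤ P.q.f.m := hq1.f.m.1
    have l0 : 60 * ρ ≤ P.q.f.l := hq1.f.l.1
    linarith
  have ne : ∀ a, bc a ≠ 0 := fun a h0 => g3 a (by rw [h0]; rfl)
  have bne : ∀ a, β a (Gd a (2 * η + (1 / 10 * ρ + O.hw)) (3 * (2 * η) + (1 / 10 * ρ + O'.hw)) (Mar L a)
      (4 * η + 1 / 100000000 * (hp P + hq P)) (Yre P L a)) ≠ 0 := fun a =>
    fst_ne (g2 a) (ne a) ((g4 a).mono fun x hx => hx.2.1)
  obtain ⟨t01, t01'⟩ := tq_of hρ hp1 hq1 hη hO hO' q H.fβ (i := 0) (j := 1) (Or.inl ⟨rfl, rfl⟩)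
  obtain ⟨t12, t12'⟩ := tq_of hρ hp1 hq1 hη hO hO' q H.fβ (i := 1) (j := 2) (Or.inr ⟨rfl, rfl⟩)
  have hT : ∀ a, ∀ᵐ x ∂(bc a), x.1 ∈ TQ P ρ β a := by
    intro a
    filter_upwards [g4 a] with x hx
    match a with
    | 0 =>
      unfold TQ
      rw [if_pos rfl]
      exact t01 x.1 hx.2.1 (bne 1)
    | 1 =>
      unfold TQ
      rw [if_neg (by decide), if_pos rfl]
      exact t01' x.1 hx.2.1 (bne 0)
    | 2 =>
      unfold TQ
      rw [if_neg (by decide), if_neg (by decide)]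
      exact t12' x.1 hx.2.1 (bne 1)
  have law : ∀ a, ((clsC (t a) (t' a) (C a)).law (β a)).snd (Gd a (2 * η + (P.p.f.κ + 2 * O.hw)) (3 * (2 * η) + (P.q.f.κ + 2 * O'.hw))
      (Mar L a) (2 * η + η + η + P.p.kr + P.q.kr) (Yar P L a)) ≠ 0 := by
    intro a
    refine law_pos2 (g2 a) (g3 a) (g4 a) (mt a) (mt' a) (mC a) (hl a (bc a) (g1 a) (g2 a) ((g4 a).mono fun x hx => hx.1) (hT a))
      (gd_closed _ _ _ _ _ _).measurableSet fun x hx hxC hs hs' => ?_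
    exact hx.2.2 _ _ hs hs' (hC a x.1 hxC)
  have fin : ∀ a, IsFiniteMeasure ((clsC (t a) (t' a) (C a)).law (β a)).snd := by
    intro a
    have := H.fβ a
    have : IsFiniteMeasure ((clsC (t a) (t' a) (C a)).law (β a)) := by
      unfold Cls.law
      infer_instance
    infer_instance
  have hr : 0 < 1 / 11 * ρ := by positivity
  have pos : ∀ {i j : Fin 3} {k : ℝ}, (i = 0 ∧ j = 1 ∨ i = 1 ∧ j = 2) → 1 < k → QPos P ρ β t t' C i j k := by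
    intro i j k hij hk
    have := fin i
    have := fin j
    have hkr : 1 / 11 * ρ < k * (1 / 11 * ρ) := by nlinarith
    refine q_of (law i) (law j) (Metric.isOpen_ball (x := cen P.u (hp P) i j) (ε := k * (1 / 11 * ρ))).measurableSet
      (Metric.isOpen_ball (x := cen P.u (hq P) (-i) (-j)) (ε := k * (1 / 11 * ρ))).measurableSet
      (fun x hx y hy z hz hw s t => gd_sep hu a1 b1 ?_ ?_ ?_ hij hx hy hz hw s t) (fun x hx => hx.2) (fun y hy => hy.2)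
      (yar_sub L i j) hr hr (Or.inl ?_) (Metric.closedBall_subset_ball hkr) (Metric.closedBall_subset_ball hkr)
    · linarith [q.w]
    · linarith [q.w']
    · linarith
    · linarith
  exact ⟨pos (Or.inl ⟨rfl, rfl⟩) (by norm_num), pos (Or.inr ⟨rfl, rfl⟩) (by norm_num)⟩

end

end Pool.Agent.ROT.F3E
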