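import Pool.Agent.ROT.F3Q12f
import Pool.Agent.ROT.F3PrmO22

/-!
# ROT, F3 (helper76): the numbers of `qpos_pic`

* `VwQ P O O' a` : the window of the middle piece of the rests of the class `a`: then the arc is in the window of the class;
* **`q_nums`** : `PNum`, `QNum` for data near the base data; `η = ρ / 10000`, `L = 2 k`.
-/

set_option autoImplicit false

open MeasureTheory Filter Topology Set ComplexConjugate

namespace Pool.Agent.ROT.F3E

open Pool.Agent.ROT.F3 Pool.Agent.ROT.F3.CC Pool.Agent.ROT.F3.Bt Pool.Agent.ROT.F3.Mk Pool.Agent.ROT.F3.Pw Pool.Agent.ROT.F3.Q12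

/-- the window of the middle piece of the rests of the class `a` -/
noncomputable def VwQ (P : Prm) (O O' : Ot) (a : Fin 3) : Pool.Agent.ROT.F3.Wn :=
  ⟨(wnd P a).D0 + (P.p.k + P.q.k) + (O.r + O'.r), (wnd P a).D1 - (P.p.k + P.q.k) - (O.r + O'.r), (wnd P a).t0,
    (wnd P a).t1 - (O.lb + O'.lb)⟩

/-- **the numbers** -/
theorem q_nums {P : Prm} (h : P.Ok) {ρ τ k K : ℝ} (hρ : 0 < ρ) (hρτ : ρ ≤ τ) (hρ1 : ρ ≤ 1) (hp1 : P.p.Nr (bE ρ τ))
    (hq1 : P.q.Nr (bE ρ τ)) (hD0 : P.W.D0 ≤ k) (hD1 : K ≤ P.W.D1) (hK : 8 * k ≤ K) {O O' : Ot} {Yp Yq : Tp} (hO : O.Nr (bO ρ τ))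
    (hO' : O'.Nr (bO ρ τ)) (hY : Yp.Nr (bY ρ τ)) (hY' : Yq.Nr (bY ρ τ)) (ht0 : P.W.t0 ≤ loH (ρ / 10000)) (ht1 : 3 * τ ≤ P.W.t1)
    (htc : 3 * τ ≤ P.Wc.t1) :
    (∀ a, PNum P (wnd P a) (VwQ P O O' a) O O' Yp Yq (200000000 * ρ) (200000000 * ρ) (ρ / 10000) (2 * k) (50000000 * ρ)) ∧
      QNum P O O' ρ (ρ / 10000) (2 * k) (50000000 * ρ) := by
  have om1 : 20000000 * ρ ≤ O.m := hO.m.1
  have or1 : 22000000 * ρ ≤ O.r := hO.r.1
  have or2 : O.r ≤ 101 / 100 * (22000000 * ρ) := hO.r.2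
  have ow1 : 1/500 * ρ ≤ O.hw := hO.hw.1
  have ow2 : O.hw ≤ 101 / 100 * (1/500 * ρ) := hO.hw.2
  have oc1 : 3/4 ≤ O.c := hO.c.1
  have oc2 : O.c ≤ 101 / 100 * (3/4) := hO.c.2
  have ok1 : 2/25 * ρ ≤ O.κ := hO.κ.1
  have ok2 : O.κ ≤ 101 / 100 * (2/25 * ρ) := hO.κ.2
  have oe1 : 2000000 * ρ ≤ O.e := hO.e.1
  have ol1 : 99/100 * τ ≤ O.lb := hO.lb.1
  have ol2 : O.lb ≤ 101 / 100 * (99/100 * τ) := hO.lb.2
  have om1' : 20000000 * ρ ≤ O'.m := hO'.m.1
  have or1' : 22000000 * ρ ≤ O'.r := hO'.r.1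
  have or2' : O'.r ≤ 101 / 100 * (22000000 * ρ) := hO'.r.2
  have ow1' : 1/500 * ρ ≤ O'.hw := hO'.hw.1
  have ow2' : O'.hw ≤ 101 / 100 * (1/500 * ρ) := hO'.hw.2
  have oc1' : 3/4 ≤ O'.c := hO'.c.1
  have oc2' : O'.c ≤ 101 / 100 * (3/4) := hO'.c.2
  have ok1' : 2/25 * ρ ≤ O'.κ := hO'.κ.1
  have ok2' : O'.κ ≤ 101 / 100 * (2/25 * ρ) := hO'.κ.2
  have oe1' : 2000000 * ρ ≤ O'.e := hO'.e.1
  have ol1' : 99/100 * τ ≤ O'.lb := hO'.lb.1
  have ol2' : O'.lb ≤ 101 / 100 * (99/100 * τ) := hO'.lb.2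
  have yg1 : 46000000 * ρ ≤ Yp.rg := hY.rg.1
  have yg2 : Yp.rg ≤ 101 / 100 * (46000000 * ρ) := hY.rg.2
  have yr2 : Yp.r0 ≤ 101 / 100 * (48000000 * ρ) := hY.r0.2
  have yk1 : 1000 * ρ ≤ Yp.κ := hY.κ.1
  have yc2 : Yp.c ≤ 101 / 100 * (77/100) := hY.c.2
  have yg1' : 46000000 * ρ ≤ Yq.rg := hY'.rg.1
  have yg2' : Yq.rg ≤ 101 / 100 * (46000000 * ρ) := hY'.rg.2
  have yr2' : Yq.r0 ≤ 101 / 100 * (48000000 * ρ) := hY'.r0.2
  have yk1' : 1000 * ρ ≤ Yq.κ := hY'.κ.1
  have yc2' : Yq.c ≤ 101 / 100 * (77/100) := hY'.c.2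
  have nc2 : P.p.n.c ≤ 101 / 100 * (16/25) := hp1.n.c.2
  have nc2' : P.q.n.c ≤ 101 / 100 * (16/25) := hq1.n.c.2
  have nk1 : 1/10 * ρ ≤ P.p.n.κ := hp1.n.κ.1
  have nk1' : 1/10 * ρ ≤ P.q.n.κ := hq1.n.κ.1
  have n0 : P.p.n.r0 ≤ 101 / 100 * (1415 * ρ) := hp1.n.r0.2
  have n0' : P.q.n.r0 ≤ 101 / 100 * (1415 * ρ) := hq1.n.r0.2
  have lk1 : 1 * τ ≤ P.p.lk := hp1.lk.1
  have lk1' : 1 * τ ≤ P.q.lk := hq1.lk.1
  have sl : 60000000 * ρ ≤ P.p.s.len := hp1.s.len.1
  have sl' : 60000000 * ρ ≤ P.q.s.len := hq1.s.len.1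
  obtain ⟨p1, p2, p3, p4, p5, p6, p7, p8, p9, p10⟩ := kc_le hρ hp1
  obtain ⟨q1, q2, q3, q4, q5, q6, q7, q8, q9, q10⟩ := kc_le hρ hq1
  have hk : 2400000000 * ρ < k := by linarith [h.nr]
  have h3a : (17 / 10 : ℝ) ≤ Real.sqrt 3 := Real.le_sqrt_of_sq_le (by norm_num)
  have h3b : Real.sqrt 3 ≤ 18 / 10 := by
    rw [Real.sqrt_le_left (by norm_num)]
    norm_num
  have l1 : 17 / 10 * (2 * k) ≤ Real.sqrt 3 * (2 * k) := mul_le_mul_of_nonneg_right h3a (by linarith)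
  have l2 : Real.sqrt 3 * (2 * k) ≤ 18 / 10 * (2 * k) := mul_le_mul_of_nonneg_right h3b (by linarith)
  have hη : 0 < ρ / 10000 := by positivity
  have hh : hiH (ρ / 10000) ≤ ρ / 10000 := hiH_le hη (by linarith)
  have hlo : 0 < loH (ρ / 10000) := loH_pos hη
  refine ⟨fun a => ?_, ?_⟩
  · obtain ⟨k1, k2, k3, k4, k5, k6, k7, k8⟩ := pos_prm h a
    have e0 : (P.wd (wnd P a)).D0 = (wnd P a).D0 - (P.p.k + P.q.k) := rfl
    have e1 : (P.wd (wnd P a)).D1 = (wnd P a).D1 + (P.p.k + P.q.k) := rfl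
    have e2 : (P.wd (wnd P a)).t0 = (wnd P a).t0 := rfl
    have e3 : (P.wd (wnd P a)).t1 = (wnd P a).t1 + (P.p.lk + P.q.lk) := rfl
    have v0 : (VwQ P O O' a).D0 = (wnd P a).D0 + (P.p.k + P.q.k) + (O.r + O'.r) := rfl
    have v1 : (VwQ P O O' a).D1 = (wnd P a).D1 - (P.p.k + P.q.k) - (O.r + O'.r) := rfl
    have v2 : (VwQ P O O' a).t0 = (wnd P a).t0 := rfl
    have v3 : (VwQ P O O' a).t1 = (wnd P a).t1 - (O.lb + O'.lb) := rfl
    have w0 : (wnd P a).D0 ≤ k ∧ K ≤ (wnd P a).D1 ∧ (wnd P a).t0 ≤ loH (ρ / 10000) ∧ 1000000000 * ρ ≤ (wnd P a).D0 ∧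
        3 * τ ≤ (wnd P a).t1 := by
      by_cases ha : a = 0
      · rw [ha, wnd_zero]
        exact ⟨hD0, hD1, ht0, by linarith [h.nr], ht1⟩
      · rw [wnd_ne P ha]
        refine ⟨by linarith [h.Dc], by linarith [h.Dc'], ?_, by linarith [h.nrc], htc⟩
        rw [h.t0c]
        exact hlo.le
    obtain ⟨w1, w2, w3, w4, w5⟩ := w0
    have lb1 : 0 ≤ P.p.lk + P.q.lk := by linarith
    have pk : 0 ≤ P.p.k := by
      have e : P.p.k = P.p.rk + P.p.f.r2 := rfl
      linarith [h.p.rk, h.p.f.r2]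
    have qk : 0 ≤ P.q.k := by
      have e : P.q.k = P.q.rk + P.q.f.r2 := rfl
      linarith [h.q.rk, h.q.f.r2]
    exact
      { hη := hη
        hL := by linarith
        c0 := by linarith
        c0' := by linarith
        c := by linarith
        c' := by linarith
        c1 := by linarith
        c1' := by linarith
        κ := by linarith
        κ' := by linarith
        m := by linarith
        m' := by linarith
        e := by linarith
        e' := by linarith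
        r := by linarith
        r' := by linarith
        g := by linarith
        g' := by linarith
        gr := by linarith
        gr' := by linarith
        yc := by linarith
        yc' := by linarith
        yκ := by linarith
        yκ' := by linarith
        y0 := by linarith
        y0' := by linarith
        yg := by linarith
        yg' := by linarith
        u := by linarith
        u' := by linarith
        uD := by rw [v0]; linarith
        uD' := by rw [v0]; linarith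
        far := by linarith
        D := k5
        D0 := by rw [e0]; linarith
        D1 := by rw [e1]; linarith
        v0 := by rw [v0]; linarith
        v1 := by rw [v1]; linarith
        t0 := by rw [e2]; exact w3
        t1 := by rw [e3]; linarith
        lb := by linarith
        w0 := by rw [v2]; exact w3
        w1 := by rw [v3]; linarith
        k1 := by linarith
        k2 := by linarith }
  · exact
      { eta := by linarith
        κ := by linarith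
        κ' := by linarith
        w0 := by linarith
        w0' := by linarith
        w := by linarith
        w' := by linarith
        tht := by linarith
        big := by linarith
        big' := by linarith }

end Pool.Agent.ROT.F3E
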