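import Pool.Agent.ROT.F3CoreC

/-!
# ROT, F3 (B) (helper12): the rest from its pieces (concatenation)

* `cat a b c x` : the concatenation of three curves (the third one backwards), jointly continuous;
* `rdC` : ((piece at the start, piece at the end), arc) -> rest; **`rdC_meas`**, **`rdC_tau`** : inverse of `tau t t'`;
* **`cut_of`** : the fields `hrd`, `cut` of `TopD` for the class `clsC t t' C`.
-/

set_option autoImplicit false

open MeasureTheory Topology Set

namespace Pool.Agent.ROT.F3.CC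

open Pool.Agent.ROT.F3

/-- the concatenation of three curves (the third one is read from the end), `x` = (1 / duration of the first, 1 / duration of the
second, time at which the second one starts / duration of the second, 1 / duration of the third), total duration 1 -/
noncomputable def cat3 (a b c : C(unitInterval, ℂ)) (x : ℝ × ℝ × ℝ × ℝ) : C(unitInterval, ℂ) :=
  ⟨fun v => ex a (v * x.1) + ex b (v * x.2.1 - x.2.2.1) + (ex c ((1 - v) * x.2.2.2) - c 1), by
    refine ((ex_cont' continuous_const (by fun_prop)).add (ex_cont' continuous_const (by fun_prop))).add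
      ((ex_cont' continuous_const (by fun_prop)).sub continuous_const)⟩

lemma cat3_apply (a b c : C(unitInterval, ℂ)) (x : ℝ × ℝ × ℝ × ℝ) (v : unitInterval) :
    cat3 a b c x v = ex a (v * x.1) + ex b (v * x.2.1 - x.2.2.1) + (ex c ((1 - v) * x.2.2.2) - c 1) := rfl

lemma cat3_cont : Continuous fun p : (C(unitInterval, ℂ) × C(unitInterval, ℂ) × C(unitInterval, ℂ)) × (ℝ × ℝ × ℝ × ℝ) =>
    cat3 p.1.1 p.1.2.1 p.1.2.2 p.2 := by
  refine ContinuousMap.continuous_of_continuous_uncurry _ ?_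
  show Continuous fun q : ((C(unitInterval, ℂ) × C(unitInterval, ℂ) × C(unitInterval, ℂ)) × (ℝ × ℝ × ℝ × ℝ)) × unitInterval =>
    ex q.1.1.1 (q.2 * q.1.2.1) + ex q.1.1.2.1 (q.2 * q.1.2.2.1 - q.1.2.2.2.1) +
      (ex q.1.1.2.2 ((1 - q.2) * q.1.2.2.2.2) - q.1.1.2.2 1)
  have h : Continuous fun q : ((C(unitInterval, ℂ) × C(unitInterval, ℂ) × C(unitInterval, ℂ)) × (ℝ × ℝ × ℝ × ℝ)) ×
      unitInterval => q.1.1.2.2 1 := (continuous_eval_const (1 : unitInterval)).comp (by fun_prop)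
  exact ((ex_cont' (by fun_prop) (by fun_prop)).add (ex_cont' (by fun_prop) (by fun_prop))).add
    ((ex_cont' (by fun_prop) (by fun_prop)).sub h)

/-- the rest from (the pieces, the arc) -/
noncomputable def rdC (p : (Pie × Pie) × Pie) : Pie :=
  (cat3 p.1.1.1 p.2.1 p.1.2.1 ((p.1.1.2 + p.2.2 + p.1.2.2) / p.1.1.2, (p.1.1.2 + p.2.2 + p.1.2.2) / p.2.2,
    p.1.1.2 / p.2.2, (p.1.1.2 + p.2.2 + p.1.2.2) / p.1.2.2), p.1.1.2 + p.2.2 + p.1.2.2)

theorem rdC_meas : Measurable rdC := by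
  unfold rdC
  refine Measurable.prodMk ?_ (by fun_prop)
  refine cat3_cont.measurable.comp (f := fun p : (Pie × Pie) × Pie => ((p.1.1.1, p.2.1, p.1.2.1),
    ((p.1.1.2 + p.2.2 + p.1.2.2) / p.1.1.2, (p.1.1.2 + p.2.2 + p.1.2.2) / p.2.2,
    p.1.1.2 / p.2.2, (p.1.1.2 + p.2.2 + p.1.2.2) / p.1.2.2))) ?_
  fun_prop

lemma ex_le (g : C(unitInterval, ℂ)) {x : ℝ} (h : x ≤ 0) : ex g x = g 0 := by
  unfold ex
  rw [projIcc_of_le_left _ h]
  rfl

lemma ex_ge (g : C(unitInterval, ℂ)) {x : ℝ} (h : 1 ≤ x) : ex g x = g 1 := by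
  unfold ex
  rw [projIcc_of_right_le _ h]
  rfl

/-- **the pieces determine the rest** -/
theorem rdC_tau {t t' : Pie → ℝ} {r : Pie} (h0 : r.1 0 = 0) (hT : 0 < r.2) (h1 : 0 ≤ t r) (h2 : t r ≤ t' r)
    (h3 : t' r ≤ 1) : rdC (tau t t' r) = r := by
  obtain ⟨g, T⟩ := r
  obtain ⟨s, hs⟩ : ∃ s, s = t (g, T) := ⟨_, rfl⟩
  obtain ⟨s', hs'⟩ : ∃ s', s' = t' (g, T) := ⟨_, rfl⟩
  rw [← hs] at h1 h2
  rw [← hs'] at h2 h3
  have h0' : g 0 = 0 := h0
  have hT' : 0 < T := hT
  have e : tau t t' (g, T) = ((pcut (g, T) 0 s, pcut (g, T) 1 s'), pcut (g, T) s s') := by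
    unfold tau
    rw [← hs, ← hs']
  rw [e]
  have d1 : (pcut (g, T) 0 s).2 = T * s := by
    show T * |s - 0| = T * s
    rw [sub_zero, abs_of_nonneg h1]
  have d2 : (pcut (g, T) 1 s').2 = T * (1 - s') := by
    show T * |s' - 1| = T * (1 - s')
    rw [abs_of_nonpos (by linarith)]
    ring
  have d3 : (pcut (g, T) s s').2 = T * (s' - s) := by
    show T * |s' - s| = T * (s' - s)
    rw [abs_of_nonneg (by linarith)]
  have d4 : (pcut (g, T) 0 s).2 + (pcut (g, T) s s').2 + (pcut (g, T) 1 s').2 = T := by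
    rw [d1, d2, d3]
    ring
  unfold rdC
  refine Prod.ext ?_ d4
  show cat3 _ _ _ ((_ + _ + _) / _, (_ + _ + _) / _, _ / _, (_ + _ + _) / _) = g
  show cat3 (pcut (g, T) 0 s).1 (pcut (g, T) s s').1 (pcut (g, T) 1 s').1
    (((pcut (g, T) 0 s).2 + (pcut (g, T) s s').2 + (pcut (g, T) 1 s').2) / (pcut (g, T) 0 s).2,
    ((pcut (g, T) 0 s).2 + (pcut (g, T) s s').2 + (pcut (g, T) 1 s').2) / (pcut (g, T) s s').2,
    (pcut (g, T) 0 s).2 / (pcut (g, T) s s').2,
    ((pcut (g, T) 0 s).2 + (pcut (g, T) s s').2 + (pcut (g, T) 1 s').2) / (pcut (g, T) 1 s').2) = g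
  rw [d4, d1, d2, d3]
  ext v
  have hv0 : 0 ≤ (v : ℝ) := v.2.1
  have hv1 : (v : ℝ) ≤ 1 := v.2.2
  rw [cat3_apply]
  show ex (cutp g 0 s) (v * (T / (T * s))) + ex (cutp g s s') (v * (T / (T * (s' - s))) - T * s / (T * (s' - s))) +
    (ex (cutp g 1 s') ((1 - v) * (T / (T * (1 - s')))) - cutp g 1 s' 1) = g v
  have q1 : T / (T * s) = 1 / s := by
    rw [div_mul_eq_div_div, div_self hT'.ne']
  have q2 : T / (T * (s' - s)) = 1 / (s' - s) := by
    rw [div_mul_eq_div_div, div_self hT'.ne']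
  have q3 : T * s / (T * (s' - s)) = s / (s' - s) := mul_div_mul_left _ _ hT'.ne'
  have q4 : T / (T * (1 - s')) = 1 / (1 - s') := by
    rw [div_mul_eq_div_div, div_self hT'.ne']
  rw [q1, q2, q3, q4]
  -- the three values
  have A : ex (cutp g 0 s) (v * (1 / s)) = ex g (min v s) - g 0 := by
    rcases eq_or_lt_of_le h1 with h | h
    · rw [← h]
      rw [div_zero, mul_zero, min_eq_right hv0, ex_zero, cutp_zero, ex_zero, sub_self]
    rcases le_total (v : ℝ) s with hvs | hvs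
    · rw [min_eq_left hvs, ex_cutp ⟨by positivity, by rw [mul_one_div, div_le_one h]; exact hvs⟩, ex_zero, zero_add,
        sub_zero]
      congr 2
      field_simp
    · rw [min_eq_right hvs, ex_ge _ (by rw [mul_one_div, one_le_div h]; exact hvs), cutp_one, ex_zero]
  have B : ex (cutp g s s') (v * (1 / (s' - s)) - s / (s' - s)) = ex g (max s (min v s')) - ex g s := by
    rcases eq_or_lt_of_le h2 with h | h
    · rw [← h, sub_self, div_zero, mul_zero, div_zero, sub_zero, max_eq_left (min_le_right _ _), ex_zero, cutp_zero,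
        sub_self]
    have hd : 0 < s' - s := by linarith
    have e1 : (v : ℝ) * (1 / (s' - s)) - s / (s' - s) = (v - s) / (s' - s) := by ring
    rw [e1]
    rcases le_total (v : ℝ) s with hvs | hvs
    · rw [ex_le _ (div_nonpos_of_nonpos_of_nonneg (by linarith) hd.le), cutp_zero, max_eq_left, sub_self]
      exact (min_le_left _ _).trans hvs
    rcases le_total (v : ℝ) s' with hvs' | hvs'
    · rw [min_eq_left hvs', max_eq_right hvs, ex_cutp ⟨div_nonneg (by linarith) hd.le, by rw [div_le_one hd]; linarith⟩]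
      congr 2
      rw [div_mul_cancel₀ _ hd.ne']
      ring
    · rw [min_eq_right hvs', max_eq_right h2, ex_ge _ (by rw [one_le_div hd]; linarith), cutp_one]
  have Cc : ex (cutp g 1 s') ((1 - v) * (1 / (1 - s'))) - cutp g 1 s' 1 = ex g (max s' v) - ex g s' := by
    rw [cutp_one]
    rcases eq_or_lt_of_le h3 with h | h
    · rw [h, sub_self, div_zero, mul_zero, ex_zero, cutp_zero, max_eq_left hv1]
      ring
    have hd : 0 < 1 - s' := by linarith
    have e1 : (1 - (v : ℝ)) * (1 / (1 - s')) = (1 - v) / (1 - s') := by ring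
    rw [e1]
    rcases le_total (v : ℝ) s' with hvs | hvs
    · rw [max_eq_left hvs, ex_ge _ (by rw [one_le_div hd]; linarith), cutp_one]
      ring
    · rw [max_eq_right hvs, ex_cutp ⟨div_nonneg (by linarith) hd.le, by rw [div_le_one hd]; linarith⟩]
      have e2 : 1 + (1 - (v : ℝ)) / (1 - s') * (s' - 1) = v := by
        have : (1 - (v : ℝ)) / (1 - s') * (s' - 1) = -(1 - v) := by
          rw [show s' - 1 = -(1 - s') by ring, mul_neg, div_mul_cancel₀ _ hd.ne']
        rw [this]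
        ring
      rw [e2]
      ring
  rw [A, B, Cc, h0', sub_zero]
  rcases le_total (v : ℝ) s with hvs | hvs
  · rw [min_eq_left hvs, max_eq_left ((min_le_left _ _).trans hvs), max_eq_left (hvs.trans h2), sub_self, sub_self,
      add_zero, add_zero, ex_coe]
  rcases le_total (v : ℝ) s' with hvs' | hvs'
  · rw [min_eq_right hvs, min_eq_left hvs', max_eq_right hvs, max_eq_left hvs', sub_self, add_zero, ex_coe]
    ring
  · rw [min_eq_right hvs, min_eq_right hvs', max_eq_right h2, max_eq_right hvs', ex_coe]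
    ring

/-- **the fields `hrd` and `cut` of `TopD`** for the class `clsC t t' C` -/
theorem cut_of {t t' : Pie → ℝ} {C : Set Pie} {m : Measure Pie} {θ : ℝ}
    (h : ∀ᵐ r ∂m, r ∈ C → r.1 0 = 0 ∧ 0 < r.2 ∧ 0 ≤ t r ∧ t r ≤ t' r ∧ t' r ≤ 1 ∧ t r * r.2 ≤ θ ∧
      (1 - t' r) * r.2 ≤ θ) :
    (∀ᵐ r ∂m, r ∈ (clsC t t' C).C → rdC ((clsC t t' C).τ r) = r) ∧
    ∀ᵐ r ∂m, r ∈ (clsC t t' C).C → r.1 0 = 0 ∧ 0 ≤ r.2 ∧ ∃ s t0 : unitInterval, (s : ℝ) * r.2 ≤ θ ∧
      (1 - (t0 : ℝ)) * r.2 ≤ θ ∧ (∀ u v : unitInterval, (v : ℝ) = (1 - u) * s + u * t0 →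
        ((clsC t t' C).τ r).2.1 u = r.1 v - r.1 s) ∧ ((clsC t t' C).τ r).2.2 = ((t0 : ℝ) - s) * r.2 := by
  constructor
  · filter_upwards [h] with r hr hC
    obtain ⟨h0, h1, h2, h3, h4, -, -⟩ := hr hC
    exact rdC_tau h0 h1 h2 h3 h4
  · filter_upwards [h] with r hr hC
    obtain ⟨h0, h1, h2, h3, h4, h5, h6⟩ := hr hC
    refine ⟨h0, h1.le, ⟨t r, h2, h3.trans h4⟩, ⟨t' r, h2.trans h3, h4⟩, h5, h6, fun u v hv => ?_, ?_⟩
    · show cutp r.1 (t r) (t' r) u = _
      rw [cutp_apply]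
      have e : t r + u * (t' r - t r) = (v : ℝ) := by
        rw [hv]
        show _ = (1 - (u : ℝ)) * t r + u * t' r
        ring
      rw [e, ex_coe, ex_of r.1 (x := t r) ⟨h2, h3.trans h4⟩]
    · show r.2 * |t' r - t r| = (t' r - t r) * r.2
      rw [abs_of_nonneg (by linarith)]
      ring

end Pool.Agent.ROT.F3.CC
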