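import Pool.Agent.ROT.F3Comp
import Mathlib.Topology.MetricSpace.Pseudo.Constructions
import Mathlib.Topology.MetricSpace.Basic
import Mathlib.Topology.UniformSpace.HeineCantor

/-!
# F3, the companions of a simple curve (helper64)

`real_comp`: a simple curve `c : [0, 1] → ℝ × ℝ` (skew coordinates of the lattice of the cuts) which starts near `P`, ends near `Q`
and such that the past of every visit to the small box `b'` of `P` is on the east side of `P` and in the box `B'` (at `Q`: the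
future) has, for every integer `r` and all meshes `s ≤ s0`, two companions: lanes of square cells of mesh `s / 2` with prescribed
mouths, which keep the distance `r s` from the curve (`Cmp`).
-/

set_option autoImplicit false

namespace HexObs

namespace ROT

namespace F3L

open ARM (adj nr nr_iff nr_symm nr_trans nr_mono nr_self)
open ART ART.Lane Set

/-- the cell of a point, mesh s -/
noncomputable def cel (s : ℝ) (z : ℝ × ℝ) : ℤ × ℤ := (⌊z.1 / s⌋, ⌊z.2 / s⌋)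

lemma floor_sub_le {x y : ℝ} {d : ℤ} (h : x - y ≤ d) : ⌊x⌋ - ⌊y⌋ ≤ d := by
  have h1 : ⌊x⌋ ≤ ⌊y + d⌋ := Int.floor_le_floor (by linarith)
  rw [Int.floor_add_intCast] at h1
  omega

lemma cel_nr {s : ℝ} (hs : 0 < s) {z z' : ℝ × ℝ} {d : ℤ} (h : dist z z' ≤ d * s) : nr d (cel s z) (cel s z') := by
  rw [Prod.dist_eq, max_le_iff, Real.dist_eq, Real.dist_eq, abs_le, abs_le] at h
  obtain ⟨⟨h1, h2⟩, h3, h4⟩ := h
  rw [nr_iff]
  unfold cel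
  simp only
  have e : ∀ x y : ℝ, x - y ≤ d * s → x / s - y / s ≤ d := by
    intro x y hxy
    rw [← sub_div, div_le_iff₀ hs]
    exact hxy
  have k1 := floor_sub_le (e z.1 z'.1 h2)
  have k2 := floor_sub_le (e z'.1 z.1 (by linarith))
  have k3 := floor_sub_le (e z.2 z'.2 h4)
  have k4 := floor_sub_le (e z'.2 z.2 (by linarith))
  omega

lemma nr_cel {s : ℝ} (hs : 0 < s) {z z' : ℝ × ℝ} {d : ℤ} (h : nr d (cel s z) (cel s z')) : dist z z' ≤ (d + 1) * s := by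
  rw [nr_iff] at h
  unfold cel at h
  simp only at h
  have e : ∀ x y : ℝ, ⌊y / s⌋ - ⌊x / s⌋ ≤ d → y - x ≤ (d + 1) * s := by
    intro x y hxy
    have h1 := Int.lt_floor_add_one (y / s)
    have h2 := Int.floor_le (x / s)
    have h3 : ((⌊y / s⌋ - ⌊x / s⌋ : ℤ) : ℝ) ≤ d := by exact_mod_cast hxy
    push_cast at h3
    have h4 : y / s - x / s ≤ d + 1 := by linarith
    rw [← sub_div, div_le_iff₀ hs] at h4
    exact h4
  rw [Prod.dist_eq, max_le_iff, Real.dist_eq, Real.dist_eq, abs_le, abs_le]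
  refine ⟨⟨?_, ?_⟩, ?_, ?_⟩
  · have := e z.1 z'.1 (by omega)
    linarith
  · exact e z'.1 z.1 (by omega)
  · have := e z.2 z'.2 (by omega)
    linarith
  · exact e z'.2 z.2 (by omega)

/-- modulus of injectivity -/
lemma inj_mod {c : ℝ → ℝ × ℝ} (hc : ContinuousOn c (Icc 0 1)) (hi : InjOn c (Icc 0 1)) {ρ : ℝ} (hρ : 0 < ρ) :
    ∃ η > 0, ∀ s t, 0 ≤ s → s ≤ t → t ≤ 1 → dist (c s) (c t) ≤ η → ∀ u, s ≤ u → u ≤ t → dist (c s) (c u) ≤ ρ := by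
  have huc : UniformContinuousOn c (Icc 0 1) := isCompact_Icc.uniformContinuousOn_of_continuous hc
  rw [Metric.uniformContinuousOn_iff_le] at huc
  obtain ⟨δ, hδ, h1⟩ := huc ρ hρ
  obtain ⟨K, hK⟩ : ∃ K : Set (ℝ × ℝ), K = (Icc (0 : ℝ) 1 ×ˢ Icc (0 : ℝ) 1) ∩ {p | δ ≤ p.2 - p.1} := ⟨_, rfl⟩
  have hKc : IsCompact K := by
    rw [hK]
    refine (isCompact_Icc.prod isCompact_Icc).inter_right ?_
    exact isClosed_le continuous_const (continuous_snd.sub continuous_fst)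
  have hcont : ContinuousOn (fun p : ℝ × ℝ => dist (c p.1) (c p.2)) K := by
    refine continuous_dist.comp_continuousOn (ContinuousOn.prodMk (hc.comp continuousOn_fst ?_) (hc.comp continuousOn_snd ?_))
    · intro p hp
      rw [hK] at hp
      exact hp.1.1
    · intro p hp
      rw [hK] at hp
      exact hp.1.2
  obtain ⟨η, hη, h2⟩ : ∃ η > 0, ∀ p ∈ K, η < dist (c p.1) (c p.2) := by
    rcases K.eq_empty_or_nonempty with h | h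
    · exact ⟨1, one_pos, fun p hp => by rw [h] at hp; exact absurd hp (notMem_empty p)⟩
    · obtain ⟨p0, hp0, hmin⟩ := hKc.exists_isMinOn h hcont
      have hpos : 0 < dist (c p0.1) (c p0.2) := by
        rw [dist_pos]
        intro he
        rw [hK] at hp0
        have := hi hp0.1.1 hp0.1.2 he
        have h3 : δ ≤ p0.2 - p0.1 := hp0.2
        linarith
      refine ⟨dist (c p0.1) (c p0.2) / 2, by positivity, fun p hp => ?_⟩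
      have := hmin hp
      simp only [mem_ofPred_eq] at this
      linarith
  refine ⟨η, hη, ?_⟩
  intro s t hs hst ht hd u hsu hut
  have h3 : t - s < δ := by
    by_contra hcon
    push Not at hcon
    have hp : (s, t) ∈ K := by
      rw [hK]
      exact ⟨⟨⟨hs, by linarith⟩, ⟨by linarith, ht⟩⟩, hcon⟩
    have := h2 _ hp
    simp only at this
    linarith
  refine h1 s ⟨hs, by linarith⟩ u ⟨by linarith, by linarith⟩ ?_
  rw [Real.dist_eq, abs_le]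
  constructor <;> linarith

lemma Cmp.mono {P Q : ℤ × ℤ} {a b e a₁ b₁ e₁ T xN xS xN' xS' : ℤ} {F F' : ℤ × ℤ → Prop} {L M : List (ℤ × ℤ)}
    (h : Cmp P Q a b e a₁ b₁ e₁ T xN xS xN' xS' F L M) (hF : ∀ x, F x → F' x) :
    Cmp P Q a b e a₁ b₁ e₁ T xN xS xN' xS' F' L M :=
  ⟨h.chL, h.chM, h.ndL, h.ndM, h.dis, fun x hx => ⟨(h.box x hx).1, (h.box x hx).2.1, (h.box x hx).2.2.1, hF _ (h.box x hx).2.2.2⟩,
    h.nPL, h.nPM, h.nQL, h.nQM, h.L1, h.L2, h.M1, h.M2⟩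

/-- **the companions of a simple curve** -/
theorem real_comp {c : ℝ → ℝ × ℝ} (hc : ContinuousOn c (Icc 0 1)) (hi : InjOn c (Icc 0 1)) {P Q : ℝ × ℝ}
    {w e e' a b0 b b' B' B w₁ e₁ e₁' a₁ b0₁ b₁ b₁' B₁' B₁ : ℝ}
    (hw0 : 0 ≤ w) (he0 : 0 < e) (hee : e < e') (hwa : w < a) (hab : a + e < b) (hb0 : b0 < b)
    (hbb : b < b') (hbB : b < B) (hBB : B' < B)
    (hw0₁ : 0 ≤ w₁) (he0₁ : 0 < e₁) (hee₁ : e₁ < e₁') (hwa₁ : w₁ < a₁) (hab₁ : a₁ + e₁ < b₁) (hb0₁ : b0₁ < b₁)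
    (hbb₁ : b₁ < b₁') (hbB₁ : b₁ < B₁) (hBB₁ : B₁' < B₁)
    (h0 : dist P (c 0) ≤ b0) (h1 : dist Q (c 1) ≤ b0₁)
    (hP : ∀ s t, 0 ≤ s → s ≤ t → t ≤ 1 → dist P (c t) ≤ b' → dist P (c s) ≤ B' ∧ P.1 ≤ (c s).1)
    (hQ : ∀ s t, 0 ≤ s → s ≤ t → t ≤ 1 → dist Q (c s) ≤ b₁' → dist Q (c t) ≤ B₁' ∧ Q.1 ≤ (c t).1)
    (hsP : ∀ t, 0 ≤ t → t ≤ 1 → dist P (c t) ≤ b' → (c t).1 ≤ P.1 + e' → |(c t).2 - P.2| ≤ w)
    (hsQ : ∀ t, 0 ≤ t → t ≤ 1 → dist Q (c t) ≤ b₁' → (c t).1 ≤ Q.1 + e₁' → |(c t).2 - Q.2| ≤ w₁)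
    (hPQ : 4 * (B + B₁) < dist P Q) (r : ℕ) :
    ∃ s0 > 0, ∃ T : ℝ, ∀ s, 0 < s → s ≤ s0 → ∃ (T' : ℤ), (T' : ℝ) * s ≤ T ∧ ∀ xN xS xN' xS' : ℤ,
      (2 * ((cel s P).1 - ⌊a / s⌋ - ⌊e / s⌋) < xN ∧ xN ≤ 2 * ((cel s P).1 + ⌊e / s⌋)) →
      (2 * ((cel s P).1 - ⌊a / s⌋ - ⌊e / s⌋) < xS ∧ xS ≤ 2 * ((cel s P).1 + ⌊e / s⌋)) →
      (2 * ((cel s Q).1 - ⌊a₁ / s⌋ - ⌊e₁ / s⌋) < xN' ∧ xN' ≤ 2 * ((cel s Q).1 + ⌊e₁ / s⌋)) →
      (2 * ((cel s Q).1 - ⌊a₁ / s⌋ - ⌊e₁ / s⌋) < xS' ∧ xS' ≤ 2 * ((cel s Q).1 + ⌊e₁ / s⌋)) →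
      ∃ L M : List (ℤ × ℤ), Cmp (cel s P) (cel s Q) ⌊a / s⌋ ⌊b / s⌋ ⌊e / s⌋ ⌊a₁ / s⌋ ⌊b₁ / s⌋ ⌊e₁ / s⌋ T' xN xS xN' xS'
        (fun x => ∀ t, 0 ≤ t → t ≤ 1 → ¬ nr r (cel s (c t)) x) L M := by
  -- the bound of the curve
  obtain ⟨R0, hR0⟩ : ∃ R0 : ℝ, ∀ t, 0 ≤ t → t ≤ 1 → dist P (c t) ≤ R0 := by
    have hcont : ContinuousOn (fun t => dist P (c t)) (Icc 0 1) := continuous_dist.comp_continuousOn (ContinuousOn.prodMk continuousOn_const hc)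
    obtain ⟨t0, _, hmax⟩ := isCompact_Icc.exists_isMaxOn (⟨0, by simp⟩ : (Icc (0 : ℝ) 1).Nonempty) hcont
    exact ⟨dist P (c t0), fun t a1 a2 => hmax (show t ∈ Icc (0 : ℝ) 1 from ⟨a1, a2⟩)⟩
  have hR00 : 0 ≤ R0 := dist_nonneg.trans (hR0 0 le_rfl zero_le_one)
  -- the scale of the near touches
  obtain ⟨ρ, hρ, hρB, hρB₁, hρb, hρb₁⟩ : ∃ ρ : ℝ, 0 < ρ ∧ b + 2 * ρ < B ∧ b₁ + 2 * ρ < B₁ ∧ b + 2 * ρ < b' ∧
      b₁ + 2 * ρ < b₁' := by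
    obtain ⟨ρ, h1, h2, h3, h4, h5⟩ : ∃ ρ : ℝ, 0 < ρ ∧ ρ ≤ (B - b) / 4 ∧ ρ ≤ (B₁ - b₁) / 4 ∧ ρ ≤ (b' - b) / 4 ∧
        ρ ≤ (b₁' - b₁) / 4 := by
      refine ⟨min ((B - b) / 4) (min ((B₁ - b₁) / 4) (min ((b' - b) / 4) ((b₁' - b₁) / 4))), ?_, ?_⟩
      · simp only [lt_min_iff]
        refine ⟨?_, ?_, ?_, ?_⟩ <;> linarith
      · simp only [min_le_iff, le_refl, true_or, or_true, and_self]
    exact ⟨ρ, h1, by linarith, by linarith, by linarith, by linarith⟩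
  obtain ⟨η, hη, hmod⟩ := inj_mod hc hi (show 0 < ρ / 2 by positivity)
  -- the mesh
  obtain ⟨q, hq⟩ : ∃ q : ℝ, q = (r : ℝ) + 20 := ⟨_, rfl⟩
  have hr0 : (0 : ℝ) ≤ r := Nat.cast_nonneg r
  have hq0 : 0 < q := by rw [hq]; positivity
  obtain ⟨m, hm0, m1, m2, m3, m4, m5, m6, m7, m8, m9, m10, m11, n1, n2, n3, n5, n6, n7, n8, n9, n10⟩ : ∃ m : ℝ, 0 < m ∧
      m ≤ a - w ∧ m ≤ b - a - e ∧ m ≤ e ∧
      m ≤ ρ ∧ m ≤ B - b - 2 * ρ ∧ m ≤ b - b0 ∧ m ≤ b' - b ∧ m ≤ B - B' ∧ m ≤ b' - b - 2 * ρ ∧ m ≤ e' - e ∧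
      m ≤ dist P Q - 4 * (B + B₁) ∧ m ≤ a₁ - w₁ ∧ m ≤ b₁ - a₁ - e₁ ∧ m ≤ e₁ ∧ m ≤ B₁ - b₁ - 2 * ρ ∧ m ≤ b₁ - b0₁ ∧
      m ≤ b₁' - b₁ ∧ m ≤ B₁ - B₁' ∧ m ≤ b₁' - b₁ - 2 * ρ ∧ m ≤ e₁' - e₁ := by
    refine ⟨min (a - w) (min (b - a - e) (min e (min ρ (min (B - b - 2 * ρ) (min (b - b0) (min (b' - b) (min (B - B')
      (min (b' - b - 2 * ρ) (min (e' - e) (min (dist P Q - 4 * (B + B₁)) (min (a₁ - w₁) (min (b₁ - a₁ - e₁) (min e₁
      (min (B₁ - b₁ - 2 * ρ) (min (b₁ - b0₁) (min (b₁' - b₁) (min (B₁ - B₁') (min (b₁' - b₁ - 2 * ρ)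
      (e₁' - e₁))))))))))))))))))), ?_, ?_⟩
    · simp only [lt_min_iff]
      refine ⟨?_, ?_, ?_, ?_, ?_, ?_, ?_, ?_, ?_, ?_, ?_, ?_, ?_, ?_, ?_, ?_, ?_, ?_, ?_, ?_⟩ <;> linarith
    · simp only [min_le_iff, le_refl, true_or, or_true, and_self]
  obtain ⟨s0, hs0, hs1, hs2⟩ : ∃ s0 : ℝ, 0 < s0 ∧ 4 * q * s0 ≤ m ∧ 4 * q * s0 ≤ η := by
    refine ⟨min m η / (4 * q), by positivity, ?_, ?_⟩
    · rw [mul_div_cancel₀ _ (by positivity)]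
      exact min_le_left _ _
    · rw [mul_div_cancel₀ _ (by positivity)]
      exact min_le_right _ _
  refine ⟨s0, hs0, R0 + s0 + 6 * (B + B₁), ?_⟩
  intro s hs hss
  have hqs : 4 * q * s ≤ m := le_trans (mul_le_mul_of_nonneg_left hss (by positivity)) hs1
  have hqη : 4 * q * s ≤ η := le_trans (mul_le_mul_of_nonneg_left hss (by positivity)) hs2
  have hrs : 0 ≤ (r : ℝ) * s := by positivity
  have hqe : 4 * q * s = 4 * ((r : ℝ) * s) + 80 * s := by rw [hq]; ring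
  -- floors
  have fl : ∀ x : ℝ, (⌊x / s⌋ : ℝ) * s ≤ x ∧ x < (⌊x / s⌋ : ℝ) * s + s := by
    intro x
    have e1 : (⌊x / s⌋ : ℝ) * s ≤ x / s * s := mul_le_mul_of_nonneg_right (Int.floor_le _) hs.le
    have e2 : x / s * s < ((⌊x / s⌋ : ℝ) + 1) * s := mul_lt_mul_of_pos_right (Int.lt_floor_add_one _) hs
    rw [div_mul_cancel₀ _ hs.ne'] at e1 e2
    exact ⟨e1, by linarith⟩
  have lei : ∀ {x y : ℤ}, (x : ℝ) * s ≤ (y : ℝ) * s → x ≤ y := by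
    intro x y h
    exact_mod_cast (mul_le_mul_iff_left₀ hs).1 h
  have lti : ∀ {x y : ℤ}, (x : ℝ) * s < (y : ℝ) * s → x < y := by
    intro x y h
    exact_mod_cast (mul_lt_mul_iff_left₀ hs).1 h
  -- the partition
  obtain ⟨n, hn0, hnp⟩ : ∃ n : ℕ, 0 < n ∧ ∀ t t' : ℝ, 0 ≤ t → t ≤ 1 → 0 ≤ t' → t' ≤ 1 → |t - t'| ≤ 1 / (n : ℝ) →
      dist (c t) (c t') ≤ s := by
    have huc : UniformContinuousOn c (Icc 0 1) := isCompact_Icc.uniformContinuousOn_of_continuous hc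
    rw [Metric.uniformContinuousOn_iff_le] at huc
    obtain ⟨δ, hδ, h2⟩ := huc s hs
    obtain ⟨n, hn⟩ := exists_nat_gt (1 / δ)
    have hn0 : (0 : ℝ) < n := lt_trans (by positivity) hn
    refine ⟨n, by exact_mod_cast hn0, fun t t' a1 a2 a3 a4 a5 => h2 t ⟨a1, a2⟩ t' ⟨a3, a4⟩ ?_⟩
    rw [Real.dist_eq]
    refine a5.trans ?_
    rw [div_le_iff₀ hn0]
    rw [div_lt_iff₀ hδ] at hn
    linarith
  have hn0' : (0 : ℝ) < n := by exact_mod_cast hn0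
  have tI : ∀ i : ℕ, i ≤ n → 0 ≤ (i : ℝ) / n ∧ (i : ℝ) / n ≤ 1 := by
    intro i hi
    have : (i : ℝ) ≤ n := by exact_mod_cast hi
    exact ⟨by positivity, (div_le_one hn0').2 this⟩
  have tM : ∀ i j : ℕ, i ≤ j → (i : ℝ) / n ≤ (j : ℝ) / n := by
    intro i j h
    have : (i : ℝ) ≤ j := by exact_mod_cast h
    exact div_le_div_of_nonneg_right this hn0'.le
  obtain ⟨γ, hγ⟩ : ∃ γ : ℕ → ℤ × ℤ, γ = fun i : ℕ => cel s (c ((i : ℝ) / n)) := ⟨_, rfl⟩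
  have hγ' : ∀ i, γ i = cel s (c ((i : ℝ) / n)) := fun i => by rw [hγ]
  have fρ := fl ρ
  have fR := fl R0
  have fB := fl B
  have fB₁ := fl B₁
  have basic : ∀ w e a b : ℝ, 0 ≤ w → w < a → m ≤ a - w → m ≤ b - a - e → m ≤ e → 0 ≤ ⌊w / s⌋ ∧ 0 ≤ ⌊a / s⌋ ∧ 1 ≤ ⌊e / s⌋ ∧
      ⌊w / s⌋ + 1 + ((r : ℤ) + 1) ≤ ⌊a / s⌋ ∧ ⌊a / s⌋ + ⌊e / s⌋ + 1 ≤ ⌊b / s⌋ := by
    intro w e a b hw0 hwa m1 m2 m3
    have fa := fl a
    have fb := fl b
    have fe := fl e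
    have fw := fl w
    refine ⟨Int.floor_nonneg.2 (by positivity), Int.floor_nonneg.2 (div_nonneg (by linarith) hs.le), ?_,
      lei (by push_cast; linarith), lei (by push_cast; linarith)⟩
    have : (0 : ℤ) < ⌊e / s⌋ := lti (by push_cast; linarith)
    omega
  obtain ⟨hw', ha', he', hwa', hab'⟩ := basic w e a b hw0 hwa m1 m2 m3
  obtain ⟨hw₁', ha₁', he₁', hwa₁', hab₁'⟩ := basic w₁ e₁ a₁ b₁ hw0₁ hwa₁ n1 n2 n3
  have fb := fl b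
  have fb₁ := fl b₁
  have hside : ∀ (P : ℝ × ℝ) (w e e' b b' : ℝ), m ≤ b' - b - 2 * ρ → m ≤ e' - e → (∀ t, 0 ≤ t → t ≤ 1 → dist P (c t) ≤ b' →
      P.1 ≤ (c t).1) → (∀ t, 0 ≤ t → t ≤ 1 → dist P (c t) ≤ b' → (c t).1 ≤ P.1 + e' → |(c t).2 - P.2| ≤ w) →
      ∀ i, i ≤ n → nr (⌊b / s⌋ + ⌊ρ / s⌋ + 1 + ⌊ρ / s⌋) (cel s P) (γ i) →
      (cel s P).1 ≤ (γ i).1 ∧ ((γ i).1 ≤ (cel s P).1 + ⌊e / s⌋ + ((r : ℤ) + 1) → |(γ i).2 - (cel s P).2| ≤ ⌊w / s⌋ + 1) := by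
    intro P w e e' b b' m9 m10 hs0' hs' i hi h
    have fb := fl b
    have fe := fl e
    have fw := fl w
    rw [hγ'] at h ⊢
    obtain ⟨t1, t2⟩ := tI i hi
    generalize (i : ℝ) / n = t at h t1 t2 ⊢
    have h2 := nr_cel hs h
    push_cast at h2
    have h3 := hs0' t t1 t2 (by linarith)
    have h4 := hs' t t1 t2 (by linarith)
    refine ⟨Int.floor_le_floor (div_le_div_of_nonneg_right h3 hs.le), ?_⟩
    intro h5
    unfold cel at h5 ⊢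
    simp only at h5 ⊢
    have h6 := fl (c t).1
    have h7 := fl P.1
    have h8 : ((⌊(c t).1 / s⌋ : ℤ) : ℝ) ≤ ((⌊P.1 / s⌋ + ⌊e / s⌋ + ((r : ℤ) + 1) : ℤ) : ℝ) := by exact_mod_cast h5
    push_cast at h8
    have h9 := mul_le_mul_of_nonneg_right h8 hs.le
    have h10 := h4 (by linarith)
    rw [abs_le] at h10 ⊢
    have e1 : ∀ x y : ℝ, x - y ≤ w → x / s - y / s ≤ ((⌊w / s⌋ + 1 : ℤ) : ℝ) := by
      intro x y hxy
      rw [← sub_div, div_le_iff₀ hs]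
      push_cast
      linarith
    have k1 := floor_sub_le (e1 (c t).2 P.2 h10.2)
    have k2 := floor_sub_le (e1 P.2 (c t).2 (by linarith [h10.1]))
    omega
  refine ⟨⌊R0 / s⌋ + 1 + 6 * (⌊B / s⌋ + ⌊B₁ / s⌋), by push_cast; linarith, ?_⟩
  intro xN xS xN' xS' hxN hxS hxN' hxS'
  obtain ⟨L, M, hLM⟩ := companions (n := n) (γ := γ) (P := cel s P) (Q := cel s Q) (r := (r : ℤ) + 1) (w := ⌊w / s⌋ + 1)
    (e := ⌊e / s⌋) (a := ⌊a / s⌋) (b := ⌊b / s⌋) (h := ⌊b / s⌋ + ⌊ρ / s⌋ + 1) (B := ⌊B / s⌋) (w₁ := ⌊w₁ / s⌋ + 1)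
    (e₁ := ⌊e₁ / s⌋) (a₁ := ⌊a₁ / s⌋) (b₁ := ⌊b₁ / s⌋) (h₁ := ⌊b₁ / s⌋ + ⌊ρ / s⌋ + 1) (B₁ := ⌊B₁ / s⌋) (ρ := ⌊ρ / s⌋)
    (R := ⌊R0 / s⌋ + 1) (by omega) ha' he' hwa' hab' (by omega) (lei (by push_cast; linarith))
    ha₁' he₁' hwa₁' hab₁' (by omega) (lei (by push_cast; linarith)) (lei (by push_cast; linarith))
    (by
      intro i hi
      rw [hγ', hγ']
      obtain ⟨t1, t2⟩ := tI i hi.le
      obtain ⟨t3, t4⟩ := tI (i + 1) hi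
      refine cel_nr hs ?_
      rw [Int.cast_one, one_mul]
      refine hnp _ _ t1 t2 t3 t4 ?_
      rw [← sub_div, abs_div, Nat.cast_add, Nat.cast_one, sub_add_cancel_left, abs_neg, abs_one, abs_of_pos hn0'])
    (by
      rw [hγ', Nat.cast_zero, zero_div]
      exact cel_nr hs (by linarith))
    (by
      rw [hγ', div_self hn0'.ne']
      exact cel_nr hs (by linarith))
    (by
      intro i j hij hj h
      rw [hγ'] at h
      have h2 := nr_cel hs h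
      push_cast at h2
      obtain ⟨h3, h4⟩ := hP _ _ (tI i (by omega)).1 (tM i j hij) (tI j hj).2 (by linarith)
      rw [hγ']
      exact ⟨cel_nr hs (h3.trans (by linarith)), Int.floor_le_floor (div_le_div_of_nonneg_right h4 hs.le)⟩)
    (by
      intro i j hij hj h
      rw [hγ'] at h
      have h2 := nr_cel hs h
      push_cast at h2
      obtain ⟨h3, h4⟩ := hQ _ _ (tI i (by omega)).1 (tM i j hij) (tI j hj).2 (by linarith)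
      rw [hγ']
      exact ⟨cel_nr hs (h3.trans (by linarith)), Int.floor_le_floor (div_le_div_of_nonneg_right h4 hs.le)⟩)
    (by
      intro i j hij hj h k hik hkj
      rw [hγ', hγ'] at h ⊢
      have h2 := nr_cel hs h
      push_cast at h2
      exact cel_nr hs ((hmod _ _ (tI i (by omega)).1 (tM i j hij) (tI j hj).2 (by linarith) _ (tM i k hik) (tM k j hkj)).trans
        (by linarith)))
    (hside P w e e' b b' m9 m10 (fun t t0 t1 h => (hP t t t0 le_rfl t1 h).2) hsP)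
    (hside Q w₁ e₁ e₁' b₁ b₁' n9 n10 (fun t t0 t1 h => (hQ t t t0 le_rfl t1 h).2) hsQ)
    (by
      intro h
      have h2 := nr_cel hs h
      push_cast at h2
      linarith)
    (by
      intro i hi
      rw [hγ']
      refine cel_nr hs ((hR0 _ (tI i hi).1 (tI i hi).2).trans ?_)
      push_cast
      linarith)
    (by omega) (by omega) hxN hxS hxN' hxS'
  refine ⟨L, M, hLM.mono ?_⟩
  intro x hx t t1 t2 hn
  obtain ⟨j, hj1, hj2⟩ : ∃ j : ℕ, j ≤ n ∧ |(j : ℝ) / n - t| ≤ 1 / n := by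
    refine ⟨⌊t * n⌋₊, ?_, ?_⟩
    · have : t * n ≤ n := by nlinarith
      exact Nat.floor_le_of_le this
    · have k1 := Nat.floor_le (show 0 ≤ t * n by positivity)
      have k2 := Nat.lt_floor_add_one (t * n)
      have e1 : ((⌊t * n⌋₊ : ℕ) : ℝ) / n - t = (((⌊t * n⌋₊ : ℕ) : ℝ) - t * n) / n := by
        field_simp
      rw [e1, abs_div, abs_of_pos hn0']
      refine div_le_div_of_nonneg_right ?_ hn0'.le
      rw [abs_le]
      constructor <;> linarith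
  have h2 := hnp _ _ (tI j hj1).1 (tI j hj1).2 t1 t2 hj2
  have h3 : nr 1 (γ j) (cel s (c t)) := by
    rw [hγ']
    refine cel_nr hs ?_
    rw [Int.cast_one, one_mul]
    exact h2
  exact hx j hj1 (nr_mono (by omega) (nr_trans h3 hn))

end F3L

end ROT

end HexObs
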