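import Pool.Agent.MC.Slow
import Pool.Agent.RMP.PubDefs

/-!
# ROT / F3S2Lit (helper85): domination of pieces of walks by pieces of shorter walks with confined tips, literals (row W4)

`Eu n F` = the mean of `F` over the words of the walks with `n` letters; `win d k` = the numbers of letters in `[k, (1 + d) k]`.

* `TpR R k1 t` : the vertices of `t` from the number `k1` on are within `R` of the vertex number `k1`;
* `HdR R a t` : the vertices of `t` up to the number `a` are within `R` of the vertex number `a`;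
* `S2tip` : the first `k1` letters of a walk of exactly `n` letters against the first `k1` letters of walks of `k1 + s` letters,
  `θ n ≤ s ≤ dt n`, with a confined end; critical weights of the lengths, no other average;
* `S2mid` : the letters number `i, ..., i + l - 1` of a walk of exactly `N` letters against the letters number `a, ..., a + l - 1`
  of walks of `a + l + b` letters with both ends confined, `a` of the parity of `i`. The constants depend on
  `ε, κ, δ, dt` only.
-/

set_option autoImplicit false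

namespace Pool.Agent.ROT.F3

open HexObs HexObs.MCP HexObs.TIW

open scoped Classical

/-- the end behind the vertex number `k1` is confined -/
def TpR (R : ℝ) (k1 : ℕ) (t : List Bool) : Prop :=
  ∀ i, k1 ≤ i → i ≤ t.length → (hn (vx oo up t i - vx oo up t k1) : ℝ) ≤ R

/-- the beginning up to the vertex number `a` is confined -/
def HdR (R : ℝ) (a : ℕ) (t : List Bool) : Prop :=
  ∀ i, i ≤ a → (hn (vx oo up t i - vx oo up t a) : ℝ) ≤ R

/-- the indicator of both, for the piece of `l` letters which begins at the letter number `a` -/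
noncomputable def cnf (R : ℝ) (a l : ℕ) (t : List Bool) : ℝ := if HdR R a t ∧ TpR R (a + l) t then 1 else 0

/-- the mean over the words with a number of letters in the window, critical weights -/
noncomputable def wE (d : ℝ) (k : ℕ) (F : List Bool → ℝ) : ℝ :=
  (∑ m ∈ Pool.Agent.RMP.win d k, xc ^ m * ∑ t ∈ sawF m, F t) / ∑ m ∈ Pool.Agent.RMP.win d k, xc ^ m * (cS m : ℝ)

/-- one side: the beginning of a long walk against the beginning of shorter walks with a confined end -/
def S2tip : Prop := ∀ ε κ δ dt : ℝ, 0 < ε → 0 < κ → 0 < δ → 0 < dt → ∃ (d θ C : ℝ) (n0 : ℕ), 0 < d ∧ 0 < θ ∧ 0 ≤ C ∧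
  d + 3 * θ ≤ dt ∧ ∀ n k1 k : ℕ, n0 ≤ n → δ * n ≤ k1 → (k1 : ℝ) + θ * n ≤ k → (k : ℝ) ≤ k1 + 2 * θ * n + 2 →
    (k : ℝ) ≤ (1 - δ) * n → ∀ g : List Bool → ℝ, (∀ t, 0 ≤ g t) → (∀ t, g t ≤ 1) →
      Eu n (fun t => g (t.take k1)) ≤
        C * wE d k (fun t => g (t.take k1) * (if TpR (κ * (n : ℝ) ^ (3 / 4 : ℝ)) k1 t then 1 else 0)) + ε

/-- two sides: a piece in the middle of a long walk against the same piece in the middle of shorter walks with confined ends -/
def S2mid : Prop := ∀ ε κ δ dt : ℝ, 0 < ε → 0 < κ → 0 < δ → 0 < dt → ∃ (θ C : ℝ) (n0 : ℕ), 0 < θ ∧ 0 ≤ C ∧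
  ∀ n N i l : ℕ, n0 ≤ n → N ≤ n → δ * n ≤ i → (i : ℝ) + l + δ * n ≤ N →
    ∀ (g : List Bool → ℝ) (η : ℝ), (∀ t, 0 ≤ g t) → (∀ t, g t ≤ 1) → 0 ≤ η →
      (∀ a b : ℕ, θ * n ≤ a → (a : ℝ) ≤ dt * n → θ * n ≤ b → (b : ℝ) ≤ dt * n → a % 2 = i % 2 →
        Eu (a + l + b) (fun t => g ((t.drop a).take l) * cnf (κ * (n : ℝ) ^ (3 / 4 : ℝ)) a l t) ≤ η) →
        Eu N (fun t => g ((t.drop i).take l)) ≤ C * η + ε

end Pool.Agent.ROT.F3
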