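import Pool.Agent.MC.Slow
import Pool.Agent.IW.Rev
import Pool.Agent.SLW.AReg
import Pool.Agent.ROT.F3S2Lit

/-!
# ROT / F3S2B (helper85): the beginning of a walk hardly sees a small change of the number of steps (row W4)

* `rv_vx` : the vertices of the reversed word; `Eu_rvw` : the mean does not see the reversal;
* `far_end` : the end is far from the vertex number `k1`;
* `slow_even` : an even change of the number of steps; `one_letter` : one letter;
* **`slow_one`** : `Eu n (g (t.take k1)) ≤ C Eu i (g (t.take k1)) + ε` for all `i` near `n`.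
-/

set_option autoImplicit false

open Finset
open scoped Classical

namespace Pool.Agent.ROT.F3

namespace S2

open HexObs HexObs.TS HexObs.SDN HexObs.TIW HexObs.MCP

open HexObs.TOG (Pn)

open NTF (JJ)

open Pool.Agent.IW (rvw rvw_app rvw_mem rvw_rvw split_last Pn_rvw)

/-! ### means -/

lemma Eu_mono' {n : ℕ} {F G : List Bool → ℝ} (h : ∀ t ∈ sawF n, F t ≤ G t) : Eu n F ≤ Eu n G :=
  div_le_div_of_nonneg_right (sum_le_sum h) (Nat.cast_nonneg _)

lemma Eu_add (n : ℕ) (F G : List Bool → ℝ) : Eu n (fun t => F t + G t) = Eu n F + Eu n G := by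
  unfold Eu
  rw [sum_add_distrib, add_div]

lemma Eu_mul (n : ℕ) (c : ℝ) (F : List Bool → ℝ) : Eu n (fun t => c * F t) = c * Eu n F := by
  unfold Eu
  rw [← mul_sum, mul_div_assoc]

lemma Eu_nonneg {n : ℕ} {F : List Bool → ℝ} (h : ∀ t, 0 ≤ F t) : 0 ≤ Eu n F :=
  div_nonneg (sum_nonneg fun _ _ => h _) (Nat.cast_nonneg _)

lemma len_of {n : ℕ} {t : List Bool} (h : t ∈ sawF n) : t.length = n := (mem_sawF.1 h).1

/-! ### reversal -/

lemma rv_vx {n : ℕ} (hn : 0 < n) {t : List Bool} (ht : t.length = n) : ∃ e : Pt, nrm e = 1 ∧ ∀ j, j ≤ n →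
    vx oo up t (n - j) = en t + mulE e (vx oo up (rvw t) j) := by
  obtain ⟨s, b, rfl, hs⟩ := split_last hn ht
  have hd : -(dx up s s.length) ∈ dirs := neg_mem_dirs (dx_mem up_dirs s s.length)
  obtain ⟨-, he⟩ := frame_dir hd
  refine ⟨rotTo up (-(dx up s s.length)), nrm_rotTo upd' hd, fun j hj => ?_⟩
  have hen : en (s ++ [b]) = tip oo up s := by
    unfold en tip
    rw [show (s ++ [b]).length = s.length + 1 by simp]
    exact vx_append le_rfl
  rw [rvw_app, vx_append (by omega), vx_append (by rw [rev_length]; omega), hen, ← hs,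
    ← vx_rev oo up s j (by omega), ← vx_frameN, ← he]

lemma Eu_rvw {n : ℕ} (hn : 0 < n) (F : List Bool → ℝ) : Eu n (fun t => F (rvw t)) = Eu n F := by
  unfold Eu
  congr 1
  refine sum_bij' (fun t _ => rvw t) (fun t _ => rvw t) ?_ ?_ ?_ ?_ ?_
  · intro t ht
    exact mem_sawF.2 (rvw_mem hn (mem_sawF.1 ht))
  · intro t ht
    exact mem_sawF.2 (rvw_mem hn (mem_sawF.1 ht))
  · intro t ht
    exact rvw_rvw hn (len_of ht)
  · intro t ht
    exact rvw_rvw hn (len_of ht)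
  · intro t _
    rfl

/-! ### the end is far from the vertex number `k1` -/

lemma far_end {δ e : ℝ} (hδ : 0 < δ) (he : 0 < e) : ∃ c : ℝ, 0 < c ∧ ∃ n0 : ℕ, ∀ n k1 : ℕ, n0 ≤ n →
    (k1 : ℝ) ≤ (1 - δ) * n → Pn n {t | (hn (en t - vx oo up t k1) : ℝ) ≤ c * (n : ℝ) ^ (3 / 4 : ℝ)} ≤ e := by
  obtain ⟨c, hc, n0, h⟩ := TIP.NQ.ps hδ he
  refine ⟨c, hc, n0 + 1, fun n k1 hn' hk => ?_⟩
  have hn0 : 0 < n := by omega
  have hnr : (0 : ℝ) ≤ n := Nat.cast_nonneg n
  have hk1 : k1 ≤ n := by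
    have : (k1 : ℝ) ≤ n := hk.trans (by nlinarith)
    exact_mod_cast this
  calc Pn n {t | (hn (en t - vx oo up t k1) : ℝ) ≤ c * (n : ℝ) ^ (3 / 4 : ℝ)} ≤
        Pn n {t | rvw t ∈ {t | ∃ j : ℕ, δ * n ≤ j ∧ j ≤ n ∧ ‖JJ (vx oo up t j)‖ ≤ c * (n : ℝ) ^ (3 / 4 : ℝ)}} :=
        TIP.Nf.Pn_mono fun t ht h2 => ?_
    _ = _ := Pn_rvw hn0 _
    _ ≤ e := h n (by omega)
  obtain ⟨e', he', hv⟩ := rv_vx hn0 ht.1
  refine ⟨n - k1, ?_, Nat.sub_le _ _, ?_⟩
  · rw [Nat.cast_sub hk1]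
    linarith
  · refine (JJ_le_hn _).trans ?_
    have h3 := hv (n - k1) (Nat.sub_le _ _)
    rw [Nat.sub_sub_self hk1] at h3
    have h4 : en t - vx oo up t k1 = -(mulE e' (vx oo up (rvw t) (n - k1))) := by
      rw [h3]
      abel
    have h5 : hn (en t - vx oo up t k1) = hn (vx oo up (rvw t) (n - k1)) := by rw [h4, hn_neg, hn_mulE he']
    have h6 : (hn (en t - vx oo up t k1) : ℝ) ≤ c * (n : ℝ) ^ (3 / 4 : ℝ) := h2
    rwa [h5] at h6

/-! ### the cut-off -/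

/-- the cut-off of a small displacement -/
noncomputable def ps0 (R x : ℝ) : ℝ := max 0 (min 1 (x / R - 1))

lemma ps0_nonneg (R x : ℝ) : 0 ≤ ps0 R x := le_max_left _ _

lemma ps0_le_one (R x : ℝ) : ps0 R x ≤ 1 := max_le zero_le_one (min_le_left _ _)

lemma ps0_zero {R x : ℝ} (hR : 0 < R) (h : x ≤ R) : ps0 R x = 0 := by
  unfold ps0
  refine max_eq_left ((min_le_right _ _).trans ?_)
  rw [sub_nonpos, div_le_one hR]
  exact h

lemma ps0_one {R x : ℝ} (hR : 0 < R) (h : 2 * R ≤ x) : ps0 R x = 1 := by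
  unfold ps0
  have h1 : 1 ≤ x / R - 1 := by
    rw [le_sub_iff_add_le, le_div_iff₀ hR]
    linarith
  rw [min_eq_left h1, max_eq_right zero_le_one]

lemma ps0_lip {R : ℝ} (hR : 0 < R) (x y : ℝ) : |ps0 R x - ps0 R y| ≤ |x - y| / R := by
  unfold ps0
  refine (abs_max_sub_max_le_max _ _ _ _).trans ?_
  rw [sub_self, abs_zero, max_eq_right (abs_nonneg _)]
  refine (abs_min_sub_min_le_max _ _ _ _).trans ?_
  rw [sub_self, abs_zero, max_eq_right (abs_nonneg _), sub_sub_sub_cancel_right, ← sub_div, abs_div, abs_of_pos hR]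

/-- the functional: the first `k1` letters, with the cut-off of the displacement behind -/
noncomputable def Fk (g : List Bool → ℝ) (k1 : ℕ) (R : ℝ) (t : List Bool) : ℝ :=
  if k1 ≤ t.length then g (t.take k1) * ps0 R (hn (en t - vx oo up t k1) : ℝ) else 0

lemma Fk_abs {g : List Bool → ℝ} (g0 : ∀ t, 0 ≤ g t) (g1 : ∀ t, g t ≤ 1) (k1 : ℕ) (R : ℝ) (t : List Bool) :
    |Fk g k1 R t| ≤ 1 := by
  unfold Fk
  split_ifs
  · rw [abs_of_nonneg (mul_nonneg (g0 _) (ps0_nonneg _ _))]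
    exact mul_le_one₀ (g1 _) (ps0_nonneg _ _) (ps0_le_one _ _)
  · rw [abs_zero]
    exact zero_le_one

lemma Fk_rob {g : List Bool → ℝ} (g0 : ∀ t, 0 ≤ g t) (g1 : ∀ t, g t ≤ 1) {k1 : ℕ} {R τ : ℝ} {r : ℕ} (hR0 : 0 < R)
    (hτ : 0 ≤ τ) (hR : 2 * (r : ℝ) ≤ R) (hr : (r : ℝ) ≤ τ * R) {A Y : List Bool}
    (hY : ∀ i, i ≤ Y.length → hn (vx oo up Y i) < r) : |Fk g k1 R (A ++ Y) - Fk g k1 R A| ≤ τ := by
  have hrt := nrm_rt A
  have henY : (hn (en Y) : ℝ) < r := by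
    have := hY Y.length le_rfl
    exact_mod_cast this
  rcases le_or_gt k1 A.length with h | h
  · have h1 : k1 ≤ (A ++ Y).length := by
      rw [List.length_append]
      omega
    unfold Fk
    rw [if_pos h1, if_pos h, List.take_append_of_le_length h, vx_append (by omega), ← mul_sub, abs_mul,
      abs_of_nonneg (g0 _)]
    have h2 : |((hn (en (A ++ Y) - vx oo up A k1) : ℤ) : ℝ) - ((hn (en A - vx oo up A k1) : ℤ) : ℝ)| ≤ r := by
      have e1 : en (A ++ Y) - vx oo up A k1 = (en A - vx oo up A k1) + mulE (rt A) (en Y) := by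
        rw [en_app]
        abel
      have e2 : en A - vx oo up A k1 = (en (A ++ Y) - vx oo up A k1) - mulE (rt A) (en Y) := by
        rw [en_app]
        abel
      have a1 := hn_add (en A - vx oo up A k1) (mulE (rt A) (en Y))
      have a2 := hn_sub (en (A ++ Y) - vx oo up A k1) (mulE (rt A) (en Y))
      rw [← e1, hn_mulE hrt] at a1
      rw [← e2, hn_mulE hrt] at a2
      have b1 : ((hn (en (A ++ Y) - vx oo up A k1) : ℤ) : ℝ) ≤ (hn (en A - vx oo up A k1) : ℤ) + (hn (en Y) : ℤ) := by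
        exact_mod_cast a1
      have b2 : ((hn (en A - vx oo up A k1) : ℤ) : ℝ) ≤ (hn (en (A ++ Y) - vx oo up A k1) : ℤ) + (hn (en Y) : ℤ) := by
        exact_mod_cast a2
      rw [abs_le]
      constructor <;> linarith
    have h3 := ps0_lip hR0 ((hn (en (A ++ Y) - vx oo up A k1) : ℤ) : ℝ) ((hn (en A - vx oo up A k1) : ℤ) : ℝ)
    have h4 : |ps0 R ((hn (en (A ++ Y) - vx oo up A k1) : ℤ) : ℝ) - ps0 R ((hn (en A - vx oo up A k1) : ℤ) : ℝ)| ≤ τ := by
      refine h3.trans ?_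
      rw [div_le_iff₀ hR0]
      linarith
    calc g (A.take k1) * |ps0 R ((hn (en (A ++ Y) - vx oo up A k1) : ℤ) : ℝ) -
          ps0 R ((hn (en A - vx oo up A k1) : ℤ) : ℝ)| ≤ 1 * τ := mul_le_mul (g1 _) h4 (abs_nonneg _) zero_le_one
      _ = τ := one_mul _
  · have hA : Fk g k1 R A = 0 := by
      unfold Fk
      rw [if_neg (by omega)]
    rw [hA, sub_zero]
    unfold Fk
    split_ifs with h1
    · rw [List.length_append] at h1
      obtain ⟨j, hj⟩ : ∃ j, k1 = A.length + j := ⟨k1 - A.length, by omega⟩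
      have hj1 : j ≤ Y.length := by omega
      have e1 : en (A ++ Y) - vx oo up (A ++ Y) k1 = mulE (rt A) (en Y - vx oo up Y j) := by
        rw [en_app, hj, vx_app, mulE_sub]
        abel
      have e2 : (hn (en (A ++ Y) - vx oo up (A ++ Y) k1) : ℝ) ≤ R := by
        rw [e1, hn_mulE hrt]
        have a1 := hn_sub (en Y) (vx oo up Y j)
        have a2 : ((hn (en Y - vx oo up Y j) : ℤ) : ℝ) ≤ (hn (en Y) : ℤ) + (hn (vx oo up Y j) : ℤ) := by exact_mod_cast a1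
        have a3 : ((hn (vx oo up Y j) : ℤ) : ℝ) < r := by
          have := hY j hj1
          exact_mod_cast this
        linarith
      rw [ps0_zero hR0 e2, mul_zero, abs_zero]
      exact hτ
    · rw [abs_zero]
      exact hτ

lemma Fk_le {g : List Bool → ℝ} (g0 : ∀ t, 0 ≤ g t) (n k1 : ℕ) (R : ℝ) :
    Eu n (Fk g k1 R) ≤ Eu n (fun t => g (t.take k1)) := by
  refine Eu_mono' fun t _ => ?_
  unfold Fk
  split_ifs
  · calc g (t.take k1) * ps0 R (hn (en t - vx oo up t k1) : ℝ) ≤ g (t.take k1) * 1 :=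
          mul_le_mul_of_nonneg_left (ps0_le_one _ _) (g0 _)
      _ = g (t.take k1) := mul_one _
  · exact g0 _

lemma le_Fk {g : List Bool → ℝ} (g0 : ∀ t, 0 ≤ g t) (g1 : ∀ t, g t ≤ 1) {n k1 : ℕ} (hk : k1 ≤ n) {R : ℝ} (hR : 0 < R) :
    Eu n (fun t => g (t.take k1)) ≤ Eu n (Fk g k1 R) + Pn n {t | (hn (en t - vx oo up t k1) : ℝ) ≤ 2 * R} := by
  rw [Pn_Eu, ← Eu_add]
  refine Eu_mono' fun t ht => ?_
  have hl := len_of ht
  unfold Fk
  rw [if_pos (by omega)]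
  by_cases h : (hn (en t - vx oo up t k1) : ℝ) ≤ 2 * R
  · rw [TIP.ind_pos (show t ∈ {t | (hn (en t - vx oo up t k1) : ℝ) ≤ 2 * R} from h)]
    have := mul_nonneg (g0 (t.take k1)) (ps0_nonneg R (hn (en t - vx oo up t k1) : ℝ))
    linarith [g1 (t.take k1)]
  · rw [ps0_one hR (not_le.1 h).le, mul_one]
    linarith [TIP.ind_nonneg (t ∈ {t | (hn (en t - vx oo up t k1) : ℝ) ≤ 2 * R})]

/-- **an even change of the number of steps** -/
lemma slow_even {ε δ : ℝ} (hε : 0 < ε) (hδ : 0 < δ) : ∃ q n0 : ℕ, ∀ n h k1 : ℕ, n0 ≤ n → Even h → h * 2 ^ q ≤ n →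
    (k1 : ℝ) ≤ (1 - δ) * n → ∀ g : List Bool → ℝ, (∀ t, 0 ≤ g t) → (∀ t, g t ≤ 1) →
      |Eu (n + h) (fun t => g (t.take k1)) - Eu n (fun t => g (t.take k1))| ≤ ε := by
  obtain ⟨τ, hτ, hS⟩ := SLW.slowF (ε / 8) (by positivity)
  obtain ⟨c, hc, n1, hfar⟩ := far_end hδ (show 0 < ε / 8 by positivity)
  obtain ⟨a, A, ha, hA, hpow⟩ := TIP.NQ.scale_pow
  obtain ⟨w, hw⟩ : ∃ w : ℝ, w = min τ (1 / 2) := ⟨_, rfl⟩
  have hw0 : 0 < w := by rw [hw]; exact lt_min hτ (by norm_num)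
  have hwτ : w ≤ τ := by rw [hw]; exact min_le_left _ _
  have hw2 : w ≤ 1 / 2 := by rw [hw]; exact min_le_right _ _
  obtain ⟨c1, hc1⟩ := pow_unbounded_of_one_lt (1 / (w * (c / 2 * a))) (one_lt_two)
  obtain ⟨c2, k0, hS⟩ := hS c1
  obtain ⟨n2, hex⟩ := TIP.NQ.ex_scale (max k0 c1)
  refine ⟨c2, max (max n1 n2) 1, fun n h k1 hn' hh hq hk g g0 g1 => ?_⟩
  have p1 : n1 ≤ n := ((le_max_left _ _).trans (le_max_left _ _)).trans hn'
  have p2 : n2 ≤ n := ((le_max_right _ _).trans (le_max_left _ _)).trans hn'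
  have p3 : 1 ≤ n := (le_max_right _ _).trans hn'
  obtain ⟨k, hk0, hs1, hs2⟩ := hex n p2
  have hk0' : k0 ≤ k := (le_max_left _ _).trans hk0
  have hc1k : c1 ≤ k := (le_max_right _ _).trans hk0
  have hN : TIP.Sc k n := ⟨hs1, hs2⟩
  have hn0 : (0 : ℝ) < n := by exact_mod_cast p3
  have hkn : k1 ≤ n := by
    have : (k1 : ℝ) ≤ n := hk.trans (by nlinarith)
    exact_mod_cast this
  obtain ⟨R, hR⟩ : ∃ R : ℝ, R = c / 2 * (n : ℝ) ^ (3 / 4 : ℝ) := ⟨_, rfl⟩
  have hR0 : 0 < R := by rw [hR]; positivity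
  have hrR : ((2 ^ (k - c1) : ℕ) : ℝ) ≤ w * R := by
    have h1 := (hpow k n hs1 hs2).1
    have h2 : (2 : ℝ) ^ (k - c1) * 2 ^ c1 = 2 ^ k := by
      rw [← pow_add, Nat.sub_add_cancel hc1k]
    have h3 : 1 < w * (c / 2 * a) * 2 ^ c1 := by
      rw [div_lt_iff₀ (by positivity)] at hc1
      linarith
    have h4 : (0 : ℝ) < 2 ^ (k - c1) := by positivity
    push_cast
    calc (2 : ℝ) ^ (k - c1) ≤ w * (c / 2 * a) * 2 ^ c1 * 2 ^ (k - c1) := by nlinarith
      _ = w * (c / 2 * (a * 2 ^ k)) := by rw [← h2]; ring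
      _ ≤ w * (c / 2 * (n : ℝ) ^ (3 / 4 : ℝ)) := by gcongr
      _ = w * R := by rw [hR]
  have hrR2 : 2 * ((2 ^ (k - c1) : ℕ) : ℝ) ≤ R := by nlinarith
  have hrR3 : ((2 ^ (k - c1) : ℕ) : ℝ) ≤ τ * R := hrR.trans (mul_le_mul_of_nonneg_right hwτ hR0.le)
  have hone := hS k n h hk0' hN hh hq (fun _ => 1) (fun _ => by rw [abs_one])
    (fun A Y _ _ => by rw [sub_self, abs_zero]; exact hτ.le)
  have hF := hS k n h hk0' hN hh hq (Fk g k1 R) (Fk_abs g0 g1 k1 R) (fun A Y _ hY => by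
    refine Fk_rob g0 g1 hR0 hτ.le hrR2 hrR3 fun i hi => ?_
    have := hY i hi
    push_cast
    exact this)
  have key := slow_E (Fk_abs g0 g1 k1 R) hF hone
  have f1 : Pn n {t | (hn (en t - vx oo up t k1) : ℝ) ≤ 2 * R} ≤ ε / 8 := by
    refine le_trans (TIP.Nf.Pn_mono fun t _ h2 => ?_) (hfar n k1 p1 hk)
    have h3 : (hn (en t - vx oo up t k1) : ℝ) ≤ 2 * R := h2
    show (hn (en t - vx oo up t k1) : ℝ) ≤ c * (n : ℝ) ^ (3 / 4 : ℝ)
    rw [hR] at h3
    linarith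
  have hnh : (n : ℝ) ≤ ((n + h : ℕ) : ℝ) := by
    push_cast
    linarith [(Nat.cast_nonneg h : (0 : ℝ) ≤ h)]
  have f2 : Pn (n + h) {t | (hn (en t - vx oo up t k1) : ℝ) ≤ 2 * R} ≤ ε / 8 := by
    have hkh : (k1 : ℝ) ≤ (1 - δ) * ((n + h : ℕ) : ℝ) := by
      rcases le_or_gt δ 1 with h1 | h1
      · exact hk.trans (mul_le_mul_of_nonneg_left hnh (by linarith))
      · exfalso
        have : (0 : ℝ) ≤ k1 := Nat.cast_nonneg k1
        nlinarith
    refine le_trans (TIP.Nf.Pn_mono fun t _ h2 => ?_) (hfar (n + h) k1 (by omega) hkh)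
    have h3 : (hn (en t - vx oo up t k1) : ℝ) ≤ 2 * R := h2
    show (hn (en t - vx oo up t k1) : ℝ) ≤ c * ((n + h : ℕ) : ℝ) ^ (3 / 4 : ℝ)
    have h4 : (n : ℝ) ^ (3 / 4 : ℝ) ≤ ((n + h : ℕ) : ℝ) ^ (3 / 4 : ℝ) := Real.rpow_le_rpow hn0.le hnh (by norm_num)
    calc (hn (en t - vx oo up t k1) : ℝ) ≤ 2 * R := h3
      _ = c * (n : ℝ) ^ (3 / 4 : ℝ) := by rw [hR]; ring
      _ ≤ _ := mul_le_mul_of_nonneg_left h4 hc.le
  have a1 := Fk_le g0 n k1 R
  have a2 := Fk_le g0 (n + h) k1 R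
  have a3 := le_Fk g0 g1 hkn hR0
  have a4 := le_Fk g0 g1 (hkn.trans (Nat.le_add_right n h)) hR0
  have a5 := abs_le.1 key
  rw [abs_le]
  constructor
  · linarith [a5.1]
  · linarith [a5.2]

/-! ### one letter -/

/-- one letter more: at most two continuations -/
lemma one_letter : ∃ C : ℝ, 1 ≤ C ∧ ∀ (m : ℕ) (f : List Bool → ℝ), (∀ t, 0 ≤ f t) →
    (∀ t ∈ sawF m, ∀ b : Bool, f (t ++ [b]) ≤ f t) → Eu (m + 1) f ≤ C * Eu m f := by
  obtain ⟨C0, hC0, hA, -⟩ := SLW.aReg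
  have hx := xc_pos
  refine ⟨max 1 (2 * (C0 * xc)), le_max_left _ _, fun m f f0 hf => ?_⟩
  have c1 := cS0 (m + 1)
  have c2 := cS0 m
  have hsub : sawF (m + 1) ⊆ (sawF m ×ˢ (univ : Finset Bool)).image fun p => p.1 ++ [p.2] := by
    intro t ht
    have ht' := mem_sawF.1 ht
    have hne : t ≠ [] := by
      rintro rfl
      have := ht'.1
      simp only [List.length_nil] at this
      omega
    refine mem_image.2 ⟨(t.dropLast, t.getLast hne), mem_product.2 ⟨?_, mem_univ _⟩, List.dropLast_append_getLast hne⟩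
    rw [mem_sawF]
    have hl : t.dropLast.length = m := by rw [List.length_dropLast, ht'.1]; omega
    refine ⟨hl, ⟨fun _ _ _ => Set.mem_univ _, fun i k hik hk => ?_⟩⟩
    have h1 := ht'.2.inj i k hik (by rw [ht'.1]; rw [hl] at hk; omega)
    have e : t.dropLast ++ [t.getLast hne] = t := List.dropLast_append_getLast hne
    rw [← e] at h1
    have hk' : k ≤ t.dropLast.length := hk
    rw [vx_append (t := t.dropLast) (by omega), vx_append (t := t.dropLast) (by omega)] at h1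
    exact h1
  have hinj : Function.Injective fun p : List Bool × Bool => p.1 ++ [p.2] := by
    rintro ⟨a, b⟩ ⟨c, d⟩ h
    have h' : a ++ [b] = c ++ [d] := h
    obtain ⟨h1, h2⟩ := List.append_inj' h' rfl
    rw [h1]
    simpa using h2
  have h1 : ∑ t ∈ sawF (m + 1), f t ≤ 2 * ∑ t ∈ sawF m, f t := by
    calc ∑ t ∈ sawF (m + 1), f t ≤ ∑ t ∈ (sawF m ×ˢ (univ : Finset Bool)).image fun p => p.1 ++ [p.2], f t :=
          sum_le_sum_of_subset_of_nonneg hsub fun _ _ _ => f0 _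
      _ = ∑ p ∈ sawF m ×ˢ (univ : Finset Bool), f (p.1 ++ [p.2]) := sum_image fun a _ b _ h => hinj h
      _ = ∑ t ∈ sawF m, ∑ b : Bool, f (t ++ [b]) := sum_product _ _ _
      _ ≤ ∑ t ∈ sawF m, 2 * f t := by
          refine sum_le_sum fun t ht => ?_
          rw [Fintype.sum_bool]
          linarith [hf t ht true, hf t ht false]
      _ = _ := (mul_sum _ _ _).symm
  have h2 : (cS m : ℝ) ≤ C0 * xc * cS (m + 1) := by
    have h3 := hA m (m + 1) (Nat.le_succ m)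
    rw [pow_succ] at h3
    have h4 : 0 < xc ^ m := by positivity
    have h5 : (cS m : ℝ) * xc ^ m ≤ C0 * xc * cS (m + 1) * xc ^ m := by linarith
    exact le_of_mul_le_mul_right h5 h4
  have f1 : 0 ≤ ∑ t ∈ sawF m, f t := sum_nonneg fun _ _ => f0 _
  unfold Eu
  rw [div_le_iff₀ c1]
  calc ∑ t ∈ sawF (m + 1), f t ≤ 2 * ∑ t ∈ sawF m, f t := h1
    _ = 2 * ((∑ t ∈ sawF m, f t) / cS m) * cS m := by field_simp
    _ ≤ 2 * ((∑ t ∈ sawF m, f t) / cS m) * (C0 * xc * cS (m + 1)) :=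
        mul_le_mul_of_nonneg_left h2 (by positivity)
    _ = 2 * (C0 * xc) * ((∑ t ∈ sawF m, f t) / cS m) * cS (m + 1) := by ring
    _ ≤ max 1 (2 * (C0 * xc)) * ((∑ t ∈ sawF m, f t) / cS m) * cS (m + 1) := by
        have : 0 ≤ (∑ t ∈ sawF m, f t) / cS m := by positivity
        have h3 := le_max_right 1 (2 * (C0 * xc))
        gcongr

/-- the same parity -/
lemma slow_same {ε δ : ℝ} (hε : 0 < ε) (hδ : 0 < δ) (hδ1 : δ ≤ 1) : ∃ (d : ℝ) (n0 : ℕ), 0 < d ∧ ∀ n i k1 : ℕ, n0 ≤ n →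
    (1 - d) * n ≤ i → (i : ℝ) ≤ (1 + d) * n → i % 2 = n % 2 → (k1 : ℝ) ≤ (1 - δ) * n →
    ∀ g : List Bool → ℝ, (∀ t, 0 ≤ g t) → (∀ t, g t ≤ 1) →
      Eu n (fun t => g (t.take k1)) ≤ Eu i (fun t => g (t.take k1)) + ε := by
  obtain ⟨q, n1, h⟩ := slow_even hε (show 0 < δ / 2 by positivity)
  obtain ⟨d, hd⟩ : ∃ d : ℝ, d = min (min (1 / 2) (δ / 2)) (1 / (2 * 2 ^ q)) := ⟨_, rfl⟩
  have hd0 : 0 < d := by rw [hd]; positivity
  have hd1 : d ≤ 1 / 2 := by rw [hd]; exact (min_le_left _ _).trans (min_le_left _ _)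
  have hd2 : d ≤ δ / 2 := by rw [hd]; exact (min_le_left _ _).trans (min_le_right _ _)
  have hd3 : d * 2 ^ q ≤ 1 / 2 := by
    have : d ≤ 1 / (2 * 2 ^ q) := by rw [hd]; exact min_le_right _ _
    calc d * 2 ^ q ≤ 1 / (2 * 2 ^ q) * 2 ^ q := mul_le_mul_of_nonneg_right this (by positivity)
      _ = 1 / 2 := by field_simp
  refine ⟨d, 2 * n1, hd0, fun n i k1 hn' hi1 hi2 hp hk g g0 g1 => ?_⟩
  have hn0 : (0 : ℝ) ≤ n := Nat.cast_nonneg n
  have hn1 : ((2 * n1 : ℕ) : ℝ) ≤ n := by exact_mod_cast hn'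
  push_cast at hn1
  rcases le_total i n with hin | hin
  · obtain ⟨m, rfl⟩ := Nat.exists_eq_add_of_le hin
    have hi0 : n1 ≤ i := by
      have : (n1 : ℝ) ≤ i := by nlinarith
      exact_mod_cast this
    have hm : m * 2 ^ q ≤ i := by
      have h1 : (m : ℝ) ≤ d * ((i + m : ℕ) : ℝ) := by
        push_cast at hi1 ⊢
        linarith
      have h2 : (m : ℝ) * 2 ^ q ≤ d * ((i + m : ℕ) : ℝ) * 2 ^ q := mul_le_mul_of_nonneg_right h1 (by positivity)
      have h3 : d * ((i + m : ℕ) : ℝ) * 2 ^ q ≤ 1 / 2 * ((i + m : ℕ) : ℝ) := by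
        rw [mul_right_comm]
        exact mul_le_mul_of_nonneg_right hd3 hn0
      have h4 : 1 / 2 * ((i + m : ℕ) : ℝ) ≤ i := by nlinarith
      have h5 : ((m * 2 ^ q : ℕ) : ℝ) ≤ i := by
        push_cast
        linarith
      exact_mod_cast h5
    have hki : (k1 : ℝ) ≤ (1 - δ / 2) * i := by
      have h2 : (1 - δ / 2) * ((1 - d) * ((i + m : ℕ) : ℝ)) ≤ (1 - δ / 2) * i :=
        mul_le_mul_of_nonneg_left hi1 (by linarith)
      have h3 : (1 - δ) * ((i + m : ℕ) : ℝ) ≤ (1 - δ / 2) * ((1 - d) * ((i + m : ℕ) : ℝ)) := by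
        rw [← mul_assoc]
        refine mul_le_mul_of_nonneg_right ?_ hn0
        nlinarith
      linarith
    have := abs_le.1 (h i m k1 hi0 (by rw [Nat.even_iff]; omega) hm hki g g0 g1)
    linarith [this.2]
  · obtain ⟨m, rfl⟩ := Nat.exists_eq_add_of_le hin
    have hm : m * 2 ^ q ≤ n := by
      have h1 : (m : ℝ) ≤ d * n := by
        push_cast at hi2
        linarith
      have h2 : (m : ℝ) * 2 ^ q ≤ d * n * 2 ^ q := mul_le_mul_of_nonneg_right h1 (by positivity)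
      have h3 : d * n * 2 ^ q ≤ 1 / 2 * n := by
        rw [mul_right_comm]
        exact mul_le_mul_of_nonneg_right hd3 hn0
      have h5 : ((m * 2 ^ q : ℕ) : ℝ) ≤ n := by
        push_cast
        linarith
      exact_mod_cast h5
    have hkn : (k1 : ℝ) ≤ (1 - δ / 2) * n := hk.trans (mul_le_mul_of_nonneg_right (by linarith) hn0)
    have := abs_le.1 (h n m k1 (by omega) (by rw [Nat.even_iff]; omega) hm hkn g g0 g1)
    linarith [this.1]

/-- **all numbers of steps near `n`** -/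
theorem slow_one : ∃ C : ℝ, 1 ≤ C ∧ ∀ ε δ : ℝ, 0 < ε → 0 < δ → ∃ (d : ℝ) (n0 : ℕ), 0 < d ∧ ∀ n i k1 : ℕ, n0 ≤ n →
    (1 - d) * n ≤ i → (i : ℝ) ≤ (1 + d) * n → (k1 : ℝ) ≤ (1 - δ) * n →
    ∀ g : List Bool → ℝ, (∀ t, 0 ≤ g t) → (∀ t, g t ≤ 1) →
      Eu n (fun t => g (t.take k1)) ≤ C * Eu i (fun t => g (t.take k1)) + ε := by
  obtain ⟨C, hC, hO⟩ := one_letter
  refine ⟨C, hC, fun ε δ hε hδ => ?_⟩
  have hC0 : 0 < C := by linarith
  obtain ⟨d, n1, hd, h⟩ := slow_same (δ := min (δ / 2) 1) (show 0 < ε / C by positivity) (by positivity)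
    (min_le_right _ _)
  have hδ2 : min (δ / 2) 1 ≤ δ / 2 := min_le_left _ _
  obtain ⟨n2, hn2⟩ := exists_nat_ge (4 / min d δ)
  refine ⟨d / 2, max (n1 + 1) (n2 + 2), by positivity, fun n i k1 hn' hi1 hi2 hk g g0 g1 => ?_⟩
  have p1 : n1 + 1 ≤ n := (le_max_left _ _).trans hn'
  have p2 : n2 + 2 ≤ n := (le_max_right _ _).trans hn'
  have hn0 : (0 : ℝ) < n := by exact_mod_cast (by omega : 0 < n)
  have hE : 0 ≤ Eu i (fun t => g (t.take k1)) := Eu_nonneg fun _ => g0 _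
  have hεC : ε / C ≤ ε := div_le_self hε.le hC
  have hm0 : 0 < min d δ := lt_min hd hδ
  have hbig : 4 ≤ min d δ * n := by
    have h1 : (4 / min d δ : ℝ) ≤ n := hn2.trans (by exact_mod_cast (by omega : n2 ≤ n))
    rw [div_le_iff₀ hm0] at h1
    linarith
  have hbd : 4 ≤ d * n := hbig.trans (mul_le_mul_of_nonneg_right (min_le_left _ _) hn0.le)
  have hbδ : 4 ≤ δ * n := hbig.trans (mul_le_mul_of_nonneg_right (min_le_right _ _) hn0.le)
  by_cases hp : i % 2 = n % 2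
  · have h1 := h n i k1 (by omega) (by nlinarith) (by nlinarith) hp
      (hk.trans (mul_le_mul_of_nonneg_right (by linarith) hn0.le)) g g0 g1
    have h2 : Eu i (fun t => g (t.take k1)) ≤ C * Eu i (fun t => g (t.take k1)) := le_mul_of_one_le_left hE hC
    linarith
  · obtain ⟨m, rfl⟩ : ∃ m, n = m + 1 := ⟨n - 1, by omega⟩
    push_cast at hi1 hi2 hk hbd hbδ hn0
    have hk1m : k1 ≤ m := by
      have : (k1 : ℝ) ≤ m := by nlinarith
      exact_mod_cast this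
    have h1 := hO m (fun t => g (t.take k1)) (fun _ => g0 _) (fun t ht b => by
      show g ((t ++ [b]).take k1) ≤ g (t.take k1)
      rw [List.take_append_of_le_length (by rw [len_of ht]; exact hk1m)])
    have hm0' : (0 : ℝ) ≤ m := Nat.cast_nonneg m
    have h3 : (k1 : ℝ) ≤ (1 - δ / 2) * m := by nlinarith
    have h2 := h m i k1 (by omega) (by nlinarith) (by nlinarith) (by omega)
      (h3.trans (mul_le_mul_of_nonneg_right (by linarith) hm0')) g g0 g1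
    calc Eu (m + 1) (fun t => g (t.take k1)) ≤ C * Eu m (fun t => g (t.take k1)) := h1
      _ ≤ C * (Eu i (fun t => g (t.take k1)) + ε / C) := mul_le_mul_of_nonneg_left h2 hC0.le
      _ = C * Eu i (fun t => g (t.take k1)) + ε := by field_simp

end S2

end Pool.Agent.ROT.F3
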