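import Pool.Agent.ROT.F3C0J
import Pool.Agent.ROT.F3C0G
import Pool.Agent.ROT.F3SAE

/-!
# ROT, F3 (B), rows C0At, S_a (helper83, literals of helper86): the native marks in the limit

* `crv_rng` : a point of the curve is near a vertex of the range; `NatW.vright`, `NatW.vball` : the vertices of the marked words;
* `NatD` : the native marks of a marked curve, closed form with an error `δ`; `natD_closed`, `NatW.natD` : the marked words;
* `NatL` : the native marks of a marked curve; **`nat_lim`** : the limit law of the marked words lives on `NatL`;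
* **`tub_of`** : the statistic of helper88 gives a tube of the closed curve; `TubI.le` : the marks are in the tube.
-/

set_option autoImplicit false

open MeasureTheory Filter Topology Set unitInterval
open scoped ENNReal NNReal Classical BoundedContinuousFunction

namespace Pool.Agent.ROT.F3

open Pool.Agent.ROT.F3.C0K (XM tt)
open Pool.Agent.ROT.F3.CK (muG muG_mem)

/-! ### 1. Words -/

/-- a point of the curve in the range of the vertices `lo .. hi` is near one of them -/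
lemma crv_rng (w : W3) (n : ℕ) {d : ℝ} (hd : 0 < d) {lo hi : ℕ} {s : I} (h : lo ≤ hi) (h1 : (lo : ℝ) ≤ s * n)
    (h2 : (s : ℝ) * n ≤ hi) : ∃ k : ℕ, lo ≤ k ∧ k ≤ hi ∧ ‖crv w n d s - ps w k / d‖ ≤ 1 / d := by
  obtain ⟨i, j, -, -, hij, k1, k2, k3, k4⟩ := crv_near w n hd s
  have a1 : lo ≤ j := by
    have : (lo : ℝ) ≤ j := h1.trans k2
    exact_mod_cast this
  have a2 : i ≤ hi := by
    have : (i : ℝ) ≤ hi := k1.trans h2
    exact_mod_cast this
  rcases Nat.lt_or_ge i lo with h3 | h3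
  · exact ⟨j, a1, by omega, k4⟩
  · exact ⟨i, h3, a2, k3⟩

lemma pji_vv {t : ℝ} (h0 : 0 ≤ t) (h1 : t ≤ 1) : ((pji t : I) : ℝ) = t := by
  unfold pji
  rw [projIcc_of_mem zero_le_one ⟨h0, h1⟩]

lemma pji_self (v : I) : pji (v : ℝ) = v := pji_coe v

section word

variable {a : Fin 3} {E : Tp} {O : Ot} {S T g d Kd x : ℝ} {w : W3} {m : ℕ} {y : W3 × (W3 × W3)} {k : ℕ}

/-- the vertices of the block -/
lemma NatW.psb (h : NatW a E O S T g d Kd x w m y k) (hm : m ≤ w.length) {j : ℕ} (hj : j ≤ y.2.1.length) :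
    ps w (y.1.length + j) = en y.1 + ps y.2.1 j := by
  have h1 := h.lt
  rw [← ps_take w (by omega : y.1.length + j ≤ m) hm, h.e, ps_append_right h.e1, ps_append_left hj]

lemma NatW.psx (h : NatW a E O S T g d Kd x w m y k) (hm : m ≤ w.length) : ps w y.1.length = en y.1 := by
  have := h.psb hm (Nat.zero_le _)
  rwa [add_zero, ps_zero, add_zero] at this

lemma NatW.psy (h : NatW a E O S T g d Kd x w m y k) (hm : m ≤ w.length) :
    ps w (y.1.length + y.2.1.length) = en y.1 + en y.2.1 := h.psb hm le_rfl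

/-- the block is to the right of its start -/
lemma NatW.vright (h : NatW a E O S T g d Kd x w m y k) (hm : m ≤ w.length) {j : ℕ} (h1 : y.1.length ≤ j)
    (h2 : j ≤ y.1.length + y.2.1.length) : lv (ev a) (en y.1) ≤ lv (ev a) (ps w j) := by
  obtain ⟨i, rfl⟩ : ∃ i, j = y.1.length + i := ⟨j - y.1.length, by omega⟩
  rw [h.psb hm (by omega), lv_add]
  rcases Nat.eq_zero_or_pos i with rfl | hi
  · rw [ps_zero, lv_zero, add_zero]
  · have := h.b.k.right i hi (by omega)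
    linarith

/-- the ball of the marks -/
lemma NatW.vball (h : NatW a E O S T g d Kd x w m y k) (hm : m ≤ w.length) {j : ℕ} (h2 : j ≤ y.1.length + y.2.1.length) :
    ‖ps w j‖ ≤ E.l * S + E.m * S + O.m * S + 78 * d := by
  obtain ⟨s, s1, s2, s3, -⟩ := h.arm
  obtain ⟨τ, t0, t1⟩ := s3.near j (h2.trans s1)
  have h3 := norm_near (ev_norm a) t0 t1
  have h4 := s3.back j _ h2 s1
  rw [h.psy hm, lv_add] at h4
  have h5 := h.lvx.2
  have h6 := h.ly.2
  linarith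

end word

/-! ### 2. The closed form -/

/-- **the native marks of a marked curve** `y = (g; tx, ty)`, closed form with the error `δ`; `dd` = scale of the arms -/
structure NatD (e : ℂ) (E : Tp) (O : Ot) (dd C L0 δ : ℝ) (y : XM) : Prop where
  t0 : 0 ≤ y.2.1
  t01 : y.2.1 ≤ y.2.2
  t1 : y.2.2 ≤ 1
  tm : y.2.2 * y.1.1 ≤ y.1.2.1
  mL : y.1.2.1 ≤ y.1.1
  lo : L0 ≤ y.1.1
  z : y.1.2.2 0 = 0
  lx0 : E.l + E.m ≤ lv e (y.1.2.2 (pji y.2.1))
  lx1 : lv e (y.1.2.2 (pji y.2.1)) ≤ E.l + E.m + 16 * dd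
  ly0 : O.m ≤ lv e (y.1.2.2 (pji y.2.2)) - lv e (y.1.2.2 (pji y.2.1))
  ly1 : lv e (y.1.2.2 (pji y.2.2)) - lv e (y.1.2.2 (pji y.2.1)) ≤ O.m + 8 * dd
  nx : ‖y.1.2.2 (pji y.2.1)‖ ≤ lv e (y.1.2.2 (pji y.2.1)) + 16 * dd
  dur : y.2.2 * y.1.1 ≤ C
  right : ∀ r : I, lv e (y.1.2.2 (pji y.2.1)) ≤ lv e (y.1.2.2 (pji (y.2.1 + r * (y.2.2 - y.2.1)))) + δ
  ball : ∀ r : I, ‖y.1.2.2 (pji (r * y.2.2))‖ ≤ E.l + E.m + O.m + 78 * dd + δ
  far : ∀ r : I, O.m ≤ ‖y.1.2.2 (pji (y.2.2 + r * (y.1.2.1 / max y.1.1 L0 - y.2.2))) - y.1.2.2 (pji y.2.1)‖ + δ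

theorem natD_closed (e : ℂ) (E : Tp) (O : Ot) {dd C L0 δ : ℝ} (hL0 : 0 < L0) : IsClosed {y : XM | NatD e E O dd C L0 δ y} := by
  have cG : ∀ φ : XM → ℝ, Continuous φ → Continuous fun y : XM => y.1.2.2 (pji (φ y)) := fun φ hφ =>
    (show Continuous fun y : XM => y.1.2.2 by fun_prop).eval (pji_cont.comp hφ)
  have c1 : Continuous fun y : XM => y.2.1 := by fun_prop
  have c2 : Continuous fun y : XM => y.2.2 := by fun_prop
  have c3 : Continuous fun y : XM => y.1.1 := by fun_prop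
  have c4 : Continuous fun y : XM => y.1.2.1 := by fun_prop
  have gx := cG _ c1
  have gy := cG _ c2
  have lx := (lv_cont' e).comp gx
  have ly := (lv_cont' e).comp gy
  have c5 : Continuous fun y : XM => y.1.2.1 / max y.1.1 L0 :=
    c4.div (c3.max continuous_const) fun y => (lt_of_lt_of_le hL0 (le_max_right _ _)).ne'
  have eq : {y : XM | NatD e E O dd C L0 δ y} =
      ((({y | 0 ≤ y.2.1} ∩ {y | y.2.1 ≤ y.2.2}) ∩ ({y | y.2.2 ≤ 1} ∩ {y | y.2.2 * y.1.1 ≤ y.1.2.1})) ∩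
        (({y | y.1.2.1 ≤ y.1.1} ∩ {y | L0 ≤ y.1.1}) ∩ ({y | y.1.2.2 0 = 0} ∩ {y | E.l + E.m ≤ lv e (y.1.2.2 (pji y.2.1))}))) ∩
      ((({y | lv e (y.1.2.2 (pji y.2.1)) ≤ E.l + E.m + 16 * dd} ∩
          {y | O.m ≤ lv e (y.1.2.2 (pji y.2.2)) - lv e (y.1.2.2 (pji y.2.1))}) ∩
        ({y | lv e (y.1.2.2 (pji y.2.2)) - lv e (y.1.2.2 (pji y.2.1)) ≤ O.m + 8 * dd} ∩
          {y | ‖y.1.2.2 (pji y.2.1)‖ ≤ lv e (y.1.2.2 (pji y.2.1)) + 16 * dd})) ∩
        (({y | y.2.2 * y.1.1 ≤ C} ∩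
          (⋂ r : I, {y | lv e (y.1.2.2 (pji y.2.1)) ≤ lv e (y.1.2.2 (pji (y.2.1 + r * (y.2.2 - y.2.1)))) + δ})) ∩
        ((⋂ r : I, {y | ‖y.1.2.2 (pji (r * y.2.2))‖ ≤ E.l + E.m + O.m + 78 * dd + δ}) ∩
          (⋂ r : I, {y | O.m ≤ ‖y.1.2.2 (pji (y.2.2 + r * (y.1.2.1 / max y.1.1 L0 - y.2.2))) - y.1.2.2 (pji y.2.1)‖ + δ})))) := by
    ext y
    simp only [mem_inter_iff, mem_iInter, mem_ofPred_eq]
    constructor
    · intro h
      exact ⟨⟨⟨⟨h.t0, h.t01⟩, h.t1, h.tm⟩, ⟨h.mL, h.lo⟩, h.z, h.lx0⟩, ⟨⟨h.lx1, h.ly0⟩, h.ly1, h.nx⟩, ⟨h.dur, h.right⟩, h.ball, h.far⟩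
    · rintro ⟨⟨⟨⟨h1, h2⟩, h3, h4⟩, ⟨h5, h6⟩, h7, h8⟩, ⟨⟨h9, h10⟩, h11, h12⟩, ⟨h13, h14⟩, h15, h16⟩
      exact ⟨h1, h2, h3, h4, h5, h6, h7, h8, h9, h10, h11, h12, h13, h14, h15, h16⟩
  rw [eq]
  refine ((((?_ : IsClosed _).inter ?_).inter (IsClosed.inter ?_ ?_)).inter ((IsClosed.inter ?_ ?_).inter (IsClosed.inter ?_ ?_))).inter
    (((IsClosed.inter ?_ ?_).inter (IsClosed.inter ?_ ?_)).inter ((IsClosed.inter ?_ ?_).inter (IsClosed.inter ?_ ?_)))
  · exact isClosed_le continuous_const c1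
  · exact isClosed_le c1 c2
  · exact isClosed_le c2 continuous_const
  · exact isClosed_le (c2.mul c3) c4
  · exact isClosed_le c4 c3
  · exact isClosed_le continuous_const c3
  · exact isClosed_eq ((continuous_eval_const (0 : I)).comp (by fun_prop)) continuous_const
  · exact isClosed_le continuous_const lx
  · exact isClosed_le lx continuous_const
  · exact isClosed_le continuous_const (ly.sub lx)
  · exact isClosed_le (ly.sub lx) continuous_const
  · exact isClosed_le gx.norm (lx.add continuous_const)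
  · exact isClosed_le (c2.mul c3) continuous_const
  · exact isClosed_iInter fun r => isClosed_le lx (((lv_cont' e).comp (cG _ (c1.add (continuous_const.mul (c2.sub c1))))).add
      continuous_const)
  · exact isClosed_iInter fun r => isClosed_le (cG _ (continuous_const.mul c2)).norm continuous_const
  · exact isClosed_iInter fun r => isClosed_le continuous_const
      (((cG _ (c2.add (continuous_const.mul (c5.sub c2)))).sub gx).norm.add continuous_const)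

/-- **the marked words** -/
theorem NatW.natD {a : Fin 3} {E : Tp} {O : Ot} {T g d1 ρ K Ac L0 δ : ℝ} {N : ℕ} {w : W3} {m : ℕ} {y : W3 × (W3 × W3)} {k : ℕ}
    (hN : 1 ≤ N) (hρ : 0 < ρ) (h : NatW a E O N T g (d1 * (ρ * N)) (K * (d1 * (ρ * N))) (Ac * (ρ * N) ^ (4 / 3 : ℝ)) w m y k)
    (hm : m < w.length) (hlo : L0 * (N : ℝ) ^ (4 / 3 : ℝ) ≤ w.length) (hδ : 1 / (N : ℝ) ≤ δ) :
    NatD (ev a) E O (d1 * ρ) (Ac * ρ ^ (4 / 3 : ℝ)) L0 δ (cN N (w, m), tt y w) := by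
  have hNp : (0 : ℝ) < N := by exact_mod_cast hN
  have hN4 : (0 : ℝ) < (N : ℝ) ^ (4 / 3 : ℝ) := Real.rpow_pos_of_pos hNp _
  have hL : 1 ≤ w.length := by omega
  have hLp : (0 : ℝ) < w.length := by exact_mod_cast hL
  have hlt := h.lt
  have tv : ∀ j : ℕ, j ≤ w.length → ((pji ((j : ℝ) / w.length) : I) : ℝ) * w.length = j := fun j hj => by
    rw [pji_vv (by positivity) ((div_le_one hLp).2 (by exact_mod_cast hj)), div_mul_cancel₀ _ hLp.ne']
  have gv : ∀ j : ℕ, j ≤ w.length → crv w w.length N (pji ((j : ℝ) / w.length)) = ps w j / ((N : ℝ) : ℂ) := fun j hj =>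
    crv_vertex hL hj (tv j hj)
  have gx : crv w w.length N (pji ((y.1.length : ℝ) / w.length)) = en y.1 / ((N : ℝ) : ℂ) := by rw [gv _ (by omega), h.psx hm.le]
  have gy : crv w w.length N (pji (((y.1.length + y.2.1.length : ℕ) : ℝ) / w.length)) = (en y.1 + en y.2.1) / ((N : ℝ) : ℂ) := by
    rw [gv _ (by omega), h.psy hm.le]
  have dv : ∀ z : ℂ, lv (ev a) (z / ((N : ℝ) : ℂ)) = lv (ev a) z / N := fun z => lv_div (ev a) z N
  have nv : ∀ z : ℂ, ‖z / ((N : ℝ) : ℂ)‖ = ‖z‖ / N := fun z => norm_div_S z hNp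
  have hpl : (y.1.length : ℝ) / w.length ≤ ((y.1.length + y.2.1.length : ℕ) : ℝ) / w.length := by
    gcongr
    exact Nat.le_add_right _ _
  have hpy : ((y.1.length + y.2.1.length : ℕ) : ℝ) / w.length ≤ 1 := (div_le_one hLp).2 (by exact_mod_cast (by omega))
  have hlx := h.lvx
  have hly := h.ly
  have hnx := h.nx
  have eL : (w.length : ℝ) / (N : ℝ) ^ (4 / 3 : ℝ) ≥ L0 := by
    rw [ge_iff_le, le_div_iff₀ hN4]
    exact hlo
  have emax : (m : ℝ) / (N : ℝ) ^ (4 / 3 : ℝ) / max ((w.length : ℝ) / (N : ℝ) ^ (4 / 3 : ℝ)) L0 = (m : ℝ) / w.length := by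
    rw [max_eq_left eL]
    field_simp
  have tdur : ((y.1.length + y.2.1.length : ℕ) : ℝ) / w.length * ((w.length : ℝ) / (N : ℝ) ^ (4 / 3 : ℝ)) =
      ((y.1.length + y.2.1.length : ℕ) : ℝ) / (N : ℝ) ^ (4 / 3 : ℝ) := by
    field_simp
  exact
    { t0 := by
        show 0 ≤ (y.1.length : ℝ) / w.length
        positivity
      t01 := hpl
      t1 := hpy
      tm := by
        show ((y.1.length + y.2.1.length : ℕ) : ℝ) / w.length * ((w.length : ℝ) / (N : ℝ) ^ (4 / 3 : ℝ)) ≤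
          (m : ℝ) / (N : ℝ) ^ (4 / 3 : ℝ)
        rw [tdur]
        gcongr
      mL := by
        show (m : ℝ) / (N : ℝ) ^ (4 / 3 : ℝ) ≤ (w.length : ℝ) / (N : ℝ) ^ (4 / 3 : ℝ)
        gcongr
      lo := eL
      z := crv_zero _ _ _
      lx0 := by
        show E.l + E.m ≤ lv (ev a) (crv w w.length N (pji ((y.1.length : ℝ) / w.length)))
        rw [gx, dv, le_div_iff₀ hNp]
        linarith [hlx.1]
      lx1 := by
        show lv (ev a) (crv w w.length N (pji ((y.1.length : ℝ) / w.length))) ≤ E.l + E.m + 16 * (d1 * ρ)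
        rw [gx, dv, div_le_iff₀ hNp]
        linarith [hlx.2]
      ly0 := by
        show O.m ≤ lv (ev a) (crv w w.length N (pji (((y.1.length + y.2.1.length : ℕ) : ℝ) / w.length))) -
          lv (ev a) (crv w w.length N (pji ((y.1.length : ℝ) / w.length)))
        rw [gx, gy, dv, dv, lv_add, ← sub_div, add_sub_cancel_left, le_div_iff₀ hNp]
        exact hly.1
      ly1 := by
        show lv (ev a) (crv w w.length N (pji (((y.1.length + y.2.1.length : ℕ) : ℝ) / w.length))) -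
          lv (ev a) (crv w w.length N (pji ((y.1.length : ℝ) / w.length))) ≤ O.m + 8 * (d1 * ρ)
        rw [gx, gy, dv, dv, lv_add, ← sub_div, add_sub_cancel_left, div_le_iff₀ hNp]
        linarith [hly.2]
      nx := by
        show ‖crv w w.length N (pji ((y.1.length : ℝ) / w.length))‖ ≤
          lv (ev a) (crv w w.length N (pji ((y.1.length : ℝ) / w.length))) + 16 * (d1 * ρ)
        rw [gx, nv, dv, div_le_iff₀ hNp, add_mul, div_mul_cancel₀ _ hNp.ne']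
        linarith
      dur := by
        show ((y.1.length + y.2.1.length : ℕ) : ℝ) / w.length * ((w.length : ℝ) / (N : ℝ) ^ (4 / 3 : ℝ)) ≤ Ac * ρ ^ (4 / 3 : ℝ)
        rw [tdur, div_le_iff₀ hN4]
        have h1 := h.len
        rw [Real.mul_rpow hρ.le hNp.le] at h1
        linarith
      right := by
        intro r
        show lv (ev a) (crv w w.length N (pji ((y.1.length : ℝ) / w.length))) ≤ lv (ev a) (crv w w.length N
          (pji ((y.1.length : ℝ) / w.length + r * (((y.1.length + y.2.1.length : ℕ) : ℝ) / w.length - (y.1.length : ℝ) / w.length)))) + δ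
        obtain ⟨t, ht⟩ : ∃ t : ℝ, t = (y.1.length : ℝ) / w.length +
          r * (((y.1.length + y.2.1.length : ℕ) : ℝ) / w.length - (y.1.length : ℝ) / w.length) := ⟨_, rfl⟩
        rw [← ht]
        have r0 := r.2.1
        have r1 := r.2.2
        have t0 : (y.1.length : ℝ) / w.length ≤ t := by rw [ht]; nlinarith
        have t1 : t ≤ ((y.1.length + y.2.1.length : ℕ) : ℝ) / w.length := by rw [ht]; nlinarith
        have hp0 : 0 ≤ (y.1.length : ℝ) / w.length := by positivity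
        have ec : ((pji t : I) : ℝ) = t := pji_vv (hp0.trans t0) (t1.trans hpy)
        obtain ⟨j, j1, j2, j3⟩ := crv_rng w w.length hNp (lo := y.1.length) (hi := y.1.length + y.2.1.length) (s := pji t)
          (Nat.le_add_right _ _) (by rw [ec]; exact (div_le_iff₀ hLp).1 t0) (by rw [ec]; exact (le_div_iff₀ hLp).1 t1)
        have h1 := h.vright hm.le j1 j2
        have h2 := (abs_le.1 ((abs_lv (ev_norm a) _).trans j3)).1
        rw [lv_sub, dv] at h2
        rw [gx, dv]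
        have h3 : lv (ev a) (en y.1) / N ≤ lv (ev a) (ps w j) / N := div_le_div_of_nonneg_right h1 hNp.le
        linarith
      ball := by
        intro r
        show ‖crv w w.length N (pji (r * (((y.1.length + y.2.1.length : ℕ) : ℝ) / w.length)))‖ ≤
          E.l + E.m + O.m + 78 * (d1 * ρ) + δ
        obtain ⟨t, ht⟩ : ∃ t : ℝ, t = r * (((y.1.length + y.2.1.length : ℕ) : ℝ) / w.length) := ⟨_, rfl⟩
        rw [← ht]
        have r0 := r.2.1
        have r1 := r.2.2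
        have hp0 : 0 ≤ ((y.1.length + y.2.1.length : ℕ) : ℝ) / w.length := by positivity
        have t0 : 0 ≤ t := by rw [ht]; positivity
        have t1 : t ≤ ((y.1.length + y.2.1.length : ℕ) : ℝ) / w.length := by rw [ht]; nlinarith
        have ec : ((pji t : I) : ℝ) = t := pji_vv t0 (t1.trans hpy)
        obtain ⟨j, j1, j2, j3⟩ := crv_rng w w.length hNp (lo := 0) (hi := y.1.length + y.2.1.length) (s := pji t)
          (Nat.zero_le _) (by rw [ec, Nat.cast_zero]; positivity) (by rw [ec]; exact (le_div_iff₀ hLp).1 t1)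
        have h1 := h.vball hm.le j2
        have h2 : ‖crv w w.length N (pji t)‖ ≤ ‖crv w w.length N (pji t) - ps w j / ((N : ℝ) : ℂ)‖ + ‖ps w j / ((N : ℝ) : ℂ)‖ := by
          have := norm_add_le (crv w w.length N (pji t) - ps w j / ((N : ℝ) : ℂ)) (ps w j / ((N : ℝ) : ℂ))
          rwa [sub_add_cancel] at this
        rw [nv] at h2
        have h3 : ‖ps w j‖ / N ≤ E.l + E.m + O.m + 78 * (d1 * ρ) := by
          rw [div_le_iff₀ hNp]
          linarith
        linarith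
      far := by
        intro r
        show O.m ≤ ‖crv w w.length N (pji (((y.1.length + y.2.1.length : ℕ) : ℝ) / w.length + r * ((m : ℝ) / (N : ℝ) ^ (4 / 3 : ℝ) /
          max ((w.length : ℝ) / (N : ℝ) ^ (4 / 3 : ℝ)) L0 - ((y.1.length + y.2.1.length : ℕ) : ℝ) / w.length))) -
          crv w w.length N (pji ((y.1.length : ℝ) / w.length))‖ + δ
        rw [emax]
        obtain ⟨t, ht⟩ : ∃ t : ℝ, t = ((y.1.length + y.2.1.length : ℕ) : ℝ) / w.length +
          r * ((m : ℝ) / w.length - ((y.1.length + y.2.1.length : ℕ) : ℝ) / w.length) := ⟨_, rfl⟩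
        rw [← ht]
        have r0 := r.2.1
        have r1 := r.2.2
        have hmy : ((y.1.length + y.2.1.length : ℕ) : ℝ) / w.length ≤ (m : ℝ) / w.length := by gcongr
        have hm1 : (m : ℝ) / w.length ≤ 1 := (div_le_one hLp).2 (by exact_mod_cast hm.le)
        have hp0 : 0 ≤ ((y.1.length + y.2.1.length : ℕ) : ℝ) / w.length := by positivity
        have t0 : ((y.1.length + y.2.1.length : ℕ) : ℝ) / w.length ≤ t := by rw [ht]; nlinarith
        have t1 : t ≤ (m : ℝ) / w.length := by rw [ht]; nlinarith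
        have ec : ((pji t : I) : ℝ) = t := pji_vv (hp0.trans t0) (t1.trans hm1)
        obtain ⟨j, j1, j2, j3⟩ := crv_rng w w.length hNp (lo := y.1.length + y.2.1.length) (hi := m) (s := pji t)
          hlt.le (by rw [ec]; exact (div_le_iff₀ hLp).1 t0) (by rw [ec]; exact (le_div_iff₀ hLp).1 t1)
        have h1 := h.far j j1 j2
        rw [gx]
        have e1 : (ps w j - en y.1) / ((N : ℝ) : ℂ) = (crv w w.length N (pji t) - en y.1 / ((N : ℝ) : ℂ)) -
            (crv w w.length N (pji t) - ps w j / ((N : ℝ) : ℂ)) := by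
          ring
        have h2 := norm_sub_le (crv w w.length N (pji t) - en y.1 / ((N : ℝ) : ℂ)) (crv w w.length N (pji t) - ps w j / ((N : ℝ) : ℂ))
        rw [← e1, nv] at h2
        have h3 : O.m ≤ ‖ps w j - en y.1‖ / N := by
          rw [le_div_iff₀ hNp]
          exact h1
        linarith }

/-! ### 3. The limit -/

/-- **the native marks of a marked curve** `y = (g; tx, ty)` -/
structure NatL (e : ℂ) (E : Tp) (O : Ot) (dd C : ℝ) (y : XM) : Prop where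
  t0 : 0 ≤ y.2.1
  t01 : y.2.1 ≤ y.2.2
  t1 : y.2.2 ≤ muG y.1
  t11 : y.2.2 ≤ 1
  pos : 0 < y.1.1
  z : y.1.2.2 0 = 0
  lx0 : E.l + E.m ≤ lv e (y.1.2.2 (pji y.2.1))
  lx1 : lv e (y.1.2.2 (pji y.2.1)) ≤ E.l + E.m + 16 * dd
  ly0 : O.m ≤ lv e (y.1.2.2 (pji y.2.2) - y.1.2.2 (pji y.2.1))
  ly1 : lv e (y.1.2.2 (pji y.2.2) - y.1.2.2 (pji y.2.1)) ≤ O.m + 8 * dd
  nx : ‖y.1.2.2 (pji y.2.1)‖ ≤ lv e (y.1.2.2 (pji y.2.1)) + 16 * dd
  dur' : y.2.2 * y.1.1 ≤ C
  dur : (y.2.2 - y.2.1) * y.1.1 ≤ C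
  right : ∀ v : I, y.2.1 ≤ v → (v : ℝ) ≤ y.2.2 → lv e (y.1.2.2 (pji y.2.1)) ≤ lv e (y.1.2.2 v)
  ball : ∀ v : I, (v : ℝ) ≤ y.2.2 → ‖y.1.2.2 v‖ ≤ E.l + E.m + O.m + 78 * dd
  far : ∀ v : I, y.2.2 ≤ v → (v : ℝ) ≤ muG y.1 → O.m ≤ ‖y.1.2.2 v - y.1.2.2 (pji y.2.1)‖

lemma ex_rng {a b v : ℝ} (h1 : a ≤ v) (h2 : v ≤ b) : ∃ r : I, a + r * (b - a) = v := by
  rcases eq_or_lt_of_le (h1.trans h2) with h | h
  · exact ⟨0, by rw [Set.Icc.coe_zero, zero_mul, add_zero]; linarith⟩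
  · have h3 : 0 < b - a := by linarith
    refine ⟨⟨(v - a) / (b - a), div_nonneg (by linarith) h3.le, (div_le_one h3).2 (by linarith)⟩, ?_⟩
    show a + (v - a) / (b - a) * (b - a) = v
    rw [div_mul_cancel₀ _ h3.ne']
    ring

theorem NatL.of {e : ℂ} {E : Tp} {O : Ot} {dd C L0 : ℝ} (hL0 : 0 < L0) {y : XM}
    (h : ∀ n : ℕ, NatD e E O dd C L0 (1 / ((n : ℝ) + 1)) y) : NatL e E O dd C y := by
  have h0 := h 0
  have hpos : 0 < y.1.1 := hL0.trans_le h0.lo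
  have htm : y.2.2 ≤ y.1.2.1 / y.1.1 := (le_div_iff₀ hpos).2 h0.tm
  have hm1 : y.1.2.1 / y.1.1 ≤ 1 := (div_le_one hpos).2 h0.mL
  have hm0 : 0 ≤ y.1.2.1 / y.1.1 := (h0.t0.trans h0.t01).trans htm
  have hmu : muG y.1 = y.1.2.1 / y.1.1 := by
    unfold muG
    rw [min_eq_right hm1, max_eq_right hm0]
  have lim : ∀ {p q : ℝ}, (∀ n : ℕ, p ≤ q + 1 / ((n : ℝ) + 1)) → p ≤ q := fun {p q} hp => by
    refine le_of_forall_pos_lt_add fun ε hε => ?_
    obtain ⟨n, hn⟩ := exists_nat_one_div_lt hε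
    linarith [hp n]
  refine
    { t0 := h0.t0
      t01 := h0.t01
      t1 := by rw [hmu]; exact htm
      t11 := h0.t1
      pos := hpos
      z := h0.z
      lx0 := h0.lx0
      lx1 := h0.lx1
      ly0 := by rw [lv_sub]; exact h0.ly0
      ly1 := by rw [lv_sub]; exact h0.ly1
      nx := h0.nx
      dur' := h0.dur
      dur := by
        have h1 := h0.dur
        have h2 : 0 ≤ y.2.1 * y.1.1 := mul_nonneg h0.t0 hpos.le
        linarith [sub_mul y.2.2 y.2.1 y.1.1]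
      right := fun v h1 h2 => lim fun n => ?_
      ball := fun v h1 => lim fun n => ?_
      far := fun v h1 h2 => lim fun n => ?_ }
  · obtain ⟨r, hr⟩ := ex_rng h1 h2
    have := (h n).right r
    rwa [hr, pji_self] at this
  · obtain ⟨r, hr⟩ := ex_rng (v.2.1) h1
    have := (h n).ball r
    rw [sub_zero, zero_add] at hr
    rwa [hr, pji_self] at this
  · rw [hmu] at h2
    obtain ⟨r, hr⟩ := ex_rng h1 h2
    have := (h n).far r
    rwa [max_eq_left h0.lo, hr, pji_self] at this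

/-- **the native marks in the limit** -/
theorem nat_lim {U : Ultrafilter ℕ} (hU : (U : Filter ℕ) ≤ atTop) {A : ℕ → Set (W3 × ℕ)} {yy : ℕ → W3 × ℕ → W3 × (W3 × W3)}
    {kk : ℕ → W3 × ℕ → ℕ} {a : Fin 3} {E : Tp} {O : Ot} {T : ℕ → ℝ} {g d1 ρ K Ac L0 : ℝ} (hρ : 0 < ρ) (hL0 : 0 < L0)
    (hA : ∀ᶠ N in (U : Filter ℕ), ∀ x ∈ A N, x.2 < x.1.length ∧ L0 * (N : ℝ) ^ (4 / 3 : ℝ) ≤ x.1.length ∧
      NatW a E O N (T N) g (d1 * (ρ * N)) (K * (d1 * (ρ * N))) (Ac * (ρ * N) ^ (4 / 3 : ℝ)) x.1 x.2 (yy N x) (kk N x))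
    {M : Measure XM} (cl : ∀ E : Set XM, IsClosed E → (∀ᶠ N in (U : Filter ℕ), ∀ x ∈ A N, (cN N x, tt (yy N x) x.1) ∈ E) →
      ∀ᵐ y ∂M, y ∈ E) : ∀ᵐ y ∂M, NatL (ev a) E O (d1 * ρ) (Ac * ρ ^ (4 / 3 : ℝ)) y := by
  have h1 : ∀ᵐ y ∂M, ∀ n : ℕ, NatD (ev a) E O (d1 * ρ) (Ac * ρ ^ (4 / 3 : ℝ)) L0 (1 / ((n : ℝ) + 1)) y := by
    rw [ae_all_iff]
    intro n
    refine cl _ (natD_closed _ E O hL0) ?_
    filter_upwards [hA, hU (eventually_ge_atTop (n + 1))] with N g1 g2 x hx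
    obtain ⟨k1, k2, k3⟩ := g1 x hx
    refine k3.natD (by omega) hρ k1 k2 ?_
    have : ((n : ℝ) + 1) ≤ N := by exact_mod_cast g2
    exact one_div_le_one_div_of_le (by positivity) this
  filter_upwards [h1] with y hy
  exact NatL.of hL0 hy

/-! ### 4. The tube -/

/-- **the tube of the closed curve** -/
theorem tub_of {l1 l2 dl D F ρ : ℝ} {e : ℂ} (hl1 : 0 < l1) (hdl : 0 < dl) (hρ : 0 < ρ) {x : ℝ × ℝ × C(I, ℂ)}
    (hW : InW (l1 / 2) (2 * l2) (dl / 2) ρ x) {τ : I} (h : TubeK (2 * D) F e τ (hX l1 ρ x)) :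
    TubI (2 * D * ρ) ((F - 2 * D) * ρ) e (pji (τ * muG x)) (pji (muG x)) x.2.2 := by
  have hρ4 : 0 < ρ ^ (4 / 3 : ℝ) := Real.rpow_pos_of_pos hρ _
  have hx1 : 0 < x.1 := lt_of_lt_of_le (by positivity) hW.lo
  have hmax : max x.1 (l1 / 2 * ρ ^ (4 / 3 : ℝ)) = x.1 := max_eq_left hW.lo
  have q0 : dl / 2 ≤ x.2.1 / x.1 := (le_div_iff₀ hx1).2 hW.mlo
  have q1 : x.2.1 / x.1 ≤ 1 - dl / 2 := (div_le_iff₀ hx1).2 hW.mhi
  have hmu : muG x = x.2.1 / x.1 := by
    unfold muG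
    rw [min_eq_right (by linarith), max_eq_right (by linarith)]
  have hsX : sX l1 ρ x = muG x := by
    unfold sX
    rw [hmax, hmu]
  obtain ⟨μ, hμ⟩ : ∃ μ : ℝ, μ = muG x := ⟨_, rfl⟩
  have μ0 : 0 < μ := by rw [hμ, hmu]; linarith
  have μ1 : μ ≤ 1 := by rw [hμ, hmu]; linarith
  have hval : ∀ s : I, hX l1 ρ x s = ((ρ⁻¹ : ℝ) : ℂ) * x.2.2 (pji (s * μ)) := fun s => by
    rw [hX_apply, hsX, ← hμ]
    rfl
  rw [← hμ]
  have cτ : ((pji (τ * μ) : I) : ℝ) = τ * μ := pji_vv (mul_nonneg τ.2.1 μ0.le) (mul_le_one₀ τ.2.2 μ0.le μ1)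
  have cμ : ((pji μ : I) : ℝ) = μ := pji_vv μ0.le μ1
  -- the time of the strand
  have ex : ∀ s : I, (s : ℝ) ≤ μ → ∃ s' : I, (s' : ℝ) * μ = s ∧ x.2.2 s = (ρ : ℂ) * hX l1 ρ x s' := by
    intro s hs
    refine ⟨⟨s / μ, div_nonneg s.2.1 μ0.le, (div_le_one μ0).2 hs⟩, div_mul_cancel₀ _ μ0.ne', ?_⟩
    rw [hval]
    show x.2.2 s = (ρ : ℂ) * (((ρ⁻¹ : ℝ) : ℂ) * x.2.2 (pji (s / μ * μ)))
    rw [div_mul_cancel₀ _ μ0.ne', pji_self, ← mul_assoc]
    push_cast
    rw [mul_inv_cancel₀ (by exact_mod_cast hρ.ne'), one_mul]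
  have lvm : ∀ z : ℂ, lv e ((ρ : ℂ) * z) = ρ * lv e z := fun z => by
    unfold lv
    rw [mul_left_comm, Complex.re_ofReal_mul]
  refine ⟨?_, fun s hs => ?_, fun s t hst ht => ?_, fun s hs hs' => ?_⟩
  · show ((pji (τ * μ) : I) : ℝ) ≤ ((pji μ : I) : ℝ)
    rw [cτ, cμ]
    exact mul_le_of_le_one_left μ0.le τ.2.2
  · have hs0 : (s : ℝ) ≤ τ * μ := by
      have : (s : ℝ) ≤ ((pji (τ * μ) : I) : ℝ) := hs
      rwa [cτ] at this
    obtain ⟨s', e1, e2⟩ := ex s (hs0.trans (mul_le_of_le_one_left μ0.le τ.2.2))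
    have e3 : s' ≤ τ := by
      have : (s' : ℝ) * μ ≤ τ * μ := by rw [e1]; exact hs0
      exact Subtype.coe_le_coe.1 (le_of_mul_le_mul_right this μ0)
    obtain ⟨t, t0, t1⟩ := h.near s' e3
    refine ⟨ρ * t, by positivity, ?_⟩
    rw [e2]
    have e4 : (ρ : ℂ) * hX l1 ρ x s' - ((ρ * t : ℝ) : ℂ) * e = (ρ : ℂ) * (hX l1 ρ x s' - (t : ℂ) * e) := by
      push_cast
      ring
    rw [e4, norm_mul, Complex.norm_real, Real.norm_of_nonneg hρ.le, mul_comm]
    exact mul_le_mul_of_nonneg_right t1 hρ.le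
  · have ht0 : (t : ℝ) ≤ τ * μ := by
      have : (t : ℝ) ≤ ((pji (τ * μ) : I) : ℝ) := ht
      rwa [cτ] at this
    have hs0 : (s : ℝ) ≤ τ * μ := le_trans (show (s : ℝ) ≤ t from hst) ht0
    obtain ⟨s', e1, e2⟩ := ex s (hs0.trans (mul_le_of_le_one_left μ0.le τ.2.2))
    obtain ⟨t', f1, f2⟩ := ex t (ht0.trans (mul_le_of_le_one_left μ0.le τ.2.2))
    have e3 : s' ≤ t' := by
      have : (s' : ℝ) * μ ≤ t' * μ := by rw [e1, f1]; exact hst
      exact Subtype.coe_le_coe.1 (le_of_mul_le_mul_right this μ0)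
    have f3 : t' ≤ τ := by
      have : (t' : ℝ) * μ ≤ τ * μ := by rw [f1]; exact ht0
      exact Subtype.coe_le_coe.1 (le_of_mul_le_mul_right this μ0)
    have h1 := h.back s' t' e3 f3
    rw [e2, f2, lvm, lvm]
    nlinarith
  · have hs0 : τ * μ ≤ (s : ℝ) := by
      have : ((pji (τ * μ) : I) : ℝ) ≤ (s : ℝ) := hs
      rwa [cτ] at this
    have hs1 : (s : ℝ) ≤ μ := by
      have : (s : ℝ) ≤ ((pji μ : I) : ℝ) := hs'
      rwa [cμ] at this
    obtain ⟨s', e1, e2⟩ := ex s hs1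
    have e3 : τ ≤ s' := by
      have : (τ : ℝ) * μ ≤ s' * μ := by rw [e1]; exact hs0
      exact Subtype.coe_le_coe.1 (le_of_mul_le_mul_right this μ0)
    have h1 := h.far s' e3
    rw [e2, norm_mul, Complex.norm_real, Real.norm_of_nonneg hρ.le, mul_comm ρ]
    exact mul_le_mul_of_nonneg_right h1 hρ.le

/-- a time at which the curve is in the ball is in the tube -/
lemma TubI.le {D F : ℝ} {e : ℂ} {τ z c : I} {g : C(I, ℂ)} (h : TubI D F e τ z g) (hc : c ≤ z) (hB : ‖g c‖ < F) : c ≤ τ := by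
  by_contra hcon
  exact absurd (h.far c (not_le.1 hcon).le hc) (not_le.2 hB)

/-- **the end of the block is in the tube** -/
theorem NatL.le_tau {e : ℂ} {E : Tp} {O : Ot} {dd C D F : ℝ} {y : XM} (h : NatL e E O dd C y) {τ : I}
    (ht : TubI D F e τ (pji (muG y.1)) y.1.2.2) (hF : E.l + E.m + O.m + 78 * dd < F) : pji y.2.2 ≤ τ := by
  have h0 : 0 ≤ y.2.2 := h.t0.trans h.t01
  have e1 : ((pji y.2.2 : I) : ℝ) = y.2.2 := pji_vv h0 h.t11
  refine ht.le ?_ ((h.ball (pji y.2.2) (by rw [e1])).trans_lt hF)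
  show ((pji y.2.2 : I) : ℝ) ≤ ((pji (muG y.1) : I) : ℝ)
  rw [e1, pji_vv (muG_mem _).1 (muG_mem _).2]
  exact h.t1

end Pool.Agent.ROT.F3
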