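import Pool.Agent.ROT.F3SAE
import Pool.Agent.ROT.F3PrmO22

/-!
# ROT / F3SAT (helper79): the foreign gates in a thin tube (D51, piece (J) of helper86)

One curve `g` with `g 0 = 0` which is on `[0, τ]` in the thin tube of radius `D` around the ray in the direction `d` with backtracking at
most `D ≤ η`, and on `[τ, z]` outside of the ball `F` (`TubI` of F3SAE). Native gates: `x` = time `a`, outer gate `y` = time `ty`;
foreign gates over `x` (direction `t = u * d`, `‖u - 1‖ ≤ θ`): `c~` = time `b`, `x~` = time `c` (`FgI`), levels in thin windows, closed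
no return behind `x~`.
* `RoomT E O X η θ F F' R0` : the numbers, everything small is at most `η`;
* **`fg_tube`** (gates as `FgI`), **`fg_tubeA`** (gates as in `FaI` of helper2) : order `a ≤ b ≤ c ≤ ty`, `FgI`, `riK ≤ 0`,
  **`FpC`** (all the conditions at this end, rest up to `z`), no return behind `ty` into the ball `R0` of `x`;
* **`roomT_nr`** : the numbers near the base data of helper22.
-/

set_option autoImplicit false

open unitInterval Set ComplexConjugate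

namespace Pool.Agent.ROT.F3

open Pool.Agent.ROT.F3.CC

/-! ### 1. The numbers -/

/-- **the numbers**: everything small (`D`, windows, errors of the directions) is at most `η`; `X` = level of `x` -/
structure RoomT (E : En) (O : Ot) (X η θ F F' R0 : ℝ) : Prop where
  η0 : 0 < η
  X0 : 0 ≤ X
  θ0 : 0 ≤ θ
  θ1 : θ ≤ 1 / 2
  /-- the two frames agree up to `η` on the piece up to `x~`, on the ball `f.r0` and on the ball of the strip -/
  θM : 4 * (θ * (X + E.f.l + E.f.m + 4 * η)) ≤ η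
  θr : θ * E.f.r0 ≤ η
  θs : θ * (E.s.bn + 5 * η) ≤ η
  fl : 3 * η ≤ E.f.l
  fm : 3 * η ≤ E.f.m
  rk : E.f.l + 7 * η ≤ E.rk
  r2 : E.f.m + 8 * η ≤ E.f.r2
  κk : 2 * η ≤ E.κk
  κ1 : 5 * η ≤ E.f.κ1
  ek : E.ek + 2 * η ≤ (1 - E.n.c) * (E.f.l + E.f.m - η)
  kc : |E.kc - (E.f.l + E.f.m)| + 6 * η ≤ E.kr
  om : E.f.l + E.f.m + 6 * η ≤ O.m
  κ : 5 * η ≤ E.f.κ
  se : 2 * η ≤ E.s.e
  hw : 3 * η ≤ E.s.hw
  len : E.s.bn + 3 * η ≤ E.s.len
  Fr : 2 * (X + E.f.l + E.f.m + 4 * η) + E.f.r0 ≤ F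
  Fs : 2 * (X + E.f.l + E.f.m + 4 * η) + E.s.bn + 3 * η ≤ F
  Fg : E.f.rg ≤ F'
  Ro : R0 + η ≤ O.m
  RoF : X + 3 * η + R0 ≤ F

/-! ### 2. Levels in two frames -/

section

variable {d u z : ℂ} {θ : ℝ}

private lemma s_lv (hd : ‖d‖ = 1) (hu : ‖u - 1‖ ≤ θ) (z : ℂ) : |lv (u * d) z - lv d z| ≤ θ * ‖z‖ := by
  have e : lv (u * d) z - lv d z = (conj ((u - 1) * d) * z).re := by
    unfold lv
    rw [← Complex.sub_re, ← sub_mul, ← map_sub]
    congr 3
    ring
  rw [e]
  refine (Complex.abs_re_le_norm _).trans ?_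
  rw [norm_mul, RCLike.norm_conj, norm_mul, hd, mul_one]
  exact mul_le_mul_of_nonneg_right hu (norm_nonneg _)

private lemma s_ltl (hd : ‖d‖ = 1) (hu : ‖u - 1‖ ≤ θ) (z : ℂ) : |ltl (u * d) z - ltl d z| ≤ θ * ‖z‖ := by
  have e : ltl (u * d) z - ltl d z = (conj ((u - 1) * d) * z).im := by
    unfold ltl
    rw [← Complex.sub_im, ← sub_mul, ← map_sub]
    congr 3
    ring
  rw [e]
  refine (Complex.abs_im_le_norm _).trans ?_
  rw [norm_mul, RCLike.norm_conj, norm_mul, hd, mul_one]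
  exact mul_le_mul_of_nonneg_right hu (norm_nonneg _)

private lemma s_nm (hd : ‖d‖ = 1) (z : ℂ) : ‖z‖ ≤ |lv d z| + |ltl d z| := by
  have h := Complex.norm_le_abs_re_add_abs_im (conj d * z)
  rw [norm_mul, RCLike.norm_conj, hd, one_mul] at h
  exact h

private lemma s_lv_le (hd : ‖d‖ = 1) (z : ℂ) : |lv d z| ≤ ‖z‖ := by
  have h := Complex.abs_re_le_norm (conj d * z)
  rw [norm_mul, RCLike.norm_conj, hd, one_mul] at h
  exact h

private lemma s_ltl_le (hd : ‖d‖ = 1) (z : ℂ) : |ltl d z| ≤ ‖z‖ := by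
  have h := Complex.abs_im_le_norm (conj d * z)
  rw [norm_mul, RCLike.norm_conj, hd, one_mul] at h
  exact h

private lemma s_lvs (d v w : ℂ) : lv d (v - w) = lv d v - lv d w := by
  unfold lv
  rw [mul_sub, Complex.sub_re]

private lemma s_ltls (d v w : ℂ) : ltl d (v - w) = ltl d v - ltl d w := by
  unfold ltl
  rw [mul_sub, Complex.sub_im]

private lemma s_ray (hd : ‖d‖ = 1) (t : ℝ) : lv d ((t : ℂ) * d) = t ∧ ltl d ((t : ℂ) * d) = 0 := by
  have h2 : conj d * ((t : ℂ) * d) = (t : ℂ) * (d * conj d) := by ring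
  unfold lv ltl
  rw [h2, Complex.mul_conj, Complex.normSq_eq_norm_sq, hd]
  simp

/-- a point near the ray -/
private lemma s_near (hd : ‖d‖ = 1) {D t : ℝ} (ht : 0 ≤ t) (h : ‖z - (t : ℂ) * d‖ ≤ D) :
    |ltl d z| ≤ D ∧ -D ≤ lv d z ∧ ‖z‖ ≤ lv d z + 2 * D := by
  obtain ⟨e1, e2⟩ := s_ray hd t
  have h1 := s_lv_le hd (z - (t : ℂ) * d)
  have h2 := s_ltl_le hd (z - (t : ℂ) * d)
  rw [s_lvs, e1] at h1
  rw [s_ltls, e2, sub_zero] at h2
  have h3 := abs_le.1 (h1.trans h)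
  have h4 : ‖z‖ ≤ ‖z - (t : ℂ) * d‖ + ‖(t : ℂ) * d‖ := by
    have := norm_add_le (z - (t : ℂ) * d) ((t : ℂ) * d)
    rwa [sub_add_cancel] at this
  have h5 : ‖(t : ℂ) * d‖ = t := by
    rw [norm_mul, hd, mul_one, Complex.norm_real, Real.norm_eq_abs, abs_of_nonneg ht]
  exact ⟨h2.trans h, by linarith, by linarith⟩

end

/-! ### 3. The theorem -/

section

variable {d u : ℂ} {E : En} {O : Ot} {mn : Prop} {g : C(I, ℂ)} {L X D η θ F F' R0 ε : ℝ} {a b c ty τ z : I}

/-- the core -/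
private theorem fg_core (hE : E.Ok ε) (hR : RoomT E O X η θ F F' R0) (hd : ‖d‖ = 1) (hu1 : ‖u‖ = 1) (hu : ‖u - 1‖ ≤ θ) (hD : D ≤ η)
    (hT : TubI D F d τ z g) (hay : a ≤ ty) (hyτ : ty ≤ τ) (hx1 : X ≤ lv d (g a))
    (hx2 : lv d (g a) ≤ X + η) (hxr : ∀ v, a ≤ v → v ≤ ty → lv d (g a) ≤ lv d (g v)) (hy1 : O.m ≤ lv d (g ty - g a))
    (hl : E.f.l + lv (u * d) (g a) ≤ lv (u * d) (g b)) (hm : E.f.m ≤ lv (u * d) (g c - g b))
    (ht1 : ∀ v, v ≤ b → lv (u * d) (g v) ≤ lv (u * d) (g b))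
    (ht2 : ∀ v, b ≤ v → v ≤ c → lv (u * d) (g v) ≤ lv (u * d) (g c))
    (hr : ∀ v, b ≤ v → v ≤ c → ‖g v - g b‖ ≤ E.f.r2 → lv (u * d) (g b) ≤ lv (u * d) (g v)) (hb2 : lv (u * d) (g b) ≤ X + E.f.l + 2 * η)
    (hc2 : lv (u * d) (g c) ≤ X + E.f.l + E.f.m + 2 * η)
    (hrc : ∀ v, c ≤ v → v ≤ z → 0 ≤ lv (u * d) (g v - g c) ∨ F' ≤ ‖g v - g c‖) (hL0 : 0 ≤ L)
    (hL : ((ty : ℝ) - a) * L ≤ E.lk) :
    (a ≤ b ∧ b ≤ c ∧ c ≤ ty) ∧ FgI (u * d) E.f g a b c ∧ riK d g a c ≤ 0 ∧ FpC d (u * d) E mn g L a b c z ∧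
      ∀ v, ty ≤ v → v ≤ z → R0 ≤ ‖g v - g a‖ := by
  have ht : ‖u * d‖ = 1 := by rw [norm_mul, hu1, hd, mul_one]
  have haτ : a ≤ τ := hay.trans hyτ
  -- the points of the tube
  have P : ∀ v, v ≤ τ → |ltl d (g v)| ≤ D ∧ -D ≤ lv d (g v) ∧ ‖g v‖ ≤ lv d (g v) + 2 * D := by
    intro v hv
    obtain ⟨s, hs, h⟩ := hT.near v hv
    exact s_near hd hs h
  have hD0 : 0 ≤ D := (abs_nonneg _).trans (P a haτ).1
  have hη := hR.η0
  have hθ := hR.θ0
  -- two points of the tube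
  have Q : ∀ v v', v ≤ τ → v' ≤ τ → |ltl d (g v - g v')| ≤ 2 * η ∧ ‖g v - g v'‖ ≤ |lv d (g v - g v')| + 2 * η := by
    intro v v' hv hv'
    have h1 := (P v hv).1
    have h2 := (P v' hv').1
    have h3 : |ltl d (g v - g v')| ≤ 2 * η := by
      rw [s_ltls]
      have := abs_sub (ltl d (g v)) (ltl d (g v'))
      linarith
    exact ⟨h3, (s_nm hd _).trans (by linarith)⟩
  -- sizes
  set M : ℝ := 2 * (X + E.f.l + E.f.m + 4 * η) with hM
  have fl0 : 0 < E.f.l := hE.f.l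
  have fm0 : 0 < E.f.m := hE.f.m
  have hX := hR.X0
  have big : ∀ v, v ≤ τ → ∀ y : ℝ, lv (u * d) (g v) ≤ y → y ≤ X + E.f.l + E.f.m + 2 * η → ‖g v‖ ≤ M := by
    intro v hv y hy hy'
    have h1 := (P v hv).2.2
    have h2 := abs_le.1 (s_lv hd hu (g v))
    have h3 : θ * ‖g v‖ ≤ 1 / 2 * ‖g v‖ := mul_le_mul_of_nonneg_right hR.θ1 (norm_nonneg _)
    rw [hM]
    linarith
  -- the end of the tube is far, the gates are before it
  have lτ : X + E.f.l + E.f.m + 2 * η < lv (u * d) (g τ) := by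
    have h1 := (P τ le_rfl).2.2
    have h2 := abs_le.1 (s_lv hd hu (g τ))
    have h3 : θ * ‖g τ‖ ≤ 1 / 2 * ‖g τ‖ := mul_le_mul_of_nonneg_right hR.θ1 (norm_nonneg _)
    have h4 := hT.far τ le_rfl hT.τz
    have h5 := hR.Fr
    have r0 : 0 < E.f.r0 := by
      have := hE.f.rr
      have := hE.f.g64
      have := hE.f.r
      have := hE.f.r2
      linarith
    linarith
  have hbτ : b ≤ τ := by
    by_contra h
    push Not at h
    have := ht1 τ h.le
    linarith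
  have hcτ : c ≤ τ := by
    by_contra h
    push Not at h
    have := ht2 τ hbτ h.le
    linarith
  have na : ‖g a‖ ≤ X + 3 * η := by
    have := (P a haτ).2.2
    linarith
  have naM : ‖g a‖ ≤ M := by
    rw [hM]
    linarith
  have nb : ‖g b‖ ≤ M := big b hbτ _ hb2 (by linarith)
  have nc : ‖g c‖ ≤ M := big c hcτ _ hc2 (by linarith)
  have hθM : θ * (2 * M) ≤ η := by
    have := hR.θM
    rw [hM]
    linarith
  have err : ∀ z : ℂ, ‖z‖ ≤ 2 * M → |lv (u * d) z - lv d z| ≤ η := by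
    intro z hz
    exact (s_lv hd hu z).trans ((mul_le_mul_of_nonneg_left hz hθ).trans hθM)
  have errM : ∀ z : ℂ, ‖z‖ ≤ M → |lv (u * d) z - lv d z| ≤ η := by
    intro z hz
    have : 0 ≤ M := (norm_nonneg _).trans hz
    exact err z (by linarith)
  have dif : ∀ z z' : ℂ, ‖z‖ ≤ M → ‖z'‖ ≤ M → ‖z - z'‖ ≤ 2 * M := by
    intro z z' h h'
    have := norm_sub_le z z'
    linarith
  -- levels
  have fl : E.f.l ≤ lv (u * d) (g b - g a) := by
    rw [s_lvs]
    linarith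
  have fm : E.f.m ≤ lv (u * d) (g c - g b) := hm
  have ea := abs_le.1 (errM _ naM)
  have eba := abs_le.1 (err _ (dif _ _ nb naM))
  have eca := abs_le.1 (err _ (dif _ _ nc naM))
  have ecb := abs_le.1 (err _ (dif _ _ nc nb))
  have lba : lv (u * d) (g b - g a) ≤ E.f.l + 3 * η := by
    rw [s_lvs]
    linarith
  have lca : lv (u * d) (g c - g a) ≤ E.f.l + E.f.m + 3 * η := by
    rw [s_lvs]
    linarith
  have lca' : E.f.l + E.f.m ≤ lv (u * d) (g c - g a) := by
    have : g c - g a = (g c - g b) - (g a - g b) := by ring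
    have e1 := s_lvs (u * d) (g c) (g a)
    have e2 := s_lvs (u * d) (g c) (g b)
    have e3 := s_lvs (u * d) (g b) (g a)
    linarith
  have dba : E.f.l - η ≤ lv d (g b - g a) ∧ lv d (g b - g a) ≤ E.f.l + 4 * η := ⟨by linarith, by linarith⟩
  have dca : E.f.l + E.f.m - η ≤ lv d (g c - g a) ∧ lv d (g c - g a) ≤ E.f.l + E.f.m + 4 * η := ⟨by linarith, by linarith⟩
  have dcb : E.f.m - η ≤ lv d (g c - g b) ∧ lv d (g c - g b) ≤ E.f.m + 5 * η := by
    have e1 := s_lvs d (g c) (g a)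
    have e2 := s_lvs d (g c) (g b)
    have e3 := s_lvs d (g b) (g a)
    exact ⟨by linarith, by linarith⟩
  -- order
  have hab : a ≤ b := by
    by_contra h
    push Not at h
    have h1 := hT.back b a h.le haτ
    have e3 := s_lvs d (g b) (g a)
    have := hR.fl
    linarith
  have hbc : b ≤ c := by
    by_contra h
    push Not at h
    have h1 := hT.back c b h.le hbτ
    have e3 := s_lvs d (g c) (g b)
    have := hR.fm
    linarith
  have hac : a ≤ c := hab.trans hbc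
  have hcy : c ≤ ty := by
    by_contra h
    push Not at h
    have h1 := hT.back ty c h.le hcτ
    have e3 := s_lvs d (g ty) (g a)
    have e4 := s_lvs d (g c) (g a)
    have := hR.om
    linarith
  -- the pieces
  have lo : ∀ v, a ≤ v → v ≤ c → 0 ≤ lv d (g v - g a) := by
    intro v h1 h2
    rw [s_lvs]
    linarith [hxr v h1 (h2.trans hcy)]
  have up : ∀ v v', v ≤ v' → v' ≤ τ → lv d (g v - g a) ≤ lv d (g v' - g a) + η := by
    intro v v' h1 h2
    have := hT.back v v' h1 h2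
    rw [s_lvs, s_lvs]
    linarith
  have ri : RgI d g a c := fun v hv => lo v (hv.of_le hac).1 (hv.of_le hac).2
  have hn := hE.n.co
  have hfc := hE.f.co
  have bl2 : ∀ v, b ≤ v → v ≤ c → ‖g v - g b‖ ≤ E.f.m + 8 * η := by
    intro v h1 h2
    have q := (Q v b (h2.trans hcτ) hbτ).2
    have l1 := hT.back b v h1 (h2.trans hcτ)
    have l2 := hT.back v c h2 hcτ
    have e1 := s_lvs d (g v) (g b)
    have e2 := s_lvs d (g c) (g b)
    have h3 : |lv d (g v - g b)| ≤ E.f.m + 6 * η := by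
      rw [abs_le]
      constructor
      · linarith
      · linarith
    linarith
  have FG : FgI (u * d) E.f g a b c := by
    refine ⟨fl, fm, fun v hv => ht1 v (hv.of_le hab).2, fun v hv => ?_, fun v hv => ?_⟩
    · obtain ⟨h1, h2⟩ := hv.of_le hbc
      exact hr v h1 h2 ((bl2 v h1 h2).trans hR.r2)
    · obtain ⟨h1, h2⟩ := hv.of_le hbc
      exact ht2 v h1 h2
  have kc : CKc d (u * d) E g (thI L) a b c := by
    refine ⟨hab, hbc, fun v h1 h2 => ?_, fun v h1 h2 => ?_, fun v h1 h2 => ?_, fun v h1 h2 => ?_, ?_, ?_, fun v h1 h2 => lo v h1 h2, ?_⟩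
    · have q := (Q v a (h2.trans hbτ) haτ).2
      have l1 := lo v h1 (h2.trans hbc)
      rw [abs_of_nonneg l1] at q
      have := up v b h2 hbτ
      have := hR.rk
      linarith
    · exact (bl2 v h1 h2).trans hR.r2
    · have q := (Q v a (h2.trans hcτ) haτ).2
      have l1 := lo v h1 h2
      rw [abs_of_nonneg l1] at q
      have h3 : E.n.c * ‖g v - g a‖ ≤ E.n.c * (lv d (g v - g a) + 2 * η) := mul_le_mul_of_nonneg_left q hn.c0
      have h4 : E.n.c * (lv d (g v - g a) + 2 * η) ≤ 1 * (lv d (g v - g a) + 2 * η) :=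
        mul_le_mul_of_nonneg_right hn.c1 (by linarith)
      have := hR.κk
      unfold Kn
      linarith
    · have q := (Q v b (h2.trans hcτ) hbτ).2
      have l1 := hT.back b v h1 (h2.trans hcτ)
      have l2 := hT.back v c h2 hcτ
      have e1 := s_lvs d (g v) (g b)
      have e2 := s_lvs d (g c) (g b)
      have h3 : |lv d (g v - g b)| ≤ lv d (g v - g b) + 2 * η := by
        rw [abs_le]
        constructor
        · linarith
        · linarith
      have h4 : |lv d (g v - g b)| ≤ E.f.m + 6 * η := by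
        rw [abs_le]
        constructor
        · linarith
        · linarith
      have h5 := abs_le.1 (err (g v - g b) (by rw [hM]; linarith))
      have h6 : 0 ≤ lv d (g v - g b) + 4 * η := by linarith [norm_nonneg (g v - g b)]
      have h7 : E.f.c * ‖g v - g b‖ ≤ E.f.c * (lv d (g v - g b) + 4 * η) := mul_le_mul_of_nonneg_left (by linarith) hfc.c0
      have h8 : E.f.c * (lv d (g v - g b) + 4 * η) ≤ 1 * (lv d (g v - g b) + 4 * η) := mul_le_mul_of_nonneg_right hfc.c1 h6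
      have := hR.κ1
      unfold Kn
      linarith
    · have q := (Q c a hcτ haτ).2
      have l1 := lo c hac le_rfl
      rw [abs_of_nonneg l1] at q
      have h3 : E.n.c * ‖g c - g a‖ ≤ E.n.c * (lv d (g c - g a) + 2 * η) := mul_le_mul_of_nonneg_left q hn.c0
      have h4 : (1 - E.n.c) * (E.f.l + E.f.m - η) ≤ (1 - E.n.c) * lv d (g c - g a) :=
        mul_le_mul_of_nonneg_left dca.1 (by linarith [hn.c1])
      have h5 : E.n.c * (2 * η) ≤ 1 * (2 * η) := mul_le_mul_of_nonneg_right hn.c1 (by linarith)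
      have := hR.ek
      nlinarith
    · obtain ⟨r1, r2⟩ := s_ray hd E.kc
      have h1 := s_nm hd (g c - g a - (E.kc : ℂ) * d)
      rw [s_lvs, s_ltls, r1, r2, sub_zero] at h1
      have q := (Q c a hcτ haτ).1
      have h3 : |lv d (g c - g a) - E.kc| ≤ |E.kc - (E.f.l + E.f.m)| + 4 * η := by
        have e : lv d (g c - g a) - E.kc = (lv d (g c - g a) - (E.f.l + E.f.m)) - (E.kc - (E.f.l + E.f.m)) := by ring
        rw [e]
        have h4 := abs_sub (lv d (g c - g a) - (E.f.l + E.f.m)) (E.kc - (E.f.l + E.f.m))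
        have h5 : |lv d (g c - g a) - (E.f.l + E.f.m)| ≤ 4 * η := by
          rw [abs_le]
          constructor
          · linarith [dca.1]
          · linarith [dca.2]
        linarith
      have := hR.kc
      linarith
    · unfold thI
      have e : (c : ℝ) ≤ ty := hcy
      have e1 : ((c : ℝ) - a) * L ≤ ((ty : ℝ) - a) * L := mul_le_mul_of_nonneg_right (by linarith) hL0
      linarith
  obtain ⟨-, k1⟩ := (ckc_iff hd ht hn hfc hab hbc).1 kc
  -- the far part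
  have far : ∀ v, τ ≤ v → v ≤ z → F - M ≤ ‖g v - g c‖ := by
    intro v h1 h2
    have h3 := hT.far v h1 h2
    have := norm_sub_norm_le (g v) (g c)
    linarith
  have hcz : c ≤ z := hcτ.trans hT.τz
  refine ⟨⟨hab, hbc, hcy⟩, FG, (riK_iff hd).2 ri, ⟨k1, ?_, ?_, fun _ => ?_⟩, ?_⟩
  · -- cone of the rest
    rw [stS_le_iff (fRa_lip ht hfc.c0 hfc.c1).continuous, cutc_all hcz (p := fun v => fRa (u * d) E.f.c E.f.r0 v ≤ E.f.κ)]
    intro v h1 h2
    rw [fRa_iff]
    have hκ := hR.κ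
    rcases le_total τ v with h3 | h3
    · right
      have := far v h3 h2
      have := hR.Fr
      linarith
    · by_cases h4 : E.f.r0 ≤ ‖g v - g c‖
      · right
        linarith
      · left
        push Not at h4
        have q := (Q v c h3 hcτ).2
        have l1 := hT.back c v h1 h3
        have e1 := s_lvs d (g v) (g c)
        have h5 : |lv d (g v - g c)| ≤ lv d (g v - g c) + 2 * η := by
          rw [abs_le]
          constructor
          · linarith
          · linarith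
        have h6 := abs_le.1 (s_lv hd hu (g v - g c))
        have h7 : θ * ‖g v - g c‖ ≤ η := (mul_le_mul_of_nonneg_left h4.le hθ).trans hR.θr
        have h8 : 0 ≤ lv d (g v - g c) + 4 * η := by linarith [norm_nonneg (g v - g c)]
        have h9 : E.f.c * ‖g v - g c‖ ≤ E.f.c * (lv d (g v - g c) + 4 * η) := mul_le_mul_of_nonneg_left (by linarith) hfc.c0
        have h10 : E.f.c * (lv d (g v - g c) + 4 * η) ≤ 1 * (lv d (g v - g c) + 4 * η) :=
          mul_le_mul_of_nonneg_right hfc.c1 h8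
        unfold Kn
        linarith
  · -- right of `x~`
    rw [reK_iff ht]
    intro v hv
    obtain ⟨h1, h2⟩ := hv.of_le hcz
    rcases hrc v h1 h2 with h | h
    · exact Or.inl h
    · exact Or.inr (hR.Fg.trans h)
  · -- strip and no return
    rw [nrF_iff ht]
    have lt : E.s.bn + η ≤ lv d (g τ) - lv d (g c) := by
      have h1 := hT.far τ le_rfl hT.τz
      have h2 := (P τ le_rfl).2.2
      have h3 := (abs_le.1 (s_lv_le hd (g c))).2
      have := hR.Fs
      linarith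
    have bn0 : 0 < E.s.bn := by
      have h1 := hE.bn
      have h2 := hE.f.rr
      have h3 := hE.f.g64
      have h4 := hE.f.r
      have h5 := hE.f.r2
      linarith
    obtain ⟨σ', ⟨s1, s2⟩, s3⟩ : ∃ σ' ∈ Set.Icc c τ, lv d (g σ') - lv d (g c) = E.s.bn + η := by
      have hcont : ContinuousOn (fun v : I => lv d (g v) - lv d (g c)) (Set.Icc c τ) := by
        have hc : Continuous (lv d) := by
          unfold lv
          fun_prop
        exact ((hc.comp g.continuous).sub continuous_const).continuousOn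
      have := intermediate_value_Icc hcτ hcont
      refine this ⟨?_, lt⟩
      simp only [sub_self]
      linarith
    refine ⟨σ', Or.inl ⟨s1, s2.trans hT.τz⟩, fun v hv => ?_, fun v hv => ?_⟩
    · obtain ⟨h1, h2⟩ := hv.of_le s1
      have h3 := h2.trans s2
      obtain ⟨q1, q2⟩ := Q v c h3 hcτ
      have l1 := hT.back c v h1 h3
      have l2 := hT.back v σ' h2 s2
      have e1 := s_lvs d (g v) (g c)
      have h5 : |lv d (g v - g c)| ≤ E.s.bn + 2 * η := by
        rw [abs_le]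
        constructor
        · linarith
        · linarith
      have h6 := abs_le.1 (s_lv hd hu (g v - g c))
      have h7 : θ * ‖g v - g c‖ ≤ η := (mul_le_mul_of_nonneg_left (by linarith) hθ).trans hR.θs
      have h8 := s_ltl hd hu (g v - g c)
      have h9 := abs_sub_abs_le_abs_sub (ltl (u * d) (g v - g c)) (ltl d (g v - g c))
      have := hR.se
      have := hR.hw
      have := hR.len
      unfold fSt
      rw [max_le_iff, max_le_iff]
      refine ⟨⟨by linarith, ?_⟩, by linarith⟩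
      have h10 := (abs_le.1 h5).2
      linarith
    · obtain ⟨h1, h2⟩ := hv.of_le (s2.trans hT.τz)
      unfold fBn
      rcases le_total τ v with h3 | h3
      · have := far v h3 h2
        have := hR.Fs
        linarith
      · have l2 := hT.back σ' v h1 h3
        have e1 := s_lvs d (g v) (g c)
        have h4 := (abs_le.1 (s_lv_le hd (g v - g c))).2
        linarith
  · intro v h1 h2
    rcases le_total τ v with h3 | h3
    · have h4 := hT.far v h3 h2
      have := norm_sub_norm_le (g v) (g a)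
      have := hR.RoF
      linarith
    · have l2 := hT.back ty v h1 h3
      have e1 := s_lvs d (g v) (g a)
      have e2 := s_lvs d (g ty) (g a)
      have h4 := (abs_le.1 (s_lv_le hd (g v - g a))).2
      have := hR.Ro
      linarith

/-- **the foreign gates in a thin tube** -/
theorem fg_tube (hE : E.Ok ε) (hR : RoomT E O X η θ F F' R0) (hd : ‖d‖ = 1) (hu1 : ‖u‖ = 1) (hu : ‖u - 1‖ ≤ θ) (hD : D ≤ η)
    (h0 : g 0 = 0) (hT : TubI D F d τ z g) (hay : a ≤ ty) (hyτ : ty ≤ τ) (hx1 : X ≤ lv d (g a))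
    (hx2 : lv d (g a) ≤ X + η) (hxr : ∀ v, a ≤ v → v ≤ ty → lv d (g a) ≤ lv d (g v)) (hy1 : O.m ≤ lv d (g ty - g a))
    (hf : FgI (u * d) (E.f.up (lv (u * d) (g a))) g 0 b c) (hb2 : lv (u * d) (g b) ≤ X + E.f.l + 2 * η)
    (hc2 : lv (u * d) (g c) ≤ X + E.f.l + E.f.m + 2 * η)
    (hrc : ∀ v, c ≤ v → v ≤ z → 0 ≤ lv (u * d) (g v - g c) ∨ F' ≤ ‖g v - g c‖) (hL0 : 0 ≤ L)
    (hL : ((ty : ℝ) - a) * L ≤ E.lk) :
    (a ≤ b ∧ b ≤ c ∧ c ≤ ty) ∧ FgI (u * d) E.f g a b c ∧ riK d g a c ≤ 0 ∧ FpC d (u * d) E mn g L a b c z ∧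
      ∀ v, ty ≤ v → v ≤ z → R0 ≤ ‖g v - g a‖ := by
  refine fg_core hE hR hd hu1 hu hD hT hay hyτ hx1 hx2 hxr hy1 ?_ hf.m (fun v hv => hf.t1 v (Or.inl ⟨nonneg', hv⟩))
    (fun v h1 h2 => hf.t2 v (Or.inl ⟨h1, h2⟩)) (fun v h1 h2 _ => hf.r v (Or.inl ⟨h1, h2⟩)) hb2 hc2 hrc hL0 hL
  have h1 : E.f.l + lv (u * d) (g a) ≤ lv (u * d) (g b - g 0) := hf.l
  rwa [h0, sub_zero] at h1

/-- **the foreign gates in a thin tube**, the gates in the form `FaI` of helper2: the conditions of the two rests up to the end `z` of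
the strand, radii `ρ1` (behind `c~`) and `F'` (behind `x~`) -/
theorem fg_tubeA {ρ1 : ℝ} (hE : E.Ok ε) (hR : RoomT E O X η θ F F' R0) (hd : ‖d‖ = 1) (hu1 : ‖u‖ = 1) (hu : ‖u - 1‖ ≤ θ)
    (hD : D ≤ η) (h0 : g 0 = 0) (hT : TubI D F d τ z g) (hay : a ≤ ty) (hyτ : ty ≤ τ) (hx1 : X ≤ lv d (g a))
    (hx2 : lv d (g a) ≤ X + η) (hxr : ∀ v, a ≤ v → v ≤ ty → lv d (g a) ≤ lv d (g v)) (hy1 : O.m ≤ lv d (g ty - g a))
    (hl : E.f.l + lv (u * d) (g a) ≤ lv (u * d) (g b - g 0)) (hm : E.f.m ≤ lv (u * d) (g c - g b))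
    (ht0 : ∀ v, BtI 0 v b → lv (u * d) (g v) ≤ lv (u * d) (g b)) (ht1 : ∀ v, BtI 0 v c → lv (u * d) (g v) ≤ lv (u * d) (g c))
    (hrb : RtI (u * d) ρ1 g b z) (hrc : RtI (u * d) F' g c z) (hcz : c ≤ z) (hρ1 : E.f.r2 < ρ1)
    (hb2 : lv (u * d) (g b) ≤ X + E.f.l + 2 * η) (hc2 : lv (u * d) (g c) ≤ X + E.f.l + E.f.m + 2 * η)
    (hL0 : 0 ≤ L)
    (hL : ((ty : ℝ) - a) * L ≤ E.lk) :
    (a ≤ b ∧ b ≤ c ∧ c ≤ ty) ∧ FgI (u * d) E.f g a b c ∧ riK d g a c ≤ 0 ∧ FpC d (u * d) E mn g L a b c z ∧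
      ∀ v, ty ≤ v → v ≤ z → R0 ≤ ‖g v - g a‖ := by
  refine fg_core hE hR hd hu1 hu hD hT hay hyτ hx1 hx2 hxr hy1 ?_ hm (fun v hv => ht0 v (Or.inl ⟨nonneg', hv⟩))
    (fun v _ h2 => ht1 v (Or.inl ⟨nonneg', h2⟩)) (fun v h1 h2 h3 => ?_) hb2 hc2
    (fun v h1 h2 => hrc v (Or.inl ⟨h1, h2⟩)) hL0 hL
  · rwa [h0, sub_zero] at hl
  · rcases hrb v (Or.inl ⟨h1, h2.trans hcz⟩) with h4 | h4
    · rw [s_lvs] at h4
      linarith
    · linarith

end

/-! ### 4. The numbers near the base data -/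

/-- **the numbers**: `η ≤ ρ / 2000`, `θ` so small that `10 ^ 7 θ ρ ≤ η`, any `F` from `10 ^ 7 ρ` on -/
theorem roomT_nr {E : En} {O : Ot} {ρ τ X η θ F F' R0 : ℝ} (h : E.Nr (bE ρ τ)) (hX : 0 ≤ X) (hX' : X ≤ 10 * ρ)
    (hη : 0 < η) (hη' : η ≤ ρ / 2000) (hθ : 0 ≤ θ) (hθ' : θ * (10000000 * ρ) ≤ η) (hO : 12000 * ρ ≤ O.m)
    (hF : 10000000 * ρ ≤ F) (hF' : E.f.rg ≤ F') (h1 : R0 + η ≤ O.m) (h2 : R0 + 11 * ρ ≤ F) : RoomT E O X η θ F F' R0 := by
  have fl1 : 60 * ρ ≤ E.f.l := h.f.l.1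
  have fl2 : E.f.l ≤ 101 / 100 * (60 * ρ) := h.f.l.2
  have fm1 : 11400 * ρ ≤ E.f.m := h.f.m.1
  have fm2 : E.f.m ≤ 101 / 100 * (11400 * ρ) := h.f.m.2
  have r01 : E.f.r0 ≤ 101 / 100 * (1950000 * ρ) := h.f.r0.2
  have bn1 : E.s.bn ≤ 101 / 100 * (8000000 * ρ) := h.s.bn.2
  have rk1 : 80 * ρ ≤ E.rk := h.rk.1
  have r21 : 28500 * ρ ≤ E.f.r2 := h.f.r2.1
  have κk1 : 1/20 * ρ ≤ E.κk := h.κk.1
  have κ11 : 1 * ρ ≤ E.f.κ1 := h.f.κ1.1
  have ek1 : E.ek ≤ 101 / 100 * (1/10 * ρ) := h.ek.2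
  have nc1 : E.n.c ≤ 101 / 100 * (16/25) := h.n.c.2
  have kr1 : 1/100 * ρ ≤ E.kr := h.kr.1
  have kc1 := h.kc.1
  have kc2 := h.kc.2
  have κ1 : 9/100 * ρ ≤ E.f.κ := h.f.κ.1
  have se1 : 1/20 * ρ ≤ E.s.e := h.s.e.1
  have hw1 : 1000 * ρ ≤ E.s.hw := h.s.hw.1
  have len1 : 60000000 * ρ ≤ E.s.len := h.s.len.1
  have key : ∀ y : ℝ, y ≤ 10000000 * ρ → θ * y ≤ η := fun y hy => (mul_le_mul_of_nonneg_left hy hθ).trans hθ'
  refine ⟨hη, hX, hθ, ?_, ?_, key _ (by linarith), key _ (by linarith), by linarith, by linarith, by linarith, by linarith,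
    by linarith, by linarith, ?_, ?_, by linarith, by linarith, by linarith, by linarith, by linarith, by linarith, by linarith,
    hF', h1, by linarith⟩
  · by_contra hc
    push Not at hc
    have : 1 / 2 * (10000000 * ρ) < θ * (10000000 * ρ) := mul_lt_mul_of_pos_right hc (by linarith)
    linarith
  · have := key (4 * (X + E.f.l + E.f.m + 4 * η)) (by linarith)
    linarith
  · have e1 : 1 / 3 * (11000 * ρ) ≤ (1 - E.n.c) * (E.f.l + E.f.m - η) :=
      mul_le_mul (by linarith) (by linarith) (by linarith) (by linarith)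
    linarith
  · rw [abs_of_nonneg (by linarith)]
    linarith

end Pool.Agent.ROT.F3
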