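import Pool.Agent.ROT.F3SAL
import Pool.Agent.ROT.F3SAT
import Pool.Agent.ROT.F3C0D
import Pool.Agent.ROT.F3NumR22

/-!
# ROT, F3 (B), rows C0At, S_a (helper86): the numbers

Unit of the arms `d1 = 1 / 1000000` (in units of `ρ`), `K = 10 ^ 16`, so that the far radius is `K d1 ρ = 10 ^ 10 ρ`.
* `armI_mono`, **`sa_armI`** : helper48's `ArmI`; `sa_rg` : the balls of the ends;
* **`sa_roomU`** : helper48's `RoomU`; `sa_roomT` : helper79's `RoomT`; **`sa_pos`** : the ideal positions of the cuts.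
-/

set_option autoImplicit false

namespace Pool.Agent.ROT.F3

open Pool.Agent.ROT.F3.N1W

/-- smaller units -/
lemma armI_mono {E : Tp} {O : Ot} {S T g K K' d d' x : ℝ} (h : ArmI E O S T g K d x) (h0 : 0 < d') (hd : d' ≤ d)
    (hK : K * d ≤ K' * d') : ArmI E O S T g K' d' x where
  S0 := h.S0
  d0 := h0
  l := by linarith [h.l]
  r := by linarith [h.r]
  r2 := by linarith [h.r2]
  th := by linarith [h.th]
  κ1 := by linarith [h.κ1]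
  κ := by linarith [h.κ]
  e := by linarith [h.e]
  w := by linarith [h.w]
  la := h.la
  lb := h.lb
  m0 := h.m0
  Λ := by linarith [h.Λ]
  Or := by linarith [h.Or]
  hw := by linarith [h.hw]
  Oκ := by linarith [h.Oκ]
  c0 := h.c0
  c1 := h.c1
  Oe := by linarith [h.Oe]
  Olb := h.Olb
  far := by linarith [h.far]

section num

variable {E : En} {O : Ot} {ρ τ A : ℝ} {N : ℕ}

/-- numbers of letters -/
lemma sa_len (hρ : 0 < ρ) {c : ℝ} (h : A * ρ ^ (4 / 3 : ℝ) ≤ c) (N : ℕ) : A * (ρ * N) ^ (4 / 3 : ℝ) ≤ c * uT N := by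
  rw [Real.mul_rpow hρ.le (Nat.cast_nonneg N), ← mul_assoc]
  exact mul_le_mul_of_nonneg_right h (Real.rpow_nonneg (Nat.cast_nonneg N) _)

/-- **the arms** -/
theorem sa_armI (hρ : 0 < ρ) (h : E.Nr (bE ρ τ)) (hO : O.Nr (bO ρ τ)) (hτ : 0 < τ) (hA : A * ρ ^ (4 / 3 : ℝ) ≤ 99 / 100 * τ)
    (hN : 1 ≤ N) : ArmI E.n O N (uT N) (44 * ρ) ((10 ^ 16 : ℕ) : ℝ) (1 / 1000000 * (ρ * N)) (A * (ρ * N) ^ (4 / 3 : ℝ)) := by
  have hN0 : (0 : ℝ) < N := by exact_mod_cast hN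
  have t1 : 1 * τ ≤ E.n.la := h.n.la.1
  have t2 : 1 * τ ≤ E.n.lb := h.n.lb.1
  have t3 : 99 / 100 * τ ≤ O.lb := hO.lb.1
  have h1 := armIN (K := 100000000000000) (S := N) (T := uT N) (g := 44 * ρ) (x := A * (ρ * N) ^ (4 / 3 : ℝ)) hρ hN0 h hO le_rfl
    (by linarith) (sa_len hρ (by linarith) N) (sa_len hρ (by linarith) N) (sa_len hρ (by linarith) N)
  refine armI_mono h1 (by positivity) ?_ (le_of_eq ?_)
  · nlinarith [mul_pos hρ hN0]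
  · push_cast
    ring

/-- the balls of the native end -/
theorem sa_rg (hρ : 0 < ρ) (h : E.Nr (bE ρ τ)) (hN : 1 ≤ N) :
    E.n.l * N + E.n.m * N + 40 * (1 / 1000000 * (ρ * N)) + E.n.rg * N < ((10 ^ 16 : ℕ) : ℝ) * (1 / 1000000 * (ρ * N)) ∧
    E.n.l * N + E.n.m * N + 40 * (1 / 1000000 * (ρ * N)) + E.n.r0 * N < ((10 ^ 16 : ℕ) : ℝ) * (1 / 1000000 * (ρ * N)) := by
  have hN0 : (0 : ℝ) < N := by exact_mod_cast hN
  have l2 : E.n.l ≤ 101 / 100 * (1/2 * ρ) := h.n.l.2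
  have m2 : E.n.m ≤ 101 / 100 * (81/10 * ρ) := h.n.m.2
  have rg2 : E.n.rg ≤ 101 / 100 * (1400 * ρ) := h.n.rg.2
  have r02 : E.n.r0 ≤ 101 / 100 * (1415 * ρ) := h.n.r0.2
  have sl : ∀ {a b : ℝ}, a < b → a * N < b * N := fun hab => mul_lt_mul_of_pos_right hab hN0
  push_cast
  constructor
  · have := sl (show E.n.l + E.n.m + 40 * (1 / 1000000 * ρ) + E.n.rg < 10 ^ 16 * (1 / 1000000 * ρ) by linarith)
    linarith
  · have := sl (show E.n.l + E.n.m + 40 * (1 / 1000000 * ρ) + E.n.r0 < 10 ^ 16 * (1 / 1000000 * ρ) by linarith)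
    linarith

/-- **the foreign gates over all bases**, unit `2 d1 ρ`, arms `108 d1 ρ`, base from `E.n.l + E.n.m - 2 d1 ρ` -/
theorem sa_roomU (hρ : 0 < ρ) (h : E.Nr (bE ρ τ)) {F : ℝ} (hF : 10000000 * ρ ≤ F) :
    RoomU E.f (108 * (1 / 1000000) * ρ) (2 * (1 / 1000000) * ρ) (E.n.l + E.n.m - 2 * (1 / 1000000) * ρ) F := by
  have l1 : 1/2 * ρ ≤ E.n.l := h.n.l.1
  have l2 : E.n.l ≤ 101 / 100 * (1/2 * ρ) := h.n.l.2
  have m1 : 81/10 * ρ ≤ E.n.m := h.n.m.1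
  have m2 : E.n.m ≤ 101 / 100 * (81/10 * ρ) := h.n.m.2
  have fl1 : 60 * ρ ≤ E.f.l := h.f.l.1
  have fl2 : E.f.l ≤ 101 / 100 * (60 * ρ) := h.f.l.2
  have fr1 : 105 * ρ ≤ E.f.r := h.f.r.1
  have fm2 : E.f.m ≤ 101 / 100 * (11400 * ρ) := h.f.m.2
  have fr2 : 28500 * ρ ≤ E.f.r2 := h.f.r2.1
  have κ11 : 1 * ρ ≤ E.f.κ1 := h.f.κ1.1
  have κ1 : 9/100 * ρ ≤ E.f.κ := h.f.κ.1
  have e2 : E.f.e ≤ 101 / 100 * (6/5 * ρ) := h.f.e.2
  have cs2 : E.f.cs ≤ 101 / 100 * (11/20) := h.f.cs.2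
  have rg2 : E.f.rg ≤ 101 / 100 * (1900000 * ρ) := h.f.rg.2
  have r02 : E.f.r0 ≤ 101 / 100 * (1950000 * ρ) := h.f.r0.2
  have q3 : (1 - 101 / 100 * (11/20)) * (60 * ρ) ≤ (1 - E.f.cs) * E.f.l :=
    mul_le_mul (by linarith) (by linarith) (by positivity) (by linarith)
  constructor <;> nlinarith

/-- **the tube** -/
theorem sa_roomT (hρ : 0 < ρ) (h : E.Nr (bE ρ τ)) (hO : O.Nr (bO ρ τ)) {θ F F' : ℝ} (hθ : 0 ≤ θ) (hθ' : θ ≤ 1 / 10 ^ 11)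
    (hF : 10 ^ 9 * ρ ≤ F) (hF' : E.f.rg ≤ F') :
    RoomT E O (E.n.l + E.n.m) (100 * (1 / 1000000) * ρ) θ F F' (19500000 * ρ) := by
  have l1 : 1/2 * ρ ≤ E.n.l := h.n.l.1
  have l2 : E.n.l ≤ 101 / 100 * (1/2 * ρ) := h.n.l.2
  have m1 : 81/10 * ρ ≤ E.n.m := h.n.m.1
  have m2 : E.n.m ≤ 101 / 100 * (81/10 * ρ) := h.n.m.2
  have om1 : 20000000 * ρ ≤ O.m := hO.m.1
  refine roomT_nr h (by linarith) (by linarith) (by positivity) (by linarith) hθ ?_ (by linarith) (by linarith) hF' (by linarith)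
    (by linarith)
  have h1 : θ * (10000000 * ρ) ≤ 1 / 10 ^ 11 * (10000000 * ρ) := mul_le_mul_of_nonneg_right hθ' (by positivity)
  have h2 : 1 / 10 ^ 11 * (10000000 * ρ) = 100 * (1 / 1000000) * ρ := by norm_num; ring
  linarith

/-- the ideal positions of the cuts, in the unit `ρ` -/
noncomputable def saT (E : En) (ρ d1 : ℝ) (q : Fin 3) : ℝ :=
  ((![E.n.l + E.n.m - 2 * d1 * ρ + E.f.l + 24 * d1 * ρ, E.n.l + E.n.m - 2 * d1 * ρ + E.f.l + E.f.th * E.f.m + 104 * d1 * ρ,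
    E.n.l + E.n.m - 2 * d1 * ρ + E.f.l + E.f.m + 104 * d1 * ρ] : Fin 3 → ℝ) q) / ρ

/-- **the ideal positions** are in `[1, 12000]` -/
theorem sa_pos (hρ : 0 < ρ) (h : E.Nr (bE ρ τ)) (q : Fin 3) : 1 ≤ saT E ρ (1 / 1000000) q ∧ saT E ρ (1 / 1000000) q ≤ 12000 := by
  have l1 : 1/2 * ρ ≤ E.n.l := h.n.l.1
  have l2 : E.n.l ≤ 101 / 100 * (1/2 * ρ) := h.n.l.2
  have m1 : 81/10 * ρ ≤ E.n.m := h.n.m.1
  have m2 : E.n.m ≤ 101 / 100 * (81/10 * ρ) := h.n.m.2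
  have fl1 : 60 * ρ ≤ E.f.l := h.f.l.1
  have fl2 : E.f.l ≤ 101 / 100 * (60 * ρ) := h.f.l.2
  have fm1 : 11400 * ρ ≤ E.f.m := h.f.m.1
  have fm2 : E.f.m ≤ 101 / 100 * (11400 * ρ) := h.f.m.2
  have th1 : 3/4 ≤ E.f.th := h.f.th.1
  have th2 : E.f.th ≤ 101 / 100 * (3/4) := h.f.th.2
  have q1 : 0 ≤ E.f.th * E.f.m := mul_nonneg (by linarith) (by linarith)
  have q2 : E.f.th * E.f.m ≤ 1 * E.f.m := mul_le_mul_of_nonneg_right (by linarith) (by linarith)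
  unfold saT
  rw [le_div_iff₀ hρ, div_le_iff₀ hρ]
  fin_cases q
  · show 1 * ρ ≤ E.n.l + E.n.m - 2 * (1 / 1000000) * ρ + E.f.l + 24 * (1 / 1000000) * ρ ∧
      E.n.l + E.n.m - 2 * (1 / 1000000) * ρ + E.f.l + 24 * (1 / 1000000) * ρ ≤ 12000 * ρ
    constructor <;> linarith
  · show 1 * ρ ≤ E.n.l + E.n.m - 2 * (1 / 1000000) * ρ + E.f.l + E.f.th * E.f.m + 104 * (1 / 1000000) * ρ ∧
      E.n.l + E.n.m - 2 * (1 / 1000000) * ρ + E.f.l + E.f.th * E.f.m + 104 * (1 / 1000000) * ρ ≤ 12000 * ρ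
    constructor <;> linarith
  · show 1 * ρ ≤ E.n.l + E.n.m - 2 * (1 / 1000000) * ρ + E.f.l + E.f.m + 104 * (1 / 1000000) * ρ ∧
      E.n.l + E.n.m - 2 * (1 / 1000000) * ρ + E.f.l + E.f.m + 104 * (1 / 1000000) * ρ ≤ 12000 * ρ
    constructor <;> linarith

end num

end Pool.Agent.ROT.F3
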