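import Pool.Agent.ROT.F3SAI
import Pool.Agent.ROT.F3SAN
import Pool.Agent.ROT.F3SAJ
import Pool.Agent.ROT.F3C0G2

/-!
# ROT, F3 (B), rows C0At, S_a (helper86): the marked curves with `G > 0` and `J0' > 0` are in `SaSet`

* `ain_one` : one strand as a system of four arms (helper4's `AIn`);
* **`sa_pt`** : one marked curve: native conditions (`NatL`), tube (`gX > 0`), foreign gates with their levels => `SaE`;
* **`sa_det`** : for almost every marked curve.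
-/

set_option autoImplicit false

open MeasureTheory Filter Topology Set unitInterval
open scoped ENNReal NNReal Classical BoundedContinuousFunction

namespace Pool.Agent.ROT.F3

open Pool.Agent.ROT.F3.CK Pool.Agent.ROT.F3.LF
open Pool.Agent.ROT.F3.C0K (XM)

/-! ### 1. One strand as a system of four -/

/-- `a` for the arm `fp`, else `b` -/
def oneA {α : Sort*} (a b : α) (k : Arm) : α :=
  match k with
  | .fp => a
  | .bq => b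
  | .fq => b
  | .bp => b

section one

variable {U : Filter ℕ} {b : ℝ} {PG : Measure CC.Gm} {A : ℕ → W3 × ℕ → Prop} {c g : ℕ → W3 × ℕ → ℕ} {B : Set CC.Gm}
  {Pc Pg : CC.Gm → ℝ}

lemma ai1_none (hC : Cv U (fun N => mwE N b) cN PG) (k : Arm) (c g : ℕ → W3 × ℕ → ℕ) :
    AI1 U b PG k (fun _ _ => False) c g ∅ (fun _ => 0) (fun _ => 0) := by
  have h0 : ∀ f : ℕ → W3 × ℕ → ℕ, Lm U (fun N => mwE N b) cN PG
      (fun N x => bi False * ((f N x : ℝ) / (arcw x.2 k x.1).length)) fun _ => 0 := by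
    intro f
    have e : (fun N x => bi False * ((f N x : ℝ) / (arcw x.2 k x.1).length)) = fun (_ : ℕ) (_ : W3 × ℕ) => (0 : ℝ) := by
      funext N x
      rw [bi_neg id, zero_mul]
    rw [e]
    exact Lm.const hC 0
  exact ⟨Ev.empty hC, h0 c, h0 g, Eventually.of_forall fun N x _ h => h.elim⟩

/-- **one strand as a system of four** -/
theorem ain_one (hC : Cv U (fun N => mwE N b) cN PG) (h : AI1 U b PG .fp A c g B Pc Pg) :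
    AIn U b PG (oneA A fun _ _ => False) (fun _ => c) (fun _ => g) (oneA B ∅) (oneA Pc fun _ => 0) (oneA Pg fun _ => 0) := by
  refine ain_iff.2 fun k => ?_
  cases k
  · exact h
  all_goals exact ai1_none hC _ c g

end one

/-! ### 2. One marked curve -/

private lemma rotX_ap (z : ℂ) (g : CC.Gm) (t : I) : (rotX z g).2.2 t = z * g.2.2 t := rfl

private lemma lv_back {u d z : ℂ} (hu : ‖u‖ = 1) : lv d (u⁻¹ * z) = lv (u * d) z := by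
  have h0 : u ≠ 0 := fun h => by rw [h, norm_zero] at hu; exact zero_ne_one hu
  have h1 : (starRingEnd ℂ) u = u⁻¹ := by
    rw [Complex.inv_def, Complex.normSq_eq_norm_sq, hu]
    simp
  unfold lv
  rw [map_mul, h1]
  congr 1
  ring

private lemma rtI_back {u d : ℂ} (hu : ‖u‖ = 1) {ρ : ℝ} {g : CC.Gm} {a b : I} (h : RtI d ρ (rotX u⁻¹ g).2.2 a b) :
    RtI (u * d) ρ g.2.2 a b := by
  intro v hv
  have h1 := h v hv
  rw [rotX_ap, rotX_ap, ← mul_sub, lv_back hu, norm_mul, norm_inv, hu, inv_one, one_mul] at h1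
  exact h1

section pt

variable {i : Fin 3} {u : ℂ} {E : En} {O : Ot} {Gd : Set CC.Gm} {mn : Prop} {B0 B1 : Set CC.Gm} {Pg0 Pc1 Pg1 : CC.Gm → ℝ}
  {ρ τ l1 dl C ρ1 r1 r1' ε : ℝ}

/-- **one marked curve** -/
theorem sa_pt (hρ : 0 < ρ) (hE : E.Ok ε) (h : E.Nr (bE ρ τ)) (hO : O.Nr (bO ρ τ)) (hu1 : ‖u‖ = 1) (hu : ‖u - 1‖ ≤ 1 / 10 ^ 11)
    (hl1 : 0 < l1) (hdl : 0 < dl) (hC : C ≤ E.lk) (hρ1 : E.f.r2 < ρ1) {y : XM}
    (hN : NatL (ev i) E.n O (1 / 1000000 * ρ) C y) (hB0 : y.1 ∈ B0) (hx : Pg0 y.1 * muG y.1 = y.2.1)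
    (hG : 0 < gX l1 (3 * l1) dl (36 * (1 / 1000000)) (((10 ^ 16 : ℕ) : ℝ) * (1 / 1000000)) ρ (ev i) y.1) (hGd : y.1 ∈ Gd)
    (hB1 : rotX u⁻¹ y.1 ∈ B1)
    (hun : 0 ≤ Pc1 (rotX u⁻¹ y.1) ∧ Pc1 (rotX u⁻¹ y.1) ≤ Pg1 (rotX u⁻¹ y.1) ∧ Pg1 (rotX u⁻¹ y.1) ≤ 1)
    (hfa : FaI (ev i) (E.f.l + lv (u * ev i) (y.1.2.2 (pji y.2.1))) E.f.m r1 r1' ρ1 E.f.rg (rotX u⁻¹ y.1).2.2 0
      (pji (saT1 u Pc1 y.1)) (pji (saT1 u Pg1 y.1)) (pji (muG y.1)))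
    (hc : lv (ev i) ((rotX u⁻¹ y.1).2.2 (pji (saT1 u Pc1 y.1))) ≤ E.n.l + E.n.m + E.f.l + 2 * (100 * (1 / 1000000) * ρ))
    (hx1 : lv (ev i) ((rotX u⁻¹ y.1).2.2 (pji (saT1 u Pg1 y.1))) ≤
      E.n.l + E.n.m + E.f.l + E.f.m + 2 * (100 * (1 / 1000000) * ρ)) :
    y ∈ SaSet Gd i u E mn (19500000 * ρ) B0 B1 Pg0 Pc1 Pg1 := by
  have hm0 := (muG_mem y.1).1
  have hm1 := (muG_mem y.1).2
  have l2 : E.n.l ≤ 101 / 100 * (1/2 * ρ) := h.n.l.2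
  have m2 : E.n.m ≤ 101 / 100 * (81/10 * ρ) := h.n.m.2
  have om2 : O.m ≤ 101 / 100 * (20000000 * ρ) := hO.m.2
  have r1' : 1 * ρ ≤ E.n.r := h.n.r.1
  have r2' : 41/2 * ρ ≤ E.n.r2 := h.n.r2.1
  -- the times
  have c0 : 0 ≤ saT1 u Pc1 y.1 := mul_nonneg hun.1 hm0
  have x0 : 0 ≤ saT1 u Pg1 y.1 := mul_nonneg (hun.1.trans hun.2.1) hm0
  have x1 : saT1 u Pg1 y.1 ≤ muG y.1 := mul_le_of_le_one_left hm0 hun.2.2
  have c1 : saT1 u Pc1 y.1 ≤ muG y.1 := (mul_le_mul_of_nonneg_right hun.2.1 hm0).trans x1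
  have ea : ((pji y.2.1 : I) : ℝ) = y.2.1 := pji_vv hN.t0 (hN.t01.trans hN.t11)
  have ey : ((pji y.2.2 : I) : ℝ) = y.2.2 := pji_vv (hN.t0.trans hN.t01) hN.t11
  have ez : ((pji (muG y.1) : I) : ℝ) = muG y.1 := pji_vv hm0 hm1
  have eb : ((pji (saT1 u Pc1 y.1) : I) : ℝ) = saT1 u Pc1 y.1 := pji_vv c0 (c1.trans hm1)
  have ec : ((pji (saT1 u Pg1 y.1) : I) : ℝ) = saT1 u Pg1 y.1 := pji_vv x0 (x1.trans hm1)
  -- the tube
  obtain ⟨hW, τ', hT⟩ := gX_pos (ev_norm i) hl1 (by linarith) hdl hρ (by norm_num) hG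
  have hT2 := tub_of hl1 hdl hρ hW hT
  obtain ⟨t', ht'⟩ : ∃ t' : I, t' = pji (τ' * muG y.1) := ⟨_, rfl⟩
  rw [← ht'] at hT2
  have hyτ : pji y.2.2 ≤ t' := by
    refine hN.le_tau hT2 ?_
    push_cast
    nlinarith
  have hxτ : pji y.2.1 ≤ t' := (monotone_projIcc _ hN.t01).trans hyτ
  have htip : TipY (ev i) E y := tipY_of hT2 (ev_norm i) hN.z hxτ hN.lx1 (by linarith) (by linarith)
  have hR : RoomT E O (E.n.l + E.n.m) (100 * (1 / 1000000) * ρ) (1 / 10 ^ 11)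
      ((((10 ^ 16 : ℕ) : ℝ) * (1 / 1000000) - 2 * (36 * (1 / 1000000))) * ρ) E.f.rg (19500000 * ρ) :=
    sa_roomT hρ h hO (by norm_num) le_rfl (by push_cast; nlinarith) le_rfl
  have key := fg_tubeA (mn := mn) (L := y.1.1) (g := y.1.2.2) (a := pji y.2.1) (b := pji (saT1 u Pc1 y.1))
    (c := pji (saT1 u Pg1 y.1)) (ty := pji y.2.2) (τ := t') (z := pji (muG y.1)) hE hR (ev_norm i) hu1 hu ?_ hN.z hT2 ?_ hyτ hN.lx0 ?_
    (fun v h1 h2 => hN.right v (by rw [← ea]; exact h1) (by rw [← ey]; exact h2)) hN.ly0 ?_ ?_ (fun v hv => ?_) (fun v hv => ?_)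
    (rtI_back hu1 hfa.rc) (rtI_back hu1 hfa.rx) ?_ hρ1 ?_ ?_ hN.pos.le ?_
  · obtain ⟨⟨o1, o2, o3⟩, -, -, hfp, hfar⟩ := key
    refine ⟨hN.pos, htip, hGd, hB0, hx, hN.t0, hN.t1, hB1, ?_, ?_, ?_, hfp, fun t h1 h2 => ?_⟩
    · rw [← ea, ← eb]
      exact o1
    · rw [← eb, ← ec]
      exact o2
    · rw [← ec, ← ey]
      exact o3
    · exact hfar t (by show ((pji y.2.2 : I) : ℝ) ≤ t; rw [ey]; exact h1) (by show (t : ℝ) ≤ (pji (muG y.1) : I); rw [ez]; exact h2)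
  · linarith
  · show ((pji y.2.1 : I) : ℝ) ≤ (pji y.2.2 : I)
    rw [ea, ey]
    exact hN.t01
  · have := hN.lx1
    linarith
  · have h1 := hfa.l
    rw [rotX_ap, rotX_ap, ← mul_sub, lv_back hu1] at h1
    exact h1
  · have h1 := hfa.m
    rw [rotX_ap, rotX_ap, ← mul_sub, lv_back hu1] at h1
    exact h1
  · have h1 := hfa.t0 v hv
    rw [rotX_ap, rotX_ap, lv_back hu1, lv_back hu1] at h1
    exact h1
  · have h1 := hfa.t1 v hv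
    rw [rotX_ap, rotX_ap, lv_back hu1, lv_back hu1] at h1
    exact h1
  · show ((pji (saT1 u Pg1 y.1) : I) : ℝ) ≤ (pji (muG y.1) : I)
    rw [ec, ez]
    exact x1
  · rw [rotX_ap, lv_back hu1] at hc
    exact hc
  · rw [rotX_ap, lv_back hu1] at hx1
    exact hx1
  · rw [ea, ey]
    exact hN.dur.trans hC

end pt

/-! ### 3. Almost every marked curve -/

/-- statements about almost every curve hold for almost every marked curve -/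
lemma ae_fst {T : Type*} [MeasurableSpace T] {PG : Measure CC.Gm} {M : Measure (CC.Gm × T)} (hM : M.map Prod.fst ≤ PG)
    {Q : CC.Gm → Prop} (h : ∀ᵐ g ∂PG, Q g) : ∀ᵐ y ∂M, Q y.1 :=
  ae_of_ae_map measurable_fst.aemeasurable ((Measure.absolutelyContinuous_of_le hM).ae_le h)

section det

variable {U : Ultrafilter ℕ} {i : Fin 3} {u : ℂ} {E : En} {O : Ot} {Gd : Set CC.Gm} {mn : Prop} {B0 B1 : Set CC.Gm}
  {Pc0 Pg0 Pc1 Pg1 : CC.Gm → ℝ} {ρ τ l1 dl C ε b cd : ℝ} {G0 G1 : GP} {y' : ℕ → W3 × ℕ → ℝ} {Λ : CC.Gm → ℝ} {PG : Measure CC.Gm}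
  {M : Measure XM} {J0 : CC.Gm → ℝ}

/-- **almost every marked curve with `G > 0` and `J0' > 0` is in `SaSet`** -/
theorem sa_det (hρ : 0 < ρ) (hE : E.Ok ε) (h : E.Nr (bE ρ τ)) (hO : O.Nr (bO ρ τ)) (hu1 : ‖u‖ = 1) (hu : ‖u - 1‖ ≤ 1 / 10 ^ 11)
    (hl1 : 0 < l1) (hdl : 0 < dl) (hC : C ≤ E.lk) (hI : OneIn (U : Filter ℕ) b PG i u E cd Gd G0 G1 y' Λ B0 B1 Pc0 Pg0 Pc1 Pg1)
    (inv : PG.map (rotX u) = PG) (hM : M.map Prod.fst ≤ PG)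
    (hN : ∀ᵐ y ∂M, NatL (ev i) E.n O (1 / 1000000 * ρ) C y) (hx : ∀ᵐ y ∂M, y.1 ∈ B0 ∧ Pg0 y.1 * muG y.1 = y.2.1)
    (hdet : ∀ᵐ g ∂PG, 0 < gX l1 (3 * l1) dl (36 * (1 / 1000000)) (((10 ^ 16 : ℕ) : ℝ) * (1 / 1000000)) ρ (ev i) g →
      0 < J0 (rotX u⁻¹ g) → E.n.l + E.n.m - 2 * (1 / 1000000 * ρ) < Λ (rotX u⁻¹ g) →
      Λ (rotX u⁻¹ g) < E.n.l + E.n.m + 22 * (1 / 1000000 * ρ) → rotX u⁻¹ g ∈ B1 ∧
      lv (ev i) ((rotX u⁻¹ g).2.2 (pji (saT1 u Pc1 g))) ≤ E.n.l + E.n.m + E.f.l + 102 * (1 / 1000000 * ρ) ∧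
      lv (ev i) ((rotX u⁻¹ g).2.2 (pji (saT1 u Pg1 g))) ≤ E.n.l + E.n.m + E.f.l + E.f.m + 182 * (1 / 1000000 * ρ))
    {G : CC.Gm → ℝ} (hG : ∀ g ∈ B0, 0 < G g → 0 < gX l1 (3 * l1) dl (36 * (1 / 1000000)) (((10 ^ 16 : ℕ) : ℝ) * (1 / 1000000)) ρ (ev i) g ∧
      (‖g.2.2 (pji (Pg0 g * muG g))‖ ≤ 20 * ρ →
        E.n.l + E.n.m - 2 * (1 / 1000000 * ρ) < lv (u * ev i) (g.2.2 (pji (Pg0 g * muG g))) ∧
        lv (u * ev i) (g.2.2 (pji (Pg0 g * muG g))) < E.n.l + E.n.m + 22 * (1 / 1000000 * ρ))) :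
    ∀ᵐ y ∂M, 0 < G y.1 → 0 < J0 (rotX u⁻¹ y.1) → y ∈ SaSet Gd i u E mn (19500000 * ρ) B0 B1 Pg0 Pc1 Pg1 := by
  have l2 : E.n.l ≤ 101 / 100 * (1/2 * ρ) := h.n.l.2
  have m2 : E.n.m ≤ 101 / 100 * (81/10 * ρ) := h.n.m.2
  filter_upwards [hN, hx, ae_fst hM hdet, ae_fst hM hI.lv, ae_fst hM (ae_back hu1 inv hI.fa), ae_fst hM (ae_back hu1 inv hI.un1),
    ae_fst hM hI.aeGd] with y n1 n2 n3 n4 n5 n6 n7 a1 a2
  obtain ⟨b1, b2⟩ := n2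
  obtain ⟨g1, g2⟩ := hG _ b1 a1
  have e1 : lv (u * ev i) (y.1.2.2 (pji (Pg0 y.1 * muG y.1))) = Λ (rotX u⁻¹ y.1) := (n4 b1).symm
  rw [b2] at e1 g2
  have hn : ‖y.1.2.2 (pji y.2.1)‖ ≤ 20 * ρ := by
    have q1 := n1.nx
    have q2 := n1.lx1
    linarith
  obtain ⟨g3, g4⟩ := g2 hn
  rw [e1] at g3 g4
  obtain ⟨d1, d2, d3⟩ := n3 g1 a2 g3 g4
  have hfa := n5 d1
  rw [← e1] at hfa
  exact sa_pt hρ hE h hO hu1 hu hl1 hdl hC hI.r1 n1 b1 b2 g1 n7 d1 (n6 d1) hfa (by linarith) (by linarith)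

end det

end Pool.Agent.ROT.F3
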