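import Pool.Agent.ROT.F3Seam0
import Pool.Agent.ROT.F3CoreS
import Pool.Agent.ROT.F3CoreK

/-!
# ROT, F3, row Core (helper4): the first lattice for one pair of classes

* `z0E_sub` : the cells `Z0E` are inside of the balls of the lower bounds of the weights;
* **`zero_fin`** : the fields `fin`, `d0`, `hp` of `PairIn` for the pair of classes `i ≠ j` on the first lattice, from the limits of the
  indicator and of the marks, the limits of the rests, and the lower bound of the masses of the start pairs (LT, helper89).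
-/

set_option autoImplicit false
set_option linter.unusedSectionVars false

namespace Pool.Agent.ROT.F3.CK

open MeasureTheory Filter Topology Set

open scoped NNReal ENNReal Classical

open Pool.Agent.ROT.F3 Pool.Agent.ROT.F3.CC Pool.Agent.ROT.F3.LF Pool.Agent.ROT.F3L Pool.Agent.ROT.F3E

private lemma ev_sub_norm (i j : Fin 3) : ‖ev j - ev i‖ ≤ 2 := by
  refine (norm_sub_le _ _).trans ?_
  rw [ev_norm, ev_norm]
  norm_num

/-- **the cells of the relative positions are inside of the balls of the lower bounds** -/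
private lemma z0E_sub {i j : Fin 3} {E : En} {h ρ : ℝ} (hz : |h - E.kc - E.n.m| * 2 + ρ ≤ E.n.m / 8) :
    Z0E (ev i) (ev j) E h ρ ⊆ Metric.ball (-((1 : ℂ) * ((E.n.m : ℂ) * (ev i - ev j)))) (E.n.m / 8) := by
  intro x hx
  unfold Z0E at hx
  rw [Metric.mem_ball, dist_eq_norm] at hx ⊢
  have e1 : x - -((1 : ℂ) * ((E.n.m : ℂ) * (ev i - ev j))) =
      (x - ((h - E.kc : ℝ) : ℂ) * (ev j - ev i)) + ((h - E.kc - E.n.m : ℝ) : ℂ) * (ev j - ev i) := by
    push_cast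
    ring
  have e2 : ‖((h - E.kc - E.n.m : ℝ) : ℂ) * (ev j - ev i)‖ ≤ |h - E.kc - E.n.m| * 2 := by
    rw [norm_mul, Complex.norm_real, Real.norm_eq_abs]
    exact mul_le_mul_of_nonneg_left (ev_sub_norm i j) (abs_nonneg _)
  rw [e1]
  calc ‖(x - ((h - E.kc : ℝ) : ℂ) * (ev j - ev i)) + ((h - E.kc - E.n.m : ℝ) : ℂ) * (ev j - ev i)‖
      ≤ ‖x - ((h - E.kc : ℝ) : ℂ) * (ev j - ev i)‖ + ‖((h - E.kc - E.n.m : ℝ) : ℂ) * (ev j - ev i)‖ := norm_add_le _ _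
    _ < ρ + |h - E.kc - E.n.m| * 2 := add_lt_add_of_lt_of_le hx e2
    _ ≤ E.n.m / 8 := by linarith

private lemma wnd_or (P : Prm) (a : Fin 3) : wnd P a = P.W ∨ wnd P a = P.Wc := by
  by_cases h : a = 0
  · subst h
    exact Or.inl (wnd_zero P)
  · exact Or.inr (wnd_ne P h)

/-- **the first lattice for the pair `i ≠ j`** : the fields `fin`, `d0`, `hp` of `PairIn` -/
theorem zero_fin (hQB : Pool.Agent.ROT.F.QB) {ζ : ℝ} (hζ : 0 < ζ) : ∃ A : ℝ, 0 < A ∧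
    ∀ {V : Ultrafilter ℕ}, (V : Filter ℕ) ≤ atTop → ∀ {L : ℝ} {PG : Measure CC.Gm}, Cv (V : Filter ℕ) (fun N => mwE N L) cN PG →
    (∀ᵐ y ∂PG, 0 < y.2.1 ∧ y.2.1 < y.1) → ∀ {P : Prm}, P.Ok → NumT ζ A P.p.n → NumT ζ A P.q.n → GnQ V P.p.n →
    ∀ {β b : Fin 3 → Measure Pie}, ClsL V P β b → ∀ {i j : Fin 3}, i ≠ j →
    (D0 P i j (wnd P i) (wnd P j)).len ≤ L →
    (∃ c : ℝ, 0 < c ∧ ∀ᶠ N : ℕ in (V : Filter ℕ),
      ENNReal.ofReal (c * tn N) ≤ totQ (ev i) (ev j) P.p.n P.p.n N (uT N) fun _ => 1) →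
    (∃ c : ℝ, 0 < c ∧ ∀ᶠ N : ℕ in (V : Filter ℕ),
      ENNReal.ofReal (c * tn N) ≤ totQ (ev (-i)) (ev (-j)) P.q.n P.q.n N (uT N) fun _ => 1) →
    ∀ {E0 : CC.Gm → ℝ}, (∀ g, 0 ≤ E0 g) →
    Lm (V : Filter ℕ) (fun N => mwE N L) cN PG (fun N x => eW ((D0 P i j (wnd P i) (wnd P j)).C N (uT N))
      ((D0 P i j (wnd P i) (wnd P j)).C' N (uT N)) (rcl P i N) (rcl P j N) x) E0 →
    ∀ {Φ0 : CC.Gm → Fin 8 → ℝ},
    (∀ k, Lm (V : Filter ℕ) (fun N => mwE N L) cN PG (fun N x => mkt (D0 P i j (wnd P i) (wnd P j)) N (uT N) x k)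
      fun g => Φ0 g k) →
    ∀ {h ρ h' ρ' : ℝ}, |h - P.p.kc - P.p.n.m| * 2 + ρ ≤ P.p.n.m / 8 → |h' - P.q.kc - P.q.n.m| * 2 + ρ' ≤ P.q.n.m / 8 →
    IsFiniteMeasure ((PG.withDensity fun g => ENNReal.ofReal (E0 g)).map (dat Φ0)) ∧
    Den ((PG.withDensity fun g => ENNReal.ofReal (E0 g)).map (dat Φ0)) ((β i).prod ((β j).prod volume))
      (DD Prod.fst Prod.fst yP yP (Z0E (ev i) (ev j) P.p h ρ) (Z0E (ev (-i)) (ev (-j)) P.q h' ρ')) (zw yP yP) (fun _ => 1) ∧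
    ((β i).prod ((β j).prod volume)).restrict
      (DD Prod.fst Prod.fst yP yP (Z0E (ev i) (ev j) P.p h ρ) (Z0E (ev (-i)) (ev (-j)) P.q h' ρ')) ≪
      ((PG.withDensity fun g => ENNReal.ofReal (E0 g)).map (dat Φ0)).map Prod.snd := by
  obtain ⟨x0, A, hx0, hA, H0⟩ := all_dt hQB hζ
  refine ⟨A, hA, ?_⟩
  intro V hV L PG hC hP P ok nP nQ hG β b H i j hij hL lp lq E0 h0 he Φ0 hΦ h ρ h' ρ' hz hz'
  obtain ⟨D, hD⟩ : ∃ D : Dt, D = D0 P i j (wnd P i) (wnd P j) := ⟨_, rfl⟩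
  have okD : D.Ok := by
    rw [hD]
    exact D0_ok ok hij (wnd_or P i) (wnd_or P j)
  have dir : D.Dir i j := by
    rw [hD]
    exact D0_dir _ _ _ _ _
  have eP : D.P = P.p.n := by rw [hD]; rfl
  have eQ : D.Q = P.q.n := by rw [hD]; rfl
  obtain ⟨⟨C0, hC0, hup⟩, hlp, hlq⟩ := H0 hij D okD dir (by rw [eP]; exact nP) (by rw [eQ]; exact nQ)
  obtain ⟨cp, hcp, lp⟩ := lp
  obtain ⟨cq, hcq, lq⟩ := lq
  have etp : D.msP = fun N : ℕ => totQ (ev i) (ev j) P.p.n P.p.n N (uT N) fun _ => 1 := by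
    funext N
    rw [hD]
    show totQ (ev i) (ev j) (P.p.n.up 0) (P.p.n.up 0) N (uT N) (fun _ => 1) = _
    rw [Tp.up_zero]
  have etq : D.msQ = fun N : ℕ => totQ (ev (-i)) (ev (-j)) P.q.n P.q.n N (uT N) fun _ => 1 := by
    funext N
    rw [hD]
    show totQ (ev (-i)) (ev (-j)) (P.q.n.up 0) (P.q.n.up 0) N (uT N) (fun _ => 1) = _
    rw [Tp.up_zero]
  have lp' : ∀ᶠ N : ℕ in (V : Filter ℕ), ENNReal.ofReal (cp * tn N) ≤ D.msP N := by
    rw [etp]
    exact lp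
  have lq' : ∀ᶠ N : ℕ in (V : Filter ℕ), ENNReal.ofReal (cq * tn N) ≤ D.msQ N := by
    rw [etq]
    exact lq
  have upP := nrm_up hV (tq_ne D) hcq hC0.le lq' (hV hup)
  have upQ := nrm_up (a := D.msQ) (b := D.msP) hV (tp_ne D) hcp hC0.le lp' (by
    filter_upwards [hV hup] with N hN
    rw [mul_comm]
    exact hN)
  obtain ⟨bA, βA, eA, mA, tA⟩ := H.rN ok hV 1 i
  obtain ⟨bB, βB, eB, mB, tB⟩ := H.rN ok hV 1 j
  rw [map_trn_one] at mA mB
  have hL3 : L3In (V : Filter ℕ) D L (fun N => D.C N (uT N)) (fun N => D.C' N (uT N)) (rcl P i) (rcl P j) (fun _ _ => 1)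
      (fun _ _ => 1) (fun _ _ => 1) (fun _ _ => 1)
      (fun N => w1 (D.C N (uT N)) (D.C' N (uT N)) (rcl P i N) (rcl P j N)) (fun N => mdt 1 D N) (kP D 1) (kQ D 1) 1 tn
      D.msP D.msQ (C0 / cq) (BQ D.P) (rQ D.P D.P) (C0 / cp) (BQ D.Q) bA bB :=
    l3_dt hV okD hij dir (by rw [eP]; exact hG) (by rw [hD]; exact hL)
      (fun N => by rw [hD]; exact subset_rfl) (fun N => by rw [hD]; exact subset_rfl) norm_one (tn_pos hV)
      (div_nonneg hC0.le hcq.le) (div_nonneg hC0.le hcp.le) upP (nrm_q hV upQ) eA eB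
  have n1 : βA ≠ 0 := by
    intro e
    refine H.nβ i ?_
    rw [← mA, e]
    rfl
  have n2 : βB ≠ 0 := by
    intro e
    refine H.nβ j ?_
    rw [← mB, e]
    rfl
  have hPz : PG.map (rotX 1) = PG := by
    have e : rotX (1 : ℂ) = id := by
      funext y
      have := rotX_one_inv y
      rwa [inv_one] at this
    rw [e, Measure.map_id]
  have hm := okD.P.m
  have hm' := okD.Q.m
  have key := zero_prm hC hP (z := 1) norm_one hPz hV hL3 tA tB n1 n2 (Ei := E0) h0 (by rw [hD]; exact he) (Φ := Φ0)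
    (by rw [hD]; exact hΦ) (z0E_open (ev i) (ev j) P.p h ρ) (z0E_open (ev (-i)) (ev (-j)) P.q h' ρ')
    (x0 := x0 / D.P.m ^ 2) (x1 := x0 / D.Q.m ^ 2) (c0 := cp) (c1 := cq) (by positivity) hcp (by positivity) hcq
    (nrm_lo (tp_ne D) lp') (by
      filter_upwards [hV (hlp 1 norm_one)] with N hN y hy hyZ
      refine hN y hy ?_
      have := z0E_sub hz hyZ
      rw [eP]
      exact this)
    (nrm_q' hV (nrm_lo (tq_ne D) lq')) (by
      filter_upwards [hV (hlq 1 norm_one)] with N hN y hy hyZ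
      refine hN y hy ?_
      have := z0E_sub hz' hyZ
      rw [eQ]
      exact this)
  have ew : wZ 1 E0 = fun g => ENNReal.ofReal (E0 g) := by
    funext g
    exact wZ_one E0 g
  have et : tZ 1 Φ0 = Φ0 := by
    funext g
    exact tZ_one Φ0 g
  rw [ew, et, mA, mB] at key
  exact key

end Pool.Agent.ROT.F3.CK
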