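import Mathlib

/-!
# ROT / F3Sel (helper72): the selection of the displacements

`sel` : three families of masses `x s`, `y t`, `z r` on the first lattice and `x' s`, `y' t`, `z' r` on the second one, pair
masses which are at least `K x y` on the first lattice and at most `G x' y'` on the second one: there is one triple `(s, t, r)`
with all three factors `G` at least `κ`.
-/

set_option autoImplicit false

namespace Pool.Agent.ROT.F3A

open Finset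

/-- the mass of the bad pairs -/
lemma bad_mass {S T : Type*} (Ss : Finset S) (Ts : Finset T) {x x' : S → ℝ} {y y' : T → ℝ} {p g : S → T → ℝ} {K κ τ C : ℝ}
    (hx : ∀ s ∈ Ss, 0 ≤ x s) (hx' : ∀ s ∈ Ss, 0 ≤ x' s) (hy' : ∀ t ∈ Ts, 0 ≤ y' t) (hκ : 0 ≤ κ) (hτ : 0 ≤ τ)
    (hlo : ∀ s ∈ Ss, ∀ t ∈ Ts, K * (x s * y t) ≤ p s t + τ) (hhi : ∀ s ∈ Ss, ∀ t ∈ Ts, p s t ≤ g s t * (x' s * y' t) + τ)
    (hX' : ∑ s ∈ Ss, x' s ≤ C) (hY' : ∑ t ∈ Ts, y' t ≤ C) :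
    K * ∑ s ∈ Ss, ∑ t ∈ Ts, (if g s t < κ then x s * y t else 0) ≤ κ * (C * C) + 2 * τ * (Ss.card * Ts.card) := by
  classical
  have hX0 : 0 ≤ ∑ s ∈ Ss, x' s := sum_nonneg hx'
  have hY0 : 0 ≤ ∑ t ∈ Ts, y' t := sum_nonneg hy'
  have h1 : ∀ s ∈ Ss, ∀ t ∈ Ts, K * (if g s t < κ then x s * y t else 0) ≤ κ * (x' s * y' t) + 2 * τ := by
    intro s hs t ht
    have h0 : 0 ≤ x' s * y' t := mul_nonneg (hx' s hs) (hy' t ht)
    split_ifs with h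
    · have a := hlo s hs t ht
      have b := hhi s hs t ht
      have c : g s t * (x' s * y' t) ≤ κ * (x' s * y' t) := mul_le_mul_of_nonneg_right h.le h0
      linarith
    · rw [mul_zero]
      have := mul_nonneg hκ h0
      linarith
  calc K * ∑ s ∈ Ss, ∑ t ∈ Ts, (if g s t < κ then x s * y t else 0)
      = ∑ s ∈ Ss, ∑ t ∈ Ts, K * (if g s t < κ then x s * y t else 0) := by
        rw [mul_sum]
        exact sum_congr rfl fun s _ => mul_sum _ _ _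
    _ ≤ ∑ s ∈ Ss, ∑ t ∈ Ts, (κ * (x' s * y' t) + 2 * τ) := sum_le_sum fun s hs => sum_le_sum fun t ht => h1 s hs t ht
    _ = κ * ((∑ s ∈ Ss, x' s) * ∑ t ∈ Ts, y' t) + 2 * τ * (Ss.card * Ts.card) := by
        rw [sum_mul_sum, mul_sum]
        simp only [sum_add_distrib, sum_const, nsmul_eq_mul, mul_sum]
        ring
    _ ≤ κ * (C * C) + 2 * τ * (Ss.card * Ts.card) := by
        have : (∑ s ∈ Ss, x' s) * ∑ t ∈ Ts, y' t ≤ C * C := mul_le_mul hX' hY' hY0 (hX0.trans hX')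
        have := mul_le_mul_of_nonneg_left this hκ
        linarith

/-- **the selection** -/
theorem sel {S T R : Type*} (Ss : Finset S) (Ts : Finset T) (Rs : Finset R) {x x' : S → ℝ} {y y' : T → ℝ} {z z' : R → ℝ}
    {p g12 : S → T → ℝ} {q g13 : S → R → ℝ} {r g23 : T → R → ℝ} {K κ τ C m : ℝ} {n : ℕ}
    (hx : ∀ s ∈ Ss, 0 ≤ x s) (hy : ∀ t ∈ Ts, 0 ≤ y t) (hz : ∀ i ∈ Rs, 0 ≤ z i)
    (hx' : ∀ s ∈ Ss, 0 ≤ x' s) (hy' : ∀ t ∈ Ts, 0 ≤ y' t) (hz' : ∀ i ∈ Rs, 0 ≤ z' i) (hK : 0 < K) (hκ : 0 ≤ κ) (hτ : 0 ≤ τ)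
    (hm : 0 ≤ m) (hcS : Ss.card ≤ n) (hcT : Ts.card ≤ n) (hcR : Rs.card ≤ n)
    (lo12 : ∀ s ∈ Ss, ∀ t ∈ Ts, K * (x s * y t) ≤ p s t + τ) (hi12 : ∀ s ∈ Ss, ∀ t ∈ Ts, p s t ≤ g12 s t * (x' s * y' t) + τ)
    (lo13 : ∀ s ∈ Ss, ∀ t ∈ Rs, K * (x s * z t) ≤ q s t + τ) (hi13 : ∀ s ∈ Ss, ∀ t ∈ Rs, q s t ≤ g13 s t * (x' s * z' t) + τ)
    (lo23 : ∀ s ∈ Ts, ∀ t ∈ Rs, K * (y s * z t) ≤ r s t + τ) (hi23 : ∀ s ∈ Ts, ∀ t ∈ Rs, r s t ≤ g23 s t * (y' s * z' t) + τ)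
    (hX : ∑ s ∈ Ss, x s ≤ C) (hY : ∑ t ∈ Ts, y t ≤ C) (hZ : ∑ i ∈ Rs, z i ≤ C)
    (hX' : ∑ s ∈ Ss, x' s ≤ C) (hY' : ∑ t ∈ Ts, y' t ≤ C) (hZ' : ∑ i ∈ Rs, z' i ≤ C)
    (mX : m ≤ ∑ s ∈ Ss, x s) (mY : m ≤ ∑ t ∈ Ts, y t) (mZ : m ≤ ∑ i ∈ Rs, z i)
    (hs : 3 * C * (κ * (C * C) + 2 * τ * (n * n)) < K * m ^ 3) :
    ∃ s ∈ Ss, ∃ t ∈ Ts, ∃ i ∈ Rs, κ ≤ g12 s t ∧ κ ≤ g13 s i ∧ κ ≤ g23 t i := by
  classical
  by_contra hcon
  push Not at hcon
  have b12 := bad_mass Ss Ts hx hx' hy' hκ hτ lo12 hi12 hX' hY'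
  have b13 := bad_mass Ss Rs hx hx' hz' hκ hτ lo13 hi13 hX' hZ'
  have b23 := bad_mass Ts Rs hy hy' hz' hκ hτ lo23 hi23 hY' hZ'
  have hC : 0 ≤ C := (sum_nonneg hx).trans hX
  set B12 := ∑ s ∈ Ss, ∑ t ∈ Ts, (if g12 s t < κ then x s * y t else 0) with hB12
  set B13 := ∑ s ∈ Ss, ∑ t ∈ Rs, (if g13 s t < κ then x s * z t else 0) with hB13
  set B23 := ∑ s ∈ Ts, ∑ t ∈ Rs, (if g23 s t < κ then y s * z t else 0) with hB23
  have n12 : 0 ≤ B12 := sum_nonneg fun s hs => sum_nonneg fun t ht => by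
    split_ifs
    · exact mul_nonneg (hx s hs) (hy t ht)
    · exact le_rfl
  have n13 : 0 ≤ B13 := sum_nonneg fun s hs => sum_nonneg fun t ht => by
    split_ifs
    · exact mul_nonneg (hx s hs) (hz t ht)
    · exact le_rfl
  have n23 : 0 ≤ B23 := sum_nonneg fun s hs => sum_nonneg fun t ht => by
    split_ifs
    · exact mul_nonneg (hy s hs) (hz t ht)
    · exact le_rfl
  -- every triple is bad
  have hall : (∑ s ∈ Ss, x s) * (∑ t ∈ Ts, y t) * (∑ i ∈ Rs, z i) ≤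
      B12 * (∑ i ∈ Rs, z i) + B13 * (∑ t ∈ Ts, y t) + B23 * (∑ s ∈ Ss, x s) := by
    have e0 : (∑ s ∈ Ss, x s) * (∑ t ∈ Ts, y t) * (∑ i ∈ Rs, z i) = ∑ s ∈ Ss, ∑ t ∈ Ts, ∑ i ∈ Rs, x s * y t * z i := by
      rw [sum_mul_sum, sum_mul]
      refine sum_congr rfl fun s _ => ?_
      rw [sum_mul]
      exact sum_congr rfl fun t _ => mul_sum _ _ _
    have e1 : B12 * (∑ i ∈ Rs, z i) = ∑ s ∈ Ss, ∑ t ∈ Ts, ∑ i ∈ Rs, (if g12 s t < κ then x s * y t else 0) * z i := by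
      rw [hB12, sum_mul]
      refine sum_congr rfl fun s _ => ?_
      rw [sum_mul]
      exact sum_congr rfl fun t _ => mul_sum _ _ _
    have e2 : B13 * (∑ t ∈ Ts, y t) = ∑ s ∈ Ss, ∑ t ∈ Ts, ∑ i ∈ Rs, (if g13 s i < κ then x s * z i else 0) * y t := by
      rw [hB13, sum_mul]
      refine sum_congr rfl fun s _ => ?_
      rw [sum_mul_sum, sum_comm]
    have e3 : B23 * (∑ s ∈ Ss, x s) = ∑ s ∈ Ss, ∑ t ∈ Ts, ∑ i ∈ Rs, (if g23 t i < κ then y t * z i else 0) * x s := by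
      rw [hB23, mul_comm, sum_mul]
      refine sum_congr rfl fun s _ => ?_
      rw [mul_sum]
      refine sum_congr rfl fun t _ => ?_
      rw [mul_sum]
      exact sum_congr rfl fun i _ => mul_comm _ _
    rw [e0, e1, e2, e3, ← sum_add_distrib, ← sum_add_distrib]
    refine sum_le_sum fun s hs => ?_
    rw [← sum_add_distrib, ← sum_add_distrib]
    refine sum_le_sum fun t ht => ?_
    rw [← sum_add_distrib, ← sum_add_distrib]
    refine sum_le_sum fun i hi => ?_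
    have hxs := hx s hs
    have hyt := hy t ht
    have hzi := hz i hi
    have hc := hcon s hs t ht i hi
    by_cases c1 : g12 s t < κ
    · rw [if_pos c1]
      have : 0 ≤ (if g13 s i < κ then x s * z i else 0) * y t := by split_ifs <;> positivity
      have : 0 ≤ (if g23 t i < κ then y t * z i else 0) * x s := by split_ifs <;> positivity
      linarith
    · rw [if_neg c1, zero_mul, zero_add]
      by_cases c2 : g13 s i < κ
      · rw [if_pos c2]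
        have : 0 ≤ (if g23 t i < κ then y t * z i else 0) * x s := by split_ifs <;> positivity
        nlinarith
      · rw [if_neg c2, zero_mul, zero_add, if_pos (hc (not_lt.1 c1) (not_lt.1 c2))]
        exact le_of_eq (by ring)
  have hm3 : m ^ 3 ≤ (∑ s ∈ Ss, x s) * (∑ t ∈ Ts, y t) * (∑ i ∈ Rs, z i) := by
    have h1 : m * m ≤ (∑ s ∈ Ss, x s) * (∑ t ∈ Ts, y t) := mul_le_mul mX mY hm (hm.trans mX)
    have h2 : m * m * m ≤ (∑ s ∈ Ss, x s) * (∑ t ∈ Ts, y t) * (∑ i ∈ Rs, z i) :=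
      mul_le_mul h1 mZ hm ((mul_nonneg hm hm).trans h1)
    calc m ^ 3 = m * m * m := by ring
      _ ≤ _ := h2
  have cc : ∀ a b : ℕ, a ≤ n → b ≤ n → 2 * τ * ((a : ℝ) * b) ≤ 2 * τ * (n * n) := by
    intro a b ha hb
    have h1 : (a : ℝ) * b ≤ n * n := mul_le_mul (by exact_mod_cast ha) (by exact_mod_cast hb) (by positivity) (by positivity)
    exact mul_le_mul_of_nonneg_left h1 (by positivity)
  have w12 : K * (B12 * ∑ i ∈ Rs, z i) ≤ C * (κ * (C * C) + 2 * τ * (n * n)) := by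
    calc K * (B12 * ∑ i ∈ Rs, z i) ≤ K * (B12 * C) := mul_le_mul_of_nonneg_left (mul_le_mul_of_nonneg_left hZ n12) hK.le
      _ = C * (K * B12) := by ring
      _ ≤ C * (κ * (C * C) + 2 * τ * (n * n)) := mul_le_mul_of_nonneg_left (by have := cc _ _ hcS hcT; linarith) hC
  have w13 : K * (B13 * ∑ t ∈ Ts, y t) ≤ C * (κ * (C * C) + 2 * τ * (n * n)) := by
    calc K * (B13 * ∑ t ∈ Ts, y t) ≤ K * (B13 * C) := mul_le_mul_of_nonneg_left (mul_le_mul_of_nonneg_left hY n13) hK.le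
      _ = C * (K * B13) := by ring
      _ ≤ C * (κ * (C * C) + 2 * τ * (n * n)) := mul_le_mul_of_nonneg_left (by have := cc _ _ hcS hcR; linarith) hC
  have w23 : K * (B23 * ∑ s ∈ Ss, x s) ≤ C * (κ * (C * C) + 2 * τ * (n * n)) := by
    calc K * (B23 * ∑ s ∈ Ss, x s) ≤ K * (B23 * C) := mul_le_mul_of_nonneg_left (mul_le_mul_of_nonneg_left hX n23) hK.le
      _ = C * (K * B23) := by ring
      _ ≤ C * (κ * (C * C) + 2 * τ * (n * n)) := mul_le_mul_of_nonneg_left (by have := cc _ _ hcT hcR; linarith) hC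
  have := mul_le_mul_of_nonneg_left (hm3.trans hall) hK.le
  rw [mul_add, mul_add] at this
  linarith

end Pool.Agent.ROT.F3A
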