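import Mathlib

/-!
# ROT, F3 (B), row W8 (S) (helper86): the foreign gate is free for small rotations

`f` = the native gate functional (discrete), `φ`, `φ'` = functionals of the curve `x s` which approximate it in the mean (tolerances
`ε`, `ε'`), `z • γ` = the rotated curve. The functional of the gate of the ROTATED lattice is `γ ↦ φ' (z⁻¹ • γ)`.

* `small_num`, `joint_num` : the inequalities for fixed weights;
* **`small_seq`** : for rotations close to 1, uniformly in a family `ι` (the scales), the rotated approximation of ANY tolerance `ε'`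
  is close to the native gate, if the laws are asymptotically invariant under `z⁻¹` (`RotP`);
* **`joint_seq`** : so `native gate × foreign gate` has a mass bounded below, with a bound which does not depend on the tolerance;
* `small_tight` : `small_seq` with tightness instead of a moment; `bad_num` : Markov, `P(native gate, no foreign gate) ≤ 2 δ`;
* **`small_lim`** : the same for limit laws.
-/

set_option autoImplicit false

open Filter Topology Finset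

namespace Pool.Agent.ROT.F3

section num

variable {Ω X : Type*} {S : Finset Ω} {w f : Ω → ℝ} {x : Ω → X} {R : X → X} {φ φ' : X → ℝ}

/-- the foreign approximation of any tolerance is close to the native gate -/
theorem small_num (hw : ∀ s ∈ S, 0 ≤ w s) {ε ε' η κ : ℝ} (h1 : ∑ s ∈ S, w s * |f s - φ (x s)| ≤ ε)
    (h2 : ∑ s ∈ S, w s * |f s - φ' (x s)| ≤ ε')
    (h3 : ∑ s ∈ S, w s * |φ' (R (x s)) - φ (R (x s))| ≤ ∑ s ∈ S, w s * |φ' (x s) - φ (x s)| + η)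
    (h4 : ∑ s ∈ S, w s * |φ (R (x s)) - φ (x s)| ≤ κ) :
    ∑ s ∈ S, w s * |f s - φ' (R (x s))| ≤ 2 * ε + ε' + η + κ := by
  have h5 : ∑ s ∈ S, w s * |φ' (x s) - φ (x s)| ≤ ε' + ε := by
    calc ∑ s ∈ S, w s * |φ' (x s) - φ (x s)|
        ≤ ∑ s ∈ S, (w s * |f s - φ' (x s)| + w s * |f s - φ (x s)|) := by
          refine Finset.sum_le_sum fun s hs => ?_
          rw [← mul_add]
          refine mul_le_mul_of_nonneg_left ?_ (hw s hs)
          calc |φ' (x s) - φ (x s)| = |(f s - φ (x s)) - (f s - φ' (x s))| := by ring_nf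
            _ ≤ |f s - φ (x s)| + |f s - φ' (x s)| := abs_sub _ _
            _ = _ := add_comm _ _
      _ ≤ ε' + ε := by
          rw [Finset.sum_add_distrib]
          exact add_le_add h2 h1
  calc ∑ s ∈ S, w s * |f s - φ' (R (x s))|
      ≤ ∑ s ∈ S, (w s * |f s - φ (x s)| + w s * |φ (R (x s)) - φ (x s)| + w s * |φ' (R (x s)) - φ (R (x s))|) := by
        refine Finset.sum_le_sum fun s hs => ?_
        rw [← mul_add, ← mul_add]
        refine mul_le_mul_of_nonneg_left ?_ (hw s hs)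
        calc |f s - φ' (R (x s))|
            = |(f s - φ (x s)) - (φ (R (x s)) - φ (x s)) - (φ' (R (x s)) - φ (R (x s)))| := by ring_nf
          _ ≤ |(f s - φ (x s)) - (φ (R (x s)) - φ (x s))| + |φ' (R (x s)) - φ (R (x s))| := abs_sub _ _
          _ ≤ _ := by
              gcongr
              exact abs_sub _ _
    _ ≤ ε + κ + (ε' + ε + η) := by
        rw [Finset.sum_add_distrib, Finset.sum_add_distrib]
        exact add_le_add (add_le_add h1 h4) (h3.trans (add_le_add h5 le_rfl))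
    _ = _ := by ring

/-- native gate × foreign gate -/
theorem joint_num (hw : ∀ s ∈ S, 0 ≤ w s) {g : Ω → ℝ} (hg0 : ∀ s ∈ S, 0 ≤ g s) (hg1 : ∀ s ∈ S, g s ≤ 1) {p δ : ℝ}
    (hp : p ≤ ∑ s ∈ S, w s * (g s * f s)) (h : ∑ s ∈ S, w s * |f s - φ' (R (x s))| ≤ δ) :
    p - δ ≤ ∑ s ∈ S, w s * (g s * φ' (R (x s))) := by
  have h1 : ∑ s ∈ S, w s * (g s * f s) - ∑ s ∈ S, w s * (g s * φ' (R (x s))) ≤ δ := by
    rw [← Finset.sum_sub_distrib]
    refine (Finset.sum_le_sum fun s hs => ?_).trans h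
    calc w s * (g s * f s) - w s * (g s * φ' (R (x s))) = w s * (g s * (f s - φ' (R (x s)))) := by ring
      _ ≤ w s * |f s - φ' (R (x s))| := by
          refine mul_le_mul_of_nonneg_left ?_ (hw s hs)
          calc g s * (f s - φ' (R (x s))) ≤ g s * |f s - φ' (R (x s))| := mul_le_mul_of_nonneg_left (le_abs_self _) (hg0 s hs)
            _ ≤ 1 * |f s - φ' (R (x s))| := mul_le_mul_of_nonneg_right (hg1 s hs) (abs_nonneg _)
            _ = _ := one_mul _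
  linarith

end num

section seq

variable {ι κι : Type*} {l : Filter κι} {Ω : κι → Type*} {E : Type*} [NormedAddCommGroup E] [NormedSpace ℂ E]

/-- **small rotations**, uniformly in the family `ι`. `N i γ` = the size of the local piece of `γ` in units of the scale of `i` -/
theorem small_seq (S : ∀ n, Finset (Ω n)) (w : ∀ n, Ω n → ℝ) (hw : ∀ n, ∀ s ∈ S n, 0 ≤ w n s) (x : ∀ n, Ω n → E)
    (f : ι → ∀ n, Ω n → ℝ) (N : ι → E → ℝ)
    -- `RotP`: asymptotic invariance for bounded Lipschitz functionals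
    (hinv : ∀ z : ℂ, ‖z‖ = 1 → ∀ (K : NNReal) (Ψ : E → ℝ), LipschitzWith K Ψ → (∀ γ, |Ψ γ| ≤ 2) → ∀ η : ℝ, 0 < η → ∀ᶠ n in l,
      ∑ s ∈ S n, w n s * Ψ (z • x n s) ≤ ∑ s ∈ S n, w n s * Ψ (x n s) + η)
    -- the native gates are macroscopic, uniformly in the family
    (hA : ∀ ε : ℝ, 0 < ε → ∃ K : NNReal, ∀ i, ∃ (φ : E → ℝ) (L : NNReal), LipschitzWith L φ ∧ (∀ γ, |φ γ| ≤ 1) ∧
      (∀ (z : ℂ) (γ : E), ‖z‖ = 1 → |φ (z • γ) - φ γ| ≤ K * ‖z - 1‖ * N i γ) ∧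
      ∀ᶠ n in l, ∑ s ∈ S n, w n s * |f i n s - φ (x n s)| ≤ ε)
    {M : NNReal} (hM : ∀ i, ∀ᶠ n in l, ∑ s ∈ S n, w n s * N i (x n s) ≤ M) :
    ∀ ε : ℝ, 0 < ε → ∃ θ0 : ℝ, 0 < θ0 ∧ ∀ z : ℂ, ‖z‖ = 1 → ‖z - 1‖ ≤ θ0 → ∀ (i : ι) (ε' : ℝ) (L' : NNReal) (φ' : E → ℝ),
      LipschitzWith L' φ' → (∀ γ, |φ' γ| ≤ 1) → (∀ᶠ n in l, ∑ s ∈ S n, w n s * |f i n s - φ' (x n s)| ≤ ε') →
        ∀ᶠ n in l, ∑ s ∈ S n, w n s * |f i n s - φ' (z • x n s)| ≤ ε + ε' := by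
  intro ε hε
  obtain ⟨K, hK⟩ := hA (ε / 8) (by positivity)
  obtain ⟨D, hD⟩ : ∃ D : ℝ, D = K * M + 1 := ⟨_, rfl⟩
  have hD0 : 0 < D := by rw [hD]; positivity
  refine ⟨ε / (4 * D), by positivity, fun z hz hz1 i ε' L' φ' hL' hb' hφ' => ?_⟩
  obtain ⟨φ, L, hL, hb, hr, hφ⟩ := hK i
  have hΨ : LipschitzWith (L' + L) fun γ => |φ' γ - φ γ| := by
    refine LipschitzWith.of_dist_le_mul fun a b => ?_
    have h1 := (hL'.sub hL).dist_le_mul a b
    rw [Real.dist_eq] at h1 ⊢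
    exact (abs_abs_sub_abs_le _ _).trans h1
  have hΨb : ∀ γ, |(|φ' γ - φ γ|)| ≤ 2 := fun γ => by
    rw [abs_abs]
    calc |φ' γ - φ γ| ≤ |φ' γ| + |φ γ| := abs_sub _ _
      _ ≤ 2 := by linarith [hb γ, hb' γ]
  filter_upwards [hφ, hφ', hinv z hz (L' + L) _ hΨ hΨb (ε / 4) (by positivity), hM i] with n a1 a2 a3 a4
  have h4 : ∑ s ∈ S n, w n s * |φ (z • x n s) - φ (x n s)| ≤ ε / 4 := by
    calc ∑ s ∈ S n, w n s * |φ (z • x n s) - φ (x n s)| ≤ ∑ s ∈ S n, K * ‖z - 1‖ * (w n s * N i (x n s)) := by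
          refine Finset.sum_le_sum fun s hs => ?_
          calc w n s * |φ (z • x n s) - φ (x n s)| ≤ w n s * (K * ‖z - 1‖ * N i (x n s)) :=
                mul_le_mul_of_nonneg_left (hr z (x n s) hz) (hw n s hs)
            _ = K * ‖z - 1‖ * (w n s * N i (x n s)) := by ring
      _ = K * ‖z - 1‖ * ∑ s ∈ S n, w n s * N i (x n s) := by rw [Finset.mul_sum]
      _ ≤ K * ‖z - 1‖ * M := mul_le_mul_of_nonneg_left a4 (by positivity)
      _ ≤ D * ‖z - 1‖ := by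
          rw [hD]
          have := norm_nonneg (z - 1)
          nlinarith
      _ ≤ D * (ε / (4 * D)) := mul_le_mul_of_nonneg_left hz1 hD0.le
      _ = ε / 4 := by field_simp
  have h := small_num (R := fun γ : E => z • γ) (hw n) a1 a2 a3 h4
  linarith

/-- **both gates together**: the bound `p - ε` does not depend on the tolerance `ε'` of the foreign functional -/
theorem joint_seq (S : ∀ n, Finset (Ω n)) (w : ∀ n, Ω n → ℝ) (hw : ∀ n, ∀ s ∈ S n, 0 ≤ w n s) (x : ∀ n, Ω n → E)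
    (f g : ι → ∀ n, Ω n → ℝ) (N : ι → E → ℝ)
    (hinv : ∀ z : ℂ, ‖z‖ = 1 → ∀ (K : NNReal) (Ψ : E → ℝ), LipschitzWith K Ψ → (∀ γ, |Ψ γ| ≤ 2) → ∀ η : ℝ, 0 < η → ∀ᶠ n in l,
      ∑ s ∈ S n, w n s * Ψ (z • x n s) ≤ ∑ s ∈ S n, w n s * Ψ (x n s) + η)
    (hA : ∀ ε : ℝ, 0 < ε → ∃ K : NNReal, ∀ i, ∃ (φ : E → ℝ) (L : NNReal), LipschitzWith L φ ∧ (∀ γ, |φ γ| ≤ 1) ∧
      (∀ (z : ℂ) (γ : E), ‖z‖ = 1 → |φ (z • γ) - φ γ| ≤ K * ‖z - 1‖ * N i γ) ∧
      ∀ᶠ n in l, ∑ s ∈ S n, w n s * |f i n s - φ (x n s)| ≤ ε)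
    {M : NNReal} (hM : ∀ i, ∀ᶠ n in l, ∑ s ∈ S n, w n s * N i (x n s) ≤ M)
    (hg0 : ∀ i n, ∀ s ∈ S n, 0 ≤ g i n s) (hg1 : ∀ i n, ∀ s ∈ S n, g i n s ≤ 1) {p : ℝ}
    (hp : ∀ i, ∀ᶠ n in l, p ≤ ∑ s ∈ S n, w n s * (g i n s * f i n s)) :
    ∀ ε : ℝ, 0 < ε → ∃ θ0 : ℝ, 0 < θ0 ∧ ∀ z : ℂ, ‖z‖ = 1 → ‖z - 1‖ ≤ θ0 → ∀ (i : ι) (ε' : ℝ) (L' : NNReal) (φ' : E → ℝ),
      LipschitzWith L' φ' → (∀ γ, |φ' γ| ≤ 1) → (∀ᶠ n in l, ∑ s ∈ S n, w n s * |f i n s - φ' (x n s)| ≤ ε') →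
        ∀ᶠ n in l, p - (ε + ε') ≤ ∑ s ∈ S n, w n s * (g i n s * φ' (z • x n s)) := by
  intro ε hε
  obtain ⟨θ0, hθ, h⟩ := small_seq S w hw x f N hinv hA hM ε hε
  refine ⟨θ0, hθ, fun z hz hz1 i ε' L' φ' hL' hb' hφ' => ?_⟩
  filter_upwards [h z hz hz1 i ε' L' φ' hL' hb' hφ', hp i] with n a1 a2
  exact joint_num (R := fun γ : E => z • γ) (hw n) (hg0 i n) (hg1 i n) a2 a1

/-- tightness instead of a moment -/
theorem small_tight (S : ∀ n, Finset (Ω n)) (w : ∀ n, Ω n → ℝ) (hw : ∀ n, ∀ s ∈ S n, 0 ≤ w n s) (hw1 : ∀ n, ∑ s ∈ S n, w n s ≤ 1)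
    (x : ∀ n, Ω n → E) (f : ι → ∀ n, Ω n → ℝ) (N : ι → E → ℝ)
    (hinv : ∀ z : ℂ, ‖z‖ = 1 → ∀ (K : NNReal) (Ψ : E → ℝ), LipschitzWith K Ψ → (∀ γ, |Ψ γ| ≤ 2) → ∀ η : ℝ, 0 < η → ∀ᶠ n in l,
      ∑ s ∈ S n, w n s * Ψ (z • x n s) ≤ ∑ s ∈ S n, w n s * Ψ (x n s) + η)
    (hA : ∀ ε : ℝ, 0 < ε → ∃ K : NNReal, ∀ i, ∃ (φ : E → ℝ) (L : NNReal), LipschitzWith L φ ∧ (∀ γ, |φ γ| ≤ 1) ∧
      (∀ (z : ℂ) (γ : E), ‖z‖ = 1 → |φ (z • γ) - φ γ| ≤ K * ‖z - 1‖ * N i γ) ∧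
      ∀ᶠ n in l, ∑ s ∈ S n, w n s * |f i n s - φ (x n s)| ≤ ε)
    (hT : ∀ ε : ℝ, 0 < ε → ∃ B : NNReal, ∀ i, ∀ᶠ n in l, ∑ s ∈ S n, w n s * (if (B : ℝ) < N i (x n s) then 1 else 0) ≤ ε) :
    ∀ ε : ℝ, 0 < ε → ∃ θ0 : ℝ, 0 < θ0 ∧ ∀ z : ℂ, ‖z‖ = 1 → ‖z - 1‖ ≤ θ0 → ∀ (i : ι) (ε' : ℝ) (L' : NNReal) (φ' : E → ℝ),
      LipschitzWith L' φ' → (∀ γ, |φ' γ| ≤ 1) → (∀ᶠ n in l, ∑ s ∈ S n, w n s * |f i n s - φ' (x n s)| ≤ ε') →
        ∀ᶠ n in l, ∑ s ∈ S n, w n s * |f i n s - φ' (z • x n s)| ≤ ε + ε' := by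
  intro ε hε
  obtain ⟨K, hK⟩ := hA (ε / 8) (by positivity)
  obtain ⟨B, hB⟩ := hT (ε / 16) (by positivity)
  obtain ⟨D, hD⟩ : ∃ D : ℝ, D = K * B + 1 := ⟨_, rfl⟩
  have hD0 : 0 < D := by rw [hD]; positivity
  refine ⟨ε / (8 * D), by positivity, fun z hz hz1 i ε' L' φ' hL' hb' hφ' => ?_⟩
  obtain ⟨φ, L, hL, hb, hr, hφ⟩ := hK i
  have hΨ : LipschitzWith (L' + L) fun γ => |φ' γ - φ γ| := by
    refine LipschitzWith.of_dist_le_mul fun a b => ?_
    have h1 := (hL'.sub hL).dist_le_mul a b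
    rw [Real.dist_eq] at h1 ⊢
    exact (abs_abs_sub_abs_le _ _).trans h1
  have hΨb : ∀ γ, |(|φ' γ - φ γ|)| ≤ 2 := fun γ => by
    rw [abs_abs]
    calc |φ' γ - φ γ| ≤ |φ' γ| + |φ γ| := abs_sub _ _
      _ ≤ 2 := by linarith [hb γ, hb' γ]
  filter_upwards [hφ, hφ', hinv z hz (L' + L) _ hΨ hΨb (ε / 4) (by positivity), hB i] with n a1 a2 a3 a4
  have h4 : ∑ s ∈ S n, w n s * |φ (z • x n s) - φ (x n s)| ≤ ε / 4 := by
    have hDz : (K : ℝ) * ‖z - 1‖ * B ≤ ε / 8 := by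
      calc (K : ℝ) * ‖z - 1‖ * B ≤ D * ‖z - 1‖ := by
            rw [hD]
            have := norm_nonneg (z - 1)
            nlinarith
        _ ≤ D * (ε / (8 * D)) := mul_le_mul_of_nonneg_left hz1 hD0.le
        _ = ε / 8 := by field_simp
    calc ∑ s ∈ S n, w n s * |φ (z • x n s) - φ (x n s)|
        ≤ ∑ s ∈ S n, (ε / 8 * w n s + 2 * (w n s * (if (B : ℝ) < N i (x n s) then 1 else 0))) := by
          refine Finset.sum_le_sum fun s hs => ?_
          have h0 := hw n s hs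
          by_cases hb2 : (B : ℝ) < N i (x n s)
          · rw [if_pos hb2, mul_one]
            have h5 : |φ (z • x n s) - φ (x n s)| ≤ 2 := by
              calc |φ (z • x n s) - φ (x n s)| ≤ |φ (z • x n s)| + |φ (x n s)| := abs_sub _ _
                _ ≤ 2 := by linarith [hb (z • x n s), hb (x n s)]
            have h6 := mul_le_mul_of_nonneg_left h5 h0
            have h7 : 0 ≤ ε / 8 * w n s := by positivity
            linarith
          · rw [if_neg hb2, mul_zero, mul_zero, add_zero, mul_comm (ε / 8)]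
            refine mul_le_mul_of_nonneg_left ?_ h0
            refine (hr z (x n s) hz).trans (le_trans ?_ hDz)
            exact mul_le_mul_of_nonneg_left (not_lt.1 hb2) (by positivity)
      _ = ε / 8 * ∑ s ∈ S n, w n s + 2 * ∑ s ∈ S n, w n s * (if (B : ℝ) < N i (x n s) then 1 else 0) := by
          rw [Finset.sum_add_distrib, Finset.mul_sum, Finset.mul_sum]
      _ ≤ ε / 8 * 1 + 2 * (ε / 16) := by
          have := hw1 n
          gcongr
      _ = ε / 4 := by ring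
  have h := small_num (R := fun γ : E => z • γ) (hw n) a1 a2 a3 h4
  linarith

end seq

section prob

variable {Ω : Type*} {S : Finset Ω} {w f F : Ω → ℝ}

/-- Markov: the native gate without the foreign gate -/
theorem bad_num (hw : ∀ s ∈ S, 0 ≤ w s) {δ : ℝ} (h : ∑ s ∈ S, w s * |f s - F s| ≤ δ) :
    ∑ s ∈ S, w s * (if f s = 1 ∧ F s ≤ 1 / 2 then 1 else 0) ≤ 2 * δ := by
  calc ∑ s ∈ S, w s * (if f s = 1 ∧ F s ≤ 1 / 2 then 1 else 0) ≤ ∑ s ∈ S, 2 * (w s * |f s - F s|) := by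
        refine Finset.sum_le_sum fun s hs => ?_
        have h0 := hw s hs
        by_cases hc : f s = 1 ∧ F s ≤ 1 / 2
        · rw [if_pos hc, mul_one]
          have h1 : 1 / 2 ≤ |f s - F s| := by
            refine le_trans ?_ (le_abs_self _)
            linarith [hc.1, hc.2]
          nlinarith
        · rw [if_neg hc, mul_zero]
          exact mul_nonneg zero_le_two (mul_nonneg h0 (abs_nonneg _))
    _ ≤ _ := by
        rw [← Finset.mul_sum]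
        linarith

end prob

section lim

open MeasureTheory

variable {ι E : Type*} [NormedAddCommGroup E] [NormedSpace ℂ E] [MeasurableSpace E] [BorelSpace E]

/-- **small rotations, limit form**, uniformly in the family `ι` -/
theorem small_lim (P : Measure E) [IsProbabilityMeasure P] (hinv : ∀ z : ℂ, ‖z‖ = 1 → P.map (fun γ : E => z • γ) = P)
    (f : ι → E → ℝ) (hf : ∀ i, Measurable (f i)) (hf1 : ∀ i γ, |f i γ| ≤ 1) (N : ι → E → ℝ) {M : NNReal}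
    (hN : ∀ i, Integrable (N i) P) (hM : ∀ i, ∫ γ, N i γ ∂P ≤ M)
    (hA : ∀ ε : ℝ, 0 < ε → ∃ K : NNReal, ∀ i, ∃ φ : E → ℝ, Measurable φ ∧ (∀ γ, |φ γ| ≤ 1) ∧
      (∀ (z : ℂ) (γ : E), ‖z‖ = 1 → |φ (z • γ) - φ γ| ≤ K * ‖z - 1‖ * N i γ) ∧ ∫ γ, |f i γ - φ γ| ∂P ≤ ε) :
    ∀ ε : ℝ, 0 < ε → ∃ θ0 : ℝ, 0 < θ0 ∧ ∀ z : ℂ, ‖z‖ = 1 → ‖z - 1‖ ≤ θ0 → ∀ i, ∫ γ, |f i (z • γ) - f i γ| ∂P ≤ ε := by
  intro ε hε
  obtain ⟨K, hK⟩ := hA (ε / 4) (by positivity)
  obtain ⟨D, hD⟩ : ∃ D : ℝ, D = K * M + 1 := ⟨_, rfl⟩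
  have hD0 : 0 < D := by rw [hD]; positivity
  refine ⟨ε / (2 * D), by positivity, fun z hz hz1 i => ?_⟩
  obtain ⟨φ, hm, hb, hr, hφ⟩ := hK i
  have hz' : Measurable fun γ : E => z • γ := (continuous_const_smul z).measurable
  have ib : ∀ g : E → ℝ, Measurable g → (∀ γ, |g γ| ≤ 2) → Integrable g P := fun g hg h2 =>
    Integrable.of_bound hg.aestronglyMeasurable 2 (Filter.Eventually.of_forall fun γ => by rw [Real.norm_eq_abs]; exact h2 γ)
  have m1 : Measurable fun γ => |f i γ - φ γ| := ((hf i).sub hm).abs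
  have b1 : ∀ γ, |(|f i γ - φ γ|)| ≤ 2 := fun γ => by
    rw [abs_abs]
    calc |f i γ - φ γ| ≤ |f i γ| + |φ γ| := abs_sub _ _
      _ ≤ 2 := by linarith [hf1 i γ, hb γ]
  have i1 := ib _ m1 b1
  have i2 : Integrable (fun γ => |f i (z • γ) - φ (z • γ)|) P := ib _ (m1.comp hz') fun γ => b1 (z • γ)
  have i3 : Integrable (fun γ => (K : ℝ) * ‖z - 1‖ * N i γ) P := (hN i).const_mul _
  have e1 : ∫ γ, |f i (z • γ) - φ (z • γ)| ∂P = ∫ γ, |f i γ - φ γ| ∂P := by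
    have h := integral_map (μ := P) hz'.aemeasurable (f := fun γ => |f i γ - φ γ|) m1.aestronglyMeasurable
    rw [hinv z hz] at h
    exact h.symm
  calc ∫ γ, |f i (z • γ) - f i γ| ∂P
      ≤ ∫ γ, (|f i (z • γ) - φ (z • γ)| + (K : ℝ) * ‖z - 1‖ * N i γ + |f i γ - φ γ|) ∂P := by
        refine integral_mono_of_nonneg (Filter.Eventually.of_forall fun γ => abs_nonneg _) ((i2.add i3).add i1)
          (Filter.Eventually.of_forall fun γ => ?_)
        calc |f i (z • γ) - f i γ| = |(f i (z • γ) - φ (z • γ)) + (φ (z • γ) - φ γ) - (f i γ - φ γ)| := by ring_nf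
          _ ≤ |(f i (z • γ) - φ (z • γ)) + (φ (z • γ) - φ γ)| + |f i γ - φ γ| := abs_sub _ _
          _ ≤ |f i (z • γ) - φ (z • γ)| + |φ (z • γ) - φ γ| + |f i γ - φ γ| := by
              gcongr
              exact abs_add_le _ _
          _ ≤ _ := add_le_add (add_le_add le_rfl (hr z γ hz)) le_rfl
    _ = ∫ γ, |f i (z • γ) - φ (z • γ)| ∂P + (K : ℝ) * ‖z - 1‖ * ∫ γ, N i γ ∂P + ∫ γ, |f i γ - φ γ| ∂P := by
        have h1 := integral_add (μ := P) (i2.add i3) i1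
        have h2 := integral_add (μ := P) i2 i3
        rw [integral_const_mul] at h2
        rw [← h2]
        exact h1
    _ ≤ ε / 4 + ε / 2 + ε / 4 := by
        rw [e1]
        refine add_le_add (add_le_add hφ ?_) hφ
        calc (K : ℝ) * ‖z - 1‖ * ∫ γ, N i γ ∂P ≤ K * ‖z - 1‖ * M := mul_le_mul_of_nonneg_left (hM i) (by positivity)
          _ ≤ D * ‖z - 1‖ := by
              rw [hD]
              have := norm_nonneg (z - 1)
              nlinarith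
          _ ≤ D * (ε / (2 * D)) := mul_le_mul_of_nonneg_left hz1 hD0.le
          _ = ε / 2 := by field_simp
    _ = ε := by ring

end lim

end Pool.Agent.ROT.F3
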