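import Pool.Agent.ROT.F3Small

/-!
# ROT, F3 (B), row W8 (S) (helper86): the foreign gate is free for small rotations, UNIFORM form

The index `i` stands for everything (number of steps, scale, cutoffs); `n i` = the number of steps. All thresholds depend only on the
tolerances and the Lipschitz constants, so that sums over the numbers of steps (free lengths) are allowed: the approximating functional
`φ` may depend on `i`, its Lipschitz constant must not.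

* **`small_unif`** : the foreign functional of any tolerance is close to the native gate, for all rotations close to 1;
* **`joint_unif`** : native event × foreign gate, lower bound; `joint_unif2` : two foreign gates (two arms);
* `bad_unif` : the probability of `native gate and foreign functional ≤ 1/2`.
-/

set_option autoImplicit false

open Filter Topology Finset

namespace Pool.Agent.ROT.F3

section unif

variable {ι : Type*} {Ω : ι → Type*} {E : Type*} [NormedAddCommGroup E] [NormedSpace ℂ E]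

/-- **small rotations**, uniform form -/
theorem small_unif (n : ι → ℕ) (S : ∀ i, Finset (Ω i)) (w : ∀ i, Ω i → ℝ) (hw : ∀ i, ∀ s ∈ S i, 0 ≤ w i s)
    (hw1 : ∀ i, ∑ s ∈ S i, w i s ≤ 1) (x : ∀ i, Ω i → E) (f : ∀ i, Ω i → ℝ)
    -- `RotP`, in the form `pol_unif`
    (hinv : ∀ (K : NNReal) (η : ℝ), 0 < η → ∃ n0 : ℕ, ∀ i, n0 ≤ n i → ∀ z : ℂ, ‖z‖ = 1 → ∀ Ψ : E → ℝ, LipschitzWith K Ψ →
      (∀ γ, 0 ≤ Ψ γ) → (∀ γ, Ψ γ ≤ 1) → ∑ s ∈ S i, w i s * Ψ (z • x i s) ≤ ∑ s ∈ S i, w i s * Ψ (x i s) + η)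
    -- the native gate is a functional of the curve, with a uniform Lipschitz constant
    (hA : ∀ ε : ℝ, 0 < ε → ∃ (L : NNReal) (n0 : ℕ), ∀ i, n0 ≤ n i → ∃ φ : E → ℝ, LipschitzWith L φ ∧ (∀ γ, |φ γ| ≤ 1) ∧
      ∑ s ∈ S i, w i s * |f i s - φ (x i s)| ≤ ε)
    (hT : ∀ ε : ℝ, 0 < ε → ∃ (B : NNReal) (n0 : ℕ), ∀ i, n0 ≤ n i →
      ∑ s ∈ S i, w i s * (if (B : ℝ) < ‖x i s‖ then 1 else 0) ≤ ε) :
    ∀ ε : ℝ, 0 < ε → ∃ θ0 : ℝ, 0 < θ0 ∧ ∀ L' : NNReal, ∃ n1 : ℕ, ∀ i, n1 ≤ n i → ∀ z : ℂ, ‖z‖ = 1 → ‖z - 1‖ ≤ θ0 →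
      ∀ (ε' : ℝ) (φ' : E → ℝ), LipschitzWith L' φ' → (∀ γ, |φ' γ| ≤ 1) → ∑ s ∈ S i, w i s * |f i s - φ' (x i s)| ≤ ε' →
        ∑ s ∈ S i, w i s * |f i s - φ' (z • x i s)| ≤ ε + ε' := by
  intro ε hε
  obtain ⟨L, n0, hφA⟩ := hA (ε / 8) (by positivity)
  obtain ⟨B, n2, hB⟩ := hT (ε / 16) (by positivity)
  obtain ⟨D, hD⟩ : ∃ D : ℝ, D = L * B + 1 := ⟨_, rfl⟩
  have hD0 : 0 < D := by rw [hD]; positivity
  refine ⟨ε / (8 * D), by positivity, fun L' => ?_⟩
  obtain ⟨n3, h3⟩ := hinv (L' + L) (ε / 8) (by positivity)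
  refine ⟨max n0 (max n2 n3), fun i hi z hz hz1 ε' φ' hL' hb' hφ' => ?_⟩
  obtain ⟨φ, hL, hb, hφ⟩ := hφA i ((le_max_left _ _).trans hi)
  have a4 := hB i (((le_max_left _ _).trans (le_max_right _ _)).trans hi)
  have h0i := hw i
  have hΨ : LipschitzWith (L' + L) fun γ => |φ' γ - φ γ| / 2 := by
    refine LipschitzWith.of_dist_le_mul fun a b => ?_
    have h1 := (hL'.sub hL).dist_le_mul a b
    rw [Real.dist_eq] at h1 ⊢
    have h2 := abs_abs_sub_abs_le (φ' a - φ a) (φ' b - φ b)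
    rw [← sub_div, abs_div, abs_two]
    have h3 : 0 ≤ ((L' + L : NNReal) : ℝ) * dist a b := by positivity
    linarith
  have hΨb : ∀ γ, |φ' γ - φ γ| ≤ 2 := fun γ => by
    calc |φ' γ - φ γ| ≤ |φ' γ| + |φ γ| := abs_sub _ _
      _ ≤ 2 := by linarith [hb γ, hb' γ]
  have a3 : ∑ s ∈ S i, w i s * |φ' (z • x i s) - φ (z • x i s)| ≤ ∑ s ∈ S i, w i s * |φ' (x i s) - φ (x i s)| + ε / 4 := by
    have h1 := h3 i (((le_max_right _ _).trans (le_max_right _ _)).trans hi) z hz _ hΨ (fun γ => by positivity)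
      (fun γ => by linarith [hΨb γ])
    have e : ∀ g : Ω i → E, ∑ s ∈ S i, w i s * (|φ' (g s) - φ (g s)| / 2) = (∑ s ∈ S i, w i s * |φ' (g s) - φ (g s)|) / 2 := by
      intro g
      rw [Finset.sum_div]
      exact Finset.sum_congr rfl fun s _ => by ring
    rw [e (fun s => z • x i s), e (fun s => x i s)] at h1
    linarith
  have h4 : ∑ s ∈ S i, w i s * |φ (z • x i s) - φ (x i s)| ≤ ε / 4 := by
    have hDz : (L : ℝ) * (‖z - 1‖ * B) ≤ ε / 8 := by
      calc (L : ℝ) * (‖z - 1‖ * B) ≤ D * ‖z - 1‖ := by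
            rw [hD]
            have := norm_nonneg (z - 1)
            nlinarith
        _ ≤ D * (ε / (8 * D)) := mul_le_mul_of_nonneg_left hz1 hD0.le
        _ = ε / 8 := by field_simp
    calc ∑ s ∈ S i, w i s * |φ (z • x i s) - φ (x i s)|
        ≤ ∑ s ∈ S i, (ε / 8 * w i s + 2 * (w i s * (if (B : ℝ) < ‖x i s‖ then 1 else 0))) := by
          refine Finset.sum_le_sum fun s hs => ?_
          have h0 := h0i s hs
          by_cases hb2 : (B : ℝ) < ‖x i s‖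
          · rw [if_pos hb2, mul_one]
            have h5 : |φ (z • x i s) - φ (x i s)| ≤ 2 := by
              calc |φ (z • x i s) - φ (x i s)| ≤ |φ (z • x i s)| + |φ (x i s)| := abs_sub _ _
                _ ≤ 2 := by linarith [hb (z • x i s), hb (x i s)]
            have h6 := mul_le_mul_of_nonneg_left h5 h0
            have h7 : 0 ≤ ε / 8 * w i s := by positivity
            linarith
          · rw [if_neg hb2, mul_zero, mul_zero, add_zero, mul_comm (ε / 8)]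
            refine mul_le_mul_of_nonneg_left ?_ h0
            have h5 := hL.dist_le_mul (z • x i s) (x i s)
            rw [Real.dist_eq] at h5
            refine h5.trans (le_trans ?_ hDz)
            refine mul_le_mul_of_nonneg_left ?_ L.coe_nonneg
            rw [dist_eq_norm]
            calc ‖z • x i s - x i s‖ = ‖(z - 1) • x i s‖ := by rw [sub_smul, one_smul]
              _ = ‖z - 1‖ * ‖x i s‖ := norm_smul _ _
              _ ≤ ‖z - 1‖ * B := mul_le_mul_of_nonneg_left (not_lt.1 hb2) (norm_nonneg _)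
      _ = ε / 8 * ∑ s ∈ S i, w i s + 2 * ∑ s ∈ S i, w i s * (if (B : ℝ) < ‖x i s‖ then 1 else 0) := by
          rw [Finset.sum_add_distrib, Finset.mul_sum, Finset.mul_sum]
      _ ≤ ε / 8 * 1 + 2 * (ε / 16) := by
          have := hw1 i
          gcongr
      _ = ε / 4 := by ring
  have h := small_num (R := fun γ : E => z • γ) h0i hφ hφ' a3 h4
  linarith

/-- **native event × foreign gate**: `g` = the native event, `f` = the native gate, lower bound `p` -/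
theorem joint_unif (S : ∀ i, Finset (Ω i)) (w : ∀ i, Ω i → ℝ) (hw : ∀ i, ∀ s ∈ S i, 0 ≤ w i s)
    (x : ∀ i, Ω i → E) (f g : ∀ i, Ω i → ℝ) (hg0 : ∀ i, ∀ s ∈ S i, 0 ≤ g i s) (hg1 : ∀ i, ∀ s ∈ S i, g i s ≤ 1)
    {z : ℂ} {φ' : E → ℝ} {p δ : ℝ} {i : ι} (hp : p ≤ ∑ s ∈ S i, w i s * (g i s * f i s))
    (h : ∑ s ∈ S i, w i s * |f i s - φ' (z • x i s)| ≤ δ) :
    p - δ ≤ ∑ s ∈ S i, w i s * (g i s * φ' (z • x i s)) :=
  joint_num (R := fun γ : E => z • γ) (hw i) (hg0 i) (hg1 i) hp h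

/-- **two foreign gates** (two arms, or two gates on one arm) -/
theorem joint_unif2 (S : ∀ i, Finset (Ω i)) (w : ∀ i, Ω i → ℝ) (hw : ∀ i, ∀ s ∈ S i, 0 ≤ w i s)
    (x : ∀ i, Ω i → E) (f1 f2 g : ∀ i, Ω i → ℝ) (hg0 : ∀ i, ∀ s ∈ S i, 0 ≤ g i s) (hg1 : ∀ i, ∀ s ∈ S i, g i s ≤ 1)
    {z : ℂ} {φ1 φ2 : E → ℝ} {p δ1 δ2 : ℝ} {i : ι} (hf1 : ∀ s ∈ S i, |f1 i s| ≤ 1) (hφ2 : ∀ γ, |φ2 γ| ≤ 1)
    (hp : p ≤ ∑ s ∈ S i, w i s * (g i s * (f1 i s * f2 i s)))
    (h1 : ∑ s ∈ S i, w i s * |f1 i s - φ1 (z • x i s)| ≤ δ1) (h2 : ∑ s ∈ S i, w i s * |f2 i s - φ2 (z • x i s)| ≤ δ2) :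
    p - (δ1 + δ2) ≤ ∑ s ∈ S i, w i s * (g i s * (φ1 (z • x i s) * φ2 (z • x i s))) := by
  have key : ∑ s ∈ S i, w i s * (g i s * (f1 i s * f2 i s)) - ∑ s ∈ S i, w i s * (g i s * (φ1 (z • x i s) * φ2 (z • x i s)))
      ≤ ∑ s ∈ S i, w i s * |f1 i s - φ1 (z • x i s)| + ∑ s ∈ S i, w i s * |f2 i s - φ2 (z • x i s)| := by
    rw [← Finset.sum_sub_distrib, ← Finset.sum_add_distrib]
    refine Finset.sum_le_sum fun s hs => ?_
    obtain ⟨a, ha⟩ : ∃ a, a = f1 i s := ⟨_, rfl⟩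
    obtain ⟨b, hb⟩ : ∃ b, b = f2 i s := ⟨_, rfl⟩
    obtain ⟨c, hc⟩ : ∃ c, c = φ1 (z • x i s) := ⟨_, rfl⟩
    obtain ⟨d, hd⟩ : ∃ d, d = φ2 (z • x i s) := ⟨_, rfl⟩
    have ha1 : |a| ≤ 1 := by rw [ha]; exact hf1 s hs
    have hd1 : |d| ≤ 1 := by rw [hd]; exact hφ2 _
    rw [← ha, ← hb, ← hc, ← hd]
    have h3 : a * b - c * d ≤ |a - c| + |b - d| := by
      have e : a * b - c * d = a * (b - d) + (a - c) * d := by ring
      rw [e]
      have h4 : a * (b - d) ≤ |b - d| := by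
        calc a * (b - d) ≤ |a * (b - d)| := le_abs_self _
          _ = |a| * |b - d| := abs_mul _ _
          _ ≤ 1 * |b - d| := mul_le_mul_of_nonneg_right ha1 (abs_nonneg _)
          _ = _ := one_mul _
      have h5 : (a - c) * d ≤ |a - c| := by
        calc (a - c) * d ≤ |(a - c) * d| := le_abs_self _
          _ = |a - c| * |d| := abs_mul _ _
          _ ≤ |a - c| * 1 := mul_le_mul_of_nonneg_left hd1 (abs_nonneg _)
          _ = _ := mul_one _
      linarith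
    have hn : 0 ≤ |a - c| + |b - d| := by positivity
    calc w i s * (g i s * (a * b)) - w i s * (g i s * (c * d)) = w i s * (g i s * (a * b - c * d)) := by ring
      _ ≤ w i s * (|a - c| + |b - d|) := by
          refine mul_le_mul_of_nonneg_left ?_ (hw i s hs)
          calc g i s * (a * b - c * d) ≤ g i s * (|a - c| + |b - d|) := mul_le_mul_of_nonneg_left h3 (hg0 i s hs)
            _ ≤ 1 * (|a - c| + |b - d|) := mul_le_mul_of_nonneg_right (hg1 i s hs) hn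
            _ = _ := one_mul _
      _ = _ := by ring
  linarith

/-- the native gate without the foreign one -/
theorem bad_unif (S : ∀ i, Finset (Ω i)) (w : ∀ i, Ω i → ℝ) (hw : ∀ i, ∀ s ∈ S i, 0 ≤ w i s)
    (x : ∀ i, Ω i → E) (f : ∀ i, Ω i → ℝ) {z : ℂ} {φ' : E → ℝ} {δ : ℝ} {i : ι}
    (h : ∑ s ∈ S i, w i s * |f i s - φ' (z • x i s)| ≤ δ) :
    ∑ s ∈ S i, w i s * (if f i s = 1 ∧ φ' (z • x i s) ≤ 1 / 2 then 1 else 0) ≤ 2 * δ :=
  bad_num (hw i) (F := fun s => φ' (z • x i s)) h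

end unif

end Pool.Agent.ROT.F3
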