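import Pool.Agent.ROT.F3LimG
import Pool.Agent.ROT.F3Cls

/-!
# F3, limit classes: the statistics of the pieces (helper90)

Every condition of `F3Cls` on a piece (a word `p`, unit of length `S`) has the form `f (ps p k / S) ≤ a` for all vertices, `f` Lipschitz.
* `stS f h` : maximum of `f` on the curve `h`; `stN f g h` : minimum over `τ` of `max (f on [0, τ], g on [τ, 1])` (no return);
  both are Lipschitz in `h` (`stS_dist`, `stN_dist`);
* **`stS_le_of`, `of_stS_le`** : vertices and polygonal curve, error `K / S`; `stN_le_of`, `of_stN_lt`;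
* `fCo`, `fRa`, `fWe`, `fSt` : cone, cone in a ball (two radii form), wedge, strip; `ball_iff`, `coneQ_iff`, `coneR_iff`, `wedge_iff`,
  `nrt_iff` : the conditions of `F3Cls` in this form.
-/

set_option autoImplicit false

namespace Pool.Agent.ROT.F3

open Finset ComplexConjugate unitInterval
open scoped NNReal

/-! ### points of the curve and vertices -/

lemma crvx_step (i : ℕ) (a : Fin 3) : ‖Pool.Agent.NTS.Res.step i a‖ = 1 := by
  have e : (2 * (Real.pi : ℂ) * Complex.I * ((a : ℕ) : ℂ) / 3) = ((2 * Real.pi * ((a : ℕ) : ℝ) / 3 : ℝ) : ℂ) * Complex.I := by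
    push_cast
    ring
  unfold Pool.Agent.NTS.Res.step
  rw [norm_mul, norm_pow, norm_neg, norm_one, one_pow, one_mul, e, Complex.norm_exp_ofReal_mul_I]

lemma crvx_st_le (w : W3) (i : ℕ) : ‖st w i‖ ≤ 1 := by
  unfold st
  split_ifs with h
  · exact (crvx_step _ _).le
  · simp

lemma crvx_ps_le (w : W3) (i : ℕ) : ‖ps w (i + 1) - ps w i‖ ≤ 1 := by
  rw [ps_succ, add_sub_cancel_left]
  exact crvx_st_le w i

/-- every point of the curve is near the two vertices next to it -/
lemma crv_near (w : W3) (n : ℕ) {d : ℝ} (hd : 0 < d) (s : I) : ∃ i j : ℕ, i ≤ n ∧ j ≤ n ∧ j ≤ i + 1 ∧ (i : ℝ) ≤ s * n ∧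
    (s : ℝ) * n ≤ j ∧ ‖crv w n d s - ps w i / d‖ ≤ 1 / d ∧ ‖crv w n d s - ps w j / d‖ ≤ 1 / d := by
  rcases Nat.eq_zero_or_pos n with rfl | hn
  · refine ⟨0, 0, le_rfl, le_rfl, by omega, by simp, by simp, ?_, ?_⟩ <;>
    · rw [crv_nil_steps, ps_zero, zero_div]
      simp only [ContinuousMap.zero_apply, sub_zero, norm_zero]
      positivity
  · have h0 : 0 ≤ (s : ℝ) * n := mul_nonneg s.2.1 (Nat.cast_nonneg n)
    have h1 : (s : ℝ) * n ≤ n := mul_le_of_le_one_left (Nat.cast_nonneg n) s.2.2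
    obtain ⟨k, hk, k1, k2⟩ := edge_of hn h0 h1
    have hk1 : 0 ≤ (s : ℝ) * n - k := by linarith
    have hk2 : (s : ℝ) * n - k ≤ 1 := by linarith
    have hst := crvx_ps_le w k
    refine ⟨k, k + 1, hk.le, hk, le_rfl, k1, by push_cast; linarith, ?_, ?_⟩
    · rw [crv_apply hk k1 k2]
      have e : (((1 - ((s : ℝ) * n - k) : ℝ) : ℂ) * ps w k + (((s : ℝ) * n - k : ℝ) : ℂ) * ps w (k + 1)) / d - ps w k / d =
          (((s : ℝ) * n - k : ℝ) : ℂ) * (ps w (k + 1) - ps w k) / d := by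
        push_cast
        ring
      rw [e, norm_div, norm_mul, Complex.norm_real, Complex.norm_real, Real.norm_of_nonneg hk1, Real.norm_of_nonneg hd.le]
      exact div_le_div_of_nonneg_right (by nlinarith [norm_nonneg (ps w (k + 1) - ps w k)]) hd.le
    · rw [crv_apply hk k1 k2]
      have e : (((1 - ((s : ℝ) * n - k) : ℝ) : ℂ) * ps w k + (((s : ℝ) * n - k : ℝ) : ℂ) * ps w (k + 1)) / d - ps w (k + 1) / d =
          (((s : ℝ) * n - k - 1 : ℝ) : ℂ) * (ps w (k + 1) - ps w k) / d := by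
        push_cast
        ring
      rw [e, norm_div, norm_mul, Complex.norm_real, Complex.norm_real, Real.norm_of_nonneg hd.le]
      refine div_le_div_of_nonneg_right ?_ hd.le
      have h3 : ‖(s : ℝ) * n - k - 1‖ ≤ 1 := by
        rw [Real.norm_eq_abs, abs_le]
        constructor <;> linarith
      nlinarith [norm_nonneg (ps w (k + 1) - ps w k), norm_nonneg ((s : ℝ) * n - k - 1)]

/-- the curve at the vertex number `k` -/
lemma crv_fr (w : W3) {n k : ℕ} (hk : k ≤ n) (d : ℝ) : crv w n d (fr k n) = ps w k / d := by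
  rcases Nat.eq_zero_or_pos n with rfl | hn
  · obtain rfl : k = 0 := by omega
    rw [crv_nil_steps, ps_zero, zero_div]
    rfl
  · exact crv_vertex hn hk (fr_mul hk hn)

/-! ### maximum along the curve -/

/-- maximum of `f` along the curve -/
noncomputable def stS (f : ℂ → ℝ) (h : C(I, ℂ)) : ℝ := ⨆ s : I, f (h s)

section stS

variable {f : ℂ → ℝ} {K : ℝ≥0}

lemma stS_bdd (hf : Continuous f) (h : C(I, ℂ)) : BddAbove (Set.range fun s : I => f (h s)) :=
  (isCompact_range (hf.comp h.continuous)).bddAbove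

lemma stS_le_iff (hf : Continuous f) (h : C(I, ℂ)) {a : ℝ} : stS f h ≤ a ↔ ∀ s, f (h s) ≤ a := ciSup_le_iff (stS_bdd hf h)

lemma le_stS (hf : Continuous f) (h : C(I, ℂ)) (s : I) : f (h s) ≤ stS f h := le_ciSup (stS_bdd hf h) s

lemma lip_le (hf : LipschitzWith K f) (x y : ℂ) : f x ≤ f y + K * ‖x - y‖ := by
  have h := hf.dist_le_mul x y
  rw [Real.dist_eq, dist_eq_norm] at h
  linarith [(abs_le.1 h).2]

lemma stS_le_add (hf : LipschitzWith K f) (h h' : C(I, ℂ)) : stS f h ≤ stS f h' + K * dist h h' := by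
  refine (stS_le_iff hf.continuous h).2 fun s => ?_
  have h1 := lip_le hf (h s) (h' s)
  have h2 := ContinuousMap.dist_apply_le_dist (f := h) (g := h') s
  rw [dist_eq_norm] at h2
  have h3 := mul_le_mul_of_nonneg_left h2 K.2
  have h4 := le_stS hf.continuous h' s
  have h5 : ((K : ℝ≥0) : ℝ) * ‖h s - h' s‖ ≤ K * dist h h' := h3
  linarith

/-- **the statistic is Lipschitz** -/
theorem stS_dist (hf : LipschitzWith K f) (h h' : C(I, ℂ)) : |stS f h - stS f h'| ≤ K * dist h h' := by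
  have h1 := stS_le_add hf h h'
  have h2 := stS_le_add hf h' h
  rw [dist_comm] at h2
  rw [abs_le]
  constructor <;> linarith

lemma stS_lip (hf : LipschitzWith K f) : LipschitzWith K (stS f) := LipschitzWith.of_dist_le_mul fun h h' => by
  rw [Real.dist_eq]; exact stS_dist hf h h'

/-- **from the vertices to the curve** -/
theorem stS_le_of (hf : LipschitzWith K f) {p : W3} {n : ℕ} {S a : ℝ} (hS : 0 < S) (h : ∀ k : ℕ, k ≤ n → f (ps p k / S) ≤ a) :
    stS f (crv p n S) ≤ a + K / S := by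
  refine (stS_le_iff hf.continuous _).2 fun s => ?_
  obtain ⟨i, -, hi, -, -, -, -, h1, -⟩ := crv_near p n hS s
  have h2 := lip_le hf (crv p n S s) (ps p i / S)
  have h3 := mul_le_mul_of_nonneg_left h1 K.2
  have h4 := h i hi
  have h5 : ((K : ℝ≥0) : ℝ) * ‖crv p n S s - ps p i / S‖ ≤ K * (1 / S) := h3
  have h6 : (K : ℝ) * (1 / S) = K / S := by ring
  linarith

/-- **from the curve to the vertices** -/
theorem of_stS_le (hf : Continuous f) {p : W3} {n : ℕ} {S a : ℝ} (h : stS f (crv p n S) ≤ a) {k : ℕ} (hk : k ≤ n) :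
    f (ps p k / S) ≤ a := by
  have h1 := (stS_le_iff hf _).1 h (fr k n)
  rwa [crv_fr p hk] at h1

end stS

/-! ### no return -/

/-- minimum over `τ` of `max (f on [0, τ], g on [τ, 1])` -/
noncomputable def stN (f g : ℂ → ℝ) (h : C(I, ℂ)) : ℝ := ⨅ τ : I, ⨆ s : I, max (f (h (min τ s))) (g (h (max τ s)))

section stN

variable {f g : ℂ → ℝ} {K : ℝ≥0}

lemma stN_bdd (hf : Continuous f) (hg : Continuous g) (h : C(I, ℂ)) (τ : I) :
    BddAbove (Set.range fun s : I => max (f (h (min τ s))) (g (h (max τ s)))) := by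
  refine (isCompact_range ?_).bddAbove
  exact (hf.comp (h.continuous.comp (continuous_const.min continuous_id))).max
    (hg.comp (h.continuous.comp (continuous_const.max continuous_id)))

lemma stN_bdd' (hf : Continuous f) (hg : Continuous g) (h : C(I, ℂ)) :
    BddBelow (Set.range fun τ : I => ⨆ s : I, max (f (h (min τ s))) (g (h (max τ s)))) := by
  refine ⟨f (h 0), ?_⟩
  rintro _ ⟨τ, rfl⟩
  have h1 := le_ciSup (stN_bdd hf hg h τ) 0
  have h2 : min τ 0 = 0 := min_eq_right (unitInterval.nonneg τ)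
  rw [h2] at h1
  exact (le_max_left _ _).trans h1

lemma stN_le (hf : Continuous f) (hg : Continuous g) (h : C(I, ℂ)) (τ : I) {a : ℝ} (h1 : ∀ s, s ≤ τ → f (h s) ≤ a)
    (h2 : ∀ s, τ ≤ s → g (h s) ≤ a) : stN f g h ≤ a :=
  (ciInf_le (stN_bdd' hf hg h) τ).trans (ciSup_le fun _ => max_le (h1 _ (min_le_left _ _)) (h2 _ (le_max_left _ _)))

lemma of_stN (hf : Continuous f) (hg : Continuous g) (h : C(I, ℂ)) {a : ℝ} (ha : stN f g h < a) : ∃ τ : I,
    (∀ s, s ≤ τ → f (h s) < a) ∧ ∀ s, τ ≤ s → g (h s) < a := by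
  obtain ⟨τ, hτ⟩ := exists_lt_of_ciInf_lt ha
  refine ⟨τ, fun s hs => ?_, fun s hs => ?_⟩
  · have h1 := (le_ciSup (stN_bdd hf hg h τ) s).trans_lt hτ
    rw [min_eq_right hs] at h1
    exact (le_max_left _ _).trans_lt h1
  · have h1 := (le_ciSup (stN_bdd hf hg h τ) s).trans_lt hτ
    rw [max_eq_right hs] at h1
    exact (le_max_right _ _).trans_lt h1

lemma stN_le_add (hf : LipschitzWith K f) (hg : LipschitzWith K g) (h h' : C(I, ℂ)) :
    stN f g h ≤ stN f g h' + K * dist h h' := by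
  refine le_of_forall_pos_lt_add fun ε hε => ?_
  obtain ⟨τ, t1, t2⟩ := of_stN hf.continuous hg.continuous h' (a := stN f g h' + ε / 2) (by linarith)
  have dd : ∀ s : I, ‖h s - h' s‖ ≤ dist h h' := fun s => by
    rw [← dist_eq_norm]; exact ContinuousMap.dist_apply_le_dist s
  have h1 : stN f g h ≤ stN f g h' + ε / 2 + K * dist h h' := by
    refine stN_le hf.continuous hg.continuous h τ (fun s hs => ?_) fun s hs => ?_
    · have e1 := lip_le hf (h s) (h' s)
      have e2 : (K : ℝ) * ‖h s - h' s‖ ≤ K * dist h h' := mul_le_mul_of_nonneg_left (dd s) K.2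
      linarith [t1 s hs]
    · have e1 := lip_le hg (h s) (h' s)
      have e2 : (K : ℝ) * ‖h s - h' s‖ ≤ K * dist h h' := mul_le_mul_of_nonneg_left (dd s) K.2
      linarith [t2 s hs]
  linarith

/-- **the statistic is Lipschitz** -/
theorem stN_dist (hf : LipschitzWith K f) (hg : LipschitzWith K g) (h h' : C(I, ℂ)) :
    |stN f g h - stN f g h'| ≤ K * dist h h' := by
  have h1 := stN_le_add hf hg h h'
  have h2 := stN_le_add hf hg h' h
  rw [dist_comm] at h2
  rw [abs_le]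
  constructor <;> linarith

lemma stN_lip (hf : LipschitzWith K f) (hg : LipschitzWith K g) : LipschitzWith K (stN f g) :=
  LipschitzWith.of_dist_le_mul fun h h' => by rw [Real.dist_eq]; exact stN_dist hf hg h h'

/-- **from the vertices to the curve** -/
theorem stN_le_of (hf : LipschitzWith K f) (hg : LipschitzWith K g) {p : W3} {n : ℕ} {S a : ℝ} (hS : 0 < S)
    (h : ∃ ke : ℕ, ke ≤ n ∧ (∀ k : ℕ, k ≤ ke → f (ps p k / S) ≤ a) ∧ ∀ k : ℕ, ke ≤ k → k ≤ n → g (ps p k / S) ≤ a) :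
    stN f g (crv p n S) ≤ a + K / S := by
  obtain ⟨ke, hke, h1, h2⟩ := h
  have h6 : (K : ℝ) * (1 / S) = K / S := by ring
  refine stN_le hf.continuous hg.continuous _ (fr ke n) (fun s hs => ?_) fun s hs => ?_
  · obtain ⟨i, -, hi, -, -, i1, -, i2, -⟩ := crv_near p n hS s
    have hik : i ≤ ke := by
      have h3 : (s : ℝ) * n ≤ ke := by
        rcases Nat.eq_zero_or_pos n with rfl | hn
        · simp
        · rw [← fr_mul hke hn]
          exact mul_le_mul_of_nonneg_right hs (Nat.cast_nonneg n)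
      exact_mod_cast i1.trans h3
    have e1 := lip_le hf (crv p n S s) (ps p i / S)
    have e2 : (K : ℝ) * ‖crv p n S s - ps p i / S‖ ≤ K * (1 / S) := mul_le_mul_of_nonneg_left i2 K.2
    linarith [h1 i hik]
  · obtain ⟨-, j, -, hj, -, -, j1, -, j2⟩ := crv_near p n hS s
    have hkj : ke ≤ j := by
      rcases Nat.eq_zero_or_pos n with rfl | hn
      · omega
      · have h3 : (ke : ℝ) ≤ s * n := by
          rw [← fr_mul hke hn]
          exact mul_le_mul_of_nonneg_right hs (Nat.cast_nonneg n)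
        exact_mod_cast h3.trans j1
    have e1 := lip_le hg (crv p n S s) (ps p j / S)
    have e2 : (K : ℝ) * ‖crv p n S s - ps p j / S‖ ≤ K * (1 / S) := mul_le_mul_of_nonneg_left j2 K.2
    linarith [h2 j hkj hj]

/-- **from the curve to the vertices** -/
theorem of_stN_lt (hf : LipschitzWith K f) (hg : LipschitzWith K g) {p : W3} {n : ℕ} {S a : ℝ} (hS : 0 < S)
    (h : stN f g (crv p n S) < a - K / S) :
    ∃ ke : ℕ, ke ≤ n ∧ (∀ k : ℕ, k ≤ ke → f (ps p k / S) ≤ a) ∧ ∀ k : ℕ, ke ≤ k → k ≤ n → g (ps p k / S) ≤ a := by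
  have hKS : 0 ≤ (K : ℝ) / S := div_nonneg K.2 hS.le
  have h6 : (K : ℝ) * (1 / S) = K / S := by ring
  obtain ⟨τ, h1, h2⟩ := of_stN hf.continuous hg.continuous _ h
  obtain ⟨i, j, hi, -, hji, i1, j1, i2, -⟩ := crv_near p n hS τ
  rcases Nat.eq_zero_or_pos n with rfl | hn
  · refine ⟨0, le_rfl, fun k hk => ?_, fun k _ hk => ?_⟩
    · obtain rfl : k = 0 := by omega
      have := h1 0 (unitInterval.nonneg τ)
      rw [← fr_zero 0, crv_fr p le_rfl] at this
      linarith
    · obtain rfl : k = 0 := by omega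
      have := h2 τ le_rfl
      rw [crv_nil_steps] at this
      rw [ps_zero, zero_div]
      have e : (0 : C(I, ℂ)) τ = 0 := rfl
      rw [e] at this
      linarith
  · refine ⟨i, hi, fun k hk => ?_, fun k hk hkn => ?_⟩
    · have hs : fr k n ≤ τ := by
        have h3 : ((fr k n : I) : ℝ) * n ≤ τ * n := by
          rw [fr_mul (by omega) hn]
          have : (k : ℝ) ≤ i := by exact_mod_cast hk
          linarith
        have h4 : ((fr k n : I) : ℝ) ≤ τ := le_of_mul_le_mul_right h3 (by exact_mod_cast hn)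
        exact h4
      have := h1 _ hs
      rw [crv_fr p (by omega)] at this
      linarith
    · rcases eq_or_lt_of_le hk with rfl | hk
      · have e1 := lip_le hg (ps p i / S) (crv p n S τ)
        rw [norm_sub_rev] at e1
        have e2 : (K : ℝ) * ‖crv p n S τ - ps p i / S‖ ≤ K * (1 / S) := mul_le_mul_of_nonneg_left i2 K.2
        linarith [h2 τ le_rfl]
      · have hs : τ ≤ fr k n := by
          have h3 : (τ : ℝ) * n ≤ ((fr k n : I) : ℝ) * n := by
            rw [fr_mul hkn hn]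
            have : (j : ℝ) ≤ k := by exact_mod_cast (by omega : j ≤ k)
            linarith
          have h4 : (τ : ℝ) ≤ ((fr k n : I) : ℝ) := le_of_mul_le_mul_right h3 (by exact_mod_cast hn)
          exact h4
        have := h2 _ hs
        rw [crv_fr p hkn] at this
        linarith

end stN

/-! ### the conditions of `F3Cls` -/

/-- cone -/
noncomputable def fCo (d : ℂ) (c : ℝ) (v : ℂ) : ℝ := c * ‖v‖ - lv d v
/-- cone in the ball of radius `r0` (two radii form) -/
noncomputable def fRa (d : ℂ) (c r0 : ℝ) (v : ℂ) : ℝ := min (c * ‖v‖ - lv d v) (r0 - ‖v‖)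
/-- wedge -/
noncomputable def fWe (d d' : ℂ) (w cs κs : ℝ) (v : ℂ) : ℝ := min (lv d v - w) (cs * ‖v‖ - κs - lv d' v)
/-- strip -/
noncomputable def fSt (d : ℂ) (e len hw : ℝ) (v : ℂ) : ℝ := max (max (-e - lv d v) (lv d v - len)) (|ltl d v| - hw)
/-- outside of the ball -/
noncomputable def fBn (bn : ℝ) (v : ℂ) : ℝ := bn - ‖v‖

lemma lv_smul (d : ℂ) (a : ℝ) (z : ℂ) : lv d (a * z) = a * lv d z := by
  unfold lv
  rw [show conj d * ((a : ℂ) * z) = (a : ℂ) * (conj d * z) by ring, Complex.re_ofReal_mul]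

lemma ltl_smul (d : ℂ) (a : ℝ) (z : ℂ) : ltl d (a * z) = a * ltl d z := by
  unfold ltl
  rw [show conj d * ((a : ℂ) * z) = (a : ℂ) * (conj d * z) by ring, Complex.im_ofReal_mul]

lemma stlv_div (d z : ℂ) (S : ℝ) : lv d (z / S) = lv d z / S := by
  rw [div_eq_inv_mul, ← Complex.ofReal_inv, lv_smul]
  ring

lemma stltl_div (d z : ℂ) (S : ℝ) : ltl d (z / S) = ltl d z / S := by
  rw [div_eq_inv_mul, ← Complex.ofReal_inv, ltl_smul]
  ring

lemma stnorm_div (z : ℂ) {S : ℝ} (hS : 0 < S) : ‖z / S‖ = ‖z‖ / S := by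
  rw [norm_div, Complex.norm_real, Real.norm_of_nonneg hS.le]

section iff

variable {S : ℝ}

lemma kn_iff (hS : 0 < S) {d : ℂ} {c κ : ℝ} {v : ℂ} : Kn d c (κ * S) v ↔ fCo d c (v / S) ≤ κ := by
  unfold Kn fCo
  rw [stlv_div, stnorm_div v hS, mul_div_assoc', ← sub_div, div_le_iff₀ hS]
  constructor <;> intro h <;> linarith

lemma ball_iff (hS : 0 < S) {r : ℝ} {v : ℂ} : ‖v‖ ≤ r * S ↔ ‖v / S‖ ≤ r := by
  rw [stnorm_div v hS, div_le_iff₀ hS]

lemma out_iff (hS : 0 < S) {r : ℝ} {v : ℂ} : r * S ≤ ‖v‖ ↔ fBn r (v / S) ≤ 0 := by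
  unfold fBn
  rw [stnorm_div v hS, sub_nonpos, le_div_iff₀ hS]

lemma coneQ_iff (hS : 0 < S) {d : ℂ} {c κ : ℝ} {b : W3} :
    ConeQ d c (κ * S) b ↔ ∀ k : ℕ, k ≤ b.length → fCo d c (ps b k / S) ≤ κ :=
  forall₂_congr fun _ _ => kn_iff hS

lemma coneR_iff (hS : 0 < S) {d : ℂ} {c r0 κ : ℝ} {R : W3} :
    ConeR d c (r0 * S) (κ * S) R ↔ ∀ k : ℕ, k ≤ R.length → fRa d c r0 (ps R k / S) ≤ κ := by
  refine forall₂_congr fun k _ => ?_
  unfold fRa
  rw [min_le_iff]
  refine or_congr (kn_iff hS) ?_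
  have e : r0 - ‖ps R k / S‖ ≤ κ ↔ r0 - κ ≤ ‖ps R k‖ / S := by
    rw [stnorm_div _ hS]
    constructor <;> intro h <;> linarith
  rw [e, le_div_iff₀ hS, sub_mul]

lemma wedge_iff (hS : 0 < S) {d d' : ℂ} {w cs κs : ℝ} {v : ℂ} :
    (lv d v ≤ w * S ∨ Kn d' cs (κs * S) v) ↔ fWe d d' w cs κs (v / S) ≤ 0 := by
  unfold fWe
  rw [min_le_iff]
  refine or_congr ?_ ?_
  · rw [stlv_div, sub_nonpos, div_le_iff₀ hS]
  · rw [kn_iff hS]
    unfold fCo
    constructor <;> intro h <;> linarith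

lemma strip_iff (hS : 0 < S) {d : ℂ} {e len hw : ℝ} {v : ℂ} :
    (-(e * S) ≤ lv d v ∧ lv d v ≤ len * S ∧ |ltl d v| ≤ hw * S) ↔ fSt d e len hw (v / S) ≤ 0 := by
  unfold fSt
  rw [max_le_iff, max_le_iff, stlv_div, stltl_div, abs_div, abs_of_pos hS, and_assoc]
  refine and_congr ?_ (and_congr ?_ ?_)
  · rw [sub_nonpos, le_div_iff₀ hS]
    constructor <;> intro h <;> linarith
  · rw [sub_nonpos, div_le_iff₀ hS]
  · rw [sub_nonpos, div_le_iff₀ hS]

lemma nrt_iff (hS : 0 < S) {d : ℂ} {s : Sr} {R : W3} : NRt d s S R ↔ ∃ ke : ℕ, ke ≤ R.length ∧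
    (∀ k : ℕ, k ≤ ke → fSt d s.e s.len s.hw (ps R k / S) ≤ 0) ∧
      ∀ k : ℕ, ke ≤ k → k ≤ R.length → fBn s.bn (ps R k / S) ≤ 0 := by
  unfold NRt
  refine exists_congr fun ke => and_congr_right fun _ => and_congr ?_ ?_
  · exact forall₂_congr fun _ _ => strip_iff hS
  · exact forall₃_congr fun _ _ _ => out_iff hS

lemma endQ_iff (hS : 0 < S) {d : ℂ} {c e : ℝ} {p : W3} : EndQ d c (e * S) p ↔ fCo d c (en p / S) ≤ -e := by
  unfold EndQ fCo
  rw [stlv_div, stnorm_div _ hS, mul_div_assoc', ← sub_div, div_le_iff₀ hS]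
  constructor <;> intro h <;> linarith

end iff

/-! ### the functions are Lipschitz -/

section lip

variable {d d' : ℂ} (hd : ‖d‖ = 1) (hd' : ‖d'‖ = 1)

include hd in
lemma lv_abs_le (z : ℂ) : |lv d z| ≤ ‖z‖ := by
  unfold lv
  refine (Complex.abs_re_le_norm _).trans ?_
  rw [norm_mul, Complex.norm_conj, hd, one_mul]

include hd in
lemma ltl_abs_le (z : ℂ) : |ltl d z| ≤ ‖z‖ := by
  unfold ltl
  refine (Complex.abs_im_le_norm _).trans ?_
  rw [norm_mul, Complex.norm_conj, hd, one_mul]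

include hd in
lemma lv_lip : LipschitzWith 1 (lv d) := LipschitzWith.of_dist_le_mul fun x y => by
  rw [Real.dist_eq, dist_eq_norm, ← lv_sub]
  simpa using lv_abs_le hd (x - y)

lemma ltl_sub (d z z' : ℂ) : ltl d (z - z') = ltl d z - ltl d z' := by
  unfold ltl
  rw [mul_sub, Complex.sub_im]

include hd in
lemma ltl_lip : LipschitzWith 1 (ltl d) := LipschitzWith.of_dist_le_mul fun x y => by
  rw [Real.dist_eq, dist_eq_norm, ← ltl_sub]
  simpa using ltl_abs_le hd (x - y)

lemma lip_norm : LipschitzWith 1 (fun v : ℂ => ‖v‖) := lipschitzWith_one_norm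

include hd in
lemma fCo_lip {c : ℝ} (h0 : 0 ≤ c) (h1 : c ≤ 1) : LipschitzWith 2 (fCo d c) := LipschitzWith.of_dist_le_mul fun x y => by
  rw [Real.dist_eq, dist_eq_norm]
  unfold fCo
  have e1 := abs_le.1 (abs_norm_sub_norm_le x y)
  have e2 := abs_le.1 (lv_abs_le hd (x - y))
  rw [lv_sub] at e2
  have e3 := mul_le_mul_of_nonneg_left e1.2 h0
  have e4 := mul_le_mul_of_nonneg_left e1.1 h0
  have e5 := mul_le_mul_of_nonneg_right h1 (norm_nonneg (x - y))
  show _ ≤ (2 : ℝ) * ‖x - y‖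
  rw [abs_le]
  constructor <;> nlinarith

include hd in
lemma fRa_lip {c r0 : ℝ} (h0 : 0 ≤ c) (h1 : c ≤ 1) : LipschitzWith 2 (fRa d c r0) := by
  have e1 : LipschitzWith 2 (fun v : ℂ => r0 - ‖v‖) := LipschitzWith.of_dist_le_mul fun x y => by
    rw [Real.dist_eq, dist_eq_norm]
    have e1 := abs_le.1 (abs_norm_sub_norm_le x y)
    show _ ≤ (2 : ℝ) * ‖x - y‖
    have := norm_nonneg (x - y)
    rw [abs_le]
    constructor <;> linarith
  have := (fCo_lip hd h0 h1).min e1
  rw [max_self] at this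
  exact this

include hd hd' in
lemma fWe_lip {w cs κs : ℝ} (h0 : 0 ≤ cs) (h1 : cs ≤ 1) : LipschitzWith 2 (fWe d d' w cs κs) := by
  have e1 : LipschitzWith 2 (fun v : ℂ => lv d v - w) := LipschitzWith.of_dist_le_mul fun x y => by
    rw [Real.dist_eq, dist_eq_norm]
    have e2 := abs_le.1 (lv_abs_le hd (x - y))
    rw [lv_sub] at e2
    show _ ≤ (2 : ℝ) * ‖x - y‖
    have := norm_nonneg (x - y)
    rw [abs_le]
    constructor <;> linarith
  have e2 : LipschitzWith 2 (fun v : ℂ => cs * ‖v‖ - κs - lv d' v) := LipschitzWith.of_dist_le_mul fun x y => by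
    have := (fCo_lip hd' h0 h1).dist_le_mul x y
    rw [Real.dist_eq] at this ⊢
    unfold fCo at this
    have e : cs * ‖x‖ - κs - lv d' x - (cs * ‖y‖ - κs - lv d' y) = cs * ‖x‖ - lv d' x - (cs * ‖y‖ - lv d' y) := by ring
    rw [e]
    exact this
  have := e1.min e2
  rw [max_self] at this
  exact this

include hd in
lemma fSt_lip {e len hw : ℝ} : LipschitzWith 1 (fSt d e len hw) := by
  have e1 : LipschitzWith 1 (fun v : ℂ => -e - lv d v) := LipschitzWith.of_dist_le_mul fun x y => by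
    have := (lv_lip hd).dist_le_mul x y
    rw [Real.dist_eq] at this ⊢
    rw [show -e - lv d x - (-e - lv d y) = -(lv d x - lv d y) by ring, abs_neg]
    exact this
  have e2 : LipschitzWith 1 (fun v : ℂ => lv d v - len) := LipschitzWith.of_dist_le_mul fun x y => by
    have := (lv_lip hd).dist_le_mul x y
    rw [Real.dist_eq] at this ⊢
    rw [show lv d x - len - (lv d y - len) = lv d x - lv d y by ring]
    exact this
  have e3 : LipschitzWith 1 (fun v : ℂ => |ltl d v| - hw) := LipschitzWith.of_dist_le_mul fun x y => by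
    have := (ltl_lip hd).dist_le_mul x y
    rw [Real.dist_eq] at this ⊢
    rw [show |ltl d x| - hw - (|ltl d y| - hw) = |ltl d x| - |ltl d y| by ring]
    exact (abs_abs_sub_abs_le _ _).trans this
  have := (e1.max e2).max e3
  rw [max_self, max_self] at this
  exact this

lemma fBn_lip {bn : ℝ} : LipschitzWith 1 (fBn bn) := LipschitzWith.of_dist_le_mul fun x y => by
  rw [Real.dist_eq, dist_eq_norm]
  unfold fBn
  have e1 := abs_norm_sub_norm_le x y
  rw [show bn - ‖x‖ - (bn - ‖y‖) = -(‖x‖ - ‖y‖) by ring, abs_neg]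
  simpa using e1

end lip

end Pool.Agent.ROT.F3
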