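import Mathlib

/-!
# ROT, F3 (B), row W8 (S), limit form (helper86): measurable functionals do not see small rotations

`P` = a finite measure on curves which is invariant under the rotations `γ ↦ z • γ`, `‖z‖ = 1`.

* **`str_L1`** : `∫ |f (z • γ) - f γ| dP → 0` as `z → 1`, for every integrable `f` (no continuity of `f`);
* `str_set` : `P (z⁻¹ A ∆ A) → 0`; **`str_ms`** : measurable `X` with values in a separable metric space: `dist (X (z • γ)) (X γ) → 0`
  in probability;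
* **`str_foreign`** : marks `D γ l` with a threshold `l` which is read by the OTHER lattice: `D (z • γ) (l' γ)` is close to the native
  mark `D γ (l γ)` in probability, if the threshold `l' γ` is close to the native threshold of `z • γ` and the native mark does not jump
  at its own threshold (`hloc`: generic parameter);
* `str_pos` : so a lower bound for native marks in a cell gives the lower bound for `native and foreign marks in the cell`.
-/

set_option autoImplicit false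

open MeasureTheory Filter Topology Set
open scoped ENNReal

namespace Pool.Agent.ROT.F3

variable {E : Type*} [NormedAddCommGroup E] [NormedSpace ℂ E] [MeasurableSpace E] [BorelSpace E] {P : Measure E}

/-- invariance under the rotations -/
def RInv (P : Measure E) : Prop := ∀ z : ℂ, ‖z‖ = 1 → P.map (fun γ : E => z • γ) = P

lemma RInv.mp (h : RInv P) {z : ℂ} (hz : ‖z‖ = 1) : MeasurePreserving (fun γ : E => z • γ) P P :=
  ⟨(continuous_const_smul z).measurable, h z hz⟩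

/-- preimages, sets which need not be measurable -/
lemma RInv.pre_le (h : RInv P) {z : ℂ} (hz : ‖z‖ = 1) (B : Set E) : P {γ | z • γ ∈ B} ≤ P B := by
  calc P {γ | z • γ ∈ B} ≤ P {γ | z • γ ∈ toMeasurable P B} := measure_mono fun γ hγ => subset_toMeasurable _ _ hγ
    _ = P (toMeasurable P B) := (h.mp hz).measure_preimage (measurableSet_toMeasurable _ _).nullMeasurableSet
    _ = P B := measure_toMeasurable _

/-- **strong continuity in `L¹`** -/
theorem str_L1 [IsFiniteMeasure P] (h : RInv P) {f : E → ℝ} (hf : Integrable f P) : ∀ ε : ℝ, 0 < ε → ∃ θ0 : ℝ, 0 < θ0 ∧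
    ∀ z : ℂ, ‖z‖ = 1 → ‖z - 1‖ ≤ θ0 → ∫ γ, |f (z • γ) - f γ| ∂P ≤ ε := by
  intro ε hε
  obtain ⟨g, hg, hgi⟩ := hf.exists_boundedContinuous_integral_sub_le (ε := ε / 3) (by positivity)
  have ht : Tendsto (fun z : ℂ => ∫ γ, |g (z • γ) - g γ| ∂P) (𝓝 1) (𝓝 (∫ _, (0 : ℝ) ∂P)) := by
    refine tendsto_integral_filter_of_dominated_convergence (fun _ => 2 * ‖g‖) (Eventually.of_forall fun z => ?_)
      (Eventually.of_forall fun z => Eventually.of_forall fun γ => ?_) (integrable_const _) (Eventually.of_forall fun γ => ?_)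
    · exact (((g.continuous.comp (continuous_const_smul z)).sub g.continuous).abs).aestronglyMeasurable
    · rw [Real.norm_eq_abs, abs_abs]
      calc |g (z • γ) - g γ| ≤ |g (z • γ)| + |g γ| := abs_sub _ _
        _ ≤ ‖g‖ + ‖g‖ := add_le_add (g.norm_coe_le_norm _) (g.norm_coe_le_norm _)
        _ = 2 * ‖g‖ := by ring
    · have hc : Continuous fun z : ℂ => |g (z • γ) - g γ| :=
        ((g.continuous.comp (continuous_id.smul continuous_const)).sub continuous_const).abs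
      have := hc.tendsto 1
      simpa using this
  rw [integral_zero] at ht
  obtain ⟨θ, hθ, hθ2⟩ := Metric.tendsto_nhds_nhds.1 ht (ε / 3) (by positivity)
  refine ⟨θ / 2, by positivity, fun z hz hz1 => ?_⟩
  have h1 : ∫ γ, |g (z • γ) - g γ| ∂P ≤ ε / 3 := by
    have := hθ2 (x := z) (by rw [dist_eq_norm]; linarith)
    rw [Real.dist_eq, sub_zero] at this
    exact (le_abs_self _).trans this.le
  have hmp := h.mp hz
  have i1 : Integrable (fun γ => f γ - g γ) P := hf.sub hgi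
  have i2 : Integrable (fun γ => f (z • γ) - g (z • γ)) P := hmp.integrable_comp_of_integrable i1
  have i3 : Integrable (fun γ => g (z • γ) - g γ) P := (hmp.integrable_comp_of_integrable hgi).sub hgi
  have h2 : ∫ γ, |f (z • γ) - g (z • γ)| ∂P = ∫ γ, |f γ - g γ| ∂P := by
    have e : P.map (fun γ : E => z • γ) = P := h z hz
    have hm : AEStronglyMeasurable (fun γ => |f γ - g γ|) (P.map (fun γ : E => z • γ)) := by
      rw [e]; exact i1.abs.aestronglyMeasurable
    have := integral_map (hmp.measurable.aemeasurable) hm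
    rw [e] at this
    exact this.symm
  calc ∫ γ, |f (z • γ) - f γ| ∂P ≤ ∫ γ, (|f (z • γ) - g (z • γ)| + |g (z • γ) - g γ| + |f γ - g γ|) ∂P := by
        refine integral_mono_of_nonneg (Eventually.of_forall fun γ => abs_nonneg _) ((i2.abs.add i3.abs).add i1.abs)
          (Eventually.of_forall fun γ => ?_)
        show |f (z • γ) - f γ| ≤ |f (z • γ) - g (z • γ)| + |g (z • γ) - g γ| + |f γ - g γ|
        have e : f (z • γ) - f γ = (f (z • γ) - g (z • γ)) + (g (z • γ) - g γ) - (f γ - g γ) := by ring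
        rw [e]
        exact (abs_sub _ _).trans (add_le_add (abs_add_le _ _) le_rfl)
    _ = ∫ γ, |f (z • γ) - g (z • γ)| ∂P + ∫ γ, |g (z • γ) - g γ| ∂P + ∫ γ, |f γ - g γ| ∂P := by
        have i23 : Integrable (fun γ => |f (z • γ) - g (z • γ)| + |g (z • γ) - g γ|) P := i2.abs.add i3.abs
        rw [integral_add i23 i1.abs, integral_add i2.abs i3.abs]
    _ ≤ ε / 3 + ε / 3 + ε / 3 := by
        rw [h2]
        have h3 : ∫ γ, |f γ - g γ| ∂P ≤ ε / 3 := by simpa [Real.norm_eq_abs] using hg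
        linarith
    _ = ε := by ring

/-- measurable sets -/
theorem str_set [IsFiniteMeasure P] (h : RInv P) {A : Set E} (hA : MeasurableSet A) : ∀ ε : ℝ, 0 < ε → ∃ θ0 : ℝ, 0 < θ0 ∧
    ∀ z : ℂ, ‖z‖ = 1 → ‖z - 1‖ ≤ θ0 → P {γ | γ ∈ A ∧ z • γ ∉ A} ≤ ENNReal.ofReal ε := by
  intro ε hε
  obtain ⟨θ0, hθ, h1⟩ := str_L1 h (f := A.indicator fun _ => (1 : ℝ)) ((integrable_const _).indicator hA) ε hε
  refine ⟨θ0, hθ, fun z hz hz1 => ?_⟩
  have h2 := h1 z hz hz1
  have hm : MeasurableSet {γ : E | z • γ ∈ A} := (continuous_const_smul z).measurable hA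
  have hB : MeasurableSet {γ : E | γ ∈ A ∧ z • γ ∉ A} := hA.inter hm.compl
  have i0 : Integrable (A.indicator fun _ => (1 : ℝ)) P := (integrable_const _).indicator hA
  have i1 : Integrable (fun γ => A.indicator (fun _ => (1 : ℝ)) (z • γ) - A.indicator (fun _ => (1 : ℝ)) γ) P :=
    ((h.mp hz).integrable_comp_of_integrable i0).sub i0
  have h3 : ∫ γ, {γ : E | γ ∈ A ∧ z • γ ∉ A}.indicator (fun _ => (1 : ℝ)) γ ∂P ≤
      ∫ γ, |A.indicator (fun _ => (1 : ℝ)) (z • γ) - A.indicator (fun _ => (1 : ℝ)) γ| ∂P := by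
    refine integral_mono ((integrable_const _).indicator hB) i1.abs fun γ => ?_
    by_cases hγ : γ ∈ {γ : E | γ ∈ A ∧ z • γ ∉ A}
    · rw [indicator_of_mem hγ]
      simp only [indicator_of_mem hγ.1, indicator_of_notMem hγ.2]
      norm_num
    · rw [indicator_of_notMem hγ]
      exact abs_nonneg _
  rw [integral_indicator_const _ hB, smul_eq_mul, mul_one] at h3
  rw [← ENNReal.ofReal_toReal (measure_ne_top P _)]
  exact ENNReal.ofReal_le_ofReal (h3.trans h2)

/-- **measurable maps into a separable metric space** -/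
theorem str_ms [IsFiniteMeasure P] (h : RInv P) {Y : Type*} [PseudoMetricSpace Y] [SecondCountableTopology Y] [MeasurableSpace Y]
    [OpensMeasurableSpace Y] {X : E → Y} (hX : Measurable X) : ∀ ε : ℝ, 0 < ε → ∃ θ0 : ℝ, 0 < θ0 ∧
    ∀ z : ℂ, ‖z‖ = 1 → ‖z - 1‖ ≤ θ0 → P {γ | ε < dist (X (z • γ)) (X γ)} ≤ ENNReal.ofReal ε := by
  intro ε hε
  rcases isEmpty_or_nonempty Y with hY | hY
  · refine ⟨1, one_pos, fun z _ _ => ?_⟩
    have : ∀ γ : E, False := fun γ => hY.elim (X γ)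
    have e : {γ : E | ε < dist (X (z • γ)) (X γ)} = ∅ := by
      ext γ; exact (this γ).elim
    rw [e, measure_empty]
    exact zero_le
  obtain ⟨y, hy⟩ := TopologicalSpace.exists_dense_seq Y
  obtain ⟨A, hA⟩ : ∃ A : ℕ → Set E, A = fun k => X ⁻¹' Metric.ball (y k) (ε / 2) := ⟨_, rfl⟩
  have hAm : ∀ k, MeasurableSet (A k) := fun k => by
    rw [hA]
    exact hX Metric.isOpen_ball.measurableSet
  have hcov : ⋃ k, A k = univ := by
    refine eq_univ_of_forall fun γ => ?_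
    obtain ⟨k, hk⟩ := hy.exists_mem_open (Metric.isOpen_ball (x := X γ) (ε := ε / 2)) ⟨X γ, Metric.mem_ball_self (by positivity)⟩
    refine mem_iUnion.2 ⟨k, ?_⟩
    rw [hA]
    show X γ ∈ Metric.ball (y k) (ε / 2)
    rw [Metric.mem_ball, dist_comm]
    exact Metric.mem_ball.1 hk
  -- finitely many cells have almost full measure
  have hlim : Tendsto (fun K : ℕ => P (⋃ k ∈ Finset.range K, A k)ᶜ) atTop (𝓝 (P (⋂ K : ℕ, (⋃ k ∈ Finset.range K, A k)ᶜ))) := by
    refine tendsto_measure_iInter_atTop (fun K => ?_) (fun a b hab => ?_) ⟨0, measure_ne_top _ _⟩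
    · exact (MeasurableSet.biUnion (Finset.range K).countable_toSet fun k _ => hAm k).compl.nullMeasurableSet
    · refine compl_subset_compl.2 ?_
      exact biUnion_subset_biUnion_left fun k hk => Finset.mem_coe.2 (Finset.range_mono hab (Finset.mem_coe.1 hk))
  have he : (⋂ K : ℕ, (⋃ k ∈ Finset.range K, A k)ᶜ) = ∅ := by
    refine eq_empty_of_forall_notMem fun γ hγ => ?_
    have h1 : γ ∈ ⋃ k, A k := by rw [hcov]; exact mem_univ _
    obtain ⟨k, hk⟩ := mem_iUnion.1 h1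
    exact mem_iInter.1 hγ (k + 1) (mem_biUnion (Finset.mem_coe.2 (Finset.mem_range.2 (Nat.lt_succ_self k))) hk)
  rw [he, measure_empty] at hlim
  obtain ⟨K, hK⟩ := ((tendsto_order.1 hlim).2 (ENNReal.ofReal (ε / 2)) (by positivity)).exists
  -- each of them does not move
  have h1 : ∀ k, ∃ θ0 : ℝ, 0 < θ0 ∧ ∀ z : ℂ, ‖z‖ = 1 → ‖z - 1‖ ≤ θ0 → P {γ | γ ∈ A k ∧ z • γ ∉ A k} ≤
      ENNReal.ofReal (ε / (2 * (K + 1))) := fun k => str_set h (hAm k) _ (by positivity)
  choose θ hθ0 hθ using h1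
  obtain ⟨θ0, hθ00, hθ01⟩ : ∃ θ0 : ℝ, 0 < θ0 ∧ ∀ k ∈ Finset.range K, θ0 ≤ θ k := by
    rcases (Finset.range K).eq_empty_or_nonempty with he' | hne
    · exact ⟨1, one_pos, fun k hk => by rw [he'] at hk; simp at hk⟩
    · obtain ⟨k0, hk0, hm⟩ := Finset.exists_min_image (Finset.range K) θ hne
      exact ⟨θ k0, hθ0 k0, fun k hk => hm k hk⟩
  refine ⟨θ0, hθ00, fun z hz hz1 => ?_⟩
  have hsub : {γ | ε < dist (X (z • γ)) (X γ)} ⊆
      (⋃ k ∈ Finset.range K, A k)ᶜ ∪ ⋃ k ∈ Finset.range K, {γ | γ ∈ A k ∧ z • γ ∉ A k} := by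
    intro γ hγ
    by_cases h2 : γ ∈ ⋃ k ∈ Finset.range K, A k
    · right
      obtain ⟨k, hk, hγk⟩ := mem_iUnion₂.1 h2
      refine mem_iUnion₂.2 ⟨k, hk, hγk, fun hzk => ?_⟩
      rw [hA] at hγk hzk
      have a1 : dist (X γ) (y k) < ε / 2 := hγk
      have a2 : dist (X (z • γ)) (y k) < ε / 2 := hzk
      have a3 := dist_triangle_right (X (z • γ)) (X γ) (y k)
      have a4 : ε < dist (X (z • γ)) (X γ) := hγ
      linarith
    · exact Or.inl h2
  calc P {γ | ε < dist (X (z • γ)) (X γ)}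
      ≤ P (⋃ k ∈ Finset.range K, A k)ᶜ + P (⋃ k ∈ Finset.range K, {γ | γ ∈ A k ∧ z • γ ∉ A k}) :=
        (measure_mono hsub).trans (measure_union_le _ _)
    _ ≤ ENNReal.ofReal (ε / 2) + ∑ k ∈ Finset.range K, P {γ | γ ∈ A k ∧ z • γ ∉ A k} :=
        add_le_add hK.le (measure_biUnion_finset_le _ _)
    _ ≤ ENNReal.ofReal (ε / 2) + ∑ k ∈ Finset.range K, ENNReal.ofReal (ε / (2 * (K + 1))) :=
        add_le_add le_rfl (Finset.sum_le_sum fun k hk => hθ k z hz (hz1.trans (hθ01 k hk)))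
    _ ≤ ENNReal.ofReal (ε / 2) + ENNReal.ofReal (ε / 2) := by
        refine add_le_add le_rfl ?_
        rw [Finset.sum_const, Finset.card_range, nsmul_eq_mul, ← ENNReal.ofReal_natCast, ← ENNReal.ofReal_mul (Nat.cast_nonneg K)]
        refine ENNReal.ofReal_le_ofReal ?_
        rw [mul_div_assoc', div_le_div_iff₀ (by positivity) (by positivity)]
        nlinarith [Nat.cast_nonneg (α := ℝ) K]
    _ = ENNReal.ofReal ε := by
        rw [← ENNReal.ofReal_add (by positivity) (by positivity)]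
        congr 1
        ring

/-- **the foreign mark**: `D γ l` = the mark of the curve `γ` for the threshold `l`, `l γ` = the native threshold, `l' z γ` = the threshold
of the rotated lattice. -/
theorem str_foreign [IsFiniteMeasure P] (h : RInv P) {Y Λ : Type*} [PseudoMetricSpace Y] [SecondCountableTopology Y]
    [MeasurableSpace Y] [OpensMeasurableSpace Y] [PseudoMetricSpace Λ] {D : E → Λ → Y} {l : E → Λ}
    (hX : Measurable fun γ => D γ (l γ)) {l' : ℂ → E → Λ}
    (hl : ∀ ε : ℝ, 0 < ε → ∃ θ0 : ℝ, 0 < θ0 ∧ ∀ z : ℂ, ‖z‖ = 1 → ‖z - 1‖ ≤ θ0 →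
      P {γ | ε < dist (l' z γ) (l (z • γ))} ≤ ENNReal.ofReal ε)
    (hloc : ∀ ε : ℝ, 0 < ε → ∃ δ : ℝ, 0 < δ ∧ P {γ | ∃ m, dist m (l γ) ≤ δ ∧ ε < dist (D γ m) (D γ (l γ))} ≤ ENNReal.ofReal ε) :
    ∀ ε : ℝ, 0 < ε → ∃ θ0 : ℝ, 0 < θ0 ∧ ∀ z : ℂ, ‖z‖ = 1 → ‖z - 1‖ ≤ θ0 →
      P {γ | ε < dist (D (z • γ) (l' z γ)) (D γ (l γ))} ≤ ENNReal.ofReal ε := by
  intro ε hε
  obtain ⟨δ, hδ, h1⟩ := hloc (ε / 3) (by positivity)
  obtain ⟨θ1, hθ1, h2⟩ := hl (min δ (ε / 3)) (lt_min hδ (by positivity))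
  obtain ⟨θ2, hθ2, h3⟩ := str_ms h hX (ε / 3) (by positivity)
  refine ⟨min θ1 θ2, lt_min hθ1 hθ2, fun z hz hz1 => ?_⟩
  have hsub : {γ | ε < dist (D (z • γ) (l' z γ)) (D γ (l γ))} ⊆
      ({γ | z • γ ∈ {γ | ∃ m, dist m (l γ) ≤ δ ∧ ε / 3 < dist (D γ m) (D γ (l γ))}} ∪
        {γ | min δ (ε / 3) < dist (l' z γ) (l (z • γ))}) ∪ {γ | ε / 3 < dist (D (z • γ) (l (z • γ))) (D γ (l γ))} := by
    intro γ hγ
    by_contra hc
    simp only [mem_union, mem_ofPred_eq, not_or, not_exists, not_and, not_lt] at hc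
    obtain ⟨⟨c1, c2⟩, c3⟩ := hc
    have c4 := c1 (l' z γ) (c2.trans (min_le_left _ _))
    have c5 := dist_triangle (D (z • γ) (l' z γ)) (D (z • γ) (l (z • γ))) (D γ (l γ))
    have c6 : ε < dist (D (z • γ) (l' z γ)) (D γ (l γ)) := hγ
    linarith
  calc P {γ | ε < dist (D (z • γ) (l' z γ)) (D γ (l γ))}
      ≤ (P {γ | z • γ ∈ {γ | ∃ m, dist m (l γ) ≤ δ ∧ ε / 3 < dist (D γ m) (D γ (l γ))}} +
        P {γ | min δ (ε / 3) < dist (l' z γ) (l (z • γ))}) + P {γ | ε / 3 < dist (D (z • γ) (l (z • γ))) (D γ (l γ))} :=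
        (measure_mono hsub).trans ((measure_union_le _ _).trans (add_le_add (measure_union_le _ _) le_rfl))
    _ ≤ (ENNReal.ofReal (ε / 3) + ENNReal.ofReal (ε / 3)) + ENNReal.ofReal (ε / 3) := by
        refine add_le_add (add_le_add ((h.pre_le hz _).trans h1) ?_) (h3 z hz (hz1.trans (min_le_right _ _)))
        exact (h2 z hz (hz1.trans (min_le_left _ _))).trans (ENNReal.ofReal_le_ofReal (min_le_right _ _))
    _ = ENNReal.ofReal ε := by
        rw [← ENNReal.ofReal_add (by positivity) (by positivity), ← ENNReal.ofReal_add (by positivity) (by positivity)]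
        congr 1
        ring

omit [BorelSpace E] in
/-- **native and foreign marks in the cell**: `Ev` = the native event, on it the native mark is in the cell `C`; `C'` contains the
`ε`-neighbourhood of `C` -/
theorem str_pos {Y Λ : Type*} [PseudoMetricSpace Y] {D : E → Λ → Y} {l : E → Λ} {l' : E → Λ} {z : ℂ} {Ev : Set E} {C C' : Set Y}
    {ε : ℝ} {p : ℝ≥0∞} (hEv : ∀ γ ∈ Ev, D γ (l γ) ∈ C) (hC : ∀ y ∈ C, ∀ y', dist y' y ≤ ε → y' ∈ C') (hp : p ≤ P Ev)
    (h : P {γ | ε < dist (D (z • γ) (l' γ)) (D γ (l γ))} ≤ ENNReal.ofReal ε) :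
    p ≤ P {γ | γ ∈ Ev ∧ D (z • γ) (l' γ) ∈ C'} + ENNReal.ofReal ε := by
  have hsub : Ev ⊆ {γ | γ ∈ Ev ∧ D (z • γ) (l' γ) ∈ C'} ∪ {γ | ε < dist (D (z • γ) (l' γ)) (D γ (l γ))} := by
    intro γ hγ
    by_cases h1 : ε < dist (D (z • γ) (l' γ)) (D γ (l γ))
    · exact Or.inr h1
    · exact Or.inl ⟨hγ, hC _ (hEv γ hγ) _ (not_lt.1 h1)⟩
  calc p ≤ P Ev := hp
    _ ≤ P {γ | γ ∈ Ev ∧ D (z • γ) (l' γ) ∈ C'} + P {γ | ε < dist (D (z • γ) (l' γ)) (D γ (l γ))} :=
        (measure_mono hsub).trans (measure_union_le _ _)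
    _ ≤ _ := add_le_add le_rfl h

end Pool.Agent.ROT.F3
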