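import Pool.Agent.ROT.F3Str

/-!
# ROT, F3 (B), row W8 (S), limit form for a family of laws (helper86)

One angle for all scales: `P i` invariant laws, `f i` functionals with Lipschitz approximations whose constant does not depend on `i`.

* **`str_unif`** : `∫ |f i (z • γ) - f i γ| dP i ≤ ε` for all `i` and all `‖z - 1‖ ≤ θ0 (ε)`;
* `str_prob` : in probability, for real functionals; `par_mean` : from the mean over the parameters to one parameter (`9/10` of them).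
-/

set_option autoImplicit false

open MeasureTheory Filter Topology Set
open scoped ENNReal NNReal

namespace Pool.Agent.ROT.F3

section unif

variable {E : Type*} [NormedAddCommGroup E] [NormedSpace ℂ E] [MeasurableSpace E] [BorelSpace E] {ι : Type*} {P : ι → Measure E}

/-- **small rotations, one angle for all laws of the family** -/
theorem str_unif (hfin : ∀ i, IsFiniteMeasure (P i)) {C : ℝ≥0} (hC : ∀ i, (P i).real univ ≤ C) (hinv : ∀ i, RInv (P i)) {f : ι → E → ℝ}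
    (hf : ∀ i, Measurable (f i)) (hf1 : ∀ i γ, |f i γ| ≤ 1)
    (hA : ∀ ε : ℝ, 0 < ε → ∃ K : ℝ≥0, ∀ i, ∃ φ : E → ℝ, LipschitzWith K φ ∧ (∀ γ, |φ γ| ≤ 1) ∧ ∫ γ, |f i γ - φ γ| ∂(P i) ≤ ε)
    (hT : ∀ ε : ℝ, 0 < ε → ∃ B : ℝ≥0, ∀ i, (P i).real {γ | (B : ℝ) < ‖γ‖} ≤ ε) :
    ∀ ε : ℝ, 0 < ε → ∃ θ0 : ℝ, 0 < θ0 ∧ ∀ z : ℂ, ‖z‖ = 1 → ‖z - 1‖ ≤ θ0 → ∀ i, ∫ γ, |f i (z • γ) - f i γ| ∂(P i) ≤ ε := by
  intro ε hε
  obtain ⟨K, hK⟩ := hA (ε / 4) (by positivity)
  obtain ⟨B, hB⟩ := hT (ε / 8) (by positivity)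
  obtain ⟨D, hD⟩ : ∃ D : ℝ, D = K * B * C + 1 := ⟨_, rfl⟩
  have hD0 : 0 < D := by rw [hD]; positivity
  refine ⟨ε / (4 * D), by positivity, fun z hz hz1 i => ?_⟩
  have := hfin i
  obtain ⟨φ, hL, hb, hφ⟩ := hK i
  have hmp := (hinv i).mp hz
  have hφm : Measurable φ := hL.continuous.measurable
  have bd : ∀ g : E → ℝ, Measurable g → (∀ γ, |g γ| ≤ 2) → Integrable g (P i) := fun g hg h2 =>
    Integrable.of_bound hg.aestronglyMeasurable 2 (Eventually.of_forall fun γ => by rw [Real.norm_eq_abs]; exact h2 γ)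
  have hz' : Measurable fun γ : E => z • γ := (continuous_const_smul z).measurable
  have t2 : ∀ a b : ℝ, |a| ≤ 1 → |b| ≤ 1 → |(|a - b|)| ≤ 2 := fun a b ha hb => by
    rw [abs_abs]
    exact (abs_sub _ _).trans (by linarith)
  have i1 : Integrable (fun γ => |f i γ - φ γ|) (P i) := bd _ ((hf i).sub hφm).abs fun γ => t2 _ _ (hf1 i γ) (hb γ)
  have i2 : Integrable (fun γ => |f i (z • γ) - φ (z • γ)|) (P i) :=
    bd _ (((hf i).comp hz').sub (hφm.comp hz')).abs fun γ => t2 _ _ (hf1 i _) (hb _)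
  have i3 : Integrable (fun γ => |φ (z • γ) - φ γ|) (P i) := bd _ ((hφm.comp hz').sub hφm).abs fun γ => t2 _ _ (hb _) (hb _)
  have e2 : ∫ γ, |f i (z • γ) - φ (z • γ)| ∂(P i) = ∫ γ, |f i γ - φ γ| ∂(P i) := by
    have e : (P i).map (fun γ : E => z • γ) = P i := hinv i z hz
    have hm : AEStronglyMeasurable (fun γ => |f i γ - φ γ|) ((P i).map (fun γ : E => z • γ)) := by
      rw [e]; exact i1.aestronglyMeasurable
    have h := integral_map (hmp.measurable.aemeasurable) hm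
    rw [e] at h
    exact h.symm
  have hS : MeasurableSet {γ : E | (B : ℝ) < ‖γ‖} := (isOpen_lt continuous_const continuous_norm).measurableSet
  have h3 : ∫ γ, |φ (z • γ) - φ γ| ∂(P i) ≤ ε / 2 := by
    calc ∫ γ, |φ (z • γ) - φ γ| ∂(P i)
        ≤ ∫ γ, (K * ‖z - 1‖ * B + {γ : E | (B : ℝ) < ‖γ‖}.indicator (fun _ => (2 : ℝ)) γ) ∂(P i) := by
          refine integral_mono i3 ((integrable_const _).add ((integrable_const _).indicator hS)) fun γ => ?_
          by_cases hγ : (B : ℝ) < ‖γ‖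
          · show |φ (z • γ) - φ γ| ≤ K * ‖z - 1‖ * B + {γ : E | (B : ℝ) < ‖γ‖}.indicator (fun _ => (2 : ℝ)) γ
            rw [indicator_of_mem (show γ ∈ {γ : E | (B : ℝ) < ‖γ‖} from hγ)]
            have h5 : |φ (z • γ) - φ γ| ≤ 2 := (abs_sub _ _).trans (by linarith [hb (z • γ), hb γ])
            have h6 : (0 : ℝ) ≤ K * ‖z - 1‖ * B := by positivity
            linarith
          · show |φ (z • γ) - φ γ| ≤ K * ‖z - 1‖ * B + {γ : E | (B : ℝ) < ‖γ‖}.indicator (fun _ => (2 : ℝ)) γ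
            rw [indicator_of_notMem (show γ ∉ {γ : E | (B : ℝ) < ‖γ‖} from hγ), add_zero]
            have h5 := hL.dist_le_mul (z • γ) γ
            rw [Real.dist_eq] at h5
            refine h5.trans ?_
            rw [mul_assoc]
            refine mul_le_mul_of_nonneg_left ?_ K.coe_nonneg
            rw [dist_eq_norm]
            calc ‖z • γ - γ‖ = ‖(z - 1) • γ‖ := by rw [sub_smul, one_smul]
              _ = ‖z - 1‖ * ‖γ‖ := norm_smul _ _
              _ ≤ ‖z - 1‖ * B := mul_le_mul_of_nonneg_left (not_lt.1 hγ) (norm_nonneg _)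
      _ = (P i).real univ * (K * ‖z - 1‖ * B) + (P i).real {γ : E | (B : ℝ) < ‖γ‖} * 2 := by
          rw [integral_add (integrable_const _) ((integrable_const _).indicator hS), integral_const, integral_indicator_const _ hS,
            smul_eq_mul, smul_eq_mul]
      _ ≤ ε / 4 + ε / 8 * 2 := by
          refine add_le_add ?_ (mul_le_mul_of_nonneg_right (hB i) zero_le_two)
          calc (P i).real univ * (K * ‖z - 1‖ * B) ≤ C * (K * ‖z - 1‖ * B) :=
                mul_le_mul_of_nonneg_right (hC i) (by positivity)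
            _ = (K * B * C) * ‖z - 1‖ := by ring
            _ ≤ D * ‖z - 1‖ := by
                rw [hD]
                have := norm_nonneg (z - 1)
                nlinarith
            _ ≤ D * (ε / (4 * D)) := mul_le_mul_of_nonneg_left hz1 hD0.le
            _ = ε / 4 := by field_simp
      _ = ε / 2 := by ring
  calc ∫ γ, |f i (z • γ) - f i γ| ∂(P i)
      ≤ ∫ γ, (|f i (z • γ) - φ (z • γ)| + |φ (z • γ) - φ γ| + |f i γ - φ γ|) ∂(P i) := by
        refine integral_mono_of_nonneg (Eventually.of_forall fun γ => abs_nonneg _) ((i2.add i3).add i1)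
          (Eventually.of_forall fun γ => ?_)
        show |f i (z • γ) - f i γ| ≤ |f i (z • γ) - φ (z • γ)| + |φ (z • γ) - φ γ| + |f i γ - φ γ|
        have e : f i (z • γ) - f i γ = (f i (z • γ) - φ (z • γ)) + (φ (z • γ) - φ γ) - (f i γ - φ γ) := by ring
        rw [e]
        exact (abs_sub _ _).trans (add_le_add (abs_add_le _ _) le_rfl)
    _ = ∫ γ, |f i (z • γ) - φ (z • γ)| ∂(P i) + ∫ γ, |φ (z • γ) - φ γ| ∂(P i) + ∫ γ, |f i γ - φ γ| ∂(P i) := by
        have i23 : Integrable (fun γ => |f i (z • γ) - φ (z • γ)| + |φ (z • γ) - φ γ|) (P i) := i2.add i3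
        rw [integral_add i23 i1, integral_add i2 i3]
    _ ≤ ε / 4 + ε / 2 + ε / 4 := by
        rw [e2]
        linarith
    _ = ε := by ring

omit [NormedAddCommGroup E] [NormedSpace ℂ E] [BorelSpace E] in
/-- Markov -/
theorem str_prob {Q : Measure E} {X Y : E → ℝ} {c ε δ : ℝ} (hδ : 0 < δ)
    (hi : Integrable (fun γ => |X γ - Y γ|) Q) (h : ∫ γ, |X γ - Y γ| ∂Q ≤ ε) (hc : ε ≤ c * δ) :
    Q.real {γ | δ ≤ |X γ - Y γ|} ≤ c := by
  have h1 := mul_meas_ge_le_integral_of_nonneg (μ := Q) (f := fun γ => |X γ - Y γ|) (Eventually.of_forall fun γ => abs_nonneg _) hi δ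
  have h2 : δ * Q.real {γ | δ ≤ |X γ - Y γ|} ≤ c * δ := (h1.trans h).trans hc
  nlinarith

end unif

section par

variable {X T : Type*} [MeasurableSpace X] [MeasurableSpace T]

/-- **from the mean over the parameters to most parameters**: `τ` = a probability on the parameters, `g t x ∈ [0, 1]` -/
theorem par_mean {Q : Measure X} [SFinite Q] {τ : Measure T} [IsProbabilityMeasure τ] {g : T → X → ℝ≥0∞}
    (hg : Measurable (Function.uncurry g)) {ε : ℝ≥0∞} (h : ∫⁻ x, ∫⁻ t, g t x ∂τ ∂Q ≤ ε) (hε : ε ≠ 0) (hε' : ε ≠ ⊤) :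
    9 / 10 ≤ τ {t | ∫⁻ x, g t x ∂Q ≤ 10 * ε} := by
  have h1 : ∫⁻ t, ∫⁻ x, g t x ∂Q ∂τ ≤ ε := by
    rw [lintegral_lintegral_swap (by exact hg.aemeasurable)]
    exact h
  have hm : Measurable fun t => ∫⁻ x, g t x ∂Q := hg.lintegral_prod_right'
  have h2 : τ {t | ∫⁻ x, g t x ∂Q ≤ 10 * ε}ᶜ ≤ 1 / 10 := by
    have h3 : {t | ∫⁻ x, g t x ∂Q ≤ 10 * ε}ᶜ ⊆ {t | 10 * ε ≤ ∫⁻ x, g t x ∂Q} := fun t ht => (not_le.1 (show ¬ ∫⁻ x, g t x ∂Q ≤ 10 * ε from ht)).le
    have h4 := mul_meas_ge_le_lintegral₀ (μ := τ) hm.aemeasurable (10 * ε)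
    have h5 : 10 * ε * τ {t | 10 * ε ≤ ∫⁻ x, g t x ∂Q} ≤ ε := h4.trans h1
    have h6 : τ {t | 10 * ε ≤ ∫⁻ x, g t x ∂Q} ≤ 1 / 10 := by
      rw [ENNReal.le_div_iff_mul_le (Or.inl (by norm_num)) (Or.inl (by norm_num))]
      have h7 : ε * (τ {t | 10 * ε ≤ ∫⁻ x, g t x ∂Q} * 10) ≤ ε * 1 := by
        calc ε * (τ {t | 10 * ε ≤ ∫⁻ x, g t x ∂Q} * 10) = 10 * ε * τ {t | 10 * ε ≤ ∫⁻ x, g t x ∂Q} := by ring
          _ ≤ ε := h5
          _ = ε * 1 := (mul_one _).symm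
      exact (ENNReal.mul_le_mul_iff_right hε hε').1 h7
    exact (measure_mono h3).trans h6
  have hms : MeasurableSet {t | ∫⁻ x, g t x ∂Q ≤ 10 * ε} := measurableSet_le hm measurable_const
  have h3 := prob_add_prob_compl (μ := τ) hms
  have h4 : (1 : ℝ≥0∞) ≤ τ {t | ∫⁻ x, g t x ∂Q ≤ 10 * ε} + 1 / 10 :=
    h3.ge.trans (add_le_add le_rfl h2)
  have h5 : (9 : ℝ≥0∞) / 10 + 1 / 10 = 1 := by
    rw [← ENNReal.add_div]
    norm_num
    exact ENNReal.div_self (by norm_num) (by norm_num)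
  have h6 : (9 : ℝ≥0∞) / 10 + 1 / 10 ≤ τ {t | ∫⁻ x, g t x ∂Q ≤ 10 * ε} + 1 / 10 := by rw [h5]; exact h4
  exact (ENNReal.add_le_add_iff_right (by simp)).1 h6

end par

end Pool.Agent.ROT.F3
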