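import Pool.Agent.ROT.F3PicW
import Pool.Agent.ROT.F3ClsG
import Pool.Agent.ROT.F3LimG
import Pool.Agent.ROT.F3CoreC

/-!
# ROT / F3Strip (helper79): marked rests with straight middle pieces; an arc cut from them is a main arc

* `Ry d m h` : width `h` around the piece `[0, m]` of the half line of direction `d`;
* **`MkK d d' D D'`** : the closed class of the marked curves (curve, (s, s')): block before `s` (strip and ball), straight behind
  `s`, never back; the same before `s'`; `isClosed_mkK`;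
* **`mk_word`** : block, word with straight ends, block; `mk_picW` : the words of `PicW`;
* **`clM_cut`** : the arc between two cuts `t ≤ s`, `s' ≤ t'` of the rotated lattice is in `ClM` if it is in `ClR`;
* `clM_turn` : turned curves.
-/

set_option autoImplicit false

open Topology Set ComplexConjugate

namespace Pool.Agent.ROT.F3

open Pool.Agent.NTS.Res (step pos saw fug)

/-! ### 1. The closed classes -/

/-- width `h` around the piece `[0, m]` of the half line of direction `d` -/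
def Ry (d : ℂ) (m h : ℝ) : Set ℂ := {v | ∃ y : ℝ, 0 ≤ y ∧ y ≤ m ∧ ‖v - y * d‖ ≤ h}

lemma isClosed_ry (d : ℂ) (m h : ℝ) : IsClosed (Ry d m h) := by
  have h1 : IsClosed {p : ℂ × Icc (0 : ℝ) m | ‖p.1 - ((p.2 : ℝ) : ℂ) * d‖ ≤ h} := by
    refine isClosed_le ?_ continuous_const
    have c1 : Continuous fun p : ℂ × Icc (0 : ℝ) m => ((p.2 : ℝ) : ℂ) :=
      Complex.continuous_ofReal.comp (continuous_subtype_val.comp continuous_snd)
    exact (continuous_fst.sub (c1.mul continuous_const)).norm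
  have h2 := isClosedMap_fst_of_compactSpace (X := ℂ) (Y := Icc (0 : ℝ) m) _ h1
  convert h2 using 1
  ext v
  constructor
  · rintro ⟨y, h3, h4, h5⟩
    exact ⟨(v, ⟨y, h3, h4⟩), h5, rfl⟩
  · rintro ⟨⟨v', y⟩, h3, rfl⟩
    exact ⟨y, y.2.1, y.2.2, h3⟩

/-- marked curves -/
abbrev MC : Type := C(unitInterval, ℂ) × (unitInterval × unitInterval)

/-- straight behind the first mark, then never back -/
def NpK (d : ℂ) (l m h : ℝ) : Set MC :=
  {x | ∃ k, x.2.1 ≤ k ∧ k ≤ x.2.2 ∧ (∀ τ, x.2.1 ≤ τ → τ ≤ k → x.1 τ - x.1 x.2.1 ∈ Ry d m h) ∧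
    ∀ τ, k ≤ τ → l ≤ ‖x.1 τ - x.1 x.2.1‖}

/-- straight before the second mark -/
def NqK (d : ℂ) (l m h : ℝ) : Set MC :=
  {x | ∃ k, x.2.1 ≤ k ∧ k ≤ x.2.2 ∧ (∀ τ, k ≤ τ → τ ≤ x.2.2 → x.1 τ - x.1 x.2.2 ∈ Ry d m h) ∧
    ∀ τ, τ ≤ k → l ≤ ‖x.1 τ - x.1 x.2.2‖}

/-- the block before the first mark -/
def BpK (d : ℂ) (w r : ℝ) : Set MC := {x | ∀ τ, τ ≤ x.2.1 → |ltl d (x.1 τ)| ≤ w ∧ ‖x.1 τ‖ ≤ r}

/-- the block behind the second mark -/
def BqK (d : ℂ) (w r : ℝ) : Set MC := {x | ∀ τ, x.2.2 ≤ τ → |ltl d (x.1 τ - x.1 1)| ≤ w ∧ ‖x.1 τ - x.1 1‖ ≤ r}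

/-- the values at continuous times -/
private lemma evc {X : Type*} [TopologicalSpace X] {f : X → C(unitInterval, ℂ)} {g : X → unitInterval} (hf : Continuous f)
    (hg : Continuous g) : Continuous fun x => f x (g x) := continuous_eval.comp (hf.prodMk hg)

lemma isClosed_bpK (d : ℂ) (w r : ℝ) : IsClosed (BpK d w r) := by
  have e : BpK d w r = ⋂ τ : unitInterval,
      ({x : MC | |ltl d (x.1 (min τ x.2.1))| ≤ w} ∩ {x : MC | ‖x.1 (min τ x.2.1)‖ ≤ r}) := by
    ext x
    simp only [BpK, mem_ofPred_eq, mem_iInter, mem_inter_iff]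
    constructor
    · exact fun h τ => h _ (min_le_right _ _)
    · intro h τ hτ
      have := h τ
      rwa [min_eq_left hτ] at this
  rw [e]
  refine isClosed_iInter fun τ => ?_
  have c : Continuous fun x : MC => x.1 (min τ x.2.1) := evc (by fun_prop) (by fun_prop)
  exact (isClosed_le ((ltl_cont' d).comp c).abs continuous_const).inter (isClosed_le c.norm continuous_const)

lemma isClosed_bqK (d : ℂ) (w r : ℝ) : IsClosed (BqK d w r) := by
  have e : BqK d w r = ⋂ τ : unitInterval,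
      ({x : MC | |ltl d (x.1 (max τ x.2.2) - x.1 1)| ≤ w} ∩ {x : MC | ‖x.1 (max τ x.2.2) - x.1 1‖ ≤ r}) := by
    ext x
    simp only [BqK, mem_ofPred_eq, mem_iInter, mem_inter_iff]
    constructor
    · exact fun h τ => h _ (le_max_right _ _)
    · intro h τ hτ
      have := h τ
      rwa [max_eq_left hτ] at this
  rw [e]
  refine isClosed_iInter fun τ => ?_
  have c : Continuous fun x : MC => x.1 (max τ x.2.2) - x.1 1 :=
    (evc (by fun_prop) (by fun_prop)).sub (evc (by fun_prop) continuous_const)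
  exact (isClosed_le ((ltl_cont' d).comp c).abs continuous_const).inter (isClosed_le c.norm continuous_const)

lemma isClosed_npK (d : ℂ) (l m h : ℝ) : IsClosed (NpK d l m h) := by
  have h1 : IsClosed {p : MC × unitInterval | p.1.2.1 ≤ p.2 ∧ p.2 ≤ p.1.2.2 ∧
      (∀ τ, p.1.1 (min (max τ p.1.2.1) p.2) - p.1.1 p.1.2.1 ∈ Ry d m h) ∧
      ∀ τ, l ≤ ‖p.1.1 (max τ p.2) - p.1.1 p.1.2.1‖} := by
    have c0 : Continuous fun p : MC × unitInterval => p.1.1 p.1.2.1 := evc (by fun_prop) (by fun_prop)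
    refine (isClosed_le (by fun_prop) (by fun_prop)).inter ((isClosed_le (by fun_prop) (by fun_prop)).inter
      (IsClosed.inter ?_ ?_))
    · have e : {p : MC × unitInterval | ∀ τ, p.1.1 (min (max τ p.1.2.1) p.2) - p.1.1 p.1.2.1 ∈ Ry d m h} =
          ⋂ τ : unitInterval, {p : MC × unitInterval | p.1.1 (min (max τ p.1.2.1) p.2) - p.1.1 p.1.2.1 ∈ Ry d m h} := by
        ext p
        simp only [mem_ofPred_eq, mem_iInter]
      refine (congrArg IsClosed e).mpr (isClosed_iInter fun τ => ?_)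
      exact (isClosed_ry d m h).preimage ((evc (by fun_prop) (by fun_prop)).sub c0)
    · have e : {p : MC × unitInterval | ∀ τ, l ≤ ‖p.1.1 (max τ p.2) - p.1.1 p.1.2.1‖} =
          ⋂ τ : unitInterval, {p : MC × unitInterval | l ≤ ‖p.1.1 (max τ p.2) - p.1.1 p.1.2.1‖} := by
        ext p
        simp only [mem_ofPred_eq, mem_iInter]
      refine (congrArg IsClosed e).mpr (isClosed_iInter fun τ => ?_)
      exact isClosed_le continuous_const ((evc (by fun_prop) (by fun_prop)).sub c0).norm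
  have h2 := isClosedMap_fst_of_compactSpace (X := MC) (Y := unitInterval) _ h1
  convert h2 using 1
  ext x
  constructor
  · rintro ⟨k, a1, a2, a3, a4⟩
    refine ⟨(x, k), ⟨a1, a2, fun τ => a3 _ (le_min (le_max_right _ _) a1) (min_le_right _ _),
      fun τ => a4 _ (le_max_right _ _)⟩, rfl⟩
  · rintro ⟨⟨x', k⟩, ⟨a1, a2, a3, a4⟩, rfl⟩
    refine ⟨k, a1, a2, fun τ b1 b2 => ?_, fun τ b1 => ?_⟩
    · have := a3 τ
      simp only at this b1 b2 ⊢
      rwa [max_eq_left b1, min_eq_left b2] at this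
    · have := a4 τ
      simp only at this b1 ⊢
      rwa [max_eq_left b1] at this

lemma isClosed_nqK (d : ℂ) (l m h : ℝ) : IsClosed (NqK d l m h) := by
  have h1 : IsClosed {p : MC × unitInterval | p.1.2.1 ≤ p.2 ∧ p.2 ≤ p.1.2.2 ∧
      (∀ τ, p.1.1 (max (min τ p.1.2.2) p.2) - p.1.1 p.1.2.2 ∈ Ry d m h) ∧
      ∀ τ, l ≤ ‖p.1.1 (min τ p.2) - p.1.1 p.1.2.2‖} := by
    have c0 : Continuous fun p : MC × unitInterval => p.1.1 p.1.2.2 := evc (by fun_prop) (by fun_prop)
    refine (isClosed_le (by fun_prop) (by fun_prop)).inter ((isClosed_le (by fun_prop) (by fun_prop)).inter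
      (IsClosed.inter ?_ ?_))
    · have e : {p : MC × unitInterval | ∀ τ, p.1.1 (max (min τ p.1.2.2) p.2) - p.1.1 p.1.2.2 ∈ Ry d m h} =
          ⋂ τ : unitInterval, {p : MC × unitInterval | p.1.1 (max (min τ p.1.2.2) p.2) - p.1.1 p.1.2.2 ∈ Ry d m h} := by
        ext p
        simp only [mem_ofPred_eq, mem_iInter]
      refine (congrArg IsClosed e).mpr (isClosed_iInter fun τ => ?_)
      exact (isClosed_ry d m h).preimage ((evc (by fun_prop) (by fun_prop)).sub c0)
    · have e : {p : MC × unitInterval | ∀ τ, l ≤ ‖p.1.1 (min τ p.2) - p.1.1 p.1.2.2‖} =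
          ⋂ τ : unitInterval, {p : MC × unitInterval | l ≤ ‖p.1.1 (min τ p.2) - p.1.1 p.1.2.2‖} := by
        ext p
        simp only [mem_ofPred_eq, mem_iInter]
      refine (congrArg IsClosed e).mpr (isClosed_iInter fun τ => ?_)
      exact isClosed_le continuous_const ((evc (by fun_prop) (by fun_prop)).sub c0).norm
  have h2 := isClosedMap_fst_of_compactSpace (X := MC) (Y := unitInterval) _ h1
  convert h2 using 1
  ext x
  constructor
  · rintro ⟨k, a1, a2, a3, a4⟩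
    refine ⟨(x, k), ⟨a1, a2, fun τ => a3 _ (le_max_right _ _) (max_le (min_le_right _ _) a2),
      fun τ => a4 _ (min_le_right _ _)⟩, rfl⟩
  · rintro ⟨⟨x', k⟩, ⟨a1, a2, a3, a4⟩, rfl⟩
    refine ⟨k, a1, a2, fun τ b1 b2 => ?_, fun τ b1 => ?_⟩
    · have := a3 τ
      simp only at this b1 b2 ⊢
      rwa [min_eq_left b2, max_eq_left b1] at this
    · have := a4 τ
      simp only at this b1 ⊢
      rwa [min_eq_left b1] at this

/-- the numbers of one end of a marked curve: half width `w` and radius `r` of the block, distance `l` of no return, extent `m` and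
width `h` of the straight piece -/
structure Sd where
  w : ℝ
  r : ℝ
  l : ℝ
  m : ℝ
  h : ℝ

/-- **the closed class of the marked curves** -/
structure MkC (d d' : ℂ) (D D' : Sd) (x : MC) : Prop where
  z : x.1 0 = 0
  bp : x ∈ BpK d D.w D.r
  bq : x ∈ BqK d' D'.w D'.r
  np : x ∈ NpK d D.l D.m D.h
  nq : x ∈ NqK d' D'.l D'.m D'.h

/-- the set -/
def MkK (d d' : ℂ) (D D' : Sd) : Set MC := {x | MkC d d' D D' x}

theorem isClosed_mkK (d d' : ℂ) (D D' : Sd) : IsClosed (MkK d d' D D') := by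
  have e : MkK d d' D D' = {x : MC | x.1 0 = 0} ∩ (BpK d D.w D.r ∩ (BqK d' D'.w D'.r ∩ (NpK d D.l D.m D.h ∩
      NqK d' D'.l D'.m D'.h))) := by
    ext x
    constructor
    · intro h
      exact ⟨h.z, h.bp, h.bq, h.np, h.nq⟩
    · rintro ⟨h1, h2, h3, h4, h5⟩
      exact ⟨h1, h2, h3, h4, h5⟩
  rw [e]
  exact (isClosed_eval0.preimage continuous_fst).inter ((isClosed_bpK _ _ _).inter ((isClosed_bqK _ _ _).inter
    ((isClosed_npK _ _ _ _).inter (isClosed_nqK _ _ _ _))))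

/-! ### 2. Words -/

/-- words with a straight start (in order of time) -/
def StW (d : ℂ) (l m h S : ℝ) (U : W3) : Prop := ∃ k1, k1 ≤ U.length ∧
  (∀ k, k ≤ k1 → ∃ x : ℝ, 0 ≤ x ∧ x ≤ m * S ∧ ‖ps U k - x * d‖ ≤ h * S) ∧
    ∀ k, k1 ≤ k → k ≤ U.length → l * S ≤ ‖ps U k‖

private lemma ltl_add' (d v e : ℂ) : ltl d (v + e) = ltl d v + ltl d e := by
  unfold ltl
  rw [mul_add, Complex.add_im]

private lemma ltl_sub' (d v e : ℂ) : ltl d (v - e) = ltl d v - ltl d e := by
  unfold ltl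
  rw [mul_sub, Complex.sub_im]

private lemma abs_ltl_le {d : ℂ} (hd : ‖d‖ = 1) (v : ℂ) : |ltl d v| ≤ ‖v‖ := by
  unfold ltl
  refine (Complex.abs_im_le_norm _).trans ?_
  rw [norm_mul, Complex.norm_conj, hd, one_mul]

private lemma abs_lv_le {d : ℂ} (hd : ‖d‖ = 1) (v : ℂ) : |lv d v| ≤ ‖v‖ := by
  unfold lv
  refine (Complex.abs_re_le_norm _).trans ?_
  rw [norm_mul, Complex.norm_conj, hd, one_mul]

private lemma ltl_near {d v v' : ℂ} (hd : ‖d‖ = 1) {w e : ℝ} (h : |ltl d v| ≤ w) (he : ‖v' - v‖ ≤ e) : |ltl d v'| ≤ w + e := by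
  have e1 : ltl d v' = ltl d v + ltl d (v' - v) := by rw [ltl_sub']; ring
  rw [e1]
  have := abs_ltl_le hd (v' - v)
  have := abs_add_le (ltl d v) (ltl d (v' - v))
  linarith

private lemma ry_near {d v v' : ℂ} {m m' h h' e : ℝ} (hv : v ∈ Ry d m h) (he : ‖v' - v‖ ≤ e) (hm : m ≤ m') (hh : h + e ≤ h') :
    v' ∈ Ry d m' h' := by
  obtain ⟨y, y0, y1, y2⟩ := hv
  refine ⟨y, y0, y1.trans hm, ?_⟩
  calc ‖v' - y * d‖ = ‖(v' - v) + (v - y * d)‖ := by congr 1; ring
    _ ≤ ‖v' - v‖ + ‖v - y * d‖ := norm_add_le _ _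
    _ ≤ h' := by linarith

/-- the vertex before the time `τ` -/
private lemma lift_i {R : W3} {n a b : ℕ} {S : ℝ} (hn : 1 ≤ n) (hS : 0 < S) (hb : b ≤ n) {τ : unitInterval} (h1 : fr a n ≤ τ)
    (h2 : τ ≤ fr b n) (ha : a ≤ b) : ∃ i, a ≤ i ∧ i ≤ b ∧ ‖crv R n S τ - ps R i / S‖ ≤ 1 / S := by
  have hn0 : (0 : ℝ) < n := by exact_mod_cast hn
  have g1 : (a : ℝ) ≤ τ * n := by
    have h3 : ((fr a n : unitInterval) : ℝ) ≤ τ := h1
    rw [fr_coe (ha.trans hb), div_le_iff₀ hn0] at h3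
    exact h3
  have g2 : (τ : ℝ) * n ≤ b := by
    have h3 : (τ : ℝ) ≤ ((fr b n : unitInterval) : ℝ) := h2
    rw [fr_coe hb, le_div_iff₀ hn0] at h3
    exact h3
  refine ⟨⌊(τ : ℝ) * n⌋₊, Nat.le_floor g1, Nat.floor_le_of_le g2, ?_⟩
  rw [← dist_eq_norm]
  exact near_floor hn hS τ

private lemma crv_fr {R : W3} {n a : ℕ} {S : ℝ} (hn : 1 ≤ n) (ha : a ≤ n) : crv R n S (fr a n) = ps R a / S :=
  crv_vertex hn ha (fr_mul ha hn)

private lemma fr_mono {a b n : ℕ} (hab : a ≤ b) (hb : b ≤ n) : fr a n ≤ fr b n := by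
  show ((fr a n : unitInterval) : ℝ) ≤ ((fr b n : unitInterval) : ℝ)
  rw [fr_coe (hab.trans hb), fr_coe hb]
  exact div_le_div_of_nonneg_right (by exact_mod_cast hab) (Nat.cast_nonneg _)

/-- the blocks and the middle word, `d` = direction -/
structure BUB (d d' : ℂ) (w r l m h w' r' l' m' h' e0 S : ℝ) (β U β' : W3) : Prop where
  eβ : Even β.length
  eU : Even U.length
  eβ' : Even β'.length
  bw : ∀ k, k ≤ β.length → |ltl d (ps β k)| ≤ w * S
  br : ∀ k, k ≤ β.length → ‖ps β k‖ ≤ r * S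
  bw' : ∀ k, k ≤ β'.length → |ltl d' (ps β' k)| ≤ w' * S
  br' : ∀ k, k ≤ β'.length → ‖ps β' k‖ ≤ r' * S
  sp : StW d l m h S U
  sq : StW d' l' m' h' S U.reverse
  far : e0 * S ≤ ‖en U‖

section

variable {d d' : ℂ} {w r l m h w' r' l' m' h' e0 S : ℝ} {β U β' : W3}

private lemma ps_b (h : BUB d d' w r l m h w' r' l' m' h' e0 S β U β') {i : ℕ} (h2 : i ≤ U.length) :
    ps (β ++ (U ++ β'.reverse)) (β.length + i) = en β + ps U i := by
  rw [ps_append_right h.eβ, ps_append_left h2]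

private lemma ps_c (h : BUB d d' w r l m h w' r' l' m' h' e0 S β U β') {j : ℕ} (h2 : j ≤ β'.length) :
    ps (β ++ (U ++ β'.reverse)) (β.length + U.length + j) = en β + (en U + (ps β' (β'.length - j) - en β')) := by
  rw [add_assoc, ps_append_right h.eβ, ps_append_right h.eU, ps_reverse h.eβ' h2]

private lemma div_mul_self {x S : ℝ} (hS : 0 < S) : x * S / S = x := by field_simp

private lemma ry_div {v : ℂ} {m h S : ℝ} {d : ℂ} (hS : 0 < S) (hv : ∃ x : ℝ, 0 ≤ x ∧ x ≤ m * S ∧ ‖v - x * d‖ ≤ h * S) :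
    v / S ∈ Ry d m h := by
  obtain ⟨x, x0, x1, x2⟩ := hv
  refine ⟨x / S, by positivity, by rwa [div_le_iff₀ hS], ?_⟩
  have e : v / S - ((x / S : ℝ) : ℂ) * d = (v - x * d) / S := by
    push_cast
    ring
  rw [e, norm_div_S _ hS, div_le_iff₀ hS]
  exact x2

private lemma ltl_div' (d v : ℂ) (S : ℝ) : ltl d (v / S) = ltl d v / S := by
  unfold ltl
  rw [← mul_div_assoc, Complex.div_ofReal_im]

/-- **block, word with straight ends, block: the marked curve** -/
theorem mk_word (hB : BUB d d' w r l m h w' r' l' m' h' e0 S β U β') (hd : ‖d‖ = 1) (hd' : ‖d'‖ = 1) (hS : 0 < S)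
    (hn : 1 ≤ (β ++ (U ++ β'.reverse)).length) {D D' : Sd} (a1 : w + 1 / S ≤ D.w) (a2 : r + 1 / S ≤ D.r) (a3 : D.l + 1 / S ≤ l)
    (a4 : D.l + 2 * r' + 1 / S ≤ e0) (a5 : m ≤ D.m) (a6 : h + 1 / S ≤ D.h) (b1 : w' + 1 / S ≤ D'.w) (b2 : r' + 1 / S ≤ D'.r)
    (b3 : D'.l + 1 / S ≤ l') (b4 : D'.l + 2 * r + 1 / S ≤ e0) (b5 : m' ≤ D'.m) (b6 : h' + 1 / S ≤ D'.h) :
    (crv (β ++ (U ++ β'.reverse)) (β ++ (U ++ β'.reverse)).length S,
      (fr β.length (β ++ (U ++ β'.reverse)).length, fr (β.length + U.length) (β ++ (U ++ β'.reverse)).length)) ∈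
        MkK d d' D D' := by
  obtain ⟨R, hR⟩ : ∃ R, R = β ++ (U ++ β'.reverse) := ⟨_, rfl⟩
  have hlen : R.length = β.length + U.length + β'.length := by
    rw [hR]
    simp only [List.length_append, List.length_reverse]
    ring
  have q1 : ∀ i, i ≤ β.length → ps R i = ps β i := fun i hi => by rw [hR, ps_append_left hi]
  have q2 : ∀ i, i ≤ U.length → ps R (β.length + i) = en β + ps U i := fun i hi => by rw [hR]; exact ps_b hB hi
  have q3 : ∀ j, j ≤ β'.length → ps R (β.length + U.length + j) = en β + (en U + (ps β' (β'.length - j) - en β')) :=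
    fun j hj => by rw [hR]; exact ps_c hB hj
  rw [← hR] at hn ⊢
  obtain ⟨n, hn'⟩ : ∃ n, n = R.length := ⟨_, rfl⟩
  have hS1 : 0 < 1 / S := by positivity
  have z1 : ‖en β‖ ≤ r * S := hB.br _ le_rfl
  have z2 : ‖en β'‖ ≤ r' * S := hB.br' _ le_rfl
  have p0 : ps R β.length = en β := by rw [q1 _ le_rfl, en]
  have p1 : ps R (β.length + U.length) = en β + en U := by rw [q2 _ le_rfl]; rfl
  have p2 : ps R n = en β + (en U - en β') := by
    have := q3 β'.length le_rfl
    rw [Nat.sub_self, ps_zero] at this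
    rw [hn', hlen, this]
    ring
  rw [← hn'] at hn hlen ⊢
  have la : β.length ≤ n := by omega
  have lb : β.length + U.length ≤ n := by omega
  have c0 : crv R n S (fr β.length n) = ps R β.length / S := crv_fr hn la
  have c1 : crv R n S (fr (β.length + U.length) n) = ps R (β.length + U.length) / S := crv_fr hn lb
  have c2 : crv R n S 1 = ps R n / S := crv_one _ _ _
  refine ⟨crv_zero _ _ _, fun τ hτ => ?_, fun τ hτ => ?_, ?_, ?_⟩
  · -- the first block
    simp only at hτ ⊢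
    obtain ⟨i, -, i2, i3⟩ := lift_i (R := R) (a := 0) hn hS la (by rw [fr_zero]; exact unitInterval.nonneg' ) hτ (Nat.zero_le _)
    rw [q1 i i2] at i3
    refine ⟨(ltl_near hd (w := w) ?_ i3).trans a1, ?_⟩
    · rw [ltl_div', abs_div, abs_of_pos hS, div_le_iff₀ hS]
      exact hB.bw i i2
    · have h1 : ‖ps β i / S‖ ≤ r := by
        rw [norm_div_S _ hS, div_le_iff₀ hS]
        exact hB.br i i2
      have := norm_le_norm_add_norm_sub' (crv R n S τ) (ps β i / S)
      linarith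
  · -- the second block
    simp only at hτ ⊢
    obtain ⟨i, i1, i2, i3⟩ := lift_i (R := R) (b := n) hn hS le_rfl hτ (by rw [fr_self hn]; exact unitInterval.le_one') lb
    obtain ⟨j, rfl⟩ : ∃ j, i = β.length + U.length + j := ⟨i - (β.length + U.length), by omega⟩
    have hj : j ≤ β'.length := by omega
    have e : ps R (β.length + U.length + j) / S - ps R n / S = ps β' (β'.length - j) / S := by
      rw [q3 j hj, p2]
      ring
    have i4 : ‖crv R n S τ - crv R n S 1 - ps β' (β'.length - j) / S‖ ≤ 1 / S := by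
      rw [← e, c2]
      calc _ = ‖crv R n S τ - ps R (β.length + U.length + j) / S‖ := by congr 1; ring
        _ ≤ _ := i3
    refine ⟨(ltl_near hd' (w := w') ?_ i4).trans b1, ?_⟩
    · rw [ltl_div', abs_div, abs_of_pos hS, div_le_iff₀ hS]
      exact hB.bw' _ (Nat.sub_le _ _)
    · have h1 : ‖ps β' (β'.length - j) / S‖ ≤ r' := by
        rw [norm_div_S _ hS, div_le_iff₀ hS]
        exact hB.br' _ (Nat.sub_le _ _)
      have := norm_le_norm_add_norm_sub' (crv R n S τ - crv R n S 1) (ps β' (β'.length - j) / S)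
      linarith
  · -- straight behind the first mark
    obtain ⟨k1, k2, k3, k4⟩ := hB.sp
    have lk : β.length + k1 ≤ n := by omega
    refine ⟨fr (β.length + k1) n, fr_mono (by omega) lk, fr_mono (by omega) lb, fun τ t1 t2 => ?_, fun τ t1 => ?_⟩
    · simp only at t1 t2 ⊢
      obtain ⟨i, i1, i2, i3⟩ := lift_i (R := R) hn hS lk t1 t2 (by omega)
      obtain ⟨j, rfl⟩ : ∃ j, i = β.length + j := ⟨i - β.length, by omega⟩
      have e : ps R (β.length + j) / S - ps R β.length / S = ps U j / S := by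
        rw [q2 j (by omega), p0]
        ring
      refine ry_near (ry_div hS (k3 j (by omega))) (e := 1 / S) ?_ a5 a6
      rw [← e, c0]
      calc _ = ‖crv R n S τ - ps R (β.length + j) / S‖ := by congr 1; ring
        _ ≤ _ := i3
    · simp only at t1 ⊢
      obtain ⟨i, i1, i2, i3⟩ := lift_i (R := R) (b := n) hn hS le_rfl t1 (by rw [fr_self hn]; exact unitInterval.le_one') lk
      have key : D.l + 1 / S ≤ ‖ps R i / S - ps R β.length / S‖ := by
        rcases le_total i (β.length + U.length) with h1 | h1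
        · obtain ⟨j, rfl⟩ : ∃ j, i = β.length + j := ⟨i - β.length, by omega⟩
          have e : ps R (β.length + j) / S - ps R β.length / S = ps U j / S := by
            rw [q2 j (by omega), p0]
            ring
          rw [e, norm_div_S _ hS]
          refine a3.trans ?_
          rw [le_div_iff₀ hS]
          exact k4 j (by omega) (by omega)
        · obtain ⟨j, rfl⟩ : ∃ j, i = β.length + U.length + j := ⟨i - (β.length + U.length), by omega⟩
          have e : ps R (β.length + U.length + j) / S - ps R β.length / S =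
              (en U + (ps β' (β'.length - j) - en β')) / S := by
            rw [q3 j (by omega), p0]
            ring
          rw [e, norm_div_S _ hS, le_div_iff₀ hS]
          have g1 := hB.br' (β'.length - j) (Nat.sub_le _ _)
          have g2 : ‖ps β' (β'.length - j) - en β'‖ ≤ 2 * r' * S := by
            have := norm_sub_le (ps β' (β'.length - j)) (en β')
            linarith
          have g3 : ‖en U‖ ≤ ‖en U + (ps β' (β'.length - j) - en β')‖ + ‖ps β' (β'.length - j) - en β'‖ := by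
            calc ‖en U‖ = ‖(en U + (ps β' (β'.length - j) - en β')) - (ps β' (β'.length - j) - en β')‖ := by congr 1; ring
              _ ≤ _ := norm_sub_le _ _
          have g4 := hB.far
          have g5 : (D.l + 2 * r' + 1 / S) * S ≤ e0 * S := mul_le_mul_of_nonneg_right a4 hS.le
          nlinarith
      rw [c0]
      have : ‖ps R i / S - ps R β.length / S‖ ≤ ‖crv R n S τ - ps R β.length / S‖ + ‖crv R n S τ - ps R i / S‖ := by
        calc _ = ‖(crv R n S τ - ps R β.length / S) - (crv R n S τ - ps R i / S)‖ := by congr 1; ring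
          _ ≤ _ := norm_sub_le _ _
      linarith
  · -- straight before the second mark
    obtain ⟨k1, k2, k3, k4⟩ := hB.sq
    rw [List.length_reverse] at k2 k4
    have lk : β.length + U.length - k1 ≤ n := by omega
    have q4 : ∀ j, j ≤ U.length → ps R (β.length + U.length - j) / S - ps R (β.length + U.length) / S = ps U.reverse j / S := by
      intro j hj
      have h1 : β.length + U.length - j = β.length + (U.length - j) := by omega
      rw [h1, q2 _ (Nat.sub_le _ _), p1, ps_reverse hB.eU hj]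
      ring
    refine ⟨fr (β.length + U.length - k1) n, fr_mono (by omega) lk, fr_mono (by omega) lb, fun τ t1 t2 => ?_, fun τ t1 => ?_⟩
    · simp only at t1 t2 ⊢
      obtain ⟨i, i1, i2, i3⟩ := lift_i (R := R) hn hS lb t1 t2 (by omega)
      obtain ⟨j, rfl, hj⟩ : ∃ j, i = β.length + U.length - j ∧ j ≤ k1 := ⟨β.length + U.length - i, by omega, by omega⟩
      refine ry_near (ry_div hS (k3 j hj)) (e := 1 / S) ?_ b5 b6
      rw [← q4 j (by omega), c1]
      calc _ = ‖crv R n S τ - ps R (β.length + U.length - j) / S‖ := by congr 1; ring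
        _ ≤ _ := i3
    · simp only at t1 ⊢
      obtain ⟨i, i1, i2, i3⟩ := lift_i (R := R) (a := 0) hn hS lk (by rw [fr_zero]; exact unitInterval.nonneg') t1 (Nat.zero_le _)
      have key : D'.l + 1 / S ≤ ‖ps R i / S - ps R (β.length + U.length) / S‖ := by
        rcases le_total β.length i with h1 | h1
        · obtain ⟨j, rfl, hj, hj'⟩ : ∃ j, i = β.length + U.length - j ∧ k1 ≤ j ∧ j ≤ U.length :=
            ⟨β.length + U.length - i, by omega, by omega, by omega⟩
          rw [q4 j hj', norm_div_S _ hS]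
          refine b3.trans ?_
          rw [le_div_iff₀ hS]
          exact k4 j hj hj'
        · have e : ps R i / S - ps R (β.length + U.length) / S = -((en U - (ps β i - en β)) / S) := by
            rw [q1 i h1, p1]
            ring
          rw [e, norm_neg, norm_div_S _ hS, le_div_iff₀ hS]
          have g1 := hB.br i h1
          have g2 : ‖ps β i - en β‖ ≤ 2 * r * S := by
            have := norm_sub_le (ps β i) (en β)
            linarith
          have g3 : ‖en U‖ ≤ ‖en U - (ps β i - en β)‖ + ‖ps β i - en β‖ := by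
            calc ‖en U‖ = ‖(en U - (ps β i - en β)) + (ps β i - en β)‖ := by congr 1; ring
              _ ≤ _ := norm_add_le _ _
          have g4 := hB.far
          have g5 : (D'.l + 2 * r + 1 / S) * S ≤ e0 * S := mul_le_mul_of_nonneg_right b4 hS.le
          nlinarith
      rw [c1]
      have : ‖ps R i / S - ps R (β.length + U.length) / S‖ ≤
          ‖crv R n S τ - ps R (β.length + U.length) / S‖ + ‖crv R n S τ - ps R i / S‖ := by
        calc _ = ‖(crv R n S τ - ps R (β.length + U.length) / S) - (crv R n S τ - ps R i / S)‖ := by congr 1; ring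
          _ ≤ _ := norm_sub_le _ _
      linarith

end

/-! ### 3. Blocks and the words of `PicW` -/

/-- the blocks of the class `OtB` and a word with straight ends -/
theorem bub_ot {d d' : ℂ} {l m h l' m' h' e0 S T : ℝ} {O O' : Ot} {β U β' : W3} (hb : OtM d O S T β) (hb' : OtM d' O' S T β')
    (eU : Even U.length) (sp : StW d l m h S U) (sq : StW d' l' m' h' S U.reverse) (far : e0 * S ≤ ‖en U‖) :
    BUB d d' O.hw O.r l m h O'.hw O'.r l' m' h' e0 S β U β' :=
  ⟨hb.k.t.ev, eU, hb'.k.t.ev, hb.hw, hb.k.t.ball, hb'.hw, hb'.k.t.ball, sp, sq, far⟩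

/-- **the words of `PicW` between two blocks** -/
theorem mk_picW {a : Fin 3} {ℓp ℓq h M lo hi S T : ℝ} {t : ℂ} {O O' : Ot} {β U β' : W3}
    (hU : Pw.PicW a ℓp ℓq h M t lo hi S U) (hb : OtM (ev a) O S T β) (hb' : OtM (ev (-a)) O' S T β') (hS : 0 < S)
    {D D' : Sd} (a1 : O.hw + 1 / S ≤ D.w) (a2 : O.r + 1 / S ≤ D.r) (a3 : D.l + 1 / S ≤ ℓp)
    (a4 : D.l + 2 * O'.r + 1 / S ≤ ‖t‖ - h) (a5 : ℓp + h ≤ D.m) (a6 : h + 1 / S ≤ D.h) (b1 : O'.hw + 1 / S ≤ D'.w)
    (b2 : O'.r + 1 / S ≤ D'.r) (b3 : D'.l + 1 / S ≤ ℓq) (b4 : D'.l + 2 * O.r + 1 / S ≤ ‖t‖ - h) (b5 : ℓq + h ≤ D'.m)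
    (b6 : h + 1 / S ≤ D'.h) :
    (crv (β ++ (U ++ β'.reverse)) (β ++ (U ++ β'.reverse)).length S,
      (fr β.length (β ++ (U ++ β'.reverse)).length, fr (β.length + U.length) (β ++ (U ++ β'.reverse)).length)) ∈
        MkK (ev a) (ev (-a)) D D' := by
  have hd : ∀ b : Fin 3, ‖ev b‖ = 1 := fun b => by rw [ev_step]; exact Pool.Agent.PMA.LimR.norm_step' _ _
  have far : (‖t‖ - h) * S ≤ ‖en U‖ := by
    have h1 := hU.en
    have h2 : ‖(S : ℂ) * t‖ = S * ‖t‖ := by rw [norm_mul, Complex.norm_real, Real.norm_eq_abs, abs_of_pos hS]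
    have h3 := norm_sub_norm_le ((S : ℂ) * t) (en U)
    rw [norm_sub_rev, h2] at h3
    nlinarith
  have sp : StW (ev a) ℓp (ℓp + h) h S U := by
    rw [ev_step]
    exact hU.np
  have sq : StW (ev (-a)) ℓq (ℓq + h) h S U.reverse := by
    rw [ev_step]
    obtain ⟨k1, k2, k3, k4⟩ := hU.nq
    exact ⟨k1, by rwa [List.length_reverse], k3, fun k k5 k6 => k4 k k5 (by rwa [List.length_reverse] at k6)⟩
  refine mk_word (bub_ot hb hb' hU.rb.ev sp sq far) (hd _) (hd _) hS ?_ a1 a2 a3 a4 a5 a6 b1 b2 b3 b4 b5 b6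
  have := hb.k.t.pos
  rw [List.length_append]
  omega

/-! ### 4. The arc between two cuts -/

/-- the numbers of one end: `ε` = angle of the two lattices, `rg` = radius of the right condition of the class -/
structure CutN (ε rg : ℝ) (D : Sd) (sr : Sr) : Prop where
  m : 0 ≤ D.m
  h : 0 ≤ D.h
  e : D.h ≤ sr.e
  len : 2 * D.r + D.m + D.h ≤ sr.len
  hw : 2 * D.w + D.h + ε * (2 * D.r + D.m + D.h) ≤ sr.hw
  bn : sr.bn + 2 * D.r ≤ D.l
  rg : 2 * D.r < rg

private lemma ltl_turn {d u : ℂ} {ε : ℝ} (h : ‖u - d‖ ≤ ε) (v : ℂ) : |ltl u v| ≤ |ltl d v| + ε * ‖v‖ := by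
  have e : ltl u v = ltl d v + ltl (u - d) v := by
    unfold ltl
    rw [← Complex.add_im, ← add_mul, ← map_add]
    congr 3
    ring
  have h1 : |ltl (u - d) v| ≤ ε * ‖v‖ := by
    unfold ltl
    refine (Complex.abs_im_le_norm _).trans ?_
    rw [norm_mul, Complex.norm_conj]
    exact mul_le_mul_of_nonneg_right h (norm_nonneg _)
  rw [e]
  have := abs_add_le (ltl d v) (ltl (u - d) v)
  linarith

private lemma ltl_self {d : ℂ} (y : ℝ) : ltl d (y * d) = 0 := by
  unfold ltl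
  have h1 : conj d * ((y : ℂ) * d) = ((y * Complex.normSq d : ℝ) : ℂ) := by
    rw [Complex.ofReal_mul, ← Complex.mul_conj]
    ring
  rw [h1, Complex.ofReal_im]

private lemma lv_turn {d u : ℂ} {ε : ℝ} (hd : ‖d‖ = 1) (h : ‖u - d‖ ≤ ε) (hε : ε ≤ 1) {y : ℝ} (hy : 0 ≤ y) : 0 ≤ lv u (y * d) := by
  have h1 : lv u (y * d) = y * (conj u * d).re := by
    unfold lv
    have : conj u * ((y : ℂ) * d) = ((y : ℝ) : ℂ) * (conj u * d) := by ring
    rw [this, Complex.re_ofReal_mul]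
  have h2 : (conj u * d).re = 1 + (conj (u - d) * d).re := by
    have e : conj u * d = conj d * d + conj (u - d) * d := by
      rw [map_sub]
      ring
    rw [e, Complex.add_re]
    congr 1
    rw [Complex.conj_mul', hd]
    norm_num
  have h3 : |(conj (u - d) * d).re| ≤ ε := by
    refine (Complex.abs_re_le_norm _).trans ?_
    rw [norm_mul, Complex.norm_conj, hd, mul_one]
    exact h
  rw [h1, h2]
  have := (abs_le.1 h3).1
  exact mul_nonneg hy (by linarith)

section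

variable {ε rg : ℝ} {D : Sd} {sr : Sr} {d u : ℂ}

/-- inside of the block -/
lemma stK_A (N : CutN ε rg D sr) (hd : ‖u - d‖ ≤ ε) (hu : ‖u‖ = 1) {x y : ℂ} (hx : |ltl d x| ≤ D.w ∧ ‖x‖ ≤ D.r)
    (hy : |ltl d y| ≤ D.w ∧ ‖y‖ ≤ D.r) (h0 : 0 ≤ lv u (x - y)) : x - y ∈ StK u sr := by
  have n1 : ‖x - y‖ ≤ 2 * D.r := by
    have := norm_sub_le x y
    linarith [hx.2, hy.2]
  have n2 := (abs_le.1 (abs_lv_le hu (x - y))).2
  have ε0 : 0 ≤ ε := (norm_nonneg _).trans hd
  refine ⟨by linarith [N.h, N.e], by linarith [N.m, N.h, N.len], ?_⟩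
  have n3 := ltl_turn hd (x - y)
  have n4 : |ltl d (x - y)| ≤ 2 * D.w := by
    rw [ltl_sub']
    have := abs_sub (ltl d x) (ltl d y)
    linarith [hx.1, hy.1]
  have n5 : ε * ‖x - y‖ ≤ ε * (2 * D.r + D.m + D.h) := mul_le_mul_of_nonneg_left (by linarith [N.m, N.h]) ε0
  linarith [N.hw, N.h]

/-- on the straight piece -/
lemma stK_B (N : CutN ε rg D sr) (hd : ‖u - d‖ ≤ ε) (hε : ε ≤ 1) (hu : ‖u‖ = 1) (hd1 : ‖d‖ = 1) {x y z : ℂ}
    (hy : |ltl d y| ≤ D.w ∧ ‖y‖ ≤ D.r) (hz : |ltl d z| ≤ D.w ∧ ‖z‖ ≤ D.r) (h0 : 0 ≤ lv u (z - y))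
    (hx : x - z ∈ Ry d D.m D.h) : x - y ∈ StK u sr := by
  obtain ⟨s, s0, s1, s2⟩ := hx
  have ε0 : 0 ≤ ε := (norm_nonneg _).trans hd
  have n0 : ‖z - y‖ ≤ 2 * D.r := by
    have := norm_sub_le z y
    linarith [hz.2, hy.2]
  have n1 : ‖x - z‖ ≤ D.m + D.h := by
    have h1 : ‖(s : ℂ) * d‖ = s := by
      rw [norm_mul, hd1, mul_one, Complex.norm_real, Real.norm_eq_abs, abs_of_nonneg s0]
    have h2 := norm_le_norm_add_norm_sub' (x - z) ((s : ℂ) * d)
    rw [h1] at h2
    linarith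
  have n2 : ‖x - y‖ ≤ 2 * D.r + D.m + D.h := by
    calc ‖x - y‖ = ‖(x - z) + (z - y)‖ := by congr 1; ring
      _ ≤ ‖x - z‖ + ‖z - y‖ := norm_add_le _ _
      _ ≤ _ := by linarith
  have n3 := (abs_le.1 (abs_lv_le hu (x - y))).2
  refine ⟨?_, by linarith [N.len], ?_⟩
  · have e : lv u (x - y) = lv u ((s : ℂ) * d) + lv u ((x - z) - (s : ℂ) * d) + lv u (z - y) := by
      rw [← lv_add, ← lv_add]
      congr 1
      ring
    have g1 := lv_turn hd1 hd hε s0
    have g2 := (abs_le.1 (abs_lv_le hu ((x - z) - (s : ℂ) * d))).1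
    rw [e]
    linarith [N.e]
  · have n4 := ltl_turn hd (x - y)
    have e : ltl d (x - y) = ltl d ((x - z) - (s : ℂ) * d) + (ltl d z - ltl d y) := by
      have h1 : x - y = ((x - z) - (s : ℂ) * d) + (z - y) + (s : ℂ) * d := by ring
      rw [h1, ltl_add', ltl_add', ltl_self, ltl_sub' d z y]
      ring
    have g1 := abs_ltl_le hd1 ((x - z) - (s : ℂ) * d)
    have g2 : |ltl d (x - y)| ≤ D.h + 2 * D.w := by
      rw [e]
      have h1 := abs_add_le (ltl d ((x - z) - (s : ℂ) * d)) (ltl d z - ltl d y)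
      have h2 := abs_sub (ltl d z) (ltl d y)
      linarith [hz.1, hy.1]
    have n5 : ε * ‖x - y‖ ≤ ε * (2 * D.r + D.m + D.h) := mul_le_mul_of_nonneg_left n2 ε0
    linarith [N.hw]

/-- behind the straight piece -/
lemma ouK_C (N : CutN ε rg D sr) {x y z : ℂ} (hy : ‖y‖ ≤ D.r) (hz : ‖z‖ ≤ D.r) (hx : D.l ≤ ‖x - z‖) : x - y ∈ OuK sr := by
  have n0 : ‖z - y‖ ≤ 2 * D.r := by
    have := norm_sub_le z y
    linarith
  have n1 : ‖x - z‖ ≤ ‖x - y‖ + ‖z - y‖ := by
    calc ‖x - z‖ = ‖(x - y) - (z - y)‖ := by congr 1; ring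
      _ ≤ _ := norm_sub_le _ _
  show sr.bn ≤ ‖x - y‖
  linarith [N.bn]

end

/-- **the arc between two cuts**: `r` = a marked rest, `t ≤ s`, `s' ≤ t'` = the times of the cuts of the rotated lattice -/
theorem clM_cut {r : C(unitInterval, ℂ)} {s s' : unitInterval} {t t' : ℝ} {d d' u u' : ℂ} {D D' : Sd} {P Q : Tp} {W : Wn}
    {sr sr' : Sr} {ε : ℝ} (hM : (r, (s, s')) ∈ MkK d d' D D') (ht : t ∈ Icc (0 : ℝ) 1) (ht' : t' ∈ Icc (0 : ℝ) 1)
    (hs : t ≤ s) (hs' : (s' : ℝ) ≤ t') (hC : CC.cutp r t t' ∈ ClR u u' P Q W) (N : CutN ε P.rg D sr) (N' : CutN ε Q.rg D' sr')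
    (hd : ‖d‖ = 1) (hd' : ‖d'‖ = 1) (hu : ‖u‖ = 1) (hu' : ‖u'‖ = 1) (hε : ‖u - d‖ ≤ ε) (hε' : ‖u' - d'‖ ≤ ε) (ε1 : ε ≤ 1) :
    CC.cutp r t t' ∈ ClM u u' P Q W sr sr' := by
  obtain ⟨T, rfl⟩ : ∃ T : unitInterval, (T : ℝ) = t := ⟨⟨t, ht⟩, rfl⟩
  obtain ⟨T', rfl⟩ : ∃ T' : unitInterval, (T' : ℝ) = t' := ⟨⟨t', ht'⟩, rfl⟩
  have hs1 : T ≤ s := hs
  have hs1' : s' ≤ T' := hs'
  obtain ⟨k, k1, k2, k3, k4⟩ := hM.np
  obtain ⟨j, j1, j2, j3, j4⟩ := hM.nq
  simp only at k1 k2 k3 k4 j1 j2 j3 j4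
  have bp : ∀ τ, τ ≤ s → |ltl d (r τ)| ≤ D.w ∧ ‖r τ‖ ≤ D.r := hM.bp
  have bq : ∀ τ, s' ≤ τ → |ltl d' (r τ - r 1)| ≤ D'.w ∧ ‖r τ - r 1‖ ≤ D'.r := hM.bq
  have htt : (T : ℝ) ≤ T' := (hs1.trans (k1.trans k2)).trans hs1'
  -- times of the arc
  have tm : ∀ a : unitInterval, ∃ A : unitInterval, (A : ℝ) = T + a * ((T' : ℝ) - T) ∧ T ≤ A ∧ A ≤ T' ∧
      CC.cutp r T T' a = r A - r T ∧ CC.cutp r T T' a - CC.cutp r T T' 1 = r A - r T' := by
    intro a
    have hA := CC.mid_mem T.2 T'.2 a.2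
    refine ⟨⟨_, hA⟩, rfl, ?_, ?_, ?_, ?_⟩
    · show (T : ℝ) ≤ T + a * ((T' : ℝ) - T)
      have := mul_nonneg a.2.1 (sub_nonneg.2 htt)
      linarith
    · show (T : ℝ) + a * ((T' : ℝ) - T) ≤ T'
      have := mul_le_mul_of_nonneg_right a.2.2 (sub_nonneg.2 htt)
      linarith
    · rw [CC.cutp_apply, CC.ex_of _ hA, CC.ex_coe]
    · rw [CC.cutp_apply, CC.cutp_one, CC.ex_of _ hA, CC.ex_coe, CC.ex_coe]
      ring
  have inv : ∀ K : unitInterval, T ≤ K → K ≤ T' → ∃ a : unitInterval, (K : ℝ) = T + a * ((T' : ℝ) - T) := by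
    intro K h1 h2
    rcases htt.lt_or_eq with h3 | h3
    · have h4 : 0 < (T' : ℝ) - T := by linarith
      refine ⟨⟨((K : ℝ) - T) / (T' - T), ?_, ?_⟩, ?_⟩
      · exact div_nonneg (by have : (T : ℝ) ≤ K := h1; linarith) h4.le
      · rw [div_le_one h4]
        have : (K : ℝ) ≤ T' := h2
        linarith
      · show (K : ℝ) = T + ((K : ℝ) - T) / (T' - T) * (T' - T)
        rw [div_mul_cancel₀ _ h4.ne']
        ring
    · refine ⟨0, ?_⟩
      have h4 : (T : ℝ) ≤ K := h1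
      have h5 : (K : ℝ) ≤ T' := h2
      rw [Icc.coe_zero, zero_mul, add_zero]
      linarith
  have mono : ∀ a b A : ℝ, a ≤ b → A = T + a * ((T' : ℝ) - T) → A ≤ T + b * ((T' : ℝ) - T) := by
    intro a b A hab hA
    rw [hA]
    have := mul_le_mul_of_nonneg_right hab (sub_nonneg.2 htt)
    linarith
  -- the right condition of the class in the blocks
  have rp : ∀ A : unitInterval, T ≤ A → A ≤ s → 0 ≤ lv u (r A - r T) := by
    intro A h1 h2
    obtain ⟨a, ha⟩ := inv A h1 (h2.trans (k1.trans (k2.trans hs1')))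
    obtain ⟨A', e1, -, -, e4, -⟩ := tm a
    have e : A' = A := Subtype.ext (e1.trans ha.symm)
    subst e
    have h3 := (hC.2.2 a).1.1
    rw [e4] at h3
    rcases h3 with h3 | h3
    · exact h3
    · exfalso
      have h4 := (bp A' h2).2
      have h5 := (bp T hs1).2
      have h6 := norm_sub_le (r A') (r T)
      have := N.rg
      linarith
  have rq : ∀ A : unitInterval, s' ≤ A → A ≤ T' → 0 ≤ lv u' (r A - r T') := by
    intro A h1 h2
    obtain ⟨a, ha⟩ := inv A ((hs1.trans (k1.trans k2)).trans h1) h2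
    obtain ⟨A', e1, -, -, -, e5⟩ := tm a
    have e : A' = A := Subtype.ext (e1.trans ha.symm)
    subst e
    have h3 := (hC.2.2 a).2.1
    rw [e5] at h3
    rcases h3 with h3 | h3
    · exact h3
    · exfalso
      have h4 := (bq A' h1).2
      have h5 := (bq T' hs1').2
      have h6 := norm_sub_le (r A' - r 1) (r T' - r 1)
      rw [sub_sub_sub_cancel_right] at h6
      have := N'.rg
      linarith
  refine ⟨hC, ?_, ?_⟩
  · obtain ⟨a0, ha0⟩ := inv k (hs1.trans k1) (k2.trans hs1')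
    refine ⟨a0, fun a ha => ?_, fun a ha => ?_⟩
    · obtain ⟨A, e1, e2, e3, e4, -⟩ := tm a
      have hAk : A ≤ k := by
        have : (A : ℝ) ≤ T + a0 * ((T' : ℝ) - T) := mono a a0 A ha e1
        rw [← ha0] at this
        exact this
      rw [e4]
      rcases le_total A s with h1 | h1
      · exact stK_A N hε hu (bp A h1) (bp T hs1) (rp A e2 h1)
      · exact stK_B N hε ε1 hu hd (bp T hs1) (bp s le_rfl) (rp s hs1 le_rfl) (k3 A h1 hAk)
    · obtain ⟨A, e1, e2, e3, e4, -⟩ := tm a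
      have hAk : k ≤ A := by
        have : (k : ℝ) ≤ T + a * ((T' : ℝ) - T) := mono a0 a k ha ha0
        rw [← e1] at this
        exact this
      rw [e4]
      exact ouK_C N (bp T hs1).2 (bp s le_rfl).2 (k4 A hAk)
  · obtain ⟨a0, ha0⟩ := inv j (hs1.trans j1) (j2.trans hs1')
    have hz : r s' - r T' = (r s' - r 1) - (r T' - r 1) := by ring
    refine ⟨a0, fun a ha => ?_, fun a ha => ?_⟩
    · obtain ⟨A, e1, e2, e3, -, e5⟩ := tm a
      have hAk : A ≤ j := by
        have : (A : ℝ) ≤ T + a0 * ((T' : ℝ) - T) := mono a a0 A ha e1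
        rw [← ha0] at this
        exact this
      rw [e5]
      have h1 := ouK_C N' (x := r A - r 1) (y := r T' - r 1) (z := r s' - r 1) (bq T' hs1').2 (bq s' le_rfl).2
        (by rw [sub_sub_sub_cancel_right]; exact j4 A hAk)
      rwa [sub_sub_sub_cancel_right] at h1
    · obtain ⟨A, e1, e2, e3, -, e5⟩ := tm a
      have hAk : j ≤ A := by
        have : (j : ℝ) ≤ T + a * ((T' : ℝ) - T) := mono a0 a j ha ha0
        rw [← e1] at this
        exact this
      rw [e5]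
      rcases le_total s' A with h1 | h1
      · have h2 := stK_A N' hε' hu' (x := r A - r 1) (y := r T' - r 1) (bq A h1) (bq T' hs1')
          (by rw [sub_sub_sub_cancel_right]; exact rq A h1 e3)
        rwa [sub_sub_sub_cancel_right] at h2
      · have h2 := stK_B N' hε' ε1 hu' hd' (x := r A - r 1) (y := r T' - r 1) (z := r s' - r 1) (bq T' hs1') (bq s' le_rfl)
          (by rw [sub_sub_sub_cancel_right]; exact rq s' le_rfl hs1') (by rw [sub_sub_sub_cancel_right]; exact j3 A hAk h1)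
        rwa [sub_sub_sub_cancel_right] at h2

/-! ### 5. Turned curves -/

private lemma lv_mul_u (u d v : ℂ) : lv (u * d) v = lv d (conj u * v) := by
  unfold lv
  rw [map_mul]
  congr 1
  ring

private lemma ltl_mul_u (u d v : ℂ) : ltl (u * d) v = ltl d (conj u * v) := by
  unfold ltl
  rw [map_mul]
  congr 1
  ring

/-- **the native frame**: `c' = conj u * c` -/
theorem clM_turn {u d d' : ℂ} (hu : ‖u‖ = 1) {P Q : Tp} {W : Wn} {s s' : Sr} {c c' : C(unitInterval, ℂ)}
    (h : ∀ τ, c' τ = conj u * c τ) : c ∈ ClM (u * d) (u * d') P Q W s s' ↔ c' ∈ ClM d d' P Q W s s' := by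
  have n : ∀ v : ℂ, ‖conj u * v‖ = ‖v‖ := fun v => by rw [norm_mul, Complex.norm_conj, hu, one_mul]
  have e1 : ∀ (d : ℂ) (s : Sr) (v : ℂ), v ∈ StK (u * d) s ↔ conj u * v ∈ StK d s := by
    intro d s v
    simp only [StK, mem_ofPred_eq, lv_mul_u, ltl_mul_u]
  have e2 : ∀ (s : Sr) (v : ℂ), v ∈ OuK s ↔ conj u * v ∈ OuK s := by
    intro s v
    simp only [OuK, mem_ofPred_eq, n]
  have e3 : ∀ (d : ℂ) (P : Tp) (v : ℂ), v ∈ EdK (u * d) P ↔ conj u * v ∈ EdK d P := by
    intro d s v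
    simp only [EdK, Kn, mem_ofPred_eq, lv_mul_u, n]
  have e4 : ∀ τ, conj u * (c τ - c 1) = c' τ - c' 1 := fun τ => by rw [h, h]; ring
  have key : ∀ τ, ‖c' τ‖ = ‖c τ‖ := fun τ => by rw [h, n]
  have e0 : c' 0 = 0 ↔ c 0 = 0 := by rw [← norm_eq_zero, key, norm_eq_zero]
  have eR : c ∈ ClR (u * d) (u * d') P Q W ↔ c' ∈ ClR d d' P Q W := by
    constructor
    · rintro ⟨h1, h2, h3⟩
      refine ⟨e0.2 h1, by rw [key]; exact h2, fun t => ⟨?_, ?_⟩⟩
      · rw [h]
        exact (e3 _ _ _).1 (h3 t).1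
      · rw [← e4]
        exact (e3 _ _ _).1 (h3 t).2
    · rintro ⟨h1, h2, h3⟩
      refine ⟨e0.1 h1, by rw [← key]; exact h2, fun t => ⟨?_, ?_⟩⟩
      · rw [e3, ← h]
        exact (h3 t).1
      · rw [e3, e4]
        exact (h3 t).2
  constructor
  · rintro ⟨h0, ⟨a, h1, h2⟩, ⟨b, h3, h4⟩⟩
    refine ⟨eR.1 h0, ⟨a, fun t ht => ?_, fun t ht => ?_⟩, ⟨b, fun t ht => ?_, fun t ht => ?_⟩⟩
    · rw [h]
      exact (e1 _ _ _).1 (h1 t ht)
    · rw [h]
      exact (e2 _ _).1 (h2 t ht)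
    · rw [← e4]
      exact (e2 _ _).1 (h3 t ht)
    · rw [← e4]
      exact (e1 _ _ _).1 (h4 t ht)
  · rintro ⟨h0, ⟨a, h1, h2⟩, ⟨b, h3, h4⟩⟩
    refine ⟨eR.2 h0, ⟨a, fun t ht => ?_, fun t ht => ?_⟩, ⟨b, fun t ht => ?_, fun t ht => ?_⟩⟩
    · rw [e1, ← h]
      exact h1 t ht
    · rw [e2, ← h]
      exact h2 t ht
    · rw [e2, e4]
      exact h3 t ht
    · rw [e1, e4]
      exact h4 t ht

end Pool.Agent.ROT.F3
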