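import Pool.Agent.ROT.F3Sum
import Pool.Agent.ROT.F3Dic
import Pool.Agent.NTS.MergeC

/-!
# ROT, block F3, row F6c (helper58): the sums over the closed words, and their rotation invariance

* `SW2 N Φ = N ^ (-2/3) ∑ (closed words w) fug ^ |w| ∑ (m < |w|) Φ |w| m (crv w |w| N)` : roots `0` and `m`, lattice scale `N`;
* `tsum_cl`, `tsum_pol`, `sw2_pol` : finite support, the same sum over `pol n`; `W2_words` : the sum `W2` of F3Sum in terms of the closed words;
* **`sw2_near`** : `SW2` and `W2` are close (the last edge); **`sw2_rot : RotP → Fast → QB → ..`** : rotation invariance.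
-/

set_option autoImplicit false

open MeasureTheory Filter Topology Set

open scoped Classical NNReal ENNReal

namespace Pool.Agent.ROT.F

open Pool.Agent.NTS.Res Pool.Agent.PMA Pool.Agent.PMA.Res

open Pool.Agent.ROT.F3 (W3 st ps en Cl Cln Cln_finite Cln_empty crv clw sum_pol' curve_clw)

/-! ### the curves of the words -/

lemma norm_st (w : W3) (i : ℕ) : ‖st w i‖ ≤ 1 := by
  unfold st
  split_ifs with h
  · exact le_of_eq (Pool.Agent.PMA.LimR.norm_step' _ _)
  · rw [norm_zero]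
    norm_num

lemma ps_lip (w : W3) (k : ℕ) : ‖ps w (k + 1) - ps w k‖ ≤ 1 := by
  rw [F3.ps_succ, add_sub_cancel_left]
  exact norm_st w k

lemma crv_smul (w : W3) (n N : ℕ) : crv w n N = (1 / (N : ℝ)) • Tight.poly (fun k => ps w k) n := by
  rw [NTSF.Mg.poly_smul]
  unfold crv
  congr 1
  funext k
  push_cast
  ring

lemma crv_dist {w : W3} {n N : ℕ} (hn : 1 ≤ n) : dist (crv w n N) (crv w (n + 1) N) ≤ 5 / N := by
  refine (ContinuousMap.dist_le (by positivity)).2 fun u => ?_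
  rw [crv_smul, crv_smul, ContinuousMap.smul_apply, ContinuousMap.smul_apply, dist_smul₀, Real.norm_of_nonneg (by positivity),
    dist_eq_norm]
  have h := NTSF.Mg.poly_close (ps_lip w) (ps_lip w) (n' := n + 1) (D := 1) hn (by omega) le_rfl (fun i _ => by
    rw [sub_self, norm_zero]
    norm_num) u
  calc 1 / (N : ℝ) * ‖Tight.poly (fun k => ps w k) n u - Tight.poly (fun k => ps w k) (n + 1) u‖
      ≤ 1 / (N : ℝ) * (2 * (1 : ℕ) + 3) := mul_le_mul_of_nonneg_left h (by positivity)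
    _ = 5 / N := by
        push_cast
        ring

lemma crv_dm {w : W3} {n N : ℕ} (hn : 1 ≤ n) : dm (crv w n N) ≤ 2 * n / N := by
  have h : ∀ p : unitInterval, ‖crv w n N p‖ ≤ n / N := by
    intro p
    rw [crv_smul, ContinuousMap.smul_apply, norm_smul, Real.norm_of_nonneg (by positivity)]
    calc 1 / (N : ℝ) * ‖Tight.poly (fun k => ps w k) n p‖ ≤ 1 / (N : ℝ) * n :=
          mul_le_mul_of_nonneg_left (NTSF.Mg.poly_le (ps_lip w) (F3.ps_zero w) hn p) (by positivity)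
      _ = n / N := by ring
  refine dm_le (by positivity) fun p q => ?_
  rw [dist_eq_norm]
  refine (norm_sub_le _ _).trans ?_
  have := h p
  have := h q
  rw [mul_div_assoc]
  linarith

lemma sN_curve {N n : ℕ} (hn : 1 ≤ n) (s : Fin n → Fin 3) : sN N n (curve s) = crv (clw s) n N := by
  have hs := NTSF.size_pos hn
  unfold sN
  rw [curve_clw]
  unfold crv
  rw [NTSF.Mg.poly_smul]
  congr 1
  funext k
  have h1 : (size n : ℂ) ≠ 0 := by exact_mod_cast hs.ne'
  push_cast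
  field_simp

/-! ### the sums -/

/-- sums over the closed words with a bounded number of letters -/
lemma tsum_cl {M : ℕ} {g : W3 → ℝ} (hg : ∀ w : W3, Cl w → M ≤ w.length → g w = 0) :
    ∑' w : {w : W3 // Cl w}, g w = ∑ l ∈ Finset.range M, ∑' w : Cln l, g w := by
  have h1 : ∀ l : ℕ, ∑' w : Cln l, g w = ∑ w ∈ (Cln_finite l).toFinset, g w := by
    intro l
    rw [tsum_subtype (Cln l) g, tsum_eq_sum (s := (Cln_finite l).toFinset)]
    · exact Finset.sum_congr rfl fun w hw => indicator_of_mem ((Cln_finite l).mem_toFinset.1 hw) g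
    · intro w hw
      exact indicator_of_notMem (fun h => hw ((Cln_finite l).mem_toFinset.2 h)) g
  have h2 : ∑' w : {w : W3 // Cl w}, g w = ∑' w : W3, indicator {w : W3 | Cl w} g w := tsum_subtype {w : W3 | Cl w} g
  rw [h2, Finset.sum_congr rfl fun l _ => h1 l, tsum_eq_sum (s := (Finset.range M).biUnion fun l => (Cln_finite l).toFinset),
    Finset.sum_biUnion]
  · refine Finset.sum_congr rfl fun l _ => Finset.sum_congr rfl fun w hw => ?_
    exact indicator_of_mem (show w ∈ {w : W3 | Cl w} from ((Cln_finite l).mem_toFinset.1 hw).1) g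
  · intro l _ l' _ hl
    rw [Function.onFun, Finset.disjoint_left]
    intro w hw hw'
    exact hl (((Cln_finite l).mem_toFinset.1 hw).2.symm.trans ((Cln_finite l').mem_toFinset.1 hw').2)
  · intro w hw
    by_cases hc : Cl w
    · rw [indicator_of_mem (show w ∈ {w : W3 | Cl w} from hc)]
      refine hg w hc ?_
      by_contra hcon
      exact hw (Finset.mem_biUnion.2 ⟨w.length, Finset.mem_range.2 (not_le.1 hcon), (Cln_finite _).mem_toFinset.2 ⟨hc, rfl⟩⟩)
    · exact indicator_of_notMem (show w ∉ {w : W3 | Cl w} from hc) g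

/-- the sums over the polygons as sums over the closed words -/
lemma tsum_pol {M : ℕ} {g : W3 → ℝ} (hg : ∀ w : W3, Cl w → M ≤ w.length → g w = 0) (h0 : g [] = 0) :
    ∑' n : ℕ, (if Odd n then ∑ s ∈ pol n, g (clw s) else 0) = ∑' w : {w : W3 // Cl w}, g w := by
  have hgM : ∀ w : W3, Cl w → M + 1 ≤ w.length → g w = 0 := fun w h1 h2 => hg w h1 (by omega)
  rw [tsum_cl hgM, Finset.sum_range_succ', tsum_eq_sum (s := Finset.range M)]
  · have h1 : ∑' w : Cln 0, g w = 0 := by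
      refine (tsum_congr fun w : Cln 0 => ?_).trans tsum_zero
      have h2 : (w : W3) = [] := List.length_eq_zero_iff.1 w.2.2
      rw [h2, h0]
    rw [h1, add_zero]
    refine Finset.sum_congr rfl fun n _ => ?_
    by_cases hn : Odd n
    · rw [if_pos hn, sum_pol' hn g]
    · rw [if_neg hn]
      have h7 : Cln (n + 1) = ∅ := Cln_empty fun h => hn (by
        rcases Nat.even_or_odd n with h8 | h8
        · exact absurd h (Nat.not_even_iff_odd.2 h8.add_one)
        · exact h8)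
      have h8 : IsEmpty (Cln (n + 1)) := by
        rw [h7]
        infer_instance
      rw [tsum_empty]
  · intro n hn
    split_ifs with ho
    · refine Finset.sum_eq_zero fun s hs => hg _ (F3.clw_mem ho hs).1 ?_
      rw [F3.length_clw]
      have := Finset.mem_range.not.1 hn
      omega
    · rfl

/-- the critical sum over the closed words with two roots (vertices number `0` and `m`), lattice scale `N`, in natural units -/
noncomputable def SW2 (N : ℕ) (Φ : ℕ → ℕ → C(unitInterval, ℂ) → ℝ) : ℝ :=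
  (N : ℝ) ^ (-(2 / 3) : ℝ) * ∑' w : {w : W3 // Cl w}, fug ^ w.1.length *
    ∑ m ∈ Finset.range w.1.length, Φ w.1.length m (crv w.1 w.1.length N)

/-- the same over the polygons -/
lemma sw2_pol {N M : ℕ} {Φ : ℕ → ℕ → C(unitInterval, ℂ) → ℝ}
    (h4 : ∀ (l m : ℕ) (γ : C(unitInterval, ℂ)), M < l → Φ l m γ = 0) :
    SW2 N Φ = (N : ℝ) ^ (-(2 / 3) : ℝ) * ∑' n : ℕ, (if Odd n then fug ^ (n + 1) *
      ∑ s ∈ pol n, ∑ m ∈ Finset.range (n + 1), Φ (n + 1) m (crv (clw s) (n + 1) N) else 0) := by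
  unfold SW2
  congr 1
  rw [← tsum_pol (M := M + 1) (g := fun w => fug ^ w.length * ∑ m ∈ Finset.range w.length, Φ w.length m (crv w w.length N))
    (fun w _ hw => by rw [Finset.sum_eq_zero fun m _ => h4 _ m _ (by omega), mul_zero]) (by simp)]
  refine tsum_congr fun n => ?_
  split_ifs
  · rw [Finset.mul_sum]
    exact Finset.sum_congr rfl fun s _ => by rw [F3.length_clw]
  · rfl

lemma w2_words (N M : ℕ) (Ψ : ℕ → ℕ → C(unitInterval, ℂ) → ℝ) : W2 N M Ψ = (N : ℝ) ^ (-(2 / 3) : ℝ) *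
    ∑ n ∈ (Finset.range M).filter (fun n => Odd n ∧ 3 ≤ n), HexObs.xc ^ (n + 1) *
      ∑' w : Cln (n + 1), ∑ m ∈ Finset.range (n + 1), Ψ n m (crv w n N) := by
  unfold W2
  congr 1
  refine Finset.sum_congr rfl fun n hn => ?_
  obtain ⟨-, h1, h2⟩ := Finset.mem_filter.1 hn
  congr 1
  rw [← sum_pol' h1 fun w => ∑ m ∈ Finset.range (n + 1), Ψ n m (crv w n N)]
  exact Finset.sum_congr rfl fun s _ => Finset.sum_congr rfl fun m _ => by rw [sN_curve (by omega)]

lemma sw2_words {N M : ℕ} {r : ℝ} (hN : 4 / r < N) (hr : 0 < r) {Φ : ℕ → ℕ → C(unitInterval, ℂ) → ℝ}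
    (h3 : ∀ l m γ, dm γ < r → Φ l m γ = 0) (h4 : ∀ (l m : ℕ) (γ : C(unitInterval, ℂ)), M < l → Φ l m γ = 0) :
    SW2 N Φ = (N : ℝ) ^ (-(2 / 3) : ℝ) * ∑ n ∈ (Finset.range M).filter (fun n => Odd n ∧ 3 ≤ n), HexObs.xc ^ (n + 1) *
      ∑' w : Cln (n + 1), ∑ m ∈ Finset.range (n + 1), Φ (n + 1) m (crv w (n + 1) N) := by
  have hN0 : (0 : ℝ) < N := lt_trans (by positivity) hN
  unfold SW2
  congr 1
  rw [tsum_cl (M := M + 1) (g := fun w => fug ^ w.length * ∑ m ∈ Finset.range w.length, Φ w.length m (crv w w.length N))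
    fun w _ hw => by
      rw [Finset.sum_eq_zero fun m _ => h4 _ m _ (by omega), mul_zero]]
  -- the words with `l` letters
  have h5 : ∀ l : ℕ, ∑' w : Cln l, fug ^ (w : W3).length * ∑ m ∈ Finset.range (w : W3).length,
      Φ (w : W3).length m (crv w (w : W3).length N) = fug ^ l * ∑' w : Cln l, ∑ m ∈ Finset.range l, Φ l m (crv w l N) := by
    intro l
    rw [← tsum_mul_left]
    refine tsum_congr fun w => ?_
    rw [w.2.2]
  rw [Finset.sum_congr rfl fun l _ => h5 l, Finset.sum_range_succ', Finset.sum_filter]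
  have h6 : fug ^ 0 * ∑' w : Cln 0, ∑ m ∈ Finset.range 0, Φ 0 m (crv w 0 N) = 0 := by
    simp
  rw [h6, add_zero]
  refine Finset.sum_congr rfl fun n _ => ?_
  by_cases hn : Odd n ∧ 3 ≤ n
  · rw [if_pos hn, NTSF.fug_eq]
  · rw [if_neg hn]
    by_cases ho : Odd n
    · -- two letters
      have hn1 : n = 1 := by
        have h7 : ¬ 3 ≤ n := fun h => hn ⟨ho, h⟩
        obtain ⟨k, hk⟩ := ho
        omega
      subst hn1
      have h7 : ∀ w : Cln (1 + 1), ∑ m ∈ Finset.range (1 + 1), Φ (1 + 1) m (crv w (1 + 1) N) = 0 := by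
        intro w
        refine Finset.sum_eq_zero fun m _ => h3 _ m _ (lt_of_le_of_lt (crv_dm (by norm_num)) ?_)
        rw [div_lt_iff₀ hN0]
        rw [div_lt_iff₀ hr] at hN
        push_cast
        linarith
      rw [tsum_congr h7, tsum_zero, mul_zero]
    · -- an odd number of letters
      have h7 : Cln (n + 1) = ∅ := Cln_empty fun h => ho (by
        rcases Nat.even_or_odd n with h8 | h8
        · exact absurd h (Nat.not_even_iff_odd.2 h8.add_one)
        · exact h8)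
      have h8 : IsEmpty (Cln (n + 1)) := by
        rw [h7]
        infer_instance
      rw [tsum_empty, mul_zero]

/-- the mass of the polygons with two roots is bounded -/
lemma w2_bdd (hF : Fast) (hQ : QB) {r b : ℝ} (hr : 0 < r) (hb : 0 ≤ b) : ∃ (A : ℝ) (N0 : ℕ), 0 < A ∧ ∀ N : ℕ, N0 ≤ N →
    ∀ M : ℕ, b * (N : ℝ) ^ (4 / 3 : ℝ) < M →
      W2 N M (fun n _ γ => if (n : ℝ) ≤ b * (N : ℝ) ^ (4 / 3 : ℝ) ∧ r ≤ dm γ then 1 else 0) ≤ A := by
  obtain ⟨M0, hM0, hm⟩ := mss_bd hF hQ (half_pos hr)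
  obtain ⟨N1, hm⟩ := hm.exists_forall_of_atTop
  have h23 : Tendsto (fun N : ℕ => (N : ℝ) ^ (2 / 3 : ℝ)) atTop atTop :=
    (tendsto_rpow_atTop (by norm_num : (0 : ℝ) < 2 / 3)).comp tendsto_natCast_atTop_atTop
  obtain ⟨N2, hN2⟩ := (h23.eventually_gt_atTop b).exists_forall_of_atTop
  refine ⟨(b + 1) ^ 2 * M0, max N1 (max N2 1), by positivity, fun N hN M hM => ?_⟩
  have hNN1 := (le_max_left _ _).trans hN
  have hNN2 := ((le_max_left _ _).trans (le_max_right _ _)).trans hN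
  have hNN3 := ((le_max_right _ _).trans (le_max_right _ _)).trans hN
  have hN0 : (0 : ℝ) < N := by exact_mod_cast hNN3
  have hN1' : (1 : ℝ) ≤ N := by exact_mod_cast hNN3
  have hX1 : 1 ≤ (N : ℝ) ^ (4 / 3 : ℝ) := Real.one_le_rpow hN1' (by norm_num)
  have hsq : b * (N : ℝ) ^ (4 / 3 : ℝ) < (N : ℝ) ^ 2 := by
    have e : (N : ℝ) ^ 2 = (N : ℝ) ^ (2 / 3 : ℝ) * (N : ℝ) ^ (4 / 3 : ℝ) := by
      rw [← Real.rpow_natCast, ← Real.rpow_add hN0]
      norm_num
    rw [e]
    exact mul_lt_mul_of_pos_right (hN2 N hNN2) (by positivity)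
  have e8 : (N : ℝ) ^ (-(8 / 3) : ℝ) = ((N : ℝ) ^ (4 / 3 : ℝ) * (N : ℝ) ^ (4 / 3 : ℝ))⁻¹ := by
    rw [← Real.rpow_add hN0, ← Real.rpow_neg hN0.le]
    norm_num
  rw [w2_eq hNN3 hb hM hsq fun n m γ hn => if_neg fun h => not_le.2 hn h.1]
  have h1 := hm N hNN1
  unfold Mss at h1
  rw [← ML0_even fun n γ => by rw [dm_neg]] at h1
  refine le_trans ?_ (mul_le_mul_of_nonneg_left h1 (by positivity : 0 ≤ (b + 1) ^ 2))
  unfold ML0
  rw [mul_left_comm]
  refine mul_le_mul_of_nonneg_left ?_ (sq_nonneg _)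
  rw [Finset.mul_sum]
  refine Finset.sum_le_sum fun n _ => ?_
  rw [mul_left_comm]
  refine mul_le_mul_of_nonneg_left ?_ (qn_nonneg n)
  rw [← pm0_mul]
  refine pm0_mono fun γ => ?_
  beta_reduce
  rw [Finset.sum_const, Finset.card_range, nsmul_eq_mul]
  by_cases h : (n : ℝ) ≤ b * (N : ℝ) ^ (4 / 3 : ℝ) ∧ r ≤ dm γ
  · rw [if_pos h, chi_one (half_pos hr) (by linarith [h.2]), mul_one, mul_one, e8, mul_assoc, inv_mul_le_iff₀ (by positivity)]
    push_cast
    have h5 : (n : ℝ) + 1 ≤ (b + 1) * (N : ℝ) ^ (4 / 3 : ℝ) := by nlinarith [h.1]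
    have h6 : (0 : ℝ) ≤ (n : ℝ) + 1 := by positivity
    calc ((n : ℝ) + 1) * ((n : ℝ) + 1) ≤ ((b + 1) * (N : ℝ) ^ (4 / 3 : ℝ)) * ((b + 1) * (N : ℝ) ^ (4 / 3 : ℝ)) :=
          mul_le_mul h5 h5 h6 (h6.trans h5)
      _ = _ := by ring
  · rw [if_neg h, mul_zero, mul_zero]
    exact mul_nonneg (by positivity) (chi_nonneg _ _)

/-- **the closed curve and the curve without the last edge** -/
theorem sw2_near (hF : Fast) (hQ : QB) (K : ℝ≥0) {r b ε : ℝ} (hr : 0 < r) (hb : 0 ≤ b) (hε : 0 < ε) : ∃ N0 : ℕ,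
    ∀ N : ℕ, N0 ≤ N → ∀ M : ℕ, b * (N : ℝ) ^ (4 / 3 : ℝ) < M →
      ∀ Φ : ℕ → ℕ → C(unitInterval, ℂ) → ℝ, (∀ l m γ, |Φ l m γ| ≤ 1) →
        (∀ l m γ γ', |Φ l m γ - Φ l m γ'| ≤ K * dist γ γ') → (∀ l m γ, dm γ < r → Φ l m γ = 0) →
          (∀ (l m : ℕ) (γ : C(unitInterval, ℂ)), b * (N : ℝ) ^ (4 / 3 : ℝ) < l → Φ l m γ = 0) →
            |SW2 N Φ - W2 N M (fun n m => Φ (n + 1) m)| ≤ ε := by
  obtain ⟨A, N1, hA, h⟩ := w2_bdd hF hQ (half_pos hr) hb
  obtain ⟨N2, hN2⟩ := exists_nat_gt (5 * K * A / ε + 4 / r + 20 / r)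
  refine ⟨max N1 (max N2 1), fun N hN M hM Φ h1 h2 h3 h4 => ?_⟩
  have hNN1 := (le_max_left _ _).trans hN
  have hNN2 := ((le_max_left _ _).trans (le_max_right _ _)).trans hN
  have hNN3 := ((le_max_right _ _).trans (le_max_right _ _)).trans hN
  have hN0 : (0 : ℝ) < N := by exact_mod_cast hNN3
  have hbig : 5 * K * A / ε + 4 / r + 20 / r < N := hN2.trans_le (by exact_mod_cast hNN2)
  have hp1 : (0 : ℝ) ≤ 5 * K * A / ε := by positivity
  have hp2 : (0 : ℝ) < 4 / r := by positivity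
  have hp3 : (0 : ℝ) < 20 / r := by positivity
  have hg := h N hNN1 M hM
  have hbM : ∀ l : ℕ, M < l → b * (N : ℝ) ^ (4 / 3 : ℝ) < l := fun l hl => hM.trans (by exact_mod_cast hl)
  rw [sw2_words (M := M) (by linarith) hr h3 fun l m γ hl => h4 l m γ (hbM l hl), w2_words, ← mul_sub, ← Finset.sum_sub_distrib]
  rw [w2_words] at hg
  have hNp : (0 : ℝ) ≤ (N : ℝ) ^ (-(2 / 3) : ℝ) := by positivity
  rw [abs_mul, abs_of_nonneg hNp]
  have hfin : 5 * K / N * A ≤ ε := by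
    rw [div_mul_eq_mul_div, div_le_iff₀ hN0, mul_comm ε, ← div_le_iff₀ hε]
    linarith
  refine le_trans ?_ hfin
  refine le_trans ?_ (mul_le_mul_of_nonneg_left hg (by positivity : 0 ≤ 5 * K / N))
  rw [mul_left_comm]
  refine mul_le_mul_of_nonneg_left ?_ hNp
  rw [Finset.mul_sum]
  refine (Finset.abs_sum_le_sum_abs _ _).trans (Finset.sum_le_sum fun n hn => ?_)
  obtain ⟨-, ho, hn3⟩ := Finset.mem_filter.1 hn
  have hxc : (0 : ℝ) ≤ HexObs.xc ^ (n + 1) := by
    have := HexObs.xc_pos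
    positivity
  rw [← mul_sub, abs_mul, abs_of_nonneg hxc, mul_left_comm (5 * (K : ℝ) / N)]
  refine mul_le_mul_of_nonneg_left ?_ hxc
  have hfi : Finite (Cln (n + 1)) := (Cln_finite (n + 1)).to_subtype
  have hfy : Fintype (Cln (n + 1)) := Fintype.ofFinite _
  rw [tsum_fintype, tsum_fintype, tsum_fintype, ← Finset.sum_sub_distrib, Finset.mul_sum]
  refine (Finset.abs_sum_le_sum_abs _ _).trans (Finset.sum_le_sum fun w _ => ?_)
  rw [← Finset.sum_sub_distrib, Finset.mul_sum]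
  refine (Finset.abs_sum_le_sum_abs _ _).trans (Finset.sum_le_sum fun m _ => ?_)
  have hd : dist (crv w (n + 1) N) (crv w n N) ≤ 5 / N := by
    rw [dist_comm]
    exact crv_dist (by omega)
  by_cases hc : (n : ℝ) ≤ b * (N : ℝ) ^ (4 / 3 : ℝ) ∧ r / 2 ≤ dm (crv w n N)
  · rw [if_pos hc, mul_one]
    refine (h2 (n + 1) m _ _).trans ?_
    calc (K : ℝ) * dist (crv w (n + 1) N) (crv w n N) ≤ K * (5 / N) := mul_le_mul_of_nonneg_left hd K.coe_nonneg
      _ = 5 * K / N := by ring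
  · rw [if_neg hc, mul_zero]
    refine le_of_eq ?_
    rcases not_and_or.1 hc with h5 | h5
    · have h6 : b * (N : ℝ) ^ (4 / 3 : ℝ) < ((n + 1 : ℕ) : ℝ) := by
        push_cast
        linarith
      rw [h4 _ m _ h6, h4 _ m _ h6, sub_zero, abs_zero]
    · have h6 : dm (crv w n N) < r := by linarith
      have h7 : dm (crv w (n + 1) N) < r := by
        have h8 := dm_le_add (crv w (n + 1) N) (crv w n N)
        have h9 : 5 / (N : ℝ) ≤ r / 4 := by
          rw [div_le_iff₀ hN0]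
          have h10 : 20 / r < N := by linarith
          rw [div_lt_iff₀ hr] at h10
          linarith
        linarith
      rw [h3 _ m _ h6, h3 _ m _ h7, sub_zero, abs_zero]

/-- **the rotation invariance of the sums over the closed words with two roots** -/
theorem sw2_rot (hR : RotP) (hF : Fast) (hQ : QB) (K : ℝ≥0) {r b ε : ℝ} (hr : 0 < r) (hb : 0 ≤ b) (hε : 0 < ε) : ∃ N0 : ℕ,
    ∀ N : ℕ, N0 ≤ N → ∀ z : ℂ, ‖z‖ = 1 →
      ∀ Φ : ℕ → ℕ → C(unitInterval, ℂ) → ℝ, (∀ l m γ, |Φ l m γ| ≤ 1) →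
        (∀ l m γ γ', |Φ l m γ - Φ l m γ'| ≤ K * dist γ γ') → (∀ l m γ, dm γ < r → Φ l m γ = 0) →
          (∀ (l m : ℕ) (γ : C(unitInterval, ℂ)), b * (N : ℝ) ^ (4 / 3 : ℝ) < l → Φ l m γ = 0) →
            |SW2 N (fun l m γ => Φ l m (z • γ)) - SW2 N Φ| ≤ ε := by
  obtain ⟨N1, h1⟩ := sw2_near hF hQ K hr hb (show 0 < ε / 3 by positivity)
  obtain ⟨N2, h2⟩ := w2_rot hR hF hQ K hr hb (show 0 < ε / 3 by positivity)
  refine ⟨max N1 N2, fun N hN z hz Φ k1 k2 k3 k4 => ?_⟩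
  obtain ⟨M, hM⟩ := exists_nat_gt (b * (N : ℝ) ^ (4 / 3 : ℝ))
  have hzd : ∀ γ γ' : C(unitInterval, ℂ), dist (z • γ) (z • γ') = dist γ γ' := by
    intro γ γ'
    rw [ContinuousMap.dist_eq_iSup, ContinuousMap.dist_eq_iSup]
    congr 1
    funext x
    rw [ContinuousMap.smul_apply, ContinuousMap.smul_apply, dist_smul₀, hz, one_mul]
  have g1 := h1 N ((le_max_left _ _).trans hN) M hM Φ k1 k2 k3 k4
  have g2 := h1 N ((le_max_left _ _).trans hN) M hM (fun l m γ => Φ l m (z • γ)) (fun l m γ => k1 l m _)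
    (fun l m γ γ' => by
      rw [← hzd γ γ']
      exact k2 l m _ _) (fun l m γ hγ => k3 l m _ (by rwa [dm_smul hz])) (fun l m γ hl => k4 l m _ hl)
  have g3 := h2 N ((le_max_right _ _).trans hN) z hz M hM (fun n m => Φ (n + 1) m) (fun n m γ => k1 _ m _)
    (fun n m γ γ' => k2 _ m _ _) (fun n m γ hγ => k3 _ m _ hγ) (fun n m γ hl => k4 _ m _ (hl.trans (by push_cast; linarith)))
  rw [abs_le] at g1 g2 g3 ⊢
  constructor <;> linarith [g1.1, g1.2, g2.1, g2.2, g3.1, g3.2]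

end Pool.Agent.ROT.F
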