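import Pool.Agent.ROT.F3Sys

/-!
# ROT, block F3, row R5 (helper58): limits of the closed words with two roots

* `cT N` : as `cN N`, the curve without its last edge; `cT_near`; **`mw_tight`**;
* **`fin_lim`** : finite measures with bounded masses, tight along the sequence: a limit along every ultrafilter;
* **`mw_lim`** : the limits of `mw N b` along the ultrafilters;
* **`lip_sel`** : one Lipschitz functional in place of a sequence of them.
-/

set_option autoImplicit false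

open MeasureTheory Filter Topology Set

open scoped Classical NNReal ENNReal BoundedContinuousFunction

namespace Pool.Agent.ROT.F3

open Pool.Agent.NTS.Res Pool.Agent.PMA Pool.Agent.PMA.Res Pool.Agent.ROT.F

/-! ### 1. Abstract limits -/

/-- continuous functions near compact sets -/
lemma unif_near {X : Type*} [PseudoMetricSpace X] {K : Set X} (hK : IsCompact K) {G : X → ℝ} (hG : Continuous G) {ε : ℝ} (hε : 0 < ε) :
    ∃ δ : ℝ, 0 < δ ∧ ∀ x ∈ K, ∀ y : X, dist x y ≤ δ → |G x - G y| ≤ ε := by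
  have h1 := hK.uniformContinuousAt_of_continuousAt (r := {p : ℝ × ℝ | dist p.1 p.2 < ε}) G (fun x _ => hG.continuousAt)
    (Metric.dist_mem_uniformity hε)
  obtain ⟨δ, hδ, h2⟩ := Metric.mem_uniformity_dist.1 h1
  refine ⟨δ / 2, by positivity, fun x hx y hxy => ?_⟩
  have h3 := h2 (lt_of_le_of_lt hxy (by linarith)) hx
  have h4 : dist (G x) (G y) < ε := h3
  rw [Real.dist_eq] at h4
  exact h4.le

/-- **limits along the ultrafilters** -/
theorem fin_lim {X : Type*} [MetricSpace X] [MeasurableSpace X] [BorelSpace X] (μ : ℕ → Measure X)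
    [∀ N, IsFiniteMeasure (μ N)] {C : ℝ≥0} (hC : ∀ N, μ N univ ≤ C)
    (hT : ∀ ε : ℝ≥0, 0 < ε → ∃ K : Set X, IsCompact K ∧ ∀ N, μ N Kᶜ ≤ ε) (U : Ultrafilter ℕ) :
    ∃ P : Measure X, IsFiniteMeasure P ∧ ∀ G : X →ᵇ ℝ, Tendsto (fun N => ∫ x, G x ∂(μ N)) U (𝓝 (∫ x, G x ∂P)) := by
  have hu : ∀ j : ℕ, (0 : ℝ≥0) < 1 / ((j : ℝ≥0) + 1) := fun j => by positivity
  choose K hK hKμ using fun j : ℕ => hT (1 / ((j : ℝ≥0) + 1)) (hu j)
  have hlim : Tendsto (fun j : ℕ => 1 / ((j : ℝ≥0) + 1)) atTop (𝓝 0) := tendsto_one_div_add_atTop_nhds_zero_nat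
  have hcp := isCompact_setOfPred_finiteMeasure_mass_le_compl_isCompact_le (E := X) C hlim hK (Or.inl inferInstance)
  obtain ⟨m, hm⟩ : ∃ m : ℕ → FiniteMeasure X, m = fun N => ⟨μ N, inferInstance⟩ := ⟨_, rfl⟩
  have hmN : ∀ N, ((m N : FiniteMeasure X) : Measure X) = μ N := fun N => by rw [hm]; rfl
  have hmem : ∀ N, m N ∈ {μ : FiniteMeasure X | μ.mass ≤ C ∧ ∀ n, μ (K n)ᶜ ≤ 1 / ((n : ℝ≥0) + 1)} := by
    intro N
    refine ⟨?_, fun j => ?_⟩
    · rw [← ENNReal.coe_le_coe, FiniteMeasure.ennreal_mass, hmN]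
      exact hC N
    · rw [← ENNReal.coe_le_coe, FiniteMeasure.ennreal_coeFn_eq_coeFn_toMeasure, hmN]
      exact hKμ j N
  obtain ⟨P, -, hP⟩ := hcp.ultrafilter_le_nhds' (U.map m) (by
    rw [Ultrafilter.mem_map]
    exact Filter.univ_mem' hmem)
  have hP' : Tendsto m U (𝓝 P) := by
    rw [Ultrafilter.coe_map] at hP
    exact hP
  refine ⟨P, inferInstance, fun G => ?_⟩
  have h1 := (FiniteMeasure.tendsto_iff_forall_integral_tendsto.1 hP') G
  simp only [hmN] at h1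
  exact h1

/-- **one Lipschitz functional in place of a sequence of them** -/
theorem lip_sel {X : Type*} [PseudoMetricSpace X] {ι : Type*} (U : Ultrafilter ι) {Ω : ι → Type*} [∀ i, MeasurableSpace (Ω i)]
    (P : ∀ i, Measure (Ω i)) [∀ i, IsFiniteMeasure (P i)] (c : ∀ i, Ω i → X) {A : ℝ} (hA : ∀ᶠ i in U, (P i).real univ ≤ A)
    (hT : ∀ ε : ℝ, 0 < ε → ∃ K : Set X, IsCompact K ∧ ∀ᶠ i in U, (P i).real {x | ∀ y ∈ K, ε < dist (c i x) y} ≤ ε)
    (hm : ∀ (i : ι) (S : Set X), MeasurableSet (c i ⁻¹' S)) {L : ℝ≥0} (φ : ι → X → ℝ) (hφ : ∀ i, LipschitzWith L (φ i))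
    (hb : ∀ i x, |φ i x| ≤ 1) :
    ∃ ψ : X → ℝ, LipschitzWith L ψ ∧ (∀ x, |ψ x| ≤ 1) ∧ (∀ x, Tendsto (fun i => φ i x) U (𝓝 (ψ x))) ∧
      ∀ ε : ℝ, 0 < ε → ∀ᶠ i in U, ∫ x, |φ i (c i x) - ψ (c i x)| ∂(P i) ≤ ε := by
  have hlim : ∀ x : X, ∃ y : ℝ, Tendsto (fun i => φ i x) U (𝓝 y) := by
    intro x
    have h1 : ((U.map fun i => φ i x : Ultrafilter ℝ) : Filter ℝ) ≤ 𝓟 (Icc (-1) 1) := by
      rw [le_principal_iff, Ultrafilter.coe_map]
      exact Filter.mem_map.2 (Filter.univ_mem' fun i => abs_le.1 (hb i x))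
    obtain ⟨y, -, hy⟩ := isCompact_Icc.ultrafilter_le_nhds _ h1
    exact ⟨y, by rwa [Ultrafilter.coe_map] at hy⟩
  choose ψ hψ using hlim
  have hψL : LipschitzWith L ψ := LipschitzWith.of_dist_le_mul fun x y =>
    le_of_tendsto ((hψ x).dist (hψ y)) (Eventually.of_forall fun i => (hφ i).dist_le_mul x y)
  have hψb : ∀ x, |ψ x| ≤ 1 := fun x => le_of_tendsto (hψ x).abs (Eventually.of_forall fun i => hb i x)
  refine ⟨ψ, hψL, hψb, hψ, fun ε hε => ?_⟩
  obtain ⟨B, hB⟩ : ∃ B : ℝ, B = |A| + 1 := ⟨_, rfl⟩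
  have hB0 : 0 < B := by
    rw [hB]
    positivity
  obtain ⟨η, hη⟩ : ∃ η : ℝ, η = ε / (2 * B) := ⟨_, rfl⟩
  have hη0 : 0 < η := by
    rw [hη]
    positivity
  obtain ⟨ρ, hρ⟩ : ∃ ρ : ℝ, ρ = η / (8 * (L + 1)) := ⟨_, rfl⟩
  have hL0 : (0 : ℝ) ≤ L := L.coe_nonneg
  have hρ0 : 0 < ρ := by
    rw [hρ]
    positivity
  have hLρ : L * ρ ≤ η / 8 := by
    have h1 : (L + 1 : ℝ) * ρ = η / 8 := by
      rw [hρ]
      field_simp
    nlinarith
  obtain ⟨K, hK, hK2⟩ := hT (min (ε / 4) ρ) (lt_min (by positivity) hρ0)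
  obtain ⟨t, -, htf, htc⟩ := hK.finite_cover_balls hρ0
  have h1 : ∀ᶠ i in U, ∀ y ∈ t, |φ i y - ψ y| ≤ η / 4 := by
    rw [Set.Finite.eventually_all htf] at *
    intro y _
    have h2 := Metric.tendsto_nhds.1 (hψ y) (η / 4) (by positivity)
    filter_upwards [h2] with i hi
    rw [Real.dist_eq] at hi
    exact hi.le
  filter_upwards [h1, hK2, hA] with i hi1 hi2 hi3
  have htri : ∀ x y : X, |φ i x - ψ x| ≤ |φ i y - ψ y| + 2 * (L * dist x y) := by
    intro x y
    have h4 := (hφ i).dist_le_mul x y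
    have h5 := hψL.dist_le_mul x y
    rw [Real.dist_eq] at h4 h5
    have h8 : |φ i x - ψ x| ≤ |φ i x - φ i y| + |φ i y - ψ y| + |ψ x - ψ y| := by
      have e : φ i x - ψ x = (φ i x - φ i y) + (φ i y - ψ y) + -(ψ x - ψ y) := by ring
      rw [e]
      refine (abs_add_le _ _).trans ?_
      rw [abs_neg]
      exact add_le_add (abs_add_le _ _) le_rfl
    linarith
  have hunif : ∀ x : X, ∀ z ∈ K, dist x z ≤ min (ε / 4) ρ → |φ i x - ψ x| ≤ η := by
    intro x z hz hxz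
    obtain ⟨y, hy, hzy⟩ := mem_iUnion₂.1 (htc hz)
    have h3 : dist z y < ρ := hzy
    have h4 := htri x z
    have h5 := htri z y
    have h6 := hi1 y hy
    have h7 : (L : ℝ) * dist x z ≤ L * ρ := mul_le_mul_of_nonneg_left (hxz.trans (min_le_right _ _)) hL0
    have h8 : (L : ℝ) * dist z y ≤ L * ρ := mul_le_mul_of_nonneg_left h3.le hL0
    linarith
  obtain ⟨S, hSe⟩ : ∃ S : Set (Ω i), S = {x | ∀ y ∈ K, min (ε / 4) ρ < dist (c i x) y} := ⟨_, rfl⟩
  have hpt : ∀ x : Ω i, |φ i (c i x) - ψ (c i x)| ≤ η + indicator S (fun _ => (2 : ℝ)) x := by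
    intro x
    by_cases hx : x ∈ S
    · rw [indicator_of_mem hx]
      have h3 := hb i (c i x)
      have h4 := hψb (c i x)
      have h5 := abs_sub (φ i (c i x)) (ψ (c i x))
      linarith
    · rw [indicator_of_notMem hx, add_zero]
      rw [hSe, mem_ofPred_eq] at hx
      push Not at hx
      obtain ⟨y, hy, hxy⟩ := hx
      exact hunif _ y hy hxy
  have hS : MeasurableSet S := by
    rw [hSe]
    exact hm i {z | ∀ y ∈ K, min (ε / 4) ρ < dist z y}
  rw [← hSe] at hi2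
  have hint : Integrable (fun x => η + indicator S (fun _ => (2 : ℝ)) x) (P i) :=
    (integrable_const _).add ((integrable_const _).indicator hS)
  calc ∫ x, |φ i (c i x) - ψ (c i x)| ∂(P i) ≤ ∫ x, (η + indicator S (fun _ => (2 : ℝ)) x) ∂(P i) :=
        integral_mono_of_nonneg (Eventually.of_forall fun x => abs_nonneg _) hint (Eventually.of_forall hpt)
    _ = η * (P i).real univ + 2 * (P i).real S := by
        rw [integral_add (integrable_const _) ((integrable_const _).indicator hS), integral_const, integral_indicator_const _ hS]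
        simp only [smul_eq_mul]
        ring
    _ ≤ η * B + 2 * (ε / 4) := by
        have h3 : (P i).real univ ≤ B := by
          rw [hB]
          linarith [le_abs_self A]
        have h4 : (P i).real S ≤ ε / 4 := hi2.trans (min_le_left _ _)
        gcongr
    _ = ε := by
        rw [hη]
        field_simp
        ring

/-! ### 2. The closed words with two roots -/

/-- as `cN`, the curve without its last edge -/
noncomputable def cT (N : ℕ) (x : W3 × ℕ) : ℝ × ℝ × C(unitInterval, ℂ) :=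
  ((x.1.length : ℝ) / (N : ℝ) ^ (4 / 3 : ℝ), (x.2 : ℝ) / (N : ℝ) ^ (4 / 3 : ℝ), crv x.1 (x.1.length - 1) N)

lemma mw_zero (b : ℝ) : mw 0 b = 0 := by
  have h : TN 0 b = ∅ := by
    rw [Finset.eq_empty_iff_forall_notMem]
    intro x hx
    obtain ⟨-, h2, h3⟩ := mem_TN.1 hx
    rw [Nat.cast_zero, Real.zero_rpow (by norm_num), mul_zero] at h3
    have h4 : x.1.length = 0 := by
      have h5 : (0 : ℝ) ≤ x.1.length := Nat.cast_nonneg _
      exact_mod_cast le_antisymm h3 h5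
    omega
  unfold mw
  rw [h, Finset.sum_empty]

/-- the measures of the sets -/
lemma mw_real {N : ℕ} {b : ℝ} (S : Set (W3 × ℕ)) : (mw N b).real S = ∫ x, (if x ∈ S then (1 : ℝ) else 0) ∂(mw N b) := by
  have hS : MeasurableSet S := MeasurableSet.of_discrete
  rw [← integral_indicator_one hS]
  rfl

lemma mw_ind {N : ℕ} {b : ℝ} (S : Set (W3 × ℕ)) : ∫ x, S.indicator (fun _ => (1 : ℝ)) x ∂(mw N b) = (mw N b).real S := by
  rw [integral_indicator_const _ MeasurableSet.of_discrete, smul_eq_mul, mul_one]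

lemma mw_mono {N : ℕ} {b : ℝ} {f g : W3 × ℕ → ℝ} (h : ∀ x ∈ TN N b, f x ≤ g x) : ∫ x, f x ∂(mw N b) ≤ ∫ x, g x ∂(mw N b) := by
  rw [mw_int, mw_int]
  exact Finset.sum_le_sum fun x hx => mul_le_mul_of_nonneg_left (h x hx) (wN_nonneg _ _)

lemma mw_congr {N : ℕ} {b : ℝ} {f g : W3 × ℕ → ℝ} (h : ∀ x ∈ TN N b, f x = g x) : ∫ x, f x ∂(mw N b) = ∫ x, g x ∂(mw N b) := by
  rw [mw_int, mw_int]
  exact Finset.sum_congr rfl fun x hx => by rw [h x hx]

/-- the total mass -/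
lemma mw_mass (hQ : QB) {b : ℝ} (hb : 0 ≤ b) : ∃ C : ℝ, 0 < C ∧ ∀ N : ℕ, (mw N b).real univ ≤ C := by
  obtain ⟨C, hC, h⟩ := mw_le hQ
  refine ⟨C * (√b + 0 * √b) + 1, by positivity, fun N => ?_⟩
  rcases Nat.eq_zero_or_pos N with rfl | hN
  · rw [mw_zero, Measure.real, Measure.coe_zero, Pi.zero_apply, ENNReal.toReal_zero]
    positivity
  · rw [mw_real]
    refine (h N b b 0 _ hN hb hb le_rfl fun n _ hn => ?_).trans (by linarith)
    rw [if_pos hn, one_mul]
    simp only [mem_univ, if_true]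
    rw [Finset.sum_const, Finset.sum_const, Finset.card_range, nsmul_eq_mul, nsmul_eq_mul, mul_one]
    push_cast
    exact le_rfl

/-- the mass of the short words -/
lemma mw_short (hQ : QB) : ∃ C : ℝ, 0 < C ∧ ∀ (N : ℕ) (a b : ℝ), 0 ≤ a → 0 ≤ b →
    (mw N b).real {x | (x.1.length : ℝ) ≤ a * (N : ℝ) ^ (4 / 3 : ℝ)} ≤ C * √a := by
  obtain ⟨C, hC, h⟩ := mw_le hQ
  refine ⟨C, hC, fun N a b ha hb => ?_⟩
  rcases Nat.eq_zero_or_pos N with rfl | hN
  · rw [mw_zero, Measure.real, Measure.coe_zero, Pi.zero_apply, ENNReal.toReal_zero]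
    positivity
  · rw [mw_real]
    refine (h N a b 0 _ hN ha hb le_rfl fun n _ hn => ?_).trans (by
      rw [zero_mul, add_zero])
    simp only [mem_ofPred_eq, length_clw]
    push_cast
    split_ifs with h1
    · rw [Finset.sum_const, Finset.sum_const, Finset.card_range, nsmul_eq_mul, nsmul_eq_mul, mul_one, one_mul]
      push_cast
      exact le_rfl
    · simp

lemma length_TN {N : ℕ} {b : ℝ} {x : W3 × ℕ} (hx : x ∈ TN N b) : 2 ≤ x.1.length ∧ 1 ≤ N := by
  obtain ⟨h1, h2, h3⟩ := mem_TN.1 hx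
  constructor
  · obtain ⟨k, hk⟩ := h1.1
    omega
  · rcases Nat.eq_zero_or_pos N with rfl | hN
    · rw [Nat.cast_zero, Real.zero_rpow (by norm_num), mul_zero] at h3
      have h4 : x.1.length = 0 := by
        have h5 : (0 : ℝ) ≤ x.1.length := Nat.cast_nonneg _
        exact_mod_cast le_antisymm h3 h5
      omega
    · exact hN

/-- **tightness** -/
theorem mw_tight (hQ : QB) {b ε : ℝ} (hb : 0 ≤ b) (hε : 0 < ε) : ∃ K : Set (ℝ × ℝ × C(unitInterval, ℂ)), IsCompact K ∧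
    ∃ N0 : ℕ, ∀ N : ℕ, N0 ≤ N → (mw N b).real {x | cT N x ∉ K} ≤ ε := by
  obtain ⟨δ, K0, ε', hδ, hK0, hε', h⟩ := mw_sum hQ hb hε
  obtain ⟨c1, C1, -, hC1, hsz⟩ := F.size_bd
  obtain ⟨n0, ht⟩ := tightP
  obtain ⟨K, hK, hKn⟩ := isTightMeasureSet_iff_exists_isCompact_measure_compl_le.1 ht (ENNReal.ofReal ε') (by positivity)
  obtain ⟨N0, hN0⟩ := h (max n0 1)
  obtain ⟨Kc, hKc⟩ : ∃ Kc : Set C(unitInterval, ℂ), Kc = (fun p : ℝ × C(unitInterval, ℂ) => p.1 • p.2) '' (Icc 0 (C1 * K0) ×ˢ K) :=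
    ⟨_, rfl⟩
  have hKc1 : IsCompact Kc := by
    rw [hKc]
    exact (isCompact_Icc.prod hK).image continuous_smul
  refine ⟨Icc 0 b ×ˢ (Icc 0 b ×ˢ Kc), isCompact_Icc.prod (isCompact_Icc.prod hKc1), max N0 1, fun N hN => ?_⟩
  have hNN := (le_max_left _ _).trans hN
  have hN1 := (le_max_right _ _).trans hN
  have hNp : (0 : ℝ) < N := by exact_mod_cast hN1
  have hX0 : (0 : ℝ) < (N : ℝ) ^ (4 / 3 : ℝ) := by positivity
  rw [mw_real]
  refine le_trans (mw_mono (g := fun x => if crv x.1 (x.1.length - 1) N ∈ Kc then 0 else 1) fun x hx => ?_) (hN0 N hNN _ (fun x => ?_) ?_)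
  · obtain ⟨h1, h2, h3⟩ := mem_TN.1 hx
    simp only [mem_ofPred_eq]
    by_cases h4 : crv x.1 (x.1.length - 1) N ∈ Kc
    · rw [if_pos h4, if_neg]
      rw [not_not]
      have h5 : (x.1.length : ℝ) / (N : ℝ) ^ (4 / 3 : ℝ) ≤ b := (div_le_iff₀ hX0).2 h3
      have h6 : (x.2 : ℝ) / (N : ℝ) ^ (4 / 3 : ℝ) ≤ b := by
        refine le_trans (div_le_div_of_nonneg_right ?_ hX0.le) h5
        exact_mod_cast h2.le
      exact ⟨⟨div_nonneg (Nat.cast_nonneg _) hX0.le, h5⟩, ⟨div_nonneg (Nat.cast_nonneg _) hX0.le, h6⟩, h4⟩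
    · rw [if_neg h4]
      split_ifs <;> norm_num
  · split_ifs <;> norm_num
  · intro n hn ho h1 h2 m _ _
    have hn1 : 1 ≤ n := (le_max_right _ _).trans hn
    have h3 := hKn _ ⟨n, (le_max_left _ _).trans hn, ho, rfl⟩
    rw [LT.plaw_apply] at h3
    have h4' := (ENNReal.ofReal_le_ofReal_iff hε'.le).1 h3
    unfold pmean at h4'
    have h4 : (∑ s ∈ pol n, (if curve s ∈ Kᶜ then (1 : ℝ) else 0)) / (pol n).card ≤ ε' := by
      refine le_trans (le_of_eq ?_) h4'
      congr 1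
      refine Finset.sum_congr rfl fun s _ => ?_
      by_cases h6 : curve s ∈ Kᶜ
      · simp only [if_pos h6]
      · simp only [if_neg h6]
    have hsn : size n / N ∈ Icc (0 : ℝ) (C1 * K0) := by
      have h5 := NTSF.size_pos hn1
      refine ⟨by positivity, ?_⟩
      rw [div_le_iff₀ hNp]
      calc size n ≤ C1 * (n : ℝ) ^ (3 / 4 : ℝ) := (hsz n hn1).2
        _ ≤ C1 * (K0 * N) := mul_le_mul_of_nonneg_left h2 hC1.le
        _ = _ := by ring
    have h5 : ∑ s ∈ pol n, (if crv (clw s) ((clw s).length - 1) N ∈ Kc then (0 : ℝ) else 1) ≤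
        ∑ s ∈ pol n, (if curve s ∈ Kᶜ then (1 : ℝ) else 0) := by
      refine Finset.sum_le_sum fun s _ => ?_
      by_cases h6 : curve s ∈ K
      · rw [if_pos, if_neg (fun h => h h6)]
        rw [length_clw, Nat.add_sub_cancel, ← sN_curve hn1, hKc]
        exact ⟨(size n / N, curve s), ⟨hsn, h6⟩, rfl⟩
      · rw [if_pos (show curve s ∈ Kᶜ from h6)]
        split_ifs <;> norm_num
    refine h5.trans ?_
    rcases (Nat.cast_nonneg (α := ℝ) (pol n).card).lt_or_eq with h6 | h6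
    · exact (div_le_iff₀ h6).1 h4
    · have h7 : (pol n).card = 0 := by exact_mod_cast h6.symm
      rw [Finset.card_eq_zero.1 h7]
      simp

lemma cT_dist {N : ℕ} {b : ℝ} {x : W3 × ℕ} (hx : x ∈ TN N b) : dist (cT N x) (cN N x) ≤ 5 / N := by
  have h1 := (length_TN hx).1
  unfold cT cN
  rw [Prod.dist_eq, Prod.dist_eq, dist_self, dist_self, max_eq_right, max_eq_right]
  · obtain ⟨n, hn⟩ : ∃ n, x.1.length = n + 1 := ⟨x.1.length - 1, by omega⟩
    rw [hn, Nat.add_sub_cancel]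
    exact crv_dist (by omega)
  · exact dist_nonneg
  · exact le_max_of_le_right dist_nonneg

/-- tightness of the closed curves, one compact set for all `N` -/
lemma mw_tight_all (hQ : QB) {b ε : ℝ} (hb : 0 ≤ b) (hε : 0 < ε) : ∃ K : Set (ℝ × ℝ × C(unitInterval, ℂ)), IsCompact K ∧
    ∀ N : ℕ, (mw N b).real {x | cT N x ∉ K} ≤ ε := by
  obtain ⟨K, hK, N0, h⟩ := mw_tight hQ hb hε
  refine ⟨K ∪ ⋃ N ∈ Finset.range N0, cT N '' (TN N b : Set (W3 × ℕ)), hK.union ?_, fun N => ?_⟩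
  · exact (Set.Finite.biUnion (Finset.finite_toSet _) fun N _ => (Finset.finite_toSet _).image _).isCompact
  · rcases lt_or_ge N N0 with hN | hN
    · rw [mw_real, mw_int, Finset.sum_eq_zero]
      · exact hε.le
      · intro x hx
        rw [if_neg, mul_zero]
        intro h1
        refine h1 (Or.inr ?_)
        simp only [mem_iUnion]
        exact ⟨N, Finset.mem_coe.2 (Finset.mem_range.2 hN), x, hx, rfl⟩
    · refine le_trans ?_ (h N hN)
      refine measureReal_mono (fun x hx h1 => hx (Or.inl h1)) (measure_ne_top _ _)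

/-- **the closed curve without and with its last edge** -/
lemma mw_near (hQ : QB) {b : ℝ} (hb : 0 ≤ b) {G : ℝ × ℝ × C(unitInterval, ℂ) → ℝ} (hG : Continuous G) {M : ℝ} (hM : ∀ y, |G y| ≤ M) :
    Tendsto (fun N => ∫ x, G (cN N x) ∂(mw N b) - ∫ x, G (cT N x) ∂(mw N b)) atTop (𝓝 0) := by
  obtain ⟨A, hA, hmass⟩ := mw_mass hQ hb
  have hM0 : 0 ≤ M := (abs_nonneg _).trans (hM 0)
  rw [Metric.tendsto_atTop]
  intro ε hε
  obtain ⟨K, hK, hKN⟩ := mw_tight_all hQ hb (show 0 < ε / (4 * (M + 1)) by positivity)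
  obtain ⟨δ, hδ, hunif⟩ := unif_near hK hG (show 0 < ε / (4 * A) by positivity)
  obtain ⟨N0, hN0⟩ := exists_nat_gt (5 / δ)
  refine ⟨max N0 1, fun N hN => ?_⟩
  have hN1 : 1 ≤ N := (le_max_right _ _).trans hN
  have hNp : (0 : ℝ) < N := by exact_mod_cast hN1
  have h5 : 5 / (N : ℝ) ≤ δ := by
    rw [div_le_iff₀ hNp]
    rw [div_lt_iff₀ hδ] at hN0
    have : (N0 : ℝ) ≤ N := by exact_mod_cast (le_max_left _ _).trans hN
    nlinarith
  rw [Real.dist_eq, sub_zero, ← integral_sub (mw_integrable _) (mw_integrable _)]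
  have h1 : ∫ x, |G (cN N x) - G (cT N x)| ∂(mw N b) ≤
      ∫ x, (ε / (4 * A) + 2 * M * indicator {x | cT N x ∉ K} (fun _ => (1 : ℝ)) x) ∂(mw N b) := by
    refine mw_mono fun x hx => ?_
    by_cases h2 : cT N x ∈ K
    · rw [indicator_of_notMem (show x ∉ {x | cT N x ∉ K} from fun h => h h2), mul_zero, add_zero, abs_sub_comm]
      exact hunif _ h2 _ ((cT_dist hx).trans h5)
    · rw [indicator_of_mem (show x ∈ {x | cT N x ∉ K} from h2)]
      have h3 := abs_sub (G (cN N x)) (G (cT N x))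
      have h4 := hM (cN N x)
      have h6 := hM (cT N x)
      have h7 : 0 < ε / (4 * A) := by positivity
      linarith
  rw [integral_add (mw_integrable _) (mw_integrable _), integral_const_mul, mw_ind, integral_const, smul_eq_mul] at h1
  have h2 := abs_integral_le_integral_abs (μ := mw N b) (f := fun x => G (cN N x) - G (cT N x))
  have h3 := hmass N
  have h4 := hKN N
  have h6 : (mw N b).real univ * (ε / (4 * A)) ≤ ε / 4 := by
    calc _ ≤ A * (ε / (4 * A)) := mul_le_mul_of_nonneg_right h3 (by positivity)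
      _ = ε / 4 := by field_simp
  have h7 : 2 * M * (mw N b).real {x | cT N x ∉ K} ≤ ε / 2 := by
    calc _ ≤ 2 * M * (ε / (4 * (M + 1))) := mul_le_mul_of_nonneg_left h4 (by positivity)
      _ ≤ 2 * (M + 1) * (ε / (4 * (M + 1))) := mul_le_mul_of_nonneg_right (by linarith) (by positivity)
      _ = ε / 2 := by
          field_simp
          ring
  linarith

/-- the closed curves are close to a compact set -/
lemma cN_tight (hQ : QB) {b ε : ℝ} (hb : 0 ≤ b) (hε : 0 < ε) : ∃ K : Set (ℝ × ℝ × C(unitInterval, ℂ)), IsCompact K ∧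
    ∀ᶠ N in atTop, (mw N b).real {x | ∀ y ∈ K, ε < dist (cN N x) y} ≤ ε := by
  obtain ⟨K, hK, h⟩ := mw_tight_all hQ hb hε
  obtain ⟨N0, hN0⟩ := exists_nat_gt (5 / ε)
  refine ⟨K, hK, (eventually_ge_atTop (max N0 1)).mono fun N hN => ?_⟩
  have hN1 : 1 ≤ N := (le_max_right _ _).trans hN
  have hNp : (0 : ℝ) < N := by exact_mod_cast hN1
  have h5 : 5 / (N : ℝ) ≤ ε := by
    rw [div_le_iff₀ hNp]
    rw [div_lt_iff₀ hε] at hN0
    have : (N0 : ℝ) ≤ N := by exact_mod_cast (le_max_left _ _).trans hN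
    nlinarith
  rw [← mw_ind]
  refine le_trans (mw_mono (g := indicator {x | cT N x ∉ K} fun _ => (1 : ℝ)) fun x hx => ?_) (by rw [mw_ind]; exact h N)
  by_cases h2 : cT N x ∈ K
  · rw [indicator_of_notMem]
    · exact indicator_nonneg (fun _ _ => zero_le_one) _
    · intro h3
      have h4 : ε < dist (cN N x) (cT N x) := h3 _ h2
      rw [dist_comm] at h4
      linarith [cT_dist hx]
  · rw [indicator_of_mem (show x ∈ {x | cT N x ∉ K} from h2)]
    exact indicator_le' (fun _ _ => le_rfl) (fun _ _ => zero_le_one) x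

/-- **the limits of the closed words with two roots** -/
theorem mw_lim (hQ : QB) {b : ℝ} (hb : 0 ≤ b) (U : Ultrafilter ℕ) (hU : (U : Filter ℕ) ≤ atTop) :
    ∃ P : Measure (ℝ × ℝ × C(unitInterval, ℂ)), IsFiniteMeasure P ∧ ∀ G : (ℝ × ℝ × C(unitInterval, ℂ)) →ᵇ ℝ,
      Tendsto (fun N => ∫ x, G (cN N x) ∂(mw N b)) U (𝓝 (∫ y, G y ∂P)) := by
  obtain ⟨A, hA, hmass⟩ := mw_mass hQ hb
  have hmeas : ∀ N, Measurable (cT N) := fun N => Measurable.of_discrete
  obtain ⟨P, hP, h⟩ := fin_lim (fun N => (mw N b).map (cT N)) (C := A.toNNReal) (fun N => by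
    rw [Measure.map_apply (hmeas N) MeasurableSet.univ, preimage_univ, ← ofReal_measureReal]
    exact ENNReal.ofReal_le_ofReal (hmass N)) (fun ε hε => by
      obtain ⟨K, hK, hKN⟩ := mw_tight_all hQ hb (show (0 : ℝ) < ε from hε)
      refine ⟨K, hK, fun N => ?_⟩
      rw [Measure.map_apply (hmeas N) hK.isClosed.measurableSet.compl, ← ofReal_measureReal]
      refine ENNReal.ofReal_le_of_le_toReal ?_
      exact hKN N) U
  refine ⟨P, hP, fun G => ?_⟩
  have h1 := h G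
  have e : ∀ N, ∫ x, G x ∂((mw N b).map (cT N)) = ∫ x, G (cT N x) ∂(mw N b) := fun N =>
    integral_map (hmeas N).aemeasurable G.continuous.aestronglyMeasurable
  simp only [e] at h1
  have h2 := (mw_near hQ hb G.continuous (M := ‖G‖) fun y => G.norm_coe_le_norm y).mono_left hU
  have h3 := h1.add h2
  rw [add_zero] at h3
  refine h3.congr fun N => ?_
  ring

/-- **one Lipschitz functional in place of a sequence of them, closed words with two roots** -/
theorem mw_sel (hQ : QB) {b : ℝ} (hb : 0 ≤ b) (U : Ultrafilter ℕ) (hU : (U : Filter ℕ) ≤ atTop) {L : ℝ≥0}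
    (φ : ℕ → ℝ × ℝ × C(unitInterval, ℂ) → ℝ) (hφ : ∀ N, LipschitzWith L (φ N)) (h1 : ∀ N x, |φ N x| ≤ 1) :
    ∃ ψ : ℝ × ℝ × C(unitInterval, ℂ) → ℝ, LipschitzWith L ψ ∧ (∀ x, |ψ x| ≤ 1) ∧ (∀ x, Tendsto (fun N => φ N x) U (𝓝 (ψ x))) ∧
      ∀ ε : ℝ, 0 < ε → ∀ᶠ N in U, ∫ x, |φ N (cN N x) - ψ (cN N x)| ∂(mw N b) ≤ ε := by
  obtain ⟨A, -, hmass⟩ := mw_mass hQ hb
  exact lip_sel U (fun N => mw N b) cN (A := A) (Eventually.of_forall hmass) (fun ε hε => by
    obtain ⟨K, hK, h⟩ := cN_tight hQ hb hε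
    exact ⟨K, hK, h.filter_mono hU⟩) (fun _ _ => MeasurableSet.of_discrete) φ hφ h1

end Pool.Agent.ROT.F3
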