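import Pool.Agent.ROT.F3Brd
import Pool.Agent.ROT.F3Gate

/-!
# ROT / F3T12A (helper35): the first gate of the first letters of a word, without a near return

* `dcm_ext`, **`gsum_take`** : without a near return the decomposition of the first `M` letters extends to the whole word;
* **`gsum_near`** : the same for the words read backwards from the vertex number `k'` of a turning word.
-/

set_option autoImplicit false

namespace Pool.Agent.ROT.F3

open Finset
open HexObs (oo up vx)
open NTF (JJ)
open scoped ENNReal Classical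

/-- without a near return the decomposition of the first letters extends to the whole word -/
lemma dcm_ext {d : ℂ} {r r0 l s : ℝ} {B : Set W3} {q p b R : W3} {M : ℕ} (hq : Even q.length) (hM : M ≤ q.length)
    (hr : 2 * r ≤ r0) (h0 : r0 ≤ s) (hB : ∀ b ∈ B, Even b.length ∧ ‖en b‖ ≤ s)
    (hn : ∀ j : ℕ, M < j → j ≤ q.length → 3 * s < ‖ps q j‖) (h : Dcm d r r0 l B (q.take M) p b R) :
    Dcm d r r0 l B q p b (R ++ q.drop M) := by
  have eb := hB b h.blk
  have ep := h.tip.ev
  have hr1 := norm_en_le h.tip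
  have hlen : p.length + (b.length + R.length) = M := by
    have := congrArg List.length h.eq
    rw [List.length_take, min_eq_left hM, List.length_append, List.length_append] at this
    omega
  have e1 : q = p ++ (b ++ (R ++ q.drop M)) := by
    have h1 : q.take M ++ q.drop M = q := List.take_append_drop M q
    rw [h.eq] at h1
    rw [← List.append_assoc b R, ← List.append_assoc]
    exact h1.symm
  have eM : Even M := by
    rw [← hlen]
    exact ep.add (eb.1.add h.ev)
  have hl2 : (R ++ q.drop M).length = R.length + (q.length - M) := by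
    rw [List.length_append, List.length_drop]
  refine ⟨e1, h.tip, h.fst, h.blk, ?_, fun k hk0 hk hn1 => ?_⟩
  · rw [hl2]
    exact h.ev.add ((Nat.even_sub hM).2 ⟨fun _ => eM, fun _ => hq⟩)
  · rcases Nat.lt_or_ge R.length k with h1 | h1
    · exfalso
      rw [hl2] at hk
      have h2 := hn (p.length + (b.length + k)) (by omega) (by omega)
      have h3 : ps q (p.length + (b.length + k)) = en p + (en b + ps (R ++ q.drop M) k) := by
        conv_lhs => rw [e1]
        rw [ps_append_right ep, ps_append_right eb.1]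
      rw [h3] at h2
      have h4 : ‖en p + (en b + ps (R ++ q.drop M) k)‖ ≤ ‖en p‖ + (‖en b‖ + ‖ps (R ++ q.drop M) k‖) :=
        (norm_add_le _ _).trans (add_le_add le_rfl (norm_add_le _ _))
      have h5 : 0 ≤ ‖en p‖ := norm_nonneg _
      linarith [eb.2]
    · rw [ps_append_left h1] at hn1 ⊢
      exact h.rst k hk0 h1 hn1

/-- **without a near return the sum over the gates of the first letters is at most the sum for the whole word** -/
theorem gsum_take {d : ℂ} {r r0 l s : ℝ} {B : Set W3} {q : W3} {M : ℕ} (hq : Even q.length) (hM : M ≤ q.length)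
    (hr : 2 * r ≤ r0) (h0 : r0 ≤ s) (hB : ∀ b ∈ B, Even b.length ∧ ‖en b‖ ≤ s)
    (hn : ∀ j : ℕ, M < j → j ≤ q.length → 3 * s < ‖ps q j‖) (ψ : W3 → ℝ≥0∞) :
    gsum d r r0 l B ψ (q.take M) ≤ gsum d r r0 l B ψ q := by
  obtain ⟨g, hg⟩ : ∃ g : W3 × W3 × W3 → W3 × W3 × W3, g = fun x => (x.1, x.2.1, x.2.2 ++ q.drop M) := ⟨_, rfl⟩
  have hinj : Function.Injective g := by
    rintro ⟨p, b, R⟩ ⟨p', b', R'⟩ h
    rw [hg] at h
    simp only [Prod.mk.injEq] at h
    obtain ⟨h1, h2, h3⟩ := h
    rw [h1, h2, List.append_cancel_right h3]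
  unfold gsum
  refine le_trans (ENNReal.tsum_le_tsum fun x => ?_) (ENNReal.tsum_comp_le_tsum_of_injective hinj
    (fun x : W3 × W3 × W3 => if Dcm d r r0 l B q x.1 x.2.1 x.2.2 then ψ x.2.1 else 0))
  by_cases hx : Dcm d r r0 l B (q.take M) x.1 x.2.1 x.2.2
  · rw [if_pos hx, hg]
    simp only
    rw [if_pos (dcm_ext hq hM hr h0 hB hn hx)]
  · rw [if_neg hx]
    exact bot_le

lemma vx_take {t : List Bool} {k j : ℕ} (hk : k ≤ t.length) (hj : j ≤ k) : vx oo up (t.take k) j = vx oo up t j := by
  have h3 : t = t.take k ++ t.drop k := (List.take_append_drop _ _).symm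
  conv_rhs => rw [h3]
  exact (HexObs.vx_append (by rw [List.length_take, min_eq_left hk]; omega)).symm

/-- the vertices of the word read backwards from the vertex number `k'` -/
lemma norm_psb {t : List Bool} {k' : ℕ} (ht : k' ≤ t.length) (he : Even k') (i : Fin 3) {j : ℕ} (hj : j ≤ k') :
    ‖ps (rt i (wl (t.take k'))).reverse j‖ = ‖JJ (vx oo up t (k' - j)) - JJ (vx oo up t k')‖ := by
  have hl : (t.take k').length = k' := by
    rw [List.length_take, min_eq_left ht]
  have hl1 : (rt i (wl (t.take k'))).length = k' := by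
    unfold rt
    rw [List.length_map, wl_length, hl]
  rw [ps_reverse (by rw [hl1]; exact he) (by rw [hl1]; exact hj), hl1, en_rt, ps_rt, ← mul_sub, norm_mul, norm_ax, one_mul,
    en_wl, hl, ps_wl _ (by rw [hl]; omega), vx_take ht (by omega), vx_take ht le_rfl]

/-- **the words read backwards from the vertex number `k'`**: the first letters and the whole word -/
theorem gsum_near {d : ℂ} {r r0 l s D : ℝ} {B : Set W3} {t : List Bool} {k' M : ℕ} (ht : k' ≤ t.length) (he : Even k')
    (hM : M ≤ k') (hr : 2 * r ≤ r0) (h0 : r0 ≤ s) (hB : ∀ b ∈ B, Even b.length ∧ ‖en b‖ ≤ s) (hD : 3 * s ≤ D)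
    (ψ : W3 → ℝ≥0∞) (i : Fin 3) : (min 1 (gsum d r r0 l B ψ ((rt i (wl (t.take k'))).reverse.take M))).toReal ≤
      (min 1 (gsum d r r0 l B ψ (rt i (wl (t.take k'))).reverse)).toReal +
        if ∃ j : ℕ, j + M ≤ k' ∧ ‖JJ (vx oo up t j) - JJ (vx oo up t k')‖ ≤ D then 1 else 0 := by
  have hl : (rt i (wl (t.take k'))).reverse.length = k' := by
    unfold rt
    rw [List.length_reverse, List.length_map, wl_length, List.length_take, min_eq_left ht]
  have hne : ∀ x : ℝ≥0∞, min 1 x ≠ ⊤ := fun x => (min_le_left 1 x).trans_lt ENNReal.one_lt_top |>.ne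
  split_ifs with h
  · have h1 : (min 1 (gsum d r r0 l B ψ ((rt i (wl (t.take k'))).reverse.take M))).toReal ≤ 1 := by
      rw [← ENNReal.toReal_one]
      exact (ENNReal.toReal_le_toReal (hne _) ENNReal.one_ne_top).2 (min_le_left _ _)
    have h2 : 0 ≤ (min 1 (gsum d r r0 l B ψ (rt i (wl (t.take k'))).reverse)).toReal := ENNReal.toReal_nonneg
    linarith
  · rw [add_zero]
    refine (ENNReal.toReal_le_toReal (hne _) (hne _)).2 (min_le_min le_rfl ?_)
    refine gsum_take (by rw [hl]; exact he) (by rw [hl]; exact hM) hr h0 hB (fun j hj hj2 => ?_) ψ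
    rw [hl] at hj2
    rw [norm_psb ht he i hj2]
    by_contra hcon
    exact h ⟨k' - j, by omega, (not_lt.1 hcon).trans hD⟩

end Pool.Agent.ROT.F3
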