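import Pool.Agent.ROT.F3Tb
import Pool.Agent.ARM2.TubeApp

/-!
# ROT, F3 (B), row W7 (helper79): the rests of a companion

* `cr_step`, `step_mul`, `neg_dir`, `JJ_neg_dir`, `re_JJ_mul`: the direction `e_i = step 0 i = cr i`, products and reversal;
* `odd_of`, `even_wd`: the parity of a tube word;
* `RestB R a b R0 R1 d0 d1`: self-avoiding, even, strictly right of its start (direction `e_a`) and near the half line in the ball
  of radius `R0`, the same for the reversed word with `e_b` in the ball of radius `R1`;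
* **`tub_rest`**: tube words give such rests.
-/

set_option autoImplicit false

namespace Pool.Agent.ROT.F3.Tb

open Finset
open HexObs (Pt vx dx oo up dirs ip nrm cl rotL rotR wE gf tf)
open NTF (sw JJ aa)
open Pool.Agent.TSW.BP (rt3 cr pos_rt3 cr_norm)
open Pool.Agent.NTS.Res (step pos saw fug)

open scoped ENNReal ComplexConjugate

/-! ### 1. Directions -/

lemma JJ_Ed' (a : Fin 3) : JJ (NTF.Ed a) = step 0 a := by
  rw [NTF.JJ_Ed]
  unfold step
  rw [pow_zero, one_mul]

lemma step_norm (a : Fin 3) : ‖step 0 a‖ = 1 := by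
  rw [← JJ_Ed']
  exact norm_JJ_dir (by revert a; decide)

lemma cr_step (a : Fin 3) : cr a = step 0 a := by
  have h := pos_rt3 a (n := 1) (fun _ => 0) 1
  have e1 : ∀ s : Fin 1 → Fin 3, pos s 1 = step 0 (s 0) := by
    intro s
    rw [NTSF.pos_succ s 0 (by norm_num), NTSF.pos_zero, zero_add]
    rfl
  rw [e1, e1] at h
  have e2 : step 0 (rt3 a (fun _ : Fin 1 => (0 : Fin 3)) 0) = step 0 a := by
    show step 0 (0 + a) = step 0 a
    rw [zero_add]
  have e3 : step 0 (0 : Fin 3) = 1 := by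
    rw [← JJ_Ed']
    show JJ up = 1
    exact JJ_up
  rw [e2, e3, mul_one] at h
  exact h.symm

lemma step_mul (a b : Fin 3) : step 0 a * step 0 b = step 0 (b + a) := by
  have h := pos_rt3 a (n := 1) (fun _ => b) 1
  have e1 : ∀ s : Fin 1 → Fin 3, pos s 1 = step 0 (s 0) := by
    intro s
    rw [NTSF.pos_succ s 0 (by norm_num), NTSF.pos_zero, zero_add]
    rfl
  rw [e1, e1, cr_step] at h
  exact h.symm

lemma aa_up : aa up = 0 := by decide

/-- the class of a direction against the motion: `- d = Ed (aa d)` -/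
lemma neg_dir {d : Pt} (hd : d ∈ dirs) (hc : cl d = 1) : -d = NTF.Ed (aa d) := by
  have h := (NTF.de_aa d hd).2 (by rw [hc]; decide)
  rw [neg_eq_iff_eq_neg]
  exact h.symm

/-- the letter of the reversed last step -/
lemma JJ_neg_dir {d : Pt} (hd : d ∈ dirs) (hc : cl d = 1) (a : Fin 3) : cr a * JJ (-d) = step 0 (aa d + a) := by
  rw [neg_dir hd hc, JJ_Ed', cr_step, step_mul]

section tubes

variable {E : ℕ → Pt} {D w B : ℤ} {n s s' : ℕ} {R0 R1 : ℝ} {z : Pt} {Q : List Bool}

/-- the parity of a tube word -/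
lemma odd_of (hQ : HexObs.ARM.TubeQ E D w n z Q) (hc : cl (E (n - 1)) = 1) : ¬ Even Q.length := by
  intro h
  have h1 := HexObs.AR.cl_de Q
  rw [if_pos h, hQ.de, hc] at h1
  exact absurd h1 (by decide)

lemma even_wd (a : Fin 3) (hQ : HexObs.ARM.TubeQ E D w n z Q) (hc : cl (E (n - 1)) = 1) : Even (wd a Q).length := by
  rw [length_wd, Nat.even_add_one]
  exact odd_of hQ hc

/-- **the rests**: strictly right of the start in the ball of radius `R0` and near the half line there, the same at the end,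
read backwards -/
structure RestB (R : W3) (a b : Fin 3) (R0 R1 d0 d1 : ℝ) : Prop where
  ev : Even R.length
  sw : SW R
  st : ∀ k, 1 ≤ k → k ≤ R.length → ‖ps R k‖ < R0 → 0 < (conj (step 0 a) * ps R k).re ∧
    ∃ x : ℝ, 0 ≤ x ∧ ‖ps R k - x * step 0 a‖ ≤ d0
  sp : ∀ k, 1 ≤ k → k ≤ R.length → ‖ps R.reverse k‖ < R1 → 0 < (conj (step 0 b) * ps R.reverse k).re ∧
    ∃ x : ℝ, 0 ≤ x ∧ ‖ps R.reverse k - x * step 0 b‖ ≤ d1

lemma conj_mul_re (a : Fin 3) (x : ℂ) : (conj (step 0 a) * (step 0 a * x)).re = x.re := by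
  have h : conj (step 0 a) * step 0 a = 1 := by
    rw [Complex.conj_mul', step_norm]
    norm_num
  rw [← mul_assoc, h, one_mul]

lemma re_JJ_mul (d v : Pt) : (conj (JJ d) * JJ v).re = (ip v d : ℝ) / 2 := by
  rw [Complex.mul_re, Complex.conj_re, Complex.conj_im, NTF.JJ_re, NTF.JJ_im, NTF.JJ_re, NTF.JJ_im]
  have h : Real.sqrt 3 * Real.sqrt 3 = 3 := Real.mul_self_sqrt (by norm_num)
  unfold HexObs.ip
  push_cast
  linear_combination (d.1 : ℝ) * v.1 / 4 * h

/-- **tube words give rests** -/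
theorem tub_rest (h : PathB E D n s s' R0 R1) (hw : 0 ≤ w) (hB : 0 ≤ B) (hD : w + B + 2 < 2 * D) (hBD : B + 2 ≤ D + w)
    (hR : (D : ℝ) + w + (B + 2) < R1) (hc : cl (E (n - 1)) = 1) (hQ : HexObs.ARM.TubeQ E D w n z Q)
    (hz : HexObs.TIW.hn (z - HexObs.AR.pv E D n) ≤ B) (a : Fin 3) :
    RestB (wd a Q) a (aa (E (n - 1)) + a) (R0 - (D + w)) (R1 - (D + w) - (B + 2)) w (w + (B + 2)) := by
  have hle := h.le
  have hs1 := h.s1
  have hs1' := h.s1'
  have hD0 : 0 ≤ D := by omega
  have hd : E (n - 1) ∈ dirs := h.ip.dir _ (by omega)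
  have hev := even_wd a hQ hc
  refine ⟨hev, tub_SW h hD hD0 hR hQ hz a, fun k h1 hk hb => ?_, fun k h1 hk hb => ?_⟩
  · rw [length_wd] at hk
    rw [ps_wd a Q hk] at hb ⊢
    rw [cr_step] at hb ⊢
    rw [norm_mul, step_norm, one_mul] at hb
    have hk' : k ≤ Q.length := by
      by_contra hc'
      have e1 : k = Q.length + 1 := by omega
      rw [e1, vx_last] at hb
      have h2 := h.far0 n (by omega) le_rfl
      have h3 := norm_JJ_le (enp Q - HexObs.AR.pv E D n)
      have h4 : (HexObs.TIW.hn (enp Q - HexObs.AR.pv E D n) : ℝ) ≤ B + 2 := by exact_mod_cast enp_near hQ hz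
      have h5 : ‖JJ (HexObs.AR.pv E D n)‖ ≤ ‖JJ (enp Q)‖ + ‖JJ (enp Q - HexObs.AR.pv E D n)‖ := by
        have e1 : JJ (HexObs.AR.pv E D n) = JJ (enp Q) - JJ (enp Q - HexObs.AR.pv E D n) := by
          rw [NTF.JJ_sub]
          ring
        rw [e1]
        exact norm_sub_le _ _
      have h6 : ((B : ℝ) + 2) ≤ D + w := by exact_mod_cast hBD
      linarith
    obtain ⟨g1, x, g2, g3⟩ := tub_start h (by omega) hD0 hQ h1 hk' hb
    refine ⟨?_, x, g2, ?_⟩
    · rw [conj_mul_re, JJ_re_ip]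
      have : (0 : ℝ) < (ip (vx oo up Q k) up : ℝ) := by exact_mod_cast g1
      linarith
    · have e1 : step 0 a * JJ (vx oo up Q k) - x * step 0 a = step 0 a * (JJ (vx oo up Q k) - x) := by ring
      rw [e1, norm_mul, step_norm, one_mul]
      exact g3
  · have hps : ps (wd a Q).reverse k = step 0 a * JJ (vx oo up Q (Q.length + 1 - k) - enp Q) := by
      rw [ps_reverse hev hk, length_wd, en_wd, ps_wd a Q (by omega), NTF.JJ_sub, cr_step]
      ring
    rw [length_wd] at hk
    rw [hps] at hb ⊢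
    rw [norm_mul, step_norm, one_mul] at hb
    obtain ⟨g1, x, g2, g3⟩ := tub_stop h hD hD0 hQ hz (i := Q.length + 1 - k) (by omega) hb
    have eb : step 0 (aa (E (n - 1)) + a) = step 0 a * JJ (-E (n - 1)) := by
      rw [← JJ_neg_dir hd hc, cr_step]
    rw [eb]
    refine ⟨?_, x, g2, ?_⟩
    · have e1 : conj (step 0 a * JJ (-E (n - 1))) * (step 0 a * JJ (vx oo up Q (Q.length + 1 - k) - enp Q)) =
          (conj (step 0 a) * step 0 a) * (conj (JJ (-E (n - 1))) * JJ (vx oo up Q (Q.length + 1 - k) - enp Q)) := by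
        rw [map_mul]
        ring
      have e2 : conj (step 0 a) * step 0 a = 1 := by
        rw [Complex.conj_mul', step_norm]
        norm_num
      rw [e1, e2, one_mul, re_JJ_mul, HexObs.ip_neg_right]
      have : (ip (vx oo up Q (Q.length + 1 - k) - enp Q) (E (n - 1)) : ℝ) < 0 := by exact_mod_cast g1
      push_cast
      linarith
    · have e1 : step 0 a * JJ (vx oo up Q (Q.length + 1 - k) - enp Q) - x * (step 0 a * JJ (-E (n - 1))) =
          step 0 a * (JJ (vx oo up Q (Q.length + 1 - k) - enp Q) - x * JJ (-E (n - 1))) := by ring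
      rw [e1, norm_mul, step_norm, one_mul]
      exact g3

end tubes

end Pool.Agent.ROT.F3.Tb
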