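import Pool.Agent.ROT.F3Tc
import Pool.Agent.ROT.F3Mass

/-!
# ROT, F3 (B), row W7 (helper79): the path of a companion keeps away from its two ends

* `norm_JJ_mulE`: turns are isometries;
* **`pathB_of`**: `PathC` (39) and the distances of the nodes of the chain and of the other stub => `PathB`.
-/

set_option autoImplicit false

namespace Pool.Agent.ROT.F3.Tb

open Finset
open HexObs (Pt vx dx oo up dirs ip nrm cl rotL rotR wE gf tf mulE conjE)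
open HexObs.ROT.F3S (PathC)
open NTF (sw JJ aa)

lemma norm_JJ_mulE {u : Pt} (hu : nrm u = 1) (v : Pt) : ‖JJ (mulE u v)‖ = ‖JJ v‖ := by
  have h1 : ‖JJ (mulE u v)‖ ^ 2 = ‖JJ v‖ ^ 2 := by
    rw [NTF.JJ_norm, NTF.JJ_norm, HexObs.nrm_mulE, hu, one_mul]
  nlinarith [norm_nonneg (JJ (mulE u v)), norm_nonneg (JJ v), sq_nonneg (‖JJ (mulE u v)‖ - ‖JJ v‖),
    sq_nonneg (‖JJ (mulE u v)‖ + ‖JJ v‖)]

/-- **the path of a companion keeps away from its two ends** -/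
theorem pathB_of {M : List (ℤ × ℤ)} {x0 x1 ω0 ω1 : ℤ × ℤ} {s s' n : ℕ} {u : Pt} {E : ℕ → Pt} {D : ℤ} {R0 R1 : ℝ}
    (h : PathC M x0 x1 ω0 ω1 s s' u n E) (hs : 1 ≤ s) (hs' : 1 ≤ s') (hD : 0 ≤ D)
    (h0 : ∀ y ∈ HexObs.ART.SN M, R0 ≤ D * ‖JJ (y - (HexObs.ART.ctr x0 + (s : ℤ) • ω0))‖)
    (h0' : ∀ j : ℕ, j ≤ s' → R0 ≤ D * ‖JJ (HexObs.ART.ctr x1 + (j : ℤ) • ω1 - (HexObs.ART.ctr x0 + (s : ℤ) • ω0))‖)
    (h1 : ∀ y ∈ HexObs.ART.SN M, R1 ≤ D * ‖JJ (y - (HexObs.ART.ctr x1 + (s' : ℤ) • ω1))‖)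
    (h1' : ∀ j : ℕ, j ≤ s → R1 ≤ D * ‖JJ (HexObs.ART.ctr x0 + (j : ℤ) • ω0 - (HexObs.ART.ctr x1 + (s' : ℤ) • ω1))‖) :
    PathB E D n s s' R0 R1 := by
  have hle := h.le
  have hu : nrm u = 1 := HexObs.mem_dirs.1 h.u_mem
  have hcu : nrm (conjE u) = 1 := HexObs.mem_dirs.1 (HexObs.RMP.J5.conj_dirs h.u_mem)
  have hD' : (0 : ℝ) ≤ D := by exact_mod_cast hD
  obtain ⟨S, hS⟩ : ∃ S : Pt, S = HexObs.ART.ctr x0 + (s : ℤ) • ω0 := ⟨_, rfl⟩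
  obtain ⟨T, hT⟩ : ∃ T : Pt, T = HexObs.ART.ctr x1 + (s' : ℤ) • ω1 := ⟨_, rfl⟩
  have key : ∀ v : Pt, ‖JJ (D • v)‖ = D * ‖JJ (mulE (conjE u) v)‖ := by
    intro v
    rw [JJ_smul, norm_mul, norm_JJ_mulE hcu, Complex.norm_intCast, abs_of_nonneg hD']
  have hn : mulE (conjE u) (HexObs.AR.ps E n) = T - S := by
    rw [h.tot, HexObs.RMP.J5.conj_mulE h.u_mem, ← hT, ← hS]
  refine ⟨HexObs.ARM.G3.ipg_path h.ipg (h.fst 0 (by omega)), hs, hs', hle, h.fst, fun i hi hi' => ?_, fun i hi hi' => ?_,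
    fun i hi => ?_⟩
  · rw [h.lst i hi hi', h.lst (n - 1) (by omega) (by omega)]
  · unfold HexObs.AR.pv
    rw [key]
    have e1 : mulE (conjE u) (HexObs.AR.ps E i) = S + mulE (conjE u) (HexObs.AR.ps E i) - S := by abel
    rw [e1]
    rcases h.far0 i hi hi' with g | ⟨j, hj, g⟩
    · rw [← hS] at g
      have := h0 _ g
      rwa [← hS] at this
    · rw [← hS] at g
      rw [g, hS]
      exact h0' j hj
  · unfold HexObs.AR.pv
    rw [← smul_sub, key, HexObs.mulE_sub, hn]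
    have e1 : mulE (conjE u) (HexObs.AR.ps E i) - (T - S) = S + mulE (conjE u) (HexObs.AR.ps E i) - T := by abel
    rw [e1]
    rcases h.far1 i hi with g | ⟨j, hj, g⟩
    · rw [← hS] at g
      have := h1 _ g
      rwa [← hT] at this
    · rw [← hS] at g
      rw [g, hT]
      exact h1' j hj

end Pool.Agent.ROT.F3.Tb
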