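import Pool.Agent.ROT.F3TubeL
import Pool.Agent.ARM2.TubeApp

/-!
# ROT, F3 (B), rows W7 / LOW0 (helper76): tube words with the order of time

`ARM.TubeQ` says that all vertices of the word are near the path, nothing about the order of time. Here the words are cut behind
the first `p` steps and in front of the last `q` steps of the path:
* `OrdS e D w n p Q i1` : up to the time `i1` the word is near one of the segments `j < p`, behind `i1` near one of the segments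
  `p ≤ j`;
* `TubeO` : tube words with two such times, for `p` and for `n - q`;
* **`tubeO`** : the mass of these words with exact end (`c U_k / 4 ^ k`) and with the end in a disc (`c U_k`).
-/

set_option autoImplicit false

namespace HexObs

namespace AR

open Finset TIW TS SDN POL ARM ARM.G3

open scoped ENNReal

/-! ### 1. Two pieces -/

/-- **the mass of two pieces**: the second piece may depend on the first one -/
theorem glue2 {e : ℕ → Pt} {p r m : ℕ} {D w w' B : ℤ} {z : Pt} {AA : Set (List Bool)} {VV : List Bool → Set (List Bool)}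
    {v : ℝ≥0∞} (h : IPath e (p + r)) (hs : e p = e (p - 1))
    (hA : ∀ A ∈ AA, TubeQ e D w p (en A) A ∧ hn (en A - pv e D p) ≤ m) (hm : (m : ℤ) ≤ B)
    (hV : ∀ A ∈ AA, ∀ V ∈ VV A, TubeQ (nx A e p) D w' r (tg A z) V) (hw : w + (w' + B) < D)
    (hv : ∀ A ∈ AA, v ≤ gf (VV A)) : gf AA * v ≤ ENNReal.ofReal (UU m) * gf (Pr AA VV) := by
  refine (glueM TIP.FreeA.BU_nil (fun _ h _ h' => TIP.FreeA.BU_app h h') hv ?_).trans (mul_le_mul' (df_mass
    (d := e (p - 1)) fun A hA1 => ⟨(hA A hA1).1.de, (hA A hA1).2⟩) le_rfl)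
  intro A hA1 A' hA2 V hV1 V' hV2 he hl
  obtain ⟨Z, rfl⟩ : ∃ Z, A' = A ++ Z := by
    have h1 : A <+: A' ++ V' := ⟨V, he⟩
    have h2 : A' <+: A' ++ V' := List.prefix_append _ _
    obtain ⟨Z, hZ⟩ := List.prefix_of_prefix_length_le h1 h2 hl
    exact ⟨Z, hZ.symm⟩
  rw [List.append_assoc] at he
  have he' := List.append_cancel_left he
  have g1 := hV A hA1 V hV1
  rw [he'] at g1
  exact ⟨Z, (zQ h hs (hA _ hA1).1 ((hA _ hA1).2.trans hm) (hA _ hA2).1 g1 hw).1, rfl⟩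

end AR

namespace ART

namespace TO

open Finset TS SDN SIM NTA TIP ARM AR

open scoped ENNReal

/-- up to the time `i1` near one of the segments `j < p`, behind `i1` near one of the segments `p ≤ j < n` -/
structure OrdS (e : ℕ → Pt) (D w : ℤ) (n p : ℕ) (Q : List Bool) (i1 : ℕ) : Prop where
  le : i1 ≤ Q.length
  lo : ∀ i, i ≤ i1 → ∃ j, j < p ∧ Nr e D w j (vx oo up Q i)
  hi : ∀ i, i1 ≤ i → i ≤ Q.length → ∃ j, p ≤ j ∧ j < n ∧ Nr e D w j (vx oo up Q i)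

lemma OrdS.mono {e : ℕ → Pt} {D w w' : ℤ} {n p : ℕ} {Q : List Bool} {i1 : ℕ} (h : OrdS e D w n p Q i1) (hw : w ≤ w') :
    OrdS e D w' n p Q i1 := by
  refine ⟨h.le, fun i hi => ?_, fun i h1 h2 => ?_⟩
  · obtain ⟨j, g1, g2⟩ := h.lo i hi
    exact ⟨j, g1, g2.mono hw⟩
  · obtain ⟨j, g1, g2, g3⟩ := h.hi i h1 h2
    exact ⟨j, g1, g2, g3.mono hw⟩

section app

variable {e : ℕ → Pt} {p r m : ℕ} {D w w' B : ℤ} {z' : Pt} {A V : List Bool}

lemma ord_fst (hA : TubeQ e D w p (TIW.en A) A) (hz : TIW.hn (TIW.en A - pv e D p) ≤ B)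
    (hV : TubeQ (nx A e p) D w' r z' V) (hww : w' + B ≤ w) : OrdS e D w (p + r) p (A ++ V) A.length := by
  refine ⟨by rw [List.length_append]; omega, fun i hi => ?_, fun i h1 h2 => ?_⟩
  · rw [vx_append (by omega)]
    exact hA.rg i hi
  · obtain ⟨q, rfl⟩ : ∃ q, i = A.length + q := ⟨i - A.length, by omega⟩
    rw [List.length_append] at h2
    obtain ⟨j, g1, g2⟩ := hV.rg q (by omega)
    refine ⟨p + j, by omega, by omega, ?_⟩
    rw [TIW.vx_app A V q]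
    exact NS.mono (nx_near hz g2) hww

lemma ord_snd (hA : TubeQ e D w p (TIW.en A) A) (hz : TIW.hn (TIW.en A - pv e D p) ≤ B)
    (hww : w' + B ≤ w) {i1 : ℕ} (h : OrdS (nx A e p) D w' r m V i1) :
    OrdS e D w (p + r) (p + m) (A ++ V) (A.length + i1) := by
  have hle := h.le
  refine ⟨by rw [List.length_append]; omega, fun i hi => ?_, fun i h1 h2 => ?_⟩
  · rcases Nat.lt_or_ge A.length i with h3 | h3
    · obtain ⟨q, rfl⟩ : ∃ q, i = A.length + q := ⟨i - A.length, by omega⟩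
      obtain ⟨j, g1, g2⟩ := h.lo q (by omega)
      refine ⟨p + j, by omega, ?_⟩
      rw [TIW.vx_app A V q]
      exact NS.mono (nx_near hz g2) hww
    · rw [vx_append (by omega)]
      obtain ⟨j, g1, g2⟩ := hA.rg i h3
      exact ⟨j, by omega, g2⟩
  · obtain ⟨q, rfl⟩ : ∃ q, i = A.length + q := ⟨i - A.length, by omega⟩
    rw [List.length_append] at h2
    obtain ⟨j, g1, g2, g3⟩ := h.hi q (by omega) (by omega)
    refine ⟨p + j, by omega, by omega, ?_⟩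
    rw [TIW.vx_app A V q]
    exact NS.mono (nx_near hz g3) hww

end app

/-! ### 2. The masses -/

/-- the first pieces -/
def AAk (e : ℕ → Pt) (D : ℤ) (k p : ℕ) : Set (List Bool) :=
  {A | TubeQ e D (2 ^ (k + 9)) p (TIW.en A) A ∧ ((TIW.hn (TIW.en A - pv e D p) : ℤ) : ℝ) ≤ 1 * 2 ^ k ∧ TL.Lg k A}

lemma AAk_hn {e : ℕ → Pt} {D : ℤ} {k p : ℕ} {A : List Bool} (h : A ∈ AAk e D k p) :
    TIW.hn (TIW.en A - pv e D p) ≤ 2 ^ k := by
  have h1 := h.2.1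
  rw [one_mul] at h1
  exact_mod_cast h1

lemma two_mass {e : ℕ → Pt} {k p r : ℕ} {D w' : ℤ} {z : Pt} (h : IPath e (p + r)) (hs : e p = e (p - 1))
    (hD : 18 * (2 ^ 13 * 2 ^ k) ≤ D) (hw' : w' ≤ 2 ^ (k + 10)) {x y : ℝ} (hx : 0 ≤ x) (hy : 0 ≤ y)
    (hA : ENNReal.ofReal (x * Ub k) ≤ gf (AAk e D k p)) {VV : List Bool → Set (List Bool)}
    (hV : ∀ A ∈ AAk e D k p, ∀ V ∈ VV A, TubeQ (nx A e p) D w' r (tg A z) V)
    (hv : ∀ A ∈ AAk e D k p, ENNReal.ofReal (y * (Ub k / 4 ^ k)) ≤ gf (VV A)) :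
    ENNReal.ofReal (x * y * (Ub k / 4 ^ k)) ≤ gf (Pr (AAk e D k p) VV) := by
  have hU : 0 < Ub k := Num2Aux.UU_pos _
  have h2k : (0 : ℤ) < 2 ^ k := by positivity
  have h9 : (2 : ℤ) ^ (k + 9) = 512 * 2 ^ k := by ring
  have h10 : (2 : ℤ) ^ (k + 10) = 1024 * 2 ^ k := by ring
  have h1 := glue2 (m := 2 ^ k) (B := 2 ^ k) (w := 2 ^ (k + 9)) (z := z) h hs
    (fun A hA => ⟨hA.1, by push_cast; exact AAk_hn hA⟩) (by push_cast; exact le_rfl) hV
    (by rw [h9]; rw [h10] at hw'; norm_num at hD; linarith) hv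
  refine of_step (K := Ub k) (x := x) (u := y * (Ub k / 4 ^ k)) hU hx (by positivity) h1 hA le_rfl le_rfl (le_of_eq ?_)
  ring

/-- the target of the second piece -/
lemma tg_cls {e : ℕ → Pt} {p r : ℕ} {z : Pt} {A : List Bool} (hr : 1 ≤ r)
    (hcl : (cl z = 0 ∧ cl (e (p + r - 1)) = 2) ∨ (cl z = 2 ∧ cl (e (p + r - 1)) = 1)) :
    (cl (tg A z) = 0 ∧ cl (nx A e p (r - 1)) = 2) ∨ (cl (tg A z) = 2 ∧ cl (nx A e p (r - 1)) = 1) := by
  have e1 : p + (r - 1) = p + r - 1 := by omega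
  rcases hcl with ⟨h1, h2⟩ | ⟨h1, h2⟩
  · have hE : Even (A.length + A.length) := ⟨_, rfl⟩
    have g1 := tg_cl (A := A) (n := A.length + A.length) (b := A.length) (z1 := z) rfl (by rw [if_pos hE]; exact h1)
    have g2 := nx_cl (A := A) (e := e) (p := p) (j := r - 1) (n := A.length + A.length) (b := A.length) rfl
      (by rw [if_pos hE, e1]; exact h2)
    by_cases hb : Even A.length
    · rw [if_pos hb] at g1 g2
      exact Or.inl ⟨g1, g2⟩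
    · rw [if_neg hb] at g1 g2
      exact Or.inr ⟨g1, g2⟩
  · have hE : ¬ Even (A.length + (A.length + 1)) := by
      rw [Nat.even_add, Nat.even_add_one]
      tauto
    have g1 := tg_cl (A := A) (n := A.length + (A.length + 1)) (b := A.length + 1) (z1 := z) rfl
      (by rw [if_neg hE]; exact h1)
    have g2 := nx_cl (A := A) (e := e) (p := p) (j := r - 1) (n := A.length + (A.length + 1)) (b := A.length + 1) rfl
      (by rw [if_neg hE, e1]; exact h2)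
    by_cases hb : Even (A.length + 1)
    · rw [if_pos hb] at g1 g2
      exact Or.inl ⟨g1, g2⟩
    · rw [if_neg hb] at g1 g2
      exact Or.inr ⟨g1, g2⟩

/-- **two pieces, exact end** -/
theorem tube2 : ∃ H0 : ℕ, 2 ^ 13 ≤ H0 ∧ ∀ H : ℕ, H0 ≤ H → ∀ Mx : ℕ, ∃ (c : ℝ) (k0 : ℕ), 0 < c ∧
    ∀ (k p r : ℕ) (D : ℤ) (e : ℕ → Pt) (z : Pt), k0 ≤ k → 18 * (H * 2 ^ k) ≤ D → D ≤ 36 * (H * 2 ^ k) → 1 ≤ p → 1 ≤ r →
      p + r ≤ Mx → IPath e (p + r) → e p = e (p - 1) → TIW.hn (z - AR.pv e D (p + r)) ≤ 2 ^ (k + 1) →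
      ((cl z = 0 ∧ cl (e (p + r - 1)) = 2) ∨ (cl z = 2 ∧ cl (e (p + r - 1)) = 1)) →
      ENNReal.ofReal (c * (Ub k / 4 ^ k)) ≤ gf {Q | TubeQ e D (2 ^ (k + 9) + 2 ^ k) (p + r) z Q ∧
        (∃ i1, OrdS e D (2 ^ (k + 9) + 2 ^ k) (p + r) p Q i1) ∧ ml k ≤ Q.length ∧ (Q.length : ℝ) ≤ 6 * ml k} := by
  obtain ⟨H0, hH0, hT⟩ := TL.tubeSumL
  refine ⟨H0, hH0, fun H hH Mx => ?_⟩
  obtain ⟨c, k0, hc, hT⟩ := hT H hH Mx 1 one_pos (by norm_num)
  refine ⟨c * c, k0, by positivity, fun k p r D e z hk hD1 hD2 hp hr hpr he hs hz hcl => ?_⟩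
  have h2k : (0 : ℤ) < 2 ^ k := by positivity
  have hHz : (2 : ℤ) ^ 13 ≤ H := by exact_mod_cast hH0.trans hH
  have hD : 18 * (2 ^ 13 * 2 ^ k) ≤ D := le_trans (by nlinarith) hD1
  have h9 : (2 : ℤ) ^ (k + 9) = 512 * 2 ^ k := by ring
  have h10 : (2 : ℤ) ^ (k + 10) = 1024 * 2 ^ k := by ring
  have hip1 : IPg e p := ⟨fun i hi => he.dir i (by omega), fun i hi => he.tur i (by omega),
    fun i j hij hj => he.ind i j hij (by omega)⟩
  have h0 : e 0 = up := he.one (by omega)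
  have hA : ENNReal.ofReal (c * Ub k) ≤ gf (AAk e D k p) := by
    refine (hT k p D e hk hD1 hD2 hp (by omega) hip1 h0).2 (pv e D p) ?_
    rw [sub_self, show TIW.hn (0 : Pt) = 0 by decide, pow_add]
    push_cast
    have : (0 : ℝ) < 2 ^ k := by positivity
    linarith
  have hnx : ∀ A ∈ AAk e D k p, IPath (nx A e p) r := fun A hA => nx_path he hr hs hA.1.de
  have hv : ∀ A ∈ AAk e D k p, ENNReal.ofReal (c * (Ub k / 4 ^ k)) ≤
      gf {V | TubeQ (nx A e p) D (2 ^ (k + 9)) r (tg A z) V ∧ TL.Lg k V} := by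
    intro A hA
    have h1 := hnx A hA
    refine (hT k r D (nx A e p) hk hD1 hD2 hr (by omega) ⟨h1.dir, h1.tur, h1.ind⟩ (h1.one (by omega))).1 _ ?_
      (tg_cls hr hcl)
    refine nx_hn.trans ?_
    have h2 := AAk_hn hA
    rw [pow_succ] at hz
    have h3 : (2 : ℤ) ^ (k + 2) = 4 * 2 ^ k := by ring
    rw [h3]
    linarith
  have key := two_mass (w' := 2 ^ (k + 9)) (z := z) he hs hD (by rw [h9, h10]; linarith) hc.le hc.le hA
    (VV := fun A => {V | TubeQ (nx A e p) D (2 ^ (k + 9)) r (tg A z) V ∧ TL.Lg k V}) (fun A _ V hV => hV.1) hv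
  refine key.trans (gf_mono ?_)
  rintro Q ⟨A, hA, V, hV, rfl⟩
  have g1 := AAk_hn hA
  refine ⟨?_, ⟨A.length, ord_fst (B := 2 ^ k) (tubeQ_mono hA.1 (by linarith)) g1 hV.1 le_rfl⟩, ?_, ?_⟩
  · have h3 := app he hp hr hs (tubeQ_mono hA.1 (w' := 2 ^ (k + 9) + 2 ^ k) (by linarith)) g1 hV.1
      (by rw [h9]; norm_num at hD; linarith) le_rfl
    rwa [rt_tg] at h3
  · rw [List.length_append]
    push_cast
    have h3 := hA.2.2.1
    have h4 : (0 : ℝ) ≤ V.length := by positivity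
    linarith
  · rw [List.length_append]
    push_cast
    have h3 := hA.2.2.2
    have h4 := hV.2.2
    linarith

/-- **tube words with the order of time**: `p` steps at the start, `q` steps at the end -/
structure TubeO (e : ℕ → Pt) (D w : ℤ) (n p q : ℕ) (z : Pt) (Q : List Bool) : Prop where
  tub : TubeQ e D w n z Q
  ord : ∃ i1 i2, i1 ≤ i2 ∧ OrdS e D w n p Q i1 ∧ OrdS e D w n (n - q) Q i2

/-- **three pieces, exact end** -/
theorem tube3 : ∃ H0 : ℕ, 2 ^ 13 ≤ H0 ∧ ∀ H : ℕ, H0 ≤ H → ∀ Mx : ℕ, ∃ (c : ℝ) (k0 : ℕ), 0 < c ∧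
    ∀ (k n p q : ℕ) (D : ℤ) (e : ℕ → Pt) (z : Pt), k0 ≤ k → 18 * (H * 2 ^ k) ≤ D → D ≤ 36 * (H * 2 ^ k) → 1 ≤ p → 1 ≤ q →
      p + q < n → n ≤ Mx → IPath e n → e p = e (p - 1) → e (n - q) = e (n - q - 1) → TIW.hn (z - AR.pv e D n) ≤ 2 ^ k →
      ((cl z = 0 ∧ cl (e (n - 1)) = 2) ∨ (cl z = 2 ∧ cl (e (n - 1)) = 1)) →
      ENNReal.ofReal (c * (Ub k / 4 ^ k)) ≤ gf {Q | TubeO e D (2 ^ (k + 10)) n p q z Q ∧
        ml k ≤ Q.length ∧ (Q.length : ℝ) ≤ 9 * ml k} := by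
  obtain ⟨H1, hH1, hT2⟩ := tube2
  obtain ⟨H0, hH0, hT⟩ := TL.tubeSumL
  refine ⟨max H0 H1, hH0.trans (le_max_left _ _), fun H hH Mx => ?_⟩
  obtain ⟨c, k0, hc, hT⟩ := hT H ((le_max_left _ _).trans hH) Mx 1 one_pos (by norm_num)
  obtain ⟨c', k1, hc', hT2⟩ := hT2 H ((le_max_right _ _).trans hH) Mx
  refine ⟨c * c', max k0 k1, by positivity, fun k n p q D e z hk hD1 hD2 hp hq hpq hn he hs hs2 hz hcl => ?_⟩
  obtain ⟨m, hm, rfl⟩ : ∃ m, 1 ≤ m ∧ n = p + (m + q) := ⟨n - (p + q), by omega, by omega⟩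
  have h2k : (0 : ℤ) < 2 ^ k := by positivity
  have hHz : (2 : ℤ) ^ 13 ≤ H := by exact_mod_cast hH0.trans ((le_max_left _ _).trans hH)
  have hD : 18 * (2 ^ 13 * 2 ^ k) ≤ D := le_trans (by nlinarith) hD1
  have h9 : (2 : ℤ) ^ (k + 9) = 512 * 2 ^ k := by ring
  have h10 : (2 : ℤ) ^ (k + 10) = 1024 * 2 ^ k := by ring
  have hip1 : IPg e p := ⟨fun i hi => he.dir i (by omega), fun i hi => he.tur i (by omega),
    fun i j hij hj => he.ind i j hij (by omega)⟩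
  have h0 : e 0 = up := he.one (by omega)
  have hA : ENNReal.ofReal (c * Ub k) ≤ gf (AAk e D k p) := by
    refine (hT k p D e ((le_max_left _ _).trans hk) hD1 hD2 hp (by omega) hip1 h0).2 (pv e D p) ?_
    rw [sub_self, show TIW.hn (0 : Pt) = 0 by decide, pow_add]
    push_cast
    have : (0 : ℝ) < 2 ^ k := by positivity
    linarith
  have e3 : p + (m + q) - q = p + m := by omega
  rw [e3] at hs2
  have hnx : ∀ A ∈ AAk e D k p, IPath (nx A e p) (m + q) := fun A hA => nx_path he (by omega) hs hA.1.de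
  have hv : ∀ A ∈ AAk e D k p, ENNReal.ofReal (c' * (Ub k / 4 ^ k)) ≤
      gf {V | TubeQ (nx A e p) D (2 ^ (k + 9) + 2 ^ k) (m + q) (tg A z) V ∧
        (∃ i1, OrdS (nx A e p) D (2 ^ (k + 9) + 2 ^ k) (m + q) m V i1) ∧ ml k ≤ V.length ∧ (V.length : ℝ) ≤ 6 * ml k} := by
    intro A hA
    refine hT2 k m q D (nx A e p) _ ((le_max_right _ _).trans hk) hD1 hD2 hm hq (by omega) (hnx A hA) ?_ ?_
      (tg_cls (by omega) (by rwa [← add_assoc] at hcl ⊢))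
    · unfold nx
      rw [hs2, show p + m - 1 = p + (m - 1) by omega]
    · refine nx_hn.trans ?_
      have h2 := AAk_hn hA
      rw [pow_succ]
      linarith
  have key := two_mass (w' := 2 ^ (k + 9) + 2 ^ k) (z := z) he hs hD (by rw [h9, h10]; linarith) hc.le hc'.le hA
    (VV := fun A => {V | TubeQ (nx A e p) D (2 ^ (k + 9) + 2 ^ k) (m + q) (tg A z) V ∧
        (∃ i1, OrdS (nx A e p) D (2 ^ (k + 9) + 2 ^ k) (m + q) m V i1) ∧ ml k ≤ V.length ∧ (V.length : ℝ) ≤ 6 * ml k})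
    (fun A _ V hV => hV.1) hv
  refine key.trans (gf_mono ?_)
  rintro Q ⟨A, hA, V, ⟨hV1, ⟨i1, hV2⟩, hV3, hV4⟩, rfl⟩
  have g1 := AAk_hn hA
  have gA : TubeQ e D (2 ^ (k + 10)) p (TIW.en A) A := tubeQ_mono hA.1 (by rw [h9, h10]; linarith)
  have gw : (2 : ℤ) ^ (k + 9) + 2 ^ k + 2 ^ k ≤ 2 ^ (k + 10) := by rw [h9, h10]; linarith
  refine ⟨⟨?_, A.length, A.length + i1, by omega, ord_fst (B := 2 ^ k) gA g1 hV1 gw,
    by rw [e3]; exact ord_snd (B := 2 ^ k) gA g1 gw hV2⟩, ?_, ?_⟩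
  · have h3 := app he hp (by omega) hs gA g1 hV1 (by rw [h9, h10]; norm_num at hD; linarith) gw
    rwa [rt_tg] at h3
  · rw [List.length_append]
    push_cast
    have h3 := hA.2.2.1
    have h4 : (0 : ℝ) ≤ V.length := by positivity
    linarith
  · rw [List.length_append]
    push_cast
    have h3 := hA.2.2.2
    linarith

/-- the sum over the ends of a disc -/
lemma sum_endM {x : ℝ} {M : ℤ} {k r : ℕ} {D w : ℤ} {e : ℕ → Pt} (p : Pt) (S : Set (List Bool)) (he : IPg e r) (hr : 1 ≤ r) {a : ℝ} (ha : 0 < a)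
    (hak : 24 ≤ a * 2 ^ k) (hx : 0 ≤ x) (hp : ((TIW.hn (p - AR.pv e D r) : ℤ) : ℝ) + a * 2 ^ k ≤ M)
    (h : ∀ z, TIW.hn (z - AR.pv e D r) ≤ M →
      ((cl z = 0 ∧ cl (e (r - 1)) = 2) ∨ (cl z = 2 ∧ cl (e (r - 1)) = 1)) →
      ENNReal.ofReal (x / 4 ^ k) ≤ gf {Q | TubeQ e D w r z Q ∧ Q ∈ S}) :
    ENNReal.ofReal (a ^ 2 / 576 * x) ≤
      gf {Q | TubeQ e D w r (TIW.en Q) Q ∧ ((TIW.hn (TIW.en Q - p) : ℤ) : ℝ) ≤ a * 2 ^ k ∧ Q ∈ S} := by
  classical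
  obtain ⟨m, hm⟩ : ∃ m : ℕ, m = ⌊(a * 2 ^ k - 6) / 9⌋₊ := ⟨_, rfl⟩
  have hm1 : (9 : ℝ) * m + 6 ≤ a * 2 ^ k := by
    have h1 : (m : ℝ) ≤ (a * 2 ^ k - 6) / 9 := by
      rw [hm]
      exact Nat.floor_le (by linarith)
    linarith
  have hm2 : a * 2 ^ k / 24 ≤ m := by
    have h1 : (a * 2 ^ k - 6) / 9 < m + 1 := by
      rw [hm]
      exact Nat.lt_floor_add_one _
    linarith
  obtain ⟨q, hq⟩ : ∃ q : ZMod 3, (q = 0 ∧ cl (e (r - 1)) = 2) ∨ (q = 2 ∧ cl (e (r - 1)) = 1) := by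
    rcases TSum.dir_cl (e (r - 1)) (he.dir (r - 1) (by omega)) with h1 | h1
    · exact ⟨2, Or.inr ⟨rfl, h1⟩⟩
    · exact ⟨0, Or.inl ⟨rfl, h1⟩⟩
  obtain ⟨Z, hZc, hZ⟩ := TSum.disc_pts p q m
  have hZr : ∀ z ∈ Z, ((TIW.hn (z - p) : ℤ) : ℝ) ≤ a * 2 ^ k := by
    intro z hz
    have h1 := (hZ z hz).2
    have h2 : ((TIW.hn (z - p) : ℤ) : ℝ) ≤ 9 * m + 6 := by exact_mod_cast h1
    linarith
  have hsub : (⋃ z ∈ Z, {Q | TubeQ e D w r z Q ∧ Q ∈ S}) ⊆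
      {Q | TubeQ e D w r (TIW.en Q) Q ∧ ((TIW.hn (TIW.en Q - p) : ℤ) : ℝ) ≤ a * 2 ^ k ∧ Q ∈ S} := by
    intro Q hQ
    rw [Set.mem_iUnion₂] at hQ
    obtain ⟨z, hz, hQ, hQS⟩ := hQ
    have h1 : TIW.en Q = z := hQ.en
    refine ⟨?_, ?_, hQS⟩
    · rw [h1]
      exact hQ
    · rw [h1]
      exact hZr z hz
  refine le_trans ?_ (gf_mono hsub)
  have hdis : ∀ i ∈ Z, ∀ j ∈ Z, i ≠ j → Disjoint {Q | TubeQ e D w r i Q ∧ Q ∈ S} {Q | TubeQ e D w r j Q ∧ Q ∈ S} := by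
    intro i _ j _ hij
    rw [Set.disjoint_left]
    intro Q h1 h2
    exact hij (h1.1.en.symm.trans h2.1.en)
  rw [gf_biUnion _ _ hdis]
  have key : ∀ z ∈ Z, ENNReal.ofReal (x / 4 ^ k) ≤ gf {Q | TubeQ e D w r z Q ∧ Q ∈ S} := by
    intro z hz
    obtain ⟨h1, h2⟩ := hZ z hz
    refine h z ?_ ?_
    · have e1 : z - AR.pv e D r = (z - p) + (p - AR.pv e D r) := by abel
      rw [e1]
      have h3 := hZr z hz
      have h4 : ((TIW.hn ((z - p) + (p - AR.pv e D r)) : ℤ) : ℝ) ≤ ((TIW.hn (z - p) + TIW.hn (p - AR.pv e D r) : ℤ) : ℝ) := by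
        exact_mod_cast TIW.hn_add _ _
      have h5 : ((TIW.hn ((z - p) + (p - AR.pv e D r)) : ℤ) : ℝ) ≤ (M : ℝ) := by
        push_cast at h4
        linarith
      exact_mod_cast h5
    · rcases hq with ⟨h3, h4⟩ | ⟨h3, h4⟩
      · exact Or.inl ⟨h1.trans h3, h4⟩
      · exact Or.inr ⟨h1.trans h3, h4⟩
  calc ENNReal.ofReal (a ^ 2 / 576 * x) ≤ ENNReal.ofReal (Z.card * (x / 4 ^ k)) := by
        refine ENNReal.ofReal_le_ofReal ?_
        rw [hZc]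
        push_cast
        have h1 : (a * 2 ^ k / 24) ^ 2 ≤ (m : ℝ) ^ 2 := pow_le_pow_left₀ (by positivity) hm2 2
        have h4 : (4 : ℝ) ^ k = 2 ^ k * 2 ^ k := by
          rw [← mul_pow]
          norm_num
        calc a ^ 2 / 576 * x = (a * 2 ^ k / 24) ^ 2 * (x / 4 ^ k) := by
              rw [h4]
              field_simp
              ring
          _ ≤ m ^ 2 * (x / 4 ^ k) := mul_le_mul_of_nonneg_right h1 (by positivity)
    _ = ∑ z ∈ Z, ENNReal.ofReal (x / 4 ^ k) := by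
        rw [sum_const, nsmul_eq_mul, ENNReal.ofReal_mul (by positivity), ENNReal.ofReal_natCast]
    _ ≤ _ := sum_le_sum key


/-- **three pieces, end in a disc** -/
theorem tube3d : ∃ H0 : ℕ, 2 ^ 13 ≤ H0 ∧ ∀ H : ℕ, H0 ≤ H → ∀ Mx : ℕ, ∃ (c : ℝ) (k0 : ℕ), 0 < c ∧
    ∀ (k n p q : ℕ) (D : ℤ) (e : ℕ → Pt), k0 ≤ k → 18 * (H * 2 ^ k) ≤ D → D ≤ 36 * (H * 2 ^ k) → 1 ≤ p → 1 ≤ q →
      p + q < n → n ≤ Mx → IPath e n → e p = e (p - 1) → e (n - q) = e (n - q - 1) →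
      ENNReal.ofReal (c * Ub k) ≤ gf {Q | TubeO e D (2 ^ (k + 10)) n p q (TIW.en Q) Q ∧
        TIW.hn (TIW.en Q - pv e D n) ≤ 2 ^ k ∧ ml k ≤ Q.length ∧ (Q.length : ℝ) ≤ 9 * ml k} := by
  obtain ⟨H0, hH0, hT⟩ := tube3
  refine ⟨H0, hH0, fun H hH Mx => ?_⟩
  obtain ⟨c, k0, hc, hT⟩ := hT H hH Mx
  refine ⟨1 / 576 * c, k0 + 5, by positivity, fun k n p q D e hk hD1 hD2 hp hq hpq hn he hs hs2 => ?_⟩
  have hU : 0 < Ub k := Num2Aux.UU_pos _
  have h32 : (32 : ℝ) ≤ 2 ^ k := by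
    have : (2 : ℝ) ^ 5 ≤ 2 ^ k := pow_le_pow_right₀ (by norm_num) (by omega)
    linarith
  have key := sum_endM (x := c * Ub k) (M := 2 ^ k) (w := 2 ^ (k + 10)) (k := k) (r := n) (D := D) (e := e) (pv e D n)
    {Q | TubeO e D (2 ^ (k + 10)) n p q (TIW.en Q) Q ∧ ml k ≤ Q.length ∧ (Q.length : ℝ) ≤ 9 * ml k}
    ⟨he.dir, he.tur, he.ind⟩ (by omega) one_pos (by linarith) (by positivity)
    (by rw [sub_self, show TIW.hn (0 : Pt) = 0 by decide]; push_cast; linarith) (fun z hz hcl => by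
      have h1 := hT k n p q D e z (by omega) hD1 hD2 hp hq hpq hn he hs hs2 hz hcl
      rw [mul_div_assoc]
      refine h1.trans (gf_mono ?_)
      rintro Q ⟨h2, h3⟩
      have h4 : TIW.en Q = z := h2.tub.en
      refine ⟨h2.tub, ?_, h3⟩
      rw [h4]
      exact h2)
  rw [one_pow, ← mul_assoc] at key
  refine key.trans (gf_mono ?_)
  rintro Q ⟨-, h2, h3, h4⟩
  refine ⟨h3, ?_, h4⟩
  rw [one_mul] at h2
  exact_mod_cast h2

end TO

end ART

end HexObs
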