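import Pool.Agent.ROT.F3Tf
import Pool.Agent.ROT.F3TubeO

/-!
# ROT, F3 (B) (helper79): tube words with the order of time are main arcs of F3Cls

* **`pathB_Rst`** : tube words along a path with straight ends (`PathB`), exact inequalities: `Rst`;
* **`pathB_NRp`, `pathB_NRq`** : strip and no return at both ends, from the order of time (`OrdS`, helper76);
* **`pathB_Man`** : `MnQ`; **`scale_Rst`, `scale_Man`** : the same for all large scales, mesh `D = floor (μ S)`.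
-/

set_option autoImplicit false

namespace Pool.Agent.ROT.F3.Tb

open Finset
open HexObs (Pt vx dx oo up dirs ip nrm cl rotL rotR wE gf tf mulE conjE)
open HexObs.ART.TO (OrdS TubeO)
open NTF (sw JJ aa)
open Pool.Agent.TSW.BP (rt3 cr pos_rt3 cr_norm)
open Pool.Agent.NTS.Res (step pos saw fug)

open scoped ENNReal ComplexConjugate

/-! ### 1. Near a half line -/

lemma strip_of {d v : ℂ} (hd : ‖d‖ = 1) {x ε : ℝ} (h : ‖v - x * d‖ ≤ ε) :
    x - ε ≤ lv d v ∧ lv d v ≤ x + ε ∧ |ltl d v| ≤ ε := by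
  have e2 : conj d * d = 1 := by
    rw [Complex.conj_mul', hd]
    norm_num
  have e3 : conj d * v = (x : ℂ) + conj d * (v - x * d) := by
    linear_combination (x : ℂ) * e2
  have h1 : ‖conj d * (v - x * d)‖ ≤ ε := by
    rw [norm_mul, RCLike.norm_conj, hd, one_mul]
    exact h
  have h2 := (Complex.abs_re_le_norm (conj d * (v - x * d))).trans h1
  have h3 := (Complex.abs_im_le_norm (conj d * (v - x * d))).trans h1
  unfold lv ltl
  rw [e3, Complex.add_re, Complex.add_im, Complex.ofReal_re, Complex.ofReal_im, zero_add]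
  rw [abs_le] at h2
  exact ⟨by linarith, by linarith, h3⟩

section tubes

variable {E : ℕ → Pt} {D w B : ℤ} {n s s' p q : ℕ} {R0 R1 : ℝ} {z : Pt} {X : List Bool}

/-- **tube words are rests** -/
theorem pathB_Rst (h : PathB E D n s s' R0 R1) (hw : 0 ≤ w) (hB : 0 ≤ B) (hD : w + B + 2 < 2 * D) (hBD : B + 2 ≤ D + w)
    (hR : (D : ℝ) + w + (B + 2) < R1) (hc : cl (E (n - 1)) = 1) (hX : HexObs.ARM.TubeQ E D w n z X)
    (hz : HexObs.TIW.hn (z - HexObs.AR.pv E D n) ≤ B) (a : Fin 3) {P Q : Tp} {W : Wn} {S T : ℝ} (hS : 0 ≤ S) (hPc : P.c ≤ 1)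
    (hQc : Q.c ≤ 1) (hP0 : 0 ≤ P.κ) (hQ0 : 0 ≤ Q.κ) (hPr : P.r0 * S ≤ R0 - (D + w)) (hPg : P.rg * S < R0 - (D + w))
    (hQr : Q.r0 * S ≤ R1 - (D + w) - (B + 2)) (hQg : Q.rg * S < R1 - (D + w) - (B + 2)) (hPκ : 2 * (w : ℝ) ≤ P.κ * S)
    (hQκ : 2 * ((w : ℝ) + (B + 2)) ≤ Q.κ * S) (hW0 : W.D0 * S + (B + 2) ≤ D * ‖JJ (HexObs.AR.ps E n)‖)
    (hW1 : D * ‖JJ (HexObs.AR.ps E n)‖ + (B + 2) ≤ W.D1 * S) (ht0 : W.t0 * T ≤ (X.length : ℝ) + 1)
    (ht1 : (X.length : ℝ) + 1 ≤ W.t1 * T) : RsQ (ev a) (ev (aa (E (n - 1)) + a)) P Q W S T (wd a X) := by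
  have hD0 : 0 ≤ D := by omega
  have m1 := tub_rest h hw hB hD hBD hR hc hX hz a
  have m2 := en_tub hD0 hX hz a
  rw [abs_le] at m2
  refine ⟨m1.ev, m1.sw, ?_, ?_, by linarith [m2.1], by linarith [m2.2], ?_, ?_⟩
  · exact edq_of (R0 := R0 - (D + w)) (d := w) hS hPc hPκ hP0 hPr hPg fun k h1 h2 h3 => m1.cone0 h1 h2 h3
  · exact edq_of (R0 := R1 - (D + w) - (B + 2)) (d := w + (B + 2)) hS hQc hQκ hQ0 hQr hQg
      fun k h1 h2 h3 => m1.cone1 h1 (by rwa [List.length_reverse] at h2) h3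
  · rw [length_wd]
    push_cast
    exact ht0
  · rw [length_wd]
    push_cast
    exact ht1

/-- **strip and no return at the start** -/
theorem pathB_NRp (h : PathB E D n s s' R0 R1) (hD : 0 ≤ D) (hps : p ≤ s) {i1 : ℕ} (hO : OrdS E D w n p X i1)
    (hX : HexObs.ARM.TubeQ E D w n z X) (hz : HexObs.TIW.hn (z - HexObs.AR.pv E D n) ≤ B) (a : Fin 3) {sr : Sr} {S : ℝ}
    (h1 : (w : ℝ) ≤ sr.e * S) (h2 : (D : ℝ) * p + w ≤ sr.len * S) (h3 : (w : ℝ) ≤ sr.hw * S)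
    (h4 : sr.bn * S ≤ D * p - w) (h5 : sr.bn * S ≤ R0 - (D + w)) (h6 : sr.bn * S ≤ R0 - (B + 2)) :
    NRt (step 0 a) sr S (wd a X) := by
  have hD' : (0 : ℝ) ≤ D := by exact_mod_cast hD
  -- the straight beginning
  have key : ∀ (j : ℕ) (y : Pt), j < s → HexObs.ARM.Nr E D w j y →
      ∃ x : ℝ, D * j ≤ x ∧ x ≤ D * (j + 1) ∧ ‖JJ y - x‖ ≤ w := by
    intro j y hj hy
    obtain ⟨t, t0, tD, ht⟩ := hy
    rw [h.pv0 hj.le, h.fst j hj, ← add_smul] at ht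
    refine ⟨((D * j + t : ℤ) : ℝ), ?_, ?_, ?_⟩
    · push_cast
      have : (0 : ℝ) ≤ t := by exact_mod_cast t0
      linarith
    · push_cast
      have : (t : ℝ) ≤ D := by exact_mod_cast tD
      linarith
    · have g1 := norm_JJ_le (y - (D * j + t) • up)
      rw [NTF.JJ_sub, JJ_smul, JJ_up, mul_one] at g1
      have g2 : (HexObs.TIW.hn (y - (D * j + t) • up) : ℝ) ≤ w := by exact_mod_cast ht
      rw [Complex.ofReal_intCast]
      linarith
  refine ⟨i1, by rw [length_wd]; have := hO.le; omega, fun k hk => ?_, fun k hk hk' => ?_⟩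
  · obtain ⟨j, g1, g2⟩ := hO.lo k hk
    obtain ⟨x, x1, x2, x3⟩ := key j _ (by omega) g2
    have hk2 : k ≤ X.length + 1 := by have := hO.le; omega
    rw [ps_wd a X hk2, cr_step]
    have e1 : ‖step 0 a * JJ (vx oo up X k) - x * step 0 a‖ ≤ w := by
      have e2 : step 0 a * JJ (vx oo up X k) - x * step 0 a = step 0 a * (JJ (vx oo up X k) - x) := by ring
      rw [e2, norm_mul, step_norm, one_mul]
      exact x3
    obtain ⟨f1, f2, f3⟩ := strip_of (step_norm a) e1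
    have x4 : (0 : ℝ) ≤ x := (mul_nonneg hD' (Nat.cast_nonneg j)).trans x1
    have x5 : x ≤ D * p := x2.trans (mul_le_mul_of_nonneg_left (by exact_mod_cast g1) hD')
    exact ⟨by linarith, by linarith, by linarith⟩
  · rw [length_wd] at hk'
    rw [ps_wd a X hk', norm_mul, cr_norm, one_mul]
    rcases Nat.lt_or_ge X.length k with g0 | g0
    · have e1 : k = X.length + 1 := by omega
      rw [e1, vx_last]
      have f1 := h.far0 n (by have := h.le; omega) le_rfl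
      have f2 := norm_JJ_le (enp X - HexObs.AR.pv E D n)
      have f3 : (HexObs.TIW.hn (enp X - HexObs.AR.pv E D n) : ℝ) ≤ B + 2 := by exact_mod_cast enp_near hX hz
      have f4 : ‖JJ (HexObs.AR.pv E D n)‖ ≤ ‖JJ (enp X)‖ + ‖JJ (enp X - HexObs.AR.pv E D n)‖ := by
        have e2 : JJ (HexObs.AR.pv E D n) = JJ (enp X) - JJ (enp X - HexObs.AR.pv E D n) := by
          rw [NTF.JJ_sub]
          ring
        rw [e2]
        exact norm_sub_le _ _
      linarith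
    · obtain ⟨j, g1, g2, g3⟩ := hO.hi k hk g0
      rcases Nat.lt_or_ge j s with g4 | g4
      · obtain ⟨x, x1, x2, x3⟩ := key j _ g4 g3
        have x5 : (D : ℝ) * p ≤ x := (mul_le_mul_of_nonneg_left (by exact_mod_cast g1) hD').trans x1
        have f1 : x ≤ ‖JJ (vx oo up X k)‖ + w := by
          have e2 : (x : ℂ) = JJ (vx oo up X k) - (JJ (vx oo up X k) - x) := by ring
          have f2 := norm_sub_le (JJ (vx oo up X k)) (JJ (vx oo up X k) - x)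
          rw [← e2, Complex.norm_real] at f2
          have f3 := Real.le_norm_self x
          linarith
        linarith
      · have f1 := h.far0 j g4 g2.le
        have f2 := near_node (h.ip.dir j g2) g3
        have f3 : ‖JJ (HexObs.AR.pv E D j)‖ ≤ ‖JJ (vx oo up X k)‖ + ‖JJ (vx oo up X k - HexObs.AR.pv E D j)‖ := by
          have e1 : JJ (HexObs.AR.pv E D j) = JJ (vx oo up X k) - JJ (vx oo up X k - HexObs.AR.pv E D j) := by
            rw [NTF.JJ_sub]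
            ring
          rw [e1]
          exact norm_sub_le _ _
        linarith

/-- **strip and no return at the end, read backwards** -/
theorem pathB_NRq (h : PathB E D n s s' R0 R1) (hw : 0 ≤ w) (hB : 0 ≤ B) (hD : 0 ≤ D) (hqs : q ≤ s') (hev : Even (X.length + 1))
    {i2 : ℕ} (hO : OrdS E D w n (n - q) X i2) (hX : HexObs.ARM.TubeQ E D w n z X)
    (hz : HexObs.TIW.hn (z - HexObs.AR.pv E D n) ≤ B) (hc : cl (E (n - 1)) = 1) (a : Fin 3) {sr : Sr} {S : ℝ}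
    (h1 : (w : ℝ) + (B + 2) ≤ sr.e * S) (h2 : (D : ℝ) * q + (w + (B + 2)) ≤ sr.len * S)
    (h3 : (w : ℝ) + (B + 2) ≤ sr.hw * S) (h4 : sr.bn * S ≤ D * q - (w + (B + 2)))
    (h5 : sr.bn * S ≤ R1 - (D + w) - (B + 2)) : NRt (step 0 (aa (E (n - 1)) + a)) sr S (wd a X).reverse := by
  have hle := h.le
  have hs1 := h.s1
  have hs1' := h.s1'
  have hD' : (0 : ℝ) ≤ D := by exact_mod_cast hD
  have hw' : (0 : ℝ) ≤ w := by exact_mod_cast hw
  have hB' : (0 : ℝ) ≤ B := by exact_mod_cast hB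
  have hd : E (n - 1) ∈ dirs := h.ip.dir _ (by omega)
  have he : (HexObs.TIW.hn (enp X - HexObs.AR.pv E D n) : ℝ) ≤ B + 2 := by exact_mod_cast enp_near hX hz
  have heR : ‖JJ (enp X - HexObs.AR.pv E D n)‖ ≤ B + 2 := (norm_JJ_le _).trans he
  have hlen : (wd a X).reverse.length = X.length + 1 := by rw [List.length_reverse, length_wd]
  have hps : ∀ k, k ≤ X.length + 1 → ps (wd a X).reverse k = step 0 a * JJ (vx oo up X (X.length + 1 - k) - enp X) := by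
    intro k hk
    rw [ps_reverse (by rw [length_wd]; exact hev) (by rw [length_wd]; exact hk), length_wd, en_wd, ps_wd a X (by omega),
      NTF.JJ_sub, cr_step]
    ring
  have hndir : ‖JJ (-E (n - 1))‖ = 1 := norm_JJ_dir (HexObs.neg_mem_dirs hd)
  have eb : step 0 (aa (E (n - 1)) + a) = step 0 a * JJ (-E (n - 1)) := by
    rw [← JJ_neg_dir hd hc, cr_step]
  -- the straight end
  have key : ∀ (j : ℕ) (y : Pt), n - s' ≤ j → j < n → HexObs.ARM.Nr E D w j y →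
      ∃ x : ℝ, D * (((n - j : ℕ) : ℝ) - 1) ≤ x ∧ x ≤ D * ((n - j : ℕ) : ℝ) ∧
        ‖JJ (y - enp X) - x * JJ (-E (n - 1))‖ ≤ w + (B + 2) := by
    intro j y hj hj' hy
    obtain ⟨t, t0, tD, ht⟩ := hy
    have e1 : HexObs.AR.pv E D j = HexObs.AR.pv E D n - (D * (n - j : ℕ)) • E (n - 1) := by
      rw [← h.pv1 (by omega : n - j ≤ s')]
      congr 1
      omega
    rw [e1, h.lst j hj hj'] at ht
    refine ⟨((D * (n - j : ℕ) - t : ℤ) : ℝ), ?_, ?_, ?_⟩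
    · push_cast
      have : (t : ℝ) ≤ D := by exact_mod_cast tD
      linarith
    · push_cast
      have : (0 : ℝ) ≤ t := by exact_mod_cast t0
      linarith
    · have e2 : y - HexObs.AR.pv E D n + (D * ((n - j : ℕ) : ℤ) - t) • E (n - 1) =
          y - (HexObs.AR.pv E D n - (D * ((n - j : ℕ) : ℤ)) • E (n - 1) + t • E (n - 1)) := by
        rw [sub_smul]
        abel
      have e3 : JJ (y - enp X) - ((D * (n - j : ℕ) - t : ℤ) : ℝ) * JJ (-E (n - 1)) =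
          JJ (y - HexObs.AR.pv E D n + (D * ((n - j : ℕ) : ℤ) - t) • E (n - 1)) - JJ (enp X - HexObs.AR.pv E D n) := by
        rw [Complex.ofReal_intCast, ← JJ_smul, ← NTF.JJ_sub, ← NTF.JJ_sub]
        congr 1
        rw [smul_neg]
        abel
      rw [e3]
      have f1 := norm_JJ_le (y - HexObs.AR.pv E D n + (D * ((n - j : ℕ) : ℤ) - t) • E (n - 1))
      rw [← e2] at ht
      have f2 : (HexObs.TIW.hn (y - HexObs.AR.pv E D n + (D * ((n - j : ℕ) : ℤ) - t) • E (n - 1)) : ℝ) ≤ w := by exact_mod_cast ht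
      have := norm_sub_le (JJ (y - HexObs.AR.pv E D n + (D * ((n - j : ℕ) : ℤ) - t) • E (n - 1)))
        (JJ (enp X - HexObs.AR.pv E D n))
      linarith
  have hO' := hO.le
  refine ⟨X.length + 1 - i2, by omega, fun k hk => ?_, fun k hk hk' => ?_⟩
  · rw [hps k (by omega), eb]
    rcases Nat.eq_zero_or_pos k with g0 | g0
    · subst g0
      rw [Nat.sub_zero, vx_last, sub_self, JJ_zero, mul_zero]
      unfold lv ltl
      rw [mul_zero, Complex.zero_re, Complex.zero_im, abs_zero]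
      have : 0 ≤ (D : ℝ) * q := by positivity
      exact ⟨by linarith, by linarith, by linarith⟩
    · obtain ⟨j, g1, g2, g3⟩ := hO.hi (X.length + 1 - k) (by omega) (by omega)
      obtain ⟨x, x1, x2, x3⟩ := key j _ (by omega) g2 g3
      have e1 : ‖step 0 a * JJ (vx oo up X (X.length + 1 - k) - enp X) - x * (step 0 a * JJ (-E (n - 1)))‖ ≤ w + (B + 2) := by
        have e2 : step 0 a * JJ (vx oo up X (X.length + 1 - k) - enp X) - x * (step 0 a * JJ (-E (n - 1))) =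
            step 0 a * (JJ (vx oo up X (X.length + 1 - k) - enp X) - x * JJ (-E (n - 1))) := by ring
        rw [e2, norm_mul, step_norm, one_mul]
        exact x3
      obtain ⟨f1, f2, f3⟩ := strip_of (by rw [norm_mul, step_norm, hndir, one_mul]) e1
      have hnj : 1 ≤ n - j := by omega
      have hnj2 : n - j ≤ q := by omega
      have hnj' : (1 : ℝ) ≤ ((n - j : ℕ) : ℝ) := by exact_mod_cast hnj
      have hnj2' : ((n - j : ℕ) : ℝ) ≤ q := by exact_mod_cast hnj2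
      have x4 : (0 : ℝ) ≤ x := (mul_nonneg hD' (by linarith)).trans x1
      have x5 : x ≤ D * q := x2.trans (mul_le_mul_of_nonneg_left hnj2' hD')
      exact ⟨by linarith, by linarith, by linarith⟩
  · rw [hlen] at hk'
    rw [hps k hk', norm_mul, step_norm, one_mul]
    obtain ⟨j, g1, g2⟩ := hO.lo (X.length + 1 - k) (by omega)
    rcases Nat.lt_or_ge j (n - s') with g4 | g4
    · have f1 := h.far1 j (by omega)
      have f2 := near_node (h.ip.dir j (by omega)) g2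
      have f3 : ‖JJ (HexObs.AR.pv E D j - HexObs.AR.pv E D n)‖ ≤ ‖JJ (vx oo up X (X.length + 1 - k) - enp X)‖ +
          ‖JJ (enp X - HexObs.AR.pv E D n)‖ + ‖JJ (vx oo up X (X.length + 1 - k) - HexObs.AR.pv E D j)‖ := by
        have e1 : JJ (HexObs.AR.pv E D j - HexObs.AR.pv E D n) =
            JJ (vx oo up X (X.length + 1 - k) - enp X) + JJ (enp X - HexObs.AR.pv E D n) -
              JJ (vx oo up X (X.length + 1 - k) - HexObs.AR.pv E D j) := by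
          rw [← NTF.JJ_add, ← NTF.JJ_sub]
          congr 1
          abel
        rw [e1]
        have e2 := norm_add_le (JJ (vx oo up X (X.length + 1 - k) - enp X)) (JJ (enp X - HexObs.AR.pv E D n))
        refine (norm_sub_le _ _).trans ?_
        linarith
      linarith
    · obtain ⟨x, x1, x2, x3⟩ := key j _ g4 (by omega) g2
      have hnj : q + 1 ≤ n - j := by omega
      have hnj' : (q : ℝ) + 1 ≤ ((n - j : ℕ) : ℝ) := by exact_mod_cast hnj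
      have x5 : (D : ℝ) * q ≤ x := (mul_le_mul_of_nonneg_left (by linarith) hD').trans x1
      have f1 : x ≤ ‖JJ (vx oo up X (X.length + 1 - k) - enp X)‖ + (w + (B + 2)) := by
        have e2 : (x : ℂ) * JJ (-E (n - 1)) = JJ (vx oo up X (X.length + 1 - k) - enp X) -
            (JJ (vx oo up X (X.length + 1 - k) - enp X) - x * JJ (-E (n - 1))) := by ring
        have f2 := norm_sub_le (JJ (vx oo up X (X.length + 1 - k) - enp X))
          (JJ (vx oo up X (X.length + 1 - k) - enp X) - x * JJ (-E (n - 1)))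
        rw [← e2, norm_mul, hndir, mul_one, Complex.norm_real] at f2
        have f3 := Real.le_norm_self x
        linarith
      linarith

end tubes

/-! ### 2. Main arcs -/

section main

variable {E : ℕ → Pt} {D w B : ℤ} {n s s' p q : ℕ} {R0 R1 : ℝ} {z : Pt} {X : List Bool}

/-- the length is odd -/
lemma even_len (hX : HexObs.ARM.TubeQ E D w n z X) (hc : cl (E (n - 1)) = 1) : Even (X.length + 1) := by
  have := even_wd 0 hX hc
  rwa [length_wd] at this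

/-- **tube words with the order of time are main arcs** -/
theorem pathB_Man (h : PathB E D n s s' R0 R1) (hw : 0 ≤ w) (hB : 0 ≤ B) (hD0 : 0 ≤ D) (hps : p ≤ s) (hqs : q ≤ s')
    (hc : cl (E (n - 1)) = 1) (hX : TubeO E D w n p q z X) (hz : HexObs.TIW.hn (z - HexObs.AR.pv E D n) ≤ B) (a : Fin 3)
    {P Q : Tp} {W : Wn} {sr sr' : Sr} {S T : ℝ} (hR : RsQ (ev a) (ev (aa (E (n - 1)) + a)) P Q W S T (wd a X))
    (h1 : (w : ℝ) ≤ sr.e * S) (h2 : (D : ℝ) * p + w ≤ sr.len * S) (h3 : (w : ℝ) ≤ sr.hw * S)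
    (h4 : sr.bn * S ≤ D * p - w) (h5 : sr.bn * S ≤ R0 - (D + w)) (h6 : sr.bn * S ≤ R0 - (B + 2))
    (h1' : (w : ℝ) + (B + 2) ≤ sr'.e * S) (h2' : (D : ℝ) * q + (w + (B + 2)) ≤ sr'.len * S)
    (h3' : (w : ℝ) + (B + 2) ≤ sr'.hw * S) (h4' : sr'.bn * S ≤ D * q - (w + (B + 2)))
    (h5' : sr'.bn * S ≤ R1 - (D + w) - (B + 2)) : MnQ (ev a) (ev (aa (E (n - 1)) + a)) P Q W sr sr' S T (wd a X) := by
  obtain ⟨i1, i2, -, hO1, hO2⟩ := hX.ord
  refine ⟨hR, ?_, ?_⟩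
  · rw [ev_step]
    exact pathB_NRp h hD0 hps hO1 hX.tub hz a h1 h2 h3 h4 h5 h6
  · rw [ev_step]
    exact pathB_NRq h hw hB hD0 hqs (even_len hX.tub hc) hO2 hX.tub hz hc a h1' h2' h3' h4' h5'

end main

/-! ### 3. All large scales -/

/-- the length of a tube word, upper bound -/
lemma ml_bd9 {μ S t : ℝ} (hμ : 0 < μ) (hμ1 : μ ≤ 1) (ht : μ ≤ t) (hS : 1 ≤ S) (hS1 : 2 ≤ t * S) {H : ℕ} (hH : 2 ^ 13 ≤ H) {k : ℕ}
    {D : ℤ} (hD : (D : ℝ) ≤ μ * S) (hD1 : 18 * ((H : ℤ) * 2 ^ k) ≤ D) {X : List Bool}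
    (hX : (X.length : ℝ) ≤ 9 * HexObs.ARM.ml k) : (X.length : ℝ) + 1 ≤ t * S ^ (4 / 3 : ℝ) := by
  have hS0 : 0 < S := by linarith
  have hH' : (2 : ℤ) ^ 13 ≤ H := by exact_mod_cast hH
  have hk0 : (0 : ℤ) < 2 ^ k := by positivity
  have hk1 : 147456 * (2 : ℤ) ^ k ≤ D := by nlinarith
  have hk2 : 147456 * (2 : ℝ) ^ k ≤ D := by exact_mod_cast hk1
  have h2k : (2 : ℝ) ^ k ≤ μ / 147456 * S := by linarith
  have hml : HexObs.ARM.ml k = ((2 : ℝ) ^ k) ^ (4 / 3 : ℝ) := by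
    unfold HexObs.ARM.ml
    rw [← Real.rpow_natCast, ← Real.rpow_mul (by norm_num), mul_comm]
  have h1 : HexObs.ARM.ml k ≤ (μ / 147456) ^ (4 / 3 : ℝ) * S ^ (4 / 3 : ℝ) := by
    rw [hml, ← Real.mul_rpow (by positivity) hS0.le]
    exact Real.rpow_le_rpow (by positivity) h2k (by norm_num)
  have h2 : (μ / 147456) ^ (4 / 3 : ℝ) ≤ μ / 147456 := by
    have h3 := Real.rpow_le_rpow_of_exponent_ge (show 0 < μ / 147456 by positivity) (show μ / 147456 ≤ 1 by linarith)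
      (show (1 : ℝ) ≤ 4 / 3 by norm_num)
    rwa [Real.rpow_one] at h3
  have h4 : S ≤ S ^ (4 / 3 : ℝ) := by
    have h5 := Real.rpow_le_rpow_of_exponent_le hS (show (1 : ℝ) ≤ 4 / 3 by norm_num)
    rwa [Real.rpow_one] at h5
  have h6 : (μ / 147456) ^ (4 / 3 : ℝ) * S ^ (4 / 3 : ℝ) ≤ μ / 147456 * S ^ (4 / 3 : ℝ) :=
    mul_le_mul_of_nonneg_right h2 (by positivity)
  have ht0 : 0 < t := by linarith
  have h7 : μ * S ^ (4 / 3 : ℝ) ≤ t * S ^ (4 / 3 : ℝ) := mul_le_mul_of_nonneg_right ht (by positivity)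
  have h8 : t * S ≤ t * S ^ (4 / 3 : ℝ) := mul_le_mul_of_nonneg_left h4 ht0.le
  nlinarith

/-- the length of a tube word, lower bound -/
lemma ml_lo {μ S t : ℝ} (hμ : 0 < μ) (hS : 37 ≤ μ * S) {H : ℕ} (hH : 2 ^ 13 ≤ H) (ht : t ≤ (μ / (37 * H)) ^ (4 / 3 : ℝ)) {k : ℕ}
    {D : ℤ} (hD : μ * S < (D : ℝ) + 1) (hD1 : D ≤ 36 * ((H : ℤ) * 2 ^ k)) {X : List Bool}
    (hX : HexObs.ARM.ml k ≤ X.length) : t * S ^ (4 / 3 : ℝ) ≤ (X.length : ℝ) + 1 := by
  have hS0 : 0 < S := by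
    by_contra hc
    push Not at hc
    nlinarith
  have hH0 : (0 : ℝ) < H := by exact_mod_cast lt_of_lt_of_le (by norm_num) hH
  have hk2 : (D : ℝ) ≤ 36 * (H * 2 ^ k) := by exact_mod_cast hD1
  have h2k : μ / (37 * H) * S ≤ (2 : ℝ) ^ k := by
    rw [div_mul_eq_mul_div, div_le_iff₀ (by positivity)]
    nlinarith
  have hml : HexObs.ARM.ml k = ((2 : ℝ) ^ k) ^ (4 / 3 : ℝ) := by
    unfold HexObs.ARM.ml
    rw [← Real.rpow_natCast, ← Real.rpow_mul (by norm_num), mul_comm]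
  have h1 : (μ / (37 * H)) ^ (4 / 3 : ℝ) * S ^ (4 / 3 : ℝ) ≤ HexObs.ARM.ml k := by
    rw [hml, ← Real.mul_rpow (by positivity) hS0.le]
    exact Real.rpow_le_rpow (by positivity) h2k (by norm_num)
  have h2 : t * S ^ (4 / 3 : ℝ) ≤ (μ / (37 * H)) ^ (4 / 3 : ℝ) * S ^ (4 / 3 : ℝ) := mul_le_mul_of_nonneg_right ht (by positivity)
  linarith

section scale

variable {E : ℕ → Pt} {n s s' p q : ℕ} {ρ0 ρ1 μ : ℝ} {H : ℕ} {P Q : Tp} {W : Wn}

/-- **all tube words along a path with straight ends are rests of the class, at all large scales** -/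
theorem scale_Rst (h : ∀ D : ℤ, 0 ≤ D → PathB E D n s s' (D * ρ0) (D * ρ1)) (hc : cl (E (n - 1)) = 1) (hμ : 0 < μ)
    (hH : 2 ^ 13 ≤ H) (hPc : P.c ≤ 1) (hQc : Q.c ≤ 1) (hP0 : 0 ≤ P.r0) (hQ0 : 0 ≤ Q.r0)
    (hPr : P.r0 + 3 * μ ≤ μ * ρ0) (hPg : P.rg + 3 * μ ≤ μ * ρ0) (hQr : Q.r0 + 3 * μ ≤ μ * ρ1) (hQg : Q.rg + 3 * μ ≤ μ * ρ1)
    (hPκ : μ ≤ 50 * P.κ) (hQκ : μ ≤ 40 * Q.κ) (hW0 : W.D0 + μ ≤ μ * ‖JJ (HexObs.AR.ps E n)‖)
    (hW1 : μ * ‖JJ (HexObs.AR.ps E n)‖ + μ ≤ W.D1) (ht0 : W.t0 ≤ (μ / (37 * H)) ^ (4 / 3 : ℝ)) (hμ1 : μ ≤ 1)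
    (ht1 : μ ≤ W.t1) :
    ∃ S0 : ℝ, ∀ S : ℝ, S0 ≤ S → ∀ (k : ℕ) (D : ℤ), D = ⌊μ * S⌋ → 18 * ((H : ℤ) * 2 ^ k) ≤ D → D ≤ 36 * ((H : ℤ) * 2 ^ k) →
      ∀ (z : Pt) (X : List Bool), HexObs.ARM.TubeQ E D (2 ^ (k + 10)) n z X →
      HexObs.TIW.hn (z - HexObs.AR.pv E D n) ≤ 2 ^ (k + 2) → HexObs.ARM.ml k ≤ X.length →
      (X.length : ℝ) ≤ 9 * HexObs.ARM.ml k → ∀ a : Fin 3,
      wd a X ∈ Rst (ev a) (ev (aa (E (n - 1)) + a)) P Q W S (S ^ (4 / 3 : ℝ)) := by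
  have ht1' : 0 < W.t1 := by linarith
  obtain ⟨L, hL⟩ : ∃ L : ℝ, L = ‖JJ (HexObs.AR.ps E n)‖ := ⟨_, rfl⟩
  have hL0 : 0 ≤ L := by rw [hL]; exact norm_nonneg _
  rw [← hL] at hW0 hW1
  have h00 : 3 ≤ ρ0 := by nlinarith
  have h11 : 3 ≤ ρ1 := by nlinarith
  refine ⟨max ((1001 + 200 * L + 2 * ρ0 + 2 * ρ1) / μ) (max 1 (2 / W.t1)), fun S hS k D hD hD1 hD1' z X hX hz hX1 hX2 a => ?_⟩
  have hS0 := (le_max_left _ _).trans hS
  have hS1 : 1 ≤ S := ((le_max_left _ _).trans (le_max_right _ _)).trans hS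
  have hS2 : 2 / W.t1 ≤ S := ((le_max_right _ _).trans (le_max_right _ _)).trans hS
  rw [div_le_iff₀ ht1'] at hS2
  rw [div_le_iff₀ hμ] at hS0
  have hD2 : (D : ℝ) ≤ μ * S := by rw [hD]; exact Int.floor_le _
  have hD3 : μ * S < D + 1 := by rw [hD]; exact Int.lt_floor_add_one _
  have hD4 : (1000 : ℝ) < D := by linarith
  have hD4' : (1000 : ℤ) < D := by exact_mod_cast hD4
  have hD5 : 0 ≤ D := by linarith
  have hk0 : (0 : ℤ) < 2 ^ k := by positivity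
  have hH' : (2 : ℤ) ^ 13 ≤ H := by exact_mod_cast hH
  have hk1 : 147456 * (2 : ℤ) ^ k ≤ D := by nlinarith
  have q9 : (2 : ℤ) ^ (k + 10) = 1024 * 2 ^ k := by ring
  have q2 : (2 : ℤ) ^ (k + 2) = 4 * 2 ^ k := by ring
  have hk2 : 147456 * (2 : ℝ) ^ k ≤ D := by exact_mod_cast hk1
  have e9 : ((2 ^ (k + 10) : ℤ) : ℝ) = 1024 * 2 ^ k := by rw [q9]; push_cast; ring
  have e2 : ((2 ^ (k + 2) : ℤ) : ℝ) = 4 * 2 ^ k := by rw [q2]; push_cast; ring
  have hSp : 0 < S := by linarith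
  have hDρ0 : (μ * S - 1) * ρ0 ≤ D * ρ0 := mul_le_mul_of_nonneg_right (by linarith) (by linarith)
  have hDρ1 : (μ * S - 1) * ρ1 ≤ D * ρ1 := mul_le_mul_of_nonneg_right (by linarith) (by linarith)
  have hD2ρ1 : (D : ℝ) * 3 ≤ D * ρ1 := mul_le_mul_of_nonneg_left h11 (by linarith)
  have k1 := mul_le_mul_of_nonneg_right hPr hSp.le
  have k2 := mul_le_mul_of_nonneg_right hPg hSp.le
  have k3 := mul_le_mul_of_nonneg_right hQr hSp.le
  have k4 := mul_le_mul_of_nonneg_right hQg hSp.le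
  have k5 := mul_le_mul_of_nonneg_right hPκ hSp.le
  have k6 := mul_le_mul_of_nonneg_right hQκ hSp.le
  have k7 := mul_le_mul_of_nonneg_right hW0 hSp.le
  have k8 := mul_le_mul_of_nonneg_right hW1 hSp.le
  have hDL1 : (μ * S - 1) * L ≤ D * L := mul_le_mul_of_nonneg_right (by linarith) hL0
  have hDL2 : (D : ℝ) * L ≤ μ * S * L := mul_le_mul_of_nonneg_right hD2 hL0
  refine pathB_Rst (w := 2 ^ (k + 10)) (B := 2 ^ (k + 2)) (h D hD5) (by positivity) (by positivity) (by rw [q9, q2]; linarith)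
    (by rw [q9, q2]; linarith) (by rw [e9, e2]; linarith) hc hX hz a hSp.le hPc hQc (by linarith) (by linarith) ?_ ?_ ?_ ?_ ?_ ?_ ?_
    ?_ ?_ ?_
  · rw [e9]
    linarith
  · rw [e9]
    linarith
  · rw [e9, e2]
    linarith
  · rw [e9, e2]
    linarith
  · rw [e9]
    linarith
  · rw [e9, e2]
    linarith
  · rw [← hL, e2]
    linarith
  · rw [← hL, e2]
    linarith
  · exact ml_lo hμ (by linarith) hH ht0 hD3 hD1' hX1
  · exact ml_bd9 hμ hμ1 ht1 hS1 (by linarith) hH hD2 hD1 hX2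

/-- **all tube words with the order of time are main arcs, at all large scales** -/
theorem scale_Man (h : ∀ D : ℤ, 0 ≤ D → PathB E D n s s' (D * ρ0) (D * ρ1)) (hc : cl (E (n - 1)) = 1) (hμ : 0 < μ)
    (hH : 2 ^ 13 ≤ H) (hPc : P.c ≤ 1) (hQc : Q.c ≤ 1) (hP0 : 0 ≤ P.r0) (hQ0 : 0 ≤ Q.r0)
    (hPr : P.r0 + 3 * μ ≤ μ * ρ0) (hPg : P.rg + 3 * μ ≤ μ * ρ0) (hQr : Q.r0 + 3 * μ ≤ μ * ρ1) (hQg : Q.rg + 3 * μ ≤ μ * ρ1)
    (hPκ : μ ≤ 50 * P.κ) (hQκ : μ ≤ 40 * Q.κ) (hW0 : W.D0 + μ ≤ μ * ‖JJ (HexObs.AR.ps E n)‖)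
    (hW1 : μ * ‖JJ (HexObs.AR.ps E n)‖ + μ ≤ W.D1) (ht0 : W.t0 ≤ (μ / (37 * H)) ^ (4 / 3 : ℝ)) (hμ1 : μ ≤ 1)
    (ht1 : μ ≤ W.t1) {sr sr' : Sr} (hps : p ≤ s) (hqs : q ≤ s') (h1 : μ ≤ 90 * sr.e) (h2 : μ * (p + 1) ≤ sr.len)
    (h3 : μ ≤ 90 * sr.hw) (h4 : sr.bn + μ ≤ μ * p) (h5 : sr.bn + 3 * μ ≤ μ * ρ0) (h1' : μ ≤ 90 * sr'.e)
    (h2' : μ * (q + 1) ≤ sr'.len) (h3' : μ ≤ 90 * sr'.hw) (h4' : sr'.bn + μ ≤ μ * q) (h5' : sr'.bn + 3 * μ ≤ μ * ρ1) :
    ∃ S0 : ℝ, ∀ S : ℝ, S0 ≤ S → ∀ (k : ℕ) (D : ℤ), D = ⌊μ * S⌋ → 18 * ((H : ℤ) * 2 ^ k) ≤ D → D ≤ 36 * ((H : ℤ) * 2 ^ k) →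
      ∀ (z : Pt) (X : List Bool), TubeO E D (2 ^ (k + 10)) n p q z X →
      HexObs.TIW.hn (z - HexObs.AR.pv E D n) ≤ 2 ^ (k + 2) → HexObs.ARM.ml k ≤ X.length →
      (X.length : ℝ) ≤ 9 * HexObs.ARM.ml k → ∀ a : Fin 3,
      wd a X ∈ Man (ev a) (ev (aa (E (n - 1)) + a)) P Q W sr sr' S (S ^ (4 / 3 : ℝ)) := by
  obtain ⟨S0, hS0⟩ := scale_Rst h hc hμ hH hPc hQc hP0 hQ0 hPr hPg hQr hQg hPκ hQκ hW0 hW1 ht0 hμ1 ht1
  have h00 : 3 ≤ ρ0 := by nlinarith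
  have h11 : 3 ≤ ρ1 := by nlinarith
  refine ⟨max S0 (max ((1001 + 2 * p + 2 * q + 2 * ρ0 + 2 * ρ1) / μ) 1), fun S hS k D hD hD1 hD1' z X hX hz hX1 hX2 a => ?_⟩
  have main := hS0 S ((le_max_left _ _).trans hS) k D hD hD1 hD1' z X hX.tub hz hX1 hX2 a
  have hS2 := ((le_max_left _ _).trans (le_max_right _ _)).trans hS
  have hS1 : 1 ≤ S := ((le_max_right _ _).trans (le_max_right _ _)).trans hS
  rw [div_le_iff₀ hμ] at hS2
  have hp0 : (0 : ℝ) ≤ p := Nat.cast_nonneg p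
  have hq0 : (0 : ℝ) ≤ q := Nat.cast_nonneg q
  have hD2 : (D : ℝ) ≤ μ * S := by rw [hD]; exact Int.floor_le _
  have hD3 : μ * S < D + 1 := by rw [hD]; exact Int.lt_floor_add_one _
  have hD4 : (1000 : ℝ) < D := by linarith
  have hD4' : (1000 : ℤ) < D := by exact_mod_cast hD4
  have hD5 : 0 ≤ D := by linarith
  have hk0 : (0 : ℤ) < 2 ^ k := by positivity
  have hH' : (2 : ℤ) ^ 13 ≤ H := by exact_mod_cast hH
  have hk1 : 147456 * (2 : ℤ) ^ k ≤ D := by nlinarith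
  have q9 : (2 : ℤ) ^ (k + 10) = 1024 * 2 ^ k := by ring
  have q2 : (2 : ℤ) ^ (k + 2) = 4 * 2 ^ k := by ring
  have hk2 : 147456 * (2 : ℝ) ^ k ≤ D := by exact_mod_cast hk1
  have e9 : ((2 ^ (k + 10) : ℤ) : ℝ) = 1024 * 2 ^ k := by rw [q9]; push_cast; ring
  have e2 : ((2 ^ (k + 2) : ℤ) : ℝ) = 4 * 2 ^ k := by rw [q2]; push_cast; ring
  have hSp : 0 < S := by linarith
  have hDρ0 : (μ * S - 1) * ρ0 ≤ D * ρ0 := mul_le_mul_of_nonneg_right (by linarith) (by linarith)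
  have hDρ1 : (μ * S - 1) * ρ1 ≤ D * ρ1 := mul_le_mul_of_nonneg_right (by linarith) (by linarith)
  have hDp1 : (μ * S - 1) * p ≤ D * p := mul_le_mul_of_nonneg_right (by linarith) hp0
  have hDq1 : (μ * S - 1) * q ≤ D * q := mul_le_mul_of_nonneg_right (by linarith) hq0
  have hDp2 : (D : ℝ) * p ≤ μ * S * p := mul_le_mul_of_nonneg_right hD2 hp0
  have hDq2 : (D : ℝ) * q ≤ μ * S * q := mul_le_mul_of_nonneg_right hD2 hq0
  have k1 := mul_le_mul_of_nonneg_right h1 hSp.le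
  have k2 := mul_le_mul_of_nonneg_right h2 hSp.le
  have k3 := mul_le_mul_of_nonneg_right h3 hSp.le
  have k4 := mul_le_mul_of_nonneg_right h4 hSp.le
  have k5 := mul_le_mul_of_nonneg_right h5 hSp.le
  have k1' := mul_le_mul_of_nonneg_right h1' hSp.le
  have k2' := mul_le_mul_of_nonneg_right h2' hSp.le
  have k3' := mul_le_mul_of_nonneg_right h3' hSp.le
  have k4' := mul_le_mul_of_nonneg_right h4' hSp.le
  have k5' := mul_le_mul_of_nonneg_right h5' hSp.le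
  refine pathB_Man (w := 2 ^ (k + 10)) (B := 2 ^ (k + 2)) (h D hD5) (by positivity) (by positivity) hD5 hps hqs hc hX hz a main
    ?_ ?_ ?_ ?_ ?_ ?_ ?_ ?_ ?_ ?_ ?_
  · rw [e9]
    linarith
  · rw [e9]
    linarith
  · rw [e9]
    linarith
  · rw [e9]
    linarith
  · rw [e9]
    linarith
  · rw [e2]
    linarith
  · rw [e9, e2]
    linarith
  · rw [e9, e2]
    linarith
  · rw [e9, e2]
    linarith
  · rw [e9, e2]
    linarith
  · rw [e9, e2]
    linarith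

end scale

end Pool.Agent.ROT.F3.Tb
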