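import Mathlib

/-!
# F3, rows W7 / N4 (helper62): laws with limits in a `G_δ` set are uniformly near a compact subset

* **`unif_inner`** : `ρ n` laws on a Polish space, every subsequence has a further one with a limit which charges no complement of
  the open sets `G j`; for every `ε` there is ONE compact `S` in all `G j` such that for every `η` the law `ρ n` gives at most `ε` to
  the points at distance `≥ η` from `S`, for `n` large;
* `near_inter` : closed conditions cost nothing.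
-/

set_option autoImplicit false
set_option linter.unusedSectionVars false

open MeasureTheory Filter Topology Set
open scoped ENNReal

namespace Pool.Agent.ROT.F3

section Gen

variable {X : Type*} [MetricSpace X] [MeasurableSpace X] [BorelSpace X]

/-- compactness of the sequence with limits that satisfy `Q` -/
def HasLim (ρ : ℕ → ProbabilityMeasure X) (Q : ProbabilityMeasure X → Prop) : Prop :=
  ∀ φ : ℕ → ℕ, StrictMono φ → ∃ ψ : ℕ → ℕ, StrictMono ψ ∧ ∃ ν : ProbabilityMeasure X,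
    Tendsto (fun k => ρ (φ (ψ k))) atTop (𝓝 ν) ∧ Q ν

theorem closed_ge_of_tendsto {ρ : ℕ → ProbabilityMeasure X} {θ : ℕ → ℕ} {ν : ProbabilityMeasure X}
    (h : Tendsto (fun k => ρ (θ k)) atTop (𝓝 ν)) {C : Set X} (hC : IsClosed C) {δ : ℝ≥0∞}
    (hδ : ∀ᶠ k in atTop, δ ≤ (ρ (θ k) : Measure X) C) : δ ≤ (ν : Measure X) C := by
  refine le_trans ?_ (ProbabilityMeasure.limsup_measure_closed_le_of_tendsto h hC)
  calc δ = atTop.limsup (fun _ : ℕ => δ) := (limsup_const _).symm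
    _ ≤ _ := limsup_le_limsup hδ

theorem open_le_of_tendsto {ρ : ℕ → ProbabilityMeasure X} {θ : ℕ → ℕ} {ν : ProbabilityMeasure X}
    (h : Tendsto (fun k => ρ (θ k)) atTop (𝓝 ν)) {U : Set X} (hU : IsOpen U) {δ : ℝ≥0∞}
    (hδ : ∀ᶠ k in atTop, (ρ (θ k) : Measure X) U ≤ δ) : (ν : Measure X) U ≤ δ := by
  refine (ProbabilityMeasure.le_liminf_measure_open_of_tendsto h hU).trans ?_
  calc atTop.liminf (fun k => (ρ (θ k) : Measure X) U) ≤ atTop.liminf (fun _ : ℕ => δ) := liminf_le_liminf hδ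
    _ = δ := liminf_const _

/-- increasing open sets -/
theorem esc_unif {ρ : ℕ → ProbabilityMeasure X} {U : ℕ → Set X} (hU : ∀ m, IsOpen (U m)) (hm : Monotone U)
    (hc : HasLim ρ fun ν => (ν : Measure X) (⋃ m, U m)ᶜ = 0) {δ : ℝ≥0∞} (hδ : 0 < δ) :
    ∃ m n0 : ℕ, ∀ n : ℕ, n0 ≤ n → (ρ n : Measure X) (U m)ᶜ ≤ δ := by
  by_contra hcon
  push Not at hcon
  -- a sequence
  have h1 : ∃ φ : ℕ → ℕ, StrictMono φ ∧ ∀ m, δ < (ρ (φ m) : Measure X) (U m)ᶜ := by
    have h2 : ∀ m N : ℕ, ∃ n > N, δ < (ρ n : Measure X) (U m)ᶜ := by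
      intro m N
      obtain ⟨n, hn, h⟩ := hcon m (N + 1)
      exact ⟨n, by omega, h⟩
    choose f hf1 hf2 using h2
    refine ⟨fun m => Nat.rec (f 0 0) (fun j a => f (j + 1) a) m, strictMono_nat_of_lt_succ fun m => ?_, fun m => ?_⟩
    · exact hf1 (m + 1) _
    · cases m with
      | zero => exact hf2 0 0
      | succ m => exact hf2 (m + 1) _
  obtain ⟨φ, hφ, h2⟩ := h1
  obtain ⟨ψ, hψ, ν, hν, h0⟩ := hc φ hφ
  have h3 : ∀ m, δ ≤ (ν : Measure X) (U m)ᶜ := by
    intro m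
    refine closed_ge_of_tendsto (θ := fun k => φ (ψ k)) hν (hU m).isClosed_compl ?_
    filter_upwards [eventually_ge_atTop m] with k hk
    have h4 : m ≤ ψ k := hk.trans (hψ.id_le k)
    exact (h2 (ψ k)).le.trans (measure_mono (compl_subset_compl.2 (hm h4)))
  have h4 : Tendsto (fun m => (ν : Measure X) (U m)ᶜ) atTop (𝓝 ((ν : Measure X) (⋂ m, (U m)ᶜ))) := by
    refine tendsto_measure_iInter_atTop (fun m => (hU m).measurableSet.compl.nullMeasurableSet)
      (fun a b hab => compl_subset_compl.2 (hm hab)) ⟨0, measure_ne_top _ _⟩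
  rw [← compl_iUnion, h0] at h4
  have h5 := ge_of_tendsto' h4 h3
  exact absurd h5 (not_le.2 hδ)

/-- the points of an open set which are well inside -/
def innG (G : Set X) (m : ℕ) : Set X := {x | ((m : ℝ≥0∞) + 1)⁻¹ < Metric.infEDist x Gᶜ}

theorem innG_open (G : Set X) (m : ℕ) : IsOpen (innG G m) :=
  isOpen_lt continuous_const Metric.continuous_infEDist

theorem innG_mono (G : Set X) : Monotone (innG G) := by
  intro a b hab x hx
  refine lt_of_le_of_lt ?_ (show ((a : ℝ≥0∞) + 1)⁻¹ < Metric.infEDist x Gᶜ from hx)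
  rw [ENNReal.inv_le_inv]
  gcongr

theorem innG_union {G : Set X} (hG : IsOpen G) : ⋃ m, innG G m = G := by
  ext x
  rw [mem_iUnion]
  constructor
  · rintro ⟨m, hm⟩
    by_contra hx
    have h1 : Metric.infEDist x Gᶜ = 0 := Metric.infEDist_zero_of_mem hx
    have h2 : ((m : ℝ≥0∞) + 1)⁻¹ < Metric.infEDist x Gᶜ := hm
    rw [h1] at h2
    exact absurd h2 not_lt_zero
  · intro hx
    have h1 : Metric.infEDist x Gᶜ ≠ 0 := by
      intro h
      exact ((Metric.mem_iff_infEDist_zero_of_closed hG.isClosed_compl).2 h) hx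
    obtain ⟨m, hm⟩ := ENNReal.exists_inv_nat_lt h1
    refine ⟨m, lt_of_le_of_lt ?_ hm⟩
    rw [ENNReal.inv_le_inv]
    exact le_self_add

/-- **laws with limits in a `G_δ` set** -/
theorem unif_inner [CompleteSpace X] [SecondCountableTopology X] {ρ : ℕ → ProbabilityMeasure X} {G : ℕ → Set X}
    (hG : ∀ j, IsOpen (G j)) (hc : HasLim ρ fun ν => ∀ j, (ν : Measure X) (G j)ᶜ = 0) {ε : ℝ} (hε : 0 < ε) :
    ∃ S : Set X, IsCompact S ∧ (∀ j, S ⊆ G j) ∧ ∀ η : ℝ, 0 < η → ∃ n0 : ℕ, ∀ n : ℕ, n0 ≤ n →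
      (ρ n : Measure X) {x | ∀ s ∈ S, η ≤ dist x s} ≤ ENNReal.ofReal ε := by
  rcases isEmpty_or_nonempty X with hX | hX
  · exfalso
    have := (ρ 0).prop
    have h1 := this.measure_univ
    rw [univ_eq_empty_iff.2 hX, measure_empty] at h1
    exact zero_ne_one h1
  -- the small errors
  obtain ⟨e, he0, he⟩ : ∃ e : ℕ → ℝ≥0∞, (∀ j, 0 < e j) ∧ ∑' j, e j < ENNReal.ofReal (ε / 2) := by
    obtain ⟨e, h1, h2⟩ := ENNReal.exists_pos_sum_of_countable' (ι := ℕ)
      (show ENNReal.ofReal (ε / 2) ≠ 0 from (ENNReal.ofReal_pos.2 (by positivity)).ne')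
    exact ⟨e, h1, h2⟩
  -- the open sets
  have hd : ∃ u : ℕ → X, DenseRange u := ⟨TopologicalSpace.denseSeq X, TopologicalSpace.denseRange_denseSeq X⟩
  obtain ⟨u, hu⟩ := hd
  obtain ⟨B, hB⟩ : ∃ B : ℕ → ℕ → Set X, B = fun (k m : ℕ) => ⋃ i ∈ Finset.range (m + 1), Metric.ball (u i) (1 / ((k : ℝ) + 1)) :=
    ⟨_, rfl⟩
  have hBo : ∀ k m, IsOpen (B k m) := fun k m => by
    rw [hB]
    exact isOpen_biUnion fun i _ => Metric.isOpen_ball
  have hBm : ∀ k, Monotone (B k) := fun k a b hab => by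
    rw [hB]
    refine biUnion_mono ?_ fun i _ => le_rfl
    intro i hi
    have hi' : i ∈ Finset.range (a + 1) := hi
    show i ∈ Finset.range (b + 1)
    rw [Finset.mem_range] at hi' ⊢
    omega
  have hBu : ∀ k, ⋃ m, B k m = univ := fun k => by
    rw [eq_univ_iff_forall]
    intro x
    obtain ⟨i, hi⟩ := hu.exists_dist_lt x (show (0 : ℝ) < 1 / ((k : ℝ) + 1) by positivity)
    rw [mem_iUnion]
    refine ⟨i, ?_⟩
    rw [hB]
    simp only [mem_iUnion]
    exact ⟨i, Finset.mem_range.2 (by omega), hi⟩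
  -- choice of the sizes
  have h1 : ∀ j, ∃ m n0 : ℕ, ∀ n : ℕ, n0 ≤ n → (ρ n : Measure X) (B j m)ᶜ ≤ e (2 * j) := fun j => by
    refine esc_unif (hBo j) (hBm j) (fun φ hφ => ?_) (he0 _)
    obtain ⟨ψ, hψ, ν, hν, -⟩ := hc φ hφ
    exact ⟨ψ, hψ, ν, hν, by show (ν : Measure X) _ᶜ = 0; rw [hBu, compl_univ, measure_empty]⟩
  have h2 : ∀ j, ∃ m n0 : ℕ, ∀ n : ℕ, n0 ≤ n → (ρ n : Measure X) (innG (G j) m)ᶜ ≤ e (2 * j + 1) := fun j => by
    refine esc_unif (innG_open (G j)) (innG_mono (G j)) (fun φ hφ => ?_) (he0 _)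
    obtain ⟨ψ, hψ, ν, hν, h0⟩ := hc φ hφ
    exact ⟨ψ, hψ, ν, hν, by show (ν : Measure X) _ᶜ = 0; rw [innG_union (hG j)]; exact h0 j⟩
  choose a a0 ha using h1
  choose b b0 hb using h2
  -- the closed sets
  obtain ⟨F1, hF1⟩ : ∃ F1 : ℕ → Set X, F1 = fun (j : ℕ) => ⋃ i ∈ Finset.range (a j + 1), Metric.closedBall (u i) (1 / ((j : ℝ) + 1)) :=
    ⟨_, rfl⟩
  obtain ⟨F2, hF2⟩ : ∃ F2 : ℕ → Set X, F2 = fun j => {x | ((b j : ℝ≥0∞) + 1)⁻¹ ≤ Metric.infEDist x (G j)ᶜ} := ⟨_, rfl⟩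
  have c1 : ∀ j, IsClosed (F1 j) := fun j => by
    rw [hF1]
    exact (Finset.range (a j + 1)).finite_toSet.isClosed_biUnion fun i _ => Metric.isClosed_closedBall
  have c2 : ∀ j, IsClosed (F2 j) := fun j => by
    rw [hF2]
    exact isClosed_le continuous_const Metric.continuous_infEDist
  have s1 : ∀ j, B j (a j) ⊆ F1 j := fun j => by
    rw [hB, hF1]
    exact biUnion_mono (fun _ h => h) fun i _ => Metric.ball_subset_closedBall
  have s2 : ∀ j, innG (G j) (b j) ⊆ F2 j := fun j x hx => by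
    rw [hF2]
    exact (show ((b j : ℝ≥0∞) + 1)⁻¹ < Metric.infEDist x (G j)ᶜ from hx).le
  obtain ⟨S, hS⟩ : ∃ S : Set X, S = (⋂ j, F1 j) ∩ ⋂ j, F2 j := ⟨_, rfl⟩
  have hSc : IsClosed S := by
    rw [hS]
    exact (isClosed_iInter c1).inter (isClosed_iInter c2)
  have hSt : TotallyBounded S := by
    rw [Metric.totallyBounded_iff]
    intro δ hδ
    obtain ⟨k, hk⟩ := exists_nat_one_div_lt hδ
    refine ⟨u '' (Finset.range (a k + 1)), (Finset.range (a k + 1)).finite_toSet.image u, ?_⟩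
    intro x hx
    rw [hS] at hx
    have h3 := mem_iInter.1 hx.1 k
    rw [hF1] at h3
    simp only [mem_iUnion] at h3
    obtain ⟨i, hi, h4⟩ := h3
    simp only [mem_iUnion]
    exact ⟨u i, ⟨i, hi, rfl⟩, lt_of_le_of_lt h4 hk⟩
  refine ⟨S, isCompact_iff_totallyBounded_isComplete.2 ⟨hSt, hSc.isComplete⟩, ?_, ?_⟩
  · intro j x hx
    rw [hS] at hx
    have h3 := mem_iInter.1 hx.2 j
    rw [hF2] at h3
    by_contra hxG
    have h4 : ((b j : ℝ≥0∞) + 1)⁻¹ ≤ Metric.infEDist x (G j)ᶜ := h3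
    rw [Metric.infEDist_zero_of_mem hxG] at h4
    have h5 : (0 : ℝ≥0∞) < ((b j : ℝ≥0∞) + 1)⁻¹ := ENNReal.inv_pos.2 (by finiteness)
    exact absurd h4 (not_le.2 h5)
  · intro η hη
    by_contra hcon
    push Not at hcon
    have h3 : ∃ᶠ n in atTop, ENNReal.ofReal ε < (ρ n : Measure X) {x | ∀ s ∈ S, η ≤ dist x s} := by
      rw [frequently_atTop]
      intro N
      obtain ⟨n, hn, h⟩ := hcon N
      exact ⟨n, hn, h⟩
    obtain ⟨φ, hφ, h4⟩ := extraction_of_frequently_atTop h3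
    obtain ⟨ψ, hψ, ν, hν, -⟩ := hc φ hφ
    have hθ : StrictMono fun k => φ (ψ k) := hφ.comp hψ
    have hD : IsClosed {x : X | ∀ s ∈ S, η ≤ dist x s} := by
      have : {x : X | ∀ s ∈ S, η ≤ dist x s} = ⋂ s ∈ S, {x | η ≤ dist x s} := by
        ext x
        simp only [mem_iInter]
        rfl
      rw [this]
      exact isClosed_biInter fun s _ => isClosed_le continuous_const (continuous_id.dist continuous_const)
    have h5 : ENNReal.ofReal ε ≤ (ν : Measure X) {x | ∀ s ∈ S, η ≤ dist x s} :=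
      closed_ge_of_tendsto (θ := fun k => φ (ψ k)) hν hD (Eventually.of_forall fun k => (h4 (ψ k)).le)
    -- the complement of S has small mass
    have h6 : ∀ j, (ν : Measure X) (F1 j)ᶜ ≤ e (2 * j) := fun j => by
      refine open_le_of_tendsto (θ := fun k => φ (ψ k)) hν (c1 j).isOpen_compl ?_
      filter_upwards [eventually_ge_atTop (a0 j)] with k hk
      exact (measure_mono (compl_subset_compl.2 (s1 j))).trans (ha j _ (hk.trans (hθ.id_le k)))
    have h7 : ∀ j, (ν : Measure X) (F2 j)ᶜ ≤ e (2 * j + 1) := fun j => by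
      refine open_le_of_tendsto (θ := fun k => φ (ψ k)) hν (c2 j).isOpen_compl ?_
      filter_upwards [eventually_ge_atTop (b0 j)] with k hk
      exact (measure_mono (compl_subset_compl.2 (s2 j))).trans (hb j _ (hk.trans (hθ.id_le k)))
    have h8 : (ν : Measure X) Sᶜ ≤ ENNReal.ofReal (ε / 2) := by
      rw [hS, compl_inter, compl_iInter, compl_iInter]
      calc (ν : Measure X) ((⋃ j, (F1 j)ᶜ) ∪ ⋃ j, (F2 j)ᶜ)
          ≤ (ν : Measure X) (⋃ j, (F1 j)ᶜ) + (ν : Measure X) (⋃ j, (F2 j)ᶜ) := measure_union_le _ _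
        _ ≤ (∑' j, (ν : Measure X) (F1 j)ᶜ) + ∑' j, (ν : Measure X) (F2 j)ᶜ :=
          add_le_add (measure_iUnion_le _) (measure_iUnion_le _)
        _ ≤ (∑' j, e (2 * j)) + ∑' j, e (2 * j + 1) := add_le_add (ENNReal.tsum_le_tsum h6) (ENNReal.tsum_le_tsum h7)
        _ = ∑' j, e j := tsum_even_add_odd ENNReal.summable ENNReal.summable
        _ ≤ _ := he.le
    have h9 : {x : X | ∀ s ∈ S, η ≤ dist x s} ⊆ Sᶜ := by
      intro x hx hxS
      have := hx x hxS
      rw [dist_self] at this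
      linarith
    have h10 := h5.trans ((measure_mono h9).trans h8)
    rw [ENNReal.ofReal_le_ofReal_iff (by positivity)] at h10
    linarith

/-- closed conditions cost nothing -/
theorem near_inter {S C : Set X} (hS : IsCompact S) (hC : IsClosed C) {η : ℝ} (hη : 0 < η) :
    ∃ η1 : ℝ, 0 < η1 ∧ ∀ x ∈ C, (∃ s ∈ S, dist x s < η1) → ∃ s ∈ S ∩ C, dist x s < η := by
  by_contra hcon
  push Not at hcon
  have h1 : ∀ m : ℕ, ∃ x ∈ C, (∃ s ∈ S, dist x s < 1 / ((m : ℝ) + 1)) ∧ ∀ s ∈ S ∩ C, η ≤ dist x s :=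
    fun m => hcon _ (by positivity)
  choose x hx1 hx0 hx3 using h1
  choose s hx4 hx2 using hx0
  obtain ⟨t, ht, φ, hφ, h2⟩ := hS.tendsto_subseq hx4
  have h3 : Tendsto (fun k => x (φ k)) atTop (𝓝 t) := by
    refine (tendsto_iff_of_dist ?_).2 h2
    refine squeeze_zero (fun k => dist_nonneg) (fun k => (hx2 (φ k)).le) ?_
    exact (tendsto_one_div_add_atTop_nhds_zero_nat).comp hφ.tendsto_atTop
  have h4 : t ∈ C := hC.mem_of_tendsto h3 (Eventually.of_forall fun k => hx1 _)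
  have h5 : ∀ k, η ≤ dist (x (φ k)) t := fun k => hx3 _ t ⟨ht, h4⟩
  have h6 : Tendsto (fun k => dist (x (φ k)) t) atTop (𝓝 0) := by
    have := (tendsto_iff_dist_tendsto_zero).1 h3
    exact this
  have h7 := ge_of_tendsto' h6 h5
  linarith

end Gen

end Pool.Agent.ROT.F3
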