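import Pool.Agent.ROT.F3Tip12

/-!
# ROT, F3 (B), row W10 (helper12): from the gates at every scale to the rotation invariance

* `Inp p0 z` : the input for the rotation `z`, along every ultrafilter;
* **`end_rot`**, `lim_rot` : the laws, their limits;
* **`rotW_small`** : small angles are enough: `RotW`.
-/

set_option autoImplicit false

open MeasureTheory Filter Topology Finset
open scoped ENNReal NNReal

namespace Pool.Agent.ROT.F3E

open Pool.Agent.NTS.Res Pool.Agent.CRT Pool.Agent.ROT.F3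

/-- **the input of the last step** for one rotation `z`: for every function, all small constants and every ultrafilter there
are a cutoff and gates of the two lattices, with agreeing gated sums -/
def Inp (p0 : ℝ) (z : ℂ) : Prop := ∀ F : CI → ℝ, LipschitzWith 1 F → (∀ γ, |F γ| ≤ 1) → ∀ ε : ℝ, 0 < ε → ∀ e : ℝ, 0 < e →
  ∀ t0 : ℝ, 0 < t0 → ∀ U : Ultrafilter ℕ, (U : Filter ℕ) ≤ atTop → ∃ th : ℝ, 0 < th ∧ th ≤ t0 ∧
    ∃ G G' : ℕ → W3 → ℕ → ℕ → ℝ, ∀ᶠ N in (U : Filter ℕ), Gt p0 e th F (G N) N ∧ Gt p0 e th (fun γ => F (z • γ)) (G' N) N ∧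
      |SS (G N) N th F * SS (G' N) N th (fun _ => 1) - SS (G' N) N th (fun γ => F (z • γ)) * SS (G N) N th (fun _ => 1)| ≤
        ε * (SS (G N) N th (fun _ => 1) * SS (G' N) N th (fun _ => 1))

/-- **the laws of the walks** -/
theorem end_rot {p0 : ℝ} (hp0 : 0 < p0) {z : ℂ} (hz : ‖z‖ = 1) (h : Inp p0 z) {F : CI → ℝ} (hF : LipschitzWith 1 F)
    (hF1 : ∀ γ, |F γ| ≤ 1) {ε : ℝ} (hε : 0 < ε) :
    ∀ᶠ N in atTop, |∫ γ, F γ ∂(law N) - ∫ γ, F (z • γ) ∂(law N)| ≤ ε := by
  by_contra hcon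
  rw [not_eventually] at hcon
  obtain ⟨Bad, hBad⟩ : ∃ Bad : Set ℕ, Bad = {N | ¬ |∫ γ, F γ ∂(law N) - ∫ γ, F (z • γ) ∂(law N)| ≤ ε} := ⟨_, rfl⟩
  have hne : (atTop ⊓ 𝓟 Bad : Filter ℕ).NeBot := by
    rw [← frequently_mem_iff_neBot, hBad]
    exact hcon
  obtain ⟨e0, he0, t0, ht0, -, h1⟩ := end_pt hp0 (ε := ε / 3) (by positivity)
  have hU : ((Ultrafilter.of (atTop ⊓ 𝓟 Bad) : Ultrafilter ℕ) : Filter ℕ) ≤ atTop :=
    (Ultrafilter.of_le _).trans inf_le_left
  have hB : ∀ᶠ N in ((Ultrafilter.of (atTop ⊓ 𝓟 Bad) : Ultrafilter ℕ) : Filter ℕ), N ∈ Bad :=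
    (Ultrafilter.of_le (atTop ⊓ 𝓟 Bad)).trans inf_le_right (mem_principal_self Bad)
  obtain ⟨th, hth, htt, G, G', hG⟩ := h F hF hF1 (ε / 3) (by positivity) e0 he0 t0 ht0 _ hU
  obtain ⟨N, ⟨g1, g2, g3⟩, g4, g5⟩ := (hG.and (hB.and (hU (h1 e0 he0.le le_rfl th hth htt)))).exists
  have g6 := g5 z hz F (G N) (G' N) hF hF1 g1 g2 g3
  rw [hBad] at g4
  exact g4 (g6.trans (by linarith))

/-- **the limits** -/
theorem lim_rot {p0 : ℝ} (hp0 : 0 < p0) {z : ℂ} (hz : ‖z‖ = 1) (h : Inp p0 z) {φ : ℕ → ℕ}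
    {ν : ProbabilityMeasure C(unitInterval, ℂ)} (hφ : Tendsto φ atTop atTop) (hl : LawTo φ (ν : Measure C(unitInterval, ℂ))) :
    (ν : Measure C(unitInterval, ℂ)).map (fun γ => z • γ) = (ν : Measure C(unitInterval, ℂ)) := by
  have hm : Measurable fun γ : CI => z • γ := (smul_cont z).measurable
  have hpm : IsProbabilityMeasure ((ν : Measure CI).map fun γ => z • γ) := Measure.isProbabilityMeasure_map hm.aemeasurable
  have key : ∀ F : CI → ℝ, LipschitzWith 1 F → (∀ γ, |F γ| ≤ 1) →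
      ∫ γ, F (z • γ) ∂(ν : Measure CI) = ∫ γ, F γ ∂(ν : Measure CI) := by
    intro F hF hF1
    have hF' := smul_lip hz hF
    have t1 := hl (BoundedContinuousFunction.ofNormedAddCommGroup F hF.continuous 1 (fun γ => by
      rw [Real.norm_eq_abs]; exact hF1 γ))
    have t2 := hl (BoundedContinuousFunction.ofNormedAddCommGroup (fun γ => F (z • γ)) hF'.continuous 1 (fun γ => by
      rw [Real.norm_eq_abs]; exact hF1 _))
    simp only [BoundedContinuousFunction.coe_ofNormedAddCommGroup] at t1 t2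
    have t3 := t1.sub t2
    have t4 : Tendsto (fun k => ∫ γ, F γ ∂(law (φ k)) - ∫ γ, F (z • γ) ∂(law (φ k))) atTop (𝓝 0) := by
      rw [Metric.tendsto_nhds]
      intro ε hε
      filter_upwards [hφ.eventually (end_rot hp0 hz h hF hF1 (ε := ε / 2) (by positivity))] with k hk
      rw [Real.dist_eq, sub_zero]
      linarith
    have t5 := tendsto_nhds_unique t3 t4
    linarith
  refine Pool.Agent.TSW.Sym.ext_lip hpm inferInstance fun F L B hF hB => ?_
  rw [integral_map hm.aemeasurable hF.continuous.aestronglyMeasurable]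
  obtain ⟨D, hD1, hDL, hDB⟩ : ∃ D : ℝ, 1 ≤ D ∧ (L : ℝ) ≤ D ∧ B ≤ D :=
    ⟨max 1 (max L B), le_max_left _ _, (le_max_left _ _).trans (le_max_right _ _),
      (le_max_right _ _).trans (le_max_right _ _)⟩
  have hD0 : 0 < D := by linarith
  have h1 := key (fun γ => F γ / D) (LipschitzWith.of_dist_le_mul fun a b => by
    rw [NNReal.coe_one, one_mul, Real.dist_eq, ← sub_div, abs_div, abs_of_pos hD0, div_le_iff₀ hD0]
    have h2 := hF.dist_le_mul a b
    rw [Real.dist_eq] at h2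
    refine h2.trans ?_
    rw [mul_comm]
    exact mul_le_mul_of_nonneg_left hDL dist_nonneg) (fun γ => by
    rw [abs_div, abs_of_pos hD0, div_le_one hD0]
    have := hB γ
    rw [Real.norm_eq_abs] at this
    linarith)
  rw [integral_div, integral_div] at h1
  exact (div_left_inj' hD0.ne').1 h1

/-- **small angles are enough** -/
theorem rotW_small' {φ0 : ℝ} (hφ0 : 0 < φ0)
    (h : ∀ t : ℝ, 0 < t → t ≤ φ0 → ∃ p0 : ℝ, 0 < p0 ∧ Inp p0 (Complex.exp (t * Complex.I))) : RotW := by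
  intro φ ν hφ hl z hz
  have hit : ∀ (w : ℂ), (ν : Measure CI).map (fun γ => w • γ) = (ν : Measure CI) → ∀ k : ℕ,
      (ν : Measure CI).map (fun γ => w ^ k • γ) = (ν : Measure CI) := by
    intro w hw k
    induction k with
    | zero => simp
    | succ k ih =>
      have e : (fun γ : CI => w ^ (k + 1) • γ) = (fun γ => w • γ) ∘ fun γ => w ^ k • γ := by
        funext γ
        show w ^ (k + 1) • γ = w • w ^ k • γ
        rw [smul_smul, pow_succ']
      rw [e, ← Measure.map_map (smul_cont w).measurable (smul_cont _).measurable, ih, hw]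
  have key : ∀ t : ℝ, 0 < t → (ν : Measure CI).map (fun γ => Complex.exp (t * Complex.I) • γ) = (ν : Measure CI) := by
    intro t ht
    obtain ⟨k, hk⟩ := exists_nat_gt (t / φ0)
    have hk0 : (0 : ℝ) < k := lt_trans (by positivity) hk
    have h1 : t / k ≤ φ0 := by
      rw [div_lt_iff₀ hφ0] at hk
      rw [div_le_iff₀ hk0]
      linarith
    obtain ⟨p0, hp0, hI⟩ := h (t / k) (by positivity) h1
    have h2 := hit _ (lim_rot hp0 (Complex.norm_exp_ofReal_mul_I _) hI hφ hl) k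
    rw [← Complex.exp_nat_mul] at h2
    have e : (k : ℂ) * (((t / k : ℝ) : ℂ) * Complex.I) = t * Complex.I := by
      have : (k : ℂ) ≠ 0 := by exact_mod_cast hk0.ne'
      push_cast
      field_simp
    rwa [e] at h2
  have e : z = Complex.exp ((z.arg + 2 * Real.pi : ℝ) * Complex.I) := by
    conv_lhs => rw [← Complex.norm_mul_exp_arg_mul_I z, hz]
    rw [Complex.ofReal_one, one_mul, Complex.ofReal_add, add_mul, Complex.exp_add]
    have : Complex.exp (((2 * Real.pi : ℝ) : ℂ) * Complex.I) = 1 := by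
      push_cast
      exact Complex.exp_two_pi_mul_I
    rw [this, mul_one]
  have hpos : 0 < z.arg + 2 * Real.pi := by
    have := Complex.neg_pi_lt_arg z
    linarith [Real.pi_pos]
  have h3 := key _ hpos
  rw [← e] at h3
  exact h3

/-- small angles are enough, one constant -/
theorem rotW_small {p0 φ0 : ℝ} (hp0 : 0 < p0) (hφ0 : 0 < φ0)
    (h : ∀ t : ℝ, 0 < t → t ≤ φ0 → Inp p0 (Complex.exp (t * Complex.I))) : RotW :=
  rotW_small' hφ0 fun t h1 h2 => ⟨p0, hp0, h t h1 h2⟩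

end Pool.Agent.ROT.F3E
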