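import Pool.Agent.PW.TipBZ
import Pool.Agent.ROT.F3KerW41

/-!
# ROT, block F3, mixing of the two tips (helper41), part 2: the tip theorem for functionals in the frame of the tip

**`tipK`** : an inner functional `q` of the tip (scale `2 ^ (k - C)`) and a functional `Φ` which hardly sees a small end of
class 0 (the direction of exit is the same) are asymptotically independent for the walk with exactly `n` steps; `Φ` and
`Φ * q` are kernels (`KerW`). The text is the one of `tipB_of` (helper45) with `slowK` in the place of `slowI`.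
-/

set_option autoImplicit false

namespace HexObs

namespace PWN

open Finset TS SDN TIW SLW SLW.TW RM

lemma KerW.mono {b b' r : ℕ} {τ τ' : ℝ} {W : List Bool → ℝ} {P Q : Fin 3 → List Bool → ℝ} (hb : b ≤ b') (hτ : τ ≤ τ')
    (h : KerW b r τ W P Q) : KerW b' r τ' W P Q :=
  ⟨h.wb, h.pb, h.qb, fun A V E h1 h2 h3 h4 => (h.osc A V E h1 h2 h3 ((pow_le_pow_right₀ (by norm_num) hb).trans h4)).trans hτ⟩

lemma kerW_one (b r : ℕ) {τ : ℝ} (hτ : 0 ≤ τ) : KerW b r τ (fun _ => 1) (fun f _ => if f = 0 then 1 else 0)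
    (fun f _ => if f = 0 then 1 else 0) where
  wb := fun _ => by rw [abs_one]
  pb := fun f _ => by
    split_ifs
    · rw [abs_one]
    · rw [abs_zero]
      exact zero_le_one
  qb := fun _ => by
    rw [Fin.sum_univ_three]
    simp
  osc := fun A V E _ _ _ _ => by
    rw [Fin.sum_univ_three]
    simp
    exact hτ

/-- **the mean over the words with n letters is the mean over the plane ensemble**, kernels -/
theorem slowAK (hF : SlowK) : ∀ ε : ℝ, 0 < ε → ∃ τ : ℝ, 0 < τ ∧ ∀ c1 : ℕ, ∃ c' c2 k0 : ℕ, ∀ k n : ℕ, k0 ≤ k → 1 ≤ n →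
    TIP.Sc k n → ∀ (Lg : ℝ) (g : ℝ → ℝ), Bump Lg g → (∀ u, 1 + 1 / 2 ^ c2 < u → g u = 0) →
    ∀ (W : List Bool → ℝ) (P Q : Fin 3 → List Bool → ℝ), KerW (k - c') (k - c1) τ W P Q →
    |∑ t ∈ AAF n, pA g n t * W t - MA g n * En n W| ≤ ε * MA g n := by
  intro ε hε
  obtain ⟨δ, hδ⟩ : ∃ δ : ℝ, δ = min (ε / 4) (1 / 2) := ⟨_, rfl⟩
  have hδ0 : 0 < δ := by rw [hδ]; exact lt_min (by positivity) (by norm_num)
  have hδ1 : δ ≤ ε / 4 := by rw [hδ]; exact min_le_left _ _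
  have hδ2 : δ ≤ 1 / 2 := by rw [hδ]; exact min_le_right _ _
  obtain ⟨τ, hτ, h⟩ := hF δ hδ0
  refine ⟨τ, hτ, fun c1 => ?_⟩
  obtain ⟨c', c2, k0, h⟩ := h c1
  refine ⟨c', c2, k0, fun k n hk hn hSc Lg g hg hs W P Q hK => ?_⟩
  have ha : 0 < (cS n * xc ^ n : ℝ) := by
    have h1 : (0 : ℝ) < cS n := by exact_mod_cast TOG.cS_pos n
    exact mul_pos h1 (pow_pos xc_pos _)
  have hc : (0 : ℝ) < cS n := by exact_mod_cast TOG.cS_pos n
  have hW := WA_nonneg hg n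
  have h1 := AA_near hg hs hn (F := W) (fun j hj1 hj2 => h k n j hk hSc hj1 hj2 W P Q hK)
  have h2 := AA_near hg hs hn (F := fun _ => (1 : ℝ)) (fun j hj1 hj2 => h k n j hk hSc hj1 hj2 (fun _ => 1) _ _
    (kerW_one _ _ hτ.le))
  have e1 : ∑ t ∈ AAF n, pA g n t * 1 = MA g n := by
    unfold MA
    exact sum_congr rfl fun t _ => by rw [mul_one]
  have e2 : xc ^ n * ∑ _t ∈ sawF n, (1 : ℝ) = cS n * xc ^ n := by
    rw [sum_const, nsmul_eq_mul, SLW.card_sawF]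
    ring
  rw [e1, e2] at h2
  obtain ⟨m, hm⟩ : ∃ m : ℝ, m = (∑ t ∈ sawF n, W t) / cS n := ⟨_, rfl⟩
  have hm1 : |m| ≤ 1 := by
    rw [hm, abs_div, abs_of_pos hc, div_le_one hc]
    refine (abs_sum_le_sum_abs _ _).trans ?_
    calc ∑ t ∈ sawF n, |W t| ≤ ∑ _t ∈ sawF n, (1 : ℝ) := sum_le_sum fun t _ => hK.wb t
      _ = cS n := by rw [sum_const, nsmul_eq_mul, SLW.card_sawF, mul_one]
  have e3 : xc ^ n * ∑ t ∈ sawF n, W t = m * (cS n * xc ^ n) := by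
    rw [hm]
    field_simp
  have e5 : En n W = m := by rw [hm]; rfl
  rw [e3] at h1
  rw [e5]
  have h3 := abs_le.1 h1
  have h4 := abs_le.1 h2
  have h5 := abs_le.1 hm1
  -- the mass
  have h6 : WA g n * (cS n * xc ^ n) ≤ 2 * MA g n := by nlinarith [mul_nonneg hW ha.le]
  have h7 : |∑ t ∈ AAF n, pA g n t * W t - MA g n * m| ≤ 2 * (δ * (WA g n * (cS n * xc ^ n))) := by
    have h8 : |(WA g n * (cS n * xc ^ n) - MA g n) * m| ≤ WA g n * (δ * (cS n * xc ^ n)) := by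
      rw [abs_mul, abs_sub_comm]
      exact (mul_le_mul h2 hm1 (abs_nonneg _) ((abs_nonneg _).trans h2)).trans (le_of_eq (mul_one _))
    have e4 : ∑ t ∈ AAF n, pA g n t * W t - MA g n * m =
        (∑ t ∈ AAF n, pA g n t * W t - WA g n * (m * (cS n * xc ^ n))) +
          (WA g n * (cS n * xc ^ n) - MA g n) * m := by ring
    rw [e4]
    refine (abs_add_le _ _).trans ((add_le_add h1 h8).trans (le_of_eq ?_))
    ring
  refine h7.trans ?_
  have h9 : 0 ≤ MA g n := MA_nonneg hg n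
  calc 2 * (δ * (WA g n * (cS n * xc ^ n))) ≤ 2 * (δ * (2 * MA g n)) := by
        refine mul_le_mul_of_nonneg_left (mul_le_mul_of_nonneg_left h6 hδ0.le) (by norm_num)
    _ = 4 * δ * MA g n := by ring
    _ ≤ ε * MA g n := mul_le_mul_of_nonneg_right (by linarith) h9

/-- **the literal**: the tip theorem for kernels -/
def TipK (g : ℝ → ℝ) : Prop := ∀ ε : ℝ, 0 < ε → ∃ τ : ℝ, 0 < τ ∧ ∀ c1 : ℕ, ∃ C1 : ℕ, ∀ C : ℕ, C1 ≤ C → ∃ k0 : ℕ,
  ∀ k n : ℕ, k0 ≤ k → TIP.Sc k n → ∀ q Φ : List Bool → ℝ, (∀ t, |q t| ≤ 1) → (∀ t, |Φ t| ≤ 1) → Inn (k - C) q →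
  Rob (2 ^ (k - c1)) Φ (fun _ => τ) → ∀ P Q P' Q' : Fin 3 → List Bool → ℝ, KerW (k - C) (k - c1) τ (fun t => Φ t * q t) P Q →
  KerW (k - C) (k - c1) τ Φ P' Q' → |En n (fun t => Φ t * q t) - EA g n q * En n Φ| ≤ ε

/-- **the tip theorem for kernels** -/
theorem tipK_of (hA : AReg) (hF : SlowK) (hS : SmallN) {Lg : ℝ} {g : ℝ → ℝ} (hg : Bump Lg g) {u : ℝ} (hu : g u = 1) :
    TipK g := by
  intro ε hε
  obtain ⟨ε', hε'⟩ : ∃ ε' : ℝ, ε' = min ε 1 / 64 := ⟨_, rfl⟩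
  have hm0 : 0 < min ε 1 := lt_min hε one_pos
  have hε0 : 0 < ε' := by rw [hε']; positivity
  have hε1 : ε' ≤ ε / 64 := by rw [hε']; exact div_le_div_of_nonneg_right (min_le_left _ _) (by norm_num)
  have hε2 : ε' ≤ 1 / 64 := by rw [hε']; exact div_le_div_of_nonneg_right (min_le_right _ _) (by norm_num)
  obtain ⟨Cm, hCm, hMom⟩ := momA (momU hA)
  obtain ⟨D, hD1, hD⟩ := UT_low
  obtain ⟨c, hc, hS⟩ := hS (ε' / 4) (by positivity)
  obtain ⟨M0, hS⟩ := hS 1 0 one_pos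
  obtain ⟨B, hB⟩ : ∃ B : ℝ, B = (Cm * (D ^ 0 / 1)) ^ 2 := ⟨_, rfl⟩
  have hB0 : 0 ≤ B := by rw [hB]; positivity
  obtain ⟨M1, hM1⟩ := exists_nat_gt (4 * B / (c ^ 2 * ε'))
  obtain ⟨M, hMdef⟩ : ∃ M : ℕ, M = M0 + M1 + 1 := ⟨_, rfl⟩
  have hM : 1 ≤ M := by omega
  have hMr : (0 : ℝ) < M := by exact_mod_cast (by omega : 0 < M)
  have hBM : B / (c ^ 2 * M) ≤ ε' / 4 := by
    have h1 : 4 * B / (c ^ 2 * ε') ≤ M := hM1.le.trans (by exact_mod_cast (by omega : M1 ≤ M))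
    rw [div_le_iff₀ (by positivity)] at h1
    rw [div_le_iff₀ (by positivity)]
    nlinarith
  obtain ⟨s0, hS⟩ := hS M (by omega)
  obtain ⟨s1, hs1⟩ := pow_unbounded_of_one_lt (512 * B / (c ^ 2 * ε')) (one_lt_two : (1 : ℝ) < 2)
  obtain ⟨s', hs'⟩ : ∃ s' : ℕ, s' = s0 + s1 + 8 := ⟨_, rfl⟩
  have hBs : 128 * B / (2 ^ s' * c ^ 2) ≤ ε' / 4 := by
    have h1 : 512 * B / (c ^ 2 * ε') ≤ 2 ^ s' := hs1.le.trans (pow_le_pow_right₀ (by norm_num) (by omega))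
    rw [div_le_iff₀ (by positivity)] at h1
    rw [div_le_iff₀ (by positivity)]
    nlinarith
  obtain ⟨c0, l0, hS⟩ := hS s' (by omega)
  obtain ⟨τ1, hτ1, hslow⟩ := slowAK hF (ε / 4) (by positivity)
  obtain ⟨τ, hτdef⟩ : ∃ τ : ℝ, τ = min τ1 (ε' * c / (B + 1)) := ⟨_, rfl⟩
  have hτ0 : 0 < τ := by rw [hτdef]; exact lt_min hτ1 (by positivity)
  have hττ : τ ≤ τ1 := by rw [hτdef]; exact min_le_left _ _
  have hτB : τ * (B + 1) ≤ ε' * c := by
    have h1 : τ ≤ ε' * c / (B + 1) := by rw [hτdef]; exact min_le_right _ _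
    rwa [le_div_iff₀ (by positivity)] at h1
  refine ⟨τ, hτ0, fun c1 => ?_⟩
  obtain ⟨c', c2, k2, hslow⟩ := hslow c1
  obtain ⟨Ca, la, hCa, hLa⟩ := levAe hA hg hu
  obtain ⟨Cb, lb, hCb, hLb⟩ := levAe hA (tent_bump c2) (tent_one c2)
  obtain ⟨ka, hka⟩ := MA_pos hA hg hu
  obtain ⟨kb, hkb⟩ := MA_pos hA (tent_bump c2) (tent_one c2)
  obtain ⟨β, hβdef⟩ : ∃ β : ℝ, β = ε' * c / 4 := ⟨_, rfl⟩
  have hβ0 : 0 < β := by rw [hβdef]; positivity
  obtain ⟨j, hj⟩ := pow_unbounded_of_one_lt ((Ca + Cb) / β) (one_lt_two : (1 : ℝ) < 2)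
  rw [div_lt_iff₀ hβ0] at hj
  refine ⟨c1 + c' + (c0 + j + 9 + 3 * M * s'), fun C hC => ⟨C + l0 + la + lb + k2 + ka + kb, ?_⟩⟩
  intro k n hk0 hSc q Φ hq hΦ hInn hfar P Q P' Q' hKQ hKΦ
  obtain ⟨C0, hC0d⟩ : ∃ C0 : ℕ, C0 = c1 := ⟨_, rfl⟩
  -- the levels
  obtain ⟨lv, hlv⟩ : ∃ lv : ℕ → ℕ, lv = fun i => k - C + 8 + i * s' := ⟨_, rfl⟩
  have hlv' : ∀ i, lv i = k - C + 8 + i * s' := fun i => by rw [hlv]
  have hlow : ∀ i, k - C + 8 ≤ lv i := fun i => by rw [hlv']; exact Nat.le_add_right _ _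
  have htop : ∀ i, i < 3 * M → lv i + C0 + c0 + j + 1 ≤ k := by
    intro i hi
    have h1 : i * s' + s' ≤ 3 * M * s' := by
      calc i * s' + s' = (i + 1) * s' := by ring
        _ ≤ 3 * M * s' := Nat.mul_le_mul_right _ hi
    rw [hlv']
    omega
  have hgap : ∀ i j, i < j → j < 3 * M → lv i + 0 + s' ≤ lv j := by
    intro i j' hij _
    have h1 : i * s' + s' ≤ j' * s' := by
      calc i * s' + s' = (i + 1) * s' := by ring
        _ ≤ j' * s' := Nat.mul_le_mul_right _ hij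
    rw [hlv', hlv']
    omega
  obtain ⟨Ch, hCh⟩ : ∃ Ch : ℕ → Set (List Bool), Ch = fun _ => {[]} := ⟨_, rfl⟩
  have hLv : LvS (3 * M) lv 0 s' 1 Ch := ⟨hgap, fun i _ => by rw [hCh]; exact chn_nil _,
    fun i _ => by rw [hCh]; exact wD_nil.ge⟩
  have hll : l0 + la + lb ≤ k - C + 8 := by omega
  -- the small sums at every number of letters of the window
  have hsm : ∀ (k1 n1 : ℕ), k ≤ k1 → TIP.Sc k1 n1 → ∀ m, n1 ≤ m → m ≤ 2 * n1 → ∀ e : ℕ → ℕ, (∀ j, j < M → e j < 3 * M) →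
      (∀ i j, i < j → j < M → e i < e j) → ∑ t ∈ sawF m, smI c (fun j => N0 (lv (e j)) (lv (e j) + 0) (Ch (e j)) t /
        UT (lv (e j)) (lv (e j) + 0) (Ch (e j)) / M) M ≤ ε' / 4 * cS m := by
    intro k1 n1 hk1 hSc1 m hm1 _ e he1 he2
    obtain ⟨k3, hk3, hSc3⟩ := sc_ex (k := k1) (n := m) (hSc1.1.trans (by exact_mod_cast hm1))
    refine hS k3 m (fun j => lv (e j)) (fun j => Ch (e j)) hSc3 (hLv.sub he1 he2) ?_ fun i hi => ?_
    · have := hlow (e 0)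
      show l0 ≤ lv (e 0)
      omega
    · have := htop (e i) (he1 i hi)
      show lv (e i) + 0 + c0 ≤ k3
      omega
  have hMA : 0 < MA g n := hka k n (by omega) hSc.1
  have hMB : 0 < MA (tent c2) n := hkb k n (by omega) hSc.1
  have hn1 : 1 ≤ n := by
    by_contra h
    have h1 : n = 0 := by omega
    have h2 := hSc.1
    rw [h1, Nat.cast_zero] at h2
    exact absurd h2 (not_le.2 (NTA.mlow_M.pos k))
  have hEA := ensA (c := c) (x := ε' / 4) (M := M) hMom hg hD hCm one_pos hLv hMA (hsm k n le_rfl hSc)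
  have hEB := ensA (c := c) (x := ε' / 4) (M := M) hMom (tent_bump c2) hD hCm one_pos hLv hMB (hsm k n le_rfl hSc)
  have hLA := levEA (β := β) hg hCa hLa hD1 hD hSc one_pos hLv (fun i _ => by have := hlow i; omega)
    (fun i hi => by have := htop i hi; omega) (fun i hi => by
      have h1 := htop i hi
      have h2 : (2 : ℝ) ^ j ≤ 2 ^ (k - lv i) := pow_le_pow_right₀ (by norm_num) (by omega)
      have h3 : Ca ≤ 2 ^ j * β := by linarith
      calc Ca * (D ^ 0 / 1) = Ca := by rw [pow_zero, div_one, mul_one]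
        _ ≤ 2 ^ j * β := h3
        _ ≤ 2 ^ (k - lv i) * β := mul_le_mul_of_nonneg_right h2 hβ0.le
        _ = β * 2 ^ (k - lv i) := by ring) hq
  have hLB := levEA (β := β) (tent_bump c2) hCb hLb hD1 hD hSc one_pos hLv (fun i _ => by have := hlow i; omega)
    (fun i hi => by have := htop i hi; omega) (fun i hi => by
      have h1 := htop i hi
      have h2 : (2 : ℝ) ^ j ≤ 2 ^ (k - lv i) := pow_le_pow_right₀ (by norm_num) (by omega)
      have h3 : Cb ≤ 2 ^ j * β := by linarith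
      calc Cb * (D ^ 0 / 1) = Cb := by rw [pow_zero, div_one, mul_one]
        _ ≤ 2 ^ j * β := h3
        _ ≤ 2 ^ (k - lv i) * β := mul_le_mul_of_nonneg_right h2 hβ0.le
        _ = β * 2 ^ (k - lv i) := by ring) hq
  have hIQ : InnQ (3 * M) lv 0 Ch q := innQ (fun i _ => by have := hlow i; omega) hInn
  have hAm : ∑ t ∈ AAF n, pA g n t = MA g n := rfl
  have e2 : (2 * (64 / 2 ^ s' * B / c) + β) / c = 128 * B / (2 ^ s' * c ^ 2) + β / c := by
    field_simp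
    ring
  have hβc : β / c = ε' / 4 := by
    rw [hβdef]
    field_simp
  have hτc : τ * (B + 1) / c ≤ ε' := by
    rw [div_le_iff₀ hc]
    exact hτB
  have hT := T_tip (r0 := 2 ^ (k - c1)) (er := fun _ => τ) (τ := τ) (ε' := ε') (err := ε / 2) hgap (by omega : 8 ≤ s') hM
    (fun i hi => Nat.pow_le_pow_right (by norm_num) (by have := htop i hi; omega)) hEA hAm hLA hEB hLB hβ0.le hq hIQ
    hc hc hε0 (by
      rw [← hB, e2, hβc]
      linarith) (by linarith) hτ0.le hΦ hfar (fun _ => hτ0.le) (by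
      rw [mul_one, ← sum_mul, mul_comm]
      exact le_of_eq rfl) (by
      rw [← hB]
      have e3 : (τ * (B + 1) + 2 * (64 / 2 ^ s' * B / c) + β) / c =
          τ * (B + 1) / c + (2 * (64 / 2 ^ s' * B / c) + β) / c := by ring
      rw [e3, e2, hβc]
      have h1 : ε' / 4 + B / (c ^ 2 * M) ≤ 1 := by linarith
      have h2 : 4 * ε' * (1 + (ε' / 4 + B / (c ^ 2 * M))) ≤ 4 * ε' * 2 :=
        mul_le_mul_of_nonneg_left (by linarith) (by positivity)
      linarith)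
  -- the exact number of letters
  have hsF := hslow k n (by omega) hn1 hSc _ (tent c2) (tent_bump c2) (fun v hv => tent_hi hv) (fun t => Φ t * q t) P Q
    (hKQ.mono (by omega) hττ)
  have hsG := hslow k n (by omega) hn1 hSc _ (tent c2) (tent_bump c2) (fun v hv => tent_hi hv) Φ P' Q'
    (hKΦ.mono (by omega) hττ)
  have hq1 := EA_abs hg hMA hq
  obtain ⟨x, hx⟩ : ∃ x, x = ∑ t ∈ AAF n, pA (tent c2) n t * (Φ t * q t) := ⟨_, rfl⟩
  obtain ⟨y, hy⟩ : ∃ y, y = ∑ t ∈ AAF n, pA (tent c2) n t * Φ t := ⟨_, rfl⟩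
  obtain ⟨a, ha⟩ : ∃ a, a = EA g n q := ⟨_, rfl⟩
  have ha' : (∑ t ∈ AAF n, pA g n t * q t) / MA g n = a := by rw [ha]; rfl
  obtain ⟨b1, hb1⟩ : ∃ b, b = En n (fun t => Φ t * q t) := ⟨_, rfl⟩
  obtain ⟨b2, hb2⟩ : ∃ b, b = En n Φ := ⟨_, rfl⟩
  rw [ha', ← hx, ← hy] at hT
  rw [← hb1, ← hx] at hsF
  rw [← hb2, ← hy] at hsG
  rw [← ha] at hq1 ⊢
  rw [← hb1, ← hb2]
  obtain ⟨m, hm⟩ : ∃ m, m = MA (tent c2) n := ⟨_, rfl⟩
  rw [← hm] at hT hsF hsG hMB
  have h1 : |m * (b1 - a * b2)| ≤ ε * m := by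
    have e4 : m * (b1 - a * b2) = -(x - m * b1) + (x - a * y) + a * (y - m * b2) := by ring
    rw [e4]
    have h2 : |a * (y - m * b2)| ≤ ε / 4 * m := by
      rw [abs_mul]
      calc |a| * |y - m * b2| ≤ 1 * (ε / 4 * m) := mul_le_mul hq1 hsG (abs_nonneg _) zero_le_one
        _ = ε / 4 * m := one_mul _
    have h3 := abs_add_le (-(x - m * b1) + (x - a * y)) (a * (y - m * b2))
    have h4 := abs_add_le (-(x - m * b1)) (x - a * y)
    rw [abs_neg] at h4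
    linarith
  rw [abs_mul, abs_of_pos hMB, mul_comm] at h1
  exact le_of_mul_le_mul_right h1 hMB

/-- **no hypothesis** -/
theorem tipK0 : TipK (tent 0) := tipK_of aReg SLW.slowK smallN (tent_bump 0) (tent_one 0)

end PWN

end HexObs
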