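import Pool.Agent.ROT.F3Close
import Pool.Agent.ROT.F3MidWt
import Pool.Agent.ROT.F3CoreA

/-!
# ROT, F3 (B), the top (helper12): the input `Inp` of the last step from the rows

* `TopD`, `TopH p1 p2 e th θ ε0 z F U` : everything the rows have to give for one function, one cutoff, one ultrafilter;
* **`inp_of`** : `TopH` for all small constants ==> `Inp`; **`rotW_of`** : for all small angles ==> `RotW`.
-/

set_option autoImplicit false

open MeasureTheory Filter Topology Finset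
open scoped ENNReal NNReal BoundedContinuousFunction

namespace Pool.Agent.ROT.F3E

open Pool.Agent.NTS.Res Pool.Agent.CRT Pool.Agent.ROT.F3

/-- **what the rows give**: the classes of the two lattices at every scale (`C`, `C2`), the limits `m`, `b` of the laws of their
rests along `U` (`b` turned by `z`), the decomposition `k` of the rests at the foreign gates, the product form of its law, the
approximation of the foreign gates by a continuous functional with mixing (relative error `ε0`, durations near 1), and the lower bounds `p1` (native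
gates, both lattices) and `p2` (foreign gates, in the limit). -/
structure TopD (p1 p2 e th θ ε0 : ℝ) (z : ℂ) (F : CI → ℝ) (U : Ultrafilter ℕ) (K : Type) [MeasurableSpace K] where
  C : ℕ → WCls
  C2 : ℕ → WCls
  c : ℕ → ℝ≥0∞
  c2 : ℕ → ℝ≥0∞
  m : Measure (CI3 × ℝ)
  b : Measure (CI3 × ℝ)
  k : Cls (CI3 × ℝ) K (CI3 × ℝ)
  rd : K × (CI3 × ℝ) → CI3 × ℝ
  c0 : ∀ N, c N ≠ 0
  c1 : ∀ N, c N ≠ ∞
  c20 : ∀ N, c2 N ≠ 0
  c21 : ∀ N, c2 N ≠ ∞
  fm : IsFiniteMeasure m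
  fb : IsFiniteMeasure b
  /-- the limits of the laws of the rests -/
  hm : ∀ g : (CI3 × ℝ) →ᵇ ℝ, Tendsto (fun N => ∫ x, g x ∂((C N).rm N (c N))) (U : Filter ℕ) (𝓝 (∫ x, g x ∂m))
  hb : ∀ g : (CI3 × ℝ) →ᵇ ℝ, Tendsto (fun N => ∫ x, g (z • x.1, x.2) ∂((C2 N).rm N (c2 N))) (U : Filter ℕ)
    (𝓝 (∫ x, g x ∂b))
  /-- the decomposition of the rests at the foreign gates, and its inverse -/
  kOk : k.Ok
  mrd : Measurable rd
  hrd : ∀ᵐ r ∂m, r ∈ k.C → rd (k.τ r) = r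
  /-- **Core**: the law of (pieces, arc) is a product -/
  core : ∃ ν : Measure K, IsFiniteMeasure ν ∧ k.law m = ν.prod b
  /-- the arc is the rest without ends of durations at most `θ` -/
  cut : ∀ᵐ r ∂m, r ∈ k.C → r.1 0 = 0 ∧ 0 ≤ r.2 ∧ ∃ s t : unitInterval, (s : ℝ) * r.2 ≤ θ ∧ (1 - (t : ℝ)) * r.2 ≤ θ ∧
    (∀ u v : unitInterval, (v : ℝ) = (1 - u) * s + u * t → (k.τ r).2.1 u = r.1 v - r.1 s) ∧
    (k.τ r).2.2 = ((t : ℝ) - s) * r.2
  /-- rests with a duration near `1` have a positive mass -/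
  pos : 0 < ∫ r, ct th r.2 ∂m
  /-- the native gates of lattice 0 -/
  low1 : ∀ᶠ N in (U : Filter ℕ), p1 * ∑ n ∈ Wn N (2 * th), aN n ≤ SS ((C N).G N fun _ => 1) N th (fun _ => 1)
  /-- the foreign gates, in the limit -/
  low2 : p2 * ∫ r, ct th r.2 ∂m ≤ ∫ r in k.C, ct th r.2 ∂m
  /-- **the foreign gates by a continuous functional**, with mixing -/
  app : ∃ ψs : (CI3 × ℝ) →ᵇ ℝ, (∀ x, 0 ≤ ψs x) ∧ (∀ x, ψs x ≤ 1) ∧
    ∫ x, |ψs x - k.C.indicator (fun _ => (1 : ℝ)) x| * ct (4 * th) x.2 ∂m ≤ ε0 * ∫ r in k.C, ct th r.2 ∂m ∧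
    ∀ᶠ N in (U : Filter ℕ), Gm e th F ((C N).G N ψs) N
  /-- the gates of the rotated lattice -/
  gt2 : ∀ᶠ N in (U : Filter ℕ), Gt p1 e th (fun γ => F (z • γ)) ((C2 N).G N fun _ => 1) N

/-- the same as a proposition -/
def TopH (p1 p2 e th θ ε0 : ℝ) (z : ℂ) (F : CI → ℝ) (U : Ultrafilter ℕ) : Prop :=
  ∃ (K : Type) (_ : MeasurableSpace K), Nonempty (TopD p1 p2 e th θ ε0 z F U K)

lemma Gt.mono {p p' e th : ℝ} {F : CI → ℝ} {G : W3 → ℕ → ℕ → ℝ} {N : ℕ} (g : Gt p e th F G N) (h : p' ≤ p) :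
    Gt p' e th F G N :=
  ⟨g.toGm, (mul_le_mul_of_nonneg_right h (sum_nonneg fun n _ => aN_nonneg n)).trans g.low⟩

lemma om_cont' {th θ : ℝ} (hθ : 0 ≤ θ) : Measurable (om th θ) := (om_cont hθ).measurable

/-- the functional as a bounded continuous function -/
noncomputable def omb (th θ : ℝ) (hth : 0 < th) (hθ : 0 ≤ θ) : (CI3 × ℝ) →ᵇ ℝ :=
  BoundedContinuousFunction.ofNormedAddCommGroup (om th θ) (om_cont hθ) 2 fun x => by
    rw [Real.norm_eq_abs, abs_of_nonneg (om_nonneg hth hθ x)]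
    exact om_le x

lemma omb_apply (th θ : ℝ) (hth : 0 < th) (hθ : 0 ≤ θ) (x : CI3 × ℝ) : omb th θ hth hθ x = om th θ x := rfl

lemma ct_mono4 {th : ℝ} (hth : 0 < th) (T : ℝ) : ct th T ≤ ct (4 * th) T := by
  unfold ct
  refine max_le_max le_rfl (min_le_min le_rfl ?_)
  have h : 2 * |T - 1| / (4 * th) ≤ 2 * |T - 1| / th :=
    div_le_div_of_nonneg_left (by positivity) hth (by linarith)
  linarith

lemma om_le4 {th θ : ℝ} (x : CI × ℝ) : om th θ x ≤ 2 * ct (4 * th) x.2 := by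
  unfold om
  exact mul_le_mul_of_nonneg_right (min_le_left _ _) (ct_nonneg _ _)

/-- the gated sum of the functional as an integral -/
lemma om_eq (C : WCls) (N : ℕ) {c : ℝ≥0∞} (c0 : c ≠ 0) (c1 : c ≠ ∞) {th θ : ℝ} (hth : 0 < th) (hθ : 0 ≤ θ)
    {ψ : (CI3 × ℝ) →ᵇ ℝ} (hψ : ∀ x, 0 ≤ ψ x) :
    (∑' n, SG (C.G N ψ) N (fun γ T => om th θ (γ, T)) n) * ∫ x, ψ x * hct th x ∂(C.rm N c) =
      (∫ x, ψ x * om th θ x ∂(C.rm N c)) * SS (C.G N ψ) N th (fun _ => 1) := by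
  obtain ⟨-, e1⟩ := tsum_SG C.cl C.nf C.nw C.nf' hψ (C := ‖ψ‖) ψ.continuous.measurable
    (fun x => (le_abs_self _).trans (ψ.norm_coe_le_norm x)) C.fT C.fR C.fT' N c0 c1
    (H := fun γ T => om th θ (γ, T)) (fun γ t => om_nonneg hth hθ _) (fun γ t => om_le _) (om_cont hθ).measurable
  have e2 := SS_rm C.cl C.nf C.nw C.nf' hψ (C := ‖ψ‖) ψ.continuous.measurable
    (fun x => (le_abs_self _).trans (ψ.norm_coe_le_norm x)) C.fT C.fR C.fT' N c0 c1 th (F := fun _ => 1) continuous_const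
    (fun _ => by rw [abs_one])
  have e3 : (∑' n, SG (C.G N ψ) N (fun γ T => om th θ (γ, T)) n) = _ := e1
  have e4 : SS (C.G N ψ) N th (fun _ => 1) = _ := e2
  rw [e3, e4]
  unfold WCls.rm
  simp only [hct]
  ring

/-- **the last step but one** -/
theorem mid_top {p1 p2 : ℝ} (hp1 : 0 < p1) (hp2 : 0 < p2) {ε : ℝ} (hε : 0 < ε) : ∃ ε2 : ℝ, 0 < ε2 ∧
    ∃ t1 : ℝ, 0 < t1 ∧ ∀ th : ℝ, 0 < th → th ≤ t1 → ∃ θ1 : ℝ, 0 < θ1 ∧ ∀ θ : ℝ, 0 ≤ θ → θ ≤ θ1 → ∀ e : ℝ, 0 ≤ e → e ≤ 1 / 8 →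
      ∀ ε0 : ℝ, ε0 ≤ ε2 → ∀ (z : ℂ) (F : CI → ℝ) (U : Ultrafilter ℕ), (U : Filter ℕ) ≤ atTop → LipschitzWith 1 F →
        (∀ γ, |F γ| ≤ 1) → TopH p1 p2 e th θ ε0 z F U →
        ∃ G G' : ℕ → W3 → ℕ → ℕ → ℝ, ∀ᶠ N in (U : Filter ℕ), Gt (p1 * (min p2 1) / 2) e th F (G N) N ∧
          Gt (p1 * (min p2 1) / 2) e th (fun γ => F (z • γ)) (G' N) N ∧
          |SS (G N) N th F * SS (G' N) N th (fun _ => 1) - SS (G' N) N th (fun γ => F (z • γ)) * SS (G N) N th (fun _ => 1)| ≤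
            ε * (SS (G N) N th (fun _ => 1) * SS (G' N) N th (fun _ => 1)) := by
  obtain ⟨q2, hq2⟩ : ∃ q2 : ℝ, q2 = min p2 1 := ⟨_, rfl⟩
  have hq20 : 0 < q2 := by
    rw [hq2]
    exact lt_min hp2 one_pos
  have hq21 : q2 ≤ 1 := by
    rw [hq2]
    exact min_le_right _ _
  have hq22 : q2 ≤ p2 := by
    rw [hq2]
    exact min_le_left _ _
  rw [← hq2]
  obtain ⟨p0, hp0e⟩ : ∃ p0 : ℝ, p0 = p1 * q2 / 2 := ⟨_, rfl⟩
  have hp0 : 0 < p0 := by
    rw [hp0e]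
    positivity
  rw [← hp0e]
  obtain ⟨ε1, hε1, hε2, hε3⟩ : ∃ ε1 : ℝ, 0 < ε1 ∧ ε1 ≤ 1 / 2 ∧ 3 * ε1 ≤ ε := ⟨min (1 / 2) (ε / 3),
    lt_min (by norm_num) (by positivity), min_le_left _ _, by
      have := min_le_right (1 / 2) (ε / 3)
      linarith⟩
  obtain ⟨t1, ht1, H1⟩ := cl_fin hp0 (ε := ε1 / 4) (by positivity)
  refine ⟨ε1 / 16, by positivity, min t1 (1 / 8), lt_min ht1 (by norm_num), fun th hth htt => ?_⟩
  have hth8 : th ≤ 1 / 8 := htt.trans (min_le_right _ _)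
  obtain ⟨θ1, hθ1, H2⟩ := H1 th hth (htt.trans (min_le_left _ _))
  refine ⟨min (θ1 / 2) (th / 16), lt_min (by positivity) (by positivity), fun θ' hθ' hθθ e he he8 ε0 hε0 z F U hU
    hF hF1 hTop => ?_⟩
  have hθth' : 16 * θ' ≤ th := by linarith [hθθ.trans (min_le_right _ _)]
  obtain ⟨θ, hθe⟩ : ∃ θ : ℝ, θ = 2 * θ' := ⟨_, rfl⟩
  have hθ : 0 ≤ θ := by
    rw [hθe]
    positivity
  have H3 := H2 θ hθ (by rw [hθe]; linarith [hθθ.trans (min_le_left _ _)]) e he he8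
  obtain ⟨K, mK, ⟨D⟩⟩ := hTop
  have := D.fm
  have := D.fb
  have mC := D.kOk.mC
  have mτ := D.kOk.mτ
  obtain ⟨ν, hν, hcore⟩ := D.core
  -- the mass
  obtain ⟨P, hP⟩ : ∃ P : ℝ, P = ∫ r in D.k.C, ct th r.2 ∂D.m := ⟨_, rfl⟩
  have hPM : q2 * ∫ r, ct th r.2 ∂D.m ≤ P := by
    rw [hP]
    exact (mul_le_mul_of_nonneg_right hq22 D.pos.le).trans D.low2
  have hP0 : 0 < P := lt_of_lt_of_le (mul_pos hq20 D.pos) hPM
  -- the law of the pieces
  have hlaw : ∀ g : CI3 × ℝ → ℝ, Measurable g → ∫ p, g (D.rd p) ∂(D.k.law D.m) = ∫ r in D.k.C, g r ∂D.m := by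
    intro g hg
    unfold Cls.law
    have h0 : Measurable fun p => g (D.rd p) := hg.comp D.mrd
    rw [integral_map mτ.aemeasurable h0.aestronglyMeasurable]
    refine integral_congr_ae ?_
    have h1 : ∀ᵐ r ∂(D.m.restrict D.k.C), r ∈ D.k.C → D.rd (D.k.τ r) = r := ae_restrict_of_ae D.hrd
    filter_upwards [h1, ae_restrict_mem mC] with r hr hrC
    show g (D.rd (D.k.τ r)) = g r
    rw [hr hrC]
  have hind : ∀ g : (CI3 × ℝ) →ᵇ ℝ, ∫ x, D.k.C.indicator (fun _ => (1 : ℝ)) x * g x ∂D.m = ∫ r in D.k.C, g r ∂D.m := by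
    intro g
    rw [← integral_indicator mC]
    refine integral_congr_ae (Eventually.of_forall fun x => ?_)
    by_cases hx : x ∈ D.k.C
    · simp only [Set.indicator_of_mem hx, one_mul]
    · simp only [Set.indicator_of_notMem hx, zero_mul]
  have iψ : Integrable (D.k.C.indicator fun _ => (1 : ℝ)) D.m := (integrable_const (1 : ℝ)).indicator mC
  have hψ : ∀ g : (CI3 × ℝ) →ᵇ ℝ, ∫ x, D.k.C.indicator (fun _ => (1 : ℝ)) x * g x ∂D.m =
      ∫ p, g (D.rd p) ∂(D.k.law D.m) := fun g => by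
    rw [hind, hlaw g g.continuous.measurable]
  have i2 : ∀ g : (CI3 × ℝ) →ᵇ ℝ, Integrable (fun x => D.k.C.indicator (fun _ => (1 : ℝ)) x * g x) D.m := fun g =>
    iψ.mul_bdd (c := ‖g‖) g.continuous.measurable.aestronglyMeasurable (Eventually.of_forall fun x => g.norm_coe_le_norm x)
  have dif : ∀ (ψs : (CI3 × ℝ) →ᵇ ℝ) (δ : ℝ),
      ∫ x, |ψs x - D.k.C.indicator (fun _ => (1 : ℝ)) x| * ct (4 * th) x.2 ∂D.m ≤ δ →
      ∀ (g : (CI3 × ℝ) →ᵇ ℝ) (B : ℝ), (∀ x, |g x| ≤ B * ct (4 * th) x.2) → 0 ≤ B →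
        |∫ x, ψs x * g x ∂D.m - ∫ r in D.k.C, g r ∂D.m| ≤ B * δ := by
    intro ψs δ hψs g B hB hB0
    have i1 : Integrable (fun x => ψs x * g x) D.m := (ψs * g).integrable D.m
    rw [← hind g, ← integral_sub i1 (i2 g), ← Real.norm_eq_abs]
    refine (norm_integral_le_integral_norm _).trans ?_
    refine le_trans ?_ (mul_le_mul_of_nonneg_left hψs hB0)
    rw [← integral_const_mul]
    have i3 : Integrable (fun x => |ψs x - D.k.C.indicator (fun _ => (1 : ℝ)) x| * ct (4 * th) x.2) D.m := by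
      have := (((ψs.integrable D.m).sub iψ).norm).mul_bdd (c := ‖hct (4 * th)‖)
        (hct (4 * th)).continuous.measurable.aestronglyMeasurable (Eventually.of_forall fun x => (hct (4 * th)).norm_coe_le_norm x)
      simpa only [hct_apply, Pi.sub_apply, Real.norm_eq_abs] using this
    refine integral_mono (i1.sub (i2 g)).norm (i3.const_mul B) fun x => ?_
    simp only [Pi.sub_apply, Real.norm_eq_abs]
    rw [← sub_mul, abs_mul]
    calc _ ≤ |ψs x - D.k.C.indicator (fun _ => (1 : ℝ)) x| * (B * ct (4 * th) x.2) :=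
          mul_le_mul_of_nonneg_left (hB x) (abs_nonneg _)
      _ = _ := by ring
  have hct1 : ∀ x : CI3 × ℝ, |hct th x| ≤ 1 * ct (4 * th) x.2 := fun x => by
    rw [hct_apply, abs_of_nonneg (ct_nonneg _ _), one_mul]
    exact ct_mono4 hth _
  -- the lower bound of the gated sums
  have low : ∀ (ψs : (CI3 × ℝ) →ᵇ ℝ) (δ : ℝ), (∀ x, 0 ≤ ψs x) →
      ∫ x, |ψs x - D.k.C.indicator (fun _ => (1 : ℝ)) x| * ct (4 * th) x.2 ∂D.m ≤ δ → δ ≤ P / 4 →
        ∀ᶠ N in (U : Filter ℕ), p0 * ∑ n ∈ Wn N (2 * th), aN n ≤ SS ((D.C N).G N ψs) N th (fun _ => 1) := by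
    intro ψs δ ψ0 hψs hδ
    have t1 : Tendsto (fun N => ∫ x, ψs x * hct th x ∂((D.C N).rm N (D.c N))) (U : Filter ℕ)
        (𝓝 (∫ x, ψs x * hct th x ∂D.m)) := D.hm (ψs * hct th)
    have t2 : Tendsto (fun N => ∫ x, hct th x ∂((D.C N).rm N (D.c N))) (U : Filter ℕ)
        (𝓝 (∫ x, hct th x ∂D.m)) := D.hm (hct th)
    have d1 := (abs_le.1 (dif ψs δ hψs (hct th) 1 hct1 zero_le_one)).1
    have d2 : ∫ r in D.k.C, hct th r ∂D.m = P := by
      rw [hP]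
      simp only [hct_apply]
    have d3 : ∫ x, hct th x ∂D.m = ∫ r, ct th r.2 ∂D.m := by simp only [hct_apply]
    have d4 : q2 / 2 * ∫ x, hct th x ∂D.m < ∫ x, ψs x * hct th x ∂D.m := by
      rw [d3]
      rw [d2] at d1
      linarith
    filter_upwards [(t2.const_mul (q2 / 2)).eventually_lt t1 d4, D.low1] with N g1 g2
    obtain ⟨a, ha, e3⟩ := (D.C N).SS_eq N (D.c0 N) (D.c1 N)
    have e4 : SS ((D.C N).G N ψs) N th (fun _ => 1) = a * ∫ x, ψs x * hct th x ∂((D.C N).rm N (D.c N)) :=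
      e3 ψs ψ0 th (fun _ => 1) continuous_const (fun _ => by rw [abs_one])
    have e5 : SS ((D.C N).G N fun _ => 1) N th (fun _ => 1) = a * ∫ x, hct th x ∂((D.C N).rm N (D.c N)) := by
      have := e3 1 (fun x => zero_le_one) th (fun _ => 1) continuous_const (fun _ => by rw [abs_one])
      simp only [BoundedContinuousFunction.coe_one, Pi.one_apply, one_mul] at this
      exact this
    rw [e5] at g2
    rw [e4]
    calc p0 * ∑ n ∈ Wn N (2 * th), aN n = q2 / 2 * (p1 * ∑ n ∈ Wn N (2 * th), aN n) := by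
          rw [hp0e]
          ring
      _ ≤ q2 / 2 * (a * ∫ x, hct th x ∂((D.C N).rm N (D.c N))) := mul_le_mul_of_nonneg_left g2 (by positivity)
      _ = a * (q2 / 2 * ∫ x, hct th x ∂((D.C N).rm N (D.c N))) := by ring
      _ ≤ a * ∫ x, ψs x * hct th x ∂((D.C N).rm N (D.c N)) := mul_le_mul_of_nonneg_left g1.le ha
  obtain ⟨ψs, ψ0, ψ1, hψs', hG⟩ := D.app
  have hψs : ∫ x, |ψs x - D.k.C.indicator (fun _ => (1 : ℝ)) x| * ct (4 * th) x.2 ∂D.m ≤ ε1 * P / 16 := by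
    refine hψs'.trans ?_
    rw [← hP]
    have := mul_le_mul_of_nonneg_right hε0 hP0.le
    linarith
  -- the mass of the modulus in the limit
  have hom : ∫ r in D.k.C, om th θ r ∂D.m ≤ ε1 / 4 * P + ε1 / 4 * P := by
    obtain ⟨η, hηe⟩ : ∃ η : ℝ, η = ε1 / 4 * P := ⟨_, rfl⟩
    have hη : 0 < η := by
      rw [hηe]
      positivity
    have hηP : η ≤ P := by
      rw [hηe]
      nlinarith
    have hψs : ∫ x, |ψs x - D.k.C.indicator (fun _ => (1 : ℝ)) x| * ct (4 * th) x.2 ∂D.m ≤ η / 4 :=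
      hψs.trans (by rw [hηe]; linarith)
    rw [← hηe]
    have t1 : Tendsto (fun N => ∫ x, ψs x * om th θ x ∂((D.C N).rm N (D.c N))) (U : Filter ℕ)
        (𝓝 (∫ x, ψs x * om th θ x ∂D.m)) := D.hm (ψs * omb th θ hth hθ)
    have t2 : Tendsto (fun N => ∫ x, ψs x * hct th x ∂((D.C N).rm N (D.c N))) (U : Filter ℕ)
        (𝓝 (∫ x, ψs x * hct th x ∂D.m)) := D.hm (ψs * hct th)
    have h5 : ∫ x, ψs x * om th θ x ∂D.m ≤ ε1 / 4 * ∫ x, ψs x * hct th x ∂D.m := by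
      refine le_of_tendsto_of_tendsto t1 (t2.const_mul _) ?_
      filter_upwards [hG, hU H3, low ψs (η / 4) ψ0 hψs (by linarith)] with N g1 g2 g3
      obtain ⟨g4, g5⟩ := g2 ((D.C N).G N ψs) g1.toGb g3
      have e1 := om_eq (D.C N) N (D.c0 N) (D.c1 N) hth hθ ψ0
      have e2 : 0 ≤ ∫ x, ψs x * hct th x ∂((D.C N).rm N (D.c N)) := integral_nonneg fun x =>
        mul_nonneg (ψ0 x) (by rw [hct_apply]; exact ct_nonneg _ _)
      have e3 := mul_le_mul_of_nonneg_right g4 e2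
      rw [e1] at e3
      have e4 : (∫ x, ψs x * om th θ x ∂((D.C N).rm N (D.c N))) * SS ((D.C N).G N ψs) N th (fun _ => 1) ≤
          (ε1 / 4 * ∫ x, ψs x * hct th x ∂((D.C N).rm N (D.c N))) * SS ((D.C N).G N ψs) N th (fun _ => 1) := by
        refine e3.trans (le_of_eq ?_)
        ring
      exact le_of_mul_le_mul_right e4 g5
    have d1 := dif ψs _ hψs (omb th θ hth hθ) 2 (fun x => by
      rw [omb_apply, abs_of_nonneg (om_nonneg hth hθ x)]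
      exact om_le4 x) zero_le_two
    have d2 := dif ψs _ hψs (hct th) 1 hct1 zero_le_one
    simp only [omb_apply, hct_apply] at d1 d2 h5
    rw [← hP] at d2
    have d3 := (abs_le.1 d1).1
    have d4 := (abs_le.1 d2).2
    have d5 : ε1 / 4 * ∫ x, ψs x * ct th x.2 ∂D.m ≤ ε1 / 4 * (P + 1 * (η / 4)) :=
      mul_le_mul_of_nonneg_left (by linarith) (by positivity)
    nlinarith
  have hom2 : ∫ r in D.k.C, om th θ r ∂D.m ≤ ε1 * P := by
    nlinarith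
  -- the closeness
  have hhP : ∫ p, hct th (D.rd p) ∂(D.k.law D.m) = P := by
    rw [hlaw (hct th) (hct th).continuous.measurable, hP]
    simp only [hct_apply]
  have close : ∀ (f : CI → ℝ) (hf : LipschitzWith 1 f) (hf1 : ∀ γ, |f γ| ≤ 1),
      ∫ p, |Hb f hf.continuous hf1 th (D.rd p) - Hb f hf.continuous hf1 th p.2| ∂(D.k.law D.m) ≤
        ε1 * ∫ p, hct th (D.rd p) ∂(D.k.law D.m) := by
    intro f hf hf1
    have hmS : MeasurableSet {p : K × (CI3 × ℝ) | |Hb f hf.continuous hf1 th (D.rd p) - Hb f hf.continuous hf1 th p.2| ≤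
        omb th θ hth hθ (D.rd p)} := by
      refine measurableSet_le ?_ ?_
      · exact ((((Hb f hf.continuous hf1 th).continuous.measurable).comp D.mrd).sub
          (((Hb f hf.continuous hf1 th).continuous.measurable).comp measurable_snd)).abs
      · exact ((omb th θ hth hθ).continuous.measurable).comp D.mrd
    refine cl_of D.mrd hψ (H := Hb f hf.continuous hf1 th) (h := hct th) (ω := omb th θ hth hθ) ?_ ?_
    · unfold Cls.law
      rw [ae_map_iff mτ.aemeasurable hmS]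
      have h1 : ∀ᵐ r ∂(D.m.restrict D.k.C), r ∈ D.k.C → D.rd (D.k.τ r) = r := ae_restrict_of_ae D.hrd
      have h2 := ae_restrict_of_ae (s := D.k.C) D.cut
      filter_upwards [h1, h2, ae_restrict_mem mC] with r hr hc hrC
      obtain ⟨c1, c2, s, t, c3, c4, c5, c6⟩ := hc hrC
      rw [hr hrC]
      have := cl_det' hf hf1 hth hth8 hθ' hθth' c1 c2 c3 c4 c5 c6
      rw [← hθe] at this
      exact this
    · rw [hind, hind]
      have : ∫ r in D.k.C, hct th r ∂D.m = P := by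
        rw [hP]
        simp only [hct_apply]
      rw [this]
      exact hom2
  have hone : LipschitzWith 1 (fun _ : CI => (1 : ℝ)) := by
    have := LipschitzWith.const (α := CI) (1 : ℝ)
    exact this.weaken zero_le_one
  have hψs8 : ∫ x, |ψs x - D.k.C.indicator (fun _ => (1 : ℝ)) x| * ct (4 * th) x.2 ∂D.m ≤ ε1 * P / 8 := hψs.trans (by
    have : 0 ≤ ε1 * P := by positivity
    linarith)
  have key := mid_wordsG (U := (U : Filter ℕ)) (N := fun N => N) (C := D.C) (C2 := D.C2) (c := D.c) (c2 := D.c2) D.c0 D.c1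
    D.c20 D.c21 (z := z) D.hm D.hb hcore D.mrd iψ hψ hF.continuous hF1 hε1 hε2 (close F hF hF1)
    (close (fun _ => 1) hone (fun _ => by rw [abs_one])) (by rw [hhP]; exact hP0) ψ0
    (g := hct (4 * th)) (fun x => by rw [hct_apply]; exact ct_mono4 hth _)
    (by rw [hhP]; simp only [hct_apply]; exact hψs8)
  refine ⟨fun N => (D.C N).G N ψs, fun N => (D.C2 N).G N fun _ => 1, ?_⟩
  filter_upwards [key, hG, D.gt2, low ψs _ ψ0 hψs8 (by nlinarith)] with N k1 k2 k3 k4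
  refine ⟨⟨k2, k4⟩, k3.mono (by rw [hp0e]; nlinarith), k1.trans (mul_le_mul_of_nonneg_right hε3 ?_)⟩
  have q : ∀ G : W3 → ℕ → ℕ → ℝ, (∀ w i j, 0 ≤ G w i j) → 0 ≤ SS G N th (fun _ => 1) := fun G hG0 =>
    tsum_nonneg fun n => mul_nonneg (fug_nn n) (sum_nonneg fun s _ => sum_nonneg fun i _ => sum_nonneg fun j _ =>
      mul_nonneg (hG0 _ _ _) (mul_nonneg zero_le_one (ct_nonneg _ _)))
  exact mul_nonneg (q _ k2.nn) (q _ k3.nn)

/-- **the input of the last step from the rows**, one rotation -/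
theorem inp_of {p1 p2 : ℝ} (hp1 : 0 < p1) (hp2 : 0 < p2) {z : ℂ} {e1 th1 θ1 : ℝ} (he1 : 0 < e1) (hth1 : 0 < th1)
    (hθ1 : 0 < θ1)
    (h : ∀ F : CI → ℝ, LipschitzWith 1 F → (∀ γ, |F γ| ≤ 1) → ∀ e : ℝ, 0 < e → e ≤ e1 → ∀ th : ℝ, 0 < th → th ≤ th1 →
      ∀ θ : ℝ, 0 < θ → θ ≤ θ1 → ∀ ε0 : ℝ, 0 < ε0 → ∀ U : Ultrafilter ℕ, (U : Filter ℕ) ≤ atTop →
        TopH p1 p2 e th θ ε0 z F U) :
    Inp (p1 * (min p2 1) / 2) z := by
  intro F hF hF1 ε hε e he t0 ht0 U hU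
  obtain ⟨ε2, hε2, t1, ht1, H1⟩ := mid_top hp1 hp2 hε
  obtain ⟨th, hth, h1, h2, h3⟩ : ∃ th : ℝ, 0 < th ∧ th ≤ t1 ∧ th ≤ th1 ∧ th ≤ t0 := ⟨min t1 (min th1 t0),
    lt_min ht1 (lt_min hth1 ht0), min_le_left _ _, (min_le_right _ _).trans (min_le_left _ _),
    (min_le_right _ _).trans (min_le_right _ _)⟩
  obtain ⟨θ2, hθ2, H2⟩ := H1 th hth h1
  obtain ⟨θ, hθ, k1, k2⟩ : ∃ θ : ℝ, 0 < θ ∧ θ ≤ θ1 ∧ θ ≤ θ2 := ⟨min θ1 θ2, lt_min hθ1 hθ2, min_le_left _ _, min_le_right _ _⟩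
  obtain ⟨e', he', k3, k4, k5⟩ : ∃ e' : ℝ, 0 < e' ∧ e' ≤ e ∧ e' ≤ e1 ∧ e' ≤ 1 / 8 := ⟨min e (min e1 (1 / 8)),
    lt_min he (lt_min he1 (by norm_num)), min_le_left _ _, (min_le_right _ _).trans (min_le_left _ _),
    (min_le_right _ _).trans (min_le_right _ _)⟩
  obtain ⟨G, G', hG⟩ := H2 θ hθ.le k2 e' he'.le k5 ε2 le_rfl z F U hU hF hF1
    (h F hF hF1 e' he' k4 th hth h2 θ hθ k1 ε2 hε2 U hU)
  refine ⟨th, hth, h3, G, G', ?_⟩
  have mono : ∀ (p0 : ℝ) (f : CI → ℝ) (G : W3 → ℕ → ℕ → ℝ) (N : ℕ), Gt p0 e' th f G N → Gt p0 e th f G N := by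
    intro p0 f G N g
    have hb : e' * th * N ≤ e * th * N :=
      mul_le_mul_of_nonneg_right (mul_le_mul_of_nonneg_right k3 hth.le) (Nat.cast_nonneg N)
    exact ⟨⟨⟨g.nn, fun w i j hw hne => by
      obtain ⟨a1, a2, a3, a4, a5⟩ := g.supp w i j hw hne
      exact ⟨a1, a2, a3, a4.trans hb, a5.trans hb⟩, g.one⟩, fun n hn => (g.mix n hn).trans
        (mul_le_mul_of_nonneg_right k3 (Nat.cast_nonneg _))⟩, g.low⟩
  filter_upwards [hG] with N hN
  exact ⟨mono _ _ _ _ hN.1, mono _ _ _ _ hN.2.1, hN.2.2⟩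

/-- **`RotW` from the rows**, for all small angles -/
theorem rotW_of {φ0 : ℝ} (hφ0 : 0 < φ0) (h : ∀ t : ℝ, 0 < t → t ≤ φ0 → ∃ p1 p2 e1 th1 θ1 : ℝ, 0 < p1 ∧ 0 < p2 ∧ 0 < e1 ∧
    0 < th1 ∧ 0 < θ1 ∧ ∀ F : CI → ℝ, LipschitzWith 1 F → (∀ γ, |F γ| ≤ 1) → ∀ e : ℝ, 0 < e → e ≤ e1 →
      ∀ th : ℝ, 0 < th → th ≤ th1 → ∀ θ : ℝ, 0 < θ → θ ≤ θ1 → ∀ ε0 : ℝ, 0 < ε0 → ∀ U : Ultrafilter ℕ,
        (U : Filter ℕ) ≤ atTop → TopH p1 p2 e th θ ε0 (Complex.exp (t * Complex.I)) F U) : RotW :=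
  rotW_small' hφ0 fun t h1 h2 => by
    obtain ⟨p1, p2, e1, th1, θ1, hp1, hp2, he1, hth1, hθ1, H⟩ := h t h1 h2
    exact ⟨_, by have := lt_min hp2 one_pos; positivity, inp_of hp1 hp2 he1 hth1 hθ1 H⟩

end Pool.Agent.ROT.F3E
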