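import Pool.Agent.ROT.F3Tip12b

/-!
# ROT, F3 (B), F3Top, part A (helper12): gates from classes of prefixes, rests and end pieces

* `GG T Rs T' f F f'` : the weight of a word with two marks `i ≤ j`: prefix in `T`, piece in `Rs`, reversed end piece in `T'`;
* **`Gb_GG`** : `Gb` for it, from the lengths of the prefixes and the uniqueness of the marks;
* `pc N R` : the curve of a piece at the scale `N`, with its duration.
-/

set_option autoImplicit false

open MeasureTheory Filter Topology Finset
open scoped ENNReal NNReal Classical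

namespace Pool.Agent.ROT.F3E

open Pool.Agent.NTS.Res Pool.Agent.CRT Pool.Agent.ROT.F3

/-- the weight of a word with two marks -/
noncomputable def GG (T Rs T' : Set W3) (f F f' : W3 → ℝ) (w : W3) (i j : ℕ) : ℝ :=
  if i ≤ j ∧ j ≤ w.length ∧ w.take i ∈ T ∧ (w.drop i).take (j - i) ∈ Rs ∧ (w.drop j).reverse ∈ T' then
    f (w.take i) * (F ((w.drop i).take (j - i)) * f' (w.drop j).reverse) else 0

/-- the curve of a piece at the scale `N`, with its duration -/
noncomputable def pc (N : ℕ) (R : W3) : CI × ℝ := (crv R R.length (size N), (R.length : ℝ) / N)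

/-- the marks are unique -/
def Unq (T Rs T' : Set W3) : Prop := ∀ p R q p' R' q' : W3, p ∈ T → R ∈ Rs → q ∈ T' → p' ∈ T → R' ∈ Rs → q' ∈ T' →
  p ++ (R ++ q.reverse) = p' ++ (R' ++ q'.reverse) → p = p' ∧ R = R' ∧ q = q'

section

variable {T Rs T' : Set W3} {f F f' : W3 → ℝ}

lemma GG_nonneg (hf : ∀ w, 0 ≤ f w) (hF : ∀ w, 0 ≤ F w) (hf' : ∀ w, 0 ≤ f' w) (w : W3) (i j : ℕ) :
    0 ≤ GG T Rs T' f F f' w i j := by
  unfold GG
  split_ifs
  · exact mul_nonneg (hf _) (mul_nonneg (hF _) (hf' _))
  · exact le_rfl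

lemma GG_le (hF : ∀ w, 0 ≤ F w) (hf' : ∀ w, 0 ≤ f' w) (hf1 : ∀ w, f w ≤ 1) (hF1 : ∀ w, F w ≤ 1)
    (hf1' : ∀ w, f' w ≤ 1) (w : W3) (i j : ℕ) : GG T Rs T' f F f' w i j ≤ 1 := by
  unfold GG
  split_ifs
  · exact mul_le_one₀ (hf1 _) (mul_nonneg (hF _) (hf' _)) (mul_le_one₀ (hF1 _) (hf' _) (hf1' _))
  · exact zero_le_one

lemma GG_ne {w : W3} {i j : ℕ} (h : GG T Rs T' f F f' w i j ≠ 0) : i ≤ j ∧ j ≤ w.length ∧ w.take i ∈ T ∧
    (w.drop i).take (j - i) ∈ Rs ∧ (w.drop j).reverse ∈ T' := by
  by_contra hc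
  exact h (if_neg hc)

lemma three (w : W3) {i j : ℕ} (hij : i ≤ j) :
    w = w.take i ++ ((w.drop i).take (j - i) ++ ((w.drop j).reverse).reverse) := by
  rw [List.reverse_reverse]
  have h1 : (w.drop i).drop (j - i) = w.drop j := by
    rw [List.drop_drop, Nat.add_sub_cancel' hij]
  rw [← h1, List.take_append_drop, List.take_append_drop]

/-- **the gates of the classes** -/
theorem Gb_GG {e th : ℝ} {N : ℕ} (eT : ∀ a ∈ T, Even a.length) (lT : ∀ a ∈ T, (a.length : ℝ) ≤ e * th * N)
    (lT' : ∀ b ∈ T', (b.length : ℝ) ≤ e * th * N) (hU : Unq T Rs T')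
    (hf : ∀ w, 0 ≤ f w) (hF : ∀ w, 0 ≤ F w) (hf' : ∀ w, 0 ≤ f' w) (hf1 : ∀ w, f w ≤ 1) (hF1 : ∀ w, F w ≤ 1)
    (hf1' : ∀ w, f' w ≤ 1) : Gb e th (GG T Rs T' f F f') N where
  nn := GG_nonneg hf hF hf'
  supp := by
    intro w i j _ h
    obtain ⟨h1, h2, h3, h4, h5⟩ := GG_ne h
    have e1 : (w.take i).length = i := by rw [List.length_take, min_eq_left (h1.trans h2)]
    have e2 : (w.drop j).reverse.length = w.length - j := by rw [List.length_reverse, List.length_drop]
    have a1 := eT _ h3
    have a2 := lT _ h3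
    have a3 := lT' _ h5
    rw [e1] at a1 a2
    rw [e2, Nat.cast_sub h2] at a3
    exact ⟨a1, h1, h2, a2, a3⟩
  one := by
    intro w _
    unfold Gam
    by_cases hex : ∃ i j, GG T Rs T' f F f' w i j ≠ 0
    · obtain ⟨i, j, hij⟩ := hex
      obtain ⟨h1, h2, h3, h4, h5⟩ := GG_ne hij
      have e1 : (w.take i).length = i := by rw [List.length_take, min_eq_left (h1.trans h2)]
      have e2 : ((w.drop i).take (j - i)).length = j - i := by
        rw [List.length_take, List.length_drop]
        omega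
      have key : ∀ i' j', GG T Rs T' f F f' w i' j' ≠ 0 → i' = i ∧ j' = j := by
        intro i' j' h
        obtain ⟨k1, k2, k3, k4, k5⟩ := GG_ne h
        have e1' : (w.take i').length = i' := by rw [List.length_take, min_eq_left (k1.trans k2)]
        have e2' : ((w.drop i').take (j' - i')).length = j' - i' := by
          rw [List.length_take, List.length_drop]
          omega
        obtain ⟨u1, u2, -⟩ := hU _ _ _ _ _ _ k3 k4 k5 h3 h4 h5 ((three w k1).symm.trans (three w h1))
        have l1 := congrArg List.length u1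
        have l2 := congrArg List.length u2
        rw [e1', e1] at l1
        rw [e2', e2] at l2
        omega
      have hi : i ∈ range (w.length + 1) := mem_range.2 (by omega)
      have hj : j ∈ range (w.length + 1) := mem_range.2 (by omega)
      rw [sum_eq_single_of_mem i hi fun i' _ hne => sum_eq_zero fun j' _ => by
        by_contra hc
        exact hne (key i' j' hc).1, sum_eq_single_of_mem j hj fun j' _ hne => by
        by_contra hc
        exact hne (key i j' hc).2]
      exact GG_le hF hf' hf1 hF1 hf1' w i j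
    · push Not at hex
      rw [sum_eq_zero fun i _ => sum_eq_zero fun j _ => hex i j]
      exact zero_le_one

end

end Pool.Agent.ROT.F3E
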