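import Pool.Agent.ROT.F3SysE
import Pool.Agent.ROT.F3SysL

/-!
# ROT, F3, row TOT (helper2): the masses of the start pairs

The closed words with two roots have a bounded mass, and the weight of the connections is at least `κ / N ^ 2` times the mass `tot` of
the start pairs in a cell: so the product of the two masses of start pairs is at most `C * N ^ (7 / 6)`.

* `mks_le` : with unique marks the sum over the marks of a function `≤ 1` is `≤ 1`;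
* **`tot_of`**.
-/

set_option autoImplicit false

namespace Pool.Agent.ROT.F3

open MeasureTheory Finset

open scoped ENNReal Classical

open Pool.Agent.ROT.F

/-- unique marks: the sum over the marks of a function `≤ 1` is `≤ 1` -/
theorem mks_le {C C' : Set (W3 × W3)} {RA RB : Set W3} (hU : Uq C C' RA RB) {H : W3 × W3 → W3 → W3 × W3 → W3 → ℝ≥0∞}
    (hH : ∀ a R c S, H a R c S ≠ 0 → a ∈ C ∧ R ∈ RA ∧ c ∈ C' ∧ S ∈ RB) (h1 : ∀ a R c S, H a R c S ≤ 1) (w : W3) (m : ℕ) :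
    MkS H w m ≤ 1 := by
  by_cases h : MkS H w m = 0
  · rw [h]
    exact zero_le
  · obtain ⟨a, R, c, S, hw, hm, hne⟩ := MkS_ne h
    obtain ⟨q1, q2, q3, q4⟩ := hH _ _ _ _ hne
    have hm' : m = a.1.length + R.length + c.1.length := by
      rw [← hm]
      simp only [List.length_append, List.length_reverse]
      ring
    rw [← hw, hm', MkS_uniq hU hH q1 q2 q3 q4]
    exact h1 _ _ _ _

/-- the sum over the rests and over the relative positions is at least ... -/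
private lemma low_sum {C C' : Set (W3 × W3)} {TA TB : Set W3} {κ κ' c : ℝ≥0∞} {tot tot' : ℝ≥0∞}
    (Z : W3 → W3 → Finset ℂ) (hZ : ∀ R ∈ TA, ∀ S ∈ TB, c ≤ ((Z R S).card : ℝ≥0∞) ∧ ∀ z ∈ Z R S, Dj R S z ∧
      κ * tot ≤ gam C (fun _ => 1) z ∧ κ' * tot' ≤ gam C' (fun _ => 1) (z + en R - en S)) :
    ms TA (fun _ => 1) * ms TB (fun _ => 1) * (c * ((κ * tot) * (κ' * tot'))) ≤
      ∑' (R : W3) (S : W3), if R ∈ TA ∧ S ∈ TB then wx R * 1 * (wx S * 1) *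
        ∑' z : ℂ, (if Dj R S z then gam C (fun _ => 1) z * gam C' (fun _ => 1) (z + en R - en S) else 0) else 0 := by
  unfold ms
  rw [← ENNReal.tsum_mul_right, ← ENNReal.tsum_mul_right]
  refine ENNReal.tsum_le_tsum fun R => ?_
  by_cases hR : R ∈ TA
  swap
  · rw [if_neg hR, zero_mul, zero_mul]
    exact zero_le
  rw [if_pos hR, ← ENNReal.tsum_mul_left, ← ENNReal.tsum_mul_right]
  refine ENNReal.tsum_le_tsum fun S => ?_
  by_cases hS : S ∈ TB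
  swap
  · rw [if_neg hS, mul_zero, zero_mul]
    exact zero_le
  rw [if_pos hS, if_pos ⟨hR, hS⟩]
  obtain ⟨h1, h2⟩ := hZ R hR S hS
  refine mul_le_mul_right ?_ _
  calc c * ((κ * tot) * (κ' * tot')) ≤ ((Z R S).card : ℝ≥0∞) * ((κ * tot) * (κ' * tot')) := mul_le_mul_left h1 _
    _ = ∑ z ∈ Z R S, (κ * tot) * (κ' * tot') := by rw [sum_const, nsmul_eq_mul]
    _ ≤ ∑ z ∈ Z R S, (if Dj R S z then gam C (fun _ => 1) z * gam C' (fun _ => 1) (z + en R - en S) else 0) := by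
      refine sum_le_sum fun z hz => ?_
      obtain ⟨h3, h4, h5⟩ := h2 z hz
      rw [if_pos h3]
      exact mul_le_mul' h4 h5
    _ ≤ _ := ENNReal.sum_le_tsum _

/-- **the product of the masses of the start pairs** -/
theorem tot_of (hQ : QB) {b κ κ' c c1 c2 : ℝ} (hb : 0 ≤ b) (hκ : 0 < κ) (hκ' : 0 < κ') (hc : 0 < c) (hc1 : 0 < c1)
    (hc2 : 0 < c2) : ∃ C0 : ℝ, 0 < C0 ∧ ∀ (N : ℕ) (C C' : Set (W3 × W3)) (TA TB : Set W3) (tot tot' : ℝ≥0∞)
      (Z : W3 → W3 → Finset ℂ), 1 ≤ N → Hyp C C' TA TB → Uq C C' TA TB →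
      SpH (PrH C C' TA TB (fun _ => 1) (fun _ => 1) (fun _ => 1) fun _ => 1) N b →
      ENNReal.ofReal (c1 * (N : ℝ) ^ (3 / 4 : ℝ)) ≤ ms TA (fun _ => 1) →
      ENNReal.ofReal (c2 * (N : ℝ) ^ (3 / 4 : ℝ)) ≤ ms TB (fun _ => 1) →
      (∀ R ∈ TA, ∀ S ∈ TB, c * (N : ℝ) ^ 2 ≤ ((Z R S).card : ℝ) ∧ ∀ z ∈ Z R S, Dj R S z ∧
        ENNReal.ofReal (κ / (N : ℝ) ^ 2) * tot ≤ gam C (fun _ => 1) z ∧
        ENNReal.ofReal (κ' / (N : ℝ) ^ 2) * tot' ≤ gam C' (fun _ => 1) (z + en R - en S)) →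
      tot * tot' ≤ ENNReal.ofReal (C0 * (N : ℝ) ^ (7 / 6 : ℝ)) := by
  obtain ⟨Cm, hCm, hm⟩ := mw_mass hQ hb
  obtain ⟨K, hK⟩ : ∃ K : ℝ, K = c1 * c2 * (c * (κ * κ')) := ⟨_, rfl⟩
  have hK0 : 0 < K := by
    rw [hK]
    positivity
  refine ⟨Cm / K, by positivity, fun N C C' TA TB tot tot' Z hN Hy hU hS hA hB hZ => ?_⟩
  have hN0 : (0 : ℝ) < N := by exact_mod_cast hN
  -- the mass
  have a1 : ∫⁻ x, MkS (PrH C C' TA TB (fun _ => 1) (fun _ => 1) (fun _ => 1) fun _ => 1) x.1 x.2 ∂(mw N b) ≤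
      ENNReal.ofReal Cm := by
    refine (lintegral_mono fun x => ?_).trans (b := ∫⁻ _, 1 ∂(mw N b)) ?_
    · refine mks_le hU (fun a R c S h => ?_) (fun a R c S => ?_) _ _
      · unfold PrH at h
        by_contra h2
        exact h (if_neg h2)
      · unfold PrH
        split_ifs
        · simp
        · exact zero_le
    · rw [lintegral_one]
      have := hm N
      rw [Measure.real] at this
      exact (ENNReal.le_ofReal_iff_toReal_le (measure_ne_top _ _) hCm.le).2 this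
  rw [mw_prod Hy _ _ _ _ hS] at a1
  have a2 := low_sum (C := C) (C' := C') (TA := TA) (TB := TB) (κ := ENNReal.ofReal (κ / (N : ℝ) ^ 2))
    (κ' := ENNReal.ofReal (κ' / (N : ℝ) ^ 2)) (c := ENNReal.ofReal (c * (N : ℝ) ^ 2)) (tot := tot) (tot' := tot') Z
    fun R hR S hS' => by
      obtain ⟨h1, h2⟩ := hZ R hR S hS'
      refine ⟨?_, h2⟩
      rw [← ENNReal.ofReal_natCast]
      exact ENNReal.ofReal_le_ofReal h1
  have a3 : ENNReal.ofReal ((N : ℝ) ^ (-(2 / 3) : ℝ)) * (ENNReal.ofReal (c1 * (N : ℝ) ^ (3 / 4 : ℝ)) *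
      ENNReal.ofReal (c2 * (N : ℝ) ^ (3 / 4 : ℝ)) * (ENNReal.ofReal (c * (N : ℝ) ^ 2) *
        ((ENNReal.ofReal (κ / (N : ℝ) ^ 2) * tot) * (ENNReal.ofReal (κ' / (N : ℝ) ^ 2) * tot')))) ≤ ENNReal.ofReal Cm := by
    refine le_trans ?_ a1
    exact mul_le_mul_right ((mul_le_mul_left (mul_le_mul' hA hB) _).trans a2) _
  have a4 : ENNReal.ofReal (K * (N : ℝ) ^ (-(7 / 6) : ℝ)) * (tot * tot') ≤ ENNReal.ofReal Cm := by
    refine le_trans (le_of_eq ?_) a3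
    have e1 : ENNReal.ofReal (K * (N : ℝ) ^ (-(7 / 6) : ℝ)) = ENNReal.ofReal ((N : ℝ) ^ (-(2 / 3) : ℝ)) *
        (ENNReal.ofReal (c1 * (N : ℝ) ^ (3 / 4 : ℝ)) * ENNReal.ofReal (c2 * (N : ℝ) ^ (3 / 4 : ℝ)) *
          (ENNReal.ofReal (c * (N : ℝ) ^ 2) * (ENNReal.ofReal (κ / (N : ℝ) ^ 2) * ENNReal.ofReal (κ' / (N : ℝ) ^ 2)))) := by
      rw [← ENNReal.ofReal_mul (by positivity), ← ENNReal.ofReal_mul (by positivity), ← ENNReal.ofReal_mul (by positivity),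
        ← ENNReal.ofReal_mul (by positivity), ← ENNReal.ofReal_mul (by positivity)]
      congr 1
      have e2 : (N : ℝ) ^ (-(7 / 6) : ℝ) = (N : ℝ) ^ (-(2 / 3) : ℝ) * ((N : ℝ) ^ (3 / 4 : ℝ) * (N : ℝ) ^ (3 / 4 : ℝ) /
          (N : ℝ) ^ 2) := by
        rw [← Real.rpow_natCast (N : ℝ) 2, ← Real.rpow_add hN0, ← Real.rpow_sub hN0, ← Real.rpow_add hN0]
        norm_num
      rw [e2, hK]
      field_simp
    rw [e1]
    ring
  have a5 : (0 : ℝ) < K * (N : ℝ) ^ (-(7 / 6) : ℝ) := by positivity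
  have a6 : tot * tot' ≤ ENNReal.ofReal Cm / ENNReal.ofReal (K * (N : ℝ) ^ (-(7 / 6) : ℝ)) := by
    rw [ENNReal.le_div_iff_mul_le (Or.inl (ENNReal.ofReal_pos.2 a5).ne') (Or.inl ENNReal.ofReal_ne_top), mul_comm]
    exact a4
  refine a6.trans (le_of_eq ?_)
  rw [← ENNReal.ofReal_div_of_pos a5]
  congr 1
  have e3 : (N : ℝ) ^ (-(7 / 6) : ℝ) = ((N : ℝ) ^ (7 / 6 : ℝ))⁻¹ := Real.rpow_neg hN0.le _
  rw [e3]
  have : (N : ℝ) ^ (7 / 6 : ℝ) ≠ 0 := (Real.rpow_pos_of_pos hN0 _).ne'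
  field_simp

end Pool.Agent.ROT.F3
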