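import Pool.Agent.ROT.F3SysE

/-!
# ROT / F3TotL (helper56): the product of the masses of the start pairs, from below

* `gam_tsum` : the sum over the displacements; `prod_up` : the mass of a product class from above;
* **`tot_low2`** : the closed words of the class have mass at least `p` ==> `tot * tot'` is at least `c N ^ (7 / 6)`.
-/

set_option autoImplicit false

open MeasureTheory Filter Topology Set
open scoped ENNReal NNReal Classical

namespace Pool.Agent.ROT.F3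

/-- the sum over the displacements -/
theorem gam_tsum (C : Set (W3 × W3)) (e : W3 × W3 → ℝ≥0∞) :
    ∑' z : ℂ, gam C e z = ∑' a : W3 × W3, if a ∈ C then wx a.1 * wx a.2 * e a else 0 := by
  unfold gam
  rw [ENNReal.tsum_comm]
  refine tsum_congr fun a => ?_
  rw [tsum_eq_single (en a.1 - en a.2) fun z hz => if_neg fun h => hz h.2.symm]
  by_cases ha : a ∈ C
  · rw [if_pos ⟨ha, rfl⟩, if_pos ha]
  · rw [if_neg fun h => ha h.1, if_neg ha]

/-- **a product class, from above** -/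
theorem prod_up {N : ℕ} {b : ℝ} {C C' : Set (W3 × W3)} {RA RB : Set W3} (Hy : Hyp C C' RA RB) (e e' : W3 × W3 → ℝ≥0∞)
    (F G : W3 → ℝ≥0∞) (hs : SpH (PrH C C' RA RB e e' F G) N b) {A A' B B' : ℝ≥0∞} (hA : ∑' z : ℂ, gam C e z ≤ A)
    (hA' : ∀ z : ℂ, gam C' e' z ≤ A') (hB : ms RA F ≤ B) (hB' : ms RB G ≤ B') :
    ∫⁻ x, MkS (PrH C C' RA RB e e' F G) x.1 x.2 ∂(mw N b) ≤
      ENNReal.ofReal ((N : ℝ) ^ (-(2 / 3) : ℝ)) * (B * B' * (A * A')) := by
  rw [mw_prod Hy e e' F G hs]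
  refine mul_le_mul_right ?_ _
  have h1 : ∀ (R S : W3), ∑' z : ℂ, (if Dj R S z then gam C e z * gam C' e' (z + en R - en S) else 0) ≤ A * A' := by
    intro R S
    calc ∑' z : ℂ, (if Dj R S z then gam C e z * gam C' e' (z + en R - en S) else 0) ≤ ∑' z : ℂ, gam C e z * A' := by
          refine ENNReal.tsum_le_tsum fun z => ?_
          split_ifs
          · exact mul_le_mul_right (hA' _) _
          · exact zero_le
      _ = (∑' z : ℂ, gam C e z) * A' := ENNReal.tsum_mul_right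
      _ ≤ A * A' := mul_le_mul_left hA _
  calc ∑' (R : W3) (S : W3), (if R ∈ RA ∧ S ∈ RB then wx R * F R * (wx S * G S) *
        ∑' z : ℂ, (if Dj R S z then gam C e z * gam C' e' (z + en R - en S) else 0) else 0) ≤
      ∑' (R : W3) (S : W3), (if R ∈ RA then wx R * F R else 0) * ((if S ∈ RB then wx S * G S else 0) * (A * A')) := by
        refine ENNReal.tsum_le_tsum fun R => ENNReal.tsum_le_tsum fun S => ?_
        by_cases h : R ∈ RA ∧ S ∈ RB
        · rw [if_pos h, if_pos h.1, if_pos h.2]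
          calc wx R * F R * (wx S * G S) * ∑' z : ℂ, (if Dj R S z then gam C e z * gam C' e' (z + en R - en S) else 0) ≤
                wx R * F R * (wx S * G S) * (A * A') := mul_le_mul_right (h1 R S) _
            _ = _ := by ring
        · rw [if_neg h]
          exact zero_le
    _ = ms RA F * (ms RB G * (A * A')) := by
        simp_rw [ENNReal.tsum_mul_left, ENNReal.tsum_mul_right]
        rfl
    _ ≤ B * (B' * (A * A')) := mul_le_mul' hB (mul_le_mul_left hB' _)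
    _ = _ := by ring

/-- **the product of the masses of the start pairs, from below** -/
theorem tot_low2 {b β β' B p : ℝ} (hβ : 0 < β) (hβ' : 0 < β') (hB : 0 < B) {N : ℕ} (hN : 1 ≤ N) {C C' : Set (W3 × W3)}
    {RA RB : Set W3} (Hy : Hyp C C' RA RB) {e e' : W3 × W3 → ℝ≥0∞} {F G : W3 → ℝ≥0∞} (hs : SpH (PrH C C' RA RB e e' F G) N b)
    {tot tot' : ℝ≥0∞} (hp : ENNReal.ofReal p ≤ ∫⁻ x, MkS (PrH C C' RA RB e e' F G) x.1 x.2 ∂(mw N b))
    (hA : ∑' z : ℂ, gam C e z ≤ tot) (hA' : ∀ z : ℂ, gam C' e' z ≤ ENNReal.ofReal (B / (N : ℝ) ^ 2) * tot')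
    (hR : ms RA F ≤ ENNReal.ofReal (β * (N : ℝ) ^ (3 / 4 : ℝ))) (hS : ms RB G ≤ ENNReal.ofReal (β' * (N : ℝ) ^ (3 / 4 : ℝ))) :
    ENNReal.ofReal (p / (β * β' * B) * (N : ℝ) ^ (7 / 6 : ℝ)) ≤ tot * tot' := by
  have hN0 : (0 : ℝ) < N := by exact_mod_cast hN
  have h1 := hp.trans (prod_up Hy e e' F G hs hA hA' hR hS)
  have h2 : ENNReal.ofReal ((N : ℝ) ^ (-(2 / 3) : ℝ)) * (ENNReal.ofReal (β * (N : ℝ) ^ (3 / 4 : ℝ)) *
      ENNReal.ofReal (β' * (N : ℝ) ^ (3 / 4 : ℝ)) * (tot * (ENNReal.ofReal (B / (N : ℝ) ^ 2) * tot'))) =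
      ENNReal.ofReal (β * β' * B * (N : ℝ) ^ (-(7 / 6) : ℝ)) * (tot * tot') := by
    have e1 : ENNReal.ofReal (β * β' * B * (N : ℝ) ^ (-(7 / 6) : ℝ)) = ENNReal.ofReal ((N : ℝ) ^ (-(2 / 3) : ℝ)) *
        (ENNReal.ofReal (β * (N : ℝ) ^ (3 / 4 : ℝ)) * (ENNReal.ofReal (β' * (N : ℝ) ^ (3 / 4 : ℝ)) *
          ENNReal.ofReal (B / (N : ℝ) ^ 2))) := by
      rw [← ENNReal.ofReal_mul (by positivity), ← ENNReal.ofReal_mul (by positivity), ← ENNReal.ofReal_mul (by positivity)]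
      congr 1
      have e2 : (N : ℝ) ^ (-(7 / 6) : ℝ) = (N : ℝ) ^ (-(2 / 3) : ℝ) * ((N : ℝ) ^ (3 / 4 : ℝ) * (N : ℝ) ^ (3 / 4 : ℝ) /
          (N : ℝ) ^ 2) := by
        rw [← Real.rpow_natCast (N : ℝ) 2, ← Real.rpow_add hN0, ← Real.rpow_sub hN0, ← Real.rpow_add hN0]
        norm_num
      rw [e2]
      field_simp
    rw [e1]
    ring
  rw [h2] at h1
  have h3 : ENNReal.ofReal (p / (β * β' * B) * (N : ℝ) ^ (7 / 6 : ℝ)) =
      ENNReal.ofReal ((β * β' * B)⁻¹ * (N : ℝ) ^ (7 / 6 : ℝ)) * ENNReal.ofReal p := by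
    rw [← ENNReal.ofReal_mul (by positivity)]
    congr 1
    field_simp
  rw [h3]
  refine (mul_le_mul_right h1 _).trans (le_of_eq ?_)
  rw [← mul_assoc, ← ENNReal.ofReal_mul (by positivity)]
  have h4 : (β * β' * B)⁻¹ * (N : ℝ) ^ (7 / 6 : ℝ) * (β * β' * B * (N : ℝ) ^ (-(7 / 6) : ℝ)) = 1 := by
    have : (N : ℝ) ^ (7 / 6 : ℝ) * (N : ℝ) ^ (-(7 / 6) : ℝ) = 1 := by
      rw [← Real.rpow_add hN0]
      norm_num
    have h0 : β * β' * B ≠ 0 := by positivity
    field_simp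
    linear_combination this
  rw [h4, ENNReal.ofReal_one, one_mul]

end Pool.Agent.ROT.F3
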