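import Pool.Agent.ROT.F3TotL

/-!
# ROT / F3TotO (helper56): closed words with one root, the mass of the start pairs from below

* `one_root` : words `a.1 ++ (R ++ a.2.reverse)`, `a` in `C`, `R` in `Rs`, with `en a.1 + en R = en a.2` : the mass is at most
  (sup of `gam`) times the mass of `Rs`;
* **`tot_of_one`** : mass at least `c N ^ (- 2 / 3)` ==> `tot` is at least `c' N ^ (7 / 12)`.
-/

set_option autoImplicit false

open MeasureTheory Filter Topology Set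
open scoped ENNReal NNReal Classical
open Pool.Agent.NTS.Res (fug)

namespace Pool.Agent.ROT.F3

/-- **closed words with one root** -/
theorem one_root {C : Set (W3 × W3)} {Rs : Set W3} {A B : ℝ≥0∞} (hA : ∀ z : ℂ, gam C (fun _ => 1) z ≤ A)
    (hB : ms Rs (fun _ => 1) ≤ B) {V : Set W3}
    (hV : ∀ w ∈ V, ∃ a ∈ C, ∃ R ∈ Rs, w = a.1 ++ (R ++ a.2.reverse) ∧ en a.1 + en R = en a.2) :
    (∑' w : W3, if w ∈ V then wx w else 0) ≤ A * B := by
  have h1 : ∀ w : W3, (if w ∈ V then wx w else 0) ≤ ∑' R : W3, ∑' a : W3 × W3,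
      if w = a.1 ++ (R ++ a.2.reverse) ∧ R ∈ Rs ∧ (a ∈ C ∧ en a.1 - en a.2 = -en R) then wx R * (wx a.1 * wx a.2 * 1) else 0 := by
    intro w
    by_cases hw : w ∈ V
    · rw [if_pos hw]
      obtain ⟨a, ha, R, hR, e1, e2⟩ := hV w hw
      refine le_trans ?_ (ENNReal.le_tsum R)
      refine le_trans ?_ (ENNReal.le_tsum a)
      rw [if_pos ⟨e1, hR, ha, by linear_combination e2⟩, e1, wx_append, wx_append, wx_reverse]
      exact le_of_eq (by ring)
    · rw [if_neg hw]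
      exact zero_le
  refine (ENNReal.tsum_le_tsum h1).trans ?_
  rw [ENNReal.tsum_comm]
  have h2 : ∀ R : W3, ∑' w : W3, ∑' a : W3 × W3, (if w = a.1 ++ (R ++ a.2.reverse) ∧ R ∈ Rs ∧ (a ∈ C ∧ en a.1 - en a.2 = -en R)
      then wx R * (wx a.1 * wx a.2 * 1) else 0) = if R ∈ Rs then wx R * gam C (fun _ => 1) (-en R) else 0 := by
    intro R
    rw [ENNReal.tsum_comm]
    have h3 : ∀ a : W3 × W3, ∑' w : W3, (if w = a.1 ++ (R ++ a.2.reverse) ∧ R ∈ Rs ∧ (a ∈ C ∧ en a.1 - en a.2 = -en R)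
        then wx R * (wx a.1 * wx a.2 * 1) else 0) =
        if R ∈ Rs ∧ (a ∈ C ∧ en a.1 - en a.2 = -en R) then wx R * (wx a.1 * wx a.2 * 1) else 0 := by
      intro a
      rw [tsum_eq_single (a.1 ++ (R ++ a.2.reverse)) fun w hw => if_neg fun h => hw h.1]
      by_cases h4 : R ∈ Rs ∧ (a ∈ C ∧ en a.1 - en a.2 = -en R)
      · rw [if_pos ⟨rfl, h4⟩, if_pos h4]
      · rw [if_neg fun h => h4 h.2, if_neg h4]
    rw [tsum_congr h3]
    by_cases hR : R ∈ Rs
    · rw [if_pos hR]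
      unfold gam
      rw [← ENNReal.tsum_mul_left]
      refine tsum_congr fun a => ?_
      by_cases h4 : a ∈ C ∧ en a.1 - en a.2 = -en R
      · rw [if_pos ⟨hR, h4⟩, if_pos h4]
      · rw [if_neg fun h => h4 h.2, if_neg h4, mul_zero]
    · rw [if_neg hR]
      exact ENNReal.tsum_eq_zero.2 fun a => if_neg fun h => hR h.1
  rw [tsum_congr h2]
  calc ∑' R : W3, (if R ∈ Rs then wx R * gam C (fun _ => 1) (-en R) else 0) ≤ ∑' R : W3, A * (if R ∈ Rs then wx R * 1 else 0) := by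
        refine ENNReal.tsum_le_tsum fun R => ?_
        by_cases hR : R ∈ Rs
        · rw [if_pos hR, if_pos hR, mul_one, mul_comm]
          exact mul_le_mul_left (hA _) _
        · rw [if_neg hR]
          exact zero_le
    _ = A * ms Rs (fun _ => 1) := by
        rw [ENNReal.tsum_mul_left]
        rfl
    _ ≤ A * B := mul_le_mul_right hB _

/-- **the mass of the start pairs, from below** -/
theorem tot_of_one {β B c : ℝ} (hβ : 0 < β) (hB : 0 < B) {N : ℕ} (hN : 1 ≤ N) {C : Set (W3 × W3)} {Rs : Set W3} {tot : ℝ≥0∞}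
    (hA : ∀ z : ℂ, gam C (fun _ => 1) z ≤ ENNReal.ofReal (B / (N : ℝ) ^ 2) * tot)
    (hR : ms Rs (fun _ => 1) ≤ ENNReal.ofReal (β * (N : ℝ) ^ (3 / 4 : ℝ))) {V : Set W3}
    (hV : ∀ w ∈ V, ∃ a ∈ C, ∃ R ∈ Rs, w = a.1 ++ (R ++ a.2.reverse) ∧ en a.1 + en R = en a.2)
    (hc : ENNReal.ofReal (c * (N : ℝ) ^ (-(2 / 3) : ℝ)) ≤ ∑' w : W3, if w ∈ V then wx w else 0) :
    ENNReal.ofReal (c / (β * B) * (N : ℝ) ^ (7 / 12 : ℝ)) ≤ tot := by
  have hN0 : (0 : ℝ) < N := by exact_mod_cast hN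
  have h1 := hc.trans (one_root hA hR hV)
  have h2 : ENNReal.ofReal (B / (N : ℝ) ^ 2) * tot * ENNReal.ofReal (β * (N : ℝ) ^ (3 / 4 : ℝ)) =
      ENNReal.ofReal (β * B * (N : ℝ) ^ (-(5 / 4) : ℝ)) * tot := by
    have e1 : ENNReal.ofReal (β * B * (N : ℝ) ^ (-(5 / 4) : ℝ)) = ENNReal.ofReal (B / (N : ℝ) ^ 2) *
        ENNReal.ofReal (β * (N : ℝ) ^ (3 / 4 : ℝ)) := by
      rw [← ENNReal.ofReal_mul (by positivity)]
      congr 1
      have e2 : (N : ℝ) ^ (-(5 / 4) : ℝ) = (N : ℝ) ^ (3 / 4 : ℝ) / (N : ℝ) ^ 2 := by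
        rw [← Real.rpow_natCast (N : ℝ) 2, ← Real.rpow_sub hN0]
        norm_num
      rw [e2]
      field_simp
    rw [e1]
    ring
  rw [h2] at h1
  have h3 : ENNReal.ofReal (c / (β * B) * (N : ℝ) ^ (7 / 12 : ℝ)) =
      ENNReal.ofReal ((β * B)⁻¹ * (N : ℝ) ^ (5 / 4 : ℝ)) * ENNReal.ofReal (c * (N : ℝ) ^ (-(2 / 3) : ℝ)) := by
    rw [← ENNReal.ofReal_mul (by positivity)]
    congr 1
    have e2 : (N : ℝ) ^ (7 / 12 : ℝ) = (N : ℝ) ^ (5 / 4 : ℝ) * (N : ℝ) ^ (-(2 / 3) : ℝ) := by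
      rw [← Real.rpow_add hN0]
      norm_num
    rw [e2]
    field_simp
  rw [h3]
  refine (mul_le_mul_right h1 _).trans (le_of_eq ?_)
  rw [← mul_assoc, ← ENNReal.ofReal_mul (by positivity)]
  have h4 : (β * B)⁻¹ * (N : ℝ) ^ (5 / 4 : ℝ) * (β * B * (N : ℝ) ^ (-(5 / 4) : ℝ)) = 1 := by
    have : (N : ℝ) ^ (5 / 4 : ℝ) * (N : ℝ) ^ (-(5 / 4) : ℝ) = 1 := by
      rw [← Real.rpow_add hN0]
      norm_num
    have h0 : β * B ≠ 0 := by positivity
    field_simp
    linear_combination this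
  rw [h4, ENNReal.ofReal_one, one_mul]

/-- sums over lengths as sums over words -/
theorem sum_len {A : ℕ → Set W3} (hA : ∀ m, ∀ w ∈ A m, w.length = m) (I : Finset ℕ) :
    ENNReal.ofReal (∑ m ∈ I, ((A m).ncard : ℝ) * fug ^ m) = ∑' w : W3, if ∃ m ∈ I, w ∈ A m then wx w else 0 := by
  have hfin : ∀ m, (A m).Finite := fun m => by
    refine ((List.finite_length_eq (Fin 3) m)).subset fun w hw => ?_
    exact hA m w hw
  rw [ENNReal.ofReal_sum_of_nonneg fun m _ => mul_nonneg (Nat.cast_nonneg _) (pow_nonneg fug_nn _)]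
  have h1 : ∀ w : W3, (if ∃ m ∈ I, w ∈ A m then wx w else 0) = ∑ m ∈ I, if w ∈ A m then wx w else 0 := by
    intro w
    by_cases h : ∃ m ∈ I, w ∈ A m
    · rw [if_pos h]
      obtain ⟨m, hm, hw⟩ := h
      rw [Finset.sum_eq_single_of_mem m hm fun k hk hne => if_neg fun hw' => hne (by rw [← hA m w hw, ← hA k w hw']), if_pos hw]
    · rw [if_neg h]
      exact (Finset.sum_eq_zero fun m hm => if_neg fun hw => h ⟨m, hm, hw⟩).symm
  rw [tsum_congr h1, Summable.tsum_finsetSum fun m _ => ENNReal.summable]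
  refine Finset.sum_congr rfl fun m _ => ?_
  have h2 : ∀ w : W3, (if w ∈ A m then wx w else 0) = if w ∈ A m then ENNReal.ofReal (fug ^ m) else 0 := by
    intro w
    by_cases hw : w ∈ A m
    · rw [if_pos hw, if_pos hw]
      unfold wx
      rw [hA m w hw, ENNReal.ofReal_pow fug_nn]
    · rw [if_neg hw, if_neg hw]
  rw [tsum_congr h2, tsum_eq_sum (s := (hfin m).toFinset) fun w hw => if_neg fun h => hw ((hfin m).mem_toFinset.2 h)]
  rw [Finset.sum_congr rfl fun w hw => if_pos ((hfin m).mem_toFinset.1 hw), Finset.sum_const, nsmul_eq_mul,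
    ENNReal.ofReal_mul (Nat.cast_nonneg _), ENNReal.ofReal_natCast, Set.ncard_eq_toFinset_card _ (hfin m)]

end Pool.Agent.ROT.F3
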