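import Pool.Agent.ROT.F3N1R
import Pool.Agent.ROT.F3N1W
import Pool.Agent.ROT.F3GamP
import Pool.Agent.ROT.F3NormT
import Pool.Agent.ROT.F3TotO

/-!
# ROT / F3TotW (helper89): the weight of the start pairs from below (row LT)

* `RatW ζ P` : scale free inequalities of the data; `RatW.armK` : room for straight arms;
* **`tot_low`** : the weight of the start pairs of the class `Pai` is at least `c N ^ (7/12)`, all directions `i ≠ j`, the two strands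
  may have different levels; inputs: helper87's `n1W`, helper48's `rw_arms`, helper69's `sup_pai`, helper56's `beta_up`, `tot_of_one`.
-/

set_option autoImplicit false

namespace Pool.Agent.ROT.F3

open Finset
open Pool.Agent.NTS.Res (step pos saw fug)
open N1W (ArmW REvW RW ArmK rw_arms)
open scoped ENNReal Classical

/-- scale free inequalities of the data of a gate -/
structure RatW (ζ : ℝ) (P : Tp) : Prop where
  l : ζ * P.m ≤ P.l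
  r : P.l + ζ * P.m ≤ P.r
  κ1 : ζ * P.m ≤ P.κ1
  κ : ζ * P.m ≤ P.κ
  e : P.e + ζ * P.m ≤ (1 - P.cs) * P.l
  th : P.th ≤ 1 - ζ
  w : ζ * P.m ≤ P.w
  L : ζ * P.l ≤ P.m

/-- room for straight arms of width `ζ / 100 * m` -/
lemma RatW.armK {ζ : ℝ} (hζ : 0 < ζ) {P : Tp} (hP : P.Ok) (h : RatW ζ P) {K : ℝ} (hK : (200 / ζ + 300) / ζ + 61 < K) :
    ArmK P (ζ / 100 * P.m) K := by
  have hm := hP.m
  have hζ1 : ζ < 1 := by linarith [h.th, hP.th]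
  have hζm : 0 < ζ * P.m := mul_pos hζ hm
  have hl : P.l ≤ P.m / ζ := by
    rw [le_div_iff₀ hζ, mul_comm]
    exact h.L
  have h200 : 0 < (200 / ζ + 300) / ζ := by positivity
  have hKK : 2 * (P.l + P.m) + 61 * (ζ / 100 * P.m) < K * (ζ / 100 * P.m) := by
    have h1 : ((200 / ζ + 300) / ζ + 61) * (ζ / 100 * P.m) < K * (ζ / 100 * P.m) :=
      mul_lt_mul_of_pos_right hK (by positivity)
    have h2 : ((200 / ζ + 300) / ζ + 61) * (ζ / 100 * P.m) = 2 * (P.m / ζ) + 3 * P.m + 61 * (ζ / 100 * P.m) := by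
      field_simp
      ring
    linarith
  have hth : P.th * P.m ≤ (1 - ζ) * P.m := mul_le_mul_of_nonneg_right h.th hm.le
  have hm1 : ζ * P.m ≤ 1 * P.m := mul_le_mul_of_nonneg_right hζ1.le hm.le
  refine ⟨by positivity, by linarith, ?_, ?_, ?_, ?_, ?_, ?_, ?_, ?_, ?_, hKK⟩
  · linarith [h.l]
  · linarith [h.r]
  · linarith [hP.m22]
  · linarith [h.κ1]
  · linarith [h.κ]
  · linarith [h.e]
  · linarith
  · linarith [h.w]
  · linarith [hP.l]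

/-- one pair of directions -/
private theorem tot_low' {ζ : ℝ} (hζ : 0 < ζ) {i j : Fin 3} (hij : i ≠ j) : ∃ A : ℝ, 0 < A ∧ ∀ P P' : Tp, P.Ok → P'.Ok →
    P'.m = P.m → P'.th = P.th → RatW ζ P → RatW ζ P' →
    A * P.m ^ (4 / 3 : ℝ) ≤ P.la → A * P.m ^ (4 / 3 : ℝ) ≤ P.lb → A * P.m ^ (4 / 3 : ℝ) ≤ P'.la → A * P.m ^ (4 / 3 : ℝ) ≤ P'.lb →
    ∃ c N0 : ℝ, 0 < c ∧ 1 ≤ N0 ∧ ∀ N : ℕ, N0 ≤ N →
      ENNReal.ofReal (c * (N : ℝ) ^ (7 / 12 : ℝ)) ≤ totQ (ev i) (ev j) P P' N (uT N) (fun _ => 1) := by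
  obtain ⟨K, hK⟩ : ∃ K : ℕ, (200 / ζ + 300) / ζ + 61 < K := exists_nat_gt _
  obtain ⟨c, A, b, d0, hc, hA, hb, hd0, h⟩ := N1W.n1W K hij
  refine ⟨A * (ζ / 100) ^ (4 / 3 : ℝ), by positivity, fun P P' hP hP' hPm hPth hR hR' a1 a2 a3 a4 => ?_⟩
  have hm := hP.m
  obtain ⟨κ, hκ⟩ : ∃ κ : ℝ, κ = ζ / 100 * P.m := ⟨_, rfl⟩
  have hκ0 : 0 < κ := by
    rw [hκ]
    positivity
  have k1 : ArmK P κ K := by
    rw [hκ]
    exact hR.armK hζ hP hK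
  have k2 : ArmK P' κ K := by
    rw [hκ, ← hPm]
    exact hR'.armK hζ hP' hK
  have hκm : 17 * κ < P.m / 2 := by
    have hζ1 : ζ < 1 := by linarith [hR.th, hP.th]
    have : ζ * P.m ≤ 1 * P.m := mul_le_mul_of_nonneg_right hζ1.le hm.le
    rw [hκ]
    linarith
  have hA' : A * (ζ / 100) ^ (4 / 3 : ℝ) * P.m ^ (4 / 3 : ℝ) = A * κ ^ (4 / 3 : ℝ) := by
    rw [hκ, Real.mul_rpow (by positivity) hm.le]
    ring
  rw [hA'] at a1 a2 a3 a4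
  have hBp : 0 < 4 * b * κ ^ (4 / 3 : ℝ) := by positivity
  obtain ⟨β, Nβ, hβ, hNβ, hup⟩ := Nm.beta_up (P.m / 2) (P.m / 2) (4 * b * κ ^ (4 / 3 : ℝ)) (by positivity) (by positivity) hBp
  obtain ⟨c1, hc1⟩ : ∃ c1 : ℝ, c1 = c * (2 * (b * κ ^ (4 / 3 : ℝ))) ^ (-(1 / 2) : ℝ) := ⟨_, rfl⟩
  have hc10 : 0 < c1 := by
    rw [hc1]
    positivity
  have hBQ : 0 < BQ P + 1 := by linarith [BQ_nonneg P]
  obtain ⟨N1, hN1⟩ : ∃ N1 : ℝ, N1 = max (max Nβ (d0 / κ)) (max 1 (1 / (b * κ ^ (4 / 3 : ℝ)))) := ⟨_, rfl⟩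
  refine ⟨c1 / (β * (BQ P + 1)), N1, by positivity, ?_, fun N hN => ?_⟩
  · rw [hN1]
    exact (le_max_left _ _).trans (le_max_right _ _)
  rw [hN1] at hN
  have n1 : Nβ ≤ N := ((le_max_left _ _).trans (le_max_left _ _)).trans hN
  have n2 : d0 / κ ≤ N := ((le_max_right _ _).trans (le_max_left _ _)).trans hN
  have n3 : (1 : ℝ) ≤ N := ((le_max_left _ _).trans (le_max_right _ _)).trans hN
  have n4 : 1 / (b * κ ^ (4 / 3 : ℝ)) ≤ N := ((le_max_right _ _).trans (le_max_right _ _)).trans hN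
  have hN1' : 1 ≤ N := by exact_mod_cast n3
  have hN0 : (0 : ℝ) < N := by linarith
  have hN43 : (N : ℝ) ≤ (N : ℝ) ^ (4 / 3 : ℝ) := by
    conv_lhs => rw [← Real.rpow_one (N : ℝ)]
    exact Real.rpow_le_rpow_of_exponent_le n3 (by norm_num)
  have hdκ : d0 ≤ κ * N := by
    rwa [div_le_iff₀' hκ0] at n2
  have e43 : (κ * (N : ℝ)) ^ (4 / 3 : ℝ) = κ ^ (4 / 3 : ℝ) * (N : ℝ) ^ (4 / 3 : ℝ) := Real.mul_rpow hκ0.le hN0.le
  have hbκ : 0 < b * κ ^ (4 / 3 : ℝ) := by positivity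
  have hb1 : 1 ≤ b * (κ * (N : ℝ)) ^ (4 / 3 : ℝ) := by
    rw [div_le_iff₀' hbκ] at n4
    rw [e43]
    calc (1 : ℝ) ≤ b * κ ^ (4 / 3 : ℝ) * N := n4
      _ ≤ b * κ ^ (4 / 3 : ℝ) * (N : ℝ) ^ (4 / 3 : ℝ) := mul_le_mul_of_nonneg_left hN43 hbκ.le
      _ = _ := by ring
  obtain ⟨n, hn⟩ : ∃ n : ℕ, n = ⌈b * (κ * (N : ℝ)) ^ (4 / 3 : ℝ)⌉₊ := ⟨_, rfl⟩
  have hn1 : b * (κ * (N : ℝ)) ^ (4 / 3 : ℝ) ≤ n := by
    rw [hn]
    exact Nat.le_ceil _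
  have hn2 : (n : ℝ) ≤ 2 * (b * (κ * (N : ℝ)) ^ (4 / 3 : ℝ)) := by
    have : (n : ℝ) < b * (κ * (N : ℝ)) ^ (4 / 3 : ℝ) + 1 := by
      rw [hn]
      exact Nat.ceil_lt_add_one (by linarith)
    linarith
  have hnpos : (0 : ℝ) < n := by linarith
  have hmass := h (κ * N) n hdκ hn1
  have hlow : c1 * (N : ℝ) ^ (-(2 / 3) : ℝ) ≤ c * (n : ℝ) ^ (-(1 / 2) : ℝ) := by
    have h1 : (2 * (b * (κ * (N : ℝ)) ^ (4 / 3 : ℝ))) ^ (-(1 / 2) : ℝ) ≤ (n : ℝ) ^ (-(1 / 2) : ℝ) :=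
      Real.rpow_le_rpow_of_nonpos hnpos hn2 (by norm_num)
    have h2 : (2 * (b * (κ * (N : ℝ)) ^ (4 / 3 : ℝ))) ^ (-(1 / 2) : ℝ) =
        (2 * (b * κ ^ (4 / 3 : ℝ))) ^ (-(1 / 2) : ℝ) * (N : ℝ) ^ (-(2 / 3) : ℝ) := by
      have e1 : 2 * (b * (κ * (N : ℝ)) ^ (4 / 3 : ℝ)) = 2 * (b * κ ^ (4 / 3 : ℝ)) * (N : ℝ) ^ (4 / 3 : ℝ) := by
        rw [e43]
        ring
      rw [e1, Real.mul_rpow (by positivity) (by positivity), ← Real.rpow_mul hN0.le]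
      norm_num
    rw [hc1, mul_assoc, ← h2]
    exact mul_le_mul_of_nonneg_left h1 hc.le
  have hlen := sum_len (A := fun m => RW K (κ * N) (A * (κ * N) ^ (4 / 3 : ℝ)) i j m) (fun m w hw => hw.1.2) (Icc n (2 * n))
  refine tot_of_one (β := β) (B := BQ P + 1) (c := c1) hβ hBQ hN1' (C := Pai (ev i) (ev j) P P' N (uT N))
    (Rs := {R | RsC (ev i) (ev j) (P.m / 2 * N) (P.m / 2 * N) (P.m / 2 * N) R ∧
      (R.length : ℝ) ≤ 4 * b * κ ^ (4 / 3 : ℝ) * (N : ℝ) ^ (4 / 3 : ℝ)}) (fun z => ?_) (hup N n1 i j _ fun R hR => hR)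
    (V := {w | ∃ m ∈ Icc n (2 * n), w ∈ RW K (κ * N) (A * (κ * N) ^ (4 / 3 : ℝ)) i j m}) (fun w hw => ?_) ?_
  · refine (sup_pai hij hP hP' hPm hPth hN1' (f := fun _ => 1) (e0 := fun _ => 1) (fun _ _ _ _ _ _ => le_rfl) z).trans ?_
    refine mul_le_mul_left (ENNReal.ofReal_le_ofReal ?_) _
    exact div_le_div_of_nonneg_right (by linarith) (by positivity)
  · obtain ⟨m, hm2, hw1, hw2⟩ := hw
    rw [mem_Icc] at hm2
    have hcl := hw1.1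
    have e1 : A * (κ * (N : ℝ)) ^ (4 / 3 : ℝ) = A * κ ^ (4 / 3 : ℝ) * uT N := by
      rw [e43]
      unfold uT
      ring
    have hT : 0 ≤ uT N := by
      unfold uT
      positivity
    rw [e1, ← ev_ax, ← ev_ax] at hw2
    obtain ⟨p1, p2, R, q1, q2, f1, f2, f3⟩ := rw_arms hij hP hP' (κ := κ) (K := K) (S := N) (T := uT N)
      (ρ := P.m / 2) hN0 k1 k2 (by linarith [hP.l]) (by linarith [hP'.l]) (mul_le_mul_of_nonneg_right a1 hT)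
      (mul_le_mul_of_nonneg_right a2 hT) (mul_le_mul_of_nonneg_right a3 hT) (mul_le_mul_of_nonneg_right a4 hT) hcl hw2
    have g1 := f2.p1.g.tip.ev
    have g2 := f2.p2.g.tip.ev
    simp only at g1 g2
    refine ⟨(p1, p2), ⟨q1, q2, f2⟩, R, ⟨f3, ?_⟩, f1, ?_⟩
    · have h1 : R.length ≤ w.length := by
        rw [f1, List.length_append, List.length_append]
        omega
      have h2 : w.length = m := hw1.2
      have h3 : (R.length : ℝ) ≤ 2 * n := by exact_mod_cast (by omega : R.length ≤ 2 * n)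
      rw [e43] at hn2
      linarith
    · have h1 : en w = 0 := hcl.2.1
      rw [f1, en_append g1, en_append f3.ev, en_reverse g2] at h1
      simp only
      linear_combination h1
  · refine le_trans (ENNReal.ofReal_le_ofReal (hlow.trans hmass)) (le_of_eq ?_)
    refine hlen.trans (tsum_congr fun w => ?_)
    congr

/-- **the weight of the start pairs from below** (row LT): one constant `A` for all pairs of directions -/
theorem tot_low {ζ : ℝ} (hζ : 0 < ζ) : ∃ A : ℝ, 0 < A ∧ ∀ {i j : Fin 3}, i ≠ j → ∀ P P' : Tp, P.Ok → P'.Ok →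
    P'.m = P.m → P'.th = P.th → RatW ζ P → RatW ζ P' →
    A * P.m ^ (4 / 3 : ℝ) ≤ P.la → A * P.m ^ (4 / 3 : ℝ) ≤ P.lb → A * P.m ^ (4 / 3 : ℝ) ≤ P'.la → A * P.m ^ (4 / 3 : ℝ) ≤ P'.lb →
    ∃ c N0 : ℝ, 0 < c ∧ 1 ≤ N0 ∧ ∀ N : ℕ, N0 ≤ N →
      ENNReal.ofReal (c * (N : ℝ) ^ (7 / 12 : ℝ)) ≤ totQ (ev i) (ev j) P P' N (uT N) (fun _ => 1) := by
  have key : ∀ p : Fin 3 × Fin 3, ∃ A : ℝ, 0 < A ∧ (p.1 ≠ p.2 → ∀ P P' : Tp, P.Ok → P'.Ok →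
      P'.m = P.m → P'.th = P.th → RatW ζ P → RatW ζ P' →
      A * P.m ^ (4 / 3 : ℝ) ≤ P.la → A * P.m ^ (4 / 3 : ℝ) ≤ P.lb → A * P.m ^ (4 / 3 : ℝ) ≤ P'.la → A * P.m ^ (4 / 3 : ℝ) ≤ P'.lb →
      ∃ c N0 : ℝ, 0 < c ∧ 1 ≤ N0 ∧ ∀ N : ℕ, N0 ≤ N →
        ENNReal.ofReal (c * (N : ℝ) ^ (7 / 12 : ℝ)) ≤ totQ (ev p.1) (ev p.2) P P' N (uT N) (fun _ => 1)) := by
    rintro ⟨i, j⟩
    by_cases hij : i = j
    · exact ⟨1, one_pos, fun h => absurd hij h⟩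
    · obtain ⟨A, hA, h⟩ := tot_low' hζ hij
      exact ⟨A, hA, fun _ => h⟩
  choose A hA h using key
  refine ⟨∑ p, A p, sum_pos (fun p _ => hA p) univ_nonempty, fun {i j} hij P P' hP hP' hPm hPth hR hR' a1 a2 a3 a4 => ?_⟩
  have hle : A (i, j) * P.m ^ (4 / 3 : ℝ) ≤ (∑ p, A p) * P.m ^ (4 / 3 : ℝ) := by
    refine mul_le_mul_of_nonneg_right ?_ (Real.rpow_nonneg hP.m.le _)
    exact single_le_sum (f := A) (fun p _ => (hA p).le) (mem_univ _)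
  exact h (i, j) hij P P' hP hP' hPm hPth hR hR' (hle.trans a1) (hle.trans a2) (hle.trans a3) (hle.trans a4)

end Pool.Agent.ROT.F3
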