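import Mathlib

set_option autoImplicit false

/-!
The three-arc (triangle) lemma in the form of finitely many numbers.

`x, x'` are the normalised masses of the pieces (tubes) of the main arc on the
two lattices, `y, y'` and `z, z'` the masses of the two companions, `p, q, r`
the common masses of the pairs (1,2), (1,3), (2,3) of disjoint arcs.
-/

namespace HexObs
namespace ROT
namespace F3

open Finset

theorem sq_sub_le {a b t : ℝ} (ha : 0 ≤ a) (hb : 0 ≤ b) (h : |a ^ 2 - b ^ 2| ≤ t) :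
    |a - b| ≤ Real.sqrt t := by
  apply Real.le_sqrt_of_sq_le
  refine le_trans ?_ h
  rw [show a ^ 2 - b ^ 2 = (a - b) * (a + b) by ring, abs_mul, pow_two]
  apply mul_le_mul_of_nonneg_left _ (abs_nonneg _)
  rw [abs_of_nonneg (by linarith : 0 ≤ a + b)]
  rw [abs_le]; constructor <;> linarith

/-- One cell: the quotient of the three pair masses is the square of the main mass. -/
theorem tri_cell {x y z p q r c d e δ : ℝ} (hx : 0 ≤ x) (hx1 : x ≤ 1)
    (hy : 0 < y) (hz : 0 < z) (hc : 0 < c) (hd : 0 < d) (he : 0 < e)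
    (hδ : 0 ≤ δ) (hδ2 : δ ≤ 1 / 2)
    (h12 : |p - c * x * y| ≤ δ * (c * y)) (h13 : |q - d * x * z| ≤ δ * (d * z))
    (h23 : |r - e * y * z| ≤ δ * (e * y * z)) :
    |p * q / r / (c * d / e) - x ^ 2| ≤ 8 * δ := by
  set u : ℝ := p / (c * y) with hu
  set v : ℝ := q / (d * z) with hv
  set w : ℝ := r / (e * y * z) with hw
  have hcy : 0 < c * y := mul_pos hc hy
  have hdz : 0 < d * z := mul_pos hd hz
  have heyz : 0 < e * y * z := mul_pos (mul_pos he hy) hz
  have hu1 : |u - x| ≤ δ := by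
    have : u - x = (p - c * x * y) / (c * y) := by rw [hu]; field_simp
    rw [this, abs_div, abs_of_pos hcy, div_le_iff₀ hcy]; exact h12
  have hv1 : |v - x| ≤ δ := by
    have : v - x = (q - d * x * z) / (d * z) := by rw [hv]; field_simp
    rw [this, abs_div, abs_of_pos hdz, div_le_iff₀ hdz]; exact h13
  have hw1 : |w - 1| ≤ δ := by
    have : w - 1 = (r - e * y * z) / (e * y * z) := by rw [hw]; field_simp
    rw [this, abs_div, abs_of_pos heyz, div_le_iff₀ heyz]; exact h23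
  have hwpos : 1 / 2 ≤ w := by
    rw [abs_le] at hw1; linarith [hw1.1]
  have hw0 : 0 < w := by linarith
  have hr0 : r ≠ 0 := by
    intro h0
    rw [h0] at hw
    have : w = 0 := by rw [hw]; simp
    linarith
  have key : p * q / r / (c * d / e) = u * v / w := by
    rw [hu, hv, hw]; field_simp
  rw [key]
  have h1 : |u * v - x ^ 2| ≤ 3 * δ := by
    have : u * v - x ^ 2 = (u - x) * (v - x) + x * (u - x) + x * (v - x) := by ring
    rw [this]
    have a1 : |(u - x) * (v - x)| ≤ δ * δ := by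
      rw [abs_mul]; exact mul_le_mul hu1 hv1 (abs_nonneg _) hδ
    have a2 : |x * (u - x)| ≤ δ := by
      rw [abs_mul, abs_of_nonneg hx]
      calc x * |u - x| ≤ 1 * δ := mul_le_mul hx1 hu1 (abs_nonneg _) zero_le_one
        _ = δ := one_mul δ
    have a3 : |x * (v - x)| ≤ δ := by
      rw [abs_mul, abs_of_nonneg hx]
      calc x * |v - x| ≤ 1 * δ := mul_le_mul hx1 hv1 (abs_nonneg _) zero_le_one
        _ = δ := one_mul δ
    have a4 := abs_add_three ((u - x) * (v - x)) (x * (u - x)) (x * (v - x))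
    nlinarith
  have h2 : u * v / w - x ^ 2 = ((u * v - x ^ 2) - x ^ 2 * (w - 1)) / w := by
    field_simp; ring
  rw [h2, abs_div, abs_of_pos hw0, div_le_iff₀ hw0]
  have h3 : |x ^ 2 * (w - 1)| ≤ δ := by
    rw [abs_mul, abs_of_nonneg (sq_nonneg x)]
    have : x ^ 2 ≤ 1 := by nlinarith
    calc x ^ 2 * |w - 1| ≤ 1 * δ := mul_le_mul this hw1 (abs_nonneg _) zero_le_one
      _ = δ := one_mul δ
  have h4 := abs_sub (u * v - x ^ 2) (x ^ 2 * (w - 1))
  nlinarith

/-- **The triangle lemma.** If the masses of the pairs are, on both lattices, products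
of a constant, of the mass of the main arc and of the mass of the companion, then
the two laws of the main arc agree. -/
theorem tri_num {ι : Type*} (A : Finset ι) {x x' y y' z z' p q r : ι → ℝ}
    {c d e c' d' e' δ ε η : ℝ}
    (hc : 0 < c) (hd : 0 < d) (he : 0 < e) (hc' : 0 < c') (hd' : 0 < d') (he' : 0 < e')
    (hx : ∀ a ∈ A, 0 ≤ x a) (hx' : ∀ a ∈ A, 0 ≤ x' a)
    (hy : ∀ a ∈ A, 0 < y a) (hy' : ∀ a ∈ A, 0 < y' a)
    (hz : ∀ a ∈ A, 0 < z a) (hz' : ∀ a ∈ A, 0 < z' a)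
    (s1 : ∑ a ∈ A, x a ≤ 1) (s1' : ∑ a ∈ A, x' a ≤ 1)
    (s2 : 1 - ε ≤ ∑ a ∈ A, x a) (s2' : 1 - ε ≤ ∑ a ∈ A, x' a)
    (hδ : 0 ≤ δ) (hδ2 : δ ≤ 1 / 2)
    (h12 : ∀ a ∈ A, |p a - c * x a * y a| ≤ δ * (c * y a))
    (h13 : ∀ a ∈ A, |q a - d * x a * z a| ≤ δ * (d * z a))
    (h23 : ∀ a ∈ A, |r a - e * y a * z a| ≤ δ * (e * y a * z a))
    (h12' : ∀ a ∈ A, |p a - c' * x' a * y' a| ≤ δ * (c' * y' a))
    (h13' : ∀ a ∈ A, |q a - d' * x' a * z' a| ≤ δ * (d' * z' a))
    (h23' : ∀ a ∈ A, |r a - e' * y' a * z' a| ≤ δ * (e' * y' a * z' a))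
    (hη : (A.card : ℝ) * Real.sqrt (8 * δ) ≤ η) (hsm : ε + η ≤ 1 / 4) :
    ∑ a ∈ A, |x a - x' a| ≤ 2 * ε + 6 * η := by
  set k2 : ℝ := (c' * d' / e') / (c * d / e) with hk2
  have hk2p : 0 < k2 := by
    rw [hk2]; positivity
  set k : ℝ := Real.sqrt k2 with hk
  have hkp : 0 < k := Real.sqrt_pos.mpr hk2p
  have hksq : k ^ 2 = k2 := Real.sq_sqrt hk2p.le
  have hle1 : ∀ {f : ι → ℝ}, (∀ a ∈ A, 0 ≤ f a) → ∑ a ∈ A, f a ≤ 1 → ∀ a ∈ A, f a ≤ 1 := by
    intro f hf hs a ha
    exact le_trans (Finset.single_le_sum (f := f) hf ha) hs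
  have cell : ∀ a ∈ A, |x a - k * x' a| ≤ Real.sqrt (8 * δ) * (1 + k) := by
    intro a ha
    have e1 := tri_cell (hx a ha) (hle1 hx s1 a ha) (hy a ha) (hz a ha) hc hd he hδ hδ2
      (h12 a ha) (h13 a ha) (h23 a ha)
    have e2 := tri_cell (hx' a ha) (hle1 hx' s1' a ha) (hy' a ha) (hz' a ha) hc' hd' he' hδ hδ2
      (h12' a ha) (h13' a ha) (h23' a ha)
    set m : ℝ := p a * q a / r a with hm
    have e3 : m / (c * d / e) = k2 * (m / (c' * d' / e')) := by
      rw [hk2]; field_simp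
    have e4 : |x a ^ 2 - (k * x' a) ^ 2| ≤ 8 * δ * (1 + k2) := by
      have : x a ^ 2 - (k * x' a) ^ 2
          = -(m / (c * d / e) - x a ^ 2) + k2 * (m / (c' * d' / e') - x' a ^ 2) := by
        rw [mul_pow, hksq, e3]; ring
      rw [this]
      refine le_trans (abs_add_le _ _) ?_
      rw [abs_neg, abs_mul, abs_of_pos hk2p]
      nlinarith [mul_le_mul_of_nonneg_left e2 hk2p.le]
    have e5 := sq_sub_le (hx a ha) (mul_nonneg hkp.le (hx' a ha)) e4
    refine le_trans e5 ?_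
    have e6 : Real.sqrt (8 * δ * (1 + k2)) ≤ Real.sqrt (8 * δ * (1 + k) ^ 2) := by
      apply Real.sqrt_le_sqrt
      apply mul_le_mul_of_nonneg_left _ (by positivity)
      rw [← hksq]; nlinarith
    refine le_trans e6 ?_
    rw [Real.sqrt_mul (by positivity), Real.sqrt_sq (by positivity)]
  have tot : ∑ a ∈ A, |x a - k * x' a| ≤ η * (1 + k) := by
    calc ∑ a ∈ A, |x a - k * x' a| ≤ ∑ _a ∈ A, Real.sqrt (8 * δ) * (1 + k) := Finset.sum_le_sum cell
      _ = ((A.card : ℝ) * Real.sqrt (8 * δ)) * (1 + k) := by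
          rw [Finset.sum_const, nsmul_eq_mul]; ring
      _ ≤ η * (1 + k) := by
          apply mul_le_mul_of_nonneg_right hη; linarith
  have hη0 : 0 ≤ η := le_trans (by positivity) hη
  have hε0 : 0 ≤ ε := by linarith
  have sumk : |∑ a ∈ A, x a - k * ∑ a ∈ A, x' a| ≤ η * (1 + k) := by
    rw [Finset.mul_sum, ← Finset.sum_sub_distrib]
    exact le_trans (Finset.abs_sum_le_sum_abs _ _) tot
  rw [abs_le] at sumk
  have k1 : k * (1 - ε) ≤ 1 + η * (1 + k) := by
    have := mul_le_mul_of_nonneg_left s2' hkp.le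
    linarith [sumk.1]
  have k2' : 1 - ε - η * (1 + k) ≤ k := by
    have := mul_le_mul_of_nonneg_left s1' hkp.le
    linarith [sumk.2]
  have kle2 : k ≤ 2 := by nlinarith
  have kup : k - 1 ≤ 2 * ε + 3 * η := by nlinarith
  have klo : 1 - k ≤ 2 * ε + 3 * η := by nlinarith
  have kab : |k - 1| ≤ 2 * ε + 3 * η := by
    rw [abs_le]; constructor <;> linarith
  calc ∑ a ∈ A, |x a - x' a|
      ≤ ∑ a ∈ A, (|x a - k * x' a| + |k - 1| * x' a) := by
        apply Finset.sum_le_sum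
        intro a ha
        have : x a - x' a = (x a - k * x' a) + (k - 1) * x' a := by ring
        rw [this]
        refine le_trans (abs_add_le _ _) ?_
        rw [abs_mul, abs_of_nonneg (hx' a ha)]
    _ = ∑ a ∈ A, |x a - k * x' a| + |k - 1| * ∑ a ∈ A, x' a := by
        rw [Finset.sum_add_distrib, Finset.mul_sum]
    _ ≤ η * (1 + k) + |k - 1| * 1 := by
        apply add_le_add tot
        exact mul_le_mul_of_nonneg_left s1' (abs_nonneg _)
    _ ≤ 3 * η + (2 * ε + 3 * η) := by nlinarith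
    _ = 2 * ε + 6 * η := by ring

end F3
end ROT
end HexObs
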