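import Pool.Agent.ROT.F3Cells

/-!
# ROT / F3Trip (helper43): from the pair masses of the two lattices to `Trip` (row F7 / N3 of ROT/F3_PLAN)

For one cell of the main arc: `p q r` = masses of the three pairs (main, companion 1), (main, companion 2), (companion 1,
companion 2) on the first lattice, `p' q' r'` on the second one. Hypotheses: on each lattice the pair mass is a product up to a
relative error `δ` (`pair_prod` of F3Gam), the masses of the two lattices differ by at most `ε S` (`S` = normalisation, row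
F5 / F6), lower bounds `κ S` for the pairs with the TOTAL mass of the main arc on the second lattice. Then `Trip`.
`low_main`, `low_comp` : these lower bounds follow from the same lower bounds on the first lattice.
-/

set_option autoImplicit false

namespace HexObs
namespace ROT
namespace F3

open Finset

/-- a pair mass which is a product on the second lattice, transported to the first one: main arc with a companion -/
theorem abs_main {p p' c x y X δ ε κ S : ℝ} (hκ : 0 < κ) (hε : 0 ≤ ε) (hx : 0 ≤ x) (hc : 0 < c) (hy : 0 < y)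
    (h : |p' - c * x * y| ≤ δ * (c * x * y)) (hM : |p - p'| ≤ ε * S) (hl : κ * S ≤ c * y * X) :
    |p - c * x * y| ≤ ((δ + ε / κ) * x + ε / κ * X) * (c * y) := by
  have hcy : 0 < c * y := mul_pos hc hy
  have hek : 0 ≤ ε / κ := div_nonneg hε hκ.le
  have h1 : ε * S ≤ ε / κ * (c * y * X) := by
    have h2 := mul_le_mul_of_nonneg_left hl hek
    have h3 : ε / κ * (κ * S) = ε * S := by field_simp
    linarith
  have h4 : |p - c * x * y| ≤ |p - p'| + |p' - c * x * y| := by
    have := abs_add_le (p - p') (p' - c * x * y)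
    have e : p - p' + (p' - c * x * y) = p - c * x * y := by ring
    rwa [e] at this
  have h5 : 0 ≤ ε / κ * x * (c * y) := mul_nonneg (mul_nonneg hek hx) hcy.le
  have h6 : ((δ + ε / κ) * x + ε / κ * X) * (c * y) = δ * (c * x * y) + ε / κ * (c * y * X) + ε / κ * x * (c * y) := by ring
  rw [h6]
  linarith

/-- the same for the two companions -/
theorem abs_comp {r r' e y z δ ε κ S : ℝ} (hκ : 0 < κ) (hε : 0 ≤ ε)
    (h : |r' - e * y * z| ≤ δ * (e * y * z)) (hM : |r - r'| ≤ ε * S) (hl : κ * S ≤ e * y * z) :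
    |r - e * y * z| ≤ (δ + ε / κ) * (e * y * z) := by
  have hek : 0 ≤ ε / κ := div_nonneg hε hκ.le
  have h1 : ε * S ≤ ε / κ * (e * y * z) := by
    have h2 := mul_le_mul_of_nonneg_left hl hek
    have h3 : ε / κ * (κ * S) = ε * S := by field_simp
    linarith
  have h4 : |r - e * y * z| ≤ |r - r'| + |r' - e * y * z| := by
    have := abs_add_le (r - r') (r' - e * y * z)
    have e' : r - r' + (r' - e * y * z) = r - e * y * z := by ring
    rwa [e'] at this
  have h6 : (δ + ε / κ) * (e * y * z) = δ * (e * y * z) + ε / κ * (e * y * z) := by ring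
  rw [h6]
  linarith

/-- **the pair masses of the two lattices give `Trip`** -/
theorem trip_of {x y z x' y' z' X X' c d e c' d' e' p q r p' q' r' δ ε κ S : ℝ}
    (hx : 0 ≤ x) (hxX : x ≤ X) (hx' : 0 ≤ x') (hy : 0 < y) (hz : 0 < z) (hy' : 0 < y') (hz' : 0 < z')
    (hc : 0 < c) (hd : 0 < d) (he : 0 < e) (hc' : 0 < c') (hd' : 0 < d')
    (hδ : 0 ≤ δ) (hε : 0 ≤ ε) (hκ : 0 < κ)
    (h12 : |p - c * x * y| ≤ δ * (c * x * y)) (h13 : |q - d * x * z| ≤ δ * (d * x * z))
    (h23 : |r - e * y * z| ≤ δ * (e * y * z))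
    (h12' : |p' - c' * x' * y'| ≤ δ * (c' * x' * y')) (h13' : |q' - d' * x' * z'| ≤ δ * (d' * x' * z'))
    (h23' : |r' - e' * y' * z'| ≤ δ * (e' * y' * z'))
    (Mp : |p - p'| ≤ ε * S) (Mq : |q - q'| ≤ ε * S) (Mr : |r - r'| ≤ ε * S)
    (l12 : κ * S ≤ c' * y' * X') (l13 : κ * S ≤ d' * z' * X') (l23 : κ * S ≤ e' * y' * z') :
    Trip (δ + ε / κ) (ε / κ) X X' c d e c' d' e' x x' := by
  have hek : 0 ≤ ε / κ := div_nonneg hε hκ.le
  have hX : 0 ≤ X := hx.trans hxX
  have key : ∀ {c x y p : ℝ}, 0 < c → 0 < y → 0 ≤ x → x ≤ X → |p - c * x * y| ≤ δ * (c * x * y) →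
      |p - c * x * y| ≤ ((δ + ε / κ) * x + ε / κ * X) * (c * y) := by
    intro c x y p hc hy hx hxX h
    have hcy : 0 < c * y := mul_pos hc hy
    have h5 : 0 ≤ ε / κ * x * (c * y) := mul_nonneg (mul_nonneg hek hx) hcy.le
    have h7 : 0 ≤ ε / κ * X * (c * y) := mul_nonneg (mul_nonneg hek hX) hcy.le
    have h6 : ((δ + ε / κ) * x + ε / κ * X) * (c * y) = δ * (c * x * y) + ε / κ * X * (c * y) + ε / κ * x * (c * y) := by ring
    rw [h6]
    linarith
  refine ⟨y, z, y', z', p, q, r, hy, hz, hy', hz', key hc hy hx hxX h12, key hd hz hx hxX h13, ?_, ?_, ?_, ?_⟩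
  · have h5 : 0 ≤ ε / κ * (e * y * z) := mul_nonneg hek (mul_pos (mul_pos he hy) hz).le
    have h6 : (δ + ε / κ) * (e * y * z) = δ * (e * y * z) + ε / κ * (e * y * z) := by ring
    rw [h6]
    linarith
  · exact abs_main hκ hε hx' hc' hy' h12' Mp l12
  · exact abs_main hκ hε hx' hd' hz' h13' Mq l13
  · exact abs_comp hκ hε h23' Mr l23

/-! ### the lower bounds of the second lattice -/

/-- pair of companions: the lower bound passes from the first lattice to the second one -/
theorem low_comp {e y z e' y' z' r r' δ ε κ S : ℝ} (hδ2 : δ ≤ 1 / 2) (hS : 0 ≤ S)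
    (hε : ε ≤ κ / 4) (hp' : 0 ≤ e' * y' * z') (hp : 0 ≤ e * y * z)
    (h23 : |r - e * y * z| ≤ δ * (e * y * z)) (h23' : |r' - e' * y' * z'| ≤ δ * (e' * y' * z'))
    (Mr : |r - r'| ≤ ε * S) (l : κ * S ≤ e * y * z) : κ / 6 * S ≤ e' * y' * z' := by
  have a1 := (abs_le.1 h23).1
  have a2 := (abs_le.1 h23').2
  have a3 := (abs_le.1 Mr).2
  have a4 : ε * S ≤ κ / 4 * S := mul_le_mul_of_nonneg_right hε hS
  have a5 : δ * (e * y * z) ≤ 1 / 2 * (e * y * z) := mul_le_mul_of_nonneg_right hδ2 hp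
  have a6 : δ * (e' * y' * z') ≤ 1 / 2 * (e' * y' * z') := mul_le_mul_of_nonneg_right hδ2 hp'
  nlinarith

/-- main arc, summed over its cells `A`, with a companion: the lower bound passes from the first lattice to the second one.
`x a`, `x' a` = masses of the cells, `p a`, `p' a` = the pair masses -/
theorem low_main {ι : Type*} (A : Finset ι) {x x' p p' : ι → ℝ} {c y c' y' X' δ ε κ S : ℝ}
    (hδ2 : δ ≤ 1 / 2) (hcy : 0 ≤ c * y) (hcy' : 0 ≤ c' * y')
    (hx : ∀ a ∈ A, 0 ≤ x a) (hx' : ∀ a ∈ A, 0 ≤ x' a) (hX' : ∑ a ∈ A, x' a ≤ X')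
    (h : ∀ a ∈ A, |p a - c * x a * y| ≤ δ * (c * x a * y))
    (h' : ∀ a ∈ A, |p' a - c' * x' a * y'| ≤ δ * (c' * x' a * y'))
    (M : ∀ a ∈ A, |p a - p' a| ≤ ε * S) (hε : (A.card : ℝ) * (ε * S) ≤ κ / 4 * S)
    (l : κ * S ≤ c * y * ∑ a ∈ A, x a) : κ / 6 * S ≤ c' * y' * X' := by
  have b1 : ∀ a ∈ A, 1 / 2 * (c * y * x a) ≤ p a := by
    intro a ha
    have a1 := (abs_le.1 (h a ha)).1
    have a2 : 0 ≤ c * y * x a := mul_nonneg hcy (hx a ha)
    have a3 : δ * (c * x a * y) ≤ 1 / 2 * (c * y * x a) := by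
      rw [show c * x a * y = c * y * x a by ring]
      exact mul_le_mul_of_nonneg_right hδ2 a2
    nlinarith
  have b2 : ∀ a ∈ A, p' a ≤ 3 / 2 * (c' * y' * x' a) := by
    intro a ha
    have a1 := (abs_le.1 (h' a ha)).2
    have a2 : 0 ≤ c' * y' * x' a := mul_nonneg hcy' (hx' a ha)
    have a3 : δ * (c' * x' a * y') ≤ 1 / 2 * (c' * y' * x' a) := by
      rw [show c' * x' a * y' = c' * y' * x' a by ring]
      exact mul_le_mul_of_nonneg_right hδ2 a2
    nlinarith
  have b3 : ∑ a ∈ A, 1 / 2 * (c * y * x a) ≤ ∑ a ∈ A, (3 / 2 * (c' * y' * x' a) + ε * S) := by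
    refine sum_le_sum fun a ha => ?_
    have a1 := (abs_le.1 (M a ha)).2
    linarith [b1 a ha, b2 a ha]
  rw [sum_add_distrib, sum_const, nsmul_eq_mul, ← mul_sum, ← mul_sum, ← mul_sum, ← mul_sum] at b3
  have b4 : c' * y' * ∑ a ∈ A, x' a ≤ c' * y' * X' := mul_le_mul_of_nonneg_left hX' hcy'
  linarith

end F3
end ROT
end HexObs
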