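import Pool.Agent.ROT.F3FP

/-!
# ROT, F3Two: two free bridges inside a connection (helper38)

Data `ω` (everything else) with weight `w ω`, two arbitrary bridges `b₁` of height `h₁ ω` and `b₂` of height `h₂ ω`
(both `≥ s`), displacement `p ω + lat b₁ • a + lat b₂ • b` with `a`, `b` independent.

* `H_sup` : a bridge of height `T` ends at a given place with probability `≤ C / T`;
* `blk_sup` : the weight of one displacement is `≤ C / s ^ 2` times the total weight;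
* `blk_equi` : equicontinuity in the displacement, for weights which do not see the inside of the two bridges;
* `blk_shift` : continuity in total variation, for weights which oscillate little inside of the two bridges.
-/

set_option autoImplicit false

namespace HexObs

namespace ROT

namespace FP

open Finset ENNReal

/-! ## one bridge -/

/-- the words of a box -/
def InB (M h : ℕ) (b : List Bool) : Prop := ∀ i, i ≤ b.length → |lat b i| ≤ (M * h : ℤ)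

private lemma sum_w (h : ℕ) : ∑' b : Brd h, wE b.1 = ENNReal.ofReal (uu h) := by
  rw [← BT_eq_uu, ← gf_Brd]
  rfl

/-- sums over the bridges of height h of functions of the lateral end -/
theorem sum_latE (h : ℕ) (Ψ : ℤ → ℝ≥0∞) :
    ∑' a : Brd h, wE a.1 * Ψ (latE a.1) = ∑' x : ℤ, gf (RP.EndB h x) * Ψ x := by
  have h1 : ∀ x : ℤ, gf (RP.EndB h x) * Ψ x =
      ∑' a : Brd h, if latE a.1 = x then wE a.1 * Ψ (latE a.1) else 0 := by
    intro x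
    unfold gf
    rw [← ENNReal.tsum_mul_right, _root_.tsum_subtype (RP.EndB h x) (fun t => wE t * Ψ x),
      _root_.tsum_subtype (Brd h) (fun t => if latE t = x then wE t * Ψ (latE t) else 0)]
    refine tsum_congr fun t => ?_
    by_cases ht : t ∈ RP.EndB h x
    · rw [Set.indicator_of_mem ht, Set.indicator_of_mem ht.1, if_pos ht.2, ht.2]
    · rw [Set.indicator_of_notMem ht]
      by_cases ht2 : t ∈ Brd h
      · rw [Set.indicator_of_mem ht2, if_neg fun h3 => ht ⟨ht2, h3⟩]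
      · rw [Set.indicator_of_notMem ht2]
  rw [tsum_congr h1, ENNReal.tsum_comm]
  refine tsum_congr fun a => ?_
  rw [tsum_eq_single (latE a.1) fun x hx => if_neg (Ne.symm hx), if_pos rfl]

/-- one bridge: shift of a test function of the end -/
theorem one_shift {h : ℕ} {x : ℤ} {d : ℝ≥0∞}
    (hk : ∑' y : ℤ, ENNReal.ofReal |RP.H h y - RP.H h (y + x)| ≤ d) (Ψ : ℤ → ℝ≥0∞) (hΨ : ∀ y, Ψ y ≤ 1) :
    ∑' b : Brd h, wE b.1 * Ψ (latE b.1 - x) ≤ ∑' b : Brd h, wE b.1 * Ψ (latE b.1) + d := by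
  refine le_trans ?_ (add_le_add le_rfl hk)
  rw [sum_latE h Ψ, sum_latE h (fun y => Ψ (y - x)), ← ENNReal.tsum_add]
  have h1 : ∑' y : ℤ, gf (RP.EndB h y) * Ψ (y - x) = ∑' y : ℤ, gf (RP.EndB h (y + x)) * Ψ y := by
    rw [← (Equiv.addRight x).tsum_eq (fun y => gf (RP.EndB h y) * Ψ (y - x))]
    refine tsum_congr fun y => ?_
    show gf (RP.EndB h (y + x)) * Ψ (y + x - x) = _
    rw [add_sub_cancel_right]
  rw [h1]
  refine ENNReal.tsum_le_tsum fun y => ?_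
  have h2 : gf (RP.EndB h (y + x)) ≤ gf (RP.EndB h y) + ENNReal.ofReal |RP.H h y - RP.H h (y + x)| := by
    rw [← RP.ofReal_H, ← RP.ofReal_H,
      ← ENNReal.ofReal_add (show 0 ≤ RP.H h y from ENNReal.toReal_nonneg) (abs_nonneg _)]
    refine ENNReal.ofReal_le_ofReal ?_
    have := neg_abs_le (RP.H h y - RP.H h (y + x))
    linarith
  calc gf (RP.EndB h (y + x)) * Ψ y
      ≤ (gf (RP.EndB h y) + ENNReal.ofReal |RP.H h y - RP.H h (y + x)|) * Ψ y := mul_le_mul_left h2 _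
    _ = gf (RP.EndB h y) * Ψ y + ENNReal.ofReal |RP.H h y - RP.H h (y + x)| * Ψ y := add_mul _ _ _
    _ ≤ _ := add_le_add le_rfl (mul_le_of_le_one_right' (hΨ y))

/-- one bridge, a weight with small oscillation in the box -/
theorem one_osc {ε : ℝ} (hε : 0 < ε) : ∃ (η : ℝ) (M : ℕ), 0 < η ∧ ∀ h : ℕ, 1 ≤ h → ∀ x : ℤ, Even x →
    ((|x| : ℤ) : ℝ) ≤ η * h → ∀ (δ : ℝ≥0∞) (e : List Bool → ℝ≥0∞) (Ψ : ℤ → ℝ≥0∞), (∀ b, e b ≤ 1) → (∀ y, Ψ y ≤ 1) →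
      (∀ b ∈ Brd h, ∀ b' ∈ Brd h, InB M h b → InB M h b' → e b ≤ e b' + δ) →
      ∑' b : Brd h, wE b.1 * (e b.1 * Ψ (latE b.1 - x)) ≤
        ∑' b : Brd h, wE b.1 * (e b.1 * Ψ (latE b.1)) + (ENNReal.ofReal ε + 2 * δ) * ENNReal.ofReal (uu h) := by
  classical
  obtain ⟨η, hη, hker⟩ := RP.ker_l1 (ε / 3) (by positivity)
  obtain ⟨M, hM⟩ := Ex.lat0 (ε / 3) (by positivity)
  refine ⟨η, M, hη, fun h hh x hx hxh δ e Ψ he hΨ hosc => ?_⟩
  have hu : 0 ≤ uu h := (uu_pos h).le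
  -- the words outside of the box
  have hout : ∑' b : Brd h, (if InB M h b.1 then 0 else wE b.1) ≤ ENNReal.ofReal (ε / 3 * uu h) := by
    refine le_trans (le_of_eq ?_) (hM h hh)
    unfold gf
    rw [_root_.tsum_subtype (Brd h) (fun t => if InB M h t then 0 else wE t), _root_.tsum_subtype _ wE]
    refine tsum_congr fun t => ?_
    by_cases ht : t ∈ Brd h
    · rw [Set.indicator_of_mem ht]
      by_cases hb : InB M h t
      · rw [if_pos hb, Set.indicator_of_notMem]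
        rintro ⟨_, i, hi, h1⟩
        exact absurd (hb i hi) (not_le.2 h1)
      · rw [if_neg hb, Set.indicator_of_mem]
        unfold InB at hb
        push Not at hb
        obtain ⟨i, hi, h1⟩ := hb
        exact ⟨ht, i, hi, h1⟩
    · rw [Set.indicator_of_notMem ht, Set.indicator_of_notMem fun h1 => ht h1.1]
  have hthird : ENNReal.ofReal (ε / 3 * uu h) + ENNReal.ofReal (ε / 3 * uu h) + ENNReal.ofReal (ε / 3 * uu h) =
      ENNReal.ofReal ε * ENNReal.ofReal (uu h) := by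
    rw [← ENNReal.ofReal_add (by positivity) (by positivity), ← ENNReal.ofReal_add (by positivity) (by positivity),
      ← ENNReal.ofReal_mul hε.le]
    congr 1
    ring
  by_cases hex : ∃ b0 ∈ Brd h, InB M h b0
  · obtain ⟨b0, hb0, hb0M⟩ := hex
    have h1 : ∀ b : Brd h, wE b.1 * (e b.1 * Ψ (latE b.1 - x)) ≤
        e b0 * (wE b.1 * Ψ (latE b.1 - x)) + δ * wE b.1 + (if InB M h b.1 then 0 else wE b.1) := by
      intro b
      by_cases hb : InB M h b.1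
      · rw [if_pos hb, add_zero]
        have h2 := hosc b.1 b.2 b0 hb0 hb hb0M
        calc wE b.1 * (e b.1 * Ψ (latE b.1 - x))
            ≤ wE b.1 * ((e b0 + δ) * Ψ (latE b.1 - x)) := mul_le_mul_right (mul_le_mul_left h2 _) _
          _ = e b0 * (wE b.1 * Ψ (latE b.1 - x)) + δ * wE b.1 * Ψ (latE b.1 - x) := by ring
          _ ≤ _ := add_le_add le_rfl (mul_le_of_le_one_right' (hΨ _))
      · rw [if_neg hb]
        calc wE b.1 * (e b.1 * Ψ (latE b.1 - x)) ≤ wE b.1 :=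
              mul_le_of_le_one_right' (mul_le_one' (he _) (hΨ _))
          _ ≤ _ := le_add_self
    have h2 : ∀ b : Brd h, e b0 * (wE b.1 * Ψ (latE b.1)) ≤
        wE b.1 * (e b.1 * Ψ (latE b.1)) + δ * wE b.1 + (if InB M h b.1 then 0 else wE b.1) := by
      intro b
      by_cases hb : InB M h b.1
      · rw [if_pos hb, add_zero]
        have h3 := hosc b0 hb0 b.1 b.2 hb0M hb
        calc e b0 * (wE b.1 * Ψ (latE b.1))
            ≤ (e b.1 + δ) * (wE b.1 * Ψ (latE b.1)) := mul_le_mul_left h3 _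
          _ = wE b.1 * (e b.1 * Ψ (latE b.1)) + δ * wE b.1 * Ψ (latE b.1) := by ring
          _ ≤ _ := add_le_add le_rfl (mul_le_of_le_one_right' (hΨ _))
      · rw [if_neg hb]
        calc e b0 * (wE b.1 * Ψ (latE b.1)) ≤ wE b.1 := by
              calc _ ≤ 1 * (wE b.1 * 1) := mul_le_mul' (he _) (mul_le_mul_right (hΨ _) _)
                _ = wE b.1 := by rw [one_mul, mul_one]
          _ ≤ _ := le_add_self
    have h3 := one_shift (hker h hh x hx hxh) Ψ hΨ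
    have h4 : ∑' b : Brd h, δ * wE b.1 = δ * ENNReal.ofReal (uu h) := by
      rw [ENNReal.tsum_mul_left, sum_w]
    calc ∑' b : Brd h, wE b.1 * (e b.1 * Ψ (latE b.1 - x))
        ≤ ∑' b : Brd h, (e b0 * (wE b.1 * Ψ (latE b.1 - x)) + δ * wE b.1 +
            (if InB M h b.1 then 0 else wE b.1)) := ENNReal.tsum_le_tsum h1
      _ = e b0 * ∑' b : Brd h, wE b.1 * Ψ (latE b.1 - x) + δ * ENNReal.ofReal (uu h) +
            ∑' b : Brd h, (if InB M h b.1 then 0 else wE b.1) := by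
          rw [ENNReal.tsum_add, ENNReal.tsum_add, ENNReal.tsum_mul_left, h4]
      _ ≤ e b0 * (∑' b : Brd h, wE b.1 * Ψ (latE b.1) + ENNReal.ofReal (ε / 3 * uu h)) +
            δ * ENNReal.ofReal (uu h) + ENNReal.ofReal (ε / 3 * uu h) :=
          add_le_add (add_le_add (mul_le_mul_right h3 _) le_rfl) hout
      _ ≤ ∑' b : Brd h, e b0 * (wE b.1 * Ψ (latE b.1)) + ENNReal.ofReal (ε / 3 * uu h) +
            δ * ENNReal.ofReal (uu h) + ENNReal.ofReal (ε / 3 * uu h) := by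
          rw [mul_add, ENNReal.tsum_mul_left]
          exact add_le_add (add_le_add (add_le_add le_rfl (mul_le_of_le_one_left' (he b0))) le_rfl) le_rfl
      _ ≤ ∑' b : Brd h, (wE b.1 * (e b.1 * Ψ (latE b.1)) + δ * wE b.1 +
            (if InB M h b.1 then 0 else wE b.1)) + ENNReal.ofReal (ε / 3 * uu h) +
            δ * ENNReal.ofReal (uu h) + ENNReal.ofReal (ε / 3 * uu h) :=
          add_le_add (add_le_add (add_le_add (ENNReal.tsum_le_tsum h2) le_rfl) le_rfl) le_rfl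
      _ = ∑' b : Brd h, wE b.1 * (e b.1 * Ψ (latE b.1)) + δ * ENNReal.ofReal (uu h) +
            ∑' b : Brd h, (if InB M h b.1 then 0 else wE b.1) + ENNReal.ofReal (ε / 3 * uu h) +
            δ * ENNReal.ofReal (uu h) + ENNReal.ofReal (ε / 3 * uu h) := by
          rw [ENNReal.tsum_add, ENNReal.tsum_add, h4]
      _ ≤ ∑' b : Brd h, wE b.1 * (e b.1 * Ψ (latE b.1)) + δ * ENNReal.ofReal (uu h) +
            ENNReal.ofReal (ε / 3 * uu h) + ENNReal.ofReal (ε / 3 * uu h) +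
            δ * ENNReal.ofReal (uu h) + ENNReal.ofReal (ε / 3 * uu h) :=
          add_le_add (add_le_add (add_le_add (add_le_add le_rfl hout) le_rfl) le_rfl) le_rfl
      _ = _ := by
          rw [add_mul, ← hthird]
          ring
  · have h1 : ∀ b : Brd h, wE b.1 * (e b.1 * Ψ (latE b.1 - x)) ≤ (if InB M h b.1 then 0 else wE b.1) := by
      intro b
      rw [if_neg fun hb => hex ⟨b.1, b.2, hb⟩]
      exact mul_le_of_le_one_right' (mul_le_one' (he _) (hΨ _))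
    calc _ ≤ ∑' b : Brd h, (if InB M h b.1 then 0 else wE b.1) := ENNReal.tsum_le_tsum h1
      _ ≤ ENNReal.ofReal (ε / 3 * uu h) := hout
      _ ≤ ENNReal.ofReal ε * ENNReal.ofReal (uu h) := by
          rw [← hthird]
          exact le_add_self
      _ ≤ (ENNReal.ofReal ε + 2 * δ) * ENNReal.ofReal (uu h) := mul_le_mul_left le_self_add _
      _ ≤ _ := le_add_self

/-- `H T x ≤ C * uu T / T` -/
def HSup (C : ℝ) : Prop := 0 < C ∧ ∀ (T : ℕ) (x : ℤ), 1 ≤ T → RP.H T x ≤ C * (uu T / T)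

/-- the Hoelder constants of the ends -/
def HHol (C κ : ℝ) : Prop := 0 < C ∧ 0 < κ ∧ ∀ (T : ℕ) (x y : ℤ), 1 ≤ T → Even (x - y) →
  |RP.H T x - RP.H T y| ≤ C * ((|x - y| : ℤ) / T : ℝ) ^ κ * (uu T / T)

theorem hHol : ∃ C κ : ℝ, HHol C κ := RP.hoelder

private lemma sum_shift_le (T : ℕ) (x : ℤ) (n : ℕ) :
    ∑ j ∈ range n, RP.H T (x + 2 * j) ≤ uu T := by
  have h1 : ∑ j ∈ range n, ENNReal.ofReal (RP.H T (x + 2 * j)) ≤ ENNReal.ofReal (uu T) := by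
    have h2 := sum_latE T (fun _ => 1)
    simp only [mul_one] at h2
    rw [sum_w] at h2
    rw [h2]
    have h3 : ∑ j ∈ range n, ENNReal.ofReal (RP.H T (x + 2 * j)) =
        ∑ y ∈ (range n).image (fun j : ℕ => x + 2 * (j : ℤ)), gf (RP.EndB T y) := by
      rw [Finset.sum_image]
      · exact Finset.sum_congr rfl fun j _ => RP.ofReal_H T _
      · intro i _ j _ hij
        have hij' : x + 2 * (i : ℤ) = x + 2 * (j : ℤ) := hij
        omega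
    rw [h3]
    exact ENNReal.sum_le_tsum _
  rw [← ENNReal.ofReal_sum_of_nonneg (f := fun j : ℕ => RP.H T (x + 2 * j))
    fun j _ => ENNReal.toReal_nonneg] at h1
  exact (ENNReal.ofReal_le_ofReal_iff (uu_pos T).le).1 h1

theorem hSup : ∃ C : ℝ, HSup C := by
  obtain ⟨C, κ, hC, hκ, h⟩ := hHol
  refine ⟨2 + C, by positivity, fun T x hT => ?_⟩
  set n := T / 2 + 1 with hn
  have hT0 : (0 : ℝ) < T := by exact_mod_cast hT
  have hu := uu_pos T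
  have h1 := sum_shift_le T x n
  have h2 : ∀ j ∈ range n, RP.H T x - C * (uu T / T) ≤ RP.H T (x + 2 * j) := by
    intro j hj
    have h3 := h T x (x + 2 * j) hT (by rw [sub_add_cancel_left]; exact (even_two_mul _).neg)
    have h4 : ((|x - (x + 2 * (j : ℤ))| : ℤ) / T : ℝ) ≤ 1 := by
      rw [sub_add_cancel_left, abs_neg, abs_of_nonneg (by positivity), div_le_one hT0]
      have h5 : 2 * j ≤ T := by
        have := mem_range.1 hj
        omega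
      push_cast
      exact_mod_cast h5
    have h5 : ((|x - (x + 2 * (j : ℤ))| : ℤ) / T : ℝ) ^ κ ≤ 1 := Real.rpow_le_one (by positivity) h4 hκ.le
    have h6 : C * ((|x - (x + 2 * (j : ℤ))| : ℤ) / T : ℝ) ^ κ * (uu T / T) ≤ C * (uu T / T) := by
      calc _ ≤ C * 1 * (uu T / T) :=
            mul_le_mul_of_nonneg_right (mul_le_mul_of_nonneg_left h5 hC.le) (by positivity)
        _ = _ := by ring
    have h7 := (abs_le.1 (h3.trans h6)).2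
    linarith
  have h3 := (Finset.sum_le_sum h2).trans h1
  rw [Finset.sum_const, card_range, nsmul_eq_mul] at h3
  have h4 : (T : ℝ) / 2 ≤ n := by
    have : T ≤ 2 * n := by omega
    have h5 : (T : ℝ) ≤ 2 * n := by exact_mod_cast this
    linarith
  have hn0 : (0 : ℝ) < n := by positivity
  have h5 : RP.H T x - C * (uu T / T) ≤ uu T / n := by
    rw [le_div_iff₀ hn0]
    linarith
  have h6 : uu T / n ≤ 2 * (uu T / T) := by
    rw [div_le_iff₀ hn0]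
    have h7 : 2 * (uu T / T) * (T / 2) = uu T := by field_simp
    calc uu T = 2 * (uu T / T) * (T / 2) := h7.symm
      _ ≤ 2 * (uu T / T) * n := mul_le_mul_of_nonneg_left h4 (by positivity)
  linarith

/-! ## two bridges -/

section Two

variable {Ω : Type*} {Λ : Type*} [AddCommGroup Λ]

/-- sum over the data and over the two bridges -/
noncomputable def blk (w : Ω → ℝ≥0∞) (h₁ h₂ : Ω → ℕ) (F : Ω → List Bool → List Bool → ℝ≥0∞) : ℝ≥0∞ :=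
  ∑' ω, w ω * ∑' b₁ : Brd (h₁ ω), ∑' b₂ : Brd (h₂ ω), wE b₁.1 * (wE b₂.1 * F ω b₁.1 b₂.1)

/-- displacement -/
def dsp (p : Ω → Λ) (a b : Λ) (ω : Ω) (b₁ b₂ : List Bool) : Λ := p ω + latE b₁ • a + latE b₂ • b

/-- total weight -/
noncomputable def btot (w : Ω → ℝ≥0∞) (h₁ h₂ : Ω → ℕ) : ℝ≥0∞ :=
  ∑' ω, w ω * (ENNReal.ofReal (uu (h₁ ω)) * ENNReal.ofReal (uu (h₂ ω)))

/-- independence of the two lateral directions -/
def Ind2 (a b : Λ) : Prop := ∀ X Y X' Y' : ℤ, X • a + Y • b = X' • a + Y' • b → X = X' ∧ Y = Y'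

theorem blk_mono {w : Ω → ℝ≥0∞} {h₁ h₂ : Ω → ℕ} {F G : Ω → List Bool → List Bool → ℝ≥0∞}
    (h : ∀ ω b₁ b₂, F ω b₁ b₂ ≤ G ω b₁ b₂) : blk w h₁ h₂ F ≤ blk w h₁ h₂ G := by
  unfold blk
  refine ENNReal.tsum_le_tsum fun ω => mul_le_mul_right ?_ _
  refine ENNReal.tsum_le_tsum fun b₁ => ENNReal.tsum_le_tsum fun b₂ => ?_
  exact mul_le_mul_right (mul_le_mul_right (h ω b₁.1 b₂.1) _) _

theorem blk_swap (w : Ω → ℝ≥0∞) (h₁ h₂ : Ω → ℕ) (F : Ω → List Bool → List Bool → ℝ≥0∞) :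
    blk w h₁ h₂ F = blk w h₂ h₁ (fun ω b₂ b₁ => F ω b₁ b₂) := by
  unfold blk
  refine tsum_congr fun ω => ?_
  rw [ENNReal.tsum_comm]
  congr 1
  exact tsum_congr fun b₂ => tsum_congr fun b₁ => mul_left_comm _ _ _

theorem blk_one (w : Ω → ℝ≥0∞) (h₁ h₂ : Ω → ℕ) : blk w h₁ h₂ (fun _ _ _ => 1) = btot w h₁ h₂ := by
  unfold blk btot
  refine tsum_congr fun ω => ?_
  congr 1
  simp only [mul_one]
  rw [← sum_w, ← sum_w, ← ENNReal.tsum_mul_right]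
  exact tsum_congr fun _ => ENNReal.tsum_mul_left

theorem btot_swap (w : Ω → ℝ≥0∞) (h₁ h₂ : Ω → ℕ) : btot w h₁ h₂ = btot w h₂ h₁ := by
  unfold btot
  exact tsum_congr fun ω => by rw [mul_comm (ENNReal.ofReal (uu (h₁ ω)))]

theorem dsp_swap (p : Ω → Λ) (a b : Λ) (ω : Ω) (b₁ b₂ : List Bool) : dsp p a b ω b₁ b₂ = dsp p b a ω b₂ b₁ := by
  unfold dsp
  abel

open Classical in
/-- the number of pairs of bridges with given displacement -/
noncomputable def knl (h₁ h₂ : ℕ) (a b z : Λ) : ℝ≥0∞ :=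
  ∑' b₁ : Brd h₁, ∑' b₂ : Brd h₂, wE b₁.1 * (wE b₂.1 * if latE b₁.1 • a + latE b₂.1 • b = z then 1 else 0)

private lemma knl_sum (h₁ h₂ : ℕ) (a b z : Λ) [DecidableEq Λ] : knl h₁ h₂ a b z =
    ∑' X : ℤ, gf (RP.EndB h₁ X) * ∑' Y : ℤ, gf (RP.EndB h₂ Y) * if X • a + Y • b = z then 1 else 0 := by
  rw [← sum_latE h₁ (fun X => ∑' Y : ℤ, gf (RP.EndB h₂ Y) * if X • a + Y • b = z then 1 else 0)]
  unfold knl
  refine tsum_congr fun b₁ => ?_
  rw [← sum_latE h₂ (fun Y => if latE b₁.1 • a + Y • b = z then 1 else 0), ← ENNReal.tsum_mul_left]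
  refine tsum_congr fun b₂ => ?_
  congr 2
  by_cases h : latE b₁.1 • a + latE b₂.1 • b = z
  · rw [if_pos h, if_pos h]
  · rw [if_neg h, if_neg h]

theorem knl_eq {a b : Λ} (hab : Ind2 a b) (h₁ h₂ : ℕ) (X Y : ℤ) :
    knl h₁ h₂ a b (X • a + Y • b) = gf (RP.EndB h₁ X) * gf (RP.EndB h₂ Y) := by
  classical
  rw [knl_sum, tsum_eq_single X]
  · congr 1
    rw [tsum_eq_single Y]
    · rw [if_pos rfl, mul_one]
    · intro Y' hY
      rw [if_neg fun h => hY (hab _ _ _ _ h).2, mul_zero]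
  · intro X' hX
    have h0 : ∑' Y' : ℤ, gf (RP.EndB h₂ Y') * (if X' • a + Y' • b = X • a + Y • b then 1 else 0) = (0 : ℝ≥0∞) := by
      rw [ENNReal.tsum_eq_zero]
      intro Y'
      rw [if_neg fun h => hX (hab _ _ _ _ h).1, mul_zero]
    rw [h0, mul_zero]

theorem knl_zero {a b z : Λ} (h₁ h₂ : ℕ) (h : ∀ X Y : ℤ, X • a + Y • b ≠ z) : knl h₁ h₂ a b z = 0 := by
  classical
  rw [knl_sum, ENNReal.tsum_eq_zero]
  intro X
  have h0 : ∑' Y : ℤ, gf (RP.EndB h₂ Y) * (if X • a + Y • b = z then 1 else 0) = (0 : ℝ≥0∞) := by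
    rw [ENNReal.tsum_eq_zero]
    intro Y
    rw [if_neg (h X Y), mul_zero]
  rw [h0, mul_zero]

private lemma endB_le {C : ℝ} (hC : HSup C) {s h : ℕ} (hs : 1 ≤ s) (hh : s ≤ h) (X : ℤ) :
    gf (RP.EndB h X) ≤ ENNReal.ofReal (C / s) * ENNReal.ofReal (uu h) := by
  have hs0 : (0 : ℝ) < s := by exact_mod_cast hs
  have hh0 : (s : ℝ) ≤ h := by exact_mod_cast hh
  have hu := (uu_pos h).le
  rw [← RP.ofReal_H, ← ENNReal.ofReal_mul (div_nonneg hC.1.le hs0.le)]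
  refine ENNReal.ofReal_le_ofReal ((hC.2 h X (hs.trans hh)).trans ?_)
  rw [div_mul_eq_mul_div, ← mul_div_assoc]
  exact div_le_div_of_nonneg_left (mul_nonneg hC.1.le hu) hs0 hh0

theorem knl_sup {C : ℝ} (hC : HSup C) {a b : Λ} (hab : Ind2 a b) {s h₁ h₂ : ℕ} (hs : 1 ≤ s) (hh₁ : s ≤ h₁)
    (hh₂ : s ≤ h₂) (z : Λ) :
    knl h₁ h₂ a b z ≤ ENNReal.ofReal (C ^ 2 / s ^ 2) * (ENNReal.ofReal (uu h₁) * ENNReal.ofReal (uu h₂)) := by
  have hs0 : (0 : ℝ) < s := by exact_mod_cast hs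
  by_cases h : ∃ X Y : ℤ, X • a + Y • b = z
  · obtain ⟨X, Y, rfl⟩ := h
    rw [knl_eq hab]
    refine (mul_le_mul' (endB_le hC hs hh₁ X) (endB_le hC hs hh₂ Y)).trans (le_of_eq ?_)
    have e1 : ENNReal.ofReal (C ^ 2 / s ^ 2) = ENNReal.ofReal (C / s) * ENNReal.ofReal (C / s) := by
      rw [← ENNReal.ofReal_mul (div_nonneg hC.1.le hs0.le)]
      congr 1
      ring
    rw [e1]
    ring
  · push Not at h
    rw [knl_zero h₁ h₂ h]
    exact zero_le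

theorem knl_equi {C C' κ : ℝ} (hC : HSup C) (hC' : HHol C' κ) {a b : Λ} (hab : Ind2 a b) {s h₁ h₂ : ℕ} (hs : 1 ≤ s)
    (hh₁ : s ≤ h₁) (hh₂ : s ≤ h₂) (z : Λ) (x : ℤ) (hx : Even x) :
    knl h₁ h₂ a b (z + x • a) ≤ knl h₁ h₂ a b z +
      ENNReal.ofReal (C * C' * ((|x| : ℤ) / s : ℝ) ^ κ / s ^ 2) *
        (ENNReal.ofReal (uu h₁) * ENNReal.ofReal (uu h₂)) := by
  have hs0 : (0 : ℝ) < s := by exact_mod_cast hs
  by_cases h : ∃ X Y : ℤ, X • a + Y • b = z + x • a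
  · obtain ⟨X, Y, h⟩ := h
    have hz : z = (X - x) • a + Y • b := by
      rw [sub_smul, sub_add_eq_add_sub, h]
      abel
    rw [← h, hz, knl_eq hab, knl_eq hab]
    have h1 : gf (RP.EndB h₁ X) ≤ gf (RP.EndB h₁ (X - x)) +
        ENNReal.ofReal (C' * ((|x| : ℤ) / s : ℝ) ^ κ / s) * ENNReal.ofReal (uu h₁) := by
      have hh0 : (s : ℝ) ≤ h₁ := by exact_mod_cast hh₁
      have hh1 : (0 : ℝ) < h₁ := lt_of_lt_of_le hs0 hh0
      have hu := (uu_pos h₁).le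
      have h2 := hC'.2.2 h₁ X (X - x) (hs.trans hh₁) (by rw [_root_.sub_sub_cancel]; exact hx)
      rw [_root_.sub_sub_cancel] at h2
      have h3 : C' * ((|x| : ℤ) / h₁ : ℝ) ^ κ * (uu h₁ / h₁) ≤ C' * ((|x| : ℤ) / s : ℝ) ^ κ / s * uu h₁ := by
        have h4 : ((|x| : ℤ) / h₁ : ℝ) ^ κ ≤ ((|x| : ℤ) / s : ℝ) ^ κ :=
          Real.rpow_le_rpow (by positivity) (div_le_div_of_nonneg_left (by positivity) hs0 hh0) hC'.2.1.le
        have h5 : uu h₁ / h₁ ≤ uu h₁ / s := div_le_div_of_nonneg_left hu hs0 hh0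
        calc C' * ((|x| : ℤ) / h₁ : ℝ) ^ κ * (uu h₁ / h₁) ≤ C' * ((|x| : ℤ) / s : ℝ) ^ κ * (uu h₁ / s) :=
              mul_le_mul (mul_le_mul_of_nonneg_left h4 hC'.1.le) h5 (by positivity)
                (mul_nonneg hC'.1.le (by positivity))
          _ = _ := by ring
      rw [← RP.ofReal_H, ← RP.ofReal_H, ← ENNReal.ofReal_mul
        (div_nonneg (mul_nonneg hC'.1.le (by positivity)) hs0.le),
        ← ENNReal.ofReal_add (show 0 ≤ RP.H h₁ (X - x) from ENNReal.toReal_nonneg)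
          (mul_nonneg (div_nonneg (mul_nonneg hC'.1.le (by positivity)) hs0.le) hu)]
      refine ENNReal.ofReal_le_ofReal ?_
      have h6 := (abs_le.1 (h2.trans h3)).2
      linarith
    calc gf (RP.EndB h₁ X) * gf (RP.EndB h₂ Y)
        ≤ (gf (RP.EndB h₁ (X - x)) + ENNReal.ofReal (C' * ((|x| : ℤ) / s : ℝ) ^ κ / s) *
            ENNReal.ofReal (uu h₁)) * gf (RP.EndB h₂ Y) := mul_le_mul_left h1 _
      _ = gf (RP.EndB h₁ (X - x)) * gf (RP.EndB h₂ Y) + ENNReal.ofReal (C' * ((|x| : ℤ) / s : ℝ) ^ κ / s) *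
            ENNReal.ofReal (uu h₁) * gf (RP.EndB h₂ Y) := add_mul _ _ _
      _ ≤ gf (RP.EndB h₁ (X - x)) * gf (RP.EndB h₂ Y) + ENNReal.ofReal (C' * ((|x| : ℤ) / s : ℝ) ^ κ / s) *
            ENNReal.ofReal (uu h₁) * (ENNReal.ofReal (C / s) * ENNReal.ofReal (uu h₂)) :=
          add_le_add le_rfl (mul_le_mul_right (endB_le hC hs hh₂ Y) _)
      _ = _ := by
          congr 1
          have e1 : ENNReal.ofReal (C * C' * ((|x| : ℤ) / s : ℝ) ^ κ / s ^ 2) =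
              ENNReal.ofReal (C' * ((|x| : ℤ) / s : ℝ) ^ κ / s) * ENNReal.ofReal (C / s) := by
            rw [← ENNReal.ofReal_mul (div_nonneg (mul_nonneg hC'.1.le (by positivity)) hs0.le)]
            congr 1
            ring
          rw [e1]
          ring
  · push Not at h
    rw [knl_zero h₁ h₂ h]
    exact zero_le

theorem btot_eq (w : Ω → ℝ≥0∞) (h₁ h₂ : Ω → ℕ) (c : ℝ≥0∞) :
    ∑' ω, w ω * (c * (ENNReal.ofReal (uu (h₁ ω)) * ENNReal.ofReal (uu (h₂ ω)))) = c * btot w h₁ h₂ := by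
  unfold btot
  rw [← ENNReal.tsum_mul_left]
  exact tsum_congr fun ω => by ring

open Classical in
/-- the weight of the displacement z -/
noncomputable def gam (w : Ω → ℝ≥0∞) (h₁ h₂ : Ω → ℕ) (p : Ω → Λ) (a b : Λ) (e : Ω → List Bool → List Bool → ℝ≥0∞)
    (z : Λ) : ℝ≥0∞ :=
  blk w h₁ h₂ fun ω b₁ b₂ => if dsp p a b ω b₁ b₂ = z then e ω b₁ b₂ else 0

private lemma gam_fib (w : Ω → ℝ≥0∞) (h₁ h₂ : Ω → ℕ) (p : Ω → Λ) (a b : Λ) (e : Ω → ℝ≥0∞) (z : Λ) :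
    gam w h₁ h₂ p a b (fun ω _ _ => e ω) z = ∑' ω, w ω * (e ω * knl (h₁ ω) (h₂ ω) a b (z - p ω)) := by
  classical
  unfold gam blk knl
  refine tsum_congr fun ω => ?_
  congr 1
  rw [← ENNReal.tsum_mul_left]
  refine tsum_congr fun b₁ => ?_
  rw [← ENNReal.tsum_mul_left]
  refine tsum_congr fun b₂ => ?_
  have h1 : dsp p a b ω b₁.1 b₂.1 = z ↔ latE b₁.1 • a + latE b₂.1 • b = z - p ω := by
    unfold dsp
    rw [eq_sub_iff_add_eq]
    constructor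
    · intro h
      rw [← h]
      abel
    · intro h
      rw [← h]
      abel
  show wE b₁.1 * (wE b₂.1 * if dsp p a b ω b₁.1 b₂.1 = z then e ω else 0) = _
  by_cases h : dsp p a b ω b₁.1 b₂.1 = z
  · rw [if_pos h, if_pos (h1.1 h)]
    ring
  · rw [if_neg h, if_neg fun h2 => h (h1.2 h2)]
    ring

/-- (S) the weight of one displacement -/
theorem blk_sup {C : ℝ} (hC : HSup C) {a b : Λ} (hab : Ind2 a b) {s : ℕ} (hs : 1 ≤ s) {w : Ω → ℝ≥0∞} {h₁ h₂ : Ω → ℕ}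
    (hh₁ : ∀ ω, w ω ≠ 0 → s ≤ h₁ ω) (hh₂ : ∀ ω, w ω ≠ 0 → s ≤ h₂ ω) (p : Ω → Λ)
    {e : Ω → List Bool → List Bool → ℝ≥0∞} (he : ∀ ω b₁ b₂, e ω b₁ b₂ ≤ 1) (z : Λ) :
    gam w h₁ h₂ p a b e z ≤ ENNReal.ofReal (C ^ 2 / s ^ 2) * btot w h₁ h₂ := by
  classical
  have h1 : gam w h₁ h₂ p a b e z ≤ gam w h₁ h₂ p a b (fun _ _ _ => 1) z := by
    unfold gam
    refine blk_mono fun ω b₁ b₂ => ?_
    split_ifs
    · exact he ω b₁ b₂
    · exact le_rfl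
  refine h1.trans ?_
  rw [gam_fib w h₁ h₂ p a b (fun _ => 1) z, ← btot_eq]
  refine ENNReal.tsum_le_tsum fun ω => ?_
  rcases eq_or_ne (w ω) 0 with h0 | h0
  · rw [h0, zero_mul, zero_mul]
  · rw [one_mul]
    exact mul_le_mul_right (knl_sup hC hab hs (hh₁ ω h0) (hh₂ ω h0) _) _

private lemma blk_equi1 {C C' κ : ℝ} (hC : HSup C) (hC' : HHol C' κ) {a b : Λ} (hab : Ind2 a b) {s : ℕ} (hs : 1 ≤ s)
    {w : Ω → ℝ≥0∞} {h₁ h₂ : Ω → ℕ} (hh₁ : ∀ ω, w ω ≠ 0 → s ≤ h₁ ω) (hh₂ : ∀ ω, w ω ≠ 0 → s ≤ h₂ ω) (p : Ω → Λ)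
    {e : Ω → ℝ≥0∞} (he : ∀ ω, e ω ≤ 1) (z : Λ) {x : ℤ} (hx : Even x) :
    gam w h₁ h₂ p a b (fun ω _ _ => e ω) (z + x • a) ≤ gam w h₁ h₂ p a b (fun ω _ _ => e ω) z +
      ENNReal.ofReal (C * C' * ((|x| : ℤ) / s : ℝ) ^ κ / s ^ 2) * btot w h₁ h₂ := by
  rw [gam_fib, gam_fib, ← btot_eq, ← ENNReal.tsum_add]
  refine ENNReal.tsum_le_tsum fun ω => ?_
  rcases eq_or_ne (w ω) 0 with h0 | h0
  · rw [h0, zero_mul, zero_mul, zero_mul, add_zero]
  · rw [← mul_add]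
    refine mul_le_mul_right ?_ _
    have h1 := knl_equi hC hC' hab hs (hh₁ ω h0) (hh₂ ω h0) (z - p ω) x hx
    rw [show z + x • a - p ω = z - p ω + x • a by abel]
    calc e ω * knl (h₁ ω) (h₂ ω) a b (z - p ω + x • a) ≤ e ω * (knl (h₁ ω) (h₂ ω) a b (z - p ω) +
          ENNReal.ofReal (C * C' * ((|x| : ℤ) / s : ℝ) ^ κ / s ^ 2) *
            (ENNReal.ofReal (uu (h₁ ω)) * ENNReal.ofReal (uu (h₂ ω)))) := mul_le_mul_right h1 _
      _ ≤ _ := by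
          rw [mul_add]
          exact add_le_add le_rfl (mul_le_of_le_one_left' (he ω))

private lemma gam_swap (w : Ω → ℝ≥0∞) (h₁ h₂ : Ω → ℕ) (p : Ω → Λ) (a b : Λ)
    (e : Ω → List Bool → List Bool → ℝ≥0∞) (z : Λ) :
    gam w h₁ h₂ p a b e z = gam w h₂ h₁ p b a (fun ω b₂ b₁ => e ω b₁ b₂) z := by
  classical
  unfold gam
  rw [blk_swap]
  congr 1
  funext ω b₂ b₁
  rw [dsp_swap]

theorem Ind2.symm {a b : Λ} (h : Ind2 a b) : Ind2 b a := fun X Y X' Y' h1 => by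
  have h2 : Y • a + X • b = Y' • a + X' • b := by
    rw [add_comm, h1, add_comm]
  exact (h _ _ _ _ h2).symm

/-- (E) equicontinuity in the displacement, for weights which do not see the inside of the two bridges -/
theorem blk_equi {C C' κ : ℝ} (hC : HSup C) (hC' : HHol C' κ) {a b : Λ} (hab : Ind2 a b) {s : ℕ} (hs : 1 ≤ s)
    {w : Ω → ℝ≥0∞} {h₁ h₂ : Ω → ℕ} (hh₁ : ∀ ω, w ω ≠ 0 → s ≤ h₁ ω) (hh₂ : ∀ ω, w ω ≠ 0 → s ≤ h₂ ω) (p : Ω → Λ)
    {e : Ω → ℝ≥0∞} (he : ∀ ω, e ω ≤ 1) (z : Λ) {x y : ℤ} (hx : Even x) (hy : Even y) :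
    gam w h₁ h₂ p a b (fun ω _ _ => e ω) (z + (x • a + y • b)) ≤ gam w h₁ h₂ p a b (fun ω _ _ => e ω) z +
      ENNReal.ofReal (C * C' * (((|x| : ℤ) / s : ℝ) ^ κ + ((|y| : ℤ) / s : ℝ) ^ κ) / s ^ 2) * btot w h₁ h₂ := by
  have h1 := blk_equi1 hC hC' hab hs hh₁ hh₂ p he (z + y • b) hx
  have h2 := blk_equi1 hC hC' hab.symm hs hh₂ hh₁ p he z hy
  rw [← gam_swap w h₁ h₂ p a b (fun ω _ _ => e ω), ← gam_swap w h₁ h₂ p a b (fun ω _ _ => e ω), btot_swap w h₂ h₁] at h2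
  have e1 : z + (x • a + y • b) = z + y • b + x • a := by abel
  have hs0 : (0 : ℝ) < s := by exact_mod_cast hs
  have hCC : 0 ≤ C * C' := mul_nonneg hC.1.le hC'.1.le
  have e2 : ENNReal.ofReal (C * C' * (((|x| : ℤ) / s : ℝ) ^ κ + ((|y| : ℤ) / s : ℝ) ^ κ) / s ^ 2) =
      ENNReal.ofReal (C * C' * ((|y| : ℤ) / s : ℝ) ^ κ / s ^ 2) +
        ENNReal.ofReal (C * C' * ((|x| : ℤ) / s : ℝ) ^ κ / s ^ 2) := by
    rw [← ENNReal.ofReal_add (by positivity) (by positivity)]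
    congr 1
    ring
  rw [e1, e2, add_mul, ← add_assoc]
  exact h1.trans (add_le_add h2 le_rfl)

private lemma blk_shift1 {ε : ℝ} {η : ℝ} {M : ℕ}
    (hone : ∀ h : ℕ, 1 ≤ h → ∀ x : ℤ, Even x → ((|x| : ℤ) : ℝ) ≤ η * h →
      ∀ (δ : ℝ≥0∞) (e : List Bool → ℝ≥0∞) (Ψ : ℤ → ℝ≥0∞), (∀ b, e b ≤ 1) → (∀ y, Ψ y ≤ 1) →
      (∀ b ∈ Brd h, ∀ b' ∈ Brd h, InB M h b → InB M h b' → e b ≤ e b' + δ) →
      ∑' b : Brd h, wE b.1 * (e b.1 * Ψ (latE b.1 - x)) ≤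
        ∑' b : Brd h, wE b.1 * (e b.1 * Ψ (latE b.1)) + (ENNReal.ofReal ε + 2 * δ) * ENNReal.ofReal (uu h))
    {w : Ω → ℝ≥0∞} {h₁ h₂ : Ω → ℕ} {s : ℕ} (hη : 0 < η) (hs : 1 ≤ s) (hh₁ : ∀ ω, w ω ≠ 0 → s ≤ h₁ ω)
    {x : ℤ} (hx : Even x) (hxs : ((|x| : ℤ) : ℝ) ≤ η * s) {δ : ℝ≥0∞} {e : Ω → List Bool → List Bool → ℝ≥0∞}
    (he : ∀ ω b₁ b₂, e ω b₁ b₂ ≤ 1)
    (hosc : ∀ ω, w ω ≠ 0 → ∀ b₂ ∈ Brd (h₂ ω), ∀ b ∈ Brd (h₁ ω), ∀ b' ∈ Brd (h₁ ω), InB M (h₁ ω) b →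
      InB M (h₁ ω) b' → e ω b b₂ ≤ e ω b' b₂ + δ)
    (p : Ω → Λ) (a b : Λ) {Φ : Λ → ℝ≥0∞} (hΦ : ∀ z, Φ z ≤ 1) :
    blk w h₁ h₂ (fun ω b₁ b₂ => e ω b₁ b₂ * Φ (dsp p a b ω b₁ b₂ - x • a)) ≤
      blk w h₁ h₂ (fun ω b₁ b₂ => e ω b₁ b₂ * Φ (dsp p a b ω b₁ b₂)) +
        (ENNReal.ofReal ε + 2 * δ) * btot w h₁ h₂ := by
  rw [blk_swap w h₁ h₂, blk_swap w h₁ h₂, ← btot_eq]
  unfold blk
  rw [← ENNReal.tsum_add]
  refine ENNReal.tsum_le_tsum fun ω => ?_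
  rcases eq_or_ne (w ω) 0 with h0 | h0
  · rw [h0, zero_mul, zero_mul, zero_mul, add_zero]
  rw [← mul_add]
  refine mul_le_mul_right ?_ _
  have hh := hh₁ ω h0
  have hxh : ((|x| : ℤ) : ℝ) ≤ η * h₁ ω := by
    refine hxs.trans (mul_le_mul_of_nonneg_left ?_ hη.le)
    exact_mod_cast hh
  have h1 : ∀ b₂ : Brd (h₂ ω), ∑' b₁ : Brd (h₁ ω), wE b₂.1 * (wE b₁.1 * (e ω b₁.1 b₂.1 *
      Φ (dsp p a b ω b₁.1 b₂.1 - x • a))) ≤
      ∑' b₁ : Brd (h₁ ω), wE b₂.1 * (wE b₁.1 * (e ω b₁.1 b₂.1 * Φ (dsp p a b ω b₁.1 b₂.1))) +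
        wE b₂.1 * ((ENNReal.ofReal ε + 2 * δ) * ENNReal.ofReal (uu (h₁ ω))) := by
    intro b₂
    rw [ENNReal.tsum_mul_left, ENNReal.tsum_mul_left, ← mul_add]
    refine mul_le_mul_right ?_ _
    have h2 := hone (h₁ ω) (hs.trans hh) x hx hxh δ (fun b₁ => e ω b₁ b₂.1)
      (fun y => Φ (p ω + y • a + latE b₂.1 • b)) (fun b₁ => he ω b₁ b₂.1) (fun y => hΦ _)
      (fun b hb b' hb' hM hM' => hosc ω h0 b₂.1 b₂.2 b hb b' hb' hM hM')
    refine le_trans (le_of_eq ?_) h2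
    refine tsum_congr fun b₁ => ?_
    congr 3
    unfold dsp
    rw [sub_smul]
    abel
  refine (ENNReal.tsum_le_tsum h1).trans ?_
  rw [ENNReal.tsum_add]
  refine add_le_add le_rfl (le_of_eq ?_)
  rw [ENNReal.tsum_mul_right, sum_w]
  ring

/-- (L) continuity in total variation: test functions of the displacement, `e` oscillates by at most `δ` when one of
the two bridges changes inside its box -/
theorem blk_shift {ε : ℝ} (hε : 0 < ε) : ∃ (η : ℝ) (M : ℕ), 0 < η ∧ ∀ {Ω : Type*} {Λ : Type*} [AddCommGroup Λ]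
    {w : Ω → ℝ≥0∞} {h₁ h₂ : Ω → ℕ} {s : ℕ} (_ : 1 ≤ s) (_ : ∀ ω, w ω ≠ 0 → s ≤ h₁ ω) (_ : ∀ ω, w ω ≠ 0 → s ≤ h₂ ω)
    {x y : ℤ} (_ : Even x) (_ : Even y) (_ : ((|x| : ℤ) : ℝ) ≤ η * s) (_ : ((|y| : ℤ) : ℝ) ≤ η * s) {δ : ℝ≥0∞}
    {e : Ω → List Bool → List Bool → ℝ≥0∞} (_ : ∀ ω b₁ b₂, e ω b₁ b₂ ≤ 1)
    (_ : ∀ ω, w ω ≠ 0 → ∀ b₂ ∈ Brd (h₂ ω), ∀ b ∈ Brd (h₁ ω), ∀ b' ∈ Brd (h₁ ω), InB M (h₁ ω) b →
      InB M (h₁ ω) b' → e ω b b₂ ≤ e ω b' b₂ + δ)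
    (_ : ∀ ω, w ω ≠ 0 → ∀ b₁ ∈ Brd (h₁ ω), ∀ b ∈ Brd (h₂ ω), ∀ b' ∈ Brd (h₂ ω), InB M (h₂ ω) b →
      InB M (h₂ ω) b' → e ω b₁ b ≤ e ω b₁ b' + δ)
    (p : Ω → Λ) (a b : Λ) {Φ : Λ → ℝ≥0∞} (_ : ∀ z, Φ z ≤ 1),
    blk w h₁ h₂ (fun ω b₁ b₂ => e ω b₁ b₂ * Φ (dsp p a b ω b₁ b₂ - (x • a + y • b))) ≤
      blk w h₁ h₂ (fun ω b₁ b₂ => e ω b₁ b₂ * Φ (dsp p a b ω b₁ b₂)) +
        (ENNReal.ofReal ε + 4 * δ) * btot w h₁ h₂ := by
  obtain ⟨η, M, hη, hone⟩ := one_osc (half_pos hε)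
  refine ⟨η, M, hη, ?_⟩
  intro Ω Λ _ w h₁ h₂ s hs hh₁ hh₂ x y hx hy hxs hys δ e he ho₁ ho₂ p a b Φ hΦ
  have h1 := blk_shift1 (w := w) (h₁ := h₁) (h₂ := h₂) hone hη hs hh₁ hx hxs he ho₁ p a b
    (Φ := fun z => Φ (z - y • b)) (fun z => hΦ _)
  have h2 := blk_shift1 (w := w) (h₁ := h₂) (h₂ := h₁) (e := fun ω b₂ b₁ => e ω b₁ b₂) hone hη hs hh₂ hy hys
    (fun ω b₂ b₁ => he ω b₁ b₂) ho₂ p b a (Φ := Φ) hΦ
  rw [blk_swap w h₂ h₁, blk_swap w h₂ h₁, btot_swap w h₂ h₁] at h2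
  have e1 : (fun ω b₁ b₂ => e ω b₁ b₂ * Φ (dsp p a b ω b₁ b₂ - (x • a + y • b))) =
      fun ω b₁ b₂ => e ω b₁ b₂ * Φ (dsp p a b ω b₁ b₂ - x • a - y • b) := by
    funext ω b₁ b₂
    rw [sub_sub]
  have e2 : (fun ω b₁ b₂ => e ω b₁ b₂ * Φ (dsp p b a ω b₂ b₁ - y • b)) =
      fun ω b₁ b₂ => e ω b₁ b₂ * Φ (dsp p a b ω b₁ b₂ - y • b) := by
    funext ω b₁ b₂
    rw [dsp_swap]
  have e3 : (fun ω b₁ b₂ => e ω b₁ b₂ * Φ (dsp p b a ω b₂ b₁)) =
      fun ω b₁ b₂ => e ω b₁ b₂ * Φ (dsp p a b ω b₁ b₂) := by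
    funext ω b₁ b₂
    rw [dsp_swap]
  rw [e2, e3] at h2
  rw [e1]
  refine (h1.trans (add_le_add h2 le_rfl)).trans (le_of_eq ?_)
  have e4 : ENNReal.ofReal ε = ENNReal.ofReal (ε / 2) + ENNReal.ofReal (ε / 2) := by
    rw [← ENNReal.ofReal_add (by positivity) (by positivity), add_halves]
  rw [e4]
  ring

end Two

end FP

end ROT

end HexObs
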