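import Pool.Agent.ROT.F3MidW
import Pool.Agent.ROT.F3LimF

/-!
# ROT / F3Unit (helper72): change of units

The classes have a natural scale `M`: lengths in units `M`, numbers of letters in units `M ^ (4 / 3)`; the walks of F3Tip12 have the
units `size n`, `n`.

* **`Cv.mapl`** : `law (c i) → ν`, `F i → F0` locally uniformly near compact sets ⇒ `law (F i (c i)) → ν.map F0`;
* `um r k` : `(γ, t) ↦ (r γ, k t)`; `cr_unit`, `rm_unit`;
* **`um_lim`** : weak limits in the units `(s, t)` ⇒ weak limits in the units `(s', t')` if `s / s' → 1`, `t / t' → κ`; `rm_lim`.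
-/

set_option autoImplicit false

open MeasureTheory Filter Topology Set
open scoped ENNReal NNReal BoundedContinuousFunction

namespace Pool.Agent.ROT.F3

/-! ### 1. Maps which converge near the compact sets -/

/-- continuous maps near compact sets -/
lemma unif_nearY {X Y : Type*} [PseudoMetricSpace X] [PseudoMetricSpace Y] {K : Set X} (hK : IsCompact K) {G : X → Y}
    (hG : Continuous G) {ε : ℝ} (hε : 0 < ε) : ∃ δ : ℝ, 0 < δ ∧ ∀ x ∈ K, ∀ y : X, dist x y ≤ δ → dist (G x) (G y) ≤ ε := by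
  have h1 := hK.uniformContinuousAt_of_continuousAt (r := {p : Y × Y | dist p.1 p.2 < ε}) G (fun x _ => hG.continuousAt)
    (Metric.dist_mem_uniformity hε)
  obtain ⟨δ, hδ, h2⟩ := Metric.mem_uniformity_dist.1 h1
  refine ⟨δ / 2, by positivity, fun x hx y hxy => ?_⟩
  have h3 := h2 (lt_of_le_of_lt hxy (by linarith)) hx
  exact le_of_lt h3

/-- the maps `F i` converge to `F0` near the compact sets -/
def CvF {ι X Y : Type*} [PseudoMetricSpace X] [PseudoMetricSpace Y] (l : Filter ι) (F : ι → X → Y) (F0 : X → Y) : Prop :=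
  ∀ K : Set X, IsCompact K → ∀ ε : ℝ, 0 < ε → ∃ δ : ℝ, 0 < δ ∧ ∀ᶠ i in l, ∀ x ∈ Metric.thickening δ K, dist (F i x) (F0 x) ≤ ε

/-- **the laws of the images converge** -/
theorem Cv.mapl {ι : Type*} {l : Filter ι} {Ω : ι → Type*} [∀ i, MeasurableSpace (Ω i)] {P : ∀ i, Measure (Ω i)}
    {X : Type*} [PseudoMetricSpace X] [CompleteSpace X] [SecondCountableTopology X] [MeasurableSpace X] [BorelSpace X]
    {Y : Type*} [PseudoMetricSpace Y] [MeasurableSpace Y] [BorelSpace Y]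
    {c : ∀ i, Ω i → X} {ν : Measure X} (h : LF.Cv l P c ν) {F : ι → X → Y} {F0 : X → Y} (hF0 : Continuous F0)
    (hm : ∀ i, Measurable (F i)) (hF : CvF l F F0) : LF.Cv l P (fun i ω => F i (c i ω)) (ν.map F0) where
  fin := h.fin
  fin' := by
    have := h.fin'
    infer_instance
  ms := fun i => (hm i).comp (h.ms i)
  lim := by
    intro G
    have hν := h.fin'
    have e0 : ∫ y, G y ∂(ν.map F0) = ∫ x, G (F0 x) ∂ν :=
      integral_map hF0.measurable.aemeasurable G.continuous.measurable.aestronglyMeasurable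
    rw [e0]
    have h0 : Tendsto (fun i => ∫ ω, G (F0 (c i ω)) ∂P i) l (𝓝 (∫ x, G (F0 x) ∂ν)) := h.lim (G.compContinuous ⟨F0, hF0⟩)
    obtain ⟨B, hB0, -, hB⟩ := h.bd
    rw [Metric.tendsto_nhds] at h0 ⊢
    intro ε hε
    obtain ⟨C, hC⟩ : ∃ C : ℝ, C = ‖G‖ + 1 := ⟨_, rfl⟩
    have hC0 : 0 < C := by
      rw [hC]
      positivity
    obtain ⟨K, hK, hK2⟩ := h.tight (show (0 : ℝ) < ε / (8 * C) by positivity)
    obtain ⟨δ1, hδ1, u1⟩ := unif_nearY (hK.image hF0) G.continuous (show (0 : ℝ) < ε / (8 * B) by positivity)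
    obtain ⟨δ2, hδ2, u2⟩ := unif_nearY hK hF0 (show (0 : ℝ) < δ1 / 2 by positivity)
    obtain ⟨δ3, hδ3, u3⟩ := hF K hK (δ1 / 2) (by positivity)
    obtain ⟨δ, hδ⟩ : ∃ δ : ℝ, δ = min δ2 δ3 := ⟨_, rfl⟩
    have hδ0 : 0 < δ := by
      rw [hδ]
      exact lt_min hδ2 hδ3
    obtain ⟨T, T01, T1, -, T3⟩ := hK2 δ hδ0
    filter_upwards [h0 (ε / 4) (by positivity), hB, u3, T3] with i i1 i2 i3 i4
    have := h.fin i
    have hpt : ∀ x : X, |G (F i x) - G (F0 x)| ≤ ε / (4 * B) + 2 * C * T x := by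
      intro x
      have t0 := (T01 x).1
      by_cases hx : x ∈ Metric.thickening δ K
      · obtain ⟨x0, hx0, hd⟩ := Metric.mem_thickening_iff.1 hx
        have k2 : dist (F0 x0) (F0 x) ≤ δ1 / 2 := by
          refine u2 x0 hx0 x ?_
          rw [dist_comm]
          exact hd.le.trans (by rw [hδ]; exact min_le_left _ _)
        have k3 : dist (F i x) (F0 x) ≤ δ1 / 2 := by
          refine i3 x (Metric.thickening_mono ?_ K hx)
          rw [hδ]
          exact min_le_right _ _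
        have k4 := u1 (F0 x0) (mem_image_of_mem F0 hx0) (F i x) (by
          have := dist_triangle (F0 x0) (F0 x) (F i x)
          rw [dist_comm (F0 x) (F i x)] at this
          linarith)
        have k5 := u1 (F0 x0) (mem_image_of_mem F0 hx0) (F0 x) (by linarith)
        rw [Real.dist_eq] at k4 k5
        have e1 : ε / (4 * B) = ε / (8 * B) + ε / (8 * B) := by
          field_simp
          norm_num
        have k6 : |G (F i x) - G (F0 x)| ≤ |G (F0 x0) - G (F i x)| + |G (F0 x0) - G (F0 x)| := by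
          have e2 : G (F i x) - G (F0 x) = -(G (F0 x0) - G (F i x)) + (G (F0 x0) - G (F0 x)) := by ring
          rw [e2]
          refine (abs_add_le _ _).trans ?_
          rw [abs_neg]
        have k7 : 0 ≤ 2 * C * T x := by positivity
        linarith
      · rw [T1 x hx]
        have k1 := LF.bcf_bd G (F i x)
        have k2 := LF.bcf_bd G (F0 x)
        have k3 := abs_sub (G (F i x)) (G (F0 x))
        have k4 : 0 < ε / (4 * B) := by positivity
        rw [hC]
        linarith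
    have n1 : Integrable (fun ω => G (F i (c i ω))) (P i) :=
      LF.itg (G.continuous.measurable.comp ((hm i).comp (h.ms i))) fun ω => LF.bcf_bd G _
    have n2 : Integrable (fun ω => G (F0 (c i ω))) (P i) :=
      LF.itg (G.continuous.measurable.comp (hF0.measurable.comp (h.ms i))) fun ω => LF.bcf_bd G _
    have n3 : Integrable (fun ω => T (c i ω)) (P i) := h.int_c T i
    have key : |∫ ω, G (F i (c i ω)) ∂P i - ∫ ω, G (F0 (c i ω)) ∂P i| ≤ ε / 2 := by
      rw [← integral_sub n1 n2]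
      calc |∫ ω, (G (F i (c i ω)) - G (F0 (c i ω))) ∂P i| ≤ ∫ ω, |G (F i (c i ω)) - G (F0 (c i ω))| ∂P i :=
            abs_integral_le_integral_abs
        _ ≤ ∫ ω, (ε / (4 * B) + 2 * C * T (c i ω)) ∂P i :=
            integral_mono_of_nonneg (Eventually.of_forall fun ω => abs_nonneg _)
              ((integrable_const _).add (n3.const_mul _)) (Eventually.of_forall fun ω => hpt (c i ω))
        _ = ε / (4 * B) * (P i).real univ + 2 * C * ∫ ω, T (c i ω) ∂P i := by
            rw [integral_add (integrable_const _) (n3.const_mul _), integral_const, integral_const_mul, smul_eq_mul]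
            ring
        _ ≤ ε / (4 * B) * B + 2 * C * (ε / (8 * C)) := by gcongr
        _ = ε / 2 := by
            field_simp
            norm_num
    rw [Real.dist_eq] at i1 ⊢
    have k8 : ∫ ω, G (F i (c i ω)) ∂P i - ∫ x, G (F0 x) ∂ν = (∫ ω, G (F i (c i ω)) ∂P i - ∫ ω, G (F0 (c i ω)) ∂P i) +
        (∫ ω, G (F0 (c i ω)) ∂P i - ∫ x, G (F0 x) ∂ν) := by ring
    rw [k8]
    refine (abs_add_le _ _).trans_lt ?_
    linarith

/-! ### 2. The units -/

/-- change of the units of lengths and of durations -/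
noncomputable def um (r k : ℝ) (x : CI3 × ℝ) : CI3 × ℝ := (r • x.1, k * x.2)

lemma um_cont (r k : ℝ) : Continuous (um r k) := by
  unfold um
  fun_prop

lemma um_um (r k r' k' : ℝ) (x : CI3 × ℝ) : um r k (um r' k' x) = um (r * r') (k * k') x := by
  unfold um
  rw [smul_smul, mul_assoc]

lemma um_dist (r k r' k' : ℝ) (x : CI3 × ℝ) : dist (um r k x) (um r' k' x) ≤ (|r - r'| + |k - k'|) * ‖x‖ := by
  unfold um
  rw [Prod.dist_eq]
  refine max_le ?_ ?_
  · show dist (r • x.1) (r' • x.1) ≤ _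
    have e : r • x.1 - r' • x.1 = (r - r') • x.1 := (sub_smul r r' x.1).symm
    rw [dist_eq_norm, e, norm_smul, Real.norm_eq_abs]
    refine mul_le_mul ?_ (norm_fst_le x) (norm_nonneg _) (by positivity)
    linarith [abs_nonneg (k - k')]
  · show dist (k * x.2) (k' * x.2) ≤ _
    rw [dist_eq_norm, ← sub_mul, norm_mul, Real.norm_eq_abs (k - k')]
    refine mul_le_mul ?_ (norm_snd_le x) (norm_nonneg _) (by positivity)
    linarith [abs_nonneg (r - r')]

/-- the changes of units converge -/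
lemma um_cv {ι : Type*} {l : Filter ι} {r k : ι → ℝ} {r0 k0 : ℝ} (hr : Tendsto r l (𝓝 r0)) (hk : Tendsto k l (𝓝 k0)) :
    CvF l (fun i => um (r i) (k i)) (um r0 k0) := by
  intro K hK ε hε
  obtain ⟨A, hA⟩ := hK.isBounded.exists_norm_le
  have hA0 : 0 < |A| + 2 := by positivity
  refine ⟨1, one_pos, ?_⟩
  filter_upwards [Metric.tendsto_nhds.1 hr (ε / (2 * (|A| + 2))) (by positivity),
    Metric.tendsto_nhds.1 hk (ε / (2 * (|A| + 2))) (by positivity)] with i i1 i2 x hx
  obtain ⟨x0, hx0, hd⟩ := Metric.mem_thickening_iff.1 hx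
  have h1 : ‖x‖ ≤ |A| + 2 := by
    have h2 := hA x0 hx0
    have h3 : ‖x‖ ≤ ‖x0‖ + dist x x0 := by
      rw [dist_eq_norm]
      calc ‖x‖ = ‖x0 + (x - x0)‖ := by rw [add_sub_cancel]
        _ ≤ _ := norm_add_le _ _
    linarith [le_abs_self A]
  rw [Real.dist_eq] at i1 i2
  calc dist (um (r i) (k i) x) (um r0 k0 x) ≤ (|r i - r0| + |k i - k0|) * ‖x‖ := um_dist _ _ _ _ _
    _ ≤ (ε / (2 * (|A| + 2)) + ε / (2 * (|A| + 2))) * (|A| + 2) := by gcongr
    _ = ε := by
        field_simp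
        norm_num

/-- **weak limits in other units**, any measures on `CI3 × ℝ` -/
theorem um_lim {ι : Type*} {l : Filter ι} {μ : ι → Measure (CI3 × ℝ)} {m : Measure (CI3 × ℝ)} (hμ : ∀ i, IsFiniteMeasure (μ i))
    [hm : IsFiniteMeasure m] (h : ∀ g : (CI3 × ℝ) →ᵇ ℝ, Tendsto (fun i => ∫ x, g x ∂μ i) l (𝓝 (∫ x, g x ∂m)))
    {r k : ι → ℝ} {r0 k0 : ℝ} (hr : Tendsto r l (𝓝 r0)) (hk : Tendsto k l (𝓝 k0)) (g : (CI3 × ℝ) →ᵇ ℝ) :
    Tendsto (fun i => ∫ x, g x ∂((μ i).map (um (r i) (k i)))) l (𝓝 (∫ x, g x ∂(m.map (um r0 k0)))) := by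
  have hc : LF.Cv l μ (fun i x => x) m := ⟨hμ, hm, fun i => measurable_id, h⟩
  have h1 := (Cv.mapl hc (um_cont r0 k0) (fun i => (um_cont (r i) (k i)).measurable) (um_cv hr hk)).lim g
  refine h1.congr fun i => ?_
  exact (integral_map (um_cont _ _).measurable.aemeasurable g.continuous.measurable.aestronglyMeasurable).symm

/-- **laws of pieces in other units**: `c i ω` = (curve, duration) of the piece in the old units -/
theorem um_cvl {ι : Type*} {l : Filter ι} {Ω : ι → Type*} [∀ i, MeasurableSpace (Ω i)] {P : ∀ i, Measure (Ω i)}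
    {c : ∀ i, Ω i → CI3 × ℝ} {ν : Measure (CI3 × ℝ)} (h : LF.Cv l P c ν) {r k : ι → ℝ} {r0 k0 : ℝ}
    (hr : Tendsto r l (𝓝 r0)) (hk : Tendsto k l (𝓝 k0)) :
    LF.Cv l P (fun i ω => um (r i) (k i) (c i ω)) (ν.map (um r0 k0)) :=
  Cv.mapl h (um_cont r0 k0) (fun i => (um_cont (r i) (k i)).measurable) (um_cv hr hk)

lemma crv_unit (w : W3) (n : ℕ) {s s' : ℝ} (hs : s ≠ 0) : crv w n s' = (s / s') • crv w n s := by
  ext u
  have e : ∀ z : ℂ, z / (s' : ℂ) = ((s / s' : ℝ) : ℂ) * (z / (s : ℂ)) := by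
    intro z
    have h1 : (s : ℂ) ≠ 0 := by exact_mod_cast hs
    push_cast
    field_simp
  show ps w 0 / (s' : ℂ) + ∑ i ∈ Finset.range n, ((max 0 (min 1 ((u : ℝ) * n - i)) : ℝ) : ℂ) *
      (ps w (i + 1) / (s' : ℂ) - ps w i / (s' : ℂ)) =
    (s / s') • (ps w 0 / (s : ℂ) + ∑ i ∈ Finset.range n, ((max 0 (min 1 ((u : ℝ) * n - i)) : ℝ) : ℂ) *
      (ps w (i + 1) / (s : ℂ) - ps w i / (s : ℂ)))
  rw [Complex.real_smul, mul_add, Finset.mul_sum, e (ps w 0)]
  congr 1
  refine Finset.sum_congr rfl fun i _ => ?_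
  rw [e (ps w (i + 1)), e (ps w i)]
  ring

/-- (curve, duration) of a rest in other units -/
lemma cr_unit {s s' t t' : ℝ} (hs : s ≠ 0) (ht : t ≠ 0) (R : W3) : cr s' t' R = um (s / s') (t / t') (cr s t R) := by
  unfold cr um
  rw [crv_unit R R.length hs]
  congr 1
  field_simp

/-- the law of the rests in other units -/
lemma rm_unit {s s' t t' : ℝ} (hs : s ≠ 0) (ht : t ≠ 0) (c : ℝ≥0∞) (Rs : Set W3) (w : W3 → ℝ) :
    rm c s' t' Rs w = (rm c s t Rs w).map (um (s / s') (t / t')) := by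
  unfold rm
  rw [Measure.map_sum (um_cont _ _).measurable.aemeasurable]
  congr 1
  funext R
  have e := Measure.map_dirac' (um_cont (s / s') (t / t')).measurable (cr s t R)
  rw [Measure.map_smul, e, ← cr_unit hs ht]

/-- **the laws of the rests in other units** -/
theorem rm_lim {ι : Type*} {l : Filter ι} {c : ι → ℝ≥0∞} {s s' t t' : ι → ℝ} {Rs : ι → Set W3} {w : ι → W3 → ℝ}
    (hs : ∀ᶠ i in l, s i ≠ 0) (ht : ∀ᶠ i in l, t i ≠ 0) (hf : ∀ i, IsFiniteMeasure (rm (c i) (s i) (t i) (Rs i) (w i)))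
    {m : Measure (CI3 × ℝ)} [IsFiniteMeasure m]
    (h : ∀ g : (CI3 × ℝ) →ᵇ ℝ, Tendsto (fun i => ∫ x, g x ∂(rm (c i) (s i) (t i) (Rs i) (w i))) l (𝓝 (∫ x, g x ∂m)))
    {r0 k0 : ℝ} (hr : Tendsto (fun i => s i / s' i) l (𝓝 r0)) (hk : Tendsto (fun i => t i / t' i) l (𝓝 k0))
    (g : (CI3 × ℝ) →ᵇ ℝ) :
    Tendsto (fun i => ∫ x, g x ∂(rm (c i) (s' i) (t' i) (Rs i) (w i))) l (𝓝 (∫ x, g x ∂(m.map (um r0 k0)))) := by
  refine (um_lim hf h hr hk g).congr' ?_
  filter_upwards [hs, ht] with i h1 h2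
  rw [← rm_unit h1 h2]

end Pool.Agent.ROT.F3
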