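import Pool.Agent.ROT.F3L2
import Pool.Agent.ROT.F3Sup
import Pool.Agent.ROT.F3Stage

/-!
# ROT, F3, row W7 (helper63): from one companion to the clause of `sup_loc`

* `cc_fin`, `KK_compact` : a companion has finitely many cells, its region is compact;
* `JR_norm_ge`, `JR_cont` : the skew coordinates;
* `amb κ K δ` : the closed region of a companion in the plane; `amb_far1`, `amb_far2` : distances;
* `gN_mem` : the curve of a word whose vertices are near the cells is in the region;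
* **`one_comp`** : the clause of `sup_loc` for one companion.
-/

set_option autoImplicit false

namespace Pool.Agent.ROT.F3.Ln

open Filter Topology Set MeasureTheory
open HexObs (Pt dirs cl)
open HexObs.ROT.F3S (PathC CC CN NC Comp)
open HexObs.ARM (nr nr_iff TubeQ)
open NTF (JJ)
open scoped ENNReal

/-! ### 1. The cells of a companion -/

lemma nc_fin (n : Pt) : {c : ℤ × ℤ | NC n c}.Finite := by
  refine ((Set.finite_Icc ((n.1 - 1, n.2 - 1) : ℤ × ℤ) (n.1 + 1, n.2 + 1)).image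
    (fun m : ℤ × ℤ => (m.1 / 4, m.2 / 4))).subset ?_
  rintro c ⟨m, h1, h2, rfl⟩
  rw [abs_le] at h1 h2
  exact ⟨m, ⟨Prod.mk_le_mk.2 ⟨by omega, by omega⟩, Prod.mk_le_mk.2 ⟨by omega, by omega⟩⟩, rfl⟩

lemma cc_fin (M : List (ℤ × ℤ)) (x0 x1 ω0 ω1 : ℤ × ℤ) (s s' : ℕ) : {c | CC M x0 x1 ω0 ω1 s s' c}.Finite := by
  have h1 : {c : ℤ × ℤ | c ∈ M}.Finite := List.finite_toSet M
  have h2 : ∀ (x ω : ℤ × ℤ) (t : ℕ), (⋃ i ∈ Set.Iic t, {c | NC (HexObs.ART.ctr x + (i : ℤ) • ω) c}).Finite := fun x ω t =>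
    (Set.finite_Iic t).biUnion fun i _ => nc_fin _
  refine ((h1.union (h2 x0 ω0 s)).union (h2 x1 ω1 s')).subset ?_
  rintro c (h | ⟨i, hi, h⟩ | ⟨i, hi, h⟩)
  · exact Or.inl (Or.inl h)
  · exact Or.inl (Or.inr (Set.mem_biUnion (show i ∈ Set.Iic s from hi) h))
  · exact Or.inr (Set.mem_biUnion (show i ∈ Set.Iic s' from hi) h)

lemma fin_bdd {S : Set (ℤ × ℤ)} (h : S.Finite) : ∃ B : ℝ, ∀ c ∈ S, |(c.1 : ℝ)| ≤ B ∧ |(c.2 : ℝ)| ≤ B := by
  obtain ⟨B1, h1⟩ := (h.image fun c => |(c.1 : ℝ)|).bddAbove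
  obtain ⟨B2, h2⟩ := (h.image fun c => |(c.2 : ℝ)|).bddAbove
  exact ⟨max B1 B2, fun c hc => ⟨(h1 ⟨c, hc, rfl⟩).trans (le_max_left _ _), (h2 ⟨c, hc, rfl⟩).trans (le_max_right _ _)⟩⟩

lemma cellR_compact (m : ℝ) (c : ℤ × ℤ) : IsCompact (cellR m c) := by
  have e : cellR m c = Set.Icc (m * c.1) (m * (c.1 + 1)) ×ˢ Set.Icc (m * c.2) (m * (c.2 + 1)) := by
    ext x
    simp only [cellR, Set.mem_ofPred_eq, Set.mem_prod, Set.mem_Icc]
    tauto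
  rw [e]
  exact isCompact_Icc.prod isCompact_Icc

lemma KK_compact {μ : ℝ} {C : ℤ × ℤ → Prop} (h : {c | C c}.Finite) : IsCompact (KK μ C) := by
  have h1 : (⋃ c ∈ {c | C c}, {c' : ℤ × ℤ | nr 1 c c'}).Finite := by
    refine h.biUnion fun c _ => (Set.finite_Icc ((c.1 - 1, c.2 - 1) : ℤ × ℤ) (c.1 + 1, c.2 + 1)).subset ?_
    intro c' hc'
    have h2 := nr_iff.1 (show nr 1 c c' from hc')
    exact ⟨Prod.mk_le_mk.2 ⟨by omega, by omega⟩, Prod.mk_le_mk.2 ⟨by omega, by omega⟩⟩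
  have e : KK μ C = ⋃ c' ∈ (⋃ c ∈ {c | C c}, {c' : ℤ × ℤ | nr 1 c c'}), cellR (4 * μ) c' := by
    ext x
    constructor
    · rintro ⟨c, c', hc, hn, hx⟩
      exact Set.mem_biUnion (Set.mem_biUnion (show c ∈ {c | C c} from hc) (show c' ∈ {c' : ℤ × ℤ | nr 1 c c'} from hn)) hx
    · intro hx
      obtain ⟨c', h2, h3⟩ := Set.mem_iUnion₂.1 hx
      obtain ⟨c, h4, h5⟩ := Set.mem_iUnion₂.1 h2
      exact ⟨c, c', h4, h5, h3⟩
  rw [e]
  exact h1.isCompact_biUnion fun c _ => cellR_compact _ _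

/-! ### 2. The skew coordinates -/

lemma JR_sub (x y : ℝ × ℝ) : JR (x - y) = JR x - JR y := by
  unfold JR
  apply Complex.ext
  · simp only [Prod.fst_sub, Prod.snd_sub, Complex.sub_re]
    ring
  · simp only [Prod.fst_sub, Complex.sub_im]
    ring

lemma JR_norm_ge (x : ℝ × ℝ) : ‖x‖ ≤ 2 * ‖JR x‖ := by
  have h3 : Real.sqrt 3 * Real.sqrt 3 = 3 := Real.mul_self_sqrt (by norm_num)
  have h1 : ‖JR x‖ ^ 2 = x.1 ^ 2 + x.1 * x.2 + x.2 ^ 2 := by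
    rw [← Complex.normSq_eq_norm_sq, Complex.normSq_apply]
    unfold JR
    simp only
    linear_combination (x.1 ^ 2 / 4) * h3
  have h2 : ∀ a b : ℝ, a ^ 2 + a * b + b ^ 2 = ‖JR x‖ ^ 2 → |a| ≤ 2 * ‖JR x‖ := by
    intro a b h
    have h4 : |a| ^ 2 ≤ (2 * ‖JR x‖) ^ 2 := by
      rw [sq_abs, mul_pow, ← h]
      nlinarith [sq_nonneg (a + 2 * b)]
    exact abs_le_of_sq_le_sq' h4 (by positivity) |>.2
  rw [Prod.norm_def]
  refine max_le ?_ ?_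
  · rw [Real.norm_eq_abs]
    exact h2 x.1 x.2 h1.symm
  · rw [Real.norm_eq_abs]
    exact h2 x.2 x.1 (by rw [h1]; ring)

lemma JR_dist (x y : ℝ × ℝ) : dist (JR x) (JR y) ≤ 3 * dist x y ∧ dist x y ≤ 2 * dist (JR x) (JR y) := by
  rw [dist_eq_norm, dist_eq_norm, ← JR_sub]
  exact ⟨JR_norm_le _, JR_norm_ge _⟩

lemma JR_cont : Continuous JR := by
  refine (LipschitzWith.of_dist_le_mul (K := 3) fun x y => ?_).continuous
  exact (JR_dist x y).1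

/-! ### 3. The region of a companion -/

/-- the region of a companion in the plane -/
noncomputable def amb (κ : ℂ) (δ : ℝ) (K : Set (ℝ × ℝ)) : Set ℂ := Metric.cthickening δ ((fun x => κ * JR x) '' K)

lemma amb_closed (κ : ℂ) (δ : ℝ) (K : Set (ℝ × ℝ)) : IsClosed (amb κ δ K) := Metric.isClosed_cthickening

lemma amb_pt {κ : ℂ} {δ : ℝ} {K : Set (ℝ × ℝ)} (hδ : 0 ≤ δ) (hK : IsCompact K) {k : ℂ} (hk : k ∈ amb κ δ K) :
    ∃ x ∈ K, dist k (κ * JR x) ≤ δ := by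
  have hc : IsCompact ((fun x => κ * JR x) '' K) := hK.image (continuous_const.mul JR_cont)
  unfold amb at hk
  rw [hc.cthickening_eq_biUnion_closedBall hδ] at hk
  obtain ⟨k0, ⟨x, hx, rfl⟩, h2⟩ := Set.mem_iUnion₂.1 hk
  exact ⟨x, hx, h2⟩

lemma kJR_dist {κ : ℂ} (hκ : ‖κ‖ = 1) (x y : ℝ × ℝ) : dist x y ≤ 2 * dist (κ * JR x) (κ * JR y) := by
  refine (JR_dist x y).2.trans (le_of_eq ?_)
  rw [dist_eq_norm (κ * JR x), ← mul_sub, norm_mul, hκ, one_mul, dist_eq_norm]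

/-- distance of the curve from the region -/
lemma amb_far1 {κ : ℂ} (hκ : ‖κ‖ = 1) {η δ : ℝ} (hδ : 0 ≤ δ) (hδη : 8 * δ ≤ η) (hη : 0 < η) {K : Set (ℝ × ℝ)}
    (hK : IsCompact K) {p : ℝ × ℝ} (h : ∀ k ∈ K, η ≤ dist p k) : ∀ k ∈ amb κ δ K, η / 4 < dist (κ * JR p) k := by
  intro k hk
  obtain ⟨x, hx, h1⟩ := amb_pt hδ hK hk
  have h2 := h x hx
  have h3 := kJR_dist hκ p x
  have h4 := dist_triangle (κ * JR p) k (κ * JR x)
  linarith

/-- distance of the two regions -/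
lemma amb_far2 {κ : ℂ} (hκ : ‖κ‖ = 1) {η δ : ℝ} (hδ : 0 ≤ δ) (hδη : 8 * δ ≤ η) (hη : 0 < η) {K K' : Set (ℝ × ℝ)}
    (hK : IsCompact K) (hK' : IsCompact K') (h : ∀ k ∈ K, ∀ k' ∈ K', 2 * η ≤ dist k k') :
    ∀ k ∈ amb κ δ K, ∀ k' ∈ amb κ δ K', 2 * (η / 4) < dist k k' := by
  intro k hk k' hk'
  obtain ⟨x, hx, h1⟩ := amb_pt hδ hK hk
  obtain ⟨x', hx', h1'⟩ := amb_pt hδ hK' hk'
  have h2 := h x hx x' hx'
  have h3 := kJR_dist hκ x x'
  have h4 := dist_triangle (κ * JR x) k (κ * JR x')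
  have h5 := dist_triangle k k' (κ * JR x')
  rw [dist_comm] at h1
  linarith

/-- the curves with values in a closed set form a closed set -/
lemma inn_closed {X : Type*} [TopologicalSpace X] {g : X → C(unitInterval, ℂ)} (hg : Continuous g) (z : ℂ) {K : Set ℂ}
    (hK : IsClosed K) : IsClosed (Inn g z K) := by
  have e : Inn g z K = ⋂ t : unitInterval, (fun x => g x t + z) ⁻¹' K := by
    ext x
    simp only [Inn, Set.mem_ofPred_eq, Set.mem_iInter, Set.mem_preimage]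
  rw [e]
  exact isClosed_iInter fun t => hK.preimage (((continuous_eval_const t).comp hg).add continuous_const)

/-- the curve of a word whose vertices are near the cells -/
lemma crv_amb {κ v z : ℂ} {δ d : ℝ} {K : Set (ℝ × ℝ)} {w : W3} (hv : ‖v‖ = 1) (hd : 0 < d) (hδd : 1 / d ≤ δ / 2)
    (hw : 1 ≤ w.length)
    (h : ∀ k, k ≤ w.length → ∃ x ∈ K, ‖z + v * ps w k / d - κ * JR x‖ ≤ δ / 2) (t : unitInterval) :
    v * crv w w.length d t + z ∈ amb κ δ K := by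
  have h0 : (t : ℝ) * w.length ≤ w.length := mul_le_of_le_one_left (by positivity) t.2.2
  obtain ⟨i, hi, h1⟩ := (near_vertex (w := w) hw hd t w.length).1 h0
  obtain ⟨x, hx, h2⟩ := h i hi
  refine Metric.mem_cthickening_of_dist_le _ (κ * JR x) _ _ ⟨x, hx, rfl⟩ ?_
  rw [dist_eq_norm] at h1 ⊢
  have e : v * crv w w.length d t + z - κ * JR x = v * (crv w w.length d t - ps w i / d) +
      (z + v * ps w i / d - κ * JR x) := by ring
  rw [e]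
  refine (norm_add_le _ _).trans ?_
  rw [norm_mul, hv, one_mul]
  linarith

/-! ### 4. One companion -/

/-- the end node of a companion minus its start node -/
def dnd (x0 x1 ω0 ω1 : ℤ × ℤ) (t t' : ℕ) : Pt :=
  HexObs.ART.ctr x1 + (t' : ℤ) • ω1 - (HexObs.ART.ctr x0 + (t : ℤ) • ω0)

/-- **one companion in the limit**: the clause of `sup_loc`. The word is started at `v * kap a ω0 * JR ζ`; `y` is minus the
displacement; `g` the curve started at 0 -/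
theorem one_comp : ∃ H0 : ℕ, 2 ^ 13 ≤ H0 ∧ ∀ H : ℕ, H0 ≤ H → ∀ {M : List (ℤ × ℤ)} {x0 x1 ω0 ε0 ω1 ε1 : ℤ × ℤ} {t t' : ℕ},
    Comp M x0 x1 ω0 ε0 ω1 ε1 t t' → 1 ≤ t → 1 ≤ t' → cl ω1 = cl ω0 →
    ∀ (a : Fin 3) {μ eps η δ : ℝ}, 0 < μ → 0 < δ → 3 * (eps * μ) + 2 * η < μ / (40 * H) → ∀ {ζ e : ℝ × ℝ},
    ‖ζ - (μ * ((HexObs.ART.ctr x0 + (t : ℤ) • ω0).1 : ℝ), μ * ((HexObs.ART.ctr x0 + (t : ℤ) • ω0).2 : ℝ))‖ ≤ 2 * μ →
    ‖e - ζ - (μ * ((dnd x0 x1 ω0 ω1 t t').1 : ℝ), μ * ((dnd x0 x1 ω0 ω1 t t').2 : ℝ))‖ ≤ eps * μ →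
    ∀ {X : Type*} [TopologicalSpace X] [MeasurableSpace X] [OpensMeasurableSpace X] {ι : Type*} {l : Filter ι} [l.NeBot]
      {b : ι → Measure X} {β : Measure X} {y : X → ℂ} {g : X → C(unitInterval, ℂ)}, Continuous y → Continuous g →
      ∀ {v : ℂ}, ‖v‖ = 1 →
      ∀ [IsFiniteMeasure (β.restrict (Inn g (v * kap a ω0 * JR ζ)
        (amb (v * kap a ω0) δ (KK μ (CC M x0 x1 ω0 ω1 t t')))))],
      (∀ C : Set X, IsClosed C → C ⊆ Inn g (v * kap a ω0 * JR ζ) (amb (v * kap a ω0) δ (KK μ (CC M x0 x1 ω0 ω1 t t'))) →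
        limsup (fun N => b N C) l ≤ β C) →
      ∀ {s : ι → ℝ}, Tendsto s l atTop → ∀ {T : ι → Set W3} {gN : ι → W3 → X} {q : ℝ}, 0 < q →
      (∀ᶠ N in l, ∀ A : Set X, IsClosed A →
        ENNReal.ofReal (q / s N ^ (3 / 4 : ℝ)) * ms (T N) ((gN N ⁻¹' A).indicator 1) ≤ b N A) →
      (∀ᶠ N in l, ∀ w ∈ T N, 1 ≤ w.length ∧ y (gN N w) = -v * en w / s N ∧
        ∀ τ, ∃ τ', g (gN N w) τ = v * crv w w.length (s N) τ') →
      (∀ (u : Pt) (n : ℕ) (E : ℕ → Pt), PathC M x0 x1 ω0 ω1 t t' u n E →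
        ∀ᶠ N in l, ∀ (k : ℕ) (D : ℤ), D = ⌊μ * s N⌋ → 18 * ((H : ℤ) * 2 ^ k) ≤ D → D ≤ 36 * ((H : ℤ) * 2 ^ k) →
        ∀ (z : Pt) (Q : List Bool), TubeQ E D (2 ^ (k + 9)) n z Q → cl z = 2 →
          HexObs.TIW.hn (z - HexObs.AR.pv E D n) ≤ 2 ^ (k + 2) → HexObs.ART.TL.Lg k Q → Pool.Agent.ROT.F3.Tb.wd a Q ∈ T N) →
      (volume : Measure ℂ).restrict (Metric.closedBall (-(v * kap a ω0 * JR (e - ζ))) (2 * η)) ≪
        (β.restrict (Inn g (v * kap a ω0 * JR ζ) (amb (v * kap a ω0) δ (KK μ (CC M x0 x1 ω0 ω1 t t'))))).map y := by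
  obtain ⟨H0, hH0, h⟩ := lane_ac
  refine ⟨H0, hH0, ?_⟩
  intro H hH M x0 x1 ω0 ε0 ω1 ε1 t t' hC ht ht' hcl a μ eps η δ hμ hδ hrad ζ e hζ he X _ _ _ ι l _ b β y g hy hg v hv _ hb
    s hs T gN q hq hlow hgy hT
  obtain ⟨u, n, E, hP⟩ := HexObs.ROT.F3S.pathC_of hC
  obtain ⟨B, hB⟩ := fin_bdd (cc_fin M x0 x1 ω0 ω1 t t')
  have hlast : cl (E (n - 1)) = 1 := cl_last hP hcl ht'
  have hκ : ‖v * kap a ω0‖ = 1 := by rw [norm_mul, hv, kap_norm a (w_mem hP), one_mul]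
  have key := h H hH hP hC.ch ht ht' hlast a hμ hζ hB hy
    (inn_closed hg (v * kap a ω0 * JR ζ) (amb_closed (v * kap a ω0) δ (KK μ (CC M x0 x1 ω0 ω1 t t')))) hb hs hq hlow hv
    (v' := -v) (by rw [norm_neg, hv]) (by
      filter_upwards [hgy] with N k1 w hw
      exact (k1 w hw).2.1) (by
      refine ⟨δ / 2, by linarith, ?_⟩
      filter_upwards [hgy, hs.eventually_ge_atTop (2 / δ), hs.eventually_ge_atTop 1] with N k1 k2 k3 w hw hk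
      obtain ⟨k4, -, k5⟩ := k1 w hw
      have hs0 : 0 < s N := by linarith
      intro τ
      obtain ⟨τ', hτ'⟩ := k5 τ
      rw [hτ']
      refine crv_amb hv hs0 ?_ k4 hk τ'
      rw [div_le_iff₀ hδ] at k2
      rw [div_le_iff₀ hs0]
      linarith) (hT u n E hP)
  refine (Measure.absolutelyContinuous_of_le (Measure.restrict_mono_set volume ?_)).trans key
  refine Metric.closedBall_subset_ball' ?_
  have e1 : dist (-(v * kap a ω0 * JR (e - ζ))) (-v * kap a ω0 * (μ * JJ (dnd x0 x1 ω0 ω1 t t'))) ≤ 3 * (eps * μ) := by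
    have e2 : (μ : ℂ) * JJ (dnd x0 x1 ω0 ω1 t t') =
        JR (μ * ((dnd x0 x1 ω0 ω1 t t').1 : ℝ), μ * ((dnd x0 x1 ω0 ω1 t t').2 : ℝ)) := by
      rw [← JR_cast, ← JR_smul]
      rfl
    rw [dist_eq_norm, e2]
    have e3 : -(v * kap a ω0 * JR (e - ζ)) - -v * kap a ω0 *
        JR (μ * ((dnd x0 x1 ω0 ω1 t t').1 : ℝ), μ * ((dnd x0 x1 ω0 ω1 t t').2 : ℝ)) = -(v * kap a ω0) *
        (JR (e - ζ) - JR (μ * ((dnd x0 x1 ω0 ω1 t t').1 : ℝ), μ * ((dnd x0 x1 ω0 ω1 t t').2 : ℝ))) := by ring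
    rw [e3, norm_mul, norm_neg, hκ, one_mul, ← JR_sub]
    exact (JR_norm_le _).trans (mul_le_mul_of_nonneg_left he (by norm_num))
  have e4 : dist (-(v * kap a ω0 * JR (e - ζ))) (-v * kap a ω0 * (μ * JJ (HexObs.ART.ctr x1 + (t' : ℤ) • ω1 -
      (HexObs.ART.ctr x0 + (t : ℤ) • ω0)))) ≤ 3 * (eps * μ) := e1
  linarith

end Pool.Agent.ROT.F3.Ln
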