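import Pool.Agent.ROT.F3W7a
import Pool.Agent.ROT.F3Te
import Pool.Agent.ROT.F3Chan
import Pool.Agent.ROT.F3C4f

/-!
# ROT, F3, row W7 (helper63): the lanes of a companion class are filled; the channels

* `JR_ge`, `JR_le`, `JR_sum` : sharper constants for the skew coordinates;
* **`Fill`** : every companion (64's `Chn`) is charged by the arcs of the class, up to the law of the ends;
* **`fill_of`** : `Fill` from the limit data of the class;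
* **`chan_at`** : the two companions and `Fill` give `ChanAt` (80's form of the hypothesis of `sup_loc`).
-/

set_option autoImplicit false

namespace Pool.Agent.ROT.F3.Ln

open Filter Topology Set MeasureTheory
open HexObs (Pt dirs cl up mulE)
open HexObs.ROT.F3S (PathC CC CN NC Comp)
open HexObs.ROT.F3L (KS Chn nd sq)
open HexObs.ARM (nr nr_iff TubeQ ml)
open HexObs.ART.TL (Lg)
open Pool.Agent.ROT.F3.Tb (wd RestB)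
open NTF (JJ aa)
open scoped ENNReal

/-! ### 1. The skew coordinates -/

lemma JR_sq (x : ℝ × ℝ) : ‖JR x‖ ^ 2 = x.1 ^ 2 + x.1 * x.2 + x.2 ^ 2 := by
  have h3 : Real.sqrt 3 * Real.sqrt 3 = 3 := Real.mul_self_sqrt (by norm_num)
  rw [← Complex.normSq_eq_norm_sq, Complex.normSq_apply]
  unfold JR
  simp only
  linear_combination (x.1 ^ 2 / 4) * h3

lemma JR_abs {x : ℝ × ℝ} {t : ℝ} (h : 3 * t ^ 2 ≤ 4 * ‖JR x‖ ^ 2) : |t| ≤ 6 / 5 * ‖JR x‖ := by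
  have h4 : |t| ^ 2 ≤ (6 / 5 * ‖JR x‖) ^ 2 := by
    rw [sq_abs, mul_pow]
    nlinarith [sq_nonneg ‖JR x‖]
  exact abs_le_of_sq_le_sq' h4 (by positivity) |>.2

lemma JR_fst (x : ℝ × ℝ) : |x.1| ≤ 6 / 5 * ‖JR x‖ := JR_abs (by
  rw [JR_sq]
  nlinarith [sq_nonneg (x.1 + 2 * x.2)])

lemma JR_snd (x : ℝ × ℝ) : |x.2| ≤ 6 / 5 * ‖JR x‖ := JR_abs (by
  rw [JR_sq]
  nlinarith [sq_nonneg (x.2 + 2 * x.1)])

lemma JR_sum (x : ℝ × ℝ) : |x.1 + x.2| ≤ 6 / 5 * ‖JR x‖ := JR_abs (by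
  rw [JR_sq]
  nlinarith [sq_nonneg (x.1 - x.2)])

lemma JR_ge (x : ℝ × ℝ) : ‖x‖ ≤ 6 / 5 * ‖JR x‖ := by
  rw [Prod.norm_def]
  refine max_le ?_ ?_
  · rw [Real.norm_eq_abs]
    exact JR_fst x
  · rw [Real.norm_eq_abs]
    exact JR_snd x

lemma JR_le (x : ℝ × ℝ) : ‖JR x‖ ≤ 7 / 4 * ‖x‖ := by
  have h1 : |x.1| ≤ ‖x‖ := norm_fst_le x
  have h2 : |x.2| ≤ ‖x‖ := norm_snd_le x
  have h3 : x.1 ^ 2 ≤ ‖x‖ ^ 2 := by
    rw [← sq_abs]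
    exact pow_le_pow_left₀ (abs_nonneg _) h1 2
  have h4 : x.2 ^ 2 ≤ ‖x‖ ^ 2 := by
    rw [← sq_abs]
    exact pow_le_pow_left₀ (abs_nonneg _) h2 2
  have h5 : ‖JR x‖ ^ 2 ≤ (7 / 4 * ‖x‖) ^ 2 := by
    rw [JR_sq, mul_pow]
    nlinarith [sq_nonneg (x.1 - x.2)]
  exact abs_le_of_sq_le_sq' h5 (by positivity) |>.2

lemma KS_eq (μ : ℝ) (M : List (ℤ × ℤ)) (x0 x1 ω0 ω1 : ℤ × ℤ) (s s' : ℕ) :
    KS μ M x0 x1 ω0 ω1 s s' = KK μ (CC M x0 x1 ω0 ω1 s s') := by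
  ext y
  constructor
  · rintro ⟨c, hc, c', hn, ⟨h1, h2⟩, h3, h4⟩
    exact ⟨c, c', hc, hn, h1, h2, h3, h4⟩
  · rintro ⟨c, c', hc, hn, h1, h2, h3, h4⟩
    exact ⟨c, hc, c', hn, ⟨h1, h2⟩, h3, h4⟩

lemma KS_cpt (μ : ℝ) (M : List (ℤ × ℤ)) (x0 x1 ω0 ω1 : ℤ × ℤ) (s s' : ℕ) : IsCompact (KS μ M x0 x1 ω0 ω1 s s') := by
  rw [KS_eq]
  exact KK_compact (cc_fin M x0 x1 ω0 ω1 s s')

/-! ### 2. The lanes are filled -/

/-- **the lanes of a companion class are filled**: for every companion with start `ζ` and target `e` the ends of the arcs of `β`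
which run in its region (any thickness `δ`) are absolutely continuous below: the clause of `sup_loc` -/
def Fill {X : Type*} [MeasurableSpace X] (κ : ℂ) (g : X → C(unitInterval, ℂ)) (y : X → ℂ) (β : Measure X) (ω0 ω1 : ℤ × ℤ)
    (H : ℕ) (μ0 eps R0 R1 : ℝ) (V : Set (ℝ × ℝ)) : Prop :=
  ∀ (M : List (ℤ × ℤ)) (x0 x1 : ℤ × ℤ) (s s' : ℕ) (μ η δ : ℝ) (ζ e : ℝ × ℝ), 0 < μ → μ ≤ μ0 → 0 < δ →
    3 * (eps * μ) + 2 * η < μ / (40 * H) → e - ζ ∈ V → Chn μ eps R0 R1 ζ e M x0 x1 ω0 ω1 s s' →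
    (volume : Measure ℂ).restrict (Metric.closedBall (-(κ * JR (e - ζ))) (2 * η)) ≪
      (β.restrict (Inn g (κ * JR ζ) (amb κ δ (KS μ M x0 x1 ω0 ω1 s s')))).map y

/-- **the channels from the companions** -/
theorem chan_at {κ : ℂ} (hκ : ‖κ‖ = 1) {A B C : Type*} [MeasurableSpace B] [MeasurableSpace C]
    {g1 : A → C(unitInterval, ℂ)} {g2 : B → C(unitInterval, ℂ)} {g3 : C → C(unitInterval, ℂ)} {y1 : A → ℂ} {y2 : B → ℂ}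
    {y3 : C → ℂ} {b2 : Measure B} {b3 : Measure C} {a : A} {c : ℝ → ℝ × ℝ} (hc : ∀ t : unitInterval, g1 a t = κ * JR (c t))
    {z z' w w' : ℂ} {z2 z3 e2 e3 : ℝ × ℝ} (hz2 : κ * JR z2 = z) (hz3 : κ * JR z3 = z') (he2 : κ * JR e2 = w - y1 a)
    (he3 : κ * JR e3 = w' - y1 a) {η0 : ℝ} (hη0 : 0 < η0) {H : ℕ} (hH : 1 ≤ H) {μ0 eps R0 R1 : ℝ}
    (heps : 3 * eps < 1 / (40 * H)) {V2 V3 : Set (ℝ × ℝ)} (F2 : Fill κ g2 y2 b2 (1, -1) (0, 1) H μ0 eps R0 R1 V2)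
    (F3 : Fill κ g3 y3 b3 (0, 1) (1, -1) H μ0 eps R0 R1 V3) (hv2 : e2 - z2 ∈ V2) (hv3 : e3 - z3 ∈ V3)
    {μ2 μ3 : ℝ} {M2 M3 : List (ℤ × ℤ)} {x0 x1 u0 u1 : ℤ × ℤ} {s2 s2' s3 s3' : ℕ}
    (hμ2 : 0 < μ2) (hμ2' : μ2 ≤ μ0) (hμ3 : 0 < μ3) (hμ3' : μ3 ≤ μ0)
    (C2 : Chn μ2 eps R0 R1 z2 e2 M2 x0 x1 (1, -1) (0, 1) s2 s2') (C3 : Chn μ3 eps R0 R1 z3 e3 M3 u0 u1 (0, 1) (1, -1) s3 s3')
    (d2 : ∀ t, 0 ≤ t → t ≤ 1 → ∀ y ∈ KS μ2 M2 x0 x1 (1, -1) (0, 1) s2 s2', η0 ≤ dist (c t) y)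
    (d3 : ∀ t, 0 ≤ t → t ≤ 1 → ∀ y ∈ KS μ3 M3 u0 u1 (0, 1) (1, -1) s3 s3', η0 ≤ dist (c t) y)
    (d23 : ∀ y ∈ KS μ2 M2 x0 x1 (1, -1) (0, 1) s2 s2', ∀ y' ∈ KS μ3 M3 u0 u1 (0, 1) (1, -1) s3 s3', 2 * η0 ≤ dist y y') :
    ChanAt g1 g2 g3 y1 y2 y3 b2 b3 volume a z z' w w' := by
  have hH0 : (0 : ℝ) < H := by exact_mod_cast hH
  obtain ⟨θ, hθ⟩ : ∃ θ : ℝ, θ = 1 / (40 * H) - 3 * eps := ⟨_, rfl⟩
  have hθ0 : 0 < θ := by rw [hθ]; linarith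
  obtain ⟨η, hη, k1, k2, k3⟩ : ∃ η : ℝ, 0 < η ∧ η ≤ η0 / 4 ∧ η ≤ θ * μ2 / 4 ∧ η ≤ θ * μ3 / 4 :=
    ⟨min (η0 / 4) (min (θ * μ2 / 4) (θ * μ3 / 4)), by positivity, min_le_left _ _, (min_le_right _ _).trans (min_le_left _ _),
      (min_le_right _ _).trans (min_le_right _ _)⟩
  have rad : ∀ {μ : ℝ}, 0 < μ → η ≤ θ * μ / 4 → 3 * (eps * μ) + 2 * η < μ / (40 * H) := by
    intro μ h0 h1
    have e1 : μ / (40 * H) = θ * μ + 3 * (eps * μ) := by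
      rw [hθ]
      ring
    have := mul_pos hθ0 h0
    linarith
  have l2 := F2 M2 x0 x1 s2 s2' μ2 η (η0 / 8) z2 e2 hμ2 hμ2' (by positivity) (rad hμ2 k2) hv2 C2
  have l3 := F3 M3 u0 u1 s3 s3' μ3 η (η0 / 8) z3 e3 hμ3 hμ3' (by positivity) (rad hμ3 k3) hv3 C3
  have c2 := KS_cpt μ2 M2 x0 x1 (1, -1) (0, 1) s2 s2'
  have c3 := KS_cpt μ3 M3 u0 u1 (0, 1) (1, -1) s3 s3'
  have f1 : -(κ * JR (e2 - z2)) = z + y1 a - w := by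
    rw [JR_sub, mul_sub, hz2, he2]
    ring
  have f2 : -(κ * JR (e3 - z3)) = z' + y1 a - w' := by
    rw [JR_sub, mul_sub, hz3, he3]
    ring
  rw [f1, hz2] at l2
  rw [f2, hz3] at l3
  refine ⟨η, hη, _, _, amb_closed κ (η0 / 8) _, amb_closed κ (η0 / 8) _, ?_, ?_, ?_, l2, l3⟩
  · intro t k hk
    rw [hc]
    exact lt_of_le_of_lt k1 (amb_far1 hκ (by positivity) (by linarith) hη0 c2 (d2 t t.2.1 t.2.2) k hk)
  · intro t k hk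
    rw [hc]
    exact lt_of_le_of_lt k1 (amb_far1 hκ (by positivity) (by linarith) hη0 c3 (d3 t t.2.1 t.2.2) k hk)
  · intro k hk k' hk'
    exact lt_of_le_of_lt (by linarith) (amb_far2 hκ (by positivity) (by linarith) hη0 c2 c3 d23 k hk k' hk')

end Pool.Agent.ROT.F3.Ln
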