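import Pool.Agent.ROT.F3Chan
import Pool.Agent.ROT.F3L1
import Pool.Agent.ROT.F3Cls

/-!
# ROT, F3 (B), row W7 (helper64): the geometry of the channels in the plane

**`chan_geo`** : `F3L.chan` for a main arc `c0` in the plane (frame `κ`): `c0` starts in a strip in the direction `d1 = κ JR (1, 0)`
and does not come back to the ball `bn` behind it, the same at its end, backwards; the starts of the companions are near
`h (d2 - d1)`, `h (d3 - d1)`, their ends near `c0 1 + h' (d3 - d1)`, `c0 1 + h' (d2 - d1)`.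
-/

set_option autoImplicit false

namespace Pool.Agent.ROT.F3

open Set ComplexConjugate
open Ln (JR JR_add JR_smul)

/-! ### 1. Skew coordinates -/

/-- the skew coordinates of a point of the plane -/
noncomputable def JRi (v : ℂ) : ℝ × ℝ := (-(2 / Real.sqrt 3 * v.im), v.re + v.im / Real.sqrt 3)

lemma sqrt3_pos : 0 < Real.sqrt 3 := Real.sqrt_pos.2 (by norm_num)

lemma sqrt3_sq : Real.sqrt 3 * Real.sqrt 3 = 3 := Real.mul_self_sqrt (by norm_num)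

lemma JR_JRi (v : ℂ) : JR (JRi v) = v := by
  have h := sqrt3_pos.ne'
  unfold JR JRi
  apply Complex.ext
  · simp only
    field_simp
    ring
  · simp only
    field_simp

lemma JRi_JR (x : ℝ × ℝ) : JRi (JR x) = x := by
  have h := sqrt3_pos.ne'
  unfold JR JRi
  refine Prod.ext ?_ ?_
  · simp only
    field_simp
  · simp only
    field_simp
    ring

lemma JR_sub' (x y : ℝ × ℝ) : JR (x - y) = JR x - JR y := by
  have := JR_add (x - y) y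
  rw [sub_add_cancel] at this
  rw [this]
  ring

lemma JRi_cont : Continuous JRi := by
  unfold JRi
  fun_prop

/-- the square of the norm -/
lemma JR_nsq (x : ℝ × ℝ) : ‖JR x‖ ^ 2 = x.1 ^ 2 + x.1 * x.2 + x.2 ^ 2 := by
  rw [← Complex.normSq_eq_norm_sq, Complex.normSq_apply]
  unfold JR
  simp only
  have h := sqrt3_sq
  nlinarith [h]

lemma JR_c1 (x : ℝ × ℝ) : |x.1| ≤ 6 / 5 * ‖JR x‖ := by
  refine abs_le_of_sq_le_sq ?_ (by positivity)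
  rw [mul_pow, JR_nsq]
  nlinarith [sq_nonneg (x.1 + 2 * x.2), sq_nonneg x.1]

lemma JR_c2 (x : ℝ × ℝ) : |x.2| ≤ 6 / 5 * ‖JR x‖ := by
  refine abs_le_of_sq_le_sq ?_ (by positivity)
  rw [mul_pow, JR_nsq]
  nlinarith [sq_nonneg (x.2 + 2 * x.1), sq_nonneg x.2]

lemma JR_c3 (x : ℝ × ℝ) : |x.1 + x.2| ≤ 6 / 5 * ‖JR x‖ := by
  refine abs_le_of_sq_le_sq ?_ (by positivity)
  rw [mul_pow, JR_nsq]
  nlinarith [sq_nonneg (x.1 - x.2), sq_nonneg (x.1 + x.2)]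

lemma JR_up (x : ℝ × ℝ) : ‖JR x‖ ≤ 7 / 4 * ‖x‖ := by
  refine le_of_sq_le_sq ?_ (by positivity)
  rw [mul_pow, JR_nsq]
  have h1 : |x.1| ≤ ‖x‖ := norm_fst_le x
  have h2 : |x.2| ≤ ‖x‖ := norm_snd_le x
  have e1 : x.1 ^ 2 ≤ ‖x‖ ^ 2 := by
    rw [← sq_abs x.1]
    exact pow_le_pow_left₀ (abs_nonneg _) h1 2
  have e2 : x.2 ^ 2 ≤ ‖x‖ ^ 2 := by
    rw [← sq_abs x.2]
    exact pow_le_pow_left₀ (abs_nonneg _) h2 2
  nlinarith [sq_nonneg (x.1 - x.2)]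

lemma JR_dn (x : ℝ × ℝ) : ‖x‖ ≤ 6 / 5 * ‖JR x‖ := by
  rw [Prod.norm_def, max_le_iff]
  exact ⟨JR_c1 x, JR_c2 x⟩

/-- level and lateral coordinate in the direction of the main arc -/
lemma lv_JR {κ : ℂ} (hκ : ‖κ‖ = 1) (x : ℝ × ℝ) : lv (κ * JR (1, 0)) (κ * JR x) = x.1 + x.2 / 2 := by
  have hk : κ.re * κ.re + κ.im * κ.im = 1 := by
    have := Complex.normSq_apply κ
    rw [Complex.normSq_eq_norm_sq, hκ] at this
    linarith
  have h3 := sqrt3_sq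
  unfold lv JR
  simp only [Complex.mul_re, Complex.mul_im, Complex.conj_re, Complex.conj_im]
  linear_combination ((x.1 / 2 + x.2) * (1 / 2) + Real.sqrt 3 * Real.sqrt 3 / 4 * x.1) * hk + (x.1 / 4) * h3

lemma ltl_JR {κ : ℂ} (hκ : ‖κ‖ = 1) (x : ℝ × ℝ) : ltl (κ * JR (1, 0)) (κ * JR x) = Real.sqrt 3 / 2 * x.2 := by
  have hk : κ.re * κ.re + κ.im * κ.im = 1 := by
    have := Complex.normSq_apply κ
    rw [Complex.normSq_eq_norm_sq, hκ] at this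
    linarith
  unfold ltl JR
  simp only [Complex.mul_re, Complex.mul_im, Complex.conj_re, Complex.conj_im]
  linear_combination (Real.sqrt 3 / 2 * x.2) * hk

/-- a point of the strip -/
lemma strip_pt {κ : ℂ} (hκ : ‖κ‖ = 1) {x : ℝ × ℝ} {e len hw : ℝ} (h1 : -e ≤ lv (κ * JR (1, 0)) (κ * JR x))
    (h2 : lv (κ * JR (1, 0)) (κ * JR x) ≤ len) (h3 : |ltl (κ * JR (1, 0)) (κ * JR x)| ≤ hw) :
    -(e + 3 / 5 * hw) ≤ x.1 ∧ x.1 ≤ len + 3 / 5 * hw ∧ |x.2| ≤ 6 / 5 * hw := by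
  rw [lv_JR hκ] at h1 h2
  rw [ltl_JR hκ, abs_mul, abs_of_nonneg (by positivity)] at h3
  have h4 : 5 / 3 ≤ Real.sqrt 3 := by
    refine Real.le_sqrt_of_sq_le ?_
    norm_num
  have h5 : |x.2| ≤ 6 / 5 * hw := by nlinarith [abs_nonneg x.2]
  have h6 := abs_le.1 h5
  refine ⟨by linarith, by linarith, h5⟩

/-! ### 2. The channels -/

/-- the visits of the box are in the strip -/
lemma in_ball {κ : ℂ} (hκ : ‖κ‖ = 1) {x : ℝ × ℝ} {h b' bn : ℝ} (hh : 0 ≤ h) (hd : dist ((-h, 0) : ℝ × ℝ) x ≤ b')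
    (hb : 7 / 4 * b' + h < bn) : ‖κ * JR x‖ < bn := by
  rw [norm_mul, hκ, one_mul]
  have e1 : JR x = JR (x - (-h, 0)) + JR (-h, 0) := by rw [← JR_add, sub_add_cancel]
  rw [dist_comm, dist_eq_norm] at hd
  have h1 := JR_up (x - (-h, 0))
  have h2 : ‖JR (-h, 0)‖ = h := by
    refine (pow_left_inj₀ (norm_nonneg _) hh (by norm_num : (2 : ℕ) ≠ 0)).1 ?_
    rw [JR_nsq]
    simp
  rw [e1]
  refine (norm_add_le _ _).trans_lt ?_
  rw [h2]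
  linarith

/-- the constants of one end -/
lemma end_const {hw len bn h rz R0 δ : ℝ} (k1 : 0 ≤ rz) (k2 : 0 ≤ R0) (k4 : 0 ≤ hw)
    (k6 : 7 / 4 * (h + 18 / 5 * rz + R0) + h < bn) (k7 : 100 * hw ≤ bn) (k8 : 2 * bn ≤ len) (hδ : 0 < δ) (d3 : 10 * δ ≤ h) :
    h + 18 / 5 * rz + R0 + 4 * δ < len + 2 * hw + h ∧ 4 * (len + 2 * hw + h + δ) + h < 40 / 7 * len := by
  constructor <;> linarith

/-- the start of companion 2 (north type) in skew coordinates; `x` = start of the main arc -/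
lemma north_pt {κ : ℂ} (hκ : ‖κ‖ = 1) {z : ℂ} {h rz : ℝ} (hz : ‖z - h * (κ * JR (-1, 1) - κ * JR (1, 0))‖ ≤ rz) {y : ℝ × ℝ}
    (hy : κ * JR y = z) : |y.1 + 2 * h| ≤ 6 / 5 * rz ∧ |y.2 - h| ≤ 6 / 5 * rz ∧ |y.1 + y.2 + h| ≤ 6 / 5 * rz := by
  have e : z - h * (κ * JR (-1, 1) - κ * JR (1, 0)) = κ * JR (y.1 + 2 * h, y.2 - h) := by
    rw [← hy]
    have e1 : JR (y.1 + 2 * h, y.2 - h) = JR y - (h * (JR (-1, 1) - JR (1, 0))) := by
      have e2 : ((y.1 + 2 * h, y.2 - h) : ℝ × ℝ) = y - h • (((-1, 1) : ℝ × ℝ) - (1, 0)) := by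
        refine Prod.ext ?_ ?_
        · simp only [Prod.fst_sub, Prod.smul_fst, smul_eq_mul]
          ring
        · simp only [Prod.snd_sub, Prod.smul_snd, smul_eq_mul]
          ring
      rw [e2, JR_sub', JR_smul, JR_sub']
    rw [e1]
    ring
  rw [e, norm_mul, hκ, one_mul] at hz
  have k1 := JR_c1 (y.1 + 2 * h, y.2 - h)
  have k2 := JR_c2 (y.1 + 2 * h, y.2 - h)
  have k3 := JR_c3 (y.1 + 2 * h, y.2 - h)
  simp only at k1 k2 k3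
  refine ⟨by linarith, by linarith, ?_⟩
  have e3 : y.1 + y.2 + h = y.1 + 2 * h + (y.2 - h) := by ring
  rw [e3]
  linarith

/-- the south type -/
lemma south_pt {κ : ℂ} (hκ : ‖κ‖ = 1) {z : ℂ} {h rz : ℝ} (hz : ‖z - h * (κ * JR (0, -1) - κ * JR (1, 0))‖ ≤ rz) {y : ℝ × ℝ}
    (hy : κ * JR y = z) : |y.1 + h| ≤ 6 / 5 * rz ∧ |y.2 + h| ≤ 6 / 5 * rz := by
  have e : z - h * (κ * JR (0, -1) - κ * JR (1, 0)) = κ * JR (y.1 + h, y.2 + h) := by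
    rw [← hy]
    have e1 : JR (y.1 + h, y.2 + h) = JR y - (h * (JR (0, -1) - JR (1, 0))) := by
      have e2 : ((y.1 + h, y.2 + h) : ℝ × ℝ) = y - h • (((0, -1) : ℝ × ℝ) - (1, 0)) := by
        refine Prod.ext ?_ ?_
        · simp only [Prod.fst_sub, Prod.smul_fst, smul_eq_mul]
          ring
        · simp only [Prod.snd_sub, Prod.smul_snd, smul_eq_mul]
          ring
      rw [e2, JR_sub', JR_smul, JR_sub']
    rw [e1]
    ring
  rw [e, norm_mul, hκ, one_mul] at hz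
  have k1 := JR_c1 (y.1 + h, y.2 + h)
  have k2 := JR_c2 (y.1 + h, y.2 + h)
  simp only at k1 k2
  exact ⟨by linarith, by linarith⟩

open HexObs.ROT.F3L in
/-- **the two channels beside a main arc of the class, in the plane** -/
theorem chan_geo {κ : ℂ} (hκ : ‖κ‖ = 1) {c0 : C(unitInterval, ℂ)} (h0 : c0 0 = 0) (hi : Function.Injective c0)
    {e hw len bn h rz R0 e' hw' len' bn' h' rz' R1 ε μ0 : ℝ}
    (hp : ∃ τ : unitInterval, (∀ t, t ≤ τ → -e ≤ lv (κ * JR (1, 0)) (c0 t) ∧ lv (κ * JR (1, 0)) (c0 t) ≤ len ∧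
      |ltl (κ * JR (1, 0)) (c0 t)| ≤ hw) ∧ ∀ t, τ ≤ t → bn ≤ ‖c0 t‖)
    (hq : ∃ τ : unitInterval, (∀ t, τ ≤ t → -e' ≤ lv (κ * JR (1, 0)) (c0 t - c0 1) ∧
      lv (κ * JR (1, 0)) (c0 t - c0 1) ≤ len' ∧ |ltl (κ * JR (1, 0)) (c0 t - c0 1)| ≤ hw') ∧
      ∀ t, t ≤ τ → bn' ≤ ‖c0 t - c0 1‖)
    (hD : 10 * (len + len') < ‖c0 1‖) {z z' w w' : ℂ}
    (hz : ‖z - h * (κ * JR (-1, 1) - κ * JR (1, 0))‖ ≤ rz) (hz' : ‖z' - h * (κ * JR (0, -1) - κ * JR (1, 0))‖ ≤ rz)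
    (hw1 : ‖w - h' * (κ * JR (0, -1) - κ * JR (1, 0))‖ ≤ rz') (hw1' : ‖w' - h' * (κ * JR (-1, 1) - κ * JR (1, 0))‖ ≤ rz')
    (hR0 : 0 ≤ R0) (hR1 : 0 ≤ R1) (g1 : 12 / 5 * rz + e + 3 / 5 * hw < h) (g1' : 12 / 5 * rz' + e' + 3 / 5 * hw' < h')
    (g2 : 7 / 4 * (h + 18 / 5 * rz + R0) + h < bn) (g2' : 7 / 4 * (h' + 18 / 5 * rz' + R1) + h' < bn')
    (g3 : 100 * hw ≤ bn) (g3' : 100 * hw' ≤ bn') (g4 : 2 * bn ≤ len) (g4' : 2 * bn' ≤ len') (hε : 0 < ε) (hμ0 : 0 < μ0) :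
    ∃ (c : ℝ → ℝ × ℝ) (z2 z3 e2 e3 : ℝ × ℝ), (∀ t : unitInterval, c0 t = κ * JR (c t)) ∧ κ * JR z2 = z ∧ κ * JR z3 = z' ∧
      κ * JR e2 = w + c0 1 ∧ κ * JR e3 = w' + c0 1 ∧
      ∃ η > 0, ∃ (μ2 μ3 : ℝ) (M2 M3 : List (ℤ × ℤ)) (x0 x1 y0 y1 : ℤ × ℤ) (s2 s2' s3 s3' : ℕ),
      0 < μ2 ∧ μ2 ≤ μ0 ∧ 0 < μ3 ∧ μ3 ≤ μ0 ∧ Chn μ2 ε R0 R1 z2 e2 M2 x0 x1 (1, -1) (0, 1) s2 s2' ∧
      Chn μ3 ε R0 R1 z3 e3 M3 y0 y1 (0, 1) (1, -1) s3 s3' ∧
      (∀ t, 0 ≤ t → t ≤ 1 → ∀ y ∈ KS μ2 M2 x0 x1 (1, -1) (0, 1) s2 s2', η ≤ dist (c t) y) ∧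
      (∀ t, 0 ≤ t → t ≤ 1 → ∀ y ∈ KS μ3 M3 y0 y1 (0, 1) (1, -1) s3 s3', η ≤ dist (c t) y) ∧
      ∀ y ∈ KS μ2 M2 x0 x1 (1, -1) (0, 1) s2 s2', ∀ y' ∈ KS μ3 M3 y0 y1 (0, 1) (1, -1) s3 s3', 2 * η ≤ dist y y' := by
  have hκ0 : κ ≠ 0 := by
    rintro rfl
    simp at hκ
  have back : ∀ v : ℂ, κ * JR (JRi (κ⁻¹ * v)) = v := by
    intro v
    rw [JR_JRi, ← mul_assoc, mul_inv_cancel₀ hκ0, one_mul]
  -- the curve
  obtain ⟨c, hc⟩ : ∃ c : ℝ → ℝ × ℝ, c = fun t => JRi (κ⁻¹ * c0 (projIcc 0 1 zero_le_one t)) := ⟨_, rfl⟩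
  have hct : ∀ t : unitInterval, c0 t = κ * JR (c t) := by
    intro t
    rw [hc]
    simp only
    rw [back, projIcc_val]
  have hc1 : c0 1 = κ * JR (c 1) := hct 1
  have hc0 : c 0 = 0 := by
    have h1 : c0 0 = κ * JR (c 0) := hct 0
    rw [h0] at h1
    have h2 : JR (c 0) = 0 := by
      rcases mul_eq_zero.1 h1.symm with h | h
      · exact absurd h hκ0
      · exact h
    have h3 := JRi_JR (c 0)
    rw [h2] at h3
    rw [← h3]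
    unfold JRi
    simp
  have hsub : ∀ t : unitInterval, c0 t - c0 1 = κ * JR (c t - c 1) := by
    intro t
    rw [JR_sub', hct t, hc1]
    ring
  have hcc : ContinuousOn c (Icc 0 1) := by
    rw [hc]
    refine Continuous.continuousOn ?_
    exact JRi_cont.comp (continuous_const.mul (c0.continuous.comp continuous_projIcc))
  have hci : InjOn c (Icc 0 1) := by
    intro s hs t ht hst
    have h1 : c0 ⟨s, hs⟩ = c0 ⟨t, ht⟩ := by
      rw [hct ⟨s, hs⟩, hct ⟨t, ht⟩]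
      simp only
      rw [hst]
    exact congrArg Subtype.val (hi h1)
  -- the signs of the constants
  have hrz : 0 ≤ rz := (norm_nonneg _).trans hz
  have hrz' : 0 ≤ rz' := (norm_nonneg _).trans hw1
  obtain ⟨τ, hp1, hp2⟩ := hp
  obtain ⟨τ', hq1, hq2⟩ := hq
  have hst0 := hp1 0 (zero_le (a := τ))
  rw [h0] at hst0
  have hst1 := hq1 1 (le_top (a := τ'))
  rw [sub_self] at hst1
  have e0 : lv (κ * JR (1, 0)) 0 = 0 := by
    unfold lv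
    simp
  have l0 : ltl (κ * JR (1, 0)) 0 = 0 := by
    unfold ltl
    simp
  rw [e0, l0, abs_zero] at hst0 hst1
  have he : 0 ≤ e := by linarith [hst0.1]
  have he' : 0 ≤ e' := by linarith [hst1.1]
  have hhw : 0 ≤ hw := hst0.2.2
  have hhw' : 0 ≤ hw' := hst1.2.2
  have hh : 0 < h := by linarith
  have hh' : 0 < h' := by linarith
  -- the small parameter
  obtain ⟨δ, hδ, a1, a2, a3, b1, b2, b3⟩ : ∃ δ : ℝ, 0 < δ ∧ δ ≤ (h - (12 / 5 * rz + e + 3 / 5 * hw)) / 4 ∧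
      δ ≤ (bn - (7 / 4 * (h + 18 / 5 * rz + R0) + h)) / 8 ∧ δ ≤ h / 10 ∧ δ ≤ (h' - (12 / 5 * rz' + e' + 3 / 5 * hw')) / 4 ∧
      δ ≤ (bn' - (7 / 4 * (h' + 18 / 5 * rz' + R1) + h')) / 8 ∧ δ ≤ h' / 10 := by
    refine ⟨min ((h - (12 / 5 * rz + e + 3 / 5 * hw)) / 4) (min ((bn - (7 / 4 * (h + 18 / 5 * rz + R0) + h)) / 8)
      (min (h / 10) (min ((h' - (12 / 5 * rz' + e' + 3 / 5 * hw')) / 4)
      (min ((bn' - (7 / 4 * (h' + 18 / 5 * rz' + R1) + h')) / 8) (h' / 10))))), ?_, ?_⟩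
    · simp only [lt_min_iff]
      refine ⟨?_, ?_, ?_, ?_, ?_, ?_⟩ <;> linarith
    · simp only [min_le_iff, le_refl, true_or, or_true, and_self]
  obtain ⟨cB, cD⟩ := end_const hrz hR0 hhw g2 g3 g4 hδ (by linarith)
  obtain ⟨cB', cD'⟩ := end_const hrz' hR1 hhw' g2' g3' g4' hδ (by linarith)
  -- the four points
  obtain ⟨z2, hz2⟩ : ∃ y : ℝ × ℝ, κ * JR y = z := ⟨_, back z⟩
  obtain ⟨z3, hz3⟩ : ∃ y : ℝ × ℝ, κ * JR y = z' := ⟨_, back z'⟩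
  obtain ⟨v2, hv2⟩ : ∃ y : ℝ × ℝ, κ * JR y = w := ⟨_, back w⟩
  obtain ⟨v3, hv3⟩ : ∃ y : ℝ × ℝ, κ * JR y = w' := ⟨_, back w'⟩
  obtain ⟨i1, i2, i3⟩ := north_pt hκ hz hz2
  obtain ⟨i4, i5⟩ := south_pt hκ hz' hz3
  obtain ⟨i6, i7⟩ := south_pt hκ hw1 hv2
  obtain ⟨i8, i9, i10⟩ := north_pt hκ hw1' hv3
  rw [abs_le] at i1 i2 i3 i4 i5 i6 i7 i8 i9 i10
  refine ⟨c, z2, z3, v2 + c 1, v3 + c 1, hct, hz2, hz3, ?_, ?_, ?_⟩
  · rw [JR_add, mul_add, hv2, hc1]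
  · rw [JR_add, mul_add, hv3, hc1]
  have hshift : ∀ (v x : ℝ × ℝ), dist (c 1 + v) x = dist v (x - c 1) := by
    intro v x
    rw [dist_eq_norm, dist_eq_norm]
    congr 1
    abel
  -- the past of a visit
  have hP : ∀ s t : ℝ, 0 ≤ s → s ≤ t → t ≤ 1 → dist ((-h, 0) : ℝ × ℝ) (c t) ≤ h + 18 / 5 * rz + R0 + 4 * δ →
      -(e + 3 / 5 * hw) ≤ (c s).1 ∧ (c s).1 ≤ len + 3 / 5 * hw ∧ |(c s).2| ≤ 6 / 5 * hw := by
    intro s t hs hst ht hd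
    have hlt := in_ball hκ hh.le hd (bn := bn) (by linarith)
    have h2 : ¬ τ ≤ (⟨t, hs.trans hst, ht⟩ : unitInterval) := by
      intro h3
      have h4 := hp2 _ h3
      rw [hct] at h4
      simp only at h4
      linarith
    push Not at h2
    have h3 : (⟨s, hs, hst.trans ht⟩ : unitInterval) ≤ τ := le_trans (show (⟨s, _⟩ : unitInterval) ≤ ⟨t, _⟩ from hst) h2.le
    obtain ⟨k1, k2, k3⟩ := hp1 _ h3
    rw [hct] at k1 k2 k3
    exact strip_pt hκ k1 k2 k3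
  have hQ : ∀ s t : ℝ, 0 ≤ s → s ≤ t → t ≤ 1 → dist (c 1 + ((-h', 0) : ℝ × ℝ)) (c s) ≤ h' + 18 / 5 * rz' + R1 + 4 * δ →
      -(e' + 3 / 5 * hw') ≤ (c t - c 1).1 ∧ (c t - c 1).1 ≤ len' + 3 / 5 * hw' ∧ |(c t - c 1).2| ≤ 6 / 5 * hw' := by
    intro s t hs hst ht hd
    rw [hshift] at hd
    have hlt := in_ball hκ hh'.le hd (bn := bn') (by linarith)
    have h2 : ¬ (⟨s, hs, hst.trans ht⟩ : unitInterval) ≤ τ' := by
      intro h3
      have h4 := hq2 _ h3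
      rw [hsub] at h4
      simp only at h4
      linarith
    push Not at h2
    have h3 : τ' ≤ (⟨t, hs.trans hst, ht⟩ : unitInterval) := le_trans h2.le (show (⟨s, _⟩ : unitInterval) ≤ ⟨t, _⟩ from hst)
    obtain ⟨k1, k2, k3⟩ := hq1 _ h3
    rw [hsub] at k1 k2 k3
    exact strip_pt hκ k1 k2 k3
  have hPQ : 4 * ((len + 2 * hw + h + δ) + (len' + 2 * hw' + h' + δ)) < dist ((-h, 0) : ℝ × ℝ) (c 1 + (-h', 0)) := by
    have n1 : ‖c0 1‖ ≤ 7 / 4 * ‖c 1‖ := by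
      rw [hc1, norm_mul, hκ, one_mul]
      exact JR_up _
    have n2 : ‖c 1‖ ≤ dist ((-h, 0) : ℝ × ℝ) (c 1 + (-h', 0)) + h + h' := by
      have e1 : c 1 = ((c 1 + (-h', 0)) - (-h, 0)) + ((h' - h, 0) : ℝ × ℝ) := by
        refine Prod.ext ?_ ?_
        · simp only [Prod.fst_sub, Prod.fst_add]
          ring
        · simp only [Prod.snd_sub, Prod.snd_add]
          ring
      have e2 : ‖((h' - h, 0) : ℝ × ℝ)‖ ≤ h + h' := by
        rw [Prod.norm_def, max_le_iff, Real.norm_eq_abs, abs_le]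
        refine ⟨⟨?_, ?_⟩, ?_⟩
        · simp only
          linarith
        · simp only
          linarith
        · simp only [norm_zero]
          linarith
      calc ‖c 1‖ = ‖((c 1 + (-h', 0)) - (-h, 0)) + ((h' - h, 0) : ℝ × ℝ)‖ := by rw [← e1]
        _ ≤ ‖(c 1 + (-h', 0)) - (-h, 0)‖ + ‖((h' - h, 0) : ℝ × ℝ)‖ := norm_add_le _ _
        _ ≤ _ := by
          rw [dist_comm, dist_eq_norm]
          linarith
    linarith
  refine chan (c := c) hcc hci (P := (-h, 0)) (Q := c 1 + (-h', 0)) (w := 0) (e := 12 / 5 * rz + δ) (e' := 12 / 5 * rz + 2 * δ)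
    (a := h + 6 / 5 * rz + R0 + δ) (b0 := h) (b := h + 18 / 5 * rz + R0 + 3 * δ) (b' := h + 18 / 5 * rz + R0 + 4 * δ)
    (B' := len + 2 * hw + h) (B := len + 2 * hw + h + δ) (w₁ := 0) (e₁ := 12 / 5 * rz' + δ) (e₁' := 12 / 5 * rz' + 2 * δ)
    (a₁ := h' + 6 / 5 * rz' + R1 + δ) (b0₁ := h') (b₁ := h' + 18 / 5 * rz' + R1 + 3 * δ) (b₁' := h' + 18 / 5 * rz' + R1 + 4 * δ)
    (B₁' := len' + 2 * hw' + h') (B₁ := len' + 2 * hw' + h' + δ) (dl := h - 6 / 5 * rz) (a1 := h + 6 / 5 * rz)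
    (dl₁ := h' - 6 / 5 * rz') (a1₁ := h' + 6 / 5 * rz') le_rfl (by linarith) (by linarith) (by linarith) (by linarith)
    (by linarith) (by linarith) (by linarith) (by linarith) le_rfl (by linarith) (by linarith) (by linarith) (by linarith)
    (by linarith) (by linarith) (by linarith) (by linarith) ?_ ?_ ?_ ?_ ?_ ?_ hPQ (by linarith) (by linarith) (by linarith)
    (by linarith) ?_ ?_ ?_ ?_ ?_ ?_ ?_ ?_ ?_ ?_ ?_ ?_ ?_ ?_ ?_ ?_ hε hμ0 (by linarith) (by linarith)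
  · rw [hc0, dist_le2]
    simp only [Prod.fst_zero, Prod.snd_zero]
    refine ⟨⟨?_, ?_⟩, ?_, ?_⟩ <;> linarith
  · rw [hshift, sub_self, dist_le2]
    simp only [Prod.fst_zero, Prod.snd_zero]
    refine ⟨⟨?_, ?_⟩, ?_, ?_⟩ <;> linarith
  · intro s t hs hst ht hd
    obtain ⟨k1, k2, k3⟩ := hP s t hs hst ht hd
    rw [abs_le] at k3
    rw [dist_le2]
    refine ⟨⟨⟨?_, ?_⟩, ?_, ?_⟩, ?_⟩ <;> simp only <;> linarith
  · intro s t hs hst ht hd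
    obtain ⟨k1, k2, k3⟩ := hQ s t hs hst ht hd
    rw [abs_le] at k3
    rw [hshift, dist_le2]
    simp only [Prod.fst_add]
    rw [Prod.fst_sub] at k1 k2 ⊢
    refine ⟨⟨⟨?_, ?_⟩, ?_, ?_⟩, ?_⟩ <;> linarith
  · intro t t0 t1 hd h5
    have k1 := (hP t t t0 le_rfl t1 hd).1
    simp only at h5
    linarith
  · intro t t0 t1 hd h5
    have k1 := (hQ t t t0 le_rfl t1 hd).1
    rw [Prod.fst_sub] at k1
    simp only [Prod.fst_add] at h5
    linarith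
  · simp only
    linarith
  · simp only
    linarith
  · simp only
    linarith
  · rw [dist_le2]
    refine ⟨⟨?_, ?_⟩, ?_, ?_⟩ <;> simp only <;> linarith
  · simp only
    linarith
  · simp only
    linarith
  · simp only
    linarith
  · rw [dist_le2]
    refine ⟨⟨?_, ?_⟩, ?_, ?_⟩ <;> simp only <;> linarith
  · simp only [Prod.fst_add]
    linarith
  · simp only [Prod.fst_add]
    linarith
  · simp only [Prod.snd_add]
    linarith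
  · rw [dist_le2]
    refine ⟨⟨?_, ?_⟩, ?_, ?_⟩ <;> simp only [Prod.fst_add, Prod.snd_add] <;> linarith
  · simp only [Prod.fst_add]
    linarith
  · simp only [Prod.snd_add]
    linarith
  · simp only [Prod.fst_add, Prod.snd_add]
    linarith
  · rw [dist_le2]
    refine ⟨⟨?_, ?_⟩, ?_, ?_⟩ <;> simp only [Prod.fst_add, Prod.snd_add] <;> linarith

end Pool.Agent.ROT.F3
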