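import Pool.Agent.ROT.F3W7b
import Pool.Agent.ROT.F3Tf

/-!
# ROT, F3, row W7 (helper63): the lanes of the companion classes of F3Cls are filled

* `aa_c2`, `aa_c3` : the directions at the end;
* **`fill_of`** : `Fill` for the class `Rst` from the limit data.
-/

set_option autoImplicit false

namespace Pool.Agent.ROT.F3.Ln

open Filter Topology Set MeasureTheory
open HexObs (Pt dirs cl up mulE)
open HexObs.ROT.F3S (PathC CC CN NC Comp)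
open HexObs.ROT.F3L (KS Chn nd sq)
open HexObs.ARM (nr nr_iff TubeQ ml)
open HexObs.ART.TL (Lg)
open Pool.Agent.ROT.F3.Tb (wd RestB lane_Rst)
open NTF (JJ aa)
open scoped ENNReal

/-! ### 1. Nodes -/

lemma JR_nd (μ : ℝ) (n : Pt) : JR (nd μ n) = μ * JJ n := by
  rw [← JR_cast, ← JR_smul]
  rfl

lemma nd_sub (μ : ℝ) (n x : Pt) : nd μ (n - x) = nd μ n - nd μ x := by
  unfold nd
  refine Prod.ext ?_ ?_
  · simp only [Prod.fst_sub]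
    push_cast
    ring
  · simp only [Prod.snd_sub]
    push_cast
    ring

lemma nd_dist {μ : ℝ} (hμ : 0 < μ) (n x : Pt) : dist (nd μ n) (nd μ x) ≤ 6 / 5 * (μ * ‖JJ (x - n)‖) := by
  rw [dist_comm, dist_eq_norm, ← nd_sub]
  refine (JR_ge _).trans (le_of_eq ?_)
  rw [JR_nd, norm_mul, Complex.norm_real, Real.norm_of_nonneg hμ.le]

/-! ### 2. Directions -/

lemma aa_dec2 : ∀ u ∈ dirs, mulE u (-((1, -1) : ℤ × ℤ)) = up → aa (mulE u ((0, 1) : ℤ × ℤ)) = 1 := by decide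

lemma aa_dec3 : ∀ u ∈ dirs, mulE u (-((0, 1) : ℤ × ℤ)) = up → aa (mulE u ((1, -1) : ℤ × ℤ)) = 2 := by decide

lemma cl_dec : cl ((0, 1) : ℤ × ℤ) = cl ((1, -1) : ℤ × ℤ) := by decide

/-- the direction of the class at the end -/
def OK3 (ω0 ω1 : ℤ × ℤ) (a b : Fin 3) : Prop :=
  (ω0 = (1, -1) ∧ ω1 = (0, 1) ∧ b = 1 + a) ∨ (ω0 = (0, 1) ∧ ω1 = (1, -1) ∧ b = 2 + a)

lemma OK3.cl {ω0 ω1 : ℤ × ℤ} {a b : Fin 3} (h : OK3 ω0 ω1 a b) : cl ω1 = cl ω0 := by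
  rcases h with ⟨rfl, rfl, -⟩ | ⟨rfl, rfl, -⟩
  · exact cl_dec
  · exact cl_dec.symm

lemma OK3.aa {ω0 ω1 : ℤ × ℤ} {a b : Fin 3} (h : OK3 ω0 ω1 a b) {M : List (ℤ × ℤ)} {x0 x1 : ℤ × ℤ} {s s' n : ℕ} {u : Pt}
    {E : ℕ → Pt} (hP : PathC M x0 x1 ω0 ω1 s s' u n E) (hs' : 1 ≤ s') : aa (E (n - 1)) + a = b := by
  have h1 := hP.le
  rw [hP.lst (n - 1) (by omega) (by omega)]
  rcases h with ⟨rfl, rfl, rfl⟩ | ⟨rfl, rfl, rfl⟩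
  · rw [aa_dec2 u hP.u_mem hP.u_up]
  · rw [aa_dec3 u hP.u_mem hP.u_up]

/-! ### 3. The lanes are filled -/

/-- the displacements of the companions: between `D0 + 2 μ0` and `D1 - 2 μ0` -/
def VV (W : Wn) (μ0 : ℝ) : Set (ℝ × ℝ) := {x | W.D0 + 2 * μ0 ≤ ‖JR x‖ ∧ ‖JR x‖ + 2 * μ0 ≤ W.D1}

/-- **the lanes of a companion class are filled**, from the limit data: `b N` is at least `q / s N ^ (3 / 4)` times the image of the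
words of the class, `β` is at least the upper limit of `b N` on closed sets -/
theorem fill_of : ∃ H0 : ℕ, 2 ^ 13 ≤ H0 ∧ ∀ H : ℕ, H0 ≤ H → ∀ {ω0 ω1 : ℤ × ℤ} {a b' : Fin 3}, OK3 ω0 ω1 a b' →
    ∀ {P Q : Tp} {W : Wn} {μ0 eps R0 R1 : ℝ}, P.c ≤ 1 → Q.c ≤ 1 → 0 ≤ P.r0 → 0 ≤ Q.r0 →
    6 / 5 * (P.r0 + 3 * μ0) ≤ R0 → 6 / 5 * (P.rg + 3 * μ0) ≤ R0 → 6 / 5 * (Q.r0 + 3 * μ0) ≤ R1 →
    6 / 5 * (Q.rg + 3 * μ0) ≤ R1 → μ0 ≤ 50 * P.κ → μ0 ≤ 50 * Q.κ → W.t0 ≤ 0 → μ0 ≤ 1 → μ0 ≤ W.t1 → 3 * eps ≤ 1 →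
    ∀ {X : Type*} [TopologicalSpace X] [MeasurableSpace X] [OpensMeasurableSpace X] {ι : Type*} {l : Filter ι} [l.NeBot]
      {b : ι → Measure X} {β : Measure X} [IsFiniteMeasure β] {y : X → ℂ} {g : X → C(unitInterval, ℂ)}, Continuous y →
      Continuous g → ∀ {v : ℂ}, ‖v‖ = 1 → (∀ C : Set X, IsClosed C → limsup (fun N => b N C) l ≤ β C) →
      ∀ {s : ι → ℝ}, Tendsto s l atTop → ∀ {gN : ι → W3 → X} {q : ℝ}, 0 < q →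
      (∀ᶠ N in l, ∀ A : Set X, IsClosed A →
        ENNReal.ofReal (q / s N ^ (3 / 4 : ℝ)) *
          ms (Rst (ev a) (ev b') P Q W (s N) (s N ^ (4 / 3 : ℝ))) ((gN N ⁻¹' A).indicator 1) ≤ b N A) →
      (∀ᶠ N in l, ∀ w ∈ Rst (ev a) (ev b') P Q W (s N) (s N ^ (4 / 3 : ℝ)),
        1 ≤ w.length ∧ y (gN N w) = -v * en w / s N ∧ ∀ τ, ∃ τ', g (gN N w) τ = v * crv w w.length (s N) τ') →
      Fill (v * kap a ω0) g y β ω0 ω1 H μ0 eps R0 R1 (VV W μ0) := by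
  obtain ⟨H0, hH0, h⟩ := one_comp
  refine ⟨H0, hH0, ?_⟩
  intro H hH ω0 ω1 a b' hok P Q W μ0 eps R0 R1 hPc hQc hP0 hQ0 hPr hPg hQr hQg hPκ hQκ ht0 hμ01 hμt heps X _ _ _ ι l _ b β _ y
    g hy hg v hv hb s hs gN q hq hlow hgy M x0 x1 t t' μ η δ ζ e hμ hμ0 hδ hrad hV hC
  rw [KS_eq]
  have hn0 : ∀ n x : Pt, ∀ r : ℝ, r ≤ dist (nd μ n) (nd μ x) → 5 / 6 * r / μ ≤ ‖JJ (x - n)‖ := by
    intro n x r hr
    have h1 := hr.trans (nd_dist hμ n x)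
    rw [div_le_iff₀ hμ]
    linarith
  have hμr : ∀ r : ℝ, μ * (5 / 6 * r / μ) = 5 / 6 * r := fun r => by field_simp
  have hVV : W.D0 + μ ≤ μ * ‖JJ (dnd x0 x1 ω0 ω1 t t')‖ ∧ μ * ‖JJ (dnd x0 x1 ω0 ω1 t t')‖ + μ ≤ W.D1 := by
    have h1 : ‖JR (nd μ (dnd x0 x1 ω0 ω1 t t'))‖ = μ * ‖JJ (dnd x0 x1 ω0 ω1 t t')‖ := by
      rw [JR_nd, norm_mul, Complex.norm_real, Real.norm_of_nonneg hμ.le]
    have h2 : ‖JR (e - ζ) - JR (nd μ (dnd x0 x1 ω0 ω1 t t'))‖ ≤ μ := by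
      rw [← JR_sub]
      have h3 : ‖e - ζ - nd μ (dnd x0 x1 ω0 ω1 t t')‖ ≤ eps * μ := by
        rw [← dist_eq_norm]
        exact hC.dp
      have h4 := JR_norm_le (e - ζ - nd μ (dnd x0 x1 ω0 ω1 t t'))
      nlinarith
    rw [← h1]
    obtain ⟨v1, v2⟩ := hV
    have h5 := abs_norm_sub_norm_le (JR (e - ζ)) (JR (nd μ (dnd x0 x1 ω0 ω1 t t')))
    have h6 := abs_le.1 (h5.trans h2)
    constructor <;> linarith [h6.1, h6.2]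
  refine h H hH hC.comp hC.s1 hC.s1' hok.cl a hμ hδ hrad ?_ ?_ hy hg hv (fun C hC _ => hb C hC) hs hq hlow hgy ?_
  · rw [← dist_eq_norm]
    exact hC.st
  · rw [← dist_eq_norm]
    exact hC.dp
  · intro u n E hP
    have hlast : HexObs.cl (E (n - 1)) = 1 := cl_last hP hok.cl hC.s1'
    obtain ⟨S0, hS0⟩ := lane_Rst hP hC.s1 hC.s1' hlast hμ (ρ0 := 5 / 6 * R0 / μ) (ρ1 := 5 / 6 * R1 / μ)
      (fun y hy => hn0 _ _ _ (hC.far0 y (Or.inl hy))) (fun j hj => hn0 _ _ _ (hC.far0 _ (Or.inr ⟨j, hj, rfl⟩)))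
      (fun y hy => hn0 _ _ _ (hC.far1 y (Or.inl hy))) (fun j hj => hn0 _ _ _ (hC.far1 _ (Or.inr ⟨j, hj, rfl⟩)))
      (hH0.trans hH) (P := P) (Q := Q) (W := W) hPc hQc hP0 hQ0 (by rw [hμr]; linarith) (by rw [hμr]; linarith)
      (by rw [hμr]; linarith) (by rw [hμr]; linarith) (by linarith) (by linarith) hVV.1 hVV.2 ht0 (by linarith) (by linarith)
    filter_upwards [hs.eventually_ge_atTop S0] with N hN k D hD h1 _ z X hX _ hn hL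
    have h2 := hS0 (s N) hN k D hD h1 z X hX hn hL a
    rw [hok.aa hP hC.s1'] at h2
    exact h2

end Pool.Agent.ROT.F3.Ln
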