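import Pool.Agent.ROT.F3W8lim
import Pool.Agent.ROT.F3ClsW

/-!
# ROT / F3W8cls (helper83): row W8s over the classes of F3Cls

* `stC_Pre` : the prefixes `Pre d E S T` (tip - `c` - `x`) are a class of start pieces with the radius `E.rg * S`, also with a
  smaller radius; `otB_fin`, `otB_ok` : the blocks `OtB`;
* **`w8cls`** : `w8lim` for `P = Pre (ev a) E (S N) (T N)`, `B = OtB (ev a) O (S N) (T N)`; the constants depend on `c0`, `C'`, `E`, `O`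
  and the radius `g` of the no return behind the outer gate only.
-/

set_option autoImplicit false

open MeasureTheory Filter Topology Finset

open scoped ENNReal Classical BoundedContinuousFunction

namespace Pool.Agent.ROT.F3

/-- **the prefixes are a class of start pieces** -/
theorem stC_Pre {d : ℂ} {E : Tp} (hE : E.Ok) {S T g : ℝ} (hS : 0 ≤ S) (hg : 2 * (E.r + E.r2) ≤ g) :
    StC d ((E.r + E.r2) * S) (g * S) (E.l * S) (Pre d E S T) := by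
  have h1 := hE.r
  have h2 := hE.r2
  have h3 := hE.m
  have h := stC_chain (d := d) (r := E.r * S) (r2 := E.r2 * S) (r0 := g * S) (l := E.l * S) (m := E.m * S)
    (ρ := 2 * (E.r * S)) le_rfl (by nlinarith) (by nlinarith) (by positivity)
  rw [add_mul]
  refine h.mono ?_
  rintro p ⟨k, hk⟩
  exact ⟨p.take k, p.drop k, (List.take_append_drop k p).symm, hk.g.a, hk.g.fa, hk.g.b.t, hk.g.fb, hk.g.b.right⟩

lemma otB_ok {d : ℂ} {O : Ot} {S T : ℝ} {b : W3} (hb : b ∈ OtB d O S T) : Even b.length ∧ ‖en b‖ ≤ O.r * S :=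
  ⟨hb.k.t.ev, norm_en_le hb.k.t⟩

lemma otB_fin {d : ℂ} {O : Ot} {S T : ℝ} {f : W3 → ℝ≥0∞} (hf : ∀ w, f w ≠ ∞) : ms (OtB d O S T) f ≠ ∞ :=
  ms_fin (K := O.r * S) (fun _ hw _ => ⟨hw.k.t.sw, hw.k.t.ball⟩) hf

/-- **row W8s over the classes of F3Cls** -/
theorem w8cls {c0 C' g : ℝ} (hc0 : 0 < c0) {E : Tp} (hE : E.Ok) (O : Ot) (hg : 2 * (E.r + E.r2) ≤ g) :
    ∃ c1 lam : ℝ, 0 < c1 ∧ 0 < lam ∧ ∀ (U : Ultrafilter ℕ) (a : Fin 3) (S T s t : ℕ → ℝ) (κ μ : Measure (CI3 × ℝ))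
      (X : Set (CI3 × ℝ)) (η : ℝ), Tendsto S (U : Filter ℕ) atTop → IsFiniteMeasure κ → IsFiniteMeasure μ →
      MeasurableSet X → 0 < η →
      (∀ h : (CI3 × ℝ) →ᵇ ℝ, Tendsto (fun N => ∫ x, h x ∂(rm 1 (s N) (t N) (OtB (ev a) O (S N) (T N)) fun _ => 1))
        (U : Filter ℕ) (𝓝 (∫ x, h x ∂κ))) →
      (∀ ψ : (CI3 × ℝ) →ᵇ ℝ, (∀ x, 0 ≤ ψ x) → (∀ x, ψ x ≤ 1) →
        ∫ x, |ψ x - X.indicator (fun _ => (1 : ℝ)) x| ∂μ ≤ η → ∀ᶠ N in (U : Filter ℕ),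
          C0At c0 C' lam (g * S N) (ev a) (Pre (ev a) E (S N) (T N)) (OtB (ev a) O (S N) (T N))
            (fun b => ENNReal.ofReal (ψ (cr (s N) (t N) b))) (S N)) →
        ENNReal.ofReal c1 ≤ κ X := by
  have h1 := hE.r
  have h2 := hE.r2
  obtain ⟨c1, lam, hc1, hlam, h⟩ := w8lim (c0 := c0) (C' := C') (ra := E.r + E.r2) (rb := g) (la := E.l) (sb := O.r) hc0 hg
    (by linarith) hE.l
  refine ⟨c1, lam, hc1, hlam, fun U a S T s t κ μ X η hS hκ hμ hX hη hlim hC => ?_⟩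
  refine h U S s t (fun _ => ev a) (fun N => Pre (ev a) E (S N) (T N)) (fun N => OtB (ev a) O (S N) (T N)) κ μ X η hS ?_ hκ
    hμ hX hη hlim hC
  filter_upwards [hS.eventually_ge_atTop 0] with N hN
  exact ⟨ev_norm a, stC_Pre hE hN hg, fun b hb => otB_ok hb, otB_fin fun _ => ENNReal.one_ne_top⟩

end Pool.Agent.ROT.F3
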