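import Pool.Agent.ROT.F3W8t
import Pool.Agent.ROT.F3MidW

/-!
# ROT / F3W8lim (helper83): the limit form of row W8s

`κ` = limit along `U` of the laws of (curve, duration) of the blocks (`rm 1 (s N) (t N) (B N) 1`), `μ` = any finite measure (the law
of the block of the closed words in the limit), `S` = a Borel set of blocks. **`w8lim`** : if for every continuous `ψ` close to the
indicator of `S` in `L1(μ)` the closed words have the marks with the weight `ψ` with a share at least `c0` along `U` (`C0At`),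
then `c1 ≤ κ S`. `c1`, `lam` depend on `c0`, `C'` and the ratios only.
-/

set_option autoImplicit false

open MeasureTheory Filter Topology Finset

open scoped ENNReal Classical BoundedContinuousFunction

namespace Pool.Agent.ROT.F3

/-- approximation of a Borel set by a continuous function with values in `[0, 1]` -/
lemma set_approx {X : Type*} [PseudoMetricSpace X] [MeasurableSpace X] [BorelSpace X] (ν : Measure X) [IsFiniteMeasure ν]
    {S : Set X} (hS : MeasurableSet S) {η : ℝ} (hη : 0 < η) : ∃ ψ : X →ᵇ ℝ, (∀ x, 0 ≤ ψ x) ∧ (∀ x, ψ x ≤ 1) ∧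
      ∫ x, |ψ x - S.indicator (fun _ => (1 : ℝ)) x| ∂ν ≤ η := by
  have hI : Integrable (S.indicator fun _ => (1 : ℝ)) ν := (integrable_const (1 : ℝ)).indicator hS
  obtain ⟨g, hg, hgi⟩ := hI.exists_boundedContinuous_integral_sub_le hη
  obtain ⟨ψ, hψ⟩ : ∃ ψ : X →ᵇ ℝ, ∀ x, ψ x = max 0 (min 1 (g x)) := by
    refine ⟨BoundedContinuousFunction.ofNormedAddCommGroup (fun x => max 0 (min 1 (g x)))
      (continuous_const.max (continuous_const.min g.continuous)) 1 fun x => ?_, fun x => rfl⟩
    rw [Real.norm_eq_abs, abs_of_nonneg (le_max_left _ _)]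
    exact max_le zero_le_one (min_le_left _ _)
  refine ⟨ψ, fun x => ?_, fun x => ?_, ?_⟩
  · rw [hψ]
    exact le_max_left _ _
  · rw [hψ]
    exact max_le zero_le_one (min_le_left _ _)
  · refine le_trans (integral_mono_of_nonneg (Eventually.of_forall fun x => abs_nonneg _) (hI.sub hgi).abs
      (Eventually.of_forall fun x => ?_)) ?_
    · show |ψ x - S.indicator (fun _ => (1 : ℝ)) x| ≤ |(S.indicator (fun _ => (1 : ℝ)) - ⇑g) x|
      rw [hψ, Pi.sub_apply, abs_sub_comm (S.indicator (fun _ => (1 : ℝ)) x)]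
      by_cases h : x ∈ S
      · rw [Set.indicator_of_mem h]
        rcases le_total 1 (g x) with h1 | h1
        · rw [min_eq_left h1, max_eq_right zero_le_one, sub_self, abs_zero]
          exact abs_nonneg _
        · rw [min_eq_right h1]
          rcases le_total 0 (g x) with h2 | h2
          · rw [max_eq_right h2]
          · rw [max_eq_left h2, zero_sub, abs_neg, abs_one, abs_of_nonpos (by linarith)]
            linarith
      · rw [Set.indicator_of_notMem h, sub_zero, sub_zero]
        rcases le_total 1 (g x) with h1 | h1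
        · rw [min_eq_left h1, max_eq_right zero_le_one, abs_one, abs_of_nonneg (by linarith)]
          exact h1
        · rw [min_eq_right h1]
          rcases le_total 0 (g x) with h2 | h2
          · rw [max_eq_right h2]
          · rw [max_eq_left h2, abs_zero]
            exact abs_nonneg _
    · refine le_trans (le_of_eq (integral_congr_ae (Eventually.of_forall fun x => ?_))) hg
      rw [Real.norm_eq_abs]
      rfl

/-- **row W8s, limit form** -/
theorem w8lim {c0 C' ra rb la sb : ℝ} (hc0 : 0 < c0) (hrb : 2 * ra ≤ rb) (hrb0 : 0 < rb) (hla : 0 < la) :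
    ∃ c1 lam : ℝ, 0 < c1 ∧ 0 < lam ∧ ∀ (U : Ultrafilter ℕ) (L s t : ℕ → ℝ) (d : ℕ → ℂ) (P B : ℕ → Set W3)
      (κ μ : Measure (CI3 × ℝ)) (S : Set (CI3 × ℝ)) (η : ℝ), Tendsto L (U : Filter ℕ) atTop →
      (∀ᶠ N in (U : Filter ℕ), ‖d N‖ = 1 ∧ StC (d N) (ra * L N) (rb * L N) (la * L N) (P N) ∧
        (∀ b ∈ B N, Even b.length ∧ ‖en b‖ ≤ sb * L N) ∧ ms (B N) (fun _ => 1) ≠ ∞) →
      IsFiniteMeasure κ → IsFiniteMeasure μ → MeasurableSet S → 0 < η →
      (∀ g : (CI3 × ℝ) →ᵇ ℝ, Tendsto (fun N => ∫ x, g x ∂(rm 1 (s N) (t N) (B N) fun _ => 1)) (U : Filter ℕ)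
        (𝓝 (∫ x, g x ∂κ))) →
      (∀ ψ : (CI3 × ℝ) →ᵇ ℝ, (∀ x, 0 ≤ ψ x) → (∀ x, ψ x ≤ 1) →
        ∫ x, |ψ x - S.indicator (fun _ => (1 : ℝ)) x| ∂μ ≤ η → ∀ᶠ N in (U : Filter ℕ),
          C0At c0 C' lam (rb * L N) (d N) (P N) (B N) (fun b => ENNReal.ofReal (ψ (cr (s N) (t N) b))) (L N)) →
        ENNReal.ofReal c1 ≤ κ S := by
  obtain ⟨c1, A, lam, L1, hc1, hA, hlam, hW⟩ := w8sP (c0 := c0) (C' := C') (sb := sb) hc0 hrb hrb0 hla
  refine ⟨c1, lam, hc1, hlam, fun U L s t d P B κ μ S η hL hcls hκ hμ hS hη hlim hC => ?_⟩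
  have key : ∀ e : ℝ, 0 < e → e ≤ η → c1 ≤ κ.real S + e := by
    intro e he heη
    obtain ⟨ψ, h0, h1, h2⟩ := set_approx (κ + μ) hS he
    have hI : ∀ ν : Measure (CI3 × ℝ), IsFiniteMeasure ν → Integrable (fun x => |ψ x - S.indicator (fun _ => (1 : ℝ)) x|) ν :=
      fun ν hν => ((ψ.integrable ν).sub ((integrable_const (1 : ℝ)).indicator hS)).abs
    rw [integral_add_measure (hI κ hκ) (hI μ hμ)] at h2
    have p1 : 0 ≤ ∫ x, |ψ x - S.indicator (fun _ => (1 : ℝ)) x| ∂κ := integral_nonneg fun x => abs_nonneg _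
    have p2 : 0 ≤ ∫ x, |ψ x - S.indicator (fun _ => (1 : ℝ)) x| ∂μ := integral_nonneg fun x => abs_nonneg _
    have h3 := hC ψ h0 h1 (by linarith)
    have h4 : ∀ᶠ N in (U : Filter ℕ), c1 ≤ ∫ x, ψ x ∂(rm 1 (s N) (t N) (B N) fun _ => 1) := by
      filter_upwards [h3, hcls, hL.eventually_ge_atTop L1] with N g1 g2 g3
      obtain ⟨hd, hP, hB, hfin⟩ := g2
      have g4 := hW (L N) (d N) (P N) (B N) _ g3 hd hP hB g1
      rw [rm_int (s N) (t N) (fun _ => zero_le_one) ψ.continuous.measurable h0, ENNReal.toReal_one, one_mul]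
      have hne : (ms (B N) fun R => ENNReal.ofReal (1 * ψ (cr (s N) (t N) R))) ≠ ∞ := by
        refine ne_top_of_le_ne_top hfin ?_
        unfold ms
        refine ENNReal.tsum_le_tsum fun b => ?_
        split_ifs
        · show wx b * ENNReal.ofReal (1 * ψ (cr (s N) (t N) b)) ≤ wx b * 1
          rw [one_mul]
          exact mul_le_mul_right (ENNReal.ofReal_le_one.2 (h1 _)) _
        · exact le_rfl
      rw [← ENNReal.ofReal_le_iff_le_toReal hne]
      refine g4.trans ?_
      unfold Sb ms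
      refine ENNReal.tsum_le_tsum fun b => ?_
      by_cases hb : b ∈ B N
      · rw [if_pos hb]
        show _ ≤ wx b * ENNReal.ofReal (1 * ψ (cr (s N) (t N) b))
        rw [one_mul]
        split_ifs
        · exact le_rfl
        · exact bot_le
      · rw [if_neg hb, if_neg fun h => hb h.1]
    have h5 : c1 ≤ ∫ x, ψ x ∂κ := ge_of_tendsto (hlim ψ) h4
    have h6 : ∫ x, ψ x ∂κ ≤ κ.real S + e := by
      have e1 : κ.real S = ∫ x, S.indicator (fun _ => (1 : ℝ)) x ∂κ := by
        rw [integral_indicator hS, setIntegral_const, smul_eq_mul, mul_one]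
      have e2 : ∫ x, ψ x ∂κ - ∫ x, S.indicator (fun _ => (1 : ℝ)) x ∂κ ≤
          ∫ x, |ψ x - S.indicator (fun _ => (1 : ℝ)) x| ∂κ := by
        rw [← integral_sub (ψ.integrable κ) ((integrable_const (1 : ℝ)).indicator hS)]
        exact integral_mono ((ψ.integrable κ).sub ((integrable_const (1 : ℝ)).indicator hS)) (hI κ hκ) fun x => le_abs_self _
      rw [e1]
      linarith
    linarith
  have h7 : c1 ≤ κ.real S := by
    refine le_of_forall_pos_le_add fun e he => ?_
    have := key (min e η) (lt_min he hη) (min_le_right _ _)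
    linarith [min_le_left e η]
  rw [← ENNReal.ofReal_toReal (measure_ne_top κ S)]
  exact ENNReal.ofReal_le_ofReal h7

end Pool.Agent.ROT.F3
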