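import Pool.Agent.ROT.F3P12Lit

/-!
# ROT / F3W8p (helper83): the mass of the blocks with a weight is bounded from below, one scale at a time

**`w8s_at`** : from `T12P` : there are `c1`, `A`, `lam`, `L1` (from `c0`, `C'` and the ratios only) such that for every scale
`L ≥ L1`, every class `P` of start pieces, `B` of blocks and every weight `ψ`: if the closed words have the marks with a share at
least `c0` (`C0At`), then `ofReal c1 ≤ Sb {b ∈ B | b.length ≤ A * L ^ (4 / 3)} ψ`.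
-/

set_option autoImplicit false

namespace Pool.Agent.ROT.F3

open scoped ENNReal Classical

/-- only the blocks with at most `M` letters count -/
lemma gsP_len {d : ℂ} {r0 : ℝ} {P B : Set W3} {ψ : W3 → ℝ≥0∞} {q : W3} {M : ℕ} (hq : q.length ≤ M) :
    gsP d r0 P B ψ q = gsP d r0 P {b | b ∈ B ∧ b.length ≤ M} ψ q := by
  unfold gsP
  refine tsum_congr fun x => ?_
  congr 1
  apply propext
  constructor
  · intro h
    refine ⟨h.eq, h.tip, ⟨h.blk, ?_⟩, h.ev, h.rst⟩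
    have h1 := congrArg List.length h.eq
    simp only [List.length_append] at h1
    omega
  · intro h
    exact ⟨h.eq, h.tip, h.blk.1, h.ev, h.rst⟩

lemma shP_len {N M : ℕ} {d : ℂ} {r0 : ℝ} {P B : Set W3} {ψ : W3 → ℝ≥0∞} :
    shP N M d r0 P B ψ = shP N M d r0 P {b | b ∈ B ∧ b.length ≤ M} ψ := by
  unfold shP
  congr 1
  refine tsum_congr fun K => ?_
  rw [gsP_len (List.length_take_le M _)]

/-- **row W8s, one scale** -/
theorem w8s_at (hT : T12P) {c0 C' ra rb la sb : ℝ} (hc0 : 0 < c0) (hrb : 2 * ra ≤ rb) (hrb0 : 0 < rb) (hla : 0 < la) :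
    ∃ c1 A lam L1 : ℝ, 0 < c1 ∧ 0 < A ∧ 0 < lam ∧ ∀ (L : ℝ) (d : ℂ) (P B : Set W3) (ψ : W3 → ℝ≥0∞), L1 ≤ L → ‖d‖ = 1 →
      StC d (ra * L) (rb * L) (la * L) P → (∀ b ∈ B, Even b.length ∧ ‖en b‖ ≤ sb * L) →
        C0At c0 C' lam (rb * L) d P B ψ L →
          ENNReal.ofReal c1 ≤ Sb {b | b ∈ B ∧ (b.length : ℝ) ≤ A * L ^ (4 / 3 : ℝ)} ψ := by
  obtain ⟨σ, hσ⟩ : ∃ σ, σ = max (max rb sb) 1 := ⟨_, rfl⟩
  have hσ1 : 1 ≤ σ := by
    rw [hσ]
    exact le_max_right _ _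
  have hσb : rb ≤ σ := by
    rw [hσ]
    exact (le_max_left _ _).trans (le_max_left _ _)
  have hσs : sb ≤ σ := by
    rw [hσ]
    exact (le_max_right _ _).trans (le_max_left _ _)
  have hσ0 : 0 < σ := by linarith
  obtain ⟨a, ha⟩ : ∃ a, a = min (rb / (2 * σ)) (la / (2 * σ)) := ⟨_, rfl⟩
  have hap : 0 < a := by
    rw [ha]
    exact lt_min (by positivity) (by positivity)
  have ha1 : a * σ ≤ rb / 2 := by
    have h1 : a ≤ rb / (2 * σ) := by
      rw [ha]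
      exact min_le_left _ _
    rw [le_div_iff₀ (by positivity)] at h1
    linarith
  have ha2 : a * σ ≤ la / 2 := by
    have h1 : a ≤ la / (2 * σ) := by
      rw [ha]
      exact min_le_right _ _
    rw [le_div_iff₀ (by positivity)] at h1
    linarith
  obtain ⟨K0, hT1⟩ := hT (c0 / 2) a (by positivity) hap
  obtain ⟨K1, hK1⟩ : ∃ K1, K1 = max (max K0 C') 1 := ⟨_, rfl⟩
  have hK1a : K0 ≤ K1 := by
    rw [hK1]
    exact (le_max_left _ _).trans (le_max_left _ _)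
  have hK1b : C' ≤ K1 := by
    rw [hK1]
    exact (le_max_right _ _).trans (le_max_left _ _)
  have hK1c : 1 ≤ K1 := by
    rw [hK1]
    exact le_max_right _ _
  obtain ⟨C, δ, s0, hC, hδ, hT2⟩ := hT1 K1 hK1a
  obtain ⟨S, hS⟩ : ∃ S : ℝ, S = σ ^ (4 / 3 : ℝ) := ⟨_, rfl⟩
  have hS1 : 1 ≤ S := by
    rw [hS]
    exact Real.one_le_rpow hσ1 (by norm_num)
  have hS0 : 0 < S := by linarith
  obtain ⟨lam, hlam⟩ : ∃ lam, lam = max (max C' (2 * (K1 * S) / δ)) (4 * (K1 * S)) := ⟨_, rfl⟩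
  have hl1 : C' ≤ lam := by
    rw [hlam]
    exact (le_max_left _ _).trans (le_max_left _ _)
  have hl2 : 2 * (K1 * S) ≤ δ * lam := by
    have h1 : 2 * (K1 * S) / δ ≤ lam := by
      rw [hlam]
      exact (le_max_right _ _).trans (le_max_left _ _)
    rw [div_le_iff₀ hδ] at h1
    linarith
  have hl3 : 4 * (K1 * S) ≤ lam := by
    rw [hlam]
    exact le_max_right _ _
  have hlam0 : 0 < lam := by nlinarith
  refine ⟨c0 / (2 * C), 2 * (K1 * S), lam, max s0 4, by positivity, by positivity, hlam0,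
    fun L d P B ψ hL hd hP hB hC0 => ?_⟩
  have g2 : s0 ≤ L := (le_max_left _ _).trans hL
  have g3 : 4 ≤ L := (le_max_right _ _).trans hL
  have hL0 : 0 < L := by linarith
  obtain ⟨N, hNo, hN1, hN2, hN3⟩ := hC0
  obtain ⟨B', hB'⟩ : ∃ B' : Set W3, B' = {b | b ∈ B ∧ (b.length : ℝ) ≤ 2 * (K1 * S) * L ^ (4 / 3 : ℝ)} := ⟨_, rfl⟩
  rw [← hB']
  by_cases htop : Sb B' ψ = ⊤
  · rw [htop]
    exact le_top
  obtain ⟨X, hX⟩ : ∃ X : ℝ, X = K1 * (σ * L) ^ (4 / 3 : ℝ) := ⟨_, rfl⟩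
  have hX2 : X = K1 * S * L ^ (4 / 3 : ℝ) := by
    rw [hX, Real.mul_rpow hσ0.le hL0.le, hS]
    ring
  have hP1 : L ≤ L ^ (4 / 3 : ℝ) := by
    calc L = L ^ (1 : ℝ) := (Real.rpow_one L).symm
      _ ≤ L ^ (4 / 3 : ℝ) := Real.rpow_le_rpow_of_exponent_le (by linarith) (by norm_num)
  have hP0 : 0 < L ^ (4 / 3 : ℝ) := by linarith
  have hKS : 1 ≤ K1 * S := one_le_mul_of_one_le_of_one_le hK1c hS1
  have hX4 : 4 ≤ X := by
    rw [hX2]
    calc (4 : ℝ) ≤ L ^ (4 / 3 : ℝ) := g3.trans hP1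
      _ = 1 * L ^ (4 / 3 : ℝ) := (one_mul _).symm
      _ ≤ K1 * S * L ^ (4 / 3 : ℝ) := mul_le_mul_of_nonneg_right hKS hP0.le
  -- the even number M
  obtain ⟨M, hM⟩ : ∃ M : ℕ, M = 2 * ⌈X / 2⌉₊ := ⟨_, rfl⟩
  have hM1 : X ≤ M := by
    have := Nat.le_ceil (X / 2)
    rw [hM]
    push_cast
    linarith
  have hM2 : (M : ℝ) ≤ 2 * X := by
    have := (Nat.ceil_lt_add_one (by linarith : (0 : ℝ) ≤ X / 2)).le
    rw [hM]
    push_cast
    linarith
  have hMe : Even M := by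
    rw [hM]
    exact even_two_mul _
  have hN0 : lam * L ^ (4 / 3 : ℝ) ≤ N := hN1
  have hMN : (M : ℝ) ≤ δ * N := by
    calc (M : ℝ) ≤ 2 * X := hM2
      _ = 2 * (K1 * S) * L ^ (4 / 3 : ℝ) := by
          rw [hX2]
          ring
      _ ≤ δ * lam * L ^ (4 / 3 : ℝ) := mul_le_mul_of_nonneg_right hl2 hP0.le
      _ = δ * (lam * L ^ (4 / 3 : ℝ)) := by ring
      _ ≤ δ * N := mul_le_mul_of_nonneg_left hN0 hδ.le
  have hMN2 : 2 * M ≤ N := by
    have h1 : ((2 * M : ℕ) : ℝ) ≤ N := by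
      push_cast
      calc 2 * (M : ℝ) ≤ 2 * (2 * X) := by linarith
        _ = 4 * (K1 * S) * L ^ (4 / 3 : ℝ) := by
            rw [hX2]
            ring
        _ ≤ lam * L ^ (4 / 3 : ℝ) := mul_le_mul_of_nonneg_right hl3 hP0.le
        _ ≤ N := hN0
    exact_mod_cast h1
  have hCM : C' * L ^ (4 / 3 : ℝ) ≤ M := by
    refine le_trans ?_ hM1
    rw [hX2]
    refine mul_le_mul_of_nonneg_right ?_ hP0.le
    calc C' ≤ K1 := hK1b
      _ = K1 * 1 := (mul_one _).symm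
      _ ≤ K1 * S := mul_le_mul_of_nonneg_left hS1 (by linarith)
  have h1 := hN3 M hMe hCM hMN2
  have hσL : L ≤ σ * L := by nlinarith
  have hle : shP N M d (rb * L) P B ψ ≤ shP N M d (rb * L) P B' ψ := by
    rw [shP_len]
    unfold shP
    refine div_le_div_of_nonneg_right ?_ (Nat.cast_nonneg _)
    have hf := (Cln_finite (N + 1)).fintype
    rw [tsum_fintype, tsum_fintype]
    refine Finset.sum_le_sum fun K _ => ENNReal.toReal_mono (ne_top_of_le_ne_top ENNReal.one_ne_top (min_le_left _ _))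
      (min_le_min le_rfl ?_)
    unfold gsP
    refine ENNReal.tsum_le_tsum fun x => ?_
    by_cases h : DcP d (rb * L) P {b | b ∈ B ∧ b.length ≤ M} ((K : W3).take M) x.1 x.2.1 x.2.2
    · have h2 : DcP d (rb * L) P B' ((K : W3).take M) x.1 x.2.1 x.2.2 := by
        refine ⟨h.eq, h.tip, ?_, h.ev, h.rst⟩
        rw [hB']
        refine ⟨h.blk.1, ?_⟩
        have h3 : ((x.2.1.length : ℕ) : ℝ) ≤ M := by exact_mod_cast h.blk.2
        refine h3.trans (hM2.trans (le_of_eq ?_))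
        rw [hX2]
        ring
      rw [if_pos h, if_pos h2]
    · rw [if_neg h]
      exact bot_le
  have hB2 : ∀ b ∈ B', Even b.length ∧ ‖en b‖ ≤ σ * L := by
    intro b hb
    rw [hB'] at hb
    exact ⟨(hB b hb.1).1, (hB b hb.1).2.trans (by nlinarith)⟩
  have h2 := hT2 (σ * L) M N (g2.trans hσL) (by rw [← hX]; exact hM1) (by rw [← hX]; exact hM2) hMe hNo hMN d (ra * L)
    (rb * L) (la * L) P B' ψ hd hP (by nlinarith) (by nlinarith) (by nlinarith) (by nlinarith) hB2 htop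
  have h3 : c0 / (2 * C) ≤ (Sb B' ψ).toReal := by
    rw [div_le_iff₀ (by positivity)]
    linarith
  exact (ENNReal.ofReal_le_iff_le_toReal htop).2 h3

end Pool.Agent.ROT.F3
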