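import Pool.Agent.ROT.F3C0Lit

/-!
# ROT / F3W8s (helper83): the mass of the blocks with a weight is bounded from below at every scale

**`w8s`** : from `T12` (the closed words are bounded by the blocks) and `C0L` (the closed words have the marks with a positive
share): `ofReal c1 ≤ Sb (B L) (ψ L)` for all large real scales `L`. `c1` depends on `c0`, `C'` and on the ratios only.
-/

set_option autoImplicit false

namespace Pool.Agent.ROT.F3

open scoped ENNReal Classical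

/-- **row W8s** -/
theorem w8s (hT : T12) {c0 C' ra rb la sb : ℝ} (hc0 : 0 < c0) (hrb : 2 * ra ≤ rb) (hrb0 : 0 < rb)
    (hla : 0 < la) : ∃ c1 : ℝ, 0 < c1 ∧ ∀ (d : ℂ) (B : ℝ → Set W3) (ψ : ℝ → W3 → ℝ≥0∞), ‖d‖ = 1 →
      (∀ L, 0 < L → ∀ b ∈ B L, Even b.length ∧ ‖en b‖ ≤ sb * L) → C0L c0 C' ra rb la d B ψ →
        ∃ L0 : ℝ, ∀ L : ℝ, L0 ≤ L → ENNReal.ofReal c1 ≤ Sb (B L) (ψ L) := by
  obtain ⟨σ, hσ⟩ : ∃ σ, σ = max (max rb sb) 1 := ⟨_, rfl⟩
  have hσ1 : 1 ≤ σ := by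
    rw [hσ]
    exact le_max_right _ _
  have hσb : rb ≤ σ := by
    rw [hσ]
    exact (le_max_left _ _).trans (le_max_left _ _)
  have hσs : sb ≤ σ := by
    rw [hσ]
    exact (le_max_right _ _).trans (le_max_left _ _)
  have hσ0 : 0 < σ := by linarith
  obtain ⟨a, ha⟩ : ∃ a, a = min (rb / (2 * σ)) (la / (2 * σ)) := ⟨_, rfl⟩
  have hap : 0 < a := by
    rw [ha]
    exact lt_min (by positivity) (by positivity)
  have ha1 : a * σ ≤ rb / 2 := by
    have h1 : a ≤ rb / (2 * σ) := by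
      rw [ha]
      exact min_le_left _ _
    rw [le_div_iff₀ (by positivity)] at h1
    linarith
  have ha2 : a * σ ≤ la / 2 := by
    have h1 : a ≤ la / (2 * σ) := by
      rw [ha]
      exact min_le_right _ _
    rw [le_div_iff₀ (by positivity)] at h1
    linarith
  obtain ⟨K0, hT1⟩ := hT (c0 / 2) a (by positivity) hap
  obtain ⟨K1, hK1⟩ : ∃ K1, K1 = max (max K0 C') 1 := ⟨_, rfl⟩
  have hK1a : K0 ≤ K1 := by
    rw [hK1]
    exact (le_max_left _ _).trans (le_max_left _ _)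
  have hK1b : C' ≤ K1 := by
    rw [hK1]
    exact (le_max_right _ _).trans (le_max_left _ _)
  have hK1c : 1 ≤ K1 := by
    rw [hK1]
    exact le_max_right _ _
  obtain ⟨C, δ, s0, hC, hδ, hT2⟩ := hT1 K1 hK1a
  obtain ⟨S, hS⟩ : ∃ S : ℝ, S = σ ^ (4 / 3 : ℝ) := ⟨_, rfl⟩
  have hS1 : 1 ≤ S := by
    rw [hS]
    exact Real.one_le_rpow hσ1 (by norm_num)
  have hS0 : 0 < S := by linarith
  obtain ⟨lam, hlam⟩ : ∃ lam, lam = max (max C' (2 * (K1 * S) / δ)) (4 * (K1 * S)) := ⟨_, rfl⟩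
  have hl1 : C' ≤ lam := by
    rw [hlam]
    exact (le_max_left _ _).trans (le_max_left _ _)
  have hl2 : 2 * (K1 * S) ≤ δ * lam := by
    have h1 : 2 * (K1 * S) / δ ≤ lam := by
      rw [hlam]
      exact (le_max_right _ _).trans (le_max_left _ _)
    rw [div_le_iff₀ hδ] at h1
    linarith
  have hl3 : 4 * (K1 * S) ≤ lam := by
    rw [hlam]
    exact le_max_right _ _
  refine ⟨c0 / (2 * C), by positivity, fun d B ψ hd hB hC0 => ?_⟩
  obtain ⟨L1, hC1⟩ := hC0 lam hl1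
  refine ⟨max (max L1 s0) 4, fun L hL => ?_⟩
  have g1 : L1 ≤ L := ((le_max_left _ _).trans (le_max_left _ _)).trans hL
  have g2 : s0 ≤ L := ((le_max_right _ _).trans (le_max_left _ _)).trans hL
  have g3 : 4 ≤ L := (le_max_right _ _).trans hL
  have hL0 : 0 < L := by linarith
  obtain ⟨N, hNo, hN1, hN2, hN3⟩ := hC1 L g1
  by_cases htop : Sb (B L) (ψ L) = ⊤
  · rw [htop]
    exact le_top
  obtain ⟨X, hX⟩ : ∃ X : ℝ, X = K1 * (σ * L) ^ (4 / 3 : ℝ) := ⟨_, rfl⟩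
  have hX2 : X = K1 * S * L ^ (4 / 3 : ℝ) := by
    rw [hX, Real.mul_rpow hσ0.le hL0.le, hS]
    ring
  have hP1 : L ≤ L ^ (4 / 3 : ℝ) := by
    calc L = L ^ (1 : ℝ) := (Real.rpow_one L).symm
      _ ≤ L ^ (4 / 3 : ℝ) := Real.rpow_le_rpow_of_exponent_le (by linarith) (by norm_num)
  have hP0 : 0 < L ^ (4 / 3 : ℝ) := by linarith
  have hKS : 1 ≤ K1 * S := one_le_mul_of_one_le_of_one_le hK1c hS1
  have hX4 : 4 ≤ X := by
    rw [hX2]
    calc (4 : ℝ) ≤ L ^ (4 / 3 : ℝ) := g3.trans hP1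
      _ = 1 * L ^ (4 / 3 : ℝ) := (one_mul _).symm
      _ ≤ K1 * S * L ^ (4 / 3 : ℝ) := mul_le_mul_of_nonneg_right hKS hP0.le
  -- the even number M
  obtain ⟨M, hM⟩ : ∃ M : ℕ, M = 2 * ⌈X / 2⌉₊ := ⟨_, rfl⟩
  have hM1 : X ≤ M := by
    have := Nat.le_ceil (X / 2)
    rw [hM]
    push_cast
    linarith
  have hM2 : (M : ℝ) ≤ 2 * X := by
    have := (Nat.ceil_lt_add_one (by linarith : (0 : ℝ) ≤ X / 2)).le
    rw [hM]
    push_cast
    linarith
  have hMe : Even M := by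
    rw [hM]
    exact even_two_mul _
  have hN0 : lam * L ^ (4 / 3 : ℝ) ≤ N := hN1
  have hMN : (M : ℝ) ≤ δ * N := by
    calc (M : ℝ) ≤ 2 * X := hM2
      _ = 2 * (K1 * S) * L ^ (4 / 3 : ℝ) := by
          rw [hX2]
          ring
      _ ≤ δ * lam * L ^ (4 / 3 : ℝ) := mul_le_mul_of_nonneg_right hl2 hP0.le
      _ = δ * (lam * L ^ (4 / 3 : ℝ)) := by ring
      _ ≤ δ * N := mul_le_mul_of_nonneg_left hN0 hδ.le
  have hMN2 : 2 * M ≤ N := by
    have h1 : ((2 * M : ℕ) : ℝ) ≤ N := by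
      push_cast
      calc 2 * (M : ℝ) ≤ 2 * (2 * X) := by linarith
        _ = 4 * (K1 * S) * L ^ (4 / 3 : ℝ) := by
            rw [hX2]
            ring
        _ ≤ lam * L ^ (4 / 3 : ℝ) := mul_le_mul_of_nonneg_right hl3 hP0.le
        _ ≤ N := hN0
    exact_mod_cast h1
  have hCM : C' * L ^ (4 / 3 : ℝ) ≤ M := by
    refine le_trans ?_ hM1
    rw [hX2]
    refine mul_le_mul_of_nonneg_right ?_ hP0.le
    calc C' ≤ K1 := hK1b
      _ = K1 * 1 := (mul_one _).symm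
      _ ≤ K1 * S := mul_le_mul_of_nonneg_left hS1 (by linarith)
  have h1 := hN3 M hMe hCM hMN2
  have hσL : L ≤ σ * L := by nlinarith
  have h2 := hT2 (σ * L) M N (g2.trans hσL) (by rw [← hX]; exact hM1) (by rw [← hX]; exact hM2) hMe hNo hMN d (ra * L)
    (rb * L) (la * L) (B L) (ψ L) hd (by nlinarith) (by nlinarith) (by nlinarith) (by nlinarith)
    (fun b hb => ⟨(hB L hL0 b hb).1, (hB L hL0 b hb).2.trans (by nlinarith)⟩) htop
  have h3 : c0 / (2 * C) ≤ (Sb (B L) (ψ L)).toReal := by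
    rw [div_le_iff₀ (by positivity)]
    linarith
  exact (ENNReal.ofReal_le_iff_le_toReal htop).2 h3

end Pool.Agent.ROT.F3
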