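import Pool.Agent.ROT.F3W8p
import Pool.Agent.ROT.F3P12
import Pool.Agent.ROT.F3GateZP
import Pool.Agent.ROT.F3PWk
import Pool.Agent.ROT.F3NRt
import Pool.Agent.ROT.F3AcTF

/-!
# ROT / F3W8t (helper83): row T12 and row W8s, no hypothesis except the closed words

**`t12P : T12P`** : the share of the closed words with a start piece, a block `b ∈ B` (weight `ψ b`) and a gate behind it is at
most `C * (∑ b ∈ B, wx b * ψ b) + ε`. **`w8sP`** : if the closed words have the marks with a share at least `c0` at the scale `L`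
(`C0At`), the mass of the blocks with the weight is at least `c1`.
-/

set_option autoImplicit false

namespace Pool.Agent.ROT.F3

open scoped ENNReal Classical

/-- **row T12** -/
theorem t12P : T12P := t12P_of cw (fun _ _ hε hh => nret hε hh) Pool.Agent.RMP.acT gzP

/-- **row W8s** -/
theorem w8sP {c0 C' ra rb la sb : ℝ} (hc0 : 0 < c0) (hrb : 2 * ra ≤ rb) (hrb0 : 0 < rb) (hla : 0 < la) :
    ∃ c1 A lam L1 : ℝ, 0 < c1 ∧ 0 < A ∧ 0 < lam ∧ ∀ (L : ℝ) (d : ℂ) (P B : Set W3) (ψ : W3 → ℝ≥0∞), L1 ≤ L → ‖d‖ = 1 →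
      StC d (ra * L) (rb * L) (la * L) P → (∀ b ∈ B, Even b.length ∧ ‖en b‖ ≤ sb * L) →
        C0At c0 C' lam (rb * L) d P B ψ L →
          ENNReal.ofReal c1 ≤ Sb {b | b ∈ B ∧ (b.length : ℝ) ≤ A * L ^ (4 / 3 : ℝ)} ψ :=
  w8s_at t12P hc0 hrb hrb0 hla

end Pool.Agent.ROT.F3
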