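import Pool.Agent.ROT.F3W8cls

/-!
# ROT / F3W8u (helper83): row W8s over the classes of F3Cls, uniform in the data

* `w8lim_of` : the limit form of row W8s from its form for one scale, with the same constants;
* `w8s_ge` : the form for one scale for all windows `lam ≥ lam0`;
* **`w8u`** : constants `c1`, `lam0`, `A`, `L1` from `c0`, `C'`, `ra`, `rb`, `la`, `sb` only, for all `lam ≥ lam0`, all scales `ρ > 0` and all
  data `E`, `O` with `E.r + E.r2 ≤ ra * ρ`, `la * ρ ≤ E.l`, `O.r ≤ sb * ρ`: the form for one scale (blocks with at most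
  `A * (ρ * S) ^ (4 / 3)` letters) and the limit form.
-/

set_option autoImplicit false

open MeasureTheory Filter Topology Finset

open scoped ENNReal Classical BoundedContinuousFunction

namespace Pool.Agent.ROT.F3

/-- larger balls, lower levels -/
lemma StC.wk {d : ℂ} {r r0 l r' l' : ℝ} {P : Set W3} (h : StC d r r0 l P) (hr : r ≤ r') (hl : l' ≤ l) : StC d r' r0 l' P :=
  ⟨fun p hp => by
    have h1 := h.tip p hp
    exact ⟨h1.ev, h1.sw, h1.pos, h1.left, fun j hj => (h1.ball j hj).trans hr⟩, fun p hp => hl.trans (h.lvl p hp), h.uni⟩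

/-- **row W8s, one scale, all large windows** -/
theorem w8s_ge {c0 C' ra rb la sb : ℝ} (hc0 : 0 < c0) (hrb : 2 * ra ≤ rb) (hrb0 : 0 < rb) (hla : 0 < la) :
    ∃ c1 A lam0 L1 : ℝ, 0 < c1 ∧ 0 < A ∧ 0 < lam0 ∧ ∀ lam : ℝ, lam0 ≤ lam → ∀ (L : ℝ) (d : ℂ) (P B : Set W3)
      (ψ : W3 → ℝ≥0∞), L1 ≤ L → ‖d‖ = 1 → StC d (ra * L) (rb * L) (la * L) P →
        (∀ b ∈ B, Even b.length ∧ ‖en b‖ ≤ sb * L) → C0At c0 C' lam (rb * L) d P B ψ L →
          ENNReal.ofReal c1 ≤ Sb {b | b ∈ B ∧ (b.length : ℝ) ≤ A * L ^ (4 / 3 : ℝ)} ψ := by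
  have hT := t12P
  obtain ⟨σ, hσ⟩ : ∃ σ, σ = max (max rb sb) 1 := ⟨_, rfl⟩
  have hσ1 : 1 ≤ σ := by
    rw [hσ]
    exact le_max_right _ _
  have hσb : rb ≤ σ := by
    rw [hσ]
    exact (le_max_left _ _).trans (le_max_left _ _)
  have hσs : sb ≤ σ := by
    rw [hσ]
    exact (le_max_right _ _).trans (le_max_left _ _)
  have hσ0 : 0 < σ := by linarith
  obtain ⟨a, ha⟩ : ∃ a, a = min (rb / (2 * σ)) (la / (2 * σ)) := ⟨_, rfl⟩
  have hap : 0 < a := by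
    rw [ha]
    exact lt_min (by positivity) (by positivity)
  have ha1 : a * σ ≤ rb / 2 := by
    have h1 : a ≤ rb / (2 * σ) := by
      rw [ha]
      exact min_le_left _ _
    rw [le_div_iff₀ (by positivity)] at h1
    linarith
  have ha2 : a * σ ≤ la / 2 := by
    have h1 : a ≤ la / (2 * σ) := by
      rw [ha]
      exact min_le_right _ _
    rw [le_div_iff₀ (by positivity)] at h1
    linarith
  obtain ⟨K0, hT1⟩ := hT (c0 / 2) a (by positivity) hap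
  obtain ⟨K1, hK1⟩ : ∃ K1, K1 = max (max K0 C') 1 := ⟨_, rfl⟩
  have hK1a : K0 ≤ K1 := by
    rw [hK1]
    exact (le_max_left _ _).trans (le_max_left _ _)
  have hK1b : C' ≤ K1 := by
    rw [hK1]
    exact (le_max_right _ _).trans (le_max_left _ _)
  have hK1c : 1 ≤ K1 := by
    rw [hK1]
    exact le_max_right _ _
  obtain ⟨C, δ, s0, hC, hδ, hT2⟩ := hT1 K1 hK1a
  obtain ⟨S, hS⟩ : ∃ S : ℝ, S = σ ^ (4 / 3 : ℝ) := ⟨_, rfl⟩
  have hS1 : 1 ≤ S := by
    rw [hS]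
    exact Real.one_le_rpow hσ1 (by norm_num)
  have hS0 : 0 < S := by linarith
  refine ⟨c0 / (2 * C), 2 * (K1 * S), max (max C' (2 * (K1 * S) / δ)) (4 * (K1 * S)), max s0 4, by positivity, by positivity,
    lt_max_of_lt_right (by positivity), fun lam hlam L d P B ψ hL hd hP hB hC0 => ?_⟩
  have hl2 : 2 * (K1 * S) ≤ δ * lam := by
    have h1 : 2 * (K1 * S) / δ ≤ lam := ((le_max_right _ _).trans (le_max_left _ _)).trans hlam
    rw [div_le_iff₀ hδ] at h1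
    linarith
  have hl3 : 4 * (K1 * S) ≤ lam := (le_max_right _ _).trans hlam
  have hlam0 : 0 < lam := by nlinarith
  have g2 : s0 ≤ L := (le_max_left _ _).trans hL
  have g3 : 4 ≤ L := (le_max_right _ _).trans hL
  have hL0 : 0 < L := by linarith
  obtain ⟨N, hNo, hN1, hN2, hN3⟩ := hC0
  obtain ⟨B', hB'⟩ : ∃ B' : Set W3, B' = {b | b ∈ B ∧ (b.length : ℝ) ≤ 2 * (K1 * S) * L ^ (4 / 3 : ℝ)} := ⟨_, rfl⟩
  rw [← hB']
  by_cases htop : Sb B' ψ = ⊤
  · rw [htop]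
    exact le_top
  obtain ⟨X, hX⟩ : ∃ X : ℝ, X = K1 * (σ * L) ^ (4 / 3 : ℝ) := ⟨_, rfl⟩
  have hX2 : X = K1 * S * L ^ (4 / 3 : ℝ) := by
    rw [hX, Real.mul_rpow hσ0.le hL0.le, hS]
    ring
  have hP1 : L ≤ L ^ (4 / 3 : ℝ) := by
    calc L = L ^ (1 : ℝ) := (Real.rpow_one L).symm
      _ ≤ L ^ (4 / 3 : ℝ) := Real.rpow_le_rpow_of_exponent_le (by linarith) (by norm_num)
  have hP0 : 0 < L ^ (4 / 3 : ℝ) := by linarith
  have hKS : 1 ≤ K1 * S := one_le_mul_of_one_le_of_one_le hK1c hS1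
  have hX4 : 4 ≤ X := by
    rw [hX2]
    calc (4 : ℝ) ≤ L ^ (4 / 3 : ℝ) := g3.trans hP1
      _ = 1 * L ^ (4 / 3 : ℝ) := (one_mul _).symm
      _ ≤ K1 * S * L ^ (4 / 3 : ℝ) := mul_le_mul_of_nonneg_right hKS hP0.le
  -- the even number M
  obtain ⟨M, hM⟩ : ∃ M : ℕ, M = 2 * ⌈X / 2⌉₊ := ⟨_, rfl⟩
  have hM1 : X ≤ M := by
    have := Nat.le_ceil (X / 2)
    rw [hM]
    push_cast
    linarith
  have hM2 : (M : ℝ) ≤ 2 * X := by
    have := (Nat.ceil_lt_add_one (by linarith : (0 : ℝ) ≤ X / 2)).le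
    rw [hM]
    push_cast
    linarith
  have hMe : Even M := by
    rw [hM]
    exact even_two_mul _
  have hN0 : lam * L ^ (4 / 3 : ℝ) ≤ N := hN1
  have hMN : (M : ℝ) ≤ δ * N := by
    calc (M : ℝ) ≤ 2 * X := hM2
      _ = 2 * (K1 * S) * L ^ (4 / 3 : ℝ) := by
          rw [hX2]
          ring
      _ ≤ δ * lam * L ^ (4 / 3 : ℝ) := mul_le_mul_of_nonneg_right hl2 hP0.le
      _ = δ * (lam * L ^ (4 / 3 : ℝ)) := by ring
      _ ≤ δ * N := mul_le_mul_of_nonneg_left hN0 hδ.le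
  have hMN2 : 2 * M ≤ N := by
    have h1 : ((2 * M : ℕ) : ℝ) ≤ N := by
      push_cast
      calc 2 * (M : ℝ) ≤ 2 * (2 * X) := by linarith
        _ = 4 * (K1 * S) * L ^ (4 / 3 : ℝ) := by
            rw [hX2]
            ring
        _ ≤ lam * L ^ (4 / 3 : ℝ) := mul_le_mul_of_nonneg_right hl3 hP0.le
        _ ≤ N := hN0
    exact_mod_cast h1
  have hCM : C' * L ^ (4 / 3 : ℝ) ≤ M := by
    refine le_trans ?_ hM1
    rw [hX2]
    refine mul_le_mul_of_nonneg_right ?_ hP0.le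
    calc C' ≤ K1 := hK1b
      _ = K1 * 1 := (mul_one _).symm
      _ ≤ K1 * S := mul_le_mul_of_nonneg_left hS1 (by linarith)
  have h1 := hN3 M hMe hCM hMN2
  have hσL : L ≤ σ * L := by nlinarith
  have hle : shP N M d (rb * L) P B ψ ≤ shP N M d (rb * L) P B' ψ := by
    rw [shP_len]
    unfold shP
    refine div_le_div_of_nonneg_right ?_ (Nat.cast_nonneg _)
    have hf := (Cln_finite (N + 1)).fintype
    rw [tsum_fintype, tsum_fintype]
    refine Finset.sum_le_sum fun K _ => ENNReal.toReal_mono (ne_top_of_le_ne_top ENNReal.one_ne_top (min_le_left _ _))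
      (min_le_min le_rfl ?_)
    unfold gsP
    refine ENNReal.tsum_le_tsum fun x => ?_
    by_cases h : DcP d (rb * L) P {b | b ∈ B ∧ b.length ≤ M} ((K : W3).take M) x.1 x.2.1 x.2.2
    · have h2 : DcP d (rb * L) P B' ((K : W3).take M) x.1 x.2.1 x.2.2 := by
        refine ⟨h.eq, h.tip, ?_, h.ev, h.rst⟩
        rw [hB']
        refine ⟨h.blk.1, ?_⟩
        have h3 : ((x.2.1.length : ℕ) : ℝ) ≤ M := by exact_mod_cast h.blk.2
        refine h3.trans (hM2.trans (le_of_eq ?_))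
        rw [hX2]
        ring
      rw [if_pos h, if_pos h2]
    · rw [if_neg h]
      exact bot_le
  have hB2 : ∀ b ∈ B', Even b.length ∧ ‖en b‖ ≤ σ * L := by
    intro b hb
    rw [hB'] at hb
    exact ⟨(hB b hb.1).1, (hB b hb.1).2.trans (by nlinarith)⟩
  have h2 := hT2 (σ * L) M N (g2.trans hσL) (by rw [← hX]; exact hM1) (by rw [← hX]; exact hM2) hMe hNo hMN d (ra * L)
    (rb * L) (la * L) P B' ψ hd hP (by nlinarith) (by nlinarith) (by nlinarith) (by nlinarith) hB2 htop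
  have h3 : c0 / (2 * C) ≤ (Sb B' ψ).toReal := by
    rw [div_le_iff₀ (by positivity)]
    linarith
  exact (ENNReal.ofReal_le_iff_le_toReal htop).2 h3

/-- the limit form from the form for one scale, same constants -/
theorem w8lim_of {c0 C' ra rb la sb c1 A lam L1 : ℝ}
    (hW : ∀ (L : ℝ) (d : ℂ) (P B : Set W3) (ψ : W3 → ℝ≥0∞), L1 ≤ L → ‖d‖ = 1 → StC d (ra * L) (rb * L) (la * L) P →
      (∀ b ∈ B, Even b.length ∧ ‖en b‖ ≤ sb * L) → C0At c0 C' lam (rb * L) d P B ψ L →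
        ENNReal.ofReal c1 ≤ Sb {b | b ∈ B ∧ (b.length : ℝ) ≤ A * L ^ (4 / 3 : ℝ)} ψ)
    (U : Ultrafilter ℕ) (L s t : ℕ → ℝ) (d : ℕ → ℂ) (P B : ℕ → Set W3) (κ μ : Measure (CI3 × ℝ)) (S : Set (CI3 × ℝ)) (η : ℝ)
    (hL : Tendsto L (U : Filter ℕ) atTop)
    (hcls : ∀ᶠ N in (U : Filter ℕ), ‖d N‖ = 1 ∧ StC (d N) (ra * L N) (rb * L N) (la * L N) (P N) ∧
        (∀ b ∈ B N, Even b.length ∧ ‖en b‖ ≤ sb * L N) ∧ ms (B N) (fun _ => 1) ≠ ∞)
    (hκ : IsFiniteMeasure κ) (hμ : IsFiniteMeasure μ) (hS : MeasurableSet S) (hη : 0 < η)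
    (hlim : ∀ g : (CI3 × ℝ) →ᵇ ℝ, Tendsto (fun N => ∫ x, g x ∂(rm 1 (s N) (t N) (B N) fun _ => 1)) (U : Filter ℕ)
        (𝓝 (∫ x, g x ∂κ)))
    (hC : ∀ ψ : (CI3 × ℝ) →ᵇ ℝ, (∀ x, 0 ≤ ψ x) → (∀ x, ψ x ≤ 1) →
        ∫ x, |ψ x - S.indicator (fun _ => (1 : ℝ)) x| ∂μ ≤ η → ∀ᶠ N in (U : Filter ℕ),
          C0At c0 C' lam (rb * L N) (d N) (P N) (B N) (fun b => ENNReal.ofReal (ψ (cr (s N) (t N) b))) (L N)) :
    ENNReal.ofReal c1 ≤ κ S := by
  have key : ∀ e : ℝ, 0 < e → e ≤ η → c1 ≤ κ.real S + e := by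
    intro e he heη
    obtain ⟨ψ, h0, h1, h2⟩ := set_approx (κ + μ) hS he
    have hI : ∀ ν : Measure (CI3 × ℝ), IsFiniteMeasure ν → Integrable (fun x => |ψ x - S.indicator (fun _ => (1 : ℝ)) x|) ν :=
      fun ν hν => ((ψ.integrable ν).sub ((integrable_const (1 : ℝ)).indicator hS)).abs
    rw [integral_add_measure (hI κ hκ) (hI μ hμ)] at h2
    have p1 : 0 ≤ ∫ x, |ψ x - S.indicator (fun _ => (1 : ℝ)) x| ∂κ := integral_nonneg fun x => abs_nonneg _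
    have p2 : 0 ≤ ∫ x, |ψ x - S.indicator (fun _ => (1 : ℝ)) x| ∂μ := integral_nonneg fun x => abs_nonneg _
    have h3 := hC ψ h0 h1 (by linarith)
    have h4 : ∀ᶠ N in (U : Filter ℕ), c1 ≤ ∫ x, ψ x ∂(rm 1 (s N) (t N) (B N) fun _ => 1) := by
      filter_upwards [h3, hcls, hL.eventually_ge_atTop L1] with N g1 g2 g3
      obtain ⟨hd, hP, hB, hfin⟩ := g2
      have g4 := hW (L N) (d N) (P N) (B N) _ g3 hd hP hB g1
      rw [rm_int (s N) (t N) (fun _ => zero_le_one) ψ.continuous.measurable h0, ENNReal.toReal_one, one_mul]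
      have hne : (ms (B N) fun R => ENNReal.ofReal (1 * ψ (cr (s N) (t N) R))) ≠ ∞ := by
        refine ne_top_of_le_ne_top hfin ?_
        unfold ms
        refine ENNReal.tsum_le_tsum fun b => ?_
        split_ifs
        · show wx b * ENNReal.ofReal (1 * ψ (cr (s N) (t N) b)) ≤ wx b * 1
          rw [one_mul]
          exact mul_le_mul_right (ENNReal.ofReal_le_one.2 (h1 _)) _
        · exact le_rfl
      rw [← ENNReal.ofReal_le_iff_le_toReal hne]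
      refine g4.trans ?_
      unfold Sb ms
      refine ENNReal.tsum_le_tsum fun b => ?_
      by_cases hb : b ∈ B N
      · rw [if_pos hb]
        show _ ≤ wx b * ENNReal.ofReal (1 * ψ (cr (s N) (t N) b))
        rw [one_mul]
        split_ifs
        · exact le_rfl
        · exact bot_le
      · rw [if_neg hb, if_neg fun h => hb h.1]
    have h5 : c1 ≤ ∫ x, ψ x ∂κ := ge_of_tendsto (hlim ψ) h4
    have h6 : ∫ x, ψ x ∂κ ≤ κ.real S + e := by
      have e1 : κ.real S = ∫ x, S.indicator (fun _ => (1 : ℝ)) x ∂κ := by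
        rw [integral_indicator hS, setIntegral_const, smul_eq_mul, mul_one]
      have e2 : ∫ x, ψ x ∂κ - ∫ x, S.indicator (fun _ => (1 : ℝ)) x ∂κ ≤
          ∫ x, |ψ x - S.indicator (fun _ => (1 : ℝ)) x| ∂κ := by
        rw [← integral_sub (ψ.integrable κ) ((integrable_const (1 : ℝ)).indicator hS)]
        exact integral_mono ((ψ.integrable κ).sub ((integrable_const (1 : ℝ)).indicator hS)) (hI κ hκ) fun x => le_abs_self _
      rw [e1]
      linarith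
    linarith
  have h7 : c1 ≤ κ.real S := by
    refine le_of_forall_pos_le_add fun e he => ?_
    have := key (min e η) (lt_min he hη) (min_le_right _ _)
    linarith [min_le_left e η]
  rw [← ENNReal.ofReal_toReal (measure_ne_top κ S)]
  exact ENNReal.ofReal_le_ofReal h7

/-- the prefixes in the ratios `ra`, `rb`, `la` of the scale `ρ * S` -/
lemma stC_PreU {a : Fin 3} {E : Tp} (hE : E.Ok) {ρ S T ra rb la : ℝ} (hρ : 0 < ρ) (hS : 0 ≤ S) (hrb : 2 * ra ≤ rb)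
    (h1 : E.r + E.r2 ≤ ra * ρ) (h2 : la * ρ ≤ E.l) :
    StC (ev a) (ra * (ρ * S)) (rb * (ρ * S)) (la * (ρ * S)) (Pre (ev a) E S T) := by
  have h3 : 2 * (E.r + E.r2) ≤ rb * ρ := by nlinarith
  have h := stC_Pre (d := ev a) hE (T := T) hS h3
  have h4 : (E.r + E.r2) * S ≤ ra * (ρ * S) := by
    rw [← mul_assoc]
    exact mul_le_mul_of_nonneg_right h1 hS
  have h5 : la * (ρ * S) ≤ E.l * S := by
    rw [← mul_assoc]
    exact mul_le_mul_of_nonneg_right h2 hS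
  have h6 := h.wk h4 h5
  rwa [mul_assoc rb ρ S] at h6

/-- **row W8s over the classes of F3Cls, uniform in the scale and in the data**, all large windows -/
theorem w8u {c0 C' ra rb la sb : ℝ} (hc0 : 0 < c0) (hrb : 2 * ra ≤ rb) (hrb0 : 0 < rb) (hla : 0 < la) :
    ∃ c1 lam0 A L1 : ℝ, 0 < c1 ∧ 0 < lam0 ∧ 0 < A ∧ 0 < L1 ∧ ∀ lam : ℝ, lam0 ≤ lam →
      (∀ (ρ : ℝ) (E : Tp) (O : Ot) (a : Fin 3) (S T : ℝ) (ψ : W3 → ℝ≥0∞), 0 < ρ → E.Ok → E.r + E.r2 ≤ ra * ρ → la * ρ ≤ E.l →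
        O.r ≤ sb * ρ → L1 ≤ ρ * S →
          C0At c0 C' lam (rb * (ρ * S)) (ev a) (Pre (ev a) E S T) (OtB (ev a) O S T) ψ (ρ * S) →
            ENNReal.ofReal c1 ≤ Sb {b | b ∈ OtB (ev a) O S T ∧ (b.length : ℝ) ≤ A * (ρ * S) ^ (4 / 3 : ℝ)} ψ) ∧
      (∀ (ρ : ℝ) (E : Tp) (O : Ot) (U : Ultrafilter ℕ) (a : Fin 3) (S T s t : ℕ → ℝ) (κ μ : Measure (CI3 × ℝ))
        (X : Set (CI3 × ℝ)) (η : ℝ), 0 < ρ → E.Ok → E.r + E.r2 ≤ ra * ρ → la * ρ ≤ E.l → O.r ≤ sb * ρ →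
        Tendsto S (U : Filter ℕ) atTop → IsFiniteMeasure κ → IsFiniteMeasure μ → MeasurableSet X → 0 < η →
        (∀ h : (CI3 × ℝ) →ᵇ ℝ, Tendsto (fun N => ∫ x, h x ∂(rm 1 (s N) (t N) (OtB (ev a) O (S N) (T N)) fun _ => 1))
          (U : Filter ℕ) (𝓝 (∫ x, h x ∂κ))) →
        (∀ ψ : (CI3 × ℝ) →ᵇ ℝ, (∀ x, 0 ≤ ψ x) → (∀ x, ψ x ≤ 1) →
          ∫ x, |ψ x - X.indicator (fun _ => (1 : ℝ)) x| ∂μ ≤ η → ∀ᶠ N in (U : Filter ℕ),
            C0At c0 C' lam (rb * (ρ * S N)) (ev a) (Pre (ev a) E (S N) (T N)) (OtB (ev a) O (S N) (T N))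
              (fun b => ENNReal.ofReal (ψ (cr (s N) (t N) b))) (ρ * S N)) →
          ENNReal.ofReal c1 ≤ κ X) := by
  obtain ⟨c1, A, lam0, L1, hc1, hA, hlam, hW0⟩ := w8s_ge (c0 := c0) (C' := C') (sb := sb) hc0 hrb hrb0 hla
  refine ⟨c1, lam0, A, max L1 1, hc1, hlam, hA, lt_max_of_lt_right one_pos, fun lam hl => ?_⟩
  have hW := hW0 lam hl
  refine ⟨?_, ?_⟩
  · intro ρ E O a S T ψ hρ hE h1 h2 h3 hL hC
    have hL1 : 1 ≤ ρ * S := (le_max_right _ _).trans hL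
    have hS : 0 ≤ S := by
      by_contra hS
      push Not at hS
      have := mul_neg_of_pos_of_neg hρ hS
      linarith
    refine hW (ρ * S) (ev a) _ _ ψ ((le_max_left _ _).trans hL) (ev_norm a) (stC_PreU hE hρ hS hrb h1 h2) (fun b hb => ?_) hC
    have h4 := otB_ok hb
    refine ⟨h4.1, h4.2.trans ?_⟩
    rw [← mul_assoc]
    exact mul_le_mul_of_nonneg_right h3 hS
  · intro ρ E O U a S T s t κ μ X η hρ hE h1 h2 h3 hS hκ hμ hX hη hlim hC
    refine w8lim_of hW U (fun N => ρ * S N) s t (fun _ => ev a) (fun N => Pre (ev a) E (S N) (T N))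
      (fun N => OtB (ev a) O (S N) (T N)) κ μ X η (hS.const_mul_atTop hρ) ?_ hκ hμ hX hη hlim hC
    filter_upwards [hS.eventually_ge_atTop 0] with N hN
    refine ⟨ev_norm a, stC_PreU hE hρ hN hrb h1 h2, fun b hb => ?_, otB_fin fun _ => ENNReal.one_ne_top⟩
    have h4 := otB_ok hb
    refine ⟨h4.1, h4.2.trans ?_⟩
    rw [← mul_assoc]
    exact mul_le_mul_of_nonneg_right h3 hN

end Pool.Agent.ROT.F3
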