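import Pool.Agent.ROT.F3MacS1

/-!
# ROT, block F3, row LOC (C): the gate of a walk with margins is the gate of every close walk (helper68; over helper66's F3MacS1)

* `NJ D a r ρ μ S s` : no jump: a start gate at `(a, r, ρ)` is the start gate at `(a - μ, r - μ, ρ + μ)`, of size at least `a + μ`;
* **`wl`** : for two close walks with stability and transfer of the size: a start gate of `s` with margins gives a start gate of `s'`
  at the same parameters, at almost the same time (no first times, no squares); `NJ` is NOT a soft condition (it asks for the same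
  index): use helper59's `gate_pair` where only the time is known to be stable;
* `Dv s b` : level over the base `b`; **`wl_iff`**;
* `G2` : double gates (`c`, `y`, `x`: `x` and the block cut `y` over `c`); **`wl2`** : the same for double gates.
-/

set_option autoImplicit false

open Set Filter Topology MeasureTheory

namespace Pool.Agent.SCF.M

open Pool.Agent.NTS.Res
open Pool.Agent.SCF.Z

/-- **no jump**: the start gate at `(a, r, ρ)` has the margins `μ`, unit `S` -/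
def NJ (D : ℝ → ℕ → Prop) (a r ρ μ S : ℝ) {n : ℕ} (s : Fin n → Fin 3) : Prop :=
  ∀ k : ℕ, TP D (a * S) (r * S) (ρ * S) s k → TP D ((a - μ) * S) ((r - μ) * S) ((ρ + μ) * S) s k ∧ D ((a + μ) * S) k

/-- **a start gate with margins gives a start gate of every close walk, at the same parameters** -/
theorem wl {n n' : ℕ} {s : Fin n → Fin 3} {s' : Fin n' → Fin 3} {D D' : ℝ → ℕ → Prop} (hD : Sz1 s D) (hD' : Sz1 s' D')
    {S R θ τ β ν μ μ' a r ρ : ℝ} {k : ℕ}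
    (hT : TrS θ τ μ' S s s' D D') (hT' : TrS θ τ μ' S s' s D' D) (hS0 : 0 < S) (hn : 1 ≤ n) (hn' : 1 ≤ n') (hR : 0 < R)
    (hC : ClS S τ β ν s s') (hS : StbD D R θ S s s') (hS' : StbD D' R θ S s' s)
    (hθ : 0 < θ) (hθR : θ ≤ R / 8) (hν : ν ≤ R / 32) (hb : θ + 1 / n ≤ β) (hμ' : μ' ≤ μ) (hμR : μ ≤ R / 8)
    (hμθ : ν + 2 * θ ≤ μ) (hμν : 2 * ν ≤ μ) (ha : R / 4 ≤ a) (hr : r ≤ 2 * R) (hρ : 64 * R ≤ ρ) (hρ2 : ρ ≤ 128 * R)
    (ht1 : TP D ((a - μ) * S) ((r - μ) * S) ((ρ + μ) * S) s k) (ht2 : D ((a + μ) * S) k) (hkτ : (k : ℝ) / n + 2 * θ ≤ τ) :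
    ∃ k' : ℕ, TP D' (a * S) (r * S) (ρ * S) s' k' ∧ |(k : ℝ) / n - (k' : ℝ) / n'| ≤ θ ∧ ‖pos s k - pos s' k'‖ ≤ ν * S := by
  classical
  have hn0 : (0 : ℝ) < n := by exact_mod_cast hn
  have hn0' : (0 : ℝ) < n' := by exact_mod_cast hn'
  have hRS : 0 < R * S := mul_pos hR hS0
  have hinv : (0 : ℝ) < 1 / n := by positivity
  have hkn : k < n := ht1.2.1
  have hν0 : 0 ≤ ν := by
    have h := hC 0 0 (Nat.zero_le _) (Nat.zero_le _) (by
      have : (0 : ℝ) ≤ (k : ℝ) / n := by positivity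
      simp only [Nat.cast_zero, zero_div]
      linarith) (by
      have : (0 : ℝ) ≤ (k : ℝ) / n := by positivity
      simp only [Nat.cast_zero, zero_div]
      linarith) (by
      simp only [Nat.cast_zero, zero_div, sub_zero, abs_zero]
      linarith)
    have h0 := (norm_nonneg _).trans h
    by_contra hc
    have := mul_neg_of_neg_of_pos (not_le.1 hc) hS0
    linarith
  have hμ0 : 0 < μ := by linarith
  have hconf := tp_conf hS0.le hR.le (by linarith : r - μ ≤ 2 * R) ht1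
  -- the mate
  obtain ⟨ks, m1, m2, m3, m4, m5⟩ := mateS hD hD' hT hS0 hn hn' hC hS hR hθ hθR hν (hμ'.trans hμR) hb
    (by linarith : 41 * R ≤ ρ + μ) (by linarith) (tp_sc ht1) (by linarith) hconf (by linarith : R / 4 ≤ a + μ) ht2
  have hksD : ∀ i : ℕ, i ≤ ks → ‖pos s' i‖ ≤ 3 * R * S := fun i hi => (m2.2.1 i hi).trans (le_of_eq (by ring))
  have hP : PS D' R S a s' ks := ⟨m2, hD'.anti m5 (mul_le_mul_of_nonneg_right (by linarith) hS0.le)⟩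
  have hex : ∃ c, PS D' R S a s' c := ⟨ks, hP⟩
  obtain ⟨k', p1, p2⟩ : ∃ c, PS D' R S a s' c ∧ ∀ c', c' < c → ¬ PS D' R S a s' c' :=
    ⟨Nat.find hex, Nat.find_spec hex, fun c' hc' => Nat.find_min hex hc'⟩
  have hks : k' ≤ ks := by
    by_contra h
    exact p2 ks (not_le.1 h) hP
  have m3' := abs_le.1 m3
  have hks' : (k' : ℝ) / n' ≤ (ks : ℝ) / n' := div_le_div_of_nonneg_right (by exact_mod_cast hks) hn0'.le
  -- the time
  have htm : |(k : ℝ) / n - (k' : ℝ) / n'| ≤ θ := by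
    rcases eq_or_lt_of_le hks with h | h
    · rw [h]
      exact m3
    · obtain ⟨c, c1, c2, c3⟩ := backS hS0 hR hS' hθR (ρ := ρ + μ) (by linarith) m1 hksD p1.1
        (hD'.anti p1.2 (mul_le_mul_of_nonneg_right (by linarith) hS0.le)) h
      have c2' := abs_le.1 c2
      have c4 := hT' k' c a p1.1.le c1.lt.le (by linarith) (by linarith) c2 c3 p1.2
      have h3 : k ≤ c := by
        by_contra hcc
        have hck : c < k := not_le.1 hcc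
        exact ht1.1.2.2.2.2 c (c1.scut hck hkn.le hconf (by linarith))
          (hD.anti c4 (mul_le_mul_of_nonneg_right (by linarith) hS0.le))
      have h5 : (k : ℝ) / n ≤ (c : ℝ) / n := div_le_div_of_nonneg_right (by exact_mod_cast h3) hn0.le
      rw [abs_le]
      constructor <;> linarith
  have htm' := abs_le.1 htm
  have hps := hC k k' hkn.le p1.1.le (by linarith) (by linarith) (htm.trans (by linarith))
  have hdist : ‖pos s' k' - pos s' ks‖ ≤ (ν + θ) * S := by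
    calc ‖pos s' k' - pos s' ks‖ = ‖-(pos s k - pos s' k') + (pos s k - pos s' ks)‖ := by congr 1; ring
      _ ≤ ν * S + θ * S := (norm_add_le _ _).trans (add_le_add (by rw [norm_neg]; exact hps) m4)
      _ = (ν + θ) * S := by ring
  -- the radius
  have hrad : SC (ρ * S) s' k' := by
    have h1 : ρ * S ≤ (ρ + μ - θ) * S := mul_le_mul_of_nonneg_right (by linarith) hS0.le
    rcases eq_or_lt_of_le hks with h | h
    · rw [h]
      exact m1.mono h1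
    · obtain ⟨-, -, -, u4, u5, u6⟩ := p1.1.scut hRS m2 h
      refine ⟨p1.1.1.1, p1.1.1.2.1, h.trans m1.lt, u4, fun j hj hjn hd => ?_⟩
      rcases le_or_gt j ks with h7 | h7
      · exact u6 j hj h7
      · have h8 := m1.2.2.2.2 j h7 hjn (by
          calc ‖pos s' j - pos s' ks‖ = ‖(pos s' j - pos s' k') + (pos s' k' - pos s' ks)‖ := by congr 1; ring
            _ ≤ ρ * S + (ν + θ) * S := (norm_add_le _ _).trans (add_le_add hd hdist)
            _ = (ρ + (ν + θ)) * S := by ring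
            _ ≤ (ρ + μ - θ) * S := mul_le_mul_of_nonneg_right (by linarith) hS0.le)
        have h9 := u6 ks h le_rfl
        linarith
  refine ⟨k', tp_of_first hD' (R := R * S) ?_ ?_ p1.1 p1.2 p2 hrad ?_, htm, hps⟩
  · have h1 : R / 8 * S ≤ a * S := mul_le_mul_of_nonneg_right (by linarith) hS0.le
    linarith
  · have h1 : 46 * R * S ≤ ρ * S := mul_le_mul_of_nonneg_right (by linarith) hS0.le
    linarith
  · intro i j hi hj
    refine (diam_trS hn hn' hC hθ.le hb hkn.le p1.1.le (by linarith) (by linarith) htm ht1.1.2.2.1 i j hi hj).trans ?_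
    exact mul_le_mul_of_nonneg_right (by linarith) hS0.le

/-- the same with `NJ` as the hypothesis -/
theorem wl_nj {n n' : ℕ} {s : Fin n → Fin 3} {s' : Fin n' → Fin 3} {D D' : ℝ → ℕ → Prop} (hD : Sz1 s D) (hD' : Sz1 s' D')
    {S R θ τ β ν μ μ' a r ρ : ℝ} {k : ℕ}
    (hT : TrS θ τ μ' S s s' D D') (hT' : TrS θ τ μ' S s' s D' D) (hS0 : 0 < S) (hn : 1 ≤ n) (hn' : 1 ≤ n') (hR : 0 < R)
    (hC : ClS S τ β ν s s') (hS : StbD D R θ S s s') (hS' : StbD D' R θ S s' s)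
    (hθ : 0 < θ) (hθR : θ ≤ R / 8) (hν : ν ≤ R / 32) (hb : θ + 1 / n ≤ β) (hμ' : μ' ≤ μ) (hμR : μ ≤ R / 8)
    (hμθ : ν + 2 * θ ≤ μ) (hμν : 2 * ν ≤ μ) (ha : R / 4 ≤ a) (hr : r ≤ 2 * R) (hρ : 64 * R ≤ ρ) (hρ2 : ρ ≤ 128 * R)
    (hj : NJ D a r ρ μ S s) (ht : TP D (a * S) (r * S) (ρ * S) s k) (hkτ : (k : ℝ) / n + 2 * θ ≤ τ) :
    ∃ k' : ℕ, TP D' (a * S) (r * S) (ρ * S) s' k' ∧ |(k : ℝ) / n - (k' : ℝ) / n'| ≤ θ ∧ ‖pos s k - pos s' k'‖ ≤ ν * S :=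
  wl hD hD' hT hT' hS0 hn hn' hR hC hS hS' hθ hθR hν hb hμ' hμR hμθ hμν ha hr hρ hρ2 (hj k ht).1 (hj k ht).2 hkτ

/-- **no jump of both walks: the two start gates are at the same place** -/
theorem wl_iff {n n' : ℕ} {s : Fin n → Fin 3} {s' : Fin n' → Fin 3} {D D' : ℝ → ℕ → Prop} (hD : Sz1 s D) (hD' : Sz1 s' D')
    {S R θ τ β ν μ μ' a r ρ : ℝ}
    (hT : TrS θ τ μ' S s s' D D') (hT' : TrS θ τ μ' S s' s D' D) (hS0 : 0 < S) (hn : 1 ≤ n) (hn' : 1 ≤ n') (hR : 0 < R)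
    (hC : ClS S τ β ν s s') (hS : StbD D R θ S s s') (hS' : StbD D' R θ S s' s)
    (hθ : 0 < θ) (hθR : θ ≤ R / 8) (hν : ν ≤ R / 32) (hb : θ + 1 / n ≤ β) (hb' : θ + 1 / n' ≤ β) (hμ' : μ' ≤ μ) (hμR : μ ≤ R / 8)
    (hμθ : ν + 2 * θ ≤ μ) (hμν : 2 * ν ≤ μ) (ha : R / 4 ≤ a) (hr : r ≤ 2 * R) (hρ : 64 * R ≤ ρ) (hρ2 : ρ ≤ 128 * R)
    (hj : NJ D a r ρ μ S s) (hj' : NJ D' a r ρ μ S s')
    (hτ : ∀ k : ℕ, (∀ i : ℕ, i ≤ k → ‖pos s i‖ ≤ 9 / 4 * R * S) → k ≤ n → (k : ℝ) / n + 2 * θ ≤ τ)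
    (hτ' : ∀ k : ℕ, (∀ i : ℕ, i ≤ k → ‖pos s' i‖ ≤ 9 / 4 * R * S) → k ≤ n' → (k : ℝ) / n' + 2 * θ ≤ τ) :
    (∀ k : ℕ, TP D (a * S) (r * S) (ρ * S) s k → ∃ k' : ℕ, TP D' (a * S) (r * S) (ρ * S) s' k' ∧
      |(k : ℝ) / n - (k' : ℝ) / n'| ≤ θ ∧ ‖pos s k - pos s' k'‖ ≤ ν * S) ∧
    ∀ k' : ℕ, TP D' (a * S) (r * S) (ρ * S) s' k' → ∃ k : ℕ, TP D (a * S) (r * S) (ρ * S) s k ∧
      |(k : ℝ) / n - (k' : ℝ) / n'| ≤ θ ∧ ‖pos s k - pos s' k'‖ ≤ ν * S := by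
  refine ⟨fun k ht => wl_nj hD hD' hT hT' hS0 hn hn' hR hC hS hS' hθ hθR hν hb hμ' hμR hμθ hμν ha hr hρ hρ2 hj ht
    (hτ k (tp_conf hS0.le hR.le hr ht) ht.2.1.le), fun k' ht => ?_⟩
  obtain ⟨k, h1, h2, h3⟩ := wl_nj hD' hD hT' hT hS0 hn' hn hR hC.symm hS' hS hθ hθR hν hb' hμ' hμR hμθ hμν ha hr hρ hρ2 hj' ht
    (hτ' k' (tp_conf hS0.le hR.le hr ht) ht.2.1.le)
  exact ⟨k, h1, by rwa [abs_sub_comm], by rwa [norm_sub_rev]⟩

/-! ### levels over a base, double gates -/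

/-- the level over the base `b` -/
def Dv {n : ℕ} (s : Fin n → Fin 3) (b : ℝ) : ℝ → ℕ → Prop := fun a k => a + b ≤ (pos s k).re

lemma sz1_Dv {n : ℕ} {s : Fin n → Fin 3} {b : ℝ} (hb : 0 ≤ b) : Sz1 s (Dv s b) where
  anti {a a' k} h h' := by
    have h1 : a + b ≤ (pos s k).re := h
    show a' + b ≤ (pos s k).re
    linarith
  dm {a k} h := by
    refine ⟨k, 0, le_rfl, Nat.zero_le _, ?_⟩
    rw [NTSF.pos_zero, sub_zero]
    have h1 : a + b ≤ (pos s k).re := h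
    have h2 := (le_abs_self (pos s k).re).trans (Complex.abs_re_le_norm (pos s k))
    linarith

lemma trS_Dv {n n' : ℕ} {s : Fin n → Fin 3} {s' : Fin n' → Fin 3} {θ τ μ e S b b' : ℝ} (hb : b' ≤ b + e * S) (he : e + θ ≤ μ)
    (hS0 : 0 ≤ S) : TrS θ τ μ S s s' (Dv s b) (Dv s' b') := by
  intro c c' a _ _ _ _ _ hp hc
  have h1 : a * S + b ≤ (pos s c).re := hc
  show (a - μ) * S + b' ≤ (pos s' c').re
  have h2 : |(pos s c).re - (pos s' c').re| ≤ θ * S := by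
    rw [← Complex.sub_re]
    exact (Complex.abs_re_le_norm _).trans hp
  have h3 := (abs_le.1 h2).2
  have h4 : (e + θ) * S ≤ μ * S := mul_le_mul_of_nonneg_right he hS0
  have e1 : (a - μ) * S = a * S - μ * S := by ring
  have e2 : (e + θ) * S = e * S + θ * S := by ring
  rw [e1]
  linarith

/-- stability for a level over a base from the stability for the level -/
lemma StbD.dv {n n' : ℕ} {s : Fin n → Fin 3} {s' : Fin n' → Fin 3} {R θ S b : ℝ} (hb : 0 ≤ b) (h : StbS LG R θ S s s') :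
    StbD (Dv s b) R θ S s s' := by
  intro ρ c h1 h2 h3 h4 h5
  refine h ρ c h1 h2 h3 h4 ?_
  have h6 : R / 8 * S + b ≤ (pos s c).re := h5
  show R / 8 * S ≤ (pos s c).re
  linarith

/-- stability for a level over a base from the stability for the diameter -/
lemma StbD.dv' {n n' : ℕ} {s : Fin n → Fin 3} {s' : Fin n' → Fin 3} {R θ S b : ℝ} (hb : 0 ≤ b) (h : StbS DG R θ S s s') :
    StbD (Dv s b) R θ S s s' := fun ρ c h1 h2 h3 h4 h5 => h ρ c h1 h2 h3 h4 ((sz1_Dv hb).dm h5)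

/-- the block condition: a cut below `x` of level at least `u` over the base `b` -/
def Bk {n : ℕ} (s : Fin n → Fin 3) (b u : ℝ) (x : ℕ) : Prop := ∃ y : ℕ, SCut s 0 y x ∧ u + b ≤ (pos s y).re

/-- **the block condition for two close walks**: `x` and `x'` are close gates at the threshold `m` over the bases `b`, `b'` -/
theorem wl_bk {n n' : ℕ} {s : Fin n → Fin 3} {s' : Fin n' → Fin 3} {S R θ e b b' m μ u r ρ : ℝ} {x x' : ℕ}
    (hS0 : 0 < S) (hR : 0 < R) (hS : StbD (Dv s b) R θ S s s') (hθ : 0 < θ) (he0 : 0 ≤ e)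
    (hbb : |b - b'| ≤ e * S) (heμ : e + θ ≤ μ) (hu : R / 8 ≤ u) (hr : r ≤ 2 * R) (hρ : 64 * R ≤ ρ) (hθR : θ ≤ R / 8)
    (hx : TP (Dv s b) ((m - μ) * S) (r * S) (ρ * S) s x) (hx' : TP (Dv s' b') (m * S) (r * S) (ρ * S) s' x')
    (h : Bk s b ((u + μ) * S) x) : Bk s' b' (u * S) x' := by
  obtain ⟨y, hy, hyu⟩ := h
  have hbb' := abs_le.1 hbb
  have hyx : (pos s y).re < (m - μ) * S + b := not_le.1 (hx.1.2.2.2.2 y hy)
  have hxm : m * S + b' ≤ (pos s' x').re := hx'.1.2.2.2.1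
  have hconf := tp_conf hS0.le hR.le hr hx
  have hconf' := tp_conf hS0.le hR.le hr hx'
  have hRS : 0 < R * S := mul_pos hR hS0
  have hμS : e * S + θ * S ≤ μ * S := by
    rw [← add_mul]
    exact mul_le_mul_of_nonneg_right heμ hS0.le
  have hθS : 0 < θ * S := mul_pos hθ hS0
  have heS : 0 ≤ e * S := mul_nonneg he0 hS0.le
  have huS : R / 8 * S ≤ u * S := mul_le_mul_of_nonneg_right hu hS0.le
  have hρS : 64 * R * S ≤ ρ * S := mul_le_mul_of_nonneg_right hρ hS0.le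
  have hθRS : θ * S ≤ R / 8 * S := mul_le_mul_of_nonneg_right hθR hS0.le
  rw [add_mul] at hyu
  rw [sub_mul] at hyx
  obtain ⟨y', h1, -, h3⟩ := hS (57 * R) y (by linarith) (by linarith) (((tp_sc hx).pre hy hconf).mono (by linarith))
    (fun i hi => (hconf i (hi.trans hy.2.1.le)).trans (by linarith)) (by
      show R / 8 * S + b ≤ (pos s y).re
      linarith)
  have h4 : |(pos s y).re - (pos s' y').re| ≤ θ * S := by
    rw [← Complex.sub_re]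
    exact (Complex.abs_re_le_norm _).trans h3
  have h4' := abs_le.1 h4
  have hlt : y' < x' := by
    by_contra hc
    have h5 := h1.2.1 x' (not_lt.1 hc)
    linarith
  refine ⟨y', h1.scut hlt hx'.2.1.le hconf' ?_, ?_⟩
  · have e1 : (57 * R - θ) * S = 57 * R * S - θ * S := by ring
    rw [e1]
    linarith
  · linarith

/-! ### double gates -/

/-- **double gate** (unit `S`): `c` is a start gate for the size `D`, `x` is the first cut of level at least `m` over `c`, and below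
`x` there is a cut of level at least `u` over `c` -/
structure G2 (D : ℝ → ℕ → Prop) (a r ρ m u r2 ρ2 S : ℝ) {n : ℕ} (s : Fin n → Fin 3) (c x : ℕ) : Prop where
  gc : TP D (a * S) (r * S) (ρ * S) s c
  gx : TP (Dv s (pos s c).re) (m * S) (r2 * S) (ρ2 * S) s x
  gb : Bk s (pos s c).re (u * S) x

/-- no jump of the double gates -/
structure NJ2 (D : ℝ → ℕ → Prop) (a r ρ m u r2 ρ2 μ μ2 S : ℝ) {n : ℕ} (s : Fin n → Fin 3) : Prop where
  jc : NJ D a r ρ μ S s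
  jx : ∀ c : ℕ, TP D (a * S) (r * S) (ρ * S) s c → NJ (Dv s (pos s c).re) m r2 ρ2 μ2 S s
  jb : ∀ c x : ℕ, TP D (a * S) (r * S) (ρ * S) s c → TP (Dv s (pos s c).re) (m * S) (r2 * S) (ρ2 * S) s x →
    Bk s (pos s c).re (u * S) x → Bk s (pos s c).re ((u + μ2) * S) x

lemma tpw_mono {D : ℝ → ℕ → Prop} {n : ℕ} {s : Fin n → Fin 3} {a r ρ r' ρ' : ℝ} {k : ℕ} (h : TP D a r ρ s k) (hr : r ≤ r')
    (hρ : ρ' ≤ ρ) : TP D a r' ρ' s k :=
  ⟨⟨h.1.1, h.1.2.1, fun i j hi hj => (h.1.2.2.1 i j hi hj).trans hr, h.1.2.2.2.1, h.1.2.2.2.2⟩,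
    h.2.1, h.2.2.1, fun j h1 h2 h3 => h.2.2.2 j h1 h2 (h3.trans hρ)⟩

/-- **double gates of two close walks** -/
theorem wl2 {n n' : ℕ} {s : Fin n → Fin 3} {s' : Fin n' → Fin 3} {D D' : ℝ → ℕ → Prop} (hD : Sz1 s D) (hD' : Sz1 s' D')
    {S R R2 θ τ β ν μ μ2 μ' a r ρ m u r2 ρ2 : ℝ} {c x : ℕ}
    (hT : TrS θ τ μ' S s s' D D') (hT' : TrS θ τ μ' S s' s D' D) (hS0 : 0 < S) (hn : 1 ≤ n) (hn' : 1 ≤ n') (hR : 0 < R) (hR2 : 0 < R2)
    (hC : ClS S τ β ν s s') (hS : StbD D R θ S s s') (hS' : StbD D' R θ S s' s) (hL : StbS LG R2 θ S s s')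
    (hL' : StbS LG R2 θ S s' s)
    (hθ : 0 < θ) (hθR : θ ≤ R / 8) (hν : ν ≤ R / 32) (hθR2 : θ ≤ R2 / 8) (hν2 : ν ≤ R2 / 32) (hb : θ + 1 / n ≤ β) (hμ' : μ' ≤ μ) (hμR : μ ≤ R / 8)
    (hμθ : ν + 2 * θ ≤ μ) (hμν : 2 * ν ≤ μ) (hμ2R : μ2 ≤ R2 / 8) (hμ2θ : ν + 2 * θ ≤ μ2) (hμ2ν : 2 * ν ≤ μ2)
    (ha : R / 4 ≤ a) (hr : r ≤ 2 * R) (hρ : 64 * R ≤ ρ) (hρ2 : ρ ≤ 128 * R)
    (hm : R2 / 4 ≤ m) (hu : R2 / 8 ≤ u) (hr' : r2 ≤ 2 * R2) (hρ' : 64 * R2 ≤ ρ2) (hρ2' : ρ2 ≤ 128 * R2)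
    (hτ : ∀ k : ℕ, (∀ i : ℕ, i ≤ k → ‖pos s i‖ ≤ 9 / 4 * R * S) → k ≤ n → (k : ℝ) / n + 2 * θ ≤ τ)
    (hτ2 : ∀ k : ℕ, (∀ i : ℕ, i ≤ k → ‖pos s i‖ ≤ 9 / 4 * R2 * S) → k ≤ n → (k : ℝ) / n + 2 * θ ≤ τ)
    (hj : NJ2 D a r ρ m u r2 ρ2 μ μ2 S s) (h : G2 D a r ρ m u r2 ρ2 S s c x) :
    ∃ c' x' : ℕ, G2 D' a r ρ m u r2 ρ2 S s' c' x' ∧ |(c : ℝ) / n - (c' : ℝ) / n'| ≤ θ ∧ ‖pos s c - pos s' c'‖ ≤ ν * S ∧
      |(x : ℝ) / n - (x' : ℝ) / n'| ≤ θ ∧ ‖pos s x - pos s' x'‖ ≤ ν * S := by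
  obtain ⟨c', h1, h2, h3⟩ := wl_nj hD hD' hT hT' hS0 hn hn' hR hC hS hS' hθ hθR hν hb hμ' hμR hμθ hμν ha hr hρ hρ2 hj.jc h.gc
    (hτ c (tp_conf hS0.le hR.le hr h.gc) h.gc.2.1.le)
  have hν0 : 0 ≤ ν := by
    by_contra hc
    have := mul_neg_of_neg_of_pos (not_le.1 hc) hS0
    linarith [norm_nonneg (pos s c - pos s' c')]
  have hlev : |(pos s c).re - (pos s' c').re| ≤ ν * S := by
    rw [← Complex.sub_re]
    exact (Complex.abs_re_le_norm _).trans h3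
  have hlev' := abs_le.1 hlev
  have hb0 : 0 ≤ (pos s c).re := by
    have := h.gc.1.2.1 0 (Nat.zero_le _)
    rwa [NTSF.pos_zero, Complex.zero_re] at this
  have hb0' : 0 ≤ (pos s' c').re := by
    have := h1.1.2.1 0 (Nat.zero_le _)
    rwa [NTSF.pos_zero, Complex.zero_re] at this
  have hj2 := hj.jx c h.gc
  obtain ⟨x', g1, g2, g3⟩ := wl_nj (μ := μ2) (μ' := ν + θ) (sz1_Dv hb0) (sz1_Dv hb0')
    (trS_Dv (e := ν) (by linarith) le_rfl hS0.le) (trS_Dv (e := ν) (by linarith) le_rfl hS0.le) hS0 hn hn' hR2 hC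
    (StbD.dv hb0 hL) (StbD.dv hb0' hL') hθ hθR2 hν2 hb (by linarith) hμ2R hμ2θ hμ2ν hm hr' hρ' hρ2' hj2 h.gx
    (hτ2 x (tp_conf hS0.le hR2.le hr' h.gx) h.gx.2.1.le)
  have hx := tpw_mono (hj2 x h.gx).1 (r' := r2 * S) (ρ' := ρ2 * S)
    (mul_le_mul_of_nonneg_right (by linarith) hS0.le) (mul_le_mul_of_nonneg_right (by linarith) hS0.le)
  exact ⟨c', x', ⟨h1, g1, wl_bk hS0 hR2 (StbD.dv hb0 hL) hθ hν0 hlev (by linarith) hu hr' hρ' hθR2 hx g1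
    (hj.jb c x h.gc h.gx h.gb)⟩, h2, h3, g2, g3⟩

/-- there is at most one double gate -/
theorem g2_unique {D : ℝ → ℕ → Prop} {a r ρ m u r2 ρ2 S : ℝ} {n : ℕ} {s : Fin n → Fin 3} {c x c' x' : ℕ} (hS0 : 0 ≤ S)
    (hr : r ≤ ρ) (hr2 : r2 ≤ ρ2) (h : G2 D a r ρ m u r2 ρ2 S s c x) (h' : G2 D a r ρ m u r2 ρ2 S s c' x') : c = c' ∧ x = x' := by
  have e := tp_unique (mul_le_mul_of_nonneg_right hr hS0) h.gc h'.gc
  subst e
  exact ⟨rfl, tp_unique (mul_le_mul_of_nonneg_right hr2 hS0) h.gx h'.gx⟩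

end Pool.Agent.SCF.M
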