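import Pool.Agent.ROT.FBd
import Pool.Agent.ROT.PubP

/-!
# ROT, block F1, the end (helper5): from the rows of FSt to `RotP`

* `Av` : row (av), the mean over the roots and the directions;
* `small_dm` : the limits of the polygons have positive diameter;
* **`rotP_rows`** : `A1 → A2 → A3 → A4 → A5 → A6 → PRev → LDp → Av → RotP`.
-/

set_option autoImplicit false

open MeasureTheory Filter Topology Set

open scoped Classical

namespace Pool.Agent.ROT.F

open Pool.Agent.NTS.Res Pool.Agent.PMA Pool.Agent.PMA.Res Pool.Agent.PMA.Fp Pool.Agent.PMA.LimS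

/-- **row (av)**: the mean over the roots and the directions -/
structure Av : Prop where
  bdd : ∀ F : C(unitInterval, ℂ) → ℝ, (∀ γ, |F γ| ≤ 1) → ∀ γ, |Fbar F γ| ≤ 1
  lip : ∀ F : C(unitInterval, ℂ) → ℝ, (∀ γ, |F γ| ≤ 1) → LipschitzWith 1 F → LipschitzWith 4 (Fbar F)
  int : ∀ F : C(unitInterval, ℂ) → ℝ, (∀ γ, |F γ| ≤ 1) → LipschitzWith 1 F → ∀ π : Measure C(unitInterval, ℂ),
    IsProbabilityMeasure π → (∀ u : ℝ, 0 ≤ u → u ≤ 1 → π.map (PMA.rot u) = π) → π.map rv0 = π →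
      ∫ γ, Fbar F γ ∂π = ∫ γ, F γ ∂π

lemma smul_lip {z : ℂ} (hz : ‖z‖ = 1) : LipschitzWith 1 fun γ : C(unitInterval, ℂ) => z • γ := by
  refine LipschitzWith.of_dist_le_mul fun γ γ' => ?_
  rw [NNReal.coe_one, one_mul]
  refine (ContinuousMap.dist_le dist_nonneg).2 fun p => ?_
  rw [ContinuousMap.smul_apply, ContinuousMap.smul_apply, smul_eq_mul, smul_eq_mul, dist_eq_norm, ← mul_sub, norm_mul, hz,
    one_mul, ← dist_eq_norm]
  exact ContinuousMap.dist_apply_le_dist p

lemma rot_smul (z : ℂ) (s : ℝ) (γ : C(unitInterval, ℂ)) : PMA.rot s (z • γ) = z • PMA.rot s γ := by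
  ext t
  rw [ContinuousMap.smul_apply, rot_apply, rot_apply]
  simp only [ContinuousMap.smul_apply, smul_eq_mul]
  ring

lemma rv_smul (z : ℂ) (γ : C(unitInterval, ℂ)) : rv (z • γ) = z • rv γ := by
  ext t
  rfl

lemma Fbar_smul (z : ℂ) (F : C(unitInterval, ℂ) → ℝ) (γ : C(unitInterval, ℂ)) :
    Fbar F (z • γ) = Fbar (fun γ => F (z • γ)) γ := by
  unfold Fbar
  simp only [rot_smul, rv_smul]

/-- the limits of the polygons have positive diameter -/
lemma small_dm (hD : LDp) {φ : ℕ → ℕ} {π : ProbabilityMeasure C(unitInterval, ℂ)} (hφ : Tendsto φ atTop atTop)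
    (ho : ∀ k, Odd (φ k)) (h : PolTo φ (π : Measure C(unitInterval, ℂ))) :
    ∀ᵐ γ ∂(π : Measure C(unitInterval, ℂ)), 0 < dm γ := by
  rw [ae_iff]
  refine le_antisymm (ENNReal.le_of_forall_pos_le_add fun ε hε _ => ?_) zero_le
  rw [zero_add]
  obtain ⟨δ, n0, hδ, hn⟩ := hD ε (1 / 4) (by exact_mod_cast hε) (by norm_num)
  obtain ⟨n1, hv⟩ := pl_val
  have hw := (polTo_iff' hφ ho).1 h
  have hop : IsOpen {γ : C(unitInterval, ℂ) | dm γ < δ} := isOpen_lt dm_cont continuous_const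
  have h2 := ProbabilityMeasure.le_liminf_measure_open_of_tendsto hw hop
  have h3 : (π : Measure C(unitInterval, ℂ)) {γ | ¬ 0 < dm γ} ≤ (π : Measure C(unitInterval, ℂ)) {γ | dm γ < δ} :=
    measure_mono fun γ hγ => lt_of_le_of_lt (not_lt.1 hγ) hδ
  refine h3.trans (h2.trans ?_)
  refine liminf_le_of_frequently_le' (Eventually.frequently ?_)
  filter_upwards [hφ.eventually_ge_atTop (max n0 n1)] with k hk
  rw [hv _ ((le_max_right _ _).trans hk), od_of (ho k)]
  refine (measure_mono ?_).trans ((hn _ ((le_max_left _ _).trans hk) (ho k)).trans (le_of_eq ENNReal.ofReal_coe_nnreal))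
  intro γ hγ
  refine ⟨0, ⟨1 / 2, by norm_num, by norm_num⟩, ?_, ?_, (dist_le_dm γ _ _).trans_lt hγ⟩
  · show (0 : ℝ) + 1 / 4 ≤ 1 / 2
    norm_num
  · show (1 / 2 : ℝ) + 1 / 4 ≤ 0 + 1
    norm_num

lemma int_of {π : ProbabilityMeasure C(unitInterval, ℂ)} {F : C(unitInterval, ℂ) → ℝ} (hc : Continuous F)
    (hb : ∀ γ, |F γ| ≤ 1) : Integrable F (π : Measure C(unitInterval, ℂ)) :=
  Integrable.of_bound hc.measurable.aestronglyMeasurable 1 (Eventually.of_forall fun γ => by
    rw [Real.norm_eq_abs]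
    exact hb γ)

lemma abs_chi_mul {r d x : ℝ} (hx : |x| ≤ 1) : |chi r d * x| ≤ 1 := by
  rw [abs_mul, abs_of_nonneg (chi_nonneg _ _)]
  exact mul_le_one₀ (chi_le_one _ _) (abs_nonneg _) hx

/-- the symmetric part -/
lemma int_sym {π : ProbabilityMeasure C(unitInterval, ℂ)}
    (hn : (π : Measure C(unitInterval, ℂ)).map (fun γ => -γ) = (π : Measure C(unitInterval, ℂ))) {r : ℝ}
    {F : C(unitInterval, ℂ) → ℝ} (hc : Continuous F) (hb : ∀ γ, |F γ| ≤ 1) :
    ∫ γ, chi r (dm γ) * ((F γ + F (-γ)) / 2) ∂(π : Measure C(unitInterval, ℂ)) =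
      ∫ γ, chi r (dm γ) * F γ ∂(π : Measure C(unitInterval, ℂ)) := by
  have hcc : Continuous fun γ : C(unitInterval, ℂ) => chi r (dm γ) := chi_cont.comp dm_cont
  have h1 : ∫ γ, chi r (dm γ) * F (-γ) ∂(π : Measure C(unitInterval, ℂ)) =
      ∫ γ, chi r (dm γ) * F γ ∂(π : Measure C(unitInterval, ℂ)) := by
    have h2 := integral_map (μ := (π : Measure C(unitInterval, ℂ))) (φ := fun γ : C(unitInterval, ℂ) => -γ)
      continuous_neg.measurable.aemeasurable (f := fun γ => chi r (dm γ) * F γ)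
      (hcc.mul hc).measurable.aestronglyMeasurable
    rw [hn] at h2
    rw [h2]
    simp only [dm_neg]
  have e : ∀ γ, chi r (dm γ) * ((F γ + F (-γ)) / 2) = (chi r (dm γ) * F γ + chi r (dm γ) * F (-γ)) / 2 := fun γ => by ring
  simp only [e]
  have i1 : Integrable (fun γ => chi r (dm γ) * F γ) (π : Measure C(unitInterval, ℂ)) :=
    int_of (hcc.mul hc) fun γ => abs_chi_mul (hb γ)
  have i2 : Integrable (fun γ => chi r (dm γ) * F (-γ)) (π : Measure C(unitInterval, ℂ)) :=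
    int_of (hcc.mul (hc.comp continuous_neg)) fun γ => abs_chi_mul (hb _)
  rw [integral_div, integral_add i1 i2, h1]
  ring

/-- **the end of block F1** -/
theorem rotP_rows (h1 : A1) (h2 : A2) (h3 : A3) (h4 : A4) (h5 : A5) (h6 : A6) (hr : PRev) (hD : LDp) (hA : Av) : RotP := by
  intro φ π hφ ho h z hz
  have hm := pmean_to h
  have hneg := pi_neg (π := (π : Measure C(unitInterval, ℂ))) inferInstance hφ ho hm
  have hrot := pi_rot (π := (π : Measure C(unitInterval, ℂ))) inferInstance hφ ho hm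
  have hrev := hr φ π hφ ho h
  have hdm := small_dm hD hφ ho h
  have hzc : Continuous fun γ : C(unitInterval, ℂ) => z • γ := (smul_lip hz).continuous
  have hpm : IsProbabilityMeasure ((π : Measure C(unitInterval, ℂ)).map fun γ => z • γ) :=
    Measure.isProbabilityMeasure_map hzc.measurable.aemeasurable
  refine eq_lip hpm inferInstance fun F hF hL => ?_
  rw [integral_map hzc.measurable.aemeasurable hL.continuous.measurable.aestronglyMeasurable]
  have hFz : ∀ γ, |F (z • γ)| ≤ 1 := fun γ => hF _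
  have hLz : LipschitzWith 1 fun γ : C(unitInterval, ℂ) => F (z • γ) := by
    have := hL.comp (smul_lip hz)
    rwa [one_mul] at this
  have hb1 := hA.bdd F hF
  have hl1 := hA.lip F hF hL
  have hb2 : ∀ γ, |Fbar F (z • γ)| ≤ 1 := fun γ => hb1 _
  have hl2 : LipschitzWith 4 fun γ : C(unitInterval, ℂ) => Fbar F (z • γ) := by
    have := hl1.comp (smul_lip hz)
    rwa [mul_one] at this
  -- every cutoff
  have key : ∀ r : ℝ, 0 < r → ∫ γ, chi r (dm γ) * Fbar F (z • γ) ∂(π : Measure C(unitInterval, ℂ)) =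
      ∫ γ, chi r (dm γ) * Fbar F γ ∂(π : Measure C(unitInterval, ℂ)) := by
    intro r hr0
    obtain ⟨M0, ψ, P, hψ, hP⟩ := h1 r φ hr0 hφ ho
    have hprob := hP.prob
    have hpol : PolTo (fun k => φ (ψ k)) (π : Measure C(unitInterval, ℂ)) := fun f => (h f).comp hψ.tendsto_atTop
    rw [← int_sym hneg hl1.continuous hb1, ← int_sym hneg hl2.continuous hb2]
    have h7 := h5 P hprob (h2 r M0 _ P hP) (h3 r M0 _ P hP) (h4 r M0 _ P hP)
    obtain ⟨I1, hI1⟩ : ∃ I, I = ∫ γ, chi r (dm γ) * ((Fbar F γ + Fbar F (-γ)) / 2) ∂(π : Measure C(unitInterval, ℂ)) := ⟨_, rfl⟩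
    obtain ⟨I2, hI2⟩ : ∃ I, I = ∫ γ, chi r (dm γ) * ((Fbar F (z • γ) + Fbar F (z • -γ)) / 2) ∂(π : Measure C(unitInterval, ℂ)) :=
      ⟨_, rfl⟩
    rw [← hI1, ← hI2]
    by_contra hne
    obtain ⟨ε, hε⟩ : ∃ ε, ε = |I2 - I1| / 3 := ⟨_, rfl⟩
    have hd : 0 < |I2 - I1| := abs_pos.2 (sub_ne_zero.2 hne)
    have hε0 : 0 < ε := by
      rw [hε]
      positivity
    obtain ⟨G, A, hG1, hG2, hG3, hA0, h8⟩ := h6 r M0 _ P hP π hpol ε hε0
    have e1 := h8 (Fbar F) hb1 hl1
    have e2 := h8 (fun γ => Fbar F (z • γ)) hb2 hl2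
    have e3 := h7 G hG1 hG2 hG3 F hF hL z hz
    rw [← hI1] at e1
    rw [← hI2, e3] at e2
    have e4 : A * |I2 - I1| ≤ 2 * (ε * A) := by
      rw [← abs_of_pos hA0, ← abs_mul, abs_of_pos hA0]
      rw [abs_le] at e1 e2 ⊢
      constructor <;> linarith [e1.1, e1.2, e2.1, e2.2]
    have e5 : |I2 - I1| ≤ 2 * ε := le_of_mul_le_mul_left (by linarith) hA0
    rw [hε] at e5
    linarith
  -- the cutoff tends to 1
  have lim : ∀ H : C(unitInterval, ℂ) → ℝ, Continuous H → (∀ γ, |H γ| ≤ 1) →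
      Tendsto (fun j : ℕ => ∫ γ, chi (1 / ((j : ℝ) + 1)) (dm γ) * H γ ∂(π : Measure C(unitInterval, ℂ))) atTop
        (𝓝 (∫ γ, H γ ∂(π : Measure C(unitInterval, ℂ)))) := by
    intro H hH hHb
    refine tendsto_integral_of_dominated_convergence (fun _ => (1 : ℝ))
      (fun j => ((chi_cont.comp dm_cont).mul hH).measurable.aestronglyMeasurable) (integrable_const _)
      (fun j => Eventually.of_forall fun γ => by
        rw [Real.norm_eq_abs]
        exact abs_chi_mul (hHb γ)) ?_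
    filter_upwards [hdm] with γ hγ
    refine tendsto_const_nhds.congr' ?_
    obtain ⟨j0, hj0⟩ := exists_nat_one_div_lt (show 0 < dm γ / 2 by linarith)
    filter_upwards [eventually_ge_atTop j0] with j hj
    have hj' : (j0 : ℝ) ≤ j := by exact_mod_cast hj
    have h9 : 1 / ((j : ℝ) + 1) ≤ 1 / ((j0 : ℝ) + 1) := one_div_le_one_div_of_le (by positivity) (by linarith)
    rw [chi_one (by positivity) (by linarith), one_mul]
  have e1 := lim _ hl1.continuous hb1
  have e2 := lim _ hl2.continuous hb2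
  have e3 := tendsto_nhds_unique (e2.congr fun j => key _ (by positivity)) e1
  simp only [Fbar_smul] at e3
  rw [hA.int _ hFz hLz _ inferInstance hrot hrev, hA.int F hF hL _ inferInstance hrot hrev] at e3
  exact e3

end Pool.Agent.ROT.F
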