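import Pool.Agent.ROT.FAvA
import Pool.Agent.ROT.FTrace
/-!
# ROT, block F1, row (av) (helper63): `av : Av`
-/
set_option autoImplicit false
open Set Filter Topology MeasureTheory
open scoped Classical
namespace Pool.Agent.ROT.F
open Pool.Agent.PMA

lemma rv_lip (γ γ' : C(unitInterval, ℂ)) : dist (rv γ) (rv γ') ≤ dist γ γ' := by
  refine (ContinuousMap.dist_le dist_nonneg).2 fun t => ?_
  rw [rv_apply, rv_apply]
  exact ContinuousMap.dist_apply_le_dist _

lemma rv_cont : Continuous rv := by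
  rw [Metric.continuous_iff]
  intro γ ε hε
  exact ⟨ε, hε, fun γ' h => lt_of_le_of_lt (rv_lip γ' γ) h⟩

lemma rot_rv0 (s : ℝ) (γ : C(unitInterval, ℂ)) : PMA.rot s (rv γ) = PMA.rot s (rv0 γ) := by
  have e : rv γ = rv0 γ + ContinuousMap.const _ (γ 1) := by
    unfold rv0
    rw [sub_add_cancel]
  rw [e, rot_add_const]

lemma rv0_cont : Continuous rv0 := by
  have h : Continuous fun γ : C(unitInterval, ℂ) => ContinuousMap.const unitInterval (γ 1) :=
    ContinuousMap.continuous_const'.comp (continuous_eval_const 1)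
  exact rv_cont.sub h

/-- the mean over the roots: integration -/
lemma int_rot_mean {F : C(unitInterval, ℂ) → ℝ} (hb : ∀ γ, |F γ| ≤ 1) (hF : Continuous F) {T : C(unitInterval, ℂ) → C(unitInterval, ℂ)}
    (hT : Continuous T) {π : Measure C(unitInterval, ℂ)} [IsProbabilityMeasure π] (hTπ : π.map T = π)
    (hr : ∀ u : ℝ, 0 ≤ u → u ≤ 1 → π.map (PMA.rot u) = π) :
    Integrable (fun γ => ∫ s in (0 : ℝ)..1, F (PMA.rot s (T γ))) π ∧
      ∫ γ, (∫ s in (0 : ℝ)..1, F (PMA.rot s (T γ))) ∂π = ∫ γ, F γ ∂π := by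
  have hc : Continuous fun p : C(unitInterval, ℂ) × ℝ => F (PMA.rot p.2 (T p.1)) :=
    hF.comp (rot_cont2.comp (continuous_snd.prodMk (hT.comp continuous_fst)))
  have hi : Integrable (Function.uncurry fun (γ : C(unitInterval, ℂ)) (s : ℝ) => F (PMA.rot s (T γ)))
      (π.prod (volume.restrict (Ioc (0 : ℝ) 1))) := by
    refine Integrable.of_bound hc.aestronglyMeasurable 1 (Eventually.of_forall fun p => ?_)
    rw [Real.norm_eq_abs]
    exact hb _
  have e0 : ∀ γ, ∫ s in (0 : ℝ)..1, F (PMA.rot s (T γ)) = ∫ s in Ioc (0 : ℝ) 1, F (PMA.rot s (T γ)) := fun γ =>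
    intervalIntegral.integral_of_le zero_le_one
  simp only [e0]
  refine ⟨hi.integral_prod_left, ?_⟩
  rw [integral_integral_swap hi]
  have e1 : ∀ s ∈ Ioc (0 : ℝ) 1, ∫ γ, F (PMA.rot s (T γ)) ∂π = ∫ γ, F γ ∂π := by
    intro s hs
    have hm1 : Measurable T := hT.measurable
    have hm2 : Measurable (PMA.rot s) := (rot_lip s).continuous.measurable
    have a1 : ∫ γ, F (PMA.rot s (T γ)) ∂π = ∫ γ, F (PMA.rot s γ) ∂(π.map T) :=
      (integral_map hm1.aemeasurable (hF.comp (rot_lip s).continuous).aestronglyMeasurable).symm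
    rw [a1, hTπ]
    have a2 : ∫ γ, F (PMA.rot s γ) ∂π = ∫ γ, F γ ∂(π.map (PMA.rot s)) :=
      (integral_map hm2.aemeasurable hF.aestronglyMeasurable).symm
    rw [a2, hr s hs.1.le hs.2]
  rw [setIntegral_congr_fun measurableSet_Ioc e1, setIntegral_const, Real.volume_real_Ioc_of_le zero_le_one, sub_zero, one_smul]

/-- **row (av)** -/
theorem av : Av where
  bdd := by
    intro F hb γ
    have h1 : ∀ s ∈ Set.uIoc (0 : ℝ) 1, ‖(F (PMA.rot s γ) + F (PMA.rot s (rv γ))) / 2‖ ≤ 1 := by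
      intro s _
      rw [Real.norm_eq_abs, abs_div, abs_two, div_le_one two_pos]
      have := abs_add_le (F (PMA.rot s γ)) (F (PMA.rot s (rv γ)))
      linarith [hb (PMA.rot s γ), hb (PMA.rot s (rv γ))]
    have h2 := intervalIntegral.norm_integral_le_of_norm_le_const h1
    rw [sub_zero, abs_one, mul_one, Real.norm_eq_abs] at h2
    exact h2
  lip := by
    intro F hb hF
    refine LipschitzWith.of_dist_le_mul fun γ γ' => ?_
    have hc := hF.continuous
    have i1 : ∀ g : C(unitInterval, ℂ), IntervalIntegrable (fun s : ℝ => (F (PMA.rot s g) + F (PMA.rot s (rv g))) / 2) volume 0 1 :=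
      fun g => (((hc.comp (rot_cont g)).add (hc.comp (rot_cont (rv g)))).div_const 2).intervalIntegrable _ _
    have e : Fbar F γ - Fbar F γ' = ∫ s in (0 : ℝ)..1, ((F (PMA.rot s γ) + F (PMA.rot s (rv γ))) / 2 -
        (F (PMA.rot s γ') + F (PMA.rot s (rv γ'))) / 2) := by
      unfold Fbar
      rw [intervalIntegral.integral_sub (i1 γ) (i1 γ')]
    have hk : ∀ s : ℝ, ∀ g g' : C(unitInterval, ℂ), |F (PMA.rot s g) - F (PMA.rot s g')| ≤ 4 * dist g g' := by
      intro s g g'
      have a1 := hF.dist_le_mul (PMA.rot s g) (PMA.rot s g')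
      have a2 := (rot_lip s).dist_le_mul g g'
      have a3 : ((4 : NNReal) : ℝ) = 4 := rfl
      rw [NNReal.coe_one, one_mul, Real.dist_eq] at a1
      rw [a3] at a2
      exact a1.trans a2
    have h1 : ∀ s ∈ Set.uIoc (0 : ℝ) 1, ‖(F (PMA.rot s γ) + F (PMA.rot s (rv γ))) / 2 -
        (F (PMA.rot s γ') + F (PMA.rot s (rv γ'))) / 2‖ ≤ 4 * dist γ γ' := by
      intro s _
      rw [Real.norm_eq_abs]
      have b1 := abs_le.1 (hk s γ γ')
      have b2 := abs_le.1 ((hk s (rv γ) (rv γ')).trans (mul_le_mul_of_nonneg_left (rv_lip γ γ') (by norm_num)))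
      rw [abs_le]
      constructor <;> linarith [b1.1, b1.2, b2.1, b2.2]
    have h2 := intervalIntegral.norm_integral_le_of_norm_le_const h1
    rw [sub_zero, abs_one, mul_one, Real.norm_eq_abs] at h2
    rw [Real.dist_eq, e]
    exact h2
  int := by
    intro F hb hF π hπ hr hv
    have hc := hF.continuous
    obtain ⟨i1, e1⟩ := int_rot_mean hb hc (T := fun γ => γ) continuous_id (π := π) Measure.map_id' hr
    obtain ⟨i2, e2⟩ := int_rot_mean hb hc (T := rv0) rv0_cont (π := π) hv hr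
    have e3 : ∀ γ : C(unitInterval, ℂ), Fbar F γ =
        ((∫ s in (0 : ℝ)..1, F (PMA.rot s γ)) + ∫ s in (0 : ℝ)..1, F (PMA.rot s (rv0 γ))) / 2 := by
      intro γ
      rw [fbar_split hc]
      simp only [rot_rv0]
    simp only [e3]
    rw [integral_div, integral_add i1 i2, e1, e2]
    ring

end Pool.Agent.ROT.F
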