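import Pool.Agent.ROT.FOp

/-!
# ROT, block F1, row A4 (helper5): the clock of the limits

* `clk_ml` : the mass of the polygons with a wrong clock;
* **`a4`** : for every limit there is one gauge `h` with `h i * (number of the pieces of diameter 2 ^ (- i)) → time`, for almost
  every curve.
-/

set_option autoImplicit false

open MeasureTheory Filter Topology Set

open scoped Classical

namespace Pool.Agent.ROT.F

open Pool.Agent.NTS.Res Pool.Agent.PMA Pool.Agent.PMA.Res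

open Pool.Agent.NPR (tr nb vb nb_pos vb_cont vb_iso)

lemma nb_neg (ρ : ℝ) (γ : C(unitInterval, ℂ)) (u : unitInterval) : nb ρ (-γ) u = nb ρ γ u := by
  unfold nb
  rw [vb_iso (dist_neg' γ)]

lemma badC_neg {ka : ℝ → ℝ} {m : ℕ} {S τ ρ1 ρ0 ε : ℝ} {γ : C(unitInterval, ℂ)} :
    -γ ∈ BadC ka m S τ ρ1 ρ0 ε ↔ γ ∈ BadC ka m S τ ρ1 ρ0 ε := by
  unfold BadC
  simp only [mem_ofPred_eq, nb_neg]

/-- the mass of the polygons with a wrong clock -/
theorem clk_ml (hQ : QB) : ∃ (ka : ℝ → ℝ) (B : ℝ), 0 < B ∧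
    (∀ R : ℝ, 2 ≤ R → R ^ (4 / 3 : ℝ) ≤ B * ka R ∧ ka R ≤ B * R ^ (4 / 3 : ℝ)) ∧
    ∀ a : ℝ, 0 < a → ∃ C : ℝ, 0 < C ∧ ∀ ε : ℝ, 0 < ε → ∃ ρ0 : ℝ, 0 < ρ0 ∧ ∀ ρ1 : ℝ, 0 < ρ1 → ∃ m0 : ℕ, ∀ m : ℕ, m0 ≤ m →
      ML (Nm m) (fun n γ => if a * m ≤ n ∧ γ ∈ BadC ka m (Nm m) (n / m) ρ1 ρ0 (ε * (n / m)) then 1 else 0) ≤ C * ε := by
  obtain ⟨ka, B, hB, hka, hc⟩ := pol_clk
  obtain ⟨c, C', m1, hc0, hC'0, hN⟩ := nm_bd
  refine ⟨ka, B, hB, hka, fun a ha => ?_⟩
  obtain ⟨C, m2, hC, hev⟩ := ml_ev hQ ha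
  refine ⟨C, hC, fun ε hε => ?_⟩
  obtain ⟨ρ0, hρ0, h1⟩ := hc ε a c C' hε ha hc0 hC'0
  refine ⟨ρ0, hρ0, fun ρ1 hρ1 => ?_⟩
  obtain ⟨m3, h1⟩ := h1 ρ1 hρ1
  refine ⟨max m1 (max m2 m3), fun m hm => ?_⟩
  obtain ⟨-, g2, g3, -, -⟩ := hN m ((le_max_left _ _).trans hm)
  refine hev m (((le_max_left _ _).trans (le_max_right _ _)).trans hm) _ ε hε.le (fun n hn γ => ?_) fun n ho hn => ?_
  · exact if_neg fun h => not_le.2 hn h.1
  · refine le_trans (le_of_eq ?_) (h1 m (((le_max_right _ _).trans (le_max_right _ _)).trans hm) n ho hn (Nm m) g2 g3)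
    unfold pmn
    congr 1
    funext γ
    simp only [badC_neg, hn, true_and]
    unfold sN
    split_ifs <;> norm_num

/-- the event in the limit -/
def BadU (h : ℕ → ℝ) (a b ε ρ1 ρ0 : ℝ) : Set XX := {x | a < x.1 ∧ x.1 < b ∧ ∃ i : ℕ, ρ1 ≤ (1 / 2 : ℝ) ^ i ∧
  (1 / 2 : ℝ) ^ i ≤ ρ0 ∧ ∃ u : unitInterval, 3 * ε < |h i * nb ((1 / 2) ^ i) x.2 u - x.1 * u|}

lemma badU_open (h : ℕ → ℝ) (a b ε ρ1 ρ0 : ℝ) : IsOpen (BadU h a b ε ρ1 ρ0) := by
  have e : BadU h a b ε ρ1 ρ0 = {x : XX | a < x.1} ∩ {x : XX | x.1 < b} ∩ ⋃ i : ℕ, ⋃ _ : ρ1 ≤ (1 / 2 : ℝ) ^ i ∧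
      (1 / 2 : ℝ) ^ i ≤ ρ0, ⋃ u : unitInterval, {x : XX | 3 * ε < |h i * nb ((1 / 2) ^ i) x.2 u - x.1 * u|} := by
    unfold BadU
    ext x
    simp only [mem_ofPred_eq, mem_iUnion, exists_prop, and_assoc, mem_inter_iff]
  rw [e]
  refine ((isOpen_lt continuous_const continuous_fst).inter (isOpen_lt continuous_fst continuous_const)).inter ?_
  refine isOpen_iUnion fun i => isOpen_iUnion fun _ => isOpen_iUnion fun u => ?_
  refine isOpen_lt continuous_const ?_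
  have h1 : Continuous fun x : XX => nb ((1 / 2) ^ i) x.2 u := by
    unfold nb
    exact ((vb_cont (by positivity) u).comp continuous_snd).div_const _
  exact ((continuous_const.mul h1).sub (continuous_fst.mul continuous_const)).abs

/-- **row A4** -/
theorem a4 (hQ : QB) : A4 := by
  intro r M0 φ P hL
  obtain ⟨ka, B, hB, hka, hml⟩ := clk_ml hQ
  obtain ⟨c, C, m0, hc, hC, hN⟩ := nm_bd
  have hU : ((hyperfilter ℕ : Ultrafilter ℕ) : Filter ℕ) ≤ atTop := Nat.hyperfilter_le_atTop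
  have hM := hL.Mp
  -- the gauge
  obtain ⟨lo, hlo⟩ : ∃ lo : ℕ → ℝ, lo = fun i => c / B * ((1 / 2 : ℝ) ^ i) ^ (4 / 3 : ℝ) := ⟨_, rfl⟩
  have hlo0 : ∀ i, 0 < lo i := fun i => by
    rw [hlo]
    positivity
  have hbd : ∀ i : ℕ, ∀ᶠ k in atTop, ka (Nm (φ k) * (1 / 2) ^ i) / φ k ∈
      Icc (lo i) (B * C * ((1 / 2 : ℝ) ^ i) ^ (4 / 3 : ℝ)) := by
    intro i
    have h1 : Tendsto (fun k => (Nm (φ k) : ℝ)) atTop atTop := tendsto_natCast_atTop_atTop.comp hL.nm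
    filter_upwards [hL.top.eventually_ge_atTop (max m0 1), h1.eventually_ge_atTop (2 * 2 ^ i)] with k hk1 hk2
    obtain ⟨-, -, -, g4, g5⟩ := hN (φ k) ((le_max_left _ _).trans hk1)
    have hm0 : (0 : ℝ) < φ k := by exact_mod_cast (le_max_right _ _).trans hk1
    obtain ⟨R, hR⟩ : ∃ R : ℝ, R = Nm (φ k) * (1 / 2) ^ i := ⟨_, rfl⟩
    have hpi : (1 / 2 : ℝ) ^ i * 2 ^ i = 1 := by
      rw [← mul_pow]
      norm_num
    have hR2 : 2 ≤ R := by
      rw [hR]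
      calc (2 : ℝ) = 2 * 2 ^ i * (1 / 2) ^ i := by rw [mul_assoc, mul_comm (2 ^ i : ℝ), hpi, mul_one]
        _ ≤ _ := mul_le_mul_of_nonneg_right hk2 (by positivity)
    obtain ⟨k1, k2⟩ := hka R hR2
    have e : R ^ (4 / 3 : ℝ) = (Nm (φ k) : ℝ) ^ (4 / 3 : ℝ) * ((1 / 2 : ℝ) ^ i) ^ (4 / 3 : ℝ) := by
      rw [hR, Real.mul_rpow (Nat.cast_nonneg _) (by positivity)]
    obtain ⟨p, hp⟩ : ∃ p : ℝ, p = ((1 / 2 : ℝ) ^ i) ^ (4 / 3 : ℝ) := ⟨_, rfl⟩
    have hp0 : 0 < p := by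
      rw [hp]
      positivity
    rw [e, ← hp] at k1 k2
    rw [← hR, hlo]
    simp only
    rw [← hp]
    constructor
    · rw [le_div_iff₀ hm0]
      have h2 : c * φ k * p ≤ B * ka R := (mul_le_mul_of_nonneg_right g4 hp0.le).trans k1
      calc c / B * p * φ k = (c * φ k * p) / B := by ring
        _ ≤ (B * ka R) / B := div_le_div_of_nonneg_right h2 hB.le
        _ = ka R := by field_simp
    · rw [div_le_iff₀ hm0]
      calc ka R ≤ B * ((Nm (φ k) : ℝ) ^ (4 / 3 : ℝ) * p) := k2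
        _ ≤ B * (C * φ k * p) := mul_le_mul_of_nonneg_left (mul_le_mul_of_nonneg_right g5 hp0.le) hB.le
        _ = _ := by ring
  have hex : ∀ i : ℕ, ∃ x : ℝ, lo i ≤ x ∧
      Tendsto (fun k => ka (Nm (φ k) * (1 / 2) ^ i) / φ k) (hyperfilter ℕ : Ultrafilter ℕ) (𝓝 x) := by
    intro i
    obtain ⟨x, hx, hx2⟩ := (isCompact_Icc (a := lo i) (b := B * C * ((1 / 2 : ℝ) ^ i) ^ (4 / 3 : ℝ))).ultrafilter_le_nhds
      ((hyperfilter ℕ).map fun k => ka (Nm (φ k) * (1 / 2) ^ i) / φ k) (le_principal_iff.2 (hU (hbd i)))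
    exact ⟨x, hx.1, hx2⟩
  choose h hh using hex
  refine ⟨h, ?_⟩
  -- one accuracy
  have h1 : ∀ a b : ℝ, 0 < a → 0 < b → ∃ C1 : ℝ, 0 < C1 ∧ ∀ ε : ℝ, 0 < ε → ∃ ρ0 : ℝ, 0 < ρ0 ∧ ∀ ρ1 : ℝ, 0 < ρ1 →
      P (BadU h a b ε ρ1 ρ0) ≤ ENNReal.ofReal (C1 * ε) := by
    intro a b ha hb
    obtain ⟨C2, hC2, hml⟩ := hml a ha
    refine ⟨1 / M0 * (C2 / b), by positivity, fun ε hε => ?_⟩
    obtain ⟨ρ0, hρ0, hml⟩ := hml (ε / b) (by positivity)
    refine ⟨ρ0, hρ0, fun ρ1 hρ1 => ?_⟩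
    obtain ⟨m1, hml⟩ := hml ρ1 hρ1
    -- finitely many scales
    obtain ⟨I, hI⟩ := Filter.eventually_atTop.1 ((tendsto_pow_atTop_nhds_zero_of_lt_one (by norm_num : (0 : ℝ) ≤ 1 / 2)
      (by norm_num)).eventually (gt_mem_nhds hρ1))
    have hclose : ∀ᶠ k in ((hyperfilter ℕ : Ultrafilter ℕ) : Filter ℕ), ∀ i ∈ Finset.range I,
        |ka (Nm (φ k) * (1 / 2) ^ i) / φ k - h i| < ε * lo i / (b + ε) := by
      rw [Filter.eventually_all_finset]
      intro i _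
      have h3 : 0 < ε * lo i / (b + ε) := by
        have := hlo0 i
        positivity
      have h4 := (Metric.tendsto_nhds.1 (hh i).2) _ h3
      simpa only [Real.dist_eq] using h4
    have hbdall : ∀ᶠ k in ((hyperfilter ℕ : Ultrafilter ℕ) : Filter ℕ), ∀ i ∈ Finset.range I,
        lo i ≤ ka (Nm (φ k) * (1 / 2) ^ i) / φ k := by
      rw [Filter.eventually_all_finset]
      intro i _
      exact hU ((hbd i).mono fun k hk => hk.1)
    have hall : ∀ᶠ k in ((hyperfilter ℕ : Ultrafilter ℕ) : Filter ℕ), ML (Nm (φ k)) (fun n γ => chi r (dm γ) *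
        if (((n : ℝ) / (φ k : ℕ), γ) : XX) ∈ BadU h a b ε ρ1 ρ0 then 1 else 0) ≤ C2 * (ε / b) := by
      filter_upwards [hclose, hbdall, hU (hL.top.eventually_ge_atTop (max m1 1))] with k hk1 hk2 hk3
      refine (ML_mono fun n γ => ?_).trans (hml (φ k) ((le_max_left _ _).trans hk3))
      have hm0 : (0 : ℝ) < φ k := by exact_mod_cast (le_max_right _ _).trans hk3
      show chi r (dm γ) * (if (((n : ℝ) / (φ k : ℕ), γ) : XX) ∈ BadU h a b ε ρ1 ρ0 then (1 : ℝ) else 0) ≤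
        if a * (φ k : ℕ) ≤ (n : ℝ) ∧ γ ∈ BadC ka (φ k) (Nm (φ k)) (n / (φ k : ℕ)) ρ1 ρ0 (ε / b * (n / (φ k : ℕ))) then 1 else 0
      by_cases hx : (((n : ℝ) / (φ k : ℕ), γ) : XX) ∈ BadU h a b ε ρ1 ρ0
      · rw [if_pos hx, mul_one]
        refine (chi_le_one _ _).trans (le_of_eq (Eq.symm (if_pos ?_)))
        obtain ⟨x1, x2, i, hi1, hi2, u, hu⟩ := hx
        simp only at x1 x2 hu
        refine ⟨?_, i, hi1, hi2, u, ?_⟩
        · rw [lt_div_iff₀ hm0] at x1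
          exact x1.le
        · have hiI : i < I := by
            by_contra hcon
            have := hI i (not_lt.1 hcon)
            linarith
          obtain ⟨X, hX⟩ : ∃ X, X = nb ((1 / 2) ^ i) γ u := ⟨_, rfl⟩
          have hX0 : 0 < X := by
            rw [hX]
            exact nb_pos (by positivity)
          have g1 := hk1 i (Finset.mem_range.2 hiI)
          have g2 := hk2 i (Finset.mem_range.2 hiI)
          obtain ⟨G, hG⟩ : ∃ G, G = ka (Nm (φ k) * (1 / 2) ^ i) / (φ k : ℕ) := ⟨_, rfl⟩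
          obtain ⟨τ, hτ⟩ : ∃ τ : ℝ, τ = (n : ℝ) / (φ k : ℕ) := ⟨_, rfl⟩
          rw [← hG] at g1 g2
          rw [← hτ, ← hX] at hu
          rw [← hτ] at x2
          rw [← hG, ← hX, ← hτ]
          have hτ0 : 0 ≤ τ := by
            rw [hτ]
            positivity
          by_contra hcon
          rw [not_lt] at hcon
          have hu0 : (0 : ℝ) ≤ u := u.2.1
          have hu1 : (u : ℝ) ≤ 1 := u.2.2
          have e1 : ε / b * τ ≤ ε := by
            rw [div_mul_eq_mul_div, div_le_iff₀ hb]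
            exact mul_le_mul_of_nonneg_left x2.le hε.le
          have e2 : G * X ≤ b + ε := by
            have := (abs_le.1 hcon).2
            nlinarith
          have e3 : lo i * X ≤ b + ε := (mul_le_mul_of_nonneg_right g2 hX0.le).trans e2
          have e4 : |G - h i| * X ≤ ε := by
            have hbε : 0 < b + ε := by positivity
            rw [lt_div_iff₀ hbε] at g1
            have e5 : |G - h i| * (b + ε) * X ≤ ε * lo i * X := mul_le_mul_of_nonneg_right g1.le hX0.le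
            have e6 : ε * lo i * X ≤ ε * (b + ε) := by
              rw [mul_assoc]
              exact mul_le_mul_of_nonneg_left e3 hε.le
            have e7 : (b + ε) * (|G - h i| * X) ≤ (b + ε) * ε := by linarith
            exact le_of_mul_le_mul_left e7 hbε
          have e8 : |h i * X - τ * u| ≤ |G * X - τ * u| + |G - h i| * X := by
            have e : h i * X - τ * u = (G * X - τ * u) - (G - h i) * X := by ring
            rw [e]
            refine (abs_sub _ _).trans ?_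
            rw [abs_mul (G - h i), abs_of_pos hX0]
          linarith
      · rw [if_neg hx, mul_zero]
        split_ifs <;> norm_num
    have hfr := hall.frequently.filter_mono hU
    have h2 := hL.ev_open (badU_open h a b ε ρ1 ρ0) (fun h3 => by
      have h4 : a < at0.1 := h3.1
      unfold at0 at h4
      simp only at h4
      linarith) hfr
    refine h2.trans (le_of_eq ?_)
    congr 1
    ring
  -- the exceptional sets
  have h2 : ∀ a b ε : ℝ, 0 < a → 0 < b → 0 < ε → P {x : XX | a < x.1 ∧ x.1 < b ∧ ∃ᶠ i in atTop, ∃ u : unitInterval,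
      3 * ε < |h i * nb ((1 / 2) ^ i) x.2 u - x.1 * u|} = 0 := by
    intro a b ε ha hb hε
    obtain ⟨C1, hC1, h1⟩ := h1 a b ha hb
    refine le_antisymm ?_ zero_le
    refine ENNReal.le_of_forall_pos_le_add fun δ hδ _ => ?_
    rw [zero_add]
    have hδ' : (0 : ℝ) < δ := by exact_mod_cast hδ
    obtain ⟨ε', hε'⟩ : ∃ ε' : ℝ, ε' = min ε (δ / C1) := ⟨_, rfl⟩
    have hε'0 : 0 < ε' := by
      rw [hε']
      exact lt_min hε (by positivity)
    obtain ⟨ρ0, hρ0, h3⟩ := h1 ε' hε'0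
    obtain ⟨S, hS⟩ : ∃ S : ℕ → Set XX, S = fun m : ℕ => BadU h a b ε' (1 / ((m : ℝ) + 1)) ρ0 := ⟨_, rfl⟩
    have hmono : Monotone S := by
      intro m m' hm
      rw [hS]
      rintro x ⟨x1, x2, i, h4, h5⟩
      refine ⟨x1, x2, i, le_trans ?_ h4, h5⟩
      have : (m : ℝ) ≤ m' := by exact_mod_cast hm
      exact one_div_le_one_div_of_le (by positivity) (by linarith)
    have hsub : {x : XX | a < x.1 ∧ x.1 < b ∧ ∃ᶠ i in atTop, ∃ u : unitInterval,
        3 * ε < |h i * nb ((1 / 2) ^ i) x.2 u - x.1 * u|} ⊆ ⋃ m, S m := by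
      rintro x ⟨x1, x2, hx⟩
      have hlt : ∀ᶠ i in atTop, (1 / 2 : ℝ) ^ i ≤ ρ0 :=
        (tendsto_pow_atTop_nhds_zero_of_lt_one (by norm_num : (0 : ℝ) ≤ 1 / 2) (by norm_num)).eventually (ge_mem_nhds hρ0)
      obtain ⟨i, ⟨u, hu⟩, hi⟩ := (hx.and_eventually hlt).exists
      obtain ⟨m, hm⟩ := exists_nat_one_div_lt (show (0 : ℝ) < (1 / 2) ^ i by positivity)
      rw [mem_iUnion]
      refine ⟨m, ?_⟩
      rw [hS]
      refine ⟨x1, x2, i, hm.le, hi, u, lt_of_le_of_lt ?_ hu⟩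
      have : ε' ≤ ε := by
        rw [hε']
        exact min_le_left _ _
      linarith
    refine (measure_mono hsub).trans ?_
    rw [hmono.measure_iUnion]
    refine iSup_le fun m => ?_
    rw [hS]
    refine (h3 _ (by positivity)).trans ?_
    rw [ENNReal.ofReal_le_iff_le_toReal ENNReal.coe_ne_top, ENNReal.coe_toReal]
    have h5 : ε' ≤ δ / C1 := by
      rw [hε']
      exact min_le_right _ _
    rw [le_div_iff₀ hC1] at h5
    linarith
  have h3 : ∀ᵐ x ∂P, ∀ j m : ℕ, 1 / ((j : ℝ) + 1) < x.1 → x.1 < (j : ℝ) + 1 → ∀ᶠ i in atTop, ∀ u : unitInterval,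
      |h i * nb ((1 / 2) ^ i) x.2 u - x.1 * u| ≤ 3 * (1 / ((m : ℝ) + 1)) := by
    rw [ae_all_iff]
    intro j
    rw [ae_all_iff]
    intro m
    have h4 := h2 (1 / ((j : ℝ) + 1)) ((j : ℝ) + 1) (1 / ((m : ℝ) + 1)) (by positivity) (by positivity) (by positivity)
    rw [measure_eq_zero_iff_ae_notMem] at h4
    filter_upwards [h4] with x hx x1 x2
    have h5 : ¬ ∃ᶠ i in atTop, ∃ u : unitInterval, 3 * (1 / ((m : ℝ) + 1)) < |h i * nb ((1 / 2) ^ i) x.2 u - x.1 * u| :=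
      fun h6 => hx ⟨x1, x2, h6⟩
    rw [not_frequently] at h5
    filter_upwards [h5] with i hi u
    by_contra hcon
    exact hi ⟨u, not_le.1 hcon⟩
  filter_upwards [h3] with x hx hx0 u
  obtain ⟨j1, hj1⟩ := exists_nat_one_div_lt hx0
  obtain ⟨j2, hj2⟩ := exists_nat_gt x.1
  obtain ⟨j, hj⟩ : ∃ j : ℕ, j = max j1 j2 := ⟨_, rfl⟩
  have hj1' : (j1 : ℝ) ≤ j := by
    rw [hj]
    exact_mod_cast le_max_left _ _
  have hj2' : (j2 : ℝ) ≤ j := by
    rw [hj]
    exact_mod_cast le_max_right _ _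
  have g1 : 1 / ((j : ℝ) + 1) < x.1 := lt_of_le_of_lt (one_div_le_one_div_of_le (by positivity) (by linarith)) hj1
  have g2 : x.1 < (j : ℝ) + 1 := by linarith
  rw [Metric.tendsto_nhds]
  intro ε hε
  obtain ⟨m, hm⟩ := exists_nat_one_div_lt (show 0 < ε / 3 by linarith)
  filter_upwards [hx j m g1 g2] with i hi
  rw [Real.dist_eq]
  have e : h i * vb ((1 / 2) ^ i) x.2 u / (1 / 2) ^ i = h i * nb ((1 / 2) ^ i) x.2 u := by
    unfold nb
    rw [mul_div_assoc]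
  rw [e]
  have := hi u
  linarith

end Pool.Agent.ROT.F
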