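import Mathlib

/-!
# ROT, block F1, row (e) (helper68): glueing of two measures over a common image
-/

set_option autoImplicit false

open MeasureTheory ProbabilityTheory Set
open scoped ENNReal

namespace Pool.Agent.ROT.F

variable {X X' Y : Type*} [MeasurableSpace X] [StandardBorelSpace X] [MeasurableSpace X'] [StandardBorelSpace X']
  [MeasurableSpace Y]

section

variable {lam : Measure Y} [SFinite lam] {κ : Kernel Y X} [IsMarkovKernel κ] {κ' : Kernel Y X'} [IsMarkovKernel κ']

omit [StandardBorelSpace X] [StandardBorelSpace X'] in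
theorem prod_left : (lam ⊗ₘ (κ ×ₖ κ')).map (fun t => (t.1, t.2.1)) = lam ⊗ₘ κ := by
  ext s hs
  have hm : Measurable fun t : Y × X × X' => (t.1, t.2.1) := by fun_prop
  rw [Measure.map_apply hm hs, Measure.compProd_apply (hm hs), Measure.compProd_apply hs]
  refine lintegral_congr fun y => ?_
  rw [Kernel.prod_apply]
  have e : Prod.mk y ⁻¹' ((fun t : Y × X × X' => (t.1, t.2.1)) ⁻¹' s) = (Prod.mk y ⁻¹' s) ×ˢ (univ : Set X') := by
    ext p
    simp
  rw [e, Measure.prod_prod, measure_univ, mul_one]

omit [StandardBorelSpace X] [StandardBorelSpace X'] in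
theorem prod_right : (lam ⊗ₘ (κ ×ₖ κ')).map (fun t => (t.1, t.2.2)) = lam ⊗ₘ κ' := by
  ext s hs
  have hm : Measurable fun t : Y × X × X' => (t.1, t.2.2) := by fun_prop
  rw [Measure.map_apply hm hs, Measure.compProd_apply (hm hs), Measure.compProd_apply hs]
  refine lintegral_congr fun y => ?_
  rw [Kernel.prod_apply]
  have e : Prod.mk y ⁻¹' ((fun t : Y × X × X' => (t.1, t.2.2)) ⁻¹' s) = (univ : Set X) ×ˢ (Prod.mk y ⁻¹' s) := by
    ext p
    simp
  rw [e, Measure.prod_prod, measure_univ, one_mul]

end

/-- **glueing**: two measures with the same image in `Y` have a coupling over `Y` -/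
theorem glue [MeasurableEq Y] {P : Measure X} [IsProbabilityMeasure P] {P' : Measure X'} [IsProbabilityMeasure P']
    {f : X → Y} {g : X' → Y} (hf : Measurable f) (hg : Measurable g) (h : P.map f = P'.map g) :
    ∃ Q : Measure (X × X'), IsProbabilityMeasure Q ∧ Q.map Prod.fst = P ∧ Q.map Prod.snd = P' ∧
      ∀ᵐ p ∂Q, f p.1 = g p.2 := by
  have : Nonempty X := by
    by_contra hn
    rw [not_nonempty_iff] at hn
    have := measure_univ (μ := P)
    rw [univ_eq_empty_iff.2 hn, measure_empty] at this
    exact zero_ne_one this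
  have : Nonempty X' := by
    by_contra hn
    rw [not_nonempty_iff] at hn
    have := measure_univ (μ := P')
    rw [univ_eq_empty_iff.2 hn, measure_empty] at this
    exact zero_ne_one this
  have hfi : Measurable fun x => (f x, x) := hf.prodMk measurable_id
  have hgi : Measurable fun x => (g x, x) := hg.prodMk measurable_id
  set ρ : Measure (Y × X) := P.map fun x => (f x, x) with hρ
  set ρ' : Measure (Y × X') := P'.map fun x => (g x, x) with hρ'
  have : IsProbabilityMeasure ρ := Measure.isProbabilityMeasure_map hfi.aemeasurable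
  have : IsProbabilityMeasure ρ' := Measure.isProbabilityMeasure_map hgi.aemeasurable
  have e1 : ρ.fst = P.map f := by
    rw [Measure.fst, hρ, Measure.map_map measurable_fst hfi]
    rfl
  have e2 : ρ'.fst = ρ.fst := by
    rw [e1, h, Measure.fst, hρ', Measure.map_map measurable_fst hgi]
    rfl
  set R : Measure (Y × X × X') := ρ.fst ⊗ₘ (ρ.condKernel ×ₖ ρ'.condKernel) with hR
  have hl : R.map (fun t => (t.1, t.2.1)) = ρ := by
    rw [hR, prod_left, Measure.disintegrate]
  have hr : R.map (fun t => (t.1, t.2.2)) = ρ' := by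
    rw [hR, prod_right, ← e2, Measure.disintegrate]
  have m1 : Measurable fun t : Y × X × X' => (t.1, t.2.1) := by fun_prop
  have m2 : Measurable fun t : Y × X × X' => (t.1, t.2.2) := by fun_prop
  have a1 : ∀ᵐ q ∂ρ, q.1 = f q.2 := by
    refine (ae_map_iff (p := fun q : Y × X => q.1 = f q.2) hfi.aemeasurable
      (measurableSet_eq_fun measurable_fst (hf.comp measurable_snd))).2 ?_
    exact Filter.Eventually.of_forall fun x => rfl
  have a2 : ∀ᵐ q ∂ρ', q.1 = g q.2 := by
    refine (ae_map_iff (p := fun q : Y × X' => q.1 = g q.2) hgi.aemeasurable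
      (measurableSet_eq_fun measurable_fst (hg.comp measurable_snd))).2 ?_
    exact Filter.Eventually.of_forall fun x => rfl
  rw [← hl] at a1
  rw [← hr] at a2
  have b1 := ae_of_ae_map m1.aemeasurable a1
  have b2 := ae_of_ae_map m2.aemeasurable a2
  refine ⟨R.map Prod.snd, Measure.isProbabilityMeasure_map measurable_snd.aemeasurable, ?_, ?_, ?_⟩
  · rw [Measure.map_map measurable_fst measurable_snd]
    have : (Prod.fst ∘ Prod.snd : Y × X × X' → X) = Prod.snd ∘ fun t : Y × X × X' => (t.1, t.2.1) := rfl
    rw [this, ← Measure.map_map measurable_snd m1, hl, hρ, Measure.map_map measurable_snd hfi]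
    exact Measure.map_id
  · rw [Measure.map_map measurable_snd measurable_snd]
    have : (Prod.snd ∘ Prod.snd : Y × X × X' → X') = Prod.snd ∘ fun t : Y × X × X' => (t.1, t.2.2) := rfl
    rw [this, ← Measure.map_map measurable_snd m2, hr, hρ', Measure.map_map measurable_snd hgi]
    exact Measure.map_id
  · refine (ae_map_iff (p := fun p : X × X' => f p.1 = g p.2) measurable_snd.aemeasurable
      (measurableSet_eq_fun (hf.comp measurable_fst) (hg.comp measurable_snd))).2 ?_
    filter_upwards [b1, b2] with t h1 h2
    exact h1.symm.trans h2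

end Pool.Agent.ROT.F
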