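import Pool.Agent.ROT.FSt
import Pool.Agent.ROT.FGlue

/-!
# ROT, block F1, row (A5) (helper84): the coupling over the traces

* `Ck.iso`, `SL.iso'` : isometric curves;
* `FbI` : the mean over the roots and the directions is invariant under the root, the direction and the translations;
* **`a5_of`** : `A5` from the continuity of `Tk`, `tk_eq`, the continuity of `Fbar` and `FbI`.
-/

set_option autoImplicit false

open MeasureTheory Filter Topology Set

open scoped Classical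

namespace Pool.Agent.ROT.F

open Pool.Agent.NTS.Res Pool.Agent.PMA Pool.Agent.PMA.Res

open Pool.Agent.NPR (tr nb vb vb_iso)

lemma Ck.iso {ρ h : ℕ → ℝ} {t : ℝ} {γ γ' : C(unitInterval, ℂ)} (hd : ∀ u v, dist (γ u) (γ v) = dist (γ' u) (γ' v))
    (hc : Ck ρ h t γ) : Ck ρ h t γ' := by
  intro u
  have e := hc u
  simp only [vb_iso hd] at e
  exact e

lemma SL.iso' {γ γ' : C(unitInterval, ℂ)} (hd : ∀ u v, dist (γ u) (γ v) = dist (γ' u) (γ' v)) (h : SL γ) : SL γ' := by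
  refine ⟨?_, fun s t hst e => h.2 s t hst ?_⟩
  · rw [← dist_eq_zero, ← hd, h.1, dist_self]
  · rw [← dist_eq_zero, hd, e, dist_self]

/-- invariance of the mean over the roots and the directions -/
structure FbI : Prop where
  rt : ∀ (F : C(unitInterval, ℂ) → ℝ) (γ : C(unitInterval, ℂ)) (u : unitInterval), (∀ γ, |F γ| ≤ 1) → LipschitzWith 1 F →
    SL γ → Fbar F (Pool.Agent.ROT.F.rt u γ) = Fbar F γ
  rv : ∀ (F : C(unitInterval, ℂ) → ℝ) (γ : C(unitInterval, ℂ)), (∀ γ, |F γ| ≤ 1) → LipschitzWith 1 F →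
    SL γ → Fbar F (Pool.Agent.ROT.F.rv γ) = Fbar F γ
  cst : ∀ (F : C(unitInterval, ℂ) → ℝ) (γ : C(unitInterval, ℂ)) (v : ℂ), (∀ γ, |F γ| ≤ 1) → LipschitzWith 1 F →
    SL γ → Fbar F (γ + ContinuousMap.const _ v) = Fbar F γ

/-- equal traces up to the translations: equal times and equal means -/
theorem fb_eq (hI : FbI) (he : ∀ γ γ' : C(unitInterval, ℂ), Tk γ = Tk γ' → ∃ v : ℂ, range γ = (fun z => z + v) '' range γ')
    {F : C(unitInterval, ℂ) → ℝ} (hF : ∀ γ, |F γ| ≤ 1) (hL : LipschitzWith 1 F) {z : ℂ} (hz : ‖z‖ = 1) {h : ℕ → ℝ} {x y : XX}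
    (hx : 0 < x.1) (sx : SL x.2) (cx : ClkG h x.1 x.2) (sy : SL y.2) (cy : ClkG h y.1 y.2) (e : Tk (z • x.2) = Tk y.2) :
    x.1 = y.1 ∧ Fbar F (z • x.2) = Fbar F y.2 := by
  obtain ⟨v, hv⟩ := he _ _ e
  have d1 : ∀ p q, dist (x.2 p) (x.2 q) = dist ((z • x.2) p) ((z • x.2) q) := fun p q => (dist_smul' hz x.2 p q).symm
  obtain ⟨γ, hγ⟩ : ∃ γ : C(unitInterval, ℂ), γ = y.2 + ContinuousMap.const _ v := ⟨_, rfl⟩
  have a1 : ∀ p, γ p = y.2 p + v := fun p => by rw [hγ]; rfl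
  have d2 : ∀ p q, dist (y.2 p) (y.2 q) = dist (γ p) (γ q) := fun p q => by rw [a1, a1, dist_add_right]
  have s1 := sx.iso' d1
  have s2 := sy.iso' d2
  have c1 : ClkG h x.1 (z • x.2) := Ck.iso d1 cx
  have c2 : ClkG h y.1 γ := Ck.iso d2 cy
  have r1 : range (z • x.2 : C(unitInterval, ℂ)) = range γ := by
    rw [hv]
    ext w
    constructor
    · rintro ⟨w', ⟨p, rfl⟩, rfl⟩
      exact ⟨p, a1 p⟩
    · rintro ⟨p, rfl⟩
      exact ⟨y.2 p, ⟨p, rfl⟩, (a1 p).symm⟩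
  have hρ : ∀ i : ℕ, (0 : ℝ) < (1 / 2) ^ i := fun i => by positivity
  have hρ0 : Tendsto (fun i : ℕ => (1 / 2 : ℝ) ^ i) atTop (𝓝 0) :=
    tendsto_pow_atTop_nhds_zero_of_lt_one (by norm_num) (by norm_num)
  obtain ⟨h1, u, hu⟩ := loop_eq hρ hρ0 hx.ne' s1 s2 c1 c2 r1
  refine ⟨h1, ?_⟩
  have e1 : Fbar F γ = Fbar F y.2 := by
    rw [hγ]
    exact hI.cst F y.2 v hF hL sy
  have e2 : Fbar F (rt u γ) = Fbar F γ := hI.rt F γ u hF hL s2
  rcases hu with hu | hu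
  · rw [hu, e2, e1]
  · rw [hu, hI.rv F _ hF hL (s2.rt u), e2, e1]

/-- the trace of `at0` -/
lemma tk_at0 (he : ∀ γ γ' : C(unitInterval, ℂ), Tk γ = Tk γ' → ∃ v : ℂ, range γ = (fun z => z + v) '' range γ')
    {γ γ' : C(unitInterval, ℂ)} (h : ∀ p q, γ p = γ q) (e : Tk γ = Tk γ') : ∀ p q, γ' p = γ' q := by
  obtain ⟨v, hv⟩ := he _ _ e
  intro p q
  have h1 : γ' p + v ∈ range γ := by
    rw [hv]
    exact ⟨γ' p, ⟨p, rfl⟩, rfl⟩
  have h2 : γ' q + v ∈ range γ := by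
    rw [hv]
    exact ⟨γ' q, ⟨q, rfl⟩, rfl⟩
  obtain ⟨a, ha⟩ := h1
  obtain ⟨b, hb⟩ := h2
  have h3 : γ' p + v = γ' q + v := by rw [← ha, ← hb, h a b]
  exact add_right_cancel h3

lemma SL.ne {γ : C(unitInterval, ℂ)} (h : SL γ) : ∃ p q, γ p ≠ γ q := by
  obtain ⟨m, hm0, hm1⟩ : ∃ m : unitInterval, 0 < m ∧ m < 1 :=
    ⟨⟨1 / 2, by norm_num, by norm_num⟩, by
      show (0 : ℝ) < 1 / 2
      norm_num, by
      show (1 / 2 : ℝ) < 1
      norm_num⟩
  exact ⟨m, 0, fun e => hm0.ne' (h.inj hm0 hm1 e)⟩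

/-- **row (A5)** -/
theorem a5_of (hc : Continuous Tk)
    (he : ∀ γ γ' : C(unitInterval, ℂ), Tk γ = Tk γ' → ∃ v : ℂ, range γ = (fun z => z + v) '' range γ')
    (hB : ∀ F : C(unitInterval, ℂ) → ℝ, (∀ γ, |F γ| ≤ 1) → LipschitzWith 1 F → Continuous (Fbar F)) (hI : FbI) : A5 := by
  intro P hP h1 h2 h3 G hG hG1 hG0 F hF hL z hz
  obtain ⟨h, h3⟩ := h3
  have hf : Measurable fun x : XX => Tk (z • x.2) := (hc.comp (continuous_snd.const_smul z)).measurable
  have hg : Measurable fun x : XX => Tk x.2 := (hc.comp continuous_snd).measurable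
  obtain ⟨Q, hQ, q1, q2, q3⟩ := glue (P := P) (P' := P) hf hg (h1 z hz)
  have c1 : Continuous fun x : XX => G x.1 * Fbar F (z • x.2) :=
    (hG.comp continuous_fst).mul ((hB F hF hL).comp (continuous_snd.const_smul z))
  have c2 : Continuous fun x : XX => G x.1 * Fbar F x.2 := (hG.comp continuous_fst).mul ((hB F hF hL).comp continuous_snd)
  have e1 : ∫ x, G x.1 * Fbar F (z • x.2) ∂P = ∫ p, G p.1.1 * Fbar F (z • p.1.2) ∂Q := by
    rw [← q1, integral_map measurable_fst.aemeasurable c1.aestronglyMeasurable]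
  have e2 : ∫ x, G x.1 * Fbar F x.2 ∂P = ∫ p, G p.2.1 * Fbar F p.2.2 ∂Q := by
    rw [← q2, integral_map measurable_snd.aemeasurable c2.aestronglyMeasurable]
  rw [e1, e2]
  refine integral_congr_ae ?_
  have a1 : ∀ᵐ p ∂Q, p.1 = at0 ∨ (0 < p.1.1 ∧ SL p.1.2) := by
    have := h2
    rw [← q1] at this
    exact ae_of_ae_map measurable_fst.aemeasurable this
  have a2 : ∀ᵐ p ∂Q, p.2 = at0 ∨ (0 < p.2.1 ∧ SL p.2.2) := by
    have := h2
    rw [← q2] at this
    exact ae_of_ae_map measurable_snd.aemeasurable this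
  have b1 : ∀ᵐ p ∂Q, 0 < p.1.1 → ClkG h p.1.1 p.1.2 := by
    have := h3
    rw [← q1] at this
    exact ae_of_ae_map measurable_fst.aemeasurable this
  have b2 : ∀ᵐ p ∂Q, 0 < p.2.1 → ClkG h p.2.1 p.2.2 := by
    have := h3
    rw [← q2] at this
    exact ae_of_ae_map measurable_snd.aemeasurable this
  have k0 : G (at0 : XX).1 = 0 := hG0 _ (by norm_num [at0])
  have k1 : ∀ p q : unitInterval, (at0 : XX).2 p = (at0 : XX).2 q := fun p q => rfl
  have k2 : ∀ p q : unitInterval, (z • (at0 : XX).2) p = (z • (at0 : XX).2) q := fun p q => by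
    rw [ContinuousMap.smul_apply, ContinuousMap.smul_apply, k1 p q]
  filter_upwards [q3, a1, a2, b1, b2] with p p3 pa pb pc pd
  rcases pa with pa | ⟨pa, sa⟩
  · rcases pb with pb | ⟨pb, sb⟩
    · rw [pa, pb, k0, zero_mul, zero_mul]
    · rw [pa] at p3
      obtain ⟨a, b, hab⟩ := sb.ne
      exact absurd (tk_at0 he k2 p3 a b) hab
  · rcases pb with pb | ⟨pb, sb⟩
    · rw [pb] at p3
      have := tk_at0 he k1 p3.symm
      obtain ⟨a, b, hab⟩ := sa.ne
      have h5 := this a b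
      rw [ContinuousMap.smul_apply, ContinuousMap.smul_apply, smul_eq_mul, smul_eq_mul] at h5
      have hz0 : z ≠ 0 := fun e => by
        rw [e, norm_zero] at hz
        exact zero_ne_one hz
      exact absurd (mul_left_cancel₀ hz0 h5) hab
    · obtain ⟨t1, t2⟩ := fb_eq hI he hF hL hz pa sa (pc pa) sb (pd pb) p3
      show G p.1.1 * Fbar F (z • p.1.2) = G p.2.1 * Fbar F p.2.2
      rw [t1, t2]

end Pool.Agent.ROT.F
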