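import Pool.Agent.ROT.FBd

/-!
# ROT, block F1, row A1: existence of the limits (helper32)

* `lim_of_tight` : Prokhorov for sequences, eventual form;
* `tight_ev` : the measures `Pme` are tight;
* **`a1`** : `Fast → QB → A1`.
-/

set_option autoImplicit false

open MeasureTheory Filter Topology Set

open scoped Classical ENNReal

namespace Pool.Agent.ROT.F

open Pool.Agent.NTS.Res Pool.Agent.PMA Pool.Agent.PMA.Res

open Pool.Agent.NPR (tr nb vb)

/-- Prokhorov, sequences, eventual form -/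
theorem lim_of_tight (m : ℕ → ProbabilityMeasure XX)
    (h : ∀ ε : ℝ≥0∞, 0 < ε → ∃ K : Set XX, IsCompact K ∧ ∀ᶠ k in atTop, (m k : Measure XX) Kᶜ ≤ ε) :
    ∃ (ψ : ℕ → ℕ) (P : ProbabilityMeasure XX), StrictMono ψ ∧ Tendsto (fun k => m (ψ k)) atTop (𝓝 P) := by
  have hm : IsTightMeasureSet {((μ : ProbabilityMeasure XX) : Measure XX) | μ ∈ range m} := by
    rw [isTightMeasureSet_iff_exists_isCompact_measure_compl_le]
    intro ε hε
    obtain ⟨K, hK, hk⟩ := h ε hε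
    obtain ⟨k0, hk0⟩ := eventually_atTop.1 hk
    have h1 : ∀ k : ℕ, ∃ K : Set XX, IsCompact K ∧ (m k : Measure XX) Kᶜ ≤ ε := by
      intro k
      have h2 := isTightMeasureSet_singleton (μ := (m k : Measure XX))
      rw [isTightMeasureSet_iff_exists_isCompact_measure_compl_le] at h2
      obtain ⟨K, hK, h3⟩ := h2 ε hε
      exact ⟨K, hK, h3 _ rfl⟩
    choose K' hK' h3 using h1
    refine ⟨K ∪ ⋃ k ∈ Finset.range k0, K' k, hK.union ((Finset.range k0).isCompact_biUnion fun k _ => hK' k), ?_⟩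
    rintro _ ⟨ν, ⟨k, rfl⟩, rfl⟩
    by_cases hk : k0 ≤ k
    · exact (measure_mono (compl_subset_compl.2 subset_union_left)).trans (hk0 k hk)
    · refine (measure_mono (compl_subset_compl.2 ?_)).trans (h3 k)
      refine subset_union_of_subset_right ?_ _
      exact subset_biUnion_of_mem (u := fun k => K' k) (show k ∈ ((Finset.range k0 : Finset ℕ) : Set ℕ) by
        rw [Finset.coe_range]
        exact not_le.1 hk)
  obtain ⟨P, -, ψ, hψ, hP⟩ := (isCompact_closure_of_isTightMeasureSet hm).tendsto_subseq (x := m)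
    (fun k => subset_closure ⟨k, rfl⟩)
  exact ⟨ψ, P, hψ, hP⟩

/-! ### tightness -/

lemma pmn_le_plaw {N n : ℕ} {K : Set C(unitInterval, ℂ)} (hK : IsClosed K) {G : C(unitInterval, ℂ) → ℝ}
    (h : ∀ γ, G (sN N n γ) ≤ (if γ ∈ Kᶜ then 1 else 0)) (h' : ∀ γ, G (-sN N n γ) ≤ (if γ ∈ Kᶜ then 1 else 0)) :
    pmn N n G ≤ (plaw n).real Kᶜ := by
  have e1 : (plaw n).real Kᶜ = pmean n fun γ => if γ ∈ Kᶜ then 1 else 0 := by
    rw [← plaw_int', ← integral_indicator_one hK.measurableSet.compl]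
    refine integral_congr_ae (Eventually.of_forall fun γ => ?_)
    show indicator Kᶜ 1 γ = if γ ∈ Kᶜ then 1 else 0
    rw [indicator_apply, Pi.one_apply]
  rw [e1]
  unfold pmn pmean
  refine div_le_div_of_nonneg_right (Finset.sum_le_sum fun s _ => ?_) (Nat.cast_nonneg _)
  have h1 := h (curve s)
  have h2 := h' (curve s)
  linarith

/-- **tightness** -/
theorem tight_ev (hF : Fast) (hQ : QB) {r M0 : ℝ} (hr : 0 < r) (hM0 : 0 < M0) {φ : ℕ → ℕ} (hφ : Tendsto φ atTop atTop)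
    (hm : ∀ᶠ N in atTop, Mss N r ≤ M0) :
    ∀ ε : ℝ≥0∞, 0 < ε → ∃ K : Set XX, IsCompact K ∧ ∀ᶠ k in atTop, Pme M0 (Nm (φ k)) (φ k) r Kᶜ ≤ ε := by
  intro ε hε
  obtain ⟨e, he, hee⟩ : ∃ e : ℝ, 0 < e ∧ ENNReal.ofReal e ≤ ε := by
    by_cases ht : ε = ⊤
    · exact ⟨1, one_pos, by rw [ht]; exact le_top⟩
    · exact ⟨ε.toReal, ENNReal.toReal_pos hε.ne' ht, ENNReal.ofReal_toReal_le⟩
  obtain ⟨η, hη⟩ : ∃ η : ℝ, η = e * M0 / 3 := ⟨_, rfl⟩
  have hη0 : 0 < η := by rw [hη]; positivity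
  obtain ⟨a, m1, ha, h1⟩ := small_t hF hr hη0
  obtain ⟨b, m2, hb, h2⟩ := big_t hQ hη0
  obtain ⟨C, m3, hC, h3⟩ := ml_ev hQ ha
  obtain ⟨n0, ht⟩ := tightP
  rw [isTightMeasureSet_iff_exists_isCompact_measure_compl_le] at ht
  obtain ⟨K0, hK0, hk0⟩ := ht (ENNReal.ofReal (η / C)) (ENNReal.ofReal_pos.2 (by positivity))
  obtain ⟨c1, C1, hc1, hC1, hsz⟩ := size_bd
  obtain ⟨c, C', m4, hc, hC', hN⟩ := nm_bd
  obtain ⟨L, hL⟩ : ∃ L : ℝ, L = C1 * b ^ (3 / 4 : ℝ) / c := ⟨_, rfl⟩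
  obtain ⟨K1, hK1⟩ : ∃ K : Set C(unitInterval, ℂ), K = (fun p : ℝ × C(unitInterval, ℂ) => p.1 • p.2) '' (Icc (-L) L ×ˢ K0) :=
    ⟨_, rfl⟩
  have hK1c : IsCompact K1 := by
    rw [hK1]
    exact (isCompact_Icc.prod hK0).image (by fun_prop)
  refine ⟨{at0} ∪ (Icc a b ×ˢ K1), isCompact_singleton.union (isCompact_Icc.prod hK1c), ?_⟩
  filter_upwards [(nm_top.comp hφ).eventually hm, hφ.eventually_ge_atTop (max (max (max m1 m2) (max m3 m4))
    (max 1 ⌈(n0 + 1 : ℝ) / a⌉₊))] with k hk1 hk2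
  obtain ⟨m, hmk⟩ : ∃ m, m = φ k := ⟨_, rfl⟩
  rw [← hmk] at hk2
  rw [Function.comp_apply, ← hmk] at hk1
  rw [← hmk]
  simp only [max_le_iff] at hk2
  obtain ⟨⟨⟨g1, g2⟩, g3, g4⟩, g5, g6⟩ := hk2
  have hm0 : (0 : ℝ) < m := by exact_mod_cast g5
  have g7 : (n0 + 1 : ℝ) ≤ a * m := by
    have := (Nat.le_ceil ((n0 + 1 : ℝ) / a)).trans (by exact_mod_cast g6 : ((⌈(n0 + 1 : ℝ) / a⌉₊ : ℕ) : ℝ) ≤ m)
    rw [div_le_iff₀ ha] at this
    linarith
  obtain ⟨E, hE⟩ : ∃ E : Set XX, E = (({at0} ∪ (Icc a b ×ˢ K1))ᶜ : Set XX) := ⟨_, rfl⟩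
  have hat : at0 ∉ E := by
    rw [hE]
    exact fun h => h (Or.inl rfl)
  rw [← hE, pme_apply hM0 hat]
  refine le_trans (ENNReal.ofReal_le_ofReal ?_) hee
  have key : ML (Nm m) (fun n γ => chi r (dm γ) * if (((n : ℝ) / m, γ) : XX) ∈ E then 1 else 0) ≤ 3 * η := by
    have q1 : ML (Nm m) (fun n γ => chi r (dm γ) * if (((n : ℝ) / m, γ) : XX) ∈ E then 1 else 0) ≤ ML (Nm m) (fun n γ => (if (n : ℝ) ≤ a * m then chi r (dm γ) else 0) +
          ((if b * m < n then 1 else 0) + (if a * m ≤ n ∧ (n : ℝ) ≤ b * m ∧ γ ∉ K1 then 1 else 0))) := by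
      refine ML_mono fun n γ => ?_
      have p1 : 0 ≤ chi r (dm γ) := chi_nonneg _ _
      have p2 : chi r (dm γ) ≤ 1 := chi_le_one _ _
      have p3 : (0 : ℝ) ≤ (if (n : ℝ) ≤ a * m then chi r (dm γ) else 0) := by split_ifs <;> linarith
      have p4 : (0 : ℝ) ≤ (if b * m < n then 1 else 0) := by split_ifs <;> norm_num
      have p5 : (0 : ℝ) ≤ (if a * m ≤ n ∧ (n : ℝ) ≤ b * m ∧ γ ∉ K1 then 1 else 0) := by split_ifs <;> norm_num
      by_cases hx : (((n : ℝ) / m, γ) : XX) ∈ E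
      · rw [if_pos hx, mul_one]
        rw [hE] at hx
        by_cases x1 : (n : ℝ) ≤ a * m
        · rw [if_pos x1]
          linarith
        · by_cases x2 : b * m < n
          · rw [if_pos x2]
            linarith
          · have x3 : γ ∉ K1 := by
              intro hg
              refine hx (Or.inr ⟨⟨?_, ?_⟩, hg⟩)
              · show a ≤ (n : ℝ) / m
                rw [le_div_iff₀ hm0]
                linarith
              · show (n : ℝ) / m ≤ b
                rw [div_le_iff₀ hm0]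
                linarith
            rw [if_pos (⟨by linarith, by linarith, x3⟩ : a * m ≤ n ∧ (n : ℝ) ≤ b * m ∧ γ ∉ K1)]
            linarith
      · rw [if_neg hx, mul_zero]
        linarith
    rw [ML_add, ML_add] at q1
    have q2 : ML (Nm m) (fun n γ => if a * m ≤ n ∧ (n : ℝ) ≤ b * m ∧ γ ∉ K1 then 1 else 0) ≤ C * (η / C) := by
      refine h3 m g3 _ _ (by positivity) (fun n hn γ => if_neg fun h => not_le.2 hn h.1) fun n hn hna => ?_
      by_cases hnb : (n : ℝ) ≤ b * m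
      · have hn1 : 1 ≤ n := by
          have : (1 : ℝ) ≤ n := by linarith [Nat.cast_nonneg (α := ℝ) n0]
          exact_mod_cast this
        have hnn : n0 ≤ n := by
          have : (n0 : ℝ) ≤ n := by linarith
          exact_mod_cast this
        obtain ⟨y1, y2, y3, -, -⟩ := hN m g4
        have hNp : (0 : ℝ) < Nm m := by exact_mod_cast y1
        have hr0 : 0 ≤ size n / Nm m := div_nonneg ((mul_nonneg hc1.le (Real.rpow_nonneg (Nat.cast_nonneg _) _)).trans
          (hsz n hn1).1) hNp.le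
        have hrL : size n / Nm m ≤ L := by
          rw [div_le_iff₀ hNp, hL]
          calc size n ≤ C1 * (n : ℝ) ^ (3 / 4 : ℝ) := (hsz n hn1).2
            _ ≤ C1 * (b * m) ^ (3 / 4 : ℝ) := by gcongr
            _ = C1 * b ^ (3 / 4 : ℝ) / c * (c * (m : ℝ) ^ (3 / 4 : ℝ)) := by
                rw [Real.mul_rpow hb.le hm0.le]
                field_simp
            _ ≤ _ := by gcongr
        have hmem : ∀ γ ∈ K0, sN (Nm m) n γ ∈ K1 ∧ -sN (Nm m) n γ ∈ K1 := by
          intro γ hγ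
          rw [hK1]
          refine ⟨⟨(size n / Nm m, γ), ⟨⟨by show -L ≤ size n / Nm m; linarith, hrL⟩, hγ⟩, rfl⟩,
            ⟨(-(size n / Nm m), γ), ⟨⟨by show -L ≤ -(size n / Nm m); linarith, by show -(size n / Nm m) ≤ L; linarith⟩, hγ⟩, ?_⟩⟩
          show (-(size n / Nm m)) • γ = -((size n / Nm m : ℝ) • γ)
          refine ContinuousMap.ext fun x => ?_
          rw [ContinuousMap.neg_apply, ContinuousMap.smul_apply, ContinuousMap.smul_apply, neg_smul]
        have hcl : IsClosed K0 := hK0.isClosed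
        refine (pmn_le_plaw hcl (fun γ => ?_) (fun γ => ?_)).trans ?_
        · by_cases hg : γ ∈ K0
          · rw [if_neg fun h => h.2.2 (hmem γ hg).1]
            split_ifs <;> norm_num
          · rw [if_pos (show γ ∈ K0ᶜ from hg)]
            split_ifs <;> norm_num
        · by_cases hg : γ ∈ K0
          · rw [if_neg fun h => h.2.2 (hmem γ hg).2]
            split_ifs <;> norm_num
          · rw [if_pos (show γ ∈ K0ᶜ from hg)]
            split_ifs <;> norm_num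
        · exact ENNReal.toReal_le_of_le_ofReal (by positivity) (hk0 _ ⟨n, hnn, hn, rfl⟩)
      · refine le_trans (le_of_eq ?_) (show (0 : ℝ) ≤ η / C by positivity)
        have : (fun γ : C(unitInterval, ℂ) => if a * m ≤ n ∧ (n : ℝ) ≤ b * m ∧ γ ∉ K1 then (1 : ℝ) else 0) = fun _ => 0 := by
          funext γ
          exact if_neg fun h => hnb h.2.1
        rw [this]
        unfold pmn pmean
        simp
    have q3 := h1 m g1
    have q4 := h2 m g2
    have q5 : C * (η / C) = η := by field_simp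
    linarith
  calc 1 / M0 * ML (Nm m) (fun n γ => chi r (dm γ) * if (((n : ℝ) / m, γ) : XX) ∈ E then 1 else 0) ≤ 1 / M0 * (3 * η) := by gcongr
    _ = e := by
        rw [hη]
        field_simp

/-- **row A1** -/
theorem a1 (hF : Fast) (hQ : QB) : A1 := by
  intro r φ hr hφ ho
  obtain ⟨M0, hM0, hM⟩ := mss_bd hF hQ hr
  obtain ⟨k0, hk0⟩ := eventually_atTop.1 ((nm_top.comp hφ).eventually hM)
  have ht := tight_ev hF hQ hr hM0 hφ hM
  obtain ⟨ψ, P, hψ, hP⟩ := lim_of_tight (fun k => ⟨Pme M0 (Nm (φ (k + k0))) (φ (k + k0)) r,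
    pme_prob hM0 (hk0 _ (Nat.le_add_left _ _))⟩) (fun ε hε => by
      obtain ⟨K, hK, h⟩ := ht ε hε
      exact ⟨K, hK, (tendsto_add_atTop_nat k0).eventually h⟩)
  refine ⟨M0, fun k => ψ k + k0, P, fun x y hxy => Nat.add_lt_add_right (hψ hxy) _, ⟨hr, hM0, hM, ?_, fun k => ho _,
    inferInstance, ?_⟩⟩
  · exact hφ.comp ((tendsto_add_atTop_nat k0).comp hψ.tendsto_atTop)
  · intro f
    exact (ProbabilityMeasure.tendsto_iff_forall_integral_tendsto.1 hP) f

end Pool.Agent.ROT.F
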