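import Pool.Agent.ROT.FLit

/-!
# ROT, block F, row (l) (helper56): the polygons have no near double points, no margin at the ends

* **`pol_ldp`** : the polygons have no near double points at macroscopic distance along the loop.
-/

set_option autoImplicit false

open MeasureTheory Filter Topology
open scoped Classical ENNReal

namespace Pool.Agent.ROT.F

open Pool.Agent.NTS.Res Pool.Agent.PMA Pool.Agent.PMA.Res Pool.Agent.PMA.Fp

lemma pmean_add' (n : ℕ) (F G : C(unitInterval, ℂ) → ℝ) : pmean n (fun γ => F γ + G γ) = pmean n F + pmean n G := by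
  unfold pmean
  rw [Finset.sum_add_distrib, add_div]

/-- the event of `pol_dp` -/
def DE (τ κ δ : ℝ) : Set C(unitInterval, ℂ) :=
  {γ | ∃ p q : unitInterval, τ ≤ p ∧ (p : ℝ) + κ ≤ q ∧ (q : ℝ) ≤ 1 - τ ∧ dist (γ q) (γ p) < δ}

/-- near double points at the distance `κ` along the loop -/
def LE (κ δ : ℝ) : Set C(unitInterval, ℂ) :=
  {γ | ∃ p q : unitInterval, (p : ℝ) + κ ≤ q ∧ (q : ℝ) + κ ≤ p + 1 ∧ dist (γ q) (γ p) < δ}

lemma DE_thick {τ κ δ c : ℝ} {γ γ' : C(unitInterval, ℂ)} (h : γ ∈ DE τ κ δ) (hc : dist γ γ' < c) :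
    γ' ∈ DE τ κ (δ + 2 * c) := by
  obtain ⟨p, q, h1, h2, h3, h4⟩ := h
  refine ⟨p, q, h1, h2, h3, ?_⟩
  have e1 : dist (γ q) (γ' q) ≤ dist γ γ' := ContinuousMap.dist_apply_le_dist q
  have e2 : dist (γ p) (γ' p) ≤ dist γ γ' := ContinuousMap.dist_apply_le_dist p
  have e3 := dist_triangle4 (γ' q) (γ q) (γ p) (γ' p)
  rw [dist_comm (γ' q) (γ q)] at e3
  linarith

/-- the change of the starting time for events -/
lemma rot_event {E E' : Set C(unitInterval, ℂ)} {c : ℝ} (hc : 0 < c) (hE : ∀ γ ∈ E, ∀ γ', dist γ γ' < c → γ' ∈ E')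
    {n : ℕ} {u : ℝ} (hn : 3 ≤ n) (ho : Odd n) (hu0 : 0 ≤ u) (hu1 : u ≤ 1) :
    pmean n (fun γ => if rot u γ ∈ E then 1 else 0) ≤ pmean n (fun γ => if γ ∈ E' then 1 else 0) + 12 / (c * size n) := by
  have hs := NTSF.size_pos (by omega : 1 ≤ n)
  rcases E.eq_empty_or_nonempty with he | hne
  · have h1 : pmean n (fun γ => if rot u γ ∈ E then 1 else 0) ≤ pmean n (fun γ => if γ ∈ E' then 1 else 0) := by
      refine LT.pmean_mono fun s _ => ?_
      rw [he]
      simp only [Set.mem_empty_iff_false, if_false]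
      split_ifs <;> norm_num
    have h2 : 0 ≤ 12 / (c * size n) := by positivity
    linarith
  obtain ⟨F, hF⟩ : ∃ F : C(unitInterval, ℂ) → ℝ, F = fun γ => max (c - Metric.infDist γ E) 0 := ⟨_, rfl⟩
  have hL : LipschitzWith 1 F := by
    rw [hF]
    refine LipschitzWith.of_dist_le_mul fun x y => ?_
    rw [NNReal.coe_one, one_mul, Real.dist_eq]
    have h1 := Metric.lipschitz_infDist_pt E |>.dist_le_mul x y
    rw [NNReal.coe_one, one_mul, Real.dist_eq] at h1
    calc |max (c - Metric.infDist x E) 0 - max (c - Metric.infDist y E) 0|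
        ≤ |(c - Metric.infDist x E) - (c - Metric.infDist y E)| := abs_max_sub_max_le_abs _ _ _
      _ = |Metric.infDist x E - Metric.infDist y E| := by
          rw [← abs_neg]
          congr 1
          ring
      _ ≤ dist x y := h1
  have h1 := pol_rot' hn ho hu0 hu1 hL
  have h2 : c * pmean n (fun γ => if rot u γ ∈ E then 1 else 0) ≤ pmean n (fun γ => F (rot u γ)) := by
    rw [← LimS.pmean_mul]
    refine LT.pmean_mono fun s _ => ?_
    rw [hF]
    show c * (if rot u (curve s) ∈ E then (1 : ℝ) else 0) ≤ max (c - Metric.infDist (rot u (curve s)) E) 0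
    split_ifs with h
    · rw [Metric.infDist_zero_of_mem h, sub_zero, mul_one]
      exact le_max_left _ _
    · rw [mul_zero]
      exact le_max_right _ _
  have h3 : pmean n F ≤ c * pmean n (fun γ => if γ ∈ E' then 1 else 0) := by
    rw [← LimS.pmean_mul]
    refine LT.pmean_mono fun s _ => ?_
    rw [hF]
    show max (c - Metric.infDist (curve s) E) 0 ≤ c * (if curve s ∈ E' then (1 : ℝ) else 0)
    split_ifs with h
    · rw [mul_one]
      exact max_le (sub_le_self _ Metric.infDist_nonneg) hc.le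
    · rw [mul_zero]
      refine max_le (sub_nonpos.2 (not_lt.1 fun hlt => h ?_)) le_rfl
      obtain ⟨γ0, h4, h5⟩ := (Metric.infDist_lt_iff hne).1 hlt
      exact hE γ0 h4 _ (by rwa [dist_comm])
  have h4 := (abs_le.1 h1).2
  have h5 : c * pmean n (fun γ => if rot u γ ∈ E then 1 else 0) ≤
      c * pmean n (fun γ => if γ ∈ E' then 1 else 0) + 12 / size n := by linarith
  have h6 : 12 / (c * size n) = (12 / size n) / c := by
    field_simp
  rw [h6]
  have h7 : pmean n (fun γ => if rot u γ ∈ E then 1 else 0) ≤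
      (c * pmean n (fun γ => if γ ∈ E' then 1 else 0) + 12 / size n) / c := by
    rw [le_div_iff₀ hc, mul_comm]
    exact h5
  rw [add_div, mul_div_cancel_left₀ _ hc.ne'] at h7
  exact h7

/-- the value of the rotated curve after the starting time -/
lemma rot_ge {γ : C(unitInterval, ℂ)} {u : ℝ} {p t : unitInterval} (ht : (t : ℝ) = p - u) :
    rot u γ t = γ p - γ (Set.projIcc 0 1 zero_le_one u) := by
  rw [rot_apply]
  have e1 : u + (t : ℝ) = p := by rw [ht]; ring
  have e2 : u + (t : ℝ) - 1 ≤ 0 := by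
    rw [e1]
    linarith [p.2.2]
  rw [Set.projIcc_of_le_left _ e2, e1, Set.projIcc_val]
  show γ p + γ 0 - _ - γ 0 = _
  ring

/-- the value of the rotated curve before the starting time -/
lemma rot_lt {γ : C(unitInterval, ℂ)} {u : ℝ} {p t : unitInterval} (ht : (t : ℝ) = p + 1 - u) :
    rot u γ t = γ p + (γ 1 - γ 0) - γ (Set.projIcc 0 1 zero_le_one u) := by
  rw [rot_apply]
  have e1 : u + (t : ℝ) - 1 = p := by rw [ht]; ring
  have e2 : 1 ≤ u + (t : ℝ) := by
    have := p.2.1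
    linarith
  rw [Set.projIcc_of_right_le _ e2, e1, Set.projIcc_val]
  show γ 1 + γ p - _ - γ 0 = _
  ring

lemma rot_pair {γ : C(unitInterval, ℂ)} {κ δ e u : ℝ} (hκ : 0 < κ) (hu0 : 1 / 4 ≤ u) (hu1 : u ≤ 3 / 4) (hg : ‖γ 1 - γ 0‖ ≤ e)
    (he : 0 ≤ e) {p q : unitInterval} (h1 : (p : ℝ) + κ ≤ q) (h2 : (q : ℝ) + κ ≤ p + 1) (h3 : dist (γ q) (γ p) < δ)
    (hp : 1 / 16 ≤ |(p : ℝ) - u|) (hq : 1 / 16 ≤ |(q : ℝ) - u|) : rot u γ ∈ DE (1 / 16) κ (δ + e) := by
  have p0 := p.2.1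
  have p1 := p.2.2
  have q0 := q.2.1
  have q1 := q.2.2
  rcases le_or_gt u p with hup | hup
  · -- both after
    rw [abs_of_nonneg (by linarith)] at hp
    rw [abs_of_nonneg (by linarith)] at hq
    refine ⟨⟨p - u, by linarith, by linarith⟩, ⟨q - u, by linarith, by linarith⟩, hp, ?_, ?_, ?_⟩
    · show (p : ℝ) - u + κ ≤ q - u
      linarith
    · show (q : ℝ) - u ≤ 1 - 1 / 16
      linarith
    · rw [rot_ge (p := q) rfl, rot_ge (p := p) rfl, dist_eq_norm, sub_sub_sub_cancel_right,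
        ← dist_eq_norm]
      linarith
  rcases le_or_gt u q with huq | huq
  · -- p before, q after
    rw [abs_of_neg (by linarith)] at hp
    rw [abs_of_nonneg (by linarith)] at hq
    refine ⟨⟨q - u, by linarith, by linarith⟩, ⟨p + 1 - u, by linarith, by linarith⟩, hq, ?_, ?_, ?_⟩
    · show (q : ℝ) - u + κ ≤ p + 1 - u
      linarith
    · show (p : ℝ) + 1 - u ≤ 1 - 1 / 16
      linarith
    · rw [rot_lt (p := p) rfl, rot_ge (p := q) rfl, dist_eq_norm, sub_sub_sub_cancel_right]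
      have e1 : γ p + (γ 1 - γ 0) - γ q = (γ p - γ q) + (γ 1 - γ 0) := by ring
      rw [e1]
      have e2 := norm_add_le (γ p - γ q) (γ 1 - γ 0)
      rw [← dist_eq_norm, dist_comm] at e2
      linarith
  · -- both before
    rw [abs_of_neg (by linarith)] at hp
    rw [abs_of_neg (by linarith)] at hq
    refine ⟨⟨p + 1 - u, by linarith, by linarith⟩, ⟨q + 1 - u, by linarith, by linarith⟩, ?_, ?_, ?_, ?_⟩
    · show 1 / 16 ≤ (p : ℝ) + 1 - u
      linarith
    · show (p : ℝ) + 1 - u + κ ≤ q + 1 - u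
      linarith
    · show (q : ℝ) + 1 - u ≤ 1 - 1 / 16
      linarith
    · rw [rot_lt (p := q) rfl, rot_lt (p := p) rfl, dist_eq_norm, sub_sub_sub_cancel_right, add_sub_add_right_eq_sub,
        ← dist_eq_norm]
      linarith

/-- one of the three starting times is good -/
lemma three (p q : ℝ) : (1 / 16 ≤ |p - 1 / 4| ∧ 1 / 16 ≤ |q - 1 / 4|) ∨ (1 / 16 ≤ |p - 1 / 2| ∧ 1 / 16 ≤ |q - 1 / 2|) ∨
    (1 / 16 ≤ |p - 3 / 4| ∧ 1 / 16 ≤ |q - 3 / 4|) := by
  by_contra h
  simp only [not_or, not_and_or, not_le, abs_lt] at h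
  obtain ⟨h1, h2, h3⟩ := h
  rcases h1 with h1 | h1 <;> rcases h2 with h2 | h2 <;> rcases h3 with h3 | h3 <;>
    linarith [h1.1, h1.2, h2.1, h2.2, h3.1, h3.2]

/-- **the polygons have no near double points at macroscopic distance along the loop** -/
theorem pol_ldp : ∀ ε κ : ℝ, 0 < ε → 0 < κ → ∃ δ : ℝ, 0 < δ ∧ ∃ n0 : ℕ, ∀ n : ℕ, n0 ≤ n → Odd n →
    plaw n {γ : C(unitInterval, ℂ) | ∃ p q : unitInterval, (p : ℝ) + κ ≤ q ∧ (q : ℝ) + κ ≤ p + 1 ∧ dist (γ q) (γ p) < δ} ≤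
      ENNReal.ofReal ε := by
  intro ε κ hε hκ
  obtain ⟨δ, hδ, n1, h1⟩ := pol_dp walk_dp (ε / 6) (1 / 16) κ (by positivity) (by norm_num) hκ
  obtain ⟨c0, C0, hc0, hsz⟩ := (NTSF.Mg.oneFacts NTSF.finE).sz
  have hlim : Tendsto (fun n : ℕ => size n) atTop atTop := by
    have h1 : Tendsto (fun n : ℕ => c0 * (n : ℝ) ^ (3 / 4 : ℝ)) atTop atTop :=
      ((tendsto_rpow_atTop (by norm_num : (0 : ℝ) < 3 / 4)).comp tendsto_natCast_atTop_atTop).const_mul_atTop hc0
    refine tendsto_atTop_mono' _ ?_ h1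
    filter_upwards [eventually_ge_atTop 1] with i hi
    exact (hsz _ hi).1
  obtain ⟨n2, h2⟩ := (hlim.eventually_ge_atTop (max (4 / δ) (288 / (ε * δ)))).exists_forall_of_atTop
  refine ⟨δ / 4, by positivity, n1 + n2 + 3, fun n hn ho => ?_⟩
  have hs := NTSF.size_pos (by omega : 1 ≤ n)
  have h3 := h2 n (by omega)
  have h4 : 1 / size n ≤ δ / 4 := by
    have h5 := (le_max_left _ _).trans h3
    rw [div_le_iff₀ hδ] at h5
    rw [div_le_iff₀ hs]
    linarith
  have h5 : 12 / (δ / 4 * size n) ≤ ε / 6 := by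
    have h6 := (le_max_right _ _).trans h3
    rw [div_le_iff₀ (by positivity)] at h6
    rw [div_le_iff₀ (by positivity)]
    linarith
  have h6 := h1 n (by omega) ho
  rw [LT.plaw_apply] at h6
  have h7 : pmean n (fun γ => if γ ∈ DE (1 / 16) κ δ then 1 else 0) ≤ ε / 6 := (ENNReal.ofReal_le_ofReal_iff (by positivity)).1 h6
  have h8 : ∀ u : ℝ, 0 ≤ u → u ≤ 1 → pmean n (fun γ => if rot u γ ∈ DE (1 / 16) κ (δ / 4 + δ / 4) then 1 else 0) ≤ ε / 3 := by
    intro u hu0 hu1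
    have h9 := rot_event (E := DE (1 / 16) κ (δ / 4 + δ / 4)) (E' := DE (1 / 16) κ δ) (c := δ / 4) (by positivity)
      (fun γ hγ γ' hd => by
        have := DE_thick hγ hd
        rwa [show δ / 4 + δ / 4 + 2 * (δ / 4) = δ by ring] at this) (by omega : 3 ≤ n) ho hu0 hu1
    linarith
  rw [LT.plaw_apply]
  refine ENNReal.ofReal_le_ofReal ?_
  have h9 : pmean n (fun γ => if γ ∈ LE κ (δ / 4) then 1 else 0) ≤
      pmean n (fun γ => (if rot (1 / 4) γ ∈ DE (1 / 16) κ (δ / 4 + δ / 4) then 1 else 0) +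
        ((if rot (1 / 2) γ ∈ DE (1 / 16) κ (δ / 4 + δ / 4) then 1 else 0) +
          if rot (3 / 4) γ ∈ DE (1 / 16) κ (δ / 4 + δ / 4) then 1 else 0)) := by
    refine LT.pmean_mono fun s hsp => ?_
    show (if curve s ∈ LE κ (δ / 4) then (1 : ℝ) else 0) ≤ (if rot (1 / 4) (curve s) ∈ DE (1 / 16) κ (δ / 4 + δ / 4) then 1 else 0) +
        ((if rot (1 / 2) (curve s) ∈ DE (1 / 16) κ (δ / 4 + δ / 4) then 1 else 0) +
          if rot (3 / 4) (curve s) ∈ DE (1 / 16) κ (δ / 4 + δ / 4) then 1 else 0)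
    have hnn : ∀ P : Prop, 0 ≤ (if P then (1 : ℝ) else 0) := fun P => by split_ifs <;> norm_num
    by_cases h : curve s ∈ LE κ (δ / 4)
    · rw [if_pos h]
      obtain ⟨p, q, a1, a2, a3⟩ := h
      have hg : ‖curve s 1 - curve s 0‖ ≤ δ / 4 := by
        rw [NTSF.curve_zero, sub_zero, NTSF.curve_one, norm_div, Complex.norm_of_nonneg hs.le, (Finset.mem_filter.1 hsp).2]
        exact h4
      have key : ∀ u : ℝ, 1 / 4 ≤ u → u ≤ 3 / 4 → 1 / 16 ≤ |(p : ℝ) - u| ∧ 1 / 16 ≤ |(q : ℝ) - u| →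
          rot u (curve s) ∈ DE (1 / 16) κ (δ / 4 + δ / 4) := fun u hu0 hu1 hpq =>
        rot_pair hκ hu0 hu1 hg (by positivity) a1 a2 a3 hpq.1 hpq.2
      rcases three p q with hp | hp | hp
      · rw [if_pos (key _ le_rfl (by norm_num) hp)]
        have := hnn (rot (1 / 2) (curve s) ∈ DE (1 / 16) κ (δ / 4 + δ / 4))
        have := hnn (rot (3 / 4) (curve s) ∈ DE (1 / 16) κ (δ / 4 + δ / 4))
        linarith
      · rw [if_pos (key _ (by norm_num) (by norm_num) hp)]
        have := hnn (rot (1 / 4) (curve s) ∈ DE (1 / 16) κ (δ / 4 + δ / 4))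
        have := hnn (rot (3 / 4) (curve s) ∈ DE (1 / 16) κ (δ / 4 + δ / 4))
        linarith
      · rw [if_pos (key _ (by norm_num) le_rfl hp)]
        have := hnn (rot (1 / 4) (curve s) ∈ DE (1 / 16) κ (δ / 4 + δ / 4))
        have := hnn (rot (1 / 2) (curve s) ∈ DE (1 / 16) κ (δ / 4 + δ / 4))
        linarith
    · rw [if_neg h]
      have := hnn (rot (1 / 4) (curve s) ∈ DE (1 / 16) κ (δ / 4 + δ / 4))
      have := hnn (rot (1 / 2) (curve s) ∈ DE (1 / 16) κ (δ / 4 + δ / 4))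
      have := hnn (rot (3 / 4) (curve s) ∈ DE (1 / 16) κ (δ / 4 + δ / 4))
      linarith
  rw [pmean_add', pmean_add'] at h9
  have b1 := h8 (1 / 4) (by norm_num) (by norm_num)
  have b2 := h8 (1 / 2) (by norm_num) (by norm_num)
  have b3 := h8 (3 / 4) (by norm_num) (by norm_num)
  refine h9.trans ?_
  linarith

/-- **row (l)** -/
theorem ldp : LDp := by
  intro ε κ hε hκ
  obtain ⟨δ, hδ, n0, h⟩ := pol_ldp ε κ hε hκ
  exact ⟨δ, n0, hδ, h⟩

end Pool.Agent.ROT.F
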