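import Pool.Agent.ROT.FBd

/-!
# ROT, block F1, row A6 (helper9): localisation at the time 1

* **`a6`** : `PSlow → QB → A6`.
-/

set_option autoImplicit false

open MeasureTheory Filter Topology Set

open scoped Classical

namespace Pool.Agent.ROT.F

open Pool.Agent.NTS.Res Pool.Agent.PMA Pool.Agent.PMA.Res Pool.Agent.PMA.Fp

open Pool.Agent.NPR (tr nb vb)

namespace Loc

/-! ### the tent -/

/-- the tent of the width `δ` at the time 1 -/
noncomputable def tnt (δ t : ℝ) : ℝ := max 0 (1 - |t - 1| / δ)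

lemma tnt_nonneg (δ t : ℝ) : 0 ≤ tnt δ t := le_max_left _ _

lemma tnt_le_one {δ : ℝ} (hδ : 0 < δ) (t : ℝ) : tnt δ t ≤ 1 := by
  unfold tnt
  refine max_le zero_le_one ?_
  have : 0 ≤ |t - 1| / δ := by positivity
  linarith

lemma tnt_zero {δ t : ℝ} (hδ : 0 < δ) (h : δ ≤ |t - 1|) : tnt δ t = 0 := by
  unfold tnt
  rw [max_eq_left]
  have : 1 ≤ |t - 1| / δ := by
    rw [le_div_iff₀ hδ]
    linarith
  linarith

lemma tnt_half {δ t : ℝ} (hδ : 0 < δ) (h : |t - 1| ≤ δ / 2) : 1 / 2 ≤ tnt δ t := by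
  unfold tnt
  refine le_trans ?_ (le_max_right _ _)
  have : |t - 1| / δ ≤ 1 / 2 := by
    rw [div_le_iff₀ hδ]
    linarith
  linarith

lemma tnt_cont (δ : ℝ) : Continuous (tnt δ) := by
  unfold tnt
  fun_prop

/-! ### the mean over the polygons -/

lemma pmean_abs {n : ℕ} {S T B : C(unitInterval, ℂ) → ℝ} (h : ∀ γ, |S γ - T γ| ≤ B γ) :
    |pmean n S - pmean n T| ≤ pmean n B := by
  unfold pmean
  rw [← sub_div, ← Finset.sum_sub_distrib, abs_div, abs_of_nonneg (Nat.cast_nonneg ((pol n).card) : (0 : ℝ) ≤ _)]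
  refine div_le_div_of_nonneg_right ?_ (Nat.cast_nonneg _)
  exact (Finset.abs_sum_le_sum_abs _ _).trans (Finset.sum_le_sum fun s _ => h _)

lemma pmean_add (n : ℕ) (S T : C(unitInterval, ℂ) → ℝ) : pmean n (fun γ => S γ + T γ) = pmean n S + pmean n T := by
  unfold pmean
  rw [← add_div, ← Finset.sum_add_distrib]

lemma pmean_mul (n : ℕ) (c : ℝ) (S : C(unitInterval, ℂ) → ℝ) : pmean n (fun γ => c * S γ) = c * pmean n S := by
  unfold pmean
  rw [mul_div_assoc', Finset.mul_sum]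

/-- the curves are bounded -/
lemma bnd {ε : ℝ} (hε : 0 < ε) : ∃ (R : ℝ) (n0 : ℕ), 0 < R ∧ ∀ n : ℕ, n0 ≤ n → Odd n →
    pmean n (fun γ => if R < ‖γ‖ then 1 else 0) ≤ ε := by
  obtain ⟨n0, ht⟩ := tightP
  rw [isTightMeasureSet_iff_exists_isCompact_measure_compl_le] at ht
  obtain ⟨K, hK, h⟩ := ht (ENNReal.ofReal ε) (ENNReal.ofReal_pos.2 hε)
  obtain ⟨R, hR⟩ := hK.isBounded.exists_norm_le
  refine ⟨max R 1, n0, by positivity, fun n hn ho => ?_⟩
  have h1 := h (plaw n) ⟨n, hn, ho, rfl⟩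
  have h2 : plaw n {γ | max R 1 < ‖γ‖} ≤ ENNReal.ofReal ε := by
    have hsub : {γ : C(unitInterval, ℂ) | max R 1 < ‖γ‖} ⊆ Kᶜ := fun γ hγ hc =>
      absurd (hR γ hc) (not_le.2 ((le_max_left _ _).trans_lt hγ))
    exact (measure_mono hsub).trans h1
  rw [LT.plaw_apply] at h2
  exact (ENNReal.ofReal_le_ofReal_iff hε.le).1 h2

/-- a small change of the scale -/
lemma scl {L ε : ℝ} (hL : 0 ≤ L) (hε : 0 < ε) : ∃ (δ : ℝ) (n0 : ℕ), 0 < δ ∧ ∀ n : ℕ, n0 ≤ n → Odd n → ∀ c : ℝ, |c - 1| ≤ δ →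
    ∀ S : C(unitInterval, ℂ) → ℝ, (∀ γ, |S γ| ≤ 1) → (∀ γ γ', |S γ - S γ'| ≤ L * dist γ γ') →
      |pmean n (fun γ => S (c • γ)) - pmean n S| ≤ ε := by
  obtain ⟨R, n0, hR, h⟩ := bnd (show 0 < ε / 4 by positivity)
  obtain ⟨n1, h1⟩ := LT.pmean_one
  refine ⟨ε / (2 * (L * R + 1)), max n0 n1, by positivity, fun n hn ho c hc S hS hLS => ?_⟩
  have h2 := h n ((le_max_left _ _).trans hn) ho
  have h3 := h1 n ((le_max_right _ _).trans hn) ho
  have h4 : ∀ γ : C(unitInterval, ℂ), |S (c • γ) - S γ| ≤ 2 * (if R < ‖γ‖ then 1 else 0) + ε / 2 * 1 := by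
    intro γ
    split_ifs with h5
    · have := abs_sub (S (c • γ)) (S γ)
      have := hS (c • γ)
      have := hS γ
      linarith
    · have h6 : dist (c • γ) γ ≤ |c - 1| * R := by
        have e : c • γ - γ = (c - 1) • γ := by
          ext t
          simp only [ContinuousMap.sub_apply, ContinuousMap.smul_apply, Complex.real_smul]
          push_cast
          ring
        rw [dist_eq_norm, e, norm_smul, Real.norm_eq_abs]
        exact mul_le_mul_of_nonneg_left (not_lt.1 h5) (abs_nonneg _)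
      have h7 : |c - 1| * R ≤ ε / (2 * (L * R + 1)) * R := mul_le_mul_of_nonneg_right hc hR.le
      have h8 := (hLS (c • γ) γ).trans (mul_le_mul_of_nonneg_left (h6.trans h7) hL)
      have h9 : L * (ε / (2 * (L * R + 1)) * R) ≤ ε / 2 := by
        rw [show L * (ε / (2 * (L * R + 1)) * R) = ε / 2 * (L * R / (L * R + 1)) by field_simp]
        refine mul_le_of_le_one_right (by positivity) ?_
        rw [div_le_one (by positivity)]
        linarith
      linarith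
  refine (pmean_abs h4).trans ?_
  rw [pmean_add, pmean_mul, pmean_mul, h3]
  linarith

/-- the laws change slowly -/
lemma slow (hP : PSlow) {L ε : ℝ} (hL : 0 ≤ L) (hε : 0 < ε) : ∃ (δ : ℝ) (n0 : ℕ), 0 < δ ∧ ∀ n n' : ℕ, n0 ≤ n → Odd n →
    Odd n' → |(n' : ℝ) - n| ≤ δ * n → |size n' / size n - 1| ≤ ε ∧
      ∀ S : C(unitInterval, ℂ) → ℝ, (∀ γ, |S γ| ≤ 1) → (∀ γ γ', |S γ - S γ'| ≤ L * dist γ γ') →
        |pmean n' S - pmean n S| ≤ ε := by
  obtain ⟨δ, n0, hδ, h⟩ := hP (ε / (L + 1)) (by positivity)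
  refine ⟨δ, n0, hδ, fun n n' hn ho ho' hnn => ?_⟩
  obtain ⟨h1, h2⟩ := h n n' hn ho ho' hnn
  have hle : ε / (L + 1) ≤ ε := div_le_self hε.le (by linarith)
  refine ⟨h1.trans hle, fun S hS hLS => ?_⟩
  have h3 := h2 (fun γ => 1 / (L + 1) * S γ) (fun γ => by
    rw [abs_mul, abs_of_nonneg (show (0 : ℝ) ≤ 1 / (L + 1) by positivity)]
    calc 1 / (L + 1) * |S γ| ≤ 1 * 1 := by
          refine mul_le_mul ?_ (hS γ) (abs_nonneg _) zero_le_one
          rw [div_le_one (by positivity)]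
          linarith
      _ = 1 := one_mul 1) (LipschitzWith.of_dist_le_mul fun γ γ' => by
    rw [Real.dist_eq, ← mul_sub, abs_mul, abs_of_nonneg (show (0 : ℝ) ≤ 1 / (L + 1) by positivity), NNReal.coe_one, one_mul]
    refine (mul_le_mul_of_nonneg_left (hLS γ γ') (by positivity)).trans ?_
    rw [← mul_assoc]
    refine mul_le_of_le_one_left dist_nonneg ?_
    rw [one_div, inv_mul_le_one₀ (by positivity)]
    linarith)
  rw [pmean_mul, pmean_mul, ← mul_sub, abs_mul, abs_of_nonneg (show (0 : ℝ) ≤ 1 / (L + 1) by positivity)] at h3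
  have h4 : 1 / (L + 1) * |pmean n' S - pmean n S| ≤ 1 / (L + 1) * ε := by
    refine h3.trans (le_of_eq ?_)
    ring
  exact le_of_mul_le_mul_left h4 (by positivity)

/-- the mean at the lattice scale `Nm m` over the polygons with about `m` edges -/
lemma loc (hP : PSlow) {L ε : ℝ} (hL : 0 ≤ L) (hε : 0 < ε) : ∃ (δ : ℝ) (m0 : ℕ), 0 < δ ∧ δ ≤ 1 / 2 ∧ ∀ m n : ℕ, m0 ≤ m → Odd m →
    Odd n → |(n : ℝ) - m| ≤ δ * m → ∀ H : C(unitInterval, ℂ) → ℝ, (∀ γ, |H γ| ≤ 1) → (∀ γ γ', |H γ - H γ'| ≤ L * dist γ γ') →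
      |pmn (Nm m) n H - pmean m (fun γ => (H γ + H (-γ)) / 2)| ≤ ε := by
  obtain ⟨δ1, n1, hδ1, h1⟩ := scl hL (show 0 < ε / 2 by positivity)
  obtain ⟨δ2, n2, hδ2, h2⟩ := slow hP hL (show 0 < min (ε / 2) (min (δ1 / 4) (1 / 2)) by positivity)
  obtain ⟨m3, h3⟩ := ((nm_ratio.inv₀ one_ne_zero).eventually
    (Metric.ball_mem_nhds _ (show 0 < min (δ1 / 4) (1 / 2) by positivity))).exists_forall_of_atTop
  refine ⟨min δ2 (1 / 2), max (2 * n1) (max n2 (max m3 1)), by positivity, min_le_right _ _, fun m n hm ho ho' hnm H hH hLH => ?_⟩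
  have hm1 : 2 * n1 ≤ m := (le_max_left _ _).trans hm
  have hm2 : n2 ≤ m := (le_max_left _ _).trans ((le_max_right _ _).trans hm)
  have hm3 : m3 ≤ m := (le_max_left _ _).trans ((le_max_right _ _).trans ((le_max_right _ _).trans hm))
  have hm4 : 1 ≤ m := (le_max_right _ _).trans ((le_max_right _ _).trans ((le_max_right _ _).trans hm))
  have hm0 : (0 : ℝ) < m := by exact_mod_cast hm4
  have hn1 : n1 ≤ n := by
    have h4 : (n : ℝ) - m ≥ -(1 / 2 * m) := by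
      have := (abs_le.1 hnm).1
      have h5 : min δ2 (1 / 2) * (m : ℝ) ≤ 1 / 2 * m := mul_le_mul_of_nonneg_right (min_le_right _ _) hm0.le
      linarith
    have h5 : (2 * n1 : ℝ) ≤ m := by exact_mod_cast hm1
    have h6 : (n1 : ℝ) ≤ n := by linarith
    exact_mod_cast h6
  obtain ⟨g1, g2⟩ := h2 m n hm2 ho ho' (hnm.trans (mul_le_mul_of_nonneg_right (min_le_left _ _) hm0.le))
  have g3 := h3 m hm3
  rw [inv_one, Real.dist_eq, inv_div] at g3
  have hsz : 0 < size m := NTSF.size_pos hm4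
  obtain ⟨c, hc⟩ : ∃ c : ℝ, c = size n / Nm m := ⟨_, rfl⟩
  have hcc : |c - 1| ≤ δ1 := by
    have e : c - 1 = (size n / size m - 1) * (size m / Nm m) + (size m / Nm m - 1) := by
      rw [hc]
      rcases eq_or_ne ((Nm m : ℕ) : ℝ) 0 with h0 | h0
      · rw [h0]
        simp
      · field_simp
        ring
    rw [e]
    have k1 : |size m / (Nm m : ℝ)| ≤ 2 := by
      have k2 : |size m / (Nm m : ℝ) - 1| ≤ 1 / 2 := g3.le.trans (min_le_right _ _)
      rw [abs_le] at k2 ⊢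
      constructor <;> linarith [k2.1, k2.2]
    have k2 : |size n / size m - 1| ≤ δ1 / 4 := g1.trans ((min_le_right _ _).trans (min_le_left _ _))
    have k3 : |size m / (Nm m : ℝ) - 1| ≤ δ1 / 4 := g3.le.trans (min_le_left _ _)
    calc |(size n / size m - 1) * (size m / Nm m) + (size m / Nm m - 1)|
        ≤ |(size n / size m - 1) * (size m / Nm m)| + |size m / Nm m - 1| := abs_add_le _ _
      _ ≤ δ1 / 4 * 2 + δ1 / 4 := by
          rw [abs_mul]
          exact add_le_add (mul_le_mul k2 k1 (abs_nonneg _) (by positivity)) k3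
      _ ≤ δ1 := by linarith
  obtain ⟨S, hS⟩ : ∃ S : C(unitInterval, ℂ) → ℝ, S = fun γ => (H γ + H (-γ)) / 2 := ⟨_, rfl⟩
  have hS1 : ∀ γ, |S γ| ≤ 1 := fun γ => by
    rw [hS]
    have k1 := abs_le.1 (hH γ)
    have k2 := abs_le.1 (hH (-γ))
    rw [abs_le]
    constructor <;> simp only <;> linarith [k1.1, k1.2, k2.1, k2.2]
  have hS2 : ∀ γ γ', |S γ - S γ'| ≤ L * dist γ γ' := fun γ γ' => by
    have k1 := hLH γ γ'
    have k2 := hLH (-γ) (-γ')
    rw [dist_neg_neg] at k2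
    have e : S γ - S γ' = ((H γ - H γ') + (H (-γ) - H (-γ'))) / 2 := by
      rw [hS]
      ring
    rw [e, abs_div, abs_of_pos (show (0 : ℝ) < 2 by norm_num), div_le_iff₀ (by norm_num)]
    refine (abs_add_le _ _).trans ?_
    linarith
  have f1 := h1 n hn1 ho' c hcc S hS1 hS2
  have f2 := (g2 S hS1 hS2).trans (min_le_left _ _)
  have e : pmn (Nm m) n H = pmean n (fun γ => S (c • γ)) := by
    unfold pmn
    rw [hS, hc]
    rfl
  rw [e, ← hS]
  calc |pmean n (fun γ => S (c • γ)) - pmean m S|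
      ≤ |pmean n (fun γ => S (c • γ)) - pmean n S| + |pmean n S - pmean m S| := abs_sub_le _ _ _
    _ ≤ ε / 2 + ε / 2 := add_le_add f1 f2
    _ = ε := by ring

/-! ### the weights -/

/-- the weight of the times about 1 -/
noncomputable def AA (δ : ℝ) (m : ℕ) : ℝ := ML (Nm m) fun n _ => tnt δ ((n : ℝ) / m)

lemma pmn_const {N n : ℕ} (c : ℝ) (h : pmean n (fun _ => 1) = 1) : pmn N n (fun _ => c) = c := by
  unfold pmn
  show pmean n (fun _ => (c + c) / 2) = c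
  have e : (fun _ : C(unitInterval, ℂ) => (c + c) / 2) = fun _ => c * 1 := by
    funext _
    ring
  rw [e, pmean_mul, h, mul_one]

lemma near_one {δ : ℝ} (hδ : 0 < δ) {m n : ℕ} (hm : 1 ≤ m) (h : tnt δ ((n : ℝ) / m) ≠ 0) : |(n : ℝ) - m| ≤ δ * m := by
  have hm0 : (0 : ℝ) < m := by exact_mod_cast hm
  by_contra h1
  push Not at h1
  refine h (tnt_zero hδ ?_)
  rw [show (n : ℝ) / m - 1 = ((n : ℝ) - m) / m by field_simp, abs_div, abs_of_pos hm0, le_div_iff₀ hm0]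
  exact h1.le

lemma AA_up (hQ : QB) {δ : ℝ} (hδ : 0 < δ) (hδ1 : δ ≤ 1 / 2) : ∃ (C : ℝ) (m0 : ℕ), ∀ m : ℕ, m0 ≤ m → AA δ m ≤ C := by
  obtain ⟨C, m0, hC, h⟩ := mid_t hQ (show (0 : ℝ) < 1 / 2 by norm_num)
  refine ⟨C, max m0 1, fun m hm => (ML_mono fun n γ => ?_).trans (h m ((le_max_left _ _).trans hm))⟩
  have hm1 : 1 ≤ m := (le_max_right _ _).trans hm
  have hm0 : (0 : ℝ) < m := by exact_mod_cast hm1
  show tnt δ ((n : ℝ) / m) ≤ if 1 / 2 * (m : ℝ) ≤ n then 1 else 0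
  split_ifs with h1
  · exact tnt_le_one hδ _
  · by_contra h2
    push Not at h2
    have h3 := near_one hδ hm1 h2.ne'
    have h4 := (abs_le.1 h3).1
    have h5 : δ * m ≤ 1 / 2 * m := mul_le_mul_of_nonneg_right hδ1 hm0.le
    linarith

lemma AA_low (hQ : QB) {δ : ℝ} (hδ : 0 < δ) (hδ1 : δ ≤ 1 / 2) :
    ∃ (c : ℝ) (m0 : ℕ), 0 < c ∧ ∀ m : ℕ, m0 ≤ m → Odd m → c ≤ AA δ m := by
  obtain ⟨c0, C0, n0, hc0, hq, -⟩ := hQ
  obtain ⟨c1, C1, m1, hc1, -, hN⟩ := nm_bd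
  obtain ⟨n1, h1⟩ := LT.pmean_one
  obtain ⟨m2, hm2⟩ := exists_nat_gt ((2 / c1 ^ 2) ^ 2)
  refine ⟨c1 ^ 2 * (c0 * δ / 8 * 2 ^ (-(5 / 2) : ℝ)), max n0 (max m1 (max n1 (max m2 1))), by positivity, fun m hm ho => ?_⟩
  have k0 : n0 ≤ m := (le_max_left _ _).trans hm
  have k1 : m1 ≤ m := (le_max_left _ _).trans ((le_max_right _ _).trans hm)
  have k2 : n1 ≤ m := (le_max_left _ _).trans ((le_max_right _ _).trans ((le_max_right _ _).trans hm))
  have k3 : m2 ≤ m := (le_max_left _ _).trans ((le_max_right _ _).trans ((le_max_right _ _).trans ((le_max_right _ _).trans hm)))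
  have k4 : 1 ≤ m := (le_max_right _ _).trans ((le_max_right _ _).trans ((le_max_right _ _).trans ((le_max_right _ _).trans hm)))
  have hm0 : (0 : ℝ) < m := by exact_mod_cast k4
  obtain ⟨g1, g2, -⟩ := hN m k1
  obtain ⟨k, hk⟩ : ∃ k : ℕ, k = ⌊δ * m / 4⌋₊ + 1 := ⟨_, rfl⟩
  have hk1 : δ * m / 4 ≤ k := by
    rw [hk]
    push_cast
    exact (Nat.lt_floor_add_one _).le
  have hk2 : ∀ j : ℕ, j < k → (j : ℝ) ≤ δ * m / 4 := fun j hj => by
    rw [hk] at hj
    have h2 : (j : ℝ) ≤ (⌊δ * m / 4⌋₊ : ℕ) := by exact_mod_cast Nat.lt_succ_iff.1 hj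
    exact h2.trans (Nat.floor_le (by positivity))
  have hjm : ∀ j : ℕ, j < k → 2 * (j : ℝ) ≤ m := fun j hj => by
    have h2 := hk2 j hj
    have h3 : δ * m ≤ 1 / 2 * m := mul_le_mul_of_nonneg_right hδ1 hm0.le
    linarith
  have hN2 : c1 ^ 2 * (m : ℝ) ^ (3 / 2 : ℝ) ≤ (Nm m : ℝ) ^ 2 := by
    have h2 : (m : ℝ) ^ (3 / 2 : ℝ) = ((m : ℝ) ^ (3 / 4 : ℝ)) ^ 2 := by
      rw [← Real.rpow_natCast, ← Real.rpow_mul hm0.le]
      norm_num
    rw [h2, ← mul_pow]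
    exact pow_le_pow_left₀ (by positivity) g2 2
  have hlt : 2 * (m : ℝ) < (Nm m : ℝ) ^ 2 := by
    refine lt_of_lt_of_le ?_ hN2
    have h2 : (m : ℝ) ^ (3 / 2 : ℝ) = (m : ℝ) ^ (1 / 2 : ℝ) * m := by
      rw [← Real.rpow_add_one hm0.ne']
      norm_num
    have h3 : 2 / c1 ^ 2 < (m : ℝ) ^ (1 / 2 : ℝ) := by
      rw [← Real.sqrt_eq_rpow]
      refine Real.lt_sqrt_of_sq_lt ?_
      exact hm2.trans_le (by exact_mod_cast k3)
    rw [h2, ← mul_assoc]
    refine mul_lt_mul_of_pos_right ?_ hm0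
    rwa [div_lt_iff₀ (by positivity), mul_comm] at h3
  have hterm : ∀ j ∈ Finset.range k, c0 * (2 * (m : ℝ)) ^ (-(5 / 2) : ℝ) * (1 / 2) ≤
      qn (m + 2 * j) * pmn (Nm m) (m + 2 * j) (fun _ => tnt δ (((m + 2 * j : ℕ) : ℝ) / m)) := by
    intro j hj
    have hj' := Finset.mem_range.1 hj
    have ho2 : Odd (m + 2 * j) := ho.add_even (even_two_mul j)
    have hc : ((m + 2 * j : ℕ) : ℝ) = m + 2 * j := by push_cast; ring
    rw [pmn_const _ (h1 (m + 2 * j) (by omega) ho2)]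
    refine mul_le_mul ?_ ?_ (by norm_num) (qn_nonneg _)
    · refine le_trans (mul_le_mul_of_nonneg_left ?_ hc0.le) (hq (m + 2 * j) (by omega) ho2)
      refine Real.rpow_le_rpow_of_nonpos (by rw [hc]; positivity) ?_ (by norm_num)
      rw [hc]
      have := hjm j hj'
      linarith
    · refine tnt_half hδ ?_
      rw [hc, show ((m : ℝ) + 2 * j) / m - 1 = 2 * j / m by field_simp; ring, abs_of_nonneg (by positivity), div_le_iff₀ hm0]
      have := hk2 j hj'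
      linarith
  have hsub : (Finset.range k).image (fun j => m + 2 * j) ⊆ Finset.range (Nm m ^ 2) := by
    intro n hn
    obtain ⟨j, hj, rfl⟩ := Finset.mem_image.1 hn
    rw [Finset.mem_range] at hj ⊢
    have h2 := hjm j hj
    have h3 : ((m + 2 * j : ℕ) : ℝ) < ((Nm m ^ 2 : ℕ) : ℝ) := by
      push_cast
      linarith
    exact_mod_cast h3
  have hsum : (k : ℝ) * (c0 * (2 * (m : ℝ)) ^ (-(5 / 2) : ℝ) * (1 / 2)) ≤
      ∑ n ∈ Finset.range (Nm m ^ 2), qn n * pmn (Nm m) n (fun _ => tnt δ ((n : ℝ) / m)) := by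
    refine le_trans ?_ (Finset.sum_le_sum_of_subset_of_nonneg hsub fun n _ _ => mul_nonneg (qn_nonneg n)
      (pmn_nonneg fun _ => tnt_nonneg _ _))
    rw [Finset.sum_image fun a _ b _ hab => by
      have : m + 2 * a = m + 2 * b := hab
      omega]
    refine le_trans (le_of_eq ?_) (Finset.sum_le_sum hterm)
    rw [Finset.sum_const, nsmul_eq_mul, Finset.card_range]
  have e : (2 * (m : ℝ)) ^ (-(5 / 2) : ℝ) = 2 ^ (-(5 / 2) : ℝ) * (m : ℝ) ^ (-(5 / 2) : ℝ) := Real.mul_rpow (by norm_num) hm0.le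
  have e2 : (m : ℝ) ^ (3 / 2 : ℝ) * (m * (m : ℝ) ^ (-(5 / 2) : ℝ)) = 1 := by
    rw [← Real.rpow_one_add' hm0.le (by norm_num), ← Real.rpow_add hm0]
    norm_num
  unfold AA ML
  calc c1 ^ 2 * (c0 * δ / 8 * 2 ^ (-(5 / 2) : ℝ))
      = c1 ^ 2 * (c0 * δ / 8 * 2 ^ (-(5 / 2) : ℝ)) * ((m : ℝ) ^ (3 / 2 : ℝ) * (m * (m : ℝ) ^ (-(5 / 2) : ℝ))) := by
        rw [e2, mul_one]
    _ = c1 ^ 2 * (m : ℝ) ^ (3 / 2 : ℝ) * (δ * m / 4 * (c0 * (2 * (m : ℝ)) ^ (-(5 / 2) : ℝ) * (1 / 2))) := by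
        rw [e]
        ring
    _ ≤ (Nm m : ℝ) ^ 2 * ((k : ℝ) * (c0 * (2 * (m : ℝ)) ^ (-(5 / 2) : ℝ) * (1 / 2))) := by
        refine mul_le_mul hN2 ?_ (by positivity) (by positivity)
        exact mul_le_mul_of_nonneg_right hk1 (by positivity)
    _ ≤ _ := mul_le_mul_of_nonneg_left hsum (sq_nonneg _)

/-! ### the main estimate -/

lemma est (hP : PSlow) {r ε : ℝ} (hr : 0 < r) (hε : 0 < ε) : ∃ (δ : ℝ) (m0 : ℕ), 0 < δ ∧ δ ≤ 1 / 2 ∧ ∀ m : ℕ, m0 ≤ m →
    Odd m → ∀ F : C(unitInterval, ℂ) → ℝ, (∀ γ, |F γ| ≤ 1) → LipschitzWith 4 F →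
      |ML (Nm m) (fun n γ => chi r (dm γ) * (tnt δ ((n : ℝ) / m) * F γ)) -
        AA δ m * pmean m (fun γ => chi r (dm γ) * ((F γ + F (-γ)) / 2))| ≤ ε * AA δ m := by
  obtain ⟨δ, m0, hδ, hδ1, h⟩ := loc hP (L := 4 + 2 / r) (by positivity) hε
  obtain ⟨n1, h1⟩ := LT.pmean_one
  refine ⟨δ, max m0 (max (2 * n1) 1), hδ, hδ1, fun m hm ho F hF hL => ?_⟩
  have k0 : m0 ≤ m := (le_max_left _ _).trans hm
  have k1 : 2 * n1 ≤ m := (le_max_left _ _).trans ((le_max_right _ _).trans hm)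
  have k2 : 1 ≤ m := (le_max_right _ _).trans ((le_max_right _ _).trans hm)
  have hm0 : (0 : ℝ) < m := by exact_mod_cast k2
  obtain ⟨H, hH⟩ : ∃ H : C(unitInterval, ℂ) → ℝ, H = fun γ => chi r (dm γ) * F γ := ⟨_, rfl⟩
  have hH1 : ∀ γ, |H γ| ≤ 1 := fun γ => by
    rw [hH]
    show |chi r (dm γ) * F γ| ≤ 1
    rw [abs_mul, abs_of_nonneg (chi_nonneg _ _)]
    exact mul_le_one₀ (chi_le_one _ _) (abs_nonneg _) (hF γ)
  have hH2 : ∀ γ γ', |H γ - H γ'| ≤ (4 + 2 / r) * dist γ γ' := fun γ γ' => by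
    rw [hH]
    show |chi r (dm γ) * F γ - chi r (dm γ') * F γ'| ≤ _
    have e : chi r (dm γ) * F γ - chi r (dm γ') * F γ' = chi r (dm γ) * (F γ - F γ') + (chi r (dm γ) - chi r (dm γ')) * F γ' := by
      ring
    have f1 : |F γ - F γ'| ≤ 4 * dist γ γ' := by
      have := hL.dist_le_mul γ γ'
      rwa [Real.dist_eq] at this
    have f2 : |chi r (dm γ) - chi r (dm γ')| ≤ 2 * dist γ γ' / r :=
      (chi_lip hr _ _).trans (div_le_div_of_nonneg_right (dm_lip γ γ') hr.le)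
    rw [e]
    refine (abs_add_le _ _).trans ?_
    rw [abs_mul, abs_mul, abs_of_nonneg (chi_nonneg _ _)]
    calc chi r (dm γ) * |F γ - F γ'| + |chi r (dm γ) - chi r (dm γ')| * |F γ'|
        ≤ 1 * (4 * dist γ γ') + 2 * dist γ γ' / r * 1 := by
          refine add_le_add (mul_le_mul (chi_le_one _ _) f1 (abs_nonneg _) zero_le_one)
            (mul_le_mul f2 (hF γ') (abs_nonneg _) (by positivity))
      _ = (4 + 2 / r) * dist γ γ' := by ring
  obtain ⟨Q, hQ⟩ : ∃ Q : ℝ, Q = pmean m (fun γ => chi r (dm γ) * ((F γ + F (-γ)) / 2)) := ⟨_, rfl⟩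
  have hQ' : pmean m (fun γ => (H γ + H (-γ)) / 2) = Q := by
    rw [hQ, hH]
    congr 1
    funext γ
    simp only [dm_neg]
    ring
  have key : ∀ n : ℕ, |qn n * pmn (Nm m) n (fun γ => chi r (dm γ) * (tnt δ ((n : ℝ) / m) * F γ)) -
      qn n * pmn (Nm m) n (fun _ => tnt δ ((n : ℝ) / m)) * Q| ≤ ε * (qn n * pmn (Nm m) n (fun _ => tnt δ ((n : ℝ) / m))) := by
    intro n
    by_cases hn : Odd n ∧ 3 ≤ n
    swap
    · have e : qn n = 0 := by
        unfold qn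
        rw [if_neg hn]
      rw [e]
      simp
    have e1 : pmn (Nm m) n (fun γ => chi r (dm γ) * (tnt δ ((n : ℝ) / m) * F γ)) = tnt δ ((n : ℝ) / m) * pmn (Nm m) n H := by
      rw [← pmn_mul, hH]
      congr 1
      funext γ
      ring
    rw [e1]
    by_cases ht : tnt δ ((n : ℝ) / m) = 0
    · rw [ht]
      have e2 : pmn (Nm m) n (fun _ => (0 : ℝ)) = 0 := by
        unfold pmn pmean
        simp
      rw [e2]
      simp
    · have h2 := near_one hδ k2 ht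
      have hn1 : n1 ≤ n := by
        have h4 := (abs_le.1 h2).1
        have h5 : δ * (m : ℝ) ≤ 1 / 2 * m := mul_le_mul_of_nonneg_right hδ1 hm0.le
        have h6 : (2 * n1 : ℝ) ≤ m := by exact_mod_cast k1
        have h7 : (n1 : ℝ) ≤ n := by linarith
        exact_mod_cast h7
      rw [pmn_const _ (h1 n hn1 hn.1)]
      have h3 := h m n k0 ho hn.1 h2 H hH1 hH2
      rw [hQ'] at h3
      rw [show qn n * (tnt δ ((n : ℝ) / m) * pmn (Nm m) n H) - qn n * tnt δ ((n : ℝ) / m) * Q =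
        qn n * tnt δ ((n : ℝ) / m) * (pmn (Nm m) n H - Q) by ring, abs_mul,
        abs_of_nonneg (mul_nonneg (qn_nonneg n) (tnt_nonneg _ _)), mul_comm ε]
      exact mul_le_mul_of_nonneg_left h3 (mul_nonneg (qn_nonneg n) (tnt_nonneg _ _))
  rw [← hQ]
  unfold AA ML
  rw [mul_assoc, ← mul_sub, abs_mul, abs_of_nonneg (sq_nonneg _), mul_left_comm ε]
  refine mul_le_mul_of_nonneg_left ?_ (sq_nonneg _)
  rw [Finset.sum_mul, ← Finset.sum_sub_distrib, Finset.mul_sum]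
  exact (Finset.abs_sum_le_sum_abs _ _).trans (Finset.sum_le_sum fun n _ => key n)

end Loc

open Loc

/-- **row A6**: localisation at the time 1 -/
theorem a6 (hP : PSlow) (hQ : QB) : A6 := by
  intro r M0 φ P hI π hπ ε hε
  have := hI.prob
  obtain ⟨δ, m0, hδ, hδ1, h⟩ := est hP hI.rp hε
  obtain ⟨C, m1, hC⟩ := AA_up hQ hδ hδ1
  obtain ⟨c, m2, hc, hc'⟩ := AA_low hQ hδ hδ1
  obtain ⟨k0, hk0⟩ := (hI.top.eventually_ge_atTop (max m1 m2)).exists_forall_of_atTop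
  have hmem : ∀ k : ℕ, AA δ (φ (k + k0)) ∈ Icc c C := fun k => by
    have h1 := hk0 (k + k0) (Nat.le_add_left _ _)
    exact ⟨hc' _ ((le_max_right _ _).trans h1) (hI.odd _), hC _ ((le_max_left _ _).trans h1)⟩
  obtain ⟨A0, hA0, ψ, hψ, hlim⟩ := isCompact_Icc.tendsto_subseq hmem
  have hA0' : 0 < A0 := hc.trans_le hA0.1
  have hM := hI.Mp
  refine ⟨tnt δ, A0 / M0, tnt_cont δ, fun t => ⟨tnt_nonneg _ _, tnt_le_one hδ _⟩, fun t ht => tnt_zero hδ ?_, by positivity,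
    fun F hF hL => ?_⟩
  · rw [abs_of_nonpos (by linarith)]
    linarith
  obtain ⟨θ, hθ⟩ : ∃ θ : ℕ → ℕ, θ = fun k => ψ k + k0 := ⟨_, rfl⟩
  have hθt : Tendsto θ atTop atTop := by
    rw [hθ]
    exact tendsto_atTop_mono (fun k => Nat.le_add_right _ _) hψ.tendsto_atTop
  -- the limit of the left side
  obtain ⟨f, hf⟩ : ∃ f : BoundedContinuousFunction XX ℝ, ∀ x, f x = tnt δ x.1 * F x.2 :=
    ⟨BoundedContinuousFunction.ofNormedAddCommGroup (fun x : XX => tnt δ x.1 * F x.2)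
      (((tnt_cont δ).comp continuous_fst).mul (hL.continuous.comp continuous_snd)) 1 fun x => by
        rw [Real.norm_eq_abs, abs_mul, abs_of_nonneg (tnt_nonneg _ _)]
        exact mul_le_one₀ (tnt_le_one hδ _) (abs_nonneg _) (hF _), fun _ => rfl⟩
  have l1 := (hI.lim f).comp hθt
  simp only [hf] at l1
  have hMs := hθt.eventually (hI.top.eventually (nm_top.eventually hI.mss))
  have l2 : Tendsto (fun k => 1 / M0 * ML (Nm (φ (θ k))) (fun n γ => chi r (dm γ) * (tnt δ ((n : ℝ) / φ (θ k)) * F γ))) atTop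
      (𝓝 (∫ x, tnt δ x.1 * F x.2 ∂P)) := by
    refine l1.congr' ?_
    filter_upwards [hMs] with k hk
    show ∫ x, tnt δ x.1 * F x.2 ∂(Pme M0 (Nm (φ (θ k))) (φ (θ k)) r) = _
    rw [pme_int hM hk]
    have e : tnt δ (at0 : XX).1 = 0 := tnt_zero hδ (by
      show δ ≤ |(-1 : ℝ) - 1|
      norm_num
      linarith)
    show 1 / M0 * (ML _ (fun n γ => chi r (dm γ) * (tnt δ ((n : ℝ) / φ (θ k)) * F γ)) + (M0 - Mss _ r) * (tnt δ (at0 : XX).1 * F (at0 : XX).2)) = _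
    rw [e, zero_mul, mul_zero, add_zero]
  -- the limit of the right side
  obtain ⟨g, hg⟩ : ∃ g : BoundedContinuousFunction C(unitInterval, ℂ) ℝ, ∀ γ, g γ = chi r (dm γ) * ((F γ + F (-γ)) / 2) :=
    ⟨BoundedContinuousFunction.ofNormedAddCommGroup (fun γ => chi r (dm γ) * ((F γ + F (-γ)) / 2))
      ((chi_cont.comp dm_cont).mul ((hL.continuous.add (hL.continuous.comp continuous_neg)).div_const 2)) 1 fun γ => by
        rw [Real.norm_eq_abs, abs_mul, abs_of_nonneg (chi_nonneg _ _)]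
        refine mul_le_one₀ (chi_le_one _ _) (abs_nonneg _) ?_
        have f1 := abs_le.1 (hF γ)
        have f2 := abs_le.1 (hF (-γ))
        rw [abs_le]
        constructor <;> linarith [f1.1, f1.2, f2.1, f2.2], fun _ => rfl⟩
  have l3 := (hπ g).comp hθt
  simp only [hg] at l3
  have l3' : Tendsto (fun k => pmean (φ (θ k)) (fun γ => chi r (dm γ) * ((F γ + F (-γ)) / 2))) atTop
      (𝓝 (∫ γ, chi r (dm γ) * ((F γ + F (-γ)) / 2) ∂(π : Measure C(unitInterval, ℂ)))) :=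
    l3.congr fun k => plaw_int' _ _
  have l4 : Tendsto (fun k => AA δ (φ (θ k))) atTop (𝓝 A0) := by
    refine hlim.congr fun k => ?_
    rw [hθ]
    rfl
  have l5 := (l2.sub (((l4.div_const M0)).mul l3')).abs
  have l6 := (l4.div_const M0).const_mul ε
  refine le_of_tendsto_of_tendsto l5 l6 ?_
  filter_upwards [hθt.eventually (hI.top.eventually_ge_atTop m0)] with k hk
  have h1 := h (φ (θ k)) hk (hI.odd _) F hF hL
  rw [show 1 / M0 * ML (Nm (φ (θ k))) (fun n γ => chi r (dm γ) * (tnt δ ((n : ℝ) / φ (θ k)) * F γ)) -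
      AA δ (φ (θ k)) / M0 * pmean (φ (θ k)) (fun γ => chi r (dm γ) * ((F γ + F (-γ)) / 2)) =
    (ML (Nm (φ (θ k))) (fun n γ => chi r (dm γ) * (tnt δ ((n : ℝ) / φ (θ k)) * F γ)) -
      AA δ (φ (θ k)) * pmean (φ (θ k)) (fun γ => chi r (dm γ) * ((F γ + F (-γ)) / 2))) / M0 by ring, abs_div,
    abs_of_pos hM, mul_div_assoc']
  exact div_le_div_of_nonneg_right h1 hM.le

end Pool.Agent.ROT.F
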