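import Pool.Agent.PMA.LimS
import Pool.Agent.ROT.FLit

/-!
# ROT, block F1, row (r) (helper68): the law of the polygons is invariant under the reversal of time

`rvc γ u = γ 1 - γ (1 - u)`.  **`pol_rev`** : exactly, for every odd number of steps; `pi_rvc` : for the limits;
**`prev : PRev`**.
-/

set_option autoImplicit false

open MeasureTheory Filter Topology Finset

open scoped Classical

namespace Pool.Agent.ROT.F

open Pool.Agent.PMA Pool.Agent.PMA.Res Pool.Agent.NTS.Res

/-- the reversed walk -/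
def rvs {n : ℕ} (s : Fin n → Fin 3) : Fin n → Fin 3 := fun i => s (Fin.rev i)

theorem rvs_rvs {n : ℕ} (s : Fin n → Fin 3) : rvs (rvs s) = s := by
  funext i
  unfold rvs
  rw [Fin.rev_rev]

variable {n : ℕ}

theorem step_rev (ho : Odd n) (i : Fin n) (a : Fin 3) : step ((Fin.rev i : Fin n) : ℕ) a = step (i : ℕ) a := by
  unfold step
  congr 1
  have h1 : ((Fin.rev i : Fin n) : ℕ) + (i : ℕ) = n - 1 := by
    rw [Fin.val_rev]
    omega
  obtain ⟨m, hm⟩ := ho
  have h2 : (-1 : ℂ) ^ ((Fin.rev i : Fin n) : ℕ) * (-1 : ℂ) ^ (i : ℕ) = 1 := by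
    rw [← pow_add, h1, hm, Nat.add_sub_cancel, pow_mul]
    norm_num
  have h3 : (-1 : ℂ) ^ (i : ℕ) * (-1 : ℂ) ^ (i : ℕ) = 1 := by
    rw [← pow_add, ← two_mul, pow_mul]
    norm_num
  have h4 : (-1 : ℂ) ^ (i : ℕ) ≠ 0 := pow_ne_zero _ (by norm_num)
  exact mul_right_cancel₀ h4 (h2.trans h3.symm)

theorem pos_rvs (ho : Odd n) (s : Fin n → Fin 3) {k : ℕ} (hk : k ≤ n) :
    pos (rvs s) k = pos s n - pos s (n - k) := by
  unfold pos
  rw [eq_sub_iff_add_eq]
  have e1 : ∑ i ∈ univ.filter (fun i : Fin n => (i : ℕ) < k), step (i : ℕ) (rvs s i) =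
      ∑ i ∈ univ.filter (fun i : Fin n => ¬(i : ℕ) < n - k), step (i : ℕ) (s i) := by
    refine Finset.sum_nbij' Fin.rev Fin.rev ?_ ?_ (fun i _ => Fin.rev_rev i) (fun i _ => Fin.rev_rev i) ?_
    · intro i hi
      rw [mem_filter] at hi ⊢
      refine ⟨mem_univ _, ?_⟩
      rw [Fin.val_rev]
      omega
    · intro i hi
      rw [mem_filter] at hi ⊢
      refine ⟨mem_univ _, ?_⟩
      rw [Fin.val_rev]
      omega
    · intro i _
      change step (i : ℕ) (s (Fin.rev i)) = step ((Fin.rev i : Fin n) : ℕ) (s (Fin.rev i))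
      rw [step_rev ho]
  rw [e1, add_comm, Finset.sum_filter_add_sum_filter_not]
  refine (Finset.sum_congr ?_ fun _ _ => rfl).symm
  ext i
  simp

theorem pos_rvs_n (ho : Odd n) (s : Fin n → Fin 3) : pos (rvs s) n = pos s n := by
  rw [pos_rvs ho s le_rfl, Nat.sub_self]
  have : pos s 0 = 0 := by
    unfold pos
    simp
  rw [this, sub_zero]

theorem rvs_saw (ho : Odd n) {s : Fin n → Fin 3} (h : s ∈ saw n) : rvs s ∈ saw n := by
  unfold saw at h ⊢
  rw [mem_filter] at h ⊢
  refine ⟨mem_univ _, fun j k hj hk e => ?_⟩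
  rw [pos_rvs ho s hj, pos_rvs ho s hk] at e
  have := h.2 (n - j) (n - k) (by omega) (by omega) (sub_right_injective e)
  omega

theorem rvs_pol (ho : Odd n) {s : Fin n → Fin 3} (h : s ∈ pol n) : rvs s ∈ pol n := by
  unfold pol at h ⊢
  rw [mem_filter] at h ⊢
  exact ⟨rvs_saw ho h.1, by rw [pos_rvs_n ho]; exact h.2⟩

/-- the reversal of time -/
noncomputable def rvc (γ : C(unitInterval, ℂ)) : C(unitInterval, ℂ) where
  toFun u := γ 1 - γ (unitInterval.symm u)
  continuous_toFun := by fun_prop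

theorem clamp (x : ℝ) : max 0 (min 1 (1 - x)) = 1 - max 0 (min 1 x) := by
  rcases le_total x 0 with h | h
  · rw [min_eq_left (by linarith : (1 : ℝ) ≤ 1 - x), max_eq_right zero_le_one, min_eq_right (by linarith : x ≤ 1),
      max_eq_left h, sub_zero]
  · rcases le_total x 1 with h' | h'
    · rw [min_eq_right (by linarith : 1 - x ≤ 1), max_eq_right (by linarith : 0 ≤ 1 - x), min_eq_right h', max_eq_right h]
    · rw [min_eq_right (by linarith : 1 - x ≤ 1), max_eq_left (by linarith : 1 - x ≤ 0), min_eq_left h',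
        max_eq_right zero_le_one, sub_self]

theorem curve_rvs (ho : Odd n) (s : Fin n → Fin 3) : curve (rvs s) = rvc (curve s) := by
  ext u
  change ∑ k ∈ range n, ((max 0 (min 1 ((u : ℝ) * n - k)) : ℝ) : ℂ) * ((pos (rvs s) (k + 1) - pos (rvs s) k) / size n) =
    (∑ k ∈ range n, ((max 0 (min 1 (((1 : unitInterval) : ℝ) * n - k)) : ℝ) : ℂ) * ((pos s (k + 1) - pos s k) / size n)) -
      ∑ k ∈ range n, ((max 0 (min 1 (((unitInterval.symm u : unitInterval) : ℝ) * n - k)) : ℝ) : ℂ) *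
        ((pos s (k + 1) - pos s k) / size n)
  rw [← Finset.sum_sub_distrib, ← Finset.sum_range_reflect]
  refine Finset.sum_congr rfl fun k hk => ?_
  rw [mem_range] at hk
  have h1 : n - 1 - k + 1 ≤ n := by omega
  rw [pos_rvs ho s h1, pos_rvs ho s (by omega), show n - (n - 1 - k + 1) = k by omega,
    show n - (n - 1 - k) = k + 1 by omega]
  have h2 : ((n - 1 - k : ℕ) : ℝ) = (n : ℝ) - 1 - k := by
    rw [Nat.cast_sub (by omega), Nat.cast_sub (by omega)]
    push_cast
    ring
  have h3 : max 0 (min 1 (((1 : unitInterval) : ℝ) * n - k)) = (1 : ℝ) := by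
    have : (1 : ℝ) ≤ ((1 : unitInterval) : ℝ) * n - k := by
      rw [Set.Icc.coe_one, one_mul]
      have : ((k + 1 : ℕ) : ℝ) ≤ n := by exact_mod_cast hk
      push_cast at this
      linarith
    rw [min_eq_left this, max_eq_right zero_le_one]
  have h4 : (u : ℝ) * n - ((n - 1 - k : ℕ) : ℝ) = 1 - (((unitInterval.symm u : unitInterval) : ℝ) * n - k) := by
    rw [h2, unitInterval.coe_symm_eq]
    ring
  rw [h3, h4, clamp]
  push_cast
  ring

/-- **the polygons are invariant under the reversal of time** -/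
theorem pol_rev (ho : Odd n) (F : C(unitInterval, ℂ) → ℝ) : pmean n (fun γ => F (rvc γ)) = pmean n F := by
  unfold pmean
  congr 1
  refine Finset.sum_nbij' rvs rvs (fun s hs => rvs_pol ho hs) (fun s hs => rvs_pol ho hs) (fun s _ => rvs_rvs s)
    (fun s _ => rvs_rvs s) fun s _ => ?_
  rw [curve_rvs ho]

theorem rvc_lip : LipschitzWith 2 rvc := by
  refine LipschitzWith.of_dist_le_mul fun γ γ' => ?_
  rw [ContinuousMap.dist_le (by positivity)]
  intro u
  change dist (γ 1 - γ (unitInterval.symm u)) (γ' 1 - γ' (unitInterval.symm u)) ≤ _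
  have h1 := ContinuousMap.dist_apply_le_dist (f := γ) (g := γ') 1
  have h2 := ContinuousMap.dist_apply_le_dist (f := γ) (g := γ') (unitInterval.symm u)
  have h3 := dist_sub_sub_le (γ 1) (γ (unitInterval.symm u)) (γ' 1) (γ' (unitInterval.symm u))
  refine h3.trans ?_
  have : ((2 : NNReal) : ℝ) = 2 := rfl
  rw [this]
  linarith

variable {π : Measure C(unitInterval, ℂ)} {φ : ℕ → ℕ}

/-- the limits of the polygons are invariant under `γ ↦ γ 1 - γ (1 - ·)` -/
theorem pi_rvc (hπ : IsProbabilityMeasure π) (hφ : Tendsto φ atTop atTop) (ho : ∀ k, Odd (φ k))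
    (h : ∀ F : C(unitInterval, ℂ) → ℝ, (∀ γ, |F γ| ≤ 1) → LipschitzWith 1 F →
      Tendsto (fun k => pmean (φ k) F) atTop (𝓝 (∫ γ, F γ ∂π))) : π.map rvc = π :=
  LimS.pi_inv hπ hφ ho h rvc_lip (by norm_num) (C := 0) fun F _ n _ h1 => by
    rw [pol_rev h1, sub_self, abs_zero, zero_div]

/-- **row (r)** -/
theorem prev : PRev := by
  intro φ π hφ ho h
  have hm : Measurable fun γ : C(unitInterval, ℂ) => -γ := continuous_neg.measurable
  have e : rv0 = (fun γ : C(unitInterval, ℂ) => -γ) ∘ rvc := by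
    funext γ
    ext u
    change γ (unitInterval.symm u) - γ 1 = -(γ 1 - γ (unitInterval.symm u))
    rw [neg_sub]
  have h' := fun (F : C(unitInterval, ℂ) → ℝ) hF hL => Fp.pmean_to h F hF hL
  have e1 := pi_rvc π.2 hφ ho h'
  have e2 := pi_neg π.2 hφ ho h'
  rw [e, ← Measure.map_map hm rvc_lip.continuous.measurable]
  exact (congrArg (Measure.map fun γ : C(unitInterval, ℂ) => -γ) e1).trans e2

end Pool.Agent.ROT.F
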