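import Pool.Agent.ROT.FRotB
import Pool.Agent.ROT.NMass

/-!
# ROT, block F1, row (c) (helper70): **`rotN_of : RotM → RotN`**

* `ML_aw` : `ML` as a sum over the closed words;
* `ml_mt` : `ML N (F (tr γ)) - MT N (ext F) → 0`.
-/

set_option autoImplicit false

open MeasureTheory Filter Topology Set

open scoped Classical

namespace Pool.Agent.ROT.I.FR

open Pool.Agent.PMA Pool.Agent.PMA.Res Pool.Agent.NTS.Res Pool.Agent.ROT.F

open HexObs hiding pos

open HexObs.TIW HexObs.POLP NTSF NTSF.Mg NTF Pool.Agent.TSW.BP HexObs.MCP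

open scoped ENNReal

/-- the contribution of the polygons with `n + 1` edges -/
noncomputable def aw (F : TopologicalSpace.NonemptyCompacts ℂ → ℝ) (N n : ℕ) : ℝ :=
  if Odd n ∧ 3 ≤ n then HexObs.xc ^ (n + 1) / (2 * ((n + 1 : ℕ) : ℝ)) *
    ∑ t ∈ cy (n + 1), ∑ s : E.Hx.Sx, F (NPR.tr (pc N n (ze s) t)) else 0

theorem ML_aw (F : TopologicalSpace.NonemptyCompacts ℂ → ℝ) (N : ℕ) :
    ML N (fun _ γ => F (NPR.tr γ)) = (N : ℝ) ^ 2 * ∑ n ∈ Finset.range (N ^ 2), aw F N n := by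
  unfold ML
  congr 1
  refine Finset.sum_congr rfl fun n _ => ?_
  unfold aw
  split_ifs with h
  · rw [pmn_w h.2 h.1 N fun γ => F (NPR.tr γ)]
    congr 1
    refine Finset.sum_congr rfl fun t _ => ?_
    exact (six fun c => F (NPR.tr (pc N n c t))).symm
  · unfold qn
    rw [if_neg h, zero_mul]

theorem cy_empty {n : ℕ} (h : ¬ (Odd n ∧ 3 ≤ n)) : cy (n + 1) = ∅ := by
  rw [Finset.eq_empty_iff_forall_notMem]
  intro t ht
  have hc := (mem_cy.1 ht).2.1
  have h1 := (par_class t (n + 1)).1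
  rw [hc] at h1
  by_cases ho : Odd n
  · have h3 : n = 1 := by
      have : ¬ 3 ≤ n := fun h3 => h ⟨ho, h3⟩
      obtain ⟨k, rfl⟩ := ho
      omega
    subst h3
    have e0 : dx up t 0 = up := rfl
    have e1 : vx oo up t 1 = vx oo up t 0 + dx up t 0 := rfl
    have e2 : vx oo up t 2 = vx oo up t 1 + dx up t 1 := rfl
    have e3 : dx up t 1 = turn (tf t 0) (dx up t 0) := rfl
    have e4 : vx oo up t 0 = oo := rfl
    have hc' : vx oo up t 2 = oo := hc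
    rw [e2, e1, e3, e4, e0] at hc'
    revert hc'
    cases tf t 0
    · decide
    · decide
  · rw [if_neg (by rw [Nat.even_add_one]; exact not_not.2 (Nat.not_odd_iff_even.1 ho))] at h1
    revert h1
    decide

theorem gf_fin (n : ℕ) (P : List Bool → Prop) :
    gf {t | t ∈ POL.Cy n ∧ P t} = ENNReal.ofReal (HexObs.xc ^ n * ((cy n).filter P).card) := by
  have h1 : {t | t ∈ POL.Cy n ∧ P t} = (((cy n).filter P : Finset (List Bool)) : Set (List Bool)) := by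
    ext t
    rw [Finset.mem_coe, Finset.mem_filter, mem_cy]
    rfl
  rw [h1]
  unfold gf
  rw [Finset.tsum_subtype' ((cy n).filter P) fun t => wE t]
  have h2 : ∀ t ∈ (cy n).filter P, wE t = ENNReal.ofReal (HexObs.xc ^ n) := by
    intro t ht
    unfold wE
    rw [cy_len (Finset.mem_filter.1 ht).1]
  rw [Finset.sum_congr rfl h2, Finset.sum_const, nsmul_eq_mul, mul_comm, ENNReal.ofReal_mul (xc_nn n), ENNReal.ofReal_natCast]

/-- **one length** -/
theorem bw_aw {F : TopologicalSpace.NonemptyCompacts ℂ → ℝ} {C L r : ℝ} (hr : 0 < r) (hF : TC F C L r) {N : ℕ} (hN : 0 < N)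
    (hNr : 4 / r < N) (n : ℕ) : |bw N (ext F) (n + 1) - aw F N n| ≤
      6 * |L| / N * (ENNReal.ofReal (1 / ((n + 1 : ℕ) : ℝ)) * gf (NK.DU (n + 1) (r * N / 2))).toReal := by
  have hN0 : (0 : ℝ) < N := by exact_mod_cast hN
  by_cases h : Odd n ∧ 3 ≤ n
  · have hn : 1 ≤ n := by omega
    unfold bw aw bS
    rw [if_pos h, ← mul_sub, ← Finset.sum_sub_distrib]
    have h0 : 0 ≤ HexObs.xc ^ (n + 1) / (2 * ((n + 1 : ℕ) : ℝ)) := div_nonneg (xc_nn _) (by positivity)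
    rw [abs_mul, abs_of_nonneg h0]
    have hc : (Finset.univ : Finset E.Hx.Sx).card = 6 := rfl
    have h1 : |∑ t ∈ cy (n + 1), (∑ s : E.Hx.Sx, ext F (trc N (E.Hx.lpw (0, s) t)) - ∑ s : E.Hx.Sx, F (NPR.tr (pc N n (ze s) t)))| ≤
        ((cy (n + 1)).filter fun t => t ∈ NK.DU (n + 1) (r * N / 2)).card * (6 * (|L| * (2 / N))) := by
      refine (Finset.abs_sum_le_sum_abs _ _).trans ?_
      rw [Finset.card_filter]
      push_cast
      rw [Finset.sum_mul]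
      refine Finset.sum_le_sum fun t ht => ?_
      rw [← Finset.sum_sub_distrib]
      refine (Finset.abs_sum_le_sum_abs _ _).trans ?_
      refine (Finset.sum_le_sum fun s _ => cmp hr hF hN hNr hn ht s).trans ?_
      rw [Finset.sum_const, hc, nsmul_eq_mul]
      split_ifs <;> simp
    have h2 : (ENNReal.ofReal (1 / ((n + 1 : ℕ) : ℝ)) * gf (NK.DU (n + 1) (r * N / 2))).toReal =
        1 / ((n + 1 : ℕ) : ℝ) * (HexObs.xc ^ (n + 1) * ((cy (n + 1)).filter fun t => t ∈ NK.DU (n + 1) (r * N / 2)).card) := by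
      have e : NK.DU (n + 1) (r * N / 2) = {t | t ∈ POL.Cy (n + 1) ∧ t ∈ NK.DU (n + 1) (r * N / 2)} := by
        ext t
        exact ⟨fun h => ⟨h.1, h⟩, fun h => h.2⟩
      conv_lhs => rw [e]
      rw [gf_fin, ENNReal.toReal_mul, ENNReal.toReal_ofReal (by positivity),
        ENNReal.toReal_ofReal (mul_nonneg (xc_nn _) (Nat.cast_nonneg _))]
    rw [h2]
    refine (mul_le_mul_of_nonneg_left h1 h0).trans_eq ?_
    field_simp
  · unfold bw aw
    rw [if_neg h, cy_empty h, Finset.sum_empty, mul_zero, sub_zero, abs_zero]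
    positivity

/-- **the sum over the lengths** -/
theorem sum_aw : ∃ C0 : ℝ, 0 < C0 ∧ ∀ {F : TopologicalSpace.NonemptyCompacts ℂ → ℝ} {C L r : ℝ}, 0 < r → TC F C L r →
    ∀ {N : ℕ}, 0 < N → 4 / r < N → ∀ M : ℕ,
      ∑ n ∈ Finset.range M, |bw N (ext F) (n + 1) - aw F N n| ≤ 6 * |L| / N * (C0 / (r * N / 2) ^ 2) := by
  obtain ⟨C0, hC0, hU⟩ := NK.massU
  refine ⟨C0, hC0, fun {F C L r} hr hF {N} hN hNr M => ?_⟩
  have hN0 : (0 : ℝ) < N := by exact_mod_cast hN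
  obtain ⟨x, hx⟩ : ∃ x : ℕ → ℝ≥0∞, x = fun n : ℕ => ENNReal.ofReal (1 / (n : ℝ)) * gf (NK.DU n (r * N / 2)) := ⟨_, rfl⟩
  have h1 : ∑' n, x n ≤ ENNReal.ofReal (C0 / (r * N / 2) ^ 2) := by
    rw [hx]
    exact hU _ (by positivity)
  have h2 : ∑ n ∈ Finset.range M, x (n + 1) ≤ ENNReal.ofReal (C0 / (r * N / 2) ^ 2) := by
    refine le_trans ?_ h1
    rw [tsum_eq_zero_add' ENNReal.summable]
    exact (ENNReal.sum_le_tsum _).trans le_add_self
  have h3 : ∀ n ∈ Finset.range M, x (n + 1) ≠ ⊤ := fun n hn =>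
    ((Finset.single_le_sum (f := fun n => x (n + 1)) (fun _ _ => zero_le) hn).trans_lt (h2.trans_lt ENNReal.ofReal_lt_top)).ne
  have h4 : ∑ n ∈ Finset.range M, (x (n + 1)).toReal ≤ C0 / (r * N / 2) ^ 2 := by
    rw [← ENNReal.toReal_sum h3]
    exact ENNReal.toReal_le_of_le_ofReal (by positivity) h2
  refine (Finset.sum_le_sum fun n _ => bw_aw hr hF hN hNr n).trans ?_
  rw [← Finset.mul_sum]
  refine mul_le_mul_of_nonneg_left ?_ (by positivity)
  rw [hx] at h4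
  exact h4

/-- **the tail** -/
theorem tail_bw {F : Set ℂ → ℝ} {C : ℝ} (hb : ∀ K, |F K| ≤ C) : ∃ B : ℝ, 0 ≤ B ∧ ∀ N : ℕ, 0 < N →
    |∑' n : ℕ, bw N F (n + (N ^ 2 + 1))| ≤ B * (N : ℝ) ^ (-(5 / 2) : ℝ) := by
  obtain ⟨C1, hC1, hw⟩ := wc
  have hC : 0 ≤ C := (abs_nonneg _).trans (hb ∅)
  have hs : Summable fun n : ℕ => (n : ℝ) ^ (-(5 / 4) : ℝ) := (Real.summable_nat_rpow (p := (-(5 / 4) : ℝ))).2 (by norm_num)
  refine ⟨3 * C * C1 * ∑' n : ℕ, (n : ℝ) ^ (-(5 / 4) : ℝ), by positivity, fun N hN => ?_⟩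
  have hN0 : (0 : ℝ) < N := by exact_mod_cast hN
  have h1 : ∀ n : ℕ, |bw N F (n + (N ^ 2 + 1))| ≤
      3 * C * C1 * (N : ℝ) ^ (-(5 / 2) : ℝ) * ((n + (N ^ 2 + 1) : ℕ) : ℝ) ^ (-(5 / 4) : ℝ) := by
    intro n
    set m : ℕ := n + (N ^ 2 + 1) with hm
    have hm0 : (0 : ℝ) < m := by
      have : 0 < m := by omega
      exact_mod_cast this
    have hmN : (N : ℝ) ^ 2 ≤ m := by
      have : N ^ 2 ≤ m := by omega
      exact_mod_cast this
    refine (bw_le hb N m).trans ?_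
    have h2 : (m : ℝ) ^ (-(5 / 2) : ℝ) ≤ (N : ℝ) ^ (-(5 / 2) : ℝ) * (m : ℝ) ^ (-(5 / 4) : ℝ) := by
      have h3 : (m : ℝ) ^ (-(5 / 2) : ℝ) = (m : ℝ) ^ (-(5 / 4) : ℝ) * (m : ℝ) ^ (-(5 / 4) : ℝ) := by
        rw [← Real.rpow_add hm0]
        norm_num
      rw [h3]
      refine mul_le_mul_of_nonneg_right ?_ (by positivity)
      have h4 : (N : ℝ) ^ (-(5 / 2) : ℝ) = ((N : ℝ) ^ 2) ^ (-(5 / 4) : ℝ) := by
        rw [← Real.rpow_natCast (N : ℝ) 2, ← Real.rpow_mul hN0.le]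
        norm_num
      rw [h4]
      exact Real.rpow_le_rpow_of_nonpos (by positivity) hmN (by norm_num)
    calc 3 * C * (HexObs.xc ^ m / m * (cy m).card) ≤ 3 * C * (C1 * (m : ℝ) ^ (-(5 / 2) : ℝ)) :=
          mul_le_mul_of_nonneg_left (hw m) (by positivity)
      _ ≤ 3 * C * (C1 * ((N : ℝ) ^ (-(5 / 2) : ℝ) * (m : ℝ) ^ (-(5 / 4) : ℝ))) := by gcongr
      _ = _ := by ring
  have hs' : Summable fun n : ℕ => ((n + (N ^ 2 + 1) : ℕ) : ℝ) ^ (-(5 / 4) : ℝ) := (summable_nat_add_iff (N ^ 2 + 1)).2 hs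
  have h5 : Summable fun n : ℕ => |bw N F (n + (N ^ 2 + 1))| :=
    Summable.of_nonneg_of_le (fun _ => abs_nonneg _) h1 (hs'.mul_left _)
  have h6 : |∑' n : ℕ, bw N F (n + (N ^ 2 + 1))| ≤ ∑' n : ℕ, |bw N F (n + (N ^ 2 + 1))| := by
    have := norm_tsum_le_tsum_norm (f := fun n : ℕ => bw N F (n + (N ^ 2 + 1))) h5
    exact this
  refine h6.trans ((h5.tsum_le_tsum h1 (hs'.mul_left _)).trans ?_)
  rw [tsum_mul_left]
  have h7 : ∑' n : ℕ, ((n + (N ^ 2 + 1) : ℕ) : ℝ) ^ (-(5 / 4) : ℝ) ≤ ∑' n : ℕ, (n : ℝ) ^ (-(5 / 4) : ℝ) := by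
    rw [← hs.sum_add_tsum_nat_add (N ^ 2 + 1)]
    exact le_add_of_nonneg_left (Finset.sum_nonneg fun n _ => by positivity)
  calc _ ≤ 3 * C * C1 * (N : ℝ) ^ (-(5 / 2) : ℝ) * ∑' n : ℕ, (n : ℝ) ^ (-(5 / 4) : ℝ) := by gcongr
    _ = _ := by ring

theorem z0_fin : mu Z0 < ⊤ := Tr.Z0_fin (mass_of NK.massU)

/-- **`ML` and `MT`** -/
theorem ml_mt {F : TopologicalSpace.NonemptyCompacts ℂ → ℝ} {C L r : ℝ} (hr : 0 < r) (hF : TC F C L r) :
    Tendsto (fun N : ℕ => ML N (fun _ γ => F (NPR.tr γ)) - MT N (ext F)) atTop (𝓝 0) := by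
  have hT := ext_tt hF
  obtain ⟨C0, hC0, hs⟩ := sum_aw
  obtain ⟨B, hB, ht⟩ := tail_bw hT.tf.bdd
  have key : ∀ᶠ N : ℕ in atTop, |ML N (fun _ γ => F (NPR.tr γ)) - MT N (ext F)| ≤
      24 * |L| * C0 / r ^ 2 * ((N : ℝ))⁻¹ + B * (N : ℝ) ^ (-(1 / 2) : ℝ) := by
    have h1 : ∀ᶠ N : ℕ in atTop, 4 / r < (N : ℝ) := tendsto_natCast_atTop_atTop.eventually_gt_atTop _
    filter_upwards [h1, eventually_gt_atTop 0] with N hNr hN
    have hN0 : (0 : ℝ) < N := by exact_mod_cast hN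
    have hsum := bw_sum hT.tf.bdd N
    rw [ML_aw, MT_w z0_fin hT.tf.bdd hT.ti N, ← hsum.sum_add_tsum_nat_add (N ^ 2 + 1), Finset.sum_range_succ']
    have h0 : bw N (ext F) 0 = 0 := by
      unfold bw
      simp
    rw [h0, add_zero, ← mul_sub, abs_mul, abs_of_nonneg (by positivity : (0 : ℝ) ≤ (N : ℝ) ^ 2)]
    have h2 : |∑ n ∈ Finset.range (N ^ 2), aw F N n - (∑ n ∈ Finset.range (N ^ 2), bw N (ext F) (n + 1) +
        ∑' n : ℕ, bw N (ext F) (n + (N ^ 2 + 1)))| ≤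
        6 * |L| / N * (C0 / (r * N / 2) ^ 2) + B * (N : ℝ) ^ (-(5 / 2) : ℝ) := by
      have e : ∑ n ∈ Finset.range (N ^ 2), aw F N n - (∑ n ∈ Finset.range (N ^ 2), bw N (ext F) (n + 1) +
          ∑' n : ℕ, bw N (ext F) (n + (N ^ 2 + 1))) =
          -(∑ n ∈ Finset.range (N ^ 2), (bw N (ext F) (n + 1) - aw F N n)) - ∑' n : ℕ, bw N (ext F) (n + (N ^ 2 + 1)) := by
        rw [Finset.sum_sub_distrib]
        ring
      rw [e]
      refine (abs_sub _ _).trans (add_le_add ?_ (ht N hN))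
      rw [abs_neg]
      exact (Finset.abs_sum_le_sum_abs _ _).trans (hs hr hF hN hNr _)
    refine (mul_le_mul_of_nonneg_left h2 (by positivity)).trans_eq ?_
    have h3 : (N : ℝ) ^ 2 * (N : ℝ) ^ (-(5 / 2) : ℝ) = (N : ℝ) ^ (-(1 / 2) : ℝ) := by
      rw [← Real.rpow_natCast (N : ℝ) 2, ← Real.rpow_add hN0]
      norm_num
    rw [mul_add, mul_left_comm _ B, h3]
    congr 1
    field_simp
    ring
  have hlim : Tendsto (fun N : ℕ => 24 * |L| * C0 / r ^ 2 * ((N : ℝ))⁻¹ + B * (N : ℝ) ^ (-(1 / 2) : ℝ)) atTop (𝓝 0) := by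
    have a1 : Tendsto (fun N : ℕ => ((N : ℝ))⁻¹) atTop (𝓝 0) := tendsto_inv_atTop_zero.comp tendsto_natCast_atTop_atTop
    have a2 : Tendsto (fun N : ℕ => (N : ℝ) ^ (-(1 / 2) : ℝ)) atTop (𝓝 0) :=
      (tendsto_rpow_neg_atTop (by norm_num : (0 : ℝ) < 1 / 2)).comp tendsto_natCast_atTop_atTop
    have := (a1.const_mul (24 * |L| * C0 / r ^ 2)).add (a2.const_mul B)
    simpa using this
  rw [tendsto_zero_iff_abs_tendsto_zero]
  exact squeeze_zero' (Eventually.of_forall fun _ => abs_nonneg _) key hlim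

/-! ### Rotations -/

/-- the rotated compact -/
noncomputable def rz (z : ℂ) (K : TopologicalSpace.NonemptyCompacts ℂ) : TopologicalSpace.NonemptyCompacts ℂ :=
  ⟨⟨(fun w => z * w) '' (K : Set ℂ), K.isCompact.image (continuous_const.mul continuous_id)⟩, K.nonempty.image _⟩

theorem iso_z {z : ℂ} (hz : ‖z‖ = 1) : Isometry fun w : ℂ => z * w := by
  refine Isometry.of_dist_eq fun x y => ?_
  rw [dist_eq_norm, dist_eq_norm, ← mul_sub, norm_mul, hz, one_mul]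

theorem coe_rz (z : ℂ) (K : TopologicalSpace.NonemptyCompacts ℂ) : (rz z K : Set ℂ) = (fun w => z * w) '' (K : Set ℂ) := rfl

theorem tc_rz {F : TopologicalSpace.NonemptyCompacts ℂ → ℝ} {C L r : ℝ} (hF : TC F C L r) {z : ℂ} (hz : ‖z‖ = 1) :
    TC (fun K => F (rz z K)) C L r where
  bdd := fun K => hF.bdd _
  lip := fun K K' => by
    refine (hF.lip _ _).trans_eq ?_
    rw [Metric.NonemptyCompacts.dist_eq, Metric.NonemptyCompacts.dist_eq, coe_rz, coe_rz,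
      Metric.hausdorffDist_image (iso_z hz)]
  ti := fun K K' v h => by
    refine hF.ti _ _ (z * v) ?_
    rw [coe_rz, coe_rz, h, image_image, image_image]
    refine image_congr fun w _ => ?_
    ring
  z := fun K h => by
    refine hF.z _ ?_
    rw [coe_rz, (iso_z hz).diam_image]
    exact h

theorem tr_rz (z : ℂ) (γ : C(unitInterval, ℂ)) : rz z (NPR.tr γ) = NPR.tr (z • γ) := by
  apply SetLike.coe_injective
  rw [coe_rz, NPR.coe_tr, NPR.coe_tr, ← range_comp]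
  rfl

/-- **row (c)** -/
theorem rotN_of (H : RotM) : RotN := by
  intro F C L r hr hF z hz
  obtain ⟨t, ht⟩ : ∃ t : ℝ, Complex.exp (t * Complex.I) = z := by
    refine ⟨Complex.arg z, ?_⟩
    have := Complex.norm_mul_exp_arg_mul_I z
    rwa [hz, Complex.ofReal_one, one_mul] at this
  have h1 := ml_mt hr (tc_rz hF hz)
  have h2 := ml_mt hr hF
  have h3 : Tendsto (fun N : ℕ => MT N (ext fun K => F (rz z K)) - MT N (ext F)) atTop (𝓝 0) := by
    have e : ∀ N : ℕ, MT N (ext fun K => F (rz z K)) = MT N fun K => ext F (rotS t K) := by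
      intro N
      unfold MT
      congr 2
      funext γ
      have hfi : (trc N γ.1).Finite := Tr.trc_fin N γ.1
      have hne : (trc N γ.1).Nonempty := Tr.trc_ne N γ
      rw [ext_pos _ hfi.isCompact hne]
      show _ = ext F (rotS t (trc N γ.1))
      unfold rotS
      rw [ext_pos F (hfi.image _).isCompact (hne.image _)]
      congr 1
      apply SetLike.coe_injective
      rw [coe_rz]
      show (fun w => z * w) '' (trc N γ.1) = (fun w => Complex.exp (t * Complex.I) * w) '' (trc N γ.1)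
      rw [ht]
    rw [Metric.tendsto_atTop]
    intro ε hε
    obtain ⟨N0, hN0⟩ := H (ext F) C L r hr (ext_tt hF) (ε / 2) (by positivity)
    refine ⟨N0, fun N hN => ?_⟩
    rw [Real.dist_eq, sub_zero, e N]
    exact lt_of_le_of_lt (hN0 N hN t) (by linarith)
  have h4 := (h1.add h3).sub h2
  rw [add_zero, sub_zero] at h4
  refine h4.congr fun N => ?_
  simp only [tr_rz]
  ring

end Pool.Agent.ROT.I.FR
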