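import Pool.Agent.ROT.FOp

/-!
# ROT, block F1, row A3 (helper58): the limits are simple loops with positive times

* **`a3 : Fast → QB → LDp → A3`**.
-/

set_option autoImplicit false

open MeasureTheory Filter Topology Set

open scoped Classical

namespace Pool.Agent.ROT.F

open Pool.Agent.NTS.Res Pool.Agent.PMA Pool.Agent.PMA.Res

variable {r M0 : ℝ} {φ : ℕ → ℕ} {P : Measure XX}

/-- the near double points -/
def Dd (κ δ : ℝ) : Set C(unitInterval, ℂ) :=
  {γ : C(unitInterval, ℂ) | ∃ p q : unitInterval, (p : ℝ) + κ ≤ q ∧ (q : ℝ) + κ ≤ p + 1 ∧ dist (γ q) (γ p) < δ}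

lemma dd_open (κ δ : ℝ) : IsOpen (Dd κ δ) := by
  have e : Dd κ δ = ⋃ p : unitInterval, ⋃ q : unitInterval, ⋃ (_ : (p : ℝ) + κ ≤ q ∧ (q : ℝ) + κ ≤ p + 1),
      {γ : C(unitInterval, ℂ) | dist (γ q) (γ p) < δ} := by
    ext γ
    simp only [Set.mem_iUnion, Set.mem_ofPred_eq, Dd]
    constructor
    · rintro ⟨p, q, h1, h2, h3⟩
      exact ⟨p, q, ⟨h1, h2⟩, h3⟩
    · rintro ⟨p, q, ⟨h1, h2⟩, h3⟩
      exact ⟨p, q, h1, h2, h3⟩
  rw [e]
  refine isOpen_iUnion fun p => isOpen_iUnion fun q => isOpen_iUnion fun _ => ?_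
  exact isOpen_lt ((continuous_eval_const q).dist (continuous_eval_const p)) continuous_const

lemma chi_ite_le {d : ℝ} {p q : Prop} {hp : Decidable p} {hq : Decidable q} (h : p → q) :
    chi r d * (@ite ℝ p hp 1 0) ≤ @ite ℝ q hq 1 0 := by
  by_cases hx : p
  · rw [if_pos hx, if_pos (h hx), mul_one]
    exact chi_le_one _ _
  · rw [if_neg hx, mul_zero]
    split_ifs <;> norm_num

/-- positive times -/
lemma pos_time (hF : Fast) (hL : IsL r M0 φ P) : P {x : XX | x ≠ at0 ∧ x.1 ≤ 0} = 0 := by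
  have hM := hL.Mp
  refine le_antisymm ?_ zero_le
  refine ENNReal.le_of_forall_pos_le_add fun δ hδ _ => ?_
  rw [zero_add]
  obtain ⟨a, m0, ha, h⟩ := small_t hF hL.rp (show (0 : ℝ) < M0 * δ by positivity)
  have hU : IsOpen ({at0}ᶜ ∩ {x : XX | x.1 < a}) :=
    isClosed_singleton.isOpen_compl.inter (isOpen_lt continuous_fst continuous_const)
  have h2 := hL.ev_open hU (fun h3 => h3.1 rfl) (e := M0 * δ) (Eventually.frequently (by
    filter_upwards [hL.top.eventually_ge_atTop (max m0 1)] with k hk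
    have hm0 : (0 : ℝ) < φ k := by exact_mod_cast (le_max_right _ _).trans hk
    refine (ML_mono fun n γ => ?_).trans (h (φ k) ((le_max_left _ _).trans hk))
    by_cases hx : (((n : ℝ) / (φ k : ℕ), γ) : XX) ∈ ({at0}ᶜ ∩ {x : XX | x.1 < a} : Set XX)
    · have h3 : (n : ℝ) / (φ k : ℕ) < a := hx.2
      rw [div_lt_iff₀ hm0] at h3
      simp only [if_pos hx, mul_one, if_pos h3.le]
      exact le_rfl
    · simp only [if_neg hx, mul_zero]
      split_ifs
      · exact chi_nonneg _ _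
      · exact le_rfl))
  refine (measure_mono ?_).trans (h2.trans (le_of_eq ?_))
  · rintro x ⟨x1, x2⟩
    exact ⟨x1, lt_of_le_of_lt x2 ha⟩
  · rw [show 1 / M0 * (M0 * (δ : ℝ)) = δ by field_simp, ENNReal.ofReal_coe_nnreal]

/-- the mass of an event which no curve satisfies -/
lemma ml_none {N : ℕ} {G : ℕ → C(unitInterval, ℂ) → ℝ}
    (h : ∀ n : ℕ, Odd n → 3 ≤ n → ∀ s ∈ pol n, G n (sN N n (curve s)) ≤ 0 ∧ G n (-sN N n (curve s)) ≤ 0) : ML N G ≤ 0 := by
  unfold ML
  refine mul_nonpos_of_nonneg_of_nonpos (sq_nonneg _) (Finset.sum_nonpos fun n _ => ?_)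
  by_cases hn : Odd n ∧ 3 ≤ n
  · refine mul_nonpos_of_nonneg_of_nonpos (qn_nonneg n) ?_
    unfold pmn pmean
    refine div_nonpos_of_nonpos_of_nonneg (Finset.sum_nonpos fun s hs => ?_) (Nat.cast_nonneg _)
    have := h n hn.1 hn.2 s hs
    show (G n (sN N n (curve s)) + G n (-sN N n (curve s))) / 2 ≤ 0
    linarith [this.1, this.2]
  · unfold qn
    rw [if_neg hn, zero_mul]

/-- the curves are closed -/
lemma closed_lim (hL : IsL r M0 φ P) : ∀ᵐ x ∂P, x.2 0 = x.2 1 := by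
  have h1 : ∀ j : ℕ, P {x : XX | 1 / ((j : ℝ) + 1) < dist (x.2 0) (x.2 1)} = 0 := by
    intro j
    have hj : 0 < 1 / ((j : ℝ) + 1) := by positivity
    have hc : Continuous fun x : XX => dist (x.2 0) (x.2 1) :=
      ((continuous_eval_const (0 : unitInterval)).comp continuous_snd).dist
        ((continuous_eval_const (1 : unitInterval)).comp continuous_snd)
    have hU : IsOpen {x : XX | 1 / ((j : ℝ) + 1) < dist (x.2 0) (x.2 1)} := isOpen_lt continuous_const hc
    have h2 := hL.ev_open hU (e := 0) (fun h3 => by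
      have h4 : 1 / ((j : ℝ) + 1) < dist ((0 : C(unitInterval, ℂ)) 0) ((0 : C(unitInterval, ℂ)) 1) := h3
      rw [ContinuousMap.zero_apply, ContinuousMap.zero_apply, dist_self] at h4
      linarith) (Eventually.frequently (by
      have h4 : Tendsto (fun k => (Nm (φ k) : ℝ)) atTop atTop := tendsto_natCast_atTop_atTop.comp hL.nm
      filter_upwards [h4.eventually_gt_atTop ((j : ℝ) + 1)] with k hk
      have hN0 : (0 : ℝ) < Nm (φ k) := by
        have : (0 : ℝ) ≤ j := Nat.cast_nonneg _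
        linarith
      refine ml_none fun n hn1 hn2 s hs => ?_
      have hsz := NTSF.size_pos (n := n) (by omega)
      have h5 : dist ((sN (Nm (φ k)) n (curve s)) 0) ((sN (Nm (φ k)) n (curve s)) 1) = 1 / Nm (φ k) := by
        unfold sN
        rw [ContinuousMap.smul_apply, ContinuousMap.smul_apply, NTSF.curve_zero, smul_zero, dist_zero_left, norm_smul,
          NTSF.curve_one, norm_div (pos s n), (Finset.mem_filter.1 hs).2, Complex.norm_of_nonneg hsz.le,
          Real.norm_of_nonneg (by positivity)]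
        field_simp
      have h6 : dist ((-sN (Nm (φ k)) n (curve s)) 0) ((-sN (Nm (φ k)) n (curve s)) 1) = 1 / Nm (φ k) := by
        rw [dist_neg', h5]
      have h7 : ¬ 1 / ((j : ℝ) + 1) < 1 / Nm (φ k) := by
        rw [not_lt]
        exact one_div_le_one_div_of_le (by positivity) hk.le
      constructor
      · refine le_of_eq (mul_eq_zero_of_right _ (if_neg fun h8 => h7 ?_))
        rw [← h5]
        exact h8
      · refine le_of_eq (mul_eq_zero_of_right _ (if_neg fun h8 => h7 ?_))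
        rw [← h6]
        exact h8))
    rw [mul_zero, ENNReal.ofReal_zero] at h2
    exact le_antisymm h2 zero_le
  have h2 : ∀ᵐ x ∂P, ∀ j : ℕ, ¬ 1 / ((j : ℝ) + 1) < dist (x.2 0) (x.2 1) := by
    rw [ae_all_iff]
    intro j
    rw [ae_iff]
    simp only [not_not]
    exact h1 j
  filter_upwards [h2] with x hx
  by_contra hne
  obtain ⟨j, hj⟩ := exists_nat_one_div_lt (dist_pos.2 hne)
  exact hx j hj

/-- the size of the polygons with at least `a m` steps, at the lattice scale `Nm m` -/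
lemma sz_low {a : ℝ} (ha : 0 < a) : ∃ (c : ℝ) (m0 : ℕ), 0 < c ∧ ∀ m n : ℕ, m0 ≤ m → a * m ≤ n → c ≤ size n / Nm m := by
  obtain ⟨c, C, hc, hC, hsz⟩ := size_bd
  obtain ⟨m1, hm1⟩ := (nm_top.eventually_ge_atTop 1).exists_forall_of_atTop
  refine ⟨c / C * a ^ (3 / 4 : ℝ), m1 + 1, by positivity, fun m n hm hn => ?_⟩
  have hm0 : (0 : ℝ) < m := by exact_mod_cast (by omega : 0 < m)
  have hn0 : (0 : ℝ) < n := lt_of_lt_of_le (by positivity) hn
  have hn1 : 1 ≤ n := by exact_mod_cast hn0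
  have hN : (0 : ℝ) < Nm m := by exact_mod_cast hm1 m (by omega)
  have h1 := (hsz n hn1).1
  have h2 := (hsz m (by omega)).2
  have h3 : a ^ (3 / 4 : ℝ) * (m : ℝ) ^ (3 / 4 : ℝ) ≤ (n : ℝ) ^ (3 / 4 : ℝ) := by
    rw [← Real.mul_rpow ha.le hm0.le]
    exact Real.rpow_le_rpow (by positivity) hn (by norm_num)
  rw [le_div_iff₀ hN]
  calc c / C * a ^ (3 / 4 : ℝ) * Nm m ≤ c / C * a ^ (3 / 4 : ℝ) * (C * (m : ℝ) ^ (3 / 4 : ℝ)) :=
        mul_le_mul_of_nonneg_left ((nm_le m).trans h2) (by positivity)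
    _ = c * (a ^ (3 / 4 : ℝ) * (m : ℝ) ^ (3 / 4 : ℝ)) := by field_simp
    _ ≤ c * (n : ℝ) ^ (3 / 4 : ℝ) := mul_le_mul_of_nonneg_left h3 hc.le
    _ ≤ size n := h1

/-- no double points -/
lemma nodp (hQ : QB) (hD : LDp) (hL : IsL r M0 φ P) {a κ : ℝ} (ha : 0 < a) (hκ : 0 < κ) :
    P {x : XX | a < x.1 ∧ ∃ p q : unitInterval, (p : ℝ) + κ ≤ q ∧ (q : ℝ) + κ ≤ p + 1 ∧ x.2 q = x.2 p} = 0 := by
  have hM := hL.Mp
  obtain ⟨C, m0, hC, hev⟩ := ml_ev hQ ha
  obtain ⟨c, m1, hc, hsz⟩ := sz_low ha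
  refine le_antisymm ?_ zero_le
  refine ENNReal.le_of_forall_pos_le_add fun η hη _ => ?_
  rw [zero_add]
  have hη' : 0 < M0 * η / C := by positivity
  obtain ⟨δ, n0, hδ, h⟩ := hD (M0 * η / C) κ hη' hκ
  obtain ⟨m2, hm2⟩ := exists_nat_ge ((n0 : ℝ) / a)
  have hU : IsOpen {x : XX | a < x.1 ∧ x.2 ∈ Dd κ (c * δ)} :=
    (isOpen_lt continuous_const continuous_fst).inter ((dd_open κ (c * δ)).preimage continuous_snd)
  have h2 := hL.ev_open hU (e := C * (M0 * η / C)) (fun h3 => by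
    have h4 : a < at0.1 := h3.1
    unfold at0 at h4
    simp only at h4
    linarith) (Eventually.frequently (by
    filter_upwards [hL.top.eventually_ge_atTop (max m0 (max m1 (max m2 1)))] with k hk
    have k0 := (le_max_left _ _).trans hk
    have k1 := ((le_max_left _ _).trans (le_max_right _ _)).trans hk
    have k2 := (((le_max_left _ _).trans (le_max_right _ _)).trans (le_max_right _ _)).trans hk
    have k3 := (((le_max_right _ _).trans (le_max_right _ _)).trans (le_max_right _ _)).trans hk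
    have hm0 : (0 : ℝ) < φ k := by exact_mod_cast k3
    have k4 : n0 ≤ a * (φ k : ℕ) := by
      have : (m2 : ℝ) ≤ φ k := by exact_mod_cast k2
      rw [div_le_iff₀ ha] at hm2
      nlinarith
    refine (ML_mono (G' := fun n γ => if a * (φ k : ℕ) ≤ (n : ℝ) ∧ γ ∈ Dd κ (c * δ) then 1 else 0) fun n γ => ?_).trans
      (hev (φ k) k0 _ (M0 * η / C) hη'.le (fun n hn γ => if_neg fun h3 => not_le.2 hn h3.1) fun n ho hn => ?_)
    · refine chi_ite_le fun hx => ?_
      have h3 : a < (n : ℝ) / (φ k : ℕ) := hx.1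
      rw [lt_div_iff₀ hm0] at h3
      exact ⟨h3.le, hx.2⟩
    · have hnn : n0 ≤ n := by exact_mod_cast k4.trans hn
      have h3 := h n hnn ho
      rw [LT.plaw_apply, ENNReal.ofReal_le_ofReal_iff hη'.le] at h3
      refine le_trans ?_ h3
      unfold pmn
      refine LT.pmean_mono fun s _ => ?_
      have hs := hsz (φ k) n k1 hn
      have hs0 : 0 < size n / Nm (φ k) := hc.trans_le hs
      have h4 : sN (Nm (φ k)) n (curve s) ∈ Dd κ (c * δ) →
          curve s ∈ {γ : C(unitInterval, ℂ) | ∃ p q : unitInterval, (p : ℝ) + κ ≤ q ∧ (q : ℝ) + κ ≤ p + 1 ∧ dist (γ q) (γ p) < δ} := by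
        rintro ⟨p, q, g1, g2, g3⟩
        refine ⟨p, q, g1, g2, ?_⟩
        unfold sN at g3
        rw [ContinuousMap.smul_apply, ContinuousMap.smul_apply, dist_smul₀, Real.norm_of_nonneg hs0.le] at g3
        have g4 : c * dist (curve s q) (curve s p) ≤ size n / Nm (φ k) * dist (curve s q) (curve s p) :=
          mul_le_mul_of_nonneg_right hs dist_nonneg
        exact lt_of_mul_lt_mul_left (g4.trans_lt g3) hc.le
      have h5 : -sN (Nm (φ k)) n (curve s) ∈ Dd κ (c * δ) → sN (Nm (φ k)) n (curve s) ∈ Dd κ (c * δ) := by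
        rintro ⟨p, q, g1, g2, g3⟩
        rw [dist_neg'] at g3
        exact ⟨p, q, g1, g2, g3⟩
      show ((if a * (φ k : ℕ) ≤ (n : ℝ) ∧ sN (Nm (φ k)) n (curve s) ∈ Dd κ (c * δ) then (1 : ℝ) else 0) +
        if a * (φ k : ℕ) ≤ (n : ℝ) ∧ -sN (Nm (φ k)) n (curve s) ∈ Dd κ (c * δ) then (1 : ℝ) else 0) / 2 ≤ _
      by_cases h6 : sN (Nm (φ k)) n (curve s) ∈ Dd κ (c * δ)
      · rw [if_pos (h4 h6)]
        split_ifs <;> norm_num
      · rw [if_neg fun h7 => h6 h7.2, if_neg fun h7 => h6 (h5 h7.2), add_zero, zero_div]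
        split_ifs <;> norm_num))
  refine (measure_mono ?_).trans (h2.trans (le_of_eq ?_))
  · rintro x ⟨x1, p, q, x2, x3, x4⟩
    refine ⟨x1, p, q, x2, x3, ?_⟩
    rw [x4, dist_self]
    positivity
  · rw [show 1 / M0 * (C * (M0 * (η : ℝ) / C)) = η by field_simp, ENNReal.ofReal_coe_nnreal]

/-- **row A3** -/
theorem a3 (hF : Fast) (hQ : QB) (hD : LDp) : A3 := by
  intro r M0 φ P hL
  have h1 : ∀ᵐ x ∂P, ¬ (x ≠ at0 ∧ x.1 ≤ 0) := by
    rw [ae_iff]
    simp only [not_not]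
    exact pos_time hF hL
  have h3 : ∀ᵐ x ∂P, ∀ i j : ℕ, ¬ (1 / ((i : ℝ) + 1) < x.1 ∧ ∃ p q : unitInterval, (p : ℝ) + 1 / ((j : ℝ) + 1) ≤ q ∧
      (q : ℝ) + 1 / ((j : ℝ) + 1) ≤ p + 1 ∧ x.2 q = x.2 p) := by
    rw [ae_all_iff]
    intro i
    rw [ae_all_iff]
    intro j
    rw [ae_iff]
    simp only [not_not]
    exact nodp hQ hD hL (by positivity) (by positivity)
  filter_upwards [h1, closed_lim hL, h3] with x x1 x2 x3
  by_cases hx : x = at0
  · exact Or.inl hx
  · have x4 : 0 < x.1 := by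
      by_contra hneg
      exact x1 ⟨hx, not_lt.1 hneg⟩
    refine Or.inr ⟨x4, x2, fun s t hst e => ?_⟩
    by_contra hcon
    obtain ⟨i, hi⟩ := exists_nat_one_div_lt x4
    have hst' : (s : ℝ) < t := hst
    have h5 : 0 < (s : ℝ) + 1 - t := by
      have s0 : (0 : ℝ) ≤ s := s.2.1
      have t1 : (t : ℝ) ≤ 1 := t.2.2
      rcases eq_or_lt_of_le s0 with h6 | h6
      · rcases eq_or_lt_of_le t1 with h7 | h7
        · exact absurd ⟨Subtype.ext h6.symm, Subtype.ext h7⟩ hcon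
        · linarith
      · linarith
    obtain ⟨j, hj⟩ := exists_nat_one_div_lt (show 0 < min ((t : ℝ) - s) ((s : ℝ) + 1 - t) from lt_min (by linarith) h5)
    have j1 := hj.trans_le (min_le_left _ _)
    have j2 := hj.trans_le (min_le_right _ _)
    exact x3 i j ⟨hi, s, t, by linarith, by linarith, e.symm⟩

end Pool.Agent.ROT.F
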