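import Pool.Agent.ROT.FSlowA
import Pool.Agent.SCF.ScaleAll

/-!
# ROT, block F1, row (g), without hypothesis (helper58)
-/

set_option autoImplicit false

namespace Pool.Agent.ROT.F

/-- **row (g)**: the laws and the sizes of the polygons change slowly with the number of the steps -/
theorem pslow : PSlow := pslow_of Pool.Agent.SCF.scaleFlow_all

end Pool.Agent.ROT.F
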