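import Pool.Agent.ROT.FSt

/-!
# ROT, block F1, row (A2) (helper42): the law of the trace up to translations is rotation invariant

* `tk_cont` : the trace up to translations is continuous; **`tk_eq`** : two curves with the same trace up to translations;
* `ext_lip` : two finite measures with the same integrals of the bounded Lipschitz functions are equal;
* **`a2 : RotN → A2`**.
-/

set_option autoImplicit false

open MeasureTheory Filter Topology Set

open scoped Classical

namespace Pool.Agent.ROT.F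

open Pool.Agent.NTS.Res Pool.Agent.PMA Pool.Agent.PMA.Res

open Pool.Agent.NPR (tr nb vb)

namespace Tk2

/-- nonempty compact sets -/
abbrev KK := TopologicalSpace.NonemptyCompacts ℂ

/-! ### compact sets -/

lemma near (K K' : KK) {x : ℂ} (hx : x ∈ (K : Set ℂ)) : ∃ y ∈ (K' : Set ℂ), dist x y ≤ dist K K' := by
  obtain ⟨y, hy, h⟩ := K'.isCompact.exists_infDist_eq_dist K'.nonempty x
  refine ⟨y, hy, ?_⟩
  rw [← h, Metric.NonemptyCompacts.dist_eq]
  exact Metric.infDist_le_hausdorffDist_of_mem hx (Metric.hausdorffEDist_ne_top_of_nonempty_of_bounded K.nonempty K'.nonempty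
    K.isCompact.isBounded K'.isCompact.isBounded)

lemma dK_le {K K' : KK} {e : ℝ} (he : 0 ≤ e) (h1 : ∀ x ∈ (K : Set ℂ), ∃ y ∈ (K' : Set ℂ), dist x y ≤ e)
    (h2 : ∀ x ∈ (K' : Set ℂ), ∃ y ∈ (K : Set ℂ), dist x y ≤ e) : dist K K' ≤ e := by
  rw [Metric.NonemptyCompacts.dist_eq]
  exact Metric.hausdorffDist_le_of_mem_dist he h1 h2

lemma diam_le_add (K K' : KK) : Metric.diam (K : Set ℂ) ≤ Metric.diam (K' : Set ℂ) + 2 * dist K K' := by
  refine Metric.diam_le_of_forall_dist_le (add_nonneg Metric.diam_nonneg (by positivity)) fun x hx y hy => ?_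
  obtain ⟨x', hx', h1⟩ := near K K' hx
  obtain ⟨y', hy', h2⟩ := near K K' hy
  have h3 := Metric.dist_le_diam_of_mem K'.isCompact.isBounded hx' hy'
  have h4 := dist_triangle4 x x' y' y
  rw [dist_comm y'] at h4
  linarith

lemma diam_lip (K K' : KK) : |Metric.diam (K : Set ℂ) - Metric.diam (K' : Set ℂ)| ≤ 2 * dist K K' := by
  have h1 := diam_le_add K K'
  have h2 := diam_le_add K' K
  rw [dist_comm] at h2
  rw [abs_le]
  constructor <;> linarith

/-! ### the corner -/

lemma cnr_re_le (K : KK) {x : ℂ} (hx : x ∈ (K : Set ℂ)) : (cnr K).re ≤ x.re :=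
  csInf_le (K.isCompact.image Complex.continuous_re).bddBelow ⟨x, hx, rfl⟩

lemma cnr_im_le (K : KK) {x : ℂ} (hx : x ∈ (K : Set ℂ)) : (cnr K).im ≤ x.im :=
  csInf_le (K.isCompact.image Complex.continuous_im).bddBelow ⟨x, hx, rfl⟩

lemma le_cnr_re (K : KK) {a : ℝ} (h : ∀ x ∈ (K : Set ℂ), a ≤ x.re) : a ≤ (cnr K).re :=
  le_csInf (K.nonempty.image _) (by rintro _ ⟨x, hx, rfl⟩; exact h x hx)

lemma le_cnr_im (K : KK) {a : ℝ} (h : ∀ x ∈ (K : Set ℂ), a ≤ x.im) : a ≤ (cnr K).im :=
  le_csInf (K.nonempty.image _) (by rintro _ ⟨x, hx, rfl⟩; exact h x hx)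

lemma cnr_re_lip (K K' : KK) : (cnr K').re - dist K K' ≤ (cnr K).re := by
  refine le_cnr_re K fun x hx => ?_
  obtain ⟨y, hy, h⟩ := near K K' hx
  have h1 := cnr_re_le K' hy
  have h2 := Complex.abs_re_le_norm (x - y)
  rw [← dist_eq_norm, Complex.sub_re] at h2
  have h3 := (abs_le.1 h2).1
  linarith

lemma cnr_im_lip (K K' : KK) : (cnr K').im - dist K K' ≤ (cnr K).im := by
  refine le_cnr_im K fun x hx => ?_
  obtain ⟨y, hy, h⟩ := near K K' hx
  have h1 := cnr_im_le K' hy
  have h2 := Complex.abs_im_le_norm (x - y)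
  rw [← dist_eq_norm, Complex.sub_im] at h2
  have h3 := (abs_le.1 h2).1
  linarith

lemma cnr_lip (K K' : KK) : dist (cnr K) (cnr K') ≤ 2 * dist K K' := by
  have h1 := cnr_re_lip K K'
  have h2 := cnr_re_lip K' K
  have h3 := cnr_im_lip K K'
  have h4 := cnr_im_lip K' K
  rw [dist_comm K' K] at h2 h4
  rw [dist_eq_norm]
  refine (Complex.norm_le_abs_re_add_abs_im _).trans ?_
  rw [Complex.sub_re, Complex.sub_im]
  have a1 : |(cnr K).re - (cnr K').re| ≤ dist K K' := abs_le.2 ⟨by linarith, by linarith⟩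
  have a2 : |(cnr K).im - (cnr K').im| ≤ dist K K' := abs_le.2 ⟨by linarith, by linarith⟩
  linarith

/-! ### translations -/

/-- the translate -/
noncomputable def shf (v : ℂ) (K : KK) : KK :=
  ⟨⟨(fun z => z + v) '' (K : Set ℂ), K.isCompact.image (by fun_prop)⟩, K.nonempty.image _⟩

lemma coe_shf (v : ℂ) (K : KK) : (shf v K : Set ℂ) = (fun z => z + v) '' (K : Set ℂ) := rfl

lemma cnr_shf (v : ℂ) (K : KK) : cnr (shf v K) = cnr K + v := by
  apply Complex.ext
  · rw [Complex.add_re]
    refine le_antisymm ?_ ?_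
    · rw [← sub_le_iff_le_add]
      refine le_cnr_re K fun x hx => ?_
      have := cnr_re_le (shf v K) (show x + v ∈ (shf v K : Set ℂ) from ⟨x, hx, rfl⟩)
      rw [Complex.add_re] at this
      linarith
    · refine le_cnr_re _ ?_
      rintro _ ⟨x, hx, rfl⟩
      have := cnr_re_le K hx
      show _ ≤ (x + v).re
      rw [Complex.add_re]
      linarith
  · rw [Complex.add_im]
    refine le_antisymm ?_ ?_
    · rw [← sub_le_iff_le_add]
      refine le_cnr_im K fun x hx => ?_
      have := cnr_im_le (shf v K) (show x + v ∈ (shf v K : Set ℂ) from ⟨x, hx, rfl⟩)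
      rw [Complex.add_im] at this
      linarith
    · refine le_cnr_im _ ?_
      rintro _ ⟨x, hx, rfl⟩
      have := cnr_im_le K hx
      show _ ≤ (x + v).im
      rw [Complex.add_im]
      linarith

lemma diam_shf (v : ℂ) (K : KK) : Metric.diam (shf v K : Set ℂ) = Metric.diam (K : Set ℂ) := by
  rw [coe_shf]
  exact (IsometryEquiv.addRight v).diam_image (K : Set ℂ)

/-- the set minus its lower left corner -/
noncomputable def nrm (K : KK) : KK := shf (-cnr K) K

lemma tk_nrm (γ : C(unitInterval, ℂ)) : Tk γ = nrm (tr γ) := by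
  apply TopologicalSpace.NonemptyCompacts.ext
  show range (⇑(γ - ContinuousMap.const unitInterval (cnr (tr γ)))) = (fun z => z + -cnr (tr γ)) '' range (⇑γ)
  have e : (fun z : ℂ => z + -cnr (tr γ)) '' range γ = range fun t => γ t + -cnr (tr γ) :=
    (range_comp (fun z : ℂ => z + -cnr (tr γ)) (γ : unitInterval → ℂ)).symm
  rw [e]
  refine congrArg (fun g : unitInterval → ℂ => range g) (funext fun t => ?_)
  show γ t - cnr (tr γ) = γ t + -cnr (tr γ)
  rw [sub_eq_add_neg]

lemma nrm_le (K K' : KK) : ∀ x ∈ (nrm K : Set ℂ), ∃ y ∈ (nrm K' : Set ℂ), dist x y ≤ 3 * dist K K' := by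
  rintro _ ⟨x, hx, rfl⟩
  obtain ⟨y, hy, h⟩ := near K K' hx
  refine ⟨y + -cnr K', ⟨y, hy, rfl⟩, ?_⟩
  refine (dist_add_add_le _ _ _ _).trans ?_
  rw [dist_neg_neg]
  have := cnr_lip K K'
  linarith

lemma nrm_lip (K K' : KK) : dist (nrm K) (nrm K') ≤ 3 * dist K K' := by
  refine dK_le (by positivity) (nrm_le K K') ?_
  rw [dist_comm K K']
  exact nrm_le K' K

lemma nrm_cont : Continuous nrm := by
  rw [Metric.continuous_iff]
  intro K ε hε
  refine ⟨ε / 3, by positivity, fun K' h => ?_⟩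
  have := nrm_lip K' K
  linarith

lemma nrm_shf (v : ℂ) (K : KK) : nrm (shf v K) = nrm K := by
  apply TopologicalSpace.NonemptyCompacts.ext
  show (fun z => z + -cnr (shf v K)) '' ((fun z => z + v) '' (K : Set ℂ)) = (fun z => z + -cnr K) '' (K : Set ℂ)
  rw [image_image, cnr_shf]
  refine image_congr fun z _ => ?_
  ring

/-! ### Lipschitz functions determine the measure -/

theorem ext_lip {X : Type*} [MetricSpace X] [MeasurableSpace X] [BorelSpace X] {μ ν : Measure X} [IsFiniteMeasure μ]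
    [IsFiniteMeasure ν] (h : ∀ (f : X → ℝ) (L : NNReal), (∀ x, |f x| ≤ 1) → LipschitzWith L f →
      ∫ x, f x ∂μ = ∫ x, f x ∂ν) : μ = ν := by
  have h0 : ∀ F : Set X, IsClosed F → μ F = ν F := by
    intro F hF
    obtain ⟨δ, -, hδ, hδ0⟩ := exists_seq_strictAnti_tendsto (0 : ℝ)
    have h1 := tendsto_lintegral_thickenedIndicator_of_isClosed μ hF hδ hδ0
    have h2 := tendsto_lintegral_thickenedIndicator_of_isClosed ν hF hδ hδ0
    refine tendsto_nhds_unique h1 (h2.congr fun n => ?_)
    have hi : ∀ ρ : Measure X, IsFiniteMeasure ρ → ∫⁻ x, (thickenedIndicator (hδ n) F x : ENNReal) ∂ρ =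
        ENNReal.ofReal (∫ x, (thickenedIndicator (hδ n) F x : ℝ) ∂ρ) := by
      intro ρ _
      rw [lintegral_coe_eq_integral]
      exact integrable_thickenedIndicator F (hδ n)
    rw [hi μ inferInstance, hi ν inferInstance]
    congr 1
    refine (h _ (1 / δ n).toNNReal (fun x => ?_) ?_).symm
    · rw [abs_of_nonneg NNReal.zero_le_coe]
      exact_mod_cast thickenedIndicator_le_one (hδ n) F x
    · have := lipschitzWith_thickenedIndicator (hδ n) F
      refine LipschitzWith.weaken (K := (δ n).toNNReal⁻¹) ?_ ?_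
      · exact fun x y => this x y
      · rw [one_div, Real.toNNReal_inv]
  refine ext_of_generate_finite {s | IsClosed s} ?_ ?_ (fun F hF => h0 F hF) (h0 _ isClosed_univ)
  · rw [BorelSpace.measurable_eq (α := X), borel_eq_generateFrom_isClosed]
  · exact isPiSystem_isClosed

/-! ### the test functions -/

/-- the test function of a bounded Lipschitz function -/
noncomputable def tst (r : ℝ) (f : KK → ℝ) (K : KK) : ℝ := chi r (Metric.diam (K : Set ℂ)) * f (nrm K)

lemma tst_tc {r : ℝ} (hr : 0 < r) {f : KK → ℝ} {L : NNReal} (hf : ∀ K, |f K| ≤ 1) (hL : LipschitzWith L f) :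
    TC (tst r f) 1 (2 / r + 3 * L) r := by
  refine ⟨fun K => ?_, fun K K' => ?_, fun K K' v h => ?_, fun K h => ?_⟩
  · unfold tst
    rw [abs_mul, abs_of_nonneg (chi_nonneg _ _)]
    exact mul_le_one₀ (chi_le_one _ _) (abs_nonneg _) (hf _)
  · unfold tst
    have h1 := chi_lip hr (Metric.diam (K : Set ℂ)) (Metric.diam (K' : Set ℂ))
    have h2 := diam_lip K K'
    have h3 : |f (nrm K) - f (nrm K')| ≤ L * (3 * dist K K') := by
      rw [← Real.dist_eq]
      exact (hL.dist_le_mul _ _).trans (mul_le_mul_of_nonneg_left (nrm_lip K K') L.2)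
    obtain ⟨a, ha⟩ : ∃ a : ℝ, a = chi r (Metric.diam (K : Set ℂ)) := ⟨_, rfl⟩
    obtain ⟨a', ha'⟩ : ∃ a' : ℝ, a' = chi r (Metric.diam (K' : Set ℂ)) := ⟨_, rfl⟩
    have ha1 : |a'| ≤ 1 := by
      rw [ha', abs_of_nonneg (chi_nonneg _ _)]
      exact chi_le_one _ _
    rw [← ha, ← ha'] at h1 ⊢
    have e : a * f (nrm K) - a' * f (nrm K') = (a - a') * f (nrm K) + a' * (f (nrm K) - f (nrm K')) := by ring
    have h4 : |a - a'| ≤ 2 / r * dist K K' := by
      refine h1.trans ?_
      rw [div_mul_eq_mul_div]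
      exact div_le_div_of_nonneg_right h2 hr.le
    rw [e]
    refine (abs_add_le _ _).trans ?_
    rw [abs_mul, abs_mul]
    have h5 : |a - a'| * |f (nrm K)| ≤ 2 / r * dist K K' * 1 :=
      mul_le_mul h4 (hf _) (abs_nonneg _) (by positivity)
    have h6 : |a'| * |f (nrm K) - f (nrm K')| ≤ 1 * (L * (3 * dist K K')) :=
      mul_le_mul ha1 h3 (abs_nonneg _) zero_le_one
    calc |a - a'| * |f (nrm K)| + |a'| * |f (nrm K) - f (nrm K')|
        ≤ 2 / r * dist K K' * 1 + 1 * (L * (3 * dist K K')) := add_le_add h5 h6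
      _ = (2 / r + 3 * L) * dist K K' := by ring
  · have e : K' = shf v K := TopologicalSpace.NonemptyCompacts.ext h
    unfold tst
    rw [e, diam_shf, nrm_shf]
  · unfold tst
    rw [chi_zero hr h.le, zero_mul]

lemma tst_tr (r : ℝ) (f : KK → ℝ) (γ : C(unitInterval, ℂ)) : tst r f (tr γ) = chi r (dm γ) * f (Tk γ) := by
  rw [tk_nrm]
  rfl

end Tk2

open Tk2

/-- **the trace up to translations is continuous** -/
theorem tk_cont : Continuous Tk := by
  have : Tk = fun γ => nrm (tr γ) := funext tk_nrm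
  rw [this]
  exact nrm_cont.comp NPR.tr_cont

/-- **two curves with the same trace up to translations** -/
theorem tk_eq (γ γ' : C(unitInterval, ℂ)) (h : Tk γ = Tk γ') : ∃ v : ℂ, range γ = (fun z => z + v) '' range γ' := by
  rw [tk_nrm, tk_nrm] at h
  have h1 : (fun z => z + -cnr (tr γ)) '' range γ = (fun z => z + -cnr (tr γ')) '' range γ' :=
    congrArg (fun K : KK => (K : Set ℂ)) h
  refine ⟨-cnr (tr γ') + cnr (tr γ), ?_⟩
  have h2 := congrArg (fun S : Set ℂ => (fun z => z + cnr (tr γ)) '' S) h1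
  simp only [image_image] at h2
  have e1 : (fun z : ℂ => z + -cnr (tr γ) + cnr (tr γ)) '' range γ = range γ := by
    have : (fun z : ℂ => z + -cnr (tr γ) + cnr (tr γ)) = id := by
      funext z
      simp
    rw [this, image_id]
  rw [e1] at h2
  rw [h2]
  refine image_congr fun z _ => ?_
  ring

/-- **row (A2)** -/
theorem a2 (hR : RotN) : A2 := by
  intro r M0 φ P h z hz
  have hP := h.prob
  have hm1 : Measurable fun x : XX => Tk (z • x.2) := (tk_cont.comp (continuous_snd.const_smul z)).measurable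
  have hm2 : Measurable fun x : XX => Tk x.2 := (tk_cont.comp continuous_snd).measurable
  have i1 : IsFiniteMeasure (P.map fun x : XX => Tk (z • x.2)) := inferInstance
  have i2 : IsFiniteMeasure (P.map fun x : XX => Tk x.2) := inferInstance
  refine ext_lip fun f L hf hL => ?_
  rw [integral_map hm1.aemeasurable hL.continuous.aestronglyMeasurable,
    integral_map hm2.aemeasurable hL.continuous.aestronglyMeasurable]
  obtain ⟨g1, hg1⟩ : ∃ g1 : BoundedContinuousFunction XX ℝ, ∀ x, g1 x = f (Tk (z • x.2)) :=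
    ⟨BoundedContinuousFunction.ofNormedAddCommGroup (fun x : XX => f (Tk (z • x.2)))
      (hL.continuous.comp (tk_cont.comp (continuous_snd.const_smul z))) 1 fun x => by
        rw [Real.norm_eq_abs]
        exact hf _, fun x => rfl⟩
  obtain ⟨g2, hg2⟩ : ∃ g2 : BoundedContinuousFunction XX ℝ, ∀ x, g2 x = f (Tk x.2) :=
    ⟨BoundedContinuousFunction.ofNormedAddCommGroup (fun x : XX => f (Tk x.2))
      (hL.continuous.comp (tk_cont.comp continuous_snd)) 1 fun x => by
        rw [Real.norm_eq_abs]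
        exact hf _, fun x => rfl⟩
  have l1 := h.lim g1
  have l2 := h.lim g2
  simp only [hg1] at l1
  simp only [hg2] at l2
  have hN : Tendsto (fun k => Nm (φ k)) atTop atTop :=
    ((tendsto_nat_floor_atTop (α := ℝ)).comp (LimS.size_lg tendsto_id)).comp h.top
  have l3 := ((hR (tst r f) 1 (2 / r + 3 * L) r h.rp (tst_tc h.rp hf hL) z hz).comp hN).const_mul (1 / M0)
  rw [mul_zero] at l3
  have l4 := l1.sub l2
  have l5 : Tendsto (fun k => ∫ x, f (Tk (z • x.2)) ∂(Pme M0 (Nm (φ k)) (φ k) r) -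
      ∫ x, f (Tk x.2) ∂(Pme M0 (Nm (φ k)) (φ k) r)) atTop (𝓝 0) := by
    refine l3.congr' ?_
    filter_upwards [hN.eventually h.mss] with k hk
    rw [pme_int h.Mp hk, pme_int h.Mp hk]
    simp only [Function.comp_apply, tst_tr, dm_smul hz]
    have e : z • at0.2 = at0.2 := by
      show z • (0 : C(unitInterval, ℂ)) = 0
      ext t
      show z • (0 : ℂ) = 0
      exact smul_zero z
    rw [e]
    ring
  exact sub_eq_zero.1 (tendsto_nhds_unique l4 l5)

end Pool.Agent.ROT.F
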