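import Pool.Agent.ROT.FTrace
import Pool.Agent.ROT.FEx
import Pool.Agent.ROT.FTk
import Pool.Agent.ROT.FSim
import Pool.Agent.ROT.FLoc
import Pool.Agent.ROT.FCp
import Pool.Agent.ROT.FAv
import Pool.Agent.ROT.FClk4
import Pool.Agent.ROT.FSlow
import Pool.Agent.ROT.FRot
import Pool.Agent.ROT.FRev
import Pool.Agent.ROT.FFast
import Pool.Agent.ROT.FLdp

/-!
# ROT, block F1, final assembly (helper5): `rotP_of : I.RotM → RotP`

* `fbI : FbI`, `a5 : A5`;
* **`rotP_of`** : the asymptotic invariance of the critical polygons at the lattice scale `N` (`I.RotM`) gives the rotation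
  invariance of every limit of the polygons of fixed length (`PMA.Res.RotP`).
-/

set_option autoImplicit false

open MeasureTheory Filter Topology Set

namespace Pool.Agent.ROT.F

open Pool.Agent.PMA Pool.Agent.PMA.Res

theorem fbI : FbI :=
  ⟨fun _ _ u _ hL h => fbar_rt hL.continuous h u, fun _ γ _ hL _ => fbar_rv hL.continuous γ, fun F γ v _ _ _ => fbar_const F γ v⟩

theorem a5 : A5 := a5_of tk_cont tk_eq (fun F hF hL => (av.lip F hF hL).continuous) fbI

/-- **F1** -/
theorem rotP_of (h : I.RotM) : RotP :=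
  rotP_rows (a1 fast qb) (a2 (I.FR.rotN_of h)) (a3 fast qb ldp) (a4 qb) a5 (a6 pslow qb) prev ldp av

end Pool.Agent.ROT.F
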