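import Pool.Agent.ROT.FSt
/-!
# ROT, block F1, row (av) (helper63): the mean over the roots and the directions

* `per γ` : the closed curve as a periodic function; `rtp x γ` : the curve read from the time `x`, from the origin;
* **`fbar_rt`**, **`fbar_rv`**, **`fbar_const`** : `Fbar F` does not see the root, the direction and the place of a closed curve.
-/
set_option autoImplicit false
open Set Filter Topology MeasureTheory
open scoped Classical
namespace Pool.Agent.ROT.F
open Pool.Agent.PMA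

/-- the closed curve as a periodic function -/
noncomputable def per (γ : C(unitInterval, ℂ)) (x : ℝ) : ℂ := γ (Set.projIcc 0 1 zero_le_one (Int.fract x))

lemma per_add (γ : C(unitInterval, ℂ)) (x : ℝ) : per γ (x + 1) = per γ x := by
  unfold per
  rw [Int.fract_add_one]

lemma per_sub (γ : C(unitInterval, ℂ)) (x : ℝ) : per γ (x - 1) = per γ x := by
  unfold per
  rw [Int.fract_sub_one]

lemma per_I {γ : C(unitInterval, ℂ)} (h : γ 0 = γ 1) {x : ℝ} (h0 : 0 ≤ x) (h1 : x ≤ 1) :
    per γ x = γ (Set.projIcc 0 1 zero_le_one x) := by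
  rcases eq_or_lt_of_le h1 with h2 | h2
  · unfold per
    rw [h2, Int.fract_one, Set.projIcc_of_le_left zero_le_one le_rfl, Set.projIcc_of_right_le zero_le_one le_rfl]
    exact h
  · unfold per
    rw [Int.fract_eq_self.2 ⟨h0, h2⟩]

/-- two values agree up to a period -/
lemma per_rt {γ : C(unitInterval, ℂ)} (h : γ 0 = γ 1) {u : ℝ} (hu0 : 0 ≤ u) (hu1 : u ≤ 1) (x : ℝ) :
    per (rt u γ) x = per γ (u + x) := by
  have key : ∀ y : ℝ, 0 ≤ y → y < 1 → per (rt u γ) y = per γ (u + y) := by
    intro y hy0 hy1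
    have e1 : per (rt u γ) y = rt u γ (Set.projIcc 0 1 zero_le_one y) := by
      unfold per
      rw [Int.fract_eq_self.2 ⟨hy0, hy1⟩]
    rw [e1, rt_apply, Set.projIcc_of_mem zero_le_one ⟨hy0, hy1.le⟩]
    simp only
    rcases le_total (u + y) 1 with hc | hc
    · rw [per_I h (by linarith) hc, Set.projIcc_of_le_left zero_le_one (by linarith : u + y - 1 ≤ 0)]
      show _ + γ 0 - γ 0 = _
      ring
    · rw [← per_sub, per_I h (by linarith) (by linarith), Set.projIcc_of_right_le zero_le_one hc]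
      show γ 1 + _ - γ 0 = _
      rw [h]
      ring
  have e1 : per (rt u γ) x = per (rt u γ) (Int.fract x) := by
    unfold per
    rw [Int.fract_fract]
  have e2 : per γ (u + x) = per γ (u + Int.fract x) := by
    unfold per
    congr 2
    rw [Int.fract_eq_fract]
    exact ⟨⌊x⌋, by have := Int.floor_add_fract x; linarith⟩
  rw [e1, e2]
  exact key _ (Int.fract_nonneg _) (Int.fract_lt_one _)

lemma per_rv {γ : C(unitInterval, ℂ)} (h : γ 0 = γ 1) (x : ℝ) : per (rv γ) x = per γ (-x) := by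
  have h' : rv γ 0 = rv γ 1 := by
    rw [rv_apply, rv_apply, unitInterval.symm_zero, unitInterval.symm_one, h]
  have key : ∀ y : ℝ, 0 ≤ y → y ≤ 1 → per (rv γ) y = per γ (-y) := by
    intro y hy0 hy1
    rw [← per_add γ (-y), per_I h' hy0 hy1, per_I h (by linarith) (by linarith), rv_apply,
      Set.projIcc_of_mem zero_le_one ⟨hy0, hy1⟩,
      Set.projIcc_of_mem zero_le_one (show -y + 1 ∈ Icc (0 : ℝ) 1 from ⟨by linarith, by linarith⟩)]
    congr 1
    ext
    show 1 - y = -y + 1
    ring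
  have e1 : per (rv γ) x = per (rv γ) (Int.fract x) := by
    unfold per
    rw [Int.fract_fract]
  have e2 : per γ (-x) = per γ (-Int.fract x) := by
    unfold per
    congr 2
    rw [Int.fract_eq_fract]
    exact ⟨-⌊x⌋, by have := Int.floor_add_fract x; push_cast; linarith⟩
  rw [e1, e2]
  exact key _ (Int.fract_nonneg _) (Int.fract_lt_one _).le

/-- the re-rooted curve in terms of the periodic function -/
lemma rot_per {γ : C(unitInterval, ℂ)} (h : γ 0 = γ 1) {s : ℝ} (h0 : 0 ≤ s) (h1 : s ≤ 1) (t : unitInterval) :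
    PMA.rot s γ t = per γ (s + t) - per γ s := by
  have ht0 := t.2.1
  have ht1 := t.2.2
  rw [rot_apply, per_I h h0 h1]
  rcases le_total (s + t) 1 with hc | hc
  · rw [per_I h (by linarith) hc, Set.projIcc_of_le_left zero_le_one (by linarith : s + t - 1 ≤ 0)]
    show _ + γ 0 - _ - γ 0 = _
    ring
  · rw [← per_sub γ (s + t), per_I h (by linarith) (by linarith), Set.projIcc_of_right_le zero_le_one hc]
    show γ 1 + _ - _ - γ 0 = _
    rw [h]
    ring

lemma rot_add_const (s : ℝ) (γ : C(unitInterval, ℂ)) (v : ℂ) :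
    PMA.rot s (γ + ContinuousMap.const _ v) = PMA.rot s γ := by
  ext t
  rw [rot_apply, rot_apply]
  simp only [ContinuousMap.add_apply, ContinuousMap.const_apply]
  ring

lemma rv_add_const (γ : C(unitInterval, ℂ)) (v : ℂ) :
    rv (γ + ContinuousMap.const _ v) = rv γ + ContinuousMap.const _ v := by
  ext t
  rfl

/-- `Fbar` does not see the place -/
theorem fbar_const (F : C(unitInterval, ℂ) → ℝ) (γ : C(unitInterval, ℂ)) (v : ℂ) :
    Fbar F (γ + ContinuousMap.const _ v) = Fbar F γ := by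
  unfold Fbar
  simp only [rot_add_const, rv_add_const]

/-- `rot s γ` is continuous in `s` and `γ` -/
lemma rot_cont2 : Continuous fun p : ℝ × C(unitInterval, ℂ) => PMA.rot p.1 p.2 := by
  refine ContinuousMap.continuous_of_continuous_uncurry _ ?_
  have h1 : Continuous fun p : (ℝ × C(unitInterval, ℂ)) × unitInterval =>
      (Set.projIcc (0 : ℝ) 1 zero_le_one (p.1.1 + p.2)) := continuous_projIcc.comp (by fun_prop)
  have h2 : Continuous fun p : (ℝ × C(unitInterval, ℂ)) × unitInterval =>
      (Set.projIcc (0 : ℝ) 1 zero_le_one (p.1.1 + p.2 - 1)) := continuous_projIcc.comp (by fun_prop)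
  have h3 : Continuous fun p : (ℝ × C(unitInterval, ℂ)) × unitInterval =>
      (Set.projIcc (0 : ℝ) 1 zero_le_one p.1.1) := continuous_projIcc.comp (by fun_prop)
  have hγ : Continuous fun p : (ℝ × C(unitInterval, ℂ)) × unitInterval => p.1.2 := by fun_prop
  show Continuous fun p : (ℝ × C(unitInterval, ℂ)) × unitInterval =>
    p.1.2 (Set.projIcc 0 1 zero_le_one (p.1.1 + p.2)) + p.1.2 (Set.projIcc 0 1 zero_le_one (p.1.1 + p.2 - 1)) -
      p.1.2 (Set.projIcc 0 1 zero_le_one p.1.1) - p.1.2 0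
  exact (((ContinuousEval.continuous_eval.comp (hγ.prodMk h1)).add (ContinuousEval.continuous_eval.comp (hγ.prodMk h2))).sub
    (ContinuousEval.continuous_eval.comp (hγ.prodMk h3))).sub (ContinuousEval.continuous_eval.comp (hγ.prodMk continuous_const))

lemma rot_cont (γ : C(unitInterval, ℂ)) : Continuous fun s : ℝ => PMA.rot s γ :=
  rot_cont2.comp (continuous_id.prodMk continuous_const)

lemma fbar_split {F : C(unitInterval, ℂ) → ℝ} (hF : Continuous F) (γ : C(unitInterval, ℂ)) :
    Fbar F γ = ((∫ s in (0 : ℝ)..1, F (PMA.rot s γ)) + ∫ s in (0 : ℝ)..1, F (PMA.rot s (rv γ))) / 2 := by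
  unfold Fbar
  rw [intervalIntegral.integral_div, intervalIntegral.integral_add]
  · exact (hF.comp (rot_cont γ)).intervalIntegrable _ _
  · exact (hF.comp (rot_cont (rv γ))).intervalIntegrable _ _

/-- the mean over the roots does not see the root -/
lemma mean_rt (F : C(unitInterval, ℂ) → ℝ) {γ : C(unitInterval, ℂ)} (h : γ 0 = γ 1) {γ' : C(unitInterval, ℂ)}
    (h' : γ' 0 = γ' 1) {u : ℝ} (hu : ∀ x, per γ' x = per γ (u + x)) :
    ∫ s in (0 : ℝ)..1, F (PMA.rot s γ') = ∫ s in (0 : ℝ)..1, F (PMA.rot s γ) := by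
  obtain ⟨G, hG⟩ : ∃ G : ℝ → ℝ, G = fun s => F (PMA.rot (Int.fract s) γ) := ⟨_, rfl⟩
  have hper : Function.Periodic G 1 := by
    intro s
    rw [hG]
    simp only [Int.fract_add_one]
  have hcl : ∀ {g : C(unitInterval, ℂ)}, g 0 = g 1 → ∀ {a b : ℝ}, 0 ≤ a → a ≤ 1 → ∀ t : unitInterval, PMA.rot a g t = per g (a + t) - per g a :=
    fun hg _ b h0 h1 t => rot_per hg h0 h1 t
  have e1 : ∀ s : ℝ, 0 ≤ s → s ≤ 1 → F (PMA.rot s γ') = G (s + u) := by
    intro s h0 h1
    rw [hG]
    simp only
    congr 1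
    ext t
    rw [rot_per h' h0 h1, rot_per h (Int.fract_nonneg _) (Int.fract_lt_one _).le, hu, hu]
    have p1 : ∀ y : ℝ, per γ (Int.fract (s + u) + y) = per γ (u + s + y) := by
      intro y
      unfold per
      congr 2
      rw [Int.fract_eq_fract]
      exact ⟨-⌊s + u⌋, by have := Int.floor_add_fract (s + u); push_cast; linarith⟩
    have p2 := p1 0
    rw [add_zero, add_zero] at p2
    rw [p1, p2, ← add_assoc]
  have e2 : ∀ s : ℝ, 0 ≤ s → s ≤ 1 → F (PMA.rot s γ) = G s := by
    intro s h0 h1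
    rw [hG]
    simp only
    rcases eq_or_lt_of_le h1 with h2 | h2
    · rw [h2, Int.fract_one]
      congr 1
      ext t
      rw [rot_per h zero_le_one le_rfl, rot_per h le_rfl zero_le_one, add_comm (1 : ℝ), per_add, zero_add]
      have : per γ 1 = per γ 0 := by
        have := per_add γ 0
        rwa [zero_add] at this
      rw [this]
    · rw [Int.fract_eq_self.2 ⟨h0, h2⟩]
  have i1 : ∫ s in (0 : ℝ)..1, F (PMA.rot s γ') = ∫ s in (0 : ℝ)..1, G (s + u) := by
    refine intervalIntegral.integral_congr fun s hs => ?_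
    rw [uIcc_of_le zero_le_one] at hs
    exact e1 s hs.1 hs.2
  have i2 : ∫ s in (0 : ℝ)..1, F (PMA.rot s γ) = ∫ s in (0 : ℝ)..1, G s := by
    refine intervalIntegral.integral_congr fun s hs => ?_
    rw [uIcc_of_le zero_le_one] at hs
    exact e2 s hs.1 hs.2
  rw [i1, i2, intervalIntegral.integral_comp_add_right (fun s => G s) u]
  have := hper.intervalIntegral_add_eq (0 + u) 0
  rw [zero_add, zero_add, add_comm] at this
  rw [zero_add, this]

/-- **`Fbar` does not see the direction** -/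
theorem fbar_rv {F : C(unitInterval, ℂ) → ℝ} (hF : Continuous F) (γ : C(unitInterval, ℂ)) : Fbar F (rv γ) = Fbar F γ := by
  rw [fbar_split hF, fbar_split hF, rv_rv, add_comm]

/-- **`Fbar` does not see the root** -/
theorem fbar_rt' {F : C(unitInterval, ℂ) → ℝ} (hF : Continuous F) {γ : C(unitInterval, ℂ)} (h : γ 0 = γ 1) {u : ℝ}
    (hu0 : 0 ≤ u) (hu1 : u ≤ 1) : Fbar F (rt u γ) = Fbar F γ := by
  have hc : rt u γ 0 = rt u γ 1 := by
    have e1 := rt_zero γ ⟨u, hu0, hu1⟩
    have e2 := rt_one h ⟨u, hu0, hu1⟩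
    exact e1.trans e2.symm
  have hv : ∀ {g : C(unitInterval, ℂ)}, g 0 = g 1 → rv g 0 = rv g 1 := by
    intro g hg
    rw [rv_apply, rv_apply, unitInterval.symm_zero, unitInterval.symm_one, hg]
  rw [fbar_split hF, fbar_split hF, mean_rt F h hc (per_rt h hu0 hu1),
    mean_rt F (γ := rv γ) (γ' := rv (rt u γ)) (hv h) (hv hc) (u := -u) fun x => ?_]
  rw [per_rv hc, per_rt h hu0 hu1, per_rv h]
  congr 1
  ring

theorem fbar_rt {F : C(unitInterval, ℂ) → ℝ} (hF : Continuous F) {γ : C(unitInterval, ℂ)} (h : SL γ) (u : unitInterval) :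
    Fbar F (rt u γ) = Fbar F γ := fbar_rt' hF h.1 u.2.1 u.2.2

end Pool.Agent.ROT.F
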