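import Pool.Agent.PMA.DpP
import Pool.Agent.NPR.Defs2
import Pool.Agent.TOG.Defs

/-!
# ROT, block F (helper5): events of the pieces of the closed words

* `GP n w B t` : some piece of `t` between the times `w` and `n - w` is in `B`;
* `gp_cmp` : the closed words have hardly more such pieces than the open words of the gap (after helper41's `dp_cmp`);
* **`cy_ev`** : if the pieces in `B` are rare in the walks then they are rare in the closed words, uniformly in `B`;
* **`cy_all`** : the same for the pieces at the ends (rotation of the closed word by one half), for an additive functional.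
-/

set_option autoImplicit false

open Finset

open scoped Classical

namespace Pool.Agent.ROT

open Pool.Agent.PMA Pool.Agent.PMA.Res Pool.Agent.NTS.Res

open HexObs hiding pos

open HexObs.SDN HexObs.TS HexObs.TIW HexObs.POLP NTSF NTSF.Mg NTF Pool.Agent.TSW.BP HexObs.MCP

open HexObs.NPR (wd)

/-- some piece of `t` between the times `w` and `n - w` is in `B` -/
def GP (n w : ℕ) (B : Set (List Bool)) (t : List Bool) : Prop := ∃ i j : ℕ, w ≤ i ∧ i ≤ j ∧ j + w ≤ n ∧ wd t i j ∈ B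

lemma wd_app {X M Y : List Bool} {i j : ℕ} (hij : i ≤ j) (hj : j ≤ M.length) :
    wd (X ++ (M ++ Y)) (X.length + i) (X.length + j) = wd M i j := by
  unfold wd
  rw [List.take_append, List.take_of_length_le (by omega), List.drop_append, List.drop_eq_nil_of_le (by omega), List.nil_append]
  rw [show X.length + i - X.length = i by omega, show X.length + j - X.length = j by omega, List.take_append_of_le_length hj]

/-- only the common part matters -/
lemma gp_shift {n w a : ℕ} {S : Set (List Bool)} {X M Y A B : List Bool} (hX : X.length ≤ a) (hB : B.length ≤ a)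
    (hM : n ≤ M.length + a) (hw : a ≤ w) (h : GP n w S (X ++ (M ++ Y))) : GP n (w - a) S (B ++ (M ++ A)) := by
  obtain ⟨i, j, h1, h2, h3, h4⟩ := h
  obtain ⟨i', rfl⟩ : ∃ i', i = X.length + i' := ⟨i - X.length, by omega⟩
  obtain ⟨j', rfl⟩ : ∃ j', j = X.length + j' := ⟨j - X.length, by omega⟩
  refine ⟨B.length + i', B.length + j', by omega, by omega, by omega, ?_⟩
  rw [wd_app (by omega) (by omega)] at h4
  rw [wd_app (by omega) (by omega)]
  exact h4

lemma gp_mono {n w w' : ℕ} {S : Set (List Bool)} {t : List Bool} (hw : w' ≤ w) (h : GP n w S t) : GP n w' S t := by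
  obtain ⟨i, j, h1, h2, h3, h4⟩ := h
  exact ⟨i, j, by omega, h2, by omega, h4⟩

/-- the average over `w` between `W` and `2 W` -/
noncomputable def gpA (n W : ℕ) (S : Set (List Bool)) (t : List Bool) : ℝ :=
  (∑ w ∈ range W, if GP n (W + w) S t then (1 : ℝ) else 0) / W

lemma gpA_nonneg (n W : ℕ) (S : Set (List Bool)) (t : List Bool) : 0 ≤ gpA n W S t := by
  unfold gpA
  exact div_nonneg (sum_nonneg fun _ _ => by split_ifs <;> norm_num) (Nat.cast_nonneg _)

lemma gpA_le {n W : ℕ} {S : Set (List Bool)} {t : List Bool} : gpA n W S t ≤ if GP n W S t then 1 else 0 := by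
  unfold gpA
  by_cases h : GP n W S t
  · rw [if_pos h]
    refine div_le_one_of_le₀ ?_ (Nat.cast_nonneg _)
    calc ∑ w ∈ range W, (if GP n (W + w) S t then (1 : ℝ) else 0) ≤ ∑ _w ∈ range W, (1 : ℝ) :=
          sum_le_sum fun _ _ => by split_ifs <;> norm_num
      _ = W := by rw [sum_const, nsmul_eq_mul, mul_one, card_range]
  · rw [if_neg h]
    have h1 : ∑ w ∈ range W, (if GP n (W + w) S t then (1 : ℝ) else 0) = 0 :=
      sum_eq_zero fun w _ => if_neg fun h2 => h (gp_mono (by omega) h2)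
    rw [h1, zero_div]

lemma gpA_ge {n W : ℕ} (hW : 0 < W) {S : Set (List Bool)} {t : List Bool} (h : GP n (2 * W) S t) : 1 ≤ gpA n W S t := by
  have hW' : (0 : ℝ) < W := by exact_mod_cast hW
  unfold gpA
  rw [le_div_iff₀ hW', one_mul]
  calc (W : ℝ) = ∑ _w ∈ range W, (1 : ℝ) := by rw [sum_const, nsmul_eq_mul, mul_one, card_range]
    _ ≤ _ := sum_le_sum fun w hw => by
        rw [mem_range] at hw
        rw [if_pos (gp_mono (by omega) h)]

lemma gpA_abs (n W : ℕ) (S : Set (List Bool)) (t : List Bool) : |gpA n W S t| ≤ 1 := by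
  rw [abs_of_nonneg (gpA_nonneg _ _ _ _)]
  refine gpA_le.trans ?_
  split_ifs <;> norm_num

/-- a shift of the condition changes the average by at most `a / W` -/
lemma gpA_shift {n W a : ℕ} (hW : 0 < W) {S : Set (List Bool)} {t t' : List Bool}
    (h : ∀ w, a ≤ w → GP n w S t → GP n (w - a) S t') : gpA n W S t ≤ gpA n W S t' + a / W := by
  have hW' : (0 : ℝ) < W := by exact_mod_cast hW
  rcases Nat.lt_or_ge W a with h1 | h1
  · have h2 : (1 : ℝ) ≤ a / W := by
      rw [le_div_iff₀ hW', one_mul]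
      exact_mod_cast h1.le
    have h3 := (abs_le.1 (gpA_abs n W S t)).2
    have h4 := gpA_nonneg n W S t'
    linarith
  · unfold gpA
    rw [← add_div]
    refine div_le_div_of_nonneg_right ?_ hW'.le
    have h2 : ∀ w ∈ range W, (if GP n (W + w) S t then (1 : ℝ) else 0) ≤
        if GP n (W + w - a) S t' then (1 : ℝ) else 0 := by
      intro w _
      by_cases h3 : GP n (W + w) S t
      · rw [if_pos h3, if_pos (h _ (by omega) h3)]
      · rw [if_neg h3]
        split_ifs <;> norm_num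
    refine (sum_le_sum h2).trans ?_
    obtain ⟨g, hg⟩ : ∃ g : ℕ → ℝ, g = fun w => if GP n w S t' then (1 : ℝ) else 0 := ⟨_, rfl⟩
    have g1 : ∀ w, 0 ≤ g w := fun w => by
      rw [hg]
      show (0 : ℝ) ≤ if _ then _ else _
      split_ifs <;> norm_num
    have g2 : ∀ w, g w ≤ 1 := fun w => by
      rw [hg]
      show (if _ then _ else _) ≤ (1 : ℝ)
      split_ifs <;> norm_num
    have e1 : ∑ w ∈ range W, (if GP n (W + w - a) S t' then (1 : ℝ) else 0) = ∑ w ∈ range W, g (W - a + w) := by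
      refine sum_congr rfl fun w _ => ?_
      rw [hg]
      show _ = if GP n (W - a + w) S t' then (1 : ℝ) else 0
      rw [show W + w - a = W - a + w by omega]
    have e2 : ∑ w ∈ range W, (if GP n (W + w) S t' then (1 : ℝ) else 0) = ∑ w ∈ range W, g (W + w) := by
      rw [hg]
    rw [e1, e2]
    have e3 : ∑ w ∈ range W, g (W - a + w) + ∑ w ∈ range a, g (W - a + W + w) =
        ∑ w ∈ range a, g (W - a + w) + ∑ w ∈ range W, g (W + w) := by
      have k1 := sum_range_add (fun w => g (W - a + w)) W a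
      have k2 := sum_range_add (fun w => g (W - a + w)) a W
      have k3 : ∑ w ∈ range W, g (W - a + (a + w)) = ∑ w ∈ range W, g (W + w) :=
        sum_congr rfl fun w _ => by rw [show W - a + (a + w) = W + w by omega]
      have k4 : ∑ w ∈ range a, g (W - a + (W + w)) = ∑ w ∈ range a, g (W - a + W + w) :=
        sum_congr rfl fun w _ => by rw [← add_assoc]
      rw [add_comm W a, k4] at k1
      rw [k3] at k2
      linarith
    have e4 : ∑ w ∈ range a, g (W - a + w) ≤ a := by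
      calc ∑ w ∈ range a, g (W - a + w) ≤ ∑ _w ∈ range a, (1 : ℝ) := sum_le_sum fun w _ => g2 _
        _ = a := by rw [sum_const, nsmul_eq_mul, mul_one, card_range]
    have e5 : 0 ≤ ∑ w ∈ range a, g (W - a + W + w) := sum_nonneg fun w _ => g1 _
    linarith

lemma gpA_near {n W a : ℕ} (hW : 0 < W) {S : Set (List Bool)} {X M Y A B : List Bool} (hX : X.length ≤ a) (hB : B.length ≤ a)
    (hM : n ≤ M.length + a) : |gpA n W S (X ++ (M ++ Y)) - gpA n W S (B ++ (M ++ A))| ≤ a / W := by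
  have h1 := gpA_shift (n := n) (a := a) hW (S := S) (t := X ++ (M ++ Y)) (t' := B ++ (M ++ A))
    fun w hw h => gp_shift hX hB hM hw h
  have h2 := gpA_shift (n := n) (a := a) hW (S := S) (t := B ++ (M ++ A)) (t' := X ++ (M ++ Y))
    fun w hw h => gp_shift hB hX hM hw h
  rw [abs_le]
  constructor <;> linarith

/-- open words and closed words -/
lemma gpA_open {n W : ℕ} (hW : 0 < W) {S : Set (List Bool)} {Cr : ℝ} (hCr : (n : ℝ) ≤ Cr * W) (hn : 0 < n) {X M Y A B : List Bool}
    (h : (B ++ (M ++ A)).length = n + 1) :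
    |gpA n W S (X ++ (M ++ Y)) - gpA n W S (B ++ (M ++ A))| ≤ Cr * (((X.length + Y.length + (A.length + B.length) : ℕ) : ℝ) / n) := by
  obtain ⟨a, ha⟩ : ∃ a, a = X.length + Y.length + (A.length + B.length) := ⟨_, rfl⟩
  have hl : B.length + (M.length + A.length) = n + 1 := by
    rw [← h, List.length_append, List.length_append]
  have h1 := gpA_near (n := n) (W := W) (a := a) hW (S := S) (X := X) (M := M) (Y := Y) (A := A) (B := B)
    (by omega) (by omega) (by omega)
  rw [← ha]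
  refine h1.trans ?_
  have hW' : (0 : ℝ) < W := by exact_mod_cast hW
  have hn' : (0 : ℝ) < n := by exact_mod_cast hn
  rw [← mul_div_assoc, div_le_div_iff₀ hW' hn']
  have ha0 : (0 : ℝ) ≤ a := Nat.cast_nonneg a
  calc (a : ℝ) * n ≤ a * (Cr * W) := mul_le_mul_of_nonneg_left hCr ha0
    _ = Cr * a * W := by ring

/-- rotations of closed words -/
lemma gpA_rot {n W : ℕ} (hW : 0 < W) {S : Set (List Bool)} {Cr : ℝ} (hCr : ((n + 1 : ℕ) : ℝ) ≤ Cr * W) {L : List Bool}
    (hL : L.length = n + 1) {u : ℕ} (hu : u < n + 1) :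
    |gpA n W S (L.rotate u) - gpA n W S L| ≤ Cr * (u / ((n + 1 : ℕ) : ℝ)) := by
  have e1 : L.rotate u = [] ++ (L.drop u ++ L.take u) := by
    rw [List.rotate_eq_drop_append_take (by omega), List.nil_append]
  have e2 : L = L.take u ++ (L.drop u ++ []) := by
    rw [List.append_nil, List.take_append_drop]
  have h1 := gpA_near (n := n) (W := W) (a := u) hW (S := S) (X := []) (M := L.drop u) (Y := L.take u) (A := [])
    (B := L.take u) (by simp) (by rw [List.length_take]; omega) (by rw [List.length_drop]; omega)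
  rw [← e1, ← e2] at h1
  refine h1.trans ?_
  have hW' : (0 : ℝ) < W := by exact_mod_cast hW
  have hn' : (0 : ℝ) < ((n + 1 : ℕ) : ℝ) := by positivity
  rw [← mul_div_assoc, div_le_div_iff₀ hW' hn']
  have ha0 : (0 : ℝ) ≤ u := Nat.cast_nonneg u
  calc (u : ℝ) * ((n + 1 : ℕ) : ℝ) ≤ u * (Cr * W) := mul_le_mul_of_nonneg_left hCr ha0
    _ = Cr * u * W := by ring

/-- the closed words and the open words of the gap -/
theorem gp_cmp : ∀ ε τ K : ℝ, 0 < ε → 0 < τ → 1 ≤ K → ∃ r0 : ℝ, 0 < r0 ∧ ∀ r : ℝ, 0 < r → r ≤ r0 → ∃ n0 : ℕ,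
    ∀ n : ℕ, n0 ≤ n → Odd n → ∀ ρ : ℝ, r / K ≤ ρ → ρ ≤ K * r → ∀ (W : ℕ) (S : Set (List Bool)), τ * n ≤ W →
      (((cyF (n + 1)).filter fun t => GP n (2 * W) S t).card : ℝ) / ((cyF (n + 1)).card : ℝ) ≤
        gS n r (ρ * nr n) (fun _ t => if GP n W S t then 1 else 0) / gS n r (ρ * nr n) (fun _ _ => 1) + ε := by
  intro ε τ K hε hτ hK
  obtain ⟨r0, hr0, h⟩ := wpmG ε (2 / τ) hε (by positivity) K hK
  refine ⟨r0, hr0, fun r hr hrr => ?_⟩
  obtain ⟨n0, h⟩ := h r hr hrr
  refine ⟨n0 + 1, fun n hn ho ρ h1 h2 W S hW => ?_⟩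
  have hn1 : 1 ≤ n := by omega
  have hn' : (0 : ℝ) < n := by exact_mod_cast hn1
  have hW0 : 0 < W := by
    have : (0 : ℝ) < W := lt_of_lt_of_le (by positivity) hW
    exact_mod_cast this
  have hW1 : (n : ℝ) ≤ 1 / τ * W := by
    rw [div_mul_eq_mul_div, one_mul, le_div_iff₀ hτ]
    linarith
  have hCr : ((n + 1 : ℕ) : ℝ) ≤ 2 / τ * W := by
    have h3 : (1 : ℝ) ≤ n := by exact_mod_cast hn1
    have h4 : 2 / τ * (W : ℝ) = 1 / τ * W + 1 / τ * W := by ring
    rw [h4]
    push_cast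
    linarith
  have hCr' : (n : ℝ) ≤ 2 / τ * W := by
    push_cast at hCr
    linarith
  have key := h n (by omega) ho ρ h1 h2 (gpA n W S) (gpA n W S) (gpA_abs n W S) (gpA_abs n W S)
    (fun X M Y A B _ h4 => gpA_open hW0 hCr' hn1 h4)
    (fun L hL u hu => gpA_rot hW0 hCr (mem_cyF.1 hL).1 hu)
  have k1 : (((cyF (n + 1)).filter fun t => GP n (2 * W) S t).card : ℝ) / ((cyF (n + 1)).card : ℝ) ≤
      (∑ t ∈ cyF (n + 1), gpA n W S t) / ((cyF (n + 1)).card : ℝ) := by
    refine div_le_div_of_nonneg_right ?_ (Nat.cast_nonneg _)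
    calc (((cyF (n + 1)).filter fun t => GP n (2 * W) S t).card : ℝ) =
          ∑ _t ∈ (cyF (n + 1)).filter fun t => GP n (2 * W) S t, (1 : ℝ) := by
          rw [sum_const, nsmul_eq_mul, mul_one]
      _ ≤ ∑ t ∈ (cyF (n + 1)).filter fun t => GP n (2 * W) S t, gpA n W S t :=
          sum_le_sum fun t ht => gpA_ge hW0 (mem_filter.1 ht).2
      _ ≤ _ := sum_le_sum_of_subset_of_nonneg (filter_subset _ _) fun t _ _ => gpA_nonneg _ _ _ _
  have k2 : gS n r (ρ * nr n) (fun _ t => gpA n W S t) / gS n r (ρ * nr n) (fun _ _ => 1) ≤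
      gS n r (ρ * nr n) (fun _ t => if GP n W S t then 1 else 0) / gS n r (ρ * nr n) (fun _ _ => 1) := by
    have hx := xc_pos
    refine div_le_div_of_nonneg_right ?_ ?_
    · unfold gS
      exact sum_le_sum fun k _ => mul_le_mul_of_nonneg_left (sum_le_sum fun t _ => gpA_le) (by positivity)
    · unfold gS
      exact sum_nonneg fun k _ => mul_nonneg (by positivity) (sum_nonneg fun _ _ => zero_le_one)
  have k3 := (abs_le.1 key).1
  linarith

/-- **rare pieces of the walks are rare in the closed words**, away from the ends, uniformly in the set of the pieces -/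
theorem cy_ev : ∀ ε τ : ℝ, 0 < ε → 0 < τ → ∃ (η : ℝ) (n0 : ℕ), 0 < η ∧ ∀ n : ℕ, n0 ≤ n → Odd n → ∀ S : Set (List Bool),
    (∀ k : ℕ, n ≤ 2 * k → k ≤ n → TOG.Pn k {t | ∃ i j : ℕ, i ≤ j ∧ j ≤ t.length ∧ wd t i j ∈ S} ≤ η) → ∀ W : ℕ, τ * n ≤ W →
      (((cyF (n + 1)).filter fun t => GP n W S t).card : ℝ) ≤ ε * ((cyF (n + 1)).card : ℝ) := by
  intro ε τ hε hτ
  obtain ⟨c0, C0, hc0, hsz⟩ := (oneFacts finE).sz
  have hcC : c0 ≤ C0 := by
    have h1 := hsz 1 le_rfl
    rw [Nat.cast_one, Real.one_rpow, mul_one, mul_one] at h1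
    exact h1.1.trans h1.2
  have hC0 : 0 < C0 := by linarith
  have hsg : ∀ n, 1 ≤ n → c0 ≤ sg n ∧ sg n ≤ C0 := by
    intro n hn
    have p1 := nr_pos hn
    unfold sg
    rw [le_div_iff₀ p1, div_le_iff₀ p1]
    exact hsz n hn
  obtain ⟨K, hK⟩ : ∃ K : ℝ, K = max 1 (max C0 (1 / c0)) := ⟨_, rfl⟩
  have hK1 : 1 ≤ K := hK ▸ le_max_left _ _
  have hKC : C0 ≤ K := hK ▸ (le_max_left _ _).trans (le_max_right _ _)
  have hKc : 1 / c0 ≤ K := hK ▸ (le_max_right _ _).trans (le_max_right _ _)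
  have hK0 : 0 < K := by linarith
  obtain ⟨r1, hr1, hcmp⟩ := gp_cmp (ε / 2) (τ / 4) K (by positivity) (by positivity) hK1
  obtain ⟨r2, hr2, -, hnear⟩ := near_low
  -- the radius
  obtain ⟨r, hr, hrr1, hrr2, hrr3, hrr4⟩ : ∃ r : ℝ, 0 < r ∧ r ≤ r1 ∧ r ≤ r2 ∧ r ^ (4 / 3 : ℝ) ≤ τ / 8 ∧ r ^ (4 / 3 : ℝ) ≤ 1 / 2 := by
    obtain ⟨v, hv⟩ : ∃ v : ℝ, v = min (τ / 8) (1 / 2) := ⟨_, rfl⟩
    have hv0 : 0 < v := by
      rw [hv]
      positivity
    refine ⟨min (min r1 r2) (v ^ (3 / 4 : ℝ)), by positivity, (min_le_left _ _).trans (min_le_left _ _),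
      (min_le_left _ _).trans (min_le_right _ _), ?_⟩
    have h1 : (min (min r1 r2) (v ^ (3 / 4 : ℝ))) ^ (4 / 3 : ℝ) ≤ v := by
      calc (min (min r1 r2) (v ^ (3 / 4 : ℝ))) ^ (4 / 3 : ℝ) ≤ (v ^ (3 / 4 : ℝ)) ^ (4 / 3 : ℝ) :=
            Real.rpow_le_rpow (by positivity) (min_le_right _ _) (by norm_num)
        _ = v := by
            rw [← Real.rpow_mul hv0.le]
            norm_num
    exact ⟨h1.trans (hv ▸ min_le_left _ _), h1.trans (hv ▸ min_le_right _ _)⟩
  obtain ⟨n1, hcmp⟩ := hcmp r hr hrr1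
  obtain ⟨c, n2, hc, hnear⟩ := hnear r hr hrr2
  obtain ⟨n5, hn5⟩ := exists_nat_ge (8 / τ + 8)
  refine ⟨c * ε / 2, 2 * (n1 + n2 + n5 + 3), by positivity, fun n hn ho S hS W' hW' => ?_⟩
  have hn1 : 1 ≤ n := by omega
  have hn0 : (0 : ℝ) < n := by exact_mod_cast hn1
  have hbig : 8 / τ + 8 ≤ n := hn5.trans (by exact_mod_cast (by omega : n5 ≤ n))
  have ht8 : 8 ≤ τ * n := by
    have h1 : 8 / τ ≤ n := by linarith
    rwa [div_le_iff₀' hτ] at h1
  -- the parameters
  obtain ⟨W, hWd⟩ : ∃ W : ℕ, W = ⌈τ * n / 4⌉₊ := ⟨_, rfl⟩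
  have hW1 : τ * n / 4 ≤ W := hWd ▸ Nat.le_ceil _
  have hW2 : (W : ℝ) < τ * n / 4 + 1 := hWd ▸ Nat.ceil_lt_add_one (by positivity)
  have hρ1 : r / K ≤ r * sg n := by
    have h1 := (hsg n hn1).1
    rw [div_le_iff₀ hK0, mul_assoc]
    refine le_mul_of_one_le_right hr.le ?_
    rw [div_le_iff₀ hc0] at hKc
    have h2 := mul_le_mul_of_nonneg_right h1 hK0.le
    linarith
  have hρ2 : r * sg n ≤ K * r := by
    have h1 := (hsg n hn1).2
    rw [mul_comm K r]
    exact mul_le_mul_of_nonneg_left (h1.trans hKC) hr.le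
  have key := hcmp n (by omega) ho (r * sg n) hρ1 hρ2 W S (by linarith)
  have hR : r * sg n * nr n = r * size n := by
    unfold sg
    have := (nr_pos hn1).ne'
    field_simp
  rw [hR] at key
  -- the open words
  have hx := xc_pos
  have hden : c * ∑ k ∈ wdw n r, xc ^ k * (cS k : ℝ) ≤ gS n r (r * size n) fun _ _ => 1 := by
    unfold gS
    rw [mul_sum]
    refine sum_le_sum fun k hk => ?_
    have hk1 : 1 ≤ k := by
      have h1 := (mem_wdw.1 hk).2
      have h2 : (0 : ℝ) < (1 - r ^ (4 / 3 : ℝ)) * n := mul_pos (by linarith) hn0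
      have : (0 : ℝ) < k := by linarith
      exact_mod_cast this
    have h1 := hnear n (by omega) k hk
    rw [near_card hk1, le_div_iff₀ (cS_pos' k)] at h1
    rw [sum_const, nsmul_eq_mul, mul_one]
    calc c * (xc ^ k * (cS k : ℝ)) = xc ^ k * (c * cS k) := by ring
      _ ≤ _ := mul_le_mul_of_nonneg_left h1 (by positivity)
  have hnum : gS n r (r * size n) (fun _ t => if GP n W S t then 1 else 0) ≤
      c * ε / 2 * ∑ k ∈ wdw n r, xc ^ k * (cS k : ℝ) := by
    unfold gS
    rw [mul_sum]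
    refine sum_le_sum fun k hk => ?_
    obtain ⟨hk1, hk2⟩ := mem_wdw.1 hk
    have hhalf : (n : ℝ) / 2 ≤ k := by
      have h1 : 1 / 2 * (n : ℝ) ≤ (1 - r ^ (4 / 3 : ℝ)) * n := mul_le_mul_of_nonneg_right (by linarith) hn0.le
      linarith
    have hhalf' : n ≤ 2 * k := by
      have : (n : ℝ) ≤ 2 * k := by linarith
      exact_mod_cast this
    have hk4 : n ≤ k + W := by
      have h1 : r ^ (4 / 3 : ℝ) * n ≤ τ / 8 * n := mul_le_mul_of_nonneg_right hrr3 hn0.le
      have h2 : (n : ℝ) ≤ k + W := by linarith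
      exact_mod_cast h2
    have h1 := hS k hhalf' hk1
    unfold TOG.Pn at h1
    rw [div_le_iff₀ (cS_pos' k)] at h1
    have h2 : ∑ t ∈ gapF k (r * size n), (if GP n W S t then (1 : ℝ) else 0) ≤
        ({t | t ∈ SawN k ∧ t ∈ {t : List Bool | ∃ i j : ℕ, i ≤ j ∧ j ≤ t.length ∧ wd t i j ∈ S}}.ncard : ℝ) := by
      rw [← sum_filter, sum_const, nsmul_eq_mul, mul_one]
      have h3 : {t | t ∈ SawN k ∧ t ∈ {t : List Bool | ∃ i j : ℕ, i ≤ j ∧ j ≤ t.length ∧ wd t i j ∈ S}}.Finite :=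
        (List.finite_length_eq Bool k).subset fun t h => h.1.1
      rw [← Set.ncard_coe_finset]
      have h4 : (↑((gapF k (r * size n)).filter fun t => GP n W S t) : Set (List Bool)) ⊆
          {t | t ∈ SawN k ∧ t ∈ {t : List Bool | ∃ i j : ℕ, i ≤ j ∧ j ≤ t.length ∧ wd t i j ∈ S}} := by
        intro t ht
        rw [mem_coe, mem_filter] at ht
        obtain ⟨ht1, i, j, g1, g2, g3, g4⟩ := ht
        unfold gapF at ht1
        rw [mem_filter, TIW.mem_sawF] at ht1
        exact ⟨ht1.1, i, j, g2, by rw [ht1.1.1]; omega, g4⟩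
      exact_mod_cast Set.ncard_le_ncard h4 h3
    calc xc ^ k * ∑ t ∈ gapF k (r * size n), (if GP n W S t then (1 : ℝ) else 0) ≤ xc ^ k * (c * ε / 2 * cS k) :=
          mul_le_mul_of_nonneg_left (h2.trans h1) (by positivity)
      _ = _ := by ring
  have hopen : gS n r (r * size n) (fun _ t => if GP n W S t then 1 else 0) / gS n r (r * size n) (fun _ _ => 1) ≤ ε / 2 := by
    have h1 : (0 : ℝ) < ∑ k ∈ wdw n r, xc ^ k * (cS k : ℝ) := by
      refine sum_pos (fun k _ => mul_pos (by positivity) (cS_pos' k)) ⟨n, mem_wdw.2 ⟨le_rfl, ?_⟩⟩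
      have : 0 ≤ r ^ (4 / 3 : ℝ) * n := by positivity
      linarith
    have h2 : 0 < gS n r (r * size n) fun _ _ => 1 := lt_of_lt_of_le (by positivity) hden
    rw [div_le_iff₀ h2]
    refine hnum.trans ?_
    calc c * ε / 2 * ∑ k ∈ wdw n r, xc ^ k * (cS k : ℝ) = ε / 2 * (c * ∑ k ∈ wdw n r, xc ^ k * (cS k : ℝ)) := by ring
      _ ≤ _ := mul_le_mul_of_nonneg_left hden (by positivity)
  have hW3 : 2 * W ≤ W' := by
    have : (2 : ℝ) * W ≤ W' := by linarith
    exact_mod_cast this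
  rcases Nat.eq_zero_or_pos (cyF (n + 1)).card with h0 | h0
  · have h1 : cyF (n + 1) = ∅ := Finset.card_eq_zero.1 h0
    rw [h1]
    simp
  · have h0' : (0 : ℝ) < (cyF (n + 1)).card := by exact_mod_cast h0
    have h1 : (((cyF (n + 1)).filter fun t => GP n W' S t).card : ℝ) ≤ (((cyF (n + 1)).filter fun t => GP n (2 * W) S t).card : ℝ) := by
      exact_mod_cast card_le_card (monotone_filter_right _ fun t _ h => gp_mono hW3 h)
    have h2 : (((cyF (n + 1)).filter fun t => GP n (2 * W) S t).card : ℝ) / ((cyF (n + 1)).card : ℝ) ≤ ε := by linarith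
    rw [div_le_iff₀ h0'] at h2
    exact h1.trans h2

/-! ### the ends -/

/-- a piece of the rotated closed word -/
lemma wd_rot_lo {L : List Bool} {n h x y : ℕ} (hL : L.length = n + 1) (hh : h ≤ n + 1) (hxy : x ≤ y) (hy : y ≤ h) :
    wd (L.rotate h) (n + 1 - h + x) (n + 1 - h + y) = wd L x y := by
  have e1 : L.rotate h = L.drop h ++ (L.take h ++ []) := by
    rw [List.append_nil, List.rotate_eq_drop_append_take (by omega)]
  have hl : (L.drop h).length = n + 1 - h := by rw [List.length_drop, hL]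
  have h1 := wd_app (X := L.drop h) (M := L.take h) (Y := []) hxy (by rw [List.length_take]; omega)
  rw [hl, ← e1] at h1
  rw [h1]
  unfold wd
  rw [List.take_take, min_eq_left hy]

lemma wd_rot_hi {L : List Bool} {n h x y : ℕ} (hL : L.length = n + 1) (hx : h ≤ x) (hxy : x ≤ y) (hy : y ≤ n + 1) :
    wd (L.rotate h) (x - h) (y - h) = wd L x y := by
  have e1 : L.rotate h = [] ++ (L.drop h ++ L.take h) := by
    rw [List.nil_append, List.rotate_eq_drop_append_take (by omega)]
  have h1 := wd_app (X := []) (M := L.drop h) (Y := L.take h) (i := x - h) (j := y - h) (by omega)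
    (by rw [List.length_drop]; omega)
  rw [List.length_nil, zero_add, zero_add, ← e1] at h1
  rw [h1]
  unfold wd
  rw [List.take_drop, List.drop_drop, show h + (y - h) = y by omega, show h + (x - h) = x by omega]

end Pool.Agent.ROT
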