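import Pool.Agent.ROT.FClk1
import Pool.Agent.NPR.KapAll

/-!
# ROT, block F (helper5): the clock of the closed words

* **`cy_clk`** : with the gauge `ka` of the walks (`KapN`): the number of the letters of every piece of a closed word is
  `ka R` times its number of pieces of diameter `R`, up to `ε n`, for all the radii `R 0 / 2 ^ i` at once.
-/

set_option autoImplicit false

open Finset

open scoped Classical

namespace Pool.Agent.ROT

open Pool.Agent.PMA Pool.Agent.PMA.Res Pool.Agent.NTS.Res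

open HexObs hiding pos

open HexObs.SDN HexObs.TS HexObs.TIW HexObs.POLP NTSF NTSF.Mg NTF Pool.Agent.TSW.BP HexObs.MCP

open HexObs.NPR (wd)

open Pool.Agent.NPR (Vm Vm_one af_Vm KapN octaves)

lemma wd_split {L : List Bool} {x z y : ℕ} (hxz : x ≤ z) (hzy : z ≤ y) : wd L x y = wd L x z ++ wd L z y := by
  unfold wd
  have h1 : L.take y = L.take z ++ (L.take y).drop z := by
    conv_lhs => rw [← List.take_append_drop z (L.take y)]
    rw [List.take_take, min_eq_left hzy]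
  rcases Nat.lt_or_ge L.length z with h | h
  · have e1 : (L.take y).drop z = [] := List.drop_eq_nil_of_le (by rw [List.length_take]; omega)
    rw [e1, List.append_nil, List.take_of_length_le (by omega), List.take_of_length_le (by omega)]
  · conv_lhs => rw [h1]
    rw [List.drop_append, List.length_take, min_eq_left h, show x - z = 0 by omega, List.drop_zero]

lemma wd_length {L : List Bool} {x y : ℕ} (hy : y ≤ L.length) : (wd L x y).length = y - x := by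
  unfold wd
  rw [List.length_drop, List.length_take, min_eq_left hy]

/-- the error of the clock -/
noncomputable def ce (ka : ℝ → ℝ) (R : ℝ) (u : List Bool) : ℝ := ka R * Vm R u - u.length

section

variable {ka : ℝ → ℝ} {R : ℝ}

lemma ce_app (hR : 1 ≤ R) (hk : 0 ≤ ka R) (u v : List Bool) : |ce ka R (u ++ v) - (ce ka R u + ce ka R v)| ≤ ka R := by
  have hR0 : 0 ≤ R := by linarith
  have h := (af_Vm hR (r := ⌊R⌋₊) (Nat.floor_le hR0) (Nat.lt_floor_add_one R) (Nat.one_le_floor_iff _ |>.2 hR)).1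
  have h1 := h.le u v
  have h2 := h.ge u v
  unfold ce
  rw [List.length_append]
  push_cast
  have e : ka R * Vm R (u ++ v) - (u.length + v.length) - (ka R * Vm R u - u.length + (ka R * Vm R v - v.length)) =
      ka R * (Vm R (u ++ v) - (Vm R u + Vm R v)) := by ring
  rw [e, abs_mul, abs_of_nonneg hk]
  refine mul_le_of_le_one_right hk ?_
  rw [abs_le]
  constructor <;> linarith

/-- two pieces -/
lemma ce_two {L : List Bool} (hR : 1 ≤ R) (hk : 0 ≤ ka R) {E : ℝ} (hE : ka R ≤ E) {a b : ℝ} {x z y : ℕ} (hxz : x ≤ z) (hzy : z ≤ y)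
    (h1 : |ce ka R (wd L x z)| ≤ a) (h2 : |ce ka R (wd L z y)| ≤ b) : |ce ka R (wd L x y)| ≤ a + b + E := by
  rw [wd_split hxz hzy]
  have h3 := ce_app hR hk (wd L x z) (wd L z y)
  rw [abs_le] at h1 h2 h3 ⊢
  constructor <;> linarith [h1.1, h1.2, h2.1, h2.2, h3.1, h3.2]

end

/-- the pieces with a wrong clock -/
def BadP (ka : ℝ → ℝ) (D e : ℝ) (n : ℕ) (R0 : ℝ) : Set (List Bool) :=
  {u | ∃ i : ℕ, 2 ≤ R0 / 2 ^ i ∧ D * (R0 / 2 ^ i) ≤ (n : ℝ) ^ (3 / 4 : ℝ) ∧ e * n < |ce ka (R0 / 2 ^ i) u|}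

/-- the walks with a wrong clock are rare -/
lemma walk_bad {ka : ℝ → ℝ} (hN : ∀ (J : ℕ) (ε : ℝ), 0 < ε → ∃ (D : ℝ) (n0 : ℕ), 0 < D ∧ ∀ (n : ℕ) (Rs : ℕ → ℕ → ℝ), n0 ≤ n →
    (∀ l j, j < J → 2 ^ l ≤ Rs l j ∧ Rs l j ≤ 2 ^ (l + 1)) →
    TOG.Pn n {t | ∃ l j, 1 ≤ l ∧ j < J ∧ D * Rs l j ≤ (n : ℝ) ^ (3 / 4 : ℝ) ∧ ¬ ∀ x y : ℕ, x ≤ y → y ≤ t.length →
      |ka (Rs l j) * Vm (Rs l j) (wd t x y) - ((y : ℝ) - x)| ≤ ε * n} ≤ ε) {η e : ℝ} (hη : 0 < η) (he : 0 < e) :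
    ∃ (D : ℝ) (n0 : ℕ), 0 < D ∧ ∀ n k : ℕ, n0 ≤ k → n ≤ 2 * k → k ≤ n → ∀ R0 : ℝ, 0 < R0 →
      TOG.Pn k {t | ∃ i j : ℕ, i ≤ j ∧ j ≤ t.length ∧ wd t i j ∈ BadP ka D e n R0} ≤ η := by
  obtain ⟨ε, hε⟩ : ∃ ε : ℝ, ε = min η e := ⟨_, rfl⟩
  have hε0 : 0 < ε := by
    rw [hε]
    exact lt_min hη he
  obtain ⟨D, n0, hD, hN⟩ := hN 1 ε hε0
  refine ⟨2 * D, n0 + 1, by positivity, fun n k hk h2k hkn R0 hR0 => ?_⟩
  obtain ⟨Rs, hRs, hRs2⟩ := octaves (J := 1) (R := fun i => R0 / 2 ^ i) (fun i i' h => by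
    exact div_le_div_of_nonneg_left hR0.le (by positivity) (pow_le_pow_right₀ (by norm_num) h)) (fun i => by
    show R0 / 2 ^ (i + 1) = R0 / 2 ^ i / 2
    rw [pow_succ, div_div])
  have h1 := hN k Rs (by omega) (fun l j _ => hRs l j)
  have hkε : ε ≤ η := by
    rw [hε]
    exact min_le_left _ _
  have hke : ε ≤ e := by
    rw [hε]
    exact min_le_right _ _
  refine le_trans ?_ (h1.trans hkε)
  unfold TOG.Pn
  refine div_le_div_of_nonneg_right ?_ (Nat.cast_nonneg _)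
  have hfin : {t | t ∈ SawN k ∧ t ∈ {t : List Bool | ∃ l j, 1 ≤ l ∧ j < 1 ∧ D * Rs l j ≤ (k : ℝ) ^ (3 / 4 : ℝ) ∧
      ¬ ∀ x y : ℕ, x ≤ y → y ≤ t.length → |ka (Rs l j) * Vm (Rs l j) (wd t x y) - ((y : ℝ) - x)| ≤ ε * k}}.Finite :=
    (List.finite_length_eq Bool k).subset fun t h => h.1.1
  refine Nat.cast_le.2 (Set.ncard_le_ncard ?_ hfin)
  rintro t ⟨ht, x, y, hxy, hy, i, hi1, hi2, hi3⟩
  refine ⟨ht, ?_⟩
  obtain ⟨l, hl1, hl2⟩ := exists_nat_pow_near (y := (2 : ℝ)) (x := R0 / 2 ^ i) (by linarith) (by norm_num)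
  have hl0 : 1 ≤ l := by
    by_contra hcon
    have : l = 0 := by omega
    rw [this] at hl2
    norm_num at hl2
    linarith
  obtain ⟨j, hj, hjR⟩ := hRs2 l i hl1 hl2
  refine ⟨l, j, hl0, hj, ?_, fun hall => ?_⟩
  · rw [hjR]
    have hk0 : (0 : ℝ) ≤ k := Nat.cast_nonneg _
    have h2 : (n : ℝ) ^ (3 / 4 : ℝ) ≤ 2 * (k : ℝ) ^ (3 / 4 : ℝ) := by
      have h2k' : (n : ℝ) ≤ 2 * k := by exact_mod_cast h2k
      calc (n : ℝ) ^ (3 / 4 : ℝ) ≤ (2 * (k : ℝ)) ^ (3 / 4 : ℝ) := Real.rpow_le_rpow (Nat.cast_nonneg _) h2k' (by norm_num)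
        _ = (2 : ℝ) ^ (3 / 4 : ℝ) * (k : ℝ) ^ (3 / 4 : ℝ) := Real.mul_rpow (by norm_num) hk0
        _ ≤ 2 * (k : ℝ) ^ (3 / 4 : ℝ) := by
            refine mul_le_mul_of_nonneg_right ?_ (by positivity)
            calc (2 : ℝ) ^ (3 / 4 : ℝ) ≤ (2 : ℝ) ^ (1 : ℝ) := Real.rpow_le_rpow_of_exponent_le (by norm_num) (by norm_num)
              _ = 2 := Real.rpow_one 2
    linarith
  · have h3 := hall x y hxy hy
    rw [hjR] at h3
    have h4 : ce ka (R0 / 2 ^ i) (wd t x y) = ka (R0 / 2 ^ i) * Vm (R0 / 2 ^ i) (wd t x y) - ((y : ℝ) - x) := by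
      unfold ce
      rw [wd_length hy, Nat.cast_sub hxy]
    rw [h4] at hi3
    have h5 : ε * k ≤ e * n := by
      have h6 : (k : ℝ) ≤ n := by exact_mod_cast hkn
      calc ε * (k : ℝ) ≤ e * k := mul_le_mul_of_nonneg_right hke (Nat.cast_nonneg _)
        _ ≤ e * n := mul_le_mul_of_nonneg_left h6 he.le
    linarith

/-- from the middle parts of the closed word and of its rotation to all its pieces -/
lemma two_halves {ka : ℝ → ℝ} {L : List Bool} {n W h : ℕ} (hL : L.length = n + 1) (hh : h = (n + 1) / 2) (hW : 4 * W + 4 ≤ n)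
    {R e : ℝ} (hR : 1 ≤ R) (hk : 0 ≤ ka R) (he : 0 ≤ e)
    (h1 : ∀ i j : ℕ, W ≤ i → i ≤ j → j + W ≤ n → |ce ka R (wd L i j)| ≤ e * n)
    (h2 : ∀ i j : ℕ, W ≤ i → i ≤ j → j + W ≤ n → |ce ka R (wd (L.rotate h) i j)| ≤ e * n) :
    ∀ x y : ℕ, x ≤ y → y ≤ n → |ce ka R (wd L x y)| ≤ 5 * e * n := by
  have hn0 : (0 : ℝ) ≤ n := Nat.cast_nonneg _
  have hen : 0 ≤ e * n := mul_nonneg he hn0
  -- the gauge
  have hkn : ka R ≤ e * n := by
    have h3 := h1 W W le_rfl le_rfl (by omega)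
    have h4 : wd L W W = [] := by
      have h5 : (wd L W W).length = 0 := by rw [wd_length (by omega), Nat.sub_self]
      exact List.length_eq_zero_iff.1 h5
    rw [h4] at h3
    unfold ce at h3
    rw [List.length_nil, Nat.cast_zero, sub_zero] at h3
    have h5 := Vm_one hR []
    have h6 := (abs_le.1 h3).2
    have h7 : ka R * 1 ≤ ka R * Vm R [] := mul_le_mul_of_nonneg_left h5 hk
    linarith
  have hlo : ∀ x y : ℕ, x ≤ y → y ≤ W → |ce ka R (wd L x y)| ≤ e * n := by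
    intro x y hxy hy
    rw [← wd_rot_lo hL (h := h) (by omega) hxy (by omega)]
    exact h2 _ _ (by omega) (by omega) (by omega)
  have hhi : ∀ x y : ℕ, n - W ≤ x → x ≤ y → y ≤ n → |ce ka R (wd L x y)| ≤ e * n := by
    intro x y hx hxy hy
    rw [← wd_rot_hi hL (h := h) (by omega) hxy (by omega)]
    exact h2 _ _ (by omega) (by omega) (by omega)
  intro x y hxy hy
  have hlast : ∀ x : ℕ, W ≤ x → x ≤ y → |ce ka R (wd L x y)| ≤ 3 * (e * n) := by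
    intro x hx hxy
    rcases Nat.lt_or_ge (n - W) y with c1 | c1
    · rcases Nat.lt_or_ge x (n - W) with c2 | c2
      · have h3 := ce_two (L := L) hR hk hkn (show x ≤ n - W by omega) (show n - W ≤ y by omega)
          (h1 x (n - W) hx (by omega) (by omega)) (hhi (n - W) y le_rfl (by omega) hy)
        linarith
      · have h3 := hhi x y c2 hxy hy
        linarith
    · have h3 := h1 x y hx hxy (by omega)
      linarith
  rcases Nat.lt_or_ge x W with c1 | c1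
  · rcases Nat.lt_or_ge y W with c2 | c2
    · have h3 := hlo x y hxy c2.le
      linarith
    · have h3 := ce_two (L := L) hR hk hkn (show x ≤ W by omega) c2 (hlo x W (by omega) le_rfl) (hlast W le_rfl c2)
      linarith
  · have h3 := hlast x c1 hxy
    linarith

/-- **the clock of the closed words** -/
theorem cy_clk : ∃ (ka : ℝ → ℝ) (B : ℝ), 0 < B ∧
    (∀ R : ℝ, 2 ≤ R → R ^ (4 / 3 : ℝ) ≤ B * ka R ∧ ka R ≤ B * R ^ (4 / 3 : ℝ)) ∧
    ∀ ε : ℝ, 0 < ε → ∃ (D : ℝ) (n0 : ℕ), 0 < D ∧ ∀ n : ℕ, n0 ≤ n → Odd n → ∀ R0 : ℝ, 0 < R0 →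
      (((cyF (n + 1)).filter fun t => ∃ i : ℕ, 2 ≤ R0 / 2 ^ i ∧ D * (R0 / 2 ^ i) ≤ (n : ℝ) ^ (3 / 4 : ℝ) ∧
        ¬ ∀ x y : ℕ, x ≤ y → y ≤ n → |ka (R0 / 2 ^ i) * Vm (R0 / 2 ^ i) (wd t x y) - ((y : ℝ) - x)| ≤ ε * n).card : ℝ) ≤
        ε * ((cyF (n + 1)).card : ℝ) := by
  obtain ⟨ka, B, hB, hka, hN⟩ := Pool.Agent.NPR.kapN
  refine ⟨ka, B, hB, hka, fun ε hε => ?_⟩
  have hka0 : ∀ R : ℝ, 2 ≤ R → 0 ≤ ka R := by
    intro R hR
    have h1 := (hka R hR).1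
    have h2 : (0 : ℝ) < R ^ (4 / 3 : ℝ) := Real.rpow_pos_of_pos (by linarith) _
    by_contra hcon
    rw [not_le] at hcon
    nlinarith
  obtain ⟨η, n1, hη, hev⟩ := cy_ev (ε / 2) (1 / 8) (by positivity) (by norm_num)
  obtain ⟨D, n2, hD, hw⟩ := walk_bad hN (η := η) (e := ε / 5) hη (by positivity)
  refine ⟨D, 2 * (n1 + n2 + 16), hD, fun n hn ho R0 hR0 => ?_⟩
  obtain ⟨W, hWd⟩ : ∃ W : ℕ, W = n / 8 + 1 := ⟨_, rfl⟩
  have hW8 : 1 / 8 * (n : ℝ) ≤ W := by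
    have : (n : ℝ) ≤ 8 * W := by exact_mod_cast (show n ≤ 8 * W by omega)
    linarith
  obtain ⟨S, hS⟩ : ∃ S, S = BadP ka D (ε / 5) n R0 := ⟨_, rfl⟩
  have h1 := hev n (by omega) ho S (fun k hk1 hk2 => by
    rw [hS]
    exact hw n k (by omega) hk1 hk2 R0 hR0) W hW8
  obtain ⟨h, hh⟩ : ∃ h, h = (n + 1) / 2 := ⟨_, rfl⟩
  have h2 : (((cyF (n + 1)).filter fun t => GP n W S (t.rotate h)).card : ℝ) ≤ ε / 2 * ((cyF (n + 1)).card : ℝ) := by
    refine le_trans (le_of_eq ?_) h1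
    have h3 := sum_rot (n + 1) h fun t => if GP n W S t then (1 : ℝ) else 0
    rw [← sum_filter, ← sum_filter, sum_const, sum_const, nsmul_eq_mul, nsmul_eq_mul, mul_one, mul_one] at h3
    exact h3
  have h3 : ((cyF (n + 1)).filter fun t => ∃ i : ℕ, 2 ≤ R0 / 2 ^ i ∧ D * (R0 / 2 ^ i) ≤ (n : ℝ) ^ (3 / 4 : ℝ) ∧
        ¬ ∀ x y : ℕ, x ≤ y → y ≤ n → |ka (R0 / 2 ^ i) * Vm (R0 / 2 ^ i) (wd t x y) - ((y : ℝ) - x)| ≤ ε * n) ⊆
      ((cyF (n + 1)).filter fun t => GP n W S t) ∪ (cyF (n + 1)).filter fun t => GP n W S (t.rotate h) := by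
    intro t ht
    rw [mem_filter] at ht
    obtain ⟨htc, i, hi1, hi2, hi3⟩ := ht
    rw [mem_union, mem_filter, mem_filter]
    by_contra hcon
    push Not at hcon
    obtain ⟨c1, c2⟩ := hcon
    have htl : t.length = n + 1 := (mem_cyF.1 htc).1
    have hno : ∀ L : List Bool, ¬ GP n W S L → ∀ a b : ℕ, W ≤ a → a ≤ b → b + W ≤ n → |ce ka (R0 / 2 ^ i) (wd L a b)| ≤ ε / 5 * n := by
      intro L hL a b ha hab hb
      by_contra hc
      rw [not_le] at hc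
      refine hL ⟨a, b, ha, hab, hb, ?_⟩
      rw [hS]
      exact ⟨i, hi1, hi2, hc⟩
    have hall := two_halves (ka := ka) (R := R0 / 2 ^ i) (e := ε / 5) htl hh (by omega) (by linarith) (hka0 _ hi1) (by positivity)
      (hno t (c1 htc)) (hno _ (c2 htc))
    refine hi3 fun x y hxy hy => ?_
    have h4 := hall x y hxy hy
    have h5 : ce ka (R0 / 2 ^ i) (wd t x y) = ka (R0 / 2 ^ i) * Vm (R0 / 2 ^ i) (wd t x y) - ((y : ℝ) - x) := by
      unfold ce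
      rw [wd_length (by omega), Nat.cast_sub hxy]
    rw [h5] at h4
    linarith
  have h4 : (((cyF (n + 1)).filter fun t => ∃ i : ℕ, 2 ≤ R0 / 2 ^ i ∧ D * (R0 / 2 ^ i) ≤ (n : ℝ) ^ (3 / 4 : ℝ) ∧
        ¬ ∀ x y : ℕ, x ≤ y → y ≤ n → |ka (R0 / 2 ^ i) * Vm (R0 / 2 ^ i) (wd t x y) - ((y : ℝ) - x)| ≤ ε * n).card : ℝ) ≤
      (((cyF (n + 1)).filter fun t => GP n W S t).card : ℝ) + (((cyF (n + 1)).filter fun t => GP n W S (t.rotate h)).card : ℝ) := by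
    exact_mod_cast (card_le_card h3).trans (card_union_le _ _)
  linarith

end Pool.Agent.ROT
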