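import Pool.Agent.ROT.FClk2
import Pool.Agent.NPR.KapL

/-!
# ROT, block F (helper5): the clock of the polygons, curves

* `nb_smul` : the number of the pieces and the change of the scale;
* `one_clk` : the clock of one word;
* **`pol_clk`** : for the uniformly random polygon with `n + 1` edges, in the lattice scale `S`: the time is the number of the
  pieces, with the gauge `ka (S ρ) / m`, where `m` is a reference number of steps (`n ≥ a m`).
-/

set_option autoImplicit false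

open Set Filter Topology MeasureTheory

open scoped Classical

namespace Pool.Agent.ROT

open Pool.Agent.PMA Pool.Agent.PMA.Res Pool.Agent.NTS.Res

open HexObs hiding pos curve vb

open HexObs.TIW HexObs.POLP NTSF.Mg HexObs.MCP

open NTF (JJ sw)

open HexObs.NPR (wd)

open Pool.Agent.NPR

open NTSF (size_pos om om_norm)

open Pool.Agent.TSW.BP (cr cr_norm rt3 curve_rt sg_pos rt3_zero rt3_one rt3_two pos_rt3)

/-! ### the change of the scale -/

lemma pcs_smul {c : ℝ} (hc : 0 < c) (s : ℝ) (γ : C(unitInterval, ℂ)) (a b : unitInterval) :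
    pcs s (c • γ) a b = pcs (s / c) γ a b := by
  have e : ∀ k, PcOk s (c • γ) a b k ↔ PcOk (s / c) γ a b k := by
    intro k
    have h : ∀ p q : unitInterval, dist ((c • γ) p) ((c • γ) q) ≤ s ↔ dist (γ p) (γ q) ≤ s / c := by
      intro p q
      rw [ContinuousMap.smul_apply, ContinuousMap.smul_apply, dist_smul₀, Real.norm_eq_abs, abs_of_pos hc, le_div_iff₀' hc]
    unfold PcOk
    simp only [h]
  unfold pcs
  congr 1
  ext k
  exact e k

lemma vb_smul {c : ℝ} (hc : 0 < c) (ρ : ℝ) (γ : C(unitInterval, ℂ)) (u : unitInterval) :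
    vb ρ (c • γ) u = c * vb (ρ / c) γ u := by
  unfold vb
  simp only [pcs_smul hc]
  rw [intervalIntegral.integral_comp_div (fun x => (pcs x γ 0 u : ℝ)) hc.ne', smul_eq_mul, mul_div_assoc]

lemma nb_smul {c : ℝ} (hc : 0 < c) (ρ : ℝ) (γ : C(unitInterval, ℂ)) (u : unitInterval) :
    nb ρ (c • γ) u = nb (ρ / c) γ u := by
  unfold nb
  rw [vb_smul hc]
  rcases eq_or_ne ρ 0 with h | h
  · rw [h, zero_div, div_zero, div_zero]
  · field_simp

/-! ### one word -/

lemma sw_take (n : ℕ) (t : List Bool) : sw n (t.take n) = sw n t := by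
  funext i
  show NTF.aa (dx up (t.take n) i) = NTF.aa (dx up t i)
  rw [Pool.Agent.IW.dx_take t n i i.2.le]

/-- the pieces at the scale `R` are at most the pieces at the scales between `R / 2` and `R` -/
lemma vz_le_vm {R : ℝ} (hR : 2 ≤ R) (u : List Bool) : (Vz R (zw u) 0 u.length : ℝ) ≤ Vm (R / 2) u := by
  unfold Vm
  rw [le_div_iff₀ (by linarith), show 2 * (R / 2) = R by ring]
  have hmono : ∀ {x x' : ℝ}, 1 ≤ x → x ≤ x' → Vz x' (zw u) 0 u.length ≤ Vz x (zw u) 0 u.length := fun h1 h2 =>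
    Vz_anti h1 h2 (Nat.zero_le _) fun i _ _ => zw_step u i
  have hint : IntervalIntegrable (fun x => (Vz x (zw u) 0 u.length : ℝ)) volume (R / 2) R := by
    refine AntitoneOn.intervalIntegrable ?_
    rw [uIcc_of_le (by linarith)]
    intro x hx y hy hxy
    show (Vz y _ 0 _ : ℝ) ≤ (Vz x _ 0 _ : ℝ)
    exact_mod_cast hmono (by linarith [hx.1]) hxy
  have h1 : ∫ _x in R / 2..R, (Vz R (zw u) 0 u.length : ℝ) ≤ ∫ x in R / 2..R, (Vz x (zw u) 0 u.length : ℝ) := by
    refine intervalIntegral.integral_mono_on (by linarith) (by simp) hint fun x hx => ?_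
    exact_mod_cast hmono (by linarith [hx.1]) hx.2
  rw [intervalIntegral.integral_const, smul_eq_mul] at h1
  linarith

/-- **the clock of one word** -/
lemma one_clk {n : ℕ} (hn : 1 ≤ n) {t : List Bool} (ht : t.length = n) {R k1 k2 q e : ℝ} (hR : 4 ≤ R) (hk1 : 0 < k1)
    (hk2 : 0 < k2) (hq : k1 ≤ q * k2) (he : 0 ≤ e)
    (h1 : ∀ k, k ≤ n → |k1 * Vm R (t.take k) - k| ≤ e * n) (h2 : |k2 * Vm (R / 2) t - n| ≤ e * n) (v : unitInterval) :
    |k1 * nb (R / size n) (curve (sw n t)) v - v * n| ≤ e * n + 1 + 2 / R * (q * ((1 + e) * n)) := by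
  have hs := size_pos hn
  have hn0 : (0 : ℝ) < n := by exact_mod_cast hn
  have hR0 : 0 < R := by linarith
  obtain ⟨ρ, hρ⟩ : ∃ ρ, ρ = R / size n := ⟨_, rfl⟩
  have hρ0 : 0 < ρ := by
    rw [hρ]
    positivity
  have hρR : ρ * size n = R := by
    rw [hρ]
    field_simp
  rw [← hρ]
  have hq0 : 0 ≤ q := by
    by_contra hcon
    rw [not_le] at hcon
    nlinarith
  have herr : 0 ≤ 2 / R * (q * ((1 + e) * n)) := by positivity
  have hv0 : (0 : ℝ) ≤ v := v.2.1
  have hv1 : (v : ℝ) ≤ 1 := v.2.2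
  rw [abs_le]
  constructor
  · obtain ⟨k, hk⟩ : ∃ k, k = ⌊(v : ℝ) * n⌋₊ := ⟨_, rfl⟩
    have c1 : (k : ℝ) ≤ v * n := by
      rw [hk]
      exact Nat.floor_le (by positivity)
    have c2 : (v : ℝ) * n < k + 1 := by
      rw [hk]
      exact Nat.lt_floor_add_one _
    have c3 : k ≤ n := by
      have : (k : ℝ) ≤ n := c1.trans (by nlinarith)
      exact_mod_cast this
    have c4 : (k : ℝ) / n ≤ v := by
      rw [div_le_iff₀ hn0]
      exact c1
    have h3 := vb_dn (t := t) hn ht hρ0 (by rw [hρR]; linarith) c3 c4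
    rw [hρR] at h3
    have h4 : (Vz R (fun j => pos (sw n t) j) 0 n : ℝ) ≤ Vm (R / 2) t := by
      rw [vz_take ht le_rfl, ← ht, List.take_length]
      exact vz_le_vm (by linarith) t
    have h5 : k2 * Vm (R / 2) t ≤ (1 + e) * n := by
      have := (abs_le.1 h2).2
      linarith
    have h6 : k1 * Vm (R / 2) t ≤ q * ((1 + e) * n) := by
      have h7 : 0 ≤ Vm (R / 2) t := zero_le_one.trans (Vm_one (by linarith) t)
      calc k1 * Vm (R / 2) t ≤ q * k2 * Vm (R / 2) t := mul_le_mul_of_nonneg_right hq h7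
        _ = q * (k2 * Vm (R / 2) t) := by ring
        _ ≤ q * ((1 + e) * n) := mul_le_mul_of_nonneg_left h5 hq0
    -- divide by ρ
    have h8 : Vm R (t.take k) ≤ nb ρ (curve (sw n t)) v + 2 / R * Vm (R / 2) t := by
      have h9 : Vm R (t.take k) = ρ * Vm R (t.take k) / ρ := by field_simp
      rw [h9, div_le_iff₀ hρ0, add_mul]
      refine h3.trans (add_le_add (le_of_eq ?_) ?_)
      · unfold nb
        field_simp
      · have h10 : 2 / size n = 2 / R * ρ := by
          rw [← hρR]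
          field_simp
        rw [h10]
        calc 2 / R * ρ * (Vz R (fun j => pos (sw n t) j) 0 n : ℝ) ≤ 2 / R * ρ * Vm (R / 2) t :=
              mul_le_mul_of_nonneg_left h4 (by positivity)
          _ = 2 / R * Vm (R / 2) t * ρ := by ring
    have h11 := mul_le_mul_of_nonneg_left h8 hk1.le
    have h12 := (abs_le.1 (h1 k c3)).1
    have h13 : k1 * (2 / R * Vm (R / 2) t) ≤ 2 / R * (q * ((1 + e) * n)) := by
      calc k1 * (2 / R * Vm (R / 2) t) = 2 / R * (k1 * Vm (R / 2) t) := by ring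
        _ ≤ _ := mul_le_mul_of_nonneg_left h6 (by positivity)
    rw [mul_add] at h11
    linarith
  · obtain ⟨k, hk⟩ : ∃ k, k = ⌈(v : ℝ) * n⌉₊ := ⟨_, rfl⟩
    have c1 : (v : ℝ) * n ≤ k := by
      rw [hk]
      exact Nat.le_ceil _
    have c2 : (k : ℝ) < v * n + 1 := by
      rw [hk]
      exact Nat.ceil_lt_add_one (by positivity)
    have c3 : k ≤ n := by
      rw [hk]
      refine Nat.ceil_le.2 ?_
      nlinarith
    have c4 : (v : ℝ) ≤ (k : ℝ) / n := by
      rw [le_div_iff₀ hn0]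
      exact c1
    have h3 := vb_up (t := t) hn ht hρ0 (by rw [hρR]; linarith) c3 c4
    rw [hρR] at h3
    have h4 : nb ρ (curve (sw n t)) v ≤ Vm R (t.take k) := by
      unfold nb
      rw [div_le_iff₀ hρ0]
      linarith
    have h5 := mul_le_mul_of_nonneg_left h4 hk1.le
    have h6 := (abs_le.1 (h1 k c3)).2
    linarith

/-! ### the polygons -/

lemma curve_rt' {n : ℕ} (hn : 1 ≤ n) (a : Fin 3) {t : List Bool} (ht : n ≤ t.length) :
    ((sg n)⁻¹ : ℝ) • pT (cr a) t n = curve (rt3 a (sw n t)) := by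
  rw [pT_of_le ht, ← curve_rt hn a t, smul_smul, inv_mul_cancel₀ (sg_pos hn).ne', one_smul]

lemma nb_rt (a : Fin 3) {n : ℕ} (s : Fin n → Fin 3) (ρ : ℝ) (u : unitInterval) :
    nb ρ (curve (rt3 a s)) u = nb ρ (curve s) u := by
  have h : ∀ p q, dist (curve (rt3 a s) p) (curve (rt3 a s) q) = dist (curve s p) (curve s q) := by
    intro p q
    fin_cases a
    · show dist (curve (rt3 0 s) p) (curve (rt3 0 s) q) = _
      rw [rt3_zero]
    · show dist (curve (NTSF.rot s) p) (curve (NTSF.rot s) q) = _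
      rw [dist_rot]
    · show dist (curve (rt3 2 s) p) (curve (rt3 2 s) q) = _
      rw [rt3_two, dist_rot, dist_rot]
  unfold nb
  rw [vb_iso h]

/-- the event: the clock is wrong at one of the scales `2 ^ (- i)`, `ρ1 ≤ 2 ^ (- i) ≤ ρ0` -/
def BadC (ka : ℝ → ℝ) (m : ℕ) (S τ ρ1 ρ0 ε : ℝ) : Set C(unitInterval, ℂ) :=
  {γ | ∃ i : ℕ, ρ1 ≤ (1 / 2 : ℝ) ^ i ∧ (1 / 2 : ℝ) ^ i ≤ ρ0 ∧ ∃ u : unitInterval,
    ε < |ka (S * (1 / 2) ^ i) / m * nb ((1 / 2) ^ i) γ u - τ * u|}

/-- **the clock of the polygons** -/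
theorem pol_clk : ∃ (ka : ℝ → ℝ) (B : ℝ), 0 < B ∧
    (∀ R : ℝ, 2 ≤ R → R ^ (4 / 3 : ℝ) ≤ B * ka R ∧ ka R ≤ B * R ^ (4 / 3 : ℝ)) ∧
    ∀ ε a c C : ℝ, 0 < ε → 0 < a → 0 < c → 0 < C → ∃ ρ0 : ℝ, 0 < ρ0 ∧ ∀ ρ1 : ℝ, 0 < ρ1 → ∃ m0 : ℕ, ∀ m : ℕ, m0 ≤ m →
      ∀ n : ℕ, Odd n → a * m ≤ n → ∀ S : ℝ, c * (m : ℝ) ^ (3 / 4 : ℝ) ≤ S → S ≤ C * (m : ℝ) ^ (3 / 4 : ℝ) →
        pmean n (fun γ => if (size n / S) • γ ∈ BadC ka m S (n / m) ρ1 ρ0 (ε * (n / m)) then 1 else 0) ≤ ε := by
  obtain ⟨ka, B, hB, hka, hcy⟩ := cy_clk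
  refine ⟨ka, B, hB, hka, fun ε a c C hε ha hc hC => ?_⟩
  have hka0 : ∀ R : ℝ, 2 ≤ R → 0 < ka R := by
    intro R hR
    have h1 := (hka R hR).1
    have h2 : (0 : ℝ) < R ^ (4 / 3 : ℝ) := Real.rpow_pos_of_pos (by linarith) _
    by_contra hcon
    rw [not_lt] at hcon
    nlinarith
  have hq : ∀ R : ℝ, 4 ≤ R → ka R ≤ 4 * B ^ 2 * ka (R / 2) := by
    intro R hR
    have h1 := (hka R (by linarith)).2
    have h2 := (hka (R / 2) (by linarith)).1
    have h3 : R ^ (4 / 3 : ℝ) ≤ 4 * (R / 2) ^ (4 / 3 : ℝ) := by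
      have h4 : R = 2 * (R / 2) := by ring
      conv_lhs => rw [h4]
      rw [Real.mul_rpow (by norm_num) (by linarith)]
      refine mul_le_mul_of_nonneg_right ?_ (Real.rpow_nonneg (by linarith) _)
      calc (2 : ℝ) ^ (4 / 3 : ℝ) ≤ (2 : ℝ) ^ (2 : ℝ) := Real.rpow_le_rpow_of_exponent_le (by norm_num) (by norm_num)
        _ = 4 := by norm_num
    calc ka R ≤ B * (4 * (B * ka (R / 2))) := h1.trans (mul_le_mul_of_nonneg_left
          (h3.trans (mul_le_mul_of_nonneg_left h2 (by norm_num))) hB.le)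
      _ = _ := by ring
  obtain ⟨e, he⟩ : ∃ e : ℝ, e = min (ε / 4) 1 := ⟨_, rfl⟩
  have he0 : 0 < e := by
    rw [he]
    positivity
  have he1 : e ≤ 1 := by
    rw [he]
    exact min_le_right _ _
  have heε : e ≤ ε / 4 := by
    rw [he]
    exact min_le_left _ _
  obtain ⟨D, n0, hD, hcy⟩ := hcy e he0
  obtain ⟨ρ0, hρ0⟩ : ∃ ρ0 : ℝ, ρ0 = a ^ (3 / 4 : ℝ) / (D * C) := ⟨_, rfl⟩
  have hρ00 : 0 < ρ0 := by
    rw [hρ0]
    positivity
  refine ⟨ρ0, hρ00, fun ρ1 hρ1 => ?_⟩
  obtain ⟨P, hP⟩ : ∃ P : ℝ, P = max 4 (2 * (4 * B ^ 2 * (2 * 1)) / (ε / 4)) := ⟨_, rfl⟩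
  have hP4 : 4 ≤ P := by
    rw [hP]
    exact le_max_left _ _
  obtain ⟨m1, hm1⟩ : ∃ m1 : ℕ, ∀ m : ℕ, m1 ≤ m → P / (c * ρ1) ≤ (m : ℝ) ^ (3 / 4 : ℝ) :=
    ((tendsto_rpow_atTop (by norm_num : (0 : ℝ) < 3 / 4)).comp tendsto_natCast_atTop_atTop).eventually_ge_atTop _
      |>.exists_forall_of_atTop
  obtain ⟨m2, hm2⟩ := exists_nat_ge ((n0 + 3 + 4 / ε) / a)
  refine ⟨max m1 m2, fun m hm n ho hn S hS1 hS2 => ?_⟩
  have hm3 : ((n0 : ℝ) + 3 + 4 / ε) / a ≤ m := hm2.trans (by exact_mod_cast (le_max_right _ _).trans hm)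
  rw [div_le_iff₀ ha] at hm3
  have h4ε : 0 < 4 / ε := by positivity
  have hn' : (n0 : ℝ) + 3 + 4 / ε ≤ n := by linarith
  have hn3 : n0 + 3 ≤ n := by
    have : ((n0 + 3 : ℕ) : ℝ) ≤ n := by
      push_cast
      linarith
    exact_mod_cast this
  have hn1 : 1 ≤ n := by omega
  have hn0 : (0 : ℝ) < n := by exact_mod_cast hn1
  have hm0 : (0 : ℝ) < m := by
    by_contra hcon
    have h1 : (m : ℝ) = 0 := le_antisymm (not_lt.1 hcon) (Nat.cast_nonneg _)
    rw [h1, zero_mul] at hm3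
    have : (0 : ℝ) ≤ n0 := Nat.cast_nonneg _
    linarith
  have hmr : 0 < (m : ℝ) ^ (3 / 4 : ℝ) := Real.rpow_pos_of_pos hm0 _
  have hS0 : 0 < S := lt_of_lt_of_le (by positivity) hS1
  have hs := size_pos hn1
  -- words
  have h1 := hcy n (by omega) ho S hS0
  rw [pmean_words (by omega) ho]
  have hcard : (0 : ℝ) ≤ ((cyF (n + 1)).card : ℝ) := Nat.cast_nonneg _
  rcases hcard.eq_or_lt with h0 | h0
  · rw [← h0, div_zero]
    exact hε.le
  rw [div_le_iff₀ h0]
  refine le_trans ?_ (h1.trans (mul_le_mul_of_nonneg_right (heε.trans (by linarith)) hcard))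
  rw [Finset.card_filter]
  push_cast
  refine Finset.sum_le_sum fun t ht => ?_
  have htl : t.length = n + 1 := ((Set.Finite.mem_toFinset _).1 ht).1
  -- a good word
  by_cases hbad : ∃ i : ℕ, 2 ≤ S / 2 ^ i ∧ D * (S / 2 ^ i) ≤ (n : ℝ) ^ (3 / 4 : ℝ) ∧
        ¬ ∀ x y : ℕ, x ≤ y → y ≤ n → |ka (S / 2 ^ i) * Vm (S / 2 ^ i) (wd t x y) - ((y : ℝ) - x)| ≤ e * n
  · rw [if_pos hbad]
    unfold f3
    have h2 : ∑ b : Fin 3, (fun γ : C(unitInterval, ℂ) => if (size n / S) • (((sg n)⁻¹ : ℝ) • γ) ∈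
        BadC ka m S (n / m) ρ1 ρ0 (ε * (n / m)) then (1 : ℝ) else 0) (pT (cr b) t n) ≤ ∑ _b : Fin 3, (1 : ℝ) :=
      Finset.sum_le_sum fun b _ => by
        show (if _ then (1 : ℝ) else 0) ≤ 1
        split_ifs <;> norm_num
    rw [Finset.sum_const, Finset.card_univ, Fintype.card_fin, nsmul_eq_mul, mul_one] at h2
    push_cast at h2
    linarith
  · rw [if_neg hbad]
    push Not at hbad
    unfold f3
    have h2 : ∀ b : Fin 3, (fun γ : C(unitInterval, ℂ) => if (size n / S) • (((sg n)⁻¹ : ℝ) • γ) ∈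
        BadC ka m S (n / m) ρ1 ρ0 (ε * (n / m)) then (1 : ℝ) else 0) (pT (cr b) t n) = 0 := by
      intro b
      show (if (size n / S) • (((sg n)⁻¹ : ℝ) • pT (cr b) t n) ∈ BadC ka m S (n / m) ρ1 ρ0 (ε * (n / m)) then (1 : ℝ) else 0) = 0
      rw [if_neg]
      rintro ⟨i, hi1, hi2, u, hu⟩
      refine absurd hu (not_lt.2 ?_)
      have hpi : (1 / 2 : ℝ) ^ i = 1 / 2 ^ i := by rw [one_div, inv_pow, one_div]
      obtain ⟨R, hR⟩ : ∃ R, R = S * (1 / 2) ^ i := ⟨_, rfl⟩
      have hR' : S / 2 ^ i = R := by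
        rw [hR, hpi]
        ring
      have hR2 : S / 2 ^ (i + 1) = R / 2 := by
        rw [← hR', pow_succ, div_div]
      have hi0 : (0 : ℝ) < (1 / 2) ^ i := by positivity
      -- the scale is large
      have hPR : P ≤ R := by
        have h3 := hm1 m ((le_max_left _ _).trans hm)
        rw [div_le_iff₀ (by positivity)] at h3
        calc P ≤ (m : ℝ) ^ (3 / 4 : ℝ) * (c * ρ1) := h3
          _ = c * (m : ℝ) ^ (3 / 4 : ℝ) * ρ1 := by ring
          _ ≤ S * (1 / 2) ^ i := mul_le_mul hS1 hi1 hρ1.le hS0.le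
          _ = R := hR.symm
      have hR4 : 4 ≤ R := hP4.trans hPR
      have hR0 : 0 < R := by linarith
      -- and small
      have hDR : D * R ≤ (n : ℝ) ^ (3 / 4 : ℝ) := by
        have h3 : (a * m) ^ (3 / 4 : ℝ) ≤ (n : ℝ) ^ (3 / 4 : ℝ) := Real.rpow_le_rpow (by positivity) hn (by norm_num)
        rw [Real.mul_rpow ha.le hm0.le] at h3
        refine le_trans ?_ h3
        calc D * R ≤ D * (C * (m : ℝ) ^ (3 / 4 : ℝ) * ρ0) := by
              refine mul_le_mul_of_nonneg_left ?_ hD.le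
              rw [hR]
              exact mul_le_mul hS2 hi2 hi0.le (by positivity)
          _ = a ^ (3 / 4 : ℝ) * (m : ℝ) ^ (3 / 4 : ℝ) := by
              rw [hρ0]
              field_simp
      have g1 := hbad i (by rw [hR']; linarith) (by rw [hR']; exact hDR)
      have g2 := hbad (i + 1) (by rw [hR2]; linarith) (by rw [hR2]; nlinarith)
      rw [hR'] at g1
      rw [hR2] at g2
      have htake : ∀ k, k ≤ n → wd t 0 k = (t.take n).take k := by
        intro k hk
        unfold wd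
        rw [List.drop_zero, List.take_take, min_eq_left hk]
      have k1 : ∀ k, k ≤ n → |ka R * Vm R ((t.take n).take k) - k| ≤ e * n := by
        intro k hk
        have := g1 0 k (Nat.zero_le _) hk
        rw [Nat.cast_zero, sub_zero, htake k hk] at this
        exact this
      have k2 : |ka (R / 2) * Vm (R / 2) (t.take n) - n| ≤ e * n := by
        have := g2 0 n (Nat.zero_le _) le_rfl
        rw [Nat.cast_zero, sub_zero, htake n le_rfl, List.take_take, min_self] at this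
        exact this
      have hlen : (t.take n).length = n := by
        rw [List.length_take]
        omega
      have g3 := one_clk hn1 hlen (R := R) (q := 4 * B ^ 2) hR4 (hka0 _ (by linarith)) (hka0 _ (by linarith)) (hq R hR4) he0.le
        k1 k2 u
      rw [sw_take] at g3
      -- the curve
      have hcs : 0 < size n / S := by positivity
      have g4 : nb ((1 / 2) ^ i) ((size n / S) • (((sg n)⁻¹ : ℝ) • pT (cr b) t n)) u = nb (R / size n) (curve (sw n t)) u := by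
        rw [curve_rt' hn1 b (by omega), nb_smul hcs, nb_rt]
        congr 1
        rw [hR]
        field_simp
      rw [g4, ← hR]
      have hPε : 2 * (4 * B ^ 2 * (2 * 1)) / (ε / 4) ≤ R := (hP ▸ le_max_right _ _).trans hPR
      rw [div_le_iff₀ (by positivity)] at hPε
      have g5 : 2 / R * (4 * B ^ 2 * ((1 + e) * n)) ≤ ε / 4 * n := by
        have h3 : 2 / R * (4 * B ^ 2 * ((1 + e) * n)) ≤ 2 / R * (4 * B ^ 2 * (2 * n)) := by
          refine mul_le_mul_of_nonneg_left ?_ (by positivity)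
          refine mul_le_mul_of_nonneg_left ?_ (by positivity)
          exact mul_le_mul_of_nonneg_right (by linarith) hn0.le
        refine h3.trans ?_
        rw [div_mul_eq_mul_div, div_le_iff₀ hR0]
        nlinarith
      have g6 : 1 ≤ ε / 4 * n := by
        have h3 : 4 / ε ≤ n := by
          have : (0 : ℝ) ≤ n0 := Nat.cast_nonneg _
          linarith
        rw [div_le_iff₀ hε] at h3
        linarith
      have g7 : e * n ≤ ε / 4 * n := mul_le_mul_of_nonneg_right heε hn0.le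
      have g8 : |ka R * nb (R / size n) (curve (sw n t)) u - u * n| ≤ ε * n := by linarith
      have g9 : ka R / m * nb (R / size n) (curve (sw n t)) u - n / m * u =
          (ka R * nb (R / size n) (curve (sw n t)) u - u * n) / m := by
        field_simp
      rw [g9, abs_div, abs_of_pos hm0, ← mul_div_assoc]
      exact div_le_div_of_nonneg_right g8 hm0.le
    rw [Finset.sum_congr rfl fun b _ => h2 b, Finset.sum_const_zero, zero_div]

end Pool.Agent.ROT
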