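import Pool.Agent.ROT.FTwoW

/-!
# ROT, block F2 (helper88), part c: the directions of the displacements are uniform

* `dir_of` : one law of curves that is almost rotation invariant;
* `small_of` : the displacements are not small;
* **`two_dir`** : the two-sided infinite walk; **`win_dir`** : the windows of the walks; **`pol_dir`** : the polygons.
-/

set_option autoImplicit false

open Set Filter Topology MeasureTheory

open scoped ENNReal

namespace Pool.Agent.ROT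

open Pool.Agent.TSW Pool.Agent.TSW.Sym Pool.Agent.TSW.E Pool.Agent.NTS.Res Pool.Agent.PMA Pool.Agent.PMA.Res Pool.Agent.PMA.Fp

variable {Q : Measure (ℤ → Bool)}

/-! ### 1. One law -/

lemma cutE_lip {η : ℝ} (hη : 0 < η) (u v : ℂ) : |cutE η u - cutE η v| ≤ ‖u - v‖ / η := by
  unfold cutE
  refine (abs_min_sub_min_le_max 1 (‖u‖ / η) 1 (‖v‖ / η)).trans ?_
  rw [sub_self, abs_zero, ← sub_div, abs_div, abs_of_pos hη]
  exact max_le (by positivity) (div_le_div_of_nonneg_right (abs_norm_sub_norm_le u v) hη.le)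

/-- the function of the direction, with a cut near `0` -/
noncomputable def cd (g : ℂ → ℝ) (η : ℝ) (u : ℂ) : ℝ := cutE η u * g (u / (‖u‖ : ℂ))

lemma dir_sub {u v : ℂ} (hv : v ≠ 0) (h : ‖v‖ ≤ ‖u‖) : ‖u / (‖u‖ : ℂ) - v / (‖v‖ : ℂ)‖ ≤ 2 * ‖u - v‖ / ‖u‖ := by
  have hv0 : 0 < ‖v‖ := norm_pos_iff.2 hv
  have hu0 : 0 < ‖u‖ := hv0.trans_le h
  have hu1 : (‖u‖ : ℂ) ≠ 0 := by exact_mod_cast hu0.ne'
  have hv1 : (‖v‖ : ℂ) ≠ 0 := by exact_mod_cast hv0.ne'
  have e : u / (‖u‖ : ℂ) - v / (‖v‖ : ℂ) = (u - v) / (‖u‖ : ℂ) + v / (‖v‖ : ℂ) * (((‖v‖ - ‖u‖ : ℝ) : ℂ) / (‖u‖ : ℂ)) := by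
    push_cast
    field_simp
    ring
  rw [e]
  refine (norm_add_le _ _).trans ?_
  rw [norm_mul, norm_div, norm_div, norm_div, Complex.norm_real, Complex.norm_real, Complex.norm_real, norm_norm, norm_norm,
    div_self hv0.ne', one_mul, ← add_div]
  refine div_le_div_of_nonneg_right ?_ hu0.le
  have h1 := abs_norm_sub_norm_le v u
  rw [norm_sub_rev v u] at h1
  rw [Real.norm_eq_abs]
  linarith

lemma cd_lip {g : ℂ → ℝ} (hg1 : ∀ x, |g x| ≤ 1) (hgL : LipschitzWith 1 g) {η : ℝ} (hη : 0 < η) (u v : ℂ) :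
    |cd g η u - cd g η v| ≤ 3 / η * ‖u - v‖ := by
  have key : ∀ u v : ℂ, ‖v‖ ≤ ‖u‖ → |cd g η u - cd g η v| ≤ 3 / η * ‖u - v‖ := by
    intro u v h
    unfold cd
    by_cases hv : v = 0
    · subst hv
      have e0 : cutE η 0 = 0 := by
        unfold cutE
        rw [norm_zero, zero_div, min_eq_right zero_le_one]
      rw [e0, zero_mul, sub_zero, sub_zero, abs_mul, abs_of_nonneg (cutE_nonneg hη u)]
      have h1 : cutE η u ≤ ‖u‖ / η := min_le_right _ _
      calc cutE η u * |g (u / (‖u‖ : ℂ))| ≤ ‖u‖ / η * 1 := mul_le_mul h1 (hg1 _) (abs_nonneg _) (by positivity)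
        _ ≤ 3 / η * ‖u‖ := by
            rw [mul_one, div_mul_eq_mul_div]
            exact div_le_div_of_nonneg_right (by linarith [norm_nonneg u]) hη.le
    · have hv0 : 0 < ‖v‖ := norm_pos_iff.2 hv
      have hu0 : 0 < ‖u‖ := hv0.trans_le h
      have e : cutE η u * g (u / (‖u‖ : ℂ)) - cutE η v * g (v / (‖v‖ : ℂ)) =
          (cutE η u - cutE η v) * g (u / (‖u‖ : ℂ)) + cutE η v * (g (u / (‖u‖ : ℂ)) - g (v / (‖v‖ : ℂ))) := by ring
      rw [e]
      refine (abs_add_le _ _).trans ?_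
      rw [abs_mul, abs_mul, abs_of_nonneg (cutE_nonneg hη v)]
      have h1 : |cutE η u - cutE η v| * |g (u / (‖u‖ : ℂ))| ≤ ‖u - v‖ / η * 1 :=
        mul_le_mul (cutE_lip hη u v) (hg1 _) (abs_nonneg _) (by positivity)
      have h2 : |g (u / (‖u‖ : ℂ)) - g (v / (‖v‖ : ℂ))| ≤ 2 * ‖u - v‖ / ‖u‖ := by
        have h3 := hgL.dist_le_mul (u / (‖u‖ : ℂ)) (v / (‖v‖ : ℂ))
        rw [Real.dist_eq, dist_eq_norm, NNReal.coe_one, one_mul] at h3
        exact h3.trans (dir_sub hv h)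
      have h3 : cutE η v ≤ ‖u‖ / η := (min_le_right _ _).trans (div_le_div_of_nonneg_right h hη.le)
      have h4 : cutE η v * |g (u / (‖u‖ : ℂ)) - g (v / (‖v‖ : ℂ))| ≤ ‖u‖ / η * (2 * ‖u - v‖ / ‖u‖) :=
        mul_le_mul h3 h2 (abs_nonneg _) (by positivity)
      have h5 : ‖u‖ / η * (2 * ‖u - v‖ / ‖u‖) = 2 / η * ‖u - v‖ := by
        field_simp
      rw [h5] at h4
      have h6 : 3 / η * ‖u - v‖ = ‖u - v‖ / η * 1 + 2 / η * ‖u - v‖ := by ring
      linarith
  rcases le_total ‖v‖ ‖u‖ with h | h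
  · exact key u v h
  · rw [abs_sub_comm, norm_sub_rev]
    exact key v u h

lemma cd_abs {g : ℂ → ℝ} (hg1 : ∀ x, |g x| ≤ 1) {η : ℝ} (hη : 0 < η) (u : ℂ) : |cd g η u| ≤ 1 := by
  unfold cd
  rw [abs_mul, abs_of_nonneg (cutE_nonneg hη u)]
  exact mul_le_one₀ (cutE_le η u) (abs_nonneg _) (hg1 _)

lemma cd_cont {g : ℂ → ℝ} (hg1 : ∀ x, |g x| ≤ 1) (hgL : LipschitzWith 1 g) {η : ℝ} (hη : 0 < η) : Continuous (cd g η) := by
  refine (LipschitzWith.of_dist_le_mul (K := ⟨3 / η, by positivity⟩) fun u v => ?_).continuous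
  rw [Real.dist_eq, dist_eq_norm]
  exact cd_lip hg1 hgL hη u v

lemma circ_abs {g : ℂ → ℝ} (hg1 : ∀ x, |g x| ≤ 1) : |circ g| ≤ 1 := by
  have h2π : (0 : ℝ) < 2 * Real.pi := by positivity
  unfold circ
  rw [abs_div, abs_of_pos h2π, div_le_one h2π]
  have h := intervalIntegral.norm_integral_le_of_norm_le_const (a := 0) (b := 2 * Real.pi) (C := 1)
    (f := fun t : ℝ => g (Complex.exp (t * Complex.I))) fun t _ => hg1 _
  rwa [sub_zero, abs_of_pos h2π, one_mul, Real.norm_eq_abs] at h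

lemma cd_circ {g : ℂ → ℝ} {η : ℝ} (u : ℂ) :
    ∫ t in (0 : ℝ)..2 * Real.pi, cd g η (Complex.exp (t * Complex.I) * u) = 2 * Real.pi * (cutE η u * circ g) := by
  have hz : ∀ t : ℝ, ‖Complex.exp (t * Complex.I)‖ = 1 := fun t => Complex.norm_exp_ofReal_mul_I t
  have hn : ∀ t : ℝ, ‖Complex.exp (t * Complex.I) * u‖ = ‖u‖ := fun t => by rw [norm_mul, hz, one_mul]
  have hc : ∀ t : ℝ, cutE η (Complex.exp (t * Complex.I) * u) = cutE η u := fun t => by
    unfold cutE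
    rw [hn]
  by_cases hu : u = 0
  · subst hu
    have e0 : cutE η 0 = 0 := by
      unfold cutE
      rw [norm_zero, zero_div, min_eq_right zero_le_one]
    unfold cd
    simp only [e0, zero_mul, intervalIntegral.integral_zero, mul_zero]
  · have hu0 : 0 < ‖u‖ := norm_pos_iff.2 hu
    have h1 : ∀ t : ℝ, cd g η (Complex.exp (t * Complex.I) * u) =
        cutE η u * g (Complex.exp (t * Complex.I) * (u / (‖u‖ : ℂ))) := by
      intro t
      unfold cd
      rw [hc, hn, mul_div_assoc]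
    simp only [h1]
    rw [intervalIntegral.integral_const_mul, circ_rot g (x := u / (‖u‖ : ℂ)) (by
      rw [norm_div, Complex.norm_real, norm_norm, div_self hu0.ne'])]
    ring

/-- **the direction is almost uniform for a law that is almost rotation invariant** -/
theorem dir_of {μ : Measure CI} [IsProbabilityMeasure μ] {D : CI → ℂ} (hD : ∀ (z : ℂ) (γ : CI), D (z • γ) = z * D γ)
    (hDl : ∀ γ γ', ‖D γ - D γ'‖ ≤ 2 * ‖γ - γ'‖) {η a b : ℝ} (hη : 0 < η) (hη1 : η ≤ 1)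
    (h1 : ∀ z : ℂ, ‖z‖ = 1 → ∀ F : CI → ℝ, (∀ γ, |F γ| ≤ 1) → LipschitzWith 1 F → |∫ γ, F (z • γ) ∂μ - ∫ γ, F γ ∂μ| ≤ a)
    (h2 : ∫ γ, (1 - cutE η (D γ)) ∂μ ≤ b) {g : ℂ → ℝ} (hg1 : ∀ x, |g x| ≤ 1) (hgL : LipschitzWith 1 g) :
    |∫ γ, g (D γ / (‖D γ‖ : ℂ)) ∂μ - circ g| ≤ 6 * a / η + 2 * b := by
  have hDc : Continuous D := by
    refine (LipschitzWith.of_dist_le_mul (K := 2) fun u v => ?_).continuous
    rw [dist_eq_norm, dist_eq_norm]
    exact hDl u v
  have h2π : (0 : ℝ) < 2 * Real.pi := by positivity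
  have hz : ∀ t : ℝ, ‖Complex.exp (t * Complex.I)‖ = 1 := fun t => Complex.norm_exp_ofReal_mul_I t
  have hcc := cd_cont hg1 hgL hη
  -- rotations of the cut function
  have hrot : ∀ z : ℂ, ‖z‖ = 1 → |∫ γ, (cd g η (z * D γ) - cd g η (D γ)) ∂μ| ≤ 6 * a / η := by
    intro z hz1
    have h3 := h1 z hz1 (fun γ => η / 6 * cd g η (D γ)) (fun γ => ?_) ?_
    · simp only [hD] at h3
      have i1 : Integrable (fun γ => cd g η (z * D γ)) μ :=
        Integrable.of_bound ((hcc.comp (continuous_const.mul hDc)).aestronglyMeasurable) 1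
          (Eventually.of_forall fun γ => cd_abs hg1 hη _)
      have i2 : Integrable (fun γ => cd g η (D γ)) μ :=
        Integrable.of_bound ((hcc.comp hDc).aestronglyMeasurable) 1 (Eventually.of_forall fun γ => cd_abs hg1 hη _)
      rw [integral_const_mul, integral_const_mul, ← mul_sub, abs_mul, abs_of_pos (by positivity : (0 : ℝ) < η / 6)] at h3
      rw [integral_sub i1 i2, le_div_iff₀ hη]
      linarith
    · show |η / 6 * cd g η (D γ)| ≤ 1
      rw [abs_mul, abs_of_pos (by positivity : (0 : ℝ) < η / 6)]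
      exact mul_le_one₀ (by linarith) (abs_nonneg _) (cd_abs hg1 hη _)
    · refine LipschitzWith.of_dist_le_mul fun γ γ' => ?_
      rw [Real.dist_eq, dist_eq_norm, NNReal.coe_one, one_mul, ← mul_sub, abs_mul,
        abs_of_pos (by positivity : (0 : ℝ) < η / 6)]
      have h4 := (cd_lip hg1 hgL hη (D γ) (D γ')).trans (mul_le_mul_of_nonneg_left (hDl γ γ') (by positivity))
      calc η / 6 * |cd g η (D γ) - cd g η (D γ')| ≤ η / 6 * (3 / η * (2 * ‖γ - γ'‖)) :=
            mul_le_mul_of_nonneg_left h4 (by positivity)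
        _ = ‖γ - γ'‖ := by
            field_simp
            ring
  -- the average over the rotations
  have hjm : Continuous fun p : ℝ × CI => cd g η (Complex.exp (p.1 * Complex.I) * D p.2) - cd g η (D p.2) := by
    have c1 : Continuous fun p : ℝ × CI => Complex.exp (p.1 * Complex.I) * D p.2 :=
      (by fun_prop : Continuous fun p : ℝ × CI => Complex.exp (p.1 * Complex.I)).mul (hDc.comp continuous_snd)
    exact (hcc.comp c1).sub (hcc.comp (hDc.comp continuous_snd))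
  have hsw : ∫ t in Ioc (0 : ℝ) (2 * Real.pi), ∫ γ, (cd g η (Complex.exp (t * Complex.I) * D γ) - cd g η (D γ)) ∂μ =
      ∫ γ, (∫ t in Ioc (0 : ℝ) (2 * Real.pi), (cd g η (Complex.exp (t * Complex.I) * D γ) - cd g η (D γ))) ∂μ := by
    refine integral_integral_swap ?_
    refine Integrable.of_bound hjm.measurable.aestronglyMeasurable 2 (Eventually.of_forall fun p => ?_)
    show |cd g η (Complex.exp (p.1 * Complex.I) * D p.2) - cd g η (D p.2)| ≤ 2
    refine (abs_sub _ _).trans ?_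
    have := cd_abs hg1 hη (Complex.exp (p.1 * Complex.I) * D p.2)
    have := cd_abs hg1 hη (D p.2)
    linarith
  have hin : ∀ γ : CI, ∫ t in Ioc (0 : ℝ) (2 * Real.pi), (cd g η (Complex.exp (t * Complex.I) * D γ) - cd g η (D γ)) =
      2 * Real.pi * (cutE η (D γ) * circ g - cd g η (D γ)) := by
    intro γ
    rw [← intervalIntegral.integral_of_le h2π.le, intervalIntegral.integral_sub, cd_circ, intervalIntegral.integral_const,
      sub_zero, smul_eq_mul]
    · ring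
    · refine Continuous.intervalIntegrable ?_ _ _
      exact hcc.comp ((by fun_prop : Continuous fun t : ℝ => Complex.exp (t * Complex.I)).mul continuous_const)
    · exact intervalIntegrable_const
  simp only [hin] at hsw
  rw [integral_const_mul] at hsw
  have i1 : Integrable (fun γ => cutE η (D γ)) μ :=
    Integrable.of_bound (((cutE_cont η).comp hDc).aestronglyMeasurable) 1 (Eventually.of_forall fun γ => by
      rw [Real.norm_eq_abs, abs_of_nonneg (cutE_nonneg hη _)]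
      exact cutE_le _ _)
  have i2 : Integrable (fun γ => cd g η (D γ)) μ :=
    Integrable.of_bound ((hcc.comp hDc).aestronglyMeasurable) 1 (Eventually.of_forall fun γ => cd_abs hg1 hη _)
  rw [integral_sub (i1.mul_const _) i2, integral_mul_const] at hsw
  have h3 : |(∫ γ, cutE η (D γ) ∂μ) * circ g - ∫ γ, cd g η (D γ) ∂μ| ≤ 6 * a / η := by
    have h4 := intervalIntegral.norm_integral_le_of_norm_le_const (a := 0) (b := 2 * Real.pi) (C := 6 * a / η)
      (f := fun t : ℝ => ∫ γ, (cd g η (Complex.exp (t * Complex.I) * D γ) - cd g η (D γ)) ∂μ) fun t _ => hrot _ (hz t)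
    rw [intervalIntegral.integral_of_le h2π.le, hsw, sub_zero, Real.norm_eq_abs, abs_mul, abs_of_pos h2π, mul_comm] at h4
    exact le_of_mul_le_mul_right h4 h2π
  -- the cut
  have hgm : Measurable fun γ : CI => g (D γ / (‖D γ‖ : ℂ)) :=
    hgL.continuous.measurable.comp (hDc.measurable.div (Complex.measurable_ofReal.comp hDc.measurable.norm))
  have i3 : Integrable (fun γ : CI => g (D γ / (‖D γ‖ : ℂ))) μ :=
    Integrable.of_bound hgm.aestronglyMeasurable 1 (Eventually.of_forall fun γ => hg1 _)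
  have i4 : Integrable (fun γ : CI => 1 - cutE η (D γ)) μ := (integrable_const _).sub i1
  have h4 : |∫ γ, g (D γ / (‖D γ‖ : ℂ)) ∂μ - ∫ γ, cd g η (D γ) ∂μ| ≤ b := by
    rw [← integral_sub i3 i2]
    refine (abs_integral_le_integral_abs).trans ((integral_mono (i3.sub i2).abs i4 fun γ => ?_).trans h2)
    show |g (D γ / (‖D γ‖ : ℂ)) - cutE η (D γ) * g (D γ / (‖D γ‖ : ℂ))| ≤ 1 - cutE η (D γ)
    have e : g (D γ / (‖D γ‖ : ℂ)) - cutE η (D γ) * g (D γ / (‖D γ‖ : ℂ)) = (1 - cutE η (D γ)) * g (D γ / (‖D γ‖ : ℂ)) := by ring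
    have h5 : 0 ≤ 1 - cutE η (D γ) := by linarith [cutE_le η (D γ)]
    rw [e, abs_mul, abs_of_nonneg h5]
    exact mul_le_of_le_one_right h5 (hg1 _)
  have h5 : |circ g - (∫ γ, cutE η (D γ) ∂μ) * circ g| ≤ b := by
    have e : ∫ γ, (1 - cutE η (D γ)) ∂μ = 1 - ∫ γ, cutE η (D γ) ∂μ := by
      rw [integral_sub (integrable_const _) i1, integral_const, probReal_univ, one_smul]
    have e2 : circ g - (∫ γ, cutE η (D γ) ∂μ) * circ g = (∫ γ, (1 - cutE η (D γ)) ∂μ) * circ g := by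
      rw [e]
      ring
    have h6 : 0 ≤ ∫ γ, (1 - cutE η (D γ)) ∂μ := integral_nonneg fun γ => by
      show 0 ≤ 1 - cutE η (D γ)
      linarith [cutE_le η (D γ)]
    rw [e2, abs_mul, abs_of_nonneg h6]
    exact (mul_le_of_le_one_right h6 (circ_abs hg1)).trans h2
  rw [abs_le] at h3 h4 h5 ⊢
  constructor <;> linarith [h3.1, h3.2, h4.1, h4.2, h5.1, h5.2]

/-! ### 2. The displacements are not small -/

/-- a positive functional of the limits is not small -/
theorem small_of {ρ : ℕ → ProbabilityMeasure CI} {M : CI → ℝ} (hM : Continuous M) (hM0 : ∀ γ, 0 ≤ M γ)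
    (hc : ∀ φ : ℕ → ℕ, StrictMono φ → ∃ ψ : ℕ → ℕ, StrictMono ψ ∧ ∃ ν : ProbabilityMeasure CI,
      Tendsto (fun k => ρ (φ (ψ k))) atTop (𝓝 ν) ∧ ∀ᵐ γ ∂(ν : Measure CI), 0 < M γ) {ε : ℝ} (hε : 0 < ε) :
    ∃ η : ℝ, 0 < η ∧ η ≤ 1 ∧ ∃ k0 : ℕ, ∀ k : ℕ, k0 ≤ k → ∫ γ, (1 - min 1 (M γ / η)) ∂(ρ k : Measure CI) ≤ ε := by
  by_contra hcon
  have hbd : ∀ (η : ℝ), 0 < η → ∀ γ, 0 ≤ 1 - min 1 (M γ / η) ∧ 1 - min 1 (M γ / η) ≤ 1 := by
    intro η hη γ
    have h1 : 0 ≤ min 1 (M γ / η) := le_min zero_le_one (div_nonneg (hM0 γ) hη.le)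
    have h2 := min_le_left 1 (M γ / η)
    constructor <;> linarith
  have hcont : ∀ η : ℝ, Continuous fun γ => 1 - min 1 (M γ / η) := fun η => by fun_prop
  have hf : ∀ j : ℕ, ∃ᶠ k in atTop, ε < ∫ γ, (1 - min 1 (M γ / (1 / ((j : ℝ) + 1)))) ∂(ρ k : Measure CI) := by
    intro j
    rw [frequently_atTop]
    intro a
    by_contra h
    have hj : (0 : ℝ) < 1 / ((j : ℝ) + 1) := by positivity
    refine hcon ⟨1 / ((j : ℝ) + 1), hj, ?_, a, fun k hk => ?_⟩
    · rw [div_le_one (by positivity)]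
      have : (0 : ℝ) ≤ j := Nat.cast_nonneg j
      linarith
    · by_contra h'
      exact h ⟨k, hk, not_le.1 h'⟩
  obtain ⟨φ, hφ, hb⟩ := extraction_forall_of_frequently hf
  obtain ⟨ψ, hψ, ν, hν, h0⟩ := hc φ hφ
  -- the limit
  have hlim : Tendsto (fun j : ℕ => ∫ γ, (1 - min 1 (M γ / (1 / ((j : ℝ) + 1)))) ∂(ν : Measure CI)) atTop (𝓝 0) := by
    have e0 : (0 : ℝ) = ∫ _γ : CI, (0 : ℝ) ∂(ν : Measure CI) := by simp
    rw [e0]
    refine tendsto_integral_of_dominated_convergence (fun _ => (1 : ℝ)) (fun j => (hcont _).aestronglyMeasurable)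
      (integrable_const _) (fun j => Eventually.of_forall fun γ => ?_) ?_
    · have h1 := hbd (1 / ((j : ℝ) + 1)) (by positivity) γ
      rw [Real.norm_eq_abs, abs_of_nonneg h1.1]
      exact h1.2
    · filter_upwards [h0] with γ hγ
      obtain ⟨J, hJ⟩ := exists_nat_gt (1 / M γ)
      refine tendsto_const_nhds.congr' ?_
      filter_upwards [eventually_ge_atTop J] with j hj
      have hj1 : (J : ℝ) ≤ j := by exact_mod_cast hj
      have h1 : 1 ≤ M γ / (1 / ((j : ℝ) + 1)) := by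
        rw [div_div_eq_mul_div, div_one]
        have h2 : 1 < (j : ℝ) * M γ := (div_lt_iff₀ hγ).1 (hJ.trans_le hj1)
        nlinarith
      rw [min_eq_left h1, sub_self]
  have hge : ∀ J : ℕ, ε ≤ ∫ γ, (1 - min 1 (M γ / (1 / ((J : ℝ) + 1)))) ∂(ν : Measure CI) := by
    intro J
    have hJ0 : (0 : ℝ) < 1 / ((J : ℝ) + 1) := by positivity
    have h1 := int_bcf hν (hcont (1 / ((J : ℝ) + 1))) (C := 1) fun γ => by
      rw [abs_of_nonneg (hbd _ hJ0 γ).1]
      exact (hbd _ hJ0 γ).2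
    refine ge_of_tendsto h1 ?_
    filter_upwards [eventually_ge_atTop J] with i hi
    have h2 := hb (ψ i)
    refine h2.le.trans (integral_mono_of_nonneg (Eventually.of_forall fun γ => (hbd _ (by positivity) γ).1)
      (Integrable.of_bound (hcont _).aestronglyMeasurable 1 (Eventually.of_forall fun γ => ?_)) (Eventually.of_forall fun γ => ?_))
    · rw [Real.norm_eq_abs, abs_of_nonneg (hbd _ hJ0 γ).1]
      exact (hbd _ hJ0 γ).2
    · show 1 - min 1 (M γ / (1 / (((ψ i : ℕ) : ℝ) + 1))) ≤ 1 - min 1 (M γ / (1 / ((J : ℝ) + 1)))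
      have h3 : (J : ℝ) ≤ (ψ i : ℕ) := by
        have : J ≤ ψ i := hi.trans (hψ.id_le i)
        exact_mod_cast this
      have h4 : M γ / (1 / ((J : ℝ) + 1)) ≤ M γ / (1 / (((ψ i : ℕ) : ℝ) + 1)) := by
        rw [div_div_eq_mul_div, div_div_eq_mul_div, div_one, div_one]
        exact mul_le_mul_of_nonneg_left (by linarith) (hM0 γ)
      have := min_le_min_left 1 h4
      linarith
  have h1 := le_of_tendsto_of_tendsto' tendsto_const_nhds hlim hge
  linarith

/-- tight laws have convergent subsequences -/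
lemma sub_tight {ρ : ℕ → ProbabilityMeasure CI} {k1 : ℕ}
    (ht : IsTightMeasureSet {μ | ∃ k : ℕ, k1 ≤ k ∧ μ = (ρ k : Measure CI)}) (φ : ℕ → ℕ) (hφ : StrictMono φ) :
    ∃ ψ : ℕ → ℕ, StrictMono ψ ∧ ∃ ν : ProbabilityMeasure CI, Tendsto (fun k => ρ (φ (ψ k))) atTop (𝓝 ν) := by
  have hm : IsTightMeasureSet {((μ : ProbabilityMeasure CI) : Measure CI) |
      μ ∈ {μ : ProbabilityMeasure CI | ∃ k : ℕ, k1 ≤ k ∧ μ = ρ (φ k)}} := by
    refine ht.subset ?_
    rintro _ ⟨μ, ⟨k, hk, rfl⟩, rfl⟩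
    exact ⟨φ k, hk.trans (hφ.id_le k), rfl⟩
  have hcp := isCompact_closure_of_isTightMeasureSet hm
  obtain ⟨ν, -, ψ, hψ, hν⟩ := hcp.tendsto_subseq (x := fun k => ρ (φ (k + k1)))
    (fun k => subset_closure ⟨k + k1, Nat.le_add_left _ _, rfl⟩)
  exact ⟨fun k => ψ k + k1, fun a b hab => Nat.add_lt_add_right (hψ hab) _, ν, hν⟩

/-! ### 3. The two-sided infinite walk -/

/-- the displacement of `Y_k` is not small -/
lemma two_small (hQ : QOk Q) {ε : ℝ} (hε : 0 < ε) : ∃ η : ℝ, 0 < η ∧ η ≤ 1 ∧ ∃ k0 : ℕ, ∀ k : ℕ, k0 ≤ k →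
    ∫ γ : CI, (1 - cutE η (γ 1)) ∂(ylaw Q k) ≤ ε := by
  have hQp : IsProbabilityMeasure Q := hQ.1.1
  have hC : StC Q := stC ⟨hQ.1.1, hQ.2⟩
  obtain ⟨ρ, hρ⟩ : ∃ ρ : ℕ → ProbabilityMeasure CI, ∀ k, (ρ k : Measure CI) = ylaw Q k :=
    ⟨fun k => ⟨_, ylaw_prob hQp k⟩, fun k => rfl⟩
  have h := small_of (ρ := ρ) (M := fun γ : CI => ‖γ 1‖) (by fun_prop) (fun γ => norm_nonneg _) (fun φ hφ => ?_) hε
  · obtain ⟨η, hη, hη1, k0, h⟩ := h
    refine ⟨η, hη, hη1, k0, fun k hk => ?_⟩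
    have h1 := h k hk
    rw [hρ] at h1
    exact h1
  · have ht : IsTightMeasureSet {μ | ∃ k : ℕ, 1 ≤ k ∧ μ = (ρ k : Measure CI)} := by
      simp only [hρ]
      exact hC.1
    obtain ⟨ψ, hψ, ν, hν⟩ := sub_tight ht φ hφ
    refine ⟨ψ, hψ, ν, hν, ?_⟩
    have hl : ToLaw (ylaw Q) (fun k => φ (ψ k)) (ν : Measure CI) := by
      intro f
      have h1 := (ProbabilityMeasure.tendsto_iff_forall_integral_tendsto.1 hν) f
      simp only [hρ] at h1
      exact h1
    have hn := (hC.2 _ (ν : Measure CI) (hφ.comp hψ).tendsto_atTop inferInstance hl).1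
    filter_upwards [hn] with γ hγ
    refine norm_pos_iff.2 fun h1 => ?_
    exact zero_ne_one (hγ.1 (hγ.2.1.trans h1.symm))

lemma eval_one_smul (z : ℂ) (γ : CI) : (z • γ) 1 = z * γ 1 := rfl

lemma eval_one_lip (γ γ' : CI) : ‖γ 1 - γ' 1‖ ≤ 2 * ‖γ - γ'‖ := by
  have h := (γ - γ').norm_coe_le_norm 1
  rw [ContinuousMap.sub_apply] at h
  linarith [norm_nonneg (γ - γ')]

/-- **the direction of the displacement of the two-sided infinite walk is asymptotically uniform** -/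
theorem two_dir (h : RotP) (hQ : QOk Q) : ∀ ε : ℝ, 0 < ε → ∃ k0 : ℕ, ∀ k : ℕ, k0 ≤ k → ∀ g : ℂ → ℝ, (∀ x, |g x| ≤ 1) →
    LipschitzWith 1 g → |∫ γ, g (dirE γ) ∂(ylaw Q k) - circ g| ≤ ε := by
  intro ε hε
  obtain ⟨η, hη, hη1, k1, h1⟩ := two_small hQ (show 0 < ε / 4 by positivity)
  obtain ⟨k2, h2⟩ := two_unif h hQ (ε * η / 12) (by positivity)
  refine ⟨k1 + k2, fun k hk g hg1 hgL => ?_⟩
  have hQp : IsProbabilityMeasure Q := hQ.1.1
  have hyp := ylaw_prob hQp k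
  have h3 := dir_of (μ := ylaw Q k) (D := fun γ : CI => γ 1) eval_one_smul eval_one_lip hη hη1
    (fun z hz F hF hL => h2 k (by omega) z hz F hF hL) (h1 k (by omega)) hg1 hgL
  refine h3.trans (le_of_eq ?_)
  field_simp
  ring

/-! ### 4. The windows of the walks -/

lemma Wf_pos {n : ℕ} (s : Fin n → Fin 3) (k : ℕ) : Wf (pos s) k = pos s k - pos s 0 := by
  rw [← WK_eq (pos s) (le_refl ((k : ℕ) : ℝ))]
  unfold WK
  have h1 : ∀ j ∈ Finset.range k, ((cl ((k : ℝ) - j) : ℝ) : ℂ) * (pos s (j + 1) - pos s j) = pos s (j + 1) - pos s j := by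
    intro j hj
    have h2 : ((j + 1 : ℕ) : ℝ) ≤ k := by exact_mod_cast Finset.mem_range.1 hj
    push_cast at h2
    rw [cl_one (by linarith), Complex.ofReal_one, one_mul]
  rw [Finset.sum_congr rfl h1, Finset.sum_range_sub (fun j => pos s j)]

lemma wz_one {n : ℕ} (s : Fin n → Fin 3) (k m : ℕ) :
    wz s k m 1 = ((((m : ℝ) ^ (3 / 4 : ℝ) : ℝ) : ℂ))⁻¹ * (pos s (k + m) - pos s k) := by
  unfold wz
  rw [ContinuousMap.smul_apply, Vc_apply, smul_eq_mul]
  have e : ((k : ℝ) + m * ((1 : unitInterval) : ℝ)) = ((k + m : ℕ) : ℝ) := by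
    push_cast
    rw [mul_one]
  rw [e, Wf_pos, Wf_pos]
  ring

lemma dir_wz {n : ℕ} (s : Fin n → Fin 3) {k m : ℕ} (hm : 0 < m) :
    dirE (wz s k m) = (pos s (k + m) - pos s k) / (‖pos s (k + m) - pos s k‖ : ℂ) := by
  have hm0 : (0 : ℝ) < m := by exact_mod_cast hm
  have hmp : (0 : ℝ) < (m : ℝ) ^ (3 / 4 : ℝ) := Real.rpow_pos_of_pos hm0 _
  unfold dirE
  rw [wz_one]
  obtain ⟨b, hb⟩ : ∃ b : ℝ, b = (m : ℝ) ^ (3 / 4 : ℝ) := ⟨_, rfl⟩
  rw [← hb] at hmp ⊢
  obtain ⟨u, hu⟩ : ∃ u : ℂ, u = pos s (k + m) - pos s k := ⟨_, rfl⟩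
  rw [← hu, norm_mul, norm_inv, Complex.norm_real, Real.norm_eq_abs, abs_of_pos hmp]
  have hb1 : (b : ℂ) ≠ 0 := by exact_mod_cast hmp.ne'
  rcases eq_or_ne u 0 with h0 | h0
  · rw [h0]
    simp
  · have h1 : (‖u‖ : ℂ) ≠ 0 := by exact_mod_cast norm_ne_zero_iff.2 h0
    push_cast
    field_simp

/-- the law of the window -/
lemma win_law_ex {n k m : ℕ} (hm : 0 < m) (hk : k + m ≤ n) : ∃ μ : Measure CI, IsProbabilityMeasure μ ∧
    ∀ F : CI → ℝ, Measurable F → ∫ γ, F γ ∂μ = (∑ s ∈ saw n, F (wz s k m)) / ((saw n).card : ℝ) := by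
  have hT : Continuous fun γ : CI => ((size n / (m : ℝ) ^ (3 / 4 : ℝ) : ℝ) : ℂ) • part (k / n) (m / n) γ := by
    have := part_cont ((k : ℝ) / n) (m / n)
    fun_prop
  have hp : IsProbabilityMeasure (law n) := (NTSF.PM n).2
  refine ⟨(law n).map _, Measure.isProbabilityMeasure_map hT.measurable.aemeasurable, fun F hF => ?_⟩
  rw [integral_map hT.measurable.aemeasurable hF.aestronglyMeasurable,
    NTSF.integral_law (f := fun γ => F (((size n / (m : ℝ) ^ (3 / 4 : ℝ) : ℝ) : ℂ) • part (k / n) (m / n) γ))]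
  congr 1
  exact Finset.sum_congr rfl fun s _ => by rw [wz_part s hm hk]

/-- the functional of the small displacements -/
lemma cut_fun {η : ℝ} (hη : 0 < η) (hη1 : η ≤ 1) : (∀ γ : CI, |η * (1 - cutE η (γ 1))| ≤ 1) ∧
    LipschitzWith 1 fun γ : CI => η * (1 - cutE η (γ 1)) := by
  constructor
  · intro γ
    have h1 := cutE_le η (γ 1)
    have h2 := cutE_nonneg hη (γ 1)
    rw [abs_mul, abs_of_pos hη, abs_of_nonneg (by linarith)]
    nlinarith
  · refine LipschitzWith.of_dist_le_mul fun γ γ' => ?_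
    rw [Real.dist_eq, dist_eq_norm, NNReal.coe_one, one_mul]
    have e : η * (1 - cutE η (γ 1)) - η * (1 - cutE η (γ' 1)) = η * (cutE η (γ' 1) - cutE η (γ 1)) := by ring
    rw [e, abs_mul, abs_of_pos hη]
    have h1 := cutE_lip hη (γ' 1) (γ 1)
    have h2 := (γ' - γ).norm_coe_le_norm 1
    rw [ContinuousMap.sub_apply] at h2
    calc η * |cutE η (γ' 1) - cutE η (γ 1)| ≤ η * (‖γ' 1 - γ 1‖ / η) := mul_le_mul_of_nonneg_left h1 hη.le
      _ = ‖γ' 1 - γ 1‖ := by field_simp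
      _ ≤ ‖γ' - γ‖ := h2
      _ = ‖γ - γ'‖ := norm_sub_rev _ _

/-- **the direction of the displacement in a window of the walk is asymptotically uniform** -/
theorem win_dir (h : RotP) (hQ : QOk Q) : ∀ ε : ℝ, 0 < ε → ∃ (δ : ℝ) (m0 : ℕ), 0 < δ ∧ ∀ n k m : ℕ, ε * n ≤ k →
    k ≤ (1 - ε) * n → m0 ≤ m → m ≤ δ * n → ∀ g : ℂ → ℝ, (∀ x, |g x| ≤ 1) → LipschitzWith 1 g →
      |(∑ s ∈ saw n, g ((pos s (k + m) - pos s k) / (‖pos s (k + m) - pos s k‖ : ℂ))) / ((saw n).card : ℝ) - circ g| ≤ ε := by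
  intro ε hε
  have hQp : IsProbabilityMeasure Q := hQ.1.1
  obtain ⟨η, hη, hη1, k1, h1⟩ := two_small hQ (show 0 < ε / 8 by positivity)
  obtain ⟨δ1, m1, hδ1, h2⟩ := win_rot h hQ (ε * η / 12) (by positivity)
  obtain ⟨δ2, m2, hδ2, h3⟩ := win_law hQ (ε * η / 8) (by positivity)
  refine ⟨min δ1 (min δ2 ε), k1 + m1 + m2 + 1, by positivity, fun n k m hk1 hk2 hm0 hm g hg1 hgL => ?_⟩
  have hn0 : (0 : ℝ) ≤ n := Nat.cast_nonneg n
  have hm1 : (m : ℝ) ≤ δ1 * n := hm.trans (mul_le_mul_of_nonneg_right (min_le_left _ _) hn0)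
  have hm2 : (m : ℝ) ≤ δ2 * n := hm.trans (mul_le_mul_of_nonneg_right ((min_le_right _ _).trans (min_le_left _ _)) hn0)
  have hm3 : (m : ℝ) ≤ ε * n := hm.trans (mul_le_mul_of_nonneg_right ((min_le_right _ _).trans (min_le_right _ _)) hn0)
  have hkm : k + m ≤ n := by
    have : ((k + m : ℕ) : ℝ) ≤ n := by
      push_cast
      linarith
    exact_mod_cast this
  have e1 : ε * η / 12 ≤ ε := by nlinarith
  have e2 : ε * η / 8 ≤ ε := by nlinarith
  have hmp : 0 < m := by omega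
  obtain ⟨μ, hμ, hμi⟩ := win_law_ex hmp hkm
  have h4 := h2 n k m ((mul_le_mul_of_nonneg_right e1 hn0).trans hk1)
    (hk2.trans (mul_le_mul_of_nonneg_right (by linarith) hn0)) (by omega) hm1
  have h5 := h3 n k m ((mul_le_mul_of_nonneg_right e2 hn0).trans hk1)
    (hk2.trans (mul_le_mul_of_nonneg_right (by linarith) hn0)) (by omega) hm2
  have hone : LipschitzWith 1 fun _ : CI => (1 : ℝ) := (LipschitzWith.const 1).weaken (by norm_num)
  have hc := NTSF.saw_card_pos n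
  have hI : ∫ _ : CI, (1 : ℝ) ∂(law n) = 1 := by
    rw [NTSF.integral_law (f := fun _ => 1), Finset.sum_const, nsmul_eq_mul, mul_one, div_self hc.ne']
  obtain ⟨c1, c2⟩ := cut_fun hη hη1
  have h6 := h5 (fun γ => η * (1 - cutE η (γ 1))) (fun _ => 1) c1 c2 (fun _ => by rw [abs_one]) hone (fun _ => rfl)
    (fun _ => rfl)
  simp only [mul_one] at h6
  rw [hI, mul_one] at h6
  have h7 := h1 m (by omega)
  have h8 : ∫ γ : CI, (1 - cutE η (γ 1)) ∂μ ≤ ε / 4 := by
    have h9 := hμi (fun γ => η * (1 - cutE η (γ 1))) c2.continuous.measurable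
    rw [← h9, integral_const_mul, integral_const_mul, ← mul_sub, abs_mul, abs_of_pos hη] at h6
    have h10 : |∫ γ : CI, (1 - cutE η (γ 1)) ∂μ - ∫ γ : CI, (1 - cutE η (γ 1)) ∂(ylaw Q m)| ≤ ε / 8 := by
      have e3 : ε * η / 8 = η * (ε / 8) := by ring
      rw [e3] at h6
      exact le_of_mul_le_mul_left h6 hη
    linarith [(abs_le.1 h10).2]
  have h9 := dir_of (μ := μ) (D := fun γ : CI => γ 1) eval_one_smul eval_one_lip hη hη1 (a := ε * η / 12)
    (fun z hz F hF hL => by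
      have h10 := h4 z hz F (fun _ => 1) hF hL (fun _ => by rw [abs_one]) hone (fun _ => rfl) (fun _ => rfl)
      simp only [mul_one] at h10
      rw [hμi F hL.continuous.measurable, hμi (fun γ => F (z • γ)) (hL.continuous.comp (smul_cont z)).measurable]
      exact h10) h8 hg1 hgL
  have h10 := hμi (fun γ => g (dirE γ)) (hgL.continuous.measurable.comp dirE_meas)
  have e3 : ∫ γ : CI, g (γ 1 / (‖γ 1‖ : ℂ)) ∂μ =
      (∑ s ∈ saw n, g ((pos s (k + m) - pos s k) / (‖pos s (k + m) - pos s k‖ : ℂ))) / ((saw n).card : ℝ) := by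
    have e4 : ∫ γ : CI, g (γ 1 / (‖γ 1‖ : ℂ)) ∂μ = ∫ γ : CI, g (dirE γ) ∂μ := rfl
    rw [e4, h10]
    congr 1
    exact Finset.sum_congr rfl fun s _ => by rw [dir_wz s hmp]
  rw [e3] at h9
  refine h9.trans (le_of_eq ?_)
  field_simp
  ring

/-! ### 5. The polygons -/

/-- the pairs of times at a distance in `[τ, 1 - τ]` -/
def KT (τ : ℝ) : Set (unitInterval × unitInterval) := {p | (p.1 : ℝ) + τ ≤ p.2 ∧ (p.2 : ℝ) ≤ p.1 + (1 - τ)}

lemma KT_comp (τ : ℝ) : IsCompact (KT τ) := by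
  refine IsClosed.isCompact ?_
  have c1 : Continuous fun p : unitInterval × unitInterval => (p.1 : ℝ) + τ := by fun_prop
  have c2 : Continuous fun p : unitInterval × unitInterval => (p.2 : ℝ) := by fun_prop
  have c3 : Continuous fun p : unitInterval × unitInterval => (p.1 : ℝ) + (1 - τ) := by fun_prop
  exact (isClosed_le c1 c2).inter (isClosed_le c2 c3)

/-- the smallest displacement -/
noncomputable def MT (τ : ℝ) (γ : CI) : ℝ := sInf ((fun p : unitInterval × unitInterval => ‖γ p.2 - γ p.1‖) '' KT τ)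

lemma MT_bdd (τ : ℝ) (γ : CI) : BddBelow ((fun p : unitInterval × unitInterval => ‖γ p.2 - γ p.1‖) '' KT τ) :=
  ⟨0, by
    rintro _ ⟨p, _, rfl⟩
    exact norm_nonneg _⟩

lemma MT_nonneg (τ : ℝ) (γ : CI) : 0 ≤ MT τ γ := Real.sInf_nonneg (by
  rintro _ ⟨p, _, rfl⟩
  exact norm_nonneg _)

lemma MT_le {τ : ℝ} {u v : unitInterval} (h1 : (u : ℝ) + τ ≤ v) (h2 : (v : ℝ) ≤ u + (1 - τ)) (γ : CI) :
    MT τ γ ≤ ‖γ v - γ u‖ := csInf_le (MT_bdd τ γ) ⟨(u, v), ⟨h1, h2⟩, rfl⟩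

lemma KT_ne {τ : ℝ} (h0 : 0 ≤ τ) (h1 : τ ≤ 1 / 2) : (KT τ).Nonempty := by
  refine ⟨(0, ⟨τ, h0, by linarith⟩), ?_, ?_⟩
  · show ((0 : unitInterval) : ℝ) + τ ≤ τ
    rw [Set.Icc.coe_zero, zero_add]
  · show τ ≤ ((0 : unitInterval) : ℝ) + (1 - τ)
    rw [Set.Icc.coe_zero, zero_add]
    linarith

lemma MT_cont {τ : ℝ} (h0 : 0 ≤ τ) (h1 : τ ≤ 1 / 2) : Continuous (MT τ) := by
  have key : ∀ γ γ' : CI, MT τ γ' - 2 * ‖γ - γ'‖ ≤ MT τ γ := by
    intro γ γ'
    refine le_csInf ((KT_ne h0 h1).image _) ?_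
    rintro _ ⟨p, hp, rfl⟩
    have h2 := MT_le hp.1 hp.2 γ'
    have h3 := (γ - γ').norm_coe_le_norm p.1
    have h4 := (γ - γ').norm_coe_le_norm p.2
    rw [ContinuousMap.sub_apply] at h3 h4
    have e : γ' p.2 - γ' p.1 = (γ p.2 - γ p.1) - (γ p.2 - γ' p.2) + (γ p.1 - γ' p.1) := by ring
    have h5 : ‖γ' p.2 - γ' p.1‖ ≤ ‖γ p.2 - γ p.1‖ + ‖γ p.2 - γ' p.2‖ + ‖γ p.1 - γ' p.1‖ := by
      rw [e]
      exact (norm_add_le _ _).trans (add_le_add (norm_sub_le _ _) le_rfl)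
    show MT τ γ' - 2 * ‖γ - γ'‖ ≤ ‖γ p.2 - γ p.1‖
    linarith
  refine (LipschitzWith.of_dist_le_mul (K := 2) fun γ γ' => ?_).continuous
  rw [Real.dist_eq, dist_eq_norm, abs_le]
  have h2 := key γ γ'
  have h3 := key γ' γ
  rw [norm_sub_rev] at h3
  push_cast
  constructor <;> linarith

lemma MT_pos {τ : ℝ} (h0 : 0 < τ) (h1 : τ ≤ 1 / 2) {γ : CI}
    (hγ : ∀ p q : unitInterval, γ p = γ q → p = q ∨ (p = 0 ∧ q = 1) ∨ (p = 1 ∧ q = 0)) : 0 < MT τ γ := by
  obtain ⟨p, hp, hmin⟩ := (KT_comp τ).exists_isMinOn (KT_ne h0.le h1)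
    (f := fun p : unitInterval × unitInterval => ‖γ p.2 - γ p.1‖) (by fun_prop)
  have h2 : ‖γ p.2 - γ p.1‖ ≤ MT τ γ := by
    refine le_csInf ((KT_ne h0.le h1).image _) ?_
    rintro _ ⟨q, hq, rfl⟩
    exact hmin hq
  refine lt_of_lt_of_le (norm_pos_iff.2 fun h3 => ?_) h2
  have h4 := hγ _ _ (sub_eq_zero.1 h3)
  have h5 := hp.1
  have h6 := hp.2
  rcases h4 with h4 | ⟨h4, h7⟩ | ⟨h4, h7⟩
  · rw [h4] at h5
    linarith
  · rw [h4, h7, Set.Icc.coe_zero, Set.Icc.coe_one] at h5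
    linarith
  · rw [h4, h7, Set.Icc.coe_zero, Set.Icc.coe_one] at h6
    linarith

/-- the limits of the polygons are laws of simple loops -/
lemma pol_simple {φ : ℕ → ℕ} (hφ : Tendsto φ atTop atTop) (ho : ∀ k, Odd (φ k)) {π : ProbabilityMeasure CI}
    (h : PolTo φ (π : Measure CI)) : ∀ᵐ γ ∂(π : Measure CI), ∀ p q : unitInterval,
      γ p = γ q → p = q ∨ (p = 0 ∧ q = 1) ∨ (p = 1 ∧ q = 0) := by
  have hm := pmean_to h
  have hev : ∀ x : unitInterval, (∀ γ : CI, |min 1 ‖γ x‖| ≤ 1) ∧ LipschitzWith 1 fun γ : CI => min 1 ‖γ x‖ := by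
    intro x
    constructor
    · intro γ
      rw [abs_of_nonneg (le_min zero_le_one (norm_nonneg _))]
      exact min_le_left _ _
    · refine LipschitzWith.of_dist_le_mul fun γ γ' => ?_
      rw [Real.dist_eq, dist_eq_norm, NNReal.coe_one, one_mul]
      refine (abs_min_sub_min_le_max 1 ‖γ x‖ 1 ‖γ' x‖).trans ?_
      rw [sub_self, abs_zero]
      refine max_le (norm_nonneg _) ((abs_norm_sub_norm_le _ _).trans ?_)
      have h2 := (γ - γ').norm_coe_le_norm x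
      rwa [ContinuousMap.sub_apply] at h2
  have hz : ∀ x : unitInterval, Tendsto (fun k => pmean (φ k) fun γ => min 1 ‖γ x‖) atTop (𝓝 0) →
      ∀ᵐ γ ∂(π : Measure CI), γ x = 0 := by
    intro x hx
    have h1 := hm (fun γ => min 1 ‖γ x‖) (hev x).1 (hev x).2
    have h3 := tendsto_nhds_unique h1 hx
    have h4 := (integral_eq_zero_iff_of_nonneg (fun γ => le_min zero_le_one (norm_nonneg _))
      (Integrable.of_bound (hev x).2.continuous.aestronglyMeasurable 1 (Eventually.of_forall fun γ => (hev x).1 γ))).1 h3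
    filter_upwards [h4] with γ hγ
    have h5 : min 1 ‖γ x‖ = 0 := hγ
    rcases min_choice 1 ‖γ x‖ with h | h
    · rw [h] at h5
      exact absurd h5 one_ne_zero
    · rw [h] at h5
      exact norm_eq_zero.1 h5
  have h0 : ∀ᵐ γ ∂(π : Measure CI), γ 0 = 0 := by
    refine hz 0 (tendsto_const_nhds.congr fun k => ?_)
    unfold pmean
    rw [Finset.sum_eq_zero, zero_div]
    intro s _
    show min 1 ‖curve s 0‖ = 0
    rw [NTSF.curve_zero, norm_zero, min_eq_right zero_le_one]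
  have h1 : ∀ᵐ γ ∂(π : Measure CI), γ 1 = 0 := by
    refine hz 1 ?_
    have hst : Tendsto size atTop atTop := by
      obtain ⟨c, C, hc, hsz, -⟩ := NTSF.finE
      have h6 : Tendsto (fun n : ℕ => c * (n : ℝ) ^ (3 / 4 : ℝ)) atTop atTop :=
        ((tendsto_rpow_atTop (by norm_num)).comp tendsto_natCast_atTop_atTop).const_mul_atTop hc
      refine tendsto_atTop_mono' _ ?_ h6
      filter_upwards [eventually_ge_atTop 1] with n hn
      exact (hsz n hn).1
    have hs : Tendsto (fun k => 1 / size (φ k)) atTop (𝓝 0) := (hst.comp hφ).const_div_atTop 1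
    refine squeeze_zero' (Eventually.of_forall fun k => ?_) ?_ hs
    · unfold pmean
      exact div_nonneg (Finset.sum_nonneg fun s _ => le_min zero_le_one (norm_nonneg _)) (Nat.cast_nonneg _)
    · filter_upwards [hφ.eventually_ge_atTop 1] with k hk
      have hsp := NTSF.size_pos hk
      unfold pmean
      rcases Nat.eq_zero_or_pos (pol (φ k)).card with h | h
      · rw [h, Nat.cast_zero, div_zero]
        positivity
      · have hc : (0 : ℝ) < (pol (φ k)).card := by exact_mod_cast h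
        rw [div_le_iff₀ hc]
        refine (Finset.sum_le_card_nsmul _ _ (1 / size (φ k)) fun s hs => ?_).trans (by rw [nsmul_eq_mul, mul_comm])
        refine (min_le_right _ _).trans (le_of_eq ?_)
        rw [NTSF.curve_one, norm_div, Complex.norm_real, Real.norm_eq_abs, abs_of_pos hsp, (Finset.mem_filter.1 hs).2]
  exact pi_simple inferInstance hφ ho hm (h0.and h1) (pol_dp walk_dp)

/-- the direction from the time `u` to the time `v` -/
noncomputable def dirT (u v : unitInterval) (γ : CI) : ℂ := (γ v - γ u) / (‖γ v - γ u‖ : ℂ)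

/-- **the direction from the time `u` to the time `v` of the polygon is asymptotically uniform**, uniformly over the times at a
distance in `[ε, 1 - ε]` -/
theorem pol_dir (h : RotP) : ∀ ε : ℝ, 0 < ε → ∃ n₀ : ℕ, ∀ n : ℕ, n₀ ≤ n → Odd n → ∀ u v : unitInterval,
    (u : ℝ) + ε ≤ v → (v : ℝ) ≤ u + (1 - ε) → ∀ g : ℂ → ℝ, (∀ x, |g x| ≤ 1) → LipschitzWith 1 g →
      |pmean n (fun γ => g (dirT u v γ)) - circ g| ≤ ε := by
  intro ε hε
  rcases lt_or_ge (1 / 2) ε with hε2 | hε2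
  · refine ⟨0, fun n _ _ u v h1 h2 => ?_⟩
    linarith
  obtain ⟨n1, hv⟩ := pl_val
  obtain ⟨η, hη, hη1, k1, h1⟩ := small_of (ρ := pl) (M := MT ε) (MT_cont hε.le hε2) (MT_nonneg ε) (fun φ hφ => by
    obtain ⟨ψ, hψ, ν, hν⟩ := sub_limP φ hφ
    have ht : Tendsto (fun k => φ (ψ k)) atTop atTop := (hφ.comp hψ).tendsto_atTop
    refine ⟨ψ, hψ, ν, hν, ?_⟩
    filter_upwards [pol_simple (od_top ht) (fun k => od_odd _) ((polTo_iff ht).2 hν)] with γ hγ
    exact MT_pos hε hε2 hγ) (show 0 < ε / 4 by positivity)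
  obtain ⟨n2, h2⟩ := pol_unif h (ε * η / 12) (by positivity)
  refine ⟨k1 + n1 + n2, fun n hn ho u v huv1 huv2 g hg1 hgL => ?_⟩
  have hpl : (pl n : Measure CI) = plaw n := by rw [hv n (by omega), od_of ho]
  have hp : IsProbabilityMeasure (plaw n) := by
    rw [← hpl]
    infer_instance
  have h3 := h1 n (by omega)
  rw [hpl] at h3
  have hMc := MT_cont (τ := ε) hε.le hε2
  have hDc : Continuous fun γ : CI => γ v - γ u := by fun_prop
  have h4 : ∫ γ : CI, (1 - cutE η (γ v - γ u)) ∂(plaw n) ≤ ε / 4 := by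
    refine (integral_mono_of_nonneg (Eventually.of_forall fun γ => ?_) (Integrable.of_bound (by fun_prop : Continuous fun γ : CI =>
      1 - min 1 (MT ε γ / η)).aestronglyMeasurable 1 (Eventually.of_forall fun γ => ?_)) (Eventually.of_forall fun γ => ?_)).trans h3
    · show 0 ≤ 1 - cutE η (γ v - γ u)
      linarith [cutE_le η (γ v - γ u)]
    · have e1 : 0 ≤ min 1 (MT ε γ / η) := le_min zero_le_one (div_nonneg (MT_nonneg _ _) hη.le)
      have e2 := min_le_left 1 (MT ε γ / η)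
      rw [Real.norm_eq_abs, abs_le]
      constructor <;> linarith
    · show 1 - cutE η (γ v - γ u) ≤ 1 - min 1 (MT ε γ / η)
      have e1 := div_le_div_of_nonneg_right (MT_le huv1 huv2 γ) hη.le
      have := min_le_min_left 1 e1
      unfold cutE
      linarith
  have h5 := dir_of (μ := plaw n) (D := fun γ : CI => γ v - γ u) (fun z γ => by
      show z * γ v - z * γ u = z * (γ v - γ u)
      ring) (fun γ γ' => by
      have e1 := (γ - γ').norm_coe_le_norm u
      have e2 := (γ - γ').norm_coe_le_norm v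
      rw [ContinuousMap.sub_apply] at e1 e2
      have e : γ v - γ u - (γ' v - γ' u) = (γ v - γ' v) - (γ u - γ' u) := by ring
      rw [e]
      refine (norm_sub_le _ _).trans ?_
      linarith) hη hη1 (a := ε * η / 12) (fun z hz F hF hL => by
      rw [plaw_int', plaw_int']
      exact h2 n (by omega) ho z hz F hF hL) h4 hg1 hgL
  rw [plaw_int'] at h5
  have e3 : pmean n (fun γ => g (dirT u v γ)) = pmean n fun γ => g ((γ v - γ u) / (‖γ v - γ u‖ : ℂ)) := rfl
  rw [e3]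
  refine h5.trans (le_of_eq ?_)
  field_simp
  ring

end Pool.Agent.ROT
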