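import Pool.Agent.ROT.FLit

/-!
# ROT, block F1, assembly, part 1 (helper5): the measures on times and curves

* `Lam N m r` : the critical mass of the polygons at the lattice scale `N`, with the cutoff `chi r` of the diameter, on the
  pairs (time `n / m`, curve); `lam_int`, `lam_apply`;
* `Pme M0 N m r` : normalised, with an atom at `(-1, 0)`.
-/

set_option autoImplicit false

open MeasureTheory Filter Topology Set

open scoped Classical

namespace Pool.Agent.ROT.F

open Pool.Agent.NTS.Res Pool.Agent.PMA Pool.Agent.PMA.Res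

open Pool.Agent.NPR (tr nb vb)

/-! ### the cutoff -/

/-- `0` for `d ≤ r`, `1` for `2 r ≤ d` -/
noncomputable def chi (r d : ℝ) : ℝ := max 0 (min 1 (d / r - 1))

lemma chi_nonneg (r d : ℝ) : 0 ≤ chi r d := le_max_left _ _

lemma chi_le_one (r d : ℝ) : chi r d ≤ 1 := max_le zero_le_one (min_le_left _ _)

lemma chi_zero {r d : ℝ} (hr : 0 < r) (h : d ≤ r) : chi r d = 0 := by
  unfold chi
  rw [max_eq_left]
  refine (min_le_right _ _).trans ?_
  rw [sub_nonpos, div_le_one hr]
  exact h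

lemma chi_one {r d : ℝ} (hr : 0 < r) (h : 2 * r ≤ d) : chi r d = 1 := by
  unfold chi
  have h1 : 1 ≤ d / r - 1 := by
    rw [le_sub_iff_add_le, le_div_iff₀ hr]
    linarith
  rw [min_eq_left h1, max_eq_right zero_le_one]

lemma chi_lip {r : ℝ} (hr : 0 < r) (d d' : ℝ) : |chi r d - chi r d'| ≤ |d - d'| / r := by
  unfold chi
  have h1 := abs_max_sub_max_le_abs (min 1 (d / r - 1)) (min 1 (d' / r - 1)) 0
  have h2 := abs_min_sub_min_le_max 1 (d / r - 1) 1 (d' / r - 1)
  rw [max_comm 0, max_comm 0 (min 1 (d' / r - 1))]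
  refine h1.trans (h2.trans ?_)
  rw [sub_self, abs_zero, max_eq_right (abs_nonneg _)]
  rw [show d / r - 1 - (d' / r - 1) = (d - d') / r by ring, abs_div, abs_of_pos hr]

lemma chi_cont {r : ℝ} : Continuous (chi r) := by
  unfold chi
  fun_prop

/-! ### the diameter -/

/-- the diameter of a curve -/
noncomputable def dm (γ : C(unitInterval, ℂ)) : ℝ := Metric.diam (range γ)

lemma dm_nonneg (γ : C(unitInterval, ℂ)) : 0 ≤ dm γ := Metric.diam_nonneg

lemma rng_bdd (γ : C(unitInterval, ℂ)) : Bornology.IsBounded (range γ) := (isCompact_range γ.continuous).isBounded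

lemma dist_le_dm (γ : C(unitInterval, ℂ)) (p q : unitInterval) : dist (γ p) (γ q) ≤ dm γ :=
  Metric.dist_le_diam_of_mem (rng_bdd γ) ⟨p, rfl⟩ ⟨q, rfl⟩

lemma dm_le {γ : C(unitInterval, ℂ)} {d : ℝ} (hd : 0 ≤ d) (h : ∀ p q, dist (γ p) (γ q) ≤ d) : dm γ ≤ d := by
  refine Metric.diam_le_of_forall_dist_le hd ?_
  rintro _ ⟨p, rfl⟩ _ ⟨q, rfl⟩
  exact h p q

lemma dm_le_add (γ γ' : C(unitInterval, ℂ)) : dm γ ≤ dm γ' + 2 * dist γ γ' := by
  refine dm_le (by have := dm_nonneg γ'; positivity) fun p q => ?_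
  have h1 := ContinuousMap.dist_apply_le_dist (f := γ) (g := γ') p
  have h2 := ContinuousMap.dist_apply_le_dist (f := γ) (g := γ') q
  have h3 := dist_le_dm γ' p q
  have h4 := dist_triangle4 (γ p) (γ' p) (γ' q) (γ q)
  rw [dist_comm (γ' q)] at h4
  linarith

lemma dm_lip (γ γ' : C(unitInterval, ℂ)) : |dm γ - dm γ'| ≤ 2 * dist γ γ' := by
  have h1 := dm_le_add γ γ'
  have h2 := dm_le_add γ' γ
  rw [dist_comm] at h2
  rw [abs_le]
  constructor <;> linarith

lemma dm_cont : Continuous dm := by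
  rw [Metric.continuous_iff]
  intro γ ε hε
  refine ⟨ε / 2, by positivity, fun γ' h => ?_⟩
  rw [Real.dist_eq]
  have := dm_lip γ' γ
  linarith

lemma dm_iso {γ γ' : C(unitInterval, ℂ)} (h : ∀ p q, dist (γ p) (γ q) = dist (γ' p) (γ' q)) : dm γ = dm γ' :=
  le_antisymm (dm_le (dm_nonneg _) fun p q => (h p q).trans_le (dist_le_dm γ' p q))
    (dm_le (dm_nonneg _) fun p q => (h p q).symm.trans_le (dist_le_dm γ p q))

lemma dist_smul' {z : ℂ} (hz : ‖z‖ = 1) (γ : C(unitInterval, ℂ)) (p q : unitInterval) :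
    dist ((z • γ) p) ((z • γ) q) = dist (γ p) (γ q) := by
  rw [ContinuousMap.smul_apply, ContinuousMap.smul_apply, smul_eq_mul, smul_eq_mul, dist_eq_norm, ← mul_sub, norm_mul, hz,
    one_mul, dist_eq_norm]

lemma dist_neg' (γ : C(unitInterval, ℂ)) (p q : unitInterval) : dist ((-γ) p) ((-γ) q) = dist (γ p) (γ q) := by
  rw [ContinuousMap.neg_apply, ContinuousMap.neg_apply, dist_neg_neg]

lemma dm_smul {z : ℂ} (hz : ‖z‖ = 1) (γ : C(unitInterval, ℂ)) : dm (z • γ) = dm γ := dm_iso (dist_smul' hz γ)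

lemma dm_neg (γ : C(unitInterval, ℂ)) : dm (-γ) = dm γ := dm_iso (dist_neg' γ)

/-! ### the measures -/

/-- times and curves -/
abbrev XX := ℝ × C(unitInterval, ℂ)

/-- the critical mass of the polygons -/
noncomputable def Lam (N m : ℕ) (r : ℝ) : Measure XX := ∑ n ∈ Finset.range (N ^ 2), ∑ s ∈ pol n,
  ENNReal.ofReal ((N : ℝ) ^ 2 * qn n / (2 * ((pol n).card : ℝ)) * chi r (dm (sN N n (curve s)))) •
    (Measure.dirac (((n : ℝ) / m, sN N n (curve s)) : XX) + Measure.dirac (((n : ℝ) / m, -sN N n (curve s)) : XX))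

lemma qn_nonneg (n : ℕ) : 0 ≤ qn n := by
  unfold qn
  have := HexObs.xc_pos
  split_ifs
  · positivity
  · exact le_rfl

lemma wt_nonneg (N n : ℕ) (r : ℝ) (γ : C(unitInterval, ℂ)) :
    0 ≤ (N : ℝ) ^ 2 * qn n / (2 * ((pol n).card : ℝ)) * chi r (dm γ) :=
  mul_nonneg (div_nonneg (mul_nonneg (sq_nonneg _) (qn_nonneg n)) (by positivity)) (chi_nonneg _ _)

instance (N m : ℕ) (r : ℝ) : IsFiniteMeasure (Lam N m r) := by
  unfold Lam
  constructor
  rw [Measure.finsetSum_apply]
  refine ENNReal.sum_lt_top.2 fun n _ => ?_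
  rw [Measure.finsetSum_apply]
  refine ENNReal.sum_lt_top.2 fun s _ => ?_
  rw [Measure.smul_apply, smul_eq_mul]
  exact ENNReal.mul_lt_top ENNReal.ofReal_lt_top (measure_lt_top _ _)

theorem lam_int (N m : ℕ) (r : ℝ) (Φ : XX → ℝ) :
    ∫ x, Φ x ∂(Lam N m r) = ML N fun n γ => chi r (dm γ) * Φ ((n : ℝ) / m, γ) := by
  have hi : ∀ x : XX, Integrable Φ (Measure.dirac x) := fun x => integrable_dirac (by simp)
  have hi2 : ∀ x y : XX, Integrable Φ (Measure.dirac x + Measure.dirac y) := fun x y => (hi x).add_measure (hi y)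
  unfold Lam ML
  rw [integral_finsetSum_measure]
  · rw [Finset.mul_sum]
    refine Finset.sum_congr rfl fun n _ => ?_
    rw [integral_finsetSum_measure fun s _ => (hi2 _ _).smul_measure ENNReal.ofReal_ne_top]
    unfold pmn pmean
    rw [← mul_assoc, mul_div_assoc', Finset.mul_sum, Finset.sum_div]
    refine Finset.sum_congr rfl fun s hs => ?_
    have hc : ((pol n).card : ℝ) ≠ 0 := by exact_mod_cast (Finset.card_pos.2 ⟨s, hs⟩).ne'
    rw [integral_smul_measure, integral_add_measure (hi _) (hi _), integral_dirac, integral_dirac,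
      ENNReal.toReal_ofReal (wt_nonneg N n r _), smul_eq_mul]
    simp only [dm_neg]
    field_simp
  · intro n _
    refine integrable_finsetSum_measure.2 fun s _ => (hi2 _ _).smul_measure ENNReal.ofReal_ne_top

lemma pmn_nonneg {N n : ℕ} {G : C(unitInterval, ℂ) → ℝ} (h : ∀ γ, 0 ≤ G γ) : 0 ≤ pmn N n G := by
  unfold pmn pmean
  exact div_nonneg (Finset.sum_nonneg fun s _ => div_nonneg (add_nonneg (h _) (h _)) (by norm_num)) (Nat.cast_nonneg _)

lemma pmn_mono {N n : ℕ} {G G' : C(unitInterval, ℂ) → ℝ} (h : ∀ γ, G γ ≤ G' γ) : pmn N n G ≤ pmn N n G' := by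
  unfold pmn pmean
  exact div_le_div_of_nonneg_right (Finset.sum_le_sum fun s _ => div_le_div_of_nonneg_right (add_le_add (h _) (h _))
    (by norm_num)) (Nat.cast_nonneg _)

lemma ML_nonneg {N : ℕ} {G : ℕ → C(unitInterval, ℂ) → ℝ} (h : ∀ n γ, 0 ≤ G n γ) : 0 ≤ ML N G :=
  mul_nonneg (sq_nonneg _) (Finset.sum_nonneg fun n _ => mul_nonneg (qn_nonneg n) (pmn_nonneg (h n)))

lemma ML_mono {N : ℕ} {G G' : ℕ → C(unitInterval, ℂ) → ℝ} (h : ∀ n γ, G n γ ≤ G' n γ) : ML N G ≤ ML N G' :=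
  mul_le_mul_of_nonneg_left (Finset.sum_le_sum fun n _ => mul_le_mul_of_nonneg_left (pmn_mono (h n)) (qn_nonneg n))
    (sq_nonneg _)

lemma pmn_add (N n : ℕ) (G G' : C(unitInterval, ℂ) → ℝ) : pmn N n (fun γ => G γ + G' γ) = pmn N n G + pmn N n G' := by
  unfold pmn pmean
  rw [← add_div, ← Finset.sum_add_distrib]
  congr 1
  exact Finset.sum_congr rfl fun s _ => by ring

lemma pmn_mul (N n : ℕ) (c : ℝ) (G : C(unitInterval, ℂ) → ℝ) : pmn N n (fun γ => c * G γ) = c * pmn N n G := by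
  unfold pmn pmean
  rw [mul_div_assoc', Finset.mul_sum]
  congr 1
  exact Finset.sum_congr rfl fun s _ => by ring

lemma ML_add (N : ℕ) (G G' : ℕ → C(unitInterval, ℂ) → ℝ) : ML N (fun n γ => G n γ + G' n γ) = ML N G + ML N G' := by
  unfold ML
  rw [← mul_add, ← Finset.sum_add_distrib]
  congr 1
  refine Finset.sum_congr rfl fun n _ => ?_
  rw [pmn_add]
  ring

lemma ML_mul (N : ℕ) (c : ℝ) (G : ℕ → C(unitInterval, ℂ) → ℝ) : ML N (fun n γ => c * G n γ) = c * ML N G := by
  unfold ML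
  rw [mul_left_comm c, Finset.mul_sum _ _ c]
  congr 1
  refine Finset.sum_congr rfl fun n _ => ?_
  rw [pmn_mul]
  ring

theorem lam_apply (N m : ℕ) (r : ℝ) (E : Set XX) :
    Lam N m r E = ENNReal.ofReal (ML N fun n γ => chi r (dm γ) * if (((n : ℝ) / m, γ) : XX) ∈ E then 1 else 0) := by
  unfold Lam ML
  rw [Measure.finsetSum_apply, Finset.mul_sum, ENNReal.ofReal_sum_of_nonneg]
  · refine Finset.sum_congr rfl fun n _ => ?_
    rw [Measure.finsetSum_apply]
    unfold pmn pmean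
    rw [← mul_assoc, mul_div_assoc', Finset.mul_sum, Finset.sum_div, ENNReal.ofReal_sum_of_nonneg]
    · refine Finset.sum_congr rfl fun s hs => ?_
      have hc : ((pol n).card : ℝ) ≠ 0 := by exact_mod_cast (Finset.card_pos.2 ⟨s, hs⟩).ne'
      have h1 : ∀ x : XX, Measure.dirac x E = ENNReal.ofReal (if x ∈ E then 1 else 0) := by
        intro x
        rw [Measure.dirac_apply, indicator_apply, Pi.one_apply]
        split_ifs
        · rw [ENNReal.ofReal_one]
        · rw [ENNReal.ofReal_zero]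
      rw [Measure.smul_apply, Measure.add_apply, h1, h1, smul_eq_mul, ← ENNReal.ofReal_add (by split_ifs <;> norm_num)
        (by split_ifs <;> norm_num), ← ENNReal.ofReal_mul (wt_nonneg N n r _)]
      congr 1
      simp only [dm_neg]
      field_simp
    · intro s _
      refine div_nonneg (mul_nonneg (mul_nonneg (sq_nonneg _) (qn_nonneg n)) ?_) (Nat.cast_nonneg _)
      refine div_nonneg (add_nonneg ?_ ?_) (by norm_num)
      · exact mul_nonneg (chi_nonneg _ _) (by split_ifs <;> norm_num)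
      · exact mul_nonneg (chi_nonneg _ _) (by split_ifs <;> norm_num)
  · intro n _
    exact mul_nonneg (sq_nonneg _) (mul_nonneg (qn_nonneg n) (pmn_nonneg fun γ => mul_nonneg (chi_nonneg _ _)
      (by split_ifs <;> norm_num)))

/-- the mass -/
noncomputable def Mss (N : ℕ) (r : ℝ) : ℝ := ML N fun _ γ => chi r (dm γ)

lemma mss_nonneg (N : ℕ) (r : ℝ) : 0 ≤ Mss N r := ML_nonneg fun _ _ => chi_nonneg _ _

lemma lam_univ (N m : ℕ) (r : ℝ) : Lam N m r univ = ENNReal.ofReal (Mss N r) := by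
  rw [lam_apply]
  simp only [mem_univ, if_true, mul_one]
  rfl

/-- the atom -/
noncomputable def at0 : XX := (-1, 0)

/-- the normalised measure, with an atom at `(-1, 0)` -/
noncomputable def Pme (M0 : ℝ) (N m : ℕ) (r : ℝ) : Measure XX :=
  ENNReal.ofReal (1 / M0) • (Lam N m r + ENNReal.ofReal (M0 - Mss N r) • Measure.dirac at0)

lemma pme_prob {M0 : ℝ} {N m : ℕ} {r : ℝ} (hM : 0 < M0) (h : Mss N r ≤ M0) : IsProbabilityMeasure (Pme M0 N m r) := by
  constructor
  unfold Pme
  rw [Measure.smul_apply, Measure.add_apply, Measure.smul_apply, lam_univ, measure_univ, smul_eq_mul, smul_eq_mul, mul_one,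
    ← ENNReal.ofReal_add (mss_nonneg N r) (by linarith), ← ENNReal.ofReal_mul (by positivity)]
  rw [show 1 / M0 * (Mss N r + (M0 - Mss N r)) = 1 by field_simp; ring, ENNReal.ofReal_one]

theorem pme_int {M0 : ℝ} {N m : ℕ} {r : ℝ} (hM : 0 < M0) (h : Mss N r ≤ M0) (Φ : XX → ℝ) :
    ∫ x, Φ x ∂(Pme M0 N m r) =
      1 / M0 * (ML N (fun n γ => chi r (dm γ) * Φ ((n : ℝ) / m, γ)) + (M0 - Mss N r) * Φ at0) := by
  have hi : Integrable Φ (Measure.dirac at0) := integrable_dirac (by simp)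
  have hiL : Integrable Φ (Lam N m r) := by
    unfold Lam
    refine integrable_finsetSum_measure.2 fun n _ => integrable_finsetSum_measure.2 fun s _ => ?_
    exact ((integrable_dirac (by simp)).add_measure (integrable_dirac (by simp))).smul_measure ENNReal.ofReal_ne_top
  unfold Pme
  rw [integral_smul_measure, integral_add_measure hiL (hi.smul_measure ENNReal.ofReal_ne_top), lam_int,
    integral_smul_measure, integral_dirac, ENNReal.toReal_ofReal (by positivity), ENNReal.toReal_ofReal (by linarith),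
    smul_eq_mul, smul_eq_mul]

theorem pme_apply {M0 : ℝ} {N m : ℕ} {r : ℝ} (hM : 0 < M0) {E : Set XX} (h : at0 ∉ E) :
    Pme M0 N m r E =
      ENNReal.ofReal (1 / M0 * ML N fun n γ => chi r (dm γ) * if (((n : ℝ) / m, γ) : XX) ∈ E then 1 else 0) := by
  unfold Pme
  rw [Measure.smul_apply, Measure.add_apply, Measure.smul_apply, Measure.dirac_apply, indicator_of_notMem h, smul_zero,
    add_zero, smul_eq_mul, lam_apply, ← ENNReal.ofReal_mul (by positivity)]

end Pool.Agent.ROT.F
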