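import Pool.Agent.NPR.Pc
import Mathlib.Topology.Order.IntermediateValue
set_option autoImplicit false
open Set Filter Topology MeasureTheory
namespace Pool.Agent.ROT.F
open Pool.Agent.NPR

/-! ### pieces: additivity, shifts, reversal -/

/-- **subadditivity** -/
lemma pcs_add_le {s : ℝ} (hs : 0 < s) (γ : C(unitInterval, ℂ)) {a b c : unitInterval} (hab : a ≤ b) (hbc : b ≤ c) :
    pcs s γ a c ≤ pcs s γ a b + pcs s γ b c := by
  obtain ⟨h1, u, hu, h0, hk, hd⟩ := pcs_spec hs γ hab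
  obtain ⟨h1', v, hv, h0', hk', hd'⟩ := pcs_spec hs γ hbc
  obtain ⟨m, hm⟩ : ∃ m, m = pcs s γ a b := ⟨_, rfl⟩
  rw [← hm] at h1 hk hd ⊢
  refine pcs_le ⟨by omega, fun i => if i ≤ m then u i else v (i - m), ?_, ?_, ?_, ?_⟩
  · intro i j hij
    show (if i ≤ m then u i else v (i - m)) ≤ if j ≤ m then u j else v (j - m)
    split_ifs with h2 h3
    · exact hu hij
    · have e1 : u i ≤ b := hk ▸ hu h2
      have e2 : b ≤ v (j - m) := h0' ▸ hv (Nat.zero_le _)
      exact e1.trans e2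
    · omega
    · exact hv (by omega)
  · show (if 0 ≤ m then u 0 else v (0 - m)) = a
    rw [if_pos (Nat.zero_le _), h0]
  · show (if m + pcs s γ b c ≤ m then u (m + pcs s γ b c) else v (m + pcs s γ b c - m)) = c
    rw [if_neg (by omega), Nat.add_sub_cancel_left, hk']
  · rintro i hi p ⟨p1, p2⟩ q ⟨q1, q2⟩
    simp only at p1 p2 q1 q2
    rcases Nat.lt_trichotomy i m with h2 | h2 | h2
    · rw [if_pos h2.le] at p1 q1
      rw [if_pos (show i + 1 ≤ m from h2)] at p2 q2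
      exact hd i h2 p ⟨p1, p2⟩ q ⟨q1, q2⟩
    · rw [h2, if_pos le_rfl, hk] at p1 q1
      rw [h2, if_neg (by omega), show m + 1 - m = 1 by omega] at p2 q2
      have := hd' 0 (by omega) p
      rw [h0'] at this
      exact this ⟨p1, p2⟩ q ⟨q1, q2⟩
    · rw [if_neg (by omega)] at p1 q1
      rw [if_neg (by omega), show i + 1 - m = i - m + 1 by omega] at p2 q2
      exact hd' (i - m) (by omega) p ⟨p1, p2⟩ q ⟨q1, q2⟩

/-- **superadditivity, error 1** -/
lemma pcs_add_ge {s : ℝ} (hs : 0 < s) (γ : C(unitInterval, ℂ)) {a b c : unitInterval} (hab : a ≤ b) (hbc : b ≤ c) :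
    pcs s γ a b + pcs s γ b c ≤ pcs s γ a c + 1 := by
  obtain ⟨h1, u, hu, h0, hk, hd⟩ := pcs_spec hs γ (hab.trans hbc)
  obtain ⟨k, hkk⟩ : ∃ k, k = pcs s γ a c := ⟨_, rfl⟩
  rw [← hkk] at h1 hk hd ⊢
  obtain ⟨j, hj, hj1, hj2⟩ : ∃ j, j < k ∧ u j ≤ b ∧ b ≤ u (j + 1) := by
    by_contra hcon
    push Not at hcon
    have : ∀ j, j ≤ k → u j ≤ b := by
      intro j
      induction j with
      | zero =>
        intro _
        rw [h0]
        exact hab
      | succ j ih => intro hj; exact (hcon j (by omega) (ih (by omega))).le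
    have h3 := this k le_rfl
    have h4 := hcon (k - 1) (by omega) (this _ (by omega))
    rw [show k - 1 + 1 = k by omega, hk] at h4
    exact absurd hbc (not_le.2 h4)
  have e1 : pcs s γ a b ≤ j + 1 := by
    refine pcs_le ⟨by omega, fun i => min (u i) b, fun i j hij => min_le_min (hu hij) le_rfl, ?_, ?_, ?_⟩
    · show min (u 0) b = a
      rw [h0, min_eq_left hab]
    · show min (u _) b = b
      rw [min_eq_right hj2]
    · rintro i hi p ⟨hp1, hp2⟩ q ⟨hq1, hq2⟩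
      simp only at hp1 hp2 hq1 hq2
      have e1 : min (u i) b = u i := min_eq_left ((hu (by omega : i ≤ j)).trans hj1)
      rw [e1] at hp1 hq1
      exact hd i (by omega) p ⟨hp1, hp2.trans (min_le_left _ _)⟩ q ⟨hq1, hq2.trans (min_le_left _ _)⟩
  have e2 : pcs s γ b c ≤ k - j := by
    refine pcs_le ⟨by omega, fun i => max (u (j + i)) b, fun i j hij => max_le_max (hu (by omega)) le_rfl, ?_, ?_, ?_⟩
    · show max (u (j + 0)) b = b
      rw [add_zero, max_eq_right hj1]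
    · show max (u (j + (k - j))) b = c
      rw [show j + (k - j) = k by omega, hk, max_eq_left hbc]
    · rintro i hi p ⟨hp1, hp2⟩ q ⟨hq1, hq2⟩
      simp only at hp1 hp2 hq1 hq2
      have e1 : max (u (j + (i + 1))) b = u (j + i + 1) := by
        rw [← add_assoc]
        exact max_eq_left (hj2.trans (hu (by omega)))
      rw [e1] at hp2 hq2
      exact hd (j + i) (by omega) p ⟨(le_max_left _ _).trans hp1, hp2⟩ q ⟨(le_max_left _ _).trans hq1, hq2⟩
  omega

/-- a shift of the time -/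
lemma pcs_shift_le {s : ℝ} {γ γ' : C(unitInterval, ℂ)} {a b a' b' : unitInterval} {τ : ℝ} (hs : 0 < s) (hab : a ≤ b)
    (ha : (a' : ℝ) = a + τ) (hb : (b' : ℝ) = b + τ)
    (h : ∀ p q : unitInterval, a ≤ p → p ≤ b → (q : ℝ) = p + τ → γ p = γ' q) : pcs s γ' a' b' ≤ pcs s γ a b := by
  obtain ⟨h1, u, hu, h0, hk, hd⟩ := pcs_spec hs γ hab
  obtain ⟨k, hkk⟩ : ∃ k, k = pcs s γ a b := ⟨_, rfl⟩
  rw [← hkk] at h1 hk hd ⊢
  have hua : ∀ i, i ≤ k → a ≤ u i ∧ u i ≤ b := fun i hi => ⟨h0 ▸ hu (Nat.zero_le i), hk ▸ hu hi⟩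
  have hm : ∀ i, ((u (min i k) : ℝ) + τ) ∈ Icc (0 : ℝ) 1 := by
    intro i
    have h2 := hua (min i k) (min_le_right _ _)
    have e1 : (a : ℝ) ≤ u (min i k) := h2.1
    have e2 : (u (min i k) : ℝ) ≤ b := h2.2
    have e3 := a'.2.1
    have e4 := b'.2.2
    exact ⟨by linarith, by linarith⟩
  refine pcs_le ⟨h1, fun i => ⟨(u (min i k) : ℝ) + τ, hm i⟩, ?_, ?_, ?_, ?_⟩
  · intro i j hij
    have e1 : (u (min i k) : ℝ) ≤ u (min j k) := hu (min_le_min hij le_rfl)
    show (u (min i k) : ℝ) + τ ≤ u (min j k) + τ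
    linarith
  · ext
    show (u (min 0 k) : ℝ) + τ = a'
    rw [Nat.zero_min, h0, ha]
  · ext
    show (u (min k k) : ℝ) + τ = b'
    rw [min_self, hk, hb]
  · rintro i hi p ⟨hp1, hp2⟩ q ⟨hq1, hq2⟩
    have hp1' : (u (min i k) : ℝ) + τ ≤ p := hp1
    have hp2' : (p : ℝ) ≤ u (min (i + 1) k) + τ := hp2
    have hq1' : (u (min i k) : ℝ) + τ ≤ q := hq1
    have hq2' : (q : ℝ) ≤ u (min (i + 1) k) + τ := hq2
    rw [min_eq_left hi.le] at hp1' hq1'
    rw [min_eq_left (show i + 1 ≤ k from hi)] at hp2' hq2'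
    have b1 := hua i hi.le
    have b2 := hua (i + 1) hi
    have c1 : (a : ℝ) ≤ u i := b1.1
    have c2 : (u (i + 1) : ℝ) ≤ b := b2.2
    have c3 := a.2.1
    have c4 := b.2.2
    obtain ⟨p', hp'⟩ : ∃ p' : unitInterval, (p' : ℝ) = p - τ := ⟨⟨p - τ, by linarith, by linarith⟩, rfl⟩
    obtain ⟨q', hq'⟩ : ∃ q' : unitInterval, (q' : ℝ) = q - τ := ⟨⟨q - τ, by linarith, by linarith⟩, rfl⟩
    have d1 : u i ≤ p' := by
      show (u i : ℝ) ≤ p'
      linarith
    have d2 : p' ≤ u (i + 1) := by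
      show (p' : ℝ) ≤ u (i + 1)
      linarith
    have d3 : u i ≤ q' := by
      show (u i : ℝ) ≤ q'
      linarith
    have d4 : q' ≤ u (i + 1) := by
      show (q' : ℝ) ≤ u (i + 1)
      linarith
    rw [← h p' p (b1.1.trans d1) (d2.trans b2.2) (by linarith), ← h q' q (b1.1.trans d3) (d4.trans b2.2) (by linarith)]
    exact hd i hi p' ⟨d1, d2⟩ q' ⟨d3, d4⟩

lemma pcs_shift {s : ℝ} {γ γ' : C(unitInterval, ℂ)} {a b a' b' : unitInterval} {τ : ℝ} (hs : 0 < s) (hab : a ≤ b)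
    (ha : (a' : ℝ) = a + τ) (hb : (b' : ℝ) = b + τ)
    (h : ∀ p q : unitInterval, a ≤ p → p ≤ b → (q : ℝ) = p + τ → γ p = γ' q) : pcs s γ' a' b' = pcs s γ a b := by
  have hab' : (a : ℝ) ≤ b := hab
  refine le_antisymm (pcs_shift_le hs hab ha hb h) (pcs_shift_le (τ := -τ) hs ?_ (by linarith) (by linarith) ?_)
  · show (a' : ℝ) ≤ b'
    linarith
  · intro p q hp hq hpq
    have hp' : (a' : ℝ) ≤ p := hp
    have hq' : (p : ℝ) ≤ b' := hq
    refine (h q p ?_ ?_ (by linarith)).symm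
    · show (a : ℝ) ≤ q
      linarith
    · show (q : ℝ) ≤ b
      linarith

/-- the curve backwards -/
noncomputable def rv (γ : C(unitInterval, ℂ)) : C(unitInterval, ℂ) := γ.comp ⟨unitInterval.symm, unitInterval.continuous_symm⟩

lemma rv_apply (γ : C(unitInterval, ℂ)) (t : unitInterval) : rv γ t = γ (unitInterval.symm t) := rfl

lemma rv_rv (γ : C(unitInterval, ℂ)) : rv (rv γ) = γ := by
  ext t
  rw [rv_apply, rv_apply, unitInterval.symm_symm]

lemma range_rv (γ : C(unitInterval, ℂ)) : range (rv γ) = range γ := by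
  ext z
  constructor
  · rintro ⟨t, rfl⟩
    exact ⟨_, rfl⟩
  · rintro ⟨t, rfl⟩
    exact ⟨unitInterval.symm t, by rw [rv_apply, unitInterval.symm_symm]⟩

lemma pcs_rv_le {s : ℝ} (hs : 0 < s) (γ : C(unitInterval, ℂ)) {a b : unitInterval} (hab : a ≤ b) :
    pcs s (rv γ) (unitInterval.symm b) (unitInterval.symm a) ≤ pcs s γ a b := by
  obtain ⟨h1, u, hu, h0, hk, hd⟩ := pcs_spec hs γ hab
  obtain ⟨k, hkk⟩ : ∃ k, k = pcs s γ a b := ⟨_, rfl⟩
  rw [← hkk] at h1 hk hd ⊢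
  refine pcs_le ⟨h1, fun i => unitInterval.symm (u (k - i)), ?_, ?_, ?_, ?_⟩
  · intro i j hij
    exact unitInterval.symm_le_symm.2 (hu (by omega))
  · show unitInterval.symm (u (k - 0)) = _
    rw [Nat.sub_zero, hk]
  · show unitInterval.symm (u (k - k)) = _
    rw [Nat.sub_self, h0]
  · rintro i hi p ⟨hp1, hp2⟩ q ⟨hq1, hq2⟩
    have e : k - i = k - (i + 1) + 1 := by omega
    simp only at hp1 hp2 hq1 hq2
    rw [e] at hp1 hq1
    rw [rv_apply, rv_apply]
    refine hd (k - (i + 1)) (by omega) _ ⟨?_, ?_⟩ _ ⟨?_, ?_⟩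
    · rw [← unitInterval.symm_le_symm, unitInterval.symm_symm]
      exact hp2
    · rw [← unitInterval.symm_le_symm, unitInterval.symm_symm]
      exact hp1
    · rw [← unitInterval.symm_le_symm, unitInterval.symm_symm]
      exact hq2
    · rw [← unitInterval.symm_le_symm, unitInterval.symm_symm]
      exact hq1

lemma pcs_rv {s : ℝ} (hs : 0 < s) (γ : C(unitInterval, ℂ)) {a b : unitInterval} (hab : a ≤ b) :
    pcs s (rv γ) (unitInterval.symm b) (unitInterval.symm a) = pcs s γ a b := by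
  refine le_antisymm (pcs_rv_le hs γ hab) ?_
  have := pcs_rv_le hs (rv γ) (a := unitInterval.symm b) (b := unitInterval.symm a) (unitInterval.symm_le_symm.2 hab)
  rwa [rv_rv, unitInterval.symm_symm, unitInterval.symm_symm] at this

end Pool.Agent.ROT.F
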