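import Pool.Agent.ROT.FLoopA
set_option autoImplicit false
open Set Filter Topology MeasureTheory
namespace Pool.Agent.ROT.F
open Pool.Agent.NPR

/-- a simple closed curve -/
def SL (γ : C(unitInterval, ℂ)) : Prop :=
  γ 0 = γ 1 ∧ ∀ s t : unitInterval, s < t → γ s = γ t → s = 0 ∧ t = 1

lemma SL.inj {γ : C(unitInterval, ℂ)} (h : SL γ) {s t : unitInterval} (hs : 0 < s) (hs1 : s < 1) (e : γ s = γ t) :
    s = t := by
  rcases lt_trichotomy s t with h1 | h1 | h1
  · have := (h.2 s t h1 e).1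
    rw [this] at hs
    exact absurd hs (lt_irrefl _)
  · exact h1
  · have := (h.2 t s h1 e.symm).2
    rw [this] at hs1
    exact absurd hs1 (lt_irrefl _)

lemma SL.rv {γ : C(unitInterval, ℂ)} (h : SL γ) : SL (rv γ) := by
  refine ⟨?_, fun s t hst e => ?_⟩
  · rw [rv_apply, rv_apply, unitInterval.symm_zero, unitInterval.symm_one, h.1]
  · rw [rv_apply, rv_apply] at e
    have h1 := h.2 _ _ (unitInterval.symm_lt_symm.2 hst) e.symm
    exact ⟨by rw [← unitInterval.symm_inj, h1.2, unitInterval.symm_zero],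
      by rw [← unitInterval.symm_inj, h1.1, unitInterval.symm_one]⟩

/-- the case of the same direction -/
lemma SL.iso {γ γ' : C(unitInterval, ℂ)} {ψ : unitInterval → unitInterval} (h : SL γ) (h' : SL γ') (h0 : γ 0 = γ' 0)
    (hr : range γ = range γ') (h1 : ∀ t : unitInterval, 0 < t → t < 1 → γ t = γ' (ψ t) ∧ 0 < ψ t ∧ ψ t < 1)
    (hm : StrictMonoOn ψ (Ioo 0 1)) : ∃ φ : unitInterval ≃o unitInterval, ∀ t, γ t = γ' (φ t) := by
  classical
  obtain ⟨f, hf⟩ : ∃ f : unitInterval → unitInterval, f = fun t => if t = 0 then 0 else if t = 1 then 1 else ψ t := ⟨_, rfl⟩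
  have f0 : f 0 = 0 := by rw [hf]; simp
  have f1 : f 1 = 1 := by rw [hf]; simp
  have fm : ∀ t : unitInterval, 0 < t → t < 1 → f t = ψ t := fun t ha hb => by
    rw [hf]
    simp only [if_neg ha.ne', if_neg hb.ne]
  have hfe : ∀ t, γ t = γ' (f t) := by
    intro t
    rcases eq_or_lt_of_le (unitInterval.nonneg' (t := t)) with ha | ha
    · rw [← ha, f0, h0]
    rcases eq_or_lt_of_le (unitInterval.le_one' (t := t)) with hb | hb
    · rw [hb, f1, ← h.1, h0, h'.1]
    rw [fm t ha hb]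
    exact (h1 t ha hb).1
  have hmono : StrictMono f := by
    intro s t hst
    rcases eq_or_lt_of_le (unitInterval.nonneg' (t := s)) with ha | ha
    · rw [← ha] at hst ⊢
      rw [f0]
      rcases eq_or_lt_of_le (unitInterval.le_one' (t := t)) with hb | hb
      · rw [hb, f1]
        exact zero_lt_one
      · rw [fm t hst hb]
        exact (h1 t hst hb).2.1
    · rcases eq_or_lt_of_le (unitInterval.le_one' (t := t)) with hb | hb
      · rw [hb] at hst ⊢
        rw [f1, fm s ha hst]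
        exact (h1 s ha hst).2.2
      · rw [fm s ha (hst.trans hb), fm t (ha.trans hst) hb]
        exact hm ⟨ha, hst.trans hb⟩ ⟨ha.trans hst, hb⟩ hst
  have hsurj : Function.Surjective f := by
    intro y
    rcases eq_or_lt_of_le (unitInterval.nonneg' (t := y)) with ha | ha
    · exact ⟨0, by rw [f0, ha]⟩
    rcases eq_or_lt_of_le (unitInterval.le_one' (t := y)) with hb | hb
    · exact ⟨1, by rw [f1, hb]⟩
    obtain ⟨t, ht⟩ : γ' y ∈ range γ := hr ▸ ⟨y, rfl⟩
    refine ⟨t, ?_⟩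
    rw [hfe] at ht
    exact (h'.inj ha hb ht.symm).symm
  exact ⟨hmono.orderIsoOfSurjective f hsurj, hfe⟩

/-- **two simple closed curves with the same root and the same trace** -/
theorem SL.same {γ γ' : C(unitInterval, ℂ)} (h : SL γ) (h' : SL γ') (h0 : γ 0 = γ' 0) (hr : range γ = range γ') :
    ∃ φ : unitInterval ≃o unitInterval, (∀ t, γ t = γ' (φ t)) ∨ ∀ t, γ t = Pool.Agent.ROT.F.rv γ' (φ t) := by
  have hin : ∀ {g : C(unitInterval, ℂ)}, SL g → ∀ t : unitInterval, 0 < t → t < 1 → g t ≠ g 0 := by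
    intro g hg t ha hb e
    exact ha.ne' (hg.inj ha hb e)
  have hx : ∀ t : unitInterval, 0 < t → t < 1 → ∃ s : unitInterval, γ t = γ' s ∧ 0 < s ∧ s < 1 := by
    intro t ha hb
    obtain ⟨s, hs⟩ : γ t ∈ range γ' := hr ▸ ⟨t, rfl⟩
    refine ⟨s, hs.symm, lt_of_le_of_ne unitInterval.nonneg' fun e => ?_, lt_of_le_of_ne unitInterval.le_one' fun e => ?_⟩
    · apply hin h t ha hb
      rw [← hs, ← e, h0]
    · apply hin h t ha hb
      rw [← hs, e, ← h'.1, h0]
  classical
  obtain ⟨ψ, hψ⟩ : ∃ ψ : unitInterval → unitInterval, ∀ t : unitInterval, 0 < t → t < 1 →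
      γ t = γ' (ψ t) ∧ 0 < ψ t ∧ ψ t < 1 := by
    refine ⟨fun t => if ht : 0 < t ∧ t < 1 then (hx t ht.1 ht.2).choose else 0, fun t ha hb => ?_⟩
    simp only [dif_pos (And.intro ha hb)]
    exact (hx t ha hb).choose_spec
  have hci : InjOn ψ (Ioo 0 1) := by
    rintro s ⟨hs1, hs2⟩ t ⟨ht1, ht2⟩ e
    have e1 := (hψ s hs1 hs2).1
    rw [e, ← (hψ t ht1 ht2).1] at e1
    exact h.inj hs1 hs2 e1
  have hcc : ContinuousOn ψ (Ioo 0 1) := by
    rw [continuousOn_iff_isClosed]
    intro F hF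
    refine ⟨γ ⁻¹' (γ' '' F), ?_, ?_⟩
    · exact ((hF.isCompact.image γ'.continuous).isClosed).preimage γ.continuous
    · ext t
      constructor
      · rintro ⟨h1, h2⟩
        exact ⟨⟨ψ t, h1, (hψ t h2.1 h2.2).1.symm⟩, h2⟩
      · rintro ⟨⟨s, h1, h3⟩, h2⟩
        refine ⟨?_, h2⟩
        have h4 := hψ t h2.1 h2.2
        have h5 : ψ t = s := h'.inj h4.2.1 h4.2.2 (by rw [← h4.1, h3])
        show ψ t ∈ F
        rw [h5]
        exact h1
  rcases hcc.strictMonoOn_of_injOn_Ioo zero_lt_one hci with hm | hm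
  · obtain ⟨φ, hφ⟩ := h.iso h' h0 hr hψ hm
    exact ⟨φ, Or.inl hφ⟩
  · obtain ⟨φ, hφ⟩ := h.iso (γ' := Pool.Agent.ROT.F.rv γ') (ψ := fun t => unitInterval.symm (ψ t)) h'.rv
      (by rw [rv_apply, unitInterval.symm_zero, ← h'.1, h0]) (by rw [range_rv, hr])
      (fun t ha hb => by
        obtain ⟨a1, a2, a3⟩ := hψ t ha hb
        refine ⟨by rw [rv_apply, unitInterval.symm_symm, a1], ?_, ?_⟩
        · rw [← unitInterval.symm_one]
          exact unitInterval.symm_lt_symm.2 a3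
        · rw [← unitInterval.symm_zero]
          exact unitInterval.symm_lt_symm.2 a2)
      (fun s hs t ht hst => unitInterval.symm_lt_symm.2 (hm hs ht hst))
    exact ⟨φ, Or.inr hφ⟩

end Pool.Agent.ROT.F
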