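import Pool.Agent.ROT.FLoopB
set_option autoImplicit false
open Set Filter Topology MeasureTheory
namespace Pool.Agent.ROT.F
open Pool.Agent.NPR

/-- the closed curve read from the time `u` on -/
noncomputable def rt (u : ℝ) (γ : C(unitInterval, ℂ)) : C(unitInterval, ℂ) where
  toFun t := γ (Set.projIcc 0 1 zero_le_one (u + t)) + γ (Set.projIcc 0 1 zero_le_one (u + t - 1)) - γ 0
  continuous_toFun := by
    have h1 : Continuous fun t : unitInterval => Set.projIcc (0 : ℝ) 1 zero_le_one (u + t) :=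
      continuous_projIcc.comp (by fun_prop)
    have h2 : Continuous fun t : unitInterval => Set.projIcc (0 : ℝ) 1 zero_le_one (u + t - 1) :=
      continuous_projIcc.comp (by fun_prop)
    exact ((γ.continuous.comp h1).add (γ.continuous.comp h2)).sub continuous_const

lemma rt_apply (u : ℝ) (γ : C(unitInterval, ℂ)) (t : unitInterval) : rt u γ t =
    γ (Set.projIcc 0 1 zero_le_one (u + t)) + γ (Set.projIcc 0 1 zero_le_one (u + t - 1)) - γ 0 := rfl

lemma rt_lo {γ : C(unitInterval, ℂ)} {u t x : unitInterval} (hx : (x : ℝ) = u + t) : rt u γ t = γ x := by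
  have h1 := x.2.2
  rw [rt_apply, ← hx, Set.projIcc_val, Set.projIcc_of_le_left zero_le_one (by linarith : (x : ℝ) - 1 ≤ 0)]
  show γ x + γ 0 - γ 0 = γ x
  ring

lemma rt_hi {γ : C(unitInterval, ℂ)} (h : γ 0 = γ 1) {u t x : unitInterval} (hx : (x : ℝ) = u + t - 1) :
    rt u γ t = γ x := by
  have h1 := x.2.1
  rw [rt_apply, ← hx, Set.projIcc_val, Set.projIcc_of_right_le zero_le_one (by linarith : (1 : ℝ) ≤ (u : ℝ) + t)]
  show γ 1 + γ x - γ 0 = γ x
  rw [h]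
  ring

lemma rt_zero (γ : C(unitInterval, ℂ)) (u : unitInterval) : rt u γ 0 = γ u :=
  rt_lo (by rw [show ((0 : unitInterval) : ℝ) = 0 from rfl, add_zero])

lemma rt_one {γ : C(unitInterval, ℂ)} (h : γ 0 = γ 1) (u : unitInterval) : rt u γ 1 = γ u :=
  rt_hi h (by rw [show ((1 : unitInterval) : ℝ) = 1 from rfl]; ring)

/-- the times -/
lemma rt_pt {γ : C(unitInterval, ℂ)} (h : γ 0 = γ 1) (u t : unitInterval) :
    ∃ x : unitInterval, rt u γ t = γ x ∧ (((x : ℝ) = u + t ∧ (u : ℝ) + t ≤ 1) ∨ ((x : ℝ) = u + t - 1 ∧ 1 < (u : ℝ) + t)) := by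
  rcases le_or_gt ((u : ℝ) + t) 1 with hc | hc
  · exact ⟨⟨u + t, add_nonneg u.2.1 t.2.1, hc⟩, rt_lo rfl, Or.inl ⟨rfl, hc⟩⟩
  · have h1 := u.2.2
    have h2 := t.2.2
    exact ⟨⟨u + t - 1, by linarith, by linarith⟩, rt_hi h rfl, Or.inr ⟨rfl, hc⟩⟩

lemma SL.eq_cases {γ : C(unitInterval, ℂ)} (h : SL γ) {x y : unitInterval} (e : γ x = γ y) :
    x = y ∨ (x = 0 ∧ y = 1) ∨ (x = 1 ∧ y = 0) := by
  rcases lt_trichotomy x y with h1 | h1 | h1
  · exact Or.inr (Or.inl (h.2 x y h1 e))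
  · exact Or.inl h1
  · exact Or.inr (Or.inr (h.2 y x h1 e.symm).symm)

lemma SL.rt {γ : C(unitInterval, ℂ)} (h : SL γ) (u : unitInterval) : SL (rt u γ) := by
  refine ⟨by rw [rt_zero, rt_one h.1], fun s t hst e => ?_⟩
  have hst' : (s : ℝ) < t := hst
  have hs0 := s.2.1
  have ht1 := t.2.2
  have hu0 := u.2.1
  have hu1 := u.2.2
  have k0 : ((0 : unitInterval) : ℝ) = 0 := rfl
  have k1 : ((1 : unitInterval) : ℝ) = 1 := rfl
  have key : (s : ℝ) = 0 ∧ (t : ℝ) = 1 := by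
    obtain ⟨x, hx, hx'⟩ := rt_pt h.1 u s
    obtain ⟨y, hy, hy'⟩ := rt_pt h.1 u t
    rw [hx, hy] at e
    have hx0 := x.2.1
    have hx1 := x.2.2
    have hy0 := y.2.1
    have hy1 := y.2.2
    rcases h.eq_cases e with h1 | ⟨h1, h2⟩ | ⟨h1, h2⟩
    · rw [h1] at hx'
      rcases hx' with ⟨a1, a2⟩ | ⟨a1, a2⟩ <;> rcases hy' with ⟨b1, b2⟩ | ⟨b1, b2⟩
      · exfalso; linarith
      · constructor <;> linarith
      · exfalso; linarith
      · exfalso; linarith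
    · rw [h1, k0] at hx'
      rw [h2, k1] at hy'
      rcases hx' with ⟨a1, a2⟩ | ⟨a1, a2⟩ <;> rcases hy' with ⟨b1, b2⟩ | ⟨b1, b2⟩
      · constructor <;> linarith
      · exfalso; linarith
      · exfalso; linarith
      · exfalso; linarith
    · rw [h1, k1] at hx'
      rw [h2, k0] at hy'
      rcases hx' with ⟨a1, a2⟩ | ⟨a1, a2⟩ <;> rcases hy' with ⟨b1, b2⟩ | ⟨b1, b2⟩
      · exfalso; linarith
      · exfalso; linarith
      · exfalso; linarith
      · exfalso; linarith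
  exact ⟨Subtype.ext key.1, Subtype.ext key.2⟩

lemma range_rt {γ : C(unitInterval, ℂ)} (h : γ 0 = γ 1) (u : unitInterval) : range (rt u γ) = range γ := by
  ext z
  constructor
  · rintro ⟨t, rfl⟩
    obtain ⟨x, hx, -⟩ := rt_pt h u t
    exact ⟨x, hx.symm⟩
  · rintro ⟨x, rfl⟩
    have h0 := u.2.1
    have h1 := u.2.2
    have h2 := x.2.1
    have h3 := x.2.2
    rcases le_total u x with hc | hc
    · have hc' : (u : ℝ) ≤ x := hc
      exact ⟨⟨x - u, by linarith, by linarith⟩, rt_lo (by show (x : ℝ) = u + (x - u); ring)⟩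
    · have hc' : (x : ℝ) ≤ u := hc
      exact ⟨⟨x - u + 1, by linarith, by linarith⟩, rt_hi h (by show (x : ℝ) = u + (x - u + 1) - 1; ring)⟩

/-! ### the number of pieces after a change of the root, of the direction -/

lemma pcs_rt_lo {s : ℝ} (hs : 0 < s) (γ : C(unitInterval, ℂ)) {u t x : unitInterval} (hx : (x : ℝ) = u + t) :
    (pcs s γ 0 x : ℝ) - pcs s γ 0 u ≤ pcs s (rt u γ) 0 t ∧ (pcs s (rt u γ) 0 t : ℝ) ≤ pcs s γ 0 x - pcs s γ 0 u + 1 := by
  have hux : u ≤ x := by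
    show (u : ℝ) ≤ x
    have := t.2.1
    linarith
  have k0 : ((0 : unitInterval) : ℝ) = 0 := rfl
  have e : pcs s (rt u γ) 0 t = pcs s γ u x := by
    refine pcs_shift (τ := -(u : ℝ)) hs hux (by rw [k0]; ring) (by rw [hx]; ring) fun p q hp _ hpq => ?_
    exact (rt_lo (by rw [hpq]; ring)).symm
  have h1 := pcs_add_le hs γ (unitInterval.nonneg' (t := u)) hux
  have h2 := pcs_add_ge hs γ (unitInterval.nonneg' (t := u)) hux
  rw [e]
  have h1' : (pcs s γ 0 x : ℝ) ≤ pcs s γ 0 u + pcs s γ u x := by exact_mod_cast h1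
  have h2' : (pcs s γ 0 u : ℝ) + pcs s γ u x ≤ pcs s γ 0 x + 1 := by exact_mod_cast h2
  constructor <;> linarith

lemma pcs_rt_hi {s : ℝ} (hs : 0 < s) {γ : C(unitInterval, ℂ)} (h : γ 0 = γ 1) {u t x : unitInterval}
    (hx : (x : ℝ) = u + t - 1) :
    (pcs s γ 0 1 : ℝ) - pcs s γ 0 u + pcs s γ 0 x - 1 ≤ pcs s (rt u γ) 0 t ∧
      (pcs s (rt u γ) 0 t : ℝ) ≤ pcs s γ 0 1 - pcs s γ 0 u + pcs s γ 0 x + 1 := by
  have k0 : ((0 : unitInterval) : ℝ) = 0 := rfl
  have k1 : ((1 : unitInterval) : ℝ) = 1 := rfl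
  have hu1 := u.2.2
  have hu0 := u.2.1
  have hx0 := x.2.1
  obtain ⟨y, hy⟩ : ∃ y : unitInterval, (y : ℝ) = 1 - u := ⟨⟨1 - u, by linarith, by linarith⟩, rfl⟩
  have hyt : y ≤ t := by
    show (y : ℝ) ≤ t
    linarith
  have h1 := pcs_rt_lo hs γ (u := u) (t := y) (x := 1) (by rw [hy, k1]; ring)
  have e : pcs s (rt u γ) y t = pcs s γ 0 x := by
    refine pcs_shift (τ := 1 - (u : ℝ)) hs unitInterval.nonneg' (by rw [hy, k0]; ring) (by rw [hx]; ring)
      fun p q _ _ hpq => (rt_hi h (by rw [hpq]; ring)).symm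
  have h2 := pcs_add_le hs (rt u γ) (unitInterval.nonneg' (t := y)) hyt
  have h3 := pcs_add_ge hs (rt u γ) (unitInterval.nonneg' (t := y)) hyt
  rw [e] at h2 h3
  have h2' : (pcs s (rt u γ) 0 t : ℝ) ≤ pcs s (rt u γ) 0 y + pcs s γ 0 x := by exact_mod_cast h2
  have h3' : (pcs s (rt u γ) 0 y : ℝ) + pcs s γ 0 x ≤ pcs s (rt u γ) 0 t + 1 := by exact_mod_cast h3
  constructor <;> linarith [h1.1, h1.2]

lemma pcs_rv0 {s : ℝ} (hs : 0 < s) (γ : C(unitInterval, ℂ)) (t : unitInterval) :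
    (pcs s γ 0 1 : ℝ) - pcs s γ 0 (unitInterval.symm t) ≤ pcs s (rv γ) 0 t ∧
      (pcs s (rv γ) 0 t : ℝ) ≤ pcs s γ 0 1 - pcs s γ 0 (unitInterval.symm t) + 1 := by
  have e := pcs_rv hs γ (a := unitInterval.symm t) (b := 1) unitInterval.le_one'
  rw [unitInterval.symm_one, unitInterval.symm_symm] at e
  rw [e]
  have h1 := pcs_add_le hs γ (unitInterval.nonneg' (t := unitInterval.symm t)) (unitInterval.le_one')
  have h2 := pcs_add_ge hs γ (unitInterval.nonneg' (t := unitInterval.symm t)) (unitInterval.le_one')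
  have h1' : (pcs s γ 0 1 : ℝ) ≤ pcs s γ 0 (unitInterval.symm t) + pcs s γ (unitInterval.symm t) 1 := by exact_mod_cast h1
  have h2' : (pcs s γ 0 (unitInterval.symm t) : ℝ) + pcs s γ (unitInterval.symm t) 1 ≤ pcs s γ 0 1 + 1 := by
    exact_mod_cast h2
  constructor <;> linarith

/-- integration of a comparison of the numbers of pieces -/
lemma vb_lin {ρ c : ℝ} (hρ : 0 < ρ) {γ γ' : C(unitInterval, ℂ)} {t x u v : unitInterval} {α β : ℝ}
    (h : ∀ s, 0 < s → α * pcs s γ 0 v - pcs s γ 0 u + β * pcs s γ 0 x - c ≤ pcs s γ' 0 t ∧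
      (pcs s γ' 0 t : ℝ) ≤ α * pcs s γ 0 v - pcs s γ 0 u + β * pcs s γ 0 x + c) :
    |vb ρ γ' t - (α * vb ρ γ v - vb ρ γ u + β * vb ρ γ x)| ≤ c * ρ := by
  have hρ2 : ρ ≤ 2 * ρ := by linarith
  have i1 := pcs_int γ v hρ hρ2
  have i2 := pcs_int γ u hρ hρ2
  have i3 := pcs_int γ x hρ hρ2
  have i4 := pcs_int γ' t hρ hρ2
  have i5 : IntervalIntegrable (fun s => α * (pcs s γ 0 v : ℝ) - pcs s γ 0 u + β * pcs s γ 0 x) volume ρ (2 * ρ) :=
    ((i1.const_mul α).sub i2).add (i3.const_mul β)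
  have e : ∫ s in ρ..2 * ρ, (α * (pcs s γ 0 v : ℝ) - pcs s γ 0 u + β * pcs s γ 0 x) =
      α * vb ρ γ v - vb ρ γ u + β * vb ρ γ x := by
    rw [intervalIntegral.integral_add ((i1.const_mul α).sub i2) (i3.const_mul β),
      intervalIntegral.integral_sub (i1.const_mul α) i2, intervalIntegral.integral_const_mul,
      intervalIntegral.integral_const_mul]
    rfl
  have ic : IntervalIntegrable (fun _ : ℝ => c) volume ρ (2 * ρ) := by simp
  have ec : ∫ _s in ρ..2 * ρ, c = c * ρ := by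
    rw [intervalIntegral.integral_const, smul_eq_mul]
    ring
  have h1 : ∫ s in ρ..2 * ρ, (pcs s γ' 0 t : ℝ) ≤
      ∫ s in ρ..2 * ρ, ((α * (pcs s γ 0 v : ℝ) - pcs s γ 0 u + β * pcs s γ 0 x) + c) := by
    refine intervalIntegral.integral_mono_on hρ2 i4 (i5.add ic) fun s hs => ?_
    exact (h s (lt_of_lt_of_le hρ hs.1)).2
  have h2 : ∫ s in ρ..2 * ρ, ((α * (pcs s γ 0 v : ℝ) - pcs s γ 0 u + β * pcs s γ 0 x) - c) ≤
      ∫ s in ρ..2 * ρ, (pcs s γ' 0 t : ℝ) := by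
    refine intervalIntegral.integral_mono_on hρ2 (i5.sub ic) i4 fun s hs => ?_
    exact (h s (lt_of_lt_of_le hρ hs.1)).1
  rw [intervalIntegral.integral_add i5 ic, e, ec] at h1
  rw [intervalIntegral.integral_sub i5 ic, e, ec] at h2
  have e4 : ∫ s in ρ..2 * ρ, (pcs s γ' 0 t : ℝ) = vb ρ γ' t := rfl
  rw [e4] at h1 h2
  rw [abs_le]
  constructor <;> linarith

end Pool.Agent.ROT.F
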