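import Pool.Agent.ROT.FBd

/-!
# ROT, block F1, assembly (helper5): open sets and the limits

* `IsL.seq` : the probability measures; **`IsL.isOpen_le`** : open sets; `IsL.ev_open` : events of the curves.
-/

set_option autoImplicit false

open MeasureTheory Filter Topology Set

open scoped Classical

namespace Pool.Agent.ROT.F

open Pool.Agent.NTS.Res Pool.Agent.PMA Pool.Agent.PMA.Res

variable {r M0 : ℝ} {φ : ℕ → ℕ} {P : Measure XX}

/-- the lattice scale tends to infinity -/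
lemma IsL.nm (h : IsL r M0 φ P) : Tendsto (fun k => Nm (φ k)) atTop atTop := nm_top.comp h.top

lemma IsL.mss' (h : IsL r M0 φ P) : ∀ᶠ k in atTop, Mss (Nm (φ k)) r ≤ M0 := h.nm.eventually h.mss

/-- the probability measures -/
lemma IsL.seq (h : IsL r M0 φ P) : ∃ (Q : ℕ → ProbabilityMeasure XX) (P' : ProbabilityMeasure XX),
    (P' : Measure XX) = P ∧ Tendsto Q atTop (𝓝 P') ∧
      ∀ᶠ k in atTop, (Q k : Measure XX) = Pme M0 (Nm (φ k)) (φ k) r := by
  obtain ⟨P', hP'⟩ : ∃ P' : ProbabilityMeasure XX, (P' : Measure XX) = P := ⟨⟨P, h.prob⟩, rfl⟩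
  obtain ⟨Q, hQ⟩ : ∃ Q : ℕ → ProbabilityMeasure XX, ∀ k, Mss (Nm (φ k)) r ≤ M0 →
      (Q k : Measure XX) = Pme M0 (Nm (φ k)) (φ k) r := by
    refine ⟨fun k => if hk : Mss (Nm (φ k)) r ≤ M0 then ⟨Pme M0 (Nm (φ k)) (φ k) r, pme_prob h.Mp hk⟩ else P', fun k hk => ?_⟩
    simp only [dif_pos hk]
    rfl
  have hev : ∀ᶠ k in atTop, (Q k : Measure XX) = Pme M0 (Nm (φ k)) (φ k) r := h.mss'.mono fun k hk => hQ k hk
  refine ⟨Q, P', hP', ?_, hev⟩
  rw [ProbabilityMeasure.tendsto_iff_forall_integral_tendsto]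
  intro f
  rw [hP']
  refine (h.lim f).congr' ?_
  filter_upwards [hev] with k hk
  rw [hk]

/-- **open sets** -/
theorem IsL.isOpen_le (h : IsL r M0 φ P) {U : Set XX} (hU : IsOpen U) {e : ENNReal}
    (hf : ∃ᶠ k in atTop, Pme M0 (Nm (φ k)) (φ k) r U ≤ e) : P U ≤ e := by
  obtain ⟨Q, P', hP', hQ, hev⟩ := h.seq
  have h2 := ProbabilityMeasure.le_liminf_measure_open_of_tendsto hQ hU
  rw [hP'] at h2
  refine h2.trans (liminf_le_of_frequently_le' ?_)
  refine (hf.and_eventually hev).mono fun k hk => ?_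
  rw [hk.2]
  exact hk.1

/-- **events**: if, frequently, the mass of the event is at most `e`, then its probability is at most `e / M0` -/
theorem IsL.ev_open (h : IsL r M0 φ P) {U : Set XX} (hU : IsOpen U) (h0 : at0 ∉ U) {e : ℝ}
    (hf : ∃ᶠ k in atTop, ML (Nm (φ k)) (fun n γ => chi r (dm γ) * if (((n : ℝ) / (φ k : ℕ), γ) : XX) ∈ U then 1 else 0) ≤ e) :
    P U ≤ ENNReal.ofReal (1 / M0 * e) := by
  refine h.isOpen_le hU (hf.mono fun k hk => ?_)
  rw [pme_apply h.Mp h0]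
  exact ENNReal.ofReal_le_ofReal (mul_le_mul_of_nonneg_left hk (by have := h.Mp; positivity))

end Pool.Agent.ROT.F
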