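import Pool.Agent.ROT.IOut
import Pool.Agent.ROT.ISt
import Pool.Agent.ROT.NMassU

/-!
# ROT, block F1, row (c), first part (helper70): the functional `MT` as a sum over the closed words

* `cy n`: closed words with `n` letters; `bw N F n`: their contribution to `MT N F`;
* **`MT_w`** : `MT N F = N ^ 2 * ∑' n, bw N F n` for bounded translation invariant `F`;
* `wc` : the weights.
-/

set_option autoImplicit false

namespace Pool.Agent.ROT.I.FR

open MeasureTheory Filter Topology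
open Pool.Agent.ROT.E (Cfg Lp Cell)
open Pool.Agent.ROT.E.Hx
open HexObs (wE gf oo up vx emb nrm mulE rotTo)
open HexObs.TIW (hn)
open scoped ENNReal

/-- the closed words with `n` letters -/
noncomputable def cy (n : ℕ) : Finset (List Bool) := (HexObs.POLP.PCy_fin n).toFinset

theorem mem_cy {n : ℕ} {t : List Bool} : t ∈ cy n ↔ t ∈ HexObs.POL.Cy n := by
  unfold cy
  rw [Set.Finite.mem_toFinset, HexObs.POL.Cy_eq]

theorem cy_len {n : ℕ} {t : List Bool} (h : t ∈ cy n) : t.length = n := (mem_cy.1 h).1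

/-- the sum over the six directions -/
noncomputable def bS (N : ℕ) (F : Set ℂ → ℝ) (t : List Bool) : ℝ := ∑ s : Sx, F (trc N (lpw (0, s) t))

/-- the contribution of the closed words with `n` letters -/
noncomputable def bw (N : ℕ) (F : Set ℂ → ℝ) (n : ℕ) : ℝ := HexObs.xc ^ n / (2 * n) * ∑ t ∈ cy n, bS N F t

theorem xc_nn (n : ℕ) : 0 ≤ HexObs.xc ^ n := pow_nonneg HexObs.xc_pos.le n

theorem gf_cy' (n : ℕ) : gf (HexObs.POL.Cy n) = ENNReal.ofReal (HexObs.xc ^ n * (cy n).card) := by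
  have h := HexObs.POLP.gf_PCy n
  rw [HexObs.POL.Cy_eq, h, mul_comm]
  congr 2
  unfold cy
  rw [Set.ncard_eq_toFinset_card _ (HexObs.POLP.PCy_fin n)]

/-- **the weights** -/
theorem wc : ∃ C : ℝ, 0 < C ∧ ∀ n : ℕ, HexObs.xc ^ n / n * (cy n).card ≤ C * (n : ℝ) ^ (-(5 / 2) : ℝ) := by
  obtain ⟨C, hC, h⟩ := HexObs.NK.P1'
  refine ⟨C, hC, fun n => ?_⟩
  rcases Nat.eq_zero_or_pos n with rfl | hn
  · simp
  have h1 := h n hn
  rw [gf_cy', ← ENNReal.ofReal_mul (by positivity)] at h1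
  have h2 := (ENNReal.ofReal_le_ofReal_iff (by positivity)).1 h1
  calc HexObs.xc ^ n / n * (cy n).card = 1 / n * (HexObs.xc ^ n * (cy n).card) := by ring
    _ ≤ _ := h2

theorem bS_le {F : Set ℂ → ℝ} {C : ℝ} (hb : ∀ K, |F K| ≤ C) (N : ℕ) (t : List Bool) : |bS N F t| ≤ 6 * C := by
  unfold bS
  refine (Finset.abs_sum_le_sum_abs _ _).trans ?_
  refine (Finset.sum_le_sum fun s _ => hb _).trans ?_
  have hc : (Finset.univ : Finset Sx).card = 6 := rfl
  rw [Finset.sum_const, hc, nsmul_eq_mul]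
  norm_num

theorem bw_le {F : Set ℂ → ℝ} {C : ℝ} (hb : ∀ K, |F K| ≤ C) (N n : ℕ) :
    |bw N F n| ≤ 3 * C * (HexObs.xc ^ n / n * (cy n).card) := by
  unfold bw
  have h0 : 0 ≤ HexObs.xc ^ n / (2 * n) := div_nonneg (xc_nn n) (by positivity)
  rw [abs_mul, abs_of_nonneg h0]
  have h1 : |∑ t ∈ cy n, bS N F t| ≤ (cy n).card * (6 * C) := by
    refine (Finset.abs_sum_le_sum_abs _ _).trans ?_
    refine (Finset.sum_le_sum fun t _ => bS_le hb N t).trans ?_
    rw [Finset.sum_const, nsmul_eq_mul]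
  refine (mul_le_mul_of_nonneg_left h1 h0).trans_eq ?_
  rcases Nat.eq_zero_or_pos n with rfl | hn
  · simp
  have hn' : (n : ℝ) ≠ 0 := by positivity
  field_simp
  ring

theorem sum_wc : Summable fun n : ℕ => HexObs.xc ^ n / n * (cy n).card := by
  obtain ⟨C, hC, h⟩ := wc
  refine Summable.of_nonneg_of_le (fun n => mul_nonneg (div_nonneg (xc_nn n) (Nat.cast_nonneg n)) (Nat.cast_nonneg _)) h ?_
  exact ((Real.summable_nat_rpow (p := (-(5 / 2) : ℝ))).2 (by norm_num)).mul_left C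

theorem bw_sum {F : Set ℂ → ℝ} {C : ℝ} (hb : ∀ K, |F K| ≤ C) (N : ℕ) : Summable (bw N F) := by
  refine Summable.of_norm_bounded (sum_wc.mul_left (3 * C)) fun n => ?_
  exact bw_le hb N n

/-! ### sums over `Wo` by the length -/

theorem wo_len (h : List Bool → ℝ≥0∞) (h0 : h [] = 0) : ∑' t : Wo, h t = ∑' n : ℕ, ∑ t ∈ cy n, h t := by
  classical
  have e1 : ∀ n, ∑ t ∈ cy n, h t = ∑' t : List Bool, if t ∈ cy n then h t else 0 := by
    intro n
    rw [tsum_eq_sum (s := cy n) fun t ht => if_neg ht]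
    exact Finset.sum_congr rfl fun t ht => (if_pos ht).symm
  simp_rw [e1]
  rw [ENNReal.tsum_comm, tsum_subtype Wo h]
  refine tsum_congr fun t => ?_
  rw [tsum_eq_single t.length fun n hn => if_neg fun h1 => hn (cy_len h1).symm]
  by_cases h1 : t ∈ Wo
  · rw [Set.indicator_of_mem h1, if_pos (mem_cy.2 h1.2)]
  · rw [Set.indicator_of_notMem h1]
    by_cases h2 : t = []
    · subst h2
      rw [h0, ite_self]
    · rw [if_neg fun h3 => h1 ⟨h2, mem_cy.1 h3⟩]

/-- translation invariance -/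
def TI (F : Set ℂ → ℝ) : Prop := ∀ K : Set ℂ, K.Finite → K.Nonempty → ∀ v : ℂ, F ((fun z => z + v) '' K) = F K

theorem trc_fin' (N : ℕ) (γ : Cfg) : (trc N γ).Finite := Tr.trc_fin N γ

theorem trc_nonempty {N : ℕ} {γ : Cfg} (l : HL γ) : (trc N γ).Nonempty := by
  obtain ⟨v, hv⟩ := hl_ne l
  exact ⟨_, v, Finsupp.mem_support_iff.1 hv, rfl⟩

/-- **the nonnegative case** -/
theorem MT_pos {F : Set ℂ → ℝ} {C : ℝ} (hb : ∀ K, |F K| ≤ C) (hF : ∀ K, 0 ≤ F K) (ti : TI F) (N : ℕ) :
    MT N F = (N : ℝ) ^ 2 * ∑' n, bw N F n := by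
  classical
  rw [MT_eq]
  congr 1
  set G : Cfg → ℝ≥0∞ := fun γ => ENNReal.ofReal (F (trc N γ)) with hG
  have hGt : ∀ a γ, HL γ → G (E.Hx.trc a γ) = G γ := by
    intro a γ l
    simp only [hG]
    rw [trc_tr, ti _ (trc_fin' N γ) (trc_nonempty l)]
  -- the loops
  have h1 : ∑' γ : Z0, M1 γ.1.1 * F (trc N γ.1.1) =
      (∑' γ : {γ : Cfg // HL γ ∧ cor γ = 0}, wl γ.1 * G γ.1).toReal := by
    rw [ENNReal.tsum_toReal_eq (f := fun γ : {γ : Cfg // HL γ ∧ cor γ = 0} => wl γ.1 * G γ.1)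
      (fun γ => ENNReal.mul_ne_top ENNReal.ofReal_ne_top ENNReal.ofReal_ne_top)]
    have a1 := tsum_subtype Z0 (fun γ : Lps => M1 γ.1 * F (trc N γ.1))
    have a2 := tsum_subtype {γ : Cfg | Lp γ} (fun γ => if cor γ = 0 then M1 γ * F (trc N γ) else 0)
    have a3 := tsum_subtype {γ : Cfg | HL γ ∧ cor γ = 0} (fun γ => (wl γ * G γ).toReal)
    have a4 : ∀ γ : Lps, Z0.indicator (fun γ : Lps => M1 γ.1 * F (trc N γ.1)) γ =
        if cor γ.1 = 0 then M1 γ.1 * F (trc N γ.1) else 0 := by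
      intro γ
      have h : γ.1.support.Nonempty := by
        rw [Finset.nonempty_iff_ne_empty]
        intro h
        exact γ.2.ne (Finsupp.support_eq_empty.1 h)
      have h2 : γ ∈ Z0 ↔ cor γ.1 = 0 := (cor_eq h 0).symm
      rw [Set.indicator_apply]
      simp only [h2]
    rw [a1, tsum_congr a4]
    refine a2.trans (Eq.trans ?_ a3.symm)
    refine tsum_congr fun γ => ?_
    have e1 : M1 γ = if Ny γ then HexObs.xc ^ (hs γ).card else 0 := by
      unfold M1
      exact prod_hex γ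
    simp only [Set.indicator_apply, Set.mem_ofPred_eq]
    by_cases g1 : Lp γ
    · by_cases g2 : Ny γ
      · by_cases g3 : cor γ = 0
        · rw [if_pos g1, if_pos g3, if_pos (⟨⟨g1, g2⟩, g3⟩ : HL γ ∧ cor γ = 0), e1, if_pos g2, ENNReal.toReal_mul]
          simp only [hG]
          unfold wl
          rw [ENNReal.toReal_ofReal (xc_nn _), ENNReal.toReal_ofReal (hF _)]
        · rw [if_pos g1, if_neg g3, if_neg (fun h : HL γ ∧ cor γ = 0 => g3 h.2)]
      · rw [if_pos g1, if_neg (fun h : HL γ ∧ cor γ = 0 => g2 h.1.ny), e1, if_neg g2]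
        simp
    · rw [if_neg g1, if_neg (fun h : HL γ ∧ cor γ = 0 => g1 h.1.lp)]
  -- the words
  have h2 : ∑' γ : {γ : Cfg // HL γ ∧ cor γ = 0}, wl γ.1 * G γ.1 = ∑' n, ENNReal.ofReal (bw N F n) := by
    rw [mtp (top := cor) cor_trc G hGt]
    have b1 : ∀ s : Sx, ∑' t : Wo, wE t * (G (lpw (0, s) t) / (2 * (t : List Bool).length)) =
        ∑' n : ℕ, ∑ t ∈ cy n, ENNReal.ofReal (HexObs.xc ^ t.length / (2 * t.length) * F (trc N (lpw (0, s) t))) := by
      intro s
      rw [← wo_len _ (by simp)]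
      refine tsum_congr fun t => ?_
      have hp : (0 : ℝ) < (t : List Bool).length := by exact_mod_cast List.length_pos_iff.2 t.2.1
      simp only [hG]
      unfold wE
      rw [show (2 * ((t : List Bool).length : ℝ≥0∞)) = ENNReal.ofReal (2 * (t : List Bool).length) by
          rw [ENNReal.ofReal_mul (by norm_num), ENNReal.ofReal_natCast]
          norm_num,
        ← ENNReal.ofReal_div_of_pos (by positivity), ← ENNReal.ofReal_mul (xc_nn _)]
      congr 1
      ring
    rw [Finset.sum_congr rfl fun s _ => b1 s, ← Summable.tsum_finsetSum fun s _ => ENNReal.summable]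
    refine tsum_congr fun n => ?_
    rw [Finset.sum_comm]
    unfold bw bS
    rw [Finset.mul_sum, ENNReal.ofReal_sum_of_nonneg fun t _ => mul_nonneg (div_nonneg (xc_nn n) (by positivity))
      (Finset.sum_nonneg fun s _ => hF _)]
    refine Finset.sum_congr rfl fun t ht => ?_
    rw [Finset.mul_sum, ENNReal.ofReal_sum_of_nonneg fun s _ => mul_nonneg (div_nonneg (xc_nn n) (by positivity)) (hF _)]
    refine Finset.sum_congr rfl fun s _ => ?_
    rw [cy_len ht]
  have hn : ∀ n, 0 ≤ bw N F n := fun n => mul_nonneg (div_nonneg (xc_nn n) (by positivity))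
    (Finset.sum_nonneg fun t _ => Finset.sum_nonneg fun s _ => hF _)
  rw [h1, h2, ← ENNReal.ofReal_tsum_of_nonneg hn (bw_sum hb N), ENNReal.toReal_ofReal (tsum_nonneg hn)]

/-- the constant -/
theorem bw_add (F G : Set ℂ → ℝ) (N n : ℕ) : bw N (fun K => F K + G K) n = bw N F n + bw N G n := by
  unfold bw bS
  rw [← mul_add, ← Finset.sum_add_distrib]
  congr 1
  refine Finset.sum_congr rfl fun t _ => ?_
  rw [← Finset.sum_add_distrib]

/-- **`MT` as a sum over the closed words** -/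
theorem MT_w (hZ : mu Z0 < ⊤) {F : Set ℂ → ℝ} {C : ℝ} (hb : ∀ K, |F K| ≤ C) (ti : TI F) (N : ℕ) :
    MT N F = (N : ℝ) ^ 2 * ∑' n, bw N F n := by
  have hC : 0 ≤ C := (abs_nonneg _).trans (hb ∅)
  have h1 := MT_pos (F := fun K => F K + C) (C := C + C) (fun K => (abs_add_le _ _).trans (add_le_add (hb K) (abs_of_nonneg hC).le))
    (fun K => by linarith [(abs_le.1 (hb K)).1]) (fun K h h' v => by
      show F _ + C = F K + C
      rw [ti K h h' v]) N
  have h2 := MT_pos (F := fun _ => C) (C := C) (fun K => (abs_of_nonneg hC).le) (fun _ => hC) (fun _ _ _ _ => rfl) N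
  have h3 : MT N (fun K => F K + C) = MT N F + MT N fun _ => C := by
    unfold MT
    rw [← mul_add, ← integral_add (Tr.int_Z0 hZ fun γ => hb _) (Tr.int_Z0 hZ (h := fun _ => C) fun _ => (abs_of_nonneg hC).le)]
  have h4 : ∑' n, bw N (fun K => F K + C) n = ∑' n, bw N F n + ∑' n, bw N (fun _ => C) n := by
    rw [← (bw_sum hb N).tsum_add (bw_sum (F := fun _ => C) (C := C) (fun _ => (abs_of_nonneg hC).le) N)]
    exact tsum_congr fun n => bw_add F (fun _ => C) N n
  rw [h3, h4, h2, mul_add] at h1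
  linarith

end Pool.Agent.ROT.I.FR
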