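import Pool.Agent.ROT.FRotA
import Pool.Agent.ROT.FLit
import Pool.Agent.RMP.PubWA

/-!
# ROT, block F1, row (c), second part (helper70): the curves of the polygons and the traces of the loops

* `pol_sum`, `pmn_w`: the means over the polygons as sums over the closed words and the six directions;
* `six` : the six directions of the two sides;
* **`geo`** : the trace of the loop and the range of the curve are at a distance at most `2 / N`;
* `small` : words of a small diameter.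
-/

set_option autoImplicit false

open MeasureTheory Filter Topology Set

open scoped Classical

namespace Pool.Agent.ROT.I.FR

open Pool.Agent.PMA Pool.Agent.PMA.Res Pool.Agent.NTS.Res Pool.Agent.ROT.F

open HexObs hiding pos

open HexObs.TIW HexObs.POLP NTSF NTSF.Mg NTF Pool.Agent.TSW.BP HexObs.MCP

/-! ### 1. The sums over the polygons -/

/-- the curve of a word at the scale `N`, direction `c` -/
noncomputable def pc (N n : ℕ) (c : ℂ) (t : List Bool) : C(unitInterval, ℂ) := ((N : ℝ)⁻¹ : ℝ) • Tight.poly (cz c t) n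

theorem cyF_cy (n : ℕ) : cyF n = cy n := rfl

theorem pol_sum {n : ℕ} (hn : 3 ≤ n) (ho : Odd n) (F : C(unitInterval, ℂ) → ℝ) :
    ∑ s ∈ pol n, F (curve s) = 3 * ∑ t ∈ cy (n + 1), f3 (fun γ => F (((sg n)⁻¹ : ℝ) • γ)) n t := by
  have hn1 : 1 ≤ n := by omega
  have hs : (0 : ℝ) < (saw n).card := by exact_mod_cast (saw_nonempty n).card_pos
  have hc4 : (2 : ℝ) * (saw n).card = 3 * cS n := by exact_mod_cast card_three (n := n) hn1
  have hc : (0 : ℝ) < cS n := by linarith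
  have h1 := mean_end hn1 (fun x => x = 1) F
  obtain ⟨G, hG⟩ : ∃ G : C(unitInterval, ℂ) → ℝ, G = fun γ => F (((sg n)⁻¹ : ℝ) • γ) := ⟨_, rfl⟩
  rw [← hG] at h1 ⊢
  have h2 := sum_cy hn ho (fun t => (∑ a : Fin 3, G (pn (cz (cr a) (t.take (n - 1))) n)) / 3) fun t => by
    rw [List.take_take, min_self]
  have h3 : ∑ t ∈ (sawF n).filter (fun t => ‖JJ (vx oo up t n)‖ = 1), f3 G n t =
      ∑ t ∈ (sawF n).filter (fun t => ‖JJ (vx oo up t n)‖ = 1),
        (∑ a : Fin 3, G (pn (cz (cr a) (t.take (n - 1))) n)) / 3 := by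
    refine Finset.sum_congr rfl fun t ht => f3_take hn1 ?_
    rw [(mem_sawF.1 (Finset.mem_filter.1 ht).1).1]
  have h4 : ∑ t ∈ cyF (n + 1), f3 G n t =
      ∑ t ∈ cyF (n + 1), (∑ a : Fin 3, G (pn (cz (cr a) (t.take (n - 1))) n)) / 3 := by
    refine Finset.sum_congr rfl fun t ht => f3_take hn1 ?_
    have := ((Set.Finite.mem_toFinset _).1 ht).1
    omega
  rw [h3, h2, ← h4, div_eq_div_iff hs.ne' hc.ne'] at h1
  have h5 : ∑ s ∈ pol n, F (curve s) = ∑ s ∈ (saw n).filter (fun s => ‖pos s n‖ = 1), F (curve s) := rfl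
  rw [h5]
  have h6 : (∑ s ∈ (saw n).filter (fun s => ‖pos s n‖ = 1), F (curve s)) * (cS n : ℝ) =
      (3 * ∑ t ∈ cyF (n + 1), f3 G n t) * (cS n : ℝ) := by
    rw [h1]
    linear_combination (∑ t ∈ cyF (n + 1), f3 G n t) * hc4
  exact mul_right_cancel₀ hc.ne' h6

/-- **the mean at the scale `N`** -/
theorem pmn_w {n : ℕ} (hn : 3 ≤ n) (ho : Odd n) (N : ℕ) (G : C(unitInterval, ℂ) → ℝ) :
    qn n * pmn N n G = HexObs.xc ^ (n + 1) / (2 * ((n + 1 : ℕ) : ℝ)) *
      ∑ t ∈ cy (n + 1), ∑ a : Fin 3, (G (pc N n (cr a) t) + G (pc N n (-cr a) t)) := by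
  have hn1 : 1 ≤ n := by omega
  unfold qn
  rw [if_pos ⟨ho, hn⟩]
  have h1 : ((pol n).card : ℝ) * pmn N n G = ∑ s ∈ pol n, (G (sN N n (curve s)) + G (-(sN N n (curve s)))) / 2 := by
    unfold pmn pmean
    rcases eq_or_ne ((pol n).card : ℝ) 0 with h | h
    · have h2 : pol n = ∅ := by
        rw [← Finset.card_eq_zero]
        exact_mod_cast h
      rw [h2]
      simp
    · rw [mul_div_cancel₀ _ h]
  rw [pol_sum hn ho (fun γ => (G (sN N n γ) + G (-(sN N n γ))) / 2)] at h1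
  have h2 : ∀ t ∈ cy (n + 1), f3 (fun γ => (G (sN N n (((sg n)⁻¹ : ℝ) • γ)) + G (-(sN N n (((sg n)⁻¹ : ℝ) • γ)))) / 2) n t =
      (∑ a : Fin 3, (G (pc N n (cr a) t) + G (pc N n (-cr a) t))) / 6 := by
    intro t ht
    have hl : n ≤ t.length := by
      rw [cy_len ht]
      omega
    unfold f3
    have h3 : ∀ a : Fin 3, sN N n (((sg n)⁻¹ : ℝ) • pT (cr a) t n) = pc N n (cr a) t := by
      intro a
      rw [pT_of_le hl]
      unfold sN pc pn
      rw [smul_smul, smul_smul]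
      congr 1
      unfold sg
      have p1 := (nr_pos hn1).ne'
      have p3 := (size_pos hn1).ne'
      field_simp
    have h4 : ∀ a : Fin 3, -pc N n (cr a) t = pc N n (-cr a) t := by
      intro a
      have h5 := poly_smul (-1) (cz (cr a) t) n
      have e : (fun k => ((-1 : ℝ) : ℂ) * cz (cr a) t k) = cz (-cr a) t := by
        funext k
        unfold cz
        push_cast
        ring
      rw [e] at h5
      unfold pc
      rw [← h5]
      ext u
      show -(((N : ℝ)⁻¹ : ℝ) • Tight.poly (cz (cr a) t) n u) = ((N : ℝ)⁻¹ : ℝ) • ((-1 : ℝ) • Tight.poly (cz (cr a) t) n u)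
      rw [neg_one_smul, smul_neg]
    simp only [h3, h4]
    rw [← Finset.sum_div]
    ring
  rw [Finset.sum_congr rfl h2, ← Finset.sum_div] at h1
  have h3 : HexObs.xc ^ (n + 1) * ((pol n).card : ℝ) / (n + 1) * pmn N n G =
      HexObs.xc ^ (n + 1) / (n + 1) * (((pol n).card : ℝ) * pmn N n G) := by ring
  rw [h3, h1]
  push_cast
  field_simp
  ring

/-! ### 2. The directions -/

/-- the direction of the bond `s` -/
noncomputable def ze (s : E.Hx.Sx) : ℂ := HexObs.zt * JJ (E.Hx.dr s)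

theorem emb_JJ (p : HexObs.Pt) : emb p = HexObs.zt * JJ p := by
  have h3 : Real.sqrt 3 * Real.sqrt 3 = 3 := Real.mul_self_sqrt (by norm_num)
  apply Complex.ext
  · rw [emb_re, Complex.mul_re, JJ_re, JJ_im]
    simp only [HexObs.zt]
    linear_combination (-(p.1 : ℝ) / 4) * h3
  · rw [emb_im, Complex.mul_im, JJ_re, JJ_im]
    simp only [HexObs.zt]
    ring

theorem JJ_up : JJ up = 1 := by
  apply Complex.ext
  · rw [JJ_re]
    simp [up]
  · rw [JJ_im]
    simp [up]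

theorem emb_rt (s : E.Hx.Sx) (p : HexObs.Pt) : emb (mulE (rotTo up (E.Hx.dr s)) p) = ze s * JJ p := by
  have h1 := RMP.W.JJ_mulE (rotTo up (E.Hx.dr s)) up
  rw [rotTo_apply _ (by decide : up ∈ dirs), JJ_up, mul_one] at h1
  rw [emb_JJ, RMP.W.JJ_mulE, ← h1]
  unfold ze
  ring

theorem norm_JJ (p : HexObs.Pt) : ‖JJ p‖ = ‖emb p‖ := by
  rw [emb_JJ, norm_mul, E.Hx.norm_zt, one_mul]

theorem ze_norm (s : E.Hx.Sx) : ‖ze s‖ = 1 := by
  have h1 := norm_emb_sq (E.Hx.dr s)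
  rw [mem_dirs.1 (E.Hx.dr_mem s)] at h1
  unfold ze
  rw [norm_mul, E.Hx.norm_zt, one_mul, norm_JJ]
  push_cast at h1
  nlinarith [norm_nonneg (emb (E.Hx.dr s))]

theorem om_sq' : NTSF.om ^ 2 = -1 - NTSF.om := by
  rw [pow_two]
  exact RMP.W.om_sq

theorem zt_om : HexObs.zt = 1 + NTSF.om := by
  apply Complex.ext
  · rw [Complex.add_re, Complex.one_re, RMP.W.om_re]
    show (1 / 2 : ℝ) = _
    norm_num
  · rw [Complex.add_im, Complex.one_im, RMP.W.om_im]
    show Real.sqrt 3 / 2 = _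
    norm_num

/-- **the six directions** -/
theorem six (H : ℂ → ℝ) : ∑ s : E.Hx.Sx, H (ze s) = ∑ a : Fin 3, (H (cr a) + H (-cr a)) := by
  have h2 := om_sq'
  have e1 : ze .ww = -1 := by
    unfold ze
    rw [zt_om, RMP.W.JJ_om]
    simp only [E.Hx.dr]
    push_cast
    linear_combination h2
  have e2 : ze .ss = -NTSF.om := by
    unfold ze
    rw [zt_om, RMP.W.JJ_om]
    simp only [E.Hx.dr]
    push_cast
    linear_combination -h2
  have e3 : ze .ii = -NTSF.om ^ 2 := by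
    unfold ze
    rw [zt_om, RMP.W.JJ_om]
    simp only [E.Hx.dr]
    push_cast
    linear_combination h2
  have e4 : ze .ee = 1 := by
    unfold ze
    rw [zt_om, RMP.W.JJ_om]
    simp only [E.Hx.dr]
    push_cast
    linear_combination -h2
  have e5 : ze .nn = NTSF.om := by
    unfold ze
    rw [zt_om, RMP.W.JJ_om]
    simp only [E.Hx.dr]
    push_cast
    linear_combination h2
  have e6 : ze .jj = NTSF.om ^ 2 := by
    unfold ze
    rw [zt_om, RMP.W.JJ_om]
    simp only [E.Hx.dr]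
    push_cast
    linear_combination -h2
  have hs : ∀ f : E.Hx.Sx → ℝ, ∑ s : E.Hx.Sx, f s = f .ww + f .ss + f .ii + f .ee + f .nn + f .jj := by
    intro f
    have : (Finset.univ : Finset E.Hx.Sx) = {.ww, .ss, .ii, .ee, .nn, .jj} := by decide
    rw [this]
    rw [Finset.sum_insert (by decide), Finset.sum_insert (by decide), Finset.sum_insert (by decide),
      Finset.sum_insert (by decide), Finset.sum_insert (by decide), Finset.sum_singleton]
    ring
  rw [hs, e1, e2, e3, e4, e5, e6, Fin.sum_univ_three]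
  unfold cr
  simp only [Fin.val_zero, Fin.val_one, Fin.val_two, pow_zero, pow_one]
  ring

/-! ### 3. Positions -/

theorem st_pos (s : E.Hx.Sx) (t : List Bool) (i : ℕ) :
    emb (E.Hx.st (E.Hx.bt (0, s) t i)) = emb (E.Hx.st (0, s)) + cz (ze s) t i := by
  rw [st_bt', HexObs.emb_add, emb_rt]
  rfl

theorem poly_node (z : ℕ → ℂ) {n i : ℕ} (hn : 1 ≤ n) (hi : i ≤ n) : ∃ u : unitInterval, Tight.poly z n u = z i := by
  have hn0 : (0 : ℝ) < n := by exact_mod_cast hn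
  have hin : (i : ℝ) ≤ n := by exact_mod_cast hi
  obtain ⟨u, hu⟩ : ∃ u : unitInterval, (u : ℝ) * n = i :=
    ⟨⟨i / n, by positivity, (div_le_one hn0).2 hin⟩, div_mul_cancel₀ _ hn0.ne'⟩
  refine ⟨u, ?_⟩
  rcases hi.lt_or_eq with h | rfl
  · rw [Tight.poly_apply h hu.ge (by rw [hu]; linarith), hu]
    simp
  · obtain ⟨m, rfl⟩ : ∃ m, i = m + 1 := ⟨i - 1, by omega⟩
    have h1 : ((m + 1 : ℕ) : ℝ) = m + 1 := by push_cast; ring
    rw [Tight.poly_apply (Nat.lt_succ_self m) (by rw [hu, h1]; linarith) (by rw [hu, h1]), hu, h1]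
    simp

theorem wo_cy {n : ℕ} {t : List Bool} (ht : t ∈ cy (n + 1)) : t ∈ E.Hx.Wo := by
  have h := mem_cy.1 ht
  refine ⟨fun h0 => ?_, ?_⟩
  · have := cy_len ht
    rw [h0] at this
    simp at this
  · rw [cy_len ht]
    exact h

/-- the translation -/
noncomputable def tv (N : ℕ) (s : E.Hx.Sx) : ℂ := ((N : ℝ)⁻¹ : ℝ) • emb (E.Hx.st (0, s))

theorem pc_app (N n : ℕ) (c : ℂ) (t : List Bool) (u : unitInterval) :
    pc N n c t u = ((N : ℝ)⁻¹ : ℝ) • Tight.poly (cz c t) n u := rfl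

theorem cell_near {N : ℕ} (s : E.Hx.Sx) (t : List Bool) (i : ℕ) :
    dist (sc N (E.Hx.bt (0, s) t i).1) (((N : ℝ)⁻¹ : ℝ) • cz (ze s) t i + tv N s) ≤ (N : ℝ)⁻¹ := by
  have e : ((N : ℝ)⁻¹ : ℝ) • cz (ze s) t i + tv N s = ((N : ℝ)⁻¹ : ℝ) • emb (E.Hx.st (E.Hx.bt (0, s) t i)) := by
    unfold tv
    rw [st_pos, ← smul_add, add_comm]
  rw [e, sc_ps, dist_smul₀, norm_inv, Real.norm_natCast]
  have h := E.Hx.dist_st (E.Hx.bt (0, s) t i)
  rw [dist_comm] at h
  have h0 : (0 : ℝ) ≤ (N : ℝ)⁻¹ := by positivity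
  nlinarith

/-- **the trace of the loop and the range of the curve** -/
theorem geo (N : ℕ) {n : ℕ} (hn : 1 ≤ n) {t : List Bool} (ht : t ∈ cy (n + 1)) (s : E.Hx.Sx) :
    Metric.hausdorffDist (trc N (E.Hx.lpw (0, s) t)) (range (pc N n (ze s) t + ContinuousMap.const unitInterval (tv N s))) ≤ 2 / N := by
  have h0 : (0 : ℝ) ≤ (N : ℝ)⁻¹ := by positivity
  have e2 : 2 / (N : ℝ) = (N : ℝ)⁻¹ + (N : ℝ)⁻¹ := by ring
  refine Metric.hausdorffDist_le_of_mem_dist (by positivity) ?_ ?_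
  · intro x hx
    obtain ⟨i, hi, rfl⟩ := (mem_trc (wo_cy ht)).1 hx
    rw [cy_len ht] at hi
    obtain ⟨u, hu⟩ := poly_node (cz (ze s) t) hn (Nat.lt_succ_iff.1 hi)
    refine ⟨_, ⟨u, rfl⟩, ?_⟩
    rw [ContinuousMap.add_apply, pc_app, hu, ContinuousMap.const_apply, e2]
    linarith [cell_near (N := N) s t i]
  · rintro _ ⟨u, rfl⟩
    obtain ⟨i, hi, -, -, h1⟩ := poly_near (cz_unit (ze_norm s) t) hn u
    refine ⟨_, (mem_trc (wo_cy ht)).2 ⟨i, by rw [cy_len ht]; omega, rfl⟩, ?_⟩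
    rw [ContinuousMap.add_apply, pc_app, ContinuousMap.const_apply, e2]
    have h2 := cell_near (N := N) s t i
    rw [dist_comm] at h2
    refine (dist_triangle _ (((N : ℝ)⁻¹ : ℝ) • cz (ze s) t i + tv N s) _).trans (add_le_add ?_ h2)
    rw [dist_add_right, dist_smul₀, norm_inv, Real.norm_natCast, dist_eq_norm]
    nlinarith

/-! ### 4. Small diameters -/

theorem norm_vx_le {R : ℝ} {n : ℕ} {t : List Bool} (h : ∀ i j, i ≤ n → j ≤ n → (hn (vx oo up t i - vx oo up t j) : ℝ) < R)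
    {i j : ℕ} (hi : i ≤ n) (hj : j ≤ n) : ‖JJ (vx oo up t i) - JJ (vx oo up t j)‖ ≤ R := by
  rw [← NTF.JJ_sub, norm_JJ]
  exact (norm_le_hn _).trans (h i j hi hj).le

theorem diam_pc {N : ℕ} {R : ℝ} (hR : 0 ≤ R) {n : ℕ} (h1n : 1 ≤ n) {t : List Bool}
    (h : ∀ i j, i ≤ n → j ≤ n → (hn (vx oo up t i - vx oo up t j) : ℝ) < R) {c : ℂ} (hc : ‖c‖ = 1) :
    Metric.diam (range (pc N n c t)) ≤ (R + 2) / N := by
  refine Metric.diam_le_of_forall_dist_le (by positivity) ?_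
  rintro _ ⟨u, rfl⟩ _ ⟨u', rfl⟩
  obtain ⟨i, hi, -, -, h1⟩ := poly_near (cz_unit hc t) h1n u
  obtain ⟨j, hj, -, -, h2⟩ := poly_near (cz_unit hc t) h1n u'
  rw [pc_app, pc_app, dist_smul₀, norm_inv, Real.norm_natCast, div_eq_inv_mul]
  refine mul_le_mul_of_nonneg_left ?_ (by positivity)
  have h3 : dist (cz c t i) (cz c t j) ≤ R := by
    rw [dist_eq_norm]
    unfold cz
    rw [← mul_sub, norm_mul, hc, one_mul]
    exact norm_vx_le h hi.le hj.le
  rw [← dist_eq_norm] at h1 h2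
  rw [dist_comm] at h2
  linarith [dist_triangle4 (Tight.poly (cz c t) n u) (cz c t i) (cz c t j) (Tight.poly (cz c t) n u')]

theorem diam_trc {N : ℕ} (hN : 0 < N) {R : ℝ} (hR : 0 ≤ R) {n : ℕ} {t : List Bool} (ht : t ∈ cy (n + 1))
    (h : ∀ i j, i ≤ n → j ≤ n → (hn (vx oo up t i - vx oo up t j) : ℝ) < R) (s : E.Hx.Sx) :
    Metric.diam (trc N (E.Hx.lpw (0, s) t)) ≤ (R + 2) / N := by
  refine Metric.diam_le_of_forall_dist_le (by positivity) ?_
  intro x hx y hy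
  obtain ⟨i, hi, rfl⟩ := (mem_trc (wo_cy ht)).1 hx
  obtain ⟨j, hj, rfl⟩ := (mem_trc (wo_cy ht)).1 hy
  rw [cy_len ht] at hi hj
  rw [dist_sc]
  have h1 := (abs_le.1 (dist_bt 0 s t i j)).2
  have h2 := norm_le_hn (vx oo up t i - vx oo up t j)
  have h3 := h i j (Nat.lt_succ_iff.1 hi) (Nat.lt_succ_iff.1 hj)
  gcongr
  linarith

/-! ### 5. The functional -/

/-- the functional for all sets -/
noncomputable def ext (F : TopologicalSpace.NonemptyCompacts ℂ → ℝ) (K : Set ℂ) : ℝ :=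
  if h : IsCompact K ∧ K.Nonempty then F ⟨⟨K, h.1⟩, h.2⟩ else 0

theorem ext_pos (F : TopologicalSpace.NonemptyCompacts ℂ → ℝ) {K : Set ℂ} (h : IsCompact K) (h' : K.Nonempty) :
    ext F K = F ⟨⟨K, h⟩, h'⟩ := dif_pos ⟨h, h'⟩

theorem ext_tt {F : TopologicalSpace.NonemptyCompacts ℂ → ℝ} {C L r : ℝ} (hF : TC F C L r) : TT (ext F) C L r where
  tf := {
    bdd := fun K => by
      unfold ext
      split_ifs
      · exact hF.bdd _
      · rw [abs_zero]
        exact (abs_nonneg _).trans (hF.bdd {0})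
    lip := fun K K' h h' n n' => by
      rw [ext_pos F h.isCompact n, ext_pos F h'.isCompact n']
      exact hF.lip _ _ }
  ti := fun K h n v => by
    rw [ext_pos F h.isCompact n, ext_pos F (h.image _).isCompact (n.image _)]
    exact hF.ti _ _ v rfl
  z := fun K h n hd => by
    rw [ext_pos F h.isCompact n]
    exact hF.z _ hd

/-- **the comparison** -/
theorem cmp {F : TopologicalSpace.NonemptyCompacts ℂ → ℝ} {C L r : ℝ} (hr : 0 < r) (hF : TC F C L r) {N : ℕ} (hN : 0 < N)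
    (hNr : 4 / r < N) {n : ℕ} (h1n : 1 ≤ n) {t : List Bool} (ht : t ∈ cy (n + 1)) (s : E.Hx.Sx) :
    |ext F (trc N (E.Hx.lpw (0, s) t)) - F (NPR.tr (pc N n (ze s) t))| ≤
      if t ∈ NK.DU (n + 1) (r * N / 2) then |L| * (2 / N) else 0 := by
  have hN0 : (0 : ℝ) < N := by exact_mod_cast hN
  have hne : (trc N (E.Hx.lpw (0, s) t)).Nonempty :=
    trc_nonempty ⟨E.Hx.lp_lpw ((E.Hx.mem_wo ((0 : Pt), s)).1 (wo_cy ht)), E.Hx.ny_lpw _ _⟩
  have hfi : (trc N (E.Hx.lpw (0, s) t)).Finite := trc_fin' N _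
  rw [ext_pos F hfi.isCompact hne]
  split_ifs with hD
  · set γ' : C(unitInterval, ℂ) := pc N n (ze s) t + ContinuousMap.const unitInterval (tv N s) with hγ
    have h1 : F (NPR.tr γ') = F (NPR.tr (pc N n (ze s) t)) := by
      refine hF.ti _ _ (tv N s) ?_
      rw [NPR.coe_tr, NPR.coe_tr, ← range_comp]
      rfl
    rw [← h1]
    refine (hF.lip _ _).trans ?_
    have h2 : dist (⟨⟨trc N (E.Hx.lpw (0, s) t), hfi.isCompact⟩, hne⟩ : TopologicalSpace.NonemptyCompacts ℂ) (NPR.tr γ') ≤ 2 / N := by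
      rw [Metric.NonemptyCompacts.dist_eq]
      exact geo N h1n ht s
    exact (mul_le_mul_of_nonneg_right (le_abs_self L) dist_nonneg).trans (mul_le_mul_of_nonneg_left h2 (abs_nonneg L))
  · have h : ∀ i j, i ≤ n → j ≤ n → (hn (vx oo up t i - vx oo up t j) : ℝ) < r * N / 2 := by
      intro i j hi hj
      by_contra h'
      exact hD ⟨mem_cy.1 ht, i, j, by omega, by omega, not_lt.1 h'⟩
    have h3 : (r * N / 2 + 2) / N < r := by
      rw [div_lt_iff₀ hr] at hNr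
      rw [div_lt_iff₀ hN0]
      linarith
    have z1 : F ⟨⟨trc N (E.Hx.lpw (0, s) t), hfi.isCompact⟩, hne⟩ = 0 :=
      hF.z ⟨⟨trc N (E.Hx.lpw (0, s) t), hfi.isCompact⟩, hne⟩ (lt_of_le_of_lt (diam_trc hN (by positivity) ht h s) h3)
    have z2 : F (NPR.tr (pc N n (ze s) t)) = 0 :=
      hF.z (NPR.tr (pc N n (ze s) t)) (lt_of_le_of_lt (diam_pc (by positivity) h1n h (ze_norm s)) h3)
    rw [z1, z2, sub_zero, abs_zero]

end Pool.Agent.ROT.I.FR
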