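import Pool.Agent.ROT.FLit
import Pool.Agent.ROT.PubW

/-!
# ROT, block F1, row (g): the laws and the sizes of the polygons change slowly with the number of the steps (helper58)

* **`pslow_of (hA : AllSc) : PSlow`** (literal of FLit).

The limit of the polygons along a sequence of odd numbers is a function of the limit of the walks along the same sequence (`pol_flow`),
and the limits of the walks along two sequences with the ratio 1 agree (`Full.law_equiv`); compactness.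
-/

set_option autoImplicit false

open MeasureTheory Filter Topology Set
open scoped Classical ENNReal

namespace Pool.Agent.ROT.F

open Pool.Agent.NTS.Res Pool.Agent.PMA Pool.Agent.PMA.Res Pool.Agent.SCF

/-- two sequences of odd numbers with the ratio 1: along a subsequence the means of the polygons agree, uniformly over the
Lipschitz functions -/
lemma pslow_seq (hA : AllSc) {a b : ℕ → ℕ} (ha : Tendsto a atTop atTop) (oa : ∀ k, Odd (a k)) (ob : ∀ k, Odd (b k))
    (h : Tendsto (fun k => (b k : ℝ) / a k) atTop (𝓝 1)) {ε : ℝ} (hε : 0 < ε) :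
    ∃ ψ : ℕ → ℕ, StrictMono ψ ∧ ∀ᶠ k in atTop, ∀ F : C(unitInterval, ℂ) → ℝ, (∀ γ, |F γ| ≤ 1) → LipschitzWith 1 F →
      |pmean (b (ψ k)) F - pmean (a (ψ k)) F| ≤ ε := by
  obtain ⟨-, -, T, c, hT0, -⟩ := flow_pub3 hA
  have hT : IsFlow T c := fun t φ ν t0 _ hφ hl =>
    ⟨(hT0 t φ ν t0 hφ hl).1, (hT0 t φ ν t0 hφ hl).2.1⟩
  obtain ⟨P, hP, -⟩ := pol_flow hT
  obtain ⟨K, hK, hxK⟩ := compact_xs
  obtain ⟨y, -, ψ, hψ, h1⟩ := hK.tendsto_subseq (x := fun k => xs (a k)) (fun k => hxK _)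
  have hta : Tendsto (fun k => a (ψ k)) atTop atTop := ha.comp hψ.tendsto_atTop
  have hr : Tendsto (fun k => (b (ψ k) : ℝ) / a (ψ k)) atTop (𝓝 1) := h.comp hψ.tendsto_atTop
  have htb : Tendsto (fun k => b (ψ k)) atTop atTop := by
    have har : Tendsto (fun k => (a (ψ k) : ℝ)) atTop atTop := tendsto_natCast_atTop_atTop.comp hta
    have h2 : Tendsto (fun k => (b (ψ k) : ℝ) / a (ψ k) * a (ψ k)) atTop atTop := hr.pos_mul_atTop one_pos har
    have h3 : Tendsto (fun k => (b (ψ k) : ℝ)) atTop atTop := by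
      refine (tendsto_congr' ?_).1 h2
      filter_upwards [har.eventually_gt_atTop 0] with k hk
      exact div_mul_cancel₀ _ hk.ne'
    exact tendsto_natCast_atTop_iff.1 h3
  have la : LawTo (fun k => a (ψ k)) (y.toMeasure : Measure C(unitInterval, ℂ)) :=
    (lim_iff' (φ := fun k => a (ψ k)) y).1 h1
  have lb : LawTo (fun k => b (ψ k)) (y.toMeasure : Measure C(unitInterval, ℂ)) :=
    Full.law_equiv hta hr inferInstance la
  have pa := (Fp.polTo_iff' hta (fun k => oa _)).1 (hP _ _ hta (fun k => oa _) la)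
  have pb := (Fp.polTo_iff' htb (fun k => ob _)).1 (hP _ _ htb (fun k => ob _) lb)
  obtain ⟨n1, hv⟩ := Fp.pl_val
  refine ⟨ψ, hψ, ?_⟩
  filter_upwards [unif_of_tendsto pa (half_pos hε), unif_of_tendsto pb (half_pos hε), hta.eventually_ge_atTop n1,
    htb.eventually_ge_atTop n1] with k k1 k2 k3 k4 F hF hL
  have e1 := k1 F hF hL
  have e2 := k2 F hF hL
  rw [hv _ k3, Fp.od_of (oa _), plaw_int'] at e1
  rw [hv _ k4, Fp.od_of (ob _), plaw_int'] at e2
  rw [abs_le] at e1 e2 ⊢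
  constructor <;> linarith [e1.1, e1.2, e2.1, e2.2]

/-- **row (g)** -/
theorem pslow_of (hA : AllSc) : PSlow := by
  intro ε hε
  by_contra hc
  push Not at hc
  have h1 : ∀ k : ℕ, ∃ p : ℕ × ℕ, k + 1 ≤ p.1 ∧ Odd p.1 ∧ Odd p.2 ∧ |(p.2 : ℝ) - p.1| ≤ 1 / ((k : ℝ) + 1) * p.1 ∧
      (|size p.2 / size p.1 - 1| ≤ ε → ∃ F : C(unitInterval, ℂ) → ℝ, (∀ γ, |F γ| ≤ 1) ∧ LipschitzWith 1 F ∧
        ε < |pmean p.2 F - pmean p.1 F|) := by
    intro k
    obtain ⟨n, n', h2, h3, h4, h5, h6⟩ := hc (1 / ((k : ℝ) + 1)) (k + 1) (by positivity)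
    exact ⟨(n, n'), h2, h3, h4, h5, h6⟩
  choose p p1 p2 p3 p4 p5 using h1
  have ha : Tendsto (fun k => (p k).1) atTop atTop :=
    tendsto_atTop_mono (fun k => (Nat.le_succ k).trans (p1 k)) tendsto_id
  have hr : Tendsto (fun k => ((p k).2 : ℝ) / (p k).1) atTop (𝓝 1) := by
    rw [tendsto_iff_dist_tendsto_zero]
    refine squeeze_zero (fun _ => dist_nonneg) (fun k => ?_) tendsto_one_div_add_atTop_nhds_zero_nat
    have h2 : (0 : ℝ) < (p k).1 := by
      have := p1 k
      exact_mod_cast (by omega : 0 < (p k).1)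
    rw [Real.dist_eq, div_sub_one h2.ne', abs_div, abs_of_pos h2, div_le_iff₀ h2]
    exact p4 k
  obtain ⟨ψ, hψ, h3⟩ := pslow_seq hA ha p2 p3 hr hε
  have h4 : Tendsto (fun k => size (p (ψ k)).2 / size (p (ψ k)).1) atTop (𝓝 1) :=
    (size_near (a := fun k => (p k).2) ha hr).comp hψ.tendsto_atTop
  have h5 : ∀ᶠ k in atTop, |size (p (ψ k)).2 / size (p (ψ k)).1 - 1| < ε := by
    have := (Metric.tendsto_nhds.1 h4) ε hε
    simpa only [Real.dist_eq] using this
  obtain ⟨k, k1, k2⟩ := (h3.and h5).exists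
  obtain ⟨F, f1, f2, f3⟩ := p5 (ψ k) k2.le
  exact absurd (k1 F f1 f2) (not_le.2 f3)

end Pool.Agent.ROT.F
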