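import Pool.Agent.ROT.TwoA
import Pool.Agent.ROT.PubP

/-!
# ROT, block F2 (helper88): the two-sided infinite walk is asymptotically rotation invariant, from the polygons

* `qm_unif` : the `Q`-means of the functionals of the windows of `k` turns;
* **`two_unif`** : the laws of the curve `Y_k` of the two-sided infinite walk, uniformly over the rotations and the Lipschitz
  functions;
* **`two_rot`**, **`alaw_rot`** : the weak limits of `Y_k`, and those with the weights `1 / k`, are invariant under all the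
  rotations.
-/

set_option autoImplicit false

open Set Filter Topology MeasureTheory

open scoped ENNReal

namespace Pool.Agent.ROT

open Pool.Agent.TSW Pool.Agent.TSW.Sym Pool.Agent.TSW.E Pool.Agent.NTS.Res Pool.Agent.PMA Pool.Agent.PMA.Res

variable {Q : Measure (ℤ → Bool)}

/-! ### 1. The polygons -/

/-- the polygons: functions with values in `[0, 1]` and an arbitrary Lipschitz constant -/
lemma pol_unif_L (h : RotP) (K : ℝ) {ε : ℝ} (hε : 0 < ε) : ∃ n₀ : ℕ, ∀ n : ℕ, n₀ ≤ n → Odd n → ∀ z : ℂ, ‖z‖ = 1 →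
    ∀ F : CI → ℝ, (∀ γ, 0 ≤ F γ ∧ F γ ≤ 1) → (∀ γ γ', |F γ - F γ'| ≤ K * ‖γ - γ'‖) →
      |pmean n (fun γ => F (z • γ)) - pmean n F| ≤ ε := by
  obtain ⟨D, hD⟩ : ∃ D : ℝ, D = max K 1 := ⟨_, rfl⟩
  have hD1 : 1 ≤ D := by rw [hD]; exact le_max_right _ _
  have hDK : K ≤ D := by rw [hD]; exact le_max_left _ _
  have hD0 : 0 < D := by linarith
  obtain ⟨n0, hn0⟩ := pol_unif h (ε / D) (by positivity)
  refine ⟨n0, fun n hn ho z hz F h01 hL => ?_⟩
  have h1 := hn0 n hn ho z hz (fun γ => F γ / D) (fun γ => ?_) ?_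
  · have e : ∀ G : CI → ℝ, pmean n (fun γ => G γ / D) = pmean n G / D := by
      intro G
      unfold pmean
      rw [← Finset.sum_div, div_right_comm]
    rw [e F, e (fun γ => F (z • γ)), ← sub_div, abs_div, abs_of_pos hD0, div_le_div_iff_of_pos_right hD0] at h1
    exact h1
  · rw [abs_of_nonneg (div_nonneg (h01 γ).1 hD0.le), div_le_one hD0]
    linarith [(h01 γ).2]
  · refine LipschitzWith.of_dist_le_mul fun γ γ' => ?_
    rw [Real.dist_eq, dist_eq_norm, ← sub_div, abs_div, abs_of_pos hD0, NNReal.coe_one, one_mul, div_le_iff₀ hD0]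
    refine (hL γ γ').trans ?_
    nlinarith [norm_nonneg (γ - γ')]

/-! ### 2. Windows of curves -/

lemma part_smul (s c : ℝ) (z : ℂ) (γ : CI) : part s c (z • γ) = z • part s c γ := by
  ext t
  show z • γ _ - z • γ _ = z • (γ _ - γ _)
  rw [smul_sub]

lemma part_sub_norm (s c : ℝ) (γ γ' : CI) : ‖part s c γ - part s c γ'‖ ≤ 2 * ‖γ - γ'‖ := by
  refine (ContinuousMap.norm_le _ (by positivity)).2 fun t => ?_
  have e : (part s c γ - part s c γ') t =
      (γ - γ') (projIcc 0 1 zero_le_one (s + c * t)) - (γ - γ') (projIcc 0 1 zero_le_one s) := by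
    show γ _ - γ _ - (γ' _ - γ' _) = (γ _ - γ' _) - (γ _ - γ' _)
    ring
  rw [e]
  refine (norm_sub_le _ _).trans ?_
  have h1 := (γ - γ').norm_coe_le_norm (projIcc 0 1 zero_le_one (s + c * t))
  have h2 := (γ - γ').norm_coe_le_norm (projIcc 0 1 zero_le_one s)
  linarith

lemma av_smul (F : CI → ℝ) (z : ℂ) (γ : CI) : av (fun γ => F (z • γ)) γ = av F (z • γ) := by
  unfold av
  congr 1
  exact Finset.sum_congr rfl fun a _ => by rw [smul_comm]

lemma saw_of_pol {n : ℕ} {s : Fin n → Fin 3} (hs : s ∈ pol n) : s ∈ saw n := (Finset.mem_filter.1 hs).1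

/-- the functional of the window of the curve -/
noncomputable def wF (F : CI → ℝ) (r x c : ℝ) (γ : CI) : ℝ := av F ((r : ℂ) • part x c γ)

lemma wF_bd {F : CI → ℝ} (h01 : ∀ γ, 0 ≤ F γ ∧ F γ ≤ 1) (r x c : ℝ) (γ : CI) : 0 ≤ wF F r x c γ ∧ wF F r x c γ ≤ 1 :=
  av_bd h01 _

lemma wF_lip {F : CI → ℝ} {K : ℝ} (hK : 0 ≤ K) (hL : ∀ γ γ', |F γ - F γ'| ≤ K * ‖γ - γ'‖) {r B : ℝ} (hr : 0 ≤ r)
    (hB : r ≤ B) (x c : ℝ) (γ γ' : CI) : |wF F r x c γ - wF F r x c γ'| ≤ K * (B * 2) * ‖γ - γ'‖ := by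
  unfold wF
  refine (av_lip hK hL _ _).trans ?_
  have e : (r : ℂ) • part x c γ - (r : ℂ) • part x c γ' = (r : ℂ) • (part x c γ - part x c γ') := (smul_sub _ _ _).symm
  rw [e, norm_smul, Complex.norm_real, Real.norm_eq_abs, abs_of_nonneg hr, mul_assoc]
  refine mul_le_mul_of_nonneg_left ?_ hK
  have h1 := part_sub_norm x c γ γ'
  calc r * ‖part x c γ - part x c γ'‖ ≤ B * (2 * ‖γ - γ'‖) := mul_le_mul hB h1 (norm_nonneg _) (hr.trans hB)
    _ = _ := by ring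

lemma wF_rot (F : CI → ℝ) (r x c : ℝ) (z : ℂ) (γ : CI) : wF (fun γ => F (z • γ)) r x c γ = wF F r x c (z • γ) := by
  unfold wF
  rw [av_smul, part_smul, smul_comm]

/-- the windows of the polygons as functionals of the curves -/
lemma hit_mean {n k y : ℕ} (hk : 0 < k) (hy : y + k ≤ n) {b : ℝ} (F : CI → ℝ) :
    (∑ s ∈ pol n, hitw s (Ph k b F) 0 y) / ((pol n).card : ℝ) =
      ∑ i ∈ Finset.range y, pmean n (wF F (size n / b) (i / n) (k / n)) := by
  unfold pmean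
  rw [← Finset.sum_div, Finset.sum_comm]
  congr 1
  refine Finset.sum_congr rfl fun s hs => ?_
  have hs' := saw_of_pol hs
  unfold hitw
  rw [← Finset.range_eq_Ico]
  refine Finset.sum_congr rfl fun i hi => ?_
  have hi' := Finset.mem_range.1 hi
  have hn1 : 1 ≤ n := by omega
  have hn0 : (0 : ℝ) < n := by exact_mod_cast hn1
  have hk0 : (0 : ℝ) < k := by exact_mod_cast hk
  have hs0 := NTSF.size_pos hn1
  rw [if_pos (by omega), Ph_win hs' hk (by omega)]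
  unfold wF
  have hik : ((i : ℝ) + k) ≤ n := by exact_mod_cast (show i + k ≤ n by omega)
  rw [part_curve hn1 s (by positivity) (by positivity) (by rw [← add_div, div_le_one hn0]; exact hik),
    div_mul_cancel₀ _ hn0.ne', div_mul_cancel₀ _ hn0.ne', smul_smul]
  congr 2
  push_cast
  have hs1 : ((size n : ℝ) : ℂ) ≠ 0 := by exact_mod_cast hs0.ne'
  field_simp

/-! ### 3. The `Q`-means -/

/-- **the `Q`-means of the functionals of the windows, rotated** -/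
theorem qm_unif (h : RotP) (hQ : QOk Q) {K : ℝ} (hK : 0 ≤ K) {ε : ℝ} (hε : 0 < ε) : ∃ k0 : ℕ, ∀ k : ℕ, k0 ≤ k →
    ∀ z : ℂ, ‖z‖ = 1 → ∀ F : CI → ℝ, (∀ γ, 0 ≤ F γ ∧ F γ ≤ 1) → (∀ γ γ', |F γ - F γ'| ≤ K * ‖γ - γ'‖) →
      |qm Q (Ph k ((k : ℝ) ^ (3 / 4 : ℝ)) fun γ => F (z • γ)) - qm Q (Ph k ((k : ℝ) ^ (3 / 4 : ℝ)) F)| ≤ ε := by
  obtain ⟨ε1, hε1⟩ : ∃ ε1 : ℝ, ε1 = ε / 5 := ⟨_, rfl⟩
  have he1 : 0 < ε1 := by rw [hε1]; positivity
  obtain ⟨η, hη, hη2, hden⟩ := pol_den hQ ε1 he1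
  obtain ⟨R, hR⟩ := hden (ε1 * η / 2) (by positivity)
  obtain ⟨A, hA⟩ : ∃ A : ℕ, A = R + 4 := ⟨_, rfl⟩
  obtain ⟨c, C, hc, hsz, -⟩ := NTSF.finE
  have hC : 0 < C := by
    have h1 := hsz 1 le_rfl
    rw [Nat.cast_one, Real.one_rpow, mul_one, mul_one] at h1
    linarith [h1.1, h1.2]
  obtain ⟨B, hB⟩ : ∃ B : ℝ, B = C * (5 * (A : ℝ)) ^ (3 / 4 : ℝ) := ⟨_, rfl⟩
  have hA0 : (0 : ℝ) < A := by
    have : 0 < A := by omega
    exact_mod_cast this
  have hB0 : 0 < B := by rw [hB]; positivity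
  obtain ⟨n0, hn0⟩ := pol_unif_L h (K * (B * 2)) he1
  obtain ⟨k1, hk1⟩ := exists_nat_ge (2 / η)
  refine ⟨n0 + k1 + R + 1, fun k hk z hz F h01 hL => ?_⟩
  obtain ⟨n, hn⟩ : ∃ n : ℕ, n = 2 * (A * (k + 1)) + 1 := ⟨_, rfl⟩
  have hk0 : 0 < k := by omega
  have hkr : (0 : ℝ) < k := by exact_mod_cast hk0
  have hAk : (k + 1) ≤ A * (k + 1) := Nat.le_mul_of_pos_left _ (by omega)
  have hkn : k ≤ n := by omega
  have hodd : Odd n := ⟨A * (k + 1), hn⟩
  have hRk : R * (k + 1) ≤ n := by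
    have : R * (k + 1) ≤ A * (k + 1) := Nat.mul_le_mul_right _ (by omega)
    omega
  have h4k : 4 * (k + 1) ≤ A * (k + 1) := Nat.mul_le_mul_right _ (by omega)
  have hn1 : 1 ≤ n := by omega
  have hnr : (0 : ℝ) < n := by exact_mod_cast hn1
  have hn5 : (n : ℝ) ≤ 5 * A * k := by
    have h1 : n ≤ 5 * A * k := by
      have : 2 * (A * (k + 1)) + 1 ≤ 5 * A * k := by nlinarith
      omega
    exact_mod_cast h1
  have hηn : 2 ≤ η * n := by
    have h1 : (k1 : ℝ) ≤ n := by exact_mod_cast (show k1 ≤ n by omega)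
    have h2 := mul_le_mul_of_nonneg_left (hk1.trans h1) hη.le
    rwa [mul_div_cancel₀ _ hη.ne'] at h2
  -- the number of windows
  obtain ⟨y, hy⟩ : ∃ y : ℕ, y = ⌊η * n⌋₊ := ⟨_, rfl⟩
  have hy1 : (y : ℝ) ≤ η * n := by rw [hy]; exact Nat.floor_le (by positivity)
  have hy2 : η * n < y + 1 := by rw [hy]; exact Nat.lt_floor_add_one _
  have hy3 : η * n / 2 ≤ y := by linarith
  have hy0 : (0 : ℝ) < y := by linarith
  have hyk : y + k ≤ n := by
    have h1 : (y : ℝ) ≤ n / 2 := by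
      have := mul_le_mul_of_nonneg_right hη2 hnr.le
      linarith
    have h2 : (2 : ℝ) * k ≤ n := by exact_mod_cast (show 2 * k ≤ n by omega)
    have h3 : ((y + k : ℕ) : ℝ) ≤ n := by
      push_cast
      linarith
    exact_mod_cast h3
  -- the scale
  obtain ⟨b, hb⟩ : ∃ b : ℝ, b = (k : ℝ) ^ (3 / 4 : ℝ) := ⟨_, rfl⟩
  have hb0 : 0 < b := by rw [hb]; positivity
  have hs0 := NTSF.size_pos hn1
  have hr : size n / b ≤ B := by
    rw [div_le_iff₀ hb0, hB, hb, mul_assoc, ← Real.mul_rpow (by positivity) hkr.le]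
    refine (hsz n hn1).2.trans (mul_le_mul_of_nonneg_left ?_ hC.le)
    exact Real.rpow_le_rpow hnr.le hn5 (by norm_num)
  rw [← hb]
  have key : ∀ G : CI → ℝ, (∀ γ, 0 ≤ G γ ∧ G γ ≤ 1) →
      |(∑ s ∈ pol n, hitw s (Ph k b G) 0 y) / ((pol n).card : ℝ) - qm Q (Ph k b G) * y| ≤ 2 * ε1 * y := by
    intro G hG
    refine ((hR n (by omega) hodd).2 k (Ph k b G) (Ph_bd hG k b) hRk y hy1).trans ?_
    have : ε1 * η / 2 * n = ε1 * (η * n / 2) := by ring
    have h2 := mul_le_mul_of_nonneg_left hy3 he1.le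
    linarith
  have h1 := key F h01
  have h2 := key (fun γ => F (z • γ)) fun γ => h01 _
  have h3 : |(∑ s ∈ pol n, hitw s (Ph k b fun γ => F (z • γ)) 0 y) / ((pol n).card : ℝ) -
      (∑ s ∈ pol n, hitw s (Ph k b F) 0 y) / ((pol n).card : ℝ)| ≤ ε1 * y := by
    rw [hit_mean hk0 hyk, hit_mean hk0 hyk, ← Finset.sum_sub_distrib]
    refine (Finset.abs_sum_le_sum_abs _ _).trans ?_
    refine (Finset.sum_le_card_nsmul _ _ ε1 fun i _ => ?_).trans (by
      rw [Finset.card_range, nsmul_eq_mul, mul_comm])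
    have h4 := hn0 n (by omega) hodd z hz (wF F (size n / b) (i / n) (k / n)) (wF_bd h01 _ _ _)
      (wF_lip hK hL (by positivity) hr _ _)
    have e : wF (fun γ => F (z • γ)) (size n / b) (i / n) (k / n) = fun γ => wF F (size n / b) (i / n) (k / n) (z • γ) :=
      funext fun γ => wF_rot F _ _ _ z γ
    rw [e]
    exact h4
  have h5 : |qm Q (Ph k b fun γ => F (z • γ)) * y - qm Q (Ph k b F) * y| ≤ 5 * ε1 * y := by
    rw [abs_le] at h1 h2 h3 ⊢
    constructor <;> linarith [h1.1, h1.2, h2.1, h2.2, h3.1, h3.2]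
  rw [← sub_mul, abs_mul, abs_of_pos hy0] at h5
  have h6 := le_of_mul_le_mul_right h5 hy0
  rw [hε1] at h6
  linarith

/-! ### 4. The two-sided infinite walk -/

/-- the law of `Y_k` as a `Q`-mean -/
lemma ylaw_qm (hQ : IsProbabilityMeasure Q) {k : ℕ} (hk : 0 < k) {F : CI → ℝ} (hF : Continuous F)
    (h01 : ∀ γ, 0 ≤ F γ ∧ F γ ≤ 1) : ∫ γ, F γ ∂(ylaw Q k) = qm Q (Ph k ((k : ℝ) ^ (3 / 4 : ℝ)) F) := by
  classical
  have hkr : (0 : ℝ) < k := by exact_mod_cast hk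
  have hkp : (0 : ℝ) < (k : ℝ) ^ (3 / 4 : ℝ) := Real.rpow_pos_of_pos hkr _
  have hb : ∀ γ, ‖F γ‖ ≤ 1 := fun γ => by
    rw [Real.norm_eq_abs, abs_of_nonneg (h01 γ).1]
    exact (h01 γ).2
  rw [ylaw_int hQ k hF hb]
  have h1 : ∀ ω : ℤ → Bool, 6⁻¹ * ∑ a : Fin 6, F (ycurve k (ex ((a : ℕ) : ℤ)) ω) =
      Ph k ((k : ℝ) ^ (3 / 4 : ℝ)) F (fun j : Fin k => ω ((j : ℕ) : ℤ)) := by
    intro ω
    unfold Ph av
    congr 1
    refine Finset.sum_congr rfl fun a _ => ?_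
    rw [ycurve_smul k (ex ((a : ℕ) : ℤ)) ω]
    have h2 : ycurve k 1 ω = ycurve k 1 (xt k fun j : Fin k => ω ((j : ℕ) : ℤ)) := by
      refine ycurve_congr k 1 fun l hl => ?_
      rw [xt_apply _ hl]
    rw [h2, div_self hkp.ne', Complex.ofReal_one, one_smul]
  rw [← integral_const_mul]
  simp only [h1]
  -- the integral of a function of k turns
  have h2 : ∀ ω : ℤ → Bool, Ph k ((k : ℝ) ^ (3 / 4 : ℝ)) F (fun j : Fin k => ω ((j : ℕ) : ℤ)) =
      ∑ τ : Fin k → Bool, (cyl 0 ({τ} : Set (Fin k → Bool))).indicator (fun _ => Ph k ((k : ℝ) ^ (3 / 4 : ℝ)) F τ) ω := by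
    intro ω
    rw [Finset.sum_eq_single (fun j : Fin k => ω ((j : ℕ) : ℤ))]
    · rw [Set.indicator_of_mem]
      rw [mem_cyl]
      simp only [zero_add]
      exact Set.mem_singleton _
    · intro τ _ hτ
      rw [Set.indicator_of_notMem]
      rw [mem_cyl]
      simp only [zero_add]
      intro h3
      exact hτ (Set.mem_singleton_iff.1 h3).symm
    · intro h3
      exact absurd (Finset.mem_univ _) h3
  simp only [h2]
  rw [integral_finsetSum]
  · unfold qm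
    refine Finset.sum_congr rfl fun τ _ => ?_
    rw [integral_indicator (measurableSet_cyl _ _), setIntegral_const, smul_eq_mul, mul_comm]
  · intro τ _
    exact (integrable_const _).indicator (measurableSet_cyl _ _)

/-- **the two-sided infinite walk: the laws of `Y_k` are asymptotically rotation invariant**, uniformly over the rotations and the
Lipschitz functions -/
theorem two_unif (h : RotP) (hQ : QOk Q) : ∀ ε : ℝ, 0 < ε → ∃ k0 : ℕ, ∀ k : ℕ, k0 ≤ k → ∀ z : ℂ, ‖z‖ = 1 →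
    ∀ F : C(unitInterval, ℂ) → ℝ, (∀ γ, |F γ| ≤ 1) → LipschitzWith 1 F →
      |∫ γ, F (z • γ) ∂(ylaw Q k) - ∫ γ, F γ ∂(ylaw Q k)| ≤ ε := by
  intro ε hε
  obtain ⟨k0, hk0⟩ := qm_unif h hQ (K := 1) zero_le_one (show 0 < ε / 2 by positivity)
  refine ⟨k0 + 1, fun k hk z hz F hF hL => ?_⟩
  have hQp : IsProbabilityMeasure Q := hQ.1.1
  have hyp := ylaw_prob hQp k
  obtain ⟨G, hG⟩ : ∃ G : CI → ℝ, G = fun γ => (F γ + 1) / 2 := ⟨_, rfl⟩
  have hG01 : ∀ γ, 0 ≤ G γ ∧ G γ ≤ 1 := fun γ => by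
    have h1 := abs_le.1 (hF γ)
    rw [hG]
    constructor
    · show 0 ≤ (F γ + 1) / 2
      linarith [h1.1]
    · show (F γ + 1) / 2 ≤ 1
      linarith [h1.2]
  have hGL : ∀ γ γ', |G γ - G γ'| ≤ 1 * ‖γ - γ'‖ := fun γ γ' => by
    have h1 := hL.dist_le_mul γ γ'
    rw [Real.dist_eq, dist_eq_norm, NNReal.coe_one, one_mul] at h1
    rw [hG]
    have e : (F γ + 1) / 2 - (F γ' + 1) / 2 = (F γ - F γ') / 2 := by ring
    simp only [e]
    rw [abs_div, abs_of_pos (by norm_num : (0 : ℝ) < 2)]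
    have := norm_nonneg (γ - γ')
    linarith
  have hGc : Continuous G := by
    rw [hG]
    have := hL.continuous
    fun_prop
  have hGz : Continuous fun γ : CI => G (z • γ) := hGc.comp (smul_cont z)
  have h1 := hk0 k (by omega) z hz G hG01 hGL
  rw [← ylaw_qm hQp (by omega) hGc hG01, ← ylaw_qm hQp (by omega) (F := fun γ => G (z • γ)) hGz fun γ => hG01 _] at h1
  have hint : ∀ H : CI → ℝ, Continuous H → (∀ γ, |H γ| ≤ 1) → ∫ γ, (H γ + 1) / 2 ∂(ylaw Q k) = (∫ γ, H γ ∂(ylaw Q k)) / 2 + 1 / 2 := by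
    intro H hHc hH1
    have hi : Integrable H (ylaw Q k) := Integrable.of_bound hHc.aestronglyMeasurable 1 (Eventually.of_forall fun γ => hH1 γ)
    rw [integral_div, integral_add hi (integrable_const _), integral_const, probReal_univ, one_smul]
    ring
  rw [hG] at h1
  simp only at h1
  rw [hint F hL.continuous hF, hint (fun γ => F (z • γ)) (hL.continuous.comp (smul_cont z)) fun γ => hF _] at h1
  have e : (∫ γ, F (z • γ) ∂(ylaw Q k)) / 2 + 1 / 2 - ((∫ γ, F γ ∂(ylaw Q k)) / 2 + 1 / 2) =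
      (∫ γ, F (z • γ) ∂(ylaw Q k) - ∫ γ, F γ ∂(ylaw Q k)) / 2 := by ring
  rw [e, abs_div, abs_of_pos (by norm_num : (0 : ℝ) < 2)] at h1
  linarith

/-- laws that are asymptotically rotation invariant have rotation invariant limits -/
lemma lim_rot {P : ℕ → Measure CI} {φ : ℕ → ℕ} {ν : Measure CI} (hφ : Tendsto φ atTop atTop) (hν : IsProbabilityMeasure ν)
    (hP : ToLaw P φ ν)
    (h : ∀ ε : ℝ, 0 < ε → ∃ k0 : ℕ, ∀ k : ℕ, k0 ≤ k → ∀ z : ℂ, ‖z‖ = 1 → ∀ F : C(unitInterval, ℂ) → ℝ, (∀ γ, |F γ| ≤ 1) →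
      LipschitzWith 1 F → |∫ γ, F (z • γ) ∂(P k) - ∫ γ, F γ ∂(P k)| ≤ ε) {z : ℂ} (hz : ‖z‖ = 1) :
    ν.map (fun γ => z • γ) = ν := by
  have hm := (smul_cont z).measurable
  refine ext_lip (Measure.isProbabilityMeasure_map hm.aemeasurable) hν fun F L B hF hB => ?_
  rw [integral_map hm.aemeasurable hF.continuous.aestronglyMeasurable]
  -- normalisation
  obtain ⟨D, hD⟩ : ∃ D : ℝ, D = (L : ℝ) + |B| + 1 := ⟨_, rfl⟩
  have hL0 : (0 : ℝ) ≤ L := L.2
  have hD0 : 0 < D := by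
    rw [hD]
    have := abs_nonneg B
    linarith
  have hF1 : ∀ γ, |F γ / D| ≤ 1 := fun γ => by
    rw [abs_div, abs_of_pos hD0, div_le_one hD0]
    have h1 := hB γ
    rw [Real.norm_eq_abs] at h1
    have := le_abs_self B
    linarith
  have hF2 : LipschitzWith 1 fun γ => F γ / D := by
    refine LipschitzWith.of_dist_le_mul fun γ γ' => ?_
    have h1 := hF.dist_le_mul γ γ'
    rw [Real.dist_eq] at h1
    rw [Real.dist_eq, ← sub_div, abs_div, abs_of_pos hD0, NNReal.coe_one, one_mul, div_le_iff₀ hD0]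
    have h2 : (L : ℝ) ≤ D := by
      have := abs_nonneg B
      linarith
    have h3 := mul_le_mul_of_nonneg_right h2 (dist_nonneg (x := γ) (y := γ'))
    linarith
  have h1 := hP (bcf (fun γ => F (z • γ)) (hF.continuous.comp (smul_cont z)) B fun γ => hB _)
  have h2 := hP (bcf F hF.continuous B hB)
  have h4 : Tendsto (fun k => (∫ γ, F (z • γ) ∂(P (φ k))) - ∫ γ, F γ ∂(P (φ k))) atTop (𝓝 0) := by
    rw [Metric.tendsto_nhds]
    intro ε hε
    obtain ⟨k0, hk0⟩ := h (ε / (2 * D)) (by positivity)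
    filter_upwards [hφ.eventually_ge_atTop k0] with k hk
    have h5 := hk0 (φ k) hk z hz (fun γ => F γ / D) hF1 hF2
    rw [integral_div, integral_div, ← sub_div, abs_div, abs_of_pos hD0, div_le_iff₀ hD0] at h5
    rw [Real.dist_eq, sub_zero]
    have e : ε / (2 * D) * D = ε / 2 := by field_simp
    linarith
  have h5 := tendsto_nhds_unique (h1.sub h2) h4
  exact sub_eq_zero.1 h5

/-- **the weak limits of the two-sided infinite walk are rotation invariant** -/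
theorem two_rot (h : RotP) (hQ : QOk Q) {φ : ℕ → ℕ} {ν : Measure C(unitInterval, ℂ)} (hφ : Tendsto φ atTop atTop)
    (hν : IsProbabilityMeasure ν) (hP : ToLaw (ylaw Q) φ ν) {z : ℂ} (hz : ‖z‖ = 1) : ν.map (fun γ => z • γ) = ν :=
  lim_rot hφ hν hP (two_unif h hQ) hz

/-! ### 5. The averaged laws -/

/-- **the laws of `Y_k` with the weights `1 / k`** -/
theorem alaw_unif (h : RotP) (hQ : QOk Q) : ∀ ε : ℝ, 0 < ε → ∃ N0 : ℕ, ∀ N : ℕ, N0 ≤ N → ∀ z : ℂ, ‖z‖ = 1 →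
    ∀ F : C(unitInterval, ℂ) → ℝ, (∀ γ, |F γ| ≤ 1) → LipschitzWith 1 F →
      |∫ γ, F (z • γ) ∂(alaw Q N) - ∫ γ, F γ ∂(alaw Q N)| ≤ ε := by
  intro ε hε
  have hQp : IsProbabilityMeasure Q := hQ.1.1
  obtain ⟨k0, hk0⟩ := two_unif h hQ (ε / 2) (by positivity)
  obtain ⟨N0, hN0⟩ := (tendsto_atTop.1 hm_tendsto (4 * k0 / ε)).exists_forall_of_atTop
  refine ⟨N0 + 1, fun N hN z hz F hF hL => ?_⟩
  have hH := hN0 N (by omega)
  have hH0 := hm_pos (N := N) (by omega)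
  have hB : ∀ γ, ‖F γ‖ ≤ 1 := fun γ => hF γ
  rw [alaw_int hQp N (F := fun γ => F (z • γ)) (hL.continuous.comp (smul_cont z)) (B := 1) (fun γ => hF _),
    alaw_int hQp N hL.continuous hB, ← mul_sub, ← Finset.sum_sub_distrib, abs_mul, abs_inv, abs_of_pos hH0, inv_mul_le_iff₀ hH0]
  have hbd : ∀ G : CI → ℝ, (∀ γ, |G γ| ≤ 1) → ∀ k : ℕ, |∫ γ, G γ ∂(ylaw Q k)| ≤ 1 := fun G hG k => by
    have := ylaw_prob hQp k
    have h1 := norm_integral_le_of_norm_le_const (μ := ylaw Q k) (f := G) (C := 1) (Eventually.of_forall fun γ => hG γ)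
    rwa [probReal_univ, mul_one, Real.norm_eq_abs] at h1
  have h1 : ∀ k ∈ Finset.Icc 1 N, |(k : ℝ)⁻¹ * (∫ γ, F (z • γ) ∂(ylaw Q k)) - (k : ℝ)⁻¹ * ∫ γ, F γ ∂(ylaw Q k)| ≤
      (k : ℝ)⁻¹ * (ε / 2) + if k < k0 then 2 else 0 := by
    intro k hk
    have hk1 : 1 ≤ k := (Finset.mem_Icc.1 hk).1
    have hkr : (1 : ℝ) ≤ k := by exact_mod_cast hk1
    have hk2 : (0 : ℝ) ≤ (k : ℝ)⁻¹ := by positivity
    rw [← mul_sub, abs_mul, abs_of_nonneg hk2]
    split_ifs with h2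
    · have h3 : |(∫ γ, F (z • γ) ∂(ylaw Q k)) - ∫ γ, F γ ∂(ylaw Q k)| ≤ 2 := by
        refine (abs_sub _ _).trans ?_
        have := hbd F hF k
        have := hbd (fun γ => F (z • γ)) (fun γ => hF _) k
        linarith
      have h4 : (k : ℝ)⁻¹ ≤ 1 := inv_le_one_of_one_le₀ hkr
      have h5 := mul_le_mul h4 h3 (abs_nonneg _) zero_le_one
      have h6 : 0 ≤ (k : ℝ)⁻¹ * (ε / 2) := by positivity
      linarith
    · rw [add_zero]
      exact mul_le_mul_of_nonneg_left (hk0 k (not_lt.1 h2) z hz F hF hL) hk2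
  refine (Finset.abs_sum_le_sum_abs _ _).trans ((Finset.sum_le_sum h1).trans ?_)
  rw [Finset.sum_add_distrib, ← Finset.sum_mul, ← Finset.sum_filter, Finset.sum_const, nsmul_eq_mul]
  have h2 : (((Finset.Icc 1 N).filter fun k => k < k0).card : ℝ) ≤ k0 := by
    have : ((Finset.Icc 1 N).filter fun k => k < k0) ⊆ Finset.range k0 := fun k hk => by
      rw [Finset.mem_filter] at hk
      exact Finset.mem_range.2 hk.2
    have := Finset.card_le_card this
    rw [Finset.card_range] at this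
    exact_mod_cast this
  have h3 : (∑ k ∈ Finset.Icc 1 N, (k : ℝ)⁻¹) = hm N := rfl
  rw [h3]
  rw [div_le_iff₀ hε] at hH
  linarith

/-- **the weak limits of `Y_k` with the weights `1 / k` are rotation invariant** -/
theorem alaw_rot (h : RotP) (hQ : QOk Q) {φ : ℕ → ℕ} {ν : Measure C(unitInterval, ℂ)} (hφ : Tendsto φ atTop atTop)
    (hν : IsProbabilityMeasure ν) (hP : ToLaw (alaw Q) φ ν) {z : ℂ} (hz : ‖z‖ = 1) : ν.map (fun γ => z • γ) = ν :=
  lim_rot hφ hν hP (alaw_unif h hQ) hz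

end Pool.Agent.ROT
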