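import Mathlib

/-!
# ROT: continuity of the speed in the parameter of the passing column (helper62)

`x N b` : mean speed at the size `N` for the parameter `b`; `v i N a b` : mean square distance from `a` of the
difference quotient over `2 ^ i` passes at the size `N`.  Concentration at ONE scale freezes the mean speed at
all larger sizes, locally uniformly in `b`: **`Frz.tendsto`**, **`Frz.cont`**.
-/

set_option autoImplicit false

open Filter Topology Set

namespace Pool.Agent.ROT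

/-- **what is used of the means**: `K` parameters, `a b` the speed -/
structure Frz (K : Set ℝ) (x : ℕ → ℝ → ℝ) (v : ℕ → ℕ → ℝ → ℝ → ℝ) (a : ℝ → ℝ) : Prop where
  /-- the mean speed is the mean of the difference quotient, up to the cutoff of the size -/
  mean : ∀ (i : ℕ) (η : ℝ), 0 < η → ∀ A : ℝ, ∀ᶠ N in atTop, ∀ b ∈ K, ∀ c : ℝ, |c| ≤ A →
    (x N b - c) ^ 2 ≤ v i N c b + η
  /-- the speeds are bounded -/
  bd : ∃ A : ℝ, ∀ b ∈ K, |a b| ≤ A
  /-- domination: a scale `i` at the size `N` controls the same scale at all larger sizes; concentration at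
  such a pair; finite volume continuity -/
  dom : ∀ η : ℝ, 0 < η → ∃ C : ℝ, 0 ≤ C ∧ ∀ b ∈ K, ∀ ε : ℝ, 0 < ε → ∃ i N : ℕ,
    v i N (a b) b ≤ ε ∧ ContinuousWithinAt (v i N (a b)) K b ∧
      ∀ N' : ℕ, N ≤ N' → ∀ b' ∈ K, v i N' (a b) b' ≤ C * v i N (a b) b' + η

variable {K : Set ℝ} {x : ℕ → ℝ → ℝ} {v : ℕ → ℕ → ℝ → ℝ → ℝ} {a : ℝ → ℝ}

/-- near `b` the mean speeds at all large sizes are near `a b` -/
theorem Frz.near (h : Frz K x v a) {b : ℝ} (hb : b ∈ K) {η : ℝ} (hη : 0 < η) :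
    ∀ᶠ b' in 𝓝[K] b, ∀ᶠ N in atTop, (x N b' - a b) ^ 2 ≤ η := by
  obtain ⟨A, hA⟩ := h.bd
  obtain ⟨C, hC, H⟩ := h.dom (η / 4) (by linarith)
  obtain ⟨i, N, h1, h2, h3⟩ := H b hb (η / (8 * (C + 1))) (by positivity)
  have h4 : ∀ᶠ b' in 𝓝[K] b, v i N (a b) b' < η / (4 * (C + 1)) := by
    refine (tendsto_order.1 h2).2 _ (lt_of_le_of_lt h1 ?_)
    rw [div_lt_div_iff₀ (by positivity) (by positivity)]
    nlinarith
  filter_upwards [h4, self_mem_nhdsWithin] with b' hb' hK
  filter_upwards [h.mean i (η / 4) (by linarith) A, eventually_ge_atTop N] with N' hN' hle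
  have e1 := hN' b' hK (a b) (hA b hb)
  have e2 := h3 N' hle b' hK
  have e3 : C * v i N (a b) b' ≤ C * (η / (4 * (C + 1))) := mul_le_mul_of_nonneg_left hb'.le hC
  have e4 : C * (η / (4 * (C + 1))) ≤ η / 4 := by
    rw [mul_div_assoc', div_le_div_iff₀ (by positivity) (by norm_num)]
    nlinarith
  linarith

/-- the mean speeds converge -/
theorem Frz.tendsto (h : Frz K x v a) {b : ℝ} (hb : b ∈ K) : Tendsto (fun N => x N b) atTop (𝓝 (a b)) := by
  rw [Metric.tendsto_atTop']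
  intro ε hε
  have h1 := (h.near hb (η := ε ^ 2 / 4) (by positivity)).self_of_nhdsWithin hb
  obtain ⟨N, hN⟩ := eventually_atTop.1 h1
  refine ⟨N, fun n hn => ?_⟩
  have h2 := hN n hn.le
  rw [Real.dist_eq]
  have h3 : |x n b - a b| ^ 2 ≤ (ε / 2) ^ 2 := by
    rw [sq_abs]
    linarith [h2, (by ring : (ε / 2) ^ 2 = ε ^ 2 / 4)]
  have h4 := abs_le_of_sq_le_sq h3 (by linarith)
  rw [abs_abs] at h4
  linarith

/-- **the speed is continuous in the parameter** -/
theorem Frz.cont (h : Frz K x v a) : ContinuousOn a K := by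
  intro b hb
  rw [ContinuousWithinAt, Metric.tendsto_nhds]
  intro ε hε
  filter_upwards [h.near hb (η := ε ^ 2 / 4) (by positivity), self_mem_nhdsWithin] with b' h1 hK
  have h2 : Tendsto (fun N => (x N b' - a b) ^ 2) atTop (𝓝 ((a b' - a b) ^ 2)) :=
    ((h.tendsto hK).sub_const _).pow 2
  have h3 := le_of_tendsto h2 h1
  rw [Real.dist_eq]
  have h5 : |a b' - a b| ^ 2 ≤ (ε / 2) ^ 2 := by
    rw [sq_abs]
    linarith [h3, (by ring : (ε / 2) ^ 2 = ε ^ 2 / 4)]
  have h4 := abs_le_of_sq_le_sq h5 (by linarith)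
  rw [abs_abs] at h4
  linarith

end Pool.Agent.ROT
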