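import Mathlib

/-!
# ROT: the group step of the rotation invariance (helper58)

`g : ℂ ≃L[ℝ] ℂ` is written `g z = P g * z + Q g * conj z`.  A bounded subgroup which contains the
rotation of order six consists of orthogonal maps; if it contains maps swapping `I` and `d β`,
`d` continuous and not constant, it contains all rotations.
-/

open Complex Set
open scoped ComplexConjugate

namespace Pool.Agent.ROT

/-- real linear automorphisms of the plane -/
abbrev LG := ℂ ≃L[ℝ] ℂ

noncomputable section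

/-- complex linear part -/
def P (g : LG) : ℂ := (g 1 - I * g I) / 2

/-- complex antilinear part -/
def Q (g : LG) : ℂ := (g 1 + I * g I) / 2

/-- half of the sum of the squares of the entries -/
def nn (g : LG) : ℝ := normSq (P g) + normSq (Q g)

/-- determinant -/
def dt (g : LG) : ℝ := normSq (P g) - normSq (Q g)

/-- multiplication by a non zero complex number -/
def rot (u : ℂ) (hu : u ≠ 0) : LG :=
  ContinuousLinearEquiv.equivOfInverse
    ((ContinuousLinearMap.mul ℝ ℂ) u) ((ContinuousLinearMap.mul ℝ ℂ) u⁻¹)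
    (fun z => by simp [hu]) (fun z => by simp [hu])

@[simp] theorem rot_apply (u : ℂ) (hu : u ≠ 0) (z : ℂ) : rot u hu z = u * z := rfl

theorem apply_eq (g : LG) (z : ℂ) : g z = P g * z + Q g * conj z := by
  have h1 : g z = z.re * g 1 + z.im * g I := by
    conv_lhs => rw [show z = z.re • (1 : ℂ) + z.im • I by
      apply Complex.ext <;> simp]
    rw [map_add, map_smul, map_smul]
    simp
  rw [h1]
  have hz : z = z.re + z.im * I := (re_add_im z).symm
  have hc : conj z = z.re - z.im * I := by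
    apply Complex.ext <;> simp
  rw [hc]
  conv_rhs => rw [hz]
  simp only [P, Q, add_re, ofReal_re, mul_re, I_re, mul_zero, ofReal_im, I_im, mul_one, sub_self,
    add_zero, add_im, mul_im, zero_add]
  have hI : I * I = -1 := I_mul_I
  linear_combination ((z.im : ℂ) * g I) * hI

theorem P_mul (g h : LG) : P (g * h) = P g * P h + Q g * conj (Q h) := by
  have e1 : (g * h) 1 = g (h 1) := rfl
  have e2 : (g * h) I = g (h I) := rfl
  rw [P, e1, e2, apply_eq g, apply_eq g, apply_eq h 1, apply_eq h I]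
  simp only [map_add, map_mul, map_neg, map_one, conj_I, mul_one]
  have hI : I * I = -1 := I_mul_I
  linear_combination (-(P g * P h) / 2 + P g * Q h / 2 - Q g * conj (Q h) / 2 +
    Q g * conj (P h) / 2) * hI

theorem Q_mul (g h : LG) : Q (g * h) = P g * Q h + Q g * conj (P h) := by
  have e1 : (g * h) 1 = g (h 1) := rfl
  have e2 : (g * h) I = g (h I) := rfl
  rw [Q, e1, e2, apply_eq g, apply_eq g, apply_eq h 1, apply_eq h I]
  simp only [map_add, map_mul, map_neg, map_one, conj_I, mul_one]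
  have hI : I * I = -1 := I_mul_I
  linear_combination ((P g * P h) / 2 - P g * Q h / 2 + Q g * conj (Q h) / 2 -
    Q g * conj (P h) / 2) * hI

theorem P_rot (u : ℂ) (hu : u ≠ 0) : P (rot u hu) = u := by
  rw [P, rot_apply, rot_apply]
  have hI : I * I = -1 := I_mul_I
  linear_combination (-u / 2) * hI

theorem Q_rot (u : ℂ) (hu : u ≠ 0) : Q (rot u hu) = 0 := by
  rw [Q, rot_apply, rot_apply]
  have hI : I * I = -1 := I_mul_I
  linear_combination (u / 2) * hI

theorem P_one : P (1 : LG) = 1 := by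
  rw [P]
  have e1 : (1 : LG) 1 = 1 := rfl
  have e2 : (1 : LG) I = I := rfl
  rw [e1, e2]
  have hI : I * I = -1 := I_mul_I
  linear_combination (-1 / 2) * hI

theorem Q_one : Q (1 : LG) = 0 := by
  rw [Q]
  have e1 : (1 : LG) 1 = 1 := rfl
  have e2 : (1 : LG) I = I := rfl
  rw [e1, e2]
  have hI : I * I = -1 := I_mul_I
  linear_combination (1 / 2) * hI

theorem dt_mul (g h : LG) : dt (g * h) = dt g * dt h := by
  have key : ((dt (g * h) : ℝ) : ℂ) = ((dt g * dt h : ℝ) : ℂ) := by
    rw [dt, dt, dt, P_mul, Q_mul]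
    push_cast
    simp only [← mul_conj, map_add, map_mul, conj_conj]
    ring
  exact_mod_cast key

theorem dt_one : dt (1 : LG) = 1 := by
  rw [dt, P_one, Q_one]; simp

theorem abs_dt_le (g : LG) : |dt g| ≤ nn g := by
  rw [dt, nn, abs_le]
  constructor <;> linarith [normSq_nonneg (P g), normSq_nonneg (Q g)]

/-- the sixth root of unity -/
def om : ℂ := exp (Real.pi / 3 * I)

theorem om_ne : om ≠ 0 := exp_ne_zero _

theorem om_normSq : normSq om = 1 := by
  have h : ‖om‖ = 1 := by
    rw [om, show (Real.pi / 3 * I : ℂ) = ((Real.pi / 3 : ℝ) : ℂ) * I by push_cast; ring]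
    exact norm_exp_ofReal_mul_I _
  rw [normSq_eq_norm_sq, h]; norm_num

theorem om_cube : om ^ 3 = -1 := by
  rw [om, ← exp_nat_mul, show ((3 : ℕ) : ℂ) * (Real.pi / 3 * I) = Real.pi * I by push_cast; ring]
  exact exp_pi_mul_I

theorem om_re : om.re = 1 / 2 := by
  rw [om, show (Real.pi / 3 * I : ℂ) = ((Real.pi / 3 : ℝ) : ℂ) * I by push_cast; ring,
    exp_ofReal_mul_I_re, Real.cos_pi_div_three]

theorem om_im : om.im = Real.sqrt 3 / 2 := by
  rw [om, show (Real.pi / 3 * I : ℂ) = ((Real.pi / 3 : ℝ) : ℂ) * I by push_cast; ring,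
    exp_ofReal_mul_I_im, Real.sin_pi_div_three]

theorem om_sq : om ^ 2 - om + 1 = 0 := by
  have h3 : Real.sqrt 3 * Real.sqrt 3 = 3 := Real.mul_self_sqrt (by norm_num)
  apply Complex.ext
  · simp [pow_two, om_re, om_im]; nlinarith
  · simp [pow_two, om_re, om_im]; ring

/-- `1 + om ^ 2 + om ^ 4 = 0` -/
theorem om_sum : 1 + om ^ 2 + om ^ 4 = 0 := by
  have h1 := om_sq
  linear_combination (om ^ 2 + om + 1) * h1

/-- the three rotations by 0, 60, 120 degrees: mean of the squares of the images -/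
theorem sum_three (g : LG) (z : ℂ) :
    normSq (g z) + normSq (g (om * z)) + normSq (g (om ^ 2 * z)) = 3 * (nn g * normSq z) := by
  have ho : om * conj om = 1 := by
    rw [mul_conj, om_normSq]; simp
  have hs := om_sum
  have hs' : 1 + (conj om) ^ 2 + (conj om) ^ 4 = 0 := by
    have := congrArg conj hs
    simpa using this
  have key : ((normSq (g z) + normSq (g (om * z)) + normSq (g (om ^ 2 * z)) : ℝ) : ℂ) =
      ((3 * (nn g * normSq z) : ℝ) : ℂ) := by
    rw [apply_eq g z, apply_eq g (om * z), apply_eq g (om ^ 2 * z), nn]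
    push_cast
    simp only [← mul_conj, map_add, map_mul, conj_conj, map_pow]
    have ho2 : om ^ 2 * (conj om) ^ 2 = 1 := by
      linear_combination (om * conj om + 1) * ho
    linear_combination (P g * conj (Q g) * z ^ 2) * hs + (Q g * conj (P g) * (conj z) ^ 2) * hs' +
      ((P g * conj (P g) + Q g * conj (Q g)) * z * conj z) * ho +
      ((P g * conj (P g) + Q g * conj (Q g)) * z * conj z) * ho2
  exact_mod_cast key

/-- the same for the maps `g om^k h` -/
theorem nn_three (g h : LG) (r : ℕ → LG) (hP : ∀ k, P (r k) = om ^ k) (hQ : ∀ k, Q (r k) = 0) :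
    nn (g * (r 0 * h)) + nn (g * (r 1 * h)) + nn (g * (r 2 * h)) = 3 * (nn g * nn h) := by
  have ho : om * conj om = 1 := by
    rw [mul_conj, om_normSq]; simp
  have hs := om_sum
  have hs' : 1 + (conj om) ^ 2 + (conj om) ^ 4 = 0 := by
    have := congrArg conj hs
    simpa using this
  have ho2 : om ^ 2 * (conj om) ^ 2 = 1 := by
    linear_combination (om * conj om + 1) * ho
  have key : ((nn (g * (r 0 * h)) + nn (g * (r 1 * h)) + nn (g * (r 2 * h)) : ℝ) : ℂ) =
      ((3 * (nn g * nn h) : ℝ) : ℂ) := by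
    simp only [nn, P_mul, Q_mul, hP, hQ]
    push_cast
    simp only [← mul_conj, map_add, map_mul, conj_conj, map_pow, zero_mul, add_zero,
      pow_zero, pow_one, one_mul]
    linear_combination
      (P g * P h * conj (Q g) * Q h + P g * Q h * conj (Q g) * P h) * hs +
      (conj (P g) * conj (P h) * Q g * conj (Q h) + conj (P g) * conj (Q h) * Q g * conj (P h))
        * hs' +
      ((P g * conj (P g) + Q g * conj (Q g)) * (P h * conj (P h) + Q h * conj (Q h))) * ho +
      ((P g * conj (P g) + Q g * conj (Q g)) * (P h * conj (P h) + Q h * conj (Q h))) * ho2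
  exact_mod_cast key

/-! ## a bounded subgroup with the rotation of order six is orthogonal -/

/-- the rotation of order six -/
def R6 : LG := rot om om_ne

theorem P_pow (k : ℕ) : P (R6 ^ k) = om ^ k ∧ Q (R6 ^ k) = 0 := by
  induction k with
  | zero => simp [P_one, Q_one]
  | succ k ih =>
    rw [pow_succ, P_mul, Q_mul, ih.1, ih.2]
    simp [R6, P_rot, Q_rot, pow_succ]

theorem nn_nonneg (g : LG) : 0 ≤ nn g := add_nonneg (normSq_nonneg _) (normSq_nonneg _)

/-- `nn ≤ 1` on a bounded subgroup -/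
theorem nn_le_one (G : Subgroup LG) (hR : R6 ∈ G) (hB : ∃ C : ℝ, ∀ g ∈ G, nn g ≤ C)
    {g : LG} (hg : g ∈ G) : nn g ≤ 1 := by
  obtain ⟨C, hC⟩ := hB
  by_contra hcon
  push Not at hcon
  have step : ∀ n : ℕ, ∃ h ∈ G, 1 + n * (nn g - 1) ≤ nn h ∧ nn g ≤ nn h := by
    intro n
    induction n with
    | zero => exact ⟨g, hg, by simpa using hcon.le, le_rfl⟩
    | succ n ih =>
      obtain ⟨h, hh, h1, h2⟩ := ih
      have h3 := nn_three h h (fun k => R6 ^ k) (fun k => (P_pow k).1) (fun k => (P_pow k).2)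
      have : ∃ k : ℕ, nn h * nn h ≤ nn (h * (R6 ^ k * h)) := by
        by_contra hc
        push Not at hc
        have a0 := hc 0
        have a1 := hc 1
        have a2 := hc 2
        have h3' : nn (h * (R6 ^ 0 * h)) + nn (h * (R6 ^ 1 * h)) + nn (h * (R6 ^ 2 * h)) =
          3 * (nn h * nn h) := h3
        linarith
      obtain ⟨k, hk⟩ := this
      refine ⟨h * (R6 ^ k * h), G.mul_mem hh (G.mul_mem (G.pow_mem hR k) hh), ?_, ?_⟩
      · push_cast
        nlinarith
      · nlinarith
  obtain ⟨n, hn⟩ := exists_nat_gt ((C - 1) / (nn g - 1))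
  obtain ⟨h, hh, h1, -⟩ := step n
  have h2 := hC h hh
  have h3 : C - 1 < n * (nn g - 1) := by
    rwa [div_lt_iff₀ (by linarith)] at hn
  linarith

theorem dt_abs_one (G : Subgroup LG) (hR : R6 ∈ G) (hB : ∃ C : ℝ, ∀ g ∈ G, nn g ≤ C)
    {g : LG} (hg : g ∈ G) : |dt g| = 1 := by
  have h1 : |dt g| ≤ 1 := (abs_dt_le g).trans (nn_le_one G hR hB hg)
  have h2 : |dt g⁻¹| ≤ 1 := (abs_dt_le g⁻¹).trans (nn_le_one G hR hB (G.inv_mem hg))
  have h3 : dt g * dt g⁻¹ = 1 := by rw [← dt_mul, mul_inv_cancel, dt_one]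
  have h4 : |dt g| * |dt g⁻¹| = 1 := by rw [← abs_mul, h3, abs_one]
  have h5 : 0 ≤ |dt g| := abs_nonneg _
  nlinarith [abs_nonneg (dt g⁻¹)]

/-- **a bounded subgroup which contains the rotation of order six is orthogonal** -/
theorem orth_of_bdd (G : Subgroup LG) (hR : R6 ∈ G) (hB : ∃ C : ℝ, ∀ g ∈ G, nn g ≤ C)
    {g : LG} (hg : g ∈ G) :
    (normSq (P g) = 1 ∧ Q g = 0) ∨ (P g = 0 ∧ normSq (Q g) = 1) := by
  have h1 := nn_le_one G hR hB hg
  have h2 := dt_abs_one G hR hB hg
  rw [nn] at h1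
  rw [dt] at h2
  have hp := normSq_nonneg (P g)
  have hq := normSq_nonneg (Q g)
  rcases abs_eq (zero_le_one' ℝ) |>.1 h2 with h | h
  · left
    have : normSq (Q g) = 0 := by linarith
    exact ⟨by linarith, normSq_eq_zero.1 this⟩
  · right
    have : normSq (P g) = 0 := by linarith
    exact ⟨normSq_eq_zero.1 this, by linarith⟩

theorem ext_PQ {g h : LG} (hP : P g = P h) (hQ : Q g = Q h) : g = h := by
  ext z
  rw [apply_eq g, apply_eq h, hP, hQ]

/-- a map of the group which swaps `I` and `d` -/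
theorem swap_form (G : Subgroup LG) (hR : R6 ∈ G) (hB : ∃ C : ℝ, ∀ g ∈ G, nn g ≤ C)
    {g : LG} (hg : g ∈ G) {d : ℂ} (h1 : g I = d) (h2 : g d = I) (hre : d.re ≠ 0) :
    normSq d = 1 ∧ P g = 0 ∧ Q g = I * d := by
  rcases orth_of_bdd G hR hB hg with ⟨ha, hb⟩ | ⟨ha, hb⟩
  · exfalso
    rw [apply_eq, hb] at h1 h2
    simp only [zero_mul, add_zero] at h1 h2
    -- P I = d, P d = I so P^2 = 1
    have h3 : P g * P g = 1 := by
      have : P g * (P g * I) = I := by rw [h1, h2]
      have hI : I ≠ 0 := I_ne_zero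
      have h4 : (P g * P g) * I = 1 * I := by rw [mul_assoc, this, one_mul]
      exact mul_right_cancel₀ hI h4
    rcases mul_self_eq_one_iff.1 h3 with h | h
    · rw [h, one_mul] at h1; exact hre (by rw [← h1]; simp)
    · rw [h] at h1; exact hre (by rw [← h1]; simp)
  · rw [apply_eq, ha] at h1
    simp only [zero_mul, zero_add, conj_I] at h1
    have hQ : Q g = I * d := by
      have hI : I * I = -1 := I_mul_I
      rw [← h1]; linear_combination (Q g) * hI
    refine ⟨?_, ha, hQ⟩
    rw [hQ, normSq_mul, normSq_I, one_mul] at hb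
    exact hb

/-! ## angles -/

/-- the rotations in `G` -/
def ang (G : Subgroup LG) : AddSubgroup ℝ where
  carrier := {t | rot (exp (t * I)) (exp_ne_zero _) ∈ G}
  add_mem' {s t} hs ht := by
    have h := G.mul_mem hs ht
    have e : rot (exp ((s + t : ℝ) * I)) (exp_ne_zero _) =
        rot (exp (s * I)) (exp_ne_zero _) * rot (exp (t * I)) (exp_ne_zero _) := by
      apply ext_PQ
      · rw [P_mul, P_rot, P_rot, P_rot, Q_rot, zero_mul, add_zero, ← exp_add]
        congr 1; push_cast; ring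
      · rw [Q_mul, Q_rot, Q_rot, Q_rot]; simp
    change _ ∈ G
    rw [e]; exact h
  zero_mem' := by
    have e : rot (exp ((0 : ℝ) * I)) (exp_ne_zero _) = 1 := by
      apply ext_PQ
      · rw [P_rot, P_one]; simp
      · rw [Q_rot, Q_one]
    change _ ∈ G
    rw [e]; exact G.one_mem
  neg_mem' {t} ht := by
    have h := G.inv_mem ht
    have e : rot (exp ((-t : ℝ) * I)) (exp_ne_zero _) =
        (rot (exp (t * I)) (exp_ne_zero _))⁻¹ := by
      rw [eq_inv_iff_mul_eq_one]
      apply ext_PQ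
      · rw [P_mul, P_rot, P_rot, Q_rot, zero_mul, add_zero, ← exp_add, P_one]
        rw [← exp_zero]; congr 1; push_cast; ring
      · rw [Q_mul, Q_rot, Q_rot, Q_one]; simp
    change _ ∈ G
    rw [e]; exact h

theorem mem_ang {G : Subgroup LG} {t : ℝ} :
    t ∈ ang G ↔ rot (exp (t * I)) (exp_ne_zero _) ∈ G := Iff.rfl

/-- an additive subgroup of `ℝ` with an interval is everything -/
theorem top_of_Icc (S : AddSubgroup ℝ) {c : ℝ} (hc : 0 < c) (h : ∀ t ∈ Icc 0 c, t ∈ S) (t : ℝ) :
    t ∈ S := by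
  have pos : ∀ t : ℝ, 0 ≤ t → t ∈ S := by
    intro t ht
    obtain ⟨n, hn⟩ := exists_nat_gt (t / c)
    have hn0 : (0 : ℝ) < n := lt_of_le_of_lt (div_nonneg ht hc.le) hn
    have h1 : t / n ∈ Icc 0 c := by
      refine ⟨div_nonneg ht hn0.le, ?_⟩
      rw [div_le_iff₀ hn0]
      rw [div_lt_iff₀ hc] at hn
      linarith
    have h2 := S.nsmul_mem (h _ h1) n
    rw [nsmul_eq_mul, mul_div_cancel₀ _ hn0.ne'] at h2
    exact h2
  rcases le_total 0 t with ht | ht
  · exact pos t ht
  · have := S.neg_mem (pos (-t) (by linarith))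
    rwa [neg_neg] at this

/-- a continuous path of unit numbers in a subgroup which is not constant gives all angles -/
theorem all_of_path (S : AddSubgroup ℝ) (a b : ℝ) (hab : a ≤ b) (d : ℝ → ℂ)
    (hd : ContinuousOn d (Icc a b)) (h1 : ∀ x ∈ Icc a b, normSq (d x) = 1)
    (hS : ∀ x ∈ Icc a b, ∀ y ∈ Icc a b, ∀ t : ℝ, exp (t * I) = d x * conj (d y) → t ∈ S)
    (hne : d a ≠ d b) (t : ℝ) : t ∈ S := by
  -- uniform continuity
  have hn1 : ∀ x ∈ Icc a b, ‖d x‖ = 1 := by
    intro x hx
    have := h1 x hx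
    rw [normSq_eq_norm_sq] at this
    have h0 := norm_nonneg (d x)
    nlinarith [sq_nonneg (‖d x‖ - 1)]
  have huc := isCompact_Icc.uniformContinuousOn_of_continuous hd
  obtain ⟨δ, hδ, hδ'⟩ := Metric.uniformContinuousOn_iff.1 huc 1 one_pos
  have hab' : a < b := lt_of_le_of_ne hab (fun h => hne (by rw [h]))
  obtain ⟨n, hn⟩ := exists_nat_gt ((b - a) / δ)
  have hn0 : (0 : ℝ) < n := lt_of_le_of_lt (div_nonneg (by linarith) hδ.le) hn
  set p : ℕ → ℝ := fun i => a + i * ((b - a) / n) with hp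
  have hpI : ∀ i : ℕ, i ≤ n → p i ∈ Icc a b := by
    intro i hi
    have hi' : (i : ℝ) ≤ n := by exact_mod_cast hi
    have h0 : 0 ≤ (b - a) / n := div_nonneg (by linarith) hn0.le
    refine ⟨by simp only [hp]; nlinarith [Nat.cast_nonneg (α := ℝ) i], ?_⟩
    simp only [hp]
    have : (i : ℝ) * ((b - a) / n) ≤ n * ((b - a) / n) := mul_le_mul_of_nonneg_right hi' h0
    rw [mul_div_cancel₀ _ hn0.ne'] at this
    linarith
  have hp0 : p 0 = a := by simp [hp]
  have hpn : p n = b := by
    simp only [hp]; rw [mul_div_cancel₀ _ hn0.ne']; ring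
  obtain ⟨i, hi, hii⟩ : ∃ i : ℕ, i < n ∧ d (p i) ≠ d (p (i + 1)) := by
    by_contra hc
    push Not at hc
    have : ∀ i : ℕ, i ≤ n → d (p i) = d (p 0) := by
      intro i
      induction i with
      | zero => intro _; rfl
      | succ i ih => intro h; rw [← hc i (by omega), ih (by omega)]
    exact hne (by rw [← hp0, ← hpn]; exact (this n le_rfl).symm)
  have hx := hpI i hi.le
  have hy := hpI (i + 1) hi
  have hstep : p (i + 1) - p i = (b - a) / n := by simp only [hp]; push_cast; ring
  have hle : p i ≤ p (i + 1) := by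
    have : 0 ≤ (b - a) / n := div_nonneg (by linarith) hn0.le
    linarith
  have hdist : ∀ z ∈ Icc (p i) (p (i + 1)), z ∈ Icc a b ∧ ‖d z - d (p i)‖ < 1 := by
    intro z hz
    have hz' : z ∈ Icc a b := ⟨hx.1.trans hz.1, hz.2.trans hy.2⟩
    refine ⟨hz', ?_⟩
    have h3 : dist z (p i) < δ := by
      rw [Real.dist_eq, abs_of_nonneg (by linarith [hz.1])]
      have : (b - a) / n < δ := by
        rw [div_lt_iff₀ hn0]
        rw [div_lt_iff₀ hδ] at hn
        linarith
      linarith [hz.2]
    have h4 := hδ' z hz' (p i) hx h3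
    rwa [dist_eq_norm] at h4
  set v : ℝ → ℂ := fun z => d z * conj (d (p i)) with hv
  have hvc : ContinuousOn v (Icc (p i) (p (i + 1))) :=
    (hd.mono (fun z hz => (hdist z hz).1)).mul continuousOn_const
  have hdd : d (p i) * conj (d (p i)) = 1 := by
    rw [mul_conj, h1 _ hx]; simp
  have hv1 : ∀ z ∈ Icc (p i) (p (i + 1)), ‖v z‖ = 1 ∧ ‖v z - 1‖ < 1 := by
    intro z hz
    have h3 := hdist z hz
    refine ⟨?_, ?_⟩
    · simp only [hv]; rw [norm_mul, Complex.norm_conj, hn1 z h3.1, hn1 _ hx, one_mul]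
    · have : v z - 1 = (d z - d (p i)) * conj (d (p i)) := by
        simp only [hv]; rw [sub_mul, hdd]
      rw [this, norm_mul, Complex.norm_conj, hn1 _ hx, mul_one]
      exact h3.2
  have hslit : ∀ z ∈ Icc (p i) (p (i + 1)), v z ∈ slitPlane := by
    intro z hz
    left
    have h3 := (hv1 z hz).2
    have h4 : |(v z - 1).re| < 1 := lt_of_le_of_lt (abs_re_le_norm _) h3
    rw [abs_lt] at h4
    simp only [sub_re, one_re] at h4
    linarith [h4.1]
  have hac : ContinuousOn (fun z => arg (v z)) (Icc (p i) (p (i + 1))) := by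
    intro z hz
    exact (continuousAt_arg (hslit z hz)).comp_continuousWithinAt (hvc z hz)
  have hexp : ∀ z ∈ Icc (p i) (p (i + 1)), exp (arg (v z) * I) = d z * conj (d (p i)) := by
    intro z hz
    have h3 := norm_mul_exp_arg_mul_I (v z)
    rw [(hv1 z hz).1] at h3
    simpa [hv] using h3
  have ha0 : arg (v (p i)) = 0 := by
    simp only [hv]; rw [hdd]; simp
  have ha1 : arg (v (p (i + 1))) ≠ 0 := by
    intro h0
    have h3 := hexp _ (right_mem_Icc.2 hle)
    rw [h0] at h3
    simp only [ofReal_zero, zero_mul, exp_zero] at h3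
    apply hii
    have h4 : d (p (i + 1)) * (conj (d (p i)) * d (p i)) = d (p i) := by
      rw [← mul_assoc, ← h3, one_mul]
    rw [mul_comm (conj _), hdd, mul_one] at h4
    exact h4.symm
  have himg := intermediate_value_uIcc (f := fun z => arg (v z)) (a := p i) (b := p (i + 1))
    (by rw [uIcc_of_le hle]; exact hac)
  rw [uIcc_of_le hle] at himg
  have hmem : ∀ t ∈ uIcc (0 : ℝ) (arg (v (p (i + 1)))), t ∈ S := by
    intro t ht
    have ht' : t ∈ uIcc (arg (v (p i))) (arg (v (p (i + 1)))) := by rw [ha0]; exact ht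
    obtain ⟨z, hz, hzt⟩ := himg ht'
    have hzt' : arg (v z) = t := hzt
    exact hS z (hdist z hz).1 _ hx t (by rw [← hzt']; exact hexp z hz)
  rcases lt_or_gt_of_ne ha1 with hneg | hpos
  · refine top_of_Icc S (c := -arg (v (p (i + 1)))) (by linarith) (fun s hs => ?_) t
    have h5 := hmem (-s) (by rw [uIcc_of_ge hneg.le]; exact ⟨by linarith [hs.2], by linarith [hs.1]⟩)
    have := S.neg_mem h5
    rwa [neg_neg] at this
  · exact top_of_Icc S hpos (fun s hs => hmem s (by rw [uIcc_of_le hpos.le]; exact hs)) t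

/-- **group step.**  `G` bounded, with the rotation of order six and, for `β ∈ [a, b]`, a map
which swaps `I` and `d β`; `d` continuous, `d a ≠ d b`.  Then `G` contains all rotations. -/
theorem all_rot (G : Subgroup LG) (hR : R6 ∈ G) (hB : ∃ C : ℝ, ∀ g ∈ G, nn g ≤ C)
    (a b : ℝ) (hab : a ≤ b) (d : ℝ → ℂ) (hd : ContinuousOn d (Icc a b))
    (hT : ∀ β ∈ Icc a b, (d β).re ≠ 0 ∧ ∃ g ∈ G, g I = d β ∧ g (d β) = I)
    (hne : d a ≠ d b) (t : ℝ) : rot (exp (t * I)) (exp_ne_zero _) ∈ G := by
  rw [← mem_ang]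
  have hf : ∀ β ∈ Icc a b, normSq (d β) = 1 ∧ ∃ g ∈ G, P g = 0 ∧ Q g = I * d β := by
    intro β hβ
    obtain ⟨h1, g, hg, h2, h3⟩ := hT β hβ
    obtain ⟨h4, h5, h6⟩ := swap_form G hR hB hg h2 h3 h1
    exact ⟨h4, g, hg, h5, h6⟩
  refine all_of_path (ang G) a b hab d hd (fun x hx => (hf x hx).1) ?_ hne t
  intro x hx y hy s hs
  obtain ⟨-, g, hg, hgP, hgQ⟩ := hf x hx
  obtain ⟨-, h, hh, hhP, hhQ⟩ := hf y hy
  rw [mem_ang]
  have e : rot (exp (s * I)) (exp_ne_zero _) = g * h := by
    apply ext_PQ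
    · rw [P_rot, P_mul, hgP, hhP, hgQ, hhQ, hs]
      simp only [map_mul, conj_I]
      have hI : I * I = -1 := I_mul_I
      linear_combination (d x * conj (d y)) * hI
    · rw [Q_rot, Q_mul, hgP, hhP]; simp
  rw [e]; exact G.mul_mem hg hh

/-- **final form.**  For every `β ∈ [π/3, 2π/3]` a linear map `A β` with `A I = I`,
`A (d β) = v β`, such that the conjugate of the swap of `I` and `v β` is in `G`; at the two end
points also the conjugate of the rotation of order six. -/
theorem all_rot' (G : Subgroup LG) (hR : R6 ∈ G) (hB : ∃ C : ℝ, ∀ g ∈ G, nn g ≤ C)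
    (a b : ℝ) (hab : a ≤ b) (d v : ℝ → ℂ) (hd : ContinuousOn d (Icc a b))
    (hv : ∀ β ∈ Icc a b, (v β).re ≠ 0) (hva : (v a).im ≠ (v b).im)
    (hA : ∀ β ∈ Icc a b, ∃ A S : LG, A I = I ∧ A (d β) = v β ∧ S I = v β ∧ S (v β) = I ∧
      A⁻¹ * (S * A) ∈ G)
    (hE : ∀ β, β = a ∨ β = b → ∃ A : LG, A I = I ∧ A (d β) = v β ∧ A⁻¹ * (R6 * A) ∈ G) (t : ℝ) :
    rot (exp (t * I)) (exp_ne_zero _) ∈ G := by
  have hend : ∀ β, β = a ∨ β = b → (d β).im = (v β).im := by
    intro β hβ
    obtain ⟨A, h1, h2, h3⟩ := hE β hβ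
    obtain ⟨g, hg⟩ : ∃ g, g = A⁻¹ * (R6 * A) := ⟨_, rfl⟩
    rw [← hg] at h3
    have hdt : dt g = 1 := by
      rw [hg, dt_mul, dt_mul, mul_comm (dt R6), ← mul_assoc, ← dt_mul, inv_mul_cancel, dt_one,
        one_mul, dt, R6, P_rot, Q_rot, om_normSq]
      simp
    have hgQ : Q g = 0 := by
      rcases orth_of_bdd G hR hB h3 with ⟨-, h⟩ | ⟨h, h'⟩
      · exact h
      · exfalso; rw [dt, h, h'] at hdt; norm_num at hdt
    have hcomm : A * g = R6 * A := by rw [hg, ← mul_assoc, mul_inv_cancel, one_mul]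
    have eP := congrArg P hcomm
    have eQ := congrArg Q hcomm
    rw [P_mul, P_mul, hgQ, show P R6 = om from P_rot _ _, show Q R6 = 0 from Q_rot _ _] at eP
    rw [Q_mul, Q_mul, hgQ, show P R6 = om from P_rot _ _, show Q R6 = 0 from Q_rot _ _] at eQ
    simp only [map_zero, mul_zero, add_zero, zero_mul, zero_add] at eP eQ
    -- P A (P g - om) = 0, Q A (conj (P g) - om) = 0
    have hom : om ≠ conj om := by
      intro h
      have := congrArg im h
      rw [conj_im, om_im] at this
      have h3 : 0 < Real.sqrt 3 := Real.sqrt_pos.2 (by norm_num)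
      linarith
    have hPQ : P A = 0 ∨ Q A = 0 := by
      by_cases hPA : P A = 0
      · exact Or.inl hPA
      · right
        have h4 : P g = om := by
          have : P A * (P g - om) = 0 := by linear_combination eP
          rcases mul_eq_zero.1 this with h | h
          · exact absurd h hPA
          · exact sub_eq_zero.1 h
        rw [h4] at eQ
        have : Q A * (conj om - om) = 0 := by linear_combination eQ
        rcases mul_eq_zero.1 this with h | h
        · exact h
        · exact absurd (sub_eq_zero.1 h).symm hom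
    have hI : I * I = -1 := I_mul_I
    rcases hPQ with h | h
    · -- A z = - conj z
      rw [apply_eq, h] at h1 h2
      simp only [zero_mul, zero_add, conj_I] at h1 h2
      have hQA : Q A = -1 := by
        have : (Q A + 1) * I = 0 := by linear_combination -h1
        rcases mul_eq_zero.1 this with h' | h'
        · exact eq_neg_of_add_eq_zero_left h'
        · exact absurd h' I_ne_zero
      rw [hQA] at h2
      have := congrArg im h2
      simpa using this
    · rw [apply_eq, h] at h1 h2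
      simp only [zero_mul, add_zero] at h1 h2
      have hPA : P A = 1 := by
        have : (P A - 1) * I = 0 := by linear_combination h1
        rcases mul_eq_zero.1 this with h' | h'
        · exact sub_eq_zero.1 h'
        · exact absurd h' I_ne_zero
      rw [hPA, one_mul] at h2
      rw [h2]
  refine all_rot G hR hB a b hab d hd ?_ ?_ t
  · intro β hβ
    obtain ⟨A, S, h1, h2, h3, h4, h5⟩ := hA β hβ
    refine ⟨?_, _, h5, ?_, ?_⟩
    · intro h0
      have e : d β = ((d β).im : ℝ) • I := by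
        apply Complex.ext
        · simp [h0]
        · simp
      have h6 : A (d β) = ((d β).im : ℝ) • I := by rw [e, map_smul, h1]; simp
      rw [h2] at h6
      apply hv β hβ
      rw [h6]; simp
    · change A⁻¹ (S (A I)) = d β
      rw [h1, h3, ← h2]
      exact A.symm_apply_apply _
    · change A⁻¹ (S (A (d β))) = I
      rw [h2, h4]
      conv_lhs => rw [← h1]
      exact A.symm_apply_apply _
  · intro h
    apply hva
    rw [← hend a (Or.inl rfl), ← hend b (Or.inr rfl), h]

/-! ## boundedness from masses -/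

/-- diameter of the image of a set: one of the three rotations is expanded by `√ nn` -/
theorem exists_expand (g : LG) (z : ℂ) : ∃ k : ℕ, k < 3 ∧ nn g * normSq z ≤
    normSq (g ((R6 ^ k) z)) := by
  have h3 := sum_three g z
  have e : ∀ k : ℕ, (R6 ^ k) z = om ^ k * z := by
    intro k
    rw [apply_eq, (P_pow k).1, (P_pow k).2]; simp
  by_contra hc
  push Not at hc
  have a0 := hc 0 (by norm_num)
  have a1 := hc 1 (by norm_num)
  have a2 := hc 2 (by norm_num)
  rw [e, pow_zero, one_mul] at a0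
  rw [e, pow_one] at a1
  rw [e] at a2
  linarith

open MeasureTheory in
/-- **compactness of the stabiliser.**  `X` = loops modulo translations, `act` = the action of the
linear maps, `D` = diameter. -/
theorem bdd_of_mass {X : Type*} [MeasurableSpace X] (ν : Measure X) (D : X → ℝ)
    (hD : Measurable D) (act : LG → X → X) (hact : ∀ g, Measurable (act g))
    (hmul : ∀ g h x, act (g * h) x = act g (act h x))
    (hexp : ∀ (g : LG) (x : X), 0 < D x → ∃ k : ℕ, k < 3 ∧
      Real.sqrt (nn g) * D x ≤ D (act g (act (R6 ^ k) x)))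
    (G : Subgroup LG) (hG : ∀ g ∈ G, ν.map (act g) = ν) (hR : R6 ∈ G)
    (K1 : 0 < ν {x | 1 ≤ D x ∧ D x ≤ 2})
    (K2 : Filter.Tendsto (fun r : ℝ => ν {x | r ≤ D x}) Filter.atTop (nhds 0)) :
    ∃ C : ℝ, ∀ g ∈ G, nn g ≤ C := by
  have h1 : ∀ᶠ r : ℝ in Filter.atTop, 3 * ν {x | r ≤ D x} < ν {x | 1 ≤ D x ∧ D x ≤ 2} := by
    have h2 : Filter.Tendsto (fun r : ℝ => 3 * ν {x | r ≤ D x}) Filter.atTop (nhds (3 * 0)) :=
      ENNReal.Tendsto.const_mul K2 (Or.inr (by norm_num))
    rw [mul_zero] at h2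
    exact (tendsto_order.1 h2).2 _ K1
  obtain ⟨r, hr1, hr2⟩ := (h1.and (Filter.eventually_ge_atTop 0)).exists
  refine ⟨r ^ 2, fun g hg => ?_⟩
  by_contra hc
  push Not at hc
  have hs : r ≤ Real.sqrt (nn g) := by
    rw [Real.le_sqrt hr2 (nn_nonneg g)]; exact hc.le
  have hsub : {x | 1 ≤ D x ∧ D x ≤ 2} ⊆ ⋃ k ∈ Finset.range 3,
      (act (g * R6 ^ k)) ⁻¹' {x | r ≤ D x} := by
    intro x hx
    obtain ⟨k, hk, hk'⟩ := hexp g x (lt_of_lt_of_le one_pos hx.1)
    refine mem_iUnion₂.2 ⟨k, Finset.mem_range.2 hk, ?_⟩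
    change r ≤ D (act (g * R6 ^ k) x)
    rw [hmul]
    refine le_trans hs (le_trans ?_ hk')
    have := Real.sqrt_nonneg (nn g)
    nlinarith [hx.1]
  have hm : ν {x | 1 ≤ D x ∧ D x ≤ 2} ≤ 3 * ν {x | r ≤ D x} := by
    refine (measure_mono hsub).trans ((measure_biUnion_finset_le _ _).trans ?_)
    have : ∀ k ∈ Finset.range 3, ν ((act (g * R6 ^ k)) ⁻¹' {x | r ≤ D x}) = ν {x | r ≤ D x} := by
      intro k _
      rw [← Measure.map_apply (hact _) (measurableSet_le measurable_const hD),
        hG _ (G.mul_mem hg (G.pow_mem hR k))]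
    rw [Finset.sum_congr rfl this]
    simp
  exact absurd hr1 (not_lt.2 hm)

end

end Pool.Agent.ROT
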