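import Pool.Agent.ROT.Group

/-!
# ROT: group step without continuity (helper58, literal of helper62)

`G` bounded, with the rotation of order six, its set of angles closed, and for infinitely many
heights `y` (`|y| < 1`) a map in `G` which swaps `I` and a number `d` of imaginary part `y`:
all rotations are in `G`.
-/

open Complex Set
open scoped ComplexConjugate

namespace Pool.Agent.ROT

noncomputable section

theorem two_pi_mem_ang (G : Subgroup LG) : 2 * Real.pi ∈ ang G := by
  rw [mem_ang]
  have e : rot (exp ((2 * Real.pi : ℝ) * I)) (exp_ne_zero _) = 1 := by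
    apply ext_PQ
    · rw [P_rot, P_one]; push_cast; exact exp_two_pi_mul_I
    · rw [Q_rot, Q_one]
  rw [e]; exact G.one_mem

/-- a map which swaps `I` and `d`, `|Im d| < 1`: then `Re d ≠ 0` -/
theorem re_ne_of_swap {g : LG} {d : ℂ} (h1 : g I = d) (h2 : g d = I) (hy : |d.im| < 1) :
    d.re ≠ 0 := by
  intro h0
  have e : d = ((d).im : ℝ) • I := by
    apply Complex.ext
    · simp [h0]
    · simp
  have h3 : g d = (d.im * d.im : ℝ) • I := by
    rw [e, map_smul, h1]
    conv_lhs => rw [e]
    simp only [smul_smul]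
    congr 1
    simp
  rw [h2] at h3
  have h4 := congrArg im h3
  simp only [I_im, real_smul, mul_im, ofReal_re, mul_one, ofReal_im, I_re, mul_zero,
    add_zero] at h4
  rw [abs_lt] at hy
  nlinarith [hy.1, hy.2]

/-- **group step without continuity** -/
theorem all_rot_inf (G : Subgroup LG) (hR : R6 ∈ G) (hB : ∃ C : ℝ, ∀ g ∈ G, nn g ≤ C)
    (hcl : IsClosed (ang G : Set ℝ)) (Y : Set ℝ) (hY : Y.Infinite)
    (hd : ∀ y ∈ Y, |y| < 1 ∧ ∃ d : ℂ, d.im = y ∧ ∃ g ∈ G, g I = d ∧ g d = I) (t : ℝ) :
    rot (exp (t * I)) (exp_ne_zero _) ∈ G := by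
  rw [← mem_ang]
  rcases AddSubgroup.dense_or_cyclic (ang G) with hdense | ⟨a, ha⟩
  · have : (ang G : Set ℝ) = univ := by rw [← hcl.closure_eq]; exact hdense.closure_eq
    exact (Set.eq_univ_iff_forall.1 this) t
  · exfalso
    have hf : ∀ y : Y, ∃ d : ℂ, d.im = y ∧ normSq d = 1 ∧ ∃ g ∈ G, P g = 0 ∧ Q g = I * d := by
      rintro ⟨y, hy⟩
      obtain ⟨h1, d, h2, g, hg, h3, h4⟩ := hd y hy
      obtain ⟨h5, h6, h7⟩ := swap_form G hR hB hg h3 h4
        (re_ne_of_swap h3 h4 (by rw [h2]; exact h1))
      exact ⟨d, h2, h5, g, hg, h6, h7⟩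
    choose d hdim hdn g hg hgP hgQ using hf
    obtain ⟨y0, hy0⟩ := hY.nonempty
    -- every angle in `ang G` is a multiple of `a`, `2 π = m a`
    have h2π := two_pi_mem_ang G
    rw [ha, AddSubgroup.mem_closure_singleton] at h2π
    obtain ⟨m, hm⟩ := h2π
    have hm0 : m ≠ 0 := by
      rintro rfl
      rw [zero_smul] at hm
      have := Real.pi_pos
      linarith
    have hma : exp ((m : ℂ) * (a * I)) = 1 := by
      have h3 : (m : ℂ) * (a * I) = (((m • a : ℝ)) : ℂ) * I := by
        rw [zsmul_eq_mul]; push_cast; ring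
      rw [h3, hm]; push_cast; exact exp_two_pi_mul_I
    -- the numbers `u y = d y * conj (d y0)` are roots of unity of order `|m|`
    have hu : ∀ y : Y, (d y * conj (d ⟨y0, hy0⟩)) ^ m.natAbs = 1 := by
      intro y
      set u := d y * conj (d ⟨y0, hy0⟩) with hudef
      have hun : ‖u‖ = 1 := by
        have h1 : normSq u = 1 := by
          rw [hudef, normSq_mul, normSq_conj, hdn, hdn, one_mul]
        rw [normSq_eq_norm_sq] at h1
        nlinarith [norm_nonneg u, sq_nonneg (‖u‖ - 1)]
      have hexp : exp (arg u * I) = u := by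
        have h3 := norm_mul_exp_arg_mul_I u
        rw [hun] at h3
        simpa using h3
      have hmem : arg u ∈ ang G := by
        rw [mem_ang]
        have e : rot (exp (arg u * I)) (exp_ne_zero _) = g y * g ⟨y0, hy0⟩ := by
          apply ext_PQ
          · rw [P_rot, P_mul, hgP, hgP, hgQ, hgQ, hexp, hudef]
            simp only [map_mul, conj_I]
            have hI : I * I = -1 := I_mul_I
            linear_combination (d y * conj (d ⟨y0, hy0⟩)) * hI
          · rw [Q_rot, Q_mul, hgP, hgP]; simp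
        rw [e]; exact G.mul_mem (hg _) (hg _)
      rw [ha, AddSubgroup.mem_closure_singleton] at hmem
      obtain ⟨n, hn⟩ := hmem
      have h4 : u = exp ((n : ℂ) * (a * I)) := by
        rw [← hexp, ← hn, zsmul_eq_mul]; congr 1; push_cast; ring
      have h5 : u ^ m = 1 := by
        rw [h4, ← exp_int_mul, show (m : ℂ) * ((n : ℂ) * (a * I)) = (n : ℂ) * ((m : ℂ) * (a * I)) by
          ring, exp_int_mul, hma, one_zpow]
      rcases Int.natAbs_eq m with h6 | h6
      · rw [h6, zpow_natCast] at h5; exact h5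
      · rw [h6, zpow_neg, zpow_natCast, inv_eq_one] at h5; exact h5
    have hfin : (Set.range fun y : Y => d y * conj (d ⟨y0, hy0⟩)).Finite := by
      have hpos : 0 < m.natAbs := Int.natAbs_pos.2 hm0
      refine (Polynomial.nthRoots m.natAbs (1 : ℂ)).toFinset.finite_toSet.subset ?_
      rintro _ ⟨y, rfl⟩
      simp only [Finset.mem_coe, Multiset.mem_toFinset, Polynomial.mem_nthRoots hpos]
      exact hu y
    have hinj : Function.Injective fun y : Y => d y * conj (d ⟨y0, hy0⟩) := by
      intro y y' h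
      have h1 : conj (d ⟨y0, hy0⟩) ≠ 0 := by
        intro h0
        have := hdn ⟨y0, hy0⟩
        rw [← normSq_conj, h0, map_zero] at this
        exact zero_ne_one this
      have h2 := mul_right_cancel₀ h1 h
      apply Subtype.ext
      rw [← hdim y, ← hdim y', h2]
    have hYi : Infinite Y := hY.to_subtype
    exact (Set.infinite_range_of_injective hinj) hfin

/-- the literal of helper62: all heights in `(-1/2, 1/2)` -/
theorem all_rot_y (G : Subgroup LG) (hR : R6 ∈ G) (hB : ∃ C : ℝ, ∀ g ∈ G, nn g ≤ C)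
    (hcl : IsClosed (ang G : Set ℝ))
    (hd : ∀ y ∈ Ioo (-1 / 2 : ℝ) (1 / 2), ∃ d : ℂ, d.im = y ∧ ∃ g ∈ G, g I = d ∧ g d = I)
    (t : ℝ) : rot (exp (t * I)) (exp_ne_zero _) ∈ G := by
  refine all_rot_inf G hR hB hcl (Ioo (-1 / 2 : ℝ) (1 / 2)) (Ioo_infinite (by norm_num)) ?_ t
  intro y hy
  refine ⟨?_, hd y hy⟩
  rw [abs_lt]
  constructor <;> linarith [hy.1, hy.2]

/-- swap from the linear map `A` of the lattice: `A I = I`, `A d = v`, `S` swaps `I` and `v` -/
theorem swap_of_conj {G : Subgroup LG} {A S : LG} {d v : ℂ} (h1 : A I = I) (h2 : A d = v)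
    (h3 : S I = v) (h4 : S v = I) (h5 : A⁻¹ * (S * A) ∈ G) : ∃ g ∈ G, g I = d ∧ g d = I := by
  refine ⟨_, h5, ?_, ?_⟩
  · change A⁻¹ (S (A I)) = d
    rw [h1, h3, ← h2]
    exact A.symm_apply_apply _
  · change A⁻¹ (S (A d)) = I
    rw [h2, h4]
    conv_lhs => rw [← h1]
    exact A.symm_apply_apply _

/-- end points: `A I = I` and `A⁻¹ R6 A` in the bounded group: `A z = z` or `A z = - conj z` -/
theorem end_form (G : Subgroup LG) (hR : R6 ∈ G) (hB : ∃ C : ℝ, ∀ g ∈ G, nn g ≤ C)
    {A : LG} {d v : ℂ} (h1 : A I = I) (h2 : A d = v) (h3 : A⁻¹ * (R6 * A) ∈ G) :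
    d.im = v.im := by
  obtain ⟨g, hg⟩ : ∃ g, g = A⁻¹ * (R6 * A) := ⟨_, rfl⟩
  rw [← hg] at h3
  have hdt : dt g = 1 := by
    rw [hg, dt_mul, dt_mul, mul_comm (dt R6), ← mul_assoc, ← dt_mul, inv_mul_cancel, dt_one,
      one_mul, dt, R6, P_rot, Q_rot, om_normSq]
    simp
  have hgQ : Q g = 0 := by
    rcases orth_of_bdd G hR hB h3 with ⟨-, h⟩ | ⟨h, h'⟩
    · exact h
    · exfalso; rw [dt, h, h'] at hdt; norm_num at hdt
  have hcomm : A * g = R6 * A := by rw [hg, ← mul_assoc, mul_inv_cancel, one_mul]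
  have eP := congrArg P hcomm
  have eQ := congrArg Q hcomm
  rw [P_mul, P_mul, hgQ, show P R6 = om from P_rot _ _, show Q R6 = 0 from Q_rot _ _] at eP
  rw [Q_mul, Q_mul, hgQ, show P R6 = om from P_rot _ _, show Q R6 = 0 from Q_rot _ _] at eQ
  simp only [map_zero, mul_zero, add_zero, zero_mul, zero_add] at eP eQ
  have hom : om ≠ conj om := by
    intro h
    have := congrArg im h
    rw [conj_im, om_im] at this
    have h3 : 0 < Real.sqrt 3 := Real.sqrt_pos.2 (by norm_num)
    linarith
  have hPQ : P A = 0 ∨ Q A = 0 := by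
    by_cases hPA : P A = 0
    · exact Or.inl hPA
    · right
      have h4 : P g = om := by
        have : P A * (P g - om) = 0 := by linear_combination eP
        rcases mul_eq_zero.1 this with h | h
        · exact absurd h hPA
        · exact sub_eq_zero.1 h
      rw [h4] at eQ
      have : Q A * (conj om - om) = 0 := by linear_combination eQ
      rcases mul_eq_zero.1 this with h | h
      · exact h
      · exact absurd (sub_eq_zero.1 h).symm hom
  rcases hPQ with h | h
  · rw [apply_eq, h] at h1 h2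
    simp only [zero_mul, zero_add, conj_I] at h1 h2
    have hQA : Q A = -1 := by
      have : (Q A + 1) * I = 0 := by linear_combination -h1
      rcases mul_eq_zero.1 this with h' | h'
      · exact eq_neg_of_add_eq_zero_left h'
      · exact absurd h' I_ne_zero
    rw [hQA] at h2
    have := congrArg im h2
    simpa using this
  · rw [apply_eq, h] at h1 h2
    simp only [zero_mul, add_zero] at h1 h2
    have hPA : P A = 1 := by
      have : (P A - 1) * I = 0 := by linear_combination h1
      rcases mul_eq_zero.1 this with h' | h'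
      · exact sub_eq_zero.1 h'
      · exact absurd h' I_ne_zero
    rw [hPA, one_mul] at h2
    rw [h2]

end

end Pool.Agent.ROT
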