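import Pool.Agent.ROT.Group3

/-!
# ROT: the asymptotic group step, without limit objects (helper58)

`X` = traces modulo translation, `act` = the linear maps, `M N` = the functional at scale `N` on a
class `𝓕` of test functions.  If `M N` is asymptotically invariant under the rotation of order six
and under the flow of real linear maps `B N` (bounded, bounded away from `0`), then it is
asymptotically invariant under all rotations, uniformly in the rotation.
-/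

open Complex Set Filter Topology
open scoped ComplexConjugate

namespace Pool.Agent.ROT

noncomputable section

/-! ## generators -/

/-- the real linear map `z ↦ p z + q conj z` -/
def gen (p q : ℂ) : LB :=
  (ContinuousLinearMap.mul ℝ ℂ) p + ((ContinuousLinearMap.mul ℝ ℂ) q).comp (conjCLE : ℂ →L[ℝ] ℂ)

@[simp] theorem gen_apply (p q z : ℂ) : gen p q z = p * z + q * conj z := rfl

theorem LB_eq (B : LB) (z : ℂ) : B z = (B 1 - I * B I) / 2 * z + (B 1 + I * B I) / 2 * conj z := by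
  have h1 : B z = z.re * B 1 + z.im * B I := by
    conv_lhs => rw [show z = z.re • (1 : ℂ) + z.im • I by
      apply Complex.ext <;> simp]
    rw [map_add, map_smul, map_smul]
    simp
  rw [h1]
  have hz : z = z.re + z.im * I := (re_add_im z).symm
  have hc : conj z = z.re - z.im * I := by
    apply Complex.ext <;> simp
  rw [hc]
  conv_rhs => rw [hz]
  simp only [add_re, ofReal_re, mul_re, I_re, mul_zero, ofReal_im, I_im, mul_one, sub_self,
    add_zero, add_im, mul_im, zero_add]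
  have hI : I * I = -1 := I_mul_I
  linear_combination ((z.im : ℂ) * B I) * hI

theorem LB_eq_gen (B : LB) : B = gen ((B 1 - I * B I) / 2) ((B 1 + I * B I) / 2) :=
  ContinuousLinearMap.ext fun z => by rw [LB_eq B z, gen_apply]

theorem LB_ext {B C : LB} (h1 : B 1 = C 1) (hI : B I = C I) : B = C :=
  ContinuousLinearMap.ext fun z => by rw [LB_eq B z, LB_eq C z, h1, hI]

theorem continuous_gen : Continuous fun x : ℂ × ℂ => gen x.1 x.2 := by
  unfold gen
  have h1 : Continuous fun p : ℂ => (ContinuousLinearMap.mul ℝ ℂ) p :=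
    (ContinuousLinearMap.mul ℝ ℂ).continuous
  exact (h1.comp continuous_fst).add
    ((h1.comp continuous_snd).clm_comp continuous_const)

/-- a sequence of linear maps with converging values at `1` and `I` -/
theorem tendsto_of_values {B : ℕ → LB} {a b : ℂ} (h1 : Tendsto (fun n => B n 1) atTop (𝓝 a))
    (hI : Tendsto (fun n => B n I) atTop (𝓝 b)) :
    ∃ C : LB, C 1 = a ∧ C I = b ∧ Tendsto B atTop (𝓝 C) := by
  refine ⟨gen ((a - I * b) / 2) ((a + I * b) / 2), ?_, ?_, ?_⟩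
  · rw [gen_apply]; simp only [mul_one, map_one]; ring
  · rw [gen_apply, conj_I]
    have hII : I * I = -1 := I_mul_I
    linear_combination (-b) * hII
  · have h2 : Tendsto (fun n => ((B n 1 - I * B n I) / 2, (B n 1 + I * B n I) / 2)) atTop
        (𝓝 ((a - I * b) / 2, (a + I * b) / 2)) :=
      (((h1.sub (hI.const_mul I)).div_const 2)).prodMk_nhds
        ((h1.add (hI.const_mul I)).div_const 2)
    have h3 := (continuous_gen.tendsto _).comp h2
    refine h3.congr fun n => ?_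
    exact (LB_eq_gen (B n)).symm

theorem continuous_flow_left (τ : ℝ) (z : ℂ) : Continuous fun B : LB => flow B τ z :=
  (continuous_flow z).comp (continuous_id.prodMk continuous_const)

theorem tendsto_flow {B : ℕ → LB} {B' : LB} (h : Tendsto B atTop (𝓝 B')) (τ : ℝ) (z : ℂ) :
    Tendsto (fun n => flow (B n) τ z) atTop (𝓝 (flow B' τ z)) :=
  ((continuous_flow_left τ z).tendsto B').comp h

/-! ## asymptotic invariance -/

/-- the frame: an action, a class of test functions and functionals which are equicontinuous in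
the linear map -/
structure Asy {X : Type*} (act : LG → X → X) (𝓕 : Set (X → ℝ)) (M : ℕ → (X → ℝ) → ℝ) : Prop where
  one : ∀ x, act 1 x = x
  mul : ∀ g h x, act (g * h) x = act g (act h x)
  comp : ∀ F ∈ 𝓕, ∀ g, (fun x => F (act g x)) ∈ 𝓕
  equi : ∀ F ∈ 𝓕, ∀ g : LG, ∀ ε > 0, ∃ δ > 0, ∃ N0 : ℕ, ∀ N ≥ N0, ∀ h : LG,
    ‖h 1 - g 1‖ < δ → ‖h I - g I‖ < δ →
      |M N (fun x => F (act h x)) - M N (fun x => F (act g x))| ≤ ε

variable {X : Type*} {act : LG → X → X} {𝓕 : Set (X → ℝ)} {M : ℕ → (X → ℝ) → ℝ}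

/-- the maps under which `M` is asymptotically invariant along the sequence `φ` -/
def inv (A : Asy act 𝓕 M) (φ : ℕ → ℕ) : Subgroup LG where
  carrier := {g | ∀ F ∈ 𝓕, Tendsto (fun n => M (φ n) (fun x => F (act g x)) - M (φ n) F) atTop
    (𝓝 0)}
  mul_mem' {g h} hg hh := by
    intro F hF
    have h1 := hg F hF
    have h2 := hh _ (A.comp F hF g)
    have h3 := h2.add h1
    rw [add_zero] at h3
    refine h3.congr fun n => ?_
    have e : (fun x => F (act (g * h) x)) = fun x => F (act g (act h x)) := by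
      funext x; rw [A.mul]
    rw [e]; ring
  one_mem' := by
    intro F _
    have e : (fun x => F (act 1 x)) = F := by funext x; rw [A.one]
    simp only [e, sub_self]
    exact tendsto_const_nhds
  inv_mem' {g} hg := by
    intro F hF
    have h1 := (hg _ (A.comp F hF g⁻¹)).neg
    rw [neg_zero] at h1
    refine h1.congr fun n => ?_
    have e : (fun x => F (act g⁻¹ (act g x))) = F := by
      funext x; rw [← A.mul, inv_mul_cancel, A.one]
    rw [e]; ring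

theorem mem_inv {A : Asy act 𝓕 M} {φ : ℕ → ℕ} {g : LG} : g ∈ inv A φ ↔
    ∀ F ∈ 𝓕, Tendsto (fun n => M (φ n) (fun x => F (act g x)) - M (φ n) F) atTop (𝓝 0) := Iff.rfl

/-- limits of asymptotic invariances -/
theorem mem_inv_of_tendsto (A : Asy act 𝓕 M) {φ : ℕ → ℕ} (hφ : Tendsto φ atTop atTop)
    {gs : ℕ → LG} {g : LG} (h1 : Tendsto (fun n => gs n 1) atTop (𝓝 (g 1)))
    (hI : Tendsto (fun n => gs n I) atTop (𝓝 (g I)))
    (hinv : ∀ F ∈ 𝓕, Tendsto (fun n => M (φ n) (fun x => F (act (gs n) x)) - M (φ n) F) atTop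
      (𝓝 0)) : g ∈ inv A φ := by
  intro F hF
  rw [Metric.tendsto_atTop]
  intro ε hε
  obtain ⟨δ, hδ, N0, hN0⟩ := A.equi F hF g (ε / 2) (by linarith)
  have e1 := (Metric.tendsto_atTop.1 (hinv F hF)) (ε / 2) (by linarith)
  obtain ⟨n1, hn1⟩ := e1
  obtain ⟨n2, hn2⟩ := (Metric.tendsto_atTop.1 h1) δ hδ
  obtain ⟨n3, hn3⟩ := (Metric.tendsto_atTop.1 hI) δ hδ
  obtain ⟨n4, hn4⟩ := (tendsto_atTop.1 hφ N0).exists_forall_of_atTop
  refine ⟨max (max n1 n2) (max n3 n4), fun n hn => ?_⟩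
  have a1 := hn1 n (le_trans (le_trans (le_max_left _ _) (le_max_left _ _)) hn)
  have a2 := hn2 n (le_trans (le_trans (le_max_right _ _) (le_max_left _ _)) hn)
  have a3 := hn3 n (le_trans (le_trans (le_max_left _ _) (le_max_right _ _)) hn)
  have a4 := hn4 n (le_trans (le_trans (le_max_right _ _) (le_max_right _ _)) hn)
  rw [dist_eq_norm] at a2 a3
  have a5 := hN0 (φ n) a4 (gs n) a2 a3
  rw [Real.dist_eq, sub_zero] at a1 ⊢
  have a6 : M (φ n) (fun x => F (act g x)) - M (φ n) F =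
      (M (φ n) (fun x => F (act (gs n) x)) - M (φ n) F) -
      (M (φ n) (fun x => F (act (gs n) x)) - M (φ n) (fun x => F (act g x))) := by ring
  rw [a6]
  calc |_| ≤ |M (φ n) (fun x => F (act (gs n) x)) - M (φ n) F| +
      |M (φ n) (fun x => F (act (gs n) x)) - M (φ n) (fun x => F (act g x))| := abs_sub _ _
    _ < ε := by linarith

/-! ## compactness (K1, K2) -/

/-- masses of large objects; `D` = diameter -/
structure Mass (act : LG → X → X) (𝓕 : Set (X → ℝ)) (M : ℕ → (X → ℝ) → ℝ) (D : X → ℝ)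
    (Fr : ℝ → X → ℝ) : Prop where
  hexp : ∀ (g : LG) (x : X), 0 < D x → ∃ k : ℕ, k < 3 ∧
    Real.sqrt (nn g) * D x ≤ D (act g (act (R6 ^ k) x))
  mem : ∀ r, 1 ≤ r → Fr r ∈ 𝓕
  nonneg : ∀ r x, 0 ≤ Fr r x
  le_one : ∀ r x, Fr r x ≤ 1
  supp : ∀ r x, D x < r → Fr r x = 0
  full : ∀ r x, r + 1 ≤ D x → Fr r x = 1
  sub3 : ∀ N, ∀ F ∈ 𝓕, ∀ F0 ∈ 𝓕, ∀ F1 ∈ 𝓕, ∀ F2 ∈ 𝓕, (∀ x, F x ≤ F0 x + F1 x + F2 x) →
    M N F ≤ M N F0 + M N F1 + M N F2
  K1 : ∃ c > 0, ∀ᶠ N in atTop, c ≤ M N (Fr 1)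
  K2 : ∀ ε > 0, ∃ r, 1 ≤ r ∧ ∀ᶠ N in atTop, M N (Fr r) ≤ ε

theorem bdd_asy (A : Asy act 𝓕 M) {D : X → ℝ} {Fr : ℝ → X → ℝ} (K : Mass act 𝓕 M D Fr) :
    ∃ C : ℝ, ∀ φ : ℕ → ℕ, Tendsto φ atTop atTop → R6 ∈ inv A φ → ∀ g ∈ inv A φ, nn g ≤ C := by
  obtain ⟨c, hc, hK1⟩ := K.K1
  obtain ⟨r, hr, hK2⟩ := K.K2 (c / 6) (by linarith)
  refine ⟨(r + 1) ^ 2, fun φ hφ hR g hg => ?_⟩
  by_contra hcon
  push Not at hcon
  have hs : r + 1 ≤ Real.sqrt (nn g) := by
    rw [Real.le_sqrt (by linarith) (nn_nonneg g)]; exact hcon.le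
  have hmem : ∀ k : ℕ, (fun x => Fr r (act (g * R6 ^ k) x)) ∈ 𝓕 := fun k =>
    A.comp _ (K.mem r hr) _
  have hpt : ∀ x, Fr 1 x ≤ Fr r (act (g * R6 ^ 0) x) + Fr r (act (g * R6 ^ 1) x) +
      Fr r (act (g * R6 ^ 2) x) := by
    intro x
    have p0 := K.nonneg r (act (g * R6 ^ 0) x)
    have p1 := K.nonneg r (act (g * R6 ^ 1) x)
    have p2 := K.nonneg r (act (g * R6 ^ 2) x)
    rcases lt_or_ge (D x) 1 with hx | hx
    · rw [K.supp 1 x hx]; linarith
    · obtain ⟨k, hk, hk'⟩ := K.hexp g x (by linarith)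
      rw [← A.mul] at hk'
      have h5 : r + 1 ≤ D (act (g * R6 ^ k) x) := by
        refine le_trans hs (le_trans ?_ hk')
        have := Real.sqrt_nonneg (nn g)
        nlinarith
      have h6 := K.full r _ h5
      have h7 := K.le_one 1 x
      have : k = 0 ∨ k = 1 ∨ k = 2 := by omega
      rcases this with rfl | rfl | rfl
      · rw [h6]; linarith
      · rw [h6]; linarith
      · rw [h6]; linarith
  have hsum := fun N => K.sub3 N _ (K.mem 1 le_rfl) _ (hmem 0) _ (hmem 1) _ (hmem 2) hpt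
  have hlim : ∀ k : ℕ, Tendsto (fun n => M (φ n) (fun x => Fr r (act (g * R6 ^ k) x)) -
      M (φ n) (Fr r)) atTop (𝓝 0) := fun k =>
    ((inv A φ).mul_mem hg ((inv A φ).pow_mem hR k)) _ (K.mem r hr)
  have hev : ∀ k : ℕ, ∀ᶠ n in atTop, M (φ n) (fun x => Fr r (act (g * R6 ^ k) x)) -
      M (φ n) (Fr r) < c / 12 := fun k => (tendsto_order.1 (hlim k)).2 _ (by linarith)
  obtain ⟨n, h0, h1, h2, h3, h4⟩ := ((hev 0).and ((hev 1).and ((hev 2).and
    ((hφ.eventually hK1).and (hφ.eventually hK2))))).exists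
  have := hsum (φ n)
  linarith

/-! ## the theorem -/

/-- **generators of asymptotic invariances are asymptotically in `so(2)`, and give all
rotations** (along a subsequence) -/
theorem sub_asy (A : Asy act 𝓕 M) {D : X → ℝ} {Fr : ℝ → X → ℝ} (K : Mass act 𝓕 M D Fr)
    (hR : ∀ F ∈ 𝓕, Tendsto (fun N => M N (fun x => F (act R6 x)) - M N F) atTop (𝓝 0))
    (B : ℕ → LB) (C : ℝ) (hB1 : ∀ N, ‖B N 1‖ ≤ C) (hBI : ∀ N, ‖B N I‖ ≤ C)
    (hfl : ∀ F ∈ 𝓕, ∀ τ : ℝ, Tendsto (fun N => M N (fun x => F (act (flow (B N) τ) x)) - M N F)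
      atTop (𝓝 0)) (φ : ℕ → ℕ) (hφ : Tendsto φ atTop atTop) :
    ∃ ψ : ℕ → ℕ, StrictMono ψ ∧ ∃ B' : LB, Tendsto (fun n => B (φ (ψ n)) 1) atTop (𝓝 (B' 1)) ∧
      Tendsto (fun n => B (φ (ψ n)) I) atTop (𝓝 (B' I)) ∧ (∃ b : ℝ, ∀ z, B' z = b * I * z) ∧
      (B' ≠ 0 → ∀ t : ℝ, rot (exp (t * I)) (exp_ne_zero _) ∈ inv A (fun n => φ (ψ n))) := by
  have hbd : Bornology.IsBounded (Metric.closedBall (0 : ℂ × ℂ) C) := Metric.isBounded_closedBall
  have hin : ∀ n, ((B (φ n) 1, B (φ n) I) : ℂ × ℂ) ∈ Metric.closedBall (0 : ℂ × ℂ) C := by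
    intro n
    rw [mem_closedBall_zero_iff, Prod.norm_def, max_le_iff]
    exact ⟨hB1 _, hBI _⟩
  obtain ⟨⟨a, b⟩, -, ψ, hψ, hlim⟩ := tendsto_subseq_of_bounded hbd hin
  have l1 : Tendsto (fun n => B (φ (ψ n)) 1) atTop (𝓝 a) :=
    (continuous_fst.tendsto _).comp hlim
  have lI : Tendsto (fun n => B (φ (ψ n)) I) atTop (𝓝 b) :=
    (continuous_snd.tendsto _).comp hlim
  obtain ⟨B', hB'1, hB'I, hB'⟩ := tendsto_of_values (B := fun n => B (φ (ψ n))) l1 lI
  have hφψ : Tendsto (fun n => φ (ψ n)) atTop atTop := hφ.comp hψ.tendsto_atTop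
  have hRm : R6 ∈ inv A (fun n => φ (ψ n)) := fun F hF => (hR F hF).comp hφψ
  have hflm : ∀ τ, flow B' τ ∈ inv A (fun n => φ (ψ n)) := by
    intro τ
    refine mem_inv_of_tendsto A hφψ (tendsto_flow hB' τ 1) (tendsto_flow hB' τ I) fun F hF => ?_
    exact (hfl F hF τ).comp hφψ
  obtain ⟨C', hC'⟩ := bdd_asy A K
  have hbdd : ∃ C : ℝ, ∀ g ∈ inv A (fun n => φ (ψ n)), nn g ≤ C :=
    ⟨C', fun g hg => hC' _ hφψ hRm g hg⟩
  refine ⟨ψ, hψ, B', by rw [hB'1]; exact l1, by rw [hB'I]; exact lI,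
    so2_of_flow _ hRm hbdd B' hflm, fun h0 t => all_rot_flow _ hRm hbdd B' h0 hflm t⟩

/-- **asymptotic rotation invariance** -/
theorem rot_asy (A : Asy act 𝓕 M) {D : X → ℝ} {Fr : ℝ → X → ℝ} (K : Mass act 𝓕 M D Fr)
    (hR : ∀ F ∈ 𝓕, Tendsto (fun N => M N (fun x => F (act R6 x)) - M N F) atTop (𝓝 0))
    (B : ℕ → LB) (C c : ℝ) (hB1 : ∀ N, ‖B N 1‖ ≤ C) (hBI : ∀ N, ‖B N I‖ ≤ C) (hc : 0 < c)
    (hBc : ∀ᶠ N in atTop, c ≤ ‖B N 1‖ + ‖B N I‖)
    (hfl : ∀ F ∈ 𝓕, ∀ τ : ℝ, Tendsto (fun N => M N (fun x => F (act (flow (B N) τ) x)) - M N F)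
      atTop (𝓝 0)) (F : X → ℝ) (hF : F ∈ 𝓕) (t : ℝ) :
    Tendsto (fun N => M N (fun x => F (act (rot (exp (t * I)) (exp_ne_zero _)) x)) - M N F) atTop
      (𝓝 0) := by
  apply tendsto_of_subseq_tendsto
  intro φ hφ
  obtain ⟨ψ, hψ, B', l1, lI, -, hall⟩ := sub_asy A K hR B C hB1 hBI hfl φ hφ
  refine ⟨ψ, ?_⟩
  have h0 : B' ≠ 0 := by
    rintro rfl
    have h2 : Tendsto (fun n => ‖B (φ (ψ n)) 1‖ + ‖B (φ (ψ n)) I‖) atTop
        (𝓝 (‖(0 : LB) 1‖ + ‖(0 : LB) I‖)) := l1.norm.add lI.norm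
    have h3 : c ≤ ‖(0 : LB) 1‖ + ‖(0 : LB) I‖ :=
      ge_of_tendsto h2 ((hφ.comp hψ.tendsto_atTop).eventually hBc)
    rw [show (0 : LB) 1 = 0 from rfl, show (0 : LB) I = 0 from rfl, norm_zero, add_zero] at h3
    linarith
  exact hall h0 t F hF

/-- uniformly in the rotation -/
theorem rot_asy_unif (A : Asy act 𝓕 M) {F : X → ℝ} (hF : F ∈ 𝓕)
    (h : ∀ t : ℝ, Tendsto (fun N => M N (fun x => F (act (rot (exp (t * I)) (exp_ne_zero _)) x)) -
      M N F) atTop (𝓝 0)) {ε : ℝ} (hε : 0 < ε) :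
    ∃ N0 : ℕ, ∀ N ≥ N0, ∀ t : ℝ,
      |M N (fun x => F (act (rot (exp (t * I)) (exp_ne_zero _)) x)) - M N F| ≤ ε := by
  have key : ∃ N0 : ℕ, ∀ N ≥ N0, ∀ t ∈ Icc (0 : ℝ) (2 * Real.pi),
      |M N (fun x => F (act (rot (exp (t * I)) (exp_ne_zero _)) x)) - M N F| ≤ ε := by
    refine (isCompact_Icc : IsCompact (Icc (0 : ℝ) (2 * Real.pi))).induction_on (p := fun s => ∃ N0 : ℕ, ∀ N ≥ N0, ∀ t ∈ s,
      |M N (fun x => F (act (rot (exp (t * I)) (exp_ne_zero _)) x)) - M N F| ≤ ε) ?_ ?_ ?_ ?_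
    · exact ⟨0, fun N _ t ht => absurd ht (notMem_empty t)⟩
    · rintro s s' hss ⟨N0, h0⟩
      exact ⟨N0, fun N hN t ht => h0 N hN t (hss ht)⟩
    · rintro s s' ⟨N0, h0⟩ ⟨N1, h1⟩
      refine ⟨max N0 N1, fun N hN t ht => ?_⟩
      rcases ht with ht | ht
      · exact h0 N (le_trans (le_max_left _ _) hN) t ht
      · exact h1 N (le_trans (le_max_right _ _) hN) t ht
    · intro t _
      obtain ⟨δ, hδ, N0, hN0⟩ := A.equi F hF (rot (exp (t * I)) (exp_ne_zero _)) (ε / 2)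
        (by linarith)
      obtain ⟨N1, hN1⟩ := (Metric.tendsto_atTop.1 (h t)) (ε / 2) (by linarith)
      have hcont : Continuous fun s : ℝ => exp (s * I) := by fun_prop
      have hnh : {s : ℝ | ‖exp (s * I) - exp (t * I)‖ < δ} ∈ 𝓝 t := by
        have := (hcont.tendsto t) (Metric.ball_mem_nhds _ hδ)
        filter_upwards [this] with s hs
        have h5 : dist (exp (s * I)) (exp (t * I)) < δ := hs
        rwa [dist_eq_norm] at h5
      refine ⟨_, mem_nhdsWithin_of_mem_nhds hnh, max N0 N1, fun N hN s hs => ?_⟩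
      have b1 := hN0 N (le_trans (le_max_left _ _) hN) (rot (exp (s * I)) (exp_ne_zero _))
        (by rw [rot_apply, rot_apply, mul_one, mul_one]; exact hs)
        (by
          rw [rot_apply, rot_apply, ← sub_mul, norm_mul, norm_I, mul_one]; exact hs)
      have b2 := hN1 N (le_trans (le_max_right _ _) hN)
      rw [Real.dist_eq, sub_zero] at b2
      have b3 : M N (fun x => F (act (rot (exp (s * I)) (exp_ne_zero _)) x)) - M N F =
        (M N (fun x => F (act (rot (exp (s * I)) (exp_ne_zero _)) x)) -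
          M N (fun x => F (act (rot (exp (t * I)) (exp_ne_zero _)) x))) +
        (M N (fun x => F (act (rot (exp (t * I)) (exp_ne_zero _)) x)) - M N F) := by ring
      rw [b3]
      exact (abs_add_le _ _).trans (by linarith)
  obtain ⟨N0, hN0⟩ := key
  refine ⟨N0, fun N hN t => ?_⟩
  have h2pi : 0 < 2 * Real.pi := by positivity
  set s := toIcoMod h2pi 0 t with hs
  have hsI : s ∈ Icc (0 : ℝ) (2 * Real.pi) := by
    have := toIcoMod_mem_Ico h2pi 0 t
    rw [zero_add] at this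
    exact ⟨this.1, this.2.le⟩
  have he : exp (t * I) = exp (s * I) := by
    have h6 : t = s + toIcoDiv h2pi 0 t • (2 * Real.pi) := (toIcoMod_add_toIcoDiv_zsmul h2pi 0 t).symm
    conv_lhs => rw [h6]
    rw [zsmul_eq_mul]
    push_cast
    rw [show ((s : ℂ) + (toIcoDiv h2pi 0 t : ℂ) * (2 * Real.pi)) * I =
      s * I + (toIcoDiv h2pi 0 t : ℂ) * (2 * Real.pi * I) by ring, exp_add,
      exp_int_mul_two_pi_mul_I, mul_one]
  have hr : rot (exp (t * I)) (exp_ne_zero _) = rot (exp (s * I)) (exp_ne_zero _) := by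
    apply LG_ext
    intro z
    rw [rot_apply, rot_apply, he]
  rw [hr]
  exact hN0 N hN s hsI

/-- **the generators are asymptotically in `so(2)`** -/
theorem gen_so2 (A : Asy act 𝓕 M) {D : X → ℝ} {Fr : ℝ → X → ℝ} (K : Mass act 𝓕 M D Fr)
    (hR : ∀ F ∈ 𝓕, Tendsto (fun N => M N (fun x => F (act R6 x)) - M N F) atTop (𝓝 0))
    (B : ℕ → LB) (C : ℝ) (hB1 : ∀ N, ‖B N 1‖ ≤ C) (hBI : ∀ N, ‖B N I‖ ≤ C)
    (hfl : ∀ F ∈ 𝓕, ∀ τ : ℝ, Tendsto (fun N => M N (fun x => F (act (flow (B N) τ) x)) - M N F)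
      atTop (𝓝 0)) :
    Tendsto (fun N => (B N 1).re) atTop (𝓝 0) ∧
      Tendsto (fun N => B N I - I * B N 1) atTop (𝓝 0) := by
  constructor
  · apply tendsto_of_subseq_tendsto
    intro φ hφ
    obtain ⟨ψ, hψ, B', l1, lI, ⟨b, hb⟩, -⟩ := sub_asy A K hR B C hB1 hBI hfl φ hφ
    refine ⟨ψ, ?_⟩
    have h2 := (continuous_re.tendsto _).comp l1
    have h3 : (B' 1).re = 0 := by rw [hb]; simp
    rw [h3] at h2
    exact h2
  · apply tendsto_of_subseq_tendsto
    intro φ hφ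
    obtain ⟨ψ, hψ, B', l1, lI, ⟨b, hb⟩, -⟩ := sub_asy A K hR B C hB1 hBI hfl φ hφ
    refine ⟨ψ, ?_⟩
    have h2 := lI.sub (l1.const_mul I)
    have h3 : B' I - I * B' 1 = 0 := by rw [hb, hb]; ring
    rw [h3] at h2
    exact h2

/-! ## the expansion of the diameter -/

/-- `hexp` for compact sets with the action by images -/
theorem exists_expand_diam (g : LG) (K : Set ℂ) (hK : IsCompact K) :
    ∃ k : ℕ, k < 3 ∧ Real.sqrt (nn g) * Metric.diam K ≤
      Metric.diam (g '' ((R6 ^ k : LG) '' K)) := by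
  rcases K.eq_empty_or_nonempty with rfl | hne
  · exact ⟨0, by norm_num, by simp⟩
  obtain ⟨x, hx, y, hy, hxy⟩ : ∃ x ∈ K, ∃ y ∈ K, Metric.diam K = dist x y := by
    obtain ⟨⟨x, y⟩, ⟨hx, hy⟩, h⟩ := (hK.prod hK).exists_isMaxOn (hne.prod hne)
      (continuous_dist.continuousOn)
    refine ⟨x, hx, y, hy, le_antisymm ?_ (Metric.dist_le_diam_of_mem hK.isBounded hx hy)⟩
    exact Metric.diam_le_of_forall_dist_le dist_nonneg fun a ha b hb => h (mk_mem_prod ha hb)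
  obtain ⟨k, hk, hk'⟩ := exists_expand g (x - y)
  refine ⟨k, hk, ?_⟩
  have hcomp : IsCompact (g '' ((R6 ^ k : LG) '' K)) :=
    (hK.image (R6 ^ k : LG).continuous).image g.continuous
  have h1 : dist (g ((R6 ^ k : LG) x)) (g ((R6 ^ k : LG) y)) ≤
      Metric.diam (g '' ((R6 ^ k : LG) '' K)) :=
    Metric.dist_le_diam_of_mem hcomp.isBounded (mem_image_of_mem _ (mem_image_of_mem _ hx))
      (mem_image_of_mem _ (mem_image_of_mem _ hy))
  refine le_trans ?_ h1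
  rw [hxy, dist_eq_norm, dist_eq_norm, ← map_sub, ← map_sub]
  have h2 : Real.sqrt (nn g * normSq (x - y)) ≤ Real.sqrt (normSq (g ((R6 ^ k : LG) (x - y)))) :=
    Real.sqrt_le_sqrt hk'
  rw [Real.sqrt_mul (nn_nonneg g), normSq_eq_norm_sq, normSq_eq_norm_sq,
    Real.sqrt_sq (norm_nonneg _), Real.sqrt_sq (norm_nonneg _)] at h2
  exact h2

end

end Pool.Agent.ROT
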