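import Pool.Agent.ROT.IDefs

/-!
# ROT, block I: deterministic geometry (helper11)

`near_of_ne` : corners with different parity have the path between them; `touch` : if the pattern of a net of
points is locally constant near a vertex of the path, the path has a near self touch.
-/

set_option autoImplicit false

namespace Pool.Agent.ROT.I

open Finset Pool.Agent.ROT.Par

noncomputable section

theorem nsq (x y : ℝ) : ‖x • e1 + y • e2‖ ^ 2 = 3 * (x ^ 2 + x * y + y ^ 2) := by
  rw [← Complex.normSq_eq_norm_sq, Complex.normSq_apply]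
  have h3 : √(3 : ℝ) * √3 = 3 := Real.mul_self_sqrt (by norm_num)
  simp only [e1, e2, Complex.add_re, Complex.add_im, Complex.real_smul, Complex.mul_re, Complex.mul_im,
    Complex.ofReal_re, Complex.ofReal_im, zero_mul, sub_zero, add_zero, mul_zero]
  linear_combination (x / 2 + y) ^ 2 * h3

theorem abs_fst_le (x y : ℝ) : |x| ≤ ‖x • e1 + y • e2‖ := by
  refine abs_le_of_sq_le_sq ?_ (norm_nonneg _)
  rw [nsq]
  nlinarith [sq_nonneg (y + x / 2), sq_nonneg x]

theorem abs_snd_le (x y : ℝ) : |y| ≤ ‖x • e1 + y • e2‖ := by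
  refine abs_le_of_sq_le_sq ?_ (norm_nonneg _)
  rw [nsq]
  nlinarith [sq_nonneg (x + y / 2), sq_nonneg y]

theorem norm_le_of {x y r : ℝ} (hx : |x| ≤ r) (hy : |y| ≤ r) : ‖x • e1 + y • e2‖ ≤ 3 * r := by
  have hr : 0 ≤ r := (abs_nonneg _).trans hx
  have h1 : x ^ 2 ≤ r ^ 2 := sq_le_sq' (abs_le.1 hx).1 (abs_le.1 hx).2
  have h2 : y ^ 2 ≤ r ^ 2 := sq_le_sq' (abs_le.1 hy).1 (abs_le.1 hy).2
  have h3 : ‖x • e1 + y • e2‖ ^ 2 ≤ (3 * r) ^ 2 := by
    rw [nsq]
    nlinarith [sq_nonneg (x - y)]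
  exact (abs_le_of_sq_le_sq' h3 (by positivity)).2

theorem sc_sub (N : ℕ) (a b : Pt) : sc N a - sc N b =
    (((a.1 - b.1 : ℤ) : ℝ) / N) • e1 + (((a.2 - b.2 : ℤ) : ℝ) / N) • e2 := by
  simp only [sc]
  push_cast
  rw [sub_div, sub_div, sub_smul, sub_smul]
  abel

theorem dist_sc_up {N : ℕ} (hN : 0 < N) {r : ℤ} {a b : Pt} (h : Nr r a b) :
    dist (sc N a) (sc N b) ≤ 3 * (r / N) := by
  rw [dist_eq_norm, sc_sub]
  have hN' : (0 : ℝ) < N := by exact_mod_cast hN
  apply norm_le_of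
  · rw [abs_div, abs_of_pos hN']
    have : ((|a.1 - b.1| : ℤ) : ℝ) ≤ r := by exact_mod_cast h.1
    push_cast at this ⊢
    gcongr
  · rw [abs_div, abs_of_pos hN']
    have : ((|a.2 - b.2| : ℤ) : ℝ) ≤ r := by exact_mod_cast h.2
    push_cast at this ⊢
    gcongr

theorem fst_le_dist {N : ℕ} (hN : 0 < N) (a b : Pt) : |((a.1 - b.1 : ℤ) : ℝ)| ≤ N * dist (sc N a) (sc N b) := by
  have hN' : (0 : ℝ) < N := by exact_mod_cast hN
  have := abs_fst_le (((a.1 - b.1 : ℤ) : ℝ) / N) (((a.2 - b.2 : ℤ) : ℝ) / N)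
  rw [← sc_sub, ← dist_eq_norm, abs_div, abs_of_pos hN', div_le_iff₀ hN'] at this
  linarith

theorem snd_le_dist {N : ℕ} (hN : 0 < N) (a b : Pt) : |((a.2 - b.2 : ℤ) : ℝ)| ≤ N * dist (sc N a) (sc N b) := by
  have hN' : (0 : ℝ) < N := by exact_mod_cast hN
  have := abs_snd_le (((a.1 - b.1 : ℤ) : ℝ) / N) (((a.2 - b.2 : ℤ) : ℝ) / N)
  rw [← sc_sub, ← dist_eq_norm, abs_div, abs_of_pos hN', div_le_iff₀ hN'] at this
  linarith

theorem Nr_of_dist {N : ℕ} (hN : 0 < N) {a b : Pt} {d : ℝ} (h : dist (sc N a) (sc N b) ≤ d) :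
    Nr ⌊(N : ℝ) * d⌋ a b := by
  have hN' : (0 : ℝ) < N := by exact_mod_cast hN
  constructor
  · apply Int.le_floor.2
    have := fst_le_dist hN a b
    push_cast at this ⊢
    calc _ ≤ _ := this
      _ ≤ _ := by gcongr
  · apply Int.le_floor.2
    have := snd_le_dist hN a b
    push_cast at this ⊢
    calc _ ≤ _ := this
      _ ≤ _ := by gcongr

/-- corners of different parity: the path comes near -/
theorem near_of_ne {n : ℕ} {v : ℕ → Pt} (h : Clo n v) {a b : Pt} {N : ℕ} (hN : 0 < N) {d : ℝ}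
    (hd : dist (sc N a) (sc N b) ≤ d) (hne : Par.sg n v a.1 a.2 ≠ Par.sg n v b.1 b.2) :
    ∃ t < n, dist (sc N (v t)) (sc N a) ≤ 3 * (d + 1 / N) := by
  have hN' : (0 : ℝ) < N := by exact_mod_cast hN
  have hs := Lc_sum h a b
  have hz : Par.sg n v a.1 a.2 + Par.sg n v b.1 b.2 ≠ 0 := by
    intro h0
    apply hne
    have := add_self2 (Par.sg n v b.1 b.2)
    exact add_right_cancel (h0.trans this.symm)
  rw [← hs] at hz
  obtain ⟨t, ht, hc⟩ := exists_ne_zero_of_sum_ne_zero hz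
  rw [mem_range] at ht
  refine ⟨t, ht, ?_⟩
  have := (Lc_near (h.stp t ht) (Nr_of_dist hN hd) hc).1
  refine (dist_sc_up hN this).trans ?_
  have h1 : ((⌊(N : ℝ) * d⌋ + 1 : ℤ) : ℝ) ≤ N * d + 1 := by
    push_cast
    linarith [Int.floor_le ((N : ℝ) * d)]
  have h2 : ((⌊(N : ℝ) * d⌋ + 1 : ℤ) : ℝ) / N ≤ d + 1 / N := by
    rw [div_le_iff₀ hN', add_mul, one_div_mul_cancel hN'.ne']
    linarith
  linarith

/-- **near self touch**, the path starts at the given place -/
theorem touch {n : ℕ} {v : ℕ → Pt} (h : Clo n v) {N : ℕ} {m : ℕ} (P : Fin m → ℂ) (q : Fin m → Pt)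
    {δ Λ s ρ : ℝ} (hδ : 0 < δ) (hΛ : 1 ≤ Λ) (g : ℂ → ℂ)
    (hg : ∀ z w, dist (g z) (g w) ≤ Λ * dist z w) (hg' : ∀ z w, dist z w ≤ Λ * dist (g z) (g w))
    (hq : ∀ i, dist (g (sc N (q i))) (P i) ≤ δ)
    (cov : ∀ z, dist z (g (sc N (v 0))) ≤ 1 → ∃ i, dist z (P i) ≤ δ)
    (hN : 3 * Λ / δ ≤ N) (hs1 : 3 * Λ * s ≤ 1) (hs2 : 3 * Λ * s + δ ≤ ρ) (hs3 : 8 * Λ * δ ≤ s)
    {k : ℕ} (hk : k ≤ n) (far : 12 * s ≤ dist (sc N (v k)) (sc N (v 0)))
    (no : ∀ i j, dist (P i) (g (sc N (v 0))) ≤ ρ → dist (P i) (P j) ≤ 4 * δ →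
      Par.sg n v (q i).1 (q i).2 = Par.sg n v (q j).1 (q j).2) :
    NTp n v (18 * Λ * (δ * N)) (s / 2 * N) := by
  classical
  have hΛ0 : 0 < Λ := by linarith
  have hs : 0 < s := by nlinarith
  have hNr : (0 : ℝ) < N := lt_of_lt_of_le (by positivity) hN
  have hN0 : 0 < N := by exact_mod_cast hNr
  have hδN : 3 * Λ ≤ δ * N := by
    rw [div_le_iff₀ hδ] at hN
    linarith
  -- the mesh
  set D : ℤ := ⌊δ * N / (3 * Λ)⌋ with hD
  have hD1 : 1 ≤ D := by
    apply Int.le_floor.2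
    push_cast
    rw [le_div_iff₀ (by positivity)]
    linarith
  have hDle : (D : ℝ) ≤ δ * N / (3 * Λ) := Int.floor_le _
  have hDle' : (D : ℝ) * (3 * Λ) ≤ δ * N := by rwa [le_div_iff₀ (by positivity)] at hDle
  have hDr : (1 : ℝ) ≤ D := by exact_mod_cast hD1
  set E : ℤ := ⌊(N : ℝ) * (Λ * (2 * δ))⌋ with hE
  have hEle : (E : ℝ) ≤ N * (Λ * (2 * δ)) := Int.floor_le _
  set A : ℕ := ⌊s * N / D⌋₊ with hA
  have hDsN : (D : ℝ) ≤ s * N := by nlinarith
  have hA1 : 1 ≤ A := by
    apply Nat.le_floor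
    push_cast
    rw [le_div_iff₀ (by linarith)]
    linarith
  have hAD : (A : ℝ) * D ≤ s * N := by
    have : (A : ℝ) ≤ s * N / D := Nat.floor_le (by positivity)
    rwa [le_div_iff₀ (by linarith)] at this
  have hAD' : s * N - D ≤ (A : ℝ) * D := by
    have : s * N / D < A + 1 := Nat.lt_floor_add_one _
    rw [div_lt_iff₀ (by linarith)] at this
    linarith
  set X : ℤ := (v 0).1 - A * D with hX
  set Y : ℤ := (v 0).2 - A * D with hY
  set yy : ℕ → ℕ → Pt := fun i j => (X + i * D, Y + j * D) with hyy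
  have hbox : ∀ i j : ℕ, i ≤ 2 * A → j ≤ 2 * A → Nr (A * D) (yy i j) (v 0) := by
    intro i j hi hj
    have h1 : (i : ℤ) ≤ 2 * A := by exact_mod_cast hi
    have h2 : (j : ℤ) ≤ 2 * A := by exact_mod_cast hj
    have h3 : (0 : ℤ) ≤ i := Int.natCast_nonneg _
    have h4 : (0 : ℤ) ≤ j := Int.natCast_nonneg _
    simp only [Nr, hyy, hX, hY, abs_le]
    constructor <;> constructor <;> nlinarith
  have hnear : ∀ i j : ℕ, i ≤ 2 * A → j ≤ 2 * A → dist (g (sc N (yy i j))) (g (sc N (v 0))) ≤ 3 * Λ * s := by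
    intro i j hi hj
    have h1 := dist_sc_up hN0 (hbox i j hi hj)
    have h2 : (((A : ℤ) * D : ℤ) : ℝ) / N ≤ s := by
      rw [div_le_iff₀ hNr]
      push_cast
      exact hAD
    calc _ ≤ Λ * dist (sc N (yy i j)) (sc N (v 0)) := hg _ _
      _ ≤ Λ * (3 * s) := by gcongr; linarith
      _ = _ := by ring
  have hex : ∀ i j : ℕ, i ≤ 2 * A → j ≤ 2 * A → ∃ l, dist (g (sc N (yy i j))) (P l) ≤ δ := fun i j hi hj =>
    cov _ ((hnear i j hi hj).trans hs1)
  set p : ℕ → ℕ → Pt := fun i j => if hh : ∃ l, dist (g (sc N (yy i j))) (P l) ≤ δ then q hh.choose else yy i j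
    with hp
  have hpq : ∀ i j : ℕ, i ≤ 2 * A → j ≤ 2 * A → ∃ l, p i j = q l ∧ dist (g (sc N (yy i j))) (P l) ≤ δ := by
    intro i j hi hj
    have hh := hex i j hi hj
    exact ⟨hh.choose, by simp only [hp]; rw [dif_pos hh], hh.choose_spec⟩
  have hpE : ∀ i j : ℕ, i ≤ 2 * A → j ≤ 2 * A → Nr E (p i j) (yy i j) := by
    intro i j hi hj
    obtain ⟨l, e, hl⟩ := hpq i j hi hj
    rw [e]
    apply Nr_of_dist hN0
    calc dist (sc N (q l)) (sc N (yy i j)) ≤ Λ * dist (g (sc N (q l))) (g (sc N (yy i j))) := hg' _ _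
      _ ≤ Λ * (2 * δ) := by
        gcongr
        calc _ ≤ dist (g (sc N (q l))) (P l) + dist (P l) (g (sc N (yy i j))) := dist_triangle _ _ _
          _ ≤ _ := by rw [dist_comm (P l)]; linarith [hq l]
  have heq : ∀ i j i' j' : ℕ, i ≤ 2 * A → j ≤ 2 * A → i' ≤ 2 * A → j' ≤ 2 * A → Nr D (yy i j) (yy i' j') →
      Par.sg n v (p i j).1 (p i j).2 = Par.sg n v (p i' j').1 (p i' j').2 := by
    intro i j i' j' hi hj hi' hj' hd
    obtain ⟨l, e, hl⟩ := hpq i j hi hj
    obtain ⟨l', e', hl'⟩ := hpq i' j' hi' hj'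
    rw [e, e']
    apply no
    · calc _ ≤ dist (P l) (g (sc N (yy i j))) + dist (g (sc N (yy i j))) (g (sc N (v 0))) := dist_triangle _ _ _
        _ ≤ _ := by rw [dist_comm (P l)]; linarith [hnear i j hi hj]
    · have h1 := dist_sc_up hN0 hd
      have h2 : (D : ℝ) / N * (3 * Λ) ≤ δ := by
        rw [div_mul_eq_mul_div, div_le_iff₀ hNr]
        exact hDle'
      have h3 : dist (g (sc N (yy i j))) (g (sc N (yy i' j'))) ≤ δ := by
        calc _ ≤ Λ * dist (sc N (yy i j)) (sc N (yy i' j')) := hg _ _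
          _ ≤ Λ * (3 * (D / N)) := by gcongr
          _ ≤ _ := by linarith
      calc dist (P l) (P l') ≤ dist (P l) (g (sc N (yy i j))) + dist (g (sc N (yy i j))) (g (sc N (yy i' j'))) +
            dist (g (sc N (yy i' j'))) (P l') := dist_triangle4 _ _ _ _
        _ ≤ _ := by rw [dist_comm (P l)]; linarith
  have hADpos : 0 < (A : ℤ) * D := by positivity
  have key := par2 (n := n) (k := k) h hk (D := D) (E := E) (by linarith) (x := X) (y := Y) (a := 2 * A) (b := 2 * A)
    (by omega) (by omega) ?_ ?_ p ?_ ?_ ?_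
  · obtain ⟨i0, j0, hi0, hj0, hb, i, hi, j, hkj, hj, n1, n2⟩ := key
    have hW : ((D + E + 1 : ℤ) : ℝ) ≤ 3 * Λ * (δ * N) := by
      push_cast
      have : (1 : ℝ) ≤ Λ ^ 2 := by nlinarith
      have h1 : (D : ℝ) + 1 ≤ δ * N * Λ := by
        have : (D : ℝ) * 3 ≤ (D : ℝ) * (3 * Λ) := by nlinarith
        nlinarith
      nlinarith
    have hWpos : (0 : ℝ) ≤ ((D + E + 1 : ℤ) : ℝ) := by
      have : (0 : ℤ) ≤ D + E + 1 := (abs_nonneg _).trans n1.1
      exact_mod_cast this
    have sm : D + E + 1 ≤ D + E + 1 := le_rfl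
    -- real forms
    have r1 : |((v i).1 : ℝ) - (yy i0 j0).1| ≤ 3 * Λ * (δ * N) := by
      have : ((|(v i).1 - (yy i0 j0).1| : ℤ) : ℝ) ≤ ((D + E + 1 : ℤ) : ℝ) := by exact_mod_cast n1.1
      push_cast at this hW
      exact this.trans hW
    have r2 : |((v i).2 : ℝ) - (yy i0 j0).2| ≤ 3 * Λ * (δ * N) := by
      have : ((|(v i).2 - (yy i0 j0).2| : ℤ) : ℝ) ≤ ((D + E + 1 : ℤ) : ℝ) := by exact_mod_cast n1.2
      push_cast at this hW
      exact this.trans hW
    have q1 : |((yy i0 j0).1 : ℝ) - (v 0).1| ≤ s * N := by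
      have : ((|(yy i0 j0).1 - (v 0).1| : ℤ) : ℝ) ≤ ((A * D : ℤ) : ℝ) := by exact_mod_cast (hbox i0 j0 hi0 hj0).1
      push_cast at this
      exact this.trans hAD
    have q2 : |((yy i0 j0).2 : ℝ) - (v 0).2| ≤ s * N := by
      have : ((|(yy i0 j0).2 - (v 0).2| : ℤ) : ℝ) ≤ ((A * D : ℤ) : ℝ) := by exact_mod_cast (hbox i0 j0 hi0 hj0).2
      push_cast at this
      exact this.trans hAD
    have big : s * N / 2 ≤ s * N - D - 3 * Λ * (δ * N) := by nlinarith
    have kn : k % n = k := Nat.mod_eq_of_lt (by omega)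
    have iN : i % n = i := Nat.mod_eq_of_lt (by omega)
    have jN : j % n = j := Nat.mod_eq_of_lt hj
    refine ⟨i, k, j, n, hi.le, hkj, hj.le, by omega, ?_, ?_, ?_⟩
    · rw [iN, jN]
      have nr : Nr (2 * (D + E + 1)) (v i) (v j) := by
        have a1 := abs_le.1 n1.1
        have a2 := abs_le.1 n1.2
        have b1 := abs_le.1 n2.1
        have b2 := abs_le.1 n2.2
        simp only [Nr, abs_le]
        constructor <;> constructor <;> linarith [a1.1, a1.2, a2.1, a2.2, b1.1, b1.2, b2.1, b2.2]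
      have := dist_sc_up (N := 1) one_pos nr
      push_cast at this hW
      linarith
    · rw [iN, kn]
      -- far from `v k`
      have f1 : 4 * s * N ≤ |((v k).1 : ℝ) - (v 0).1| ∨ 4 * s * N ≤ |((v k).2 : ℝ) - (v 0).2| := by
        by_contra hcon
        push Not at hcon
        obtain ⟨c1, c2⟩ := hcon
        have hc : ‖(((v k).1 - (v 0).1 : ℤ) / (N : ℝ)) • e1 + (((v k).2 - (v 0).2 : ℤ) / (N : ℝ)) • e2‖ < 12 * s := by
          set M := max |((v k).1 : ℝ) - (v 0).1| |((v k).2 : ℝ) - (v 0).2| with hM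
          have hM4 : M < 4 * s * N := max_lt c1 c2
          have := norm_le_of (x := ((v k).1 - (v 0).1 : ℤ) / (N : ℝ)) (y := ((v k).2 - (v 0).2 : ℤ) / (N : ℝ))
            (r := M / N) (by
              rw [abs_div, abs_of_pos hNr]
              push_cast
              gcongr
              exact le_max_left _ _) (by
              rw [abs_div, abs_of_pos hNr]
              push_cast
              gcongr
              exact le_max_right _ _)
          refine this.trans_lt ?_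
          have h5 : M / N < 4 * s := by rwa [div_lt_iff₀ hNr]
          linarith
        rw [← sc_sub, ← dist_eq_norm] at hc
        linarith
      rcases f1 with f1 | f1
      · have := fst_le_dist (N := 1) one_pos (v i) (v k)
        push_cast at this
        rw [one_mul] at this
        refine le_trans ?_ this
        have t1 := abs_sub_abs_le_abs_sub ((v k).1 - (v 0).1 : ℝ) ((v i).1 - (v 0).1 : ℝ)
        have t2 : |((v i).1 : ℝ) - (v 0).1| ≤ s * N + 3 * Λ * (δ * N) := by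
          calc |((v i).1 : ℝ) - (v 0).1| ≤ |((v i).1 : ℝ) - (yy i0 j0).1| + |((yy i0 j0).1 : ℝ) - (v 0).1| :=
                abs_sub_le _ _ _
            _ ≤ _ := by linarith
        have t3 : |((v k).1 - (v 0).1 : ℝ) - ((v i).1 - (v 0).1 : ℝ)| = |((v i).1 : ℝ) - (v k).1| := by
          rw [abs_sub_comm]; congr 1; ring
        rw [t3] at t1
        nlinarith
      · have := snd_le_dist (N := 1) one_pos (v i) (v k)
        push_cast at this
        rw [one_mul] at this
        refine le_trans ?_ this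
        have t1 := abs_sub_abs_le_abs_sub ((v k).2 - (v 0).2 : ℝ) ((v i).2 - (v 0).2 : ℝ)
        have t2 : |((v i).2 : ℝ) - (v 0).2| ≤ s * N + 3 * Λ * (δ * N) := by
          calc |((v i).2 : ℝ) - (v 0).2| ≤ |((v i).2 : ℝ) - (yy i0 j0).2| + |((yy i0 j0).2 : ℝ) - (v 0).2| :=
                abs_sub_le _ _ _
            _ ≤ _ := by linarith
        have t3 : |((v k).2 - (v 0).2 : ℝ) - ((v i).2 - (v 0).2 : ℝ)| = |((v i).2 : ℝ) - (v k).2| := by
          rw [abs_sub_comm]; congr 1; ring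
        rw [t3] at t1
        nlinarith
    · rw [iN, Nat.mod_self]
      -- far from `v 0`
      have hADr : s * N - D ≤ (A : ℝ) * D := hAD'
      have side : (A : ℝ) * D ≤ |((yy i0 j0).1 : ℝ) - (v 0).1| ∨ (A : ℝ) * D ≤ |((yy i0 j0).2 : ℝ) - (v 0).2| := by
        have hAD0 : (0 : ℝ) ≤ (A : ℝ) * D := by positivity
        rcases hb with e | e | e | e
        · left
          have : ((yy i0 j0).1 : ℝ) - (v 0).1 = -((A : ℝ) * D) := by
            simp only [hyy, hX, e]; push_cast; ring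
          rw [this, abs_neg, abs_of_nonneg hAD0]
        · left
          have : ((yy i0 j0).1 : ℝ) - (v 0).1 = (A : ℝ) * D := by
            simp only [hyy, hX, e]; push_cast; ring
          rw [this, abs_of_nonneg hAD0]
        · right
          have : ((yy i0 j0).2 : ℝ) - (v 0).2 = -((A : ℝ) * D) := by
            simp only [hyy, hY, e]; push_cast; ring
          rw [this, abs_neg, abs_of_nonneg hAD0]
        · right
          have : ((yy i0 j0).2 : ℝ) - (v 0).2 = (A : ℝ) * D := by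
            simp only [hyy, hY, e]; push_cast; ring
          rw [this, abs_of_nonneg hAD0]
      rcases side with sd | sd
      · have := fst_le_dist (N := 1) one_pos (v i) (v 0)
        push_cast at this
        rw [one_mul] at this
        refine le_trans ?_ this
        have t : |((yy i0 j0).1 : ℝ) - (v 0).1| ≤ |((yy i0 j0).1 : ℝ) - (v i).1| + |((v i).1 : ℝ) - (v 0).1| :=
          abs_sub_le _ _ _
        rw [abs_sub_comm ((yy i0 j0).1 : ℝ) ((v i).1 : ℝ)] at t
        linarith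
      · have := snd_le_dist (N := 1) one_pos (v i) (v 0)
        push_cast at this
        rw [one_mul] at this
        refine le_trans ?_ this
        have t : |((yy i0 j0).2 : ℝ) - (v 0).2| ≤ |((yy i0 j0).2 : ℝ) - (v i).2| + |((v i).2 : ℝ) - (v 0).2| :=
          abs_sub_le _ _ _
        rw [abs_sub_comm ((yy i0 j0).2 : ℝ) ((v i).2 : ℝ)] at t
        linarith
  · -- `v 0` inside
    simp only [Rc, hX, hY]
    push_cast
    refine ⟨by linarith, by nlinarith, by linarith, by nlinarith⟩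
  · -- `v k` outside
    intro hin
    simp only [Rc, hX, hY, Set.mem_ofPred_eq] at hin
    push_cast at hin
    obtain ⟨c1, c2, c3, c4⟩ := hin
    have nr : Nr (A * D) (v k) (v 0) := by
      simp only [Nr, abs_le]
      constructor <;> constructor <;> linarith
    have := dist_sc_up hN0 nr
    have h2 : (((A : ℤ) * D : ℤ) : ℝ) / N ≤ s := by
      rw [div_le_iff₀ hNr]
      push_cast
      exact hAD
    linarith
  · intro i j hi hj _
    exact hpE i j hi hj
  · intro i j hi hj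
    have hj' : j ≤ 2 * A := by omega
    apply heq i j (i + 1) j (by omega) hj' (by omega) hj'
    simp only [Nr, hyy]
    push_cast
    constructor
    · rw [show X + (i : ℤ) * D - (X + ((i : ℤ) + 1) * D) = -D by ring, abs_neg, abs_of_nonneg (by linarith)]
    · rw [sub_self, abs_zero]; linarith
  · intro i j hj hi
    have hi' : i ≤ 2 * A := by omega
    apply heq i j i (j + 1) hi' (by omega) hi' (by omega)
    simp only [Nr, hyy]
    push_cast
    constructor
    · rw [sub_self, abs_zero]; linarith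
    · rw [show Y + (j : ℤ) * D - (Y + ((j : ℤ) + 1) * D) = -D by ring, abs_neg, abs_of_nonneg (by linarith)]

end

end Pool.Agent.ROT.I
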