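import Pool.Agent.ROT.ESym
import Pool.Agent.ROT.IGeo

/-!
# ROT, block I: bounds of the masses (helper11)

* `mu_tr` : the measure `mu` is invariant under translations;
* `mu_cover` : sets of loops by their translation classes;
* `hits_bdd` : `mu (Hits N R ∩ Big N r)` is bounded, from `Mass` and `Far`;
* `hits_nt` : near self touches are rare, from `NTS` and `Far`;
* `PP_bdd` : patterns with two inside points and an outside point have bounded mass.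
-/

set_option autoImplicit false

namespace Pool.Agent.ROT.I

open MeasureTheory Filter Topology
open Pool.Agent.ROT.E (Cfg Lp)

noncomputable section

theorem mu_ap (S : Set Lps) : mu S = ∑' γ : Lps, ENNReal.ofReal (M1 γ.1) * S.indicator 1 γ := by
  have hS : MeasurableSet S := trivial
  unfold mu
  rw [Measure.sum_apply _ hS]
  refine tsum_congr fun γ => ?_
  rw [Measure.smul_apply, Measure.dirac_apply' _ hS, smul_eq_mul]

/-! ### translations -/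

/-- translation of loops -/
def tr (a : Pt) : Lps ≃ Lps := (E.trS a).eqC.subtypeEquiv fun γ => ((E.trS a).lp_iff γ).symm

theorem tr_add (a : Pt) (γ : Lps) (v : Pt) : (tr a γ).1 (v + a) = γ.1 v := (E.trS a).ac_apply γ.1 v

theorem tr_ap (a : Pt) (γ : Lps) (v : Pt) : (tr a γ).1 v = γ.1 (v - a) := by
  have := tr_add a γ (v - a)
  rwa [sub_add_cancel] at this

theorem tr_supp (a : Pt) (γ : Lps) : (tr a γ).1.support = γ.1.support.map (Equiv.addRight a).toEmbedding := by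
  ext v
  rw [Finsupp.mem_support_iff, tr_ap, Finset.mem_map]
  constructor
  · intro h
    exact ⟨v - a, Finsupp.mem_support_iff.2 h, by simp⟩
  · rintro ⟨w, hw, rfl⟩
    simpa using hw

theorem tr_tr (a b : Pt) (γ : Lps) : tr a (tr b γ) = tr (b + a) γ := by
  apply Subtype.ext
  ext v
  rw [tr_ap, tr_ap, tr_ap]
  congr 1
  abel

theorem tr_zero (γ : Lps) : tr 0 γ = γ := by
  apply Subtype.ext
  ext v
  rw [tr_ap, sub_zero]

theorem tr_neg (a : Pt) (γ : Lps) : tr (-a) (tr a γ) = γ := by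
  rw [tr_tr, add_neg_cancel, tr_zero]

theorem M1_tr (a : Pt) (γ : Lps) : M1 (tr a γ).1 = M1 γ.1 := by
  unfold M1
  rw [Finsupp.prod, Finsupp.prod, tr_supp, Finset.prod_map]
  refine Finset.prod_congr rfl fun v _ => ?_
  have e : (Equiv.addRight a).toEmbedding v = v + a := rfl
  rw [e, tr_add]

theorem mu_tr (a : Pt) (S : Set Lps) : mu (tr a ⁻¹' S) = mu S := by
  rw [mu_ap, mu_ap, ← (tr a).tsum_eq (fun γ : Lps => ENNReal.ofReal (M1 γ.1) * S.indicator 1 γ)]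
  refine tsum_congr fun γ => ?_
  rw [M1_tr]
  rfl

theorem sg_tr (a : Pt) (γ : Lps) (p y : ℤ) : E.sg (tr a γ).1 (p + a.1) (y + a.2) = E.sg γ.1 p y := by
  classical
  unfold E.sg
  rw [tr_supp, Finset.sum_map]
  refine Finset.sum_congr rfl fun v _ => ?_
  have e : (Equiv.addRight a).toEmbedding v = v + a := rfl
  rw [e]
  have h1 : ((v + a).1 = p + a.1 ∧ y + a.2 ≤ (v + a).2) ↔ (v.1 = p ∧ y ≤ v.2) := by
    simp only [Prod.fst_add, Prod.snd_add]
    constructor <;> rintro ⟨h1, h2⟩ <;> constructor <;> omega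
  have h2 : E.io (tr a γ).1 (v + a) .W = E.io γ.1 v .W := E.io_eq ((E.trS a).oc_iff γ.1 (v, .W))
  simp only [h1, h2]

theorem pat_tr {m : ℕ} (a : Pt) (γ : Lps) (q : Fin m → Pt) : pat (tr a γ).1 (fun i => q i + a) = pat γ.1 q := by
  funext i
  exact sg_tr a γ _ _

theorem PP_tr {m : ℕ} (a : Pt) (τ : Fin m → ZMod 2) (q : Fin m → Pt) : PP τ (fun i => q i + a) = PP τ q := by
  unfold PP
  rw [measureReal_def, measureReal_def, ← mu_tr a {γ | pat γ.1 (fun i => q i + a) = τ}]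
  congr 2
  ext γ
  simp only [Set.mem_preimage, Set.mem_ofPred_eq, pat_tr]

theorem sc_ad (N : ℕ) (a b : Pt) : sc N (a + b) = sc N a + sc N b := by
  simp only [sc, Prod.fst_add, Prod.snd_add]
  push_cast
  rw [add_div, add_div, add_smul, add_smul]
  abel

theorem sc_zero (N : ℕ) : sc N 0 = 0 := by
  simp [sc]

theorem sd_add (a b c : Pt) : Par.sd (a + c) (b + c) =
    ((Par.sd a b).1, (Par.sd a b).2.1 + c.1, (Par.sd a b).2.2 + c.2) := by
  unfold Par.sd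
  simp only [Prod.fst_add, Prod.snd_add, add_left_inj]
  split_ifs
  · rw [max_add_add_right]
  · rw [max_add_add_right]

theorem psg_add (n : ℕ) (v : ℕ → Pt) (a : Pt) (p y : ℤ) :
    Par.sg n (fun t => v t + a) (p + a.1) (y + a.2) = Par.sg n v p y := by
  unfold Par.sg
  refine Finset.sum_congr rfl fun i _ => ?_
  simp only [sd_add, ne_eq, add_left_inj, add_le_add_iff_right]

theorem Rep_tr {γ : Lps} {n : ℕ} {v : ℕ → Pt} (h : Rep γ.1 n v) (a : Pt) : Rep (tr a γ).1 n fun t => v t + a where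
  clo := by
    refine ⟨by simp only [h.clo.per], fun i hi => ?_⟩
    rcases h.clo.stp i hi with e | e
    · left
      simp only [e]
    · right
      simpa using e
  pos := h.pos
  supp := by
    intro p
    rw [tr_ap, h.supp]
    constructor
    · rintro ⟨i, hi, e⟩
      exact ⟨i, hi, by rw [e, sub_add_cancel]⟩
    · rintro ⟨i, hi, e⟩
      exact ⟨i, hi, by rw [← e, add_sub_cancel_right]⟩
  sg := by
    intro p y
    have h1 := psg_add n v a (p - a.1) (y - a.2)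
    have h2 := sg_tr a γ (p - a.1) (y - a.2)
    rw [sub_add_cancel, sub_add_cancel] at h1 h2
    rw [h1, h2, h.sg]

theorem NTp_tr {n : ℕ} {v : ℕ → Pt} {a : Pt} {d D : ℝ} (h : NTp n (fun t => v t + a) d D) : NTp n v d D := by
  obtain ⟨i, k, j, l, h1, h2, h3, h4, h5, h6, h7⟩ := h
  simp only [sc_ad, dist_add_right] at h5 h6 h7
  exact ⟨i, k, j, l, h1, h2, h3, h4, h5, h6, h7⟩

theorem NT_tr {γ : Lps} {d D : ℝ} (a : Pt) (h : NT γ.1 d D) : NT (tr a γ).1 d D := by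
  intro n v hv
  have h1 := Rep_tr hv (-a)
  rw [tr_neg] at h1
  have h2 := h n _ h1
  exact NTp_tr (a := -a) h2

theorem Big_tr {N : ℕ} {r : ℝ} {γ : Lps} (a : Pt) : tr a γ ∈ Big N r ↔ γ ∈ Big N r := by
  have key : ∀ (b : Pt) (γ : Lps), γ ∈ Big N r → tr b γ ∈ Big N r := by
    rintro b γ ⟨_, ⟨p, hp, rfl⟩, _, ⟨p', hp', rfl⟩, h⟩
    refine ⟨sc N (p + b), ⟨p + b, ?_, rfl⟩, sc N (p' + b), ⟨p' + b, ?_, rfl⟩, ?_⟩
    · change (tr b γ).1 (p + b) ≠ 0
      rw [tr_add]; exact hp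
    · change (tr b γ).1 (p' + b) ≠ 0
      rw [tr_add]; exact hp'
    · rw [sc_ad, sc_ad, dist_add_right]; exact h
  constructor
  · intro h
    have := key (-a) _ h
    rwa [tr_neg] at this
  · exact key a γ

theorem exists_Z0 (γ : Lps) : ∃ a, tr a γ ∈ Z0 := by
  have hne : γ.1.support.Nonempty := by
    rw [Finset.nonempty_iff_ne_empty]
    intro h
    exact γ.2.ne (Finsupp.support_eq_empty.1 h)
  obtain ⟨v, hv, h1⟩ := Finset.exists_mem_eq_inf' hne (Prod.fst : Pt → ℤ)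
  obtain ⟨w, hw, h2⟩ := Finset.exists_mem_eq_inf' hne (Prod.snd : Pt → ℤ)
  refine ⟨(-v.1, -w.2), fun u hu => ?_, ⟨v + (-v.1, -w.2), ?_, ?_⟩, w + (-v.1, -w.2), ?_, ?_⟩
  · rw [tr_ap] at hu
    have hu' := Finsupp.mem_support_iff.2 hu
    have a1 := Finset.inf'_le (Prod.fst : Pt → ℤ) hu'
    have a2 := Finset.inf'_le (Prod.snd : Pt → ℤ) hu'
    rw [h1] at a1
    rw [h2] at a2
    simp only [Prod.fst_sub, Prod.snd_sub] at a1 a2
    omega
  · rw [tr_add]; exact Finsupp.mem_support_iff.1 hv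
  · simp
  · rw [tr_add]; exact Finsupp.mem_support_iff.1 hw
  · simp

/-- **translation classes** -/
theorem mu_cover {A B : Set Lps} (hB : ∀ a γ, γ ∈ B → tr a γ ∈ B) (hAB : A ⊆ B) (k : ℕ)
    (hk : ∀ γ ∈ A, ∀ a, tr a γ ∈ Z0 → |a.1| ≤ k ∧ |a.2| ≤ k) :
    mu A ≤ ((2 * k + 1) ^ 2 : ℕ) * mu (Z0 ∩ B) := by
  have h1 : A ⊆ ⋃ a ∈ Finset.Icc (-(k : ℤ)) k ×ˢ Finset.Icc (-(k : ℤ)) k, tr a ⁻¹' (Z0 ∩ B) := by
    intro γ hγ
    obtain ⟨a, ha⟩ := exists_Z0 γ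
    obtain ⟨k1, k2⟩ := hk γ hγ a ha
    rw [abs_le] at k1 k2
    refine Set.mem_iUnion₂.2 ⟨a, ?_, ha, hB _ _ (hAB hγ)⟩
    rw [Finset.mem_product, Finset.mem_Icc, Finset.mem_Icc]
    exact ⟨k1, k2⟩
  refine (measure_mono h1).trans ((measure_biUnion_finset_le _ _).trans ?_)
  rw [Finset.sum_congr rfl fun a _ => mu_tr a _, Finset.sum_const, Finset.card_product, Int.card_Icc, nsmul_eq_mul]
  refine mul_le_mul_left (le_of_eq ?_) _
  congr 1
  rw [← sq]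
  congr 1
  omega

/-- translation classes, scaled -/
theorem hits_cls {B : Set Lps} (hB : ∀ a γ, γ ∈ B → tr a γ ∈ B) {N : ℕ} (hN : 0 < N) {R S : ℝ} (hR : 0 ≤ R)
    (hS : 0 ≤ S) : mu ((Hits N R ∩ B) \ Big N S) ≤
      ENNReal.ofReal (((2 * (R + S) + 3) * N) ^ 2) * mu ((Z0 ∩ B) \ Big N S) := by
  have hN' : (1 : ℝ) ≤ N := by exact_mod_cast hN
  have e1 : (Z0 ∩ B) \ Big N S = Z0 ∩ (B \ Big N S) := Set.inter_sdiff_assoc _ _ _
  rw [e1]
  have h1 := mu_cover (A := (Hits N R ∩ B) \ Big N S) (B := B \ Big N S)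
    (fun a γ hγ => ⟨hB a γ hγ.1, fun h => hγ.2 ((Big_tr a).1 h)⟩) (fun γ hγ => ⟨hγ.1.2, hγ.2⟩)
    ⌈(N : ℝ) * (R + S)⌉₊ ?_
  · refine h1.trans (mul_le_mul_left ?_ _)
    rw [← ENNReal.ofReal_natCast]
    apply ENNReal.ofReal_le_ofReal
    push_cast
    have h2 := (Nat.ceil_lt_add_one (show 0 ≤ (N : ℝ) * (R + S) by positivity)).le
    gcongr
    nlinarith
  · intro γ hγ a ha
    obtain ⟨⟨⟨_, ⟨p, hp, rfl⟩, hz⟩, -⟩, hS2⟩ := hγ
    have hall : ∀ u, γ.1 u ≠ 0 → ‖sc N u‖ ≤ R + S := by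
      intro u hu
      have h3 : dist (sc N u) (sc N p) < S := by
        by_contra hc
        exact hS2 ⟨_, ⟨u, hu, rfl⟩, _, ⟨p, hp, rfl⟩, not_lt.1 hc⟩
      have h4 : ‖sc N u‖ ≤ ‖sc N p‖ + dist (sc N u) (sc N p) := by
        rw [dist_eq_norm]
        calc ‖sc N u‖ = ‖sc N p + (sc N u - sc N p)‖ := by congr 1; ring
          _ ≤ _ := norm_add_le _ _
      linarith
    have hc1 : ∀ u, γ.1 u ≠ 0 → |u.1| ≤ (⌈(N : ℝ) * (R + S)⌉₊ : ℤ) ∧ |u.2| ≤ (⌈(N : ℝ) * (R + S)⌉₊ : ℤ) := by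
      intro u hu
      have h5 := fst_le_dist hN u 0
      have h6 := snd_le_dist hN u 0
      rw [sc_zero, dist_zero_right] at h5 h6
      simp only [Prod.fst_zero, Prod.snd_zero, sub_zero] at h5 h6
      have h7 : (N : ℝ) * ‖sc N u‖ ≤ N * (R + S) := by gcongr; exact hall u hu
      have h8 := Nat.le_ceil ((N : ℝ) * (R + S))
      constructor
      · have : ((|u.1| : ℤ) : ℝ) ≤ ((⌈(N : ℝ) * (R + S)⌉₊ : ℤ) : ℝ) := by
          push_cast
          linarith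
        exact_mod_cast this
      · have : ((|u.2| : ℤ) : ℝ) ≤ ((⌈(N : ℝ) * (R + S)⌉₊ : ℤ) : ℝ) := by
          push_cast
          linarith
        exact_mod_cast this
    obtain ⟨-, ⟨v, hv, hv0⟩, w, hw, hw0⟩ := ha
    rw [tr_ap] at hv hw
    have c1 := (hc1 _ hv).1
    have c2 := (hc1 _ hw).2
    rw [Prod.fst_sub, hv0, zero_sub, abs_neg] at c1
    rw [Prod.snd_sub, hw0, zero_sub, abs_neg] at c2
    exact ⟨c1, c2⟩

/-- **bounded masses** -/
theorem hits_bdd (hM : Mass) (hF : Far) (R r : ℝ) (hr : 0 < r) :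
    ∃ C : ℝ, 0 ≤ C ∧ ∀ᶠ N : ℕ in atTop, mu (Hits N R ∩ Big N r) ≤ ENNReal.ofReal C := by
  obtain ⟨C, hC⟩ := hM
  obtain ⟨S, hS⟩ := hF R 1 one_pos
  set R' := max R 0
  set S' := max S 0
  set K : ℝ := (2 * (R' + S') + 3) ^ 2 * (|C| / r ^ 2) with hK
  have hR0 : 0 ≤ R' := le_max_right _ _
  have hS0 : 0 ≤ S' := le_max_right _ _
  have hK0 : 0 ≤ K := by positivity
  refine ⟨K + 1, by positivity, ?_⟩
  filter_upwards [hC r hr, hS, eventually_gt_atTop 0] with N h1 h2 hN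
  have hN' : (0 : ℝ) < N := by exact_mod_cast hN
  have hsub : Hits N R ∩ Big N r ⊆ ((Hits N R' ∩ Big N r) \ Big N S') ∪ (Hits N R ∩ Big N S) := by
    intro γ hγ
    by_cases h : γ ∈ Big N S'
    · right
      refine ⟨hγ.1, ?_⟩
      obtain ⟨z, hz, w, hw, h3⟩ := h
      exact ⟨z, hz, w, hw, (le_max_left _ _).trans h3⟩
    · left
      obtain ⟨⟨z, hz, hzR⟩, h4⟩ := hγ
      exact ⟨⟨⟨z, hz, hzR.trans (le_max_left _ _)⟩, h4⟩, h⟩
  refine (measure_mono hsub).trans ((measure_union_le _ _).trans ?_)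
  rw [ENNReal.ofReal_add hK0 zero_le_one]
  refine add_le_add ?_ h2
  refine (hits_cls (fun a γ h => (Big_tr a).2 h) hN hR0 hS0).trans ?_
  have h5 : mu ((Z0 ∩ Big N r) \ Big N S') ≤ ENNReal.ofReal (|C| / (r * N) ^ 2) := by
    refine (measure_mono Set.sdiff_subset).trans (h1.trans (ENNReal.ofReal_le_ofReal ?_))
    gcongr
    exact le_abs_self C
  refine (mul_le_mul_right h5 _).trans ?_
  rw [← ENNReal.ofReal_mul (by positivity)]
  apply ENNReal.ofReal_le_ofReal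
  rw [hK]
  apply le_of_eq
  field_simp

/-- **near self touches are rare** -/
theorem hits_nt (hT : NTS) (hF : Far) (R r ρ ε : ℝ) (hr : 0 < r) (hρ : 0 < ρ) (hε : 0 < ε) :
    ∃ δ : ℝ, 0 < δ ∧ ∀ᶠ N : ℕ in atTop,
      mu (Hits N R ∩ Big N r ∩ {γ | NT γ.1 (δ * N) (ρ * N)}) ≤ ENNReal.ofReal ε := by
  obtain ⟨S, hS⟩ := hF R (ε / 2) (by linarith)
  set R' := max R 0
  set S' := max S 0
  have hR0 : 0 ≤ R' := le_max_right _ _
  have hS0 : 0 ≤ S' := le_max_right _ _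
  obtain ⟨δ, hδ, hT'⟩ := hT r S' ρ (ε / 2 / (2 * (R' + S') + 3) ^ 2) hr hρ (by positivity)
  refine ⟨δ, hδ, ?_⟩
  filter_upwards [hT', hS, eventually_gt_atTop 0] with N h1 h2 hN
  have hN' : (0 : ℝ) < N := by exact_mod_cast hN
  have hsub : Hits N R ∩ Big N r ∩ {γ | NT γ.1 (δ * N) (ρ * N)} ⊆
      ((Hits N R' ∩ (Big N r ∩ {γ | NT γ.1 (δ * N) (ρ * N)})) \ Big N S') ∪ (Hits N R ∩ Big N S) := by
    intro γ hγ
    by_cases h : γ ∈ Big N S'
    · right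
      refine ⟨hγ.1.1, ?_⟩
      obtain ⟨z, hz, w, hw, h3⟩ := h
      exact ⟨z, hz, w, hw, (le_max_left _ _).trans h3⟩
    · left
      obtain ⟨⟨⟨z, hz, hzR⟩, h4⟩, h5⟩ := hγ
      exact ⟨⟨⟨z, hz, hzR.trans (le_max_left _ _)⟩, h4, h5⟩, h⟩
  refine (measure_mono hsub).trans ((measure_union_le _ _).trans ?_)
  rw [show ε = ε / 2 + ε / 2 by ring, ENNReal.ofReal_add (by linarith) (by linarith)]
  refine add_le_add ?_ h2
  refine (hits_cls (B := Big N r ∩ {γ | NT γ.1 (δ * N) (ρ * N)})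
    (fun a γ h => ⟨(Big_tr a).2 h.1, NT_tr a h.2⟩) hN hR0 hS0).trans ?_
  rw [← Set.inter_assoc]
  refine (mul_le_mul_right h1 _).trans ?_
  rw [← ENNReal.ofReal_mul (by positivity)]
  apply ENNReal.ofReal_le_ofReal
  apply le_of_eq
  field_simp

/-! ### patterns -/

open Finset in
theorem near_col {n : ℕ} {v : ℕ → Pt} (h : Par.Clo n v) {p y : ℤ} (h1 : Par.sg n v p y ≠ 0) :
    ∃ t < n, |(v t).1 - p| ≤ 1 := by
  unfold Par.sg at h1
  obtain ⟨t, ht, h2⟩ := exists_ne_zero_of_sum_ne_zero h1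
  rw [mem_range] at ht
  rw [ne_eq, ite_eq_right_iff, not_forall] at h2
  obtain ⟨⟨ne, -, e, -⟩, -⟩ := h2
  have := Par.sd_near (h.stp t ht) ne
  exact ⟨t, ht, by rw [abs_le]; omega⟩

open Finset in
theorem near_row {n : ℕ} {v : ℕ → Pt} (h : Par.Clo n v) {p y : ℤ} (h1 : Par.sg n v p y ≠ 0) :
    ∃ t < n, |(v t).2 - y| ≤ 1 := by
  -- far to the right nothing
  obtain ⟨X, hX⟩ : ∃ X : ℤ, ∀ t ≤ n, (v t).1 < X := by
    obtain ⟨X, hX⟩ := ((range (n + 1)).image fun t => (v t).1).bddAbove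
    exact ⟨X + 1, fun t ht => Int.lt_add_one_iff.2 (hX (mem_coe.2 (mem_image_of_mem _ (mem_range.2 (by omega)))))⟩
  set x' := max X (p + 1) with hx'
  have h2 : Par.sg n v x' y = 0 := by
    unfold Par.sg
    refine sum_eq_zero fun t ht => if_neg ?_
    rintro ⟨ne, h3, e, -⟩
    rw [mem_range] at ht
    rcases Par.stp_cases (h.stp t ht) ne with ⟨a, b, e', ⟨ha, hb⟩ | ⟨ha, hb⟩⟩ | ⟨a, b, e', -⟩
    · have := hX (t + 1) (by omega)
      rw [e'] at e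
      rw [hb] at this
      simp only at this e
      omega
    · have := hX t (by omega)
      rw [e'] at e
      rw [ha] at this
      simp only at this e
      omega
    · rw [e'] at h3
      exact absurd h3 (by simp)
  have h3 := Par.sg_row h (x := p) (x' := x') (y := y) (by omega)
  rw [h2, add_zero] at h3
  rw [h3] at h1
  obtain ⟨t, ht, h4⟩ := exists_ne_zero_of_sum_ne_zero h1
  rw [mem_range] at ht
  rw [ne_eq, ite_eq_right_iff, not_forall] at h4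
  obtain ⟨⟨ne, -, -, -, e⟩, -⟩ := h4
  have := Par.sd_near (h.stp t ht) ne
  exact ⟨t, ht, by rw [abs_le]; omega⟩

/-- inside points are near the trace in both coordinates -/
theorem big_of_in {γ : Cfg} {n : ℕ} {v : ℕ → Pt} (h : Rep γ n v) {N : ℕ} (hN : 0 < N) {a b : Pt} {r : ℝ}
    (ha : E.sg γ a.1 a.2 ≠ 0) (hb : E.sg γ b.1 b.2 ≠ 0) (hab : r ≤ dist (sc N a) (sc N b)) (hr : 24 / r ≤ N)
    (hr0 : 0 < r) : ∃ z ∈ trc N γ, ∃ w ∈ trc N γ, r / 4 ≤ dist z w := by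
  have hN' : (0 : ℝ) < N := by exact_mod_cast hN
  rw [← h.sg] at ha hb
  rw [div_le_iff₀ hr0] at hr
  have hmem : ∀ t < n, sc N (v t) ∈ trc N γ := fun t ht => ⟨v t, (h.supp _).2 ⟨t, ht, rfl⟩, rfl⟩
  -- one coordinate is large
  have h1 : r * N / 3 ≤ |((a.1 - b.1 : ℤ) : ℝ)| ∨ r * N / 3 ≤ |((a.2 - b.2 : ℤ) : ℝ)| := by
    by_contra hc
    push Not at hc
    obtain ⟨c1, c2⟩ := hc
    have hex : ∃ s < r * N / 3, |((a.1 - b.1 : ℤ) : ℝ)| ≤ s ∧ |((a.2 - b.2 : ℤ) : ℝ)| ≤ s :=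
      ⟨max |((a.1 - b.1 : ℤ) : ℝ)| |((a.2 - b.2 : ℤ) : ℝ)|, max_lt c1 c2, le_max_left _ _, le_max_right _ _⟩
    obtain ⟨s, hs, s1, s2⟩ := hex
    have h2 : ‖(((a.1 - b.1 : ℤ) : ℝ) / N) • e1 + (((a.2 - b.2 : ℤ) : ℝ) / N) • e2‖ ≤ 3 * (s / N) := by
      apply norm_le_of
      · rw [abs_div, abs_of_pos hN']; gcongr
      · rw [abs_div, abs_of_pos hN']; gcongr
    rw [← sc_sub, ← dist_eq_norm] at h2
    have h3 : 3 * (s / N) < r := by
      rw [mul_div_assoc', div_lt_iff₀ hN']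
      linarith
    linarith
  rcases h1 with h1 | h1
  · obtain ⟨t, ht, e⟩ := near_col h.clo ha
    obtain ⟨t', ht', e'⟩ := near_col h.clo hb
    refine ⟨_, hmem t ht, _, hmem t' ht', ?_⟩
    have h2 := fst_le_dist hN (v t) (v t')
    have h3 : |((a.1 - b.1 : ℤ) : ℝ)| - 2 ≤ |(((v t).1 - (v t').1 : ℤ) : ℝ)| := by
      have h4 : |a.1 - b.1| - 2 ≤ |(v t).1 - (v t').1| := by
        have h5 := abs_le.1 e
        have h6 := abs_le.1 e'
        rcases abs_cases (a.1 - b.1) with ⟨q1, q2⟩ | ⟨q1, q2⟩ <;>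
        rcases abs_cases ((v t).1 - (v t').1) with ⟨q3, q4⟩ | ⟨q3, q4⟩ <;> omega
      have : (((|a.1 - b.1| - 2 : ℤ)) : ℝ) ≤ ((|(v t).1 - (v t').1| : ℤ) : ℝ) := by exact_mod_cast h4
      push_cast at this ⊢
      exact this
    have h7 : r * N / 3 - 2 ≤ N * dist (sc N (v t)) (sc N (v t')) := by linarith
    have h8 : r / 4 * N ≤ N * dist (sc N (v t)) (sc N (v t')) := by nlinarith
    rw [mul_comm] at h8
    exact le_of_mul_le_mul_left h8 hN'
  · obtain ⟨t, ht, e⟩ := near_row h.clo ha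
    obtain ⟨t', ht', e'⟩ := near_row h.clo hb
    refine ⟨_, hmem t ht, _, hmem t' ht', ?_⟩
    have h2 := snd_le_dist hN (v t) (v t')
    have h3 : |((a.2 - b.2 : ℤ) : ℝ)| - 2 ≤ |(((v t).2 - (v t').2 : ℤ) : ℝ)| := by
      have h4 : |a.2 - b.2| - 2 ≤ |(v t).2 - (v t').2| := by
        have h5 := abs_le.1 e
        have h6 := abs_le.1 e'
        rcases abs_cases (a.2 - b.2) with ⟨q1, q2⟩ | ⟨q1, q2⟩ <;>
        rcases abs_cases ((v t).2 - (v t').2) with ⟨q3, q4⟩ | ⟨q3, q4⟩ <;> omega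
      have : (((|a.2 - b.2| - 2 : ℤ)) : ℝ) ≤ ((|(v t).2 - (v t').2| : ℤ) : ℝ) := by exact_mod_cast h4
      push_cast at this ⊢
      exact this
    have h7 : r * N / 3 - 2 ≤ N * dist (sc N (v t)) (sc N (v t')) := by linarith
    have h8 : r / 4 * N ≤ N * dist (sc N (v t)) (sc N (v t')) := by nlinarith
    rw [mul_comm] at h8
    exact le_of_mul_le_mul_left h8 hN'

/-- patterns with two inside points and an outside point: the loop is large and comes near -/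
theorem pat_sub (hrep : ∀ γ : Lps, ∃ n v, Rep γ.1 n v) {m : ℕ} {τ : Fin m → ZMod 2} {q : Fin m → Pt} {N : ℕ}
    (hN : 0 < N) {R r : ℝ} (hr0 : 0 < r) (hr : 24 / r ≤ N) {i j k : Fin m} (hi : τ i = 1) (hj : τ j = 1)
    (hk : τ k = 0) (hR : ∀ i, ‖sc N (q i)‖ ≤ R) (hd : r ≤ dist (sc N (q i)) (sc N (q j))) :
    {γ : Lps | pat γ.1 q = τ} ⊆ Hits N (7 * R + 3) ∩ Big N (r / 4) := by
  intro γ hγ
  have hp : ∀ l, E.sg γ.1 (q l).1 (q l).2 = τ l := fun l => congrFun hγ l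
  obtain ⟨n, v, h⟩ := hrep γ
  have hN1 : (1 : ℝ) ≤ N := by exact_mod_cast hN
  constructor
  · have h1 : dist (sc N (q i)) (sc N (q k)) ≤ 2 * R := by
      calc _ ≤ ‖sc N (q i)‖ + ‖sc N (q k)‖ := by rw [dist_eq_norm]; exact norm_sub_le _ _
        _ ≤ _ := by linarith [hR i, hR k]
    obtain ⟨t, ht, h2⟩ := near_of_ne h.clo hN h1 (by rw [h.sg, h.sg, hp, hp, hi, hk]; exact one_ne_zero)
    refine ⟨_, ⟨v t, (h.supp _).2 ⟨t, ht, rfl⟩, rfl⟩, ?_⟩
    have h3 : ‖sc N (v t)‖ ≤ ‖sc N (q i)‖ + dist (sc N (v t)) (sc N (q i)) := by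
      rw [dist_eq_norm]
      calc ‖sc N (v t)‖ = ‖sc N (q i) + (sc N (v t) - sc N (q i))‖ := by congr 1; ring
        _ ≤ _ := norm_add_le _ _
    have h4 : (1 : ℝ) / N ≤ 1 := by
      rw [div_le_one (by linarith)]; exact hN1
    linarith [hR i]
  · exact big_of_in h hN (by rw [hp, hi]; exact one_ne_zero) (by rw [hp, hj]; exact one_ne_zero) hd hr hr0

/-- **patterns have bounded masses** -/
theorem PP_bdd (hrep : ∀ γ : Lps, ∃ n v, Rep γ.1 n v) (hM : Mass) (hF : Far) {m : ℕ} (τ : Fin m → ZMod 2)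
    (R r : ℝ) (hr : 0 < r) (hin : ∃ i j, i ≠ j ∧ τ i = 1 ∧ τ j = 1) (hout : ∃ i, τ i = 0) :
    ∃ C : ℝ, 0 ≤ C ∧ ∀ᶠ N : ℕ in atTop, ∀ q : Fin m → Pt, (∀ i, ‖sc N (q i)‖ ≤ R) →
      (∀ i j, i ≠ j → r ≤ dist (sc N (q i)) (sc N (q j))) → PP τ q ≤ C := by
  obtain ⟨i, j, hij, hi, hj⟩ := hin
  obtain ⟨k, hk⟩ := hout
  obtain ⟨C, hC0, hC⟩ := hits_bdd hM hF (7 * R + 3) (r / 4) (by linarith)
  refine ⟨C, hC0, ?_⟩
  filter_upwards [hC, eventually_gt_atTop 0, eventually_ge_atTop ⌈24 / r⌉₊] with N h1 hN h2 q hR hd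
  have h3 := (measure_mono (pat_sub hrep hN hr ((Nat.le_ceil _).trans (by exact_mod_cast h2)) hi hj hk hR
    (hd i j hij))).trans h1
  exact ENNReal.toReal_le_of_le_ofReal hC0 h3

end

end Pool.Agent.ROT.I
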