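import Pool.Agent.ROT.I2b

/-!
# ROT, block I, row (I2): invariance of the integrals over all loops (helper11)

`i2_of`: the functionals `U` asymptotically invariant under the flow (`I1`), bounded masses (`Mass`, `Far`), no near
self touch (`NTS`); then the integrals of functions of the trace are asymptotically invariant under the flow (`I2`).
-/

set_option autoImplicit false

namespace Pool.Agent.ROT.I

open MeasureTheory Filter Topology Tr

noncomputable section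

/-- **(I1)**: the functionals `U` are asymptotically invariant under the flow -/
def I1 (a b : ℕ → ℝ) : Prop := ∀ (m : ℕ) (τ : Fin m → ZMod 2) (φ : (Fin m → ℂ) → ℝ), Tst τ φ → ∀ t : ℝ,
  Tendsto (fun N : ℕ => U N τ (fun x => φ fun i => flow (BC (a N) (b N)) t (x i)) - U N τ φ) atTop (𝓝 0)

theorem exists_net (R δ : ℝ) (hδ : 0 < δ) : ∃ (m : ℕ) (P : Fin m → ℂ) (σ : ℝ), 0 < σ ∧
    (∀ i j, i ≠ j → σ ≤ dist (P i) (P j)) ∧ ∀ z, ‖z‖ ≤ R → ∃ i, dist z (P i) ≤ δ := by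
  obtain ⟨t, -, hf, hc⟩ := (isCompact_closedBall (0 : ℂ) R).finite_cover_balls hδ
  set T := hf.toFinset with hT
  set e := T.equivFin.symm with he
  have hpos : ∀ᶠ σ : ℝ in 𝓝[>] 0, ∀ i j : Fin T.card, i ≠ j → σ ≤ dist (e i : ℂ) (e j) := by
    rw [eventually_all]
    intro i
    rw [eventually_all]
    intro j
    by_cases hij : i = j
    · exact Eventually.of_forall fun σ h => absurd hij h
    · have hd : 0 < dist (e i : ℂ) (e j) := by
        rw [dist_pos]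
        intro h
        exact hij (e.injective (Subtype.ext h))
      filter_upwards [Ioo_mem_nhdsGT hd] with σ hσ _
      exact hσ.2.le
  obtain ⟨σ, h1, h2⟩ := (hpos.and self_mem_nhdsWithin).exists
  refine ⟨T.card, fun i => (e i : ℂ), σ, h2, h1, fun z hz => ?_⟩
  obtain ⟨x, hx, hzx⟩ := Set.mem_iUnion₂.1 (hc (by simpa using hz))
  refine ⟨e.symm ⟨x, by rw [hT, Set.Finite.mem_toFinset]; exact hx⟩, ?_⟩
  simp only [Equiv.apply_symm_apply]
  exact (Metric.mem_ball.1 hzx).le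

theorem NT_mono {γ : E.Cfg} {d d' D : ℝ} (h : d ≤ d') (hN : NT γ d D) : NT γ d' D := by
  intro n v hv
  obtain ⟨i, k, j, l, h1, h2, h3, h4, h5, h6, h7⟩ := hN n v hv
  exact ⟨i, k, j, l, h1, h2, h3, h4, h5.trans h, h6, h7⟩

theorem int_bd {f : Lps → ℝ} {S : Set Lps} (hS : mu S < ⊤) {C : ℝ} (hC : ∀ γ, |f γ| ≤ C) (h0 : ∀ γ, γ ∉ S → f γ = 0) :
    |∫ γ, f γ ∂mu| ≤ C * mu.real S := by
  have j1 : Integrable (S.indicator fun _ => C) mu :=
    (integrable_indicator_iff MeasurableSet.of_discrete).2 (integrableOn_const hS.ne)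
  have h1 := norm_integral_le_of_norm_le (f := f) j1 (Eventually.of_forall fun γ => by
    rw [Real.norm_eq_abs]
    by_cases h : γ ∈ S
    · rw [Set.indicator_of_mem h]; exact hC γ
    · rw [Set.indicator_of_notMem h, h0 γ h, abs_zero])
  rw [Real.norm_eq_abs, integral_indicator_const _ MeasurableSet.of_discrete, smul_eq_mul, mul_comm] at h1
  exact h1

/-- arithmetic of the last step -/
theorem last_step {c0 Sg S1 Jg J1 Tg T1 K ε κ : ℝ} (hc : 0 < c0) (hε : 0 < ε) (hκ0 : 0 ≤ κ)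
    (hκ1 : κ ≤ c0 / 4) (hκ2 : κ * (K + 1) ≤ c0 * ε / 16) (a1 : |Sg - c0| ≤ κ) (a2 : |S1 - c0| ≤ κ)
    (b1 : |Jg| ≤ K) (b2 : |J1| ≤ K) (d1 : |Tg - Sg * Jg| ≤ Sg * (ε / 4)) (d2 : |T1 - S1 * J1| ≤ S1 * (ε / 4))
    (d3 : |Tg - T1| ≤ c0 * ε / 16) : |Jg - J1| < ε := by
  have e : c0 * (Jg - J1) = -((Sg - c0) * Jg) + (S1 - c0) * J1 - (Tg - Sg * Jg) + (Tg - T1) + (T1 - S1 * J1) := by ring
  have h1 : |(Sg - c0) * Jg| ≤ κ * K := by
    rw [abs_mul]; exact mul_le_mul a1 b1 (abs_nonneg _) hκ0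
  have h2 : |(S1 - c0) * J1| ≤ κ * K := by
    rw [abs_mul]; exact mul_le_mul a2 b2 (abs_nonneg _) hκ0
  have h3 : Sg ≤ c0 + c0 / 4 := by linarith [(abs_le.1 a1).2]
  have h4 : S1 ≤ c0 + c0 / 4 := by linarith [(abs_le.1 a2).2]
  have h5 : Sg * (ε / 4) ≤ (c0 + c0 / 4) * (ε / 4) := by gcongr
  have h6 : S1 * (ε / 4) ≤ (c0 + c0 / 4) * (ε / 4) := by gcongr
  have h7 : κ * K ≤ c0 * ε / 16 := by nlinarith
  have hce : 0 < c0 * ε := mul_pos hc hε
  have h8 : |c0 * (Jg - J1)| < c0 * ε := by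
    rw [e, abs_lt]
    rw [abs_le] at h1 h2 d1 d2 d3
    constructor
    · nlinarith [h1.1, h1.2, h2.1, h2.2, d1.1, d1.2, d2.1, d2.2, d3.1, d3.2]
    · nlinarith [h1.1, h1.2, h2.1, h2.2, d1.1, d1.2, d2.1, d2.2, d3.1, d3.2]
  rw [abs_mul, abs_of_pos hc] at h8
  exact lt_of_mul_lt_mul_left h8 hc.le

/-- **(I2)** -/
theorem i2_of {a b : ℕ → ℝ} (hrep : ∀ γ : Lps, ∃ n v, Rep γ.1 n v) (hM : Mass) (hF : Far) (hS : NTS)
    {A : ℝ} (ha : ∀ N, |a N| ≤ A) (hb : ∀ N, |b N| ≤ A) (h1 : I1 a b) : I2 a b := by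
  intro F C L0 R0 r hT0 hr hSF0 t
  -- normalization
  set L := max L0 0 with hLdef
  set R := max R0 0 with hRdef
  have hL : 0 ≤ L := le_max_right _ _
  have hR : 0 ≤ R := le_max_right _ _
  have hT : TF F C L := ⟨hT0.bdd, fun K K' h h' hn hn' => (hT0.lip K K' h h' hn hn').trans
    (mul_le_mul_of_nonneg_right (le_max_left _ _) Metric.hausdorffDist_nonneg)⟩
  have hSF : SF F R r := fun K h hn hne => ⟨(hSF0 K h hn hne).1.trans
    (Metric.closedBall_subset_closedBall (le_max_left _ _)), (hSF0 K h hn hne).2⟩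
  have hC := hT.bdd
  have hC0 : 0 ≤ C := (abs_nonneg _).trans (hC ∅)
  -- the maps
  set g : ℕ → LG := fun N => flow (BC (a N) (b N)) t with hgdef
  obtain ⟨Λ, hΛ1, hΛ⟩ := exists_flow_bound (2 * A * (‖e1‖ + ‖e2‖)) |t|
  have hΛ0 : 0 < Λ := by linarith
  have hBC : ∀ N (z : ℂ), ‖z‖ = 1 → ‖BC (a N) (b N) z‖ ≤ 2 * A * (‖e1‖ + ‖e2‖) := by
    intro N z hz
    refine (norm_BC_le _ _ _).trans ?_
    rw [hz, mul_one]
    exact mul_le_mul_of_nonneg_right (by linarith [ha N, hb N]) (by positivity)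
  have hfl : ∀ N, ‖g N 1‖ + ‖g N Complex.I‖ ≤ Λ ∧ ‖(g N)⁻¹ 1‖ + ‖(g N)⁻¹ Complex.I‖ ≤ Λ := fun N =>
    hΛ (BC (a N) (b N)) (hBC N 1 (by simp)) (hBC N Complex.I (by simp)) t le_rfl
  have hg : ∀ N z, ‖g N z‖ ≤ Λ * ‖z‖ := fun N z =>
    (norm_le_values (g N) z).trans (mul_le_mul_of_nonneg_right (hfl N).1 (norm_nonneg _))
  have hg' : ∀ N z, ‖z‖ ≤ Λ * ‖g N z‖ := fun N z => by
    have h1 := norm_le_values (g N)⁻¹ (g N z)
    have h3 : (g N)⁻¹ (g N z) = z := (g N).symm_apply_apply z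
    rw [h3] at h1
    exact h1.trans (mul_le_mul_of_nonneg_right (hfl N).2 (norm_nonneg _))
  have hdt : ∀ N, dt (g N) = 1 := fun N => dt_flow _ (tr2_BC _ _) t
  have hg1 : ∀ z : ℂ, ‖(1 : LG) z‖ ≤ Λ * ‖z‖ := fun z => by
    change ‖z‖ ≤ Λ * ‖z‖
    exact le_mul_of_one_le_left (norm_nonneg _) hΛ1
  have hg1' : ∀ z : ℂ, ‖z‖ ≤ Λ * ‖(1 : LG) z‖ := fun z => by
    change ‖z‖ ≤ Λ * ‖z‖
    exact le_mul_of_one_le_left (norm_nonneg _) hΛ1
  have himg1 : ∀ K : Set ℂ, (1 : LG) '' K = K := fun K => by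
    change id '' K = K
    exact Set.image_id K
  have hlin : ∀ h : LG, (∀ z, ‖h z‖ ≤ Λ * ‖z‖) → (∀ z, ‖z‖ ≤ Λ * ‖h z‖) → Lin Λ h := by
    intro h u1 u2
    refine ⟨fun z w => ?_, fun z w => ?_, map_zero h⟩
    · rw [dist_eq_norm, dist_eq_norm, ← map_sub]
      exact u1 _
    · rw [dist_eq_norm, dist_eq_norm, ← map_sub]
      exact u2 _
  obtain ⟨C1, hC10, hC1⟩ := hits_bdd hM hF (Λ * (R + 1)) (r / (2 * Λ)) (by positivity)
  rw [Metric.tendsto_atTop]
  intro ε hε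
  -- the constants
  set ρ : ℝ := min (1 / 4) (ε / (16 * (L + 1) * (C1 + 1))) with hρdef
  have hρ : 0 < ρ := lt_min (by norm_num) (by positivity)
  have hρ1 : ρ ≤ 1 / 4 := min_le_left _ _
  have hρ2 : 2 * L * ρ * C1 ≤ ε / 8 := by
    have h2 : ρ * (16 * (L + 1) * (C1 + 1)) ≤ ε := by
      rw [← le_div_iff₀ (by positivity)]
      exact min_le_right _ _
    have h3 : L * C1 ≤ (L + 1) * (C1 + 1) := by nlinarith
    nlinarith [mul_le_mul_of_nonneg_left h3 hρ.le]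
  set s : ℝ := min (ρ / (6 * Λ)) (r / (48 * Λ)) with hsdef
  have hs : 0 < s := lt_min (by positivity) (by positivity)
  have hs1 : 6 * Λ * s ≤ ρ := by
    have h2 : s ≤ ρ / (6 * Λ) := min_le_left _ _
    rw [le_div_iff₀ (by positivity)] at h2
    linarith
  have hs4 : 48 * Λ * s ≤ r := by
    have h2 : s ≤ r / (48 * Λ) := min_le_right _ _
    rw [le_div_iff₀ (by positivity)] at h2
    linarith
  set ε2 : ℝ := ε / (16 * (C + 1)) with hε2def
  have hε2 : 0 < ε2 := by positivity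
  have hε2' : 2 * C * ε2 ≤ ε / 8 := by
    have h2 : ε2 * (16 * (C + 1)) = ε := by
      rw [hε2def]; field_simp
    nlinarith
  obtain ⟨δ1, hδ1, hnt⟩ := hits_nt hS hF (Λ * (R + 1)) (r / (2 * Λ)) (s / 2) ε2 (by positivity) (by positivity) hε2
  set δ : ℝ := min (min (ρ / (22 * Λ ^ 2)) (r / (88 * Λ ^ 2))) (min (s / (8 * Λ)) (δ1 / (18 * Λ))) with hδdef
  have hδ : 0 < δ := lt_min (lt_min (by positivity) (by positivity)) (lt_min (by positivity) (by positivity))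
  have d1 : 22 * Λ ^ 2 * δ ≤ ρ := by
    have h2 : δ ≤ ρ / (22 * Λ ^ 2) := (min_le_left _ _).trans (min_le_left _ _)
    rw [le_div_iff₀ (by positivity)] at h2
    linarith
  have d2 : 88 * Λ ^ 2 * δ ≤ r := by
    have h2 : δ ≤ r / (88 * Λ ^ 2) := (min_le_left _ _).trans (min_le_right _ _)
    rw [le_div_iff₀ (by positivity)] at h2
    linarith
  have d3 : 8 * Λ * δ ≤ s := by
    have h2 : δ ≤ s / (8 * Λ) := (min_le_right _ _).trans (min_le_left _ _)
    rw [le_div_iff₀ (by positivity)] at h2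
    linarith
  have d4 : 18 * Λ * δ ≤ δ1 := by
    have h2 : δ ≤ δ1 / (18 * Λ) := (min_le_right _ _).trans (min_le_right _ _)
    rw [le_div_iff₀ (by positivity)] at h2
    linarith
  have hΛ2 : 1 ≤ Λ ^ 2 := one_le_pow₀ hΛ1
  have d5 : 22 * δ ≤ 22 * Λ ^ 2 * δ := by nlinarith
  have cst : ∀ N : ℕ, 3 * Λ / δ ≤ N → 12 * Λ ≤ N → Cst Λ δ s ρ r N := fun N n1 n2 =>
    ⟨hδ, hΛ1, by linarith, by linarith, d3, hρ1, by linarith, by linarith, hs4, n1, n2⟩
  -- the net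
  obtain ⟨m, P, σ, hσ, hP, cov⟩ := exists_net (R + 2) δ hδ
  set η := min δ (σ / 4) with hηdef
  have hη : 0 < η := lt_min hδ (by linarith)
  obtain ⟨β, Lb, hβ⟩ := exists_bmp hη
  set c0 := (∫ z, β z ∂mE) ^ m with hc0def
  have hc0 : 0 < c0 := pow_pos hβ.pos m
  have t1 : Tendsto (fun N => SN β P (g N) N) atTop (𝓝 c0) := SN_tendsto hβ hη P hdt hΛ1 hg hg'
  have t2 : Tendsto (fun N => SN β P 1 N) atTop (𝓝 c0) :=
    SN_tendsto (g := fun _ => 1) hβ hη P (fun _ => dt_one) hΛ1 (fun _ => hg1) (fun _ => hg1')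
  have t3 : Tendsto (fun N => TN F P δ N (fun x => ph β P fun i => g N (x i)) - TN F P δ N (ph β P)) atTop (𝓝 0) := by
    have h2 : Tendsto (fun N => ∑ τ : Fin m → ZMod 2, Fh F P δ τ *
        (U N τ (fun x => ph β P fun i => g N (x i)) - U N τ (ph β P))) atTop (𝓝 (∑ _τ : Fin m → ZMod 2, (0 : ℝ))) := by
      refine tendsto_finsetSum _ fun τ _ => ?_
      by_cases h0 : Fh F P δ τ = 0
      · simp only [h0, zero_mul]
        exact tendsto_const_nhds
      · obtain ⟨io1, io2⟩ := Fh_io hSF (by linarith) h0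
        have h3 := h1 m τ (ph β P) (ph_tst hβ hσ (min_le_right _ _) hP io1 io2) t
        have h4 := h3.const_mul (Fh F P δ τ)
        rw [mul_zero] at h4
        exact h4
    rw [Finset.sum_const_zero] at h2
    refine h2.congr fun N => ?_
    unfold TN
    rw [← Finset.sum_sub_distrib]
    exact Finset.sum_congr rfl fun τ _ => mul_sub _ _ _
  -- the error
  set K := C * C1 with hKdef
  have hK : 0 ≤ K := by positivity
  set κ := min (c0 / 4) (c0 * ε / 16 / (K + 1)) with hκdef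
  have hκ : 0 < κ := lt_min (by positivity) (by positivity)
  have hκ2 : κ * (K + 1) ≤ c0 * ε / 16 := by
    rw [← le_div_iff₀ (by positivity)]
    exact min_le_right _ _
  have hev : ∀ᶠ N : ℕ in atTop, dist ((∫ γ : Lps, F (g N '' trc N γ.1) ∂mu) - ∫ γ : Lps, F (trc N γ.1) ∂mu) 0 < ε := by
    filter_upwards [hC1, hnt, eventually_ge_atTop ⌈3 * Λ / δ⌉₊, eventually_ge_atTop ⌈12 * Λ⌉₊, eventually_gt_atTop 0,
      (Metric.tendsto_nhds.1 t1) κ hκ, (Metric.tendsto_nhds.1 t2) κ hκ,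
      (Metric.tendsto_nhds.1 t3) (c0 * ε / 16) (by positivity)] with N n1 n2 n3 n4 n5 n6 n7 n8
    have n3' : 3 * Λ / δ ≤ N := (Nat.le_ceil _).trans (by exact_mod_cast n3)
    have n4' : 12 * Λ ≤ N := (Nat.le_ceil _).trans (by exact_mod_cast n4)
    have c := cst N n3' n4'
    have hN' : (0 : ℝ) < N := by exact_mod_cast n5
    have hfin : mu (Rel Λ R r N) < ⊤ := lt_of_le_of_lt n1 ENNReal.ofReal_lt_top
    have m1 : mu.real (Rel Λ R r N) ≤ C1 := ENNReal.toReal_le_of_le_ofReal hC10 n1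
    have m2 : mu.real (Rel Λ R r N ∩ {γ | NT γ.1 (18 * Λ * (δ * N)) (s / 2 * N)}) ≤ ε2 := by
      refine ENNReal.toReal_le_of_le_ofReal hε2.le ((measure_mono ?_).trans n2)
      refine Set.inter_subset_inter_right _ fun γ hγ => ?_
      refine NT_mono ?_ hγ
      rw [← mul_assoc]
      exact mul_le_mul_of_nonneg_right d4 hN'.le
    have herr : L * (ρ + 22 * Λ ^ 2 * δ) * mu.real (Rel Λ R r N) +
        2 * C * mu.real (Rel Λ R r N ∩ {γ | NT γ.1 (18 * Λ * (δ * N)) (s / 2 * N)}) ≤ ε / 4 := by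
      have p1 : L * (ρ + 22 * Λ ^ 2 * δ) * mu.real (Rel Λ R r N) ≤ L * (ρ + ρ) * C1 := by
        gcongr
      have p2 : 2 * C * mu.real (Rel Λ R r N ∩ {γ | NT γ.1 (18 * Λ * (δ * N)) (s / 2 * N)}) ≤ 2 * C * ε2 := by
        gcongr
      have p3 : L * (ρ + ρ) * C1 = 2 * L * ρ * C1 := by ring
      linarith
    have q1 : ∀ h : LG, (∀ z, ‖h z‖ ≤ Λ * ‖z‖) → (∀ z, ‖z‖ ≤ Λ * ‖h z‖) →
        |TN F P δ N (fun x => ph β P fun i => h (x i)) - SN β P h N * ∫ γ : Lps, F (h '' trc N γ.1) ∂mu| ≤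
          SN β P h N * (ε / 4) ∧ |∫ γ : Lps, F (h '' trc N γ.1) ∂mu| ≤ K := by
      intro h u1 u2
      constructor
      · refine TN_close hβ (min_le_left _ _) n5 hΛ1 u2 fun q hq => ?_
        exact (int_close hrep hT hL hSF hr c (hlin h u1 u2) hq cov hfin).trans herr
      · refine (int_bd hfin (C := C) (fun γ => hC _) fun γ hγ => ?_).trans (mul_le_mul_of_nonneg_left m1 hC0)
        by_contra hne
        have hn0 : (trc N γ.1).Nonempty := trc_ne N γ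
        have hf0 := trc_fin N γ.1
        obtain ⟨v1, v2⟩ := hSF _ (hf0.image h) (hn0.image h) hne
        obtain ⟨z, ⟨z', hz', rfl⟩, w, ⟨w', hw', rfl⟩, hzw⟩ := exists_of_diam (hf0.image h) (hn0.image h) v2
        refine hγ ⟨⟨z', hz', ?_⟩, z', hz', w', hw', ?_⟩
        · have h3 : ‖h z'‖ ≤ R := by simpa using v1 ⟨z', hz', rfl⟩
          exact (u2 z').trans (mul_le_mul_of_nonneg_left (by linarith) hΛ0.le)
        · rw [div_le_iff₀ (by positivity)]
          have h6 := (hlin h u1 u2).up z' w'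
          nlinarith [dist_nonneg (x := z') (y := w')]
    obtain ⟨w1, w2⟩ := q1 (g N) (hg N) (hg' N)
    obtain ⟨w3, w4⟩ := q1 1 hg1 hg1'
    simp only [himg1] at w3 w4
    have w5 : (fun x : Fin m → ℂ => ph β P fun i => (1 : LG) (x i)) = ph β P := rfl
    rw [w5] at w3
    rw [Real.dist_eq] at n6 n7 n8 ⊢
    rw [sub_zero] at n8 ⊢
    exact last_step hc0 hε hκ.le (min_le_left _ _) hκ2 n6.le n7.le w2 w4 w1 w3 n8.le
  obtain ⟨N0, hN0⟩ := hev.exists_forall_of_atTop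
  exact ⟨N0, fun N hN => hN0 N hN⟩

end

end Pool.Agent.ROT.I
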