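import Pool.Agent.ROT.ITr

/-!
# ROT, block I, row (I2), first part: smooth bumps, Riemann sums of products (helper11)
-/

set_option autoImplicit false

namespace Pool.Agent.ROT.I

open MeasureTheory Filter Topology Tr

noncomputable section

/-- smooth bumps -/
structure Bmp (β : ℂ → ℝ) (η Lb : ℝ) : Prop where
  sm : ContDiff ℝ (↑(⊤ : ℕ∞)) β
  nn : ∀ z, 0 ≤ β z
  z : ∀ z, η ≤ ‖z‖ → β z = 0
  lip : ∀ z w, |β z - β w| ≤ Lb * ‖z - w‖
  pos : 0 < ∫ z, β z ∂mE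

theorem exists_bmp {η : ℝ} (hη : 0 < η) : ∃ β Lb, Bmp β η Lb := by
  set f : ContDiffBump (0 : ℂ) := ⟨η / 2, η, by linarith, by linarith⟩ with hf
  have hsm : ContDiff ℝ (↑(⊤ : ℕ∞)) (f : ℂ → ℝ) := f.contDiff
  obtain ⟨Lb, hLb⟩ := hsm.lipschitzWith_of_hasCompactSupport f.hasCompactSupport (by simp)
  refine ⟨f, Lb, hsm, fun z => f.nonneg, fun z hz => ?_, fun z w => ?_, ?_⟩
  · apply f.zero_of_le_dist
    rw [dist_zero_right]
    exact hz
  · have := hLb.dist_le_mul z w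
    rwa [Real.dist_eq, dist_eq_norm] at this
  · refine hsm.continuous.integral_pos_of_hasCompactSupport_nonneg_nonzero f.hasCompactSupport
      (fun z => f.nonneg) (x := 0) ?_
    have : f 0 = 1 := f.one_of_mem_closedBall (Metric.mem_closedBall_self f.rIn_pos.le)
    rw [this]
    exact one_ne_zero

variable {β : ℂ → ℝ} {η Lb : ℝ}

/-- **the sum of a bump over a lattice of covolume one** -/
theorem riemann_gen (hβ : Bmp β η Lb) (hη : 0 < η) {g : LG} {Λ : ℝ} (hdt : dt g = 1) (hΛ : 1 ≤ Λ)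
    (hg : ∀ z, ‖g z‖ ≤ Λ * ‖z‖) (hg' : ∀ z, ‖z‖ ≤ Λ * ‖g z‖) (c : ℂ) {N : ℕ} (hN : 0 < N) :
    |(∫ z, β z ∂mE) - ((N : ℝ) ^ 2)⁻¹ * ∑' q : Pt, β (g (sc N q) - c)| ≤
      Lb * (Λ * (‖e1‖ + ‖e2‖)) / N * (2 * (Λ * η + 1)) ^ 2 := by
  have hL0 : 0 ≤ Λ := by linarith
  have hLb : 0 ≤ Lb := by
    have h1 := hβ.lip 1 0
    rw [sub_zero, norm_one, mul_one] at h1
    exact (abs_nonneg _).trans h1
  have hI : (∫ p : ℝ × ℝ, β (g (EE p) - c)) = ∫ z, β z ∂mE := by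
    have h1 : (∫ p : ℝ × ℝ, β (g (EE p) - c)) = ∫ z, β (g z - c) ∂mE := by
      exact (EE.toHomeomorph.toMeasurableEquiv.measurableEmbedding.integral_map (μ := volume)
        (fun z => β (g z - c))).symm
    have hdet : LinearMap.det ((g : LB) : ℂ →ₗ[ℝ] ℂ) = 1 := by rw [det_eq_dt, hdt]
    have h2 : Measure.map g mE = mE := by
      have := Measure.map_linearMap_addHaar_eq_smul_addHaar mE (f := ((g : LB) : ℂ →ₗ[ℝ] ℂ))
        (by rw [hdet]; exact one_ne_zero)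
      rw [hdet] at this
      simpa using this
    have h3 : (∫ z, β (g z - c) ∂mE) = ∫ z, β (z - c) ∂(Measure.map g mE) := by
      exact (g.toHomeomorph.toMeasurableEquiv.measurableEmbedding.integral_map (μ := mE)
        (fun z => β (z - c))).symm
    rw [h1, h3, h2]
    exact integral_sub_right_eq_self (μ := mE) β c
  have hb := riemann (h := fun p => β (g (EE p) - c)) (L := Lb * (Λ * (‖e1‖ + ‖e2‖))) (R := Λ * η) (fun p q => by
    refine (hβ.lip _ _).trans ?_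
    rw [sub_sub_sub_cancel_right, ← map_sub, ← map_sub, mul_assoc Lb, mul_assoc Λ]
    exact mul_le_mul_of_nonneg_left ((hg _).trans (mul_le_mul_of_nonneg_left (norm_EE_le _) hL0)) hLb)
    (by positivity) (EE.symm (g.symm c)) (fun p hp => by
    apply hβ.z
    by_contra hc
    push Not at hc
    have e : g (EE p) - c = g (EE (p - EE.symm (g.symm c))) := by
      rw [map_sub, map_sub]
      simp
    rw [e] at hc
    have h1 := norm_EE_symm_le (EE (p - EE.symm (g.symm c)))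
    rw [ContinuousLinearEquiv.symm_apply_apply] at h1
    have h2 := hg' (EE (p - EE.symm (g.symm c)))
    have h3 : Λ * ‖g (EE (p - EE.symm (g.symm c)))‖ ≤ Λ * η := mul_le_mul_of_nonneg_left hc.le hL0
    linarith) hN
  rw [hI] at hb
  exact hb

/-- sums of products -/
theorem tsum_prod_fin {m : ℕ} {f : Fin m → Pt → ℝ} (T : Finset Pt) (hT : ∀ i p, f i p ≠ 0 → p ∈ T) :
    ∑' q : Fin m → Pt, ∏ i, f i (q i) = ∏ i, ∑' p, f i p := by
  have h1 : ∀ i, ∑' p, f i p = ∑ p ∈ T, f i p := fun i => by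
    apply tsum_eq_sum
    intro p hp
    by_contra hc
    exact hp (hT i p hc)
  rw [Finset.prod_congr rfl fun i _ => h1 i, Finset.prod_univ_sum]
  apply tsum_eq_sum
  intro q hq
  rw [Fintype.mem_piFinset] at hq
  push Not at hq
  obtain ⟨i, hi⟩ := hq
  apply Finset.prod_eq_zero (Finset.mem_univ i)
  by_contra hc
  exact hi (hT i _ hc)

/-- the product of bumps -/
def ph {m : ℕ} (β : ℂ → ℝ) (P : Fin m → ℂ) (x : Fin m → ℂ) : ℝ := ∏ i, β (x i - P i)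

theorem ph_nonneg (hβ : Bmp β η Lb) {m : ℕ} (P x : Fin m → ℂ) : 0 ≤ ph β P x :=
  Finset.prod_nonneg fun _ _ => hβ.nn _

theorem ph_ne (hβ : Bmp β η Lb) {m : ℕ} {P x : Fin m → ℂ} (h : ph β P x ≠ 0) (i : Fin m) : dist (x i) (P i) ≤ η := by
  by_contra hc
  apply h
  apply Finset.prod_eq_zero (Finset.mem_univ i)
  apply hβ.z
  rw [← dist_eq_norm]
  exact (not_le.1 hc).le

theorem ph_tst (hβ : Bmp β η Lb) {m : ℕ} {P : Fin m → ℂ} {σ : ℝ} (hσ : 0 < σ) (hησ : η ≤ σ / 4)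
    (hP : ∀ i j, i ≠ j → σ ≤ dist (P i) (P j)) {τ : Fin m → ZMod 2} (hin : ∃ i j, i ≠ j ∧ τ i = 1 ∧ τ j = 1)
    (hout : ∃ i, τ i = 0) : Tst τ (ph β P) := by
  set K : Set (Fin m → ℂ) := Set.univ.pi fun i => Metric.closedBall (P i) η with hK
  have hKc : IsCompact K := isCompact_univ_pi fun i => isCompact_closedBall _ _
  have hsub : Function.support (ph β P) ⊆ K := fun x hx i _ => Metric.mem_closedBall.2 (ph_ne hβ hx i)
  have hts : tsupport (ph β P) ⊆ K := closure_minimal hsub hKc.isClosed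
  refine ⟨?_, ?_, ⟨σ / 2, by linarith, fun x hx i j hij => ?_⟩, hin, hout⟩
  · unfold ph
    refine contDiff_prod fun i _ => ?_
    exact hβ.sm.comp ((contDiff_apply ℝ ℂ i).sub contDiff_const)
  · exact hKc.of_isClosed_subset (isClosed_tsupport _) hts
  · have h1 := Metric.mem_closedBall.1 (hts hx i (Set.mem_univ i))
    have h2 := Metric.mem_closedBall.1 (hts hx j (Set.mem_univ j))
    have h3 := hP i j hij
    have h4 := dist_triangle4 (P i) (x i) (x j) (P j)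
    rw [dist_comm (P i) (x i)] at h4
    linarith

/-- the mass of the product of bumps along the lattice -/
def SN {m : ℕ} (β : ℂ → ℝ) (P : Fin m → ℂ) (g : LG) (N : ℕ) : ℝ :=
  ((N : ℝ) ^ (2 * m))⁻¹ * ∑' q : Fin m → Pt, ph β P fun i => g (sc N (q i))

theorem fin_g {g : LG} {Λ : ℝ} (hΛ : 1 ≤ Λ) (hg' : ∀ z, ‖z‖ ≤ Λ * ‖g z‖) {N : ℕ} (hN : 0 < N) (R : ℝ) :
    {q : Pt | ‖g (sc N q)‖ ≤ R}.Finite := by
  refine (fin_sc hN (Λ * R)).subset fun q hq => ?_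
  exact (hg' _).trans (mul_le_mul_of_nonneg_left hq (by linarith))

theorem SN_eq (hβ : Bmp β η Lb) {m : ℕ} (P : Fin m → ℂ) {g : LG} {Λ : ℝ} (hΛ : 1 ≤ Λ)
    (hg' : ∀ z, ‖z‖ ≤ Λ * ‖g z‖) {N : ℕ} (hN : 0 < N) :
    SN β P g N = ∏ i, ((N : ℝ) ^ 2)⁻¹ * ∑' p : Pt, β (g (sc N p) - P i) := by
  obtain ⟨B, hB⟩ : ∃ B : ℝ, ∀ i, ‖P i‖ ≤ B := ⟨∑ i, ‖P i‖, fun i =>
    Finset.single_le_sum (fun j _ => norm_nonneg (P j)) (Finset.mem_univ i)⟩
  have h1 := tsum_prod_fin (f := fun i p => β (g (sc N p) - P i)) (fin_g hΛ hg' hN (B + η)).toFinset (fun i p hp => by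
    rw [Set.Finite.mem_toFinset]
    by_contra hc
    apply hp
    apply hβ.z
    have hc' : B + η < ‖g (sc N p)‖ := not_le.1 hc
    have := norm_sub_norm_le (g (sc N p)) (P i)
    linarith [hB i])
  unfold SN ph
  rw [h1, Finset.prod_mul_distrib, Finset.prod_const, Finset.card_univ, Fintype.card_fin, inv_pow, ← pow_mul]

theorem SN_tendsto (hβ : Bmp β η Lb) (hη : 0 < η) {m : ℕ} (P : Fin m → ℂ) {g : ℕ → LG} {Λ : ℝ}
    (hdt : ∀ N, dt (g N) = 1) (hΛ : 1 ≤ Λ) (hg : ∀ N z, ‖g N z‖ ≤ Λ * ‖z‖) (hg' : ∀ N z, ‖z‖ ≤ Λ * ‖g N z‖) :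
    Tendsto (fun N => SN β P (g N) N) atTop (𝓝 ((∫ z, β z ∂mE) ^ m)) := by
  have h1 : Tendsto (fun N : ℕ => ∏ i, ((N : ℝ) ^ 2)⁻¹ * ∑' p : Pt, β (g N (sc N p) - P i)) atTop
      (𝓝 (∏ _i : Fin m, ∫ z, β z ∂mE)) := by
    refine tendsto_finsetProd _ fun i _ => ?_
    rw [tendsto_iff_dist_tendsto_zero]
    have h2 : Tendsto (fun N : ℕ => Lb * (Λ * (‖e1‖ + ‖e2‖)) * (2 * (Λ * η + 1)) ^ 2 * (1 / (N : ℝ))) atTop (𝓝 0) := by
      have := tendsto_one_div_atTop_nhds_zero_nat (𝕜 := ℝ)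
      simpa using this.const_mul (Lb * (Λ * (‖e1‖ + ‖e2‖)) * (2 * (Λ * η + 1)) ^ 2)
    refine squeeze_zero' (Eventually.of_forall fun N => dist_nonneg) ?_ h2
    filter_upwards [eventually_gt_atTop 0] with N hN
    rw [dist_comm, Real.dist_eq]
    refine (riemann_gen hβ hη (hdt N) hΛ (hg N) (hg' N) (P i) hN).trans (le_of_eq ?_)
    ring
  rw [Finset.prod_const, Finset.card_univ, Fintype.card_fin] at h1
  refine h1.congr' ?_
  filter_upwards [eventually_gt_atTop 0] with N hN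
  rw [SN_eq hβ P hΛ (hg' N) hN]

end

end Pool.Agent.ROT.I
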