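import Pool.Agent.ROT.IGeo

/-!
# ROT, block I: patterns of a net against traces, pointwise (helper11)
-/

set_option autoImplicit false

namespace Pool.Agent.ROT.I

open Finset Pool.Agent.ROT.Par

noncomputable section

/-! ### rotation of a closed path -/

/-- the path started at the time `i0` -/
def rotp (n : ℕ) (v : ℕ → Pt) (i0 : ℕ) : ℕ → Pt := fun t => v ((i0 + t) % n)

theorem succ_mod {n : ℕ} {v : ℕ → Pt} (h : v n = v 0) (hn : 0 < n) (x : ℕ) : v ((x + 1) % n) = v (x % n + 1) := by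
  rcases Nat.lt_or_ge (x % n + 1) n with l | l
  · rw [Nat.add_mod, Nat.mod_eq_of_lt (a := 1)]
    · rw [Nat.mod_eq_of_lt l]
    · omega
  · have h1 : x % n < n := Nat.mod_lt _ hn
    have h2 : x % n + 1 = n := by omega
    rw [h2, h]
    congr 1
    have : (x + 1) % n = (x % n + 1) % n := by rw [Nat.mod_add_mod]
    rw [this, h2, Nat.mod_self]

theorem clo_rot {n : ℕ} {v : ℕ → Pt} (h : Clo n v) (hn : 0 < n) (i0 : ℕ) : Clo n (rotp n v i0) where
  per := by simp only [rotp, Nat.add_zero, Nat.add_mod_right]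
  stp := by
    intro t _
    have e : rotp n v i0 (t + 1) = v ((i0 + t) % n + 1) := succ_mod h.per hn (i0 + t)
    rw [e]
    exact h.stp _ (Nat.mod_lt _ hn)

theorem sum_rot {n : ℕ} (G : ℕ → ZMod 2) (hG : ∀ t, G (t + n) = G t) (i0 : ℕ) :
    ∑ t ∈ range n, G (i0 + t) = ∑ t ∈ range n, G t := by
  induction i0 with
  | zero => simp
  | succ i0 ih =>
    rw [← ih]
    have a1 := sum_range_succ (fun t => G (i0 + t)) n
    have a2 := sum_range_succ' (fun t => G (i0 + t)) n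
    rw [a1] at a2
    simp only [add_zero, hG i0] at a2
    have := add_right_cancel a2
    rw [this]
    exact sum_congr rfl fun t _ => by ring_nf

theorem sg_rot {n : ℕ} {v : ℕ → Pt} (h : Clo n v) (hn : 0 < n) (i0 : ℕ) (p y : ℤ) :
    Par.sg n (rotp n v i0) p y = Par.sg n v p y := by
  set H : Pt → Pt → ZMod 2 := fun a b => if a ≠ b ∧ (sd a b).1 = false ∧ (sd a b).2.1 = p ∧ y ≤ (sd a b).2.2
    then 1 else 0 with hH
  have e1 : Par.sg n (rotp n v i0) p y = ∑ t ∈ range n, (fun t => H (v (t % n)) (v ((t + 1) % n))) (i0 + t) := rfl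
  have e2 : Par.sg n v p y = ∑ t ∈ range n, (fun t => H (v (t % n)) (v ((t + 1) % n))) t := by
    refine sum_congr rfl fun t ht => ?_
    have ht' := mem_range.1 ht
    simp only [hH, succ_mod h.per hn, Nat.mod_eq_of_lt ht']
  rw [e1, e2]
  exact sum_rot (fun t => H (v (t % n)) (v ((t + 1) % n)))
    (fun t => by simp only [Nat.add_mod_right, show t + n + 1 = t + 1 + n by ring]) i0

theorem NTp_rot {n : ℕ} {v : ℕ → Pt} {i0 : ℕ} {d D : ℝ} (h : NTp n (rotp n v i0) d D) : NTp n v d D := by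
  obtain ⟨i, k, j, l, h1, h2, h3, h4, h5, h6, h7⟩ := h
  have e : ∀ t, rotp n v i0 (t % n) = v ((t + i0) % n) := by
    intro t
    simp only [rotp, Nat.add_mod_mod]
    rw [add_comm]
  rw [e, e] at h5 h6 h7
  exact ⟨i + i0, k + i0, j + i0, l + i0, by omega, by omega, by omega, by omega, h5, h6, h7⟩

/-! ### discrete intermediate values -/

theorem ivt_up {f : ℕ → ℝ} {x c : ℝ} {a b : ℕ} (hab : a ≤ b) (hs : ∀ t, a ≤ t → t < b → |f (t + 1) - f t| ≤ c)
    (ha : f a ≤ x) (hb : x < f b) : ∃ t, a ≤ t ∧ t ≤ b ∧ x < f t ∧ f t ≤ x + c := by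
  classical
  have hex : ∃ t, a ≤ t ∧ x < f t := ⟨b, hab, hb⟩
  set t := Nat.find hex with ht
  obtain ⟨h1, h2⟩ := Nat.find_spec hex
  have h3 : t ≤ b := Nat.find_min' hex ⟨hab, hb⟩
  have h4 : a < t := by
    rcases Nat.lt_or_ge a t with l | l
    · exact l
    · exfalso
      have e : t = a := le_antisymm l h1
      rw [← ht, e] at h2
      linarith
  refine ⟨t, h1, h3, h2, ?_⟩
  have h5 : ¬ (a ≤ t - 1 ∧ x < f (t - 1)) := Nat.find_min hex (by omega)
  have h6 : f (t - 1) ≤ x := by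
    by_contra hc
    exact h5 ⟨by omega, not_le.1 hc⟩
  have h7 := hs (t - 1) (by omega) (by omega)
  rw [Nat.sub_add_cancel (by omega)] at h7
  linarith [(abs_le.1 h7).2]

theorem ivt_down {f : ℕ → ℝ} {x c : ℝ} {a b : ℕ} (hab : a ≤ b) (hc : 0 ≤ c)
    (hs : ∀ t, a ≤ t → t < b → |f (t + 1) - f t| ≤ c)
    (ha : x + c < f a) (hb : f b ≤ x) : ∃ t, a ≤ t ∧ t ≤ b ∧ x < f t ∧ f t ≤ x + c := by
  classical
  have hex : ∃ t, a ≤ t ∧ f t ≤ x + c := ⟨b, hab, by linarith⟩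
  set t := Nat.find hex with ht
  obtain ⟨h1, h2⟩ := Nat.find_spec hex
  have h3 : t ≤ b := Nat.find_min' hex ⟨hab, by linarith⟩
  have h4 : a < t := by
    rcases Nat.lt_or_ge a t with l | l
    · exact l
    · exfalso
      have e : t = a := le_antisymm l h1
      rw [← ht, e] at h2
      linarith
  refine ⟨t, h1, h3, ?_, h2⟩
  have h5 : ¬ (a ≤ t - 1 ∧ f (t - 1) ≤ x + c) := Nat.find_min hex (by omega)
  have h6 : x + c < f (t - 1) := by
    by_contra hc
    exact h5 ⟨by omega, not_lt.1 hc⟩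
  have h7 := hs (t - 1) (by omega) (by omega)
  rw [Nat.sub_add_cancel (by omega)] at h7
  linarith [(abs_le.1 h7).1]

/-! ### functions of traces -/

/-- bounded, Lipschitz on finite sets for the Hausdorff distance (42's form) -/
structure TF (F : Set ℂ → ℝ) (C L : ℝ) : Prop where
  bdd : ∀ K, |F K| ≤ C
  lip : ∀ K K' : Set ℂ, K.Finite → K'.Finite → K.Nonempty → K'.Nonempty →
    |F K - F K'| ≤ L * Metric.hausdorffDist K K'

/-- support in the ball of radius `R`, diameter `≥ r` -/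
def SF (F : Set ℂ → ℝ) (R r : ℝ) : Prop := ∀ K : Set ℂ, K.Finite → K.Nonempty → F K ≠ 0 →
  K ⊆ Metric.closedBall 0 R ∧ r ≤ Metric.diam K

theorem exists_of_diam {K : Set ℂ} (hf : K.Finite) (hn : K.Nonempty) {r : ℝ} (h : r ≤ Metric.diam K) :
    ∃ z ∈ K, ∃ w ∈ K, r ≤ dist z w := by
  obtain ⟨⟨z, w⟩, ⟨hz, hw⟩, hm⟩ := Set.exists_max_image (K ×ˢ K) (fun p : ℂ × ℂ => dist p.1 p.2) (hf.prod hf)
    (hn.prod hn)
  refine ⟨z, hz, w, hw, h.trans ?_⟩
  exact Metric.diam_le_of_forall_dist_le dist_nonneg fun a ha b hb => hm (a, b) ⟨ha, hb⟩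

variable {m : ℕ}

/-- the boundary of a pattern -/
def bd (P : Fin m → ℂ) (δ : ℝ) (τ : Fin m → ZMod 2) : Set ℂ :=
  {z | ∃ i j, z = P i ∧ dist (P i) (P j) ≤ 4 * δ ∧ τ i ≠ τ j}

theorem bd_finite (P : Fin m → ℂ) (δ : ℝ) (τ : Fin m → ZMod 2) : (bd P δ τ).Finite :=
  (Set.finite_range P).subset fun _ ⟨i, _, h, _⟩ => ⟨i, h.symm⟩

open Classical in
/-- the function of the pattern -/
def Fh (F : Set ℂ → ℝ) (P : Fin m → ℂ) (δ : ℝ) (τ : Fin m → ZMod 2) : ℝ :=
  if (bd P δ τ).Nonempty then F (bd P δ τ) else 0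

/-- the constants of the comparison -/
structure Cst (Λ δ s ρ r : ℝ) (N : ℕ) : Prop where
  δ0 : 0 < δ
  Λ1 : 1 ≤ Λ
  s1 : 3 * Λ * s ≤ 1
  s2 : 3 * Λ * s + δ ≤ ρ
  s3 : 8 * Λ * δ ≤ s
  ρ1 : ρ ≤ 1 / 4
  κ1 : 22 * Λ ^ 2 * δ ≤ 1 / 4
  κ2 : 22 * Λ ^ 2 * δ ≤ r / 4
  s4 : 48 * Λ * s ≤ r
  N1 : 3 * Λ / δ ≤ N
  N2 : 12 * Λ ≤ N

/-- a linear like map -/
structure Lin (Λ : ℝ) (g : ℂ → ℂ) : Prop where
  up : ∀ z w, dist (g z) (g w) ≤ Λ * dist z w
  lo : ∀ z w, dist z w ≤ Λ * dist (g z) (g w)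
  zero : g 0 = 0

theorem trc_finite (N : ℕ) (γ : E.Cfg) : (trc N γ).Finite := by
  apply Set.Finite.image
  exact γ.support.finite_toSet.subset fun v hv => by simpa using hv

theorem rep_mem {γ : E.Cfg} {n : ℕ} {v : ℕ → Pt} (h : Rep γ n v) (N : ℕ) {t : ℕ} (ht : t < n) :
    sc N (v t) ∈ trc N γ := ⟨v t, (h.supp _).2 ⟨t, ht, rfl⟩, rfl⟩

theorem exists_rep {γ : E.Cfg} {n : ℕ} {v : ℕ → Pt} (h : Rep γ n v) {N : ℕ} {z : ℂ} (hz : z ∈ trc N γ) :
    ∃ t < n, sc N (v t) = z := by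
  obtain ⟨p, hp, e⟩ := hz
  obtain ⟨t, ht, e'⟩ := (h.supp p).1 hp
  exact ⟨t, ht, by rw [e']; exact e⟩

variable {γ : E.Cfg} {n : ℕ} {v : ℕ → Pt} {N : ℕ} {Λ δ s ρ r R : ℝ} {P : Fin m → ℂ} {q : Fin m → Pt} {g : ℂ → ℂ}

/-- boundary points of the pattern are near the trace -/
theorem bd_near (h : Rep γ n v) (c : Cst Λ δ s ρ r N) (hg : Lin Λ g)
    (hq : ∀ i, dist (g (sc N (q i))) (P i) ≤ δ) {z : ℂ} (hz : z ∈ bd P δ (pat γ q)) :
    ∃ w ∈ trc N γ, dist (g w) z ≤ 22 * Λ ^ 2 * δ := by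
  have hΛ := c.Λ1
  have hδ := c.δ0
  have hNr : (0 : ℝ) < N := lt_of_lt_of_le (by linarith) c.N2
  have hN0 : 0 < N := by exact_mod_cast hNr
  obtain ⟨i, j, e, hd, hne⟩ := hz
  have h1 : dist (sc N (q i)) (sc N (q j)) ≤ 6 * Λ * δ := by
    calc _ ≤ Λ * dist (g (sc N (q i))) (g (sc N (q j))) := hg.lo _ _
      _ ≤ Λ * (6 * δ) := by
        gcongr
        calc _ ≤ dist (g (sc N (q i))) (P i) + dist (P i) (P j) + dist (P j) (g (sc N (q j))) := dist_triangle4 _ _ _ _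
          _ ≤ _ := by rw [dist_comm (P j)]; linarith [hq i, hq j]
      _ = _ := by ring
  have hne' : Par.sg n v (q i).1 (q i).2 ≠ Par.sg n v (q j).1 (q j).2 := by
    rw [h.sg, h.sg]; exact hne
  obtain ⟨t, ht, hd'⟩ := near_of_ne h.clo hN0 h1 hne'
  have hiN : (1 : ℝ) / N ≤ Λ * δ := by
    have := c.N1
    rw [div_le_iff₀ hδ] at this
    rw [div_le_iff₀ hNr]
    nlinarith
  refine ⟨sc N (v t), rep_mem h N ht, ?_⟩
  rw [e]
  calc dist (g (sc N (v t))) (P i) ≤ dist (g (sc N (v t))) (g (sc N (q i))) + dist (g (sc N (q i))) (P i) :=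
        dist_triangle _ _ _
    _ ≤ Λ * (3 * (6 * Λ * δ + 1 / N)) + δ := by
        gcongr
        · exact (hg.up _ _).trans (by gcongr)
        · exact hq i
    _ ≤ Λ * (3 * (6 * Λ * δ + Λ * δ)) + δ := by gcongr
    _ ≤ _ := by
      have h1 : 1 ≤ Λ ^ 2 := one_le_pow₀ hΛ
      nlinarith [mul_le_mul_of_nonneg_right h1 hδ.le]

/-- points of the trace are near the boundary of the pattern, or near self touch -/
theorem near_bd (h : Rep γ n v) (c : Cst Λ δ s ρ r N) (hg : Lin Λ g)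
    (hq : ∀ i, dist (g (sc N (q i))) (P i) ≤ δ) (cov : ∀ z, ‖z‖ ≤ R + 2 → ∃ i, dist z (P i) ≤ δ)
    (hB : ∃ z ∈ trc N γ, ∃ w ∈ trc N γ, r / (2 * Λ) ≤ dist z w)
    (hnt : ¬ NTp n v (18 * Λ * (δ * N)) (s / 2 * N)) {t : ℕ} (ht : t < n) (hR : ‖g (sc N (v t))‖ ≤ R + 1) :
    ∃ z ∈ bd P δ (pat γ q), dist z (g (sc N (v t))) ≤ ρ := by
  have hΛ := c.Λ1
  have hn : 0 < n := h.pos
  by_contra hno
  push Not at hno
  apply hnt
  have hv0 : rotp n v t 0 = v t := by simp only [rotp, Nat.add_zero, Nat.mod_eq_of_lt ht]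
  -- a far point
  obtain ⟨z, hz, w, hw, hzw⟩ := hB
  have hfar : ∃ u ∈ trc N γ, 12 * s ≤ dist u (sc N (v t)) := by
    have h1 : 24 * s ≤ dist z w := by
      refine le_trans ?_ hzw
      rw [le_div_iff₀ (by linarith)]
      linarith [c.s4]
    by_contra hcon
    push Not at hcon
    have := dist_triangle_right z w (sc N (v t))
    linarith [hcon z hz, hcon w hw]
  obtain ⟨u, hu, hu'⟩ := hfar
  obtain ⟨k0, hk0, rfl⟩ := exists_rep h hu
  have hk : ∃ k ≤ n, rotp n v t k = v k0 := by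
    rcases Nat.lt_or_ge k0 t with l | l
    · refine ⟨k0 + n - t, by omega, ?_⟩
      simp only [rotp]
      rw [show t + (k0 + n - t) = k0 + n by omega, Nat.add_mod_right, Nat.mod_eq_of_lt hk0]
    · refine ⟨k0 - t, by omega, ?_⟩
      simp only [rotp]
      rw [show t + (k0 - t) = k0 by omega, Nat.mod_eq_of_lt hk0]
  obtain ⟨k, hkn, hk⟩ := hk
  have key := touch (clo_rot h.clo hn t) (N := N) P q (δ := δ) (Λ := Λ) (s := s) (ρ := ρ) c.δ0 hΛ g hg.up hg.lo hq
    ?_ c.N1 c.s1 c.s2 c.s3 hkn ?_ ?_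
  · exact NTp_rot key
  · intro z hz
    apply cov
    rw [hv0] at hz
    have := norm_le_norm_add_norm_sub' z (g (sc N (v t)))
    rw [dist_eq_norm] at hz
    have h2 : ‖z‖ ≤ ‖g (sc N (v t))‖ + ‖z - g (sc N (v t))‖ := by
      calc ‖z‖ = ‖g (sc N (v t)) + (z - g (sc N (v t)))‖ := by congr 1; ring
        _ ≤ _ := norm_add_le _ _
    linarith
  · rw [hv0, hk]; exact hu'
  · intro i j hi hij
    rw [sg_rot h.clo hn, sg_rot h.clo hn, h.sg, h.sg]
    by_contra hne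
    rw [hv0] at hi
    exact absurd hi (not_le.2 (hno (P i) ⟨i, j, rfl, hij, hne⟩))

/-- **outside of the relevant set everything vanishes** -/
theorem point_zero {F : Set ℂ → ℝ} (hF : SF F R r) (h : Rep γ n v) (c : Cst Λ δ s ρ r N) (hr : 0 < r) (hg : Lin Λ g)
    (hq : ∀ i, dist (g (sc N (q i))) (P i) ≤ δ)
    (hrel : ¬ ((∃ z ∈ trc N γ, ‖z‖ ≤ Λ * (R + 1)) ∧ ∃ z ∈ trc N γ, ∃ w ∈ trc N γ, r / (2 * Λ) ≤ dist z w)) :
    Fh F P δ (pat γ q) = 0 ∧ F (g '' trc N γ) = 0 := by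
  have hΛ := c.Λ1
  have hn0 : (trc N γ).Nonempty := ⟨_, rep_mem h N h.pos⟩
  have hnorm : ∀ z, ‖z‖ ≤ Λ * ‖g z‖ := by
    intro z
    have := hg.lo z 0
    rwa [hg.zero, dist_zero_right, dist_zero_right] at this
  constructor
  · by_contra hne
    rw [Fh] at hne
    split_ifs at hne with hb
    · obtain ⟨h1, h2⟩ := hF _ (bd_finite P δ _) hb hne
      obtain ⟨z, hz, w, hw, hzw⟩ := exists_of_diam (bd_finite P δ _) hb h2
      obtain ⟨z', hz', dz⟩ := bd_near h c hg hq hz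
      obtain ⟨w', hw', dw⟩ := bd_near h c hg hq hw
      apply hrel
      refine ⟨⟨z', hz', ?_⟩, z', hz', w', hw', ?_⟩
      · have h3 : ‖z‖ ≤ R := by simpa using h1 hz
        have h4 : ‖g z'‖ ≤ R + 1 := by
          have : ‖g z'‖ ≤ ‖z‖ + dist (g z') z := by
            rw [dist_eq_norm]
            calc ‖g z'‖ = ‖z + (g z' - z)‖ := by congr 1; ring
              _ ≤ _ := norm_add_le _ _
          linarith [c.κ1]
        exact (hnorm z').trans (by gcongr)
      · rw [div_le_iff₀ (by linarith)]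
        have h5 : r / 2 ≤ dist (g z') (g w') := by
          have := dist_triangle4 z (g z') (g w') w
          rw [dist_comm z (g z')] at this
          linarith [c.κ2]
        have h6 := hg.up z' w'
        linarith
    · exact hne rfl
  · by_contra hne
    obtain ⟨h1, h2⟩ := hF _ ((trc_finite N γ).image g) (hn0.image g) hne
    obtain ⟨z, ⟨z', hz', rfl⟩, w, ⟨w', hw', rfl⟩, hzw⟩ := exists_of_diam ((trc_finite N γ).image g) (hn0.image g) h2
    apply hrel
    refine ⟨⟨z', hz', ?_⟩, z', hz', w', hw', ?_⟩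
    · have h3 : ‖g z'‖ ≤ R := by simpa using h1 ⟨z', hz', rfl⟩
      exact (hnorm z').trans (by gcongr; linarith)
    · rw [div_le_iff₀ (by linarith)]
      have h6 := hg.up z' w'
      nlinarith [dist_nonneg (x := z') (y := w')]

/-- **without near self touch the pattern gives the trace** -/
theorem point_close {F : Set ℂ → ℝ} {C L : ℝ} (hT : TF F C L) (hL : 0 ≤ L) (hF : SF F R r) (h : Rep γ n v)
    (c : Cst Λ δ s ρ r N) (hg : Lin Λ g) (hq : ∀ i, dist (g (sc N (q i))) (P i) ≤ δ)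
    (cov : ∀ z, ‖z‖ ≤ R + 2 → ∃ i, dist z (P i) ≤ δ)
    (hB : ∃ z ∈ trc N γ, ∃ w ∈ trc N γ, r / (2 * Λ) ≤ dist z w)
    (hnt : ¬ NTp n v (18 * Λ * (δ * N)) (s / 2 * N)) :
    |Fh F P δ (pat γ q) - F (g '' trc N γ)| ≤ L * (ρ + 22 * Λ ^ 2 * δ) := by
  have hΛ := c.Λ1
  have hδ := c.δ0
  have hs : 0 < s := by nlinarith [c.s3]
  have hρ : 0 < ρ := by nlinarith [c.s2]
  have hκ : 0 ≤ 22 * Λ ^ 2 * δ := by positivity
  have hNr : (0 : ℝ) < N := lt_of_lt_of_le (by linarith) c.N2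
  have hN0 : 0 < N := by exact_mod_cast hNr
  have hn0 : (trc N γ).Nonempty := ⟨_, rep_mem h N h.pos⟩
  by_cases hin : ∀ z ∈ trc N γ, ‖g z‖ ≤ R + 1
  · -- everything inside
    have hb : (bd P δ (pat γ q)).Nonempty := by
      obtain ⟨z, hz, -⟩ := near_bd h c hg hq cov hB hnt h.pos (hin _ (rep_mem h N h.pos))
      exact ⟨z, hz⟩
    rw [Fh, if_pos hb]
    refine (hT.lip _ _ (bd_finite P δ _) ((trc_finite N γ).image g) hb (hn0.image g)).trans ?_
    gcongr
    apply Metric.hausdorffDist_le_of_mem_dist (by positivity)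
    · intro z hz
      obtain ⟨w, hw, hd⟩ := bd_near h c hg hq hz
      exact ⟨g w, ⟨w, hw, rfl⟩, by rw [dist_comm]; linarith⟩
    · rintro _ ⟨w, hw, rfl⟩
      obtain ⟨t, ht, rfl⟩ := exists_rep h hw
      obtain ⟨z, hz, hd⟩ := near_bd h c hg hq cov hB hnt ht (hin _ hw)
      exact ⟨z, hz, by rw [dist_comm]; linarith⟩
  · -- some point outside
    push Not at hin
    obtain ⟨w, hw, hwR⟩ := hin
    have hF0 : F (g '' trc N γ) = 0 := by
      by_contra hne
      obtain ⟨h1, -⟩ := hF _ ((trc_finite N γ).image g) (hn0.image g) hne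
      have : ‖g w‖ ≤ R := by simpa using h1 ⟨w, hw, rfl⟩
      linarith
    have hFh : Fh F P δ (pat γ q) = 0 := by
      by_contra hne
      rw [Fh] at hne
      split_ifs at hne with hb
      · obtain ⟨h1, -⟩ := hF _ (bd_finite P δ _) hb hne
        obtain ⟨z, hz⟩ := hb
        obtain ⟨z', hz', dz⟩ := bd_near h c hg hq hz
        have h3 : ‖z‖ ≤ R := by simpa using h1 hz
        have h4 : ‖g z'‖ ≤ R + 1 / 2 := by
          have : ‖g z'‖ ≤ ‖z‖ + dist (g z') z := by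
            rw [dist_eq_norm]
            calc ‖g z'‖ = ‖z + (g z' - z)‖ := by congr 1; ring
              _ ≤ _ := norm_add_le _ _
          linarith [c.κ1]
        obtain ⟨t0, ht0, e0⟩ := exists_rep h hz'
        obtain ⟨t1, ht1, e1⟩ := exists_rep h hw
        rw [← e0] at h4
        rw [← e1] at hwR
        have hstep : ∀ t < n, |‖g (sc N (v (t + 1)))‖ - ‖g (sc N (v t))‖| ≤ 1 / 4 := by
          intro t ht
          have h5 : Nr 1 (v (t + 1)) (v t) := by
            rcases h.clo.stp t ht with e | e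
            · rw [← e]; exact ⟨by simp, by simp⟩
            · constructor
              · rw [abs_sub_comm]; linarith [abs_nonneg ((v t).2 - (v (t + 1)).2)]
              · rw [abs_sub_comm]; linarith [abs_nonneg ((v t).1 - (v (t + 1)).1)]
          have h6 := dist_sc_up hN0 h5
          have h7 := hg.up (sc N (v (t + 1))) (sc N (v t))
          have h8 := abs_norm_sub_norm_le (g (sc N (v (t + 1)))) (g (sc N (v t)))
          rw [← dist_eq_norm] at h8
          have h9 : Λ * (3 * (((1 : ℤ) : ℝ) / N)) ≤ 1 / 4 := by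
            have := c.N2
            push_cast
            rw [show Λ * (3 * (1 / (N : ℝ))) = 3 * Λ / N by ring, div_le_iff₀ hNr]
            linarith
          calc _ ≤ _ := h8
            _ ≤ _ := h7
            _ ≤ Λ * (3 * (((1 : ℤ) : ℝ) / N)) := by gcongr
            _ ≤ _ := h9
        have hmid : ∃ t < n, R + 1 / 2 < ‖g (sc N (v t))‖ ∧ ‖g (sc N (v t))‖ ≤ R + 1 / 2 + 1 / 4 := by
          rcases Nat.le_total t0 t1 with l | l
          · obtain ⟨t, -, h5, h6, h7⟩ := ivt_up (f := fun t => ‖g (sc N (v t))‖) (x := R + 1 / 2) (c := 1 / 4) l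
              (fun t _ ht => hstep t (by omega)) h4 (by linarith)
            exact ⟨t, by omega, h6, h7⟩
          · obtain ⟨t, -, h5, h6, h7⟩ := ivt_down (f := fun t => ‖g (sc N (v t))‖) (x := R + 1 / 2) (c := 1 / 4) l
              (by norm_num) (fun t _ ht => hstep t (by omega)) (by linarith) h4
            exact ⟨t, by omega, h6, h7⟩
        obtain ⟨t, ht, h5, h6⟩ := hmid
        obtain ⟨y, hy, hd⟩ := near_bd h c hg hq cov hB hnt ht (by linarith)
        have h7 : ‖y‖ ≤ R := by simpa using h1 hy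
        have h8 : ‖g (sc N (v t))‖ ≤ ‖y‖ + dist y (g (sc N (v t))) := by
          rw [dist_eq_norm, norm_sub_rev]
          calc ‖g (sc N (v t))‖ = ‖y + (g (sc N (v t)) - y)‖ := by congr 1; ring
            _ ≤ _ := norm_add_le _ _
        linarith [c.ρ1]
      · exact hne rfl
    rw [hFh, hF0, sub_zero, abs_zero]
    positivity

end

end Pool.Agent.ROT.I
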