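import Pool.Agent.ROT.I0
import Pool.Agent.ROT.I2a
import Pool.Agent.ROT.IDet

/-!
# ROT, block I, row (I2), second part: the integrals (helper11)

`int_close`: for lattice points near the points of the net the mean of the function of the pattern is near the mean
of the function of the trace.
-/

set_option autoImplicit false

namespace Pool.Agent.ROT.I

open MeasureTheory Filter Topology Tr

noncomputable section

/-- integrability -/
theorem int_of {f : Lps → ℝ} {S : Set Lps} (hS : mu S < ⊤) {C : ℝ} (hC : ∀ γ, |f γ| ≤ C) (h0 : ∀ γ, γ ∉ S → f γ = 0) :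
    Integrable f mu := by
  have h1 : IntegrableOn f S mu :=
    Measure.integrableOn_of_bounded (M := C) hS.ne (measurable_of_countable f).aestronglyMeasurable
      (Eventually.of_forall fun γ => hC γ)
  rwa [integrableOn_iff_integrable_of_support_subset] at h1
  intro γ hγ
  by_contra hc
  exact hγ (h0 γ hc)

variable {m : ℕ} {F : Set ℂ → ℝ} {P : Fin m → ℂ} {δ C L R r Λ s ρ : ℝ} {N : ℕ} {g : ℂ → ℂ} {q : Fin m → Pt}

theorem Fh_le (hC : ∀ K, |F K| ≤ C) (τ : Fin m → ZMod 2) : |Fh F P δ τ| ≤ C := by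
  have h0 : 0 ≤ C := (abs_nonneg _).trans (hC ∅)
  unfold Fh
  split_ifs
  · exact hC _
  · rwa [abs_zero]

/-- the sum over the patterns is the integral -/
theorem sum_PP (hC : ∀ K, |F K| ≤ C) {S : Set Lps} (hS : mu S < ⊤)
    (h0 : ∀ γ, γ ∉ S → Fh F P δ (pat γ.1 q) = 0) :
    ∑ τ : Fin m → ZMod 2, Fh F P δ τ * PP τ q = ∫ γ : Lps, Fh F P δ (pat γ.1 q) ∂mu := by
  classical
  have h1 : ∀ γ : Lps, Fh F P δ (pat γ.1 q) =
      ∑ τ : Fin m → ZMod 2, {γ : Lps | pat γ.1 q = τ}.indicator (fun _ => Fh F P δ τ) γ := by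
    intro γ
    rw [Finset.sum_eq_single (pat γ.1 q)]
    · rw [Set.indicator_of_mem]
      exact rfl
    · intro τ _ hτ
      rw [Set.indicator_of_notMem]
      exact fun h => hτ h.symm
    · intro h
      exact absurd (Finset.mem_univ _) h
  simp only [h1]
  rw [integral_finsetSum]
  · refine Finset.sum_congr rfl fun τ _ => ?_
    rw [integral_indicator_const _ MeasurableSet.of_discrete, smul_eq_mul, mul_comm]
    rfl
  · intro τ _
    refine int_of hS (C := C) (fun γ => ?_) fun γ hγ => ?_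
    · by_cases h : γ ∈ {γ : Lps | pat γ.1 q = τ}
      · rw [Set.indicator_of_mem h]
        exact Fh_le hC τ
      · rw [Set.indicator_of_notMem h, abs_zero]
        exact (abs_nonneg _).trans (hC ∅)
    · by_cases h : γ ∈ {γ : Lps | pat γ.1 q = τ}
      · rw [Set.indicator_of_mem h]
        have := h0 γ hγ
        rwa [show pat γ.1 q = τ from h] at this
      · rw [Set.indicator_of_notMem h]

/-- the relevant loops -/
def Rel (Λ R r : ℝ) (N : ℕ) : Set Lps := Hits N (Λ * (R + 1)) ∩ Big N (r / (2 * Λ))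

/-- **the comparison, in the mean** -/
theorem int_close (hrep : ∀ γ : Lps, ∃ n v, Rep γ.1 n v) (hT : TF F C L) (hL : 0 ≤ L) (hF : SF F R r) (hr : 0 < r)
    (c : Cst Λ δ s ρ r N) (hg : Lin Λ g) (hq : ∀ i, dist (g (sc N (q i))) (P i) ≤ δ)
    (cov : ∀ z, ‖z‖ ≤ R + 2 → ∃ i, dist z (P i) ≤ δ) (hfin : mu (Rel Λ R r N) < ⊤) :
    |(∑ τ : Fin m → ZMod 2, Fh F P δ τ * PP τ q) - ∫ γ : Lps, F (g '' trc N γ.1) ∂mu| ≤
      L * (ρ + 22 * Λ ^ 2 * δ) * mu.real (Rel Λ R r N) +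
        2 * C * mu.real (Rel Λ R r N ∩ {γ | NT γ.1 (18 * Λ * (δ * N)) (s / 2 * N)}) := by
  classical
  have hC := hT.bdd
  have hC0 : 0 ≤ C := (abs_nonneg _).trans (hC ∅)
  have hzero : ∀ γ : Lps, γ ∉ Rel Λ R r N → Fh F P δ (pat γ.1 q) = 0 ∧ F (g '' trc N γ.1) = 0 := by
    intro γ hγ
    obtain ⟨n, v, h⟩ := hrep γ
    exact point_zero hF h c hr hg hq fun h' => hγ ⟨h'.1, h'.2⟩
  rw [sum_PP hC hfin fun γ hγ => (hzero γ hγ).1]
  have i1 := int_of hfin (f := fun γ : Lps => Fh F P δ (pat γ.1 q)) (fun γ => Fh_le hC _) fun γ hγ => (hzero γ hγ).1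
  have i2 := int_of hfin (f := fun γ : Lps => F (g '' trc N γ.1)) (fun γ => hC _) fun γ hγ => (hzero γ hγ).2
  rw [← integral_sub i1 i2]
  set T := {γ : Lps | NT γ.1 (18 * Λ * (δ * N)) (s / 2 * N)} with hTdef
  set c1 := L * (ρ + 22 * Λ ^ 2 * δ) with hc1
  have hρ0 : 0 ≤ ρ := by nlinarith [c.s2, c.s3, c.Λ1, c.δ0, mul_pos (show (0 : ℝ) < Λ by linarith [c.Λ1]) c.δ0]
  have hc10 : 0 ≤ c1 := by
    have := c.δ0
    positivity
  have hfin2 : mu (Rel Λ R r N ∩ T) < ⊤ := lt_of_le_of_lt (measure_mono Set.inter_subset_left) hfin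
  have hb : ∀ γ : Lps, ‖Fh F P δ (pat γ.1 q) - F (g '' trc N γ.1)‖ ≤
      (Rel Λ R r N).indicator (fun _ => c1) γ + (Rel Λ R r N ∩ T).indicator (fun _ => 2 * C) γ := by
    intro γ
    rw [Real.norm_eq_abs]
    by_cases h1 : γ ∈ Rel Λ R r N
    · rw [Set.indicator_of_mem h1]
      by_cases h2 : γ ∈ T
      · rw [Set.indicator_of_mem (show γ ∈ Rel Λ R r N ∩ T from ⟨h1, h2⟩)]
        have a1 := Fh_le (P := P) (δ := δ) hC (pat γ.1 q)
        have a2 := hC (g '' trc N γ.1)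
        have a3 := abs_sub (Fh F P δ (pat γ.1 q)) (F (g '' trc N γ.1))
        linarith
      · rw [Set.indicator_of_notMem (fun h => h2 h.2), add_zero]
        have h3 : ∃ n v, Rep γ.1 n v ∧ ¬ NTp n v (18 * Λ * (δ * N)) (s / 2 * N) := by
          by_contra hc
          push Not at hc
          exact h2 hc
        obtain ⟨n, v, h4, h5⟩ := h3
        exact point_close hT hL hF h4 c hg hq cov h1.2 h5
    · obtain ⟨a1, a2⟩ := hzero γ h1
      rw [a1, a2, sub_zero, abs_zero, Set.indicator_of_notMem h1, Set.indicator_of_notMem (fun h => h1 h.1), add_zero]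
  have j1 : Integrable ((Rel Λ R r N).indicator fun _ => c1) mu :=
    (integrable_indicator_iff MeasurableSet.of_discrete).2 (integrableOn_const hfin.ne)
  have j2 : Integrable ((Rel Λ R r N ∩ T).indicator fun _ => 2 * C) mu :=
    (integrable_indicator_iff MeasurableSet.of_discrete).2 (integrableOn_const hfin2.ne)
  have h6 := norm_integral_le_of_norm_le (j1.add j2) (Eventually.of_forall hb)
  rw [Real.norm_eq_abs] at h6
  refine h6.trans (le_of_eq ?_)
  have h7 := integral_add j1 j2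
  rw [integral_indicator_const _ MeasurableSet.of_discrete, integral_indicator_const _ MeasurableSet.of_discrete,
    smul_eq_mul, smul_eq_mul] at h7
  refine h7.trans ?_
  ring

/-- patterns with a nonzero value have two inside points and an outside point -/
theorem Fh_io (hF : SF F R r) (hδ : 8 * δ < r) {τ : Fin m → ZMod 2} (h : Fh F P δ τ ≠ 0) :
    (∃ i j, i ≠ j ∧ τ i = 1 ∧ τ j = 1) ∧ ∃ i, τ i = 0 := by
  classical
  rw [Fh] at h
  split_ifs at h with hb
  · obtain ⟨-, h2⟩ := hF _ (bd_finite P δ τ) hb h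
    obtain ⟨z, ⟨i, j, rfl, hij, hne⟩, w, ⟨i', j', rfl, hij', hne'⟩, hzw⟩ := exists_of_diam (bd_finite P δ τ) hb h2
    have key : ∀ x y : ZMod 2, x ≠ y → (x = 1 ∧ y = 0) ∨ (x = 0 ∧ y = 1) := by decide
    have hd : 0 ≤ δ := by
      have := dist_nonneg (x := P i) (y := P j)
      linarith
    have h3 : ∀ k k', (k = i ∨ k = j) → (k' = i' ∨ k' = j') → k ≠ k' := by
      rintro k k' hk hk' rfl
      have a1 : dist (P i) (P k) ≤ 4 * δ := by
        rcases hk with rfl | rfl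
        · rw [dist_self]; linarith
        · exact hij
      have a2 : dist (P i') (P k) ≤ 4 * δ := by
        rcases hk' with rfl | rfl
        · rw [dist_self]; linarith
        · exact hij'
      have a3 := dist_triangle_right (P i) (P i') (P k)
      linarith
    rcases key _ _ hne with ⟨a, b⟩ | ⟨a, b⟩ <;> rcases key _ _ hne' with ⟨a', b'⟩ | ⟨a', b'⟩
    · exact ⟨⟨i, i', h3 _ _ (Or.inl rfl) (Or.inl rfl), a, a'⟩, j, b⟩
    · exact ⟨⟨i, j', h3 _ _ (Or.inl rfl) (Or.inr rfl), a, b'⟩, j, b⟩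
    · exact ⟨⟨j, i', h3 _ _ (Or.inr rfl) (Or.inl rfl), b, a'⟩, i, a⟩
    · exact ⟨⟨j, j', h3 _ _ (Or.inr rfl) (Or.inr rfl), b, b'⟩, i, a⟩
  · exact absurd rfl h

/-- the functional of the patterns -/
def TN (F : Set ℂ → ℝ) (P : Fin m → ℂ) (δ : ℝ) (N : ℕ) (ψ : (Fin m → ℂ) → ℝ) : ℝ :=
  ∑ τ : Fin m → ZMod 2, Fh F P δ τ * U N τ ψ

/-- **the functional of the patterns against the integral** -/
theorem TN_close {β : ℂ → ℝ} {η Lb : ℝ} (hβ : Bmp β η Lb) (hηδ : η ≤ δ) {g : LG} {J E : ℝ} (hN : 0 < N)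
    (hΛ : 1 ≤ Λ) (hg' : ∀ z, ‖z‖ ≤ Λ * ‖g z‖)
    (hI : ∀ q : Fin m → Pt, (∀ i, dist (g (sc N (q i))) (P i) ≤ δ) →
      |(∑ τ : Fin m → ZMod 2, Fh F P δ τ * PP τ q) - J| ≤ E) :
    |TN F P δ N (fun x => ph β P fun i => g (x i)) - SN β P g N * J| ≤ SN β P g N * E := by
  have hN' : (0 : ℝ) < N := by exact_mod_cast hN
  obtain ⟨B, hB⟩ : ∃ B : ℝ, ∀ i, ‖P i‖ ≤ B := ⟨∑ i, ‖P i‖, fun i =>
    Finset.single_le_sum (fun j _ => norm_nonneg (P j)) (Finset.mem_univ i)⟩
  set T := (fin_g hΛ hg' hN (B + η)).toFinset with hT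
  set X := Fintype.piFinset fun _ : Fin m => T with hX
  have hout : ∀ q : Fin m → Pt, q ∉ X → ph β P (fun i => g (sc N (q i))) = 0 := by
    intro q hq
    by_contra hc
    apply hq
    rw [hX, Fintype.mem_piFinset]
    intro i
    rw [hT, Set.Finite.mem_toFinset]
    have h1 := ph_ne hβ hc i
    have h2 : ‖g (sc N (q i))‖ ≤ ‖P i‖ + dist (g (sc N (q i))) (P i) := by
      rw [dist_eq_norm]
      calc ‖g (sc N (q i))‖ = ‖P i + (g (sc N (q i)) - P i)‖ := by congr 1; ring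
        _ ≤ _ := norm_add_le _ _
    exact h2.trans (add_le_add (hB i) h1)
  have e1 : SN β P g N = ((N : ℝ) ^ (2 * m))⁻¹ * ∑ q ∈ X, ph β P fun i => g (sc N (q i)) := by
    unfold SN
    rw [tsum_eq_sum hout]
  have e2 : TN F P δ N (fun x => ph β P fun i => g (x i)) = ((N : ℝ) ^ (2 * m))⁻¹ *
      ∑ q ∈ X, ph β P (fun i => g (sc N (q i))) * ∑ τ : Fin m → ZMod 2, Fh F P δ τ * PP τ q := by
    unfold TN U
    have e3 : ∀ τ : Fin m → ZMod 2, ∑' q : Fin m → Pt, ph β P (fun i => g (sc N (q i))) * PP τ q =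
        ∑ q ∈ X, ph β P (fun i => g (sc N (q i))) * PP τ q := fun τ =>
      tsum_eq_sum fun q hq => by rw [hout q hq, zero_mul]
    simp only [e3]
    simp only [Finset.mul_sum]
    rw [Finset.sum_comm]
    refine Finset.sum_congr rfl fun q _ => Finset.sum_congr rfl fun τ _ => ?_
    ring
  rw [e1, e2]
  have e4 : ((N : ℝ) ^ (2 * m))⁻¹ * ∑ q ∈ X, ph β P (fun i => g (sc N (q i))) *
      ∑ τ : Fin m → ZMod 2, Fh F P δ τ * PP τ q -
      ((N : ℝ) ^ (2 * m))⁻¹ * (∑ q ∈ X, ph β P fun i => g (sc N (q i))) * J =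
      ((N : ℝ) ^ (2 * m))⁻¹ * ∑ q ∈ X, ph β P (fun i => g (sc N (q i))) *
        ((∑ τ : Fin m → ZMod 2, Fh F P δ τ * PP τ q) - J) := by
    rw [mul_assoc, ← mul_sub, Finset.sum_mul, ← Finset.sum_sub_distrib]
    congr 1
    exact Finset.sum_congr rfl fun q _ => by ring
  rw [e4, abs_mul, abs_of_pos (by positivity), mul_assoc, Finset.sum_mul]
  refine mul_le_mul_of_nonneg_left ((Finset.abs_sum_le_sum_abs _ _).trans (Finset.sum_le_sum fun q _ => ?_))
    (by positivity)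
  rw [abs_mul, abs_of_nonneg (ph_nonneg hβ _ _)]
  by_cases h0 : ph β P (fun i => g (sc N (q i))) = 0
  · rw [h0, zero_mul, zero_mul]
  · exact mul_le_mul_of_nonneg_left (hI q fun i => (ph_ne hβ h0 i).trans hηδ) (ph_nonneg hβ _ _)

end

end Pool.Agent.ROT.I
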