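import Pool.Agent.ROT.IRot6

/-!
# ROT, block I, row (I3): the group step for the loops modulo translation (helper42)

Instances `Asy` and `Mass` of 58's Group4 for `MT`, and **`rotM_of`**: (I2) + masses + generators bounded and bounded
away from zero ⇒ `RotM`.
-/

set_option autoImplicit false

namespace Pool.Agent.ROT.I.Tr

open MeasureTheory Filter Topology

noncomputable section

/-- the action on the sets -/
def actS (g : LG) (K : Set ℂ) : Set ℂ := g '' K

/-- the class of test functionals -/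
def cls : Set (Set ℂ → ℝ) := {F | ∃ C L r : ℝ, 0 < r ∧ TT F C L r}

theorem actS_one (K : Set ℂ) : actS 1 K = K := by
  change id '' K = K
  exact Set.image_id K

theorem actS_mul (g h : LG) (K : Set ℂ) : actS (g * h) K = actS g (actS h K) := by
  unfold actS
  rw [Set.image_image]
  rfl

/-- a Lipschitz constant of a linear map -/
def nL (g : LG) : ℝ := max 1 (‖g 1‖ + ‖g Complex.I‖)

theorem nL_pos (g : LG) : 0 < nL g := lt_of_lt_of_le one_pos (le_max_left _ _)

theorem nL_le (g : LG) (z : ℂ) : ‖g z‖ ≤ nL g * ‖z‖ :=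
  (norm_le_values g z).trans (mul_le_mul_of_nonneg_right (le_max_right _ _) (norm_nonneg _))

theorem L_nonneg {F : Set ℂ → ℝ} {C L : ℝ} (hF : TF F C L) : 0 ≤ L := by
  have h1 := (abs_nonneg _).trans (hF.lip {0} {1} (Set.finite_singleton _) (Set.finite_singleton _)
    (Set.singleton_nonempty _) (Set.singleton_nonempty _))
  rw [Metric.hausdorffDist_singleton] at h1
  simpa using h1

theorem hd_img {g : LG} {L : ℝ} (hL : 0 ≤ L) (hg : ∀ z, ‖g z‖ ≤ L * ‖z‖) {K K' : Set ℂ} (h : K.Finite)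
    (h' : K'.Finite) (hn : K.Nonempty) (hn' : K'.Nonempty) :
    Metric.hausdorffDist (g '' K) (g '' K') ≤ L * Metric.hausdorffDist K K' := by
  have key : ∀ x y : ℂ, dist (g x) (g y) ≤ L * dist x y := fun x y => by
    rw [dist_eq_norm, dist_eq_norm, ← map_sub]
    exact hg _
  refine Metric.hausdorffDist_le_of_mem_dist (mul_nonneg hL Metric.hausdorffDist_nonneg) ?_ ?_
  · rintro _ ⟨x, hx, rfl⟩
    obtain ⟨y, hy, hd⟩ := hd_ex h h' hn' hx
    exact ⟨g y, ⟨y, hy, rfl⟩, (key x y).trans (mul_le_mul_of_nonneg_left hd hL)⟩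
  · rintro _ ⟨y, hy, rfl⟩
    obtain ⟨x, hx, hd⟩ := hd_ex' h h' hn hy
    refine ⟨g x, ⟨x, hx, rfl⟩, ?_⟩
    rw [dist_comm]
    exact (key x y).trans (mul_le_mul_of_nonneg_left hd hL)

/-- the class is closed under the action -/
theorem TT_act {F : Set ℂ → ℝ} {C L r : ℝ} (hF : TT F C L r) (g : LG) :
    TT (fun K => F (g '' K)) C (L * nL g) (r / nL g) where
  tf :=
    { bdd := fun K => hF.tf.bdd _
      lip := fun K K' hK hK' hn hn' => by
        refine (hF.tf.lip _ _ (hK.image _) (hK'.image _) (hn.image _) (hn'.image _)).trans ?_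
        rw [mul_assoc]
        exact mul_le_mul_of_nonneg_left (hd_img (nL_pos g).le (nL_le g) hK hK' hn hn') (L_nonneg hF.tf) }
  ti := fun K hK hn v => by
    rw [img_tr]
    exact hF.ti _ (hK.image _) (hn.image _) _
  z := fun K hK hn hd => by
    refine hF.z _ (hK.image _) (hn.image _) ?_
    have h1 := diam_img (nL_pos g).le (nL_le g) hK
    rw [lt_div_iff₀ (nL_pos g)] at hd
    linarith

theorem comp_cls {F : Set ℂ → ℝ} (hF : F ∈ cls) (g : LG) : (fun K => F (actS g K)) ∈ cls := by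
  obtain ⟨C, L, r, hr, h⟩ := hF
  exact ⟨C, _, _, div_pos hr (nL_pos g), TT_act h g⟩

/-- two linear maps which are close -/
theorem near_maps {g h : LG} {δ : ℝ} (h1 : ‖h 1 - g 1‖ ≤ δ) (hI : ‖h Complex.I - g Complex.I‖ ≤ δ) (z : ℂ) :
    ‖h z - g z‖ ≤ 2 * δ * ‖z‖ := by
  have e : h z - g z = (z.re : ℂ) * (h 1 - g 1) + (z.im : ℂ) * (h Complex.I - g Complex.I) := by
    have key : ∀ g : LG, g z = z.re * g 1 + z.im * g Complex.I := by
      intro g
      conv_lhs => rw [show z = z.re • (1 : ℂ) + z.im • Complex.I by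
        apply Complex.ext <;> simp]
      rw [map_add, map_smul, map_smul]
      simp
    rw [key h, key g]
    ring
  rw [e]
  refine (norm_add_le _ _).trans ?_
  rw [norm_mul, norm_mul, Complex.norm_real, Complex.norm_real, Real.norm_eq_abs, Real.norm_eq_abs]
  have a1 := mul_le_mul (Complex.abs_re_le_norm z) h1 (norm_nonneg _) (norm_nonneg _)
  have a2 := mul_le_mul (Complex.abs_im_le_norm z) hI (norm_nonneg _) (norm_nonneg _)
  linarith

/-- a translation invariant functional on the images under two linear maps -/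
theorem F_near {F : Set ℂ → ℝ} {C L r : ℝ} (hF : TT F C L r) {g h : LG} {δ : ℝ} (h1 : ‖h 1 - g 1‖ ≤ δ)
    (hI : ‖h Complex.I - g Complex.I‖ ≤ δ) {K : Set ℂ} (hK : K.Finite) (hn : K.Nonempty) :
    |F (h '' K) - F (g '' K)| ≤ L * (2 * δ * Metric.diam K) := by
  obtain ⟨z0, hz0⟩ := hn
  have hδ : 0 ≤ δ := (norm_nonneg _).trans h1
  set K0 : Set ℂ := (fun z => z + -z0) '' K with hK0
  have hf0 : K0.Finite := hK.image _
  have hn0 : K0.Nonempty := ⟨z0 + -z0, z0, hz0, rfl⟩
  have e : ∀ g : LG, F (g '' K) = F (g '' K0) := by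
    intro g
    rw [hK0, img_tr]
    exact (hF.ti _ (hK.image _) (Set.Nonempty.image _ ⟨z0, hz0⟩) _).symm
  rw [e h, e g]
  refine (hF.tf.lip _ _ (hf0.image _) (hf0.image _) (hn0.image _) (hn0.image _)).trans ?_
  refine mul_le_mul_of_nonneg_left ?_ (L_nonneg hF.tf)
  have hb : ∀ z ∈ K0, ‖h z - g z‖ ≤ 2 * δ * Metric.diam K := by
    rintro _ ⟨z, hz, rfl⟩
    refine (near_maps h1 hI _).trans (mul_le_mul_of_nonneg_left ?_ (by positivity))
    change ‖z + -z0‖ ≤ _
    rw [← sub_eq_add_neg, ← dist_eq_norm]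
    exact Metric.dist_le_diam_of_mem hK.isBounded hz hz0
  refine Metric.hausdorffDist_le_of_mem_dist (mul_nonneg (by positivity) Metric.diam_nonneg) ?_ ?_
  · rintro _ ⟨z, hz, rfl⟩
    refine ⟨g z, ⟨z, hz, rfl⟩, ?_⟩
    rw [dist_eq_norm]
    exact hb z hz
  · rintro _ ⟨z, hz, rfl⟩
    refine ⟨h z, ⟨z, hz, rfl⟩, ?_⟩
    rw [dist_comm, dist_eq_norm]
    exact hb z hz

/-- equicontinuity -/
theorem equi_MT (hM : Mass) {F : Set ℂ → ℝ} {C L r : ℝ} (hr : 0 < r) (hF : TT F C L r) (g : LG) {ε : ℝ}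
    (hε : 0 < ε) : ∃ δ > 0, ∃ N0 : ℕ, ∀ N ≥ N0, ∀ h : LG, ‖h 1 - g 1‖ < δ → ‖h Complex.I - g Complex.I‖ < δ →
      |MT N (fun K => F (h '' K)) - MT N (fun K => F (g '' K))| ≤ ε := by
  obtain ⟨CM, hCM0, hCM⟩ := mass_real hM
  have hZ := Z0_fin hM
  have hC0 : 0 ≤ C := (abs_nonneg _).trans (hF.tf.bdd ∅)
  have hL0 := L_nonneg hF.tf
  set Λ : ℝ := nL g + 2 with hΛ
  have hΛ0 : 0 < Λ := by
    have := nL_pos g
    linarith
  -- the scale
  obtain ⟨S, hS1, hS⟩ : ∃ S : ℝ, 0 < S ∧ 2 * C * (CM / S ^ 2) ≤ ε / 2 := by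
    refine ⟨4 * C * CM / ε + 1, by positivity, ?_⟩
    have h1 : 0 ≤ 4 * C * CM / ε := by positivity
    have h3 : (4 * C * CM / ε + 1) ≤ (4 * C * CM / ε + 1) ^ 2 := by nlinarith
    rw [mul_div_assoc', div_le_iff₀ (by positivity)]
    calc 2 * C * CM = ε / 2 * (4 * C * CM / ε) := by field_simp; ring
      _ ≤ ε / 2 * (4 * C * CM / ε + 1) ^ 2 := mul_le_mul_of_nonneg_left (by linarith) (by positivity)
  set c1 : ℝ := 2 * L * S * (CM / (r / Λ) ^ 2) with hc1
  have hc10 : 0 ≤ c1 := by positivity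
  refine ⟨min 1 (ε / (2 * (c1 + 1))), by positivity, ?_⟩
  obtain ⟨N1, hN1⟩ := (hCM S hS1).exists_forall_of_atTop
  obtain ⟨N2, hN2⟩ := (hCM (r / Λ) (by positivity)).exists_forall_of_atTop
  refine ⟨max N1 N2, fun N hN h hh1 hhI => ?_⟩
  have t1 := hN1 N ((le_max_left _ _).trans hN)
  have t2 := hN2 N ((le_max_right _ _).trans hN)
  set δ : ℝ := min 1 (ε / (2 * (c1 + 1))) with hδ
  have hδ0 : 0 < δ := by positivity
  have hδ1 : δ ≤ 1 := min_le_left _ _
  have hδ2 : δ ≤ ε / (2 * (c1 + 1)) := min_le_right _ _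
  have hhΛ : ∀ z, ‖h z‖ ≤ Λ * ‖z‖ := by
    intro z
    have h3 := near_maps hh1.le hhI.le z
    have h4 := nL_le g z
    have h5 : ‖h z‖ ≤ ‖h z - g z‖ + ‖g z‖ := by
      have := norm_add_le (h z - g z) (g z)
      rwa [sub_add_cancel] at this
    have h6 : 2 * δ * ‖z‖ ≤ 2 * ‖z‖ := mul_le_mul_of_nonneg_right (by linarith) (norm_nonneg _)
    rw [hΛ, add_mul]
    linarith
  have hgΛ : ∀ z, ‖g z‖ ≤ Λ * ‖z‖ := by
    intro z
    refine (nL_le g z).trans (mul_le_mul_of_nonneg_right ?_ (norm_nonneg _))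
    rw [hΛ]; linarith
  -- the integrand
  set H : Lps → ℝ := fun γ => F (h '' trc N γ.1) - F (g '' trc N γ.1) with hH
  have hHb : ∀ γ, |H γ| ≤ 2 * C := fun γ => by
    have a1 := hF.tf.bdd (h '' trc N γ.1)
    have a2 := hF.tf.bdd (g '' trc N γ.1)
    have a3 := abs_sub (F (h '' trc N γ.1)) (F (g '' trc N γ.1))
    simp only [hH]
    linarith
  have hHz : ∀ γ : Lps, γ ∉ Big N (r / Λ) → H γ = 0 := by
    intro γ hγ
    have hd : Metric.diam (trc N γ.1) < r / Λ := by
      by_contra hc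
      exact hγ (big_of_diam (not_lt.1 hc))
    rw [lt_div_iff₀ hΛ0] at hd
    have a1 := diam_img hΛ0.le hhΛ (trc_fin N γ.1)
    have a2 := diam_img hΛ0.le hgΛ (trc_fin N γ.1)
    simp only [hH]
    rw [hF.z _ ((trc_fin N _).image _) ((trc_ne N γ).image _) (by linarith),
      hF.z _ ((trc_fin N _).image _) ((trc_ne N γ).image _) (by linarith), sub_zero]
  have e1 : MT N (fun K => F (h '' K)) - MT N (fun K => F (g '' K)) = (N : ℝ) ^ 2 * ∫ γ in Z0, H γ ∂mu := by
    unfold MT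
    rw [← mul_sub, ← integral_sub (int_Z0 hZ fun γ => hF.tf.bdd _) (int_Z0 hZ fun γ => hF.tf.bdd _)]
  -- large and small diameters
  have e2 : ∫ γ in Z0, H γ ∂mu = (∫ γ in Z0, (Big N S).indicator H γ ∂mu) +
      ∫ γ in Z0, (Big N S)ᶜ.indicator H γ ∂mu := by
    rw [← integral_add (int_Z0 hZ (C := 2 * C) fun γ => ?_) (int_Z0 hZ (C := 2 * C) fun γ => ?_)]
    · refine integral_congr_ae (Eventually.of_forall fun γ => ?_)
      exact (congrFun (Set.indicator_self_add_compl (Big N S) H) γ).symm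
    · by_cases hγ : γ ∈ Big N S
      · rw [Set.indicator_of_mem hγ]; exact hHb γ
      · rw [Set.indicator_of_notMem hγ, abs_zero]; positivity
    · by_cases hγ : γ ∈ (Big N S)ᶜ
      · rw [Set.indicator_of_mem hγ]; exact hHb γ
      · rw [Set.indicator_of_notMem hγ, abs_zero]; positivity
  have b1 := int_Z0_le hZ (h := (Big N S).indicator H) (C := 2 * C) (s := Big N S)
    (fun γ hγ => by rw [Set.indicator_of_mem hγ.2]; exact hHb γ) (fun γ _ hγ => Set.indicator_of_notMem hγ _)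
  have b2 := int_Z0_le hZ (h := (Big N S)ᶜ.indicator H) (C := L * (2 * δ * S)) (s := Big N (r / Λ))
    (fun γ hγ => by
      by_cases hγ2 : γ ∈ (Big N S)ᶜ
      · rw [Set.indicator_of_mem hγ2]
        refine (F_near hF hh1.le hhI.le (trc_fin N _) (trc_ne N γ)).trans ?_
        have hd : Metric.diam (trc N γ.1) ≤ S := by
          by_contra hc
          exact hγ2 (big_of_diam (not_le.1 hc).le)
        exact mul_le_mul_of_nonneg_left (mul_le_mul_of_nonneg_left hd (by positivity)) hL0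
      · rw [Set.indicator_of_notMem hγ2, abs_zero]
        positivity) (fun γ _ hγ => by
      by_cases hγ2 : γ ∈ (Big N S)ᶜ
      · rw [Set.indicator_of_mem hγ2]; exact hHz γ hγ
      · rw [Set.indicator_of_notMem hγ2])
  rw [e1, e2, mul_add]
  refine (abs_add_le _ _).trans ?_
  rw [abs_mul, abs_mul, abs_of_nonneg (by positivity : (0 : ℝ) ≤ (N : ℝ) ^ 2)]
  have d1 : (N : ℝ) ^ 2 * |∫ γ in Z0, (Big N S).indicator H γ ∂mu| ≤ ε / 2 :=
    calc _ ≤ (N : ℝ) ^ 2 * (2 * C * mu.real (Z0 ∩ Big N S)) := mul_le_mul_of_nonneg_left b1 (by positivity)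
      _ = 2 * C * ((N : ℝ) ^ 2 * mu.real (Z0 ∩ Big N S)) := by ring
      _ ≤ 2 * C * (CM / S ^ 2) := mul_le_mul_of_nonneg_left t1 (by positivity)
      _ ≤ ε / 2 := hS
  have d2 : (N : ℝ) ^ 2 * |∫ γ in Z0, (Big N S)ᶜ.indicator H γ ∂mu| ≤ ε / 2 :=
    calc _ ≤ (N : ℝ) ^ 2 * (L * (2 * δ * S) * mu.real (Z0 ∩ Big N (r / Λ))) :=
          mul_le_mul_of_nonneg_left b2 (by positivity)
      _ = 2 * L * S * ((N : ℝ) ^ 2 * mu.real (Z0 ∩ Big N (r / Λ))) * δ := by ring
      _ ≤ 2 * L * S * (CM / (r / Λ) ^ 2) * δ :=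
          mul_le_mul_of_nonneg_right (mul_le_mul_of_nonneg_left t2 (by positivity)) hδ0.le
      _ = c1 * δ := by rw [hc1]
      _ ≤ (c1 + 1) * (ε / (2 * (c1 + 1))) := mul_le_mul (by linarith) hδ2 hδ0.le (by positivity)
      _ = ε / 2 := by field_simp
  linarith

/-- **the instance of the frame** -/
theorem asy_MT (hM : Mass) : Asy actS cls MT where
  one := actS_one
  mul := actS_mul
  comp := fun F hF g => comp_cls hF g
  equi := fun F hF g ε hε => by
    obtain ⟨C, L, r, hr, h⟩ := hF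
    exact equi_MT hM hr h g hε

/-! ### the masses -/

/-- the size functional -/
def Frr (r : ℝ) (K : Set ℂ) : ℝ := max 0 (min 1 (Metric.diam K - r))

theorem Frr_nonneg (r : ℝ) (K : Set ℂ) : 0 ≤ Frr r K := le_max_left _ _

theorem Frr_le (r : ℝ) (K : Set ℂ) : Frr r K ≤ 1 := max_le zero_le_one (min_le_left _ _)

theorem Frr_zero {r : ℝ} {K : Set ℂ} (h : Metric.diam K < r) : Frr r K = 0 := by
  unfold Frr
  rw [max_eq_left]
  exact (min_le_right _ _).trans (by linarith)

theorem Frr_one {r : ℝ} {K : Set ℂ} (h : r + 1 ≤ Metric.diam K) : Frr r K = 1 := by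
  unfold Frr
  rw [min_eq_left (by linarith), max_eq_right zero_le_one]

theorem Frr_TT (r : ℝ) : TT (Frr r) 1 2 r where
  tf :=
    { bdd := fun K => by
        rw [abs_of_nonneg (Frr_nonneg r K)]
        exact Frr_le r K
      lip := fun K K' hK hK' hn hn' => by
        unfold Frr
        have h1 := abs_max_sub_max_le_abs (min 1 (Metric.diam K - r)) (min 1 (Metric.diam K' - r)) 0
        have h2 := abs_min_sub_min_le_max 1 (Metric.diam K - r) 1 (Metric.diam K' - r)
        rw [max_comm 0, max_comm 0 (min 1 (Metric.diam K' - r))]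
        refine h1.trans (h2.trans ?_)
        rw [sub_self, abs_zero, max_eq_right (abs_nonneg _), sub_sub_sub_cancel_right]
        exact diam_lip' hK hK' hn hn' }
  ti := fun K _ _ v => by
    unfold Frr
    rw [show Metric.diam ((fun z => z + v) '' K) = Metric.diam K from
      (IsometryEquiv.addRight v).isometry.diam_image K]
  z := fun K _ _ h => Frr_zero h

/-- the expansion of the diameter, all sets -/
theorem hexp_all (g : LG) (K : Set ℂ) (h0 : 0 < Metric.diam K) : ∃ k : ℕ, k < 3 ∧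
    Real.sqrt (nn g) * Metric.diam K ≤ Metric.diam (actS g (actS (R6 ^ k) K)) := by
  have hb : Bornology.IsBounded K := by
    by_contra hc
    rw [Metric.diam_eq_zero_of_unbounded hc] at h0
    exact lt_irrefl _ h0
  obtain ⟨k, hk, hk2⟩ := exists_expand_diam g (closure K) hb.isCompact_closure
  refine ⟨k, hk, ?_⟩
  have e1 : (R6 ^ k : LG) '' closure K = closure ((R6 ^ k : LG) '' K) :=
    (R6 ^ k : LG).toHomeomorph.image_closure K
  have e2 : g '' closure ((R6 ^ k : LG) '' K) = closure (g '' ((R6 ^ k : LG) '' K)) :=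
    g.toHomeomorph.image_closure _
  rw [e1, e2, Metric.diam_closure, Metric.diam_closure] at hk2
  exact hk2

theorem big_two (N : ℕ) : Big (2 * N) 1 = Big N 2 := by
  have key : ∀ q : Pt, sc (2 * N) q = (1 / 2 : ℝ) • sc N q := by
    intro q
    rw [sc_ps1, sc_ps1, smul_smul]
    congr 1
    push_cast
    rw [mul_inv]
    ring
  have kd : ∀ p q : Pt, dist (sc (2 * N) p) (sc (2 * N) q) = (1 / 2) * dist (sc N p) (sc N q) := by
    intro p q
    rw [key, key, dist_smul₀, Real.norm_of_nonneg (by norm_num)]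
  ext γ
  constructor
  · rintro ⟨_, ⟨v, hv, rfl⟩, _, ⟨w, hw, rfl⟩, h⟩
    rw [kd] at h
    exact ⟨_, ⟨v, hv, rfl⟩, _, ⟨w, hw, rfl⟩, by linarith⟩
  · rintro ⟨_, ⟨v, hv, rfl⟩, _, ⟨w, hw, rfl⟩, h⟩
    refine ⟨_, ⟨v, hv, rfl⟩, _, ⟨w, hw, rfl⟩, ?_⟩
    rw [kd]
    linarith

/-- **the instance of the masses** -/
theorem mass_MT (hM : Mass) (hLo : MassLo) : ROT.Mass actS cls MT Metric.diam Frr where
  hexp := hexp_all
  mem := fun r hr => ⟨1, 2, r, by linarith, Frr_TT r⟩
  nonneg := Frr_nonneg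
  le_one := Frr_le
  supp := fun r K h => Frr_zero h
  full := fun r K h => Frr_one h
  sub3 := fun N F hF F0 hF0 F1 hF1 F2 hF2 h => by
    obtain ⟨C, L, r, -, hF⟩ := hF
    obtain ⟨C0, L0, r0, -, hF0⟩ := hF0
    obtain ⟨C1, L1, r1, -, hF1⟩ := hF1
    obtain ⟨C2, L2, r2, -, hF2⟩ := hF2
    have hZ := Z0_fin hM
    have i0 := int_Z0 hZ (h := fun γ => F0 (trc N γ.1)) fun γ => hF0.tf.bdd _
    have i1 := int_Z0 hZ (h := fun γ => F1 (trc N γ.1)) fun γ => hF1.tf.bdd _
    have i2 := int_Z0 hZ (h := fun γ => F2 (trc N γ.1)) fun γ => hF2.tf.bdd _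
    unfold MT
    rw [← mul_add, ← mul_add]
    refine mul_le_mul_of_nonneg_left ?_ (by positivity)
    have i01 : IntegrableOn (fun γ : Lps => F0 (trc N γ.1) + F1 (trc N γ.1)) Z0 mu := i0.add i1
    have i012 : IntegrableOn (fun γ : Lps => F0 (trc N γ.1) + F1 (trc N γ.1) + F2 (trc N γ.1)) Z0 mu := i01.add i2
    rw [← integral_add i0 i1, ← integral_add i01 i2]
    exact integral_mono (int_Z0 hZ fun γ => hF.tf.bdd _) i012 fun γ => h _
  K1 := by
    obtain ⟨c, hc, hLo⟩ := hLo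
    have hZ := Z0_fin hM
    refine ⟨c / 4, by positivity, ?_⟩
    have h2 : Tendsto (fun N : ℕ => 2 * N) atTop atTop := tendsto_id.const_mul_atTop' (by norm_num)
    filter_upwards [h2.eventually hLo, eventually_gt_atTop 0] with N h3 hN
    have hN' : (0 : ℝ) < N := by exact_mod_cast hN
    rw [big_two] at h3
    have hfin : mu (Z0 ∩ Big N 2) ≠ ⊤ := (lt_of_le_of_lt (measure_mono Set.inter_subset_left) hZ).ne
    have h4 : c / ((2 * N : ℕ) : ℝ) ^ 2 ≤ mu.real (Z0 ∩ Big N 2) := by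
      rw [Measure.real, ← ENNReal.ofReal_le_iff_le_toReal hfin]
      exact h3
    have h5 : mu.real (Z0 ∩ Big N 2) ≤ ∫ γ in Z0, Frr 1 (trc N γ.1) ∂mu := by
      have e : mu.real (Z0 ∩ Big N 2) = ∫ γ in Z0, (Big N 2).indicator (fun _ => (1 : ℝ)) γ ∂mu := by
        rw [integral_indicator MeasurableSet.of_discrete, setIntegral_const, smul_eq_mul, mul_one,
          measureReal_restrict_apply MeasurableSet.of_discrete, Set.inter_comm]
      rw [e]
      refine integral_mono (int_Z0 hZ (C := 1) fun γ => ?_) (int_Z0 hZ fun γ => (Frr_TT 1).tf.bdd _) fun γ => ?_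
      · by_cases hγ : γ ∈ Big N 2
        · rw [Set.indicator_of_mem hγ, abs_one]
        · rw [Set.indicator_of_notMem hγ, abs_zero]; exact zero_le_one
      · by_cases hγ : γ ∈ Big N 2
        · simp only
          rw [Set.indicator_of_mem hγ, Frr_one]
          obtain ⟨z, hz, w, hw, h6⟩ := hγ
          have := Metric.dist_le_diam_of_mem (trc_fin N γ.1).isBounded hz hw
          linarith
        · simp only
          rw [Set.indicator_of_notMem hγ]
          exact Frr_nonneg _ _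
    unfold MT
    calc c / 4 = (N : ℝ) ^ 2 * (c / ((2 * N : ℕ) : ℝ) ^ 2) := by
          push_cast
          field_simp
          ring
      _ ≤ (N : ℝ) ^ 2 * ∫ γ in Z0, Frr 1 (trc N γ.1) ∂mu :=
          mul_le_mul_of_nonneg_left (h4.trans h5) (by positivity)
  K2 := fun ε hε => by
    obtain ⟨CM, hCM0, hCM⟩ := mass_real hM
    have hZ := Z0_fin hM
    refine ⟨CM / ε + 1, by linarith [div_nonneg hCM0 hε.le], ?_⟩
    have hr : 0 < CM / ε + 1 := by positivity
    filter_upwards [hCM (CM / ε + 1) hr] with N h1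
    have h2 := int_Z0_le hZ (h := fun γ => Frr (CM / ε + 1) (trc N γ.1)) (C := 1) (s := Big N (CM / ε + 1))
      (fun γ _ => (Frr_TT _).tf.bdd _) (fun γ _ hγ => Frr_zero (by
        by_contra hc
        exact hγ (big_of_diam (not_lt.1 hc))))
    unfold MT
    have h3 : (CM / ε + 1) ≤ (CM / ε + 1) ^ 2 := by
      have : 0 ≤ CM / ε := by positivity
      nlinarith
    calc (N : ℝ) ^ 2 * ∫ γ in Z0, Frr (CM / ε + 1) (trc N γ.1) ∂mu
        ≤ (N : ℝ) ^ 2 * (1 * mu.real (Z0 ∩ Big N (CM / ε + 1))) :=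
          mul_le_mul_of_nonneg_left ((le_abs_self _).trans h2) (by positivity)
      _ = (N : ℝ) ^ 2 * mu.real (Z0 ∩ Big N (CM / ε + 1)) := by ring
      _ ≤ CM / (CM / ε + 1) ^ 2 := h1
      _ ≤ ε := by
          rw [div_le_iff₀ (by positivity)]
          calc CM = ε * (CM / ε) := by field_simp
            _ ≤ ε * (CM / ε + 1) ^ 2 := mul_le_mul_of_nonneg_left (by linarith) hε.le

theorem BC_lower (a b : ℝ) : |a| ≤ ‖BC a b 1‖ + ‖BC a b Complex.I‖ := by
  have h3 : √3 ≠ 0 := by positivity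
  have hs : √3 ^ 2 = 3 := Real.sq_sqrt (by norm_num)
  have e1' : BC a b 1 = (-a * cx 1 + b * cy 1) • e1 + (-b * cx 1 + a * cy 1) • e2 := rfl
  have e2' : BC a b Complex.I = (-a * cx Complex.I + b * cy Complex.I) • e1 +
    (-b * cx Complex.I + a * cy Complex.I) • e2 := rfl
  have r1 : (BC a b 1).re = -(a + b / 2) := by
    rw [e1']
    simp [cx, cy, e1, e2]
    ring
  have i1 : (BC a b Complex.I).re = √3 / 2 * b := by
    rw [e2']
    simp [cx, cy, e1, e2]
    field_simp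
  have h1 := Complex.abs_re_le_norm (BC a b 1)
  have h2 := Complex.abs_re_le_norm (BC a b Complex.I)
  rw [r1, abs_neg] at h1
  rw [i1, abs_mul, abs_of_pos (by positivity : (0 : ℝ) < √3 / 2)] at h2
  have h4 : (1 : ℝ) ≤ √3 := by
    rw [Real.le_sqrt' (by norm_num)]
    norm_num
  have h5 : |b| / 2 ≤ √3 / 2 * |b| := by nlinarith [abs_nonneg b]
  have h6 : |a| ≤ |a + b / 2| + |b| / 2 := by
    have := abs_sub (a + b / 2) (b / 2)
    rw [add_sub_cancel_right, abs_div, abs_of_pos (by norm_num : (0 : ℝ) < 2)] at this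
    exact this
  linarith

end

end Pool.Agent.ROT.I.Tr

namespace Pool.Agent.ROT.I

open MeasureTheory Filter Topology Tr

/-- **(I3)**: block I from (I2) and the masses -/
theorem rotM_of {a b : ℕ → ℝ} (hM : Mass) (hLo : MassLo) {A c : ℝ} (ha : ∀ N, |a N| ≤ A) (hb : ∀ N, |b N| ≤ A)
    (hc : 0 < c) (hac : ∀ᶠ N in atTop, c ≤ |a N|) (h2 : I2 a b) : RotM := by
  intro F C L r hr hF ε hε
  have hB : ∀ N, ‖BC (a N) (b N) 1‖ ≤ 2 * A * (‖e1‖ + ‖e2‖) := fun N => by
    refine (norm_BC_le _ _ _).trans ?_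
    rw [norm_one, mul_one]
    exact mul_le_mul_of_nonneg_right (by linarith [ha N, hb N]) (by positivity)
  have hBI : ∀ N, ‖BC (a N) (b N) Complex.I‖ ≤ 2 * A * (‖e1‖ + ‖e2‖) := fun N => by
    refine (norm_BC_le _ _ _).trans ?_
    rw [Complex.norm_I, mul_one]
    exact mul_le_mul_of_nonneg_right (by linarith [ha N, hb N]) (by positivity)
  have hcls : F ∈ cls := ⟨C, L, r, hr, hF⟩
  have hrot : ∀ t : ℝ, Tendsto (fun N => MT N (fun x => F (actS (rot (Complex.exp (t * Complex.I))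
      (Complex.exp_ne_zero _)) x)) - MT N F) atTop (𝓝 0) := fun t =>
    rot_asy (asy_MT hM) (mass_MT hM hLo) (fun F hF => by
        obtain ⟨C, L, r, hr, hF⟩ := hF
        exact MT_R6 hM hr hF) (fun N => BC (a N) (b N)) _ c hB hBI hc (by
        filter_upwards [hac] with N h
        exact h.trans (BC_lower _ _)) (fun F hF τ => by
        obtain ⟨C, L, r, hr, hF⟩ := hF
        exact mt_flow hM ha hb h2 hr hF τ) F hcls t
  obtain ⟨N0, hN0⟩ := rot_asy_unif (asy_MT hM) hcls hrot hε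
  refine ⟨N0, fun N hN t => ?_⟩
  have h := hN0 N hN t
  simp only [rotS_eq]
  exact h

end Pool.Agent.ROT.I
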