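import Pool.Agent.ROT.IMain
import Pool.Agent.ROT.IInst

/-!
# ROT, block I: the last line (helper42)

The weak identity (block A), the masses, `Far` and the absence of near self touches give `RotM`.
-/

set_option autoImplicit false

namespace Pool.Agent.ROT.I

open MeasureTheory Filter Topology

/-- **BLOCK I** -/
theorem rotM_weak {a b : ℕ → ℝ} (hM : Mass) (hLo : MassLo) (hF : Far) (hS : NTS) {A c : ℝ}
    (ha : ∀ᶠ N in atTop, |a N| ≤ A) (hb : ∀ᶠ N in atTop, |b N| ≤ A) (hc : 0 < c) (hac : ∀ᶠ N in atTop, c ≤ |a N|)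
    (hW : Weak a b) : RotM := by
  have hA : 0 ≤ A := by
    obtain ⟨N, hN⟩ := ha.exists
    exact (abs_nonneg _).trans hN
  refine rotM_of hM hLo (trn_le hA a) (trn_le hA b) hc ?_ (i2_weak hM hF hS (trn_le hA a) (trn_le hA b)
    (weak_congr hW (ha.mono fun _ h => (trn_eq h).symm) (hb.mono fun _ h => (trn_eq h).symm)))
  filter_upwards [ha, hac] with N h1 h2
  rw [trn_eq h1]
  exact h2

/-- the form of block A: `Weak a (-b)` with `qm ≤ a ≤ A`, `0 ≤ b ≤ A` -/
theorem rotM_lr {a b : ℕ → ℝ} (hM : Mass) (hLo : MassLo) (hF : Far) (hS : NTS) {A qm : ℝ} (hq : 0 < qm)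
    (hab : ∀ N, qm ≤ a N ∧ a N ≤ A ∧ 0 ≤ b N ∧ b N ≤ A) (hW : Weak a fun N => -b N) : RotM := by
  refine rotM_weak (A := A) hM hLo hF hS (Eventually.of_forall fun N => ?_) (Eventually.of_forall fun N => ?_) hq
    (Eventually.of_forall fun N => ?_) hW
  · obtain ⟨h1, h2, -, -⟩ := hab N
    rw [abs_of_nonneg (by linarith)]
    exact h2
  · obtain ⟨-, -, h3, h4⟩ := hab N
    rw [abs_neg, abs_of_nonneg h3]
    exact h4
  · exact (hab N).1.trans (le_abs_self _)

end Pool.Agent.ROT.I
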