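import Pool.Agent.ROT.Group4

/-!
# ROT: weak invariance implies invariance under the flow, lattice level (helper58)

`U φ = ∑' x, c x * φ (p x)` with points `p x ∈ ℂ ^ m`, finitely many in every ball.  If
`U (D φ · B x)` is small for all `φ` of class `C^(1,1)` with compact support, uniformly in the
bounds of `φ`, then `U (φ ∘ exp (τ B)) - U φ` is small.
-/

open Complex Set Filter Topology
open scoped ComplexConjugate

namespace Pool.Agent.ROT

noncomputable section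

/-- `m` points of the plane -/
abbrev Pm (m : ℕ) := Fin m → ℂ

variable {m : ℕ}

/-- diagonal action of a linear map -/
def dg (B : LB) : Pm m →L[ℝ] Pm m :=
  ContinuousLinearMap.pi fun i => B.comp (ContinuousLinearMap.proj i)

@[simp] theorem dg_apply (B : LB) (x : Pm m) (i : Fin m) : dg B x i = B (x i) := rfl

/-- diagonal action of an automorphism -/
def dgf (g : LG) : Pm m →L[ℝ] Pm m := dg (g : LB)

@[simp] theorem dgf_apply (g : LG) (x : Pm m) (i : Fin m) : dgf g x i = g (x i) := rfl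

/-- bounded `C^(1,1)` functions with support in a ball -/
structure C11 (φ : Pm m → ℝ) (R K : ℝ) : Prop where
  diff : Differentiable ℝ φ
  supp : ∀ x, R < ‖x‖ → φ x = 0
  b0 : ∀ x, |φ x| ≤ K
  b1 : ∀ x, ‖fderiv ℝ φ x‖ ≤ K
  b2 : ∀ x y, ‖fderiv ℝ φ x - fderiv ℝ φ y‖ ≤ K * ‖x - y‖

theorem norm_le_values (g : LG) (z : ℂ) : ‖g z‖ ≤ (‖g 1‖ + ‖g I‖) * ‖z‖ := by
  have h1 : g z = z.re * g 1 + z.im * g I := by
    conv_lhs => rw [show z = z.re • (1 : ℂ) + z.im • I by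
      apply Complex.ext <;> simp]
    rw [map_add, map_smul, map_smul]
    simp
  rw [h1]
  have a := abs_re_le_norm z
  have b := abs_im_le_norm z
  calc ‖(z.re : ℂ) * g 1 + z.im * g I‖ ≤ ‖(z.re : ℂ) * g 1‖ + ‖(z.im : ℂ) * g I‖ := norm_add_le _ _
    _ = |z.re| * ‖g 1‖ + |z.im| * ‖g I‖ := by
        rw [norm_mul, norm_mul, norm_real, norm_real, Real.norm_eq_abs, Real.norm_eq_abs]
    _ ≤ ‖z‖ * ‖g 1‖ + ‖z‖ * ‖g I‖ := by gcongr
    _ = (‖g 1‖ + ‖g I‖) * ‖z‖ := by ring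

theorem norm_dgf_le {g : LG} {L : ℝ} (hL : ‖g 1‖ + ‖g I‖ ≤ L) (x : Pm m) :
    ‖dgf g x‖ ≤ L * ‖x‖ := by
  have hL0 : 0 ≤ L := le_trans (by positivity) hL
  rw [pi_norm_le_iff_of_nonneg (by positivity)]
  intro i
  rw [dgf_apply]
  exact (norm_le_values g (x i)).trans (mul_le_mul hL (norm_le_pi_norm x i) (norm_nonneg _) hL0)

theorem norm_dgf_clm_le {g : LG} {L : ℝ} (hL : ‖g 1‖ + ‖g I‖ ≤ L) :
    ‖(dgf g : Pm m →L[ℝ] Pm m)‖ ≤ L :=
  ContinuousLinearMap.opNorm_le_bound _ (le_trans (by positivity) hL) (norm_dgf_le hL)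

theorem fderiv_comp_dgf {φ : Pm m → ℝ} (hφ : Differentiable ℝ φ) (g : LG) (x : Pm m) :
    fderiv ℝ (fun x => φ (dgf g x)) x = (fderiv ℝ φ (dgf g x)).comp (dgf g) := by
  have h1 : HasFDerivAt (fun x : Pm m => φ (dgf g x)) ((fderiv ℝ φ (dgf g x)).comp (dgf g)) x :=
    (hφ (dgf g x)).hasFDerivAt.comp x (dgf g : Pm m →L[ℝ] Pm m).hasFDerivAt
  exact h1.fderiv

/-- the class is closed under the action -/
theorem C11.comp {φ : Pm m → ℝ} {R K : ℝ} (h : C11 φ R K) {g : LG} {L : ℝ} (h1 : 1 ≤ L)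
    (hL : ‖g 1‖ + ‖g I‖ ≤ L) (hL' : ‖g⁻¹ 1‖ + ‖g⁻¹ I‖ ≤ L) :
    C11 (fun x => φ (dgf g x)) (L * R) (K * L ^ 2) := by
  have hL0 : 0 ≤ L := by linarith
  have hK : 0 ≤ K := le_trans (abs_nonneg _) (h.b0 0)
  have hL2 : 1 ≤ L ^ 2 := by nlinarith
  refine ⟨h.diff.comp (dgf g : Pm m →L[ℝ] Pm m).differentiable, ?_, ?_, ?_, ?_⟩
  · intro x hx
    apply h.supp
    by_contra hc
    push Not at hc
    have e : x = dgf g⁻¹ (dgf g x) := by
      funext i
      rw [dgf_apply, dgf_apply]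
      exact (g.symm_apply_apply (x i)).symm
    have h2 : ‖x‖ ≤ L * ‖dgf g x‖ := by
      conv_lhs => rw [e]
      exact norm_dgf_le hL' _
    have h3 : L * ‖dgf g x‖ ≤ L * R := mul_le_mul_of_nonneg_left hc hL0
    linarith
  · intro x
    exact (h.b0 _).trans (le_mul_of_one_le_right hK hL2)
  · intro x
    rw [fderiv_comp_dgf h.diff]
    calc ‖(fderiv ℝ φ (dgf g x)).comp (dgf g)‖ ≤ ‖fderiv ℝ φ (dgf g x)‖ * ‖(dgf g : Pm m →L[ℝ] Pm m)‖ :=
          ContinuousLinearMap.opNorm_comp_le _ _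
      _ ≤ K * L := mul_le_mul (h.b1 _) (norm_dgf_clm_le hL) (norm_nonneg _) hK
      _ ≤ K * L ^ 2 := mul_le_mul_of_nonneg_left (by nlinarith) hK
  · intro x y
    rw [fderiv_comp_dgf h.diff, fderiv_comp_dgf h.diff, ← ContinuousLinearMap.sub_comp]
    calc ‖(fderiv ℝ φ (dgf g x) - fderiv ℝ φ (dgf g y)).comp (dgf g)‖
        ≤ ‖fderiv ℝ φ (dgf g x) - fderiv ℝ φ (dgf g y)‖ * ‖(dgf g : Pm m →L[ℝ] Pm m)‖ :=
          ContinuousLinearMap.opNorm_comp_le _ _
      _ ≤ (K * (L * ‖x - y‖)) * L := by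
          refine mul_le_mul ?_ (norm_dgf_clm_le hL) (norm_nonneg _) (by positivity)
          refine (h.b2 _ _).trans (mul_le_mul_of_nonneg_left ?_ hK)
          rw [← map_sub]
          exact norm_dgf_le hL _
      _ = K * L ^ 2 * ‖x - y‖ := by ring

/-! ## the flow -/

theorem hasDerivAt_flow_at (B : LB) (z : ℂ) (s : ℝ) :
    HasDerivAt (fun τ : ℝ => flow B τ z) (B (flow B s z)) s := by
  have h := hasDerivAt_flow B (flow B s z)
  have h3 : HasDerivAt (fun τ : ℝ => flow B τ (flow B s z)) (B (flow B s z)) (s - s) := by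
    rw [sub_self]; exact h
  have h4 := h3.comp_sub_const s s
  have e : (fun τ : ℝ => flow B τ z) = fun τ : ℝ => flow B (τ - s) (flow B s z) := by
    funext τ
    have := congrArg (fun g : LG => g z) (flow_add B (τ - s) s)
    rw [sub_add_cancel] at this
    exact this
  rw [e]; exact h4

theorem flow_comm_at (B : LB) (z : ℂ) (s : ℝ) : flow B s (B z) = B (flow B s z) := by
  -- derivative at `0` of `flow B s (flow B τ z) = flow B τ (flow B s z)`
  have h1 : HasDerivAt (fun τ : ℝ => flow B τ (flow B s z)) (B (flow B s z)) 0 :=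
    hasDerivAt_flow B _
  have h2 : HasDerivAt (fun τ : ℝ => flow B s (flow B τ z)) (flow B s (B z)) 0 :=
    (flow B s : ℂ →L[ℝ] ℂ).hasFDerivAt.comp_hasDerivAt (0 : ℝ) (hasDerivAt_flow B z)
  have e : (fun τ : ℝ => flow B τ (flow B s z)) = fun τ : ℝ => flow B s (flow B τ z) := by
    funext τ
    have a1 := congrArg (fun g : LG => g z) (flow_add B τ s)
    have a2 := congrArg (fun g : LG => g z) (flow_add B s τ)
    rw [add_comm] at a1
    exact a1.symm.trans a2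
  rw [e] at h1
  exact h2.unique h1

theorem hasDerivAt_dgf (B : LB) (x : Pm m) (s : ℝ) :
    HasDerivAt (fun τ : ℝ => dgf (flow B τ) x) (dg B (dgf (flow B s) x)) s :=
  hasDerivAt_pi.2 fun i => hasDerivAt_flow_at B (x i) s

/-- derivative of `φ` along the flow -/
theorem hasDerivAt_phi {φ : Pm m → ℝ} (hφ : Differentiable ℝ φ) (B : LB) (x : Pm m) (s : ℝ) :
    HasDerivAt (fun τ : ℝ => φ (dgf (flow B τ) x))
      (fderiv ℝ (fun x => φ (dgf (flow B s) x)) x (dg B x)) s := by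
  have h1 := (hφ (dgf (flow B s) x)).hasFDerivAt.comp_hasDerivAt s (hasDerivAt_dgf B x s)
  rw [fderiv_comp_dgf hφ]
  have e : dgf (flow B s) (dg B x) = dg B (dgf (flow B s) x) := by
    funext i
    rw [dgf_apply, dg_apply, dg_apply, dgf_apply, flow_comm_at]
  rw [ContinuousLinearMap.comp_apply, e]
  exact h1

/-- flows with bounded generators and bounded times are bounded -/
theorem exists_flow_bound (C T : ℝ) : ∃ L : ℝ, 1 ≤ L ∧ ∀ B : LB, ‖B 1‖ ≤ C → ‖B I‖ ≤ C →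
    ∀ s : ℝ, |s| ≤ T → ‖flow B s 1‖ + ‖flow B s I‖ ≤ L ∧
      ‖(flow B s)⁻¹ 1‖ + ‖(flow B s)⁻¹ I‖ ≤ L := by
  have hc : Continuous fun y : (ℂ × ℂ) × ℝ =>
      ‖flow (gen y.1.1 y.1.2) y.2 1‖ + ‖flow (gen y.1.1 y.1.2) y.2 I‖ := by
    have h1 : Continuous fun y : (ℂ × ℂ) × ℝ => ((gen y.1.1 y.1.2, y.2) : LB × ℝ) :=
      (continuous_gen.comp continuous_fst).prodMk continuous_snd
    exact (((continuous_flow 1).comp h1).norm).add (((continuous_flow I).comp h1).norm)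
  have hK : IsCompact (Metric.closedBall (0 : ℂ × ℂ) |C| ×ˢ Metric.closedBall (0 : ℝ) T) :=
    (isCompact_closedBall _ _).prod (isCompact_closedBall _ _)
  obtain ⟨L, hL⟩ := (hK.bddAbove_image hc.continuousOn)
  refine ⟨max L 1, le_max_right _ _, fun B hB1 hBI s hs => ?_⟩
  have key : ∀ s : ℝ, |s| ≤ T → ‖flow B s 1‖ + ‖flow B s I‖ ≤ max L 1 := by
    intro s hs
    refine le_trans (hL ⟨(((B 1 - I * B I) / 2, (B 1 + I * B I) / 2), s), ⟨?_, ?_⟩, ?_⟩)
      (le_max_left _ _)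
    · rw [mem_closedBall_zero_iff, Prod.norm_def, max_le_iff]
      have e1 : ‖I * B I‖ = ‖B I‖ := by rw [norm_mul, norm_I, one_mul]
      have hC : C ≤ |C| := le_abs_self C
      constructor
      · simp only [norm_div, Complex.norm_ofNat]
        have := norm_sub_le (B 1) (I * B I)
        rw [e1] at this
        rw [div_le_iff₀ (by norm_num)]
        linarith
      · simp only [norm_div, Complex.norm_ofNat]
        have := norm_add_le (B 1) (I * B I)
        rw [e1] at this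
        rw [div_le_iff₀ (by norm_num)]
        linarith
    · rw [mem_closedBall_zero_iff]; exact hs
    · simp only
      rw [← LB_eq_gen]
  refine ⟨key s hs, ?_⟩
  have e : (flow B s)⁻¹ = flow B (-s) := by
    rw [inv_eq_iff_mul_eq_one, ← flow_add, add_neg_cancel, flow_zero]
  rw [e]
  exact key (-s) (by rwa [abs_neg])

/-! ## the functional -/

/-- `∑ c x φ (p x)` -/
def wsum {ι : Type*} (c : ι → ℝ) (p : ι → Pm m) (φ : Pm m → ℝ) : ℝ := ∑' x, c x * φ (p x)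

theorem wsum_eq_sum {ι : Type*} {c : ι → ℝ} {p : ι → Pm m} {R : ℝ} {S : Finset ι}
    (hS : ∀ x, ‖p x‖ ≤ R → x ∈ S) {φ : Pm m → ℝ} (hφ : ∀ x, R < ‖x‖ → φ x = 0) :
    wsum c p φ = ∑ x ∈ S, c x * φ (p x) := by
  unfold wsum
  apply tsum_eq_sum
  intro x hx
  have : R < ‖p x‖ := by
    by_contra hc
    exact hx (hS x (not_lt.1 hc))
  rw [hφ _ this, mul_zero]

/-- **weak invariance ⇒ invariance under the flow**, quantitative -/
theorem wsum_flow {ι : Type*} (c : ι → ℝ) (p : ι → Pm m) (hfin : ∀ R, {x | ‖p x‖ ≤ R}.Finite)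
    (B : LB) {φ : Pm m → ℝ} {R K : ℝ} (hφ : C11 φ R K) (τ ε : ℝ)
    (h : ∀ s, |s| ≤ |τ| →
      |wsum c p (fun x => fderiv ℝ (fun x => φ (dgf (flow B s) x)) x (dg B x))| ≤ ε) :
    |wsum c p (fun x => φ (dgf (flow B τ) x)) - wsum c p φ| ≤ ε * |τ| := by
  -- a common finite set
  obtain ⟨L, hL1, hL⟩ := exists_flow_bound (max ‖B 1‖ ‖B I‖) |τ|
  have hLB := fun s hs => hL B (le_max_left _ _) (le_max_right _ _) s hs
  have hC : ∀ s : ℝ, |s| ≤ |τ| → C11 (fun x => φ (dgf (flow B s) x)) (L * |R|) (K * L ^ 2) := by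
    intro s hs
    have h0 : C11 φ |R| K :=
      ⟨hφ.diff, fun x hx => hφ.supp x (lt_of_le_of_lt (le_abs_self R) hx), hφ.b0, hφ.b1, hφ.b2⟩
    exact h0.comp hL1 (hLB s hs).1 (hLB s hs).2
  set S := (hfin (L * |R|)).toFinset with hSdef
  have hS : ∀ x, ‖p x‖ ≤ L * |R| → x ∈ S := fun x hx => by rw [hSdef]; simpa using hx
  -- `fderiv` vanishes outside the ball
  have hfd : ∀ s : ℝ, |s| ≤ |τ| → ∀ x : Pm m, L * |R| < ‖x‖ →
      fderiv ℝ (fun x => φ (dgf (flow B s) x)) x (dg B x) = 0 := by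
    intro s hs x hx
    have hev : (fun x => φ (dgf (flow B s) x)) =ᶠ[𝓝 x] fun _ => (0 : ℝ) := by
      have ho : {y : Pm m | L * |R| < ‖y‖} ∈ 𝓝 x :=
        (isOpen_lt continuous_const continuous_norm).mem_nhds hx
      filter_upwards [ho] with y hy
      exact (hC s hs).supp y hy
    rw [hev.fderiv_eq, fderiv_const_apply]; rfl
  have hU : ∀ s : ℝ, |s| ≤ |τ| → wsum c p (fun x => φ (dgf (flow B s) x)) =
      ∑ x ∈ S, c x * φ (dgf (flow B s) (p x)) := fun s hs => wsum_eq_sum hS (hC s hs).supp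
  have hD : ∀ s : ℝ, |s| ≤ |τ| →
      wsum c p (fun x => fderiv ℝ (fun x => φ (dgf (flow B s) x)) x (dg B x)) =
      ∑ x ∈ S, c x * fderiv ℝ (fun x => φ (dgf (flow B s) x)) (p x) (dg B (p x)) :=
    fun s hs => wsum_eq_sum hS (hfd s hs)
  have h0 : wsum c p φ = ∑ x ∈ S, c x * φ (dgf (flow B 0) (p x)) := by
    have := hU 0 (by simp)
    rw [← this]
    congr 1
    funext x
    congr 1
    funext i
    rw [dgf_apply, flow_zero]; rfl
  rw [hU τ le_rfl, h0]
  have hder : ∀ s : ℝ, HasDerivAt (fun s => ∑ x ∈ S, c x * φ (dgf (flow B s) (p x)))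
      (∑ x ∈ S, c x * fderiv ℝ (fun x => φ (dgf (flow B s) x)) (p x) (dg B (p x))) s := by
    intro s
    refine HasDerivAt.fun_sum fun x _ => ?_
    exact (hasDerivAt_phi hφ.diff B (p x) s).const_mul (c x)
  have hmv := (convex_uIcc (0 : ℝ) τ).norm_image_sub_le_of_norm_hasDerivWithin_le
    (f := fun s => ∑ x ∈ S, c x * φ (dgf (flow B s) (p x)))
    (f' := fun s => ∑ x ∈ S, c x * fderiv ℝ (fun x => φ (dgf (flow B s) x)) (p x) (dg B (p x)))
    (C := ε) (fun s _ => (hder s).hasDerivWithinAt) (fun s hs => by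
      have hs' : |s| ≤ |τ| := by
        rcases le_total 0 τ with h' | h'
        · rw [uIcc_of_le h'] at hs
          rw [abs_of_nonneg hs.1, abs_of_nonneg h']; exact hs.2
        · rw [uIcc_of_ge h'] at hs
          rw [abs_of_nonpos hs.2, abs_of_nonpos h']; linarith [hs.1]
      rw [Real.norm_eq_abs, ← hD s hs']
      exact h s hs') left_mem_uIcc right_mem_uIcc
  rw [Real.norm_eq_abs, Real.norm_eq_abs, sub_zero] at hmv
  exact hmv

/-- **the asymptotic form**: hypothesis `hfl` of `rot_asy` for the functionals `wsum` -/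
theorem wsum_flow_asy {ι : ℕ → Type*} (c : ∀ N, ι N → ℝ) (p : ∀ N, ι N → Pm m)
    (hfin : ∀ N R, {x | ‖p N x‖ ≤ R}.Finite) (B : ℕ → LB) (C : ℝ) (hB1 : ∀ N, ‖B N 1‖ ≤ C)
    (hBI : ∀ N, ‖B N I‖ ≤ C)
    (h : ∀ R K ε : ℝ, 0 < ε → ∃ N0 : ℕ, ∀ N ≥ N0, ∀ φ : Pm m → ℝ, C11 φ R K →
      |wsum (c N) (p N) (fun x => fderiv ℝ φ x (dg (B N) x))| ≤ ε)
    {φ : Pm m → ℝ} {R K : ℝ} (hφ : C11 φ R K) (τ : ℝ) :
    Tendsto (fun N => wsum (c N) (p N) (fun x => φ (dgf (flow (B N) τ) x)) -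
      wsum (c N) (p N) φ) atTop (𝓝 0) := by
  obtain ⟨L, hL1, hL⟩ := exists_flow_bound C |τ|
  rw [Metric.tendsto_atTop]
  intro ε hε
  have hpos : 0 < |τ| + 1 := by positivity
  obtain ⟨N0, hN0⟩ := h (L * |R|) (K * L ^ 2) (ε / (2 * (|τ| + 1))) (by positivity)
  refine ⟨N0, fun N hN => ?_⟩
  have h0 : C11 φ |R| K :=
    ⟨hφ.diff, fun x hx => hφ.supp x (lt_of_le_of_lt (le_abs_self R) hx), hφ.b0, hφ.b1, hφ.b2⟩
  have h1 := wsum_flow (c N) (p N) (hfin N) (B N) hφ τ (ε / (2 * (|τ| + 1))) (fun s hs => by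
    have h2 := hL (B N) (hB1 N) (hBI N) s hs
    exact hN0 N hN _ (h0.comp hL1 h2.1 h2.2))
  rw [Real.dist_eq, sub_zero]
  refine lt_of_le_of_lt h1 ?_
  have h3 : ε / (2 * (|τ| + 1)) * |τ| ≤ ε / (2 * (|τ| + 1)) * (|τ| + 1) := by
    apply mul_le_mul_of_nonneg_left _ (by positivity)
    linarith
  have h4 : ε / (2 * (|τ| + 1)) * (|τ| + 1) = ε / 2 := by field_simp
  linarith

/-- Taylor's formula in the class -/
theorem C11.taylor {φ : Pm m → ℝ} {R K : ℝ} (h : C11 φ R K) (x y : Pm m) :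
    |φ y - φ x - fderiv ℝ φ x (y - x)| ≤ K * ‖y - x‖ ^ 2 := by
  have hK : 0 ≤ K := le_trans (abs_nonneg _) (h.b0 0)
  have hmv := (convex_segment x y).norm_image_sub_le_of_norm_hasFDerivWithin_le'
    (f := φ) (f' := fderiv ℝ φ) (φ := fderiv ℝ φ x) (C := K * ‖y - x‖)
    (fun z _ => (h.diff z).hasFDerivAt.hasFDerivWithinAt)
    (fun z hz => by
      refine (h.b2 z x).trans (mul_le_mul_of_nonneg_left ?_ hK)
      obtain ⟨a, b, ha, hb, hab, rfl⟩ := hz
      have e : a • x + b • y - x = b • (y - x) := by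
        rw [show a = 1 - b by linarith, sub_smul, one_smul, smul_sub]; abel
      rw [e, norm_smul, Real.norm_eq_abs, abs_of_nonneg hb]
      exact mul_le_of_le_one_left (norm_nonneg _) (by linarith))
    (left_mem_segment ℝ x y) (right_mem_segment ℝ x y)
  rw [Real.norm_eq_abs] at hmv
  calc |φ y - φ x - fderiv ℝ φ x (y - x)| ≤ K * ‖y - x‖ * ‖y - x‖ := hmv
    _ = K * ‖y - x‖ ^ 2 := by ring

end

end Pool.Agent.ROT
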