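import Pool.Agent.ROT.IDefs
import Pool.Agent.ROT.Weak1

/-!
# ROT, block I: (I1) weak identity ⇒ invariance under the flow (helper58, literals of helper11)
-/

set_option autoImplicit false

namespace Pool.Agent.ROT.I

open MeasureTheory Filter Topology Set
open Pool.Agent.ROT.E (Cfg Lp)

noncomputable section

/-- **(I0)**: the masses of the patterns are bounded -/
def PBd : Prop := ∀ (m : ℕ) (τ : Fin m → ZMod 2) (R r : ℝ), 0 < r →
  (∃ i j, i ≠ j ∧ τ i = 1 ∧ τ j = 1) → (∃ i, τ i = 0) →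
  ∃ C : ℝ, ∀ᶠ N : ℕ in atTop, ∀ q : Fin m → Pt, (∀ i, ‖sc N (q i)‖ ≤ R) →
    (∀ i j, i ≠ j → r ≤ dist (sc N (q i)) (sc N (q j))) → PP τ q ≤ C

variable {m : ℕ} {τ : Fin m → ZMod 2}

/-! ### the box of lattice points -/

/-- the box `[-k, k]²` -/
def bx1 (k : ℕ) : Finset Pt := Finset.Icc (-(k : ℤ)) k ×ˢ Finset.Icc (-(k : ℤ)) k

/-- its power -/
def bx (m k : ℕ) : Finset (Fin m → Pt) := Fintype.piFinset fun _ => bx1 k

theorem card_bx (m k : ℕ) : (bx m k).card = ((2 * k + 1) ^ 2) ^ m := by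
  have h1 : (Finset.Icc (-(k : ℤ)) k).card = 2 * k + 1 := by
    rw [Int.card_Icc]; omega
  rw [bx, Fintype.card_piFinset, bx1, Finset.card_product, h1]
  simp [pow_two]

theorem mem_bx1 {N : ℕ} (hN : 1 ≤ N) {R : ℝ} {q : Pt} (h : ‖sc N q‖ ≤ R) : q ∈ bx1 ⌊R * N⌋₊ := by
  have hN0 : (0 : ℝ) < N := by exact_mod_cast hN
  have h3 : (0 : ℝ) < √3 := Real.sqrt_pos.2 (by norm_num)
  have h33 : √3 * √3 = 3 := Real.mul_self_sqrt (by norm_num)
  have h32 : (3 : ℝ) / 2 ≤ √3 := by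
    rw [Real.le_sqrt (by norm_num) (by norm_num)]; norm_num
  have hR0 : 0 ≤ R := (norm_nonneg _).trans h
  have hre : |(sc N q).re| ≤ R := (Complex.abs_re_le_norm _).trans h
  have him : |(sc N q).im| ≤ R := (Complex.abs_im_le_norm _).trans h
  have e1re : (sc N q).re = 3 / 2 * (q.1 : ℝ) / N := by
    simp [sc, e1, e2]; ring
  have e1im : (sc N q).im = √3 * ((q.1 : ℝ) / 2 + q.2) / N := by
    simp [sc, e1, e2]; ring
  rw [e1re, abs_le, le_div_iff₀ hN0, div_le_iff₀ hN0] at hre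
  rw [e1im, abs_le, le_div_iff₀ hN0, div_le_iff₀ hN0] at him
  obtain ⟨a1, a2⟩ := hre
  obtain ⟨b1, b2⟩ := him
  have hRN : 0 ≤ R * N := mul_nonneg hR0 hN0.le
  -- `|q.1 / 2 + q.2| ≤ (2 / 3) R N`
  have c1 : (q.1 : ℝ) / 2 + q.2 ≤ 2 / 3 * (R * N) := by
    by_contra hc
    push Not at hc
    have : 3 / 2 * ((q.1 : ℝ) / 2 + q.2) ≤ √3 * ((q.1 : ℝ) / 2 + q.2) :=
      mul_le_mul_of_nonneg_right h32 (by linarith)
    linarith
  have c2 : -(2 / 3 * (R * N)) ≤ (q.1 : ℝ) / 2 + q.2 := by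
    by_contra hc
    push Not at hc
    have : √3 * ((q.1 : ℝ) / 2 + q.2) ≤ 3 / 2 * ((q.1 : ℝ) / 2 + q.2) :=
      mul_le_mul_of_nonpos_right h32 (by linarith)
    linarith
  have key : ∀ z : ℤ, |(z : ℝ)| ≤ R * N → z ∈ Finset.Icc (-(⌊R * N⌋₊ : ℤ)) ⌊R * N⌋₊ := by
    intro z hz
    have h4 : (z.natAbs : ℝ) ≤ R * N := by
      rwa [Nat.cast_natAbs, Int.cast_abs]
    have h5 : z.natAbs ≤ ⌊R * N⌋₊ := Nat.le_floor h4
    rw [Finset.mem_Icc]; omega
  rw [bx1, Finset.mem_product]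
  refine ⟨key _ ?_, key _ ?_⟩
  · rw [abs_le]; constructor <;> linarith
  · rw [abs_le]; constructor <;> linarith

theorem mem_bx {N : ℕ} (hN : 1 ≤ N) {R : ℝ} {q : Fin m → Pt}
    (h : ‖(fun i => sc N (q i) : Pm m)‖ ≤ R) : q ∈ bx m ⌊R * N⌋₊ := by
  rw [bx, Fintype.mem_piFinset]
  intro i
  exact mem_bx1 hN ((norm_le_pi_norm (fun i => sc N (q i) : Pm m) i).trans h)

theorem card_bx_le {N : ℕ} (hN : 1 ≤ N) {R : ℝ} (hR : 1 ≤ R) :
    ((bx m ⌊R * N⌋₊).card : ℝ) ≤ (9 * R ^ 2) ^ m * (N : ℝ) ^ (2 * m) := by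
  have hN0 : (1 : ℝ) ≤ N := by exact_mod_cast hN
  have h1 : (⌊R * N⌋₊ : ℝ) ≤ R * N := Nat.floor_le (by positivity)
  have h2 : (1 : ℝ) ≤ R * N := by nlinarith
  rw [card_bx]
  push_cast
  have h3 : (2 * (⌊R * N⌋₊ : ℝ) + 1) ^ 2 ≤ 9 * R ^ 2 * (N : ℝ) ^ 2 := by
    have h4 : 2 * (⌊R * N⌋₊ : ℝ) + 1 ≤ 3 * (R * N) := by linarith
    calc (2 * (⌊R * N⌋₊ : ℝ) + 1) ^ 2 ≤ (3 * (R * N)) ^ 2 :=
          pow_le_pow_left₀ (by positivity) h4 2
      _ = 9 * R ^ 2 * (N : ℝ) ^ 2 := by ring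
  calc ((2 * (⌊R * N⌋₊ : ℝ) + 1) ^ 2) ^ m ≤ (9 * R ^ 2 * (N : ℝ) ^ 2) ^ m :=
        pow_le_pow_left₀ (by positivity) h3 m
    _ = (9 * R ^ 2) ^ m * (N : ℝ) ^ (2 * m) := by rw [mul_pow, ← pow_mul]

/-! ### the functional `U` -/

/-- `U` is a finite sum -/
theorem U_eq {N : ℕ} (hN : 1 ≤ N) {R : ℝ} {ψ : Pm m → ℝ} (h : ∀ x, ψ x ≠ 0 → ‖x‖ ≤ R) :
    U N τ ψ = ((N : ℝ) ^ (2 * m))⁻¹ * ∑ q ∈ bx m ⌊R * N⌋₊, ψ (fun i => sc N (q i)) * PP τ q := by
  rw [U]
  congr 1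
  apply tsum_eq_sum
  intro q hq
  by_cases h0 : ψ (fun i => sc N (q i)) = 0
  · rw [h0, zero_mul]
  · exact absurd (mem_bx hN (h _ h0)) hq

theorem U_sub {N : ℕ} (hN : 1 ≤ N) {R : ℝ} {ψ χ : Pm m → ℝ} (h : ∀ x, ψ x ≠ 0 → ‖x‖ ≤ R)
    (h' : ∀ x, χ x ≠ 0 → ‖x‖ ≤ R) : U N τ (fun x => ψ x - χ x) = U N τ ψ - U N τ χ := by
  rw [U_eq hN h, U_eq hN h', U_eq hN (R := R) (ψ := fun x => ψ x - χ x), ← mul_sub,
    ← Finset.sum_sub_distrib]
  · congr 1
    refine Finset.sum_congr rfl fun q _ => ?_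
    ring
  · intro x hx
    by_cases h0 : ψ x = 0
    · apply h'
      intro h1
      exact hx (by rw [h0, h1, sub_zero])
    · exact h x h0

theorem PP_nonneg (q : Fin m → Pt) : 0 ≤ PP τ q := measureReal_nonneg

/-- **uniform bound of the functional** -/
theorem U_bound (hb : PBd) (τ : Fin m → ZMod 2) {R r : ℝ} (hr : 0 < r)
    (hinn : ∃ i j, i ≠ j ∧ τ i = 1 ∧ τ j = 1) (hout : ∃ i, τ i = 0) :
    ∃ C : ℝ, 0 ≤ C ∧ ∀ᶠ N : ℕ in atTop, ∀ (ψ : Pm m → ℝ) (K : ℝ), (∀ x, |ψ x| ≤ K) →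
      (∀ x, ψ x ≠ 0 → ‖x‖ ≤ R ∧ ∀ i j, i ≠ j → r ≤ dist (x i) (x j)) →
      |U N τ ψ| ≤ C * K := by
  obtain ⟨C, hC⟩ := hb m τ (max R 1) r hr hinn hout
  refine ⟨(9 * (max R 1) ^ 2) ^ m * |C|, by positivity, ?_⟩
  filter_upwards [hC, eventually_ge_atTop 1] with N hN hN1 ψ K hK hψ
  have hK0 : 0 ≤ K := (abs_nonneg _).trans (hK 0)
  have hN0 : (0 : ℝ) < N := by exact_mod_cast hN1
  have hsup : ∀ x, ψ x ≠ 0 → ‖x‖ ≤ max R 1 := fun x hx => (hψ x hx).1.trans (le_max_left _ _)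
  rw [U_eq hN1 hsup, abs_mul, abs_of_nonneg (by positivity : (0 : ℝ) ≤ ((N : ℝ) ^ (2 * m))⁻¹)]
  have h1 : |∑ q ∈ bx m ⌊max R 1 * N⌋₊, ψ (fun i => sc N (q i)) * PP τ q| ≤
      ∑ q ∈ bx m ⌊max R 1 * N⌋₊, K * |C| := by
    refine (Finset.abs_sum_le_sum_abs _ _).trans (Finset.sum_le_sum fun q _ => ?_)
    rw [abs_mul, abs_of_nonneg (PP_nonneg q)]
    by_cases h0 : ψ (fun i => sc N (q i)) = 0
    · rw [h0, abs_zero, zero_mul]; positivity
    · refine mul_le_mul (hK _) ?_ (PP_nonneg q) hK0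
      obtain ⟨h2, h3⟩ := hψ _ h0
      refine (hN q (fun i => ?_) h3).trans (le_abs_self C)
      exact (norm_le_pi_norm (fun i => sc N (q i) : Pm m) i).trans
        (h2.trans (le_max_left _ _))
  rw [Finset.sum_const, nsmul_eq_mul] at h1
  have h2 := card_bx_le (m := m) hN1 (le_max_right R 1)
  have hKC : 0 ≤ K * |C| := by positivity
  calc ((N : ℝ) ^ (2 * m))⁻¹ * |∑ q ∈ bx m ⌊max R 1 * N⌋₊, ψ (fun i => sc N (q i)) * PP τ q|
      ≤ ((N : ℝ) ^ (2 * m))⁻¹ * (((9 * (max R 1) ^ 2) ^ m * (N : ℝ) ^ (2 * m)) * (K * |C|)) := by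
        refine mul_le_mul_of_nonneg_left (h1.trans ?_) (by positivity)
        exact mul_le_mul_of_nonneg_right h2 hKC
    _ = (9 * (max R 1) ^ 2) ^ m * |C| * K := by
        field_simp

/-! ### the generator -/

theorem BC_apply (a b : ℝ) (z : ℂ) :
    BC a b z = (-a * cx z + b * cy z) • e1 + (-b * cx z + a * cy z) • e2 := rfl

theorem continuous_BC (z : ℂ) : Continuous fun p : ℝ × ℝ => BC p.1 p.2 z := by
  simp only [BC_apply]
  fun_prop

theorem BC_bound (A : ℝ) : ∃ C : ℝ, ∀ a b : ℝ, |a| ≤ A → |b| ≤ A →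
    ‖BC a b 1‖ ≤ C ∧ ‖BC a b Complex.I‖ ≤ C := by
  have hK : IsCompact (Icc (-A) A ×ˢ Icc (-A) A : Set (ℝ × ℝ)) := isCompact_Icc.prod isCompact_Icc
  obtain ⟨C1, h1⟩ := hK.bddAbove_image ((continuous_BC 1).norm.continuousOn)
  obtain ⟨C2, h2⟩ := hK.bddAbove_image ((continuous_BC Complex.I).norm.continuousOn)
  refine ⟨max C1 C2, fun a b ha hb => ?_⟩
  have hm : (a, b) ∈ (Icc (-A) A ×ˢ Icc (-A) A : Set (ℝ × ℝ)) := ⟨abs_le.1 ha, abs_le.1 hb⟩
  exact ⟨(h1 ⟨(a, b), hm, rfl⟩).trans (le_max_left _ _),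
    (h2 ⟨(a, b), hm, rfl⟩).trans (le_max_right _ _)⟩

/-! ### test functions under linear maps -/

theorem Tst.comp {φ : Pm m → ℝ} (h : Tst τ φ) (g : LG) : Tst τ (fun x => φ (dgf g x)) := by
  have hinv : ∀ x : Pm m, dgf g⁻¹ (dgf g x) = x := by
    intro x; funext i; rw [dgf_apply, dgf_apply]; exact g.symm_apply_apply (x i)
  have hinv' : ∀ x : Pm m, dgf g (dgf g⁻¹ x) = x := by
    intro x; funext i; rw [dgf_apply, dgf_apply]; exact g.apply_symm_apply (x i)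
  let e : Pm m ≃ₜ Pm m :=
    { toFun := dgf g
      invFun := dgf g⁻¹
      left_inv := hinv
      right_inv := hinv'
      continuous_toFun := (dgf g : Pm m →L[ℝ] Pm m).continuous
      continuous_invFun := (dgf g⁻¹ : Pm m →L[ℝ] Pm m).continuous }
  have hts : ∀ x ∈ tsupport (fun x => φ (dgf g x)), dgf g x ∈ tsupport φ := by
    intro x hx
    have h1 : tsupport (fun x => φ (dgf g x)) ⊆ dgf g ⁻¹' tsupport φ := by
      apply closure_minimal
      · intro y hy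
        exact subset_tsupport _ hy
      · exact (isClosed_tsupport φ).preimage (dgf g : Pm m →L[ℝ] Pm m).continuous
    exact h1 hx
  refine ⟨h.smooth.comp (dgf g : Pm m →L[ℝ] Pm m).contDiff, h.cpt.comp_homeomorph e, ?_, h.inn, h.out⟩
  obtain ⟨r, hr, hsep⟩ := h.sep
  have hL0 : 0 < ‖g 1‖ + ‖g Complex.I‖ + 1 := by positivity
  refine ⟨r / (‖g 1‖ + ‖g Complex.I‖ + 1), by positivity, fun x hx i j hij => ?_⟩
  have hd := hsep _ (hts x hx) i j hij
  rw [div_le_iff₀ hL0]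
  rw [dist_eq_norm] at hd ⊢
  rw [dgf_apply, dgf_apply, ← map_sub] at hd
  have h2 := norm_le_values g (x i - x j)
  nlinarith [norm_nonneg (x i - x j)]

/-- data of a test function: radius, separation, bounds -/
theorem Tst.data {φ : Pm m → ℝ} (h : Tst τ φ) : ∃ R r K : ℝ, 0 < r ∧ 0 ≤ K ∧ 0 ≤ R ∧
    (∀ x, φ x ≠ 0 → ‖x‖ ≤ R ∧ ∀ i j, i ≠ j → r ≤ dist (x i) (x j)) ∧
    (∀ x, fderiv ℝ φ x ≠ 0 → ‖x‖ ≤ R ∧ ∀ i j, i ≠ j → r ≤ dist (x i) (x j)) ∧
    (∀ x, |φ x| ≤ K) ∧ (∀ x, ‖fderiv ℝ φ x‖ ≤ K) ∧ (∀ x y, |φ x - φ y| ≤ K * ‖x - y‖) := by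
  obtain ⟨r, hr, hsep⟩ := h.sep
  obtain ⟨R, hR⟩ := h.cpt.isBounded.exists_norm_le
  have hd : Differentiable ℝ φ := h.smooth.differentiable (by simp)
  have hc1 : Continuous (fderiv ℝ φ) := h.smooth.continuous_fderiv (by simp)
  obtain ⟨K1, hK1⟩ := h.cpt.exists_bound_of_continuous hd.continuous
  obtain ⟨K2, hK2⟩ := (h.cpt.fderiv (𝕜 := ℝ)).exists_bound_of_continuous hc1
  have key : ∀ x ∈ tsupport φ, ‖x‖ ≤ max R 0 ∧
      ∀ i j, i ≠ j → r ≤ dist (x i) (x j) := fun x hx =>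
    ⟨(hR x hx).trans (le_max_left _ _), hsep x hx⟩
  have hb2 : ∀ x, ‖fderiv ℝ φ x‖ ≤ max (max K1 K2) 0 := fun x =>
    (hK2 x).trans ((le_max_right _ _).trans (le_max_left _ _))
  refine ⟨max R 0, r, max (max K1 K2) 0, hr, le_max_right _ _, le_max_right _ _, ?_, ?_, ?_, hb2, ?_⟩
  · exact fun x hx => key x (subset_tsupport _ hx)
  · exact fun x hx => key x (support_fderiv_subset ℝ hx)
  · intro x
    have := hK1 x
    rw [Real.norm_eq_abs] at this
    exact this.trans ((le_max_left _ _).trans (le_max_left _ _))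
  · intro x y
    have := (convex_univ (𝕜 := ℝ) (E := Pm m)).norm_image_sub_le_of_norm_fderiv_le (f := φ)
      (C := max (max K1 K2) 0) (fun z _ => hd z) (fun z _ => hb2 z) (mem_univ y) (mem_univ x)
    rwa [Real.norm_eq_abs] at this

/-! ### the theorem along a converging subsequence -/

/-- derivative along the flow, finite sums -/
theorem hasDerivAt_U {N : ℕ} (hN : 1 ≤ N) {R : ℝ} {φ : Pm m → ℝ} (hφ : Differentiable ℝ φ) (B : LB)
    (S : Set ℝ) (hS : IsOpen S) (h : ∀ s ∈ S, ∀ x, φ (dgf (flow B s) x) ≠ 0 → ‖x‖ ≤ R)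
    (h' : ∀ s ∈ S, ∀ x, fderiv ℝ (fun x => φ (dgf (flow B s) x)) x (dg B x) ≠ 0 → ‖x‖ ≤ R)
    {s : ℝ} (hs : s ∈ S) :
    HasDerivAt (fun s => U N τ fun x => φ (dgf (flow B s) x))
      (U N τ fun x => fderiv ℝ (fun x => φ (dgf (flow B s) x)) x (dg B x)) s := by
  rw [U_eq hN (h' s hs)]
  have h1 : HasDerivAt (fun s => ((N : ℝ) ^ (2 * m))⁻¹ * ∑ q ∈ bx m ⌊R * N⌋₊,
      φ (dgf (flow B s) (fun i => sc N (q i))) * PP τ q)
      (((N : ℝ) ^ (2 * m))⁻¹ * ∑ q ∈ bx m ⌊R * N⌋₊,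
      fderiv ℝ (fun x => φ (dgf (flow B s) x)) (fun i => sc N (q i)) (dg B (fun i => sc N (q i))) *
        PP τ q) s := by
    refine HasDerivAt.const_mul _ (HasDerivAt.fun_sum fun q _ => ?_)
    exact (hasDerivAt_phi hφ B _ s).mul_const _
  refine h1.congr_of_eventuallyEq ?_
  filter_upwards [hS.mem_nhds hs] with s' hs'
  exact U_eq hN (h s' hs')

theorem norm_LB_le (B : LB) (z : ℂ) : ‖B z‖ ≤ (‖B 1‖ + ‖B Complex.I‖) * ‖z‖ := by
  have h1 : B z = z.re * B 1 + z.im * B Complex.I := by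
    conv_lhs => rw [show z = z.re • (1 : ℂ) + z.im • Complex.I by
      apply Complex.ext <;> simp]
    rw [map_add, map_smul, map_smul]
    simp
  rw [h1]
  have a := Complex.abs_re_le_norm z
  have b := Complex.abs_im_le_norm z
  calc ‖(z.re : ℂ) * B 1 + z.im * B Complex.I‖
      ≤ ‖(z.re : ℂ) * B 1‖ + ‖(z.im : ℂ) * B Complex.I‖ := norm_add_le _ _
    _ = |z.re| * ‖B 1‖ + |z.im| * ‖B Complex.I‖ := by
        rw [norm_mul, norm_mul, Complex.norm_real, Complex.norm_real, Real.norm_eq_abs,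
          Real.norm_eq_abs]
    _ ≤ ‖z‖ * ‖B 1‖ + ‖z‖ * ‖B Complex.I‖ := by gcongr
    _ = (‖B 1‖ + ‖B Complex.I‖) * ‖z‖ := by ring

theorem norm_dg_le (B : LB) (x : Pm m) : ‖dg B x‖ ≤ (‖B 1‖ + ‖B Complex.I‖) * ‖x‖ := by
  rw [pi_norm_le_iff_of_nonneg (by positivity)]
  intro i
  rw [dg_apply]
  exact (norm_LB_le B (x i)).trans
    (mul_le_mul_of_nonneg_left (norm_le_pi_norm x i) (by positivity))

theorem dg_sub (A B : LB) (x : Pm m) : dg A x - dg B x = dg (A - B) x := by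
  funext i
  rw [Pi.sub_apply, dg_apply, dg_apply, dg_apply]; rfl

/-- supports are transported with the constants `L R`, `r / L` -/
theorem supp_comp {R r L : ℝ} {g : LG} (hL : ‖g 1‖ + ‖g Complex.I‖ ≤ L)
    (hL' : ‖g⁻¹ 1‖ + ‖g⁻¹ Complex.I‖ ≤ L) (hL1 : 1 ≤ L) {x : Pm m}
    (h : ‖dgf g x‖ ≤ R ∧ ∀ i j, i ≠ j → r ≤ dist (dgf g x i) (dgf g x j)) :
    ‖x‖ ≤ L * R ∧ ∀ i j, i ≠ j → r / L ≤ dist (x i) (x j) := by
  obtain ⟨h1, hd'⟩ := h
  have hL0 : 0 < L := by linarith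
  refine ⟨?_, fun i j hij => ?_⟩
  · have e : x = dgf g⁻¹ (dgf g x) := by
      funext i
      rw [dgf_apply, dgf_apply]
      exact (g.symm_apply_apply (x i)).symm
    conv_lhs => rw [e]
    exact (norm_dgf_le hL' _).trans (mul_le_mul_of_nonneg_left h1 hL0.le)
  · have hd := hd' i j hij
    rw [div_le_iff₀ hL0]
    rw [dist_eq_norm] at hd ⊢
    rw [dgf_apply, dgf_apply, ← map_sub] at hd
    have h2 := norm_le_values g (x i - x j)
    nlinarith [norm_nonneg (x i - x j)]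

/-- invariance under the flow of the limit generator -/
theorem U_flow_lim (hb : PBd) {a b : ℕ → ℝ} (hW : Weak a b) {k : ℕ → ℕ}
    (hk : Tendsto k atTop atTop) {B : LB}
    (hB : Tendsto (fun n => BC (a (k n)) (b (k n))) atTop (𝓝 B)) {φ : Pm m → ℝ} (hφ : Tst τ φ)
    (t : ℝ) :
    Tendsto (fun n => U (k n) τ (fun x => φ (dgf (flow B t) x)) - U (k n) τ φ) atTop (𝓝 0) := by
  obtain ⟨R, r, K, hr, hK0, hR0, hs0, hs1, hb0, hb1, -⟩ := hφ.data
  have hdiff : Differentiable ℝ φ := hφ.smooth.differentiable (by simp)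
  have hc1 : Continuous (fderiv ℝ φ) := hφ.smooth.continuous_fderiv (by simp)
  obtain ⟨L, hL1, hL⟩ := exists_flow_bound (max ‖B 1‖ ‖B Complex.I‖) (|t| + 1)
  have hLB := fun s hs => hL B (le_max_left _ _) (le_max_right _ _) s hs
  have hL0 : 0 < L := by linarith
  have hsupp : ∀ s : ℝ, |s| ≤ |t| + 1 → ∀ x : Pm m, φ (dgf (flow B s) x) ≠ 0 →
      ‖x‖ ≤ L * R ∧ ∀ i j, i ≠ j → r / L ≤ dist (x i) (x j) := fun s hs x hx =>
    supp_comp (hLB s hs).1 (hLB s hs).2 hL1 (hs0 _ hx)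
  have hsupp' : ∀ s : ℝ, |s| ≤ |t| + 1 → ∀ x : Pm m,
      fderiv ℝ (fun x => φ (dgf (flow B s) x)) x ≠ 0 →
      ‖x‖ ≤ L * R ∧ ∀ i j, i ≠ j → r / L ≤ dist (x i) (x j) := by
    intro s hs x hx
    refine supp_comp (hLB s hs).1 (hLB s hs).2 hL1 (hs1 _ ?_)
    intro h0
    apply hx
    rw [fderiv_comp_dgf hdiff, h0, ContinuousLinearMap.zero_comp]
  have hne : ∀ (s : ℝ) (x y : Pm m), fderiv ℝ (fun x => φ (dgf (flow B s) x)) x y ≠ 0 →
      fderiv ℝ (fun x => φ (dgf (flow B s) x)) x ≠ 0 := by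
    intro s x y hxy h0
    exact hxy (by rw [h0]; rfl)
  set D : ℝ → Pm m → ℝ := fun s x => fderiv ℝ (fun x => φ (dgf (flow B s) x)) x (dg B x) with hDdef
  set S : Set ℝ := Ioo (-(|t| + 1)) (|t| + 1) with hSdef
  have hS : ∀ s ∈ S, |s| ≤ |t| + 1 := fun s hs => (abs_lt.2 hs).le
  have hder : ∀ N : ℕ, 1 ≤ N → ∀ s ∈ S, HasDerivAt (fun s => U N τ fun x => φ (dgf (flow B s) x))
      (U N τ (D s)) s := fun N hN s hs =>
    hasDerivAt_U hN hdiff B S isOpen_Ioo (fun s hs x hx => (hsupp s (hS s hs) x hx).1)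
      (fun s hs x hx => (hsupp' s (hS s hs) x (hne s x _ hx)).1) hs
  have htS : uIcc 0 t ⊆ S := by
    intro s hs
    rw [hSdef, mem_Ioo, ← abs_lt]
    have : |s| ≤ |t| := by
      rcases le_total 0 t with h' | h'
      · rw [uIcc_of_le h'] at hs
        rw [abs_of_nonneg hs.1, abs_of_nonneg h']; exact hs.2
      · rw [uIcc_of_ge h'] at hs
        rw [abs_of_nonpos hs.2, abs_of_nonpos h']; linarith [hs.1]
    linarith
  -- continuity of the derivative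
  have hcont1 : ∀ x : Pm m, Continuous fun s : ℝ => D s x := by
    intro x
    have e : (fun s : ℝ => D s x) = fun s : ℝ =>
        (fderiv ℝ φ (dgf (flow B s) x)) (dgf (flow B s) (dg B x)) := by
      funext s
      simp only [hDdef]
      rw [fderiv_comp_dgf hdiff]; rfl
    rw [e]
    have hcx : ∀ y : Pm m, Continuous fun s : ℝ => dgf (flow B s) y := fun y =>
      continuous_iff_continuousAt.2 fun s => (hasDerivAt_dgf B y s).continuousAt
    exact (hc1.comp (hcx x)).clm_apply (hcx _)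
  have hcont : ∀ N : ℕ, 1 ≤ N → ContinuousOn (fun s => U N τ (D s)) (uIcc 0 t) := by
    intro N hN
    have h1 : ContinuousOn (fun s => ((N : ℝ) ^ (2 * m))⁻¹ * ∑ q ∈ bx m ⌊L * R * N⌋₊,
        D s (fun i => sc N (q i)) * PP τ q) (uIcc 0 t) := by
      refine Continuous.continuousOn ?_
      refine continuous_const.mul (continuous_finsetSum _ fun q _ => ?_)
      exact (hcont1 _).mul continuous_const
    refine h1.congr fun s hs => ?_
    exact U_eq hN (fun x hx => (hsupp' s (hS s (htS hs)) x (hne s x _ hx)).1)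
  -- bound
  have hDb : ∀ s ∈ S, ∀ x, |D s x| ≤ K * L * ((‖B 1‖ + ‖B Complex.I‖) * (L * R)) := by
    intro s hs x
    by_cases h0 : D s x = 0
    · rw [h0, abs_zero]; positivity
    · have h2 := (hsupp' s (hS s hs) x (hne s x _ h0)).1
      have h3 : ‖fderiv ℝ (fun x => φ (dgf (flow B s) x)) x‖ ≤ K * L := by
        rw [fderiv_comp_dgf hdiff]
        exact (ContinuousLinearMap.opNorm_comp_le _ _).trans
          (mul_le_mul (hb1 _) (norm_dgf_clm_le (hLB s (hS s hs)).1) (norm_nonneg _) hK0)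
      rw [← Real.norm_eq_abs]
      refine (ContinuousLinearMap.le_opNorm _ _).trans (mul_le_mul h3 ?_ (norm_nonneg _)
        (by positivity))
      exact (norm_dg_le B x).trans (mul_le_mul_of_nonneg_left h2 (by positivity))
  obtain ⟨C, hC0, hC⟩ := U_bound (m := m) hb τ (R := L * R) (r := r / L) (by positivity) hφ.inn hφ.out
  -- pointwise convergence of the derivative
  have hlim : ∀ s ∈ S, Tendsto (fun n => U (k n) τ (D s)) atTop (𝓝 0) := by
    intro s hs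
    have hT : Tst τ (fun x => φ (dgf (flow B s) x)) := hφ.comp _
    have h1 := (hW m τ _ hT).comp hk
    have h2 : Tendsto (fun n => (‖(B - BC (a (k n)) (b (k n))) 1‖ +
        ‖(B - BC (a (k n)) (b (k n))) Complex.I‖)) atTop (𝓝 0) := by
      have h3 : Tendsto (fun n => B - BC (a (k n)) (b (k n))) atTop (𝓝 (B - B)) :=
        tendsto_const_nhds.sub hB
      rw [sub_self] at h3
      have h4 : ∀ z : ℂ, Tendsto (fun n => ‖(B - BC (a (k n)) (b (k n))) z‖) atTop (𝓝 0) := by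
        intro z
        have h5 : Continuous fun A : LB => ‖A z‖ :=
          ((ContinuousLinearMap.apply ℝ ℂ z).continuous).norm
        have h6 : Tendsto (fun n => ‖(B - BC (a (k n)) (b (k n))) z‖) atTop
            (𝓝 ‖(0 : LB) z‖) := (h5.tendsto 0).comp h3
        rwa [show (0 : LB) z = 0 from rfl, norm_zero] at h6
      simpa using (h4 1).add (h4 Complex.I)
    have h7 : ∀ᶠ n in atTop, |U (k n) τ (D s) -
        U (k n) τ (fun x => fderiv ℝ (fun x => φ (dgf (flow B s) x)) x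
          (dg (BC (a (k n)) (b (k n))) x))| ≤
        C * (K * L * ((‖(B - BC (a (k n)) (b (k n))) 1‖ +
          ‖(B - BC (a (k n)) (b (k n))) Complex.I‖) * (L * R))) := by
      filter_upwards [hk.eventually hC, hk.eventually (eventually_ge_atTop 1)] with n hn hn1
      rw [← U_sub hn1 (R := L * R)
        (fun x hx => (hsupp' s (hS s hs) x (hne s x _ hx)).1)
        (fun x hx => (hsupp' s (hS s hs) x (hne s x _ hx)).1)]
      have e : ∀ x : Pm m, D s x - fderiv ℝ (fun x => φ (dgf (flow B s) x)) x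
          (dg (BC (a (k n)) (b (k n))) x) = fderiv ℝ (fun x => φ (dgf (flow B s) x)) x
          (dg (B - BC (a (k n)) (b (k n))) x) := by
        intro x
        rw [← dg_sub, map_sub]
      refine hn _ _ (fun x => ?_) (fun x hx => ?_)
      · rw [e]
        by_cases h0 : fderiv ℝ (fun x => φ (dgf (flow B s) x)) x
          (dg (B - BC (a (k n)) (b (k n))) x) = 0
        · rw [h0, abs_zero]; positivity
        · have h2 := (hsupp' s (hS s hs) x (hne s x _ h0)).1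
          have h3 : ‖fderiv ℝ (fun x => φ (dgf (flow B s) x)) x‖ ≤ K * L := by
            rw [fderiv_comp_dgf hdiff]
            exact (ContinuousLinearMap.opNorm_comp_le _ _).trans
              (mul_le_mul (hb1 _) (norm_dgf_clm_le (hLB s (hS s hs)).1) (norm_nonneg _) hK0)
          rw [← Real.norm_eq_abs]
          refine (ContinuousLinearMap.le_opNorm _ _).trans (mul_le_mul h3 ?_ (norm_nonneg _)
            (by positivity))
          exact (norm_dg_le _ x).trans (mul_le_mul_of_nonneg_left h2 (by positivity))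
      · rw [e] at hx
        exact hsupp' s (hS s hs) x (hne s x _ hx)
    have h8 : Tendsto (fun n => C * (K * L * ((‖(B - BC (a (k n)) (b (k n))) 1‖ +
          ‖(B - BC (a (k n)) (b (k n))) Complex.I‖) * (L * R)))) atTop (𝓝 0) := by
      have := ((h2.mul_const (L * R)).const_mul (K * L)).const_mul C
      simpa using this
    have h9 : Tendsto (fun n => U (k n) τ (D s) -
        U (k n) τ (fun x => fderiv ℝ (fun x => φ (dgf (flow B s) x)) x
          (dg (BC (a (k n)) (b (k n))) x))) atTop (𝓝 0) :=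
      squeeze_zero_norm' (by simpa only [Real.norm_eq_abs] using h7) h8
    have h10 := h9.add h1
    rw [add_zero] at h10
    refine h10.congr fun n => ?_
    exact sub_add_cancel _ _
  -- integration
  have hint : ∀ᶠ n in atTop, U (k n) τ (fun x => φ (dgf (flow B t) x)) - U (k n) τ φ =
      ∫ s in (0 : ℝ)..t, U (k n) τ (D s) := by
    filter_upwards [hk.eventually (eventually_ge_atTop 1)] with n hn
    rw [intervalIntegral.integral_eq_sub_of_hasDerivAt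
      (fun s hs => hder (k n) hn s (htS hs)) (hcont (k n) hn).intervalIntegrable]
    congr 2
    funext x
    congr 1
    funext i
    rw [dgf_apply, flow_zero]; rfl
  have hdct : Tendsto (fun n => ∫ s in (0 : ℝ)..t, U (k n) τ (D s)) atTop
      (𝓝 (∫ s in (0 : ℝ)..t, (0 : ℝ))) := by
    refine intervalIntegral.tendsto_integral_filter_of_dominated_convergence
      (fun _ => C * (K * L * ((‖B 1‖ + ‖B Complex.I‖) * (L * R)))) ?_ ?_ ?_ ?_
    · filter_upwards [hk.eventually (eventually_ge_atTop 1)] with n hn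
      exact ((hcont (k n) hn).mono uIoc_subset_uIcc).aestronglyMeasurable measurableSet_uIoc
    · filter_upwards [hk.eventually hC] with n hn
      refine Eventually.of_forall fun s hs => ?_
      have hs' := htS (uIoc_subset_uIcc hs)
      rw [Real.norm_eq_abs]
      exact hn _ _ (hDb s hs') (fun x hx => hsupp' s (hS s hs') x (hne s x _ hx))
    · exact intervalIntegrable_const
    · exact Eventually.of_forall fun s hs => hlim s (htS (uIoc_subset_uIcc hs))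
  rw [intervalIntegral.integral_zero] at hdct
  exact hdct.congr' (hint.mono fun n hn => hn.symm)

/-- nearby linear maps give nearby values of `U` -/
theorem U_close (hb : PBd) {k : ℕ → ℕ} (hk : Tendsto k atTop atTop) {φ : Pm m → ℝ}
    (hφ : Tst τ φ) {G : ℕ → LG} {g : LG} {L : ℝ} (hL1 : 1 ≤ L)
    (hG : ∀ n, ‖G n 1‖ + ‖G n Complex.I‖ ≤ L ∧ ‖(G n)⁻¹ 1‖ + ‖(G n)⁻¹ Complex.I‖ ≤ L)
    (hg : ‖g 1‖ + ‖g Complex.I‖ ≤ L ∧ ‖g⁻¹ 1‖ + ‖g⁻¹ Complex.I‖ ≤ L)
    (h1 : Tendsto (fun n => G n 1) atTop (𝓝 (g 1)))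
    (hI : Tendsto (fun n => G n Complex.I) atTop (𝓝 (g Complex.I))) :
    Tendsto (fun n => U (k n) τ (fun x => φ (dgf (G n) x)) - U (k n) τ (fun x => φ (dgf g x)))
      atTop (𝓝 0) := by
  obtain ⟨R, r, K, hr, hK0, hR0, hs0, hs1, hb0, hb1, hlip⟩ := hφ.data
  have hL0 : 0 < L := by linarith
  obtain ⟨C, hCnn, hC⟩ := U_bound (m := m) hb τ (R := L * R) (r := r / L) (by positivity) hφ.inn hφ.out
  have hz : ∀ {z : ℂ}, Tendsto (fun n => G n z) atTop (𝓝 (g z)) →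
      Tendsto (fun n => ‖G n z - g z‖) atTop (𝓝 0) := by
    intro z hz
    have h2 := hz.sub_const (g z)
    rw [sub_self] at h2
    exact tendsto_zero_iff_norm_tendsto_zero.1 h2
  have h3 : ∀ᶠ n in atTop, |U (k n) τ (fun x => φ (dgf (G n) x)) -
      U (k n) τ (fun x => φ (dgf g x))| ≤
      C * (K * ((‖G n 1 - g 1‖ + ‖G n Complex.I - g Complex.I‖) * (L * R))) := by
    filter_upwards [hk.eventually hC, hk.eventually (eventually_ge_atTop 1)] with n hn hn1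
    have s1 : ∀ x : Pm m, φ (dgf (G n) x) ≠ 0 →
        ‖x‖ ≤ L * R ∧ ∀ i j, i ≠ j → r / L ≤ dist (x i) (x j) := fun x hx =>
      supp_comp (hG n).1 (hG n).2 hL1 (hs0 _ hx)
    have s2 : ∀ x : Pm m, φ (dgf g x) ≠ 0 →
        ‖x‖ ≤ L * R ∧ ∀ i j, i ≠ j → r / L ≤ dist (x i) (x j) := fun x hx =>
      supp_comp hg.1 hg.2 hL1 (hs0 _ hx)
    have s3 : ∀ x : Pm m, φ (dgf (G n) x) - φ (dgf g x) ≠ 0 →
        ‖x‖ ≤ L * R ∧ ∀ i j, i ≠ j → r / L ≤ dist (x i) (x j) := by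
      intro x hx
      by_cases h0 : φ (dgf g x) = 0
      · apply s1
        intro h0'
        exact hx (by rw [h0, h0', sub_zero])
      · exact s2 x h0
    rw [← U_sub hn1 (R := L * R) (fun x hx => (s1 x hx).1) (fun x hx => (s2 x hx).1)]
    refine hn _ _ (fun x => ?_) s3
    by_cases h0 : φ (dgf (G n) x) - φ (dgf g x) = 0
    · rw [h0, abs_zero]; positivity
    · refine (hlip _ _).trans (mul_le_mul_of_nonneg_left ?_ hK0)
      have h4 : dgf (G n) x - dgf g x = dg ((G n : LB) - (g : LB)) x := by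
        rw [← dg_sub]; rfl
      rw [h4]
      exact (norm_dg_le _ x).trans (mul_le_mul_of_nonneg_left (s3 x h0).1 (by positivity))
  have h5 : Tendsto (fun n => C * (K * ((‖G n 1 - g 1‖ + ‖G n Complex.I - g Complex.I‖) *
      (L * R)))) atTop (𝓝 0) := by
    have := ((((hz h1).add (hz hI)).mul_const (L * R)).const_mul K).const_mul C
    simpa using this
  exact squeeze_zero_norm' (by simpa only [Real.norm_eq_abs] using h3) h5

theorem dgf_eq (g : LG) (x : Pm m) : dgf g x = fun i => g (x i) := rfl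

theorem tendsto_BC {a b : ℕ → ℝ} {p : ℝ × ℝ} {k : ℕ → ℕ}
    (h : Tendsto (fun n => (a (k n), b (k n))) atTop (𝓝 p)) (z : ℂ) :
    Tendsto (fun n => BC (a (k n)) (b (k n)) z) atTop (𝓝 (BC p.1 p.2 z)) := by
  have h1 := ((continuous_BC z).tendsto p).comp h
  simpa only [Function.comp_def] using h1

/-- bounded coefficients have converging subsequences -/
theorem exists_BC_lim {a b : ℕ → ℝ} {A : ℝ} (ha : ∀ N, |a N| ≤ A) (hb' : ∀ N, |b N| ≤ A)
    (ns : ℕ → ℕ) : ∃ ms : ℕ → ℕ, Tendsto ms atTop atTop ∧ ∃ B : LB,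
      Tendsto (fun n => BC (a (ns (ms n))) (b (ns (ms n)))) atTop (𝓝 B) := by
  have hin : ∀ n, ((a (ns n), b (ns n)) : ℝ × ℝ) ∈ (Icc (-A) A ×ˢ Icc (-A) A : Set (ℝ × ℝ)) :=
    fun n => ⟨abs_le.1 (ha _), abs_le.1 (hb' _)⟩
  have hKc : IsCompact (Icc (-A) A ×ˢ Icc (-A) A : Set (ℝ × ℝ)) := isCompact_Icc.prod isCompact_Icc
  obtain ⟨p, -, ms, hms, hlim⟩ := hKc.tendsto_subseq hin
  obtain ⟨B, hB1, hBI, hB⟩ := tendsto_of_values
    (B := fun n => BC (a (ns (ms n))) (b (ns (ms n))))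
    (tendsto_BC (k := fun n => ns (ms n)) hlim 1) (tendsto_BC (k := fun n => ns (ms n)) hlim Complex.I)
  exact ⟨ms, hms.tendsto_atTop, B, hB⟩

/-- along a subsequence -/
theorem U_flow_sub (hb : PBd) {a b : ℕ → ℝ} {A : ℝ} (ha : ∀ N, |a N| ≤ A)
    (hb' : ∀ N, |b N| ≤ A) (hW : Weak a b) {φ : Pm m → ℝ} (hφ : Tst τ φ) (t : ℝ) {k : ℕ → ℕ}
    (hk : Tendsto k atTop atTop) {B : LB}
    (hB : Tendsto (fun n => BC (a (k n)) (b (k n))) atTop (𝓝 B)) {G : ℕ → LG}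
    (hG : ∀ N, G N = flow (BC (a N) (b N)) t) :
    Tendsto (fun n => U (k n) τ (fun x => φ (dgf (G (k n)) x)) - U (k n) τ φ) atTop (𝓝 0) := by
  have h1 := U_flow_lim hb hW hk hB hφ t
  obtain ⟨C0, hC0⟩ := BC_bound A
  obtain ⟨L, hL1, hL⟩ := exists_flow_bound (max C0 (max ‖B 1‖ ‖B Complex.I‖)) |t|
  have hLB := hL B ((le_max_left _ _).trans (le_max_right _ _))
    ((le_max_right _ _).trans (le_max_right _ _)) t le_rfl
  have hLn : ∀ N, ‖G N 1‖ + ‖G N Complex.I‖ ≤ L ∧ ‖(G N)⁻¹ 1‖ + ‖(G N)⁻¹ Complex.I‖ ≤ L := by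
    intro N
    rw [hG N]
    exact hL (BC (a N) (b N)) ((hC0 _ _ (ha N) (hb' N)).1.trans
      (le_max_left _ _)) ((hC0 _ _ (ha N) (hb' N)).2.trans (le_max_left _ _)) t le_rfl
  have hlim : ∀ z : ℂ, Tendsto (fun n => G (k n) z) atTop (𝓝 (flow B t z)) := by
    intro z
    simp only [hG]
    exact tendsto_flow hB t z
  have h6 := U_close hb hk hφ hL1 (G := fun n => G (k n)) (g := flow B t)
    (fun n => hLn (k n)) hLB (hlim 1) (hlim Complex.I)
  have h7 := h6.add h1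
  rw [add_zero] at h7
  exact h7.congr fun n => sub_add_sub_cancel _ _ _

/-- **(I1)**: weak identity ⇒ asymptotic invariance under the flow -/
theorem U_flow_dgf (hb : PBd) {a b : ℕ → ℝ} {A : ℝ} (ha : ∀ N, |a N| ≤ A)
    (hb' : ∀ N, |b N| ≤ A) (hW : Weak a b) {φ : Pm m → ℝ} (hφ : Tst τ φ) (t : ℝ) {G : ℕ → LG}
    (hG : ∀ N, G N = flow (BC (a N) (b N)) t) :
    Tendsto (fun N => U N τ (fun x => φ (dgf (G N) x)) - U N τ φ) atTop (𝓝 0) := by
  apply tendsto_of_subseq_tendsto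
  intro ns hns
  obtain ⟨ms, hms, B, hB⟩ := exists_BC_lim ha hb' ns
  exact ⟨ms, U_flow_sub hb ha hb' hW hφ t (hns.comp hms) hB hG⟩

/-- the same with the flow written out -/
theorem U_flow (hb : PBd) {a b : ℕ → ℝ} {A : ℝ} (ha : ∀ N, |a N| ≤ A) (hb' : ∀ N, |b N| ≤ A)
    (hW : Weak a b) {φ : Pm m → ℝ} (hφ : Tst τ φ) (t : ℝ) :
    Tendsto (fun N => U N τ (fun x => φ (fun i => flow (BC (a N) (b N)) t (x i))) - U N τ φ)
      atTop (𝓝 0) := by
  have h := U_flow_dgf hb ha hb' hW hφ t (G := fun N => flow (BC (a N) (b N)) t) fun N => rfl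
  simp only [dgf_eq] at h
  exact h

end

end Pool.Agent.ROT.I
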