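import Pool.Agent.ROT.IDefs

/-!
# ROT, block I: every loop is run through once by a closed nearest neighbour path (helper71)

`rep_of`: an enumeration `b 0, …, b (n - 1)` of one half of the occupied half edges (the entries) with
`b (i + 1) = rv (vp γ (b i))` gives a `Rep`.  **`rep_exists`**: every loop has one (the orbit of `rv ∘ vp`).
-/

set_option autoImplicit false

namespace Pool.Agent.ROT.I

open Finset
open Pool.Agent.YBC (Dir)
open Pool.Agent.ROT.E (Cfg Lp He Cell Mt Lk Cn nx rv vp oc io)

/-! ### elementary facts -/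

private theorem nx_op (v : Pt) (d : Dir) : nx (nx v d) d.op = v := by
  cases d <;> simp [nx, Dir.op]

private theorem rv_rv (h : He) : rv (rv h) = h := by
  obtain ⟨v, d⟩ := h
  simp only [rv, nx_op]
  cases d <;> rfl

private theorem rv_ne (h : He) : rv h ≠ h := by
  obtain ⟨v, d⟩ := h
  intro e
  have := congrArg Prod.snd e
  cases d <;> simp [rv, Dir.op] at this

private theorem p_p (c : Cell) (d : Dir) : c.p (c.p d) = d := by
  cases c <;> cases d <;> rfl

private theorem oc_p (c : Cell) (d : Dir) : c.oc (c.p d) ↔ c.oc d := by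
  unfold Cell.oc
  rw [p_p]
  exact ne_comm

private theorem vp_vp (γ : Cfg) (h : He) : vp γ (vp γ h) = h := by
  simp only [vp, p_p]

private theorem oc_vp (γ : Cfg) (h : He) : oc γ (vp γ h) ↔ oc γ h := oc_p _ _

private theorem vp_ne {γ : Cfg} {h : He} (ho : oc γ h) : vp γ h ≠ h := fun e => ho (congrArg Prod.snd e)

private theorem oc_rv {γ : Cfg} (hm : Mt γ Set.univ) (h : He) : oc γ (rv h) ↔ oc γ h :=
  (hm h (Set.mem_univ _) (Set.mem_univ _)).symm

private theorem oc_supp {γ : Cfg} {h : He} (ho : oc γ h) : h.1 ∈ γ.support := by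
  rw [Finsupp.mem_support_iff]
  intro e
  apply ho
  rw [e]
  rfl

private theorem oc_fin (γ : Cfg) : {h | oc γ h}.Finite := by
  refine (Set.Finite.subset ((γ.support.finite_toSet).prod (Set.finite_univ (α := Dir))) ?_)
  intro h ho
  exact ⟨oc_supp ho, Set.mem_univ _⟩

private theorem exists_oc {γ : Cfg} {v : Pt} (h : γ v ≠ 0) : ∃ d, oc γ (v, d) := by
  have key : ∀ c : Cell, c ≠ .o → ∃ d, c.oc d := by decide
  exact key _ h

/-! ### the path of an enumeration of the entries -/

/-- the contribution of a half edge to the parity of the corner `(p, y)` -/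
private def G (p y : ℤ) (h : He) : ZMod 2 := if h.2 = .W ∧ h.1.1 = p ∧ y ≤ h.1.2 then 1 else 0

private theorem step_G (p y : ℤ) (h : He) :
    (if h.1 ≠ (rv h).1 ∧ (Par.sd h.1 (rv h).1).1 = false ∧ (Par.sd h.1 (rv h).1).2.1 = p ∧
      y ≤ (Par.sd h.1 (rv h).1).2.2 then (1 : ZMod 2) else 0) = G p y h + G p y (rv h) := by
  obtain ⟨⟨a, b⟩, d⟩ := h
  have h3 : ¬ a = a - 1 := by omega
  have h4 : ¬ b = b - 1 := by omega
  have h5 : ¬ a = a + 1 := by omega
  have h6 : ¬ b = b + 1 := by omega
  cases d <;> simp [Par.sd, rv, nx, G, Dir.op, h3, h4, h5, h6]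

private theorem stp_rv (h : He) : Par.Stp h.1 (rv h).1 := by
  obtain ⟨⟨a, b⟩, d⟩ := h
  right
  cases d <;> simp [rv, nx]

theorem rep_of {γ : Cfg} {n : ℕ} {b : ℕ → He} (hn : 0 < n) (hs : ∀ i < n, b (i + 1) = rv (vp γ (b i)))
    (hp : b n = b 0) (ho : ∀ i < n, oc γ (b i)) (hi : ∀ i < n, ∀ j < n, b i = b j → i = j)
    (hd : ∀ i < n, ∀ j < n, b i ≠ vp γ (b j))
    (hx : ∀ h, oc γ h → (∃ i < n, b i = h) ∨ ∃ i < n, b i = vp γ h) : Rep γ n (fun i => (b i).1) := by
  classical
  have hv : ∀ i < n, (b (i + 1)).1 = (rv (vp γ (b i))).1 := fun i hi => by rw [hs i hi]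
  refine ⟨⟨?_, ?_⟩, hn, ?_, ?_⟩
  · show (b n).1 = (b 0).1
    rw [hp]
  · intro i hi
    show Par.Stp (b i).1 (b (i + 1)).1
    rw [hv i hi]
    exact stp_rv (vp γ (b i))
  · intro p
    constructor
    · intro h
      obtain ⟨d, hd'⟩ := exists_oc h
      rcases hx _ hd' with ⟨i, hi, e⟩ | ⟨i, hi, e⟩
      · exact ⟨i, hi, by rw [e]⟩
      · exact ⟨i, hi, by rw [e]; rfl⟩
    · rintro ⟨i, hi, rfl⟩
      exact Finsupp.mem_support_iff.1 (oc_supp (ho i hi))
  · intro p y
    have e1 : Par.sg n (fun i => (b i).1) p y = ∑ i ∈ range n, (G p y (vp γ (b i)) + G p y (b (i + 1))) := by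
      unfold Par.sg
      refine sum_congr rfl fun i hi => ?_
      have hi' := mem_range.1 hi
      have h1 := step_G p y (vp γ (b i))
      rw [← hs i hi'] at h1
      exact h1
    have e2 : ∑ i ∈ range n, G p y (b (i + 1)) = ∑ i ∈ range n, G p y (b i) := by
      have h1 := sum_range_succ (fun i => G p y (b i)) n
      have h2 := sum_range_succ' (fun i => G p y (b i)) n
      rw [h1, hp] at h2
      exact (add_right_cancel h2).symm
    have e3 : ∑ i ∈ range n, G p y (b i) = ∑ h ∈ (range n).image b, G p y h := by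
      rw [sum_image]
      intro i hi' j hj' e
      exact hi i (mem_range.1 hi') j (mem_range.1 hj') e
    have e4 : ∑ i ∈ range n, G p y (vp γ (b i)) = ∑ h ∈ (range n).image (fun i => vp γ (b i)), G p y h := by
      rw [sum_image]
      intro i hi' j hj' e
      refine hi i (mem_range.1 hi') j (mem_range.1 hj') ?_
      rw [← vp_vp γ (b i), ← vp_vp γ (b j)]
      exact congrArg (vp γ) e
    have e5 : Disjoint ((range n).image b) ((range n).image (fun i => vp γ (b i))) := by
      rw [disjoint_left]
      intro h h1 h2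
      obtain ⟨i, hi', rfl⟩ := mem_image.1 h1
      obtain ⟨j, hj', e⟩ := mem_image.1 h2
      exact hd i (mem_range.1 hi') j (mem_range.1 hj') e.symm
    have e6 : (range n).image b ∪ (range n).image (fun i => vp γ (b i)) = (oc_fin γ).toFinset := by
      ext h
      rw [mem_union, mem_image, mem_image, Set.Finite.mem_toFinset]
      constructor
      · rintro (⟨i, hi', rfl⟩ | ⟨i, hi', rfl⟩)
        · exact ho i (mem_range.1 hi')
        · exact (oc_vp γ _).2 (ho i (mem_range.1 hi'))
      · intro h1
        rcases hx h h1 with ⟨i, hi', e⟩ | ⟨i, hi', e⟩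
        · exact Or.inl ⟨i, mem_range.2 hi', e⟩
        · exact Or.inr ⟨i, mem_range.2 hi', by rw [e, vp_vp]⟩
    rw [e1, sum_add_distrib, e2, e3, e4, add_comm, ← sum_union e5, e6]
    have e7 : ∀ h ∈ (oc_fin γ).toFinset, h ∈ γ.support ×ˢ (univ : Finset Dir) := by
      intro h h1
      rw [mem_product]
      exact ⟨oc_supp ((Set.Finite.mem_toFinset _).1 h1), mem_univ _⟩
    have e8 : ∑ h ∈ (oc_fin γ).toFinset, G p y h =
        ∑ h ∈ γ.support ×ˢ (univ : Finset Dir), if oc γ h then G p y h else 0 := by
      rw [← sum_filter]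
      refine sum_congr ?_ fun _ _ => rfl
      ext h
      rw [mem_filter, Set.Finite.mem_toFinset]
      constructor
      · intro h1
        exact ⟨e7 h ((Set.Finite.mem_toFinset _).2 h1), h1⟩
      · rintro ⟨-, h1⟩
        exact h1
    rw [e8, sum_product]
    unfold Pool.Agent.ROT.E.sg
    refine sum_congr rfl fun v _ => ?_
    have e9 : ∀ d : Dir, (if oc γ (v, d) then G p y (v, d) else 0) =
        if d = .W then (if v.1 = p ∧ y ≤ v.2 then io γ v .W else 0) else 0 := by
      intro d
      by_cases hd' : d = .W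
      · subst hd'
        have h1 : G p y (v, Dir.W) = if v.1 = p ∧ y ≤ v.2 then 1 else 0 := by
          unfold G
          simp
        rw [if_pos rfl, h1]
        unfold io
        by_cases h2 : oc γ (v, Dir.W)
        · rw [if_pos h2, if_pos h2]
        · rw [if_neg h2, if_neg h2, ite_self]
      · have h1 : G p y (v, d) = 0 := by
          unfold G
          exact if_neg fun h2 => hd' h2.1
        rw [if_neg hd', h1, ite_self]
    simp only [e9]
    rw [sum_ite_eq' univ Dir.W, if_pos (mem_univ _)]

/-! ### the orbit -/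

/-- **every loop is run through once by a closed nearest neighbour path** -/
theorem rep_exists {γ : Cfg} (h : Lp γ) : ∃ (n : ℕ) (v : ℕ → Pt), Rep γ n v := by
  classical
  obtain ⟨v0, hv0⟩ := Finsupp.ne_iff.1 h.ne
  obtain ⟨d0, hd0⟩ := exists_oc (by simpa using hv0)
  have : Finite {k : He // oc γ k} := (oc_fin γ).to_subtype
  let g : {k : He // oc γ k} → {k : He // oc γ k} := fun k => ⟨rv (vp γ k.1), (oc_rv h.mt _).2 ((oc_vp γ _).2 k.2)⟩
  have gi : Function.Injective g := by
    intro a b e
    have e1 : rv (vp γ a.1) = rv (vp γ b.1) := congrArg Subtype.val e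
    have e2 : vp γ a.1 = vp γ b.1 := by rw [← rv_rv (vp γ a.1), e1, rv_rv]
    exact Subtype.ext (by rw [← vp_vp γ a.1, e2, vp_vp])
  let x0 : {k : He // oc γ k} := ⟨(v0, d0), hd0⟩
  have hper := gi.mem_periodicPts x0
  have hn := Function.minimalPeriod_pos_of_mem_periodicPts hper
  set n := Function.minimalPeriod g x0 with hnd
  let b : ℕ → He := fun i => (g^[i] x0).1
  have hb : ∀ i, b (i + 1) = rv (vp γ (b i)) := fun i => by
    show (g^[i + 1] x0).1 = _
    rw [Function.iterate_succ_apply']
  have hbo : ∀ i, oc γ (b i) := fun i => (g^[i] x0).2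
  have hbn : ∀ i, b (i + n) = b i := fun i => congrArg Subtype.val (Function.iterate_add_minimalPeriod_eq (f := g))
  have hbk : ∀ i k, b (i + n * k) = b i := by
    intro i k
    induction k with
    | zero => rfl
    | succ k ih => rw [Nat.mul_succ, ← add_assoc, hbn, ih]
  have hbm : ∀ i, b (i % n) = b i := fun i => by
    conv_rhs => rw [← Nat.mod_add_div i n]
    rw [hbk]
  -- no entry is an exit
  have key : ∀ m : ℕ, ∀ x : {k : He // oc γ k}, (g^[m] x).1 ≠ vp γ x.1 := by
    intro m
    induction m using Nat.twoStepInduction with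
    | zero => exact fun x e => vp_ne x.2 e.symm
    | one => exact fun x e => rv_ne _ e
    | more m ih _ =>
      intro x e
      apply ih (g x)
      rw [Function.iterate_succ_apply', Function.iterate_succ_apply'] at e
      have e1 : rv (vp γ (g (g^[m] x)).1) = vp γ x.1 := e
      have e2 : (g (g^[m] x)).1 = vp γ (rv (vp γ x.1)) := by
        rw [← e1, rv_rv, vp_vp]
      have e3 : g (g^[m] x) = g^[m] (g x) := by
        rw [← Function.iterate_succ_apply' (f := g), Function.iterate_succ_apply]
      rw [← e3, e2]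
  refine ⟨n, fun i => (b i).1, rep_of hn (fun i _ => hb i) (by simpa using hbn 0) (fun i _ => hbo i) ?_ ?_ ?_⟩
  · intro i hi j hj e
    exact Function.iterate_injOn_Iio_minimalPeriod (f := g) (x := x0) hi hj (Subtype.ext e)
  · intro i _ j _ e
    have h1 : j ≤ i + n * j := le_trans (Nat.le_mul_of_pos_left j hn) (Nat.le_add_left _ _)
    rw [← hbk i j] at e
    obtain ⟨m, hm⟩ := Nat.exists_eq_add_of_le h1
    apply key m (g^[j] x0)
    rw [← Function.iterate_add_apply, add_comm m j, ← hm]
    exact e
  · intro k hk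
    have h1 : ∀ k : He, Cn γ Set.univ (v0, d0) k → (∃ i, b i = k) ∨ ∃ i, b i = vp γ k := by
      intro k hc
      have inv : ∀ a c : He, Relation.EqvGen (Lk γ Set.univ) a c →
          (((∃ i, b i = a) ∨ ∃ i, b i = vp γ a) ↔ ((∃ i, b i = c) ∨ ∃ i, b i = vp γ c)) := by
        intro a c hac
        induction hac with
        | rel a c l =>
          rcases l.2.2 with e | ⟨e, -⟩
          · rw [e, vp_vp]
            exact or_comm
          · subst e
            constructor
            · rintro (⟨i, e⟩ | ⟨i, e⟩)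
              · right
                refine ⟨i + n - 1, ?_⟩
                have h2 := hb (i + n - 1)
                rw [Nat.sub_add_cancel (by omega), hbn, e] at h2
                rw [h2, rv_rv, vp_vp]
              · left
                refine ⟨i + 1, ?_⟩
                rw [hb, e, vp_vp]
            · rintro (⟨i, e⟩ | ⟨i, e⟩)
              · right
                refine ⟨i + n - 1, ?_⟩
                have h2 := hb (i + n - 1)
                rw [Nat.sub_add_cancel (by omega), hbn, e] at h2
                rw [← rv_rv a, h2, rv_rv, vp_vp]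
              · left
                refine ⟨i + 1, ?_⟩
                rw [hb, e, vp_vp, rv_rv]
        | refl a => exact Iff.rfl
        | symm a c _ ih => exact ih.symm
        | trans a c d _ _ ih1 ih2 => exact ih1.trans ih2
      exact (inv _ _ hc).1 (Or.inl ⟨0, rfl⟩)
    rcases h1 k (h.cn _ _ hd0 hk) with ⟨i, e⟩ | ⟨i, e⟩
    · exact Or.inl ⟨i % n, Nat.mod_lt _ hn, by rw [hbm, e]⟩
    · exact Or.inr ⟨i % n, Nat.mod_lt _ hn, by rw [hbm, e]⟩

end Pool.Agent.ROT.I
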