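import Pool.Agent.ROT.I2
import Pool.Agent.ROT.IFlow
import Pool.Agent.ROT.IRep

/-!
# ROT, block I: the assembly (helper11)

`i2_weak`: the weak identity, bounded masses and no near self touch give `I2`; `mt_flow_weak`: the functionals on
loops modulo translation are asymptotically invariant under the flow.
-/

set_option autoImplicit false

namespace Pool.Agent.ROT.I

open MeasureTheory Filter Topology

noncomputable section

theorem rep_all : ∀ γ : Lps, ∃ n v, Rep γ.1 n v := fun γ => rep_exists γ.2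

theorem pbd_of (hM : Mass) (hF : Far) : PBd := by
  intro m τ R r hr hin hout
  obtain ⟨C, -, hC⟩ := PP_bdd rep_all hM hF τ R r hr hin hout
  exact ⟨C, hC⟩

/-- the weak identity depends on the tail only -/
theorem weak_congr {a b a' b' : ℕ → ℝ} (h : Weak a b) (ha : ∀ᶠ N in atTop, a N = a' N)
    (hb : ∀ᶠ N in atTop, b N = b' N) : Weak a' b' := by
  intro m τ φ hφ
  refine (h m τ φ hφ).congr' ?_
  filter_upwards [ha, hb] with N h1 h2
  rw [h1, h2]

/-- **(I2) from the weak identity** -/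
theorem i2_weak {a b : ℕ → ℝ} (hM : Mass) (hF : Far) (hS : NTS) {A : ℝ} (ha : ∀ N, |a N| ≤ A)
    (hb : ∀ N, |b N| ≤ A) (hW : Weak a b) : I2 a b :=
  i2_of rep_all hM hF hS ha hb fun _ _ _ hφ t => U_flow (pbd_of hM hF) ha hb hW hφ t

/-- a bounded modification -/
def trn (A : ℝ) (a : ℕ → ℝ) (N : ℕ) : ℝ := max (-A) (min A (a N))

theorem trn_le {A : ℝ} (hA : 0 ≤ A) (a : ℕ → ℝ) (N : ℕ) : |trn A a N| ≤ A := by
  rw [abs_le]
  exact ⟨le_max_left _ _, max_le (by linarith) (min_le_left _ _)⟩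

theorem trn_eq {A : ℝ} {a : ℕ → ℝ} {N : ℕ} (h : |a N| ≤ A) : trn A a N = a N := by
  rw [abs_le] at h
  unfold trn
  rw [min_eq_right h.2, max_eq_right h.1]

/-- **flow invariance modulo translation, from the weak identity** -/
theorem mt_flow_weak {a b : ℕ → ℝ} (hM : Mass) (hF : Far) (hS : NTS) {A : ℝ} (hA : 0 ≤ A)
    (ha : ∀ᶠ N in atTop, |a N| ≤ A) (hb : ∀ᶠ N in atTop, |b N| ≤ A) (hW : Weak a b)
    {F : Set ℂ → ℝ} {C L r : ℝ} (hr : 0 < r) (hF' : TT F C L r) (t : ℝ) :
    Tendsto (fun N : ℕ => MT N (fun K => F (flow (BC (trn A a N) (trn A b N)) t '' K)) - MT N F) atTop (𝓝 0) :=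
  mt_flow hM (trn_le hA a) (trn_le hA b) (i2_weak hM hF hS (trn_le hA a) (trn_le hA b)
    (weak_congr hW (ha.mono fun _ h => (trn_eq h).symm) (hb.mono fun _ h => (trn_eq h).symm))) hr hF' t

end

end Pool.Agent.ROT.I
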