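import Pool.Agent.ROT.EHexT
import Pool.Agent.ROT.IRepW

/-!
# ROT, block I: the measure `mu` as a sum over closed words (helper16)

* `mu_hl`: `mu` of a set is the sum of the weights of the honeycomb loops of the set;
* **`mu_sum`**: sum over the translates, the six directed bonds at the origin and the closed words;
* **`mu_Z0`**: loops modulo translation;
* `by_len`: closed words by length.
-/

set_option autoImplicit false

namespace Pool.Agent.ROT.I

open MeasureTheory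
open Pool.Agent.ROT.E (Cfg Lp Cell)
open Pool.Agent.ROT.E.Hx
open HexObs (wE gf)
open scoped ENNReal

theorem mu_apply (S : Set Lps) : mu S = ∑' γ : Lps, ENNReal.ofReal (M1 γ.1) * S.indicator 1 γ := by
  have hS : MeasurableSet S := trivial
  unfold mu
  rw [Measure.sum_apply _ hS]
  refine tsum_congr fun γ => ?_
  rw [Measure.smul_apply, Measure.dirac_apply' _ hS, smul_eq_mul]

open Classical in
/-- **`mu` and the weights of the honeycomb loops** -/
theorem mu_hl (P : Cfg → Prop) :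
    mu {γ | P γ.1} = ∑' γ : {γ : Cfg // HL γ}, wl γ.1 * if P γ.1 then 1 else 0 := by
  rw [mu_apply]
  have h4 := tsum_subtype {γ : Cfg | Lp γ} (fun γ => ENNReal.ofReal (M1 γ) * if P γ then 1 else 0)
  have h5 := tsum_subtype {γ : Cfg | HL γ} (fun γ => wl γ * if P γ then 1 else 0)
  have h6 : ∀ γ : Lps, ENNReal.ofReal (M1 γ.1) * {γ : Lps | P γ.1}.indicator 1 γ =
      ENNReal.ofReal (M1 γ.1) * if P γ.1 then 1 else 0 := fun γ => by
    simp only [Set.indicator_apply, Set.mem_ofPred_eq, Pi.one_apply]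
  rw [tsum_congr h6]
  refine h4.trans (Eq.trans ?_ h5.symm)
  refine tsum_congr fun γ => ?_
  simp only [Set.indicator_apply, Set.mem_ofPred_eq]
  have e1 : M1 γ = if Ny γ then HexObs.xc ^ (hs γ).card else 0 := by
    unfold M1
    exact prod_hex γ
  by_cases h1 : Lp γ
  · by_cases h2 : Ny γ
    · rw [if_pos h1, if_pos (⟨h1, h2⟩ : HL γ), e1, if_pos h2]
      rfl
    · rw [if_pos h1, if_neg (fun h : HL γ => h2 h.ny), e1, if_neg h2, ENNReal.ofReal_zero, zero_mul]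
  · rw [if_neg h1, if_neg (fun h : HL γ => h1 h.lp)]

open Classical in
/-- **the general sum**: translate, root, word -/
theorem mu_sum (P : Cfg → Prop) :
    mu {γ | P γ.1} = ∑' a : Pt, ∑ s : Sx, ∑' t : Wo,
      wE t * if P (lpw (a, s) t) then (2 * ((t : List Bool).length : ℝ≥0∞))⁻¹ else 0 := by
  rw [mu_hl]
  have h1 := sum_loop fun γ => if P γ then (2 * ((hs γ).card : ℝ≥0∞))⁻¹ else 0
  have h2 : ∀ γ : {γ : Cfg // HL γ}, 2 * ((hs γ.1).card : ℝ≥0∞) * (wl γ.1 * if P γ.1 then (2 * ((hs γ.1).card : ℝ≥0∞))⁻¹ else 0) =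
      wl γ.1 * if P γ.1 then 1 else 0 := by
    rintro ⟨γ, l⟩
    have hp := hs_pos l
    have hc : (2 * ((hs γ).card : ℝ≥0∞)) ≠ 0 := by
      simp only [ne_eq, mul_eq_zero, OfNat.ofNat_ne_zero, Nat.cast_eq_zero, false_or]
      omega
    have hc' : (2 * ((hs γ).card : ℝ≥0∞)) ≠ ⊤ := ENNReal.mul_ne_top (by simp) (by simp)
    simp only
    split_ifs
    · rw [mul_left_comm, ENNReal.mul_inv_cancel hc hc']
    · simp
  rw [tsum_congr h2] at h1
  rw [h1]
  have h3 : ∑' e : Bo, ∑' t : Wo, wE t * (if P (lpw e t) then (2 * ((hs (lpw e t)).card : ℝ≥0∞))⁻¹ else 0) =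
      ∑' e : Bo, ∑' t : Wo, wE t * (if P (lpw e t) then (2 * ((t : List Bool).length : ℝ≥0∞))⁻¹ else 0) := by
    refine tsum_congr fun e => tsum_congr fun t => ?_
    rw [card_lpw t.2]
  rw [h3, ENNReal.tsum_prod' (f := fun e : Bo => ∑' t : Wo,
    wE t * (if P (lpw e t) then (2 * ((t : List Bool).length : ℝ≥0∞))⁻¹ else 0))]
  exact tsum_congr fun a => tsum_fintype _

/-! ### modulo translation -/

open Classical in
/-- the corner of a configuration: leftmost column, lowest row -/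
noncomputable def cor (γ : Cfg) : Pt :=
  if h : γ.support.Nonempty then (γ.support.inf' h Prod.fst, γ.support.inf' h Prod.snd) else 0

theorem cor_eq {γ : Cfg} (h : γ.support.Nonempty) (q : Pt) :
    cor γ = q ↔ (∀ v, γ v ≠ 0 → q.1 ≤ v.1 ∧ q.2 ≤ v.2) ∧ (∃ v, γ v ≠ 0 ∧ v.1 = q.1) ∧ ∃ v, γ v ≠ 0 ∧ v.2 = q.2 := by
  unfold cor
  rw [dif_pos h]
  constructor
  · rintro rfl
    refine ⟨fun v hv => ⟨Finset.inf'_le _ (Finsupp.mem_support_iff.2 hv), Finset.inf'_le _ (Finsupp.mem_support_iff.2 hv)⟩, ?_, ?_⟩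
    · obtain ⟨v, hv, h1⟩ := Finset.exists_mem_eq_inf' h (Prod.fst : Pt → ℤ)
      exact ⟨v, Finsupp.mem_support_iff.1 hv, h1.symm⟩
    · obtain ⟨v, hv, h1⟩ := Finset.exists_mem_eq_inf' h (Prod.snd : Pt → ℤ)
      exact ⟨v, Finsupp.mem_support_iff.1 hv, h1.symm⟩
  · rintro ⟨h1, ⟨v, hv, hv'⟩, w, hw, hw'⟩
    refine Prod.ext (le_antisymm ?_ ?_) (le_antisymm ?_ ?_)
    · rw [← hv']
      exact Finset.inf'_le _ (Finsupp.mem_support_iff.2 hv)
    · exact Finset.le_inf' h _ fun u hu => (h1 u (Finsupp.mem_support_iff.1 hu)).1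
    · rw [← hw']
      exact Finset.inf'_le _ (Finsupp.mem_support_iff.2 hw)
    · exact Finset.le_inf' h _ fun u hu => (h1 u (Finsupp.mem_support_iff.1 hu)).2

theorem hl_ne {γ : Cfg} (l : HL γ) : γ.support.Nonempty := by
  rw [Finset.nonempty_iff_ne_empty]
  intro h
  exact l.lp.ne (Finsupp.support_eq_empty.1 h)

theorem trc_ne (a : Pt) (γ : Cfg) (v : Pt) : E.Hx.trc a γ v = γ (v - a) := by
  have h := E.Hx.trc_apply a γ (v - a)
  rwa [sub_add_cancel] at h

theorem cor_trc (a : Pt) (γ : Cfg) (l : HL γ) : cor (E.Hx.trc a γ) = cor γ + a := by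
  have h1 := (cor_eq (hl_ne l) (cor γ)).1 rfl
  have h2 : (E.Hx.trc a γ).support.Nonempty := hl_ne (hl_trc.2 l)
  rw [cor_eq h2]
  obtain ⟨h3, ⟨v, hv, hv'⟩, w, hw, hw'⟩ := h1
  refine ⟨fun u hu => ?_, ⟨v + a, ?_, ?_⟩, w + a, ?_, ?_⟩
  · rw [trc_ne] at hu
    have := h3 _ hu
    simp only [Prod.fst_sub, Prod.snd_sub] at this
    simp only [Prod.fst_add, Prod.snd_add]
    omega
  · rw [E.Hx.trc_apply]
    exact hv
  · simp only [Prod.fst_add]
    omega
  · rw [E.Hx.trc_apply]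
    exact hw
  · simp only [Prod.snd_add]
    omega

open Classical in
/-- **modulo translation**: root and word -/
theorem mu_Z0 (P : Cfg → Prop) (hP : ∀ a γ, HL γ → (P (E.Hx.trc a γ) ↔ P γ)) :
    mu (Z0 ∩ {γ | P γ.1}) = ∑ s : Sx, ∑' t : Wo,
      wE t * if P (lpw (0, s) t) then (2 * ((t : List Bool).length : ℝ≥0∞))⁻¹ else 0 := by
  have e1 : Z0 ∩ {γ : Lps | P γ.1} = {γ : Lps | cor γ.1 = 0 ∧ P γ.1} := by
    ext γ
    have h : γ.1.support.Nonempty := by
      rw [Finset.nonempty_iff_ne_empty]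
      intro h
      exact γ.2.ne (Finsupp.support_eq_empty.1 h)
    rw [Set.mem_inter_iff, Set.mem_ofPred_eq, Set.mem_ofPred_eq, cor_eq h]
    rfl
  rw [e1, mu_hl fun γ => cor γ = 0 ∧ P γ]
  have h1 := mtp (top := cor) cor_trc (fun γ => if P γ then 1 else 0) (fun a γ l => by
    by_cases h : P γ
    · rw [if_pos h, if_pos ((hP a γ l).2 h)]
    · rw [if_neg h, if_neg fun h' => h ((hP a γ l).1 h')])
  have h2 : ∀ s : Sx, ∀ t : Wo, wE t * ((if P (lpw (0, s) t) then (1 : ℝ≥0∞) else 0) / (2 * (t : List Bool).length)) =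
      wE t * if P (lpw (0, s) t) then (2 * ((t : List Bool).length : ℝ≥0∞))⁻¹ else 0 := by
    intro s t
    split_ifs
    · rw [one_div]
    · rw [ENNReal.zero_div]
  rw [Finset.sum_congr rfl fun s _ => tsum_congr (h2 s)] at h1
  rw [← h1]
  have h4 := tsum_subtype {γ : Cfg | HL γ} (fun γ => wl γ * if cor γ = 0 ∧ P γ then 1 else 0)
  have h5 := tsum_subtype {γ : Cfg | HL γ ∧ cor γ = 0} (fun γ => wl γ * if P γ then 1 else 0)
  refine (tsum_congr fun γ => ?_).trans (h4.trans (Eq.trans ?_ h5.symm))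
  · congr
  refine tsum_congr fun γ => ?_
  simp only [Set.indicator_apply, Set.mem_ofPred_eq]
  by_cases h6 : HL γ <;> by_cases h7 : cor γ = 0 <;> by_cases h8 : P γ <;> simp [h6, h7, h8]

open Classical in
/-- closed words by length -/
theorem by_len (Q : List Bool → Prop) :
    ∑' t : Wo, wE t * (if Q t then (2 * ((t : List Bool).length : ℝ≥0∞))⁻¹ else 0) =
      2⁻¹ * ∑' n : ℕ, ENNReal.ofReal (1 / n) * gf {t | t ∈ HexObs.POL.Cy n ∧ Q t} := by
  have h1 : ∀ n : ℕ, gf {t | t ∈ HexObs.POL.Cy n ∧ Q t} =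
      ∑' t : List Bool, {t | t ∈ HexObs.POL.Cy n ∧ Q t}.indicator (fun t => wE t) t := fun n =>
    tsum_subtype {t | t ∈ HexObs.POL.Cy n ∧ Q t} wE
  have h2 : ∑' t : Wo, wE t * (if Q t then (2 * ((t : List Bool).length : ℝ≥0∞))⁻¹ else 0) =
      ∑' t : List Bool, Wo.indicator (fun t => wE t * (if Q t then (2 * (t.length : ℝ≥0∞))⁻¹ else 0)) t :=
    tsum_subtype Wo fun t => wE t * (if Q t then (2 * (t.length : ℝ≥0∞))⁻¹ else 0)
  rw [h2]
  simp_rw [h1, ← ENNReal.tsum_mul_left]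
  rw [ENNReal.tsum_comm]
  refine tsum_congr fun t => ?_
  rw [tsum_eq_single t.length]
  · by_cases h3 : t ∈ HexObs.POL.Cy t.length
    · by_cases h4 : Q t
      · by_cases h5 : t = []
        · subst h5
          simp [Wo]
        · have h6 : t ∈ Wo := ⟨h5, h3⟩
          have h7 : 0 < t.length := List.length_pos_iff.2 h5
          rw [Set.indicator_of_mem h6, Set.indicator_of_mem (show t ∈ {t' | t' ∈ HexObs.POL.Cy t.length ∧ Q t'} from ⟨h3, h4⟩),
            if_pos h4, one_div, ENNReal.ofReal_inv_of_pos (by exact_mod_cast h7), ENNReal.ofReal_natCast,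
            ENNReal.mul_inv (by simp) (by simp)]
          ring
      · rw [Set.indicator_of_notMem (show t ∉ {t' | t' ∈ HexObs.POL.Cy t.length ∧ Q t'} from fun h => h4 h.2)]
        by_cases h6 : t ∈ Wo
        · rw [Set.indicator_of_mem h6, if_neg h4]
          simp
        · rw [Set.indicator_of_notMem h6]
          simp
    · have h6 : t ∉ Wo := fun h => h3 h.2
      rw [Set.indicator_of_notMem h6, Set.indicator_of_notMem (show t ∉ {t' | t' ∈ HexObs.POL.Cy t.length ∧ Q t'} from fun h => h3 h.1)]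
      simp
  · intro n hn
    rw [Set.indicator_of_notMem]
    · simp
    · rintro ⟨h3, -⟩
      exact hn h3.1.symm

/-- upper bounds by the words only -/
theorem mu_Z0_le (P : Cfg → Prop) (hP : ∀ a γ, HL γ → (P (E.Hx.trc a γ) ↔ P γ)) (Q : List Bool → Prop)
    (h : ∀ s, ∀ t ∈ Wo, P (lpw (0, s) t) → Q t) :
    mu (Z0 ∩ {γ | P γ.1}) ≤ 3 * ∑' n : ℕ, ENNReal.ofReal (1 / n) * gf {t | t ∈ HexObs.POL.Cy n ∧ Q t} := by
  classical
  rw [mu_Z0 P hP]
  have h1 : ∀ s : Sx, ∑' t : Wo, wE t * (if P (lpw (0, s) t) then (2 * ((t : List Bool).length : ℝ≥0∞))⁻¹ else 0) ≤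
      2⁻¹ * ∑' n : ℕ, ENNReal.ofReal (1 / n) * gf {t | t ∈ HexObs.POL.Cy n ∧ Q t} := by
    intro s
    rw [← by_len]
    refine ENNReal.tsum_le_tsum fun t => mul_le_mul_right ?_ _
    by_cases h2 : P (lpw (0, s) t)
    · rw [if_pos h2, if_pos (h s t t.2 h2)]
    · rw [if_neg h2]
      exact zero_le
  refine (Finset.sum_le_sum fun s _ => h1 s).trans ?_
  have hc : (Finset.univ : Finset Sx).card = 6 := rfl
  rw [Finset.sum_const, hc, nsmul_eq_mul, ← mul_assoc]
  refine mul_le_mul_left ?_ _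
  have : ((6 : ℕ) : ℝ≥0∞) * 2⁻¹ = 3 := by
    rw [show ((6 : ℕ) : ℝ≥0∞) = 3 * 2 by norm_num, mul_assoc, ENNReal.mul_inv_cancel (by simp) (by simp), mul_one]
  rw [this]

/-- lower bounds by the words only -/
theorem mu_Z0_ge (P : Cfg → Prop) (hP : ∀ a γ, HL γ → (P (E.Hx.trc a γ) ↔ P γ)) (Q : List Bool → Prop)
    (h : ∀ s, ∀ t ∈ Wo, Q t → P (lpw (0, s) t)) :
    3 * ∑' n : ℕ, ENNReal.ofReal (1 / n) * gf {t | t ∈ HexObs.POL.Cy n ∧ Q t} ≤ mu (Z0 ∩ {γ | P γ.1}) := by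
  classical
  rw [mu_Z0 P hP]
  have h1 : ∀ s : Sx, 2⁻¹ * ∑' n : ℕ, ENNReal.ofReal (1 / n) * gf {t | t ∈ HexObs.POL.Cy n ∧ Q t} ≤
      ∑' t : Wo, wE t * (if P (lpw (0, s) t) then (2 * ((t : List Bool).length : ℝ≥0∞))⁻¹ else 0) := by
    intro s
    rw [← by_len]
    refine ENNReal.tsum_le_tsum fun t => mul_le_mul_right ?_ _
    by_cases h2 : Q t
    · rw [if_pos h2, if_pos (h s t t.2 h2)]
    · rw [if_neg h2]
      exact zero_le
  refine le_trans ?_ (Finset.sum_le_sum fun s _ => h1 s)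
  have hc : (Finset.univ : Finset Sx).card = 6 := rfl
  rw [Finset.sum_const, hc, nsmul_eq_mul, ← mul_assoc]
  refine mul_le_mul_left ?_ _
  have : ((6 : ℕ) : ℝ≥0∞) * 2⁻¹ = 3 := by
    rw [show ((6 : ℕ) : ℝ≥0∞) = 3 * 2 by norm_num, mul_assoc, ENNReal.mul_inv_cancel (by simp) (by simp), mul_one]
  rw [this]

end Pool.Agent.ROT.I
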