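import Pool.Agent.ROT.ITr

/-!
# ROT, block I: the output `RotM` (helper42)

`RotM`: asymptotic rotation invariance, at the lattice level and uniformly in the rotation, of the law of the trace of
a critical polygon modulo translation (grand canonical mass, all sizes).  Consumed by block F.
-/

set_option autoImplicit false

namespace Pool.Agent.ROT.I

open MeasureTheory Filter Topology

noncomputable section

/-- the rotation by `t` of a set -/
def rotS (t : ℝ) (K : Set ℂ) : Set ℂ := (fun z : ℂ => Complex.exp (t * Complex.I) * z) '' K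

/-- **OUTPUT OF BLOCK I**: for every bounded, Hausdorff Lipschitz, translation invariant functional `F` which
vanishes on sets of diameter `< r`: `MT N (F ∘ rotation) - MT N F → 0` uniformly in the rotation -/
def RotM : Prop := ∀ (F : Set ℂ → ℝ) (C L r : ℝ), 0 < r → TT F C L r → ∀ ε : ℝ, 0 < ε →
  ∃ N0 : ℕ, ∀ N ≥ N0, ∀ t : ℝ, |MT N (fun K => F (rotS t K)) - MT N F| ≤ ε

/-- the functional as a sum over the loops with leftmost column `0` and lowest row `0` -/
theorem MT_eq (N : ℕ) (F : Set ℂ → ℝ) : MT N F = (N : ℝ) ^ 2 * ∑' γ : Z0, M1 γ.1.1 * F (trc N γ.1.1) := by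
  unfold MT
  rw [Tr.int_mu_set]

theorem rotS_eq (t : ℝ) (K : Set ℂ) : rotS t K = rot (Complex.exp (t * Complex.I)) (Complex.exp_ne_zero _) '' K := by
  unfold rotS
  refine Set.image_congr fun z _ => ?_
  rw [rot_apply]

end

end Pool.Agent.ROT.I
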