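import Pool.Agent.ROT.ITrDefs

/-!
# ROT, block I, row (I2'), second part: Riemann sums (helper42)
-/

set_option autoImplicit false

namespace Pool.Agent.ROT.I.Tr

open MeasureTheory Filter Topology

noncomputable section

/-- the cell of `p` in the grid of mesh `1 / N` -/
def cel (N : ℕ) (p : ℝ × ℝ) : Pt := (⌊(N : ℝ) * p.1⌋, ⌊(N : ℝ) * p.2⌋)

/-- the grid point -/
def gp (N : ℕ) (q : Pt) : ℝ × ℝ := ((q.1 : ℝ) / N, (q.2 : ℝ) / N)

theorem cel_meas (N : ℕ) (q : Pt) : MeasurableSet (cel N ⁻¹' {q}) := by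
  have h : Measurable (cel N) := by
    unfold cel
    refine Measurable.prodMk ?_ ?_
    · exact Int.measurable_floor.comp (measurable_const.mul measurable_fst)
    · exact Int.measurable_floor.comp (measurable_const.mul measurable_snd)
  exact h (measurableSet_singleton q)

theorem cel_eq {N : ℕ} (hN : 0 < N) (q : Pt) : cel N ⁻¹' {q} =
    Set.Ico ((q.1 : ℝ) / N) (((q.1 : ℝ) + 1) / N) ×ˢ Set.Ico ((q.2 : ℝ) / N) (((q.2 : ℝ) + 1) / N) := by
  have hN' : (0 : ℝ) < N := by exact_mod_cast hN
  ext p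
  simp only [Set.mem_preimage, Set.mem_singleton_iff, cel, Prod.ext_iff, Int.floor_eq_iff, Set.mem_prod, Set.mem_Ico]
  rw [div_le_iff₀ hN', div_le_iff₀ hN', lt_div_iff₀ hN', lt_div_iff₀ hN', mul_comm p.1, mul_comm p.2]

theorem vol_cel {N : ℕ} (hN : 0 < N) (q : Pt) : volume.real (cel N ⁻¹' {q}) = ((N : ℝ) ^ 2)⁻¹ := by
  have hN' : (0 : ℝ) < N := by exact_mod_cast hN
  rw [cel_eq hN, Measure.volume_eq_prod, measureReal_prod_prod, Real.volume_real_Ico_of_le, Real.volume_real_Ico_of_le]
  · field_simp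
    ring
  · exact div_le_div_of_nonneg_right (by linarith) hN'.le
  · exact div_le_div_of_nonneg_right (by linarith) hN'.le

theorem gp_near {N : ℕ} (hN : 0 < N) (p : ℝ × ℝ) : ‖p - gp N (cel N p)‖ ≤ 1 / N := by
  have hN' : (0 : ℝ) < N := by exact_mod_cast hN
  have key : ∀ x : ℝ, |x - (⌊(N : ℝ) * x⌋ : ℝ) / N| ≤ 1 / N := by
    intro x
    have h1 := Int.floor_le ((N : ℝ) * x)
    have h2 := Int.lt_floor_add_one ((N : ℝ) * x)
    have e : x - (⌊(N : ℝ) * x⌋ : ℝ) / N = ((N : ℝ) * x - ⌊(N : ℝ) * x⌋) / N := by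
      field_simp
    rw [e, abs_div, abs_of_pos hN', abs_of_nonneg (by linarith)]
    exact div_le_div_of_nonneg_right (by linarith) hN'.le
  rw [Prod.norm_def, max_le_iff]
  exact ⟨key p.1, key p.2⟩

/-- **Riemann sums** of a Lipschitz function with compact support -/
theorem riemann {h : ℝ × ℝ → ℝ} {L R : ℝ} (hL : ∀ p q, |h p - h q| ≤ L * ‖p - q‖) (hR : 0 ≤ R) (p0 : ℝ × ℝ)
    (hs : ∀ p, R < ‖p - p0‖ → h p = 0) {N : ℕ} (hN : 0 < N) :
    |(∫ p, h p) - ((N : ℝ) ^ 2)⁻¹ * ∑' q : Pt, h (gp N q)| ≤ L / N * (2 * (R + 1)) ^ 2 := by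
  have hN' : (0 : ℝ) < N := by exact_mod_cast hN
  have hN1 : (1 : ℝ) ≤ N := by exact_mod_cast hN
  have hL0 : 0 ≤ L := by
    have := (abs_nonneg _).trans (hL (1, 0) 0)
    simpa using this
  have hcont : Continuous h := by
    refine (LipschitzWith.of_dist_le_mul (K := ⟨L, hL0⟩) fun p q => ?_).continuous
    rw [Real.dist_eq, dist_eq_norm]
    exact hL p q
  have hcpt : HasCompactSupport h := by
    refine HasCompactSupport.intro (isCompact_closedBall p0 R) fun p hp => hs p ?_
    rw [Metric.mem_closedBall, dist_eq_norm, not_le] at hp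
    exact hp
  have hint : Integrable h := hcont.integrable_of_hasCompactSupport hcpt
  -- bound
  obtain ⟨C, hC⟩ := hcpt.exists_bound_of_continuous hcont
  set hN2 : ℝ × ℝ → ℝ := fun p => h (gp N (cel N p)) with hdef
  have hcm : Measurable (cel N) := by
    unfold cel
    refine Measurable.prodMk ?_ ?_
    · exact Int.measurable_floor.comp (measurable_const.mul measurable_fst)
    · exact Int.measurable_floor.comp (measurable_const.mul measurable_snd)
  have hmeas : Measurable hN2 := by
    exact (measurable_of_countable fun q : Pt => h (gp N q)).comp hcm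
  have hball : ∀ p, p ∉ Metric.closedBall p0 (R + 1) → h p = 0 ∧ hN2 p = 0 := by
    intro p hp
    rw [Metric.mem_closedBall, dist_eq_norm, not_le] at hp
    refine ⟨hs p (by linarith), hs _ ?_⟩
    have h1 := gp_near hN p
    have h2 : (1 : ℝ) / N ≤ 1 := by
      rw [div_le_one hN']
      exact hN1
    have h3 : ‖p - p0‖ ≤ ‖p - gp N (cel N p)‖ + ‖gp N (cel N p) - p0‖ := norm_sub_le_norm_sub_add_norm_sub _ _ _
    linarith
  have hint2 : Integrable hN2 := by
    have h1 : IntegrableOn hN2 (Metric.closedBall p0 (R + 1)) := by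
      refine Measure.integrableOn_of_bounded (M := C) ?_ hmeas.aestronglyMeasurable ?_
      · exact (isCompact_closedBall p0 (R + 1)).measure_lt_top.ne
      · exact Eventually.of_forall fun p => hC _
    refine (integrableOn_iff_integrable_of_support_subset ?_).1 h1
    intro p hp
    by_contra hc
    exact hp (hball p hc).2
  -- the sum
  have hsum : (∫ p, hN2 p) = ((N : ℝ) ^ 2)⁻¹ * ∑' q : Pt, h (gp N q) := by
    have h1 := integral_iUnion (μ := (volume : Measure (ℝ × ℝ))) (f := hN2) (s := fun q : Pt => cel N ⁻¹' {q})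
      (cel_meas N) (fun q q' hq => by
        refine Disjoint.preimage _ ?_
        rwa [Set.disjoint_singleton]) hint2.integrableOn
    have h2 : (⋃ q : Pt, cel N ⁻¹' {q}) = Set.univ := by
      ext p
      simp
    rw [h2, Measure.restrict_univ] at h1
    rw [h1, ← tsum_mul_left]
    refine tsum_congr fun q => ?_
    rw [setIntegral_congr_fun (g := fun _ => h (gp N q)) (cel_meas N q) (fun p hp => by
      simp only [hdef]
      rw [Set.mem_preimage, Set.mem_singleton_iff] at hp
      rw [hp]), setIntegral_const, vol_cel hN, smul_eq_mul]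
  rw [← hsum, ← integral_sub hint hint2]
  have hvol : volume.real (Metric.closedBall p0 (R + 1)) = (2 * (R + 1)) ^ 2 := by
    have e : Metric.closedBall p0 (R + 1) = Metric.closedBall p0.1 (R + 1) ×ˢ Metric.closedBall p0.2 (R + 1) := by
      rw [closedBall_prod_same]
    rw [e, Measure.volume_eq_prod, measureReal_prod_prod, Real.closedBall_eq_Icc, Real.closedBall_eq_Icc,
      Real.volume_real_Icc_of_le (by linarith), Real.volume_real_Icc_of_le (by linarith)]
    ring
  have hb : ∀ p, ‖h p - hN2 p‖ ≤ (Metric.closedBall p0 (R + 1)).indicator (fun _ => L / N) p := by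
    intro p
    by_cases hp : p ∈ Metric.closedBall p0 (R + 1)
    · rw [Set.indicator_of_mem hp, Real.norm_eq_abs]
      refine (hL _ _).trans ?_
      rw [div_eq_mul_one_div L]
      exact mul_le_mul_of_nonneg_left (gp_near hN p) hL0
    · rw [Set.indicator_of_notMem hp, (hball p hp).1, (hball p hp).2, sub_zero, norm_zero]
  rw [← Real.norm_eq_abs]
  refine (norm_integral_le_of_norm_le ?_ (Eventually.of_forall hb)).trans ?_
  · refine (integrable_indicator_iff measurableSet_closedBall).2 ?_
    exact integrableOn_const (isCompact_closedBall p0 (R + 1)).measure_lt_top.ne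
  · rw [integral_indicator measurableSet_closedBall, setIntegral_const, hvol, smul_eq_mul]
    rw [mul_comm]

/-- the measure `dx dy` in the plane -/
def mE : Measure ℂ := Measure.map EE volume

instance : mE.IsAddHaarMeasure := by
  unfold mE
  exact EE.isAddHaarMeasure_map volume

/-- the integral of the bump -/
def Ib : ℝ := ∫ z, bu z ∂mE

theorem bu_cont : Continuous bu := by
  unfold bu
  fun_prop

theorem bu_cpt : HasCompactSupport bu := by
  refine HasCompactSupport.intro (isCompact_closedBall (0 : ℂ) 1) fun z hz => bu_zero ?_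
  rw [mem_closedBall_zero_iff, not_le] at hz
  exact hz.le

theorem Ib_pos : 0 < Ib := by
  refine bu_cont.integral_pos_of_hasCompactSupport_nonneg_nonzero bu_cpt (fun z => bu_nonneg z) (x := 0) ?_
  unfold bu
  simp

/-- **the sum of the bump over a lattice of covolume one** -/
theorem riemann_bu {g : LG} {L : ℝ} (hdt : dt g = 1) (hL : 1 ≤ L) (hg : ∀ z, ‖g z‖ ≤ L * ‖z‖)
    (hg' : ∀ z, ‖z‖ ≤ L * ‖g z‖) (c : ℂ) {N : ℕ} (hN : 0 < N) :
    |Ib - ((N : ℝ) ^ 2)⁻¹ * ∑' q : Pt, bu (c + g (sc N q))| ≤ L * (‖e1‖ + ‖e2‖) / N * (2 * (L + 1)) ^ 2 := by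
  have hL0 : 0 ≤ L := by linarith
  have hI : (∫ p : ℝ × ℝ, bu (c + g (EE p))) = Ib := by
    have h1 : (∫ p : ℝ × ℝ, bu (c + g (EE p))) = ∫ z, bu (c + g z) ∂mE := by
      exact (EE.toHomeomorph.toMeasurableEquiv.measurableEmbedding.integral_map (μ := volume)
        (fun z => bu (c + g z))).symm
    have hdet : LinearMap.det ((g : LB) : ℂ →ₗ[ℝ] ℂ) = 1 := by rw [det_eq_dt, hdt]
    have h2 : Measure.map g mE = mE := by
      have := Measure.map_linearMap_addHaar_eq_smul_addHaar mE (f := ((g : LB) : ℂ →ₗ[ℝ] ℂ))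
        (by rw [hdet]; exact one_ne_zero)
      rw [hdet] at this
      simpa using this
    have h3 : (∫ z, bu (c + g z) ∂mE) = ∫ z, bu (c + z) ∂(Measure.map g mE) := by
      exact (g.toHomeomorph.toMeasurableEquiv.measurableEmbedding.integral_map (μ := mE)
        (fun z => bu (c + z))).symm
    rw [h1, h3, h2]
    exact integral_add_left_eq_self (μ := mE) bu c
  have hb := riemann (h := fun p => bu (c + g (EE p))) (L := L * (‖e1‖ + ‖e2‖)) (R := L) (fun p q => by
    refine (bu_lip _ _).trans ?_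
    rw [add_sub_add_left_eq_sub, ← map_sub, ← map_sub, mul_assoc]
    exact (hg _).trans (mul_le_mul_of_nonneg_left (norm_EE_le _) hL0)) hL0 (-(EE.symm (g.symm c))) (fun p hp => by
    apply bu_zero
    by_contra hc
    push Not at hc
    have e : c + g (EE p) = g (EE (p - -(EE.symm (g.symm c)))) := by
      rw [sub_neg_eq_add, map_add, map_add]
      simp [add_comm]
    rw [e] at hc
    have h1 := norm_EE_symm_le (EE (p - -(EE.symm (g.symm c))))
    rw [ContinuousLinearEquiv.symm_apply_apply] at h1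
    have h2 := hg' (EE (p - -(EE.symm (g.symm c))))
    have h3 : L * ‖g (EE (p - -(EE.symm (g.symm c))))‖ ≤ L * 1 := mul_le_mul_of_nonneg_left hc.le hL0
    linarith) hN
  rw [hI] at hb
  exact hb

end

end Pool.Agent.ROT.I.Tr
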