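import Pool.Agent.ROT.IOut
import Pool.Agent.ROT.EHexT

/-!
# ROT, block I: the rotation of order six (helper42)

`MT_R6`: `MT N (F ∘ R6) - MT N F → 0` (70's automorphism of the honeycomb, modulo translation; the square vertices of
the image are at distance `≤ 3` lattice units from the image of the square vertices).
-/

set_option autoImplicit false

namespace Pool.Agent.ROT.I.Tr

open MeasureTheory Filter Topology
open Pool.Agent.ROT.E (Cfg Lp trS)
open Pool.Agent.ROT.E.Hx (Au HL Ny roA rog hs Bo trb ps wh bk)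

noncomputable section

/-! ### weights -/

theorem M1_ny {γ : Cfg} (h : Ny γ) : M1 γ = HexObs.xc ^ (hs γ).card := by
  classical
  unfold M1
  rw [E.Hx.prod_hex, if_pos h]

theorem M1_not {γ : Cfg} (h : ¬ Ny γ) : M1 γ = 0 := by
  classical
  unfold M1
  rw [E.Hx.prod_hex, if_neg h]

/-- the honeycomb loops modulo translation -/
def ZN : Set Lps := {γ | γ ∈ Z0 ∧ Ny γ.1}

theorem sum_ZN (f : Lps → ℝ) : ∑' γ : Z0, M1 γ.1.1 * f γ.1 = ∑' γ : ZN, M1 γ.1.1 * f γ.1 := by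
  rw [tsum_subtype Z0 (fun γ : Lps => M1 γ.1 * f γ), tsum_subtype ZN (fun γ : Lps => M1 γ.1 * f γ)]
  refine tsum_congr fun γ => ?_
  by_cases h : γ ∈ Z0
  · by_cases h' : Ny γ.1
    · rw [Set.indicator_of_mem h, Set.indicator_of_mem (show γ ∈ ZN from ⟨h, h'⟩)]
    · rw [Set.indicator_of_mem h, Set.indicator_of_notMem (fun hc : γ ∈ ZN => h' hc.2), M1_not h', zero_mul]
  · rw [Set.indicator_of_notMem h, Set.indicator_of_notMem (fun hc : γ ∈ ZN => h hc.1)]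

/-! ### the representative modulo translation -/

theorem tA_tA (a b : Pt) (γ : Lps) : tA a (tA b γ) = tA (b + a) γ := by
  apply Subtype.ext
  ext v
  rw [tA_apply, tA_apply, tA_apply, sub_sub, add_comm a b]

/-- the representative -/
def rep (γ : Lps) : Lps := (eqA.symm γ).1.1

/-- the position -/
def pos (γ : Lps) : Pt := (eqA.symm γ).2

theorem rep_mem (γ : Lps) : rep γ ∈ Z0 := (eqA.symm γ).1.2

theorem tA_rep (γ : Lps) : tA (pos γ) (rep γ) = γ := eqA.apply_symm_apply γ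

theorem rep_of_mem (a : Pt) {γ : Lps} (h : γ ∈ Z0) : rep (tA a γ) = γ := by
  have h1 : eqA.symm (tA a γ) = (⟨γ, h⟩, a) := by
    rw [Equiv.symm_apply_eq]
    rfl
  unfold rep
  rw [h1]

theorem rep_tA (a : Pt) (γ : Lps) : rep (tA a γ) = rep γ := by
  conv_lhs => rw [← tA_rep γ, tA_tA]
  exact rep_of_mem _ (rep_mem γ)

theorem rep_self {γ : Lps} (h : γ ∈ Z0) : rep γ = γ := by
  have h1 := rep_of_mem 0 h
  rwa [rep_tA] at h1

theorem ny_rep {γ : Lps} (h : Ny γ.1) : Ny (rep γ).1 := by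
  intro v
  have h1 : (tA (pos γ) (rep γ)).1 (v + pos γ) = (rep γ).1 v := by
    rw [tA_apply, add_sub_cancel_right]
  rw [tA_rep] at h1
  rw [← h1]
  exact h _

/-! ### the automorphism -/

/-- the action on the translations -/
def rh (a : Pt) : Pt := (-a.2, a.1 + a.2)

/-- its inverse -/
def rh' (a : Pt) : Pt := (a.1 + a.2, -a.1)

theorem rh_rh' (a : Pt) : rh (rh' a) = a := by
  refine Prod.ext ?_ ?_ <;> simp [rh, rh']

theorem ro_trb (a : Pt) (e : Bo) : roA.b (trb a e) = trb (rh a) (roA.b e) := by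
  obtain ⟨⟨x, y⟩, s⟩ := e
  change E.Hx.ro _ = trb _ (E.Hx.ro _)
  cases s <;> refine Prod.ext (Prod.ext ?_ ?_) rfl <;> simp [E.Hx.ro, trb, rh] <;> ring

theorem ro_tr {γ : Cfg} (l : HL γ) (a : Pt) : roA.ac (E.Hx.trc a γ) = E.Hx.trc (rh a) (roA.ac γ) := by
  apply E.Hx.ub_ext (roA.ny_ac _) (E.Hx.ny_trc (roA.ny_ac _))
  intro f
  obtain ⟨f, rfl⟩ := roA.b.surjective f
  obtain ⟨g, rfl⟩ : ∃ g, f = trb a g := ⟨_, (E.Hx.trb_surj a f).symm⟩
  rw [roA.ub_ac (E.Hx.hl_trc.2 l), ro_trb, E.Hx.ub_trc, E.Hx.ub_trc, roA.ub_ac l]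

/-- the image of a loop -/
def aL (γ : Lps) (h : Ny γ.1) : Lps := ⟨roA.ac γ.1, (roA.hl_ac ⟨γ.2, h⟩).lp⟩

theorem aL_tA (a : Pt) (γ : Lps) (h : Ny γ.1) (h' : Ny (tA a γ).1) : aL (tA a γ) h' = tA (rh a) (aL γ h) :=
  Subtype.ext (ro_tr ⟨γ.2, h⟩ a)

theorem aL_inj {γ δ : Lps} (h : Ny γ.1) (h' : Ny δ.1) (e : aL γ h = aL δ h') : γ = δ := by
  apply Subtype.ext
  have h1 : roA.ac γ.1 = roA.ac δ.1 := congrArg Subtype.val e
  rw [← roA.inv_ac ⟨γ.2, h⟩, h1, roA.inv_ac ⟨δ.2, h'⟩]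

/-- the bijection modulo translation -/
def ph (γ : ZN) : ZN := ⟨rep (aL γ.1 γ.2.2), rep_mem _, ny_rep (roA.ny_ac _)⟩

theorem ny_tA (a : Pt) {γ : Lps} (h : Ny γ.1) : Ny (tA a γ).1 := E.Hx.ny_trc h

theorem eq_of_rep {γ δ : Lps} (h : rep γ = rep δ) : δ = tA (pos δ - pos γ) γ := by
  have h1 : tA (pos δ - pos γ) γ = tA (pos δ - pos γ) (tA (pos γ) (rep γ)) := by rw [tA_rep]
  rw [h1, tA_tA, add_sub_cancel, h, tA_rep]

theorem ph_bij : Function.Bijective ph := by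
  constructor
  · rintro ⟨γ, hγ, nγ⟩ ⟨δ, hδ, nδ⟩ h
    have h1 : rep (aL γ nγ) = rep (aL δ nδ) := congrArg (fun x : ZN => (x : Lps)) h
    have h2 := eq_of_rep h1
    set b := pos (aL δ nδ) - pos (aL γ nγ) with hb
    have h3 := aL_tA (rh' b) γ nγ (ny_tA _ nγ)
    rw [rh_rh', ← h2] at h3
    have h4 := aL_inj _ _ h3
    apply Subtype.ext
    change γ = δ
    rw [← rep_self hγ, ← rep_self hδ, ← h4, rep_tA]
  · rintro ⟨δ, hδ, nδ⟩
    have l : HL δ.1 := ⟨δ.2, nδ⟩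
    set ε : Lps := ⟨roA.inv.ac δ.1, (roA.inv.hl_ac l).lp⟩ with hε
    have nε : Ny ε.1 := roA.inv.ny_ac _
    refine ⟨⟨rep ε, rep_mem _, ny_rep nε⟩, ?_⟩
    apply Subtype.ext
    change rep (aL (rep ε) _) = δ
    have h1 : aL ε nε = δ := Subtype.ext (roA.ac_inv l)
    have h2 := aL_tA (pos ε) (rep ε) (ny_rep nε) (ny_tA _ (ny_rep nε))
    have h3 : aL (tA (pos ε) (rep ε)) (ny_tA _ (ny_rep nε)) = δ := by
      rw [← h1]
      congr 1
      exact tA_rep ε
    rw [h3] at h2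
    have h4 := congrArg rep h2
    rw [rep_tA, rep_self hδ] at h4
    exact h4.symm

theorem M1_aL (γ : Lps) (h : Ny γ.1) : M1 (aL γ h).1 = M1 γ.1 := by
  rw [M1_ny h, M1_ny (show Ny (aL γ h).1 from roA.ny_ac _)]
  congr 1
  exact roA.card_ac ⟨γ.2, h⟩

/-- **the sum modulo translation is invariant under the automorphism** -/
theorem sum_aL (N : ℕ) {F : Set ℂ → ℝ}
    (hti : ∀ K : Set ℂ, K.Finite → K.Nonempty → ∀ v : ℂ, F ((fun z => z + v) '' K) = F K) :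
    ∑' γ : ZN, M1 γ.1.1 * F (trc N γ.1.1) = ∑' γ : ZN, M1 γ.1.1 * F (trc N (aL γ.1 γ.2.2).1) := by
  rw [← (Equiv.ofBijective ph ph_bij).tsum_eq]
  refine tsum_congr fun γ => ?_
  change M1 (rep (aL γ.1 γ.2.2)).1 * F (trc N (rep (aL γ.1 γ.2.2)).1) = _
  have h1 : M1 (rep (aL γ.1 γ.2.2)).1 = M1 γ.1.1 := by
    rw [← M1_aL γ.1 γ.2.2, ← M1_tA (pos (aL γ.1 γ.2.2)) (rep (aL γ.1 γ.2.2)), tA_rep]
  have h2 : F (trc N (rep (aL γ.1 γ.2.2)).1) = F (trc N (aL γ.1 γ.2.2).1) := by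
    conv_rhs => rw [← tA_rep (aL γ.1 γ.2.2), trc_tA]
    exact (hti _ (trc_fin _ _) (trc_ne _ _) _).symm
  rw [h1, h2]

/-! ### positions -/

theorem om_eq : om = HexObs.zt := by
  unfold om HexObs.zt
  rw [show (Real.pi / 3 * Complex.I : ℂ) = ((Real.pi / 3 : ℝ) : ℂ) * Complex.I by push_cast; ring, Complex.exp_mul_I,
    ← Complex.ofReal_cos, ← Complex.ofReal_sin, Real.cos_pi_div_three, Real.sin_pi_div_three]
  apply Complex.ext
  · simp
  · simp

theorem R6_apply (z : ℂ) : R6 z = HexObs.zt * z := by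
  rw [R6, rot_apply, om_eq]

theorem sc_ps1 (N : ℕ) (q : Pt) : sc N q = ((N : ℝ)⁻¹) • ps q := by
  unfold sc ps e1 e2
  rw [smul_add, smul_smul, smul_smul]
  congr 2 <;> ring

theorem norm_one_sub_zt : ‖(1 : ℂ) - HexObs.zt‖ = 1 := by
  rw [Complex.norm_def, Complex.normSq_apply]
  have h3 : Real.sqrt 3 * Real.sqrt 3 = 3 := Real.mul_self_sqrt (by norm_num)
  rw [Real.sqrt_eq_one]
  simp only [HexObs.zt, Complex.sub_re, Complex.sub_im, Complex.one_re, Complex.one_im]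
  linear_combination (1 / 4) * h3

/-- the image of a bond -/
theorem ps_ro (f : Bo) : ‖ps (roA.b f).1 - HexObs.zt * ps f.1‖ ≤ 3 := by
  have h1 := E.Hx.dist_st (roA.b f)
  have h2 := E.Hx.dist_st f
  rw [E.Hx.st_ro, E.Hx.emb_rog] at h1
  rw [dist_eq_norm] at h1 h2
  have e : ps (roA.b f).1 - HexObs.zt * ps f.1 = -(1 + HexObs.zt * (HexObs.emb (E.Hx.st f) - 1) - ps (roA.b f).1) +
      (1 - HexObs.zt) + HexObs.zt * (HexObs.emb (E.Hx.st f) - ps f.1) := by ring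
  rw [e]
  refine (norm_add_le _ _).trans ?_
  have h3 := norm_add_le (-(1 + HexObs.zt * (HexObs.emb (E.Hx.st f) - 1) - ps (roA.b f).1)) (1 - HexObs.zt)
  rw [norm_neg, norm_one_sub_zt] at h3
  rw [norm_mul, E.Hx.norm_zt, one_mul]
  linarith

theorem ex_bond {γ : Cfg} {v : Pt} (h : γ v ≠ 0) : ∃ s, E.Hx.ub γ (v, s) := E.Hx.ex_us h

/-- the traces are close -/
theorem hd_aL {N : ℕ} (hN : 0 < N) (γ : Lps) (h : Ny γ.1) :
    Metric.hausdorffDist (R6 '' trc N γ.1) (trc N (aL γ h).1) ≤ 3 / N := by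
  have hN' : (0 : ℝ) < N := by exact_mod_cast hN
  have l : HL γ.1 := ⟨γ.2, h⟩
  have key : ∀ f : Bo, dist (R6 (sc N f.1)) (sc N (roA.b f).1) ≤ 3 / N := by
    intro f
    rw [R6_apply, sc_ps1, sc_ps1, dist_comm, dist_eq_norm, mul_smul_comm, ← smul_sub, norm_smul, norm_inv,
      Real.norm_natCast, div_eq_inv_mul]
    exact mul_le_mul_of_nonneg_left (ps_ro f) (by positivity)
  refine Metric.hausdorffDist_le_of_mem_dist (by positivity) ?_ ?_
  · rintro _ ⟨_, ⟨v, hv, rfl⟩, rfl⟩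
    obtain ⟨s, hs⟩ := ex_bond hv
    refine ⟨sc N (roA.b (v, s)).1, ⟨(roA.b (v, s)).1, ?_, rfl⟩, key (v, s)⟩
    have := E.Hx.ub_supp ((roA.ub_ac l (v, s)).2 hs)
    rwa [Finsupp.mem_support_iff] at this
  · rintro _ ⟨u, hu, rfl⟩
    obtain ⟨s, hs⟩ := ex_bond hu
    obtain ⟨f, hf⟩ := roA.b.surjective (u, s)
    have hs' : E.Hx.ub γ.1 f := by
      rw [← roA.ub_ac l f, hf]
      exact hs
    refine ⟨R6 (sc N f.1), ⟨sc N f.1, ⟨f.1, ?_, rfl⟩, rfl⟩, ?_⟩
    · have := E.Hx.ub_supp hs'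
      rwa [Finsupp.mem_support_iff] at this
    · have := key f
      rw [hf] at this
      rw [dist_comm]
      exact this

open Classical in
/-- **(D6)**: asymptotic invariance under the rotation of order six -/
theorem MT_R6 (hM : Mass) {F : Set ℂ → ℝ} {C L r : ℝ} (hr : 0 < r) (hF : TT F C L r) :
    Tendsto (fun N : ℕ => MT N (fun K => F (R6 '' K)) - MT N F) atTop (𝓝 0) := by
  obtain ⟨CM, hCM0, hCM⟩ := mass_real hM
  have hZ := Z0_fin hM
  have hC0 : 0 ≤ C := (abs_nonneg _).trans (hF.tf.bdd ∅)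
  have hL0 : 0 ≤ L := by
    have h1 := (abs_nonneg _).trans (hF.tf.lip {0} {1} (Set.finite_singleton _) (Set.finite_singleton _)
      (Set.singleton_nonempty _) (Set.singleton_nonempty _))
    rw [Metric.hausdorffDist_singleton] at h1
    simpa using h1
  have hR1 : ∀ z : ℂ, ‖R6 z‖ = ‖z‖ := fun z => by
    rw [R6_apply, norm_mul, E.Hx.norm_zt, one_mul]
  have hsmall : Tendsto (fun N : ℕ => (3 * L * (CM / (r / 2) ^ 2)) * (1 / (N : ℝ))) atTop (𝓝 0) := by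
    have := tendsto_one_div_atTop_nhds_zero_nat (𝕜 := ℝ)
    simpa using this.const_mul (3 * L * (CM / (r / 2) ^ 2))
  refine squeeze_zero_norm' ?_ hsmall
  filter_upwards [hCM (r / 2) (by positivity), eventually_gt_atTop 0, eventually_ge_atTop ⌈12 / r⌉₊] with N h1 hN hN2
  have hN' : (0 : ℝ) < N := by exact_mod_cast hN
  have hN3 : 12 / r ≤ N := (Nat.le_ceil _).trans (by exact_mod_cast hN2)
  have hN4 : 6 / (N : ℝ) ≤ r / 2 := by
    rw [div_le_iff₀ hN']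
    rw [div_le_iff₀ hr] at hN3
    linarith
  set h2 : Lps → ℝ := fun γ => if h : Ny γ.1 then F (R6 '' trc N γ.1) else 0 with hh2
  set h3 : Lps → ℝ := fun γ => if h : Ny γ.1 then F (trc N (aL γ h).1) else 0 with hh3
  have e2 : MT N (fun K => F (R6 '' K)) = (N : ℝ) ^ 2 * ∫ γ in Z0, h2 γ ∂mu := by
    rw [MT_eq, int_mu_set, sum_ZN (fun γ => F (R6 '' trc N γ.1)), sum_ZN]
    congr 1
    refine tsum_congr fun γ => ?_
    simp only [hh2]
    rw [dif_pos γ.2.2]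
  have e3 : MT N F = (N : ℝ) ^ 2 * ∫ γ in Z0, h3 γ ∂mu := by
    rw [MT_eq, int_mu_set, sum_ZN (fun γ => F (trc N γ.1)), sum_ZN, sum_aL N hF.ti]
    congr 1
    refine tsum_congr fun γ => ?_
    simp only [hh3]
    rw [dif_pos γ.2.2]
  have b2 : ∀ γ, |h2 γ| ≤ C := fun γ => by
    simp only [hh2]
    split_ifs
    · exact hF.tf.bdd _
    · simpa using hC0
  have b3 : ∀ γ, |h3 γ| ≤ C := fun γ => by
    simp only [hh3]
    split_ifs
    · exact hF.tf.bdd _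
    · simpa using hC0
  rw [e2, e3, ← mul_sub, ← integral_sub (int_Z0 hZ b2) (int_Z0 hZ b3), Real.norm_eq_abs, abs_mul,
    abs_of_pos (by positivity : (0 : ℝ) < (N : ℝ) ^ 2)]
  have h4 := int_Z0_le hZ (h := fun γ => h2 γ - h3 γ) (C := L * (3 / N)) (s := Big N (r / 2)) (fun γ _ => by
    simp only [hh2, hh3]
    split_ifs with h
    · refine (hF.tf.lip _ _ ((trc_fin N _).image _) (trc_fin N _) ((trc_ne N γ).image _) (trc_ne N _)).trans ?_
      exact mul_le_mul_of_nonneg_left (hd_aL hN γ h) hL0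
    · rw [sub_zero, abs_zero]
      positivity) (fun γ _ hγ => by
    have hd : Metric.diam (trc N γ.1) < r / 2 := by
      by_contra hc
      exact hγ (big_of_diam (not_lt.1 hc))
    simp only [hh2, hh3]
    split_ifs with h
    · have h5 := hd_aL hN γ h
      have h6 : Metric.diam (R6 '' trc N γ.1) ≤ 1 * Metric.diam (trc N γ.1) :=
        diam_img zero_le_one (fun z => by rw [hR1, one_mul]) (trc_fin N _)
      have h7 := diam_lip (K := trc N (aL γ h).1) (K' := R6 '' trc N γ.1) (trc_fin N _) ((trc_fin N _).image _)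
        ((trc_ne N γ).image _)
      rw [Metric.hausdorffDist_comm] at h7
      have h8 : 2 * Metric.hausdorffDist (R6 '' trc N γ.1) (trc N (aL γ h).1) ≤ r / 2 := by
        have : 2 * (3 / (N : ℝ)) = 6 / N := by ring
        linarith
      rw [hF.z _ ((trc_fin N _).image _) ((trc_ne N γ).image _) (by linarith),
        hF.z _ (trc_fin N _) (trc_ne N _) (by linarith), sub_zero]
    · rw [sub_zero])
  calc (N : ℝ) ^ 2 * |∫ γ in Z0, h2 γ - h3 γ ∂mu| ≤ (N : ℝ) ^ 2 * (L * (3 / N) * mu.real (Z0 ∩ Big N (r / 2))) :=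
        mul_le_mul_of_nonneg_left h4 (by positivity)
    _ = (3 * L * ((N : ℝ) ^ 2 * mu.real (Z0 ∩ Big N (r / 2)))) * (1 / N) := by ring
    _ ≤ (3 * L * (CM / (r / 2) ^ 2)) * (1 / N) :=
        mul_le_mul_of_nonneg_right (mul_le_mul_of_nonneg_left h1 (by positivity)) (by positivity)

end

end Pool.Agent.ROT.I.Tr
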