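import Pool.Agent.ROT.IRie

/-!
# ROT, block I, row (I2'): from all loops to loops modulo translation (helper42)

Asymptotic invariance of `∫ F (trace) dmu` for functionals `F` with bounded support (`I2`) gives asymptotic
invariance of `MT N F = N² ∫ over loops modulo translation of F (trace)` for translation invariant `F`.
-/

set_option autoImplicit false

namespace Pool.Agent.ROT.I

open MeasureTheory Filter Topology
open Pool.Agent.ROT.E (Cfg Lp trS)

noncomputable section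

namespace Tr

/-! ### the measure as a sum -/

instance Lps_disc : DiscreteMeasurableSpace Lps := ⟨fun _ => trivial⟩

instance Lps_count : Countable Lps := by
  have : Countable Cfg := inferInstance
  infer_instance

theorem M1_nn (γ : Cfg) : 0 ≤ M1 γ := by
  unfold M1 Finsupp.prod
  refine Finset.prod_nonneg fun v _ => ?_
  have hp := Real.pi_pos
  have h1 : 0 < Real.pi / 8 := by positivity
  have h2 : Real.pi / 8 < 3 * Real.pi / 8 := by linarith
  have h3 : Real.pi / 8 ≤ Real.pi / 4 := by linarith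
  generalize γ v = c
  cases c <;> simp only [E.Cell.wt]
  · exact zero_le_one
  · exact (UNI.wR_v_pos h1 h2).le
  · exact (UNI.wR_v_pos h1 h2).le
  · exact (UNI.wR_u1_pos h1 h2).le
  · exact (UNI.wR_u1_pos h1 h2).le
  · exact (UNI.wR_u2_pos h1 h2).le
  · exact (UNI.wR_u2_pos h1 h2).le
  · exact UNI.wR_w1_nonneg h1 h3
  · exact UNI.wR_w2_nonneg le_rfl h3

theorem int_mu (f : Lps → ℝ) : ∫ γ, f γ ∂mu = ∑' γ : Lps, M1 γ.1 * f γ := by
  unfold mu
  rw [integral_sum_dirac (fun _ => ENNReal.ofReal_ne_top)]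
  refine tsum_congr fun γ => ?_
  rw [ENNReal.toReal_ofReal (M1_nn _), smul_eq_mul]

theorem int_mu_set (s : Set Lps) (f : Lps → ℝ) : ∫ γ in s, f γ ∂mu = ∑' γ : s, M1 γ.1.1 * f γ.1 := by
  rw [← integral_indicator (MeasurableSet.of_discrete), int_mu, tsum_subtype s (fun γ : Lps => M1 γ.1 * f γ)]
  refine tsum_congr fun γ => ?_
  by_cases h : γ ∈ s
  · rw [Set.indicator_of_mem h, Set.indicator_of_mem h]
  · rw [Set.indicator_of_notMem h, Set.indicator_of_notMem h, mul_zero]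

theorem mu_sing (γ : Lps) : mu {γ} < ⊤ := by
  unfold mu
  rw [Measure.sum_apply _ MeasurableSet.of_discrete, tsum_eq_single γ]
  · rw [Measure.smul_apply, smul_eq_mul]
    refine ENNReal.mul_lt_top ENNReal.ofReal_lt_top ?_
    exact measure_lt_top _ _
  · intro γ' h
    rw [Measure.smul_apply, smul_eq_mul, Measure.dirac_apply' _ MeasurableSet.of_discrete,
      Set.indicator_of_notMem (by simpa using h), mul_zero]

theorem mu_finite {s : Set Lps} (hs : s.Finite) : mu s < ⊤ := by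
  induction s, hs using Set.Finite.induction_on with
  | empty => rw [measure_empty]; exact ENNReal.zero_lt_top
  | insert _ _ ih =>
    rw [Set.insert_eq]
    refine lt_of_le_of_lt (measure_union_le _ _) ?_
    exact ENNReal.add_lt_top.2 ⟨mu_sing _, ih⟩

/-! ### translations -/

theorem ac_tr (a : Pt) (γ : Cfg) (v : Pt) : (trS a).ac γ v = γ (v - a) := by
  have h := (trS a).ac_apply γ (v - a)
  rw [E.trS_e, sub_add_cancel] at h
  rw [h]
  rfl

/-- the translated loop -/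
def tA (a : Pt) (γ : Lps) : Lps := ⟨(trS a).ac γ.1, ((trS a).lp_iff γ.1).2 γ.2⟩

theorem tA_apply (a : Pt) (γ : Lps) (v : Pt) : (tA a γ).1 v = γ.1 (v - a) := ac_tr a γ.1 v

theorem M1_tA (a : Pt) (γ : Lps) : M1 (tA a γ).1 = M1 γ.1 := by
  unfold M1 Finsupp.prod
  have hs : (tA a γ).1.support = γ.1.support.map (Equiv.addRight a).toEmbedding := by
    ext v
    rw [Finsupp.mem_support_iff, tA_apply, Finset.mem_map_equiv, Finsupp.mem_support_iff]
    simp [sub_eq_add_neg]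
  rw [hs, Finset.prod_map]
  refine Finset.prod_congr rfl fun v _ => ?_
  rw [tA_apply]
  simp

theorem trc_fin (N : ℕ) (γ : Cfg) : (trc N γ).Finite := by
  unfold trc
  refine Set.Finite.image _ ((γ.support.finite_toSet).subset fun v hv => ?_)
  simpa using hv

theorem trc_ne (N : ℕ) (γ : Lps) : (trc N γ.1).Nonempty := by
  obtain ⟨v, hv⟩ := Finsupp.ne_iff.1 γ.2.ne
  exact ⟨sc N v, v, hv, rfl⟩

theorem trc_tA (N : ℕ) (a : Pt) (γ : Lps) : trc N (tA a γ).1 = (fun z => z + sc N a) '' trc N γ.1 := by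
  ext z
  constructor
  · rintro ⟨v, hv, rfl⟩
    refine ⟨sc N (v - a), ⟨v - a, ?_, rfl⟩, ?_⟩
    · change (tA a γ).1 v ≠ 0 at hv
      rwa [tA_apply] at hv
    · change sc N (v - a) + sc N a = sc N v
      rw [← sc_add, sub_add_cancel]
  · rintro ⟨w, ⟨v, hv, rfl⟩, rfl⟩
    refine ⟨v + a, ?_, sc_add N v a⟩
    change (tA a γ).1 (v + a) ≠ 0
    rw [tA_apply, add_sub_cancel_right]
    exact hv

/-- loops = loops modulo translation times translations -/
theorem bij_tA : Function.Bijective fun p : Z0 × Pt => tA p.2 p.1.1 := by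
  constructor
  · rintro ⟨⟨γ, hγ⟩, a⟩ ⟨⟨δ, hδ⟩, b⟩ h
    have h0 : ∀ v, γ.1 (v - a) = δ.1 (v - b) := by
      intro v
      rw [← tA_apply, ← tA_apply]
      exact congrArg (fun x : Lps => x.1 v) h
    have key : ∀ (γ δ : Lps), γ ∈ Z0 → δ ∈ Z0 → ∀ a b : Pt, (∀ v, γ.1 (v - a) = δ.1 (v - b)) →
        b.1 ≤ a.1 ∧ b.2 ≤ a.2 := by
      intro γ δ hγ hδ a b h0
      obtain ⟨-, ⟨v, hv, hv1⟩, ⟨w, hw, hw2⟩⟩ := hγ
      have h1 := h0 (v + a)
      have h2 := h0 (w + a)
      rw [add_sub_cancel_right] at h1 h2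
      rw [h1] at hv
      rw [h2] at hw
      have h3 := (hδ.1 _ hv).1
      have h4 := (hδ.1 _ hw).2
      simp only [Prod.fst_sub, Prod.fst_add, Prod.snd_sub, Prod.snd_add] at h3 h4
      constructor <;> linarith
    obtain ⟨h1, h2⟩ := key γ δ hγ hδ a b h0
    obtain ⟨h3, h4⟩ := key δ γ hδ hγ b a fun v => (h0 v).symm
    have hab : a = b := Prod.ext (le_antisymm h3 h1) (le_antisymm h4 h2)
    subst hab
    have : γ = δ := by
      apply Subtype.ext
      ext v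
      have := h0 (v + a)
      rwa [add_sub_cancel_right] at this
    subst this
    rfl
  · intro γ
    have hne : γ.1.support.Nonempty := Finsupp.support_nonempty_iff.2 γ.2.ne
    obtain ⟨v, hv, hv2⟩ := Finset.exists_min_image γ.1.support (fun v => v.1) hne
    obtain ⟨w, hw, hw2⟩ := Finset.exists_min_image γ.1.support (fun v => v.2) hne
    rw [Finsupp.mem_support_iff] at hv hw
    set a : Pt := (v.1, w.2) with ha
    refine ⟨⟨⟨tA (-a) γ, ?_, ⟨v - a, ?_, ?_⟩, ⟨w - a, ?_, ?_⟩⟩, a⟩, ?_⟩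
    · intro u hu
      rw [tA_apply, sub_neg_eq_add] at hu
      have h1 := hv2 (u + a) (Finsupp.mem_support_iff.2 hu)
      have h2 := hw2 (u + a) (Finsupp.mem_support_iff.2 hu)
      simp only [ha, Prod.fst_add, Prod.snd_add] at h1 h2
      constructor <;> linarith
    · rw [tA_apply, sub_neg_eq_add, sub_add_cancel]; exact hv
    · simp [ha]
    · rw [tA_apply, sub_neg_eq_add, sub_add_cancel]; exact hw
    · simp [ha]
    · apply Subtype.ext
      ext u
      change (tA a (tA (-a) γ)).1 u = _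
      rw [tA_apply, tA_apply, sub_neg_eq_add, sub_add_cancel]

/-- the decomposition -/
def eqA : Z0 × Pt ≃ Lps := Equiv.ofBijective _ bij_tA

theorem unfold_tr {f : Lps → ℝ} (hf : (Function.support f).Finite) :
    ∫ γ, f γ ∂mu = ∫ γ in Z0, ∑' a : Pt, f (tA a γ) ∂mu := by
  have hs : Summable fun γ : Lps => M1 γ.1 * f γ := by
    refine summable_of_hasFiniteSupport (hf.subset fun γ hγ => ?_)
    exact right_ne_zero_of_mul hγ
  rw [int_mu, int_mu_set, ← eqA.tsum_eq, Summable.tsum_prod (f := fun p => M1 (eqA p).1 * f (eqA p))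
    ((eqA.summable_iff).2 hs)]
  refine tsum_congr fun γ => ?_
  rw [← tsum_mul_left]
  refine tsum_congr fun a => ?_
  change M1 (tA a γ.1).1 * f (tA a γ.1) = _
  rw [M1_tA]

/-! ### finiteness -/

theorem fin_sc {N : ℕ} (hN : 0 < N) (R : ℝ) : {v : Pt | ‖sc N v‖ ≤ R}.Finite := by
  have hN' : (0 : ℝ) < N := by exact_mod_cast hN
  have h0 : ({v : Pt | |(v.1 : ℝ)| ≤ R * N ∧ |(v.2 : ℝ)| ≤ R * N}).Finite := by
    refine ((Set.finite_Icc (-⌈R * N⌉) ⌈R * N⌉).prod (Set.finite_Icc (-⌈R * N⌉) ⌈R * N⌉)).subset ?_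
    rintro v ⟨h1, h2⟩
    have hc := Int.le_ceil (R * N)
    rw [abs_le] at h1 h2
    refine ⟨⟨?_, ?_⟩, ⟨?_, ?_⟩⟩
    · have : (-(⌈R * N⌉ : ℝ)) ≤ v.1 := by linarith
      exact_mod_cast this
    · have : (v.1 : ℝ) ≤ ⌈R * N⌉ := by linarith
      exact_mod_cast this
    · have : (-(⌈R * N⌉ : ℝ)) ≤ v.2 := by linarith
      exact_mod_cast this
    · have : (v.2 : ℝ) ≤ ⌈R * N⌉ := by linarith
      exact_mod_cast this
  refine h0.subset fun v hv => ?_
  have h1 : ‖((v.1 : ℝ) / N, (v.2 : ℝ) / N)‖ ≤ R := by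
    have := norm_EE_symm_le (sc N v)
    rw [sc_eq, ContinuousLinearEquiv.symm_apply_apply] at this
    exact this.trans hv
  rw [Prod.norm_def, max_le_iff, Real.norm_eq_abs, Real.norm_eq_abs, abs_div, abs_div, abs_of_pos hN'] at h1
  exact ⟨(div_le_iff₀ hN').1 h1.1, (div_le_iff₀ hN').1 h1.2⟩

theorem fin_loops {N : ℕ} (hN : 0 < N) (R : ℝ) : {γ : Lps | trc N γ.1 ⊆ Metric.closedBall 0 R}.Finite := by
  set T := (fin_sc hN R).toFinset with hT
  have h1 : Finite {γ : Cfg | γ.support ⊆ T} := by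
    refine Finite.of_injective (β := T → E.Cell) (fun γ t => γ.1 t.1) fun γ δ h => ?_
    apply Subtype.ext
    ext v
    by_cases hv : v ∈ T
    · exact congrFun h ⟨v, hv⟩
    · have h2 : v ∉ γ.1.support := fun h => hv (γ.2 h)
      have h3 : v ∉ δ.1.support := fun h => hv (δ.2 h)
      rw [Finsupp.notMem_support_iff] at h2 h3
      rw [h2, h3]
  have h2 : {γ : Cfg | γ.support ⊆ T}.Finite := h1
  refine Set.Finite.of_finite_image (f := fun γ : Lps => γ.1) (h2.subset ?_) Subtype.val_injective.injOn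
  rintro _ ⟨γ, hγ, rfl⟩
  intro v hv
  rw [hT, Set.Finite.mem_toFinset]
  have := hγ ⟨v, (Finsupp.mem_support_iff.1 hv), rfl⟩
  rwa [mem_closedBall_zero_iff] at this

/-- loops of `Z0` are close to the origin -/
theorem Z0_near {N : ℕ} (hN : 0 < N) {γ : Lps} (h : γ ∈ Z0) {D : ℝ}
    (hD : ∀ z ∈ trc N γ.1, ∀ w ∈ trc N γ.1, dist z w ≤ D) {z : ℂ} (hz : z ∈ trc N γ.1) :
    ‖z‖ ≤ (1 + ‖e2‖) * D := by
  have hN' : (0 : ℝ) < N := by exact_mod_cast hN
  obtain ⟨h0, ⟨v, hv, hv1⟩, ⟨w, hw, hw2⟩⟩ := h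
  have h1 := hD (sc N v) ⟨v, hv, rfl⟩ (sc N w) ⟨w, hw, rfl⟩
  have h2 := hD z hz (sc N v) ⟨v, hv, rfl⟩
  have h3 := (h0 v hv).2
  have h4 : (v.2 : ℝ) / N ≤ D := by
    have h5 := norm_EE_symm_le (sc N v - sc N w)
    rw [sc_eq, sc_eq, ← map_sub, ContinuousLinearEquiv.symm_apply_apply] at h5
    have h6 := (norm_snd_le (((v.1 : ℝ) / N, (v.2 : ℝ) / N) - ((w.1 : ℝ) / N, (w.2 : ℝ) / N))).trans h5
    rw [map_sub, ← sc_eq, ← sc_eq, ← dist_eq_norm] at h6
    simp only [Prod.snd_sub, hw2, Int.cast_zero, zero_div, sub_zero] at h6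
    exact (le_abs_self _).trans (h6.trans h1)
  have h5 : ‖sc N v‖ ≤ ‖e2‖ * D := by
    rw [sc, hv1, Int.cast_zero, zero_div, zero_smul, zero_add, norm_smul, Real.norm_eq_abs, abs_of_nonneg, mul_comm]
    · exact mul_le_mul_of_nonneg_left h4 (norm_nonneg _)
    · exact div_nonneg (by exact_mod_cast h3) hN'.le
  have h6 : ‖z‖ ≤ ‖z - sc N v‖ + ‖sc N v‖ := by
    have := norm_add_le (z - sc N v) (sc N v)
    rwa [sub_add_cancel] at this
  rw [← dist_eq_norm] at h6
  linarith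

/-- the total mass modulo translation is finite -/
theorem Z0_fin (hM : Mass) : mu Z0 < ⊤ := by
  obtain ⟨C, hC⟩ := hM
  obtain ⟨N, hN, hN2⟩ := ((eventually_gt_atTop 0).and (hC 1 one_pos)).exists
  have h1 : Z0 ⊆ (Z0 ∩ Big N 1) ∪ {γ : Lps | trc N γ.1 ⊆ Metric.closedBall 0 ((1 + ‖e2‖) * 1)} := by
    intro γ hγ
    by_cases hb : γ ∈ Big N 1
    · exact Or.inl ⟨hγ, hb⟩
    · right
      intro z hz
      rw [mem_closedBall_zero_iff]
      refine Z0_near hN hγ (D := 1) (fun z hz w hw => ?_) hz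
      by_contra hc
      exact hb ⟨z, hz, w, hw, (not_le.1 hc).le⟩
  refine lt_of_le_of_lt (measure_mono h1) (lt_of_le_of_lt (measure_union_le _ _) ?_)
  exact ENNReal.add_lt_top.2 ⟨lt_of_le_of_lt hN2 ENNReal.ofReal_lt_top, mu_finite (fin_loops hN _)⟩

theorem int_Z0 (hZ : mu Z0 < ⊤) {h : Lps → ℝ} {C : ℝ} (hb : ∀ γ, |h γ| ≤ C) : IntegrableOn h Z0 mu := by
  refine Measure.integrableOn_of_bounded (M := C) hZ.ne ?_ (Eventually.of_forall fun γ => hb γ)
  exact (measurable_of_countable h).aestronglyMeasurable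

/-- small integrals -/
theorem int_Z0_le (hZ : mu Z0 < ⊤) {h : Lps → ℝ} {C : ℝ} {s : Set Lps} (hb : ∀ γ ∈ Z0 ∩ s, |h γ| ≤ C)
    (hz : ∀ γ ∈ Z0, γ ∉ s → h γ = 0) : |∫ γ in Z0, h γ ∂mu| ≤ C * mu.real (Z0 ∩ s) := by
  have h1 : ∫ γ in Z0, h γ ∂mu = ∫ γ in Z0 ∩ s, h γ ∂mu := by
    refine setIntegral_eq_of_subset_of_forall_sdiff_eq_zero MeasurableSet.of_discrete Set.inter_subset_left ?_
    rintro γ ⟨hγ, hγ2⟩
    exact hz γ hγ fun hc => hγ2 ⟨hγ, hc⟩
  rw [h1, ← Real.norm_eq_abs]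
  refine norm_setIntegral_le_of_norm_le_const (lt_of_le_of_lt (measure_mono Set.inter_subset_left) hZ) ?_
  intro γ hγ
  exact hb γ hγ

/-- the mass bound in real form -/
theorem mass_real (hM : Mass) : ∃ C : ℝ, 0 ≤ C ∧ ∀ r : ℝ, 0 < r → ∀ᶠ N : ℕ in atTop,
    (N : ℝ) ^ 2 * mu.real (Z0 ∩ Big N r) ≤ C / r ^ 2 := by
  obtain ⟨C, hC⟩ := hM
  refine ⟨|C|, abs_nonneg _, fun r hr => ?_⟩
  filter_upwards [hC r hr, eventually_gt_atTop 0] with N h1 h2
  have hN' : (0 : ℝ) < N := by exact_mod_cast h2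
  have h3 : mu.real (Z0 ∩ Big N r) ≤ |C| / (r * N) ^ 2 := by
    have h4 := ENNReal.toReal_mono ENNReal.ofReal_ne_top h1
    refine h4.trans ?_
    rw [ENNReal.toReal_ofReal']
    refine max_le ?_ (by positivity)
    exact div_le_div_of_nonneg_right (le_abs_self C) (by positivity)
  calc (N : ℝ) ^ 2 * mu.real (Z0 ∩ Big N r) ≤ (N : ℝ) ^ 2 * (|C| / (r * N) ^ 2) :=
        mul_le_mul_of_nonneg_left h3 (by positivity)
    _ = |C| / r ^ 2 := by field_simp

/-! ### linear maps -/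

theorem diam_img {g : LG} {L : ℝ} (hL : 0 ≤ L) (hg : ∀ z, ‖g z‖ ≤ L * ‖z‖) {K : Set ℂ} (hK : K.Finite) :
    Metric.diam (g '' K) ≤ L * Metric.diam K := by
  refine Metric.diam_le_of_forall_dist_le (mul_nonneg hL Metric.diam_nonneg) ?_
  rintro _ ⟨x, hx, rfl⟩ _ ⟨y, hy, rfl⟩
  rw [dist_eq_norm, ← map_sub]
  refine (hg _).trans (mul_le_mul_of_nonneg_left ?_ hL)
  rw [← dist_eq_norm]
  exact Metric.dist_le_diam_of_mem hK.isBounded hx hy

theorem diam_img' {g : LG} {L : ℝ} (hL : 0 ≤ L) (hg : ∀ z, ‖z‖ ≤ L * ‖g z‖) {K : Set ℂ} (hK : K.Finite) :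
    Metric.diam K ≤ L * Metric.diam (g '' K) := by
  refine Metric.diam_le_of_forall_dist_le (mul_nonneg hL Metric.diam_nonneg) fun x hx y hy => ?_
  rw [dist_eq_norm]
  refine (hg _).trans (mul_le_mul_of_nonneg_left ?_ hL)
  rw [map_sub, ← dist_eq_norm]
  exact Metric.dist_le_diam_of_mem (hK.image _).isBounded ⟨x, hx, rfl⟩ ⟨y, hy, rfl⟩

theorem big_of_diam {N : ℕ} {γ : Lps} {r : ℝ} (h : r ≤ Metric.diam (trc N γ.1)) : γ ∈ Big N r := by
  have hK := trc_fin N γ.1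
  have hne := trc_ne N γ
  obtain ⟨⟨x, y⟩, ⟨hx, hy⟩, hm⟩ := (hK.isCompact.prod hK.isCompact).exists_isMaxOn (hne.prod hne)
    continuous_dist.continuousOn
  refine ⟨x, hx, y, hy, h.trans ?_⟩
  exact Metric.diam_le_of_forall_dist_le dist_nonneg fun a ha b hb => hm (Set.mk_mem_prod ha hb)

theorem img_tr (g : LG) (K : Set ℂ) (v : ℂ) : g '' ((fun z => z + v) '' K) = (fun z => z + g v) '' (g '' K) := by
  rw [Set.image_image, Set.image_image]
  refine Set.image_congr fun z _ => ?_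
  exact map_add g z v

/-! ### one scale -/

/-- **the integral over all loops with the bump at the corner is the integral modulo translation** -/
theorem unfold_bump (hZ : mu Z0 < ⊤) {G : Set ℂ → ℝ} {C R r L : ℝ} (hC : ∀ K, |G K| ≤ C)
    (hti : ∀ K : Set ℂ, K.Finite → K.Nonempty → ∀ v : ℂ, G ((fun z => z + v) '' K) = G K)
    (hD : ∀ K : Set ℂ, K.Finite → K.Nonempty → G K ≠ 0 → r ≤ Metric.diam K ∧ Metric.diam K ≤ R)
    {g : LG} (hdt : dt g = 1) (hL : 1 ≤ L) (hg : ∀ z, ‖g z‖ ≤ L * ‖z‖) (hg' : ∀ z, ‖z‖ ≤ L * ‖g z‖)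
    {N : ℕ} (hN : 0 < N) :
    |(∫ γ : Lps, G (g '' trc N γ.1) * bu (cor (g '' trc N γ.1)) ∂mu) - Ib * MT N (fun K => G (g '' K))| ≤
      C * (L * (‖e1‖ + ‖e2‖) * (2 * (L + 1)) ^ 2) * N * mu.real (Z0 ∩ Big N (r / L)) := by
  have hN' : (0 : ℝ) < N := by exact_mod_cast hN
  have hL0 : 0 < L := by linarith
  have hC0 : 0 ≤ C := (abs_nonneg _).trans (hC ∅)
  have hfin : ∀ γ : Lps, (g '' trc N γ.1).Finite := fun γ => (trc_fin N γ.1).image _
  have hne : ∀ γ : Lps, (g '' trc N γ.1).Nonempty := fun γ => (trc_ne N γ).image _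
  -- finite support
  have hs : (Function.support fun γ : Lps => G (g '' trc N γ.1) * bu (cor (g '' trc N γ.1))).Finite := by
    refine (fin_loops hN (L * (1 + 2 * R))).subset fun γ hγ => ?_
    have h1 : G (g '' trc N γ.1) ≠ 0 := left_ne_zero_of_mul hγ
    have h2 : bu (cor (g '' trc N γ.1)) ≠ 0 := right_ne_zero_of_mul hγ
    have h3 : ‖cor (g '' trc N γ.1)‖ < 1 := by
      by_contra hc
      exact h2 (bu_zero (not_lt.1 hc))
    have h4 := (hD _ (hfin γ) (hne γ) h1).2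
    intro z hz
    rw [mem_closedBall_zero_iff]
    have h5 := cor_near (hfin γ) (w := g z) ⟨z, hz, rfl⟩
    have h6 : ‖g z‖ ≤ ‖g z - cor (g '' trc N γ.1)‖ + ‖cor (g '' trc N γ.1)‖ := by
      have := norm_add_le (g z - cor (g '' trc N γ.1)) (cor (g '' trc N γ.1))
      rwa [sub_add_cancel] at this
    exact (hg' z).trans (mul_le_mul_of_nonneg_left (by linarith) hL0.le)
  rw [unfold_tr hs]
  -- the inner sum
  have hin : ∀ γ : Lps, (∑' a : Pt, G (g '' trc N (tA a γ).1) * bu (cor (g '' trc N (tA a γ).1))) =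
      G (g '' trc N γ.1) * ∑' a : Pt, bu (cor (g '' trc N γ.1) + g (sc N a)) := by
    intro γ
    rw [← tsum_mul_left]
    refine tsum_congr fun a => ?_
    rw [trc_tA, img_tr, hti _ (hfin γ) (hne γ), cor_tr (hfin γ) (hne γ)]
  have hS : ∀ γ : Lps, |(∑' a : Pt, bu (cor (g '' trc N γ.1) + g (sc N a))) - (N : ℝ) ^ 2 * Ib| ≤
      (L * (‖e1‖ + ‖e2‖) * (2 * (L + 1)) ^ 2) * N := by
    intro γ
    have h1 := riemann_bu hdt hL hg hg' (cor (g '' trc N γ.1)) hN
    set σ := ∑' a : Pt, bu (cor (g '' trc N γ.1) + g (sc N a)) with hσ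
    have e : σ - (N : ℝ) ^ 2 * Ib = -((N : ℝ) ^ 2 * (Ib - ((N : ℝ) ^ 2)⁻¹ * σ)) := by
      field_simp
      ring
    rw [e, abs_neg, abs_mul, abs_of_pos (by positivity : (0 : ℝ) < (N : ℝ) ^ 2)]
    refine (mul_le_mul_of_nonneg_left h1 (by positivity)).trans (le_of_eq ?_)
    field_simp
  simp only [hin]
  unfold MT
  have hSb : ∀ γ : Lps, |G (g '' trc N γ.1) * ∑' a : Pt, bu (cor (g '' trc N γ.1) + g (sc N a))| ≤
      C * ((N : ℝ) ^ 2 * |Ib| + (L * (‖e1‖ + ‖e2‖) * (2 * (L + 1)) ^ 2) * N) := by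
    intro γ
    rw [abs_mul]
    refine mul_le_mul (hC _) ?_ (abs_nonneg _) hC0
    have h1 := hS γ
    have h2 := abs_sub_abs_le_abs_sub (∑' a : Pt, bu (cor (g '' trc N γ.1) + g (sc N a))) ((N : ℝ) ^ 2 * Ib)
    rw [abs_mul, abs_of_pos (by positivity : (0 : ℝ) < (N : ℝ) ^ 2)] at h2
    linarith
  have eI : Ib * ((N : ℝ) ^ 2 * ∫ γ in Z0, G (g '' trc N γ.1) ∂mu) =
      ∫ γ in Z0, G (g '' trc N γ.1) * ((N : ℝ) ^ 2 * Ib) ∂mu := by
    rw [integral_mul_const]
    ring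
  rw [eI, ← integral_sub (int_Z0 hZ hSb) (int_Z0 hZ (C := C * |(N : ℝ) ^ 2 * Ib|) fun γ => by
    rw [abs_mul]
    exact mul_le_mul_of_nonneg_right (hC _) (abs_nonneg _))]
  refine (int_Z0_le hZ (C := C * ((L * (‖e1‖ + ‖e2‖) * (2 * (L + 1)) ^ 2) * N)) (s := Big N (r / L))
    (fun γ _ => ?_) fun γ _ hγ2 => ?_).trans (le_of_eq (by ring))
  · rw [← mul_sub, abs_mul]
    exact mul_le_mul (hC _) (hS γ) (abs_nonneg _) hC0
  · have h1 : G (g '' trc N γ.1) = 0 := by
      by_contra hc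
      have h2 := (hD _ (hfin γ) (hne γ) hc).1
      have h3 := diam_img hL0.le hg (trc_fin N γ.1)
      refine hγ2 (big_of_diam ?_)
      rw [div_le_iff₀ hL0]
      linarith
    rw [h1, zero_mul, zero_mul, sub_zero]

/-! ### the generators -/

theorem norm_BC_le (a b : ℝ) (z : ℂ) : ‖BC a b z‖ ≤ (|a| + |b|) * (‖e1‖ + ‖e2‖) * ‖z‖ := by
  have h0 := norm_EE_symm_le z
  rw [EE_symm_apply, Prod.norm_def, max_le_iff, Real.norm_eq_abs, Real.norm_eq_abs] at h0
  obtain ⟨h1, h2⟩ := h0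
  have e : BC a b z = EE (-a * cx z + b * cy z, -b * cx z + a * cy z) := rfl
  rw [e]
  refine (norm_EE_le _).trans ?_
  have h3 : ‖((-a * cx z + b * cy z, -b * cx z + a * cy z) : ℝ × ℝ)‖ ≤ (|a| + |b|) * ‖z‖ := by
    rw [Prod.norm_def, max_le_iff, Real.norm_eq_abs, Real.norm_eq_abs]
    constructor
    · refine (abs_add_le _ _).trans ?_
      rw [abs_mul, abs_mul, abs_neg, add_mul]
      exact add_le_add (mul_le_mul_of_nonneg_left h1 (abs_nonneg _)) (mul_le_mul_of_nonneg_left h2 (abs_nonneg _))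
    · refine (abs_add_le _ _).trans ?_
      rw [abs_mul, abs_mul, abs_neg, add_mul, add_comm]
      exact add_le_add (mul_le_mul_of_nonneg_left h2 (abs_nonneg _)) (mul_le_mul_of_nonneg_left h1 (abs_nonneg _))
  refine (mul_le_mul_of_nonneg_left h3 (by positivity)).trans (le_of_eq (by ring))

theorem tr2_BC (a b : ℝ) : tr2 (BC a b) = 0 := by
  have h3 : √3 ≠ 0 := by positivity
  have hs : √3 ^ 2 = 3 := Real.sq_sqrt (by norm_num)
  have e1' : BC a b 1 = (-a * cx 1 + b * cy 1) • e1 + (-b * cx 1 + a * cy 1) • e2 := rfl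
  have e2' : BC a b Complex.I = (-a * cx Complex.I + b * cy Complex.I) • e1 +
    (-b * cx Complex.I + a * cy Complex.I) • e2 := rfl
  unfold tr2
  rw [e1', e2']
  simp [cx, cy, e1, e2]
  field_simp
  ring_nf
  rw [hs]
  ring

/-! ### the theorem -/

/-- cutting off large diameters -/
theorem MT_cut (hZ : mu Z0 < ⊤) {F : Set ℂ → ℝ} {C L S : ℝ} (hC : ∀ K, |F K| ≤ C) (hS : 0 < S)
    {g : LG} (hL : 0 < L) (hg : ∀ z, ‖g z‖ ≤ L * ‖z‖) (N : ℕ) :
    |MT N (fun K => F (g '' K)) - MT N (fun K => F (g '' K) * ch (Metric.diam (g '' K) / S))| ≤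
      C * ((N : ℝ) ^ 2 * mu.real (Z0 ∩ Big N (S / L))) := by
  have hC0 : 0 ≤ C := (abs_nonneg _).trans (hC ∅)
  have hb : ∀ K : Set ℂ, |F K * ch (Metric.diam K / S)| ≤ C := fun K => by
    rw [abs_mul, abs_of_nonneg (ch_nonneg _)]
    exact (mul_le_of_le_one_right (abs_nonneg _) (ch_le _)).trans (hC K)
  unfold MT
  rw [← mul_sub, ← integral_sub (int_Z0 hZ fun γ => hC _) (int_Z0 hZ fun γ => hb _), abs_mul,
    abs_of_nonneg (by positivity : (0 : ℝ) ≤ (N : ℝ) ^ 2)]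
  have h1 := int_Z0_le hZ (h := fun γ : Lps => F (g '' trc N γ.1) -
    F (g '' trc N γ.1) * ch (Metric.diam (g '' trc N γ.1) / S)) (C := C) (s := Big N (S / L)) (fun γ _ => by
      have h2 : F (g '' trc N γ.1) - F (g '' trc N γ.1) * ch (Metric.diam (g '' trc N γ.1) / S) =
        F (g '' trc N γ.1) * (1 - ch (Metric.diam (g '' trc N γ.1) / S)) := by ring
      have h5 := ch_le (Metric.diam (g '' trc N γ.1) / S)
      have h6 := ch_nonneg (Metric.diam (g '' trc N γ.1) / S)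
      have h7 : 0 ≤ 1 - ch (Metric.diam (g '' trc N γ.1) / S) := by linarith
      have h8 : 1 - ch (Metric.diam (g '' trc N γ.1) / S) ≤ 1 := by linarith
      rw [h2, abs_mul, abs_of_nonneg h7]
      exact (mul_le_of_le_one_right (abs_nonneg _) h8).trans (hC _)) (fun γ _ hγ => by
      have h3 : Metric.diam (trc N γ.1) < S / L := by
        by_contra hc
        exact hγ (big_of_diam (not_lt.1 hc))
      have h4 := diam_img hL.le hg (trc_fin N γ.1)
      rw [lt_div_iff₀ hL] at h3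
      rw [ch_one, mul_one, sub_self]
      rw [div_le_one hS]
      linarith)
  calc (N : ℝ) ^ 2 * _ ≤ (N : ℝ) ^ 2 * (C * mu.real (Z0 ∩ Big N (S / L))) :=
        mul_le_mul_of_nonneg_left h1 (by positivity)
    _ = C * ((N : ℝ) ^ 2 * mu.real (Z0 ∩ Big N (S / L))) := by ring

end Tr

open Tr

/-- **(I2')**: invariance under the flow, modulo translation -/
theorem mt_flow {a b : ℕ → ℝ} (hM : Mass) {A : ℝ} (ha : ∀ N, |a N| ≤ A) (hb : ∀ N, |b N| ≤ A) (h2 : I2 a b)
    {F : Set ℂ → ℝ} {C L r : ℝ} (hr : 0 < r) (hF : TT F C L r) (t : ℝ) :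
    Tendsto (fun N : ℕ => MT N (fun K => F (flow (BC (a N) (b N)) t '' K)) - MT N F) atTop (𝓝 0) := by
  obtain ⟨CM, hCM0, hCM⟩ := mass_real hM
  have hZ := Z0_fin hM
  have hC0 : 0 ≤ C := (abs_nonneg _).trans (hF.tf.bdd ∅)
  set g : ℕ → LG := fun N => flow (BC (a N) (b N)) t with hgdef
  obtain ⟨L', hL1, hL'⟩ := exists_flow_bound (2 * A * (‖e1‖ + ‖e2‖)) |t|
  have hL0 : 0 < L' := by linarith
  have hBC : ∀ N (z : ℂ), ‖z‖ = 1 → ‖BC (a N) (b N) z‖ ≤ 2 * A * (‖e1‖ + ‖e2‖) := by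
    intro N z hz
    refine (norm_BC_le _ _ _).trans ?_
    rw [hz, mul_one]
    exact mul_le_mul_of_nonneg_right (by linarith [ha N, hb N]) (by positivity)
  have hfl : ∀ N, ‖g N 1‖ + ‖g N Complex.I‖ ≤ L' ∧ ‖(g N)⁻¹ 1‖ + ‖(g N)⁻¹ Complex.I‖ ≤ L' := fun N =>
    hL' (BC (a N) (b N)) (hBC N 1 (by simp)) (hBC N Complex.I (by simp)) t le_rfl
  have hg : ∀ N z, ‖g N z‖ ≤ L' * ‖z‖ := fun N z =>
    (norm_le_values (g N) z).trans (mul_le_mul_of_nonneg_right (hfl N).1 (norm_nonneg _))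
  have hg' : ∀ N z, ‖z‖ ≤ L' * ‖g N z‖ := fun N z => by
    have h1 := norm_le_values (g N)⁻¹ (g N z)
    have h3 : (g N)⁻¹ (g N z) = z := (g N).symm_apply_apply z
    rw [h3] at h1
    exact h1.trans (mul_le_mul_of_nonneg_right (hfl N).2 (norm_nonneg _))
  have hdt : ∀ N, dt (g N) = 1 := fun N => dt_flow _ (tr2_BC _ _) t
  have hg1 : ∀ z : ℂ, ‖(1 : LG) z‖ ≤ L' * ‖z‖ := fun z => by
    change ‖z‖ ≤ L' * ‖z‖
    exact le_mul_of_one_le_left (norm_nonneg _) hL1
  have hg1' : ∀ z : ℂ, ‖z‖ ≤ L' * ‖(1 : LG) z‖ := fun z => by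
    change ‖z‖ ≤ L' * ‖z‖
    exact le_mul_of_one_le_left (norm_nonneg _) hL1
  have himg1 : ∀ K : Set ℂ, (1 : LG) '' K = K := fun K => by
    change id '' K = K
    exact Set.image_id K
  -- the cut functional
  have hB : ∀ S : ℝ, 0 < S → Tendsto (fun N : ℕ => MT N (fun K => F (g N '' K) * ch (Metric.diam (g N '' K) / S)) -
      MT N (fun K => F K * ch (Metric.diam K / S))) atTop (𝓝 0) := by
    intro S hS
    set G : Set ℂ → ℝ := fun K => F K * ch (Metric.diam K / S) with hG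
    have hGt : TF G C (L + C * (2 / S)) := cutTF hF.tf hS
    have hGti : ∀ K : Set ℂ, K.Finite → K.Nonempty → ∀ v : ℂ, G ((fun z => z + v) '' K) = G K := by
      intro K hK hn v
      have h1 : Metric.diam ((fun z => z + v) '' K) = Metric.diam K :=
        (IsometryEquiv.addRight v).isometry.diam_image K
      simp only [hG]
      rw [hF.ti K hK hn v, h1]
    have hGD : ∀ K : Set ℂ, K.Finite → K.Nonempty → G K ≠ 0 → r ≤ Metric.diam K ∧ Metric.diam K ≤ 2 * S := by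
      intro K hK hn hne
      constructor
      · by_contra hc
        exact hne (by simp only [hG]; rw [hF.z K hK hn (not_le.1 hc), zero_mul])
      · by_contra hc
        refine hne ?_
        simp only [hG]
        rw [ch_zero, mul_zero]
        rw [le_div_iff₀ hS]
        exact (not_le.1 hc).le
    have h3 := h2 (fun K => G K * bu (cor K)) C _ (1 + 2 * (2 * S)) r (cutcTF hGt) hr (fun K hK hn hne => by
      have h4 : G K ≠ 0 := left_ne_zero_of_mul hne
      have h5 : bu (cor K) ≠ 0 := right_ne_zero_of_mul hne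
      have h6 : ‖cor K‖ < 1 := by
        by_contra hc
        exact h5 (bu_zero (not_lt.1 hc))
      have h7 := hGD K hK hn h4
      refine ⟨fun w hw => ?_, h7.1⟩
      rw [mem_closedBall_zero_iff]
      have h8 := cor_near hK hw
      have h9 : ‖w‖ ≤ ‖w - cor K‖ + ‖cor K‖ := by
        have := norm_add_le (w - cor K) (cor K)
        rwa [sub_add_cancel] at this
      linarith) t
    -- the error
    set c0 : ℝ := C * (L' * (‖e1‖ + ‖e2‖) * (2 * (L' + 1)) ^ 2) with hc0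
    have hc00 : 0 ≤ c0 := by positivity
    have herr : Tendsto (fun N : ℕ => c0 * N * mu.real (Z0 ∩ Big N (r / L'))) atTop (𝓝 0) := by
      have h4 : Tendsto (fun N : ℕ => c0 * (CM / (r / L') ^ 2) * (1 / (N : ℝ))) atTop (𝓝 0) := by
        have := tendsto_one_div_atTop_nhds_zero_nat (𝕜 := ℝ)
        simpa using this.const_mul (c0 * (CM / (r / L') ^ 2))
      refine squeeze_zero' (Eventually.of_forall fun N => by positivity) ?_ h4
      filter_upwards [hCM (r / L') (by positivity), eventually_gt_atTop 0] with N h5 h6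
      have hN' : (0 : ℝ) < N := by exact_mod_cast h6
      have e : c0 * N * mu.real (Z0 ∩ Big N (r / L')) =
        c0 * ((N : ℝ) ^ 2 * mu.real (Z0 ∩ Big N (r / L'))) * (1 / N) := by
        field_simp
      rw [e]
      exact mul_le_mul_of_nonneg_right (mul_le_mul_of_nonneg_left h5 hc00) (by positivity)
    have hU : Tendsto (fun N : ℕ => (∫ γ : Lps, G (g N '' trc N γ.1) * bu (cor (g N '' trc N γ.1)) ∂mu) -
        Ib * MT N (fun K => G (g N '' K))) atTop (𝓝 0) := by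
      refine squeeze_zero_norm' ?_ herr
      filter_upwards [eventually_gt_atTop 0] with N hN
      rw [Real.norm_eq_abs]
      exact unfold_bump hZ hGt.bdd hGti hGD (hdt N) hL1 (hg N) (hg' N) hN
    have hU1 : Tendsto (fun N : ℕ => (∫ γ : Lps, G (trc N γ.1) * bu (cor (trc N γ.1)) ∂mu) -
        Ib * MT N G) atTop (𝓝 0) := by
      refine squeeze_zero_norm' ?_ herr
      filter_upwards [eventually_gt_atTop 0] with N hN
      rw [Real.norm_eq_abs]
      have := unfold_bump hZ hGt.bdd hGti hGD (g := 1) dt_one hL1 hg1 hg1' hN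
      simp only [himg1] at this
      exact this
    have h5 := (h3.sub hU).add hU1
    rw [sub_zero, add_zero] at h5
    have h6 := h5.const_mul Ib⁻¹
    rw [mul_zero] at h6
    refine h6.congr fun N => ?_
    have := Ib_pos.ne'
    simp only [hgdef]
    field_simp
    ring
  -- the tails
  rw [Metric.tendsto_atTop]
  intro ε hε
  obtain ⟨S, hS1, hS⟩ : ∃ S : ℝ, 0 < S ∧ C * (CM / (S / L') ^ 2) ≤ ε / 4 := by
    refine ⟨L' * (4 * C * CM / ε + 1), by positivity, ?_⟩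
    have e : L' * (4 * C * CM / ε + 1) / L' = 4 * C * CM / ε + 1 := by field_simp
    rw [e]
    have h1 : 0 ≤ 4 * C * CM / ε := by positivity
    have h3 : (4 * C * CM / ε + 1) ≤ (4 * C * CM / ε + 1) ^ 2 := by nlinarith
    rw [mul_div_assoc', div_le_iff₀ (by positivity)]
    calc C * CM = ε / 4 * (4 * C * CM / ε) := by field_simp
      _ ≤ ε / 4 * (4 * C * CM / ε + 1) ^ 2 := mul_le_mul_of_nonneg_left (by linarith) (by positivity)
  obtain ⟨N1, hN1⟩ := (hCM (S / L') (by positivity)).exists_forall_of_atTop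
  obtain ⟨N2, hN2⟩ := (Metric.tendsto_atTop.1 (hB S hS1)) (ε / 4) (by linarith)
  refine ⟨max N1 N2, fun N hN => ?_⟩
  have t1 := hN1 N ((le_max_left _ _).trans hN)
  have t2 := hN2 N ((le_max_right _ _).trans hN)
  have t3 := MT_cut hZ hF.tf.bdd hS1 hL0 (hg N) N
  have t4 := MT_cut hZ hF.tf.bdd hS1 hL0 hg1 N
  simp only [himg1] at t4
  have t5 : C * ((N : ℝ) ^ 2 * mu.real (Z0 ∩ Big N (S / L'))) ≤ ε / 4 :=
    (mul_le_mul_of_nonneg_left t1 hC0).trans hS
  rw [Real.dist_eq, sub_zero] at t2 ⊢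
  rw [abs_le] at t3 t4
  rw [abs_lt] at t2 ⊢
  change -ε < MT N (fun K => F (g N '' K)) - MT N F ∧ MT N (fun K => F (g N '' K)) - MT N F < ε
  constructor <;> linarith [t3.1, t3.2, t4.1, t4.2, t2.1, t2.2]

end

end Pool.Agent.ROT.I
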