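import Pool.Agent.ROT.Group3

/-!
# ROT: weak invariance gives invariance under the flow (helper42)

* `weak_flow`: a measure preserving one parameter group `Φ` of linear maps with the generator `A`, an invariant
  open set `U`, a locally integrable function `P` with `∫ (dφ . A x) P = 0` for all test functions in `U`; then
  `P (Φ τ x) = P x` for almost all `x` in `U`;
* `pi_flow`: the flow of a real linear map `B` of the plane with trace zero, acting on `m` points.
-/

set_option autoImplicit false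

open MeasureTheory Set Filter Topology
open scoped ContDiff ComplexConjugate

namespace Pool.Agent.ROT

noncomputable section

section abst

variable {E : Type*} [NormedAddCommGroup E] [NormedSpace ℝ E]

/-- a one parameter group of linear maps with the generator `A` -/
structure IsFlow (Φ : ℝ → E →L[ℝ] E) (A : E →L[ℝ] E) : Prop where
  add : ∀ σ τ x, Φ (σ + τ) x = Φ σ (Φ τ x)
  zero : ∀ x, Φ 0 x = x
  der : ∀ τ x, HasDerivAt (fun τ => Φ τ x) (Φ τ (A x)) τ
  cont : Continuous fun p : ℝ × E => Φ p.1 p.2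

variable {Φ : ℝ → E →L[ℝ] E} {A : E →L[ℝ] E}

theorem IsFlow.neg_left (h : IsFlow Φ A) (τ : ℝ) (x : E) : Φ (-τ) (Φ τ x) = x := by
  rw [← h.add, neg_add_cancel, h.zero]

theorem IsFlow.neg_right (h : IsFlow Φ A) (τ : ℝ) (x : E) : Φ τ (Φ (-τ) x) = x := by
  rw [← h.add, add_neg_cancel, h.zero]

/-- the homeomorphism -/
def IsFlow.hom (h : IsFlow Φ A) (τ : ℝ) : E ≃ₜ E where
  toFun := Φ τ
  invFun := Φ (-τ)
  left_inv := h.neg_left τ
  right_inv := h.neg_right τ
  continuous_toFun := (Φ τ).continuous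
  continuous_invFun := (Φ (-τ)).continuous

theorem IsFlow.hom_apply (h : IsFlow Φ A) (τ : ℝ) (x : E) : h.hom τ x = Φ τ x := rfl

variable [FiniteDimensional ℝ E] [MeasurableSpace E] [BorelSpace E] {μ : Measure E}

/-- differentiation under the integral -/
theorem IsFlow.hasDerivAt_int (h : IsFlow Φ A) {P : E → ℝ} (hP : LocallyIntegrable P μ) {φ : E → ℝ}
    (hφ : ContDiff ℝ ∞ φ) (hc : HasCompactSupport φ) (τ : ℝ) :
    HasDerivAt (fun τ => ∫ x, φ (Φ τ x) * P x ∂μ) (∫ x, fderiv ℝ φ (Φ τ x) (Φ τ (A x)) * P x ∂μ) τ := by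
  -- the compact set
  have hKc : IsCompact ((fun p : ℝ × E => Φ (-p.1) p.2) '' (Icc (τ - 1) (τ + 1) ×ˢ tsupport φ)) := by
    refine (isCompact_Icc.prod hc).image ?_
    exact h.cont.comp ((continuous_neg.comp continuous_fst).prodMk continuous_snd)
  set K := (fun p : ℝ × E => Φ (-p.1) p.2) '' (Icc (τ - 1) (τ + 1) ×ˢ tsupport φ) with hK
  have hmem : ∀ t ∈ Icc (τ - 1) (τ + 1), ∀ x, x ∉ K → Φ t x ∉ tsupport φ := by
    intro t ht x hx hx2
    exact hx ⟨(t, Φ t x), ⟨ht, hx2⟩, h.neg_left t x⟩
  have hd : Continuous fun x => fderiv ℝ φ x := hφ.continuous_fderiv (by simp)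
  have hG : Continuous fun p : ℝ × E => fderiv ℝ φ (Φ p.1 p.2) (Φ p.1 (A p.2)) := by
    refine (hd.comp h.cont).clm_apply ?_
    exact h.cont.comp (continuous_fst.prodMk (A.continuous.comp continuous_snd))
  obtain ⟨C, hC⟩ := (isCompact_Icc.prod hKc).exists_bound_of_continuousOn (f := fun p : ℝ × E =>
    fderiv ℝ φ (Φ p.1 p.2) (Φ p.1 (A p.2))) (s := Icc (τ - 1) (τ + 1) ×ˢ K) hG.continuousOn
  have hPm := hP.aestronglyMeasurable
  refine (hasDerivAt_integral_of_dominated_loc_of_deriv_le (μ := μ) (𝕜 := ℝ) (x₀ := τ)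
    (F := fun (t : ℝ) (x : E) => φ (Φ t x) * P x)
    (F' := fun (t : ℝ) (x : E) => fderiv ℝ φ (Φ t x) (Φ t (A x)) * P x) (s := Icc (τ - 1) (τ + 1))
    (bound := K.indicator fun x => C * ‖P x‖) (Icc_mem_nhds (by linarith) (by linarith)) ?_ ?_ ?_ ?_ ?_ ?_).2
  · exact Eventually.of_forall fun t =>
      ((hφ.continuous.comp (Φ t).continuous).aestronglyMeasurable).mul hPm
  · have hc2 : HasCompactSupport fun x => φ (Φ τ x) := hc.comp_isClosedEmbedding (h.hom τ).isClosedEmbedding
    have := hP.integrable_smul_left_of_hasCompactSupport (hφ.continuous.comp (Φ τ).continuous) hc2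
    exact this
  · exact ((hG.comp (continuous_const.prodMk continuous_id)).aestronglyMeasurable).mul hPm
  · refine Eventually.of_forall fun x t ht => ?_
    by_cases hx : x ∈ K
    · rw [indicator_of_mem hx, norm_mul]
      exact mul_le_mul_of_nonneg_right (hC (t, x) ⟨ht, hx⟩) (norm_nonneg _)
    · rw [indicator_of_notMem hx, fderiv_of_notMem_tsupport _ (hmem t ht x hx)]
      simp
  · refine IntegrableOn.integrable_indicator ?_ hKc.measurableSet
    exact ((hP.integrableOn_isCompact hKc).norm).const_mul C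
  · refine Eventually.of_forall fun x t _ => ?_
    have h1 : HasDerivAt (fun t => φ (Φ t x)) (fderiv ℝ φ (Φ t x) (Φ t (A x))) t :=
      ((hφ.differentiable (by simp)) (Φ t x)).hasFDerivAt.comp_hasDerivAt t (h.der t x)
    exact h1.mul_const _

/-- **weak invariance gives invariance** -/
theorem weak_flow (h : IsFlow Φ A) (hm : ∀ τ, MeasurePreserving (Φ τ) μ μ) {U : Set E} (hU : IsOpen U)
    (hUi : ∀ τ, ∀ x ∈ U, Φ τ x ∈ U) {P : E → ℝ} (hP : LocallyIntegrable P μ)
    (hw : ∀ φ : E → ℝ, ContDiff ℝ ∞ φ → HasCompactSupport φ → tsupport φ ⊆ U →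
      ∫ x, fderiv ℝ φ x (A x) * P x ∂μ = 0) (τ : ℝ) :
    ∀ᵐ x ∂μ, x ∈ U → P (Φ τ x) = P x := by
  have hP2 : LocallyIntegrable (fun x => P (Φ τ x)) μ := by
    rw [locallyIntegrable_iff]
    intro K hK
    have h1 := (hm τ).integrableOn_comp_preimage (f := P) (s := (h.hom τ) '' K)
      (h.hom τ).measurableEmbedding
    have h2 : (Φ τ) ⁻¹' ((h.hom τ) '' K) = K := by
      ext x
      constructor
      · rintro ⟨y, hy, he⟩
        have : y = x := (h.hom τ).injective he
        rwa [← this]
      · intro hx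
        exact ⟨x, hx, rfl⟩
    rw [h2] at h1
    exact h1.2 (hP.integrableOn_isCompact (hK.image (h.hom τ).continuous))
  have key : ∀ φ : E → ℝ, ContDiff ℝ ∞ φ → HasCompactSupport φ → tsupport φ ⊆ U →
      ∫ x, φ x • (P (Φ τ x) - P x) ∂μ = 0 := by
    intro φ hφ hc hs
    -- the derivative vanishes
    have hd : ∀ t, HasDerivAt (fun t => ∫ x, φ (Φ t x) * P x ∂μ) 0 t := by
      intro t
      have h1 := h.hasDerivAt_int hP hφ hc t
      have h2 : ∫ x, fderiv ℝ φ (Φ t x) (Φ t (A x)) * P x ∂μ = 0 := by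
        have h3 : ∀ x, fderiv ℝ (fun y => φ (Φ t y)) x (A x) = fderiv ℝ φ (Φ t x) (Φ t (A x)) := by
          intro x
          have h4 : HasFDerivAt (fun y => φ (Φ t y)) ((fderiv ℝ φ (Φ t x)).comp (Φ t)) x :=
            ((hφ.differentiable (by simp)) (Φ t x)).hasFDerivAt.comp x (Φ t).hasFDerivAt
          rw [h4.fderiv]
          rfl
        have h5 := hw (fun y => φ (Φ t y)) (hφ.comp (Φ t).contDiff)
          (hc.comp_isClosedEmbedding (h.hom t).isClosedEmbedding) (fun x hx => by
            have h6 : Φ t x ∈ tsupport φ :=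
              tsupport_comp_subset_preimage (f := Φ t) φ (Φ t).continuous hx
            have h7 := hUi (-t) _ (hs h6)
            rwa [h.neg_left] at h7)
        simp only [h3] at h5
        exact h5
      rwa [h2] at h1
    have hcst : (∫ x, φ (Φ (-τ) x) * P x ∂μ) = ∫ x, φ (Φ 0 x) * P x ∂μ :=
      is_const_of_deriv_eq_zero (f := fun t => ∫ x, φ (Φ t x) * P x ∂μ)
        (fun t => (hd t).differentiableAt) (fun t => (hd t).deriv) (-τ) 0
    have h1 : (∫ x, φ x * P (Φ τ x) ∂μ) = ∫ x, φ (Φ (-τ) x) * P x ∂μ := by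
      have h2 := (hm τ).integral_comp (h.hom τ).measurableEmbedding (fun x => φ (Φ (-τ) x) * P x)
      simp only [h.neg_left] at h2
      exact h2
    have e1 : Integrable (fun x => φ x * P (Φ τ x)) μ :=
      hP2.integrable_smul_left_of_hasCompactSupport hφ.continuous hc
    have e2 : Integrable (fun x => φ x * P x) μ :=
      hP.integrable_smul_left_of_hasCompactSupport hφ.continuous hc
    have e3 : (∫ x, φ x • (P (Φ τ x) - P x) ∂μ) = (∫ x, φ x * P (Φ τ x) ∂μ) - ∫ x, φ x * P x ∂μ := by
      rw [← integral_sub e1 e2]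
      refine integral_congr_ae (Eventually.of_forall fun x => ?_)
      simp only [smul_eq_mul]
      ring
    rw [e3, h1, hcst]
    simp only [h.zero, sub_self]
  have h3 := hU.ae_eq_zero_of_integral_contDiff_smul_eq_zero (μ := μ)
    (f := fun x => P (Φ τ x) - P x) ((hP2.sub hP).locallyIntegrableOn U) key
  filter_upwards [h3] with x hx hxU
  exact sub_eq_zero.1 (hx hxU)

end abst

section plane

open Complex

/-- the trace -/
def tr2 (B : LB) : ℝ := (B 1).re + (B I).im

theorem hasDerivAt_flow' (B : LB) (z : ℂ) (τ : ℝ) : HasDerivAt (fun τ : ℝ => flow B τ z) (flow B τ (B z)) τ := by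
  have h1 : HasDerivAt (fun s : ℝ => flow B s z) (B z) (τ - τ) := by
    rw [sub_self]
    exact hasDerivAt_flow B z
  have h2 : HasDerivAt (fun s : ℝ => flow B (s - τ) z) (B z) τ := by
    have h0 : HasDerivAt (fun s : ℝ => s - τ) 1 τ := (hasDerivAt_id τ).sub_const τ
    have := HasDerivAt.scomp (g₁ := fun s : ℝ => flow B s z) (h := fun s : ℝ => s - τ) τ h1 h0
    rw [one_smul] at this
    exact this
  have h3 : HasDerivAt (fun s : ℝ => ((flow B τ : LG) : LB) (flow B (s - τ) z)) (((flow B τ : LG) : LB) (B z)) τ :=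
    (((flow B τ : LG) : LB).hasFDerivAt).comp_hasDerivAt τ h2
  have e : (fun s : ℝ => flow B s z) = fun s : ℝ => ((flow B τ : LG) : LB) (flow B (s - τ) z) := by
    funext s
    have : flow B s z = flow B (τ + (s - τ)) z := by rw [add_sub_cancel]
    rw [this, flow_add]
    rfl
  rw [e]
  exact h3

theorem flow_comm (B : LB) (z : ℂ) (τ : ℝ) : flow B τ (B z) = B (flow B τ z) := by
  have h1 := hasDerivAt_flow' B z τ
  have h2 : HasDerivAt (fun s : ℝ => flow B (s - τ) (flow B τ z)) (B (flow B τ z)) τ := by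
    have h3 : HasDerivAt (fun s : ℝ => flow B s (flow B τ z)) (B (flow B τ z)) (τ - τ) := by
      rw [sub_self]
      exact hasDerivAt_flow B _
    have h0 : HasDerivAt (fun s : ℝ => s - τ) 1 τ := (hasDerivAt_id τ).sub_const τ
    have := HasDerivAt.scomp (g₁ := fun s : ℝ => flow B s (flow B τ z)) (h := fun s : ℝ => s - τ) τ h3 h0
    rw [one_smul] at this
    exact this
  have e : (fun s : ℝ => flow B s z) = fun s : ℝ => flow B (s - τ) (flow B τ z) := by
    funext s
    have : flow B s z = flow B ((s - τ) + τ) z := by rw [sub_add_cancel]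
    rw [this, flow_add]
    rfl
  rw [e] at h1
  exact h1.unique h2

/-- the determinant -/
theorem det_eq_dt (g : LG) : LinearMap.det ((g : LB) : ℂ →ₗ[ℝ] ℂ) = dt g := by
  rw [← LinearMap.det_toMatrix Complex.basisOneI, Matrix.det_fin_two]
  simp only [LinearMap.toMatrix_apply, Complex.coe_basisOneI, Matrix.cons_val_zero, Matrix.cons_val_one,
    Complex.coe_basisOneI_repr]
  unfold dt P Q
  simp only [normSq_apply]
  simp
  ring

/-- the flow of a map with trace zero has determinant one -/
theorem dt_flow (B : LB) (hB : tr2 B = 0) (τ : ℝ) : dt (flow B τ) = 1 := by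
  have hd : ∀ t : ℝ, HasDerivAt (fun t : ℝ => (flow B t 1).re * (flow B t I).im - (flow B t 1).im * (flow B t I).re) 0 t := by
    intro t
    have h1 := hasDerivAt_flow' B 1 t
    have h2 := hasDerivAt_flow' B I t
    rw [flow_comm] at h1 h2
    have r1 : HasDerivAt (fun t : ℝ => (flow B t 1).re) (B (flow B t 1)).re t :=
      Complex.reCLM.hasFDerivAt.comp_hasDerivAt t h1
    have i1 : HasDerivAt (fun t : ℝ => (flow B t 1).im) (B (flow B t 1)).im t :=
      Complex.imCLM.hasFDerivAt.comp_hasDerivAt t h1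
    have r2 : HasDerivAt (fun t : ℝ => (flow B t I).re) (B (flow B t I)).re t :=
      Complex.reCLM.hasFDerivAt.comp_hasDerivAt t h2
    have i2 : HasDerivAt (fun t : ℝ => (flow B t I).im) (B (flow B t I)).im t :=
      Complex.imCLM.hasFDerivAt.comp_hasDerivAt t h2
    have h3 := (r1.mul i2).sub (i1.mul r2)
    have hlin : ∀ z : ℂ, B z = z.re • B 1 + z.im • B I := by
      intro z
      conv_lhs => rw [show z = z.re • (1 : ℂ) + z.im • I from by
        apply Complex.ext <;> simp]
      rw [map_add, map_smul, map_smul]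
    have e : (B (flow B t 1)).re * (flow B t I).im + (flow B t 1).re * (B (flow B t I)).im -
        ((B (flow B t 1)).im * (flow B t I).re + (flow B t 1).im * (B (flow B t I)).re) = 0 := by
      rw [hlin (flow B t 1), hlin (flow B t I)]
      simp only [add_re, add_im, real_smul, mul_re, mul_im, ofReal_re, ofReal_im, zero_mul, sub_zero, add_zero]
      have h4 : (B I).im = -(B 1).re := by
        unfold tr2 at hB
        linarith
      rw [h4]
      ring
    rw [e] at h3
    exact h3
  have h1 : ∀ t : ℝ, dt (flow B t) = (flow B t 1).re * (flow B t I).im - (flow B t 1).im * (flow B t I).re := by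
    intro t
    unfold dt P Q
    simp only [normSq_apply]
    simp
    ring
  have h2 := is_const_of_deriv_eq_zero
    (f := fun t : ℝ => (flow B t 1).re * (flow B t I).im - (flow B t 1).im * (flow B t I).re)
    (fun t => (hd t).differentiableAt) (fun t => (hd t).deriv) τ 0
  rw [h1 τ]
  refine h2.trans ?_
  rw [← h1 0, flow_zero, dt_one]

theorem flow_mp (B : LB) (hB : tr2 B = 0) (τ : ℝ) : MeasurePreserving (flow B τ) (volume : Measure ℂ) volume := by
  refine ⟨(flow B τ).continuous.measurable, ?_⟩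
  have h1 : LinearMap.det (((flow B τ : LG) : LB) : ℂ →ₗ[ℝ] ℂ) = 1 := by
    rw [det_eq_dt, dt_flow B hB]
  have h2 := Measure.map_linearMap_addHaar_eq_smul_addHaar (volume : Measure ℂ)
    (f := (((flow B τ : LG) : LB) : ℂ →ₗ[ℝ] ℂ)) (by rw [h1]; exact one_ne_zero)
  rw [h1] at h2
  simpa using h2

/-- the diagonal action on `m` points -/
def pig {m : ℕ} (g : LB) : (Fin m → ℂ) →L[ℝ] (Fin m → ℂ) :=
  ContinuousLinearMap.pi fun i => g.comp (ContinuousLinearMap.proj i)

@[simp] theorem pig_apply {m : ℕ} (g : LB) (x : Fin m → ℂ) (i : Fin m) : pig g x i = g (x i) := rfl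

theorem pig_isFlow {m : ℕ} (B : LB) : IsFlow (fun τ => pig (m := m) ((flow B τ : LG) : LB)) (pig B) where
  add := fun σ τ x => by
    funext i
    simp only [pig_apply]
    change flow B (σ + τ) (x i) = flow B σ (flow B τ (x i))
    rw [flow_add]
    rfl
  zero := fun x => by
    funext i
    simp only [pig_apply]
    change flow B 0 (x i) = x i
    rw [flow_zero]
    rfl
  der := fun τ x => by
    rw [hasDerivAt_pi]
    intro i
    exact hasDerivAt_flow' B (x i) τ
  cont := by
    refine continuous_pi fun i => ?_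
    have h1 : Continuous fun p : ℝ × (Fin m → ℂ) => (NormedSpace.exp (p.1 • B) : LB) :=
      expB_cont.comp (continuous_fst.smul continuous_const)
    exact h1.clm_apply ((continuous_apply i).comp continuous_snd)

/-- **weak invariance of the function `P` of `m` points under a real linear map `B` of the plane with trace zero gives
invariance under the flow of `B`** -/
theorem weak_pts {m : ℕ} (B : LB) (hB : tr2 B = 0) {U : Set (Fin m → ℂ)} (hU : IsOpen U)
    (hUi : ∀ τ, ∀ x ∈ U, (fun i => flow B τ (x i)) ∈ U) {P : (Fin m → ℂ) → ℝ} (hP : LocallyIntegrable P volume)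
    (hw : ∀ φ : (Fin m → ℂ) → ℝ, ContDiff ℝ ∞ φ → HasCompactSupport φ → tsupport φ ⊆ U →
      ∫ x, fderiv ℝ φ x (fun i => B (x i)) * P x = 0) (τ : ℝ) :
    ∀ᵐ x : Fin m → ℂ, x ∈ U → P (fun i => flow B τ (x i)) = P x := by
  refine weak_flow (μ := volume) (pig_isFlow (m := m) B) (fun τ => ?_) hU hUi hP hw τ
  exact volume_preserving_pi (fun _ => flow_mp B hB τ)

/-- the set of `m` different points -/
theorem weak_inj {m : ℕ} (B : LB) (hB : tr2 B = 0) {P : (Fin m → ℂ) → ℝ} (hP : LocallyIntegrable P volume)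
    (hw : ∀ φ : (Fin m → ℂ) → ℝ, ContDiff ℝ ∞ φ → HasCompactSupport φ →
      tsupport φ ⊆ {x | ∀ i j, i ≠ j → x i ≠ x j} → ∫ x, fderiv ℝ φ x (fun i => B (x i)) * P x = 0) (τ : ℝ) :
    ∀ᵐ x : Fin m → ℂ, (∀ i j, i ≠ j → x i ≠ x j) → P (fun i => flow B τ (x i)) = P x := by
  refine weak_pts B hB (U := {x | ∀ i j, i ≠ j → x i ≠ x j}) ?_ (fun τ x hx i j hij he => ?_) hP hw τ
  · simp only [Set.ofPred_forall]
    refine isOpen_iInter_of_finite fun i => isOpen_iInter_of_finite fun j => isOpen_iInter_of_finite fun _ => ?_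
    exact isOpen_ne_fun (continuous_apply i) (continuous_apply j)
  · exact hx i j hij ((flow B τ).injective he)

end plane

end

end Pool.Agent.ROT
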