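import Pool.Agent.ROT.IDefs
import Pool.Agent.ROT.IDet
import Pool.Agent.ROT.Weak
import Pool.Agent.ROT.Weak1
import Pool.Agent.ROT.ESym

/-!
# ROT, block I, row (I2'), first part: test functionals, corners, cutoffs (helper42)

The classes `TF`, `TT` of functionals, the literal `I2` (output of (I2)), the functional `MT` on loops modulo
translation.
-/

set_option autoImplicit false

namespace Pool.Agent.ROT.I

open MeasureTheory Filter Topology
open Pool.Agent.ROT.E (Cfg Lp trS)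

noncomputable section

/-- translation invariant test functionals, zero for small diameters -/
structure TT (F : Set ℂ → ℝ) (C L r : ℝ) : Prop where
  tf : TF F C L
  ti : ∀ K : Set ℂ, K.Finite → K.Nonempty → ∀ v : ℂ, F ((fun z => z + v) '' K) = F K
  z : ∀ K : Set ℂ, K.Finite → K.Nonempty → Metric.diam K < r → F K = 0

/-- **output of (I2)** -/
def I2 (a b : ℕ → ℝ) : Prop := ∀ (F : Set ℂ → ℝ) (C L R r : ℝ), TF F C L → 0 < r →
  (∀ K : Set ℂ, K.Finite → K.Nonempty → F K ≠ 0 → K ⊆ Metric.closedBall 0 R ∧ r ≤ Metric.diam K) → ∀ t : ℝ,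
  Tendsto (fun N : ℕ => (∫ γ : Lps, F (flow (BC (a N) (b N)) t '' trc N γ.1) ∂mu) - ∫ γ : Lps, F (trc N γ.1) ∂mu)
    atTop (𝓝 0)

/-- **the functional on loops modulo translation** -/
def MT (N : ℕ) (F : Set ℂ → ℝ) : ℝ := (N : ℝ) ^ 2 * ∫ γ in Z0, F (trc N γ.1) ∂mu

namespace Tr

/-! ### finite sets -/

theorem hd_ex {K K' : Set ℂ} (h : K.Finite) (h' : K'.Finite) (hn' : K'.Nonempty) {x : ℂ} (hx : x ∈ K) :
    ∃ y ∈ K', dist x y ≤ Metric.hausdorffDist K K' := by
  obtain ⟨y, hy, he⟩ := h'.isCompact.exists_infDist_eq_dist hn' x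
  refine ⟨y, hy, ?_⟩
  rw [← he]
  exact Metric.infDist_le_hausdorffDist_of_mem hx
    (Metric.hausdorffEDist_ne_top_of_nonempty_of_bounded ⟨x, hx⟩ hn' h.isBounded h'.isBounded)

theorem hd_ex' {K K' : Set ℂ} (h : K.Finite) (h' : K'.Finite) (hn : K.Nonempty) {y : ℂ} (hy : y ∈ K') :
    ∃ x ∈ K, dist x y ≤ Metric.hausdorffDist K K' := by
  obtain ⟨x, hx, hd⟩ := hd_ex h' h hn hy
  refine ⟨x, hx, ?_⟩
  rw [dist_comm, Metric.hausdorffDist_comm]
  exact hd

/-- the minimum of `f` over `K` -/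
def mnf (f : ℂ → ℝ) (K : Set ℂ) : ℝ := sInf (f '' K)

theorem mnf_spec (f : ℂ → ℝ) {K : Set ℂ} (h : K.Finite) (hn : K.Nonempty) :
    (∃ z ∈ K, f z = mnf f K) ∧ ∀ w ∈ K, mnf f K ≤ f w := by
  have h1 : (f '' K).Finite := h.image f
  have h2 : (f '' K).Nonempty := hn.image f
  refine ⟨h2.csInf_mem h1, fun w hw => csInf_le h1.bddBelow ⟨w, hw, rfl⟩⟩

theorem mnf_tr {f : ℂ → ℝ} (hf : ∀ z v, f (z + v) = f z + f v) {K : Set ℂ} (h : K.Finite) (hn : K.Nonempty)
    (v : ℂ) : mnf f ((fun z => z + v) '' K) = mnf f K + f v := by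
  obtain ⟨⟨z, hz, hz2⟩, h1⟩ := mnf_spec f h hn
  obtain ⟨⟨w, ⟨w', hw', rfl⟩, hw2⟩, h2⟩ := mnf_spec f (h.image fun z => z + v) (hn.image fun z => z + v)
  have h3 := h2 (z + v) ⟨z, hz, rfl⟩
  have h4 := h1 w' hw'
  simp only [hf] at hw2 h3
  apply le_antisymm
  · linarith
  · linarith

theorem mnf_lip {f : ℂ → ℝ} (hf : ∀ z w, |f z - f w| ≤ dist z w) {K K' : Set ℂ} (h : K.Finite) (h' : K'.Finite)
    (hn : K.Nonempty) (hn' : K'.Nonempty) : |mnf f K - mnf f K'| ≤ Metric.hausdorffDist K K' := by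
  obtain ⟨⟨z, hz, hz2⟩, h1⟩ := mnf_spec f h hn
  obtain ⟨⟨w, hw, hw2⟩, h2⟩ := mnf_spec f h' hn'
  obtain ⟨y, hy, hyd⟩ := hd_ex h h' hn' hz
  obtain ⟨x, hx, hxd⟩ := hd_ex' h h' hn hw
  have a1 := h2 y hy
  have a2 := h1 x hx
  have a3 := hf z y
  have a4 := hf x w
  rw [abs_le] at a3 a4 ⊢
  constructor <;> linarith

/-- the lower left corner of the bounding box -/
def cor (K : Set ℂ) : ℂ := ⟨mnf Complex.re K, mnf Complex.im K⟩

theorem abs_re_sub (z w : ℂ) : |z.re - w.re| ≤ dist z w := by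
  rw [dist_eq_norm, ← Complex.sub_re]
  exact Complex.abs_re_le_norm _

theorem abs_im_sub (z w : ℂ) : |z.im - w.im| ≤ dist z w := by
  rw [dist_eq_norm, ← Complex.sub_im]
  exact Complex.abs_im_le_norm _

theorem cor_tr {K : Set ℂ} (h : K.Finite) (hn : K.Nonempty) (v : ℂ) : cor ((fun z => z + v) '' K) = cor K + v := by
  apply Complex.ext
  · exact mnf_tr (f := Complex.re) (fun z v => Complex.add_re z v) h hn v
  · exact mnf_tr (f := Complex.im) (fun z v => Complex.add_im z v) h hn v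

theorem cor_lip {K K' : Set ℂ} (h : K.Finite) (h' : K'.Finite) (hn : K.Nonempty) (hn' : K'.Nonempty) :
    ‖cor K - cor K'‖ ≤ 2 * Metric.hausdorffDist K K' := by
  have h1 := mnf_lip abs_re_sub h h' hn hn'
  have h2 := mnf_lip abs_im_sub h h' hn hn'
  have h3 := Complex.norm_le_abs_re_add_abs_im (cor K - cor K')
  simp only [Complex.sub_re, Complex.sub_im, cor] at h3 ⊢
  linarith

theorem cor_near {K : Set ℂ} (h : K.Finite) {w : ℂ} (hw : w ∈ K) : ‖w - cor K‖ ≤ 2 * Metric.diam K := by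
  obtain ⟨⟨x, hx, hx2⟩, -⟩ := mnf_spec Complex.re h ⟨w, hw⟩
  obtain ⟨⟨y, hy, hy2⟩, -⟩ := mnf_spec Complex.im h ⟨w, hw⟩
  have h3 := Complex.norm_le_abs_re_add_abs_im (w - cor K)
  simp only [Complex.sub_re, Complex.sub_im, cor] at h3 ⊢
  rw [← hx2, ← hy2] at h3 ⊢
  have h4 := (abs_re_sub w x).trans (Metric.dist_le_diam_of_mem h.isBounded hw hx)
  have h5 := (abs_im_sub w y).trans (Metric.dist_le_diam_of_mem h.isBounded hw hy)
  linarith

theorem diam_lip {K K' : Set ℂ} (h : K.Finite) (h' : K'.Finite) (hn' : K'.Nonempty) :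
    Metric.diam K ≤ Metric.diam K' + 2 * Metric.hausdorffDist K K' := by
  refine Metric.diam_le_of_forall_dist_le ?_ fun x hx y hy => ?_
  · have := Metric.diam_nonneg (s := K')
    have := Metric.hausdorffDist_nonneg (s := K) (t := K')
    positivity
  · obtain ⟨x', hx', hd⟩ := hd_ex h h' hn' hx
    obtain ⟨y', hy', hd'⟩ := hd_ex h h' hn' hy
    have h1 := Metric.dist_le_diam_of_mem h'.isBounded hx' hy'
    have h2 := dist_triangle4 x x' y' y
    rw [dist_comm y' y] at h2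
    linarith

theorem diam_lip' {K K' : Set ℂ} (h : K.Finite) (h' : K'.Finite) (hn : K.Nonempty) (hn' : K'.Nonempty) :
    |Metric.diam K - Metric.diam K'| ≤ 2 * Metric.hausdorffDist K K' := by
  rw [abs_le]
  have h1 := diam_lip h h' hn'
  have h2 := diam_lip h' h hn
  rw [Metric.hausdorffDist_comm] at h2
  constructor <;> linarith

/-! ### cutoffs -/

/-- `1` on `(-∞, 1]`, `0` on `[2, ∞)` -/
def ch (x : ℝ) : ℝ := max 0 (min 1 (2 - x))

theorem ch_nonneg (x : ℝ) : 0 ≤ ch x := le_max_left _ _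

theorem ch_le (x : ℝ) : ch x ≤ 1 := max_le zero_le_one (min_le_left _ _)

theorem ch_one {x : ℝ} (h : x ≤ 1) : ch x = 1 := by
  unfold ch
  rw [min_eq_left (by linarith), max_eq_right zero_le_one]

theorem ch_zero {x : ℝ} (h : 2 ≤ x) : ch x = 0 := by
  unfold ch
  rw [max_eq_left]
  exact (min_le_right _ _).trans (by linarith)

theorem ch_lip (x y : ℝ) : |ch x - ch y| ≤ |x - y| := by
  unfold ch
  have h1 := abs_max_sub_max_le_abs (min 1 (2 - x)) (min 1 (2 - y)) 0
  have h2 := abs_min_sub_min_le_max 1 (2 - x) 1 (2 - y)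
  rw [max_comm 0, max_comm 0 (min 1 (2 - y))]
  refine h1.trans (h2.trans ?_)
  rw [sub_self, abs_zero, max_eq_right (abs_nonneg _)]
  rw [show 2 - x - (2 - y) = -(x - y) by ring, abs_neg]

/-- the bump -/
def bu (z : ℂ) : ℝ := max 0 (1 - ‖z‖)

theorem bu_nonneg (z : ℂ) : 0 ≤ bu z := le_max_left _ _

theorem bu_le (z : ℂ) : bu z ≤ 1 := max_le zero_le_one (by linarith [norm_nonneg z])

theorem bu_zero {z : ℂ} (h : 1 ≤ ‖z‖) : bu z = 0 := max_eq_left (by linarith)

theorem bu_lip (z w : ℂ) : |bu z - bu w| ≤ ‖z - w‖ := by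
  unfold bu
  have h1 := abs_max_sub_max_le_abs (1 - ‖z‖) (1 - ‖w‖) 0
  rw [max_comm 0, max_comm 0 (1 - ‖w‖)]
  refine h1.trans ?_
  rw [show 1 - ‖z‖ - (1 - ‖w‖) = -(‖z‖ - ‖w‖) by ring, abs_neg]
  exact abs_norm_sub_norm_le z w

/-- the product with the cutoffs -/
theorem cutTF {F : Set ℂ → ℝ} {C L S : ℝ} (h : TF F C L) (hS : 0 < S) :
    TF (fun K => F K * ch (Metric.diam K / S)) C (L + C * (2 / S)) where
  bdd := fun K => by
    rw [abs_mul, abs_of_nonneg (ch_nonneg _)]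
    exact (mul_le_of_le_one_right (abs_nonneg _) (ch_le _)).trans (h.bdd K)
  lip := fun K K' hK hK' hn hn' => by
    have h1 := h.lip K K' hK hK' hn hn'
    have h2 := diam_lip' hK hK' hn hn'
    have h3 := ch_lip (Metric.diam K / S) (Metric.diam K' / S)
    rw [← sub_div, abs_div, abs_of_pos hS] at h3
    have h4 : |Metric.diam K - Metric.diam K'| / S ≤ (2 / S) * Metric.hausdorffDist K K' := by
      rw [div_mul_eq_mul_div]
      exact div_le_div_of_nonneg_right h2 hS.le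
    have e : F K * ch (Metric.diam K / S) - F K' * ch (Metric.diam K' / S) =
      (F K - F K') * ch (Metric.diam K / S) + F K' * (ch (Metric.diam K / S) - ch (Metric.diam K' / S)) := by ring
    rw [e]
    refine (abs_add_le _ _).trans ?_
    rw [abs_mul, abs_mul, abs_of_nonneg (ch_nonneg (Metric.diam K / S)), add_mul, mul_assoc]
    refine add_le_add ((mul_le_of_le_one_right (abs_nonneg _) (ch_le _)).trans h1) ?_
    exact mul_le_mul (h.bdd K') (h3.trans h4) (abs_nonneg _) ((abs_nonneg _).trans (h.bdd K))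

theorem cutcTF {F : Set ℂ → ℝ} {C L : ℝ} (h : TF F C L) :
    TF (fun K => F K * bu (cor K)) C (L + C * 2) where
  bdd := fun K => by
    rw [abs_mul, abs_of_nonneg (bu_nonneg _)]
    exact (mul_le_of_le_one_right (abs_nonneg _) (bu_le _)).trans (h.bdd K)
  lip := fun K K' hK hK' hn hn' => by
    have h1 := h.lip K K' hK hK' hn hn'
    have h2 := cor_lip hK hK' hn hn'
    have h3 := bu_lip (cor K) (cor K')
    have e : F K * bu (cor K) - F K' * bu (cor K') = (F K - F K') * bu (cor K) + F K' * (bu (cor K) - bu (cor K')) := by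
      ring
    rw [e]
    refine (abs_add_le _ _).trans ?_
    rw [abs_mul, abs_mul, abs_of_nonneg (bu_nonneg (cor K)), add_mul, mul_assoc]
    refine add_le_add ((mul_le_of_le_one_right (abs_nonneg _) (bu_le _)).trans h1) ?_
    exact mul_le_mul (h.bdd K') (h3.trans h2) (abs_nonneg _) ((abs_nonneg _).trans (h.bdd K))

/-! ### the lattice -/

/-- `(x, y) ↦ x e1 + y e2` -/
def EE : (ℝ × ℝ) ≃L[ℝ] ℂ :=
  LinearEquiv.toContinuousLinearEquiv
    { toFun := fun p => p.1 • e1 + p.2 • e2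
      map_add' := fun p q => by
        apply Complex.ext <;> simp [e1, e2] <;> ring
      map_smul' := fun t p => by
        apply Complex.ext <;> simp [e1, e2] <;> ring
      invFun := fun z => (cx z, cy z)
      left_inv := fun p => by
        have h3 : √3 ≠ 0 := by positivity
        have hs : √3 * √3 = 3 := Real.mul_self_sqrt (by norm_num)
        refine Prod.ext ?_ ?_
        · simp [cx, e1, e2]; ring
        · simp [cy, e1, e2]; field_simp; ring
      right_inv := fun z => by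
        have h3 : √3 ≠ 0 := by positivity
        have hs : √3 * √3 = 3 := Real.mul_self_sqrt (by norm_num)
        apply Complex.ext
        · simp [cx, cy, e1, e2]; ring
        · simp [cx, cy, e1, e2]; field_simp; ring }

theorem EE_apply (p : ℝ × ℝ) : EE p = p.1 • e1 + p.2 • e2 := rfl

theorem EE_symm_apply (z : ℂ) : EE.symm z = (cx z, cy z) := rfl

theorem sc_eq (N : ℕ) (q : Pt) : sc N q = EE ((q.1 : ℝ) / N, (q.2 : ℝ) / N) := rfl

theorem sc_add (N : ℕ) (p q : Pt) : sc N (p + q) = sc N p + sc N q := by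
  rw [sc_eq, sc_eq, sc_eq, ← map_add]
  congr 1
  refine Prod.ext ?_ ?_ <;> simp <;> ring

theorem norm_EE_le (p : ℝ × ℝ) : ‖EE p‖ ≤ (‖e1‖ + ‖e2‖) * ‖p‖ := by
  rw [EE_apply]
  refine (norm_add_le _ _).trans ?_
  rw [norm_smul, norm_smul, add_mul, mul_comm ‖e1‖, mul_comm ‖e2‖]
  exact add_le_add (mul_le_mul_of_nonneg_right (norm_fst_le p) (norm_nonneg _))
    (mul_le_mul_of_nonneg_right (norm_snd_le p) (norm_nonneg _))

theorem norm_EE_symm_le (z : ℂ) : ‖EE.symm z‖ ≤ ‖z‖ := by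
  rw [EE_symm_apply, Prod.norm_def, max_le_iff]
  have h1 := Complex.abs_re_le_norm z
  have h2 := Complex.abs_im_le_norm z
  have h3 : (3 / 2 : ℝ) ≤ √3 := by
    rw [Real.le_sqrt' (by norm_num)]
    norm_num
  have h4 : 0 < √3 := by positivity
  constructor
  · rw [Real.norm_eq_abs]
    simp only [cx]
    rw [abs_mul, abs_of_pos (by norm_num : (0 : ℝ) < 2 / 3)]
    linarith [norm_nonneg z]
  · rw [Real.norm_eq_abs]
    simp only [cy]
    refine (abs_sub _ _).trans ?_
    rw [abs_div, abs_div, abs_of_pos h4, abs_of_pos (by norm_num : (0 : ℝ) < 3)]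
    have h5 : |z.im| / √3 ≤ |z.im| / (3 / 2) := div_le_div_of_nonneg_left (abs_nonneg _) (by norm_num) h3
    have h6 : |z.im| / (3 / 2) ≤ ‖z‖ / (3 / 2) := div_le_div_of_nonneg_right h2 (by norm_num)
    have h7 : |z.re| / 3 ≤ ‖z‖ / 3 := div_le_div_of_nonneg_right h1 (by norm_num)
    have h8 : ‖z‖ / (3 / 2) + ‖z‖ / 3 = ‖z‖ := by ring
    linarith

end Tr

end

end Pool.Agent.ROT.I
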