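import Pool.Agent.ROT.Arc

/-!
# ROT/JPar (helper18): near every point of a simple loop both sides occur; a simple loop is determined by its sides

`Loop1 γ`: simple loop (the form of `pi_simple`).  `both`: a locally constant (off the loop) property that takes both
values off the loop takes both values near every point of the loop.  `range_eq`: two loops with the same sides on a
dense set have the same range.
-/

set_option autoImplicit false

open Set Filter Topology Metric unitInterval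

namespace RotJ

/-- simple loops -/
def Loop1 (γ : C(I, ℂ)) : Prop :=
  γ 0 = γ 1 ∧ ∀ p q : I, γ p = γ q → p = q ∨ (p = 0 ∧ q = 1) ∨ (p = 1 ∧ q = 0)

/-- the periodic extension of a loop -/
noncomputable def per (γ : C(I, ℂ)) (x : ℝ) : ℂ := γ (projIcc 0 1 zero_le_one (Int.fract x))

theorem per_cont {γ : C(I, ℂ)} (h : γ 0 = γ 1) : Continuous (per γ) := by
  refine ContinuousOn.comp_fract'' (f := fun x : ℝ => γ (projIcc 0 1 zero_le_one x)) ?_ ?_
  · exact (γ.continuous.comp continuous_projIcc).continuousOn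
  · simpa [projIcc_left, projIcc_right] using h

theorem per_coe {γ : C(I, ℂ)} (h : γ 0 = γ 1) (t : I) : per γ (t : ℝ) = γ t := by
  unfold per
  rcases eq_or_lt_of_le t.2.2 with h1 | h1
  · have ht : t = 1 := Subtype.ext h1
    subst ht
    rw [Icc.coe_one, Int.fract_one, projIcc_left]
    exact h
  · rw [Int.fract_eq_self.2 ⟨t.2.1, h1⟩, projIcc_val]

theorem per_mem (γ : C(I, ℂ)) (x : ℝ) : per γ x ∈ range γ := ⟨_, rfl⟩

theorem per_inj {γ : C(I, ℂ)} (h : Loop1 γ) {x y : ℝ} (hxy : per γ x = per γ y) : ∃ m : ℤ, x - y = m := by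
  have key : ∀ u v : ℝ, 0 ≤ u → u < 1 → 0 ≤ v → v < 1 →
      γ (projIcc 0 1 zero_le_one u) = γ (projIcc 0 1 zero_le_one v) → u = v := by
    intro u v h1 h2 h3 h4 h5
    rw [projIcc_of_mem zero_le_one ⟨h1, h2.le⟩, projIcc_of_mem zero_le_one ⟨h3, h4.le⟩] at h5
    rcases h.2 _ _ h5 with h6 | ⟨-, h6⟩ | ⟨h6, -⟩
    · exact congrArg Subtype.val h6
    · have := congrArg Subtype.val h6
      simp only [Icc.coe_one] at this
      linarith
    · have := congrArg Subtype.val h6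
      simp only [Icc.coe_one] at this
      linarith
  have h1 := key _ _ (Int.fract_nonneg x) (Int.fract_lt_one x) (Int.fract_nonneg y) (Int.fract_lt_one y) hxy
  exact Int.fract_eq_fract.1 h1

/-- the complementary arc -/
noncomputable def carc (γ : C(I, ℂ)) (h : γ 0 = γ 1) (s d : ℝ) : C(I, ℂ) :=
  ⟨fun t => per γ (s + d + t * (1 - 2 * d)), (per_cont h).comp (by fun_prop)⟩

theorem carc_inj {γ : C(I, ℂ)} (h : Loop1 γ) {s d : ℝ} (hd : 0 < d) (hd2 : d < 1 / 2) :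
    Function.Injective (carc γ h.1 s d) := by
  intro t u htu
  obtain ⟨m, hm⟩ := per_inj h (x := s + d + t * (1 - 2 * d)) (y := s + d + u * (1 - 2 * d)) htu
  have h1 : ((t : ℝ) - u) * (1 - 2 * d) = m := by linarith
  have ht0 := t.2.1
  have ht1 := t.2.2
  have hu0 := u.2.1
  have hu1 := u.2.2
  have hm1 : (m : ℝ) < 1 := by rw [← h1]; nlinarith
  have hm2 : (-1 : ℝ) < m := by rw [← h1]; nlinarith
  have hm3 : m = 0 := by
    have a : m < 1 := by exact_mod_cast hm1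
    have b : -1 < m := by exact_mod_cast hm2
    omega
  rw [hm3, Int.cast_zero] at h1
  rcases mul_eq_zero.1 h1 with h2 | h2
  · exact Subtype.ext (by linarith)
  · linarith

theorem carc_sub {γ : C(I, ℂ)} (h : γ 0 = γ 1) (s d : ℝ) : range (carc γ h s d) ⊆ range γ := by
  rintro z ⟨t, rfl⟩
  exact per_mem γ _

/-- the loop is the complementary arc and a short arc -/
theorem range_sub {γ : C(I, ℂ)} (h : γ 0 = γ 1) {s d : ℝ} (hd2 : d < 1 / 2) {z : ℂ}
    (hz : z ∈ range γ) (hn : z ∉ range (carc γ h s d)) : ∃ x, |x - s| ≤ d ∧ per γ x = z := by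
  obtain ⟨t, rfl⟩ := hz
  by_contra hcon
  push Not at hcon
  apply hn
  -- the representative of t in [s - d, s - d + 1)
  set m : ℤ := ⌊(t : ℝ) - (s - d)⌋ with hm
  have h1 : (m : ℝ) ≤ (t : ℝ) - (s - d) := Int.floor_le _
  have h2 : (t : ℝ) - (s - d) < m + 1 := Int.lt_floor_add_one _
  have hp : per γ ((t : ℝ) - m) = γ t := by
    rw [← per_coe h t]
    unfold per
    rw [Int.fract_sub_intCast]
  have h3 : d < (t : ℝ) - m - s := by
    by_contra h4
    push Not at h4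
    refine hcon ((t : ℝ) - m) ?_ hp
    rw [abs_le]
    constructor <;> linarith
  refine ⟨⟨((t : ℝ) - m - s - d) / (1 - 2 * d), ?_, ?_⟩, ?_⟩
  · exact div_nonneg (by linarith) (by linarith)
  · rw [div_le_one (by linarith)]
    linarith
  · change per γ (s + d + ((t : ℝ) - m - s - d) / (1 - 2 * d) * (1 - 2 * d)) = γ t
    rw [div_mul_cancel₀ _ (by linarith), ← hp]
    congr 1
    ring

/-- locally constant off the loop -/
def LC (γ : C(I, ℂ)) (f : ℂ → Prop) : Prop := ∀ x, x ∉ range γ → ∀ᶠ y in 𝓝 x, (f y ↔ f x)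

/-- one side -/
private theorem side {γ : C(I, ℂ)} (h : Loop1 γ) {f : ℂ → Prop} (hf : LC γ f)
    (hp : ∃ p, p ∉ range γ ∧ f p) (hq : ∃ q, q ∉ range γ ∧ ¬ f q) {z : ℂ} (hz : z ∈ range γ) {r : ℝ} (hr : 0 < r) :
    ∃ x, x ∉ range γ ∧ dist x z < r ∧ f x := by
  by_contra hcon
  push Not at hcon
  obtain ⟨p, hp, hfp⟩ := hp
  obtain ⟨q, hq, hfq⟩ := hq
  obtain ⟨t, rfl⟩ := hz
  have hK : IsClosed (range γ) := (isCompact_range γ.continuous).isClosed
  -- a short arc in the ball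
  obtain ⟨d, hd, hd2, hball⟩ : ∃ d : ℝ, 0 < d ∧ d < 1 / 2 ∧ ∀ x : ℝ, |x - (t : ℝ)| ≤ d → dist (per γ x) (γ t) < r := by
    have hc := Metric.continuous_iff.1 (per_cont h.1) (t : ℝ) r hr
    obtain ⟨δ, hδ, H⟩ := hc
    refine ⟨min (δ / 2) (1 / 4), by positivity, by
      have := min_le_right (δ / 2) (1 / 4 : ℝ); linarith, fun x hx => ?_⟩
    have h1 := H x (by
      rw [Real.dist_eq]
      have := min_le_left (δ / 2) (1 / 4 : ℝ)
      linarith)
    rwa [per_coe h.1] at h1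
  set A := range (carc γ h.1 t d) with hA
  have hAc : IsClosed A := (isCompact_range (carc γ h.1 t d).continuous).isClosed
  have hconn : IsPreconnected Aᶜ := (arc_compl _ (carc_inj h hd hd2)).isPreconnected
  have hAK : A ⊆ range γ := carc_sub h.1 _ _
  let S : Set ℂ := {x | x ∉ range γ ∧ f x}
  let T : Set ℂ := {x | x ∉ range γ ∧ ¬ f x} ∪ ball (γ t) r
  have hS : IsOpen S := by
    rw [isOpen_iff_mem_nhds]
    rintro x ⟨h1, h2⟩
    filter_upwards [hK.isOpen_compl.mem_nhds h1, hf x h1] with y h3 h4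
    exact ⟨h3, h4.2 h2⟩
  have hT : IsOpen T := by
    refine IsOpen.union ?_ isOpen_ball
    rw [isOpen_iff_mem_nhds]
    rintro x ⟨h1, h2⟩
    filter_upwards [hK.isOpen_compl.mem_nhds h1, hf x h1] with y h3 h4
    exact ⟨h3, fun h5 => h2 (h4.1 h5)⟩
  have hcov : Aᶜ ⊆ S ∪ T := by
    intro x hx
    by_cases h1 : x ∈ range γ
    · obtain ⟨y, h2, h3⟩ := range_sub h.1 hd2 h1 hx
      right
      right
      rw [mem_ball, ← h3]
      exact hball y h2
    · by_cases h2 : f x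
      · exact Or.inl ⟨h1, h2⟩
      · exact Or.inr (Or.inl ⟨h1, h2⟩)
  obtain ⟨x, hx, hxS, hxT⟩ := hconn S T hS hT hcov ⟨p, fun h1 => hp (hAK h1), hp, hfp⟩
    ⟨q, fun h1 => hq (hAK h1), Or.inl ⟨hq, hfq⟩⟩
  rcases hxT with h1 | h1
  · exact h1.2 hxS.2
  · exact hcon x hxS.1 h1 hxS.2

/-- **Both sides occur near every point of a simple loop.** -/
theorem both {γ : C(I, ℂ)} (h : Loop1 γ) {f : ℂ → Prop} (hf : LC γ f)
    (hp : ∃ p, p ∉ range γ ∧ f p) (hq : ∃ q, q ∉ range γ ∧ ¬ f q) {z : ℂ} (hz : z ∈ range γ) {r : ℝ} (hr : 0 < r) :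
    (∃ x, x ∉ range γ ∧ dist x z < r ∧ f x) ∧ ∃ y, y ∉ range γ ∧ dist y z < r ∧ ¬ f y := by
  refine ⟨side h hf hp hq hz hr, ?_⟩
  refine side (f := fun x => ¬ f x) h ?_ hq ?_ hz hr
  · intro x hx
    filter_upwards [hf x hx] with y hy
    rw [hy]
  · obtain ⟨p, h1, h2⟩ := hp
    exact ⟨p, h1, not_not.2 h2⟩

private theorem sub_of {γ γ' : C(I, ℂ)} (h : Loop1 γ) {f f' : ℂ → Prop} (hf : LC γ f) (hf' : LC γ' f')
    (hp : ∃ p, p ∉ range γ ∧ f p) (hq : ∃ q, q ∉ range γ ∧ ¬ f q) {D : Set ℂ} (hD : Dense D)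
    (hff : ∀ x ∈ D, x ∉ range γ → x ∉ range γ' → (f x ↔ f' x)) : range γ ⊆ range γ' := by
  intro z hz
  by_contra hz'
  have hK : IsClosed (range γ) := (isCompact_range γ.continuous).isClosed
  have hK' : IsClosed (range γ') := (isCompact_range γ'.continuous).isClosed
  obtain ⟨r, hr, hball⟩ := Metric.mem_nhds_iff.1 (hK'.isOpen_compl.mem_nhds hz')
  -- f' is constant in the ball
  have hconst : ∀ x ∈ ball z r, ∀ y ∈ ball z r, f' x → f' y := by
    intro x hx y hy hfx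
    by_contra hfy
    let S : Set ℂ := {u | u ∉ range γ' ∧ f' u}
    let T : Set ℂ := {u | u ∉ range γ' ∧ ¬ f' u}
    have hS : IsOpen S := by
      rw [isOpen_iff_mem_nhds]
      rintro u ⟨h1, h2⟩
      filter_upwards [hK'.isOpen_compl.mem_nhds h1, hf' u h1] with v h3 h4
      exact ⟨h3, h4.2 h2⟩
    have hT : IsOpen T := by
      rw [isOpen_iff_mem_nhds]
      rintro u ⟨h1, h2⟩
      filter_upwards [hK'.isOpen_compl.mem_nhds h1, hf' u h1] with v h3 h4
      exact ⟨h3, fun h5 => h2 (h4.1 h5)⟩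
    have hcov : ball z r ⊆ S ∪ T := by
      intro u hu
      by_cases h2 : f' u
      · exact Or.inl ⟨hball hu, h2⟩
      · exact Or.inr ⟨hball hu, h2⟩
    obtain ⟨u, -, h1, h2⟩ := isPreconnected_ball S T hS hT hcov ⟨x, hx, hball hx, hfx⟩ ⟨y, hy, hball hy, hfy⟩
    exact h2.2 h1.2
  -- points of D near a given point of the ball
  have hnear : ∀ x, x ∉ range γ → x ∈ ball z r → ∃ y ∈ D, y ∈ ball z r ∧ y ∉ range γ ∧ (f y ↔ f x) := by
    intro x hx hxb
    have h1 : ∀ᶠ y in 𝓝 x, y ∈ ball z r ∧ y ∉ range γ ∧ (f y ↔ f x) := by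
      filter_upwards [isOpen_ball.mem_nhds hxb, hK.isOpen_compl.mem_nhds hx, hf x hx] with y h1 h2 h3
      exact ⟨h1, h2, h3⟩
    obtain ⟨U, hU, hUo, hxU⟩ := _root_.eventually_nhds_iff.1 h1
    obtain ⟨y, hyU, hyD⟩ := hD.inter_open_nonempty U hUo ⟨x, hxU⟩
    exact ⟨y, hyD, hU y hyU⟩
  obtain ⟨⟨x, hx, hxr, hfx⟩, ⟨y, hy, hyr, hfy⟩⟩ := both h hf hp hq hz hr
  obtain ⟨x', hx'D, hx'b, hx'g, hx'f⟩ := hnear x hx hxr
  obtain ⟨y', hy'D, hy'b, hy'g, hy'f⟩ := hnear y hy hyr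
  have h1 : f' x' := (hff x' hx'D hx'g (hball hx'b)).1 (hx'f.2 hfx)
  have h2 : f' y' := hconst x' hx'b y' hy'b h1
  exact hfy (hy'f.1 ((hff y' hy'D hy'g (hball hy'b)).2 h2))

/-- **A simple loop is determined by its sides on a dense set.** -/
theorem range_eq {γ γ' : C(I, ℂ)} (h : Loop1 γ) (h' : Loop1 γ') {f f' : ℂ → Prop} (hf : LC γ f) (hf' : LC γ' f')
    (hp : ∃ p, p ∉ range γ ∧ f p) (hq : ∃ q, q ∉ range γ ∧ ¬ f q)
    (hp' : ∃ p, p ∉ range γ' ∧ f' p) (hq' : ∃ q, q ∉ range γ' ∧ ¬ f' q) {D : Set ℂ} (hD : Dense D)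
    (hff : ∀ x ∈ D, x ∉ range γ → x ∉ range γ' → (f x ↔ f' x)) : range γ = range γ' :=
  (sub_of h hf hf' hp hq hD hff).antisymm
    (sub_of h' hf' hf hp' hq' hD fun x hx h1 h2 => (hff x hx h2 h1).symm)

end RotJ
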