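import Pool.Agent.ROT.AHex
import Pool.Agent.ROT.A7X
import Pool.Agent.ROT.LErA
import Pool.Agent.ROT.A6M
import Pool.Agent.ROT.A6Lin
import Pool.Agent.ROT.A6SymH
import Pool.Agent.ROT.IFin
import Pool.Agent.ROT.INear

/-!
# ROT, the joint of the blocks L, A, N, I (helper24)

* `weak_hex` : (LR3) for one polygon at the four sides and CAP ⇒ the weak identity of block I, bounded constants;
* **`rotM_hex`** : (LR3), CAP, NTS ⇒ `RotM`.
-/

set_option autoImplicit false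

open Finset Filter Topology

namespace Pool.Agent.ROT

open Pool.Agent.ROT.A6

lemma qm_pos : (0 : ℝ) < 2 - Real.sqrt 2 := by
  have h : Real.sqrt 2 < 2 := by
    rw [Real.sqrt_lt' (by norm_num)]
    norm_num
  linarith

/-- the inputs of A2 for the honeycomb loops, up to (LR3) and CAP -/
theorem a2in_hex {X : ∀ u, hexP.Side u} (lr : ∀ u, (X u).LRall) (cap : ∀ u, (X u).CAP) :
    A.PSys.A2In hexP X (2 - Real.sqrt 2) L.kk where
  qm_pos := qm_pos
  Q_ge := Q_ge
  C_le := C_le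
  lr := lr
  cap := cap
  ui := fun u => hx_ui u (X u)
  sym := hexP_sym
  near := hx_near
  mass := hx_mass

/-- **the exact side**, no hypothesis -/
theorem exd_hex : hexP.EXd := hex_EXd fun _ _ => LF.ER

theorem weak_hex {X : ∀ u, hexP.Side u} (lr : ∀ u, (X u).LRall) (cap : ∀ u, (X u).CAP) :
    ∃ (A : ℝ) (a b : ℕ → ℝ), (∀ N, 2 - Real.sqrt 2 ≤ a N ∧ a N ≤ A ∧ 0 ≤ b N ∧ b N ≤ A) ∧
      I.Weak a fun N => -b N :=
  hex_weak (a2in_hex lr cap) exd_hex (hex_ui0 hx_massU)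

/-- **J2 - J8** -/
theorem rotM_hex {X : ∀ u, hexP.Side u} (lr : ∀ u, (X u).LRall) (cap : ∀ u, (X u).CAP) (hS : I.NTS) : I.RotM := by
  obtain ⟨A, a, b, h1, h2⟩ := weak_hex lr cap
  exact I.rotM_lr (I.mass_of HexObs.NK.massU) (I.massLo_of HexObs.NK.massL) I.far hS qm_pos h1 h2

end Pool.Agent.ROT
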