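import Pool.Agent.ROT.LocalF
import Pool.Agent.PHW.AntiC

/-!
# ROT / Ker2 (helper52): the kernel between two double cut rows

`Mid d P' Q' P Q h`: pairs (M1, M2) of mutually avoiding bridges of height h between the feet P', Q' (upper state)
and P, Q (lower state); M1 is read downwards (from P', heading - d, to P), M2 upwards (from Q - d, heading d, to Q' - d).
`KM` = its mass. `KM_up`, `KM_low`: it is between (c uu h / h)^2 and (C uu h / h)^2, the lower bound for feet within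
R h and gaps of the same sign at least ρ h. `KM_sum_low`, `KM_sum_up`: for a fixed upper (lower) state the sum over all
lower (upper) states at the distance h is at most (uu h)^2.
-/

set_option autoImplicit false

namespace HexObs

namespace ROT

open Finset ENNReal

/-- lateral coordinate in the direction d -/
def xd (d p : Pt) : ℤ := -(cross d p)

lemma cross_mulE {u : Pt} (hu : nrm u = 1) (p q : Pt) : cross (mulE u p) (mulE u q) = cross p q := by
  have h : cross (mulE u p) (mulE u q) = nrm u * cross p q := by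
    unfold cross mulE nrm
    ring
  rw [h, hu, one_mul]

lemma nrm_to {d : Pt} (hd : d ∈ dirs) : nrm (rotTo up d) = 1 := nrm_rotTo upd hd

lemma vx_to {d : Pt} (_hd : d ∈ dirs) (v : Pt) (t : List Bool) (i : ℕ) :
    vx v d t i = v + mulE (rotTo up d) (vx oo up t i) := by
  have h1 := vx_mulE (rotTo up d) oo v up t i
  rw [rotTo_apply d upd] at h1
  rw [h1]
  congr 2
  exact sub_zero _

lemma neg_dirs {d : Pt} (hd : d ∈ dirs) : -d ∈ dirs := by
  rw [mem_dirs] at hd ⊢
  unfold nrm at hd ⊢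
  simp only [Prod.fst_neg, Prod.snd_neg]
  linarith

lemma ip_vx {d : Pt} (hd : d ∈ dirs) (v : Pt) (t : List Bool) (i : ℕ) :
    ip (vx v d t i) d = ip v d + lev t i := by
  rw [vx_to hd, ip_add_left]
  congr 1
  have h1 : ip (mulE (rotTo up d) (vx oo up t i)) (mulE (rotTo up d) up) = lev t i := by
    rw [ip_mulE, nrm_to hd, one_mul]
    rfl
  rwa [rotTo_apply d upd] at h1

lemma xd_vx {d : Pt} (hd : d ∈ dirs) (v : Pt) (t : List Bool) (i : ℕ) :
    xd d (vx v d t i) = xd d v + lat t i := by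
  rw [vx_to hd]
  have h1 : cross (mulE (rotTo up d) up) (mulE (rotTo up d) (vx oo up t i)) = cross up (vx oo up t i) :=
    cross_mulE (nrm_to hd) _ _
  rw [rotTo_apply d upd] at h1
  unfold xd lat
  rw [cross_add_right, h1]
  ring

lemma ip_neg_right (p q : Pt) : ip p (-q) = -(ip p q) := by
  unfold ip
  simp only [Prod.fst_neg, Prod.snd_neg]
  ring

lemma cross_neg_left (p q : Pt) : cross (-p) q = -(cross p q) := by
  unfold cross
  simp only [Prod.fst_neg, Prod.snd_neg]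
  ring

lemma ip_vxn {d : Pt} (hd : d ∈ dirs) (v : Pt) (t : List Bool) (i : ℕ) :
    ip (vx v (-d) t i) d = ip v d - lev t i := by
  have h1 := ip_vx (neg_dirs hd) v t i
  rw [ip_neg_right, ip_neg_right] at h1
  linarith

lemma xd_vxn {d : Pt} (hd : d ∈ dirs) (v : Pt) (t : List Bool) (i : ℕ) :
    xd d (vx v (-d) t i) = xd d v - lat t i := by
  have h1 := xd_vx (neg_dirs hd) v t i
  unfold xd at h1 ⊢
  rw [cross_neg_left, cross_neg_left] at h1
  linarith

lemma pt_ext {d : Pt} (hd : d ∈ dirs) {p q : Pt} (h1 : ip p d = ip q d) (h2 : xd d p = xd d q) : p = q := by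
  apply xy_inj (v0 := oo) hd
  have o1 : ∀ p : Pt, p - oo = p := fun p => sub_zero p
  unfold xy
  rw [o1, o1]
  exact Prod.ext h2 h1

lemma xd_sub (d p q : Pt) : xd d (p - q) = xd d p - xd d q := by
  unfold xd cross
  simp only [Prod.fst_sub, Prod.snd_sub]
  ring

lemma xd_self (d : Pt) : xd d d = 0 := by
  unfold xd cross
  ring

lemma par_pt (d p : Pt) : Even (xd d p + ip p d) := by
  refine ⟨d.1 * p.1 + d.2 * p.2 + d.2 * p.1, ?_⟩
  unfold xd cross ip
  ring

lemma ip_self {d : Pt} (hd : d ∈ dirs) : ip d d = 2 := by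
  have h1 : ip d d = 2 * nrm d := by
    unfold ip nrm
    ring
  rw [h1, mem_dirs.1 hd]
  norm_num

/-- pairs of mutually avoiding bridges between two double cut rows -/
def Mid (d P' Q' P Q : Pt) (h : ℕ) : Set (List Bool × List Bool) :=
  {p | p.1 ∈ Brd h ∧ p.2 ∈ Brd h ∧ vx P' (-d) p.1 p.1.length = P ∧ vx (Q - d) d p.2 p.2.length = Q' - d ∧
    ∀ i j, 1 ≤ i → i ≤ p.1.length → 1 ≤ j → j ≤ p.2.length → vx P' (-d) p.1 i ≠ vx (Q - d) d p.2 j}

/-- the kernel -/
noncomputable def KM (d P' Q' P Q : Pt) (h : ℕ) : ℝ≥0∞ :=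
  ∑' p : Mid d P' Q' P Q h, wE (p : List Bool × List Bool).1 * wE (p : List Bool × List Bool).2

/-- mass of a set of pairs -/
noncomputable def gf2 (S : Set (List Bool × List Bool)) : ℝ≥0∞ :=
  ∑' p : S, wE (p : List Bool × List Bool).1 * wE (p : List Bool × List Bool).2

lemma gf2_mono {S T : Set (List Bool × List Bool)} (h : S ⊆ T) : gf2 S ≤ gf2 T :=
  ENNReal.tsum_mono_subtype (fun p : List Bool × List Bool => wE p.1 * wE p.2) h

lemma gf2_prod (A B : Set (List Bool)) : gf2 (A ×ˢ B) = gf A * gf B := by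
  unfold gf2 gf
  rw [← ENNReal.tsum_mul_right]
  have h1 : ∀ a : A, wE (a : List Bool) * ∑' b : B, wE (b : List Bool) =
      ∑' b : B, wE (a : List Bool) * wE (b : List Bool) := fun a => by rw [ENNReal.tsum_mul_left]
  rw [tsum_congr h1, ← ENNReal.tsum_prod (f := fun (a : A) (b : B) => wE (a : List Bool) * wE (b : List Bool))]
  let e : (A ×ˢ B : Set (List Bool × List Bool)) ≃ A × B :=
    { toFun := fun p => (⟨p.1.1, p.2.1⟩, ⟨p.1.2, p.2.2⟩)
      invFun := fun q => ⟨(q.1.1, q.2.1), ⟨q.1.2, q.2.2⟩⟩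
      left_inv := fun p => rfl
      right_inv := fun q => rfl }
  exact e.tsum_eq (fun q : A × B => wE (q.1 : List Bool) * wE (q.2 : List Bool))

lemma mid_end {d P' Q' P Q : Pt} (hd : d ∈ dirs) {h : ℕ} {p : List Bool × List Bool} (hp : p ∈ Mid d P' Q' P Q h) :
    p.1 ∈ RP.EndB h (xd d P' - xd d P) ∧ p.2 ∈ RP.EndB h (xd d Q' - xd d Q) := by
  obtain ⟨h1, h2, h3, h4, _⟩ := hp
  refine ⟨⟨h1, ?_⟩, ⟨h2, ?_⟩⟩
  · have e := xd_vxn hd P' p.1 p.1.length
    rw [h3] at e
    unfold latE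
    linarith
  · have e := xd_vx hd (Q - d) p.2 p.2.length
    rw [h4, xd_sub, xd_sub, xd_self] at e
    unfold latE
    linarith

/-- **KU** -/
theorem KM_up : ∃ C : ℝ, 0 < C ∧ ∀ d ∈ dirs, ∀ (P' Q' P Q : Pt) (h : ℕ), 1 ≤ h →
    KM d P' Q' P Q h ≤ ENNReal.ofReal (C * (uu h / h) ^ 2) := by
  obtain ⟨C, hC, hanti⟩ := anti_end
  refine ⟨C ^ 2, by positivity, fun d hd P' Q' P Q h hh => ?_⟩
  have h1 : KM d P' Q' P Q h ≤ gf2 (RP.EndB h (xd d P' - xd d P) ×ˢ RP.EndB h (xd d Q' - xd d Q)) :=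
    gf2_mono fun p hp => mid_end hd hp
  refine h1.trans ?_
  rw [gf2_prod]
  have hu := uu_pos h
  have h2 : ∀ x : ℤ, gf (RP.EndB h x) ≤ ENNReal.ofReal (C * (uu h / h)) := fun x => hanti h hh x
  refine (mul_le_mul' (h2 _) (h2 _)).trans (le_of_eq ?_)
  rw [← ENNReal.ofReal_mul (by positivity)]
  congr 1
  ring

/-- **KL** -/
theorem KM_low (R : ℕ) {ρ : ℝ} (hρ : 0 < ρ) : ∃ (c : ℝ) (h0 : ℕ), 0 < c ∧ ∀ d ∈ dirs, ∀ (P' Q' P Q : Pt) (h : ℕ),
    h0 ≤ h → ip P' d = ip P d + 3 * h → ip Q' d = ip Q d + 3 * h → ip P d = ip Q d →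
    |xd d P' - xd d P| ≤ R * h → |xd d Q' - xd d Q| ≤ R * h →
    ((ρ * h ≤ (xd d Q - xd d P : ℤ) ∧ ρ * h ≤ (xd d Q' - xd d P' : ℤ)) ∨
      (ρ * h ≤ (xd d P - xd d Q : ℤ) ∧ ρ * h ≤ (xd d P' - xd d Q' : ℤ))) →
    ENNReal.ofReal (c * (uu h / h) ^ 2) ≤ KM d P' Q' P Q h := by
  obtain ⟨c, t0, hc, htube⟩ := RP.localTubeF R (show (0 : ℝ) < ρ / 4 by positivity)
  refine ⟨c ^ 2, t0 + ⌈2 * (R : ℝ) / ρ⌉₊ + 1, by positivity, ?_⟩
  intro d hd P' Q' P Q h hh hP hQ hPQ hx1 hx2 hgap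
  have hht : t0 ≤ h := by omega
  have hh1 : 1 ≤ h := by omega
  have hhr : (0 : ℝ) < h := by exact_mod_cast hh1
  have hRr : (0 : ℝ) ≤ R := Nat.cast_nonneg R
  have hbig : 2 * (R : ℝ) < ρ * h := by
    have h1 : (⌈2 * (R : ℝ) / ρ⌉₊ : ℝ) + 1 ≤ h := by
      have : ⌈2 * (R : ℝ) / ρ⌉₊ + 1 ≤ h := by omega
      exact_mod_cast this
    have h2 := Nat.le_ceil (2 * (R : ℝ) / ρ)
    have h3 : 2 * (R : ℝ) / ρ < h := by linarith
    rw [div_lt_iff₀ hρ] at h3
    linarith
  obtain ⟨x1, hx1d⟩ : ∃ x1 : ℤ, x1 = xd d P' - xd d P := ⟨_, rfl⟩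
  obtain ⟨x2, hx2d⟩ : ∃ x2 : ℤ, x2 = xd d Q' - xd d Q := ⟨_, rfl⟩
  rw [← hx1d] at hx1
  rw [← hx2d] at hx2
  have hpar : ∀ p q : Pt, ip p d = ip q d + 3 * h → Even (xd d p - xd d q - (h : ℤ)) := by
    intro p q hpq
    have h1 := par_pt d p
    have h2 := par_pt d q
    rw [Int.even_iff] at h1 h2 ⊢
    omega
  set T : ℤ → Set (List Bool) := fun x => {b | b ∈ RP.EndB h x ∧ ∀ i, i ≤ b.length →
    |(lat b i : ℝ) - (x : ℝ) * ((lev b i : ℝ) / 3) / h| ≤ ρ / 4 * h} with hT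
  have hmass : ∀ x : ℤ, |x| ≤ R * h → Even (x - (h : ℤ)) → ENNReal.ofReal (c * (uu h / h)) ≤ gf (T x) := by
    intro x hx hev
    have hL : ∀ a b : ℝ, |(fun y : ℝ => (x : ℝ) * y / h) a - (fun y : ℝ => (x : ℝ) * y / h) b| ≤ R * |a - b| := by
      intro a b
      have e1 : (fun y : ℝ => (x : ℝ) * y / h) a - (fun y : ℝ => (x : ℝ) * y / h) b = ((x : ℝ) / h) * (a - b) := by
        simp only
        field_simp
      rw [e1, abs_mul]
      apply mul_le_mul_of_nonneg_right _ (abs_nonneg _)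
      rw [abs_div, abs_of_pos hhr, div_le_iff₀ hhr]
      exact_mod_cast hx
    have h0 : (fun y : ℝ => (x : ℝ) * y / h) 0 = 0 := by simp
    have hend : (fun y : ℝ => (x : ℝ) * y / h) (h : ℝ) = x := by
      simp only
      field_simp
    exact htube (fun y => (x : ℝ) * y / h) hL h0 h x hht hev hend
  have hsub : T x1 ×ˢ T x2 ⊆ Mid d P' Q' P Q h := by
    rintro ⟨a, b⟩ ⟨ha, hb⟩
    obtain ⟨⟨ha1, ha2⟩, ha3⟩ := ha
    obtain ⟨⟨hb1, hb2⟩, hb3⟩ := hb
    have hla := (mem_Brd.1 ha1).2.2.2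
    have hlb := (mem_Brd.1 hb1).2.2.2
    refine ⟨ha1, hb1, ?_, ?_, ?_⟩
    · apply pt_ext hd
      · rw [ip_vxn hd, hla]
        linarith
      · rw [xd_vxn hd]
        unfold latE at ha2
        simp only at ha2 ⊢
        rw [ha2]
        linarith
    · apply pt_ext hd
      · rw [ip_vx hd, hlb, ip_sub_left, ip_sub_left]
        linarith
      · rw [xd_vx hd, xd_sub, xd_sub]
        unfold latE at hb2
        simp only at hb2 ⊢
        rw [hb2]
        linarith
    · intro i j hi hi' hj hj' heq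
      simp only at hi' hj' heq
      have e1 := congrArg (fun p => ip p d) heq
      have e2 := congrArg (xd d) heq
      rw [ip_vxn hd, ip_vx hd, ip_sub_left, ip_self hd] at e1
      rw [xd_vxn hd, xd_vx hd, xd_sub, xd_self] at e2
      have t1 := ha3 i hi'
      have t2 := hb3 j hj'
      obtain ⟨l1, l1'⟩ := Ex.lev_range ha1 hi'
      obtain ⟨l2, l2'⟩ := Ex.lev_range hb1 hj'
      have e3 : (lev a i : ℝ) + lev b j = 3 * h + 2 := by
        have : lev a i + lev b j = 3 * h + 2 := by linarith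
        exact_mod_cast this
      have e4 : (xd d P' : ℝ) - lat a i = xd d Q + lat b j := by
        have : xd d P' - lat a i = xd d Q + lat b j := by linarith
        exact_mod_cast this
      obtain ⟨s, hs⟩ : ∃ s : ℝ, s = (lev a i : ℝ) / 3 / h := ⟨_, rfl⟩
      have s0 : 0 ≤ s := by
        rw [hs]
        positivity
      have s1 : s ≤ 1 := by
        rw [hs, div_le_one hhr]
        exact l1'
      have f1 : (x1 : ℝ) * ((lev a i : ℝ) / 3) / h = x1 * s := by
        rw [hs]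
        ring
      have f2 : (x2 : ℝ) * ((lev b j : ℝ) / 3) / h = x2 * (1 - s) + x2 * (2 / 3) / h := by
        have : (lev b j : ℝ) = 3 * h + 2 - lev a i := by linarith
        rw [this, hs]
        field_simp
        ring
      rw [f1] at t1
      rw [f2] at t2
      have g1 : |(x2 : ℝ) * (2 / 3) / h| ≤ R * (2 / 3) := by
        rw [abs_div, abs_mul, abs_of_pos hhr, div_le_iff₀ hhr]
        have h1 : |(x2 : ℝ)| ≤ R * h := by exact_mod_cast hx2
        have h2 : |(2 / 3 : ℝ)| = 2 / 3 := abs_of_pos (by norm_num)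
        rw [h2]
        nlinarith
      have hx1r : (x1 : ℝ) = xd d P' - xd d P := by
        rw [hx1d]
        push_cast
        ring
      have hx2r : (x2 : ℝ) = xd d Q' - xd d Q := by
        rw [hx2d]
        push_cast
        ring
      rw [abs_le] at t1 t2 g1
      obtain ⟨G, hG⟩ : ∃ G : ℝ, G = s * ((xd d Q : ℝ) - xd d P) + (1 - s) * ((xd d Q' : ℝ) - xd d P') := ⟨_, rfl⟩
      have key : (xd d P' : ℝ) - x1 * s - (xd d Q + x2 * (1 - s)) = -G := by
        rw [hG, hx1r, hx2r]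
        ring
      rcases hgap with ⟨k1, k2⟩ | ⟨k1, k2⟩
      · push_cast at k1 k2
        have hGl : ρ * h ≤ G := by
          rw [hG]
          have m1 := mul_le_mul_of_nonneg_left k1 s0
          have m2 := mul_le_mul_of_nonneg_left k2 (by linarith : 0 ≤ 1 - s)
          linarith
        linarith [t1.1, t1.2, t2.1, t2.2, g1.1, g1.2]
      · push_cast at k1 k2
        have hGl : ρ * h ≤ -G := by
          rw [hG]
          have m1 := mul_le_mul_of_nonneg_left k1 s0
          have m2 := mul_le_mul_of_nonneg_left k2 (by linarith : 0 ≤ 1 - s)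
          linarith
        linarith [t1.1, t1.2, t2.1, t2.2, g1.1, g1.2]
  have hfin : gf2 (T x1 ×ˢ T x2) ≤ KM d P' Q' P Q h := gf2_mono hsub
  refine le_trans ?_ hfin
  rw [gf2_prod]
  have hu := uu_pos h
  refine le_trans (le_of_eq ?_) (mul_le_mul' (hmass x1 hx1 (by rw [hx1d]; exact hpar P' P hP))
    (hmass x2 hx2 (by rw [hx2d]; exact hpar Q' Q hQ)))
  rw [← ENNReal.ofReal_mul (by positivity)]
  congr 1
  ring

lemma BT_ne (h : ℕ) : BT h ≠ ∞ := by
  rcases Nat.eq_zero_or_pos h with h0 | h0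
  · subst h0
    rw [← gf_Brd, Brd_zero]
    unfold gf
    rw [tsum_fintype]
    exact (ENNReal.sum_lt_top.2 fun a _ => ENNReal.ofReal_lt_top).ne
  · exact BT_ne_top h0

/-- for a fixed upper state, the sum over the lower states -/
theorem KM_sum_low (d P' Q' : Pt) (h : ℕ) :
    ∑' z : Pt × Pt, KM d P' Q' z.1 z.2 h ≤ ENNReal.ofReal (uu h ^ 2) := by
  have h1 : ∑' z : Pt × Pt, KM d P' Q' z.1 z.2 h =
      ∑' q : (Σ z : Pt × Pt, Mid d P' Q' z.1 z.2 h), wE q.2.1.1 * wE q.2.1.2 :=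
    (ENNReal.tsum_sigma (fun (z : Pt × Pt) (p : Mid d P' Q' z.1 z.2 h) =>
      wE (p : List Bool × List Bool).1 * wE (p : List Bool × List Bool).2)).symm
  rw [h1]
  let φ : (Σ z : Pt × Pt, Mid d P' Q' z.1 z.2 h) → (Brd h ×ˢ Brd h : Set (List Bool × List Bool)) :=
    fun q => ⟨q.2.1, q.2.2.1, q.2.2.2.1⟩
  have hφ : Function.Injective φ := by
    rintro ⟨⟨P, Q⟩, ⟨⟨a, b⟩, hab⟩⟩ ⟨⟨P₂, Q₂⟩, ⟨⟨a', b'⟩, hab'⟩⟩ hq
    have h2 := congrArg Subtype.val hq
    simp only [φ, Prod.mk.injEq] at h2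
    obtain ⟨rfl, rfl⟩ := h2
    have e1 : P = P₂ := hab.2.2.1.symm.trans hab'.2.2.1
    have e2 : Q = Q₂ := by
      have k1 := hab.2.2.2.1
      have k2 := hab'.2.2.2.1
      simp only at k1 k2
      have k3 : vx (Q - d) d b b.length = (Q - d) + vx oo d b b.length := by
        have := vx_mulE (1, 0) oo (Q - d) d b b.length
        rw [mulE_one, mulE_one] at this
        rw [this]
        congr 1
        exact sub_zero _
      have k4 : vx (Q₂ - d) d b b.length = (Q₂ - d) + vx oo d b b.length := by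
        have := vx_mulE (1, 0) oo (Q₂ - d) d b b.length
        rw [mulE_one, mulE_one] at this
        rw [this]
        congr 1
        exact sub_zero _
      rw [k3] at k1
      rw [k4] at k2
      have k5 : (Q - d) + vx oo d b b.length = (Q₂ - d) + vx oo d b b.length := k1.trans k2.symm
      have k6 := add_right_cancel k5
      exact sub_left_injective k6
    subst e1
    subst e2
    rfl
  have h3 : ∑' q : (Σ z : Pt × Pt, Mid d P' Q' z.1 z.2 h), wE q.2.1.1 * wE q.2.1.2 ≤ gf2 (Brd h ×ˢ Brd h) :=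
    ENNReal.tsum_comp_le_tsum_of_injective hφ
      (fun p : (Brd h ×ˢ Brd h : Set (List Bool × List Bool)) => wE p.1.1 * wE p.1.2)
  refine h3.trans (le_of_eq ?_)
  rw [gf2_prod, gf_Brd, sq, ENNReal.ofReal_mul (uu_pos h).le]
  have h4 : ENNReal.ofReal (uu h) = BT h := by
    unfold uu
    exact ENNReal.ofReal_toReal (BT_ne h)
  rw [h4]

/-- for a fixed lower state, the sum over the upper states -/
theorem KM_sum_up (d P Q : Pt) (h : ℕ) :
    ∑' z : Pt × Pt, KM d z.1 z.2 P Q h ≤ ENNReal.ofReal (uu h ^ 2) := by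
  have h1 : ∑' z : Pt × Pt, KM d z.1 z.2 P Q h =
      ∑' q : (Σ z : Pt × Pt, Mid d z.1 z.2 P Q h), wE q.2.1.1 * wE q.2.1.2 :=
    (ENNReal.tsum_sigma (fun (z : Pt × Pt) (p : Mid d z.1 z.2 P Q h) =>
      wE (p : List Bool × List Bool).1 * wE (p : List Bool × List Bool).2)).symm
  rw [h1]
  let φ : (Σ z : Pt × Pt, Mid d z.1 z.2 P Q h) → (Brd h ×ˢ Brd h : Set (List Bool × List Bool)) :=
    fun q => ⟨q.2.1, q.2.2.1, q.2.2.2.1⟩
  have hφ : Function.Injective φ := by
    rintro ⟨⟨P', Q'⟩, ⟨⟨a, b⟩, hab⟩⟩ ⟨⟨P₂, Q₂⟩, ⟨⟨a', b'⟩, hab'⟩⟩ hq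
    have h2 := congrArg Subtype.val hq
    simp only [φ, Prod.mk.injEq] at h2
    obtain ⟨rfl, rfl⟩ := h2
    have e2 : Q' = Q₂ := by
      have k1 := hab.2.2.2.1
      have k2 := hab'.2.2.2.1
      simp only at k1 k2
      have k5 : Q' - d = Q₂ - d := k1.symm.trans k2
      exact sub_left_injective k5
    have e1 : P' = P₂ := by
      have k1 := hab.2.2.1
      have k2 := hab'.2.2.1
      simp only at k1 k2
      have k3 : ∀ v : Pt, vx v (-d) a a.length = v + vx oo (-d) a a.length := by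
        intro v
        have := vx_mulE (1, 0) oo v (-d) a a.length
        rw [mulE_one, mulE_one] at this
        rw [this]
        congr 1
        exact sub_zero _
      rw [k3] at k1 k2
      exact add_right_cancel (k1.trans k2.symm)
    subst e1
    subst e2
    rfl
  have h3 : ∑' q : (Σ z : Pt × Pt, Mid d z.1 z.2 P Q h), wE q.2.1.1 * wE q.2.1.2 ≤ gf2 (Brd h ×ˢ Brd h) :=
    ENNReal.tsum_comp_le_tsum_of_injective hφ
      (fun p : (Brd h ×ˢ Brd h : Set (List Bool × List Bool)) => wE p.1.1 * wE p.1.2)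
  refine h3.trans (le_of_eq ?_)
  rw [gf2_prod, gf_Brd, sq, ENNReal.ofReal_mul (uu_pos h).le]
  have h4 : ENNReal.ofReal (uu h) = BT h := by
    unfold uu
    exact ENNReal.ofReal_toReal (BT_ne h)
  rw [h4]

end ROT

end HexObs
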