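import Pool.Agent.ROT.Ker2
import Pool.Agent.ART.DCut

/-!
# ROT / KerM (helper52): the legs between two double cut rows are the pairs of `ROT.Mid`
-/

set_option autoImplicit false

namespace HexObs

namespace ROT

open Finset ENNReal

lemma dx_to {d : Pt} (_hd : d ∈ dirs) (t : List Bool) (i : ℕ) :
    dx d t i = mulE (rotTo up d) (dx up t i) := by
  have h1 := dx_mulE (rotTo up d) up t i
  rwa [rotTo_apply d upd] at h1

/-- a word whose vertices stay between two levels is a bridge -/
lemma brd_of {d : Pt} (hd : d ∈ dirs) (v : Pt) (t : List Bool) (h : ℕ)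
    (h1 : ∀ i, 1 ≤ i → i ≤ t.length → 0 < ip (vx v d t i) d - ip v d ∧ ip (vx v d t i) d - ip v d ≤ 3 * h)
    (h2 : ∀ i j, 1 ≤ i → i ≤ t.length → 1 ≤ j → j ≤ t.length → vx v d t i = vx v d t j → i = j)
    (h3 : dx d t t.length = d) (h4 : ip (vx v d t t.length) d - ip v d = 3 * h) : t ∈ Brd h := by
  rw [mem_Brd]
  have hlev : ∀ i, ip (vx v d t i) d - ip v d = lev t i := fun i => by rw [ip_vx hd]; ring
  refine ⟨?_, ?_, ?_, ?_⟩
  · intro i hi hi'
    have := h1 i hi hi'
    rwa [hlev] at this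
  · intro i k hik hk heq
    have e : vx v d t i = vx v d t k := by rw [vx_to hd, vx_to hd, heq]
    rcases Nat.eq_zero_or_pos i with h0 | h0
    · subst h0
      have := (h1 k hik hk).1
      rw [← e] at this
      have e0 : vx v d t 0 = v := rfl
      rw [e0] at this
      omega
    · have := h2 i k h0 (by omega) (by omega) hk e
      omega
  · rw [dx_to hd] at h3
    have h5 : mulE (rotTo up d) (dx up t t.length) = mulE (rotTo up d) up := by
      rw [h3, rotTo_apply d upd]
    exact mulE_inj (nrm_to hd) h5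
  · rw [← hlev]
    exact h4

lemma brd_inj {h : ℕ} {t : List Bool} (ht : t ∈ Brd h) {d : Pt} (hd : d ∈ dirs) (v : Pt) :
    ∀ i j, 1 ≤ i → i ≤ t.length → 1 ≤ j → j ≤ t.length → vx v d t i = vx v d t j → i = j := by
  intro i j hi hi' hj hj' heq
  rw [vx_to hd, vx_to hd] at heq
  have e := mulE_inj (nrm_to hd) (add_left_cancel heq)
  have h2 := (mem_Brd.1 ht).2.1
  rcases lt_trichotomy i j with k | k | k
  · exact absurd e (h2 i j k hj')
  · exact k
  · exact absurd e.symm (h2 j i k hi')

theorem mid_iff {d : Pt} (hd : d ∈ dirs) {z y : Pt × Pt} {h : ℕ} (hh : 1 ≤ h)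
    (hz : ip z.1 d = ip z.2 d) (hy : ip y.1 d = ip y.2 d) (hzy : ip z.1 d = ip y.1 d + 3 * h)
    (M1 M2 : List Bool) : ART.Mid d z y M1 M2 ↔ (M1, M2) ∈ Mid d z.1 z.2 y.1 y.2 h := by
  have hnd := neg_dirs hd
  have hnn : ∀ p : Pt, ip p (-d) = -(ip p d) := fun p => ip_neg_right p d
  constructor
  · intro H
    refine ⟨?_, ?_, H.en1, H.en2, H.dis⟩
    · apply brd_of hnd z.1 M1 h
      · intro i hi hi'
        rw [hnn, hnn]
        have a1 := H.lo1 i hi hi'
        have a2 := H.hi1 i hi hi'
        constructor <;> omega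
      · exact H.inj1
      · exact H.hd1
      · rw [hnn, hnn, H.en1]
        omega
    · have ed : ip (y.2 - d) d = ip y.2 d - 2 := by rw [ip_sub_left, ip_self hd]
      apply brd_of hd (y.2 - d) M2 h
      · intro i hi hi'
        have a1 := H.lo2 i hi hi'
        have a2 := H.hi2 i hi hi'
        have a3 := lev_mod M2 i
        have a4 : ip (vx (y.2 - d) d M2 i) d = ip (y.2 - d) d + lev M2 i := ip_vx hd _ _ _
        rw [ed] at a4 ⊢
        constructor
        · omega
        · split_ifs at a3 <;> omega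
      · exact H.inj2
      · exact H.hd2
      · rw [H.en2, ed, ip_sub_left, ip_self hd]
        omega
  · rintro ⟨h1, h2, h3, h4, h5⟩
    simp only at h1 h2 h3 h4 h5
    have b1 := mem_Brd.1 h1
    have b2 := mem_Brd.1 h2
    have ed : ip (y.2 - d) d = ip y.2 d - 2 := by rw [ip_sub_left, ip_self hd]
    refine ⟨hz, hy, by omega, h3, ?_, h4, ?_, ?_, ?_, ?_, ?_, brd_inj h1 hnd z.1, brd_inj h2 hd (y.2 - d), h5⟩
    · rw [dx_to hnd, b1.2.2.1, rotTo_apply (-d) upd]
    · rw [dx_to hd, b2.2.2.1, rotTo_apply d upd]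
    · intro i hi hi'
      have := b1.1 i hi hi'
      rw [ip_vxn hd]
      omega
    · intro i hi hi'
      have := b1.1 i hi hi'
      rw [ip_vxn hd]
      omega
    · intro i hi hi'
      have a1 := b2.1 i hi hi'
      have a3 := lev_mod M2 i
      rw [ip_vx hd, ed]
      split_ifs at a3 <;> omega
    · intro i hi hi'
      have a1 := b2.1 i hi hi'
      rw [ip_vx hd, ed]
      omega

end ROT

end HexObs
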