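import Pool.Agent.ROT.LInst

/-!
# ROT, row R5 (helper55): the exact product of the masses of two and three double cut rows

* `capW`, `midW`, `Bw` : the masses of the caps of a state, of the legs between two states, of the parts below a state;
* `jo_two` : the caps of the deeper state y for which z is a double cut row are the pairs (legs, cap of z);
* `mass1`, **`mass2`**, **`mass3`** : exact products.
-/

set_option autoImplicit false

open MeasureTheory

open scoped ENNReal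

namespace HexObs

namespace ART

open Finset Pool.Agent.ROT

/-- the legs between two states -/
abbrev MM (d : Pt) (z y : Pt × Pt) : Type := {m : List Bool × List Bool // Mid d z y m.1 m.2}

/-- mass of the legs -/
noncomputable def midW (d : Pt) (z y : Pt × Pt) : ℝ≥0∞ := ∑' m : MM d z y, wc m.1

/-- mass of the caps -/
noncomputable def capW (d : Pt) (z : Pt × Pt) : ℝ≥0∞ := ∑' c : CC d z, wc c.1

/-- mass of the parts below, with the weight g -/
noncomputable def Bw (d : Pt) (g : List Bool → ℝ≥0∞) (z : Pt × Pt) : ℝ≥0∞ :=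
  ∑' o : OO d z, ⨆ c : CC d z, wE o.1 * g (jo (o, c))

/-- the part below z from the legs and the part below y -/
def oz {d : Pt} {z y : Pt × Pt} (m : MM d z y) (o : OO d y) : OO d z := ⟨m.1.1 ++ (o.1 ++ m.1.2), mid_out m.2 o.2⟩

/-- the cap of y from the cap of z and the legs -/
def cz {d : Pt} (hd : d ∈ dirs) {z y : Pt × Pt} (p : MM d z y × CC d z) : CC d y :=
  ⟨(p.2.1.1 ++ p.1.1.1, p.1.1.2 ++ p.2.1.2), cap_mid hd p.2.2 p.1.2⟩

lemma jo_cz {d : Pt} (hd : d ∈ dirs) {z y : Pt × Pt} (m : MM d z y) (c : CC d z) (o : OO d y) :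
    jo (o, cz hd (m, c)) = jo (oz m o, c) := by
  unfold jo cz oz
  simp only [List.append_assoc]

lemma wc_cz {d : Pt} (hd : d ∈ dirs) {z y : Pt × Pt} (m : MM d z y) (c : CC d z) :
    wc (cz hd (m, c)).1 = wc m.1 * wc c.1 := by
  unfold wc cz
  rw [wE_append, wE_append]
  ring

lemma cz_inj {d : Pt} (hd : d ∈ dirs) {z y : Pt × Pt} (o : OO d y) :
    Function.Injective (cz hd (z := z) (y := y)) := by
  rintro ⟨m, c⟩ ⟨m', c'⟩ h
  have h1 : jo (oz m o, c) = jo (oz m' o, c') := by rw [← jo_cz hd, ← jo_cz hd, h]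
  have h2 := jo_inj hd h1
  have h3 : c = c' := (Prod.mk.inj h2).2
  subst h3
  have h4 := congrArg Subtype.val h
  have h5 : c.1.1 ++ m.1.1 = c.1.1 ++ m'.1.1 ∧ m.1.2 ++ c.1.2 = m'.1.2 ++ c.1.2 := Prod.mk.inj h4
  have h6 : m.1.1 = m'.1.1 := List.append_cancel_left h5.1
  have h7 : m.1.2 = m'.1.2 := List.append_cancel_right h5.2
  have h8 : m = m' := Subtype.ext (Prod.ext h6 h7)
  rw [h8]

lemma cz_range {d : Pt} (hd : d ∈ dirs) {z y : Pt × Pt} (hlt : ip y.1 d < ip z.1 d) (o : OO d y) (c : CC d y) :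
    c ∈ Set.range (cz hd (z := z) (y := y)) ↔ CutA d (jo (o, c)) z := by
  constructor
  · rintro ⟨⟨m, c'⟩, rfl⟩
    rw [jo_cz hd]
    exact jo_range.1 ⟨_, rfl⟩
  · rintro ⟨R, O, S, h, hC, hO⟩
    obtain ⟨M1, M2, h1, h2, -, hM⟩ := nested hd hC hO c.2 o.2 h.symm hlt
    exact ⟨(⟨(M1, M2), hM⟩, ⟨(R, S), hC⟩), Subtype.ext (Prod.ext h1.symm h2.symm)⟩

open Classical in
/-- **the caps of y with the double cut row z** -/
theorem jo_two {d : Pt} (hd : d ∈ dirs) {z y : Pt × Pt} (hlt : ip y.1 d < ip z.1 d) (o : OO d y)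
    (F : List Bool → ℝ≥0∞) :
    ∑' c : CC d y, (if CutA d (jo (o, c)) z then wc c.1 * F (jo (o, c)) else 0) =
      ∑' (m : MM d z y) (c : CC d z), wc m.1 * (wc c.1 * F (jo (oz m o, c))) := by
  have h1 : ∑' p : MM d z y × CC d z, (if CutA d (jo (o, cz hd p)) z then wc (cz hd p).1 * F (jo (o, cz hd p)) else 0) =
      ∑' c : CC d y, (if CutA d (jo (o, c)) z then wc c.1 * F (jo (o, c)) else 0) := by
    refine (cz_inj hd o).tsum_eq (f := fun c : CC d y => if CutA d (jo (o, c)) z then wc c.1 * F (jo (o, c)) else 0)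
      fun c hc => ?_
    rw [cz_range hd hlt o]
    by_contra hcon
    exact hc (if_neg hcon)
  rw [← h1, ENNReal.tsum_prod']
  refine tsum_congr fun m => tsum_congr fun c => ?_
  rw [if_pos ((cz_range hd hlt o _).1 ⟨_, rfl⟩), wc_cz, jo_cz, mul_assoc]

/-- g does not see the cap of y -/
def OutJ (d : Pt) (y : Pt × Pt) (g : List Bool → ℝ≥0∞) : Prop :=
  ∀ (o : OO d y) (c c' : CC d y), g (jo (o, c)) = g (jo (o, c'))

lemma OutJ.of {d : Pt} {y : Pt × Pt} {g : List Bool → ℝ≥0∞} (h : ∀ A, OutA d A g) : OutJ d y g :=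
  fun o c c' => h {y} y rfl _ _ (jo_same o c c')

lemma Bw_at {d : Pt} {y : Pt × Pt} {g : List Bool → ℝ≥0∞} (h : OutJ d y g) (c0 : CC d y) (o : OO d y) :
    ⨆ c : CC d y, wE o.1 * g (jo (o, c)) = wE o.1 * g (jo (o, c0)) := by
  have : Nonempty (CC d y) := ⟨c0⟩
  have h1 : ∀ c : CC d y, wE o.1 * g (jo (o, c)) = wE o.1 * g (jo (o, c0)) := fun c => by rw [h o c c0]
  simp only [h1]
  exact ciSup_const

lemma Bw_none {d : Pt} {y : Pt × Pt} (g : List Bool → ℝ≥0∞) (h : ¬ Nonempty (CC d y)) : Bw d g y = 0 := by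
  have := not_nonempty_iff.1 h
  unfold Bw
  simp

lemma capW_none {d : Pt} {y : Pt × Pt} (h : ¬ Nonempty (CC d y)) : capW d y = 0 := by
  have := not_nonempty_iff.1 h
  unfold capW
  simp

open Classical in
/-- **two double cut rows** -/
theorem mass2 {d : Pt} (hd : d ∈ dirs) {z y : Pt × Pt} (hlt : ip y.1 d < ip z.1 d) {g : List Bool → ℝ≥0∞}
    (hg : OutJ d y g) :
    ∑' w, (if CutA d w z ∧ CutA d w y then wm d g w else 0) = capW d z * midW d z y * Bw d g y := by
  rw [sum_cutE hd (z := y) fun w hw => if_neg fun h => hw h.2]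
  by_cases hne : Nonempty (CC d y)
  swap
  · rw [Bw_none g hne, mul_zero]
    have := not_nonempty_iff.1 hne
    simp
  obtain ⟨c0⟩ := hne
  unfold Bw
  rw [← ENNReal.tsum_mul_left]
  refine tsum_congr fun o => ?_
  rw [Bw_at hg c0]
  have h1 : ∀ c : CC d y, (if CutA d (jo (o, c)) z ∧ CutA d (jo (o, c)) y then wm d g (jo (o, c)) else 0) =
      if CutA d (jo (o, c)) z then wc c.1 * (wE o.1 * g (jo (o, c0))) else 0 := by
    intro c
    have h2 : CutA d (jo (o, c)) y := jo_range.1 ⟨_, rfl⟩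
    rw [wm_jo hd, hg o c c0]
    by_cases h3 : CutA d (jo (o, c)) z
    · rw [if_pos ⟨h3, h2⟩, if_pos h3]
    · rw [if_neg (fun h => h3 h.1), if_neg h3]
  rw [tsum_congr h1, jo_two hd hlt o (fun _ => wE o.1 * g (jo (o, c0)))]
  have h4 : ∀ m : MM d z y, ∑' c : CC d z, wc m.1 * (wc c.1 * (wE o.1 * g (jo (o, c0)))) =
      wc m.1 * (capW d z * (wE o.1 * g (jo (o, c0)))) := by
    intro m
    unfold capW
    rw [ENNReal.tsum_mul_left, ENNReal.tsum_mul_right]
  rw [tsum_congr h4, ENNReal.tsum_mul_right]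
  unfold midW
  ring

open Classical in
/-- **three double cut rows** -/
theorem mass3 {d : Pt} (hd : d ∈ dirs) {x z y : Pt × Pt} (hxz : ip z.1 d < ip x.1 d) (hlt : ip y.1 d < ip z.1 d)
    {g : List Bool → ℝ≥0∞} (hg : OutJ d y g) :
    ∑' w, (if CutA d w x ∧ CutA d w z ∧ CutA d w y then wm d g w else 0) =
      capW d x * midW d x z * midW d z y * Bw d g y := by
  rw [sum_cutE hd (z := y) fun w hw => if_neg fun h => hw h.2.2]
  by_cases hne : Nonempty (CC d y)
  swap
  · rw [Bw_none g hne, mul_zero]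
    have := not_nonempty_iff.1 hne
    simp
  obtain ⟨c0⟩ := hne
  unfold Bw
  rw [← ENNReal.tsum_mul_left]
  refine tsum_congr fun o => ?_
  rw [Bw_at hg c0]
  obtain ⟨γ, hγ⟩ : ∃ γ, γ = wE o.1 * g (jo (o, c0)) := ⟨_, rfl⟩
  rw [← hγ]
  have h1 : ∀ c : CC d y, (if CutA d (jo (o, c)) x ∧ CutA d (jo (o, c)) z ∧ CutA d (jo (o, c)) y then
      wm d g (jo (o, c)) else 0) =
      if CutA d (jo (o, c)) z then wc c.1 * (if CutA d (jo (o, c)) x then γ else 0) else 0 := by
    intro c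
    have h2 : CutA d (jo (o, c)) y := jo_range.1 ⟨_, rfl⟩
    rw [wm_jo hd, hg o c c0, ← hγ]
    by_cases h3 : CutA d (jo (o, c)) z
    · rw [if_pos h3]
      by_cases h4 : CutA d (jo (o, c)) x
      · rw [if_pos ⟨h4, h3, h2⟩, if_pos h4]
      · rw [if_neg (fun h => h4 h.1), if_neg h4, mul_zero]
    · rw [if_neg (fun h => h3 h.2.1), if_neg h3]
  rw [tsum_congr h1, jo_two hd hlt o (fun w => if CutA d w x then γ else 0)]
  have h4 : ∀ m : MM d z y, ∑' c : CC d z, wc m.1 * (wc c.1 * (if CutA d (jo (oz m o, c)) x then γ else 0)) =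
      wc m.1 * (capW d x * midW d x z * γ) := by
    intro m
    rw [ENNReal.tsum_mul_left]
    congr 1
    have h5 : ∀ c : CC d z, wc c.1 * (if CutA d (jo (oz m o, c)) x then γ else 0) =
        if CutA d (jo (oz m o, c)) x then wc c.1 * γ else 0 := by
      intro c
      by_cases h : CutA d (jo (oz m o, c)) x
      · rw [if_pos h, if_pos h]
      · rw [if_neg h, if_neg h, mul_zero]
    rw [tsum_congr h5, jo_two hd hxz (oz m o) (fun _ => γ)]
    have h6 : ∀ m' : MM d x z, ∑' c : CC d x, wc m'.1 * (wc c.1 * γ) = wc m'.1 * (capW d x * γ) := by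
      intro m'
      unfold capW
      rw [ENNReal.tsum_mul_left, ENNReal.tsum_mul_right]
    rw [tsum_congr h6, ENNReal.tsum_mul_right]
    unfold midW
    ring
  rw [tsum_congr h4, ENNReal.tsum_mul_right]
  unfold midW
  ring

end ART

end HexObs
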