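import Pool.Agent.ROT.RFin
import Pool.Agent.ROT.KerP0
import Pool.Agent.ROT.KerM
import Pool.Agent.ROT.CapSide
import Pool.Agent.ROT.SumUU

/-!
# ROT, linear response, (H1), (H2), bounds of the kernel (helper43, for helper55's KerP)

* `kap l` = (uu (2 ^ l) / 2 ^ l) ^ 2 (`MM`, `midW` are in KerP0);
* **`midW_up`**, **`midW_low`** : between the windows l and l + J the kernel is kap l up to constants;
* **`midW_ks`** : the sum over the deeper states of the same window is at most C 2 ^ (l / 2).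
-/

set_option autoImplicit false

open scoped ENNReal

namespace HexObs

namespace ART

open Pool.Agent.ROT

/-- the size of the kernel at the level l -/
noncomputable def kap (l : ℕ) : ℝ := (uu (2 ^ l) / 2 ^ l) ^ 2

/-! ### the levels -/

/-- the levels of the two states -/
lemma mid_h {d : Pt} (hd : d ∈ dirs) {z y : Pt × Pt} {M1 M2 : List Bool} (H : Mid d z y M1 M2) :
    ∃ h : ℕ, 1 ≤ h ∧ ip z.1 d = ip y.1 d + 3 * h := by
  have hnd := ROT.neg_dirs hd
  have he : Even M1.length := even_of_up hnd H.hd1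
  have h1 := ROT.ip_vxn hd z.1 M1 M1.length
  rw [H.en1] at h1
  have h2 := HexObs.lev_mod M1 M1.length
  rw [if_pos he, sub_zero] at h2
  have h3 := H.lt
  obtain ⟨k, hk⟩ := h2
  refine ⟨k.toNat, by omega, by omega⟩

/-- the mass of the legs is the kernel of ROT.Ker2 -/
lemma midW_eq {d : Pt} (hd : d ∈ dirs) {z y : Pt × Pt} {h : ℕ} (hh : 1 ≤ h) (hz : ip z.1 d = ip z.2 d)
    (hy : ip y.1 d = ip y.2 d) (hzy : ip z.1 d = ip y.1 d + 3 * h) :
    midW d z y = ROT.KM d z.1 z.2 y.1 y.2 h := by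
  unfold midW ROT.KM
  let e : MM d z y ≃ ROT.Mid d z.1 z.2 y.1 y.2 h :=
    Equiv.subtypeEquivRight fun m => ROT.mid_iff hd hh hz hy hzy m.1 m.2
  exact (e.tsum_eq fun p : ROT.Mid d z.1 z.2 y.1 y.2 h =>
    wE (p : List Bool × List Bool).1 * wE (p : List Bool × List Bool).2).symm ▸ rfl

/-- no legs, or the kernel -/
lemma midW_cases {d : Pt} (hd : d ∈ dirs) (z y : Pt × Pt) : midW d z y = 0 ∨ ∃ h : ℕ, 1 ≤ h ∧ ip z.1 d = ip z.2 d ∧
    ip y.1 d = ip y.2 d ∧ ip z.1 d = ip y.1 d + 3 * h ∧ midW d z y = ROT.KM d z.1 z.2 y.1 y.2 h := by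
  rcases isEmpty_or_nonempty (MM d z y) with hE | ⟨⟨m, hm⟩⟩
  · left
    unfold midW
    exact tsum_empty
  · right
    obtain ⟨h, hh, hzy⟩ := mid_h hd hm
    exact ⟨h, hh, hm.levz, hm.levy, hzy, midW_eq hd hh hm.levz hm.levy hzy⟩

/-- the depth of a state with a positive depth -/
lemma dpt_ip {d : Pt} {z : Pt × Pt} (h : 1 ≤ dpt d z) : ip z.1 d = -(dpt d z : ℤ) := by
  unfold dpt at *
  omega

/-- the distance of the levels of two windows -/
lemma wnd_h {d : Pt} {V : ℕ → ℕ → Finset (Pt × Pt)} (hV : Wnd d V) {r J l : ℕ} (hrJ : r < 2 ^ J) {z' z : Pt × Pt}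
    (hz' : z' ∈ V r l) (hz : z ∈ V r (l + J)) {h : ℕ} (hzy : ip z'.1 d = ip z.1 d + 3 * h) :
    2 ^ l ≤ 3 * h ∧ 3 * h ≤ r * 2 ^ J * 2 ^ l := by
  have a1 := hV.lo r l z' hz'
  have a2 := hV.up r l z' hz'
  have a3 := hV.lo r (l + J) z hz
  have a4 := hV.up r (l + J) z hz
  have p1 : 1 ≤ 2 ^ l := Nat.one_le_two_pow
  have p2 : 1 ≤ 2 ^ (l + J) := Nat.one_le_two_pow
  have e1 := dpt_ip (p1.trans a1)
  have e2 := dpt_ip (p2.trans a3)
  have e3 : dpt d z = dpt d z' + 3 * h := by omega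
  have e4 : 2 ^ (l + J) = 2 ^ J * 2 ^ l := by rw [pow_add, mul_comm]
  have e5 : (r + 1) * 2 ^ l ≤ 2 ^ J * 2 ^ l := Nat.mul_le_mul_right _ hrJ
  rw [e4] at a3 a4
  rw [mul_assoc]
  have e6 : (r + 1) * 2 ^ l = r * 2 ^ l + 2 ^ l := by ring
  constructor
  · omega
  · omega

/-! ### 1. The upper bound -/

/-- **the upper bound of the kernel** -/
theorem midW_up (r J : ℕ) (hrJ : r < 2 ^ J) : ∃ C : ℝ, 0 < C ∧ ∀ d ∈ dirs, ∀ V : ℕ → ℕ → Finset (Pt × Pt), Wnd d V →
    ∀ l, ∀ z' ∈ V r l, ∀ z ∈ V r (l + J), midW d z' z ≤ ENNReal.ofReal (C * kap l) := by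
  obtain ⟨C1, hC1, h1⟩ := ROT.KM_up
  obtain ⟨C2, hC2, h2⟩ := SumUU.uu_comp 3
  refine ⟨C1 * (C2 * 3) ^ 2, by positivity, fun d hd V hV l z' hz' z hz => ?_⟩
  rcases midW_cases hd z' z with h0 | ⟨h, hh, -, -, hzy, he⟩
  · rw [h0]
    exact zero_le
  · rw [he]
    refine (h1 d hd _ _ _ _ h hh).trans (ENNReal.ofReal_le_ofReal ?_)
    obtain ⟨k1, -⟩ := wnd_h hV hrJ hz' hz hzy
    have a1 := h2 h (2 ^ l) hh k1
    have hh0 : (0 : ℝ) < h := by exact_mod_cast hh
    have hp : (0 : ℝ) < 2 ^ l := by positivity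
    have a2 : uu h / h ≤ C2 * 3 * (uu (2 ^ l) / 2 ^ l) := by
      have k1r : (2 : ℝ) ^ l ≤ 3 * h := by exact_mod_cast k1
      have hu := uu_pos (2 ^ l)
      calc uu h / h ≤ (C2 * uu (2 ^ l)) / h := by gcongr
        _ ≤ (C2 * uu (2 ^ l)) / (2 ^ l / 3) := by
            apply div_le_div_of_nonneg_left (by positivity) (by positivity)
            linarith
        _ = C2 * 3 * (uu (2 ^ l) / 2 ^ l) := by
            field_simp
    have hu0 : 0 ≤ uu h / h := div_nonneg (uu_pos h).le hh0.le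
    calc C1 * (uu h / h) ^ 2 ≤ C1 * (C2 * 3 * (uu (2 ^ l) / 2 ^ l)) ^ 2 := by gcongr
      _ = C1 * (C2 * 3) ^ 2 * kap l := by
          unfold kap
          ring

/-! ### 2. The lower bound -/

/-- the lateral coordinate and the hexagonal norm -/
lemma xd_hn {d : Pt} (hd : d ∈ dirs) (p : Pt) : |ROT.xd d p| ≤ TIW.hn p := by
  have e : 3 * ROT.xd d p = ip p (rotR d) - ip p (rotL d) ∨ 3 * ROT.xd d p = ip p (rotL d) - ip p (rotR d) := by
    left
    unfold ROT.xd cross ip rotR rotL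
    ring
  have a1 := TIW.ip_le_hn p (rotL_mem hd)
  have a2 := TIW.neg_hn_le_ip p (rotL_mem hd)
  have a3 := TIW.ip_le_hn p (rotR_mem hd)
  have a4 := TIW.neg_hn_le_ip p (rotR_mem hd)
  have a5 := TIW.hn_nonneg p
  rw [abs_le]
  rcases e with e | e <;> constructor <;> omega

/-- on a row the norm is 3 / 2 of the lateral coordinate -/
lemma hn_row {d : Pt} (hd : d ∈ dirs) {p : Pt} (h : ip p d = 0) : 2 * TIW.hn p ≤ 3 * |ROT.xd d p| := by
  have e1 : 3 * ROT.xd d p = ip p (rotR d) - ip p (rotL d) := by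
    unfold ROT.xd cross ip rotR rotL
    ring
  have e2 : ip p d = ip p (rotR d) + ip p (rotL d) := by
    unfold ip rotR rotL
    ring
  obtain ⟨D, hD, hle⟩ : ∃ D ∈ dirs, TIW.hn p ≤ ip p D := by
    by_contra hcon
    push Not at hcon
    have := TIW.hn_le (p := p) (c := TIW.hn p - 1) fun d hd => by have := hcon d hd; omega
    omega
  have key : ∀ d ∈ dirs, ∀ D ∈ dirs, D = d ∨ D = -d ∨ D = rotL d ∨ D = -(rotL d) ∨ D = rotR d ∨ D = -(rotR d) := by
    decide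
  have h5 : |ROT.xd d p| = ROT.xd d p ∨ |ROT.xd d p| = -ROT.xd d p := abs_choice _
  have h6 := abs_nonneg (ROT.xd d p)
  have h7 := le_abs_self (ROT.xd d p)
  have h8 := neg_le_abs (ROT.xd d p)
  rcases key d hd D hD with rfl | rfl | rfl | rfl | rfl | rfl
  · omega
  · rw [ip_neg_right] at hle
    omega
  · omega
  · rw [ip_neg_right] at hle
    omega
  · omega
  · rw [ip_neg_right] at hle
    omega

/-- the class of the upper end of a state with a cap depends only on the direction -/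
lemma cap_mod {d : Pt} (_hd : d ∈ dirs) {z y : Pt × Pt} {R S R' S' : List Bool} (hC : Cap d z R S) (hC' : Cap d y R' S') :
    (3 : ℤ) ∣ ip z.1 d - ip y.1 d := by
  have key : ∀ {z : Pt × Pt} {R S : List Bool}, Cap d z R S → cl z.1 = if cl (-d) = cl up then 0 else cl up := by
    intro z R S hC
    have h1 := cl_vx oo up R R.length
    have h2 := cl_dx up R R.length
    rw [hC.enR] at h1
    rw [hC.hdR] at h2
    have h3 : cl oo = 0 := by decide
    have h4 : cl up ≠ -cl up := by decide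
    by_cases he : Even R.length
    · rw [if_pos he] at h1 h2
      rw [h1, h3, if_pos h2]
    · rw [if_neg he] at h1 h2
      rw [h1, h3, zero_add, if_neg]
      rw [h2]
      exact h4.symm
  have h1 := ip_mod z.1 d
  have h2 := ip_mod y.1 d
  rw [key hC] at h1
  rw [key hC'] at h2
  have h3 : ((ip z.1 d - ip y.1 d : ℤ) : ZMod 3) = 0 := by
    push_cast
    rw [h1, h2, sub_self]
  exact (ZMod.intCast_zmod_eq_zero_iff_dvd _ 3).1 h3

/-- **the lower bound of the kernel** -/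
theorem midW_low (r J : ℕ) (hrJ : r < 2 ^ J) : ∃ (c : ℝ) (l1 : ℕ), 0 < c ∧ ∀ d ∈ dirs,
    ∀ V : ℕ → ℕ → Finset (Pt × Pt), Wnd d V → (∀ r l, ∀ z ∈ V r l, (2 : ℤ) ^ l ≤ r * TIW.hn (z.1 - z.2)) →
    ∀ l, l1 ≤ l → ∀ z' ∈ V r l, ∀ z ∈ V r (l + J), Nonempty (CC d z') → Nonempty (CC d z) →
      ENNReal.ofReal (c * kap l) ≤ midW d z' z := by
  rcases Nat.eq_zero_or_pos r with hr0 | hr0
  · refine ⟨1, 0, one_pos, fun d hd V hV _ l _ z' hz' => ?_⟩
    exfalso
    have a1 := hV.lo r l z' hz'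
    have a2 := hV.up r l z' hz'
    have p1 : 1 ≤ 2 ^ l := Nat.one_le_two_pow
    rw [hr0, zero_mul] at a2
    omega
  · have hr : (0 : ℝ) < r := by exact_mod_cast hr0
    have hJ : (0 : ℝ) < 2 ^ J := by positivity
    obtain ⟨ρ, hρd⟩ : ∃ ρ : ℝ, ρ = 2 / (r ^ 2 * 2 ^ J) := ⟨_, rfl⟩
    have hρ : 0 < ρ := by rw [hρd]; positivity
    obtain ⟨c1, h0, hc1, h1⟩ := ROT.KM_low (3 * r * (1 + 2 ^ J)) hρ
    obtain ⟨C2, hC2, h2⟩ := SumUU.uu_comp (r * 2 ^ J)
    refine ⟨c1 / (C2 * (r * 2 ^ J)) ^ 2, 3 * h0, by positivity, fun d hd V hV hG l hl z' hz' z hz hc' hc => ?_⟩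
    obtain ⟨⟨⟨R', S'⟩, hC'⟩⟩ := hc'
    obtain ⟨⟨⟨R, S⟩, hC⟩⟩ := hc
    simp only at hC hC'
    -- the levels
    have a1 := hV.lo r l z' hz'
    have a2 := hV.up r l z' hz'
    have a3 := hV.lo r (l + J) z hz
    have a4 := hV.up r (l + J) z hz
    have p1 : 1 ≤ 2 ^ l := Nat.one_le_two_pow
    have p2 : 1 ≤ 2 ^ (l + J) := Nat.one_le_two_pow
    have e1 := dpt_ip (p1.trans a1)
    have e2 := dpt_ip (p2.trans a3)
    have e4 : 2 ^ (l + J) = 2 ^ J * 2 ^ l := by rw [pow_add, mul_comm]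
    have e5 : (r + 1) * 2 ^ l ≤ 2 ^ J * 2 ^ l := Nat.mul_le_mul_right _ hrJ
    have e6 : (r + 1) * 2 ^ l = r * 2 ^ l + 2 ^ l := by ring
    obtain ⟨k, hk⟩ := cap_mod hd hC' hC
    have hk0 : 0 < k := by
      rw [e4] at a3
      omega
    obtain ⟨h, rfl⟩ : ∃ h : ℕ, k = h := ⟨k.toNat, by omega⟩
    have hh : 1 ≤ h := by omega
    have hzy : ip z'.1 d = ip z.1 d + 3 * h := by omega
    obtain ⟨k1, k2⟩ := wnd_h hV hrJ hz' hz hzy
    rw [midW_eq hd hh hC'.lev hC.lev hzy]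
    have hh0 : (0 : ℝ) < h := by exact_mod_cast hh
    have k1r : (2 : ℝ) ^ l ≤ 3 * h := by exact_mod_cast k1
    have k2r : 3 * (h : ℝ) ≤ r * 2 ^ J * 2 ^ l := by exact_mod_cast k2
    have hlb : h0 ≤ h := by
      have h3 : l < 2 ^ l := Nat.lt_two_pow_self
      omega
    have b1 := hV.h1 r l z' hz'
    have b2 := hV.h2 r l z' hz'
    have b3 := hV.h1 r (l + J) z hz
    have b4 := hV.h2 r (l + J) z hz
    have hx : ∀ p q : Pt, TIW.hn p ≤ (r * 2 ^ l : ℕ) → TIW.hn q ≤ (r * 2 ^ (l + J) : ℕ) →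
        |ROT.xd d p - ROT.xd d q| ≤ ((3 * r * (1 + 2 ^ J) : ℕ) : ℤ) * h := by
      intro p q hp hq
      have x1 := abs_le.1 (xd_hn hd p)
      have x2 := abs_le.1 (xd_hn hd q)
      have x3 : ((r * 2 ^ l : ℕ) : ℤ) + ((r * 2 ^ (l + J) : ℕ) : ℤ) ≤ ((3 * r * (1 + 2 ^ J) : ℕ) : ℤ) * h := by
        have x4 : r * 2 ^ l + r * 2 ^ (l + J) ≤ 3 * r * (1 + 2 ^ J) * h := by
          rw [e4]
          calc r * 2 ^ l + r * (2 ^ J * 2 ^ l) = r * (1 + 2 ^ J) * 2 ^ l := by ring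
            _ ≤ r * (1 + 2 ^ J) * (3 * h) := Nat.mul_le_mul_left _ k1
            _ = 3 * r * (1 + 2 ^ J) * h := by ring
        exact_mod_cast x4
      rw [abs_le]
      constructor <;> linarith [x1.1, x1.2, x2.1, x2.2]
    -- the gaps
    have hgap : ∀ (y : Pt × Pt) (L : ℕ), ip y.1 d = ip y.2 d → (2 : ℤ) ^ L ≤ r * TIW.hn (y.1 - y.2) →
        (2 : ℝ) ^ l ≤ 2 ^ L → ρ * h ≤ |((cross d (y.1 - y.2) : ℤ) : ℝ)| := by
      intro y L hlev hg hL
      have g0 : ip (y.1 - y.2) d = 0 := by rw [ip_sub_left, hlev, sub_self]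
      have g1 := hn_row hd g0
      have g2 : |ROT.xd d (y.1 - y.2)| = |cross d (y.1 - y.2)| := by
        unfold ROT.xd
        rw [abs_neg]
      rw [g2] at g1
      have g3 : (2 : ℝ) * (TIW.hn (y.1 - y.2) : ℝ) ≤ 3 * |((cross d (y.1 - y.2) : ℤ) : ℝ)| := by
        have : ((2 * TIW.hn (y.1 - y.2) : ℤ) : ℝ) ≤ ((3 * |cross d (y.1 - y.2)| : ℤ) : ℝ) := by exact_mod_cast g1
        push_cast at this
        exact this
      have g4 : (2 : ℝ) ^ L ≤ r * (TIW.hn (y.1 - y.2) : ℝ) := by exact_mod_cast hg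
      have g5 : ρ * h * (3 * r) ≤ 2 * (r * (TIW.hn (y.1 - y.2) : ℝ)) := by
        have g6 : ρ * h * (3 * r) = 2 * (3 * h) / (r * 2 ^ J) := by
          rw [hρd]
          field_simp
        have g7 : 2 * (3 * (h : ℝ)) / (r * 2 ^ J) ≤ 2 * 2 ^ l := by
          rw [div_le_iff₀ (by positivity)]
          nlinarith
        linarith
      nlinarith
    have hLJ : (2 : ℝ) ^ l ≤ 2 ^ (l + J) := pow_le_pow_right₀ (by norm_num) (by omega)
    have g1 := hgap z' l hC'.lev (hG r l z' hz') le_rfl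
    have g2 := hgap z (l + J) hC.lev (hG r (l + J) z hz) hLJ
    have s1 := cap_side hd hC'
    have s2 := cap_side hd hC
    have hxd : ∀ y : Pt × Pt, ROT.xd d y.2 - ROT.xd d y.1 = cross d (y.1 - y.2) := by
      intro y
      unfold ROT.xd cross
      simp only [Prod.fst_sub, Prod.snd_sub]
      ring
    have hsg : ∀ y : Pt × Pt, ROT.xd d y.1 - ROT.xd d y.2 = -cross d (y.1 - y.2) := by
      intro y
      rw [← hxd y]
      ring
    have hm := h1 d hd z'.1 z'.2 z.1 z.2 h hlb hzy (by rw [← hC'.lev, ← hC.lev]; exact hzy) hC.lev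
      (hx _ _ b1 b3) (hx _ _ b2 b4) (by
        rw [hxd z, hxd z', hsg z, hsg z']
        have hs : sig d = -1 ∨ sig d = 1 := by
          unfold sig
          split_ifs
          · exact Or.inl rfl
          · exact Or.inr rfl
        rcases hs with hs | hs
        · right
          rw [hs] at s1 s2
          have t1 : cross d (z'.1 - z'.2) < 0 := by linarith
          have t2 : cross d (z.1 - z.2) < 0 := by linarith
          have t3 : ((cross d (z'.1 - z'.2) : ℤ) : ℝ) < 0 := by exact_mod_cast t1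
          have t4 : ((cross d (z.1 - z.2) : ℤ) : ℝ) < 0 := by exact_mod_cast t2
          rw [abs_of_neg t3] at g1
          rw [abs_of_neg t4] at g2
          push_cast
          exact ⟨g2, g1⟩
        · left
          rw [hs] at s1 s2
          have t1 : 0 < cross d (z'.1 - z'.2) := by linarith
          have t2 : 0 < cross d (z.1 - z.2) := by linarith
          have t3 : 0 < ((cross d (z'.1 - z'.2) : ℤ) : ℝ) := by exact_mod_cast t1
          have t4 : 0 < ((cross d (z.1 - z.2) : ℤ) : ℝ) := by exact_mod_cast t2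
          rw [abs_of_pos t3] at g1
          rw [abs_of_pos t4] at g2
          exact ⟨g2, g1⟩)
    refine le_trans (ENNReal.ofReal_le_ofReal ?_) hm
    have hn2 : h ≤ r * 2 ^ J * 2 ^ l := by omega
    have b5 := h2 (2 ^ l) h p1 hn2
    have hp : (0 : ℝ) < 2 ^ l := by positivity
    have b6 : uu (2 ^ l) / 2 ^ l ≤ C2 * (r * 2 ^ J) * (uu h / h) := by
      have hu := uu_pos h
      have k3 : (h : ℝ) / (r * 2 ^ J) ≤ 2 ^ l := by
        rw [div_le_iff₀ (by positivity)]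
        nlinarith
      calc uu (2 ^ l) / 2 ^ l ≤ (C2 * uu h) / 2 ^ l := by gcongr
        _ ≤ (C2 * uu h) / (h / (r * 2 ^ J)) := by
            apply div_le_div_of_nonneg_left (by positivity) (by positivity) k3
        _ = C2 * (r * 2 ^ J) * (uu h / h) := by
            field_simp
    have hu0 : 0 ≤ uu (2 ^ l) / 2 ^ l := div_nonneg (uu_pos _).le hp.le
    calc c1 / (C2 * (r * 2 ^ J)) ^ 2 * kap l ≤ c1 / (C2 * (r * 2 ^ J)) ^ 2 * (C2 * (r * 2 ^ J) * (uu h / h)) ^ 2 := by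
          unfold kap
          gcongr
      _ = c1 * (uu h / h) ^ 2 := by
          field_simp

/-! ### 3. The sum over the deeper states -/

/-- **the sum over the deeper states of the same window** -/
theorem midW_ks (r : ℕ) : ∃ C : ℝ, 0 < C ∧ ∀ d ∈ dirs, ∀ V : ℕ → ℕ → Finset (Pt × Pt), Wnd d V → ∀ l, ∀ z'' ∈ V r l,
    ∑ z' ∈ V r l with dpt d z'' < dpt d z', (midW d z'' z').toReal ≤ C * (2 : ℝ) ^ ((l : ℝ) / 2) := by
  obtain ⟨C, hC, h⟩ := SumUU.sum_uuq_sqrt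
  refine ⟨C * √(r : ℝ) + 1, by positivity, fun d hd V hV l z'' hz'' => ?_⟩
  have a1 := hV.lo r l z'' hz''
  have a2 := hV.up r l z'' hz''
  have p1 : 1 ≤ 2 ^ l := Nat.one_le_two_pow
  have hn : 1 ≤ r * 2 ^ l := by omega
  obtain ⟨F, hF⟩ : ∃ F, F = (V r l).filter fun z' => dpt d z'' < dpt d z' := ⟨_, rfl⟩
  rw [← hF]
  have key : ∑ z' ∈ F, midW d z'' z' ≤ ENNReal.ofReal (C * √((r * 2 ^ l : ℕ) : ℝ)) := by
    have k1 : ∀ z' ∈ F, midW d z'' z' ≤ ∑ k ∈ Finset.range (r * 2 ^ l + 1), ROT.KM d z''.1 z''.2 z'.1 z'.2 k := by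
      intro z' hz'
      rw [hF, Finset.mem_filter] at hz'
      rcases midW_cases hd z'' z' with h0 | ⟨k, hk, -, -, hzy, he⟩
      · rw [h0]
        exact zero_le
      · rw [he]
        have b1 := hV.lo r l z' hz'.1
        have b2 := hV.up r l z' hz'.1
        have e1 := dpt_ip (p1.trans a1)
        have e2 := dpt_ip (p1.trans b1)
        exact Finset.single_le_sum (f := fun k => ROT.KM d z''.1 z''.2 z'.1 z'.2 k) (fun _ _ => zero_le)
          (Finset.mem_range.2 (by omega))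
    refine (Finset.sum_le_sum k1).trans ?_
    rw [Finset.sum_comm]
    have k2 : ∀ k ∈ Finset.range (r * 2 ^ l + 1), ∑ z' ∈ F, ROT.KM d z''.1 z''.2 z'.1 z'.2 k ≤
        ENNReal.ofReal (uu k ^ 2) := fun k _ => (ENNReal.sum_le_tsum F).trans (ROT.KM_sum_low d z''.1 z''.2 k)
    refine (Finset.sum_le_sum k2).trans ?_
    rw [← ENNReal.ofReal_sum_of_nonneg fun _ _ => sq_nonneg _]
    exact ENNReal.ofReal_le_ofReal (h _ hn)
  have hfin : ∀ z' ∈ F, midW d z'' z' ≠ ⊤ := fun z' hz' =>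
    ne_top_of_le_ne_top ENNReal.ofReal_ne_top ((Finset.single_le_sum (f := fun z' => midW d z'' z')
      (fun _ _ => zero_le) hz').trans key)
  rw [← ENNReal.toReal_sum hfin]
  have h3 := ENNReal.toReal_le_of_le_ofReal (by positivity) key
  refine h3.trans ?_
  have h4 : √((r * 2 ^ l : ℕ) : ℝ) = √(r : ℝ) * (2 : ℝ) ^ ((l : ℝ) / 2) := by
    push_cast
    rw [Real.sqrt_mul (Nat.cast_nonneg r)]
    congr 1
    rw [Real.sqrt_eq_rpow, ← Real.rpow_natCast 2 l, ← Real.rpow_mul (by norm_num)]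
    congr 1
    ring
  rw [h4]
  have h5 : 0 < (2 : ℝ) ^ ((l : ℝ) / 2) := by positivity
  nlinarith

end ART

end HexObs
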