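import Mathlib

/-!
Heat bath kernels on a discrete set (ROT, block E, abstract part).

`Ω` is the set of configurations, `b ω` is the part of the configuration which a swap does not change (everything
outside the strip, the boundary datum and the inner pairing), `G` the set of good data (a strip which contains a
closed loop is bad), `W` and `W'` are the weights before and after the swap.  The strip identity says that the two
weights have the same sums over the fibres of `b`.
-/

set_option autoImplicit false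

open scoped ENNReal

namespace ROTK

variable {Ω B : Type*}

open Classical in
/-- the mass of a fibre. -/
noncomputable def fm (W : Ω → ℝ≥0∞) (b : Ω → B) (β : B) : ℝ≥0∞ := ∑' ω, if b ω = β then W ω else 0

open Classical in
/-- **the heat bath kernel** with the target weight `W'`: resample the configuration given `b`; configurations with
a bad datum are killed. -/
noncomputable def hb (W' : Ω → ℝ≥0∞) (b : Ω → B) (G : Set B) (ω ω' : Ω) : ℝ≥0∞ :=
  if b ω' = b ω ∧ b ω ∈ G then W' ω' / fm W' b (b ω) else 0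

/-- the fibre identity on the good data. -/
structure FI (W W' : Ω → ℝ≥0∞) (b : Ω → B) (G : Set B) : Prop where
  eq : ∀ β ∈ G, fm W b β = fm W' b β
  fin : ∀ β ∈ G, fm W b β ≠ ∞

variable {W W' W'' : Ω → ℝ≥0∞} {b : Ω → B} {G : Set B}

theorem FI.symm (h : FI W W' b G) : FI W' W b G :=
  ⟨fun β hβ => (h.eq β hβ).symm, fun β hβ => (h.eq β hβ) ▸ h.fin β hβ⟩

theorem FI.trans (h : FI W W' b G) (h' : FI W' W'' b G) : FI W W'' b G :=
  ⟨fun β hβ => (h.eq β hβ).trans (h'.eq β hβ), h.fin⟩

theorem le_fm (W : Ω → ℝ≥0∞) (b : Ω → B) (ω : Ω) : W ω ≤ fm W b (b ω) := by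
  classical
  have h := ENNReal.le_tsum (f := fun x => if b x = b ω then W x else 0) ω
  simp only [if_true] at h
  unfold fm
  convert h using 1

theorem fm_ne_zero {ω : Ω} (h : W ω ≠ 0) : fm W b (b ω) ≠ 0 := fun h0 =>
  h (le_antisymm ((le_fm W b ω).trans h0.le) bot_le)

/-- the kernel is a probability on the fibre of a good datum of positive finite mass. -/
theorem hb_mass {ω : Ω} (hG : b ω ∈ G) (h0 : fm W' b (b ω) ≠ 0) (h1 : fm W' b (b ω) ≠ ∞) :
    ∑' ω', hb W' b G ω ω' = 1 := by
  classical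
  have e : ∀ ω', hb W' b G ω ω' = (if b ω' = b ω then W' ω' else 0) * (fm W' b (b ω))⁻¹ := by
    intro ω'
    unfold hb
    by_cases h : b ω' = b ω
    · rw [if_pos ⟨h, hG⟩, if_pos h, div_eq_mul_inv]
    · rw [if_neg (fun h' => h h'.1), if_neg h, zero_mul]
  simp_rw [e]
  rw [ENNReal.tsum_mul_right]
  have : (∑' ω', if b ω' = b ω then W' ω' else 0) = fm W' b (b ω) := by
    unfold fm; congr
  rw [this]
  exact ENNReal.mul_inv_cancel h0 h1

/-- the kernel is sub-Markov. -/
theorem hb_le_one (W' : Ω → ℝ≥0∞) (b : Ω → B) (G : Set B) (ω : Ω) : ∑' ω', hb W' b G ω ω' ≤ 1 := by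
  classical
  by_cases hG : b ω ∈ G
  · by_cases h0 : fm W' b (b ω) = 0
    · have : ∀ ω', hb W' b G ω ω' = 0 := by
        intro ω'
        unfold hb
        split_ifs with h
        · have h1 : W' ω' = 0 := by
            have := le_fm W' b ω'
            rw [h.1, h0] at this
            exact le_antisymm this bot_le
          rw [h1, ENNReal.zero_div]
        · rfl
      simp [this]
    · by_cases h1 : fm W' b (b ω) = ∞
      · have : ∀ ω', hb W' b G ω ω' = 0 := by
          intro ω'
          unfold hb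
          split_ifs with h
          · rw [h1, ENNReal.div_top]
          · rfl
        simp [this]
      · exact (hb_mass hG h0 h1).le
  · have : ∀ ω', hb W' b G ω ω' = 0 := fun ω' => if_neg fun h => hG h.2
    simp [this]

open Classical in
/-- **the swap carries the weight `W` to the weight `W'`** (on the configurations with good data). -/
theorem hb_push (h : FI W W' b G) (ω' : Ω) :
    ∑' ω, W ω * hb W' b G ω ω' = if b ω' ∈ G then W' ω' else 0 := by
  have e : ∀ ω, W ω * hb W' b G ω ω' =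
      (if b ω = b ω' then W ω else 0) * (if b ω' ∈ G then W' ω' / fm W' b (b ω') else 0) := by
    intro ω
    unfold hb
    by_cases h1 : b ω = b ω'
    · rw [if_pos h1]
      by_cases h2 : b ω' ∈ G
      · rw [if_pos ⟨h1.symm, h1 ▸ h2⟩, if_pos h2, h1]
      · rw [if_neg (fun h' => h2 (h1 ▸ h'.2)), if_neg h2]
    · rw [if_neg h1, if_neg (fun h' => h1 h'.1.symm), mul_zero, zero_mul]
  simp_rw [e]
  rw [ENNReal.tsum_mul_right]
  have e2 : (∑' ω, if b ω = b ω' then W ω else 0) = fm W b (b ω') := by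
    unfold fm; congr
  rw [e2]
  split_ifs with h2
  · by_cases h0 : fm W b (b ω') = 0
    · have h3 : W' ω' = 0 := by
        have := le_fm W' b ω'
        rw [← h.eq _ h2, h0] at this
        exact le_antisymm this bot_le
      rw [h0, h3, zero_mul]
    · rw [← h.eq _ h2, ENNReal.mul_div_cancel h0 (h.fin _ h2)]
  · rw [mul_zero]

/-- **reversibility**: the reversed kernel is the heat bath with the target weight `W`. -/
theorem hb_rev (h : FI W W' b G) (ω ω' : Ω) : W ω * hb W' b G ω ω' = W' ω' * hb W b G ω' ω := by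
  unfold hb
  by_cases h1 : b ω' = b ω
  · by_cases h2 : b ω ∈ G
    · rw [if_pos ⟨h1, h2⟩, if_pos ⟨h1.symm, h1.symm ▸ h2⟩, h1, h.eq _ h2, div_eq_mul_inv, div_eq_mul_inv]
      ring
    · rw [if_neg (fun h' => h2 h'.2), if_neg (fun h' => h2 (h1 ▸ h'.2)), mul_zero, mul_zero]
  · rw [if_neg (fun h' => h1 h'.1), if_neg (fun h' => h1 h'.1.symm), mul_zero, mul_zero]

/-- the kernel does not change the datum. -/
theorem hb_datum {ω ω' : Ω} (h : hb W' b G ω ω' ≠ 0) : b ω' = b ω ∧ b ω ∈ G := by
  by_contra hc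
  exact h (if_neg hc)

/-- the kernel only depends on the datum. -/
theorem hb_congr {ω₁ ω₂ : Ω} (h : b ω₁ = b ω₂) (ω' : Ω) : hb W' b G ω₁ ω' = hb W' b G ω₂ ω' := by
  unfold hb
  rw [h]

/-! ### chains of kernels -/

/-- the kernel of a list of kernels. -/
noncomputable def comp : List (Ω → Ω → ℝ≥0∞) → Ω → Ω → ℝ≥0∞
  | [] => fun ω ω' => open Classical in if ω = ω' then 1 else 0
  | K :: l => fun ω ω' => ∑' x, K ω x * comp l x ω'

/-- the image of a weight under a kernel. -/
noncomputable def push (W : Ω → ℝ≥0∞) (K : Ω → Ω → ℝ≥0∞) (ω' : Ω) : ℝ≥0∞ := ∑' ω, W ω * K ω ω'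

theorem push_mono {W₁ W₂ : Ω → ℝ≥0∞} (h : ∀ ω, W₁ ω ≤ W₂ ω) (K : Ω → Ω → ℝ≥0∞) (ω' : Ω) :
    push W₁ K ω' ≤ push W₂ K ω' := ENNReal.tsum_le_tsum fun ω => mul_le_mul_left (h ω) _

theorem push_nil (W : Ω → ℝ≥0∞) : push W (comp []) = W := by
  classical
  funext ω'
  unfold push comp
  have e : ∀ ω, W ω * (if ω = ω' then (1 : ℝ≥0∞) else 0) = if ω = ω' then W ω' else 0 := by
    intro ω
    split_ifs with h
    · rw [h, mul_one]
    · rw [mul_zero]
  have e2 : (∑' ω, W ω * (if ω = ω' then (1 : ℝ≥0∞) else 0)) = W ω' := by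
    simp_rw [e]
    rw [tsum_ite_eq]
  convert e2

theorem comp_cons (K : Ω → Ω → ℝ≥0∞) (l : List (Ω → Ω → ℝ≥0∞)) (ω ω' : Ω) :
    comp (K :: l) ω ω' = ∑' x, K ω x * comp l x ω' := rfl

theorem push_cons (W : Ω → ℝ≥0∞) (K : Ω → Ω → ℝ≥0∞) (l : List (Ω → Ω → ℝ≥0∞)) :
    push W (comp (K :: l)) = push (push W K) (comp l) := by
  funext ω'
  unfold push
  simp_rw [comp_cons, ← ENNReal.tsum_mul_left, ← ENNReal.tsum_mul_right]
  rw [ENNReal.tsum_comm]
  refine tsum_congr fun x => tsum_congr fun ω => ?_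
  ring

/-- a list of kernels with mass at most one. -/
theorem comp_le_one {l : List (Ω → Ω → ℝ≥0∞)} (h : ∀ K ∈ l, ∀ ω, ∑' ω', K ω ω' ≤ 1) (ω : Ω) :
    ∑' ω', comp l ω ω' ≤ 1 := by
  classical
  induction l generalizing ω with
  | nil =>
    unfold comp
    have e2 : (∑' ω', (if ω = ω' then (1 : ℝ≥0∞) else 0)) = 1 := by
      rw [tsum_ite_eq' ω (fun _ => (1 : ℝ≥0∞))]
    refine le_of_eq ?_
    convert e2
  | cons K l ih =>
    unfold comp
    rw [ENNReal.tsum_comm]
    calc ∑' x, ∑' ω', K ω x * comp l x ω' = ∑' x, K ω x * ∑' ω', comp l x ω' := by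
          simp_rw [ENNReal.tsum_mul_left]
      _ ≤ ∑' x, K ω x * 1 := by
          refine ENNReal.tsum_le_tsum fun x => mul_le_mul_right (ih (fun K' h' => h K' (List.mem_cons_of_mem _ h')) x) _
      _ ≤ 1 := by simpa using h K List.mem_cons_self ω

end ROTK
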