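import Mathlib

/-!
# ROT, linear response: the assembly L6, definitions (helper28)

`PSys` : polygons in the square lattice picture of the honeycomb (coordinates (column, row)), with their weight,
their four heights and the local responses at the four extreme points.

`EXD`  : exact side: column form minus row form of `Md F` (block L, 72), error `-> 0` uniformly over a `C^2` ball;
`LR3F` : asymptotic independence of the local responses (LR3) in families;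
`Near` : a polygon of extent `>= d0 N` comes within `η N` of the origin: mass `-> 0` as `η -> 0`;
`Mass` : mass of the polygons of size `~ η N` with a given corner is `~ N^-2`;
output `Flow` : the pattern functions are asymptotically invariant under the linear field `x ↦ B x` (block I, 11).
-/

set_option autoImplicit false

open Finset

namespace Pool.Agent.ROT.L6

/-! ### test functions -/

/-- bounded with bounded Lipschitz derivative -/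
structure C2 {E : Type*} [NormedAddCommGroup E] [NormedSpace ℝ E] (f : E → ℝ) (Λ : ℝ) : Prop where
  diff : Differentiable ℝ f
  b0 : ∀ x, |f x| ≤ Λ
  b1 : ∀ x, ‖fderiv ℝ f x‖ ≤ Λ
  b2 : ∀ x y, ‖fderiv ℝ f x - fderiv ℝ f y‖ ≤ Λ * ‖x - y‖

/-- bounded and Lipschitz -/
structure Lip1 {E : Type*} [NormedAddCommGroup E] (f : E → ℝ) (Λ : ℝ) : Prop where
  b0 : ∀ x, |f x| ≤ Λ
  b1 : ∀ x y, |f x - f y| ≤ Λ * ‖x - y‖

/-- sites, lattice points -/
abbrev Z2 := ℤ × ℤ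

/-! ### the system -/

/-- polygons; heights `0` = left column, `1` = right column, `2` = bottom row, `3` = top row -/
structure PSys where
  P : Type
  /-- the critical weight -/
  M : P → ℝ
  /-- heights -/
  ht : P → Fin 4 → ℤ
  /-- the other coordinate of the extreme point (row for `0, 1`, column for `2, 3`) -/
  ex : P → Fin 4 → ℤ
  /-- response of the height under its own swaps: `Q` -/
  Qf : P → Fin 4 → ℝ
  /-- response under the transversal swaps: `k` times the indicator of the minimal cup -/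
  Cf : P → Fin 4 → ℝ
  /-- sites -/
  st : P → Set Z2
  /-- the lattice point is inside -/
  ip : Z2 → P → Prop
  /-- disjoint -/
  Dj : P → P → Prop
  /-- `In v w` : `v` is inside `w` -/
  In : P → P → Prop
  /-- translations -/
  tr : Z2 → P ≃ P
  /-- the polygons with heights in `[-n, n]` -/
  box : ℕ → Finset P
  M_nn : ∀ p, 0 ≤ M p
  Q_nn : ∀ p u, 0 ≤ Qf p u
  C_nn : ∀ p u, 0 ≤ Cf p u
  mem_box : ∀ n p, p ∈ box n ↔ ∀ u, |ht p u| ≤ n
  le01 : ∀ p, ht p 0 ≤ ht p 1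
  le23 : ∀ p, ht p 2 ≤ ht p 3
  ex01 : ∀ p, (ht p 2 ≤ ex p 0 ∧ ex p 0 ≤ ht p 3) ∧ ht p 2 ≤ ex p 1 ∧ ex p 1 ≤ ht p 3
  ex23 : ∀ p, (ht p 0 ≤ ex p 2 ∧ ex p 2 ≤ ht p 1) ∧ ht p 0 ≤ ex p 3 ∧ ex p 3 ≤ ht p 1
  tr_M : ∀ z p, M (tr z p) = M p
  tr_ht : ∀ z p, ht (tr z p) 0 = ht p 0 + z.1 ∧ ht (tr z p) 1 = ht p 1 + z.1 ∧
    ht (tr z p) 2 = ht p 2 + z.2 ∧ ht (tr z p) 3 = ht p 3 + z.2
  tr_ex : ∀ z p, ex (tr z p) 0 = ex p 0 + z.2 ∧ ex (tr z p) 1 = ex p 1 + z.2 ∧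
    ex (tr z p) 2 = ex p 2 + z.1 ∧ ex (tr z p) 3 = ex p 3 + z.1
  tr_st : ∀ z p x, x ∈ st p ↔ x + z ∈ st (tr z p)
  tr_ip : ∀ z p x, ip x p ↔ ip (x + z) (tr z p)
  /-- sites and inside points are in the box of the polygon -/
  st_box : ∀ p x, x ∈ st p → ht p 0 ≤ x.1 ∧ x.1 ≤ ht p 1 ∧ ht p 2 ≤ x.2 ∧ x.2 ≤ ht p 3
  ip_box : ∀ p x, ip x p → ht p 0 ≤ x.1 ∧ x.1 ≤ ht p 1 ∧ ht p 2 ≤ x.2 ∧ x.2 ≤ ht p 3
  /-- between an inside and an outside point there is a site -/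
  ip_sep : ∀ p x y, ip x p → ¬ ip y p → ∃ s ∈ st p, min x.1 y.1 - 1 ≤ s.1 ∧ s.1 ≤ max x.1 y.1 + 1 ∧
    min x.2 y.2 - 1 ≤ s.2 ∧ s.2 ≤ max x.2 y.2 + 1
  /-- inside: the box is contained -/
  In_box : ∀ v w, In v w → ht w 0 ≤ ht v 0 ∧ ht v 1 ≤ ht w 1 ∧ ht w 2 ≤ ht v 2 ∧ ht v 3 ≤ ht w 3
  /-- polygons with a gap between their boxes are disjoint, and not inside each other -/
  far : ∀ v w, (ht v 1 + 1 < ht w 0 ∨ ht w 1 + 1 < ht v 0 ∨ ht v 3 + 1 < ht w 2 ∨ ht w 3 + 1 < ht v 2) →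
    Dj v w ∧ ¬ In v w
  /-- if `w` has no site in the box of `v` enlarged by one, then `v` is disjoint from `w`, `w` is not inside `v`,
  and `v` is inside `w` iff its corner is -/
  sep : ∀ v w, (∀ s ∈ st w, ¬ (ht v 0 - 1 ≤ s.1 ∧ s.1 ≤ ht v 1 + 1 ∧ ht v 2 - 1 ≤ s.2 ∧ s.2 ≤ ht v 3 + 1)) →
    (Dj v w ∧ Dj w v) ∧ ¬ In w v ∧ (In v w ↔ ip (ht v 0, ht v 2) w)

namespace PSys

variable (S : PSys)

/-- the corner -/
def co (p : S.P) : Z2 := (S.ht p 0, S.ht p 2)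

/-- the extent -/
def ext (p : S.P) : ℤ := max (S.ht p 1 - S.ht p 0) (S.ht p 3 - S.ht p 2)

/-- normalised heights -/
noncomputable def hN (N : ℝ) (p : S.P) : Fin 4 → ℝ := fun u => (S.ht p u : ℝ) / N

/-- normalised other coordinate of the extreme point -/
noncomputable def eN (N : ℝ) (p : S.P) (u : Fin 4) : ℝ := (S.ex p u : ℝ) / N

variable {I : Type} [Fintype I] [DecidableEq I]

/-- pairwise disjoint, with the pattern `τ` -/
def Pt (τ : I → I → Bool) (γ : I → S.P) : Prop :=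
  (∀ i k, i ≠ k → S.Dj (γ i) (γ k)) ∧ ∀ i k, i ≠ k → (S.In (γ i) (γ k) ↔ τ i k = true)

open Classical in
/-- the sum over the families in the box `[-n, n]` -/
noncomputable def fsum (n : ℕ) (τ : I → I → Bool) (Θ : (I → S.P) → ℝ) : ℝ :=
  ∑ γ ∈ Fintype.piFinset (fun _ : I => S.box n), if S.Pt τ γ then (∏ i, S.M (γ i)) * Θ γ else 0

/-- the sign of the response: `-` for columns, `+` for rows -/
def sg (u : Fin 4) : ℝ := if u = 0 ∨ u = 1 then -1 else 1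

/-- the support condition: all members in `[-K, K]`, extents `>= δ` -/
def Sup (K δ : ℝ) (h : I → Fin 4 → ℝ) : Prop :=
  (∀ i u, |h i u| ≤ K) ∧ ∀ i, δ ≤ h i 1 - h i 0 ∧ δ ≤ h i 3 - h i 2

/-- partial derivative -/
noncomputable def pd (Φ : (I → Fin 4 → ℝ) → ℝ) (h : I → Fin 4 → ℝ) (i : I) (u : Fin 4) : ℝ :=
  fderiv ℝ Φ h (Pi.single i (Pi.single u 1))

/-- **exact side**: `Md F` by columns minus `Md F` by rows -/
def EXD : Prop :=
  ∀ (I : Type) [Fintype I] [DecidableEq I] (τ : I → I → Bool) (K δ ε : ℝ), 0 < K → 0 < δ → 0 < ε →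
    ∃ N0 : ℝ, ∀ N : ℝ, N0 ≤ N → ∀ n : ℕ, K * N ≤ n → ∀ Φ : (I → Fin 4 → ℝ) → ℝ, C2 Φ 1 →
      (∀ h, Φ h ≠ 0 → Sup K δ h) →
      |S.fsum n τ fun γ => ∑ i, ∑ u, sg u * (S.hN N (γ i) u * S.Qf (γ i) u + S.eN N (γ i) u * S.Cf (γ i) u) *
        pd Φ (fun i => S.hN N (γ i)) i u| ≤ ε

/-- **LR3 in families**: for all sizes in `[δ, K]` the responses may be replaced by the constants `a N`, `b N` -/
def LR3F (K δ : ℝ) (a b : ℝ → ℝ) : Prop :=
  ∀ (I : Type) [Fintype I] [DecidableEq I] (τ : I → I → Bool) (i : I) (u : Fin 4) (Λ ε : ℝ), 0 < ε →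
    ∃ N0 : ℝ, ∀ N : ℝ, N0 ≤ N → ∀ n : ℕ, K * N ≤ n → ∀ θ : (I → Fin 4 → ℝ) × ℝ → ℝ, Lip1 θ Λ →
      (∀ h e, θ (h, e) ≠ 0 → Sup K δ h) →
      |S.fsum n τ fun γ => (S.Qf (γ i) u - a N) * θ (fun i => S.hN N (γ i), S.eN N (γ i) u)| ≤ ε ∧
      |S.fsum n τ fun γ => (S.Cf (γ i) u - b N) * θ (fun i => S.hN N (γ i), S.eN N (γ i) u)| ≤ ε

/-- **LR3**, all windows of sizes, with common bounds of the constants -/
def LR3 (amin A : ℝ) : Prop :=
  ∀ K δ : ℝ, 0 < δ → δ < K → ∃ a b : ℝ → ℝ, (∃ N0 : ℝ, ∀ N : ℝ, N0 ≤ N → amin ≤ a N ∧ a N ≤ A ∧ |b N| ≤ A) ∧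
    S.LR3F K δ a b

/-- `w` has a site at (sup norm) distance `<= ρ` of `x` -/
def Nr (ρ : ℝ) (x : Z2) (w : S.P) : Prop := ∃ s ∈ S.st w, |(s.1 : ℝ) - x.1| ≤ ρ ∧ |(s.2 : ℝ) - x.2| ≤ ρ

open Classical in
/-- **near**: extent `>= d N` and a site within `η N` of the origin -/
def Near : Prop :=
  ∀ d ε : ℝ, 0 < d → 0 < ε → ∃ η : ℝ, 0 < η ∧ ∃ N0 : ℝ, ∀ N : ℝ, N0 ≤ N →
    ∑' w : S.P, ENNReal.ofReal (if d * N ≤ (S.ext w : ℝ) ∧ S.Nr (η * N) 0 w then S.M w else 0) ≤ ENNReal.ofReal ε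

open Classical in
/-- the mass of the polygons with corner `0` and both extents in `[r N, s N]` -/
noncomputable def mass (r s N : ℝ) (n : ℕ) : ℝ :=
  ∑ p ∈ S.box n, if S.co p = 0 ∧ r * N ≤ (S.ht p 1 : ℝ) - S.ht p 0 ∧ (S.ht p 1 : ℝ) - S.ht p 0 ≤ s * N ∧
    r * N ≤ (S.ht p 3 : ℝ) - S.ht p 2 ∧ (S.ht p 3 : ℝ) - S.ht p 2 ≤ s * N then S.M p else 0

/-- **masses** of the polygons of size `~ N` with a given corner (lower bound for SOME window of extents) -/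
def Mass : Prop :=
  (∃ r s c : ℝ, 0 < r ∧ r < s ∧ 0 < c ∧ ∃ N0 : ℝ, ∀ N : ℝ, N0 ≤ N → ∀ n : ℕ, s * N ≤ n →
    c ≤ N ^ 2 * S.mass r s N n) ∧
  ∀ r s : ℝ, 0 < r → r < s → ∃ C : ℝ, ∃ N0 : ℝ, ∀ N : ℝ, N0 ≤ N → ∀ n : ℕ, N ^ 2 * S.mass r s N n ≤ C

/-! ### the output -/

variable {m : ℕ}

open Classical in
/-- the pattern function: mass of the polygons which have exactly the points `x i`, `π i = true`, inside -/
noncomputable def Pf (π : Fin m → Bool) (x : Fin m → Z2) : ℝ :=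
  ∑' w : S.P, if ∀ i, S.ip (x i) w ↔ π i = true then S.M w else 0

/-- the linear field (columns, rows) -/
noncomputable def Bf (a b : ℝ) (y : Fin m → ℝ × ℝ) : Fin m → ℝ × ℝ :=
  fun i => (-(a * (y i).1) - b * (y i).2, b * (y i).1 + a * (y i).2)

/-- at least two points inside, at least one outside -/
def NT (π : Fin m → Bool) : Prop := (∃ i j, i ≠ j ∧ π i = true ∧ π j = true) ∧ ∃ i, π i = false

/-- **output of L6**: input of (I1) of block I.  The test functions live on the separated `m`-tuples in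
`[-R, R]^2`, `N` is real, `a, b` do not depend on the pattern and on the test function. -/
def Flow (amin A : ℝ) : Prop :=
  ∀ (m : ℕ) (R d ε : ℝ), 0 < R → 0 < d → 0 < ε → ∃ N0 : ℝ, ∀ N : ℝ, N0 ≤ N → ∃ a b : ℝ,
    amin ≤ a ∧ a ≤ A ∧ |b| ≤ A ∧ ∀ π : Fin m → Bool, NT π → ∀ φ : (Fin m → ℝ × ℝ) → ℝ, C2 φ 1 →
      (∀ y, φ y ≠ 0 → (∀ i, ‖y i‖ ≤ R) ∧ ∀ i k, i ≠ k → d ≤ ‖y i - y k‖) →
      |∑' x : Fin m → Z2, (N ^ (2 * m))⁻¹ *
        fderiv ℝ φ (fun i => ((x i).1 / N, (x i).2 / N)) (Bf a b fun i => ((x i).1 / N, (x i).2 / N)) *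
          S.Pf π x| ≤ ε

end PSys

end Pool.Agent.ROT.L6
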