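import Pool.Agent.ROT.LConn

/-!
# ROT, block L: the families of a class are the triples of cells with the given pairing of the ports
-/

set_option autoImplicit false

namespace Pool.Agent.ROT.L

open Pool.Agent.YBC (Dir)
open Pool.Agent.ROT.E (Cell IsUn Pt nx)

variable {I : Type} {j s : ℤ} {t t' : Fin 3} {γ γ' : VX →₀ (I → Cell)} {δ Γ : VX →₀ Cell}

theorem conn_of (mt : Mt (Gt j s t) Γ Set.univ)
    (op : ∀ h : VX × Dir, h.1 ∈ Rg j s → oc Γ h → ∃ k ∈ Port (Gt j s t) (Rg j s),
      Cn (Gt j s t) Γ (Rg j s) h ((Gt j s t).e k)) : conn t (cF j s Γ) = some (qF t (cF j s Γ)) := by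
  have mt' : Mt (Gt j s t) Γ (Rg j s) := mt_mono mt
  exact conn_iff.2 ⟨mt', op, oc_qF mt', cn_qF mt'⟩

/-- **the unlabelled class**: same outside, same pairing of the ports -/
theorem eq6u_iff (mt : Mt (Gt j s t) Γ Set.univ) :
    Eq6u (Rg j s) (Gt j s t) (Gt j s t') Γ δ ↔
      (∀ v, v ∉ Rg j s → Γ v = δ v) ∧ conn t' (cF j s δ) = some (qF t (cF j s Γ)) := by
  have ag := agr (j := j) (s := s) t t'
  have mtR : Mt (Gt j s t) Γ (Rg j s) := mt_mono mt
  have hp : ∀ a, P j s a ∈ Port (Gt j s t) (Rg j s) := fun a => port_iff.2 ⟨a, rfl⟩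
  constructor
  · intro e
    refine ⟨e.out, conn_iff.2 ⟨mt_mono e.mt, ?_, fun a => ?_, fun a b => ?_⟩⟩
    · rw [← ag.port]; exact e.op
    · rw [oc_port e.mt, ← oc_out e.out (P_out a), ← oc_port mt, oc_qF mtR]
    · rw [← e.pr _ (hp a) _ (hp b), cn_qF mtR]
  · rintro ⟨out, hc⟩
    obtain ⟨m1, op, ho, hq⟩ := conn_iff.1 hc
    have hP : ∀ a, (oc δ (P j s a) ↔ oc δ ((Gt j s t').e (P j s a))) := fun a => by
      rw [ho, ← oc_qF mtR, oc_port mt, oc_out out (P_out a)]
    refine ⟨fun h _ _ => ?_, out, ?_, fun h hh k hk => ?_⟩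
    · by_cases h1 : h.1 ∈ Rg j s
      · by_cases h2 : ((Gt j s t').e h).1 ∈ Rg j s
        · exact m1 h h1 h2
        · have h3 : (Gt j s t').e h ∈ Port (Gt j s t') (Rg j s) := ⟨h2, by rw [Gr.inv]; exact h1⟩
          obtain ⟨a, ha⟩ := port_iff.1 h3
          have h4 : h = (Gt j s t').e (P j s a) := by rw [← ha, Gr.inv]
          rw [h4, Gr.inv]
          exact (hP a).symm
      · by_cases h2 : ((Gt j s t').e h).1 ∈ Rg j s
        · obtain ⟨a, ha⟩ := port_iff.1 (show h ∈ Port (Gt j s t') (Rg j s) from ⟨h1, h2⟩)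
          rw [ha]
          exact hP a
        · have h3 : ((Gt j s t).e h).1 ∉ Rg j s := fun h4 => h2 ((ag.prt h h1).1 h4)
          rw [← oc_out out h1, ← oc_out out h2, ag.out h h1 h3]
          exact mt h trivial trivial
    · rw [ag.port]; exact op
    · obtain ⟨a, rfl⟩ := port_iff.1 hh
      obtain ⟨b, rfl⟩ := port_iff.1 hk
      rw [hq, cn_qF mtR]

open Classical in
/-- the configuration with the cells `c` in the region -/
noncomputable def upc (j s : ℤ) (Γ : VX →₀ Cell) (c : Cell × Cell × Cell) : VX →₀ Cell :=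
  ((Γ.update none c.1).update (some (j, s)) c.2.1).update (some (j + 1, s)) c.2.2

theorem upc_none (c : Cell × Cell × Cell) : upc j s Γ c none = c.1 := by
  simp [upc, Finsupp.update_apply]

theorem upc_left (c : Cell × Cell × Cell) : upc j s Γ c (some (j, s)) = c.2.1 := by
  simp [upc, Finsupp.update_apply]

theorem upc_right (c : Cell × Cell × Cell) : upc j s Γ c (some (j + 1, s)) = c.2.2 := by
  simp [upc, Finsupp.update_apply]

theorem upc_out (c : Cell × Cell × Cell) (v : VX) (hv : v ∉ Rg j s) : Γ v = upc j s Γ c v := by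
  simp only [Rg, Set.mem_insert_iff, Set.mem_singleton_iff, not_or] at hv
  simp [upc, Finsupp.update_apply, hv.1, hv.2.1, hv.2.2]

theorem cF_upc (c : Cell × Cell × Cell) : cF j s (upc j s Γ c) = ![c.1, c.2.1, c.2.2] := by
  rw [cF, upc_none, upc_left, upc_right]

/-- the unlabelled class as the set of the triples of cells -/
noncomputable def eqc (mt : Mt (Gt j s t) Γ Set.univ) :
    {δ : VX →₀ Cell // Eq6u (Rg j s) (Gt j s t) (Gt j s t') Γ δ} ≃
      {c : Cell × Cell × Cell // conn t' ![c.1, c.2.1, c.2.2] = some (qF t (cF j s Γ))} where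
  toFun δ := ⟨(δ.1 none, δ.1 (some (j, s)), δ.1 (some (j + 1, s))), ((eq6u_iff mt).1 δ.2).2⟩
  invFun c := ⟨upc j s Γ c.1, (eq6u_iff mt).2 ⟨upc_out c.1, by rw [cF_upc]; exact c.2⟩⟩
  left_inv δ := by
    refine Subtype.ext (Finsupp.ext fun v => ?_)
    by_cases hv : v ∈ Rg j s
    · rcases hv with rfl | rfl | rfl
      · exact upc_none _
      · exact upc_left _
      · exact upc_right _
    · rw [← upc_out _ v hv]
      exact δ.2.out v hv
  right_inv c := by
    refine Subtype.ext ?_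
    show (upc j s Γ c.1 none, upc j s Γ c.1 (some (j, s)), upc j s Γ c.1 (some (j + 1, s))) = c.1
    rw [upc_none, upc_left, upc_right]

/-- **the class of a family**: for every one of the three graphs the families of the class are the triples of cells
with the pairing `q` of the ports -/
theorem cls (f : Fam (Gt j s t) γ) (g : Gd (Rg j s) γ) : ∃ q : Fin 6 → Fin 6, ∀ t' : Fin 3,
    ∃ e : {γ' : VX →₀ (I → Cell) // Eq6 (Rg j s) (Gt j s t) (Gt j s t') γ γ'} ≃
      {c : Cell × Cell × Cell // conn t' ![c.1, c.2.1, c.2.2] = some q},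
      ∀ γ', IsUn (γ'.1 none) (e γ').1.1 ∧ IsUn (γ'.1 (some (j, s))) (e γ').1.2.1 ∧
        IsUn (γ'.1 (some (j + 1, s))) (e γ').1.2.2 := by
  obtain ⟨Γ, u⟩ := ex_un f.dj
  have mt : Mt (Gt j s t) Γ Set.univ := mt_un (fun i => (f.lp i).mt) u
  refine ⟨qF t (cF j s Γ), fun t' => ?_⟩
  obtain ⟨e, he⟩ := lab6 (agr t t') f g u
  exact ⟨e.trans (eqc mt), fun γ' => ⟨he γ' none, he γ' (some (j, s)), he γ' (some (j + 1, s))⟩⟩

/-- in the square lattice the crossing is empty -/
theorem conn0_none : ∀ a b c : Cell, ∀ q : Fin 6 → Fin 6, conn 0 ![a, b, c] = some q → a = .o := by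
  have key : ∀ a b c : Cell, (fitF 0 ![a, b, c] && opF 0 ![a, b, c]) = true → a = .o := by decide +kernel
  intro a b c q h
  unfold conn at h
  split_ifs at h with h1
  exact key a b c h1

end Pool.Agent.ROT.L
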