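import Pool.Agent.ROT.LLab

/-!
# ROT, block L: the region of a row, finite model and connectivity

The three graphs `Gt j s t` (`t = 0`: the lattice, `1`: the crossing above the row `s`, `2`: below) have the same ports
`P j s a`, `a = 0, …, 5` = `ll, lr, W, E, ul, ur`.  The walk from a port decides the connections inside the region.
-/

set_option autoImplicit false

namespace Pool.Agent.ROT.L

open Pool.Agent.YBC (Dir)
open Pool.Agent.ROT.E (Cell Pt nx)
open Pool.Agent.ROT.E.Lab (p_p oc_p ex_oc eq_o)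

/-- the three graphs -/
def Gt (j s : ℤ) : Fin 3 → Gr VX
  | 0 => g0
  | 1 => gX j (s + 1)
  | 2 => gX j s

/-- the ports -/
def P (j s : ℤ) : Fin 6 → VX × Dir
  | 0 => (some (j, s - 1), .N)
  | 1 => (some (j + 1, s - 1), .N)
  | 2 => (some (j - 1, s), .E)
  | 3 => (some (j + 2, s), .W)
  | 4 => (some (j, s + 1), .S)
  | 5 => (some (j + 1, s + 1), .S)

/-- the half edges of the region: the vertices `0` = crossing, `1` = left cell, `2` = right cell -/
abbrev HF := Fin 3 × Dir

/-- the vertices of the region -/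
def em (j s : ℤ) : Fin 3 → VX
  | 0 => none
  | 1 => some (j, s)
  | 2 => some (j + 1, s)

/-- the half edges of the region -/
def emh (j s : ℤ) (h : HF) : VX × Dir := (em j s h.1, h.2)

/-- the other half of the edge: inside, or a port -/
def nb : Fin 3 → HF → HF ⊕ Fin 6
  | 0, (0, d) => .inl (0, d)
  | 0, (1, .E) => .inl (2, .W)
  | 0, (2, .W) => .inl (1, .E)
  | 0, (1, .S) => .inr 0
  | 0, (2, .S) => .inr 1
  | 0, (1, .W) => .inr 2
  | 0, (2, .E) => .inr 3
  | 0, (1, .N) => .inr 4
  | 0, (2, .N) => .inr 5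
  | 1, (1, .E) => .inl (2, .W)
  | 1, (2, .W) => .inl (1, .E)
  | 1, (1, .N) => .inl (0, .S)
  | 1, (0, .S) => .inl (1, .N)
  | 1, (2, .N) => .inl (0, .E)
  | 1, (0, .E) => .inl (2, .N)
  | 1, (1, .S) => .inr 0
  | 1, (2, .S) => .inr 1
  | 1, (1, .W) => .inr 2
  | 1, (2, .E) => .inr 3
  | 1, (0, .W) => .inr 4
  | 1, (0, .N) => .inr 5
  | 2, (1, .E) => .inl (2, .W)
  | 2, (2, .W) => .inl (1, .E)
  | 2, (1, .S) => .inl (0, .W)
  | 2, (0, .W) => .inl (1, .S)
  | 2, (2, .S) => .inl (0, .N)
  | 2, (0, .N) => .inl (2, .S)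
  | 2, (0, .S) => .inr 0
  | 2, (0, .E) => .inr 1
  | 2, (1, .W) => .inr 2
  | 2, (2, .E) => .inr 3
  | 2, (1, .N) => .inr 4
  | 2, (2, .N) => .inr 5

/-- the inner half of a port -/
def st : Fin 3 → Fin 6 → HF
  | 0, 0 => (1, .S)
  | 0, 1 => (2, .S)
  | 0, 4 => (1, .N)
  | 0, 5 => (2, .N)
  | 1, 0 => (1, .S)
  | 1, 1 => (2, .S)
  | 1, 4 => (0, .W)
  | 1, 5 => (0, .N)
  | 2, 0 => (0, .S)
  | 2, 1 => (0, .E)
  | 2, 4 => (1, .N)
  | 2, 5 => (2, .N)
  | 0, 2 => (1, .W)
  | 0, 3 => (2, .E)
  | 1, 2 => (1, .W)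
  | 1, 3 => (2, .E)
  | 2, 2 => (1, .W)
  | 2, 3 => (2, .E)

/-- the used half edges -/
def oF (c : Fin 3 → Cell) (h : HF) : Bool := decide ((c h.1).p h.2 ≠ h.2)

/-- the passage -/
def vF (c : Fin 3 → Cell) (h : HF) : HF := (h.1, (c h.1).p h.2)

/-- the walk: the half edges met -/
def wk (t : Fin 3) (c : Fin 3 → Cell) : ℕ → HF → List HF
  | 0, h => [h, vF c h]
  | n + 1, h => h :: vF c h :: match nb t (vF c h) with
    | .inl k => wk t c n k
    | .inr _ => []

/-- the walk: the port where it leaves -/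
def exF (t : Fin 3) (c : Fin 3 → Cell) : ℕ → HF → Option (Fin 6)
  | 0, _ => none
  | n + 1, h => match nb t (vF c h) with
    | .inl k => exF t c n k
    | .inr b => some b

/-- all half edges -/
def allH : List HF := [(0, .E), (0, .N), (0, .W), (0, .S), (1, .E), (1, .N), (1, .W), (1, .S), (2, .E), (2, .N),
  (2, .W), (2, .S)]

/-- the inner edges fit -/
def fitF (t : Fin 3) (c : Fin 3 → Cell) : Bool := allH.all fun h => match nb t h with
  | .inl k => oF c h == oF c k
  | .inr _ => true

/-- the walk from the port `a` -/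
def wp (t : Fin 3) (c : Fin 3 → Cell) (a : Fin 6) : List HF := if oF c (st t a) then wk t c 6 (st t a) else []

/-- no closed loop inside -/
def opF (t : Fin 3) (c : Fin 3 → Cell) : Bool := allH.all fun h => !(oF c h) ||
  (List.finRange 6).any fun a => (wp t c a).elem h

/-- the pairing of the ports -/
def qF (t : Fin 3) (c : Fin 3 → Cell) (a : Fin 6) : Fin 6 :=
  if oF c (st t a) then (exF t c 7 (st t a)).getD a else a

/-! ### facts checked by the kernel -/

/-- `X` is closed under the links -/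
def clF (t : Fin 3) (c : Fin 3 → Cell) (X : List HF) : Bool := X.all fun h => X.elem (vF c h) &&
  match nb t h with
  | .inl k => X.elem k
  | .inr _ => true

theorem allH_mem (h : HF) : h ∈ allH := by revert h; decide

theorem nb_st : ∀ (t : Fin 3) (a : Fin 6), nb t (st t a) = .inr a := by decide

theorem st_of_nb : ∀ (t : Fin 3) (h : HF) (a : Fin 6), nb t h = .inr a → h = st t a := by decide

theorem nb_inv : ∀ (t : Fin 3) (h k : HF), nb t h = .inl k → nb t k = .inl h := by decide

theorem fin_cl : ∀ (t : Fin 3) (a b c : Cell), fitF t ![a, b, c] = true → ∀ k : Fin 6,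
    clF t ![a, b, c] (wp t ![a, b, c] k) = true := by decide +kernel

theorem fin_port : ∀ (t : Fin 3) (a b c : Cell), fitF t ![a, b, c] = true → ∀ k l : Fin 6,
    (wp t ![a, b, c] k).elem (st t l) = true → k = l ∨ qF t ![a, b, c] k = l := by decide +kernel

theorem fin_ex : ∀ (t : Fin 3) (a b c : Cell), fitF t ![a, b, c] = true → ∀ k : Fin 6,
    oF ![a, b, c] (st t k) = true → (wp t ![a, b, c] k).elem (st t (qF t ![a, b, c] k)) = true ∧
      qF t ![a, b, c] k ≠ k := by decide +kernel

/-! ### the region in the graph -/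

variable {j s : ℤ} {t : Fin 3} {δ : VX →₀ Cell}

/-- the three cells of the region -/
noncomputable def cF (j s : ℤ) (δ : VX →₀ Cell) : Fin 3 → Cell := ![δ none, δ (some (j, s)), δ (some (j + 1, s))]

theorem cF_apply (x : Fin 3) : cF j s δ x = δ (em j s x) := by
  fin_cases x <;> rfl

theorem em_inj {x y : Fin 3} (h : em j s x = em j s y) : x = y := by
  fin_cases x <;> fin_cases y <;> simp_all [em]

theorem emh_inj {h k : HF} (e : emh j s h = emh j s k) : h = k := by
  obtain ⟨x, d⟩ := h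
  obtain ⟨y, d'⟩ := k
  simp only [emh, Prod.mk.injEq] at e
  rw [em_inj e.1, e.2]

theorem mem_Rg {v : VX} : v ∈ Rg j s ↔ ∃ x, v = em j s x := by
  simp only [Rg, Set.mem_insert_iff, Set.mem_singleton_iff]
  constructor
  · rintro (h | h | h)
    · exact ⟨0, h⟩
    · exact ⟨1, h⟩
    · exact ⟨2, h⟩
  · rintro ⟨x, rfl⟩
    fin_cases x
    · exact Or.inl rfl
    · exact Or.inr (Or.inl rfl)
    · exact Or.inr (Or.inr rfl)

theorem mem_emh {h : VX × Dir} (hh : h.1 ∈ Rg j s) : ∃ k, h = emh j s k := by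
  obtain ⟨x, hx⟩ := mem_Rg.1 hh
  exact ⟨(x, h.2), by rw [emh, ← hx]⟩

theorem emh_mem (h : HF) : (emh j s h).1 ∈ Rg j s := mem_Rg.2 ⟨h.1, rfl⟩

theorem P_out (a : Fin 6) : (P j s a).1 ∉ Rg j s := by
  rw [mem_Rg]
  rintro ⟨x, h⟩
  fin_cases a <;> fin_cases x <;> simp [P, em] at h <;> omega

theorem P_inj {a b : Fin 6} (h : P j s a = P j s b) : a = b := by
  fin_cases a <;> fin_cases b <;> simp_all [P]

theorem e_emh (h : HF) : (Gt j s t).e (emh j s h) = match nb t h with
    | .inl k => emh j s k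
    | .inr a => P j s a := by
  obtain ⟨x, d⟩ := h
  fin_cases t <;> fin_cases x <;> cases d <;> simp [Gt, g0, gX, e0, eX, emh, em, nb, P, nx, Dir.op] <;> omega

theorem e_st (a : Fin 6) : (Gt j s t).e (emh j s (st t a)) = P j s a := by
  rw [e_emh, nb_st]

theorem e_P (a : Fin 6) : (Gt j s t).e (P j s a) = emh j s (st t a) := by
  rw [← e_st (t := t) a, Gr.inv]

theorem port_iff {h : VX × Dir} : h ∈ Port (Gt j s t) (Rg j s) ↔ ∃ a, h = P j s a := by
  constructor
  · rintro ⟨h1, h2⟩
    obtain ⟨k, hk⟩ := mem_emh h2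
    have e1 : h = (Gt j s t).e (emh j s k) := by rw [← hk, Gr.inv]
    rw [e_emh] at e1
    cases hn : nb t k with
    | inl l =>
      rw [hn] at e1
      exact (h1 (by rw [e1]; exact emh_mem _)).elim
    | inr a =>
      rw [hn] at e1
      exact ⟨a, e1⟩
  · rintro ⟨a, rfl⟩
    exact ⟨P_out a, by rw [e_P]; exact emh_mem _⟩

theorem oF_iff (h : HF) : oF (cF j s δ) h = true ↔ oc δ (emh j s h) := by
  simp only [oF, decide_eq_true_eq, cF_apply, oc, emh, Cell.oc]

theorem vF_eq (h : HF) : emh j s (vF (cF j s δ) h) = vp δ (emh j s h) := by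
  simp only [vF, cF_apply, vp, emh]

theorem agr : ∀ t t' : Fin 3, Agr (Rg j s) (Gt j s t) (Gt j s t') := by
  have key : ∀ (t : Fin 3) (h : VX × Dir), h.1 ∉ Rg j s → (∀ a, h ≠ P j s a) →
      (Gt j s t).e h = e0 h := by
    intro t h h1 h2
    obtain ⟨_ | ⟨x, y⟩, d⟩ := h
    · exact (h1 (Or.inl rfl)).elim
    · have b1 : ¬(x = j ∧ y = s) := fun e => h1 (Or.inr (Or.inl (by rw [e.1, e.2])))
      have b2 : ¬(x = j + 1 ∧ y = s) := fun e => h1 (Or.inr (Or.inr (by rw [e.1, e.2]; rfl)))
      have c0 := h2 0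
      have c1 := h2 1
      have c4 := h2 4
      have c5 := h2 5
      simp only [P, ne_eq, Prod.mk.injEq, Option.some.injEq, not_and] at c0 c1 c4 c5
      fin_cases t
      · rfl
      · cases d <;> simp only [Gt, gX, e0, eX, Dir.op] 
        · rw [if_neg, if_neg]
          · simp only [Prod.mk.injEq]; omega
          · simp only [Prod.mk.injEq]; omega
        · rw [if_neg, if_neg]
          · simp only [Prod.mk.injEq]; intro e; exact c5 e rfl
          · simp only [Prod.mk.injEq]; intro e; exact c4 e rfl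
      · cases d <;> simp only [Gt, gX, e0, eX, Dir.op]
        · rw [if_neg, if_neg]
          · simp only [Prod.mk.injEq]; intro e; exact c1 e rfl
          · simp only [Prod.mk.injEq]; intro e; exact c0 e rfl
        · rw [if_neg, if_neg]
          · simp only [Prod.mk.injEq]; omega
          · simp only [Prod.mk.injEq]; omega
  intro t t'
  refine ⟨fun h h1 h2 => ?_, fun h h1 => ?_⟩
  · have hP : ∀ a, h ≠ P j s a := by
      rintro a rfl
      exact h2 (by rw [e_P]; exact emh_mem _)
    rw [key t h h1 hP, key t' h h1 hP]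
  · have : ∀ t, (((Gt j s t).e h).1 ∈ Rg j s ↔ ∃ a, h = P j s a) := fun t => by
      rw [← port_iff (t := t)]
      exact ⟨fun h2 => ⟨h1, h2⟩, fun h2 => h2.2⟩
    rw [this t, this t']

/-! ### the walks and the connections -/

theorem oF_vF (c : Fin 3 → Cell) (h : HF) : oF c (vF c h) = oF c h := by
  simp only [oF, vF, p_p]
  rw [decide_eq_decide]
  exact ⟨fun h1 h2 => h1 h2.symm, fun h1 h2 => h1 h2.symm⟩

theorem fitF_iff : fitF t (cF j s δ) = true ↔ Mt (Gt j s t) δ (Rg j s) := by
  simp only [fitF, List.all_eq_true]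
  constructor
  · intro H h h1 h2
    obtain ⟨k, rfl⟩ := mem_emh h1
    have h3 := H k (allH_mem k)
    rw [e_emh] at h2 ⊢
    cases hn : nb t k with
    | inl l =>
      rw [hn] at h3
      simp only [beq_iff_eq] at h3
      simp only
      rw [← oF_iff, ← oF_iff, h3]
    | inr a =>
      rw [hn] at h2
      exact (P_out a h2).elim
  · intro H k _
    cases hn : nb t k with
    | inl l =>
      simp only [beq_iff_eq]
      have e1 : (Gt j s t).e (emh j s k) = emh j s l := by rw [e_emh, hn]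
      have h1 := H (emh j s k) (emh_mem _) (by rw [e1]; exact emh_mem _)
      rw [e1, ← oF_iff, ← oF_iff] at h1
      exact Bool.eq_iff_iff.2 h1
    | inr a => rfl

/-- soundness: the half edges of a walk are connected -/
theorem wk_cn (mt : Mt (Gt j s t) δ (Rg j s)) : ∀ (n : ℕ) (h k : HF), oF (cF j s δ) h = true →
    k ∈ wk t (cF j s δ) n h → Cn (Gt j s t) δ (Rg j s) (emh j s h) (emh j s k)
  | 0, h, k, ho, hk => by
    simp only [wk, List.mem_cons, List.not_mem_nil, or_false] at hk
    rcases hk with rfl | rfl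
    · exact cn_refl _
    · rw [vF_eq]
      exact cn_vp ((oF_iff h).1 ho) (emh_mem h)
  | n + 1, h, k, ho, hk => by
    have c1 : Cn (Gt j s t) δ (Rg j s) (emh j s h) (emh j s (vF (cF j s δ) h)) := by
      rw [vF_eq]
      exact cn_vp ((oF_iff h).1 ho) (emh_mem h)
    simp only [wk, List.mem_cons] at hk
    rcases hk with rfl | rfl | hk
    · exact cn_refl _
    · exact c1
    · have ho' : oF (cF j s δ) (vF (cF j s δ) h) = true := by rw [oF_vF]; exact ho
      cases hn : nb t (vF (cF j s δ) h) with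
      | inl l =>
        rw [hn] at hk
        have e1 : (Gt j s t).e (emh j s (vF (cF j s δ) h)) = emh j s l := by rw [e_emh, hn]
        have c2 : Cn (Gt j s t) δ (Rg j s) (emh j s (vF (cF j s δ) h)) (emh j s l) := by
          rw [← e1]
          exact cn_e ((oF_iff _).1 ho') (emh_mem _) (by rw [e1]; exact emh_mem _)
        have hl : oF (cF j s δ) l = true := by
          rw [oF_iff]
          have := mt _ (emh_mem (vF (cF j s δ) h)) (by rw [e1]; exact emh_mem l)
          rw [e1] at this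
          exact this.1 ((oF_iff _).1 ho')
        exact cn_trans c1 (cn_trans c2 (wk_cn mt n l k hl hk))
      | inr a =>
        rw [hn] at hk
        exact absurd hk (by simp)

theorem wp_cn (mt : Mt (Gt j s t) δ (Rg j s)) {a : Fin 6} {k : HF} (hk : k ∈ wp t (cF j s δ) a) :
    Cn (Gt j s t) δ (Rg j s) (emh j s (st t a)) (emh j s k) := by
  unfold wp at hk
  split_ifs at hk with ho
  · exact wk_cn mt 6 _ k ho hk
  · exact absurd hk (by simp)

/-- completeness: the walk from a port is closed under the connections -/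
theorem cn_wp (mt : Mt (Gt j s t) δ (Rg j s)) {a : Fin 6} {h k : HF} (hh : h ∈ wp t (cF j s δ) a)
    (c : Cn (Gt j s t) δ (Rg j s) (emh j s h) (emh j s k)) : k ∈ wp t (cF j s δ) a := by
  have fit := fitF_iff.2 mt
  have cl := fin_cl t (δ none) (δ (some (j, s))) (δ (some (j + 1, s))) fit a
  have cl' : clF t (cF j s δ) (wp t (cF j s δ) a) = true := cl
  simp only [clF, List.all_eq_true, Bool.and_eq_true, List.elem_iff] at cl'
  have key := cn_of mt (P := fun x => ∃ y, x = emh j s y ∧ y ∈ wp t (cF j s δ) a) ?_ c ⟨h, rfl, hh⟩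
  · obtain ⟨y, h1, h2⟩ := key
    rw [emh_inj h1]; exact h2
  · rintro x x' ⟨y, rfl, hy⟩ ⟨-, -, rfl | ⟨rfl, h3⟩⟩
    · exact ⟨vF (cF j s δ) y, (vF_eq y).symm, (cl' y hy).1⟩
    · have h4 := (cl' y hy).2
      rw [e_emh] at h3 ⊢
      cases hn : nb t y with
      | inl l =>
        rw [hn] at h4
        exact ⟨l, rfl, List.elem_iff.1 h4⟩
      | inr b =>
        rw [hn] at h3
        exact (P_out b h3).elim

theorem st_mem {a : Fin 6} (ho : oF (cF j s δ) (st t a) = true) : st t a ∈ wp t (cF j s δ) a := by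
  unfold wp
  rw [if_pos ho]
  simp [wk]

theorem elem_wp {c : Fin 3 → Cell} {a : Fin 6} {h : HF} (hh : h ∈ wp t c a) :
    (wp t c a).elem h = true := List.elem_iff.2 hh

/-- **the connections of the ports** -/
theorem cn_qF (mt : Mt (Gt j s t) δ (Rg j s)) (a b : Fin 6) :
    Cn (Gt j s t) δ (Rg j s) ((Gt j s t).e (P j s a)) ((Gt j s t).e (P j s b)) ↔
      a = b ∨ qF t (cF j s δ) a = b := by
  have fit := fitF_iff.2 mt
  rw [e_P, e_P]
  constructor
  · intro c
    rcases cn_oc mt c with e | ⟨⟨ho, -⟩, -⟩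
    · left
      have e1 := emh_inj e
      have e2 := nb_st t a
      rw [e1, nb_st t b] at e2
      exact (Sum.inr.inj e2).symm
    · have ho' : oF (cF j s δ) (st t a) = true := (oF_iff _).2 ho
      exact fin_port t _ _ _ fit a b (elem_wp (cn_wp mt (st_mem ho') c))
  · rintro (rfl | h)
    · exact cn_refl _
    · by_cases ho : oF (cF j s δ) (st t a) = true
      · have h1 := (fin_ex t _ _ _ fit a ho).1
        have h2 : st t (qF t (cF j s δ) a) ∈ wp t (cF j s δ) a := List.elem_iff.1 h1
        rw [h] at h2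
        exact wp_cn mt h2
      · have h1 : qF t (cF j s δ) a = a := by
          unfold qF
          rw [if_neg ho]
        rw [← h, h1]
        exact cn_refl _

/-- the port is used iff it is not fixed -/
theorem oc_qF (mt : Mt (Gt j s t) δ (Rg j s)) (a : Fin 6) :
    oc δ ((Gt j s t).e (P j s a)) ↔ qF t (cF j s δ) a ≠ a := by
  have fit := fitF_iff.2 mt
  rw [e_P, ← oF_iff]
  constructor
  · intro ho
    exact (fin_ex t _ _ _ fit a ho).2
  · intro h
    by_contra ho
    apply h
    unfold qF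
    rw [if_neg ho]

/-- **no closed loop inside** -/
theorem opF_iff (mt : Mt (Gt j s t) δ (Rg j s)) : opF t (cF j s δ) = true ↔
    ∀ h : VX × Dir, h.1 ∈ Rg j s → oc δ h → ∃ k ∈ Port (Gt j s t) (Rg j s),
      Cn (Gt j s t) δ (Rg j s) h ((Gt j s t).e k) := by
  simp only [opF, List.all_eq_true, Bool.or_eq_true, Bool.not_eq_true', List.any_eq_true, List.mem_finRange,
    true_and, List.elem_iff]
  constructor
  · intro H h h1 ho
    obtain ⟨k, rfl⟩ := mem_emh h1
    rcases H k (allH_mem k) with h2 | ⟨a, ha⟩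
    · exact absurd ((oF_iff k).2 ho) (by rw [h2]; simp)
    · refine ⟨P j s a, port_iff.2 ⟨a, rfl⟩, ?_⟩
      rw [e_P]
      exact cn_symm (wp_cn mt ha)
  · intro H k _
    by_cases ho : oF (cF j s δ) k = true
    · right
      obtain ⟨p, hp, c⟩ := H (emh j s k) (emh_mem k) ((oF_iff k).1 ho)
      obtain ⟨a, rfl⟩ := port_iff.1 hp
      refine ⟨a, ?_⟩
      rw [e_P] at c
      have hs : oF (cF j s δ) (st t a) = true := (oF_iff _).2 (cn_oc' mt c ((oF_iff k).1 ho))
      exact cn_wp mt (st_mem hs) (cn_symm c)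
    · left
      simpa using ho

/-- **the pairing of the ports by the cells of the region** (`none`: misfit or closed loop inside) -/
def conn (t : Fin 3) (c : Fin 3 → Cell) : Option (Fin 6 → Fin 6) :=
  if fitF t c && opF t c then some (qF t c) else none

/-- **`conn` is the connection inside the region** -/
theorem conn_iff {q : Fin 6 → Fin 6} : conn t (cF j s δ) = some q ↔
    Mt (Gt j s t) δ (Rg j s) ∧
    (∀ h : VX × Dir, h.1 ∈ Rg j s → oc δ h → ∃ k ∈ Port (Gt j s t) (Rg j s),
      Cn (Gt j s t) δ (Rg j s) h ((Gt j s t).e k)) ∧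
    (∀ a, oc δ ((Gt j s t).e (P j s a)) ↔ q a ≠ a) ∧
    (∀ a b, Cn (Gt j s t) δ (Rg j s) ((Gt j s t).e (P j s a)) ((Gt j s t).e (P j s b)) ↔ a = b ∨ q a = b) := by
  unfold conn
  constructor
  · intro h
    split_ifs at h with h1
    · rw [Bool.and_eq_true] at h1
      have mt := fitF_iff.1 h1.1
      rw [Option.some.injEq] at h
      subst h
      exact ⟨mt, (opF_iff mt).1 h1.2, oc_qF mt, cn_qF mt⟩
  · rintro ⟨mt, op, ho, hc⟩
    rw [if_pos (by rw [Bool.and_eq_true]; exact ⟨fitF_iff.2 mt, (opF_iff mt).2 op⟩), Option.some.injEq]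
    funext a
    by_cases h1 : q a = a
    · by_contra h2
      have h3 : qF t (cF j s δ) a ≠ a := fun e => h2 (by rw [e, h1])
      exact (ho a).1 ((oc_qF mt a).2 h3) h1
    · rcases (cn_qF mt a (q a)).1 ((hc a (q a)).2 (Or.inr rfl)) with e | e
      · exact absurd e.symm h1
      · exact e

end Pool.Agent.ROT.L
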