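import Mathlib

/-!
# ROT, block LR: L² contraction over scales (abstract, pure finite sums)

`W` is a finite weighted set (weights `M > 0`), `g : Ω → X` a history map; `ms g x` is the mass of
the class `g = x`, `sm g x` the first moment of `u` over that class, `Vr g = ∑ sm² / ms`.

* `Vr_mono`  : a coarser map has a smaller `Vr`;
* `Vr_step`  : one step of the contraction, `Vr π ≤ (1 - c a) Vr ζ + 3 ε`;
* `contr`    : the chain (`V 0 ≤ (1 - c a)^K + 3 ε / (c a)`);
* `contr_en` : the energy form, `V 0 ≤ ε + 1 / (K c a)` (constants `c`, `a` may depend on `ε`);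
* `indep`    : asymptotic independence of an inner variable `f` and an outer variable `ψ`.
-/

namespace Pool.Agent.ROT.LDoeb

open Finset
open scoped Classical

noncomputable section

variable {Ω : Type*}

/-- mass of the class `g = x` -/
def ms (W : Finset Ω) (M : Ω → ℝ) {X : Type*} (g : Ω → X) (x : X) : ℝ :=
  ∑ w ∈ W.filter (fun w => g w = x), M w

/-- first moment of `u` over the class `g = x` -/
def sm (W : Finset Ω) (M u : Ω → ℝ) {X : Type*} (g : Ω → X) (x : X) : ℝ :=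
  ∑ w ∈ W.filter (fun w => g w = x), M w * u w

/-- second moment of the conditional expectation of `u` given `g` -/
def Vr (W : Finset Ω) (M u : Ω → ℝ) {X : Type*} (g : Ω → X) : ℝ :=
  ∑ x ∈ W.image g, (sm W M u g x) ^ 2 / ms W M g x

/-- total weight of a predicate -/
def wt (W : Finset Ω) (M : Ω → ℝ) (P : Ω → Prop) : ℝ := ∑ w ∈ W.filter P, M w

/-- joint mass -/
def jm (W : Finset Ω) (M : Ω → ℝ) {X Z : Type*} (g : Ω → X) (h : Ω → Z) (x : X) (z : Z) : ℝ :=
  ∑ w ∈ W.filter (fun w => g w = x ∧ h w = z), M w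

/-! ## the array lemma -/

/-- weighted Cauchy–Schwarz -/
theorem wcs {ι : Type*} (s : Finset ι) (a x : ι → ℝ) (ha : ∀ i ∈ s, 0 ≤ a i) :
    (∑ i ∈ s, a i * x i) ^ 2 ≤ (∑ i ∈ s, a i) * ∑ i ∈ s, a i * x i ^ 2 := by
  apply Finset.sum_sq_le_sum_mul_sum_of_sq_le_mul
  · exact ha
  · intro i hi
    exact mul_nonneg (ha i hi) (sq_nonneg _)
  · intro i hi
    apply le_of_eq
    ring

theorem array {H Z : Type*} (Hs : Finset H) (Zs : Finset Z) (T : H → Z → ℝ)
    (hT : ∀ η ∈ Hs, ∀ z ∈ Zs, 0 ≤ T η z)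
    (p : H → ℝ) (hp : ∀ η ∈ Hs, p η = ∑ z ∈ Zs, T η z) (hp0 : ∀ η ∈ Hs, 0 < p η)
    (l : Z → ℝ) (hl : ∀ z ∈ Zs, l z = ∑ η ∈ Hs, T η z)
    (h1 : ∑ η ∈ Hs, p η = 1)
    (v : Z → ℝ) (hv : ∀ z ∈ Zs, |v z| ≤ 1) (h0 : ∑ z ∈ Zs, l z * v z = 0)
    (B : Finset H) (hB : B ⊆ Hs) (ε : ℝ) (hε : ∑ η ∈ B, p η ≤ ε)
    (S : Finset Z) (hS : S ⊆ Zs) (c a : ℝ) (hc0 : 0 ≤ c) (hc1 : c ≤ 1)
    (hmin : ∀ η ∈ Hs, η ∉ B → ∀ z ∈ S, c * p η * l z ≤ T η z)
    (ha : a ≤ ∑ z ∈ S, l z) :
    ∑ η ∈ Hs, (∑ z ∈ Zs, T η z * v z) ^ 2 / p η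
      ≤ (1 - c * a) * (∑ z ∈ Zs, l z * v z ^ 2) + 3 * ε := by
  classical
  set α : ℝ := ∑ z ∈ S, l z with hα
  set δ : ℝ := ∑ z ∈ S, l z * v z with hδ
  set s : H → ℝ := fun η => ∑ z ∈ Zs, T η z * v z with hs
  set Y : H → ℝ := fun η => s η - c * p η * δ with hY
  set Q : ℝ := ∑ z ∈ Zs, l z * v z ^ 2 with hQ
  have hl0 : ∀ z ∈ Zs, 0 ≤ l z := by
    intro z hz
    rw [hl z hz]
    exact Finset.sum_nonneg (fun η hη => hT η hη z hz)
  have hlsum : ∑ z ∈ Zs, l z = 1 := by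
    rw [← h1]
    rw [Finset.sum_congr rfl hl, Finset.sum_comm]
    exact Finset.sum_congr rfl (fun η hη => (hp η hη).symm)
  have hα0 : 0 ≤ α := Finset.sum_nonneg (fun z hz => hl0 z (hS hz))
  have hα1 : α ≤ 1 := by
    rw [← hlsum]
    exact Finset.sum_le_sum_of_subset_of_nonneg hS (fun z hz _ => hl0 z hz)
  have hδ1 : |δ| ≤ 1 := by
    calc |δ| ≤ ∑ z ∈ S, |l z * v z| := Finset.abs_sum_le_sum_abs _ _
      _ ≤ ∑ z ∈ S, l z := by
          apply Finset.sum_le_sum
          intro z hz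
          rw [abs_mul, abs_of_nonneg (hl0 z (hS hz))]
          calc l z * |v z| ≤ l z * 1 := mul_le_mul_of_nonneg_left (hv z (hS hz)) (hl0 z (hS hz))
            _ = l z := mul_one _
      _ ≤ 1 := hα1
  have hQ0 : 0 ≤ Q := Finset.sum_nonneg (fun z hz => mul_nonneg (hl0 z hz) (sq_nonneg _))
  have hsp : ∀ η ∈ Hs, |s η| ≤ p η := by
    intro η hη
    rw [hp η hη]
    calc |s η| ≤ ∑ z ∈ Zs, |T η z * v z| := Finset.abs_sum_le_sum_abs _ _
      _ ≤ ∑ z ∈ Zs, T η z := by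
          apply Finset.sum_le_sum
          intro z hz
          rw [abs_mul, abs_of_nonneg (hT η hη z hz)]
          calc T η z * |v z| ≤ T η z * 1 :=
                mul_le_mul_of_nonneg_left (hv z hz) (hT η hη z hz)
            _ = T η z := mul_one _
  have hssum : ∑ η ∈ Hs, s η = 0 := by
    rw [← h0]
    simp only [hs]
    rw [Finset.sum_comm]
    apply Finset.sum_congr rfl
    intro z hz
    rw [hl z hz, Finset.sum_mul]
  -- the good classes
  have hYb : ∀ η ∈ Hs \ B, (Y η) ^ 2 / p η ≤ (1 - c * α) * ∑ z ∈ Zs, T η z * v z ^ 2 := by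
    intro η hη
    have hηH : η ∈ Hs := (Finset.mem_sdiff.1 hη).1
    have hηB : η ∉ B := (Finset.mem_sdiff.1 hη).2
    have hpη := hp0 η hηH
    set ℓ : Z → ℝ := fun z => T η z - c * p η * (if z ∈ S then l z else 0) with hℓ
    have hℓ0 : ∀ z ∈ Zs, 0 ≤ ℓ z := by
      intro z hz
      simp only [hℓ]
      by_cases hzS : z ∈ S
      · rw [if_pos hzS]
        have := hmin η hηH hηB z hzS
        linarith
      · rw [if_neg hzS]
        have := hT η hηH z hz
        linarith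
    have hif : ∀ g : Z → ℝ, ∑ z ∈ Zs, (if z ∈ S then l z else 0) * g z = ∑ z ∈ S, l z * g z := by
      intro g
      have : ∀ z ∈ Zs, (if z ∈ S then l z else 0) * g z = if z ∈ S then l z * g z else 0 := by
        intro z _
        by_cases h : z ∈ S
        · simp [h]
        · simp [h]
      rw [Finset.sum_congr rfl this, ← Finset.sum_filter]
      congr 1
      ext z
      simp only [Finset.mem_filter]
      exact ⟨fun h => h.2, fun h => ⟨hS h, h⟩⟩
    have hYe : Y η = ∑ z ∈ Zs, ℓ z * v z := by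
      have h2 := hif v
      simp only [hY, hs, hℓ, hδ]
      rw [← h2, Finset.mul_sum, ← Finset.sum_sub_distrib]
      apply Finset.sum_congr rfl
      intro z _
      ring
    have hℓs : ∑ z ∈ Zs, ℓ z = p η * (1 - c * α) := by
      have h2 := hif (fun _ => 1)
      simp only [mul_one] at h2
      simp only [hℓ]
      rw [Finset.sum_sub_distrib, ← Finset.mul_sum, h2, ← hp η hηH]
      ring
    have hCS := wcs Zs ℓ v hℓ0
    rw [← hYe, hℓs] at hCS
    have hle : ∑ z ∈ Zs, ℓ z * v z ^ 2 ≤ ∑ z ∈ Zs, T η z * v z ^ 2 := by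
      apply Finset.sum_le_sum
      intro z hz
      apply mul_le_mul_of_nonneg_right _ (sq_nonneg _)
      simp only [hℓ]
      have : 0 ≤ c * p η * (if z ∈ S then l z else 0) := by
        apply mul_nonneg (mul_nonneg hc0 hpη.le)
        by_cases h : z ∈ S
        · rw [if_pos h]; exact hl0 z hz
        · rw [if_neg h]
      linarith
    have hcα : 0 ≤ 1 - c * α := by nlinarith
    rw [div_le_iff₀ hpη]
    calc (Y η) ^ 2 ≤ p η * (1 - c * α) * ∑ z ∈ Zs, ℓ z * v z ^ 2 := hCS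
      _ ≤ p η * (1 - c * α) * ∑ z ∈ Zs, T η z * v z ^ 2 :=
          mul_le_mul_of_nonneg_left hle (mul_nonneg hpη.le hcα)
      _ = (1 - c * α) * (∑ z ∈ Zs, T η z * v z ^ 2) * p η := by ring
  -- split
  have hsplit : ∑ η ∈ Hs, (s η) ^ 2 / p η
      = ∑ η ∈ Hs \ B, (s η) ^ 2 / p η + ∑ η ∈ B, (s η) ^ 2 / p η :=
    (Finset.sum_sdiff hB).symm
  have hssplit : ∑ η ∈ Hs \ B, s η = - ∑ η ∈ B, s η := by
    have := Finset.sum_sdiff (f := s) hB
    linarith
  have hBp : ∑ η ∈ B, (s η) ^ 2 / p η ≤ ε := by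
    refine le_trans (Finset.sum_le_sum ?_) hε
    intro η hη
    have hpη := hp0 η (hB hη)
    rw [div_le_iff₀ hpη]
    have h := hsp η (hB hη)
    have h' := abs_le.1 h
    nlinarith
  have he : |∑ η ∈ B, s η| ≤ ε := by
    calc |∑ η ∈ B, s η| ≤ ∑ η ∈ B, |s η| := Finset.abs_sum_le_sum_abs _ _
      _ ≤ ∑ η ∈ B, p η := Finset.sum_le_sum (fun η hη => hsp η (hB hη))
      _ ≤ ε := hε
  set e : ℝ := ∑ η ∈ B, s η with hedef
  set PG : ℝ := ∑ η ∈ Hs \ B, p η with hPG
  have hPG0 : 0 ≤ PG :=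
    Finset.sum_nonneg (fun η hη => (hp0 η (Finset.mem_sdiff.1 hη).1).le)
  have hgood : ∑ η ∈ Hs \ B, (s η) ^ 2 / p η
      = - (c ^ 2 * δ ^ 2 * PG) - 2 * c * δ * e + ∑ η ∈ Hs \ B, (Y η) ^ 2 / p η := by
    have hterm : ∀ η ∈ Hs \ B, (s η) ^ 2 / p η
        = 2 * c * δ * s η - c ^ 2 * δ ^ 2 * p η + (Y η) ^ 2 / p η := by
      intro η hη
      have hpη := (hp0 η (Finset.mem_sdiff.1 hη).1).ne'
      have hYe : Y η = s η - c * p η * δ := rfl
      rw [hYe, eq_comm, ← sub_eq_zero]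
      field_simp
      ring
    rw [Finset.sum_congr rfl hterm, Finset.sum_add_distrib, Finset.sum_sub_distrib,
      ← Finset.mul_sum, ← Finset.mul_sum, hssplit]
    ring
  have hYsum : ∑ η ∈ Hs \ B, (Y η) ^ 2 / p η ≤ (1 - c * α) * Q := by
    calc ∑ η ∈ Hs \ B, (Y η) ^ 2 / p η
        ≤ ∑ η ∈ Hs \ B, (1 - c * α) * ∑ z ∈ Zs, T η z * v z ^ 2 := Finset.sum_le_sum hYb
      _ = (1 - c * α) * ∑ η ∈ Hs \ B, ∑ z ∈ Zs, T η z * v z ^ 2 :=
          (Finset.mul_sum (Hs \ B) (fun η => ∑ z ∈ Zs, T η z * v z ^ 2) (1 - c * α)).symm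
      _ ≤ (1 - c * α) * ∑ η ∈ Hs, ∑ z ∈ Zs, T η z * v z ^ 2 := by
          apply mul_le_mul_of_nonneg_left
          · apply Finset.sum_le_sum_of_subset_of_nonneg Finset.sdiff_subset
            intro η hη _
            exact Finset.sum_nonneg (fun z hz => mul_nonneg (hT η hη z hz) (sq_nonneg _))
          · nlinarith
      _ = (1 - c * α) * Q := by
          congr 1
          rw [Finset.sum_comm]
          simp only [hQ]
          apply Finset.sum_congr rfl
          intro z hz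
          rw [hl z hz, Finset.sum_mul]
  have hcross : - (2 * c * δ * e) ≤ 2 * ε := by
    have hε0 : 0 ≤ ε := le_trans (abs_nonneg _) he
    have h3 : |c * δ * e| ≤ ε := by
      rw [abs_mul, abs_mul, abs_of_nonneg hc0]
      have h4 : c * |δ| ≤ 1 := by
        have := mul_le_mul hc1 hδ1 (abs_nonneg _) zero_le_one
        simpa using this
      calc c * |δ| * |e| ≤ 1 * ε := mul_le_mul h4 he (abs_nonneg _) zero_le_one
        _ = ε := one_mul _
    have := (abs_le.1 h3).1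
    linarith
  have hfin : (1 - c * α) * Q ≤ (1 - c * a) * Q := by
    apply mul_le_mul_of_nonneg_right _ hQ0
    have := mul_le_mul_of_nonneg_left ha hc0
    linarith
  have hsq : 0 ≤ c ^ 2 * δ ^ 2 * PG :=
    mul_nonneg (mul_nonneg (sq_nonneg _) (sq_nonneg _)) hPG0
  have hgoal : ∑ η ∈ Hs, (s η) ^ 2 / p η ≤ (1 - c * a) * Q + 3 * ε := by
    rw [hsplit, hgood]
    linarith
  exact hgoal

/-- energy form of the array lemma: no quotient `ε / (c a)` -/
theorem array_en {H Z : Type*} (Hs : Finset H) (Zs : Finset Z) (T : H → Z → ℝ)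
    (hT : ∀ η ∈ Hs, ∀ z ∈ Zs, 0 ≤ T η z)
    (p : H → ℝ) (hp : ∀ η ∈ Hs, p η = ∑ z ∈ Zs, T η z) (hp0 : ∀ η ∈ Hs, 0 < p η)
    (l : Z → ℝ) (hl : ∀ z ∈ Zs, l z = ∑ η ∈ Hs, T η z)
    (h1 : ∑ η ∈ Hs, p η = 1)
    (v : Z → ℝ) (lo : ℝ) (hv : ∀ z ∈ Zs, lo ≤ v z ∧ v z ≤ lo + 1)
    (h0 : ∑ z ∈ Zs, l z * v z = 0)
    (B : Finset H) (hB : B ⊆ Hs) (ε : ℝ) (hε : ∑ η ∈ B, p η ≤ ε)
    (S : Finset Z) (hS : S ⊆ Zs) (c a : ℝ) (hc0 : 0 < c) (ha0 : 0 < a)
    (hmin : ∀ η ∈ Hs, η ∉ B → ∀ z ∈ S, c * p η * l z ≤ T η z)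
    (ha : a ≤ ∑ z ∈ S, l z) :
    ∑ η ∈ Hs, (∑ z ∈ Zs, T η z * v z) ^ 2 / p η
      ≤ ε + (∑ z ∈ Zs, l z * v z ^ 2
          - ∑ η ∈ Hs, (∑ z ∈ Zs, T η z * v z) ^ 2 / p η) / (c * a) := by
  classical
  set α : ℝ := ∑ z ∈ S, l z with hα
  have hα0 : 0 < α := lt_of_lt_of_le ha0 ha
  have hl0 : ∀ z ∈ Zs, 0 ≤ l z := by
    intro z hz
    rw [hl z hz]
    exact Finset.sum_nonneg (fun η hη => hT η hη z hz)
  set μ : ℝ := (∑ z ∈ S, l z * v z) / α with hμ
  have hμα : ∑ z ∈ S, l z * v z = μ * α := by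
    rw [hμ]; field_simp
  have hμb : lo ≤ μ ∧ μ ≤ lo + 1 := by
    constructor
    · rw [hμ, le_div_iff₀ hα0, hα, Finset.mul_sum]
      apply Finset.sum_le_sum
      intro z hz
      rw [mul_comm]
      exact mul_le_mul_of_nonneg_left (hv z (hS hz)).1 (hl0 z (hS hz))
    · rw [hμ, div_le_iff₀ hα0, hα, Finset.mul_sum]
      apply Finset.sum_le_sum
      intro z hz
      rw [mul_comm (lo + 1)]
      exact mul_le_mul_of_nonneg_left (hv z (hS hz)).2 (hl0 z (hS hz))
  set s : H → ℝ := fun η => ∑ z ∈ Zs, T η z * v z with hs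
  set q : H → ℝ := fun η => s η / p η with hq
  have hqs : ∀ η ∈ Hs, s η = q η * p η := by
    intro η hη
    have := (hp0 η hη).ne'
    simp only [hq]
    field_simp
  have hqb : ∀ η ∈ Hs, lo ≤ q η ∧ q η ≤ lo + 1 := by
    intro η hη
    have hpη := hp0 η hη
    constructor
    · simp only [hq, hs]
      rw [le_div_iff₀ hpη, hp η hη, Finset.mul_sum]
      apply Finset.sum_le_sum
      intro z hz
      rw [mul_comm]
      exact mul_le_mul_of_nonneg_left (hv z hz).1 (hT η hη z hz)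
    · simp only [hq, hs]
      rw [div_le_iff₀ hpη, hp η hη, Finset.mul_sum]
      apply Finset.sum_le_sum
      intro z hz
      rw [mul_comm (lo + 1)]
      exact mul_le_mul_of_nonneg_left (hv z hz).2 (hT η hη z hz)
  have hssum : ∑ η ∈ Hs, s η = 0 := by
    rw [← h0]
    simp only [hs]
    rw [Finset.sum_comm]
    apply Finset.sum_congr rfl
    intro z hz
    rw [hl z hz, Finset.sum_mul]
  -- the energy
  set D : ℝ := ∑ z ∈ Zs, l z * v z ^ 2 - ∑ η ∈ Hs, (s η) ^ 2 / p η with hD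
  have hDe : D = ∑ η ∈ Hs, ∑ z ∈ Zs, T η z * (v z - q η) ^ 2 := by
    have e1 : ∀ η ∈ Hs, ∑ z ∈ Zs, T η z * (v z - q η) ^ 2
        = ∑ z ∈ Zs, T η z * v z ^ 2 - (s η) ^ 2 / p η := by
      intro η hη
      have hpη := (hp0 η hη).ne'
      have e2 : ∀ z ∈ Zs, T η z * (v z - q η) ^ 2
          = T η z * v z ^ 2 - 2 * q η * (T η z * v z) + q η ^ 2 * T η z := by
        intro z _
        ring
      rw [Finset.sum_congr rfl e2, Finset.sum_add_distrib, Finset.sum_sub_distrib,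
        ← Finset.mul_sum, ← Finset.mul_sum, ← hp η hη]
      have e3 : ∑ z ∈ Zs, T η z * v z = s η := rfl
      rw [e3]
      have e4 := hqs η hη
      have e5 : (s η) ^ 2 / p η = q η ^ 2 * p η := by
        rw [e4]; field_simp
      rw [e5, e4]
      ring
    rw [Finset.sum_congr rfl e1, Finset.sum_sub_distrib, hD]
    congr 1
    rw [Finset.sum_comm]
    apply Finset.sum_congr rfl
    intro z hz
    rw [hl z hz, Finset.sum_mul]
  have hlow : c * α * ∑ η ∈ Hs \ B, p η * (q η - μ) ^ 2 ≤ D := by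
    rw [hDe, Finset.mul_sum]
    refine le_trans ?_ (Finset.sum_le_sum_of_subset_of_nonneg (Finset.sdiff_subset (t := B))
      (fun η hη _ => Finset.sum_nonneg (fun z hz => mul_nonneg (hT η hη z hz) (sq_nonneg _))))
    apply Finset.sum_le_sum
    intro η hη
    have hηH := (Finset.mem_sdiff.1 hη).1
    have hηB := (Finset.mem_sdiff.1 hη).2
    have hpη := hp0 η hηH
    have e1 : α * (q η - μ) ^ 2 ≤ ∑ z ∈ S, l z * (v z - q η) ^ 2 := by
      have h2 := wcs S l (fun z => v z - q η) (fun z hz => hl0 z (hS hz))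
      have e2 : ∑ z ∈ S, l z * (v z - q η) = α * (μ - q η) := by
        have : ∀ z ∈ S, l z * (v z - q η) = l z * v z - q η * l z := by
          intro z _; ring
        rw [Finset.sum_congr rfl this, Finset.sum_sub_distrib, ← Finset.mul_sum, hμα, ← hα]
        ring
      rw [e2, ← hα] at h2
      have h3 : α * (α * (q η - μ) ^ 2) ≤ α * ∑ z ∈ S, l z * (v z - q η) ^ 2 := by
        calc α * (α * (q η - μ) ^ 2) = (α * (μ - q η)) ^ 2 := by ring
          _ ≤ _ := h2
      exact le_of_mul_le_mul_left h3 hα0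
    calc c * α * (p η * (q η - μ) ^ 2) = c * p η * (α * (q η - μ) ^ 2) := by ring
      _ ≤ c * p η * ∑ z ∈ S, l z * (v z - q η) ^ 2 :=
          mul_le_mul_of_nonneg_left e1 (mul_pos hc0 hpη).le
      _ = ∑ z ∈ S, (c * p η * l z) * (v z - q η) ^ 2 := by
          rw [Finset.mul_sum]
          apply Finset.sum_congr rfl
          intro z _
          ring
      _ ≤ ∑ z ∈ S, T η z * (v z - q η) ^ 2 := by
          apply Finset.sum_le_sum
          intro z hz
          exact mul_le_mul_of_nonneg_right (hmin η hηH hηB z hz) (sq_nonneg _)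
      _ ≤ ∑ z ∈ Zs, T η z * (v z - q η) ^ 2 :=
          Finset.sum_le_sum_of_subset_of_nonneg hS
            (fun z hz _ => mul_nonneg (hT η hηH z hz) (sq_nonneg _))
  have hG0 : 0 ≤ ∑ η ∈ Hs \ B, p η * (q η - μ) ^ 2 :=
    Finset.sum_nonneg (fun η hη =>
      mul_nonneg (hp0 η (Finset.mem_sdiff.1 hη).1).le (sq_nonneg _))
  have hgood : ∑ η ∈ Hs \ B, p η * (q η - μ) ^ 2 ≤ D / (c * a) := by
    rw [le_div_iff₀ (mul_pos hc0 ha0)]
    have h2 : c * a ≤ c * α := mul_le_mul_of_nonneg_left ha hc0.le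
    have h3 := mul_le_mul_of_nonneg_right h2 hG0
    linarith
  have hbad : ∑ η ∈ B, p η * (q η - μ) ^ 2 ≤ ε := by
    refine le_trans (Finset.sum_le_sum ?_) hε
    intro η hη
    have hpη := hp0 η (hB hη)
    have h2 := hqb η (hB hη)
    have h3 : (q η - μ) ^ 2 ≤ 1 := by
      have h4 : q η - μ ≤ 1 := by linarith [h2.2, hμb.1]
      have h5 : -1 ≤ q η - μ := by linarith [h2.1, hμb.2]
      nlinarith
    calc p η * (q η - μ) ^ 2 ≤ p η * 1 := mul_le_mul_of_nonneg_left h3 hpη.le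
      _ = p η := mul_one _
  have hvar : ∑ η ∈ Hs, (s η) ^ 2 / p η ≤ ∑ η ∈ Hs, p η * (q η - μ) ^ 2 := by
    have e1 : ∑ η ∈ Hs, p η * (q η - μ) ^ 2
        = ∑ η ∈ Hs, (s η) ^ 2 / p η + μ ^ 2 := by
      have e2 : ∀ η ∈ Hs, p η * (q η - μ) ^ 2
          = (s η) ^ 2 / p η - 2 * μ * s η + μ ^ 2 * p η := by
        intro η hη
        have hpη := (hp0 η hη).ne'
        have e5 : (s η) ^ 2 / p η = q η ^ 2 * p η := by
          rw [hqs η hη]; field_simp
        rw [e5, hqs η hη]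
        ring
      rw [Finset.sum_congr rfl e2, Finset.sum_add_distrib, Finset.sum_sub_distrib,
        ← Finset.mul_sum, ← Finset.mul_sum, hssum, h1]
      ring
    rw [e1]
    nlinarith [sq_nonneg μ]
  have hsplit : ∑ η ∈ Hs, p η * (q η - μ) ^ 2
      = ∑ η ∈ Hs \ B, p η * (q η - μ) ^ 2 + ∑ η ∈ B, p η * (q η - μ) ^ 2 :=
    (Finset.sum_sdiff hB).symm
  have hgoal : ∑ η ∈ Hs, (s η) ^ 2 / p η ≤ ε + D / (c * a) := by linarith
  exact hgoal

/-! ## histories -/

section Hist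

variable (W : Finset Ω) (M u : Ω → ℝ)

theorem ms_pos (hM : ∀ w ∈ W, 0 < M w) {X : Type*} (g : Ω → X) {x : X}
    (hx : x ∈ W.image g) : 0 < ms W M g x := by
  obtain ⟨w, hw, rfl⟩ := Finset.mem_image.1 hx
  apply Finset.sum_pos
  · intro w' hw'
    exact hM w' (Finset.mem_filter.1 hw').1
  · exact ⟨w, Finset.mem_filter.2 ⟨hw, rfl⟩⟩

theorem sm_abs (hM : ∀ w ∈ W, 0 < M w) (hu : ∀ w ∈ W, |u w| ≤ 1) {X : Type*} (g : Ω → X) (x : X) :
    |sm W M u g x| ≤ ms W M g x := by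
  unfold sm ms
  calc |∑ w ∈ W.filter (fun w => g w = x), M w * u w|
      ≤ ∑ w ∈ W.filter (fun w => g w = x), |M w * u w| := Finset.abs_sum_le_sum_abs _ _
    _ ≤ ∑ w ∈ W.filter (fun w => g w = x), M w := by
        apply Finset.sum_le_sum
        intro w hw
        have hw' := (Finset.mem_filter.1 hw).1
        rw [abs_mul, abs_of_pos (hM w hw')]
        calc M w * |u w| ≤ M w * 1 := mul_le_mul_of_nonneg_left (hu w hw') (hM w hw').le
          _ = M w := mul_one _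

theorem sum_ms {X : Type*} (g : Ω → X) :
    ∑ x ∈ W.image g, ms W M g x = ∑ w ∈ W, M w := by
  unfold ms
  exact Finset.sum_fiberwise_of_maps_to (fun w hw => Finset.mem_image_of_mem g hw) M

theorem sum_sm {X : Type*} (g : Ω → X) :
    ∑ x ∈ W.image g, sm W M u g x = ∑ w ∈ W, M w * u w := by
  unfold sm
  exact Finset.sum_fiberwise_of_maps_to (fun w hw => Finset.mem_image_of_mem g hw) _

theorem Vr_le_mass (hM : ∀ w ∈ W, 0 < M w) (hu : ∀ w ∈ W, |u w| ≤ 1) {X : Type*} (g : Ω → X) :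
    Vr W M u g ≤ ∑ w ∈ W, M w := by
  rw [← sum_ms W M g]
  unfold Vr
  apply Finset.sum_le_sum
  intro x hx
  have hp := ms_pos W M hM g hx
  rw [div_le_iff₀ hp]
  have h := abs_le.1 (sm_abs W M u hM hu g x)
  nlinarith

/-- a factor map on `W` -/
theorem factor {X Y : Type*} (g : Ω → X) (h : Ω → Y)
    (hgh : ∀ w ∈ W, ∀ w' ∈ W, h w = h w' → g w = g w') (w₀ : Ω) :
    ∃ r : Y → X, ∀ w ∈ W, g w = r (h w) := by
  refine ⟨fun y => if hy : ∃ w ∈ W, h w = y then g (Classical.choose hy) else g w₀, ?_⟩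
  intro w hw
  have hy : ∃ w' ∈ W, h w' = h w := ⟨w, hw, rfl⟩
  simp only [dif_pos hy]
  have hc := Classical.choose_spec hy
  exact hgh w hw _ hc.1 hc.2.symm

/-- a coarser history has a smaller second moment -/
theorem Vr_mono (hM : ∀ w ∈ W, 0 < M w) {X Y : Type*} (g : Ω → X) (h : Ω → Y)
    (hgh : ∀ w ∈ W, ∀ w' ∈ W, h w = h w' → g w = g w') :
    Vr W M u g ≤ Vr W M u h := by
  rcases W.eq_empty_or_nonempty with hW | ⟨w₀, hw₀⟩
  · subst hW; simp [Vr]
  obtain ⟨r, hr⟩ := factor W g h hgh w₀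
  unfold Vr
  have hmaps : ∀ y ∈ W.image h, r y ∈ W.image g := by
    intro y hy
    obtain ⟨w, hw, rfl⟩ := Finset.mem_image.1 hy
    rw [← hr w hw]
    exact Finset.mem_image_of_mem g hw
  rw [← Finset.sum_fiberwise_of_maps_to hmaps]
  apply Finset.sum_le_sum
  intro x hx
  have hfil : ∀ y ∈ (W.image h).filter (fun y => r y = x),
      (W.filter (fun w => g w = x)).filter (fun w => h w = y) = W.filter (fun w => h w = y) := by
    intro y hy
    have hyx := (Finset.mem_filter.1 hy).2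
    ext w
    simp only [Finset.mem_filter]
    constructor
    · rintro ⟨⟨h1, _⟩, h3⟩
      exact ⟨h1, h3⟩
    · rintro ⟨h1, h2⟩
      refine ⟨⟨h1, ?_⟩, h2⟩
      rw [hr w h1, h2, hyx]
  have hmaps2 : ∀ w ∈ W.filter (fun w => g w = x), h w ∈ (W.image h).filter (fun y => r y = x) := by
    intro w hw
    have hw' := Finset.mem_filter.1 hw
    rw [Finset.mem_filter]
    exact ⟨Finset.mem_image_of_mem h hw'.1, by rw [← hr w hw'.1]; exact hw'.2⟩
  have e1 : sm W M u g x = ∑ y ∈ (W.image h).filter (fun y => r y = x), sm W M u h y := by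
    unfold sm
    rw [← Finset.sum_fiberwise_of_maps_to hmaps2]
    apply Finset.sum_congr rfl
    intro y hy
    rw [hfil y hy]
  have e2 : ms W M g x = ∑ y ∈ (W.image h).filter (fun y => r y = x), ms W M h y := by
    unfold ms
    rw [← Finset.sum_fiberwise_of_maps_to hmaps2]
    apply Finset.sum_congr rfl
    intro y hy
    rw [hfil y hy]
  rw [e1, e2]
  apply Finset.sq_sum_div_le_sum_sq_div
  intro y hy
  exact ms_pos W M hM h (Finset.mem_filter.1 hy).1

theorem jm_nonneg (hM : ∀ w ∈ W, 0 < M w) {X Z : Type*} (g : Ω → X) (h : Ω → Z) (x : X) (z : Z) :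
    0 ≤ jm W M g h x z :=
  Finset.sum_nonneg (fun w hw => (hM w (Finset.mem_filter.1 hw).1).le)

theorem sum_jm_right {X Z : Type*} (g : Ω → X) (h : Ω → Z) (x : X) :
    ∑ z ∈ W.image h, jm W M g h x z = ms W M g x := by
  unfold jm ms
  have hmaps : ∀ w ∈ W.filter (fun w => g w = x), h w ∈ W.image h := fun w hw =>
    Finset.mem_image_of_mem h (Finset.mem_filter.1 hw).1
  rw [← Finset.sum_fiberwise_of_maps_to hmaps]
  apply Finset.sum_congr rfl
  intro z _
  rw [Finset.filter_filter]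

theorem sum_jm_left {X Z : Type*} (g : Ω → X) (h : Ω → Z) (z : Z) :
    ∑ x ∈ W.image g, jm W M g h x z = ms W M h z := by
  unfold jm ms
  have hmaps : ∀ w ∈ W.filter (fun w => h w = z), g w ∈ W.image g := fun w hw =>
    Finset.mem_image_of_mem g (Finset.mem_filter.1 hw).1
  rw [← Finset.sum_fiberwise_of_maps_to hmaps]
  apply Finset.sum_congr rfl
  intro x _
  rw [Finset.filter_filter]
  apply Finset.sum_congr _ (fun _ _ => rfl)
  ext w
  simp only [Finset.mem_filter]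
  tauto

/-- the joint first moment -/
def js {X Z : Type*} (g : Ω → X) (h : Ω → Z) (x : X) (z : Z) : ℝ :=
  ∑ w ∈ W.filter (fun w => g w = x ∧ h w = z), M w * u w

theorem sum_js_right {X Z : Type*} (g : Ω → X) (h : Ω → Z) (x : X) :
    ∑ z ∈ W.image h, js W M u g h x z = sm W M u g x := by
  unfold js sm
  have hmaps : ∀ w ∈ W.filter (fun w => g w = x), h w ∈ W.image h := fun w hw =>
    Finset.mem_image_of_mem h (Finset.mem_filter.1 hw).1
  rw [← Finset.sum_fiberwise_of_maps_to hmaps]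
  apply Finset.sum_congr rfl
  intro z _
  rw [Finset.filter_filter]

/-- ONE STEP of the contraction. `π` = outer history, `ζ` = next interface (on `S`) or next history;
`hmk`: Markov property (`u` and `π` independent given `ζ`); `hmin`: minorization of the law of `ζ`
on `S` by its own marginal, outside the exceptional classes `B`. -/
theorem Vr_step (hM : ∀ w ∈ W, 0 < M w) (hM1 : ∑ w ∈ W, M w = 1)
    (hu : ∀ w ∈ W, |u w| ≤ 1) (hu0 : ∑ w ∈ W, M w * u w = 0)
    {X Z : Type*} (π : Ω → X) (ζ : Ω → Z)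
    (hmk0 : ∀ w ∈ W, ∀ w₁ ∈ W,
      js W M u π ζ (π w) (ζ w₁) * ms W M ζ (ζ w₁) = jm W M π ζ (π w) (ζ w₁) * sm W M u ζ (ζ w₁))
    (B : Set X) (ε : ℝ) (hB : wt W M (fun w => π w ∈ B) ≤ ε)
    (S : Set Z) (c a : ℝ) (hc0 : 0 ≤ c) (hc1 : c ≤ 1)
    (hmin0 : ∀ w ∈ W, π w ∉ B → ∀ w₁ ∈ W, ζ w₁ ∈ S →
      c * ms W M π (π w) * ms W M ζ (ζ w₁) ≤ jm W M π ζ (π w) (ζ w₁))
    (ha : a ≤ wt W M (fun w => ζ w ∈ S)) :
    Vr W M u π ≤ (1 - c * a) * Vr W M u ζ + 3 * ε := by
  have hmk : ∀ x ∈ W.image π, ∀ z ∈ W.image ζ,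
      js W M u π ζ x z * ms W M ζ z = jm W M π ζ x z * sm W M u ζ z := by
    intro x hx z hz
    obtain ⟨w, hw, rfl⟩ := Finset.mem_image.1 hx
    obtain ⟨w₁, hw₁, rfl⟩ := Finset.mem_image.1 hz
    exact hmk0 w hw w₁ hw₁
  have hmin : ∀ x ∈ W.image π, x ∉ B → ∀ z ∈ W.image ζ, z ∈ S →
      c * ms W M π x * ms W M ζ z ≤ jm W M π ζ x z := by
    intro x hx hxB z hz hzS
    obtain ⟨w, hw, rfl⟩ := Finset.mem_image.1 hx
    obtain ⟨w₁, hw₁, rfl⟩ := Finset.mem_image.1 hz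
    exact hmin0 w hw hxB w₁ hw₁ hzS
  set v : Z → ℝ := fun z => sm W M u ζ z / ms W M ζ z with hv
  have hv1 : ∀ z ∈ W.image ζ, |v z| ≤ 1 := by
    intro z hz
    have hp := ms_pos W M hM ζ hz
    simp only [hv]
    rw [abs_div, abs_of_pos hp, div_le_one hp]
    exact sm_abs W M u hM hu ζ z
  have hsv : ∀ z ∈ W.image ζ, ms W M ζ z * v z = sm W M u ζ z := by
    intro z hz
    have hp := (ms_pos W M hM ζ hz).ne'
    simp only [hv]
    field_simp
  have h0 : ∑ z ∈ W.image ζ, ms W M ζ z * v z = 0 := by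
    rw [Finset.sum_congr rfl hsv, sum_sm, hu0]
  have hsum : ∀ x ∈ W.image π, ∑ z ∈ W.image ζ, jm W M π ζ x z * v z = sm W M u π x := by
    intro x hx
    rw [← sum_js_right W M u π ζ x]
    apply Finset.sum_congr rfl
    intro z hz
    have hp := (ms_pos W M hM ζ hz).ne'
    have h := hmk x hx z hz
    simp only [hv]
    rw [← mul_div_assoc, ← h]
    field_simp
  have hVζ : Vr W M u ζ = ∑ z ∈ W.image ζ, ms W M ζ z * v z ^ 2 := by
    unfold Vr
    apply Finset.sum_congr rfl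
    intro z hz
    have hp := (ms_pos W M hM ζ hz).ne'
    simp only [hv]
    field_simp
  have hVπ : Vr W M u π
      = ∑ x ∈ W.image π, (∑ z ∈ W.image ζ, jm W M π ζ x z * v z) ^ 2 / ms W M π x := by
    unfold Vr
    apply Finset.sum_congr rfl
    intro x hx
    rw [hsum x hx]
  rw [hVπ, hVζ]
  apply array (W.image π) (W.image ζ) (jm W M π ζ)
    (fun x _ z _ => jm_nonneg W M hM π ζ x z) (ms W M π)
    (fun x _ => (sum_jm_right W M π ζ x).symm) (fun x hx => ms_pos W M hM π hx) (ms W M ζ)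
    (fun z _ => (sum_jm_left W M π ζ z).symm) (by rw [sum_ms, hM1]) v hv1 h0
    ((W.image π).filter (fun x => x ∈ B)) (Finset.filter_subset _ _) ε _
    ((W.image ζ).filter (fun z => z ∈ S)) (Finset.filter_subset _ _) c a hc0 hc1 _ _
  · refine le_trans (le_of_eq ?_) hB
    unfold wt
    have hmaps : ∀ w ∈ W.filter (fun w => π w ∈ B),
        π w ∈ (W.image π).filter (fun x => x ∈ B) := fun w hw =>
      Finset.mem_filter.2 ⟨Finset.mem_image_of_mem π (Finset.mem_filter.1 hw).1,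
        (Finset.mem_filter.1 hw).2⟩
    rw [← Finset.sum_fiberwise_of_maps_to hmaps]
    apply Finset.sum_congr rfl
    intro x hx
    unfold ms
    rw [Finset.filter_filter]
    apply Finset.sum_congr _ (fun _ _ => rfl)
    have hxB := (Finset.mem_filter.1 hx).2
    ext w
    simp only [Finset.mem_filter]
    constructor
    · rintro ⟨h1, h2⟩
      exact ⟨h1, by rw [h2]; exact hxB, h2⟩
    · rintro ⟨h1, _, h3⟩
      exact ⟨h1, h3⟩
  · intro x hx hxB z hz
    have hz' := Finset.mem_filter.1 hz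
    apply hmin x hx _ z hz'.1 hz'.2
    intro h
    exact hxB (Finset.mem_filter.2 ⟨hx, h⟩)
  · refine le_trans ha (le_of_eq ?_)
    unfold wt
    have hmaps : ∀ w ∈ W.filter (fun w => ζ w ∈ S),
        ζ w ∈ (W.image ζ).filter (fun x => x ∈ S) := fun w hw =>
      Finset.mem_filter.2 ⟨Finset.mem_image_of_mem ζ (Finset.mem_filter.1 hw).1,
        (Finset.mem_filter.1 hw).2⟩
    rw [← Finset.sum_fiberwise_of_maps_to hmaps]
    apply Finset.sum_congr rfl
    intro x hx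
    unfold ms
    rw [Finset.filter_filter]
    apply Finset.sum_congr _ (fun _ _ => rfl)
    have hxB := (Finset.mem_filter.1 hx).2
    ext w
    simp only [Finset.mem_filter]
    constructor
    · rintro ⟨h1, _, h3⟩
      exact ⟨h1, h3⟩
    · rintro ⟨h1, h2⟩
      exact ⟨h1, by rw [h2]; exact hxB, h2⟩

/-- ONE STEP, energy form: `Vr π ≤ ε + (Vr ζ - Vr π) / (c a)`. -/
theorem Vr_step_en (hM : ∀ w ∈ W, 0 < M w) (hM1 : ∑ w ∈ W, M w = 1)
    (lo : ℝ) (hu : ∀ w ∈ W, lo ≤ u w ∧ u w ≤ lo + 1) (hu0 : ∑ w ∈ W, M w * u w = 0)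
    {X Z : Type*} (π : Ω → X) (ζ : Ω → Z)
    (hmk0 : ∀ w ∈ W, ∀ w₁ ∈ W,
      js W M u π ζ (π w) (ζ w₁) * ms W M ζ (ζ w₁) = jm W M π ζ (π w) (ζ w₁) * sm W M u ζ (ζ w₁))
    (B : Set X) (ε : ℝ) (hB : wt W M (fun w => π w ∈ B) ≤ ε)
    (S : Set Z) (c a : ℝ) (hc0 : 0 < c) (ha0 : 0 < a)
    (hmin0 : ∀ w ∈ W, π w ∉ B → ∀ w₁ ∈ W, ζ w₁ ∈ S →
      c * ms W M π (π w) * ms W M ζ (ζ w₁) ≤ jm W M π ζ (π w) (ζ w₁))
    (ha : a ≤ wt W M (fun w => ζ w ∈ S)) :
    Vr W M u π ≤ ε + (Vr W M u ζ - Vr W M u π) / (c * a) := by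
  have hmk : ∀ x ∈ W.image π, ∀ z ∈ W.image ζ,
      js W M u π ζ x z * ms W M ζ z = jm W M π ζ x z * sm W M u ζ z := by
    intro x hx z hz
    obtain ⟨w, hw, rfl⟩ := Finset.mem_image.1 hx
    obtain ⟨w₁, hw₁, rfl⟩ := Finset.mem_image.1 hz
    exact hmk0 w hw w₁ hw₁
  have hmin : ∀ x ∈ W.image π, x ∉ B → ∀ z ∈ W.image ζ, z ∈ S →
      c * ms W M π x * ms W M ζ z ≤ jm W M π ζ x z := by
    intro x hx hxB z hz hzS
    obtain ⟨w, hw, rfl⟩ := Finset.mem_image.1 hx
    obtain ⟨w₁, hw₁, rfl⟩ := Finset.mem_image.1 hz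
    exact hmin0 w hw hxB w₁ hw₁ hzS
  set v : Z → ℝ := fun z => sm W M u ζ z / ms W M ζ z with hv
  have hv1 : ∀ z ∈ W.image ζ, lo ≤ v z ∧ v z ≤ lo + 1 := by
    intro z hz
    have hp := ms_pos W M hM ζ hz
    simp only [hv]
    constructor
    · rw [le_div_iff₀ hp]
      unfold sm ms
      rw [Finset.mul_sum]
      apply Finset.sum_le_sum
      intro w hw
      have hw' := (Finset.mem_filter.1 hw).1
      rw [mul_comm]
      exact mul_le_mul_of_nonneg_left (hu w hw').1 (hM w hw').le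
    · rw [div_le_iff₀ hp]
      unfold sm ms
      rw [Finset.mul_sum]
      apply Finset.sum_le_sum
      intro w hw
      have hw' := (Finset.mem_filter.1 hw).1
      rw [mul_comm (lo + 1)]
      exact mul_le_mul_of_nonneg_left (hu w hw').2 (hM w hw').le
  have hsv : ∀ z ∈ W.image ζ, ms W M ζ z * v z = sm W M u ζ z := by
    intro z hz
    have hp := (ms_pos W M hM ζ hz).ne'
    simp only [hv]
    field_simp
  have h0 : ∑ z ∈ W.image ζ, ms W M ζ z * v z = 0 := by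
    rw [Finset.sum_congr rfl hsv, sum_sm, hu0]
  have hsum : ∀ x ∈ W.image π, ∑ z ∈ W.image ζ, jm W M π ζ x z * v z = sm W M u π x := by
    intro x hx
    rw [← sum_js_right W M u π ζ x]
    apply Finset.sum_congr rfl
    intro z hz
    have hp := (ms_pos W M hM ζ hz).ne'
    have h := hmk x hx z hz
    simp only [hv]
    rw [← mul_div_assoc, ← h]
    field_simp
  have hVζ : Vr W M u ζ = ∑ z ∈ W.image ζ, ms W M ζ z * v z ^ 2 := by
    unfold Vr
    apply Finset.sum_congr rfl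
    intro z hz
    have hp := (ms_pos W M hM ζ hz).ne'
    simp only [hv]
    field_simp
  have hVπ : Vr W M u π
      = ∑ x ∈ W.image π, (∑ z ∈ W.image ζ, jm W M π ζ x z * v z) ^ 2 / ms W M π x := by
    unfold Vr
    apply Finset.sum_congr rfl
    intro x hx
    rw [hsum x hx]
  rw [hVπ, hVζ]
  apply array_en (W.image π) (W.image ζ) (jm W M π ζ)
    (fun x _ z _ => jm_nonneg W M hM π ζ x z) (ms W M π)
    (fun x _ => (sum_jm_right W M π ζ x).symm) (fun x hx => ms_pos W M hM π hx) (ms W M ζ)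
    (fun z _ => (sum_jm_left W M π ζ z).symm) (by rw [sum_ms, hM1]) v lo hv1 h0
    ((W.image π).filter (fun x => x ∈ B)) (Finset.filter_subset _ _) ε _
    ((W.image ζ).filter (fun z => z ∈ S)) (Finset.filter_subset _ _) c a hc0 ha0 _ _
  · refine le_trans (le_of_eq ?_) hB
    unfold wt
    have hmaps : ∀ w ∈ W.filter (fun w => π w ∈ B),
        π w ∈ (W.image π).filter (fun x => x ∈ B) := fun w hw =>
      Finset.mem_filter.2 ⟨Finset.mem_image_of_mem π (Finset.mem_filter.1 hw).1,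
        (Finset.mem_filter.1 hw).2⟩
    rw [← Finset.sum_fiberwise_of_maps_to hmaps]
    apply Finset.sum_congr rfl
    intro x hx
    unfold ms
    rw [Finset.filter_filter]
    apply Finset.sum_congr _ (fun _ _ => rfl)
    have hxB := (Finset.mem_filter.1 hx).2
    ext w
    simp only [Finset.mem_filter]
    constructor
    · rintro ⟨h1, h2⟩
      exact ⟨h1, by rw [h2]; exact hxB, h2⟩
    · rintro ⟨h1, _, h3⟩
      exact ⟨h1, h3⟩
  · intro x hx hxB z hz
    have hz' := Finset.mem_filter.1 hz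
    apply hmin x hx _ z hz'.1 hz'.2
    intro h
    exact hxB (Finset.mem_filter.2 ⟨hx, h⟩)
  · refine le_trans ha (le_of_eq ?_)
    unfold wt
    have hmaps : ∀ w ∈ W.filter (fun w => ζ w ∈ S),
        ζ w ∈ (W.image ζ).filter (fun x => x ∈ S) := fun w hw =>
      Finset.mem_filter.2 ⟨Finset.mem_image_of_mem ζ (Finset.mem_filter.1 hw).1,
        (Finset.mem_filter.1 hw).2⟩
    rw [← Finset.sum_fiberwise_of_maps_to hmaps]
    apply Finset.sum_congr rfl
    intro x hx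
    unfold ms
    rw [Finset.filter_filter]
    apply Finset.sum_congr _ (fun _ _ => rfl)
    have hxB := (Finset.mem_filter.1 hx).2
    ext w
    simp only [Finset.mem_filter]
    constructor
    · rintro ⟨h1, _, h3⟩
      exact ⟨h1, h3⟩
    · rintro ⟨h1, h2⟩
      exact ⟨h1, by rw [h2]; exact hxB, h2⟩

/-- an outer variable is almost uncorrelated with `u` -/
theorem outer_bound (hM : ∀ w ∈ W, 0 < M w) (hM1 : ∑ w ∈ W, M w = 1)
    {X : Type*} (π : Ω → X) (ψ : X → ℝ) (hψ : ∀ w ∈ W, |ψ (π w)| ≤ 1) :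
    |∑ w ∈ W, M w * (ψ (π w) * u w)| ≤ Real.sqrt (Vr W M u π) := by
  apply Real.abs_le_sqrt
  have e1 : ∑ w ∈ W, M w * (ψ (π w) * u w) = ∑ x ∈ W.image π, ψ x * sm W M u π x := by
    rw [← Finset.sum_fiberwise_of_maps_to (fun w hw => Finset.mem_image_of_mem π hw)]
    apply Finset.sum_congr rfl
    intro x _
    unfold sm
    rw [Finset.mul_sum]
    apply Finset.sum_congr rfl
    intro w hw
    rw [(Finset.mem_filter.1 hw).2]
    ring
  have e2 : ∀ x ∈ W.image π, ψ x * sm W M u π x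
      = ms W M π x * (ψ x * (sm W M u π x / ms W M π x)) := by
    intro x hx
    have hp := (ms_pos W M hM π hx).ne'
    field_simp
  rw [e1, Finset.sum_congr rfl e2]
  refine le_trans (wcs _ _ _ (fun x hx => (ms_pos W M hM π hx).le)) ?_
  rw [sum_ms, hM1, one_mul]
  unfold Vr
  apply Finset.sum_le_sum
  intro x hx
  have hp := ms_pos W M hM π hx
  obtain ⟨w, hw, hwx⟩ := Finset.mem_image.1 hx
  have h1 : |ψ x| ≤ 1 := by rw [← hwx]; exact hψ w hw
  have h2 : ψ x ^ 2 ≤ 1 := by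
    have := abs_le.1 h1
    nlinarith
  have h3 : ms W M π x * (ψ x * (sm W M u π x / ms W M π x)) ^ 2
      = ψ x ^ 2 * ((sm W M u π x) ^ 2 / ms W M π x) := by
    have hp' := hp.ne'
    field_simp
  rw [h3]
  calc ψ x ^ 2 * ((sm W M u π x) ^ 2 / ms W M π x)
      ≤ 1 * ((sm W M u π x) ^ 2 / ms W M π x) :=
        mul_le_mul_of_nonneg_right h2 (div_nonneg (sq_nonneg _) hp.le)
    _ = _ := one_mul _

end Hist

/-! ## the chain -/

/-- the recursion `V k ≤ q V (k+1) + e`, `V K ≤ 1` -/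
theorem recur (V : ℕ → ℝ) (q e : ℝ) (hq0 : 0 ≤ q) (hq1 : q < 1) (he : 0 ≤ e) (K : ℕ)
    (hstep : ∀ k < K, V k ≤ q * V (k + 1) + e) (hK : V K ≤ 1) :
    V 0 ≤ q ^ K + e / (1 - q) := by
  have h1q : 0 < 1 - q := by linarith
  have key : ∀ j ≤ K, V (K - j) ≤ q ^ j + e / (1 - q) := by
    intro j
    induction j with
    | zero =>
      intro _
      have : 0 ≤ e / (1 - q) := div_nonneg he h1q.le
      simp only [Nat.sub_zero, pow_zero]
      linarith
    | succ j ih =>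
      intro hj
      have ih' := ih (by omega)
      have hs := hstep (K - (j + 1)) (by omega)
      have e1 : K - (j + 1) + 1 = K - j := by omega
      rw [e1] at hs
      have h2 : q * V (K - j) ≤ q * (q ^ j + e / (1 - q)) := mul_le_mul_of_nonneg_left ih' hq0
      have h3 : q * (q ^ j + e / (1 - q)) + e = q ^ (j + 1) + e / (1 - q) := by
        field_simp
        ring
      linarith
  have := key K le_rfl
  simpa using this

/-- **CONTRACTION OVER SCALES** (normalized weights). `π k` = history at level `k` (`π (k+1)` finer),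
`ζ k` (a function of `π k`) = interface on `S k`, anything finer off `S k`. -/
theorem contr (W : Finset Ω) (M : Ω → ℝ) (hM : ∀ w ∈ W, 0 < M w) (hM1 : ∑ w ∈ W, M w = 1)
    (u : Ω → ℝ) (hu : ∀ w ∈ W, |u w| ≤ 1) (hu0 : ∑ w ∈ W, M w * u w = 0)
    (K : ℕ) {X : ℕ → Type*} {Z : ℕ → Type*}
    (π : ∀ k, Ω → X k) (ζ : ∀ k, Ω → Z k)
    (hζ : ∀ k < K, ∀ w ∈ W, ∀ w' ∈ W, π (k + 1) w = π (k + 1) w' → ζ (k + 1) w = ζ (k + 1) w')
    (hmk : ∀ k < K, ∀ w ∈ W, ∀ w₁ ∈ W,
      js W M u (π k) (ζ (k + 1)) (π k w) (ζ (k + 1) w₁) * ms W M (ζ (k + 1)) (ζ (k + 1) w₁)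
        = jm W M (π k) (ζ (k + 1)) (π k w) (ζ (k + 1) w₁) * sm W M u (ζ (k + 1)) (ζ (k + 1) w₁))
    (B : ∀ k, Set (X k)) (ε : ℝ) (hε : 0 ≤ ε)
    (hB : ∀ k < K, wt W M (fun w => π k w ∈ B k) ≤ ε)
    (S : ∀ k, Set (Z k)) (c a : ℝ) (hc0 : 0 < c) (hc1 : c ≤ 1) (ha0 : 0 < a)
    (hmin : ∀ k < K, ∀ w ∈ W, π k w ∉ B k → ∀ w₁ ∈ W, ζ (k + 1) w₁ ∈ S (k + 1) →
      c * ms W M (π k) (π k w) * ms W M (ζ (k + 1)) (ζ (k + 1) w₁)
        ≤ jm W M (π k) (ζ (k + 1)) (π k w) (ζ (k + 1) w₁))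
    (ha : ∀ k < K, a ≤ wt W M (fun w => ζ (k + 1) w ∈ S (k + 1))) :
    Vr W M u (π 0) ≤ (1 - c * a) ^ K + 3 * ε / (c * a) := by
  rcases Nat.eq_zero_or_pos K with hK | hK
  · subst hK
    have h := Vr_le_mass W M u hM hu (π 0)
    rw [hM1] at h
    have : 0 ≤ 3 * ε / (c * a) := div_nonneg (by linarith) (mul_pos hc0 ha0).le
    simp only [pow_zero]
    linarith
  have ha1 : a ≤ 1 := by
    refine le_trans (ha 0 hK) ?_
    rw [← hM1]
    exact Finset.sum_le_sum_of_subset_of_nonneg (Finset.filter_subset _ _)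
      (fun w hw _ => (hM w hw).le)
  have hca : 0 < c * a := mul_pos hc0 ha0
  have hca1 : c * a ≤ 1 := by
    have := mul_le_mul hc1 ha1 ha0.le zero_le_one
    simpa using this
  have hstep : ∀ k < K, Vr W M u (π k) ≤ (1 - c * a) * Vr W M u (π (k + 1)) + 3 * ε := by
    intro k hk
    have h1 := Vr_step W M u hM hM1 hu hu0 (π k) (ζ (k + 1)) (hmk k hk) (B k) ε (hB k hk)
      (S (k + 1)) c a hc0.le hc1 (hmin k hk) (ha k hk)
    have h2 := Vr_mono W M u hM (ζ (k + 1)) (π (k + 1)) (hζ k hk)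
    have h3 := mul_le_mul_of_nonneg_left h2 (by linarith : 0 ≤ 1 - c * a)
    linarith
  have h := recur (fun k => Vr W M u (π k)) (1 - c * a) (3 * ε) (by linarith) (by linarith)
    (by linarith) K hstep (by
      have h := Vr_le_mass W M u hM hu (π K)
      rwa [hM1] at h)
  have e1 : 1 - (1 - c * a) = c * a := by ring
  rw [e1] at h
  exact h

/-- **CONTRACTION OVER SCALES, ENERGY FORM**: among the `K` windows one has a small martingale
increment; there the minorization gives `Vr ≤ ε + 1 / (K c a)`. No quotient `ε / (c a)`. -/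
theorem contr_en (W : Finset Ω) (M : Ω → ℝ) (hM : ∀ w ∈ W, 0 < M w) (hM1 : ∑ w ∈ W, M w = 1)
    (u : Ω → ℝ) (hu : ∀ w ∈ W, |u w| ≤ 1) (lo : ℝ) (hlo : ∀ w ∈ W, lo ≤ u w ∧ u w ≤ lo + 1)
    (hu0 : ∑ w ∈ W, M w * u w = 0)
    (K : ℕ) (hK : 0 < K) {X : ℕ → Type*} {Z : ℕ → Type*}
    (π : ∀ k, Ω → X k) (ζ : ∀ k, Ω → Z k)
    (hπ : ∀ k < K, ∀ w ∈ W, ∀ w' ∈ W, π (k + 1) w = π (k + 1) w' → π k w = π k w')
    (hζ : ∀ k < K, ∀ w ∈ W, ∀ w' ∈ W, π (k + 1) w = π (k + 1) w' → ζ (k + 1) w = ζ (k + 1) w')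
    (hmk : ∀ k < K, ∀ w ∈ W, ∀ w₁ ∈ W,
      js W M u (π k) (ζ (k + 1)) (π k w) (ζ (k + 1) w₁) * ms W M (ζ (k + 1)) (ζ (k + 1) w₁)
        = jm W M (π k) (ζ (k + 1)) (π k w) (ζ (k + 1) w₁) * sm W M u (ζ (k + 1)) (ζ (k + 1) w₁))
    (B : ∀ k, Set (X k)) (ε : ℝ)
    (hB : ∀ k < K, wt W M (fun w => π k w ∈ B k) ≤ ε)
    (S : ∀ k, Set (Z k)) (c a : ℝ) (hc0 : 0 < c) (ha0 : 0 < a)
    (hmin : ∀ k < K, ∀ w ∈ W, π k w ∉ B k → ∀ w₁ ∈ W, ζ (k + 1) w₁ ∈ S (k + 1) →
      c * ms W M (π k) (π k w) * ms W M (ζ (k + 1)) (ζ (k + 1) w₁)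
        ≤ jm W M (π k) (ζ (k + 1)) (π k w) (ζ (k + 1) w₁))
    (ha : ∀ k < K, a ≤ wt W M (fun w => ζ (k + 1) w ∈ S (k + 1))) :
    Vr W M u (π 0) ≤ ε + 1 / (K * (c * a)) := by
  have hca : 0 < c * a := mul_pos hc0 ha0
  set V : ℕ → ℝ := fun k => Vr W M u (π k) with hV
  have hmono : ∀ k < K, V k ≤ V (k + 1) := by
    intro k hk
    exact Vr_mono W M u hM (π k) (π (k + 1)) (hπ k hk)
  have hmono0 : ∀ k ≤ K, V 0 ≤ V k := by
    intro k
    induction k with
    | zero => intro _; exact le_rfl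
    | succ k ih =>
      intro hk
      exact le_trans (ih (by omega)) (hmono k (by omega))
  have hstep : ∀ k < K, V 0 ≤ ε + (V (k + 1) - V k) / (c * a) := by
    intro k hk
    have h1 := Vr_step_en W M u hM hM1 lo hlo hu0 (π k) (ζ (k + 1)) (hmk k hk) (B k) ε (hB k hk)
      (S (k + 1)) c a hc0 ha0 (hmin k hk) (ha k hk)
    have h2 := Vr_mono W M u hM (ζ (k + 1)) (π (k + 1)) (hζ k hk)
    have h3 : (Vr W M u (ζ (k + 1)) - Vr W M u (π k)) / (c * a)
        ≤ (V (k + 1) - V k) / (c * a) :=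
      div_le_div_of_nonneg_right (by simp only [hV]; linarith) hca.le
    have h4 := hmono0 k hk.le
    have h5 : V k = Vr W M u (π k) := rfl
    linarith
  have hsum : ∑ k ∈ Finset.range K, V 0
      ≤ ∑ k ∈ Finset.range K, (ε + (V (k + 1) - V k) / (c * a)) :=
    Finset.sum_le_sum (fun k hk => hstep k (Finset.mem_range.1 hk))
  have hVK : V K ≤ 1 := by
    have h := Vr_le_mass W M u hM hu (π K)
    rwa [hM1] at h
  have hV0 : 0 ≤ V 0 := by
    apply Finset.sum_nonneg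
    intro x hx
    exact div_nonneg (sq_nonneg _) (ms_pos W M hM (π 0) hx).le
  have htel : ∑ k ∈ Finset.range K, (V (k + 1) - V k) = V K - V 0 := Finset.sum_range_sub V K
  rw [Finset.sum_add_distrib, ← Finset.sum_div, htel, Finset.sum_const, Finset.sum_const,
    Finset.card_range, nsmul_eq_mul, nsmul_eq_mul] at hsum
  have hKr : (0 : ℝ) < K := Nat.cast_pos.2 hK
  have h6 : (V K - V 0) / (c * a) ≤ 1 / (c * a) :=
    div_le_div_of_nonneg_right (by linarith) hca.le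
  have h7 : V 0 ≤ ε + 1 / (c * a) / K := by
    have h8 : (K : ℝ) * V 0 ≤ K * (ε + 1 / (c * a) / K) := by
      have : (K : ℝ) * (ε + 1 / (c * a) / K) = K * ε + 1 / (c * a) := by
        field_simp
      rw [this]
      linarith
    exact le_of_mul_le_mul_left h8 hKr
  have h9 : 1 / (c * a) / (K : ℝ) = 1 / (K * (c * a)) := by
    rw [div_div, mul_comm (c * a) (K : ℝ)]
  rw [← h9]
  exact h7

/-! ## user level theorem: unnormalized weights, interfaces -/

theorem wt_congr (W : Finset Ω) (M : Ω → ℝ) {P Q : Ω → Prop} (h : ∀ w ∈ W, (P w ↔ Q w)) :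
    wt W M P = wt W M Q := by
  unfold wt
  rw [Finset.filter_congr h]

/-- a weight identity which holds on the classes of a history passes to every union of classes -/
theorem class_sum (W : Finset Ω) (M N : Ω → ℝ) {X : Type*} (π : Ω → X) (P : Ω → Prop)
    (hP : ∀ w ∈ W, ∀ w' ∈ W, π w = π w' → P w → P w') (a b : ℝ)
    (h : ∀ w ∈ W, P w → wt W M (fun w' => π w' = π w) * a = wt W N (fun w' => π w' = π w) * b) :
    wt W M P * a = wt W N P * b := by
  have key : ∀ L : Ω → ℝ, wt W L P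
      = ∑ x ∈ (W.filter P).image π, wt W L (fun w' => π w' = x) := by
    intro L
    unfold wt
    rw [← Finset.sum_fiberwise_of_maps_to
      (fun w hw => Finset.mem_image_of_mem π hw : ∀ w ∈ W.filter P, π w ∈ (W.filter P).image π)]
    apply Finset.sum_congr rfl
    intro x hx
    obtain ⟨w₁, hw₁, hx₁⟩ := Finset.mem_image.1 hx
    have hw₁' := Finset.mem_filter.1 hw₁
    apply Finset.sum_congr _ (fun _ _ => rfl)
    ext w
    simp only [Finset.mem_filter]
    constructor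
    · rintro ⟨⟨h1, _⟩, h3⟩
      exact ⟨h1, h3⟩
    · rintro ⟨h1, h2⟩
      exact ⟨⟨h1, hP w₁ hw₁'.1 w h1 (by rw [h2, hx₁]) hw₁'.2⟩, h2⟩
  rw [key M, key N, Finset.sum_mul, Finset.sum_mul]
  apply Finset.sum_congr rfl
  intro x hx
  obtain ⟨w₁, hw₁, hx₁⟩ := Finset.mem_image.1 hx
  have hw₁' := Finset.mem_filter.1 hw₁
  have := h w₁ hw₁'.1 hw₁'.2
  rw [hx₁] at this
  exact this

/-- the Markov property from an exact product: the class `C` is mapped bijectively onto
`P × Q` (outer part, inner part), `M = α ⊗ β`, `f` is a function of the inner part -/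
theorem markov_of_product {O N : Type*} (C : Finset Ω) (M f : Ω → ℝ) (P : Finset O) (Q : Finset N)
    (e : Ω → O × N) (he : Set.BijOn e C (P ×ˢ Q : Finset (O × N)))
    (α : O → ℝ) (β φ : N → ℝ)
    (hM : ∀ w ∈ C, M w = α (e w).1 * β (e w).2) (hf : ∀ w ∈ C, f w = φ (e w).2)
    (o : O) :
    (∑ w ∈ C.filter (fun w => (e w).1 = o), M w * f w) * (∑ w ∈ C, M w)
      = (∑ w ∈ C.filter (fun w => (e w).1 = o), M w) * (∑ w ∈ C, M w * f w) := by
  have hsum : ∀ (R : O → Prop) (F : Ω → ℝ) (G : O × N → ℝ), (∀ w ∈ C, F w = G (e w)) →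
      ∑ w ∈ C.filter (fun w => R (e w).1), F w
        = ∑ x ∈ (P.filter R) ×ˢ Q, G x := by
    intro R F G hFG
    apply Finset.sum_nbij e
    · intro w hw
      have hw' := Finset.mem_filter.1 hw
      have h1 := he.mapsTo (Finset.mem_coe.2 hw'.1)
      rw [Finset.mem_coe, Finset.mem_product] at h1
      rw [Finset.mem_product, Finset.mem_filter]
      exact ⟨⟨h1.1, hw'.2⟩, h1.2⟩
    · intro w hw w' hw' h
      exact he.injOn (Finset.mem_coe.2 (Finset.mem_filter.1 (Finset.mem_coe.1 hw)).1)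
        (Finset.mem_coe.2 (Finset.mem_filter.1 (Finset.mem_coe.1 hw')).1) h
    · intro x hx
      rw [Finset.mem_coe, Finset.mem_product, Finset.mem_filter] at hx
      have h1 : x ∈ ((P ×ˢ Q : Finset (O × N)) : Set (O × N)) := by
        rw [Finset.mem_coe, Finset.mem_product]
        exact ⟨hx.1.1, hx.2⟩
      obtain ⟨w, hw, hwx⟩ := he.surjOn h1
      refine ⟨w, ?_, hwx⟩
      rw [Finset.mem_coe, Finset.mem_filter]
      refine ⟨Finset.mem_coe.1 hw, ?_⟩
      rw [hwx]; exact hx.1.2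
    · intro w hw
      exact hFG w (Finset.mem_filter.1 hw).1
  have hsumall : ∀ (F : Ω → ℝ) (G : O × N → ℝ), (∀ w ∈ C, F w = G (e w)) →
      ∑ w ∈ C, F w = ∑ x ∈ P ×ˢ Q, G x := by
    intro F G hFG
    apply Finset.sum_nbij e
    · intro w hw
      exact Finset.mem_coe.1 (he.mapsTo (Finset.mem_coe.2 hw))
    · exact he.injOn
    · exact he.surjOn
    · exact hFG
  rw [hsum (fun x => x = o) (fun w => M w * f w) (fun x => α x.1 * (β x.2 * φ x.2))
      (fun w hw => by rw [hM w hw, hf w hw]; ring),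
    hsum (fun x => x = o) M (fun x => α x.1 * β x.2) (fun w hw => hM w hw),
    hsumall M (fun x => α x.1 * β x.2) (fun w hw => hM w hw),
    hsumall (fun w => M w * f w) (fun x => α x.1 * (β x.2 * φ x.2))
      (fun w hw => by rw [hM w hw, hf w hw]; ring)]
  have hprod : ∀ (P' : Finset O) (b : N → ℝ), ∑ x ∈ P' ×ˢ Q, α x.1 * b x.2
      = (∑ o ∈ P', α o) * ∑ n ∈ Q, b n := by
    intro P' b
    rw [Finset.sum_product, Finset.sum_mul_sum]
  rw [hprod _ (fun n => β n * φ n), hprod _ β, hprod _ β, hprod _ (fun n => β n * φ n)]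
  ring

/-- **ASYMPTOTIC INDEPENDENCE** of an inner variable `f` and an outer variable `ψ`.
`π k` = history seen up to window `k`; on the event `G k` (there is a good interface in window `k`)
the interface is `ι k`. -/
theorem indep (W : Finset Ω) (M : Ω → ℝ) (hM : ∀ w ∈ W, 0 < M w)
    (f : Ω → ℝ) (hf0 : ∀ w ∈ W, 0 ≤ f w) (hf1 : ∀ w ∈ W, f w ≤ 1)
    (K : ℕ) (hK : 0 < K) {X : ℕ → Type*} {I : ℕ → Type*} (π : ∀ k, Ω → X k)
    (hπ : ∀ k < K, ∀ w ∈ W, ∀ w' ∈ W, π (k + 1) w = π (k + 1) w' → π k w = π k w')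
    (G : ℕ → Ω → Prop) (ι : ∀ k, Ω → I k)
    (hG : ∀ k < K, ∀ w ∈ W, ∀ w' ∈ W, π (k + 1) w = π (k + 1) w' → G (k + 1) w →
      G (k + 1) w' ∧ ι (k + 1) w = ι (k + 1) w')
    (hmk : ∀ k < K, ∀ w ∈ W, G (k + 1) w →
      wt W (fun w => M w * f w) (fun w' => π (k + 1) w' = π (k + 1) w)
          * wt W M (fun w' => G (k + 1) w' ∧ ι (k + 1) w' = ι (k + 1) w)
        = wt W M (fun w' => π (k + 1) w' = π (k + 1) w)
          * wt W (fun w => M w * f w) (fun w' => G (k + 1) w' ∧ ι (k + 1) w' = ι (k + 1) w))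
    (B : ℕ → Ω → Prop)
    (hBm : ∀ k < K, ∀ w ∈ W, ∀ w' ∈ W, π k w = π k w' → B k w → B k w')
    (ε : ℝ) (hB : ∀ k < K, wt W M (B k) ≤ ε * ∑ w ∈ W, M w)
    (c a : ℝ) (hc0 : 0 < c) (ha0 : 0 < a)
    (hmin : ∀ k < K, ∀ w ∈ W, ¬ B k w → ∀ w₁ ∈ W, G (k + 1) w₁ →
      c * wt W M (fun w' => π k w' = π k w)
          * wt W M (fun w' => G (k + 1) w' ∧ ι (k + 1) w' = ι (k + 1) w₁)
        ≤ (∑ w ∈ W, M w)
          * wt W M (fun w' => π k w' = π k w ∧ G (k + 1) w' ∧ ι (k + 1) w' = ι (k + 1) w₁))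
    (ha : ∀ k < K, a * ∑ w ∈ W, M w ≤ wt W M (G (k + 1)))
    (ψ : Ω → ℝ) (hψ1 : ∀ w ∈ W, |ψ w| ≤ 1)
    (hψ : ∀ w ∈ W, ∀ w' ∈ W, π 0 w = π 0 w' → ψ w = ψ w') :
    |(∑ w ∈ W, M w * (ψ w * f w)) * (∑ w ∈ W, M w)
        - (∑ w ∈ W, M w * ψ w) * (∑ w ∈ W, M w * f w)|
      ≤ Real.sqrt (ε + 1 / (K * (c * a))) * (∑ w ∈ W, M w) ^ 2 := by
  rcases W.eq_empty_or_nonempty with hW | ⟨w₀, hw₀⟩
  · subst hW; simp
  set T : ℝ := ∑ w ∈ W, M w with hT
  have hTpos : 0 < T := Finset.sum_pos hM ⟨w₀, hw₀⟩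
  have hTne : T ≠ 0 := hTpos.ne'
  set m : ℝ := (∑ w ∈ W, M w * f w) / T with hm
  set M' : Ω → ℝ := fun w => M w / T with hM'
  set u : Ω → ℝ := fun w => f w - m with hu
  have hM'pos : ∀ w ∈ W, 0 < M' w := fun w hw => div_pos (hM w hw) hTpos
  have hM'1 : ∑ w ∈ W, M' w = 1 := by
    simp only [hM']
    rw [← Finset.sum_div]
    exact div_self hTne
  have hFm : ∑ w ∈ W, M w * f w = m * T := by
    simp only [hm]
    field_simp
  have hm0 : 0 ≤ m := div_nonneg (Finset.sum_nonneg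
    (fun w hw => mul_nonneg (hM w hw).le (hf0 w hw))) hTpos.le
  have hm1 : m ≤ 1 := by
    rw [hm, div_le_one hTpos]
    apply Finset.sum_le_sum
    intro w hw
    calc M w * f w ≤ M w * 1 := mul_le_mul_of_nonneg_left (hf1 w hw) (hM w hw).le
      _ = M w := mul_one _
  have hu1 : ∀ w ∈ W, |u w| ≤ 1 := by
    intro w hw
    rw [abs_le]
    have h1 := hf0 w hw
    have h2 := hf1 w hw
    simp only [hu]
    constructor <;> linarith
  have hu0 : ∑ w ∈ W, M' w * u w = 0 := by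
    have : ∀ w ∈ W, M' w * u w = (M w * f w) / T - m * (M w / T) := by
      intro w _
      simp only [hM', hu]
      ring
    rw [Finset.sum_congr rfl this, Finset.sum_sub_distrib, ← Finset.sum_div, ← Finset.mul_sum,
      ← Finset.sum_div, ← hT, hFm]
    field_simp
    ring
  -- interfaces
  let ζ : ∀ k, Ω → (I k ⊕ X k) := fun k w => if G k w then Sum.inl (ι k w) else Sum.inr (π k w)
  let S : ∀ k, Set (I k ⊕ X k) := fun k => {z | ∃ i, z = Sum.inl i}
  let B' : ∀ k, Set (X k) := fun k => {x | ∃ w ∈ W, π k w = x ∧ B k w}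
  have hζS : ∀ k w, ζ k w ∈ S k ↔ G k w := by
    intro k w
    simp only [ζ, S]
    show (∃ i, (if G k w then Sum.inl (ι k w) else Sum.inr (π k w)) = Sum.inl i) ↔ G k w
    by_cases h : G k w
    · simp [h]
    · simp [h]
  have hζl : ∀ k w i, ζ k w = Sum.inl i ↔ (G k w ∧ ι k w = i) := by
    intro k w i
    simp only [ζ]
    by_cases h : G k w
    · simp [h]
    · simp [h]
  have hζr : ∀ k w y, ζ k w = Sum.inr y ↔ (¬ G k w ∧ π k w = y) := by
    intro k w i
    simp only [ζ]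
    by_cases h : G k w
    · simp [h]
    · simp [h]
  have hζπ : ∀ k < K, ∀ w ∈ W, ∀ w' ∈ W, π (k + 1) w = π (k + 1) w' →
      ζ (k + 1) w = ζ (k + 1) w' := by
    intro k hk w hw w' hw' h
    by_cases hg : G (k + 1) w
    · have := hG k hk w hw w' hw' h hg
      simp only [ζ]
      rw [if_pos hg, if_pos this.1, this.2]
    · have hg' : ¬ G (k + 1) w' := by
        intro hg'
        exact hg (hG k hk w' hw' w hw h.symm hg').1
      simp only [ζ]
      rw [if_neg hg, if_neg hg', h]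
  have hwt' : ∀ P : Ω → Prop, wt W M' P = wt W M P / T := by
    intro P
    unfold wt
    simp only [hM']
    rw [← Finset.sum_div]
  have hwtu : ∀ P : Ω → Prop, wt W (fun w => M' w * u w) P
      = (wt W (fun w => M w * f w) P - m * wt W M P) / T := by
    intro P
    unfold wt
    rw [Finset.mul_sum, ← Finset.sum_sub_distrib, Finset.sum_div]
    apply Finset.sum_congr rfl
    intro w _
    simp only [hM', hu]
    ring
  -- the Markov property of ζ
  have hmk' : ∀ k < K, ∀ w₂ ∈ W, ∀ w₁ ∈ W,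
      js W M' u (π k) (ζ (k + 1)) (π k w₂) (ζ (k + 1) w₁) * ms W M' (ζ (k + 1)) (ζ (k + 1) w₁)
        = jm W M' (π k) (ζ (k + 1)) (π k w₂) (ζ (k + 1) w₁)
          * sm W M' u (ζ (k + 1)) (ζ (k + 1) w₁) := by
    intro k hk w₂ hw₂ w₁ hw₁
    obtain ⟨x, hx⟩ : ∃ x, x = π k w₂ := ⟨_, rfl⟩
    obtain ⟨z, hz₁'⟩ : ∃ z, z = ζ (k + 1) w₁ := ⟨_, rfl⟩
    have hz₁ : ζ (k + 1) w₁ = z := hz₁'.symm
    rw [← hx, hz₁]
    have ejs : js W M' u (π k) (ζ (k + 1)) x z
        = wt W (fun w => M' w * u w) (fun w => π k w = x ∧ ζ (k + 1) w = z) := by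
      unfold js wt
      refine Finset.sum_congr ?_ (fun _ _ => rfl)
      ext w
      simp only [Finset.mem_filter]
    have ejm : jm W M' (π k) (ζ (k + 1)) x z
        = wt W M' (fun w => π k w = x ∧ ζ (k + 1) w = z) := by
      unfold jm wt
      refine Finset.sum_congr ?_ (fun _ _ => rfl)
      ext w
      simp only [Finset.mem_filter]
    have ems : ms W M' (ζ (k + 1)) z = wt W M' (fun w => ζ (k + 1) w = z) := rfl
    have esm : sm W M' u (ζ (k + 1)) z
        = wt W (fun w => M' w * u w) (fun w => ζ (k + 1) w = z) := rfl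
    rw [ejs, ejm, ems, esm, hwtu, hwt', hwt', hwtu]
    have hcore : wt W (fun w => M w * f w) (fun w => π k w = x ∧ ζ (k + 1) w = z)
          * wt W M (fun w => ζ (k + 1) w = z)
        = wt W M (fun w => π k w = x ∧ ζ (k + 1) w = z)
          * wt W (fun w => M w * f w) (fun w => ζ (k + 1) w = z) := by
      by_cases hg : G (k + 1) w₁
      · have hzl : z = Sum.inl (ι (k + 1) w₁) := by
          rw [← hz₁, hζl]; exact ⟨hg, rfl⟩
        subst hzl
        have e1 : wt W M (fun w => ζ (k + 1) w = Sum.inl (ι (k + 1) w₁))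
            = wt W M (fun w' => G (k + 1) w' ∧ ι (k + 1) w' = ι (k + 1) w₁) :=
          wt_congr W M (fun w _ => hζl (k + 1) w _)
        have e2 : wt W (fun w => M w * f w) (fun w => ζ (k + 1) w = Sum.inl (ι (k + 1) w₁))
            = wt W (fun w => M w * f w)
                (fun w' => G (k + 1) w' ∧ ι (k + 1) w' = ι (k + 1) w₁) :=
          wt_congr W _ (fun w _ => hζl (k + 1) w _)
        rw [e1, e2]
        apply class_sum W (fun w => M w * f w) M (π (k + 1))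
        · rintro w hw w' hw' h ⟨h1, h2⟩
          refine ⟨?_, ?_⟩
          · rw [← h1]; exact (hπ k hk w hw w' hw' h).symm
          · rw [← h2]; exact (hζπ k hk w hw w' hw' h).symm
        · rintro w hw ⟨_, h2⟩
          have h3 := (hζl (k + 1) w _).1 h2
          have h4 := hmk k hk w hw h3.1
          rw [h3.2] at h4
          exact h4
      · have hzr : z = Sum.inr (π (k + 1) w₁) := by
          rw [← hz₁, hζr]; exact ⟨hg, rfl⟩
        subst hzr
        by_cases hxx : π k w₁ = x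
        · have hP : ∀ w ∈ W, ((π k w = x ∧ ζ (k + 1) w = Sum.inr (π (k + 1) w₁))
              ↔ ζ (k + 1) w = Sum.inr (π (k + 1) w₁)) := by
            intro w hw
            constructor
            · exact fun h => h.2
            · intro h
              refine ⟨?_, h⟩
              have h3 := (hζr (k + 1) w _).1 h
              rw [hπ k hk w hw w₁ hw₁ h3.2, hxx]
          rw [wt_congr W _ hP, wt_congr W _ hP]
          ring
        · have hP : ∀ w ∈ W, ((π k w = x ∧ ζ (k + 1) w = Sum.inr (π (k + 1) w₁))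
              ↔ False) := by
            intro w hw
            constructor
            · rintro ⟨h1, h2⟩
              have h3 := (hζr (k + 1) w _).1 h2
              apply hxx
              rw [← h1, hπ k hk w hw w₁ hw₁ h3.2]
            · exact fun h => h.elim
          rw [wt_congr W _ hP, wt_congr W _ hP]
          simp [wt]
    have h5 := hcore
    set a1 := wt W (fun w => M w * f w) (fun w => π k w = x ∧ ζ (k + 1) w = z)
    set a2 := wt W M (fun w => ζ (k + 1) w = z)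
    set a3 := wt W M (fun w => π k w = x ∧ ζ (k + 1) w = z)
    set a4 := wt W (fun w => M w * f w) (fun w => ζ (k + 1) w = z)
    have : (a1 - m * a3) / T * (a2 / T) - a3 / T * ((a4 - m * a2) / T)
        = (a1 * a2 - a3 * a4) / (T * T) := by
      field_simp
      ring
    rw [← sub_eq_zero, this, h5, sub_self, zero_div]
  have hwB : ∀ k < K, wt W M' (fun w => π k w ∈ B' k) ≤ ε := by
    intro k hk
    have e1 : wt W M' (fun w => π k w ∈ B' k) = wt W M' (B k) := by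
      apply wt_congr W M'
      intro w hw
      constructor
      · rintro ⟨w', hw', h1, h2⟩
        exact hBm k hk w' hw' w hw h1 h2
      · intro h
        exact ⟨w, hw, rfl, h⟩
    rw [e1, hwt', div_le_iff₀ hTpos]
    exact hB k hk
  have hulo : ∀ w ∈ W, -m ≤ u w ∧ u w ≤ -m + 1 := by
    intro w hw
    have h1 := hf0 w hw
    have h2 := hf1 w hw
    simp only [hu]
    constructor <;> linarith
  have hfin := contr_en W M' hM'pos hM'1 u hu1 (-m) hulo hu0 K hK π ζ hπ hζπ hmk' B' ε hwB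
    S c a hc0 ha0
    (by
      intro k hk w hw hxB w₁ hw₁ hzS
      have hnB : ¬ B k w := fun h => hxB ⟨w, hw, rfl, h⟩
      have hg := (hζS (k + 1) w₁).1 hzS
      have hz1 : ζ (k + 1) w₁ = Sum.inl (ι (k + 1) w₁) := (hζl (k + 1) w₁ _).2 ⟨hg, rfl⟩
      have h := hmin k hk w hw hnB w₁ hw₁ hg
      have ejm : jm W M' (π k) (ζ (k + 1)) (π k w) (ζ (k + 1) w₁)
          = wt W M' (fun w' => π k w' = π k w ∧ G (k + 1) w' ∧ ι (k + 1) w' = ι (k + 1) w₁) := by
        rw [hz1]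
        unfold jm wt
        refine Finset.sum_congr ?_ (fun _ _ => rfl)
        ext w'
        simp only [Finset.mem_filter, hζl]
      have ems : ms W M' (ζ (k + 1)) (ζ (k + 1) w₁)
          = wt W M' (fun w' => G (k + 1) w' ∧ ι (k + 1) w' = ι (k + 1) w₁) := by
        rw [hz1]
        unfold ms wt
        refine Finset.sum_congr ?_ (fun _ _ => rfl)
        ext w'
        simp only [Finset.mem_filter, hζl]
      have emp : ms W M' (π k) (π k w) = wt W M' (fun w' => π k w' = π k w) := rfl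
      rw [ejm, ems, emp, hwt', hwt', hwt']
      set b1 := wt W M (fun w' => π k w' = π k w)
      set b2 := wt W M (fun w' => G (k + 1) w' ∧ ι (k + 1) w' = ι (k + 1) w₁)
      set b3 := wt W M (fun w' => π k w' = π k w ∧ G (k + 1) w' ∧ ι (k + 1) w' = ι (k + 1) w₁)
      rw [le_div_iff₀ hTpos]
      have e2 : c * (b1 / T) * (b2 / T) * T = (c * b1 * b2) / T := by
        field_simp
      rw [e2, div_le_iff₀ hTpos]
      linarith)
    (by
      intro k hk
      have e1 : wt W M' (fun w => ζ (k + 1) w ∈ S (k + 1)) = wt W M' (G (k + 1)) := by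
        apply wt_congr W M'
        intro w _
        exact hζS (k + 1) w
      rw [e1, hwt', le_div_iff₀ hTpos]
      exact ha k hk)
  -- the outer variable
  obtain ⟨r, hr⟩ := factor W ψ (π 0) hψ w₀
  have hout := outer_bound W M' u hM'pos hM'1 (π 0) r
    (fun w hw => by rw [← hr w hw]; exact hψ1 w hw)
  have hle : |∑ w ∈ W, M' w * (r (π 0 w) * u w)|
      ≤ Real.sqrt (ε + 1 / (K * (c * a))) :=
    le_trans hout (Real.sqrt_le_sqrt hfin)
  have hlhs : (∑ w ∈ W, M w * (ψ w * f w)) * T - (∑ w ∈ W, M w * ψ w) * (∑ w ∈ W, M w * f w)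
      = (∑ w ∈ W, M' w * (r (π 0 w) * u w)) * T ^ 2 := by
    have e1 : ∑ w ∈ W, M' w * (r (π 0 w) * u w)
        = (∑ w ∈ W, M w * (ψ w * f w)) / T - m * (∑ w ∈ W, M w * ψ w) / T := by
      rw [Finset.mul_sum, Finset.sum_div, Finset.sum_div, ← Finset.sum_sub_distrib]
      apply Finset.sum_congr rfl
      intro w hw
      rw [← hr w hw]
      simp only [hM', hu]
      ring
    rw [e1, hFm]
    field_simp
  rw [hlhs, abs_mul, abs_of_pos (pow_pos hTpos 2)]
  exact mul_le_mul_of_nonneg_right hle (pow_pos hTpos 2).le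

end

end Pool.Agent.ROT.LDoeb
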