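import Pool.Agent.ROT.LFam

/-!
# ROT, row L7c, second part: the mass of the bad event `Tst.er` at one block
-/

set_option autoImplicit false

namespace Pool.Agent.ROT.LF

open Pool.Agent.YBC (Dir)
open Pool.Agent.ROT.E (Cell IsUn Pt Cfg)
open Pool.Agent.ROT.L (VX FX Gr g0 gX Fam co Vb Xb Bad Bk fac wfg wt dwt jw M dM Jw Tst ht cl)
open Pool.Agent.ROT.LB
open scoped ENNReal

variable {I : Type}

/-- a member of the family is in the box and has `n` columns -/
theorem wb_of [Fintype I] {t : Tst I} {n : ℤ} (hn0 : 0 < n) (hn : ∀ h, t.Dm h → ∀ i, n ≤ h i 1 - h i 0) {γ : FX I}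
    (h : t.Dm (ht γ)) : Wb t.K n γ := by
  intro l
  have hK := t.bd _ h l
  have h0 : ht γ l 0 = L.hL (cl γ l) := rfl
  have h1 : ht γ l 1 = L.hR (cl γ l) := rfl
  have h2 : ht γ l 2 = L.hB (cl γ l) := rfl
  have h3 : ht γ l 3 = L.hT (cl γ l) := rfl
  have hn' := hn _ h l
  rw [h0, h1] at hn'
  refine ⟨fun v hv => ?_, ?_⟩
  · have hm := L.mem_cl.2 hv
    have a0 := hK 0
    have a1 := hK 1
    have a2 := hK 2
    have a3 := hK 3
    rw [h0] at a0
    rw [h1] at a1
    rw [h2] at a2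
    rw [h3] at a3
    have b0 := L.hL_le hm
    have b1 := L.le_hR hm
    have b2 := L.hB_le hm
    have b3 := L.le_hT hm
    rw [abs_le] at a0 a1 a2 a3
    exact ⟨abs_le.2 ⟨by omega, by omega⟩, abs_le.2 ⟨by omega, by omega⟩⟩
  · have hne : (cl γ l).Nonempty := by
      by_contra he
      rw [Finset.not_nonempty_iff_eq_empty] at he
      rw [he] at hn'
      simp [L.hL, L.hR] at hn'
      omega
    obtain ⟨v, hv, e1⟩ := L.hL_mem hne
    obtain ⟨v', hv', e2⟩ := L.hR_mem hne
    exact ⟨v, v', L.mem_cl.1 hv, L.mem_cl.1 hv', by rw [e1, e2]; exact hn'⟩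

theorem ofReal_tsum_le {α : Type} {f : α → ℝ} (hf : ∀ x, 0 ≤ f x) : ENNReal.ofReal (∑' x, f x) ≤ ∑' x, ENNReal.ofReal (f x) := by
  by_cases h : Summable f
  · rw [ENNReal.ofReal_tsum_of_nonneg hf h]
  · rw [tsum_eq_zero_of_not_summable h, ENNReal.ofReal_zero]
    exact zero_le

/-- the constant of the weights -/
noncomputable def cA : ℝ≥0∞ := ENNReal.ofReal (sb wt ^ 5 * (1 + 2 * sb dwt + sb jw))

theorem cA_ne : cA ≠ ⊤ := ENNReal.ofReal_ne_top

theorem sb_nn (θ : Cell → ℝ) : 0 ≤ sb θ := Finset.sum_nonneg fun _ _ => abs_nonneg _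

theorem prod_ofReal [Fintype I] (j s : ℤ) (γ : FX I) : ENNReal.ofReal (∏ l, m1 (ot (Blk j s) γ l)) =
    ∏ l, ENNReal.ofReal (m1 (ot (Blk j s) γ l)) := ENNReal.ofReal_prod_of_nonneg fun l _ => m1_nonneg _

open Classical in
/-- **the mass of the bad event at one block** -/
theorem er_le [Fintype I] (t : Tst I) (j s : ℤ) {n n' : ℤ} (hn' : 2 ≤ n') (hnn : 2 * n' ≤ n)
    (hn : ∀ h, t.Dm h → ∀ i, n ≤ h i 1 - h i 0) :
    ENNReal.ofReal (t.er j s) ≤ 2 * ((Fintype.card I : ℝ≥0∞) ^ 2 * NI I j s * cA * RR j s t.K n n' ^ Fintype.card I *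
      OK (Blk j s) (Far j s n') *
        ∑ a : Fin 4, OK (Blk j s) (fun w => (∀ v, w v ≠ .o → v ∈ Hp j s a ∩ Bx t.K) ∧ Far j s n' w)) := by
  have hn0 : 0 < n := by omega
  have c0 : 0 ≤ sb wt ^ 5 := pow_nonneg (sb_nn _) _
  have p1 : ((j, s) : Pt) ∈ Blk j s := by simp [Blk]
  have p2 : ((j + 1, s) : Pt) ∈ Blk j s := by simp [Blk]
  unfold Tst.er
  refine ENNReal.ofReal_add_le.trans ?_
  rw [two_mul]
  refine add_le_add ?_ ?_
  · refine (ofReal_tsum_le fun γ => ?_).trans ?_
    · split_ifs with h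
      · obtain ⟨hf, -, -⟩ := h
        have : 0 ≤ M γ := by
          unfold M
          refine Finset.prod_nonneg fun v _ => ?_
          cases v with
          | none => exact zero_le_one
          | some p =>
            obtain ⟨c, hc⟩ := hf.dj (some p)
            show 0 ≤ wfg wt (γ (some p))
            rw [wfg_un hc]
            exact wt_nn c
        positivity
      · exact le_refl _
    · refine le_trans (ENNReal.tsum_le_tsum fun γ => ?_) (blk_sum (sq_g0 (Blk j s))
        (fun γ => ENNReal.ofReal (|M γ| + |dM (j, s) γ| + |dM (j + 1, s) γ|)) cA ?_ (K := t.K) hn' hnn)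
      · by_cases h : Fam g0 γ ∧ Bad j s γ ∧ t.Dm (ht γ)
        · rw [if_pos h, if_pos ⟨h.1, h.2.1, wb_of hn0 hn h.2.2⟩]
          refine ENNReal.ofReal_le_ofReal ?_
          have := le_abs_self (M γ)
          linarith
        · rw [if_neg h, ENNReal.ofReal_zero]
          exact zero_le
      · intro γ hf
        unfold cA
        rw [← prod_ofReal, ← ENNReal.ofReal_mul (by have := sb_nn dwt; have := sb_nn jw; positivity)]
        refine ENNReal.ofReal_le_ofReal ?_
        have h1 := M_le (j := j) (s := s) hf.dj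
        have h2 := dM_le hf.dj p1
        have h3 := dM_le hf.dj p2
        have h4 := pm_nn j s γ
        obtain ⟨P, hP⟩ : ∃ P, P = sb wt ^ 5 * ∏ l, m1 (ot (Blk j s) γ l) := ⟨_, rfl⟩
        have hP0 : 0 ≤ P := by rw [hP]; positivity
        have hj := mul_nonneg (sb_nn jw) hP0
        rw [← hP] at h1 h2 h3
        have e1 : sb wt ^ 5 * (1 + 2 * sb dwt + sb jw) * ∏ l, m1 (ot (Blk j s) γ l) = (1 + 2 * sb dwt + sb jw) * P := by
          rw [hP]
          ring
        rw [e1]
        linarith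
  · refine (ofReal_tsum_le fun γ => ?_).trans ?_
    · split_ifs
      · exact abs_nonneg _
      · exact le_refl _
    · refine le_trans (ENNReal.tsum_le_tsum fun γ => ?_) (blk_sum (sq_gX j s)
        (fun γ => ENNReal.ofReal |Jw γ|) cA ?_ (K := t.K) hn' hnn)
      · by_cases h : Fam (gX j s) γ ∧ Bad j s γ ∧ t.Dm (ht γ)
        · rw [if_pos h, if_pos ⟨h.1, h.2.1, wb_of hn0 hn h.2.2⟩]
        · rw [if_neg h, ENNReal.ofReal_zero]
          exact zero_le
      · intro γ hf
        unfold cA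
        rw [← prod_ofReal, ← ENNReal.ofReal_mul (by have := sb_nn dwt; have := sb_nn jw; positivity)]
        refine ENNReal.ofReal_le_ofReal ?_
        have h1 := Jw_le (j := j) (s := s) hf.dj
        have h4 := pm_nn j s γ
        obtain ⟨P, hP⟩ : ∃ P, P = sb wt ^ 5 * ∏ l, m1 (ot (Blk j s) γ l) := ⟨_, rfl⟩
        have hP0 : 0 ≤ P := by rw [hP]; positivity
        have hd := mul_nonneg (sb_nn dwt) hP0
        rw [← hP] at h1
        have e1 : sb wt ^ 5 * (1 + 2 * sb dwt + sb jw) * ∏ l, m1 (ot (Blk j s) γ l) = (1 + 2 * sb dwt + sb jw) * P := by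
          rw [hP]
          ring
        rw [e1]
        linarith

/-- the number of fillings does not depend on the block -/
theorem NI_le (I : Type) [Fintype I] : ∃ C : ℝ≥0∞, C ≠ ⊤ ∧ ∀ j s : ℤ, NI I j s ≤ C := by
  classical
  refine ⟨((9 ^ Fintype.card I) ^ 5 : ℕ), ENNReal.natCast_ne_top _, fun j s => ?_⟩
  unfold NI
  rw [Fintype.card_fun, Fintype.card_coe]
  have h1 : Fintype.card (I → Cell) = 9 ^ Fintype.card I := by
    rw [Fintype.card_fun]
    rfl
  rw [h1]
  exact_mod_cast Nat.pow_le_pow_right (Nat.pos_of_ne_zero (by positivity)) Finset.card_le_five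

end Pool.Agent.ROT.LF
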