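import Pool.Agent.ROT.ELab

/-!
# ROT, block L (local currents): configurations and families on a graph of degree four

`Gr V`: vertices `V`, every vertex has the four sides `Dir`, `G.e` = the other half of the edge.  Two graphs may agree
outside a region `A` (`Agr`); **`Eq6`** = same outside, same connections of the ports of the region.
`V = Option Pt`, `none` = the crossing: `g0` (the square lattice, the crossing is isolated), `gX j s` (the crossing in the
two vertical edges of the columns `j`, `j + 1` between the rows `s - 1` and `s`).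
-/

set_option autoImplicit false

namespace Pool.Agent.ROT.L

open Pool.Agent.EXL (Wt)
open Pool.Agent.YBC (Dir)
open Pool.Agent.UNI (wR)
open Pool.Agent.ROT.E (Cell IsUn wf Pt nx)

/-- a graph: the vertices `V`, the half edges `V × Dir`, the other half of the edge -/
structure Gr (V : Type) where
  /-- the other half of the edge -/
  e : V × Dir → V × Dir
  inv : ∀ h, e (e h) = h

variable {V I : Type}

/-- the half edge is used -/
def oc (γ : V →₀ Cell) (h : V × Dir) : Prop := (γ h.1).oc h.2

/-- the other half edge of the passage -/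
def vp (γ : V →₀ Cell) (h : V × Dir) : V × Dir := (h.1, (γ h.1).p h.2)

/-- the two halves of every edge of `A` fit -/
def Mt (G : Gr V) (γ : V →₀ Cell) (A : Set V) : Prop :=
  ∀ h : V × Dir, h.1 ∈ A → (G.e h).1 ∈ A → (oc γ h ↔ oc γ (G.e h))

/-- one link inside `A` -/
def Lk (G : Gr V) (γ : V →₀ Cell) (A : Set V) (h k : V × Dir) : Prop :=
  oc γ h ∧ h.1 ∈ A ∧ (k = vp γ h ∨ (k = G.e h ∧ (G.e h).1 ∈ A))

/-- connected inside `A` -/
def Cn (G : Gr V) (γ : V →₀ Cell) (A : Set V) : V × Dir → V × Dir → Prop := Relation.EqvGen (Lk G γ A)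

/-- **a loop**: the configuration is one closed path -/
structure Lp (G : Gr V) (γ : V →₀ Cell) : Prop where
  mt : Mt G γ Set.univ
  ne : γ ≠ 0
  cn : ∀ h k, oc γ h → oc γ k → Cn G γ Set.univ h k

/-- the member `i` -/
noncomputable def co (γ : V →₀ (I → Cell)) (i : I) : V →₀ Cell := γ.mapRange (fun f => f i) rfl

/-- **a family of disjoint loops** -/
structure Fam (G : Gr V) (γ : V →₀ (I → Cell)) : Prop where
  lp : ∀ i, Lp G (co γ i)
  dj : ∀ v, ∃ c, IsUn (γ v) c

/-- `δ` is the union of the family -/
def Un (γ : V →₀ (I → Cell)) (δ : V →₀ Cell) : Prop := ∀ v, IsUn (γ v) (δ v)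

/-- the ports of the region `A`: the half edges outside whose other half is inside -/
def Port (G : Gr V) (A : Set V) : Set (V × Dir) := {h | h.1 ∉ A ∧ (G.e h).1 ∈ A}

/-- the two graphs agree outside `A` -/
structure Agr (A : Set V) (G G' : Gr V) : Prop where
  out : ∀ h, h.1 ∉ A → (G.e h).1 ∉ A → G'.e h = G.e h
  prt : ∀ h, h.1 ∉ A → ((G.e h).1 ∈ A ↔ (G'.e h).1 ∈ A)

/-- every member leaves the region -/
def Gd (A : Set V) (γ : V →₀ (I → Cell)) : Prop := ∀ i, ∃ v, v ∉ A ∧ γ v i ≠ .o

/-- **the class of a family for the region `A`**: same outside, same connections of the ports -/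
structure Eq6 (A : Set V) (G G' : Gr V) (γ γ' : V →₀ (I → Cell)) : Prop where
  fam : Fam G γ
  fam' : Fam G' γ'
  gd : Gd A γ
  out : ∀ v, v ∉ A → γ v = γ' v
  pr : ∀ i, ∀ h ∈ Port G A, ∀ k ∈ Port G A,
    (Cn G (co γ i) A (G.e h) (G.e k) ↔ Cn G' (co γ' i) A (G'.e h) (G'.e k))

/-- the same without labels -/
structure Eq6u (A : Set V) (G G' : Gr V) (γ δ : V →₀ Cell) : Prop where
  mt : Mt G' δ Set.univ
  out : ∀ v, v ∉ A → γ v = δ v
  op : ∀ h : V × Dir, h.1 ∈ A → oc δ h → ∃ k ∈ Port G A, Cn G' δ A h (G'.e k)
  pr : ∀ h ∈ Port G A, ∀ k ∈ Port G A, (Cn G γ A (G.e h) (G.e k) ↔ Cn G' δ A (G'.e h) (G'.e k))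

/-! ### the lattice with one crossing -/

/-- the vertices of the lattice with a crossing (`none`) -/
abbrev VX := Option Pt

/-- the other half in the square lattice; the crossing is isolated -/
def e0 : VX × Dir → VX × Dir
  | (none, d) => (none, d)
  | (some v, d) => (some (nx v d), d.op)

theorem e0_inv (h : VX × Dir) : e0 (e0 h) = h := by
  obtain ⟨_ | ⟨a, b⟩, d⟩ := h
  · rfl
  · cases d <;> simp [e0, nx, Dir.op]

/-- **the square lattice** (the crossing is isolated) -/
def g0 : Gr VX := ⟨e0, e0_inv⟩

/-- the other half in the lattice with the crossing in the two vertical edges of the columns `j`, `j + 1` between the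
rows `s - 1` and `s`; the legs of the crossing: `S` = below left, `E` = below right, `W` = above left, `N` = above
right -/
def eX (j s : ℤ) : VX × Dir → VX × Dir
  | (none, .S) => (some (j, s - 1), .N)
  | (none, .E) => (some (j + 1, s - 1), .N)
  | (none, .W) => (some (j, s), .S)
  | (none, .N) => (some (j + 1, s), .S)
  | (some v, .N) => if v = (j, s - 1) then (none, .S) else if v = (j + 1, s - 1) then (none, .E) else
      (some (nx v .N), .S)
  | (some v, .S) => if v = (j, s) then (none, .W) else if v = (j + 1, s) then (none, .N) else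
      (some (nx v .S), .N)
  | (some v, .E) => (some (nx v .E), .W)
  | (some v, .W) => (some (nx v .W), .E)

theorem eX_inv (j s : ℤ) (h : VX × Dir) : eX j s (eX j s h) = h := by
  obtain ⟨_ | ⟨a, b⟩, d⟩ := h
  · cases d <;> simp [eX]
  · cases d
    · simp [eX, nx]
    · simp only [eX]
      split_ifs with h1 h2
      · rw [h1]
      · rw [h2]
      · simp only [nx, Prod.mk.injEq] at h1 h2 ⊢
        rw [if_neg (by omega), if_neg (by omega)]
        simp
    · simp [eX, nx]
    · simp only [eX]
      split_ifs with h1 h2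
      · rw [h1]
      · rw [h2]
      · simp only [nx, Prod.mk.injEq] at h1 h2 ⊢
        rw [if_neg (by omega), if_neg (by omega)]
        simp

/-- **the lattice with the crossing** -/
def gX (j s : ℤ) : Gr VX := ⟨eX j s, eX_inv j s⟩

/-- the region of the row `s`: the crossing and the two cells -/
def Rg (j s : ℤ) : Set VX := {none, some (j, s), some (j + 1, s)}

end Pool.Agent.ROT.L
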