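import Mathlib

/-!
ROT, linear response: (LR3) by an energy argument.  Abstract: a finite measure on a discrete space,
double cuts, resampling of the cap (`Res`), two sided kernel between two windows.
-/

set_option linter.unusedSectionVars false

namespace Pool.Agent.ROT.LM

open MeasureTheory Finset

noncomputable section

open Classical in
/-- indicator of a proposition -/
def ind (P : Prop) : ℝ := if P then 1 else 0

lemma ind_t {P : Prop} (h : P) : ind P = 1 := by simp [ind, h]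
lemma ind_f {P : Prop} (h : ¬ P) : ind P = 0 := by simp [ind, h]
lemma ind_nn (P : Prop) : 0 ≤ ind P := by unfold ind; split_ifs <;> norm_num
lemma ind_le (P : Prop) : ind P ≤ 1 := by unfold ind; split_ifs <;> norm_num
lemma ind_and (P Q : Prop) : ind (P ∧ Q) = ind P * ind Q := by
  by_cases p : P <;> by_cases q : Q <;> simp [ind, p, q]
lemma ind_sq (P : Prop) : ind P * ind P = ind P := by
  by_cases p : P <;> simp [ind, p]
lemma ind_congr {P Q : Prop} (h : P ↔ Q) : ind P = ind Q := by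
  by_cases p : P
  · rw [ind_t p, ind_t (h.1 p)]
  · rw [ind_f p, ind_f (fun q => p (h.2 q))]
lemma ind_not (P : Prop) : ind (¬ P) = 1 - ind P := by
  by_cases p : P <;> simp [ind, p]

/-- bounded functions -/
def Bd {Om : Type*} (f : Om → ℝ) : Prop := ∃ B : ℝ, ∀ w, |f w| ≤ B

section Bd
variable {Om : Type*} {f g : Om → ℝ}

lemma Bd.const (c : ℝ) : Bd (fun _ : Om => c) := ⟨|c|, fun _ => le_rfl⟩
lemma Bd.add (hf : Bd f) (hg : Bd g) : Bd (fun w => f w + g w) := by
  obtain ⟨A, hA⟩ := hf; obtain ⟨B, hB⟩ := hg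
  exact ⟨A + B, fun w => (abs_add_le _ _).trans (add_le_add (hA w) (hB w))⟩
lemma Bd.neg (hf : Bd f) : Bd (fun w => - f w) := by
  obtain ⟨A, hA⟩ := hf
  exact ⟨A, fun w => by rw [abs_neg]; exact hA w⟩
lemma Bd.sub (hf : Bd f) (hg : Bd g) : Bd (fun w => f w - g w) := by
  have := hf.add hg.neg
  simpa [sub_eq_add_neg] using this
lemma Bd.mul (hf : Bd f) (hg : Bd g) : Bd (fun w => f w * g w) := by
  obtain ⟨A, hA⟩ := hf; obtain ⟨B, hB⟩ := hg
  refine ⟨A * B, fun w => ?_⟩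
  rw [abs_mul]
  exact mul_le_mul (hA w) (hB w) (abs_nonneg _) ((abs_nonneg _).trans (hA w))
lemma Bd.sq (hf : Bd f) : Bd (fun w => f w ^ 2) := by
  have := hf.mul hf
  simpa [pow_two] using this
lemma Bd.ind (P : Om → Prop) : Bd (fun w => ind (P w)) :=
  ⟨1, fun w => by rw [abs_of_nonneg (ind_nn _)]; exact ind_le _⟩
lemma Bd.sum {ι : Type*} {s : Finset ι} {f : ι → Om → ℝ} (h : ∀ i ∈ s, Bd (f i)) :
    Bd (fun w => ∑ i ∈ s, f i w) := by
  classical
  induction s using Finset.induction_on with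
  | empty => simpa using Bd.const 0
  | insert a s ha ih =>
    have := (h a (mem_insert_self a s)).add (ih fun i hi => h i (mem_insert_of_mem hi))
    simpa [sum_insert ha] using this

lemma Bd.int [MeasurableSpace Om] [DiscreteMeasurableSpace Om] {μ : Measure Om}
    [IsFiniteMeasure μ] (hf : Bd f) : Integrable f μ := by
  obtain ⟨B, hB⟩ := hf
  exact Integrable.of_bound (Measurable.of_discrete.aestronglyMeasurable) B
    (Filter.Eventually.of_forall fun w => by simpa using hB w)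

end Bd

/-- Double cuts of a configuration: `cut w z`, depth `dp z`, `R z w w'` = both have the cut `z` and
the same rest outside of `z`. -/
structure Cut (Om Z : Type*) where
  cut : Om → Z → Prop
  dp : Z → ℕ
  R : Z → Om → Om → Prop
  ax2 : ∀ {z y : Z} {w w' : Om}, R z w w' → dp z < dp y → (cut w y ↔ cut w' y)
  ax3 : ∀ {z z' : Z} {w w' : Om}, dp z' < dp z → cut w z → R z' w w' → R z w w'
  ax4 : ∀ {z y : Z} {w : Om}, cut w z → cut w y → dp z = dp y → z = y

variable {Om Z : Type*}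

/-- `φ` depends only on the outside of `z` -/
def Out (S : Cut Om Z) (z : Z) (φ : Om → ℝ) : Prop := ∀ w w', S.R z w w' → φ w = φ w'

section Out
variable {S : Cut Om Z} {z : Z} {φ ψ : Om → ℝ}

lemma Out.const (c : ℝ) : Out S z (fun _ => c) := fun _ _ _ => rfl
lemma Out.mul (hf : Out S z φ) (hg : Out S z ψ) : Out S z (fun w => φ w * ψ w) :=
  fun w w' h => by simp only [hf w w' h, hg w w' h]
lemma Out.sub (hf : Out S z φ) (hg : Out S z ψ) : Out S z (fun w => φ w - ψ w) :=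
  fun w w' h => by simp only [hf w w' h, hg w w' h]
lemma Out.sum {ι : Type*} {s : Finset ι} {f : ι → Om → ℝ} (h : ∀ i ∈ s, Out S z (f i)) :
    Out S z (fun w => ∑ i ∈ s, f i w) :=
  fun w w' hw => sum_congr rfl fun i hi => h i hi w w' hw
lemma Out.ind {P : Om → Prop} (h : ∀ w w', S.R z w w' → (P w ↔ P w')) :
    Out S z (fun w => ind (P w)) :=
  fun w w' hw => ind_congr (h w w' hw)
lemma Out.cut {y : Z} (h : S.dp z < S.dp y) : Out S z (fun w => LM.ind (S.cut w y)) :=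
  Out.ind fun _ _ hw => S.ax2 hw h
/-- a function of the outside of the deeper cut `z`, cut off at `z`, is outside of `y` -/
lemma Out.shift {y : Z} (hφ : Out S z φ) (h : S.dp y < S.dp z) :
    Out S y (fun w => φ w * LM.ind (S.cut w z)) := by
  intro w w' hw
  have e := S.ax2 hw h
  by_cases c : S.cut w z
  · simp only [hφ w w' (S.ax3 h c hw), ind_congr e]
  · simp only [ind_f c, ind_f (fun d => c (e.2 d)), mul_zero]
end Out

variable [MeasurableSpace Om] [DiscreteMeasurableSpace Om]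

/-- resampling of the cap -/
def Res (S : Cut Om Z) (μ : Measure Om) (χ : Om → ℝ) (F : Z → ℝ) : Prop :=
  ∀ (z : Z) (φ : Om → ℝ), Bd φ → Out S z φ →
    ∫ w, χ w * φ w * ind (S.cut w z) ∂μ = F z * ∫ w, φ w * ind (S.cut w z) ∂μ

/-- `z` is the deepest cut in `U` -/
def dd (S : Cut Om Z) (U : Finset Z) (z : Z) (w : Om) : ℝ :=
  ind (S.cut w z ∧ ∀ y ∈ U, S.dp z < S.dp y → ¬ S.cut w y)

/-- no cut in `U` -/
def nn (S : Cut Om Z) (U : Finset Z) (w : Om) : ℝ := ind (∀ y ∈ U, ¬ S.cut w y)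

/-- the conditional mean of `χ` given the outside of the deepest cut in `U` -/
def X (S : Cut Om Z) (χ : Om → ℝ) (F : Z → ℝ) (U : Finset Z) (w : Om) : ℝ :=
  ∑ z ∈ U, F z * dd S U z w + χ w * nn S U w

variable {S : Cut Om Z} {μ : Measure Om} [IsFiniteMeasure μ] {χ : Om → ℝ} {F : Z → ℝ}

lemma cases_ (S : Cut Om Z) (U : Finset Z) (w : Om) :
    (∀ y ∈ U, ¬ S.cut w y) ∨
      ∃ z ∈ U, S.cut w z ∧ ∀ y ∈ U, S.cut w y → S.dp y ≤ S.dp z := by
  classical
  by_cases h : (U.filter fun y => S.cut w y).Nonempty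
  · right
    obtain ⟨z, hz, hm⟩ := Finset.exists_max_image _ S.dp h
    rw [mem_filter] at hz
    exact ⟨z, hz.1, hz.2, fun y hy hc => hm y (mem_filter.2 ⟨hy, hc⟩)⟩
  · left
    intro y hy hc
    exact h ⟨y, mem_filter.2 ⟨hy, hc⟩⟩

lemma dd_one {U : Finset Z} {w : Om} {z : Z} (hc : S.cut w z)
    (hm : ∀ y ∈ U, S.cut w y → S.dp y ≤ S.dp z) : dd S U z w = 1 :=
  ind_t ⟨hc, fun y hy hd hy' => absurd (hm y hy hy') (not_le.2 hd)⟩

lemma dd_zero {U : Finset Z} {w : Om} {z y : Z} (hz : z ∈ U) (hc : S.cut w z)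
    (hy : y ≠ z) (hm : ∀ y ∈ U, S.cut w y → S.dp y ≤ S.dp z) (yU : y ∈ U) : dd S U y w = 0 := by
  refine ind_f ?_
  rintro ⟨c, h⟩
  have h1 := hm y yU c
  rcases lt_or_eq_of_le h1 with h2 | h2
  · exact h z hz h2 hc
  · exact hy (S.ax4 c hc h2)

lemma nn_zero {U : Finset Z} {w : Om} {z : Z} (hz : z ∈ U) (hc : S.cut w z) : nn S U w = 0 :=
  ind_f fun h => h z hz hc

lemma sum_dd {U : Finset Z} {w : Om} {z : Z} (hz : z ∈ U) (hc : S.cut w z)
    (hm : ∀ y ∈ U, S.cut w y → S.dp y ≤ S.dp z) (f : Z → ℝ) :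
    ∑ y ∈ U, f y * dd S U y w = f z := by
  classical
  rw [Finset.sum_eq_single_of_mem z hz]
  · rw [dd_one hc hm, mul_one]
  · intro y hy hne
    rw [dd_zero hz hc hne hm hy, mul_zero]

lemma sum_dd0 {U : Finset Z} {w : Om} (h : ∀ y ∈ U, ¬ S.cut w y) (f : Z → ℝ) :
    ∑ y ∈ U, f y * dd S U y w = 0 := by
  refine Finset.sum_eq_zero fun y hy => ?_
  rw [dd, ind_f (fun c => h y hy c.1), mul_zero]

lemma part (S : Cut Om Z) (U : Finset Z) (w : Om) :
    ∑ z ∈ U, dd S U z w + nn S U w = 1 := by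
  rcases cases_ S U w with h | ⟨z, hz, hc, hm⟩
  · have := sum_dd0 h (fun _ => (1 : ℝ))
    simp only [one_mul] at this
    rw [this, nn, ind_t h, zero_add]
  · have := sum_dd hz hc hm (fun _ => (1 : ℝ))
    simp only [one_mul] at this
    rw [this, nn_zero hz hc, add_zero]

lemma X_of {U : Finset Z} {w : Om} {z : Z} (hz : z ∈ U) (hc : S.cut w z)
    (hm : ∀ y ∈ U, S.cut w y → S.dp y ≤ S.dp z) : X S χ F U w = F z := by
  rw [X, sum_dd hz hc hm, nn_zero hz hc, mul_zero, add_zero]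

lemma X_none {U : Finset Z} {w : Om} (h : ∀ y ∈ U, ¬ S.cut w y) : X S χ F U w = χ w := by
  rw [X, sum_dd0 h, nn, ind_t h, mul_one, zero_add]

lemma X_mem (hχ0 : ∀ w, 0 ≤ χ w) (hχ1 : ∀ w, χ w ≤ 1) (hF0 : ∀ z, 0 ≤ F z) (hF1 : ∀ z, F z ≤ 1)
    (U : Finset Z) (w : Om) : 0 ≤ X S χ F U w ∧ X S χ F U w ≤ 1 := by
  rcases cases_ S U w with h | ⟨z, hz, hc, hm⟩
  · rw [X_none h]; exact ⟨hχ0 w, hχ1 w⟩
  · rw [X_of hz hc hm]; exact ⟨hF0 z, hF1 z⟩

lemma bd01 {f : Om → ℝ} (h0 : ∀ w, 0 ≤ f w) (h1 : ∀ w, f w ≤ 1) : Bd f :=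
  ⟨1, fun w => by rw [abs_of_nonneg (h0 w)]; exact h1 w⟩

lemma bd_dd (U : Finset Z) (z : Z) : Bd (dd S U z) := Bd.ind _
lemma bd_nn (U : Finset Z) : Bd (nn S U) := Bd.ind _

lemma bd_X (hχ : Bd χ) (U : Finset Z) : Bd (X S χ F U) := by
  unfold X
  exact (Bd.sum fun z _ => (Bd.const (F z)).mul (bd_dd U z)).add (hχ.mul (bd_nn U))

/-- the outer part of `dd` -/
lemma out_dd {U : Finset Z} {z : Z} :
    Out S z (fun w => ind (∀ y ∈ U, S.dp z < S.dp y → ¬ S.cut w y)) := by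
  refine Out.ind fun w w' hw => ?_
  constructor
  · intro h y hy hd hc
    exact h y hy hd ((S.ax2 hw hd).2 hc)
  · intro h y hy hd hc
    exact h y hy hd ((S.ax2 hw hd).1 hc)

lemma dd_eq (U : Finset Z) (z : Z) (w : Om) :
    dd S U z w = ind (∀ y ∈ U, S.dp z < S.dp y → ¬ S.cut w y) * ind (S.cut w z) := by
  rw [dd, ind_and, mul_comm]

/-- (K1) -/
lemma int_X (hR : Res S μ χ F) (hχ : Bd χ) {U : Finset Z} {φ : Om → ℝ} (hb : Bd φ)
    (ho : ∀ z ∈ U, Out S z φ) : ∫ w, X S χ F U w * φ w ∂μ = ∫ w, χ w * φ w ∂μ := by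
  have e1 : ∀ w, X S χ F U w * φ w
      = ∑ z ∈ U, F z * (φ w * dd S U z w) + χ w * φ w * nn S U w := by
    intro w
    rw [X, add_mul, sum_mul]
    congr 1
    · exact sum_congr rfl fun z _ => by ring
    · ring
  have e2 : ∀ w, χ w * φ w = ∑ z ∈ U, χ w * φ w * dd S U z w + χ w * φ w * nn S U w := by
    intro w
    rw [← mul_sum, ← mul_add, part, mul_one]
  have key : ∀ z ∈ U, ∫ w, χ w * φ w * dd S U z w ∂μ = F z * ∫ w, φ w * dd S U z w ∂μ := by
    intro z hz
    have := hR z (fun w => φ w * ind (∀ y ∈ U, S.dp z < S.dp y → ¬ S.cut w y))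
      (hb.mul (Bd.ind _)) ((ho z hz).mul out_dd)
    simp only [dd_eq]
    calc _ = ∫ w, χ w * (φ w * ind (∀ y ∈ U, S.dp z < S.dp y → ¬ S.cut w y)) *
        ind (S.cut w z) ∂μ := by
          congr 1; ext w; ring
      _ = _ := this
      _ = _ := by congr 1; congr 1; ext w; ring
  have i1 : ∀ z ∈ U, Integrable (fun w => F z * (φ w * dd S U z w)) μ := fun z _ =>
    ((Bd.const (F z)).mul (hb.mul (bd_dd U z))).int
  have i2 : Integrable (fun w => χ w * φ w * nn S U w) μ := ((hχ.mul hb).mul (bd_nn U)).int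
  have i3 : ∀ z ∈ U, Integrable (fun w => χ w * φ w * dd S U z w) μ := fun z _ =>
    ((hχ.mul hb).mul (bd_dd U z)).int
  calc ∫ w, X S χ F U w * φ w ∂μ
      = ∫ w, (∑ z ∈ U, F z * (φ w * dd S U z w) + χ w * φ w * nn S U w) ∂μ := by
        congr 1; ext w; exact e1 w
    _ = ∑ z ∈ U, F z * ∫ w, φ w * dd S U z w ∂μ + ∫ w, χ w * φ w * nn S U w ∂μ := by
        rw [integral_add (integrable_finsetSum _ i1) i2, integral_finsetSum _ i1]
        congr 1
        exact sum_congr rfl fun z _ => integral_const_mul _ _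
    _ = ∑ z ∈ U, ∫ w, χ w * φ w * dd S U z w ∂μ + ∫ w, χ w * φ w * nn S U w ∂μ := by
        congr 1
        exact sum_congr rfl fun z hz => (key z hz).symm
    _ = ∫ w, (∑ z ∈ U, χ w * φ w * dd S U z w + χ w * φ w * nn S U w) ∂μ := by
        rw [integral_add (integrable_finsetSum _ i3) i2, integral_finsetSum _ i3]
    _ = ∫ w, χ w * φ w ∂μ := by
        congr 1; ext w; exact (e2 w).symm

/-- (K2) -/
lemma int_X' (hR : Res S μ χ F) (hχ : Bd χ) {U : Finset Z} {φ : Om → ℝ} (hb : Bd φ) {z : Z}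
    (ho : Out S z φ) (hd : ∀ y ∈ U, S.dp y < S.dp z) :
    ∫ w, X S χ F U w * (φ w * ind (S.cut w z)) ∂μ = F z * ∫ w, φ w * ind (S.cut w z) ∂μ := by
  rw [int_X hR hχ (hb.mul (Bd.ind _)) (fun y hy => ho.shift (hd y hy)), ← hR z φ hb ho]
  congr 1; ext w; ring

/-- Step A -/
lemma stepA (hR : Res S μ χ F) (hχ : Bd χ) {U : Finset Z} {b H : Om → ℝ} (hb : Bd b) (hH : Bd H)
    (b0 : ∀ w, 0 ≤ b w) {z : Z} (ob : Out S z b) (oH : Out S z H)
    (hd : ∀ y ∈ U, S.dp y < S.dp z) :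
    ∫ w, ind (S.cut w z) * b w * (F z - H w) ^ 2 ∂μ
      ≤ ∫ w, ind (S.cut w z) * b w * (X S χ F U w - H w) ^ 2 ∂μ := by
  have bX := bd_X (S := S) (F := F) hχ U
  have ho : Out S z (fun w => b w * (F z - H w)) := ob.mul ((Out.const (F z)).sub oH)
  have hbo : Bd (fun w => b w * (F z - H w)) := hb.mul ((Bd.const (F z)).sub hH)
  have k := int_X' (μ := μ) hR hχ hbo ho hd
  have e : ∀ w, ind (S.cut w z) * b w * (X S χ F U w - H w) ^ 2
      = ind (S.cut w z) * b w * (F z - H w) ^ 2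
        + (2 * (X S χ F U w * (b w * (F z - H w) * ind (S.cut w z))
          - F z * (b w * (F z - H w) * ind (S.cut w z)))
        + ind (S.cut w z) * b w * (X S χ F U w - F z) ^ 2) := by
    intro w; ring
  have j1 : Bd (fun w => ind (S.cut w z) * b w * (F z - H w) ^ 2) :=
    ((Bd.ind _).mul hb).mul ((Bd.const (F z)).sub hH).sq
  have j2 : Bd (fun w => X S χ F U w * (b w * (F z - H w) * ind (S.cut w z))) :=
    bX.mul (hbo.mul (Bd.ind _))
  have j3 : Bd (fun w => F z * (b w * (F z - H w) * ind (S.cut w z))) :=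
    (Bd.const (F z)).mul (hbo.mul (Bd.ind _))
  have j4 : Bd (fun w => ind (S.cut w z) * b w * (X S χ F U w - F z) ^ 2) :=
    ((Bd.ind _).mul hb).mul (bX.sub (Bd.const (F z))).sq
  have j5 : Bd (fun w => 2 * (X S χ F U w * (b w * (F z - H w) * ind (S.cut w z))
          - F z * (b w * (F z - H w) * ind (S.cut w z)))) := (Bd.const 2).mul (j2.sub j3)
  have : ∫ w, ind (S.cut w z) * b w * (X S χ F U w - H w) ^ 2 ∂μ
      = ∫ w, ind (S.cut w z) * b w * (F z - H w) ^ 2 ∂μ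
        + (2 * (∫ w, X S χ F U w * (b w * (F z - H w) * ind (S.cut w z)) ∂μ
          - ∫ w, F z * (b w * (F z - H w) * ind (S.cut w z)) ∂μ)
        + ∫ w, ind (S.cut w z) * b w * (X S χ F U w - F z) ^ 2 ∂μ) := by
    calc _ = ∫ w, (ind (S.cut w z) * b w * (F z - H w) ^ 2
        + (2 * (X S χ F U w * (b w * (F z - H w) * ind (S.cut w z))
          - F z * (b w * (F z - H w) * ind (S.cut w z)))
        + ind (S.cut w z) * b w * (X S χ F U w - F z) ^ 2)) ∂μ := by
          congr 1; ext w; exact e w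
      _ = ∫ w, ind (S.cut w z) * b w * (F z - H w) ^ 2 ∂μ
        + ∫ w, (2 * (X S χ F U w * (b w * (F z - H w) * ind (S.cut w z))
          - F z * (b w * (F z - H w) * ind (S.cut w z)))
        + ind (S.cut w z) * b w * (X S χ F U w - F z) ^ 2) ∂μ := integral_add j1.int (j5.add j4).int
      _ = ∫ w, ind (S.cut w z) * b w * (F z - H w) ^ 2 ∂μ
        + (∫ w, 2 * (X S χ F U w * (b w * (F z - H w) * ind (S.cut w z))
          - F z * (b w * (F z - H w) * ind (S.cut w z))) ∂μ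
        + ∫ w, ind (S.cut w z) * b w * (X S χ F U w - F z) ^ 2 ∂μ) := by
          congr 1; exact integral_add j5.int j4.int
      _ = _ := by
          congr 2
          rw [integral_const_mul]
          congr 1
          exact integral_sub j2.int j3.int
  rw [this, k, integral_const_mul, sub_self, mul_zero, zero_add]
  have : 0 ≤ ∫ w, ind (S.cut w z) * b w * (X S χ F U w - F z) ^ 2 ∂μ :=
    integral_nonneg fun w => mul_nonneg (mul_nonneg (ind_nn _) (b0 w)) (sq_nonneg _)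
  linarith

/-- orthogonality -/
lemma X_X (hR : Res S μ χ F) (hχ : Bd χ) {U U' : Finset Z} (hU : U ⊆ U')
    (hd : ∀ z ∈ U', z ∉ U → ∀ y ∈ U, S.dp y < S.dp z) :
    ∫ w, X S χ F U w * X S χ F U' w ∂μ = ∫ w, X S χ F U' w ^ 2 ∂μ := by
  have bX := bd_X (S := S) (F := F) hχ U
  have e1 : ∀ w, X S χ F U w * X S χ F U' w
      = ∑ z ∈ U', F z * (X S χ F U w * dd S U' z w) + χ w ^ 2 * nn S U' w := by
    intro w
    have h2 : X S χ F U w * nn S U' w = χ w * nn S U' w := by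
      by_cases h : ∀ y ∈ U', ¬ S.cut w y
      · rw [X_none fun y hy => h y (hU hy)]
      · rw [nn, ind_f h, mul_zero, mul_zero]
    rw [show X S χ F U' w = ∑ z ∈ U', F z * dd S U' z w + χ w * nn S U' w from rfl, mul_add,
      mul_sum]
    congr 1
    · exact sum_congr rfl fun z _ => by ring
    · calc _ = χ w * (X S χ F U w * nn S U' w) := by ring
        _ = _ := by rw [h2]; ring
  have e2 : ∀ w, X S χ F U' w ^ 2
      = ∑ z ∈ U', F z * (F z * dd S U' z w) + χ w ^ 2 * nn S U' w := by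
    intro w
    rcases cases_ S U' w with h | ⟨z, hz, hc, hm⟩
    · rw [X_none h, nn, ind_t h]
      have := sum_dd0 h (fun z => F z * F z)
      simp only [mul_assoc] at this
      rw [this]; ring
    · rw [X_of hz hc hm, nn_zero hz hc]
      have := sum_dd hz hc hm (fun z => F z * F z)
      simp only [mul_assoc] at this
      rw [this]; ring
  have key : ∀ z ∈ U', ∫ w, X S χ F U w * dd S U' z w ∂μ = ∫ w, F z * dd S U' z w ∂μ := by
    intro z hz
    by_cases hzU : z ∈ U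
    · congr 1
      ext w
      by_cases h : S.cut w z ∧ ∀ y ∈ U', S.dp z < S.dp y → ¬ S.cut w y
      · rw [X_of hzU h.1 fun y hy hc => not_lt.1 fun hlt => h.2 y (hU hy) hlt hc]
      · rw [dd, ind_f h, mul_zero, mul_zero]
    · have := int_X' (μ := μ) hR hχ (Bd.ind _) (out_dd (S := S) (U := U') (z := z)) (hd z hz hzU)
      simp only [dd_eq]
      rw [this, integral_const_mul]
  have i1 : ∀ z ∈ U', Integrable (fun w => F z * (X S χ F U w * dd S U' z w)) μ := fun z _ =>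
    ((Bd.const (F z)).mul (bX.mul (bd_dd U' z))).int
  have i2 : Integrable (fun w => χ w ^ 2 * nn S U' w) μ := (hχ.sq.mul (bd_nn U')).int
  have i3 : ∀ z ∈ U', Integrable (fun w => F z * (F z * dd S U' z w)) μ := fun z _ =>
    ((Bd.const (F z)).mul ((Bd.const (F z)).mul (bd_dd U' z))).int
  calc _ = ∫ w, (∑ z ∈ U', F z * (X S χ F U w * dd S U' z w) + χ w ^ 2 * nn S U' w) ∂μ := by
        congr 1; ext w; exact e1 w
    _ = ∑ z ∈ U', F z * ∫ w, X S χ F U w * dd S U' z w ∂μ + ∫ w, χ w ^ 2 * nn S U' w ∂μ := by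
        rw [integral_add (integrable_finsetSum _ i1) i2, integral_finsetSum _ i1]
        congr 1
        exact sum_congr rfl fun z _ => integral_const_mul _ _
    _ = ∑ z ∈ U', F z * ∫ w, F z * dd S U' z w ∂μ + ∫ w, χ w ^ 2 * nn S U' w ∂μ := by
        congr 1
        exact sum_congr rfl fun z hz => by rw [key z hz]
    _ = ∫ w, (∑ z ∈ U', F z * (F z * dd S U' z w) + χ w ^ 2 * nn S U' w) ∂μ := by
        rw [integral_add (integrable_finsetSum _ i3) i2, integral_finsetSum _ i3]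
        congr 1
        exact sum_congr rfl fun z _ => (integral_const_mul _ _).symm
    _ = _ := by congr 1; ext w; exact (e2 w).symm

/-- energy identity -/
lemma energy (hR : Res S μ χ F) (hχ : Bd χ) {U U' : Finset Z} (hU : U ⊆ U')
    (hd : ∀ z ∈ U', z ∉ U → ∀ y ∈ U, S.dp y < S.dp z) :
    ∫ w, (X S χ F U w - X S χ F U' w) ^ 2 ∂μ
      = ∫ w, X S χ F U w ^ 2 ∂μ - ∫ w, X S χ F U' w ^ 2 ∂μ := by
  have bX := bd_X (S := S) (F := F) hχ U
  have bX' := bd_X (S := S) (F := F) hχ U'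
  have k := X_X (μ := μ) hR hχ hU hd
  calc _ = ∫ w, (X S χ F U w ^ 2 - (2 * (X S χ F U w * X S χ F U' w) - X S χ F U' w ^ 2)) ∂μ := by
        congr 1; ext w; ring
    _ = _ := by
        have j1 : Bd (fun w => 2 * (X S χ F U w * X S χ F U' w)) :=
          (Bd.const 2).mul (bX.mul bX')
        calc _ = ∫ w, X S χ F U w ^ 2 ∂μ
              - ∫ w, (2 * (X S χ F U w * X S χ F U' w) - X S χ F U' w ^ 2) ∂μ :=
              integral_sub bX.sq.int (j1.sub bX'.sq).int
          _ = ∫ w, X S χ F U w ^ 2 ∂μ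
              - (∫ w, 2 * (X S χ F U w * X S χ F U' w) ∂μ - ∫ w, X S χ F U' w ^ 2 ∂μ) := by
              congr 1; exact integral_sub j1.int bX'.sq.int
          _ = _ := by rw [integral_const_mul, k]; ring

/-- number of cuts in `V` -/
def NV (S : Cut Om Z) (V : Finset Z) (w : Om) : ℝ := ∑ z ∈ V, ind (S.cut w z)

lemma bd_NV (V : Finset Z) : Bd (NV S V) := Bd.sum fun z _ => Bd.ind _

lemma NV_nn (V : Finset Z) (w : Om) : 0 ≤ NV S V w := sum_nonneg fun _ _ => ind_nn _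

/-- some cut in `W` -/
def bb (S : Cut Om Z) (W : Finset Z) (w : Om) : ℝ := ∑ z ∈ W, dd S W z w

/-- `F` at the deepest cut of `W` -/
def HH (S : Cut Om Z) (F : Z → ℝ) (W : Finset Z) (w : Om) : ℝ := ∑ z ∈ W, F z * dd S W z w

lemma bb_eq (W : Finset Z) (w : Om) : bb S W w = ind (∃ z ∈ W, S.cut w z) := by
  rcases cases_ S W w with h | ⟨z, hz, hc, hm⟩
  · have := sum_dd0 h (fun _ => (1 : ℝ))
    simp only [one_mul] at this
    rw [bb, this, ind_f]
    rintro ⟨z, hz, hc⟩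
    exact h z hz hc
  · have := sum_dd hz hc hm (fun _ => (1 : ℝ))
    simp only [one_mul] at this
    rw [bb, this, ind_t ⟨z, hz, hc⟩]

lemma bb_sq (W : Finset Z) (w : Om) : bb S W w * bb S W w = bb S W w := by
  rw [bb_eq]; exact ind_sq _

lemma bb_nn (W : Finset Z) (w : Om) : 0 ≤ bb S W w := by rw [bb_eq]; exact ind_nn _
lemma bb_le (W : Finset Z) (w : Om) : bb S W w ≤ 1 := by rw [bb_eq]; exact ind_le _
lemma bd_bb (W : Finset Z) : Bd (bb S W) := bd01 (bb_nn W) (bb_le W)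
lemma bd_HH (W : Finset Z) : Bd (HH S F W) :=
  Bd.sum fun z _ => (Bd.const (F z)).mul (bd_dd W z)

lemma HH_mem (hF0 : ∀ z, 0 ≤ F z) (hF1 : ∀ z, F z ≤ 1) (W : Finset Z) (w : Om) :
    0 ≤ HH S F W w ∧ HH S F W w ≤ 1 := by
  rcases cases_ S W w with h | ⟨z, hz, hc, hm⟩
  · rw [HH, sum_dd0 h]; norm_num
  · rw [HH, sum_dd hz hc hm]; exact ⟨hF0 z, hF1 z⟩

/-- `b f(H)` expands over the deepest cut of `W` -/
lemma bb_mul (W : Finset Z) (g : ℝ → ℝ) (w : Om) :
    bb S W w * g (HH S F W w) = ∑ z ∈ W, g (F z) * dd S W z w := by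
  rcases cases_ S W w with h | ⟨z, hz, hc, hm⟩
  · rw [sum_dd0 h, bb_eq, ind_f, zero_mul]
    rintro ⟨z, hz, hc⟩
    exact h z hz hc
  · rw [sum_dd hz hc hm, HH, sum_dd hz hc hm, bb_eq, ind_t ⟨z, hz, hc⟩, one_mul]

lemma out_ddW {W : Finset Z} {z y : Z} (hy : y ∈ W) (h : ∀ x ∈ W, S.dp z < S.dp x) :
    Out S z (dd S W y) := by
  refine Out.ind fun w w' hw => ?_
  rw [S.ax2 hw (h y hy)]
  refine and_congr Iff.rfl ⟨fun k x hx hd hc => k x hx hd ((S.ax2 hw (h x hx)).2 hc),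
    fun k x hx hd hc => k x hx hd ((S.ax2 hw (h x hx)).1 hc)⟩

lemma out_bb {W : Finset Z} {z : Z} (h : ∀ x ∈ W, S.dp z < S.dp x) : Out S z (bb S W) :=
  Out.sum fun _ hy => out_ddW hy h

lemma out_HH {W : Finset Z} {z : Z} (h : ∀ x ∈ W, S.dp z < S.dp x) : Out S z (HH S F W) :=
  Out.sum fun y hy => (Out.const (F y)).mul (out_ddW hy h)

/-- on `b = 1` the deepest cut of `U ∪ V ∪ W` is the deepest cut of `W` -/
lemma X_HH {U' W : Finset Z} (hW : W ⊆ U') (h : ∀ y ∈ U', y ∉ W → ∀ z ∈ W, S.dp y < S.dp z)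
    (w : Om) : bb S W w * X S χ F U' w = bb S W w * HH S F W w := by
  rcases cases_ S W w with k | ⟨z, hz, hc, hm⟩
  · rw [bb_eq, ind_f, zero_mul, zero_mul]
    rintro ⟨z, hz, hc⟩
    exact k z hz hc
  · have : X S χ F U' w = F z := by
      refine X_of (hW hz) hc fun y hy hyc => ?_
      by_cases yW : y ∈ W
      · exact hm y yW hyc
      · exact (h y hy yW z hz).le
    rw [this, HH, sum_dd hz hc hm]

/-- mass of `{z' is cut, z is the deepest cut of W}` -/
def mm (S : Cut Om Z) (μ : Measure Om) (W : Finset Z) (z' z : Z) : ℝ :=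
  ∫ w, ind (S.cut w z') * dd S W z w ∂μ

/-- mass of `{z'' and z' are cut, z is the deepest cut of W}` -/
def m3 (S : Cut Om Z) (μ : Measure Om) (W : Finset Z) (z'' z' z : Z) : ℝ :=
  ∫ w, ind (S.cut w z'') * ind (S.cut w z') * dd S W z w ∂μ

/-- two sided kernel between the windows `V` (shallow) and `W` (deep) -/
structure Win (S : Cut Om Z) (μ : Measure Om) (V W : Finset Z) (p q : Z → ℝ) (k : Z → Z → ℝ)
    (c C ν : ℝ) : Prop where
  p0 : ∀ z, 0 ≤ p z
  q0 : ∀ z, 0 ≤ q z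
  lo : ∀ z' ∈ V, ∀ z ∈ W, c * (p z' * q z) ≤ mm S μ W z' z
  up : ∀ z' ∈ V, ∀ z ∈ W, mm S μ W z' z ≤ C * (p z' * q z)
  up3 : ∀ z'' ∈ V, ∀ z' ∈ V, S.dp z'' < S.dp z' → ∀ z ∈ W,
    m3 S μ W z'' z' z ≤ C * (p z'' * k z'' z' * q z)
  ks : ∀ z'' ∈ V, ∑ z' ∈ V with S.dp z'' < S.dp z', k z'' z' ≤ C * ν

lemma nv2 (V : Finset Z) (w : Om) : NV S V w ^ 2 = NV S V w
    + 2 * ∑ x ∈ V, ∑ y ∈ V with S.dp x < S.dp y, ind (S.cut w x) * ind (S.cut w y) := by
  classical
  have e : ∀ x y : Z, ind (S.cut w x) * ind (S.cut w y)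
      = (if S.dp x < S.dp y then ind (S.cut w x) * ind (S.cut w y) else 0)
        + (if S.dp y < S.dp x then ind (S.cut w x) * ind (S.cut w y) else 0)
        + (if x = y then ind (S.cut w x) else 0) := by
    intro x y
    rcases lt_trichotomy (S.dp x) (S.dp y) with h | h | h
    · have : x ≠ y := fun k => by rw [k] at h; exact lt_irrefl _ h
      simp [h, not_lt.2 h.le, this]
    · by_cases k : x = y
      · subst k; simp [ind_sq]
      · simp only [h, lt_irrefl, if_false, k, add_zero]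
        by_cases cx : S.cut w x
        · by_cases cy : S.cut w y
          · exact absurd (S.ax4 cx cy h) k
          · rw [ind_f cy, mul_zero]
        · rw [ind_f cx, zero_mul]
    · have : x ≠ y := fun k => by rw [k] at h; exact lt_irrefl _ h
      simp [h, not_lt.2 h.le, this]
  have s1 : ∑ x ∈ V, ∑ y ∈ V, (if S.dp y < S.dp x then ind (S.cut w x) * ind (S.cut w y) else 0)
      = ∑ x ∈ V, ∑ y ∈ V, (if S.dp x < S.dp y then ind (S.cut w x) * ind (S.cut w y) else 0) := by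
    rw [sum_comm]
    refine sum_congr rfl fun x _ => sum_congr rfl fun y _ => ?_
    split_ifs
    · ring
    · rfl
  have s2 : ∑ x ∈ V, ∑ y ∈ V, (if x = y then ind (S.cut w x) else 0) = NV S V w := by
    rw [NV]
    refine sum_congr rfl fun x hx => ?_
    rw [Finset.sum_ite_eq V x fun _ => ind (S.cut w x)]
    simp [hx]
  rw [pow_two]
  nth_rewrite 1 [NV]
  nth_rewrite 1 [NV]
  rw [sum_mul_sum]
  calc _ = ∑ x ∈ V, ∑ y ∈ V, ((if S.dp x < S.dp y then ind (S.cut w x) * ind (S.cut w y) else 0)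
        + (if S.dp y < S.dp x then ind (S.cut w x) * ind (S.cut w y) else 0)
        + (if x = y then ind (S.cut w x) else 0)) :=
        sum_congr rfl fun x _ => sum_congr rfl fun y _ => e x y
    _ = _ := by
        simp only [sum_add_distrib]
        rw [s1, s2]
        simp only [sum_filter]
        ring

lemma nvb (V W : Finset Z) :
    ∫ w, NV S V w * bb S W w ∂μ = ∑ x ∈ V, ∑ z ∈ W, mm S μ W x z := by
  calc _ = ∫ w, (∑ x ∈ V, ∑ z ∈ W, ind (S.cut w x) * dd S W z w) ∂μ := by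
        congr 1; ext w
        rw [NV, bb, sum_mul_sum]
    _ = ∑ x ∈ V, ∫ w, (∑ z ∈ W, ind (S.cut w x) * dd S W z w) ∂μ :=
        integral_finsetSum _ fun x _ => (Bd.sum fun z _ => (Bd.ind _).mul (bd_dd W z)).int
    _ = _ := sum_congr rfl fun x _ =>
        integral_finsetSum _ fun z _ => ((Bd.ind _).mul (bd_dd W z)).int

lemma nv2b (V W : Finset Z) :
    ∫ w, NV S V w ^ 2 * bb S W w ∂μ = ∫ w, NV S V w * bb S W w ∂μ
      + 2 * ∑ x ∈ V, ∑ y ∈ V with S.dp x < S.dp y, ∑ z ∈ W, m3 S μ W x y z := by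
  have e : ∀ w, NV S V w ^ 2 * bb S W w = NV S V w * bb S W w
      + 2 * ∑ x ∈ V, ∑ y ∈ V with S.dp x < S.dp y, ∑ z ∈ W,
        ind (S.cut w x) * ind (S.cut w y) * dd S W z w := by
    intro w
    rw [nv2, add_mul, mul_assoc, sum_mul]
    congr 2
    refine sum_congr rfl fun x _ => ?_
    rw [sum_mul]
    refine sum_congr rfl fun y _ => ?_
    rw [bb, mul_sum]
  have b1 : ∀ x ∈ V, ∀ y ∈ V.filter (fun y => S.dp x < S.dp y), ∀ z ∈ W,
      Bd (fun w => ind (S.cut w x) * ind (S.cut w y) * dd S W z w) := fun x _ y _ z _ =>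
    ((Bd.ind _).mul (Bd.ind _)).mul (bd_dd W z)
  have b2 : ∀ x ∈ V, ∀ y ∈ V.filter (fun y => S.dp x < S.dp y),
      Bd (fun w => ∑ z ∈ W, ind (S.cut w x) * ind (S.cut w y) * dd S W z w) := fun x hx y hy =>
    Bd.sum (b1 x hx y hy)
  have b3 : ∀ x ∈ V, Bd (fun w => ∑ y ∈ V with S.dp x < S.dp y, ∑ z ∈ W,
      ind (S.cut w x) * ind (S.cut w y) * dd S W z w) := fun x hx => Bd.sum (b2 x hx)
  have b4 : Bd (fun w => 2 * ∑ x ∈ V, ∑ y ∈ V with S.dp x < S.dp y, ∑ z ∈ W,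
      ind (S.cut w x) * ind (S.cut w y) * dd S W z w) := (Bd.const 2).mul (Bd.sum b3)
  calc _ = ∫ w, (NV S V w * bb S W w
      + 2 * ∑ x ∈ V, ∑ y ∈ V with S.dp x < S.dp y, ∑ z ∈ W,
        ind (S.cut w x) * ind (S.cut w y) * dd S W z w) ∂μ := by
        congr 1; ext w; exact e w
    _ = ∫ w, NV S V w * bb S W w ∂μ + ∫ w, 2 * ∑ x ∈ V, ∑ y ∈ V with S.dp x < S.dp y, ∑ z ∈ W,
        ind (S.cut w x) * ind (S.cut w y) * dd S W z w ∂μ :=
        integral_add ((bd_NV V).mul (bd_bb W)).int b4.int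
    _ = _ := by
        congr 1
        rw [integral_const_mul]
        congr 1
        rw [integral_finsetSum _ fun x hx => (b3 x hx).int]
        refine sum_congr rfl fun x hx => ?_
        rw [integral_finsetSum _ fun y hy => (b2 x hx y hy).int]
        refine sum_congr rfl fun y hy => ?_
        rw [integral_finsetSum _ fun z hz => (b1 x hx y hy z hz).int]
        rfl

/-- first and second moment of the number of cuts in `V` (on `W` not empty) -/
lemma moments {V W : Finset Z} {p q : Z → ℝ} {k : Z → Z → ℝ} {c C ν : ℝ}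
    (h : Win S μ V W p q k c C ν) (hc : 0 < c) (hC : 0 < C) (hν : 1 ≤ ν) :
    ∫ w, NV S V w ^ 2 * bb S W w ∂μ ≤ ((C + 2 * C ^ 2) / c) ^ 2 * ν ^ 2 * μ.real Set.univ := by
  set P := ∑ x ∈ V, p x with hP
  set Q := ∑ z ∈ W, q z with hQ
  set T := μ.real Set.univ with hT
  set A := ∫ w, NV S V w * bb S W w ∂μ with hA
  set B := ∫ w, NV S V w ^ 2 * bb S W w ∂μ with hB
  have P0 : 0 ≤ P := sum_nonneg fun x _ => h.p0 x
  have Q0 : 0 ≤ Q := sum_nonneg fun x _ => h.q0 x
  have T0 : 0 ≤ T := measureReal_nonneg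
  have PQ : ∑ x ∈ V, ∑ z ∈ W, p x * q z = P * Q := by rw [hP, hQ, sum_mul_sum]
  have A1 : c * (P * Q) ≤ A := by
    rw [hA, nvb, ← PQ, mul_sum]
    refine sum_le_sum fun x hx => ?_
    rw [mul_sum]
    exact sum_le_sum fun z hz => h.lo x hx z hz
  have A2 : A ≤ C * (P * Q) := by
    rw [hA, nvb, ← PQ, mul_sum]
    refine sum_le_sum fun x hx => ?_
    rw [mul_sum]
    exact sum_le_sum fun z hz => h.up x hx z hz
  have B1 : B ≤ A + 2 * (C * (C * ν) * (P * Q)) := by
    rw [hB, nv2b]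
    refine add_le_add le_rfl (mul_le_mul_of_nonneg_left ?_ (by norm_num))
    calc ∑ x ∈ V, ∑ y ∈ V with S.dp x < S.dp y, ∑ z ∈ W, m3 S μ W x y z
        ≤ ∑ x ∈ V, ∑ y ∈ V with S.dp x < S.dp y, ∑ z ∈ W, C * (p x * k x y * q z) := by
          refine sum_le_sum fun x hx => sum_le_sum fun y hy => sum_le_sum fun z hz => ?_
          rw [mem_filter] at hy
          exact h.up3 x hx y hy.1 hy.2 z hz
      _ = ∑ x ∈ V, C * p x * Q * ∑ y ∈ V with S.dp x < S.dp y, k x y := by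
          refine sum_congr rfl fun x _ => ?_
          rw [mul_sum]
          refine sum_congr rfl fun y _ => ?_
          rw [hQ, mul_sum, sum_mul]
          exact sum_congr rfl fun z _ => by ring
      _ ≤ ∑ x ∈ V, C * p x * Q * (C * ν) := by
          refine sum_le_sum fun x hx => mul_le_mul_of_nonneg_left (h.ks x hx) ?_
          exact mul_nonneg (mul_nonneg hC.le (h.p0 x)) Q0
      _ = _ := by
          rw [hP, sum_mul, mul_sum]
          exact sum_congr rfl fun x _ => by ring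
  have B2 : B ≤ (C + 2 * C ^ 2) * ν * (P * Q) := by
    have PQ0 : 0 ≤ P * Q := mul_nonneg P0 Q0
    have : C * (P * Q) ≤ C * ν * (P * Q) := by
      have : C * (P * Q) * 1 ≤ C * (P * Q) * ν :=
        mul_le_mul_of_nonneg_left hν (mul_nonneg hC.le PQ0)
      linarith
    nlinarith [B1, A2, this]
  have A0 : 0 ≤ A := (mul_nonneg hc.le (mul_nonneg P0 Q0)).trans A1
  -- Cauchy-Schwarz
  have CS : A ^ 2 ≤ B * T := by
    have h1 : ∀ t : ℝ, 0 ≤ B - 2 * t * A + t ^ 2 * ∫ w, bb S W w ∂μ := by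
      intro t
      have b1 : Bd (fun w => NV S V w ^ 2 * bb S W w) := (bd_NV V).sq.mul (bd_bb W)
      have b2 : Bd (fun w => 2 * t * (NV S V w * bb S W w)) :=
        (Bd.const _).mul ((bd_NV V).mul (bd_bb W))
      have b3 : Bd (fun w => t ^ 2 * bb S W w) := (Bd.const _).mul (bd_bb W)
      have : ∫ w, (NV S V w ^ 2 * bb S W w - 2 * t * (NV S V w * bb S W w) + t ^ 2 * bb S W w) ∂μ
          = B - 2 * t * A + t ^ 2 * ∫ w, bb S W w ∂μ := by
        calc _ = ∫ w, (NV S V w ^ 2 * bb S W w - 2 * t * (NV S V w * bb S W w)) ∂μ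
              + ∫ w, t ^ 2 * bb S W w ∂μ := integral_add (b1.sub b2).int b3.int
          _ = ∫ w, NV S V w ^ 2 * bb S W w ∂μ - ∫ w, 2 * t * (NV S V w * bb S W w) ∂μ
              + ∫ w, t ^ 2 * bb S W w ∂μ := by congr 1; exact integral_sub b1.int b2.int
          _ = _ := by rw [integral_const_mul, integral_const_mul]
      rw [← this]
      refine integral_nonneg fun w => ?_
      have : NV S V w ^ 2 * bb S W w - 2 * t * (NV S V w * bb S W w) + t ^ 2 * bb S W w
          = bb S W w * (NV S V w - t) ^ 2 := by ring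
      simp only [Pi.zero_apply]
      rw [this]
      exact mul_nonneg (bb_nn W w) (sq_nonneg _)
    have h2 : ∫ w, bb S W w ∂μ ≤ T := by
      calc ∫ w, bb S W w ∂μ ≤ ∫ _, (1 : ℝ) ∂μ :=
            integral_mono (bd_bb W).int (Bd.const 1).int (bb_le W)
        _ = T := by simp [hT]
    rcases eq_or_lt_of_le T0 with hT0 | hT0
    · -- T = 0
      have h3 : ∫ w, bb S W w ∂μ = 0 := le_antisymm (h2.trans hT0.symm.le)
        (integral_nonneg (bb_nn W))
      rw [h3] at h1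
      have := h1 (A * (B + 1))
      have B0 : 0 ≤ B := by simpa using h1 0
      rw [← hT0, mul_zero]
      by_contra hne
      push Not at hne
      have hp : 0 < A := by
        rcases eq_or_lt_of_le A0 with h | h
        · rw [← h] at hne; norm_num at hne
        · exact h
      have := h1 ((B + 1) / A)
      have e : 2 * ((B + 1) / A) * A = 2 * (B + 1) := by field_simp
      rw [e] at this
      linarith
    · have := h1 (A / T)
      have h4 : (A / T) ^ 2 * ∫ w, bb S W w ∂μ ≤ (A / T) ^ 2 * T :=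
        mul_le_mul_of_nonneg_left h2 (sq_nonneg _)
      have e1 : (A / T) ^ 2 * T = A ^ 2 / T := by field_simp
      have e2 : 2 * (A / T) * A = 2 * (A ^ 2 / T) := by field_simp
      have h5 : A ^ 2 / T ≤ B := by rw [e1] at h4; rw [e2] at this; linarith
      rwa [div_le_iff₀ hT0] at h5
  -- conclusion
  have PQ0 : 0 ≤ P * Q := mul_nonneg P0 Q0
  have hC' : 0 < C + 2 * C ^ 2 := by positivity
  rcases eq_or_lt_of_le PQ0 with h0 | h0
  · rw [← h0, mul_zero] at B2
    exact B2.trans (by positivity)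
  · have h1 : (c * (P * Q)) ^ 2 ≤ (C + 2 * C ^ 2) * ν * (P * Q) * T :=
      (pow_le_pow_left₀ (mul_nonneg hc.le PQ0) A1 2).trans
        (CS.trans (mul_le_mul_of_nonneg_right B2 T0))
    have h2 : c ^ 2 * (P * Q) ≤ (C + 2 * C ^ 2) * ν * T := by
      have : (P * Q) * (c ^ 2 * (P * Q)) ≤ (P * Q) * ((C + 2 * C ^ 2) * ν * T) := by
        nlinarith [h1]
      exact le_of_mul_le_mul_left this h0
    have h3 : P * Q ≤ (C + 2 * C ^ 2) * ν * T / c ^ 2 := by
      rw [le_div_iff₀ (by positivity)]; linarith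
    calc B ≤ (C + 2 * C ^ 2) * ν * (P * Q) := B2
      _ ≤ (C + 2 * C ^ 2) * ν * ((C + 2 * C ^ 2) * ν * T / c ^ 2) :=
          mul_le_mul_of_nonneg_left h3 (by positivity)
      _ = _ := by field_simp

/-- one pair of windows -/
theorem window (hR : Res S μ χ F) (χ0 : ∀ w, 0 ≤ χ w) (χ1 : ∀ w, χ w ≤ 1)
    (F0 : ∀ z, 0 ≤ F z) (F1 : ∀ z, F z ≤ 1) {U V W U' : Finset Z}
    (hUV : ∀ x ∈ U, ∀ y ∈ V, S.dp x < S.dp y) (hVW : ∀ x ∈ V, ∀ y ∈ W, S.dp x < S.dp y)
    (hWU : W ⊆ U') (hU' : ∀ y ∈ U', y ∉ W → ∀ z ∈ W, S.dp y < S.dp z)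
    {p q : Z → ℝ} {k : Z → Z → ℝ} {c C κ ν δ K : ℝ} (h : Win S μ V W p q k c C ν)
    (hc : 0 < c) (hC : 0 < C) (hκ : 0 < κ) (hν : 1 ≤ ν) (hK : 0 < K)
    (hδ : ∫ w, (X S χ F U w - X S χ F U' w) ^ 2 ∂μ ≤ δ * μ.real Set.univ) :
    ∃ χb : ℝ, 0 ≤ χb ∧ χb ≤ 1 ∧
      ∫ w, bb S W w * ind (κ * ν ≤ NV S V w) * (X S χ F U' w - χb) ^ 2 ∂μ
        ≤ 2 * (1 + C / c) / κ * (K * δ + ((C + 2 * C ^ 2) / c) ^ 2 / K) * μ.real Set.univ := by
  set T := μ.real Set.univ with hT
  have hχ : Bd χ := bd01 χ0 χ1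
  have ν0 : 0 < ν := lt_of_lt_of_le one_pos hν
  have bX := bd_X (S := S) (F := F) hχ U
  have bX' := bd_X (S := S) (F := F) hχ U'
  have bH : Bd (HH S F W) := bd_HH W
  have bB : Bd (bb S W) := bd_bb W
  set L := ∑ x ∈ V, ∫ w, ind (S.cut w x) * bb S W w * (F x - HH S F W w) ^ 2 ∂μ with hL
  have bx : ∀ x : Z, Bd (fun w => ind (S.cut w x) * bb S W w * (F x - HH S F W w) ^ 2) :=
    fun x => ((Bd.ind _).mul bB).mul ((Bd.const _).sub bH).sq
  -- (1), (2), (3)
  have step1 : L ≤ K * ν * (δ * T) + (1 / (K * ν)) * (((C + 2 * C ^ 2) / c) ^ 2 * ν ^ 2 * T) := by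
    have a1 : L ≤ ∑ x ∈ V, ∫ w, ind (S.cut w x) * bb S W w * (X S χ F U w - HH S F W w) ^ 2 ∂μ :=
      sum_le_sum fun x hx => stepA hR hχ bB bH (bb_nn W) (out_bb (hVW x hx)) (out_HH (hVW x hx))
        fun y hy => hUV y hy x hx
    have b1 : ∀ x : Z, Bd (fun w => ind (S.cut w x) * bb S W w *
        (X S χ F U w - HH S F W w) ^ 2) := fun x => ((Bd.ind _).mul bB).mul (bX.sub bH).sq
    have a2 : ∑ x ∈ V, ∫ w, ind (S.cut w x) * bb S W w * (X S χ F U w - HH S F W w) ^ 2 ∂μ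
        = ∫ w, NV S V w * (bb S W w * (X S χ F U w - HH S F W w) ^ 2) ∂μ := by
      rw [← integral_finsetSum _ fun x _ => (b1 x).int]
      congr 1; ext w
      rw [NV, sum_mul]
      exact sum_congr rfl fun x _ => by ring
    have pt : ∀ w, bb S W w * (X S χ F U w - HH S F W w) ^ 2
        = bb S W w * (X S χ F U w - X S χ F U' w) ^ 2 := by
      intro w
      have e := X_HH (S := S) (χ := χ) (F := F) hWU hU' w
      have : bb S W w * HH S F W w ^ 2 = bb S W w * X S χ F U' w ^ 2 := by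
        calc _ = bb S W w * HH S F W w * HH S F W w := by ring
          _ = bb S W w * X S χ F U' w * HH S F W w := by rw [e]
          _ = bb S W w * HH S F W w * X S χ F U' w := by ring
          _ = bb S W w * X S χ F U' w * X S χ F U' w := by rw [e]
          _ = _ := by ring
      calc _ = bb S W w * X S χ F U w ^ 2 - 2 * X S χ F U w * (bb S W w * HH S F W w)
            + bb S W w * HH S F W w ^ 2 := by ring
        _ = bb S W w * X S χ F U w ^ 2 - 2 * X S χ F U w * (bb S W w * X S χ F U' w)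
            + bb S W w * X S χ F U' w ^ 2 := by rw [this, ← e]
        _ = _ := by ring
    have kν : 0 < K * ν := mul_pos hK ν0
    have y01 : ∀ w, 0 ≤ (X S χ F U w - X S χ F U' w) ^ 2 ∧
        (X S χ F U w - X S χ F U' w) ^ 2 ≤ 1 := by
      intro w
      have h1 := X_mem (S := S) χ0 χ1 F0 F1 U w
      have h2 := X_mem (S := S) χ0 χ1 F0 F1 U' w
      exact ⟨sq_nonneg _, by nlinarith [h1.1, h1.2, h2.1, h2.2]⟩
    have pt2 : ∀ w, NV S V w * (bb S W w * (X S χ F U w - HH S F W w) ^ 2)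
        ≤ K * ν * (X S χ F U w - X S χ F U' w) ^ 2
          + 1 / (K * ν) * (NV S V w ^ 2 * bb S W w) := by
      intro w
      rw [pt]
      have N0 := NV_nn (S := S) V w
      have B0 := bb_nn (S := S) W w
      have B1 := bb_le (S := S) W w
      obtain ⟨y0, y1⟩ := y01 w
      set y := (X S χ F U w - X S χ F U' w) ^ 2
      set n := NV S V w
      set b := bb S W w
      by_cases hn : n ≤ K * ν
      · have h1 : n * (b * y) ≤ K * ν * y := by
          have : n * (b * y) ≤ n * y :=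
            mul_le_mul_of_nonneg_left (by nlinarith) N0
          exact this.trans (mul_le_mul_of_nonneg_right hn y0)
        have : 0 ≤ 1 / (K * ν) * (n ^ 2 * b) := by positivity
        linarith
      · push Not at hn
        have h1 : n * (b * y) ≤ n * b := mul_le_mul_of_nonneg_left (by nlinarith) N0
        have h2 : n * b ≤ 1 / (K * ν) * (n ^ 2 * b) := by
          rw [one_div, inv_mul_eq_div, le_div_iff₀ kν]
          have := mul_le_mul_of_nonneg_left hn.le (mul_nonneg N0 B0)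
          nlinarith
        have : 0 ≤ K * ν * y := by positivity
        linarith
    have b2 : Bd (fun w => NV S V w * (bb S W w * (X S χ F U w - HH S F W w) ^ 2)) :=
      (bd_NV V).mul (bB.mul (bX.sub bH).sq)
    have b3 : Bd (fun w => K * ν * (X S χ F U w - X S χ F U' w) ^ 2) :=
      (Bd.const _).mul (bX.sub bX').sq
    have b4 : Bd (fun w => 1 / (K * ν) * (NV S V w ^ 2 * bb S W w)) :=
      (Bd.const _).mul ((bd_NV V).sq.mul bB)
    have a3 : ∫ w, NV S V w * (bb S W w * (X S χ F U w - HH S F W w) ^ 2) ∂μ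
        ≤ K * ν * ∫ w, (X S χ F U w - X S χ F U' w) ^ 2 ∂μ
          + 1 / (K * ν) * ∫ w, NV S V w ^ 2 * bb S W w ∂μ := by
      calc _ ≤ ∫ w, (K * ν * (X S χ F U w - X S χ F U' w) ^ 2
          + 1 / (K * ν) * (NV S V w ^ 2 * bb S W w)) ∂μ :=
            integral_mono b2.int (b3.add b4).int pt2
        _ = ∫ w, K * ν * (X S χ F U w - X S χ F U' w) ^ 2 ∂μ
          + ∫ w, 1 / (K * ν) * (NV S V w ^ 2 * bb S W w) ∂μ := integral_add b3.int b4.int
        _ = _ := by rw [integral_const_mul, integral_const_mul]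
    calc L ≤ _ := a1.trans (a2.le.trans a3)
      _ ≤ _ := by
        refine add_le_add (mul_le_mul_of_nonneg_left hδ kν.le) ?_
        exact mul_le_mul_of_nonneg_left (moments h hc hC hν) (by positivity)
  -- χb
  set Q := ∑ z ∈ W, q z with hQ
  have Q0 : 0 ≤ Q := sum_nonneg fun x _ => h.q0 x
  obtain ⟨χb, c0, c1, hχb⟩ : ∃ χb : ℝ, 0 ≤ χb ∧ χb ≤ 1 ∧ Q * χb = ∑ z ∈ W, q z * F z := by
    rcases eq_or_lt_of_le Q0 with hq | hq
    · refine ⟨0, le_rfl, zero_le_one, ?_⟩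
      rw [mul_zero]
      symm
      refine Finset.sum_eq_zero fun z hz => ?_
      have : q z ≤ Q := single_le_sum (f := q) (fun x _ => h.q0 x) hz
      have : q z = 0 := le_antisymm (this.trans hq.symm.le) (h.q0 z)
      rw [this, zero_mul]
    · refine ⟨(∑ z ∈ W, q z * F z) / Q, ?_, ?_, ?_⟩
      · exact div_nonneg (sum_nonneg fun z _ => mul_nonneg (h.q0 z) (F0 z)) Q0
      · rw [div_le_one hq]
        exact sum_le_sum fun z _ => by nlinarith [h.q0 z, F1 z]
      · field_simp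
  refine ⟨χb, c0, c1, ?_⟩
  -- expansion over z
  have ex : ∀ (x : Z) (g : ℝ → ℝ), ∫ w, ind (S.cut w x) * (bb S W w * g (HH S F W w)) ∂μ
      = ∑ z ∈ W, g (F z) * mm S μ W x z := by
    intro x g
    calc _ = ∫ w, (∑ z ∈ W, g (F z) * (ind (S.cut w x) * dd S W z w)) ∂μ := by
          congr 1; ext w
          rw [bb_mul, mul_sum]
          exact sum_congr rfl fun z _ => by ring
      _ = _ := by
          rw [integral_finsetSum _ fun z _ =>
            ((Bd.const (g (F z))).mul ((Bd.ind _).mul (bd_dd W z))).int]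
          exact sum_congr rfl fun z _ => integral_const_mul _ _
  have mm0 : ∀ x z, 0 ≤ mm S μ W x z := fun x z =>
    integral_nonneg fun w => mul_nonneg (ind_nn _) (ind_nn _)
  have step2 : c * (Q * ∑ x ∈ V, p x * (F x - χb) ^ 2) ≤ L := by
    rw [hL, mul_sum, mul_sum]
    refine sum_le_sum fun x hx => ?_
    have e1 : ∫ w, ind (S.cut w x) * bb S W w * (F x - HH S F W w) ^ 2 ∂μ
        = ∑ z ∈ W, (F x - F z) ^ 2 * mm S μ W x z := by
      rw [← ex x fun t => (F x - t) ^ 2]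
      congr 1; ext w; ring
    rw [e1]
    have e2 : ∑ z ∈ W, q z * (F x - F z) ^ 2
        = Q * (F x - χb) ^ 2 + ∑ z ∈ W, q z * (F z - χb) ^ 2 := by
      have : ∀ z ∈ W, q z * (F x - F z) ^ 2 = q z * (F x - χb) ^ 2
          + (-2 * (F x - χb) * (q z * F z) + 2 * (F x - χb) * χb * q z)
          + q z * (F z - χb) ^ 2 := fun z _ => by ring
      rw [sum_congr rfl this, sum_add_distrib, sum_add_distrib, sum_add_distrib, ← sum_mul,
        ← mul_sum, ← mul_sum, ← hχb, ← hQ]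
      ring
    have e3 : 0 ≤ ∑ z ∈ W, q z * (F z - χb) ^ 2 :=
      sum_nonneg fun z _ => mul_nonneg (h.q0 z) (sq_nonneg _)
    calc c * (Q * (p x * (F x - χb) ^ 2)) = c * p x * (Q * (F x - χb) ^ 2) := by ring
      _ ≤ c * p x * ∑ z ∈ W, q z * (F x - F z) ^ 2 := by
          refine mul_le_mul_of_nonneg_left ?_ (mul_nonneg hc.le (h.p0 x))
          linarith
      _ = ∑ z ∈ W, (F x - F z) ^ 2 * (c * (p x * q z)) := by
          rw [mul_sum]; exact sum_congr rfl fun z _ => by ring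
      _ ≤ _ := sum_le_sum fun z hz => mul_le_mul_of_nonneg_left (h.lo x hx z hz) (sq_nonneg _)
  -- the same with χb instead of H
  set L2 := ∑ x ∈ V, ∫ w, ind (S.cut w x) * bb S W w * (F x - χb) ^ 2 ∂μ with hL2
  have step3 : L2 ≤ C / c * L := by
    have : L2 ≤ C * (Q * ∑ x ∈ V, p x * (F x - χb) ^ 2) := by
      rw [hL2, mul_sum, mul_sum]
      refine sum_le_sum fun x hx => ?_
      have e1 : ∫ w, ind (S.cut w x) * bb S W w * (F x - χb) ^ 2 ∂μ
          = ∑ z ∈ W, (F x - χb) ^ 2 * mm S μ W x z := by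
        rw [← ex x fun _ => (F x - χb) ^ 2]
        congr 1; ext w; ring
      rw [e1]
      calc ∑ z ∈ W, (F x - χb) ^ 2 * mm S μ W x z
          ≤ ∑ z ∈ W, (F x - χb) ^ 2 * (C * (p x * q z)) :=
            sum_le_sum fun z hz => mul_le_mul_of_nonneg_left (h.up x hx z hz) (sq_nonneg _)
        _ = _ := by
            rw [hQ, sum_mul, mul_sum]
            exact sum_congr rfl fun z _ => by ring
    refine this.trans ?_
    have h1 : Q * ∑ x ∈ V, p x * (F x - χb) ^ 2 ≤ L / c := by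
      rw [le_div_iff₀ hc]; linarith
    calc C * (Q * ∑ x ∈ V, p x * (F x - χb) ^ 2) ≤ C * (L / c) :=
          mul_le_mul_of_nonneg_left h1 hC.le
      _ = _ := by ring
  -- pointwise
  have b5 : Bd (fun w => bb S W w * ind (κ * ν ≤ NV S V w) * (X S χ F U' w - χb) ^ 2) :=
    (bB.mul (Bd.ind _)).mul (bX'.sub (Bd.const _)).sq
  have b6 : ∀ x ∈ V, Bd (fun w => ind (S.cut w x) * bb S W w * (F x - χb) ^ 2) := fun x _ =>
    ((Bd.ind _).mul bB).mul (Bd.const _)
  have pt3 : ∀ w, κ * ν * (bb S W w * ind (κ * ν ≤ NV S V w) * (X S χ F U' w - χb) ^ 2)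
      ≤ 2 * (∑ x ∈ V, ind (S.cut w x) * bb S W w * (F x - HH S F W w) ^ 2
        + ∑ x ∈ V, ind (S.cut w x) * bb S W w * (F x - χb) ^ 2) := by
    intro w
    have B0 := bb_nn (S := S) W w
    have e := X_HH (S := S) (χ := χ) (F := F) hWU hU' w
    have r0 : 0 ≤ 2 * (∑ x ∈ V, ind (S.cut w x) * bb S W w * (F x - HH S F W w) ^ 2
        + ∑ x ∈ V, ind (S.cut w x) * bb S W w * (F x - χb) ^ 2) := by
      refine mul_nonneg (by norm_num) (add_nonneg ?_ ?_) <;>
        exact sum_nonneg fun x _ => mul_nonneg (mul_nonneg (ind_nn _) B0) (sq_nonneg _)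
    by_cases hn : κ * ν ≤ NV S V w
    · rw [ind_t hn, mul_one]
      have e2 : bb S W w * (X S χ F U' w - χb) ^ 2 = bb S W w * (HH S F W w - χb) ^ 2 := by
        have e' : bb S W w * X S χ F U' w ^ 2 = bb S W w * HH S F W w ^ 2 := by
          calc _ = bb S W w * X S χ F U' w * X S χ F U' w := by ring
            _ = bb S W w * HH S F W w * X S χ F U' w := by rw [e]
            _ = bb S W w * X S χ F U' w * HH S F W w := by ring
            _ = bb S W w * HH S F W w * HH S F W w := by rw [e]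
            _ = _ := by ring
        calc _ = bb S W w * X S χ F U' w ^ 2 - 2 * χb * (bb S W w * X S χ F U' w)
              + bb S W w * χb ^ 2 := by ring
          _ = bb S W w * HH S F W w ^ 2 - 2 * χb * (bb S W w * HH S F W w)
              + bb S W w * χb ^ 2 := by rw [e', e]
          _ = _ := by ring
      rw [e2]
      have y0 : 0 ≤ bb S W w * (HH S F W w - χb) ^ 2 := mul_nonneg B0 (sq_nonneg _)
      calc κ * ν * (bb S W w * (HH S F W w - χb) ^ 2)
          ≤ NV S V w * (bb S W w * (HH S F W w - χb) ^ 2) := mul_le_mul_of_nonneg_right hn y0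
        _ = ∑ x ∈ V, ind (S.cut w x) * (bb S W w * (HH S F W w - χb) ^ 2) := by
            rw [NV, sum_mul]
        _ ≤ ∑ x ∈ V, (2 * (ind (S.cut w x) * bb S W w * (F x - HH S F W w) ^ 2)
              + 2 * (ind (S.cut w x) * bb S W w * (F x - χb) ^ 2)) := by
            refine sum_le_sum fun x _ => ?_
            have i0 : 0 ≤ ind (S.cut w x) * bb S W w := mul_nonneg (ind_nn _) B0
            have : (HH S F W w - χb) ^ 2 ≤ 2 * (F x - HH S F W w) ^ 2 + 2 * (F x - χb) ^ 2 := by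
              nlinarith [sq_nonneg (F x - HH S F W w + (F x - χb))]
            nlinarith [mul_le_mul_of_nonneg_left this i0]
        _ = _ := by rw [sum_add_distrib, ← mul_sum, ← mul_sum]; ring
    · rw [ind_f hn, mul_zero, zero_mul, mul_zero]
      exact r0
  have step4 : κ * ν * ∫ w, bb S W w * ind (κ * ν ≤ NV S V w) * (X S χ F U' w - χb) ^ 2 ∂μ
      ≤ 2 * (L + L2) := by
    have b7 : Bd (fun w => ∑ x ∈ V, ind (S.cut w x) * bb S W w * (F x - HH S F W w) ^ 2) :=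
      Bd.sum fun x _ => bx x
    have b8 : Bd (fun w => ∑ x ∈ V, ind (S.cut w x) * bb S W w * (F x - χb) ^ 2) := Bd.sum b6
    rw [← integral_const_mul]
    calc _ ≤ ∫ w, 2 * (∑ x ∈ V, ind (S.cut w x) * bb S W w * (F x - HH S F W w) ^ 2
        + ∑ x ∈ V, ind (S.cut w x) * bb S W w * (F x - χb) ^ 2) ∂μ :=
          integral_mono ((Bd.const (κ * ν)).mul b5).int ((Bd.const 2).mul (b7.add b8)).int pt3
      _ = 2 * (∫ w, ∑ x ∈ V, ind (S.cut w x) * bb S W w * (F x - HH S F W w) ^ 2 ∂μ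
          + ∫ w, ∑ x ∈ V, ind (S.cut w x) * bb S W w * (F x - χb) ^ 2 ∂μ) := by
          rw [integral_const_mul]
          congr 1
          exact integral_add b7.int b8.int
      _ = _ := by
          rw [integral_finsetSum _ fun x _ => (bx x).int,
            integral_finsetSum _ fun x hx => (b6 x hx).int]
  have κν : 0 < κ * ν := mul_pos hκ ν0
  have T0 : 0 ≤ T := measureReal_nonneg
  set E := ∫ w, bb S W w * ind (κ * ν ≤ NV S V w) * (X S χ F U' w - χb) ^ 2 ∂μ with hE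
  have cC : 0 < 1 + C / c := by positivity
  have f1 : κ * ν * E ≤ 2 * (1 + C / c) * L := by
    have : 2 * (L + L2) ≤ 2 * (1 + C / c) * L := by nlinarith [step3]
    linarith
  have f2 : K * ν * (δ * T) + 1 / (K * ν) * (((C + 2 * C ^ 2) / c) ^ 2 * ν ^ 2 * T)
      = ν * ((K * δ + ((C + 2 * C ^ 2) / c) ^ 2 / K) * T) := by
    field_simp
  rw [f2] at step1
  have f3 : κ * ν * E ≤ 2 * (1 + C / c) *
      (ν * ((K * δ + ((C + 2 * C ^ 2) / c) ^ 2 / K) * T)) :=
    f1.trans (mul_le_mul_of_nonneg_left step1 (by positivity))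
  have f4 : κ * ν * (2 * (1 + C / c) / κ * (K * δ + ((C + 2 * C ^ 2) / c) ^ 2 / K) * T)
      = 2 * (1 + C / c) * (ν * ((K * δ + ((C + 2 * C ^ 2) / c) ^ 2 / K) * T)) := by
    field_simp
  exact le_of_mul_le_mul_left (f3.trans f4.symm.le) κν

open Classical in
/-- union of the windows `W 0, .., W (m - 1)` -/
def UU {Z : Type*} (W : ℕ → Finset Z) (m : ℕ) : Finset Z := (range m).biUnion W

lemma mem_UU {Z : Type*} {W : ℕ → Finset Z} {m : ℕ} {z : Z} :
    z ∈ UU W m ↔ ∃ i < m, z ∈ W i := by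
  simp [UU]

/-- mean square of `X` -/
def en (S : Cut Om Z) (μ : Measure Om) (χ : Om → ℝ) (F : Z → ℝ) (W : ℕ → Finset Z) (m : ℕ) : ℝ :=
  ∫ w, X S χ F (UU W m) w ^ 2 ∂μ

lemma en_diff (hR : Res S μ χ F) (hχ : Bd χ) {W : ℕ → Finset Z} {s : ℕ}
    (hW : ∀ i j, i < j → j ≤ s → ∀ x ∈ W i, ∀ y ∈ W j, S.dp x < S.dp y) {m n : ℕ} (hmn : m ≤ n)
    (hn : n ≤ s + 1) :
    ∫ w, (X S χ F (UU W m) w - X S χ F (UU W n) w) ^ 2 ∂μ
      = en S μ χ F W m - en S μ χ F W n := by
  refine energy hR hχ (fun z hz => ?_) fun z hz hz' y hy => ?_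
  · obtain ⟨i, hi, hz⟩ := mem_UU.1 hz
    exact mem_UU.2 ⟨i, hi.trans_le hmn, hz⟩
  · obtain ⟨i, hi, hz⟩ := mem_UU.1 hz
    obtain ⟨j, hj, hy⟩ := mem_UU.1 hy
    have : m ≤ i := by
      by_contra h
      exact hz' (mem_UU.2 ⟨i, not_le.1 h, hz⟩)
    exact hW j i (by omega) (by omega) y hy z hz

lemma en_anti (hR : Res S μ χ F) (hχ : Bd χ) {W : ℕ → Finset Z} {s : ℕ}
    (hW : ∀ i j, i < j → j ≤ s → ∀ x ∈ W i, ∀ y ∈ W j, S.dp x < S.dp y) {m n : ℕ} (hmn : m ≤ n)
    (hn : n ≤ s + 1) : en S μ χ F W n ≤ en S μ χ F W m := by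
  have := en_diff hR hχ hW hmn hn
  have h0 : 0 ≤ ∫ w, (X S χ F (UU W m) w - X S χ F (UU W n) w) ^ 2 ∂μ :=
    integral_nonneg fun w => sq_nonneg _
  linarith

/-- a window with small energy -/
lemma pigeon (hR : Res S μ χ F) (χ0 : ∀ w, 0 ≤ χ w) (χ1 : ∀ w, χ w ≤ 1)
    (F0 : ∀ z, 0 ≤ F z) (F1 : ∀ z, F z ≤ 1) {W : ℕ → Finset Z} {s : ℕ} (hs : 0 < s)
    (hW : ∀ i j, i < j → j ≤ s → ∀ x ∈ W i, ∀ y ∈ W j, S.dp x < S.dp y) :
    ∃ m < s, en S μ χ F W m - en S μ χ F W (m + 2) ≤ 2 / s * μ.real Set.univ := by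
  have hχ : Bd χ := bd01 χ0 χ1
  set T := μ.real Set.univ with hT
  have eT : ∀ m, en S μ χ F W m ≤ T := by
    intro m
    calc en S μ χ F W m ≤ ∫ _, (1 : ℝ) ∂μ := by
          refine integral_mono (bd_X hχ _).sq.int (Bd.const 1).int fun w => ?_
          have := X_mem (S := S) χ0 χ1 F0 F1 (UU W m) w
          show X S χ F (UU W m) w ^ 2 ≤ 1
          nlinarith [this.1, this.2]
      _ = T := by simp [hT]
  have e0 : ∀ m, 0 ≤ en S μ χ F W m := fun m => integral_nonneg fun w => sq_nonneg _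
  by_contra h
  push Not at h
  have h1 : ∑ m ∈ range s, (2 / s * T) < ∑ m ∈ range s, (en S μ χ F W m - en S μ χ F W (m + 2)) := by
    refine sum_lt_sum_of_nonempty ⟨0, mem_range.2 hs⟩ fun m hm => h m (mem_range.1 hm)
  have h2 : ∑ m ∈ range s, (en S μ χ F W m - en S μ χ F W (m + 2))
      = (en S μ χ F W 0 - en S μ χ F W s) + (en S μ χ F W 1 - en S μ χ F W (s + 1)) := by
    have a1 := sum_range_sub' (fun m => en S μ χ F W m) s
    have a2 := sum_range_sub' (fun m => en S μ χ F W (m + 1)) s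
    rw [← a1]
    simp only [zero_add] at a2
    rw [← a2, ← sum_add_distrib]
    exact sum_congr rfl fun m _ => by ring
  have h3 : ∑ m ∈ range s, (2 / s * T) = 2 * T := by
    rw [sum_const, card_range, nsmul_eq_mul]
    have : (s : ℝ) ≠ 0 := by exact_mod_cast hs.ne'
    field_simp
  rw [h2, h3] at h1
  have := eT 0; have := eT 1; have := e0 s; have := e0 (s + 1)
  linarith

end

noncomputable section

universe u v

/-- **(LR3), abstract form.** -/
theorem lr3 {c C κ ε : ℝ} (hc : 0 < c) (hC : 0 < C) (hκ : 0 < κ) (hε : 0 < ε) :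
    ∃ s : ℕ, 0 < s ∧ ∀ {Om : Type u} {Z : Type v} [MeasurableSpace Om]
      [DiscreteMeasurableSpace Om] (S : Cut Om Z) (μ : Measure Om) [IsFiniteMeasure μ]
      (χ : Om → ℝ) (F : Z → ℝ) (W : ℕ → Finset Z),
      Res S μ χ F → (∀ w, 0 ≤ χ w) → (∀ w, χ w ≤ 1) → (∀ z, 0 ≤ F z) → (∀ z, F z ≤ 1) →
      (∀ i j, i < j → j ≤ s → ∀ x ∈ W i, ∀ y ∈ W j, S.dp x < S.dp y) →
      (∀ m < s, ∃ (p q : Z → ℝ) (k : Z → Z → ℝ) (ν : ℝ), 1 ≤ ν ∧
        Win S μ (W m) (W (m + 1)) p q k c C ν ∧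
        ∫ w, ind (¬ (κ * ν ≤ NV S (W m) w ∧ ∃ z ∈ W (m + 1), S.cut w z)) ∂μ
          ≤ ε / 4 * μ.real Set.univ) →
      ∃ χb : ℝ, 0 ≤ χb ∧ χb ≤ 1 ∧ ∀ ψ : Om → ℝ, (∀ w, |ψ w| ≤ 1) →
        (∀ m ≤ s, ∀ z ∈ W m, Out S z ψ) →
        |∫ w, χ w * ψ w ∂μ - χb * ∫ w, ψ w ∂μ| ≤ ε * μ.real Set.univ := by
  set D := 2 * (1 + C / c) / κ with hD
  set C2 := ((C + 2 * C ^ 2) / c) ^ 2 with hC2
  have D0 : 0 < D := by positivity
  have C20 : 0 < C2 := by positivity
  set η := (ε / 4) ^ 2 with hη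
  have η0 : 0 < η := by positivity
  set K := 2 * D * C2 / η with hK
  have K0 : 0 < K := by positivity
  obtain ⟨s, hs⟩ := exists_nat_gt (4 * D * K / η)
  have s0 : 0 < s := by
    have : (0 : ℝ) < s := lt_trans (by positivity) hs
    exact_mod_cast this
  refine ⟨s, s0, ?_⟩
  intro Om Z _ _ S μ _ χ F W hR χ0 χ1 F0 F1 hW hw
  have hχ : Bd χ := bd01 χ0 χ1
  have sR : (0 : ℝ) < s := by exact_mod_cast s0
  obtain ⟨m, hm, he⟩ := pigeon hR χ0 χ1 F0 F1 s0 hW
  obtain ⟨p, q, k, ν, hν, hwin, hG⟩ := hw m hm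
  rw [← en_diff hR hχ hW (by omega : m ≤ m + 2) (by omega)] at he
  obtain ⟨χb, c0, c1, hb⟩ := window hR χ0 χ1 F0 F1 (U := UU W m) (V := W m) (W := W (m + 1))
    (U' := UU W (m + 2))
    (fun x hx y hy => by
      obtain ⟨i, hi, hx⟩ := mem_UU.1 hx
      exact hW i m hi (by omega) x hx y hy)
    (fun x hx y hy => hW m (m + 1) (by omega) (by omega) x hx y hy)
    (fun x hx => mem_UU.2 ⟨m + 1, by omega, hx⟩)
    (fun y hy hy' z hz => by
      obtain ⟨i, hi, hy⟩ := mem_UU.1 hy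
      have : i ≠ m + 1 := by rintro rfl; exact hy' hy
      exact hW i (m + 1) (by omega) (by omega) y hy z hz)
    hwin hc hC hκ hν K0 he
  refine ⟨χb, c0, c1, fun ψ hψ ho => ?_⟩
  set T := μ.real Set.univ with hT
  have T0 : 0 ≤ T := measureReal_nonneg
  have hψb : Bd ψ := ⟨1, hψ⟩
  have bX' := bd_X (S := S) (F := F) hχ (UU W (m + 2))
  have i1 : ∫ w, χ w * ψ w ∂μ = ∫ w, X S χ F (UU W (m + 2)) w * ψ w ∂μ := by
    symm
    refine int_X hR hχ hψb fun z hz => ?_
    obtain ⟨i, hi, hz⟩ := mem_UU.1 hz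
    exact ho i (by omega) z hz
  have bD : Bd (fun w => X S χ F (UU W (m + 2)) w - χb) := bX'.sub (Bd.const _)
  have i2 : ∫ w, χ w * ψ w ∂μ - χb * ∫ w, ψ w ∂μ
      = ∫ w, (X S χ F (UU W (m + 2)) w - χb) * ψ w ∂μ := by
    rw [i1, ← integral_const_mul]
    have b1 : Bd (fun w => X S χ F (UU W (m + 2)) w * ψ w) := bX'.mul hψb
    have b2 : Bd (fun w => χb * ψ w) := (Bd.const _).mul hψb
    calc _ = ∫ w, (X S χ F (UU W (m + 2)) w * ψ w - χb * ψ w) ∂μ :=
          (integral_sub b1.int b2.int).symm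
      _ = _ := by congr 1; ext w; ring
  -- the constants
  have hconst : D * (K * (2 / s) + C2 / K) ≤ η := by
    have h1 : D * (C2 / K) = η / 2 := by
      rw [hK]; field_simp
    have h2 : D * (K * (2 / s)) ≤ η / 2 := by
      rw [div_lt_iff₀ η0] at hs
      have : D * (K * (2 / s)) = 2 * D * K / s := by ring
      rw [this, div_le_iff₀ sR]
      nlinarith
    rw [mul_add]; linarith
  have hE : ∫ w, bb S (W (m + 1)) w * ind (κ * ν ≤ NV S (W m) w) *
      (X S χ F (UU W (m + 2)) w - χb) ^ 2 ∂μ ≤ η * T :=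
    hb.trans (mul_le_mul_of_nonneg_right hconst T0)
  have bE : Bd (fun w => bb S (W (m + 1)) w * ind (κ * ν ≤ NV S (W m) w) *
      (X S χ F (UU W (m + 2)) w - χb) ^ 2) := ((bd_bb _).mul (Bd.ind _)).mul bD.sq
  -- pointwise
  set θ := ε / 4 with hθ
  have θ0 : 0 < θ := by positivity
  have pt : ∀ w, |(X S χ F (UU W (m + 2)) w - χb) * ψ w|
      ≤ ind (¬ (κ * ν ≤ NV S (W m) w ∧ ∃ z ∈ W (m + 1), S.cut w z))
        + (θ + 1 / θ * (bb S (W (m + 1)) w * ind (κ * ν ≤ NV S (W m) w) *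
          (X S χ F (UU W (m + 2)) w - χb) ^ 2)) := by
    intro w
    have hX := X_mem (S := S) χ0 χ1 F0 F1 (UU W (m + 2)) w
    set x := X S χ F (UU W (m + 2)) w - χb with hx
    have hx1 : |x| ≤ 1 := by rw [abs_le]; constructor <;> linarith [hX.1, hX.2]
    have h0 : |x * ψ w| ≤ |x| := by
      rw [abs_mul]
      exact mul_le_of_le_one_right (abs_nonneg _) (hψ w)
    by_cases g : κ * ν ≤ NV S (W m) w ∧ ∃ z ∈ W (m + 1), S.cut w z
    · rw [ind_f (not_not.2 g), bb_eq, ind_t g.2, ind_t g.1, zero_add, one_mul, one_mul]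
      have : |x| ≤ θ + 1 / θ * x ^ 2 := by
        have h3 : 0 ≤ (|x| - θ) ^ 2 := sq_nonneg _
        have h4 : |x| ^ 2 = x ^ 2 := sq_abs x
        have h5 : θ * |x| ≤ θ * (θ + 1 / θ * x ^ 2) := by
          have : θ * (θ + 1 / θ * x ^ 2) = θ ^ 2 + x ^ 2 := by field_simp
          rw [this]
          nlinarith [abs_nonneg x]
        exact le_of_mul_le_mul_left h5 θ0
      exact h0.trans this
    · rw [ind_t g]
      have : 0 ≤ θ + 1 / θ * (bb S (W (m + 1)) w * ind (κ * ν ≤ NV S (W m) w) * x ^ 2) := by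
        have := bb_nn (S := S) (W (m + 1)) w
        have := ind_nn (κ * ν ≤ NV S (W m) w)
        positivity
      linarith
  rw [i2]
  have bG : Bd (fun w => ind (¬ (κ * ν ≤ NV S (W m) w ∧ ∃ z ∈ W (m + 1), S.cut w z))) := Bd.ind _
  have bP : Bd (fun w => θ + 1 / θ * (bb S (W (m + 1)) w * ind (κ * ν ≤ NV S (W m) w) *
          (X S χ F (UU W (m + 2)) w - χb) ^ 2)) := (Bd.const _).add ((Bd.const _).mul bE)
  calc |∫ w, (X S χ F (UU W (m + 2)) w - χb) * ψ w ∂μ|
      ≤ ∫ w, |(X S χ F (UU W (m + 2)) w - χb) * ψ w| ∂μ := abs_integral_le_integral_abs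
    _ ≤ ∫ w, (ind (¬ (κ * ν ≤ NV S (W m) w ∧ ∃ z ∈ W (m + 1), S.cut w z))
        + (θ + 1 / θ * (bb S (W (m + 1)) w * ind (κ * ν ≤ NV S (W m) w) *
          (X S χ F (UU W (m + 2)) w - χb) ^ 2))) ∂μ :=
        integral_mono (bD.mul hψb).int.abs (bG.add bP).int pt
    _ = ∫ w, ind (¬ (κ * ν ≤ NV S (W m) w ∧ ∃ z ∈ W (m + 1), S.cut w z)) ∂μ
        + ∫ w, (θ + 1 / θ * (bb S (W (m + 1)) w * ind (κ * ν ≤ NV S (W m) w) *
          (X S χ F (UU W (m + 2)) w - χb) ^ 2)) ∂μ := integral_add bG.int bP.int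
    _ = ∫ w, ind (¬ (κ * ν ≤ NV S (W m) w ∧ ∃ z ∈ W (m + 1), S.cut w z)) ∂μ
        + (θ * T + 1 / θ * ∫ w, bb S (W (m + 1)) w * ind (κ * ν ≤ NV S (W m) w) *
          (X S χ F (UU W (m + 2)) w - χb) ^ 2 ∂μ) := by
        congr 1
        calc _ = ∫ _, θ ∂μ + ∫ w, 1 / θ * (bb S (W (m + 1)) w * ind (κ * ν ≤ NV S (W m) w) *
          (X S χ F (UU W (m + 2)) w - χb) ^ 2) ∂μ :=
              integral_add (Bd.const _).int ((Bd.const _).mul bE).int
          _ = _ := by
              rw [integral_const_mul]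
              congr 1
              simp [hT, mul_comm]
    _ ≤ ε / 4 * T + (θ * T + 1 / θ * (η * T)) := by
        refine add_le_add hG (add_le_add le_rfl ?_)
        exact mul_le_mul_of_nonneg_left hE (by positivity)
    _ ≤ ε * T := by
        have : 1 / θ * (η * T) = θ * T := by rw [hη]; field_simp
        rw [this, hθ]
        nlinarith

end

end Pool.Agent.ROT.LM
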