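import Pool.Agent.ART.DCut
import Pool.Agent.ROT.LMart

/-!
# ROT, linear response (helper22): the instance of `LM.Cut`, `LM.Res` for the closed words rooted at their top

* `cutS d hd A` : the double cut rows (states in A) as a structure `LM.Cut`;
* `muT d g` : the measure `∑ w ∈ WT d, wE w * g w` on the words; `int_muT` : its integrals;
* **`res_muT`** : resampling of the cap, for g and φ that depend on the part below the row and χ that depends on the cap.
-/

set_option autoImplicit false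

open MeasureTheory

open scoped ENNReal

namespace HexObs

namespace ART

open Pool.Agent.ROT

/-- depth of a state -/
def dpt (d : Pt) (z : Pt × Pt) : ℕ := (-(ip z.1 d)).toNat

lemma dpt_lt {d : Pt} {z y : Pt × Pt} (h : dpt d z < dpt d y) : ip y.1 d < ip z.1 d := by
  by_contra hcon
  rw [not_lt] at hcon
  have h1 : (-(ip y.1 d)).toNat ≤ (-(ip z.1 d)).toNat := Int.toNat_le_toNat (by omega)
  unfold dpt at h
  omega

/-- **the double cut rows with the state in A** -/
def cutS (d : Pt) (hd : d ∈ dirs) (A : Set (Pt × Pt)) : LM.Cut (List Bool) (Pt × Pt) where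
  cut w z := z ∈ A ∧ CutA d w z
  dp := dpt d
  R z w w' := SameO d z w w'
  ax2 := fun h1 h2 => and_congr_right fun _ => cutA_same hd h1 (dpt_lt h2)
  ax3 := fun h1 h2 h3 => same_deeper hd h3 h2.2 (dpt_lt h1)
  ax4 := by
    rintro z y w ⟨-, h1⟩ ⟨-, h2⟩ h3
    refine one_state hd h1 h2 ?_
    obtain ⟨R, O, S, -, hC, -⟩ := h1
    obtain ⟨R', O', S', -, hC', -⟩ := h2
    have a := hC.le0
    have b := hC'.le0
    unfold dpt at h3
    omega

instance instMS : MeasurableSpace (List Bool) := ⊤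

instance instDMS : DiscreteMeasurableSpace (List Bool) := ⟨fun _ => trivial⟩

open Classical in
/-- the weights -/
noncomputable def wm (d : Pt) (g : List Bool → ℝ≥0∞) (w : List Bool) : ℝ≥0∞ := if w ∈ WT d then wE w * g w else 0

/-- **the measure** -/
noncomputable def muT (d : Pt) (g : List Bool → ℝ≥0∞) : Measure (List Bool) := Measure.count.withDensity (wm d g)

lemma muT_single (d : Pt) (g : List Bool → ℝ≥0∞) (w : List Bool) : muT d g {w} = wm d g w := by
  unfold muT
  rw [withDensity_apply _ (MeasurableSet.of_discrete), lintegral_singleton, Measure.count_singleton, mul_one]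

lemma muT_univ (d : Pt) (g : List Bool → ℝ≥0∞) : muT d g Set.univ = ∑' w, wm d g w := by
  unfold muT
  rw [withDensity_apply _ (MeasurableSet.of_discrete), Measure.restrict_univ, lintegral_count]

lemma fin_muT {d : Pt} {g : List Bool → ℝ≥0∞} (h : ∑' w, wm d g w ≠ ⊤) : IsFiniteMeasure (muT d g) :=
  ⟨by rw [muT_univ]; exact lt_top_iff_ne_top.2 h⟩

lemma real_single (d : Pt) (g : List Bool → ℝ≥0∞) (w : List Bool) : (muT d g).real {w} = (wm d g w).toReal := by
  unfold Measure.real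
  rw [muT_single]

/-- **integrals are sums** -/
theorem int_muT {d : Pt} {g : List Bool → ℝ≥0∞} (hf : ∑' w, wm d g w ≠ ⊤) {f : List Bool → ℝ} (h : LM.Bd f) :
    ∫ w, f w ∂(muT d g) = ∑' w, (wm d g w).toReal * f w := by
  haveI := fin_muT hf
  rw [integral_countable h.int]
  exact tsum_congr fun w => by rw [real_single, smul_eq_mul]

lemma sum_muT {d : Pt} {g : List Bool → ℝ≥0∞} (hf : ∑' w, wm d g w ≠ ⊤) {f : List Bool → ℝ} (h : LM.Bd f) :
    Summable fun w => (wm d g w).toReal * f w := by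
  obtain ⟨B, hB⟩ := h
  have h1 : Summable fun w => (wm d g w).toReal := ENNReal.summable_toReal hf
  refine Summable.of_norm_bounded (h1.mul_right B) fun w => ?_
  rw [norm_mul, Real.norm_of_nonneg ENNReal.toReal_nonneg, Real.norm_eq_abs]
  exact mul_le_mul_of_nonneg_left (hB w) ENNReal.toReal_nonneg

/-! ### the product at a state -/

/-- the caps of the state z -/
abbrev CC (d : Pt) (z : Pt × Pt) : Type := {c : List Bool × List Bool // Cap d z c.1 c.2}

/-- the parts below the state z -/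
abbrev OO (d : Pt) (z : Pt × Pt) : Type := {o : List Bool // Out d z o}

/-- the closed word of a part below and a cap -/
def jo {d : Pt} {z : Pt × Pt} (p : OO d z × CC d z) : List Bool := p.2.1.1 ++ (p.1.1 ++ p.2.1.2)

lemma jo_inj {d : Pt} (hd : d ∈ dirs) {z : Pt × Pt} : Function.Injective (jo (d := d) (z := z)) := by
  rintro ⟨⟨o, ho⟩, ⟨⟨r, s⟩, hc⟩⟩ ⟨⟨o', ho'⟩, ⟨⟨r', s'⟩, hc'⟩⟩ h
  obtain ⟨h1, h2, h3⟩ := dec_uniq hd hc ho hc' ho' h
  subst h1
  subst h2
  subst h3
  rfl

lemma jo_range {d : Pt} {z : Pt × Pt} {w : List Bool} : w ∈ Set.range (jo (d := d) (z := z)) ↔ CutA d w z := by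
  constructor
  · rintro ⟨⟨⟨o, ho⟩, ⟨⟨r, s⟩, hc⟩⟩, rfl⟩
    exact ⟨r, o, s, rfl, hc, ho⟩
  · rintro ⟨r, o, s, rfl, hc, ho⟩
    exact ⟨⟨⟨o, ho⟩, ⟨⟨r, s⟩, hc⟩⟩, rfl⟩

/-- **sums over the words with the double cut row z** -/
theorem sum_cut {d : Pt} (hd : d ∈ dirs) {z : Pt × Pt} {f : List Bool → ℝ} (hf : Summable f)
    (h0 : ∀ w, ¬ CutA d w z → f w = 0) : ∑' w, f w = ∑' (o : OO d z) (c : CC d z), f (jo (o, c)) := by
  have h1 : ∑' p : OO d z × CC d z, f (jo p) = ∑' w, f w := by
    refine (jo_inj hd).tsum_eq fun w hw => ?_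
    rw [jo_range]
    by_contra hcon
    exact hw (h0 w hcon)
  rw [← h1]
  exact (hf.comp_injective (jo_inj hd)).tsum_prod

/-- the same in extended nonnegative reals -/
theorem sum_cutE {d : Pt} (hd : d ∈ dirs) {z : Pt × Pt} {f : List Bool → ℝ≥0∞}
    (h0 : ∀ w, ¬ CutA d w z → f w = 0) : ∑' w, f w = ∑' (o : OO d z) (c : CC d z), f (jo (o, c)) := by
  have h1 : ∑' p : OO d z × CC d z, f (jo p) = ∑' w, f w := by
    refine (jo_inj hd).tsum_eq fun w hw => ?_
    rw [jo_range]
    by_contra hcon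
    exact hw (h0 w hcon)
  rw [← h1]
  exact ENNReal.tsum_prod'

lemma jo_mem {d : Pt} (hd : d ∈ dirs) {z : Pt × Pt} (p : OO d z × CC d z) : jo p ∈ WT d := cap_out hd p.2.2 p.1.2

lemma jo_same {d : Pt} {z : Pt × Pt} (o : OO d z) (c c' : CC d z) : SameO d z (jo (o, c)) (jo (o, c')) :=
  ⟨c.1.1, o.1, c.1.2, c'.1.1, c'.1.2, rfl, rfl, c.2, c'.2, o.2⟩

/-- the weight of a cap -/
noncomputable def wc (c : List Bool × List Bool) : ℝ≥0∞ := wE c.1 * wE c.2

lemma wm_jo {d : Pt} (hd : d ∈ dirs) {z : Pt × Pt} (g : List Bool → ℝ≥0∞) (o : OO d z) (c : CC d z) :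
    wm d g (jo (o, c)) = wc c.1 * (wE o.1 * g (jo (o, c))) := by
  unfold wm
  rw [if_pos (jo_mem hd _)]
  unfold jo wc
  rw [wE_append, wE_append]
  ring

open Classical in
/-- χ as a function of the cap -/
noncomputable def chiC (d : Pt) (z : Pt × Pt) (χ : List Bool → ℝ) (c : CC d z) : ℝ :=
  if h : Nonempty (OO d z) then χ (jo (h.some, c)) else 0

/-- **the mean of χ over the caps of z** -/
noncomputable def Fz (d : Pt) (χ : List Bool → ℝ) (z : Pt × Pt) : ℝ :=
  (∑' c : CC d z, (wc c.1).toReal * chiC d z χ c) / ∑' c : CC d z, (wc c.1).toReal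

/-- χ depends only on the cap, for the states in A -/
def InA (d : Pt) (A : Set (Pt × Pt)) (χ : List Bool → ℝ) : Prop :=
  ∀ z ∈ A, ∀ R O O' S, Cap d z R S → Out d z O → Out d z O' → χ (R ++ (O ++ S)) = χ (R ++ (O' ++ S))

/-- g depends only on the part below, for the states in A -/
def OutA {α : Type} (d : Pt) (A : Set (Pt × Pt)) (g : List Bool → α) : Prop :=
  ∀ z ∈ A, ∀ w w', SameO d z w w' → g w = g w'

lemma Fz_mem {d : Pt} {χ : List Bool → ℝ} (h0 : ∀ w, 0 ≤ χ w) (h1 : ∀ w, χ w ≤ 1) (z : Pt × Pt) :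
    0 ≤ Fz d χ z ∧ Fz d χ z ≤ 1 := by
  have hc : ∀ c : CC d z, 0 ≤ chiC d z χ c ∧ chiC d z χ c ≤ 1 := by
    intro c
    unfold chiC
    split_ifs with h
    · exact ⟨h0 _, h1 _⟩
    · exact ⟨le_rfl, zero_le_one⟩
  unfold Fz
  have hn : 0 ≤ ∑' c : CC d z, (wc c.1).toReal * chiC d z χ c :=
    tsum_nonneg fun c => mul_nonneg ENNReal.toReal_nonneg (hc c).1
  have hd : 0 ≤ ∑' c : CC d z, (wc c.1).toReal := tsum_nonneg fun c => ENNReal.toReal_nonneg
  refine ⟨div_nonneg hn hd, ?_⟩
  by_cases hs : Summable fun c : CC d z => (wc c.1).toReal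
  · refine div_le_one_of_le₀ ?_ hd
    refine Summable.tsum_le_tsum (fun c => ?_) ?_ hs
    · exact mul_le_of_le_one_right ENNReal.toReal_nonneg (hc c).2
    · refine Summable.of_nonneg_of_le (fun c => mul_nonneg ENNReal.toReal_nonneg (hc c).1) (fun c => ?_) hs
      exact mul_le_of_le_one_right ENNReal.toReal_nonneg (hc c).2
  · rw [tsum_eq_zero_of_not_summable hs, div_zero]
    exact zero_le_one

lemma wc_pos {d : Pt} {z : Pt × Pt} (c : CC d z) : 0 < (wc c.1).toReal := by
  unfold wc wE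
  rw [← ENNReal.ofReal_mul (by have := xc_pos; positivity), ENNReal.toReal_ofReal (by have := xc_pos; positivity)]
  have := xc_pos
  positivity

/-- **resampling of the cap** -/
theorem res_muT {d : Pt} (hd : d ∈ dirs) {A : Set (Pt × Pt)} {g : List Bool → ℝ≥0∞} {χ : List Bool → ℝ}
    (hfin : ∑' w, wm d g w ≠ ⊤) (hg : OutA d A g) (hχ : InA d A χ) (hb : LM.Bd χ) :
    LM.Res (cutS d hd A) (muT d g) χ (Fz d χ) := by
  classical
  intro z φ hφ hout
  have b1 : LM.Bd fun w => χ w * φ w * LM.ind ((cutS d hd A).cut w z) := (hb.mul hφ).mul (LM.Bd.ind _)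
  have b2 : LM.Bd fun w => φ w * LM.ind ((cutS d hd A).cut w z) := hφ.mul (LM.Bd.ind _)
  rw [int_muT hfin b1, int_muT hfin b2]
  by_cases hz : z ∈ A
  swap
  · have e : ∀ w, LM.ind ((cutS d hd A).cut w z) = 0 := fun w => LM.ind_f fun h => hz h.1
    simp [e]
  have s1 := sum_muT hfin b1
  have s2 := sum_muT hfin b2
  have hnc : ∀ w, ¬ CutA d w z → LM.ind ((cutS d hd A).cut w z) = 0 := fun w h => LM.ind_f fun h' => h h'.2
  have hcc : ∀ p : OO d z × CC d z, LM.ind ((cutS d hd A).cut (jo p) z) = 1 := fun p =>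
    LM.ind_t ⟨hz, jo_range.1 ⟨p, rfl⟩⟩
  rw [sum_cut hd s1 fun w hw => by rw [hnc w hw, mul_zero, mul_zero],
    sum_cut hd s2 fun w hw => by rw [hnc w hw, mul_zero, mul_zero], ← tsum_mul_left]
  refine tsum_congr fun o => ?_
  simp only [hcc, mul_one]
  -- no cap
  by_cases hne : Nonempty (CC d z)
  swap
  · have : IsEmpty (CC d z) := not_nonempty_iff.1 hne
    simp
  obtain ⟨c0⟩ := hne
  have hw : ∀ c : CC d z, (wm d g (jo (o, c))).toReal = (wc c.1).toReal * (wE o.1 * g (jo (o, c0))).toReal := by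
    intro c
    rw [wm_jo hd, ENNReal.toReal_mul, hg z hz _ _ (jo_same o c c0)]
  have hφc : ∀ c : CC d z, φ (jo (o, c)) = φ (jo (o, c0)) := fun c => hout _ _ (jo_same o c c0)
  have hχc : ∀ c : CC d z, χ (jo (o, c)) = chiC d z χ c := by
    intro c
    unfold chiC
    have hO : Nonempty (OO d z) := ⟨o⟩
    rw [dif_pos hO]
    exact hχ z hz _ _ _ _ c.2 o.2 hO.some.2
  have e1 : ∀ c : CC d z, (wm d g (jo (o, c))).toReal * (χ (jo (o, c)) * φ (jo (o, c))) =
      ((wc c.1).toReal * chiC d z χ c) * ((wE o.1 * g (jo (o, c0))).toReal * φ (jo (o, c0))) := by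
    intro c
    rw [hw, hφc, hχc]
    ring
  have e2 : ∀ c : CC d z, (wm d g (jo (o, c))).toReal * φ (jo (o, c)) =
      (wc c.1).toReal * ((wE o.1 * g (jo (o, c0))).toReal * φ (jo (o, c0))) := by
    intro c
    rw [hw, hφc]
    ring
  rw [tsum_congr e1, tsum_congr e2, tsum_mul_right, tsum_mul_right]
  by_cases hv : (wE o.1 * g (jo (o, c0))).toReal = 0
  · rw [hv, zero_mul, mul_zero, mul_zero, mul_zero]
  suffices hF : Fz d χ z * ∑' c : CC d z, (wc c.1).toReal = ∑' c : CC d z, (wc c.1).toReal * chiC d z χ c by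
    rw [← hF]
    ring
  -- the caps are summable
  have hs : Summable fun c : CC d z => (wc c.1).toReal := by
    have h1 : Summable fun w => (wm d g w).toReal := ENNReal.summable_toReal hfin
    have h2 : Summable fun c : CC d z => (wm d g (jo (o, c))).toReal := by
      refine h1.comp_injective (i := fun c : CC d z => jo (o, c)) fun c c' h => ?_
      exact (Prod.mk.inj (jo_inj hd h)).2
    simp only [hw] at h2
    exact (summable_mul_right_iff hv).1 h2
  have hpos : 0 < ∑' c : CC d z, (wc c.1).toReal := hs.tsum_pos (fun c => ENNReal.toReal_nonneg) c0 (wc_pos c0)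
  unfold Fz
  rw [div_mul_cancel₀ _ hpos.ne']

end ART

end HexObs
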