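import Pool.Agent.ROT.LGr

/-!
# ROT, block L: labels and glueing for a region of a graph

**`lab6`**: for a family `γ` on `G` all of whose members leave the region `A`, and a graph `G'` that agrees with `G`
outside `A`: the families on `G'` with the same outside and the same connections of the ports are the configurations
without labels with the same outside and the same connections of the ports (the inside has no closed loop).
-/

set_option autoImplicit false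

namespace Pool.Agent.ROT.L

open Pool.Agent.EXL (Wt)
open Pool.Agent.YBC (Dir)
open Pool.Agent.ROT.E (Cell IsUn wf)
open Pool.Agent.ROT.E.Lab (p_p ext_p oc_p not_oc_o eq_o ex_oc sub sub_p sub_oc un_unique un_oc un_o wf_un)

variable {V I : Type} {G G' G'' : Gr V} {A B : Set V} {γ γ' : V →₀ (I → Cell)} {δ δ' Γ : V →₀ Cell}

/-! ### basic facts -/

theorem vp_vp (δ : V →₀ Cell) (k : V × Dir) : vp δ (vp δ k) = k := by
  simp only [vp, p_p, Prod.mk.eta]

theorem oc_vp (δ : V →₀ Cell) (k : V × Dir) : oc δ (vp δ k) ↔ oc δ k := oc_p _ _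

theorem co_apply (γ : V →₀ (I → Cell)) (i : I) (v : V) : co γ i v = γ v i := rfl

theorem Agr.symm (a : Agr A G G') : Agr A G' G where
  out h h1 h2 := by
    have h3 : (G.e h).1 ∉ A := fun h4 => h2 ((a.prt h h1).1 h4)
    exact (a.out h h1 h3).symm
  prt h h1 := (a.prt h h1).symm

theorem Agr.trans (a : Agr A G G') (b : Agr A G' G'') : Agr A G G'' where
  out h h1 h2 := by
    have e := a.out h h1 h2
    rw [← e] at h2
    rw [b.out h h1 h2, e]
  prt h h1 := (a.prt h h1).trans (b.prt h h1)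

theorem Agr.rfl' : Agr A G G := ⟨fun _ _ _ => rfl, fun _ _ => Iff.rfl⟩

theorem Agr.port (a : Agr A G G') : Port G A = Port G' A := by
  ext h
  exact ⟨fun h1 => ⟨h1.1, (a.prt h h1.1).1 h1.2⟩, fun h1 => ⟨h1.1, (a.prt h h1.1).2 h1.2⟩⟩

/-! ### connections -/

theorem lk_symm (mt : Mt G δ B) {h k : V × Dir} (l : Lk G δ B h k) : Lk G δ B k h := by
  obtain ⟨h1, h2, rfl | ⟨rfl, h3⟩⟩ := l
  · exact ⟨(oc_vp δ h).2 h1, h2, Or.inl (vp_vp δ h).symm⟩
  · refine ⟨(mt h h2 h3).1 h1, h3, Or.inr ⟨(G.inv h).symm, ?_⟩⟩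
    rw [G.inv]; exact h2

theorem mt_mono (mt : Mt G δ Set.univ) : Mt G δ B := fun h _ _ => mt h trivial trivial

theorem cn_refl (h : V × Dir) : Cn G δ B h h := Relation.EqvGen.refl _

theorem cn_symm {h k : V × Dir} (c : Cn G δ B h k) : Cn G δ B k h := Relation.EqvGen.symm _ _ c

theorem cn_trans {h k l : V × Dir} (c : Cn G δ B h k) (c' : Cn G δ B k l) : Cn G δ B h l :=
  Relation.EqvGen.trans _ _ _ c c'

theorem cn_vp {h : V × Dir} (h1 : oc δ h) (h2 : h.1 ∈ B) : Cn G δ B h (vp δ h) :=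
  Relation.EqvGen.rel _ _ ⟨h1, h2, Or.inl rfl⟩

theorem cn_e {h : V × Dir} (h1 : oc δ h) (h2 : h.1 ∈ B) (h3 : (G.e h).1 ∈ B) : Cn G δ B h (G.e h) :=
  Relation.EqvGen.rel _ _ ⟨h1, h2, Or.inr ⟨rfl, h3⟩⟩

theorem cn_iff {P : V × Dir → Prop} (hP : ∀ h k, Lk G δ B h k → (P h ↔ P k)) {h k : V × Dir}
    (c : Cn G δ B h k) : P h ↔ P k := by
  induction c with
  | rel x y h => exact hP _ _ h
  | refl x => exact Iff.rfl
  | symm x y _ ih => exact ih.symm
  | trans x y z _ _ ih1 ih2 => exact ih1.trans ih2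

/-- an invariant of the links -/
theorem cn_of (mt : Mt G δ B) {P : V × Dir → Prop} (hP : ∀ h k, P h → Lk G δ B h k → P k) {h k : V × Dir}
    (c : Cn G δ B h k) : P h → P k :=
  (cn_iff (fun _ _ l => ⟨fun h1 => hP _ _ h1 l, fun h1 => hP _ _ h1 (lk_symm mt l)⟩) c).1

theorem cn_oc (mt : Mt G δ B) {h k : V × Dir} (c : Cn G δ B h k) :
    h = k ∨ ((oc δ h ∧ h.1 ∈ B) ∧ (oc δ k ∧ k.1 ∈ B)) := by
  induction c with
  | rel x y h => exact Or.inr ⟨⟨h.1, h.2.1⟩, ⟨(lk_symm mt h).1, (lk_symm mt h).2.1⟩⟩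
  | refl x => exact Or.inl rfl
  | symm x y _ ih =>
    rcases ih with h1 | h1
    · exact Or.inl h1.symm
    · exact Or.inr ⟨h1.2, h1.1⟩
  | trans x y z _ _ ih1 ih2 =>
    rcases ih1 with rfl | h1
    · exact ih2
    · rcases ih2 with rfl | h2
      · exact Or.inr h1
      · exact Or.inr ⟨h1.1, h2.2⟩

theorem cn_oc' (mt : Mt G δ B) {h k : V × Dir} (c : Cn G δ B h k) (ho : oc δ h) : oc δ k := by
  rcases cn_oc mt c with rfl | ⟨-, h2, -⟩
  · exact ho
  · exact h2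

theorem cn_mono' {G' : Gr V} {δ' : V →₀ Cell} {B' : Set V} (H : ∀ a b, Lk G δ B a b → Lk G' δ' B' a b)
    {h k : V × Dir} (c : Cn G δ B h k) : Cn G' δ' B' h k := by
  induction c with
  | rel x y h => exact Relation.EqvGen.rel _ _ (H _ _ h)
  | refl x => exact cn_refl _
  | symm x y _ ih => exact cn_symm ih
  | trans x y z _ _ ih1 ih2 => exact cn_trans ih1 ih2

theorem cn_mono {B' : Set V} (hB : B ⊆ B') {h k : V × Dir} (c : Cn G δ B h k) : Cn G δ B' h k :=
  cn_mono' (fun _ _ l => ⟨l.1, hB l.2.1, l.2.2.imp_right fun h => ⟨h.1, hB h.2⟩⟩) c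

/-! ### unions -/

theorem ex_un (h : ∀ v, ∃ c, IsUn (γ v) c) : ∃ δ : V →₀ Cell, Un γ δ := by
  classical
  choose c hc using h
  refine ⟨Finsupp.onFinset γ.support c fun v hv => ?_, fun v => ?_⟩
  · rw [Finsupp.mem_support_iff]
    intro h0
    apply hv
    refine (un_o (hc v)).2 fun i => ?_
    rw [h0]; rfl
  · exact hc v

theorem un_cfg_unique (h : Un γ δ) (h' : Un γ δ') : δ = δ' :=
  Finsupp.ext fun v => un_unique (h v) (h' v)

theorem Un.oc (h : Un γ δ) (k : V × Dir) : L.oc δ k ↔ ∃ i, L.oc (co γ i) k := un_oc (h k.1) k.2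

theorem Un.oc' (h : Un γ δ) {k : V × Dir} {i : I} (hi : L.oc (co γ i) k) : L.oc δ k := (h.oc k).2 ⟨i, hi⟩

theorem Un.vp (h : Un γ δ) {k : V × Dir} {i : I} (hi : L.oc (co γ i) k) : vp δ k = vp (co γ i) k := by
  simp only [L.vp]
  rw [(h k.1).1 i k.2 hi]; rfl

theorem Un.inj (h : Un γ δ) {k : V × Dir} {i i' : I} (hi : L.oc (co γ i) k) (hi' : L.oc (co γ i') k) :
    i = i' := (h k.1).2.1 i i' k.2 hi hi'

/-- a connection of a member is one of the union -/
theorem cn_un (u : Un γ δ) {i : I} {h k : V × Dir} (c : Cn G (co γ i) B h k) : Cn G δ B h k := by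
  refine cn_mono' (fun a b l => ⟨u.oc' l.1, l.2.1, ?_⟩) c
  rw [u.vp l.1]
  exact l.2.2

/-- a connection of the union is one of a member -/
theorem un_cn (u : Un γ δ) (mt : ∀ i, Mt G (co γ i) B) {h k : V × Dir} (c : Cn G δ B h k) :
    h = k ∨ ∃ i, oc (co γ i) h ∧ oc (co γ i) k ∧ Cn G (co γ i) B h k := by
  induction c with
  | rel x y h =>
    right
    obtain ⟨h1, h2, h3⟩ := h
    obtain ⟨i, hi⟩ := (u.oc x).1 h1
    have l : Lk G (co γ i) B x y := ⟨hi, h2, by rw [u.vp hi] at h3; exact h3⟩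
    exact ⟨i, hi, (lk_symm (mt i) l).1, Relation.EqvGen.rel _ _ l⟩
  | refl x => exact Or.inl rfl
  | symm x y _ ih =>
    rcases ih with h1 | ⟨i, h1, h2, h3⟩
    · exact Or.inl h1.symm
    · exact Or.inr ⟨i, h2, h1, cn_symm h3⟩
  | trans x y z _ _ ih1 ih2 =>
    rcases ih1 with rfl | ⟨i, h1, h2, h3⟩
    · exact ih2
    · rcases ih2 with rfl | ⟨i', h1', h2', h3'⟩
      · exact Or.inr ⟨i, h1, h2, h3⟩
      · obtain rfl := u.inj h2 h1'
        exact Or.inr ⟨i, h1, h2', cn_trans h3 h3'⟩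

/-- the same with the member known -/
theorem un_cn' (u : Un γ δ) (mt : ∀ i, Mt G (co γ i) B) {h k : V × Dir} (c : Cn G δ B h k) {i : I}
    (hi : oc (co γ i) h) : oc (co γ i) k ∧ Cn G (co γ i) B h k := by
  rcases un_cn u mt c with rfl | ⟨i', h1, h2, h3⟩
  · exact ⟨hi, cn_refl _⟩
  · obtain rfl := u.inj hi h1
    exact ⟨h2, h3⟩

/-! ### loops and regions -/

/-- a used half edge of a loop which leaves the region is connected inside to a port -/
theorem esc (l : Lp G δ) (lv : ∃ v, v ∉ A ∧ δ v ≠ .o) {h : V × Dir} (h1 : h.1 ∈ A) (ho : oc δ h) :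
    ∃ k ∈ Port G A, Cn G δ A h (G.e k) := by
  by_contra hno
  obtain ⟨v, hv, hv0⟩ := lv
  obtain ⟨d, hd⟩ := ex_oc hv0
  have hP := cn_of l.mt (P := fun k => k.1 ∈ A ∧ oc δ k ∧ Cn G δ A h k) ?_ (l.cn h (v, d) ho hd)
    ⟨h1, ho, cn_refl _⟩
  · exact hv hP.1
  · rintro a b ⟨ha1, ha2, ha3⟩ ⟨-, -, rfl | ⟨rfl, -⟩⟩
    · exact ⟨ha1, (oc_vp δ a).2 ha2, cn_trans ha3 (cn_vp ha2 ha1)⟩
    · by_cases hb : (G.e a).1 ∈ A
      · exact ⟨hb, (l.mt a trivial trivial).1 ha2, cn_trans ha3 (cn_e ha2 ha1 hb)⟩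
      · refine (hno ⟨G.e a, ⟨hb, ?_⟩, ?_⟩).elim
        · rw [G.inv]; exact ha1
        · rw [G.inv]; exact ha3

theorem oc_out (out : ∀ v, v ∉ A → δ v = δ' v) {h : V × Dir} (hh : h.1 ∉ A) : oc δ h ↔ oc δ' h := by
  simp only [oc]; rw [out _ hh]

theorem vp_out (out : ∀ v, v ∉ A → δ v = δ' v) {h : V × Dir} (hh : h.1 ∉ A) : vp δ h = vp δ' h := by
  simp only [vp]; rw [out _ hh]

theorem oc_port (mt : Mt G δ Set.univ) (k : V × Dir) : oc δ (G.e k) ↔ oc δ k :=
  (mt k trivial trivial).symm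

/-- **replacing the inside of a region** (and the graph inside) with the same connections of the ports keeps a loop a
loop -/
theorem glue (ag : Agr A G G') (l : Lp G δ) (lv : ∃ v, v ∉ A ∧ δ v ≠ .o) (out : ∀ v, v ∉ A → δ v = δ' v)
    (mt : Mt G' δ' Set.univ) (op : ∀ h : V × Dir, h.1 ∈ A → oc δ' h → ∃ k ∈ Port G A, Cn G' δ' A h (G'.e k))
    (pr : ∀ h ∈ Port G A, ∀ k ∈ Port G A, (Cn G δ A (G.e h) (G.e k) ↔ Cn G' δ' A (G'.e h) (G'.e k))) :
    Lp G' δ' := by
  have hport : ∀ {h}, h ∈ Port G A → (G'.e h).1 ∈ A := fun {h} hh => (ag.prt h hh.1).1 hh.2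
  have main : ∀ h k : V × Dir, h.1 ∉ A → k.1 ∉ A → oc δ' h → oc δ' k → Cn G' δ' Set.univ h k := by
    intro h0 k0 hh hk oh ok
    have hP := cn_of l.mt (P := fun h => oc δ h ∧ (h.1 ∉ A → Cn G' δ' Set.univ h0 h) ∧
      (h.1 ∈ A → ∀ b ∈ Port G A, Cn G δ A h (G.e b) → Cn G' δ' Set.univ h0 (G'.e b))) ?_
      (l.cn h0 k0 ((oc_out out hh).2 oh) ((oc_out out hk).2 ok))
      ⟨(oc_out out hh).2 oh, fun _ => cn_refl _, fun h => (hh h).elim⟩
    · exact hP.2.1 hk
    · rintro a b ⟨a1, a2, a3⟩ ⟨-, -, rfl | ⟨rfl, -⟩⟩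
      · refine ⟨(oc_vp _ _).2 a1, fun hb => ?_, fun hb c hc cc => ?_⟩
        · have hb' : a.1 ∉ A := hb
          rw [vp_out out hb']
          exact cn_trans (a2 hb') (cn_vp ((oc_out out hb').1 a1) trivial)
        · exact a3 hb c hc (cn_trans (cn_vp a1 hb) cc)
      · refine ⟨(l.mt a trivial trivial).1 a1, fun hb => ?_, fun hb c hc cc => ?_⟩
        · by_cases ha : a.1 ∈ A
          · have hp : G.e a ∈ Port G A := ⟨hb, by rw [G.inv]; exact ha⟩
            have h1 : Cn G' δ' Set.univ h0 (G'.e (G.e a)) := by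
              refine a3 ha _ hp ?_
              rw [G.inv]; exact cn_refl _
            refine cn_trans h1 ?_
            have ho : oc δ' (G.e a) := by
              rw [← oc_out out hb]
              exact (l.mt a trivial trivial).1 a1
            exact cn_symm (cn_e ho trivial trivial)
          · have e1 : G'.e a = G.e a := ag.out a ha hb
            rw [← e1]
            exact cn_trans (a2 ha) (cn_e ((oc_out out ha).1 a1) trivial trivial)
        · by_cases ha : a.1 ∈ A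
          · exact a3 ha c hc (cn_trans (cn_e a1 ha hb) cc)
          · have hp : a ∈ Port G A := ⟨ha, hb⟩
            exact cn_trans (cn_trans (a2 ha) (cn_e ((oc_out out ha).1 a1) trivial trivial))
              (cn_mono (Set.subset_univ _) ((pr a hp c hc).1 cc))
  have ex : ∀ h : V × Dir, oc δ' h → ∃ k : V × Dir, k.1 ∉ A ∧ oc δ' k ∧ Cn G' δ' Set.univ h k := by
    intro h oh
    by_cases hh : h.1 ∈ A
    · obtain ⟨b, hb, c⟩ := op h hh oh
      have hob : oc δ' (G'.e b) := cn_oc' (mt_mono mt) c oh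
      have hob' : oc δ' b := (oc_port mt b).1 hob
      exact ⟨b, hb.1, hob', cn_trans (cn_mono (Set.subset_univ _) c) (cn_symm (cn_e hob' trivial trivial))⟩
    · exact ⟨h, hh, oh, cn_refl _⟩
  refine ⟨mt, ?_, fun h k oh ok => ?_⟩
  · obtain ⟨v, hv, h0⟩ := lv
    rintro rfl
    exact h0 (out v hv)
  · obtain ⟨a, ha, oa, ca⟩ := ex h oh
    obtain ⟨b, hb, ob, cb⟩ := ex k ok
    exact cn_trans ca (cn_trans (main a b ha hb oa ob) (cn_symm cb))

/-! ### from families to configurations -/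

theorem mt_un (f : ∀ i, Mt G (co γ i) Set.univ) (u : Un γ δ) : Mt G δ Set.univ := by
  intro h _ _
  rw [u.oc, u.oc]
  exact exists_congr fun i => f i h trivial trivial

theorem un_out (u : Un γ Γ) (u' : Un γ' δ) {v : V} (h : γ v = γ' v) : Γ v = δ v :=
  un_unique (h ▸ u v) (u' v)

theorem co_out (out : ∀ v, v ∉ A → γ v = γ' v) (i : I) : ∀ v, v ∉ A → co γ i v = co γ' i v :=
  fun v hv => by rw [co_apply, co_apply, out v hv]

theorem un_pr (u : Un γ Γ) (u' : Un γ' δ) (mt : ∀ i, Mt G (co γ i) A)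
    (pr : ∀ i, ∀ h ∈ Port G'' A, ∀ k ∈ Port G'' A,
      Cn G (co γ i) A (G.e h) (G.e k) → Cn G' (co γ' i) A (G'.e h) (G'.e k)) :
    ∀ h ∈ Port G'' A, ∀ k ∈ Port G'' A, Cn G Γ A (G.e h) (G.e k) → Cn G' δ A (G'.e h) (G'.e k) := by
  intro h hh k hk c
  rcases un_cn u mt c with e | ⟨i, -, -, h3⟩
  · have e' : h = k := by rw [← G.inv h, e, G.inv]
    rw [e']
    exact cn_refl _
  · exact cn_un u' (pr i h hh k hk h3)

theorem co_pr (u : Un γ Γ) (u' : Un γ' δ) (mt : ∀ i, Mt G (co γ i) A) (mt' : ∀ i, Mt G' (co γ' i) A)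
    (ob : ∀ i, ∀ h ∈ Port G'' A, (oc (co γ i) (G.e h) ↔ oc (co γ' i) (G'.e h)))
    (pr : ∀ h ∈ Port G'' A, ∀ k ∈ Port G'' A, Cn G Γ A (G.e h) (G.e k) → Cn G' δ A (G'.e h) (G'.e k)) :
    ∀ i, ∀ h ∈ Port G'' A, ∀ k ∈ Port G'' A,
      Cn G (co γ i) A (G.e h) (G.e k) → Cn G' (co γ' i) A (G'.e h) (G'.e k) := by
  intro i h hh k hk c
  rcases cn_oc (mt i) c with e | ⟨⟨h1, -⟩, -⟩
  · have e' : h = k := by rw [← G.inv h, e, G.inv]
    rw [e']
    exact cn_refl _
  · exact (un_cn' u' mt' (pr h hh k hk (cn_un u c)) ((ob i h hh).1 h1)).2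

theorem Eq6.gd' (s : Eq6 A G G' γ γ') : Gd A γ' := by
  intro i
  obtain ⟨v, h1, h2⟩ := s.gd i
  exact ⟨v, h1, by rw [← s.out v h1]; exact h2⟩

theorem Eq6.symm (ag : Agr A G G') (s : Eq6 A G G' γ γ') : Eq6 A G' G γ' γ where
  fam := s.fam'
  fam' := s.fam
  gd := s.gd'
  out v hv := (s.out v hv).symm
  pr i h hh k hk := by
    rw [← ag.port] at hh hk
    exact (s.pr i h hh k hk).symm

theorem Eq6.trans {γ'' : V →₀ (I → Cell)} (ag : Agr A G G') (s : Eq6 A G G' γ γ') (s' : Eq6 A G' G'' γ' γ'') :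
    Eq6 A G G'' γ γ'' where
  fam := s.fam
  fam' := s'.fam'
  gd := s.gd
  out v hv := (s.out v hv).trans (s'.out v hv)
  pr i h hh k hk := by
    have hh' := hh
    have hk' := hk
    rw [ag.port] at hh' hk'
    exact (s.pr i h hh k hk).trans (s'.pr i h hh' k hk')

theorem Eq6.rfl' (f : Fam G γ) (g : Gd A γ) : Eq6 A G G γ γ :=
  ⟨f, f, g, fun _ _ => rfl, fun _ _ _ _ _ => Iff.rfl⟩

theorem un_op (f : Fam G γ) (g : Gd A γ) (u : Un γ δ) (h : V × Dir) (h1 : h.1 ∈ A) (ho : oc δ h) :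
    ∃ k ∈ Port G A, Cn G δ A h (G.e k) := by
  obtain ⟨i, hi⟩ := (u.oc h).1 ho
  obtain ⟨b, hb, c⟩ := esc (f.lp i) (g i) h1 hi
  exact ⟨b, hb, cn_un u c⟩

/-- the unions of two families of a class -/
theorem eq6u_of (ag : Agr A G G') (s : Eq6 A G G' γ γ') (u : Un γ Γ) (u' : Un γ' δ) : Eq6u A G G' Γ δ where
  mt := mt_un (fun i => (s.fam'.lp i).mt) u'
  out v hv := un_out u u' (s.out v hv)
  op := by
    rw [ag.port]
    exact un_op s.fam' s.gd' u'
  pr h hh k hk :=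
    ⟨un_pr u u' (fun i => mt_mono (s.fam.lp i).mt) (fun i h hh k hk => (s.pr i h hh k hk).1) h hh k hk,
      un_pr u' u (fun i => mt_mono (s.fam'.lp i).mt) (fun i h hh k hk => (s.pr i h hh k hk).2) h hh k hk⟩

/-! ### colouring -/

/-- the half edges which get the label `i` -/
def col (A : Set V) (G G' : Gr V) (γ : V →₀ (I → Cell)) (δ : V →₀ Cell) (i : I) (h : V × Dir) : Prop :=
  oc δ h ∧ ((h.1 ∉ A ∧ oc (co γ i) h) ∨
    (h.1 ∈ A ∧ ∃ b ∈ Port G A, oc (co γ i) b ∧ Cn G' δ A h (G'.e b)))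

/-- the coloured configuration -/
noncomputable def clr (A : Set V) (G G' : Gr V) (γ : V →₀ (I → Cell)) (δ : V →₀ Cell) : V →₀ (I → Cell) :=
  Finsupp.onFinset δ.support (fun v i => sub (fun d => col A G G' γ δ i (v, d)) (δ v)) fun v hv => by
    rw [Finsupp.mem_support_iff]
    intro h0
    apply hv
    funext i
    rw [h0]
    rfl

theorem clr_apply (γ : V →₀ (I → Cell)) (δ : V →₀ Cell) (v : V) (i : I) :
    clr A G G' γ δ v i = sub (fun d => col A G G' γ δ i (v, d)) (δ v) := rfl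

section

variable (ag : Agr A G G') (f : Fam G γ) (g : Gd A γ) (u : Un γ Γ) (s : Eq6u A G G' Γ δ)

include u s in
theorem col_vp (i : I) (v : V) (d : Dir) (h : col A G G' γ δ i (v, d)) :
    col A G G' γ δ i (v, (δ v).p d) := by
  have e : ((v, (δ v).p d) : V × Dir) = vp δ (v, d) := rfl
  rw [e]
  refine ⟨(oc_vp δ _).2 h.1, ?_⟩
  rcases h.2 with ⟨h1, h2⟩ | ⟨h1, b, hb, h2, h3⟩
  · left
    refine ⟨h1, ?_⟩
    have e1 : vp δ (v, d) = vp Γ (v, d) := (vp_out s.out h1).symm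
    rw [e1, u.vp h2, oc_vp]
    exact h2
  · right
    exact ⟨h1, b, hb, h2, cn_trans (cn_symm (cn_vp h.1 h1)) h3⟩

include u s in
theorem clr_oc (i : I) (h : V × Dir) : oc (co (clr A G G' γ δ) i) h ↔ col A G G' γ δ i h := by
  obtain ⟨v, d⟩ := h
  have e : oc (co (clr A G G' γ δ) i) (v, d) ↔ col A G G' γ δ i (v, d) ∧ (δ v).oc d :=
    sub_oc (S := fun d => col A G G' γ δ i (v, d)) (c := δ v) (col_vp u s i v) d
  rw [e]
  exact ⟨fun h => h.1, fun h => ⟨h, h.1⟩⟩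

include f u s in
/-- two ports connected in `δ` carry the same label -/
theorem col_port {i : I} {h b : V × Dir} (hh : h ∈ Port G A) (hb : b ∈ Port G A) (ho : oc (co γ i) b)
    (c : Cn G' δ A (G'.e h) (G'.e b)) : oc (co γ i) h := by
  have ho' : oc (co γ i) (G.e b) := (oc_port (f.lp i).mt b).2 ho
  have h1 := (un_cn' u (fun i => mt_mono (f.lp i).mt) (cn_symm ((s.pr h hh b hb).2 c)) ho').1
  exact (oc_port (f.lp i).mt h).1 h1

include f u s in
theorem col_inj {i i' : I} {h : V × Dir} (h1 : col A G G' γ δ i h) (h2 : col A G G' γ δ i' h) : i = i' := by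
  rcases h1.2 with ⟨a1, a2⟩ | ⟨a1, b, hb, a2, a3⟩
  · rcases h2.2 with ⟨b1, b2⟩ | ⟨b1, -⟩
    · exact u.inj a2 b2
    · exact (a1 b1).elim
  · rcases h2.2 with ⟨b1, b2⟩ | ⟨b1, b', hb', b2, b3⟩
    · exact (b1 a1).elim
    · exact u.inj a2 (col_port f u s hb hb' b2 (cn_trans (cn_symm a3) b3))

include u s in
theorem col_ex {h : V × Dir} (ho : oc δ h) : ∃ i, col A G G' γ δ i h := by
  by_cases h1 : h.1 ∈ A
  · obtain ⟨b, hb, c⟩ := s.op h h1 ho
    have hob : oc δ (G'.e b) := cn_oc' (mt_mono s.mt) c ho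
    have hoΓ : oc Γ b := (oc_out s.out hb.1).2 ((oc_port s.mt b).1 hob)
    obtain ⟨i, hi⟩ := (u.oc b).1 hoΓ
    exact ⟨i, ho, Or.inr ⟨h1, b, hb, hi, c⟩⟩
  · have hoΓ : oc Γ h := (oc_out s.out h1).2 ho
    obtain ⟨i, hi⟩ := (u.oc h).1 hoΓ
    exact ⟨i, ho, Or.inl ⟨h1, hi⟩⟩

include f u s in
/-- the coloured configuration has the union `δ` -/
theorem un_clr : Un (clr A G G' γ δ) δ := by
  intro v
  refine ⟨fun i d h => ?_, fun i i' d h h' => ?_, fun d h => ?_⟩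
  · have h1 : col A G G' γ δ i (v, d) := (clr_oc u s i (v, d)).1 h
    rw [clr_apply, sub_p (col_vp u s i v), if_pos h1]
  · exact col_inj f u s ((clr_oc u s i (v, d)).1 h) ((clr_oc u s i' (v, d)).1 h')
  · obtain ⟨i, hi⟩ := col_ex u s (h := (v, d)) h
    exact ⟨i, (clr_oc u s i (v, d)).2 hi⟩

include ag f u s in
theorem mt_clr (i : I) : Mt G' (co (clr A G G' γ δ) i) Set.univ := by
  have key : ∀ h : V × Dir, col A G G' γ δ i h → col A G G' γ δ i (G'.e h) := by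
    rintro h ⟨h0, h1⟩
    have h0' : oc δ (G'.e h) := (s.mt h trivial trivial).1 h0
    refine ⟨h0', ?_⟩
    rcases h1 with ⟨a1, a2⟩ | ⟨a1, b, hb, a2, a3⟩
    · by_cases h2 : (G'.e h).1 ∈ A
      · right
        exact ⟨h2, h, ⟨a1, (ag.prt h a1).2 h2⟩, a2, cn_refl _⟩
      · left
        refine ⟨h2, ?_⟩
        have h3 : (G.e h).1 ∉ A := fun h4 => h2 ((ag.prt h a1).1 h4)
        rw [ag.out h a1 h3]
        exact ((f.lp i).mt h trivial trivial).1 a2
    · by_cases h2 : (G'.e h).1 ∈ A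
      · right
        exact ⟨h2, b, hb, a2, cn_trans (cn_symm (cn_e h0 a1 h2)) a3⟩
      · left
        refine ⟨h2, ?_⟩
        have hp : G'.e h ∈ Port G' A := ⟨h2, by rw [G'.inv]; exact a1⟩
        rw [← ag.port] at hp
        refine col_port f u s hp hb a2 ?_
        rw [G'.inv]; exact a3
  intro h _ _
  rw [clr_oc u s, clr_oc u s]
  refine ⟨key h, fun h1 => ?_⟩
  have h2 := key _ h1
  rwa [G'.inv] at h2

include u s in
theorem clr_out (v : V) (hv : v ∉ A) : γ v = clr A G G' γ δ v := by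
  funext i
  refine ext_p fun d => ?_
  rw [clr_apply, sub_p (col_vp u s i v)]
  by_cases h : (γ v i).oc d
  · have h1 : oc (co γ i) (v, d) := h
    have h2 : col A G G' γ δ i (v, d) :=
      ⟨(oc_out s.out (h := (v, d)) hv).1 (u.oc' h1), Or.inl ⟨hv, h1⟩⟩
    rw [if_pos h2, ← s.out v hv]
    exact ((u v).1 i d h).symm
  · rw [if_neg fun h2 : col A G G' γ δ i (v, d) => h ?_]
    · simp only [Cell.oc, ne_eq, not_not] at h
      exact h
    · rcases h2.2 with ⟨-, a2⟩ | ⟨a1, -⟩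
      · exact a2
      · exact (hv a1).elim

include ag f g u s in
/-- **the coloured configuration is a family of the class** -/
theorem eq6_clr : Eq6 A G G' γ (clr A G G' γ δ) := by
  have U := un_clr f u s
  have mt := mt_clr ag f u s
  have out := clr_out u s
  have ob : ∀ i, ∀ h ∈ Port G A, (oc (co γ i) (G.e h) ↔ oc (co (clr A G G' γ δ) i) (G'.e h)) :=
    fun i h hh => by
    rw [oc_port (f.lp i).mt, oc_port (mt i)]
    exact oc_out (co_out out i) hh.1
  have pr : ∀ i, ∀ h ∈ Port G A, ∀ k ∈ Port G A,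
      (Cn G (co γ i) A (G.e h) (G.e k) ↔ Cn G' (co (clr A G G' γ δ) i) A (G'.e h) (G'.e k)) :=
    fun i h hh k hk =>
    ⟨co_pr u U (fun i => mt_mono (f.lp i).mt) (fun i => mt_mono (mt i)) ob
        (fun h hh k hk => (s.pr h hh k hk).1) i h hh k hk,
      co_pr U u (fun i => mt_mono (mt i)) (fun i => mt_mono (f.lp i).mt) (fun i h hh => (ob i h hh).symm)
        (fun h hh k hk => (s.pr h hh k hk).2) i h hh k hk⟩
  refine ⟨f, ⟨fun i => ?_, fun v => ⟨δ v, U v⟩⟩, g, out, pr⟩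
  refine glue ag (f.lp i) (g i) (co_out out i) (mt i) ?_ (pr i)
  intro h hh ho
  obtain ⟨b, hb, c⟩ := s.op h hh (U.oc' ho)
  exact ⟨b, hb, (un_cn' U (fun i => mt_mono (mt i)) c ho).2⟩

end

/-- colouring the union gives the family back -/
theorem clr_un (ag : Agr A G G') (s : Eq6 A G G' γ γ') (u : Un γ Γ) (u' : Un γ' δ) :
    clr A G G' γ δ = γ' := by
  have s1 := eq6u_of ag s u u'
  have key : ∀ i h, col A G G' γ δ i h ↔ oc (co γ' i) h := by
    intro i h
    constructor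
    · rintro ⟨h0, ⟨a1, a2⟩ | ⟨a1, b, hb, a2, a3⟩⟩
      · exact (oc_out (co_out s.out i) a1).1 a2
      · have hob : oc (co γ' i) (G'.e b) :=
          (oc_port (s.fam'.lp i).mt b).2 ((oc_out (co_out s.out i) hb.1).1 a2)
        exact (un_cn' u' (fun i => mt_mono (s.fam'.lp i).mt) (cn_symm a3) hob).1
    · intro ho
      refine ⟨u'.oc' ho, ?_⟩
      by_cases hh : h.1 ∈ A
      · right
        obtain ⟨b, hb, c⟩ := esc (s.fam'.lp i) (s.gd' i) hh ho
        have hob : oc (co γ' i) b :=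
          (oc_port (s.fam'.lp i).mt b).1 (cn_oc' (mt_mono (s.fam'.lp i).mt) c ho)
        exact ⟨hh, b, by rw [ag.port]; exact hb, (oc_out (co_out s.out i) hb.1).2 hob, cn_un u' c⟩
      · left
        exact ⟨hh, (oc_out (co_out s.out i) hh).2 ho⟩
  refine Finsupp.ext fun v => ?_
  funext i
  refine ext_p fun d => ?_
  rw [clr_apply, sub_p (col_vp u s1 i v)]
  by_cases h : (γ' v i).oc d
  · rw [if_pos ((key i (v, d)).2 h)]
    exact (u' v).1 i d h
  · rw [if_neg fun h2 => h ((key i (v, d)).1 h2)]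
    simp only [Cell.oc, ne_eq, not_not] at h
    exact h.symm

/-- **labels and glueing**: the families on `G'` of the class of `γ` are the configurations without labels -/
theorem lab6 (ag : Agr A G G') (f : Fam G γ) (g : Gd A γ) (u : Un γ Γ) :
    ∃ e : {γ' : V →₀ (I → Cell) // Eq6 A G G' γ γ'} ≃ {δ : V →₀ Cell // Eq6u A G G' Γ δ},
      ∀ γ', Un γ'.1 (e γ').1 := by
  classical
  have ex : ∀ γ' : {γ' : V →₀ (I → Cell) // Eq6 A G G' γ γ'}, ∃ δ : V →₀ Cell, Un γ'.1 δ :=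
    fun γ' => ex_un γ'.2.fam'.dj
  choose U hU using ex
  refine ⟨⟨fun γ' => ⟨U γ', eq6u_of ag γ'.2 u (hU γ')⟩,
    fun δ => ⟨clr A G G' γ δ.1, eq6_clr ag f g u δ.2⟩, fun γ' => ?_, fun δ => ?_⟩, hU⟩
  · exact Subtype.ext (clr_un ag γ'.2 u (hU γ'))
  · exact Subtype.ext (un_cfg_unique (hU _) (un_clr f u δ.2))

end Pool.Agent.ROT.L
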