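import Pool.Agent.ROT.LMass
import Pool.Agent.ROT.LStrand

/-!
# ROT, row L7b: the mass of the outer configurations of one member at a block, all and large
-/

set_option autoImplicit false

namespace Pool.Agent.ROT.LB

open Pool.Agent.ROT.E
open scoped ENNReal

/-- the block as a finite set -/
def BlkF (j s : ℤ) : Finset Pt := {(j, s - 1), (j + 1, s - 1), (j, s), (j + 1, s)}

theorem mem_BlkF {j s : ℤ} {v : Pt} : v ∈ BlkF j s ↔ v ∈ Blk j s := by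
  simp [BlkF, Blk]

theorem BlkF_card (j s : ℤ) : (BlkF j s).card ≤ 4 := Finset.card_le_four

theorem KL_mono {B : Set Pt} {Q Q' : Cfg → Prop} (h : ∀ δ, Q δ → Q' δ) : KL B Q ≤ KL B Q' := by
  classical
  refine ENNReal.tsum_le_tsum fun δ => ?_
  split_ifs with h1 h2 h2
  · exact le_rfl
  · exact absurd ⟨h1.1, h1.2.1, h _ h1.2.2⟩ h2
  · exact zero_le
  · exact zero_le

theorem OK_mono {B : Set Pt} {P P' : Cfg → Prop} (h : ∀ w, OC B w → P w → P' w) : OK B P ≤ OK B P' := by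
  classical
  refine ENNReal.tsum_le_tsum fun δ => ?_
  split_ifs with h1 h2 h2
  · exact le_rfl
  · exact absurd ⟨h1.1, h _ h1.1 h1.2⟩ h2
  · exact zero_le
  · exact zero_le

/-- **all true loops through a block** -/
theorem KL_all : ∃ C : ℝ, 0 ≤ C ∧ ∀ j s : ℤ, KL (Blk j s) (fun _ => True) ≤ ENNReal.ofReal C := by
  classical
  obtain ⟨C, hC, h⟩ := mass_meet_all
  refine ⟨C * 4, by positivity, fun j s => ?_⟩
  refine le_trans (ENNReal.tsum_le_tsum fun δ => ?_) ((h (BlkF j s)).trans (ENNReal.ofReal_le_ofReal ?_))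
  · by_cases h1 : Lp δ ∧ ∃ p ∈ BlkF j s, δ p ≠ 0
    · rw [if_pos h1]
      split_ifs
      · exact le_rfl
      · exact zero_le
    · rw [if_neg h1, if_neg]
      rintro ⟨h2, ⟨v, hv, h3⟩, -⟩
      exact h1 ⟨h2, v, mem_BlkF.2 hv, h3⟩
  · have : ((BlkF j s).card : ℝ) ≤ 4 := by exact_mod_cast BlkF_card j s
    gcongr

/-- **the true loops through a block that go far** -/
theorem KL_far : ∃ C : ℝ, 0 ≤ C ∧ ∀ (j s : ℤ) (n : ℕ), 1 ≤ n →
    KL (Blk j s) (Far j s n) ≤ ENNReal.ofReal (C * (n : ℝ) ^ (-(2 / 3) : ℝ)) := by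
  classical
  obtain ⟨C0, hC0, h0⟩ := KL_all
  obtain ⟨C, hC, h⟩ := mass_far
  refine ⟨C0 * 2 + C * 4 * 2, by positivity, fun j s n hn => ?_⟩
  have hn0 : (0 : ℝ) < n := by exact_mod_cast hn
  have hp0 : (0 : ℝ) ≤ (n : ℝ) ^ (-(2 / 3) : ℝ) := by positivity
  rcases Nat.lt_or_ge n 2 with h2 | h2
  · have e : n = 1 := by omega
    subst e
    refine (KL_mono fun _ _ => trivial).trans ((h0 j s).trans (ENNReal.ofReal_le_ofReal ?_))
    rw [Nat.cast_one, Real.one_rpow, mul_one]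
    linarith
  · have h3 : KL (Blk j s) (Far j s n) ≤
        ∑' γ : Cfg, (if Lp γ ∧ (∃ p ∈ BlkF j s, γ p ≠ 0) ∧ (∃ p ∈ BlkF j s, γ p ≠ 0 ∧ FarP (n - 1) p γ) then
          ENNReal.ofReal (m1 γ) else 0) := by
      refine ENNReal.tsum_le_tsum fun δ => ?_
      split_ifs with h1 h4 h4
      · exact le_rfl
      · exfalso
        apply h4
        obtain ⟨h5, ⟨v, hv, h6⟩, w, hw, h7⟩ := h1
        have hv' := hv
        refine ⟨h5, ⟨v, mem_BlkF.2 hv, h6⟩, v, mem_BlkF.2 hv, h6, w, hw, ?_⟩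
        have h8 : j ≤ v.1 ∧ v.1 ≤ j + 1 ∧ s - 1 ≤ v.2 ∧ v.2 ≤ s := by
          simp only [Blk, Set.mem_insert_iff, Set.mem_singleton_iff] at hv'
          rcases hv' with rfl | rfl | rfl | rfl <;> simp
        have e : (((n - 1 : ℕ) : ℤ)) = n - 1 := by omega
        rw [e]
        rcases h7 with h7 | h7
        · left
          rw [le_abs] at h7 ⊢
          omega
        · right
          rw [le_abs] at h7 ⊢
          omega
      · exact zero_le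
      · exact zero_le
    have h4 : ∑' γ : Cfg, (if Lp γ ∧ (∃ p ∈ BlkF j s, γ p ≠ 0) ∧ (∃ p ∈ BlkF j s, γ p ≠ 0 ∧ FarP (n - 1) p γ) then
          ENNReal.ofReal (m1 γ) else 0) ≤
        ∑ p ∈ BlkF j s, ∑' γ : Cfg, (if Lp γ ∧ γ p ≠ 0 ∧ FarP (n - 1) p γ then ENNReal.ofReal (m1 γ) else 0) := by
      rw [← Summable.tsum_finsetSum fun p _ => ENNReal.summable]
      refine ENNReal.tsum_le_tsum fun γ => ?_
      by_cases h : Lp γ ∧ (∃ p ∈ BlkF j s, γ p ≠ 0) ∧ (∃ p ∈ BlkF j s, γ p ≠ 0 ∧ FarP (n - 1) p γ)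
      · rw [if_pos h]
        obtain ⟨h1, -, p, hp, h2, h3⟩ := h
        refine le_trans (le_of_eq ?_) (Finset.single_le_sum (f := fun p => if Lp γ ∧ γ p ≠ 0 ∧ FarP (n - 1) p γ then
          ENNReal.ofReal (m1 γ) else 0) (fun _ _ => zero_le) hp)
        exact (if_pos ⟨h1, h2, h3⟩).symm
      · rw [if_neg h]
        exact zero_le
    refine h3.trans (h4.trans ((Finset.sum_le_sum fun p _ => h p (n - 1) (by omega)).trans ?_))
    rw [Finset.sum_const, nsmul_eq_mul, ← ENNReal.ofReal_natCast, ← ENNReal.ofReal_mul (by positivity)]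
    apply ENNReal.ofReal_le_ofReal
    have h5 : ((BlkF j s).card : ℝ) ≤ 4 := by exact_mod_cast BlkF_card j s
    have h6 : (((n - 1 : ℕ) : ℝ)) ^ (-(2 / 3) : ℝ) ≤ 2 * (n : ℝ) ^ (-(2 / 3) : ℝ) := by
      have h7 : (n : ℝ) / 2 ≤ ((n - 1 : ℕ) : ℝ) := by
        have h8 : n ≤ 2 * (n - 1) := by omega
        have h9 : (n : ℝ) ≤ 2 * ((n - 1 : ℕ) : ℝ) := by exact_mod_cast h8
        linarith
      calc (((n - 1 : ℕ) : ℝ)) ^ (-(2 / 3) : ℝ) ≤ ((n : ℝ) / 2) ^ (-(2 / 3) : ℝ) :=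
            Real.rpow_le_rpow_of_nonpos (by positivity) h7 (by norm_num)
        _ = (2 : ℝ) ^ (2 / 3 : ℝ) * (n : ℝ) ^ (-(2 / 3) : ℝ) := by
            rw [Real.div_rpow hn0.le (by norm_num), Real.rpow_neg (by norm_num : (0 : ℝ) ≤ 2), div_inv_eq_mul, mul_comm]
        _ ≤ 2 * (n : ℝ) ^ (-(2 / 3) : ℝ) := by
            refine mul_le_mul_of_nonneg_right ?_ hp0
            calc (2 : ℝ) ^ (2 / 3 : ℝ) ≤ (2 : ℝ) ^ (1 : ℝ) :=
                  Real.rpow_le_rpow_of_exponent_le (by norm_num) (by norm_num)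
              _ = 2 := Real.rpow_one _
    have h7 : (0 : ℝ) ≤ ((n - 1 : ℕ) : ℝ) ^ (-(2 / 3) : ℝ) := by positivity
    calc ((BlkF j s).card : ℝ) * (C * ((n - 1 : ℕ) : ℝ) ^ (-(2 / 3) : ℝ))
        ≤ 4 * (C * (2 * (n : ℝ) ^ (-(2 / 3) : ℝ))) := by gcongr
      _ ≤ _ := by nlinarith [mul_nonneg hC0 hp0]

/-- **all outer configurations at a block** -/
theorem OK_all : ∃ C : ℝ, 0 ≤ C ∧ ∀ j s : ℤ, OK (Blk j s) (fun w => w ≠ 0) ≤ ENNReal.ofReal C := by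
  classical
  obtain ⟨C0, hC0, h0⟩ := KL_all
  obtain ⟨a, ha⟩ : ∃ a : ℝ, a = (HexObs.xc ^ 6)⁻¹ := ⟨_, rfl⟩
  have ha0 : 0 ≤ a := by rw [ha]; exact inv_nonneg.2 xc6_pos.le
  refine ⟨8 * (a * C0) * (1 + a * C0) ^ 7, by positivity, fun j s => ?_⟩
  have h1 : OK (Blk j s) (fun w => w ≠ 0) ≤
      8 * (c6 * KL (Blk j s) fun _ => True) * (1 + c6 * KL (Blk j s) fun _ => True) ^ 7 := by
    refine OK_le (Q := fun w => w ≠ 0) (by simp) ?_ (fun _ _ _ _ _ => trivial)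
    intro w o hw
    obtain ⟨v, hv⟩ : ∃ v, w v ≠ .o := by
      by_contra hc
      push Not at hc
      exact hw (by ext v; exact hc v)
    obtain ⟨d, hd⟩ := Lab.ex_oc hv
    obtain ⟨i, hi⟩ := o.Ts_ex (h := (v, d)) hd
    refine ⟨i, fun e => ?_⟩
    rw [e] at hi
    exact Lab.not_oc_o d hi
  refine h1.trans ?_
  have h2 : c6 * KL (Blk j s) (fun _ => True) ≤ ENNReal.ofReal (a * C0) := by
    rw [ENNReal.ofReal_mul ha0]
    gcongr
    · rw [c6, ha]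
    · exact h0 j s
  rw [ENNReal.ofReal_mul (by positivity), ENNReal.ofReal_mul (by norm_num), ENNReal.ofReal_pow (by positivity),
    ENNReal.ofReal_add zero_le_one (by positivity), ENNReal.ofReal_one]
  norm_num
  gcongr

/-- **the large outer configurations at a block** -/
theorem OK_small : ∃ C : ℝ, 0 ≤ C ∧ ∀ (j s : ℤ) (n : ℕ), 2 ≤ n →
    OK (Blk j s) (Far j s n) ≤ ENNReal.ofReal (C * (n : ℝ) ^ (-(2 / 3) : ℝ)) := by
  classical
  obtain ⟨C0, hC0, h0⟩ := KL_all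
  obtain ⟨C1, hC1, h1⟩ := KL_far
  obtain ⟨a, ha⟩ : ∃ a : ℝ, a = (HexObs.xc ^ 6)⁻¹ := ⟨_, rfl⟩
  have ha0 : 0 ≤ a := by rw [ha]; exact inv_nonneg.2 xc6_pos.le
  refine ⟨8 * (a * C1) * (1 + a * C0) ^ 7, by positivity, fun j s n hn => ?_⟩
  have h2 := OK_far (j := j) (s := s) (n := (n : ℤ)) Set.univ (by exact_mod_cast hn)
  have h3 : OK (Blk j s) (Far j s n) ≤ OK (Blk j s) (fun w => (∀ v, w v ≠ .o → v ∈ Set.univ) ∧ Far j s n w) :=
    OK_mono fun w _ h => ⟨fun _ _ => trivial, h⟩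
  refine h3.trans (h2.trans ?_)
  have h4 : c6 * KL (Blk j s) (fun _ => True) ≤ ENNReal.ofReal (a * C0) := by
    rw [ENNReal.ofReal_mul ha0]
    gcongr
    · rw [c6, ha]
    · exact h0 j s
  have h5 : (c6 * KL (Blk j s) fun δ => (∀ v, δ v ≠ .o → v ∈ Set.univ ∪ Blk j s) ∧ Far j s n δ) ≤
      ENNReal.ofReal (a * (C1 * (n : ℝ) ^ (-(2 / 3) : ℝ))) := by
    rw [ENNReal.ofReal_mul ha0]
    gcongr
    · rw [c6, ha]
    · exact (KL_mono fun δ h => h.2).trans (h1 j s n (by omega))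
  have h6 : 8 * (a * C1) * (1 + a * C0) ^ 7 * (n : ℝ) ^ (-(2 / 3) : ℝ) =
      8 * (a * (C1 * (n : ℝ) ^ (-(2 / 3) : ℝ))) * (1 + a * C0) ^ 7 := by ring
  rw [h6, ENNReal.ofReal_mul (by positivity), ENNReal.ofReal_mul (by norm_num), ENNReal.ofReal_pow (by positivity),
    ENNReal.ofReal_add zero_le_one (by positivity), ENNReal.ofReal_one]
  rw [show ENNReal.ofReal 8 = 8 by norm_num]
  gcongr

end Pool.Agent.ROT.LB
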