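import Pool.Agent.PGA.Layer
import Pool.Agent.POL.Fin

/-!
# ROT, row L7b (words): the mass of the closed words of every length, and of those outside of a box

`P1`: `N` letters have mass `≤ C N ^ (-3/2)`; `P2`: outside of the box of radius `2 ^ K`: `≤ C N 2 ^ (-(10/3) K)`.
Sum over `N`: all closed words have a finite mass, those outside of the box `≤ C 2 ^ (-(2/3) K)`.
-/

set_option autoImplicit false

open scoped ENNReal

namespace HexObs

namespace PGA

open Finset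

/-- closed words with at least one letter -/
def WoN : Set (List Bool) := {t | t ≠ [] ∧ t ∈ POL.Cy t.length}

theorem tele {n : ℕ} (hn : 1 ≤ n) :
    (n : ℝ) ^ (-(3 / 2) : ℝ) ≤ 6 * ((n : ℝ) ^ (-(1 / 2) : ℝ) - ((n + 1 : ℕ) : ℝ) ^ (-(1 / 2) : ℝ)) := by
  have h0 : (1 : ℝ) ≤ n := by exact_mod_cast hn
  obtain ⟨x, hx⟩ : ∃ x : ℝ, x = Real.sqrt n := ⟨_, rfl⟩
  obtain ⟨y, hy⟩ : ∃ y : ℝ, y = Real.sqrt (n + 1) := ⟨_, rfl⟩
  have hx1 : 1 ≤ x := by rw [hx]; exact Real.one_le_sqrt.2 h0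
  have hx2 : x ^ 2 = n := by rw [hx]; exact Real.sq_sqrt (by linarith)
  have hy2 : y ^ 2 = n + 1 := by rw [hy]; exact Real.sq_sqrt (by linarith)
  have hy0 : 0 ≤ y := by rw [hy]; exact Real.sqrt_nonneg _
  have hxy : x ≤ y := by
    rw [hx, hy]
    exact Real.sqrt_le_sqrt (by linarith)
  have hy1 : y ≤ 3 / 2 * x := by
    by_contra hc
    push Not at hc
    nlinarith
  have hxp : 0 < x := by linarith
  have hyp : 0 < y := by linarith
  have e1 : (n : ℝ) ^ (-(1 / 2) : ℝ) = 1 / x := by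
    rw [Real.rpow_neg (by linarith), hx, Real.sqrt_eq_rpow, inv_eq_one_div]
  have e2 : ((n + 1 : ℕ) : ℝ) ^ (-(1 / 2) : ℝ) = 1 / y := by
    rw [Real.rpow_neg (by positivity), hy, Real.sqrt_eq_rpow, inv_eq_one_div]
    push_cast
    rfl
  have e3 : (n : ℝ) ^ (-(3 / 2) : ℝ) = 1 / x ^ 3 := by
    have h1 : x = (n : ℝ) ^ (1 / 2 : ℝ) := by rw [hx, Real.sqrt_eq_rpow]
    rw [h1, ← Real.rpow_natCast, ← Real.rpow_mul (by linarith), one_div, ← Real.rpow_neg (by linarith)]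
    congr 1
    norm_num
  rw [e1, e2, e3]
  have h1 : 1 / x - 1 / y = 1 / (x * y * (x + y)) := by
    have h2 : (y - x) * (x + y) = 1 := by nlinarith
    field_simp
    nlinarith
  rw [h1, mul_one_div, div_le_div_iff₀ (by positivity) (by positivity)]
  have h3 : x * y * (x + y) ≤ x * (3 / 2 * x) * (x + 3 / 2 * x) := by gcongr
  nlinarith [pow_pos hxp 3]

theorem sum_tail {M : ℕ} (hM : 1 ≤ M) (n : ℕ) :
    ∑ N ∈ range n, (if M ≤ N then (N : ℝ) ^ (-(3 / 2) : ℝ) else 0) ≤ 6 * (M : ℝ) ^ (-(1 / 2) : ℝ) := by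
  have key : ∀ n : ℕ, M ≤ n → ∑ N ∈ range n, (if M ≤ N then (N : ℝ) ^ (-(3 / 2) : ℝ) else 0) ≤
      6 * ((M : ℝ) ^ (-(1 / 2) : ℝ) - (n : ℝ) ^ (-(1 / 2) : ℝ)) := by
    intro n hn
    induction n, hn using Nat.le_induction with
    | base =>
      rw [sub_self, mul_zero]
      refine le_of_eq (Finset.sum_eq_zero fun N hN => if_neg ?_)
      rw [mem_range] at hN
      omega
    | succ n hn ih =>
      rw [Finset.sum_range_succ, if_pos hn]
      have := tele (n := n) (by omega)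
      linarith
  rcases Nat.lt_or_ge n M with h | h
  · have : ∑ N ∈ range n, (if M ≤ N then (N : ℝ) ^ (-(3 / 2) : ℝ) else 0) = 0 := by
      refine Finset.sum_eq_zero fun N hN => if_neg ?_
      rw [mem_range] at hN
      omega
    rw [this]
    positivity
  · refine (key n h).trans ?_
    have : (0 : ℝ) ≤ (n : ℝ) ^ (-(1 / 2) : ℝ) := by positivity
    linarith

/-- the two bounds -/
theorem P12 : ∃ C1 C2 : ℝ, 0 ≤ C1 ∧ 0 ≤ C2 ∧
    (∀ N : ℕ, 1 ≤ N → gf (POL.Cy N) ≤ ENNReal.ofReal (C1 * (N : ℝ) ^ (-(3 / 2) : ℝ))) ∧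
    ∀ N K : ℕ, 1 ≤ N → gf {t | t ∈ POL.Cy N ∧ t ∉ POL.WC N K} ≤
      ENNReal.ofReal (C2 * N * (2 : ℝ) ^ (-(10 / 3) * (K : ℝ))) := by
  obtain ⟨C1, hC1, P1⟩ := POL.P1
  obtain ⟨C, k0, hC, hU⟩ := POL.upU
  obtain ⟨c, hc, hlow⟩ := VF.mLow VF.sharpZ
  have hw : ∀ k : ℕ, c * (2 : ℝ) ^ (10 / 3 * (k : ℝ)) ≤ JNT.w4 JNT.mM k := by
    intro k
    have e4 : (4 : ℝ) ^ k = (2 : ℝ) ^ (2 * (k : ℝ)) := by
      rw [Real.rpow_mul two_pos.le, Real.rpow_natCast]
      norm_num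
    have e : (2 : ℝ) ^ (10 / 3 * (k : ℝ)) = (2 : ℝ) ^ (4 / 3 * (k : ℝ)) * 4 ^ k := by
      rw [e4, ← Real.rpow_add two_pos]
      congr 1
      ring
    rw [e, ← mul_assoc]
    exact mul_le_mul_of_nonneg_right (hlow k) (by positivity)
  obtain ⟨C2, hC2, P2⟩ := P2_of hc hC hC1.le hw hU P1
  exact ⟨C1, C2, hC1.le, hC2, P1, P2⟩

theorem sum_lenR (P : List Bool → Prop) : ∑' t : {t : List Bool | t ∈ WoN ∧ P t}, wE (t : List Bool) ≤
    ∑' N : ℕ, if 1 ≤ N then gf {t | t ∈ POL.Cy N ∧ P t} else 0 := by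
  classical
  have h1 : {t : List Bool | t ∈ WoN ∧ P t} ⊆ ⋃ N : ℕ, {t | 1 ≤ N ∧ t ∈ POL.Cy N ∧ P t} := by
    intro t ht
    rw [Set.mem_iUnion]
    exact ⟨t.length, List.length_pos_iff.2 ht.1.1, ht.1.2, ht.2⟩
  refine (ENNReal.tsum_mono_subtype (fun t => wE t) h1).trans ((ENNReal.tsum_iUnion_le_tsum _ _).trans ?_)
  refine ENNReal.tsum_le_tsum fun N => ?_
  split_ifs with h
  · refine ENNReal.tsum_mono_subtype (fun t => wE t) ?_
    intro t ht
    exact ht.2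
  · have : {t : List Bool | 1 ≤ N ∧ t ∈ POL.Cy N ∧ P t} = ∅ := by
      ext t
      simp [h]
    rw [this]
    simp

/-- **all closed words** -/
theorem all_words : ∃ C : ℝ, 0 ≤ C ∧ ∑' t : {t : List Bool | t ∈ WoN}, wE (t : List Bool) ≤ ENNReal.ofReal C := by
  obtain ⟨C1, C2, h1, h2, P1, P2⟩ := P12
  refine ⟨C1 * 6, by positivity, ?_⟩
  have e : {t : List Bool | t ∈ WoN} = {t : List Bool | t ∈ WoN ∧ True} := by
    ext t
    simp
  rw [e]
  refine (sum_lenR fun _ => True).trans (ENNReal.tsum_le_of_sum_range_le fun n => ?_)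
  have h3 : ∀ N : ℕ, (if 1 ≤ N then gf {t | t ∈ POL.Cy N ∧ True} else 0) ≤
      ENNReal.ofReal (C1 * if 1 ≤ N then (N : ℝ) ^ (-(3 / 2) : ℝ) else 0) := by
    intro N
    split_ifs with h
    · have : {t | t ∈ POL.Cy N ∧ True} = POL.Cy N := by
        ext t
        simp
      rw [this]
      exact P1 N h
    · simp
  refine (Finset.sum_le_sum fun N _ => h3 N).trans ?_
  rw [← ENNReal.ofReal_sum_of_nonneg (fun N _ => by split_ifs <;> positivity)]
  apply ENNReal.ofReal_le_ofReal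
  rw [← Finset.mul_sum]
  refine mul_le_mul_of_nonneg_left ((sum_tail le_rfl n).trans ?_) h1
  simp

/-- **the closed words outside of the box** -/
theorem far_words : ∃ C : ℝ, 0 ≤ C ∧ ∀ K : ℕ,
    ∑' t : {t : List Bool | t ∈ WoN ∧ t ∉ POL.WC t.length K}, wE (t : List Bool) ≤
      ENNReal.ofReal (C * (2 : ℝ) ^ (-(2 / 3) * (K : ℝ))) := by
  obtain ⟨C1, C2, h1, h2, P1, P2⟩ := P12
  refine ⟨C1 * 6 + C2 * 4, by positivity, fun K => ?_⟩
  obtain ⟨x, hx⟩ : ∃ x : ℝ, x = (2 : ℝ) ^ (4 / 3 * (K : ℝ)) := ⟨_, rfl⟩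
  have hx1 : 1 ≤ x := by rw [hx]; exact Real.one_le_rpow one_le_two (by positivity)
  obtain ⟨M, hM⟩ : ∃ M : ℕ, M = ⌈x⌉₊ := ⟨_, rfl⟩
  have hM1 : x ≤ M := by rw [hM]; exact Nat.le_ceil x
  have hM2 : (M : ℝ) ≤ 2 * x := by
    have := Nat.ceil_lt_add_one (by linarith : (0 : ℝ) ≤ x)
    rw [hM]
    linarith
  have hM3 : 1 ≤ M := by
    have : (1 : ℝ) ≤ M := hx1.trans hM1
    exact_mod_cast this
  refine (sum_lenR fun t => t ∉ POL.WC t.length K).trans (ENNReal.tsum_le_of_sum_range_le fun n => ?_)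
  have h3 : ∀ N : ℕ, (if 1 ≤ N then gf {t | t ∈ POL.Cy N ∧ t ∉ POL.WC t.length K} else 0) ≤
      ENNReal.ofReal ((C1 * if M ≤ N then (N : ℝ) ^ (-(3 / 2) : ℝ) else 0) +
        C2 * if N < M then (M : ℝ) * (2 : ℝ) ^ (-(10 / 3) * (K : ℝ)) else 0) := by
    intro N
    split_ifs with h h4 h5 h5
    · omega
    · rw [mul_zero, add_zero]
      refine le_trans (ENNReal.tsum_mono_subtype (fun t => wE t) fun t ht => ht.1) (P1 N h)
    · rw [mul_zero, zero_add]
      have e : {t | t ∈ POL.Cy N ∧ t ∉ POL.WC t.length K} = {t | t ∈ POL.Cy N ∧ t ∉ POL.WC N K} := by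
        ext t
        constructor
        · rintro ⟨a, b⟩
          rw [a.1] at b
          exact ⟨a, b⟩
        · rintro ⟨a, b⟩
          refine ⟨a, ?_⟩
          rw [a.1]
          exact b
      rw [e]
      refine (P2 N K h).trans (ENNReal.ofReal_le_ofReal ?_)
      rw [mul_assoc]
      have : (N : ℝ) ≤ M := by exact_mod_cast h5.le
      gcongr
    · omega
    all_goals exact zero_le
  refine (Finset.sum_le_sum fun N _ => h3 N).trans ?_
  rw [← ENNReal.ofReal_sum_of_nonneg (fun N _ => by split_ifs <;> positivity)]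
  apply ENNReal.ofReal_le_ofReal
  rw [Finset.sum_add_distrib, ← Finset.mul_sum, ← Finset.mul_sum, add_mul]
  refine add_le_add ?_ ?_
  · rw [mul_assoc]
    refine mul_le_mul_of_nonneg_left ((sum_tail hM3 n).trans ?_) h1
    refine mul_le_mul_of_nonneg_left ?_ (by norm_num)
    calc (M : ℝ) ^ (-(1 / 2) : ℝ) ≤ x ^ (-(1 / 2) : ℝ) :=
          Real.rpow_le_rpow_of_nonpos (by linarith) hM1 (by norm_num)
      _ = _ := by
        rw [hx, ← Real.rpow_mul two_pos.le]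
        congr 1
        ring
  · rw [mul_assoc]
    refine mul_le_mul_of_nonneg_left ?_ h2
    calc ∑ N ∈ range n, (if N < M then (M : ℝ) * (2 : ℝ) ^ (-(10 / 3) * (K : ℝ)) else 0)
        ≤ ∑ N ∈ range M, (M : ℝ) * (2 : ℝ) ^ (-(10 / 3) * (K : ℝ)) := by
          rw [← Finset.sum_filter]
          refine Finset.sum_le_sum_of_subset_of_nonneg ?_ fun _ _ _ => by positivity
          intro N hN
          rw [mem_filter] at hN
          exact mem_range.2 hN.2
      _ = (M : ℝ) ^ 2 * (2 : ℝ) ^ (-(10 / 3) * (K : ℝ)) := by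
          rw [Finset.sum_const, card_range, nsmul_eq_mul]
          ring
      _ ≤ (2 * x) ^ 2 * (2 : ℝ) ^ (-(10 / 3) * (K : ℝ)) := by gcongr
      _ = 4 * (2 : ℝ) ^ (-(2 / 3) * (K : ℝ)) := by
          have : x ^ 2 = (2 : ℝ) ^ (8 / 3 * (K : ℝ)) := by
            rw [hx, ← Real.rpow_natCast, ← Real.rpow_mul two_pos.le]
            congr 1
            push_cast
            ring
          rw [mul_pow, this, mul_assoc, ← Real.rpow_add two_pos]
          norm_num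
          congr 1
          ring

end PGA

end HexObs
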