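import Pool.Agent.ROT.LBDefs
import Pool.Agent.ROT.LPat
import Pool.Agent.ROT.EHex

/-!
# ROT, row L7o: the outer parts of the members of a family around a block

`G` = any graph which is the square lattice off the block `B` (`g0`, `gX j s`).  The outer part `out B δ` of a loop of `G` is a
loop off `B` or an outer configuration `OC B`.
-/

set_option autoImplicit false

namespace Pool.Agent.ROT.LB

open Pool.Agent.YBC (Dir)
open Pool.Agent.UNI (wR)
open Pool.Agent.ROT.E
open Pool.Agent.ROT.L (Gr VX g0 gX dn dn_apply)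

/-- the graph is the square lattice off `B` -/
def Sq (B : Set Pt) (G : Gr VX) : Prop := ∀ v : Pt, v ∉ B → ∀ d, G.e (some v, d) = (some (nx v d), d.op)

theorem sq_g0 (B : Set Pt) : Sq B g0 := fun v _ d => rfl

theorem sq_gX (j s : ℤ) : Sq (Blk j s) (gX j s) := by
  rintro ⟨a, b⟩ hv d
  simp only [Blk, Set.mem_insert_iff, Set.mem_singleton_iff, not_or] at hv
  obtain ⟨h1, h2, h3, h4⟩ := hv
  cases d
  · rfl
  · simp [gX, L.eX, h1, h2, Dir.op]
  · rfl
  · simp [gX, L.eX, h3, h4, Dir.op]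

open Classical in
/-- **the outer part** -/
noncomputable def out (B : Set Pt) (δ : VX →₀ Cell) : Cfg := (dn δ).filter fun v => v ∉ B

variable {B : Set Pt} {δ : VX →₀ Cell} {G : Gr VX}

theorem out_off {v : Pt} (hv : v ∉ B) : out B δ v = δ (some v) := by
  classical
  unfold out
  rw [Finsupp.filter_apply_pos (fun v => v ∉ B) (dn δ) hv, dn_apply]

theorem out_on {v : Pt} (hv : v ∈ B) : out B δ v = 0 := by
  classical
  unfold out
  exact Finsupp.filter_apply_neg (fun v => v ∉ B) (dn δ) (not_not.2 hv)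

theorem oc_out {v : Pt} {d : Dir} (hv : v ∉ B) : E.oc (out B δ) (v, d) ↔ L.oc δ (some v, d) := by
  unfold E.oc L.oc
  rw [out_off hv]

theorem not_oc_out {v : Pt} {d : Dir} (hv : v ∈ B) : ¬ E.oc (out B δ) (v, d) := by
  unfold E.oc
  rw [out_on hv]
  exact Lab.not_oc_o d

/-- the state of a half edge -/
def Q (B : Set Pt) (w : Cfg) : VX × Dir → Prop
  | (none, _) => True
  | (some v, d) => v ∈ B ∨ ∃ p ∈ Prt B, E.oc w p ∧ E.Cn w Bᶜ (v, d) p

theorem q_link (hG : Sq B G) (hm : L.Mt G δ Set.univ) {h k : VX × Dir} (l : L.Lk G δ Set.univ h k) :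
    Q B (out B δ) h ↔ Q B (out B δ) k := by
  obtain ⟨x, d⟩ := h
  obtain ⟨ho, -, h1 | ⟨h1, -⟩⟩ := l
  · subst h1
    cases x with
    | none => exact Iff.rfl
    | some v =>
      show (v ∈ B ∨ _) ↔ (v ∈ B ∨ _)
      by_cases hv : v ∈ B
      · exact ⟨fun _ => Or.inl hv, fun _ => Or.inl hv⟩
      · have hl : E.Cn (out B δ) Bᶜ (v, d) (v, (δ (some v)).p d) := by
          refine Relation.EqvGen.rel _ _ ⟨(oc_out hv).2 ho, hv, Or.inl ?_⟩
          unfold E.vp
          rw [out_off hv]
        constructor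
        · rintro (h | ⟨p, h2, h3, h4⟩)
          · exact absurd h hv
          · exact Or.inr ⟨p, h2, h3, hl.symm.trans _ _ _ h4⟩
        · rintro (h | ⟨p, h2, h3, h4⟩)
          · exact absurd h hv
          · exact Or.inr ⟨p, h2, h3, hl.trans _ _ _ h4⟩
  · subst h1
    have ho' : L.oc δ (G.e (x, d)) := (hm (x, d) (Set.mem_univ _) (Set.mem_univ _)).1 ho
    -- off the block
    have key : ∀ v : Pt, ∀ d : Dir, v ∉ B → L.oc δ (some v, d) → Q B (out B δ) (G.e (some v, d)) →
        (∀ u d', G.e (some v, d) = (some u, d') → u ∉ B → E.Cn (out B δ) Bᶜ (v, d) (u, d')) →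
        Q B (out B δ) (some v, d) := by
      intro v d hv hvo hq hc
      rw [hG v hv d] at hq hc
      by_cases hu : nx v d ∈ B
      · refine Or.inr ⟨(v, d), ⟨hv, hu⟩, (oc_out hv).2 hvo, Relation.EqvGen.refl _⟩
      · rcases hq with h | ⟨p, h2, h3, h4⟩
        · exact absurd h hu
        · exact Or.inr ⟨p, h2, h3, (hc _ _ rfl hu).trans _ _ _ h4⟩
    have link : ∀ v : Pt, ∀ d : Dir, v ∉ B → L.oc δ (some v, d) → ∀ u d', G.e (some v, d) = (some u, d') → u ∉ B →
        E.Cn (out B δ) Bᶜ (v, d) (u, d') := by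
      intro v d hv hvo u d' he hu
      rw [hG v hv d] at he
      obtain ⟨h1, h2⟩ := Prod.mk.inj he
      have h3 : nx v d = u := Option.some_injective _ h1
      subst h3 h2
      exact Relation.EqvGen.rel _ _ ⟨(oc_out hv).2 hvo, hv, Or.inr ⟨rfl, hu⟩⟩
    have inB : ∀ h : VX × Dir, (∀ v, h.1 = some v → v ∈ B) → Q B (out B δ) h := by
      rintro ⟨_ | v, d⟩ h
      · trivial
      · exact Or.inl (h v rfl)
    have main : ∀ h : VX × Dir, L.oc δ h → L.oc δ (G.e h) → Q B (out B δ) (G.e h) → Q B (out B δ) h := by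
      rintro ⟨_ | v, d⟩ h1 h2 h3
      · trivial
      · by_cases hv : v ∈ B
        · exact Or.inl hv
        · exact key v d hv h1 h3 (link v d hv h1)
    refine ⟨fun h => ?_, fun h => main _ ho ho' h⟩
    refine main _ ho' ?_ ?_
    · rw [G.inv]
      exact ho
    · rw [G.inv]
      exact h

theorem q_cn (hG : Sq B G) (hm : L.Mt G δ Set.univ) {h k : VX × Dir} (c : L.Cn G δ Set.univ h k) :
    Q B (out B δ) h ↔ Q B (out B δ) k := by
  induction c with
  | rel h k l => exact q_link hG hm l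
  | refl _ => exact Iff.rfl
  | symm _ _ _ ih => exact ih.symm
  | trans _ _ _ _ _ ih1 ih2 => exact ih1.trans ih2

/-- the matching off the block -/
theorem out_mt (hG : Sq B G) (hm : L.Mt G δ Set.univ) : E.Mt (out B δ) Bᶜ := by
  rintro ⟨v, d⟩ hv hu
  have hu' : nx v d ∉ B := hu
  rw [oc_out hv]
  show _ ↔ E.oc (out B δ) (nx v d, d.op)
  rw [oc_out hu', hm (some v, d) (Set.mem_univ _) (Set.mem_univ _), hG v hv d]

/-- the loop visits the block or the crossing -/
def Vi (B : Set Pt) (δ : VX →₀ Cell) : Prop := ∃ x, (∀ v, x = some v → v ∈ B) ∧ δ x ≠ 0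

/-- **row L7o, first case** -/
theorem out_OC (hG : Sq B G) (hl : L.Lp G δ) (hv : Vi B δ) : OC B (out B δ) := by
  obtain ⟨x, hx, hx0⟩ := hv
  obtain ⟨d0, hd0'⟩ := L.ex_side hx0
  have hd0 : L.oc δ (x, d0) := hd0'
  have q0 : Q B (out B δ) (x, d0) := by
    cases x with
    | none => trivial
    | some v => exact Or.inl (hx v rfl)
  refine ⟨fun v hv => out_on hv, out_mt hG hl.mt, fun h ho => ?_⟩
  obtain ⟨v, d⟩ := h
  have hv : v ∉ B := fun hv => not_oc_out hv ho
  have h1 : L.oc δ (some v, d) := (oc_out hv).1 ho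
  have h2 : Q B (out B δ) (some v, d) := (q_cn hG hl.mt (hl.cn _ _ h1 hd0)).2 q0
  rcases h2 with h2 | h2
  · exact absurd h2 hv
  · exact h2

/-- **row L7o, second case** -/
theorem out_Lp (hG : Sq B G) (hl : L.Lp G δ) (hv : ¬ Vi B δ) : E.Lp (out B δ) := by
  have off : ∀ x, (∀ v, x = some v → v ∈ B) → δ x = 0 := fun x hx => by
    by_contra h
    exact hv ⟨x, hx, h⟩
  have off' : ∀ (x : VX) (d : Dir), L.oc δ (x, d) → ∃ v, x = some v ∧ v ∉ B := by
    intro x d h
    by_contra h1
    push Not at h1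
    exact L.oc_zero h (off x h1)
  refine ⟨?_, ?_, ?_⟩
  · rintro ⟨v, d⟩ - -
    have step : ∀ v d, E.oc (out B δ) (v, d) → E.oc (out B δ) (rv (v, d)) := by
      intro v d h
      have hv : v ∉ B := fun hv => not_oc_out hv h
      have h1 := (oc_out hv).1 h
      have h2 := (hl.mt (some v, d) (Set.mem_univ _) (Set.mem_univ _)).1 h1
      rw [hG v hv d] at h2
      obtain ⟨u, hu, hu'⟩ := off' _ _ h2
      have h3 : nx v d = u := Option.some_injective _ hu
      subst h3
      exact (oc_out hu').2 h2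
    refine ⟨step v d, fun h => ?_⟩
    have h1 := step _ _ h
    have h2 : rv (rv (v, d)) = (v, d) := by
      obtain ⟨x, y⟩ := v
      cases d <;> simp [rv, nx, Dir.op]
    have h3 : rv (nx v d, d.op) = (v, d) := h2
    rw [← h3]
    exact h1
  · intro h0
    apply hl.ne
    ext x
    rcases x with _ | v
    · exact off none fun v hv => by cases hv
    · by_cases hv : v ∈ B
      · exact off (some v) fun u hu => by
          cases hu
          exact hv
      · have h1 : out B δ v = 0 := by rw [h0]; rfl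
        rw [out_off hv] at h1
        exact h1
  · have lk : ∀ h k : VX × Dir, L.Lk G δ Set.univ h k → ∀ v d u d', h = (some v, d) → k = (some u, d') →
        E.Cn (out B δ) Set.univ (v, d) (u, d') := by
      rintro h k ⟨ho, -, h1 | ⟨h1, -⟩⟩ v d u d' rfl rfl
      · obtain ⟨v', hv', hvB⟩ := off' _ _ ho
        have e0 : v = v' := Option.some_injective _ hv'
        subst e0
        obtain ⟨h2, h3⟩ := Prod.mk.inj h1
        have h4 : u = v := Option.some_injective _ h2
        subst h4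
        rw [h3]
        refine Relation.EqvGen.rel _ _ ⟨(oc_out hvB).2 ho, Set.mem_univ _, Or.inl ?_⟩
        unfold E.vp
        rw [out_off hvB]
      · obtain ⟨v', hv', hvB⟩ := off' _ _ ho
        have e0 : v = v' := Option.some_injective _ hv'
        subst e0
        rw [hG v hvB d] at h1
        obtain ⟨h2, h3⟩ := Prod.mk.inj h1
        have h4 : u = nx v d := Option.some_injective _ h2
        subst h4
        rw [h3]
        exact Relation.EqvGen.rel _ _ ⟨(oc_out hvB).2 ho, Set.mem_univ _, Or.inr ⟨rfl, Set.mem_univ _⟩⟩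
    have us : ∀ h k : VX × Dir, L.Lk G δ Set.univ h k → L.oc δ h ∧ L.oc δ k := by
      rintro ⟨x, d⟩ k ⟨ho, -, h1 | ⟨h1, -⟩⟩
      · subst h1
        refine ⟨ho, ?_⟩
        have h2 : (δ x).oc d := ho
        show (δ x).oc ((δ x).p d)
        revert h2
        cases δ x <;> cases d <;> decide
      · subst h1
        exact ⟨ho, (hl.mt _ (Set.mem_univ _) (Set.mem_univ _)).1 ho⟩
    have cn : ∀ h k : VX × Dir, L.Cn G δ Set.univ h k → (L.oc δ h ↔ L.oc δ k) ∧ (L.oc δ h → ∀ v d u d', h = (some v, d) →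
        k = (some u, d') → E.Cn (out B δ) Set.univ (v, d) (u, d')) := by
      intro h k c
      induction c with
      | rel h k l => exact ⟨⟨fun _ => (us _ _ l).2, fun _ => (us _ _ l).1⟩, fun _ => lk _ _ l⟩
      | refl h =>
        refine ⟨Iff.rfl, ?_⟩
        rintro - v d u d' rfl h2
        obtain ⟨h3, rfl⟩ := Prod.mk.inj h2
        obtain rfl := Option.some_injective _ h3
        exact Relation.EqvGen.refl _
      | symm h k _ ih =>
        refine ⟨ih.1.symm, fun hk v d u d' h1 h2 => ?_⟩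
        exact (ih.2 (ih.1.2 hk) u d' v d h2 h1).symm
      | trans h k l _ _ ih1 ih2 =>
        refine ⟨ih1.1.trans ih2.1, fun hh v d u d' h1 h2 => ?_⟩
        have hk := ih1.1.1 hh
        obtain ⟨x, e⟩ := k
        obtain ⟨z, rfl, -⟩ := off' _ _ hk
        exact (ih1.2 hh v d z e h1 rfl).trans _ _ _ (ih2.2 hk z e u d' rfl h2)
    rintro ⟨v, d⟩ ⟨u, d'⟩ h1 h2
    have hv : v ∉ B := fun hv => not_oc_out hv h1
    have hu : u ∉ B := fun hv => not_oc_out hv h2
    have h3 := (oc_out hv).1 h1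
    have h4 := (oc_out hu).1 h2
    exact (cn _ _ (hl.cn _ _ h3 h4)).2 h3 v d u d' rfl rfl

end Pool.Agent.ROT.LB
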