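import Pool.Agent.ROT.LCls
import Pool.Agent.ROT.LDefs

/-!
# ROT, block L: the local identity on one class (row L3a, first half)

`TabP q`: the identity of the table for the pairing `q` of the six ports.  **`cls_zero`**: the sum of the local
derivatives over a class plus the current above minus the current below is zero.
-/

set_option autoImplicit false

namespace Pool.Agent.ROT.L

open Pool.Agent.EXL (Wt)
open Pool.Agent.YBC (Dir)
open Pool.Agent.ROT.E (Cell IsUn Pt W0 W1 J1)
open Pool.Agent.ROT.E.Lab (un_unique un_zero)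

variable {I : Type} {j r : ℤ} {t : Fin 3} {γ γ' : FX I}

/-- the table for the pairing `q` of the ports -/
def TabP (q : Fin 6 → Fin 6) : Prop :=
  (∑ c : Cell × Cell × Cell, if conn 0 ![c.1, c.2.1, c.2.2] = some q then
      dwt c.2.1 * wt c.2.2 - wt c.2.1 * dwt c.2.2 else 0) +
    (∑ c : Cell × Cell × Cell, if conn 1 ![c.1, c.2.1, c.2.2] = some q then jw c.1 * (wt c.2.1 * wt c.2.2) else 0) -
    (∑ c : Cell × Cell × Cell, if conn 2 ![c.1, c.2.1, c.2.2] = some q then jw c.1 * (wt c.2.1 * wt c.2.2) else 0)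
      = 0

private theorem wfg_un' {θ : Cell → ℝ} {f : I → Cell} {c : Cell} (h : IsUn f c) : wfg θ f = θ c := by
  classical
  rw [wfg, Finset.sum_eq_single c]
  · rw [if_pos h]
  · intro b _ hb
    rw [if_neg fun h' => hb (un_unique h' h)]
  · intro h1; exact (h1 (Finset.mem_univ _)).elim

private theorem fac_zero (v : VX) : fac v (0 : I → Cell) = 1 := by
  cases v with
  | none => rfl
  | some p =>
    show wfg wt (fun _ => Cell.o) = 1
    rw [wfg_un' un_zero]
    rfl

open Classical in
private theorem M_eq' {s : Finset VX} (h : γ.support ⊆ s) : M γ = ∏ v ∈ s, fac v (γ v) := by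
  refine Finset.prod_subset h fun v _ hv => ?_
  rw [Finsupp.notMem_support_iff] at hv
  rw [hv, fac_zero]

open Classical in
private theorem dM_eq' {p : Pt} {s : Finset VX} (h : γ.support ⊆ s) :
    dM p γ = wfg dwt (γ (some p)) * ∏ v ∈ s.erase (some p), fac v (γ v) := by
  rw [dM]
  congr 1
  refine Finset.prod_subset (Finset.erase_subset_erase _ h) fun v h1 h2 => ?_
  have h3 : v ∉ γ.support := fun h4 => h2 (Finset.mem_erase.2 ⟨(Finset.mem_erase.1 h1).1, h4⟩)
  rw [Finsupp.notMem_support_iff] at h3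
  rw [h3, fac_zero]

open Classical in
/-- the support outside of the region -/
noncomputable def So (j r : ℤ) (γ : FX I) : Finset VX :=
  ((γ.support.erase none).erase (some (j, r))).erase (some (j + 1, r))

/-- the outside product -/
noncomputable def Ow (j r : ℤ) (γ : FX I) : ℝ := ∏ v ∈ So j r γ, fac v (γ v)

private theorem mem_So {v : VX} : v ∈ So j r γ ↔ v ∉ Rg j r ∧ γ v ≠ 0 := by
  simp only [So, Finset.mem_erase, Finsupp.mem_support_iff, Rg, Set.mem_insert_iff, Set.mem_singleton_iff, not_or]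
  tauto

section

variable (out : ∀ v, v ∉ Rg j r → γ v = γ' v)

include out

open Classical in
private theorem sup_sub : γ'.support ⊆ insert none (insert (some (j, r)) (insert (some (j + 1, r)) (So j r γ))) := by
  intro v hv
  simp only [Finset.mem_insert]
  by_cases h : v ∈ Rg j r
  · simp only [Rg, Set.mem_insert_iff, Set.mem_singleton_iff] at h
    tauto
  · right; right; right
    rw [mem_So]
    exact ⟨h, by rw [out v h]; exact Finsupp.mem_support_iff.1 hv⟩

private theorem Ow_eq : ∏ v ∈ So j r γ, fac v (γ' v) = Ow j r γ :=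
  Finset.prod_congr rfl fun v hv => by rw [out v (mem_So.1 hv).1]

omit out in
private theorem n0 : (none : VX) ∉ So j r γ := fun h => (mem_So.1 h).1 (Or.inl rfl)
omit out in
private theorem n1 : (some (j, r) : VX) ∉ So j r γ := fun h => (mem_So.1 h).1 (Or.inr (Or.inl rfl))
omit out in
private theorem n2 : (some (j + 1, r) : VX) ∉ So j r γ := fun h => (mem_So.1 h).1 (Or.inr (Or.inr rfl))

/-- the weight of a family of the class -/
theorem M_cls {c : Cell × Cell × Cell} (h1 : IsUn (γ' (some (j, r))) c.2.1)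
    (h2 : IsUn (γ' (some (j + 1, r))) c.2.2) : M γ' = Ow j r γ * (wt c.2.1 * wt c.2.2) := by
  classical
  rw [M_eq' (sup_sub out), Finset.prod_insert, Finset.prod_insert, Finset.prod_insert n2, Ow_eq out]
  · simp only [fac]
    rw [wfg_un' h1, wfg_un' h2]
    ring
  · simp only [Finset.mem_insert, Option.some.injEq, Prod.mk.injEq, and_true, n1, or_false]
    omega
  · simp only [Finset.mem_insert, reduceCtorEq, n0, or_self, not_false_eq_true]

theorem Jw_cls {c : Cell × Cell × Cell} (h0 : IsUn (γ' none) c.1) (h1 : IsUn (γ' (some (j, r))) c.2.1)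
    (h2 : IsUn (γ' (some (j + 1, r))) c.2.2) : Jw γ' = Ow j r γ * (jw c.1 * (wt c.2.1 * wt c.2.2)) := by
  rw [Jw, M_cls out h1 h2, wfg_un' h0]
  ring

theorem dM_left_cls {c : Cell × Cell × Cell} (h1 : IsUn (γ' (some (j, r))) c.2.1)
    (h2 : IsUn (γ' (some (j + 1, r))) c.2.2) : dM (j, r) γ' = Ow j r γ * (dwt c.2.1 * wt c.2.2) := by
  classical
  have e : (insert none (insert (some (j, r)) (insert (some (j + 1, r)) (So j r γ)))).erase (some (j, r)) =
      insert none (insert (some (j + 1, r)) (So j r γ)) := by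
    ext v
    simp only [Finset.mem_erase, Finset.mem_insert]
    constructor
    · tauto
    · rintro (rfl | rfl | h)
      · simp
      · refine ⟨?_, by tauto⟩
        simp
      · exact ⟨fun e => n1 (e ▸ h), by tauto⟩
  rw [dM_eq' (sup_sub out), e, Finset.prod_insert, Finset.prod_insert n2, Ow_eq out, wfg_un' h1]
  · simp only [fac]
    rw [wfg_un' h2]
    ring
  · simp only [Finset.mem_insert, reduceCtorEq, n0, or_self, not_false_eq_true]

theorem dM_right_cls {c : Cell × Cell × Cell} (h1 : IsUn (γ' (some (j, r))) c.2.1)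
    (h2 : IsUn (γ' (some (j + 1, r))) c.2.2) : dM (j + 1, r) γ' = Ow j r γ * (wt c.2.1 * dwt c.2.2) := by
  classical
  have e : (insert none (insert (some (j, r)) (insert (some (j + 1, r)) (So j r γ)))).erase (some (j + 1, r)) =
      insert none (insert (some (j, r)) (So j r γ)) := by
    ext v
    simp only [Finset.mem_erase, Finset.mem_insert]
    constructor
    · tauto
    · rintro (rfl | rfl | h)
      · simp
      · refine ⟨?_, by tauto⟩
        simp
      · exact ⟨fun e => n2 (e ▸ h), by tauto⟩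
  rw [dM_eq' (sup_sub out), e, Finset.prod_insert, Finset.prod_insert n1, Ow_eq out, wfg_un' h2]
  · simp only [fac]
    rw [wfg_un' h1]
    ring
  · simp only [Finset.mem_insert, reduceCtorEq, n0, or_self, not_false_eq_true]

end

open Classical in
/-- **the sum over a class** is the sum over the triples of cells with the pairing `q` -/
theorem cls_sum (f : Fam (Gt j r t) γ) (g : Gd (Rg j r) γ) : ∃ q : Fin 6 → Fin 6, ∀ (t' : Fin 3)
    (X : FX I → ℝ) (Y : Cell × Cell × Cell → ℝ),
    (∀ γ' c, Eq6 (Rg j r) (Gt j r t) (Gt j r t') γ γ' → IsUn (γ' none) c.1 → IsUn (γ' (some (j, r))) c.2.1 →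
      IsUn (γ' (some (j + 1, r))) c.2.2 → X γ' = Y c) →
    ∑' γ' : FX I, (if Eq6 (Rg j r) (Gt j r t) (Gt j r t') γ γ' then X γ' else 0) =
      ∑ c : Cell × Cell × Cell, if conn t' ![c.1, c.2.1, c.2.2] = some q then Y c else 0 := by
  obtain ⟨q, hq⟩ := cls f g
  refine ⟨q, fun t' X Y h => ?_⟩
  obtain ⟨e, he⟩ := hq t'
  have e1 : ∑' γ' : FX I, (if Eq6 (Rg j r) (Gt j r t) (Gt j r t') γ γ' then X γ' else 0) =
      ∑' x : {γ' : FX I // Eq6 (Rg j r) (Gt j r t) (Gt j r t') γ γ'}, X x.1 :=
    (tsum_subtype {γ' : FX I | Eq6 (Rg j r) (Gt j r t) (Gt j r t') γ γ'} X).symm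
  have e2 : ∑' x : {γ' : FX I // Eq6 (Rg j r) (Gt j r t) (Gt j r t') γ γ'}, X x.1 =
      ∑' y : {c : Cell × Cell × Cell // conn t' ![c.1, c.2.1, c.2.2] = some q}, Y y.1 := by
    rw [← e.tsum_eq]
    refine tsum_congr fun x => ?_
    obtain ⟨a, b, d⟩ := he x
    exact h x.1 (e x).1 x.2 a b d
  rw [e1, e2, tsum_fintype, ← Finset.sum_filter]
  exact (Finset.sum_subtype _ (fun c => by simp) _).symm

open Classical in
/-- **the local identity on a class** -/
theorem cls_zero (tab : ∀ q, TabP q) (f : Fam (Gt j r t) γ) (g : Gd (Rg j r) γ) :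
    (∑' γ' : FX I, if Eq6 (Rg j r) (Gt j r t) (Gt j r 0) γ γ' then dM (j, r) γ' - dM (j + 1, r) γ' else 0) +
      (∑' γ' : FX I, if Eq6 (Rg j r) (Gt j r t) (Gt j r 1) γ γ' then Jw γ' else 0) -
      (∑' γ' : FX I, if Eq6 (Rg j r) (Gt j r t) (Gt j r 2) γ γ' then Jw γ' else 0) = 0 := by
  obtain ⟨q, hq⟩ := cls_sum f g
  rw [hq 0 (fun γ' => dM (j, r) γ' - dM (j + 1, r) γ')
      (fun c => Ow j r γ * (dwt c.2.1 * wt c.2.2 - wt c.2.1 * dwt c.2.2))
      (fun γ' c e h0 h1 h2 => by rw [dM_left_cls e.out h1 h2, dM_right_cls e.out h1 h2]; ring),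
    hq 1 Jw (fun c => Ow j r γ * (jw c.1 * (wt c.2.1 * wt c.2.2))) (fun γ' c e h0 h1 h2 => Jw_cls e.out h0 h1 h2),
    hq 2 Jw (fun c => Ow j r γ * (jw c.1 * (wt c.2.1 * wt c.2.2))) (fun γ' c e h0 h1 h2 => Jw_cls e.out h0 h1 h2)]
  have key : ∀ (p : Cell × Cell × Cell → Prop) [DecidablePred p] (F : Cell × Cell × Cell → ℝ),
      (∑ c, if p c then Ow j r γ * F c else 0) = Ow j r γ * ∑ c, if p c then F c else 0 := fun p _ F => by
    rw [Finset.mul_sum]
    refine Finset.sum_congr rfl fun c _ => ?_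
    split_ifs
    · rfl
    · rw [mul_zero]
  rw [key, key, key, ← mul_add, ← mul_sub, tab q, mul_zero]

end Pool.Agent.ROT.L
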