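import Pool.Agent.ROT.LAbel
import Pool.Agent.ROT.LRow
import Pool.Agent.ROT.LTab
import Pool.Agent.ROT.LHe
import Pool.Agent.ROT.LApi

/-!
# ROT, block L: the local identity of a row, and the derivative of the measure as a sum of local terms
-/

set_option autoImplicit false

namespace Pool.Agent.ROT.L

open Pool.Agent.ROT.E (Cell IsUn Pt)

variable {I : Type}

/-- the local identity for a test function -/
theorem Tst.row [Finite I] (t : Tst I) (j r : ℤ) :
    A j r (t.G j r) + J j (r + 1) (t.G j r) - J j r (t.G j r) = 0 := by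
  refine row_zero (t.bdG j r).finite (fun γ hγ => ?_) (G_cst t j r)
  have hf : t.f (he j r γ) ≠ 0 := fun h => hγ (by simp [Tst.G, h])
  exact wd_gdX (t.wd _ (t.dm (he j r γ) (he j r γ) (fun i a => by simp) hf))

/-- **the derivative of the measure, box form** -/
theorem Mdf_boxT [Finite I] (t : Tst I) {B : ℤ} (hB : t.K + 1 ≤ B) :
    Mdf t.F = ∑ j ∈ Finset.Icc (-B) B, ∑ r ∈ Finset.Icc (-B) B,
      (j : ℝ) * (A j r (fun γ => t.F γ - t.G j r γ) + J j r (fun γ => t.G j r γ - t.G j (r - 1) γ)) :=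
  Mdf_box t hB t.row

/-- **L3b** -/
theorem Mdf_F [Finite I] (t : Tst I) :
    Mdf t.F = ∑' j : ℤ, ∑' r : ℤ, (j : ℝ) * (A j r (fun γ => t.F γ - t.G j r γ) +
      J j r (fun γ => t.G j r γ - t.G j (r - 1) γ)) :=
  Mdf_F' t t.row

end Pool.Agent.ROT.L
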