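import Pool.Agent.ROT.LDefs
import Pool.Agent.ROT.ESym

/-!
# ROT, block L, row sigma (helper68): symmetries of the families with a crossing

`SyG G`: a symmetry of the graph `G` (vertices, directions, local states).  It acts on configurations and families and
preserves loops and families; if it preserves the weights, it preserves `M`, `dM` (moved), `dMt`, `Mdf`.
`ofSy S`: a symmetry of the square lattice acts on the graph `g0`.
-/

set_option autoImplicit false

namespace Pool.Agent.ROT.L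

open Pool.Agent.EXL (Wt)
open Pool.Agent.YBC (Dir)
open Pool.Agent.ROT.E (Cell IsUn Pt W0 W1 J1 Sy)

/-- a symmetry of the graph -/
structure SyG {V : Type} (G : Gr V) where
  /-- the vertices -/
  e : V ≃ V
  /-- the directions -/
  g : Dir ≃ Dir
  /-- the local states -/
  f : Cell ≃ Cell
  f0 : f 0 = 0
  ge : ∀ v d, G.e (e v, g d) = (e (G.e (v, d)).1, g (G.e (v, d)).2)
  p : ∀ c d, (f c).p (g d) = g (c.p d)

namespace SyG

variable {V I : Type} {G : Gr V} (S : SyG G)

/-- the half edges -/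
def he : V × Dir ≃ V × Dir := Equiv.prodCongr S.e S.g

@[simp] theorem he_fst (h : V × Dir) : (S.he h).1 = S.e h.1 := rfl

@[simp] theorem he_snd (h : V × Dir) : (S.he h).2 = S.g h.2 := rfl

theorem he_rv (h : V × Dir) : G.e (S.he h) = S.he (G.e h) := S.ge h.1 h.2

/-- the action on the configurations -/
noncomputable def ac (γ : V →₀ Cell) : V →₀ Cell := Finsupp.equivMapDomain S.e (γ.mapRange S.f S.f0)

theorem ac_apply (γ : V →₀ Cell) (v : V) : S.ac γ (S.e v) = S.f (γ v) := by
  rw [ac, Finsupp.equivMapDomain_apply, Equiv.symm_apply_apply, Finsupp.mapRange_apply]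

/-- the action on the families -/
noncomputable def acF (γ : V →₀ (I → Cell)) : V →₀ (I → Cell) :=
  Finsupp.equivMapDomain S.e (γ.mapRange (fun φ i => S.f (φ i)) (funext fun _ => S.f0))

theorem acF_apply (γ : V →₀ (I → Cell)) (v : V) : S.acF γ (S.e v) = fun i => S.f (γ v i) := by
  rw [acF, Finsupp.equivMapDomain_apply, Equiv.symm_apply_apply, Finsupp.mapRange_apply]

theorem co_acF (γ : V →₀ (I → Cell)) (i : I) : co (S.acF γ) i = S.ac (co γ i) := by
  ext v
  obtain ⟨w, rfl⟩ := S.e.surjective v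
  rw [ac_apply, co, co, Finsupp.mapRange_apply, Finsupp.mapRange_apply, acF_apply]

theorem oc_c (c : Cell) (d : Dir) : (S.f c).oc (S.g d) ↔ c.oc d := by
  unfold Cell.oc
  rw [S.p, not_iff_not]
  exact S.g.apply_eq_iff_eq

theorem oc_iff (γ : V →₀ Cell) (h : V × Dir) : oc (S.ac γ) (S.he h) ↔ oc γ h := by
  unfold oc
  rw [he_fst, he_snd, ac_apply]
  exact S.oc_c _ _

theorem vp_ac (γ : V →₀ Cell) (h : V × Dir) : vp (S.ac γ) (S.he h) = S.he (vp γ h) := by
  refine Prod.ext rfl ?_
  change (S.ac γ (S.e h.1)).p (S.g h.2) = S.g ((γ h.1).p h.2)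
  rw [ac_apply, S.p]

theorem mt_iff (γ : V →₀ Cell) (A : Set V) : Mt G (S.ac γ) (S.e '' A) ↔ Mt G γ A := by
  constructor
  · intro h k hk hr
    have h1 := h (S.he k) ⟨k.1, hk, rfl⟩ (by rw [he_rv]; exact ⟨(G.e k).1, hr, rfl⟩)
    rw [he_rv, oc_iff, oc_iff] at h1
    exact h1
  · intro h k hk hr
    obtain ⟨k, rfl⟩ := S.he.surjective k
    rw [he_rv] at hr ⊢
    rw [oc_iff, oc_iff]
    exact h k ((S.e.injective.mem_set_image).1 hk) ((S.e.injective.mem_set_image).1 hr)

theorem lk_iff (γ : V →₀ Cell) (A : Set V) (h k : V × Dir) :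
    Lk G (S.ac γ) (S.e '' A) (S.he h) (S.he k) ↔ Lk G γ A h k := by
  unfold Lk
  rw [oc_iff, vp_ac, he_rv, he_fst, he_fst, S.e.injective.mem_set_image, S.e.injective.mem_set_image,
    S.he.apply_eq_iff_eq, S.he.apply_eq_iff_eq]

theorem cn_iff (γ : V →₀ Cell) (A : Set V) (h k : V × Dir) :
    Cn G (S.ac γ) (S.e '' A) (S.he h) (S.he k) ↔ Cn G γ A h k := by
  constructor
  · intro H
    have key : ∀ a b, Cn G (S.ac γ) (S.e '' A) a b → Cn G γ A (S.he.symm a) (S.he.symm b) := by
      intro a b hab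
      induction hab with
      | rel a b h =>
        obtain ⟨a, rfl⟩ := S.he.surjective a
        obtain ⟨b, rfl⟩ := S.he.surjective b
        rw [Equiv.symm_apply_apply, Equiv.symm_apply_apply]
        exact Relation.EqvGen.rel _ _ ((S.lk_iff γ A a b).1 h)
      | refl a => exact Relation.EqvGen.refl _
      | symm a b _ ih => exact Relation.EqvGen.symm _ _ ih
      | trans a b c _ _ ih1 ih2 => exact Relation.EqvGen.trans _ _ _ ih1 ih2
    have h1 := key _ _ H
    rwa [Equiv.symm_apply_apply, Equiv.symm_apply_apply] at h1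
  · intro H
    induction H with
    | rel a b h => exact Relation.EqvGen.rel _ _ ((S.lk_iff γ A a b).2 h)
    | refl a => exact Relation.EqvGen.refl _
    | symm a b _ ih => exact Relation.EqvGen.symm _ _ ih
    | trans a b c _ _ ih1 ih2 => exact Relation.EqvGen.trans _ _ _ ih1 ih2

theorem image_univ' : S.e '' (Set.univ : Set V) = Set.univ := Set.image_univ_of_surjective S.e.surjective

theorem ac_ne (γ : V →₀ Cell) : S.ac γ ≠ 0 ↔ γ ≠ 0 := by
  rw [not_iff_not]
  constructor
  · intro h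
    ext v
    have h1 := S.ac_apply γ v
    rw [h] at h1
    rw [Finsupp.coe_zero, Pi.zero_apply] at h1 ⊢
    apply S.f.injective
    rw [← h1, S.f0]
  · rintro rfl
    ext v
    obtain ⟨w, rfl⟩ := S.e.surjective v
    rw [ac_apply, Finsupp.coe_zero, Pi.zero_apply, Pi.zero_apply, S.f0]

/-- **loops** -/
theorem lp_iff (γ : V →₀ Cell) : Lp G (S.ac γ) ↔ Lp G γ := by
  constructor
  · intro h
    refine ⟨?_, (S.ac_ne γ).1 h.ne, fun a b ha hb => ?_⟩
    · have h1 := h.mt
      rw [← S.image_univ', mt_iff] at h1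
      exact h1
    · have h1 := h.cn (S.he a) (S.he b) ((S.oc_iff γ a).2 ha) ((S.oc_iff γ b).2 hb)
      rw [← S.image_univ', cn_iff] at h1
      exact h1
  · intro h
    refine ⟨?_, (S.ac_ne γ).2 h.ne, fun a b ha hb => ?_⟩
    · rw [← S.image_univ', mt_iff]
      exact h.mt
    · obtain ⟨a, rfl⟩ := S.he.surjective a
      obtain ⟨b, rfl⟩ := S.he.surjective b
      rw [← S.image_univ', cn_iff]
      exact h.cn a b ((S.oc_iff γ a).1 ha) ((S.oc_iff γ b).1 hb)

theorem isUn_iff (φ : I → Cell) (c : Cell) : IsUn (fun i => S.f (φ i)) (S.f c) ↔ IsUn φ c := by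
  unfold IsUn
  refine and_congr ?_ (and_congr ?_ ?_)
  · refine forall_congr' fun i => ?_
    constructor
    · intro h d hd
      have h1 := h (S.g d) ((S.oc_c _ _).2 hd)
      rw [S.p, S.p, S.g.apply_eq_iff_eq] at h1
      exact h1
    · intro h d hd
      obtain ⟨d, rfl⟩ := S.g.surjective d
      rw [S.p, S.p, h d ((S.oc_c _ _).1 hd)]
  · refine forall_congr' fun i => forall_congr' fun i' => ?_
    constructor
    · intro h d h1 h2
      exact h (S.g d) ((S.oc_c _ _).2 h1) ((S.oc_c _ _).2 h2)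
    · intro h d h1 h2
      obtain ⟨d, rfl⟩ := S.g.surjective d
      exact h d ((S.oc_c _ _).1 h1) ((S.oc_c _ _).1 h2)
  · constructor
    · intro h d hd
      obtain ⟨i, hi⟩ := h (S.g d) ((S.oc_c _ _).2 hd)
      exact ⟨i, (S.oc_c _ _).1 hi⟩
    · intro h d hd
      obtain ⟨d, rfl⟩ := S.g.surjective d
      obtain ⟨i, hi⟩ := h d ((S.oc_c _ _).1 hd)
      exact ⟨i, (S.oc_c _ _).2 hi⟩

/-- **families** -/
theorem fam_iff (γ : V →₀ (I → Cell)) : Fam G (S.acF γ) ↔ Fam G γ := by
  constructor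
  · intro h
    refine ⟨fun i => ?_, fun v => ?_⟩
    · have h1 := h.lp i
      rw [co_acF, lp_iff] at h1
      exact h1
    · obtain ⟨c, hc⟩ := h.dj (S.e v)
      obtain ⟨c, rfl⟩ := S.f.surjective c
      rw [acF_apply, isUn_iff] at hc
      exact ⟨c, hc⟩
  · intro h
    refine ⟨fun i => ?_, fun v => ?_⟩
    · rw [co_acF, lp_iff]
      exact h.lp i
    · obtain ⟨v, rfl⟩ := S.e.surjective v
      obtain ⟨c, hc⟩ := h.dj v
      refine ⟨S.f c, ?_⟩
      rw [acF_apply, isUn_iff]
      exact hc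

/-- the inverse symmetry -/
def inv : SyG G where
  e := S.e.symm
  g := S.g.symm
  f := S.f.symm
  f0 := by rw [Equiv.symm_apply_eq, S.f0]
  ge := fun v d => by
    have h := S.ge (S.e.symm v) (S.g.symm d)
    rw [Equiv.apply_symm_apply, Equiv.apply_symm_apply] at h
    rw [h, Equiv.symm_apply_apply, Equiv.symm_apply_apply]
  p := fun c d => by
    apply S.g.injective
    rw [← S.p, Equiv.apply_symm_apply, Equiv.apply_symm_apply, Equiv.apply_symm_apply]

theorem inv_acF (γ : V →₀ (I → Cell)) : S.inv.acF (S.acF γ) = γ := by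
  ext v i
  have h1 := S.inv.acF_apply (S.acF γ) (S.e v)
  have h2 : S.inv.e (S.e v) = v := S.e.symm_apply_apply v
  rw [h2] at h1
  rw [h1, acF_apply]
  exact S.f.symm_apply_apply _

theorem acF_inv (γ : V →₀ (I → Cell)) : S.acF (S.inv.acF γ) = γ := S.inv.inv_acF γ

/-- the bijection of the families -/
noncomputable def eqF : (V →₀ (I → Cell)) ≃ (V →₀ (I → Cell)) := ⟨S.acF, S.inv.acF, S.inv_acF, S.acF_inv⟩

theorem acF_app_ne (γ : V →₀ (I → Cell)) (v : V) (i : I) : S.acF γ (S.e v) i ≠ .o ↔ γ v i ≠ .o := by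
  rw [acF_apply, not_iff_not]
  constructor
  · intro h
    apply S.f.injective
    exact Eq.trans h S.f0.symm
  · intro h
    change S.f (γ v i) = .o
    rw [h]
    exact S.f0

theorem supp_acF (γ : V →₀ (I → Cell)) : (S.acF γ).support = γ.support.map S.e.toEmbedding := by
  classical
  ext v
  obtain ⟨w, rfl⟩ := S.e.surjective v
  rw [Finset.mem_map_equiv, Equiv.symm_apply_apply, Finsupp.mem_support_iff, Finsupp.mem_support_iff, not_iff_not,
    acF_apply]
  constructor
  · intro h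
    funext i
    have h1 := congrFun h i
    rw [Pi.zero_apply, ← S.f0] at h1
    exact S.f.injective h1
  · intro h
    funext i
    rw [h]
    exact S.f0

end SyG

/-! ### the weights -/

/-- a symmetry of the square lattice acts on the graph `g0` -/
def ofSy (S : Sy) : SyG g0 where
  e := Equiv.optionCongr S.e
  g := S.g
  f := S.f
  f0 := S.f0
  ge := fun v d => by
    rcases v with _ | v
    · rfl
    · change ((some (E.nx (S.e v) (S.g d)), (S.g d).op) : VX × Dir) = (some (S.e (E.nx v d)), S.g d.op)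
      rw [S.nx, S.op]
  p := S.p

variable {I : Type} (S : Sy)

/-- **the action on the families** -/
noncomputable def ax (γ : FX I) : FX I := (ofSy S).acF γ

theorem ax_some (γ : FX I) (v : Pt) (i : I) : ax S γ (some (S.e v)) i = S.f (γ (some v) i) :=
  congrFun ((ofSy S).acF_apply γ (some v)) i

theorem ax_none (γ : FX I) (i : I) : ax S γ none i = S.f (γ none i) :=
  congrFun ((ofSy S).acF_apply γ none) i

theorem ax_fam (γ : FX I) : Fam g0 (ax S γ) ↔ Fam g0 γ := (ofSy S).fam_iff γ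

theorem wfg_f {θ : Cell → ℝ} (h : ∀ c, θ (S.f c) = θ c) (φ : I → Cell) :
    wfg θ (fun i => S.f (φ i)) = wfg θ φ := by
  classical
  unfold wfg
  rw [← Equiv.sum_comp S.f]
  refine Finset.sum_congr rfl fun c _ => ?_
  rw [h c]
  exact if_congr ((ofSy S).isUn_iff φ c) rfl rfl

/-- the symmetry preserves the weights -/
structure Pw : Prop where
  w : ∀ c, wt (S.f c) = wt c
  d : ∀ c, dwt (S.f c) = dwt c

variable {S}

theorem fac_ax (h : Pw S) (γ : FX I) (v : VX) : fac ((ofSy S).e v) (ax S γ ((ofSy S).e v)) = fac v (γ v) := by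
  rcases v with _ | v
  · rfl
  · change wfg wt (ax S γ ((ofSy S).e (some v))) = wfg wt (γ (some v))
    rw [ax, (ofSy S).acF_apply]
    exact wfg_f S h.w _

/-- **the measure** -/
theorem M_ax (h : Pw S) (γ : FX I) : M (ax S γ) = M γ := by
  unfold M
  rw [ax, (ofSy S).supp_acF, Finset.prod_map]
  exact Finset.prod_congr rfl fun v _ => fac_ax h γ v

/-- **the derivative of one cell** -/
theorem dM_ax (h : Pw S) (γ : FX I) (p : Pt) : dM (S.e p) (ax S γ) = dM p γ := by
  classical
  unfold dM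
  have e1 : wfg dwt (ax S γ (some (S.e p))) = wfg dwt (γ (some p)) := by
    have := (ofSy S).acF_apply γ (some p)
    change ax S γ (some (S.e p)) = _ at this
    rw [this]
    exact wfg_f S h.d _
  rw [e1]
  congr 1
  have e2 : (ax S γ).support.erase (some (S.e p)) = (γ.support.erase (some p)).map (ofSy S).e.toEmbedding := by
    rw [ax, (ofSy S).supp_acF, Finset.map_erase]
    rfl
  rw [e2, Finset.prod_map]
  exact Finset.prod_congr rfl fun v _ => fac_ax h γ v

/-- **the derivative in the angle of all columns** -/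
theorem dMt_ax (h : Pw S) (γ : FX I) : dMt (ax S γ) = dMt γ := by
  unfold dMt
  rw [show (ax S γ).support = γ.support.map (ofSy S).e.toEmbedding from (ofSy S).supp_acF γ, Finset.sum_map]
  refine Finset.sum_congr rfl fun v _ => ?_
  rcases v with _ | v
  · rfl
  · exact dM_ax h γ v

/-- sums over the families -/
theorem tsum_ax {α : Type*} [AddCommMonoid α] [TopologicalSpace α] (F : FX I → α) :
    ∑' γ : FX I, F (ax S γ) = ∑' γ : FX I, F γ := (ofSy S).eqF.tsum_eq F

open Classical in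
/-- **the derivative of the measure** -/
theorem Mdf_ax (h : Pw S) (F : FX I → ℝ) : Mdf (fun γ => F (ax S γ)) = Mdf F := by
  unfold Mdf
  rw [← tsum_ax (S := S) (fun γ : FX I => if Fam g0 γ then dMt γ * F γ else 0)]
  refine tsum_congr fun γ => ?_
  rw [dMt_ax h γ]
  exact if_congr (ax_fam S γ).symm rfl rfl

open Classical in
/-- **the measure of the families** -/
theorem tsum_M_ax (h : Pw S) (F : FX I → ℝ) : (∑' γ : FX I, if Fam g0 γ then M γ * F (ax S γ) else 0) =
    ∑' γ : FX I, if Fam g0 γ then M γ * F γ else 0 := by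
  rw [← tsum_ax (S := S) (fun γ : FX I => if Fam g0 γ then M γ * F γ else 0)]
  refine tsum_congr fun γ => ?_
  rw [M_ax h γ]
  exact if_congr (ax_fam S γ).symm rfl rfl

/-! ### instances -/

theorem pw_tp : Pw E.tpS := ⟨fun c => by cases c <;> rfl, fun c => by cases c <;> rfl⟩

theorem pw_pr : Pw E.prS := ⟨fun c => by cases c <;> rfl, fun c => by cases c <;> rfl⟩

theorem pw_tr (a : Pt) : Pw (E.trS a) := ⟨fun _ => rfl, fun _ => rfl⟩

/-! ### cells and heights -/

theorem mem_cl_ax (γ : FX I) (i : I) (v : Pt) : S.e v ∈ cl (ax S γ) i ↔ v ∈ cl γ i := by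
  rw [mem_cl, mem_cl]
  exact (ofSy S).acF_app_ne γ (some v) i

theorem cl_ax (γ : FX I) (i : I) : cl (ax S γ) i = (cl γ i).map S.e.toEmbedding := by
  ext v
  obtain ⟨w, rfl⟩ := S.e.surjective v
  rw [mem_cl_ax, Finset.mem_map_equiv, Equiv.symm_apply_apply]

section heights

variable {C : Finset Pt}

private theorem fst_tp : Prod.fst '' ((C.map E.tpS.e.toEmbedding : Finset Pt) : Set Pt) = Prod.snd '' (C : Set Pt) := by
  rw [Finset.coe_map, Set.image_image]
  rfl

private theorem snd_tp : Prod.snd '' ((C.map E.tpS.e.toEmbedding : Finset Pt) : Set Pt) = Prod.fst '' (C : Set Pt) := by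
  rw [Finset.coe_map, Set.image_image]
  rfl

private theorem fst_pr : Prod.fst '' ((C.map E.prS.e.toEmbedding : Finset Pt) : Set Pt) = -(Prod.fst '' (C : Set Pt)) := by
  rw [Finset.coe_map, Set.image_image, ← Set.image_neg_eq_neg, Set.image_image]
  rfl

private theorem snd_pr : Prod.snd '' ((C.map E.prS.e.toEmbedding : Finset Pt) : Set Pt) = -(Prod.snd '' (C : Set Pt)) := by
  rw [Finset.coe_map, Set.image_image, ← Set.image_neg_eq_neg, Set.image_image]
  rfl

/-- **the heights of the transposed family** -/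
theorem ht_tp (γ : FX I) (i : I) : ht (ax E.tpS γ) i = ![ht γ i 2, ht γ i 3, ht γ i 0, ht γ i 1] := by
  unfold ht
  rw [cl_ax]
  unfold hL hR hB hT
  rw [fst_tp, snd_tp]
  rfl

private theorem sSup_neg' (A : Set ℤ) (hA : A.Finite) : sSup (-A) = -sInf A := by
  rcases A.eq_empty_or_nonempty with h | h
  · rw [h, Set.neg_empty, Int.csSup_empty, Int.csInf_empty]
    rfl
  · exact csSup_neg h hA.bddBelow

private theorem sInf_neg' (A : Set ℤ) (hA : A.Finite) : sInf (-A) = -sSup A := by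
  rcases A.eq_empty_or_nonempty with h | h
  · rw [h, Set.neg_empty, Int.csSup_empty, Int.csInf_empty]
    rfl
  · exact csInf_neg h hA.bddAbove

/-- **the heights of the family turned by 180 degrees** -/
theorem ht_pr (γ : FX I) (i : I) : ht (ax E.prS γ) i = ![-ht γ i 1, -ht γ i 0, -ht γ i 3, -ht γ i 2] := by
  have h1 : (Prod.fst '' (cl γ i : Set Pt)).Finite := (cl γ i).finite_toSet.image _
  have h2 : (Prod.snd '' (cl γ i : Set Pt)).Finite := (cl γ i).finite_toSet.image _
  unfold ht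
  rw [cl_ax]
  unfold hL hR hB hT
  rw [fst_pr, snd_pr, sInf_neg' _ h1, sSup_neg' _ h1, sInf_neg' _ h2, sSup_neg' _ h2]
  rfl

/-- **the heights of the translated family** -/
theorem ht_tr (a : Pt) (γ : FX I) (i : I) (hn : (cl γ i).Nonempty) :
    ht (ax (E.trS a) γ) i = ![ht γ i 0 + a.1, ht γ i 1 + a.1, ht γ i 2 + a.2, ht γ i 3 + a.2] := by
  have hm : ∀ v : Pt, v ∈ cl (ax (E.trS a) γ) i ↔ ∃ w ∈ cl γ i, v = w + a := by
    intro v
    obtain ⟨w, rfl⟩ := (E.trS a).e.surjective v
    rw [mem_cl_ax]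
    constructor
    · intro h
      exact ⟨w, h, rfl⟩
    · rintro ⟨w', h, e⟩
      have : w = w' := (E.trS a).e.injective e
      rw [this]
      exact h
  have e0 : hL (cl (ax (E.trS a) γ) i) = hL (cl γ i) + a.1 := by
    obtain ⟨v, hv, e⟩ := hL_mem hn
    refine hL_eq ⟨v + a, (hm _).2 ⟨v, hv, rfl⟩, ?_⟩ fun w hw => ?_
    · rw [← e]
      rfl
    · obtain ⟨w', hw', rfl⟩ := (hm _).1 hw
      have := hL_le hw'
      change _ ≤ w'.1 + a.1
      omega
  have e1 : hR (cl (ax (E.trS a) γ) i) = hR (cl γ i) + a.1 := by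
    obtain ⟨v, hv, e⟩ := hR_mem hn
    refine hR_eq ⟨v + a, (hm _).2 ⟨v, hv, rfl⟩, ?_⟩ fun w hw => ?_
    · rw [← e]
      rfl
    · obtain ⟨w', hw', rfl⟩ := (hm _).1 hw
      have := le_hR hw'
      change w'.1 + a.1 ≤ _
      omega
  have e2 : hB (cl (ax (E.trS a) γ) i) = hB (cl γ i) + a.2 := by
    obtain ⟨v, hv, e⟩ := hB_mem hn
    refine hB_eq ⟨v + a, (hm _).2 ⟨v, hv, rfl⟩, ?_⟩ fun w hw => ?_
    · rw [← e]
      rfl
    · obtain ⟨w', hw', rfl⟩ := (hm _).1 hw
      have := hB_le hw'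
      change _ ≤ w'.2 + a.2
      omega
  have e3 : hT (cl (ax (E.trS a) γ) i) = hT (cl γ i) + a.2 := by
    obtain ⟨v, hv, e⟩ := hT_mem hn
    refine hT_eq ⟨v + a, (hm _).2 ⟨v, hv, rfl⟩, ?_⟩ fun w hw => ?_
    · rw [← e]
      rfl
    · obtain ⟨w', hw', rfl⟩ := (hm _).1 hw
      have := le_hT hw'
      change w'.2 + a.2 ≤ _
      omega
  unfold ht
  rw [e0, e1, e2, e3]
  rfl

end heights

/-! ### the responses under the transposition -/

/-- the rightmost column of the member `i` is the minimal cup in the rows `r`, `r + 1` -/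
def CupR (γ : FX I) (i : I) (r : ℤ) : Prop :=
  γ (some (ht γ i 1, r)) i = .nw ∧ γ (some (ht γ i 1, r + 1)) i = .sw ∧
    ∀ p : Pt, γ (some p) i ≠ .o → p.1 = ht γ i 1 → p.2 = r ∨ p.2 = r + 1

/-- the leftmost column of the member `i` is the minimal cup in the rows `r`, `r + 1` -/
def CupL (γ : FX I) (i : I) (r : ℤ) : Prop :=
  γ (some (ht γ i 0, r)) i = .ne ∧ γ (some (ht γ i 0, r + 1)) i = .se ∧
    ∀ p : Pt, γ (some p) i ≠ .o → p.1 = ht γ i 0 → p.2 = r ∨ p.2 = r + 1

open Classical in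
/-- row of the right cup (0 if the rightmost column is not a minimal cup) -/
noncomputable def cR (γ : FX I) (i : I) : ℝ := ∑' r : ℤ, if CupR γ i r then (r : ℝ) else 0

open Classical in
/-- row of the left cup -/
noncomputable def cL (γ : FX I) (i : I) : ℝ := ∑' r : ℤ, if CupL γ i r then (r : ℝ) else 0

/-- the sum of `tau` over the bottom row -/
noncomputable def QB (γ : FX I) (i : I) : ℝ := ∑' c : ℤ, tau (γ (some (c, ht γ i 2)) i)

/-- the sum of `tau` over the top row -/
noncomputable def QT (γ : FX I) (i : I) : ℝ := ∑' c : ℤ, tau (γ (some (c, ht γ i 3)) i)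

/-- the transposed heights -/
def sgh (h : I → Fin 4 → ℤ) : I → Fin 4 → ℤ := fun k => ![h k 2, h k 3, h k 0, h k 1]

/-- **the transposed response of the member `i`** -/
noncomputable def RsT (f : (I → Fin 4 → ℤ) → ℝ) (γ : FX I) (i : I) : ℝ :=
  kk * (cR γ i * (f (ht γ) - f (upd (ht γ) i 1 (ht γ i 1 - 1))) +
    cL γ i * (f (upd (ht γ) i 0 (ht γ i 0 + 1)) - f (ht γ))) -
  ((ht γ i 2 - 1) * QB γ i * (f (ht γ) - f (upd (ht γ) i 2 (ht γ i 2 - 1))) +
    ht γ i 3 * QT γ i * (f (upd (ht γ) i 3 (ht γ i 3 + 1)) - f (ht γ)))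

theorem sgh_sgh (h : I → Fin 4 → ℤ) : sgh (sgh h) = h := by
  funext k a
  fin_cases a <;> rfl

theorem sgh_upd (h : I → Fin 4 → ℤ) (i : I) (a : Fin 4) (x : ℤ) :
    sgh (upd h i a x) = upd (sgh h) i (![2, 3, 0, 1] a) x := by
  classical
  funext k b
  unfold sgh upd
  by_cases hk : k = i
  · subst hk
    rw [Function.update_self, Function.update_self]
    fin_cases a <;> fin_cases b <;> rfl
  · rw [Function.update_of_ne hk, Function.update_of_ne hk]

theorem ht_tp' (γ : FX I) : ht (ax E.tpS γ) = sgh (ht γ) := funext fun i => ht_tp γ i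

theorem ax_tp (γ : FX I) (v : Pt) (i : I) : ax E.tpS γ (some v) i = (γ (some (v.2, v.1)) i).tp :=
  ax_some E.tpS γ (v.2, v.1) i

private theorem tp_eq {c c' : Cell} : c.tp = c' ↔ c = c'.tp := by
  revert c c'
  decide

theorem cupT_tp (γ : FX I) (i : I) (c : ℤ) : CupT (ax E.tpS γ) i c ↔ CupR γ i c := by
  unfold CupT CupR
  rw [ht_tp, ax_tp, ax_tp, tp_eq, tp_eq]
  refine and_congr Iff.rfl (and_congr Iff.rfl ?_)
  constructor
  · intro h p hp h1
    refine h (p.2, p.1) ?_ h1
    rw [ax_tp, Ne, tp_eq]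
    exact hp
  · intro h p hp h1
    rw [ax_tp, Ne, tp_eq] at hp
    exact h (p.2, p.1) hp h1

theorem cupB_tp (γ : FX I) (i : I) (c : ℤ) : CupB (ax E.tpS γ) i c ↔ CupL γ i c := by
  unfold CupB CupL
  rw [ht_tp, ax_tp, ax_tp, tp_eq, tp_eq]
  refine and_congr Iff.rfl (and_congr Iff.rfl ?_)
  constructor
  · intro h p hp h1
    refine h (p.2, p.1) ?_ h1
    rw [ax_tp, Ne, tp_eq]
    exact hp
  · intro h p hp h1
    rw [ax_tp, Ne, tp_eq] at hp
    exact h (p.2, p.1) hp h1

open Classical in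
theorem cT_tp (γ : FX I) (i : I) : cT (ax E.tpS γ) i = cR γ i := by
  unfold cT cR
  exact tsum_congr fun c => if_congr (cupT_tp γ i c) rfl rfl

open Classical in
theorem cB_tp (γ : FX I) (i : I) : cB (ax E.tpS γ) i = cL γ i := by
  unfold cB cL
  exact tsum_congr fun c => if_congr (cupB_tp γ i c) rfl rfl

private theorem tau_tp (c : Cell) : tau c.tp = tau c := by cases c <;> rfl

private theorem tau_pr (c : Cell) : tau c.pr = tau c := by cases c <;> rfl

theorem QL_tp (γ : FX I) (i : I) : QL (ax E.tpS γ) i = QB γ i := by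
  unfold QL QB
  refine tsum_congr fun c => ?_
  rw [ht_tp, ax_tp, tau_tp]
  rfl

theorem QR_tp (γ : FX I) (i : I) : QR (ax E.tpS γ) i = QT γ i := by
  unfold QR QT
  refine tsum_congr fun c => ?_
  rw [ht_tp, ax_tp, tau_tp]
  rfl

theorem QB_tp (γ : FX I) (i : I) : QB (ax E.tpS γ) i = QL γ i := by
  unfold QL QB
  refine tsum_congr fun c => ?_
  rw [ht_tp, ax_tp, tau_tp]
  rfl

theorem QT_tp (γ : FX I) (i : I) : QT (ax E.tpS γ) i = QR γ i := by
  unfold QR QT
  refine tsum_congr fun c => ?_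
  rw [ht_tp, ax_tp, tau_tp]
  rfl

/-- **the response of the transposed family** -/
theorem Rs_tp (f : (I → Fin 4 → ℤ) → ℝ) (γ : FX I) (i : I) :
    Rs (fun h => f (sgh h)) (ax E.tpS γ) i = RsT f γ i := by
  unfold Rs RsT
  simp only [cT_tp, cB_tp, QL_tp, QR_tp, ht_tp', sgh_sgh, sgh_upd]
  rfl

end Pool.Agent.ROT.L
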