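import Pool.Agent.ROT.LSym
import Pool.Agent.ROT.LPat

/-!
# ROT, block L, row sigma, second part (helper68): the pattern is invariant under the symmetries

`sg_tp` : the side parity of the transposed configuration at the transposed corner; `sg_pr`, `sg_tr` the same for the
point reflection and the translations.  **`pf_tp`**, `pf_pr`, `pf_tr` : the pattern of a wide family.
-/

set_option autoImplicit false

namespace Pool.Agent.ROT.L

open Pool.Agent.YBC (Dir)
open Pool.Agent.ROT.E (Cell IsUn Pt nx Sy Cfg He rv sg sd io cr sg_succ sg_right io_eq io_of io_supp)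

/-! ### the side parity -/

theorem sg_far {δ : Cfg} {p y : ℤ} (h : ∀ v ∈ δ.support, v.1 ≠ p ∨ v.2 < y) : sg δ p y = 0 := by
  classical
  refine Finset.sum_eq_zero fun v hv => if_neg ?_
  rintro ⟨h1, h2⟩
  rcases h v hv with h3 | h3
  · exact h3 h1
  · omega

/-- a bound of the coordinates -/
theorem ex_bd (δ : Cfg) : ∃ Y : ℤ, ∀ v ∈ δ.support, |v.1| < Y ∧ |v.2| < Y := by
  obtain ⟨Y, hY⟩ := (δ.support.image fun v => max |v.1| |v.2|).bddAbove
  refine ⟨Y + 1, fun v hv => ?_⟩
  have := hY (Finset.mem_coe.2 (Finset.mem_image_of_mem (fun v : Pt => max |v.1| |v.2|) hv))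
  change max |v.1| |v.2| ≤ Y at this
  have h1 := le_max_left |v.1| |v.2|
  have h2 := le_max_right |v.1| |v.2|
  omega

/-- below the configuration -/
theorem sg_low {δ : Cfg} (hm : E.Mt δ Set.univ) {Y : ℤ} (hY : ∀ v ∈ δ.support, |v.1| < Y ∧ |v.2| < Y) {p y : ℤ}
    (hy : y ≤ -Y) : sg δ p y = 0 := by
  have key : ∀ n : ℕ, ∀ p : ℤ, Y ≤ p + n → sg δ p y = 0 := by
    intro n
    induction n with
    | zero =>
      intro p hp
      refine sg_far fun v hv => Or.inl fun e => ?_
      have h1 := (hY v hv).1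
      have h2 := le_abs_self v.1
      push_cast at hp
      omega
    | succ n ih =>
      intro p hp
      rw [sg_right hm, ih (p + 1) (by push_cast at hp; omega), io_supp, add_zero]
      intro hv
      have h1 := (hY _ hv).2
      have h2 := neg_abs_le y
      change |y| < Y at h1
      omega
  exact key (Y - p).toNat p (by
    have := Int.self_le_toNat (Y - p)
    omega)

private theorem z2 (a b : ZMod 2) : a + b + (a + b) = 0 := by revert a b; decide

theorem io_ac (S : Sy) (δ : Cfg) (v : Pt) (d : Dir) : io (S.ac δ) (S.e v) (S.g d) = io δ v d :=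
  io_eq (S.oc_iff δ (v, d))

theorem mt_ac (S : Sy) {δ : Cfg} (hm : E.Mt δ Set.univ) : E.Mt (S.ac δ) Set.univ := by
  rw [← S.image_univ', S.mt_iff]
  exact hm

theorem supp_ac (S : Sy) {δ : Cfg} {v : Pt} : S.e v ∈ (S.ac δ).support ↔ v ∈ δ.support := by
  rw [Finsupp.mem_support_iff, Finsupp.mem_support_iff]
  exact S.ac_app_ne δ v

/-- **transposition** -/
theorem sg_tp {δ : Cfg} (hm : E.Mt δ Set.univ) (p y : ℤ) : sg (E.tpS.ac δ) y p = sg δ p y := by
  obtain ⟨Y, hY⟩ := ex_bd δ
  have key : ∀ n : ℕ, ∀ y : ℤ, Y ≤ y + n → sg (E.tpS.ac δ) y p = sg δ p y := by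
    intro n
    induction n with
    | zero =>
      intro y hy
      push_cast at hy
      rw [sg_far, sg_far]
      · intro v hv
        right
        have h1 := (hY v hv).2
        have h2 := le_abs_self v.2
        omega
      · intro v hv
        left
        obtain ⟨w, rfl⟩ := E.tpS.e.surjective v
        rw [supp_ac] at hv
        have h1 := (hY w hv).2
        have h2 := le_abs_self w.2
        change w.2 ≠ y
        omega
    | succ n ih =>
      intro y hy
      have h1 := ih (y + 1) (by push_cast at hy ⊢; omega)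
      rw [sg_right (mt_ac _ hm), h1, sg_succ δ p y]
      congr 1
      exact io_ac E.tpS δ (p, y) .W
  exact key (Y - y).toNat y (by
    have := Int.self_le_toNat (Y - y)
    omega)

/-- **point reflection** -/
theorem sg_pr {δ : Cfg} (hm : E.Mt δ Set.univ) (p y : ℤ) : sg (E.prS.ac δ) (1 - p) (1 - y) = sg δ p y := by
  obtain ⟨Y, hY⟩ := ex_bd δ
  have hY' : ∀ v ∈ (E.prS.ac δ).support, |v.1| < Y ∧ |v.2| < Y := by
    intro v hv
    obtain ⟨w, rfl⟩ := E.prS.e.surjective v
    rw [supp_ac] at hv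
    have := hY w hv
    change |-w.1| < Y ∧ |-w.2| < Y
    rwa [abs_neg, abs_neg]
  have key : ∀ n : ℕ, ∀ y : ℤ, Y + 1 ≤ y + n → sg (E.prS.ac δ) (1 - p) (1 - y) = sg δ p y := by
    intro n
    induction n with
    | zero =>
      intro y hy
      push_cast at hy
      rw [sg_low (mt_ac _ hm) hY' (by omega), sg_far]
      intro v hv
      right
      have h1 := (hY v hv).2
      have h2 := le_abs_self v.2
      omega
    | succ n ih =>
      intro y hy
      have h1 := ih (y + 1) (by push_cast at hy ⊢; omega)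
      have e1 : (1 : ℤ) - (y + 1) = -y := by ring
      have e2 : (1 : ℤ) - y = -y + 1 := by ring
      rw [e1, sg_succ] at h1
      rw [sg_succ δ p y, ← h1, e2]
      have e3 : io (E.prS.ac δ) (1 - p, -y) .W = io δ (p, y) .W := by
        have h2 := io_ac E.prS δ (p - 1, y) .E
        have h3 : E.prS.e (p - 1, y) = (1 - p, -y) := Prod.ext (by change -(p - 1) = 1 - p; ring) rfl
        rw [h3] at h2
        change io (E.prS.ac δ) (1 - p, -y) .W = _ at h2
        rw [h2]
        refine io_eq ?_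
        rw [hm ((p - 1, y), .E) trivial trivial]
        have h4 : rv ((p - 1, y), Dir.E) = ((p, y), Dir.W) := by
          refine Prod.ext (Prod.ext ?_ rfl) rfl
          change p - 1 + 1 = p
          ring
        rw [h4]
      rw [e3]
      have : ∀ a b : ZMod 2, a = a + b + b := by decide
      exact this _ _
  exact key (Y + 1 - y).toNat y (by
    have := Int.self_le_toNat (Y + 1 - y)
    omega)

/-- **translations** -/
theorem sg_tr (a : Pt) (δ : Cfg) (p y : ℤ) : sg ((E.trS a).ac δ) (p + a.1) (y + a.2) = sg δ p y := by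
  obtain ⟨Y, hY⟩ := ex_bd δ
  have key : ∀ n : ℕ, ∀ y : ℤ, Y ≤ y + n → sg ((E.trS a).ac δ) (p + a.1) (y + a.2) = sg δ p y := by
    intro n
    induction n with
    | zero =>
      intro y hy
      push_cast at hy
      rw [sg_far, sg_far]
      · intro v hv
        right
        have h1 := (hY v hv).2
        have h2 := le_abs_self v.2
        omega
      · intro v hv
        obtain ⟨w, rfl⟩ := (E.trS a).e.surjective v
        rw [supp_ac] at hv
        right
        have h1 := (hY w hv).2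
        have h2 := le_abs_self w.2
        change w.2 + a.2 < y + a.2
        omega
    | succ n ih =>
      intro y hy
      have h1 := ih (y + 1) (by push_cast at hy ⊢; omega)
      rw [sg_succ δ p y, sg_succ _ (p + a.1) (y + a.2), ← h1]
      have e : y + a.2 + 1 = y + 1 + a.2 := by ring
      rw [e]
      congr 1
      exact io_ac (E.trS a) δ (p, y) .W
  exact key (Y - y).toNat y (by
    have := Int.self_le_toNat (Y - y)
    omega)

/-! ### the side of a side -/

/-- the symmetry preserves the sides -/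
def Sdp (S : Sy) : Prop := ∀ (δ : Cfg) (h : He), E.Mt δ Set.univ → ¬E.oc δ h → sd (S.ac δ) (S.he h) = sd δ h

theorem sdp_tp : Sdp E.tpS := by
  rintro δ ⟨v, d⟩ hm -
  have e : cr (E.tpS.he (v, d)) = ((cr (v, d)).2, (cr (v, d)).1) := by cases d <;> rfl
  unfold sd
  rw [e]
  exact sg_tp hm _ _

theorem sdp_tr (a : Pt) : Sdp (E.trS a) := by
  rintro δ ⟨v, d⟩ hm -
  have e : cr ((E.trS a).he (v, d)) = ((cr (v, d)).1 + a.1, (cr (v, d)).2 + a.2) := by
    cases d
    · refine Prod.ext ?_ rfl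
      change v.1 + a.1 + 1 = v.1 + 1 + a.1
      ring
    · refine Prod.ext rfl ?_
      change v.2 + a.2 + 1 = v.2 + 1 + a.2
      ring
    · rfl
    · rfl
  unfold sd
  rw [e]
  exact sg_tr a δ _ _

theorem sdp_pr : Sdp E.prS := by
  rintro δ ⟨v, d⟩ hm ho
  have hW : ∀ p y : ℤ, ¬E.oc δ ((p, y), .W) → sg (E.prS.ac δ) (1 - p) (-y) = sg δ p y := by
    intro p y h
    have h1 := sg_pr hm p (y + 1)
    have e1 : (1 : ℤ) - (y + 1) = -y := by ring
    rw [e1] at h1
    rw [h1, sg_succ δ p y, io_of h, add_zero]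
  have hS : ∀ p y : ℤ, ¬E.oc δ ((p, y), .S) → sg (E.prS.ac δ) (-p) (1 - y) = sg δ p y := by
    intro p y h
    have h1 := sg_pr hm (p + 1) y
    have e1 : (1 : ℤ) - (p + 1) = -p := by ring
    rw [e1] at h1
    rw [h1, sg_right hm p y, io_of h, add_zero]
  obtain ⟨p, y⟩ := v
  cases d
  · have h1 := hW (p + 1) y fun h => ho ((hm ((p, y), .E) trivial trivial).2 h)
    have e1 : (1 : ℤ) - (p + 1) = -p := by ring
    rw [e1] at h1
    exact h1
  · have h1 := hS p (y + 1) fun h => ho ((hm ((p, y), .N) trivial trivial).2 h)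
    have e1 : (1 : ℤ) - (y + 1) = -y := by ring
    rw [e1] at h1
    exact h1
  · have h1 := hW p y ho
    have e1 : (1 : ℤ) - p = -p + 1 := by ring
    rw [e1] at h1
    exact h1
  · have h1 := hS p y ho
    have e1 : (1 : ℤ) - y = -y + 1 := by ring
    rw [e1] at h1
    exact h1

/-! ### the pattern -/

variable {I : Type} {γ : FX I} {S : Sy}

theorem dn_ax (S : Sy) (γ : FX I) : dn (ax S γ) = S.acF (dn γ) := by
  ext v i
  obtain ⟨w, rfl⟩ := S.e.surjective v
  rw [dn_apply, ax_some, S.acF_apply, dn_apply]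

theorem wd_ne (wd : Wd (ht γ)) (i : I) : ∃ v : Pt, γ (some v) i ≠ 0 := by
  have h1 := (wd i).1
  by_contra h
  push Not at h
  have h2 : cl γ i = ∅ := by
    ext v
    rw [mem_cl]
    simp only [Finset.notMem_empty, iff_false, not_not]
    exact h v
  change hL (cl γ i) + 3 ≤ hR (cl γ i) at h1
  rw [h2] at h1
  unfold hL hR at h1
  rw [Finset.coe_empty, Set.image_empty, Int.csInf_empty, Int.csSup_empty] at h1
  omega

theorem wd_cl (wd : Wd (ht γ)) (i : I) : (cl γ i).Nonempty := by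
  obtain ⟨v, hv⟩ := wd_ne wd i
  exact ⟨v, mem_cl.2 hv⟩

/-- a wide member meets a line `p ≠ j + 1` -/
theorem wd_meets (f : Fam g0 γ) (wd : Wd (ht γ)) (j : ℤ) (k : I) : (lns j (co γ k)).Nonempty := by
  obtain ⟨v, hv, e⟩ := hL_mem (wd_cl wd k)
  obtain ⟨w, hw, e'⟩ := hR_mem (wd_cl wd k)
  have h1 : hL (cl γ k) + 3 ≤ hR (cl γ k) := (wd k).1
  by_cases hj : v.1 = j ∨ v.1 = j + 1
  · exact (f.lp k).meets g0_W (fun u _ _ => g0_N u) (v := w) (mem_cl.1 hw) (by omega) (by omega)
  · exact (f.lp k).meets g0_W (fun u _ _ => g0_N u) (v := v) (mem_cl.1 hv) (by omega) (by omega)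

/-- **the pattern** is invariant -/
theorem pf_ax (hS : Sdp S) (f : Fam g0 γ) (wd : Wd (ht γ)) (wd' : Wd (ht (ax S γ))) {i k : I} (hik : i ≠ k)
    (j j' : ℤ) : pf j' (ax S γ) i k = pf j γ i k := by
  obtain ⟨v, hv⟩ := wd_ne wd k
  obtain ⟨d, hd⟩ := ex_side hv
  have ho : E.oc (E.co (dn γ) k) (v, d) := by
    rw [co_dn]
    exact (oc_dn _ _ _).2 hd
  have f' : Fam g0 (ax S γ) := (ax_fam S γ).2 f
  have ho' : E.oc (E.co (dn (ax S γ)) k) (S.he (v, d)) := by
    rw [dn_ax, S.co_acF, S.oc_iff]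
    exact ho
  rw [pf_true f (wd_ne wd) hik (wd_meets f wd j k) ho, pf_true f' (wd_ne wd') hik (wd_meets f' wd' j' k) ho', dn_ax,
    S.co_acF]
  have fe := f.dn (wd_ne wd)
  refine hS _ _ (fe.lp i).mt fun h => hik ?_
  obtain ⟨c, hc⟩ := fe.dj v
  exact hc.2.1 i k d h ho

theorem wd_tp (wd : Wd (ht γ)) : Wd (ht (ax E.tpS γ)) := by
  intro i
  rw [ht_tp]
  exact ⟨(wd i).2, (wd i).1⟩

theorem wd_pr (wd : Wd (ht γ)) : Wd (ht (ax E.prS γ)) := by
  intro i
  rw [ht_pr]
  have h := wd i
  change -ht γ i 1 + 3 ≤ -ht γ i 0 ∧ -ht γ i 3 + 3 ≤ -ht γ i 2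
  omega

theorem wd_tr (a : Pt) (wd : Wd (ht γ)) : Wd (ht (ax (E.trS a) γ)) := by
  intro i
  rw [ht_tr a γ i (wd_cl wd i)]
  have h := wd i
  change ht γ i 0 + a.1 + 3 ≤ ht γ i 1 + a.1 ∧ ht γ i 2 + a.2 + 3 ≤ ht γ i 3 + a.2
  omega

/-- **transposition** -/
theorem pf_tp (f : Fam g0 γ) (wd : Wd (ht γ)) {i k : I} (hik : i ≠ k) (j j' : ℤ) :
    pf j' (ax E.tpS γ) i k = pf j γ i k := pf_ax sdp_tp f wd (wd_tp wd) hik j j'

/-- **point reflection** -/
theorem pf_pr (f : Fam g0 γ) (wd : Wd (ht γ)) {i k : I} (hik : i ≠ k) (j j' : ℤ) :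
    pf j' (ax E.prS γ) i k = pf j γ i k := pf_ax sdp_pr f wd (wd_pr wd) hik j j'

/-- **translations** -/
theorem pf_tr (a : Pt) (f : Fam g0 γ) (wd : Wd (ht γ)) {i k : I} (hik : i ≠ k) (j j' : ℤ) :
    pf j' (ax (E.trS a) γ) i k = pf j γ i k := pf_ax (sdp_tr a) f wd (wd_tr a wd) hik j j'

/-- the line `j + 1` does not matter -/
theorem pf_line (f : Fam g0 γ) (wd : Wd (ht γ)) {i k : I} (hik : i ≠ k) (j j' : ℤ) : pf j' γ i k = pf j γ i k := by
  obtain ⟨v, hv⟩ := wd_ne wd k
  obtain ⟨d, hd⟩ := ex_side hv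
  have ho : E.oc (E.co (dn γ) k) (v, d) := by
    rw [co_dn]
    exact (oc_dn _ _ _).2 hd
  rw [pf_true f (wd_ne wd) hik (wd_meets f wd j k) ho, pf_true f (wd_ne wd) hik (wd_meets f wd j' k) ho]

end Pool.Agent.ROT.L
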