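import Pool.Agent.PMA.DpP
import Pool.Agent.PMA.LimD
import Pool.Agent.PMA.H7

/-!
# ROT, row NTS at word level (helper71): near self touches of the closed words are rare

Cyclic vertices `POL.pv t`.  `dp_cy`: near double points at separated times away from the root (from `PMA.pol_dp`);
`cyc_dp`: at any place (three rotations); `cyc_mod`: the modulus of continuity, at any place (two rotations);
**`nt_cy`**: the closed words with a near self touch between two large arcs, one length.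
-/

set_option autoImplicit false

open MeasureTheory Filter Topology Finset

open scoped Classical

namespace Pool.Agent.ROT.N

open Pool.Agent.PMA Pool.Agent.PMA.Res Pool.Agent.NTS.Res

open HexObs hiding pos curve

open HexObs.TIW HexObs.POLP NTSF NTSF.Mg NTF Pool.Agent.TSW.BP HexObs.MCP

open Pool.Agent.PMA.Dp Pool.Agent.PMA.LT

/-! ### 1. away from the root -/

/-- **near double points of the closed words at separated times, away from the root** -/
theorem dp_cy (ε τ κ : ℝ) (hε : 0 < ε) (hτ : 0 < τ) (hκ : 0 < κ) : ∃ δ : ℝ, 0 < δ ∧ ∃ n0 : ℕ, ∀ n : ℕ, n0 ≤ n → Odd n →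
    ∀ w d : ℕ, τ * n ≤ w → κ * n ≤ d →
      (((cyF (n + 1)).filter fun t => DPw n w d (δ * (n : ℝ) ^ (3 / 4 : ℝ)) t).card : ℝ) ≤ ε * ((cyF (n + 1)).card : ℝ) := by
  obtain ⟨c0, C0, hc0, hsz⟩ := (oneFacts finE).sz
  obtain ⟨δ, hδ, n0, h0⟩ := pol_dp walk_dp ε τ κ hε hτ hκ
  refine ⟨c0 * (δ / 2), by positivity, max n0 3, fun n hn ho w d hw hd => ?_⟩
  have hn0 : n0 ≤ n := (le_max_left _ _).trans hn
  have hn3 : 3 ≤ n := (le_max_right _ _).trans hn
  have hn1 : 1 ≤ n := by omega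
  have hnp : (0 : ℝ) < n := by exact_mod_cast hn1
  have h1 := h0 n hn0 ho
  rw [plaw_apply] at h1
  have h2 := (ENNReal.ofReal_le_ofReal_iff hε.le).1 h1
  have h3 : pmean n (fun γ => if Dc n w d (δ / 2) γ then 1 else 0) ≤ ε := by
    refine le_trans (pmean_mono fun s _ => ?_) h2
    by_cases h4 : Dc n w d (δ / 2) (curve s)
    · rw [if_pos h4]
      obtain ⟨i, j, a1, a2, a3, a4⟩ := h4
      rw [if_pos]
      have v1 := LT.pt_val hn1 (show i ≤ n by omega)
      have v2 := LT.pt_val hn1 (show j ≤ n by omega)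
      have c1 : (w : ℝ) ≤ i := by exact_mod_cast a1
      have c2 : (i : ℝ) + d ≤ j := by exact_mod_cast a2
      have c3 : (j : ℝ) + w ≤ n := by exact_mod_cast a3
      refine ⟨LT.pt n i, LT.pt n j, ?_, ?_, ?_, ?_⟩
      · refine le_of_mul_le_mul_right ?_ hnp
        rw [v1]
        linarith
      · refine le_of_mul_le_mul_right ?_ hnp
        rw [add_mul, v1, v2]
        linarith
      · refine le_of_mul_le_mul_right ?_ hnp
        rw [v2, sub_mul, one_mul]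
        linarith
      · rw [dist_comm, dist_eq_norm]
        exact lt_of_le_of_lt a4 (by linarith)
    · rw [if_neg h4]
      split_ifs <;> norm_num
  rw [pol_words hn3 ho] at h3
  have h4 : ((cyF (n + 1)).filter fun t => DPw n w d (c0 * (δ / 2) * (n : ℝ) ^ (3 / 4 : ℝ)) t).card ≤
      ((cyF (n + 1)).filter fun t => DPw n w d (δ / 2 * size n) t).card := by
    refine card_le_card (monotone_filter_right _ fun t _ ht => ?_)
    obtain ⟨i, j, a1, a2, a3, a4⟩ := ht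
    refine ⟨i, j, a1, a2, a3, a4.trans ?_⟩
    have h5 := (hsz n hn1).1
    calc c0 * (δ / 2) * (n : ℝ) ^ (3 / 4 : ℝ) = δ / 2 * (c0 * (n : ℝ) ^ (3 / 4 : ℝ)) := by ring
      _ ≤ _ := mul_le_mul_of_nonneg_left h5 (by positivity)
  have h5 : (((cyF (n + 1)).filter fun t => DPw n w d (c0 * (δ / 2) * (n : ℝ) ^ (3 / 4 : ℝ)) t).card : ℝ) ≤
      (((cyF (n + 1)).filter fun t => DPw n w d (δ / 2 * size n) t).card : ℝ) := by exact_mod_cast h4
  refine h5.trans ?_
  rcases Nat.eq_zero_or_pos (cyF (n + 1)).card with h6 | h6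
  · rw [card_eq_zero.1 h6]
    simp
  · have h7 : (0 : ℝ) < ((cyF (n + 1)).card : ℝ) := by exact_mod_cast h6
    rwa [div_le_iff₀ h7] at h3

/-! ### 2. at any place -/

/-- the distance of two cyclic vertices -/
noncomputable def gap (t : List Bool) (a b : ℕ) : ℝ := ‖JJ (POL.pv t a) - JJ (POL.pv t b)‖

lemma gap_symm (t : List Bool) (a b : ℕ) : gap t a b = gap t b a := norm_sub_rev _ _

lemma gap_per {t : List Bool} {N : ℕ} (ht : t ∈ POL.Cy N) (a b : ℕ) : gap t (N + a) b = gap t a b := by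
  have h1 := POL.pv_per (POL.Cy.clo ht) a
  rw [ht.1] at h1
  unfold gap
  rw [h1]

lemma pv_congr {t : List Bool} {N : ℕ} (ht : t ∈ POL.Cy N) {a a' : ℕ} (h : a % N = a' % N) : POL.pv t a = POL.pv t a' := by
  have hc := POL.Cy.clo ht
  have h1 := POL.pv_mod hc a
  have h2 := POL.pv_mod hc a'
  rw [ht.1] at h1 h2
  rw [h1, h2, h]

/-- **the vertices of a rotation** -/
lemma rot_gap {t : List Bool} {N : ℕ} (ht : t ∈ POL.Cy N) (u : ℕ) {i j : ℕ} (hi : i ≤ N + 1) (hj : j ≤ N + 1) :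
    ‖JJ (vx oo up (t.rotate u) i) - JJ (vx oo up (t.rotate u) j)‖ = gap t (u + i) (u + j) := by
  have hl := ht.1
  rw [POL.rot_vx (by rw [hl]; exact hi), POL.rot_vx (by rw [hl]; exact hj)]
  unfold gap
  rw [← NTF.JJ_sub, ← NTF.JJ_sub, ← mulE_sub', JJ_mulN (POL.nrm_rotTo_pd t u)]
  congr 2
  abel

/-- the number of the closed words with a property after a rotation -/
lemma card_rot (N u : ℕ) (P : List Bool → Prop) :
    ((cyF N).filter fun t => P (t.rotate u)).card = ((cyF N).filter P).card := by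
  have h := sum_rot N u fun t => if P t then (1 : ℝ) else 0
  rw [card_filter, card_filter]
  have h2 : ((∑ t ∈ cyF N, if P (t.rotate u) then 1 else 0 : ℕ) : ℝ) = ((∑ t ∈ cyF N, if P t then 1 else 0 : ℕ) : ℝ) := by
    push_cast
    exact h
  exact_mod_cast h2

/-- a point is near at most one of the three roots -/
lemma one_bad {N x w : ℕ} (hN : 50 ≤ N) (hx : x < N) (hw : w = N / 12) :
    ∃ m : ℕ, ∀ k : ℕ, k < 3 → k ≠ m → w ≤ (x + N - k * (N / 3)) % N ∧ (x + N - k * (N / 3)) % N + w ≤ N - 1 := by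
  have e : ∀ k : ℕ, k < 3 → (x + N - k * (N / 3)) % N =
      if k * (N / 3) ≤ x then x - k * (N / 3) else x + N - k * (N / 3) := by
    intro k hk
    split_ifs with h
    · rw [show x + N - k * (N / 3) = x - k * (N / 3) + N by omega, Nat.add_mod_right, Nat.mod_eq_of_lt (by omega)]
    · refine Nat.mod_eq_of_lt ?_
      omega
  by_cases h0 : w ≤ x ∧ x + w ≤ N - 1
  · by_cases h1 : w ≤ (x + N - 1 * (N / 3)) % N ∧ (x + N - 1 * (N / 3)) % N + w ≤ N - 1
    · refine ⟨2, fun k hk hk2 => ?_⟩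
      obtain rfl | rfl : k = 0 ∨ k = 1 := by omega
      · rw [e 0 (by omega)]
        simpa using h0
      · exact h1
    · refine ⟨1, fun k hk hk2 => ?_⟩
      rw [e 1 (by omega)] at h1
      obtain rfl | rfl : k = 0 ∨ k = 2 := by omega
      · rw [e 0 (by omega)]
        simpa using h0
      · rw [e 2 (by omega)]
        split_ifs at h1 ⊢ <;> omega
  · refine ⟨0, fun k hk hk2 => ?_⟩
    obtain rfl | rfl : k = 1 ∨ k = 2 := by omega
    · rw [e 1 (by omega)]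
      split_ifs <;> omega
    · rw [e 2 (by omega)]
      split_ifs <;> omega

/-- **near double points of the closed words at separated times** -/
theorem cyc_dp (ε κ : ℝ) (hε : 0 < ε) (hκ : 0 < κ) : ∃ δ : ℝ, 0 < δ ∧ ∃ n0 : ℕ, ∀ n : ℕ, n0 ≤ n → Odd n →
    (((cyF (n + 1)).filter fun t => ∃ a b : ℕ, (a : ℝ) + κ * n ≤ b ∧ (b : ℝ) + κ * n ≤ a + (n + 1) ∧
      gap t a b ≤ δ * (n : ℝ) ^ (3 / 4 : ℝ)).card : ℝ) ≤ ε * ((cyF (n + 1)).card : ℝ) := by
  obtain ⟨δ, hδ, n0, h0⟩ := dp_cy (ε / 3) (1 / 16) κ (by positivity) (by norm_num) hκ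
  refine ⟨δ, hδ, max n0 100, fun n hn ho => ?_⟩
  have hn0 : n0 ≤ n := (le_max_left _ _).trans hn
  have hn1 : 100 ≤ n := (le_max_right _ _).trans hn
  obtain ⟨D, hD⟩ : ∃ D : ℝ, D = δ * (n : ℝ) ^ (3 / 4 : ℝ) := ⟨_, rfl⟩
  obtain ⟨w, hw⟩ : ∃ w : ℕ, w = (n + 1) / 12 := ⟨_, rfl⟩
  obtain ⟨d, hd⟩ : ∃ d : ℕ, d = ⌈κ * n⌉₊ := ⟨_, rfl⟩
  have h1 := h0 n hn0 ho w d (by
    have : n ≤ 16 * w := by omega
    have : (n : ℝ) ≤ 16 * w := by exact_mod_cast this
    linarith) (by rw [hd]; exact Nat.le_ceil _)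
  rw [← hD] at h1 ⊢
  have h2 : ((cyF (n + 1)).filter fun t => ∃ a b : ℕ, (a : ℝ) + κ * n ≤ b ∧ (b : ℝ) + κ * n ≤ a + (n + 1) ∧ gap t a b ≤ D) ⊆
      (range 3).biUnion fun k => (cyF (n + 1)).filter fun t => DPw n w d D (t.rotate (k * ((n + 1) / 3))) := by
    intro t ht
    obtain ⟨hc, a, b, h3, h4, h5⟩ := mem_filter.1 ht
    have hcy : t ∈ POL.Cy (n + 1) := mem_cyF.1 hc
    have hab : a + d ≤ b := by
      have : (d : ℝ) < κ * n + 1 := by
        rw [hd]
        exact Nat.ceil_lt_add_one (by positivity)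
      have h6 : (a : ℝ) + d < b + 1 := by linarith
      have h7 : a + d < b + 1 := by exact_mod_cast h6
      omega
    have hba : b + d ≤ a + (n + 1) := by
      have : (d : ℝ) < κ * n + 1 := by
        rw [hd]
        exact Nat.ceil_lt_add_one (by positivity)
      have h6 : (b : ℝ) + d < a + (n + 1) + 1 := by linarith
      have h7 : b + d < a + (n + 1) + 1 := by exact_mod_cast h6
      omega
    obtain ⟨m1, hm1⟩ := one_bad (N := n + 1) (x := a % (n + 1)) (w := w) (by omega) (Nat.mod_lt _ (by omega)) hw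
    obtain ⟨m2, hm2⟩ := one_bad (N := n + 1) (x := b % (n + 1)) (w := w) (by omega) (Nat.mod_lt _ (by omega)) hw
    obtain ⟨k, hk, hk1, hk2⟩ : ∃ k : ℕ, k < 3 ∧ k ≠ m1 ∧ k ≠ m2 := by
      by_cases e0 : 0 ≠ m1 ∧ 0 ≠ m2
      · exact ⟨0, by omega, e0⟩
      by_cases e1 : 1 ≠ m1 ∧ 1 ≠ m2
      · exact ⟨1, by omega, e1⟩
      exact ⟨2, by omega, by omega, by omega⟩
    have g1 := hm1 k hk hk1
    have g2 := hm2 k hk hk2
    obtain ⟨u, hu⟩ : ∃ u : ℕ, u = k * ((n + 1) / 3) := ⟨_, rfl⟩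
    rw [← hu] at g1 g2
    have hu2 : u ≤ n + 1 := by
      rw [hu]
      have : k * ((n + 1) / 3) ≤ 2 * ((n + 1) / 3) := Nat.mul_le_mul_right _ (by omega)
      omega
    obtain ⟨a', ha'⟩ : ∃ a' : ℕ, a' = (a % (n + 1) + (n + 1) - u) % (n + 1) := ⟨_, rfl⟩
    obtain ⟨b', hb'⟩ : ∃ b' : ℕ, b' = (b % (n + 1) + (n + 1) - u) % (n + 1) := ⟨_, rfl⟩
    rw [← ha'] at g1
    rw [← hb'] at g2
    have hmod : ∀ x y : ℕ, y = (x % (n + 1) + (n + 1) - u) % (n + 1) → (u + y) % (n + 1) = x % (n + 1) := by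
      intro x y hy
      rw [hy, Nat.add_mod, Nat.mod_mod, ← Nat.add_mod, show u + (x % (n + 1) + (n + 1) - u) = x % (n + 1) + (n + 1) by omega,
        Nat.add_mod_right, Nat.mod_mod]
    have ea := hmod a a' ha'
    have eb := hmod b b' hb'
    have hgap : gap t (u + a') (u + b') = gap t a b := by
      unfold gap
      rw [pv_congr hcy ea, pv_congr hcy eb]
    -- the two positions are separated
    have hsep : a' + d ≤ b' ∨ b' + d ≤ a' := by
      have h6 : (b' + a) % (n + 1) = (a' + b) % (n + 1) := by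
        have e1 : u + b' + a ≡ b + a [MOD (n + 1)] := Nat.ModEq.add_right a eb
        have e2 : u + a' + b ≡ a + b [MOD (n + 1)] := Nat.ModEq.add_right b ea
        have e3 : u + (b' + a) ≡ u + (a' + b) [MOD (n + 1)] := by
          rw [← add_assoc, ← add_assoc]
          refine e1.trans ?_
          rw [Nat.add_comm b a]
          exact e2.symm
        exact Nat.ModEq.add_left_cancel' _ e3
      have h7 : b' < n + 1 := by rw [hb']; exact Nat.mod_lt _ (by omega)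
      have h8 : a' < n + 1 := by rw [ha']; exact Nat.mod_lt _ (by omega)
      have h9 : (b' + a : ℤ) - (a' + b) ≡ 0 [ZMOD ((n + 1 : ℕ) : ℤ)] := by
        have : ((b' + a : ℕ) : ℤ) ≡ ((a' + b : ℕ) : ℤ) [ZMOD ((n + 1 : ℕ) : ℤ)] := (Int.natCast_modEq_iff).2 h6
        have h10 := this.sub_right ((a' + b : ℕ) : ℤ)
        push_cast at h10 ⊢
        simpa using h10
      obtain ⟨z, hz⟩ := Int.modEq_zero_iff_dvd.1 h9
      push_cast at hz
      have hz1 : z = 0 ∨ z = -1 := by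
        have u1 : z < 1 := by
          by_contra hc1
          push Not at hc1
          nlinarith
        have u2 : -2 < z := by
          by_contra hc1
          push Not at hc1
          nlinarith
        omega
      rcases hz1 with rfl | rfl
      · left
        omega
      · right
        omega
    refine mem_biUnion.2 ⟨k, mem_range.2 hk, mem_filter.2 ⟨hc, ?_⟩⟩
    rw [← hu]
    rcases hsep with h6 | h6
    · refine ⟨a', b', g1.1, h6, by have := g2.2; omega, ?_⟩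
      rw [rot_gap hcy u (by omega) (by omega), hgap]
      exact h5
    · refine ⟨b', a', g2.1, h6, by have := g1.2; omega, ?_⟩
      rw [rot_gap hcy u (by omega) (by omega), gap_symm, hgap]
      exact h5
  have h3 := (card_le_card h2).trans card_biUnion_le
  have h4 : ∀ k ∈ range 3, ((cyF (n + 1)).filter fun t => DPw n w d D (t.rotate (k * ((n + 1) / 3)))).card =
      ((cyF (n + 1)).filter fun t => DPw n w d D t).card := fun k _ => card_rot _ _ _
  rw [sum_congr rfl h4, sum_const, card_range, smul_eq_mul] at h3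
  have h5 : (((cyF (n + 1)).filter fun t => ∃ a b : ℕ, (a : ℝ) + κ * n ≤ b ∧ (b : ℝ) + κ * n ≤ a + (n + 1) ∧
      gap t a b ≤ D).card : ℝ) ≤ 3 * (((cyF (n + 1)).filter fun t => DPw n w d D t).card : ℝ) := by exact_mod_cast h3
  linarith

/-- **the modulus of continuity of the closed words, at any place** -/
theorem cyc_mod (ε ρ : ℝ) (hε : 0 < ε) (hρ : 0 < ρ) : ∃ κ : ℝ, 0 < κ ∧ ∃ n0 : ℕ, ∀ n : ℕ, n0 ≤ n → Odd n →
    (((cyF (n + 1)).filter fun t => ∃ a b : ℕ, a ≤ b ∧ (b : ℝ) ≤ a + κ * n ∧ ρ * (n : ℝ) ^ (3 / 4 : ℝ) ≤ gap t a b).card : ℝ) ≤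
      ε * ((cyF (n + 1)).card : ℝ) := by
  obtain ⟨c, N0, hc, h0⟩ := HexObs.PMA.cy_low
  obtain ⟨e, he⟩ : ∃ e : ℝ, e = min (ε * c / 32) (ρ / 2) := ⟨_, rfl⟩
  have he0 : 0 < e := by
    rw [he]
    positivity
  have he1 : e ≤ ε * c / 32 := he ▸ min_le_left _ _
  have he2 : e ≤ ρ / 2 := he ▸ min_le_right _ _
  obtain ⟨δ, n0, hδ, h1⟩ := HexObs.PMA.polMod HexObs.ARM.t1 e he0
  obtain ⟨κ, hκ⟩ : ∃ κ : ℝ, κ = min δ (1 / 8) := ⟨_, rfl⟩
  have hκ0 : 0 < κ := by
    rw [hκ]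
    positivity
  have hκ1 : κ ≤ δ := hκ ▸ min_le_left _ _
  have hκ2 : κ ≤ 1 / 8 := hκ ▸ min_le_right _ _
  refine ⟨κ, hκ0, max (max n0 N0) 100, fun n hn ho => ?_⟩
  have a1 : n0 ≤ n := (le_max_left _ _).trans ((le_max_left _ _).trans hn)
  have a2 : N0 ≤ n := (le_max_right _ _).trans ((le_max_left _ _).trans hn)
  have a3 : 100 ≤ n := (le_max_right _ _).trans hn
  have hnp : (0 : ℝ) < n := by
    have : 0 < n := by omega
    exact_mod_cast this
  have hpp : 0 < (n : ℝ) ^ (3 / 4 : ℝ) := Real.rpow_pos_of_pos hnp _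
  obtain ⟨S, hS⟩ : ∃ S : Set (List Bool), S = {L | ∃ x y : ℕ, x ≤ y ∧ y ≤ n ∧ (y : ℝ) ≤ x + δ * n ∧
    e * (n : ℝ) ^ (3 / 4 : ℝ) < TIW.hn (vx oo up L y - vx oo up L x)} := ⟨_, rfl⟩
  have h3 := HexObs.PMA.cy_bad (S := S) hc h0 he0.le a2 (by omega) ho (by
    rw [hS]
    exact h1 n a1)
  have h4 : 16 * e / c ≤ ε / 2 := by
    rw [div_le_iff₀ hc]
    linarith
  have h5 := HexObs.PMA.card_le (p := fun K => K.dropLast ∈ S) (e := ε / 2) (by positivity)
    (h3.trans (mul_le_mul' (ENNReal.ofReal_le_ofReal h4) le_rfl))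
  have h2 : ((cyF (n + 1)).filter fun t => ∃ a b : ℕ, a ≤ b ∧ (b : ℝ) ≤ a + κ * n ∧ ρ * (n : ℝ) ^ (3 / 4 : ℝ) ≤ gap t a b) ⊆
      (range 2).biUnion fun k => (cyF (n + 1)).filter fun t => (t.rotate (k * ((n + 1) / 2))).dropLast ∈ S := by
    intro t ht
    obtain ⟨hcf, a, b, h6, h7, h8⟩ := mem_filter.1 ht
    have hcy : t ∈ POL.Cy (n + 1) := mem_cyF.1 hcf
    -- the first point is in the first period
    obtain ⟨m, hm⟩ : ∃ m : ℕ, a = (n + 1) * m + a % (n + 1) := ⟨a / (n + 1), (Nat.div_add_mod _ _).symm⟩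
    obtain ⟨x, hx⟩ : ∃ x : ℕ, x = a % (n + 1) := ⟨_, rfl⟩
    obtain ⟨y, hy⟩ : ∃ y : ℕ, b = (n + 1) * m + y := ⟨b - (n + 1) * m, by omega⟩
    rw [← hx] at hm
    have hx1 : x < n + 1 := by rw [hx]; exact Nat.mod_lt _ (by omega)
    have hxy : x ≤ y := by omega
    have hyr : (y : ℝ) ≤ x + κ * n := by
      rw [hm, hy] at h7
      push_cast at h7
      linarith
    have hyn : y ≤ x + n / 8 + 1 := by
      have u1 : (y : ℝ) < x + (n / 8 : ℕ) + 1 + 1 := by
        have u2 : (n : ℝ) / 8 < (n / 8 : ℕ) + 1 := by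
          have u3 : n < 8 * (n / 8 + 1) := by omega
          have u4 : (n : ℝ) < 8 * ((n / 8 : ℕ) + 1) := by exact_mod_cast u3
          linarith
        have u5 : κ * n ≤ 1 / 8 * n := mul_le_mul_of_nonneg_right hκ2 hnp.le
        linarith
      have u6 : y < x + n / 8 + 1 + 1 := by exact_mod_cast u1
      omega
    have hg : gap t x y = gap t a b := by
      unfold gap
      rw [pv_congr hcy (show x % (n + 1) = a % (n + 1) by rw [hm, Nat.mul_add_mod]),
        pv_congr hcy (show y % (n + 1) = b % (n + 1) by rw [hy, Nat.mul_add_mod])]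
    rw [← hg] at h8
    have main : ∀ u i j : ℕ, i ≤ j → j ≤ n → (j : ℝ) ≤ i + κ * n → ρ * (n : ℝ) ^ (3 / 4 : ℝ) ≤ gap t (u + i) (u + j) →
        (t.rotate u).dropLast ∈ S := by
      intro u i j hij hj hjk hgg
      rw [hS]
      have htl : (t.rotate u).length = n + 1 := by rw [List.length_rotate, hcy.1]
      refine ⟨i, j, hij, hj, hjk.trans (by
        have := mul_le_mul_of_nonneg_right hκ1 hnp.le
        linarith), ?_⟩
      rw [HexObs.PMA.vx_dropLast htl (by omega), HexObs.PMA.vx_dropLast htl (by omega)]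
      rw [← rot_gap hcy u (by omega) (by omega), norm_sub_rev, ← NTF.JJ_sub] at hgg
      have u1 : e * (n : ℝ) ^ (3 / 4 : ℝ) < ρ * (n : ℝ) ^ (3 / 4 : ℝ) := mul_lt_mul_of_pos_right (by linarith) hpp
      exact (u1.trans_le hgg).trans_le (Mg.JJ_le_hn _)
    by_cases hyn2 : y ≤ n
    · refine mem_biUnion.2 ⟨0, mem_range.2 (by omega), mem_filter.2 ⟨hcf, ?_⟩⟩
      refine main _ x y hxy hyn2 hyr ?_
      rw [Nat.zero_mul, Nat.zero_add, Nat.zero_add]
      exact h8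
    · refine mem_biUnion.2 ⟨1, mem_range.2 (by omega), mem_filter.2 ⟨hcf, ?_⟩⟩
      obtain ⟨u, hu⟩ : ∃ u : ℕ, u = (n + 1) / 2 := ⟨_, rfl⟩
      rw [Nat.one_mul, ← hu]
      refine main u (x - u) (y - u) (by omega) (by omega) ?_ ?_
      · rw [Nat.cast_sub (by omega), Nat.cast_sub (by omega)]
        linarith
      · rw [Nat.add_sub_cancel' (by omega), Nat.add_sub_cancel' (by omega)]
        exact h8
  have h6 := (card_le_card h2).trans card_biUnion_le
  have h7 : ∀ k ∈ range 2, ((cyF (n + 1)).filter fun t => (t.rotate (k * ((n + 1) / 2))).dropLast ∈ S).card =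
      ((cyF (n + 1)).filter fun t => t.dropLast ∈ S).card := fun k _ => card_rot _ _ (fun t => t.dropLast ∈ S)
  rw [sum_congr rfl h7, sum_const, card_range, smul_eq_mul] at h6
  have h8 : (((cyF (n + 1)).filter fun t => ∃ a b : ℕ, a ≤ b ∧ (b : ℝ) ≤ a + κ * n ∧
      ρ * (n : ℝ) ^ (3 / 4 : ℝ) ≤ gap t a b).card : ℝ) ≤ 2 * (((cyF (n + 1)).filter fun t => t.dropLast ∈ S).card : ℝ) := by
    exact_mod_cast h6
  linarith

/-! ### 3. near self touches -/

/-- **a near self touch**: `i ≤ k ≤ j ≤ l ≤ i + N`, the vertices `i`, `j` at distance at most `d`, the vertices `k`, `l` at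
distance at least `D` from the vertex `i` -/
def NTw (N : ℕ) (t : List Bool) (d D : ℝ) : Prop := ∃ i k j l : ℕ, i ≤ k ∧ k ≤ j ∧ j ≤ l ∧ l ≤ i + N ∧ gap t i j ≤ d ∧
  D ≤ gap t i k ∧ D ≤ gap t i l

/-- **near self touches of the closed words of one length are rare** -/
theorem nt_cy (ε ρ : ℝ) (hε : 0 < ε) (hρ : 0 < ρ) : ∃ δ : ℝ, 0 < δ ∧ ∃ n0 : ℕ, ∀ n : ℕ, n0 ≤ n → Odd n →
    (((cyF (n + 1)).filter fun t => NTw (n + 1) t (δ * (n : ℝ) ^ (3 / 4 : ℝ)) (ρ * (n : ℝ) ^ (3 / 4 : ℝ))).card : ℝ) ≤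
      ε * ((cyF (n + 1)).card : ℝ) := by
  obtain ⟨κ, hκ, n1, h1⟩ := cyc_mod (ε / 2) ρ (by positivity) hρ
  obtain ⟨δ, hδ, n2, h2⟩ := cyc_dp (ε / 2) (κ / 2) (by positivity) (by positivity)
  obtain ⟨n3, hn3⟩ := exists_nat_ge (2 / κ)
  refine ⟨δ, hδ, max (max n1 n2) (max n3 1), fun n hn ho => ?_⟩
  have a1 : n1 ≤ n := (le_max_left _ _).trans ((le_max_left _ _).trans hn)
  have a2 : n2 ≤ n := (le_max_right _ _).trans ((le_max_left _ _).trans hn)
  have a3 : n3 ≤ n := (le_max_left _ _).trans ((le_max_right _ _).trans hn)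
  have hκn : 2 ≤ κ * n := by
    have u1 : 2 / κ ≤ n := hn3.trans (by exact_mod_cast a3)
    rwa [div_le_iff₀' hκ] at u1
  have h3 : ((cyF (n + 1)).filter fun t => NTw (n + 1) t (δ * (n : ℝ) ^ (3 / 4 : ℝ)) (ρ * (n : ℝ) ^ (3 / 4 : ℝ))) ⊆
      ((cyF (n + 1)).filter fun t => ∃ a b : ℕ, a ≤ b ∧ (b : ℝ) ≤ a + κ * n ∧ ρ * (n : ℝ) ^ (3 / 4 : ℝ) ≤ gap t a b) ∪
      ((cyF (n + 1)).filter fun t => ∃ a b : ℕ, (a : ℝ) + κ / 2 * n ≤ b ∧ (b : ℝ) + κ / 2 * n ≤ a + (n + 1) ∧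
        gap t a b ≤ δ * (n : ℝ) ^ (3 / 4 : ℝ)) := by
    intro t ht
    obtain ⟨hc, i, k, j, l, b1, b2, b3, b4, b5, b6, b7⟩ := mem_filter.1 ht
    have hcy : t ∈ POL.Cy (n + 1) := mem_cyF.1 hc
    rw [mem_union]
    have hkj : (k : ℝ) ≤ j := by exact_mod_cast b2
    have hjl : (j : ℝ) ≤ l := by exact_mod_cast b3
    rcases lt_or_ge (j : ℝ) (i + κ * n) with c1 | c1
    · exact Or.inl (mem_filter.2 ⟨hc, i, k, b1, by linarith, b6⟩)
    rcases lt_or_ge ((i : ℝ) + (n + 1)) (j + κ * n) with c2 | c2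
    · refine Or.inl (mem_filter.2 ⟨hc, l, i + (n + 1), b4, ?_, ?_⟩)
      · push_cast
        linarith
      · rw [gap_symm, Nat.add_comm i, gap_per hcy]
        exact b7
    · refine Or.inr (mem_filter.2 ⟨hc, i, j, ?_, ?_, b5⟩)
      · nlinarith
      · nlinarith
  have h4 : (((cyF (n + 1)).filter fun t => NTw (n + 1) t (δ * (n : ℝ) ^ (3 / 4 : ℝ)) (ρ * (n : ℝ) ^ (3 / 4 : ℝ))).card : ℝ) ≤
      (((cyF (n + 1)).filter fun t => ∃ a b : ℕ, a ≤ b ∧ (b : ℝ) ≤ a + κ * n ∧ ρ * (n : ℝ) ^ (3 / 4 : ℝ) ≤ gap t a b).card : ℝ) +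
      (((cyF (n + 1)).filter fun t => ∃ a b : ℕ, (a : ℝ) + κ / 2 * n ≤ b ∧ (b : ℝ) + κ / 2 * n ≤ a + (n + 1) ∧
        gap t a b ≤ δ * (n : ℝ) ^ (3 / 4 : ℝ)).card : ℝ) := by
    exact_mod_cast (card_le_card h3).trans (card_union_le _ _)
  have h5 := h1 n a1 ho
  have h6 := h2 n a2 ho
  linarith

end Pool.Agent.ROT.N
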