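import Pool.Agent.PMA.H7G
import Pool.Agent.TSW.All

/-!
# ROT, row PWIN (helper14): the turns of a uniform polygon around its root (polygon form of TwoSidedWalk (3))

`cyM N f` = the mean of `f` over the closed words with `N` letters (rooted, oriented), `Q` = the law of the two-sided walk (`QD Q`).

* **`pwin`**: for `m ≤ δ N`, every set `S` of windows of `m` turns and every position `x` of the window: the window of the uniform
  closed word is in `S` with the probability `Q (cyl a0 S)` up to `ε`, jointly with every function `f` of the closed word that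
  changes little under the rotations by `u ≤ η N` letters, off a small set of words (shape and germ are nearly independent);
* **`pwin_F`**: `f` = a Lipschitz function `F` of the curve; `pwin_lip`: `f` changes by at most `Cr u / N`; `pwin_one`: `f = 1`;
* **`tv_fun`**: from sets of windows to functions of the window.
-/

set_option autoImplicit false

open MeasureTheory Filter Topology

open scoped Classical ENNReal

namespace Pool.Agent.ROT.PWin

open HexObs hiding pos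

open Pool.Agent.NTS.Res Pool.Agent.PMA

open HexObs.PMA (denV)

open HexObs.ARM (C0)

open Pool.Agent.TSW (VW QD Den cyl hits hits_eq ind_bd exR)

/-- the window of `m` letters of a word that starts at the letter `x` -/
def wnd (m : ℕ) (K : List Bool) (x : ℕ) : Fin m → Bool := fun j => tf K (x + j)

lemma wnd_rot {m : ℕ} {K : List Bool} {u : ℕ} (h : u + m ≤ K.length) : wnd m (K.rotate u) 0 = wnd m K u := by
  funext j
  have hj := j.2
  unfold wnd tf
  rw [List.rotate_eq_drop_append_take (by omega), zero_add, List.getD_eq_getElem?_getD, List.getD_eq_getElem?_getD,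
    List.getElem?_append_left (by rw [List.length_drop]; omega), List.getElem?_drop]

lemma wnd_dropLast {m : ℕ} {K : List Bool} {u : ℕ} (h : u + m < K.length) : wnd m K.dropLast u = wnd m K u := by
  funext j
  have hj := j.2
  unfold wnd tf
  rw [List.dropLast_eq_take, List.getD_eq_getElem?_getD, List.getD_eq_getElem?_getD, List.getElem?_take, if_pos (by omega)]

/-- the windows that start at the first `h` letters -/
lemma sum_wnd {m h : ℕ} {Φ : (Fin m → Bool) → ℝ} (hΦ : ∀ x, 0 ≤ Φ x ∧ Φ x ≤ 1) {K : List Bool} (hK : h + m < K.length) :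
    |∑ u ∈ Finset.range h, Φ (wnd m (K.rotate u) 0) - VW Φ (NPR.wd K.dropLast 0 (h + m))| ≤ 1 := by
  have hdl : K.dropLast.length = K.length - 1 := List.length_dropLast
  have hlen : (NPR.wd K.dropLast 0 (h + m)).length = h + m := by
    rw [NPR.wd_len (by omega)]
    omega
  have e1 : VW Φ (NPR.wd K.dropLast 0 (h + m)) = ∑ u ∈ Finset.range (h + m), if u + m ≤ h + m then Φ (wnd m K u) else 0 := by
    unfold VW
    rw [hlen]
    refine Finset.sum_congr rfl fun u _ => ?_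
    by_cases h1 : u + m ≤ h + m
    · rw [if_pos h1, if_pos h1, ← wnd_dropLast (by omega)]
      congr 1
      funext j
      have hj := j.2
      unfold wnd NPR.wd tf
      rw [List.drop_zero, List.getD_eq_getElem?_getD, List.getD_eq_getElem?_getD, List.getElem?_take, if_pos (by omega)]
    · rw [if_neg h1, if_neg h1]
  have e2 : ∑ u ∈ Finset.range (h + m), (if u + m ≤ h + m then Φ (wnd m K u) else 0) =
      ∑ u ∈ Finset.range h, Φ (wnd m K u) + ∑ u ∈ Finset.range m, if u = 0 then Φ (wnd m K (h + u)) else 0 := by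
    rw [Finset.sum_range_add]
    congr 1
    · refine Finset.sum_congr rfl fun u hu => ?_
      rw [Finset.mem_range] at hu
      rw [if_pos (by omega)]
    · refine Finset.sum_congr rfl fun u _ => ?_
      by_cases h1 : u = 0
      · rw [if_pos h1, if_pos (by omega)]
      · rw [if_neg h1, if_neg (by omega)]
  have e3 : ∑ u ∈ Finset.range h, Φ (wnd m (K.rotate u) 0) = ∑ u ∈ Finset.range h, Φ (wnd m K u) := by
    refine Finset.sum_congr rfl fun u hu => ?_
    rw [Finset.mem_range] at hu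
    rw [wnd_rot (by omega)]
  have e4 : 0 ≤ ∑ u ∈ Finset.range m, (if u = 0 then Φ (wnd m K (h + u)) else 0) :=
    Finset.sum_nonneg fun u _ => by
      split_ifs
      · exact (hΦ _).1
      · exact le_rfl
  have e5 : ∑ u ∈ Finset.range m, (if u = 0 then Φ (wnd m K (h + u)) else 0) ≤ 1 := by
    rw [Finset.sum_ite_eq' (Finset.range m) 0 fun u => Φ (wnd m K (h + u))]
    split_ifs
    · exact (hΦ _).2
    · exact zero_le_one
  rw [e1, e2, e3, abs_le]
  constructor <;> linarith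

/-- off a small set of closed words `f` changes little when the word is rotated by at most `η N` letters -/
def Mod (N : ℕ) (ε η : ℝ) (f : List Bool → ℝ) : Prop :=
  (((cyF N).filter fun K => ∃ u : ℕ, (u : ℝ) ≤ η * N ∧ ε < |f (K.rotate u) - f K|).card : ℝ) ≤ ε * (cyF N).card

/-- **the closed words have the densities of the walks, jointly with the shape** -/
theorem pden : ∃ ρ : (m : ℕ) → ((Fin m → Bool) → ℝ) → ℝ,
    (∀ (Q : Measure (ℤ → Bool)), QD Q → ∀ (m : ℕ) (S : Set (Fin m → Bool)) (a0 : ℤ),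
      Q.real (cyl a0 S) = ρ m (fun x => if x ∈ S then 1 else 0)) ∧
    ∀ ε η1 : ℝ, 0 < ε → 0 < η1 → ∃ (δ : ℝ) (N0 : ℕ), 0 < δ ∧ ∀ N : ℕ, N0 ≤ N → Even N → 0 < (cyF N).card ∧
      ∀ m : ℕ, (m : ℝ) ≤ δ * N → ∀ Φ : (Fin m → Bool) → ℝ, (∀ x, 0 ≤ Φ x ∧ Φ x ≤ 1) →
      ∀ f : List Bool → ℝ, (∀ K, |f K| ≤ 1) → Mod N (ε / 16) η1 f →
      |cyM N (fun K => f K * Φ (wnd m K 0)) - ρ m Φ * cyM N f| ≤ ε := by
  obtain ⟨C, N1, hC, hN1, hbad⟩ := bad_count
  obtain ⟨ρ, hρ, hopen, hden⟩ := denV Pool.Agent.TSW.exR ARM.t1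
  refine ⟨ρ, fun Q hQ m S a0 => ?_, fun ε η1 hε hη1 => ?_⟩
  · refine (hQ.den m S a0).unique fun ε hε => ?_
    obtain ⟨R, hR⟩ := hopen ε hε
    filter_upwards [Filter.eventually_ge_atTop (R * (m + 1))] with n hn
    refine hR m _ (ind_bd S) n hn _ fun s => ?_
    simp only [hits_eq]
  obtain ⟨ε2, hε2⟩ : ∃ ε2 : ℝ, ε2 = ε / (20 * (C + 1)) := ⟨_, rfl⟩
  have hε2p : 0 < ε2 := by rw [hε2]; positivity
  have hε2e : 20 * (C + 1) * ε2 = ε := by
    rw [hε2]
    field_simp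
  obtain ⟨η0, hη0, hd⟩ := hden ε2 hε2p
  obtain ⟨η, hη⟩ : ∃ η : ℝ, η = min (min η0 η1) 1 / 2 := ⟨_, rfl⟩
  have hηp : 0 < η := by
    rw [hη]
    have : 0 < min (min η0 η1) 1 := lt_min (lt_min hη0 hη1) one_pos
    linarith
  have hη1' : 2 * η ≤ η0 := by
    rw [hη]
    have := (min_le_left (min η0 η1) 1).trans (min_le_left _ _)
    linarith
  have hη2 : 2 * η ≤ η1 := by
    rw [hη]
    have := (min_le_left (min η0 η1) 1).trans (min_le_right _ _)
    linarith
  have hη3 : 2 * η ≤ 1 := by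
    rw [hη]
    have := min_le_right (min η0 η1) 1
    linarith
  obtain ⟨e, he⟩ : ∃ e : ℝ, e = ε * η / 8 := ⟨_, rfl⟩
  have hep : 0 < e := by rw [he]; positivity
  obtain ⟨R, hR⟩ := hd e hep
  obtain ⟨δ, hδ⟩ : ∃ δ : ℝ, δ = min (ε * η / 64) (min (η / 16) (1 / (32 * ((R : ℝ) + 1)))) := ⟨_, rfl⟩
  have hδp : 0 < δ := by
    rw [hδ]
    exact lt_min (by positivity) (lt_min (by positivity) (by positivity))
  have hδa : δ ≤ ε * η / 64 := by rw [hδ]; exact min_le_left _ _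
  have hδb : δ ≤ η / 16 := by rw [hδ]; exact (min_le_right _ _).trans (min_le_left _ _)
  have hδc : δ ≤ 1 / (32 * ((R : ℝ) + 1)) := by rw [hδ]; exact (min_le_right _ _).trans (min_le_right _ _)
  -- the size
  obtain ⟨M1, hM1⟩ := exists_nat_ge (8 / η)
  obtain ⟨M2, hM2⟩ := exists_nat_ge (64 / (ε * η))
  refine ⟨δ, N1 + M1 + M2 + 4 * R + 4, hδp, fun N hN hev => ?_⟩
  obtain ⟨hcard, hbad⟩ := hbad N (by omega) hev
  refine ⟨hcard, fun m hm Φ hΦ f hf1 hfr => ?_⟩
  obtain ⟨n, hnN⟩ : ∃ n, n = N - 1 := ⟨_, rfl⟩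
  have hNn : N = n + 1 := by omega
  have hn1 : 1 ≤ n := by omega
  have hnp : (0 : ℝ) < n := by exact_mod_cast hn1
  have hNr : (N : ℝ) = n + 1 := by rw [hNn]; push_cast; ring
  have hηn : 8 ≤ η * n := by
    have h1 : (M1 : ℝ) ≤ n := by exact_mod_cast (show M1 ≤ n by omega)
    have h2 := mul_le_mul_of_nonneg_left (hM1.trans h1) hηp.le
    rwa [mul_div_cancel₀ _ hηp.ne'] at h2
  have hεηn : 64 ≤ ε * η * n := by
    have h0 : 0 < ε * η := by positivity
    have h1 : (M2 : ℝ) ≤ n := by exact_mod_cast (show M2 ≤ n by omega)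
    have h2 := mul_le_mul_of_nonneg_left (hM2.trans h1) h0.le
    rwa [mul_div_cancel₀ _ h0.ne'] at h2
  have hTn : (m : ℝ) ≤ 2 * δ * n := by
    have h1 : (1 : ℝ) ≤ n := by exact_mod_cast hn1
    rw [hNr] at hm
    nlinarith
  -- the number of the rotations
  obtain ⟨h, hh⟩ : ∃ h, h = ⌊η * n⌋₊ := ⟨_, rfl⟩
  have hh1 : (h : ℝ) ≤ η * n := by rw [hh]; exact Nat.floor_le (by positivity)
  have hh2 : η * n ≤ h + 1 := by rw [hh]; exact (Nat.lt_floor_add_one _).le
  have hh3 : 0 < h := by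
    have : (0 : ℝ) < h := by linarith
    exact_mod_cast this
  have hh4 : η * n ≤ 2 * h := by linarith
  have hT1 : (m : ℝ) ≤ η * n / 8 := by
    have := mul_le_mul_of_nonneg_right hδb hnp.le
    linarith
  have hsum : (h : ℝ) + m ≤ 9 / 8 * (η * n) := by linarith
  have hηn1 : η * n ≤ η0 * n / 2 := by
    have := mul_le_mul_of_nonneg_right hη1' hnp.le
    linarith
  have hηn3 : η * n ≤ n / 2 := by
    have := mul_le_mul_of_nonneg_right hη3 hnp.le
    linarith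
  have hlen : h + m ≤ n := by
    have : ((h + m : ℕ) : ℝ) ≤ n := by
      push_cast
      linarith
    exact_mod_cast this
  have hRm : R * (m + 1) ≤ n := by
    have h1 : (R : ℝ) * m ≤ n / 8 := by
      have hR0 : (0 : ℝ) ≤ R := Nat.cast_nonneg R
      have h2 : (m : ℝ) ≤ 2 * (1 / (32 * ((R : ℝ) + 1))) * n := by
        refine hTn.trans ?_
        have := mul_le_mul_of_nonneg_right hδc hnp.le
        linarith
      calc (R : ℝ) * m ≤ ((R : ℝ) + 1) * (2 * (1 / (32 * ((R : ℝ) + 1))) * n) := by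
            refine mul_le_mul (by linarith) (by linarith) (by positivity) (by positivity)
        _ = n / 16 := by
            field_simp
            norm_num
        _ ≤ n / 8 := by linarith
    have h2 : (4 * R : ℝ) ≤ n := by exact_mod_cast (show 4 * R ≤ n by omega)
    have : ((R * (m + 1) : ℕ) : ℝ) ≤ n := by
      push_cast
      linarith
    exact_mod_cast this
  -- the exceptional sets
  obtain ⟨r, hr⟩ : ∃ r : ℝ, r = ρ m Φ := ⟨_, rfl⟩
  obtain ⟨S2, hS2⟩ : ∃ S2 : Set (List Bool), S2 = {L | L ∈ C0 n ∧ ∃ x y : ℕ, x ≤ y ∧ (y : ℝ) ≤ η0 * n ∧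
    e * n < |VW Φ (NPR.wd L x y) - r * ((y : ℝ) - x)|} := ⟨_, rfl⟩
  have g2 : gf S2 ≤ ENNReal.ofReal (ε2 * (n : ℝ) ^ (-(3 / 2) : ℝ)) := by
    rw [hS2, hr]
    exact hR m Φ hΦ n hRm
  rw [hnN] at g2
  have c2 := hbad S2 ε2 hε2p.le g2
  rw [← hnN] at g2
  have hρ2 := hρ m Φ hΦ
  rw [← hr] at hρ2
  rw [← hr]
  have hC0 : ∀ K ∈ cyF N, K.dropLast ∈ C0 n := by
    intro K hK
    have hK' := mem_cyF.1 hK
    have hne : K ≠ [] := by
      rintro rfl
      have := hK'.1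
      simp at this
      omega
    refine ⟨K.getLast hne, ?_⟩
    rw [List.dropLast_append_getLast hne, ← hNn]
    exact hK'
  -- the average
  unfold Mod at hfr
  obtain ⟨P1, hP1⟩ : ∃ P1 : List Bool → Prop, ∀ K, P1 K ↔ ∃ u : ℕ, (u : ℝ) ≤ η1 * N ∧ ε / 16 < |f (K.rotate u) - f K| :=
    ⟨_, fun _ => Iff.rfl⟩
  have hfr' : (((cyF N).filter P1).card : ℝ) ≤ ε / 16 * (cyF N).card := by
    have e : (cyF N).filter P1 = (cyF N).filter fun K => ∃ u : ℕ, (u : ℝ) ≤ η1 * N ∧ ε / 16 < |f (K.rotate u) - f K| :=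
      Finset.filter_congr fun K _ => hP1 K
    rw [e]
    exact hfr
  obtain ⟨P, hPe⟩ : ∃ P : List Bool → Prop, ∀ K, P K ↔ (P1 K ∨ K.dropLast ∈ S2) := ⟨_, fun _ => Iff.rfl⟩
  have key := avg_lem (cyF N) P f (fun K => Φ (wnd m K 0))
    (fun p K => K.rotate p) (fun p g => sum_rot N p g) hh3 hf1 (fun K => hΦ _) hρ2
    (a := ε / 16) (b := ε / 2) (by positivity) (by positivity) ?_ ?_
  · have c3 : (((cyF N).filter P).card : ℝ) ≤ (ε / 16 + C * ε2) * (cyF N).card := by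
      have hsub : (cyF N).filter P ⊆ (cyF N).filter P1 ∪ (cyF N).filter fun K => K.dropLast ∈ S2 := by
        intro K hK
        rw [Finset.mem_filter, hPe] at hK
        rw [Finset.mem_union, Finset.mem_filter, Finset.mem_filter]
        tauto
      have h1 := (Finset.card_le_card hsub).trans (Finset.card_union_le _ _)
      have h2 : (((cyF N).filter P).card : ℝ) ≤
        (((cyF N).filter P1).card : ℝ) + ((cyF N).filter fun K => K.dropLast ∈ S2).card := by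
        exact_mod_cast h1
      linarith
    have hcr : (0 : ℝ) < (cyF N).card := by exact_mod_cast hcard
    have e1 : cyM N (fun K => f K * Φ (wnd m K 0)) - r * cyM N f =
        (∑ K ∈ cyF N, f K * Φ (wnd m K 0) - r * ∑ K ∈ cyF N, f K) / (cyF N).card := by
      unfold cyM
      rw [sub_div, mul_div_assoc]
    rw [e1, abs_div, abs_of_pos hcr, div_le_iff₀ hcr]
    refine key.trans ?_
    calc (ε / 16 + ε / 2) * ((cyF N).card : ℝ) + 3 * (((cyF N).filter P).card : ℝ)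
        ≤ (ε / 16 + ε / 2) * ((cyF N).card : ℝ) + 3 * ((ε / 16 + C * ε2) * (cyF N).card) := by
          linarith
      _ = (ε / 16 + ε / 2 + 3 * (ε / 16 + C * ε2)) * (cyF N).card := by ring
      _ ≤ ε * (cyF N).card := by
          refine mul_le_mul_of_nonneg_right ?_ hcr.le
          have : 0 ≤ C * ε2 := by positivity
          nlinarith
  · intro K hK hP p hp
    have hpr : (p : ℝ) ≤ h := by exact_mod_cast hp.le
    rw [hPe, not_or] at hP
    by_contra hcon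
    refine hP.1 ?_
    rw [hP1]
    refine ⟨p, ?_, not_le.1 hcon⟩
    rw [hNr]
    have h3 := mul_le_mul_of_nonneg_right hη2 hnp.le
    nlinarith
  · intro K hK hP
    rw [hPe, not_or] at hP
    have hK' := mem_cyF.1 hK
    have hKl : K.length = N := hK'.1
    have h0 := sum_wnd (h := h) hΦ (K := K) (by omega)
    have h1 : |VW Φ (NPR.wd K.dropLast 0 (h + m)) - r * (((h + m : ℕ) : ℝ) - (0 : ℕ))| ≤ e * n := by
      by_contra hcon
      refine hP.2 ?_
      rw [hS2]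
      refine ⟨hC0 K hK, 0, h + m, Nat.zero_le _, ?_, not_le.1 hcon⟩
      push_cast
      linarith
    push_cast at h1
    rw [sub_zero] at h1
    have h2 : ∑ u ∈ Finset.range h, Φ (wnd m (K.rotate u) 0) - r * h =
        (∑ u ∈ Finset.range h, Φ (wnd m (K.rotate u) 0) - VW Φ (NPR.wd K.dropLast 0 (h + m))) +
        ((VW Φ (NPR.wd K.dropLast 0 (h + m)) - r * ((h : ℝ) + m)) + r * m) := by ring
    rw [h2]
    have h3 : |r * (m : ℝ)| ≤ 2 * m := by
      rw [abs_mul, abs_of_nonneg hρ2.1, abs_of_nonneg (Nat.cast_nonneg _)]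
      exact mul_le_mul_of_nonneg_right hρ2.2 (Nat.cast_nonneg _)
    have h4 := abs_add_le (VW Φ (NPR.wd K.dropLast 0 (h + m)) - r * ((h : ℝ) + m)) (r * m)
    have h4' := abs_add_le (∑ u ∈ Finset.range h, Φ (wnd m (K.rotate u) 0) - VW Φ (NPR.wd K.dropLast 0 (h + m)))
      ((VW Φ (NPR.wd K.dropLast 0 (h + m)) - r * ((h : ℝ) + m)) + r * m)
    have h5 : e * n ≤ ε / 4 * h := by
      rw [he]
      have := mul_le_mul_of_nonneg_left hh4 (show 0 ≤ ε / 8 by positivity)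
      linarith
    have h6 : 2 * (m : ℝ) ≤ ε / 8 * h := by
      have k1 := mul_le_mul_of_nonneg_right hδa hnp.le
      have k2 := mul_le_mul_of_nonneg_left hh4 (show 0 ≤ ε / 16 by positivity)
      linarith
    have h7 : 1 ≤ ε / 8 * h := by
      have k2 := mul_le_mul_of_nonneg_left hh4 (show 0 ≤ ε / 16 by positivity)
      linarith
    linarith

/-! ### Positions, functions -/

lemma rot_back {N : ℕ} {K : List Bool} (hK : K ∈ cyF N) (hN : 1 ≤ N) (x : ℕ) : (K.rotate ((N - 1) * x)).rotate x = K := by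
  have hl : K.length = N := (mem_cyF.1 hK).1
  have e : (N - 1) * x + x = K.length * x := by
    rw [hl]
    obtain ⟨M, rfl⟩ : ∃ M, N = M + 1 := ⟨N - 1, by omega⟩
    rw [Nat.add_sub_cancel]
    ring
  rw [List.rotate_rotate, e, List.rotate_length_mul]

lemma rot_back' {N : ℕ} {K : List Bool} (hK : K ∈ cyF N) (hN : 1 ≤ N) (x : ℕ) : (K.rotate x).rotate ((N - 1) * x) = K := by
  have hl : K.length = N := (mem_cyF.1 hK).1
  have e : x + (N - 1) * x = K.length * x := by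
    rw [hl]
    obtain ⟨M, rfl⟩ : ∃ M, N = M + 1 := ⟨N - 1, by omega⟩
    rw [Nat.add_sub_cancel]
    ring
  rw [List.rotate_rotate, e, List.rotate_length_mul]

lemma mod_rot {N : ℕ} {ε η : ℝ} {f : List Bool → ℝ} (h : Mod N ε η f) (y : ℕ) : Mod N ε η fun K => f (K.rotate y) := by
  unfold Mod at h ⊢
  refine le_trans (le_of_eq ?_) h
  have e1 := sum_rot N y fun K => if ∃ u : ℕ, (u : ℝ) ≤ η * N ∧ ε < |f (K.rotate u) - f K| then (1 : ℝ) else 0
  rw [Finset.card_filter, Finset.card_filter]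
  push_cast
  rw [← e1]
  refine Finset.sum_congr rfl fun K _ => ?_
  have e2 : ∀ u : ℕ, (K.rotate y).rotate u = (K.rotate u).rotate y := fun u => by
    rw [List.rotate_rotate, List.rotate_rotate, add_comm]
  simp only [e2]

lemma cyM_pos {N : ℕ} (hN : 1 ≤ N) (x : ℕ) (f φ : List Bool → ℝ) :
    cyM N (fun K => f K * φ (K.rotate x)) = cyM N fun K => f (K.rotate ((N - 1) * x)) * φ K := by
  unfold cyM
  rw [← sum_rot N ((N - 1) * x) fun K => f K * φ (K.rotate x)]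
  congr 1
  refine Finset.sum_congr rfl fun K hK => ?_
  rw [rot_back hK hN x]

lemma cyM_rot (N y : ℕ) (f : List Bool → ℝ) : cyM N (fun K => f (K.rotate y)) = cyM N f := by
  unfold cyM
  rw [sum_rot N y f]

variable {Q : Measure (ℤ → Bool)}

/-- **the window of the uniform polygon and its shape**: sets of windows, any position -/
theorem pwin (hQ : QD Q) : ∀ ε η : ℝ, 0 < ε → 0 < η → ∃ (δ : ℝ) (N0 : ℕ), 0 < δ ∧ ∀ N : ℕ, N0 ≤ N → Even N →
    0 < (cyF N).card ∧ ∀ m : ℕ, (m : ℝ) ≤ δ * N → ∀ (S : Set (Fin m → Bool)) (a0 : ℤ) (x : ℕ),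
      ∀ f : List Bool → ℝ, (∀ K, |f K| ≤ 1) → Mod N (ε / 16) η f →
      |cyM N (fun K => f K * if wnd m (K.rotate x) 0 ∈ S then 1 else 0) - Q.real (cyl a0 S) * cyM N f| ≤ ε := by
  obtain ⟨ρ, h1, h2⟩ := pden
  intro ε η hε hη
  obtain ⟨δ, N0, hδ, h⟩ := h2 ε η hε hη
  refine ⟨δ, N0 + 1, hδ, fun N hN he => ?_⟩
  obtain ⟨hc, h⟩ := h N (by omega) he
  refine ⟨hc, fun m hm S a0 x f hf hfr => ?_⟩
  have h3 := h m hm (fun w => if w ∈ S then 1 else 0) (ind_bd S) (fun K => f (K.rotate ((N - 1) * x))) (fun K => hf _)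
    (mod_rot hfr _)
  rw [cyM_rot, ← h1 Q hQ m S a0] at h3
  rw [cyM_pos (by omega) x f fun K => if wnd m K 0 ∈ S then (1 : ℝ) else 0]
  exact h3

lemma mod_const (N : ℕ) {ε η : ℝ} (hε : 0 ≤ ε) (c : ℝ) : Mod N ε η fun _ => c := by
  unfold Mod
  have h1 : ((cyF N).filter fun K => ∃ u : ℕ, (u : ℝ) ≤ η * N ∧ ε < |c - c|) = ∅ := by
    refine Finset.filter_eq_empty_iff.2 fun K _ => ?_
    rintro ⟨u, -, h⟩
    rw [sub_self, abs_zero] at h
    linarith
  rw [h1, Finset.card_empty]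
  push_cast
  positivity

lemma mod_lip {N : ℕ} (hN : 1 ≤ N) {ε η Cr : ℝ} (hε : 0 ≤ ε) (hη : Cr * η ≤ ε) (hCr : 0 ≤ Cr) (hη1 : η < 1) {f : List Bool → ℝ}
    (hf : ∀ K ∈ cyF N, ∀ u : ℕ, u < N → |f (K.rotate u) - f K| ≤ Cr * (u / N)) : Mod N ε η f := by
  unfold Mod
  have hN0 : (0 : ℝ) < N := by exact_mod_cast hN
  have h1 : ((cyF N).filter fun K => ∃ u : ℕ, (u : ℝ) ≤ η * N ∧ ε < |f (K.rotate u) - f K|) = ∅ := by
    refine Finset.filter_eq_empty_iff.2 fun K hK => ?_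
    rintro ⟨u, hu, h⟩
    have hu1 : u < N := by
      have h2 : η * (N : ℝ) < 1 * N := mul_lt_mul_of_pos_right hη1 hN0
      have h3 : (u : ℝ) < N := by linarith
      exact_mod_cast h3
    have h2 := hf K hK u hu1
    have h3 : (u : ℝ) / N ≤ η := by rwa [div_le_iff₀ hN0]
    have h4 := mul_le_mul_of_nonneg_left h3 hCr
    linarith
  rw [h1, Finset.card_empty]
  push_cast
  positivity

/-- `f` changes by at most `Cr u / N` -/
theorem pwin_lip (hQ : QD Q) : ∀ ε Cr : ℝ, 0 < ε → 0 < Cr → ∃ (δ : ℝ) (N0 : ℕ), 0 < δ ∧ ∀ N : ℕ, N0 ≤ N → Even N →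
    0 < (cyF N).card ∧ ∀ m : ℕ, (m : ℝ) ≤ δ * N → ∀ (S : Set (Fin m → Bool)) (a0 : ℤ) (x : ℕ),
      ∀ f : List Bool → ℝ, (∀ K, |f K| ≤ 1) → (∀ K ∈ cyF N, ∀ u : ℕ, u < N → |f (K.rotate u) - f K| ≤ Cr * (u / N)) →
      |cyM N (fun K => f K * if wnd m (K.rotate x) 0 ∈ S then 1 else 0) - Q.real (cyl a0 S) * cyM N f| ≤ ε := by
  intro ε Cr hε hCr
  obtain ⟨η, hη⟩ : ∃ η : ℝ, η = min (1 / 2) (ε / 16 / Cr) := ⟨_, rfl⟩
  have h0 : 0 < η := by
    rw [hη]
    positivity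
  have h1 : η ≤ 1 / 2 := hη ▸ min_le_left _ _
  have h2 : Cr * η ≤ ε / 16 := by
    have : η ≤ ε / 16 / Cr := hη ▸ min_le_right _ _
    rw [le_div_iff₀ hCr] at this
    linarith
  obtain ⟨δ, N0, hδ, h⟩ := pwin hQ ε η hε h0
  refine ⟨δ, N0 + 1, hδ, fun N hN he => ?_⟩
  obtain ⟨hc, h⟩ := h N (by omega) he
  exact ⟨hc, fun m hm S a0 x f hf hfr => h m hm S a0 x f hf
    (mod_lip (by omega) (by positivity) h2 hCr.le (by linarith) hfr)⟩

/-- **the window of the uniform polygon at any position**: total variation -/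
theorem pwin_one (hQ : QD Q) : ∀ ε : ℝ, 0 < ε → ∃ (δ : ℝ) (N0 : ℕ), 0 < δ ∧ ∀ N : ℕ, N0 ≤ N → Even N →
    0 < (cyF N).card ∧ ∀ m : ℕ, (m : ℝ) ≤ δ * N → ∀ (S : Set (Fin m → Bool)) (a0 : ℤ) (x : ℕ),
      |(((cyF N).filter fun K => wnd m (K.rotate x) 0 ∈ S).card : ℝ) / ((cyF N).card : ℝ) - Q.real (cyl a0 S)| ≤ ε := by
  intro ε hε
  obtain ⟨δ, N0, hδ, h⟩ := pwin hQ ε 1 hε one_pos
  refine ⟨δ, N0, hδ, fun N hN he => ?_⟩
  obtain ⟨hc, h⟩ := h N hN he
  refine ⟨hc, fun m hm S a0 x => ?_⟩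
  have hcr : (0 : ℝ) < (cyF N).card := by exact_mod_cast hc
  have h1 := h m hm S a0 x (fun _ => 1) (fun _ => by rw [abs_one]) (mod_const N (by positivity) 1)
  have e1 : cyM N (fun _ => (1 : ℝ)) = 1 := by
    unfold cyM
    rw [Finset.sum_const, nsmul_eq_mul, mul_one, div_self hcr.ne']
  have e2 : cyM N (fun K => 1 * if wnd m (K.rotate x) 0 ∈ S then (1 : ℝ) else 0) =
      (((cyF N).filter fun K => wnd m (K.rotate x) 0 ∈ S).card : ℝ) / ((cyF N).card : ℝ) := by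
    unfold cyM
    rw [Finset.card_filter]
    push_cast
    simp only [one_mul]
  rw [e1, e2, mul_one] at h1
  exact h1

/-- **the window and the curve of the uniform polygon** -/
theorem mod_F : ∀ ε : ℝ, 0 < ε → ∃ (η : ℝ) (N0 : ℕ), 0 < η ∧ ∀ N : ℕ, N0 ≤ N → Even N →
    ∀ F : C(unitInterval, ℂ) → ℝ, LipschitzWith 1 F → (∀ γ, F (-γ) = F γ) → Mod N ε η (f3 F (N - 1)) := by
  obtain ⟨C, N1, hC, hN1, hbad⟩ := bad_count
  intro ε hε
  obtain ⟨ε2, hε2⟩ : ∃ ε2 : ℝ, ε2 = ε / (7 * (C + 1)) := ⟨_, rfl⟩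
  have hε2p : 0 < ε2 := by rw [hε2]; positivity
  have hε2e : 7 * (C + 1) * ε2 = ε := by
    rw [hε2]
    field_simp
  have h7 : 7 * ε2 ≤ ε := by
    have : 0 < C * ε2 := by positivity
    linarith
  have hCe : C * ε2 ≤ ε := by
    have : 0 < C * ε2 := by positivity
    linarith
  obtain ⟨δ1, n1, hδ1, hmod⟩ := HexObs.PMA.polMod ARM.t1 ε2 hε2p
  have hlim : Tendsto (fun n : ℕ => NTSF.Mg.nr n) atTop atTop := by
    have := (tendsto_rpow_atTop (show (0 : ℝ) < 3 / 4 by norm_num)).comp tendsto_natCast_atTop_atTop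
    exact this
  obtain ⟨M0, hM0⟩ := (tendsto_atTop.1 hlim (14 / ε2)).exists_forall_of_atTop
  obtain ⟨M1, hM1⟩ := exists_nat_ge (4 / δ1)
  refine ⟨min (δ1 / 4) (1 / 2), N1 + n1 + M0 + M1 + 4, by positivity, fun N hN hev F hFL hFe => ?_⟩
  obtain ⟨hcard, hbad⟩ := hbad N (by omega) hev
  obtain ⟨n, hnN⟩ : ∃ n, n = N - 1 := ⟨_, rfl⟩
  have hNn : N = n + 1 := by omega
  have hn1 : 1 ≤ n := by omega
  have hnp : (0 : ℝ) < n := by exact_mod_cast hn1
  have hn1r : (1 : ℝ) ≤ n := by exact_mod_cast hn1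
  have hNr : (N : ℝ) = n + 1 := by rw [hNn]; push_cast; ring
  have hnr : 14 / ε2 ≤ NTSF.Mg.nr n := hM0 n (by omega)
  have hnrp := NTSF.Mg.nr_pos hn1
  have hδn : 4 ≤ δ1 * n := by
    have h1 : (M1 : ℝ) ≤ n := by exact_mod_cast (show M1 ≤ n by omega)
    have h2 := mul_le_mul_of_nonneg_left (hM1.trans h1) hδ1.le
    rwa [mul_div_cancel₀ _ hδ1.ne'] at h2
  obtain ⟨S1, hS1⟩ : ∃ S1 : Set (List Bool), S1 = {L | L ∈ C0 n ∧ ∃ x y : ℕ, x ≤ y ∧ y ≤ n ∧ (y : ℝ) ≤ x + δ1 * n ∧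
    ε2 * (n : ℝ) ^ (3 / 4 : ℝ) < HexObs.TIW.hn (vx oo up L y - vx oo up L x)} := ⟨_, rfl⟩
  have g1 : gf S1 ≤ ENNReal.ofReal (ε2 * (n : ℝ) ^ (-(3 / 2) : ℝ)) := by
    rw [hS1]
    exact hmod n (by omega)
  rw [hnN] at g1
  have c1 := hbad S1 ε2 hε2p.le g1
  have hC0 : ∀ K ∈ cyF N, K.dropLast ∈ C0 n := by
    intro K hK
    have hK' := mem_cyF.1 hK
    have hne : K ≠ [] := by
      rintro rfl
      have := hK'.1
      simp at this
      omega
    refine ⟨K.getLast hne, ?_⟩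
    rw [List.dropLast_append_getLast hne, ← hNn]
    exact hK'
  unfold Mod
  have hsub : ((cyF N).filter fun K => ∃ u : ℕ, (u : ℝ) ≤ min (δ1 / 4) (1 / 2) * N ∧
      ε < |f3 F (N - 1) (K.rotate u) - f3 F (N - 1) K|) ⊆ (cyF N).filter fun K => K.dropLast ∈ S1 := by
    intro K hK
    rw [Finset.mem_filter] at hK ⊢
    obtain ⟨hK, u, hu, hgt⟩ := hK
    refine ⟨hK, ?_⟩
    by_contra hcon
    have hK' := mem_cyF.1 hK
    have hmodK : ∀ x y : ℕ, x ≤ y → y ≤ N - 1 → (y : ℝ) ≤ x + δ1 * ((N - 1 : ℕ) : ℝ) →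
        (HexObs.TIW.hn (vx oo up K.dropLast y - vx oo up K.dropLast x) : ℝ) ≤ ε2 * NTSF.Mg.nr n := by
      intro x y hxy hy hyd
      rw [← hnN] at hy hyd
      by_contra hc2
      refine hcon ?_
      rw [hS1]
      exact ⟨hC0 K hK, x, y, hxy, hy, hyd, not_le.1 hc2⟩
    have hu1 : (u : ℝ) ≤ δ1 / 4 * N := hu.trans (mul_le_mul_of_nonneg_right (min_le_left _ _) (Nat.cast_nonneg _))
    have hu2 : (u : ℝ) ≤ 1 / 2 * N := hu.trans (mul_le_mul_of_nonneg_right (min_le_right _ _) (Nat.cast_nonneg _))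
    have huN : u < N := by
      have : (u : ℝ) < N := by
        rw [hNr] at hu2 ⊢
        linarith
      exact_mod_cast this
    have h2 := rot_err hFL hFe hK' (by omega) (d := δ1) (u := u) (ω := ε2 * NTSF.Mg.nr n) (by
        rw [← hnN]
        push_cast
        rw [hNr] at hu1
        nlinarith) huN (by positivity) hmodK
    rw [← hnN] at h2 hgt
    have h3 : 14 ≤ ε2 * NTSF.Mg.nr n := by
      rw [div_le_iff₀ hε2p] at hnr
      linarith
    have h4 : (14 + 6 * (ε2 * NTSF.Mg.nr n)) / NTSF.Mg.nr n ≤ ε := by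
      rw [div_le_iff₀ hnrp]
      have := mul_le_mul_of_nonneg_right h7 hnrp.le
      linarith
    linarith
  have h5 : (((cyF N).filter fun K => ∃ u : ℕ, (u : ℝ) ≤ min (δ1 / 4) (1 / 2) * N ∧
      ε < |f3 F (N - 1) (K.rotate u) - f3 F (N - 1) K|).card : ℝ) ≤ ((cyF N).filter fun K => K.dropLast ∈ S1).card := by
    exact_mod_cast Finset.card_le_card hsub
  refine h5.trans (c1.trans ?_)
  exact mul_le_mul_of_nonneg_right hCe (Nat.cast_nonneg _)

/-- **the window of the uniform polygon and its curve are nearly independent** -/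
theorem pwin_F (hQ : QD Q) : ∀ ε : ℝ, 0 < ε → ∃ (δ : ℝ) (N0 : ℕ), 0 < δ ∧ ∀ N : ℕ, N0 ≤ N → Even N →
    0 < (cyF N).card ∧ ∀ m : ℕ, (m : ℝ) ≤ δ * N → ∀ (S : Set (Fin m → Bool)) (a0 : ℤ) (x : ℕ),
      ∀ F : C(unitInterval, ℂ) → ℝ, (∀ γ, |F γ| ≤ 1) → LipschitzWith 1 F → (∀ γ, F (-γ) = F γ) →
      |cyM N (fun K => f3 F (N - 1) K * if wnd m (K.rotate x) 0 ∈ S then 1 else 0) -
        Q.real (cyl a0 S) * cyM N (f3 F (N - 1))| ≤ ε := by
  intro ε hε
  obtain ⟨η, N1, hη, h1⟩ := mod_F (ε / 16) (by positivity)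
  obtain ⟨δ, N0, hδ, h⟩ := pwin hQ ε η hε hη
  refine ⟨δ, N0 + N1, hδ, fun N hN he => ?_⟩
  obtain ⟨hc, h⟩ := h N (by omega) he
  exact ⟨hc, fun m hm S a0 x F hF hFL hFe => h m hm S a0 x _ (f3_abs hF (N - 1)) (h1 N (by omega) he F hFL hFe)⟩

/-- **from sets of windows to functions of the window** -/
theorem tv_fun {α β : Type*} [Fintype α] {T : Finset β} {c : ℝ} {f : β → ℝ} {w : β → α} {M : ℝ} {q : α → ℝ} {ε : ℝ}
    (h : ∀ S : Set α, |(∑ K ∈ T, f K * if w K ∈ S then 1 else 0) / c - (∑ x, if x ∈ S then q x else 0) * M| ≤ ε)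
    {Φ : α → ℝ} (hΦ : ∀ x, |Φ x| ≤ 1) : |(∑ K ∈ T, f K * Φ (w K)) / c - (∑ x, Φ x * q x) * M| ≤ 2 * ε := by
  obtain ⟨a, ha⟩ : ∃ a : α → ℝ, a = fun x => (∑ K ∈ T, f K * if w K = x then 1 else 0) / c - q x * M := ⟨_, rfl⟩
  have hA : ∀ Ψ : α → ℝ, (∑ K ∈ T, f K * Ψ (w K)) / c - (∑ x, Ψ x * q x) * M = ∑ x, Ψ x * a x := by
    intro Ψ
    have e1 : ∀ K, f K * Ψ (w K) = ∑ x, Ψ x * (f K * if w K = x then 1 else 0) := by
      intro K
      rw [Finset.sum_eq_single (w K)]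
      · rw [if_pos rfl]
        ring
      · intro x _ hx
        rw [if_neg (Ne.symm hx), mul_zero, mul_zero]
      · intro hx
        exact absurd (Finset.mem_univ _) hx
    rw [Finset.sum_congr rfl fun K _ => e1 K, Finset.sum_comm, Finset.sum_div, Finset.sum_mul, ← Finset.sum_sub_distrib, ha]
    refine Finset.sum_congr rfl fun x _ => ?_
    simp only
    rw [← Finset.mul_sum]
    ring
  have hS : ∀ S : Set α, |∑ x, (if x ∈ S then a x else 0)| ≤ ε := by
    intro S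
    have h1 := h S
    have h2 := hA fun x => if x ∈ S then 1 else 0
    have e2 : ∑ x, (if x ∈ S then (1 : ℝ) else 0) * q x = ∑ x, if x ∈ S then q x else 0 := by
      refine Finset.sum_congr rfl fun x _ => ?_
      split_ifs <;> simp
    have e3 : ∑ x, (if x ∈ S then (1 : ℝ) else 0) * a x = ∑ x, if x ∈ S then a x else 0 := by
      refine Finset.sum_congr rfl fun x _ => ?_
      split_ifs <;> simp
    rw [e2, e3] at h2
    rw [← h2]
    exact h1
  rw [hA]
  obtain ⟨S1, hS1⟩ : ∃ S1 : Set α, ∀ x, x ∈ S1 ↔ 0 ≤ a x := ⟨{x | 0 ≤ a x}, fun _ => Iff.rfl⟩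
  obtain ⟨S2, hS2⟩ : ∃ S2 : Set α, ∀ x, x ∈ S2 ↔ ¬ 0 ≤ a x := ⟨{x | ¬ 0 ≤ a x}, fun _ => Iff.rfl⟩
  have h1 := hS S1
  have h2 := hS S2
  have h3 : |∑ x, Φ x * a x| ≤ ∑ x, |a x| := by
    refine (Finset.abs_sum_le_sum_abs _ _).trans (Finset.sum_le_sum fun x _ => ?_)
    rw [abs_mul]
    exact mul_le_of_le_one_left (abs_nonneg _) (hΦ x)
  have h4 : ∑ x, |a x| = ∑ x, (if x ∈ S1 then a x else 0) - ∑ x, if x ∈ S2 then a x else 0 := by
    rw [← Finset.sum_sub_distrib]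
    refine Finset.sum_congr rfl fun x _ => ?_
    by_cases hx : 0 ≤ a x
    · rw [if_pos ((hS1 x).2 hx), if_neg fun h => (hS2 x).1 h hx, abs_of_nonneg hx, sub_zero]
    · rw [if_neg fun h => hx ((hS1 x).1 h), if_pos ((hS2 x).2 hx), abs_of_neg (not_le.1 hx), zero_sub]
  have h5 := (abs_le.1 h1).2
  have h6 := (abs_le.1 h2).1
  linarith

end Pool.Agent.ROT.PWin
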