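import Mathlib

/-!
# ROT: closed lattice paths, parity, and the near self touch lemma (helper11)

Square lattice `ℤ × ℤ` of vertices; the corner `(p, y)` is the lower left corner of the vertex `(p, y)`.
`v : ℕ → ℤ × ℤ` is a closed lazy nearest neighbour path of `n` steps.  `sg n v p y` is the parity of the
number of steps of the path through the line `p` (between the columns `p - 1` and `p`) at heights `≥ y`.
`par`: if `sg` is constant on the grid points of the boundary of a rectangle which contains `v 0` and not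
`v k`, then some step before `k` and some step after `k` cross the boundary in the same segment of the
grid.
-/

set_option autoImplicit false

namespace Pool.Agent.ROT.Par

open Finset

/-- the vertices -/
abbrev Pt := ℤ × ℤ

/-- the sides: `(false, p, y)` between `(p - 1, y)` and `(p, y)`, `(true, p, y)` between `(p, y - 1)` and
`(p, y)` -/
abbrev Sd := Bool × ℤ × ℤ

/-- a lazy nearest neighbour step -/
def Stp (a b : Pt) : Prop := a = b ∨ |a.1 - b.1| + |a.2 - b.2| = 1

/-- the side crossed by a step -/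
def sd (a b : Pt) : Sd := if a.2 = b.2 then (false, max a.1 b.1, a.2) else (true, a.1, max a.2 b.2)

/-- a closed lazy path -/
structure Clo (n : ℕ) (v : ℕ → Pt) : Prop where
  per : v n = v 0
  stp : ∀ i < n, Stp (v i) (v (i + 1))

/-- parity of the steps through the line `p` at heights `≥ y` -/
def sg (n : ℕ) (v : ℕ → Pt) (p y : ℤ) : ZMod 2 :=
  ∑ i ∈ range n, if v i ≠ v (i + 1) ∧ (sd (v i) (v (i + 1))).1 = false ∧ (sd (v i) (v (i + 1))).2.1 = p ∧
    y ≤ (sd (v i) (v (i + 1))).2.2 then 1 else 0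

theorem stp_cases {a b : Pt} (h : Stp a b) (ne : a ≠ b) :
    (∃ p y, sd a b = (false, p, y) ∧ ((a = (p - 1, y) ∧ b = (p, y)) ∨ (a = (p, y) ∧ b = (p - 1, y)))) ∨
    ∃ p y, sd a b = (true, p, y) ∧ ((a = (p, y - 1) ∧ b = (p, y)) ∨ (a = (p, y) ∧ b = (p, y - 1))) := by
  obtain ⟨a1, a2⟩ := a
  obtain ⟨b1, b2⟩ := b
  rcases h with h | h
  · exact absurd h ne
  · simp only at h
    by_cases e : a2 = b2
    · left
      subst e
      simp only [sub_self, abs_zero, add_zero] at h
      refine ⟨max a1 b1, a2, by simp [sd], ?_⟩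
      rcases abs_eq (by norm_num : (0 : ℤ) ≤ 1) |>.1 h with h | h
      · right
        have : max a1 b1 = a1 := max_eq_left (by omega)
        rw [this]
        exact ⟨rfl, by ext <;> simp; omega⟩
      · left
        have : max a1 b1 = b1 := max_eq_right (by omega)
        rw [this]
        exact ⟨by ext <;> simp; omega, rfl⟩
    · right
      have h2 : 1 ≤ |a2 - b2| := Int.one_le_abs (by omega)
      have h1 : |a1 - b1| = 0 := by have := abs_nonneg (a1 - b1); omega
      have e1 : a1 = b1 := by have := abs_eq_zero.1 h1; omega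
      subst e1
      have h3 : |a2 - b2| = 1 := by omega
      refine ⟨a1, max a2 b2, by simp [sd, e], ?_⟩
      rcases abs_eq (by norm_num : (0 : ℤ) ≤ 1) |>.1 h3 with h | h
      · right
        have : max a2 b2 = a2 := max_eq_left (by omega)
        rw [this]
        exact ⟨rfl, by ext <;> simp; omega⟩
      · left
        have : max a2 b2 = b2 := max_eq_right (by omega)
        rw [this]
        exact ⟨by ext <;> simp; omega, rfl⟩

theorem add_self2 (x : ZMod 2) : x + x = 0 := CharTwo.add_self_eq_zero x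

theorem tele (χ : ℕ → ZMod 2) (k : ℕ) : ∑ i ∈ range k, (χ i + χ (i + 1)) = χ 0 + χ k := by
  induction k with
  | zero => simp [add_self2]
  | succ k ih =>
    rw [sum_range_succ, ih]
    linear_combination add_self2 (χ k)

open Classical in
/-- indicator of a set along the path -/
noncomputable def ind (A : Set Pt) (a : Pt) : ZMod 2 := if a ∈ A then 1 else 0

/-- the sides of the boundary of the half strip `[x, x') × [y, ∞)` -/
theorem half_step {x x' y : ℤ} (hx : x < x') {a b : Pt} (h : Stp a b) :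
    ind {q | x ≤ q.1 ∧ q.1 < x' ∧ y ≤ q.2} a + ind {q | x ≤ q.1 ∧ q.1 < x' ∧ y ≤ q.2} b =
      (if a ≠ b ∧ (sd a b).1 = false ∧ (sd a b).2.1 = x ∧ y ≤ (sd a b).2.2 then 1 else 0) +
      (if a ≠ b ∧ (sd a b).1 = false ∧ (sd a b).2.1 = x' ∧ y ≤ (sd a b).2.2 then 1 else 0) +
      (if a ≠ b ∧ (sd a b).1 = true ∧ x ≤ (sd a b).2.1 ∧ (sd a b).2.1 < x' ∧ (sd a b).2.2 = y then 1 else 0) := by
  classical
  by_cases ne : a = b
  · subst ne
    simp [add_self2]
  rcases stp_cases h ne with ⟨p, q, e, ⟨ha, hb⟩ | ⟨ha, hb⟩⟩ | ⟨p, q, e, ⟨ha, hb⟩ | ⟨ha, hb⟩⟩ <;>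
  · rw [e]
    subst ha hb
    simp only [ne_eq, Prod.mk.injEq, ind, Set.mem_ofPred_eq, reduceCtorEq, true_and, false_and, and_false,
      if_false, add_zero, zero_add]
    split_ifs <;> first | (exfalso; omega) | decide

/-- the crossing parity of the bottom of the half strip -/
theorem sg_row {n : ℕ} {v : ℕ → Pt} (h : Clo n v) {x x' y : ℤ} (hx : x < x') :
    sg n v x y + sg n v x' y = ∑ i ∈ range n, if v i ≠ v (i + 1) ∧ (sd (v i) (v (i + 1))).1 = true ∧
      x ≤ (sd (v i) (v (i + 1))).2.1 ∧ (sd (v i) (v (i + 1))).2.1 < x' ∧ (sd (v i) (v (i + 1))).2.2 = y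
        then 1 else 0 := by
  have t := tele (fun i => ind {q : Pt | x ≤ q.1 ∧ q.1 < x' ∧ y ≤ q.2} (v i)) n
  simp only [h.per, add_self2] at t
  rw [sum_congr rfl fun i hi => half_step (y := y) hx (h.stp i (mem_range.1 hi)), sum_add_distrib,
    sum_add_distrib] at t
  rw [sg, sg]
  exact (CharTwo.add_eq_iff_eq_add.1 (by simpa using t)).trans (by simp)

/-- the rectangle of vertices -/
def Rc (x x' y y' : ℤ) : Set Pt := {q | x ≤ q.1 ∧ q.1 < x' ∧ y ≤ q.2 ∧ q.2 < y'}

/-- the step crosses the boundary of `A` -/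
def Cr (A : Set Pt) (a b : Pt) : Prop := ¬ (a ∈ A ↔ b ∈ A)

/-- the sides of the boundary of a rectangle -/
theorem rect_step {x x' y y' : ℤ} (hx : x < x') (hy : y < y') {a b : Pt} (h : Stp a b) :
    Cr (Rc x x' y y') a b ↔ a ≠ b ∧
      (((sd a b).1 = false ∧ ((sd a b).2.1 = x ∨ (sd a b).2.1 = x') ∧ y ≤ (sd a b).2.2 ∧ (sd a b).2.2 < y') ∨
       ((sd a b).1 = true ∧ ((sd a b).2.2 = y ∨ (sd a b).2.2 = y') ∧ x ≤ (sd a b).2.1 ∧ (sd a b).2.1 < x')) := by
  by_cases ne : a = b
  · subst ne
    simp [Cr]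
  rcases stp_cases h ne with ⟨p, q, e, ⟨ha, hb⟩ | ⟨ha, hb⟩⟩ | ⟨p, q, e, ⟨ha, hb⟩ | ⟨ha, hb⟩⟩ <;>
  · rw [e]
    subst ha hb
    simp only [Cr, Rc, ne_eq, Prod.mk.injEq, Set.mem_ofPred_eq, reduceCtorEq, true_and, false_and, false_or,
      or_false]
    constructor
    · intro h; omega
    · intro h; omega

/-- **the vertical segments** -/
theorem seg_v {n : ℕ} {v : ℕ → Pt} {p y1 y2 : ℤ} (hy : y1 ≤ y2) :
    (∑ i ∈ range n, if v i ≠ v (i + 1) ∧ (sd (v i) (v (i + 1))).1 = false ∧ (sd (v i) (v (i + 1))).2.1 = p ∧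
      y1 ≤ (sd (v i) (v (i + 1))).2.2 ∧ (sd (v i) (v (i + 1))).2.2 < y2 then (1 : ZMod 2) else 0) =
      sg n v p y1 + sg n v p y2 := by
  rw [sg, sg, ← sum_add_distrib]
  refine sum_congr rfl fun i _ => ?_
  by_cases h : v i ≠ v (i + 1) ∧ (sd (v i) (v (i + 1))).1 = false ∧ (sd (v i) (v (i + 1))).2.1 = p
  · obtain ⟨h1, h2, h3⟩ := h
    simp only [h1, h2, h3, ne_eq, not_false_eq_true, true_and]
    split_ifs <;> first | (exfalso; omega) | decide
  · have e1 : ∀ P : Prop, ¬ (v i ≠ v (i + 1) ∧ (sd (v i) (v (i + 1))).1 = false ∧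
        (sd (v i) (v (i + 1))).2.1 = p ∧ P) := fun P hP => h ⟨hP.1, hP.2.1, hP.2.2.1⟩
    rw [if_neg (e1 _), if_neg (e1 _), if_neg (e1 _)]
    rfl

/-- class of a side of the boundary: the segment of the grid -/
def cl (x y : ℤ) (D : ℤ) (s : Sd) : Sd := if s.1 = false then (false, s.2.1, (s.2.2 - y) / D)
  else (true, (s.2.1 - x) / D, s.2.2)

/-- **THE NEAR SELF TOUCH LEMMA.** -/
theorem par {n k : ℕ} {v : ℕ → Pt} (h : Clo n v) (hk : k ≤ n) {D : ℤ} (hD : 0 < D) {x y : ℤ} {a b : ℕ}
    (ha : 0 < a) (hb : 0 < b)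
    (hin : v 0 ∈ Rc x (x + a * D) y (y + b * D)) (hout : v k ∉ Rc x (x + a * D) y (y + b * D)) (c : ZMod 2)
    (hs : ∀ i j : ℕ, i ≤ a → j ≤ b → (i = 0 ∨ i = a ∨ j = 0 ∨ j = b) → sg n v (x + i * D) (y + j * D) = c) :
    ∃ i j : ℕ, i < k ∧ k ≤ j ∧ j < n ∧ Cr (Rc x (x + a * D) y (y + b * D)) (v i) (v (i + 1)) ∧
      Cr (Rc x (x + a * D) y (y + b * D)) (v j) (v (j + 1)) ∧
      cl x y D (sd (v i) (v (i + 1))) = cl x y D (sd (v j) (v (j + 1))) := by
  classical
  set A := Rc x (x + a * D) y (y + b * D) with hA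
  have hxa : x < x + a * D := by
    have : 0 < (a : ℤ) * D := by positivity
    omega
  have hyb : y < y + b * D := by
    have : 0 < (b : ℤ) * D := by positivity
    omega
  by_contra hno
  push Not at hno
  set T := (range k).filter fun i => Cr A (v i) (v (i + 1)) with hT
  -- the number of crossings before `k` is odd
  have odd : (T.card : ZMod 2) = 1 := by
    have t := tele (fun i => ind A (v i)) k
    have e0 : ind A (v 0) = 1 := if_pos hin
    have ek : ind A (v k) = 0 := if_neg hout
    simp only [e0, ek, add_zero] at t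
    rw [← t, hT, card_filter]
    push_cast
    refine sum_congr rfl fun i _ => ?_
    simp only [ind, Cr]
    by_cases h1 : v i ∈ A <;> by_cases h2 : v (i + 1) ∈ A <;> simp [h1, h2, add_self2]
  -- every class is crossed an even number of times
  have even : ∀ s : Sd, (∃ i < n, Cr A (v i) (v (i + 1)) ∧ cl x y D (sd (v i) (v (i + 1))) = s) →
      ((((range n).filter fun i => Cr A (v i) (v (i + 1))).filter fun i =>
        cl x y D (sd (v i) (v (i + 1))) = s).card : ZMod 2) = 0 := by
    rintro s ⟨i0, hi0, hc0, hs0⟩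
    rw [filter_filter, card_filter]
    push_cast
    have hcr := (rect_step hxa hyb (h.stp i0 hi0)).1 hc0
    obtain ⟨-, ⟨f0, l0, y0, y0'⟩ | ⟨f0, l0, x0, x0'⟩⟩ := hcr
    · -- a vertical side
      have hs1 : s = (false, (sd (v i0) (v (i0 + 1))).2.1, ((sd (v i0) (v (i0 + 1))).2.2 - y) / D) := by
        rw [← hs0, cl, if_pos f0]
      set p := (sd (v i0) (v (i0 + 1))).2.1 with hp
      set q := ((sd (v i0) (v (i0 + 1))).2.2 - y) / D with hq
      have hq0 : 0 ≤ q := Int.ediv_nonneg (by omega) hD.le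
      have hqb : q < b := Int.ediv_lt_of_lt_mul hD (by linarith)
      obtain ⟨j, hj⟩ := Int.eq_ofNat_of_zero_le hq0
      have key := seg_v (n := n) (v := v) (p := p) (y1 := y + q * D) (y2 := y + (q + 1) * D) (by nlinarith)
      have e1 : sg n v p (y + q * D) = c := by
        rcases l0 with l0 | l0
        · have := hs 0 j (by omega) (by omega) (Or.inl rfl)
          rw [l0, hj]; simpa using this
        · have := hs a j le_rfl (by omega) (Or.inr (Or.inl rfl))
          rw [l0, hj]; simpa using this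
      have e2 : sg n v p (y + (q + 1) * D) = c := by
        rcases l0 with l0 | l0
        · have := hs 0 (j + 1) (by omega) (by omega) (Or.inl rfl)
          rw [l0, hj]; simpa using this
        · have := hs a (j + 1) le_rfl (by omega) (Or.inr (Or.inl rfl))
          rw [l0, hj]; simpa using this
      rw [e1, e2, add_self2] at key
      refine Eq.trans (sum_congr rfl fun i hi => ?_) key
      refine if_congr ?_ rfl rfl
      rw [rect_step hxa hyb (h.stp i (mem_range.1 hi)), hs1, cl]
      have hdiv : ∀ z : ℤ, (z - y) / D = q ↔ y + q * D ≤ z ∧ z < y + (q + 1) * D := by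
        intro z
        rw [Int.ediv_eq_iff_of_pos hD]
        constructor <;> rintro ⟨u1, u2⟩ <;> constructor <;> linarith
      have hq1 : y ≤ y + q * D := by nlinarith
      have hq2 : y + (q + 1) * D ≤ y + b * D := by nlinarith
      constructor
      · rintro ⟨⟨hne, hh⟩, hcl⟩
        by_cases hf : (sd (v i) (v (i + 1))).1 = false
        · rw [if_pos hf] at hcl
          simp only [Prod.mk.injEq, true_and] at hcl
          have := (hdiv _).1 hcl.2
          exact ⟨hne, hf, hcl.1, this.1, this.2⟩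
        · rw [if_neg hf] at hcl
          simp at hcl
      · rintro ⟨hne, hf, hp', u1, u2⟩
        refine ⟨⟨hne, Or.inl ⟨hf, ?_, by linarith, by linarith⟩⟩, ?_⟩
        · rw [hp']; exact l0
        · rw [if_pos hf, hp', (hdiv _).2 ⟨u1, u2⟩]
    · -- a horizontal side
      have f1 : ¬ (sd (v i0) (v (i0 + 1))).1 = false := by rw [f0]; simp
      have hs1 : s = (true, ((sd (v i0) (v (i0 + 1))).2.1 - x) / D, (sd (v i0) (v (i0 + 1))).2.2) := by
        rw [← hs0, cl, if_neg f1]
      set r := (sd (v i0) (v (i0 + 1))).2.2 with hr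
      set q := ((sd (v i0) (v (i0 + 1))).2.1 - x) / D with hq
      have hq0 : 0 ≤ q := Int.ediv_nonneg (by omega) hD.le
      have hqb : q < a := Int.ediv_lt_of_lt_mul hD (by linarith)
      obtain ⟨j, hj⟩ := Int.eq_ofNat_of_zero_le hq0
      have key := sg_row h (x := x + q * D) (x' := x + (q + 1) * D) (y := r) (by nlinarith)
      have e1 : sg n v (x + q * D) r = c := by
        rcases l0 with l0 | l0
        · have := hs j 0 (by omega) (by omega) (Or.inr (Or.inr (Or.inl rfl)))
          rw [l0, hj]; simpa using this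
        · have := hs j b (by omega) le_rfl (Or.inr (Or.inr (Or.inr rfl)))
          rw [l0, hj]; simpa using this
      have e2 : sg n v (x + (q + 1) * D) r = c := by
        rcases l0 with l0 | l0
        · have := hs (j + 1) 0 (by omega) (by omega) (Or.inr (Or.inr (Or.inl rfl)))
          rw [l0, hj]; simpa using this
        · have := hs (j + 1) b (by omega) le_rfl (Or.inr (Or.inr (Or.inr rfl)))
          rw [l0, hj]; simpa using this
      rw [e1, e2, add_self2] at key
      refine Eq.trans (sum_congr rfl fun i hi => ?_) key.symm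
      refine if_congr ?_ rfl rfl
      rw [rect_step hxa hyb (h.stp i (mem_range.1 hi)), hs1, cl]
      have hdiv : ∀ z : ℤ, (z - x) / D = q ↔ x + q * D ≤ z ∧ z < x + (q + 1) * D := by
        intro z
        rw [Int.ediv_eq_iff_of_pos hD]
        constructor <;> rintro ⟨u1, u2⟩ <;> constructor <;> linarith
      have hq1 : x ≤ x + q * D := by nlinarith
      have hq2 : x + (q + 1) * D ≤ x + a * D := by nlinarith
      constructor
      · rintro ⟨⟨hne, hh⟩, hcl⟩
        by_cases hf : (sd (v i) (v (i + 1))).1 = false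
        · rw [if_pos hf] at hcl
          simp at hcl
        · rw [if_neg hf] at hcl
          simp only [Prod.mk.injEq, true_and] at hcl
          have := (hdiv _).1 hcl.1
          exact ⟨hne, by simpa using hf, this.1, this.2, hcl.2⟩
      · rintro ⟨hne, hf, u1, u2, hp'⟩
        have hf' : ¬ (sd (v i) (v (i + 1))).1 = false := by rw [hf]; simp
        refine ⟨⟨hne, Or.inr ⟨hf, ?_, by linarith, by linarith⟩⟩, ?_⟩
        · rw [hp']; exact l0
        · rw [if_neg hf', hp', (hdiv _).2 ⟨u1, u2⟩]
  -- sum over the classes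
  have hsum := card_eq_sum_card_image (fun i => cl x y D (sd (v i) (v (i + 1)))) T
  have hz : (T.card : ZMod 2) = 0 := by
    rw [hsum]
    push_cast
    refine sum_eq_zero fun s hs' => ?_
    obtain ⟨i, hi, his⟩ := mem_image.1 hs'
    rw [hT, mem_filter, mem_range] at hi
    have eq : (T.filter fun j => cl x y D (sd (v j) (v (j + 1))) = s) =
        ((range n).filter fun i => Cr A (v i) (v (i + 1))).filter fun j =>
          cl x y D (sd (v j) (v (j + 1))) = s := by
      ext j
      simp only [hT, mem_filter, mem_range]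
      constructor
      · rintro ⟨⟨h1, h2⟩, h3⟩; exact ⟨⟨by omega, h2⟩, h3⟩
      · rintro ⟨⟨h1, h2⟩, h3⟩
        refine ⟨⟨?_, h2⟩, h3⟩
        by_contra hkj
        exact hno i j hi.1 (by omega) h1 hi.2 h2 (by rw [h3]; exact his)
    rw [eq]
    exact even s ⟨i, by omega, hi.2, his⟩
  rw [hz] at odd
  exact absurd odd (by decide)
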