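import Pool.Agent.ROT.LBot

/-!
# ROT, linear response, row R6 (helper43): (LR3) for the closed words rooted at their top

From the abstract theorem `LM.lr3`, the instance `cutS`, `muT`, `res_muT` (LInst), the kernels (`H12`), the many double cut
rows (`H3`) and the masses of the windows of sizes (`Mup`, `Mlo`).

* `core` : one window of sizes;
* **`lr3w`** : the mean `c h` of a function χ of the cap does not depend on the window of sizes, and χ - c h is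
  asymptotically orthogonal to all functions of the part below the double cut rows of bounded depth.
-/

set_option autoImplicit false

open MeasureTheory Filter

open scoped ENNReal Topology

namespace HexObs

namespace ART

open Pool.Agent.ROT

/-- the states of positive depth -/
def SP (d : Pt) : Set (Pt × Pt) := {z | 1 ≤ dpt d z}

/-- the states of positive depth with depth and feet at most D -/
def SD (d : Pt) (D : ℕ) : Set (Pt × Pt) := {z | 1 ≤ dpt d z ∧ dpt d z ≤ D ∧ TIW.hn z.1 ≤ D ∧ TIW.hn z.2 ≤ D}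

/-- windows of states: shape r, level l -/
structure Wnd (d : Pt) (V : ℕ → ℕ → Finset (Pt × Pt)) : Prop where
  lo : ∀ r l, ∀ z ∈ V r l, 2 ^ l ≤ dpt d z
  up : ∀ r l, ∀ z ∈ V r l, dpt d z ≤ r * 2 ^ l
  h1 : ∀ r l, ∀ z ∈ V r l, TIW.hn z.1 ≤ (r * 2 ^ l : ℕ)
  h2 : ∀ r l, ∀ z ∈ V r l, TIW.hn z.2 ≤ (r * 2 ^ l : ℕ)

open Classical in
/-- less than x double cut rows in W -/
def few (d : Pt) (W : Finset (Pt × Pt)) (x : ℝ) (w : List Bool) : Prop :=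
  (((W.filter fun z => CutA d w z).card : ℕ) : ℝ) < x

/-- **(H3)** -/
def H3 (d : Pt) (V : ℕ → ℕ → Finset (Pt × Pt)) : Prop := ∀ ε : ℝ, 0 < ε → ∃ (r : ℕ) (κ : ℝ) (l0 : ℕ), 0 < κ ∧
  ∀ l, l0 ≤ l → ∃ h0 : ℕ, ∀ h : ℕ, h0 ≤ h →
    gf {w | w ∈ WT d ∧ h ≤ bot d w ∧ bot d w < 2 * h ∧ few d (V r l) (κ * (2 : ℝ) ^ ((l : ℝ) / 2)) w} ≤
      ENNReal.ofReal (ε / (h : ℝ) ^ 2)

/-- **(H1), (H2)** -/
def H12 (d : Pt) (hd : d ∈ dirs) (V : ℕ → ℕ → Finset (Pt × Pt)) : Prop := ∀ r J : ℕ, r < 2 ^ J →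
  ∃ (c C : ℝ) (l1 : ℕ), 0 < c ∧ 0 < C ∧ ∀ l, l1 ≤ l → ∀ g : List Bool → ℝ≥0∞, (∀ A, OutA d A g) →
    ∑' w, wm d g w ≠ ⊤ → ∃ (p q : Pt × Pt → ℝ) (k : Pt × Pt → Pt × Pt → ℝ),
      LM.Win (cutS d hd (SP d)) (muT d g) (V r l) (V r (l + J)) p q k c C ((2 : ℝ) ^ ((l : ℝ) / 2))

/-- masses, upper bound -/
def Mup (d : Pt) : Prop := ∀ a b : ℝ, 0 < a → a < b → ∃ C : ℝ, 0 < C ∧ ∀ᶠ h : ℝ in atTop,
  gf (WTw d ⌈a * h⌉₊ ⌊b * h⌋₊) ≤ ENNReal.ofReal (C / h ^ 2)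

/-- masses, lower bound -/
def Mlo (d : Pt) : Prop := ∃ a b c : ℝ, 0 < a ∧ a < b ∧ 0 < c ∧ ∀ᶠ h : ℝ in atTop,
  ENNReal.ofReal (c / h ^ 2) ≤ gf (WTw d ⌈a * h⌉₊ ⌊b * h⌋₊)

lemma NV_eq {d : Pt} (hd : d ∈ dirs) {V : Finset (Pt × Pt)} (h : ∀ z ∈ V, 1 ≤ dpt d z) (x : ℝ) (w : List Bool) :
    LM.NV (cutS d hd (SP d)) V w < x ↔ few d V x w := by
  classical
  unfold LM.NV few
  have e : ∑ z ∈ V, LM.ind ((cutS d hd (SP d)).cut w z) = (((V.filter fun z => CutA d w z).card : ℕ) : ℝ) := by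
    rw [Finset.card_filter, Nat.cast_sum]
    refine Finset.sum_congr rfl fun z hz => ?_
    have e1 : (cutS d hd (SP d)).cut w z ↔ CutA d w z := ⟨fun h' => h'.2, fun h' => ⟨h z hz, h'⟩⟩
    rw [LM.ind_congr e1]
    by_cases hc : CutA d w z
    · rw [LM.ind_t hc, if_pos hc, Nat.cast_one]
    · rw [LM.ind_f hc, if_neg hc, Nat.cast_zero]
  rw [e]

/-- a window of sizes as a union of dyadic windows -/
lemma dy {d : Pt} {P : List Bool → Prop} {x : ℕ} {B : ℝ≥0∞}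
    (hB : ∀ h, x ≤ h → gf {w | w ∈ WT d ∧ h ≤ bot d w ∧ bot d w < 2 * h ∧ P w} ≤ B) (n : ℕ) :
    ∀ y, y < x * 2 ^ n → gf {w | w ∈ WTw d x y ∧ P w} ≤ n * B := by
  induction n with
  | zero =>
    intro y hy
    have : {w | w ∈ WTw d x y ∧ P w} = ∅ := by
      ext w
      simp only [Set.mem_setOf_eq, Set.mem_empty_iff_false, iff_false]
      rintro ⟨⟨-, h1, h2⟩, -⟩
      omega
    rw [this]
    unfold gf
    simp
  | succ n ih =>
    intro y hy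
    have hx : x ≤ x * 2 ^ n := Nat.le_mul_of_pos_right _ (Nat.pow_pos (by norm_num))
    have hcov : {w | w ∈ WTw d x y ∧ P w} ⊆ {w | w ∈ WTw d x (x * 2 ^ n - 1) ∧ P w} ∪
        {w | w ∈ WT d ∧ x * 2 ^ n ≤ bot d w ∧ bot d w < 2 * (x * 2 ^ n) ∧ P w} := by
      rintro w ⟨⟨h0, h1, h2⟩, h3⟩
      rw [pow_succ] at hy
      rcases Nat.lt_or_ge (bot d w) (x * 2 ^ n) with h4 | h4
      · exact Or.inl ⟨⟨h0, h1, by omega⟩, h3⟩
      · refine Or.inr ⟨h0, h4, ?_, h3⟩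
        have : x * (2 ^ n * 2) = 2 * (x * 2 ^ n) := by ring
        omega
    rcases Nat.eq_zero_or_pos x with h0 | h0
    · subst h0
      omega
    · have hp : 0 < x * 2 ^ n := Nat.mul_pos h0 (Nat.pow_pos (by norm_num))
      refine (gf_mono hcov).trans ((gf_union_le _ _).trans ?_)
      rw [Nat.cast_succ, add_mul, one_mul]
      exact add_le_add (ih _ (by omega)) (hB _ hx)

theorem core {d : Pt} (hd : d ∈ dirs) {V : ℕ → ℕ → Finset (Pt × Pt)} (hV : Wnd d V) (h3 : H3 d V) (h12 : H12 d hd V)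
    {a b c0 C0 : ℝ} (ha : 0 < a) (hab : a < b) (hc0 : 0 < c0) (hC0 : 0 < C0)
    (hlo : ∀ᶠ h : ℝ in atTop, ENNReal.ofReal (c0 / h ^ 2) ≤ gf (WTw d ⌈a * h⌉₊ ⌊b * h⌋₊))
    (hup : ∀ᶠ h : ℝ in atTop, gf (WTw d ⌈a * h⌉₊ ⌊b * h⌋₊) ≤ ENNReal.ofReal (C0 / h ^ 2))
    {χ : List Bool → ℝ} (χ0 : ∀ w, 0 ≤ χ w) (χ1 : ∀ w, χ w ≤ 1) (hχ : InA d (SP d) χ) {ε : ℝ} (hε : 0 < ε) :
    ∃ D0 : ℕ, ∀ᶠ h : ℝ in atTop, ∃ χb : ℝ, ∀ ψ : List Bool → ℝ, (∀ w, |ψ w| ≤ 1) → OutA d (SD d D0) ψ →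
      |∫ w, χ w * ψ w ∂(muT d (gw d ⌈a * h⌉₊ ⌊b * h⌋₊)) - χb * ∫ w, ψ w ∂(muT d (gw d ⌈a * h⌉₊ ⌊b * h⌋₊))| ≤
        ε / h ^ 2 := by
  obtain ⟨n, hn⟩ : ∃ n : ℕ, b / a < 2 ^ n := pow_unbounded_of_one_lt _ (by norm_num)
  obtain ⟨ε1, hε1⟩ : ∃ ε1, ε1 = ε / C0 := ⟨_, rfl⟩
  have he1 : 0 < ε1 := by rw [hε1]; positivity
  obtain ⟨ε', hε'⟩ : ∃ ε', ε' = ε1 * c0 * a ^ 2 / (8 * (n + 1)) := ⟨_, rfl⟩
  have he' : 0 < ε' := by rw [hε']; positivity
  obtain ⟨r, κ, l0, hκ, h3'⟩ := h3 ε' he'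
  obtain ⟨J, hJ⟩ : ∃ J, r < 2 ^ J := ⟨r, Nat.lt_two_pow_self⟩
  obtain ⟨c, C, l1, hc, hC, h12'⟩ := h12 r J hJ
  obtain ⟨s, s0, hs⟩ := LM.lr3 hc hC hκ he1
  choose! h0 hh0 using h3'
  obtain ⟨L, hL⟩ : ∃ L : ℕ → ℕ, ∀ m, L m = l0 + l1 + m * J := ⟨_, fun _ => rfl⟩
  have hLm : ∀ i j, i ≤ j → L i ≤ L j := by
    intro i j hij
    rw [hL, hL]
    have := Nat.mul_le_mul_right J hij
    omega
  have hLs : ∀ m, L (m + 1) = L m + J := by
    intro m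
    rw [hL, hL]
    ring
  obtain ⟨H, hH⟩ : ∃ H, H = (Finset.range (s + 1)).sup fun m => h0 (L m) := ⟨_, rfl⟩
  have hHm : ∀ m, m ≤ s → h0 (L m) ≤ H := by
    intro m hm
    rw [hH]
    exact Finset.le_sup (f := fun m => h0 (L m)) (Finset.mem_range.2 (by omega))
  refine ⟨r * 2 ^ L s, ?_⟩
  filter_upwards [hlo, hup, eventually_ge_atTop ((H + 1 : ℝ) / a), eventually_gt_atTop (0 : ℝ)] with h hl hu hh hp
  obtain ⟨x, hx⟩ : ∃ x, x = ⌈a * h⌉₊ := ⟨_, rfl⟩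
  obtain ⟨y, hy⟩ : ∃ y, y = ⌊b * h⌋₊ := ⟨_, rfl⟩
  rw [← hx, ← hy] at hl hu ⊢
  have hxa : a * h ≤ x := by rw [hx]; exact Nat.le_ceil _
  have hyb : (y : ℝ) ≤ b * h := by rw [hy]; exact Nat.floor_le (by have := ha.trans hab; positivity)
  have hah : (H : ℝ) + 1 ≤ a * h := by
    rw [div_le_iff₀ ha] at hh
    linarith
  have hxH : H ≤ x := by
    have : (H : ℝ) ≤ x := by linarith
    exact_mod_cast this
  have hyx : y < x * 2 ^ n := by
    have h1 : (y : ℝ) < x * 2 ^ n := by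
      calc (y : ℝ) ≤ b * h := hyb
        _ < (2 ^ n * a) * h := by
          rw [div_lt_iff₀ ha] at hn
          exact mul_lt_mul_of_pos_right hn hp
        _ = (a * h) * 2 ^ n := by ring
        _ ≤ x * 2 ^ n := by gcongr
    exact_mod_cast h1
  have hfin : gf (WTw d x y) ≠ ⊤ := ne_top_of_le_ne_top ENNReal.ofReal_ne_top hu
  have hfin' : ∑' w, wm d (gw d x y) w ≠ ⊤ := by rw [tsum_wm]; exact hfin
  haveI := fin_muT hfin'
  have hT1 : c0 / h ^ 2 ≤ (muT d (gw d x y)).real Set.univ := by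
    rw [real_univ]
    have := ENNReal.toReal_mono hfin hl
    rwa [ENNReal.toReal_ofReal (by positivity)] at this
  have hT2 : (muT d (gw d x y)).real Set.univ ≤ C0 / h ^ 2 := by
    rw [real_univ]
    have := ENNReal.toReal_mono ENNReal.ofReal_ne_top hu
    rwa [ENNReal.toReal_ofReal (by positivity)] at this
  have hx0 : (0 : ℝ) < x := lt_of_lt_of_le (by positivity) hxa
  -- few double cut rows
  have hfew : ∀ m, m ≤ s → gf {w | w ∈ WTw d x y ∧ few d (V r (L m)) (κ * (2 : ℝ) ^ ((L m : ℝ) / 2)) w} ≤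
      n * ENNReal.ofReal (ε' / (x : ℝ) ^ 2) := by
    intro m hm
    refine dy (fun h' hh' => ?_) n y hyx
    have h1 := hh0 (L m) (by rw [hL]; omega) h' (by have := hHm m hm; omega)
    refine h1.trans (ENNReal.ofReal_le_ofReal ?_)
    have : (x : ℝ) ≤ h' := by exact_mod_cast hh'
    gcongr
  have hV1 : ∀ m, ∀ z ∈ V r (L m), 1 ≤ dpt d z := fun m z hz => (Nat.one_le_two_pow).trans (hV.lo r _ z hz)
  obtain ⟨χb, -, -, hψ⟩ := hs (cutS d hd (SP d)) (muT d (gw d x y)) χ (Fz d χ) (fun m => V r (L m))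
    (res_muT hd hfin' (gw_out hd _ x y) hχ (LM.bd01 χ0 χ1)) χ0 χ1 (fun z => (Fz_mem χ0 χ1 z).1)
    (fun z => (Fz_mem χ0 χ1 z).2) (by
      intro i j hij hj u hu v hv
      have h1 := hV.up r _ u hu
      have h2 := hV.lo r _ v hv
      have h3 : r * 2 ^ L i < 2 ^ J * 2 ^ L i := Nat.mul_lt_mul_of_pos_right hJ (Nat.pow_pos (by norm_num))
      have h4 : 2 ^ J * 2 ^ L i ≤ 2 ^ L j := by
        rw [← pow_add]
        refine Nat.pow_le_pow_right (by norm_num) ?_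
        have := hLm (i + 1) j hij
        rw [hLs] at this
        omega
      exact lt_of_le_of_lt h1 (lt_of_lt_of_le (lt_of_lt_of_le h3 h4) h2)) (by
      intro m hm
      obtain ⟨p, q, k, hwin⟩ := h12' (L m) (by rw [hL]; omega) (gw d x y) (fun A => gw_out hd A x y) hfin'
      refine ⟨p, q, k, (2 : ℝ) ^ ((L m : ℝ) / 2), Real.one_le_rpow (by norm_num) (by positivity), ?_, ?_⟩
      · simp only [hLs]
        exact hwin
      · rw [int_ind hfin]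
        have hcov : {w | w ∈ WTw d x y ∧ ¬ (κ * (2 : ℝ) ^ ((L m : ℝ) / 2) ≤ LM.NV (cutS d hd (SP d)) (V r (L m)) w ∧
            ∃ z ∈ V r (L (m + 1)), (cutS d hd (SP d)).cut w z)} ⊆
            {w | w ∈ WTw d x y ∧ few d (V r (L m)) (κ * (2 : ℝ) ^ ((L m : ℝ) / 2)) w} ∪
            {w | w ∈ WTw d x y ∧ few d (V r (L (m + 1))) (κ * (2 : ℝ) ^ ((L (m + 1) : ℝ) / 2)) w} := by
          rintro w ⟨h1, h2⟩
          rw [not_and_or, not_le] at h2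
          rcases h2 with h2 | h2
          · exact Or.inl ⟨h1, (NV_eq hd (hV1 m) _ w).1 h2⟩
          · refine Or.inr ⟨h1, (NV_eq hd (hV1 (m + 1)) _ w).1 ?_⟩
            have e : LM.NV (cutS d hd (SP d)) (V r (L (m + 1))) w = 0 := by
              unfold LM.NV
              refine Finset.sum_eq_zero fun z hz => LM.ind_f fun hz' => h2 ⟨z, hz, hz'⟩
            rw [e]
            positivity
        have h1 := (gf_mono hcov).trans ((gf_union_le _ _).trans (add_le_add (hfew m hm.le) (hfew (m + 1) hm)))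
        have h2 : (n : ℝ≥0∞) * ENNReal.ofReal (ε' / (x : ℝ) ^ 2) + n * ENNReal.ofReal (ε' / (x : ℝ) ^ 2) =
            ENNReal.ofReal (2 * n * (ε' / (x : ℝ) ^ 2)) := by
          rw [mul_assoc, ENNReal.ofReal_mul (by norm_num), ENNReal.ofReal_mul (by positivity), ENNReal.ofReal_natCast,
            ENNReal.ofReal_ofNat]
          ring
        rw [h2] at h1
        have h3 := ENNReal.toReal_mono ENNReal.ofReal_ne_top h1
        rw [ENNReal.toReal_ofReal (by positivity)] at h3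
        refine h3.trans ?_
        have h4 : ε' / (x : ℝ) ^ 2 ≤ ε' / (a * h) ^ 2 := by
          have : 0 < a * h := by positivity
          gcongr
        calc 2 * n * (ε' / (x : ℝ) ^ 2) ≤ 2 * n * (ε' / (a * h) ^ 2) := by gcongr
          _ = ε1 / 4 * (c0 / h ^ 2) * (n / (n + 1)) := by
            rw [hε']
            field_simp
            ring
          _ ≤ ε1 / 4 * (c0 / h ^ 2) * 1 := by
            refine mul_le_mul_of_nonneg_left ?_ (by positivity)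
            rw [div_le_one (by positivity)]
            linarith
          _ ≤ ε1 / 4 * (muT d (gw d x y)).real Set.univ := by
            rw [mul_one]
            gcongr)
  refine ⟨χb, fun ψ hψ1 hψo => (hψ ψ hψ1 ?_).trans ?_⟩
  · intro m hm z hz w w' hw
    refine hψo z ⟨hV1 m z hz, ?_, ?_, ?_⟩ w w' hw
    · exact (hV.up r _ z hz).trans (Nat.mul_le_mul_left _ (Nat.pow_le_pow_right (by norm_num) (hLm m s hm)))
    · refine (hV.h1 r _ z hz).trans ?_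
      exact_mod_cast Nat.mul_le_mul_left _ (Nat.pow_le_pow_right (by norm_num) (hLm m s hm))
    · refine (hV.h2 r _ z hz).trans ?_
      exact_mod_cast Nat.mul_le_mul_left _ (Nat.pow_le_pow_right (by norm_num) (hLm m s hm))
  · calc ε1 * (muT d (gw d x y)).real Set.univ ≤ ε1 * (C0 / h ^ 2) := by gcongr
      _ = ε / h ^ 2 := by
        rw [hε1]
        field_simp

/-! ### change of the window -/

/-- the indicator of a window is a function of the part below -/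
lemma ind_out {d : Pt} (hd : d ∈ dirs) (A : Set (Pt × Pt)) (x y : ℕ) :
    OutA d A fun w => LM.ind (x ≤ bot d w ∧ bot d w ≤ y) := by
  intro z _ w w' h
  simp only [bot_same hd h]

/-- smaller windows -/
lemma int_sub {d : Pt} {x y x' y' : ℕ} (hx : x' ≤ x) (hy : y ≤ y') (hfin : gf (WTw d x' y') ≠ ⊤)
    {f : List Bool → ℝ} (hf : LM.Bd f) :
    ∫ w, f w * LM.ind (x ≤ bot d w ∧ bot d w ≤ y) ∂(muT d (gw d x' y')) = ∫ w, f w ∂(muT d (gw d x y)) := by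
  classical
  have h1 : WTw d x y ⊆ WTw d x' y' := fun w hw => ⟨hw.1, hx.trans hw.2.1, hw.2.2.trans hy⟩
  have hfin2 : gf (WTw d x y) ≠ ⊤ := ne_top_of_le_ne_top hfin (gf_mono h1)
  rw [int_muT (by rw [tsum_wm]; exact hfin) (hf.mul (LM.Bd.ind _)), int_muT (by rw [tsum_wm]; exact hfin2) hf]
  refine tsum_congr fun w => ?_
  rw [wm_gw, wm_gw]
  by_cases h2 : w ∈ WTw d x y
  · rw [if_pos (h1 h2), if_pos h2, LM.ind_t h2.2, mul_one]
  · rw [if_neg h2, ENNReal.toReal_zero, zero_mul]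
    by_cases h3 : w ∈ WT d
    · rw [LM.ind_f fun h => h2 ⟨h3, h⟩, mul_zero, mul_zero]
    · rw [if_neg fun h => h3 h.1, ENNReal.toReal_zero, zero_mul]

/-- **(LR3) for the closed words rooted at their top** -/
theorem lr3w {d : Pt} (hd : d ∈ dirs) {V : ℕ → ℕ → Finset (Pt × Pt)} (hV : Wnd d V) (h3 : H3 d V) (h12 : H12 d hd V)
    (hup : Mup d) (hlo : Mlo d) {χ : List Bool → ℝ} (χ0 : ∀ w, 0 ≤ χ w) (χ1 : ∀ w, χ w ≤ 1)
    (hχ : InA d (SP d) χ) : ∃ c : ℝ → ℝ, ∀ a b ε : ℝ, 0 < a → a < b → 0 < ε → ∃ (D0 : ℕ) (h0 : ℝ), ∀ h : ℝ, h0 ≤ h →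
      ∀ x y : ℕ, a * h ≤ x → (y : ℝ) ≤ b * h → ∀ ψ : List Bool → ℝ, (∀ w, |ψ w| ≤ 1) → OutA d (SD d D0) ψ →
        |∑' w : WTw d x y, xc ^ (w : List Bool).length * (ψ w * (χ w - c h))| ≤ ε / h ^ 2 := by
  obtain ⟨a0, b0, c0, ha0, hab0, hc0, hl0⟩ := hlo
  have hχb : LM.Bd χ := LM.bd01 χ0 χ1
  obtain ⟨μ0, hμ0⟩ : ∃ μ0 : ℝ → Measure (List Bool), ∀ h, μ0 h = muT d (gw d ⌈a0 * h⌉₊ ⌊b0 * h⌋₊) := ⟨_, fun _ => rfl⟩
  refine ⟨fun h => (∫ w, χ w ∂(μ0 h)) / (μ0 h).real Set.univ, fun a b ε ha hab hε => ?_⟩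
  obtain ⟨a', ha'⟩ : ∃ a', a' = min a a0 := ⟨_, rfl⟩
  obtain ⟨b', hb'⟩ : ∃ b', b' = max b b0 := ⟨_, rfl⟩
  have ha'0 : 0 < a' := by rw [ha']; exact lt_min ha ha0
  have haa : a' ≤ a := by rw [ha']; exact min_le_left _ _
  have haa0 : a' ≤ a0 := by rw [ha']; exact min_le_right _ _
  have hbb : b ≤ b' := by rw [hb']; exact le_max_left _ _
  have hbb0 : b0 ≤ b' := by rw [hb']; exact le_max_right _ _
  have hab' : a' < b' := lt_of_le_of_lt haa (lt_of_lt_of_le hab hbb)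
  obtain ⟨C', hC', hu'⟩ := hup a' b' ha'0 hab'
  have hl' : ∀ᶠ h : ℝ in atTop, ENNReal.ofReal (c0 / h ^ 2) ≤ gf (WTw d ⌈a' * h⌉₊ ⌊b' * h⌋₊) := by
    filter_upwards [hl0, eventually_gt_atTop (0 : ℝ)] with h h1 hp
    refine h1.trans (gf_mono fun w hw => ⟨hw.1, le_trans (Nat.ceil_le_ceil ?_) hw.2.1, le_trans hw.2.2 (Nat.floor_le_floor ?_)⟩)
    · gcongr
    · gcongr
  obtain ⟨ε', hε'⟩ : ∃ ε', ε' = ε / (1 + C' / c0) := ⟨_, rfl⟩
  have he' : 0 < ε' := by rw [hε']; positivity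
  obtain ⟨D0, hD⟩ := core hd hV h3 h12 ha'0 hab' hc0 hC' hl' hu' χ0 χ1 hχ he'
  obtain ⟨h0, hh0⟩ := (hD.and (hl0.and (hu'.and (eventually_gt_atTop (0 : ℝ))))).exists_forall_of_atTop
  refine ⟨D0, h0, fun h hh x y hx hy ψ hψ1 hψo => ?_⟩
  obtain ⟨⟨χb, hb⟩, hl, hu, hp⟩ := hh0 h hh
  obtain ⟨x', hx'⟩ : ∃ x', x' = ⌈a' * h⌉₊ := ⟨_, rfl⟩
  obtain ⟨y', hy'⟩ : ∃ y', y' = ⌊b' * h⌋₊ := ⟨_, rfl⟩
  obtain ⟨x0, hx0⟩ : ∃ x0, x0 = ⌈a0 * h⌉₊ := ⟨_, rfl⟩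
  obtain ⟨y0, hy0⟩ : ∃ y0, y0 = ⌊b0 * h⌋₊ := ⟨_, rfl⟩
  simp only [hμ0]
  rw [← hx', ← hy'] at hu hb
  rw [← hx0, ← hy0] at hl ⊢
  have hfin : gf (WTw d x' y') ≠ ⊤ := ne_top_of_le_ne_top ENNReal.ofReal_ne_top hu
  have hxx : x' ≤ x := by
    rw [hx']
    refine Nat.ceil_le.2 (le_trans ?_ hx)
    gcongr
  have hyy : y ≤ y' := by
    rw [hy']
    refine Nat.le_floor (hy.trans ?_)
    gcongr
  have hxx0 : x' ≤ x0 := by
    rw [hx', hx0]
    refine Nat.ceil_le_ceil ?_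
    gcongr
  have hyy0 : y0 ≤ y' := by
    rw [hy', hy0]
    refine Nat.floor_le_floor ?_
    gcongr
  have hsub : WTw d x y ⊆ WTw d x' y' := fun w hw => ⟨hw.1, hxx.trans hw.2.1, hw.2.2.trans hyy⟩
  have hsub0 : WTw d x0 y0 ⊆ WTw d x' y' := fun w hw => ⟨hw.1, hxx0.trans hw.2.1, hw.2.2.trans hyy0⟩
  have hfin1 : gf (WTw d x y) ≠ ⊤ := ne_top_of_le_ne_top hfin (gf_mono hsub)
  have hfin0 : gf (WTw d x0 y0) ≠ ⊤ := ne_top_of_le_ne_top hfin (gf_mono hsub0)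
  have hψb : LM.Bd ψ := ⟨1, hψ1⟩
  have hind : ∀ (P : Prop) (t : ℝ), |t| ≤ 1 → |t * LM.ind P| ≤ 1 := by
    intro P t ht
    rw [abs_mul, abs_of_nonneg (LM.ind_nn P)]
    exact mul_le_one₀ ht (LM.ind_nn P) (LM.ind_le P)
  -- the mean
  obtain ⟨T0, hT0⟩ : ∃ T0, T0 = (muT d (gw d x0 y0)).real Set.univ := ⟨_, rfl⟩
  have hT0' : c0 / h ^ 2 ≤ T0 := by
    rw [hT0, real_univ]
    have := ENNReal.toReal_mono hfin0 hl
    rwa [ENNReal.toReal_ofReal (by positivity)] at this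
  have hT0p : 0 < T0 := lt_of_lt_of_le (by positivity) hT0'
  have hmean : |(∫ w, χ w ∂(muT d (gw d x0 y0))) / T0 - χb| ≤ ε' / c0 := by
    have h1 := hb (fun w => 1 * LM.ind (x0 ≤ bot d w ∧ bot d w ≤ y0)) (fun w => hind _ 1 (by norm_num)) (by
      intro z hz w w' hw
      have := ind_out hd (SD d D0) x0 y0 z hz w w' hw
      simp only [this])
    have e1 : ∫ w, χ w * (1 * LM.ind (x0 ≤ bot d w ∧ bot d w ≤ y0)) ∂(muT d (gw d x' y')) =
        ∫ w, χ w ∂(muT d (gw d x0 y0)) := by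
      rw [← int_sub hxx0 hyy0 hfin hχb]
      simp only [one_mul]
    have e2 : ∫ w, (1 : ℝ) * LM.ind (x0 ≤ bot d w ∧ bot d w ≤ y0) ∂(muT d (gw d x' y')) = T0 := by
      rw [int_sub hxx0 hyy0 hfin (LM.Bd.const 1), hT0]
      simp
    rw [e1, e2] at h1
    have e3 : (∫ w, χ w ∂(muT d (gw d x0 y0))) / T0 - χb = (∫ w, χ w ∂(muT d (gw d x0 y0)) - χb * T0) / T0 := by
      field_simp
    rw [e3, abs_div, abs_of_pos hT0p, div_le_iff₀ hT0p]
    refine h1.trans ?_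
    calc ε' / h ^ 2 = ε' / c0 * (c0 / h ^ 2) := by field_simp
      _ ≤ ε' / c0 * T0 := by gcongr
  rw [← hT0]
  obtain ⟨c, hc⟩ : ∃ c, c = (∫ w, χ w ∂(muT d (gw d x0 y0))) / T0 := ⟨_, rfl⟩
  rw [← hc] at hmean ⊢
  -- the sum as an integral
  have hfd : LM.Bd fun w => ψ w * (χ w - c) := hψb.mul (hχb.sub (LM.Bd.const c))
  rw [← int_win hfin1 hfd]
  have hfm : ∑' w, wm d (gw d x y) w ≠ ⊤ := by rw [tsum_wm]; exact hfin1
  haveI := fin_muT hfm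
  have h1 := hb (fun w => ψ w * LM.ind (x ≤ bot d w ∧ bot d w ≤ y)) (fun w => hind _ _ (hψ1 w)) (by
    intro z hz w w' hw
    have e1 := ind_out hd (SD d D0) x y z hz w w' hw
    have e2 := hψo z hz w w' hw
    simp only [e1, e2])
  have e1 : ∫ w, χ w * (ψ w * LM.ind (x ≤ bot d w ∧ bot d w ≤ y)) ∂(muT d (gw d x' y')) =
      ∫ w, χ w * ψ w ∂(muT d (gw d x y)) := by
    rw [← int_sub hxx hyy hfin (hχb.mul hψb)]
    simp only [mul_assoc]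
  rw [e1, int_sub hxx hyy hfin hψb] at h1
  have e2 : ∫ w, ψ w * (χ w - c) ∂(muT d (gw d x y)) =
      (∫ w, χ w * ψ w ∂(muT d (gw d x y)) - χb * ∫ w, ψ w ∂(muT d (gw d x y))) -
        (c - χb) * ∫ w, ψ w ∂(muT d (gw d x y)) := by
    have e3 : ∀ w, ψ w * (χ w - c) = χ w * ψ w - c * ψ w := fun w => by ring
    simp only [e3]
    rw [integral_sub (hχb.mul hψb).int ((LM.Bd.const c).mul hψb).int, integral_const_mul]
    ring
  have h2 : |∫ w, ψ w ∂(muT d (gw d x y))| ≤ C' / h ^ 2 := by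
    have h3 : |∫ w, ψ w ∂(muT d (gw d x y))| ≤ (muT d (gw d x y)).real Set.univ := by
      have := norm_integral_le_of_norm_le_const (μ := muT d (gw d x y)) (f := ψ) (C := 1)
        (Filter.Eventually.of_forall fun w => by rw [Real.norm_eq_abs]; exact hψ1 w)
      rwa [Real.norm_eq_abs, one_mul] at this
    refine h3.trans ?_
    rw [real_univ]
    have h4 := ENNReal.toReal_mono ENNReal.ofReal_ne_top ((gf_mono hsub).trans hu)
    rwa [ENNReal.toReal_ofReal (by positivity)] at h4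
  rw [e2]
  calc |(∫ w, χ w * ψ w ∂(muT d (gw d x y)) - χb * ∫ w, ψ w ∂(muT d (gw d x y))) -
        (c - χb) * ∫ w, ψ w ∂(muT d (gw d x y))|
      ≤ |∫ w, χ w * ψ w ∂(muT d (gw d x y)) - χb * ∫ w, ψ w ∂(muT d (gw d x y))| +
        |(c - χb) * ∫ w, ψ w ∂(muT d (gw d x y))| := abs_sub _ _
    _ ≤ ε' / h ^ 2 + ε' / c0 * (C' / h ^ 2) := by
        refine add_le_add h1 ?_
        rw [abs_mul]
        gcongr
    _ = ε' * (1 + C' / c0) / h ^ 2 := by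
        field_simp
    _ = ε / h ^ 2 := by
        rw [hε']
        field_simp

end ART

end HexObs
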