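import Pool.Agent.RMP.KaCore

/-!
# ROT / RMM (helper11), part 1: the kernel lemma for pairs and marked words, functions of the marked word

* `abel` : summation by parts;
* `h7_N'`, `h7_all'` : the mean over the marks of a local function times a function of the word and the mark with bounded variation in
  the mark;
* **`km_core`** : the comparison of the mean over the open pairs with the mean over the marked words.
-/

set_option autoImplicit false

namespace HexObs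

namespace RMP

namespace KM

open Finset TS SDN TIW NPR KA

open Pool.Agent.TSW (VW)

open scoped ENNReal Classical

/-! ### 1. Summation by parts -/

/-- summation by parts -/
lemma abel {x y : ℕ} (hxy : x ≤ y) (g f : ℕ → ℝ) : ∑ k ∈ Ico x y, g k * f k =
    g y * ∑ j ∈ Ico x y, f j - ∑ k ∈ Ico x y, (g (k + 1) - g k) * ∑ j ∈ Ico x (k + 1), f j := by
  obtain ⟨S, hS⟩ : ∃ S : ℕ → ℝ, S = fun k => ∑ j ∈ Ico x k, f j := ⟨_, rfl⟩
  have h0 : ∀ k, ∑ j ∈ Ico x k, f j = S k := fun k => by rw [hS]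
  simp only [h0]
  induction y, hxy using Nat.le_induction with
  | base =>
    rw [← h0 x]
    simp
  | succ y hy ih =>
    have h1 : S (y + 1) = S y + f y := by
      rw [← h0, ← h0, sum_Ico_succ_top hy]
    rw [sum_Ico_succ_top hy, ih, sum_Ico_succ_top hy, h1]
    ring

lemma abel_le {x y : ℕ} (hxy : x ≤ y) {g f : ℕ → ℝ} {η V : ℝ} (hη : 0 ≤ η)
    (hS : ∀ k, x ≤ k → k ≤ y → |∑ j ∈ Ico x k, f j| ≤ η) (hg : |g y| ≤ 1) (hV : ∑ k ∈ Ico x y, |g (k + 1) - g k| ≤ V) :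
    |∑ k ∈ Ico x y, g k * f k| ≤ (1 + V) * η := by
  rw [abel hxy]
  have h1 : |g y * ∑ j ∈ Ico x y, f j| ≤ 1 * η := by
    rw [abs_mul]
    exact mul_le_mul hg (hS y hxy le_rfl) (abs_nonneg _) zero_le_one
  have h2 : |∑ k ∈ Ico x y, (g (k + 1) - g k) * ∑ j ∈ Ico x (k + 1), f j| ≤ V * η := by
    refine (abs_sum_le_sum_abs _ _).trans ?_
    have h3 : ∀ k ∈ Ico x y, |(g (k + 1) - g k) * ∑ j ∈ Ico x (k + 1), f j| ≤ |g (k + 1) - g k| * η := by
      intro k hk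
      rw [mem_Ico] at hk
      rw [abs_mul]
      exact mul_le_mul_of_nonneg_left (hS (k + 1) (by omega) (by omega)) (abs_nonneg _)
    refine (sum_le_sum h3).trans ?_
    rw [← sum_mul]
    exact mul_le_mul_of_nonneg_right hV hη
  have h3 := abs_sub (g y * ∑ j ∈ Ico x y, f j) (∑ k ∈ Ico x y, (g (k + 1) - g k) * ∑ j ∈ Ico x (k + 1), f j)
  linarith

/-! ### 2. The mean over the marks -/

/-- **the mean over the marks of a local function**, words with `N` letters, a function of the marked word of variation `≤ V` -/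
lemma h7_N' {T a b c e N : ℕ} {ρ ε V : ℝ} {φ : List Bool → ℝ} {G : List Bool × ℕ → ℝ} (hT : 1 ≤ T) (ha : T ≤ a) (hc : T ≤ c)
    (hφ : ∀ v, 0 ≤ φ v ∧ φ v ≤ 1) (hG : ∀ t, 0 ≤ G t ∧ G t ≤ 1) (hV0 : 0 ≤ V)
    (hV : ∀ H ∈ sawF N, ∑ k ∈ range N, |G (H, k + 1) - G (H, k)| ≤ V) (hρ : 0 ≤ ρ) (hρ2 : ρ ≤ 2)
    (hne : (rk a b c e N).Nonempty)
    (hP : TOG.Pn N {t | ¬ ∀ x y : ℕ, x ≤ y → y ≤ t.length →
      |VW (fun v : Fin (2 * T) → Bool => φ (List.ofFn v)) (wd t x y) - ρ * ((y : ℝ) - x)| ≤ ε * N} ≤ ε) (hε : 0 ≤ ε) :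
    |∑ H ∈ sawF N, ∑ k ∈ rk a b c e N, G (H, k) * φ (wn T (H, k)) - ρ * ∑ H ∈ sawF N, ∑ k ∈ rk a b c e N, G (H, k)| ≤
      cS N * ((1 + V) * (3 * ε * N + 4 * T)) := by
  obtain ⟨x, y, hxy, hlt, hax, hyc⟩ := rk_Ico hne
  rw [hxy]
  obtain ⟨Q, hQ⟩ : ∃ Q : Set (List Bool), Q = {t | ¬ ∀ x y : ℕ, x ≤ y → y ≤ t.length →
      |VW (fun v : Fin (2 * T) → Bool => φ (List.ofFn v)) (wd t x y) - ρ * ((y : ℝ) - x)| ≤ ε * N} := ⟨_, rfl⟩
  rw [← hQ] at hP
  have hyN : (y : ℝ) ≤ N := by exact_mod_cast (by omega : y ≤ N)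
  have hT' : (1 : ℝ) ≤ T := by exact_mod_cast hT
  have hx0 : (0 : ℝ) ≤ x := Nat.cast_nonneg x
  have hxy' : (x : ℝ) ≤ y := by exact_mod_cast hlt.le
  have hN0 : (0 : ℝ) ≤ N := Nat.cast_nonneg N
  have hη0 : 0 ≤ ε * N + 4 * T := by positivity
  have key : ∀ H ∈ sawF N, |∑ k ∈ Finset.Ico x y, G (H, k) * (φ (wn T (H, k)) - ρ)| ≤
      (1 + V) * (ε * N + 4 * T) + 2 * N * TIP.ind (H ∈ Q) := by
    intro H hH
    have hlen : H.length = N := (mem_sawF.1 hH).1
    by_cases hb : H ∈ Q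
    · rw [TIP.ind_pos hb]
      have h1 : ∀ k ∈ Finset.Ico x y, |G (H, k) * (φ (wn T (H, k)) - ρ)| ≤ 2 := by
        intro k _
        rw [abs_mul, abs_of_nonneg (hG _).1]
        have h2 : |φ (wn T (H, k)) - ρ| ≤ 2 := by
          rw [abs_le]
          constructor <;> linarith [(hφ (wn T (H, k))).1, (hφ (wn T (H, k))).2]
        calc G (H, k) * |φ (wn T (H, k)) - ρ| ≤ 1 * 2 := mul_le_mul (hG _).2 h2 (abs_nonneg _) zero_le_one
          _ = 2 := one_mul _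
      have h2 : |∑ k ∈ Finset.Ico x y, G (H, k) * (φ (wn T (H, k)) - ρ)| ≤ ((y - x : ℕ) : ℝ) * 2 := by
        refine (abs_sum_le_sum_abs _ _).trans ((sum_le_card_nsmul _ _ 2 h1).trans ?_)
        rw [Nat.card_Ico, nsmul_eq_mul]
      rw [Nat.cast_sub hlt.le] at h2
      have h4 : 0 ≤ (1 + V) * (ε * N + 4 * T) := by positivity
      linarith
    · rw [TIP.ind_neg hb, mul_zero, add_zero]
      rw [hQ] at hb
      have hg : ∀ x y : ℕ, x ≤ y → y ≤ H.length →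
        |VW (fun v : Fin (2 * T) → Bool => φ (List.ofFn v)) (wd H x y) - ρ * ((y : ℝ) - x)| ≤ ε * N := not_not.1 hb
      refine abel_le hlt.le (g := fun k => G (H, k)) (f := fun k => φ (wn T (H, k)) - ρ) hη0 ?_ ?_ ?_
      · intro k hk1 hk2
        rcases Nat.eq_or_lt_of_le hk1 with h | hk1
        · rw [← h, Finset.Ico_self, sum_empty, abs_zero]
          exact hη0
        have h1 := hg (x - T) (k + T - 1) (by omega) (by omega)
        rw [← sum_wn φ hT (by omega) hk1.le (by omega)] at h1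
        have e1 : ((k + T - 1 : ℕ) : ℝ) = (k : ℝ) + T - 1 := by
          rw [Nat.cast_sub (by omega)]
          push_cast
          ring
        have e2 : ((x - T : ℕ) : ℝ) = (x : ℝ) - T := by rw [Nat.cast_sub (by omega)]
        rw [e1, e2] at h1
        have e3 : ∑ j ∈ Finset.Ico x k, (φ (wn T (H, j)) - ρ) = ∑ j ∈ Finset.Ico x k, φ (wn T (H, j)) - ρ * ((k : ℝ) - x) := by
          rw [sum_sub_distrib, sum_const, Nat.card_Ico, nsmul_eq_mul, Nat.cast_sub hk1.le]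
          ring
        rw [e3]
        have h2 : ρ * (2 * (T : ℝ) - 1) ≤ 4 * T := by
          calc ρ * (2 * (T : ℝ) - 1) ≤ 2 * (2 * (T : ℝ) - 1) := mul_le_mul_of_nonneg_right hρ2 (by linarith)
            _ ≤ 4 * T := by linarith
        have h3 : 0 ≤ ρ * (2 * (T : ℝ) - 1) := mul_nonneg hρ (by linarith)
        rw [abs_le] at h1 ⊢
        constructor <;> nlinarith [h1.1, h1.2]
      · rw [abs_of_nonneg (hG _).1]
        exact (hG _).2
      · refine (sum_le_sum_of_subset_of_nonneg ?_ fun k _ _ => abs_nonneg _).trans (hV H hH)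
        intro k hk
        rw [mem_Ico] at hk
        rw [Finset.mem_range]
        omega
  have h1 : ∑ H ∈ sawF N, ∑ k ∈ Finset.Ico x y, G (H, k) * φ (wn T (H, k)) - ρ * ∑ H ∈ sawF N, ∑ k ∈ Finset.Ico x y, G (H, k) =
      ∑ H ∈ sawF N, ∑ k ∈ Finset.Ico x y, G (H, k) * (φ (wn T (H, k)) - ρ) := by
    rw [mul_sum, ← sum_sub_distrib]
    refine sum_congr rfl fun H _ => ?_
    rw [mul_sum, ← sum_sub_distrib]
    exact sum_congr rfl fun k _ => by ring
  rw [h1]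
  refine (abs_sum_le_sum_abs _ _).trans ((sum_le_sum key).trans ?_)
  rw [sum_add_distrib, sum_const, nsmul_eq_mul, card_sawF, ← mul_sum, sum_ind_Pn]
  have hc0 := MCP.cS0 N
  have h3 : (cS N : ℝ) * TOG.Pn N Q ≤ cS N * ε := mul_le_mul_of_nonneg_left hP hc0.le
  have hN : (0 : ℝ) ≤ 2 * N := by positivity
  have h4 := mul_le_mul_of_nonneg_left h3 hN
  have h5 : 0 ≤ V * (2 * ε * N) := by positivity
  have h6 : (cS N : ℝ) * ((1 + V) * (3 * ε * N + 4 * T)) - (cS N * ((1 + V) * (ε * N + 4 * T)) + 2 * N * (cS N * ε)) =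
      cS N * (V * (2 * ε * N)) := by ring
  have h7 : 0 ≤ (cS N : ℝ) * (V * (2 * ε * N)) := mul_nonneg hc0.le h5
  linarith

/-! ### 3. The mean of the local density -/

/-- the part of the small rectangle, as a sum with an indicator -/
lemma sum_ind_le {M a b c e a' b' c' e' : ℕ} {Z : ℝ} (hZ0 : 0 < Z) {G : List Bool × ℕ → ℝ} (hG : ∀ t, 0 ≤ G t ∧ G t ≤ 1) :
    0 ≤ ∑ K ∈ BB M a b c e, qK Z K * G K - ∑ K ∈ BB M a b c e, qK Z K * (if K ∈ BB M a' b' c' e' then G K else 0) ∧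
    ∑ K ∈ BB M a b c e, qK Z K * G K - ∑ K ∈ BB M a b c e, qK Z K * (if K ∈ BB M a' b' c' e' then G K else 0) ≤
      ∑ K ∈ BB M a b c e, qK Z K - ∑ K ∈ BB M a b c e, qK Z K * (if K ∈ BB M a' b' c' e' then 1 else 0) := by
  rw [← sum_sub_distrib, ← sum_sub_distrib]
  constructor
  · refine sum_nonneg fun K _ => ?_
    rw [← mul_sub]
    refine mul_nonneg (qK_pos hZ0 K).le ?_
    split_ifs
    · rw [sub_self]
    · rw [sub_zero]
      exact (hG K).1
  · refine sum_le_sum fun K _ => ?_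
    rw [← mul_sub]
    have h1 := (qK_pos hZ0 K).le
    split_ifs
    · rw [sub_self, mul_zero, mul_one, sub_self]
    · rw [sub_zero, mul_zero, sub_zero]
      calc qK Z K * G K ≤ qK Z K * 1 := mul_le_mul_of_nonneg_left (hG K).2 h1
        _ = _ := mul_one _

/-- **(h7)** -/
lemma h7_all' {M a b c e a' b' c' e' T : ℕ} {Z Lam C εd β ρ V : ℝ} {φ : List Bool → ℝ} {G : List Bool × ℕ → ℝ}
    (hT : 1 ≤ T) (ha : T ≤ a') (hc : T ≤ c') (hM : 0 < M) (hZ : Z = ZR M a b c e) (hZ0 : 0 < Z)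
    (hsub : ∀ N, rk a' b' c' e' N ⊆ rk a b c e N) (hφ : ∀ v, 0 ≤ φ v ∧ φ v ≤ 1) (hG : ∀ t, 0 ≤ G t ∧ G t ≤ 1)
    (hV0 : 0 ≤ V) (hV : ∀ N, N < M → ∀ H ∈ sawF N, ∑ k ∈ range N, |G (H, k + 1) - G (H, k)| ≤ V)
    (hLam : 0 ≤ Lam) (hρ : 0 ≤ ρ) (hρ2 : ρ ≤ 2) (hεd : 0 ≤ εd)
    (hC : ∑ N ∈ Finset.range M, (if (rk a b c e N).Nonempty then aN N else 0) * M ≤ C * Z)
    (hP : ∀ N, N < M → (rk a' b' c' e' N).Nonempty → TOG.Pn N {t | ¬ ∀ x y : ℕ, x ≤ y → y ≤ t.length →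
      |VW (fun v : Fin (2 * T) → Bool => φ (List.ofFn v)) (wd t x y) - ρ * ((y : ℝ) - x)| ≤ εd * N} ≤ εd)
    (hβ : ∑ N ∈ Finset.range M, aN N * ((rk a b c e N).card - (rk a' b' c' e' N).card : ℝ) ≤ β * Z) :
    |∑ K ∈ BB M a b c e, qK Z K * (G K * (if K ∈ BB M a' b' c' e' then Lam * φ (wn T K) else 0)) -
      (∑ K ∈ BB M a b c e, qK Z K * G K) *
        ∑ K ∈ BB M a b c e, qK Z K * (if K ∈ BB M a' b' c' e' then Lam * φ (wn T K) else 0)| ≤
      2 * (Lam * (C * ((1 + V) * (3 * εd + 4 * T / M)))) + 2 * Lam * β := by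
  have hM' : (0 : ℝ) < M := by exact_mod_cast hM
  -- the first two sums
  have key : ∀ G : List Bool × ℕ → ℝ, (∀ t, 0 ≤ G t ∧ G t ≤ 1) →
      (∀ N, N < M → ∀ H ∈ sawF N, ∑ k ∈ range N, |G (H, k + 1) - G (H, k)| ≤ V) →
      |∑ K ∈ BB M a b c e, qK Z K * (if K ∈ BB M a' b' c' e' then G K * (Lam * φ (wn T K)) else 0) -
        Lam * ρ * ∑ K ∈ BB M a b c e, qK Z K * (if K ∈ BB M a' b' c' e' then G K else 0)| ≤
        Lam * (C * ((1 + V) * (3 * εd + 4 * T / M))) := by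
    intro G hG hV
    rw [sum_BB' hsub (fun K => G K * (Lam * φ (wn T K))), sum_BB' hsub G, mul_sum, ← sum_sub_distrib]
    refine (abs_sum_le_sum_abs _ _).trans ?_
    have h1 : ∀ N ∈ Finset.range M, |xc ^ N / Z * ∑ H ∈ sawF N, ∑ k ∈ rk a' b' c' e' N, G (H, k) * (Lam * φ (wn T (H, k))) -
        Lam * ρ * (xc ^ N / Z * ∑ H ∈ sawF N, ∑ k ∈ rk a' b' c' e' N, G (H, k))| ≤
        Lam / Z * ((1 + V) * (3 * εd + 4 * T / M)) * ((if (rk a b c e N).Nonempty then aN N else 0) * M) := by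
      intro N hN
      have hN' : (N : ℝ) ≤ M := by exact_mod_cast (Finset.mem_range.1 hN).le
      have hx : 0 < xc ^ N / Z := div_pos (pow_pos xc_pos _) hZ0
      have hmT : (0 : ℝ) ≤ T / M := by positivity
      by_cases hne : (rk a' b' c' e' N).Nonempty
      · rw [if_pos (hne.mono (hsub N))]
        have h2 := h7_N' (e := e') hT ha hc hφ hG hV0 (hV N (Finset.mem_range.1 hN)) hρ hρ2 hne
          (hP N (Finset.mem_range.1 hN) hne) hεd
        have e1 : xc ^ N / Z * ∑ H ∈ sawF N, ∑ k ∈ rk a' b' c' e' N, G (H, k) * (Lam * φ (wn T (H, k))) -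
            Lam * ρ * (xc ^ N / Z * ∑ H ∈ sawF N, ∑ k ∈ rk a' b' c' e' N, G (H, k)) =
            xc ^ N / Z * Lam * (∑ H ∈ sawF N, ∑ k ∈ rk a' b' c' e' N, G (H, k) * φ (wn T (H, k)) -
              ρ * ∑ H ∈ sawF N, ∑ k ∈ rk a' b' c' e' N, G (H, k)) := by
          have e2 : ∑ H ∈ sawF N, ∑ k ∈ rk a' b' c' e' N, G (H, k) * (Lam * φ (wn T (H, k))) =
              Lam * ∑ H ∈ sawF N, ∑ k ∈ rk a' b' c' e' N, G (H, k) * φ (wn T (H, k)) := by
            rw [mul_sum]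
            refine sum_congr rfl fun H _ => ?_
            rw [mul_sum]
            exact sum_congr rfl fun k _ => by ring
          rw [e2]
          ring
        rw [e1, abs_mul, abs_of_nonneg (mul_nonneg hx.le hLam)]
        refine (mul_le_mul_of_nonneg_left h2 (mul_nonneg hx.le hLam)).trans ?_
        have h3 : (1 + V) * (3 * εd * N + 4 * T) ≤ ((1 + V) * (3 * εd + 4 * T / M)) * M := by
          have h5 : 3 * εd * N + 4 * T ≤ (3 * εd + 4 * T / M) * M := by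
            rw [add_mul, div_mul_cancel₀ _ hM'.ne']
            have : 3 * εd * N ≤ 3 * εd * M := mul_le_mul_of_nonneg_left hN' (by positivity)
            linarith
          calc (1 + V) * (3 * εd * N + 4 * T) ≤ (1 + V) * ((3 * εd + 4 * T / M) * M) :=
                mul_le_mul_of_nonneg_left h5 (by linarith)
            _ = _ := by ring
        have h4 : (0 : ℝ) ≤ cS N := Nat.cast_nonneg _
        calc xc ^ N / Z * Lam * (cS N * ((1 + V) * (3 * εd * N + 4 * T))) ≤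
              xc ^ N / Z * Lam * (cS N * (((1 + V) * (3 * εd + 4 * T / M)) * M)) :=
            mul_le_mul_of_nonneg_left (mul_le_mul_of_nonneg_left h3 h4) (mul_nonneg hx.le hLam)
          _ = _ := by
            unfold aN
            ring
      · rw [Finset.not_nonempty_iff_eq_empty] at hne
        rw [hne]
        simp only [Finset.sum_empty, Finset.sum_const_zero, mul_zero, sub_zero, abs_zero]
        have h3 : (0 : ℝ) ≤ if (rk a b c e N).Nonempty then aN N else 0 := by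
          split_ifs
          · unfold aN
            have := xc_pos
            positivity
          · exact le_rfl
        have h4 : 0 ≤ Lam / Z := div_nonneg hLam hZ0.le
        positivity
    refine (sum_le_sum h1).trans ?_
    rw [← mul_sum]
    have h2 : 0 ≤ Lam / Z * ((1 + V) * (3 * εd + 4 * T / M)) := by
      have h4 : 0 ≤ Lam / Z := div_nonneg hLam hZ0.le
      positivity
    refine (mul_le_mul_of_nonneg_left hC h2).trans ?_
    apply le_of_eq
    field_simp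
  -- the sums
  have k1 := key G hG hV
  have k2 := key (fun _ => 1) (fun _ => ⟨zero_le_one, le_rfl⟩) (fun N _ H _ => by
    simp only [sub_self, abs_zero, sum_const_zero]
    exact hV0)
  simp only [one_mul] at k2
  have e0 : ∀ K : List Bool × ℕ, G K * (if K ∈ BB M a' b' c' e' then Lam * φ (wn T K) else 0) =
      if K ∈ BB M a' b' c' e' then G K * (Lam * φ (wn T K)) else 0 := fun K => by
    rw [mul_ite, mul_zero]
  simp only [e0]
  have hq1 : ∑ K ∈ BB M a b c e, qK Z K = 1 := by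
    rw [sum_qK]
    exact sum_BB1 hZ hZ0
  have m1 := sum_ind_le (M := M) (a := a) (b := b) (c := c) (e := e) (a' := a') (b' := b') (c' := c') (e' := e') hZ0 hG
  have m2 := sum_ind_le (M := M) (a := a) (b := b) (c := c) (e := e) (a' := a') (b' := b') (c' := c') (e' := e') hZ0
    (G := fun _ => 1) (fun _ => ⟨zero_le_one, le_rfl⟩)
  simp only [mul_one] at m2
  have m3 : ∑ K ∈ BB M a b c e, qK Z K - ∑ K ∈ BB M a b c e, qK Z K * (if K ∈ BB M a' b' c' e' then 1 else 0) ≤ β := by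
    rw [sum_qK, sum_BB' hsub (fun _ => 1), ← sum_sub_distrib]
    simp only [sum_const, nsmul_eq_mul, mul_one, card_sawF]
    have e2 : ∑ N ∈ Finset.range M, (xc ^ N / Z * ((rk a b c e N).card * (cS N : ℝ)) -
        xc ^ N / Z * ((cS N : ℝ) * (rk a' b' c' e' N).card)) =
        (∑ N ∈ Finset.range M, aN N * ((rk a b c e N).card - (rk a' b' c' e' N).card : ℝ)) / Z := by
      unfold aN
      rw [sum_div]
      exact sum_congr rfl fun N _ => by ring
    rw [e2, div_le_iff₀ hZ0]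
    exact hβ
  have t3 : 0 ≤ ∑ K ∈ BB M a b c e, qK Z K * G K ∧ ∑ K ∈ BB M a b c e, qK Z K * G K ≤ 1 := by
    constructor
    · exact sum_nonneg fun K _ => mul_nonneg (qK_pos hZ0 K).le (hG K).1
    · rw [← hq1]
      refine sum_le_sum fun K _ => ?_
      calc qK Z K * G K ≤ qK Z K * 1 := mul_le_mul_of_nonneg_left (hG K).2 (qK_pos hZ0 K).le
        _ = _ := mul_one _
  obtain ⟨X1, hX1⟩ : ∃ X, X = ∑ K ∈ BB M a b c e, qK Z K * (if K ∈ BB M a' b' c' e' then G K * (Lam * φ (wn T K)) else 0) :=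
    ⟨_, rfl⟩
  obtain ⟨X2, hX2⟩ : ∃ X, X = ∑ K ∈ BB M a b c e, qK Z K * (if K ∈ BB M a' b' c' e' then Lam * φ (wn T K) else 0) := ⟨_, rfl⟩
  obtain ⟨X3, hX3⟩ : ∃ X, X = ∑ K ∈ BB M a b c e, qK Z K * G K := ⟨_, rfl⟩
  obtain ⟨IG, hIG⟩ : ∃ X, X = ∑ K ∈ BB M a b c e, qK Z K * (if K ∈ BB M a' b' c' e' then G K else 0) := ⟨_, rfl⟩
  obtain ⟨I1, hI1⟩ : ∃ X, X = ∑ K ∈ BB M a b c e, qK Z K * (if K ∈ BB M a' b' c' e' then (1 : ℝ) else 0) := ⟨_, rfl⟩
  rw [← hX1, ← hIG] at k1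
  rw [← hX2, ← hI1] at k2
  rw [← hX3, ← hIG, hq1, ← hI1] at m1
  rw [hq1, ← hI1] at m2 m3
  rw [← hX3] at t3
  rw [← hX1, ← hX2, ← hX3]
  obtain ⟨E, hE⟩ : ∃ E, E = Lam * (C * ((1 + V) * (3 * εd + 4 * T / M))) := ⟨_, rfl⟩
  rw [← hE] at k1 k2 ⊢
  have hE0 : 0 ≤ E := (abs_nonneg _).trans k1
  have e1 : X1 - X3 * X2 = (X1 - Lam * ρ * IG) - X3 * (X2 - Lam * ρ * I1) + Lam * ρ * ((IG - X3) + X3 * (1 - I1)) := by ring
  have f1 : |X3 * (X2 - Lam * ρ * I1)| ≤ E := by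
    rw [abs_mul, abs_of_nonneg t3.1]
    calc X3 * |X2 - Lam * ρ * I1| ≤ 1 * |X2 - Lam * ρ * I1| := mul_le_mul_of_nonneg_right t3.2 (abs_nonneg _)
      _ ≤ E := by rw [one_mul]; exact k2
  have f2 : |(IG - X3) + X3 * (1 - I1)| ≤ β := by
    have g1 : X3 * (1 - I1) ≤ β := by nlinarith [m2.1, m3, t3.1, t3.2]
    have g2 : 0 ≤ X3 * (1 - I1) := mul_nonneg t3.1 m2.1
    rw [abs_le]
    constructor <;> linarith [m1.1, m1.2]
  have f3 : |Lam * ρ * ((IG - X3) + X3 * (1 - I1))| ≤ 2 * Lam * β := by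
    rw [abs_mul, abs_of_nonneg (mul_nonneg hLam hρ)]
    calc Lam * ρ * |(IG - X3) + X3 * (1 - I1)| ≤ Lam * 2 * β :=
          mul_le_mul (mul_le_mul_of_nonneg_left hρ2 hLam) f2 (abs_nonneg _) (by positivity)
      _ = _ := by ring
  rw [e1]
  have g1 := abs_add_le (X1 - Lam * ρ * IG - X3 * (X2 - Lam * ρ * I1)) (Lam * ρ * ((IG - X3) + X3 * (1 - I1)))
  have g2 := abs_sub (X1 - Lam * ρ * IG) (X3 * (X2 - Lam * ρ * I1))
  linarith

/-! ### 4. The comparison -/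

/-- **the comparison of the mean over the open pairs with the mean over the marked words** -/
theorem km_core {A : Finset PT} {nu : PT → List Bool × ℕ → ℝ≥0∞} {DD : List Bool × ℕ → ℝ≥0∞} {Good : Set PT}
    {Far : Set (List Bool × ℕ)} {M a b c e a' b' c' e' T : ℕ} {Z Gp Lam C ε εd εF β τ δ V : ℝ} {Φ : PT → ℝ}
    {G : List Bool × ℕ → ℝ} {Bd : Set (List Bool × ℕ)}
    (hT : 1 ≤ T) (ha : T ≤ a') (hc : T ≤ c') (hM : 0 < M) (hZ : Z = ZR M a b c e) (hZ0 : 0 < Z)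
    (hGp : Gp = ∑ L ∈ A, wL L) (hGp0 : 0 < Gp) (hLam : 0 < Lam) (hεd : 0 ≤ εd)
    (hsub : ∀ N, rk a' b' c' e' N ⊆ rk a b c e N)
    (rle : ∀ L ∈ A, ∑' K, nu L K ≤ wE L.1 * wE L.2.2)
    (supp : ∀ L ∈ A, ∀ K, nu L K ≠ 0 → K ∈ BB M a b c e)
    (row : ∀ L ∈ A, L ∈ Good → ∑' K, nu L K = wE L.1 * wE L.2.2)
    (many : ∑ L ∈ A with L ∉ Good, wL L ≤ ε * Gp)
    (col_le : ∀ K ∈ BB M a b c e, ∑ L ∈ A, nu L K ≤ wE K.1 * DD K)
    (col : ∀ K ∈ BB M a' b' c' e', ∑ L ∈ A, nu L K = wE K.1 * DD K)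
    (det : ∀ K ∈ BB M a b c e, DD K ≠ ∞ ∧ (DD K).toReal * Z ≤ Lam * Gp)
    (loc : ∀ K ∈ BB M a' b' c' e', ∀ K' ∈ BB M a' b' c' e', K ∈ Far → K' ∈ Far → wn T K = wn T K' → DD K = DD K')
    (far : ∀ N, N < M → (rk a b c e N).Nonempty →
      TOG.Pn N {H | ∃ k, k ∈ rk a' b' c' e' N ∧ (H, k) ∉ Far} ≤ εF)
    (bdry : ∑ N ∈ Finset.range M, aN N * ((rk a b c e N).card - (rk a' b' c' e' N).card : ℝ) ≤ β * Z)
    (hC : ∑ N ∈ Finset.range M, (if (rk a b c e N).Nonempty then aN N else 0) * M ≤ C * Z)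
    (dens : ∀ φ : List Bool → ℝ, (∀ v, 0 ≤ φ v ∧ φ v ≤ 1) → ∃ ρ : ℝ, 0 ≤ ρ ∧ ρ ≤ 2 ∧
      ∀ N, N < M → (rk a' b' c' e' N).Nonempty → TOG.Pn N {t | ¬ ∀ x y : ℕ, x ≤ y → y ≤ t.length →
        |VW (fun v : Fin (2 * T) → Bool => φ (List.ofFn v)) (wd t x y) - ρ * ((y : ℝ) - x)| ≤ εd * N} ≤ εd)
    (hΦ : ∀ L, 0 ≤ Φ L ∧ Φ L ≤ 1) (hG : ∀ t, 0 ≤ G t ∧ G t ≤ 1)
    (hV0 : 0 ≤ V) (hV : ∀ N, N < M → ∀ H ∈ sawF N, ∑ k ∈ Finset.range N, |G (H, k + 1) - G (H, k)| ≤ V)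
    (hBd : ∑ K ∈ BB M a b c e, qK Z K * TIP.ind (K ∈ Bd) ≤ τ) (hδ : 0 ≤ δ)
    (hcmp : ∀ L ∈ A, ∀ K, nu L K ≠ 0 → K ∉ Bd → |Φ L - G K| ≤ δ)
    (hε1 : Lam * (β + εF) ≤ ε) (hε2 : 2 * (Lam * (C * ((1 + V) * (3 * εd + 4 * T / M)))) + 2 * Lam * β ≤ ε) :
    |(∑ L ∈ A, wL L * Φ L) / Gp - ∑ K ∈ BB M a b c e, qK Z K * G K| ≤ (δ + Lam * τ) + 5 * ε := by
  have hwt : ∀ L : PT, wE L.1 * wE L.2.2 ≠ ∞ := fun L => ENNReal.mul_ne_top (wE_ne_top _) (wE_ne_top _)
  -- finiteness of the transport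
  have hnt : ∀ L ∈ A, ∀ K, nu L K ≠ ∞ := fun L hL K =>
    ne_top_of_le_ne_top (hwt L) ((ENNReal.le_tsum K).trans (rle L hL))
  have hts : ∀ L ∈ A, ∑' K, nu L K = ∑ K ∈ BB M a b c e, nu L K := fun L hL =>
    tsum_eq_sum fun K hK => by
      by_contra h
      exact hK (supp L hL K h)
  obtain ⟨ν, hν⟩ : ∃ ν : PT → List Bool × ℕ → ℝ, ν = fun L K => (nu L K).toReal / Gp := ⟨_, rfl⟩
  have hν0 : ∀ L K, 0 ≤ ν L K := fun L K => by
    rw [hν]
    exact div_nonneg ENNReal.toReal_nonneg hGp0.le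
  have hrs : ∀ L ∈ A, ∑ K ∈ BB M a b c e, ν L K = (∑' K, nu L K).toReal / Gp := by
    intro L hL
    rw [hts L hL, ENNReal.toReal_sum fun K _ => hnt L hL K, sum_div, hν]
  have h1 : ∀ L ∈ A, ∑ K ∈ BB M a b c e, ν L K ≤ wL L / Gp := by
    intro L hL
    rw [hrs L hL]
    exact div_le_div_of_nonneg_right (ENNReal.toReal_mono (hwt L) (rle L hL)) hGp0.le
  have hp1 : ∑ L ∈ A, wL L / Gp = 1 := by rw [← sum_div, ← hGp, div_self hGp0.ne']
  have h2 : 1 - ε ≤ ∑ L ∈ A, ∑ K ∈ BB M a b c e, ν L K := by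
    have g1 : ∀ L ∈ A, wL L / Gp - (if L ∉ Good then wL L / Gp else 0) ≤ ∑ K ∈ BB M a b c e, ν L K := by
      intro L hL
      by_cases hg : L ∈ Good
      · rw [if_neg (not_not.2 hg), sub_zero, hrs L hL, row L hL hg]
        exact le_rfl
      · rw [if_pos hg, sub_self]
        exact sum_nonneg fun K _ => hν0 L K
    have g2 := sum_le_sum g1
    rw [sum_sub_distrib, hp1, ← Finset.sum_filter, ← sum_div] at g2
    have g3 : (∑ L ∈ A with L ∉ Good, wL L) / Gp ≤ ε := by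
      rw [div_le_iff₀ hGp0]
      exact many
    linarith
  have hmass : ∑ L ∈ A, ∑ K ∈ BB M a b c e, ν L K ≤ 1 := by
    rw [← hp1]
    exact sum_le_sum h1
  -- the density
  obtain ⟨D, hD⟩ : ∃ D : List Bool × ℕ → ℝ, D = fun K => (∑ L ∈ A, ν L K) / qK Z K := ⟨_, rfl⟩
  have hq0 : ∀ K, 0 < qK Z K := qK_pos hZ0
  have h3 : ∀ K, ∑ L ∈ A, ν L K = D K * qK Z K := by
    intro K
    rw [hD]
    simp only
    rw [div_mul_cancel₀ _ (hq0 K).ne']
  have hD0 : ∀ K, 0 ≤ D K := fun K => by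
    rw [hD]
    exact div_nonneg (sum_nonneg fun L _ => hν0 L K) (hq0 K).le
  have hsumν : ∀ K, ∑ L ∈ A, ν L K = (∑ L ∈ A, nu L K).toReal / Gp := by
    intro K
    rw [ENNReal.toReal_sum fun L hL => hnt L hL K, sum_div, hν]
  have hwK : ∀ K ∈ BB M a b c e, wE K.1 * DD K ≠ ∞ := fun K hK => ENNReal.mul_ne_top (wE_ne_top _) (det K hK).1
  have hDeq : ∀ K : List Bool × ℕ, (wE K.1 * DD K).toReal / Gp / qK Z K = (DD K).toReal * Z / Gp := by
    intro K
    rw [ENNReal.toReal_mul, wE_toReal]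
    unfold qK
    have : xc ^ K.1.length ≠ 0 := (pow_pos xc_pos _).ne'
    field_simp
  have hDle : ∀ K ∈ BB M a b c e, D K ≤ (DD K).toReal * Z / Gp := by
    intro K hK
    rw [← hDeq K, hD]
    simp only
    rw [hsumν K]
    exact div_le_div_of_nonneg_right (div_le_div_of_nonneg_right (ENNReal.toReal_mono (hwK K hK) (col_le K hK)) hGp0.le)
      (hq0 K).le
  have hDLam : ∀ K ∈ BB M a b c e, D K ≤ Lam := fun K hK => (hDle K hK).trans (by
    rw [div_le_iff₀ hGp0]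
    exact (det K hK).2)
  have hsubB : ∀ K, K ∈ BB M a' b' c' e' → K ∈ BB M a b c e := by
    intro K hK
    rw [mem_BB] at hK ⊢
    exact ⟨hK.1, hK.2.1, hsub _ hK.2.2⟩
  have hDin : ∀ K ∈ BB M a' b' c' e', D K = (DD K).toReal * Z / Gp := by
    intro K hK
    rw [← hDeq K, hD]
    simp only
    rw [hsumν K, col K hK]
  -- the local density
  obtain ⟨φ, hφd⟩ : ∃ φ : List Bool → ℝ, φ = fun v => if h : ∃ K, K ∈ BB M a' b' c' e' ∧ K ∈ Far ∧ wn T K = v then
    D h.choose / Lam else 0 := ⟨_, rfl⟩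
  have hφ : ∀ v, 0 ≤ φ v ∧ φ v ≤ 1 := by
    intro v
    rw [hφd]
    simp only
    split_ifs with h
    · refine ⟨div_nonneg (hD0 _) hLam.le, ?_⟩
      rw [div_le_one hLam]
      exact hDLam _ (hsubB _ h.choose_spec.1)
    · exact ⟨le_rfl, zero_le_one⟩
  have hφe : ∀ K ∈ BB M a' b' c' e', K ∈ Far → Lam * φ (wn T K) = D K := by
    intro K hK hF
    have h : ∃ K', K' ∈ BB M a' b' c' e' ∧ K' ∈ Far ∧ wn T K' = wn T K := ⟨K, hK, hF, rfl⟩
    rw [hφd]
    simp only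
    rw [dif_pos h]
    obtain ⟨g1, g2, g3⟩ := h.choose_spec
    rw [mul_div_cancel₀ _ hLam.ne', hDin _ g1, hDin K hK, loc _ g1 K hK g2 hF g3]
  obtain ⟨Dl, hDl⟩ : ∃ Dl : List Bool × ℕ → ℝ, Dl = fun K => if K ∈ BB M a' b' c' e' then Lam * φ (wn T K) else 0 := ⟨_, rfl⟩
  obtain ⟨ρ, hρ, hρ2, hP⟩ := dens φ hφ
  have hxZ : ∀ N : ℕ, 0 ≤ xc ^ N / Z := fun N => div_nonneg (pow_nonneg xc_pos.le _) hZ0.le
  have h7 := h7_all' hT ha hc hM hZ hZ0 hsub hφ hG hV0 hV hLam.le hρ hρ2 hεd hC hP bdry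
  -- (h6)
  have h6 : ∑ K ∈ BB M a b c e, qK Z K * |D K - Dl K| ≤ ε := by
    have g1 : ∀ K ∈ BB M a b c e, qK Z K * |D K - Dl K| ≤
        qK Z K * (Lam * (1 - if K ∈ BB M a' b' c' e' then 1 else 0)) +
          qK Z K * (if K ∈ BB M a' b' c' e' then Lam * TIP.ind (K.1 ∈ {H | ∃ k, k ∈ rk a' b' c' e' H.length ∧ (H, k) ∉ Far})
            else 0) := by
      intro K hK
      rw [← mul_add]
      refine mul_le_mul_of_nonneg_left ?_ (hq0 K).le
      rw [hDl]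
      simp only
      by_cases hin : K ∈ BB M a' b' c' e'
      · rw [if_pos hin, if_pos hin, if_pos hin, sub_self, mul_zero, zero_add]
        by_cases hF : K ∈ Far
        · rw [hφe K hin hF, sub_self, abs_zero]
          exact mul_nonneg hLam.le (TIP.ind_nonneg _)
        · rw [TIP.ind_pos (show K.1 ∈ {H | ∃ k, k ∈ rk a' b' c' e' H.length ∧ (H, k) ∉ Far} from
            ⟨K.2, (mem_BB.1 hin).2.2, hF⟩), mul_one]
          have q1 := hD0 K
          have q2 := hDLam K hK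
          have q3 := hφ (wn T K)
          have q4 : Lam * φ (wn T K) ≤ Lam * 1 := mul_le_mul_of_nonneg_left q3.2 hLam.le
          have q5 : 0 ≤ Lam * φ (wn T K) := mul_nonneg hLam.le q3.1
          rw [abs_le]
          constructor <;> linarith
      · rw [if_neg hin, if_neg hin, if_neg hin, sub_zero, sub_zero, mul_one, add_zero, abs_of_nonneg (hD0 K)]
        exact hDLam K hK
    refine (sum_le_sum g1).trans ?_
    rw [sum_add_distrib]
    have g2 : ∑ K ∈ BB M a b c e, qK Z K * (Lam * (1 - if K ∈ BB M a' b' c' e' then 1 else 0)) ≤ Lam * β := by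
      have e1 : ∑ K ∈ BB M a b c e, qK Z K * (Lam * (1 - if K ∈ BB M a' b' c' e' then 1 else 0)) =
          Lam * (∑ K ∈ BB M a b c e, qK Z K -
            ∑ K ∈ BB M a b c e, qK Z K * (if K ∈ BB M a' b' c' e' then 1 else 0)) := by
        rw [← sum_sub_distrib, mul_sum]
        exact sum_congr rfl fun K _ => by ring
      rw [e1]
      refine mul_le_mul_of_nonneg_left ?_ hLam.le
      rw [sum_qK, sum_BB' hsub (fun _ => 1), ← sum_sub_distrib]
      simp only [sum_const, nsmul_eq_mul, mul_one, card_sawF]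
      have e2 : ∑ N ∈ Finset.range M, (xc ^ N / Z * ((rk a b c e N).card * (cS N : ℝ)) -
          xc ^ N / Z * ((cS N : ℝ) * (rk a' b' c' e' N).card)) =
          (∑ N ∈ Finset.range M, aN N * ((rk a b c e N).card - (rk a' b' c' e' N).card : ℝ)) / Z := by
        unfold aN
        rw [sum_div]
        exact sum_congr rfl fun N _ => by ring
      rw [e2, div_le_iff₀ hZ0]
      exact bdry
    have g3 : ∑ K ∈ BB M a b c e, qK Z K * (if K ∈ BB M a' b' c' e' then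
        Lam * TIP.ind (K.1 ∈ {H | ∃ k, k ∈ rk a' b' c' e' H.length ∧ (H, k) ∉ Far}) else 0) ≤ Lam * εF := by
      rw [sum_BB' hsub (fun K => Lam * TIP.ind (K.1 ∈ {H | ∃ k, k ∈ rk a' b' c' e' H.length ∧ (H, k) ∉ Far}))]
      have e1 : ∀ N ∈ Finset.range M, xc ^ N / Z * ∑ H ∈ sawF N, ∑ k ∈ rk a' b' c' e' N,
          Lam * TIP.ind ((H, k).1 ∈ {H | ∃ k, k ∈ rk a' b' c' e' H.length ∧ (H, k) ∉ Far}) ≤
          Lam * εF * (xc ^ N / Z * ((rk a b c e N).card * (cS N : ℝ))) := by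
        intro N hN
        rcases (rk a b c e N).eq_empty_or_nonempty with hne | hne
        · have : rk a' b' c' e' N = ∅ := Finset.subset_empty.1 (hne ▸ hsub N)
          rw [this, hne]
          simp
        · have f1 := far N (Finset.mem_range.1 hN) hne
          have f2 := sum_ind_Pn N {H | ∃ k, k ∈ rk a' b' c' e' N ∧ (H, k) ∉ Far}
          have f3 : ∑ H ∈ sawF N, ∑ k ∈ rk a' b' c' e' N,
              Lam * TIP.ind ((H, k).1 ∈ {H | ∃ k, k ∈ rk a' b' c' e' H.length ∧ (H, k) ∉ Far}) =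
              Lam * (rk a' b' c' e' N).card * ∑ H ∈ sawF N, TIP.ind (H ∈ {H | ∃ k, k ∈ rk a' b' c' e' N ∧ (H, k) ∉ Far}) := by
            rw [mul_sum]
            refine sum_congr rfl fun H hH => ?_
            simp only
            rw [sum_const, nsmul_eq_mul]
            have hl : H.length = N := (mem_sawF.1 hH).1
            have : TIP.ind (H ∈ {H | ∃ k, k ∈ rk a' b' c' e' H.length ∧ (H, k) ∉ Far}) =
                TIP.ind (H ∈ {H | ∃ k, k ∈ rk a' b' c' e' N ∧ (H, k) ∉ Far}) := by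
              apply TIP.ind_congr
              rw [Set.mem_ofPred_eq, Set.mem_ofPred_eq, hl]
            rw [this]
            ring
          rw [f3, f2]
          have f4 : (0 : ℝ) ≤ cS N := Nat.cast_nonneg _
          have f5 : ((rk a' b' c' e' N).card : ℝ) ≤ (rk a b c e N).card := by
            exact_mod_cast Finset.card_le_card (hsub N)
          have f6 : (cS N : ℝ) * TOG.Pn N {H | ∃ k, k ∈ rk a' b' c' e' N ∧ (H, k) ∉ Far} ≤ cS N * εF :=
            mul_le_mul_of_nonneg_left f1 f4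
          have f7 : 0 ≤ TOG.Pn N {H | ∃ k, k ∈ rk a' b' c' e' N ∧ (H, k) ∉ Far} := by
            unfold TOG.Pn
            positivity
          have f8 : 0 ≤ εF := f7.trans f1
          calc xc ^ N / Z * (Lam * (rk a' b' c' e' N).card * (cS N * TOG.Pn N {H | ∃ k, k ∈ rk a' b' c' e' N ∧ (H, k) ∉ Far}))
              ≤ xc ^ N / Z * (Lam * (rk a b c e N).card * (cS N * εF)) :=
                mul_le_mul_of_nonneg_left (mul_le_mul (mul_le_mul_of_nonneg_left f5 hLam.le) f6 (mul_nonneg f4 f7)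
                  (mul_nonneg hLam.le (Nat.cast_nonneg _))) (hxZ N)
            _ = _ := by ring
      refine (sum_le_sum e1).trans ?_
      rw [← mul_sum, sum_BB1 hZ hZ0, mul_one]
    linarith [hε1, mul_add Lam β εF]
  -- (h4)
  have h4 : ∑ L ∈ A, ∑ K ∈ BB M a b c e, |ν L K| * |Φ L - G K| ≤ δ + Lam * τ := by
    have g1 : ∀ L ∈ A, ∀ K ∈ BB M a b c e, |ν L K| * |Φ L - G K| ≤ δ * ν L K + ν L K * TIP.ind (K ∈ Bd) := by
      intro L hL K hK
      rw [abs_of_nonneg (hν0 L K)]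
      rcases eq_or_ne (nu L K) 0 with h0 | h0
      · have : ν L K = 0 := by
          rw [hν]
          simp only
          rw [h0, ENNReal.toReal_zero, zero_div]
        rw [this]
        simp
      · by_cases hb : K ∈ Bd
        · rw [TIP.ind_pos hb, mul_one]
          have q1 : |Φ L - G K| ≤ 1 := by
            rw [abs_le]
            constructor <;> linarith [(hΦ L).1, (hΦ L).2, (hG K).1, (hG K).2]
          have q2 := mul_le_mul_of_nonneg_left q1 (hν0 L K)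
          have q3 := mul_nonneg hδ (hν0 L K)
          linarith
        · rw [TIP.ind_neg hb, mul_zero, add_zero, mul_comm]
          exact mul_le_mul_of_nonneg_right (hcmp L hL K h0 hb) (hν0 L K)
    refine (sum_le_sum fun L hL => sum_le_sum fun K hK => g1 L hL K hK).trans ?_
    simp only [sum_add_distrib, ← mul_sum]
    have g2 : ∑ L ∈ A, ∑ K ∈ BB M a b c e, ν L K * TIP.ind (K ∈ Bd) ≤ Lam * τ := by
      rw [sum_comm]
      have e1 : ∀ K ∈ BB M a b c e, ∑ L ∈ A, ν L K * TIP.ind (K ∈ Bd) ≤ Lam * (qK Z K * TIP.ind (K ∈ Bd)) := by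
        intro K hK
        rw [← sum_mul, h3 K]
        have q1 := hDLam K hK
        have q2 := (hq0 K).le
        have q3 := TIP.ind_nonneg (K ∈ Bd)
        calc D K * qK Z K * TIP.ind (K ∈ Bd) = D K * (qK Z K * TIP.ind (K ∈ Bd)) := by ring
          _ ≤ _ := mul_le_mul_of_nonneg_right q1 (mul_nonneg q2 q3)
      refine (sum_le_sum e1).trans ?_
      rw [← mul_sum]
      exact mul_le_mul_of_nonneg_left hBd hLam.le
    have g3 := mul_le_mul_of_nonneg_left hmass hδ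
    rw [mul_one] at g3
    linarith
  -- the kernel
  have hmain := kernD (A := A) (B := BB M a b c e) (p := fun L => wL L / Gp) (f := Φ) (q := qK Z) (g := G)
    (D := D) (Dl := Dl) (ν := ν) (ε := ε) (δ := δ + Lam * τ) (fun K _ => (hq0 K).le) ?_ hp1.le
    (fun L _ => by
      rw [abs_of_nonneg (hΦ L).1]
      exact (hΦ L).2)
    (fun K _ => by
      rw [abs_of_nonneg (hG K).1]
      exact (hG K).2) h1 h2 (fun K _ => h3 K) h4 h6 ?_
  · have e1 : ∑ L ∈ A, wL L / Gp * Φ L = (∑ L ∈ A, wL L * Φ L) / Gp := by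
      rw [sum_div]
      exact sum_congr rfl fun L _ => by ring
    rw [e1] at hmain
    exact hmain
  · rw [sum_qK]
    exact (sum_BB1 hZ hZ0).le
  · rw [hDl]
    exact h7.trans hε2

end KM

end RMP

end HexObs
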