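import Pool.Agent.RMP.KaFin
import Pool.Agent.ROT.RMMCore

/-!
# ROT / RMM (helper11), part 2: the renormalisation map for marked words, with explicit critical weights

* `MR n k d` : the marked words `(H, m)` with `k ≤ m ≤ (1 + d) k` and `n - k ≤ |H| - m ≤ (1 + d) (n - k)`;
* `LnkM` : the pair and the marked word (the mark lies in the link);
* **`RMM`** : the mean over the pairs `PR n k d S` (gap of the order `r`, any small `r`) = the mean over `MR n k d` with the critical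
  weights `xc ^ |H|` (one right side for all `r`, `S`), for functions of the marked word with bounded variation in the mark;
* **`rmm_of : KRows → RectP → RMM`**.
-/

set_option autoImplicit false

namespace HexObs

namespace RMP

namespace KM

open Finset TS SDN TIW NPR ARM KA

open Pool.Agent.TSW (VW)

open scoped ENNReal Classical

/-- the marked words of the rectangle of the pairs `PR n k d` -/
noncomputable def MR (n k : ℕ) (d : ℝ) : Finset (List Bool × ℕ) :=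
  BB (4 * n) k ⌊(1 + d) * (k : ℝ)⌋₊ (n - k) ⌊(1 + d) * ((n : ℝ) - k)⌋₊

/-- the weighted sum over the marked words of the rectangle -/
noncomputable def mS (n k : ℕ) (d : ℝ) (G : List Bool × ℕ → ℝ) : ℝ := ∑ K ∈ MR n k d, xc ^ K.1.length * G K

/-- **the pair `T` and the marked word `K`**: `Lnk`, the mark is in the link -/
def LnkM (ρ : ℝ) (n : ℕ) (T : PT) (K : List Bool × ℕ) : Prop :=
  ∃ (A Y1 : List Bool) (g : Pt × Pt) (B Y2 Q : List Bool) (x : Bool), T = (A ++ Y1, (g, B ++ Y2)) ∧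
    K.1 = A ++ (Q ++ (rev B ++ [x])) ∧ A.length ≤ K.2 ∧ K.2 ≤ A.length + Q.length ∧ g = gE K.1 ∧
    ((Y1.length + Y2.length + Q.length : ℕ) : ℝ) ≤ ρ * n ∧
    (∀ i, i ≤ Y1.length → (TIW.hn (vx oo up Y1 i) : ℝ) < ρ * (n : ℝ) ^ (3 / 4 : ℝ)) ∧
    (∀ i, i ≤ Y2.length → (TIW.hn (vx oo up Y2 i) : ℝ) < ρ * (n : ℝ) ^ (3 / 4 : ℝ)) ∧
    ∀ i, i ≤ Q.length → (TIW.hn (vx oo up Q i) : ℝ) < ρ * (n : ℝ) ^ (3 / 4 : ℝ)

lemma LnkM.lnk {ρ : ℝ} {n : ℕ} {T : PT} {K : List Bool × ℕ} (h : LnkM ρ n T K) : Lnk ρ n T K.1 := by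
  obtain ⟨A, Y1, g, B, Y2, Q, x, h1, h2, -, -, h3, h4, h5, h6, h7⟩ := h
  exact ⟨A, Y1, g, B, Y2, Q, x, h1, h2, h3, h4, h5, h6, h7⟩

/-- **the renormalisation map for marked words** -/
def RMM : Prop := ∀ ε d V : ℝ, 0 < ε → 0 < d → d ≤ 1 → 0 ≤ V → ∃ τ : ℝ, 0 < τ ∧ ∀ ρ : ℝ, 0 < ρ → ∃ r0 : ℝ, 0 < r0 ∧
  ∀ r : ℝ, 0 < r → r ≤ r0 → ∃ n0 : ℕ, ∀ n k : ℕ, n0 ≤ n → ε * n ≤ k → (k : ℝ) ≤ (1 - ε) * n →
    ∀ S : Set Pt, (∀ p : Pt, (TIW.hn p : ℝ) ≤ r * (n : ℝ) ^ (3 / 4 : ℝ) → p ∈ S) →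
      (∀ p ∈ S, (TIW.hn p : ℝ) ≤ 4 * r * (n : ℝ) ^ (3 / 4 : ℝ)) → (∀ v p : Pt, nrm v = 1 → p ∈ S → mulE v p ∈ S) →
        gp (PR n k d S) ≠ 0 ∧ gp (PR n k d S) ≠ ∞ ∧ 0 < mS n k d (fun _ => 1) ∧
          ∀ (Φ : PT → ℝ) (G : List Bool × ℕ → ℝ) (Bd : Set (List Bool × ℕ)), (∀ T, 0 ≤ Φ T) → (∀ T, Φ T ≤ 1) → (∀ t, 0 ≤ G t) →
            (∀ t, G t ≤ 1) → (∀ H ∈ SA, ∑ i ∈ range H.length, |G (H, i + 1) - G (H, i)| ≤ V) →
            mS n k d (fun K => TIP.ind (K ∈ Bd)) ≤ τ * mS n k d (fun _ => 1) →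
            (∀ T K, T ∈ PR n k d S → K.1 ∈ SA → LnkM ρ n T K → K ∉ Bd → |Φ T - G K| ≤ ε / 16) →
              |(gpF Φ (PR n k d S)).toReal / (gp (PR n k d S)).toReal - mS n k d G / mS n k d (fun _ => 1)| ≤ ε

/-- the way is a link -/
lemma way_lnkM {S : Set Pt} {X Y ρ : ℝ} {L : PT} {K : List Bool × ℕ} {n : ℕ} (hX : X ≤ ρ * n)
    (hY : Y < ρ * (n : ℝ) ^ (3 / 4 : ℝ)) (hw : Way S X Y L K) : LnkM ρ n L K := by
  obtain ⟨T, y, q, h1, h2, hg, -, -, hq, hs, p1, p2, p3⟩ := hw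
  have e2 : K.2 = T.1.length + q.2.1 := by
    rw [← h2]
    rfl
  refine ⟨T.1, y.1, T.2.1, T.2.2, y.2, q.1, q.2.2, h1.symm, ?_, by omega, by omega, hg, hs.trans hX,
    fun i hi => (p1 i hi).trans_lt hY, fun i hi => (p2 i hi).trans_lt hY, fun i hi => (p3 i hi).trans_lt hY⟩
  rw [← h2]
  rfl

lemma sum_qK_sub {M a b c e a0 b0 c0 e0 a' b' c' e' : ℕ} {Z Z0 β : ℝ} (hZ : Z = ZR M a b c e)
    (hZ1 : Z0 = ZR M a0 b0 c0 e0)
    (hs1 : ∀ N, rk a0 b0 c0 e0 N ⊆ rk a b c e N) (hs2 : ∀ N, rk a' b' c' e' N ⊆ rk a0 b0 c0 e0 N)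
    (hβ : ∑ N ∈ Finset.range M, aN N * ((rk a b c e N).card - (rk a' b' c' e' N).card : ℝ) ≤ β * Z) :
    Z - Z0 ≤ β * Z ∧ Z0 ≤ Z := by
  have ha : ∀ N, 0 ≤ aN N := fun N => by
    unfold aN
    have := xc_pos
    positivity
  rw [hZ1]
  constructor
  · have e1 : Z - ZR M a0 b0 c0 e0 = ∑ N ∈ Finset.range M, aN N * ((rk a b c e N).card - (rk a0 b0 c0 e0 N).card : ℝ) := by
      rw [hZ]
      unfold ZR
      rw [← sum_sub_distrib]
      exact sum_congr rfl fun N _ => by ring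
    rw [e1]
    refine le_trans (sum_le_sum fun N _ => mul_le_mul_of_nonneg_left ?_ (ha N)) hβ
    have : ((rk a' b' c' e' N).card : ℝ) ≤ (rk a0 b0 c0 e0 N).card := by
      exact_mod_cast Finset.card_le_card (hs2 N)
    linarith
  · rw [hZ]
    unfold ZR
    refine sum_le_sum fun N _ => mul_le_mul_of_nonneg_left ?_ (ha N)
    exact_mod_cast Finset.card_le_card (hs1 N)

/-- the change of the rectangle -/
lemma mean_sub {M a b c e a0 b0 c0 e0 : ℕ} {Z Z0 β : ℝ} (hZ : Z = ZR M a b c e) (hZ0 : 0 < Z) (hZ1 : Z0 = ZR M a0 b0 c0 e0)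
    (hZ01 : 0 < Z0) (hs1 : ∀ N, rk a0 b0 c0 e0 N ⊆ rk a b c e N) (h1 : Z - Z0 ≤ β * Z) (h2 : Z0 ≤ Z)
    {G : List Bool × ℕ → ℝ} (hG : ∀ t, 0 ≤ G t ∧ G t ≤ 1) :
    |∑ K ∈ BB M a b c e, qK Z K * G K - (∑ K ∈ BB M a0 b0 c0 e0, xc ^ K.1.length * G K) / Z0| ≤ 2 * β := by
  have hsubB : BB M a0 b0 c0 e0 ⊆ BB M a b c e := by
    intro K hK
    rw [mem_BB] at hK ⊢
    exact ⟨hK.1, hK.2.1, hs1 _ hK.2.2⟩
  have hx : ∀ K : List Bool × ℕ, 0 ≤ xc ^ K.1.length := fun K => (pow_pos xc_pos _).le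
  have hone : ∀ {a b c e : ℕ}, ∑ K ∈ BB M a b c e, xc ^ K.1.length = ZR M a b c e := by
    intro a b c e
    have h := sum_qK (M := M) (a := a) (b := b) (c := c) (e := e) (Z := 1)
    unfold qK at h
    simp only [div_one] at h
    rw [h]
    unfold ZR aN
    exact sum_congr rfl fun N _ => by ring
  obtain ⟨A, hA⟩ : ∃ A, A = ∑ K ∈ BB M a b c e, xc ^ K.1.length * G K := ⟨_, rfl⟩
  obtain ⟨B, hB⟩ : ∃ B, B = ∑ K ∈ BB M a0 b0 c0 e0, xc ^ K.1.length * G K := ⟨_, rfl⟩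
  have e1 : ∑ K ∈ BB M a b c e, qK Z K * G K = A / Z := by
    rw [hA, sum_div]
    exact sum_congr rfl fun K _ => by unfold qK; ring
  rw [e1, ← hB]
  have h3 : B ≤ A := by
    rw [hA, hB]
    exact sum_le_sum_of_subset_of_nonneg hsubB fun K _ _ => mul_nonneg (hx K) (hG K).1
  have h4 : A - B ≤ Z - Z0 := by
    rw [hA, hB, hZ, hZ1, ← hone (a := a), ← hone (a := a0), ← sum_sdiff_eq_sub hsubB, ← sum_sdiff_eq_sub hsubB]
    refine sum_le_sum fun K _ => ?_
    calc xc ^ K.1.length * G K ≤ xc ^ K.1.length * 1 := mul_le_mul_of_nonneg_left (hG K).2 (hx K)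
      _ = _ := mul_one _
  have h5 : 0 ≤ B ∧ B ≤ Z0 := by
    rw [hB, hZ1, ← hone (a := a0)]
    constructor
    · exact sum_nonneg fun K _ => mul_nonneg (hx K) (hG K).1
    · refine sum_le_sum fun K _ => ?_
      calc xc ^ K.1.length * G K ≤ xc ^ K.1.length * 1 := mul_le_mul_of_nonneg_left (hG K).2 (hx K)
        _ = _ := mul_one _
  have e2 : A / Z - B / Z0 = (A - B) / Z - (B / Z0) * ((Z - Z0) / Z) := by
    field_simp
    ring
  have h6 : 0 ≤ (A - B) / Z := div_nonneg (by linarith) hZ0.le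
  have h7 : (A - B) / Z ≤ β := by
    rw [div_le_iff₀ hZ0]
    linarith
  have h8 : 0 ≤ (Z - Z0) / Z := div_nonneg (by linarith) hZ0.le
  have h9 : (Z - Z0) / Z ≤ β := by
    rw [div_le_iff₀ hZ0]
    linarith
  have h10 : 0 ≤ B / Z0 := div_nonneg h5.1 hZ01.le
  have h11 : B / Z0 ≤ 1 := by
    rw [div_le_one hZ01]
    exact h5.2
  have h12 : 0 ≤ (B / Z0) * ((Z - Z0) / Z) := mul_nonneg h10 h8
  have h13 : (B / Z0) * ((Z - Z0) / Z) ≤ β := by nlinarith
  rw [e2, abs_le]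
  constructor <;> linarith

/-- **the renormalisation map for marked words** -/
theorem rmm_of (hK : KRows) (hR : RectP) : RMM := by
  intro ε d V hε hd hd1 hV0
  obtain ⟨ε1, hε1⟩ : ∃ e, e = ε / 16 := ⟨_, rfl⟩
  have hε10 : 0 < ε1 := by rw [hε1]; positivity
  obtain ⟨Lam0, C0, r1, w, hLam0, hC0, hr1, hK⟩ := hK ε1 ε1 d hε10 hε10 hd hd1
  obtain ⟨C2, n2, hC2, hR⟩ := hR ε1 d hε10 hd hd1
  have hC00 : 0 < C0 := by linarith
  obtain ⟨Lam, hLam⟩ : ∃ x, x = Lam0 * C2 := ⟨_, rfl⟩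
  have hLam' : 0 < Lam := by rw [hLam]; positivity
  obtain ⟨C3, hC3e⟩ : ∃ x, x = C2 * (1 + V) := ⟨_, rfl⟩
  have hC3 : 0 < C3 := by rw [hC3e]; positivity
  obtain ⟨εd, hεd⟩ : ∃ x, x = ε1 / (24 * (Lam * C3)) := ⟨_, rfl⟩
  have hεd0 : 0 < εd := by rw [hεd]; positivity
  obtain ⟨R, hRd⟩ := densW hεd0
  obtain ⟨δ, hδ⟩ : ∃ x, x = min (min (ε1 / (8 * (Lam * C3))) (1 / (6 * ((R : ℝ) + 1)))) ε1 := ⟨_, rfl⟩
  have hδ0 : 0 < δ := by
    rw [hδ]
    exact lt_min (lt_min (by positivity) (by positivity)) hε10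
  have hδ1 : δ ≤ ε1 / (8 * (Lam * C3)) := by
    rw [hδ]
    exact (min_le_left _ _).trans (min_le_left _ _)
  have hδ2 : δ ≤ 1 / (6 * ((R : ℝ) + 1)) := by
    rw [hδ]
    exact (min_le_left _ _).trans (min_le_right _ _)
  have hδ3 : δ ≤ ε1 := by
    rw [hδ]
    exact min_le_right _ _
  obtain ⟨rF, hrF, nF, hF⟩ := farN (d := δ / 8) (ε := ε1 / (2 * Lam)) (by positivity) (by positivity)
  refine ⟨ε1 / (2 * Lam), by positivity, fun ρ hρ => ?_⟩
  -- the share of the boundary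
  obtain ⟨η, hη⟩ : ∃ x, x = min (min (min (ε1 * d / 16) (1 / (4 * C2))) (min (ε1 / (8 * C2)) (ε1 / (8 * (Lam * C2)))))
    (min ρ (δ / 2)) := ⟨_, rfl⟩
  have hη0 : 0 < η := by
    rw [hη]
    exact lt_min (lt_min (by positivity) (by positivity)) (lt_min hρ (by positivity))
  have hη1 : η ≤ ε1 * d / 16 := by
    rw [hη]
    exact (min_le_left _ _).trans ((min_le_left _ _).trans (min_le_left _ _))
  have hη1' : η ≤ 1 / (4 * C2) := by
    rw [hη]
    exact (min_le_left _ _).trans ((min_le_left _ _).trans (min_le_right _ _))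
  have hη2' : η ≤ ε1 / (8 * C2) := by
    rw [hη]
    exact (min_le_left _ _).trans ((min_le_right _ _).trans (min_le_left _ _))
  have hη2 : η ≤ ε1 / (8 * (Lam * C2)) := by
    rw [hη]
    exact (min_le_left _ _).trans ((min_le_right _ _).trans (min_le_right _ _))
  have hη3 : η ≤ ρ := by
    rw [hη]
    exact (min_le_right _ _).trans (min_le_left _ _)
  have hη4 : η ≤ δ / 2 := by
    rw [hη]
    exact (min_le_right _ _).trans (min_le_right _ _)
  obtain ⟨r2, hr2, hrs⟩ := small_r hC00 (show 0 < η / 2 by positivity)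
  refine ⟨min (min r2 r1) (min (rF / (16 * 2 ^ w)) (ρ / (16 * C0))), by positivity, fun r hr hr0 => ?_⟩
  have hra : r ≤ r2 := hr0.trans ((min_le_left _ _).trans (min_le_left _ _))
  have hrb : r ≤ r1 := hr0.trans ((min_le_left _ _).trans (min_le_right _ _))
  have hrc : 16 * 2 ^ w * r ≤ rF := by
    have h1 := hr0.trans ((min_le_right _ _).trans (min_le_left _ _))
    rw [le_div_iff₀ (by positivity)] at h1
    linarith
  have hrd : 16 * C0 * r ≤ ρ := by
    have h1 := hr0.trans ((min_le_right _ _).trans (min_le_right _ _))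
    rw [le_div_iff₀ (by positivity)] at h1
    linarith
  obtain ⟨n3, hn3⟩ := large_n (c := 4 * r) (x := 1) (by positivity)
  obtain ⟨n4, hn4⟩ := exists_nat_ge (4 / η)
  obtain ⟨n5, hK⟩ := hK r hr hrb
  refine ⟨(n2 + 2 * nF) + (n3 + n4 + n5 + 1), fun n k hn hk1 hk2 S hS1 hS2 hSi => ?_⟩
  have hn0 : (0 : ℝ) < n := by exact_mod_cast (by omega : 0 < n)
  have hηn : 4 ≤ η * n := by
    have h1 : (4 : ℝ) / η ≤ n := hn4.trans (by exact_mod_cast (by omega : n4 ≤ n))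
    rw [div_le_iff₀ hη0] at h1
    linarith
  have hpn : (0 : ℝ) < (n : ℝ) ^ (3 / 4 : ℝ) := by positivity
  -- the level
  have hx1 : 1 ≤ 4 * r * (n : ℝ) ^ (3 / 4 : ℝ) := hn3 n (by omega)
  obtain ⟨j, hj1, hj2⟩ := level hx1
  have hj3 : (2 : ℝ) ^ j ≤ 8 * r * (n : ℝ) ^ (3 / 4 : ℝ) := by linarith
  have hk1' : ε1 * n ≤ k := le_trans (mul_le_mul_of_nonneg_right (by rw [hε1]; linarith) hn0.le) hk1
  have hk2' : (k : ℝ) ≤ (1 - ε1) * n := le_trans hk2 (mul_le_mul_of_nonneg_right (by rw [hε1]; linarith) hn0.le)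
  have hSb : ∀ p ∈ S, TIW.hn p ≤ 2 ^ j := by
    intro p hp
    have h1 := (hS2 p hp).trans hj1.le
    exact_mod_cast h1
  obtain ⟨hgp0, nu, DD, Good, hT⟩ := hK n k j S (by omega) ⟨hk1', hk2', hS1, hS2, hSi, hj1.le, hj3⟩
  -- the finite set of the pairs
  have hSfin : S.Finite := (ball_fin j).subset hSb
  obtain ⟨A, hA⟩ : ∃ A : Finset PT, (A : Set PT) = PR n k d S :=
    ⟨(Pool.Agent.RMP.W.PR_fin n k d hSfin).toFinset, Set.Finite.coe_toFinset _⟩
  have hmA : ∀ L, L ∈ A ↔ L ∈ PR n k d S := fun L => by rw [← hA, Finset.mem_coe]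
  have hgpt : gp (PR n k d S) ≠ ∞ := Pool.Agent.RMP.W.gp_PR_ne n k d hSfin
  -- the width of the boundary
  have hml := ml_le_of (by positivity) hj3
  have hX : C0 * ml j ≤ η / 2 * n := by
    have h1 := mul_le_mul_of_nonneg_left hml hC00.le
    have h2 := mul_le_mul_of_nonneg_right (hrs r hr hra) hn0.le
    linarith
  obtain ⟨W, hW⟩ : ∃ W : ℕ, W = ⌈C0 * ml j⌉₊ + 1 := ⟨_, rfl⟩
  have hmj : 0 ≤ C0 * ml j := by
    unfold ml
    positivity
  have hW1 : C0 * ml j + 1 ≤ W := by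
    rw [hW]
    push_cast
    linarith [Nat.le_ceil (C0 * ml j)]
  have hW2 : (W : ℝ) ≤ η * n := by
    rw [hW]
    push_cast
    have := (Nat.ceil_lt_add_one hmj).le
    linarith
  have hW3 : 1 ≤ W := by omega
  obtain ⟨k1, hk1e⟩ : ∃ x : ℕ, x = ⌊(1 + d) * (k : ℝ)⌋₊ := ⟨_, rfl⟩
  obtain ⟨l0, hl0e⟩ : ∃ x : ℕ, x = n - k := ⟨_, rfl⟩
  obtain ⟨l1, hl1e⟩ : ∃ x : ℕ, x = ⌊(1 + d) * ((n : ℝ) - k)⌋₊ := ⟨_, rfl⟩
  have hkn : k ≤ n := by
    have h1 : (k : ℝ) ≤ n := hk2'.trans (by nlinarith)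
    exact_mod_cast h1
  obtain ⟨q1, q2, q3, q4, q5⟩ := hR n k W k1 l0 l1 (by omega) hk1' hk2' (by nlinarith) hW3 hk1e hl0e hl1e
  obtain ⟨Z, hZ⟩ : ∃ Z, Z = ZR (4 * n) (k - W) (k1 + W) (l0 - W) (l1 + W) := ⟨_, rfl⟩
  rw [← hZ] at q1 q2 q3 q5
  -- the windows
  obtain ⟨T, hTe⟩ : ∃ T : ℕ, T = ⌊δ * n⌋₊ := ⟨_, rfl⟩
  have hδn : 8 ≤ δ * n := by nlinarith
  have hT1 : (T : ℝ) ≤ δ * n := by
    rw [hTe]
    exact Nat.floor_le (by positivity)
  have hT2 : δ * n / 2 ≤ T := by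
    have := (Nat.lt_floor_add_one (δ * n)).le
    rw [← hTe] at this
    linarith
  have hT3 : 1 ≤ T := by
    have : (1 : ℝ) ≤ T := by linarith
    exact_mod_cast this
  have hTk : T ≤ k := by
    have : (T : ℝ) ≤ k := hT1.trans (le_trans (mul_le_mul_of_nonneg_right hδ3 hn0.le) hk1')
    exact_mod_cast this
  have hTl : T ≤ l0 := by
    have h1 : (T : ℝ) ≤ (n : ℝ) - k := by
      have := mul_le_mul_of_nonneg_right hδ3 hn0.le
      linarith
    have h2 : ((n - k : ℕ) : ℝ) = (n : ℝ) - k := Nat.cast_sub hkn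
    rw [← h2, ← hl0e] at h1
    exact_mod_cast h1
  have hTX : C0 * ml j ≤ T := by
    have h1 : η / 2 * n ≤ δ * n / 2 := by nlinarith
    linarith
  -- the numbers of letters
  have hN : ∀ N, (rk (k - W) (k1 + W) (l0 - W) (l1 + W) N).Nonempty → (1 - d) * n ≤ (N : ℝ) ∧ (N : ℝ) ≤ (1 + 2 * d) * n ∧
      n ≤ 2 * N ∧ N < 4 * n := by
    rintro N ⟨k', hk'⟩
    rw [mem_rk] at hk'
    obtain ⟨h1, h2, h3, h4⟩ := q4 k' (N - k') hk'.1.1 hk'.1.2 (by omega) (by omega)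
    have e1 : k' + (N - k') = N := by omega
    rw [e1] at h1 h2 h3 h4
    exact ⟨h2, h3, h4, h1⟩
  have hsub : ∀ N, rk (k + W) (k1 - W) (l0 + W) (l1 - W) N ⊆ rk (k - W) (k1 + W) (l0 - W) (l1 + W) N := by
    intro N i hi
    rw [mem_rk] at hi ⊢
    omega
  -- the rectangle of the marked words
  have hsub1 : ∀ N, rk k k1 l0 l1 N ⊆ rk (k - W) (k1 + W) (l0 - W) (l1 + W) N := by
    intro N i hi
    rw [mem_rk] at hi ⊢
    omega
  have hsub2 : ∀ N, rk (k + W) (k1 - W) (l0 + W) (l1 - W) N ⊆ rk k k1 l0 l1 N := by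
    intro N i hi
    rw [mem_rk] at hi ⊢
    omega
  obtain ⟨Z0, hZ0⟩ : ∃ Z0, Z0 = ZR (4 * n) k k1 l0 l1 := ⟨_, rfl⟩
  have hWn : C2 * (W / n) ≤ C2 * η := by
    refine mul_le_mul_of_nonneg_left ?_ hC2.le
    rw [div_le_iff₀ hn0]
    exact hW2
  have hWb : C2 * (W / n) ≤ ε1 / 8 := by
    refine hWn.trans ?_
    rw [le_div_iff₀ (by positivity)] at hη2'
    linarith
  have hWc : C2 * (W / n) ≤ 1 / 4 := by
    refine hWn.trans ?_
    rw [le_div_iff₀ (by positivity)] at hη1'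
    linarith
  have hWb0 : 0 ≤ C2 * (W / n) := by positivity
  obtain ⟨z1, z2⟩ := sum_qK_sub (M := 4 * n) hZ hZ0 hsub1 hsub2 q3
  have hZ01 : 0 < Z0 := by nlinarith
  have hMR : MR n k d = BB (4 * n) k k1 l0 l1 := by
    unfold MR
    rw [← hk1e, ← hl0e, ← hl1e]
  have hmS1 : mS n k d (fun _ => 1) = Z0 := by
    unfold mS
    rw [hMR, hZ0]
    have h := sum_qK (M := 4 * n) (a := k) (b := k1) (c := l0) (e := l1) (Z := 1)
    unfold qK at h
    simp only [div_one] at h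
    simp only [mul_one]
    rw [h]
    unfold ZR aN
    exact sum_congr rfl fun N _ => by ring
  refine ⟨hgp0, hgpt, by rw [hmS1]; exact hZ01, fun Φ G Bd hΦ0 hΦ1 hG0 hG1 hVG hBd hcmp => ?_⟩
  · -- the kernel
    have hGG : ∀ t, 0 ≤ G t ∧ G t ≤ 1 := fun t => ⟨hG0 t, hG1 t⟩
    have hBd' : ∑ K ∈ BB (4 * n) (k - W) (k1 + W) (l0 - W) (l1 + W), qK Z K * TIP.ind (K ∈ Bd) ≤ ε1 / (2 * Lam) + C2 * (W / n) := by
      have hx : ∀ K : List Bool × ℕ, 0 ≤ xc ^ K.1.length := fun K => (pow_pos xc_pos _).le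
      have hsubB : BB (4 * n) k k1 l0 l1 ⊆ BB (4 * n) (k - W) (k1 + W) (l0 - W) (l1 + W) := by
        intro K hK
        rw [mem_BB] at hK ⊢
        exact ⟨hK.1, hK.2.1, hsub1 _ hK.2.2⟩
      have hone : ∀ {a b c e : ℕ}, ∑ K ∈ BB (4 * n) a b c e, xc ^ K.1.length = ZR (4 * n) a b c e := by
        intro a b c e
        have h := sum_qK (M := 4 * n) (a := a) (b := b) (c := c) (e := e) (Z := 1)
        unfold qK at h
        simp only [div_one] at h
        rw [h]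
        unfold ZR aN
        exact sum_congr rfl fun N _ => by ring
      have f1 : ∑ K ∈ BB (4 * n) (k - W) (k1 + W) (l0 - W) (l1 + W), xc ^ K.1.length * TIP.ind (K ∈ Bd) ≤
          ∑ K ∈ BB (4 * n) k k1 l0 l1, xc ^ K.1.length * TIP.ind (K ∈ Bd) + (Z - Z0) := by
        rw [hZ, hZ0, ← hone (a := k - W), ← hone (a := k), ← sum_sdiff_eq_sub hsubB, ← sum_sdiff hsubB, add_comm]
        refine add_le_add_right (sum_le_sum fun K _ => ?_) _
        calc xc ^ K.1.length * TIP.ind (K ∈ Bd) ≤ xc ^ K.1.length * 1 := mul_le_mul_of_nonneg_left (TIP.ind_le_one _) (hx K)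
          _ = _ := mul_one _
      have f2 : ∑ K ∈ BB (4 * n) k k1 l0 l1, xc ^ K.1.length * TIP.ind (K ∈ Bd) ≤ ε1 / (2 * Lam) * Z0 := by
        rw [hmS1] at hBd
        unfold mS at hBd
        rw [hMR] at hBd
        exact hBd
      have f3 : ε1 / (2 * Lam) * Z0 ≤ ε1 / (2 * Lam) * Z := mul_le_mul_of_nonneg_left z2 (by positivity)
      have f4 : ∑ K ∈ BB (4 * n) (k - W) (k1 + W) (l0 - W) (l1 + W), qK Z K * TIP.ind (K ∈ Bd) =
          (∑ K ∈ BB (4 * n) (k - W) (k1 + W) (l0 - W) (l1 + W), xc ^ K.1.length * TIP.ind (K ∈ Bd)) / Z := by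
        rw [sum_div]
        exact sum_congr rfl fun K _ => by unfold qK; ring
      rw [f4, div_le_iff₀ q1]
      linarith
    have hGp0 : 0 < ∑ L ∈ A, wL L := by
      rw [← gp_toReal, hA]
      exact ENNReal.toReal_pos hgp0 hgpt
    have hGe : ENNReal.ofReal (∑ L ∈ A, wL L) = gp (PR n k d S) := by
      rw [← gp_toReal, hA, ENNReal.ofReal_toReal hgpt]
    have hmain := km_core (A := A) (nu := nu) (DD := DD) (Good := Good) (Far := {K | Far T (j + w) K}) (M := 4 * n)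
      (a := k - W) (b := k1 + W) (c := l0 - W) (e := l1 + W) (a' := k + W) (b' := k1 - W) (c' := l0 + W) (e' := l1 - W)
      (T := T) (Z := Z) (Gp := ∑ L ∈ A, wL L) (Lam := Lam) (C := C2) (ε := ε1) (εd := εd) (εF := ε1 / (2 * Lam))
      (β := C2 * (W / n)) (τ := ε1 / (2 * Lam) + C2 * (W / n)) (δ := ε / 16) (V := V) (Φ := Φ) (G := G) (Bd := Bd)
      hT3 (by omega) (by omega) (by omega) hZ q1 rfl hGp0 hLam' hεd0.le hsub (fun L _ => hT.rle L) ?_
      (fun L _ hg => hT.row L hg) ?_ ?_ ?_ ?_ ?_ ?_ q3 q2 ?_ (fun L => ⟨hΦ0 L, hΦ1 L⟩) hGG hV0 ?_ hBd'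
      (by positivity) ?_ ?_ ?_
    · have h5 : Lam * (C2 * (W / n)) ≤ ε1 / 8 := by
        have h4 : Lam * (C2 * (W / n)) ≤ Lam * (C2 * η) := mul_le_mul_of_nonneg_left hWn hLam'.le
        rw [le_div_iff₀ (by positivity)] at hη2
        linarith
      have e1 : Lam * (ε1 / (2 * Lam) + C2 * (W / n)) ≤ ε1 := by
        have e3 : Lam * (ε1 / (2 * Lam)) = ε1 / 2 := by field_simp
        rw [mul_add, e3]
        linarith
      have h6 := mean_sub (M := 4 * n) hZ q1 hZ0 hZ01 hsub1 z1 z2 hGG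
      have h2 : (gpF Φ (PR n k d S)).toReal = ∑ L ∈ A, wL L * Φ L := by
        rw [← hA]
        exact gpF_toReal hΦ0 A
      have h3 : (gp (PR n k d S)).toReal = ∑ L ∈ A, wL L := by
        rw [← hA]
        exact gp_toReal A
      have h7 : mS n k d G = ∑ K ∈ BB (4 * n) k k1 l0 l1, xc ^ K.1.length * G K := by
        unfold mS
        rw [hMR]
      rw [h2, h3, hmS1, h7]
      have h8 := abs_sub_le ((∑ L ∈ A, wL L * Φ L) / ∑ L ∈ A, wL L)
        (∑ K ∈ BB (4 * n) (k - W) (k1 + W) (l0 - W) (l1 + W), qK Z K * G K)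
        ((∑ K ∈ BB (4 * n) k k1 l0 l1, xc ^ K.1.length * G K) / Z0)
      linarith
    · -- the ways end in the rectangle
      intro L hL K hne
      exact way_supp hW1 hk1e hl0e hl1e ((hmA L).1 hL) (hT.way L K hne) fun k' l h1 h2 h3 h4 => (q4 k' l h1 h2 h3 h4).1
    · -- most of the pairs are good
      have h1 := hT.many
      have e1 : gp {L | L ∈ PR n k d S ∧ L ∉ Good} = ∑ L ∈ A with L ∉ Good, wE L.1 * wE L.2.2 := by
        rw [← gp_finset]
        congr 1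
        ext L
        rw [Finset.coe_filter]
        show (L ∈ PR n k d S ∧ L ∉ Good) ↔ (L ∈ A ∧ L ∉ Good)
        rw [hmA]
      rw [e1] at h1
      have h2 := ENNReal.toReal_mono (ENNReal.mul_ne_top ENNReal.ofReal_ne_top hgpt) h1
      rw [ENNReal.toReal_sum fun T _ => ENNReal.mul_ne_top (wE_ne_top _) (wE_ne_top _), ENNReal.toReal_mul,
        ENNReal.toReal_ofReal hε10.le, ← hA, gp_toReal] at h2
      exact h2
    · intro K _
      refine (ENNReal.sum_le_tsum A).trans (le_of_eq ?_)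
      exact hT.col K
    · intro K hKb
      rw [← hT.col K, tsum_eq_sum]
      intro L hL
      by_contra hne
      exact hL ((hmA L).2 (way_back hW1 (by linarith) hkn hk1e hl0e hl1e hKb (hT.way L K hne)))
    · intro K hKb
      have hsa := (mem_BB.1 hKb).2.1
      have h1 := hT.det K hsa
      have hnp : (0 : ℝ) < (n : ℝ) ^ (75 / 32 : ℝ) := by positivity
      have hne : DD K ≠ ∞ := by
        intro h0
        rw [h0, ENNReal.top_mul (ENNReal.ofReal_pos.2 hnp).ne', top_le_iff] at h1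
        exact ENNReal.mul_ne_top ENNReal.ofReal_ne_top hgpt h1
      refine ⟨hne, ?_⟩
      have h2 := ENNReal.toReal_mono (ENNReal.mul_ne_top ENNReal.ofReal_ne_top hgpt) h1
      rw [ENNReal.toReal_mul, ENNReal.toReal_mul, ENNReal.toReal_ofReal hnp.le, ENNReal.toReal_ofReal hLam0.le, ← hA,
        gp_toReal] at h2
      have h3 : (0 : ℝ) ≤ (DD K).toReal := ENNReal.toReal_nonneg
      calc (DD K).toReal * Z ≤ (DD K).toReal * (C2 * (n : ℝ) ^ (75 / 32 : ℝ)) := mul_le_mul_of_nonneg_left q5 h3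
        _ = C2 * ((DD K).toReal * (n : ℝ) ^ (75 / 32 : ℝ)) := by ring
        _ ≤ C2 * (Lam0 * ∑ L ∈ A, wL L) := mul_le_mul_of_nonneg_left h2 hC2.le
        _ = _ := by
          rw [hLam]
          ring
    · intro K hKb K' hKb' hf hf' hw
      exact hT.loc T hTX K K' (mem_BB.1 hKb).2.1 (mem_BB.1 hKb').2.1 hf hf' hw
    · -- no far strand
      intro N hN4 hne
      obtain ⟨-, -, hN3, -⟩ := hN N hne
      have hNp := pow_half hN3
      have h1 : TOG.Pn N {H | ∃ k', k' ∈ rk (k + W) (k1 - W) (l0 + W) (l1 - W) N ∧ (H, k') ∉ {K | Far T (j + w) K}} ≤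
          TOG.Pn N {H | FarN.NearW (δ / 8) rF N H} := by
        refine TIP.Nf.Pn_mono fun H hH hx => ?_
        obtain ⟨k', hk', hnf⟩ := hx
        rw [mem_rk] at hk'
        refine near_of_not_far (T := T) (w := j + w) hH.1 (by omega) (by omega) ?_ ?_ hnf
        · have : (N : ℝ) ≤ 4 * n := by exact_mod_cast hN4.le
          nlinarith
        · rw [pow_add]
          calc (2 : ℝ) ^ j * 2 ^ w ≤ (8 * r * (n : ℝ) ^ (3 / 4 : ℝ)) * 2 ^ w := mul_le_mul_of_nonneg_right hj3 (by positivity)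
            _ ≤ (8 * r * (2 * (N : ℝ) ^ (3 / 4 : ℝ))) * 2 ^ w :=
              mul_le_mul_of_nonneg_right (mul_le_mul_of_nonneg_left hNp (by positivity)) (by positivity)
            _ = 16 * 2 ^ w * r * (N : ℝ) ^ (3 / 4 : ℝ) := by ring
            _ ≤ rF * (N : ℝ) ^ (3 / 4 : ℝ) := mul_le_mul_of_nonneg_right hrc (by positivity)
      refine h1.trans ?_
      rw [MCP.Pn_Eu]
      have h2 := hF N (by omega)
      refine le_trans (le_of_eq ?_) h2
      congr 1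
    · -- the densities
      intro φ hφ
      obtain ⟨r', hr'0, hr'2, hr'⟩ := hRd (2 * T) (fun v => φ (List.ofFn v)) (fun v => hφ _)
      refine ⟨r', hr'0, hr'2, fun N _ hne => hr' N ?_⟩
      obtain ⟨-, -, hN3, -⟩ := hN N (hne.mono (hsub N))
      have h1 : (n : ℝ) ≤ 2 * N := by exact_mod_cast hN3
      have hR0 : (0 : ℝ) ≤ R := Nat.cast_nonneg R
      rw [le_div_iff₀ (by positivity)] at hδ2
      have hT' : (1 : ℝ) ≤ T := by exact_mod_cast hT3
      have h2 : (R : ℝ) * (2 * T + 1) ≤ N := by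
        calc (R : ℝ) * (2 * T + 1) ≤ (R + 1) * (3 * T) := by nlinarith
          _ ≤ (R + 1) * (3 * (δ * n)) := by
            refine mul_le_mul_of_nonneg_left ?_ (by positivity)
            linarith
          _ = (δ * (6 * ((R : ℝ) + 1))) * n / 2 := by ring
          _ ≤ 1 * n / 2 := by
            have := mul_le_mul_of_nonneg_right hδ2 hn0.le
            linarith
          _ ≤ N := by linarith
      exact_mod_cast h2
    · intro N _ H hH
      have h1 := hVG H (mem_sawF.1 hH).2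
      rw [(mem_sawF.1 hH).1] at h1
      exact h1
    · intro L hL K hne hb
      have hw := hT.way L K hne
      have hsa : K.1 ∈ SA := by
        obtain ⟨-, -, -, -, -, -, h, -⟩ := hw
        exact h
      refine hcmp L K ((hmA L).1 hL) hsa (way_lnkM ?_ ?_ hw) hb
      · have : η / 2 * n ≤ ρ * n := mul_le_mul_of_nonneg_right (by linarith) hn0.le
        linarith
      · calc C0 * 2 ^ j ≤ C0 * (8 * r * (n : ℝ) ^ (3 / 4 : ℝ)) := mul_le_mul_of_nonneg_left hj3 hC00.le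
          _ = 8 * C0 * r * (n : ℝ) ^ (3 / 4 : ℝ) := by ring
          _ < ρ * (n : ℝ) ^ (3 / 4 : ℝ) := by
            refine mul_lt_mul_of_pos_right ?_ hpn
            have : 0 < C0 * r := by positivity
            linarith
    · -- hε1
      have h1 : Lam * (ε1 / (2 * Lam)) = ε1 / 2 := by field_simp
      have h2 : Lam * (C2 * (W / n)) ≤ ε1 / 8 := by
        have h3 : (W : ℝ) / n ≤ η := by
          rw [div_le_iff₀ hn0]
          exact hW2
        have h4 : Lam * (C2 * (W / n)) ≤ Lam * C2 * η := by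
          rw [← mul_assoc]
          exact mul_le_mul_of_nonneg_left h3 (by positivity)
        have h5 : Lam * C2 * η ≤ ε1 / 8 := by
          rw [le_div_iff₀ (by positivity)] at hη2
          linarith
        linarith
      rw [mul_add, h1]
      linarith
    · -- hε2
      have e0 : ((4 * n : ℕ) : ℝ) = 4 * n := by push_cast; ring
      have h1 : 4 * (T : ℝ) / ((4 * n : ℕ) : ℝ) ≤ δ := by
        rw [e0, div_le_iff₀ (by positivity)]
        linarith
      have hLC : 0 < Lam * C3 := by positivity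
      have h2 : Lam * C3 * (3 * εd) = ε1 / 8 := by
        rw [hεd]
        field_simp
        ring
      have h3 : Lam * C3 * δ ≤ ε1 / 8 := by
        rw [le_div_iff₀ (by positivity)] at hδ1
        linarith
      have h4 : Lam * (C2 * (W / n)) ≤ ε1 / 8 := by
        have h3 : (W : ℝ) / n ≤ η := by
          rw [div_le_iff₀ hn0]
          exact hW2
        have h4 : Lam * (C2 * (W / n)) ≤ Lam * C2 * η := by
          rw [← mul_assoc]
          exact mul_le_mul_of_nonneg_left h3 (by positivity)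
        have h5 : Lam * C2 * η ≤ ε1 / 8 := by
          rw [le_div_iff₀ (by positivity)] at hη2
          linarith
        linarith
      have h5 : Lam * (C2 * ((1 + V) * (3 * εd + 4 * (T : ℝ) / ((4 * n : ℕ) : ℝ)))) ≤ ε1 / 4 := by
        calc Lam * (C2 * ((1 + V) * (3 * εd + 4 * (T : ℝ) / ((4 * n : ℕ) : ℝ)))) =
              Lam * C3 * (3 * εd) + Lam * C3 * (4 * (T : ℝ) / ((4 * n : ℕ) : ℝ)) := by rw [hC3e]; ring
          _ ≤ Lam * C3 * (3 * εd) + Lam * C3 * δ := by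
            have := mul_le_mul_of_nonneg_left h1 hLC.le
            linarith
          _ ≤ ε1 / 4 := by
            rw [h2]
            linarith
      have h6 : 2 * Lam * (C2 * (W / n)) ≤ ε1 / 4 := by
        have : 2 * Lam * (C2 * (W / n)) = 2 * (Lam * (C2 * (W / n))) := by ring
        rw [this]
        linarith
      linarith

end KM

end RMP

end HexObs
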