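import Pool.Agent.ROT.RMM

/-!
# ROT / RMM (helper11), part 4: arbitrary functions of the two parts away from the mark

* `cut2 j j' H` : the first `j` letters of `H`, and the `j'` letters before the last one, backwards, placed in the frame `gE H`;
* `avM W φ (H, m)` : the average of `φ` over the parts cut at the distances `W + s`, `W + s'` (`s, s' < W`) from the mark;
  `avT W φ T` : the same for a pair, cut before its tips;
* **`av_rmm`** : for EVERY function `0 ≤ φ ≤ 1` of the two parts and their relative position the mean of `avT W φ` over the pairs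
  `PR n k d S` = the mean of `avM W φ` over the marked words `MR n k d` up to `ε`, `W ≥ θ n`.
-/

set_option autoImplicit false

namespace HexObs

namespace RMP

namespace KM

open Finset TS SDN TIW NPR ARM KA

open scoped ENNReal Classical

/-! ### 1. Sums over shifts -/

lemma shift_step {f : ℕ → ℝ} (hf : ∀ i, 0 ≤ f i ∧ f i ≤ 1) (b W : ℕ) :
    |∑ s ∈ range W, f (b + 1 - s) - ∑ s ∈ range W, f (b - s)| ≤ 1 := by
  rcases W with _ | w
  · simp
  · rw [sum_range_succ', sum_range_succ (fun s => f (b - s))]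
    have h1 : ∀ s, f (b + 1 - (s + 1)) = f (b - s) := fun s => by rw [Nat.add_sub_add_right]
    simp only [h1, Nat.sub_zero]
    rw [add_sub_add_left_eq_sub, abs_le]
    constructor <;> linarith [(hf (b + 1)).1, (hf (b + 1)).2, (hf (b - w)).1, (hf (b - w)).2]

lemma shift_add {f : ℕ → ℝ} (hf : ∀ i, 0 ≤ f i ∧ f i ≤ 1) (b W c : ℕ) :
    |∑ s ∈ range W, f (b + c - s) - ∑ s ∈ range W, f (b - s)| ≤ c := by
  induction c with
  | zero => simp
  | succ c ih =>
    have h1 := shift_step hf (b + c) W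
    have h2 := abs_sub_le (∑ s ∈ range W, f (b + (c + 1) - s)) (∑ s ∈ range W, f (b + c - s)) (∑ s ∈ range W, f (b - s))
    rw [← add_assoc] at h2
    push_cast
    rw [← add_assoc]
    linarith

lemma shift_le {f : ℕ → ℝ} (hf : ∀ i, 0 ≤ f i ∧ f i ≤ 1) {a b W c : ℕ} (h1 : a ≤ b + c) (h2 : b ≤ a + c) :
    |∑ s ∈ range W, f (a - s) - ∑ s ∈ range W, f (b - s)| ≤ c := by
  rcases le_total a b with h | h
  · obtain ⟨e, rfl⟩ := Nat.exists_eq_add_of_le h
    rw [abs_sub_comm]
    refine (shift_add hf a W e).trans ?_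
    exact_mod_cast (by omega : e ≤ c)
  · obtain ⟨e, rfl⟩ := Nat.exists_eq_add_of_le h
    refine (shift_add hf b W e).trans ?_
    exact_mod_cast (by omega : e ≤ c)

lemma shift2_le {F : ℕ → ℕ → ℝ} (hF : ∀ i j, 0 ≤ F i j ∧ F i j ≤ 1) {a b a' b' W c c' : ℕ} (h1 : a ≤ b + c) (h2 : b ≤ a + c)
    (h1' : a' ≤ b' + c') (h2' : b' ≤ a' + c') :
    |∑ s ∈ range W, ∑ s' ∈ range W, F (a - s) (a' - s') - ∑ s ∈ range W, ∑ s' ∈ range W, F (b - s) (b' - s')| ≤
      W * ((c : ℝ) + c') := by
  have e1 : |∑ s ∈ range W, ∑ s' ∈ range W, F (a - s) (a' - s') - ∑ s ∈ range W, ∑ s' ∈ range W, F (b - s) (a' - s')| ≤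
      W * (c : ℝ) := by
    rw [sum_comm, sum_comm (f := fun s s' => F (b - s) (a' - s')), ← sum_sub_distrib]
    refine (abs_sum_le_sum_abs _ _).trans ?_
    refine (sum_le_card_nsmul _ _ (c : ℝ) fun s' _ => ?_).trans ?_
    · exact shift_le (f := fun i => F i (a' - s')) (fun i => hF i _) h1 h2
    · rw [card_range, nsmul_eq_mul]
  have e2 : |∑ s ∈ range W, ∑ s' ∈ range W, F (b - s) (a' - s') - ∑ s ∈ range W, ∑ s' ∈ range W, F (b - s) (b' - s')| ≤
      W * (c' : ℝ) := by
    rw [← sum_sub_distrib]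
    refine (abs_sum_le_sum_abs _ _).trans ?_
    refine (sum_le_card_nsmul _ _ (c' : ℝ) fun s _ => ?_).trans ?_
    · exact shift_le (f := fun j => F (b - s) j) (fun j => hF _ j) h1' h2'
    · rw [card_range, nsmul_eq_mul]
  have e3 := abs_sub_le (∑ s ∈ range W, ∑ s' ∈ range W, F (a - s) (a' - s'))
    (∑ s ∈ range W, ∑ s' ∈ range W, F (b - s) (a' - s')) (∑ s ∈ range W, ∑ s' ∈ range W, F (b - s) (b' - s'))
  linarith

lemma sum2_bd {F : ℕ → ℕ → ℝ} (hF : ∀ i j, 0 ≤ F i j ∧ F i j ≤ 1) (W : ℕ) :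
    0 ≤ (∑ s ∈ range W, ∑ s' ∈ range W, F s s') / (W * W : ℝ) ∧ (∑ s ∈ range W, ∑ s' ∈ range W, F s s') / (W * W : ℝ) ≤ 1 := by
  constructor
  · exact div_nonneg (sum_nonneg fun s _ => sum_nonneg fun s' _ => (hF s s').1) (by positivity)
  · rcases W with _ | w
    · simp
    · have hw : (0 : ℝ) < ((w + 1 : ℕ) : ℝ) := by positivity
      rw [div_le_one (mul_pos hw hw)]
      refine (sum_le_card_nsmul _ _ (((w + 1 : ℕ) : ℝ) * 1) fun s _ => ?_).trans ?_
      · refine (sum_le_card_nsmul _ _ (1 : ℝ) fun s' _ => (hF s s').2).trans ?_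
        rw [card_range, nsmul_eq_mul]
      · rw [card_range, nsmul_eq_mul, mul_one]

/-! ### 2. The parts -/

/-- the first `j` letters, and the `j'` letters before the last one, backwards, in the frame at the end -/
noncomputable def cut2 (j j' : ℕ) (H : List Bool) : PT := (H.take j, (gE H, rev ((H.drop (H.length - 1 - j')).dropLast)))

/-- the average over the cuts near the mark -/
noncomputable def avM (W : ℕ) (φ : PT → ℝ) (K : List Bool × ℕ) : ℝ :=
  (∑ s ∈ range W, ∑ s' ∈ range W, φ (cut2 (K.2 - W - s) (K.1.length - 1 - K.2 - W - s') K.1)) / (W * W : ℝ)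

/-- the average over the cuts near the tips -/
noncomputable def avT (W : ℕ) (φ : PT → ℝ) (T : PT) : ℝ :=
  (∑ s ∈ range W, ∑ s' ∈ range W, φ (T.1.take (T.1.length - W - s), (T.2.1, T.2.2.take (T.2.2.length - W - s')))) / (W * W : ℝ)

lemma avM_bd {φ : PT → ℝ} (hφ : ∀ T, 0 ≤ φ T ∧ φ T ≤ 1) (W : ℕ) (K : List Bool × ℕ) : 0 ≤ avM W φ K ∧ avM W φ K ≤ 1 :=
  sum2_bd (F := fun s s' => φ (cut2 (K.2 - W - s) (K.1.length - 1 - K.2 - W - s') K.1)) (fun _ _ => hφ _) W

lemma avT_bd {φ : PT → ℝ} (hφ : ∀ T, 0 ≤ φ T ∧ φ T ≤ 1) (W : ℕ) (T : PT) : 0 ≤ avT W φ T ∧ avT W φ T ≤ 1 :=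
  sum2_bd (F := fun s s' => φ (T.1.take (T.1.length - W - s), (T.2.1, T.2.2.take (T.2.2.length - W - s')))) (fun _ _ => hφ _) W

/-- the variation in the mark -/
lemma avM_step {φ : PT → ℝ} (hφ : ∀ T, 0 ≤ φ T ∧ φ T ≤ 1) {W : ℕ} (hW : 0 < W) (H : List Bool) (m : ℕ) :
    |avM W φ (H, m + 1) - avM W φ (H, m)| ≤ 2 / W := by
  unfold avM
  have hW' : (0 : ℝ) < W := by exact_mod_cast hW
  have h := shift2_le (F := fun j j' => φ (cut2 j j' H)) (fun _ _ => hφ _) (a := m + 1 - W) (b := m - W)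
    (a' := H.length - 1 - (m + 1) - W) (b' := H.length - 1 - m - W) (W := W) (c := 1) (c' := 1) (by omega) (by omega) (by omega)
    (by omega)
  rw [div_sub_div_same, abs_div, abs_of_pos (mul_pos hW' hW'), div_le_div_iff₀ (mul_pos hW' hW') hW']
  push_cast at h
  have h2 := mul_le_mul_of_nonneg_right h hW'.le
  calc _ ≤ (W : ℝ) * (1 + 1) * W := h2
    _ = 2 * (W * W) := by ring

lemma rev_drop_rev {B : List Bool} {j : ℕ} (hj : j ≤ B.length) : rev ((rev B).drop (B.length - j)) = B.take j := by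
  unfold rev
  rw [List.drop_reverse, List.map_reverse, List.reverse_reverse, List.length_map, List.map_take, List.map_map]
  have h1 : B.length - (B.length - j) = j := by omega
  rw [h1]
  have h2 : (not ∘ not) = (id : Bool → Bool) := by
    funext b
    simp
  rw [h2, List.map_id]

/-- **linked objects have the same parts** -/
lemma cut2_eq {A Q B : List Bool} {x : Bool} {j j' : ℕ} (hj : j ≤ A.length) (hj' : j' ≤ B.length) :
    cut2 j j' (A ++ (Q ++ (rev B ++ [x]))) = (A.take j, (gE (A ++ (Q ++ (rev B ++ [x]))), B.take j')) := by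
  have hl : (A ++ (Q ++ (rev B ++ [x]))).length - 1 - j' = A.length + (Q.length + (B.length - j')) := by
    simp only [List.length_append, List.length_cons, List.length_nil, rev_length]
    omega
  have h1 : (rev B ++ [x]).drop (B.length - j') = (rev B).drop (B.length - j') ++ [x] := by
    rw [List.drop_append_of_le_length]
    rw [rev_length]
    omega
  have h2 : (A ++ (Q ++ (rev B ++ [x]))).drop (A.length + (Q.length + (B.length - j'))) = (rev B).drop (B.length - j') ++ [x] := by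
    rw [← h1, List.drop_length_add_append, List.drop_length_add_append]
  unfold cut2
  rw [hl, h2, List.take_append_of_le_length hj, List.dropLast_concat, rev_drop_rev hj']

/-- **the two averages agree on linked objects** -/
lemma avT_avM {φ : PT → ℝ} (hφ : ∀ T, 0 ≤ φ T ∧ φ T ≤ 1) {W n : ℕ} {ρ : ℝ} (hW : 0 < W) (hρ : ρ * n ≤ W) {T : PT}
    {K : List Bool × ℕ} (h : LnkM ρ n T K) : |avT W φ T - avM W φ K| ≤ 2 * (ρ * n) / W := by
  obtain ⟨A, Y1, g, B, Y2, Q, x, h1, h2, h3, h4, h5, h6, -⟩ := h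
  obtain ⟨H, m⟩ := K
  simp only at h2 h3 h4 h5
  have hW' : (0 : ℝ) < W := by exact_mod_cast hW
  have hY : Y1.length + Y2.length + Q.length ≤ W := by exact_mod_cast h6.trans hρ
  have hl : H.length = A.length + Q.length + B.length + 1 := by
    rw [h2]
    simp only [List.length_append, List.length_cons, List.length_nil, rev_length]
    omega
  obtain ⟨F, hF⟩ : ∃ F : ℕ → ℕ → ℝ, F = fun j j' => φ (A.take j, (g, B.take j')) := ⟨_, rfl⟩
  have hFb : ∀ i j, 0 ≤ F i j ∧ F i j ≤ 1 := fun i j => by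
    rw [hF]
    exact hφ _
  have e1 : avT W φ T = (∑ s ∈ range W, ∑ s' ∈ range W, F (A.length + Y1.length - W - s) (B.length + Y2.length - W - s')) /
      (W * W : ℝ) := by
    unfold avT
    congr 1
    refine sum_congr rfl fun s _ => sum_congr rfl fun s' _ => ?_
    rw [h1, hF]
    simp only [List.length_append]
    rw [List.take_append_of_le_length (by omega), List.take_append_of_le_length (by omega)]
  have e2 : avM W φ (H, m) = (∑ s ∈ range W, ∑ s' ∈ range W, F (m - W - s) (A.length + Q.length + B.length - m - W - s')) /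
      (W * W : ℝ) := by
    unfold avM
    congr 1
    refine sum_congr rfl fun s _ => sum_congr rfl fun s' _ => ?_
    simp only
    have e3 : H.length - 1 - m - W - s' = A.length + Q.length + B.length - m - W - s' := by omega
    rw [e3, hF, h5, h2, cut2_eq (by omega) (by omega)]
  have h7 := shift2_le hFb (a := A.length + Y1.length - W) (b := m - W) (a' := B.length + Y2.length - W)
    (b' := A.length + Q.length + B.length - m - W) (W := W) (c := Y1.length + Y2.length + Q.length)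
    (c' := Y1.length + Y2.length + Q.length) (by omega) (by omega) (by omega) (by omega)
  rw [e1, e2, div_sub_div_same, abs_div, abs_of_pos (mul_pos hW' hW'), div_le_div_iff₀ (mul_pos hW' hW') hW']
  refine (mul_le_mul_of_nonneg_right h7 hW'.le).trans ?_
  have h8 : (W : ℝ) * (((Y1.length + Y2.length + Q.length : ℕ) : ℝ) + ((Y1.length + Y2.length + Q.length : ℕ) : ℝ)) * W ≤
      W * (ρ * n + ρ * n) * W :=
    mul_le_mul_of_nonneg_right (mul_le_mul_of_nonneg_left (add_le_add h6 h6) hW'.le) hW'.le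
  linarith

/-! ### 3. The theorem -/

/-- **arbitrary functions of the two parts away from the mark** -/
theorem av_of (hR : RMM) {ε d θ : ℝ} (hε : 0 < ε) (hd : 0 < d) (hd1 : d ≤ 1) (hθ : 0 < θ) : ∃ r0 : ℝ, 0 < r0 ∧
    ∀ r : ℝ, 0 < r → r ≤ r0 → ∃ n0 : ℕ, ∀ n k : ℕ, n0 ≤ n → ε * n ≤ k → (k : ℝ) ≤ (1 - ε) * n →
      ∀ S : Set Pt, (∀ p : Pt, (TIW.hn p : ℝ) ≤ r * (n : ℝ) ^ (3 / 4 : ℝ) → p ∈ S) →
        (∀ p ∈ S, (TIW.hn p : ℝ) ≤ 4 * r * (n : ℝ) ^ (3 / 4 : ℝ)) → (∀ v p : Pt, nrm v = 1 → p ∈ S → mulE v p ∈ S) →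
          gp (PR n k d S) ≠ 0 ∧ gp (PR n k d S) ≠ ∞ ∧ 0 < mS n k d (fun _ => 1) ∧
            ∀ W : ℕ, θ * n ≤ W → ∀ φ : PT → ℝ, (∀ T, 0 ≤ φ T ∧ φ T ≤ 1) →
              |(gpF (avT W φ) (PR n k d S)).toReal / (gp (PR n k d S)).toReal - mS n k d (avM W φ) / mS n k d (fun _ => 1)| ≤ ε := by
  obtain ⟨τ, hτ, h⟩ := hR ε d (8 / θ) hε hd hd1 (by positivity)
  obtain ⟨ρ, hρ⟩ : ∃ ρ, ρ = min (min θ (θ * ε / 32)) (1 / 2) := ⟨_, rfl⟩
  have hρ0 : 0 < ρ := by
    rw [hρ]
    exact lt_min (lt_min hθ (by positivity)) (by norm_num)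
  obtain ⟨r0, hr0, h⟩ := h ρ hρ0
  refine ⟨r0, hr0, fun r hr hrr => ?_⟩
  obtain ⟨n0, h⟩ := h r hr hrr
  refine ⟨n0 + 1, fun n k hn hk1 hk2 S h1 h2 h3 => ?_⟩
  obtain ⟨g1, g2, g3, h⟩ := h n k (by omega) hk1 hk2 S h1 h2 h3
  refine ⟨g1, g2, g3, fun W hW φ hφ => ?_⟩
  have hn0 : (0 : ℝ) < n := by exact_mod_cast (by omega : 0 < n)
  have hW' : (0 : ℝ) < W := lt_of_lt_of_le (by positivity) hW
  have hW0 : 0 < W := by exact_mod_cast hW'
  obtain ⟨G, hG⟩ : ∃ G : List Bool × ℕ → ℝ, G = fun K => if K.1.length < 4 * n then avM W φ K else 0 := ⟨_, rfl⟩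
  have hGm : mS n k d G = mS n k d (avM W φ) := by
    unfold mS
    refine sum_congr rfl fun K hK => ?_
    rw [hG]
    simp only
    rw [if_pos (mem_BB.1 hK).1]
  rw [← hGm]
  refine h (avT W φ) G ∅ (fun T => (avT_bd hφ W T).1) (fun T => (avT_bd hφ W T).2) (fun K => ?_) (fun K => ?_) ?_ ?_ ?_
  · rw [hG]
    simp only
    split_ifs
    · exact (avM_bd hφ W K).1
    · exact le_rfl
  · rw [hG]
    simp only
    split_ifs
    · exact (avM_bd hφ W K).2
    · exact zero_le_one
  · intro H _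
    by_cases hl : H.length < 4 * n
    · have e1 : ∀ i ∈ range H.length, |G (H, i + 1) - G (H, i)| ≤ 2 / W := by
        intro i _
        rw [hG]
        simp only
        rw [if_pos hl, if_pos hl]
        exact avM_step hφ hW0 H i
      refine (sum_le_card_nsmul _ _ _ e1).trans ?_
      rw [card_range, nsmul_eq_mul, mul_div_assoc', div_le_div_iff₀ hW' hθ]
      have e2 : (H.length : ℝ) ≤ 4 * n := by exact_mod_cast hl.le
      have e3 : (H.length : ℝ) * 2 * θ ≤ (4 * n) * 2 * θ := by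
        refine mul_le_mul_of_nonneg_right (mul_le_mul_of_nonneg_right e2 (by norm_num)) hθ.le
      linarith
    · have e1 : ∀ i ∈ range H.length, |G (H, i + 1) - G (H, i)| = 0 := by
        intro i _
        rw [hG]
        simp only
        rw [if_neg hl, if_neg hl, sub_self, abs_zero]
      rw [sum_eq_zero e1]
      positivity
  · have e1 : mS n k d (fun K => TIP.ind (K ∈ (∅ : Set (List Bool × ℕ)))) = 0 := by
      unfold mS
      refine sum_eq_zero fun K _ => ?_
      simp only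
      rw [TIP.ind_neg (Set.notMem_empty K), mul_zero]
    rw [e1]
    positivity
  · intro T K hT hK hl _
    have hρW : ρ * n ≤ W := by
      refine le_trans (mul_le_mul_of_nonneg_right ?_ hn0.le) hW
      rw [hρ]
      exact (min_le_left _ _).trans (min_le_left _ _)
    have e2 : K.1.length < 4 * n → |avT W φ T - G K| ≤ ε / 16 := by
      intro hlen
      rw [hG]
      simp only
      rw [if_pos hlen]
      refine (avT_avM hφ hW0 hρW hl).trans ?_
      rw [div_le_iff₀ hW']
      have e3 : ρ ≤ θ * ε / 32 := by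
        rw [hρ]
        exact (min_le_left _ _).trans (min_le_right _ _)
      have e4 : ρ * n ≤ θ * ε / 32 * n := mul_le_mul_of_nonneg_right e3 hn0.le
      have e5 : ε / 16 * (θ * n) ≤ ε / 16 * W := mul_le_mul_of_nonneg_left hW (by positivity)
      linarith
    refine e2 ?_
    obtain ⟨A, Y1, g, B, Y2, Q, x, q1, q2, -, -, -, q6, -⟩ := hl
    obtain ⟨-, -, -, -, -, -, p2, -, p4⟩ := hT
    rw [q1] at p2 p4
    simp only [List.length_append] at p2 p4
    have q3 : K.1.length = A.length + Q.length + B.length + 1 := by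
      rw [q2]
      simp only [List.length_append, List.length_cons, List.length_nil, rev_length]
      omega
    have q4 : (K.1.length : ℝ) < 4 * n := by
      rw [q3]
      push_cast at p2 p4 q6 ⊢
      have e6 : ρ ≤ 1 / 2 := by
        rw [hρ]
        exact min_le_right _ _
      have e7 : ρ * n ≤ 1 / 2 * n := mul_le_mul_of_nonneg_right e6 hn0.le
      have e8 : (1 + d) * k + (1 + d) * ((n : ℝ) - k) ≤ 2 * n := by nlinarith
      have e9 : (0 : ℝ) ≤ Y1.length := Nat.cast_nonneg _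
      have e10 : (0 : ℝ) ≤ Y2.length := Nat.cast_nonneg _
      have e11 : (1 : ℝ) ≤ n := by exact_mod_cast (by omega : 1 ≤ n)
      linarith
    exact_mod_cast q4

end KM

end RMP

end HexObs
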