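import Pool.Agent.RMP.All
import Pool.Agent.ROT.RMMAv

/-!
# ROT / RMM (helper11), part 5: **`rmm : RMM`**, **`av_rmm`**, the renormalisation map for marked words, no hypothesis
-/

set_option autoImplicit false

namespace HexObs

namespace RMP

namespace KM

open Finset TS SDN TIW NPR ARM KA

open scoped ENNReal Classical

/-- **the renormalisation map for marked words** -/
theorem rmm : RMM := rmm_of All.kRows KA.rectP

/-- **arbitrary functions of the two parts away from the mark** -/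
theorem av_rmm {ε d θ : ℝ} (hε : 0 < ε) (hd : 0 < d) (hd1 : d ≤ 1) (hθ : 0 < θ) : ∃ r0 : ℝ, 0 < r0 ∧
    ∀ r : ℝ, 0 < r → r ≤ r0 → ∃ n0 : ℕ, ∀ n k : ℕ, n0 ≤ n → ε * n ≤ k → (k : ℝ) ≤ (1 - ε) * n →
      ∀ S : Set Pt, (∀ p : Pt, (TIW.hn p : ℝ) ≤ r * (n : ℝ) ^ (3 / 4 : ℝ) → p ∈ S) →
        (∀ p ∈ S, (TIW.hn p : ℝ) ≤ 4 * r * (n : ℝ) ^ (3 / 4 : ℝ)) → (∀ v p : Pt, nrm v = 1 → p ∈ S → mulE v p ∈ S) →
          gp (PR n k d S) ≠ 0 ∧ gp (PR n k d S) ≠ ∞ ∧ 0 < mS n k d (fun _ => 1) ∧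
            ∀ W : ℕ, θ * n ≤ W → ∀ φ : PT → ℝ, (∀ T, 0 ≤ φ T ∧ φ T ≤ 1) →
              |(gpF (avT W φ) (PR n k d S)).toReal / (gp (PR n k d S)).toReal - mS n k d (avM W φ) / mS n k d (fun _ => 1)| ≤ ε :=
  av_of rmm hε hd hd1 hθ

end KM

end RMP

end HexObs
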