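import Pool.Agent.ROT.RFin
import Pool.Agent.ROT.NMassU
import Pool.Agent.ARM.T2Na

/-!
# ROT, linear response, row R6 (helper43): the masses of the closed words rooted at their top

* `rot_up`, `rot_lo` : counting of rotations; `gf_len_sum` : a set of words by the length;
* `flp` : the reversed closed word with the same root; `WT_dir`, `WT_flp`;
* **`mup`** : `Mup d` for d ∈ dirs, from `NK.massU`;
* **`mlo_of`** : `Mlo d` for d ∈ dirs with `ip up d = -1` from the lower bound for the closed words (`MassL`).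
-/

set_option autoImplicit false

open Filter

open scoped ENNReal Topology

namespace HexObs

namespace ART

namespace RM

open Finset TR

/-! ### 1. Counting -/

/-- a set of words by the length -/
lemma gf_len_sum (S : Set (List Bool)) : gf S = ∑' n : ℕ, gf {w | w ∈ S ∧ w.length = n} := by
  have h : ∀ T : Set (List Bool), gf T = ∑' w : List Bool, T.indicator wE w := fun T => tsum_subtype T wE
  rw [tsum_congr fun n => h {w | w ∈ S ∧ w.length = n}, ENNReal.tsum_comm, h S]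
  refine tsum_congr fun w => ?_
  rw [tsum_eq_single w.length]
  · by_cases h1 : w ∈ S
    · rw [Set.indicator_of_mem h1, Set.indicator_of_mem (show w ∈ {w' | w' ∈ S ∧ w'.length = w.length} from ⟨h1, rfl⟩)]
    · rw [Set.indicator_of_notMem h1, Set.indicator_of_notMem fun h' => h1 h'.1]
  · intro n hn
    exact Set.indicator_of_notMem (fun h' => hn h'.2.symm) _

open Classical in
lemma cnt_eq {N : ℕ} {S : Finset (List Bool)} (hS : ∀ K, K ∈ S ↔ K ∈ POL.Cy N) (P : List Bool → Prop) :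
    N * (S.filter P).card = ∑ K ∈ S, ((range N).filter fun u => P (K.rotate u)).card := by
  have h1 : ∀ u ∈ range N, ∑ K ∈ S, (if P (K.rotate u) then 1 else 0) = (S.filter P).card := by
    intro u _
    rw [sum_rotS hS u fun K => if P K then 1 else 0, Finset.card_filter]
  calc N * (S.filter P).card = ∑ u ∈ range N, ∑ K ∈ S, (if P (K.rotate u) then 1 else 0) := by
        rw [Finset.sum_congr rfl h1, Finset.sum_const, card_range, smul_eq_mul]
    _ = ∑ K ∈ S, ∑ u ∈ range N, (if P (K.rotate u) then 1 else 0) := Finset.sum_comm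
    _ = _ := Finset.sum_congr rfl fun K _ => (Finset.card_filter _ _).symm

open Classical in
lemma gf_cy {N : ℕ} (P : List Bool → Prop) :
    gf {w | w ∈ POL.Cy N ∧ P w} = ENNReal.ofReal ((((POLP.PCy_fin N).toFinset.filter P).card : ℝ) * xc ^ N) := by
  refine gf_len (fun L => ?_) fun L hL => hL.1.1
  rw [mem_filter, Set.Finite.mem_toFinset, POL.Cy_eq]
  rfl

/-- at most six tops -/
lemma rot_up {N : ℕ} {P Q : List Bool → Prop} (hP : ∀ w, P w → TopR w)
    (h : ∀ K ∈ POL.Cy N, ∀ u, P (K.rotate u) → Q K) :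
    (N : ℝ≥0∞) * gf {w | w ∈ POL.Cy N ∧ P w} ≤ 6 * gf {K | K ∈ POL.Cy N ∧ Q K} := by
  classical
  have hS : ∀ K, K ∈ (POLP.PCy_fin N).toFinset ↔ K ∈ POL.Cy N := by
    intro K
    rw [Set.Finite.mem_toFinset, POL.Cy_eq]
  have hup : N * ((POLP.PCy_fin N).toFinset.filter P).card ≤ 6 * ((POLP.PCy_fin N).toFinset.filter Q).card := by
    rw [cnt_eq hS P, Finset.card_filter, mul_sum]
    refine Finset.sum_le_sum fun K hK => ?_
    by_cases hQ : Q K
    · rw [if_pos hQ, mul_one]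
      refine (Finset.card_le_card fun u hu => ?_).trans (rot_card ((hS K).1 hK))
      rw [mem_filter] at hu ⊢
      exact ⟨hu.1, hP _ hu.2⟩
    · rw [if_neg hQ, mul_zero, Nat.le_zero, Finset.card_eq_zero, Finset.filter_eq_empty_iff]
      exact fun u _ hu => hQ (h K ((hS K).1 hK) u hu)
  have hx := xc_pos
  have e3 : (6 : ℝ≥0∞) = ENNReal.ofReal 6 := by norm_num
  have e4 : (N : ℝ≥0∞) = ENNReal.ofReal (N : ℝ) := (ENNReal.ofReal_natCast N).symm
  rw [gf_cy, gf_cy, e3, e4, ← ENNReal.ofReal_mul (by positivity), ← ENNReal.ofReal_mul (by positivity)]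
  apply ENNReal.ofReal_le_ofReal
  rw [← mul_assoc, ← mul_assoc]
  apply mul_le_mul_of_nonneg_right _ (by positivity)
  exact_mod_cast hup

/-- at least one rotation -/
lemma rot_lo {N : ℕ} {P Q : List Bool → Prop} (h : ∀ K ∈ POL.Cy N, Q K → ∃ u, u < N ∧ P (K.rotate u)) :
    gf {K | K ∈ POL.Cy N ∧ Q K} ≤ (N : ℝ≥0∞) * gf {w | w ∈ POL.Cy N ∧ P w} := by
  classical
  have hS : ∀ K, K ∈ (POLP.PCy_fin N).toFinset ↔ K ∈ POL.Cy N := by
    intro K
    rw [Set.Finite.mem_toFinset, POL.Cy_eq]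
  have hlo : ((POLP.PCy_fin N).toFinset.filter Q).card ≤ N * ((POLP.PCy_fin N).toFinset.filter P).card := by
    rw [cnt_eq hS P, Finset.card_filter]
    refine Finset.sum_le_sum fun K hK => ?_
    by_cases hQ : Q K
    · rw [if_pos hQ]
      obtain ⟨u, hu, hPu⟩ := h K ((hS K).1 hK) hQ
      exact Finset.card_pos.2 ⟨u, mem_filter.2 ⟨mem_range.2 hu, hPu⟩⟩
    · rw [if_neg hQ]
      exact Nat.zero_le _
  have hx := xc_pos
  have e4 : (N : ℝ≥0∞) = ENNReal.ofReal (N : ℝ) := (ENNReal.ofReal_natCast N).symm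
  rw [gf_cy, gf_cy, e4, ← ENNReal.ofReal_mul (by positivity)]
  apply ENNReal.ofReal_le_ofReal
  rw [← mul_assoc]
  apply mul_le_mul_of_nonneg_right _ (by positivity)
  exact_mod_cast hlo

/-! ### 2. Tops and diameters -/

/-- the vertices of a rotation, up to an isometry, are differences of two vertices of the closed word -/
lemma rot_diff {N : ℕ} {K : List Bool} (hK : K ∈ POL.Cy N) (hN : 0 < N) (u : ℕ) {s : ℕ} (hs : s ≤ N) :
    ∃ i j, i ≤ N ∧ j ≤ N ∧ TIW.hn (vx oo up (K.rotate u) s) = TIW.hn (vx oo up K i - vx oo up K j) := by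
  have hc := POL.Cy.clo hK
  refine ⟨(u + s) % N, u % N, (Nat.mod_lt _ hN).le, (Nat.mod_lt _ hN).le, ?_⟩
  rw [POL.rot_vx (by rw [hK.1]; omega), TIW.hn_mulE (POL.nrm_rotTo_pd K u), POL.pv_mod hc (u + s), POL.pv_mod hc u, hK.1,
    POL.pv_eq (by rw [hK.1]; have := Nat.mod_lt (u + s) hN; omega),
    POL.pv_eq (by rw [hK.1]; have := Nat.mod_lt u hN; omega)]

lemma bot_le_of {d : Pt} (hd : d ∈ dirs) {w : List Bool} {R : ℝ} (hR : 0 ≤ R)
    (h : ∀ s, s ≤ w.length → (TIW.hn (vx oo up w s) : ℝ) ≤ R) : (bot d w : ℝ) ≤ R := by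
  obtain ⟨s, hs, e⟩ := bot_attained d w
  rw [e]
  have h1 := TIW.neg_hn_le_ip (vx oo up w s) hd
  have h2 := h s hs
  rcases le_or_gt (-(ip (vx oo up w s) d)) 0 with h3 | h3
  · rw [Int.toNat_of_nonpos h3]
    simpa using hR
  · have h4 : (((-(ip (vx oo up w s) d)).toNat : ℕ) : ℤ) ≤ TIW.hn (vx oo up w s) := by
      rw [Int.toNat_of_nonneg h3.le]
      linarith
    have h5 : (((-(ip (vx oo up w s) d)).toNat : ℕ) : ℝ) ≤ (TIW.hn (vx oo up w s) : ℝ) := by exact_mod_cast h4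
    exact h5.trans h2

/-- a positive depth of the bottom is a lower bound of the norm of a vertex -/
lemma bot_hn {d : Pt} (hd : d ∈ dirs) {w : List Bool} (h : 0 < bot d w) :
    ∃ s, s ≤ w.length ∧ (bot d w : ℤ) ≤ TIW.hn (vx oo up w s) := by
  obtain ⟨s, hs, e⟩ := bot_attained d w
  refine ⟨s, hs, ?_⟩
  have h1 := TIW.neg_hn_le_ip (vx oo up w s) hd
  omega

/-- a direction of the norm -/
lemma ex_dir (p : Pt) : ∃ D ∈ dirs, TIW.hn p ≤ ip p D := by
  by_contra hcon
  push Not at hcon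
  have := TIW.hn_le (p := p) (c := TIW.hn p - 1) fun d hd => by have := hcon d hd; omega
  omega

/-- a closed word of diameter in [x, y] has a top from which the depth is in [x, y] -/
lemma ex_rot {N : ℕ} {K : List Bool} (hK : K ∈ POL.Cy N) (hN : 0 < N) {x y : ℝ} (hy : 0 ≤ y)
    (h1 : ∃ i j, i ≤ N ∧ j ≤ N ∧ x ≤ (TIW.hn (vx oo up K i - vx oo up K j) : ℝ))
    (h2 : ∀ i j, i ≤ N → j ≤ N → (TIW.hn (vx oo up K i - vx oo up K j) : ℝ) ≤ y) :
    ∃ u, u < N ∧ ∃ d ∈ dirs, TopD d (K.rotate u) ∧ x ≤ bot d (K.rotate u) ∧ (bot d (K.rotate u) : ℝ) ≤ y := by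
  obtain ⟨i, j, hi, hj, hx⟩ := h1
  obtain ⟨D, hD, hip⟩ := ex_dir (vx oo up K i - vx oo up K j)
  obtain ⟨u, hu, hT⟩ := ex_top hK hN D
  have hρ := POL.nrm_rotTo_pd K u
  have hdd := dir_fwd hρ hD
  have hlen : (K.rotate u).length = N := by rw [List.length_rotate, hK.1]
  refine ⟨u, hu, _, hdd, (topD_rot hK hN).2 hT, ?_, ?_⟩
  · obtain ⟨s, hs, hv⟩ := ex_shift hK hN u j
    have a1 := neg_le_bot (d := mulE (rotTo (POL.pd K u) up) D) (w := K.rotate u) (s := s) (by omega)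
    have a2 : ip (vx oo up (K.rotate u) s) (mulE (rotTo (POL.pd K u) up) D) = ip (POL.pv K j - POL.pv K u) D := by
      rw [POL.rot_vx (by rw [hK.1]; omega), ip_mulE, hρ, one_mul, hv]
    have a3 : ip (POL.pv K i - POL.pv K u) D ≤ 0 := by
      rcases hT i with h | ⟨h, -⟩ <;> omega
    have a4 : POL.pv K i = vx oo up K i := POL.pv_eq (by rw [hK.1]; omega)
    have a5 : POL.pv K j = vx oo up K j := POL.pv_eq (by rw [hK.1]; omega)
    rw [ip_sub_left] at a3 hip
    rw [a2, ip_sub_left] at a1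
    rw [a4] at a3
    rw [a5] at a1
    have a6 : TIW.hn (vx oo up K i - vx oo up K j) ≤ (bot (mulE (rotTo (POL.pd K u) up) D) (K.rotate u) : ℤ) := by
      linarith
    have a7 : (TIW.hn (vx oo up K i - vx oo up K j) : ℝ) ≤ (bot (mulE (rotTo (POL.pd K u) up) D) (K.rotate u) : ℝ) := by
      exact_mod_cast a6
    exact hx.trans a7
  · refine bot_le_of hdd hy fun s hs => ?_
    obtain ⟨i', j', hi', hj', e⟩ := rot_diff hK hN u (s := s) (by omega)
    rw [e]
    exact h2 i' j' hi' hj'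

/-! ### 3. The upper bound -/

/-- **the mass of the closed words of depth at least x** -/
theorem mass_up : ∃ C : ℝ, 0 < C ∧ ∀ d ∈ dirs, ∀ x : ℝ, 0 < x →
    gf {w | w ∈ WT d ∧ x ≤ bot d w} ≤ ENNReal.ofReal (C / x ^ 2) := by
  obtain ⟨C, hC, h⟩ := NK.massU
  refine ⟨6 * C, by positivity, fun d hd x hx => ?_⟩
  have h1 : gf {w | w ∈ WT d ∧ x ≤ bot d w} ≤ ∑' n : ℕ, 6 * (ENNReal.ofReal (1 / n) * gf (NK.DU n x)) := by
    rw [gf_len_sum]
    refine ENNReal.tsum_le_tsum fun n => ?_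
    rcases Nat.eq_zero_or_pos n with rfl | hn
    · have : {w | w ∈ {w | w ∈ WT d ∧ x ≤ bot d w} ∧ w.length = 0} = ∅ := by
        ext w
        simp only [Set.mem_ofPred_eq, Set.mem_empty_iff_false, iff_false]
        rintro ⟨⟨h1, -⟩, h2⟩
        exact h1.2.2 (List.length_eq_zero_iff.1 h2)
      rw [this]
      unfold gf
      simp
    · have hn0 : (0 : ℝ) < n := by exact_mod_cast hn
      have h2 := rot_up (N := n) (P := fun w => w ∈ WT d ∧ x ≤ bot d w) (Q := fun K => K ∈ NK.DU n x)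
        (fun w hw => topR_iff.2 ⟨d, hd, hw.1.2.1⟩) (by
          rintro K hK u ⟨hw, hb⟩
          have hb0 : 0 < bot d (K.rotate u) := by
            have : (0 : ℝ) < bot d (K.rotate u) := hx.trans_le hb
            exact_mod_cast this
          obtain ⟨s, hs, hb'⟩ := bot_hn hd hb0
          rw [List.length_rotate, hK.1] at hs
          obtain ⟨i, j, hi, hj, e⟩ := rot_diff hK hn u hs
          refine ⟨hK, i, j, hi, hj, ?_⟩
          rw [e] at hb'
          have : (bot d (K.rotate u) : ℝ) ≤ (TIW.hn (vx oo up K i - vx oo up K j) : ℝ) := by exact_mod_cast hb'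
          exact hb.trans this)
      have h3 : {w | w ∈ {w | w ∈ WT d ∧ x ≤ bot d w} ∧ w.length = n} ⊆ {w | w ∈ POL.Cy n ∧ w ∈ WT d ∧ x ≤ bot d w} := by
        rintro w ⟨⟨h4, h5⟩, h6⟩
        have h7 := h4.1
        rw [h6] at h7
        exact ⟨h7, h4, h5⟩
      have h4 : {K | K ∈ POL.Cy n ∧ K ∈ NK.DU n x} = NK.DU n x := by
        ext K
        exact ⟨fun h => h.2, fun h => ⟨h.1, h⟩⟩
      rw [h4] at h2
      refine (gf_mono h3).trans ?_
      have e4 : (n : ℝ≥0∞) = ENNReal.ofReal (n : ℝ) := (ENNReal.ofReal_natCast n).symm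
      have h5 : ENNReal.ofReal (1 / n) * ((n : ℝ≥0∞) * gf {w | w ∈ POL.Cy n ∧ w ∈ WT d ∧ x ≤ bot d w}) =
          gf {w | w ∈ POL.Cy n ∧ w ∈ WT d ∧ x ≤ bot d w} := by
        rw [← mul_assoc, e4, ← ENNReal.ofReal_mul (by positivity), one_div, inv_mul_cancel₀ hn0.ne', ENNReal.ofReal_one,
          one_mul]
      rw [← h5]
      refine (mul_le_mul' le_rfl h2).trans (le_of_eq ?_)
      ring
  refine h1.trans ?_
  rw [ENNReal.tsum_mul_left]
  refine (mul_le_mul' le_rfl (h x hx)).trans (le_of_eq ?_)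
  rw [show (6 : ℝ≥0∞) = ENNReal.ofReal 6 by norm_num, ← ENNReal.ofReal_mul (by norm_num)]
  congr 1
  ring

/-- **masses, upper bound** -/
theorem mup {d : Pt} (hd : d ∈ dirs) : Mup d := by
  obtain ⟨C, hC, h⟩ := mass_up
  intro a b ha hab
  refine ⟨C / a ^ 2, by positivity, ?_⟩
  filter_upwards [eventually_gt_atTop (0 : ℝ)] with x hx
  have hsub : WTw d ⌈a * x⌉₊ ⌊b * x⌋₊ ⊆ {w | w ∈ WT d ∧ a * x ≤ bot d w} := by
    rintro w ⟨h1, h2, -⟩
    exact ⟨h1, (Nat.le_ceil _).trans (by exact_mod_cast h2)⟩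
  refine (gf_mono hsub).trans ((h d hd (a * x) (by positivity)).trans (ENNReal.ofReal_le_ofReal (le_of_eq ?_)))
  rw [mul_pow, div_div]

/-! ### 4. The reversed closed word -/

/-- the reversed closed word with the same root -/
def flp (w : List Bool) : List Bool := (rev w).rotate 1

lemma flp_len (w : List Bool) : (flp w).length = w.length := by
  unfold flp
  rw [List.length_rotate, rev_length]

lemma rev_inj : Function.Injective rev := by
  intro a b h
  unfold rev at h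
  rw [List.reverse_inj] at h
  exact List.map_injective_iff.2 (fun x y hxy => by revert hxy; cases x <;> cases y <;> simp) h

lemma flp_inj : Function.Injective flp := (List.rotate_injective 1).comp rev_inj

lemma flp_Cy {N : ℕ} (hN : 1 ≤ N) {w : List Bool} (h : w ∈ POL.Cy N) : flp w ∈ POL.Cy N :=
  POL.Cy.rot (ARM.T2.rev_Cy hN h) 1

/-- the frame of the reversed closed word -/
lemma flp_frame {N : ℕ} (hN : 1 ≤ N) {w : List Bool} (h : w ∈ POL.Cy N) :
    ∃ g : Pt, nrm g = 1 ∧ ∀ i, i ≤ N → vx oo up w (N - i) = mulE g (vx oo up (flp w) i) := by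
  obtain ⟨c, hc, hf⟩ := TIP.RevM.rev_frame w
  have hcn : nrm c = 1 := mem_dirs.1 hc
  have hρ := POL.nrm_rotTo_pd (rev w) 1
  rw [h.1] at hf
  refine ⟨mulE c (conjE (rotTo (POL.pd (rev w) 1) up)), by rw [nrm_mulE, nrm_conjE, hcn, hρ, one_mul], fun i hi => ?_⟩
  have hl : (rev w).length = N := by rw [rev_length, h.1]
  unfold flp
  have e1 : ∀ ρ : Pt, nrm ρ = 1 → ∀ x : Pt, mulE (mulE c (conjE ρ)) (mulE ρ x) = mulE c x := by
    intro ρ hρ x
    rw [mulE_assoc, ← mulE_assoc c, mulE_comm (conjE ρ) ρ, mulE_conjE, hρ, mulE_comm c (1, 0), mulE_one]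
  rw [POL.rot_vx (by rw [hl]; omega), e1 _ hρ, mulE_sub, POL.pv_eq (by rw [hl]; omega), POL.pv_eq (by rw [hl]; omega)]
  have h1 := hf (1 + i) (by omega)
  have h2 := hf 1 (by omega)
  rw [show N + 1 - (1 + i) = N - i by omega] at h1
  rw [show N + 1 - 1 = N by omega, h.2.1] at h2
  rw [h1]
  have h3 : vx oo up w (N + 1) = -mulE c (vx oo up (rev w) 1) := by
    refine eq_neg_of_add_eq_zero_left ?_
    rw [← h2]
    rfl
  rw [h3]
  abel

lemma turn_up : ∀ d ∈ dirs, ∀ e ∈ dirs, ∀ b : Bool, turn b e = up → (ip up d < 0 ∨ ip up d = 0) →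
    (ip (-e) d < 0 ∨ ip (-e) d = 0) → ip up d = -1 := by decide

/-- the last vertex before the root -/
lemma cy_last {N : ℕ} (hN : 1 ≤ N) {w : List Bool} (h : w ∈ POL.Cy N) : ∃ e ∈ dirs, (∃ b : Bool, turn b e = up) ∧
    vx oo up w (N - 1) = -e := by
  obtain ⟨h1, h2, h3, -⟩ := h
  obtain ⟨n, rfl⟩ : ∃ n, N = n + 1 := ⟨N - 1, by omega⟩
  refine ⟨dx up w n, dx_mem (by decide) w n, ⟨tf w n, h3⟩, ?_⟩
  rw [vx_succ] at h2
  rw [Nat.add_sub_cancel]
  exact eq_neg_of_add_eq_zero_left h2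

/-- the two directions of the top -/
lemma WT_dir {d : Pt} (hd : d ∈ dirs) {w : List Bool} (h : w ∈ WT d) : ip up d = -1 := by
  obtain ⟨h1, h2, h3⟩ := h
  have hN : 1 ≤ w.length := List.length_pos_iff.2 h3
  obtain ⟨e, he, ⟨b, hb⟩, hv⟩ := cy_last hN h1
  have a1 := h2 1 hN
  have a2 := h2 (w.length - 1) (by omega)
  have v1 : vx oo up w 1 = up := by
    have : vx oo up w 1 = oo + up := rfl
    rw [this]
    exact zero_add up
  rw [v1] at a1
  rw [hv] at a2
  refine turn_up d hd e he b hb ?_ ?_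
  · rcases a1 with a1 | ⟨a1, -⟩
    · exact Or.inl a1
    · exact Or.inr a1
  · rcases a2 with a2 | ⟨a2, -⟩
    · exact Or.inl a2
    · exact Or.inr a2

lemma turn_neg_up : ∀ b : Bool, turn b (-up) ≠ up := by decide

/-- a closed word has at least 3 letters -/
lemma cy_three {N : ℕ} (hN : 1 ≤ N) {w : List Bool} (h : w ∈ POL.Cy N) : 3 ≤ N := by
  obtain ⟨e, he, ⟨b, hb⟩, hv⟩ := cy_last hN h
  have v1 : vx oo up w 1 = up := by
    have : vx oo up w 1 = oo + up := rfl
    rw [this]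
    exact zero_add up
  by_contra hc
  rcases Nat.lt_or_ge N 2 with h2 | h2
  · have h3 : N = 1 := by omega
    subst h3
    have := h.2.1
    rw [v1] at this
    revert this
    decide
  · have h3 : N = 2 := by omega
    subst h3
    rw [show 2 - 1 = 1 from rfl, v1] at hv
    have : e = -up := by rw [hv, neg_neg]
    rw [this] at hb
    exact turn_neg_up b hb

/-- **the reversed closed word is rooted at its top, in the other direction** -/
lemma WT_flp {d : Pt} (hd : d ∈ dirs) {w : List Bool} (h : w ∈ WT d) :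
    ∃ d' ∈ dirs, d' ≠ d ∧ flp w ∈ WT d' ∧ bot d' (flp w) = bot d w := by
  obtain ⟨h1, h2, h3⟩ := h
  have hN : 1 ≤ w.length := List.length_pos_iff.2 h3
  obtain ⟨g, hg, hf⟩ := flp_frame hN h1
  obtain ⟨d', hd', e⟩ := dir_back hg hd
  have hip : ∀ i, i ≤ w.length → ∀ x : Pt, ip (vx oo up (flp w) i) x = ip (vx oo up w (w.length - i)) (mulE g x) := by
    intro i hi x
    rw [hf i hi, ip_mulE, hg, one_mul]
  have h3' := cy_three hN h1
  refine ⟨d', hd', ?_, ⟨by rw [flp_len]; exact flp_Cy hN h1, ?_, ?_⟩, ?_⟩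
  · rintro rfl
    have g1 : g = (1, 0) := by
      have : mulE d' g = mulE d' (1, 0) := by rw [mulE_comm d' g, e, mulE_comm d' (1, 0), mulE_one]
      exact mulE_inj (mem_dirs.1 hd) this
    have a1 := hf 1 hN
    have v1 : ∀ w' : List Bool, vx oo up w' 1 = up := by
      intro w'
      have : vx oo up w' 1 = oo + up := rfl
      rw [this]
      exact zero_add up
    rw [v1, g1, mulE_one, ← v1 w] at a1
    have := h1.2.2.2 (w.length - 1) 1 (by omega) (by omega) a1
    omega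
  · intro s hs
    rw [flp_len] at hs
    rw [hip s hs, hip s hs, e, ← rotL_mulE, e]
    exact h2 _ (by omega)
  · intro h4
    have := flp_len w
    rw [h4, List.length_nil] at this
    omega
  · apply le_antisymm
    · rw [bot_le_iff]
      intro s hs
      rw [flp_len] at hs
      rw [hip s hs, e]
      exact neg_le_bot (by omega)
    · rw [bot_le_iff]
      intro s hs
      have := hip (w.length - s) (by omega) d'
      rw [show w.length - (w.length - s) = s by omega, e] at this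
      rw [← this]
      exact neg_le_bot (by rw [flp_len]; omega)

lemma two_dir : ∀ x ∈ dirs, ∀ y ∈ dirs, ∀ z ∈ dirs, ip up x = -1 → ip up y = -1 → ip up z = -1 → y ≠ x → z ≠ x →
    y = z := by decide

/-- the masses of the two directions are equal -/
lemma mass_flp {d d' : Pt} (hd : d ∈ dirs) (hd' : d' ∈ dirs) (h : ip up d = -1) (P : ℕ → Prop) :
    gf {w | w ∈ WT d' ∧ P (bot d' w)} ≤ gf {w | w ∈ WT d ∧ P (bot d w)} := by
  rcases eq_or_ne d d' with rfl | hne
  · exact le_rfl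
  · have := gf_le_of_inj (P := {w | w ∈ WT d' ∧ P (bot d' w)}) (Q := {w | w ∈ WT d ∧ P (bot d w)}) flp (by
      rintro w ⟨h1, h2⟩
      obtain ⟨d'', hd'', hne', h3, h4⟩ := WT_flp hd' h1
      have : d'' = d := two_dir d' hd' d'' hd'' d hd (WT_dir hd' h1) (WT_dir hd'' h3) h hne' hne
      subst this
      exact ⟨h3, by rw [h4]; exact h2⟩) flp_inj.injOn 1 (by
      intro w _
      rw [one_mul]
      unfold wE
      rw [flp_len])
    rwa [one_mul] at this

/-! ### 5. The lower bound -/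

/-- **the mass of the closed words of depth in [κ R, R]** -/
theorem mass_lo (hL : ∃ c κ R0 : ℝ, 0 < c ∧ 0 < κ ∧ ∀ R : ℝ, R0 ≤ R → ENNReal.ofReal (c / R ^ 2) ≤
      ∑' n : ℕ, ENNReal.ofReal (1 / n) * gf (NK.DL n κ R)) :
    ∃ c κ R0 : ℝ, 0 < c ∧ 0 < κ ∧ ∀ d ∈ dirs, ip up d = -1 → ∀ R : ℝ, R0 ≤ R → ENNReal.ofReal (c / R ^ 2) ≤
      gf {w | w ∈ WT d ∧ κ * R ≤ bot d w ∧ (bot d w : ℝ) ≤ R} := by
  obtain ⟨c, κ, R0, hc, hκ, h⟩ := hL
  refine ⟨c / 6, κ, max R0 0, by positivity, hκ, fun d hd hip R hR => ?_⟩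
  have hR0 : R0 ≤ R := (le_max_left _ _).trans hR
  have hR1 : 0 ≤ R := (le_max_right _ _).trans hR
  obtain ⟨P, hP⟩ : ∃ P : ℕ → Prop, ∀ x, P x ↔ κ * R ≤ (x : ℝ) ∧ (x : ℝ) ≤ R := ⟨fun x => κ * R ≤ (x : ℝ) ∧ (x : ℝ) ≤ R,
    fun _ => Iff.rfl⟩
  have e0 : {w | w ∈ WT d ∧ κ * R ≤ bot d w ∧ (bot d w : ℝ) ≤ R} = {w | w ∈ WT d ∧ P (bot d w)} := by
    ext w
    simp only [Set.mem_ofPred_eq, hP]
  rw [e0]
  have h1 : ∑' n : ℕ, ENNReal.ofReal (1 / n) * gf (NK.DL n κ R) ≤
      ∑' n : ℕ, ∑ d' ∈ dirs, gf {w | w ∈ {w | w ∈ WT d' ∧ P (bot d' w)} ∧ w.length = n} := by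
    refine ENNReal.tsum_le_tsum fun n => ?_
    rcases Nat.eq_zero_or_pos n with rfl | hn
    · simp
    · have hn0 : (0 : ℝ) < n := by exact_mod_cast hn
      have h2 := rot_lo (N := n) (Q := fun K => K ∈ NK.DL n κ R)
        (P := fun w => ∃ d' ∈ dirs, w ∈ WT d' ∧ P (bot d' w)) (by
          rintro K hK ⟨-, h3, h4⟩
          obtain ⟨u, hu, d', hd', h5, h6⟩ := ex_rot hK hn hR1 h3 h4
          refine ⟨u, hu, d', hd', ⟨?_, h5, ?_⟩, (hP _).2 h6⟩
          · rw [List.length_rotate, hK.1]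
            exact POL.Cy.rot hK u
          · intro h7
            have := List.length_rotate K u
            rw [h7, hK.1, List.length_nil] at this
            omega)
      have h4 : {K | K ∈ POL.Cy n ∧ K ∈ NK.DL n κ R} = NK.DL n κ R := by
        ext K
        exact ⟨fun h => h.2, fun h => ⟨h.1, h⟩⟩
      rw [h4] at h2
      have h5 : gf {w | w ∈ POL.Cy n ∧ ∃ d' ∈ dirs, w ∈ WT d' ∧ P (bot d' w)} ≤
          ∑ d' ∈ dirs, gf {w | w ∈ {w | w ∈ WT d' ∧ P (bot d' w)} ∧ w.length = n} := by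
        have key : ∀ T : Finset Pt, gf {w | w ∈ POL.Cy n ∧ ∃ d' ∈ T, w ∈ WT d' ∧ P (bot d' w)} ≤
            ∑ d' ∈ T, gf {w | w ∈ {w | w ∈ WT d' ∧ P (bot d' w)} ∧ w.length = n} := by
          intro T
          induction T using Finset.induction_on with
          | empty =>
            have : {w : List Bool | w ∈ POL.Cy n ∧ ∃ d' ∈ (∅ : Finset Pt), w ∈ WT d' ∧ P (bot d' w)} = ∅ := by
              ext w
              simp
            rw [this]
            unfold gf
            simp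
          | insert a T ha ih =>
            rw [Finset.sum_insert ha]
            refine (gf_mono ?_).trans ((gf_union_le _ _).trans (add_le_add le_rfl ih))
            rintro w ⟨h6, d', hd', h7, h8⟩
            rcases Finset.mem_insert.1 hd' with rfl | hd'
            · exact Or.inl ⟨⟨h7, h8⟩, h6.1⟩
            · exact Or.inr ⟨h6, d', hd', h7, h8⟩
        exact key dirs
      have e4 : (n : ℝ≥0∞) = ENNReal.ofReal (n : ℝ) := (ENNReal.ofReal_natCast n).symm
      refine (mul_le_mul' le_rfl (h2.trans (mul_le_mul' le_rfl h5))).trans (le_of_eq ?_)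
      rw [← mul_assoc, e4, ← ENNReal.ofReal_mul (by positivity), one_div, inv_mul_cancel₀ hn0.ne', ENNReal.ofReal_one,
        one_mul]
  rw [Summable.tsum_finsetSum (fun _ _ => ENNReal.summable)] at h1
  have h2 : ∑ d' ∈ dirs, ∑' n : ℕ, gf {w | w ∈ {w | w ∈ WT d' ∧ P (bot d' w)} ∧ w.length = n} ≤
      6 * gf {w | w ∈ WT d ∧ P (bot d w)} := by
    have h3 : ∀ d' ∈ dirs, ∑' n : ℕ, gf {w | w ∈ {w | w ∈ WT d' ∧ P (bot d' w)} ∧ w.length = n} ≤
        gf {w | w ∈ WT d ∧ P (bot d w)} := by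
      intro d' hd'
      rw [← gf_len_sum]
      exact mass_flp hd hd' hip P
    refine (Finset.sum_le_card_nsmul _ _ _ h3).trans (le_of_eq ?_)
    rw [show (dirs : Finset Pt).card = 6 by decide, nsmul_eq_mul]
    norm_num
  have h3 := (h R hR0).trans (h1.trans h2)
  have h4 : ENNReal.ofReal (c / 6 / R ^ 2) = 6⁻¹ * ENNReal.ofReal (c / R ^ 2) := by
    rw [show c / 6 / R ^ 2 = 6⁻¹ * (c / R ^ 2) by ring, ENNReal.ofReal_mul (by norm_num),
      ENNReal.ofReal_inv_of_pos (by norm_num)]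
    norm_num
  rw [h4]
  refine (mul_le_mul' le_rfl h3).trans (le_of_eq ?_)
  rw [← mul_assoc, ENNReal.inv_mul_cancel (by norm_num) (by norm_num), one_mul]

/-- **masses, lower bound** -/
theorem mlo_of (hL : ∃ c κ R0 : ℝ, 0 < c ∧ 0 < κ ∧ ∀ R : ℝ, R0 ≤ R → ENNReal.ofReal (c / R ^ 2) ≤
      ∑' n : ℕ, ENNReal.ofReal (1 / n) * gf (NK.DL n κ R)) {d : Pt} (hd : d ∈ dirs) (hip : ip up d = -1) : Mlo d := by
  obtain ⟨c, κ, R0, hc, hκ, h⟩ := mass_lo hL
  refine ⟨min κ (1 / 2), 1, c, by positivity, (min_le_right _ _).trans_lt (by norm_num), hc, ?_⟩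
  filter_upwards [eventually_ge_atTop R0, eventually_gt_atTop (0 : ℝ)] with x hx hx0
  refine (h d hd hip x hx).trans (gf_mono ?_)
  rintro w ⟨h1, h2, h3⟩
  refine ⟨h1, ?_, ?_⟩
  · rw [Nat.ceil_le]
    exact (mul_le_mul_of_nonneg_right (min_le_left _ _) hx0.le).trans h2
  · rw [Nat.le_floor_iff (by positivity), one_mul]
    exact h3

end RM

end ART

end HexObs
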