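import Pool.Agent.ROT.FDir

/-!
Rotation invariance of the scaling limits of the self-avoiding walk, of the self-avoiding polygon and of the two-sided infinite
self-avoiding walk on the hexagonal lattice.
-/

set_option autoImplicit false

open MeasureTheory Filter Topology
open scoped Classical

namespace Pool.Agent.ROT.TextB

open Pool.Agent.NTS.Res Pool.Agent.PMA Pool.Agent.PMA.Res Pool.Agent.TSW

/-- T2 -/
theorem t2 (hP : Pool.Agent.ROT.RotP) (hW : Pool.Agent.ROT.RotW) :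
    (∀ (φ : ℕ → ℕ) (ν : ProbabilityMeasure C(unitInterval, ℂ)), Tendsto φ atTop atTop →
      LawTo φ (ν : Measure C(unitInterval, ℂ)) → ∀ z : ℂ, ‖z‖ = 1 →
        (ν : Measure C(unitInterval, ℂ)).map (fun γ => z • γ) = (ν : Measure C(unitInterval, ℂ))) ∧
    (∀ ε : ℝ, 0 < ε → ∃ n₀ : ℕ, ∀ n : ℕ, n₀ ≤ n → ∀ z : ℂ, ‖z‖ = 1 →
      ∀ F : C(unitInterval, ℂ) → ℝ, (∀ γ, |F γ| ≤ 1) → LipschitzWith 1 F →
        |∫ γ, F (z • γ) ∂(law n) - ∫ γ, F γ ∂(law n)| ≤ ε) ∧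
    (∀ g : ℂ → ℝ, Continuous g →
      Tendsto (fun n : ℕ => (∑ s ∈ saw n, g (pos s n / (‖pos s n‖ : ℂ))) / ((saw n).card : ℝ)) atTop
        (𝓝 ((∫ t in (0 : ℝ)..2 * Real.pi, g (Complex.exp (t * Complex.I))) / (2 * Real.pi)))) ∧
    (∀ (φ : ℕ → ℕ) (ν : ProbabilityMeasure C(unitInterval, ℂ)), Tendsto φ atTop atTop → (∀ k, Odd (φ k)) →
      PolTo φ (ν : Measure C(unitInterval, ℂ)) → ∀ z : ℂ, ‖z‖ = 1 →
        (ν : Measure C(unitInterval, ℂ)).map (fun γ => z • γ) = (ν : Measure C(unitInterval, ℂ))) ∧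
    (∀ ε : ℝ, 0 < ε → ∃ n₀ : ℕ, ∀ n : ℕ, n₀ ≤ n → Odd n → ∀ z : ℂ, ‖z‖ = 1 →
      ∀ F : C(unitInterval, ℂ) → ℝ, (∀ γ, |F γ| ≤ 1) → LipschitzWith 1 F →
        |pmean n (fun γ => F (z • γ)) - pmean n F| ≤ ε) ∧
    ∃ Q : Measure (ℤ → Bool), IsProbabilityMeasure Q ∧
      (∀ (m : ℕ) (S : Set (Fin m → Bool)) (ε : ℝ), 0 < ε → Tendsto (fun n : ℕ => (((saw n).filter fun s =>
        ∀ a b : ℕ, a ≤ b → b ≤ n → |(hits s S a b : ℝ) - Q.real {ω | (fun j : Fin m => ω (j : ℕ)) ∈ S} * ((b : ℝ) - a)| ≤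
          ε * n).card : ℝ) / ((saw n).card : ℝ)) atTop (𝓝 1)) ∧
      (∀ ε : ℝ, 0 < ε → ∃ k₀ : ℕ, ∀ k : ℕ, k₀ ≤ k → ∀ z : ℂ, ‖z‖ = 1 →
        ∀ F : C(unitInterval, ℂ) → ℝ, (∀ γ, |F γ| ≤ 1) → LipschitzWith 1 F →
          |∫ γ, F (z • γ) ∂(ylaw Q k) - ∫ γ, F γ ∂(ylaw Q k)| ≤ ε) ∧
      ∀ ε : ℝ, 0 < ε → ∃ (δ : ℝ) (m₀ : ℕ), 0 < δ ∧ ∀ n k m : ℕ, ε * n ≤ k → k ≤ (1 - ε) * n → m₀ ≤ m → m ≤ δ * n →
        ∀ z : ℂ, ‖z‖ = 1 → ∀ F G : C(unitInterval, ℂ) → ℝ, (∀ γ, |F γ| ≤ 1) → LipschitzWith 1 F → (∀ γ, |G γ| ≤ 1) →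
          LipschitzWith 1 G → (∀ γ, G (-γ) = G γ) → (∀ γ, G (Complex.exp (2 * Real.pi / 3 * Complex.I) • γ) = G γ) →
          |(∑ s ∈ saw n, F (z • (((size n / (m : ℝ) ^ (3 / 4 : ℝ) : ℝ) : ℂ) • part (k / n) (m / n) (curve s))) * G (curve s)) /
              ((saw n).card : ℝ) - (∫ γ, F γ ∂(ylaw Q m)) * ∫ γ, G γ ∂(law n)| ≤ ε := by
  refine ⟨hW, walk_unif hW, fun _ hg => walk_dir hW hg, hP, pol_unif hP, ?_⟩
  obtain ⟨Q, hQ⟩ := exists_QOk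
  have hQp : IsProbabilityMeasure Q := hQ.1.1
  refine ⟨Q, hQp, stB_of hQ, two_unif hP hQ, fun ε hε => ?_⟩
  obtain ⟨δ1, m1, hδ1, h1⟩ := win_law hQ (ε / 2) (by positivity)
  obtain ⟨k1, h3⟩ := two_unif hP hQ (ε / 2) (by positivity)
  refine ⟨min δ1 ε, m1 + k1 + 1, by positivity, fun n k m hk1 hk2 hm0 hm z hz F G hF hFL hG hGL hGe hGr => ?_⟩
  have hn0 : (0 : ℝ) ≤ n := Nat.cast_nonneg n
  have hle1 : ε / 2 * n ≤ ε * n := mul_le_mul_of_nonneg_right (by linarith) hn0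
  have hm1 : (m : ℝ) ≤ δ1 * n := hm.trans (mul_le_mul_of_nonneg_right (min_le_left _ _) hn0)
  have hm2 : (m : ℝ) ≤ ε * n := hm.trans (mul_le_mul_of_nonneg_right (min_le_right _ _) hn0)
  have hkm : k + m ≤ n := by
    have : ((k + m : ℕ) : ℝ) ≤ n := by
      push_cast
      linarith
    exact_mod_cast this
  have hex : Pool.Agent.TSW.Sym.ex 2 = Complex.exp (2 * Real.pi / 3 * Complex.I) := by
    unfold Pool.Agent.TSW.Sym.ex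
    congr 1
    push_cast
    ring
  rw [← hex] at hGr
  have e1 := h1 n k m (by linarith) (by linarith) (by omega) hm1 (fun γ => F (z • γ)) G (fun γ => hF _) (smul_lip hz hFL)
    hG hGL hGe hGr
  have e2 := h3 m (by omega) z hz F hF hFL
  simp only [wz_part _ (show 0 < m by omega) hkm] at e1
  have hGi : |∫ γ, G γ ∂(law n)| ≤ 1 := by
    have hp : IsProbabilityMeasure (law n) := (NTSF.PM n).2
    have h := norm_integral_le_of_norm_le_const (μ := law n) (f := G) (C := 1) (Eventually.of_forall fun γ => hG γ)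
    rwa [probReal_univ, mul_one, Real.norm_eq_abs] at h
  have e3 : |(∫ γ, F (z • γ) ∂(ylaw Q m)) * ∫ γ, G γ ∂(law n) - (∫ γ, F γ ∂(ylaw Q m)) * ∫ γ, G γ ∂(law n)| ≤ ε / 2 := by
    rw [← sub_mul, abs_mul]
    calc _ ≤ ε / 2 * 1 := mul_le_mul e2 hGi (abs_nonneg _) (by positivity)
      _ = ε / 2 := mul_one _
  have e4 := abs_sub_le ((∑ s ∈ saw n, F (z • (((size n / (m : ℝ) ^ (3 / 4 : ℝ) : ℝ) : ℂ) • part (k / n) (m / n) (curve s))) *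
    G (curve s)) / ((saw n).card : ℝ)) ((∫ γ, F (z • γ) ∂(ylaw Q m)) * ∫ γ, G γ ∂(law n))
    ((∫ γ, F γ ∂(ylaw Q m)) * ∫ γ, G γ ∂(law n))
  linarith

end Pool.Agent.ROT.TextB
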