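import Pool.Agent.ROT.FDir

/-!
Rotation invariance of the scaling limits of the self-avoiding walk on the hexagonal lattice (R1).
-/

set_option autoImplicit false

open MeasureTheory Filter Topology
open scoped Classical

namespace Pool.Agent.ROT.TextR

open Pool.Agent.NTS.Res Pool.Agent.PMA Pool.Agent.PMA.Res

/-- R1 -/
theorem r1 (hW : Pool.Agent.ROT.RotW) :
    (∀ (φ : ℕ → ℕ) (ν : ProbabilityMeasure C(unitInterval, ℂ)), Tendsto φ atTop atTop →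
      LawTo φ (ν : Measure C(unitInterval, ℂ)) → ∀ z : ℂ, ‖z‖ = 1 →
        (ν : Measure C(unitInterval, ℂ)).map (fun γ => z • γ) = (ν : Measure C(unitInterval, ℂ))) ∧
    (∀ ε : ℝ, 0 < ε → ∃ n₀ : ℕ, ∀ n : ℕ, n₀ ≤ n → ∀ z : ℂ, ‖z‖ = 1 →
      ∀ F : C(unitInterval, ℂ) → ℝ, (∀ γ, |F γ| ≤ 1) → LipschitzWith 1 F →
        |∫ γ, F (z • γ) ∂(law n) - ∫ γ, F γ ∂(law n)| ≤ ε) ∧
    ∀ g : ℂ → ℝ, Continuous g →
      Tendsto (fun n : ℕ => (∑ s ∈ saw n, g (pos s n / (‖pos s n‖ : ℂ))) / ((saw n).card : ℝ)) atTop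
        (𝓝 ((∫ t in (0 : ℝ)..2 * Real.pi, g (Complex.exp (t * Complex.I))) / (2 * Real.pi))) :=
  ⟨hW, walk_unif hW, fun _ hg => walk_dir hW hg⟩

end Pool.Agent.ROT.TextR
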