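import Pool.Agent.ROT.A2d

/-!
# ROT, UNIV, row LRW (helper10): moment 3/2, the constants

`A2a`, `A2c` with the moment `3/2` in the place of the second moment: `q_b` has a moment of order `< 1.6` only (by the
bumps).
-/

set_option autoImplicit false

open Finset

namespace Pool.Agent.ROT.U

open Pool.Agent.ROT.A PSys

/-- `x ^ (3/2)` -/
noncomputable def m3 (x : ℝ) : ℝ := x * √x

theorem m3_ge {x : ℝ} (h : 1 ≤ x) : x ≤ m3 x := by
  unfold m3
  have : 1 ≤ √x := by rwa [Real.one_le_sqrt]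
  nlinarith

theorem m3_one {x : ℝ} (h : 1 ≤ x) : 1 ≤ m3 x := h.trans (m3_ge h)

/-- the tail -/
theorem m3_tail {x τ : ℝ} (h : 1 ≤ x) (hτ : 0 < τ) : x ≤ τ ^ 2 ∨ x ≤ m3 x / τ := by
  by_cases h1 : x ≤ τ ^ 2
  · exact Or.inl h1
  · refine Or.inr ?_
    rw [le_div_iff₀ hτ]
    unfold m3
    have h2 : τ ≤ √x := Real.le_sqrt_of_sq_le (not_le.1 h1).le
    exact mul_le_mul_of_nonneg_left h2 (by linarith)

/-! ### weighted sums -/

section wt

variable {P : Type} {w Q : P → ℝ}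

theorem bd (hw : ∀ p, 0 ≤ w p) (hQ : Summable fun p => w p * m3 (Q p)) {g : P → ℝ} {c : ℝ}
    (hg : ∀ p, w p ≠ 0 → |g p| ≤ c * m3 (Q p)) :
    (Summable fun p => w p * g p) ∧ |∑' p, w p * g p| ≤ c * ∑' p, w p * m3 (Q p) := by
  have h1 : ∀ p, ‖w p * g p‖ ≤ c * (w p * m3 (Q p)) := by
    intro p
    rw [Real.norm_eq_abs, abs_mul, abs_of_nonneg (hw p)]
    by_cases h : w p = 0
    · simp [h]
    · calc w p * |g p| ≤ w p * (c * m3 (Q p)) := mul_le_mul_of_nonneg_left (hg p h) (hw p)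
        _ = _ := by ring
  refine ⟨Summable.of_norm_bounded (hQ.mul_left c) h1, ?_⟩
  have h2 := tsum_of_norm_bounded (hQ.mul_left c).hasSum h1
  rwa [tsum_mul_left, Real.norm_eq_abs] at h2

/-- **comparison**: the full function `ψ` against the outer function `ψ'` -/
theorem core (hw : ∀ p, 0 ≤ w p) (hQ : Summable fun p => w p * m3 (Q p))
    (hq : ∀ p, 1 ≤ Q p) {χ ψ ψ' cap : P → ℝ} {a c1 τ ν d : ℝ} (hc1 : 0 ≤ c1)
    (hτ : 0 < τ) (hχ : ∀ p, |χ p - a| ≤ c1 * Q p) (hψ : ∀ p, |ψ p| ≤ 1) (hψ' : ∀ p, |ψ' p| ≤ 1)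
    (hcap : ∀ p, 0 ≤ cap p ∧ cap p ≤ 1) (hν : 0 ≤ ν) (hd : 0 ≤ d)
    (hdif : ∀ p, w p ≠ 0 → |ψ p - ψ' p| ≤ 2 * cap p + 2 * ν + d) :
    |∑' p, w p * (ψ p * (χ p - a))| ≤ |∑' p, w p * (ψ' p * (χ p - a))| +
      2 * c1 * (τ ^ 2 * (∑' p, w p * cap p) + (∑' p, w p * m3 (Q p)) / τ) +
      (2 * ν + d) * c1 * ∑' p, w p * m3 (Q p) := by
  -- summability
  have s1 : ∀ f : P → ℝ, (∀ p, |f p| ≤ 1) → Summable fun p => w p * (f p * (χ p - a)) := fun f hf =>
    (bd hw hQ (c := c1) fun p _ => by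
      rw [abs_mul]
      calc |f p| * |χ p - a| ≤ 1 * (c1 * Q p) := mul_le_mul (hf p) (hχ p) (abs_nonneg _) zero_le_one
        _ ≤ c1 * m3 (Q p) := by
          have := mul_le_mul_of_nonneg_left (m3_ge (hq p)) hc1
          linarith).1
  have s2 : Summable fun p => w p * cap p := (bd hw hQ (c := 1) fun p _ => by
    rw [abs_of_nonneg (hcap p).1, one_mul]
    exact (hcap p).2.trans (m3_one (hq p))).1
  -- the difference
  have e1 : ∑' p, w p * (ψ p * (χ p - a)) - ∑' p, w p * (ψ' p * (χ p - a)) =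
      ∑' p, w p * ((ψ p - ψ' p) * (χ p - a)) := by
    rw [← (s1 ψ hψ).tsum_sub (s1 ψ' hψ')]
    exact tsum_congr fun p => by ring
  have hdom : ∀ p, ‖w p * ((ψ p - ψ' p) * (χ p - a))‖ ≤
      2 * c1 * (τ ^ 2 * (w p * cap p) + (w p * m3 (Q p)) / τ) + (2 * ν + d) * c1 * (w p * m3 (Q p)) := by
    intro p
    rw [Real.norm_eq_abs, abs_mul, abs_mul, abs_of_nonneg (hw p)]
    by_cases h : w p = 0
    · simp [h]
    have hc := hcap p
    have hq0 : 0 ≤ Q p := by linarith [hq p]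
    have hm0 : 0 ≤ m3 (Q p) := zero_le_one.trans (m3_one (hq p))
    have t1 : cap p * Q p ≤ τ ^ 2 * cap p + m3 (Q p) / τ := by
      rcases m3_tail (hq p) hτ with hQT | hQT
      · have h1 : cap p * Q p ≤ cap p * τ ^ 2 := mul_le_mul_of_nonneg_left hQT hc.1
        have h2 : 0 ≤ m3 (Q p) / τ := by positivity
        linarith
      · have h2 : cap p * Q p ≤ Q p := by nlinarith
        have h4 : 0 ≤ τ ^ 2 * cap p := mul_nonneg (sq_nonneg _) hc.1
        linarith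
    have t2 : |ψ p - ψ' p| * |χ p - a| ≤ (2 * cap p + 2 * ν + d) * (c1 * Q p) :=
      mul_le_mul (hdif p h) (hχ p) (abs_nonneg _) (by linarith)
    have t3 : (2 * cap p + 2 * ν + d) * (c1 * Q p) ≤
        2 * c1 * (τ ^ 2 * cap p + m3 (Q p) / τ) + (2 * ν + d) * c1 * m3 (Q p) := by
      have e : (2 * cap p + 2 * ν + d) * (c1 * Q p) = 2 * c1 * (cap p * Q p) + (2 * ν + d) * c1 * Q p := by ring
      rw [e]
      have h5 := mul_le_mul_of_nonneg_left t1 (by positivity : 0 ≤ 2 * c1)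
      have h6 := mul_le_mul_of_nonneg_left (m3_ge (hq p)) (by positivity : 0 ≤ (2 * ν + d) * c1)
      linarith
    calc w p * (|ψ p - ψ' p| * |χ p - a|)
        ≤ w p * (2 * c1 * (τ ^ 2 * cap p + m3 (Q p) / τ) + (2 * ν + d) * c1 * m3 (Q p)) :=
          mul_le_mul_of_nonneg_left (t2.trans t3) (hw p)
      _ = _ := by ring
  have hs : HasSum (fun p => 2 * c1 * (τ ^ 2 * (w p * cap p) + (w p * m3 (Q p)) / τ) +
      (2 * ν + d) * c1 * (w p * m3 (Q p)))
      (2 * c1 * (τ ^ 2 * (∑' p, w p * cap p) + (∑' p, w p * m3 (Q p)) / τ) +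
      (2 * ν + d) * c1 * ∑' p, w p * m3 (Q p)) :=
    (((s2.hasSum.mul_left (τ ^ 2)).add (hQ.hasSum.div_const τ)).mul_left _).add (hQ.hasSum.mul_left _)
  have h := tsum_of_norm_bounded hs hdom
  rw [← e1, Real.norm_eq_abs] at h
  have h' := abs_sub_abs_le_abs_sub (∑' p, w p * (ψ p * (χ p - a))) (∑' p, w p * (ψ' p * (χ p - a)))
  linarith

end wt

/-! ### the constants -/

section cst

variable {S : PSys} {u : Fin 4} (X : S.Side u)

open Classical in
/-- **(UI)** of order `3/2` -/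
def UI3 : Prop := ∀ δ K : ℝ, 0 < δ → δ < K → ∃ C N0 : ℝ, ∀ N : ℝ, N0 ≤ N →
  (Summable fun p : S.P => if X.win δ K N p then S.M p * m3 (S.Qf p u) else 0) ∧
    X.rsum δ K N (fun p => m3 (S.Qf p u)) ≤ C / N ^ 2

theorem ui_wt {δ K N : ℝ} (h : Summable fun p : S.P => open Classical in
    if X.win δ K N p then S.M p * m3 (S.Qf p u) else 0) :
    Summable fun p => X.wt δ K N p * m3 (S.Qf p u) := by
  refine h.congr fun p => ?_
  unfold Side.wt
  split_ifs <;> simp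

/-- summability of the weight of the window -/
theorem sum_wt (hq : ∀ p, 1 ≤ S.Qf p u) {δ K N : ℝ}
    (hs : Summable fun p => X.wt δ K N p * m3 (S.Qf p u)) : Summable fun p => X.wt δ K N p := by
  have h := (bd (X.wt_nn δ K N) hs (g := fun _ => 1) (c := 1) fun p _ => by
    rw [abs_one, one_mul]
    exact m3_one (hq p)).1
  simpa using h

/-- **the mean as the constant** -/
theorem lr_mean {δ K r s c c0 : ℝ} (hδ : 0 < δ) (hδr : δ ≤ r) (hrs : r < s) (hsK : s ≤ K)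
    (hq : ∀ p, 1 ≤ S.Qf p u) (hui : UI3 X) (hc : 0 < c) (hm : X.MassLo r s c) {χ : S.P → ℝ}
    (hc0 : 0 ≤ c0) (hχ : ∀ p, |χ p| ≤ c0 * S.Qf p u)
    (hT : ∀ τ : ℝ, 0 < τ → ∃ χT : S.P → ℝ, (∀ p, |χ p - χT p| ≤ m3 (S.Qf p u) / τ) ∧ ∃ cT, X.LR δ K χT cT) :
    X.LR δ K χ fun N => X.rsum r s N χ / X.rsum r s N fun _ => 1 := by
  classical
  intro ε hε
  obtain ⟨C1, N1, h1⟩ := hui δ K hδ (by linarith)
  obtain ⟨C2, N2, h2⟩ := hui r s (by linarith) hrs
  obtain ⟨N3, h3⟩ := hm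
  set B1 : ℝ := |C1| + 1 with hB1
  set B2 : ℝ := |C2| + 1 with hB2
  have hB1p : 0 < B1 := by positivity
  have hB2p : 0 < B2 := by positivity
  set ε1 : ℝ := min (ε / 4) (ε * c / (4 * B1)) with hε1
  have hε1p : 0 < ε1 := by
    rw [hε1]
    exact lt_min (by positivity) (by positivity)
  set T : ℝ := max (4 * B1 / ε) (B2 * (4 * B1) / (ε * c)) with hTd
  have hTp : 0 < T := lt_of_lt_of_le (by positivity) (le_max_left _ _)
  obtain ⟨χT, hd, cT, hLR⟩ := hT T hTp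
  obtain ⟨N4, h4⟩ := hLR ε1 hε1p
  refine ⟨max (max N1 N2) (max (max N3 N4) 1), fun N hN ψ hψ hψs => ?_⟩
  have g1 := h1 N ((le_max_left _ _).trans ((le_max_left _ _).trans hN))
  have g2 := h2 N ((le_max_right _ _).trans ((le_max_left _ _).trans hN))
  have g3 := h3 N ((le_max_left _ _).trans ((le_max_left _ _).trans ((le_max_right _ _).trans hN)))
  have g4 := h4 N ((le_max_right _ _).trans ((le_max_left _ _).trans ((le_max_right _ _).trans hN)))
  have hN1 : 1 ≤ N := (le_max_right _ _).trans ((le_max_right _ _).trans hN)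
  have hN0 : 0 < N := by linarith
  have hNN : 0 < N ^ 2 := by positivity
  have w1 := X.wt_nn δ K N
  have w2 := X.wt_nn r s N
  have s1 := ui_wt X g1.1
  have s2 := ui_wt X g2.1
  have v1 : ∑' p, X.wt δ K N p * m3 (S.Qf p u) ≤ B1 / N ^ 2 := by
    have h := g1.2
    rw [X.rsum_wt] at h
    refine h.trans (div_le_div_of_nonneg_right ?_ hNN.le)
    linarith [le_abs_self C1]
  have v2 : ∑' p, X.wt r s N p * m3 (S.Qf p u) ≤ B2 / N ^ 2 := by
    have h := g2.2
    rw [X.rsum_wt] at h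
    refine h.trans (div_le_div_of_nonneg_right ?_ hNN.le)
    linarith [le_abs_self C2]
  have hm1 : ∀ p, 1 ≤ m3 (S.Qf p u) := fun p => m3_one (hq p)
  have hmQ : ∀ p, S.Qf p u ≤ m3 (S.Qf p u) := fun p => m3_ge (hq p)
  -- the sums
  set m : ℝ := X.rsum r s N fun _ => 1 with hmd
  have hmp : 0 < m := lt_of_lt_of_le (by positivity) g3
  set a : ℝ := X.rsum r s N χ / m with had
  have bχ : ∀ p, |χ p| ≤ c0 * m3 (S.Qf p u) := fun p =>
    (hχ p).trans (mul_le_mul_of_nonneg_left (hmQ p) hc0)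
  have bd' : ∀ p, |χ p - χT p| ≤ T⁻¹ * m3 (S.Qf p u) := fun p => by
    have := hd p
    rwa [div_eq_inv_mul] at this
  have bχT : ∀ p, |χT p| ≤ (c0 + T⁻¹) * m3 (S.Qf p u) := by
    intro p
    have h := abs_sub_abs_le_abs_sub (χT p) (χ p)
    rw [abs_sub_comm] at h
    have := bχ p
    have := bd' p
    linarith
  -- the constant of the truncation against the mean
  have e1 : |a * m - cT N * m| ≤ ε1 / N ^ 2 + T⁻¹ * (B2 / N ^ 2) := by
    have t1 := g4 (fun p => if r * N ≤ (S.wd u p : ℝ) ∧ (S.wd u p : ℝ) ≤ s * N then 1 else 0)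
      (fun p => by split_ifs <;> simp) (fun p p' h => by simp only [X.sim_wd _ p p' h])
    have t2 : X.rsum δ K N (fun p => (if r * N ≤ (S.wd u p : ℝ) ∧ (S.wd u p : ℝ) ≤ s * N then (1 : ℝ) else 0) *
        (χT p - cT N)) = (∑' p, X.wt r s N p * χT p) - cT N * m := by
      rw [X.rsum_wt]
      have t3 : ∀ p, X.wt δ K N p * ((if r * N ≤ (S.wd u p : ℝ) ∧ (S.wd u p : ℝ) ≤ s * N then (1 : ℝ) else 0) *
          (χT p - cT N)) = X.wt r s N p * χT p - cT N * (X.wt r s N p * 1) := by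
        intro p
        unfold Side.wt Side.win
        by_cases h : X.rt p = 0
        · by_cases h' : r * N ≤ (S.wd u p : ℝ) ∧ (S.wd u p : ℝ) ≤ s * N
          · have h'' : δ * N ≤ (S.wd u p : ℝ) ∧ (S.wd u p : ℝ) ≤ K * N :=
              ⟨(mul_le_mul_of_nonneg_right hδr hN0.le).trans h'.1,
                h'.2.trans (mul_le_mul_of_nonneg_right hsK hN0.le)⟩
            simp only [h, h', h'', and_self, if_true]
            ring
          · simp only [h, h', if_false, true_and]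
            ring
        · simp only [h, false_and, if_false]
          ring
      rw [tsum_congr t3, (bd w2 s2 (c := c0 + T⁻¹) fun p _ => bχT p).1.tsum_sub
        (((bd w2 s2 (g := fun _ => 1) (c := 1) fun p _ => by
          rw [abs_one, one_mul]; exact hm1 p).1).mul_left _), tsum_mul_left, hmd, X.rsum_wt]
    rw [t2] at t1
    have t4 : a * m = ∑' p, X.wt r s N p * χ p := by
      rw [had, div_mul_cancel₀ _ hmp.ne', X.rsum_wt]
    have t5 : |(∑' p, X.wt r s N p * χ p) - ∑' p, X.wt r s N p * χT p| ≤ T⁻¹ * (B2 / N ^ 2) := by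
      rw [← (bd w2 s2 (c := c0) fun p _ => bχ p).1.tsum_sub
        (bd w2 s2 (c := c0 + T⁻¹) fun p _ => bχT p).1]
      have t6 := (bd w2 s2 (g := fun p => χ p - χT p) (c := T⁻¹) fun p _ => bd' p).2
      rw [tsum_congr fun p => (mul_sub (X.wt r s N p) (χ p) (χT p)).symm]
      exact t6.trans (mul_le_mul_of_nonneg_left v2 (by positivity))
    rw [t4]
    have t7 := abs_add_le ((∑' p, X.wt r s N p * χ p) - ∑' p, X.wt r s N p * χT p)
      ((∑' p, X.wt r s N p * χT p) - cT N * m)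
    rw [sub_add_sub_cancel] at t7
    linarith
  have e2 : |cT N - a| ≤ (ε1 + T⁻¹ * B2) / c := by
    rw [← sub_mul, abs_mul, abs_of_pos hmp] at e1
    rw [abs_sub_comm, le_div_iff₀ hc]
    have h5 : |a - cT N| * (c / N ^ 2) ≤ (ε1 + T⁻¹ * B2) / N ^ 2 := by
      refine (mul_le_mul_of_nonneg_left g3 (abs_nonneg _)).trans (e1.trans (le_of_eq ?_))
      ring
    have h6 : |a - cT N| * (c / N ^ 2) = (|a - cT N| * c) / N ^ 2 := by ring
    rw [h6] at h5
    exact (div_le_div_iff_of_pos_right hNN).1 h5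
  -- the main estimate
  have sψ : ∀ {f : S.P → ℝ} {c' : ℝ}, (∀ p, |f p| ≤ c' * m3 (S.Qf p u)) →
      (Summable fun p => X.wt δ K N p * (ψ p * f p)) ∧
        |∑' p, X.wt δ K N p * (ψ p * f p)| ≤ c' * ∑' p, X.wt δ K N p * m3 (S.Qf p u) := by
    intro f c' hf
    refine bd w1 s1 fun p _ => ?_
    rw [abs_mul]
    have := mul_le_mul (hψ p) (hf p) (abs_nonneg _) zero_le_one
    linarith
  have q1 := sψ (f := fun _ => cT N - a) (c' := |cT N - a|) fun p => by
    have := mul_le_mul_of_nonneg_left (hm1 p) (abs_nonneg (cT N - a))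
    linarith
  have q2 := sψ bd'
  have q3 := sψ (f := fun p => χT p - cT N) (c' := c0 + T⁻¹ + |cT N|) fun p => by
    have h5 := abs_sub (χT p) (cT N)
    have h6 := bχT p
    have h7 := mul_le_mul_of_nonneg_left (hm1 p) (abs_nonneg (cT N))
    linarith
  have e3 : X.rsum δ K N (fun p => ψ p * (χ p - a)) =
      (∑' p, X.wt δ K N p * (ψ p * (χT p - cT N))) + (∑' p, X.wt δ K N p * (ψ p * (χ p - χT p))) +
        ∑' p, X.wt δ K N p * (ψ p * (cT N - a)) := by
    rw [X.rsum_wt, ← q3.1.tsum_add q2.1, ← (q3.1.add q2.1).tsum_add q1.1]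
    exact tsum_congr fun p => by ring
  have g5 := g4 ψ hψ hψs
  rw [X.rsum_wt] at g5
  change |X.rsum δ K N (fun p => ψ p * (χ p - a))| ≤ ε / N ^ 2
  rw [e3]
  have r1 : |∑' p, X.wt δ K N p * (ψ p * (χ p - χT p))| ≤ T⁻¹ * (B1 / N ^ 2) :=
    q2.2.trans (mul_le_mul_of_nonneg_left v1 (by positivity))
  have r2 : |∑' p, X.wt δ K N p * (ψ p * (cT N - a))| ≤ (ε1 + T⁻¹ * B2) / c * (B1 / N ^ 2) := by
    refine q1.2.trans (mul_le_mul e2 v1
      (tsum_nonneg fun p => mul_nonneg (w1 p) (zero_le_one.trans (hm1 p))) (by positivity))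
  have r3 := abs_add_three (∑' p, X.wt δ K N p * (ψ p * (χT p - cT N)))
    (∑' p, X.wt δ K N p * (ψ p * (χ p - χT p))) (∑' p, X.wt δ K N p * (ψ p * (cT N - a)))
  have r4 : ε1 / N ^ 2 + T⁻¹ * (B1 / N ^ 2) + (ε1 + T⁻¹ * B2) / c * (B1 / N ^ 2) ≤ ε / N ^ 2 := by
    have z1 : ε1 ≤ ε / 4 := min_le_left _ _
    have z2 : ε1 ≤ ε * c / (4 * B1) := min_le_right _ _
    have z3 : T⁻¹ * B1 ≤ ε / 4 := by
      rw [inv_mul_eq_div, div_le_iff₀ hTp]
      have : 4 * B1 / ε ≤ T := le_max_left _ _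
      rw [div_le_iff₀ hε] at this
      linarith
    have z4 : T⁻¹ * B2 ≤ ε * c / (4 * B1) := by
      rw [inv_mul_eq_div, div_le_iff₀ hTp]
      have h5 : B2 * (4 * B1) / (ε * c) ≤ T := le_max_right _ _
      have h6 := mul_le_mul_of_nonneg_left h5 (by positivity : 0 ≤ ε * c / (4 * B1))
      refine le_trans (le_of_eq ?_) h6
      field_simp
    have z5 : (ε1 + T⁻¹ * B2) / c * B1 ≤ ε / 2 := by
      have h5 : (ε1 + T⁻¹ * B2) / c * B1 ≤ (ε * c / (4 * B1) + ε * c / (4 * B1)) / c * B1 := by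
        gcongr
      refine h5.trans (le_of_eq ?_)
      field_simp
      ring
    have z6 : ε1 / N ^ 2 + T⁻¹ * (B1 / N ^ 2) + (ε1 + T⁻¹ * B2) / c * (B1 / N ^ 2) =
        (ε1 + T⁻¹ * B1 + (ε1 + T⁻¹ * B2) / c * B1) / N ^ 2 := by ring
    rw [z6]
    exact div_le_div_of_nonneg_right (by linarith) hNN.le
  linarith

end cst

end Pool.Agent.ROT.U
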