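import Pool.Agent.ROT.UA2a

/-!
# ROT, UNIV, row LRW (helper10): the constants; one root and a fixed environment
-/

set_option autoImplicit false

open Finset Filter Topology

namespace Pool.Agent.ROT.U

open Pool.Agent.ROT.A PSys

variable {S : PSys} {u : Fin 4}

/-- **the inputs of LRW** -/
structure Inp (S : PSys) (X : ∀ u, S.Side u) : Prop where
  Q_ge : ∀ p u, 1 ≤ S.Qf p u
  C_le : ∀ p u, S.Cf p u ≤ 1
  lr : ∀ u, (X u).LRall
  cap : ∀ u, (X u).CAP
  ui : ∀ u, UI3 (X u)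
  sym : S.Sym
  mass : S.Mass

/-- **the constants**: bounded, the same for the four sides and all large windows -/
theorem consts {X : ∀ u, S.Side u} (h : Inp S X) :
    ∃ (A r0 s0 : ℝ) (a b : ℝ → ℝ), 0 < r0 ∧ r0 < s0 ∧ (∀ N, 1 ≤ a N ∧ a N ≤ A ∧ 0 ≤ b N ∧ b N ≤ 1) ∧
      ∀ (u : Fin 4) (δ K : ℝ), 0 < δ → δ ≤ r0 → s0 ≤ K →
        (X u).LR δ K (fun p => S.Qf p u) a ∧ (X u).LR δ K (fun p => S.Cf p u) b := by
  obtain ⟨r, s, c, hr, hrs, hc, N0, hN0⟩ := h.mass.1
  -- lower bound of the mass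
  have hlo : ∀ u, (X u).MassLo r s c := by
    intro u
    obtain ⟨C1, N1, h1⟩ := h.ui u r s hr hrs
    refine ⟨max (max N0 N1) 1, fun N hN => ?_⟩
    have hN1 : 1 ≤ N := (le_max_right _ _).trans hN
    have hNN : 0 < N ^ 2 := by positivity
    have g1 := h1 N ((le_max_right _ _).trans ((le_max_left _ _).trans hN))
    have s1 := sum_wt (X u) (fun p => h.Q_ge p u) (ui_wt (X u) g1.1)
    have g2 := (X u).mass_le s1 ⌈s * N⌉₊
    have g3 := hN0 N ((le_max_left _ _).trans ((le_max_left _ _).trans hN)) ⌈s * N⌉₊ (Nat.le_ceil _)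
    rw [div_le_iff₀ hNN]
    nlinarith
  -- the means of the side `3`
  set aR : ℝ → ℝ := fun N => (X 3).rsum r s N (fun p => S.Qf p 3) / (X 3).rsum r s N fun _ => 1 with haR
  set bR : ℝ → ℝ := fun N => (X 3).rsum r s N (fun p => S.Cf p 3) / (X 3).rsum r s N fun _ => 1 with hbR
  have ea : ∀ u N, (X u).rsum r s N (fun p => S.Qf p u) / (X u).rsum r s N (fun _ => 1) = aR N := by
    intro u N
    rw [haR]
    rw [Side.rsum_sym (f := fun u p => S.Qf p u) h.sym X u (fun u z p => (X u).Q_tr z p) (fun e p h => h.2.2.1) r s N]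
    rw [Side.rsum_sym (f := fun _ _ => 1) h.sym X u (fun u z p => rfl) (fun e p h => rfl) r s N]
  have eb : ∀ u N, (X u).rsum r s N (fun p => S.Cf p u) / (X u).rsum r s N (fun _ => 1) = bR N := by
    intro u N
    rw [hbR]
    rw [Side.rsum_sym (f := fun u p => S.Cf p u) h.sym X u (fun u z p => (X u).C_tr z p) (fun e p h => h.2.2.2) r s N]
    rw [Side.rsum_sym (f := fun _ _ => 1) h.sym X u (fun u z p => rfl) (fun e p h => rfl) r s N]
  -- bounds of the means
  obtain ⟨C1, N1, h1⟩ := h.ui 3 r s hr hrs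
  obtain ⟨N2, h2⟩ := hlo 3
  set A : ℝ := max (|C1| / c) 1 with hA
  have hA1 : |C1| / c ≤ A := le_max_left _ _
  have hA3 : 1 ≤ A := le_max_right _ _
  have hA0 : 0 ≤ A := zero_le_one.trans hA3
  set N3 : ℝ := max (max N1 N2) 1 with hN3
  have hbd : ∀ N, N3 ≤ N → 1 ≤ aR N ∧ aR N ≤ A ∧ 0 ≤ bR N ∧ bR N ≤ 1 := by
    intro N hN
    have hN1 : 1 ≤ N := (le_max_right _ _).trans hN
    have hNN : 0 < N ^ 2 := by positivity
    have g1 := h1 N ((le_max_left _ _).trans ((le_max_left _ _).trans hN))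
    have g2 := h2 N ((le_max_right _ _).trans ((le_max_left _ _).trans hN))
    have w1 := (X 3).wt_nn r s N
    have s2 := ui_wt (X 3) g1.1
    have s1 := sum_wt (X 3) (fun p => h.Q_ge p 3) s2
    have hm : (X 3).rsum r s N (fun _ => 1) = ∑' p, (X 3).wt r s N p := by
      rw [Side.rsum_wt]; simp
    have hmp : 0 < (X 3).rsum r s N fun _ => 1 := lt_of_lt_of_le (by positivity) g2
    have hv : ∑' p, (X 3).wt r s N p * m3 (S.Qf p 3) ≤ |C1| / N ^ 2 := by
      have h := g1.2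
      rw [Side.rsum_wt] at h
      exact h.trans (div_le_div_of_nonneg_right (le_abs_self _) hNN.le)
    have hQ2 : ∀ p, |S.Qf p 3| ≤ 1 * m3 (S.Qf p 3) := fun p => by
      have := h.Q_ge p 3
      rw [abs_of_pos (zero_lt_one.trans_le this), one_mul]
      exact m3_ge this
    have sQ := bd w1 s2 (c := 1) fun p _ => hQ2 p
    refine ⟨?_, ?_, ?_, ?_⟩
    · show 1 ≤ _ / _
      rw [le_div_iff₀ hmp, hm, Side.rsum_wt, one_mul]
      refine s1.tsum_le_tsum (fun p => ?_) sQ.1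
      exact le_mul_of_one_le_right (w1 p) (h.Q_ge p 3)
    · show _ / _ ≤ A
      rw [div_le_iff₀ hmp]
      have e1 : (X 3).rsum r s N (fun p => S.Qf p 3) ≤ |C1| / N ^ 2 := by
        rw [Side.rsum_wt]
        refine (le_abs_self _).trans (sQ.2.trans ?_)
        rw [one_mul]
        exact hv
      refine e1.trans ?_
      calc |C1| / N ^ 2 = |C1| / c * (c / N ^ 2) := by field_simp
        _ ≤ A * (X 3).rsum r s N (fun _ => 1) := mul_le_mul hA1 g2 (by positivity) hA0
    · show 0 ≤ _ / _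
      refine div_nonneg ?_ hmp.le
      rw [Side.rsum_wt]
      exact tsum_nonneg fun p => mul_nonneg (w1 p) (S.C_nn p 3)
    · show _ / _ ≤ 1
      rw [div_le_iff₀ hmp, hm, Side.rsum_wt, one_mul]
      refine Summable.tsum_le_tsum (fun p => ?_) (bd w1 s2 (g := fun p => S.Cf p 3)
        (c := 1) fun p _ => ?_).1 s1
      · exact mul_le_of_le_one_right (w1 p) (h.C_le p 3)
      · rw [abs_of_nonneg (S.C_nn p 3), one_mul]
        exact (h.C_le p 3).trans (m3_one (h.Q_ge p 3))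
  -- the constants
  refine ⟨A, r, s, fun N => if N3 ≤ N then aR N else 1, fun N => if N3 ≤ N then bR N else 0, hr, hrs,
    fun N => ?_, fun u δ K hδ hδr hsK => ?_⟩
  · by_cases hN : N3 ≤ N
    · simp only [hN, if_true]
      exact hbd N hN
    · simp only [hN, if_false]
      exact ⟨le_rfl, hA3, le_rfl, zero_le_one⟩
  · have hl := h.lr u δ K hδ (by linarith)
    have hQ0 : ∀ p, 0 < S.Qf p u := fun p => zero_lt_one.trans_le (h.Q_ge p u)
    refine ⟨?_, ?_⟩
    · refine (X u).lr_congr (lr_mean (X u) hδ hδr hrs hsK (fun p => h.Q_ge p u) (h.ui u) hc (hlo u)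
        (c0 := 1) (χ := fun p => S.Qf p u) zero_le_one (fun p => ?_) fun T hT => ?_) (N1 := N3) fun N hN => ?_
      · rw [abs_of_pos (hQ0 p), one_mul]
      · refine ⟨fun p => min (S.Qf p u) (T ^ 2), fun p => ?_, hl.2 (T ^ 2) (by positivity)⟩
        show |S.Qf p u - min (S.Qf p u) (T ^ 2)| ≤ m3 (S.Qf p u) / T
        have hm0 : 0 ≤ m3 (S.Qf p u) := zero_le_one.trans (m3_one (h.Q_ge p u))
        by_cases hQT : S.Qf p u ≤ T ^ 2
        · rw [min_eq_left hQT, sub_self, abs_zero]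
          positivity
        · rw [min_eq_right (not_le.1 hQT).le, abs_of_nonneg (by linarith [not_le.1 hQT])]
          rcases m3_tail (h.Q_ge p u) hT with h1 | h1
          · exact absurd h1 hQT
          · have : 0 ≤ T ^ 2 := sq_nonneg _
            linarith
      · rw [if_pos hN]
        exact (ea u N).symm
    · refine (X u).lr_congr (lr_mean (X u) hδ hδr hrs hsK (fun p => h.Q_ge p u) (h.ui u) hc (hlo u)
        (c0 := 1) (χ := fun p => S.Cf p u) zero_le_one (fun p => ?_) fun T hT => ?_) (N1 := N3) fun N hN => ?_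
      · rw [abs_of_nonneg (S.C_nn p u), one_mul]
        exact (h.C_le p u).trans (h.Q_ge p u)
      · refine ⟨fun p => S.Cf p u, fun p => ?_, hl.1⟩
        have hm0 : 0 ≤ m3 (S.Qf p u) := zero_le_one.trans (m3_one (h.Q_ge p u))
        rw [sub_self, abs_zero]
        positivity
      · rw [if_pos hN]
        exact (eb u N).symm

/-! ### the environment -/

/-- **an environment**: the sites of `ω`, and a relation `G ω p` of `ω` and a tracer which does not see the cap at the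
root of a side if `ω` is not near this root -/
structure XEnv (S : PSys) (X : ∀ u, S.Side u) (Ω : Type) where
  /-- sites -/
  st : Ω → Set Z2
  /-- the relation -/
  G : Ω → S.P → Prop
  rel : ∀ (u : Fin 4) (n : ℕ) (p p' : S.P) (ω : Ω), (X u).Sim n p p' →
    (¬ ∃ s ∈ st ω, |s.1 - ((X u).rt p).1| ≤ max ((X u).cd n p : ℤ) ((X u).cd n p') + 2 ∧
      |s.2 - ((X u).rt p).2| ≤ max ((X u).cd n p : ℤ) ((X u).cd n p') + 2) → G ω p → G ω p'

namespace XEnv

variable {X : ∀ u, S.Side u} {Ω : Type} (E : XEnv S X Ω)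

/-- `ω` has a site at distance `≤ ρ` of `x` -/
def Nr (ρ : ℝ) (x : Z2) (ω : Ω) : Prop := ∃ s ∈ E.st ω, |(s.1 : ℝ) - x.1| ≤ ρ ∧ |(s.2 : ℝ) - x.2| ≤ ρ

theorem rel_iff {u : Fin 4} {n : ℕ} {p p' : S.P} {ω : Ω} (h : (X u).Sim n p p')
    (h' : ¬ ∃ s ∈ E.st ω, |s.1 - ((X u).rt p).1| ≤ max ((X u).cd n p : ℤ) ((X u).cd n p') + 2 ∧
      |s.2 - ((X u).rt p).2| ≤ max ((X u).cd n p : ℤ) ((X u).cd n p') + 2) : E.G ω p ↔ E.G ω p' := by
  refine ⟨E.rel u n p p' ω h h', E.rel u n p' p ω (((X u).eqv n).symm h) ?_⟩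
  rw [max_comm, ← (X u).sim_rt n p p' h]
  exact h'

open Classical in
/-- the outer function -/
noncomputable def ps (θ : (Fin 4 → ℝ) → ℝ) (N : ℕ) (L : ℝ) (ω : Ω) (p : S.P) : ℝ :=
  if E.G ω p then θ (S.hN N p) / L else 0

variable {θ : (Fin 4 → ℝ) → ℝ} {N : ℕ} {L : ℝ} {Λ : NNReal}

theorem ps_le (hθb : ∀ x, |θ x| ≤ Λ) (hL : Λ ≤ L) (hL0 : 0 < L) (ω : Ω) (p : S.P) : |E.ps θ N L ω p| ≤ 1 := by
  unfold ps
  split_ifs
  · rw [abs_div, abs_of_pos hL0, div_le_one hL0]
    exact (hθb _).trans hL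
  · simp

theorem ps_dif (hθ : LipschitzWith Λ θ) (hL : Λ ≤ L) (hL0 : 0 < L) (hN : 0 < N) {u : Fin 4} {n : ℕ}
    {p p' : S.P} {ω : Ω} (hs : (X u).Sim n p p')
    (hr : ¬ ∃ s ∈ E.st ω, |s.1 - ((X u).rt p).1| ≤ max ((X u).cd n p : ℤ) ((X u).cd n p') + 2 ∧
      |s.2 - ((X u).rt p).2| ≤ max ((X u).cd n p : ℤ) ((X u).cd n p') + 2) :
    |E.ps θ N L ω p - E.ps θ N L ω p'| ≤ ((max ((X u).cd n p) ((X u).cd n p') : ℕ) : ℝ) / N := by
  set m : ℕ := max ((X u).cd n p) ((X u).cd n p') with hm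
  have hNr : (0 : ℝ) < N := by exact_mod_cast hN
  have hm0 : (0 : ℝ) ≤ m := Nat.cast_nonneg m
  have hb : (0 : ℝ) ≤ (m : ℝ) / N := by positivity
  unfold ps
  by_cases h : E.G ω p
  · rw [if_pos h, if_pos ((E.rel_iff hs hr).1 h), ← sub_div, abs_div, abs_of_pos hL0, div_le_iff₀ hL0]
    have h1 := hθ.dist_le_mul (S.hN N p) (S.hN N p')
    rw [Real.dist_eq] at h1
    refine h1.trans ?_
    rw [mul_comm ((m : ℝ) / N)]
    refine mul_le_mul hL ?_ dist_nonneg hL0.le
    rw [dist_pi_le_iff hb]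
    intro j
    unfold PSys.hN
    rw [Real.dist_eq, ← sub_div, abs_div, abs_of_pos hNr]
    refine div_le_div_of_nonneg_right ?_ hNr.le
    have h2 := (X u).sim_ht n p p' hs j
    rw [hm]
    exact_mod_cast h2
  · rw [if_neg h, if_neg (fun h' => h ((E.rel_iff hs hr).2 h')), sub_zero, abs_zero]
    exact hb

open Classical in
/-- **one root, fixed environment** -/
theorem one {δ δ' K' : ℝ} {K : ℝ} {u : Fin 4} (hθ : LipschitzWith Λ θ) (hθb : ∀ x, |θ x| ≤ Λ)
    (hsup : ∀ h, θ h ≠ 0 → (∀ v, |h v| ≤ K) ∧ δ ≤ h 1 - h 0 ∧ δ ≤ h 3 - h 2) (hN : 0 < N) (hδ : δ' ≤ δ)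
    (hK : 2 * K ≤ K') (hL : Λ ≤ L)
    (hL0 : 0 < L) {χ : S.P → ℝ} (hχt : ∀ z p, χ (S.tr z p) = χ p) {a c1 : ℝ}
    (hq : ∀ p, 1 ≤ S.Qf p u) (hc1 : 0 ≤ c1) (hχ : ∀ p, |χ p - a| ≤ c1 * S.Qf p u) {V Ec E1 τ ρ η : ℝ}
    (hs : Summable fun p => (X u).wt δ' K' N p * m3 (S.Qf p u))
    (hV : ∑' p, (X u).wt δ' K' N p * m3 (S.Qf p u) ≤ V)
    (hcap : (X u).rsum δ' K' N (fun p => if ρ * N ≤ (X u).cd (Side.th N) p then 1 else 0) ≤ Ec)
    (hLR : ∀ ψ : S.P → ℝ, (∀ p, |ψ p| ≤ 1) → (∀ p p', (X u).Sim (Side.th N) p p' → ψ p = ψ p') →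
      |(X u).rsum δ' K' N fun p => ψ p * (χ p - a)| ≤ E1) (hτ : 0 < τ) (hρ : 0 ≤ ρ) (hη : ρ * N + 2 ≤ η * N)
    (e : Z2) (ω : Ω) :
    |∑' p, if (X u).rt p = 0 then (if E.G ω (S.tr e p) then S.M (S.tr e p) *
      ((χ (S.tr e p) - a) * θ (S.hN N (S.tr e p))) else 0) else 0| ≤
    L * (E1 + 2 * c1 * (τ ^ 2 * Ec + V / τ) +
      (2 * (if E.Nr (η * N) e ω then 1 else 0) + ρ) * c1 * V) := by
  have hNr : (0 : ℝ) < N := by exact_mod_cast hN
  set ψ : S.P → ℝ := fun p => E.ps θ N L ω (S.tr e p) with hψ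
  obtain ⟨f, hf1, hf2, hf3⟩ := (X u).exists_rep (Side.th (N : ℝ))
  set ν : ℝ := if E.Nr (η * N) e ω then 1 else 0 with hν
  have hν0 : 0 ≤ ν := by rw [hν]; split_ifs <;> norm_num
  have hm0 : ∀ p, 0 ≤ m3 (S.Qf p u) := fun p => zero_le_one.trans (m3_one (hq p))
  have hV0 : 0 ≤ V := (tsum_nonneg fun p => mul_nonneg ((X u).wt_nn _ _ _ p) (hm0 p)).trans hV
  -- the sum with the weight of the window
  have e1 : (∑' p, if (X u).rt p = 0 then (if E.G ω (S.tr e p) then S.M (S.tr e p) *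
      ((χ (S.tr e p) - a) * θ (S.hN N (S.tr e p))) else 0) else 0) =
      L * ∑' p, (X u).wt δ' K' N p * (ψ p * (χ p - a)) := by
    rw [← tsum_mul_left]
    refine tsum_congr fun p => ?_
    rw [hψ]
    simp only [ps, S.tr_M, hχt]
    by_cases h1 : (X u).rt p = 0
    · rw [if_pos h1]
      by_cases h2 : E.G ω (S.tr e p)
      · rw [if_pos h2, if_pos h2]
        set t : ℝ := θ (S.hN N (S.tr e p)) with ht
        by_cases h3 : t = 0
        · rw [h3]; simp
        · have h4 := hsup _ h3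
          have h5 := h4.1
          have h6 := h4.2
          have hz := S.tr_ht e p
          have hwin : (X u).win δ' K' N p := by
            refine ⟨h1, ?_⟩
            rw [← wd_tr u e p]
            unfold PSys.hN at h5 h6
            have a0 := abs_le.1 (h5 0)
            have a1 := abs_le.1 (h5 1)
            have a2 := abs_le.1 (h5 2)
            have a3 := abs_le.1 (h5 3)
            rw [← sub_div, ← sub_div, le_div_iff₀ hNr, le_div_iff₀ hNr] at h6
            rw [le_div_iff₀ hNr, div_le_iff₀ hNr] at a0 a1 a2 a3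
            have b1 : δ' * N ≤ δ * N := mul_le_mul_of_nonneg_right hδ hNr.le
            have b2 : 2 * K * N ≤ K' * N := mul_le_mul_of_nonneg_right hK hNr.le
            unfold wd
            split_ifs
            · push_cast
              exact ⟨by linarith, by linarith⟩
            · push_cast
              exact ⟨by linarith, by linarith⟩
          have hw : (X u).wt δ' K' N p = S.M p := by
            unfold Side.wt
            rw [if_pos hwin]
          rw [hw]
          field_simp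
      · rw [if_neg h2, if_neg h2]
        simp
    · rw [if_neg h1]
      have hw : (X u).wt δ' K' N p = 0 := by
        unfold Side.wt
        rw [if_neg fun h => h1 h.1]
      rw [hw]
      simp
  rw [e1, abs_mul, abs_of_pos hL0]
  refine mul_le_mul_of_nonneg_left ?_ hL0.le
  -- the comparison
  have hcore := core (w := (X u).wt δ' K' N) (Q := fun p => S.Qf p u) ((X u).wt_nn δ' K' N) hs hq (χ := χ)
    (ψ := ψ) (ψ' := fun p => ψ (f p)) (cap := fun p => if ρ * N ≤ (X u).cd (Side.th N) p then 1 else 0) (a := a)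
    (c1 := c1) (τ := τ) (ν := ν) (d := ρ) hc1 hτ hχ (fun p => E.ps_le hθb hL hL0 _ _)
    (fun p => E.ps_le hθb hL hL0 _ _) (fun p => by split_ifs <;> norm_num) hν0 hρ ?_
  · have g1 := hLR (fun p => ψ (f p)) (fun p => E.ps_le hθb hL hL0 _ _) (fun p p' h => by rw [hf2 p p' h])
    rw [Side.rsum_wt] at g1 hcap
    have g2 : 2 * c1 * (τ ^ 2 * (∑' p, (X u).wt δ' K' N p * (if ρ * N ≤ (X u).cd (Side.th N) p then 1 else 0)) +
        (∑' p, (X u).wt δ' K' N p * m3 (S.Qf p u)) / τ) ≤ 2 * c1 * (τ ^ 2 * Ec + V / τ) := by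
      gcongr
    have g3 : (2 * ν + ρ) * c1 * (∑' p, (X u).wt δ' K' N p * m3 (S.Qf p u)) ≤
        (2 * ν + ρ) * c1 * V := by
      gcongr
    linarith
  · intro p hp
    have hwin := (X u).wt_ne hp
    have hrt : (X u).rt p = 0 := hwin.1
    have triv : |ψ p - ψ (f p)| ≤ 2 := by
      have t1 := E.ps_le (N := N) hθb hL hL0 ω (S.tr e p)
      have t2 := E.ps_le (N := N) hθb hL hL0 ω (S.tr e (f p))
      have t3 := abs_sub (E.ps θ N L ω (S.tr e p)) (E.ps θ N L ω (S.tr e (f p)))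
      exact t3.trans (by linarith)
    by_cases hc : ρ * N ≤ (X u).cd (Side.th N) p
    · rw [if_pos hc]
      linarith
    · rw [if_neg hc]
      by_cases hnr : E.Nr (η * N) e ω
      · have : ν = 1 := by rw [hν, if_pos hnr]
        rw [this]
        linarith
      · have hmx : max ((X u).cd (Side.th N) p) ((X u).cd (Side.th N) (f p)) = (X u).cd (Side.th N) p :=
          max_eq_left (hf3 p)
        have hmz : max (((X u).cd (Side.th N) p : ℕ) : ℤ) (((X u).cd (Side.th N) (f p) : ℕ) : ℤ) =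
            (((X u).cd (Side.th N) p : ℕ) : ℤ) := by
          rw [← Nat.cast_max, hmx]
        have hd := E.ps_dif (ω := ω) hθ hL hL0 hN ((X u).sim_tr (Side.th N) e p (f p) (hf1 p)) (by
          intro hk
          apply hnr
          rw [(X u).cd_tr, (X u).cd_tr, hmz, (X u).rt_tr, hrt, zero_add] at hk
          obtain ⟨s, hs1, hs2, hs3⟩ := hk
          refine ⟨s, hs1, ?_, ?_⟩
          · have : |(s.1 : ℝ) - e.1| ≤ (X u).cd (Side.th N) p + 2 := by exact_mod_cast hs2
            linarith [not_le.1 hc]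
          · have : |(s.2 : ℝ) - e.2| ≤ (X u).cd (Side.th N) p + 2 := by exact_mod_cast hs3
            linarith [not_le.1 hc])
        rw [(X u).cd_tr, (X u).cd_tr, hmx] at hd
        have h5 : ((X u).cd (Side.th N) p : ℝ) / N ≤ ρ := by
          rw [div_le_iff₀ hNr]
          linarith [not_le.1 hc]
        have h6 : |ψ p - ψ (f p)| ≤ ρ := hd.trans h5
        linarith

end XEnv

end Pool.Agent.ROT.U
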