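import Pool.Agent.ROT.UA2b

/-!
# ROT, UNIV, row LRW (helper10): the theorem

**`lrw`** : (LR3) for one tracer in an external environment, uniformly in the environment: only the total mass and the
mass of the environments near a point enter.
-/

set_option autoImplicit false

open Finset Filter Topology

namespace Pool.Agent.ROT.U

open Pool.Agent.ROT.A PSys

variable {S : PSys}

namespace XEnv

variable {X : ∀ u, S.Side u} {Ω : Type} (E : XEnv S X Ω)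

variable {θ : (Fin 4 → ℝ) → ℝ} {L : ℝ} {Λ : NNReal}

open Classical in
/-- the sum over the tracer -/
noncomputable def tsm (K N : ℕ) (χ : S.P → ℝ) (a : ℝ) (θ : (Fin 4 → ℝ) → ℝ) (ω : Ω) : ℝ :=
  ∑ p ∈ S.box (K * N), if E.G ω p then S.M p * ((χ p - a) * θ (S.hN N p)) else 0

open Classical in
/-- **the sum over the environments**, one size `N` -/
theorem sum {δ δ' K' : ℝ} {K N : ℕ} {u : Fin 4} (hθ : LipschitzWith Λ θ) (hθb : ∀ x, |θ x| ≤ Λ)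
    (hsup : ∀ h, θ h ≠ 0 → (∀ v, |h v| ≤ K) ∧ δ ≤ h 1 - h 0 ∧ δ ≤ h 3 - h 2) (hN : 0 < N) (hδ : δ' ≤ δ)
    (hK : 2 * (K : ℝ) ≤ K') (hL : Λ ≤ L)
    (hL0 : 0 < L) {χ : S.P → ℝ} (hχt : ∀ z p, χ (S.tr z p) = χ p) {a c1 : ℝ}
    (hq : ∀ p, 1 ≤ S.Qf p u) (hc1 : 0 ≤ c1) (hχ : ∀ p, |χ p - a| ≤ c1 * S.Qf p u) {V Ec E1 τ ρ η : ℝ}
    (hs : Summable fun p => (X u).wt δ' K' N p * m3 (S.Qf p u))
    (hV : ∑' p, (X u).wt δ' K' N p * m3 (S.Qf p u) ≤ V)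
    (hcap : (X u).rsum δ' K' N (fun p => if ρ * N ≤ (X u).cd (Side.th N) p then 1 else 0) ≤ Ec)
    (hLR : ∀ ψ : S.P → ℝ, (∀ p, |ψ p| ≤ 1) → (∀ p p', (X u).Sim (Side.th N) p p' → ψ p = ψ p') →
      |(X u).rsum δ' K' N fun p => ψ p * (χ p - a)| ≤ E1) (hτ : 0 < τ) (hρ : 0 ≤ ρ) (hη : ρ * N + 2 ≤ η * N)
    {W : Ω → ℝ} (hW : ∀ ω, 0 ≤ W ω) (hWs : Summable W) {B εn : ℝ} (hB : ∑' ω, W ω ≤ B)
    (hnr : ∀ e : Z2, ∑' ω, W ω * (if E.Nr (η * N) e ω then 1 else 0) ≤ εn) (hE1 : 0 ≤ E1) (hEc : 0 ≤ Ec) :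
    |∑' ω, W ω * E.tsm K N χ a θ ω| ≤
      L * ((2 * ((K * N : ℕ) : ℝ) + 1) ^ 2 * ((E1 + 2 * c1 * (τ ^ 2 * Ec + V / τ) + ρ * c1 * V) * B +
        2 * c1 * V * εn)) := by
  have hNr : (0 : ℝ) < N := by exact_mod_cast hN
  set n : ℕ := K * N with hn
  have hnR : (n : ℝ) = K * N := by rw [hn]; push_cast; ring
  have hm0 : ∀ p, 0 ≤ m3 (S.Qf p u) := fun p => zero_le_one.trans (m3_one (hq p))
  have hV0 : 0 ≤ V := (tsum_nonneg fun p => mul_nonneg ((X u).wt_nn _ _ _ p) (hm0 p)).trans hV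
  set Gr : Ω → S.P → ℝ := fun ω p =>
    if E.G ω p then S.M p * ((χ p - a) * θ (S.hN N p)) else 0 with hG
  have hbox : ∀ ω p, Gr ω p ≠ 0 → p ∈ S.box n := by
    intro ω p h
    have h1 := (hsup (S.hN N p) fun h0 => h (by rw [hG]; simp only [h0, mul_zero, ite_self])).1
    rw [S.mem_box]
    intro v
    have h2 := h1 v
    unfold PSys.hN at h2
    rw [abs_div, abs_of_pos hNr, div_le_iff₀ hNr, ← hnR] at h2
    exact_mod_cast h2
  set c2 : ℝ := E1 + 2 * c1 * (τ ^ 2 * Ec + V / τ) + ρ * c1 * V with hc2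
  set c3 : ℝ := 2 * c1 * V with hc3
  have hc20 : 0 ≤ c2 := by positivity
  have hc30 : 0 ≤ c3 := by positivity
  -- one environment
  have h1 : ∀ ω : Ω, |E.tsm K N χ a θ ω| ≤
      ∑ e ∈ Eb n, L * (c2 + c3 * (if E.Nr (η * N) e ω then 1 else 0)) := by
    intro ω
    have e0 : E.tsm K N χ a θ ω = ∑ p ∈ S.box n, Gr ω p := rfl
    rw [e0, (X u).root_sum n (Gr ω) (hbox ω)]
    refine (Finset.abs_sum_le_sum_abs _ _).trans (Finset.sum_le_sum fun e _ => ?_)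
    have h2 := E.one hθ hθb hsup hN hδ hK hL hL0 hχt hq hc1 hχ hs hV hcap hLR hτ hρ hη e ω
    refine h2.trans (le_of_eq ?_)
    rw [hc2, hc3]
    ring
  have hnn : ∀ e : Z2, Summable fun ω => W ω * (if E.Nr (η * N) e ω then (1 : ℝ) else 0) := fun e =>
    Summable.of_nonneg_of_le (fun ω => mul_nonneg (hW ω) (by split_ifs <;> norm_num))
      (fun ω => mul_le_of_le_one_right (hW ω) (by split_ifs <;> norm_num)) hWs
  have hs1 : HasSum (fun ω => ∑ e ∈ Eb n, L * (c2 * W ω + c3 * (W ω * (if E.Nr (η * N) e ω then 1 else 0))))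
      (∑ e ∈ Eb n, L * (c2 * ∑' ω, W ω + c3 * ∑' ω, W ω * (if E.Nr (η * N) e ω then 1 else 0))) :=
    hasSum_sum fun e _ => ((hWs.hasSum.mul_left c2).add ((hnn e).hasSum.mul_left c3)).mul_left L
  have h2 := tsum_of_norm_bounded (f := fun ω => W ω * E.tsm K N χ a θ ω) hs1 fun ω => by
    rw [Real.norm_eq_abs, abs_mul, abs_of_nonneg (hW ω)]
    refine (mul_le_mul_of_nonneg_left (h1 ω) (hW ω)).trans (le_of_eq ?_)
    rw [Finset.mul_sum]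
    exact Finset.sum_congr rfl fun e _ => by ring
  rw [Real.norm_eq_abs] at h2
  refine h2.trans ?_
  have h4 : ∀ e ∈ Eb n, L * (c2 * ∑' ω, W ω + c3 * ∑' ω, W ω * (if E.Nr (η * N) e ω then 1 else 0)) ≤
      L * (c2 * B + c3 * εn) := by
    intro e _
    exact mul_le_mul_of_nonneg_left (add_le_add (mul_le_mul_of_nonneg_left hB hc20)
      (mul_le_mul_of_nonneg_left (hnr e) hc30)) hL0.le
  refine (Finset.sum_le_sum h4).trans (le_of_eq ?_)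
  rw [Finset.sum_const, nsmul_eq_mul, card_Eb]
  ring

end XEnv

/-- the algebra of the last step -/
theorem alg_last {L G x e1 c1 t ec V r B en : ℝ} (hx : 0 < x) (hL : 0 ≤ L) {K : ℝ} (hG : G ≤ 9 * (K + 1) ^ 2 * x)
    (h0 : 0 ≤ (e1 + 2 * c1 * (t ^ 2 * ec + V / t) + r * c1 * V) * B + 2 * c1 * V * en) :
    L * (G * ((e1 / x + 2 * c1 * (t ^ 2 * (ec / x) + V / x / t) + r * c1 * (V / x)) * B + 2 * c1 * (V / x) * en)) ≤
      L * (9 * (K + 1) ^ 2) * ((e1 + 2 * c1 * (t ^ 2 * ec + V / t) + r * c1 * V) * B + 2 * c1 * V * en) := by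
  have e : (e1 / x + 2 * c1 * (t ^ 2 * (ec / x) + V / x / t) + r * c1 * (V / x)) * B + 2 * c1 * (V / x) * en =
      ((e1 + 2 * c1 * (t ^ 2 * ec + V / t) + r * c1 * V) * B + 2 * c1 * V * en) / x := by
    ring
  rw [e]
  set X0 := (e1 + 2 * c1 * (t ^ 2 * ec + V / t) + r * c1 * V) * B + 2 * c1 * V * en
  have h1 : 0 ≤ X0 / x := div_nonneg h0 hx.le
  have h2 := mul_le_mul_of_nonneg_right hG h1
  have h3 := mul_le_mul_of_nonneg_left h2 hL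
  refine h3.trans (le_of_eq ?_)
  field_simp

theorem pos_last {e1 c1 t ec V r B en : ℝ} (h1 : 0 < e1) (h2 : 0 < c1) (h3 : 0 < t) (h4 : 0 < ec) (h5 : 0 < V)
    (h6 : 0 < r) (h7 : 0 < B) (h8 : 0 < en) :
    0 ≤ (e1 + 2 * c1 * (t ^ 2 * ec + V / t) + r * c1 * V) * B + 2 * c1 * V * en := by positivity

/-- the algebra of the parameters -/
theorem alg_par {G c1 V B e t ec e1 en r : ℝ} (hG : 0 < G) (hc : 0 < c1) (hV : 0 < V) (hB : 0 < B) (he : 0 < e)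
    (ht : t = 12 * c1 * V * G * B / e) (hec : ec = e / (12 * c1 * t ^ 2 * G * B)) (he1 : e1 = e / (6 * G * B))
    (hen : en = e / (12 * c1 * V * G)) (hr : r ≤ e / (6 * c1 * V * G * B)) :
    G * ((e1 + 2 * c1 * (t ^ 2 * ec + V / t) + r * c1 * V) * B + 2 * c1 * V * en) ≤ e := by
  have ht0 : 0 < t := by rw [ht]; positivity
  have z1 : G * (e1 * B) = e / 6 := by
    rw [he1]
    field_simp
  have z2 : G * (2 * c1 * (t ^ 2 * ec) * B) = e / 6 := by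
    rw [hec]
    field_simp
    norm_num
  have z3 : G * (2 * c1 * (V / t) * B) = e / 6 := by
    rw [ht]
    field_simp
    norm_num
  have z4 : G * (r * c1 * V * B) ≤ e / 6 := by
    calc G * (r * c1 * V * B) = r * (G * c1 * V * B) := by ring
      _ ≤ e / (6 * c1 * V * G * B) * (G * c1 * V * B) := mul_le_mul_of_nonneg_right hr (by positivity)
      _ = e / 6 := by
        field_simp
  have z5 : G * (2 * c1 * V * en) = e / 6 := by
    rw [hen]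
    field_simp
    norm_num
  have z6 : G * ((e1 + 2 * c1 * (t ^ 2 * ec + V / t) + r * c1 * V) * B + 2 * c1 * V * en) =
      G * (e1 * B) + G * (2 * c1 * (t ^ 2 * ec) * B) + G * (2 * c1 * (V / t) * B) + G * (r * c1 * V * B) +
        G * (2 * c1 * V * en) := by ring
  rw [z6, z1, z2, z3, z5]
  linarith

/-- **from one tracer to all environments** -/
theorem ext_ev {X : ∀ u, S.Side u} {u : Fin 4} (hcapX : (X u).CAP) (hui : UI3 (X u))
    (hq : ∀ p, 1 ≤ S.Qf p u) {χ : S.P → ℝ} (hχt : ∀ z p, χ (S.tr z p) = χ p)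
    {a : ℝ → ℝ} {c1 : ℝ} (hc1 : 0 < c1) (hχ : ∀ N p, |χ p - a N| ≤ c1 * S.Qf p u) {r0 s0 : ℝ} (hr0 : 0 < r0)
    (hlr : ∀ δ K : ℝ, 0 < δ → δ ≤ r0 → s0 ≤ K → (X u).LR δ K χ a) (K : ℕ) {δ : ℝ} (hδ : 0 < δ) (B : ℝ)
    (Λ : NNReal) {ε : ℝ} (hε : 0 < ε) :
    ∃ εn : ℝ, 0 < εn ∧ ∀ η : ℝ, 0 < η → ∃ N0 : ℕ, ∀ N : ℕ, N0 ≤ N → ∀ (Ω : Type) (E : XEnv S X Ω) (W : Ω → ℝ),
      (∀ ω, 0 ≤ W ω) → Summable W → ∑' ω, W ω ≤ B →
      (∀ e : Z2, ∑' ω, W ω * (open Classical in if E.Nr (η * N) e ω then 1 else 0) ≤ εn) →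
      ∀ θ : (Fin 4 → ℝ) → ℝ, LipschitzWith Λ θ → (∀ x, |θ x| ≤ Λ) →
      (∀ h, θ h ≠ 0 → (∀ v, |h v| ≤ K) ∧ δ ≤ h 1 - h 0 ∧ δ ≤ h 3 - h 2) →
      |∑' ω, W ω * E.tsm K N χ (a N) θ ω| ≤ ε := by
  classical
  set L : ℝ := Λ + 1 with hLd
  have hL : (Λ : ℝ) ≤ L := by rw [hLd]; linarith
  have hL0 : 0 < L := by have := Λ.2; rw [hLd]; positivity
  set δ' : ℝ := min δ r0 with hδ'
  have hδ'0 : 0 < δ' := lt_min hδ hr0
  set K' : ℝ := max (max (2 * K) s0) (δ' + 1) with hK'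
  have hK1 : 2 * (K : ℝ) ≤ K' := (le_max_left _ _).trans (le_max_left _ _)
  have hK2 : s0 ≤ K' := (le_max_right _ _).trans (le_max_left _ _)
  have hK3 : δ' < K' := lt_of_lt_of_le (by linarith) (le_max_right _ _)
  obtain ⟨C1, N1, h1⟩ := hui δ' K' hδ'0 hK3
  set V0 : ℝ := |C1| + 1 with hV0
  have hV0p : 0 < V0 := by positivity
  set B1 : ℝ := |B| + 1 with hB1d
  have hBp : 0 < B1 := by positivity
  have hBB : B ≤ B1 := by rw [hB1d]; linarith [le_abs_self B]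
  set Γ : ℝ := L * (9 * (K + 1) ^ 2) with hΓ
  have hΓ0 : 0 < Γ := by positivity
  -- the parameters
  obtain ⟨τ, hτ⟩ : ∃ τ : ℝ, τ = 12 * c1 * V0 * Γ * B1 / ε := ⟨_, rfl⟩
  have hτ0 : 0 < τ := by rw [hτ]; positivity
  obtain ⟨εc, hεc⟩ : ∃ εc : ℝ, εc = ε / (12 * c1 * τ ^ 2 * Γ * B1) := ⟨_, rfl⟩
  have hεc0 : 0 < εc := by rw [hεc]; positivity
  obtain ⟨ε1, hε1⟩ : ∃ ε1 : ℝ, ε1 = ε / (6 * Γ * B1) := ⟨_, rfl⟩
  have hε10 : 0 < ε1 := by rw [hε1]; positivity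
  obtain ⟨εn, hεn⟩ : ∃ εn : ℝ, εn = ε / (12 * c1 * V0 * Γ) := ⟨_, rfl⟩
  have hεn0 : 0 < εn := by rw [hεn]; positivity
  refine ⟨εn, hεn0, fun η hη0 => ?_⟩
  obtain ⟨ρ, hρ⟩ : ∃ ρ : ℝ, ρ = min (η / 2) (ε / (6 * c1 * V0 * Γ * B1)) := ⟨_, rfl⟩
  have hρ0 : 0 < ρ := by rw [hρ]; exact lt_min (by positivity) (by positivity)
  have hρ1 : ρ ≤ η / 2 := hρ ▸ min_le_left _ _
  have hρ2 : ρ ≤ ε / (6 * c1 * V0 * Γ * B1) := hρ ▸ min_le_right _ _
  obtain ⟨N3, h3⟩ := hlr δ' K' hδ'0 (min_le_right _ _) hK2 ε1 hε10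
  obtain ⟨N4, h4⟩ := hcapX δ' K' ρ εc hδ'0 hK3 hρ0 hεc0
  refine ⟨max (max ⌈N1⌉₊ (max ⌈N3⌉₊ ⌈N4⌉₊)) (max ⌈4 / η⌉₊ 1), fun N hN Ω E W hW hWs hWB hnr θ hθ hθb hsup => ?_⟩
  have k1 : N1 ≤ N := (Nat.le_ceil _).trans (by
    exact_mod_cast (le_max_left _ _).trans ((le_max_left _ _).trans hN))
  have k3 : N3 ≤ N := (Nat.le_ceil _).trans (by
    exact_mod_cast (le_max_left _ _).trans ((le_max_right _ _).trans ((le_max_left _ _).trans hN)))
  have k4 : N4 ≤ N := (Nat.le_ceil _).trans (by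
    exact_mod_cast (le_max_right _ _).trans ((le_max_right _ _).trans ((le_max_left _ _).trans hN)))
  have k6 : 4 / η ≤ N := (Nat.le_ceil _).trans (by
    exact_mod_cast (le_max_left _ _).trans ((le_max_right _ _).trans hN))
  have k7 : 1 ≤ N := (le_max_right _ _).trans ((le_max_right _ _).trans hN)
  have hN0 : 0 < N := k7
  have hNr : (0 : ℝ) < N := by exact_mod_cast hN0
  have hNr1 : (1 : ℝ) ≤ N := by exact_mod_cast k7
  have hNN : (0 : ℝ) < (N : ℝ) ^ 2 := by positivity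
  have g1 := h1 N k1
  have hsm := ui_wt (X u) g1.1
  have hV : ∑' p, (X u).wt δ' K' N p * m3 (S.Qf p u) ≤ V0 / N ^ 2 := by
    have h := g1.2
    rw [Side.rsum_wt] at h
    refine h.trans (div_le_div_of_nonneg_right ?_ hNN.le)
    linarith [le_abs_self C1]
  have hn3 : (2 * ((K * N : ℕ) : ℝ) + 1) ^ 2 ≤ 9 * (K + 1) ^ 2 * N ^ 2 := by
    push_cast
    have hK0 : (0 : ℝ) ≤ K := Nat.cast_nonneg K
    have : 2 * ((K : ℝ) * N) + 1 ≤ 3 * (K + 1) * N := by nlinarith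
    have h0 : 0 ≤ 2 * ((K : ℝ) * N) + 1 := by positivity
    calc (2 * ((K : ℝ) * N) + 1) ^ 2 ≤ (3 * (K + 1) * N) ^ 2 := pow_le_pow_left₀ h0 this 2
      _ = _ := by ring
  have hηρ : ρ * N + 2 ≤ η * N := by
    have : 4 ≤ η * N := by
      rw [div_le_iff₀ hη0] at k6
      linarith
    nlinarith
  have hfam := E.sum (K := K) (N := N) (δ := δ) (δ' := δ') (K' := K') hθ hθb hsup hN0
    (min_le_left _ _) hK1 hL hL0 hχt hq hc1.le (hχ N) hsm hV (h4 N k4) (h3 N k3) hτ0 hρ0.le hηρ hW hWs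
    (hWB.trans hBB) hnr (by positivity) (by positivity)
  have h00 := pos_last hε10 hc1 hτ0 hεc0 hV0p hρ0 hBp hεn0
  have hz := alg_last (e1 := ε1) (c1 := c1) (t := τ) (ec := εc) (V := V0) (r := ρ) (B := B1) (en := εn) hNN hL0.le
    hn3 h00
  have hy := alg_par (G := Γ) hΓ0 hc1 hV0p hBp hε hτ hεc hε1 hεn hρ2
  rw [hΓ] at hy
  exact hfam.trans (hz.trans hy)

/-- **(LRW)**: (LR3) for one tracer in an external environment; the constants `a N` (for `Qf`) and `b N` (for `Cf`) are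
the same for the four sides and depend on nothing else -/
theorem lrw {X : ∀ u, S.Side u} (h : Inp S X) : ∃ (A : ℝ) (a b : ℕ → ℝ),
    (∀ N, 1 ≤ a N ∧ a N ≤ A ∧ 0 ≤ b N ∧ b N ≤ 1) ∧
    ∀ (K : ℕ) (δ B : ℝ) (Λ : NNReal) (ε : ℝ), 0 < δ → 0 < ε →
    ∃ εn : ℝ, 0 < εn ∧ ∀ η : ℝ, 0 < η → ∃ N0 : ℕ, ∀ N : ℕ, N0 ≤ N → ∀ (Ω : Type) (E : XEnv S X Ω) (W : Ω → ℝ),
      (∀ ω, 0 ≤ W ω) → Summable W → ∑' ω, W ω ≤ B →
      (∀ e : Z2, ∑' ω, W ω * (open Classical in if E.Nr (η * N) e ω then 1 else 0) ≤ εn) →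
      ∀ θ : (Fin 4 → ℝ) → ℝ, LipschitzWith Λ θ → (∀ x, |θ x| ≤ Λ) →
      (∀ h, θ h ≠ 0 → (∀ v, |h v| ≤ K) ∧ δ ≤ h 1 - h 0 ∧ δ ≤ h 3 - h 2) → ∀ u : Fin 4,
      |∑' ω, W ω * E.tsm K N (fun p => S.Qf p u) (a N) θ ω| ≤ ε ∧
      |∑' ω, W ω * E.tsm K N (fun p => S.Cf p u) (b N) θ ω| ≤ ε := by
  obtain ⟨A, r0, s0, a, b, hr0, _, hab, hlr⟩ := consts h
  refine ⟨A, fun N => a N, fun N => b N, fun N => hab N, ?_⟩
  intro K δ B Λ ε hδ hε
  have hA1 : 1 ≤ A := (hab 0).1.trans (hab 0).2.1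
  have HQ : ∀ u : Fin 4, _ := fun u => ext_ev (X := X) (h.cap u) (h.ui u) (fun p => h.Q_ge p u)
    (χ := fun p => S.Qf p u) (fun z p => (X u).Q_tr z p) (a := a) (c1 := 1 + A) (by positivity) (fun N p => by
      have hQ := h.Q_ge p u
      have h1 : A ≤ A * S.Qf p u := le_mul_of_one_le_right (by linarith) hQ
      have h2 := hab N
      rw [abs_le]
      constructor
      · linarith [h2.2.1]
      · linarith [h2.1]) hr0
    (fun δ K h1 h2 h3 => (hlr u δ K h1 h2 h3).1) K hδ B Λ hε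
  have HC : ∀ u : Fin 4, _ := fun u => ext_ev (X := X) (h.cap u) (h.ui u) (fun p => h.Q_ge p u)
    (χ := fun p => S.Cf p u) (fun z p => (X u).C_tr z p) (a := b) (c1 := 1 + A) (by positivity) (fun N p => by
      have hQ := h.Q_ge p u
      have h1 : A ≤ A * S.Qf p u := le_mul_of_one_le_right (by linarith) hQ
      have h2 := hab N
      have h3 := h.C_le p u
      have h4 := S.C_nn p u
      rw [abs_le]
      constructor
      · linarith [h2.2.2.2]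
      · linarith [h2.2.2.1]) hr0
    (fun δ K h1 h2 h3 => (hlr u δ K h1 h2 h3).2) K hδ B Λ hε
  choose eQ hQ0 hQ using HQ
  choose eC hC0 hC using HC
  obtain ⟨e0, he0, hle⟩ : ∃ e0 : ℝ, 0 < e0 ∧ ∀ u, e0 ≤ eQ u ∧ e0 ≤ eC u := by
    refine ⟨Finset.univ.inf' Finset.univ_nonempty fun u => min (eQ u) (eC u), ?_, fun u => ?_⟩
    · rw [Finset.lt_inf'_iff]
      exact fun u _ => lt_min (hQ0 u) (hC0 u)
    · have := Finset.inf'_le (fun u => min (eQ u) (eC u)) (Finset.mem_univ u)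
      exact ⟨this.trans (min_le_left _ _), this.trans (min_le_right _ _)⟩
  refine ⟨e0, he0, fun η hη => ?_⟩
  choose nQ hnQ using fun u => hQ u η hη
  choose nC hnC using fun u => hC u η hη
  refine ⟨Finset.univ.sup fun u => max (nQ u) (nC u), fun N hN Ω E W hW hWs hWB hnr θ hθ hθb hsup u => ?_⟩
  have hu : max (nQ u) (nC u) ≤ N := (Finset.le_sup (f := fun u => max (nQ u) (nC u)) (Finset.mem_univ u)).trans hN
  exact ⟨hnQ u N ((le_max_left _ _).trans hu) Ω E W hW hWs hWB (fun e => (hnr e).trans (hle u).1) θ hθ hθb hsup,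
    hnC u N ((le_max_right _ _).trans hu) Ω E W hW hWs hWB (fun e => (hnr e).trans (hle u).2) θ hθ hθb hsup⟩

end Pool.Agent.ROT.U
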