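import Pool.Agent.ROT.UNearDefs
import Pool.Agent.ROT.INear
import Pool.Agent.ROT.EKer

/-!
# ROT, UNIV, row N1: the measure, its symmetries, the near bound of the honeycomb (helper98)
-/

set_option autoImplicit false

namespace Pool.Agent.ROT.U

open MeasureTheory Filter Topology
open Pool.Agent.ROT.E (Cfg Lp An)
open Pool.Agent.ROT.I (Lps mu)
open Pool.Agent.UNI (wR)
open Pool.Agent.YBC (Dir)
open scoped ENNReal

noncomputable section

/-! ### the measure -/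

theorem muU_ap (u : ℤ → ℝ) (S : Set Lps) : muU u S = ∑' γ : Lps, ENNReal.ofReal (MU u γ.1) * S.indicator 1 γ := by
  have hS : MeasurableSet S := trivial
  unfold muU
  rw [Measure.sum_apply _ hS]
  refine tsum_congr fun γ => ?_
  rw [Measure.smul_apply, Measure.dirac_apply' _ hS, smul_eq_mul]

theorem muU_hc : muU hc = mu := rfl

theorem MU_nn {u : ℤ → ℝ} (hu : An u) (γ : Cfg) : 0 ≤ MU u γ := by
  refine Finset.prod_nonneg fun v _ => ?_
  have h := hu.nn v.1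
  have key : ∀ (w : Pool.Agent.EXL.Wt ℝ), w.Nn → ∀ c : E.Cell, 0 ≤ c.wt w := by
    intro w hw c
    cases c
    · exact zero_le_one
    · exact hw.v
    · exact hw.v
    · exact hw.u1
    · exact hw.u1
    · exact hw.u2
    · exact hw.u2
    · exact hw.w1
    · exact hw.w2
  exact key _ h _

/-- the weight only depends on the visited columns -/
theorem MU_congrN {u u' : ℤ → ℝ} {γ : Cfg} (h : ∀ v, γ v ≠ 0 → u v.1 = u' v.1) : MU u γ = MU u' γ := by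
  unfold MU Finsupp.prod
  refine Finset.prod_congr rfl fun v hv => ?_
  have e := h v (Finsupp.mem_support_iff.1 hv)
  simp only [e]

/-- lattices which agree on the visited columns of the loops of the event -/
theorem muU_congr {u u' : ℤ → ℝ} {A : Set Lps} (h : ∀ γ ∈ A, ∀ v, γ.1 v ≠ 0 → u v.1 = u' v.1) : muU u A = muU u' A := by
  rw [muU_ap, muU_ap]
  refine tsum_congr fun γ => ?_
  by_cases hγ : γ ∈ A
  · rw [MU_congrN (h γ hγ)]
  · rw [Set.indicator_of_notMem hγ, mul_zero, mul_zero]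

/-! ### symmetries -/

/-- a symmetry acts on the loops -/
def eqL (S : E.Sy) : Lps ≃ Lps := S.eqC.subtypeEquiv fun γ => (S.lp_iff γ).symm

theorem eqL_ap (S : E.Sy) (γ : Lps) (v : ℤ × ℤ) : (eqL S γ).1 (S.e v) = S.f (γ.1 v) := S.ac_apply γ.1 v

theorem eqL_ne (S : E.Sy) (γ : Lps) (v : ℤ × ℤ) : (eqL S γ).1 (S.e v) ≠ 0 ↔ γ.1 v ≠ 0 := S.ac_app_ne γ.1 v

theorem eqL_oc (S : E.Sy) (γ : Lps) (h : E.He) : E.oc (eqL S γ).1 (S.he h) ↔ E.oc γ.1 h := S.oc_iff γ.1 h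

theorem MU_ac (S : E.Sy) {u u' : ℤ → ℝ} (h : ∀ v c, (S.f c).wt (wR (u (S.e v).1)) = c.wt (wR (u' v.1))) (γ : Cfg) :
    MU u (S.ac γ) = MU u' γ := by
  classical
  unfold MU
  rw [Finsupp.prod, Finsupp.prod]
  refine (Finset.prod_bij (fun v _ => S.e v) ?_ ?_ ?_ ?_).symm
  · intro v hv
    rw [Finsupp.mem_support_iff] at hv ⊢
    exact (S.ac_app_ne γ v).2 hv
  · intro a _ b _ hab
    exact S.e.injective hab
  · intro v hv
    obtain ⟨x, rfl⟩ := S.e.surjective v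
    rw [Finsupp.mem_support_iff] at hv
    exact ⟨x, Finsupp.mem_support_iff.2 ((S.ac_app_ne γ x).1 hv), rfl⟩
  · intro v _
    rw [S.ac_apply, h]

theorem muU_ac (S : E.Sy) {u u' : ℤ → ℝ} (h : ∀ v c, (S.f c).wt (wR (u (S.e v).1)) = c.wt (wR (u' v.1)))
    (A : Set Lps) : muU u' (eqL S ⁻¹' A) = muU u A := by
  rw [muU_ap, muU_ap, ← (eqL S).tsum_eq (fun γ : Lps => ENNReal.ofReal (MU u γ.1) * A.indicator 1 γ)]
  refine tsum_congr fun γ => ?_
  rw [show MU u (eqL S γ).1 = MU u' γ.1 from MU_ac S h γ.1]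
  rfl

/-- **translations** -/
theorem muU_tr (u : ℤ → ℝ) (a : ℤ × ℤ) (A : Set Lps) :
    muU (fun j => u (j + a.1)) (eqL (E.trS a) ⁻¹' A) = muU u A :=
  muU_ac (E.trS a) (u := u) (u' := fun j => u (j + a.1)) (fun _ _ => rfl) A

/-- **transposition** (constant angle) -/
theorem muU_tp (β : ℝ) (A : Set Lps) : muU (fun _ => β) (eqL E.tpS ⁻¹' A) = muU (fun _ => β) A :=
  muU_ac E.tpS (u := fun _ => β) (u' := fun _ => β) (fun _ c => E.tp_wt (wR β) c) A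

theorem vis_tr (a p : ℤ × ℤ) (r : ℤ) : eqL (E.trS a) ⁻¹' (Vis (p + a) r) = Vis p r := by
  ext γ
  constructor
  · rintro ⟨v, hv, h1, h2⟩
    obtain ⟨w, rfl⟩ := (E.trS a).e.surjective v
    refine ⟨w, (eqL_ne _ γ w).1 hv, ?_, ?_⟩
    · rw [E.trS_e, Prod.fst_add, Prod.fst_add, add_sub_add_right_eq_sub] at h1
      exact h1
    · rw [E.trS_e, Prod.snd_add, Prod.snd_add, add_sub_add_right_eq_sub] at h2
      exact h2
  · rintro ⟨w, hv, h1, h2⟩
    refine ⟨(E.trS a).e w, (eqL_ne _ γ w).2 hv, ?_, ?_⟩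
    · rw [E.trS_e, Prod.fst_add, Prod.fst_add, add_sub_add_right_eq_sub]
      exact h1
    · rw [E.trS_e, Prod.snd_add, Prod.snd_add, add_sub_add_right_eq_sub]
      exact h2

theorem ext_trE (a : ℤ × ℤ) (R : ℤ) : eqL (E.trS a) ⁻¹' (Ext R) = Ext R := by
  ext γ
  constructor
  · rintro ⟨v, w, hv, hw, h⟩
    obtain ⟨v, rfl⟩ := (E.trS a).e.surjective v
    obtain ⟨w, rfl⟩ := (E.trS a).e.surjective w
    refine ⟨v, w, (eqL_ne _ γ v).1 hv, (eqL_ne _ γ w).1 hw, ?_⟩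
    rw [E.trS_e, E.trS_e, Prod.fst_add, Prod.fst_add, Prod.snd_add, Prod.snd_add, add_sub_add_right_eq_sub,
      add_sub_add_right_eq_sub] at h
    exact h
  · rintro ⟨v, w, hv, hw, h⟩
    refine ⟨(E.trS a).e v, (E.trS a).e w, (eqL_ne _ γ v).2 hv, (eqL_ne _ γ w).2 hw, ?_⟩
    rw [E.trS_e, E.trS_e, Prod.fst_add, Prod.fst_add, Prod.snd_add, Prod.snd_add, add_sub_add_right_eq_sub,
      add_sub_add_right_eq_sub]
    exact h

/-! ### monotonicity -/

theorem Vis.mono {p q : ℤ × ℤ} {r s : ℤ} (h1 : |p.1 - q.1| + r ≤ s) (h2 : |p.2 - q.2| + r ≤ s) : Vis p r ⊆ Vis q s := by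
  rintro γ ⟨v, hv, a, b⟩
  refine ⟨v, hv, ?_, ?_⟩
  · have := abs_add_le (v.1 - p.1) (p.1 - q.1)
    rw [sub_add_sub_cancel] at this
    omega
  · have := abs_add_le (v.2 - p.2) (p.2 - q.2)
    rw [sub_add_sub_cancel] at this
    omega

theorem Ext.anti {R S : ℤ} (h : R ≤ S) : Ext S ⊆ Ext R := by
  rintro γ ⟨v, w, hv, hw, h1⟩
  exact ⟨v, w, hv, hw, h1.imp h.trans h.trans⟩

theorem oc_ne {γ : Cfg} {h : E.He} (ho : E.oc γ h) : γ h.1 ≠ 0 := by
  intro e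
  apply ho
  rw [e]
  rfl

/-! ### the honeycomb -/

theorem sc_norm_le (N : ℕ) (q : ℤ × ℤ) : ‖I.sc N q‖ ≤ 2 * (|(q.1 : ℝ)| / N + |(q.2 : ℝ)| / N) := by
  have e1 : ‖I.e1‖ ≤ 2 := by
    rw [Complex.norm_def, Complex.normSq_apply]
    refine Real.sqrt_le_iff.2 ⟨by norm_num, ?_⟩
    have := Real.mul_self_sqrt (show (0 : ℝ) ≤ 3 by norm_num)
    simp only [I.e1]
    nlinarith
  have e2 : ‖I.e2‖ ≤ 2 := by
    rw [Complex.norm_def, Complex.normSq_apply]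
    refine Real.sqrt_le_iff.2 ⟨by norm_num, ?_⟩
    have := Real.mul_self_sqrt (show (0 : ℝ) ≤ 3 by norm_num)
    simp only [I.e2]
    nlinarith
  unfold I.sc
  refine (norm_add_le _ _).trans ?_
  rw [norm_smul, norm_smul, Real.norm_eq_abs, Real.norm_eq_abs, abs_div, abs_div, Nat.abs_cast]
  have h1 : (0 : ℝ) ≤ |(q.1 : ℝ)| / N := by positivity
  have h2 : (0 : ℝ) ≤ |(q.2 : ℝ)| / N := by positivity
  nlinarith

theorem sc_norm_sq (N : ℕ) (q : ℤ × ℤ) :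
    ‖I.sc N q‖ ^ 2 = 3 * (((q.1 : ℝ) / N) ^ 2 + ((q.1 : ℝ) / N) * ((q.2 : ℝ) / N) + ((q.2 : ℝ) / N) ^ 2) := by
  rw [← Complex.normSq_eq_norm_sq, Complex.normSq_apply]
  unfold I.sc
  simp only [I.e1, I.e2, Complex.add_re, Complex.add_im, Complex.smul_re, Complex.smul_im, smul_eq_mul]
  have := Real.mul_self_sqrt (show (0 : ℝ) ≤ 3 by norm_num)
  linear_combination (((q.1 : ℝ) / N) ^ 2 / 4 + ((q.1 : ℝ) / N) * ((q.2 : ℝ) / N) + ((q.2 : ℝ) / N) ^ 2) * this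

theorem le_sc_norm (N : ℕ) (q : ℤ × ℤ) : |(q.1 : ℝ)| / N ≤ ‖I.sc N q‖ ∧ |(q.2 : ℝ)| / N ≤ ‖I.sc N q‖ := by
  have key := sc_norm_sq N q
  constructor
  · rw [← abs_of_nonneg (norm_nonneg (I.sc N q)), ← Nat.abs_cast N, ← abs_div]
    apply sq_le_sq.1
    rw [key]
    nlinarith [sq_nonneg ((q.1 : ℝ) / N + 2 * ((q.2 : ℝ) / N)), sq_nonneg ((q.1 : ℝ) / N)]
  · rw [← abs_of_nonneg (norm_nonneg (I.sc N q)), ← Nat.abs_cast N, ← abs_div]
    apply sq_le_sq.1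
    rw [key]
    nlinarith [sq_nonneg (2 * ((q.1 : ℝ) / N) + ((q.2 : ℝ) / N)), sq_nonneg ((q.2 : ℝ) / N)]

theorem sc_sub (N : ℕ) (a b : ℤ × ℤ) : I.sc N a - I.sc N b = I.sc N (a - b) := by
  unfold I.sc
  rw [Prod.fst_sub, Prod.snd_sub]
  push_cast
  rw [sub_div, sub_div, sub_smul, sub_smul]
  abel

/-- **the near bound of the honeycomb** -/
theorem near_h : NearM {hc} := by
  intro ε hε
  obtain ⟨η, hη, hN⟩ := I.near 1 ε one_pos hε
  rw [Filter.eventually_atTop] at hN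
  obtain ⟨N0, hN0⟩ := hN
  refine ⟨η / 4, by positivity, max N0 1, ?_⟩
  rintro u (rfl : u = hc) N hN p r hr
  have h1 : (1 : ℤ) ≤ N := (le_max_right _ _).trans hN
  obtain ⟨n, rfl⟩ := Int.eq_ofNat_of_zero_le (show (0 : ℤ) ≤ N by omega)
  have hn : N0 ≤ n := by
    have := (le_max_left (N0 : ℤ) 1).trans hN
    exact_mod_cast this
  have hn0 : (0 : ℝ) < n := by
    have : (0 : ℤ) < (n : ℤ) := by omega
    exact_mod_cast this
  refine le_trans ?_ (hN0 n hn)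
  have e1 : muU hc (Vis p r ∩ Ext n) = muU hc (Vis 0 r ∩ Ext n) := by
    have h := muU_tr hc p (Vis (0 + p) r ∩ Ext n)
    rw [Set.preimage_inter, vis_tr, ext_trE, zero_add] at h
    exact h.symm
  rw [e1, muU_hc]
  refine measure_mono ?_
  rintro γ ⟨⟨v, hv, a, b⟩, w, w', hw, hw', h⟩
  constructor
  · refine ⟨I.sc n v, ⟨v, hv, rfl⟩, (sc_norm_le n v).trans ?_⟩
    have a' : |(v.1 : ℝ)| ≤ r := by
      rw [Prod.fst_zero, sub_zero] at a
      exact_mod_cast a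
    have b' : |(v.2 : ℝ)| ≤ r := by
      rw [Prod.snd_zero, sub_zero] at b
      exact_mod_cast b
    have k1 : |(v.1 : ℝ)| / n ≤ η / 4 := by
      rw [div_le_iff₀ hn0]
      exact a'.trans (by push_cast at hr; exact hr)
    have k2 : |(v.2 : ℝ)| / n ≤ η / 4 := by
      rw [div_le_iff₀ hn0]
      exact b'.trans (by push_cast at hr; exact hr)
    linarith
  · refine ⟨I.sc n w', ⟨w', hw', rfl⟩, I.sc n w, ⟨w, hw, rfl⟩, ?_⟩
    rw [dist_eq_norm, sc_sub]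
    have h2 := le_sc_norm n (w' - w)
    rcases h with h | h
    · refine le_trans ?_ h2.1
      rw [le_div_iff₀ hn0, one_mul]
      have : ((n : ℤ) : ℝ) ≤ ((w' - w).1 : ℤ) := by exact_mod_cast h
      exact (by push_cast at this ⊢; exact this : (n : ℝ) ≤ ((w' - w).1 : ℤ)).trans (le_abs_self _)
    · refine le_trans ?_ h2.2
      rw [le_div_iff₀ hn0, one_mul]
      have : ((n : ℤ) : ℝ) ≤ ((w' - w).2 : ℤ) := by exact_mod_cast h
      exact (by push_cast at this ⊢; exact this : (n : ℝ) ≤ ((w' - w).2 : ℤ)).trans (le_abs_self _)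

end

end Pool.Agent.ROT.U
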