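import Pool.Agent.ROT.ULine6
import Pool.Agent.ROT.UNear0

/-!
# ROT, UNIV, rows L1, L2: the line theorem (helper70)

`lawL`, `lawR` : the law of the part of the loops on one side of a line does not depend on the columns on the other
side.  `monR`, `monL` : in the honeycomb the loops go further.  `line : Line`.
-/

set_option autoImplicit false

namespace Pool.Agent.ROT.U.Ls

open Pool.Agent.ROT.E
open Pool.Agent.ROT.U
open Pool.Agent.ROT.I (Lps)
open Pool.Agent.YBC (Dir)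
open Pool.Agent.UNI (wR)
open scoped ENNReal

theorem muU_EL (u : ℤ → ℝ) (A : Set Lps) : muU u A = EL u (A.indicator 1) := muU_ap u A

theorem LG_of {c : ℤ} {A : Set Lps} (h : ∀ γ γ' : Lps, (∀ v, v.1 < c → γ.1 v = γ'.1 v) → γ ∈ A → γ' ∈ A)
    (hA : A ⊆ LeC (c - 1)) : LG c (A.indicator 1) := by
  classical
  refine ⟨fun γ γ' e => ?_, fun γ h0 => ?_⟩
  · by_cases hγ : γ ∈ A
    · rw [Set.indicator_of_mem hγ, Set.indicator_of_mem (h γ γ' e hγ)]
      rfl
    · rw [Set.indicator_of_notMem hγ, Set.indicator_of_notMem fun h' => hγ (h γ' γ (fun v hv => (e v hv).symm) h')]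
  · have h1 : γ ∈ A := by
      by_contra h1
      exact h0 (Set.indicator_of_notMem h1 _)
    obtain ⟨v, hv, h2⟩ := hA h1
    exact ⟨v, by omega, hv⟩

/-- **(LR-law), left** -/
theorem lawL : LawL := by
  intro u u' hu hu' c h A hA hA'
  rw [muU_EL, muU_EL, law_left (LG_of hA hA') hu, law_left (LG_of hA hA') hu']
  have e : hr c u = hr c u' := by
    funext j
    unfold hr
    split_ifs with h1
    · rfl
    · exact h j (by omega)
  rw [e]

/-- point reflection -/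
theorem muU_pr (u : ℤ → ℝ) (A : Set Lps) : muU (fun j => u (-j)) (eqL prS ⁻¹' A) = muU u A :=
  muU_ac prS (u := u) (u' := fun j => u (-j)) (fun v c => pr_wt (wR (u (-v.1))) c) A

theorem an_neg {u : ℤ → ℝ} (hu : An u) : An fun j => u (-j) := fun j => hu (-j)

/-- **(LR-law), right** -/
theorem lawR : LawR := by
  intro u u' hu hu' c h A hA hA'
  rw [← muU_pr u A, ← muU_pr u' A]
  refine lawL _ _ (an_neg hu) (an_neg hu') (1 - c) (fun j hj => h (-j) (by omega)) _ ?_ ?_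
  · intro γ γ' e hγ
    refine hA (eqL prS γ) (eqL prS γ') (fun v hv => ?_) hγ
    obtain ⟨w, rfl⟩ := prS.e.surjective v
    have hw : w.1 < 1 - c := by
      rw [prS_e, Prod.fst_neg] at hv
      omega
    rw [eqL_ap, eqL_ap, e w hw]
  · intro γ hγ
    obtain ⟨v, hv, h1⟩ := hA' hγ
    obtain ⟨w, rfl⟩ := prS.e.surjective v
    refine ⟨w, (eqL_ne prS γ w).1 hv, ?_⟩
    rw [prS_e, Prod.fst_neg] at h1
    omega

/-! ### finiteness -/

theorem fin_box (B : Finset Pt) : {γ : Lps | ∀ v, γ.1 v ≠ 0 → v ∈ B}.Finite := by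
  classical
  have hf : Function.Injective fun (γ : {γ : Lps | ∀ v, γ.1 v ≠ 0 → v ∈ B}) (v : B) => γ.1.1 v.1 := by
    intro γ γ' h
    apply Subtype.ext
    apply Subtype.ext
    refine Finsupp.ext fun v => ?_
    by_cases hv : v ∈ B
    · exact congrFun h ⟨v, hv⟩
    · have h1 : γ.1.1 v = 0 := by
        by_contra h1
        exact hv (γ.2 v h1)
      have h2 : γ'.1.1 v = 0 := by
        by_contra h2
        exact hv (γ'.2 v h2)
      rw [h1, h2]
  exact Set.finite_coe_iff.1 (Finite.of_injective _ hf)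

theorem muU_fin (u : ℤ → ℝ) {A : Set Lps} (hA : A.Finite) : muU u A ≠ ⊤ := by
  classical
  rw [muU_ap, tsum_eq_sum (s := hA.toFinset)]
  · refine ENNReal.sum_ne_top.2 fun γ hγ => ?_
    rw [Set.indicator_of_mem (hA.mem_toFinset.1 hγ), Pi.one_apply, mul_one]
    exact ENNReal.ofReal_ne_top
  · intro γ hγ
    rw [Set.indicator_of_notMem fun h => hγ (hA.mem_toFinset.2 h), mul_zero]

/-- a vertex has finite mass in the honeycomb -/
theorem pt_fin (p : Pt) : muU hc {γ | γ.1 p ≠ 0} ≠ ⊤ := by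
  classical
  obtain ⟨η, hη, N0, h⟩ := near_h 1 one_pos
  obtain ⟨N, hN, hN1⟩ : ∃ N : ℤ, N0 ≤ N ∧ 1 ≤ N := ⟨max N0 1, le_max_left _ _, le_max_right _ _⟩
  have h1 : muU hc (Vis p 0 ∩ Ext N) ≤ ENNReal.ofReal 1 := by
    refine h hc rfl N hN p 0 ?_
    have : (0 : ℝ) ≤ N := by exact_mod_cast (by omega : (0 : ℤ) ≤ N)
    push_cast
    positivity
  have sub : {γ : Lps | γ.1 p ≠ 0} ⊆ (Vis p 0 ∩ Ext N) ∪
      {γ : Lps | ∀ v, γ.1 v ≠ 0 → v ∈ Finset.Icc (p.1 - N) (p.1 + N) ×ˢ Finset.Icc (p.2 - N) (p.2 + N)} := by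
    intro γ hγ
    by_cases he : γ ∈ Ext N
    · exact Or.inl ⟨⟨p, hγ, by simp, by simp⟩, he⟩
    · refine Or.inr fun v hv => ?_
      have e1 : ∀ a b : Pt, γ.1 a ≠ 0 → γ.1 b ≠ 0 → b.1 - a.1 < N ∧ b.2 - a.2 < N := by
        intro a b ha hb
        constructor
        · by_contra h2
          exact he ⟨a, b, ha, hb, Or.inl (by omega)⟩
        · by_contra h2
          exact he ⟨a, b, ha, hb, Or.inr (by omega)⟩
      have e2 := e1 p v hγ hv
      have e3 := e1 v p hv hγ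
      rw [Finset.mem_product, Finset.mem_Icc, Finset.mem_Icc]
      omega
  refine ne_top_of_le_ne_top ?_ ((MeasureTheory.measure_mono sub).trans (MeasureTheory.measure_union_le _ _))
  exact ENNReal.add_ne_top.2 ⟨ne_top_of_le_ne_top ENNReal.ofReal_ne_top h1, muU_fin hc (fin_box _)⟩

/-- a segment has finite mass in the honeycomb -/
theorem leg_fin (c a b : ℤ) : muU hc (LegV c a b) ≠ ⊤ := by
  classical
  have sub : LegV c a b ⊆ ⋃ y ∈ Finset.Icc a b, {γ : Lps | γ.1 (c, y) ≠ 0} := by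
    rintro γ ⟨y, h1, h2, h3⟩
    simp only [Set.mem_iUnion]
    exact ⟨y, Finset.mem_Icc.2 ⟨h1, h2⟩, oc_ne h3⟩
  refine ne_top_of_le_ne_top ?_ ((MeasureTheory.measure_mono sub).trans (MeasureTheory.measure_biUnion_finset_le _ _))
  exact ENNReal.sum_ne_top.2 fun y _ => pt_fin (c, y)

/-! ### monotonicity -/

theorem leg_iff (γ : Lps) (c y : ℤ) : E.oc γ.1 ((c, y), .W) ↔ E.oc γ.1 ((c - 1, y), .E) :=
  γ.2.mt ((c, y), .W) trivial trivial

theorem leg_left {c a b : ℤ} (γ γ' : Lps) (h : ∀ v, v.1 < c → γ.1 v = γ'.1 v) (hγ : γ ∈ LegV c a b) :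
    γ' ∈ LegV c a b := by
  obtain ⟨y, h1, h2, h3⟩ := hγ
  refine ⟨y, h1, h2, ?_⟩
  rw [leg_iff] at h3 ⊢
  have e := h (c - 1, y) (by show c - 1 < c; omega)
  unfold E.oc at h3 ⊢
  rw [← e]
  exact h3

theorem leg_le {c a b : ℤ} : LegV c a b ⊆ LeC (c - 1) := by
  rintro γ ⟨y, _, _, h3⟩
  rw [leg_iff] at h3
  exact ⟨(c - 1, y), oc_ne h3, le_rfl⟩

theorem gm_ind (N : ℤ) (A : Set Lps) : GM N (A.indicator 1) = (A ∩ GeC N).indicator 1 := by
  classical
  funext γ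
  unfold GM
  by_cases h : ∀ v : Pt, N ≤ v.1 → γ.1 v = 0
  · rw [if_pos h, Set.indicator_of_notMem]
    rintro ⟨_, v, h1, h2⟩
    exact h1 (h v h2)
  · rw [if_neg h]
    have hg : γ ∈ GeC N := by
      push Not at h
      obtain ⟨v, h1, h2⟩ := h
      exact ⟨v, h2, h1⟩
    by_cases hA : γ ∈ A
    · rw [Set.indicator_of_mem hA, Set.indicator_of_mem (show γ ∈ A ∩ GeC N from ⟨hA, hg⟩)]
    · rw [Set.indicator_of_notMem hA, Set.indicator_of_notMem fun h => hA h.1]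

theorem hc_an : An hc := by
  intro j
  have := Real.pi_pos
  unfold hc
  constructor <;> linarith

/-- the right part of the lattice `hr c u` -/
theorem hr_hc {u : ℤ → ℝ} (hu : An u) (c a b n : ℤ) :
    muU (hr c u) (LegV c a b ∩ GeC (c + n)) = muU hc (LegV c a b ∩ GeC (c + n)) := by
  refine lawR _ _ (hr_an hu c) hc_an c (fun j hj => if_pos hj) _ ?_ ?_
  · rintro γ γ' h ⟨⟨y, h1, h2, h3⟩, v, h4, h5⟩
    have e : γ.1 (c, y) = γ'.1 (c, y) := h (c, y) le_rfl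
    have l' : E.oc γ'.1 ((c, y), .W) := by
      unfold E.oc at h3 ⊢
      rw [← e]
      exact h3
    refine ⟨⟨y, h1, h2, l'⟩, ?_⟩
    by_cases hn : 0 ≤ n
    · refine ⟨v, ?_, h5⟩
      rw [← h v (by omega)]
      exact h4
    · refine ⟨(c, y), oc_ne l', ?_⟩
      show c + n ≤ c
      omega
  · rintro γ ⟨⟨y, _, _, h3⟩, _⟩
    exact ⟨(c, y), oc_ne h3, le_rfl⟩

theorem leg_ge (c a b : ℤ) : LegV c a b ∩ GeC (c + 0) = LegV c a b := by
  refine Set.inter_eq_left.2 ?_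
  rintro γ ⟨y, _, _, h3⟩
  refine ⟨(c, y), oc_ne h3, ?_⟩
  show c + 0 ≤ c
  omega

/-- **(MON), right** -/
theorem monR : MonR := by
  intro u hu c a b n
  have hG : LG c ((LegV c a b).indicator 1) := LG_of (fun γ γ' => leg_left γ γ') leg_le
  have hf : EL (hr c u) ((LegV c a b).indicator 1) ≠ ⊤ := by
    rw [← muU_EL, ← leg_ge, hr_hc hu, leg_ge]
    exact leg_fin c a b
  have k := mon_right hG hu hf (c + n)
  rw [gm_ind, ← muU_EL, ← muU_EL, hr_hc hu] at k
  exact k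

theorem pr_leg (c a b n : ℤ) :
    eqL prS ⁻¹' (LegV c a b ∩ LeC (c - 1 - n)) = LegV (1 - c) (-b) (-a) ∩ GeC (1 - c + n) := by
  have key : ∀ (γ : Lps) (y : ℤ), E.oc (eqL prS γ).1 ((c, y), .W) ↔ E.oc γ.1 ((1 - c, -y), .W) := by
    intro γ y
    have h1 := eqL_oc prS γ ((-c, -y), .E)
    have h2 : prS.he ((-c, -y), .E) = ((c, y), .W) := by
      refine Prod.ext ?_ rfl
      show -((-c, -y) : Pt) = (c, y)
      rw [Prod.neg_mk, neg_neg, neg_neg]
    rw [h2] at h1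
    rw [h1, leg_iff, show 1 - c - 1 = -c by ring]
  ext γ
  constructor
  · rintro ⟨⟨y, h1, h2, h3⟩, v, h4, h5⟩
    refine ⟨⟨-y, by omega, by omega, (key γ y).1 h3⟩, ?_⟩
    obtain ⟨w, rfl⟩ := prS.e.surjective v
    refine ⟨w, (eqL_ne prS γ w).1 h4, ?_⟩
    rw [prS_e, Prod.fst_neg] at h5
    omega
  · rintro ⟨⟨y, h1, h2, h3⟩, v, h4, h5⟩
    refine ⟨⟨-y, by omega, by omega, (key γ (-y)).2 (by rw [neg_neg]; exact h3)⟩, ?_⟩
    refine ⟨prS.e v, (eqL_ne prS γ v).2 h4, ?_⟩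
    rw [prS_e, Prod.fst_neg]
    omega

/-- **(MON), left** -/
theorem monL : MonL := by
  intro u hu c a b n
  have k := monR _ (an_neg hu) (1 - c) (-b) (-a) n
  rw [← pr_leg, muU_pr u] at k
  have e : muU hc (eqL prS ⁻¹' (LegV c a b ∩ LeC (c - 1 - n))) = muU hc (LegV c a b ∩ LeC (c - 1 - n)) := muU_pr hc _
  rw [e] at k
  exact k

/-- **the line theorem** -/
theorem line : Line := ⟨monR, monL, lawR, lawL⟩

end Pool.Agent.ROT.U.Ls
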