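import Pool.Agent.ROT.UQ
import Pool.Agent.ROT.A6X

/-!
# ROT, UNIV: the tracers as a polygon system with the responses `q_b`, `q_d` (helper10)

* **`hexU`** = `hexP` with `Qf = qx bb`, `Cf = qx dd`; `hexU_rct`, `hexU_sym`; `hexU_Qge`, `hexU_Cle`;
* `sideU s`, `dicU s` : the outer structures and the dictionary;
* **`lr_q`** : (LR3) for one tracer and any bounded observable of the extreme line.
-/

set_option autoImplicit false

open Finset

namespace Pool.Agent.ROT.U

open Pool.Agent.ROT.E (Cell Cfg Pt)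
open Pool.Agent.ROT.E.Hx (HL trc hs)
open Pool.Agent.ROT.A6 (HLs hexP crd pr sideX dicX fw fw_of)
open HexObs.ART (Fr WT Cap Out dpt SP InA LRI Dic)

/-- **the tracers** -/
noncomputable def hexU : A.PSys where
  P := HLs
  M := hexP.M
  ht := hexP.ht
  ex := hexP.ex
  Qf p s := qx bb p.1 s
  Cf p s := qx dd p.1 s
  st := hexP.st
  ip := hexP.ip
  Dj := hexP.Dj
  In := hexP.In
  tr := hexP.tr
  sw := hexP.sw
  box := hexP.box
  M_nn := hexP.M_nn
  Q_nn p s := zero_le_one.trans (one_le_qb p.2 s)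
  C_nn p s := (qd_le p.2 s).1.le
  mem_box := hexP.mem_box
  le01 := hexP.le01
  le23 := hexP.le23
  ex01 := hexP.ex01
  ex23 := hexP.ex23
  tr_M := hexP.tr_M
  tr_ht := hexP.tr_ht
  tr_ex := hexP.tr_ex
  tr_st := hexP.tr_st
  tr_ip := hexP.tr_ip
  sw_M := hexP.sw_M
  sw_ht := hexP.sw_ht
  sw_ex := hexP.sw_ex
  st_box := hexP.st_box
  ip_box := hexP.ip_box
  ip_sep := hexP.ip_sep
  In_box := hexP.In_box
  far := hexP.far
  sep := hexP.sep

theorem hexU_Qge (p : hexU.P) (s : Fin 4) : 1 ≤ hexU.Qf p s := one_le_qb p.2 s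

theorem hexU_Cle (p : hexU.P) (s : Fin 4) : hexU.Cf p s ≤ 1 := (qd_le p.2 s).2

theorem hexU_rct : A.PSys.Rct hexU where
  tr0 := A6.hexP_rct.tr0
  tra := A6.hexP_rct.tra
  Q z p s := qx_trc bb p.2 z s
  C z p s := qx_trc dd p.2 z s

/-- **the symmetries identify the four sides** -/
theorem hexU_sym : hexU.Sym := by
  refine A.PSys.sym_of' (S := hexU) hexU_rct (fun z p => Subtype.ext (A6.SymH.tr_trc z p.1)) A6.SymH.ngE
    (fun z p => Subtype.ext (A6.SymH.pr_trc z p.1)) (fun p => ?_) (fun p => A6.hc_pr p.2)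
    (fun p => (qx_tr bb p.1).2.1) (fun p => (qx_tr dd p.1).2.1)
    (fun p => (qx_pr bb p.2).1) (fun p => (qx_pr dd p.2).1)
    (fun p => (qx_pr bb p.2).2.2.1) (fun p => (qx_pr dd p.2).2.2.1)
  show HexObs.xc ^ (hs (pr p.1)).card = HexObs.xc ^ (hs p.1).card
  rw [A6.card_pr p.2]

/-- **the sides** -/
noncomputable def sideU (s : Fin 4) : hexU.Side s where
  rt := (sideX s).rt
  Sim := (sideX s).Sim
  cd := (sideX s).cd
  eqv := (sideX s).eqv
  rt_tr := (sideX s).rt_tr
  sim_tr := (sideX s).sim_tr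
  cd_tr := (sideX s).cd_tr
  sim_rt := (sideX s).sim_rt
  rt_in := (sideX s).rt_in
  sim_wd := (sideX s).sim_wd
  sim_ht := (sideX s).sim_ht
  sim_ex := (sideX s).sim_ex
  sim_rel := (sideX s).sim_rel
  Q_tr z p := qx_trc bb p.2 z s
  C_tr z p := qx_trc dd p.2 z s

/-- the dictionary -/
noncomputable def dicU (s : Fin 4) : Dic (sideU s) (1, -1) where
  e := (dicX s).e
  M_eq := (dicX s).M_eq
  bot_eq := (dicX s).bot_eq
  sim := (dicX s).sim

/-- **the products depend only on the cap** -/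
theorem qx_inA (β : ℝ) (s : Fin 4) : InA (1, -1) (SP (1, -1)) (fw s fun γ => qx β γ s) := by
  intro z hz R O O' S hC hO hO'
  have hd : ((1, -1) : HexObs.Pt) ∈ HexObs.dirs := by decide
  rw [fw_of (HexObs.ART.cap_out hd hC hO), fw_of (HexObs.ART.cap_out hd hC hO')]
  have h1 := A6.hc_root (u := s) (a := 0) (HexObs.ART.cap_out hd hC hO)
  have h2 := A6.hc_root (u := s) (a := 0) (HexObs.ART.cap_out hd hC hO')
  refine qx_lin β (h1.trans h2.symm) fun v hv => ?_
  rw [h1] at hv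
  refine HexObs.ART.lpw_cap hd (A6.fr_u s 0) hC hO hO' hz fun t => ?_
  have e : A6.sw1 s * (crd s v - crd s 0) = 0 := by rw [hv, sub_self, mul_zero]
  rcases A6.lev_cell s 0 v t with h | h <;> omega

/-- **LRall** for `q_d` and the truncations of `q_b` -/
theorem lrall_U {hd : ((1, -1) : HexObs.Pt) ∈ HexObs.dirs} (hI : LRI (1, -1) hd) (s : Fin 4) : (sideU s).LRall := by
  classical
  refine HexObs.ART.lrall_of hI (dicU s) (χC := fw s fun γ => qx dd γ s) (χQ := fw s fun γ => qx bb γ s) (kC := 1)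
    (fun p => A6.fw_dic s (fun γ => qx dd γ s) p) (fun p => A6.fw_dic s (fun γ => qx bb γ s) p) (fun w => ?_)
    (fun w => ?_) (fun w => ?_) (qx_inA dd s) (qx_inA bb s)
  · by_cases h : w ∈ WT (1, -1)
    · rw [fw_of h]
      exact (qd_le (A6.wt_hl h) s).1.le
    · unfold fw
      rw [if_neg h]
  · by_cases h : w ∈ WT (1, -1)
    · rw [fw_of h]
      exact (qd_le (A6.wt_hl h) s).2
    · unfold fw
      rw [if_neg h]
      exact zero_le_one
  · by_cases h : w ∈ WT (1, -1)
    · rw [fw_of h]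
      exact zero_le_one.trans (one_le_qb (A6.wt_hl h) s)
    · unfold fw
      rw [if_neg h]

end Pool.Agent.ROT.U
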