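import Pool.Agent.ROT.UNearDefs
import Pool.Agent.ROT.A6S

/-!
# UNIV, row PF (helper21): families of an external loop and honeycomb tracers = products

`w` is a loop of the lattice with the column angles `u` (weight `MU u w`), `v i` (`i : J`) are honeycomb loops (tracers)
whose cells lie in columns with `u = π / 8`.  `tO w v` is the family.  **`fam_ext`, `M_ext`**: if the members have no common
vertex of the honeycomb, it is a family with the weight `MU u w * ∏ wr (v i)`; **`ext_of`**: all families of nonzero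
weight are of this form; **`sum_ext`** : the sum over the families is the sum over the tuples.
`nestE`, `ins_boxE`, `farE`, `sepE`: the geometry of `A6S` for an external `w`.
-/

set_option autoImplicit false

namespace Pool.Agent.ROT.U

open Pool.Agent.YBC (Dir)
open Pool.Agent.UNI (wR)
open Pool.Agent.ROT.E (Cell IsUn Pt nx He Cfg Fm oc rv)
open Pool.Agent.ROT.E.Hx (HL hs vs Ny nv un_vs ny_un vs_card vs_disj mem_hs' wt_hex hs_card)
open Pool.Agent.ROT.A6 (HLs PD wr tup tup_apply co_tup tup_co Ins)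

noncomputable section

variable {J : Type}

/-! ### one cell -/

theorem nv_un {I : Type} [Fintype I] {f : I → Cell} {c : Cell} (h : IsUn f c) (hc : c ≠ .y) : nv c = ∑ i, nv (f i) := by
  obtain ⟨h1, h2⟩ := (ny_un h (0, 0)).1 hc
  rw [← vs_card (0, 0) hc, un_vs h (0, 0), Finset.card_biUnion fun i _ k _ hik => h2 hik]
  exact Finset.sum_congr rfl fun i _ => vs_card _ (h1 i)

theorem vs_y {p : Pt} {c : Cell} (hc : c ≠ .o) : ¬ Disjoint (vs p .y) (vs p c) := by
  rw [Finset.not_disjoint_iff]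
  have e : ∀ q, q ∈ vs p c → q ∈ vs p .y := by
    intro q hq
    unfold vs at hq ⊢
    rw [Finset.mem_union] at hq ⊢
    rcases hq with hq | hq
    · left
      split_ifs at hq
      · rw [if_pos (Or.inl (by decide))]; exact hq
      · simp at hq
    · right
      split_ifs at hq
      · rw [if_pos (Or.inl (by decide))]; exact hq
      · simp at hq
  have key : ∀ c : Cell, c ≠ .o → (c.oc .W ∨ c.oc .S) ∨ (c.oc .E ∨ c.oc .N) := by decide
  rcases key c hc with h | h
  · have : E.Hx.wh p ∈ vs p c := Finset.mem_union_left _ (by rw [if_pos h]; exact Finset.mem_singleton_self _)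
    exact ⟨_, e _ this, this⟩
  · have : E.Hx.bk p ∈ vs p c := Finset.mem_union_right _ (by rw [if_pos h]; exact Finset.mem_singleton_self _)
    exact ⟨_, e _ this, this⟩

theorem vs_sub {w : Cfg} (p : Pt) : vs p (w p) ⊆ hs w := fun _ h => mem_hs'.2 ⟨p, h⟩

/-- an external loop which has no common vertex with a honeycomb loop is not in the state `y` there -/
theorem ny_of {w v : Cfg} (h : Disjoint (hs w) (hs v)) {p : Pt} (hp : v p ≠ .o) : w p ≠ .y := by
  intro hy
  have h1 := h.mono (vs_sub (w := w) p) (vs_sub (w := v) p)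
  rw [hy] at h1
  exact vs_y hp h1

/-! ### the family -/

/-- the members -/
def gO (w : Cfg) (v : J → HLs) : Option J → Cfg := fun o => o.elim w fun i => (v i).1

variable [Fintype J]

/-- **the family** -/
def tO (w : Cfg) (v : J → HLs) : Fm (Option J) := tup (gO w v)

theorem tO_none (w : Cfg) (v : J → HLs) (p : Pt) : tO w v p none = w p := rfl

theorem tO_some (w : Cfg) (v : J → HLs) (p : Pt) (i : J) : tO w v p (some i) = (v i).1 p := rfl

theorem co_tO_none (w : Cfg) (v : J → HLs) : E.co (tO w v) none = w := co_tup _ _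

theorem co_tO_some (w : Cfg) (v : J → HLs) (i : J) : E.co (tO w v) (some i) = (v i).1 := co_tup _ _

/-- the tuples: a loop, honeycomb tracers in the honeycomb columns, no common vertices -/
structure Ok (u : ℤ → ℝ) (g : Cfg × (J → HLs)) : Prop where
  lp : E.Lp g.1
  col : ∀ i p, (g.2 i).1 p ≠ .o → u p.1 = Real.pi / 8
  pd : PD g.2
  dj : ∀ i, Disjoint (hs g.1) (hs (g.2 i).1)

variable {u : ℤ → ℝ} {w : Cfg} {v : J → HLs}

/-- pairwise disjoint at one cell -/
private theorem dj_cell (pd : PD v) (dj : ∀ i, Disjoint (hs w) (hs (v i).1)) (p : Pt) :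
    Pairwise fun a b : Option J => Disjoint (vs p (tO w v p a)) (vs p (tO w v p b)) := by
  have h0 : ∀ i, Disjoint (vs p (w p)) (vs p ((v i).1 p)) := fun i =>
    (dj i).mono (vs_sub (w := w) p) (vs_sub (w := (v i).1) p)
  rintro (_ | a) (_ | b) hab
  · exact absurd rfl hab
  · exact h0 b
  · exact (h0 a).symm
  · have : Disjoint (hs (v a).1) (hs (v b).1) := pd fun e => hab (congrArg some e)
    exact this.mono (vs_sub (w := (v a).1) p) (vs_sub (w := (v b).1) p)

/-- one cell: the union, and the factor -/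
private theorem cell (pd : PD v) (dj : ∀ i, Disjoint (hs w) (hs (v i).1)) (p : Pt) :
    ((∀ i, (v i).1 p = .o) ∧ IsUn (tO w v p) (w p)) ∨
      ((∃ i, (v i).1 p ≠ .o) ∧ w p ≠ .y ∧ ∃ c, c ≠ .y ∧ IsUn (tO w v p) c) := by
  by_cases h : ∀ i, (v i).1 p = .o
  · left
    have no : ∀ (i : J) (d : Dir), ¬ (tO w v p (some i)).oc d := by
      intro i d
      rw [tO_some, h i]
      exact E.Lab.not_oc_o d
    refine ⟨h, fun a d hd => ?_, fun a b d ha hb => ?_, fun d hd => ⟨none, hd⟩⟩
    · rcases a with _ | a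
      · rfl
      · exact absurd hd (no a d)
    · rcases a with _ | a <;> rcases b with _ | b
      · rfl
      · exact absurd hb (no b d)
      · exact absurd ha (no a d)
      · exact absurd ha (no a d)
  · right
    push Not at h
    obtain ⟨i, hi⟩ := h
    have h1 : ∀ a, tO w v p a ≠ .y := by
      rintro (_ | a)
      · exact ny_of (dj i) hi
      · exact (v a).2.ny p
    obtain ⟨c, hc⟩ := A6.un_of_disj (v := p) h1 fun a b hab => dj_cell pd dj p hab
    exact ⟨⟨i, hi⟩, ny_of (dj i) hi, c, (ny_un hc p).2 ⟨h1, dj_cell pd dj p⟩, hc⟩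

/-- **it is a family** -/
theorem fam_ext (lw : E.Lp w) (pd : PD v) (dj : ∀ i, Disjoint (hs w) (hs (v i).1)) : E.Fam (tO w v) := by
  refine ⟨fun a => ?_, fun p => ?_⟩
  · rcases a with _ | a
    · rw [co_tO_none]; exact lw
    · rw [co_tO_some]; exact (v a).2.lp
  · rcases cell pd dj p with ⟨-, h⟩ | ⟨-, -, c, -, h⟩
    · exact ⟨_, h⟩
    · exact ⟨_, h⟩

private theorem nv_o : nv Cell.o = 0 := rfl

/-- **the weight of the family** -/
theorem M_ext (col : ∀ i p, (v i).1 p ≠ .o → u p.1 = Real.pi / 8) (pd : PD v)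
    (dj : ∀ i, Disjoint (hs w) (hs (v i).1)) : E.M u (tO w v) = MU u w * ∏ i, wr (v i) := by
  classical
  set S : Finset Pt := w.support ∪ Finset.univ.biUnion fun i => (v i).1.support with hS
  have hw : ∀ p, p ∉ S → w p = .o := by
    intro p hp
    by_contra h
    exact hp (Finset.mem_union_left _ (Finsupp.mem_support_iff.2 h))
  have hv : ∀ i p, p ∉ S → (v i).1 p = .o := by
    intro i p hp
    by_contra h
    exact hp (Finset.mem_union_right _ (Finset.mem_biUnion.2 ⟨i, Finset.mem_univ _, Finsupp.mem_support_iff.2 h⟩))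
  have e1 : E.M u (tO w v) = ∏ p ∈ S, E.wf (wR (u p.1)) (tO w v p) := by
    unfold E.M
    rw [Finsupp.prod]
    refine Finset.prod_subset ?_ ?_
    · intro p hp
      by_contra h
      rw [Finsupp.mem_support_iff] at hp
      apply hp
      funext a
      rcases a with _ | a
      · exact hw p h
      · exact hv a p h
    · intro p _ hp
      rw [Finsupp.notMem_support_iff] at hp
      rw [hp]
      show E.wf (wR (u p.1)) (fun _ => Cell.o) = 1
      rw [E.Lab.wf_un E.Lab.un_zero]
      rfl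
  have e2 : MU u w = ∏ p ∈ S, (w p).wt (wR (u p.1)) := by
    unfold MU
    rw [Finsupp.prod]
    refine Finset.prod_subset Finset.subset_union_left ?_
    intro p _ hp
    rw [Finsupp.notMem_support_iff] at hp
    rw [hp]
    rfl
  have e3 : ∀ i, wr (v i) = ∏ p ∈ S, HexObs.xc ^ nv ((v i).1 p) := by
    intro i
    unfold wr
    rw [hs_card (v i).2.ny, ← Finset.prod_pow_eq_pow_sum]
    refine Finset.prod_subset ?_ ?_
    · intro p hp
      exact Finset.mem_union_right _ (Finset.mem_biUnion.2 ⟨i, Finset.mem_univ _, hp⟩)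
    · intro p _ hp
      rw [Finsupp.notMem_support_iff] at hp
      rw [hp]
      rfl
  rw [e1, e2, Finset.prod_congr rfl fun i _ => e3 i, Finset.prod_comm, ← Finset.prod_mul_distrib]
  refine Finset.prod_congr rfl fun p _ => ?_
  rcases cell pd dj p with ⟨h0, h⟩ | ⟨⟨i, hi⟩, hy, c, hc, h⟩
  · rw [E.Lab.wf_un h, Finset.prod_eq_one, mul_one]
    intro i _
    rw [h0 i, nv_o, pow_zero]
  · rw [E.Lab.wf_un h, col i p hi, wt_hex, wt_hex, if_neg hc, if_neg hy, nv_un h hc, Fintype.sum_option, pow_add,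
      ← Finset.prod_pow_eq_pow_sum]
    rfl

/-- the weight is not zero -/
theorem MU_hex (col : ∀ p, w p ≠ .o → u p.1 = Real.pi / 8) (hy : Ny w) : MU u w = HexObs.xc ^ (hs w).card := by
  classical
  have h := E.Hx.prod_hex w
  rw [if_pos hy] at h
  rw [← h]
  unfold MU
  refine Finset.prod_congr rfl fun p hp => ?_
  show (w p).wt (wR (u p.1)) = (w p).wt (wR (Real.pi / 8))
  rw [col p (Finsupp.mem_support_iff.1 hp)]

/-- **the families of nonzero weight with the tracers in the honeycomb columns are of this form** -/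
theorem ext_of {γ : Fm (Option J)} (h : E.Fam γ) (hM : E.M u γ ≠ 0)
    (col : ∀ i p, γ p (some i) ≠ .o → u p.1 = Real.pi / 8) :
    ∃ g : Cfg × (J → HLs), Ok u g ∧ tO g.1 g.2 = γ := by
  classical
  obtain ⟨δ, un⟩ := E.Lab.ex_un h.dj
  -- at a cell with a tracer the union is not `y`
  have hne : ∀ i p, γ p (some i) ≠ .o → δ p ≠ .y := by
    intro i p hp hy
    apply hM
    unfold E.M
    rw [Finsupp.prod]
    refine Finset.prod_eq_zero (i := p) ?_ ?_
    · rw [Finsupp.mem_support_iff]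
      intro e
      exact hp (congrFun e (some i))
    · rw [E.Lab.wf_un (un p), col i p hp, wt_hex, if_pos hy]
  have ny : ∀ i, Ny (E.co γ (some i)) := by
    intro i p hy
    have hp : γ p (some i) ≠ .o := by
      change E.co γ (some i) p ≠ .o
      rw [hy]
      decide
    exact ((ny_un (un p) p).1 (hne i p hp)).1 (some i) hy
  have hd : ∀ (a : Option J) (i : J), a ≠ some i → Disjoint (hs (E.co γ a)) (hs (E.co γ (some i))) := by
    intro a i hai
    rw [Finset.disjoint_left]
    intro x hx hx'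
    obtain ⟨p, h1⟩ := mem_hs'.1 hx
    obtain ⟨q, h2⟩ := mem_hs'.1 hx'
    rcases eq_or_ne p q with rfl | hpq
    · have hp : γ p (some i) ≠ .o := by
        intro e
        change x ∈ vs p (γ p (some i)) at h2
        rw [e] at h2
        simp [vs, Cell.oc, Cell.p] at h2
      exact Finset.disjoint_left.1 (((ny_un (un p) p).1 (hne i p hp)).2 hai) h1 h2
    · exact Finset.disjoint_left.1 (vs_disj hpq _ _) h1 h2
  refine ⟨(E.co γ none, fun i => ⟨E.co γ (some i), h.lp _, ny i⟩), ⟨h.lp _, col, ?_, fun i => ?_⟩, ?_⟩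
  · intro i k hik
    exact hd (some i) k fun e => hik (Option.some.inj e)
  · exact hd none i (by simp)
  · refine (congrArg tup (funext fun a => ?_)).trans (tup_co γ)
    rcases a with _ | a <;> rfl

theorem tO_inj {g g' : Cfg × (J → HLs)} (h : tO g.1 g.2 = tO g'.1 g'.2) : g = g' := by
  have h1 : g.1 = g'.1 := by
    rw [← co_tO_none g.1 g.2, h, co_tO_none]
  have h2 : g.2 = g'.2 := by
    funext i
    apply Subtype.ext
    rw [← co_tO_some g.1 g.2, h, co_tO_some]
  exact Prod.ext h1 h2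

open Classical in
/-- **the sum over the families is the sum over the tuples** -/
theorem sum_ext (u : ℤ → ℝ) (F : Fm (Option J) → ℝ) :
    (∑' γ : Fm (Option J), if E.Fam γ ∧ ∀ i p, γ p (some i) ≠ .o → u p.1 = Real.pi / 8 then E.M u γ * F γ else 0) =
      ∑' g : Cfg × (J → HLs), if Ok u g then MU u g.1 * (∏ i, wr (g.2 i)) * F (tO g.1 g.2) else 0 := by
  have hi : Function.Injective fun g : Cfg × (J → HLs) => tO g.1 g.2 := fun g g' h => tO_inj h
  have hr : Function.support (fun γ : Fm (Option J) =>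
      if E.Fam γ ∧ ∀ i p, γ p (some i) ≠ .o → u p.1 = Real.pi / 8 then E.M u γ * F γ else 0) ⊆
      Set.range fun g : Cfg × (J → HLs) => tO g.1 g.2 := by
    intro γ hγ
    rw [Function.mem_support] at hγ
    split_ifs at hγ with h
    · obtain ⟨g, -, hg⟩ := ext_of h.1 (left_ne_zero_of_mul hγ) h.2
      exact ⟨g, hg⟩
    · exact absurd rfl hγ
  rw [← hi.tsum_eq hr]
  refine tsum_congr fun g => ?_
  by_cases ok : Ok u g
  · rw [if_pos ok, if_pos, M_ext ok.col ok.pd ok.dj]
    exact ⟨fam_ext ok.lp ok.pd ok.dj, ok.col⟩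
  · rw [if_neg ok]
    split_ifs with h
    · by_contra hc
      obtain ⟨g', ok', hg⟩ := ext_of h.1 (left_ne_zero_of_mul hc) h.2
      rw [tO_inj hg] at ok'
      exact ok ok'
    · rfl

open Classical in
/-- iterated form -/
theorem sum_ext_iter (u : ℤ → ℝ) (F : Fm (Option J) → ℝ)
    (hsum : Summable fun g : Cfg × (J → HLs) => if Ok u g then MU u g.1 * (∏ i, wr (g.2 i)) * F (tO g.1 g.2) else 0) :
    (∑' γ : Fm (Option J), if E.Fam γ ∧ ∀ i p, γ p (some i) ≠ .o → u p.1 = Real.pi / 8 then E.M u γ * F γ else 0) =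
      ∑' w : Cfg, ∑' v : J → HLs, if Ok u (w, v) then MU u w * (∏ i, wr (v i)) * F (tO w v) else 0 := by
  rw [sum_ext, hsum.tsum_prod]

/-! ### inside / outside in a family -/

/-- the member `i'` is inside of the member `i` -/
def inF {I : Type} (γ : Fm I) (i i' : I) : Prop := ∃ h, oc (E.co γ i') h ∧ E.sd (E.co γ i) h = 1

/-- **it is constant on the classes of the strip swaps** -/
theorem inF_Sm {I : Type} {j : ℤ} {γ γ' : Fm I} (h : E.Sm j γ γ') {i i' : I} (hne : i ≠ i') :
    inF γ i i' ↔ inF γ' i i' := by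
  have ex : ∀ {γ : Fm I}, E.Fam γ → ∃ k, oc (E.co γ i') k := by
    intro γ f
    obtain ⟨p, hp⟩ := Finsupp.support_nonempty_iff.2 (f.lp i').ne
    obtain ⟨d, hd⟩ := A6.ex_oc hp
    exact ⟨_, hd⟩
  constructor
  · rintro ⟨k, hk, e⟩
    obtain ⟨l, hl⟩ := ex h.fam'
    exact ⟨l, hl, by rw [← h.nest hne hk hl, e]⟩
  · rintro ⟨k, hk, e⟩
    obtain ⟨l, hl⟩ := ex h.fam
    exact ⟨l, hl, by rw [h.nest hne hl hk, e]⟩

theorem inF_tO {w : Cfg} {v : J → HLs} (dj : ∀ i, Disjoint (hs w) (hs (v i).1)) (i : J) :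
    inF (tO w v) none (some i) ↔ Ins (v i).1 w := by
  unfold inF Ins
  rw [co_tO_none, co_tO_some]
  exact ⟨fun h => ⟨(dj i).symm, h⟩, fun h => h.2⟩

/-! ### the geometry for an external loop -/

/-- **nesting**: all sides of a tracer are on the same side of an external loop -/
theorem nestE {w : Cfg} {v : HLs} (lw : E.Lp w) (hd : Disjoint (hs v.1) (hs w)) {h k : He} (h1 : oc v.1 h)
    (h2 : oc v.1 k) : E.sd w h = E.sd w k := by
  have f : E.Fam (tO w fun _ : Unit => v) :=
    fam_ext lw (fun a b hab => absurd (Subsingleton.elim a b) hab) fun _ => hd.symm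
  have := E.nest f (i := none) (i' := some ()) (by simp) (h := h) (k := k) (by rw [co_tO_some]; exact h1)
    (by rw [co_tO_some]; exact h2)
  rw [co_tO_none] at this
  exact this

theorem InsE.all {w : Cfg} {v : HLs} (lw : E.Lp w) (hi : Ins v.1 w) {h : He} (h1 : oc v.1 h) : E.sd w h = 1 := by
  obtain ⟨hd, k, hk, e⟩ := hi
  rw [nestE lw hd h1 hk, e]

theorem supp_neE {w : Cfg} (lw : E.Lp w) : w.support.Nonempty := Finsupp.support_nonempty_iff.2 lw.ne

open Pool.Agent.ROT.A6 in
/-- **inside an external loop: the box is contained** -/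
theorem ins_boxE {w : Cfg} {v : HLs} (lw : E.Lp w) (hi : Ins v.1 w) :
    A6.hc w 0 ≤ A6.hc v.1 0 ∧ A6.hc v.1 1 ≤ A6.hc w 1 ∧ A6.hc w 2 ≤ A6.hc v.1 2 ∧ A6.hc v.1 3 ≤ A6.hc w 3 := by
  obtain ⟨v, lv⟩ := v
  have hn := supp_ne lv
  have hm := lv.lp.mt
  have hb : ∀ h : He, oc v h → L.hL w.support ≤ (E.cr h).1 ∧ (E.cr h).1 ≤ L.hR w.support ∧
      L.hB w.support ≤ (E.cr h).2 ∧ (E.cr h).2 ≤ L.hT w.support := fun h ho =>
    sg_box lw.mt (InsE.all (v := ⟨v, lv⟩) lw hi ho)
  show A6.hc w 0 ≤ A6.hc v 0 ∧ A6.hc v 1 ≤ A6.hc w 1 ∧ A6.hc w 2 ≤ A6.hc v 2 ∧ A6.hc v 3 ≤ A6.hc w 3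
  rw [hc0, hc0, hc1, hc1, hc2, hc2, hc3, hc3]
  refine ⟨?_, ?_, ?_, ?_⟩
  · obtain ⟨x, hx, e⟩ := L.hL_mem hn
    have h1 : ¬ (v x).oc .W := fun ho => by
      have := side_W hm (v := x) ho
      omega
    rcases cell_NS (v x) (mem_supp.1 hx) (Or.inl h1) with ho | ho
    · have := (hb (x, .N) ho).1
      have e2 : (E.cr (x, .N)).1 = x.1 := rfl
      omega
    · have := (hb (x, .S) ho).1
      have e2 : (E.cr (x, .S)).1 = x.1 := rfl
      omega
  · obtain ⟨x, hx, e⟩ := L.hR_mem hn
    have h1 : ¬ (v x).oc .E := fun ho => by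
      have := side_E hm (v := x) ho
      omega
    rcases cell_NS (v x) (mem_supp.1 hx) (Or.inr h1) with ho | ho
    · have := (hb (x, .N) ho).2.1
      have e2 : (E.cr (x, .N)).1 = x.1 := rfl
      omega
    · have := (hb (x, .S) ho).2.1
      have e2 : (E.cr (x, .S)).1 = x.1 := rfl
      omega
  · obtain ⟨x, hx, e⟩ := L.hB_mem hn
    have h1 : ¬ (v x).oc .S := fun ho => by
      have := side_S hm (v := x) ho
      omega
    rcases cell_WE (v x) (mem_supp.1 hx) (Or.inr h1) with ho | ho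
    · have := (hb (x, .W) ho).2.2.1
      have e2 : (E.cr (x, .W)).2 = x.2 := rfl
      omega
    · have := (hb (x, .E) ho).2.2.1
      have e2 : (E.cr (x, .E)).2 = x.2 := rfl
      omega
  · obtain ⟨x, hx, e⟩ := L.hT_mem hn
    have h1 : ¬ (v x).oc .N := fun ho => by
      have := side_N hm (v := x) ho
      omega
    rcases cell_WE (v x) (mem_supp.1 hx) (Or.inl h1) with ho | ho
    · have := (hb (x, .W) ho).2.2.2
      have e2 : (E.cr (x, .W)).2 = x.2 := rfl
      omega
    · have := (hb (x, .E) ho).2.2.2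
      have e2 : (E.cr (x, .E)).2 = x.2 := rfl
      omega

open Pool.Agent.ROT.A6 in
/-- members with a gap between the boxes -/
theorem farE {w : Cfg} {v : HLs} (lw : E.Lp w)
    (h : A6.hc v.1 1 + 1 < A6.hc w 0 ∨ A6.hc w 1 + 1 < A6.hc v.1 0 ∨ A6.hc v.1 3 + 1 < A6.hc w 2 ∨ A6.hc w 3 + 1 < A6.hc v.1 2) :
    Disjoint (hs v.1) (hs w) ∧ ¬ Ins v.1 w := by
  have a1 := le_hc v.2
  obtain ⟨s, hs'⟩ := supp_neE lw
  have a2 := in_box hs'
  refine ⟨disj_of_supp fun s h1 h2 => ?_, fun hi => ?_⟩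
  · have b1 := in_box h1
    have b2 := in_box h2
    omega
  · have b1 := ins_boxE lw hi
    omega

open Pool.Agent.ROT.A6 in
/-- **an external loop without a cell near the box of the tracer**: disjoint, and the tracer is inside iff its corner is -/
theorem sepE {w : Cfg} {v : HLs} (lw : E.Lp w)
    (h : ∀ s ∈ w.support, ¬ (A6.hc v.1 0 - 1 ≤ s.1 ∧ s.1 ≤ A6.hc v.1 1 + 1 ∧ A6.hc v.1 2 - 1 ≤ s.2 ∧ s.2 ≤ A6.hc v.1 3 + 1)) :
    (Disjoint (hs v.1) (hs w) ∧ Disjoint (hs w) (hs v.1)) ∧ (Ins v.1 w ↔ E.sg w (A6.hc v.1 0) (A6.hc v.1 2) = 1) ∧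
      ∀ k : He, oc v.1 k → E.sd w k = E.sg w (A6.hc v.1 0) (A6.hc v.1 2) := by
  have hd : Disjoint (hs v.1) (hs w) := disj_of_supp fun s h1 h2 => by
    have b := in_box h1
    exact h s h2 (by omega)
  have a1 := le_hc v.2
  have key : ∀ k : He, oc v.1 k → E.sd w k = E.sg w (A6.hc v.1 0) (A6.hc v.1 2) := by
    intro k hk
    have b := cr_box hk
    exact sg_const lw.mt h (by omega) (by omega) (by omega) (by omega) (by omega) (by omega) (by omega) (by omega)
  refine ⟨⟨hd, hd.symm⟩, ⟨?_, fun e => ?_⟩, key⟩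
  · rintro ⟨-, k, hk, e⟩
    rw [← key k hk, e]
  · obtain ⟨s, hs⟩ := supp_ne v.2
    obtain ⟨d, ho⟩ := ex_oc hs
    exact ⟨hd, _, ho, by rw [key _ ho, e]⟩

end

end Pool.Agent.ROT.U
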