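import Pool.Agent.ROT.UA2c
import Pool.Agent.ROT.UHex
import Pool.Agent.ROT.UPF

/-!
# ROT, UNIV, row LRW (helper10): a loop of a lattice as the environment of a tracer

**`extU τ`** : `G w v` = `w` and the tracer `v` are disjoint and `v` is inside `w` iff `τ = true`.
-/

set_option autoImplicit false

open Finset

namespace Pool.Agent.ROT.U

open Pool.Agent.ROT.E (Cell Cfg Pt oc)
open Pool.Agent.ROT.E.Hx (HL hs lpw)
open Pool.Agent.ROT.A6 (HLs Ins sw4 rtw rtw_wt rtw_lpw wt_hl)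
open HexObs.ART (WT SimW cdW)

theorem rel1E {u : Fin 4} {a : Pt} {n : ℕ} {w w' : List Bool} (hw : w ∈ WT (1, -1)) (hw' : w' ∈ WT (1, -1))
    (hS : SimW (1, -1) n w w') {q : Cfg}
    (hq : ∀ s ∈ q.support, ¬ (|s.1 - a.1| ≤ max (cdW (1, -1) n w : ℤ) (cdW (1, -1) n w' : ℤ) + 2 ∧
      |s.2 - a.2| ≤ max (cdW (1, -1) n w : ℤ) (cdW (1, -1) n w' : ℤ) + 2))
    (h : Disjoint (hs (lpw (a, sw4 u) w)) (hs q)) : Disjoint (hs (lpw (a, sw4 u) w')) (hs q) := by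
  rw [Finset.disjoint_left] at h ⊢
  intro p hp hpq
  rcases A6.sim_hs hw' hw ((HexObs.ART.simW_eqv (by decide) n).symm hS) hp with h1 | h1
  · exact h h1 hpq
  · refine hq (E.Hx.sq p) ?_ ⟨?_, ?_⟩
    · rw [E.Hx.supp_hs]
      exact Finset.mem_image_of_mem _ hpq
    · omega
    · omega

/-- **an external loop which does not come near the root does not see the cap** -/
theorem rel_ext {u : Fin 4} {a : Pt} {n : ℕ} {v v' : List Bool} (hw : v ∈ WT (1, -1)) (hw' : v' ∈ WT (1, -1))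
    (hS : SimW (1, -1) n v v') {q : Cfg} (lq : E.Lp q)
    (hq : ∀ s ∈ q.support, ¬ (|s.1 - a.1| ≤ max (cdW (1, -1) n v : ℤ) (cdW (1, -1) n v' : ℤ) + 2 ∧
      |s.2 - a.2| ≤ max (cdW (1, -1) n v : ℤ) (cdW (1, -1) n v' : ℤ) + 2))
    (hd : Disjoint (hs q) (hs (lpw (a, sw4 u) v))) :
    Disjoint (hs q) (hs (lpw (a, sw4 u) v')) ∧ (Ins (lpw (a, sw4 u) v) q ↔ Ins (lpw (a, sw4 u) v') q) := by
  have l := wt_hl (u := u) (a := a) hw
  have l' := wt_hl (u := u) (a := a) hw'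
  have hd' := rel1E hw hw' hS hq hd.symm
  refine ⟨hd'.symm, ?_⟩
  by_cases hne : v = v'
  · rw [hne]
  obtain ⟨h0, o1, o2⟩ := A6.sim_oc (u := u) (a := a) hw hw' hS hne
  exact ⟨fun hi => ⟨hd', h0, o2, InsE.all (v := ⟨_, l⟩) lq hi o1⟩,
    fun hi => ⟨hd.symm, h0, o1, InsE.all (v := ⟨_, l'⟩) lq hi o2⟩⟩

/-- **the external loops** -/
noncomputable def extU (τ : Bool) : XEnv hexU sideU I.Lps where
  st w := {x | x ∈ w.1.support}
  G w p := Disjoint (hs w.1) (hs p.1) ∧ (Ins p.1 w.1 ↔ τ = true)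
  rel u n p p' w h hq hG := by
    have hq' : ∀ s ∈ w.1.support, ¬ (|s.1 - (rtw u p).1.1| ≤
        max (cdW (1, -1) n (rtw u p).2 : ℤ) (cdW (1, -1) n (rtw u p').2 : ℤ) + 2 ∧ |s.2 - (rtw u p).1.2| ≤
        max (cdW (1, -1) n (rtw u p).2 : ℤ) (cdW (1, -1) n (rtw u p').2 : ℤ) + 2) := fun s hs h' => hq ⟨s, hs, h'⟩
    have e : lpw ((rtw u p).1, sw4 u) (rtw u p).2 = p.1 := (rtw_lpw u p).symm
    have e' : lpw ((rtw u p).1, sw4 u) (rtw u p').2 = p'.1 := by rw [h.1]; exact (rtw_lpw u p').symm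
    have h1 := rel_ext (u := u) (a := (rtw u p).1) (rtw_wt u p) (rtw_wt u p') h.2 w.2 hq' (by rw [e]; exact hG.1)
    rw [e, e'] at h1
    exact ⟨h1.1, h1.2.symm.trans hG.2⟩

end Pool.Agent.ROT.U
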