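import Pool.Agent.ROT.UA2c
import Pool.Agent.ROT.UHex
import Pool.Agent.ROT.Joint2

/-!
# ROT, UNIV, row LRW (helper10): the inputs of `lrw` for the tracers, up to (UI)
-/

set_option autoImplicit false

namespace Pool.Agent.ROT.U

open HexObs.ART

/-- **(LR3) for `q_d` and the truncations of `q_b`**, no hypothesis -/
theorem lrU (s : Fin 4) : (sideU s).LRall :=
  lrall_U (hd := hd1) (lri_of h3T hd1 (by decide) (h12 hd1 (wnd_wdS _) fun r l z hz => (mem_WdS.1 hz).2.2.2.2.2)) s

theorem capU (s : Fin 4) : (sideU s).CAP := A6.cap_X (capD_of t2SX) s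

/-- **all inputs of `lrw` from (UI) of order 3/2** -/
theorem inpU (h : ∀ s, UI3 (sideU s)) : Inp hexU sideU where
  Q_ge := hexU_Qge
  C_le := hexU_Cle
  lr := lrU
  cap := capU
  ui := h
  sym := hexU_sym
  mass := A6.hx_mass

end Pool.Agent.ROT.U
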