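import Pool.Agent.ROT.A2Defs

/-!
# ROT, universality in the angle (UNIV), side A: the abstract system and the literals (helper53)

Plan: document ROT/UNIV_A_53.  Lattice `k`: angle `b` in all columns `< k`, honeycomb in the columns `≥ k`.
`PSys S` : the honeycomb polygons (tracers), with `Qf` := product of `x(b) y(b)^m` over the caps of the extreme line (used
for the sides `0, 1`), `Cf` := the same for the angle `d = b - 60` (used for the sides `2, 3`).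
`WSys S` : the large loops `w` in the lattices `k`.

* `Near` : near bounds at every position, every lattice (LINE_10);
* `INC` : the exact increment (X side);
* `LRW` : linear response for one honeycomb tracer with an external loop `w`;
* `Step` : lattice `k + 1` is lattice `k` with shifted tracers (from `INC` and `LRW`);
* `Const` : points on the left are class constant;
* `Out` : the result, pointwise.
-/

set_option autoImplicit false

open Finset Filter Topology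

namespace Pool.Agent.ROT.U

open Pool.Agent.ROT.A

/-- **large loops** `w` over the tracers `S` -/
structure WSys (S : PSys) where
  W : Type
  /-- the weight in the lattice `k` (angle `b` in the columns `< k`, honeycomb in the columns `≥ k`) -/
  wt : ℤ → W → ℝ
  /-- the weight in the lattice with the angle `b` everywhere -/
  wb : W → ℝ
  /-- the weight in the honeycomb -/
  wh : W → ℝ
  /-- sites -/
  st : W → Set Z2
  /-- the lattice point is inside -/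
  ip : Z2 → W → Prop
  /-- disjoint -/
  Dj : W → S.P → Prop
  /-- `In v w` : the tracer `v` is inside `w` -/
  In : S.P → W → Prop
  wt_nn : ∀ k w, 0 ≤ wt k w
  /-- `w` wholly in the columns `< k` -/
  wt_b : ∀ k w, (∀ s ∈ st w, s.1 < k) → wt k w = wb w
  /-- `w` wholly in the columns `≥ k` -/
  wt_h : ∀ k w, (∀ s ∈ st w, k ≤ s.1) → wt k w = wh w
  st_fin : ∀ w, (st w).Finite
  /-- an inside point is in the box of the sites -/
  ip_box : ∀ w x, ip x w → (∃ s ∈ st w, s.1 ≤ x.1) ∧ (∃ s ∈ st w, x.1 ≤ s.1) ∧ (∃ s ∈ st w, s.2 ≤ x.2) ∧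
    ∃ s ∈ st w, x.2 ≤ s.2
  /-- between an inside and an outside point there is a site -/
  ip_sep : ∀ w x y, ip x w → ¬ ip y w → ∃ s ∈ st w, min x.1 y.1 - 1 ≤ s.1 ∧ s.1 ≤ max x.1 y.1 + 1 ∧
    min x.2 y.2 - 1 ≤ s.2 ∧ s.2 ≤ max x.2 y.2 + 1
  /-- inside: the box is contained -/
  In_box : ∀ v w, In v w → (∃ s ∈ st w, s.1 ≤ S.ht v 0) ∧ (∃ s ∈ st w, S.ht v 1 ≤ s.1) ∧
    (∃ s ∈ st w, s.2 ≤ S.ht v 2) ∧ ∃ s ∈ st w, S.ht v 3 ≤ s.2
  /-- if `w` has no site in the box of `v` enlarged by one, then they are disjoint and `v` is inside iff its corner is -/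
  sep : ∀ v w, (∀ s ∈ st w, ¬ (S.ht v 0 - 1 ≤ s.1 ∧ s.1 ≤ S.ht v 1 + 1 ∧ S.ht v 2 - 1 ≤ s.2 ∧ s.2 ≤ S.ht v 3 + 1)) →
    Dj w v ∧ (In v w ↔ ip (S.ht v 0, S.ht v 2) w)

namespace WSys

variable {S : PSys} (X : WSys S)

/-- `w` has two sites at (sup norm) distance `≥ D` -/
def Ext (D : ℝ) (w : X.W) : Prop := ∃ s ∈ X.st w, ∃ t ∈ X.st w, D ≤ |(s.1 : ℝ) - t.1| ∨ D ≤ |(s.2 : ℝ) - t.2|

/-- `w` has a site at (sup norm) distance `≤ ρ` of `x` -/
def Nr (ρ : ℝ) (x : Z2) (w : X.W) : Prop := ∃ s ∈ X.st w, |(s.1 : ℝ) - x.1| ≤ ρ ∧ |(s.2 : ℝ) - x.2| ≤ ρ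

open Classical in
/-- the mass of the loops of extent `≥ D` with a site within `ρ` of `x` -/
noncomputable def near (g : X.W → ℝ) (D ρ : ℝ) (x : Z2) : ENNReal :=
  ∑' w : X.W, if X.Ext D w ∧ X.Nr ρ x w then ENNReal.ofReal (g w) else 0

/-- **(NEAR)**: uniformly in the lattice and the position -/
def Near : Prop :=
  ∀ d ε : ℝ, 0 < d → 0 < ε → ∃ η : ℝ, 0 < η ∧ ∀ᶠ N : ℕ in atTop, ∀ (k : ℤ) (x : Z2),
    X.near (X.wt k) (d * N) (η * N) x ≤ ENNReal.ofReal ε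

/-! ### objects: points and tracers -/

open Classical in
/-- the factor of an object (a point or a weight function of a tracer) with the pattern `b` -/
noncomputable def fac (n : ℕ) (w : X.W) (b : Bool) : Z2 ⊕ (S.P → ℝ) → ℝ
  | .inl x => if X.ip x w ↔ b = true then 1 else 0
  | .inr f => ∑ v ∈ S.box n, if X.Dj w v ∧ (X.In v w ↔ b = true) then S.M v * f v else 0

variable {m : ℕ}

/-- **the pattern function** of objects, weight `g` of `w` -/
noncomputable def PO (g : X.W → ℝ) (n : ℕ) (π : Fin m → Bool) (o : Fin m → Z2 ⊕ (S.P → ℝ)) : ℝ :=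
  ∑' w : X.W, g w * ∏ i, X.fac n w (π i) (o i)

open Classical in
/-- the pattern function of points -/
noncomputable def PX (g : X.W → ℝ) (π : Fin m → Bool) (x : Fin m → Z2) : ℝ :=
  ∑' w : X.W, if ∀ i, X.ip (x i) w ↔ π i = true then g w else 0

/-- the summable version -/
def SX (g : X.W → ℝ) (π : Fin m → Bool) (x : Fin m → Z2) : Prop :=
  Summable fun w : X.W => by classical exact if ∀ i, X.ip (x i) w ↔ π i = true then g w else 0

end WSys

/-! ### test functions of one tracer -/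

/-- bounded, with bounded first and second differences, support: heights in `[-K, K]`, extents `≥ δ` -/
structure Tf1 (K δ Λ : ℝ) (G : (Fin 4 → ℝ) → ℝ) : Prop where
  bd : ∀ y, |G y| ≤ Λ
  lip : ∀ y z, |G (y + z) - G y| ≤ Λ * ‖z‖
  lip2 : ∀ y z z', |G (y + z + z') - G (y + z) - G (y + z') + G y| ≤ Λ * ‖z‖ * ‖z'‖
  sup : ∀ y, G y ≠ 0 → (∀ u, |y u| ≤ K) ∧ δ ≤ y 1 - y 0 ∧ δ ≤ y 3 - y 2

/-- Lipschitz and bounded, same support -/
structure Tf0 (K δ Λ : ℝ) (G : (Fin 4 → ℝ) → ℝ) : Prop where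
  bd : ∀ y, |G y| ≤ Λ
  lip : ∀ y z, |G (y + z) - G y| ≤ Λ * ‖z‖
  sup : ∀ y, G y ≠ 0 → (∀ u, |y u| ≤ K) ∧ δ ≤ y 1 - y 0 ∧ δ ≤ y 3 - y 2

/-- the difference in the side `u` (step `1 / N`) -/
noncomputable def D1 (N : ℕ) (u : Fin 4) (G : (Fin 4 → ℝ) → ℝ) (y : Fin 4 → ℝ) : ℝ :=
  G (y + Pi.single u (1 / (N : ℝ))) - G y

namespace WSys

variable {S : PSys} (X : WSys S) {m : ℕ}

/-- the tracer with the test function `G` -/
noncomputable def tr (S : PSys) (N : ℕ) (G : (Fin 4 → ℝ) → ℝ) : Z2 ⊕ (S.P → ℝ) := .inr fun v => G (S.hN N v)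

/-- **the response** of one tracer, columns (sides `0, 1`) -/
noncomputable def rC (S : PSys) (N : ℕ) (G : (Fin 4 → ℝ) → ℝ) (v : S.P) : ℝ :=
  -((S.Qf v 0 - 1) * D1 N 0 G (S.hN N v) + (S.Qf v 1 - 1) * D1 N 1 G (S.hN N v))

/-- **the response** of one tracer, rows (sides `2, 3`) -/
noncomputable def rR (S : PSys) (N : ℕ) (G : (Fin 4 → ℝ) → ℝ) (v : S.P) : ℝ :=
  S.Cf v 2 * D1 N 2 G (S.hN N v) + S.Cf v 3 * D1 N 3 G (S.hN N v)

/-- the objects: tracers `G i` for `i ∈ J`, points `x i` for the others -/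
noncomputable def ob (S : PSys) (N : ℕ) (J : Finset (Fin m)) (G : Fin m → (Fin 4 → ℝ) → ℝ) (x : Fin m → Z2) :
    Fin m → Z2 ⊕ (S.P → ℝ) := fun i => if i ∈ J then tr S N (G i) else .inl (x i)

/-- **admissible objects** in the lattice `k`: points at columns `≤ k` in the box `K N`, tracers at distance `≥ κ N` right of
the interface, the columns of different objects at distance `≥ d N` -/
structure Adm (N : ℕ) (K δ Λ κ d : ℝ) (k : ℤ) (J : Finset (Fin m)) (G : Fin m → (Fin 4 → ℝ) → ℝ)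
    (x : Fin m → Z2) : Prop where
  kk : |(k : ℝ)| ≤ K * N
  pt : ∀ i, i ∉ J → (x i).1 ≤ k ∧ |((x i).1 : ℝ)| ≤ K * N ∧ |((x i).2 : ℝ)| ≤ K * N
  tf : ∀ i ∈ J, Tf1 K δ Λ (G i)
  nn : ∀ i ∈ J, ∀ y, 0 ≤ G i y
  rt : ∀ i ∈ J, ∀ y, G i y ≠ 0 → k / N + κ ≤ y 0
  pp : ∀ i j, i ∉ J → j ∉ J → i ≠ j → d * N ≤ |((x i).1 : ℝ) - (x j).1|
  tt : ∀ i ∈ J, ∀ j ∈ J, i ≠ j → ∀ y z, G i y ≠ 0 → G j z ≠ 0 → y 1 + d ≤ z 0 ∨ z 1 + d ≤ y 0

/-- **(INC)**, X side: the exact increment with all errors: columns in the lattice `k`, rows in the lattice `k + 1` -/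
def INC : Prop :=
  ∀ (m : ℕ) (π : Fin m → Bool) (K δ Λ κ d ε : ℝ), PSys.NT π → 0 < δ → 0 < κ → 0 < d → 0 < ε → ∃ N0 : ℕ, ∀ N : ℕ,
    N0 ≤ N → ∀ (k : ℤ) (n : ℕ) (J : Finset (Fin m)) (G : Fin m → (Fin 4 → ℝ) → ℝ) (x : Fin m → Z2),
    (K + 1) * N ≤ n → Adm N K δ Λ κ d k J G x →
    |X.PO (X.wt (k + 1)) n π (ob S N J G x) - X.PO (X.wt k) n π (ob S N J G x) -
      ∑ i ∈ J, (X.PO (X.wt k) n π (Function.update (ob S N J G x) i (.inr (rC S N (G i)))) +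
        X.PO (X.wt (k + 1)) n π (Function.update (ob S N J G x) i (.inr (rR S N (G i)))))| ≤ ε / N

/-- **(LRW)**: one honeycomb tracer with external `w`: the responses may be replaced by the constants `a N` (`Qf`, sides
`0, 1`) and `b N` (`Cf`, sides `2, 3`) -/
def LRW (a b : ℕ → ℝ) : Prop :=
  ∀ (m : ℕ) (π : Fin m → Bool) (K δ Λ κ d ε : ℝ), PSys.NT π → 0 < δ → 0 < κ → 0 < d → 0 < ε → ∃ N0 : ℕ, ∀ N : ℕ,
    N0 ≤ N → ∀ (k : ℤ) (n : ℕ) (J : Finset (Fin m)) (G : Fin m → (Fin 4 → ℝ) → ℝ) (x : Fin m → Z2),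
    (K + 1) * N ≤ n → Adm N K δ Λ κ d k J G x → ∀ i ∈ J, ∀ θ : (Fin 4 → ℝ) → ℝ, Tf0 K δ Λ θ →
    (∀ y, θ y ≠ 0 → k / N + κ ≤ y 0) →
    (∀ j ∈ J, j ≠ i → ∀ y z, θ y ≠ 0 → G j z ≠ 0 → y 1 + d ≤ z 0 ∨ z 1 + d ≤ y 0) → ∀ l : ℤ, (l = k ∨ l = k + 1) →
    (∀ u : Fin 4, (u = 0 ∨ u = 1) → |X.PO (X.wt l) n π (Function.update (ob S N J G x) i
      (.inr fun v => (S.Qf v u - a N) * θ (S.hN N v)))| ≤ ε) ∧
    (∀ u : Fin 4, (u = 2 ∨ u = 3) → |X.PO (X.wt l) n π (Function.update (ob S N J G x) i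
      (.inr fun v => (S.Cf v u - b N) * θ (S.hN N v)))| ≤ ε)

/-- the shift of the heights of one step -/
noncomputable def sh (N : ℕ) (a b : ℝ) : Fin 4 → ℝ := ![-(a - 1) / N, -(a - 1) / N, b / N, b / N]

/-- **(Step)**: the lattice `k + 1` is the lattice `k` with the tracers shifted -/
def Step (a b : ℕ → ℝ) : Prop :=
  ∀ (m : ℕ) (π : Fin m → Bool) (K δ Λ κ d ε : ℝ), PSys.NT π → 0 < δ → 0 < κ → 0 < d → 0 < ε → ∃ N0 : ℕ, ∀ N : ℕ,
    N0 ≤ N → ∀ (k : ℤ) (n : ℕ) (J : Finset (Fin m)) (G : Fin m → (Fin 4 → ℝ) → ℝ) (x : Fin m → Z2),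
    (K + 1) * N ≤ n → Adm N K δ Λ κ d k J G x → Adm N K δ Λ κ d k J (fun i y => G i (y + sh N (a N) (b N))) x →
    |X.PO (X.wt (k + 1)) n π (ob S N J G x) -
      X.PO (X.wt k) n π (ob S N J (fun i y => G i (y + sh N (a N) (b N))) x)| ≤ ε / N

/-- **(Const)**: points left of the interface are class constant (two of the inside points have column distance `≥ 3`) -/
def Const : Prop :=
  ∀ (m : ℕ) (π : Fin m → Bool) (x : Fin m → Z2) (k : ℤ), (∀ i, (x i).1 ≤ k) →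
    (∃ i j, π i = true ∧ π j = true ∧ (x i).1 + 3 ≤ (x j).1) → X.SX (X.wt k) π x → X.SX (X.wt (k + 1)) π x →
    X.PX (X.wt (k + 1)) π x = X.PX (X.wt k) π x

/-- the honeycomb loops `w` are the polygons of `S` -/
def Hon : Prop := ∀ (m : ℕ) (π : Fin m → Bool) (x : Fin m → Z2), PSys.NT π → X.PX X.wh π x = S.Pf π x

/-- the linear map in lattice points (`Dz` of UId41) -/
noncomputable def DN (a b : ℝ) (x : Z2) : Z2 := (⌊a * x.1⌋, x.2 + ⌊b * x.1⌋)

/-- **the result, pointwise**: patterns of the `b` lattice at `x` = patterns of the honeycomb at `D x` -/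
def Out (a b : ℕ → ℝ) : Prop :=
  ∀ (m : ℕ) (π : Fin m → Bool) (R d ε : ℝ), PSys.NT π → 0 < d → 0 < ε → ∃ N0 : ℕ, ∀ N : ℕ, N0 ≤ N →
    ∀ x : Fin m → Z2, (∀ i, ‖PSys.xN N x i‖ ≤ R) → (∀ i k, i ≠ k → d ≤ ‖PSys.xN N x i - PSys.xN N x k‖) →
    |X.PX X.wb π x - S.Pf π fun i => DN (a N) (-(b N)) (x i)| ≤ ε

end WSys

end Pool.Agent.ROT.U
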