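import Pool.Agent.ROT.UEq41
import Pool.Agent.WX.SLogX
import Pool.Agent.WX.Planar

/-!
# ROT, universality, row ID (helper41): the linear map of the flow between the two lattices

From the near bound `NearM W` (98) with the honeycomb in `W` and the flow of the three point masses: `α → 2 / √3`, `β → - 1 / √3`,
and the flow of every pattern with the limit map.
-/

set_option autoImplicit false

namespace Pool.Agent.ROT.UId

open Filter Topology
open Pool.Agent.ROT.E (Pt)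
open Pool.Agent.ROT.U (Pn hc NearM)

noncomputable section

variable {W : Set (ℤ → ℝ)}

/-- **positivity for the honeycomb, no hypothesis but the near bound** -/
theorem pos_hex (hN : NearM W) (hu : hc ∈ W) : Pos3 (Pu hc (![1, 1, 0] : Fin 3 → ZMod 2)) := by
  have h := pos_of (WX.mass_log WX.sLog) hN hu
  rwa [show Pn (Real.pi / 8) (![1, 1, 0] : Fin 3 → ZMod 2) = Pu hc (![1, 1, 0] : Fin 3 → ZMod 2) from
    funext fun x => Pn_eq le_rfl (by linarith [Real.pi_pos]) _ x] at h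

/-- `Pu` of the honeycomb has the rotation of order six -/
theorem Pu_J6 {m : ℕ} (τ : Fin m → ZMod 2) (x : Fin m → Pt) : Pu hc τ (fun i => J6 (x i)) = Pu hc τ x := by
  have e : ∀ y : Fin m → Pt, Pn (Real.pi / 8) τ y = Pu hc τ y := fun y => Pn_eq le_rfl (by linarith [Real.pi_pos]) τ y
  rw [← e, ← e]
  exact Pn_J6 τ x

/-- `Pu` of the right angle has the rotation of order four -/
theorem Pu_J4 {m : ℕ} (τ : Fin m → ZMod 2) (x : Fin m → Pt) :
    Pu (fun _ => 3 * Real.pi / 16) τ (fun i => J4 (x i)) = Pu (fun _ => 3 * Real.pi / 16) τ x := by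
  have e : ∀ y : Fin m → Pt, Pn (3 * Real.pi / 16) τ y = Pu (fun _ => 3 * Real.pi / 16) τ y := fun y =>
    Pn_eq (by linarith [Real.pi_pos]) (by linarith [Real.pi_pos]) τ y
  rw [← e, ← e]
  exact Pn_J4 τ x

/-- **ID: the linear map of the flow from the right angle to the honeycomb** -/
theorem id90 (hN : NearM W) (hu : hc ∈ W) {α β : ℕ → ℝ} {A : ℝ} (h1 : ∀ n, 1 ≤ α n) (hA : ∀ n, α n ≤ A) (hB : ∀ n, |β n| ≤ A)
    (hF : Flow (Pu (fun _ => 3 * Real.pi / 16) (![1, 1, 0] : Fin 3 → ZMod 2)) (Pu hc (![1, 1, 0] : Fin 3 → ZMod 2)) α β) :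
    Tendsto α atTop (𝓝 (2 / Real.sqrt 3)) ∧ Tendsto β atTop (𝓝 (-(1 / Real.sqrt 3))) :=
  id_lim h1 hA hB hF (Pu_J4 _) (Pu_J6 _) (equi_of hN hu (i0 := 0) (j0 := 1) (k0 := 2) (by decide) rfl rfl rfl)
    (close_of hN hu) (pos_hex hN hu)

/-- **the flow of a pattern with the limit map** -/
theorem flow90 (hN : NearM W) (hu : hc ∈ W) {α β : ℕ → ℝ} {A : ℝ} (h1 : ∀ n, 1 ≤ α n) (hA : ∀ n, α n ≤ A) (hB : ∀ n, |β n| ≤ A)
    (hF : Flow (Pu (fun _ => 3 * Real.pi / 16) (![1, 1, 0] : Fin 3 → ZMod 2)) (Pu hc (![1, 1, 0] : Fin 3 → ZMod 2)) α β)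
    {m : ℕ} {τ : Fin m → ZMod 2} {i0 j0 k0 : Fin m} (hij : i0 ≠ j0) (hi : τ i0 = 1) (hj : τ j0 = 1) (hk : τ k0 = 0)
    (hG : Flow (Pu (fun _ => 3 * Real.pi / 16) τ) (Pu hc τ) α β) :
    Flow (Pu (fun _ => 3 * Real.pi / 16) τ) (Pu hc τ) (fun _ => 2 / Real.sqrt 3) (fun _ => -(1 / Real.sqrt 3)) :=
  flow_lim h1 hA hB hG (equi_of hN hu hij hi hj hk) (id90 hN hu h1 hA hB hF).1 (id90 hN hu h1 hA hB hF).2

end

end Pool.Agent.ROT.UId
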