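import Pool.Agent.ROT.UFlowDefs
import Pool.Agent.ROT.UIdF41

/-!
# ROT, universality, row ID (helper41): from the result of the flow (`WSys.Out`, 53) to `Flow` and to the limit map
-/

set_option autoImplicit false

namespace Pool.Agent.ROT.UId

open Filter Topology
open Pool.Agent.ROT.E (Pt)
open Pool.Agent.ROT.U (hc NearM)
open Pool.Agent.ROT.A (PSys)

noncomputable section

/-- **`Out` gives `Flow`** -/
theorem flow_of_out {S : PSys} {X : U.WSys S} {a b : ℕ → ℝ} (h : X.Out a b) {m : ℕ} {π : Fin m → Bool} (hπ : PSys.NT π)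
    {Pb Ph : (Fin m → ℤ × ℤ) → ℝ} (hb : ∀ x, X.PX X.wb π x = Pb x) (hh : ∀ x, S.Pf π x = Ph x) :
    Flow Pb Ph a (fun n => -(b n)) := by
  intro R d ε hR hd hε
  obtain ⟨N0, hN0⟩ := h m π R d ε hπ hd hε
  refine ⟨max N0 1, fun N hN x hx hs => ?_⟩
  have hN1 : 1 ≤ N := (le_max_right _ _).trans hN
  have hNr : (0 : ℝ) < N := by exact_mod_cast hN1
  have e : ∀ y : ℤ × ℤ, ‖((y.1 : ℝ) / N, (y.2 : ℝ) / N)‖ = ‖y‖ / N := fun y => by
    rw [Prod.norm_def, nZ]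
    simp only [Real.norm_eq_abs, abs_div, abs_of_pos hNr]
    rw [max_div_div_right hNr.le]
  have h1 := hN0 N ((le_max_left _ _).trans hN) x (fun i => ?_) fun i k hik => ?_
  · rw [hb, hh] at h1
    exact h1
  · show ‖((((x i).1 : ℤ) : ℝ) / N, (((x i).2 : ℤ) : ℝ) / N)‖ ≤ R
    rw [e, div_le_iff₀ hNr]
    exact hx i
  · show d ≤ ‖((((x i).1 : ℤ) : ℝ) / N, (((x i).2 : ℤ) : ℝ) / N) - ((((x k).1 : ℤ) : ℝ) / N, (((x k).2 : ℤ) : ℝ) / N)‖
    rw [show ((((x i).1 : ℤ) : ℝ) / N, (((x i).2 : ℤ) : ℝ) / N) - ((((x k).1 : ℤ) : ℝ) / N, (((x k).2 : ℤ) : ℝ) / N) =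
      ((((x i - x k).1 : ℤ) : ℝ) / N, (((x i - x k).2 : ℤ) : ℝ) / N) by
        refine Prod.ext ?_ ?_
        · show ((x i).1 : ℝ) / N - (x k).1 / N = (((x i).1 - (x k).1 : ℤ) : ℝ) / N
          push_cast
          ring
        · show ((x i).2 : ℝ) / N - (x k).2 / N = (((x i).2 - (x k).2 : ℤ) : ℝ) / N
          push_cast
          ring, e, le_div_iff₀ hNr]
    exact hs i k hik

/-- the pattern of classes as a pattern of sides -/
def tz {m : ℕ} (π : Fin m → Bool) : Fin m → ZMod 2 := fun i => if π i then 1 else 0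

/-- **the end of the flow**: `Out` for the right angle gives the values of the map and the comparison of all patterns -/
theorem out90 {W : Set (ℤ → ℝ)} (hN : NearM W) (hu : hc ∈ W) {S : PSys} {X : U.WSys S} {a b : ℕ → ℝ} {A : ℝ}
    (h1 : ∀ n, 1 ≤ a n) (hA : ∀ n, a n ≤ A) (hB : ∀ n, |b n| ≤ A) (h : X.Out a b)
    (hb : ∀ (m : ℕ) (π : Fin m → Bool) (x : Fin m → Pt), PSys.NT π →
      X.PX X.wb π x = Pu (fun _ => 3 * Real.pi / 16) (tz π) x)
    (hh : ∀ (m : ℕ) (π : Fin m → Bool) (x : Fin m → Pt), PSys.NT π → S.Pf π x = Pu hc (tz π) x) :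
    Tendsto a atTop (𝓝 (2 / Real.sqrt 3)) ∧ Tendsto b atTop (𝓝 (1 / Real.sqrt 3)) ∧
      ∀ (m : ℕ) (π : Fin m → Bool), PSys.NT π →
        Flow (Pu (fun _ => 3 * Real.pi / 16) (tz π)) (Pu hc (tz π)) (fun _ => 2 / Real.sqrt 3) (fun _ => -(1 / Real.sqrt 3)) := by
  have hB' : ∀ n, |(fun n => -(b n)) n| ≤ A := fun n => by
    show |-(b n)| ≤ A
    rw [abs_neg]
    exact hB n
  have hF : Flow (Pu (fun _ => 3 * Real.pi / 16) (![1, 1, 0] : Fin 3 → ZMod 2)) (Pu hc (![1, 1, 0] : Fin 3 → ZMod 2)) a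
      (fun n => -(b n)) := by
    have hπ : PSys.NT (![true, true, false] : Fin 3 → Bool) :=
      ⟨⟨0, 1, by decide, rfl, rfl⟩, 2, rfl⟩
    have e : tz (![true, true, false] : Fin 3 → Bool) = (![1, 1, 0] : Fin 3 → ZMod 2) := by
      funext i
      fin_cases i <;> rfl
    rw [← e]
    exact flow_of_out h hπ (fun x => hb 3 _ x hπ) fun x => hh 3 _ x hπ
  obtain ⟨k1, k2⟩ := id90 hN hu h1 hA hB' hF
  refine ⟨k1, ?_, fun m π hπ => ?_⟩
  · have := k2.neg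
    simpa using this
  · obtain ⟨⟨i, j, hij, hi, hj⟩, k, hk⟩ := hπ
    exact flow90 (k0 := k) hN hu h1 hA hB' hF hij (by simp [tz, hi]) (by simp [tz, hj]) (by simp [tz, hk])
      (flow_of_out h ⟨⟨i, j, hij, hi, hj⟩, k, hk⟩ (fun x => hb m π x ⟨⟨i, j, hij, hi, hj⟩, k, hk⟩)
        fun x => hh m π x ⟨⟨i, j, hij, hi, hj⟩, k, hk⟩)

end

end Pool.Agent.ROT.UId
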