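import Pool.Agent.ROT.UHex
import Pool.Agent.ROT.UPF
import Pool.Agent.ROT.UFlowDefs
import Pool.Agent.ROT.UOutF41

/-!
# ROT, universality, side A: the instance of the abstract system (helper41, helper21)

* **`instU : WSys hexU`** : `W` = the loops of all lattices (`E.Lp`), `wt k` = weight in the lattice `lat bb k`;
* `PX_eq` : the pattern functions are the masses of the patterns (`Pu`);
* **`nearU`** (from `NearM`), **`constU`** (from `LawL`), **`honU`**, and the two identities for `out90`.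
-/

set_option autoImplicit false

namespace Pool.Agent.ROT.U

open Filter MeasureTheory
open scoped ENNReal
open Pool.Agent.UNI (wR)
open Pool.Agent.ROT.E (Cell Pt Cfg An io)
open Pool.Agent.ROT.E.Hx (HL Ny hs)
open Pool.Agent.ROT.I (Lps)
open Pool.Agent.ROT.A6 (HLs hexP Ins mem_supp)
open Pool.Agent.ROT.UId (Pu Pat above below left right muU_apply Pn_eq Pn_hex tz)

noncomputable section

lemma bb_ge : Real.pi / 8 ≤ bb := by unfold bb; linarith [Real.pi_pos]

lemma bb_le : bb ≤ Real.pi / 4 := by unfold bb; linarith [Real.pi_pos]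

lemma an_lat (k : ℤ) : An (lat bb k) := fun j => by
  unfold lat
  split_ifs
  · exact ⟨bb_ge, bb_le⟩
  · exact ⟨le_rfl, by linarith [Real.pi_pos]⟩

/-- the weight depends on the angles of the columns of the loop only -/
theorem MU_cols {u u' : ℤ → ℝ} {γ : Cfg} (h : ∀ s ∈ γ.support, u s.1 = u' s.1) : MU u γ = MU u' γ :=
  Finset.prod_congr rfl fun s hs => by
    show (γ s).wt (wR (u s.1)) = (γ s).wt (wR (u' s.1))
    rw [h s hs]

/-- **the loops of the lattices of the flow over the honeycomb tracers** -/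
def instU : WSys hexU where
  W := Lps
  wt k w := MU (lat bb k) w.1
  wb w := MU (fun _ => bb) w.1
  wh w := MU hc w.1
  st w := {v | v ∈ w.1.support}
  ip x w := E.sg w.1 x.1 x.2 = 1
  Dj w v := Disjoint (hs w.1) (hs v.1)
  In v w := Ins v.1 w.1
  wt_nn k w := Ln.MU_nonneg (an_lat k) _
  wt_b k w h := MU_cols fun s hs => by
    unfold lat
    rw [if_pos (h s hs)]
  wt_h k w h := MU_cols fun s hs => by
    unfold lat hc
    rw [if_neg (not_lt.2 (h s hs))]
  st_fin w := w.1.support.finite_toSet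
  ip_box w x h := by
    have hm := w.2.mt
    have h1 : E.sg w.1 x.1 x.2 ≠ 0 := by rw [h]; decide
    obtain ⟨a, a1, a2, a3⟩ := left hm h1
    obtain ⟨b, b1, b2, b3⟩ := right hm h1
    obtain ⟨c, c1, c2, c3⟩ := below hm h1
    obtain ⟨d, d1, d2, d3⟩ := above h1
    exact ⟨⟨a, Finsupp.mem_support_iff.2 a1, a3.le⟩, ⟨b, Finsupp.mem_support_iff.2 b1, b3⟩,
      ⟨c, Finsupp.mem_support_iff.2 c1, c3.le⟩, d, Finsupp.mem_support_iff.2 d1, d3⟩
  ip_sep w x y hx hy := A6.sg_sep w.2.mt fun e => hy (e ▸ hx)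
  In_box v w h := by
    obtain ⟨h0, h1, h2, h3⟩ := ins_boxE (v := v) w.2 h
    have hn := supp_neE w.2
    obtain ⟨a, a1, a2⟩ := L.hL_mem hn
    obtain ⟨b, b1, b2⟩ := L.hR_mem hn
    obtain ⟨c, c1, c2⟩ := L.hB_mem hn
    obtain ⟨d, d1, d2⟩ := L.hT_mem hn
    rw [A6.hc0] at h0
    rw [A6.hc1 w.1] at h1
    rw [A6.hc2] at h2
    rw [A6.hc3 w.1] at h3
    refine ⟨⟨a, a1, ?_⟩, ⟨b, b1, ?_⟩, ⟨c, c1, ?_⟩, d, d1, ?_⟩
    · show a.1 ≤ A6.hc v.1 0
      rw [a2]
      exact h0
    · show A6.hc v.1 1 ≤ b.1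
      rw [b2]
      exact h1
    · show c.2 ≤ A6.hc v.1 2
      rw [c2]
      exact h2
    · show A6.hc v.1 3 ≤ d.2
      rw [d2]
      exact h3
  sep v w h := by
    obtain ⟨⟨-, h1⟩, h2, -⟩ := sepE (v := v) w.2 h
    exact ⟨h1, h2⟩

/-! ### the pattern functions -/

lemma pat_iff {m : ℕ} {π : Fin m → Bool} {x : Fin m → Pt} {w : Lps} :
    (∀ i, instU.ip (x i) w ↔ π i = true) ↔ w ∈ Pat (tz π) x := by
  refine forall_congr' fun i => ?_
  show (E.sg w.1 (x i).1 (x i).2 = 1 ↔ π i = true) ↔ E.sg w.1 (x i).1 (x i).2 = tz π i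
  unfold tz
  generalize E.sg w.1 (x i).1 (x i).2 = a
  generalize π i = b
  revert a b
  decide

/-- **the pattern functions are the masses of the patterns** -/
theorem PX_eq (u : ℤ → ℝ) (hu : ∀ w : Lps, 0 ≤ MU u w.1) {m : ℕ} (π : Fin m → Bool) (x : Fin m → Pt) :
    instU.PX (fun w => MU u w.1) π x = Pu u (tz π) x := by
  classical
  have hne : ∀ γ : Lps, (Pat (tz π) x).indicator (fun γ => ENNReal.ofReal (MU u γ.1)) γ ≠ ∞ := fun γ => by
    by_cases h : γ ∈ Pat (tz π) x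
    · rw [Set.indicator_of_mem h]
      exact ENNReal.ofReal_ne_top
    · rw [Set.indicator_of_notMem h]
      exact ENNReal.zero_ne_top
  unfold Pu
  rw [muU_apply, ENNReal.tsum_toReal_eq hne]
  have key : ∀ w : Lps, (if ∀ i, instU.ip (x i) w ↔ π i = true then MU u w.1 else 0) =
      ((Pat (tz π) x).indicator (fun γ => ENNReal.ofReal (MU u γ.1)) w).toReal := by
    intro w
    by_cases h : w ∈ Pat (tz π) x
    · rw [if_pos (pat_iff.2 h), Set.indicator_of_mem h, ENNReal.toReal_ofReal (hu w)]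
    · rw [if_neg fun hc => h (pat_iff.1 hc), Set.indicator_of_notMem h]
      rfl
  exact tsum_congr key

theorem PX_wt (k : ℤ) {m : ℕ} (π : Fin m → Bool) (x : Fin m → Pt) :
    instU.PX (instU.wt k) π x = Pu (lat bb k) (tz π) x := PX_eq _ (fun _ => Ln.MU_nonneg (an_lat k) _) π x

/-- input `hb` of `out90` -/
theorem PX_wb {m : ℕ} (π : Fin m → Bool) (x : Fin m → Pt) :
    instU.PX instU.wb π x = Pu (fun _ => 3 * Real.pi / 16) (tz π) x :=
  PX_eq (fun _ => bb) (fun _ => Ln.MU_nonneg (fun _ => ⟨bb_ge, bb_le⟩) _) π x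

theorem PX_wh {m : ℕ} (π : Fin m → Bool) (x : Fin m → Pt) : instU.PX instU.wh π x = Pu hc (tz π) x :=
  PX_eq hc (fun _ => Ln.MU_nonneg (fun _ => ⟨le_rfl, by linarith [Real.pi_pos]⟩) _) π x

/-- input `hh` of `out90` -/
theorem Pf_eq {m : ℕ} (π : Fin m → Bool) (x : Fin m → Pt) : hexU.Pf π x = Pu hc (tz π) x := by
  classical
  have e : Pu hc (tz π) x = U.Pn (Real.pi / 8) (tz π) x := (Pn_eq le_rfl (by linarith [Real.pi_pos]) _ x).symm
  rw [e, Pn_hex]
  unfold A.PSys.Pf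
  refine tsum_congr fun w => ?_
  have h1 : (∀ i, hexU.ip (x i) w ↔ π i = true) ↔ w.1 ∈ {γ : Cfg | ∀ i, E.sg γ (x i).1 (x i).2 = tz π i} :=
    pat_iff (w := ⟨w.1, w.2.lp⟩)
  by_cases h : w.1 ∈ {γ : Cfg | ∀ i, E.sg γ (x i).1 (x i).2 = tz π i}
  · rw [if_pos (h1.2 h), Set.indicator_of_mem h]
    rfl
  · rw [if_neg fun hc => h (h1.1 hc), Set.indicator_of_notMem h]

/-- **`Hon`** -/
theorem honU : instU.Hon := fun m π x _ => by rw [PX_wh, Pf_eq]

/-! ### locality of the sides, `Const` -/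

/-- the side of a point in a column `≤ k` depends on the cells of the columns `< k` -/
theorem sg_loc {γ γ' : Lps} {k : ℤ} (h : ∀ v : Pt, v.1 < k → γ.1 v = γ'.1 v) {p y : ℤ} (hp : p ≤ k) :
    E.sg γ.1 p y = E.sg γ'.1 p y := by
  classical
  rw [UId.sg_row γ.2.mt, UId.sg_row γ'.2.mt]
  have z : ∀ (δ : Cfg) (v : Pt), v ∉ δ.support → (if v.2 = y ∧ v.1 < p then io δ v .S else 0) = 0 := fun δ v hv => by
    split_ifs
    · exact E.io_supp hv
    · rfl
  rw [Finset.sum_subset (Finset.subset_union_left (s₂ := γ'.1.support)) fun v _ hv => z γ.1 v hv,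
    Finset.sum_subset (Finset.subset_union_right (s₁ := γ.1.support)) fun v _ hv => z γ'.1 v hv]
  refine Finset.sum_congr rfl fun v _ => ?_
  by_cases hv : v.2 = y ∧ v.1 < p
  · rw [if_pos hv, if_pos hv]
    unfold E.io E.oc
    rw [h v (by omega)]
  · rw [if_neg hv, if_neg hv]

/-- **`Const`** from the law of the left part (70) -/
theorem constU (hL : LawL) : instU.Const := by
  rintro m π x k hx ⟨i, j, hi, -, -⟩ _ _
  rw [PX_wt, PX_wt]
  unfold Pu
  congr 1
  refine hL (lat bb (k + 1)) (lat bb k) (an_lat _) (an_lat _) k (fun j hj => ?_) (Pat (tz π) x) (fun γ γ' h hA l => ?_)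
    fun γ hγ => ?_
  · unfold lat
    rw [if_pos (by omega), if_pos hj]
  · rw [← sg_loc h (hx l)]
    exact hA l
  · have h1 : E.sg γ.1 (x i).1 (x i).2 ≠ 0 := by
      rw [hγ i]
      simp [tz, hi]
    obtain ⟨v, h2, -, h3⟩ := left γ.2.mt h1
    have := hx i
    exact ⟨v, h2, by omega⟩

/-! ### `Near` -/

open Classical in
/-- **`Near`** from the near bound (98) -/
theorem nearU (hN : NearM (LatB bb)) : instU.Near := by
  intro d ε hd hε
  obtain ⟨η, hη, N0, h⟩ := hN ε hε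
  refine ⟨η * d / 2, by positivity, ?_⟩
  obtain ⟨M, hM⟩ := exists_nat_ge (max (2 / d) ((|(N0 : ℝ)| + 1) / d))
  refine eventually_atTop.2 ⟨M, fun N hMN k x => ?_⟩
  have h0 : (M : ℝ) ≤ N := by exact_mod_cast hMN
  have h1 : 2 ≤ d * N := by
    have := ((le_max_left _ _).trans hM).trans h0
    rw [div_le_iff₀ hd] at this
    linarith
  have h2 : |(N0 : ℝ)| + 1 ≤ d * N := by
    have := ((le_max_right _ _).trans hM).trans h0
    rw [div_le_iff₀ hd] at this
    linarith
  obtain ⟨n, hn⟩ : ∃ n : ℤ, n = ⌊d * N⌋ := ⟨_, rfl⟩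
  have n1 : (n : ℝ) ≤ d * N := by rw [hn]; exact Int.floor_le _
  have n2 : d * N - 1 < n := by rw [hn]; exact Int.sub_one_lt_floor _
  obtain ⟨r, hr⟩ : ∃ r : ℤ, r = ⌊η * d / 2 * N⌋ := ⟨_, rfl⟩
  have r1 : (r : ℝ) ≤ η * d / 2 * N := by rw [hr]; exact Int.floor_le _
  have e1 : instU.near (instU.wt k) (d * N) (η * d / 2 * N) x =
      muU (lat bb k) {w : Lps | instU.Ext (d * N) w ∧ instU.Nr (η * d / 2 * N) x w} := by
    rw [muU_apply]
    have key : ∀ w : Lps, (if instU.Ext (d * N) w ∧ instU.Nr (η * d / 2 * N) x w then ENNReal.ofReal (instU.wt k w) else 0) =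
        {w : Lps | instU.Ext (d * N) w ∧ instU.Nr (η * d / 2 * N) x w}.indicator
          (fun γ => ENNReal.ofReal (MU (lat bb k) γ.1)) w := by
      intro w
      by_cases hw : instU.Ext (d * N) w ∧ instU.Nr (η * d / 2 * N) x w
      · rw [if_pos hw]
        exact (Set.indicator_of_mem (s := {w : Lps | instU.Ext (d * N) w ∧ instU.Nr (η * d / 2 * N) x w}) hw
          (fun γ => ENNReal.ofReal (MU (lat bb k) γ.1))).symm
      · rw [if_neg hw]
        exact (Set.indicator_of_notMem (s := {w : Lps | instU.Ext (d * N) w ∧ instU.Nr (η * d / 2 * N) x w}) hw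
          (fun γ => ENNReal.ofReal (MU (lat bb k) γ.1))).symm
    exact tsum_congr key
  rw [e1]
  refine (measure_mono ?_).trans (h (lat bb k) (Or.inr (Or.inr ⟨k, rfl⟩)) n ?_ x r ?_)
  · rintro w ⟨⟨s, hs, t, ht, hst⟩, v, hv, v1, v2⟩
    refine ⟨⟨v, Finsupp.mem_support_iff.1 hv, ?_, ?_⟩, ?_⟩
    · rw [hr]
      exact Int.le_floor.2 (by push_cast; exact v1)
    · rw [hr]
      exact Int.le_floor.2 (by push_cast; exact v2)
    · have hs' := Finsupp.mem_support_iff.1 hs
      have ht' := Finsupp.mem_support_iff.1 ht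
      rcases hst with hst | hst
      · have h3 : (n : ℝ) ≤ |((s.1 - t.1 : ℤ) : ℝ)| := by push_cast; linarith
        have h4 : n ≤ |s.1 - t.1| := by exact_mod_cast h3
        rcases le_abs.1 h4 with h5 | h5
        · exact ⟨t, s, ht', hs', Or.inl h5⟩
        · exact ⟨s, t, hs', ht', Or.inl (by omega)⟩
      · have h3 : (n : ℝ) ≤ |((s.2 - t.2 : ℤ) : ℝ)| := by push_cast; linarith
        have h4 : n ≤ |s.2 - t.2| := by exact_mod_cast h3
        rcases le_abs.1 h4 with h5 | h5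
        · exact ⟨t, s, ht', hs', Or.inr h5⟩
        · exact ⟨s, t, hs', ht', Or.inr (by omega)⟩
  · have h3 := le_abs_self (N0 : ℝ)
    have h4 : (N0 : ℝ) ≤ n := by linarith
    exact_mod_cast h4
  · have h3 : d / 2 * N ≤ n := by linarith
    have h4 := mul_le_mul_of_nonneg_left h3 hη.le
    have e : η * d / 2 * N = η * (d / 2 * N) := by ring
    linarith

/-- **the end of side A**: `Out` for the instance gives the map and the comparison of all patterns -/
theorem outU (hN : NearM (LatB bb)) {a b : ℕ → ℝ} {A : ℝ} (h1 : ∀ n, 1 ≤ a n) (hA : ∀ n, a n ≤ A) (hB : ∀ n, |b n| ≤ A)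
    (h : instU.Out a b) : Tendsto a atTop (nhds (2 / Real.sqrt 3)) ∧ Tendsto b atTop (nhds (1 / Real.sqrt 3)) ∧
      ∀ (m : ℕ) (π : Fin m → Bool), Pool.Agent.ROT.A.PSys.NT π → UId.Flow (Pu (fun _ => 3 * Real.pi / 16) (tz π)) (Pu hc (tz π))
        (fun _ => 2 / Real.sqrt 3) (fun _ => -(1 / Real.sqrt 3)) :=
  UId.out90 hN (Or.inr (Or.inl rfl)) h1 hA hB h (fun _ π x _ => PX_wb π x) fun _ π x _ => Pf_eq π x

end

end Pool.Agent.ROT.U
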