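import Pool.Agent.ROT.UiQ
import Pool.Agent.ROT.UHex
import Pool.Agent.ROT.A6M

/-!
# ROT, UNIV, row UI_q (helper19): `UI3` at the sides
-/

set_option autoImplicit false

open Finset

namespace Pool.Agent.ROT.U

open Pool.Agent.ROT.E (Cell Cfg Pt)
open Pool.Agent.ROT.E.Hx (exC exR MassU)
open Pool.Agent.ROT.A6 (HLs hexP wr trE)

/-- **the moment `3/2` of `q_b` at a side** -/
theorem ui3_of (hU : MassU) (s : Fin 4) (X : hexU.Side s) : UI3 X := by
  classical
  obtain ⟨C, hC, h⟩ := uiQ_root hU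
  intro δ K hδ hK
  refine ⟨C / δ ^ 2, 1 / δ, fun N hN => ?_⟩
  have hN0 : 0 < N := lt_of_lt_of_le (by positivity) hN
  have hR : 1 ≤ δ * N := by
    rw [div_le_iff₀ hδ] at hN
    linarith
  have hq : ∀ p : HLs, 0 ≤ wr p * m3 (qx bb p.1 s) := fun p =>
    mul_nonneg (A6.wr_nn p) (m3_nn (zero_le_one.trans (one_le_qb p.2 s)))
  obtain ⟨h1, h2⟩ := h s (δ * N) hR X.rt X.rt_tr
    (fun p => if X.win δ K N p then hexU.M p * m3 (hexU.Qf p s) else 0) (by
      intro p
      split_ifs
      · exact hq p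
      · exact le_rfl) (by
      intro p
      by_cases hw : X.win δ K N p
      · have hb : δ * N ≤ (exC p.1 : ℝ) ∨ δ * N ≤ (exR p.1 : ℝ) := by
          have := hw.2.1
          unfold A.PSys.wd at this
          split_ifs at this with hu
          · exact Or.inl this
          · exact Or.inr this
        rw [if_pos hw, if_pos ⟨hw.1, hb⟩]
        exact le_rfl
      · rw [if_neg hw]
        split_ifs
        · exact hq p
        · exact le_rfl)
  refine ⟨h1, ?_⟩
  have e1 : X.rsum δ K N (fun p => m3 (hexU.Qf p s)) =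
      ∑' p : hexU.P, (if X.win δ K N p then hexU.M p * m3 (hexU.Qf p s) else 0) := rfl
  rw [e1]
  refine h2.trans (le_of_eq ?_)
  rw [mul_pow, div_div]

/-- **`UI3` at the four sides** -/
theorem ui3 (s : Fin 4) : UI3 (sideU s) := ui3_of A6.hx_massU s _

end Pool.Agent.ROT.U
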