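import Pool.Agent.ROT.ULrw
import Pool.Agent.ROT.UExt
import Pool.Agent.ROT.UInp
import Pool.Agent.ROT.UInst
import Pool.Agent.ROT.UiQ3

/-!
# ROT, UNIV, row LRW (helper10): the instance

**`wrelU : WRel instU sideU`**, **`inpHex : Inp hexU sideU`** (no hypothesis, with `ui3` of helper19) and
**`lrwU`** : `NearM (LatB bb)` ⇒ the literal `instU.LRW a b` with bounded constants.
-/

set_option autoImplicit false

namespace Pool.Agent.ROT.U

/-- **large loops do not see the cap** -/
theorem wrelU : WRel instU sideU := by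
  intro u n p p' w hs hq hd
  classical
  have h1 := (extU (decide (instU.In p w))).rel u n p p' w hs hq
    ⟨hd, show _ ↔ _ by rw [decide_eq_true_eq]; exact Iff.rfl⟩
  have h2 : instU.In p' w ↔ decide (instU.In p w) = true := h1.2
  rw [decide_eq_true_eq] at h2
  exact ⟨h1.1, h2.symm⟩

/-- **the inputs of LRW** -/
theorem inpHex : Inp hexU sideU := inpU ui3

/-- **LRW for the lattices of the flow** -/
theorem lrwU (hN : NearM (LatB bb)) : ∃ (A : ℝ) (a b : ℕ → ℝ),
    (∀ N, 1 ≤ a N ∧ a N ≤ A ∧ 0 ≤ b N ∧ b N ≤ 1) ∧ instU.LRW a b :=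
  lrw_W inpHex wrelU (nearU hN)

end Pool.Agent.ROT.U
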