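import Pool.Agent.ROT.UNear0

/-!
# ROT, UNIV, rows N1, N2, MASS (helper98): near bounds for the lattices of the flow

`near_const` : constant angles; `glue` : two lattices glued along a line; `near_lat` : the lattices `lat b k`;
`mass`, `tail` : bounds of the mass of the loops which visit a ball of radius `R0 N` and have extent `≥ d N`, `≥ S N`.
Only hypothesis: the line theorem `Line` (helper70).
-/

set_option autoImplicit false

namespace Pool.Agent.ROT.U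

open MeasureTheory Filter Topology
open Pool.Agent.ROT.E (Cfg Lp An)
open Pool.Agent.ROT.I (Lps mu)
open Pool.Agent.UNI (wR)
open Pool.Agent.YBC (Dir)
open scoped ENNReal

noncomputable section

/-! ### geometry -/

theorem ex_oc {γ : Cfg} {v : ℤ × ℤ} (h : γ v ≠ 0) : ∃ d, E.oc γ (v, d) := by
  have key : ∀ c : E.Cell, c ≠ .o → ∃ d, c.oc d := by decide
  exact key _ h

theorem rv_rv' (h : E.He) : E.rv (E.rv h) = h := by
  obtain ⟨⟨a, b⟩, d⟩ := h
  cases d <;> simp [E.rv, E.nx, Dir.op]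

/-- **a loop which visits both sides of a set crosses its boundary** -/
theorem exit {γ : Cfg} (hγ : Lp γ) {P : Set (ℤ × ℤ)} {v w : ℤ × ℤ} (hv : γ v ≠ 0) (hw : γ w ≠ 0) (hvP : v ∈ P)
    (hwP : w ∉ P) : ∃ h : E.He, h.1 ∈ P ∧ E.oc γ h ∧ (E.rv h).1 ∉ P ∧ E.oc γ (E.rv h) := by
  by_contra H
  push Not at H
  have H' : ∀ h : E.He, h.1 ∈ P → E.oc γ h → (E.rv h).1 ∈ P := by
    intro h h1 h2
    by_contra h3
    exact H h h1 h2 h3 ((hγ.mt h trivial trivial).1 h2)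
  have key : ∀ h k, E.Cn γ Set.univ h k → (h.1 ∈ P ↔ k.1 ∈ P) := by
    intro h k c
    induction c with
    | rel h k l =>
      obtain ⟨ho, -, rfl | ⟨rfl, -⟩⟩ := l
      · exact Iff.rfl
      · refine ⟨fun h1 => H' h h1 ho, fun h1 => ?_⟩
        have := H' (E.rv h) h1 ((hγ.mt h trivial trivial).1 ho)
        rwa [rv_rv'] at this
    | refl h => exact Iff.rfl
    | symm h k _ ih => exact ih.symm
    | trans h k l _ _ ih1 ih2 => exact ih1.trans ih2
  obtain ⟨d, hd⟩ := ex_oc hv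
  obtain ⟨e, he⟩ := ex_oc hw
  exact hwP ((key _ _ (hγ.cn _ _ hd he)).1 hvP)

/-- crossing of a vertical line -/
theorem cross_V {γ : Cfg} (hγ : Lp γ) {c : ℤ} {v w : ℤ × ℤ} (hv : γ v ≠ 0) (hw : γ w ≠ 0) (h1 : v.1 < c)
    (h2 : c ≤ w.1) : ∃ y, E.oc γ ((c, y), .W) ∧ γ (c - 1, y) ≠ 0 ∧ γ (c, y) ≠ 0 := by
  obtain ⟨⟨⟨a, b⟩, d⟩, h3, h4, h5, h6⟩ := exit hγ (P := {v | v.1 < c}) hv hw h1 (by simpa using h2)
  simp only [Set.mem_ofPred_eq] at h3 h5
  cases d
  · have e1 : a = c - 1 := by simp only [E.rv, E.nx] at h5; omega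
    subst e1
    refine ⟨b, ?_, oc_ne h4, ?_⟩
    · simpa [E.rv, E.nx, Dir.op] using h6
    · simpa [E.rv, E.nx] using oc_ne h6
  · simp only [E.rv, E.nx] at h5; omega
  · simp only [E.rv, E.nx] at h5; omega
  · simp only [E.rv, E.nx] at h5; omega

/-- a leg on the row line `c` (between the rows `c - 1` and `c`) in the columns `a, …, b` -/
def LegH (c a b : ℤ) : Set Lps := {γ | ∃ x, a ≤ x ∧ x ≤ b ∧ E.oc γ.1 ((x, c), .S)}

/-- the loop has a vertex in a row `≥ n` -/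
def GeR (n : ℤ) : Set Lps := {γ | ∃ v, γ.1 v ≠ 0 ∧ n ≤ v.2}

/-- the loop has a vertex in a row `≤ n` -/
def LeR (n : ℤ) : Set Lps := {γ | ∃ v, γ.1 v ≠ 0 ∧ v.2 ≤ n}

theorem tp_legH (c a b : ℤ) : eqL E.tpS ⁻¹' (LegH c a b) = LegV c a b := by
  ext γ
  constructor
  · rintro ⟨x, h1, h2, h3⟩
    exact ⟨x, h1, h2, (eqL_oc E.tpS γ ((c, x), .W)).1 h3⟩
  · rintro ⟨x, h1, h2, h3⟩
    exact ⟨x, h1, h2, (eqL_oc E.tpS γ ((c, x), .W)).2 h3⟩

theorem tp_geR (n : ℤ) : eqL E.tpS ⁻¹' (GeR n) = GeC n := by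
  ext γ
  constructor
  · rintro ⟨v, h1, h2⟩
    obtain ⟨w, rfl⟩ := E.tpS.e.surjective v
    exact ⟨w, (eqL_ne E.tpS γ w).1 h1, h2⟩
  · rintro ⟨w, h1, h2⟩
    exact ⟨E.tpS.e w, (eqL_ne E.tpS γ w).2 h1, h2⟩

theorem tp_leR (n : ℤ) : eqL E.tpS ⁻¹' (LeR n) = LeC n := by
  ext γ
  constructor
  · rintro ⟨v, h1, h2⟩
    obtain ⟨w, rfl⟩ := E.tpS.e.surjective v
    exact ⟨w, (eqL_ne E.tpS γ w).1 h1, h2⟩
  · rintro ⟨w, h1, h2⟩
    exact ⟨E.tpS.e w, (eqL_ne E.tpS γ w).2 h1, h2⟩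

/-- the vertical event -/
def EvV (c a b n : ℤ) : Set Lps := LegV c a b ∩ (GeC (c + n) ∪ LeC (c - 1 - n))

/-- the horizontal event -/
def EvH (c a b n : ℤ) : Set Lps := LegH c a b ∩ (GeR (c + n) ∪ LeR (c - 1 - n))

theorem tp_EvH (c a b n : ℤ) : eqL E.tpS ⁻¹' (EvH c a b n) = EvV c a b n := by
  unfold EvH EvV
  rw [Set.preimage_inter, Set.preimage_union, tp_legH, tp_geR, tp_leR]

/-- **vertical segments, every lattice** -/
theorem evV_le (L : Line) (ε : ℝ) (hε : 0 < ε) : ∃ η : ℝ, 0 < η ∧ ∃ N0 : ℤ, ∀ u : ℤ → ℝ, An u → ∀ N : ℤ, N0 ≤ N →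
    ∀ c a b : ℤ, ((b - a : ℤ) : ℝ) ≤ η * N → muU u (EvV c a b N) ≤ ENNReal.ofReal ε := by
  obtain ⟨η, hη, N0, h⟩ := near_h (ε / 2) (half_pos hε)
  refine ⟨η, hη, N0, fun u hu N hN c a b hab => ?_⟩
  have e1 : muU u (LegV c a b ∩ GeC (c + N)) ≤ ENNReal.ofReal (ε / 2) := by
    refine (L.monR u hu c a b N).trans (le_trans (measure_mono ?_) (h hc rfl N hN (c, a) (b - a) hab))
    rintro γ ⟨⟨y, h1, h2, h3⟩, w, hw, h4⟩
    have hv := oc_ne h3
    refine ⟨⟨(c, y), hv, ?_, ?_⟩, (c, y), w, hv, hw, Or.inl ?_⟩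
    · simp only [sub_self, abs_zero]; omega
    · simp only; rw [abs_of_nonneg (by omega)]; omega
    · simp only; omega
  have e2 : muU u (LegV c a b ∩ LeC (c - 1 - N)) ≤ ENNReal.ofReal (ε / 2) := by
    refine (L.monL u hu c a b N).trans (le_trans (measure_mono ?_) (h hc rfl N hN (c, a) (b - a) hab))
    rintro γ ⟨⟨y, h1, h2, h3⟩, w, hw, h4⟩
    have hv := oc_ne h3
    refine ⟨⟨(c, y), hv, ?_, ?_⟩, w, (c, y), hw, hv, Or.inl ?_⟩
    · simp only [sub_self, abs_zero]; omega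
    · simp only; rw [abs_of_nonneg (by omega)]; omega
    · simp only; omega
  unfold EvV
  rw [Set.inter_union_distrib_left]
  refine (measure_union_le _ _).trans ((add_le_add e1 e2).trans_eq ?_)
  rw [← ENNReal.ofReal_add (by positivity) (by positivity), add_halves]

/-- **horizontal segments, constant angle** -/
theorem evH_eq (β : ℝ) (c a b n : ℤ) : muU (fun _ => β) (EvH c a b n) = muU (fun _ => β) (EvV c a b n) := by
  rw [← tp_EvH, muU_tp]

/-- finite covers -/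
theorem muU_list (u : ℤ → ℝ) {δ : ℝ} (hδ : 0 ≤ δ) : ∀ (l : List (Set Lps)) (A : Set Lps),
    (∀ γ ∈ A, ∃ B ∈ l, γ ∈ B) → (∀ B ∈ l, muU u B ≤ ENNReal.ofReal δ) → muU u A ≤ ENNReal.ofReal (l.length * δ) := by
  intro l
  induction l with
  | nil =>
    intro A hA _
    have : A = ∅ := by
      ext γ
      constructor
      · intro h
        obtain ⟨B, hB, -⟩ := hA γ h
        simp at hB
      · exact fun h => h.elim
    rw [this, measure_empty]
    exact bot_le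
  | cons B l ih =>
    intro A hA hB
    have h1 : A ⊆ B ∪ (A \ B) := fun γ h => by
      by_cases h2 : γ ∈ B
      · exact Or.inl h2
      · exact Or.inr ⟨h, h2⟩
    refine (measure_mono h1).trans ((measure_union_le _ _).trans ?_)
    have h2 := ih (A \ B) (fun γ h => by
      obtain ⟨B', h3, h4⟩ := hA γ h.1
      rcases List.mem_cons.1 h3 with rfl | h3
      · exact absurd h4 h.2
      · exact ⟨B', h3, h4⟩) (fun B' h => hB B' (List.mem_cons_of_mem _ h))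
    refine (add_le_add (hB B List.mem_cons_self) h2).trans_eq ?_
    rw [← ENNReal.ofReal_add hδ (by positivity), List.length_cons]
    congr 1
    push_cast
    ring

/-- **the cover of the near event** -/
theorem cover {p : ℤ × ℤ} {r s n N : ℤ} (hr : 0 ≤ r) (hs : 1 ≤ s) (hrs : r ≤ s) (hsn : 4 * s ≤ n) (hnN : 4 * n ≤ N) (γ : Lps)
    (hγ : γ ∈ Vis p r ∩ Ext N) : ∃ B ∈ [EvV (p.1 + r + 1) (p.2 - r) (p.2 + r) s, EvV (p.1 - r) (p.2 - r) (p.2 + r) s,
      EvH (p.2 + r + 1) (p.1 - r) (p.1 + r) s, EvH (p.2 - r) (p.1 - r) (p.1 + r) s,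
      EvV (p.1 + r + 1) (p.2 - 5 * s) (p.2 + 5 * s) n, EvV (p.1 - r) (p.2 - 5 * s) (p.2 + 5 * s) n,
      EvH (p.2 + r + 1) (p.1 - 5 * s) (p.1 + 5 * s) n, EvH (p.2 - r) (p.1 - 5 * s) (p.1 + 5 * s) n], γ ∈ B := by
  obtain ⟨⟨v0, hv0, a0, b0⟩, v, w, hv, hw, h⟩ := hγ
  obtain ⟨p1, p2⟩ := p
  obtain ⟨x0, y0⟩ := v0
  obtain ⟨x1, y1⟩ := v
  obtain ⟨x2, y2⟩ := w
  simp only at a0 b0 h ⊢
  have c1 := abs_le.1 a0
  have c2 := abs_le.1 b0
  by_cases hW : ∃ v w, γ.1 v ≠ 0 ∧ γ.1 w ≠ 0 ∧ 4 * s ≤ w.1 - v.1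
  · by_cases hH : ∃ v w, γ.1 v ≠ 0 ∧ γ.1 w ≠ 0 ∧ 4 * s ≤ w.2 - v.2
    · -- both large
      obtain ⟨⟨a1, a2⟩, ⟨a3, a4⟩, hA, hA', hA2⟩ := hW
      obtain ⟨⟨b1, b2⟩, ⟨b3, b4⟩, hB, hB', hB2⟩ := hH
      simp only at hA2 hB2
      have hex : ∃ w, γ.1 w ≠ 0 ∧ w ∉ {v : ℤ × ℤ | |v.1 - p1| ≤ r ∧ |v.2 - p2| ≤ r} := by
        by_contra hcon
        push Not at hcon
        have h1 := hcon _ hA
        have h2 := hcon _ hA'
        simp only [Set.mem_ofPred_eq, abs_le] at h1 h2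
        omega
      obtain ⟨w', hw', hw'P⟩ := hex
      obtain ⟨⟨⟨x, y⟩, d⟩, h3, h4, h5, h6⟩ := exit γ.2 (P := {v : ℤ × ℤ | |v.1 - p1| ≤ r ∧ |v.2 - p2| ≤ r}) hv0 hw' ⟨a0, b0⟩ hw'P
      simp only [Set.mem_ofPred_eq, abs_le, not_and_or] at h3 h5
      cases d
      · -- E
        have e1 : x = p1 + r := by simp only [E.rv, E.nx] at h5; omega
        refine ⟨EvV (p1 + r + 1) (p2 - r) (p2 + r) s, by simp, ⟨y, by omega, by omega, ?_⟩, ?_⟩
        · simpa [E.rv, E.nx, Dir.op, e1] using h6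
        · by_cases h7 : p1 + r + 1 + s ≤ a3
          · exact Or.inl ⟨(a3, a4), hA', h7⟩
          · exact Or.inr ⟨(a1, a2), hA, by simp only; omega⟩
      · -- N
        have e1 : y = p2 + r := by simp only [E.rv, E.nx] at h5; omega
        refine ⟨EvH (p2 + r + 1) (p1 - r) (p1 + r) s, by simp, ⟨x, by omega, by omega, ?_⟩, ?_⟩
        · simpa [E.rv, E.nx, Dir.op, e1] using h6
        · by_cases h7 : p2 + r + 1 + s ≤ b4
          · exact Or.inl ⟨(b3, b4), hB', h7⟩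
          · exact Or.inr ⟨(b1, b2), hB, by simp only; omega⟩
      · -- W
        have e1 : x = p1 - r := by simp only [E.rv, E.nx] at h5; omega
        refine ⟨EvV (p1 - r) (p2 - r) (p2 + r) s, by simp, ⟨y, by omega, by omega, ?_⟩, ?_⟩
        · rw [e1] at h4; exact h4
        · by_cases h7 : p1 - r + s ≤ a3
          · exact Or.inl ⟨(a3, a4), hA', h7⟩
          · exact Or.inr ⟨(a1, a2), hA, by simp only; omega⟩
      · -- S
        have e1 : y = p2 - r := by simp only [E.rv, E.nx] at h5; omega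
        refine ⟨EvH (p2 - r) (p1 - r) (p1 + r) s, by simp, ⟨x, by omega, by omega, ?_⟩, ?_⟩
        · rw [e1] at h4; exact h4
        · by_cases h7 : p2 - r + s ≤ b4
          · exact Or.inl ⟨(b3, b4), hB', h7⟩
          · exact Or.inr ⟨(b1, b2), hB, by simp only; omega⟩
    · -- height small
      push Not at hH
      have h1 : N ≤ x2 - x1 := by
        rcases h with h | h
        · exact h
        · have := hH _ _ hv hw
          simp only at this
          omega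
      by_cases h2 : 2 * n ≤ x2 - x0
      · obtain ⟨y, h3, h4, h5⟩ := cross_V γ.2 (c := p1 + r + 1) hv0 hw (by simp only; omega) (by simp only; omega)
        have k1 := hH _ _ hv0 h5
        have k2 := hH _ _ h5 hv0
        simp only at k1 k2
        exact ⟨EvV (p1 + r + 1) (p2 - 5 * s) (p2 + 5 * s) n, by simp, ⟨y, by omega, by omega, h3⟩,
          Or.inl ⟨(x2, y2), hw, by simp only; omega⟩⟩
      · obtain ⟨y, h3, h4, h5⟩ := cross_V γ.2 (c := p1 - r) hv hv0 (by simp only; omega) (by simp only; omega)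
        have k1 := hH _ _ hv0 h5
        have k2 := hH _ _ h5 hv0
        simp only at k1 k2
        exact ⟨EvV (p1 - r) (p2 - 5 * s) (p2 + 5 * s) n, by simp, ⟨y, by omega, by omega, h3⟩,
          Or.inr ⟨(x1, y1), hv, by simp only; omega⟩⟩
  · -- width small
    push Not at hW
    have h1 : N ≤ y2 - y1 := by
      rcases h with h | h
      · have := hW _ _ hv hw
        simp only at this
        omega
      · exact h
    by_cases h2 : 2 * n ≤ y2 - y0
    · obtain ⟨⟨⟨x, y⟩, d⟩, h3, h4, h5, h6⟩ := exit γ.2 (P := {v : ℤ × ℤ | v.2 < p2 + r + 1}) hv0 hw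
        (by simp only [Set.mem_ofPred_eq]; omega) (by simp only [Set.mem_ofPred_eq]; omega)
      have k1 := hW _ _ hv0 (oc_ne h4)
      have k2 := hW _ _ (oc_ne h4) hv0
      simp only at k1 k2
      simp only [Set.mem_ofPred_eq, not_lt] at h3 h5
      cases d
      · simp only [E.rv, E.nx] at h5; omega
      · have e1 : y = p2 + r := by simp only [E.rv, E.nx] at h5; omega
        refine ⟨EvH (p2 + r + 1) (p1 - 5 * s) (p1 + 5 * s) n, by simp, ⟨x, by omega, by omega, ?_⟩,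
          Or.inl ⟨(x2, y2), hw, by simp only; omega⟩⟩
        simpa [E.rv, E.nx, Dir.op, e1] using h6
      · simp only [E.rv, E.nx] at h5; omega
      · simp only [E.rv, E.nx] at h5; omega
    · obtain ⟨⟨⟨x, y⟩, d⟩, h3, h4, h5, h6⟩ := exit γ.2 (P := {v : ℤ × ℤ | v.2 < p2 - r}) hv hv0
        (by simp only [Set.mem_ofPred_eq]; omega) (by simp only [Set.mem_ofPred_eq]; omega)
      have k1 := hW _ _ hv0 (oc_ne h4)
      have k2 := hW _ _ (oc_ne h4) hv0
      simp only at k1 k2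
      simp only [Set.mem_ofPred_eq, not_lt] at h3 h5
      cases d
      · simp only [E.rv, E.nx] at h5; omega
      · have e1 : y = p2 - r - 1 := by simp only [E.rv, E.nx] at h5; omega
        refine ⟨EvH (p2 - r) (p1 - 5 * s) (p1 + 5 * s) n, by simp, ⟨x, by omega, by omega, ?_⟩,
          Or.inr ⟨(x1, y1), hv, by simp only; omega⟩⟩
        simpa [E.rv, E.nx, Dir.op, e1] using h6
      · simp only [E.rv, E.nx] at h5; omega
      · simp only [E.rv, E.nx] at h5; omega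

/-- **constant angles** -/
theorem near_const (L : Line) : NearM {u | An u ∧ ∃ β : ℝ, u = fun _ => β} := by
  intro ε hε
  obtain ⟨η0, hη0, N0, h⟩ := evV_le L (ε / 8) (by positivity)
  set η := min η0 1 with hηd
  have hη : 0 < η := lt_min hη0 one_pos
  have hη1 : η ≤ 1 := min_le_right _ _
  obtain ⟨K, hK⟩ := exists_nat_gt (80 * ((|(N0 : ℝ)| + 2) / η) + 8)
  refine ⟨η ^ 2 / 160, by positivity, K, ?_⟩
  rintro u ⟨hu, β, rfl⟩ N hN p r hr
  have hNK : (K : ℝ) ≤ N := by exact_mod_cast hN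
  have hN' : 80 * ((|(N0 : ℝ)| + 2) / η) + 8 < N := hK.trans_le hNK
  have hq : 0 ≤ (|(N0 : ℝ)| + 2) / η := by positivity
  have hNpos : (0 : ℝ) < N := by linarith
  by_cases hr0 : r < 0
  · have : Vis p r ∩ Ext N = ∅ := by
      ext γ
      constructor
      · rintro ⟨⟨v, -, h1, -⟩, -⟩
        have := abs_nonneg (v.1 - p.1)
        omega
      · exact fun h => h.elim
    rw [this, measure_empty]
    exact bot_le
  push Not at hr0
  -- the scales
  set n : ℤ := N / 4 with hn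
  have hnN : 4 * n ≤ N := by omega
  have hn2 : (N : ℝ) / 4 - 1 ≤ n := by
    have : N < 4 * n + 4 := by omega
    have : (N : ℝ) < 4 * n + 4 := by exact_mod_cast this
    linarith
  set s : ℤ := ⌊η * n / 10⌋ with hs
  have hs1 : (s : ℝ) ≤ η * n / 10 := Int.floor_le _
  have hs2 : η * n / 10 < s + 1 := Int.lt_floor_add_one _
  have hn3 : (1 : ℝ) ≤ n := by linarith
  have hs3 : η * N / 80 + (|(N0 : ℝ)| + 1) ≤ s := by
    have h1 : η * (80 * ((|(N0 : ℝ)| + 2) / η) + 8) ≤ η * N := mul_le_mul_of_nonneg_left hN'.le hη.le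
    have h2 : η * (80 * ((|(N0 : ℝ)| + 2) / η) + 8) = 80 * (|(N0 : ℝ)| + 2) + 8 * η := by
      field_simp
    have h3 : η * ((N : ℝ) / 4 - 1) ≤ η * n := mul_le_mul_of_nonneg_left hn2 hη.le
    nlinarith
  have hs0 : (1 : ℤ) ≤ s := by
    have : (1 : ℝ) ≤ s := by
      have := abs_nonneg (N0 : ℝ)
      have : 0 ≤ η * N / 80 := by positivity
      linarith
    exact_mod_cast this
  have hsN0 : N0 ≤ s := by
    have : (N0 : ℝ) ≤ s := by
      have := le_abs_self (N0 : ℝ)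
      have : 0 ≤ η * N / 80 := by positivity
      linarith
    exact_mod_cast this
  have hsn : 4 * s ≤ n := by
    have : (4 : ℝ) * s ≤ n := by nlinarith
    exact_mod_cast this
  have hr2 : (r : ℝ) ≤ η * s / 2 := by
    have h1 : 0 ≤ |(N0 : ℝ)| + 1 := by positivity
    have h2 : η * (η * N / 80) ≤ η * s := mul_le_mul_of_nonneg_left (by linarith) hη.le
    nlinarith
  have hsp : (1 : ℝ) ≤ s := by exact_mod_cast hs0
  have hrs : r ≤ s := by
    have : (r : ℝ) ≤ s := by nlinarith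
    exact_mod_cast this
  have hV : ∀ c a b m : ℤ, N0 ≤ m → ((b - a : ℤ) : ℝ) ≤ η * m → 0 ≤ m →
      muU (fun _ => β) (EvV c a b m) ≤ ENNReal.ofReal (ε / 8) := by
    intro c a b m hm hab hm0
    refine h _ hu m hm c a b (hab.trans (mul_le_mul_of_nonneg_right (min_le_left _ _) (by exact_mod_cast hm0)))
  have hH : ∀ c a b m : ℤ, N0 ≤ m → ((b - a : ℤ) : ℝ) ≤ η * m → 0 ≤ m →
      muU (fun _ => β) (EvH c a b m) ≤ ENNReal.ofReal (ε / 8) := by
    intro c a b m hm hab hm0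
    rw [evH_eq]
    exact hV c a b m hm hab hm0
  have e1 : ∀ x : ℤ, (((x + r) - (x - r) : ℤ) : ℝ) ≤ η * s := by
    intro x
    push_cast
    linarith
  have e2 : ∀ x : ℤ, (((x + 5 * s) - (x - 5 * s) : ℤ) : ℝ) ≤ η * n := by
    intro x
    push_cast
    linarith
  refine (muU_list _ (by positivity : (0 : ℝ) ≤ ε / 8) _ _ (cover hr0 hs0 hrs hsn hnN) ?_).trans ?_
  · intro B hB
    simp only [List.mem_cons, List.not_mem_nil, or_false] at hB
    rcases hB with rfl | rfl | rfl | rfl | rfl | rfl | rfl | rfl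
    · exact hV _ _ _ _ hsN0 (e1 _) (by omega)
    · exact hV _ _ _ _ hsN0 (e1 _) (by omega)
    · exact hH _ _ _ _ hsN0 (e1 _) (by omega)
    · exact hH _ _ _ _ hsN0 (e1 _) (by omega)
    · exact hV _ _ _ _ (by omega) (e2 _) (by omega)
    · exact hV _ _ _ _ (by omega) (e2 _) (by omega)
    · exact hH _ _ _ _ (by omega) (e2 _) (by omega)
    · exact hH _ _ _ _ (by omega) (e2 _) (by omega)
  · apply ENNReal.ofReal_le_ofReal
    simp only [List.length_cons, List.length_nil]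
    push_cast
    linarith

/-! ### gluing -/

/-- two vertices left of the line `c`, the first in the box, at distance `≥ s` -/
def EvL (c : ℤ) (p : ℤ × ℤ) (r s : ℤ) : Set Lps := {γ | ∃ v w, γ.1 v ≠ 0 ∧ γ.1 w ≠ 0 ∧ v.1 < c ∧ w.1 < c ∧
  |v.1 - p.1| ≤ r ∧ |v.2 - p.2| ≤ r ∧ (s ≤ |w.1 - v.1| ∨ s ≤ |w.2 - v.2|)}

/-- two vertices right of the line `c`, the first in the box, at distance `≥ s` -/
def EvR (c : ℤ) (p : ℤ × ℤ) (r s : ℤ) : Set Lps := {γ | ∃ v w, γ.1 v ≠ 0 ∧ γ.1 w ≠ 0 ∧ c ≤ v.1 ∧ c ≤ w.1 ∧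
  |v.1 - p.1| ≤ r ∧ |v.2 - p.2| ≤ r ∧ (s ≤ |w.1 - v.1| ∨ s ≤ |w.2 - v.2|)}

theorem evL_sub (c : ℤ) (p : ℤ × ℤ) (r s : ℤ) : EvL c p r s ⊆ Vis p r ∩ Ext s := by
  rintro γ ⟨v, w, hv, hw, -, -, a, b, h⟩
  refine ⟨⟨v, hv, a, b⟩, ?_⟩
  rcases h with h | h <;> rcases le_abs.1 h with h | h
  · exact ⟨v, w, hv, hw, Or.inl h⟩
  · exact ⟨w, v, hw, hv, Or.inl (by omega)⟩
  · exact ⟨v, w, hv, hw, Or.inr h⟩
  · exact ⟨w, v, hw, hv, Or.inr (by omega)⟩

theorem evR_sub (c : ℤ) (p : ℤ × ℤ) (r s : ℤ) : EvR c p r s ⊆ Vis p r ∩ Ext s := by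
  rintro γ ⟨v, w, hv, hw, -, -, a, b, h⟩
  refine ⟨⟨v, hv, a, b⟩, ?_⟩
  rcases h with h | h <;> rcases le_abs.1 h with h | h
  · exact ⟨v, w, hv, hw, Or.inl h⟩
  · exact ⟨w, v, hw, hv, Or.inl (by omega)⟩
  · exact ⟨v, w, hv, hw, Or.inr h⟩
  · exact ⟨w, v, hw, hv, Or.inr (by omega)⟩

theorem evL_eq (L : Line) {u u' : ℤ → ℝ} (hu : An u) (hu' : An u') {c : ℤ} (h : ∀ j, j < c → u j = u' j)
    (p : ℤ × ℤ) (r s : ℤ) : muU u (EvL c p r s) = muU u' (EvL c p r s) := by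
  refine L.lawL u u' hu hu' c h _ ?_ ?_
  · rintro γ γ' hγ ⟨v, w, hv, hw, h1, h2, h3⟩
    exact ⟨v, w, by rwa [← hγ v h1], by rwa [← hγ w h2], h1, h2, h3⟩
  · rintro γ ⟨v, w, hv, hw, h1, h2, h3⟩
    exact ⟨v, hv, by omega⟩

theorem evR_eq (L : Line) {u u' : ℤ → ℝ} (hu : An u) (hu' : An u') {c : ℤ} (h : ∀ j, c ≤ j → u j = u' j)
    (p : ℤ × ℤ) (r s : ℤ) : muU u (EvR c p r s) = muU u' (EvR c p r s) := by
  refine L.lawR u u' hu hu' c h _ ?_ ?_
  · rintro γ γ' hγ ⟨v, w, hv, hw, h1, h2, h3⟩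
    exact ⟨v, w, by rwa [← hγ v h1], by rwa [← hγ w h2], h1, h2, h3⟩
  · rintro γ ⟨v, w, hv, hw, h1, h2, h3⟩
    exact ⟨v, hv, h1⟩

/-- the cover at a line -/
theorem cover_glue (c : ℤ) {p : ℤ × ℤ} {r s n N : ℤ} (hr : 0 ≤ r) (hs : 1 ≤ s) (hsn : 4 * s ≤ n) (hnN : 4 * n ≤ N)
    (γ : Lps) (hγ : γ ∈ Vis p r ∩ Ext N) :
    ∃ B ∈ [EvL c p r s, EvR c (c, p.2) (r + s) n, EvR c p r s, EvL c (c - 1, p.2) (r + s) n], γ ∈ B := by
  obtain ⟨⟨v0, hv0, a0, b0⟩, v, w, hv, hw, h⟩ := hγ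
  obtain ⟨p1, p2⟩ := p
  obtain ⟨x0, y0⟩ := v0
  obtain ⟨x1, y1⟩ := v
  obtain ⟨x2, y2⟩ := w
  simp only at a0 b0 h ⊢
  have c1 := abs_le.1 a0
  have c2 := abs_le.1 b0
  by_cases hside : x0 < c
  · by_cases h1 : ∃ w, γ.1 w ≠ 0 ∧ w.1 < c ∧ (s ≤ |w.1 - x0| ∨ s ≤ |w.2 - y0|)
    · obtain ⟨w', hw', h2, h3⟩ := h1
      exact ⟨EvL c (p1, p2) r s, by simp, (x0, y0), w', hv0, hw', hside, h2, a0, b0, h3⟩
    · push Not at h1
      have hl : ∀ w : ℤ × ℤ, γ.1 w ≠ 0 → w.1 < c → -s < w.1 - x0 ∧ w.1 - x0 < s ∧ -s < w.2 - y0 ∧ w.2 - y0 < s := by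
        intro w h2 h3
        have := h1 w h2 h3
        exact ⟨(abs_lt.1 this.1).1, (abs_lt.1 this.1).2, (abs_lt.1 this.2).1, (abs_lt.1 this.2).2⟩
      have hex : ∃ w, γ.1 w ≠ 0 ∧ c ≤ w.1 := by
        by_contra hcon
        push Not at hcon
        have k1 := hl _ hv (hcon _ hv)
        have k2 := hl _ hw (hcon _ hw)
        simp only at k1 k2
        omega
      obtain ⟨w', hw', h2⟩ := hex
      obtain ⟨y, h3, h4, h5⟩ := cross_V γ.2 (c := c) hv0 hw' hside h2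
      have k0 := hl _ h4 (by simp only; omega)
      simp only at k0
      refine ⟨EvR c (c, p2) (r + s) n, by simp, ?_⟩
      have key : ∃ w : ℤ × ℤ, γ.1 w ≠ 0 ∧ c ≤ w.1 ∧ (n ≤ |w.1 - c| ∨ n ≤ |w.2 - y|) := by
        by_contra hcon
        push Not at hcon
        have k : ∀ w : ℤ × ℤ, γ.1 w ≠ 0 → -(2 * n) < w.1 - c ∧ w.1 - c < 2 * n ∧ -(2 * n) < w.2 - y ∧ w.2 - y < 2 * n := by
          intro w h6
          by_cases h7 : w.1 < c
          · have := hl w h6 h7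
            omega
          · have := hcon w h6 (by omega)
            rw [abs_lt, abs_lt] at this
            omega
        have k1 := k _ hv
        have k2 := k _ hw
        simp only at k1 k2
        omega
      obtain ⟨w, h6, h7, h8⟩ := key
      refine ⟨(c, y), w, h5, h6, le_rfl, h7, ?_, ?_, h8⟩
      · simp only [sub_self, abs_zero]; omega
      · simp only [abs_le]; omega
  · by_cases h1 : ∃ w, γ.1 w ≠ 0 ∧ c ≤ w.1 ∧ (s ≤ |w.1 - x0| ∨ s ≤ |w.2 - y0|)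
    · obtain ⟨w', hw', h2, h3⟩ := h1
      exact ⟨EvR c (p1, p2) r s, by simp, (x0, y0), w', hv0, hw', by simpa using hside, h2, a0, b0, h3⟩
    · push Not at h1
      have hl : ∀ w : ℤ × ℤ, γ.1 w ≠ 0 → c ≤ w.1 → -s < w.1 - x0 ∧ w.1 - x0 < s ∧ -s < w.2 - y0 ∧ w.2 - y0 < s := by
        intro w h2 h3
        have := h1 w h2 h3
        exact ⟨(abs_lt.1 this.1).1, (abs_lt.1 this.1).2, (abs_lt.1 this.2).1, (abs_lt.1 this.2).2⟩
      have hex : ∃ w, γ.1 w ≠ 0 ∧ w.1 < c := by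
        by_contra hcon
        push Not at hcon
        have k1 := hl _ hv (hcon _ hv)
        have k2 := hl _ hw (hcon _ hw)
        simp only at k1 k2
        omega
      obtain ⟨w', hw', h2⟩ := hex
      obtain ⟨y, h3, h4, h5⟩ := cross_V γ.2 (c := c) hw' hv0 h2 (by simpa using hside)
      have k0 := hl _ h5 (by simp only; omega)
      simp only at k0
      refine ⟨EvL c (c - 1, p2) (r + s) n, by simp, ?_⟩
      have key : ∃ w : ℤ × ℤ, γ.1 w ≠ 0 ∧ w.1 < c ∧ (n ≤ |w.1 - (c - 1)| ∨ n ≤ |w.2 - y|) := by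
        by_contra hcon
        push Not at hcon
        have k : ∀ w : ℤ × ℤ, γ.1 w ≠ 0 → -(2 * n) < w.1 - c ∧ w.1 - c < 2 * n ∧ -(2 * n) < w.2 - y ∧ w.2 - y < 2 * n := by
          intro w h6
          by_cases h7 : w.1 < c
          · have := hcon w h6 h7
            rw [abs_lt, abs_lt] at this
            omega
          · have := hl w h6 (by omega)
            omega
        have k1 := k _ hv
        have k2 := k _ hw
        simp only at k1 k2
        omega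
      obtain ⟨w, h6, h7, h8⟩ := key
      refine ⟨(c - 1, y), w, h4, h6, by simp only; omega, h7, ?_, ?_, h8⟩
      · simp only [sub_self, abs_zero]; omega
      · simp only [abs_le]; omega

/-- **gluing of two lattices along a line** -/
theorem glue (L : Line) {W1 W2 : Set (ℤ → ℝ)} (h1 : NearM W1) (h2 : NearM W2) (hA1 : ∀ u ∈ W1, An u)
    (hA2 : ∀ u ∈ W2, An u) : NearM {u | An u ∧ ∃ c, ∃ u1 ∈ W1, ∃ u2 ∈ W2, (∀ j, j < c → u j = u1 j) ∧ ∀ j, c ≤ j → u j = u2 j} := by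
  intro ε hε
  obtain ⟨η1, hη1, N1, h1⟩ := h1 (ε / 4) (by positivity)
  obtain ⟨η2, hη2, N2, h2⟩ := h2 (ε / 4) (by positivity)
  set η := min (min η1 η2) 1 with hηd
  have hη : 0 < η := lt_min (lt_min hη1 hη2) one_pos
  have hηa : η ≤ η1 := (min_le_left _ _).trans (min_le_left _ _)
  have hηb : η ≤ η2 := (min_le_left _ _).trans (min_le_right _ _)
  have hη1' : η ≤ 1 := min_le_right _ _
  obtain ⟨K, hK⟩ := exists_nat_gt (80 * ((|(N1 : ℝ)| + |(N2 : ℝ)| + 2) / η) + 8)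
  refine ⟨η ^ 2 / 160, by positivity, K, ?_⟩
  rintro u ⟨hu, c, u1, hu1, u2, hu2, e1, e2⟩ N hN p r hr
  have hNK : (K : ℝ) ≤ N := by exact_mod_cast hN
  have hN' : 80 * ((|(N1 : ℝ)| + |(N2 : ℝ)| + 2) / η) + 8 < N := hK.trans_le hNK
  have hq : 0 ≤ (|(N1 : ℝ)| + |(N2 : ℝ)| + 2) / η := by positivity
  have hNpos : (0 : ℝ) < N := by linarith
  by_cases hr0 : r < 0
  · have : Vis p r ∩ Ext N = ∅ := by
      ext γ
      constructor
      · rintro ⟨⟨v, -, h1, -⟩, -⟩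
        have := abs_nonneg (v.1 - p.1)
        omega
      · exact fun h => h.elim
    rw [this, measure_empty]
    exact bot_le
  push Not at hr0
  set n : ℤ := N / 4 with hn
  have hnN : 4 * n ≤ N := by omega
  have hn2 : (N : ℝ) / 4 - 1 ≤ n := by
    have : N < 4 * n + 4 := by omega
    have : (N : ℝ) < 4 * n + 4 := by exact_mod_cast this
    linarith
  set s : ℤ := ⌊η * n / 10⌋ with hs
  have hs1 : (s : ℝ) ≤ η * n / 10 := Int.floor_le _
  have hs2 : η * n / 10 < s + 1 := Int.lt_floor_add_one _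
  have hn3 : (1 : ℝ) ≤ n := by linarith
  have hs3 : η * N / 80 + (|(N1 : ℝ)| + |(N2 : ℝ)| + 1) ≤ s := by
    have h1 : η * (80 * ((|(N1 : ℝ)| + |(N2 : ℝ)| + 2) / η) + 8) ≤ η * N := mul_le_mul_of_nonneg_left hN'.le hη.le
    have h2 : η * (80 * ((|(N1 : ℝ)| + |(N2 : ℝ)| + 2) / η) + 8) = 80 * (|(N1 : ℝ)| + |(N2 : ℝ)| + 2) + 8 * η := by
      field_simp
    have h3 : η * ((N : ℝ) / 4 - 1) ≤ η * n := mul_le_mul_of_nonneg_left hn2 hη.le
    nlinarith
  have hp : 0 ≤ η * N / 80 := by positivity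
  have a1 := abs_nonneg (N1 : ℝ)
  have a2 := abs_nonneg (N2 : ℝ)
  have hs0 : (1 : ℤ) ≤ s := by
    have : (1 : ℝ) ≤ s := by linarith
    exact_mod_cast this
  have hsN1 : N1 ≤ s := by
    have : (N1 : ℝ) ≤ s := by
      have := le_abs_self (N1 : ℝ)
      linarith
    exact_mod_cast this
  have hsN2 : N2 ≤ s := by
    have : (N2 : ℝ) ≤ s := by
      have := le_abs_self (N2 : ℝ)
      linarith
    exact_mod_cast this
  have hsn : 4 * s ≤ n := by
    have : (4 : ℝ) * s ≤ n := by nlinarith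
    exact_mod_cast this
  have hsp : (1 : ℝ) ≤ s := by exact_mod_cast hs0
  have hr2 : (r : ℝ) ≤ η * s / 2 := by
    have h2 : η * (η * N / 80) ≤ η * s := mul_le_mul_of_nonneg_left (by linarith) hη.le
    nlinarith
  have hr3 : (r : ℝ) ≤ η * s := by nlinarith
  have hr4 : ((r + s : ℤ) : ℝ) ≤ η * n := by
    push_cast
    nlinarith
  have hs' : (0 : ℝ) ≤ s := by linarith
  have hn' : (0 : ℝ) ≤ n := by linarith
  refine (muU_list _ (by positivity : (0 : ℝ) ≤ ε / 4) _ _ (cover_glue c hr0 hs0 hsn hnN) ?_).trans ?_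
  · intro B hB
    simp only [List.mem_cons, List.not_mem_nil, or_false] at hB
    rcases hB with rfl | rfl | rfl | rfl
    · rw [evL_eq L hu (hA1 u1 hu1) e1]
      exact (measure_mono (evL_sub _ _ _ _)).trans (h1 u1 hu1 s hsN1 _ _ (hr3.trans (mul_le_mul_of_nonneg_right hηa hs')))
    · rw [evR_eq L hu (hA2 u2 hu2) e2]
      exact (measure_mono (evR_sub _ _ _ _)).trans
        (h2 u2 hu2 n (by omega) _ _ (hr4.trans (mul_le_mul_of_nonneg_right hηb hn')))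
    · rw [evR_eq L hu (hA2 u2 hu2) e2]
      exact (measure_mono (evR_sub _ _ _ _)).trans (h2 u2 hu2 s hsN2 _ _ (hr3.trans (mul_le_mul_of_nonneg_right hηb hs')))
    · rw [evL_eq L hu (hA1 u1 hu1) e1]
      exact (measure_mono (evL_sub _ _ _ _)).trans
        (h1 u1 hu1 n (by omega) _ _ (hr4.trans (mul_le_mul_of_nonneg_right hηa hn')))
  · apply ENNReal.ofReal_le_ofReal
    simp only [List.length_cons, List.length_nil]
    push_cast
    linarith

theorem an_hc : An hc := fun _ => ⟨le_rfl, by unfold hc; linarith [Real.pi_pos]⟩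

theorem NearM.mono {W W' : Set (ℤ → ℝ)} (h : NearM W) (hW : W' ⊆ W) : NearM W' := by
  intro ε hε
  obtain ⟨η, hη, N0, h⟩ := h ε hε
  exact ⟨η, hη, N0, fun u hu => h u (hW hu)⟩

theorem NearM.union {W W' : Set (ℤ → ℝ)} (h : NearM W) (h' : NearM W') : NearM (W ∪ W') := by
  intro ε hε
  obtain ⟨η, hη, N0, h⟩ := h ε hε
  obtain ⟨η', hη', N0', h'⟩ := h' ε hε
  refine ⟨min η η', lt_min hη hη', max (max N0 N0') 0, fun u hu N hN p r hr => ?_⟩
  have h0 : (0 : ℝ) ≤ N := by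
    have : (0 : ℤ) ≤ N := by omega
    exact_mod_cast this
  rcases hu with hu | hu
  · exact h u hu N (by omega) p r (hr.trans (mul_le_mul_of_nonneg_right (min_le_left _ _) h0))
  · exact h' u hu N (by omega) p r (hr.trans (mul_le_mul_of_nonneg_right (min_le_right _ _) h0))

/-- **all lattices of the flow** -/
theorem near_lat (L : Line) {b : ℝ} (hb : Real.pi / 8 ≤ b) (hb' : b ≤ Real.pi / 4) : NearM (LatB b) := by
  have hc1 := near_const L
  have hAb : An (fun _ => b) := fun _ => ⟨hb, hb'⟩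
  have h2 : NearM {u : ℤ → ℝ | An u ∧ ∃ β : ℝ, u = fun _ => β} := hc1
  refine (hc1.union (glue L hc1 hc1 (fun u hu => hu.1) (fun u hu => hu.1))).mono ?_
  rintro u (rfl | rfl | ⟨k, rfl⟩)
  · exact Or.inl ⟨hAb, b, rfl⟩
  · exact Or.inl ⟨an_hc, _, rfl⟩
  · refine Or.inr ⟨fun j => ?_, k, fun _ => b, ⟨hAb, b, rfl⟩, hc, ⟨an_hc, _, rfl⟩, fun j hj => ?_, fun j hj => ?_⟩
    · unfold lat
      split_ifs
      · exact ⟨hb, hb'⟩
      · exact an_hc j
    · unfold lat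
      rw [if_pos hj]
    · unfold lat hc
      rw [if_neg (by omega)]

/-! ### masses -/

/-- large loops rarely come near -/
theorem tail {W : Set (ℤ → ℝ)} (h : NearM W) (R0 ε : ℝ) (hε : 0 < ε) : ∃ S : ℝ, 0 < S ∧ ∃ N0 : ℤ, ∀ u ∈ W, ∀ N : ℤ, N0 ≤ N →
    ∀ (p : ℤ × ℤ) (R D : ℤ), (R : ℝ) ≤ R0 * N → S * N ≤ D → muU u (Vis p R ∩ Ext D) ≤ ENNReal.ofReal ε := by
  obtain ⟨η, hη, N0, h⟩ := h ε hε
  refine ⟨(|R0| + 1) / η + 1, by positivity, max N0 0, fun u hu N hN p R D hR hD => ?_⟩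
  have hN0 : (0 : ℝ) ≤ N := by
    have : (0 : ℤ) ≤ N := by omega
    exact_mod_cast this
  have hq : 0 ≤ (|R0| + 1) / η := by positivity
  have h1 : (N : ℝ) ≤ D := by nlinarith
  have h2 : N ≤ D := by exact_mod_cast h1
  refine h u hu D (by omega) p R (hR.trans ?_)
  have h3 : η * (((|R0| + 1) / η + 1) * N) ≤ η * D := mul_le_mul_of_nonneg_left hD hη.le
  have h4 : η * (((|R0| + 1) / η + 1) * N) = (|R0| + 1) * N + η * N := by
    field_simp
  have h5 : R0 * N ≤ |R0| * N := mul_le_mul_of_nonneg_right (le_abs_self _) hN0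
  nlinarith

theorem vis_cover {p : ℤ × ℤ} {R r m : ℤ} (hr : 1 ≤ r) (hR : R ≤ m * r) (hm : 0 ≤ m) :
    Vis p R ⊆ ⋃ q ∈ (Finset.Icc (-m) m ×ˢ Finset.Icc (-m) m : Finset (ℤ × ℤ)), Vis (p.1 + q.1 * r, p.2 + q.2 * r) r := by
  have key : ∀ x : ℤ, |x| ≤ R → ∃ i : ℤ, -m ≤ i ∧ i ≤ m ∧ |x - i * r| ≤ r := by
    intro x hx
    have hx' := abs_le.1 hx
    have e1 := Int.emod_add_mul_ediv x r
    have e2 := Int.emod_nonneg x (show r ≠ 0 by omega)
    have e3 := Int.emod_lt_of_pos x (show 0 < r by omega)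
    refine ⟨x / r, ?_, ?_, ?_⟩
    · by_contra hcon
      push Not at hcon
      have : x / r + 1 ≤ -m := by omega
      have : (x / r + 1) * r ≤ (-m) * r := mul_le_mul_of_nonneg_right this (by omega)
      nlinarith
    · by_contra hcon
      push Not at hcon
      have : m + 1 ≤ x / r := by omega
      have : (m + 1) * r ≤ (x / r) * r := mul_le_mul_of_nonneg_right this (by omega)
      nlinarith
    · rw [show x - x / r * r = x % r by linarith [mul_comm r (x / r)]]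
      rw [abs_of_nonneg e2]
      omega
  rintro γ ⟨v, hv, h1, h2⟩
  obtain ⟨i, i1, i2, i3⟩ := key _ h1
  obtain ⟨j, j1, j2, j3⟩ := key _ h2
  simp only [Set.mem_iUnion]
  refine ⟨(i, j), Finset.mem_product.2 ⟨Finset.mem_Icc.2 ⟨i1, i2⟩, Finset.mem_Icc.2 ⟨j1, j2⟩⟩, v, hv, ?_, ?_⟩
  · rw [← sub_sub]; exact i3
  · rw [← sub_sub]; exact j3

/-- **bounded mass** of the loops which visit a ball of radius `R0 N` and have extent `≥ d N` -/
theorem mass {W : Set (ℤ → ℝ)} (h : NearM W) (R0 d : ℝ) (hd : 0 < d) : ∃ C : ℝ, 0 < C ∧ ∃ N0 : ℤ, ∀ u ∈ W, ∀ N : ℤ, N0 ≤ N →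
    ∀ (p : ℤ × ℤ) (R D : ℤ), (R : ℝ) ≤ R0 * N → d * N ≤ D → muU u (Vis p R ∩ Ext D) ≤ ENNReal.ofReal C := by
  obtain ⟨η, hη, N0, h⟩ := h 1 one_pos
  set e := η * d with he
  have he0 : 0 < e := by positivity
  obtain ⟨m, hm⟩ := exists_nat_gt (2 * (|R0| + 1) / e)
  obtain ⟨K, hK⟩ := exists_nat_gt (2 / e + (|(N0 : ℝ)| + 1) / d)
  refine ⟨(2 * m + 1) ^ 2, by positivity, K, fun u hu N hN p R D hR hD => ?_⟩
  have hNK : (K : ℝ) ≤ N := by exact_mod_cast hN
  have hN' := hK.trans_le hNK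
  have q1 : 0 < 2 / e := by positivity
  have q2 : 0 < (|(N0 : ℝ)| + 1) / d := by positivity
  have hNp : (0 : ℝ) < N := by linarith
  have hN1 : 2 < e * N := by
    have : 2 / e < N := by linarith
    rwa [div_lt_iff₀ he0, mul_comm] at this
  have hN2 : |(N0 : ℝ)| + 1 < d * N := by
    have : (|(N0 : ℝ)| + 1) / d < N := by linarith
    rwa [div_lt_iff₀ hd, mul_comm] at this
  set r : ℤ := ⌊e * N⌋ with hr
  have r1 : (r : ℝ) ≤ e * N := Int.floor_le _
  have r2 : e * N < r + 1 := Int.lt_floor_add_one _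
  have r3 : 1 ≤ r := by
    have : (1 : ℝ) < r := by linarith
    have : (1 : ℤ) < r := by exact_mod_cast this
    omega
  have hRm : R ≤ m * r := by
    have h1 : 2 * (|R0| + 1) < m * e := by
      rw [div_lt_iff₀ he0] at hm
      exact hm
    have h2 : e * N ≤ 2 * r := by
      have : (1 : ℝ) ≤ r := by exact_mod_cast r3
      linarith
    have h3 : R0 * N ≤ |R0| * N := mul_le_mul_of_nonneg_right (le_abs_self _) hNp.le
    have h4 : (2 * (|R0| + 1)) * N ≤ (m * e) * N := mul_le_mul_of_nonneg_right h1.le hNp.le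
    have h5 : (m : ℝ) * (e * N) ≤ m * (2 * r) := mul_le_mul_of_nonneg_left h2 (Nat.cast_nonneg m)
    have : (R : ℝ) ≤ (m * r : ℤ) := by
      push_cast
      nlinarith
    exact_mod_cast this
  have hDN : N0 ≤ D := by
    have : (N0 : ℝ) ≤ D := by
      have := le_abs_self (N0 : ℝ)
      linarith
    exact_mod_cast this
  have hsub : Vis p R ∩ Ext D ⊆ ⋃ q ∈ (Finset.Icc (-(m : ℤ)) m ×ˢ Finset.Icc (-(m : ℤ)) m : Finset (ℤ × ℤ)),
      (Vis (p.1 + q.1 * r, p.2 + q.2 * r) r ∩ Ext D) := by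
    rintro γ ⟨h1, h2⟩
    have := vis_cover (p := p) r3 hRm (Int.natCast_nonneg m) h1
    simp only [Set.mem_iUnion] at this ⊢
    obtain ⟨q, hq, hq2⟩ := this
    exact ⟨q, hq, hq2, h2⟩
  refine (measure_mono hsub).trans ((measure_biUnion_finset_le _ _).trans ?_)
  have hb : ∀ q ∈ (Finset.Icc (-(m : ℤ)) m ×ˢ Finset.Icc (-(m : ℤ)) m : Finset (ℤ × ℤ)),
      muU u (Vis (p.1 + q.1 * r, p.2 + q.2 * r) r ∩ Ext D) ≤ 1 := by
    intro q _
    refine (h u hu D hDN _ r ?_).trans_eq ENNReal.ofReal_one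
    refine r1.trans ?_
    rw [he, mul_assoc]
    exact mul_le_mul_of_nonneg_left hD hη.le
  refine (Finset.sum_le_sum hb).trans ?_
  rw [Finset.sum_const, nsmul_eq_mul, mul_one, Finset.card_product, Int.card_Icc]
  have : ((m : ℤ) + 1 - -(m : ℤ)).toNat = 2 * m + 1 := by omega
  rw [this, ← ENNReal.ofReal_natCast]
  apply ENNReal.ofReal_le_ofReal
  push_cast
  nlinarith

end

end Pool.Agent.ROT.U
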