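import Pool.Agent.ROT.UStC

/-!
# ROT, universality in the angle, side A: **the row UStep** (helper27)

`step : INC → LRW a b → Near → Mass → (a, b bounded) → Step a b`.
-/

set_option autoImplicit false

open Finset Filter Topology

namespace Pool.Agent.ROT.U.St

open Pool.Agent.ROT.A (Z2 PSys)
open Pool.Agent.ROT.U

variable {S : PSys} {X : WSys S} {m : ℕ}

/-! ### Taylor in four variables -/

/-- one side -/
lemma taylor_side {K δ Λ : ℝ} {G : (Fin 4 → ℝ) → ℝ} (hG : Tf1 K δ Λ G) {N : ℕ} (hN : 1 ≤ N) (y : Fin 4 → ℝ)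
    (u : Fin 4) (c : ℝ) :
    |G (y + Pi.single u (c / N)) - G y - c * D1 N u G y| ≤ Λ / (N : ℝ) ^ 2 * (c ^ 2 + 2 * |c|) := by
  have hN0 : (0 : ℝ) < N := by exact_mod_cast hN
  have hΛ := Tf1.Lnn hG
  have hsa : ∀ s t : ℝ, y + Pi.single u ((s + t) / (N : ℝ)) = y + Pi.single u (s / (N : ℝ)) + Pi.single u (t / (N : ℝ)) := by
    intro s t
    rw [add_div, Pi.single_add, add_assoc]
  have h := taylor1' (f := fun t => G (y + Pi.single u (t / N))) (L := Λ / (N : ℝ) ^ 2) (L' := Λ / N) (by positivity)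
    (by positivity) (fun t s s' => by
      have h0 := hG.lip2 (y + Pi.single u (t / (N : ℝ))) (Pi.single u (s / N)) (Pi.single u (s' / N))
      simp only [hsa]
      rw [norm_sg, norm_sg, abs_div, abs_div, abs_of_pos hN0] at h0
      refine h0.trans (le_of_eq ?_)
      field_simp) (fun t s => by
      have h0 := hG.lip (y + Pi.single u (t / (N : ℝ))) (Pi.single u (s / N))
      simp only [hsa]
      rw [norm_sg, abs_div, abs_of_pos hN0] at h0
      refine h0.trans (le_of_eq ?_)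
      field_simp) c
  simp only [zero_div, Pi.single_zero, add_zero] at h
  exact h

/-- all sides -/
lemma taylor_all {K δ Λ B : ℝ} {G : (Fin 4 → ℝ) → ℝ} (hG : Tf1 K δ Λ G) {N : ℕ} (hN : 1 ≤ N) (y : Fin 4 → ℝ)
    (c : Fin 4 → ℝ) (hc : ∀ u, |c u| ≤ B) (s : Finset (Fin 4)) :
    |G (y + ∑ u ∈ s, Pi.single u (c u / (N : ℝ))) - G y - ∑ u ∈ s, c u * D1 N u G y| ≤
      s.card * (Λ / (N : ℝ) ^ 2 * (5 * B ^ 2 + 2 * B)) := by
  have hN0 : (0 : ℝ) < N := by exact_mod_cast hN
  have hΛ := Tf1.Lnn hG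
  have hB : 0 ≤ B := (abs_nonneg _).trans (hc 0)
  induction s using Finset.induction_on with
  | empty => simp
  | insert k s hk ih =>
    rw [Finset.sum_insert hk, Finset.sum_insert hk, Finset.card_insert_of_notMem hk]
    set z : Fin 4 → ℝ := ∑ u ∈ s, Pi.single u (c u / (N : ℝ)) with hz
    set e : Fin 4 → ℝ := Pi.single k (c k / (N : ℝ)) with he
    have hnz : ‖z‖ ≤ 4 * (B / N) := by
      have h1 : ‖z‖ ≤ ∑ u ∈ s, ‖(Pi.single u (c u / (N : ℝ)) : Fin 4 → ℝ)‖ := norm_sum_le _ _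
      refine h1.trans ?_
      have h2 : ∀ u ∈ s, ‖(Pi.single u (c u / (N : ℝ)) : Fin 4 → ℝ)‖ ≤ B / N := by
        intro u _
        rw [norm_sg, abs_div, abs_of_pos hN0]
        exact div_le_div_of_nonneg_right (hc u) hN0.le
      refine (Finset.sum_le_sum h2).trans ?_
      rw [Finset.sum_const, nsmul_eq_mul]
      refine mul_le_mul_of_nonneg_right ?_ (by positivity)
      have := Finset.card_le_univ s
      rw [Fintype.card_fin] at this
      exact_mod_cast this
    have hne : ‖e‖ ≤ B / N := by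
      rw [he, norm_sg, abs_div, abs_of_pos hN0]
      exact div_le_div_of_nonneg_right (hc k) hN0.le
    have h2 := hG.lip2 y z e
    have h3 := taylor_side hG hN y k (c k)
    rw [← he] at h3
    have e1 : G (y + (e + z)) - G y - (c k * D1 N k G y + ∑ u ∈ s, c u * D1 N u G y) =
        (G (y + z) - G y - ∑ u ∈ s, c u * D1 N u G y) + (G (y + z + e) - G (y + z) - G (y + e) + G y) +
          (G (y + e) - G y - c k * D1 N k G y) := by
      rw [show y + (e + z) = y + z + e by abel]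
      ring
    rw [e1]
    have b1 : Λ * ‖z‖ * ‖e‖ ≤ Λ / (N : ℝ) ^ 2 * (4 * B ^ 2) := by
      calc Λ * ‖z‖ * ‖e‖ ≤ Λ * (4 * (B / N)) * (B / N) :=
            mul_le_mul (mul_le_mul_of_nonneg_left hnz hΛ) hne (norm_nonneg _) (by positivity)
        _ = Λ / (N : ℝ) ^ 2 * (4 * B ^ 2) := by
            field_simp
    have b2 : Λ / (N : ℝ) ^ 2 * (c k ^ 2 + 2 * |c k|) ≤ Λ / (N : ℝ) ^ 2 * (B ^ 2 + 2 * B) := by
      refine mul_le_mul_of_nonneg_left ?_ (by positivity)
      have := hc k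
      have h5 : c k ^ 2 ≤ B ^ 2 := by
        rw [← sq_abs]
        exact pow_le_pow_left₀ (abs_nonneg _) this 2
      linarith
    refine (abs_add_le _ _).trans ((add_le_add ((abs_add_le _ _).trans (add_le_add ih h2)) h3).trans ?_)
    push_cast
    nlinarith

lemma sum_sh (N : ℕ) (a b : ℝ) : ∑ u : Fin 4, (Pi.single u ((![-(a - 1), -(a - 1), b, b] : Fin 4 → ℝ) u / (N : ℝ)) :
    Fin 4 → ℝ) = WSys.sh N a b := by
  rw [Finset.univ_sum_single]
  funext u
  fin_cases u <;> rfl

/-- **the shift** -/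
lemma taylor_sh {K δ Λ A : ℝ} {G : (Fin 4 → ℝ) → ℝ} (hG : Tf1 K δ Λ G) {N : ℕ} (hN : 1 ≤ N) (y : Fin 4 → ℝ)
    {a b : ℝ} (ha : |a| ≤ A) (hb : |b| ≤ A) :
    |G (y + WSys.sh N a b) - G y - (-(a - 1) * (D1 N 0 G y + D1 N 1 G y) + b * (D1 N 2 G y + D1 N 3 G y))| ≤
      4 * (Λ * (5 * (A + 1) ^ 2 + 2 * (A + 1))) / (N : ℝ) ^ 2 := by
  have h := taylor_all hG hN y (![-(a - 1), -(a - 1), b, b] : Fin 4 → ℝ) (B := A + 1) (fun u => ?_) Finset.univ
  · rw [sum_sh, Finset.card_univ, Fintype.card_fin, Fin.sum_univ_four] at h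
    have e1 : (![-(a - 1), -(a - 1), b, b] : Fin 4 → ℝ) 0 = -(a - 1) := rfl
    have e2 : (![-(a - 1), -(a - 1), b, b] : Fin 4 → ℝ) 1 = -(a - 1) := rfl
    have e3 : (![-(a - 1), -(a - 1), b, b] : Fin 4 → ℝ) 2 = b := rfl
    have e4 : (![-(a - 1), -(a - 1), b, b] : Fin 4 → ℝ) 3 = b := rfl
    rw [e1, e2, e3, e4] at h
    have e5 : -(a - 1) * D1 N 0 G y + -(a - 1) * D1 N 1 G y + b * D1 N 2 G y + b * D1 N 3 G y =
      -(a - 1) * (D1 N 0 G y + D1 N 1 G y) + b * (D1 N 2 G y + D1 N 3 G y) := by ring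
    rw [e5] at h
    refine h.trans (le_of_eq ?_)
    push_cast
    ring
  · have h1 : |-(a - 1)| ≤ A + 1 := by
      rw [abs_neg]
      refine (abs_sub _ _).trans ?_
      rw [abs_one]
      linarith
    have h2 : |b| ≤ A + 1 := by linarith
    fin_cases u
    · exact h1
    · exact h1
    · exact h2
    · exact h2

lemma norm_sh {N : ℕ} {a b A : ℝ} (ha : |a| ≤ A) (hb : |b| ≤ A) : ‖WSys.sh N a b‖ ≤ (A + 1) / N := by
  have hA : 0 ≤ A := (abs_nonneg _).trans ha
  rw [pi_norm_le_iff_of_nonneg (by positivity)]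
  have h1 : |-(a - 1)| ≤ A + 1 := by
    rw [abs_neg]
    refine (abs_sub _ _).trans ?_
    rw [abs_one]
    linarith
  have h2 : |b| ≤ A + 1 := by linarith
  have hN : (0 : ℝ) ≤ N := Nat.cast_nonneg N
  intro u
  rw [Real.norm_eq_abs]
  have key : ∀ c : ℝ, |c| ≤ A + 1 → |c / N| ≤ (A + 1) / N := by
    intro c hc
    rw [abs_div, abs_of_nonneg hN]
    exact div_le_div_of_nonneg_right hc hN
  fin_cases u
  · exact key _ h1
  · exact key _ h1
  · exact key _ h2
  · exact key _ h2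

/-! ### changes of one test function -/

lemma Fo_update {N : ℕ} (G : Fin m → (Fin 4 → ℝ) → ℝ) (j : Fin m) (g : (Fin 4 → ℝ) → ℝ) :
    Fo S N (Function.update G j g) = Function.update (Fo S N G) j fun v => g (S.hN N v) := by
  funext i v
  by_cases h : i = j
  · subst h
    simp [Fo]
  · simp [Fo, Function.update_of_ne h]

/-- the shifted test function -/
noncomputable def gs (N : ℕ) (u : Fin 4) (g : (Fin 4 → ℝ) → ℝ) : (Fin 4 → ℝ) → ℝ :=
  fun y => g (y + Pi.single u (1 / (N : ℝ)))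

section change

variable {N n : ℕ} {K δ Λ κ d W B C A : ℝ} {k : ℤ} {J : Finset (Fin m)} {G : Fin m → (Fin 4 → ℝ) → ℝ}
  {x : Fin m → Z2} {π : Fin m → Bool}

/-- the size of a difference -/
lemma D1_le {g : (Fin 4 → ℝ) → ℝ} (hg : Tf1 K δ Λ g) (u : Fin 4) (y : Fin 4 → ℝ) : |D1 N u g y| ≤ Λ / N := by
  have h1 := hg.lip y (Pi.single u (1 / (N : ℝ)))
  rw [norm_sg, abs_of_nonneg (by positivity : (0 : ℝ) ≤ 1 / N)] at h1
  rw [D1]
  refine h1.trans (le_of_eq ?_)
  ring

/-- the size of a second difference -/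
lemma D2_le {g : (Fin 4 → ℝ) → ℝ} (hg : Tf1 K δ Λ g) (u u' : Fin 4) (y : Fin 4 → ℝ) :
    |D1 N u' (gs N u g) y - D1 N u' g y| ≤ Λ / (N : ℝ) ^ 2 := by
  have h1 := hg.lip2 y (Pi.single u (1 / (N : ℝ))) (Pi.single u' (1 / (N : ℝ)))
  rw [norm_sg, norm_sg, abs_of_nonneg (by positivity : (0 : ℝ) ≤ 1 / N)] at h1
  have e : D1 N u' (gs N u g) y - D1 N u' g y = g (y + Pi.single u (1 / (N : ℝ)) + Pi.single u' (1 / (N : ℝ))) -
      g (y + Pi.single u (1 / (N : ℝ))) - g (y + Pi.single u' (1 / (N : ℝ))) + g y := by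
    rw [D1, D1, gs, gs, show y + Pi.single u' (1 / (N : ℝ)) + Pi.single u (1 / (N : ℝ)) =
      y + Pi.single u (1 / (N : ℝ)) + Pi.single u' (1 / (N : ℝ)) by abel]
    ring
  rw [e]
  refine h1.trans (le_of_eq ?_)
  ring

lemma okf_sub {f f' : S.P → ℝ} (hf : Okf S N K δ f) (hf' : Okf S N K δ f') : Okf S N K δ fun v => f v - f' v := by
  intro v hv
  by_cases h0 : f v = 0
  · refine hf' v fun h1 => hv ?_
    simp only [h0, h1, sub_zero]
  · exact hf v h0

variable (hset : ∀ l : ℤ, Set1 X (X.wt l) N n (K + 2) (δ / 4) (d / 4) π J x W)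
  (hT : ∀ (f : S.P → ℝ) (b : ℝ), Okf S N (K + 2) (δ / 4) f → (∀ v, |f v| ≤ b) → Tn S n f ≤ b * C)
  (hB1 : 1 ≤ B) (hBΛ : |Λ| * C ≤ B) (hA : WSys.Adm N K δ Λ κ d k J G x) (hs : Sml N δ κ d)
  (hs' : Sml N (δ / 2) (κ / 2) (d / 2)) (hδ : 0 < δ)

include hset hT hB1 hBΛ hA hs hs' hδ in
/-- the response does not see a change of one test function, to second order -/
lemma resp_diff (l : ℤ) {i j : Fin m} (hi : i ∈ J) (hj : j ∈ J) (u u' : Fin 4) :
    |PF X (X.wt l) n π J x (Function.update (Fo S N (Function.update G j (gs N u (G j)))) i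
        (fD S N u' (Function.update G j (gs N u (G j)) i))) -
      PF X (X.wt l) n π J x (Function.update (Fo S N G) i (fD S N u' (G i)))| ≤
      W * (B ^ 2 / (N : ℝ) ^ 2 * B ^ m) := by
  have hN0 := hs.pos
  have hW : 0 ≤ W := ENNReal.toReal_nonneg.trans (hset l).nW
  have hΛ : 0 ≤ Λ := Tf1.Lnn (hA.tf i hi)
  rw [abs_of_nonneg hΛ] at hBΛ
  have hF : ∀ i ∈ J, Okf S N (K + 2) (δ / 4) (Fo S N G i) := fun i hi =>
    (okf_Fo hA.tf i hi).mono (by linarith) (by linarith)
  have hFT : ∀ i ∈ J, Tn S n (Fo S N G i) ≤ B := fun i hi =>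
    (hT _ Λ (hF i hi) fun v => (hA.tf i hi).bd _).trans hBΛ
  have hfD : ∀ u, ∀ i ∈ J, Okf S N (K + 2) (δ / 4) (fD S N u (G i)) := fun u i hi =>
    (okf_fD (hA.tf i hi) hδ.le hs u).mono (by linarith) (by linarith)
  have hfDT : ∀ u, ∀ i ∈ J, Tn S n (fD S N u (G i)) ≤ B / N := by
    intro u i hi
    refine (hT _ (Λ / N) (hfD u i hi) fun v => D1_le (hA.tf i hi) u _).trans ?_
    rw [div_mul_eq_mul_div]
    exact div_le_div_of_nonneg_right hBΛ hN0.le
  by_cases hij : i = j
  · subst hij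
    rw [Fo_update, Function.update_self, Function.update_idem]
    have ok' : Okf S N (K + 2) (δ / 4) (fD S N u' (gs N u (G i))) :=
      (okf_fD (Tf1.shift (hA.tf i hi) hs u) (by positivity) hs' u').mono (by linarith) (by linarith)
    rw [← (hset l).sub hi (fun j hj _ => hF j hj) ok' (hfD u' i hi)]
    refine (hset l).le1 (A := B) hi (Okf.update hF (okf_sub ok' (hfD u' i hi))) hB1 ?_ fun j hj hji => ?_
    · rw [Function.update_self]
      refine (hT _ (Λ / (N : ℝ) ^ 2) (okf_sub ok' (hfD u' i hi)) fun v => D2_le (hA.tf i hi) u u' _).trans ?_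
      rw [div_mul_eq_mul_div]
      refine div_le_div_of_nonneg_right ?_ (by positivity)
      nlinarith
    · rw [Function.update_of_ne hji]
      exact hFT j hj
  · rw [Fo_update, Function.update_of_ne hij]
    have e1 : Function.update (Function.update (Fo S N G) j fun v => gs N u (G j) (S.hN N v)) i (fD S N u' (G i)) =
        Function.update (Function.update (Fo S N G) i (fD S N u' (G i))) j fun v => gs N u (G j) (S.hN N v) :=
      Function.update_comm (Ne.symm hij) _ _ _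
    have e2 : Function.update (Fo S N G) i (fD S N u' (G i)) =
        Function.update (Function.update (Fo S N G) i (fD S N u' (G i))) j (Fo S N G j) := by
      conv_rhs => rw [← Function.update_of_ne (Ne.symm hij) (fD S N u' (G i)) (Fo S N G)]
      rw [Function.update_eq_self]
    rw [e1]
    conv_lhs => rw [e2]
    have hF2 : ∀ l ∈ J, Okf S N (K + 2) (δ / 4) (Function.update (Fo S N G) i (fD S N u' (G i)) l) :=
      Okf.update hF (hfD u' i hi)
    have okg : Okf S N (K + 2) (δ / 4) fun v => gs N u (G j) (S.hN N v) :=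
      Okf.mono (okf_of (K' := K + 1) (δ' := δ / 2) (g := gs N u (G j)) (fun _ h0 => h0)
        (Tf1.shift (hA.tf j hj) hs u).sup) (by linarith) (by linarith)
    have e3 : Function.update (Function.update (Function.update (Fo S N G) i (fD S N u' (G i))) j (Fo S N G j)) j
        (fun v => gs N u (G j) (S.hN N v)) =
        Function.update (Function.update (Fo S N G) i (fD S N u' (G i))) j fun v => gs N u (G j) (S.hN N v) :=
      Function.update_idem _ _ _
    have e4 := (hset l).sub (F := Function.update (Fo S N G) i (fD S N u' (G i))) hj (fun l hl _ => hF2 l hl)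
      okg (hF j hj)
    have e5 : ∀ p q : ℝ, |p - q| = |q - p| := fun p q => abs_sub_comm p q
    rw [e3, ← e4]
    refine ((hset l).le2 (A := B) (β := B / N) (β' := B / N) hi hj hij (Okf.update hF2 (okf_sub okg (hF j hj))) hB1
      ?_ ?_ fun l hl hli hlj => ?_).trans (le_of_eq (by ring))
    · rw [Function.update_of_ne hij, Function.update_self]
      exact hfDT u' i hi
    · rw [Function.update_self]
      exact hfDT u j hj
    · rw [Function.update_of_ne hlj, Function.update_of_ne hli]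
      exact hFT l hl

include hset hT hB1 hBΛ hA hs hs' hδ in
/-- the main terms do not see a change of one test function, to second order -/
lemma Mn_diff {a b : ℝ} (ha : |a| ≤ A) (hb : |b| ≤ A) {j : Fin m} (hj : j ∈ J) (u : Fin 4) :
    |Mn X N n π J x k a b (Function.update G j (gs N u (G j))) - Mn X N n π J x k a b G| ≤
      m * ((4 * A + 2) * (W * (B ^ 2 / (N : ℝ) ^ 2 * B ^ m))) := by
  have hA0 : 0 ≤ A := (abs_nonneg _).trans ha
  have hW : 0 ≤ W := ENNReal.toReal_nonneg.trans (hset 0).nW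
  set q : ℝ := W * (B ^ 2 / (N : ℝ) ^ 2 * B ^ m) with hq
  have hq0 : 0 ≤ q := by positivity
  have ha' : |-(a - 1)| ≤ A + 1 := by
    rw [abs_neg]
    refine (abs_sub _ _).trans ?_
    rw [abs_one]
    linarith
  rw [Mn, Mn, ← Finset.sum_sub_distrib]
  refine (Finset.abs_sum_le_sum_abs _ _).trans ?_
  have key : ∀ i ∈ J, |(-(a - 1) *
      (PF X (X.wt k) n π J x (Function.update (Fo S N (Function.update G j (gs N u (G j)))) i
        (fD S N 0 (Function.update G j (gs N u (G j)) i))) +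
      PF X (X.wt k) n π J x (Function.update (Fo S N (Function.update G j (gs N u (G j)))) i
        (fD S N 1 (Function.update G j (gs N u (G j)) i)))) +
      b * (PF X (X.wt (k + 1)) n π J x (Function.update (Fo S N (Function.update G j (gs N u (G j)))) i
        (fD S N 2 (Function.update G j (gs N u (G j)) i))) +
      PF X (X.wt (k + 1)) n π J x (Function.update (Fo S N (Function.update G j (gs N u (G j)))) i
        (fD S N 3 (Function.update G j (gs N u (G j)) i))))) -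
      (-(a - 1) * (PF X (X.wt k) n π J x (Function.update (Fo S N G) i (fD S N 0 (G i))) +
      PF X (X.wt k) n π J x (Function.update (Fo S N G) i (fD S N 1 (G i)))) +
      b * (PF X (X.wt (k + 1)) n π J x (Function.update (Fo S N G) i (fD S N 2 (G i))) +
      PF X (X.wt (k + 1)) n π J x (Function.update (Fo S N G) i (fD S N 3 (G i)))))| ≤ (4 * A + 2) * q := by
    intro i hi
    have r0 := resp_diff hset hT hB1 hBΛ hA hs hs' hδ k hi hj u 0
    have r1 := resp_diff hset hT hB1 hBΛ hA hs hs' hδ k hi hj u 1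
    have r2 := resp_diff hset hT hB1 hBΛ hA hs hs' hδ (k + 1) hi hj u 2
    have r3 := resp_diff hset hT hB1 hBΛ hA hs hs' hδ (k + 1) hi hj u 3
    rw [← hq] at r0 r1 r2 r3
    have e : ∀ c c' p0 p1 p2 p3 q0 q1 q2 q3 : ℝ, (c * (p0 + p1) + c' * (p2 + p3)) - (c * (q0 + q1) + c' * (q2 + q3)) =
        c * ((p0 - q0) + (p1 - q1)) + c' * ((p2 - q2) + (p3 - q3)) := by
      intros
      ring
    rw [e]
    refine (abs_add_le _ _).trans ?_
    rw [abs_mul, abs_mul]
    have s1 := mul_le_mul ha' ((abs_add_le _ _).trans (add_le_add r0 r1)) (abs_nonneg _) (by linarith)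
    have s2 := mul_le_mul hb ((abs_add_le _ _).trans (add_le_add r2 r3)) (abs_nonneg _) hA0
    refine (add_le_add s1 s2).trans (le_of_eq ?_)
    ring
  refine (Finset.sum_le_sum key).trans ?_
  rw [Finset.sum_const, nsmul_eq_mul]
  refine mul_le_mul_of_nonneg_right ?_ (by positivity)
  have := Finset.card_le_univ J
  rw [Fintype.card_fin] at this
  exact_mod_cast this

end change

/-- the box does not matter -/
lemma PF_box {N n n' : ℕ} {K δ : ℝ} (hN : 1 ≤ N) {π : Fin m → Bool} {J : Finset (Fin m)} {x : Fin m → Z2}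
    {F : Fin m → S.P → ℝ} (g : X.W → ℝ) (hF : ∀ i ∈ J, Okf S N K δ (F i)) (hn : K * N ≤ n) (hn' : K * N ≤ n') :
    PF X g n π J x F = PF X g n' π J x F := by
  rw [PF_eq, PF_eq]
  refine tsum_congr fun w => ?_
  congr 1
  refine Finset.prod_congr rfl fun i _ => ?_
  by_cases hi : i ∈ J
  · rw [fc_in hi, fc_in hi]
    refine fac_box X w _ _ fun v hv => ?_
    have h := hF i hi v hv
    have key : ∀ n : ℕ, K * N ≤ n → v ∈ S.box n := by
      intro n hn
      rw [S.mem_box]
      intro u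
      have h1 := (h.ht hN u).trans hn
      have h2 : ((|S.ht v u| : ℤ) : ℝ) ≤ ((n : ℤ) : ℝ) := by
        rw [Int.cast_abs]
        exact_mod_cast h1
      exact_mod_cast h2
    exact ⟨key n hn, key n' hn'⟩
  · rw [fc_out hi, fc_out hi, WSys.fac, WSys.fac]

/-- **UStep** -/
theorem step {a b : ℕ → ℝ} {A : ℝ} (hI : X.INC) (hL : X.LRW a b) (hX : X.Near) (hM : S.Mass)
    (hab : ∀ N, |a N| ≤ A ∧ |b N| ≤ A) : X.Step a b := by
  intro m π K δ Λ κ d ε hπ hδ hκ hd hε
  have hA0 : 0 ≤ A := (abs_nonneg _).trans (hab 0).1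
  by_cases hK : 0 ≤ K
  swap
  · refine ⟨1, fun N hN k n J G x _ hA _ => ?_⟩
    exfalso
    have h1 := (abs_nonneg _).trans hA.kk
    have h2 : (0 : ℝ) < N := by exact_mod_cast hN
    push Not at hK
    nlinarith
  obtain ⟨W, hW0, hW⟩ := near_big X hX (d := min (δ / 4) (d / 4)) (R := K + 2 + 1) (by positivity) (by positivity)
  obtain ⟨C, hC0, hC⟩ := mass_big hM (K + 2) (δ := δ / 4) (by positivity)
  set B : ℝ := 1 + |Λ| * (A + 1) * C with hB
  have hB1 : 1 ≤ B := by
    have : 0 ≤ |Λ| * (A + 1) * C := by positivity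
    linarith
  have hBΛ : |Λ| * C ≤ B := by
    have : 0 ≤ |Λ| * C * A := by positivity
    rw [hB]
    nlinarith
  have hBΛ' : |Λ| * (A + 1) * C ≤ B := by
    rw [hB]
    linarith
  set ε1 : ℝ := ε / (2 * (1 + 4 * m * A)) with hε1
  have hε1' : 0 < ε1 := by positivity
  set q1 : ℝ := W * (B ^ 2 * B ^ m) with hq1
  set T0 : ℝ := 4 * (|Λ| * (5 * (A + 1) ^ 2 + 2 * (A + 1))) * C with hT0
  set Ct : ℝ := m * (2 * A * (m * ((4 * A + 2) * q1))) + m * (W * (T0 * B ^ m)) +
    W * ((m : ℝ) ^ 2 * B ^ m * B ^ 2) with hCt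
  have hCt0 : 0 ≤ Ct := by positivity
  obtain ⟨N1, hN1⟩ := exists_nat_ge (2 * Ct / ε)
  have hev := ((((((stepA hI hL hX π hK hπ hδ hκ hd hε1' (Λ := Λ)).and
    (stepA hI hL hX π (by linarith : 0 ≤ K + 1) hπ (half_pos hδ) (half_pos hκ) (half_pos hd) hε1' (Λ := Λ))).and
    hW).and hC).and (ev_sml hδ hκ hd)).and (ev_sml (half_pos hδ) (half_pos hκ) (half_pos hd))).and
      (eventually_ge_atTop N1)
  obtain ⟨N0, hN0⟩ := eventually_atTop.1 hev
  refine ⟨N0, fun N hN k n J G x hn hA hA' => ?_⟩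
  obtain ⟨⟨⟨⟨⟨⟨hS1, hS2⟩, hW⟩, hC⟩, hs⟩, hs'⟩, hNN⟩ := hN0 N hN
  have hNp := hs.pos
  -- the larger box
  obtain ⟨n', hn'⟩ := exists_nat_ge (max ((K + 3) * (N : ℝ)) n)
  have hn1 : (K + 3) * (N : ℝ) ≤ n' := (le_max_left _ _).trans hn'
  have hKN : 0 ≤ K * (N : ℝ) := by positivity
  set sG : Fin m → (Fin 4 → ℝ) → ℝ := fun i y => G i (y + WSys.sh N (a N) (b N)) with hsG
  rw [ob_eq, ob_eq]
  change |PF X (X.wt (k + 1)) n π J x (Fo S N G) - PF X (X.wt k) n π J x (Fo S N sG)| ≤ _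
  rw [PF_box hs.n1 (X.wt (k + 1)) (okf_Fo (S := S) hA.tf) (by linarith) (by linarith : K * N ≤ (n' : ℝ)),
    PF_box hs.n1 (X.wt k) (okf_Fo (S := S) (G := sG) hA'.tf) (by linarith) (by linarith : K * N ≤ (n' : ℝ))]
  have hA3 : WSys.Adm N (K + 2) (δ / 4) Λ (κ / 4) (d / 4) k J G x :=
    adm_mono hA (by linarith) (by linarith) (by linarith) (by linarith)
  have hgeo : Geo N (K + 2) (d / 4) J x := ⟨fun i hi => ⟨(hA3.pt i hi).2.1, (hA3.pt i hi).2.2⟩, hA3.pp⟩
  have hset : ∀ l : ℤ, Set1 X (X.wt l) N n' (K + 2) (δ / 4) (d / 4) π J x W := fun l =>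
    ⟨hs.n1, hπ, hgeo, X.wt_nn l, (hW l).1, (hW l).2⟩
  have hT : ∀ (f : S.P → ℝ) (b : ℝ), Okf S N (K + 2) (δ / 4) f → (∀ v, |f v| ≤ b) → Tn S n' f ≤ b * C :=
    fun f b => hC n' f b
  have hE := hS1 k n' J G x (by linarith) hA
  have hcard : (J.card : ℝ) ≤ m := by
    have := Finset.card_le_univ J
    rw [Fintype.card_fin] at this
    exact_mod_cast this
  have hF : ∀ i ∈ J, Okf S N (K + 2) (δ / 4) (Fo S N G i) := fun i hi =>
    (okf_Fo hA.tf i hi).mono (by linarith) (by linarith)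
  have hF' : ∀ i ∈ J, Okf S N (K + 2) (δ / 4) (Fo S N sG i) := fun i hi =>
    (okf_Fo (G := sG) hA'.tf i hi).mono (by linarith) (by linarith)
  have hfD : ∀ u, ∀ i ∈ J, Okf S N (K + 2) (δ / 4) (fD S N u (G i)) := fun u i hi =>
    (okf_fD (hA.tf i hi) hδ.le hs u).mono (by linarith) (by linarith)
  set q : ℝ := W * (B ^ 2 / (N : ℝ) ^ 2 * B ^ m) with hq
  have hqq : q = q1 / (N : ℝ) ^ 2 := by
    rw [hq, hq1]
    ring
  -- rows: the lattice `k + 1` may be replaced by `k`
  have hrow : ∀ j ∈ J, ∀ u : Fin 4, |PF X (X.wt (k + 1)) n' π J x (Function.update (Fo S N G) j (fD S N u (G j))) -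
      PF X (X.wt k) n' π J x (Function.update (Fo S N G) j (fD S N u (G j)))| ≤
      2 * (ε1 / N) + m * ((4 * A + 2) * q) := by
    intro j hj u
    have hG' := hS2 k n' J (Function.update G j (gs N u (G j))) x (by linarith) (adm_shift hA hs hδ.le hκ.le hd.le hj u)
    have hD := Mn_diff (n := n') (π := π) (a := a N) (b := b N) hset hT hB1 hBΛ hA hs hs' hδ (hab N).1 (hab N).2 hj u
    have okg : Okf S N (K + 2) (δ / 4) fun v => gs N u (G j) (S.hN N v) :=
      Okf.mono (okf_of (K' := K + 1) (δ' := δ / 2) (g := gs N u (G j)) (fun _ h0 => h0)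
        (Tf1.shift (hA.tf j hj) hs u).sup) (by linarith) (by linarith)
    have e1 : ∀ l : ℤ, PF X (X.wt l) n' π J x (Function.update (Fo S N G) j (fD S N u (G j))) =
        PF X (X.wt l) n' π J x (Fo S N (Function.update G j (gs N u (G j)))) -
          PF X (X.wt l) n' π J x (Fo S N G) := by
      intro l
      have e2 := (hset l).sub (F := Fo S N G) hj (fun l hl _ => hF l hl) okg (hF j hj)
      rw [Function.update_eq_self, ← Fo_update] at e2
      exact e2
    rw [e1, e1]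
    set p1 := PF X (X.wt (k + 1)) n' π J x (Fo S N (Function.update G j (gs N u (G j))))
    set p0 := PF X (X.wt k) n' π J x (Fo S N (Function.update G j (gs N u (G j))))
    set r1 := PF X (X.wt (k + 1)) n' π J x (Fo S N G)
    set r0 := PF X (X.wt k) n' π J x (Fo S N G)
    set M1 := Mn X N n' π J x k (a N) (b N) (Function.update G j (gs N u (G j)))
    set M0 := Mn X N n' π J x k (a N) (b N) G
    have e3 : p1 - r1 - (p0 - r0) = (p1 - p0 - M1) - (r1 - r0 - M0) + (M1 - M0) := by ring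
    rw [e3]
    refine (abs_add_le _ _).trans ?_
    have e4 := abs_sub (p1 - p0 - M1) (r1 - r0 - M0)
    rw [← hq] at hD
    linarith
  -- the main terms in the lattice `k`
  set L : Fin m → S.P → ℝ := fun i v => (-(a N - 1) * fD S N 0 (G i) v + -(a N - 1) * fD S N 1 (G i) v) +
    (b N * fD S N 2 (G i) v + b N * fD S N 3 (G i) v) with hL'
  have hLok : ∀ i ∈ J, Okf S N (K + 2) (δ / 4) (L i) := fun i hi =>
    (((hfD 0 i hi).smul _).add ((hfD 1 i hi).smul _)).add (((hfD 2 i hi).smul _).add ((hfD 3 i hi).smul _))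
  have hM1 : |Mn X N n' π J x k (a N) (b N) G - ∑ i ∈ J, PF X (X.wt k) n' π J x (Function.update (Fo S N G) i (L i))| ≤
      m * (2 * A * (2 * (ε1 / N) + m * ((4 * A + 2) * q))) := by
    rw [Mn, ← Finset.sum_sub_distrib]
    refine (Finset.abs_sum_le_sum_abs _ _).trans ?_
    have key : ∀ i ∈ J, |-(a N - 1) * (PF X (X.wt k) n' π J x (Function.update (Fo S N G) i (fD S N 0 (G i))) +
        PF X (X.wt k) n' π J x (Function.update (Fo S N G) i (fD S N 1 (G i)))) +
        b N * (PF X (X.wt (k + 1)) n' π J x (Function.update (Fo S N G) i (fD S N 2 (G i))) +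
        PF X (X.wt (k + 1)) n' π J x (Function.update (Fo S N G) i (fD S N 3 (G i)))) -
        PF X (X.wt k) n' π J x (Function.update (Fo S N G) i (L i))| ≤
        2 * A * (2 * (ε1 / N) + m * ((4 * A + 2) * q)) := by
      intro i hi
      have e1 := (hset k).lin4 hi (fun j hj _ => hF j hj) (hfD 0 i hi) (hfD 1 i hi) (hfD 2 i hi) (hfD 3 i hi)
        (-(a N - 1)) (-(a N - 1)) (b N) (b N)
      rw [hL']
      simp only
      rw [e1]
      have r2 := hrow i hi 2
      have r3 := hrow i hi 3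
      set t : ℝ := 2 * (ε1 / N) + m * ((4 * A + 2) * q)
      have e2 : ∀ c c' p0 p1 p2 p3 q2 q3 : ℝ, (c * (p0 + p1) + c' * (p2 + p3)) -
          ((c * p0 + c * p1) + (c' * q2 + c' * q3)) = c' * ((p2 - q2) + (p3 - q3)) := by
        intros
        ring
      rw [e2, abs_mul]
      have s2 := mul_le_mul (hab N).2 ((abs_add_le _ _).trans (add_le_add r2 r3)) (abs_nonneg _) hA0
      refine s2.trans (le_of_eq ?_)
      ring
    refine (Finset.sum_le_sum key).trans ?_
    rw [Finset.sum_const, nsmul_eq_mul]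
    refine mul_le_mul_of_nonneg_right hcard ?_
    have : 0 ≤ q := by positivity
    positivity
  -- second order
  have hsec := (hset k).sec (F := Fo S N G) (F' := Fo S N sG) (A := B) (β := B / N) hF hF' hB1 (by positivity)
    (fun j hj => ?_) (fun j hj => ?_) (fun j hj => ?_)
  rotate_left
  · refine (hT _ |Λ| (hF j hj) fun v => ?_).trans hBΛ
    exact ((hA.tf j hj).bd _).trans (le_abs_self _)
  · refine (hT _ |Λ| (hF' j hj) fun v => ?_).trans hBΛ
    exact ((hA'.tf j hj).bd _).trans (le_abs_self _)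
  · refine (hT _ (|Λ| * ((A + 1) / N)) (okf_sub (hF' j hj) (hF j hj)) fun v => ?_).trans ?_
    · refine ((hA.tf j hj).lip (S.hN N v) (WSys.sh N (a N) (b N))).trans ?_
      exact mul_le_mul (le_abs_self _) (norm_sh (hab N).1 (hab N).2) (norm_nonneg _) (abs_nonneg _)
    · have e : |Λ| * ((A + 1) / N) * C = |Λ| * (A + 1) * C / N := by ring
      rw [e]
      exact div_le_div_of_nonneg_right hBΛ' hNp.le
  -- Taylor
  have htay : |∑ i ∈ J, PF X (X.wt k) n' π J x (Function.update (Fo S N G) i fun v => Fo S N sG i v - Fo S N G i v) -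
      ∑ i ∈ J, PF X (X.wt k) n' π J x (Function.update (Fo S N G) i (L i))| ≤
      m * (W * (T0 / (N : ℝ) ^ 2 * B ^ m)) := by
    rw [← Finset.sum_sub_distrib]
    refine (Finset.abs_sum_le_sum_abs _ _).trans ?_
    have key : ∀ i ∈ J, |PF X (X.wt k) n' π J x (Function.update (Fo S N G) i fun v => Fo S N sG i v - Fo S N G i v) -
        PF X (X.wt k) n' π J x (Function.update (Fo S N G) i (L i))| ≤ W * (T0 / (N : ℝ) ^ 2 * B ^ m) := by
      intro i hi
      have ok1 := okf_sub (hF' i hi) (hF i hi)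
      rw [← (hset k).sub hi (fun j hj _ => hF j hj) ok1 (hLok i hi)]
      refine (hset k).le1 (A := B) hi (Okf.update hF (okf_sub ok1 (hLok i hi))) hB1 ?_ fun j hj hji => ?_
      · rw [Function.update_self]
        have e : T0 / (N : ℝ) ^ 2 = 4 * (|Λ| * (5 * (A + 1) ^ 2 + 2 * (A + 1))) / (N : ℝ) ^ 2 * C := by
          rw [hT0]
          ring
        rw [e]
        refine hT _ _ (okf_sub ok1 (hLok i hi)) fun v => ?_
        have h1 := taylor_sh (hA.tf i hi) hs.n1 (S.hN N v) (hab N).1 (hab N).2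
        rw [abs_of_nonneg (Tf1.Lnn (hA.tf i hi))]
        refine le_trans (le_of_eq ?_) h1
        congr 1
        simp only [Fo, hsG, hL', fD]
        ring
      · rw [Function.update_of_ne hji]
        refine (hT _ |Λ| (hF j hj) fun v => ?_).trans hBΛ
        exact ((hA.tf j hj).bd _).trans (le_abs_self _)
    refine (Finset.sum_le_sum key).trans ?_
    rw [Finset.sum_const, nsmul_eq_mul]
    exact mul_le_mul_of_nonneg_right hcard (by positivity)
  -- end
  set P1 := PF X (X.wt (k + 1)) n' π J x (Fo S N G)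
  set P0 := PF X (X.wt k) n' π J x (Fo S N G)
  set P2 := PF X (X.wt k) n' π J x (Fo S N sG)
  set MM := Mn X N n' π J x k (a N) (b N) G
  set ML := ∑ i ∈ J, PF X (X.wt k) n' π J x (Function.update (Fo S N G) i (L i))
  set MT := ∑ i ∈ J, PF X (X.wt k) n' π J x (Function.update (Fo S N G) i fun v => Fo S N sG i v - Fo S N G i v)
  have e9 : P1 - P2 = (P1 - P0 - MM) + (MM - ML) - (MT - ML) - (P2 - P0 - MT) := by ring
  rw [e9]
  have t1 := abs_sub ((P1 - P0 - MM) + (MM - ML) - (MT - ML)) (P2 - P0 - MT)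
  have t2 := abs_sub ((P1 - P0 - MM) + (MM - ML)) (MT - ML)
  have t3 := abs_add_le (P1 - P0 - MM) (MM - ML)
  have hfin : ε1 / N + m * (2 * A * (2 * (ε1 / N) + m * ((4 * A + 2) * q))) + m * (W * (T0 / (N : ℝ) ^ 2 * B ^ m)) +
      W * ((m : ℝ) ^ 2 * B ^ m * (B / N) ^ 2) = ε1 * (1 + 4 * m * A) / N + Ct / (N : ℝ) ^ 2 := by
    rw [hqq, hCt]
    ring
  have h5 : ε1 * (1 + 4 * m * A) = ε / 2 := by
    rw [hε1]
    have : (1 + 4 * (m : ℝ) * A) ≠ 0 := by positivity
    field_simp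
  have h6 : Ct / (N : ℝ) ^ 2 ≤ (ε / 2) / N := by
    have h7 : 2 * Ct / ε ≤ N := hN1.trans (by exact_mod_cast hNN)
    rw [div_le_iff₀ hε] at h7
    rw [div_le_div_iff₀ (by positivity) hNp]
    nlinarith
  have h8 : (ε / 2) / (N : ℝ) + (ε / 2) / N = ε / N := by ring
  rw [h5] at hfin
  linarith

end Pool.Agent.ROT.U.St
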