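import Pool.Agent.ROT.UStep

/-!
# ROT, universality in the angle, side A: the row UStep with the literal **INC2** of the X side (helper27)

(INC2): left column and top row in the lattice `k + 1`, right column and bottom row in the lattice `k`.
`step2 : INC2 → LRW a b → Near → Mass → (a, b bounded) → Step a b`.
-/

set_option autoImplicit false

open Finset Filter Topology

namespace Pool.Agent.ROT.U

open Pool.Agent.ROT.A (Z2 PSys)

namespace WSys

variable {S : PSys} (X : WSys S) {m : ℕ}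

/-- **the response** of one tracer in the lattice `k`: right column, bottom row -/
noncomputable def rK (S : PSys) (N : ℕ) (G : (Fin 4 → ℝ) → ℝ) (v : S.P) : ℝ :=
  -(S.Qf v 1 - 1) * D1 N 1 G (S.hN N v) + S.Cf v 2 * D1 N 2 G (S.hN N v)

/-- **the response** of one tracer in the lattice `k + 1`: left column, top row -/
noncomputable def rL (S : PSys) (N : ℕ) (G : (Fin 4 → ℝ) → ℝ) (v : S.P) : ℝ :=
  -(S.Qf v 0 - 1) * D1 N 0 G (S.hN N v) + S.Cf v 3 * D1 N 3 G (S.hN N v)

/-- **(INC2)**, X side: the exact increment with all errors -/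
def INC2 : Prop :=
  ∀ (m : ℕ) (π : Fin m → Bool) (K δ Λ κ d ε : ℝ), PSys.NT π → 0 < δ → 0 < κ → 0 < d → 0 < ε → ∃ N0 : ℕ, ∀ N : ℕ,
    N0 ≤ N → ∀ (k : ℤ) (n : ℕ) (J : Finset (Fin m)) (G : Fin m → (Fin 4 → ℝ) → ℝ) (x : Fin m → Z2),
    (K + 1) * N ≤ n → Adm N K δ Λ κ d k J G x →
    |X.PO (X.wt (k + 1)) n π (ob S N J G x) - X.PO (X.wt k) n π (ob S N J G x) -
      ∑ i ∈ J, (X.PO (X.wt k) n π (Function.update (ob S N J G x) i (.inr (rK S N (G i)))) +
        X.PO (X.wt (k + 1)) n π (Function.update (ob S N J G x) i (.inr (rL S N (G i)))))| ≤ ε / N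

end WSys

namespace St

variable {S : PSys} {X : WSys S} {m : ℕ}

/-- the main terms of the increment -/
noncomputable def Mn2 (X : WSys S) (N n : ℕ) (π : Fin m → Bool) (J : Finset (Fin m)) (x : Fin m → Z2) (k : ℤ) (a b : ℝ)
    (G : Fin m → (Fin 4 → ℝ) → ℝ) : ℝ :=
  ∑ i ∈ J, ((-(a - 1) * PF X (X.wt k) n π J x (Function.update (Fo S N G) i (fD S N 1 (G i))) +
      b * PF X (X.wt k) n π J x (Function.update (Fo S N G) i (fD S N 2 (G i)))) +
    (-(a - 1) * PF X (X.wt (k + 1)) n π J x (Function.update (Fo S N G) i (fD S N 0 (G i))) +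
      b * PF X (X.wt (k + 1)) n π J x (Function.update (Fo S N G) i (fD S N 3 (G i)))))

/-- **(INC2) and (LRW)** -/
lemma stepA2 {a b : ℕ → ℝ} (hI : X.INC2) (hL : X.LRW a b) (hX : X.Near) {m : ℕ} (π : Fin m → Bool) {K δ Λ κ d ε : ℝ}
    (hK : 0 ≤ K) (hπ : PSys.NT π) (hδ : 0 < δ) (hκ : 0 < κ) (hd : 0 < d) (hε : 0 < ε) : ∀ᶠ N : ℕ in atTop,
    ∀ (k : ℤ) (n : ℕ) (J : Finset (Fin m)) (G : Fin m → (Fin 4 → ℝ) → ℝ) (x : Fin m → Z2),
    (K + 2) * N ≤ n → WSys.Adm N K δ Λ κ d k J G x →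
    |PF X (X.wt (k + 1)) n π J x (Fo S N G) - PF X (X.wt k) n π J x (Fo S N G) -
      Mn2 X N n π J x k (a N) (b N) G| ≤ ε / N := by
  set ε1 : ℝ := ε / (1 + 4 * (m + 1)) with hε1
  have hε1' : 0 < ε1 := by positivity
  obtain ⟨N1, hN1⟩ := hI m π K δ Λ κ d ε1 hπ hδ hκ hd hε1'
  obtain ⟨N2, hN2⟩ := hL m π (K + 1) (δ / 2) Λ (κ / 2) (d / 2) ε1 hπ (by positivity) (by positivity) (by positivity) hε1'
  obtain ⟨W, hW0, hW⟩ := near_big X hX (d := min (δ / 2) (d / 2)) (R := K + 1 + 1) (by positivity) (by positivity)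
  filter_upwards [eventually_ge_atTop N1, eventually_ge_atTop N2, hW, ev_sml hδ hκ hd] with N h1 h2 h3 hs k n J G x hn hA
  have hN0 := hs.pos
  have hn1 : (K + 1) * N ≤ n := by nlinarith
  have hn2 : (K + 1 + 1) * N ≤ n := by linarith
  have hA2 : WSys.Adm N (K + 1) (δ / 2) Λ (κ / 2) (d / 2) k J G x :=
    adm_mono hA (by linarith) (by linarith) (by linarith) (by linarith)
  have hgeo : Geo N (K + 1) (d / 2) J x := ⟨fun i hi => ⟨(hA2.pt i hi).2.1, (hA2.pt i hi).2.2⟩, hA2.pp⟩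
  have hset : ∀ l : ℤ, Set1 X (X.wt l) N n (K + 1) (δ / 2) (d / 2) π J x W := fun l =>
    ⟨hs.n1, hπ, hgeo, X.wt_nn l, (h3 l).1, (h3 l).2⟩
  have hFo : ∀ i ∈ J, Okf S N (K + 1) (δ / 2) (Fo S N G i) := okf_Fo hA2.tf
  have hI1 := hN1 N h1 k n J G x hn1 hA
  rw [ob_eq] at hI1
  have key : ∀ i ∈ J,
      |X.PO (X.wt k) n π (Function.update (Ob J x (Fo S N G)) i (.inr (WSys.rK S N (G i)))) -
        (-(a N - 1) * PF X (X.wt k) n π J x (Function.update (Fo S N G) i (fD S N 1 (G i))) +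
          b N * PF X (X.wt k) n π J x (Function.update (Fo S N G) i (fD S N 2 (G i))))| ≤ 2 * (ε1 / N) ∧
      |X.PO (X.wt (k + 1)) n π (Function.update (Ob J x (Fo S N G)) i (.inr (WSys.rL S N (G i)))) -
        (-(a N - 1) * PF X (X.wt (k + 1)) n π J x (Function.update (Fo S N G) i (fD S N 0 (G i))) +
          b N * PF X (X.wt (k + 1)) n π J x (Function.update (Fo S N G) i (fD S N 3 (G i))))| ≤ 2 * (ε1 / N) := by
    intro i hi
    have hFi : ∀ j ∈ J, j ≠ i → Okf S N (K + 1) (δ / 2) (Fo S N G j) := fun j hj _ => hFo j hj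
    have hth : ∀ u : Fin 4, ∀ l : ℤ, (l = k ∨ l = k + 1) →
        (∀ u' : Fin 4, (u' = 0 ∨ u' = 1) → |X.PO (X.wt l) n π (Function.update (WSys.ob S N J G x) i
          (.inr fun v => (S.Qf v u' - a N) * ((N : ℝ) * D1 N u (G i) (S.hN N v))))| ≤ ε1) ∧
        (∀ u' : Fin 4, (u' = 2 ∨ u' = 3) → |X.PO (X.wt l) n π (Function.update (WSys.ob S N J G x) i
          (.inr fun v => (S.Cf v u' - b N) * ((N : ℝ) * D1 N u (G i) (S.hN N v))))| ≤ ε1) := by
      intro u l hl
      exact hN2 N h2 k n J G x hn2 hA2 i hi (fun y => (N : ℝ) * D1 N u (G i) y) (Tf1.th (hA.tf i hi) hδ.le hs u)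
        (fun y hy => rt_shift hA hs hκ.le hi u y (D1_ne (N := N) (fun h0 => hy (by simp only [h0, mul_zero]))))
        (fun j hj hji y z hy hz => tt_shift hA hs hd.le hi hj hji.symm u y z
          (D1_ne (N := N) (fun h0 => hy (by simp only [h0, mul_zero]))) hz) l hl
    have okp : ∀ (c : S.P → ℝ) (u : Fin 4), Okf S N (K + 1) (δ / 2)
        fun v => c v * ((N : ℝ) * D1 N u (G i) (S.hN N v)) := by
      intro c u
      exact okf_of (g := fun y => (N : ℝ) * D1 N u (G i) y) (fun v hv h0 => hv (by simp only [h0, mul_zero]))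
        (Tf1.th (hA.tf i hi) hδ.le hs u).sup
    have okd : ∀ u : Fin 4, Okf S N (K + 1) (δ / 2) (fD S N u (G i)) := fun u => okf_fD (hA.tf i hi) hδ.le hs u
    constructor
    · have e1 : WSys.rK S N (G i) = fun v => ((-(1 / (N : ℝ))) * ((S.Qf v 1 - a N) * ((N : ℝ) * D1 N 1 (G i) (S.hN N v))) +
          (-(a N - 1)) * fD S N 1 (G i) v) + ((1 / (N : ℝ)) * ((S.Cf v 2 - b N) * ((N : ℝ) * D1 N 2 (G i) (S.hN N v))) +
          (b N) * fD S N 2 (G i) v) := by
        funext v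
        simp only [WSys.rK, fD]
        field_simp
        ring
      have e2 := (hset k).lin4 hi hFi (okp (fun v => S.Qf v 1 - a N) 1) (okd 1) (okp (fun v => S.Cf v 2 - b N) 2)
        (okd 2) (-(1 / (N : ℝ))) (-(a N - 1)) (1 / (N : ℝ)) (b N)
      rw [← e1] at e2
      have q0 := (hth 1 k (Or.inl rfl)).1 1 (Or.inr rfl)
      have q1 := (hth 2 k (Or.inl rfl)).2 2 (Or.inl rfl)
      rw [ob_eq] at q0 q1
      have u0 := Ob_update (S := S) x (Fo S N G) hi (fun v => (S.Qf v 1 - a N) * ((N : ℝ) * D1 N 1 (G i) (S.hN N v)))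
      have u1 := Ob_update (S := S) x (Fo S N G) hi (fun v => (S.Cf v 2 - b N) * ((N : ℝ) * D1 N 2 (G i) (S.hN N v)))
      rw [Ob_update (S := S) x (Fo S N G) hi]
      change |PF X (X.wt k) n π J x (Function.update (Fo S N G) i (WSys.rK S N (G i))) - _| ≤ _
      rw [e2]
      change |X.PO (X.wt k) n π (Function.update (Ob J x (Fo S N G)) i _)| ≤ _ at q0 q1
      rw [u0] at q0
      rw [u1] at q1
      change |PF X (X.wt k) n π J x _| ≤ _ at q0 q1
      set p0 := PF X (X.wt k) n π J x (Function.update (Fo S N G) i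
        fun v => (S.Qf v 1 - a N) * ((N : ℝ) * D1 N 1 (G i) (S.hN N v)))
      set p1 := PF X (X.wt k) n π J x (Function.update (Fo S N G) i
        fun v => (S.Cf v 2 - b N) * ((N : ℝ) * D1 N 2 (G i) (S.hN N v)))
      set r0 := PF X (X.wt k) n π J x (Function.update (Fo S N G) i (fD S N 1 (G i)))
      set r1 := PF X (X.wt k) n π J x (Function.update (Fo S N G) i (fD S N 2 (G i)))
      have e3 : -(1 / (N : ℝ)) * p0 + -(a N - 1) * r0 + (1 / (N : ℝ) * p1 + b N * r1) -
          (-(a N - 1) * r0 + b N * r1) = (p1 - p0) / N := by ring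
      rw [e3, abs_div, abs_of_pos hN0, ← mul_div_assoc]
      refine div_le_div_of_nonneg_right ?_ hN0.le
      exact (abs_sub _ _).trans (by linarith)
    · have e1 : WSys.rL S N (G i) = fun v => ((-(1 / (N : ℝ))) * ((S.Qf v 0 - a N) * ((N : ℝ) * D1 N 0 (G i) (S.hN N v))) +
          (-(a N - 1)) * fD S N 0 (G i) v) + ((1 / (N : ℝ)) * ((S.Cf v 3 - b N) * ((N : ℝ) * D1 N 3 (G i) (S.hN N v))) +
          (b N) * fD S N 3 (G i) v) := by
        funext v
        simp only [WSys.rL, fD]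
        field_simp
        ring
      have e2 := (hset (k + 1)).lin4 hi hFi (okp (fun v => S.Qf v 0 - a N) 0) (okd 0) (okp (fun v => S.Cf v 3 - b N) 3)
        (okd 3) (-(1 / (N : ℝ))) (-(a N - 1)) (1 / (N : ℝ)) (b N)
      rw [← e1] at e2
      have q0 := (hth 0 (k + 1) (Or.inr rfl)).1 0 (Or.inl rfl)
      have q1 := (hth 3 (k + 1) (Or.inr rfl)).2 3 (Or.inr rfl)
      rw [ob_eq] at q0 q1
      have u0 := Ob_update (S := S) x (Fo S N G) hi (fun v => (S.Qf v 0 - a N) * ((N : ℝ) * D1 N 0 (G i) (S.hN N v)))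
      have u1 := Ob_update (S := S) x (Fo S N G) hi (fun v => (S.Cf v 3 - b N) * ((N : ℝ) * D1 N 3 (G i) (S.hN N v)))
      rw [Ob_update (S := S) x (Fo S N G) hi]
      change |PF X (X.wt (k + 1)) n π J x (Function.update (Fo S N G) i (WSys.rL S N (G i))) - _| ≤ _
      rw [e2]
      change |X.PO (X.wt (k + 1)) n π (Function.update (Ob J x (Fo S N G)) i _)| ≤ _ at q0 q1
      rw [u0] at q0
      rw [u1] at q1
      change |PF X (X.wt (k + 1)) n π J x _| ≤ _ at q0 q1
      set p0 := PF X (X.wt (k + 1)) n π J x (Function.update (Fo S N G) i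
        fun v => (S.Qf v 0 - a N) * ((N : ℝ) * D1 N 0 (G i) (S.hN N v)))
      set p1 := PF X (X.wt (k + 1)) n π J x (Function.update (Fo S N G) i
        fun v => (S.Cf v 3 - b N) * ((N : ℝ) * D1 N 3 (G i) (S.hN N v)))
      set r0 := PF X (X.wt (k + 1)) n π J x (Function.update (Fo S N G) i (fD S N 0 (G i)))
      set r1 := PF X (X.wt (k + 1)) n π J x (Function.update (Fo S N G) i (fD S N 3 (G i)))
      have e3 : -(1 / (N : ℝ)) * p0 + -(a N - 1) * r0 + (1 / (N : ℝ) * p1 + b N * r1) -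
          (-(a N - 1) * r0 + b N * r1) = (p1 - p0) / N := by ring
      rw [e3, abs_div, abs_of_pos hN0, ← mul_div_assoc]
      refine div_le_div_of_nonneg_right ?_ hN0.le
      exact (abs_sub _ _).trans (by linarith)
  -- assembly
  rw [Mn2]
  set T1 : Fin m → ℝ := fun i => X.PO (X.wt k) n π (Function.update (Ob J x (Fo S N G)) i (.inr (WSys.rK S N (G i)))) +
    X.PO (X.wt (k + 1)) n π (Function.update (Ob J x (Fo S N G)) i (.inr (WSys.rL S N (G i)))) with hT1
  set T2 : Fin m → ℝ := fun i => (-(a N - 1) * PF X (X.wt k) n π J x (Function.update (Fo S N G) i (fD S N 1 (G i))) +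
      b N * PF X (X.wt k) n π J x (Function.update (Fo S N G) i (fD S N 2 (G i)))) +
    (-(a N - 1) * PF X (X.wt (k + 1)) n π J x (Function.update (Fo S N G) i (fD S N 0 (G i))) +
      b N * PF X (X.wt (k + 1)) n π J x (Function.update (Fo S N G) i (fD S N 3 (G i)))) with hT2
  have hI2 : |PF X (X.wt (k + 1)) n π J x (Fo S N G) - PF X (X.wt k) n π J x (Fo S N G) - ∑ i ∈ J, T1 i| ≤ ε1 / N := hI1
  have hT : ∀ i ∈ J, |T1 i - T2 i| ≤ 4 * (ε1 / N) := by
    intro i hi
    obtain ⟨k1, k2⟩ := key i hi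
    rw [hT1, hT2]
    simp only
    have e : ∀ p q r s : ℝ, p + q - (r + s) = (p - r) + (q - s) := fun p q r s => by ring
    rw [e]
    refine (abs_add_le _ _).trans ?_
    linarith
  have hTs : |∑ i ∈ J, T1 i - ∑ i ∈ J, T2 i| ≤ (m : ℝ) * (4 * (ε1 / N)) := by
    rw [← Finset.sum_sub_distrib]
    refine (Finset.abs_sum_le_sum_abs _ _).trans ((Finset.sum_le_sum hT).trans ?_)
    rw [Finset.sum_const, nsmul_eq_mul]
    refine mul_le_mul_of_nonneg_right ?_ (by positivity)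
    have := Finset.card_le_univ J
    rw [Fintype.card_fin] at this
    exact_mod_cast this
  change |_ - _ - ∑ i ∈ J, T2 i| ≤ _
  have e4 : PF X (X.wt (k + 1)) n π J x (Fo S N G) - PF X (X.wt k) n π J x (Fo S N G) - ∑ i ∈ J, T2 i =
      (PF X (X.wt (k + 1)) n π J x (Fo S N G) - PF X (X.wt k) n π J x (Fo S N G) - ∑ i ∈ J, T1 i) +
        (∑ i ∈ J, T1 i - ∑ i ∈ J, T2 i) := by ring
  rw [e4]
  refine (abs_add_le _ _).trans ((add_le_add hI2 hTs).trans ?_)
  have e5 : ε1 / N + (m : ℝ) * (4 * (ε1 / N)) = (ε1 * (1 + 4 * m)) / N := by ring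
  rw [e5]
  refine div_le_div_of_nonneg_right ?_ hN0.le
  rw [hε1, div_mul_eq_mul_div, div_le_iff₀ (by positivity)]
  nlinarith

section change

variable {N n : ℕ} {K δ Λ κ d W B C A : ℝ} {k : ℤ} {J : Finset (Fin m)} {G : Fin m → (Fin 4 → ℝ) → ℝ}
  {x : Fin m → Z2} {π : Fin m → Bool}

variable (hset : ∀ l : ℤ, Set1 X (X.wt l) N n (K + 2) (δ / 4) (d / 4) π J x W)
  (hT : ∀ (f : S.P → ℝ) (b : ℝ), Okf S N (K + 2) (δ / 4) f → (∀ v, |f v| ≤ b) → Tn S n f ≤ b * C)
  (hB1 : 1 ≤ B) (hBΛ : |Λ| * C ≤ B) (hA : WSys.Adm N K δ Λ κ d k J G x) (hs : Sml N δ κ d)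
  (hs' : Sml N (δ / 2) (κ / 2) (d / 2)) (hδ : 0 < δ)

include hset hT hB1 hBΛ hA hs hs' hδ in
/-- the main terms do not see a change of one test function, to second order -/
lemma Mn2_diff {a b : ℝ} (ha : |a| ≤ A) (hb : |b| ≤ A) {j : Fin m} (hj : j ∈ J) (u : Fin 4) :
    |Mn2 X N n π J x k a b (Function.update G j (gs N u (G j))) - Mn2 X N n π J x k a b G| ≤
      m * ((4 * A + 2) * (W * (B ^ 2 / (N : ℝ) ^ 2 * B ^ m))) := by
  have hA0 : 0 ≤ A := (abs_nonneg _).trans ha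
  have hW : 0 ≤ W := ENNReal.toReal_nonneg.trans (hset 0).nW
  set q : ℝ := W * (B ^ 2 / (N : ℝ) ^ 2 * B ^ m) with hq
  have hq0 : 0 ≤ q := by positivity
  have ha' : |-(a - 1)| ≤ A + 1 := by
    rw [abs_neg]
    refine (abs_sub _ _).trans ?_
    rw [abs_one]
    linarith
  rw [Mn2, Mn2, ← Finset.sum_sub_distrib]
  refine (Finset.abs_sum_le_sum_abs _ _).trans ?_
  have key : ∀ i ∈ J, |((-(a - 1) *
      PF X (X.wt k) n π J x (Function.update (Fo S N (Function.update G j (gs N u (G j)))) i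
        (fD S N 1 (Function.update G j (gs N u (G j)) i))) +
      b * PF X (X.wt k) n π J x (Function.update (Fo S N (Function.update G j (gs N u (G j)))) i
        (fD S N 2 (Function.update G j (gs N u (G j)) i)))) +
      (-(a - 1) * PF X (X.wt (k + 1)) n π J x (Function.update (Fo S N (Function.update G j (gs N u (G j)))) i
        (fD S N 0 (Function.update G j (gs N u (G j)) i))) +
      b * PF X (X.wt (k + 1)) n π J x (Function.update (Fo S N (Function.update G j (gs N u (G j)))) i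
        (fD S N 3 (Function.update G j (gs N u (G j)) i))))) -
      ((-(a - 1) * PF X (X.wt k) n π J x (Function.update (Fo S N G) i (fD S N 1 (G i))) +
      b * PF X (X.wt k) n π J x (Function.update (Fo S N G) i (fD S N 2 (G i)))) +
      (-(a - 1) * PF X (X.wt (k + 1)) n π J x (Function.update (Fo S N G) i (fD S N 0 (G i))) +
      b * PF X (X.wt (k + 1)) n π J x (Function.update (Fo S N G) i (fD S N 3 (G i)))))| ≤ (4 * A + 2) * q := by
    intro i hi
    have r0 := resp_diff hset hT hB1 hBΛ hA hs hs' hδ (k + 1) hi hj u 0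
    have r1 := resp_diff hset hT hB1 hBΛ hA hs hs' hδ k hi hj u 1
    have r2 := resp_diff hset hT hB1 hBΛ hA hs hs' hδ k hi hj u 2
    have r3 := resp_diff hset hT hB1 hBΛ hA hs hs' hδ (k + 1) hi hj u 3
    rw [← hq] at r0 r1 r2 r3
    have e : ∀ c c' p0 p1 p2 p3 q0 q1 q2 q3 : ℝ, ((c * p1 + c' * p2) + (c * p0 + c' * p3)) -
        ((c * q1 + c' * q2) + (c * q0 + c' * q3)) = c * ((p0 - q0) + (p1 - q1)) + c' * ((p2 - q2) + (p3 - q3)) := by
      intros
      ring
    rw [e]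
    refine (abs_add_le _ _).trans ?_
    rw [abs_mul, abs_mul]
    have s1 := mul_le_mul ha' ((abs_add_le _ _).trans (add_le_add r0 r1)) (abs_nonneg _) (by linarith)
    have s2 := mul_le_mul hb ((abs_add_le _ _).trans (add_le_add r2 r3)) (abs_nonneg _) hA0
    refine (add_le_add s1 s2).trans (le_of_eq ?_)
    ring
  refine (Finset.sum_le_sum key).trans ?_
  rw [Finset.sum_const, nsmul_eq_mul]
  refine mul_le_mul_of_nonneg_right ?_ (by positivity)
  have := Finset.card_le_univ J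
  rw [Fintype.card_fin] at this
  exact_mod_cast this

end change

/-- **UStep, with (INC2)** -/
theorem step2 {a b : ℕ → ℝ} {A : ℝ} (hI : X.INC2) (hL : X.LRW a b) (hX : X.Near) (hM : S.Mass)
    (hab : ∀ N, |a N| ≤ A ∧ |b N| ≤ A) : X.Step a b := by
  intro m π K δ Λ κ d ε hπ hδ hκ hd hε
  have hA0 : 0 ≤ A := (abs_nonneg _).trans (hab 0).1
  by_cases hK : 0 ≤ K
  swap
  · refine ⟨1, fun N hN k n J G x _ hA _ => ?_⟩
    exfalso
    have h1 := (abs_nonneg _).trans hA.kk
    have h2 : (0 : ℝ) < N := by exact_mod_cast hN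
    push Not at hK
    nlinarith
  obtain ⟨W, hW0, hW⟩ := near_big X hX (d := min (δ / 4) (d / 4)) (R := K + 2 + 1) (by positivity) (by positivity)
  obtain ⟨C, hC0, hC⟩ := mass_big hM (K + 2) (δ := δ / 4) (by positivity)
  set B : ℝ := 1 + |Λ| * (A + 1) * C with hB
  have hB1 : 1 ≤ B := by
    have : 0 ≤ |Λ| * (A + 1) * C := by positivity
    linarith
  have hBΛ : |Λ| * C ≤ B := by
    have : 0 ≤ |Λ| * C * A := by positivity
    rw [hB]
    nlinarith
  have hBΛ' : |Λ| * (A + 1) * C ≤ B := by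
    rw [hB]
    linarith
  set ε1 : ℝ := ε / (2 * (1 + 2 * m * (2 * A + 1))) with hε1
  have hε1' : 0 < ε1 := by positivity
  set q1 : ℝ := W * (B ^ 2 * B ^ m) with hq1
  set T0 : ℝ := 4 * (|Λ| * (5 * (A + 1) ^ 2 + 2 * (A + 1))) * C with hT0
  set Ct : ℝ := m * ((2 * A + 1) * (m * ((4 * A + 2) * q1))) + m * (W * (T0 * B ^ m)) +
    W * ((m : ℝ) ^ 2 * B ^ m * B ^ 2) with hCt
  have hCt0 : 0 ≤ Ct := by positivity
  obtain ⟨N1, hN1⟩ := exists_nat_ge (2 * Ct / ε)
  have hev := ((((((stepA2 hI hL hX π hK hπ hδ hκ hd hε1' (Λ := Λ)).and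
    (stepA2 hI hL hX π (by linarith : 0 ≤ K + 1) hπ (half_pos hδ) (half_pos hκ) (half_pos hd) hε1' (Λ := Λ))).and
    hW).and hC).and (ev_sml hδ hκ hd)).and (ev_sml (half_pos hδ) (half_pos hκ) (half_pos hd))).and
      (eventually_ge_atTop N1)
  obtain ⟨N0, hN0⟩ := eventually_atTop.1 hev
  refine ⟨N0, fun N hN k n J G x hn hA hA' => ?_⟩
  obtain ⟨⟨⟨⟨⟨⟨hS1, hS2⟩, hW⟩, hC⟩, hs⟩, hs'⟩, hNN⟩ := hN0 N hN
  have hNp := hs.pos
  -- the larger box
  obtain ⟨n', hn'⟩ := exists_nat_ge (max ((K + 3) * (N : ℝ)) n)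
  have hn1 : (K + 3) * (N : ℝ) ≤ n' := (le_max_left _ _).trans hn'
  have hKN : 0 ≤ K * (N : ℝ) := by positivity
  set sG : Fin m → (Fin 4 → ℝ) → ℝ := fun i y => G i (y + WSys.sh N (a N) (b N)) with hsG
  rw [ob_eq, ob_eq]
  change |PF X (X.wt (k + 1)) n π J x (Fo S N G) - PF X (X.wt k) n π J x (Fo S N sG)| ≤ _
  rw [PF_box hs.n1 (X.wt (k + 1)) (okf_Fo (S := S) hA.tf) (by linarith) (by linarith : K * N ≤ (n' : ℝ)),
    PF_box hs.n1 (X.wt k) (okf_Fo (S := S) (G := sG) hA'.tf) (by linarith) (by linarith : K * N ≤ (n' : ℝ))]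
  have hA3 : WSys.Adm N (K + 2) (δ / 4) Λ (κ / 4) (d / 4) k J G x :=
    adm_mono hA (by linarith) (by linarith) (by linarith) (by linarith)
  have hgeo : Geo N (K + 2) (d / 4) J x := ⟨fun i hi => ⟨(hA3.pt i hi).2.1, (hA3.pt i hi).2.2⟩, hA3.pp⟩
  have hset : ∀ l : ℤ, Set1 X (X.wt l) N n' (K + 2) (δ / 4) (d / 4) π J x W := fun l =>
    ⟨hs.n1, hπ, hgeo, X.wt_nn l, (hW l).1, (hW l).2⟩
  have hT : ∀ (f : S.P → ℝ) (b : ℝ), Okf S N (K + 2) (δ / 4) f → (∀ v, |f v| ≤ b) → Tn S n' f ≤ b * C :=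
    fun f b => hC n' f b
  have hE := hS1 k n' J G x (by linarith) hA
  have hcard : (J.card : ℝ) ≤ m := by
    have := Finset.card_le_univ J
    rw [Fintype.card_fin] at this
    exact_mod_cast this
  have hF : ∀ i ∈ J, Okf S N (K + 2) (δ / 4) (Fo S N G i) := fun i hi =>
    (okf_Fo hA.tf i hi).mono (by linarith) (by linarith)
  have hF' : ∀ i ∈ J, Okf S N (K + 2) (δ / 4) (Fo S N sG i) := fun i hi =>
    (okf_Fo (G := sG) hA'.tf i hi).mono (by linarith) (by linarith)
  have hfD : ∀ u, ∀ i ∈ J, Okf S N (K + 2) (δ / 4) (fD S N u (G i)) := fun u i hi =>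
    (okf_fD (hA.tf i hi) hδ.le hs u).mono (by linarith) (by linarith)
  set q : ℝ := W * (B ^ 2 / (N : ℝ) ^ 2 * B ^ m) with hq
  have hqq : q = q1 / (N : ℝ) ^ 2 := by
    rw [hq, hq1]
    ring
  -- rows: the lattice `k + 1` may be replaced by `k`
  have hrow : ∀ j ∈ J, ∀ u : Fin 4, |PF X (X.wt (k + 1)) n' π J x (Function.update (Fo S N G) j (fD S N u (G j))) -
      PF X (X.wt k) n' π J x (Function.update (Fo S N G) j (fD S N u (G j)))| ≤
      2 * (ε1 / N) + m * ((4 * A + 2) * q) := by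
    intro j hj u
    have hG' := hS2 k n' J (Function.update G j (gs N u (G j))) x (by linarith) (adm_shift hA hs hδ.le hκ.le hd.le hj u)
    have hD := Mn2_diff (n := n') (π := π) (a := a N) (b := b N) hset hT hB1 hBΛ hA hs hs' hδ (hab N).1 (hab N).2 hj u
    have okg : Okf S N (K + 2) (δ / 4) fun v => gs N u (G j) (S.hN N v) :=
      Okf.mono (okf_of (K' := K + 1) (δ' := δ / 2) (g := gs N u (G j)) (fun _ h0 => h0)
        (Tf1.shift (hA.tf j hj) hs u).sup) (by linarith) (by linarith)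
    have e1 : ∀ l : ℤ, PF X (X.wt l) n' π J x (Function.update (Fo S N G) j (fD S N u (G j))) =
        PF X (X.wt l) n' π J x (Fo S N (Function.update G j (gs N u (G j)))) -
          PF X (X.wt l) n' π J x (Fo S N G) := by
      intro l
      have e2 := (hset l).sub (F := Fo S N G) hj (fun l hl _ => hF l hl) okg (hF j hj)
      rw [Function.update_eq_self, ← Fo_update] at e2
      exact e2
    rw [e1, e1]
    set p1 := PF X (X.wt (k + 1)) n' π J x (Fo S N (Function.update G j (gs N u (G j))))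
    set p0 := PF X (X.wt k) n' π J x (Fo S N (Function.update G j (gs N u (G j))))
    set r1 := PF X (X.wt (k + 1)) n' π J x (Fo S N G)
    set r0 := PF X (X.wt k) n' π J x (Fo S N G)
    set M1 := Mn2 X N n' π J x k (a N) (b N) (Function.update G j (gs N u (G j)))
    set M0 := Mn2 X N n' π J x k (a N) (b N) G
    have e3 : p1 - r1 - (p0 - r0) = (p1 - p0 - M1) - (r1 - r0 - M0) + (M1 - M0) := by ring
    rw [e3]
    refine (abs_add_le _ _).trans ?_
    have e4 := abs_sub (p1 - p0 - M1) (r1 - r0 - M0)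
    rw [← hq] at hD
    linarith
  -- the main terms in the lattice `k`
  set L : Fin m → S.P → ℝ := fun i v => (-(a N - 1) * fD S N 0 (G i) v + -(a N - 1) * fD S N 1 (G i) v) +
    (b N * fD S N 2 (G i) v + b N * fD S N 3 (G i) v) with hL'
  have hLok : ∀ i ∈ J, Okf S N (K + 2) (δ / 4) (L i) := fun i hi =>
    (((hfD 0 i hi).smul _).add ((hfD 1 i hi).smul _)).add (((hfD 2 i hi).smul _).add ((hfD 3 i hi).smul _))
  have hM1 : |Mn2 X N n' π J x k (a N) (b N) G - ∑ i ∈ J, PF X (X.wt k) n' π J x (Function.update (Fo S N G) i (L i))| ≤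
      m * ((2 * A + 1) * (2 * (ε1 / N) + m * ((4 * A + 2) * q))) := by
    rw [Mn2, ← Finset.sum_sub_distrib]
    refine (Finset.abs_sum_le_sum_abs _ _).trans ?_
    have key : ∀ i ∈ J, |((-(a N - 1) * PF X (X.wt k) n' π J x (Function.update (Fo S N G) i (fD S N 1 (G i))) +
        b N * PF X (X.wt k) n' π J x (Function.update (Fo S N G) i (fD S N 2 (G i)))) +
        (-(a N - 1) * PF X (X.wt (k + 1)) n' π J x (Function.update (Fo S N G) i (fD S N 0 (G i))) +
        b N * PF X (X.wt (k + 1)) n' π J x (Function.update (Fo S N G) i (fD S N 3 (G i))))) -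
        PF X (X.wt k) n' π J x (Function.update (Fo S N G) i (L i))| ≤
        (2 * A + 1) * (2 * (ε1 / N) + m * ((4 * A + 2) * q)) := by
      intro i hi
      have e1 := (hset k).lin4 hi (fun j hj _ => hF j hj) (hfD 0 i hi) (hfD 1 i hi) (hfD 2 i hi) (hfD 3 i hi)
        (-(a N - 1)) (-(a N - 1)) (b N) (b N)
      rw [hL']
      simp only
      rw [e1]
      have r0 := hrow i hi 0
      have r3 := hrow i hi 3
      set t : ℝ := 2 * (ε1 / N) + m * ((4 * A + 2) * q)
      have ha' : |-(a N - 1)| ≤ A + 1 := by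
        rw [abs_neg]
        refine (abs_sub _ _).trans ?_
        rw [abs_one]
        linarith [(hab N).1]
      have e2 : ∀ c c' p0 p1 p2 p3 q0 q3 : ℝ, ((c * p1 + c' * p2) + (c * p0 + c' * p3)) -
          ((c * q0 + c * p1) + (c' * p2 + c' * q3)) = c * (p0 - q0) + c' * (p3 - q3) := by
        intros
        ring
      rw [e2]
      refine (abs_add_le _ _).trans ?_
      rw [abs_mul, abs_mul]
      have s1 := mul_le_mul ha' r0 (abs_nonneg _) (by linarith)
      have s2 := mul_le_mul (hab N).2 r3 (abs_nonneg _) hA0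
      refine (add_le_add s1 s2).trans (le_of_eq ?_)
      ring
    refine (Finset.sum_le_sum key).trans ?_
    rw [Finset.sum_const, nsmul_eq_mul]
    refine mul_le_mul_of_nonneg_right hcard ?_
    have : 0 ≤ q := by positivity
    positivity
  -- second order
  have hsec := (hset k).sec (F := Fo S N G) (F' := Fo S N sG) (A := B) (β := B / N) hF hF' hB1 (by positivity)
    (fun j hj => ?_) (fun j hj => ?_) (fun j hj => ?_)
  rotate_left
  · refine (hT _ |Λ| (hF j hj) fun v => ?_).trans hBΛ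
    exact ((hA.tf j hj).bd _).trans (le_abs_self _)
  · refine (hT _ |Λ| (hF' j hj) fun v => ?_).trans hBΛ
    exact ((hA'.tf j hj).bd _).trans (le_abs_self _)
  · refine (hT _ (|Λ| * ((A + 1) / N)) (okf_sub (hF' j hj) (hF j hj)) fun v => ?_).trans ?_
    · refine ((hA.tf j hj).lip (S.hN N v) (WSys.sh N (a N) (b N))).trans ?_
      exact mul_le_mul (le_abs_self _) (norm_sh (hab N).1 (hab N).2) (norm_nonneg _) (abs_nonneg _)
    · have e : |Λ| * ((A + 1) / N) * C = |Λ| * (A + 1) * C / N := by ring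
      rw [e]
      exact div_le_div_of_nonneg_right hBΛ' hNp.le
  -- Taylor
  have htay : |∑ i ∈ J, PF X (X.wt k) n' π J x (Function.update (Fo S N G) i fun v => Fo S N sG i v - Fo S N G i v) -
      ∑ i ∈ J, PF X (X.wt k) n' π J x (Function.update (Fo S N G) i (L i))| ≤
      m * (W * (T0 / (N : ℝ) ^ 2 * B ^ m)) := by
    rw [← Finset.sum_sub_distrib]
    refine (Finset.abs_sum_le_sum_abs _ _).trans ?_
    have key : ∀ i ∈ J, |PF X (X.wt k) n' π J x (Function.update (Fo S N G) i fun v => Fo S N sG i v - Fo S N G i v) -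
        PF X (X.wt k) n' π J x (Function.update (Fo S N G) i (L i))| ≤ W * (T0 / (N : ℝ) ^ 2 * B ^ m) := by
      intro i hi
      have ok1 := okf_sub (hF' i hi) (hF i hi)
      rw [← (hset k).sub hi (fun j hj _ => hF j hj) ok1 (hLok i hi)]
      refine (hset k).le1 (A := B) hi (Okf.update hF (okf_sub ok1 (hLok i hi))) hB1 ?_ fun j hj hji => ?_
      · rw [Function.update_self]
        have e : T0 / (N : ℝ) ^ 2 = 4 * (|Λ| * (5 * (A + 1) ^ 2 + 2 * (A + 1))) / (N : ℝ) ^ 2 * C := by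
          rw [hT0]
          ring
        rw [e]
        refine hT _ _ (okf_sub ok1 (hLok i hi)) fun v => ?_
        have h1 := taylor_sh (hA.tf i hi) hs.n1 (S.hN N v) (hab N).1 (hab N).2
        rw [abs_of_nonneg (Tf1.Lnn (hA.tf i hi))]
        refine le_trans (le_of_eq ?_) h1
        congr 1
        simp only [Fo, hsG, hL', fD]
        ring
      · rw [Function.update_of_ne hji]
        refine (hT _ |Λ| (hF j hj) fun v => ?_).trans hBΛ
        exact ((hA.tf j hj).bd _).trans (le_abs_self _)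
    refine (Finset.sum_le_sum key).trans ?_
    rw [Finset.sum_const, nsmul_eq_mul]
    exact mul_le_mul_of_nonneg_right hcard (by positivity)
  -- end
  set P1 := PF X (X.wt (k + 1)) n' π J x (Fo S N G)
  set P0 := PF X (X.wt k) n' π J x (Fo S N G)
  set P2 := PF X (X.wt k) n' π J x (Fo S N sG)
  set MM := Mn2 X N n' π J x k (a N) (b N) G
  set ML := ∑ i ∈ J, PF X (X.wt k) n' π J x (Function.update (Fo S N G) i (L i))
  set MT := ∑ i ∈ J, PF X (X.wt k) n' π J x (Function.update (Fo S N G) i fun v => Fo S N sG i v - Fo S N G i v)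
  have e9 : P1 - P2 = (P1 - P0 - MM) + (MM - ML) - (MT - ML) - (P2 - P0 - MT) := by ring
  rw [e9]
  have t1 := abs_sub ((P1 - P0 - MM) + (MM - ML) - (MT - ML)) (P2 - P0 - MT)
  have t2 := abs_sub ((P1 - P0 - MM) + (MM - ML)) (MT - ML)
  have t3 := abs_add_le (P1 - P0 - MM) (MM - ML)
  have hfin : ε1 / N + m * ((2 * A + 1) * (2 * (ε1 / N) + m * ((4 * A + 2) * q))) + m * (W * (T0 / (N : ℝ) ^ 2 * B ^ m)) +
      W * ((m : ℝ) ^ 2 * B ^ m * (B / N) ^ 2) = ε1 * (1 + 2 * m * (2 * A + 1)) / N + Ct / (N : ℝ) ^ 2 := by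
    rw [hqq, hCt]
    ring
  have h5 : ε1 * (1 + 2 * m * (2 * A + 1)) = ε / 2 := by
    rw [hε1]
    have : (1 + 2 * (m : ℝ) * (2 * A + 1)) ≠ 0 := by positivity
    field_simp
  have h6 : Ct / (N : ℝ) ^ 2 ≤ (ε / 2) / N := by
    have h7 : 2 * Ct / ε ≤ N := hN1.trans (by exact_mod_cast hNN)
    rw [div_le_iff₀ hε] at h7
    rw [div_le_div_iff₀ (by positivity) hNp]
    nlinarith
  have h8 : (ε / 2) / (N : ℝ) + (ε / 2) / N = ε / N := by ring
  rw [h5] at hfin
  linarith

end St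

end Pool.Agent.ROT.U
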