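import Pool.Agent.ROT.UFlowG
import Pool.Agent.ROT.UStep
import Pool.Agent.ROT.UStep2
import Pool.Agent.ROT.ULrwI
import Pool.Agent.ROT.UNear
import Pool.Agent.ROT.ULine7

/-!
# ROT, UNIV, side A: assembly (helper53, helper10)

**`univ_of`** : the line theorem and the exact increment (`INC`) of the instance ⇒ the comparison of all pattern functions
of the critical polygons of the square lattice (Yang-Baxter weights, right angle) and of the honeycomb.
**`univ_of_inc`** : the same with helper70's line theorem; **`univ_of_inc2`** : from the form `INC2` of the exact increment.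
-/

set_option autoImplicit false

open Filter Topology

namespace Pool.Agent.ROT.U

open Pool.Agent.ROT.A

/-- the masses of the tracers -/
theorem massU : hexU.Mass := inpHex.mass

/-- side A of UNIV, from the step -/
theorem univ_of_step (hL : Line) (hI : ∀ (A : ℝ) (a b : ℕ → ℝ), (∀ N, |a N| ≤ A ∧ |b N| ≤ A) → instU.LRW a b →
    instU.Near → instU.Step a b) : ∀ (m : ℕ) (π : Fin m → Bool), PSys.NT π →
    UId.Flow (UId.Pu (fun _ => 3 * Real.pi / 16) (UId.tz π)) (UId.Pu hc (UId.tz π)) (fun _ => 2 / Real.sqrt 3)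
      (fun _ => -(1 / Real.sqrt 3)) := by
  have hb : Real.pi / 8 ≤ bb ∧ bb ≤ Real.pi / 4 := by
    have := Real.pi_pos
    unfold bb
    constructor <;> linarith
  have hN := near_lat hL hb.1 hb.2
  obtain ⟨A, a, b, hab, hlr⟩ := lrwU hN
  have hA1 : 1 ≤ A := (hab 0).1.trans (hab 0).2.1
  have hst := hI A a b (fun N => by
    obtain ⟨h1, h2, h3, h4⟩ := hab N
    rw [abs_of_nonneg (by linarith), abs_of_nonneg h3]
    exact ⟨h2, h4.trans hA1⟩) hlr (nearU hN)
  have hout := WSys.out_of (A := A) (fun N => by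
    obtain ⟨h1, h2, h3, h4⟩ := hab N
    exact ⟨h1, h2, h3, h4.trans hA1⟩) (nearU hN) hst massU honU
  exact (outU hN (fun n => (hab n).1) (fun n => (hab n).2.1) (fun n => by
    obtain ⟨-, -, h3, h4⟩ := hab n
    rw [abs_of_nonneg h3]
    exact h4.trans hA1) hout).2.2

/-- **side A of UNIV** -/
theorem univ_of (hL : Line) (hI : instU.INC) : ∀ (m : ℕ) (π : Fin m → Bool), PSys.NT π →
    UId.Flow (UId.Pu (fun _ => 3 * Real.pi / 16) (UId.tz π)) (UId.Pu hc (UId.tz π)) (fun _ => 2 / Real.sqrt 3)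
      (fun _ => -(1 / Real.sqrt 3)) :=
  univ_of_step hL fun A _ _ hab hlr hN => St.step hI hlr hN massU (A := A) hab

/-- **side A of UNIV, with the line theorem** -/
theorem univ_of_inc (hI : instU.INC) : ∀ (m : ℕ) (π : Fin m → Bool), PSys.NT π →
    UId.Flow (UId.Pu (fun _ => 3 * Real.pi / 16) (UId.tz π)) (UId.Pu hc (UId.tz π)) (fun _ => 2 / Real.sqrt 3)
      (fun _ => -(1 / Real.sqrt 3)) := univ_of Ls.line hI

/-- **side A of UNIV, from `INC2`** -/
theorem univ_of_inc2 (hI : instU.INC2) : ∀ (m : ℕ) (π : Fin m → Bool), PSys.NT π →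
    UId.Flow (UId.Pu (fun _ => 3 * Real.pi / 16) (UId.tz π)) (UId.Pu hc (UId.tz π)) (fun _ => 2 / Real.sqrt 3)
      (fun _ => -(1 / Real.sqrt 3)) :=
  univ_of_step Ls.line fun A _ _ hab hlr hN => St.step2 hI hlr hN massU (A := A) hab

end Pool.Agent.ROT.U
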