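import Pool.Agent.ROT.LSymP

/-!
# UNIV, row CC (helper21): points are class constant; the symmetries of one loop

A point of the line `p` (between the columns `p - 1` and `p`) is surrounded by the member `i` iff
`E.sg (dn (co γ i)) p y = 1`.  `sg_cst`: this is constant on the classes `Eq6 (Rg j r)` of the row swaps (graphs `g0`,
`gX j r`, `gX j (r + 1)`) as soon as `p ≠ j + 1` (`E.Sm.sg_eq` is the same for the swap of the whole strip).
`sg_hr`: the reflection in a horizontal line.  `Wl u w` = weight of one loop, `Pn u τ x` = mass of the loops with the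
sides `τ i` at the corners `x i`; `Pn_tp`, `Pn_pr`, `Pn_tr`, `Pn_hr` (angle `3 π / 8 - u`), `Pn_d4` (all of the square
group for `u = 3 π / 16`).
-/

set_option autoImplicit false

namespace Pool.Agent.ROT.U

open Pool.Agent.YBC (Dir)
open Pool.Agent.UNI (wR)
open Pool.Agent.ROT.E (Cell IsUn Pt nx Sy Cfg sg sg_succ sg_right io io_eq io_of io_supp)
open Pool.Agent.ROT.L

variable {I : Type}

/-! ### the points -/

theorem W_of_Gs {j r : ℤ} {g : Gr VX} (h : g ∈ Gs j r) (v : Pt) : g.e (some v, .W) = (some (nx v .W), .E) := by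
  rcases h with rfl | rfl | rfl <;> rfl

/-- **the points of the lines `p ≠ j + 1` are constant on the classes of the row swaps of the strip `j`** -/
theorem sg_cst {j r : ℤ} {g g' : Gr VX} (hg : g ∈ Gs j r) (hg' : g' ∈ Gs j r) {γ γ' : FX I}
    (h : Eq6 (Rg j r) g g' γ γ') (i : I) {p : ℤ} (hp : p ≠ j + 1) (y : ℤ) :
    E.sg (dn (co γ i)) p y = E.sg (dn (co γ' i)) p y := by
  rw [← sgx_eq, ← sgx_eq]
  refine sgx_congr (fun y => ?_) y
  refine hz_out (s := r) (W_of_Gs hg) (W_of_Gs hg') (h.fam.lp i).mt (h.fam'.lp i).mt (fun v hv => ?_) hp y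
  change γ v i = γ' v i
  rw [h.out v hv]

/-! ### the reflection -/

private theorem z3 : ∀ a b : ZMod 2, a = a + b + b := by decide

/-- **reflection in a horizontal line** -/
theorem sg_hr {δ : Cfg} (hm : E.Mt δ Set.univ) (p y : ℤ) : sg (E.hrS.ac δ) p (1 - y) = sg δ p y := by
  obtain ⟨Y, hY⟩ := ex_bd δ
  have hY' : ∀ v ∈ (E.hrS.ac δ).support, |v.1| < Y ∧ |v.2| < Y := by
    intro v hv
    obtain ⟨w, rfl⟩ := E.hrS.e.surjective v
    rw [supp_ac] at hv
    have h1 := hY w hv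
    refine ⟨h1.1, ?_⟩
    change |-w.2| < Y
    rw [abs_neg]
    exact h1.2
  have key : ∀ n : ℕ, ∀ y : ℤ, Y + 1 ≤ y + n → sg (E.hrS.ac δ) p (1 - y) = sg δ p y := by
    intro n
    induction n with
    | zero =>
      intro y hy
      push_cast at hy
      rw [sg_low (mt_ac _ hm) hY' (by omega), sg_far]
      intro v hv
      right
      have h1 := (hY v hv).2
      have h2 := le_abs_self v.2
      omega
    | succ n ih =>
      intro y hy
      have h1 := ih (y + 1) (by push_cast at hy ⊢; omega)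
      have e1 : (1 : ℤ) - (y + 1) = -y := by ring
      have e2 : (1 : ℤ) - y = -y + 1 := by ring
      rw [e1, sg_succ] at h1
      rw [sg_succ δ p y, ← h1, e2]
      have e3 : io (E.hrS.ac δ) (p, -y) .W = io δ (p, y) .W := io_ac E.hrS δ (p, y) .W
      rw [e3]
      exact z3 _ _
  exact key (Y + 1 - y).toNat y (by
    have := Int.self_le_toNat (Y + 1 - y)
    omega)

/-! ### the weight of one loop -/

/-- the weight of one loop -/
noncomputable def Wl (u : ℝ) (w : Cfg) : ℝ := w.prod fun _ c => c.wt (wR u)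

theorem wt_o (w : Pool.Agent.EXL.Wt ℝ) : Cell.wt w (0 : Cell) = 1 := rfl

theorem Wl_ac (S : Sy) {u u' : ℝ} (h : ∀ c, (S.f c).wt (wR u) = c.wt (wR u')) (w : Cfg) :
    Wl u (S.ac w) = Wl u' w := by
  classical
  unfold Wl
  rw [Finsupp.prod, Finsupp.prod]
  refine (Finset.prod_bij (fun v _ => S.e v) ?_ ?_ ?_ ?_).symm
  · intro v hv
    rw [supp_ac]
    exact hv
  · intro a _ b _ hab
    exact S.e.injective hab
  · intro v hv
    obtain ⟨x, rfl⟩ := S.e.surjective v
    rw [supp_ac] at hv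
    exact ⟨x, hv, rfl⟩
  · intro v _
    rw [S.ac_apply, h]

open Classical in
/-- **the mass of the loops with the sides `τ i` at the corners `x i`** -/
noncomputable def Pn (u : ℝ) {m : ℕ} (τ : Fin m → ZMod 2) (x : Fin m → Pt) : ℝ :=
  ∑' w : Cfg, if E.Lp w ∧ ∀ i, sg w (x i).1 (x i).2 = τ i then Wl u w else 0

/-- the general symmetry -/
theorem Pn_ac (S : Sy) {u u' : ℝ} (h : ∀ c, (S.f c).wt (wR u) = c.wt (wR u')) {g : Pt → Pt}
    (hg : ∀ w : Cfg, E.Mt w Set.univ → ∀ x : Pt, sg (S.ac w) (g x).1 (g x).2 = sg w x.1 x.2) {m : ℕ}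
    (τ : Fin m → ZMod 2) (x : Fin m → Pt) : Pn u τ (fun i => g (x i)) = Pn u' τ x := by
  classical
  unfold Pn
  rw [← S.eqC.tsum_eq]
  refine tsum_congr fun w => ?_
  change (if E.Lp (S.ac w) ∧ ∀ i, sg (S.ac w) (g (x i)).1 (g (x i)).2 = τ i then Wl u (S.ac w) else 0) = _
  rw [Wl_ac S h, S.lp_iff]
  by_cases hl : E.Lp w
  · have e : (∀ i, sg (S.ac w) (g (x i)).1 (g (x i)).2 = τ i) ↔ ∀ i, sg w (x i).1 (x i).2 = τ i :=
      forall_congr' fun i => by rw [hg w hl.mt]
    simp only [e]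
  · rw [if_neg fun h => hl h.1, if_neg fun h => hl h.1]

theorem Pn_tr (u : ℝ) (a : Pt) {m : ℕ} (τ : Fin m → ZMod 2) (x : Fin m → Pt) :
    Pn u τ (fun i => x i + a) = Pn u τ x :=
  Pn_ac (E.trS a) (g := fun x => x + a) (fun _ => rfl) (fun w _ x => sg_tr a w x.1 x.2) τ x

theorem Pn_tp (u : ℝ) {m : ℕ} (τ : Fin m → ZMod 2) (x : Fin m → Pt) :
    Pn u τ (fun i => ((x i).2, (x i).1)) = Pn u τ x :=
  Pn_ac E.tpS (g := fun x => (x.2, x.1)) (fun c => E.tp_wt (wR u) c) (fun _ hm x => sg_tp hm x.1 x.2) τ x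

theorem Pn_pr (u : ℝ) {m : ℕ} (τ : Fin m → ZMod 2) (x : Fin m → Pt) :
    Pn u τ (fun i => (1 - (x i).1, 1 - (x i).2)) = Pn u τ x :=
  Pn_ac E.prS (g := fun x => (1 - x.1, 1 - x.2)) (fun c => E.pr_wt (wR u) c) (fun _ hm x => sg_pr hm x.1 x.2) τ x

theorem Pn_hr (u : ℝ) {m : ℕ} (τ : Fin m → ZMod 2) (x : Fin m → Pt) :
    Pn (3 * Real.pi / 8 - u) τ (fun i => ((x i).1, 1 - (x i).2)) = Pn u τ x :=
  Pn_ac E.hrS (g := fun x => (x.1, 1 - x.2)) (fun c => E.hr_wt u c) (fun _ hm x => sg_hr hm x.1 x.2) τ x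

/-- **the right angle: the reflection in a horizontal line** -/
theorem Pn_hr90 {m : ℕ} (τ : Fin m → ZMod 2) (x : Fin m → Pt) :
    Pn (3 * Real.pi / 16) τ (fun i => ((x i).1, 1 - (x i).2)) = Pn (3 * Real.pi / 16) τ x := by
  have h := Pn_hr (3 * Real.pi / 16) τ x
  have e : 3 * Real.pi / 8 - 3 * Real.pi / 16 = 3 * Real.pi / 16 := by ring
  rwa [e] at h

/-- **the right angle: the rotation by 90 degrees** `(p, y) ↦ (1 - y, p)` -/
theorem Pn_rot90 {m : ℕ} (τ : Fin m → ZMod 2) (x : Fin m → Pt) :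
    Pn (3 * Real.pi / 16) τ (fun i => (1 - (x i).2, (x i).1)) = Pn (3 * Real.pi / 16) τ x := by
  have h1 := Pn_tp (3 * Real.pi / 16) τ fun i => ((x i).1, 1 - (x i).2)
  exact h1.trans (Pn_hr90 τ x)

end Pool.Agent.ROT.U
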