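import Pool.Agent.ROT.ESym
import Pool.Agent.ROT.IDefs

/-!
# ROT, UNIV, rows N1, N2, MASS: definitions (helper98)

The measure `muU u` on the loops of the lattice with the column angles `u`, the near event, the uniform near bound
`NearM W` for a class `W` of lattices, and the exact inputs of the line theorem (helper70): `MonR`, `MonL`, `LawR`, `LawL`.
-/

set_option autoImplicit false

namespace Pool.Agent.ROT.U

open MeasureTheory
open Pool.Agent.ROT.E (Cfg Lp An)
open Pool.Agent.ROT.I (Lps mu)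
open Pool.Agent.UNI (wR)
open scoped ENNReal

noncomputable section

/-- the weight of one loop in the lattice with the angles `u` -/
def MU (u : ℤ → ℝ) (γ : Cfg) : ℝ := γ.prod fun v c => c.wt (wR (u v.1))

/-- **the measure on the loops** (all sizes, all positions) of the lattice with the angles `u` -/
def muU (u : ℤ → ℝ) : Measure Lps := Measure.sum fun γ : Lps => ENNReal.ofReal (MU u γ.1) • Measure.dirac γ

/-- the honeycomb -/
def hc : ℤ → ℝ := fun _ => Real.pi / 8

/-- the loop visits the box of radius `r` around `p` -/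
def Vis (p : ℤ × ℤ) (r : ℤ) : Set Lps := {γ | ∃ v, γ.1 v ≠ 0 ∧ |v.1 - p.1| ≤ r ∧ |v.2 - p.2| ≤ r}

/-- width or height at least `R` -/
def Ext (R : ℤ) : Set Lps := {γ | ∃ v w, γ.1 v ≠ 0 ∧ γ.1 w ≠ 0 ∧ (R ≤ w.1 - v.1 ∨ R ≤ w.2 - v.2)}

/-- **the near bound for the lattices of the class `W`**, uniform in the lattice and in the position -/
def NearM (W : Set (ℤ → ℝ)) : Prop := ∀ ε : ℝ, 0 < ε → ∃ η : ℝ, 0 < η ∧ ∃ N0 : ℤ, ∀ u ∈ W, ∀ N : ℤ, N0 ≤ N →
  ∀ (p : ℤ × ℤ) (r : ℤ), (r : ℝ) ≤ η * N → muU u (Vis p r ∩ Ext N) ≤ ENNReal.ofReal ε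

/-- a leg on the line `c` (between the columns `c - 1` and `c`) in the rows `a, …, b` -/
def LegV (c a b : ℤ) : Set Lps := {γ | ∃ y, a ≤ y ∧ y ≤ b ∧ E.oc γ.1 ((c, y), .W)}

/-- the loop has a vertex in a column `≥ n` -/
def GeC (n : ℤ) : Set Lps := {γ | ∃ v, γ.1 v ≠ 0 ∧ n ≤ v.1}

/-- the loop has a vertex in a column `≤ n` -/
def LeC (n : ℤ) : Set Lps := {γ | ∃ v, γ.1 v ≠ 0 ∧ v.1 ≤ n}

/-! ### the inputs: the line theorem -/

/-- **(MON), right**: legs in a segment of the line `c` and a vertex in a column `≥ c + n` -/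
def MonR : Prop := ∀ u : ℤ → ℝ, An u → ∀ c a b n : ℤ, muU u (LegV c a b ∩ GeC (c + n)) ≤ muU hc (LegV c a b ∩ GeC (c + n))

/-- **(MON), left** -/
def MonL : Prop := ∀ u : ℤ → ℝ, An u → ∀ c a b n : ℤ,
  muU u (LegV c a b ∩ LeC (c - 1 - n)) ≤ muU hc (LegV c a b ∩ LeC (c - 1 - n))

/-- **(LR-law), right**: an event of the cells of the columns `≥ c` has the same mass for two lattices with the same
angles there -/
def LawR : Prop := ∀ u u' : ℤ → ℝ, An u → An u' → ∀ c : ℤ, (∀ j, c ≤ j → u j = u' j) → ∀ A : Set Lps,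
  (∀ γ γ' : Lps, (∀ v, c ≤ v.1 → γ.1 v = γ'.1 v) → γ ∈ A → γ' ∈ A) → A ⊆ GeC c → muU u A = muU u' A

/-- **(LR-law), left** -/
def LawL : Prop := ∀ u u' : ℤ → ℝ, An u → An u' → ∀ c : ℤ, (∀ j, j < c → u j = u' j) → ∀ A : Set Lps,
  (∀ γ γ' : Lps, (∀ v, v.1 < c → γ.1 v = γ'.1 v) → γ ∈ A → γ' ∈ A) → A ⊆ LeC (c - 1) → muU u A = muU u' A

/-- all inputs -/
structure Line : Prop where
  monR : MonR
  monL : MonL
  lawR : LawR
  lawL : LawL

/-! ### the lattices of the flow -/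

/-- the lattice `k`: the angle `b` in the columns `< k`, the honeycomb from the column `k` on -/
def lat (b : ℝ) (k : ℤ) : ℤ → ℝ := fun j => if j < k then b else Real.pi / 8

/-- all lattices of the flow: constant angle, block on the left -/
def LatB (b : ℝ) : Set (ℤ → ℝ) := {u | u = (fun _ => b) ∨ u = hc ∨ ∃ k, u = lat b k}

end

end Pool.Agent.ROT.U
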