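import Pool.Agent.ROT.A6SymH
import Pool.Agent.ROT.A6Lin
import Pool.Agent.ROT.UNearDefs

/-!
# ROT, UNIV: the tracers (helper10)

* `bb`, `dd` : the parameters `3 θ / 8` of the angles `90`, `30 = 90 - 60` degrees (honeycomb: `π / 8`); the lattices
  are `lat bb k` (helper98, UNearDefs);
* `rc β c` : the ratio of the weights of a local state (angle `β` against the honeycomb);
* **`qx β γ s`** : the product of `rc β` over the cells of the extreme line of the side `s` (`0` = left column, `1` =
  right column, `2` = bottom row, `3` = top row): `q_b = qx bb`, `q_d = qx dd` of the plan ROT/UNIV_A_53;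
* the tracers: `hexU` (file UHex) = the polygon system `hexP` with `Qf = qx bb`, `Cf = qx dd`.
-/

set_option autoImplicit false

open Finset

namespace Pool.Agent.ROT.U

open Pool.Agent.UNI (wR)
open Pool.Agent.ROT.E (Cell Cfg Pt)

/-- the parameter of the angle `90` -/
noncomputable def bb : ℝ := 3 * Real.pi / 16

/-- the parameter of the angle `30` -/
noncomputable def dd : ℝ := Real.pi / 16

/-- the ratio of the weights of a local state -/
noncomputable def rc (β : ℝ) (c : Cell) : ℝ := c.wt (wR β) / c.wt (wR (Real.pi / 8))

open Classical in
/-- **the product over the extreme line of the side `s`** -/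
noncomputable def qx (β : ℝ) (γ : Cfg) (s : Fin 4) : ℝ :=
  ∏ v ∈ γ.support.filter fun v => A6.crd s v = A6.hc γ s, rc β (γ v)

end Pool.Agent.ROT.U
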