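import Pool.Agent.ROT.Group4

/-!
# ROT, universality, row ID (helper41): the identification of the linear map

`Pb`, `Ph` : functions of three vertices of the square lattice (coordinates (column, row)): the mass of the polygons which surround
the first two and not the third one, for the angle 90 and for the honeycomb.  The vertex `(c, r)` of the honeycomb is the point
`c exp (pi I / 6) + r I` of the plane.  If `Pb x - Ph (D x)` tends to `0` for separated `x`, `D (c, r) = (al c, r + be c)`, then the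
rotations of order four of `Pb` and of order six of `Ph`, the bound for close points and the positivity force
`al -> 2 / sqrt 3`, `be -> - 1 / sqrt 3`.
-/

set_option autoImplicit false

open Complex Filter Topology
open scoped ComplexConjugate

namespace Pool.Agent.ROT.UId

noncomputable section

/-! ### coordinates -/

/-- the column coordinate of a point of the plane -/
def cc (z : ℂ) : ℝ := 2 / Real.sqrt 3 * z.re

/-- the row coordinate -/
def rr (z : ℂ) : ℝ := z.im - z.re / Real.sqrt 3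

/-- the vertex near `N z` -/
def pz (N : ℕ) (z : ℂ) : ℤ × ℤ := (⌊(N : ℝ) * cc z⌋, ⌊(N : ℝ) * rr z⌋)

/-- the vertex near `D x` -/
def Dz (a b : ℝ) (x : ℤ × ℤ) : ℤ × ℤ := (⌊a * x.1⌋, x.2 + ⌊b * x.1⌋)

/-- rotation by 90 degrees on the square lattice -/
def J4 (x : ℤ × ℤ) : ℤ × ℤ := (-x.2, x.1)

/-- rotation by 60 degrees in the coordinates of the honeycomb -/
def J6 (x : ℤ × ℤ) : ℤ × ℤ := (-x.2, x.1 + x.2)

/-- moderate change of the arguments, uniformly at the scale `N` -/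
def Equi {m : ℕ} (H : (Fin m → ℤ × ℤ) → ℝ) : Prop := ∀ R d ε : ℝ, 0 < R → 0 < d → 0 < ε → ∃ δ > 0, ∃ N0 : ℕ, ∀ N ≥ N0,
  ∀ x x' : Fin m → ℤ × ℤ, (∀ i, ‖x i‖ ≤ R * N) → (∀ i j, i ≠ j → d * N ≤ ‖x i - x j‖) → (∀ i, ‖x i - x' i‖ ≤ δ * N) →
    |H x - H x'| ≤ ε

/-- the limit statement of the flow -/
def Flow {m : ℕ} (Pb Ph : (Fin m → ℤ × ℤ) → ℝ) (α β : ℕ → ℝ) : Prop := ∀ R d ε : ℝ, 0 < R → 0 < d → 0 < ε → ∃ N0 : ℕ,
  ∀ N ≥ N0, ∀ x : Fin m → ℤ × ℤ, (∀ i, ‖x i‖ ≤ R * N) → (∀ i j, i ≠ j → d * N ≤ ‖x i - x j‖) →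
    |Pb x - Ph (fun i => Dz (α N) (β N) (x i))| ≤ ε

/-- two points inside, a third one close to the first one outside: small mass -/
def Close3 (H : (Fin 3 → ℤ × ℤ) → ℝ) : Prop := ∀ ε : ℝ, 0 < ε → ∃ δ > 0, ∃ K : ℝ, ∀ x : Fin 3 → ℤ × ℤ, K ≤ ‖x 1 - x 0‖ →
  ‖x 2 - x 0‖ ≤ δ * ‖x 1 - x 0‖ → H x ≤ ε

/-- positivity in every direction -/
def Pos3 (H : (Fin 3 → ℤ × ℤ) → ℝ) : Prop := ∃ c > 0, ∃ c' > 0, ∃ S : ℝ, ∃ N0 : ℕ, ∀ N ≥ N0, ∀ u : ℂ, ‖u‖ = 1 →
  ∃ z : Fin 3 → ℂ, (∀ i, ‖z i‖ ≤ S) ∧ c' ≤ |(conj u * (z 1 - z 0)).im| ∧ (∃ a : ℝ, z 2 - z 0 = a * u ∧ c' ≤ |a|) ∧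
    c ≤ H (fun i => pz N (z i))

/-! ### the linear maps -/

lemma s3 : 0 < Real.sqrt 3 := Real.sqrt_pos.2 (by norm_num)

lemma s3q : Real.sqrt 3 * Real.sqrt 3 = 3 := Real.mul_self_sqrt (by norm_num)

/-- the embedding of `e_c` -/
def ec : ℂ := (Real.sqrt 3 / 2 : ℝ) + (1 / 2 : ℝ) * I

lemma ec_re : ec.re = Real.sqrt 3 / 2 := by simp [ec]

lemma ec_im : ec.im = 1 / 2 := by simp [ec]

lemma eq_coord (z : ℂ) : z = cc z * ec + rr z * I := by
  have h := s3.ne'
  have h2 := s3q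
  apply Complex.ext
  · rw [add_re, re_ofReal_mul, re_ofReal_mul, ec_re, I_re, cc]
    field_simp
    ring
  · rw [add_im, im_ofReal_mul, im_ofReal_mul, ec_im, I_im, cc, rr]
    field_simp
    ring

lemma cc_coord (c r : ℝ) : cc (c * ec + r * I) = c := by
  have h := s3.ne'
  rw [cc, add_re, re_ofReal_mul, re_ofReal_mul, ec_re, I_re]
  field_simp
  ring

lemma rr_coord (c r : ℝ) : rr (c * ec + r * I) = r := by
  have h := s3.ne'
  rw [rr, add_re, add_im, re_ofReal_mul, re_ofReal_mul, im_ofReal_mul, im_ofReal_mul, ec_re, ec_im, I_re, I_im]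
  field_simp
  ring

lemma cc_R6 (z : ℂ) : cc (R6 z) = - rr z := by
  have h := s3.ne'
  have h2 := s3q
  have e : R6 z = om * z := rfl
  rw [e, cc, rr, mul_re, om_re, om_im]
  field_simp
  nlinarith [h2]

lemma rr_R6 (z : ℂ) : rr (R6 z) = cc z + rr z := by
  have h := s3.ne'
  have h2 := s3q
  have e : R6 z = om * z := rfl
  rw [e, cc, rr, rr, mul_re, mul_im, om_re, om_im]
  field_simp
  linear_combination z.re * h2

/-- the map `c + r I -> (a c) e_c + (r + b c) I` -/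
def Lf (a b : ℝ) : ℂ →ₗ[ℝ] ℂ where
  toFun z := (a * z.re : ℝ) * ec + (z.im + b * z.re : ℝ) * I
  map_add' z w := by
    simp only [add_re, add_im]
    push_cast
    ring
  map_smul' t z := by
    simp only [real_smul, re_ofReal_mul, im_ofReal_mul, RingHom.id_apply]
    push_cast
    ring

lemma Lf_apply (a b : ℝ) (z : ℂ) : Lf a b z = (a * z.re : ℝ) * ec + (z.im + b * z.re : ℝ) * I := rfl

/-- its inverse -/
def Lg (a b : ℝ) : ℂ →ₗ[ℝ] ℂ where
  toFun z := (cc z / a : ℝ) + (rr z - b * (cc z / a) : ℝ) * I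
  map_add' z w := by
    simp only [cc, rr, add_re, add_im]
    push_cast
    ring
  map_smul' t z := by
    simp only [cc, rr, real_smul, re_ofReal_mul, im_ofReal_mul, RingHom.id_apply]
    push_cast
    ring

lemma Lg_apply (a b : ℝ) (z : ℂ) : Lg a b z = (cc z / a : ℝ) + (rr z - b * (cc z / a) : ℝ) * I := rfl

lemma Lg_re (a b : ℝ) (z : ℂ) : (Lg a b z).re = cc z / a := by
  rw [Lg_apply]
  simp

lemma Lg_im (a b : ℝ) (z : ℂ) : (Lg a b z).im = rr z - b * (cc z / a) := by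
  rw [Lg_apply]
  simp

lemma Lf_Lg {a : ℝ} (ha : a ≠ 0) (b : ℝ) (z : ℂ) : Lf a b (Lg a b z) = z := by
  rw [Lf_apply, Lg_re, Lg_im]
  conv_rhs => rw [eq_coord z]
  congr 3
  · field_simp
  · ring

lemma Lg_Lf {a : ℝ} (ha : a ≠ 0) (b : ℝ) (z : ℂ) : Lg a b (Lf a b z) = z := by
  have h1 : cc (Lf a b z) = a * z.re := by rw [Lf_apply, cc_coord]
  have h2 : rr (Lf a b z) = z.im + b * z.re := by rw [Lf_apply, rr_coord]
  apply Complex.ext
  · rw [Lg_re, h1]
    field_simp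
  · rw [Lg_im, h1, h2]
    field_simp
    ring

/-- the linear map as an automorphism -/
def LD (a b : ℝ) (ha : a ≠ 0) : LG :=
  (LinearEquiv.ofLinearMap (Lf a b) (Lg a b) (LinearMap.ext fun z => Lf_Lg ha b z)
    (LinearMap.ext fun z => Lg_Lf ha b z)).toContinuousLinearEquiv

lemma LD_apply {a : ℝ} (ha : a ≠ 0) (b : ℝ) (z : ℂ) : LD a b ha z = (a * z.re : ℝ) * ec + (z.im + b * z.re : ℝ) * I := rfl

lemma LD_inv {a : ℝ} (ha : a ≠ 0) (b : ℝ) (z : ℂ) : (LD a b ha)⁻¹ z = Lg a b z := rfl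

/-- the rotation of order four -/
def R4 : LG := rot I I_ne_zero

/-- the conjugate of the rotation of order four -/
def JD (a b : ℝ) (ha : a ≠ 0) : LG := LD a b ha * R4 * (LD a b ha)⁻¹

lemma JD_apply {a : ℝ} (ha : a ≠ 0) (b : ℝ) (z : ℂ) : JD a b ha z = LD a b ha (I * Lg a b z) := rfl

lemma JD_sq {a : ℝ} (ha : a ≠ 0) (b : ℝ) (z : ℂ) : JD a b ha (JD a b ha z) = -z := by
  rw [JD_apply, JD_apply]
  have h : Lg a b (LD a b ha (I * Lg a b z)) = I * Lg a b z := Lg_Lf ha b _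
  rw [h, ← mul_assoc, I_mul_I, neg_one_mul, map_neg]
  congr 1
  exact Lf_Lg ha b z

lemma JD_I {a : ℝ} (ha : a ≠ 0) (b : ℝ) : JD a b ha I = -(a * ec + b * I) := by
  rw [JD_apply]
  have h : Lg a b I = I := by
    apply Complex.ext
    · rw [Lg_re, cc]
      simp
    · rw [Lg_im, cc, rr]
      simp
  rw [h, I_mul_I, LD_apply]
  simp only [neg_re, one_re, neg_im, one_im]
  push_cast
  ring

lemma dt_R4 : dt R4 = 1 := by
  rw [dt, R4, P_rot, Q_rot, normSq_I, map_zero, sub_zero]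

lemma dt_JD {a : ℝ} (ha : a ≠ 0) (b : ℝ) : dt (JD a b ha) = 1 := by
  rw [JD, dt_mul, dt_mul, dt_R4, mul_one, ← dt_mul, mul_inv_cancel, dt_one]

lemma dt_R6 : dt R6 = 1 := by
  rw [dt, R6, P_rot, Q_rot, om_normSq, map_zero, sub_zero]

/-- orthogonality determines the parameters -/
theorem val_of_orth {a b : ℝ} (ha : 0 < a) (h : (normSq (P (JD a b ha.ne')) = 1 ∧ Q (JD a b ha.ne') = 0) ∨
    (P (JD a b ha.ne') = 0 ∧ normSq (Q (JD a b ha.ne')) = 1)) : a = 2 / Real.sqrt 3 ∧ b = -(1 / Real.sqrt 3) := by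
  obtain ⟨g, hg⟩ : ∃ g : LG, g = JD a b ha.ne' := ⟨_, rfl⟩
  have hsq : ∀ z, g (g z) = -z := fun z => by rw [hg]; exact JD_sq ha.ne' b z
  have hI : g I = -(a * ec + b * I) := by rw [hg]; exact JD_I ha.ne' b
  rw [← hg] at h
  have h3 := s3.ne'
  rcases h with ⟨h1, h2⟩ | ⟨h1, h2⟩
  · have e : ∀ z, g z = P g * z := fun z => by rw [apply_eq, h2, zero_mul, add_zero]
    have e1 := hsq 1
    rw [e, e, mul_one] at e1
    have e2 : (P g - I) * (P g + I) = 0 := by
      have : I * I = -1 := I_mul_I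
      linear_combination e1 - this
    rw [e] at hI
    have key : a * ec + b * I = 1 ∨ a * ec + b * I = -1 := by
      rcases mul_eq_zero.1 e2 with h5 | h5
      · left
        have h6 : P g = I := by linear_combination h5
        rw [h6, I_mul_I] at hI
        linear_combination hI
      · right
        have h6 : P g = -I := by linear_combination h5
        rw [h6, neg_mul, I_mul_I] at hI
        linear_combination hI
    rcases key with k | k
    · have k1 := congrArg re k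
      have k2 := congrArg im k
      rw [add_re, re_ofReal_mul, re_ofReal_mul, ec_re, I_re, one_re, mul_zero, add_zero] at k1
      rw [add_im, im_ofReal_mul, im_ofReal_mul, ec_im, I_im, one_im, mul_one] at k2
      have k3 : a = 2 / Real.sqrt 3 := by
        field_simp
        linarith
      refine ⟨k3, ?_⟩
      rw [k3] at k2
      have : b = -(2 / Real.sqrt 3 * (1 / 2)) := by linarith
      rw [this]
      ring
    · exfalso
      have k1 := congrArg re k
      rw [add_re, re_ofReal_mul, re_ofReal_mul, ec_re, I_re, neg_re, one_re, mul_zero, add_zero] at k1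
      have : 0 < a * (Real.sqrt 3 / 2) := mul_pos ha (by have := s3; positivity)
      linarith
  · exfalso
    have e : ∀ z, g z = Q g * conj z := fun z => by rw [apply_eq, h1, zero_mul, zero_add]
    have e1 := hsq 1
    rw [e, e, map_one, mul_one, mul_conj, h2] at e1
    have := congrArg re e1
    norm_num at this

/-! ### the direction of contraction -/

theorem contr (g : LG) (hg : |dt g| = 1) : ∃ u : ℂ, ‖u‖ = 1 ∧ ‖g u‖ * (‖P g‖ + ‖Q g‖) ≤ 1 ∧
    ∀ z : ℂ, (‖P g‖ + ‖Q g‖) * |(conj u * z).im| ≤ ‖g z‖ := by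
  have hdt : |‖P g‖ ^ 2 - ‖Q g‖ ^ 2| = 1 := by
    rw [← normSq_eq_norm_sq, ← normSq_eq_norm_sq]
    exact hg
  by_cases hp : P g = 0
  · rw [hp, norm_zero] at hdt ⊢
    have h1 : ‖Q g‖ ^ 2 = 1 := by
      rw [show (0 : ℝ) ^ 2 - ‖Q g‖ ^ 2 = -(‖Q g‖ ^ 2) by ring, abs_neg, abs_of_nonneg (by positivity)] at hdt
      exact hdt
    have h2 : ‖Q g‖ = 1 := by nlinarith [norm_nonneg (Q g)]
    have e : ∀ z, ‖g z‖ = ‖z‖ := fun z => by
      rw [apply_eq, hp, zero_mul, zero_add, norm_mul, h2, one_mul, RCLike.norm_conj]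
    refine ⟨1, norm_one, ?_, fun z => ?_⟩
    · rw [e, norm_one, h2]
      norm_num
    · rw [e, h2, map_one, one_mul, zero_add, one_mul]
      exact abs_im_le_norm z
  by_cases hq : Q g = 0
  · rw [hq, norm_zero] at hdt ⊢
    have h1 : ‖P g‖ ^ 2 = 1 := by
      rw [show ‖P g‖ ^ 2 - (0 : ℝ) ^ 2 = (‖P g‖ ^ 2) by ring, abs_of_nonneg (by positivity)] at hdt
      exact hdt
    have h2 : ‖P g‖ = 1 := by nlinarith [norm_nonneg (P g)]
    have e : ∀ z, ‖g z‖ = ‖z‖ := fun z => by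
      rw [apply_eq, hq, zero_mul, add_zero, norm_mul, h2, one_mul]
    refine ⟨1, norm_one, ?_, fun z => ?_⟩
    · rw [e, norm_one, h2]
      norm_num
    · rw [e, h2, map_one, one_mul, add_zero, one_mul]
      exact abs_im_le_norm z
  obtain ⟨p, hpd⟩ : ∃ p : ℝ, p = ‖P g‖ := ⟨_, rfl⟩
  obtain ⟨q, hqd⟩ : ∃ q : ℝ, q = ‖Q g‖ := ⟨_, rfl⟩
  have p0 : 0 < p := by rw [hpd]; exact norm_pos_iff.2 hp
  have q0 : 0 < q := by rw [hqd]; exact norm_pos_iff.2 hq
  have pc : (p : ℂ) ≠ 0 := by exact_mod_cast p0.ne'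
  have qc : (q : ℂ) ≠ 0 := by exact_mod_cast q0.ne'
  obtain ⟨u, hu⟩ : ∃ u : ℂ, u ^ 2 = -(Q g / P g) * (p / q) := IsAlgClosed.exists_pow_nat_eq _ (by norm_num)
  have nu : ‖u‖ = 1 := by
    have h1 : ‖u‖ ^ 2 = 1 := by
      rw [← norm_pow, hu, norm_mul, norm_neg, norm_div, norm_div, ← hpd, ← hqd, norm_real, norm_real,
        Real.norm_of_nonneg p0.le, Real.norm_of_nonneg q0.le]
      field_simp
    nlinarith [norm_nonneg u]
  have uc : u * conj u = 1 := by
    rw [mul_conj, normSq_eq_norm_sq, nu]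
    norm_num
  have hPu : P g * u = -(p / q) * (Q g * conj u) := by
    have h1 : P g * u = P g * u ^ 2 * conj u := by
      calc P g * u = P g * u * 1 := by ring
        _ = P g * u * (u * conj u) := by rw [uc]
        _ = _ := by ring
    rw [h1, hu]
    field_simp
  have hz : ∀ z : ℂ, g z = Q g * conj u * (((1 - p / q) * (conj u * z).re : ℝ) - ((1 + p / q) * (conj u * z).im : ℝ) * I) := by
    intro z
    obtain ⟨w, hw⟩ : ∃ w : ℂ, w = conj u * z := ⟨_, rfl⟩
    have h1 : z = u * w := by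
      rw [hw, ← mul_assoc, uc, one_mul]
    rw [← hw, apply_eq, h1, map_mul]
    have h2 : P g * (u * w) = -(p / q) * (Q g * conj u) * w := by rw [← mul_assoc, hPu]
    rw [h2]
    have h3 : w = w.re + w.im * I := (re_add_im w).symm
    have h4 : conj w = w.re - w.im * I := by
      apply Complex.ext <;> simp
    rw [h4]
    conv_lhs => rw [h3]
    push_cast
    simp only [add_re, ofReal_re, mul_re, I_re, mul_zero, ofReal_im, I_im, mul_one, sub_self, add_zero, add_im, mul_im,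
      zero_add]
    ring
  have hpq : |p - q| * (p + q) = 1 := by
    rw [← hpd, ← hqd, show p ^ 2 - q ^ 2 = (p - q) * (p + q) by ring, abs_mul, abs_of_pos (by linarith : 0 < p + q)] at hdt
    exact hdt
  refine ⟨u, nu, ?_, fun z => ?_⟩
  · have h1 : conj u * u = 1 := by rw [mul_comm]; exact uc
    rw [hz u, h1, one_re, one_im, mul_zero, mul_one, ofReal_zero, zero_mul, sub_zero, norm_mul, norm_mul, RCLike.norm_conj,
      nu, mul_one, ← hqd, ← hpd, norm_real, Real.norm_eq_abs]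
    have h2 : q * |1 - p / q| = |p - q| := by
      rw [← abs_of_pos q0, ← abs_mul, abs_of_pos q0, abs_sub_comm p q]
      congr 1
      field_simp
    rw [h2, hpq]
  · rw [hz z, norm_mul, norm_mul, RCLike.norm_conj, nu, mul_one, ← hqd, ← hpd]
    have h1 : |(1 + p / q) * (conj u * z).im| ≤
        ‖(((1 - p / q) * (conj u * z).re : ℝ) - ((1 + p / q) * (conj u * z).im : ℝ) * I : ℂ)‖ := by
      have := abs_im_le_norm (((1 - p / q) * (conj u * z).re : ℝ) - ((1 + p / q) * (conj u * z).im : ℝ) * I : ℂ)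
      rw [sub_im, ofReal_im, im_ofReal_mul, I_im, mul_one, zero_sub, abs_neg] at this
      exact this
    calc (p + q) * |(conj u * z).im| = q * |(1 + p / q) * (conj u * z).im| := by
          rw [abs_mul, abs_of_pos (by positivity : 0 < 1 + p / q)]
          field_simp
          ring
      _ ≤ _ := mul_le_mul_of_nonneg_left h1 q0.le

/-! ### norms in coordinates -/

/-- the norm in the coordinates of the lattice -/
def cn (z : ℂ) : ℝ := max |cc z| |rr z|

lemma cc_sub (z w : ℂ) : cc (z - w) = cc z - cc w := by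
  simp only [cc, sub_re]
  ring

lemma rr_sub (z w : ℂ) : rr (z - w) = rr z - rr w := by
  simp only [rr, sub_re, sub_im]
  ring

lemma ec_norm : ‖ec‖ = 1 := by
  have h : ‖ec‖ ^ 2 = 1 := by
    rw [← normSq_eq_norm_sq, normSq_apply, ec_re, ec_im]
    nlinarith [s3q]
  nlinarith [norm_nonneg ec]

lemma norm_le_cn (z : ℂ) : ‖z‖ ≤ 2 * cn z := by
  have h := eq_coord z
  calc ‖z‖ = ‖(cc z * ec + rr z * I : ℂ)‖ := by rw [← h]
    _ ≤ ‖(cc z * ec : ℂ)‖ + ‖(rr z * I : ℂ)‖ := norm_add_le _ _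
    _ = |cc z| + |rr z| := by rw [norm_mul, norm_mul, ec_norm, norm_I, norm_real, norm_real, mul_one, mul_one]; rfl
    _ ≤ 2 * cn z := by
      have h1 := le_max_left |cc z| |rr z|
      have h2 := le_max_right |cc z| |rr z|
      unfold cn
      linarith

lemma cn_le_norm (z : ℂ) : cn z ≤ 2 * ‖z‖ := by
  have h1 := abs_re_le_norm z
  have h2 := abs_im_le_norm z
  have h3 : 1 ≤ Real.sqrt 3 := Real.one_le_sqrt.2 (by norm_num)
  have h4 : (Real.sqrt 3)⁻¹ ≤ 1 := inv_le_one_of_one_le₀ h3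
  have h5 : 0 ≤ (Real.sqrt 3)⁻¹ := by positivity
  have h6 := norm_nonneg z
  refine max_le ?_ ?_
  · rw [cc, abs_mul, div_eq_mul_inv, abs_of_nonneg (by positivity : 0 ≤ 2 * (Real.sqrt 3)⁻¹)]
    have h7 := abs_nonneg z.re
    nlinarith
  · rw [rr]
    refine (abs_sub _ _).trans ?_
    rw [abs_div, abs_of_pos s3, div_eq_mul_inv]
    have h7 := abs_nonneg z.re
    nlinarith

lemma nZ (x : ℤ × ℤ) : ‖x‖ = max |(x.1 : ℝ)| |(x.2 : ℝ)| := by
  rw [Prod.norm_def, Int.norm_eq_abs, Int.norm_eq_abs]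

lemma fl (x : ℝ) : |(⌊x⌋ : ℝ) - x| ≤ 1 := by
  have h1 := Int.floor_le x
  have h2 := Int.lt_floor_add_one x
  rw [abs_le]
  constructor <;> linarith

/-- two vertices near given points -/
lemma near_pz {N : ℕ} {z w : ℂ} {x y : ℤ × ℤ} {A B : ℝ} (h1 : |(x.1 : ℝ) - N * cc z| ≤ A) (h2 : |(x.2 : ℝ) - N * rr z| ≤ A)
    (h3 : |(y.1 : ℝ) - N * cc w| ≤ B) (h4 : |(y.2 : ℝ) - N * rr w| ≤ B) : |‖x - y‖ - N * cn (z - w)| ≤ A + B := by
  have e : (N : ℝ) * cn (z - w) = max |N * cc z - N * cc w| |N * rr z - N * rr w| := by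
    rw [cn, cc_sub, rr_sub, ← mul_sub, ← mul_sub, abs_mul, abs_mul, Nat.abs_cast,
      mul_max_of_nonneg _ _ (Nat.cast_nonneg N)]
  rw [nZ, e]
  have k1 : |((x - y).1 : ℝ) - (N * cc z - N * cc w)| ≤ A + B := by
    have : ((x - y).1 : ℝ) - (N * cc z - N * cc w) = ((x.1 : ℝ) - N * cc z) - ((y.1 : ℝ) - N * cc w) := by
      rw [Prod.fst_sub]
      push_cast
      ring
    rw [this]
    exact (abs_sub _ _).trans (add_le_add h1 h3)
  have k2 : |((x - y).2 : ℝ) - (N * rr z - N * rr w)| ≤ A + B := by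
    have : ((x - y).2 : ℝ) - (N * rr z - N * rr w) = ((x.2 : ℝ) - N * rr z) - ((y.2 : ℝ) - N * rr w) := by
      rw [Prod.snd_sub]
      push_cast
      ring
    rw [this]
    exact (abs_sub _ _).trans (add_le_add h2 h4)
  refine (abs_max_sub_max_le_max _ _ _ _).trans (max_le ?_ ?_)
  · exact (abs_abs_sub_abs_le_abs_sub _ _).trans k1
  · exact (abs_abs_sub_abs_le_abs_sub _ _).trans k2

lemma pz1 (N : ℕ) (z : ℂ) : |((pz N z).1 : ℝ) - N * cc z| ≤ 1 := fl _

lemma pz2 (N : ℕ) (z : ℂ) : |((pz N z).2 : ℝ) - N * rr z| ≤ 1 := fl _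

/-- the difference of two vertices -/
lemma pz_sub (N : ℕ) (z w : ℂ) : |‖pz N z - pz N w‖ - N * cn (z - w)| ≤ 2 := by
  have := near_pz (pz1 N z) (pz2 N z) (pz1 N w) (pz2 N w)
  norm_num at this
  exact this

lemma pz_norm (N : ℕ) (z : ℂ) : ‖pz N z‖ ≤ N * cn z + 1 := by
  have h := near_pz (N := N) (w := 0) (y := (0, 0)) (B := 0) (pz1 N z) (pz2 N z) (by simp [cc]) (by simp [rr])
  rw [sub_zero, add_zero, show pz N z - (0, 0) = pz N z from sub_zero _] at h
  linarith [(abs_le.1 h).2]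

lemma cn_pos {z : ℂ} (hz : z ≠ 0) : 0 < cn z := by
  have h1 := norm_le_cn z
  have h2 := norm_pos_iff.2 hz
  linarith

lemma cn_nonneg (z : ℂ) : 0 ≤ cn z := le_max_of_le_left (abs_nonneg _)

/-! ### small changes -/

section

variable {m : ℕ} {H : (Fin m → ℤ × ℤ) → ℝ} {φ : ℕ → ℕ}

lemma tend_N (hφ : Tendsto φ atTop atTop) : Tendsto (fun n => (φ n : ℝ)) atTop atTop :=
  tendsto_natCast_atTop_atTop.comp hφ

/-- **vertices near `N z` up to `o(N)`** -/
theorem equi_seq (hE : Equi H) (hφ : Tendsto φ atTop atTop) {z : Fin m → ℂ} (hz : Function.Injective z)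
    {x : ℕ → Fin m → ℤ × ℤ} (hx : ∀ i, Tendsto (fun n => ‖x n i - pz (φ n) (z i)‖ / φ n) atTop (𝓝 0)) :
    Tendsto (fun n => H (x n) - H (fun i => pz (φ n) (z i))) atTop (𝓝 0) := by
  obtain ⟨R, hR⟩ : ∃ R : ℝ, ∀ i, cn (z i) ≤ R := by
    obtain ⟨R, hR⟩ := (Set.finite_range fun i => cn (z i)).bddAbove
    exact ⟨R, fun i => hR (Set.mem_range_self i)⟩
  obtain ⟨d, d0, hd⟩ : ∃ d > 0, ∀ i j, i ≠ j → d ≤ cn (z i - z j) := by
    by_cases hn : Nonempty {p : Fin m × Fin m // p.1 ≠ p.2}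
    · obtain ⟨p, hp⟩ := Finite.exists_min fun p : {p : Fin m × Fin m // p.1 ≠ p.2} => cn (z p.1.1 - z p.1.2)
      refine ⟨cn (z p.1.1 - z p.1.2), cn_pos (sub_ne_zero.2 fun h => p.2 (hz h)), fun i j hij => hp ⟨(i, j), hij⟩⟩
    · exact ⟨1, one_pos, fun i j hij => absurd ⟨⟨(i, j), hij⟩⟩ hn⟩
  rw [Metric.tendsto_atTop]
  intro ε hε
  obtain ⟨δ, δ0, N0, hN0⟩ := hE (max R 0 + 1) (d / 2) (ε / 2) (by positivity) (by positivity) (by positivity)
  have h1 : ∀ᶠ n in atTop, ∀ i, ‖x n i - pz (φ n) (z i)‖ / φ n < δ := by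
    rw [eventually_all]
    intro i
    exact (tendsto_order.1 (hx i)).2 _ δ0
  have h2 := (tend_N hφ).eventually_ge_atTop (max 1 (4 / d))
  have h3 := hφ.eventually_ge_atTop N0
  obtain ⟨n0, hn0⟩ := (h1.and (h2.and h3)).exists_forall_of_atTop
  refine ⟨n0, fun n hn => ?_⟩
  obtain ⟨a1, a2, a3⟩ := hn0 n hn
  have b1 : (1 : ℝ) ≤ φ n := (le_max_left _ _).trans a2
  have b2 : 4 / d ≤ (φ n : ℝ) := (le_max_right _ _).trans a2
  have b0 : (0 : ℝ) < φ n := by linarith
  have key := hN0 (φ n) a3 (fun i => pz (φ n) (z i)) (x n) (fun i => ?_) (fun i j hij => ?_) (fun i => ?_)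
  · rw [Real.dist_eq, sub_zero, abs_sub_comm]
    linarith
  · have c1 := pz_norm (φ n) (z i)
    have c2 := hR i
    have c3 := le_max_left R 0
    nlinarith
  · have c1 := (abs_le.1 (pz_sub (φ n) (z i) (z j))).1
    have c2 := hd i j hij
    have c3 : 4 ≤ d * φ n := by
      rw [div_le_iff₀ d0] at b2
      linarith
    have c4 : d * φ n ≤ φ n * cn (z i - z j) := by
      rw [mul_comm]
      exact mul_le_mul_of_nonneg_left c2 b0.le
    linarith
  · have c1 := a1 i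
    rw [div_lt_iff₀ b0] at c1
    rw [norm_sub_rev]
    exact c1.le

end

/-! ### the asymptotic symmetries -/

/-- the maps under which `H` is asymptotically invariant along `φ` -/
def invP (H : (Fin 3 → ℤ × ℤ) → ℝ) (φ : ℕ → ℕ) : Subgroup LG where
  carrier := {g | ∀ z : Fin 3 → ℂ, Function.Injective z →
    Tendsto (fun n => H (fun i => pz (φ n) (g (z i))) - H (fun i => pz (φ n) (z i))) atTop (𝓝 0)}
  mul_mem' {g h} hg hh := by
    intro z hz
    have h1 := hg (fun i => h (z i)) (h.injective.comp hz)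
    have h2 := h1.add (hh z hz)
    rw [add_zero] at h2
    refine h2.congr fun n => ?_
    show _ = H (fun i => pz (φ n) (g (h (z i)))) - _
    ring
  one_mem' := by
    intro z _
    have : (fun n => H (fun i => pz (φ n) ((1 : LG) (z i))) - H (fun i => pz (φ n) (z i))) = fun _ => 0 := by
      funext n
      exact sub_self _
    rw [this]
    exact tendsto_const_nhds
  inv_mem' {g} hg := by
    intro z hz
    have h1 := (hg (fun i => g⁻¹ (z i)) (g⁻¹.injective.comp hz)).neg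
    rw [neg_zero] at h1
    refine h1.congr fun n => ?_
    have e : ∀ i, g (g⁻¹ (z i)) = z i := fun i => by
      show (g * g⁻¹) (z i) = z i
      rw [mul_inv_cancel]
      rfl
    simp only [e]
    ring

section

variable {H Hb : (Fin 3 → ℤ × ℤ) → ℝ} {φ : ℕ → ℕ}

lemma nZ_le {x : ℤ × ℤ} {C : ℝ} (h1 : |(x.1 : ℝ)| ≤ C) (h2 : |(x.2 : ℝ)| ≤ C) : ‖x‖ ≤ C := by
  rw [nZ]
  exact max_le h1 h2

lemma sq_zero {x : ℕ → ℝ} (hφ : Tendsto φ atTop atTop) {C : ℝ} {y : ℕ → ℝ} (hy : Tendsto y atTop (𝓝 0))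
    (h0 : ∀ n, 0 ≤ x n) (h : ∀ n, x n ≤ C + y n * φ n) : Tendsto (fun n => x n / φ n) atTop (𝓝 0) := by
  have h1 : Tendsto (fun n => C / (φ n : ℝ) + y n) atTop (𝓝 0) := by
    have := ((tendsto_const_nhds (x := C)).div_atTop (tend_N hφ)).add hy
    rwa [add_zero] at this
  refine squeeze_zero' (Eventually.of_forall fun n => div_nonneg (h0 n) (Nat.cast_nonneg _)) ?_ h1
  filter_upwards [(tend_N hφ).eventually_ge_atTop 1] with n hn
  have b0 : (0 : ℝ) < φ n := by linarith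
  rw [div_le_iff₀ b0, add_mul, div_mul_cancel₀ _ b0.ne']
  exact h n

/-- the rotation of order six -/
theorem R6_inv (hE : Equi H) (hφ : Tendsto φ atTop atTop) (h6 : ∀ x : Fin 3 → ℤ × ℤ, H (fun i => J6 (x i)) = H x) :
    R6 ∈ invP H φ := by
  intro z hz
  have h1 := equi_seq hE hφ (z := fun i => R6 (z i)) (R6.injective.comp hz) (x := fun n i => J6 (pz (φ n) (z i))) (fun i => by
    refine sq_zero hφ (C := 2) (y := fun _ => 0) tendsto_const_nhds (fun n => norm_nonneg _) fun n => ?_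
    rw [zero_mul, add_zero]
    have a1 := abs_le.1 (pz1 (φ n) (z i))
    have a2 := abs_le.1 (pz2 (φ n) (z i))
    have a3 := abs_le.1 (pz1 (φ n) (R6 (z i)))
    have a4 := abs_le.1 (pz2 (φ n) (R6 (z i)))
    rw [cc_R6] at a3
    rw [rr_R6] at a4
    have b1 := Int.floor_le ((φ n : ℝ) * cc (z i))
    have b2 := Int.lt_floor_add_one ((φ n : ℝ) * cc (z i))
    have b3 := Int.floor_le ((φ n : ℝ) * rr (z i))
    have b4 := Int.lt_floor_add_one ((φ n : ℝ) * rr (z i))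
    have b5 := Int.floor_le ((φ n : ℝ) * cc (R6 (z i)))
    have b6 := Int.lt_floor_add_one ((φ n : ℝ) * cc (R6 (z i)))
    have b7 := Int.floor_le ((φ n : ℝ) * rr (R6 (z i)))
    have b8 := Int.lt_floor_add_one ((φ n : ℝ) * rr (R6 (z i)))
    rw [cc_R6] at b5 b6
    rw [rr_R6] at b7 b8
    refine nZ_le ?_ ?_
    · rw [Prod.fst_sub]
      show |(((-(⌊(φ n : ℝ) * rr (z i)⌋)) - ⌊(φ n : ℝ) * cc (R6 (z i))⌋ : ℤ) : ℝ)| ≤ 2
      rw [cc_R6]
      push_cast
      rw [abs_le]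
      constructor <;> linarith
    · rw [Prod.snd_sub]
      show |(((⌊(φ n : ℝ) * cc (z i)⌋ + ⌊(φ n : ℝ) * rr (z i)⌋) - ⌊(φ n : ℝ) * rr (R6 (z i))⌋ : ℤ) : ℝ)| ≤ 2
      rw [rr_R6]
      push_cast
      rw [abs_le]
      constructor <;> linarith)
  simp only [h6] at h1
  have h2 := h1.neg
  rw [neg_zero] at h2
  refine h2.congr fun n => ?_
  ring

/-- the image of a vertex near `N y` -/
lemma Dz_near {α β : ℕ → ℝ} {a b A : ℝ} (ha : a ≠ 0) (hA : ∀ n, |α n| ≤ A) (hB : ∀ n, |β n| ≤ A)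
    (hα : Tendsto (fun n => α (φ n)) atTop (𝓝 a)) (hβ : Tendsto (fun n => β (φ n)) atTop (𝓝 b))
    (hφ : Tendsto φ atTop atTop) {y : ℂ} {x : ℕ → ℤ × ℤ} (h1 : ∀ n, |((x n).1 : ℝ) - φ n * y.re| ≤ 1)
    (h2 : ∀ n, |((x n).2 : ℝ) - φ n * y.im| ≤ 1) :
    Tendsto (fun n => ‖Dz (α (φ n)) (β (φ n)) (x n) - pz (φ n) (LD a b ha y)‖ / φ n) atTop (𝓝 0) := by
  have e1 : cc (LD a b ha y) = a * y.re := by rw [LD_apply, cc_coord]
  have e2 : rr (LD a b ha y) = y.im + b * y.re := by rw [LD_apply, rr_coord]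
  have A0 : 0 ≤ A := (abs_nonneg _).trans (hA 0)
  refine sq_zero hφ (C := A + 3) (y := fun n => (|α (φ n) - a| + |β (φ n) - b|) * |y.re|) ?_ (fun n => norm_nonneg _)
    fun n => ?_
  · have k1 : Tendsto (fun n => |α (φ n) - a|) atTop (𝓝 0) := by
      have := (hα.sub_const a).abs
      rwa [sub_self, abs_zero] at this
    have k2 : Tendsto (fun n => |β (φ n) - b|) atTop (𝓝 0) := by
      have := (hβ.sub_const b).abs
      rwa [sub_self, abs_zero] at this
    have := (k1.add k2).mul_const |y.re|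
    rwa [add_zero, zero_mul] at this
  · obtain ⟨N, hN⟩ : ∃ N : ℝ, N = φ n := ⟨_, rfl⟩
    have N0 : 0 ≤ N := by rw [hN]; exact Nat.cast_nonneg _
    have c1 := h1 n
    have c2 := h2 n
    rw [← hN] at c1 c2
    have f1 := fl (α (φ n) * (x n).1)
    have f2 := fl ((φ n : ℝ) * cc (LD a b ha y))
    have f3 := fl (β (φ n) * (x n).1)
    have f4 := fl ((φ n : ℝ) * rr (LD a b ha y))
    rw [e1, ← hN] at f2
    rw [e2, ← hN] at f4
    have g1 : |α (φ n) * (x n).1 - N * (a * y.re)| ≤ A + |α (φ n) - a| * |y.re| * N := by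
      have : α (φ n) * (x n).1 - N * (a * y.re) = α (φ n) * ((x n).1 - N * y.re) + (α (φ n) - a) * y.re * N := by ring
      rw [this]
      refine (abs_add_le _ _).trans (add_le_add ?_ ?_)
      · rw [abs_mul]
        calc |α (φ n)| * |((x n).1 : ℝ) - N * y.re| ≤ A * 1 := mul_le_mul (hA _) c1 (abs_nonneg _) A0
          _ = A := mul_one _
      · rw [abs_mul, abs_mul, abs_of_nonneg N0]
    have g2 : |β (φ n) * (x n).1 - N * (b * y.re)| ≤ A + |β (φ n) - b| * |y.re| * N := by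
      have : β (φ n) * (x n).1 - N * (b * y.re) = β (φ n) * ((x n).1 - N * y.re) + (β (φ n) - b) * y.re * N := by ring
      rw [this]
      refine (abs_add_le _ _).trans (add_le_add ?_ ?_)
      · rw [abs_mul]
        calc |β (φ n)| * |((x n).1 : ℝ) - N * y.re| ≤ A * 1 := mul_le_mul (hB _) c1 (abs_nonneg _) A0
          _ = A := mul_one _
      · rw [abs_mul, abs_mul, abs_of_nonneg N0]
    have t1 : 0 ≤ |α (φ n) - a| * |y.re| * N := by positivity
    have t2 : 0 ≤ |β (φ n) - b| * |y.re| * N := by positivity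
    rw [← hN]
    refine nZ_le ?_ ?_
    · rw [Prod.fst_sub]
      show |((⌊α (φ n) * (x n).1⌋ - ⌊(φ n : ℝ) * cc (LD a b ha y)⌋ : ℤ) : ℝ)| ≤ _
      rw [e1, ← hN]
      push_cast
      rw [abs_le] at f1 f2 g1 ⊢
      constructor <;> nlinarith
    · rw [Prod.snd_sub]
      show |(((x n).2 + ⌊β (φ n) * (x n).1⌋ - ⌊(φ n : ℝ) * rr (LD a b ha y)⌋ : ℤ) : ℝ)| ≤ _
      rw [e2, ← hN]
      push_cast
      rw [abs_le] at f3 f4 g2 c2 ⊢
      constructor <;> nlinarith

/-- **the rotation of order four** -/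
theorem JD_inv {α β : ℕ → ℝ} {a b A : ℝ} (ha : a ≠ 0) (hA : ∀ n, |α n| ≤ A) (hB : ∀ n, |β n| ≤ A)
    (hα : Tendsto (fun n => α (φ n)) atTop (𝓝 a)) (hβ : Tendsto (fun n => β (φ n)) atTop (𝓝 b))
    (hφ : Tendsto φ atTop atTop) (hE : Equi H) (hF : Flow Hb H α β) (h4 : ∀ x : Fin 3 → ℤ × ℤ, Hb (fun i => J4 (x i)) = Hb x) :
    JD a b ha ∈ invP H φ := by
  intro z hz
  obtain ⟨y, hy⟩ : ∃ y : Fin 3 → ℂ, y = fun i => Lg a b (z i) := ⟨_, rfl⟩
  have ez : ∀ i, LD a b ha (y i) = z i := fun i => by rw [hy]; exact Lf_Lg ha b _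
  have yi : Function.Injective y := fun i j hij => hz (by rw [← ez i, ← ez j, hij])
  obtain ⟨x, hx⟩ : ∃ x : ℕ → Fin 3 → ℤ × ℤ, x = fun n i => (⌊(φ n : ℝ) * (y i).re⌋, ⌊(φ n : ℝ) * (y i).im⌋) := ⟨_, rfl⟩
  have x1 : ∀ n i, |((x n i).1 : ℝ) - φ n * (y i).re| ≤ 1 := fun n i => by rw [hx]; exact fl _
  have x2 : ∀ n i, |((x n i).2 : ℝ) - φ n * (y i).im| ≤ 1 := fun n i => by rw [hx]; exact fl _
  -- the two images
  have k1 := equi_seq hE hφ hz (x := fun n i => Dz (α (φ n)) (β (φ n)) (x n i)) fun i => by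
    have := Dz_near ha hA hB hα hβ hφ (fun n => x1 n i) (fun n => x2 n i)
    rwa [ez i] at this
  have k2 := equi_seq hE hφ (z := fun i => JD a b ha (z i)) ((JD a b ha).injective.comp hz)
    (x := fun n i => Dz (α (φ n)) (β (φ n)) (J4 (x n i))) fun i => by
      have e : JD a b ha (z i) = LD a b ha (I * y i) := by rw [JD_apply, hy]
      rw [e]
      refine Dz_near ha hA hB hα hβ hφ (fun n => ?_) (fun n => ?_)
      · have e3 : (((J4 (x n i)).1 : ℤ) : ℝ) = -((x n i).2 : ℝ) := by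
          unfold J4
          push_cast
          ring
        rw [e3, show (I * y i).re = -(y i).im by simp, show -((x n i).2 : ℝ) - φ n * -(y i).im =
          -(((x n i).2 : ℝ) - φ n * (y i).im) by ring, abs_neg]
        exact x2 n i
      · have e3 : (((J4 (x n i)).2 : ℤ) : ℝ) = ((x n i).1 : ℝ) := rfl
        rw [e3, show (I * y i).im = (y i).re by simp]
        exact x1 n i
  -- the flow
  obtain ⟨R, hR⟩ : ∃ R : ℝ, ∀ i, |(y i).re| ≤ R ∧ |(y i).im| ≤ R := by
    obtain ⟨R, hR⟩ := (Set.finite_range fun i => ‖y i‖).bddAbove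
    exact ⟨R, fun i => ⟨(abs_re_le_norm _).trans (hR (Set.mem_range_self i)),
      (abs_im_le_norm _).trans (hR (Set.mem_range_self i))⟩⟩
  have R0 : 0 ≤ R := (abs_nonneg _).trans (hR 0).1
  obtain ⟨d, d0, hd⟩ : ∃ d > 0, ∀ i j, i ≠ j → d ≤ max |(y i).re - (y j).re| |(y i).im - (y j).im| := by
    have hn : Nonempty {p : Fin 3 × Fin 3 // p.1 ≠ p.2} := ⟨⟨(0, 1), by decide⟩⟩
    obtain ⟨p, hp⟩ := Finite.exists_min fun p : {p : Fin 3 × Fin 3 // p.1 ≠ p.2} =>
      max |(y p.1.1).re - (y p.1.2).re| |(y p.1.1).im - (y p.1.2).im|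
    refine ⟨_, ?_, fun i j hij => hp ⟨(i, j), hij⟩⟩
    by_contra hc
    have hc' := not_lt.1 hc
    have u1 := (le_max_left _ _).trans hc'
    have u2 := (le_max_right _ _).trans hc'
    have v1 := abs_nonpos_iff.1 u1
    have v2 := abs_nonpos_iff.1 u2
    exact p.2 (yi (Complex.ext (by linarith) (by linarith)))
  have hsep : ∀ n, 4 / d ≤ (φ n : ℝ) → ∀ i j, i ≠ j → d / 2 * φ n ≤ ‖x n i - x n j‖ := by
    intro n hn i j hij
    have N0 : 0 ≤ (φ n : ℝ) := Nat.cast_nonneg _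
    have q1 := hd i j hij
    have q2 : 4 ≤ d * φ n := by
      rw [div_le_iff₀ d0] at hn
      linarith
    have q3 := mul_le_mul_of_nonneg_left q1 N0
    rw [mul_max_of_nonneg _ _ N0] at q3
    have r1 := x1 n i
    have r2 := x1 n j
    have r3 := x2 n i
    have r4 := x2 n j
    rw [nZ, Prod.fst_sub, Prod.snd_sub]
    push_cast
    have s1 : (φ n : ℝ) * |(y i).re - (y j).re| ≤ |((x n i).1 : ℝ) - (x n j).1| + 2 := by
      calc (φ n : ℝ) * |(y i).re - (y j).re| = |φ n * (y i).re - φ n * (y j).re| := by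
            rw [← mul_sub, abs_mul, Nat.abs_cast]
        _ = |(((x n i).1 : ℝ) - (x n j).1) - (((x n i).1 : ℝ) - φ n * (y i).re) + (((x n j).1 : ℝ) - φ n * (y j).re)| := by
            congr 1
            ring
        _ ≤ |((x n i).1 : ℝ) - (x n j).1| + 1 + 1 := (abs_add_le _ _).trans (add_le_add ((abs_sub _ _).trans
            (add_le_add le_rfl r1)) r2)
        _ = _ := by ring
    have s2 : (φ n : ℝ) * |(y i).im - (y j).im| ≤ |((x n i).2 : ℝ) - (x n j).2| + 2 := by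
      calc (φ n : ℝ) * |(y i).im - (y j).im| = |φ n * (y i).im - φ n * (y j).im| := by
            rw [← mul_sub, abs_mul, Nat.abs_cast]
        _ = |(((x n i).2 : ℝ) - (x n j).2) - (((x n i).2 : ℝ) - φ n * (y i).im) + (((x n j).2 : ℝ) - φ n * (y j).im)| := by
            congr 1
            ring
        _ ≤ |((x n i).2 : ℝ) - (x n j).2| + 1 + 1 := (abs_add_le _ _).trans (add_le_add ((abs_sub _ _).trans
            (add_le_add le_rfl r3)) r4)
        _ = _ := by ring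
    rcases le_max_iff.1 q3 with q4 | q4
    · refine le_max_of_le_left ?_
      linarith
    · refine le_max_of_le_right ?_
      linarith
  have hbd : ∀ n, (1 : ℝ) ≤ φ n → ∀ i, ‖x n i‖ ≤ (R + 1) * φ n := by
    intro n hn i
    have N0 : 0 ≤ (φ n : ℝ) := Nat.cast_nonneg _
    have r1 := x1 n i
    have r3 := x2 n i
    have w1 := (hR i).1
    have w2 := (hR i).2
    have w3 : |(φ n : ℝ) * (y i).re| ≤ φ n * R := by
      rw [abs_mul, Nat.abs_cast]
      exact mul_le_mul_of_nonneg_left w1 N0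
    have w4 : |(φ n : ℝ) * (y i).im| ≤ φ n * R := by
      rw [abs_mul, Nat.abs_cast]
      exact mul_le_mul_of_nonneg_left w2 N0
    refine nZ_le ?_ ?_
    · have : ((x n i).1 : ℝ) = (((x n i).1 : ℝ) - φ n * (y i).re) + φ n * (y i).re := by ring
      rw [this]
      refine (abs_add_le _ _).trans ?_
      linarith
    · have : ((x n i).2 : ℝ) = (((x n i).2 : ℝ) - φ n * (y i).im) + φ n * (y i).im := by ring
      rw [this]
      refine (abs_add_le _ _).trans ?_
      linarith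
  have nJ : ∀ x y : ℤ × ℤ, ‖J4 x - J4 y‖ = ‖x - y‖ := by
    intro x y
    rw [nZ, nZ, Prod.fst_sub, Prod.snd_sub, Prod.fst_sub, Prod.snd_sub]
    unfold J4
    push_cast
    rw [max_comm, show (-(x.2 : ℝ) - -(y.2 : ℝ)) = -((x.2 : ℝ) - y.2) by ring, abs_neg]
  have nJ0 : ∀ x : ℤ × ℤ, ‖J4 x‖ = ‖x‖ := by
    intro x
    rw [nZ, nZ]
    unfold J4
    push_cast
    rw [max_comm, abs_neg]
  have k3 : Tendsto (fun n => H (fun i => Dz (α (φ n)) (β (φ n)) (J4 (x n i))) - H (fun i => Dz (α (φ n)) (β (φ n)) (x n i)))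
      atTop (𝓝 0) := by
    rw [Metric.tendsto_atTop]
    intro ε hε
    obtain ⟨N0, hN0⟩ := hF (R + 1) (d / 2) (ε / 3) (by linarith) (by linarith) (by linarith)
    obtain ⟨n0, hn0⟩ := ((hφ.eventually_ge_atTop N0).and (((tend_N hφ).eventually_ge_atTop 1).and
      ((tend_N hφ).eventually_ge_atTop (4 / d)))).exists_forall_of_atTop
    refine ⟨n0, fun n hn => ?_⟩
    obtain ⟨a1, a2, a3⟩ := hn0 n hn
    have b1 := hN0 (φ n) a1 (x n) (hbd n a2) (hsep n a3)
    have b2 := hN0 (φ n) a1 (fun i => J4 (x n i)) (fun i => by rw [nJ0]; exact hbd n a2 i)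
      (fun i j hij => by rw [nJ]; exact hsep n a3 i j hij)
    rw [h4] at b2
    rw [Real.dist_eq, sub_zero]
    rw [abs_le] at b1 b2
    rw [abs_lt]
    constructor <;> linarith
  refine ((k1.add k3).sub k2 |>.congr fun n => ?_) |>.trans (by rw [add_zero, sub_zero])
  ring

/-- **bounded distortion** -/
theorem inv_bdd (hE : Equi H) (hC : Close3 H) (hP : Pos3 H) : ∃ K : ℝ, ∀ φ : ℕ → ℕ, Tendsto φ atTop atTop →
    ∀ g ∈ invP H φ, |dt g| = 1 → nn g ≤ K := by
  obtain ⟨c, c0, c', c1, S, N1, hN1⟩ := hP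
  obtain ⟨δ, δ0, K, hK⟩ := hC (c / 4) (by linarith)
  refine ⟨8 * S / (δ * c'), fun φ hφ g hg hdt => ?_⟩
  obtain ⟨u, u1, u2, u3⟩ := contr g hdt
  -- configurations with positive mass along the sequence
  have hch : ∀ n, ∃ z : Fin 3 → ℂ, N1 ≤ φ n → ((∀ i, ‖z i‖ ≤ S) ∧ c' ≤ |(conj u * (z 1 - z 0)).im| ∧
      (∃ a : ℝ, z 2 - z 0 = a * u ∧ c' ≤ |a|) ∧ c ≤ H (fun i => pz (φ n) (z i))) := by
    intro n
    by_cases h : N1 ≤ φ n
    · obtain ⟨z, hz⟩ := hN1 _ h u u1
      exact ⟨z, fun _ => hz⟩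
    · exact ⟨0, fun h' => absurd h' h⟩
  choose zs hzs using hch
  obtain ⟨n1, hn1⟩ := (hφ.eventually_ge_atTop N1).exists_forall_of_atTop
  have S0 : 0 ≤ S := (norm_nonneg _).trans ((hzs n1 (hn1 n1 le_rfl)).1 0)
  have hin : ∀ n, zs (n + n1) ∈ Metric.closedBall (0 : Fin 3 → ℂ) S := fun n => by
    rw [mem_closedBall_zero_iff, pi_norm_le_iff_of_nonneg S0]
    exact (hzs _ (hn1 _ (Nat.le_add_left _ _))).1
  obtain ⟨z, hz, ψ, hψ, hlim⟩ := tendsto_subseq_of_bounded Metric.isBounded_closedBall hin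
  obtain ⟨θ, hθ⟩ : ∃ θ : ℕ → ℕ, θ = fun n => ψ n + n1 := ⟨_, rfl⟩
  have θt : Tendsto θ atTop atTop := by
    rw [hθ]
    exact tendsto_atTop_mono (fun n => Nat.le_add_right _ _) hψ.tendsto_atTop
  have hzθ : ∀ n, (∀ i, ‖zs (θ n) i‖ ≤ S) ∧ c' ≤ |(conj u * (zs (θ n) 1 - zs (θ n) 0)).im| ∧
      (∃ a : ℝ, zs (θ n) 2 - zs (θ n) 0 = a * u ∧ c' ≤ |a|) ∧ c ≤ H (fun i => pz (φ (θ n)) (zs (θ n) i)) := fun n =>
    hzs _ (hn1 _ (by rw [hθ]; exact Nat.le_add_left _ _))
  have hl : Tendsto (fun n => zs (θ n)) atTop (𝓝 z) := by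
    rw [hθ]
    exact hlim
  have hli : ∀ i, Tendsto (fun n => zs (θ n) i) atTop (𝓝 (z i)) := fun i => (continuous_apply i).continuousAt.tendsto.comp hl
  -- the limit configuration
  have zS : ∀ i, ‖z i‖ ≤ S := fun i => le_of_tendsto (hli i).norm (Eventually.of_forall fun n => (hzθ n).1 i)
  have z1 : c' ≤ |(conj u * (z 1 - z 0)).im| := by
    have h1 : Tendsto (fun n => |(conj u * (zs (θ n) 1 - zs (θ n) 0)).im|) atTop (𝓝 |(conj u * (z 1 - z 0)).im|) :=
      ((continuous_im.continuousAt.tendsto.comp (((hli 1).sub (hli 0)).const_mul (conj u)))).abs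
    exact ge_of_tendsto h1 (Eventually.of_forall fun n => (hzθ n).2.1)
  have hconj : conj u * u = 1 := by
    rw [mul_comm, mul_conj, normSq_eq_norm_sq, u1]
    norm_num
  have z2im : (conj u * (z 2 - z 0)).im = 0 := by
    have h1 : Tendsto (fun n => (conj u * (zs (θ n) 2 - zs (θ n) 0)).im) atTop (𝓝 (conj u * (z 2 - z 0)).im) :=
      continuous_im.continuousAt.tendsto.comp (((hli 2).sub (hli 0)).const_mul (conj u))
    have h2 : ∀ n, (conj u * (zs (θ n) 2 - zs (θ n) 0)).im = 0 := fun n => by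
      obtain ⟨a, ha, -⟩ := (hzθ n).2.2.1
      rw [ha, show conj u * ((a : ℂ) * u) = a * (conj u * u) by ring, hconj, mul_one, ofReal_im]
    simp only [h2] at h1
    exact tendsto_nhds_unique h1 tendsto_const_nhds |>.symm ▸ rfl
  have z2n : c' ≤ ‖z 2 - z 0‖ := by
    have h1 : Tendsto (fun n => ‖zs (θ n) 2 - zs (θ n) 0‖) atTop (𝓝 ‖z 2 - z 0‖) := ((hli 2).sub (hli 0)).norm
    refine ge_of_tendsto h1 (Eventually.of_forall fun n => ?_)
    obtain ⟨a, ha, ha'⟩ := (hzθ n).2.2.1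
    rw [ha, norm_mul, u1, mul_one, norm_real]
    exact ha'
  have zi : Function.Injective z := by
    have d10 : z 1 ≠ z 0 := fun h => by
      rw [h, sub_self, mul_zero, zero_im, abs_zero] at z1
      linarith
    have d20 : z 2 ≠ z 0 := fun h => by
      rw [h, sub_self, norm_zero] at z2n
      linarith
    have d21 : z 2 ≠ z 1 := fun h => by
      rw [h] at z2im
      rw [z2im, abs_zero] at z1
      linarith
    intro i j hij
    by_contra hne
    have h3 : (i = 0 ∨ i = 1 ∨ i = 2) ∧ (j = 0 ∨ j = 1 ∨ j = 2) := by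
      constructor
      · fin_cases i <;> simp
      · fin_cases j <;> simp
    rcases h3 with ⟨rfl | rfl | rfl, rfl | rfl | rfl⟩
    · exact hne rfl
    · exact d10 hij.symm
    · exact d20 hij.symm
    · exact d10 hij
    · exact hne rfl
    · exact d21 hij.symm
    · exact d20 hij
    · exact d21 hij
    · exact hne rfl
  have φθ : Tendsto (fun n => φ (θ n)) atTop atTop := hφ.comp θt
  -- positivity at the limit configuration
  have k1 := equi_seq hE φθ zi (x := fun n i => pz (φ (θ n)) (zs (θ n) i)) fun i => by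
    have h1 : Tendsto (fun n => cn (zs (θ n) i - z i)) atTop (𝓝 0) := by
      have h2 : Tendsto (fun n => 2 * ‖zs (θ n) i - z i‖) atTop (𝓝 0) := by
        have := (((hli i).sub_const (z i)).norm).const_mul 2
        rwa [sub_self, norm_zero, mul_zero] at this
      exact squeeze_zero (fun n => cn_nonneg _) (fun n => cn_le_norm _) h2
    refine sq_zero φθ (C := 2) (y := fun n => cn (zs (θ n) i - z i)) h1 (fun n => norm_nonneg _) fun n => ?_
    have := (abs_le.1 (pz_sub (φ (θ n)) (zs (θ n) i) (z i))).2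
    linarith
  have k2 := (hg z zi).comp θt
  have k3 : Tendsto (fun n => H (fun i => pz (φ (θ n)) (g (z i))) - H (fun i => pz (φ (θ n)) (zs (θ n) i))) atTop (𝓝 0) := by
    have := k2.sub k1
    rw [sub_zero] at this
    refine this.congr fun n => ?_
    show (H (fun i => pz (φ (θ n)) (g (z i))) - H (fun i => pz (φ (θ n)) (z i))) - _ = _
    ring
  have k4 : ∀ᶠ n in atTop, c / 4 < H (fun i => pz (φ (θ n)) (g (z i))) := by
    filter_upwards [(tendsto_order.1 k3).1 (-(c / 2)) (by linarith)] with n hn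
    have := (hzθ n).2.2.2
    linarith
  -- the ratio of the distances
  have q1 : 0 < cn (g (z 1) - g (z 0)) := cn_pos (sub_ne_zero.2 fun h => by
    have := zi (g.injective h)
    exact absurd this (by decide))
  have k5 : δ * cn (g (z 1) - g (z 0)) ≤ cn (g (z 2) - g (z 0)) := by
    have l1 : Tendsto (fun n => ‖pz (φ (θ n)) (g (z 1)) - pz (φ (θ n)) (g (z 0))‖) atTop atTop := by
      refine tendsto_atTop_mono (f := fun n => (φ (θ n) : ℝ) * cn (g (z 1) - g (z 0)) + -2) (fun n => ?_) ?_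
      · have := (abs_le.1 (pz_sub (φ (θ n)) (g (z 1)) (g (z 0)))).1
        linarith
      · exact tendsto_atTop_add_const_right _ _ ((tend_N φθ).atTop_mul_const q1)
    by_contra hc
    have hc' := not_le.1 hc
    obtain ⟨n, hn1', hn2, hn3⟩ := (k4.and ((l1.eventually_ge_atTop K).and ((tend_N φθ).eventually_ge_atTop
      ((2 * δ + 2) / (δ * cn (g (z 1) - g (z 0)) - cn (g (z 2) - g (z 0))))))).exists
    have e1 := abs_le.1 (pz_sub (φ (θ n)) (g (z 1)) (g (z 0)))
    have e2 := abs_le.1 (pz_sub (φ (θ n)) (g (z 2)) (g (z 0)))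
    rw [div_le_iff₀ (by linarith)] at hn3
    have := hK (fun i => pz (φ (θ n)) (g (z i))) hn2 (by nlinarith)
    linarith
  -- conclusion
  obtain ⟨s, hs⟩ : ∃ s : ℝ, s = ‖P g‖ + ‖Q g‖ := ⟨_, rfl⟩
  rw [← hs] at u2 u3
  have s0 : 0 < s := by
    rw [hs]
    by_contra hc
    have h1 := norm_nonneg (P g)
    have h2 := norm_nonneg (Q g)
    have h3 : ‖P g‖ = 0 := by linarith
    have h4 : ‖Q g‖ = 0 := by linarith
    rw [dt, normSq_eq_norm_sq, normSq_eq_norm_sq, h3, h4] at hdt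
    norm_num at hdt
  obtain ⟨a, ha⟩ : ∃ a : ℝ, z 2 - z 0 = a * u := by
    refine ⟨(conj u * (z 2 - z 0)).re, ?_⟩
    have h1 : conj u * (z 2 - z 0) = ((conj u * (z 2 - z 0)).re : ℂ) := by
      apply Complex.ext
      · rw [ofReal_re]
      · rw [ofReal_im, z2im]
    calc z 2 - z 0 = (conj u * u) * (z 2 - z 0) := by rw [hconj, one_mul]
      _ = (conj u * (z 2 - z 0)) * u := by ring
      _ = _ := by rw [← h1]
  have aS : |a| ≤ 2 * S := by
    have h1 : ‖z 2 - z 0‖ = |a| := by rw [ha, norm_mul, u1, mul_one, norm_real, Real.norm_eq_abs]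
    rw [← h1]
    calc ‖z 2 - z 0‖ ≤ ‖z 2‖ + ‖z 0‖ := norm_sub_le _ _
      _ ≤ 2 * S := by linarith [zS 2, zS 0]
  have r1 : ‖g (z 2) - g (z 0)‖ * s ≤ 2 * S := by
    rw [← map_sub, ha, show (a : ℂ) * u = a • u from rfl, map_smul, norm_smul, Real.norm_eq_abs]
    calc |a| * ‖g u‖ * s = |a| * (‖g u‖ * s) := by ring
      _ ≤ 2 * S * 1 := mul_le_mul aS u2 (by positivity) (by linarith)
      _ = 2 * S := mul_one _
  have r2 : s * c' ≤ ‖g (z 1) - g (z 0)‖ := by
    rw [← map_sub]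
    exact (mul_le_mul_of_nonneg_left z1 s0.le).trans (u3 _)
  have r3 := norm_le_cn (g (z 1) - g (z 0))
  have r4 := cn_le_norm (g (z 2) - g (z 0))
  have r5 : δ * (s * c') ≤ 4 * ‖g (z 2) - g (z 0)‖ := by
    have : δ * (s * c') ≤ δ * (2 * cn (g (z 1) - g (z 0))) := mul_le_mul_of_nonneg_left (r2.trans r3) δ0.le
    nlinarith
  have r6 : s ^ 2 ≤ 8 * S / (δ * c') := by
    rw [le_div_iff₀ (by positivity)]
    calc s ^ 2 * (δ * c') = (δ * (s * c')) * s := by ring
      _ ≤ (4 * ‖g (z 2) - g (z 0)‖) * s := mul_le_mul_of_nonneg_right r5 s0.le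
      _ = 4 * (‖g (z 2) - g (z 0)‖ * s) := by ring
      _ ≤ 4 * (2 * S) := by linarith
      _ = 8 * S := by ring
  refine le_trans ?_ r6
  rw [nn, normSq_eq_norm_sq, normSq_eq_norm_sq, hs]
  nlinarith [norm_nonneg (P g), norm_nonneg (Q g)]

end

/-- **ID: the linear map of the flow** -/
theorem id_lim {Hb H : (Fin 3 → ℤ × ℤ) → ℝ} {α β : ℕ → ℝ} {A : ℝ} (h1 : ∀ n, 1 ≤ α n) (hA : ∀ n, α n ≤ A)
    (hB : ∀ n, |β n| ≤ A) (hF : Flow Hb H α β) (h4 : ∀ x : Fin 3 → ℤ × ℤ, Hb (fun i => J4 (x i)) = Hb x)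
    (h6 : ∀ x : Fin 3 → ℤ × ℤ, H (fun i => J6 (x i)) = H x) (hE : Equi H) (hC : Close3 H) (hP : Pos3 H) :
    Tendsto α atTop (𝓝 (2 / Real.sqrt 3)) ∧ Tendsto β atTop (𝓝 (-(1 / Real.sqrt 3))) := by
  obtain ⟨K, hK⟩ := inv_bdd hE hC hP
  have key : ∀ φ : ℕ → ℕ, Tendsto φ atTop atTop → ∃ ψ : ℕ → ℕ, Tendsto (fun n => α (φ (ψ n))) atTop (𝓝 (2 / Real.sqrt 3)) ∧
      Tendsto (fun n => β (φ (ψ n))) atTop (𝓝 (-(1 / Real.sqrt 3))) := by
    intro φ hφ
    have hin : ∀ n, ((α (φ n), β (φ n)) : ℝ × ℝ) ∈ Metric.closedBall (0 : ℝ × ℝ) A := by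
      intro n
      rw [mem_closedBall_zero_iff, Prod.norm_def, max_le_iff]
      refine ⟨?_, hB _⟩
      rw [Real.norm_eq_abs, abs_of_nonneg (by linarith [h1 (φ n)])]
      exact hA _
    obtain ⟨⟨a, b⟩, -, ψ, hψ, hlim⟩ := tendsto_subseq_of_bounded Metric.isBounded_closedBall hin
    have la : Tendsto (fun n => α (φ (ψ n))) atTop (𝓝 a) := (continuous_fst.tendsto _).comp hlim
    have lb : Tendsto (fun n => β (φ (ψ n))) atTop (𝓝 b) := (continuous_snd.tendsto _).comp hlim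
    have hφψ : Tendsto (fun n => φ (ψ n)) atTop atTop := hφ.comp hψ.tendsto_atTop
    have a1 : 1 ≤ a := ge_of_tendsto la (Eventually.of_forall fun n => h1 _)
    have ha : 0 < a := by linarith
    have hA' : ∀ n, |α n| ≤ A := fun n => by
      rw [abs_of_nonneg (by linarith [h1 n])]
      exact hA n
    have j1 := JD_inv (φ := fun n => φ (ψ n)) ha.ne' hA' hB la lb hφψ hE hF h4
    have j2 := R6_inv (φ := fun n => φ (ψ n)) hE hφψ h6
    -- the subgroup of the maps of determinant one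
    obtain ⟨G, hG⟩ : ∃ G : Subgroup LG, ∀ g, g ∈ G ↔ g ∈ invP H (fun n => φ (ψ n)) ∧ |dt g| = 1 := by
      refine ⟨{ carrier := {g | g ∈ invP H (fun n => φ (ψ n)) ∧ |dt g| = 1}
                mul_mem' := ?_
                one_mem' := ?_
                inv_mem' := ?_ }, fun g => Iff.rfl⟩
      · rintro g h ⟨a1, a2⟩ ⟨b1, b2⟩
        exact ⟨(invP H _).mul_mem a1 b1, by rw [dt_mul, abs_mul, a2, b2, mul_one]⟩
      · exact ⟨(invP H _).one_mem, by rw [dt_one, abs_one]⟩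
      · rintro g ⟨a1, a2⟩
        refine ⟨(invP H _).inv_mem a1, ?_⟩
        have h5 : |dt g| * |dt g⁻¹| = 1 := by rw [← abs_mul, ← dt_mul, mul_inv_cancel, dt_one, abs_one]
        rwa [a2, one_mul] at h5
    have g6 : R6 ∈ G := (hG _).2 ⟨j2, by rw [dt_R6, abs_one]⟩
    have gJ : JD a b ha.ne' ∈ G := (hG _).2 ⟨j1, by rw [dt_JD, abs_one]⟩
    have hbd : ∃ C : ℝ, ∀ g ∈ G, nn g ≤ C := ⟨K, fun g hg => hK _ hφψ g ((hG g).1 hg).1 ((hG g).1 hg).2⟩
    obtain ⟨v1, v2⟩ := val_of_orth ha (orth_of_bdd G g6 hbd gJ)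
    exact ⟨ψ, by rw [← v1]; exact la, by rw [← v2]; exact lb⟩
  constructor
  · refine tendsto_of_subseq_tendsto fun φ hφ => ?_
    obtain ⟨ψ, h, -⟩ := key φ hφ
    exact ⟨ψ, h⟩
  · refine tendsto_of_subseq_tendsto fun φ hφ => ?_
    obtain ⟨ψ, -, h⟩ := key φ hφ
    exact ⟨ψ, h⟩

/-- **the flow with the limit map** -/
theorem flow_lim {m : ℕ} {Hb H : (Fin m → ℤ × ℤ) → ℝ} {α β : ℕ → ℝ} {a b A : ℝ} (h1 : ∀ n, 1 ≤ α n) (hA : ∀ n, α n ≤ A)
    (hB : ∀ n, |β n| ≤ A) (hF : Flow Hb H α β) (hE : Equi H) (hα : Tendsto α atTop (𝓝 a)) (hβ : Tendsto β atTop (𝓝 b)) :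
    Flow Hb H (fun _ => a) (fun _ => b) := by
  intro R d ε hR hd hε
  have A0 : 0 ≤ A := (abs_nonneg _).trans (hB 0)
  obtain ⟨d1, hd1⟩ : ∃ d1 : ℝ, d1 = d / (2 * (A + 1)) := ⟨_, rfl⟩
  have d10 : 0 < d1 := by rw [hd1]; positivity
  have d12 : d1 * A ≤ d / 2 := by
    rw [hd1, div_mul_eq_mul_div, div_le_div_iff₀ (by positivity) (by norm_num)]
    nlinarith
  have d13 : d1 ≤ d / 2 := by
    rw [hd1, div_le_div_iff₀ (by positivity) (by norm_num)]
    nlinarith
  obtain ⟨δ, δ0, N1, hN1⟩ := hE ((2 * A + 1) * R + 1) (d1 / 2) (ε / 2) (by positivity) (by positivity) (by positivity)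
  obtain ⟨N2, hN2⟩ := hF R d (ε / 2) hR hd (by positivity)
  have k1 : Tendsto (fun n => (|α n - a| + |β n - b|) * R) atTop (𝓝 0) := by
    have e1 : Tendsto (fun n => |α n - a|) atTop (𝓝 0) := by
      have := (hα.sub_const a).abs
      rwa [sub_self, abs_zero] at this
    have e2 : Tendsto (fun n => |β n - b|) atTop (𝓝 0) := by
      have := (hβ.sub_const b).abs
      rwa [sub_self, abs_zero] at this
    have := (e1.add e2).mul_const R
    rwa [add_zero, zero_mul] at this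
  have t1 : Tendsto (fun n : ℕ => (n : ℝ)) atTop atTop := tendsto_natCast_atTop_atTop
  obtain ⟨n0, hn0⟩ := (((tendsto_order.1 k1).2 (δ / 2) (by positivity)).and ((t1.eventually_ge_atTop (2 + 4 / δ)).and
    (t1.eventually_ge_atTop (4 / d1)))).exists_forall_of_atTop
  refine ⟨max n0 (max N1 N2), fun N hN x hx hs => ?_⟩
  obtain ⟨a1, a2, a3⟩ := hn0 N ((le_max_left _ _).trans hN)
  have a4 : N1 ≤ N := (le_max_left _ _).trans ((le_max_right _ _).trans hN)
  have a5 : N2 ≤ N := (le_max_right _ _).trans ((le_max_right _ _).trans hN)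
  have p1 : 0 < 4 / δ := by positivity
  have N0 : (0 : ℝ) < N := by linarith
  have a6 : 4 ≤ δ * N := by
    have : 4 / δ ≤ (N : ℝ) := by linarith
    rw [div_le_iff₀ δ0] at this
    linarith
  have a7 : 4 ≤ d1 * N := by
    rw [div_le_iff₀ d10] at a3
    linarith
  have b1 := hN2 N a5 x hx hs
  have x1 : ∀ i, |((x i).1 : ℝ)| ≤ R * N := fun i => by
    have := hx i
    rw [nZ] at this
    exact (le_max_left _ _).trans this
  have x2 : ∀ i, |((x i).2 : ℝ)| ≤ R * N := fun i => by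
    have := hx i
    rw [nZ] at this
    exact (le_max_right _ _).trans this
  have g1 : ∀ (s : ℝ) (i : Fin m), |s| ≤ A → |s * (x i).1| ≤ A * (R * N) := fun s i h => by
    rw [abs_mul]
    exact mul_le_mul h (x1 i) (abs_nonneg _) A0
  have aA : |α N| ≤ A := by
    rw [abs_of_nonneg (by linarith [h1 N])]
    exact hA N
  have b2 := hN1 N a4 (fun i => Dz (α N) (β N) (x i)) (fun i => Dz a b (x i)) (fun i => ?_) (fun i j hij => ?_) (fun i => ?_)
  · have e : Hb x - H (fun i => Dz a b (x i)) = (Hb x - H (fun i => Dz (α N) (β N) (x i))) +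
      (H (fun i => Dz (α N) (β N) (x i)) - H (fun i => Dz a b (x i))) := by ring
    rw [e]
    refine (abs_add_le _ _).trans ?_
    linarith
  · have f1 := abs_le.1 (fl (α N * (x i).1))
    have f2 := abs_le.1 (fl (β N * (x i).1))
    have f3 := abs_le.1 (g1 _ i aA)
    have f4 := abs_le.1 (g1 _ i (hB N))
    have f5 := abs_le.1 (x2 i)
    have f6 : 0 ≤ A * (R * N) := by positivity
    refine nZ_le ?_ ?_
    · show |((⌊α N * (x i).1⌋ : ℤ) : ℝ)| ≤ _
      rw [abs_le]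
      constructor <;> nlinarith
    · show |(((x i).2 + ⌊β N * (x i).1⌋ : ℤ) : ℝ)| ≤ _
      push_cast
      rw [abs_le]
      constructor <;> nlinarith
  · have f1 := abs_le.1 (fl (α N * (x i).1))
    have f1' := abs_le.1 (fl (α N * (x j).1))
    have f2 := abs_le.1 (fl (β N * (x i).1))
    have f2' := abs_le.1 (fl (β N * (x j).1))
    have s1 := hs i j hij
    rw [nZ, Prod.fst_sub, Prod.snd_sub] at s1
    rw [nZ, Prod.fst_sub, Prod.snd_sub]
    show _ ≤ max |((⌊α N * (x i).1⌋ - ⌊α N * (x j).1⌋ : ℤ) : ℝ)|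
      |(((x i).2 + ⌊β N * (x i).1⌋ - ((x j).2 + ⌊β N * (x j).1⌋) : ℤ) : ℝ)|
    push_cast at s1 ⊢
    by_cases hc : d1 * N ≤ |((x i).1 : ℝ) - (x j).1|
    · refine le_max_of_le_left ?_
      have q1 : d1 * N ≤ |α N * (x i).1 - α N * (x j).1| := by
        rw [← mul_sub, abs_mul, abs_of_nonneg (by linarith [h1 N] : 0 ≤ α N)]
        have := h1 N
        nlinarith [abs_nonneg (((x i).1 : ℝ) - (x j).1)]
      have q2 : |α N * (x i).1 - α N * (x j).1| ≤ |((⌊α N * (x i).1⌋ : ℝ)) - ⌊α N * (x j).1⌋| + 2 := by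
        have e : α N * (x i).1 - α N * (x j).1 = ((⌊α N * (x i).1⌋ : ℝ) - ⌊α N * (x j).1⌋) -
          (((⌊α N * (x i).1⌋ : ℝ) - α N * (x i).1) - ((⌊α N * (x j).1⌋ : ℝ) - α N * (x j).1)) := by ring
        rw [e]
        refine (abs_sub _ _).trans (add_le_add le_rfl ?_)
        rw [abs_le]
        constructor <;> linarith
      linarith
    · have hc' := not_le.1 hc
      have q0 : d * N ≤ |((x i).2 : ℝ) - (x j).2| := by
        rcases le_max_iff.1 s1 with h | h
        · exfalso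
          have : d1 * N ≤ d * N := by nlinarith
          linarith
        · exact h
      refine le_max_of_le_right ?_
      have q1 : |β N * (x i).1 - β N * (x j).1| ≤ d / 2 * N := by
        rw [← mul_sub, abs_mul]
        calc |β N| * |((x i).1 : ℝ) - (x j).1| ≤ A * (d1 * N) := mul_le_mul (hB N) hc'.le (abs_nonneg _) A0
          _ = (d1 * A) * N := by ring
          _ ≤ _ := mul_le_mul_of_nonneg_right d12 N0.le
      have q2 : |((x i).2 : ℝ) - (x j).2| ≤ |((x i).2 : ℝ) + ⌊β N * (x i).1⌋ - ((x j).2 + ⌊β N * (x j).1⌋)| +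
          (|β N * (x i).1 - β N * (x j).1| + 2) := by
        have e : ((x i).2 : ℝ) - (x j).2 = (((x i).2 : ℝ) + ⌊β N * (x i).1⌋ - ((x j).2 + ⌊β N * (x j).1⌋)) -
          ((β N * (x i).1 - β N * (x j).1) +
          (((⌊β N * (x i).1⌋ : ℝ) - β N * (x i).1) - ((⌊β N * (x j).1⌋ : ℝ) - β N * (x j).1))) := by ring
        rw [e]
        refine (abs_sub _ _).trans (add_le_add le_rfl ((abs_add_le _ _).trans (add_le_add ?_ ?_)))
        · exact le_rfl
        · rw [abs_le]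
          constructor <;> linarith
      nlinarith
  · have f1 := abs_le.1 (fl (α N * (x i).1))
    have f1' := abs_le.1 (fl (a * (x i).1))
    have f2 := abs_le.1 (fl (β N * (x i).1))
    have f2' := abs_le.1 (fl (b * (x i).1))
    have e1 : |(α N - a) * (x i).1| ≤ |α N - a| * (R * N) := by
      rw [abs_mul]
      exact mul_le_mul_of_nonneg_left (x1 i) (abs_nonneg _)
    have e2 : |(β N - b) * (x i).1| ≤ |β N - b| * (R * N) := by
      rw [abs_mul]
      exact mul_le_mul_of_nonneg_left (x1 i) (abs_nonneg _)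
    have e3 : (|α N - a| + |β N - b|) * R * N ≤ δ / 2 * N := mul_le_mul_of_nonneg_right a1.le N0.le
    have e4 : 0 ≤ |α N - a| * (R * N) := by positivity
    have e5 : 0 ≤ |β N - b| * (R * N) := by positivity
    rw [abs_le] at e1 e2
    refine nZ_le ?_ ?_
    · rw [Prod.fst_sub]
      show |((⌊α N * (x i).1⌋ - ⌊a * (x i).1⌋ : ℤ) : ℝ)| ≤ _
      push_cast
      rw [abs_le]
      constructor <;> nlinarith
    · rw [Prod.snd_sub]
      show |(((x i).2 + ⌊β N * (x i).1⌋ - ((x i).2 + ⌊b * (x i).1⌋) : ℤ) : ℝ)| ≤ _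
      push_cast
      rw [abs_le]
      constructor <;> nlinarith

end

end Pool.Agent.ROT.UId
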