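import Pool.Agent.ROT.UCC
import Pool.Agent.ROT.UId41
import Pool.Agent.ROT.EHexT

/-!
# ROT, universality, row ID (helper41): the rotation of order six for the mass of the loops with given surrounded points

* `sg_ro` : the side of a corner and the rotation of order six of the honeycomb;
* **`Pn_J6`** : `Pn (pi / 8)` is invariant under `J6 (c, r) = (-r, c + r)`; **`Pn_J4`** : `Pn (3 pi / 16)` is invariant under
  `J4 (c, r) = (-r, c)`.
-/

set_option autoImplicit false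

namespace Pool.Agent.ROT.UId

open Pool.Agent.YBC (Dir)
open Pool.Agent.UNI (wR)
open Pool.Agent.ROT.E (Cell Pt Cfg sg sg_succ sg_right io io_eq io_of io_supp)
open Pool.Agent.ROT.E.Hx (Bo ub us HL Ny roA hs inn)
open Pool.Agent.ROT.U (Pn Wl Pn_tr Pn_rot90)

noncomputable section

open Classical in
/-- the indicator of a used bond -/
def iu (γ : Cfg) (e : Bo) : ZMod 2 := if ub γ e then 1 else 0

theorem iu_ww (γ : Cfg) (v : Pt) : iu γ (v, .ww) = io γ v .W := by
  unfold iu io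
  have h : ub γ (v, .ww) ↔ E.oc γ (v, .W) := E.Hx.ub_bd (h := (v, .W))
  by_cases hc : E.oc γ (v, .W)
  · rw [if_pos hc, if_pos (h.2 hc)]
  · rw [if_neg hc, if_neg fun h' => hc (h.1 h')]

/-- the two ends of the diagonal of a cell -/
theorem sg_diag {γ : Cfg} (hm : E.Mt γ Set.univ) (hy : Ny γ) (p y : ℤ) :
    sg γ p (y + 1) = sg γ (p + 1) y + iu γ ((p, y), .jj) := by
  have h1 := sg_succ γ p y
  have h2 := sg_right hm p y
  have h3 : iu γ ((p, y), .jj) = io γ (p, y) .W + io γ (p, y) .S := by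
    unfold iu io ub us E.oc
    have h := hy (p, y)
    revert h
    generalize γ (p, y) = c
    intro h
    cases c <;> simp [Cell.oc, Cell.p, inn] <;> rfl
  rw [h3]
  have key : ∀ a b c d : ZMod 2, ∀ e : ZMod 2, a = b + c → a = d + e → b = d + (c + e) := by decide
  exact key _ _ _ _ _ h1 h2

/-- no side in the columns without vertices -/
theorem sg_far {γ : Cfg} {p y : ℤ} (h : ∀ v ∈ γ.support, v.1 ≠ p) : sg γ p y = 0 := by
  unfold sg
  exact Finset.sum_eq_zero fun v hv => if_neg fun hc => h v hv hc.1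

/-- **the side and the rotation of order six** -/
theorem sg_ro {γ : Cfg} (l : HL γ) (p y : ℤ) : sg (roA.ac γ) (1 - y) (p + y - 1) = sg γ p y := by
  have l' := roA.hl_ac l
  have step : ∀ y, sg (roA.ac γ) (1 - y) (p + y - 1) = sg (roA.ac γ) (1 - (y + 1)) (p + (y + 1) - 1) + io γ (p, y) .W := by
    intro y
    have h1 := sg_diag l'.lp.mt l'.ny (-y) (p + y - 1)
    have e1 : roA.b ((p, y), .ww) = ((-y, p + y - 1), .jj) := rfl
    have e2 : iu (roA.ac γ) ((-y, p + y - 1), .jj) = iu γ ((p, y), .ww) := by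
      rw [← e1]
      unfold iu
      have h := roA.ub_ac l ((p, y), .ww)
      by_cases hc : ub γ ((p, y), .ww)
      · rw [if_pos hc, if_pos (h.2 hc)]
      · rw [if_neg hc, if_neg fun h' => hc (h.1 h')]
    rw [e2, iu_ww] at h1
    have e3 : (1 : ℤ) - (y + 1) = -y := by ring
    have e4 : p + (y + 1) - 1 = p + y - 1 + 1 := by ring
    have e5 : (1 : ℤ) - y = -y + 1 := by ring
    rw [e3, e4, e5, h1]
    have key : ∀ a b : ZMod 2, a = a + b + b := by decide
    exact key _ _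
  -- both vanish for large `y`
  obtain ⟨Y, hY⟩ : ∃ Y : ℤ, ∀ v : Pt, (v ∈ γ.support → v.2 < Y) ∧ (v ∈ (roA.ac γ).support → -Y < v.1) := by
    obtain ⟨a, ha⟩ := (γ.support.image Prod.snd).bddAbove
    obtain ⟨b, hb⟩ := ((roA.ac γ).support.image fun v => -v.1).bddAbove
    refine ⟨max a b + 1, fun v => ⟨fun hv => ?_, fun hv => ?_⟩⟩
    · have := ha (Finset.mem_coe.2 (Finset.mem_image_of_mem Prod.snd hv))
      exact lt_of_le_of_lt (this.trans (le_max_left a b)) (lt_add_one _)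
    · have h0 := hb (Finset.mem_coe.2 (Finset.mem_image_of_mem (fun v : Pt => -v.1) hv))
      have h1 : -v.1 ≤ max a b := h0.trans (le_max_right _ _)
      omega
  have key : ∀ n : ℕ, ∀ y : ℤ, Y + 1 ≤ y + n → sg (roA.ac γ) (1 - y) (p + y - 1) = sg γ p y := by
    intro n
    induction n with
    | zero =>
      intro y hy
      have hy' : Y + 1 ≤ y := by simpa using hy
      rw [sg_far fun v hv => ?_]
      · symm
        unfold sg
        refine Finset.sum_eq_zero fun v hv => if_neg fun hc => ?_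
        have := (hY v).1 hv
        omega
      · have := (hY v).2 hv
        omega
    | succ n ih =>
      intro y hy
      rw [step y, sg_succ γ p y, ih (y + 1) (by push_cast at hy ⊢; omega)]
  exact key (Y + 1 - y).toNat y (by
    have := Int.self_le_toNat (Y + 1 - y)
    omega)

theorem Wl_ny {γ : Cfg} (h : Ny γ) : Wl (Real.pi / 8) γ = HexObs.xc ^ (hs γ).card := by
  classical
  unfold Wl
  rw [E.Hx.prod_hex, if_pos h]

theorem Wl_not {γ : Cfg} (h : ¬ Ny γ) : Wl (Real.pi / 8) γ = 0 := by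
  classical
  unfold Wl
  rw [E.Hx.prod_hex, if_neg h]

/-- the mass as a sum over the honeycomb loops -/
theorem Pn_hex {m : ℕ} (τ : Fin m → ZMod 2) (x : Fin m → Pt) : Pn (Real.pi / 8) τ x =
    ∑' γ : {γ : Cfg // HL γ}, {γ : Cfg | ∀ i, sg γ (x i).1 (x i).2 = τ i}.indicator (fun γ => HexObs.xc ^ (hs γ).card) γ.1 := by
  classical
  have e0 : ∑' γ : {γ : Cfg // HL γ}, {γ : Cfg | ∀ i, sg γ (x i).1 (x i).2 = τ i}.indicator
      (fun γ => HexObs.xc ^ (hs γ).card) γ.1 = ∑' γ : Cfg, {γ : Cfg | HL γ}.indicator (fun γ =>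
      {γ : Cfg | ∀ i, sg γ (x i).1 (x i).2 = τ i}.indicator (fun γ => HexObs.xc ^ (hs γ).card) γ) γ :=
    tsum_subtype {γ : Cfg | HL γ} fun γ => {γ : Cfg | ∀ i, sg γ (x i).1 (x i).2 = τ i}.indicator
      (fun γ => HexObs.xc ^ (hs γ).card) γ
  rw [e0]
  unfold Pn
  refine tsum_congr fun w => ?_
  by_cases h1 : E.Lp w
  · by_cases h2 : Ny w
    · rw [Set.indicator_of_mem (show w ∈ {γ : Cfg | HL γ} from ⟨h1, h2⟩)]
      by_cases h3 : ∀ i, sg w (x i).1 (x i).2 = τ i
      · rw [if_pos ⟨h1, h3⟩, Set.indicator_of_mem (show w ∈ {γ : Cfg | ∀ i, sg γ (x i).1 (x i).2 = τ i} from h3), Wl_ny h2]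
      · rw [if_neg fun h => h3 h.2,
          Set.indicator_of_notMem (show w ∉ {γ : Cfg | ∀ i, sg γ (x i).1 (x i).2 = τ i} from h3)]
    · rw [Set.indicator_of_notMem (show w ∉ {γ : Cfg | HL γ} from fun h => h2 h.2), Wl_not h2, ite_self]
  · rw [Set.indicator_of_notMem (show w ∉ {γ : Cfg | HL γ} from fun h => h1 h.1), if_neg fun h => h1 h.1]

/-- **the rotation of order six** -/
theorem Pn_ro {m : ℕ} (τ : Fin m → ZMod 2) (x : Fin m → Pt) :
    Pn (Real.pi / 8) τ (fun i => (1 - (x i).2, (x i).1 + (x i).2 - 1)) = Pn (Real.pi / 8) τ x := by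
  classical
  rw [Pn_hex, Pn_hex, ← roA.eq.tsum_eq]
  refine tsum_congr fun γ => ?_
  change {δ : Cfg | ∀ i, sg δ (1 - (x i).2) ((x i).1 + (x i).2 - 1) = τ i}.indicator (fun δ => HexObs.xc ^ (hs δ).card)
    (roA.ac γ.1) = _
  have e : roA.ac γ.1 ∈ {δ : Cfg | ∀ i, sg δ (1 - (x i).2) ((x i).1 + (x i).2 - 1) = τ i} ↔
      γ.1 ∈ {δ : Cfg | ∀ i, sg δ (x i).1 (x i).2 = τ i} :=
    forall_congr' fun i => by rw [sg_ro γ.2]
  by_cases h : γ.1 ∈ {δ : Cfg | ∀ i, sg δ (x i).1 (x i).2 = τ i}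
  · rw [Set.indicator_of_mem h, Set.indicator_of_mem (e.2 h), roA.card_ac γ.2]
  · rw [Set.indicator_of_notMem h, Set.indicator_of_notMem fun hc => h (e.1 hc)]

theorem Pn_J6 {m : ℕ} (τ : Fin m → ZMod 2) (x : Fin m → Pt) : Pn (Real.pi / 8) τ (fun i => J6 (x i)) = Pn (Real.pi / 8) τ x := by
  rw [← Pn_ro τ x, ← Pn_tr (Real.pi / 8) (1, -1) τ fun i => J6 (x i)]
  congr 1
  funext i
  refine Prod.ext ?_ ?_
  · show -(x i).2 + 1 = 1 - (x i).2
    ring
  · show (x i).1 + (x i).2 + -1 = (x i).1 + (x i).2 - 1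
    ring

theorem Pn_J4 {m : ℕ} (τ : Fin m → ZMod 2) (x : Fin m → Pt) :
    Pn (3 * Real.pi / 16) τ (fun i => J4 (x i)) = Pn (3 * Real.pi / 16) τ x := by
  rw [← Pn_rot90 τ x, ← Pn_tr (3 * Real.pi / 16) (1, 0) τ fun i => J4 (x i)]
  congr 1
  funext i
  refine Prod.ext ?_ ?_
  · show -(x i).2 + 1 = 1 - (x i).2
    ring
  · show (x i).1 + 0 = (x i).1
    ring

end

end Pool.Agent.ROT.UId
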