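import Pool.Agent.ROT.ULnA
import Pool.Agent.ROT.UNearDefs

/-!
# ROT, universality in the angle, row L1 (helper27): the swap of two columns for sums of class functions
-/

set_option autoImplicit false

namespace Pool.Agent.ROT.U.Ln

open Pool.Agent.ROT.E
open Pool.Agent.ROT.E.Lab
open Pool.Agent.EXL (Wt)
open Pool.Agent.YBC (Dir)
open Pool.Agent.UNI (wR wR_nn)
open scoped ENNReal

variable {A B : Set Pt} {γ δ ε : Cfg} {j : ℤ} {u u' : ℤ → ℝ}

theorem wt_nn (hu : An u) (i : ℤ) (c : Cell) : 0 ≤ c.wt (wR (u i)) := by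
  have := hu.nn i
  cases c <;> simp only [Cell.wt] <;>
    first | exact zero_le_one | exact this.v | exact this.u1 | exact this.u2 | exact this.w1 | exact this.w2

theorem MU_nonneg (hu : An u) (γ : Cfg) : 0 ≤ MU u γ := Finset.prod_nonneg fun _ _ => wt_nn hu _ _

open Classical in
/-- the weight outside of the strip -/
noncomputable def wo1 (j : ℤ) (u : ℤ → ℝ) (γ : Cfg) : ℝ :=
  γ.prod fun v c => if v ∈ Sp j then 1 else c.wt (wR (u v.1))

theorem MU_eq (j : ℤ) (u : ℤ → ℝ) (γ : Cfg) : MU u γ = wo1 j u γ * ws1 j u γ := by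
  classical
  simp only [MU, wo1, ws1, Finsupp.prod, ← Finset.prod_mul_distrib]
  refine Finset.prod_congr rfl fun v _ => ?_
  split_ifs <;> simp

theorem wo1_sw (j : ℤ) (u : ℤ → ℝ) (γ : Cfg) : wo1 j (sw j u) γ = wo1 j u γ := by
  classical
  simp only [wo1, Finsupp.prod]
  refine Finset.prod_congr rfl fun v _ => ?_
  split_ifs with h
  · rfl
  · rw [sw_out h]

theorem wo1_out (h : ∀ v, v ∉ Sp j → γ v = δ v) (u : ℤ → ℝ) : wo1 j u γ = wo1 j u δ := by
  classical
  have h0 : ∀ v : Pt, (if v ∈ Sp j then (1 : ℝ) else (0 : Cell).wt (wR (u v.1))) = 1 := by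
    intro v
    split_ifs <;> rfl
  rw [wo1, wo1, Finsupp.prod_of_support_subset γ (s := γ.support ∪ δ.support) Finset.subset_union_left _
    (fun v _ => h0 v), Finsupp.prod_of_support_subset δ (s := γ.support ∪ δ.support)
    Finset.subset_union_right _ (fun v _ => h0 v)]
  refine Finset.prod_congr rfl fun v _ => ?_
  split_ifs with hv
  · rfl
  · rw [h v hv]

theorem ws1_nonneg (hu : An u) (j : ℤ) (γ : Cfg) : 0 ≤ ws1 j u γ := by
  classical
  refine Finset.prod_nonneg fun v _ => ?_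
  dsimp only
  split_ifs
  · exact wt_nn hu _ _
  · exact zero_le_one

theorem wo1_nonneg (hu : An u) (j : ℤ) (γ : Cfg) : 0 ≤ wo1 j u γ := by
  classical
  refine Finset.prod_nonneg fun v _ => ?_
  dsimp only
  split_ifs
  · exact zero_le_one
  · exact wt_nn hu _ _

open Classical in
/-- **the weight of one class of the strip does not change** -/
theorem class_sum (hu : An u) (h : Sm1 j γ γ) : ∑' δ, (if Sm1 j γ δ then ENNReal.ofReal (MU (sw j u) δ) else 0) =
    ∑' δ, (if Sm1 j γ δ then ENNReal.ofReal (MU u δ) else 0) := by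
  obtain ⟨z, h1, h2⟩ := strip1P j u γ hu h
  have key : ∀ w : ℤ → ℝ, An w → wo1 j w γ = wo1 j u γ → HasSum (fun δ : Cfg => if Sm1 j γ δ then ws1 j w δ else 0) z →
      ∑' δ, (if Sm1 j γ δ then ENNReal.ofReal (MU w δ) else 0) = ENNReal.ofReal (wo1 j u γ) * ENNReal.ofReal z := by
    intro w hw ho hs
    have n0 : ∀ δ : Cfg, 0 ≤ (if Sm1 j γ δ then ws1 j w δ else 0) := by
      intro δ
      split_ifs
      · exact ws1_nonneg hw _ _
      · exact le_rfl
    rw [← hs.tsum_eq, ENNReal.ofReal_tsum_of_nonneg n0 hs.summable, ← ENNReal.tsum_mul_left]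
    refine tsum_congr fun δ => ?_
    split_ifs with hδ
    · rw [MU_eq j, ← wo1_out hδ.out, ho, ENNReal.ofReal_mul (wo1_nonneg hu j γ)]
    · simp
  rw [key (sw j u) (hu.sw j) (wo1_sw j u γ) h2, key u hu rfl h1]

/-- a class function of the strip `j, j + 1` -/
structure CF (j : ℤ) (F : Cfg → ℝ≥0∞) : Prop where
  ne : ∀ γ, F γ ≠ 0 → Sm1 j γ γ
  eq : ∀ γ δ, Sm1 j γ γ → Sm1 j γ δ → F γ = F δ

/-- the relation of the strip -/
def rr (j : ℤ) (γ δ : Cfg) : Prop := Sm1 j γ γ ∧ Sm1 j γ δ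

/-- comparison of sums of class functions -/
theorem CF.le {F f g : Cfg → ℝ≥0∞} (hF : CF j F)
    (hfg : ∀ γ, Sm1 j γ γ → F γ ≠ 0 → (open Classical in ∑' δ, (if Sm1 j γ δ then f δ else 0) ≤
      ∑' δ, (if Sm1 j γ δ then g δ else 0))) : ∑' γ, F γ * f γ ≤ ∑' γ, F γ * g γ := by
  classical
  have e : ∀ h : Cfg → ℝ≥0∞, ∑' γ, F γ * h γ =
      ∑' γ, (if rr j γ γ then F γ * h γ else 0) := by
    intro h
    refine tsum_congr fun γ => ?_
    split_ifs with h1
    · rfl
    · have : F γ = 0 := by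
        by_contra h2
        exact h1 ⟨hF.ne γ h2, hF.ne γ h2⟩
      rw [this, zero_mul]
  rw [e f, e g]
  refine tsum_class (r := rr j) (fun {x y} h => ?_) (fun {x y z} h h' => ?_)
    (fun {x y} h => hF.eq x y h.1 h.2) fun x hx h0 => ?_
  · have h1 := sa_iff.2 h.1
    have h2 := sa_iff.2 h.2
    exact ⟨sa_iff.1 h2.self, sa_iff.1 (h2.symm h1)⟩
  · exact ⟨h.1, sa_iff.1 ((sa_iff.2 h.2).trans (sa_iff.2 h'.2))⟩
  · have := hfg x hx.1 h0
    have e2 : ∀ y, rr j x y ↔ Sm1 j x y := fun y => ⟨fun h => h.2, fun h => ⟨hx.1, h⟩⟩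
    simp only [e2]
    exact this

/-- **the sum of a class function of the strip does not change under the swap** -/
theorem CF.swap {F : Cfg → ℝ≥0∞} (hF : CF j F) (hu : An u) :
    ∑' γ, F γ * ENNReal.ofReal (MU (sw j u) γ) = ∑' γ, F γ * ENNReal.ofReal (MU u γ) :=
  le_antisymm (hF.le fun _ h _ => (class_sum hu h).le) (hF.le fun _ h _ => (class_sum hu h).ge)

/-- class functions of a region -/
structure CA (A : Set Pt) (F : Cfg → ℝ≥0∞) : Prop where
  ne : ∀ γ, F γ ≠ 0 → SA A γ γ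
  eq : ∀ γ δ, SA A γ γ → SA A γ δ → F γ = F δ

theorem CA.cf {F : Cfg → ℝ≥0∞} (h : CA A F) (hj : Sp j ⊆ A) : CF j F where
  ne γ h0 := sa_iff.1 ((h.ne γ h0).sub hj)
  eq γ δ h1 h2 := by
    by_cases h3 : SA A γ γ
    · exact h.eq γ δ h3 (SA.refine hj h3 (sa_iff.2 h2))
    · by_cases h4 : SA A δ δ
      · exact absurd (SA.refine hj h4 ((sa_iff.2 h2).symm (sa_iff.2 h1))).self h3
      · have e1 : F γ = 0 := by
          by_contra h5
          exact h3 (h.ne γ h5)
        have e2 : F δ = 0 := by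
          by_contra h5
          exact h4 (h.ne δ h5)
        rw [e1, e2]

end Pool.Agent.ROT.U.Ln
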