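import Pool.Agent.ROT.UPos41
import Pool.Agent.ROT.UHex41
import Pool.Agent.ROT.ULnB

/-!
# ROT, universality, row ID (helper41): continuity and positivity of the mass of the loops with given surrounded points

From the near bound `NearM W` (98): `Equi`, `Close3`; from the mass of the loops around a point: `Pos3` for the honeycomb.
-/

set_option autoImplicit false

namespace Pool.Agent.ROT.UId

open MeasureTheory
open scoped ENNReal ComplexConjugate
open Pool.Agent.YBC (Dir)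
open Pool.Agent.UNI (wR)
open Pool.Agent.ROT.E (Cell Pt Cfg io io_eq io_of io_supp)
open Pool.Agent.ROT.E.Hx (HL Ny wl)
open Pool.Agent.ROT.I (Lps)
open Pool.Agent.ROT.U (Pn Wl Pn_tr MU muU hc Vis Ext NearM)

noncomputable section

/-! ### geometry -/

section geo

variable {γ : Cfg}

lemma sg_up {p y : ℤ} (h : γ (p, y) = 0) : E.sg γ p y = E.sg γ p (y + 1) := by
  rw [E.sg_succ, io_supp (by rw [Finsupp.notMem_support_iff]; exact h), add_zero]

lemma sg_rt (hm : E.Mt γ Set.univ) {p y : ℤ} (h : γ (p, y) = 0) : E.sg γ p y = E.sg γ (p + 1) y := by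
  rw [E.sg_right hm, io_supp (by rw [Finsupp.notMem_support_iff]; exact h), add_zero]

/-- the side is constant on a box which is not visited -/
theorem sg_box (hm : E.Mt γ Set.univ) {p0 y0 r : ℤ} (h : ∀ v : Pt, |v.1 - p0| ≤ r → |v.2 - y0| ≤ r → γ v = 0) {p y : ℤ}
    (hp : |p - p0| ≤ r) (hy : |y - y0| ≤ r) : E.sg γ p y = E.sg γ p0 y0 := by
  have hr : 0 ≤ r := (abs_nonneg _).trans hp
  have h1 : ∀ n : ℕ, (n : ℤ) ≤ 2 * r → E.sg γ p (y0 - r + n) = E.sg γ p (y0 - r) := by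
    intro n
    induction n with
    | zero => intro _; simp
    | succ n ih =>
      intro hn
      push_cast at hn ⊢
      rw [← ih (by omega), sg_up (p := p) (y := y0 - r + n) (h _ hp (by rw [abs_le]; constructor <;> show _ <;> simp <;> omega))]
      congr 1
      ring
  have h2 : ∀ n : ℕ, (n : ℤ) ≤ 2 * r → E.sg γ (p0 - r + n) y0 = E.sg γ (p0 - r) y0 := by
    intro n
    induction n with
    | zero => intro _; simp
    | succ n ih =>
      intro hn
      push_cast at hn ⊢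
      rw [← ih (by omega), sg_rt hm (p := p0 - r + n) (y := y0) (h _ (by rw [abs_le]; constructor <;> simp <;> omega)
        (by simpa using hr))]
      congr 1
      ring
  rw [abs_le] at hp hy
  obtain ⟨a, ha⟩ : ∃ a : ℕ, (a : ℤ) = y - (y0 - r) := ⟨(y - (y0 - r)).toNat, Int.toNat_of_nonneg (by omega)⟩
  obtain ⟨b, hb⟩ : ∃ b : ℕ, (b : ℤ) = r := ⟨r.toNat, Int.toNat_of_nonneg hr⟩
  obtain ⟨c, hc⟩ : ∃ c : ℕ, (c : ℤ) = p - (p0 - r) := ⟨(p - (p0 - r)).toNat, Int.toNat_of_nonneg (by omega)⟩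
  have e1 := h1 a (by omega)
  have e2 := h1 b (by omega)
  have e3 := h2 c (by omega)
  have e4 := h2 b (by omega)
  rw [show y0 - r + (a : ℤ) = y by omega] at e1
  rw [show y0 - r + (b : ℤ) = y0 by omega] at e2
  rw [show p0 - r + (c : ℤ) = p by omega] at e3
  rw [show p0 - r + (b : ℤ) = p0 by omega] at e4
  rw [e1, ← e2, e3, ← e4]

theorem above {p y : ℤ} (h : E.sg γ p y ≠ 0) : ∃ v : Pt, γ v ≠ 0 ∧ v.1 = p ∧ y ≤ v.2 := by
  by_contra hc
  apply h
  unfold E.sg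
  refine Finset.sum_eq_zero fun v hv => if_neg fun h2 => hc ⟨v, Finsupp.mem_support_iff.1 hv, h2.1, h2.2⟩

theorem left (hm : E.Mt γ Set.univ) {p y : ℤ} (h : E.sg γ p y ≠ 0) : ∃ v : Pt, γ v ≠ 0 ∧ v.2 = y ∧ v.1 < p := by
  by_contra hc
  apply h
  rw [sg_row hm]
  refine Finset.sum_eq_zero fun v hv => if_neg fun h2 => hc ⟨v, Finsupp.mem_support_iff.1 hv, h2.1, h2.2⟩

theorem right (hm : E.Mt γ Set.univ) {p y : ℤ} (h : E.sg γ p y ≠ 0) : ∃ v : Pt, γ v ≠ 0 ∧ v.2 = y ∧ p ≤ v.1 := by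
  by_contra hc
  push Not at hc
  apply h
  have h1 : ∀ n : ℕ, E.sg γ (p + n) y = E.sg γ p y := by
    intro n
    induction n with
    | zero => simp
    | succ n ih =>
      rw [← ih]
      have h2 : γ (p + n, y) = 0 := by
        by_contra h3
        exact absurd (hc _ h3 rfl) (by simp)
      rw [sg_rt hm h2]
      congr 1
      push_cast
      ring
  obtain ⟨b, hb⟩ := (γ.support.image Prod.fst).bddAbove
  rw [← h1 (b + 1 - p).toNat]
  refine sg_far fun v hv he => ?_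
  have h3 := hb (Finset.mem_coe.2 (Finset.mem_image_of_mem Prod.fst hv))
  have h4 := Int.self_le_toNat (b + 1 - p)
  omega

theorem below (hm : E.Mt γ Set.univ) {p y : ℤ} (h : E.sg γ p y ≠ 0) : ∃ v : Pt, γ v ≠ 0 ∧ v.1 = p ∧ v.2 < y := by
  by_contra hc
  push Not at hc
  apply h
  have h1 : ∀ n : ℕ, E.sg γ p (y - n) = E.sg γ p y := by
    intro n
    induction n with
    | zero => simp
    | succ n ih =>
      rw [← ih]
      have h2 : γ (p, y - (n + 1 : ℕ)) = 0 := by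
        by_contra h3
        have := hc _ h3 rfl
        simp only at this
        push_cast at this
        omega
      rw [sg_up h2]
      congr 1
      push_cast
      ring
  obtain ⟨b, hb⟩ := (γ.support.image fun v => -v.2).bddAbove
  rw [← h1 (b + 1 + y).toNat, sg_row hm]
  refine Finset.sum_eq_zero fun v hv => if_neg fun h2 => ?_
  have h3 : -v.2 ≤ b := hb (Finset.mem_coe.2 (Finset.mem_image_of_mem (fun v : Pt => -v.2) hv))
  have h4 := Int.self_le_toNat (b + 1 + y)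
  omega

end geo

lemma z2ne {a : ZMod 2} : a ≠ 0 ↔ a = 1 := by
  revert a
  decide

/-- different sides: the loop visits the box -/
theorem vis_of {γ : Lps} {x x' : Pt} {r : ℤ} (h1 : |x'.1 - x.1| ≤ r) (h2 : |x'.2 - x.2| ≤ r)
    (h : E.sg γ.1 x'.1 x'.2 ≠ E.sg γ.1 x.1 x.2) : γ ∈ Vis x r := by
  by_contra hc
  apply h
  refine sg_box γ.2.mt (fun v h3 h4 => ?_) h1 h2
  by_contra h5
  exact hc ⟨v, h5, h3, h4⟩

/-- two surrounded points: extent -/
theorem ext_of {γ : Lps} {x x' : Pt} {n : ℤ} (h : E.sg γ.1 x.1 x.2 = 1) (h' : E.sg γ.1 x'.1 x'.2 = 1)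
    (hn : n ≤ |x'.1 - x.1| ∨ n ≤ |x'.2 - x.2|) : γ ∈ Ext n := by
  have hm := γ.2.mt
  have k := z2ne.2 h
  have k' := z2ne.2 h'
  rcases hn with hn | hn
  · rcases le_abs.1 hn with h1 | h1
    · obtain ⟨v, a1, a2, a3⟩ := left hm k
      obtain ⟨w, b1, b2, b3⟩ := right hm k'
      exact ⟨v, w, a1, b1, Or.inl (by omega)⟩
    · obtain ⟨v, a1, a2, a3⟩ := left hm k'
      obtain ⟨w, b1, b2, b3⟩ := right hm k
      exact ⟨v, w, a1, b1, Or.inl (by omega)⟩
  · rcases le_abs.1 hn with h1 | h1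
    · obtain ⟨v, a1, a2, a3⟩ := below hm k
      obtain ⟨w, b1, b2, b3⟩ := above k'
      exact ⟨v, w, a1, b1, Or.inr (by omega)⟩
    · obtain ⟨v, a1, a2, a3⟩ := below hm k'
      obtain ⟨w, b1, b2, b3⟩ := above k
      exact ⟨v, w, a1, b1, Or.inr (by omega)⟩

/-! ### the mass of a pattern -/

/-- the loops with the sides `τ` at the corners `x` -/
def Pat {m : ℕ} (τ : Fin m → ZMod 2) (x : Fin m → Pt) : Set Lps := {γ | ∀ i, E.sg γ.1 (x i).1 (x i).2 = τ i}

/-- the mass of the pattern -/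
def Pu (u : ℤ → ℝ) {m : ℕ} (τ : Fin m → ZMod 2) (x : Fin m → Pt) : ℝ := (muU u (Pat τ x)).toReal

theorem muU_apply (u : ℤ → ℝ) (A : Set Lps) : muU u A = ∑' γ : Lps, A.indicator (fun γ => ENNReal.ofReal (MU u γ.1)) γ := by
  unfold muU
  rw [Measure.sum_apply _ (MeasurableSpace.measurableSet_top)]
  refine tsum_congr fun γ => ?_
  rw [Measure.smul_apply, Measure.dirac_apply' _ (MeasurableSpace.measurableSet_top), smul_eq_mul]
  by_cases h : γ ∈ A
  · rw [Set.indicator_of_mem h, Set.indicator_of_mem h, Pi.one_apply, mul_one]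
  · rw [Set.indicator_of_notMem h, Set.indicator_of_notMem h, mul_zero]

open Classical in
/-- **`Pn` is the mass of the pattern** -/
theorem Pn_eq {b : ℝ} (h1 : Real.pi / 8 ≤ b) (h2 : b ≤ Real.pi / 4) {m : ℕ} (τ : Fin m → ZMod 2) (x : Fin m → Pt) :
    Pn b τ x = Pu (fun _ => b) τ x := by
  have hu : E.An (fun _ => b) := fun _ => ⟨h1, h2⟩
  have hne : ∀ γ : Lps, (Pat τ x).indicator (fun γ => ENNReal.ofReal (MU (fun _ => b) γ.1)) γ ≠ ∞ := fun γ => by
    by_cases h : γ ∈ Pat τ x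
    · rw [Set.indicator_of_mem h]
      exact ENNReal.ofReal_ne_top
    · rw [Set.indicator_of_notMem h]
      exact ENNReal.zero_ne_top
  unfold Pu
  rw [muU_apply, ENNReal.tsum_toReal_eq hne]
  unfold Pn
  have e0 : ∑' γ : Lps, ((Pat τ x).indicator (fun γ => ENNReal.ofReal (MU (fun _ => b) γ.1)) γ).toReal =
      ∑' γ : {γ : Cfg // E.Lp γ}, (fun w : Cfg => if ∀ i, E.sg w (x i).1 (x i).2 = τ i then Wl b w else 0) γ := by
    refine tsum_congr fun γ => ?_
    simp only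
    by_cases h : γ ∈ Pat τ x
    · rw [Set.indicator_of_mem h, if_pos (show ∀ i, E.sg γ.1 (x i).1 (x i).2 = τ i from h),
        ENNReal.toReal_ofReal (U.Ln.MU_nonneg hu _)]
      rfl
    · rw [Set.indicator_of_notMem h, if_neg (show ¬ ∀ i, E.sg γ.1 (x i).1 (x i).2 = τ i from h)]
      rfl
  have e1 : ∑' γ : {γ : Cfg // E.Lp γ}, (fun w : Cfg => if ∀ i, E.sg w (x i).1 (x i).2 = τ i then Wl b w else 0) γ =
      ∑' w : Cfg, {γ : Cfg | E.Lp γ}.indicator (fun w : Cfg => if ∀ i, E.sg w (x i).1 (x i).2 = τ i then Wl b w else 0) w :=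
    tsum_subtype {γ : Cfg | E.Lp γ} fun w : Cfg => if ∀ i, E.sg w (x i).1 (x i).2 = τ i then Wl b w else 0
  rw [e0, e1]
  refine tsum_congr fun w => ?_
  by_cases h : E.Lp w
  · rw [Set.indicator_of_mem (show w ∈ {γ : Cfg | E.Lp γ} from h)]
    by_cases h' : ∀ i, E.sg w (x i).1 (x i).2 = τ i
    · rw [if_pos ⟨h, h'⟩, if_pos h']
    · rw [if_neg fun hc => h' hc.2, if_neg h']
  · rw [Set.indicator_of_notMem (show w ∉ {γ : Cfg | E.Lp γ} from h), if_neg fun hc => h hc.1]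

section near

variable {W : Set (ℤ → ℝ)} {u : ℤ → ℝ}

/-- finite mass of the large loops which visit a box -/
theorem fin_vis (hN : NearM W) : ∃ N0 : ℤ, ∀ u ∈ W, ∀ N : ℤ, N0 ≤ N → ∀ (p : Pt) (r : ℤ), muU u (Vis p r ∩ Ext N) ≠ ∞ := by
  obtain ⟨η, hη, N0, h0⟩ := hN 1 one_pos
  refine ⟨max N0 0, fun u hu N hNN p r => ?_⟩
  have hN0 : N0 ≤ N := (le_max_left _ _).trans hNN
  have hN1 : (0 : ℝ) ≤ N := by exact_mod_cast (le_max_right N0 0).trans hNN
  have hsub : Vis p r ∩ Ext N ⊆ ⋃ q ∈ (Finset.Icc (p.1 - r) (p.1 + r) ×ˢ Finset.Icc (p.2 - r) (p.2 + r) : Finset Pt),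
      (Vis q 0 ∩ Ext N) := by
    rintro γ ⟨⟨v, h1, h2, h3⟩, h4⟩
    rw [abs_le] at h2 h3
    refine Set.mem_biUnion (x := v) ?_ ⟨⟨v, h1, by simp, by simp⟩, h4⟩
    rw [Finset.mem_coe, Finset.mem_product, Finset.mem_Icc, Finset.mem_Icc]
    constructor <;> constructor <;> omega
  refine ne_top_of_le_ne_top ?_ ((measure_mono hsub).trans (measure_biUnion_finset_le _ _))
  refine ENNReal.sum_ne_top.2 fun q _ => ne_top_of_le_ne_top ENNReal.ofReal_ne_top (h0 u hu N hN0 q 0 ?_)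
  rw [Int.cast_zero]
  positivity

/-- distance in coordinates -/
lemma nZ_int {x : ℤ × ℤ} {a : ℝ} (h : a ≤ ‖x‖) : a ≤ |(x.1 : ℝ)| ∨ a ≤ |(x.2 : ℝ)| := by
  rw [nZ] at h
  exact le_max_iff.1 h

lemma ext_mono {a b : ℤ} (h : a ≤ b) : Ext b ⊆ Ext a := by
  rintro γ ⟨v, w, h1, h2, h3⟩
  exact ⟨v, w, h1, h2, h3.imp (fun h' => h.trans h') fun h' => h.trans h'⟩

/-- two surrounded points at distance `≥ a` -/
lemma ext_pat {m : ℕ} {τ : Fin m → ZMod 2} {x : Fin m → Pt} {γ : Lps} (h : γ ∈ Pat τ x) {i j : Fin m} (hi : τ i = 1)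
    (hj : τ j = 1) {a : ℝ} (ha : a ≤ ‖x i - x j‖) {n : ℤ} (hn : (n : ℝ) ≤ a) : γ ∈ Ext n := by
  refine ext_of (x := x j) (x' := x i) ((h j).trans hj) ((h i).trans hi) ?_
  rcases nZ_int ha with h1 | h1
  · left
    rw [Prod.fst_sub] at h1
    have : (n : ℝ) ≤ |(((x i).1 - (x j).1 : ℤ) : ℝ)| := hn.trans h1
    exact_mod_cast this
  · right
    rw [Prod.snd_sub] at h1
    have : (n : ℝ) ≤ |(((x i).2 - (x j).2 : ℤ) : ℝ)| := hn.trans h1
    exact_mod_cast this

/-- different sides of two close points -/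
lemma vis_pat {γ : Lps} {x x' : Pt} (h : E.sg γ.1 x'.1 x'.2 ≠ E.sg γ.1 x.1 x.2) {a : ℝ} (ha : ‖x' - x‖ ≤ a) {r : ℤ}
    (hr : a ≤ r) : γ ∈ Vis x r := by
  rw [nZ] at ha
  have h1 := ((le_max_left _ _).trans ha).trans hr
  have h2 := ((le_max_right _ _).trans ha).trans hr
  refine vis_of ?_ ?_ h
  · have : |((x'.1 - x.1 : ℤ) : ℝ)| ≤ (r : ℝ) := h1
    exact_mod_cast this
  · have : |((x'.2 - x.2 : ℤ) : ℝ)| ≤ (r : ℝ) := h2
    exact_mod_cast this

/-- finite mass of a pattern -/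
theorem fin_pat (hN : NearM W) : ∃ N0 : ℤ, ∀ u ∈ W, ∀ (m : ℕ) (τ : Fin m → ZMod 2) (i j k : Fin m), τ i = 1 → τ j = 1 →
    τ k = 0 → ∀ x : Fin m → Pt, (N0 : ℝ) ≤ ‖x i - x j‖ → muU u (Pat τ x) ≠ ∞ := by
  obtain ⟨N0, h0⟩ := fin_vis hN
  refine ⟨N0, fun u hu m τ i j k hi hj hk x hx => ?_⟩
  obtain ⟨r, hr⟩ : ∃ r : ℤ, ‖x i - x k‖ ≤ r := ⟨⌈‖x i - x k‖⌉, Int.le_ceil _⟩
  refine ne_top_of_le_ne_top (h0 u hu N0 le_rfl (x k) r) (measure_mono fun γ hγ => ⟨?_, ext_pat hγ hi hj hx le_rfl⟩)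
  refine vis_pat (x' := x i) ?_ le_rfl hr
  rw [hγ i, hγ k, hi, hk]
  decide

/-- **continuity** -/
theorem equi_of (hN : NearM W) (hu : u ∈ W) {m : ℕ} {τ : Fin m → ZMod 2} {i0 j0 k0 : Fin m} (hij : i0 ≠ j0) (hi : τ i0 = 1)
    (hj : τ j0 = 1) (hk : τ k0 = 0) : Equi (Pu u τ) := by
  intro R d ε hR hd hε
  obtain ⟨Nf, hf⟩ := fin_pat hN
  have hm0 : 0 < m := Fin.pos i0
  have hm : (0 : ℝ) < m := by exact_mod_cast hm0
  obtain ⟨η, hη, N1, hN1⟩ := hN (ε / (2 * m)) (by positivity)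
  -- the scale of the extent is `d N / 2`
  obtain ⟨δ, hδ⟩ : ∃ δ : ℝ, δ = min (d / 8) (η * d / 8) := ⟨_, rfl⟩
  have δ0 : 0 < δ := by rw [hδ]; positivity
  have δd : δ ≤ d / 8 := by rw [hδ]; exact min_le_left _ _
  have δη : δ ≤ η * d / 8 := by rw [hδ]; exact min_le_right _ _
  obtain ⟨N0, hN0⟩ := exists_nat_ge (max (max (4 * (|(N1 : ℝ)| + 1) / d) (4 * |(Nf : ℝ)| / d)) (max (8 / (η * d)) (8 / d)))
  refine ⟨δ, δ0, max N0 1, fun N hNN x x' hx hs hc => ?_⟩
  have hNr : (1 : ℝ) ≤ N := by exact_mod_cast (le_max_right N0 1).trans hNN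
  have hNb : (N0 : ℝ) ≤ N := by exact_mod_cast (le_max_left N0 1).trans hNN
  have c1 : 4 * (|(N1 : ℝ)| + 1) ≤ d * N := by
    have := ((le_max_left _ _).trans (le_max_left _ _)).trans (hN0.trans hNb)
    rw [div_le_iff₀ hd] at this
    linarith
  have c2 : 4 * |(Nf : ℝ)| ≤ d * N := by
    have := ((le_max_right _ _).trans (le_max_left _ _)).trans (hN0.trans hNb)
    rw [div_le_iff₀ hd] at this
    linarith
  have c3 : 8 ≤ η * d * N := by
    have := ((le_max_left _ _).trans (le_max_right _ _)).trans (hN0.trans hNb)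
    rw [div_le_iff₀ (by positivity)] at this
    linarith
  have c4 : 8 ≤ d * N := by
    have := ((le_max_right _ _).trans (le_max_right _ _)).trans (hN0.trans hNb)
    rw [div_le_iff₀ hd] at this
    linarith
  -- the separations
  have s1 := hs i0 j0 hij
  have s2 : d * N / 2 ≤ ‖x' i0 - x' j0‖ := by
    have e : x i0 - x j0 = (x' i0 - x' j0) + ((x i0 - x' i0) - (x j0 - x' j0)) := by abel
    have h1 : ‖x i0 - x j0‖ ≤ ‖x' i0 - x' j0‖ + (‖x i0 - x' i0‖ + ‖x j0 - x' j0‖) := by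
      conv_lhs => rw [e]
      exact (norm_add_le _ _).trans (add_le_add le_rfl (norm_sub_le _ _))
    have h2 := hc i0
    have h3 := hc j0
    have h4 : δ * N ≤ d / 8 * N := mul_le_mul_of_nonneg_right δd (by linarith)
    linarith
  obtain ⟨n, hn⟩ : ∃ n : ℤ, n = ⌊d * N / 2⌋ := ⟨_, rfl⟩
  have n1 : (n : ℝ) ≤ d * N / 2 := by rw [hn]; exact Int.floor_le _
  have n2 : d * N / 2 - 1 < n := by rw [hn]; exact Int.sub_one_lt_floor _
  have n3 : N1 ≤ n := by
    have h1 := le_abs_self (N1 : ℝ)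
    have h2 : (N1 : ℝ) ≤ n := by linarith
    exact_mod_cast h2
  obtain ⟨r, hr⟩ : ∃ r : ℤ, r = ⌈δ * N⌉ := ⟨_, rfl⟩
  have r1 : δ * N ≤ r := by rw [hr]; exact Int.le_ceil _
  have r2 : (r : ℝ) < δ * N + 1 := by rw [hr]; exact Int.ceil_lt_add_one _
  have r3 : (r : ℝ) ≤ η * n := by
    have h1 : δ * N ≤ η * d / 8 * N := mul_le_mul_of_nonneg_right δη (by linarith)
    have h2 : η * (d * N / 2 - 1) ≤ η * n := mul_le_mul_of_nonneg_left n2.le hη.le
    have h3 : η * (d * N / 2 - 1) = η * d * N / 2 - η := by ring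
    have h4 : 8 * η ≤ η * d * N := by
      have := mul_le_mul_of_nonneg_left c4 hη.le
      linarith
    linarith
  -- the difference
  have key : ∀ y y' : Fin m → Pt, (∀ i, ‖y i - y' i‖ ≤ δ * N) → d * N / 2 ≤ ‖y i0 - y j0‖ →
      muU u (Pat τ y \ Pat τ y') ≤ ENNReal.ofReal (ε / 2) := by
    intro y y' hy hys
    have hsub : Pat τ y \ Pat τ y' ⊆ ⋃ i : Fin m, (Vis (y' i) r ∩ Ext n) := by
      rintro γ ⟨h1, h2⟩
      have h3 : ∃ i, E.sg γ.1 (y' i).1 (y' i).2 ≠ τ i := by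
        by_contra h4
        push Not at h4
        exact h2 h4
      obtain ⟨i, hi'⟩ := h3
      refine Set.mem_iUnion.2 ⟨i, ?_, ext_pat h1 hi hj hys n1⟩
      exact vis_pat (x' := y i) (fun h4 => hi' (by rw [← h4]; exact h1 i)) (hy i) r1
    calc muU u (Pat τ y \ Pat τ y') ≤ ∑' i : Fin m, muU u (Vis (y' i) r ∩ Ext n) :=
          (measure_mono hsub).trans (measure_iUnion_le _)
      _ ≤ ∑' _ : Fin m, ENNReal.ofReal (ε / (2 * m)) := ENNReal.tsum_le_tsum fun i => hN1 u hu n n3 (y' i) r r3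
      _ = ENNReal.ofReal (ε / 2) := by
          rw [tsum_fintype, Finset.sum_const, Finset.card_univ, Fintype.card_fin, nsmul_eq_mul,
            ← ENNReal.ofReal_natCast, ← ENNReal.ofReal_mul (by positivity)]
          congr 1
          field_simp
  have f1 : muU u (Pat τ x) ≠ ∞ := hf u hu m τ i0 j0 k0 hi hj hk x (by
    have := le_abs_self (Nf : ℝ)
    linarith)
  have f2 : muU u (Pat τ x') ≠ ∞ := hf u hu m τ i0 j0 k0 hi hj hk x' (by
    have := le_abs_self (Nf : ℝ)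
    linarith)
  have half : ∀ y y' : Fin m → Pt, (∀ i, ‖y i - y' i‖ ≤ δ * N) → d * N / 2 ≤ ‖y i0 - y j0‖ → muU u (Pat τ y) ≠ ∞ →
      muU u (Pat τ y') ≠ ∞ → Pu u τ y ≤ Pu u τ y' + ε / 2 := by
    intro y y' hy hys g1 g2
    have h1 : muU u (Pat τ y) ≤ muU u (Pat τ y') + ENNReal.ofReal (ε / 2) :=
      calc muU u (Pat τ y) ≤ muU u (Pat τ y' ∪ (Pat τ y \ Pat τ y')) := measure_mono (by
            rw [Set.union_sdiff_self]
            exact Set.subset_union_right)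
        _ ≤ muU u (Pat τ y') + muU u (Pat τ y \ Pat τ y') := measure_union_le _ _
        _ ≤ _ := add_le_add le_rfl (key y y' hy hys)
    unfold Pu
    have h2 := ENNReal.toReal_mono (ENNReal.add_ne_top.2 ⟨g2, ENNReal.ofReal_ne_top⟩) h1
    rw [ENNReal.toReal_add g2 ENNReal.ofReal_ne_top, ENNReal.toReal_ofReal (by linarith)] at h2
    exact h2
  have g1 := half x x' hc (by linarith) f1 f2
  have g2 := half x' x (fun i => by rw [norm_sub_rev]; exact hc i) s2 f2 f1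
  rw [abs_le]
  constructor <;> linarith

/-- **a small mass for close points** -/
theorem close_of (hN : NearM W) (hu : u ∈ W) : Close3 (Pu u (![1, 1, 0] : Fin 3 → ZMod 2)) := by
  intro ε hε
  obtain ⟨η, hη, N1, hN1⟩ := hN ε hε
  refine ⟨η / 2, by positivity, |(N1 : ℝ)| + 1 + 4 / η + 2, fun x hx hc => ?_⟩
  have hp : 0 < 4 / η := by positivity
  have ha := abs_nonneg (N1 : ℝ)
  obtain ⟨n, hn⟩ : ∃ n : ℤ, n = ⌊‖x 1 - x 0‖⌋ := ⟨_, rfl⟩
  have n1 : (n : ℝ) ≤ ‖x 1 - x 0‖ := by rw [hn]; exact Int.floor_le _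
  have n2 : ‖x 1 - x 0‖ - 1 < n := by rw [hn]; exact Int.sub_one_lt_floor _
  have n3 : N1 ≤ n := by
    have h1 := le_abs_self (N1 : ℝ)
    have h2 : (N1 : ℝ) ≤ n := by linarith
    exact_mod_cast h2
  obtain ⟨r, hr⟩ : ∃ r : ℤ, r = ⌈‖x 2 - x 0‖⌉ := ⟨_, rfl⟩
  have r1 : ‖x 2 - x 0‖ ≤ r := by rw [hr]; exact Int.le_ceil _
  have r2 : (r : ℝ) < ‖x 2 - x 0‖ + 1 := by rw [hr]; exact Int.ceil_lt_add_one _
  have r3 : (r : ℝ) ≤ η * n := by
    have h2 : η * (‖x 1 - x 0‖ - 1) ≤ η * n := mul_le_mul_of_nonneg_left n2.le hη.le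
    have h3 : 4 / η + 2 ≤ ‖x 1 - x 0‖ := by linarith
    have h4 : η * (4 / η + 2) ≤ η * ‖x 1 - x 0‖ := mul_le_mul_of_nonneg_left h3 hη.le
    have h5 : η * (4 / η + 2) = 4 + 2 * η := by field_simp
    nlinarith
  have hsub : Pat (![1, 1, 0] : Fin 3 → ZMod 2) x ⊆ Vis (x 0) r ∩ Ext n := by
    intro γ hγ
    refine ⟨vis_pat (x' := x 2) ?_ le_rfl r1, ext_pat hγ (i := 1) (j := 0) rfl rfl le_rfl n1⟩
    have h1 : E.sg γ.1 (x 2).1 (x 2).2 = 0 := hγ 2
    have h2 : E.sg γ.1 (x 0).1 (x 0).2 = 1 := hγ 0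
    rw [h1, h2]
    decide
  have h1 := (measure_mono hsub).trans (hN1 u hu n n3 (x 0) r r3)
  unfold Pu
  exact ENNReal.toReal_le_of_le_ofReal hε.le h1

/-- the measure of a class of honeycomb loops -/
theorem mu_hex (A : Set Cfg) : (∑' γ : {γ : Cfg // HL γ}, A.indicator wl γ.1) = muU hc {γ : Lps | γ.1 ∈ A} := by
  classical
  rw [muU_apply]
  have e1 : (∑' γ : {γ : Cfg // HL γ}, A.indicator wl γ.1) = ∑' w : Cfg, {γ : Cfg | HL γ}.indicator (A.indicator wl) w :=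
    tsum_subtype {γ : Cfg | HL γ} (A.indicator wl)
  have e2 : (∑' γ : Lps, {γ : Lps | γ.1 ∈ A}.indicator (fun γ => ENNReal.ofReal (MU hc γ.1)) γ) =
      ∑' w : Cfg, {γ : Cfg | E.Lp γ}.indicator (A.indicator fun w => ENNReal.ofReal (MU hc w)) w := by
    rw [← tsum_subtype {γ : Cfg | E.Lp γ} (A.indicator fun w => ENNReal.ofReal (MU hc w))]
    rfl
  rw [e1, e2]
  refine tsum_congr fun w => ?_
  have hw : MU hc w = Wl (Real.pi / 8) w := rfl
  by_cases h1 : E.Lp w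
  · rw [Set.indicator_of_mem (show w ∈ {γ : Cfg | E.Lp γ} from h1)]
    by_cases h2 : Ny w
    · rw [Set.indicator_of_mem (show w ∈ {γ : Cfg | HL γ} from ⟨h1, h2⟩)]
      by_cases h3 : w ∈ A
      · rw [Set.indicator_of_mem h3, Set.indicator_of_mem h3, hw, Wl_ny h2]
        rfl
      · rw [Set.indicator_of_notMem h3, Set.indicator_of_notMem h3]
    · rw [Set.indicator_of_notMem (show w ∉ {γ : Cfg | HL γ} from fun h => h2 h.2)]
      by_cases h3 : w ∈ A
      · rw [Set.indicator_of_mem h3, hw, Wl_not h2, ENNReal.ofReal_zero]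
      · rw [Set.indicator_of_notMem h3]
  · rw [Set.indicator_of_notMem (show w ∉ {γ : Cfg | HL γ} from fun h => h1 h.1),
      Set.indicator_of_notMem (show w ∉ {γ : Cfg | E.Lp γ} from h1)]

/-- a loop around the corner `(1, 0)` with a far cell -/
lemma ext_sur {γ : Lps} {T M : ℕ} (h : γ.1 ∈ Sur T M) {n : ℤ} (hn : 2 * n + 1 ≤ T) : γ ∈ Ext n := by
  obtain ⟨h1, -, v, h2, h3⟩ := h
  have hm := γ.2.mt
  have k := z2ne.2 h1
  have h4 : n ≤ |v.1| ∨ n ≤ |v.2| := by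
    rcases h3 with h3 | h3
    · right
      omega
    · have := abs_add_le v.1 v.2
      by_contra hc
      rw [not_or, not_le, not_le] at hc
      omega
  rcases h4 with h4 | h4
  · rcases le_abs.1 h4 with h5 | h5
    · obtain ⟨w, a1, a2, a3⟩ := left hm k
      exact ⟨w, v, a1, h2, Or.inl (by omega)⟩
    · obtain ⟨w, a1, a2, a3⟩ := right hm k
      exact ⟨v, w, h2, a1, Or.inl (by omega)⟩
  · rcases le_abs.1 h4 with h5 | h5
    · obtain ⟨w, a1, a2, a3⟩ := below hm k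
      exact ⟨w, v, a1, h2, Or.inr (by omega)⟩
    · obtain ⟨w, a1, a2, a3⟩ := above k
      exact ⟨v, w, h2, a1, Or.inr (by omega)⟩

/-- **positivity** -/
theorem pos_of (hL : ∃ C : ℝ, ∀ T M : ℕ, 1 ≤ T → T ≤ M →
      |HexObs.LP.LL (HexObs.LP.PP T M) HexObs.LP.f0 - 1 / (3 * Real.pi) * Real.log T| ≤ C)
    (hN : NearM W) (hu : hc ∈ W) : Pos3 (Pn (Real.pi / 8) (![1, 1, 0] : Fin 3 → ZMod 2)) := by
  classical
  obtain ⟨L, hL1, hsur⟩ := surr hL
  obtain ⟨η, hη, N1, hN1⟩ := hN (1 / 4) (by norm_num)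
  obtain ⟨Nf, hf⟩ := fin_pat hN
  obtain ⟨η', hη', hη1⟩ : ∃ η' : ℝ, 0 < η' ∧ η' ≤ η ∧ η' ≤ 1 := ⟨min η 1, by positivity, min_le_left _ _, min_le_right _ _⟩
  obtain ⟨a, ha⟩ : ∃ a : ℝ, a = 32 * L + 16 := ⟨_, rfl⟩
  have a0 : 16 ≤ a := by
    have : (0 : ℝ) ≤ L := Nat.cast_nonneg _
    linarith
  obtain ⟨N0, hN0⟩ := exists_nat_ge (max (|(N1 : ℝ)|) (max (16 / η') (16 * (|(Nf : ℝ)| + 2) / η')))
  refine ⟨1 / 4, by norm_num, η' / 8, by positivity, a + 1, max N0 1, fun N hNN w hw => ?_⟩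
  have hN1' : 1 ≤ N := (le_max_right N0 1).trans hNN
  have hNr : (1 : ℝ) ≤ N := by exact_mod_cast hN1'
  have hNb : (N0 : ℝ) ≤ N := by exact_mod_cast (le_max_left N0 1).trans hNN
  have b1 : |(N1 : ℝ)| ≤ N := (le_max_left _ _).trans (hN0.trans hNb)
  have b2 : 16 ≤ η' * N := by
    have := ((le_max_left _ _).trans (le_max_right _ _)).trans (hN0.trans hNb)
    rw [div_le_iff₀ hη'] at this
    linarith
  have b3 : 16 * (|(Nf : ℝ)| + 2) ≤ η' * N := by
    have := ((le_max_right _ _).trans (le_max_right _ _)).trans (hN0.trans hNb)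
    rw [div_le_iff₀ hη'] at this
    linarith
  -- the three points
  obtain ⟨z, hz⟩ : ∃ z : Fin 3 → ℂ, z = ![0, ((η' / 8 : ℝ) : ℂ) * (w * Complex.I), (a : ℂ) * w] := ⟨_, rfl⟩
  have z0 : z 0 = 0 := by rw [hz]; rfl
  have z1 : z 1 = ((η' / 8 : ℝ) : ℂ) * (w * Complex.I) := by rw [hz]; rfl
  have z2 : z 2 = (a : ℂ) * w := by rw [hz]; rfl
  have n1 : ‖z 1‖ = η' / 8 := by
    rw [z1, norm_mul, norm_mul, hw, Complex.norm_I, Complex.norm_real, Real.norm_of_nonneg (by positivity)]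
    ring
  have n2 : ‖z 2‖ = a := by
    rw [z2, norm_mul, hw, Complex.norm_real, Real.norm_of_nonneg (by linarith), mul_one]
  have hww : conj w * w = 1 := by
    rw [mul_comm, Complex.mul_conj, Complex.normSq_eq_norm_sq, hw]
    norm_num
  refine ⟨z, ?_, ?_, ⟨a, by rw [z2, z0, sub_zero], ?_⟩, ?_⟩
  · intro i
    fin_cases i
    · show ‖z 0‖ ≤ _
      rw [z0, norm_zero]
      linarith
    · show ‖z 1‖ ≤ _
      rw [n1]
      linarith [hη1.2]
    · show ‖z 2‖ ≤ _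
      rw [n2]
      linarith
  · rw [z1, z0, sub_zero, show conj w * (((η' / 8 : ℝ) : ℂ) * (w * Complex.I)) = ((η' / 8 : ℝ) : ℂ) * ((conj w * w) * Complex.I) by
      ring, hww, one_mul, Complex.im_ofReal_mul, Complex.I_im, mul_one]
    exact le_abs_self _
  · rw [abs_of_nonneg (by linarith)]
    linarith [hη1.2]
  · -- the mass
    have h1 := hsur (2 * N + 1) (by omega)
    have e1 : (∑' γ : {γ : Cfg // HL γ}, (if γ.1 ∈ Sur (2 * N + 1) (L * (2 * N + 1)) then wl γ.1 else 0)) =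
        muU hc {γ : Lps | γ.1 ∈ Sur (2 * N + 1) (L * (2 * N + 1))} := by
      rw [← mu_hex]
      refine tsum_congr fun γ => ?_
      by_cases h : γ.1 ∈ Sur (2 * N + 1) (L * (2 * N + 1))
      · rw [if_pos h, Set.indicator_of_mem h]
      · rw [if_neg h, Set.indicator_of_notMem h]
    rw [e1] at h1
    obtain ⟨A, hA⟩ : ∃ A : Set Lps, A = {γ : Lps | γ.1 ∈ Sur (2 * N + 1) (L * (2 * N + 1))} := ⟨_, rfl⟩
    rw [← hA] at h1
    obtain ⟨r, hr⟩ : ∃ r : ℤ, r = ⌊η' * N⌋ := ⟨_, rfl⟩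
    have r1 : (r : ℝ) ≤ η * N := by
      rw [hr]
      exact (Int.floor_le _).trans (mul_le_mul_of_nonneg_right hη1.1 (by linarith))
    have r2 : η' * N - 1 < r := by rw [hr]; exact Int.sub_one_lt_floor _
    have h2 := hN1 hc hu N (by
      have h3 := le_abs_self (N1 : ℝ)
      have h4 : (N1 : ℝ) ≤ (N : ℤ) := by
        push_cast
        linarith
      exact_mod_cast h4) (1, 0) r (by push_cast; exact r1)
    have h3 : ENNReal.ofReal (1 / 4) ≤ muU hc (A \ (Vis (1, 0) r ∩ Ext N)) := by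
      by_contra hc'
      have h4 := not_le.1 hc'
      have h5 : muU hc A ≤ muU hc (Vis (1, 0) r ∩ Ext N) + muU hc (A \ (Vis (1, 0) r ∩ Ext N)) :=
        (measure_mono (by
          rw [Set.union_sdiff_self]
          exact Set.subset_union_right)).trans (measure_union_le _ _)
      have h6 : muU hc A < ENNReal.ofReal (1 / 4) + ENNReal.ofReal (1 / 4) :=
        lt_of_le_of_lt h5 (ENNReal.add_lt_add_of_le_of_lt (ne_top_of_le_ne_top ENNReal.ofReal_ne_top h2) h2 h4)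
      rw [← ENNReal.ofReal_add (by norm_num) (by norm_num)] at h6
      have h7 : (2⁻¹ : ℝ≥0∞) = ENNReal.ofReal (1 / 4 + 1 / 4) := by
        rw [show (1 / 4 + 1 / 4 : ℝ) = 2⁻¹ by norm_num, ENNReal.ofReal_inv_of_pos (by norm_num)]
        norm_num
      rw [← h7] at h6
      exact absurd (h1.trans_lt h6) (lt_irrefl _)
    -- the pattern
    obtain ⟨x, hx⟩ : ∃ x : Fin 3 → Pt, x = fun i => pz N (z i) + (1, 0) := ⟨_, rfl⟩
    have hP : Pn (Real.pi / 8) (![1, 1, 0] : Fin 3 → ZMod 2) (fun i => pz N (z i)) = Pu hc (![1, 1, 0] : Fin 3 → ZMod 2) x := by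
      rw [← Pn_tr (Real.pi / 8) (1, 0), ← hx]
      exact Pn_eq le_rfl (by linarith [Real.pi_pos]) _ _
    rw [hP]
    have p0 : x 0 = (1, 0) := by
      rw [hx]
      simp only
      rw [z0]
      unfold pz cc rr
      simp
    have p1 : ‖x 1 - x 0‖ ≤ r := by
      have e : x 1 - x 0 = pz N (z 1) := by
        rw [p0, hx]
        simp
      rw [e]
      have k1 := pz_norm N (z 1)
      have k2 := cn_le_norm (z 1)
      rw [n1] at k2
      have k3 : (N : ℝ) * cn (z 1) ≤ N * (2 * (η' / 8)) := mul_le_mul_of_nonneg_left k2 (by linarith)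
      linarith
    have p2 : (Nf : ℝ) ≤ ‖x 1 - x 0‖ := by
      have e : x 1 - x 0 = pz N (z 1) - pz N (z 0) := by
        rw [hx]
        simp
      rw [e]
      have k1 := (abs_le.1 (pz_sub N (z 1) (z 0))).1
      rw [z0, sub_zero] at k1
      have k2 := norm_le_cn (z 1)
      rw [n1] at k2
      have k3 : (N : ℝ) * (η' / 16) ≤ N * cn (z 1) := mul_le_mul_of_nonneg_left (by linarith) (by linarith)
      rw [z0]
      have := le_abs_self (Nf : ℝ)
      linarith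
    have p3 : 4 * (L : ℝ) * (2 * N + 1) + 4 ≤ ‖x 2 - x 0‖ := by
      have e : x 2 - x 0 = pz N (z 2) - pz N (z 0) := by
        rw [hx]
        simp
      rw [e]
      have k1 := (abs_le.1 (pz_sub N (z 2) (z 0))).1
      rw [z0, sub_zero] at k1
      have k2 := norm_le_cn (z 2)
      rw [n2] at k2
      have k3 : (N : ℝ) * (a / 2) ≤ N * cn (z 2) := mul_le_mul_of_nonneg_left (by linarith) (by linarith)
      rw [z0]
      have k4 : (N : ℝ) * (a / 2) = 16 * (L * N) + 8 * N := by rw [ha]; ring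
      have k5 : (L : ℝ) ≤ L * N := le_mul_of_one_le_right (Nat.cast_nonneg _) hNr
      have k7 : 4 * (L : ℝ) * (2 * N + 1) + 4 = 8 * (L * N) + 4 * L + 4 := by ring
      rw [k7]
      have k8 : (0 : ℝ) ≤ L := Nat.cast_nonneg _
      linarith
    have hsub : A \ (Vis (1, 0) r ∩ Ext N) ⊆ Pat (![1, 1, 0] : Fin 3 → ZMod 2) x := by
      rintro γ ⟨h4, h5⟩
      rw [hA] at h4
      have h6 : γ ∉ Vis (1, 0) r := fun h => h5 ⟨h, ext_sur h4 (by push_cast; omega)⟩
      have h7 : E.sg γ.1 (x 0).1 (x 0).2 = 1 := by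
        rw [p0]
        exact h4.1
      intro i
      fin_cases i
      · exact h7
      · show E.sg γ.1 (x 1).1 (x 1).2 = 1
        by_contra h8
        apply h6
        rw [← p0]
        exact vis_pat (x' := x 1) (by rw [h7]; exact h8) p1 le_rfl
      · show E.sg γ.1 (x 2).1 (x 2).2 = 0
        by_contra h8
        obtain ⟨-, hbx, -⟩ := h4
        obtain ⟨v, v1, v2, v3⟩ := above h8
        obtain ⟨v', v1', v2', v3'⟩ := left γ.2.mt h8
        obtain ⟨c1, c2⟩ := hbx v v1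
        obtain ⟨c3, c4⟩ := hbx v' v1'
        rw [v2] at c2
        rw [v2'] at c3
        have q1 : |(x 2).1| ≤ 2 * ((L * (2 * N + 1) : ℕ) : ℤ) := by
          have := abs_add_le ((x 2).1 + v.2) (-v.2)
          rw [add_neg_cancel_right, abs_neg] at this
          linarith
        have q3 : |((x 2 - x 0).1 : ℝ)| ≤ 2 * L * (2 * N + 1) + 1 := by
          rw [p0]
          have q5 : |(((x 2).1 : ℤ) : ℝ)| ≤ 2 * ((L * (2 * N + 1) : ℕ) : ℝ) := by exact_mod_cast q1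
          push_cast at q5
          have q6 : (((x 2 - (1, 0) : Pt).1 : ℤ) : ℝ) = ((x 2).1 : ℝ) - 1 := by
            show (((x 2).1 - 1 : ℤ) : ℝ) = _
            push_cast
            ring
          rw [q6]
          have q7 := abs_sub (((x 2).1 : ℤ) : ℝ) 1
          rw [abs_one] at q7
          linarith
        have q4 : |((x 2 - x 0).2 : ℝ)| ≤ L * (2 * N + 1) := by
          rw [p0]
          have q5 : |(((x 2).2 : ℤ) : ℝ)| ≤ ((L * (2 * N + 1) : ℕ) : ℝ) := by exact_mod_cast c3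
          push_cast at q5
          have q6 : (((x 2 - (1, 0) : Pt).2 : ℤ) : ℝ) = ((x 2).2 : ℝ) := by
            show (((x 2).2 - 0 : ℤ) : ℝ) = _
            push_cast
            ring
          rw [q6]
          exact q5
        have q8 : (0 : ℝ) ≤ L * (2 * N + 1) := by positivity
        rcases nZ_int p3 with q9 | q9
        · linarith
        · linarith
    have h4 := h3.trans (measure_mono hsub)
    unfold Pu
    rw [← ENNReal.ofReal_le_iff_le_toReal (hf hc hu 3 _ 1 0 2 rfl rfl rfl x p2)]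
    exact h4

end near

end

end Pool.Agent.ROT.UId
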