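import Pool.Agent.ROT.UFlowDefs

/-!
# ROT, UNIV, side A: masses of large loops (helper53)

Sums over the large loops with nonnegative weights, near bounds for the honeycomb and the `b` lattice, bounded masses,
far loops.
-/

set_option autoImplicit false

open Finset Filter Topology

namespace Pool.Agent.ROT.U

open Pool.Agent.ROT.A

/-! ### weighted sums -/

section sums

variable {Ω : Type}

open Classical in
/-- the mass of a set -/
noncomputable def ms (g : Ω → ℝ) (E : Set Ω) : ENNReal := ∑' w : Ω, if w ∈ E then ENNReal.ofReal (g w) else 0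

theorem ms_mono {g : Ω → ℝ} {E E' : Set Ω} (h : E ⊆ E') : ms g E ≤ ms g E' := by
  classical
  refine ENNReal.tsum_le_tsum fun w => ?_
  by_cases h1 : w ∈ E
  · rw [if_pos h1, if_pos (h h1)]
  · rw [if_neg h1]; exact zero_le

theorem ms_le_weight {g g' : Ω → ℝ} {E : Set Ω} (h : ∀ w ∈ E, g w ≤ g' w) : ms g E ≤ ms g' E := by
  classical
  refine ENNReal.tsum_le_tsum fun w => ?_
  by_cases h1 : w ∈ E
  · rw [if_pos h1, if_pos h1]; exact ENNReal.ofReal_le_ofReal (h w h1)
  · rw [if_neg h1]; exact zero_le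

theorem ms_union {g : Ω → ℝ} (E E' : Set Ω) : ms g (E ∪ E') ≤ ms g E + ms g E' := by
  classical
  unfold ms
  rw [← ENNReal.tsum_add]
  refine ENNReal.tsum_le_tsum fun w => ?_
  by_cases h1 : w ∈ E
  · rw [if_pos h1, if_pos (Set.mem_union_left _ h1)]; exact le_self_add
  · by_cases h2 : w ∈ E'
    · rw [if_pos h2, if_pos (Set.mem_union_right _ h2)]; exact le_add_self
    · rw [if_neg (show w ∉ E ∪ E' by rintro (h | h); exacts [h1 h, h2 h])]; exact zero_le

theorem ms_biUnion {ι : Type*} {g : Ω → ℝ} (s : Finset ι) (E : ι → Set Ω) :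
    ms g (⋃ i ∈ s, E i) ≤ ∑ i ∈ s, ms g (E i) := by
  classical
  induction s using Finset.induction_on with
  | empty =>
    simp only [Finset.notMem_empty, Set.iUnion_of_empty, Set.iUnion_empty, Finset.sum_empty]
    unfold ms
    simp
  | insert a s ha ih =>
    rw [Finset.set_biUnion_insert, Finset.sum_insert ha]
    exact (ms_union _ _).trans (by gcongr)

/-- summability of a function bounded by a set of finite mass -/
theorem summable_of {g F : Ω → ℝ} {C : ℝ} {E : Set Ω} (hg : ∀ w, 0 ≤ g w) (hE : ms g E ≠ ⊤)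
    (hF : ∀ w, |F w| ≤ C) (h0 : ∀ w, w ∉ E → F w = 0) : Summable fun w => g w * F w := by
  classical
  have h1 : Summable fun w => if w ∈ E then g w else 0 := by
    have h2 : (∑' w : Ω, ENNReal.ofReal (if w ∈ E then g w else 0)) ≠ ⊤ := by
      have e : ∀ w, ENNReal.ofReal (if w ∈ E then g w else 0) = if w ∈ E then ENNReal.ofReal (g w) else 0 := fun w => by
        split_ifs
        · rfl
        · exact ENNReal.ofReal_zero
      simp only [e]
      exact hE
    have h3 := ENNReal.summable_toReal h2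
    refine h3.congr fun w => ENNReal.toReal_ofReal ?_
    split_ifs
    · exact hg w
    · exact le_rfl
  refine Summable.of_norm_bounded (h1.mul_left C) fun w => ?_
  rw [Real.norm_eq_abs, abs_mul, abs_of_nonneg (hg w)]
  by_cases h : w ∈ E
  · rw [if_pos h, mul_comm]
    exact mul_le_mul_of_nonneg_right (hF w) (hg w)
  · rw [h0 w h, if_neg h]
    simp

/-- bound of a sum -/
theorem tsum_le {g F : Ω → ℝ} {C e : ℝ} {E : Set Ω} (hg : ∀ w, 0 ≤ g w) (hC : 0 ≤ C) (he : 0 ≤ e)
    (hE : ms g E ≤ ENNReal.ofReal e) (hF : ∀ w, |F w| ≤ C) (h0 : ∀ w, w ∉ E → F w = 0) :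
    |∑' w, g w * F w| ≤ C * e := by
  classical
  have hfin : ms g E ≠ ⊤ := ne_top_of_le_ne_top ENNReal.ofReal_ne_top hE
  have h1 : Summable fun w => if w ∈ E then g w else 0 := by
    have := summable_of (F := fun w => if w ∈ E then 1 else 0) (C := 1) hg hfin (fun w => by split_ifs <;> simp)
      (fun w h => if_neg h)
    refine this.congr fun w => ?_
    split_ifs <;> simp
  have h2 : (∑' w, if w ∈ E then g w else 0) ≤ e := by
    have h3 : ENNReal.ofReal (∑' w, if w ∈ E then g w else 0) = ms g E := by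
      rw [ENNReal.ofReal_tsum_of_nonneg (fun w => by split_ifs; exacts [hg w, le_rfl]) h1]
      unfold ms
      refine tsum_congr fun w => ?_
      split_ifs
      · rfl
      · exact ENNReal.ofReal_zero
    rw [← h3] at hE
    exact (ENNReal.ofReal_le_ofReal_iff he).1 hE
  have hs : Summable fun w => |g w * F w| := (summable_of hg hfin hF h0).abs
  calc |∑' w, g w * F w| ≤ ∑' w, |g w * F w| := by
        simpa only [Real.norm_eq_abs] using norm_tsum_le_tsum_norm (f := fun w => g w * F w) (by simpa only [Real.norm_eq_abs] using hs)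
    _ ≤ ∑' w, C * (if w ∈ E then g w else 0) := by
        refine hs.tsum_le_tsum (fun w => ?_) (h1.mul_left C)
        rw [abs_mul, abs_of_nonneg (hg w)]
        by_cases h : w ∈ E
        · rw [if_pos h, mul_comm]
          exact mul_le_mul_of_nonneg_right (hF w) (hg w)
        · rw [h0 w h, if_neg h]
          simp
    _ = C * ∑' w, (if w ∈ E then g w else 0) := tsum_mul_left
    _ ≤ C * e := mul_le_mul_of_nonneg_left h2 hC

/-- the difference of two sums -/
theorem tsum_sub_le {g F F' : Ω → ℝ} {C e : ℝ} {E : Set Ω} (hg : ∀ w, 0 ≤ g w) (hC : 0 ≤ C) (he : 0 ≤ e)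
    (hE : ms g E ≤ ENNReal.ofReal e) (hF : ∀ w, |F w - F' w| ≤ C) (h0 : ∀ w, w ∉ E → F w = F' w)
    (hs : Summable fun w => g w * F w) : |∑' w, g w * F w - ∑' w, g w * F' w| ≤ C * e := by
  have hfin : ms g E ≠ ⊤ := ne_top_of_le_ne_top ENNReal.ofReal_ne_top hE
  have h1 : Summable fun w => g w * (F w - F' w) :=
    summable_of hg hfin hF fun w h => sub_eq_zero.2 (h0 w h)
  have h2 : Summable fun w => g w * F' w := by
    have := hs.sub h1
    refine this.congr fun w => by ring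
  rw [← hs.tsum_sub h2]
  have h3 := tsum_le hg hC he hE hF fun w h => sub_eq_zero.2 (h0 w h)
  simpa only [mul_sub] using h3

/-- two weights -/
theorem tsum_sub_weight {g g' F : Ω → ℝ} {C e : ℝ} {E : Set Ω} (hg : ∀ w, 0 ≤ g w) (hg' : ∀ w, 0 ≤ g' w) (hC : 0 ≤ C)
    (he : 0 ≤ e) (hE : ms g E ≤ ENNReal.ofReal e) (hE' : ms g' E ≤ ENNReal.ofReal e) (hF : ∀ w, |F w| ≤ C)
    (h0 : ∀ w, w ∉ E → F w ≠ 0 → g w = g' w) (hs : Summable fun w => g w * F w) :
    |∑' w, g w * F w - ∑' w, g' w * F w| ≤ 2 * C * e := by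
  classical
  set F' : Ω → ℝ := fun w => if w ∈ E then 0 else F w with hF'
  have h1 : |∑' w, g w * F w - ∑' w, g w * F' w| ≤ C * e := by
    refine tsum_sub_le hg hC he hE (fun w => ?_) (fun w h => ?_) hs
    · rw [hF']; dsimp only
      split_ifs
      · rw [sub_zero]; exact hF w
      · rw [sub_self, abs_zero]; exact hC
    · rw [hF']; dsimp only; rw [if_neg h]
  have h2 : ∀ w, g w * F' w = g' w * F' w := fun w => by
    rw [hF']; dsimp only
    by_cases h : w ∈ E
    · rw [if_pos h, mul_zero, mul_zero]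
    · rw [if_neg h]
      by_cases h3 : F w = 0
      · rw [h3, mul_zero, mul_zero]
      · rw [h0 w h h3]
  have hs' : Summable fun w => g w * F' w := by
    have hfin : ms g E ≠ ⊤ := ne_top_of_le_ne_top ENNReal.ofReal_ne_top hE
    have h3 : Summable fun w => g w * (F w - F' w) := summable_of hg hfin (C := C) (fun w => by
      rw [hF']; dsimp only
      split_ifs
      · rw [sub_zero]; exact hF w
      · rw [sub_self, abs_zero]; exact hC) fun w h => by
        rw [hF']; dsimp only; rw [if_neg h, sub_self]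
    exact (hs.sub h3).congr fun w => by ring
  have h4 : |∑' w, g' w * F' w - ∑' w, g' w * F w| ≤ C * e := by
    refine tsum_sub_le hg' hC he hE' (fun w => ?_) (fun w h => ?_) (hs'.congr fun w => h2 w)
    · rw [hF']; dsimp only
      split_ifs
      · rw [zero_sub, abs_neg]; exact hF w
      · rw [sub_self, abs_zero]; exact hC
    · rw [hF']; dsimp only; rw [if_neg h]
  rw [tsum_congr h2] at h1
  have := abs_le.1 h1
  have := abs_le.1 h4
  rw [abs_le]
  constructor <;> linarith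

/-- a weight which is locally a limit of weights -/
theorem ms_le_of_lim {g : Ω → ℝ} {G : ℤ → Ω → ℝ} {E : Set Ω} {C : ENNReal} (h : ∀ k, ms (G k) E ≤ C)
    (hl : ∀ s : Finset Ω, ∃ k, ∀ w ∈ s, g w = G k w) : ms g E ≤ C := by
  classical
  unfold ms
  rw [ENNReal.tsum_eq_iSup_sum]
  refine iSup_le fun s => ?_
  obtain ⟨k, hk⟩ := hl s
  refine le_trans (le_of_eq ?_) ((ENNReal.sum_le_tsum (f := fun w => if w ∈ E then ENNReal.ofReal (G k w) else 0) s).trans (h k))
  refine Finset.sum_congr rfl fun w hw => ?_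
  rw [hk w hw]

end sums

namespace WSys

variable {S : PSys} (X : WSys S)

theorem near_eq (g : X.W → ℝ) (D ρ : ℝ) (x : Z2) : X.near g D ρ x = ms g {w | X.Ext D w ∧ X.Nr ρ x w} := by
  classical
  unfold near ms
  refine tsum_congr fun w => ?_
  by_cases h : X.Ext D w ∧ X.Nr ρ x w
  · rw [if_pos h, if_pos (show w ∈ {w | X.Ext D w ∧ X.Nr ρ x w} from h)]
  · rw [if_neg h, if_neg (show w ∉ {w | X.Ext D w ∧ X.Nr ρ x w} from h)]

theorem Ext.mono {X : WSys S} {D D' : ℝ} {w : X.W} (h : X.Ext D w) (hD : D' ≤ D) : X.Ext D' w := by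
  obtain ⟨s, hs, t, ht, h1⟩ := h
  exact ⟨s, hs, t, ht, h1.imp (hD.trans ·) (hD.trans ·)⟩

theorem Nr.mono {X : WSys S} {ρ ρ' : ℝ} {x : Z2} {w : X.W} (h : X.Nr ρ x w) (hρ : ρ ≤ ρ') : X.Nr ρ' x w := by
  obtain ⟨s, hs, h1, h2⟩ := h
  exact ⟨s, hs, h1.trans hρ, h2.trans hρ⟩

theorem near_mono {g : X.W → ℝ} {D D' ρ ρ' : ℝ} {x : Z2} (hD : D' ≤ D) (hρ : ρ ≤ ρ') :
    X.near g D ρ x ≤ X.near g D' ρ' x := by
  rw [near_eq, near_eq]
  exact ms_mono fun _ h => ⟨h.1.mono hD, h.2.mono hρ⟩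

/-! ### the honeycomb and the `b` lattice are limits -/

theorem wt_lo (w : X.W) : ∃ k0 : ℤ, ∀ k ≤ k0, X.wt k w = X.wh w := by
  obtain ⟨a, ha⟩ := ((X.st_fin w).image (fun s : Z2 => s.1)).bddBelow
  exact ⟨a, fun k hk => X.wt_h k w fun s hs => hk.trans (ha ⟨s, hs, rfl⟩)⟩

theorem wt_hi (w : X.W) : ∃ k0 : ℤ, ∀ k ≥ k0, X.wt k w = X.wb w := by
  obtain ⟨a, ha⟩ := ((X.st_fin w).image (fun s : Z2 => s.1)).bddAbove
  exact ⟨a + 1, fun k hk => X.wt_b k w fun s hs => by
    have : s.1 ≤ a := ha ⟨s, hs, rfl⟩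
    omega⟩

theorem lim_lo (s : Finset X.W) : ∃ k, ∀ w ∈ s, X.wh w = X.wt k w := by
  classical
  choose f hf using X.wt_lo
  by_cases hs : s.Nonempty
  · exact ⟨s.inf' hs f, fun w hw => (hf w _ (Finset.inf'_le _ hw)).symm⟩
  · exact ⟨0, fun w hw => absurd ⟨w, hw⟩ hs⟩

theorem lim_hi (s : Finset X.W) : ∃ k, ∀ w ∈ s, X.wb w = X.wt k w := by
  classical
  choose f hf using X.wt_hi
  by_cases hs : s.Nonempty
  · exact ⟨s.sup' hs f, fun w hw => (hf w _ (Finset.le_sup' _ hw)).symm⟩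
  · exact ⟨0, fun w hw => absurd ⟨w, hw⟩ hs⟩

theorem wh_nn (w : X.W) : 0 ≤ X.wh w := by
  obtain ⟨k, hk⟩ := X.wt_lo w
  rw [← hk k le_rfl]
  exact X.wt_nn k w

theorem wb_nn (w : X.W) : 0 ≤ X.wb w := by
  obtain ⟨k, hk⟩ := X.wt_hi w
  rw [← hk k le_rfl]
  exact X.wt_nn k w

/-- the weights of all lattices -/
inductive IsW : (X.W → ℝ) → Prop
  | t (k : ℤ) : IsW (X.wt k)
  | b : IsW X.wb
  | h : IsW X.wh

theorem IsW.nn {X : WSys S} {g : X.W → ℝ} (h : X.IsW g) (w : X.W) : 0 ≤ g w := by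
  cases h with
  | t k => exact X.wt_nn k w
  | b => exact X.wb_nn w
  | h => exact X.wh_nn w

/-- a bound for all lattices `k` is a bound for all weights -/
theorem IsW.ms_le {X : WSys S} {g : X.W → ℝ} (h : X.IsW g) {E : Set X.W} {C : ENNReal} (hC : ∀ k, ms (X.wt k) E ≤ C) :
    ms g E ≤ C := by
  cases h with
  | t k => exact hC k
  | b => exact ms_le_of_lim hC X.lim_hi
  | h => exact ms_le_of_lim hC X.lim_lo

theorem near_all (hN : X.Near) {d ε : ℝ} (hd : 0 < d) (hε : 0 < ε) : ∃ η : ℝ, 0 < η ∧ ∃ N0 : ℕ, ∀ N : ℕ, N0 ≤ N →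
    ∀ g, X.IsW g → ∀ x : Z2, X.near g (d * N) (η * N) x ≤ ENNReal.ofReal ε := by
  obtain ⟨η, hη, h1⟩ := hN d ε hd hε
  obtain ⟨N0, h2⟩ := eventually_atTop.1 h1
  refine ⟨η, hη, N0, fun N hN g hg x => ?_⟩
  rw [near_eq]
  refine hg.ms_le fun k => ?_
  rw [← near_eq]
  exact h2 N hN k x

/-- **far**: large loops near a point are rare -/
theorem far_all (hN : X.Near) {ε : ℝ} (hε : 0 < ε) (R : ℝ) : ∃ L : ℝ, 0 < L ∧ ∃ N0 : ℕ, ∀ N : ℕ, N0 ≤ N →
    ∀ g, X.IsW g → ∀ x : Z2, X.near g (L * N) (R * N) x ≤ ENNReal.ofReal ε := by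
  obtain ⟨η, hη, N0, h1⟩ := X.near_all hN one_pos hε
  obtain ⟨L, hL⟩ := exists_nat_ge (R / η)
  refine ⟨(max L 1 : ℕ), by positivity, N0, fun N hN g hg x => ?_⟩
  have h2 := h1 ((max L 1) * N) (le_trans hN (Nat.le_mul_of_pos_left _ (by positivity))) g hg x
  refine le_trans (X.near_mono ?_ ?_) h2
  · push_cast
    rw [one_mul]
  · push_cast
    have h3 : R ≤ η * max (L : ℝ) 1 := by
      rw [div_le_iff₀ hη] at hL
      calc R ≤ L * η := hL
        _ ≤ η * max (L : ℝ) 1 := by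
          rw [mul_comm]
          exact mul_le_mul_of_nonneg_left (le_max_left _ _) hη.le
    calc R * N ≤ (η * max (L : ℝ) 1) * N := by gcongr
      _ = η * (max (L : ℝ) 1 * N) := by ring

/-- **bounded masses** -/
theorem mass_all (hN : X.Near) {d : ℝ} (hd : 0 < d) (R : ℝ) : ∃ C : ℝ, 0 ≤ C ∧ ∃ N0 : ℕ, ∀ N : ℕ, N0 ≤ N →
    ∀ g, X.IsW g → ∀ x : Z2, X.near g (d * N) (R * N) x ≤ ENNReal.ofReal C := by
  obtain ⟨η, hη, N0, h1⟩ := X.near_all hN hd one_pos
  obtain ⟨q, hq⟩ := exists_nat_ge (2 * |R| / η + 2)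
  -- a grid of mesh `u = ⌊η N⌋ ≥ η N / 2`
  refine ⟨(2 * q + 1) ^ 2, by positivity, max N0 ⌈2 / η⌉₊, fun N hN g hg x => ?_⟩
  have hN0 : N0 ≤ N := (le_max_left _ _).trans hN
  have hN1 : 2 ≤ η * N := by
    have h2 : (2 / η : ℝ) ≤ N := (Nat.le_ceil _).trans (by exact_mod_cast (le_max_right _ _).trans hN)
    rw [div_le_iff₀ hη] at h2
    linarith
  set u : ℤ := ⌊η * N⌋ with hu
  have hu1 : (u : ℝ) ≤ η * N := Int.floor_le _
  have hu2 : η * N / 2 ≤ u := by
    have := Int.lt_floor_add_one (η * N)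
    rw [← hu] at this
    linarith
  have hu0 : 0 < u := by
    have : (0 : ℝ) < u := by linarith
    exact_mod_cast this
  have hsub : {w | X.Ext (d * N) w ∧ X.Nr (R * N) x w} ⊆
      ⋃ a ∈ Finset.Icc (-(q : ℤ)) q ×ˢ Finset.Icc (-(q : ℤ)) q,
        {w | X.Ext (d * N) w ∧ X.Nr (η * N) (x.1 + a.1 * u, x.2 + a.2 * u) w} := by
    rintro w ⟨he, s, hs, h2, h3⟩
    have key : ∀ p p0 : ℤ, |(p : ℝ) - p0| ≤ R * N → ∃ a ∈ Finset.Icc (-(q : ℤ)) q, |(p : ℝ) - (p0 + a * u : ℤ)| ≤ η * N := by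
      intro p p0 hp
      refine ⟨(p - p0) / u, ?_, ?_⟩
      · have hN' : (0 : ℝ) ≤ N := Nat.cast_nonneg N
        have h4 : |((p : ℝ) - p0)| ≤ (q - 1 : ℝ) * u := by
          have h5 : (2 * |R| / η + 1) * (η * N / 2) ≤ (q - 1 : ℝ) * u := by
            have : (2 * |R| / η + 1) ≤ (q - 1 : ℝ) := by linarith
            gcongr
            exact le_trans (by positivity) this
          have h6 : (2 * |R| / η + 1) * (η * N / 2) = |R| * N + η * N / 2 := by field_simp
          have h7 : R * N ≤ |R| * N := by gcongr; exact le_abs_self R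
          linarith
        rw [abs_le] at h4
        have hu' : (0 : ℝ) < u := by exact_mod_cast hu0
        have h5 : (p - p0) ≤ ((q : ℤ) - 1) * u := by exact_mod_cast h4.2
        have h6 : -((q : ℤ) - 1) * u ≤ (p - p0) := by
          have := h4.1
          have h7 : (-((q : ℝ) - 1) * u) ≤ (p : ℝ) - p0 := by linarith
          exact_mod_cast h7
        rw [Finset.mem_Icc]
        constructor
        · have : (-((q : ℤ) - 1)) ≤ (p - p0) / u := by
            rw [Int.le_ediv_iff_mul_le hu0]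
            exact h6
          omega
        · have : (p - p0) / u ≤ ((q : ℤ) - 1) := by
            have h8 := Int.ediv_le_ediv hu0 h5
            rwa [Int.mul_ediv_cancel _ hu0.ne'] at h8
          omega
      · have h4 := Int.emod_add_mul_ediv (p - p0) u
        have h5 := Int.emod_nonneg (p - p0) hu0.ne'
        have h6 := Int.emod_lt_of_pos (p - p0) hu0
        have h7 : (p : ℝ) - (p0 + (p - p0) / u * u : ℤ) = (((p - p0) % u : ℤ) : ℝ) := by
          have : p - (p0 + (p - p0) / u * u) = (p - p0) % u := by linarith [mul_comm u ((p - p0) / u)]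
          rw [← this]
          push_cast
          ring
        rw [h7, abs_of_nonneg (by exact_mod_cast h5)]
        exact le_trans (by exact_mod_cast h6.le) hu1
    obtain ⟨a1, ha1, h4⟩ := key s.1 x.1 h2
    obtain ⟨a2, ha2, h5⟩ := key s.2 x.2 h3
    exact Set.mem_iUnion₂.2 ⟨(a1, a2), Finset.mem_product.2 ⟨ha1, ha2⟩, he, s, hs, h4, h5⟩
  rw [near_eq]
  refine (ms_mono hsub).trans ((ms_biUnion _ _).trans ?_)
  refine (Finset.sum_le_sum fun a _ => (X.near_eq g _ _ _).symm.le.trans (h1 N hN0 g hg _)).trans ?_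
  rw [Finset.sum_const, Finset.card_product, Int.card_Icc]
  have e1 : ((q : ℤ) + 1 - -(q : ℤ)).toNat = 2 * q + 1 := by omega
  rw [e1, nsmul_eq_mul, ENNReal.ofReal_one, mul_one]
  rw [show ((2 * (q : ℝ) + 1) ^ 2) = (((2 * q + 1) * (2 * q + 1) : ℕ) : ℝ) by push_cast; ring, ENNReal.ofReal_natCast]

end WSys

end Pool.Agent.ROT.U
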