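import Pool.Agent.ROT.UFlowA

/-!
# ROT, UNIV, side A: objects and the replacement of a tracer by its point (helper53)
-/

set_option autoImplicit false

open Finset Filter Topology

namespace Pool.Agent.ROT.U

open Pool.Agent.ROT.A

namespace WSys

variable {S : PSys} (X : WSys S)

/-- a box `[a, b] × [c, e]` -/
structure Bx where
  (a b c e : ℝ)

/-- **the object is located in the box `β`**, mass `≤ μ` -/
def Lo (S : PSys) (n : ℕ) (β : Bx) (μ : ℝ) : Z2 ⊕ (S.P → ℝ) → Prop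
  | .inl x => β.a ≤ x.1 ∧ (x.1 : ℝ) ≤ β.b ∧ β.c ≤ x.2 ∧ (x.2 : ℝ) ≤ β.e ∧ 1 ≤ μ
  | .inr f => (∀ v, 0 ≤ f v) ∧ (∀ v ∈ S.box n, f v ≠ 0 → β.a ≤ S.ht v 0 ∧ (S.ht v 1 : ℝ) ≤ β.b ∧
      β.c ≤ S.ht v 2 ∧ (S.ht v 3 : ℝ) ≤ β.e) ∧ ∑ v ∈ S.box n, S.M v * f v ≤ μ

variable {X}

open Classical in
theorem fac_l (n : ℕ) (w : X.W) (b : Bool) (x : Z2) :
    X.fac n w b (.inl x) = if X.ip x w ↔ b = true then 1 else 0 := rfl

open Classical in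
theorem fac_r (n : ℕ) (w : X.W) (b : Bool) (f : S.P → ℝ) :
    X.fac n w b (.inr f) = ∑ v ∈ S.box n, if X.Dj w v ∧ (X.In v w ↔ b = true) then S.M v * f v else 0 := rfl

theorem fac_nn {n : ℕ} {β : Bx} {μ : ℝ} {o : Z2 ⊕ (S.P → ℝ)} (h : Lo S n β μ o) (w : X.W) (b : Bool) :
    0 ≤ X.fac n w b o := by
  classical
  cases o with
  | inl x => rw [fac_l]; split_ifs <;> norm_num
  | inr f =>
    rw [fac_r]
    refine Finset.sum_nonneg fun v _ => ?_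
    split_ifs
    · exact mul_nonneg (S.M_nn v) (h.1 v)
    · exact le_rfl

theorem Lo.nn {n : ℕ} {β : Bx} {μ : ℝ} {o : Z2 ⊕ (S.P → ℝ)} (h : Lo S n β μ o) : 0 ≤ μ := by
  cases o with
  | inl x => linarith [h.2.2.2.2]
  | inr f => exact le_trans (Finset.sum_nonneg fun v _ => mul_nonneg (S.M_nn v) (h.1 v)) h.2.2

theorem fac_le {n : ℕ} {β : Bx} {μ : ℝ} {o : Z2 ⊕ (S.P → ℝ)} (h : Lo S n β μ o) (w : X.W) (b : Bool) :
    X.fac n w b o ≤ μ := by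
  classical
  cases o with
  | inl x =>
    rw [fac_l]
    split_ifs
    · exact h.2.2.2.2
    · exact h.nn
  | inr f =>
    rw [fac_r]
    refine le_trans (Finset.sum_le_sum fun v _ => ?_) h.2.2
    split_ifs
    · exact le_rfl
    · exact mul_nonneg (S.M_nn v) (h.1 v)

/-- the witness of a tracer factor -/
theorem fac_inr {n : ℕ} {f : S.P → ℝ} {w : X.W} {b : Bool} (h : X.fac n w b (.inr f) ≠ 0) :
    ∃ v ∈ S.box n, f v ≠ 0 ∧ X.Dj w v ∧ (X.In v w ↔ b = true) := by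
  classical
  rw [fac_r] at h
  obtain ⟨v, hv, h1⟩ := Finset.exists_ne_zero_of_sum_ne_zero h
  by_cases h2 : X.Dj w v ∧ (X.In v w ↔ b = true)
  · rw [if_pos h2] at h1
    exact ⟨v, hv, right_ne_zero_of_mul h1, h2⟩
  · rw [if_neg h2] at h1
    exact absurd rfl h1

theorem fac_inl {n : ℕ} {x : Z2} {w : X.W} {b : Bool} (h : X.fac n w b (.inl x) ≠ 0) : X.ip x w ↔ b = true := by
  classical
  rw [fac_l] at h
  by_contra hc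
  rw [if_neg hc] at h
  exact h rfl

/-- an object inside: the box of `w` meets the box of the object from both sides -/
theorem fac_true {n : ℕ} {β : Bx} {μ : ℝ} {o : Z2 ⊕ (S.P → ℝ)} (hl : Lo S n β μ o) {w : X.W}
    (h : X.fac n w true o ≠ 0) : (∃ s ∈ X.st w, (s.1 : ℝ) ≤ β.b) ∧ (∃ s ∈ X.st w, β.a ≤ s.1) ∧
      (∃ s ∈ X.st w, (s.2 : ℝ) ≤ β.e) ∧ ∃ s ∈ X.st w, β.c ≤ s.2 := by
  cases o with
  | inl x =>
    obtain ⟨h1, h2, h3, h4, -⟩ := hl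
    obtain ⟨⟨s1, m1, e1⟩, ⟨s2, m2, e2⟩, ⟨s3, m3, e3⟩, s4, m4, e4⟩ := X.ip_box w x ((fac_inl h).2 rfl)
    refine ⟨⟨s1, m1, le_trans ?_ h2⟩, ⟨s2, m2, h1.trans ?_⟩, ⟨s3, m3, le_trans ?_ h4⟩, s4, m4, h3.trans ?_⟩ <;>
      exact_mod_cast (by assumption)
  | inr f =>
    obtain ⟨v, hv, hf, -, hi⟩ := fac_inr h
    obtain ⟨h1, h2, h3, h4⟩ := hl.2.1 v hv hf
    obtain ⟨⟨s1, m1, e1⟩, ⟨s2, m2, e2⟩, ⟨s3, m3, e3⟩, s4, m4, e4⟩ := X.In_box v w (hi.2 rfl)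
    have l1 := S.le01 v
    have l2 := S.le23 v
    refine ⟨⟨s1, m1, le_trans ?_ h2⟩, ⟨s2, m2, h1.trans ?_⟩, ⟨s3, m3, le_trans ?_ h4⟩, s4, m4, h3.trans ?_⟩
    · exact_mod_cast e1.trans l1
    · exact_mod_cast l1.trans e2
    · exact_mod_cast e3.trans l2
    · exact_mod_cast l2.trans e4

/-- a point which represents the object -/
theorem fac_pt {n : ℕ} {β : Bx} {μ : ℝ} {o : Z2 ⊕ (S.P → ℝ)} (hl : Lo S n β μ o) {w : X.W} {b : Bool}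
    (h : X.fac n w b o ≠ 0) :
    (∃ s ∈ X.st w, β.a - 1 ≤ s.1 ∧ (s.1 : ℝ) ≤ β.b + 1 ∧ β.c - 1 ≤ s.2 ∧ (s.2 : ℝ) ≤ β.e + 1) ∨
    ∃ x : Z2, (β.a ≤ x.1 ∧ (x.1 : ℝ) ≤ β.b ∧ β.c ≤ x.2 ∧ (x.2 : ℝ) ≤ β.e) ∧ (X.ip x w ↔ b = true) := by
  cases o with
  | inl x =>
    obtain ⟨h1, h2, h3, h4, -⟩ := hl
    exact Or.inr ⟨x, ⟨h1, h2, h3, h4⟩, fac_inl h⟩
  | inr f =>
    obtain ⟨v, hv, hf, -, hi⟩ := fac_inr h
    obtain ⟨h1, h2, h3, h4⟩ := hl.2.1 v hv hf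
    have l1 : (S.ht v 0 : ℝ) ≤ S.ht v 1 := by exact_mod_cast S.le01 v
    have l2 : (S.ht v 2 : ℝ) ≤ S.ht v 3 := by exact_mod_cast S.le23 v
    by_cases hs : ∀ s ∈ X.st w, ¬ (S.ht v 0 - 1 ≤ s.1 ∧ s.1 ≤ S.ht v 1 + 1 ∧ S.ht v 2 - 1 ≤ s.2 ∧
        s.2 ≤ S.ht v 3 + 1)
    · obtain ⟨-, h5⟩ := X.sep v w hs
      exact Or.inr ⟨(S.ht v 0, S.ht v 2), ⟨h1, l1.trans h2, h3, l2.trans h4⟩, h5.symm.trans hi⟩
    · push Not at hs
      obtain ⟨s, hs, a1, a2, a3, a4⟩ := hs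
      left
      have b1 : (S.ht v 0 : ℝ) - 1 ≤ s.1 := by exact_mod_cast a1
      have b2 : (s.1 : ℝ) ≤ S.ht v 1 + 1 := by exact_mod_cast a2
      have b3 : (S.ht v 2 : ℝ) - 1 ≤ s.2 := by exact_mod_cast a3
      have b4 : (s.2 : ℝ) ≤ S.ht v 3 + 1 := by exact_mod_cast a4
      exact ⟨s, hs, by linarith, by linarith, by linarith, by linarith⟩

/-- an object inside and an object outside: `w` has a site in the hull -/
theorem fac_nr {n : ℕ} {β β' : Bx} {μ μ' : ℝ} {o o' : Z2 ⊕ (S.P → ℝ)} (hl : Lo S n β μ o) (hl' : Lo S n β' μ' o')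
    {w : X.W} (h : X.fac n w true o ≠ 0) (h' : X.fac n w false o' ≠ 0) {z : Z2} {ρ : ℝ}
    (hβ : (z.1 : ℝ) - ρ ≤ β.a ∧ β.b ≤ z.1 + ρ ∧ (z.2 : ℝ) - ρ ≤ β.c ∧ β.e ≤ z.2 + ρ)
    (hβ' : (z.1 : ℝ) - ρ ≤ β'.a ∧ β'.b ≤ z.1 + ρ ∧ (z.2 : ℝ) - ρ ≤ β'.c ∧ β'.e ≤ z.2 + ρ) : X.Nr (ρ + 1) z w := by
  obtain ⟨p1, p2, p3, p4⟩ := hβ
  obtain ⟨q1, q2, q3, q4⟩ := hβ'
  rcases fac_pt hl h with ⟨s, hs, a1, a2, a3, a4⟩ | ⟨x, ⟨a1, a2, a3, a4⟩, ax⟩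
  · exact ⟨s, hs, by rw [abs_le]; constructor <;> linarith, by rw [abs_le]; constructor <;> linarith⟩
  rcases fac_pt hl' h' with ⟨s, hs, b1, b2, b3, b4⟩ | ⟨y, ⟨b1, b2, b3, b4⟩, by'⟩
  · exact ⟨s, hs, by rw [abs_le]; constructor <;> linarith, by rw [abs_le]; constructor <;> linarith⟩
  obtain ⟨s, hs, c1, c2, c3, c4⟩ := X.ip_sep w x y (ax.2 rfl) fun hy => by simpa using by'.1 hy
  refine ⟨s, hs, ?_, ?_⟩
  · have d1 : min (x.1 : ℝ) y.1 - 1 ≤ s.1 := by exact_mod_cast c1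
    have d2 : (s.1 : ℝ) ≤ max (x.1 : ℝ) y.1 + 1 := by exact_mod_cast c2
    have d3 : (z.1 : ℝ) - ρ ≤ min (x.1 : ℝ) y.1 := le_min (by linarith) (by linarith)
    have d4 : max (x.1 : ℝ) y.1 ≤ z.1 + ρ := max_le (by linarith) (by linarith)
    rw [abs_le]; constructor <;> linarith
  · have d1 : min (x.2 : ℝ) y.2 - 1 ≤ s.2 := by exact_mod_cast c3
    have d2 : (s.2 : ℝ) ≤ max (x.2 : ℝ) y.2 + 1 := by exact_mod_cast c4
    have d3 : (z.2 : ℝ) - ρ ≤ min (x.2 : ℝ) y.2 := le_min (by linarith) (by linarith)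
    have d4 : max (x.2 : ℝ) y.2 ≤ z.2 + ρ := max_le (by linarith) (by linarith)
    rw [abs_le]; constructor <;> linarith

/-- two boxes at distance `≥ D` -/
def Bx.Far (D : ℝ) (β β' : Bx) : Prop :=
  β.b + D ≤ β'.a ∨ β'.b + D ≤ β.a ∨ β.e + D ≤ β'.c ∨ β'.e + D ≤ β.c

/-- two objects inside: `w` is large -/
theorem fac_ext {n : ℕ} {β β' : Bx} {μ μ' : ℝ} {o o' : Z2 ⊕ (S.P → ℝ)} (hl : Lo S n β μ o) (hl' : Lo S n β' μ' o')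
    {w : X.W} (h : X.fac n w true o ≠ 0) (h' : X.fac n w true o' ≠ 0) {D : ℝ} (hD : β.Far D β') : X.Ext D w := by
  obtain ⟨⟨s1, m1, e1⟩, ⟨s2, m2, e2⟩, ⟨s3, m3, e3⟩, s4, m4, e4⟩ := fac_true hl h
  obtain ⟨⟨t1, n1, f1⟩, ⟨t2, n2, f2⟩, ⟨t3, n3, f3⟩, t4, n4, f4⟩ := fac_true hl' h'
  rcases hD with hD | hD | hD | hD
  · exact ⟨t2, n2, s1, m1, Or.inl (le_trans (by linarith) (le_abs_self _))⟩
  · exact ⟨s2, m2, t1, n1, Or.inl (le_trans (by linarith) (le_abs_self _))⟩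
  · exact ⟨t4, n4, s3, m3, Or.inr (le_trans (by linarith) (le_abs_self _))⟩
  · exact ⟨s4, m4, t3, n3, Or.inr (le_trans (by linarith) (le_abs_self _))⟩

/-! ### families of objects -/

variable {m : ℕ}

/-- **located objects**: boxes in the ball of radius `ρ` around `z`, boxes at distance `≥ D`, masses `≤ 2` -/
structure LO (S : PSys) (n : ℕ) (z : Z2) (ρ D : ℝ) (o : Fin m → Z2 ⊕ (S.P → ℝ)) (β : Fin m → Bx) : Prop where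
  lo : ∀ i, Lo S n (β i) 2 (o i)
  ba : ∀ i, (z.1 : ℝ) - ρ ≤ (β i).a ∧ (β i).b ≤ z.1 + ρ ∧ (z.2 : ℝ) - ρ ≤ (β i).c ∧ (β i).e ≤ z.2 + ρ
  fa : ∀ i j, i ≠ j → (β i).Far D (β j)

/-- the product -/
noncomputable def pr (X : WSys S) (n : ℕ) (π : Fin m → Bool) (o : Fin m → Z2 ⊕ (S.P → ℝ)) (w : X.W) : ℝ :=
  ∏ i, X.fac n w (π i) (o i)

theorem PO_eq (g : X.W → ℝ) (n : ℕ) (π : Fin m → Bool) (o : Fin m → Z2 ⊕ (S.P → ℝ)) :
    X.PO g n π o = ∑' w : X.W, g w * X.pr n π o w := rfl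

section
variable {n : ℕ} {z : Z2} {ρ D : ℝ} {o : Fin m → Z2 ⊕ (S.P → ℝ)} {β : Fin m → Bx} {π : Fin m → Bool}

theorem LO.pr_nn (h : LO S n z ρ D o β) (w : X.W) : 0 ≤ X.pr n π o w :=
  Finset.prod_nonneg fun i _ => fac_nn (h.lo i) w _

theorem LO.pr_le (h : LO S n z ρ D o β) (w : X.W) : X.pr n π o w ≤ 2 ^ m := by
  unfold pr
  refine (Finset.prod_le_prod (fun i _ => fac_nn (h.lo i) w _) fun i _ => fac_le (h.lo i) w _).trans (le_of_eq ?_)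
  rw [Finset.prod_const, Finset.card_univ, Fintype.card_fin]

theorem LO.ext (h : LO S n z ρ D o β) (hπ : PSys.NT π) {w : X.W} (hw : X.pr n π o w ≠ 0) : X.Ext D w := by
  unfold pr at hw
  rw [Finset.prod_ne_zero_iff] at hw
  obtain ⟨⟨i, j, hij, hi, hj⟩, -⟩ := hπ
  have h1 := hw i (Finset.mem_univ _)
  have h2 := hw j (Finset.mem_univ _)
  rw [hi] at h1
  rw [hj] at h2
  exact fac_ext (h.lo i) (h.lo j) h1 h2 (h.fa i j hij)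

theorem LO.nr (h : LO S n z ρ D o β) (hπ : PSys.NT π) {w : X.W} (hw : X.pr n π o w ≠ 0) : X.Nr (ρ + 1) z w := by
  unfold pr at hw
  rw [Finset.prod_ne_zero_iff] at hw
  obtain ⟨⟨i, j, hij, hi, hj⟩, k, hk⟩ := hπ
  have h1 := hw i (Finset.mem_univ _)
  have h2 := hw k (Finset.mem_univ _)
  rw [hi] at h1
  rw [hk] at h2
  exact fac_nr (h.lo i) (h.lo k) h1 h2 (h.ba i) (h.ba k)

/-- the sum converges -/
theorem LO.summable (h : LO S n z ρ D o β) (hπ : PSys.NT π) {g : X.W → ℝ} (hg : X.IsW g)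
    (hf : X.near g D (ρ + 1) z ≠ ⊤) : Summable fun w => g w * X.pr n π o w := by
  rw [near_eq] at hf
  refine summable_of (C := 2 ^ m) (fun w => hg.nn w) hf (fun w => ?_) fun w hw => ?_
  · rw [abs_of_nonneg (h.pr_nn w)]
    exact h.pr_le w
  · by_contra hc
    exact hw ⟨h.ext hπ hc, h.nr hπ hc⟩

theorem LO.bound (h : LO S n z ρ D o β) (hπ : PSys.NT π) {g : X.W → ℝ} (hg : X.IsW g) {e : ℝ} (he : 0 ≤ e)
    (hf : X.near g D (ρ + 1) z ≤ ENNReal.ofReal e) : |X.PO g n π o| ≤ 2 ^ m * e := by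
  rw [near_eq] at hf
  refine tsum_le (fun w => hg.nn w) (by positivity) he hf (fun w => ?_) fun w hw => ?_
  · show |X.pr n π o w| ≤ _
    rw [abs_of_nonneg (h.pr_nn w)]
    exact h.pr_le w
  · show X.pr n π o w = 0
    by_contra hc
    exact hw ⟨h.ext hπ hc, h.nr hπ hc⟩

end

theorem pr_update (n : ℕ) (π : Fin m → Bool) (o : Fin m → Z2 ⊕ (S.P → ℝ)) (i : Fin m) (a : Z2 ⊕ (S.P → ℝ)) (w : X.W) :
    X.pr n π (Function.update o i a) w = X.fac n w (π i) a * ∏ j ∈ univ.erase i, X.fac n w (π j) (o j) := by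
  unfold pr
  rw [← Finset.mul_prod_erase _ _ (Finset.mem_univ i), Function.update_self]
  congr 1
  refine Finset.prod_congr rfl fun j hj => ?_
  rw [Function.update_of_ne (Finset.ne_of_mem_erase hj)]

/-- **a tracer near `y` and the point `y`** -/
theorem fac_conv {n : ℕ} {f : S.P → ℝ} (hf0 : ∀ v, 0 ≤ f v) {y : Z2} {ρ : ℝ} (hρ : 0 ≤ ρ)
    (hf : ∀ v ∈ S.box n, f v ≠ 0 → (y.1 : ℝ) - ρ + 1 ≤ S.ht v 0 ∧ (S.ht v 1 : ℝ) ≤ y.1 + ρ - 1 ∧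
      (y.2 : ℝ) - ρ + 1 ≤ S.ht v 2 ∧ (S.ht v 3 : ℝ) ≤ y.2 + ρ - 1) (h1 : 1 ≤ ρ) {w : X.W} (hw : ¬ X.Nr ρ y w) (b : Bool) :
    X.fac n w b (.inr f) = (∑ v ∈ S.box n, S.M v * f v) * X.fac n w b (.inl y) := by
  classical
  rw [fac_r, fac_l, Finset.sum_mul]
  refine Finset.sum_congr rfl fun v hv => ?_
  by_cases h0 : f v = 0
  · rw [h0, mul_zero, zero_mul]
    split_ifs <;> rfl
  obtain ⟨a1, a2, a3, a4⟩ := hf v hv h0
  have l1 : (S.ht v 0 : ℝ) ≤ S.ht v 1 := by exact_mod_cast S.le01 v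
  have l2 : (S.ht v 2 : ℝ) ≤ S.ht v 3 := by exact_mod_cast S.le23 v
  obtain ⟨c1, c2⟩ := X.sep v w (fun s hs hc => by
    obtain ⟨b1, b2, b3, b4⟩ := hc
    have b1 : (S.ht v 0 : ℝ) - 1 ≤ s.1 := by exact_mod_cast b1
    have b2 : (s.1 : ℝ) ≤ S.ht v 1 + 1 := by exact_mod_cast b2
    have b3 : (S.ht v 2 : ℝ) - 1 ≤ s.2 := by exact_mod_cast b3
    have b4 : (s.2 : ℝ) ≤ S.ht v 3 + 1 := by exact_mod_cast b4
    exact hw ⟨s, hs, by rw [abs_le]; constructor <;> linarith, by rw [abs_le]; constructor <;> linarith⟩)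
  have key : ∀ p q : Z2, ((y.1 : ℝ) - ρ + 1 ≤ p.1 ∧ (p.1 : ℝ) ≤ y.1 + ρ - 1 ∧ (y.2 : ℝ) - ρ + 1 ≤ p.2 ∧
      (p.2 : ℝ) ≤ y.2 + ρ - 1) → ((y.1 : ℝ) - ρ + 1 ≤ q.1 ∧ (q.1 : ℝ) ≤ y.1 + ρ - 1 ∧ (y.2 : ℝ) - ρ + 1 ≤ q.2 ∧
      (q.2 : ℝ) ≤ y.2 + ρ - 1) → X.ip p w → X.ip q w := by
    intro p q hp hq hpw
    by_contra hqw
    obtain ⟨s, hs, d1, d2, d3, d4⟩ := X.ip_sep w p q hpw hqw
    have d1 : min (p.1 : ℝ) q.1 - 1 ≤ s.1 := by exact_mod_cast d1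
    have d2 : (s.1 : ℝ) ≤ max (p.1 : ℝ) q.1 + 1 := by exact_mod_cast d2
    have d3 : min (p.2 : ℝ) q.2 - 1 ≤ s.2 := by exact_mod_cast d3
    have d4 : (s.2 : ℝ) ≤ max (p.2 : ℝ) q.2 + 1 := by exact_mod_cast d4
    have m1 : (y.1 : ℝ) - ρ + 1 ≤ min (p.1 : ℝ) q.1 := le_min hp.1 hq.1
    have m2 : max (p.1 : ℝ) q.1 ≤ y.1 + ρ - 1 := max_le hp.2.1 hq.2.1
    have m3 : (y.2 : ℝ) - ρ + 1 ≤ min (p.2 : ℝ) q.2 := le_min hp.2.2.1 hq.2.2.1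
    have m4 : max (p.2 : ℝ) q.2 ≤ y.2 + ρ - 1 := max_le hp.2.2.2 hq.2.2.2
    exact hw ⟨s, hs, by rw [abs_le]; constructor <;> linarith, by rw [abs_le]; constructor <;> linarith⟩
  have hv' : (y.1 : ℝ) - ρ + 1 ≤ ((S.ht v 0 : ℤ) : ℝ) ∧ ((S.ht v 0 : ℤ) : ℝ) ≤ y.1 + ρ - 1 ∧
      (y.2 : ℝ) - ρ + 1 ≤ ((S.ht v 2 : ℤ) : ℝ) ∧ ((S.ht v 2 : ℤ) : ℝ) ≤ y.2 + ρ - 1 :=
    ⟨a1, l1.trans a2, a3, l2.trans a4⟩
  have hy' : (y.1 : ℝ) - ρ + 1 ≤ y.1 ∧ (y.1 : ℝ) ≤ y.1 + ρ - 1 ∧ (y.2 : ℝ) - ρ + 1 ≤ y.2 ∧ (y.2 : ℝ) ≤ y.2 + ρ - 1 :=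
    ⟨by linarith, by linarith, by linarith, by linarith⟩
  have hiff : X.ip (S.ht v 0, S.ht v 2) w ↔ X.ip y w := ⟨key _ _ hv' hy', key _ _ hy' hv'⟩
  have hcond : (X.Dj w v ∧ (X.In v w ↔ b = true)) ↔ (X.ip y w ↔ b = true) := by
    rw [c2, hiff]
    exact ⟨fun h => h.2, fun h => ⟨c1, h⟩⟩
  by_cases h : X.ip y w ↔ b = true
  · rw [if_pos h, if_pos (hcond.2 h), mul_one]
  · rw [if_neg h, if_neg (fun h' => h (hcond.1 h')), mul_zero]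

/-- **replacement of the tracer `f` by the point `y`** -/
theorem conv {n : ℕ} {z : Z2} {ρ0 D : ℝ} {o : Fin m → Z2 ⊕ (S.P → ℝ)} {β : Fin m → Bx} {π : Fin m → Bool}
    (hπ : PSys.NT π) {g : X.W → ℝ} (hg : X.IsW g) (i : Fin m) {f : S.P → ℝ} {y : Z2} {ρ : ℝ} (hρ : 1 ≤ ρ)
    (h1 : LO S n z ρ0 D (Function.update o i (.inr f)) β) (h2 : LO S n z ρ0 D (Function.update o i (.inl y)) β)
    (hf : ∀ v ∈ S.box n, f v ≠ 0 → (y.1 : ℝ) - ρ + 1 ≤ S.ht v 0 ∧ (S.ht v 1 : ℝ) ≤ y.1 + ρ - 1 ∧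
      (y.2 : ℝ) - ρ + 1 ≤ S.ht v 2 ∧ (S.ht v 3 : ℝ) ≤ y.2 + ρ - 1)
    (hfin : X.near g D (ρ0 + 1) z ≠ ⊤) {e : ℝ} (he : 0 ≤ e) (hn : X.near g D ρ y ≤ ENNReal.ofReal e) :
    |X.PO g n π (Function.update o i (.inr f)) -
      (∑ v ∈ S.box n, S.M v * f v) * X.PO g n π (Function.update o i (.inl y))| ≤ 2 ^ (m + 1) * e := by
  classical
  set μ : ℝ := ∑ v ∈ S.box n, S.M v * f v with hμ
  have hlf : Lo S n (β i) 2 (.inr f) := by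
    have := h1.lo i
    rwa [Function.update_self] at this
  have hμ0 : 0 ≤ μ := Finset.sum_nonneg fun v _ => mul_nonneg (S.M_nn v) (hlf.1 v)
  have hμ2 : μ ≤ 2 := hlf.2.2
  rw [PO_eq, PO_eq, ← tsum_mul_left]
  have e1 : ∀ w, μ * (g w * X.pr n π (Function.update o i (.inl y)) w) =
      g w * (μ * X.pr n π (Function.update o i (.inl y)) w) := fun w => by ring
  simp only [e1]
  rw [near_eq] at hn
  have p1 : ∀ w, 0 ≤ X.pr n π (Function.update o i (.inr f)) w := fun w => h1.pr_nn w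
  have p2 : ∀ w, 0 ≤ X.pr n π (Function.update o i (.inl y)) w := fun w => h2.pr_nn w
  have q1 : ∀ w, X.pr n π (Function.update o i (.inr f)) w ≤ 2 ^ m := fun w => h1.pr_le w
  have q2 : ∀ w, X.pr n π (Function.update o i (.inl y)) w ≤ 2 ^ m := fun w => h2.pr_le w
  refine tsum_sub_le (fun w => hg.nn w) (by positivity) he hn (fun w => ?_) (fun w hw => ?_) (h1.summable hπ hg hfin)
  · have a1 : μ * X.pr n π (Function.update o i (.inl y)) w ≤ 2 * 2 ^ m :=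
      mul_le_mul hμ2 (q2 w) (p2 w) (by norm_num)
    have a2 : 0 ≤ μ * X.pr n π (Function.update o i (.inl y)) w := mul_nonneg hμ0 (p2 w)
    have a3 := p1 w
    have a4 := q1 w
    have a5 : (0 : ℝ) < 2 ^ m := by positivity
    rw [abs_le, pow_succ]
    constructor <;> nlinarith
  · by_cases hnr : X.Nr ρ y w
    · have hx : ¬ X.Ext D w := fun hx => hw ⟨hx, hnr⟩
      have b1 : X.pr n π (Function.update o i (.inr f)) w = 0 := by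
        by_contra hc
        exact hx (h1.ext hπ hc)
      have b2 : X.pr n π (Function.update o i (.inl y)) w = 0 := by
        by_contra hc
        exact hx (h2.ext hπ hc)
      rw [b1, b2, mul_zero]
    · rw [pr_update, pr_update, fac_conv hlf.1 (by linarith) hf hρ hnr]
      ring

end WSys

end Pool.Agent.ROT.U
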