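import Pool.Agent.ROT.UFlowDefs

/-!
# ROT, UNIV, side A: the normalised tracer (helper53)

`tracer` : a smooth test function of one tracer of size `η`, total mass `1 + O(1 / N)` at every real position.
-/

set_option autoImplicit false

open Finset Filter Topology

namespace Pool.Agent.ROT.U

open Pool.Agent.ROT.A

/-! ### smooth functions with compact support -/

theorem tf_smooth {F : (Fin 4 → ℝ) → ℝ} (hF : ContDiff ℝ 2 F) (hc : HasCompactSupport F) : ∃ C : ℝ, 0 ≤ C ∧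
    (∀ y, |F y| ≤ C) ∧ (∀ y z, |F (y + z) - F y| ≤ C * ‖z‖) ∧
    ∀ y z z', |F (y + z + z') - F (y + z) - F (y + z') + F y| ≤ C * ‖z‖ * ‖z'‖ := by
  obtain ⟨C1, h1⟩ := hF.continuous.bounded_above_of_compact_support hc
  obtain ⟨C2, h2⟩ := hF.lipschitzWith_of_hasCompactSupport hc (by norm_num)
  have hd : ContDiff ℝ 1 (fderiv ℝ F) := hF.fderiv_right (by norm_num)
  obtain ⟨C3, h3⟩ := hd.lipschitzWith_of_hasCompactSupport (hc.fderiv ℝ) (by norm_num)
  refine ⟨max (max C1 C2) C3, le_max_of_le_right C3.2, fun y => ?_, fun y z => ?_, fun y z z' => ?_⟩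
  · exact (h1 y).trans (le_max_of_le_left (le_max_left _ _))
  · have := h2.dist_le_mul (y + z) y
    rw [Real.dist_eq, dist_eq_norm, add_sub_cancel_left] at this
    refine this.trans ?_
    gcongr
    exact le_max_of_le_left (le_max_right _ _)
  · have hdiff : Differentiable ℝ F := hF.differentiable (by norm_num)
    set H : (Fin 4 → ℝ) → ℝ := fun x => F (x + z) - F x with hH
    have hH' : ∀ x, HasFDerivAt H (fderiv ℝ F (x + z) - fderiv ℝ F x) x := fun x => by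
      have a1 : HasFDerivAt (fun x => F (x + z)) (fderiv ℝ F (x + z)) x := by
        have := (hdiff (x + z)).hasFDerivAt.comp x ((hasFDerivAt_id x).add_const z)
        rw [ContinuousLinearMap.comp_id] at this
        exact this
      exact a1.sub (hdiff x).hasFDerivAt
    have hb : ∀ x, ‖fderiv ℝ F (x + z) - fderiv ℝ F x‖ ≤ C3 * ‖z‖ := fun x => by
      have := h3.dist_le_mul (x + z) x
      rwa [dist_eq_norm, dist_eq_norm, add_sub_cancel_left] at this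
    have h4 := (convex_univ : Convex ℝ (Set.univ : Set (Fin 4 → ℝ))).norm_image_sub_le_of_norm_hasFDerivWithin_le
      (f := H) (f' := fun x => fderiv ℝ F (x + z) - fderiv ℝ F x) (C := C3 * ‖z‖)
      (fun x _ => (hH' x).hasFDerivWithinAt) (fun x _ => hb x) (Set.mem_univ y) (Set.mem_univ (y + z'))
    rw [add_sub_cancel_left, Real.norm_eq_abs] at h4
    have e1 : H (y + z') - H y = F (y + z + z') - F (y + z) - F (y + z') + F y := by
      rw [hH]
      dsimp only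
      rw [show y + z' + z = y + z + z' by ring]
      ring
    rw [e1] at h4
    refine h4.trans ?_
    gcongr
    exact le_max_right _ _

/-! ### the base function -/

/-- the profile: `1` on `[r, s]`, `0` off `[r / 2, 2 s]` -/
noncomputable def gb (r s : ℝ) (hr : 0 < r) (hs : r < s) : ContDiffBump ((r + s) / 2 : ℝ) :=
  ⟨(s - r) / 2, s / 2, by linarith, by linarith⟩

/-- `1` on `[-1, 1]`, `0` off `(-2, 2)` -/
noncomputable def xb : ContDiffBump (0 : ℝ) := ⟨1, 2, by norm_num, by norm_num⟩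

theorem gb_one {r s : ℝ} (hr : 0 < r) (hs : r < s) {t : ℝ} (h1 : r ≤ t) (h2 : t ≤ s) : gb r s hr hs t = 1 := by
  refine (gb r s hr hs).one_of_mem_closedBall ?_
  rw [Metric.mem_closedBall, Real.dist_eq, abs_le]
  show -((s - r) / 2) ≤ _ ∧ _ ≤ (s - r) / 2
  constructor <;> linarith

theorem gb_ne {r s : ℝ} (hr : 0 < r) (hs : r < s) {t : ℝ} (h : gb r s hr hs t ≠ 0) : r / 2 ≤ t ∧ t ≤ 2 * s := by
  have h1 : t ∈ Metric.ball ((r + s) / 2) (gb r s hr hs).rOut := by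
    rw [← (gb r s hr hs).support_eq]
    exact h
  rw [Metric.mem_ball, Real.dist_eq, abs_lt] at h1
  have h2 : (gb r s hr hs).rOut = s / 2 := rfl
  rw [h2] at h1
  constructor <;> linarith [h1.1, h1.2]

theorem xb_one {t : ℝ} (h : |t| ≤ 1) : xb t = 1 := by
  refine xb.one_of_mem_closedBall ?_
  rw [Metric.mem_closedBall, Real.dist_eq, sub_zero]
  exact h

theorem xb_ne {t : ℝ} (h : xb t ≠ 0) : |t| ≤ 2 := by
  have h1 : t ∈ Metric.ball (0 : ℝ) xb.rOut := by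
    rw [← xb.support_eq]
    exact h
  rw [Metric.mem_ball, Real.dist_eq, sub_zero] at h1
  exact h1.le

/-- **the base function** -/
noncomputable def F0 (r s : ℝ) (hr : 0 < r) (hs : r < s) (y : Fin 4 → ℝ) : ℝ :=
  xb (y 0) * xb (y 2) * (gb r s hr hs (y 1 - y 0) * gb r s hr hs (y 3 - y 2))

section base

variable {r s : ℝ} (hr : 0 < r) (hs : r < s)

theorem F0_nn (y : Fin 4 → ℝ) : 0 ≤ F0 r s hr hs y :=
  mul_nonneg (mul_nonneg (xb.nonneg) (xb.nonneg)) (mul_nonneg (gb r s hr hs).nonneg (gb r s hr hs).nonneg)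

theorem F0_le (y : Fin 4 → ℝ) : F0 r s hr hs y ≤ 1 := by
  have h1 : xb (y 0) ≤ 1 := xb.le_one
  have h2 : xb (y 2) ≤ 1 := xb.le_one
  have h3 : gb r s hr hs (y 1 - y 0) ≤ 1 := (gb r s hr hs).le_one
  have h4 : gb r s hr hs (y 3 - y 2) ≤ 1 := (gb r s hr hs).le_one
  have n1 : 0 ≤ xb (y 0) := xb.nonneg
  have n2 : 0 ≤ xb (y 2) := xb.nonneg
  have n3 : 0 ≤ gb r s hr hs (y 1 - y 0) := (gb r s hr hs).nonneg
  have n4 : 0 ≤ gb r s hr hs (y 3 - y 2) := (gb r s hr hs).nonneg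
  unfold F0
  calc _ ≤ 1 * 1 * (1 * 1 : ℝ) := by gcongr
    _ = 1 := by norm_num

theorem F0_one {y : Fin 4 → ℝ} (h0 : |y 0| ≤ 1) (h2 : |y 2| ≤ 1) (h1 : r ≤ y 1 - y 0 ∧ y 1 - y 0 ≤ s)
    (h3 : r ≤ y 3 - y 2 ∧ y 3 - y 2 ≤ s) : F0 r s hr hs y = 1 := by
  unfold F0
  rw [xb_one h0, xb_one h2, gb_one hr hs h1.1 h1.2, gb_one hr hs h3.1 h3.2]
  norm_num

theorem F0_ne {y : Fin 4 → ℝ} (h : F0 r s hr hs y ≠ 0) : |y 0| ≤ 2 ∧ |y 2| ≤ 2 ∧
    (r / 2 ≤ y 1 - y 0 ∧ y 1 - y 0 ≤ 2 * s) ∧ r / 2 ≤ y 3 - y 2 ∧ y 3 - y 2 ≤ 2 * s := by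
  unfold F0 at h
  have h1 := left_ne_zero_of_mul h
  have h2 := right_ne_zero_of_mul h
  exact ⟨xb_ne (left_ne_zero_of_mul h1), xb_ne (right_ne_zero_of_mul h1), gb_ne hr hs (left_ne_zero_of_mul h2),
    gb_ne hr hs (right_ne_zero_of_mul h2)⟩

theorem F0_smooth : ContDiff ℝ 2 (F0 r s hr hs) := by
  unfold F0
  have p : ∀ i : Fin 4, ContDiff ℝ 2 fun y : Fin 4 → ℝ => y i := fun i => contDiff_apply ℝ ℝ i
  exact ((xb.contDiff.comp (p 0)).mul (xb.contDiff.comp (p 2))).mul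
    (((gb r s hr hs).contDiff.comp ((p 1).sub (p 0))).mul ((gb r s hr hs).contDiff.comp ((p 3).sub (p 2))))

theorem F0_cpt : HasCompactSupport (F0 r s hr hs) := by
  refine HasCompactSupport.of_support_subset_isCompact (isCompact_closedBall (0 : Fin 4 → ℝ) (2 + 2 * s)) fun y hy => ?_
  obtain ⟨h0, h2, h1, h3⟩ := F0_ne hr hs hy
  rw [abs_le] at h0 h2
  rw [mem_closedBall_zero_iff, pi_norm_le_iff_of_nonneg (by linarith)]
  intro i
  rw [Real.norm_eq_abs, abs_le]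
  fin_cases i
  · show -(2 + 2 * s) ≤ y 0 ∧ y 0 ≤ 2 + 2 * s
    constructor <;> linarith
  · show -(2 + 2 * s) ≤ y 1 ∧ y 1 ≤ 2 + 2 * s
    constructor <;> linarith
  · show -(2 + 2 * s) ≤ y 2 ∧ y 2 ≤ 2 + 2 * s
    constructor <;> linarith
  · show -(2 + 2 * s) ≤ y 3 ∧ y 3 ≤ 2 + 2 * s
    constructor <;> linarith

end base

/-! ### masses of the polygons with corner in a finite set -/

section masses

variable (S : PSys)

open Classical in
/-- the indicator weight of the corner `x` and the window -/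
noncomputable def cw (r s a : ℝ) (x : Z2) (v : S.P) : ℝ := if S.co v = x ∧ S.Win r s a v then S.M v else 0

theorem cw_nn (r s a : ℝ) (x : Z2) (v : S.P) : 0 ≤ cw S r s a x v := by
  unfold cw
  split_ifs
  · exact S.M_nn v
  · exact le_rfl

variable {S}

theorem co_add (z : Z2) (p : S.P) : S.co (S.tr z p) = S.co p + z := by
  obtain ⟨h0, -, h2, -⟩ := S.tr_ht z p
  unfold PSys.co
  rw [h0, h2]
  rfl

theorem win_tr (r s a : ℝ) (z : Z2) (p : S.P) : S.Win r s a (S.tr z p) ↔ S.Win r s a p := by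
  obtain ⟨h0, h1, h2, h3⟩ := S.tr_ht z p
  unfold PSys.Win
  rw [h0, h1, h2, h3]
  push_cast
  rw [add_sub_add_right_eq_sub, add_sub_add_right_eq_sub]

theorem cw_tr (r s a : ℝ) (x : Z2) (v : S.P) : cw S r s a x (S.tr x v) = cw S r s a 0 v := by
  unfold cw
  have : (S.co (S.tr x v) = x ∧ S.Win r s a (S.tr x v)) ↔ (S.co v = 0 ∧ S.Win r s a v) := by
    rw [co_add, win_tr, add_eq_right]
  by_cases h : S.co v = 0 ∧ S.Win r s a v
  · rw [if_pos h, if_pos (this.2 h), S.tr_M]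
  · rw [if_neg h, if_neg (fun h' => h (this.1 h'))]

theorem in_box {r s a K : ℝ} {v : S.P} {n : ℕ} (h : S.Win r s a v) (h0 : |(S.ht v 0 : ℝ)| ≤ K)
    (h2 : |(S.ht v 2 : ℝ)| ≤ K) (hn : K + s * a ≤ n) : v ∈ S.box n := by
  obtain ⟨⟨a1, a2⟩, a3, a4⟩ := h
  have l1 : (S.ht v 0 : ℝ) ≤ S.ht v 1 := by exact_mod_cast S.le01 v
  have l2 : (S.ht v 2 : ℝ) ≤ S.ht v 3 := by exact_mod_cast S.le23 v
  rw [abs_le] at h0 h2
  have hsa : 0 ≤ s * a := by linarith
  rw [S.mem_box]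
  intro u
  have : |(S.ht v u : ℝ)| ≤ n := by
    rw [abs_le]
    fin_cases u
    · show -(n : ℝ) ≤ S.ht v 0 ∧ (S.ht v 0 : ℝ) ≤ n
      constructor <;> linarith
    · show -(n : ℝ) ≤ S.ht v 1 ∧ (S.ht v 1 : ℝ) ≤ n
      constructor <;> linarith
    · show -(n : ℝ) ≤ S.ht v 2 ∧ (S.ht v 2 : ℝ) ≤ n
      constructor <;> linarith
    · show -(n : ℝ) ≤ S.ht v 3 ∧ (S.ht v 3 : ℝ) ≤ n
      constructor <;> linarith
  exact_mod_cast this

theorem cw_box {r s a K : ℝ} {x : Z2} {v : S.P} {n : ℕ} (hx1 : |(x.1 : ℝ)| ≤ K) (hx2 : |(x.2 : ℝ)| ≤ K)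
    (hn : K + s * a ≤ n) (h : cw S r s a x v ≠ 0) : v ∈ S.box n := by
  unfold cw at h
  by_cases hc : S.co v = x ∧ S.Win r s a v
  · refine in_box hc.2 (K := K) ?_ ?_ hn
    · have : S.ht v 0 = x.1 := by rw [← hc.1]; rfl
      rw [this]; exact hx1
    · have : S.ht v 2 = x.2 := by rw [← hc.1]; rfl
      rw [this]; exact hx2
  · rw [if_neg hc] at h
    exact absurd rfl h

theorem cw_summable (r s a : ℝ) (x : Z2) : Summable (cw S r s a x) := by
  obtain ⟨n, hn⟩ := exists_nat_ge (max |(x.1 : ℝ)| |(x.2 : ℝ)| + s * a)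
  exact summable_of_ne_finset_zero (s := S.box n) fun v hv => by
    by_contra hc
    exact hv (cw_box (le_max_left _ _) (le_max_right _ _) hn hc)

theorem cw_tsum {r s a : ℝ} (x : Z2) {n : ℕ} (hn : s * a ≤ n) : ∑' v, cw S r s a x v = S.mass r s a n := by
  classical
  rw [← (S.tr x).tsum_eq]
  simp only [cw_tr]
  rw [tsum_eq_sum (s := S.box n) fun v hv => by
    by_contra hc
    exact hv (cw_box (K := 0) (by simp) (by simp) (by linarith) hc)]
  unfold PSys.mass cw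
  rfl

/-- the mass of the polygons with corner in `A` -/
theorem cw_fin {r s a : ℝ} (A : Finset Z2) {n : ℕ} (hn : s * a ≤ n) :
    Summable (fun v => ∑ x ∈ A, cw S r s a x v) ∧ ∑' v, ∑ x ∈ A, cw S r s a x v = A.card * S.mass r s a n := by
  refine ⟨summable_sum fun x _ => cw_summable r s a x, ?_⟩
  rw [Summable.tsum_finsetSum fun x _ => cw_summable r s a x, Finset.sum_congr rfl fun x _ => cw_tsum x hn,
    Finset.sum_const, nsmul_eq_mul]

theorem cw_sum (r s a : ℝ) (A : Finset Z2) (v : S.P) :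
    ∑ x ∈ A, cw S r s a x v = by classical exact if S.co v ∈ A ∧ S.Win r s a v then S.M v else 0 := by
  classical
  unfold cw
  by_cases h : S.Win r s a v
  · simp only [h, and_true]
    rw [Finset.sum_ite_eq A (S.co v) fun _ => S.M v]
  · simp only [h, and_false, if_false, Finset.sum_const_zero]

end masses

/-! ### the tracer -/

/-- the vector of a position -/
def pv (P : ℝ × ℝ) : Fin 4 → ℝ := ![P.1, P.1, P.2, P.2]

section tracer

variable {S : PSys} {r s : ℝ} (hr : 0 < r) (hs : r < s)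

/-- the total weight at the position `P` -/
noncomputable def ZP (S : PSys) (η : ℝ) (N : ℕ) (P : ℝ × ℝ) (v : S.P) : ℝ :=
  S.M v * F0 r s hr hs (η⁻¹ • (S.hN N v - pv P))

theorem hN_apply (N : ℕ) (v : S.P) (u : Fin 4) : S.hN N v u = (S.ht v u : ℝ) / N := rfl

/-- the support of the summand -/
theorem zp_ne {η : ℝ} (hη : 0 < η) {N : ℕ} (hN : 0 < N) {P : ℝ × ℝ} {v : S.P}
    (h : F0 r s hr hs (η⁻¹ • (S.hN N v - pv P)) ≠ 0) :
    |(S.ht v 0 : ℝ) - P.1 * N| ≤ 2 * (η * N) ∧ |(S.ht v 2 : ℝ) - P.2 * N| ≤ 2 * (η * N) ∧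
      S.Win (r / 2) (2 * s) (η * N) v := by
  have hN' : (0 : ℝ) < N := by exact_mod_cast hN
  obtain ⟨h0, h2, ⟨h1, h1'⟩, h3, h3'⟩ := F0_ne hr hs h
  have e0 : (η⁻¹ • (S.hN N v - pv P)) 0 = ((S.ht v 0 : ℝ) - P.1 * N) / (η * N) := by
    show η⁻¹ * ((S.ht v 0 : ℝ) / N - P.1) = _
    field_simp
  have e1 : (η⁻¹ • (S.hN N v - pv P)) 1 = ((S.ht v 1 : ℝ) - P.1 * N) / (η * N) := by
    show η⁻¹ * ((S.ht v 1 : ℝ) / N - P.1) = _
    field_simp
  have e2 : (η⁻¹ • (S.hN N v - pv P)) 2 = ((S.ht v 2 : ℝ) - P.2 * N) / (η * N) := by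
    show η⁻¹ * ((S.ht v 2 : ℝ) / N - P.2) = _
    field_simp
  have e3 : (η⁻¹ • (S.hN N v - pv P)) 3 = ((S.ht v 3 : ℝ) - P.2 * N) / (η * N) := by
    show η⁻¹ * ((S.ht v 3 : ℝ) / N - P.2) = _
    field_simp
  have ha : 0 < η * N := by positivity
  rw [e0, abs_div, abs_of_pos ha, div_le_iff₀ ha] at h0
  rw [e2, abs_div, abs_of_pos ha, div_le_iff₀ ha] at h2
  rw [e1, e0, ← sub_div, le_div_iff₀ ha] at h1
  rw [e1, e0, ← sub_div, div_le_iff₀ ha] at h1'
  rw [e3, e2, ← sub_div, le_div_iff₀ ha] at h3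
  rw [e3, e2, ← sub_div, div_le_iff₀ ha] at h3'
  refine ⟨h0, h2, ⟨by linarith, by linarith⟩, by linarith, by linarith⟩

theorem zp_box {η : ℝ} (hη : 0 < η) {N : ℕ} (hN : 0 < N) {P : ℝ × ℝ} {n : ℕ}
    (h1 : (|P.1| + (2 + 2 * s) * η) * N ≤ n) (h2 : (|P.2| + (2 + 2 * s) * η) * N ≤ n) {v : S.P} (hv : v ∉ S.box n) :
    ZP hr hs S η N P v = 0 := by
  have hN' : (0 : ℝ) < N := by exact_mod_cast hN
  unfold ZP
  by_contra hc
  obtain ⟨a0, a2, a3⟩ := zp_ne hr hs hη hN (right_ne_zero_of_mul hc)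
  refine hv (in_box a3 (K := max (|P.1| * N) (|P.2| * N) + 2 * (η * N)) ?_ ?_ ?_)
  · rw [abs_le] at a0 ⊢
    have b1 := neg_abs_le (P.1 * N)
    have b2 := le_abs_self (P.1 * N)
    rw [abs_mul, Nat.abs_cast] at b1 b2
    have b3 := le_max_left (|P.1| * N) (|P.2| * (N : ℝ))
    constructor <;> linarith
  · rw [abs_le] at a2 ⊢
    have b1 := neg_abs_le (P.2 * N)
    have b2 := le_abs_self (P.2 * N)
    rw [abs_mul, Nat.abs_cast] at b1 b2
    have b3 := le_max_right (|P.1| * N) (|P.2| * (N : ℝ))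
    constructor <;> linarith
  · rcases max_cases (|P.1| * N) (|P.2| * (N : ℝ)) with ⟨e, -⟩ | ⟨e, -⟩ <;> rw [e] <;> nlinarith

theorem zp_summable {η : ℝ} (hη : 0 < η) {N : ℕ} (hN : 0 < N) (P : ℝ × ℝ) : Summable (ZP hr hs S η N P) := by
  obtain ⟨n, hn⟩ := exists_nat_ge (max ((|P.1| + (2 + 2 * s) * η) * N) ((|P.2| + (2 + 2 * s) * η) * N))
  exact summable_of_ne_finset_zero (s := S.box n) fun v hv =>
    zp_box hr hs hη hN ((le_max_left _ _).trans hn) ((le_max_right _ _).trans hn) hv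

/-- translation by lattice vectors -/
theorem zp_tr (η : ℝ) {N : ℕ} (hN : 0 < N) (P : ℝ × ℝ) (z : Z2) :
    ∑' v, ZP hr hs S η N (P.1 + z.1 / N, P.2 + z.2 / N) v = ∑' v, ZP hr hs S η N P v := by
  rw [← (S.tr z).tsum_eq]
  refine tsum_congr fun v => ?_
  unfold ZP
  rw [S.tr_M]
  congr 2
  congr 1
  obtain ⟨h0, h1, h2, h3⟩ := S.tr_ht z v
  funext u
  fin_cases u
  · show (S.ht (S.tr z v) 0 : ℝ) / N - (P.1 + z.1 / N) = (S.ht v 0 : ℝ) / N - P.1
    rw [h0]; push_cast; ring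
  · show (S.ht (S.tr z v) 1 : ℝ) / N - (P.1 + z.1 / N) = (S.ht v 1 : ℝ) / N - P.1
    rw [h1]; push_cast; ring
  · show (S.ht (S.tr z v) 2 : ℝ) / N - (P.2 + z.2 / N) = (S.ht v 2 : ℝ) / N - P.2
    rw [h2]; push_cast; ring
  · show (S.ht (S.tr z v) 3 : ℝ) / N - (P.2 + z.2 / N) = (S.ht v 3 : ℝ) / N - P.2
    rw [h3]; push_cast; ring

/-- square boxes of lattice points -/
noncomputable def sq (b : ℝ) : Finset Z2 := Finset.Icc (-⌊b⌋) ⌊b⌋ ×ˢ Finset.Icc (-⌊b⌋) ⌊b⌋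

theorem mem_sq {b : ℝ} {x : Z2} : x ∈ sq b ↔ |(x.1 : ℝ)| ≤ b ∧ |(x.2 : ℝ)| ≤ b := by
  unfold sq
  rw [Finset.mem_product, Finset.mem_Icc, Finset.mem_Icc, abs_le, abs_le]
  have key : ∀ t : ℤ, (-⌊b⌋ ≤ t ∧ t ≤ ⌊b⌋) ↔ (-b ≤ (t : ℝ) ∧ (t : ℝ) ≤ b) := fun t => by
    rw [neg_le, Int.le_floor, Int.le_floor]
    push_cast
    rw [neg_le]
  rw [key, key]

theorem card_sq_ge {b : ℝ} (hb : 0 ≤ b) : b ^ 2 ≤ ((sq b).card : ℝ) := by
  unfold sq
  rw [Finset.card_product, Int.card_Icc]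
  have h0 : 0 ≤ ⌊b⌋ := Int.floor_nonneg.2 hb
  have h1 : ((⌊b⌋ + 1 - -⌊b⌋).toNat : ℝ) = 2 * ⌊b⌋ + 1 := by
    have : ((⌊b⌋ + 1 - -⌊b⌋).toNat : ℤ) = ⌊b⌋ + 1 - -⌊b⌋ := Int.toNat_of_nonneg (by omega)
    have h2 : ((⌊b⌋ + 1 - -⌊b⌋).toNat : ℝ) = ((⌊b⌋ + 1 - -⌊b⌋ : ℤ) : ℝ) := by exact_mod_cast this
    rw [h2]
    push_cast
    ring
  push_cast
  rw [h1]
  have h2 := Int.lt_floor_add_one b
  have h3 : (0 : ℝ) ≤ ⌊b⌋ := by exact_mod_cast h0
  nlinarith

theorem card_sq_le {b : ℝ} (hb : 1 ≤ b) : ((sq b).card : ℝ) ≤ (3 * b) ^ 2 := by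
  unfold sq
  rw [Finset.card_product, Int.card_Icc]
  have h0 : 0 ≤ ⌊b⌋ := Int.floor_nonneg.2 (by linarith)
  have h1 : ((⌊b⌋ + 1 - -⌊b⌋).toNat : ℝ) = 2 * ⌊b⌋ + 1 := by
    have : ((⌊b⌋ + 1 - -⌊b⌋).toNat : ℤ) = ⌊b⌋ + 1 - -⌊b⌋ := Int.toNat_of_nonneg (by omega)
    have h2 : ((⌊b⌋ + 1 - -⌊b⌋).toNat : ℝ) = ((⌊b⌋ + 1 - -⌊b⌋ : ℤ) : ℝ) := by exact_mod_cast this
    rw [h2]
    push_cast
    ring
  push_cast
  rw [h1]
  have h2 := Int.floor_le b
  have h3 : (0 : ℝ) ≤ ⌊b⌋ := by exact_mod_cast h0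
  nlinarith

end tracer

/-- **the normalised tracer** -/
theorem tracer {S : PSys} (hM : S.Mass) : ∃ s0 d0 : ℝ, 0 < s0 ∧ 0 < d0 ∧ ∀ η : ℝ, 0 < η → ∃ Λ C : ℝ, 0 ≤ Λ ∧ 0 ≤ C ∧
    ∃ N0 : ℕ, ∀ N : ℕ, N0 ≤ N → ∃ G : (Fin 4 → ℝ) → ℝ, (∀ y, 0 ≤ G y) ∧
      (∀ y, G y ≠ 0 → (∀ u, |y u| ≤ s0 * η) ∧ d0 * η ≤ y 1 - y 0 ∧ d0 * η ≤ y 3 - y 2) ∧
      (∀ y, |G y| ≤ Λ) ∧ (∀ y z, |G (y + z) - G y| ≤ Λ * ‖z‖) ∧
      (∀ y z z', |G (y + z + z') - G (y + z) - G (y + z') + G y| ≤ Λ * ‖z‖ * ‖z'‖) ∧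
      ∀ (P : ℝ × ℝ) (n : ℕ), (|P.1| + s0 * η) * N ≤ n → (|P.2| + s0 * η) * N ≤ n →
        |∑ v ∈ S.box n, S.M v * G (S.hN N v - pv P) - 1| ≤ C / N := by
  classical
  obtain ⟨⟨r, s, c, hr, hs, hc, N1, hlow⟩, hup⟩ := hM
  obtain ⟨CM, N2, hup2⟩ := hup (r / 2) (2 * s) (by linarith) (by linarith)
  obtain ⟨CF, hCF, f1, f2, f3⟩ := tf_smooth (F0_smooth hr hs) (F0_cpt hr hs)
  have hCM0 : 0 ≤ max CM 0 := le_max_right _ _
  refine ⟨2 + 2 * s, r / 2, by linarith, by linarith, fun η hη => ?_⟩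
  -- the constants
  set Λ0 : ℝ := c⁻¹ * (CF * (1 + η⁻¹ + η⁻¹ * η⁻¹)) with hΛ0
  have hΛ : 0 ≤ Λ0 := by positivity
  refine ⟨Λ0, c⁻¹ * (CF * (2 * η⁻¹) * (9 * 9 * max CM 0)), hΛ, by positivity,
    max 1 ⌈max (max N1 N2) 1 / η⌉₊, fun N hN => ?_⟩
  have hNpos : 0 < N := lt_of_lt_of_le one_pos ((le_max_left _ _).trans hN)
  have hN' : (0 : ℝ) < N := by exact_mod_cast hNpos
  have ha : max (max N1 N2) 1 ≤ η * N := by
    have h2 : (max (max N1 N2) 1 / η : ℝ) ≤ N := (Nat.le_ceil _).trans (by exact_mod_cast (le_max_right _ _).trans hN)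
    rw [div_le_iff₀ hη] at h2
    linarith
  have ha1 : N1 ≤ η * N := ((le_max_left _ _).trans (le_max_left _ _)).trans ha
  have ha2 : N2 ≤ η * N := ((le_max_right _ _).trans (le_max_left _ _)).trans ha
  have ha3 : 1 ≤ η * N := (le_max_right _ _).trans ha
  set a : ℝ := η * N with hadef
  have hapos : 0 < a := by linarith
  obtain ⟨n0, hn0⟩ := exists_nat_ge (2 * s * a)
  -- the normalisation
  set Z : ℝ := ∑' v, ZP hr hs S η N (0, 0) v with hZ
  have hZlow : c ≤ Z := by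
    have h1 := hlow a ha1 n0 (by nlinarith)
    have h2 := cw_fin (S := S) (r := r) (s := s) (a := a) (sq a) (n := n0) (by nlinarith)
    have h3 : ∑' v, ∑ x ∈ sq a, cw S r s a x v ≤ Z := by
      refine h2.1.tsum_le_tsum (fun v => ?_) (zp_summable hr hs hη hNpos (0, 0))
      rw [cw_sum]
      by_cases h : S.co v ∈ sq a ∧ S.Win r s a v
      · rw [if_pos h]
        obtain ⟨h4, ⟨w1, w2⟩, w3, w4⟩ := h
        rw [mem_sq] at h4
        have e0 : (η⁻¹ • (S.hN N v - pv (0, 0))) 0 = (S.ht v 0 : ℝ) / a := by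
          show η⁻¹ * ((S.ht v 0 : ℝ) / N - 0) = _
          rw [hadef]; field_simp; ring
        have e1 : (η⁻¹ • (S.hN N v - pv (0, 0))) 1 = (S.ht v 1 : ℝ) / a := by
          show η⁻¹ * ((S.ht v 1 : ℝ) / N - 0) = _
          rw [hadef]; field_simp; ring
        have e2 : (η⁻¹ • (S.hN N v - pv (0, 0))) 2 = (S.ht v 2 : ℝ) / a := by
          show η⁻¹ * ((S.ht v 2 : ℝ) / N - 0) = _
          rw [hadef]; field_simp; ring
        have e3 : (η⁻¹ • (S.hN N v - pv (0, 0))) 3 = (S.ht v 3 : ℝ) / a := by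
          show η⁻¹ * ((S.ht v 3 : ℝ) / N - 0) = _
          rw [hadef]; field_simp; ring
        have hone : F0 r s hr hs (η⁻¹ • (S.hN N v - pv (0, 0))) = 1 := by
          refine F0_one hr hs ?_ ?_ ?_ ?_
          · rw [e0, abs_div, abs_of_pos hapos, div_le_one hapos]
            exact h4.1
          · rw [e2, abs_div, abs_of_pos hapos, div_le_one hapos]
            exact h4.2
          · rw [e0, e1, ← sub_div, le_div_iff₀ hapos, div_le_iff₀ hapos]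
            exact ⟨w1, w2⟩
          · rw [e2, e3, ← sub_div, le_div_iff₀ hapos, div_le_iff₀ hapos]
            exact ⟨w3, w4⟩
        unfold ZP
        rw [hone, mul_one]
      · rw [if_neg h]
        exact mul_nonneg (S.M_nn v) (F0_nn hr hs _)
    rw [h2.2] at h3
    have h5 := card_sq_ge hapos.le
    have h6 : 0 ≤ S.mass r s a n0 := by
      unfold PSys.mass
      refine Finset.sum_nonneg fun p _ => ?_
      split_ifs
      · exact S.M_nn p
      · exact le_rfl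
    calc c ≤ a ^ 2 * S.mass r s a n0 := h1
      _ ≤ ((sq a).card : ℝ) * S.mass r s a n0 := by gcongr
      _ ≤ Z := h3
  have hZpos : 0 < Z := lt_of_lt_of_le hc hZlow
  have hZinv : Z⁻¹ ≤ c⁻¹ := inv_anti₀ hc hZlow
  have hZinv0 : 0 ≤ Z⁻¹ := by positivity
  have hnorm : ∀ z : Fin 4 → ℝ, ‖η⁻¹ • z‖ = η⁻¹ * ‖z‖ := fun z => by
    rw [norm_smul, Real.norm_eq_abs, abs_of_pos (inv_pos.2 hη)]
  have hbd : ∀ q : ℝ, 0 ≤ q → q ≤ 1 + η⁻¹ + η⁻¹ * η⁻¹ → Z⁻¹ * (CF * q) ≤ Λ0 := fun q hq0 hq => by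
    rw [hΛ0]
    gcongr
  have hη0 : 0 < η⁻¹ := inv_pos.2 hη
  refine ⟨fun y => Z⁻¹ * F0 r s hr hs (η⁻¹ • y), fun y => mul_nonneg hZinv0 (F0_nn hr hs _), fun y hy => ?_,
    fun y => ?_, fun y z => ?_, fun y z z' => ?_, fun P n hn1 hn2 => ?_⟩
  · obtain ⟨h0, h2, ⟨h1, h1'⟩, h3, h3'⟩ := F0_ne hr hs (right_ne_zero_of_mul hy)
    have e : ∀ u, (η⁻¹ • y) u = y u / η := fun u => by
      show η⁻¹ * y u = _
      field_simp
    rw [e, abs_div, abs_of_pos hη, div_le_iff₀ hη] at h0 h2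
    rw [e, e, ← sub_div, le_div_iff₀ hη] at h1 h3
    rw [e, e, ← sub_div, div_le_iff₀ hη] at h1' h3'
    refine ⟨fun u => ?_, h1, h3⟩
    rw [abs_le] at h0 h2 ⊢
    have hsη : 0 < s * η := mul_pos (hr.trans hs) hη
    have hrη : 0 < r / 2 * η := by positivity
    fin_cases u
    · show -((2 + 2 * s) * η) ≤ y 0 ∧ y 0 ≤ (2 + 2 * s) * η
      constructor <;> nlinarith
    · show -((2 + 2 * s) * η) ≤ y 1 ∧ y 1 ≤ (2 + 2 * s) * η
      constructor <;> nlinarith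
    · show -((2 + 2 * s) * η) ≤ y 2 ∧ y 2 ≤ (2 + 2 * s) * η
      constructor <;> nlinarith
    · show -((2 + 2 * s) * η) ≤ y 3 ∧ y 3 ≤ (2 + 2 * s) * η
      constructor <;> nlinarith
  · rw [abs_mul, abs_of_nonneg hZinv0]
    refine le_trans ?_ (hbd 1 zero_le_one (by nlinarith))
    rw [mul_one]
    exact mul_le_mul_of_nonneg_left (f1 _) hZinv0
  · rw [← mul_sub, abs_mul, abs_of_nonneg hZinv0, smul_add]
    have h4 := f2 (η⁻¹ • y) (η⁻¹ • z)
    rw [hnorm] at h4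
    calc Z⁻¹ * |F0 r s hr hs (η⁻¹ • y + η⁻¹ • z) - F0 r s hr hs (η⁻¹ • y)|
        ≤ Z⁻¹ * (CF * (η⁻¹ * ‖z‖)) := by gcongr
      _ = Z⁻¹ * (CF * η⁻¹) * ‖z‖ := by ring
      _ ≤ Λ0 * ‖z‖ := by
          gcongr
          exact hbd _ hη0.le (by nlinarith)
  · have e1 : Z⁻¹ * F0 r s hr hs (η⁻¹ • (y + z + z')) - Z⁻¹ * F0 r s hr hs (η⁻¹ • (y + z)) -
        Z⁻¹ * F0 r s hr hs (η⁻¹ • (y + z')) + Z⁻¹ * F0 r s hr hs (η⁻¹ • y) =
        Z⁻¹ * (F0 r s hr hs (η⁻¹ • y + η⁻¹ • z + η⁻¹ • z') - F0 r s hr hs (η⁻¹ • y + η⁻¹ • z) -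
          F0 r s hr hs (η⁻¹ • y + η⁻¹ • z') + F0 r s hr hs (η⁻¹ • y)) := by
      simp only [smul_add]
      ring
    rw [e1, abs_mul, abs_of_nonneg hZinv0]
    have h4 := f3 (η⁻¹ • y) (η⁻¹ • z) (η⁻¹ • z')
    rw [hnorm, hnorm] at h4
    calc Z⁻¹ * |F0 r s hr hs (η⁻¹ • y + η⁻¹ • z + η⁻¹ • z') - F0 r s hr hs (η⁻¹ • y + η⁻¹ • z) -
          F0 r s hr hs (η⁻¹ • y + η⁻¹ • z') + F0 r s hr hs (η⁻¹ • y)|
        ≤ Z⁻¹ * (CF * (η⁻¹ * ‖z‖) * (η⁻¹ * ‖z'‖)) := by gcongr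
      _ = Z⁻¹ * (CF * (η⁻¹ * η⁻¹)) * ‖z‖ * ‖z'‖ := by ring
      _ ≤ Λ0 * ‖z‖ * ‖z'‖ := by
          gcongr
          exact hbd _ (by positivity) (by nlinarith)
  · -- the mass
    have hsum : ∑ v ∈ S.box n, S.M v * (Z⁻¹ * F0 r s hr hs (η⁻¹ • (S.hN N v - pv P))) =
        Z⁻¹ * ∑' v, ZP hr hs S η N P v := by
      rw [tsum_eq_sum (s := S.box n) fun v hv => zp_box hr hs hη hNpos hn1 hn2 hv, Finset.mul_sum]
      refine Finset.sum_congr rfl fun v _ => ?_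
      unfold ZP
      ring
    rw [hsum]
    -- reduce `P` to `[0, 1 / N)`
    set z : Z2 := (⌊P.1 * N⌋, ⌊P.2 * N⌋) with hz
    set P0 : ℝ × ℝ := (P.1 - z.1 / N, P.2 - z.2 / N) with hP0
    have e1 : ∑' v, ZP hr hs S η N P v = ∑' v, ZP hr hs S η N P0 v := by
      rw [← zp_tr hr hs η hNpos P0 z]
      congr 1
      rw [hP0]
      simp only [sub_add_cancel]
    have hP01 : |P0.1| ≤ 1 / N := by
      have b1 := Int.floor_le (P.1 * N)
      have b2 := Int.lt_floor_add_one (P.1 * N)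
      rw [hP0]
      show |P.1 - ((⌊P.1 * N⌋ : ℤ) : ℝ) / N| ≤ _
      have : P.1 - ((⌊P.1 * N⌋ : ℤ) : ℝ) / N = (P.1 * N - ((⌊P.1 * N⌋ : ℤ) : ℝ)) / N := by field_simp
      rw [this, abs_div, abs_of_pos hN']
      gcongr
      rw [abs_le]; constructor <;> linarith
    have hP02 : |P0.2| ≤ 1 / N := by
      have b1 := Int.floor_le (P.2 * N)
      have b2 := Int.lt_floor_add_one (P.2 * N)
      rw [hP0]
      show |P.2 - ((⌊P.2 * N⌋ : ℤ) : ℝ) / N| ≤ _
      have : P.2 - ((⌊P.2 * N⌋ : ℤ) : ℝ) / N = (P.2 * N - ((⌊P.2 * N⌋ : ℤ) : ℝ)) / N := by field_simp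
      rw [this, abs_div, abs_of_pos hN']
      gcongr
      rw [abs_le]; constructor <;> linarith
    have hpv : ‖pv P0‖ ≤ 1 / N := by
      rw [pi_norm_le_iff_of_nonneg (by positivity)]
      intro u
      rw [Real.norm_eq_abs]
      fin_cases u
      · exact hP01
      · exact hP01
      · exact hP02
      · exact hP02
    have hw := cw_fin (S := S) (r := r / 2) (s := 2 * s) (a := a) (sq (3 * a)) (n := n0) (by linarith)
    have hdiff : |∑' v, ZP hr hs S η N P0 v - Z| ≤ CF * (η⁻¹ / N) * (9 * 9 * max CM 0) := by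
      rw [hZ, ← (zp_summable hr hs hη hNpos P0).tsum_sub (zp_summable hr hs hη hNpos (0, 0))]
      have hb : ∀ v, |ZP hr hs S η N P0 v - ZP hr hs S η N (0, 0) v| ≤
          CF * (η⁻¹ / N) * ∑ x ∈ sq (3 * a), cw S (r / 2) (2 * s) a x v := by
        intro v
        rw [cw_sum]
        have hM := S.M_nn v
        unfold ZP
        rw [← mul_sub, abs_mul, abs_of_nonneg hM]
        have hlip : |F0 r s hr hs (η⁻¹ • (S.hN N v - pv P0)) - F0 r s hr hs (η⁻¹ • (S.hN N v - pv (0, 0)))| ≤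
            CF * (η⁻¹ / N) := by
          have h4 := f2 (η⁻¹ • (S.hN N v - pv (0, 0))) (η⁻¹ • (-(pv P0)))
          have h5 : η⁻¹ • (S.hN N v - pv (0, 0)) + η⁻¹ • (-(pv P0)) = η⁻¹ • (S.hN N v - pv P0) := by
            have hz0 : pv (0, 0) = 0 := by
              funext u
              fin_cases u <;> rfl
            rw [← smul_add, hz0, sub_zero, sub_eq_add_neg]
          rw [h5, hnorm, norm_neg] at h4
          refine h4.trans ?_
          gcongr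
          calc η⁻¹ * ‖pv P0‖ ≤ η⁻¹ * (1 / N) := by gcongr
            _ = η⁻¹ / N := by ring
        by_cases h0 : F0 r s hr hs (η⁻¹ • (S.hN N v - pv P0)) = 0 ∧ F0 r s hr hs (η⁻¹ • (S.hN N v - pv (0, 0))) = 0
        · rw [h0.1, h0.2, sub_self, abs_zero, mul_zero]
          have : (0 : ℝ) ≤ if S.co v ∈ sq (3 * a) ∧ S.Win (r / 2) (2 * s) a v then S.M v else 0 := by
            split_ifs
            · exact hM
            · exact le_rfl
          positivity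
        · have hmem : S.co v ∈ sq (3 * a) ∧ S.Win (r / 2) (2 * s) a v := by
            have key : ∀ Q : ℝ × ℝ, |Q.1| ≤ 1 / N → |Q.2| ≤ 1 / N →
                F0 r s hr hs (η⁻¹ • (S.hN N v - pv Q)) ≠ 0 → S.co v ∈ sq (3 * a) ∧ S.Win (r / 2) (2 * s) a v := by
              intro Q hQ1 hQ2 hne
              obtain ⟨b0, b2, b3⟩ := zp_ne hr hs hη hNpos hne
              refine ⟨mem_sq.2 ⟨?_, ?_⟩, b3⟩
              · have c1 : |Q.1 * N| ≤ 1 := by
                  rw [abs_mul, Nat.abs_cast]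
                  calc |Q.1| * N ≤ 1 / N * N := by gcongr
                    _ = 1 := by field_simp
                show |(S.ht v 0 : ℝ)| ≤ _
                rw [abs_le] at b0 c1 ⊢
                constructor <;> linarith
              · have c1 : |Q.2 * N| ≤ 1 := by
                  rw [abs_mul, Nat.abs_cast]
                  calc |Q.2| * N ≤ 1 / N * N := by gcongr
                    _ = 1 := by field_simp
                show |(S.ht v 2 : ℝ)| ≤ _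
                rw [abs_le] at b2 c1 ⊢
                constructor <;> linarith
            rw [not_and_or] at h0
            rcases h0 with h0 | h0
            · exact key P0 hP01 hP02 h0
            · exact key (0, 0) (by simp) (by simp) h0
          rw [if_pos hmem, mul_comm]
          gcongr
      have hsm : Summable fun v => |ZP hr hs S η N P0 v - ZP hr hs S η N (0, 0) v| :=
        ((zp_summable hr hs hη hNpos P0).sub (zp_summable hr hs hη hNpos (0, 0))).abs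
      calc |∑' v, (ZP hr hs S η N P0 v - ZP hr hs S η N (0, 0) v)|
          ≤ ∑' v, |ZP hr hs S η N P0 v - ZP hr hs S η N (0, 0) v| := by
            simpa only [Real.norm_eq_abs] using norm_tsum_le_tsum_norm
              (f := fun v => ZP hr hs S η N P0 v - ZP hr hs S η N (0, 0) v) (by simpa only [Real.norm_eq_abs] using hsm)
        _ ≤ ∑' v, CF * (η⁻¹ / N) * ∑ x ∈ sq (3 * a), cw S (r / 2) (2 * s) a x v :=
            hsm.tsum_le_tsum hb (hw.1.mul_left _)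
        _ = CF * (η⁻¹ / N) * (((sq (3 * a)).card : ℝ) * S.mass (r / 2) (2 * s) a n0) := by
            rw [tsum_mul_left, hw.2]
        _ ≤ CF * (η⁻¹ / N) * (9 * 9 * max CM 0) := by
            have h7 := hup2 a ha2 n0
            have h8 := card_sq_le (b := 3 * a) (by linarith)
            have h9 : 0 ≤ S.mass (r / 2) (2 * s) a n0 := by
              unfold PSys.mass
              refine Finset.sum_nonneg fun p _ => ?_
              split_ifs
              · exact S.M_nn p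
              · exact le_rfl
            have h10 : ((sq (3 * a)).card : ℝ) * S.mass (r / 2) (2 * s) a n0 ≤ 9 * 9 * max CM 0 := by
              calc ((sq (3 * a)).card : ℝ) * S.mass (r / 2) (2 * s) a n0
                  ≤ (3 * (3 * a)) ^ 2 * S.mass (r / 2) (2 * s) a n0 := by gcongr
                _ = 9 * 9 * (a ^ 2 * S.mass (r / 2) (2 * s) a n0) := by ring
                _ ≤ 9 * 9 * max CM 0 := by
                    gcongr
                    exact h7.trans (le_max_left _ _)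
            gcongr
    rw [e1]
    have e2 : Z⁻¹ * ∑' v, ZP hr hs S η N P0 v - 1 = Z⁻¹ * (∑' v, ZP hr hs S η N P0 v - Z) := by
      field_simp
    rw [e2, abs_mul, abs_of_nonneg hZinv0]
    calc Z⁻¹ * |∑' v, ZP hr hs S η N P0 v - Z| ≤ c⁻¹ * (CF * (η⁻¹ / N) * (9 * 9 * max CM 0)) := by gcongr
      _ ≤ c⁻¹ * (CF * (2 * η⁻¹) * (9 * 9 * max CM 0)) / N := by
          have h11 : c⁻¹ * (CF * (η⁻¹ / N) * (9 * 9 * max CM 0)) = (c⁻¹ * (CF * η⁻¹ * (9 * 9 * max CM 0))) / N := by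
            ring
          rw [h11]
          gcongr
          linarith

end Pool.Agent.ROT.U
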