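import Pool.Agent.ROT.UFlowB
import Pool.Agent.ROT.UFlowC

/-!
# ROT, UNIV, side A: one conversion, points, tails, equicontinuity (helper53)
-/

set_option autoImplicit false

open Finset Filter Topology

namespace Pool.Agent.ROT.U

open Pool.Agent.ROT.A

namespace WSys

variable {S : PSys} {X : WSys S} {m : ℕ}

/-- objects: tracers `f i` for `i ∈ J`, points `x i` for the others -/
noncomputable def obf (S : PSys) (J : Finset (Fin m)) (f : Fin m → S.P → ℝ) (x : Fin m → Z2) :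
    Fin m → Z2 ⊕ (S.P → ℝ) := fun i => if i ∈ J then .inr (f i) else .inl (x i)

theorem ob_eq (N : ℕ) (J : Finset (Fin m)) (G : Fin m → (Fin 4 → ℝ) → ℝ) (x : Fin m → Z2) :
    ob S N J G x = obf S J (fun i v => G i (S.hN N v)) x := rfl

theorem obf_mem {J : Finset (Fin m)} {f : Fin m → S.P → ℝ} {x : Fin m → Z2} {i : Fin m} (h : i ∈ J) :
    obf S J f x i = .inr (f i) := if_pos h

theorem obf_not {J : Finset (Fin m)} {f : Fin m → S.P → ℝ} {x : Fin m → Z2} {i : Fin m} (h : i ∉ J) :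
    obf S J f x i = .inl (x i) := if_neg h

theorem obf_erase {J : Finset (Fin m)} (f : Fin m → S.P → ℝ) (x : Fin m → Z2) {i : Fin m} (h : i ∈ J) :
    obf S J f x = Function.update (obf S (J.erase i) f x) i (.inr (f i)) := by
  funext j
  by_cases hj : j = i
  · subst hj
    rw [Function.update_self, obf_mem h]
  · rw [Function.update_of_ne hj]
    by_cases h1 : j ∈ J
    · rw [obf_mem h1, obf_mem (Finset.mem_erase.2 ⟨hj, h1⟩)]
    · rw [obf_not h1, obf_not fun h2 => h1 (Finset.mem_of_mem_erase h2)]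

theorem obf_erase' {J : Finset (Fin m)} (f : Fin m → S.P → ℝ) (x : Fin m → Z2) (i : Fin m) :
    obf S (J.erase i) f x = Function.update (obf S (J.erase i) f x) i (.inl (x i)) := by
  have h : obf S (J.erase i) f x i = .inl (x i) := obf_not (Finset.notMem_erase i J)
  rw [← h, Function.update_eq_self]

/-- **one conversion** -/
theorem conv1 {n : ℕ} {z : Z2} {ρ0 D ρ e c1 Cm : ℝ} {β : Fin m → Bx} {π : Fin m → Bool} (hπ : PSys.NT π)
    {g : X.W → ℝ} (hg : X.IsW g) {J : Finset (Fin m)} {f : Fin m → S.P → ℝ} {x : Fin m → Z2} {i : Fin m} (hi : i ∈ J)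
    (h1 : LO S n z ρ0 D (obf S J f x) β) (h2 : LO S n z ρ0 D (obf S (J.erase i) f x) β) (hρ : 1 ≤ ρ)
    (hf : ∀ v ∈ S.box n, f i v ≠ 0 → ((x i).1 : ℝ) - ρ + 1 ≤ S.ht v 0 ∧ (S.ht v 1 : ℝ) ≤ (x i).1 + ρ - 1 ∧
      ((x i).2 : ℝ) - ρ + 1 ≤ S.ht v 2 ∧ (S.ht v 3 : ℝ) ≤ (x i).2 + ρ - 1)
    (hμ : |∑ v ∈ S.box n, S.M v * f i v - 1| ≤ c1) (hCm : 0 ≤ Cm) (hm : X.near g D (ρ0 + 1) z ≤ ENNReal.ofReal Cm)
    (he : 0 ≤ e) (hn : X.near g D ρ (x i) ≤ ENNReal.ofReal e) :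
    |X.PO g n π (obf S J f x) - X.PO g n π (obf S (J.erase i) f x)| ≤ 2 ^ (m + 1) * e + c1 * (2 ^ m * Cm) := by
  have h1' := h1
  have h2' := h2
  rw [obf_erase f x hi] at h1'
  rw [obf_erase' f x i] at h2'
  have hc := conv hπ hg i hρ h1' h2' hf (ne_top_of_le_ne_top ENNReal.ofReal_ne_top hm) he hn
  rw [← obf_erase f x hi, ← obf_erase' f x i] at hc
  have hb := h2.bound hπ hg hCm hm
  set μ : ℝ := ∑ v ∈ S.box n, S.M v * f i v with hμd
  set A := X.PO g n π (obf S J f x)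
  set B := X.PO g n π (obf S (J.erase i) f x)
  have e1 : A - B = (A - μ * B) + (μ - 1) * B := by ring
  rw [e1]
  refine (abs_add_le _ _).trans (add_le_add hc ?_)
  rw [abs_mul]
  exact mul_le_mul hμ hb (abs_nonneg _) ((abs_nonneg _).trans hμ)

/-! ### points -/

theorem pr_pts (n : ℕ) (π : Fin m → Bool) (f : Fin m → S.P → ℝ) (x : Fin m → Z2) (w : X.W) :
    X.pr n π (obf S ∅ f x) w = by classical exact if ∀ i, X.ip (x i) w ↔ π i = true then 1 else 0 := by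
  classical
  unfold pr
  have h : ∀ i, X.fac n w (π i) (obf S ∅ f x i) = if X.ip (x i) w ↔ π i = true then 1 else 0 := fun i => by
    rw [obf_not (Finset.notMem_empty i), fac_l]
  rw [Finset.prod_congr rfl fun i _ => h i]
  by_cases hc : ∀ i, X.ip (x i) w ↔ π i = true
  · rw [if_pos hc]
    exact Finset.prod_eq_one fun i _ => if_pos (hc i)
  · rw [if_neg hc]
    push Not at hc
    obtain ⟨i, hi⟩ := hc
    refine Finset.prod_eq_zero (Finset.mem_univ i) (if_neg ?_)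
    intro h2
    rcases hi with ⟨h3, h4⟩ | ⟨h3, h4⟩
    · exact h4 (h2.1 h3)
    · exact h3 (h2.2 h4)

theorem PO_pts (g : X.W → ℝ) (n : ℕ) (π : Fin m → Bool) (f : Fin m → S.P → ℝ) (x : Fin m → Z2) :
    X.PO g n π (obf S ∅ f x) = X.PX g π x := by
  classical
  rw [PO_eq]
  unfold PX
  refine tsum_congr fun w => ?_
  rw [pr_pts]
  split_ifs <;> simp

/-- the box of a point -/
def pbx (x : Z2) : Bx := ⟨x.1, x.1, x.2, x.2⟩

theorem lo_pts {n : ℕ} {z : Z2} {ρ D : ℝ} {x : Fin m → Z2} (f : Fin m → S.P → ℝ)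
    (hb : ∀ i, |((x i).1 : ℝ) - z.1| ≤ ρ ∧ |((x i).2 : ℝ) - z.2| ≤ ρ)
    (hD : ∀ i j, i ≠ j → D ≤ |((x i).1 : ℝ) - (x j).1| ∨ D ≤ |((x i).2 : ℝ) - (x j).2|) :
    LO S n z ρ D (obf S ∅ f x) fun i => pbx (x i) := by
  refine ⟨fun i => ?_, fun i => ?_, fun i j hij => ?_⟩
  · rw [obf_not (Finset.notMem_empty i)]
    exact ⟨le_rfl, le_rfl, le_rfl, le_rfl, by norm_num⟩
  · obtain ⟨h1, h2⟩ := hb i
    rw [abs_le] at h1 h2
    refine ⟨?_, ?_, ?_, ?_⟩
    · show (z.1 : ℝ) - ρ ≤ (x i).1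
      linarith
    · show ((x i).1 : ℝ) ≤ z.1 + ρ
      linarith
    · show (z.2 : ℝ) - ρ ≤ (x i).2
      linarith
    · show ((x i).2 : ℝ) ≤ z.2 + ρ
      linarith
  · rcases hD i j hij with h | h
    · rcases le_abs.1 h with h | h
      · exact Or.inr (Or.inl (show ((x j).1 : ℝ) + D ≤ (x i).1 by linarith))
      · exact Or.inl (show ((x i).1 : ℝ) + D ≤ (x j).1 by linarith)
    · rcases le_abs.1 h with h | h
      · exact Or.inr (Or.inr (Or.inr (show ((x j).2 : ℝ) + D ≤ (x i).2 by linarith)))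
      · exact Or.inr (Or.inr (Or.inl (show ((x i).2 : ℝ) + D ≤ (x j).2 by linarith)))

/-- **tails**: two weights which agree on the loops which do not reach far -/
theorem tail {z : Z2} {ρ D L e : ℝ} {π : Fin m → Bool} (hπ : PSys.NT π) {g g' : X.W → ℝ} (hg : X.IsW g)
    (hg' : X.IsW g') {x : Fin m → Z2} (hb : ∀ i, |((x i).1 : ℝ) - z.1| ≤ ρ ∧ |((x i).2 : ℝ) - z.2| ≤ ρ)
    (hD : ∀ i j, i ≠ j → D ≤ |((x i).1 : ℝ) - (x j).1| ∨ D ≤ |((x i).2 : ℝ) - (x j).2|)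
    (hfin : X.near g D (ρ + 1) z ≠ ⊤) (he : 0 ≤ e) (hn : X.near g L (ρ + 1) z ≤ ENNReal.ofReal e)
    (hn' : X.near g' L (ρ + 1) z ≤ ENNReal.ofReal e)
    (hw : ∀ w : X.W, ¬ (X.Ext L w ∧ X.Nr (ρ + 1) z w) → X.Nr (ρ + 1) z w → g w = g' w) :
    |X.PX g π x - X.PX g' π x| ≤ 2 * e := by
  classical
  have hl : LO S 0 z ρ D (obf S ∅ (fun _ _ => 0) x) fun i => pbx (x i) := lo_pts _ hb hD
  rw [← PO_pts g 0 π (fun _ _ => 0) x, ← PO_pts g' 0 π (fun _ _ => 0) x, PO_eq, PO_eq]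
  rw [near_eq] at hn hn'
  have h01 : ∀ w : X.W, |X.pr 0 π (obf S ∅ (fun _ _ => 0) x) w| ≤ 1 := fun w => by
    rw [pr_pts]
    split_ifs <;> norm_num
  have := tsum_sub_weight (C := 1) (fun w => hg.nn w) (fun w => hg'.nn w) zero_le_one he hn hn' h01
    (fun w hE hF => hw w hE (hl.nr hπ hF)) (hl.summable hπ hg hfin)
  simpa using this

/-- **equicontinuity** -/
theorem equi {z : Z2} {ρ ρ' D e : ℝ} {π : Fin m → Bool} (hπ : PSys.NT π) {g : X.W → ℝ} (hg : X.IsW g)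
    {x x' : Fin m → Z2} (hb : ∀ i, |((x i).1 : ℝ) - z.1| ≤ ρ ∧ |((x i).2 : ℝ) - z.2| ≤ ρ)
    (hD : ∀ i j, i ≠ j → D ≤ |((x i).1 : ℝ) - (x j).1| ∨ D ≤ |((x i).2 : ℝ) - (x j).2|)
    (hD' : ∀ i j, i ≠ j → D ≤ |((x' i).1 : ℝ) - (x' j).1| ∨ D ≤ |((x' i).2 : ℝ) - (x' j).2|)
    (hx : ∀ i, |((x i).1 : ℝ) - (x' i).1| ≤ ρ' ∧ |((x i).2 : ℝ) - (x' i).2| ≤ ρ')
    (hfin : X.near g D (ρ + 1) z ≠ ⊤) (he : 0 ≤ e) (hn : ∀ i, X.near g D (ρ' + 1) (x i) ≤ ENNReal.ofReal e) :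
    |X.PX g π x - X.PX g π x'| ≤ m * e := by
  classical
  rcases Nat.eq_zero_or_pos m with hm | hm
  · subst hm
    obtain ⟨⟨i, -⟩, -⟩ := hπ
    exact i.elim0
  have hρ' : 0 ≤ ρ' := (abs_nonneg _).trans (hx ⟨0, hm⟩).1
  have hl : LO S 0 z ρ D (obf S ∅ (fun _ _ => 0) x) fun i => pbx (x i) := lo_pts _ hb hD
  have hb' : ∀ i, |((x' i).1 : ℝ) - z.1| ≤ ρ + ρ' ∧ |((x' i).2 : ℝ) - z.2| ≤ ρ + ρ' := fun i => by
    have h1 := hb i
    have h2 := hx i
    simp only [abs_le] at h1 h2 ⊢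
    refine ⟨⟨?_, ?_⟩, ?_, ?_⟩ <;> linarith [h1.1.1, h1.1.2, h1.2.1, h1.2.2, h2.1.1, h2.1.2, h2.2.1, h2.2.2]
  have hl' : LO S 0 z (ρ + ρ') D (obf S ∅ (fun _ _ => 0) x') fun i => pbx (x' i) := lo_pts _ hb' hD'
  rw [← PO_pts g 0 π (fun _ _ => 0) x, ← PO_pts g 0 π (fun _ _ => 0) x', PO_eq, PO_eq]
  set E : Set X.W := ⋃ i ∈ (Finset.univ : Finset (Fin m)), {w | X.Ext D w ∧ X.Nr (ρ' + 1) (x i) w} with hE
  have hmE : ms g E ≤ ENNReal.ofReal (m * e) := by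
    refine (ms_biUnion _ _).trans ?_
    refine (Finset.sum_le_sum fun i _ => (X.near_eq g _ _ _).symm.le.trans (hn i)).trans ?_
    rw [Finset.sum_const, Finset.card_univ, Fintype.card_fin, nsmul_eq_mul, ENNReal.ofReal_mul (Nat.cast_nonneg m),
      ENNReal.ofReal_natCast]
  have h01 : ∀ w : X.W, |X.pr 0 π (obf S ∅ (fun _ _ => 0) x) w - X.pr 0 π (obf S ∅ (fun _ _ => 0) x') w| ≤ 1 :=
    fun w => by
      rw [pr_pts, pr_pts]
      split_ifs <;> norm_num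
  have := tsum_sub_le (C := 1) (e := m * e) (fun w => hg.nn w) zero_le_one (by positivity) hmE h01 (fun w hw => ?_)
    (hl.summable hπ hg hfin)
  · rwa [one_mul] at this
  · by_contra hne
    have hext : X.Ext D w := by
      by_cases h0 : X.pr 0 π (obf S ∅ (fun _ _ => 0) x) w = 0
      · have h1 : X.pr 0 π (obf S ∅ (fun _ _ => 0) x') w ≠ 0 := fun h => hne (h0.trans h.symm)
        exact hl'.ext hπ h1
      · exact hl.ext hπ h0
    have hd : ∃ i, ¬ (X.ip (x i) w ↔ X.ip (x' i) w) := by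
      by_contra hc
      push Not at hc
      apply hne
      rw [pr_pts, pr_pts]
      have : (∀ i, X.ip (x i) w ↔ π i = true) ↔ (∀ i, X.ip (x' i) w ↔ π i = true) := by
        exact forall_congr' fun i => by rw [hc i]
      by_cases h : ∀ i, X.ip (x i) w ↔ π i = true
      · rw [if_pos h, if_pos (this.1 h)]
      · rw [if_neg h, if_neg fun h' => h (this.2 h')]
    obtain ⟨i, hi⟩ := hd
    have hs : ∃ s ∈ X.st w, min (x i).1 (x' i).1 - 1 ≤ s.1 ∧ s.1 ≤ max (x i).1 (x' i).1 + 1 ∧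
        min (x i).2 (x' i).2 - 1 ≤ s.2 ∧ s.2 ≤ max (x i).2 (x' i).2 + 1 := by
      by_cases h : X.ip (x i) w
      · exact X.ip_sep w _ _ h fun h' => hi ⟨fun _ => h', fun _ => h⟩
      · have h' : X.ip (x' i) w := by
          by_contra h'
          exact hi ⟨fun h2 => absurd h2 h, fun h2 => absurd h2 h'⟩
        obtain ⟨s, hs, a1, a2, a3, a4⟩ := X.ip_sep w _ _ h' h
        exact ⟨s, hs, by rwa [min_comm], by rwa [max_comm], by rwa [min_comm], by rwa [max_comm]⟩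
    obtain ⟨s, hs, a1, a2, a3, a4⟩ := hs
    have a1 : min ((x i).1 : ℝ) (x' i).1 - 1 ≤ s.1 := by exact_mod_cast a1
    have a2 : (s.1 : ℝ) ≤ max ((x i).1 : ℝ) (x' i).1 + 1 := by exact_mod_cast a2
    have a3 : min ((x i).2 : ℝ) (x' i).2 - 1 ≤ s.2 := by exact_mod_cast a3
    have a4 : (s.2 : ℝ) ≤ max ((x i).2 : ℝ) (x' i).2 + 1 := by exact_mod_cast a4
    obtain ⟨h1, h2⟩ := hx i
    rw [abs_le] at h1 h2
    have m1 : ((x i).1 : ℝ) - ρ' ≤ min ((x i).1 : ℝ) (x' i).1 := le_min (by linarith) (by linarith)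
    have m2 : max ((x i).1 : ℝ) (x' i).1 ≤ (x i).1 + ρ' := max_le (by linarith) (by linarith)
    have m3 : ((x i).2 : ℝ) - ρ' ≤ min ((x i).2 : ℝ) (x' i).2 := le_min (by linarith) (by linarith)
    have m4 : max ((x i).2 : ℝ) (x' i).2 ≤ (x i).2 + ρ' := max_le (by linarith) (by linarith)
    refine hw (Set.mem_iUnion₂.2 ⟨i, Finset.mem_univ i, hext, s, hs, ?_, ?_⟩)
    · rw [abs_le]; constructor <;> linarith
    · rw [abs_le]; constructor <;> linarith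

end WSys

/-- translation invariance of the honeycomb pattern function -/
theorem Pf_tr {S : PSys} {m : ℕ} (π : Fin m → Bool) (x : Fin m → Z2) (t : Z2) :
    S.Pf π (fun i => x i + t) = S.Pf π x := by
  classical
  unfold PSys.Pf
  rw [← (S.tr t).tsum_eq]
  refine tsum_congr fun w => ?_
  have : (∀ i, S.ip (x i + t) (S.tr t w) ↔ π i = true) ↔ (∀ i, S.ip (x i) w ↔ π i = true) :=
    forall_congr' fun i => by rw [← S.tr_ip]
  by_cases h : ∀ i, S.ip (x i) w ↔ π i = true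
  · rw [if_pos h, if_pos (this.2 h), S.tr_M]
  · rw [if_neg h, if_neg fun h' => h (this.1 h')]

end Pool.Agent.ROT.U
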