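import Pool.Agent.ROT.UFlowD

/-!
# ROT, UNIV, side A: the flow for points with different columns (helper53)
-/

set_option autoImplicit false

open Finset Filter Topology

namespace Pool.Agent.ROT.U

open Pool.Agent.ROT.A

namespace WSys

variable {S : PSys} {X : WSys S} {m : ℕ}

/-- the position of the tracer of the point `x` in the lattice `k` -/
noncomputable def Pk (N : ℕ) (κ a b : ℝ) (k : ℤ) (x : Z2) : ℝ × ℝ :=
  (x.1 / N + 2 * κ + (a - 1) * (x.1 - k) / N, x.2 / N - b * (x.1 - k) / N)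

/-- the tracer of the point `x i` -/
noncomputable def Gk (G : (Fin 4 → ℝ) → ℝ) (N : ℕ) (κ a b : ℝ) (k : ℤ) (x : Fin m → Z2) (i : Fin m)
    (y : Fin 4 → ℝ) : ℝ := G (y - pv (Pk N κ a b k (x i)))

/-- the points which are still tracers -/
def Jk (x : Fin m → Z2) (k : ℤ) : Finset (Fin m) := univ.filter fun i => k < (x i).1

theorem mem_Jk {x : Fin m → Z2} {k : ℤ} {i : Fin m} : i ∈ Jk x k ↔ k < (x i).1 := by
  unfold Jk
  rw [Finset.mem_filter]
  exact ⟨fun h => h.2, fun h => ⟨Finset.mem_univ _, h⟩⟩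

theorem Gk_shift (G : (Fin 4 → ℝ) → ℝ) (N : ℕ) (κ a b : ℝ) (k : ℤ) (x : Fin m → Z2) :
    (fun i y => Gk G N κ a b (k + 1) x i (y + sh N a b)) = Gk G N κ a b k x := by
  funext i y
  unfold Gk
  congr 1
  have h : pv (Pk N κ a b (k + 1) (x i)) = pv (Pk N κ a b k (x i)) + sh N a b := by
    funext u
    fin_cases u
    · show (x i).1 / (N : ℝ) + 2 * κ + (a - 1) * ((x i).1 - ((k + 1 : ℤ) : ℝ)) / N =
        (x i).1 / (N : ℝ) + 2 * κ + (a - 1) * ((x i).1 - k) / N + -(a - 1) / N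
      push_cast
      ring
    · show (x i).1 / (N : ℝ) + 2 * κ + (a - 1) * ((x i).1 - ((k + 1 : ℤ) : ℝ)) / N =
        (x i).1 / (N : ℝ) + 2 * κ + (a - 1) * ((x i).1 - k) / N + -(a - 1) / N
      push_cast
      ring
    · show (x i).2 / (N : ℝ) - b * ((x i).1 - ((k + 1 : ℤ) : ℝ)) / N = (x i).2 / (N : ℝ) - b * ((x i).1 - k) / N + b / N
      push_cast
      ring
    · show (x i).2 / (N : ℝ) - b * ((x i).1 - ((k + 1 : ℤ) : ℝ)) / N = (x i).2 / (N : ℝ) - b * ((x i).1 - k) / N + b / N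
      push_cast
      ring
  rw [h]
  abel

/-- **the data at a fixed `N`** -/
structure Su (X : WSys S) (N n : ℕ) (a b A R L κ δ Λ d c1 e Cm : ℝ) (G : (Fin 4 → ℝ) → ℝ) (x : Fin m → Z2) :
    Prop where
  hN : 0 < N
  ha : 1 ≤ a
  haA : a ≤ A
  hb : 0 ≤ b
  hbA : b ≤ A
  hR : 0 ≤ R
  hL : 0 ≤ L
  hκ : 0 < κ
  hκ4 : κ ≤ 1 / 4
  hκd : 32 * κ ≤ d
  hκN : 3 ≤ κ * N
  hδ : 0 < δ
  hd : 0 < d
  G0 : ∀ y, 0 ≤ G y
  Gs : ∀ y, G y ≠ 0 → (∀ u, |y u| ≤ κ) ∧ δ ≤ y 1 - y 0 ∧ δ ≤ y 3 - y 2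
  Gb : ∀ y, |G y| ≤ Λ
  Gl : ∀ y z, |G (y + z) - G y| ≤ Λ * ‖z‖
  Gl2 : ∀ y z z', |G (y + z + z') - G (y + z) - G (y + z') + G y| ≤ Λ * ‖z‖ * ‖z'‖
  Gm : ∀ P : ℝ × ℝ, (|P.1| + κ) * N ≤ n → (|P.2| + κ) * N ≤ n →
    |∑ v ∈ S.box n, S.M v * G (S.hN N v - pv P) - 1| ≤ c1
  hc1 : c1 ≤ 1
  hx : ∀ i, |((x i).1 : ℝ)| ≤ R * N ∧ |((x i).2 : ℝ)| ≤ R * N
  hxd : ∀ i j, i ≠ j → d * N ≤ |((x i).1 : ℝ) - (x j).1|
  hn : (R + A * (R + L + 1) + 1 + 1) * N ≤ n
  he : 0 ≤ e
  hCm : 0 ≤ Cm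
  near1 : ∀ g, X.IsW g → ∀ y, X.near g (d / 2 * N) (5 * κ * N) y ≤ ENNReal.ofReal e
  near2 : ∀ g, X.IsW g → ∀ y, X.near g (d / 2 * N) ((R + A * (R + L + 1) + 1) * N + 1) y ≤ ENNReal.ofReal Cm

namespace Su

variable {N n : ℕ} {a b A R L κ δ Λ d c1 e Cm : ℝ} {G : (Fin 4 → ℝ) → ℝ} {x : Fin m → Z2}
  (h : Su X N n a b A R L κ δ Λ d c1 e Cm G x)

include h

theorem N' : (0 : ℝ) < N := by exact_mod_cast h.hN

theorem N1 : (1 : ℝ) ≤ N := by exact_mod_cast h.hN

/-- the size of the positions -/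
theorem pos {k : ℤ} (hk : |(k : ℝ)| ≤ (L + 1) * N) {i : Fin m} (hi : (k : ℝ) ≤ (x i).1) :
    |(Pk N κ a b k (x i)).1| + κ ≤ R + A * (R + L + 1) + 1 ∧
      |(Pk N κ a b k (x i)).2| + κ ≤ R + A * (R + L + 1) + 1 := by
  have hN := h.N'
  obtain ⟨h1, h2⟩ := h.hx i
  have e1 : |((x i).1 : ℝ) / N| ≤ R := by
    rw [abs_div, Nat.abs_cast, div_le_iff₀ hN]; exact h1
  have e2 : |((x i).2 : ℝ) / N| ≤ R := by
    rw [abs_div, Nat.abs_cast, div_le_iff₀ hN]; exact h2
  have e3 : 0 ≤ ((x i).1 - k : ℝ) / N := div_nonneg (by linarith) hN.le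
  have e4 : ((x i).1 - k : ℝ) / N ≤ R + L + 1 := by
    rw [div_le_iff₀ hN]
    rw [abs_le] at h1 hk
    linarith
  have hκ4 := h.hκ4
  have ha := h.ha
  have haA := h.haA
  have hb := h.hb
  have hbA := h.hbA
  have e5 : (a - 1) * (((x i).1 - k : ℝ) / N) ≤ A * (R + L + 1) :=
    mul_le_mul (by linarith) e4 e3 (by linarith)
  have e6 : 0 ≤ (a - 1) * (((x i).1 - k : ℝ) / N) := mul_nonneg (by linarith) e3
  have e7 : b * (((x i).1 - k : ℝ) / N) ≤ A * (R + L + 1) := mul_le_mul hbA e4 e3 (by linarith)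
  have e8 : 0 ≤ b * (((x i).1 - k : ℝ) / N) := mul_nonneg hb e3
  have p1 : (Pk N κ a b k (x i)).1 = (x i).1 / N + 2 * κ + (a - 1) * (((x i).1 - k : ℝ) / N) := by
    unfold Pk; ring
  have p2 : (Pk N κ a b k (x i)).2 = (x i).2 / N - b * (((x i).1 - k : ℝ) / N) := by
    unfold Pk; ring
  have hκ := h.hκ
  rw [abs_le] at e1 e2
  constructor
  · have : |(Pk N κ a b k (x i)).1| ≤ R + A * (R + L + 1) + 1 - κ := by
      rw [p1, abs_le]; constructor <;> linarith [e1.1, e1.2]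
    linarith
  · have : |(Pk N κ a b k (x i)).2| ≤ R + A * (R + L + 1) + 1 - κ := by
      rw [p2, abs_le]; constructor <;> linarith [e2.1, e2.2]
    linarith

/-- the test functions -/
theorem tf {k : ℤ} (hk : |(k : ℝ)| ≤ (L + 1) * N) {i : Fin m} (hi : (k : ℝ) ≤ (x i).1) :
    Tf1 (R + A * (R + L + 1) + 1) δ Λ (Gk G N κ a b k x i) := by
  obtain ⟨q1, q2⟩ := h.pos hk hi
  refine ⟨fun y => h.Gb _, fun y z => ?_, fun y z z' => ?_, fun y hy => ?_⟩
  · unfold Gk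
    have := h.Gl (y - pv (Pk N κ a b k (x i))) z
    rwa [show y - pv (Pk N κ a b k (x i)) + z = y + z - pv (Pk N κ a b k (x i)) by abel] at this
  · unfold Gk
    have := h.Gl2 (y - pv (Pk N κ a b k (x i))) z z'
    rwa [show y - pv (Pk N κ a b k (x i)) + z + z' = y + z + z' - pv (Pk N κ a b k (x i)) by abel,
      show y - pv (Pk N κ a b k (x i)) + z = y + z - pv (Pk N κ a b k (x i)) by abel,
      show y - pv (Pk N κ a b k (x i)) + z' = y + z' - pv (Pk N κ a b k (x i)) by abel] at this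
  · obtain ⟨s1, s2, s3⟩ := h.Gs _ hy
    have t0 : |y 0 - (Pk N κ a b k (x i)).1| ≤ κ := s1 0
    have t1 : |y 1 - (Pk N κ a b k (x i)).1| ≤ κ := s1 1
    have t2 : |y 2 - (Pk N κ a b k (x i)).2| ≤ κ := s1 2
    have t3 : |y 3 - (Pk N κ a b k (x i)).2| ≤ κ := s1 3
    have a2 : δ ≤ (y 1 - (Pk N κ a b k (x i)).1) - (y 0 - (Pk N κ a b k (x i)).1) := s2
    have a3 : δ ≤ (y 3 - (Pk N κ a b k (x i)).2) - (y 2 - (Pk N κ a b k (x i)).2) := s3
    refine ⟨fun u => ?_, by linarith, by linarith⟩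
    have key : ∀ p q : ℝ, |p - q| ≤ κ → |q| + κ ≤ R + A * (R + L + 1) + 1 → |p| ≤ R + A * (R + L + 1) + 1 := by
      intro p q h1 h2
      have : |p| ≤ |p - q| + |q| := by
        have := abs_add_le (p - q) q
        rwa [sub_add_cancel] at this
      linarith
    fin_cases u
    · exact key _ _ t0 q1
    · exact key _ _ t1 q1
    · exact key _ _ t2 q2
    · exact key _ _ t3 q2

/-- the support of a tracer, in lattice units -/
theorem sup {k : ℤ} {i : Fin m} {v : S.P} (hv : Gk G N κ a b k x i (S.hN N v) ≠ 0) :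
    ((x i).1 : ℝ) + (a - 1) * ((x i).1 - k) + κ * N ≤ S.ht v 0 ∧
      (S.ht v 1 : ℝ) ≤ (x i).1 + (a - 1) * ((x i).1 - k) + 3 * κ * N ∧
      ((x i).2 : ℝ) - b * ((x i).1 - k) - κ * N ≤ S.ht v 2 ∧
      (S.ht v 3 : ℝ) ≤ (x i).2 - b * ((x i).1 - k) + κ * N := by
  have hN := h.N'
  obtain ⟨s1, -, -⟩ := h.Gs _ hv
  have t0 : |(S.ht v 0 : ℝ) / N - (Pk N κ a b k (x i)).1| ≤ κ := s1 0
  have t1 : |(S.ht v 1 : ℝ) / N - (Pk N κ a b k (x i)).1| ≤ κ := s1 1
  have t2 : |(S.ht v 2 : ℝ) / N - (Pk N κ a b k (x i)).2| ≤ κ := s1 2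
  have t3 : |(S.ht v 3 : ℝ) / N - (Pk N κ a b k (x i)).2| ≤ κ := s1 3
  have p1 : (Pk N κ a b k (x i)).1 = ((x i).1 + 2 * κ * N + (a - 1) * ((x i).1 - k)) / N := by
    unfold Pk
    field_simp
  have p2 : (Pk N κ a b k (x i)).2 = ((x i).2 - b * ((x i).1 - k)) / N := by
    unfold Pk
    field_simp
  rw [p1, ← sub_div, abs_div, Nat.abs_cast, div_le_iff₀ hN, abs_le] at t0 t1
  rw [p2, ← sub_div, abs_div, Nat.abs_cast, div_le_iff₀ hN, abs_le] at t2 t3
  refine ⟨by linarith [t0.1], by linarith [t1.2], by linarith [t2.1], by linarith [t3.2]⟩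

/-- the mass of a tracer -/
theorem mass {k : ℤ} (hk : |(k : ℝ)| ≤ (L + 1) * N) {i : Fin m} (hi : (k : ℝ) ≤ (x i).1) :
    |∑ v ∈ S.box n, S.M v * Gk G N κ a b k x i (S.hN N v) - 1| ≤ c1 := by
  obtain ⟨q1, q2⟩ := h.pos hk hi
  have hN := h.N'
  have hn := h.hn
  refine h.Gm _ ?_ ?_
  · refine le_trans ?_ hn
    exact mul_le_mul_of_nonneg_right (by linarith) hN.le
  · refine le_trans ?_ hn
    exact mul_le_mul_of_nonneg_right (by linarith) hN.le

/-- the boxes of the objects in the lattice `l` -/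
noncomputable def bx (_h : Su X N n a b A R L κ δ Λ d c1 e Cm G x) (l : ℤ) (i : Fin m) : Bx :=
  ⟨((x i).1 : ℝ) + (a - 1) * max ((x i).1 - l : ℝ) 0 - κ * N, ((x i).1 : ℝ) + (a - 1) * max ((x i).1 - l : ℝ) 0 + 3 * κ * N,
    ((x i).2 : ℝ) - b * max ((x i).1 - l : ℝ) 0 - κ * N, ((x i).2 : ℝ) - b * max ((x i).1 - l : ℝ) 0 + κ * N⟩

/-- **the objects are located** -/
theorem lo {l : ℤ} (hl : |(l : ℝ)| ≤ (L + 1) * N) {J : Finset (Fin m)} (hJ : ∀ i ∈ J, l ≤ (x i).1)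
    (hJ' : ∀ i, i ∉ J → (x i).1 ≤ l) :
    LO S n 0 ((R + A * (R + L + 1) + 1) * N) (d / 2 * N) (ob S N J (Gk G N κ a b l x) x) (h.bx l) := by
  have hN := h.N'
  have hκ := h.hκ
  have hκN : 0 < κ * N := mul_pos hκ hN
  have ha := h.ha
  have haA := h.haA
  have hb := h.hb
  have hbA := h.hbA
  refine ⟨fun i => ?_, fun i => ?_, fun i j hij => ?_⟩
  · by_cases hi : i ∈ J
    · rw [ob_eq, obf_mem hi]
      have hli : (l : ℝ) ≤ (x i).1 := by exact_mod_cast hJ i hi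
      have hmax : max ((x i).1 - l : ℝ) 0 = (x i).1 - l := max_eq_left (by linarith)
      refine ⟨fun v => h.G0 _, fun v _ hv => ?_, ?_⟩
      · obtain ⟨s0, s1, s2, s3⟩ := h.sup hv
        unfold bx
        rw [hmax]
        exact ⟨by dsimp only; linarith, by dsimp only; linarith, by dsimp only; linarith, by dsimp only; linarith⟩
      · have := (abs_le.1 (h.mass hl hli)).2
        have := h.hc1
        show ∑ v ∈ S.box n, S.M v * Gk G N κ a b l x i (S.hN N v) ≤ 2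
        linarith
    · rw [ob_eq, obf_not hi]
      have hli : ((x i).1 : ℝ) ≤ l := by exact_mod_cast hJ' i hi
      have hmax : max ((x i).1 - l : ℝ) 0 = 0 := max_eq_right (by linarith)
      unfold bx
      rw [hmax]
      refine ⟨?_, ?_, ?_, ?_, by norm_num⟩ <;> dsimp only <;> linarith
  · -- the ball
    obtain ⟨h1, h2⟩ := h.hx i
    have hm0 : 0 ≤ max ((x i).1 - l : ℝ) 0 := le_max_right _ _
    have hm1 : max ((x i).1 - l : ℝ) 0 ≤ (R + L + 1) * N := by
      refine max_le ?_ ?_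
      · rw [abs_le] at h1 hl
        linarith
      · have := h.hR
        have := h.hL
        positivity
    have e1 : (a - 1) * max ((x i).1 - l : ℝ) 0 ≤ A * ((R + L + 1) * N) :=
      mul_le_mul (by linarith) hm1 hm0 (by linarith)
    have e2 : 0 ≤ (a - 1) * max ((x i).1 - l : ℝ) 0 := mul_nonneg (by linarith) hm0
    have e3 : b * max ((x i).1 - l : ℝ) 0 ≤ A * ((R + L + 1) * N) := mul_le_mul hbA hm1 hm0 (by linarith)
    have e4 : 0 ≤ b * max ((x i).1 - l : ℝ) 0 := mul_nonneg hb hm0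
    have hκ4 := h.hκ4
    have e5 : κ * N ≤ 1 / 4 * N := by gcongr
    rw [abs_le] at h1 h2
    unfold bx
    refine ⟨?_, ?_, ?_, ?_⟩ <;> dsimp only [Prod.fst_zero, Prod.snd_zero] <;> push_cast <;> nlinarith
  · -- the columns
    have hc := h.hxd i j hij
    have hκd := h.hκd
    have e5 : 32 * κ * N ≤ d * N := by gcongr
    have mono : ∀ s t : ℝ, s ≤ t → (a - 1) * max (s - l) 0 ≤ (a - 1) * max (t - l) 0 := fun s t hst =>
      mul_le_mul_of_nonneg_left (max_le_max (by linarith) le_rfl) (by linarith)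
    rcases le_abs.1 hc with hc | hc
    · have := mono (x j).1 (x i).1 (by
        have : 0 < d * N := mul_pos h.hd hN
        linarith)
      right; left
      unfold bx
      dsimp only
      linarith
    · have := mono (x i).1 (x j).1 (by
        have : 0 < d * N := mul_pos h.hd hN
        linarith)
      left
      unfold bx
      dsimp only
      linarith

/-- **admissible** -/
theorem adm {k l : ℤ} (hk : |(k : ℝ)| ≤ L * N) (hl : |(l : ℝ)| ≤ (L + 1) * N) {J : Finset (Fin m)}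
    (hJ : ∀ i ∈ J, k ≤ (x i).1 ∧ l ≤ (x i).1) (hJ' : ∀ i, i ∉ J → (x i).1 ≤ k) :
    Adm N (R + A * (R + L + 1) + 1) δ Λ κ (d / 2) k J (Gk G N κ a b l x) x := by
  have hN := h.N'
  have hR := h.hR
  have hL := h.hL
  have ha := h.ha
  have haA := h.haA
  have hAR : R ≤ R + A * (R + L + 1) + 1 := by
    have : 0 ≤ A * (R + L + 1) := mul_nonneg (by linarith) (by linarith)
    linarith
  have hAL : L ≤ R + A * (R + L + 1) + 1 := by
    have : 1 * (R + L + 1) ≤ A * (R + L + 1) := mul_le_mul_of_nonneg_right (by linarith) (by linarith)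
    linarith
  refine ⟨hk.trans (by gcongr), fun i hi => ⟨hJ' i hi, (h.hx i).1.trans (by gcongr), (h.hx i).2.trans (by gcongr)⟩,
    fun i hi => h.tf hl (by exact_mod_cast (hJ i hi).2), fun i _ y => h.G0 _, fun i hi y hy => ?_,
    fun i j _ _ hij => le_trans (by
      have := h.hd
      gcongr
      linarith) (h.hxd i j hij), fun i hi j hj hij y z hy hz => ?_⟩
  · obtain ⟨s1, -, -⟩ := h.Gs _ hy
    have t0 : |y 0 - (Pk N κ a b l (x i)).1| ≤ κ := s1 0
    rw [abs_le] at t0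
    have hki : (k : ℝ) / N ≤ (x i).1 / N := by
      have : (k : ℝ) ≤ (x i).1 := by exact_mod_cast (hJ i hi).1
      gcongr
    have hli : 0 ≤ (a - 1) * ((x i).1 - l : ℝ) / N := by
      have : (l : ℝ) ≤ (x i).1 := by exact_mod_cast (hJ i hi).2
      exact div_nonneg (mul_nonneg (by linarith) (by linarith)) hN.le
    have p1 : (Pk N κ a b l (x i)).1 = (x i).1 / N + 2 * κ + (a - 1) * ((x i).1 - l) / N := rfl
    rw [p1] at t0
    linarith [t0.1]
  · obtain ⟨s1, -, -⟩ := h.Gs _ hy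
    obtain ⟨r1, -, -⟩ := h.Gs _ hz
    have t0 : |y 0 - (Pk N κ a b l (x i)).1| ≤ κ := s1 0
    have t1 : |y 1 - (Pk N κ a b l (x i)).1| ≤ κ := s1 1
    have u0 : |z 0 - (Pk N κ a b l (x j)).1| ≤ κ := r1 0
    have u1 : |z 1 - (Pk N κ a b l (x j)).1| ≤ κ := r1 1
    have hc := h.hxd i j hij
    have hκd := h.hκd
    have key : ∀ p q : Z2, d * N ≤ (p.1 : ℝ) - q.1 → (Pk N κ a b l q).1 + d ≤ (Pk N κ a b l p).1 := by
      intro p q hpq
      have e1 : (Pk N κ a b l p).1 - (Pk N κ a b l q).1 = a * ((p.1 : ℝ) - q.1) / N := by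
        unfold Pk; ring
      have e2 : d ≤ a * ((p.1 : ℝ) - q.1) / N := by
        rw [le_div_iff₀ hN]
        have : 0 < d * N := mul_pos h.hd hN
        nlinarith
      linarith
    rw [abs_le] at t0 t1 u0 u1
    rcases le_abs.1 hc with hc | hc
    · right
      have := key (x i) (x j) hc
      linarith [u1.2, t0.1]
    · left
      have := key (x j) (x i) (by linarith)
      linarith [t1.2, u0.1]

/-- the value in the lattice `k` -/
noncomputable def V (_h : Su X N n a b A R L κ δ Λ d c1 e Cm G x) (π : Fin m → Bool) (k : ℤ) : ℝ :=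
  X.PO (X.wt k) n π (ob S N (Jk x k) (Gk G N κ a b k x) x)

/-- **the conversion at `k + 1`** -/
theorem convert {π : Fin m → Bool} (hπ : PSys.NT π) {k : ℤ} (hk1 : |((k + 1 : ℤ) : ℝ)| ≤ (L + 1) * N) :
    |X.PO (X.wt (k + 1)) n π (ob S N (Jk x k) (Gk G N κ a b (k + 1) x) x) - h.V π (k + 1)| ≤
      (2 ^ (m + 1) * e + c1 * (2 ^ m * Cm)) * ((Jk x k).card - (Jk x (k + 1)).card : ℝ) := by
  have hN := h.N'
  have hκN := h.hκN
  by_cases hex : ∃ i, (x i).1 = k + 1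
  · obtain ⟨i, hi⟩ := hex
    have huniq : ∀ j, (x j).1 = k + 1 → j = i := by
      intro j hj
      by_contra hne
      have := h.hxd j i hne
      rw [hi, hj, sub_self, abs_zero] at this
      have : 0 < d * N := mul_pos h.hd hN
      linarith
    have hmem : i ∈ Jk x k := mem_Jk.2 (by omega)
    have herase : Jk x (k + 1) = (Jk x k).erase i := by
      ext j
      rw [mem_Jk, Finset.mem_erase, mem_Jk]
      constructor
      · intro hj
        exact ⟨fun h' => by rw [h', hi] at hj; omega, by omega⟩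
      · rintro ⟨h1, h2⟩
        have : (x j).1 ≠ k + 1 := fun h' => h1 (huniq j h')
        omega
    have hcard : ((Jk x k).card - (Jk x (k + 1)).card : ℝ) = 1 := by
      rw [herase, Finset.card_erase_of_mem hmem, Nat.cast_sub (Finset.card_pos.2 ⟨i, hmem⟩)]
      push_cast
      ring
    rw [hcard, mul_one]
    unfold V
    rw [ob_eq, ob_eq, herase]
    have l1 := h.lo (l := k + 1) hk1 (J := Jk x k) (fun j hj => by rw [mem_Jk] at hj; omega)
      (fun j hj => by rw [mem_Jk] at hj; omega)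
    have l2 := h.lo (l := k + 1) hk1 (J := (Jk x k).erase i)
      (fun j hj => by
        have := Finset.mem_of_mem_erase hj
        rw [mem_Jk] at this
        omega)
      (fun j hj => by
        rw [← herase, mem_Jk] at hj
        omega)
    rw [ob_eq] at l1 l2
    have hki : ((k + 1 : ℤ) : ℝ) ≤ (x i).1 := by rw [hi]
    refine conv1 (z := 0) (ρ := 5 * κ * N) hπ (IsW.t _) hmem l1 l2 (by linarith) (fun v _ hv => ?_) ?_ h.hCm
      (h.near2 _ (IsW.t _) _) h.he (h.near1 _ (IsW.t _) _)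
    · obtain ⟨s0, s1, s2, s3⟩ := h.sup hv
      have e0 : ((x i).1 : ℝ) - ((k + 1 : ℤ) : ℝ) = 0 := by rw [hi]; ring
      rw [e0, mul_zero] at s0 s1 s2 s3
      have hκ := h.hκ
      refine ⟨by linarith, by linarith, by linarith, by linarith⟩
    · exact h.mass hk1 hki
  · push Not at hex
    have heq : Jk x k = Jk x (k + 1) := by
      ext j
      rw [mem_Jk, mem_Jk]
      have := hex j
      omega
    unfold V
    rw [heq, sub_self, sub_self, mul_zero, abs_zero]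

/-- **the flow** -/
theorem flow {π : Fin m → Bool} (hπ : PSys.NT π) {εs : ℝ} (k0 : ℤ) (T : ℕ)
    (hk : ∀ t : ℕ, t ≤ T → |((k0 + t : ℤ) : ℝ)| ≤ L * N)
    (hstep : ∀ k : ℤ, |(k : ℝ)| ≤ L * N → Adm N (R + A * (R + L + 1) + 1) δ Λ κ (d / 2) k (Jk x k) (Gk G N κ a b (k + 1) x) x →
      Adm N (R + A * (R + L + 1) + 1) δ Λ κ (d / 2) k (Jk x k) (Gk G N κ a b k x) x →
      |X.PO (X.wt (k + 1)) n π (ob S N (Jk x k) (Gk G N κ a b (k + 1) x) x) -
        X.PO (X.wt k) n π (ob S N (Jk x k) (Gk G N κ a b k x) x)| ≤ εs / N) :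
    ∀ t : ℕ, t ≤ T → |h.V π (k0 + t) - h.V π k0| ≤ t * (εs / N) +
      (2 ^ (m + 1) * e + c1 * (2 ^ m * Cm)) * ((Jk x k0).card - (Jk x (k0 + t)).card : ℝ) := by
  have hN1 := h.N1
  intro t
  induction t with
  | zero => intro _; simp
  | succ t ih =>
    intro ht
    have ih := ih (by omega)
    have hkt := hk t (by omega)
    have hkt1 := hk (t + 1) ht
    set k : ℤ := k0 + t with hkdef
    have e1 : k0 + ((t + 1 : ℕ) : ℤ) = k + 1 := by push_cast; ring
    rw [e1] at hkt1 ⊢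
    have hl : |((k + 1 : ℤ) : ℝ)| ≤ (L + 1) * N := hkt1.trans (by gcongr; linarith)
    have hl0 : |(k : ℝ)| ≤ (L + 1) * N := hkt.trans (by gcongr; linarith)
    have a1 := hstep k hkt
      (h.adm hkt hl (fun i hi => by rw [mem_Jk] at hi; omega) fun i hi => by rw [mem_Jk] at hi; omega)
      (h.adm hkt hl0 (fun i hi => by rw [mem_Jk] at hi; omega) fun i hi => by rw [mem_Jk] at hi; omega)
    have a2 := h.convert hπ hl
    have e2 : X.PO (X.wt k) n π (ob S N (Jk x k) (Gk G N κ a b k x) x) = h.V π k := rfl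
    rw [e2] at a1
    set P := X.PO (X.wt (k + 1)) n π (ob S N (Jk x k) (Gk G N κ a b (k + 1) x) x)
    have e3 : h.V π (k + 1) - h.V π k0 = -(P - h.V π (k + 1)) + (P - h.V π k) + (h.V π k - h.V π k0) := by ring
    rw [e3]
    refine (abs_add_le _ _).trans ?_
    have b1 := abs_add_le (-(P - h.V π (k + 1))) (P - h.V π k)
    rw [abs_neg] at b1
    push_cast
    linarith

end Su

end WSys

end Pool.Agent.ROT.U
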