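import Pool.Agent.ROT.UFlowE

/-!
# ROT, UNIV, side A: the comparison for points with different columns (helper53)
-/

set_option autoImplicit false

open Finset Filter Topology

namespace Pool.Agent.ROT.U

open Pool.Agent.ROT.A

namespace WSys

variable {S : PSys} {X : WSys S} {m : ℕ}

/-- **all tracers become points** -/
theorem conv_all {n : ℕ} {z : Z2} {ρ0 D ρ e c1 Cm : ℝ} {β : Fin m → Bx} {π : Fin m → Bool} (hπ : PSys.NT π)
    {g : X.W → ℝ} (hg : X.IsW g) {f : Fin m → S.P → ℝ} {x : Fin m → Z2}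
    (hl : ∀ J : Finset (Fin m), LO S n z ρ0 D (obf S J f x) β) (hρ : 1 ≤ ρ)
    (hf : ∀ i, ∀ v ∈ S.box n, f i v ≠ 0 → ((x i).1 : ℝ) - ρ + 1 ≤ S.ht v 0 ∧ (S.ht v 1 : ℝ) ≤ (x i).1 + ρ - 1 ∧
      ((x i).2 : ℝ) - ρ + 1 ≤ S.ht v 2 ∧ (S.ht v 3 : ℝ) ≤ (x i).2 + ρ - 1)
    (hμ : ∀ i, |∑ v ∈ S.box n, S.M v * f i v - 1| ≤ c1) (hCm : 0 ≤ Cm)
    (hm : X.near g D (ρ0 + 1) z ≤ ENNReal.ofReal Cm)
    (he : 0 ≤ e) (hn : ∀ i, X.near g D ρ (x i) ≤ ENNReal.ofReal e) :
    |X.PO g n π (obf S univ f x) - X.PX g π x| ≤ m * (2 ^ (m + 1) * e + c1 * (2 ^ m * Cm)) := by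
  have key : ∀ s : Finset (Fin m), |X.PO g n π (obf S univ f x) - X.PO g n π (obf S (univ \ s) f x)| ≤
      s.card * (2 ^ (m + 1) * e + c1 * (2 ^ m * Cm)) := by
    intro s
    induction s using Finset.induction_on with
    | empty => simp
    | insert i s hi ih =>
      have e1 : univ \ insert i s = (univ \ s).erase i := by
        ext j
        simp only [Finset.mem_sdiff, Finset.mem_univ, true_and, Finset.mem_insert, Finset.mem_erase, not_or]
      have h1 := conv1 hπ hg (J := univ \ s) (i := i) (by simpa using hi) (hl _) (hl _) hρ (hf i) (hμ i) hCm hm he (hn i)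
      rw [e1, Finset.card_insert_of_notMem hi]
      have e2 : X.PO g n π (obf S univ f x) - X.PO g n π (obf S ((univ \ s).erase i) f x) =
          (X.PO g n π (obf S univ f x) - X.PO g n π (obf S (univ \ s) f x)) +
            (X.PO g n π (obf S (univ \ s) f x) - X.PO g n π (obf S ((univ \ s).erase i) f x)) := by ring
      rw [e2]
      refine (abs_add_le _ _).trans ?_
      push_cast
      linarith
  have := key univ
  rwa [Finset.sdiff_self, PO_pts, Finset.card_univ, Fintype.card_fin] at this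

namespace Su

variable {N n : ℕ} {a b A R L κ δ Λ d c1 e Cm : ℝ} {G : (Fin 4 → ℝ) → ℝ} {x : Fin m → Z2}
  (h : Su X N n a b A R L κ δ Λ d c1 e Cm G x)

/-- the translation of the start -/
noncomputable def t0 (a b : ℝ) (k0 : ℤ) : Z2 := (⌊-(a - 1) * k0⌋, ⌊b * k0⌋)

/-- the points of the start -/
noncomputable def ys (a b : ℝ) (k0 : ℤ) (x : Fin m → Z2) (i : Fin m) : Z2 := DN a (-b) (x i) + t0 a b k0

theorem ys_1 (a b : ℝ) (k0 : ℤ) (x : Fin m → Z2) (i : Fin m) :
    ((ys a b k0 x i).1 : ℝ) ≤ (x i).1 + (a - 1) * ((x i).1 - k0) ∧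
      (x i).1 + (a - 1) * ((x i).1 - k0) - 2 ≤ (ys a b k0 x i).1 := by
  have e1 : ((ys a b k0 x i).1 : ℝ) = (⌊a * (x i).1⌋ : ℝ) + (⌊-(a - 1) * k0⌋ : ℝ) := by
    show ((⌊a * (x i).1⌋ + ⌊-(a - 1) * k0⌋ : ℤ) : ℝ) = _
    push_cast
    ring
  rw [e1]
  have h1 := Int.floor_le (a * ((x i).1 : ℝ))
  have h2 := Int.lt_floor_add_one (a * ((x i).1 : ℝ))
  have h3 := Int.floor_le (-(a - 1) * (k0 : ℝ))
  have h4 := Int.lt_floor_add_one (-(a - 1) * (k0 : ℝ))
  constructor <;> linarith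

theorem ys_2 (a b : ℝ) (k0 : ℤ) (x : Fin m → Z2) (i : Fin m) :
    ((ys a b k0 x i).2 : ℝ) ≤ (x i).2 - b * ((x i).1 - k0) ∧
      (x i).2 - b * ((x i).1 - k0) - 2 ≤ (ys a b k0 x i).2 := by
  have e1 : ((ys a b k0 x i).2 : ℝ) = (x i).2 + (⌊-b * (x i).1⌋ : ℝ) + (⌊b * k0⌋ : ℝ) := by
    show (((x i).2 + ⌊-b * (x i).1⌋ + ⌊b * k0⌋ : ℤ) : ℝ) = _
    push_cast
    ring
  rw [e1]
  have h1 := Int.floor_le (-b * ((x i).1 : ℝ))
  have h2 := Int.lt_floor_add_one (-b * ((x i).1 : ℝ))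
  have h3 := Int.floor_le (b * (k0 : ℝ))
  have h4 := Int.lt_floor_add_one (b * (k0 : ℝ))
  constructor <;> linarith

/-- the size of the image -/
theorem DN_le (h : Su X N n a b A R L κ δ Λ d c1 e Cm G x) (k0 : ℤ) (i : Fin m) :
    |((ys a b k0 x i).1 : ℝ) - (t0 a b k0).1| ≤ A * R * N + 1 ∧
      |((ys a b k0 x i).2 : ℝ) - (t0 a b k0).2| ≤ R * N + A * R * N + 1 := by
  obtain ⟨h1, h2⟩ := h.hx i
  have ha := h.ha
  have haA := h.haA
  have hb := h.hb
  have hbA := h.hbA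
  have hRN : 0 ≤ R * N := mul_nonneg h.hR h.N'.le
  have e1 : ((ys a b k0 x i).1 : ℝ) - (t0 a b k0).1 = (⌊a * (x i).1⌋ : ℝ) := by
    show ((⌊a * (x i).1⌋ + (t0 a b k0).1 : ℤ) : ℝ) - (t0 a b k0).1 = _
    push_cast
    ring
  have e2 : ((ys a b k0 x i).2 : ℝ) - (t0 a b k0).2 = (x i).2 + (⌊-b * (x i).1⌋ : ℝ) := by
    show (((x i).2 + ⌊-b * (x i).1⌋ + (t0 a b k0).2 : ℤ) : ℝ) - (t0 a b k0).2 = _
    push_cast
    ring
  have h3 := Int.floor_le (a * ((x i).1 : ℝ))
  have h4 := Int.lt_floor_add_one (a * ((x i).1 : ℝ))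
  have h5 := Int.floor_le (-b * ((x i).1 : ℝ))
  have h6 := Int.lt_floor_add_one (-b * ((x i).1 : ℝ))
  have h7 : |a * ((x i).1 : ℝ)| ≤ A * (R * N) := by
    rw [abs_mul, abs_of_nonneg (by linarith : 0 ≤ a)]
    exact mul_le_mul haA h1 (abs_nonneg _) (by linarith)
  have h8 : |-b * ((x i).1 : ℝ)| ≤ A * (R * N) := by
    rw [abs_mul, abs_neg, abs_of_nonneg hb]
    exact mul_le_mul hbA h1 (abs_nonneg _) (by linarith)
  rw [e1, e2]
  rw [abs_le] at h2 h7 h8
  constructor <;> rw [abs_le] <;> constructor <;> linarith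

/-- **the start**: all tracers in the lattice `k0` become the points `ys` -/
theorem start (h : Su X N n a b A R L κ δ Λ d c1 e Cm G x) {π : Fin m → Bool} (hπ : PSys.NT π) {k0 : ℤ}
    (hk : |(k0 : ℝ)| ≤ L * N) (hlt : ∀ i, k0 < (x i).1) :
    |h.V π k0 - X.PX (X.wt k0) π (ys a b k0 x)| ≤ m * (2 ^ (m + 1) * e + c1 * (2 ^ m * Cm)) := by
  have hN := h.N'
  have hN1 := h.N1
  have hκN := h.hκN
  have hκ := h.hκ
  have hκ4 := h.hκ4
  have hκd := h.hκd
  have ha := h.ha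
  have haA := h.haA
  have hb := h.hb
  have hbA := h.hbA
  have hR := h.hR
  have hL := h.hL
  have hk' : |(k0 : ℝ)| ≤ (L + 1) * N := hk.trans (by gcongr; linarith)
  have hJ : Jk x k0 = univ := by
    ext i
    rw [mem_Jk]
    exact ⟨fun _ => Finset.mem_univ _, fun _ => hlt i⟩
  -- the tracer functions as functions with points `ys`
  have hV : h.V π k0 = X.PO (X.wt k0) n π (obf S univ (fun i v => Gk G N κ a b k0 x i (S.hN N v)) (ys a b k0 x)) := by
    unfold V
    rw [ob_eq, hJ]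
    congr 1
    funext i
    rw [obf_mem (Finset.mem_univ i), obf_mem (Finset.mem_univ i)]
  rw [hV]
  set f : Fin m → S.P → ℝ := fun i v => Gk G N κ a b k0 x i (S.hN N v) with hf
  -- support
  have hsup : ∀ i v, f i v ≠ 0 → ((ys a b k0 x i).1 : ℝ) - 4 * κ * N ≤ S.ht v 0 ∧
      (S.ht v 1 : ℝ) ≤ (ys a b k0 x i).1 + 4 * κ * N ∧ ((ys a b k0 x i).2 : ℝ) - 4 * κ * N ≤ S.ht v 2 ∧
      (S.ht v 3 : ℝ) ≤ (ys a b k0 x i).2 + 4 * κ * N := by
    intro i v hv
    obtain ⟨s0, s1, s2, s3⟩ := h.sup hv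
    obtain ⟨u1, u2⟩ := ys_1 a b k0 x i
    obtain ⟨u3, u4⟩ := ys_2 a b k0 x i
    refine ⟨by linarith, by linarith, by linarith, by linarith⟩
  have hmass : ∀ i, |∑ v ∈ S.box n, S.M v * f i v - 1| ≤ c1 := fun i =>
    h.mass hk' (by exact_mod_cast (hlt i).le)
  -- boxes
  set β : Fin m → Bx := fun i => ⟨(ys a b k0 x i).1 - 4 * κ * N, (ys a b k0 x i).1 + 4 * κ * N,
    (ys a b k0 x i).2 - 4 * κ * N, (ys a b k0 x i).2 + 4 * κ * N⟩ with hβ
  have hlo : ∀ J : Finset (Fin m), LO S n (t0 a b k0) ((R + A * (R + L + 1) + 1) * N) (d / 2 * N)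
      (obf S J f (ys a b k0 x)) β := by
    intro J
    refine ⟨fun i => ?_, fun i => ?_, fun i j hij => ?_⟩
    · by_cases hi : i ∈ J
      · rw [obf_mem hi]
        refine ⟨fun v => h.G0 _, fun v _ hv => hsup i v hv, ?_⟩
        have := (abs_le.1 (hmass i)).2
        have := h.hc1
        linarith
      · rw [obf_not hi]
        refine ⟨?_, ?_, ?_, ?_, by norm_num⟩ <;> rw [hβ] <;> dsimp only <;> linarith
    · obtain ⟨q1, q2⟩ := h.DN_le k0 i
      have e0 : 4 * κ * N ≤ 1 * N := by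
        refine mul_le_mul_of_nonneg_right (by linarith) hN.le
      have e1 : A * R * N + 1 + 4 * κ * N ≤ (R + A * (R + L + 1) + 1) * N := by
        have : 0 ≤ A * L * N := mul_nonneg (mul_nonneg (by linarith) hL) hN.le
        have : 1 * N ≤ A * N := by gcongr; linarith
        have : 0 ≤ R * N := mul_nonneg hR hN.le
        nlinarith
      have e2 : R * N + A * R * N + 1 + 4 * κ * N ≤ (R + A * (R + L + 1) + 1) * N := by
        have : 0 ≤ A * L * N := mul_nonneg (mul_nonneg (by linarith) hL) hN.le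
        have : 1 * N ≤ A * N := by gcongr; linarith
        nlinarith
      rw [abs_le] at q1 q2
      rw [hβ]
      refine ⟨?_, ?_, ?_, ?_⟩ <;> dsimp only <;> linarith [q1.1, q1.2, q2.1, q2.2]
    · have hc := h.hxd i j hij
      have e5 : 32 * κ * N ≤ d * N := by gcongr
      obtain ⟨u1, u2⟩ := ys_1 a b k0 x i
      obtain ⟨v1, v2⟩ := ys_1 a b k0 x j
      have hdN : 0 < d * N := mul_pos h.hd hN
      rw [hβ]
      rcases le_abs.1 hc with hc | hc
      · have : 0 ≤ (a - 1) * (((x i).1 : ℝ) - (x j).1) := mul_nonneg (by linarith) (by linarith)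
        right; left
        dsimp only
        linarith
      · have : 0 ≤ (a - 1) * (((x j).1 : ℝ) - (x i).1) := mul_nonneg (by linarith) (by linarith)
        left
        dsimp only
        linarith
  refine conv_all hπ (IsW.t k0) hlo (ρ := 5 * κ * N) (by linarith) (fun i v _ hv => ?_) hmass h.hCm
    (h.near2 _ (IsW.t _) _) h.he fun i => h.near1 _ (IsW.t _) _
  obtain ⟨s0, s1, s2, s3⟩ := hsup i v hv
  refine ⟨by linarith, by linarith, by linarith, by linarith⟩

end Su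

/-- **the comparison for points with different columns** -/
theorem col {a b : ℕ → ℝ} {A : ℝ} (hab : ∀ N, 1 ≤ a N ∧ a N ≤ A ∧ 0 ≤ b N ∧ b N ≤ A) (hN : X.Near) (hS : X.Step a b)
    (hM : S.Mass) (hH : X.Hon) {π : Fin m → Bool} (hπ : PSys.NT π) {R d ε : ℝ} (hR : 0 ≤ R) (hd : 0 < d) (hε : 0 < ε) :
    ∃ N0 : ℕ, ∀ N : ℕ, N0 ≤ N → ∀ x : Fin m → Z2, (∀ i, |((x i).1 : ℝ)| ≤ R * N ∧ |((x i).2 : ℝ)| ≤ R * N) →
      (∀ i j, i ≠ j → d * N ≤ |((x i).1 : ℝ) - (x j).1|) →
      |X.PX X.wb π x - X.PX X.wh π fun i => DN (a N) (-(b N)) (x i)| ≤ ε := by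
  have hA1 : 1 ≤ A := (hab 0).1.trans (hab 0).2.1
  -- constants
  obtain ⟨L0, hL0, N1, far⟩ := X.far_all hN (ε := ε / 16) (by positivity) (R + A * R + 3)
  set L : ℝ := L0 + R + A * R + 6 with hL
  have hLpos : 0 < L := by
    have : 0 ≤ A * R := mul_nonneg (by linarith) hR
    linarith
  set K : ℝ := R + A * (R + L + 1) + 1 with hK
  have hK0 : 0 < K := by
    have : 0 ≤ A * (R + L + 1) := mul_nonneg (by linarith) (by linarith)
    linarith
  set M2 : ℝ := 2 ^ (m + 1) with hM2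
  have hM2pos : 0 < M2 := by positivity
  set e1 : ℝ := ε / (16 * (m + 1) * M2) with he1
  have he1pos : 0 < e1 := by positivity
  obtain ⟨η1, hη1, N2, nr1⟩ := X.near_all hN (d := d / 2) (ε := e1) (by linarith) he1pos
  obtain ⟨Cm, hCm, N3, ms1⟩ := X.mass_all hN (d := d / 2) (by linarith) (K + 1)
  obtain ⟨s0, d0, hs0, hd0, htr⟩ := tracer hM
  set κ : ℝ := min (η1 / 5) (min (1 / 4) (d / 32)) with hκd
  have hκ : 0 < κ := lt_min (by positivity) (lt_min (by norm_num) (by positivity))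
  have hκ1 : κ ≤ η1 / 5 := min_le_left _ _
  have hκ4 : κ ≤ 1 / 4 := (min_le_right _ _).trans (min_le_left _ _)
  have hκ32 : κ ≤ d / 32 := (min_le_right _ _).trans (min_le_right _ _)
  obtain ⟨Λ, C, hΛ, hC, N4, htr⟩ := htr (κ / s0) (by positivity)
  have hs0κ : s0 * (κ / s0) = κ := by field_simp
  rw [hs0κ] at htr
  set δ : ℝ := d0 * (κ / s0) with hδ
  have hδpos : 0 < δ := by positivity
  set εs : ℝ := ε / (8 * (L + 1)) with hεs
  have hεspos : 0 < εs := by positivity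
  obtain ⟨N5, hst⟩ := hS m π K δ Λ κ (d / 2) εs hπ hδpos hκ (by linarith) hεspos
  set c0 : ℝ := min 1 (ε / (16 * (m + 1) * (2 ^ m * (Cm + 1)))) with hc0
  have hc0pos : 0 < c0 := lt_min one_pos (by positivity)
  obtain ⟨N6, hN6⟩ := exists_nat_ge (C / c0)
  obtain ⟨N7, hN7⟩ := exists_nat_ge (3 / κ)
  refine ⟨max (max (max N1 N2) (max N3 N4)) (max (max N5 N6) (max N7 1)), fun N hNN x hx hxd => ?_⟩
  simp only [max_le_iff] at hNN
  obtain ⟨⟨⟨l1, l2⟩, l3, l4⟩, ⟨l5, l6⟩, l7, l8⟩ := hNN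
  have hNpos : 0 < N := l8
  have hN' : (0 : ℝ) < N := by exact_mod_cast hNpos
  have hN1' : (1 : ℝ) ≤ N := by exact_mod_cast hNpos
  obtain ⟨G, g0, g1, g2, g3, g4, g5⟩ := htr N l4
  obtain ⟨q1, q2, q3, q4⟩ := hab N
  obtain ⟨n, hn⟩ := exists_nat_ge ((K + 1) * (N : ℝ))
  have hc1 : C / N ≤ c0 := by
    have h6 : (C / c0 : ℝ) ≤ N := hN6.trans (by exact_mod_cast l6)
    rw [div_le_iff₀ hc0pos] at h6
    rw [div_le_iff₀ hN']
    linarith
  have h7 : 3 ≤ κ * N := by
    have h7 : (3 / κ : ℝ) ≤ N := hN7.trans (by exact_mod_cast l7)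
    rw [div_le_iff₀ hκ] at h7
    linarith
  have hsu : Su X N n (a N) (b N) A R L κ δ Λ d (C / N) e1 Cm G x :=
    { hN := hNpos
      ha := q1
      haA := q2
      hb := q3
      hbA := q4
      hR := hR
      hL := hLpos.le
      hκ := hκ
      hκ4 := hκ4
      hκd := by linarith
      hκN := h7
      hδ := hδpos
      hd := hd
      G0 := g0
      Gs := g1
      Gb := g2
      Gl := g3
      Gl2 := g4
      Gm := fun P h1 h2 => g5 P n h1 h2
      hc1 := hc1.trans (min_le_left _ _)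
      hx := hx
      hxd := hxd
      hn := hn
      he := he1pos.le
      hCm := hCm
      near1 := fun g hg y => (X.near_mono le_rfl (by
        have : 5 * κ ≤ η1 := by linarith
        gcongr)).trans (nr1 N l2 g hg y)
      near2 := fun g hg y => (X.near_mono le_rfl (by
        have : (K + 1) * N = K * N + 1 * N := by ring
        rw [this]
        linarith)).trans (ms1 N l3 g hg y) }
  -- the range
  set k1 : ℤ := ⌊L * N⌋ with hk1
  have hk1a : (k1 : ℝ) ≤ L * N := Int.floor_le _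
  have hk1b : L * N - 1 < k1 := Int.sub_one_lt_floor _
  have hARN : 0 ≤ A * R * N := mul_nonneg (mul_nonneg (by linarith) hR) hN'.le
  have hRN : 0 ≤ R * N := mul_nonneg hR hN'.le
  have hLN : L * N = L0 * N + R * N + A * R * N + 6 * N := by rw [hL]; ring
  have hk1pos : 0 ≤ k1 := by
    have : (0 : ℝ) < k1 + 1 := by
      have : 0 ≤ L0 * N := by positivity
      linarith
    have : (0 : ℤ) < k1 + 1 := by exact_mod_cast this
    omega
  have hk1pos' : (0 : ℝ) ≤ k1 := by exact_mod_cast hk1pos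
  set T : ℕ := (2 * k1).toNat with hT
  have hTk : (T : ℤ) = 2 * k1 := Int.toNat_of_nonneg (by omega)
  have hrange : ∀ t : ℕ, t ≤ T → |((-k1 + t : ℤ) : ℝ)| ≤ L * N := by
    intro t ht
    have h1 : (t : ℤ) ≤ 2 * k1 := by rw [← hTk]; exact_mod_cast ht
    have h2 : |(-k1 + t : ℤ)| ≤ k1 := by rw [abs_le]; omega
    have h3 : |((-k1 + t : ℤ) : ℝ)| ≤ k1 := by exact_mod_cast h2
    exact h3.trans hk1a
  have hstep : ∀ k : ℤ, |(k : ℝ)| ≤ L * N →
      Adm N (R + A * (R + L + 1) + 1) δ Λ κ (d / 2) k (Jk x k) (Gk G N κ (a N) (b N) (k + 1) x) x →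
      Adm N (R + A * (R + L + 1) + 1) δ Λ κ (d / 2) k (Jk x k) (Gk G N κ (a N) (b N) k x) x →
      |X.PO (X.wt (k + 1)) n π (ob S N (Jk x k) (Gk G N κ (a N) (b N) (k + 1) x) x) -
        X.PO (X.wt k) n π (ob S N (Jk x k) (Gk G N κ (a N) (b N) k x) x)| ≤ εs / N := by
    intro k _ h1 h2
    have h3 := hst N l5 k n (Jk x k) (Gk G N κ (a N) (b N) (k + 1) x) x hn h1
    rw [Gk_shift] at h3
    exact h3 h2
  have hflow := hsu.flow hπ (-k1) T hrange hstep T le_rfl
  have hend : (-k1 + (T : ℤ)) = k1 := by rw [hTk]; ring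
  rw [hend] at hflow
  -- the columns of the points
  have hxk : ∀ i, |((x i).1 : ℝ)| < k1 := fun i => by
    have := (hx i).1
    have : 0 ≤ L0 * N := by positivity
    linarith
  have hxk1 : ∀ i, (x i).1 < k1 ∧ -k1 < (x i).1 := fun i => by
    have := abs_lt.1 (hxk i)
    constructor
    · exact_mod_cast this.2
    · exact_mod_cast this.1
  -- the end
  have hJend : Jk x k1 = ∅ := by
    ext i
    rw [mem_Jk]
    have := (hxk1 i).1
    simp only [Finset.notMem_empty, iff_false]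
    omega
  have hVend : hsu.V π k1 = X.PX (X.wt k1) π x := by
    unfold Su.V
    rw [ob_eq, hJend, PO_pts]
  have hb0 : ∀ i, |((x i).1 : ℝ) - (0 : Z2).1| ≤ (R + A * R + 2) * N ∧ |((x i).2 : ℝ) - (0 : Z2).2| ≤ (R + A * R + 2) * N :=
    fun i => by
      have e : (R + A * R + 2) * N = R * N + A * R * N + 2 * N := by ring
      rw [e]
      simp only [Prod.fst_zero, Prod.snd_zero, Int.cast_zero, sub_zero]
      exact ⟨(hx i).1.trans (by linarith), (hx i).2.trans (by linarith)⟩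
  have hRKN : (R + A * R + 2) * N + 1 ≤ (K + 1) * N := by
    have : 0 ≤ A * L * N := mul_nonneg (mul_nonneg (by linarith) hLpos.le) hN'.le
    have : 1 * N ≤ A * N := by gcongr
    rw [hK]
    nlinarith
  have hfin : ∀ g, X.IsW g → ∀ z, X.near g (d / 2 * N) ((R + A * R + 2) * N + 1) z ≠ ⊤ := fun g hg z =>
    ne_top_of_le_ne_top ENNReal.ofReal_ne_top ((X.near_mono le_rfl hRKN).trans (ms1 N l3 g hg z))
  have hfar : ∀ g, X.IsW g → ∀ z, X.near g (L0 * N) ((R + A * R + 2) * N + 1) z ≤ ENNReal.ofReal (ε / 16) :=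
    fun g hg z => (X.near_mono le_rfl (by
      have e : (R + A * R + 3) * N = (R + A * R + 2) * N + N := by ring
      rw [e]
      linarith)).trans (far N l1 g hg z)
  have hdh : d / 2 * N ≤ d * N := by gcongr; linarith
  have tailB : |X.PX (X.wt k1) π x - X.PX X.wb π x| ≤ 2 * (ε / 16) := by
    refine tail (z := 0) (ρ := (R + A * R + 2) * N) (D := d / 2 * N) (L := L0 * N) hπ (IsW.t k1) IsW.b hb0
      (fun i j hij => Or.inl (hdh.trans (hxd i j hij))) (hfin _ (IsW.t _) _) (by positivity) (hfar _ (IsW.t _) _)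
      (hfar _ IsW.b _) fun w hw hnr => ?_
    refine X.wt_b k1 w fun s hs => ?_
    by_contra hsk
    push Not at hsk
    obtain ⟨t, ht, ht1, ht2⟩ := hnr
    refine hw ⟨⟨s, hs, t, ht, Or.inl ?_⟩, t, ht, ht1, ht2⟩
    have hsk' : (k1 : ℝ) ≤ s.1 := by exact_mod_cast hsk
    simp only [Prod.fst_zero, Int.cast_zero, sub_zero] at ht1
    have := (abs_le.1 ht1).2
    have e : (R + A * R + 2) * N = R * N + A * R * N + 2 * N := by ring
    rw [e] at this
    refine le_trans ?_ (le_abs_self _)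
    linarith
  -- the start
  have hstart := hsu.start hπ (k0 := -k1) (by
    have := hrange 0 (Nat.zero_le _)
    simpa using this) fun i => (hxk1 i).2
  set y : Fin m → Z2 := Su.ys (a N) (b N) (-k1) x with hy
  set z : Z2 := Su.t0 (a N) (b N) (-k1) with hz
  have hby : ∀ i, |((y i).1 : ℝ) - z.1| ≤ (R + A * R + 2) * N ∧ |((y i).2 : ℝ) - z.2| ≤ (R + A * R + 2) * N := fun i => by
    have e : (R + A * R + 2) * N = R * N + A * R * N + 2 * N := by ring
    obtain ⟨u1, u2⟩ := hsu.DN_le (-k1) i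
    rw [e]
    exact ⟨u1.trans (by linarith), u2.trans (by linarith)⟩
  have hyd : ∀ i j, i ≠ j → d / 2 * N ≤ |((y i).1 : ℝ) - (y j).1| ∨ d / 2 * N ≤ |((y i).2 : ℝ) - (y j).2| := by
    intro i j hij
    left
    have hc := hxd i j hij
    obtain ⟨u1, u2⟩ := Su.ys_1 (a N) (b N) (-k1) x i
    obtain ⟨v1, v2⟩ := Su.ys_1 (a N) (b N) (-k1) x j
    have e5 : 32 * κ * N ≤ d * N := by
      have : 32 * κ ≤ d := by linarith
      gcongr
    have hdN : 0 < d * N := by positivity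
    rcases le_abs.1 hc with hc | hc
    · have : 0 ≤ (a N - 1) * (((x i).1 : ℝ) - (x j).1) := mul_nonneg (by linarith) (by linarith)
      refine le_trans ?_ (le_abs_self _)
      linarith
    · have : 0 ≤ (a N - 1) * (((x j).1 : ℝ) - (x i).1) := mul_nonneg (by linarith) (by linarith)
      refine le_trans ?_ (neg_le_abs _)
      linarith
  have tailH : |X.PX (X.wt (-k1)) π y - X.PX X.wh π y| ≤ 2 * (ε / 16) := by
    refine tail (z := z) (ρ := (R + A * R + 2) * N) (D := d / 2 * N) (L := L0 * N) hπ (IsW.t _) IsW.h hby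
      hyd (hfin _ (IsW.t _) _) (by positivity) (hfar _ (IsW.t _) _)
      (hfar _ IsW.h _) fun w hw hnr => ?_
    refine X.wt_h _ w fun s hs => ?_
    by_contra hsk
    push Not at hsk
    obtain ⟨t, ht, ht1, ht2⟩ := hnr
    refine hw ⟨⟨s, hs, t, ht, Or.inl ?_⟩, t, ht, ht1, ht2⟩
    have hsk' : (s.1 : ℝ) ≤ -k1 := by exact_mod_cast hsk.le
    have hz1 : (-1 : ℝ) ≤ z.1 := by
      have h1 : (0 : ℝ) ≤ -(a N - 1) * ((-k1 : ℤ) : ℝ) := by
        push_cast
        have : 0 ≤ (a N - 1) * (k1 : ℝ) := mul_nonneg (by linarith) hk1pos'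
        linarith
      have h2 : 0 ≤ z.1 := Int.floor_nonneg.2 h1
      have : (0 : ℝ) ≤ z.1 := by exact_mod_cast h2
      linarith
    have := (abs_le.1 ht1).1
    have e : (R + A * R + 2) * N = R * N + A * R * N + 2 * N := by ring
    rw [e] at this
    rw [abs_sub_comm]
    refine le_trans ?_ (le_abs_self _)
    linarith
  have htrans : X.PX X.wh π y = X.PX X.wh π fun i => DN (a N) (-(b N)) (x i) := by
    rw [hH m π y hπ, hH m π _ hπ, hy]
    exact Pf_tr π _ z
  -- the sum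
  have hcard : ((Jk x (-k1)).card - (Jk x k1).card : ℝ) ≤ m := by
    have h1 : ((Jk x (-k1)).card : ℝ) ≤ m := by
      have := Finset.card_le_univ (Jk x (-k1))
      rw [Fintype.card_fin] at this
      exact_mod_cast this
    have h2 : (0 : ℝ) ≤ (Jk x k1).card := Nat.cast_nonneg _
    linarith
  set E : ℝ := 2 ^ (m + 1) * e1 + C / N * (2 ^ m * Cm) with hE
  have hm1 : (0 : ℝ) < m + 1 := by positivity
  have hE1 : 2 ^ (m + 1) * e1 = ε / (16 * (m + 1)) := by
    rw [he1, hM2]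
    field_simp
  have hE2 : C / N * (2 ^ m * Cm) ≤ ε / (16 * (m + 1)) := by
    have h1 : C / N ≤ ε / (16 * (m + 1) * (2 ^ m * (Cm + 1))) := hc1.trans (min_le_right _ _)
    calc C / N * (2 ^ m * Cm) ≤ ε / (16 * (m + 1) * (2 ^ m * (Cm + 1))) * (2 ^ m * (Cm + 1)) := by
          gcongr
          linarith
      _ = ε / (16 * (m + 1)) := by
          have : Cm + 1 ≠ 0 := by linarith
          field_simp
  have hE0 : 0 ≤ E := by
    have : 0 ≤ C / N * (2 ^ m * Cm) := by positivity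
    have : 0 < 2 ^ (m + 1) * e1 := by positivity
    linarith
  have hmE : m * E ≤ ε / 8 := by
    have h1 : E ≤ ε / (8 * (m + 1)) := by
      have : ε / (8 * (m + 1)) = ε / (16 * (m + 1)) + ε / (16 * (m + 1)) := by field_simp; ring
      linarith
    calc m * E ≤ (m + 1) * (ε / (8 * (m + 1))) := by
          have : (m : ℝ) ≤ m + 1 := by linarith
          gcongr
      _ = ε / 8 := by field_simp
  have hTN : T * (εs / N) ≤ ε / 4 := by
    have h1 : (T : ℝ) = 2 * k1 := by exact_mod_cast hTk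
    have h2 : (T : ℝ) ≤ 2 * ((L + 1) * N) := by
      rw [h1]
      have : (k1 : ℝ) ≤ (L + 1) * N := hk1a.trans (by gcongr; linarith)
      linarith
    calc (T : ℝ) * (εs / N) ≤ 2 * ((L + 1) * N) * (εs / N) := by gcongr
      _ = ε / 4 := by
          rw [hεs]
          have : L + 1 ≠ 0 := by linarith
          field_simp
          ring
  have hflow' : |hsu.V π k1 - hsu.V π (-k1)| ≤ ε / 4 + ε / 8 := by
    refine hflow.trans (add_le_add hTN ?_)
    calc E * ((Jk x (-k1)).card - (Jk x k1).card : ℝ) ≤ E * m := by gcongr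
      _ ≤ ε / 8 := by linarith
  rw [hVend] at hflow'
  rw [htrans] at tailH
  have b1 := abs_le.1 tailB
  have b2 := abs_le.1 tailH
  have b3 := abs_le.1 hflow'
  have b4 := abs_le.1 (hstart.trans hmE)
  rw [abs_le]
  constructor <;> linarith

end WSys

end Pool.Agent.ROT.U
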