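import Pool.Agent.ROT.UFlowF

/-!
# ROT, UNIV, side A: all separated points (helper53)

**`out_of`** : `Near`, `Step`, `Mass`, `Hon` ⇒ `Out`.
-/

set_option autoImplicit false

open Finset Filter Topology

namespace Pool.Agent.ROT.U

open Pool.Agent.ROT.A

namespace WSys

variable {S : PSys} {X : WSys S} {m : ℕ}

/-- the columns can be moved apart -/
theorem exists_t (x : Fin m → Z2) {c : ℝ} {u : ℕ} (hu : 2 * c ≤ u) : ∃ t : ℕ, t ≤ m * m ∧ ∀ i j : Fin m, i ≠ j →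
    c ≤ |(((x i).1 + i * (t * u) : ℤ) : ℝ) - ((x j).1 + j * (t * u) : ℤ)| := by
  classical
  by_contra hc
  push Not at hc
  have h1 : ∀ t : ℕ, ∃ p : Fin m × Fin m, t ≤ m * m → p.1 ≠ p.2 ∧
      |(((x p.1).1 + p.1 * (t * u) : ℤ) : ℝ) - ((x p.2).1 + p.2 * (t * u) : ℤ)| < c := by
    intro t
    by_cases ht : t ≤ m * m
    · obtain ⟨i, j, hij, h2⟩ := hc t ht
      exact ⟨(i, j), fun _ => ⟨hij, h2⟩⟩
    · obtain ⟨i, j, -, -⟩ := hc 0 (Nat.zero_le _)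
      exact ⟨(i, j), fun h => absurd h ht⟩
  choose P hP using h1
  obtain ⟨t, ht, t', ht', hne, heq⟩ := Finset.exists_ne_map_eq_of_card_lt_of_maps_to
    (s := Finset.range (m * m + 1)) (t := (Finset.univ : Finset (Fin m × Fin m))) (f := P) (by
      rw [Finset.card_range, Finset.card_univ, Fintype.card_prod, Fintype.card_fin]
      omega) (fun _ _ => Finset.mem_coe.2 (Finset.mem_univ _))
  rw [Finset.mem_range] at ht ht'
  obtain ⟨hij, a1⟩ := hP t (by omega)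
  obtain ⟨-, a2⟩ := hP t' (by omega)
  rw [← heq] at a2
  set i := (P t).1
  set j := (P t).2
  rw [abs_lt] at a1 a2
  push_cast at a1 a2
  have hcpos : 0 < c := by linarith [a1.1, a1.2]
  -- the difference of the two values
  have h3 : (1 : ℝ) ≤ |(((i : ℕ) : ℝ) - ((j : ℕ) : ℝ)) * ((t : ℝ) - t')| := by
    have h4 : (((i : ℕ) : ℤ) - ((j : ℕ) : ℤ)) * ((t : ℤ) - t') ≠ 0 := by
      refine mul_ne_zero ?_ ?_
      · rw [sub_ne_zero]
        intro h
        exact hij (Fin.ext (by exact_mod_cast h))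
      · rw [sub_ne_zero]
        intro h
        exact hne (by exact_mod_cast h)
    have h5 := Int.one_le_abs h4
    exact_mod_cast h5
  have hu0 : (0 : ℝ) ≤ u := Nat.cast_nonneg u
  have h6 : (u : ℝ) ≤ |(((i : ℕ) : ℝ) - ((j : ℕ) : ℝ)) * ((t : ℝ) - t')| * u := by nlinarith
  have h7 : |(((i : ℕ) : ℝ) - ((j : ℕ) : ℝ)) * ((t : ℝ) - t')| * u = |(((i : ℕ) : ℝ) - ((j : ℕ) : ℝ)) * ((t : ℝ) - t') * u| := by
    rw [abs_mul _ (u : ℝ), abs_of_nonneg hu0]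
  have h8 : |(((i : ℕ) : ℝ) - ((j : ℕ) : ℝ)) * ((t : ℝ) - t') * u| < 2 * c := by
    rw [abs_lt]
    constructor <;> nlinarith [a1.1, a1.2, a2.1, a2.2]
  linarith

/-- the linear map keeps separation -/
theorem DN_sep {a b A D : ℝ} (ha : 1 ≤ a) (haA : a ≤ A) (hb : 0 ≤ b) (hbA : b ≤ A) (hD : 4 * (1 + A) ≤ D) {p q : Z2}
    (h : D ≤ |(p.1 : ℝ) - q.1| ∨ D ≤ |(p.2 : ℝ) - q.2|) :
    D / (4 * (1 + A)) ≤ |((DN a (-b) p).1 : ℝ) - (DN a (-b) q).1| ∨
      D / (4 * (1 + A)) ≤ |((DN a (-b) p).2 : ℝ) - (DN a (-b) q).2| := by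
  have hA : 1 ≤ A := ha.trans haA
  have hA4 : 0 < 4 * (1 + A) := by linarith
  set τ : ℝ := D / (4 * (1 + A)) with hτ
  have hDτ : D = 4 * (1 + A) * τ := by rw [hτ]; field_simp
  have hτ1 : 1 ≤ τ := by rw [hτ, le_div_iff₀ hA4]; linarith
  have f1 := Int.floor_le (a * (p.1 : ℝ))
  have f2 := Int.lt_floor_add_one (a * (p.1 : ℝ))
  have f3 := Int.floor_le (a * (q.1 : ℝ))
  have f4 := Int.lt_floor_add_one (a * (q.1 : ℝ))
  have g1 := Int.floor_le (-b * (p.1 : ℝ))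
  have g2 := Int.lt_floor_add_one (-b * (p.1 : ℝ))
  have g3 := Int.floor_le (-b * (q.1 : ℝ))
  have g4 := Int.lt_floor_add_one (-b * (q.1 : ℝ))
  have e1 : ((DN a (-b) p).1 : ℝ) - (DN a (-b) q).1 = (⌊a * (p.1 : ℝ)⌋ : ℝ) - ⌊a * (q.1 : ℝ)⌋ := rfl
  have e2 : ((DN a (-b) p).2 : ℝ) - (DN a (-b) q).2 =
      ((p.2 : ℝ) - q.2) + ((⌊-b * (p.1 : ℝ)⌋ : ℝ) - ⌊-b * (q.1 : ℝ)⌋) := by
    show (((p.2 + ⌊-b * (p.1 : ℝ)⌋ : ℤ) : ℝ)) - ((q.2 + ⌊-b * (q.1 : ℝ)⌋ : ℤ) : ℝ) = _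
    push_cast
    ring
  by_cases hc : 2 * τ ≤ |(p.1 : ℝ) - q.1|
  · left
    rw [e1]
    have h1 : |a * ((p.1 : ℝ) - q.1)| ≥ 2 * τ := by
      rw [abs_mul, abs_of_nonneg (by linarith : 0 ≤ a)]
      nlinarith [abs_nonneg ((p.1 : ℝ) - q.1)]
    rcases le_abs.1 h1 with h1 | h1
    · refine le_trans ?_ (le_abs_self _)
      nlinarith
    · refine le_trans ?_ (neg_le_abs _)
      nlinarith
  · push Not at hc
    right
    have h2 : D ≤ |(p.2 : ℝ) - q.2| := by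
      rcases h with h | h
      · exfalso
        have : 2 * τ ≤ D := by
          rw [hDτ]
          have : 0 < τ := by linarith
          nlinarith
        linarith
      · exact h
    rw [e2]
    have h3 : |(⌊-b * (p.1 : ℝ)⌋ : ℝ) - ⌊-b * (q.1 : ℝ)⌋| ≤ A * (2 * τ) + 1 := by
      have h4 : |b * ((p.1 : ℝ) - q.1)| ≤ A * (2 * τ) := by
        rw [abs_mul, abs_of_nonneg hb]
        exact mul_le_mul hbA hc.le (abs_nonneg _) (by linarith)
      rw [abs_le] at h4 ⊢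
      constructor <;> linarith
    have h5 := abs_sub_abs_le_abs_sub ((p.2 : ℝ) - q.2) (-((⌊-b * (p.1 : ℝ)⌋ : ℝ) - ⌊-b * (q.1 : ℝ)⌋))
    rw [abs_neg, sub_neg_eq_add] at h5
    have h6 : τ + (A * (2 * τ) + 1) ≤ D := by
      rw [hDτ]
      nlinarith
    linarith

/-- the linear map moves near points to near points -/
theorem DN_near {a b A ρ : ℝ} (ha : 1 ≤ a) (haA : a ≤ A) (hb : 0 ≤ b) (hbA : b ≤ A) {p q : Z2}
    (h : |(p.1 : ℝ) - q.1| ≤ ρ) (h2 : p.2 = q.2) :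
    |((DN a (-b) p).1 : ℝ) - (DN a (-b) q).1| ≤ A * ρ + 1 ∧ |((DN a (-b) p).2 : ℝ) - (DN a (-b) q).2| ≤ A * ρ + 1 := by
  have f1 := Int.floor_le (a * (p.1 : ℝ))
  have f2 := Int.lt_floor_add_one (a * (p.1 : ℝ))
  have f3 := Int.floor_le (a * (q.1 : ℝ))
  have f4 := Int.lt_floor_add_one (a * (q.1 : ℝ))
  have g1 := Int.floor_le (-b * (p.1 : ℝ))
  have g2 := Int.lt_floor_add_one (-b * (p.1 : ℝ))
  have g3 := Int.floor_le (-b * (q.1 : ℝ))
  have g4 := Int.lt_floor_add_one (-b * (q.1 : ℝ))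
  have e1 : ((DN a (-b) p).1 : ℝ) - (DN a (-b) q).1 = (⌊a * (p.1 : ℝ)⌋ : ℝ) - ⌊a * (q.1 : ℝ)⌋ := rfl
  have e2 : ((DN a (-b) p).2 : ℝ) - (DN a (-b) q).2 = ((⌊-b * (p.1 : ℝ)⌋ : ℝ) - ⌊-b * (q.1 : ℝ)⌋) := by
    show (((p.2 + ⌊-b * (p.1 : ℝ)⌋ : ℤ) : ℝ)) - ((q.2 + ⌊-b * (q.1 : ℝ)⌋ : ℤ) : ℝ) = _
    rw [h2]
    push_cast
    ring
  have h1 : |a * ((p.1 : ℝ) - q.1)| ≤ A * ρ := by
    rw [abs_mul, abs_of_nonneg (by linarith : 0 ≤ a)]
    exact mul_le_mul haA h (abs_nonneg _) (by linarith)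
  have h4 : |b * ((p.1 : ℝ) - q.1)| ≤ A * ρ := by
    rw [abs_mul, abs_of_nonneg hb]
    exact mul_le_mul hbA h (abs_nonneg _) (by linarith)
  rw [e1, e2]
  rw [abs_le] at h1 h4
  constructor <;> rw [abs_le] <;> constructor <;> linarith

/-- the size of the image -/
theorem DN_bd {a b A ρ : ℝ} (ha : 1 ≤ a) (haA : a ≤ A) (hb : 0 ≤ b) (hbA : b ≤ A) {p : Z2}
    (h : |(p.1 : ℝ)| ≤ ρ) (h2 : |(p.2 : ℝ)| ≤ ρ) :
    |((DN a (-b) p).1 : ℝ)| ≤ (1 + A) * ρ + 1 ∧ |((DN a (-b) p).2 : ℝ)| ≤ (1 + A) * ρ + 1 := by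
  have f1 := Int.floor_le (a * (p.1 : ℝ))
  have f2 := Int.lt_floor_add_one (a * (p.1 : ℝ))
  have g1 := Int.floor_le (-b * (p.1 : ℝ))
  have g2 := Int.lt_floor_add_one (-b * (p.1 : ℝ))
  have e1 : ((DN a (-b) p).1 : ℝ) = (⌊a * (p.1 : ℝ)⌋ : ℝ) := rfl
  have e2 : ((DN a (-b) p).2 : ℝ) = (p.2 : ℝ) + (⌊-b * (p.1 : ℝ)⌋ : ℝ) := by
    show (((p.2 + ⌊-b * (p.1 : ℝ)⌋ : ℤ) : ℝ)) = _
    push_cast
    ring
  have hρ : 0 ≤ ρ := (abs_nonneg _).trans h
  have h1 : |a * (p.1 : ℝ)| ≤ A * ρ := by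
    rw [abs_mul, abs_of_nonneg (by linarith : 0 ≤ a)]
    exact mul_le_mul haA h (abs_nonneg _) (by linarith)
  have h4 : |b * (p.1 : ℝ)| ≤ A * ρ := by
    rw [abs_mul, abs_of_nonneg hb]
    exact mul_le_mul hbA h (abs_nonneg _) (by linarith)
  rw [e1, e2]
  rw [abs_le] at h1 h4 h2
  constructor <;> rw [abs_le] <;> constructor <;> linarith

/-- **the A side of UNIV**: near bounds, the step, the masses of the tracers ⇒ the comparison at all separated points -/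
theorem out_of {a b : ℕ → ℝ} {A : ℝ} (hab : ∀ N, 1 ≤ a N ∧ a N ≤ A ∧ 0 ≤ b N ∧ b N ≤ A) (hN : X.Near)
    (hS : X.Step a b) (hM : S.Mass) (hH : X.Hon) : X.Out a b := by
  classical
  intro m π R0 d ε hπ hd hε
  have hA1 : 1 ≤ A := (hab 0).1.trans (hab 0).2.1
  have hA4 : 0 < 4 * (1 + A) := by linarith
  set R : ℝ := max R0 0 with hR
  have hR0 : 0 ≤ R := le_max_right _ _
  have hmpos : 0 < m := by
    obtain ⟨⟨i, -⟩, -⟩ := hπ
    exact lt_of_le_of_lt (Nat.zero_le _) i.2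
  have hm1 : (1 : ℝ) ≤ m := by exact_mod_cast hmpos
  set e : ℝ := ε / (8 * m) with he
  have hepos : 0 < e := by positivity
  set τ : ℝ := d / 2 / (4 * (1 + A)) with hτ
  have hτpos : 0 < τ := by positivity
  obtain ⟨η1, hη1, N1, nr1⟩ := X.near_all hN (d := d / 2) (ε := e) (by linarith) hepos
  obtain ⟨η2, hη2, N2, nr2⟩ := X.near_all hN (d := τ) (ε := e) hτpos hepos
  obtain ⟨C1, hC1, N3, ms1⟩ := X.mass_all hN (d := d / 2) (by linarith) ((1 + A) * (R + 1) + 2)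
  obtain ⟨C2, hC2, N4, ms2⟩ := X.mass_all hN (d := τ) hτpos ((1 + A) * (R + 1) + 2)
  set r : ℝ := min (min 1 (d / 4)) (min (η1 / 2) (η2 / (2 * A))) with hr
  have hrpos : 0 < r := lt_min (lt_min one_pos (by positivity)) (lt_min (by positivity) (by positivity))
  have hr1 : r ≤ 1 := (min_le_left _ _).trans (min_le_left _ _)
  have hr2 : r ≤ d / 4 := (min_le_left _ _).trans (min_le_right _ _)
  have hr3 : r ≤ η1 / 2 := (min_le_right _ _).trans (min_le_left _ _)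
  have hr4 : r ≤ η2 / (2 * A) := (min_le_right _ _).trans (min_le_right _ _)
  have hAr : A * r ≤ η2 / 2 := by
    calc A * r ≤ A * (η2 / (2 * A)) := by gcongr
      _ = η2 / 2 := by field_simp
  set d1 : ℝ := r / (4 * m ^ 3) with hd1
  have hd1pos : 0 < d1 := by positivity
  obtain ⟨N5, hcol⟩ := X.col hab hN hS hM hH hπ (R := R + 1) (d := d1) (ε := ε / 2) (by linarith) hd1pos
    (by linarith)
  obtain ⟨N6, hN6⟩ := exists_nat_ge (4 * m ^ 3 / r + 4 / η1 + 4 / η2 + 8 * (1 + A) / d + 1)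
  refine ⟨max (max (max N1 N2) (max N3 N4)) (max N5 N6), fun N hNN x hx hxd => ?_⟩
  simp only [max_le_iff] at hNN
  obtain ⟨⟨⟨l1, l2⟩, l3, l4⟩, l5, l6⟩ := hNN
  have h6 : (4 * m ^ 3 / r + 4 / η1 + 4 / η2 + 8 * (1 + A) / d + 1 : ℝ) ≤ N := hN6.trans (by exact_mod_cast l6)
  have p1 : 0 < 4 * (m : ℝ) ^ 3 / r := by positivity
  have p2 : 0 < 4 / η1 := by positivity
  have p3 : 0 < 4 / η2 := by positivity
  have p4 : 0 < 8 * (1 + A) / d := by positivity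
  have hN1 : (1 : ℝ) ≤ N := by linarith
  have hN' : (0 : ℝ) < N := by linarith
  have hNpos : 0 < N := by exact_mod_cast hN'
  have hNr : 4 * (m : ℝ) ^ 3 ≤ r * N := by
    have : 4 * (m : ℝ) ^ 3 / r ≤ N := by linarith
    rw [div_le_iff₀ hrpos] at this
    linarith
  have hNη1 : 4 ≤ η1 * N := by
    have : 4 / η1 ≤ N := by linarith
    rw [div_le_iff₀ hη1] at this
    linarith
  have hNη2 : 4 ≤ η2 * N := by
    have : 4 / η2 ≤ N := by linarith
    rw [div_le_iff₀ hη2] at this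
    linarith
  have hNd : 8 * (1 + A) ≤ d * N := by
    have : 8 * (1 + A) / d ≤ N := by linarith
    rw [div_le_iff₀ hd] at this
    linarith
  obtain ⟨q1, q2, q3, q4⟩ := hab N
  -- the points in lattice units
  have hx' : ∀ i, |((x i).1 : ℝ)| ≤ R * N ∧ |((x i).2 : ℝ)| ≤ R * N := by
    intro i
    have h1 := (hx i).trans (le_max_left R0 0)
    have h2 : |((x i).1 : ℝ) / N| ≤ R := (norm_fst_le (PSys.xN N x i)).trans h1
    have h3 : |((x i).2 : ℝ) / N| ≤ R := (norm_snd_le (PSys.xN N x i)).trans h1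
    rw [abs_div, Nat.abs_cast, div_le_iff₀ hN'] at h2 h3
    exact ⟨h2, h3⟩
  have hxs : ∀ i j, i ≠ j → d * N ≤ |((x i).1 : ℝ) - (x j).1| ∨ d * N ≤ |((x i).2 : ℝ) - (x j).2| := by
    intro i j hij
    have h1 := hxd i j hij
    have e1 : PSys.xN N x i - PSys.xN N x j = ((((x i).1 : ℝ) - (x j).1) / N, (((x i).2 : ℝ) - (x j).2) / N) := by
      unfold PSys.xN
      rw [Prod.mk_sub_mk, sub_div, sub_div]
    rw [e1, Prod.norm_def, le_max_iff, Real.norm_eq_abs, Real.norm_eq_abs] at h1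
    refine h1.imp (fun h2 => ?_) fun h2 => ?_
    · rw [abs_div, Nat.abs_cast, le_div_iff₀ hN'] at h2
      exact h2
    · rw [abs_div, Nat.abs_cast, le_div_iff₀ hN'] at h2
      exact h2
  -- the perturbation
  obtain ⟨u, hu1, hu2⟩ : ∃ u : ℕ, 2 * (d1 * N) ≤ u ∧ (u : ℝ) ≤ 2 * (d1 * N) + 1 :=
    ⟨⌈2 * (d1 * N)⌉₊, Nat.le_ceil _, (Nat.ceil_lt_add_one (by positivity)).le⟩
  obtain ⟨t, ht, htt⟩ := exists_t x hu1
  set x' : Fin m → Z2 := fun i => ((x i).1 + (i : ℕ) * (t * u), (x i).2) with hx'd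
  have hsh : ∀ i, |((x i).1 : ℝ) - (x' i).1| ≤ r * N := by
    intro i
    have e1 : ((x i).1 : ℝ) - (x' i).1 = -(((i : ℕ) : ℝ) * (t * u)) := by
      rw [hx'd]
      push_cast
      ring
    have hi : ((i : ℕ) : ℝ) ≤ m := by exact_mod_cast i.2.le
    have ht' : (t : ℝ) ≤ m * m := by exact_mod_cast ht
    rw [e1, abs_neg, abs_of_nonneg (by positivity)]
    calc ((i : ℕ) : ℝ) * (t * u) ≤ m * (m * m * (2 * (d1 * N) + 1)) := by gcongr
      _ = m ^ 3 * (2 * (d1 * N)) + m ^ 3 := by ring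
      _ = r * N / 2 + m ^ 3 := by
          rw [hd1]
          have : (m : ℝ) ≠ 0 := by positivity
          field_simp
          ring
      _ ≤ r * N := by
          have : 0 < r * N := by positivity
          linarith
  have hcol' := hcol N l5 x' (fun i => by
    have h1 := hsh i
    have h2 := (hx' i).1
    have h3 : r * N ≤ 1 * N := by gcongr
    rw [abs_le] at h1 h2
    refine ⟨?_, (hx' i).2.trans (by gcongr; linarith)⟩
    rw [abs_le]
    have e : (R + 1) * N = R * N + N := by ring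
    rw [e]
    constructor <;> linarith [h1.1, h1.2, h2.1, h2.2]) (fun i j hij => by
      have := htt i j hij
      exact this)
  -- separation of the perturbed points
  have hrN : r * N ≤ d / 4 * N := by gcongr
  have hs1 : ∀ i j, i ≠ j → d / 2 * N ≤ |((x i).1 : ℝ) - (x j).1| ∨ d / 2 * N ≤ |((x i).2 : ℝ) - (x j).2| := by
    intro i j hij
    have : 0 < d * N := by positivity
    exact (hxs i j hij).imp (fun h => by linarith) fun h => by linarith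
  have hs2 : ∀ i j, i ≠ j → d / 2 * N ≤ |((x' i).1 : ℝ) - (x' j).1| ∨ d / 2 * N ≤ |((x' i).2 : ℝ) - (x' j).2| := by
    intro i j hij
    have : 0 < d * N := by positivity
    rcases hxs i j hij with h | h
    · left
      have h1 := hsh i
      have h2 := hsh j
      have h3 : ((x i).1 : ℝ) - (x j).1 = (((x' i).1 : ℝ) - (x' j).1) + (((x i).1 : ℝ) - (x' i).1) -
          (((x j).1 : ℝ) - (x' j).1) := by ring
      rw [h3] at h
      have h4 := abs_sub ((((x' i).1 : ℝ) - (x' j).1) + (((x i).1 : ℝ) - (x' i).1)) (((x j).1 : ℝ) - (x' j).1)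
      have h5 := abs_add_le (((x' i).1 : ℝ) - (x' j).1) (((x i).1 : ℝ) - (x' i).1)
      linarith
    · right
      show d / 2 * N ≤ |((x i).2 : ℝ) - (x j).2|
      linarith
  -- the b lattice
  have b0 : ∀ i, |((x i).1 : ℝ) - (0 : Z2).1| ≤ (1 + A) * (R + 1) * N ∧ |((x i).2 : ℝ) - (0 : Z2).2| ≤ (1 + A) * (R + 1) * N :=
    fun i => by
      simp only [Prod.fst_zero, Prod.snd_zero, Int.cast_zero, sub_zero]
      have h1 : R * N ≤ (1 + A) * (R + 1) * N := by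
        have : R ≤ (1 + A) * (R + 1) := by nlinarith
        gcongr
      exact ⟨(hx' i).1.trans h1, (hx' i).2.trans h1⟩
  have hKN : (1 + A) * (R + 1) * N + 1 + 1 ≤ ((1 + A) * (R + 1) + 2) * N := by nlinarith
  have stB : |X.PX X.wb π x - X.PX X.wb π x'| ≤ m * e := by
    refine equi (z := 0) (ρ := (1 + A) * (R + 1) * N) (ρ' := r * N) (D := d / 2 * N) hπ IsW.b b0 hs1 hs2
      (fun i => ⟨hsh i, by
        show |((x i).2 : ℝ) - (x i).2| ≤ _
        rw [sub_self, abs_zero]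
        positivity⟩) (ne_top_of_le_ne_top ENNReal.ofReal_ne_top ((X.near_mono le_rfl (by linarith)).trans
        (ms1 N l3 _ IsW.b 0))) hepos.le fun i => (X.near_mono le_rfl ?_).trans (nr1 N l1 _ IsW.b (x i))
    have : r * N ≤ η1 / 2 * N := by gcongr
    linarith
  -- the honeycomb
  have c0 : ∀ i, |((DN (a N) (-(b N)) (x i)).1 : ℝ) - (0 : Z2).1| ≤ (1 + A) * (R + 1) * N + 1 ∧
      |((DN (a N) (-(b N)) (x i)).2 : ℝ) - (0 : Z2).2| ≤ (1 + A) * (R + 1) * N + 1 := fun i => by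
    simp only [Prod.fst_zero, Prod.snd_zero, Int.cast_zero, sub_zero]
    have h1 := DN_bd q1 q2 q3 q4 (hx' i).1 (hx' i).2
    have h2 : (1 + A) * (R * N) ≤ (1 + A) * (R + 1) * N := by nlinarith
    exact ⟨h1.1.trans (by linarith), h1.2.trans (by linarith)⟩
  have hτN : d / 2 * N / (4 * (1 + A)) = τ * N := by rw [hτ]; ring
  have t1 : ∀ i j, i ≠ j → τ * N ≤ |((DN (a N) (-(b N)) (x i)).1 : ℝ) - (DN (a N) (-(b N)) (x j)).1| ∨
      τ * N ≤ |((DN (a N) (-(b N)) (x i)).2 : ℝ) - (DN (a N) (-(b N)) (x j)).2| := fun i j hij => by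
    rw [← hτN]
    exact DN_sep q1 q2 q3 q4 (by linarith) (hs1 i j hij)
  have t2 : ∀ i j, i ≠ j → τ * N ≤ |((DN (a N) (-(b N)) (x' i)).1 : ℝ) - (DN (a N) (-(b N)) (x' j)).1| ∨
      τ * N ≤ |((DN (a N) (-(b N)) (x' i)).2 : ℝ) - (DN (a N) (-(b N)) (x' j)).2| := fun i j hij => by
    rw [← hτN]
    exact DN_sep q1 q2 q3 q4 (by linarith) (hs2 i j hij)
  have stH : |X.PX X.wh π (fun i => DN (a N) (-(b N)) (x i)) - X.PX X.wh π (fun i => DN (a N) (-(b N)) (x' i))| ≤ m * e := by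
    refine equi (z := 0) (ρ := (1 + A) * (R + 1) * N + 1) (ρ' := A * (r * N) + 1) (D := τ * N) hπ IsW.h c0 t1 t2
      (fun i => DN_near q1 q2 q3 q4 (hsh i) rfl) (ne_top_of_le_ne_top ENNReal.ofReal_ne_top
        ((X.near_mono le_rfl hKN).trans (ms2 N l4 _ IsW.h 0))) hepos.le
      fun i => (X.near_mono le_rfl ?_).trans (nr2 N l2 _ IsW.h _)
    have : A * r * N ≤ η2 / 2 * N := by gcongr
    linarith
  have hme : m * e = ε / 8 := by rw [he]; field_simp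
  rw [hme] at stB stH
  rw [← hH m π _ hπ]
  have z1 := abs_le.1 stB
  have z2 := abs_le.1 stH
  have z3 := abs_le.1 hcol'
  rw [abs_le]
  constructor <;> linarith [z1.1, z1.2, z2.1, z2.2, z3.1, z3.2]

end WSys

end Pool.Agent.ROT.U
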