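import Pool.Agent.ROT.ESweep
import Pool.Agent.ROT.EKer

/-!
# ROT, UNIV, row L1: bumps of the last column (helper70)

`γ` has no cell to the right of the column `q`.  The edges `(q, r) - (q, r + 1)`, `r ∈ D`, of `γ` are moved to the
column `q + 1`.  The result is in the class of `γ` for the strip `q, q + 1`.
-/

set_option autoImplicit false

namespace Pool.Agent.ROT.U.Bp

open Pool.Agent.ROT.E
open Pool.Agent.EXL (Wt)
open Pool.Agent.YBC (Dir)
open Pool.Agent.ROT.E.Lab (cn_oc cn_refl cn_symm cn_trans cn_vp cn_rv rv_rv vp_vp oc_vp)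

/-- the new cell of the column `q`; `s`, `n` = the edge below, above is moved -/
def ca : Cell → Bool → Bool → Cell
  | .v, false, false => .v
  | .v, false, true => .se
  | .v, true, false => .ne
  | .v, true, true => .o
  | .nw, _, false => .nw
  | .nw, _, true => .h
  | .sw, false, _ => .sw
  | .sw, true, _ => .h
  | c, _, _ => c

/-- the new cell of the column `q + 1` -/
def cb : Cell → Bool → Bool → Cell
  | .v, false, false => .o
  | .v, false, true => .nw
  | .v, true, false => .sw
  | .v, true, true => .v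
  | .nw, _, true => .nw
  | .sw, true, _ => .sw
  | _, _, _ => .o

theorem ca_o (s n : Bool) : ca .o s n = .o := by cases s <;> cases n <;> rfl

theorem cb_o (s n : Bool) : cb .o s n = .o := by cases s <;> cases n <;> rfl

/-- the bumped configuration -/
noncomputable def bump (q : ℤ) (D : Finset ℤ) (γ : Cfg) : Cfg :=
  Finsupp.onFinset (γ.support ∪ γ.support.image fun v => (q + 1, v.2))
    (fun v => if v.1 = q then ca (γ v) (decide (v.2 - 1 ∈ D)) (decide (v.2 ∈ D)) else
      if v.1 = q + 1 then cb (γ (q, v.2)) (decide (v.2 - 1 ∈ D)) (decide (v.2 ∈ D)) else γ v) (by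
    intro v hv
    rw [Finset.mem_union, Finset.mem_image]
    by_cases h1 : v.1 = q
    · rw [if_pos h1] at hv
      refine Or.inl (Finsupp.mem_support_iff.2 fun h => hv ?_)
      rw [h]
      exact ca_o _ _
    · rw [if_neg h1] at hv
      by_cases h2 : v.1 = q + 1
      · rw [if_pos h2] at hv
        refine Or.inr ⟨(q, v.2), Finsupp.mem_support_iff.2 fun h => hv ?_, Prod.ext h2.symm rfl⟩
        rw [h]
        exact cb_o _ _
      · rw [if_neg h2] at hv
        exact Or.inl (Finsupp.mem_support_iff.2 hv))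

variable {q : ℤ} {D : Finset ℤ} {γ : Cfg}

theorem bump_q (r : ℤ) : bump q D γ (q, r) = ca (γ (q, r)) (decide (r - 1 ∈ D)) (decide (r ∈ D)) := by
  show (if q = q then _ else _) = _
  rw [if_pos rfl]

theorem bump_q1 (r : ℤ) : bump q D γ (q + 1, r) = cb (γ (q, r)) (decide (r - 1 ∈ D)) (decide (r ∈ D)) := by
  show (if q + 1 = q then _ else if q + 1 = q + 1 then _ else _) = _
  rw [if_neg (by omega), if_pos rfl]

theorem bump_out {v : Pt} (h : v ∉ Sp q) : bump q D γ v = γ v := by
  have h' : ¬ (v.1 = q ∨ v.1 = q + 1) := h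
  rw [not_or] at h'
  show (if v.1 = q then _ else if v.1 = q + 1 then _ else _) = _
  rw [if_neg h'.1, if_neg h'.2]

/-- the hypotheses -/
structure Bh (q : ℤ) (D : Finset ℤ) (γ : Cfg) : Prop where
  mt : Mt γ Set.univ
  rb : ∀ v : Pt, q < v.1 → γ v = .o
  dd : ∀ r ∈ D, oc γ ((q, r), .N)

/-- a consistent cell -/
def okc (c : Cell) (s n : Prop) : Prop := ¬ c.oc .E ∧ (s → c.oc .S) ∧ (n → c.oc .N)

theorem Bh.okc (h : Bh q D γ) (r : ℤ) : okc (γ (q, r)) (r - 1 ∈ D) (r ∈ D) := by
  refine ⟨fun he => ?_, fun hs => ?_, fun hn => h.dd r hn⟩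
  · have e : rv ((q, r), Dir.E) = ((q + 1, r), .W) := rfl
    have h1 := (h.mt ((q, r), .E) trivial trivial).1 he
    rw [e] at h1
    have h2 : (γ (q + 1, r)).oc .W := h1
    rw [h.rb (q + 1, r) (by simp)] at h2
    exact h2 rfl
  · have e : rv ((q, r - 1), Dir.N) = ((q, r), .S) := by simp [rv, nx, Dir.op]
    have h1 := (h.mt ((q, r - 1), .N) trivial trivial).1 (h.dd _ hs)
    rw [e] at h1
    exact h1

theorem four {c : Cell} (h : ¬ c.oc .E) : c = .o ∨ c = .v ∨ c = .nw ∨ c = .sw := by
  cases c <;> first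
    | exact Or.inl rfl
    | exact Or.inr (Or.inl rfl)
    | exact Or.inr (Or.inr (Or.inl rfl))
    | exact Or.inr (Or.inr (Or.inr rfl))
    | exact absurd (by decide) h

/-- cases of a consistent cell -/
theorem okc_cases {c : Cell} {s n : Prop} (h : okc c s n) :
    (c = .o ∧ ¬ s ∧ ¬ n) ∨ c = .v ∨ (c = .nw ∧ ¬ s) ∨ (c = .sw ∧ ¬ n) := by
  rcases four h.1 with rfl | rfl | rfl | rfl
  · exact Or.inl ⟨rfl, fun hs => absurd (h.2.1 hs) (by decide), fun hn => absurd (h.2.2 hn) (by decide)⟩
  · exact Or.inr (Or.inl rfl)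
  · exact Or.inr (Or.inr (Or.inl ⟨rfl, fun hs => absurd (h.2.1 hs) (by decide)⟩))
  · exact Or.inr (Or.inr (Or.inr ⟨rfl, fun hn => absurd (h.2.2 hn) (by decide)⟩))

section cell

variable {c : Cell} {s n : Bool}

theorem ca_W (h : okc c (s = true) (n = true)) : (ca c s n).oc .W ↔ c.oc .W := by
  rcases okc_cases h with ⟨rfl, h1, h2⟩ | rfl | ⟨rfl, h1⟩ | ⟨rfl, h1⟩ <;> cases s <;> cases n <;>
    simp_all [ca, Cell.oc, Cell.p]

theorem ca_N (h : okc c (s = true) (n = true)) : (ca c s n).oc .N ↔ c.oc .N ∧ n = false := by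
  rcases okc_cases h with ⟨rfl, h1, h2⟩ | rfl | ⟨rfl, h1⟩ | ⟨rfl, h1⟩ <;> cases s <;> cases n <;>
    simp_all [ca, Cell.oc, Cell.p]

theorem ca_S (h : okc c (s = true) (n = true)) : (ca c s n).oc .S ↔ c.oc .S ∧ s = false := by
  rcases okc_cases h with ⟨rfl, h1, h2⟩ | rfl | ⟨rfl, h1⟩ | ⟨rfl, h1⟩ <;> cases s <;> cases n <;>
    simp_all [ca, Cell.oc, Cell.p]

theorem ca_E (h : okc c (s = true) (n = true)) : (ca c s n).oc .E ↔ s ≠ n := by
  rcases okc_cases h with ⟨rfl, h1, h2⟩ | rfl | ⟨rfl, h1⟩ | ⟨rfl, h1⟩ <;> cases s <;> cases n <;>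
    simp_all [ca, Cell.oc, Cell.p]

theorem cb_W (h : okc c (s = true) (n = true)) : (cb c s n).oc .W ↔ s ≠ n := by
  rcases okc_cases h with ⟨rfl, h1, h2⟩ | rfl | ⟨rfl, h1⟩ | ⟨rfl, h1⟩ <;> cases s <;> cases n <;>
    simp_all [cb, Cell.oc, Cell.p]

theorem cb_N (h : okc c (s = true) (n = true)) : (cb c s n).oc .N ↔ n = true := by
  rcases okc_cases h with ⟨rfl, h1, h2⟩ | rfl | ⟨rfl, h1⟩ | ⟨rfl, h1⟩ <;> cases s <;> cases n <;>
    simp_all [cb, Cell.oc, Cell.p]

theorem cb_S (h : okc c (s = true) (n = true)) : (cb c s n).oc .S ↔ s = true := by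
  rcases okc_cases h with ⟨rfl, h1, h2⟩ | rfl | ⟨rfl, h1⟩ | ⟨rfl, h1⟩ <;> cases s <;> cases n <;>
    simp_all [cb, Cell.oc, Cell.p]

theorem cb_E (h : okc c (s = true) (n = true)) : ¬ (cb c s n).oc .E := by
  rcases okc_cases h with ⟨rfl, h1, h2⟩ | rfl | ⟨rfl, h1⟩ | ⟨rfl, h1⟩ <;> cases s <;> cases n <;>
    simp_all [cb, Cell.oc, Cell.p]

end cell

theorem Bh.okb (h : Bh q D γ) (r : ℤ) :
    Bp.okc (γ (q, r)) (decide (r - 1 ∈ D) = true) (decide (r ∈ D) = true) := by
  simp only [decide_eq_true_eq]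
  exact h.okc r

theorem oc_q {h : Bh q D γ} (r : ℤ) : (oc (bump q D γ) ((q, r), .W) ↔ oc γ ((q, r), .W)) ∧
    (oc (bump q D γ) ((q, r), .N) ↔ oc γ ((q, r), .N) ∧ r ∉ D) ∧
    (oc (bump q D γ) ((q, r), .S) ↔ oc γ ((q, r), .S) ∧ r - 1 ∉ D) ∧
    (oc (bump q D γ) ((q, r), .E) ↔ ¬ (r - 1 ∈ D ↔ r ∈ D)) := by
  have hk := h.okb r
  refine ⟨?_, ?_, ?_, ?_⟩
  · show (bump q D γ (q, r)).oc .W ↔ _
    rw [bump_q, ca_W hk]
    rfl
  · show (bump q D γ (q, r)).oc .N ↔ _
    rw [bump_q, ca_N hk, decide_eq_false_iff_not]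
    rfl
  · show (bump q D γ (q, r)).oc .S ↔ _
    rw [bump_q, ca_S hk, decide_eq_false_iff_not]
    rfl
  · show (bump q D γ (q, r)).oc .E ↔ _
    rw [bump_q, ca_E hk, Ne, decide_eq_decide]

theorem oc_q1 {h : Bh q D γ} (r : ℤ) : (oc (bump q D γ) ((q + 1, r), .W) ↔ ¬ (r - 1 ∈ D ↔ r ∈ D)) ∧
    (oc (bump q D γ) ((q + 1, r), .N) ↔ r ∈ D) ∧ (oc (bump q D γ) ((q + 1, r), .S) ↔ r - 1 ∈ D) ∧
    ¬ oc (bump q D γ) ((q + 1, r), .E) := by
  have hk := h.okb r
  refine ⟨?_, ?_, ?_, ?_⟩
  · show (bump q D γ (q + 1, r)).oc .W ↔ _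
    rw [bump_q1, cb_W hk, Ne, decide_eq_decide]
  · show (bump q D γ (q + 1, r)).oc .N ↔ _
    rw [bump_q1, cb_N hk, decide_eq_true_eq]
  · show (bump q D γ (q + 1, r)).oc .S ↔ _
    rw [bump_q1, cb_S hk, decide_eq_true_eq]
  · show ¬ (bump q D γ (q + 1, r)).oc .E
    rw [bump_q1]
    exact cb_E hk

theorem oc_out {x : He} (h : x.1 ∉ Sp q) : oc (bump q D γ) x ↔ oc γ x := by
  show (bump q D γ x.1).oc x.2 ↔ _
  rw [bump_out h]
  rfl

theorem nSp {x r : ℤ} (h1 : x ≠ q) (h2 : x ≠ q + 1) : ((x, r) : Pt) ∉ Sp q := by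
  rintro (h | h)
  · exact h1 h
  · exact h2 h

/-- **the edges fit** -/
theorem mt_bump (h : Bh q D γ) : Mt (bump q D γ) Set.univ := by
  have mN : ∀ x y : ℤ, oc (bump q D γ) ((x, y), .N) ↔ oc (bump q D γ) ((x, y + 1), .S) := by
    intro x y
    have m : oc γ ((x, y), .N) ↔ oc γ ((x, y + 1), .S) := h.mt ((x, y), .N) trivial trivial
    by_cases h1 : x = q
    · subst h1
      rw [(oc_q (h := h) y).2.1, (oc_q (h := h) (y + 1)).2.2.1, m]
      simp
    · by_cases h2 : x = q + 1
      · subst h2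
        rw [(oc_q1 (h := h) y).2.1, (oc_q1 (h := h) (y + 1)).2.2.1]
        simp
      · rw [oc_out (nSp h1 h2), oc_out (nSp h1 h2), m]
  have mE : ∀ x y : ℤ, oc (bump q D γ) ((x, y), .E) ↔ oc (bump q D γ) ((x + 1, y), .W) := by
    intro x y
    have m : oc γ ((x, y), .E) ↔ oc γ ((x + 1, y), .W) := h.mt ((x, y), .E) trivial trivial
    by_cases h1 : x = q
    · subst h1
      rw [(oc_q (h := h) y).2.2.2, (oc_q1 (h := h) y).1]
    · by_cases h2 : x = q + 1
      · subst h2
        refine iff_of_false (oc_q1 (h := h) y).2.2.2 ?_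
        have h6 : ((q + 1 + 1, y) : Pt) ∉ Sp q := nSp (by omega) (by omega)
        rw [oc_out (x := ((q + 1 + 1, y), .W)) h6]
        intro hc
        have h3 : (γ (q + 1 + 1, y)).oc .W := hc
        rw [h.rb (q + 1 + 1, y) (by show q < q + 1 + 1; omega)] at h3
        exact h3 rfl
      · rw [oc_out (nSp h1 h2), m]
        by_cases h3 : x + 1 = q
        · subst h3
          rw [(oc_q (h := h) y).1]
        · by_cases h4 : x + 1 = q + 1
          · omega
          · rw [oc_out (nSp h3 h4)]
  rintro ⟨⟨x, y⟩, d⟩ _ _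
  cases d with
  | N => exact mN x y
  | E => exact mE x y
  | S =>
    have e : rv ((x, y), Dir.S) = ((x, y - 1), .N) := rfl
    have := mN x (y - 1)
    rw [sub_add_cancel] at this
    rw [e, this]
  | W =>
    have e : rv ((x, y), Dir.W) = ((x - 1, y), .E) := rfl
    have := mE (x - 1) y
    rw [sub_add_cancel] at this
    rw [e, this]

/-! ### the connections -/

/-- the half edge of `γ` of a half edge of the strip -/
def psi (q : ℤ) (D : Finset ℤ) (h : He) : He :=
  ((q, h.1.2), match h.2 with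
    | .N => .N
    | .S => .S
    | .E => if h.1.2 ∈ D then .N else .S
    | .W => if h.1.1 = q then .W else if h.1.2 ∈ D then .N else .S)

/-- the half edge of the bumped configuration -/
def phi (q : ℤ) (D : Finset ℤ) (h : He) : He :=
  match h.2 with
    | .N => if h.1.2 ∈ D then ((q + 1, h.1.2), .N) else ((q, h.1.2), .N)
    | .S => if h.1.2 - 1 ∈ D then ((q + 1, h.1.2), .S) else ((q, h.1.2), .S)
    | d => ((q, h.1.2), d)

theorem Sq (r : ℤ) : ((q, r) : Pt) ∈ Sp q := Or.inl rfl

theorem Sq1 (r : ℤ) : ((q + 1, r) : Pt) ∈ Sp q := Or.inr rfl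

theorem not_q1 (h : Bh q D γ) {x : He} (hx : x.1 ∈ Sp q) (ho : oc γ x) : x.1.1 = q := by
  rcases hx with h1 | h1
  · exact h1
  · exfalso
    have h2 : (γ x.1).oc x.2 := ho
    rw [h.rb x.1 (by rw [h1]; omega)] at h2
    exact h2 rfl

/-- the passage inside of the row -/
theorem pass (h : Bh q D γ) (r : ℤ) {d : Dir} (ho : oc γ ((q, r), d)) :
    Cn (bump q D γ) (Sp q) (phi q D ((q, r), d)) (phi q D ((q, r), (γ (q, r)).p d)) := by
  have rE : rv ((q, r), Dir.E) = ((q + 1, r), .W) := rfl
  have hk := h.okc r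
  have hd : (γ (q, r)).oc d := ho
  -- links of the bumped configuration
  have c1 : ∀ d, (bump q D γ (q, r)).oc d →
      Cn (bump q D γ) (Sp q) ((q, r), d) ((q, r), (bump q D γ (q, r)).p d) := fun d hd =>
    cn_vp (δ := bump q D γ) (h := ((q, r), d)) hd (Sq r)
  have c2 : ∀ d, (bump q D γ (q + 1, r)).oc d →
      Cn (bump q D γ) (Sp q) ((q + 1, r), d) ((q + 1, r), (bump q D γ (q + 1, r)).p d) := fun d hd =>
    cn_vp (δ := bump q D γ) (h := ((q + 1, r), d)) hd (Sq1 r)
  have c3 : (bump q D γ (q, r)).oc .E → Cn (bump q D γ) (Sp q) ((q, r), .E) ((q + 1, r), .W) := fun hd =>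
    cn_rv (δ := bump q D γ) (h := ((q, r), .E)) hd (Sq r) (Sq1 r)
  have e1 := bump_q (q := q) (D := D) (γ := γ) r
  have e2 := bump_q1 (q := q) (D := D) (γ := γ) r
  rcases okc_cases hk with ⟨hc, h1, h2⟩ | hc | ⟨hc, h1⟩ | ⟨hc, h1⟩
  · rw [hc] at hd
    exact absurd rfl hd
  · by_cases hs : r - 1 ∈ D <;> by_cases hn : r ∈ D
    · have e1' : bump q D γ (q, r) = .o := by rw [e1, hc]; simp [hs, hn, ca]
      have e2' : bump q D γ (q + 1, r) = .v := by rw [e2, hc]; simp [hs, hn, cb]
      rw [e2'] at c2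
      rw [hc] at hd ⊢
      cases d
      · exact absurd rfl hd
      · have := c2 .N (by decide)
        simpa [phi, hs, hn, Cell.p] using this
      · exact absurd rfl hd
      · have := c2 .S (by decide)
        simpa [phi, hs, hn, Cell.p] using this
    · have e1' : bump q D γ (q, r) = .ne := by rw [e1, hc]; simp [hs, hn, ca]
      have e2' : bump q D γ (q + 1, r) = .sw := by rw [e2, hc]; simp [hs, hn, cb]
      rw [e2'] at c2
      rw [e1'] at c1 c3
      have k1 := cn_trans (cn_trans (c1 .N (by decide)) (c3 (by decide))) (c2 .W (by decide))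
      rw [hc] at hd ⊢
      cases d
      · exact absurd rfl hd
      · simpa [phi, hs, hn, Cell.p] using k1
      · exact absurd rfl hd
      · simpa [phi, hs, hn, Cell.p] using cn_symm k1
    · have e1' : bump q D γ (q, r) = .se := by rw [e1, hc]; simp [hs, hn, ca]
      have e2' : bump q D γ (q + 1, r) = .nw := by rw [e2, hc]; simp [hs, hn, cb]
      rw [e2'] at c2
      rw [e1'] at c1 c3
      have k1 := cn_trans (cn_trans (c1 .S (by decide)) (c3 (by decide))) (c2 .W (by decide))
      rw [hc] at hd ⊢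
      cases d
      · exact absurd rfl hd
      · simpa [phi, hs, hn, Cell.p] using cn_symm k1
      · exact absurd rfl hd
      · simpa [phi, hs, hn, Cell.p] using k1
    · have e1' : bump q D γ (q, r) = .v := by rw [e1, hc]; simp [hs, hn, ca]
      rw [e1'] at c1
      rw [hc] at hd ⊢
      cases d
      · exact absurd rfl hd
      · have := c1 .N (by decide)
        simpa [phi, hs, hn, Cell.p] using this
      · exact absurd rfl hd
      · have := c1 .S (by decide)
        simpa [phi, hs, hn, Cell.p] using this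
  · by_cases hn : r ∈ D
    · have e1' : bump q D γ (q, r) = .h := by rw [e1, hc]; simp [h1, hn, ca]
      have e2' : bump q D γ (q + 1, r) = .nw := by rw [e2, hc]; simp [h1, hn, cb]
      rw [e2'] at c2
      rw [e1'] at c1 c3
      have k1 := cn_trans (cn_trans (c1 .W (by decide)) (c3 (by decide))) (c2 .W (by decide))
      rw [hc] at hd ⊢
      cases d
      · exact absurd rfl hd
      · simpa [phi, h1, hn, Cell.p] using cn_symm k1
      · simpa [phi, h1, hn, Cell.p] using k1
      · exact absurd rfl hd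
    · have e1' : bump q D γ (q, r) = .nw := by rw [e1, hc]; simp [h1, hn, ca]
      rw [e1'] at c1
      rw [hc] at hd ⊢
      cases d
      · exact absurd rfl hd
      · have := c1 .N (by decide)
        simpa [phi, h1, hn, Cell.p] using this
      · have := c1 .W (by decide)
        simpa [phi, h1, hn, Cell.p] using this
      · exact absurd rfl hd
  · by_cases hs : r - 1 ∈ D
    · have e1' : bump q D γ (q, r) = .h := by rw [e1, hc]; simp [hs, h1, ca]
      have e2' : bump q D γ (q + 1, r) = .sw := by rw [e2, hc]; simp [hs, h1, cb]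
      rw [e2'] at c2
      rw [e1'] at c1 c3
      have k1 := cn_trans (cn_trans (c1 .W (by decide)) (c3 (by decide))) (c2 .W (by decide))
      rw [hc] at hd ⊢
      cases d
      · exact absurd rfl hd
      · exact absurd rfl hd
      · simpa [phi, h1, hs, Cell.p] using k1
      · simpa [phi, h1, hs, Cell.p] using cn_symm k1
    · have e1' : bump q D γ (q, r) = .sw := by rw [e1, hc]; simp [hs, h1, ca]
      rw [e1'] at c1
      rw [hc] at hd ⊢
      cases d
      · exact absurd rfl hd
      · exact absurd rfl hd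
      · have := c1 .W (by decide)
        simpa [phi, h1, hs, Cell.p] using this
      · have := c1 .S (by decide)
        simpa [phi, h1, hs, Cell.p] using this

/-- a link of `γ` is a connection of the bumped configuration -/
theorem lk_phi (h : Bh q D γ) {x y : He} (l : Lk γ (Sp q) x y) : Cn (bump q D γ) (Sp q) (phi q D x) (phi q D y) := by
  obtain ⟨ho, hx, hy⟩ := l
  obtain ⟨⟨a, r⟩, d⟩ := x
  have ha : a = q := not_q1 h hx ho
  subst ha
  rcases hy with rfl | ⟨rfl, hy⟩
  · exact pass h r ho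
  · cases d with
    | N =>
      have e : rv ((a, r), Dir.N) = ((a, r + 1), .S) := rfl
      rw [e]
      by_cases hn : r ∈ D
      · have k : Cn (bump a D γ) (Sp a) ((a + 1, r), .N) (rv ((a + 1, r), .N)) :=
          cn_rv (((oc_q1 (h := h) r).2.1).2 hn) (Sq1 r) (Sq1 (r + 1))
        simpa [phi, hn, rv, nx, Dir.op] using k
      · have k : Cn (bump a D γ) (Sp a) ((a, r), .N) (rv ((a, r), .N)) :=
          cn_rv (((oc_q (h := h) r).2.1).2 ⟨ho, hn⟩) (Sq r) (Sq (r + 1))
        simpa [phi, hn, rv, nx, Dir.op] using k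
    | S =>
      have e : rv ((a, r), Dir.S) = ((a, r - 1), .N) := rfl
      rw [e]
      by_cases hn : r - 1 ∈ D
      · have k : Cn (bump a D γ) (Sp a) ((a + 1, r), .S) (rv ((a + 1, r), .S)) :=
          cn_rv (((oc_q1 (h := h) r).2.2.1).2 hn) (Sq1 r) (Sq1 (r - 1))
        simpa [phi, hn, rv, nx, Dir.op] using k
      · have k : Cn (bump a D γ) (Sp a) ((a, r), .S) (rv ((a, r), .S)) :=
          cn_rv (((oc_q (h := h) r).2.2.1).2 ⟨ho, hn⟩) (Sq r) (Sq (r - 1))
        simpa [phi, hn, rv, nx, Dir.op] using k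
    | E =>
      exact absurd ho (h.okc r).1
    | W =>
      exfalso
      have e : rv ((a, r), Dir.W) = ((a - 1, r), .E) := rfl
      rw [e] at hy
      exact nSp (by omega) (by omega) hy

theorem cn_phi (h : Bh q D γ) {x y : He} (c : Cn γ (Sp q) x y) : Cn (bump q D γ) (Sp q) (phi q D x) (phi q D y) := by
  induction c with
  | rel _ _ l => exact lk_phi h l
  | refl _ => exact cn_refl _
  | symm _ _ _ ih => exact cn_symm ih
  | trans _ _ _ _ _ ih1 ih2 => exact cn_trans ih1 ih2

/-- the passage, back -/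
theorem pass' (h : Bh q D γ) (x : Pt) (hx : x ∈ Sp q) {d : Dir} (ho : oc (bump q D γ) (x, d)) :
    Cn γ (Sp q) (psi q D (x, d)) (psi q D (x, (bump q D γ x).p d)) := by
  obtain ⟨a, r⟩ := x
  have hk := h.okc r
  have c1 : ∀ d, (γ (q, r)).oc d → Cn γ (Sp q) ((q, r), d) ((q, r), (γ (q, r)).p d) := fun d hd =>
    cn_vp (δ := γ) (h := ((q, r), d)) hd (Sq r)
  have hd : (bump q D γ (a, r)).oc d := ho
  rcases hx with ha | ha
  · have ha' : a = q := ha
    subst ha'
    have e1 := bump_q (q := a) (D := D) (γ := γ) r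
    rcases okc_cases hk with ⟨hc, h1, h2⟩ | hc | ⟨hc, h1⟩ | ⟨hc, h1⟩
    · have e1' : bump a D γ (a, r) = .o := by rw [e1, hc, ca_o]
      rw [e1'] at hd
      exact absurd rfl hd
    · rw [hc] at c1
      have k1 := c1 .N (by decide)
      have k2 := c1 .S (by decide)
      by_cases hs : r - 1 ∈ D <;> by_cases hn : r ∈ D
      · have e1' : bump a D γ (a, r) = .o := by rw [e1, hc]; simp [hs, hn, ca]
        rw [e1'] at hd
        exact absurd rfl hd
      · have e1' : bump a D γ (a, r) = .ne := by rw [e1, hc]; simp [hs, hn, ca]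
        rw [e1'] at hd ⊢
        cases d <;> first
          | exact absurd rfl hd
          | (simpa [psi, hs, hn, Cell.p] using k1)
          | (simpa [psi, hs, hn, Cell.p] using k2)
      · have e1' : bump a D γ (a, r) = .se := by rw [e1, hc]; simp [hs, hn, ca]
        rw [e1'] at hd ⊢
        cases d <;> first
          | exact absurd rfl hd
          | (simpa [psi, hs, hn, Cell.p] using k1)
          | (simpa [psi, hs, hn, Cell.p] using k2)
      · have e1' : bump a D γ (a, r) = .v := by rw [e1, hc]; simp [hs, hn, ca]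
        rw [e1'] at hd ⊢
        cases d <;> first
          | exact absurd rfl hd
          | (simpa [psi, hs, hn, Cell.p] using k1)
          | (simpa [psi, hs, hn, Cell.p] using k2)
    · rw [hc] at c1
      have k1 := c1 .N (by decide)
      have k2 := c1 .W (by decide)
      by_cases hn : r ∈ D
      · have e1' : bump a D γ (a, r) = .h := by rw [e1, hc]; simp [h1, hn, ca]
        rw [e1'] at hd ⊢
        cases d <;> first
          | exact absurd rfl hd
          | (simpa [psi, h1, hn, Cell.p] using k1)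
          | (simpa [psi, h1, hn, Cell.p] using k2)
      · have e1' : bump a D γ (a, r) = .nw := by rw [e1, hc]; simp [h1, hn, ca]
        rw [e1'] at hd ⊢
        cases d <;> first
          | exact absurd rfl hd
          | (simpa [psi, h1, hn, Cell.p] using k1)
          | (simpa [psi, h1, hn, Cell.p] using k2)
    · rw [hc] at c1
      have k1 := c1 .S (by decide)
      have k2 := c1 .W (by decide)
      by_cases hs : r - 1 ∈ D
      · have e1' : bump a D γ (a, r) = .h := by rw [e1, hc]; simp [hs, h1, ca]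
        rw [e1'] at hd ⊢
        cases d <;> first
          | exact absurd rfl hd
          | (simpa [psi, h1, hs, Cell.p] using k1)
          | (simpa [psi, h1, hs, Cell.p] using k2)
      · have e1' : bump a D γ (a, r) = .sw := by rw [e1, hc]; simp [hs, h1, ca]
        rw [e1'] at hd ⊢
        cases d <;> first
          | exact absurd rfl hd
          | (simpa [psi, h1, hs, Cell.p] using k1)
          | (simpa [psi, h1, hs, Cell.p] using k2)
  · have ha' : a = q + 1 := ha
    subst ha'
    have e2 := bump_q1 (q := q) (D := D) (γ := γ) r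
    rcases okc_cases hk with ⟨hc, h1, h2⟩ | hc | ⟨hc, h1⟩ | ⟨hc, h1⟩
    · have e2' : bump q D γ (q + 1, r) = .o := by rw [e2, hc, cb_o]
      rw [e2'] at hd
      exact absurd rfl hd
    · rw [hc] at c1
      have k1 := c1 .N (by decide)
      have k2 := c1 .S (by decide)
      by_cases hs : r - 1 ∈ D <;> by_cases hn : r ∈ D
      · have e2' : bump q D γ (q + 1, r) = .v := by rw [e2, hc]; simp [hs, hn, cb]
        rw [e2'] at hd ⊢
        cases d <;> first
          | exact absurd rfl hd
          | (simpa [psi, hs, hn, Cell.p] using k1)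
          | (simpa [psi, hs, hn, Cell.p] using k2)
      · have e2' : bump q D γ (q + 1, r) = .sw := by rw [e2, hc]; simp [hs, hn, cb]
        rw [e2'] at hd ⊢
        cases d <;> first
          | exact absurd rfl hd
          | (simp [psi, hn, Cell.p]; exact cn_refl _)
      · have e2' : bump q D γ (q + 1, r) = .nw := by rw [e2, hc]; simp [hs, hn, cb]
        rw [e2'] at hd ⊢
        cases d <;> first
          | exact absurd rfl hd
          | (simp [psi, hn, Cell.p]; exact cn_refl _)
      · have e2' : bump q D γ (q + 1, r) = .o := by rw [e2, hc]; simp [hs, hn, cb]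
        rw [e2'] at hd
        exact absurd rfl hd
    · by_cases hn : r ∈ D
      · have e2' : bump q D γ (q + 1, r) = .nw := by rw [e2, hc]; simp [h1, hn, cb]
        rw [e2'] at hd ⊢
        cases d <;> first
          | exact absurd rfl hd
          | (simp [psi, hn, Cell.p]; exact cn_refl _)
      · have e2' : bump q D γ (q + 1, r) = .o := by rw [e2, hc]; simp [h1, hn, cb]
        rw [e2'] at hd
        exact absurd rfl hd
    · by_cases hs : r - 1 ∈ D
      · have e2' : bump q D γ (q + 1, r) = .sw := by rw [e2, hc]; simp [hs, h1, cb]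
        rw [e2'] at hd ⊢
        cases d <;> first
          | exact absurd rfl hd
          | (simp [psi, h1, Cell.p]; exact cn_refl _)
      · have e2' : bump q D γ (q + 1, r) = .o := by rw [e2, hc]; simp [hs, h1, cb]
        rw [e2'] at hd
        exact absurd rfl hd

/-- a used half edge comes from a used half edge, and is connected with it -/
theorem psi_oc (h : Bh q D γ) {x : He} (hx : x.1 ∈ Sp q) (ho : oc (bump q D γ) x) :
    oc γ (psi q D x) ∧ Cn (bump q D γ) (Sp q) x (phi q D (psi q D x)) := by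
  obtain ⟨⟨a, r⟩, d⟩ := x
  have hk := h.okc r
  have rE : rv ((q, r), Dir.E) = ((q + 1, r), .W) := rfl
  have sN : r ∈ D → oc γ ((q, r), .N) := fun h' => hk.2.2 h'
  have sS : r - 1 ∈ D → oc γ ((q, r), .S) := fun h' => hk.2.1 h'
  have cW : oc (bump q D γ) ((q + 1, r), .W) →
      Cn (bump q D γ) (Sp q) ((q + 1, r), .W) (phi q D (psi q D ((q + 1, r), .W))) := by
    intro hw
    have hw' := ((oc_q1 (h := h) r).1).1 hw
    have k := cn_vp (δ := bump q D γ) (h := ((q + 1, r), .W)) hw (Sq1 r)
    have e2 := bump_q1 (q := q) (D := D) (γ := γ) r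
    unfold vp at k
    simp only at k
    rw [e2] at k
    rcases okc_cases hk with ⟨hc, h1, h2⟩ | hc | ⟨hc, h1⟩ | ⟨hc, h1⟩
    · exact absurd ⟨fun h => absurd h h1, fun h => absurd h h2⟩ hw'
    · rw [hc] at k
      by_cases hs : r - 1 ∈ D <;> by_cases hn : r ∈ D
      · exact absurd ⟨fun _ => hn, fun _ => hs⟩ hw'
      · simpa [psi, phi, hs, hn, cb, Cell.p] using k
      · simpa [psi, phi, hs, hn, cb, Cell.p] using k
      · exact absurd ⟨fun h => absurd h hs, fun h => absurd h hn⟩ hw'
    · rw [hc] at k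
      by_cases hn : r ∈ D
      · simpa [psi, phi, h1, hn, cb, Cell.p] using k
      · exact absurd ⟨fun h => absurd h h1, fun h => absurd h hn⟩ hw'
    · rw [hc] at k
      by_cases hs : r - 1 ∈ D
      · simpa [psi, phi, h1, hs, cb, Cell.p] using k
      · exact absurd ⟨fun h => absurd h hs, fun h => absurd h h1⟩ hw'
  rcases hx with ha | ha
  · have ha' : a = q := ha
    subst ha'
    obtain ⟨o1, o2, o3, o4⟩ := oc_q (h := h) r
    cases d with
    | W =>
      have k := o1.1 ho
      refine ⟨by simpa [psi] using k, ?_⟩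
      simp [psi, phi]
      exact cn_refl _
    | N =>
      have k := o2.1 ho
      refine ⟨by simpa [psi] using k.1, ?_⟩
      simp [psi, phi, k.2]
      exact cn_refl _
    | S =>
      have k := o3.1 ho
      refine ⟨by simpa [psi] using k.1, ?_⟩
      simp [psi, phi, k.2]
      exact cn_refl _
    | E =>
      have k := o4.1 ho
      have hw : oc (bump a D γ) ((a + 1, r), .W) := (oc_q1 (h := h) r).1.2 k
      have k1 := cn_rv (δ := bump a D γ) (h := ((a, r), .E)) ho (Sq r) (Sq1 r)
      have e : psi a D ((a, r), .E) = psi a D ((a + 1, r), .W) := by simp [psi]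
      rw [e]
      refine ⟨?_, cn_trans k1 (cW hw)⟩
      by_cases hn : r ∈ D
      · simpa [psi, hn] using sN hn
      · have hs : r - 1 ∈ D := by tauto
        simpa [psi, hn] using sS hs
  · have ha' : a = q + 1 := ha
    subst ha'
    obtain ⟨o1, o2, o3, o4⟩ := oc_q1 (h := h) r
    cases d with
    | W =>
      refine ⟨?_, cW ho⟩
      have k := o1.1 ho
      by_cases hn : r ∈ D
      · simpa [psi, hn] using sN hn
      · have hs : r - 1 ∈ D := by tauto
        simpa [psi, hn] using sS hs
    | N =>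
      have k := o2.1 ho
      refine ⟨by simpa [psi] using sN k, ?_⟩
      simp [psi, phi, k]
      exact cn_refl _
    | S =>
      have k := o3.1 ho
      refine ⟨by simpa [psi] using sS k, ?_⟩
      simp [psi, phi, k]
      exact cn_refl _
    | E => exact absurd ho o4

/-- a link of the bumped configuration is a connection of `γ` -/
theorem lk_psi (h : Bh q D γ) {x y : He} (l : Lk (bump q D γ) (Sp q) x y) : Cn γ (Sp q) (psi q D x) (psi q D y) := by
  obtain ⟨ho, hx, hy⟩ := l
  rcases hy with rfl | ⟨rfl, hy⟩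
  · exact pass' h x.1 hx ho
  · have hp := (psi_oc h hx ho).1
    obtain ⟨⟨a, r⟩, d⟩ := x
    rcases hx with ha | ha
    · have ha' : a = q := ha
      subst ha'
      cases d with
      | N =>
        have k : Cn γ (Sp a) ((a, r), .N) (rv ((a, r), .N)) := cn_rv (by simpa [psi] using hp) (Sq r) (Sq (r + 1))
        simpa [psi, rv, nx, Dir.op] using k
      | S =>
        have k : Cn γ (Sp a) ((a, r), .S) (rv ((a, r), .S)) := cn_rv (by simpa [psi] using hp) (Sq r) (Sq (r - 1))
        simpa [psi, rv, nx, Dir.op] using k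
      | E =>
        have e : psi a D (rv ((a, r), .E)) = psi a D ((a, r), .E) := by
          simp [psi, rv, nx, Dir.op] <;> rfl
        rw [e]
        exact cn_refl _
      | W =>
        exfalso
        have e : rv ((a, r), Dir.W) = ((a - 1, r), .E) := rfl
        rw [e] at hy
        exact nSp (by omega) (by omega) hy
    · have ha' : a = q + 1 := ha
      subst ha'
      cases d with
      | N =>
        have k : Cn γ (Sp q) ((q, r), .N) (rv ((q, r), .N)) := cn_rv (by simpa [psi] using hp) (Sq r) (Sq (r + 1))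
        simpa [psi, rv, nx, Dir.op] using k
      | S =>
        have k : Cn γ (Sp q) ((q, r), .S) (rv ((q, r), .S)) := cn_rv (by simpa [psi] using hp) (Sq r) (Sq (r - 1))
        simpa [psi, rv, nx, Dir.op] using k
      | W =>
        have e : psi q D (rv ((q + 1, r), .W)) = psi q D ((q + 1, r), .W) := by simp [psi, rv, nx, Dir.op]
        rw [e]
        exact cn_refl _
      | E =>
        exfalso
        exact (oc_q1 (h := h) r).2.2.2 ho

theorem cn_psi (h : Bh q D γ) {x y : He} (c : Cn (bump q D γ) (Sp q) x y) : Cn γ (Sp q) (psi q D x) (psi q D y) := by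
  induction c with
  | rel _ _ l => exact lk_psi h l
  | refl _ => exact cn_refl _
  | symm _ _ _ ih => exact cn_symm ih
  | trans _ _ _ _ _ ih1 ih2 => exact cn_trans ih1 ih2

/-- a used boundary half edge of `γ` is on the left -/
theorem bd_left (h : Bh q D γ) {x : He} (hx : x ∈ Bd q) (ho : oc γ x) : ∃ r, x = ((q, r), .W) := by
  rcases bd_cases hx with ⟨r, rfl⟩ | ⟨r, rfl⟩
  · exact absurd (not_q1 h hx.1 ho) (by show ¬ (q + 1 = q); omega)
  · exact ⟨r, rfl⟩

theorem bd_left' (h : Bh q D γ) {x : He} (hx : x ∈ Bd q) (ho : oc (bump q D γ) x) : ∃ r, x = ((q, r), .W) := by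
  rcases bd_cases hx with ⟨r, rfl⟩ | ⟨r, rfl⟩
  · exact absurd ho (oc_q1 (h := h) r).2.2.2
  · exact ⟨r, rfl⟩

/-- **the bumped configuration is in the class** -/
theorem sm1_bump (h : Bh q D γ) (op : ∀ x : He, x.1 ∈ Sp q → oc γ x → ∃ k ∈ Bd q, Cn γ (Sp q) x k) :
    Sm1 q γ (bump q D γ) := by
  have mt' := mt_bump h
  have pW : ∀ r, phi q D ((q, r), .W) = ((q, r), .W) := fun r => rfl
  have sW : ∀ r, psi q D ((q, r), .W) = ((q, r), .W) := fun r => by simp [psi]
  refine ⟨mt', fun v hv => (bump_out hv).symm, fun x hx ho => ?_, fun x hx y hy => ⟨fun c => ?_, fun c => ?_⟩⟩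
  · obtain ⟨h1, h2⟩ := psi_oc h hx ho
    have h3 : (psi q D x).1 ∈ Sp q := Sq _
    obtain ⟨k, hk, ck⟩ := op _ h3 h1
    have ok : oc γ k := by
      rcases cn_oc (Lab.mt_mono h.mt) ck with e | ⟨-, h4, -⟩
      · rw [← e]; exact h1
      · exact h4
    obtain ⟨r, rfl⟩ := bd_left h hk ok
    exact ⟨_, hk, cn_trans h2 (cn_phi h ck)⟩
  · rcases cn_oc (Lab.mt_mono h.mt) c with rfl | ⟨⟨h1, -⟩, h2, -⟩
    · exact cn_refl _
    · obtain ⟨r, rfl⟩ := bd_left h hx h1
      obtain ⟨r', rfl⟩ := bd_left h hy h2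
      have := cn_phi h c
      rwa [pW, pW] at this
  · rcases cn_oc (Lab.mt_mono mt') c with rfl | ⟨⟨h1, -⟩, h2, -⟩
    · exact cn_refl _
    · obtain ⟨r, rfl⟩ := bd_left' h hx h1
      obtain ⟨r', rfl⟩ := bd_left' h hy h2
      have := cn_psi h c
      rwa [sW, sW] at this

end Pool.Agent.ROT.U.Bp
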