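import Pool.Agent.ROT.ULine1

/-!
# ROT, UNIV, row L1: the weights of the bumps (helper70)

`bump_le` : the weight of a loop with right column `q`, with the weights of the column `q` multiplied by factors which
are not too large, is at most the sum of the weights of all its bumps.
-/

set_option autoImplicit false

namespace Pool.Agent.ROT.U.Bp

open Pool.Agent.ROT.E
open Pool.Agent.EXL (Wt)
open Pool.Agent.YBC (Dir)

/-! ### loops, injectivity -/

section

variable {q : ℤ} {D : Finset ℤ} {γ : Cfg}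

theorem lp_bump (h : Bh q D γ) (l : Lp γ) (lv : ∃ v, v ∉ Sp q ∧ γ v ≠ 0) : Lp (bump q D γ) := by
  have s := sm1_bump h fun x hx ho => Lab.esc l lv hx ho
  exact Lab.glue_aux l lv s.out s.mt s.op s.pr

theorem bump_right (h : Bh q D γ) {v : Pt} (hv : q + 1 < v.1) : bump q D γ v = .o := by
  rw [bump_out fun hs => ?_, h.rb v (by omega)]
  rcases hs with h1 | h1 <;> omega

theorem four_ext {c c' : Cell} (h : ¬ c.oc .E) (h' : ¬ c'.oc .E) (hN : c.oc .N ↔ c'.oc .N) (hS : c.oc .S ↔ c'.oc .S)
    (hW : c.oc .W ↔ c'.oc .W) : c = c' := by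
  rcases four h with rfl | rfl | rfl | rfl <;> rcases four h' with rfl | rfl | rfl | rfl <;> first
    | rfl
    | (exfalso; revert hN hS hW; decide)

theorem iff_aux {A B B' C : Prop} (b : A ↔ B ∧ ¬ C) (b' : A ↔ B' ∧ ¬ C) (hc : ¬ C) : B ↔ B' :=
  ⟨fun h => (b'.1 (b.2 ⟨h, hc⟩)).1, fun h => (b.1 (b'.2 ⟨h, hc⟩)).1⟩

theorem bump_inj {D' : Finset ℤ} {γ' : Cfg} (h : Bh q D γ) (h' : Bh q D' γ') (e : bump q D γ = bump q D' γ') :
    D = D' ∧ γ = γ' := by
  have eD : D = D' := by
    ext r
    rw [← (oc_q1 (h := h) r).2.1, ← (oc_q1 (h := h') r).2.1, e]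
  subst eD
  refine ⟨rfl, Finsupp.ext fun v => ?_⟩
  obtain ⟨x, r⟩ := v
  by_cases h1 : x = q
  · subst h1
    have a := oc_q (h := h) r
    have a' := oc_q (h := h') r
    have k := h.okc r
    have k' := h'.okc r
    refine four_ext k.1 k'.1 ?_ ?_ ?_
    · by_cases hn : r ∈ D
      · exact ⟨fun _ => k'.2.2 hn, fun _ => k.2.2 hn⟩
      · have b := a.2.1
        have b' := a'.2.1
        rw [e] at b
        exact iff_aux b b' hn
    · by_cases hs : r - 1 ∈ D
      · exact ⟨fun _ => k'.2.1 hs, fun _ => k.2.1 hs⟩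
      · have b := a.2.2.1
        have b' := a'.2.2.1
        rw [e] at b
        exact iff_aux b b' hs
    · have b := a.1
      have b' := a'.1
      rw [e] at b
      exact b.symm.trans b'
  · by_cases h2 : x = q + 1
    · rw [h.rb (x, r) (by show q < x; omega), h'.rb (x, r) (by show q < x; omega)]
    · have n := nSp (r := r) h1 h2
      rw [← bump_out (D := D) (γ := γ) n, ← bump_out (D := D) (γ := γ') n, e]

end

/-! ### the transfer inequality -/

/-- the weight of the two new cells -/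
def ff (w : Wt ℝ) (c : Cell) (s n : Bool) : ℝ := (ca c s n).wt w * (cb c s n).wt w

/-- the modified weight of a cell of the last column -/
def gg (w : Wt ℝ) (al be Y : ℝ) : Cell → ℝ
  | .nw => al * w.u2
  | .sw => be * w.u1
  | .v => Y * w.v
  | _ => 1

section

variable (w : Wt ℝ) (al be Y : ℝ) (c : ℤ → Cell) (lo : ℤ)

/-- the edges -/
noncomputable def EE (k : ℕ) : Finset ℤ := (Finset.Ico lo (lo + k)).filter fun r => (c r).oc .N

/-- the weight of the first `k` rows -/
noncomputable def FF (k : ℕ) (D : Finset ℤ) : ℝ :=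
  ∏ r ∈ Finset.Ico lo (lo + k), ff w (c r) (decide (r - 1 ∈ D)) (decide (r ∈ D))

theorem Ico_succ' (k : ℕ) : Finset.Ico lo (lo + ((k + 1 : ℕ) : ℤ)) = insert (lo + k) (Finset.Ico lo (lo + k)) := by
  ext r
  simp only [Finset.mem_Ico, Finset.mem_insert]
  push_cast
  omega

theorem EE_succ (k : ℕ) : EE c lo (k + 1) =
    if (c (lo + k)).oc .N then insert (lo + k) (EE c lo k) else EE c lo k := by
  unfold EE
  rw [Ico_succ', Finset.filter_insert]

theorem mem_EE {k : ℕ} {r : ℤ} (h : r ∈ EE c lo k) : r < lo + k := by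
  rw [EE, Finset.mem_filter, Finset.mem_Ico] at h
  exact h.1.2

theorem FF_succ (k : ℕ) (D : Finset ℤ) (hD : ∀ r ∈ D, r < lo + k) :
    FF w c lo (k + 1) D = ff w (c (lo + k)) (decide (lo + k - 1 ∈ D)) false * FF w c lo k D := by
  unfold FF
  rw [Ico_succ', Finset.prod_insert (by simp)]
  have : lo + (k : ℤ) ∉ D := fun h => absurd (hD _ h) (lt_irrefl _)
  simp [this]

theorem FF_succ' (k : ℕ) (D : Finset ℤ) :
    FF w c lo (k + 1) (insert (lo + (k : ℤ)) D) = ff w (c (lo + k)) (decide (lo + k - 1 ∈ D)) true * FF w c lo k D := by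
  unfold FF
  rw [Ico_succ', Finset.prod_insert (by simp)]
  congr 1
  · have e1 : decide (lo + (k : ℤ) - 1 ∈ insert (lo + (k : ℤ)) D) = decide (lo + (k : ℤ) - 1 ∈ D) := by
      rw [decide_eq_decide, Finset.mem_insert]
      constructor
      · rintro (h | h)
        · omega
        · exact h
      · exact Or.inr
    rw [e1]
    simp
  · refine Finset.prod_congr rfl fun r hr => ?_
    rw [Finset.mem_Ico] at hr
    have e1 : decide (r - 1 ∈ insert (lo + (k : ℤ)) D) = decide (r - 1 ∈ D) := by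
      rw [decide_eq_decide, Finset.mem_insert]
      constructor
      · rintro (h | h)
        · omega
        · exact h
      · exact Or.inr
    have e2 : decide (r ∈ insert (lo + (k : ℤ)) D) = decide (r ∈ D) := by
      rw [decide_eq_decide, Finset.mem_insert]
      constructor
      · rintro (h | h)
        · omega
        · exact h
      · exact Or.inr
    rw [e1, e2]

/-- the linear functional of the state of the last edge -/
noncomputable def GG (k : ℕ) (x y : ℝ) : ℝ :=
  ∑ D ∈ (EE c lo k).powerset, FF w c lo k D * (if lo + (k : ℤ) - 1 ∈ D then y else x)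

theorem GG_succ (k : ℕ) (x y : ℝ) : GG w c lo (k + 1) x y =
    GG w c lo k (ff w (c (lo + k)) false false * x + (if (c (lo + k)).oc .N then ff w (c (lo + k)) false true * y else 0))
      (ff w (c (lo + k)) true false * x + (if (c (lo + k)).oc .N then ff w (c (lo + k)) true true * y else 0)) := by
  unfold GG
  have hk : lo + ((k + 1 : ℕ) : ℤ) - 1 = lo + k := by push_cast; ring
  have hn : ∀ D ∈ (EE c lo k).powerset, ∀ r ∈ D, r < lo + k := fun D hD r hr =>
    mem_EE c lo (Finset.mem_powerset.1 hD hr)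
  have hnm : lo + (k : ℤ) ∉ EE c lo k := fun h => absurd (mem_EE c lo h) (lt_irrefl _)
  rw [EE_succ, hk]
  split_ifs with h
  · rw [Finset.sum_powerset_insert hnm, ← Finset.sum_add_distrib]
    refine Finset.sum_congr rfl fun D hD => ?_
    have h1 : lo + (k : ℤ) ∉ D := fun h => absurd (hn D hD _ h) (lt_irrefl _)
    rw [FF_succ w c lo k D (hn D hD), FF_succ' w c lo k D, if_neg h1, if_pos (Finset.mem_insert_self _ _)]
    by_cases h2 : lo + (k : ℤ) - 1 ∈ D
    · simp only [h2, decide_true, if_true]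
      ring
    · simp only [h2, decide_false, if_false]
      ring
  · refine Finset.sum_congr rfl fun D hD => ?_
    have h1 : lo + (k : ℤ) ∉ D := fun h => absurd (hn D hD _ h) (lt_irrefl _)
    rw [FF_succ w c lo k D (hn D hD), if_neg h1]
    by_cases h2 : lo + (k : ℤ) - 1 ∈ D
    · simp only [h2, decide_true, if_true]
      ring
    · simp only [h2, decide_false, if_false]
      ring

end

/-- **the transfer inequality** -/
theorem transfer {w : Wt ℝ} (hw : w.Nn) {al be Y : ℝ} (ha : 0 < al) (hb : 0 ≤ be) (hY : 0 ≤ Y)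
    (h1 : al * be ≤ 1 + w.v ^ 2) (h2 : Y ≤ 1 + w.u1 ^ 2) (h3 : Y * w.v ^ 2 ≤ w.u2 ^ 2 + w.v ^ 2) {c : ℤ → Cell} {lo : ℤ}
    (hE : ∀ r, ¬ (c r).oc .E) (hm : ∀ r, (c r).oc .N ↔ (c (r + 1)).oc .S) (h0 : ¬ (c lo).oc .S) (k : ℕ) :
    ∀ x y : ℝ, 0 ≤ x → 0 ≤ y →
      (∏ r ∈ Finset.Ico lo (lo + k), gg w al be Y (c r)) * (x + if (c (lo + k)).oc .S then w.v * y else 0) ≤
      GG w c lo k x y * (if (c (lo + k)).oc .S then al else 1) := by
  induction k with
  | zero =>
    intro x y hx hy
    simp [GG, FF, EE, h0]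
  | succ k ih =>
    intro x y hx hy
    have hv := hw.v
    have hu1 := hw.u1
    have hu2 := hw.u2
    have hP : 0 ≤ ∏ r ∈ Finset.Ico lo (lo + (k : ℤ)), gg w al be Y (c r) := by
      refine Finset.prod_nonneg fun r _ => ?_
      cases c r <;> simp only [gg] <;> first | exact zero_le_one | positivity
    set P := ∏ r ∈ Finset.Ico lo (lo + (k : ℤ)), gg w al be Y (c r) with hPd
    have e1 : (c (lo + ((k + 1 : ℕ) : ℤ))).oc .S ↔ (c (lo + k)).oc .N := by
      rw [hm]
      push_cast
      rw [add_assoc]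
    rw [Ico_succ', Finset.prod_insert (by simp), ← hPd, GG_succ]
    simp only [e1]
    have ih' := ih
    rcases four (hE (lo + k)) with hc | hc | hc | hc
    · rw [hc] at ih' ⊢
      have nN : ¬ Cell.oc .o .N := by decide
      have nS : ¬ Cell.oc .o .S := by decide
      simp only [nN, nS, if_false, ff, ca, cb, gg, Cell.wt, add_zero, mul_one, one_mul] at ih' ⊢
      exact ih' x x hx hx
    · rw [hc] at ih' ⊢
      have nN : Cell.oc .v .N := by decide
      have nS : Cell.oc .v .S := by decide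
      simp only [nN, nS, if_true, ff, ca, cb, gg, Cell.wt, mul_one, one_mul] at ih' ⊢
      have key := ih' (w.v * x + w.u2 * w.u2 * y) (w.u1 * w.u1 * x + w.v * y) (by positivity) (by positivity)
      refine le_trans ?_ key
      have e2 : Y * w.v * (x + w.v * y) ≤ w.v * x + w.u2 * w.u2 * y + w.v * (w.u1 * w.u1 * x + w.v * y) := by
        have a1 : Y * (w.v * x) ≤ (1 + w.u1 ^ 2) * (w.v * x) := mul_le_mul_of_nonneg_right h2 (by positivity)
        have a2 : Y * w.v ^ 2 * y ≤ (w.u2 ^ 2 + w.v ^ 2) * y := mul_le_mul_of_nonneg_right h3 hy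
        nlinarith [a1, a2]
      calc Y * w.v * P * (x + w.v * y) = P * (Y * w.v * (x + w.v * y)) := by ring
        _ ≤ _ := mul_le_mul_of_nonneg_left e2 hP
    · rw [hc] at ih' ⊢
      have nN : Cell.oc .nw .N := by decide
      have nS : ¬ Cell.oc .nw .S := by decide
      simp only [nN, nS, if_true, if_false, ff, ca, cb, gg, Cell.wt, add_zero, mul_one] at ih' ⊢
      have key := ih' (w.u2 * x + w.v * w.u2 * y) (w.u2 * x + w.v * w.u2 * y) (by positivity) (by positivity)
      have key2 := mul_le_mul_of_nonneg_right key ha.le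
      calc al * w.u2 * P * (x + w.v * y) = P * (w.u2 * x + w.v * w.u2 * y) * al := by ring
        _ ≤ _ := key2
    · rw [hc] at ih' ⊢
      have nN : ¬ Cell.oc .sw .N := by decide
      have nS : Cell.oc .sw .S := by decide
      simp only [nN, nS, if_true, if_false, ff, ca, cb, gg, Cell.wt, add_zero, mul_one] at ih' ⊢
      have key := ih' (w.u1 * x) (w.v * w.u1 * x) (by positivity) (by positivity)
      have e2 : al * (be * w.u1 * P * x) ≤ GG w c lo k (w.u1 * x) (w.v * w.u1 * x) * al := by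
        refine le_trans ?_ key
        have a1 : al * be * (P * w.u1 * x) ≤ (1 + w.v ^ 2) * (P * w.u1 * x) :=
          mul_le_mul_of_nonneg_right h1 (by positivity)
        nlinarith [a1]
      rw [mul_comm al] at e2
      exact le_of_mul_le_mul_right e2 ha

/-! ### the weights of configurations -/

/-- the embedding of a column -/
def cem (q : ℤ) : ℤ ↪ Pt := ⟨fun r => (q, r), fun _ _ h => congrArg Prod.snd h⟩

/-- a product over a configuration whose cells are in the columns `≤ q + 1` -/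
theorem prod_split {F : Pt → Cell → ℝ} (hF : ∀ v, F v .o = 1) {q lo : ℤ} {n : ℕ} {γ δ : Cfg}
    (hl : ∀ v : Pt, v.1 < q → δ v = γ v) (hr : ∀ v : Pt, q + 1 < v.1 → δ v = .o)
    (hrow : ∀ x r : ℤ, (x = q ∨ x = q + 1) → δ (x, r) ≠ .o → r ∈ Finset.Ico lo (lo + (n : ℤ))) :
    δ.prod F = (∏ v ∈ γ.support.filter (fun v => v.1 < q), F v (γ v)) *
      ∏ r ∈ Finset.Ico lo (lo + (n : ℤ)), F (q, r) (δ (q, r)) * F (q + 1, r) (δ (q + 1, r)) := by
  classical
  set A := γ.support.filter (fun v => v.1 < q) with hA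
  set I := Finset.Ico lo (lo + (n : ℤ)) with hI
  have h1 : δ.support ⊆ A ∪ (I.map (cem q) ∪ I.map (cem (q + 1))) := by
    intro v hv
    have hv' := Finsupp.mem_support_iff.1 hv
    obtain ⟨x, r⟩ := v
    rw [Finset.mem_union, Finset.mem_union, Finset.mem_map, Finset.mem_map]
    rcases lt_trichotomy x q with h | h | h
    · left
      rw [hA, Finset.mem_filter, Finsupp.mem_support_iff, ← hl (x, r) h]
      exact ⟨hv', h⟩
    · right; left
      exact ⟨r, hrow x r (Or.inl h) hv', by rw [h]; rfl⟩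
    · by_cases h2 : x = q + 1
      · right; right
        exact ⟨r, hrow x r (Or.inr h2) hv', by rw [h2]; rfl⟩
      · exact absurd (hr (x, r) (by show q + 1 < x; omega)) hv'
  have d1 : Disjoint (I.map (cem q)) (I.map (cem (q + 1))) := by
    rw [Finset.disjoint_left]
    intro v hv hv'
    rw [Finset.mem_map] at hv hv'
    obtain ⟨r, -, rfl⟩ := hv
    obtain ⟨r', -, h⟩ := hv'
    have : q + 1 = q := congrArg Prod.fst h
    omega
  have d2 : Disjoint A (I.map (cem q) ∪ I.map (cem (q + 1))) := by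
    rw [Finset.disjoint_left]
    intro v hv hv'
    rw [hA, Finset.mem_filter] at hv
    rw [Finset.mem_union, Finset.mem_map, Finset.mem_map] at hv'
    rcases hv' with ⟨r, -, rfl⟩ | ⟨r, -, rfl⟩
    · exact absurd hv.2 (by show ¬ q < q; omega)
    · exact absurd hv.2 (by show ¬ q + 1 < q; omega)
  rw [Finsupp.prod_of_support_subset δ h1 F fun v _ => hF v, Finset.prod_union d2, Finset.prod_union d1,
    Finset.prod_map, Finset.prod_map, Finset.prod_mul_distrib]
  congr 1
  refine Finset.prod_congr rfl fun v hv => ?_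
  rw [hA, Finset.mem_filter] at hv
  rw [hl v hv.2]

/-- the vertical edges of the column `q` -/
noncomputable def Ed (q : ℤ) (γ : Cfg) : Finset ℤ :=
  (γ.support.filter fun v => v.1 = q ∧ (γ v).oc .N).image Prod.snd

theorem mem_Ed {q r : ℤ} {γ : Cfg} : r ∈ Ed q γ ↔ oc γ ((q, r), .N) := by
  rw [Ed, Finset.mem_image]
  constructor
  · rintro ⟨⟨x, r'⟩, h, rfl⟩
    rw [Finset.mem_filter] at h
    obtain ⟨-, h1, h2⟩ := h
    have h1' : x = q := h1
    subst h1'
    exact h2
  · intro h
    refine ⟨(q, r), ?_, rfl⟩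
    rw [Finset.mem_filter, Finsupp.mem_support_iff]
    refine ⟨fun h0 => ?_, rfl, h⟩
    have h' : (γ (q, r)).oc .N := h
    rw [h0] at h'
    exact h' rfl

theorem bh_of {q : ℤ} {γ : Cfg} (mt : Mt γ Set.univ) (rb : ∀ v : Pt, q < v.1 → γ v = .o) {D : Finset ℤ}
    (hD : D ∈ (Ed q γ).powerset) : Bh q D γ :=
  ⟨mt, rb, fun _ hr => mem_Ed.1 (Finset.mem_powerset.1 hD hr)⟩

/-- **the bumps**: the weight with modified weights in the last column is at most the sum over the bumps -/
theorem bump_le {W : ℤ → Wt ℝ} (hW : ∀ j, (W j).Nn) {q : ℤ} (hq : W (q + 1) = W q) {al be Y : ℝ} (ha : 0 < al)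
    (hb : 0 ≤ be) (hY : 0 ≤ Y) (h1 : al * be ≤ 1 + (W q).v ^ 2) (h2 : Y ≤ 1 + (W q).u1 ^ 2)
    (h3 : Y * (W q).v ^ 2 ≤ (W q).u2 ^ 2 + (W q).v ^ 2) {γ : Cfg} (mt : Mt γ Set.univ)
    (rb : ∀ v : Pt, q < v.1 → γ v = .o) :
    γ.prod (fun v c => if v.1 = q then gg (W q) al be Y c else c.wt (W v.1)) ≤
      ∑ D ∈ (Ed q γ).powerset, (bump q D γ).prod fun v c => c.wt (W v.1) := by
  classical
  -- a range of rows
  obtain ⟨m, hm⟩ : ∃ m : ℕ, ∀ v, γ v ≠ .o → |v.2| ≤ (m : ℤ) := by
    refine ⟨γ.support.sup fun v => v.2.natAbs, fun v hv => ?_⟩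
    have h1 : v ∈ γ.support := Finsupp.mem_support_iff.2 hv
    have h2 : v.2.natAbs ≤ γ.support.sup fun v => v.2.natAbs :=
      Finset.le_sup (f := fun v : Pt => v.2.natAbs) h1
    have h3 : |v.2| = (v.2.natAbs : ℤ) := Int.abs_eq_natAbs _
    rw [h3]
    exact_mod_cast h2
  set lo : ℤ := -(m : ℤ) with hlo
  set n : ℕ := 2 * m + 2 with hn
  have hmem : ∀ x r : ℤ, γ (x, r) ≠ .o → r ∈ Finset.Ico lo (lo + (n : ℤ)) := by
    intro x r h
    have := abs_le.1 (hm (x, r) h)
    simp only at this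
    rw [Finset.mem_Ico, hlo, hn]
    push_cast
    omega
  set c : ℤ → Cell := fun r => γ (q, r) with hc
  have hE : ∀ r, ¬ (c r).oc .E := fun r => (Bh.okc ⟨mt, rb, fun r hr => absurd hr (Finset.notMem_empty r)⟩ r).1
  have hmN : ∀ r, (c r).oc .N ↔ (c (r + 1)).oc .S := fun r => mt ((q, r), .N) trivial trivial
  have o0 : ∀ r, r ∉ Finset.Ico lo (lo + (n : ℤ)) → c r = .o := fun r hr => by
    by_contra h
    exact hr (hmem q r h)
  have nl : ¬ (c lo).oc .S := by
    have h4 := hmN (lo - 1)
    rw [sub_add_cancel] at h4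
    rw [← h4, o0 (lo - 1) (by rw [Finset.mem_Ico]; omega)]
    exact fun h => h rfl
  have nh : ¬ (c (lo + n)).oc .S := by
    rw [o0 (lo + n) (by rw [Finset.mem_Ico]; omega)]
    exact fun h => h rfl
  have key := transfer (hW q) ha hb hY h1 h2 h3 hE hmN nl n 1 1 zero_le_one zero_le_one
  rw [if_neg nh, if_neg nh, add_zero, mul_one, mul_one] at key
  have eE : EE c lo n = Ed q γ := by
    ext r
    rw [EE, Finset.mem_filter, mem_Ed]
    constructor
    · exact fun h => h.2
    · intro h
      refine ⟨?_, h⟩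
      by_contra h4
      have h' : (c r).oc .N := h
      rw [o0 r h4] at h'
      exact h' rfl
  -- the left side
  have L := prod_split (F := fun v c => if v.1 = q then gg (W q) al be Y c else c.wt (W v.1)) (q := q) (lo := lo)
    (n := n) (γ := γ) (δ := γ) (by intro v; split_ifs <;> rfl) (fun _ _ => rfl)
    (fun v hv => rb v (by omega)) (fun x r _ h => hmem x r h)
  have R : ∀ D ∈ (Ed q γ).powerset, (bump q D γ).prod (fun v c => c.wt (W v.1)) =
      (∏ v ∈ γ.support.filter (fun v => v.1 < q), (γ v).wt (W v.1)) * FF (W q) c lo n D := by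
    intro D hD
    have hB := bh_of mt rb hD
    rw [prod_split (F := fun v c => c.wt (W v.1)) (q := q) (lo := lo) (n := n) (γ := γ) (δ := bump q D γ)
      (fun _ => rfl) (fun v hv => bump_out fun hs => by rcases hs with h | h <;> omega)
      (fun v hv => bump_right hB hv)]
    · rw [FF]
      congr 1
      refine Finset.prod_congr rfl fun r _ => ?_
      simp only [hq]
      rw [bump_q, bump_q1]
      rfl
    · rintro x r (rfl | rfl) h
      · refine hmem x r fun h0 => h ?_
        rw [bump_q, h0, ca_o]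
      · refine hmem q r fun h0 => h ?_
        rw [bump_q1, h0, cb_o]
  rw [L, Finset.sum_congr rfl R, ← Finset.mul_sum]
  have hA : 0 ≤ ∏ v ∈ γ.support.filter (fun v => v.1 < q), (γ v).wt (W v.1) := by
    refine Finset.prod_nonneg fun v _ => ?_
    have h := hW v.1
    cases γ v <;> simp only [Cell.wt] <;>
      first | exact zero_le_one | exact h.v | exact h.u1 | exact h.u2 | exact h.w1 | exact h.w2
  have eA : (∏ v ∈ γ.support.filter (fun v => v.1 < q),
      if v.1 = q then gg (W q) al be Y (γ v) else (γ v).wt (W v.1)) =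
      ∏ v ∈ γ.support.filter (fun v => v.1 < q), (γ v).wt (W v.1) := by
    refine Finset.prod_congr rfl fun v hv => ?_
    rw [Finset.mem_filter] at hv
    rw [if_neg (by omega)]
  rw [eA]
  refine mul_le_mul_of_nonneg_left ?_ hA
  have e5 : (∏ r ∈ Finset.Ico lo (lo + (n : ℤ)), (if (q, r).1 = q then gg (W q) al be Y (γ (q, r)) else
      (γ (q, r)).wt (W (q, r).1)) * (if (q + 1, r).1 = q then gg (W q) al be Y (γ (q + 1, r)) else
      (γ (q + 1, r)).wt (W (q + 1, r).1))) = ∏ r ∈ Finset.Ico lo (lo + (n : ℤ)), gg (W q) al be Y (c r) := by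
    refine Finset.prod_congr rfl fun r _ => ?_
    rw [if_pos rfl, if_neg (by show ¬ q + 1 = q; omega), rb (q + 1, r) (by show q < q + 1; omega)]
    exact mul_one _
  rw [e5]
  refine le_trans key (le_of_eq ?_)
  rw [GG, eE]
  refine Finset.sum_congr rfl fun D hD => ?_
  have nD : ¬ (lo + (n : ℤ) - 1 ∈ D) := fun h => by
    have h4 := (hmN (lo + n - 1)).1 (mem_Ed.1 (Finset.mem_powerset.1 hD h))
    rw [sub_add_cancel] at h4
    exact nh h4
  rw [if_neg nD, mul_one]

end Pool.Agent.ROT.U.Bp
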