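import Pool.Agent.ROT.ULine2
import Pool.Agent.ROT.EStrip
import Pool.Agent.ROT.UNearDefs

/-!
# ROT, UNIV, rows L1, L2: sums over loops (helper70)

`EL u G` = sum of the weights of the loops times `G`.  `el_sw` : a swap of two columns does not change it if `G` is
constant on the classes of the strip.  `el_low`, `el_up` : the last column.
-/

set_option autoImplicit false

namespace Pool.Agent.ROT.U.Ls

open Pool.Agent.ROT.E
open Pool.Agent.ROT.U
open Pool.Agent.ROT.I (Lps)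
open Pool.Agent.EXL (Wt)
open Pool.Agent.YBC (Dir)
open Pool.Agent.UNI (wR wR_nn)
open scoped ENNReal

/-- the sum -/
noncomputable def EL (u : ℤ → ℝ) (G : Lps → ℝ≥0∞) : ℝ≥0∞ := ∑' γ : Lps, ENNReal.ofReal (MU u γ.1) * G γ

/-! ### the weights -/

theorem wt_nn {w : Wt ℝ} (h : w.Nn) (c : Cell) : 0 ≤ c.wt w := by
  cases c <;> simp only [Cell.wt] <;>
    first | exact zero_le_one | exact h.v | exact h.u1 | exact h.u2 | exact h.w1 | exact h.w2

theorem MU_nn {u : ℤ → ℝ} (hu : An u) (γ : Cfg) : 0 ≤ MU u γ :=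
  Finset.prod_nonneg fun _ _ => wt_nn (hu.nn _) _

theorem MU_congr {u u' : ℤ → ℝ} {γ : Cfg} (h : ∀ v, γ v ≠ 0 → u v.1 = u' v.1) : MU u γ = MU u' γ := by
  unfold MU Finsupp.prod
  refine Finset.prod_congr rfl fun v hv => ?_
  show Cell.wt (wR (u v.1)) (γ v) = Cell.wt (wR (u' v.1)) (γ v)
  rw [h v (Finsupp.mem_support_iff.1 hv)]

open Classical in
/-- the weight outside of the strip -/
noncomputable def wo1 (j : ℤ) (u : ℤ → ℝ) (γ : Cfg) : ℝ := γ.prod fun v c => if v ∈ Sp j then 1 else c.wt (wR (u v.1))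

theorem MU_eq (j : ℤ) (u : ℤ → ℝ) (γ : Cfg) : MU u γ = wo1 j u γ * ws1 j u γ := by
  classical
  simp only [MU, wo1, ws1, Finsupp.prod, ← Finset.prod_mul_distrib]
  refine Finset.prod_congr rfl fun v _ => ?_
  split_ifs <;> simp

theorem wo1_sw (j : ℤ) (u : ℤ → ℝ) (γ : Cfg) : wo1 j (sw j u) γ = wo1 j u γ := by
  classical
  simp only [wo1, Finsupp.prod]
  refine Finset.prod_congr rfl fun v _ => ?_
  split_ifs with h
  · rfl
  · rw [sw_out h]

theorem wo1_out {j : ℤ} {γ γ' : Cfg} (h : ∀ v, v ∉ Sp j → γ v = γ' v) (u : ℤ → ℝ) : wo1 j u γ = wo1 j u γ' := by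
  classical
  have h0 : ∀ v : Pt, (if v ∈ Sp j then 1 else (0 : Cell).wt (wR (u v.1))) = 1 := by
    intro v
    split_ifs <;> rfl
  rw [wo1, wo1, Finsupp.prod_of_support_subset γ (s := γ.support ∪ γ'.support) Finset.subset_union_left _
    (fun v _ => h0 v), Finsupp.prod_of_support_subset γ' (s := γ.support ∪ γ'.support)
    Finset.subset_union_right _ (fun v _ => h0 v)]
  refine Finset.prod_congr rfl fun v _ => ?_
  split_ifs with hv
  · rfl
  · rw [h v hv]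

theorem wo1_nn {u : ℤ → ℝ} (hu : An u) (j : ℤ) (γ : Cfg) : 0 ≤ wo1 j u γ := by
  classical
  refine Finset.prod_nonneg fun v _ => ?_
  dsimp only
  split_ifs
  · exact zero_le_one
  · exact wt_nn (hu.nn _) _

theorem ws1_nn {u : ℤ → ℝ} (hu : An u) (j : ℤ) (γ : Cfg) : 0 ≤ ws1 j u γ := by
  classical
  refine Finset.prod_nonneg fun v _ => ?_
  dsimp only
  split_ifs
  · exact wt_nn (hu.nn _) _
  · exact zero_le_one

/-! ### the classes of the strip -/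

/-- the loop leaves the strip -/
def Lv (j : ℤ) (γ : Cfg) : Prop := ∃ v, v ∉ Sp j ∧ γ v ≠ 0

section

variable {j : ℤ} {γ δ ε : Cfg}

theorem sm_refl (l : Lp γ) (lv : Lv j γ) : Sm1 j γ γ :=
  ⟨l.mt, fun _ _ => rfl, fun _ hx ho => Lab.esc l lv hx ho, fun _ _ _ _ => Iff.rfl⟩

theorem sm_lp (l : Lp γ) (lv : Lv j γ) (s : Sm1 j γ δ) : Lp δ := Lab.glue_aux l lv s.out s.mt s.op s.pr

theorem sm_lv (lv : Lv j γ) (s : Sm1 j γ δ) : Lv j δ := by
  obtain ⟨v, hv, h0⟩ := lv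
  exact ⟨v, hv, by rw [← s.out v hv]; exact h0⟩

theorem sm_symm (l : Lp γ) (lv : Lv j γ) (s : Sm1 j γ δ) : Sm1 j δ γ :=
  ⟨l.mt, fun v hv => (s.out v hv).symm, fun _ hx ho => Lab.esc l lv hx ho, fun x hx y hy => (s.pr x hx y hy).symm⟩

theorem sm_trans (s : Sm1 j γ δ) (s' : Sm1 j δ ε) : Sm1 j γ ε :=
  ⟨s'.mt, fun v hv => (s.out v hv).trans (s'.out v hv), s'.op,
    fun x hx y hy => (s.pr x hx y hy).trans (s'.pr x hx y hy)⟩

end

/-- the loops which leave the strip -/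
def SL (j : ℤ) : Set Lps := {γ | Lv j γ.1}

/-- the classes -/
def std (j : ℤ) : Setoid (SL j) where
  r a b := Sm1 j a.1.1 b.1.1
  iseqv := ⟨fun a => sm_refl a.1.2 a.2, fun {a _} s => sm_symm a.1.2 a.2 s, fun s s' => sm_trans s s'⟩

/-- the class of a loop -/
def rp (j : ℤ) (a : SL j) : Quotient (std j) := Quotient.mk (std j) a

theorem rp_eq {j : ℤ} {a b : SL j} : rp j a = rp j b ↔ Sm1 j a.1.1 b.1.1 := Quotient.eq (r := std j)

/-- the loops of the class of `a` -/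
noncomputable def clE (j : ℤ) (a : SL j) : {x : SL j // rp j x = rp j a} ≃ {δ : Cfg // Sm1 j a.1.1 δ} :=
  Equiv.ofBijective (fun x => ⟨x.1.1.1, sm_symm x.1.1.2 x.1.2 (rp_eq.1 x.2)⟩) (by
    constructor
    · intro x y h
      have h1 : x.1.1.1 = y.1.1.1 := congrArg (fun δ : {δ : Cfg // Sm1 j a.1.1 δ} => δ.1) h
      exact Subtype.ext (Subtype.ext (Subtype.ext h1))
    · intro δ
      refine ⟨⟨⟨⟨δ.1, sm_lp a.1.2 a.2 δ.2⟩, sm_lv a.2 δ.2⟩, ?_⟩, ?_⟩
      · rw [rp_eq]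
        exact sm_symm a.1.2 a.2 δ.2
      · exact Subtype.ext rfl)

theorem clE_val {j : ℤ} {a : SL j} (x : {x : SL j // rp j x = rp j a}) : (clE j a x).1 = x.1.1.1 := rfl

theorem strip_ind {j : ℤ} {u : ℤ → ℝ} (hu : An u) {γ : Cfg} (s : Sm1 j γ γ) : ∃ z : ℝ,
    HasSum (fun δ : {δ : Cfg // Sm1 j γ δ} => ws1 j u δ.1) z ∧
    HasSum (fun δ : {δ : Cfg // Sm1 j γ δ} => ws1 j (sw j u) δ.1) z := by
  classical
  obtain ⟨z, h1, h2⟩ := strip1P j u γ hu s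
  have e : ∀ w : ℤ → ℝ, (fun δ : Cfg => if Sm1 j γ δ then ws1 j w δ else 0) =
      Set.indicator {δ : Cfg | Sm1 j γ δ} (ws1 j w) := by
    intro w
    funext δ
    by_cases h : Sm1 j γ δ
    · rw [if_pos h, Set.indicator_of_mem (s := {δ : Cfg | Sm1 j γ δ}) h]
    · rw [if_neg h, Set.indicator_of_notMem (s := {δ : Cfg | Sm1 j γ δ}) h]
  rw [e, ← hasSum_subtype_iff_indicator] at h1 h2
  exact ⟨z, h1, h2⟩

theorem cl_sum {j : ℤ} {u : ℤ → ℝ} (hu : An u) {γ : Cfg} {z : ℝ}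
    (h : HasSum (fun δ : {δ : Cfg // Sm1 j γ δ} => ws1 j u δ.1) z) :
    ∑' δ : {δ : Cfg // Sm1 j γ δ}, ENNReal.ofReal (ws1 j u δ.1) = ENNReal.ofReal z := by
  rw [← h.tsum_eq]
  exact (ENNReal.ofReal_tsum_of_nonneg (f := fun δ : {δ : Cfg // Sm1 j γ δ} => ws1 j u δ.1)
    (fun δ => ws1_nn hu j δ.1) h.summable).symm

/-- **a swap does not change the sum** -/
theorem el_sw {j : ℤ} {u : ℤ → ℝ} (hu : An u) {G : Lps → ℝ≥0∞} (hG : ∀ γ γ' : Lps, Sm1 j γ.1 γ'.1 → G γ = G γ')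
    (hL : ∀ γ, G γ ≠ 0 → Lv j γ.1) : EL (sw j u) G = EL u G := by
  classical
  have key : ∀ w : ℤ → ℝ, EL w G = ∑' c : Quotient (std j), ∑' x : {x : SL j // rp j x = c},
      ENNReal.ofReal (MU w x.1.1.1) * G x.1.1 := by
    intro w
    have h1 : EL w G = ∑' x : SL j, ENNReal.ofReal (MU w x.1.1) * G x.1 := by
      unfold EL
      rw [← tsum_subtype_eq_of_support_subset (s := SL j)]
      intro γ hγ
      exact hL γ (right_ne_zero_of_mul hγ)
    rw [h1, ← (Equiv.sigmaFiberEquiv (rp j)).tsum_eq, ENNReal.tsum_sigma']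
    rfl
  rw [key, key]
  refine tsum_congr fun c => ?_
  obtain ⟨a, rfl⟩ : ∃ a, rp j a = c := Quotient.exists_rep c
  obtain ⟨z, h1, h2⟩ := strip_ind hu (sm_refl a.1.2 a.2)
  have main : ∀ w : ℤ → ℝ, An w → HasSum (fun δ : {δ : Cfg // Sm1 j a.1.1 δ} => ws1 j w δ.1) z →
      ∑' x : {x : SL j // rp j x = rp j a}, ENNReal.ofReal (MU w x.1.1.1) * G x.1.1 =
      G a.1 * ENNReal.ofReal (wo1 j w a.1.1) * ENNReal.ofReal z := by
    intro w hw hz
    rw [← cl_sum hw hz, ← (clE j a).tsum_eq (fun δ : {δ : Cfg // Sm1 j a.1.1 δ} => ENNReal.ofReal (ws1 j w δ.1)),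
      ← ENNReal.tsum_mul_left]
    refine tsum_congr fun x => ?_
    have s : Sm1 j a.1.1 x.1.1.1 := sm_symm x.1.1.2 x.1.2 (rp_eq.1 x.2)
    rw [MU_eq j, ENNReal.ofReal_mul (wo1_nn hw j _), ← hG a.1 x.1.1 s, ← wo1_out s.out w, clE_val]
    ring
  rw [main (sw j u) (hu.sw j) h2, main u hu h1, wo1_sw]

end Pool.Agent.ROT.U.Ls
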