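import Pool.Agent.ROT.ULine3

/-!
# ROT, UNIV, rows L1, L2: the last column (helper70)

`el_low` (S1), `el_up` (S2), then both for an arbitrary column, and the sandwich: the law of the left part does not
depend on the columns on the right (`law_left`), monotonicity (`mon_right`).
-/

set_option autoImplicit false

namespace Pool.Agent.ROT.U.Ls

open Pool.Agent.ROT.E
open Pool.Agent.ROT.U
open Pool.Agent.ROT.U.Bp
open Pool.Agent.ROT.I (Lps)
open Pool.Agent.EXL (Wt)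
open Pool.Agent.YBC (Dir)
open Pool.Agent.UNI (wR wR_nn DR DR_pos wR_v_pos wR_u1_pos wR_u2_pos wR_hex)
open scoped ENNReal

/-! ### the numbers -/

/-- the parameter of the weights -/
noncomputable def tt (u : ℝ) : ℝ := Real.cos (2 * u - 3 * Real.pi / 8)

theorem DR_tt (u : ℝ) : DR u = (Real.cos (Real.pi / 8) + tt u) / 2 := by
  unfold DR tt
  have h := Real.cos_sub (u + Real.pi / 4) (u + 3 * Real.pi / 8)
  have h' := Real.cos_add (u + Real.pi / 4) (u + 3 * Real.pi / 8)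
  have e1 : u + Real.pi / 4 - (u + 3 * Real.pi / 8) = -(Real.pi / 8) := by ring
  have e2 : u + Real.pi / 4 + (u + 3 * Real.pi / 8) = (2 * u - 3 * Real.pi / 8) + Real.pi := by ring
  rw [e1, Real.cos_neg] at h
  rw [e2, Real.cos_add_pi] at h'
  linarith

theorem num_tt (u : ℝ) : Real.sin u * Real.sin (3 * Real.pi / 8 - u) = (tt u - Real.cos (3 * Real.pi / 8)) / 2 := by
  unfold tt
  have h := Real.cos_sub u (3 * Real.pi / 8 - u)
  have h' := Real.cos_add u (3 * Real.pi / 8 - u)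
  have e1 : u - (3 * Real.pi / 8 - u) = 2 * u - 3 * Real.pi / 8 := by ring
  have e2 : u + (3 * Real.pi / 8 - u) = 3 * Real.pi / 8 := by ring
  rw [e1] at h
  rw [e2] at h'
  linarith

theorem tt_ge {u : ℝ} (h1 : Real.pi / 8 ≤ u) (h2 : u ≤ Real.pi / 4) : Real.cos (Real.pi / 8) ≤ tt u := by
  have hp := Real.pi_pos
  unfold tt
  rw [← Real.cos_abs (2 * u - 3 * Real.pi / 8)]
  exact Real.cos_le_cos_of_nonneg_of_le_pi (abs_nonneg _) (by linarith)
    (abs_le.2 ⟨by linarith, by linarith⟩)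

theorem tt_le (u : ℝ) : tt u ≤ 1 := Real.cos_le_one _

theorem tt_h : tt (Real.pi / 8) = Real.cos (Real.pi / 8) := by
  unfold tt
  rw [show 2 * (Real.pi / 8) - 3 * Real.pi / 8 = -(Real.pi / 8) by ring, Real.cos_neg]

theorem c1_pos : 0 < Real.cos (Real.pi / 8) :=
  Real.cos_pos_of_mem_Ioo ⟨by linarith [Real.pi_pos], by linarith [Real.pi_pos]⟩

theorem c3_pos : 0 < Real.cos (3 * Real.pi / 8) :=
  Real.cos_pos_of_mem_Ioo ⟨by linarith [Real.pi_pos], by linarith [Real.pi_pos]⟩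

theorem c31 : Real.cos (3 * Real.pi / 8) < Real.cos (Real.pi / 8) :=
  Real.cos_lt_cos_of_nonneg_of_le_pi_div_two (by linarith [Real.pi_pos]) (by linarith [Real.pi_pos])
    (by linarith [Real.pi_pos])

/-- `v` -/
theorem v_tt {u : ℝ} (h1 : Real.pi / 8 ≤ u) (h2 : u ≤ Real.pi / 4) :
    (wR u).v = (tt u - Real.cos (3 * Real.pi / 8)) / (Real.cos (Real.pi / 8) + tt u) := by
  have hp := c1_pos
  have ht := tt_ge h1 h2
  show Real.sin u * Real.sin (3 * Real.pi / 8 - u) / DR u = _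
  rw [DR_tt, num_tt]
  field_simp

/-- `u1 u2` -/
theorem uu_tt {u : ℝ} (h1 : Real.pi / 8 ≤ u) (h2 : u ≤ Real.pi / 4) :
    (wR u).u1 * (wR u).u2 = (tt u - Real.cos (3 * Real.pi / 8)) / (Real.cos (Real.pi / 8) + tt u) ^ 2 := by
  have hp := c1_pos
  have ht := tt_ge h1 h2
  show Real.sin (Real.pi / 4) * Real.sin (3 * Real.pi / 8 - u) / DR u * (Real.sin (Real.pi / 4) * Real.sin u / DR u) = _
  have hs : Real.sin (Real.pi / 4) * Real.sin (Real.pi / 4) = 1 / 2 := by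
    rw [Real.sin_pi_div_four, div_mul_div_comm, Real.mul_self_sqrt (by norm_num)]
    norm_num
  have e : Real.sin (Real.pi / 4) * Real.sin (3 * Real.pi / 8 - u) / DR u * (Real.sin (Real.pi / 4) * Real.sin u / DR u) =
      (Real.sin (Real.pi / 4) * Real.sin (Real.pi / 4)) * (Real.sin u * Real.sin (3 * Real.pi / 8 - u)) / DR u ^ 2 := by
    ring
  rw [e, hs, num_tt, DR_tt]
  have : 0 < Real.cos (Real.pi / 8) + tt u := by linarith
  field_simp

theorem cos_sq_8 : Real.cos (Real.pi / 8) ^ 2 = (2 + √2) / 4 := by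
  rw [Real.cos_pi_div_eight, div_pow, Real.sq_sqrt (by positivity)]
  norm_num

theorem c3_rel : Real.cos (3 * Real.pi / 8) = (√2 - 1) * Real.cos (Real.pi / 8) := by
  have h2 : √2 ^ 2 = 2 := Real.sq_sqrt (by norm_num)
  have h1 : 1 < √2 := by
    rw [show (1 : ℝ) = √1 by simp]
    exact Real.sqrt_lt_sqrt (by norm_num) (by norm_num)
  have e : Real.cos (3 * Real.pi / 8) = Real.sin (Real.pi / 8) := by
    rw [← Real.cos_pi_div_two_sub]
    congr 1
    ring
  rw [e]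
  have hs : 0 ≤ Real.sin (Real.pi / 8) :=
    (Real.sin_pos_of_pos_of_lt_pi (by linarith [Real.pi_pos]) (by linarith [Real.pi_pos])).le
  have hc := c1_pos
  have e1 : Real.sin (Real.pi / 8) ^ 2 = ((√2 - 1) * Real.cos (Real.pi / 8)) ^ 2 := by
    have := Real.sin_sq_add_cos_sq (Real.pi / 8)
    have e2 : Real.sin (Real.pi / 8) ^ 2 = 1 - Real.cos (Real.pi / 8) ^ 2 := by linarith
    rw [e2, mul_pow, cos_sq_8]
    nlinarith [h2]
  exact (sq_eq_sq₀ hs (mul_nonneg (by linarith) hc.le)).1 e1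

/-- the honeycomb value of `v` -/
theorem v_h : (wR (Real.pi / 8)).v = 1 - √2 / 2 := by
  have hc := c1_pos
  rw [v_tt le_rfl (by linarith [Real.pi_pos]), tt_h, c3_rel]
  field_simp
  ring

theorem s_num : 1.4142 < √2 ∧ √2 < 1.4143 := by
  constructor
  · rw [Real.lt_sqrt (by norm_num)]
    norm_num
  · rw [Real.sqrt_lt' (by norm_num)]
    norm_num

theorem c_num : 0.9238 < Real.cos (Real.pi / 8) ∧ Real.cos (Real.pi / 8) < 0.9239 := by
  have hc := c1_pos
  have h := cos_sq_8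
  obtain ⟨s1, s2⟩ := s_num
  constructor
  · by_contra h'
    have h' := not_lt.1 h'
    nlinarith
  · by_contra h'
    have h' := not_lt.1 h'
    nlinarith

theorem p_h : (wR (Real.pi / 8)).u1 * (wR (Real.pi / 8)).u2 = (2 - √2) / (4 * Real.cos (Real.pi / 8)) := by
  have hc := c1_pos
  rw [uu_tt le_rfl (by linarith [Real.pi_pos]), tt_h, c3_rel]
  field_simp
  ring

section num

variable {u : ℝ} (h1 : Real.pi / 8 ≤ u) (h2 : u ≤ Real.pi / 4)

include h1 h2

theorem v_low : (wR (Real.pi / 8)).v ≤ (wR u).v := by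
  have hc := c1_pos
  have ht := tt_ge h1 h2
  have h3 := c3_pos
  rw [v_tt h1 h2, v_tt le_rfl (by linarith [Real.pi_pos]), tt_h, div_le_div_iff₀ (by linarith) (by linarith)]
  nlinarith [mul_nonneg (add_nonneg hc.le h3.le) (sub_nonneg.2 ht)]

theorem p_low : (wR (Real.pi / 8)).u1 * (wR (Real.pi / 8)).u2 ≤ (wR u).u1 * (wR u).u2 := by
  have hc := c1_pos
  have ht := tt_ge h1 h2
  have ht1 := tt_le u
  obtain ⟨s1, s2⟩ := s_num
  obtain ⟨c1, c2⟩ := c_num
  have hh := cos_sq_8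
  have hs : √2 ^ 2 = 2 := Real.sq_sqrt (by norm_num)
  rw [uu_tt h1 h2, p_h, c3_rel, div_le_div_iff₀ (by linarith) (by nlinarith)]
  set c := Real.cos (Real.pi / 8)
  set t := tt u
  have k1 : 0 ≤ (3 * √2 - 2) * c ^ 2 - (2 - √2) * c * t := by
    have : (2 - √2) * c * t ≤ (2 - √2) * c * 1 := mul_le_mul_of_nonneg_left ht1 (by nlinarith)
    nlinarith
  have k2 := mul_nonneg (sub_nonneg.2 ht) k1
  have k3 : (2 - √2) * (c + t) ^ 2 * c ≤ (t - (√2 - 1) * c) * (4 * c) * c := by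
    nlinarith [k2]
  exact le_of_mul_le_mul_right k3 hc

theorem v_up : (wR u).v ≤ (wR (Real.pi / 8)).v * (1 + (wR (Real.pi / 8)).v) := by
  have hc := c1_pos
  have ht := tt_ge h1 h2
  have ht1 := tt_le u
  obtain ⟨s1, s2⟩ := s_num
  obtain ⟨c1, c2⟩ := c_num
  have hs : √2 ^ 2 = 2 := Real.sq_sqrt (by norm_num)
  rw [v_h, v_tt h1 h2, c3_rel, div_le_iff₀ (by linarith)]
  set c := Real.cos (Real.pi / 8)
  set t := tt u
  have e : (1 - √2 / 2) * (1 + (1 - √2 / 2)) = 5 / 2 - 3 / 2 * √2 := by nlinarith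
  rw [e]
  nlinarith

theorem p_up : (wR u).u1 * (wR u).u2 ≤
    (1 + (wR (Real.pi / 8)).v ^ 2) * ((wR (Real.pi / 8)).u1 * (wR (Real.pi / 8)).u2) := by
  have hc := c1_pos
  have ht := tt_ge h1 h2
  have ht1 := tt_le u
  obtain ⟨s1, s2⟩ := s_num
  obtain ⟨c1, c2⟩ := c_num
  have hs : √2 ^ 2 = 2 := Real.sq_sqrt (by norm_num)
  have hh := cos_sq_8
  rw [v_h, p_h, uu_tt h1 h2, c3_rel]
  set c := Real.cos (Real.pi / 8)
  set t := tt u
  have e : (1 + (1 - √2 / 2) ^ 2) * ((2 - √2) / (4 * c)) = (7 - 9 / 2 * √2) / (4 * c) := by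
    rw [mul_div_assoc']
    congr 1
    nlinarith
  rw [e, div_le_div_iff₀ (pow_pos (by linarith) 2) (by positivity)]
  -- value at `t = 1`
  have k1 : (1 - (√2 - 1) * c) * (4 * c) ≤ (7 - 9 / 2 * √2) * (c + 1) ^ 2 := by
    have e1 : (c + 1) ^ 2 = (6 + √2) / 4 + 2 * c := by nlinarith
    have e2 : (1 - (√2 - 1) * c) * (4 * c) = 4 * c - √2 := by nlinarith
    rw [e1, e2]
    nlinarith
  have k2 : 0 ≤ (1 - t) * (4 * c - (7 - 9 / 2 * √2) * (2 * c + 1 + t)) := by
    refine mul_nonneg (by linarith) ?_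
    have : (7 - 9 / 2 * √2) * (2 * c + 1 + t) ≤ 0.6361 * 3.8478 := by
      refine mul_le_mul (by linarith) (by linarith) (by linarith) (by norm_num)
    linarith
  nlinarith [k1, k2]

end num

/-! ### the honeycomb weights -/

theorem hx_rel : (wR (Real.pi / 8)).u1 ^ 2 = (wR (Real.pi / 8)).v ∧ (wR (Real.pi / 8)).u2 = (wR (Real.pi / 8)).v := by
  rw [wR_hex]
  exact ⟨rfl, rfl⟩

end Pool.Agent.ROT.U.Ls
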