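import Pool.Agent.ROT.ULine4

/-!
# ROT, UNIV, rows L1, L2: the last column (helper70)

`el_low` (S1), `el_up` (S2), then both for an arbitrary column, and the sandwich.
-/

set_option autoImplicit false

namespace Pool.Agent.ROT.U.Ls

open Pool.Agent.ROT.E
open Pool.Agent.ROT.U
open Pool.Agent.ROT.U.Bp
open Pool.Agent.ROT.I (Lps)
open Pool.Agent.EXL (Wt)
open Pool.Agent.YBC (Dir)
open Pool.Agent.UNI (wR wR_nn wR_v_pos wR_u1_pos wR_u2_pos)
open scoped ENNReal

/-! ### one column -/

/-- the weight of the last column is monotone in `v` and `u1 u2` -/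
theorem col_le {w w' : Wt ℝ} (hw : w.Nn) (hw' : w'.Nn) (hv : w.v ≤ w'.v) (hp : w.u1 * w.u2 ≤ w'.u1 * w'.u2)
    (h2 : 0 < w'.u2) {c : ℤ → Cell} {lo : ℤ} (hE : ∀ r, ¬ (c r).oc .E) (hm : ∀ r, (c r).oc .N ↔ (c (r + 1)).oc .S)
    (h0 : ¬ (c lo).oc .S) (k : ℕ) :
    (∏ r ∈ Finset.Ico lo (lo + (k : ℤ)), (c r).wt w) * (if (c (lo + k)).oc .S then w'.u2 else 1) ≤
      (∏ r ∈ Finset.Ico lo (lo + (k : ℤ)), (c r).wt w') * (if (c (lo + k)).oc .S then w.u2 else 1) := by
  induction k with
  | zero => simp [h0]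
  | succ k ih =>
    have hP : 0 ≤ ∏ r ∈ Finset.Ico lo (lo + (k : ℤ)), (c r).wt w := Finset.prod_nonneg fun r _ => wt_nn hw _
    have hP' : 0 ≤ ∏ r ∈ Finset.Ico lo (lo + (k : ℤ)), (c r).wt w' := Finset.prod_nonneg fun r _ => wt_nn hw' _
    set P := ∏ r ∈ Finset.Ico lo (lo + (k : ℤ)), (c r).wt w with hPd
    set P' := ∏ r ∈ Finset.Ico lo (lo + (k : ℤ)), (c r).wt w' with hPd'
    have e1 : (c (lo + ((k + 1 : ℕ) : ℤ))).oc .S ↔ (c (lo + k)).oc .N := by
      rw [hm]
      push_cast
      rw [add_assoc]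
    rw [Ico_succ', Finset.prod_insert (by simp), Finset.prod_insert (by simp), ← hPd, ← hPd']
    simp only [e1]
    have a1 := hw.v
    have a2 := hw.u1
    have a3 := hw.u2
    have b1 := hw'.v
    have b2 := hw'.u1
    have b3 := hw'.u2
    rcases four (hE (lo + k)) with hc | hc | hc | hc
    · rw [hc] at ih ⊢
      have nN : ¬ Cell.oc .o .N := by decide
      have nS : ¬ Cell.oc .o .S := by decide
      simp only [nN, nS, if_false, Cell.wt, mul_one, one_mul] at ih ⊢
      exact ih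
    · rw [hc] at ih ⊢
      have nN : Cell.oc .v .N := by decide
      have nS : Cell.oc .v .S := by decide
      simp only [nN, nS, if_true, Cell.wt] at ih ⊢
      calc w.v * P * w'.u2 = w.v * (P * w'.u2) := by ring
        _ ≤ w'.v * (P' * w.u2) := mul_le_mul hv ih (by positivity) b1
        _ = _ := by ring
    · rw [hc] at ih ⊢
      have nN : Cell.oc .nw .N := by decide
      have nS : ¬ Cell.oc .nw .S := by decide
      simp only [nN, nS, if_true, if_false, Cell.wt, mul_one] at ih ⊢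
      calc w.u2 * P * w'.u2 = (w.u2 * w'.u2) * P := by ring
        _ ≤ (w.u2 * w'.u2) * P' := mul_le_mul_of_nonneg_left ih (by positivity)
        _ = _ := by ring
    · rw [hc] at ih ⊢
      have nN : ¬ Cell.oc .sw .N := by decide
      have nS : Cell.oc .sw .S := by decide
      simp only [nN, nS, if_true, if_false, Cell.wt, mul_one] at ih ⊢
      have k1 : w.u1 * P * w'.u2 ≤ w'.u1 * P' * w'.u2 := by
        calc w.u1 * P * w'.u2 = w.u1 * (P * w'.u2) := by ring
          _ ≤ w.u1 * (P' * w.u2) := mul_le_mul_of_nonneg_left ih a2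
          _ = P' * (w.u1 * w.u2) := by ring
          _ ≤ P' * (w'.u1 * w'.u2) := mul_le_mul_of_nonneg_left hp hP'
          _ = _ := by ring
      exact le_of_mul_le_mul_right k1 h2

/-- a range of rows -/
theorem ex_rows (γ : Cfg) : ∃ (lo : ℤ) (n : ℕ), (∀ x r : ℤ, γ (x, r) ≠ .o → r ∈ Finset.Ico lo (lo + (n : ℤ))) ∧
    (∀ x, γ (x, lo + n) = .o) ∧ ∀ x, γ (x, lo - 1) = .o := by
  obtain ⟨m, hm⟩ : ∃ m : ℕ, ∀ v, γ v ≠ .o → |v.2| ≤ (m : ℤ) := by
    refine ⟨γ.support.sup fun v => v.2.natAbs, fun v hv => ?_⟩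
    have h1 : v ∈ γ.support := Finsupp.mem_support_iff.2 hv
    have h2 : v.2.natAbs ≤ γ.support.sup fun v => v.2.natAbs :=
      Finset.le_sup (f := fun v : Pt => v.2.natAbs) h1
    have h3 : |v.2| = (v.2.natAbs : ℤ) := Int.abs_eq_natAbs _
    rw [h3]
    exact_mod_cast h2
  have key : ∀ x r : ℤ, γ (x, r) ≠ .o → r ∈ Finset.Ico (-(m : ℤ)) (-(m : ℤ) + ((2 * m + 2 : ℕ) : ℤ)) := by
    intro x r h
    have := abs_le.1 (hm (x, r) h)
    simp only at this
    rw [Finset.mem_Ico]
    push_cast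
    omega
  refine ⟨-(m : ℤ), 2 * m + 2, key, fun x => ?_, fun x => ?_⟩
  · by_contra h
    have := key x _ h
    rw [Finset.mem_Ico] at this
    omega
  · by_contra h
    have := key x _ h
    rw [Finset.mem_Ico] at this
    omega

/-- **(S1)** for one configuration -/
theorem MU_low {u : ℤ → ℝ} (hu : An u) {q : ℤ} {γ : Cfg} (mt : Mt γ Set.univ) (rb : ∀ v : Pt, q < v.1 → γ v = .o) :
    MU (Function.update u q (Real.pi / 8)) γ ≤ MU u γ := by
  obtain ⟨lo, n, hmem, hhi, hlo⟩ := ex_rows γ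
  have hE : ∀ r, ¬ (γ (q, r)).oc .E := fun r => (Bh.okc ⟨mt, rb, fun r hr => absurd hr (Finset.notMem_empty r)⟩ r).1
  have hmN : ∀ r, (γ (q, r)).oc .N ↔ (γ (q, r + 1)).oc .S := fun r => mt ((q, r), .N) trivial trivial
  have nl : ¬ (γ (q, lo)).oc .S := by
    have h4 := hmN (lo - 1)
    rw [sub_add_cancel] at h4
    rw [← h4, hlo]
    exact fun h => h rfl
  have nh : ¬ (γ (q, lo + n)).oc .S := by
    rw [hhi]
    exact fun h => h rfl
  have key := col_le (w := wR (Real.pi / 8)) (w' := wR (u q)) (wR_nn le_rfl (by linarith [Real.pi_pos]))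
    (hu.nn q) (v_low (hu q).1 (hu q).2) (p_low (hu q).1 (hu q).2)
    (wR_u2_pos (by linarith [Real.pi_pos, (hu q).1]) (by linarith [Real.pi_pos, (hu q).2])) hE hmN nl n
  rw [if_neg nh, if_neg nh, mul_one, mul_one] at key
  have S : ∀ w : ℤ → ℝ, MU w γ = (∏ v ∈ γ.support.filter (fun v => v.1 < q), (γ v).wt (wR (w v.1))) *
      ∏ r ∈ Finset.Ico lo (lo + (n : ℤ)), (γ (q, r)).wt (wR (w q)) := by
    intro w
    rw [MU, prod_split (F := fun v c => c.wt (wR (w v.1))) (q := q) (lo := lo) (n := n) (γ := γ) (δ := γ)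
      (fun _ => rfl) (fun _ _ => rfl) (fun v hv => rb v (by omega)) (fun x r _ h => hmem x r h)]
    congr 1
    refine Finset.prod_congr rfl fun r _ => ?_
    show (γ (q, r)).wt (wR (w q)) * (γ (q + 1, r)).wt (wR (w (q + 1))) = _
    rw [rb (q + 1, r) (by show q < q + 1; omega)]
    exact mul_one _
  rw [S, S, Function.update_self]
  have eA : (∏ v ∈ γ.support.filter (fun v => v.1 < q), (γ v).wt (wR (Function.update u q (Real.pi / 8) v.1))) =
      ∏ v ∈ γ.support.filter (fun v => v.1 < q), (γ v).wt (wR (u v.1)) := by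
    refine Finset.prod_congr rfl fun v hv => ?_
    rw [Finset.mem_filter] at hv
    rw [Function.update_of_ne (by omega)]
  rw [eA]
  exact mul_le_mul_of_nonneg_left key (Finset.prod_nonneg fun v _ => wt_nn (hu.nn _) _)

/-- **(S2)** for one configuration -/
theorem MU_up {u : ℤ → ℝ} (hu : An u) {q : ℤ} {γ : Cfg} (mt : Mt γ Set.univ) (rb : ∀ v : Pt, q < v.1 → γ v = .o) :
    MU u γ ≤ ∑ D ∈ (Ed q γ).powerset,
      MU (Function.update (Function.update u q (Real.pi / 8)) (q + 1) (Real.pi / 8)) (bump q D γ) := by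
  have hp := Real.pi_pos
  set u' := Function.update (Function.update u q (Real.pi / 8)) (q + 1) (Real.pi / 8) with hu'
  have eq0 : u' q = Real.pi / 8 := by
    rw [hu', Function.update_of_ne (by omega), Function.update_self]
  have eq1 : u' (q + 1) = Real.pi / 8 := by rw [hu', Function.update_self]
  have elt : ∀ j, j < q → u' j = u j := fun j hj => by
    rw [hu', Function.update_of_ne (by omega), Function.update_of_ne (by omega)]
  have an : ∀ j, Real.pi / 8 ≤ u' j ∧ u' j ≤ Real.pi / 4 := by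
    intro j
    by_cases h1 : j = q + 1
    · rw [h1, eq1]; constructor <;> linarith
    · by_cases h2 : j = q
      · rw [h2, eq0]; constructor <;> linarith
      · rw [hu', Function.update_of_ne h1, Function.update_of_ne h2]
        exact hu j
  obtain ⟨x1, x2⟩ := hx_rel
  set w := wR (Real.pi / 8) with hw
  set w' := wR (u q) with hw'
  have pv : 0 < w.v := wR_v_pos (by linarith) (by linarith)
  have pu1 : 0 < w.u1 := wR_u1_pos (by linarith) (by linarith)
  have pu2 : 0 < w.u2 := wR_u2_pos (by linarith) (by linarith)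
  have pv' : 0 < w'.v := wR_v_pos (by linarith [(hu q).1]) (by linarith [(hu q).2])
  have pu1' : 0 < w'.u1 := wR_u1_pos (by linarith [(hu q).1]) (by linarith [(hu q).2])
  have pu2' : 0 < w'.u2 := wR_u2_pos (by linarith [(hu q).1]) (by linarith [(hu q).2])
  have hpu := p_up (hu q).1 (hu q).2
  have hvu := v_up (hu q).1 (hu q).2
  rw [← hw, ← hw'] at hpu hvu
  have key := bump_le (W := fun j => wR (u' j)) (fun j => wR_nn (an j).1 (an j).2) (q := q) (by rw [eq0, eq1])
    (al := w'.u2 / w.u2) (be := w'.u1 / w.u1) (Y := w'.v / w.v) (by positivity) (by positivity) (by positivity)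
    (by
      simp only [eq0, ← hw]
      rw [div_mul_div_comm, div_le_iff₀ (by positivity)]
      nlinarith)
    (by
      simp only [eq0, ← hw]
      rw [div_le_iff₀ pv, x1]
      nlinarith)
    (by
      simp only [eq0, ← hw]
      have e : w'.v / w.v * w.v ^ 2 = w'.v * w.v := by
        field_simp
      rw [e, x2]
      have v1 : w.v ≤ 1 := by
        rw [hw, v_h]
        have := Real.sqrt_nonneg 2
        linarith
      nlinarith) mt rb
  refine le_trans (le_of_eq ?_) key
  unfold MU Finsupp.prod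
  refine Finset.prod_congr rfl fun v hv => ?_
  have hv' := Finsupp.mem_support_iff.1 hv
  have hvq : ¬ q < v.1 := fun h => hv' (rb v h)
  show (γ v).wt (wR (u v.1)) = if v.1 = q then gg (wR (u' q)) _ _ _ (γ v) else (γ v).wt (wR (u' v.1))
  by_cases h : v.1 = q
  · rw [if_pos h, h, eq0, ← hw, ← hw']
    have hE : ¬ (γ (q, v.2)).oc .E :=
      (Bh.okc ⟨mt, rb, fun r hr => absurd hr (Finset.notMem_empty r)⟩ v.2).1
    have ev : ((q, v.2) : Pt) = v := Prod.ext h.symm rfl
    rw [ev] at hE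
    rcases four hE with hc | hc | hc | hc <;> rw [hc] <;> simp only [gg, Cell.wt]
    · field_simp
    · field_simp
    · field_simp
  · rw [if_neg h, elt _ (by omega)]

end Pool.Agent.ROT.U.Ls
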