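import Pool.Agent.ROT.ULine5

/-!
# ROT, UNIV, rows L1, L2: the sandwich (helper70)

`law_left` : the law of the part left of the line `c` does not depend on the columns right of it; `mon_right` : in
the honeycomb columns the loops go further to the right.
-/

set_option autoImplicit false

namespace Pool.Agent.ROT.U.Ls

open Pool.Agent.ROT.E
open Pool.Agent.ROT.U
open Pool.Agent.ROT.U.Bp
open Pool.Agent.ROT.I (Lps)
open Pool.Agent.YBC (Dir)
open scoped ENNReal

open Classical in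
/-- `G` restricted to the loops without cells in the columns `≥ N` -/
noncomputable def GN (N : ℤ) (G : Lps → ℝ≥0∞) (γ : Lps) : ℝ≥0∞ := if ∀ v : Pt, N ≤ v.1 → γ.1 v = 0 then G γ else 0

theorem GN_ne {N : ℤ} {G : Lps → ℝ≥0∞} {γ : Lps} (h : GN N G γ ≠ 0) : (∀ v : Pt, N ≤ v.1 → γ.1 v = 0) ∧ G γ ≠ 0 := by
  classical
  unfold GN at h
  split_ifs at h with h1
  · exact ⟨h1, h⟩
  · exact absurd rfl h

theorem GN_pos {N : ℤ} {G : Lps → ℝ≥0∞} {γ : Lps} (h : ∀ v : Pt, N ≤ v.1 → γ.1 v = 0) : GN N G γ = G γ := by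
  classical
  exact if_pos h

theorem GN_le (N : ℤ) (G : Lps → ℝ≥0∞) (γ : Lps) : GN N G γ ≤ G γ := by
  classical
  unfold GN
  split_ifs
  · exact le_rfl
  · exact bot_le

/-- `G` is a function of the part left of the line `c`, and vanishes if this part is empty -/
structure LG (c : ℤ) (G : Lps → ℝ≥0∞) : Prop where
  dep : ∀ γ γ' : Lps, (∀ v : Pt, v.1 < c → γ.1 v = γ'.1 v) → G γ = G γ'
  ne : ∀ γ : Lps, G γ ≠ 0 → ∃ v : Pt, v.1 < c ∧ γ.1 v ≠ 0

theorem Sp_ge {j : ℤ} {v : Pt} (h : v.1 < j ∨ j + 1 < v.1) : v ∉ Sp j := by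
  rintro (h1 | h1) <;> omega

/-- **swap** -/
theorem el_swN {u : ℤ → ℝ} (hu : An u) {c N j : ℤ} {G : Lps → ℝ≥0∞} (hG : LG c G) (h1 : c ≤ j) (h2 : j + 2 ≤ N) :
    EL (sw j u) (GN N G) = EL u (GN N G) := by
  classical
  refine el_sw hu (fun γ γ' s => ?_) fun γ h => ?_
  · have e1 : (∀ v : Pt, N ≤ v.1 → γ.1 v = 0) ↔ ∀ v : Pt, N ≤ v.1 → γ'.1 v = 0 := by
      refine forall_congr' fun v => forall_congr' fun hv => ?_
      rw [s.out v (Sp_ge (Or.inr (by omega)))]
    have e2 : G γ = G γ' := hG.dep γ γ' fun v hv => s.out v (Sp_ge (Or.inl (by omega)))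
    unfold GN
    simp only [e1, e2]
  · obtain ⟨v, hv, h0⟩ := hG.ne γ (GN_ne h).2
    exact ⟨v, Sp_ge (Or.inl (by omega)), h0⟩

/-- **(S1)** -/
theorem el_low {u : ℤ → ℝ} (hu : An u) {q : ℤ} (G : Lps → ℝ≥0∞) :
    EL (Function.update u q (Real.pi / 8)) (GN (q + 1) G) ≤ EL u (GN (q + 1) G) := by
  refine ENNReal.tsum_le_tsum fun γ => ?_
  by_cases h : GN (q + 1) G γ = 0
  · rw [h, mul_zero, mul_zero]
  · refine mul_le_mul_left (ENNReal.ofReal_le_ofReal ?_) _
    exact MU_low hu γ.2.mt fun v hv => (GN_ne h).1 v (by omega)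

/-- **(S2)** -/
theorem el_up {u : ℤ → ℝ} (hu : An u) {c q : ℤ} (hc : c ≤ q) {G : Lps → ℝ≥0∞} (hG : LG c G) :
    EL u (GN (q + 1) G) ≤
      EL (Function.update (Function.update u q (Real.pi / 8)) (q + 1) (Real.pi / 8)) (GN (q + 2) G) := by
  classical
  set u' := Function.update (Function.update u q (Real.pi / 8)) (q + 1) (Real.pi / 8)
  set A : Set Lps := {γ | GN (q + 1) G γ ≠ 0} with hA
  have rb : ∀ γ : A, ∀ v : Pt, q < v.1 → γ.1.1 v = .o := fun γ v hv => (GN_ne γ.2).1 v (by omega)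
  have lv : ∀ γ : A, ∃ v, v ∉ Sp q ∧ γ.1.1 v ≠ 0 := fun γ => by
    obtain ⟨v, hv, h0⟩ := hG.ne γ.1 (GN_ne γ.2).2
    exact ⟨v, Sp_ge (Or.inl (by omega)), h0⟩
  -- the map
  let Φ : (Σ γ : A, {D : Finset ℤ // D ∈ (Ed q γ.1.1).powerset}) → Lps := fun p =>
    ⟨bump q p.2.1 p.1.1.1, lp_bump (bh_of p.1.1.2.mt (rb p.1) p.2.2) p.1.1.2 (lv p.1)⟩
  have hΦ : Function.Injective Φ := by
    rintro ⟨γ, D⟩ ⟨γ', D'⟩ h
    have h1 : bump q D.1 γ.1.1 = bump q D'.1 γ'.1.1 := congrArg (fun γ : Lps => γ.1) h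
    obtain ⟨e1, e2⟩ := bump_inj (bh_of γ.1.2.mt (rb γ) D.2) (bh_of γ'.1.2.mt (rb γ') D'.2) h1
    have e3 : γ = γ' := Subtype.ext (Subtype.ext e2)
    subst e3
    have e4 : D = D' := Subtype.ext e1
    rw [e4]
  have hG' : ∀ p, GN (q + 2) G (Φ p) = GN (q + 1) G p.1.1 := by
    rintro ⟨γ, D⟩
    rw [GN_pos fun v hv => ?_, GN_pos (GN_ne γ.2).1]
    · refine hG.dep _ _ fun v hv => ?_
      exact bump_out (Sp_ge (Or.inl (by omega)))
    · exact bump_right (bh_of γ.1.2.mt (rb γ) D.2) (by omega)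
  have step1 : EL u (GN (q + 1) G) = ∑' γ : A, ENNReal.ofReal (MU u γ.1.1) * GN (q + 1) G γ.1 := by
    unfold EL
    rw [← tsum_subtype_eq_of_support_subset (s := A)]
    intro γ hγ
    exact right_ne_zero_of_mul hγ
  have step2 : ∀ γ : A, ENNReal.ofReal (MU u γ.1.1) * GN (q + 1) G γ.1 ≤
      ∑' D : {D : Finset ℤ // D ∈ (Ed q γ.1.1).powerset},
        ENNReal.ofReal (MU u' (Φ ⟨γ, D⟩).1) * GN (q + 2) G (Φ ⟨γ, D⟩) := by
    intro γ
    have e1 : ∀ D : {D : Finset ℤ // D ∈ (Ed q γ.1.1).powerset},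
        ENNReal.ofReal (MU u' (Φ ⟨γ, D⟩).1) * GN (q + 2) G (Φ ⟨γ, D⟩) =
        ENNReal.ofReal (MU u' (bump q D.1 γ.1.1)) * GN (q + 1) G γ.1 := fun D => by rw [hG']
    rw [tsum_congr e1, ENNReal.tsum_mul_right]
    refine mul_le_mul_left ?_ _
    have h1 := MU_up hu γ.1.2.mt (rb γ)
    have e2 : ∑' D : {D : Finset ℤ // D ∈ (Ed q γ.1.1).powerset}, ENNReal.ofReal (MU u' (bump q D.1 γ.1.1)) =
        ∑ D ∈ (Ed q γ.1.1).powerset, ENNReal.ofReal (MU u' (bump q D γ.1.1)) :=
      Finset.tsum_subtype (Ed q γ.1.1).powerset fun D => ENNReal.ofReal (MU u' (bump q D γ.1.1))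
    rw [e2]
    refine le_trans (ENNReal.ofReal_le_ofReal h1) ?_
    rw [ENNReal.ofReal_sum_of_nonneg]
    intro D _
    have an : An u' := by
      intro j
      show Real.pi / 8 ≤ Function.update (Function.update u q (Real.pi / 8)) (q + 1) (Real.pi / 8) j ∧
        Function.update (Function.update u q (Real.pi / 8)) (q + 1) (Real.pi / 8) j ≤ Real.pi / 4
      have hp := Real.pi_pos
      rw [Function.update_apply, Function.update_apply]
      split_ifs
      · constructor <;> linarith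
      · constructor <;> linarith
      · exact hu j
    exact MU_nn an _
  calc EL u (GN (q + 1) G) = ∑' γ : A, ENNReal.ofReal (MU u γ.1.1) * GN (q + 1) G γ.1 := step1
    _ ≤ ∑' γ : A, ∑' D : {D : Finset ℤ // D ∈ (Ed q γ.1.1).powerset},
        ENNReal.ofReal (MU u' (Φ ⟨γ, D⟩).1) * GN (q + 2) G (Φ ⟨γ, D⟩) := ENNReal.tsum_le_tsum step2
    _ = ∑' p : (Σ γ : A, {D : Finset ℤ // D ∈ (Ed q γ.1.1).powerset}),
        ENNReal.ofReal (MU u' (Φ p).1) * GN (q + 2) G (Φ p) := by
      rw [ENNReal.tsum_sigma']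
    _ ≤ EL u' (GN (q + 2) G) :=
      ENNReal.tsum_comp_le_tsum_of_injective hΦ fun γ => ENNReal.ofReal (MU u' γ.1) * GN (q + 2) G γ

/-! ### arbitrary columns -/

theorem An_up {u : ℤ → ℝ} (hu : An u) (i : ℤ) : An (Function.update u i (Real.pi / 8)) := by
  intro j
  have hp := Real.pi_pos
  rw [Function.update_apply]
  split_ifs
  · constructor <;> linarith
  · exact hu j

theorem sw_upd (u : ℤ → ℝ) (i : ℤ) (x : ℝ) : sw i (Function.update u i x) = Function.update (sw i u) (i + 1) x := by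
  funext j
  simp only [sw, Function.update_apply]
  by_cases h1 : j = i
  · subst h1
    simp
  · by_cases h2 : j = i + 1
    · subst h2
      simp
    · simp [h1, h2]

theorem sw_upd2 (u : ℤ → ℝ) {i N : ℤ} (h : i + 2 ≤ N) (x : ℝ) :
    sw i (Function.update u N x) = Function.update (sw i u) N x := by
  funext j
  simp only [sw, Function.update_apply]
  by_cases h1 : j = i
  · subst h1
    rw [if_pos rfl, if_neg (by omega), if_neg (by omega), if_pos rfl]
  · by_cases h2 : j = i + 1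
    · subst h2
      rw [if_neg h1, if_pos rfl, if_neg (by omega), if_neg (by omega), if_neg h1, if_pos rfl]
    · rw [if_neg h1, if_neg h2]
      split_ifs <;> rfl

section

variable {c : ℤ} {G : Lps → ℝ≥0∞} (hG : LG c G)

include hG

theorem low_any (n : ℕ) : ∀ {u : ℤ → ℝ}, An u → ∀ {i N : ℤ}, c ≤ i → i + n + 1 = N →
    EL (Function.update u i (Real.pi / 8)) (GN N G) ≤ EL u (GN N G) := by
  induction n with
  | zero =>
    intro u hu i N _ hN
    have : N = i + 1 := by push_cast at hN; omega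
    subst this
    exact el_low hu G
  | succ n ih =>
    intro u hu i N hi hN
    push_cast at hN
    rw [← el_swN (An_up hu i) hG hi (by omega), sw_upd, ← el_swN hu hG hi (by omega)]
    exact ih (hu.sw i) (by omega) (by omega)

theorem up_any (n : ℕ) : ∀ {u : ℤ → ℝ}, An u → ∀ {i N : ℤ}, c ≤ i → i + n + 1 = N →
    EL u (GN N G) ≤ EL (Function.update (Function.update u i (Real.pi / 8)) N (Real.pi / 8)) (GN (N + 1) G) := by
  induction n with
  | zero =>
    intro u hu i N hi hN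
    have : N = i + 1 := by push_cast at hN; omega
    subst this
    have := el_up hu hi hG
    rwa [show i + 2 = i + 1 + 1 by ring] at this
  | succ n ih =>
    intro u hu i N hi hN
    push_cast at hN
    have k := ih (hu.sw i) (i := i + 1) (N := N) (by omega) (by omega)
    rw [el_swN hu hG hi (by omega)] at k
    refine le_trans k (le_of_eq ?_)
    rw [← sw_upd, ← sw_upd2 _ (by omega), el_swN (An_up (An_up hu i) N) hG hi (by omega)]

end

/-- the honeycomb right of the line `c` -/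
noncomputable def hr (c : ℤ) (u : ℤ → ℝ) : ℤ → ℝ := fun j => if c ≤ j then Real.pi / 8 else u j

theorem hr_an {u : ℤ → ℝ} (hu : An u) (c : ℤ) : An (hr c u) := by
  intro j
  have hp := Real.pi_pos
  unfold hr
  split_ifs
  · constructor <;> linarith
  · exact hu j

theorem el_congr {u u' : ℤ → ℝ} {G : Lps → ℝ≥0∞} (h : ∀ γ : Lps, G γ ≠ 0 → ∀ v, γ.1 v ≠ 0 → u v.1 = u' v.1) :
    EL u G = EL u' G := by
  refine tsum_congr fun γ => ?_
  by_cases h0 : G γ = 0
  · rw [h0, mul_zero, mul_zero]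
  · rw [MU_congr (h γ h0)]

section

variable {c : ℤ} {G : Lps → ℝ≥0∞} (hG : LG c G) {u : ℤ → ℝ} (hu : An u)

include hG hu

theorem low_all (N : ℤ) : EL (hr c u) (GN N G) ≤ EL u (GN N G) := by
  have key : ∀ t : ℕ, c + t ≤ N ∨ t = 0 →
      An (fun j => if c ≤ j ∧ j < c + t then Real.pi / 8 else u j) ∧
      EL (fun j => if c ≤ j ∧ j < c + t then Real.pi / 8 else u j) (GN N G) ≤ EL u (GN N G) := by
    intro t
    induction t with
    | zero =>
      intro _
      have e : (fun j => if c ≤ j ∧ j < c + ((0 : ℕ) : ℤ) then Real.pi / 8 else u j) = u := by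
        funext j
        rw [if_neg]
        push_cast
        omega
      rw [e]
      exact ⟨hu, le_rfl⟩
    | succ t ih =>
      intro h
      have h' : c + t + 1 ≤ N := by
        rcases h with h | h
        · push_cast at h; omega
        · omega
      obtain ⟨a1, a2⟩ := ih (Or.inl (by omega))
      have e : (fun j => if c ≤ j ∧ j < c + ((t + 1 : ℕ) : ℤ) then Real.pi / 8 else u j) =
          Function.update (fun j => if c ≤ j ∧ j < c + (t : ℤ) then Real.pi / 8 else u j) (c + t) (Real.pi / 8) := by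
        funext j
        rw [Function.update_apply]
        by_cases h1 : j = c + t
        · rw [if_pos h1, if_pos]
          push_cast
          omega
        · rw [if_neg h1]
          have : (c ≤ j ∧ j < c + ((t + 1 : ℕ) : ℤ)) ↔ (c ≤ j ∧ j < c + (t : ℤ)) := by
            push_cast
            omega
          simp only [this]
      rw [e]
      refine ⟨An_up a1 _, le_trans (low_any hG (N - c - t - 1).toNat a1 (by omega) (by omega)) a2⟩
  by_cases hN : c ≤ N
  · have k := (key (N - c).toNat (Or.inl (by omega))).2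
    refine le_trans (le_of_eq ?_) k
    refine el_congr fun γ h v hv => ?_
    have h1 : ¬ N ≤ v.1 := fun h2 => hv ((GN_ne h).1 v h2)
    unfold hr
    by_cases h3 : c ≤ v.1
    · rw [if_pos h3, if_pos]
      omega
    · rw [if_neg h3, if_neg]
      omega
  · refine le_of_eq (el_congr fun γ h v hv => ?_)
    have h1 : ¬ N ≤ v.1 := fun h2 => hv ((GN_ne h).1 v h2)
    unfold hr
    rw [if_neg (by omega)]

theorem up_all {N : ℤ} (hN : c ≤ N) : EL u (GN N G) ≤ EL (hr c u) (GN (2 * N - c) G) := by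
  have key : ∀ t : ℕ, c + t ≤ N →
      An (fun j => if (c ≤ j ∧ j < c + t) ∨ (N ≤ j ∧ j < N + t) then Real.pi / 8 else u j) ∧
      EL u (GN N G) ≤ EL (fun j => if (c ≤ j ∧ j < c + t) ∨ (N ≤ j ∧ j < N + t) then Real.pi / 8 else u j)
        (GN (N + t) G) := by
    intro t
    induction t with
    | zero =>
      intro _
      have e : (fun j => if (c ≤ j ∧ j < c + ((0 : ℕ) : ℤ)) ∨ (N ≤ j ∧ j < N + ((0 : ℕ) : ℤ)) then Real.pi / 8 else u j) =
          u := by
        funext j
        rw [if_neg]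
        push_cast
        omega
      rw [e]
      simp only [Nat.cast_zero, add_zero]
      exact ⟨hu, le_rfl⟩
    | succ t ih =>
      intro h
      push_cast at h
      obtain ⟨a1, a2⟩ := ih (by omega)
      have e : (fun j => if (c ≤ j ∧ j < c + ((t + 1 : ℕ) : ℤ)) ∨ (N ≤ j ∧ j < N + ((t + 1 : ℕ) : ℤ)) then
            Real.pi / 8 else u j) =
          Function.update (Function.update
            (fun j => if (c ≤ j ∧ j < c + (t : ℤ)) ∨ (N ≤ j ∧ j < N + (t : ℤ)) then Real.pi / 8 else u j)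
            (c + t) (Real.pi / 8)) (N + t) (Real.pi / 8) := by
        funext j
        rw [Function.update_apply, Function.update_apply]
        by_cases h1 : j = N + t
        · rw [if_pos h1, if_pos]
          push_cast
          omega
        · rw [if_neg h1]
          by_cases h2 : j = c + t
          · rw [if_pos h2, if_pos]
            push_cast
            omega
          · rw [if_neg h2]
            have : ((c ≤ j ∧ j < c + ((t + 1 : ℕ) : ℤ)) ∨ (N ≤ j ∧ j < N + ((t + 1 : ℕ) : ℤ))) ↔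
                ((c ≤ j ∧ j < c + (t : ℤ)) ∨ (N ≤ j ∧ j < N + (t : ℤ))) := by
              push_cast
              omega
            simp only [this]
      rw [e]
      refine ⟨An_up (An_up a1 _) _, le_trans a2 ?_⟩
      have k := up_any hG (N - c - 1).toNat a1 (i := c + t) (N := N + t) (by omega) (by omega)
      have e2 : N + ((t + 1 : ℕ) : ℤ) = N + t + 1 := by push_cast; ring
      rw [e2]
      exact k
  have k := (key (N - c).toNat (by omega)).2
  have e2 : N + ((N - c).toNat : ℤ) = 2 * N - c := by omega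
  rw [e2] at k
  refine le_trans k (le_of_eq (el_congr fun γ h v hv => ?_))
  have h1 : ¬ 2 * N - c ≤ v.1 := fun h2 => hv ((GN_ne h).1 v h2)
  unfold hr
  by_cases h3 : c ≤ v.1
  · rw [if_pos h3, if_pos]
    omega
  · rw [if_neg h3, if_neg]
    omega

end

/-! ### the limit -/

theorem ex_N (s : Finset Lps) (c : ℤ) : ∃ N : ℤ, c ≤ N ∧ ∀ γ ∈ s, ∀ v : Pt, N ≤ v.1 → γ.1 v = 0 := by
  classical
  induction s using Finset.induction_on with
  | empty => exact ⟨c, le_rfl, fun γ h => absurd h (Finset.notMem_empty γ)⟩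
  | insert a s _ ih =>
    obtain ⟨N, h1, h2⟩ := ih
    obtain ⟨m, hm⟩ : ∃ m : ℤ, ∀ v, a.1 v ≠ 0 → v.1 < m := by
      refine ⟨((a.1.support.sup fun v => v.1.natAbs : ℕ) : ℤ) + 1, fun v hv => ?_⟩
      have h1 : v ∈ a.1.support := Finsupp.mem_support_iff.2 hv
      have h2 : v.1.natAbs ≤ a.1.support.sup fun v => v.1.natAbs :=
        Finset.le_sup (f := fun v : Pt => v.1.natAbs) h1
      omega
    refine ⟨max N m, le_trans h1 (le_max_left _ _), fun γ hγ v hv => ?_⟩
    rcases Finset.mem_insert.1 hγ with rfl | hγ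
    · by_contra h0
      have := hm v h0
      have := le_trans (le_max_right N m) hv
      omega
    · exact h2 γ hγ v (le_trans (le_max_left _ _) hv)

theorem el_le_of {u : ℤ → ℝ} {G : Lps → ℝ≥0∞} {c : ℤ} {b : ℝ≥0∞} (h : ∀ N, c ≤ N → EL u (GN N G) ≤ b) : EL u G ≤ b := by
  rw [EL, ENNReal.tsum_eq_iSup_sum]
  refine iSup_le fun s => ?_
  obtain ⟨N, h1, h2⟩ := ex_N s c
  refine le_trans ?_ (h N h1)
  refine le_trans (le_of_eq ?_) (ENNReal.sum_le_tsum s)
  refine Finset.sum_congr rfl fun γ hγ => ?_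
  rw [GN_pos (h2 γ hγ)]

theorem el_mono {u : ℤ → ℝ} {G G' : Lps → ℝ≥0∞} (h : ∀ γ, G γ ≤ G' γ) : EL u G ≤ EL u G' :=
  ENNReal.tsum_le_tsum fun γ => mul_le_mul_right (h γ) _

/-- **the law of the left part** does not depend on the columns on the right -/
theorem law_left {c : ℤ} {G : Lps → ℝ≥0∞} (hG : LG c G) {u : ℤ → ℝ} (hu : An u) : EL u G = EL (hr c u) G := by
  refine le_antisymm (el_le_of (c := c) fun N hN => ?_) (el_le_of (c := c) fun N _ => ?_)
  · exact le_trans (up_all hG hu hN) (el_mono (GN_le _ _))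
  · exact le_trans (low_all hG hu N) (el_mono (GN_le _ _))

open Classical in
/-- `G` restricted to the loops with a cell in a column `≥ N` -/
noncomputable def GM (N : ℤ) (G : Lps → ℝ≥0∞) (γ : Lps) : ℝ≥0∞ := if ∀ v : Pt, N ≤ v.1 → γ.1 v = 0 then 0 else G γ

theorem GNM (N : ℤ) (G : Lps → ℝ≥0∞) (γ : Lps) : G γ = GN N G γ + GM N G γ := by
  classical
  unfold GN GM
  split_ifs <;> simp

/-- **monotonicity** -/
theorem mon_right {c : ℤ} {G : Lps → ℝ≥0∞} (hG : LG c G) {u : ℤ → ℝ} (hu : An u) (hf : EL (hr c u) G ≠ ⊤) (N : ℤ) :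
    EL u (GM N G) ≤ EL (hr c u) (GM N G) := by
  have e : ∀ w : ℤ → ℝ, EL w G = EL w (GN N G) + EL w (GM N G) := by
    intro w
    unfold EL
    rw [← ENNReal.tsum_add]
    refine tsum_congr fun γ => ?_
    rw [← mul_add, ← GNM]
  have h1 := law_left hG hu
  have h2 := low_all hG hu N
  have h3 : EL u (GN N G) ≠ ⊤ := by
    refine ne_top_of_le_ne_top hf ?_
    rw [← h1]
    exact el_mono (GN_le _ _)
  rw [e, e] at h1
  refine (ENNReal.add_le_add_iff_left h3).1 ?_
  rw [h1]
  exact add_le_add_left h2 _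

end Pool.Agent.ROT.U.Ls
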