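import Pool.Agent.ROT.EStrip

/-!
# ROT, universality in the angle, row L1 (helper27): the class calculus for a region

`SA A γ δ`: same outside of the region `A`, same connections inside, no closed loop inside (`Sm1` for a general region).
`SA.refine`: a class of a smaller region is inside a class of the larger region.  `swap_sum`: **the sum of a class
function of the strip does not change under the swap**.
-/

set_option autoImplicit false

namespace Pool.Agent.ROT.U.Ln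

open Pool.Agent.ROT.E
open Pool.Agent.ROT.E.Lab
open Pool.Agent.EXL (Wt)
open Pool.Agent.YBC (Dir)
open Pool.Agent.UNI (wR wR_nn)
open scoped ENNReal

/-- the boundary half edges of a region -/
def BdA (A : Set Pt) : Set He := {h | h.1 ∈ A ∧ (rv h).1 ∉ A}

/-- **same outside, same connections inside, no closed loop inside** -/
structure SA (A : Set Pt) (γ δ : Cfg) : Prop where
  mt : Mt δ Set.univ
  out : ∀ v, v ∉ A → γ v = δ v
  op : ∀ h : He, h.1 ∈ A → oc δ h → ∃ k ∈ BdA A, Cn δ A h k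
  pr : ∀ h ∈ BdA A, ∀ k ∈ BdA A, Cn γ A h k ↔ Cn δ A h k

variable {A B : Set Pt} {γ δ ε : Cfg} {j : ℤ}

theorem sa_iff : SA (Sp j) γ δ ↔ Sm1 j γ δ := ⟨fun h => ⟨h.mt, h.out, h.op, h.pr⟩, fun h => ⟨h.mt, h.out, h.op, h.pr⟩⟩

theorem SA.symm (h : SA A γ δ) (h0 : SA A γ γ) : SA A δ γ :=
  ⟨h0.mt, fun v hv => (h.out v hv).symm, h0.op, fun a ha b hb => (h.pr a ha b hb).symm⟩

theorem SA.trans (h : SA A γ δ) (h' : SA A δ ε) : SA A γ ε :=
  ⟨h'.mt, fun v hv => (h.out v hv).trans (h'.out v hv), h'.op, fun a ha b hb => (h.pr a ha b hb).trans (h'.pr a ha b hb)⟩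

theorem SA.self (h : SA A γ δ) : SA A δ δ := ⟨h.mt, fun _ _ => rfl, h.op, fun _ _ _ _ => Iff.rfl⟩

theorem SA.iff_of (h0 : SA A γ γ) (h : SA A γ δ) : SA A γ ε ↔ SA A δ ε :=
  ⟨fun h' => (h.symm h0).trans h', fun h' => h.trans h'⟩

/-- occupied boundary half edges agree -/
theorem SA.bd_oc (mt : Mt γ Set.univ) (h : SA A γ δ) {b : He} (hb : (rv b).1 ∉ A) : oc γ b ↔ oc δ b := by
  rw [mt b trivial trivial, h.mt b trivial trivial]
  simp only [oc]
  rw [h.out _ hb]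

theorem SA.oc_out (h : SA A γ δ) {b : He} (hb : b.1 ∉ A) : oc γ b ↔ oc δ b := by
  simp only [oc]
  rw [h.out _ hb]

/-- **the class of a region is self related for a smaller region** -/
theorem SA.sub (hAB : A ⊆ B) (h : SA B γ γ) : SA A γ γ := by
  refine ⟨h.mt, fun _ _ => rfl, fun a ha ho => ?_, fun _ _ _ _ => Iff.rfl⟩
  obtain ⟨k, hk, c⟩ := h.op a (hAB ha) ho
  by_contra hno
  have hP := cn_of (mt_mono h.mt) (P := fun x => x.1 ∈ A ∧ oc γ x ∧ Cn γ A a x) ?_ c ⟨ha, ho, cn_refl _⟩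
  · exact hno ⟨k, ⟨hP.1, fun h' => hk.2 (hAB h')⟩, hP.2.2⟩
  · rintro x y ⟨x1, x2, x3⟩ ⟨-, -, rfl | ⟨rfl, -⟩⟩
    · exact ⟨x1, (oc_vp γ x).2 x2, cn_trans x3 (cn_vp x2 x1)⟩
    · by_cases hb : (rv x).1 ∈ A
      · exact ⟨hb, (h.mt x trivial trivial).1 x2, cn_trans x3 (cn_rv x2 x1 hb)⟩
      · exact (hno ⟨x, ⟨x1, hb⟩, x3⟩).elim

/-- the transport of the connections from a region to a larger one -/
theorem SA.up (hAB : A ⊆ B) (mtγ : Mt γ Set.univ) (h : SA A γ δ) {a b : He} (ha : a ∈ BdA B) (hb : b ∈ BdA B)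
    (c : Cn γ B a b) : Cn δ B a b := by
  rcases cn_oc (mt_mono mtγ) c with rfl | ⟨⟨oa, -⟩, -⟩
  · exact cn_refl _
  have hout : ∀ x : He, x.1 ∉ A → (oc γ x ↔ oc δ x) := fun x hx => h.oc_out hx
  have hP := cn_of (mt_mono (B := B) mtγ) (P := fun x => x.1 ∈ B ∧ oc γ x ∧ (x.1 ∉ A → Cn δ B a x) ∧
      (x.1 ∈ A → ∀ y ∈ BdA A, Cn γ A x y → Cn δ B a y)) ?_ c
      ⟨ha.1, oa, fun _ => cn_refl _, fun hA y hy cc =>
        cn_mono hAB ((h.pr a ⟨hA, fun h' => ha.2 (hAB h')⟩ y hy).1 cc)⟩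
  · by_cases hA : b.1 ∈ A
    · exact hP.2.2.2 hA b ⟨hA, fun h' => hb.2 (hAB h')⟩ (cn_refl _)
    · exact hP.2.2.1 hA
  · rintro x y ⟨x0, x1, x2, x3⟩ ⟨-, -, rfl | ⟨rfl, hyB⟩⟩
    · refine ⟨x0, (oc_vp _ _).2 x1, fun hb => ?_, fun hb z hz cc => ?_⟩
      · have e : vp γ x = vp δ x := by
          have hb' : x.1 ∉ A := hb
          simp only [vp]
          rw [h.out _ hb']
        rw [e]
        exact cn_trans (x2 hb) (cn_vp ((hout x hb).1 x1) x0)
      · exact x3 hb z hz (cn_trans (cn_vp x1 hb) cc)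
    · refine ⟨hyB, (mtγ x trivial trivial).1 x1, fun hb => ?_, fun hb z hz cc => ?_⟩
      · by_cases hx : x.1 ∈ A
        · have hob : oc δ x := (h.bd_oc mtγ hb).1 x1
          exact cn_trans (x3 hx x ⟨hx, hb⟩ (cn_refl _)) (cn_rv hob x0 hyB)
        · exact cn_trans (x2 hx) (cn_rv ((hout x hx).1 x1) x0 hyB)
      · by_cases hx : x.1 ∈ A
        · exact x3 hx z hz (cn_trans (cn_rv x1 hx hb) cc)
        · have hbd : rv x ∈ BdA A := ⟨hb, by rw [rv_rv]; exact hx⟩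
          exact cn_trans (cn_trans (x2 hx) (cn_rv ((hout x hx).1 x1) x0 hyB)) (cn_mono hAB ((h.pr _ hbd z hz).1 cc))

/-- **a class of a smaller region is inside a class of the larger region** -/
theorem SA.refine (hAB : A ⊆ B) (hB : SA B γ γ) (h : SA A γ δ) : SA B γ δ := by
  have hA : SA A γ γ := hB.sub hAB
  refine ⟨h.mt, fun v hv => h.out v fun h' => hv (hAB h'), fun a ha ho => ?_, fun a ha b hb => ⟨h.up hAB hB.mt ha hb,
    (h.symm hA).up hAB h.mt ha hb⟩⟩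
  -- reduce to a half edge of `γ`
  have key : ∃ x : He, x.1 ∈ B ∧ oc γ x ∧ Cn δ B a x ∧ (x.1 ∉ A ∨ x ∈ BdA A) := by
    by_cases hx : a.1 ∈ A
    · obtain ⟨k, hk, c⟩ := h.op a hx ho
      have hok : oc δ k := by
        rcases cn_oc (mt_mono h.mt) c with rfl | ⟨-, h2, -⟩
        · exact ho
        · exact h2
      exact ⟨k, hAB hk.1, (h.bd_oc hB.mt hk.2).2 hok, cn_mono hAB c, Or.inr hk⟩
    · exact ⟨a, ha, (h.oc_out hx).2 ho, cn_refl _, Or.inl hx⟩
  obtain ⟨x, xB, ox, cx, hx⟩ := key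
  obtain ⟨k, hk, c⟩ := hB.op x xB ox
  refine ⟨k, hk, cn_trans cx ?_⟩
  have hP := cn_of (mt_mono (B := B) hB.mt) (P := fun y => y.1 ∈ B ∧ oc γ y ∧ (y.1 ∉ A → Cn δ B x y) ∧
      (y.1 ∈ A → ∀ z ∈ BdA A, Cn γ A y z → Cn δ B x z)) ?_ c
      ⟨xB, ox, fun _ => cn_refl _, fun hA z hz cc => by
        have hbx : x ∈ BdA A := hx.resolve_left fun h' => h' hA
        exact cn_mono hAB ((h.pr x hbx z hz).1 cc)⟩
  · by_cases hA' : k.1 ∈ A
    · exact hP.2.2.2 hA' k ⟨hA', fun h' => hk.2 (hAB h')⟩ (cn_refl _)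
    · exact hP.2.2.1 hA'
  · rintro y z ⟨y0, y1, y2, y3⟩ ⟨-, -, rfl | ⟨rfl, hzB⟩⟩
    · refine ⟨y0, (oc_vp _ _).2 y1, fun hb => ?_, fun hb t ht cc => ?_⟩
      · have e : vp γ y = vp δ y := by
          have hb' : y.1 ∉ A := hb
          simp only [vp]
          rw [h.out _ hb']
        rw [e]
        have hb' : y.1 ∉ A := hb
        exact cn_trans (y2 hb) (cn_vp ((h.oc_out hb').1 y1) y0)
      · exact y3 hb t ht (cn_trans (cn_vp y1 hb) cc)
    · refine ⟨hzB, (hB.mt y trivial trivial).1 y1, fun hb => ?_, fun hb t ht cc => ?_⟩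
      · by_cases hy : y.1 ∈ A
        · have hob : oc δ y := (h.bd_oc hB.mt hb).1 y1
          exact cn_trans (y3 hy y ⟨hy, hb⟩ (cn_refl _)) (cn_rv hob y0 hzB)
        · exact cn_trans (y2 hy) (cn_rv ((h.oc_out hy).1 y1) y0 hzB)
      · by_cases hy : y.1 ∈ A
        · exact y3 hy t ht (cn_trans (cn_rv y1 hy hb) cc)
        · have hbd : rv y ∈ BdA A := ⟨hb, by rw [rv_rv]; exact hy⟩
          exact cn_trans (cn_trans (y2 hy) (cn_rv ((h.oc_out hy).1 y1) y0 hzB)) (cn_mono hAB ((h.pr _ hbd t ht).1 cc))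

/-- a loop which leaves the region has no closed loop inside -/
theorem Lp.sa (l : Lp γ) (lv : ∃ v, v ∉ A ∧ γ v ≠ 0) : SA A γ γ := by
  refine ⟨l.mt, fun _ _ => rfl, fun h h1 ho => ?_, fun _ _ _ _ => Iff.rfl⟩
  by_contra hno
  obtain ⟨v, hv, hv0⟩ := lv
  obtain ⟨d, hd⟩ := ex_oc hv0
  have hP := cn_of l.mt (P := fun k => k.1 ∈ A ∧ oc γ k ∧ Cn γ A h k) ?_ (l.cn h (v, d) ho hd)
    ⟨h1, ho, cn_refl _⟩
  · exact hv hP.1
  · rintro a b ⟨ha1, ha2, ha3⟩ ⟨-, -, rfl | ⟨rfl, -⟩⟩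
    · exact ⟨ha1, (oc_vp γ a).2 ha2, cn_trans ha3 (cn_vp ha2 ha1)⟩
    · by_cases hb : (rv a).1 ∈ A
      · exact ⟨hb, (l.mt a trivial trivial).1 ha2, cn_trans ha3 (cn_rv ha2 ha1 hb)⟩
      · exact (hno ⟨a, ⟨ha1, hb⟩, ha3⟩).elim

/-- **the class of a loop which leaves the region consists of loops** -/
theorem SA.lp (h : SA A γ δ) (l : Lp γ) (lv : ∃ v, v ∉ A ∧ γ v ≠ 0) : Lp δ := by
  have h0 : SA A γ γ := Lp.sa l lv
  have hU : SA (Set.univ : Set Pt) γ γ ∨ True := Or.inr trivial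
  have hout : ∀ x : He, x.1 ∉ A → (oc γ x ↔ oc δ x) := fun x hx => h.oc_out hx
  have main : ∀ a b : He, a.1 ∉ A → b.1 ∉ A → oc δ a → oc δ b → Cn δ Set.univ a b := by
    intro h0 k0 hh hk oh ok
    have hP := cn_of l.mt (P := fun x => oc γ x ∧ (x.1 ∉ A → Cn δ Set.univ h0 x) ∧
      (x.1 ∈ A → ∀ b ∈ BdA A, Cn γ A x b → Cn δ Set.univ h0 b)) ?_
      (l.cn h0 k0 ((hout _ hh).2 oh) ((hout _ hk).2 ok))
      ⟨(hout _ hh).2 oh, fun _ => cn_refl _, fun h => (hh h).elim⟩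
    · exact hP.2.1 hk
    · rintro a b ⟨a1, a2, a3⟩ ⟨-, -, rfl | ⟨rfl, -⟩⟩
      · refine ⟨(oc_vp _ _).2 a1, fun hb => ?_, fun hb c hc cc => ?_⟩
        · have e : vp γ a = vp δ a := by
            have hb' : a.1 ∉ A := hb
            simp only [vp]
            rw [h.out _ hb']
          rw [e]
          exact cn_trans (a2 hb) (cn_vp ((hout a hb).1 a1) trivial)
        · exact a3 hb c hc (cn_trans (cn_vp a1 hb) cc)
      · refine ⟨(l.mt a trivial trivial).1 a1, fun hb => ?_, fun hb c hc cc => ?_⟩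
        · by_cases ha : a.1 ∈ A
          · have hoa : oc δ a := (h.bd_oc l.mt hb).1 a1
            exact cn_trans (a3 ha a ⟨ha, hb⟩ (cn_refl _)) (cn_rv hoa trivial trivial)
          · exact cn_trans (a2 ha) (cn_rv ((hout a ha).1 a1) trivial trivial)
        · by_cases ha : a.1 ∈ A
          · exact a3 ha c hc (cn_trans (cn_rv a1 ha hb) cc)
          · have hbd : rv a ∈ BdA A := ⟨hb, by rw [rv_rv]; exact ha⟩
            exact cn_trans (cn_trans (a2 ha) (cn_rv ((hout a ha).1 a1) trivial trivial))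
              (cn_mono (Set.subset_univ _) ((h.pr _ hbd c hc).1 cc))
  have ex : ∀ x : He, oc δ x → ∃ k : He, k.1 ∉ A ∧ oc δ k ∧ Cn δ Set.univ x k := by
    intro x ox
    by_cases hh : x.1 ∈ A
    · obtain ⟨b, hb, c⟩ := h.op x hh ox
      have hob : oc δ b := by
        rcases cn_oc (mt_mono h.mt) c with rfl | ⟨-, h2, -⟩
        · exact ox
        · exact h2
      exact ⟨rv b, hb.2, (h.mt b trivial trivial).1 hob,
        cn_trans (cn_mono (Set.subset_univ _) c) (cn_rv hob trivial trivial)⟩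
    · exact ⟨x, hh, ox, cn_refl _⟩
  refine ⟨h.mt, ?_, fun x k ox ok => ?_⟩
  · obtain ⟨v, hv, h0⟩ := lv
    rintro rfl
    exact h0 (h.out v hv)
  · obtain ⟨a, ha, oa, ca⟩ := ex x ox
    obtain ⟨b, hb, ob, cb⟩ := ex k ok
    exact cn_trans ca (cn_trans (main a b ha hb oa ob) (cn_symm cb))

/-! ### sums over classes -/

open Classical in
/-- **comparison of sums over classes** -/
theorem tsum_class {X : Type*} {r : X → X → Prop} (hs : ∀ {x y}, r x y → r y x)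
    (ht : ∀ {x y z}, r x y → r y z → r x z) {f g : X → ℝ≥0∞} {F : X → ℝ≥0∞}
    (hF : ∀ {x y}, r x y → F x = F y)
    (hfg : ∀ x, r x x → F x ≠ 0 → ∑' y, (if r x y then f y else 0) ≤ ∑' y, (if r x y then g y else 0)) :
    ∑' x, (if r x x then F x * f x else 0) ≤ ∑' x, (if r x x then F x * g x else 0) := by
  have key : ∀ h : X → ℝ≥0∞, ∑' x, (if r x x then h x else 0) = ∑' x : {x // r x x}, h x.1 := by
    intro h
    refine Eq.trans (tsum_congr fun x => ?_) (tsum_subtype {x | r x x} h).symm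
    simp [Set.indicator_apply]
  let S : Setoid {x : X // r x x} := ⟨fun a b => r a.1 b.1, ⟨fun a => a.2, fun h => hs h, fun h h' => ht h h'⟩⟩
  rw [key fun x => F x * f x, key fun x => F x * g x]
  have fib : ∀ h : X → ℝ≥0∞, ∑' x : {x // r x x}, h x.1 =
      ∑' q : Quotient S, ∑' x : {x : {x : X // r x x} // (Quotient.mk S x) = q}, h x.1.1 := by
    intro h
    rw [← (Equiv.sigmaFiberEquiv (Quotient.mk S)).tsum_eq fun x => h x.1, ENNReal.tsum_sigma']
    rfl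
  rw [fib fun x => F x * f x, fib fun x => F x * g x]
  refine ENNReal.tsum_le_tsum fun q => ?_
  obtain ⟨x0, rfl⟩ := Quotient.exists_rep q
  have cls : ∀ h : X → ℝ≥0∞, ∑' x : {x : {x : X // r x x} // (Quotient.mk S x) = ⟦x0⟧}, F x.1.1 * h x.1.1 =
      F x0.1 * ∑' y, (if r x0.1 y then h y else 0) := by
    intro h
    have e1 : ∀ x : {x : {x : X // r x x} // (Quotient.mk S x) = ⟦x0⟧}, F x.1.1 * h x.1.1 = F x0.1 * h x.1.1 := by
      rintro ⟨x, hx⟩
      have : r x.1 x0.1 := Quotient.exact hx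
      rw [hF this]
    rw [tsum_congr e1, ENNReal.tsum_mul_left]
    congr 1
    have e2 : ∑' y, (if r x0.1 y then h y else 0) = ∑' y : {y // r x0.1 y}, h y.1 := by
      refine Eq.trans (tsum_congr fun x => ?_) (tsum_subtype {y | r x0.1 y} h).symm
      simp [Set.indicator_apply]
    rw [e2]
    let e : {x : {x : X // r x x} // (Quotient.mk S x) = ⟦x0⟧} ≃ {y // r x0.1 y} :=
      { toFun := fun x => ⟨x.1.1, hs (Quotient.exact x.2)⟩
        invFun := fun y => ⟨⟨y.1, ht (hs y.2) y.2⟩, Quotient.sound (hs y.2)⟩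
        left_inv := fun _ => rfl
        right_inv := fun _ => rfl }
    exact e.tsum_eq fun y => h y.1
  rw [cls f, cls g]
  by_cases h0 : F x0.1 = 0
  · rw [h0, zero_mul, zero_mul]
  · exact mul_le_mul_right (hfg x0.1 x0.2 h0) _

end Pool.Agent.ROT.U.Ln
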