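import Pool.Agent.ROT.ULnB
import Pool.Agent.ROT.LLeft

/-!
# ROT, universality in the angle, row L1 (helper27): (S1), the extreme column

The weight of the leftmost column does not decrease when its angle is changed from the honeycomb angle to `b`; a loop is
determined by its part right of the leftmost column.
-/

set_option autoImplicit false

namespace Pool.Agent.ROT.U.Ln

open Pool.Agent.ROT.E
open Pool.Agent.ROT.E.Lab
open Pool.Agent.ROT.L (nc left_cell left_card left_W)
open Pool.Agent.EXL (Wt)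
open Pool.Agent.YBC (Dir)
open Pool.Agent.UNI (wR wR_nn DR DR_pos wR_v_pos wR_u1_pos)
open scoped ENNReal

/-! ### numbers -/

/-- `v = (t - cos (3 π / 8)) / (t + cos (π / 8))`, `u1 u2 = (t - cos (3 π / 8)) / (t + cos (π / 8)) ^ 2`,
`t = cos (2 u - 3 π / 8)` -/
theorem wR_t (u : ℝ) : (wR u).v = (Real.cos (2 * u - 3 * Real.pi / 8) - Real.cos (3 * Real.pi / 8)) /
      (Real.cos (2 * u - 3 * Real.pi / 8) + Real.cos (Real.pi / 8)) ∧
    (wR u).u1 * (wR u).u2 = (Real.cos (2 * u - 3 * Real.pi / 8) - Real.cos (3 * Real.pi / 8)) /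
      (Real.cos (2 * u - 3 * Real.pi / 8) + Real.cos (Real.pi / 8)) ^ 2 := by
  have e1 : Real.sin u * Real.sin (3 * Real.pi / 8 - u) =
      (Real.cos (2 * u - 3 * Real.pi / 8) - Real.cos (3 * Real.pi / 8)) / 2 := by
    have h1 : Real.cos (2 * u - 3 * Real.pi / 8) = Real.cos (u - (3 * Real.pi / 8 - u)) := by
      congr 1
      ring
    have h2 : Real.cos (3 * Real.pi / 8) = Real.cos (u + (3 * Real.pi / 8 - u)) := by
      congr 1
      ring
    rw [h1, h2, Real.cos_sub, Real.cos_add]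
    ring
  have e2 : DR u = (Real.cos (2 * u - 3 * Real.pi / 8) + Real.cos (Real.pi / 8)) / 2 := by
    unfold DR
    have h1 : Real.cos (2 * u - 3 * Real.pi / 8) = -Real.cos ((u + Real.pi / 4) + (u + 3 * Real.pi / 8)) := by
      rw [← Real.cos_sub_pi]
      congr 1
      ring
    have h2 : Real.cos (Real.pi / 8) = Real.cos ((u + 3 * Real.pi / 8) - (u + Real.pi / 4)) := by
      congr 1
      ring
    rw [h1, h2, Real.cos_sub, Real.cos_add]
    ring
  have e3 : Real.sin (Real.pi / 4) ^ 2 = 1 / 2 := by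
    rw [Real.sin_pi_div_four, div_pow, Real.sq_sqrt (by norm_num)]
    norm_num
  constructor
  · show Real.sin u * Real.sin (3 * Real.pi / 8 - u) / DR u = _
    rw [e1, e2]
    by_cases h : Real.cos (2 * u - 3 * Real.pi / 8) + Real.cos (Real.pi / 8) = 0
    · rw [h]
      simp
    · field_simp
  · show Real.sin (Real.pi / 4) * Real.sin (3 * Real.pi / 8 - u) / DR u * (Real.sin (Real.pi / 4) * Real.sin u / DR u) = _
    have e4 : Real.sin (Real.pi / 4) * Real.sin (3 * Real.pi / 8 - u) / DR u * (Real.sin (Real.pi / 4) * Real.sin u / DR u) =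
        Real.sin (Real.pi / 4) ^ 2 * (Real.sin u * Real.sin (3 * Real.pi / 8 - u)) / (DR u) ^ 2 := by ring
    rw [e4, e1, e2, e3]
    by_cases h : Real.cos (2 * u - 3 * Real.pi / 8) + Real.cos (Real.pi / 8) = 0
    · rw [h]
      simp
    · field_simp

theorem cos_lt : 0 < Real.cos (3 * Real.pi / 8) ∧ Real.cos (3 * Real.pi / 8) < Real.cos (Real.pi / 8) ∧
    1 ≤ Real.cos (Real.pi / 8) + 2 * Real.cos (3 * Real.pi / 8) := by
  have hp := Real.pi_pos
  have h0 : 0 < Real.cos (3 * Real.pi / 8) := Real.cos_pos_of_mem_Ioo ⟨by linarith, by linarith⟩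
  have h1 : Real.cos (3 * Real.pi / 8) < Real.cos (Real.pi / 8) :=
    Real.cos_lt_cos_of_nonneg_of_le_pi (by linarith) (by linarith) (by linarith)
  refine ⟨h0, h1, ?_⟩
  -- cos² (π / 8) + cos² (3 π / 8) = 1
  have e : Real.cos (3 * Real.pi / 8) = Real.sin (Real.pi / 8) := by
    rw [← Real.cos_pi_div_two_sub]
    congr 1
    ring
  have h2 := Real.sin_sq_add_cos_sq (Real.pi / 8)
  rw [← e] at h2
  nlinarith [Real.cos_le_one (Real.pi / 8)]

/-- **the numbers of (S1)** -/
theorem num1 {b : ℝ} (h1 : Real.pi / 8 ≤ b) (h2 : b ≤ Real.pi / 4) :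
    (wR (Real.pi / 8)).v ≤ (wR b).v ∧ (wR (Real.pi / 8)).u1 * (wR (Real.pi / 8)).u2 ≤ (wR b).u1 * (wR b).u2 := by
  have hp := Real.pi_pos
  obtain ⟨c0, c1, c2⟩ := cos_lt
  rw [(wR_t (Real.pi / 8)).1, (wR_t (Real.pi / 8)).2, (wR_t b).1, (wR_t b).2]
  have e : Real.cos (2 * (Real.pi / 8) - 3 * Real.pi / 8) = Real.cos (Real.pi / 8) := by
    rw [← Real.cos_neg]
    congr 1
    ring
  rw [e]
  have ht : Real.cos (Real.pi / 8) ≤ Real.cos (2 * b - 3 * Real.pi / 8) := by
    rw [← Real.cos_abs (2 * b - 3 * Real.pi / 8)]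
    refine Real.cos_le_cos_of_nonneg_of_le_pi (abs_nonneg _) (by linarith) ?_
    rw [abs_le]
    constructor <;> linarith
  have ht1 := Real.cos_le_one (2 * b - 3 * Real.pi / 8)
  set t := Real.cos (2 * b - 3 * Real.pi / 8) with htd
  set p := Real.cos (Real.pi / 8) with hpd
  set q := Real.cos (3 * Real.pi / 8) with hqd
  have hp0 : 0 < p := lt_trans c0 c1
  constructor
  · rw [div_le_div_iff₀ (by linarith) (by linarith)]
    nlinarith
  · have q1 : 0 < p + p := by linarith
    have q2 : 0 < t + p := by linarith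
    rw [div_le_div_iff₀ (by positivity) (by positivity)]
    have h3 : (t - q) * (p + p) ^ 2 - (p - q) * (t + p) ^ 2 = (t - p) * (4 * p ^ 2 - (p - q) * (t + 3 * p)) := by ring
    have h4 : (p - q) * (t + 3 * p) ≤ 4 * p ^ 2 := by nlinarith
    nlinarith [mul_nonneg (sub_nonneg.2 ht) (sub_nonneg.2 h4)]

/-! ### the weight of the leftmost column -/

variable {A B : Set Pt} {γ δ ε : Cfg} {j m : ℤ} {u u' : ℤ → ℝ}

open Classical in
/-- the weight of the column `m` -/
noncomputable def wc (w : Wt ℝ) (m : ℤ) (γ : Cfg) : ℝ := ∏ v ∈ γ.support.filter (fun v => v.1 = m), (γ v).wt w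

open Classical in
/-- **the weight of the leftmost column** -/
theorem wc_eq (hm : Mt γ Set.univ) (hl : ∀ v : Pt, v.1 < m → γ v = 0) (w : Wt ℝ) :
    wc w m γ = (w.u1 * w.u2) ^ (nc γ m .ne) * w.v ^ (nc γ m .v) := by
  have key : ∀ v ∈ γ.support.filter (fun v => v.1 = m), (γ v).wt w =
      (if γ v = .ne then w.u1 else 1) * ((if γ v = .se then w.u2 else 1) * (if γ v = .v then w.v else 1)) := by
    intro v hv
    rw [Finset.mem_filter] at hv
    obtain ⟨x, r⟩ := v
    obtain ⟨h1, rfl⟩ := hv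
    rcases left_cell hm hl r with h | h | h | h
    · exact absurd h (Finsupp.mem_support_iff.1 h1)
    all_goals simp [h, Cell.wt]
  have pc : ∀ (c : Cell) (t : ℝ), ∏ v ∈ γ.support.filter (fun v => v.1 = m), (if γ v = c then t else 1) = t ^ nc γ m c := by
    intro c t
    rw [← Finset.prod_filter, Finset.prod_const, Finset.filter_filter, nc]
  rw [wc, Finset.prod_congr rfl key, Finset.prod_mul_distrib, Finset.prod_mul_distrib, pc, pc, pc, ← left_card hm hl, mul_pow]
  ring

theorem wc_le (hm : Mt γ Set.univ) (hl : ∀ v : Pt, v.1 < m → γ v = 0) {b : ℝ} (h1 : Real.pi / 8 ≤ b)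
    (h2 : b ≤ Real.pi / 4) : wc (wR (Real.pi / 8)) m γ ≤ wc (wR b) m γ := by
  have hp := Real.pi_pos
  rw [wc_eq hm hl, wc_eq hm hl]
  have h0 := wR_nn (u := Real.pi / 8) (by linarith) (by linarith)
  have hb := wR_nn h1 h2
  obtain ⟨n1, n2⟩ := num1 h1 h2
  exact mul_le_mul (pow_le_pow_left₀ (mul_nonneg h0.u1 h0.u2) n2 _) (pow_le_pow_left₀ h0.v n1 _) (pow_nonneg h0.v _)
    (pow_nonneg (mul_nonneg hb.u1 hb.u2) _)

open Classical in
/-- the weight of the other columns -/
noncomputable def wd (u : ℤ → ℝ) (m : ℤ) (γ : Cfg) : ℝ :=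
  ∏ v ∈ γ.support.filter (fun v => v.1 ≠ m), (γ v).wt (wR (u v.1))

theorem MU_wc (u : ℤ → ℝ) (m : ℤ) (γ : Cfg) : MU u γ = wc (wR (u m)) m γ * wd u m γ := by
  classical
  rw [MU, Finsupp.prod, ← Finset.prod_filter_mul_prod_filter_not γ.support (fun v => v.1 = m), wc, wd]
  congr 1
  refine Finset.prod_congr rfl fun v hv => ?_
  rw [(Finset.mem_filter.1 hv).2]

theorem wd_nonneg (hu : An u) (m : ℤ) (γ : Cfg) : 0 ≤ wd u m γ := Finset.prod_nonneg fun _ _ => wt_nn hu _ _

theorem wd_congr (h : ∀ i, i ≠ m → m ≤ i → u i = u' i) (hl : ∀ v : Pt, v.1 < m → γ v = 0) : wd u m γ = wd u' m γ := by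
  refine Finset.prod_congr rfl fun v hv => ?_
  rw [Finset.mem_filter] at hv
  have h1 : m ≤ v.1 := by
    by_contra h2
    exact (Finsupp.mem_support_iff.1 hv.1) (hl v (by omega))
  rw [h v.1 hv.2 h1]

theorem MU_congr (h : ∀ i, m ≤ i → u i = u' i) (hl : ∀ v : Pt, v.1 < m → γ v = 0) : MU u γ = MU u' γ := by
  refine Finset.prod_congr rfl fun v hv => ?_
  have h1 : m ≤ v.1 := by
    by_contra h2
    exact (Finsupp.mem_support_iff.1 hv) (hl v (by omega))
  dsimp only
  rw [h v.1 h1]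

/-- **(S1)** for one loop -/
theorem MU_le (hm : Mt γ Set.univ) (hl : ∀ v : Pt, v.1 < m → γ v = 0) (hu : An u) (h : ∀ i, m < i → u i = u' i)
    (h8 : u m = Real.pi / 8) (h1 : Real.pi / 8 ≤ u' m) (h2 : u' m ≤ Real.pi / 4) : MU u γ ≤ MU u' γ := by
  rw [MU_wc u m, MU_wc u' m, ← wd_congr (u := u) (u' := u') (fun i h3 h4 => h i (by omega)) hl, h8]
  exact mul_le_mul_of_nonneg_right (wc_le hm hl h1 h2) (wd_nonneg hu m γ)

/-! ### the leftmost column is determined by the rest -/

theorem cell4 : ∀ c c' : Cell, ¬ c.oc .W → ¬ c'.oc .W → (c.oc .N ↔ c'.oc .N) → (c.oc .S ↔ c'.oc .S) →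
    (c.oc .E ↔ c'.oc .E) → c = c' := by decide

theorem cellp : ∀ c : Cell, ¬ c.oc .W → (c.oc .N ↔ (c.oc .S ↔ ¬ c.oc .E)) := by decide

/-- **two matched configurations which agree right of their leftmost column are equal** -/
theorem left_unique (hm : Mt γ Set.univ) (hm' : Mt δ Set.univ) (hl : ∀ v : Pt, v.1 < m → γ v = 0)
    (hl' : ∀ v : Pt, v.1 < m → δ v = 0) (h : ∀ v : Pt, m < v.1 → γ v = δ v) : γ = δ := by
  have hE : ∀ r, oc γ ((m, r), .E) ↔ oc δ ((m, r), .E) := by
    intro r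
    rw [hm _ trivial trivial, hm' _ trivial trivial]
    show (γ (m + 1, r)).oc .W ↔ (δ (m + 1, r)).oc .W
    rw [h (m + 1, r) (by show m < m + 1; omega)]
  have hS : ∀ {η : Cfg}, Mt η Set.univ → ∀ r, oc η ((m, r), .S) ↔ oc η ((m, r - 1), .N) := by
    intro η hη r
    rw [hη ((m, r), .S) trivial trivial]
    rfl
  have hN : ∀ r, oc γ ((m, r), .N) ↔ oc δ ((m, r), .N) := by
    obtain ⟨A, B, -, hA⟩ := L.col_bdd γ m
    obtain ⟨A', B', -, hA'⟩ := L.col_bdd δ m
    have ze : ∀ r, r ≤ min A A' → (oc γ ((m, r), .N) ↔ oc δ ((m, r), .N)) := by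
      intro r hr
      have e1 : γ (m, r) = 0 := by
        by_contra h1
        have := hA r (Finsupp.mem_support_iff.2 h1)
        omega
      have e2 : δ (m, r) = 0 := by
        by_contra h1
        have := hA' r (Finsupp.mem_support_iff.2 h1)
        omega
      simp only [oc, e1, e2]
    intro r
    rcases le_total r (min A A') with hr | hr
    · exact ze r hr
    · refine Int.leInduction (motive := fun r _ => (oc γ ((m, r), .N) ↔ oc δ ((m, r), .N))) (ze _ le_rfl) ?_ r hr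
      intro n _ ih
      have a1 := cellp _ (left_W hm hl (n + 1))
      have a2 := cellp _ (left_W hm' hl' (n + 1))
      have b1 := hS hm (n + 1)
      have b2 := hS hm' (n + 1)
      rw [add_sub_cancel_right] at b1 b2
      have b3 := hE (n + 1)
      simp only [oc] at a1 a2 b1 b2 b3 ih ⊢
      tauto
  refine Finsupp.ext fun v => ?_
  rcases lt_trichotomy v.1 m with h1 | h1 | h1
  · rw [hl v h1, hl' v h1]
  · obtain ⟨x, r⟩ := v
    have h1' : x = m := h1
    subst h1'
    exact cell4 _ _ (left_W hm hl r) (left_W hm' hl' r) (hN r) ((hS hm r).trans ((hN (r - 1)).trans (hS hm' r).symm)) (hE r)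
  · exact h v h1

end Pool.Agent.ROT.U.Ln
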