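import Pool.Agent.ROT.ULnC

/-!
# ROT, universality in the angle, row L1, L2 (helper27): (S3), the line theorem on the left side

From the bumps (S2, `S2L`, row of helper70): the sum of a class function `F` of the half plane `{v | v.1 < c}` does not
depend on the angles of the columns `< c` (`tot_eq`), and the part with all vertices in the columns `≥ m` is the smallest
for the honeycomb (`TT_low`).
-/

set_option autoImplicit false

namespace Pool.Agent.ROT.U.Ln

open Pool.Agent.ROT.E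
open Pool.Agent.ROT.E.Lab
open Pool.Agent.EXL (Wt)
open Pool.Agent.YBC (Dir)
open Pool.Agent.UNI (wR wR_nn)
open scoped ENNReal

open Classical in
/-- **(S2), left form**: one column with the angle `b` at the left end is dominated by two honeycomb columns -/
def S2L (b : ℝ) : Prop := ∀ (m : ℤ) (γ : Cfg), Sm1 (m - 1) γ γ → (∀ v : Pt, v.1 < m → γ v = 0) →
  ENNReal.ofReal (wc (wR b) m γ) ≤
    ∑' δ : Cfg, if Sm1 (m - 1) γ δ then ENNReal.ofReal (wc (wR (Real.pi / 8)) m δ * wc (wR (Real.pi / 8)) (m - 1) δ) else 0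

/-- all bumps -/
def S2A : Prop := ∀ b : ℝ, Real.pi / 8 ≤ b → b ≤ Real.pi / 4 → S2L b

/-- the left half plane -/
def Lh (c : ℤ) : Set Pt := {v | v.1 < c}

open Classical in
/-- all vertices in the columns `≥ m` -/
noncomputable def FR (F : Cfg → ℝ≥0∞) (m : ℤ) (γ : Cfg) : ℝ≥0∞ := if ∀ v : Pt, v.1 < m → γ v = 0 then F γ else 0

/-- the sum over the configurations with all vertices in the columns `≥ m` -/
noncomputable def TT (F : Cfg → ℝ≥0∞) (u : ℤ → ℝ) (m : ℤ) : ℝ≥0∞ := ∑' γ, FR F m γ * ENNReal.ofReal (MU u γ)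

variable {F : Cfg → ℝ≥0∞} {c m j : ℤ} {u u' w : ℤ → ℝ} {γ δ : Cfg}

theorem FR_pos (h : ∀ v : Pt, v.1 < m → γ v = 0) : FR F m γ = F γ := if_pos h

theorem FR_ne (h : FR F m γ ≠ 0) : (∀ v : Pt, v.1 < m → γ v = 0) ∧ F γ ≠ 0 := by
  unfold FR at h
  split_ifs at h with h1
  · exact ⟨h1, h⟩
  · exact absurd rfl h

theorem FR_le : FR F m γ ≤ F γ := by
  unfold FR
  split_ifs
  · exact le_rfl
  · exact zero_le

theorem TT_congr (h : ∀ i, m ≤ i → u i = u' i) : TT F u m = TT F u' m := by
  refine tsum_congr fun γ => ?_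
  by_cases h0 : FR F m γ = 0
  · rw [h0, zero_mul, zero_mul]
  · rw [MU_congr h (FR_ne h0).1]

theorem FR_cf (hF : CA (Lh c) F) (h1 : m ≤ j) (h2 : j + 1 < c) : CF j (FR F m) := by
  classical
  have hj : Sp j ⊆ Lh c := by
    rintro v (h | h)
    · show v.1 < c
      omega
    · show v.1 < c
      omega
  have hc := hF.cf hj
  refine ⟨fun γ h0 => hc.ne γ (FR_ne h0).2, fun γ δ h3 h4 => ?_⟩
  have e : (∀ v : Pt, v.1 < m → γ v = 0) ↔ ∀ v : Pt, v.1 < m → δ v = 0 := by
    refine forall_congr' fun v => forall_congr' fun hv => ?_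
    rw [h4.out v]
    rintro (h | h) <;> omega
  unfold FR
  rw [hc.eq γ δ h3 h4]
  exact if_congr e rfl rfl

theorem TT_swap (hF : CA (Lh c) F) (hu : An u) (h1 : m ≤ j) (h2 : j + 1 < c) : TT F (sw j u) m = TT F u m :=
  (FR_cf hF h1 h2).swap hu

/-- **(S1)** -/
theorem TT_s1 (hF : CA (Lh c) F) (hu : An u) (h : ∀ i, m < i → u i = u' i)
    (h8 : u m = Real.pi / 8) (h1 : Real.pi / 8 ≤ u' m) (h2 : u' m ≤ Real.pi / 4) : TT F u m ≤ TT F u' m := by
  refine ENNReal.tsum_le_tsum fun γ => ?_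
  by_cases h0 : FR F m γ = 0
  · rw [h0, zero_mul, zero_mul]
  · have h3 := FR_ne h0
    exact mul_le_mul_right (ENNReal.ofReal_le_ofReal (MU_le (hF.ne γ h3.2).mt h3.1 hu h h8 h1 h2)) _

open Classical in
/-- the weight outside of two columns -/
noncomputable def we (u : ℤ → ℝ) (m : ℤ) (γ : Cfg) : ℝ :=
  ∏ v ∈ γ.support.filter (fun v => ¬ (v.1 = m ∨ v.1 = m - 1)), (γ v).wt (wR (u v.1))

theorem MU_we (u : ℤ → ℝ) (m : ℤ) (γ : Cfg) : MU u γ = wc (wR (u m)) m γ * wc (wR (u (m - 1))) (m - 1) γ * we u m γ := by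
  classical
  rw [MU, Finsupp.prod, ← Finset.prod_filter_mul_prod_filter_not γ.support (fun v => v.1 = m ∨ v.1 = m - 1)]
  have e : ∏ v ∈ γ.support.filter (fun v => v.1 = m ∨ v.1 = m - 1), (γ v).wt (wR (u v.1)) =
      wc (wR (u m)) m γ * wc (wR (u (m - 1))) (m - 1) γ := by
    rw [Finset.filter_or, Finset.prod_union]
    · congr 1 <;> refine Finset.prod_congr rfl fun v hv => ?_ <;> rw [(Finset.mem_filter.1 hv).2]
    · rw [Finset.disjoint_left]
      intro v h1 h2
      have a := (Finset.mem_filter.1 h1).2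
      have b := (Finset.mem_filter.1 h2).2
      omega
  rw [e]
  rfl

theorem we_nonneg (hu : An u) (m : ℤ) (γ : Cfg) : 0 ≤ we u m γ := Finset.prod_nonneg fun _ _ => wt_nn hu _ _

theorem we_congr (h : ∀ i, i ≠ m → i ≠ m - 1 → m - 1 ≤ i → u i = u' i) (hl : ∀ v : Pt, v.1 < m - 1 → γ v = 0) :
    we u m γ = we u' m γ := by
  refine Finset.prod_congr rfl fun v hv => ?_
  rw [Finset.mem_filter] at hv
  have h1 : m - 1 ≤ v.1 := by
    by_contra h2
    exact (Finsupp.mem_support_iff.1 hv.1) (hl v (by omega))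
  rw [h v.1 (fun e => hv.2 (Or.inl e)) (fun e => hv.2 (Or.inr e)) h1]

theorem we_out (h : ∀ v, v ∉ Sp (m - 1) → γ v = δ v) : we u m γ = we u m δ := by
  classical
  have hs : γ.support.filter (fun v => ¬ (v.1 = m ∨ v.1 = m - 1)) = δ.support.filter (fun v => ¬ (v.1 = m ∨ v.1 = m - 1)) := by
    ext v
    simp only [Finset.mem_filter, Finsupp.mem_support_iff]
    refine and_congr_left fun hv => ?_
    rw [h v]
    rintro (e | e)
    · exact hv (Or.inr e)
    · exact hv (Or.inl (by omega))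
  unfold we
  rw [hs]
  refine Finset.prod_congr rfl fun v hv => ?_
  rw [h v]
  have hv := (Finset.mem_filter.1 hv).2
  rintro (e | e)
  · exact hv (Or.inr e)
  · exact hv (Or.inl (by omega))

theorem wc_zero {w : Wt ℝ} (h : ∀ v : Pt, v.1 = m → γ v = 0) : wc w m γ = 1 := by
  refine Finset.prod_eq_one fun v hv => ?_
  rw [Finset.mem_filter] at hv
  exact absurd (h v hv.2) (Finsupp.mem_support_iff.1 hv.1)

/-- **(S2)** -/
theorem TT_s2 (hF : CA (Lh c) F) (hmc : m < c) (hu : An u) (hS : S2L (u m)) (h : ∀ i, m < i → u i = u' i)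
    (h8 : u' m = Real.pi / 8) (h9 : u' (m - 1) = Real.pi / 8) : TT F u m ≤ TT F u' (m - 1) := by
  classical
  have hj : Sp (m - 1) ⊆ Lh c := by
    rintro v (h | h)
    · show v.1 < c
      omega
    · show v.1 < c
      omega
  have hc := hF.cf hj
  -- one configuration
  have one : ∀ γ : Cfg, FR F m γ * ENNReal.ofReal (MU u γ) ≤
      ∑' δ, (if (∀ v : Pt, v.1 < m → γ v = 0) ∧ Sm1 (m - 1) γ γ ∧ Sm1 (m - 1) γ δ then
        FR F (m - 1) δ * ENNReal.ofReal (MU u' δ) else 0) := by
    intro γ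
    by_cases h0 : FR F m γ = 0
    · rw [h0, zero_mul]
      exact zero_le
    obtain ⟨h1, h2⟩ := FR_ne h0
    have h3 := hc.ne γ h2
    rw [FR_pos h1]
    have e1 : MU u γ = we u m γ * wc (wR (u m)) m γ := by
      rw [MU_we u m γ, wc_zero (m := m - 1) fun v hv => h1 v (by omega)]
      ring
    have e2 : ∀ δ, (if (∀ v : Pt, v.1 < m → γ v = 0) ∧ Sm1 (m - 1) γ γ ∧ Sm1 (m - 1) γ δ then
        FR F (m - 1) δ * ENNReal.ofReal (MU u' δ) else 0) = F γ * ENNReal.ofReal (we u m γ) *
        (if Sm1 (m - 1) γ δ then ENNReal.ofReal (wc (wR (Real.pi / 8)) m δ * wc (wR (Real.pi / 8)) (m - 1) δ) else 0) := by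
      intro δ
      by_cases h4 : Sm1 (m - 1) γ δ
      · rw [if_pos ⟨h1, h3, h4⟩, if_pos h4]
        have h5 : ∀ v : Pt, v.1 < m - 1 → δ v = 0 := by
          intro v hv
          rw [← h4.out v]
          · exact h1 v (by omega)
          · rintro (h | h) <;> omega
        rw [FR_pos h5, ← hc.eq γ δ h3 h4, MU_we u' m δ, h8, h9, ← we_out (u := u') h4.out,
          mul_assoc (F γ), ← we_congr (u := u) (u' := u') (fun i a b d => h i (by omega))
          (fun v hv => h1 v (by omega)), mul_comm _ (we u m γ), ENNReal.ofReal_mul (we_nonneg hu m γ)]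
      · rw [if_neg (fun h => h4 h.2.2), if_neg h4, mul_zero]
    rw [tsum_congr e2, ENNReal.tsum_mul_left, e1, ENNReal.ofReal_mul (we_nonneg hu m γ), mul_assoc]
    exact mul_le_mul_right (mul_le_mul_right (hS m γ h3 h1) _) _
  refine (ENNReal.tsum_le_tsum one).trans ?_
  rw [ENNReal.tsum_comm]
  refine ENNReal.tsum_le_tsum fun δ => ?_
  by_cases hex : ∃ γ : Cfg, (∀ v : Pt, v.1 < m → γ v = 0) ∧ Sm1 (m - 1) γ γ ∧ Sm1 (m - 1) γ δ
  · obtain ⟨γ0, a1, a2, a3⟩ := hex
    have e3 : ∀ γ, (if (∀ v : Pt, v.1 < m → γ v = 0) ∧ Sm1 (m - 1) γ γ ∧ Sm1 (m - 1) γ δ then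
        FR F (m - 1) δ * ENNReal.ofReal (MU u' δ) else 0) = if γ = γ0 then FR F (m - 1) δ * ENNReal.ofReal (MU u' δ) else 0 := by
      intro γ
      refine if_congr ⟨fun h => ?_, fun h => ?_⟩ rfl rfl
      · refine left_unique h.2.1.mt a2.mt h.1 a1 fun v hv => ?_
        have hv' : v ∉ Sp (m - 1) := by rintro (h | h) <;> omega
        rw [h.2.2.out v hv', a3.out v hv']
      · rw [h]
        exact ⟨a1, a2, a3⟩
    rw [tsum_congr e3, tsum_ite_eq]
  · have e3 : ∀ γ, (if (∀ v : Pt, v.1 < m → γ v = 0) ∧ Sm1 (m - 1) γ γ ∧ Sm1 (m - 1) γ δ then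
        FR F (m - 1) δ * ENNReal.ofReal (MU u' δ) else 0) = 0 := fun γ => if_neg fun h => hex ⟨γ, h⟩
    rw [tsum_congr e3, tsum_zero]
    exact zero_le

/-! ### moving one column to the left end -/

theorem An.upd (hu : An u) (i : ℤ) {a : ℝ} (h1 : Real.pi / 8 ≤ a) (h2 : a ≤ Real.pi / 4) : An (Function.update u i a) := by
  intro k
  by_cases h : k = i
  · subst h
    rw [Function.update_self]
    exact ⟨h1, h2⟩
  · rw [Function.update_of_ne h]
    exact hu k

/-- a column moves through honeycomb columns -/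
theorem TT_move (hF : CA (Lh c) F) (hw : An w) {a : ℝ} (h1 : Real.pi / 8 ≤ a) (h2 : a ≤ Real.pi / 4) {i0 : ℤ}
    (h0 : ∀ i, i ≤ i0 → w i = Real.pi / 8) (hc : i0 < c) (n : ℕ) (hm : m ≤ i0 - n) :
    TT F (Function.update w (i0 - n) a) m = TT F (Function.update w i0 a) m := by
  induction n with
  | zero => simp
  | succ n ih =>
    rw [← ih (by push_cast at hm; omega)]
    have e : Function.update w (i0 - ((n + 1 : ℕ) : ℤ)) a = sw (i0 - n - 1) (Function.update w (i0 - n) a) := by
      have e0 : i0 - ((n + 1 : ℕ) : ℤ) = i0 - n - 1 := by push_cast; ring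
      rw [e0]
      funext i
      simp only [sw, Function.update_apply]
      by_cases a1 : i = i0 - n - 1
      · rw [if_pos a1, if_pos a1, if_pos (by omega)]
      · rw [if_neg a1, if_neg a1]
        by_cases a2 : i = i0 - n - 1 + 1
        · rw [if_pos a2, if_neg (by omega), h0 i (by omega), h0 _ (by omega)]
        · rw [if_neg a2, if_neg (by omega)]
    rw [e]
    exact TT_swap hF (An.upd hw _ h1 h2) (by push_cast at hm; omega) (by omega)

/-- **one column**: between the honeycomb and the honeycomb with one more column -/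
theorem TT_one (hF : CA (Lh c) F) (hw : An w) {a : ℝ} (h1 : Real.pi / 8 ≤ a) (h2 : a ≤ Real.pi / 4) (hS : S2L a)
    {i0 : ℤ} (h0 : ∀ i, i ≤ i0 → w i = Real.pi / 8) (hc : i0 < c) (hm : m ≤ i0) :
    TT F w m ≤ TT F (Function.update w i0 a) m ∧ TT F (Function.update w i0 a) m ≤ TT F w (m - 1) := by
  have e := TT_move (F := F) (m := m) hF hw h1 h2 h0 hc (i0 - m).toNat (by omega)
  have e0 : i0 - ((i0 - m).toNat : ℤ) = m := by omega
  rw [e0] at e
  rw [← e]
  have hup := An.upd hw m h1 h2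
  constructor
  · refine TT_s1 hF hw (fun i hi => ?_) (h0 m hm) ?_ ?_
    · rw [Function.update_of_ne (by omega)]
    · rw [Function.update_self]
      exact h1
    · rw [Function.update_self]
      exact h2
  · refine TT_s2 hF (by omega) hup ?_ (fun i hi => ?_) (h0 m hm) (h0 _ (by omega))
    · rw [Function.update_self]
      exact hS
    · rw [Function.update_of_ne (by omega)]

/-- the first `k` columns left of the line `c` are those of `u`, then honeycomb -/
noncomputable def uk (c : ℤ) (u : ℤ → ℝ) (k : ℕ) : ℤ → ℝ := fun i => if c - k ≤ i then u i else Real.pi / 8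

theorem uk_an (hu : An u) (k : ℕ) : An (uk c u k) := by
  intro i
  unfold uk
  split_ifs
  · exact hu i
  · have := Real.pi_pos
    constructor <;> linarith

theorem uk_succ (k : ℕ) : uk c u (k + 1) = Function.update (uk c u k) (c - k - 1) (u (c - k - 1)) := by
  funext i
  simp only [uk, Function.update_apply]
  by_cases h : i = c - k - 1
  · rw [if_pos h, if_pos (by push_cast; omega), h]
  · rw [if_neg h]
    by_cases h1 : c - (k : ℤ) ≤ i
    · rw [if_pos h1, if_pos (by push_cast; omega)]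
    · rw [if_neg h1, if_neg (by push_cast; omega)]

theorem uk_le (hF : CA (Lh c) F) (hu : An u) (hS : S2A) (k : ℕ) (hm : m ≤ c - k) :
    TT F (uk c u 0) m ≤ TT F (uk c u k) m ∧ TT F (uk c u k) m ≤ TT F (uk c u 0) (m - k) := by
  induction k generalizing m with
  | zero => simp
  | succ k ih =>
    have hk := ih (m := m) (by push_cast at hm; omega)
    have hk' := ih (m := m - 1) (by push_cast at hm; omega)
    have hb := hu (c - k - 1)
    have h := TT_one (F := F) (w := uk c u k) (m := m) hF (uk_an hu k) hb.1 hb.2 (hS _ hb.1 hb.2) (i0 := c - k - 1)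
      (fun i hi => by
        unfold uk
        rw [if_neg (by omega)]) (by omega) (by push_cast at hm; omega)
    rw [← uk_succ] at h
    refine ⟨hk.1.trans h.1, h.2.trans ?_⟩
    have e : m - ((k + 1 : ℕ) : ℤ) = m - 1 - k := by push_cast; ring
    rw [e]
    exact hk'.2

/-- the lattice with honeycomb columns left of `c` -/
noncomputable def uh (c : ℤ) (u : ℤ → ℝ) : ℤ → ℝ := fun i => if c ≤ i then u i else Real.pi / 8

theorem uk_zero : uk c u 0 = uh c u := by
  funext i
  simp [uk, uh]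

theorem uh_an (hu : An u) : An (uh c u) := by
  rw [← uk_zero]
  exact uk_an hu 0

/-- **(MON)** -/
theorem TT_low (hF : CA (Lh c) F) (hu : An u) (hS : S2A) : TT F (uh c u) m ≤ TT F u m := by
  by_cases hm : m ≤ c
  · have h := (uk_le (F := F) (m := m) hF hu hS (c - m).toNat (by omega)).1
    rw [uk_zero] at h
    refine h.trans (TT_congr fun i hi => ?_).le
    unfold uk
    rw [if_pos (by omega)]
  · refine (TT_congr fun i hi => ?_).le
    unfold uh
    rw [if_pos (by omega)]

theorem TT_upp (hF : CA (Lh c) F) (hu : An u) (hS : S2A) (n : ℕ) : TT F u (c - n) ≤ TT F (uh c u) (c - n - n) := by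
  have h := (uk_le (F := F) (m := c - n) hF hu hS n le_rfl).2
  rw [uk_zero] at h
  refine (TT_congr fun i hi => ?_).le.trans h
  unfold uk
  rw [if_pos hi]

/-- the total sum -/
noncomputable def tot (F : Cfg → ℝ≥0∞) (u : ℤ → ℝ) : ℝ≥0∞ := ∑' γ, F γ * ENNReal.ofReal (MU u γ)

theorem TT_le_tot : TT F u m ≤ tot F u := ENNReal.tsum_le_tsum fun _ => mul_le_mul_left FR_le _

/-- exhaustion -/
theorem tot_le {a : ℝ≥0∞} (h : ∀ n : ℕ, TT F u (c - n) ≤ a) : tot F u ≤ a := by
  classical
  unfold tot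
  rw [ENNReal.tsum_eq_iSup_sum]
  refine iSup_le fun s => ?_
  obtain ⟨n, hn⟩ : ∃ n : ℕ, ∀ γ ∈ s, ∀ v : Pt, v.1 < c - n → γ v = 0 := by
    refine ⟨s.sup fun γ => γ.support.sup fun v => (c - v.1).toNat, fun γ hγ v hv => ?_⟩
    by_contra h0
    have h1 : (c - v.1).toNat ≤ γ.support.sup fun v => (c - v.1).toNat :=
      Finset.le_sup (f := fun v : Pt => (c - v.1).toNat) (Finsupp.mem_support_iff.2 h0)
    have h2 : (γ.support.sup fun v => (c - v.1).toNat) ≤ s.sup fun γ => γ.support.sup fun v => (c - v.1).toNat :=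
      Finset.le_sup (f := fun γ : Cfg => γ.support.sup fun v => (c - v.1).toNat) hγ
    omega
  refine le_trans ?_ (h n)
  refine le_trans (Finset.sum_le_sum fun γ hγ => ?_) (ENNReal.sum_le_tsum s)
  rw [FR_pos (hn γ hγ)]

/-- **the line theorem, left side**: the total sum does not depend on the angles left of the line -/
theorem tot_eq (hF : CA (Lh c) F) (hu : An u) (hS : S2A) : tot F u = tot F (uh c u) :=
  le_antisymm (tot_le (c := c) fun n => (TT_upp hF hu hS n).trans TT_le_tot)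
    (tot_le (c := c) fun _ => (TT_low hF hu hS).trans TT_le_tot)

theorem tot_eq' (hF : CA (Lh c) F) (hu : An u) (hu' : An u') (hS : S2A) (h : ∀ i, c ≤ i → u i = u' i) :
    tot F u = tot F u' := by
  rw [tot_eq hF hu hS, tot_eq hF hu' hS]
  congr 1
  funext i
  unfold uh
  split_ifs with hi
  · exact h i hi
  · rfl

end Pool.Agent.ROT.U.Ln
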