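import Pool.Agent.ROT.ULnD

/-!
# ROT, universality in the angle, row L2 (helper27): the line theorem on both sides

`tot_left`, `tot_right`: the sum of a class function of a half plane does not depend on the angles of the columns of the
half plane.
-/

set_option autoImplicit false

namespace Pool.Agent.ROT.U.Ln

open MeasureTheory
open Pool.Agent.ROT.E
open Pool.Agent.ROT.E.Lab
open Pool.Agent.ROT.I (Lps mu)
open Pool.Agent.EXL (Wt)
open Pool.Agent.YBC (Dir)
open Pool.Agent.UNI (wR wR_nn)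
open scoped ENNReal

variable {F : Cfg → ℝ≥0∞} {c m j : ℤ} {u u' w : ℤ → ℝ} {γ δ : Cfg} {A : Set Pt}

/-! ### the point reflection -/

/-- the right half plane -/
def Rh (c : ℤ) : Set Pt := {v | c ≤ v.1}

theorem bd_ac (S : Sy) {h : He} : S.he h ∈ BdA (S.e '' A) ↔ h ∈ BdA A := by
  simp only [BdA, Set.mem_ofPred_eq, Sy.he_rv, Sy.he_fst, S.e.injective.mem_set_image]

theorem sa_ac (S : Sy) : SA (S.e '' A) (S.ac γ) (S.ac δ) ↔ SA A γ δ := by
  constructor
  · intro h
    refine ⟨?_, fun v hv => ?_, fun a ha ho => ?_, fun a ha b hb => ?_⟩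
    · have := h.mt
      rw [← S.image_univ', S.mt_iff] at this
      exact this
    · have := h.out (S.e v) (fun h' => hv (S.e.injective.mem_set_image.1 h'))
      rw [S.ac_apply, S.ac_apply] at this
      exact S.f.injective this
    · obtain ⟨k, hk, c⟩ := h.op (S.he a) ⟨a.1, ha, rfl⟩ ((S.oc_iff δ a).2 ho)
      obtain ⟨k, rfl⟩ := S.he.surjective k
      exact ⟨k, (bd_ac S).1 hk, (S.cn_iff δ A a k).1 c⟩
    · rw [← S.cn_iff γ A, ← S.cn_iff δ A]
      exact h.pr _ ((bd_ac S).2 ha) _ ((bd_ac S).2 hb)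
  · intro h
    refine ⟨?_, fun v hv => ?_, fun a ha ho => ?_, fun a ha b hb => ?_⟩
    · rw [← S.image_univ', S.mt_iff]
      exact h.mt
    · obtain ⟨v, rfl⟩ := S.e.surjective v
      rw [S.ac_apply, S.ac_apply, h.out v fun h' => hv ⟨v, h', rfl⟩]
    · obtain ⟨a, rfl⟩ := S.he.surjective a
      obtain ⟨k, hk, c⟩ := h.op a (S.e.injective.mem_set_image.1 ha) ((S.oc_iff δ a).1 ho)
      exact ⟨S.he k, (bd_ac S).2 hk, (S.cn_iff δ A a k).2 c⟩
    · obtain ⟨a, rfl⟩ := S.he.surjective a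
      obtain ⟨b, rfl⟩ := S.he.surjective b
      rw [S.cn_iff, S.cn_iff]
      exact h.pr _ ((bd_ac S).1 ha) _ ((bd_ac S).1 hb)

theorem ca_ac (S : Sy) (h : CA (S.e '' A) F) : CA A fun γ => F (S.ac γ) :=
  ⟨fun _ h0 => (sa_ac S).1 (h.ne _ h0), fun _ _ h1 h2 => h.eq _ _ ((sa_ac S).2 h1) ((sa_ac S).2 h2)⟩

/-- the angles of the reflected lattice -/
def ng (u : ℤ → ℝ) : ℤ → ℝ := fun i => u (-i)

theorem ng_an (hu : An u) : An (ng u) := fun i => hu (-i)

theorem MU_pr (u : ℤ → ℝ) (γ : Cfg) : MU u (prS.ac γ) = MU (ng u) γ := by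
  have e1 : (prS.ac γ).support = γ.support.map prS.e.toEmbedding := by
    ext v
    obtain ⟨w, rfl⟩ := prS.e.surjective v
    rw [Finsupp.mem_support_iff, prS.ac_app_ne, Finset.mem_map]
    constructor
    · intro h
      exact ⟨w, Finsupp.mem_support_iff.2 h, rfl⟩
    · rintro ⟨x, hx, hx'⟩
      have : x = w := prS.e.injective hx'
      exact this ▸ Finsupp.mem_support_iff.1 hx
  rw [MU, Finsupp.prod, e1, Finset.prod_map, MU, Finsupp.prod]
  refine Finset.prod_congr rfl fun v _ => ?_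
  show (prS.ac γ (prS.e v)).wt (wR (u (prS.e v).1)) = _
  rw [prS.ac_apply]
  exact pr_wt _ _

theorem tot_pr (F : Cfg → ℝ≥0∞) (u : ℤ → ℝ) : tot F u = tot (fun γ => F (prS.ac γ)) (ng u) := by
  unfold tot
  rw [← prS.eqC.tsum_eq]
  refine tsum_congr fun γ => ?_
  show F (prS.ac γ) * ENNReal.ofReal (MU u (prS.ac γ)) = _
  rw [MU_pr]

theorem im_Lh (c : ℤ) : prS.e '' Lh (1 - c) = Rh c := by
  ext v
  obtain ⟨w, rfl⟩ := prS.e.surjective v
  rw [prS.e.injective.mem_set_image]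
  show w.1 < 1 - c ↔ c ≤ (-w).1
  rw [Prod.fst_neg]
  omega

/-! ### the line theorem -/

/-- **the line theorem, left** -/
theorem tot_left (hF : CA (Lh c) F) (hu : An u) (hu' : An u') (hS : S2A) (h : ∀ i, c ≤ i → u i = u' i) :
    tot F u = tot F u' := tot_eq' hF hu hu' hS h

/-- **the line theorem, right** -/
theorem tot_right (hF : CA (Rh c) F) (hu : An u) (hu' : An u') (hS : S2A) (h : ∀ i, i < c → u i = u' i) :
    tot F u = tot F u' := by
  rw [← im_Lh] at hF
  rw [tot_pr F u, tot_pr F u']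
  exact tot_left (ca_ac prS hF) (ng_an hu) (ng_an hu') hS fun i hi => h (-i) (by omega)

/-! ### events -/

open Classical in
/-- the indicator of a set of loops -/
noncomputable def ind (P : Set Lps) (γ : Cfg) : ℝ≥0∞ := if h : Lp γ then (if (⟨γ, h⟩ : Lps) ∈ P then 1 else 0) else 0

theorem ind_ne {P : Set Lps} (h : ind P γ ≠ 0) : ∃ l : Lp γ, (⟨γ, l⟩ : Lps) ∈ P := by
  unfold ind at h
  by_cases l : Lp γ
  · rw [dif_pos l] at h
    refine ⟨l, ?_⟩
    by_contra h1
    exact h (if_neg h1)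
  · exact absurd (dif_neg l) h

theorem ind_mem {P : Set Lps} (l : Lp γ) (h : (⟨γ, l⟩ : Lps) ∈ P) : ind P γ = 1 := by
  unfold ind
  rw [dif_pos l, if_pos h]

theorem ind_of {P : Set Lps} (h : ¬ ∃ l : Lp γ, (⟨γ, l⟩ : Lps) ∈ P) : ind P γ = 0 := by
  by_contra h1
  exact h (ind_ne h1)

open Classical in
/-- the measure as a sum over the configurations -/
theorem muU_tot (u : ℤ → ℝ) (P : Set Lps) : muU u P = tot (ind P) u := by
  have h1 : muU u P = ∑' γ : Lps, ind P γ.1 * ENNReal.ofReal (MU u γ.1) := by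
    rw [muU, Measure.sum_apply _ (MeasurableSpace.measurableSet_top (α := Lps))]
    refine tsum_congr fun γ => ?_
    rw [Measure.smul_apply, smul_eq_mul, mul_comm]
    congr 1
    rw [Measure.dirac_apply]
    by_cases h : γ ∈ P
    · rw [Set.indicator_of_mem h, ind_mem γ.2 h]
      rfl
    · rw [Set.indicator_of_notMem h, ind_of]
      rintro ⟨_, h'⟩
      exact h h'
  rw [h1]
  have h2 := tsum_subtype {γ : Cfg | Lp γ} fun γ => ind P γ * ENNReal.ofReal (MU u γ)
  refine h2.trans (tsum_congr fun γ => ?_)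
  rw [Set.indicator_apply]
  by_cases h : Lp γ
  · exact if_pos h
  · rw [ind_of fun ⟨l, _⟩ => h l, zero_mul]
    exact ite_self _

/-- an event of the part outside of the region is a class function -/
theorem ind_ca {P : Set Lps} (hP : ∀ γ γ' : Lps, (∀ v, v ∉ A → γ.1 v = γ'.1 v) → γ ∈ P → γ' ∈ P)
    (hn : ∀ γ ∈ P, ∃ v, v ∉ A ∧ (γ : Lps).1 v ≠ 0) : CA A (ind P) := by
  refine ⟨fun γ h => ?_, fun γ δ h1 h2 => ?_⟩
  · obtain ⟨l, hl⟩ := ind_ne h
    exact Lp.sa l (hn _ hl)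
  · have key : ∀ γ δ : Cfg, SA A γ δ → ind P γ ≠ 0 → ind P δ = 1 ∧ ind P γ = 1 := by
      intro γ δ h2 h
      obtain ⟨l, hl⟩ := ind_ne h
      have l' := h2.lp l (hn _ hl)
      exact ⟨ind_mem l' (hP ⟨γ, l⟩ ⟨δ, l'⟩ h2.out hl), ind_mem l hl⟩
    by_cases h : ind P γ = 0
    · by_cases h' : ind P δ = 0
      · rw [h, h']
      · have := (key δ γ (h2.symm h1) h').1
        rw [this] at h
        exact absurd h one_ne_zero
    · rw [(key γ δ h2 h).1, (key γ δ h2 h).2]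

/-- **(LR-law), right** -/
theorem lawR (hS : S2A) : LawR := by
  intro u u' hu hu' c h P hP hn
  rw [muU_tot, muU_tot]
  refine tot_left (c := c) (ind_ca (fun γ γ' h1 h2 => hP γ γ' (fun v hv => h1 v ?_) h2) fun γ hγ => ?_) hu hu' hS h
  · show ¬ v.1 < c
    omega
  · obtain ⟨v, h1, h2⟩ := hn hγ
    exact ⟨v, by show ¬ v.1 < c; omega, h1⟩

/-- **(LR-law), left** -/
theorem lawL (hS : S2A) : LawL := by
  intro u u' hu hu' c h P hP hn
  rw [muU_tot, muU_tot]
  refine tot_right (c := c) (ind_ca (fun γ γ' h1 h2 => hP γ γ' (fun v hv => h1 v ?_) h2) fun γ hγ => ?_) hu hu' hS h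
  · show ¬ c ≤ v.1
    omega
  · obtain ⟨v, h1, h2⟩ := hn hγ
    exact ⟨v, by show ¬ c ≤ v.1; omega, h1⟩

end Pool.Agent.ROT.U.Ln
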