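import Pool.Agent.ROT.ULnE

/-!
# ROT, universality in the angle, row L2 (helper27): `MonL`, `MonR`, the line theorem `Line` from the bumps
-/

set_option autoImplicit false

namespace Pool.Agent.ROT.U.Ln

open MeasureTheory
open Pool.Agent.ROT.E
open Pool.Agent.ROT.E.Lab
open Pool.Agent.ROT.I (Lps mu)
open Pool.Agent.EXL (Wt)
open Pool.Agent.YBC (Dir)
open Pool.Agent.UNI (wR wR_nn)
open scoped ENNReal

variable {F : Cfg → ℝ≥0∞} {c m j : ℤ} {u u' w : ℤ → ℝ} {γ δ : Cfg} {A : Set Pt}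

/-! ### finite mass -/

theorem muU_hc : muU hc = mu := rfl

/-- the honeycomb loops with a leg in a segment have a finite mass (`ULnG`) -/
def FinL : Prop := ∀ c a b : ℤ, mu (LegV c a b) < ⊤

/-! ### (MON) -/

theorem leg_E {c y : ℤ} (h : Mt γ Set.univ) : oc γ ((c, y), .W) ↔ oc γ ((c - 1, y), .E) := by
  rw [h ((c, y), .W) trivial trivial]
  rfl

theorem oc_ne0 {v : Pt} {d : Dir} (h : oc γ (v, d)) : γ v ≠ 0 := by
  intro h0
  have h1 : (γ v).oc d := h
  rw [h0] at h1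
  exact h1 rfl

/-- legs, as a function of the right part -/
theorem leg_caL (c a b : ℤ) : CA (Lh c) (ind (LegV c a b)) := by
  refine ind_ca ?_ ?_
  · rintro γ γ' h ⟨y, h1, h2, h3⟩
    refine ⟨y, h1, h2, ?_⟩
    simp only [oc] at h3 ⊢
    rw [← h (c, y) (by show ¬ c < c; omega)]
    exact h3
  · rintro γ ⟨y, -, -, h3⟩
    exact ⟨(c, y), by show ¬ c < c; omega, oc_ne0 h3⟩

/-- legs and an event left of the line, as a function of the left part -/
theorem leg_caR (c a b n : ℤ) : CA (Rh c) (ind (LegV c a b ∩ LeC (c - 1 - n))) := by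
  refine ind_ca ?_ ?_
  · rintro γ γ' h ⟨⟨y, h1, h2, h3⟩, w, h4, h5⟩
    have hl : oc γ'.1 ((c, y), .W) := by
      rw [leg_E γ'.2.mt]
      have h6 := (leg_E γ.2.mt).1 h3
      simp only [oc] at h6 ⊢
      rw [← h (c - 1, y) (by show ¬ c ≤ c - 1; omega)]
      exact h6
    refine ⟨⟨y, h1, h2, hl⟩, ?_⟩
    by_cases hn : w.1 < c
    · exact ⟨w, by rw [← h w (by show ¬ c ≤ w.1; omega)]; exact h4, h5⟩
    · exact ⟨(c - 1, y), oc_ne0 ((leg_E γ'.2.mt).1 hl), by show c - 1 ≤ c - 1 - n; omega⟩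
  · rintro γ ⟨⟨y, -, -, h3⟩, -⟩
    exact ⟨(c - 1, y), by show ¬ c ≤ c - 1; omega, oc_ne0 ((leg_E γ.2.mt).1 h3)⟩

theorem leg_caR' (c a b : ℤ) : CA (Rh c) (ind (LegV c a b)) := by
  have h : LegV c a b = LegV c a b ∩ LeC (c - 1 - 0) := by
    refine (Set.inter_eq_left.2 ?_).symm
    rintro γ ⟨y, -, -, h3⟩
    exact ⟨(c - 1, y), oc_ne0 ((leg_E γ.2.mt).1 h3), by show c - 1 ≤ c - 1 - 0; omega⟩
  rw [h]
  exact leg_caR c a b 0

theorem hc_an : An hc := fun _ => ⟨le_rfl, by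
  show Real.pi / 8 ≤ Real.pi / 4
  linarith [Real.pi_pos]⟩

/-- the total mass of the legs is the honeycomb mass -/
theorem leg_tot (hS : S2A) (hu : An u) (c a b : ℤ) : muU u (LegV c a b) = mu (LegV c a b) := by
  rw [← muU_hc, muU_tot, muU_tot, tot_left (leg_caL c a b) hu (uh_an (c := c) hu) hS fun i hi => by
    unfold uh
    rw [if_pos hi]]
  refine tot_right (leg_caR' c a b) (uh_an hu) hc_an hS fun i hi => ?_
  unfold uh
  rw [if_neg (by omega)]
  rfl

theorem split (P : Set Lps) (u : ℤ → ℝ) (k : ℤ) : tot (ind P) u = TT (ind P) u (k + 1) + tot (ind (P ∩ LeC k)) u := by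
  unfold TT tot
  rw [← ENNReal.tsum_add]
  refine tsum_congr fun γ => ?_
  rw [← add_mul]
  congr 1
  by_cases h : ∀ v : Pt, v.1 < k + 1 → γ v = 0
  · rw [FR_pos h, ind_of (P := P ∩ LeC k), add_zero]
    rintro ⟨l, -, v, h1, h2⟩
    exact h1 (h v (by omega))
  · have h0 : FR (ind P) (k + 1) γ = 0 := if_neg h
    rw [h0, zero_add]
    push Not at h
    obtain ⟨v, h1, h2⟩ := h
    by_cases h3 : ∃ l : Lp γ, (⟨γ, l⟩ : Lps) ∈ P
    · obtain ⟨l, h3⟩ := h3
      rw [ind_mem l h3, ind_mem l]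
      exact ⟨h3, v, h2, by omega⟩
    · rw [ind_of h3, ind_of]
      rintro ⟨l, h4⟩
      exact h3 ⟨l, h4.1⟩

/-- **(MON), left** -/
theorem monL (hS : S2A) (hf : FinL) : MonL := by
  intro u hu c a b n
  have h1 : tot (ind (LegV c a b ∩ LeC (c - 1 - n))) u ≤ tot (ind (LegV c a b ∩ LeC (c - 1 - n))) (uh c u) := by
    have e1 := split (LegV c a b) u (c - 1 - n)
    have e2 := split (LegV c a b) (uh c u) (c - 1 - n)
    have e3 : tot (ind (LegV c a b)) u = tot (ind (LegV c a b)) (uh c u) :=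
      tot_left (leg_caL c a b) hu (uh_an hu) hS fun i hi => by
        unfold uh
        rw [if_pos hi]
    have e4 := TT_low (F := ind (LegV c a b)) (m := c - 1 - n + 1) (leg_caL c a b) hu hS
    have fin : TT (ind (LegV c a b)) u (c - 1 - n + 1) ≠ ⊤ := by
      refine (TT_le_tot.trans_lt ?_).ne
      rw [← muU_tot, leg_tot hS hu]
      exact hf c a b
    rw [e3, e2] at e1
    have h2 : TT (ind (LegV c a b)) u (c - 1 - n + 1) + tot (ind (LegV c a b ∩ LeC (c - 1 - n))) u ≤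
        TT (ind (LegV c a b)) u (c - 1 - n + 1) + tot (ind (LegV c a b ∩ LeC (c - 1 - n))) (uh c u) := by
      rw [← e1]
      exact add_le_add_left e4 _
    exact (ENNReal.add_le_add_iff_left fin).1 h2
  rw [muU_tot, muU_tot]
  refine h1.trans (tot_right (leg_caR c a b n) (uh_an hu) hc_an hS fun i hi => ?_).le
  unfold uh
  rw [if_neg (by omega)]
  rfl

/-! ### the mirror -/

/-- the reflected loop -/
noncomputable def prL (γ : Lps) : Lps := ⟨prS.ac γ.1, (prS.lp_iff γ.1).2 γ.2⟩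

theorem muU_pr (u : ℤ → ℝ) (P : Set Lps) : muU u P = muU (ng u) (prL ⁻¹' P) := by
  rw [muU_tot, muU_tot, tot_pr]
  congr 1
  funext γ
  by_cases h : ∃ l : Lp (prS.ac γ), (⟨prS.ac γ, l⟩ : Lps) ∈ P
  · obtain ⟨l, h⟩ := h
    have l' : Lp γ := (prS.lp_iff γ).1 l
    rw [ind_mem l h]
    exact (ind_mem l' h).symm
  · rw [ind_of h, ind_of]
    rintro ⟨l, h'⟩
    exact h ⟨(prS.lp_iff γ).2 l, h'⟩

theorem pr_leg (c a b : ℤ) : prL ⁻¹' (LegV c a b) = LegV (1 - c) (-b) (-a) := by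
  have key : ∀ (γ : Lps) (y : ℤ), oc (prL γ).1 ((c, y), .W) ↔ oc γ.1 ((1 - c, -y), .W) := by
    intro γ y
    have e1 : (((c, y), Dir.W) : He) = prS.he ((-c, -y), Dir.E) := by
      refine Prod.ext (Prod.ext ?_ ?_) ?_
      · show c = (-((-c, -y) : Pt)).1
        simp
      · show y = (-((-c, -y) : Pt)).2
        simp
      · rfl
    have e2 : (((-c, -y), Dir.E) : He) = ((1 - c - 1, -y), Dir.E) := by
      refine Prod.ext (Prod.ext ?_ rfl) rfl
      show -c = 1 - c - 1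
      ring
    show oc (prS.ac γ.1) ((c, y), .W) ↔ _
    rw [e1, prS.oc_iff, leg_E γ.2.mt, e2]
  ext γ
  constructor
  · rintro ⟨y, h1, h2, h3⟩
    exact ⟨-y, by omega, by omega, (key γ y).1 h3⟩
  · rintro ⟨y, h1, h2, h3⟩
    refine ⟨-y, by omega, by omega, (key γ (-y)).2 ?_⟩
    rw [neg_neg]
    exact h3

theorem pr_ge (n : ℤ) : prL ⁻¹' (GeC n) = LeC (-n) := by
  ext γ
  constructor
  · rintro ⟨v, h1, h2⟩
    obtain ⟨w, rfl⟩ := prS.e.surjective v
    refine ⟨w, (prS.ac_app_ne γ.1 w).1 h1, ?_⟩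
    have h3 : n ≤ (-w).1 := h2
    rw [Prod.fst_neg] at h3
    omega
  · rintro ⟨w, h1, h2⟩
    refine ⟨prS.e w, (prS.ac_app_ne γ.1 w).2 h1, ?_⟩
    show n ≤ (-w).1
    rw [Prod.fst_neg]
    omega

/-- **(MON), right** -/
theorem monR (hS : S2A) (hf : FinL) : MonR := by
  intro u hu c a b n
  rw [muU_pr u, muU_pr hc, Set.preimage_inter, pr_leg, pr_ge]
  have e : ng hc = hc := rfl
  have e2 : -(c + n) = 1 - c - 1 - n := by ring
  rw [e, e2]
  exact monL hS hf _ (ng_an hu) _ _ _ _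

/-- **THE LINE THEOREM** from the bumps -/
theorem line_of (hS : S2A) (hf : FinL) : Line := ⟨monR hS hf, monL hS hf, lawR hS, lawL hS⟩

end Pool.Agent.ROT.U.Ln
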