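import Pool.Agent.ROT.ULnF

/-!
# ROT, universality in the angle, row L1 (helper27): the bumps on the right side give the bumps on the left side
-/

set_option autoImplicit false

namespace Pool.Agent.ROT.U.Ln

open Pool.Agent.ROT.E
open Pool.Agent.ROT.E.Lab
open Pool.Agent.EXL (Wt)
open Pool.Agent.YBC (Dir)
open Pool.Agent.UNI (wR wR_nn)
open scoped ENNReal

variable {m j : ℤ} {γ δ : Cfg}

open Classical in
/-- **(S2), right form** (row of helper70) -/
def S2R (b : ℝ) : Prop := ∀ (q : ℤ) (γ : Cfg), Sm1 q γ γ → (∀ v : Pt, q < v.1 → γ v = 0) →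
  ENNReal.ofReal (wc (wR b) q γ) ≤
    ∑' δ : Cfg, if Sm1 q γ δ then ENNReal.ofReal (wc (wR (Real.pi / 8)) q δ * wc (wR (Real.pi / 8)) (q + 1) δ) else 0

theorem supp_pr (γ : Cfg) : (prS.ac γ).support = γ.support.map prS.e.toEmbedding := by
  ext v
  obtain ⟨w, rfl⟩ := prS.e.surjective v
  rw [Finsupp.mem_support_iff, prS.ac_app_ne, Finset.mem_map]
  constructor
  · intro h
    exact ⟨w, Finsupp.mem_support_iff.2 h, rfl⟩
  · rintro ⟨x, hx, hx'⟩
    have : x = w := prS.e.injective hx'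
    exact this ▸ Finsupp.mem_support_iff.1 hx

theorem wc_pr (w : Wt ℝ) (m : ℤ) (γ : Cfg) : wc w (-m) (prS.ac γ) = wc w m γ := by
  classical
  rw [wc, supp_pr, Finset.filter_map, Finset.prod_map, wc]
  have e : γ.support.filter ((fun v : Pt => v.1 = -m) ∘ prS.e.toEmbedding) = γ.support.filter fun v => v.1 = m := by
    refine Finset.filter_congr fun v _ => ?_
    show (-v).1 = -m ↔ v.1 = m
    rw [Prod.fst_neg, neg_inj]
  rw [e]
  refine Finset.prod_congr rfl fun v _ => ?_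
  show (prS.ac γ (prS.e v)).wt w = _
  rw [prS.ac_apply]
  exact pr_wt _ _

theorem im_Sp (m : ℤ) : prS.e '' Sp (m - 1) = Sp (-m) := by
  ext v
  obtain ⟨w, rfl⟩ := prS.e.surjective v
  rw [prS.e.injective.mem_set_image]
  show (w.1 = m - 1 ∨ w.1 = m - 1 + 1) ↔ ((-w).1 = -m ∨ (-w).1 = -m + 1)
  rw [Prod.fst_neg]
  omega

theorem sm_pr : Sm1 (-m) (prS.ac γ) (prS.ac δ) ↔ Sm1 (m - 1) γ δ := by
  rw [← sa_iff, ← sa_iff, ← im_Sp, sa_ac]

/-- **the mirror** -/
theorem S2R.left {b : ℝ} (h : S2R b) : S2L b := by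
  classical
  intro m γ h1 h2
  have h3 := h (-m) (prS.ac γ) (sm_pr.2 h1) (fun v hv => by
    obtain ⟨w, rfl⟩ := prS.e.surjective v
    by_contra h0
    have h4 : -m < (-w).1 := hv
    rw [Prod.fst_neg] at h4
    exact ((prS.ac_app_ne γ w).1 h0) (h2 w (by omega)))
  rw [wc_pr] at h3
  refine h3.trans (le_of_eq ?_)
  rw [← prS.eqC.tsum_eq]
  refine tsum_congr fun δ => ?_
  show (if Sm1 (-m) (prS.ac γ) (prS.ac δ) then ENNReal.ofReal (wc (wR (Real.pi / 8)) (-m) (prS.ac δ) *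
    wc (wR (Real.pi / 8)) (-m + 1) (prS.ac δ)) else 0) = _
  have e : -m + 1 = -(m - 1) := by ring
  rw [wc_pr, e, wc_pr]
  exact if_congr sm_pr rfl rfl

theorem s2A_of (h : ∀ b : ℝ, Real.pi / 8 ≤ b → b ≤ Real.pi / 4 → S2R b) : S2A := fun b h1 h2 => (h b h1 h2).left

end Pool.Agent.ROT.U.Ln
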