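import Pool.Agent.ROT.UDefs

/-!
# ROT, UNIV: the product over the extreme line (helper10)

Translations, transposition, point reflection, locality; `1 ≤ q_b`, `q_d ≤ 1`.
-/

set_option autoImplicit false

open Finset

namespace Pool.Agent.ROT.U

open Pool.Agent.YBC (Dir)
open Pool.Agent.UNI (wR)
open Pool.Agent.ROT.E (Cell Cfg Pt Lp Mt oc He rv)
open Pool.Agent.ROT.E.Hx (HL trc hs)
open Pool.Agent.ROT.A6 (HLs hexP crd pr)

/-! ### symmetries -/

theorem rc_tp (β : ℝ) (c : Cell) : rc β c.tp = rc β c := by cases c <;> rfl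

theorem rc_pr (β : ℝ) (c : Cell) : rc β c.pr = rc β c := by cases c <;> rfl

theorem rc_o (β : ℝ) : rc β .o = 1 := by
  show (1 : ℝ) / 1 = 1
  norm_num

/-- the product over a line -/
theorem qx_map {β : ℝ} {γ γ' : Cfg} {s s' : Fin 4} (e : Pt ≃ Pt) (h1 : ∀ v, rc β (γ' (e v)) = rc β (γ v))
    (h2 : ∀ v, γ' (e v) ≠ .o ↔ γ v ≠ .o) (h3 : ∀ v, γ v ≠ .o → (crd s' (e v) = A6.hc γ' s' ↔ crd s v = A6.hc γ s)) :
    qx β γ' s' = qx β γ s := by
  classical
  unfold qx
  symm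
  refine Finset.prod_nbij' (fun v => e v) (fun v => e.symm v) ?_ ?_ ?_ ?_ ?_
  · intro v hv
    rw [Finset.mem_filter, A6.mem_supp] at hv ⊢
    exact ⟨(h2 v).2 hv.1, (h3 v hv.1).2 hv.2⟩
  · intro v hv
    rw [Finset.mem_filter, A6.mem_supp] at hv ⊢
    have a := h2 (e.symm v)
    have b := h3 (e.symm v)
    rw [Equiv.apply_symm_apply] at a b
    exact ⟨a.1 hv.1, (b (a.1 hv.1)).1 hv.2⟩
  · intro v _
    exact e.symm_apply_apply v
  · intro v _
    exact e.apply_symm_apply v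
  · intro v _
    exact (h1 v).symm

theorem qx_trc (β : ℝ) {γ : Cfg} (l : HL γ) (z : Pt) (s : Fin 4) : qx β (trc z γ) s = qx β γ s := by
  refine qx_map (Equiv.addRight z) (fun v => ?_) (fun v => ?_) (fun v _ => ?_)
  · show rc β (trc z γ (v + z)) = _
    rw [E.Hx.trc_apply]
  · show trc z γ (v + z) ≠ .o ↔ _
    rw [E.Hx.trc_apply]
  · show crd s (v + z) = _ ↔ _
    have h := A6.hc_trc l z
    fin_cases s
    · show v.1 + z.1 = A6.hc (trc z γ) 0 ↔ v.1 = A6.hc γ 0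
      rw [h.1]
      constructor <;> intro h <;> linarith
    · show v.1 + z.1 = A6.hc (trc z γ) 1 ↔ v.1 = A6.hc γ 1
      rw [h.2.1]
      constructor <;> intro h <;> linarith
    · show v.2 + z.2 = A6.hc (trc z γ) 2 ↔ v.2 = A6.hc γ 2
      rw [h.2.2.1]
      constructor <;> intro h <;> linarith
    · show v.2 + z.2 = A6.hc (trc z γ) 3 ↔ v.2 = A6.hc γ 3
      rw [h.2.2.2]
      constructor <;> intro h <;> linarith

theorem qx_tr (β : ℝ) (γ : Cfg) : qx β (E.tr γ) 0 = qx β γ 2 ∧ qx β (E.tr γ) 1 = qx β γ 3 ∧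
    qx β (E.tr γ) 2 = qx β γ 0 ∧ qx β (E.tr γ) 3 = qx β γ 1 := by
  have e1 : ∀ v : Pt, rc β (E.tr γ (Equiv.prodComm ℤ ℤ v)) = rc β (γ v) := by
    rintro ⟨x, y⟩
    show rc β (E.tr γ (y, x)) = _
    rw [E.tr_apply, rc_tp]
  have e2 : ∀ v : Pt, E.tr γ (Equiv.prodComm ℤ ℤ v) ≠ .o ↔ γ v ≠ .o := by
    rintro ⟨x, y⟩
    show E.tr γ (y, x) ≠ .o ↔ _
    rw [E.tr_apply, A6.tp_ne]
  have h := A6.hc_sw γ
  refine ⟨?_, ?_, ?_, ?_⟩
  · refine qx_map (Equiv.prodComm ℤ ℤ) e1 e2 fun v _ => ?_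
    rw [h.1]
    rfl
  · refine qx_map (Equiv.prodComm ℤ ℤ) e1 e2 fun v _ => ?_
    rw [h.2.1]
    rfl
  · refine qx_map (Equiv.prodComm ℤ ℤ) e1 e2 fun v _ => ?_
    rw [h.2.2.1]
    rfl
  · refine qx_map (Equiv.prodComm ℤ ℤ) e1 e2 fun v _ => ?_
    rw [h.2.2.2]
    rfl

theorem qx_pr (β : ℝ) {γ : Cfg} (l : HL γ) : qx β (pr γ) 0 = qx β γ 1 ∧ qx β (pr γ) 1 = qx β γ 0 ∧
    qx β (pr γ) 2 = qx β γ 3 ∧ qx β (pr γ) 3 = qx β γ 2 := by
  have e1 : ∀ v : Pt, rc β (pr γ (Equiv.neg Pt v)) = rc β (γ v) := by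
    intro v
    show rc β (pr γ (-v)) = _
    rw [A6.pr_apply, rc_pr]
  have e2 : ∀ v : Pt, pr γ (Equiv.neg Pt v) ≠ .o ↔ γ v ≠ .o := by
    intro v
    show pr γ (-v) ≠ .o ↔ _
    rw [A6.pr_apply, A6.pr_ne]
  have h := A6.hc_pr l
  refine ⟨?_, ?_, ?_, ?_⟩
  · refine qx_map (Equiv.neg Pt) e1 e2 fun v _ => ?_
    show -v.1 = A6.hc (pr γ) 0 ↔ v.1 = A6.hc γ 1
    rw [h.1]
    constructor <;> intro h <;> linarith
  · refine qx_map (Equiv.neg Pt) e1 e2 fun v _ => ?_
    show -v.1 = A6.hc (pr γ) 1 ↔ v.1 = A6.hc γ 0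
    rw [h.2.1]
    constructor <;> intro h <;> linarith
  · refine qx_map (Equiv.neg Pt) e1 e2 fun v _ => ?_
    show -v.2 = A6.hc (pr γ) 2 ↔ v.2 = A6.hc γ 3
    rw [h.2.2.1]
    constructor <;> intro h <;> linarith
  · refine qx_map (Equiv.neg Pt) e1 e2 fun v _ => ?_
    show -v.2 = A6.hc (pr γ) 3 ↔ v.2 = A6.hc γ 2
    rw [h.2.2.2]
    constructor <;> intro h <;> linarith

/-! ### locality -/

theorem qx_lin (β : ℝ) {γ γ' : Cfg} {s : Fin 4} (h : A6.hc γ s = A6.hc γ' s) (h' : ∀ p : Pt, crd s p = A6.hc γ s → γ p = γ' p) :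
    qx β γ s = qx β γ' s := by
  classical
  unfold qx
  rw [← A6.fil_lin h h']
  refine Finset.prod_congr rfl fun v hv => ?_
  rw [h' v (Finset.mem_filter.1 hv).2]

/-! ### the numbers -/

theorem P_eq (u : ℝ) : Real.sin u * Real.sin (3 * Real.pi / 8 - u) =
    (Real.cos (2 * u - 3 * Real.pi / 8) - Real.sin (Real.pi / 8)) / 2 := by
  have h1 : Real.sin (Real.pi / 8) = Real.cos (3 * Real.pi / 8) := by
    rw [← Real.cos_pi_div_two_sub]
    congr 1
    ring
  rw [h1]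
  have e1 : 2 * u - 3 * Real.pi / 8 = u - (3 * Real.pi / 8 - u) := by ring
  have e2 : Real.cos (3 * Real.pi / 8) = Real.cos (u + (3 * Real.pi / 8 - u)) := by
    congr 1
    ring
  rw [e1, e2, Real.cos_sub, Real.cos_add]
  ring

theorem D_eq (u : ℝ) : UNI.DR u = (Real.cos (Real.pi / 8) + Real.cos (2 * u - 3 * Real.pi / 8)) / 2 := by
  unfold UNI.DR
  have e1 : Real.cos (2 * u - 3 * Real.pi / 8) = -Real.cos ((u + Real.pi / 4) + (u + 3 * Real.pi / 8)) := by
    rw [← Real.cos_sub_pi]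
    rw [← Real.cos_neg ((u + Real.pi / 4) + (u + 3 * Real.pi / 8) - Real.pi), ← Real.cos_neg]
    congr 1
    ring
  have e2 : Real.cos (Real.pi / 8) = Real.cos ((u + Real.pi / 4) - (u + 3 * Real.pi / 8)) := by
    rw [← Real.cos_neg]
    congr 1
    ring
  have h1 := Real.cos_sub (u + Real.pi / 4) (u + 3 * Real.pi / 8)
  have h2 := Real.cos_add (u + Real.pi / 4) (u + 3 * Real.pi / 8)
  rw [e1, e2, h1, h2]
  ring

theorem num2 : 1.4142 < √2 ∧ √2 < 1.4143 := by
  constructor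
  · rw [Real.lt_sqrt (by norm_num)]
    norm_num
  · rw [Real.sqrt_lt' (by norm_num)]
    norm_num

theorem numC : 0.9238 < Real.cos (Real.pi / 8) ∧ Real.cos (Real.pi / 8) < 0.9239 := by
  obtain ⟨h1, h2⟩ := num2
  rw [Real.cos_pi_div_eight]
  have a : 1.8476 < √(2 + √2) := by
    rw [Real.lt_sqrt (by norm_num)]
    norm_num
    linarith
  have b : √(2 + √2) < 1.8478 := by
    rw [Real.sqrt_lt' (by norm_num)]
    norm_num
    linarith
  constructor <;> linarith

theorem numS : 0.3826 < Real.sin (Real.pi / 8) ∧ Real.sin (Real.pi / 8) < 0.3827 := by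
  obtain ⟨h1, h2⟩ := num2
  rw [Real.sin_pi_div_eight]
  have a : 0.7652 < √(2 - √2) := by
    rw [Real.lt_sqrt (by norm_num)]
    norm_num
    linarith
  have b : √(2 - √2) < 0.7654 := by
    rw [Real.sqrt_lt' (by norm_num)]
    norm_num
    linarith
  constructor <;> linarith

/-- the parameter of the formulas -/
noncomputable def tt (β : ℝ) : ℝ := Real.cos (2 * β - 3 * Real.pi / 8)

theorem tt_h : tt (Real.pi / 8) = Real.cos (Real.pi / 8) := by
  unfold tt
  rw [← Real.cos_neg]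
  congr 1
  ring

theorem tt_b : tt bb = 1 := by
  unfold tt bb
  rw [show 2 * (3 * Real.pi / 16) - 3 * Real.pi / 8 = 0 by ring, Real.cos_zero]

theorem tt_d : tt dd = √2 / 2 := by
  unfold tt dd
  rw [← Real.cos_neg, show -(2 * (Real.pi / 16) - 3 * Real.pi / 8) = Real.pi / 4 by ring, Real.cos_pi_div_four]

theorem v_eq (β : ℝ) : (wR β).v = (tt β - Real.sin (Real.pi / 8)) / (Real.cos (Real.pi / 8) + tt β) := by
  show Real.sin β * Real.sin (3 * Real.pi / 8 - β) / UNI.DR β = _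
  rw [P_eq, D_eq]
  unfold tt
  rw [div_div_div_cancel_right₀ (by norm_num)]

theorem u_eq (β : ℝ) : (wR β).u1 * (wR β).u2 =
    (tt β - Real.sin (Real.pi / 8)) / (Real.cos (Real.pi / 8) + tt β) ^ 2 := by
  show Real.sin (Real.pi / 4) * Real.sin (3 * Real.pi / 8 - β) / UNI.DR β *
    (Real.sin (Real.pi / 4) * Real.sin β / UNI.DR β) = _
  have h1 : Real.sin (Real.pi / 4) ^ 2 = 1 / 2 := by
    rw [Real.sin_pi_div_four, div_pow, Real.sq_sqrt (by norm_num)]
    norm_num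
  have e : Real.sin (Real.pi / 4) * Real.sin (3 * Real.pi / 8 - β) / UNI.DR β *
      (Real.sin (Real.pi / 4) * Real.sin β / UNI.DR β) =
      Real.sin (Real.pi / 4) ^ 2 * (Real.sin β * Real.sin (3 * Real.pi / 8 - β)) / UNI.DR β ^ 2 := by
    ring
  rw [e, h1, P_eq, D_eq]
  unfold tt
  rw [div_pow]
  field_simp
  try ring

theorem rc_v (β : ℝ) : rc β .v = (tt β - Real.sin (Real.pi / 8)) / (Real.cos (Real.pi / 8) + tt β) /
    ((Real.cos (Real.pi / 8) - Real.sin (Real.pi / 8)) / (2 * Real.cos (Real.pi / 8))) := by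
  show (wR β).v / (wR (Real.pi / 8)).v = _
  rw [v_eq, v_eq, tt_h, two_mul]

theorem rc_u (β : ℝ) : rc β .sw * rc β .nw = (tt β - Real.sin (Real.pi / 8)) / (Real.cos (Real.pi / 8) + tt β) ^ 2 /
    ((Real.cos (Real.pi / 8) - Real.sin (Real.pi / 8)) / (2 * Real.cos (Real.pi / 8)) ^ 2) := by
  show (wR β).u1 / (wR (Real.pi / 8)).u1 * ((wR β).u2 / (wR (Real.pi / 8)).u2) = _
  rw [div_mul_div_comm, u_eq, u_eq, tt_h, two_mul]

/-- **the numbers `x(b)`, `y(b) ≥ 1`** -/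
theorem num_b : 1 ≤ rc bb .sw * rc bb .nw ∧ 1 ≤ rc bb .v := by
  obtain ⟨c1, c2⟩ := numC
  obtain ⟨s1, s2⟩ := numS
  rw [rc_u, rc_v, tt_b]
  set C := Real.cos (Real.pi / 8)
  set S := Real.sin (Real.pi / 8)
  have h1 : 0 < C - S := by linarith
  have h2 : 0 < C := by linarith
  constructor
  · rw [one_le_div (by positivity), div_le_div_iff₀ (by positivity) (by positivity)]
    have a : (C + 1) ^ 2 ≤ 1.9239 ^ 2 := pow_le_pow_left₀ (by linarith) (by linarith) 2
    have b : 1.8476 ^ 2 ≤ (2 * C) ^ 2 := pow_le_pow_left₀ (by norm_num) (by linarith) 2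
    have a' : (C - S) * (C + 1) ^ 2 ≤ 0.5413 * 1.9239 ^ 2 := mul_le_mul (by linarith) a (by positivity) (by norm_num)
    have b' : 0.6173 * 1.8476 ^ 2 ≤ (1 - S) * (2 * C) ^ 2 := mul_le_mul (by linarith) b (by positivity) (by linarith)
    refine a'.trans (le_trans ?_ b')
    norm_num
  · rw [one_le_div (by positivity), div_le_div_iff₀ (by positivity) (by positivity)]
    have a' : (C - S) * (C + 1) ≤ 0.5413 * 1.9239 := mul_le_mul (by linarith) (by linarith) (by linarith) (by norm_num)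
    have b' : 0.6173 * 1.8476 ≤ (1 - S) * (2 * C) := mul_le_mul (by linarith) (by linarith) (by norm_num) (by linarith)
    refine a'.trans (le_trans ?_ b')
    norm_num

/-- **the numbers `x(d)`, `y(d)` in `(0, 1]`** -/
theorem num_d : (0 < rc dd .sw * rc dd .nw ∧ rc dd .sw * rc dd .nw ≤ 1) ∧ 0 < rc dd .v ∧ rc dd .v ≤ 1 := by
  obtain ⟨c1, c2⟩ := numC
  obtain ⟨s1, s2⟩ := numS
  obtain ⟨r1, r2⟩ := num2
  rw [rc_u, rc_v, tt_d]
  set C := Real.cos (Real.pi / 8)
  set S := Real.sin (Real.pi / 8)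
  set R := √2 / 2 with hR
  have h1 : 0 < C - S := by linarith
  have h2 : 0 < C := by linarith
  have h3 : 0 < R - S := by linarith
  have h4 : 0 < R := by linarith
  refine ⟨⟨by positivity, ?_⟩, by positivity, ?_⟩
  · rw [div_le_one (by positivity), div_le_div_iff₀ (by positivity) (by positivity)]
    have a : (2 * C) ^ 2 ≤ 1.8478 ^ 2 := pow_le_pow_left₀ (by linarith) (by linarith) 2
    have b : 1.6309 ^ 2 ≤ (C + R) ^ 2 := pow_le_pow_left₀ (by norm_num) (by linarith) 2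
    have a' : (R - S) * (2 * C) ^ 2 ≤ 0.3246 * 1.8478 ^ 2 := mul_le_mul (by linarith) a (by positivity) (by norm_num)
    have b' : 0.5411 * 1.6309 ^ 2 ≤ (C - S) * (C + R) ^ 2 := mul_le_mul (by linarith) b (by positivity) (by linarith)
    refine a'.trans (le_trans ?_ b')
    norm_num
  · rw [div_le_one (by positivity), div_le_div_iff₀ (by positivity) (by positivity)]
    have a' : (R - S) * (2 * C) ≤ 0.3246 * 1.8478 := mul_le_mul (by linarith) (by linarith) (by linarith) (by norm_num)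
    have b' : 0.5411 * 1.6309 ≤ (C - S) * (C + R) := mul_le_mul (by linarith) (by linarith) (by norm_num) (by linarith)
    refine a'.trans (le_trans ?_ b')
    norm_num

/-! ### the extreme column -/

/-- product of `A` at the cells with the side `N` and `B` at the cells with the side `S` -/
theorem rc_col {β : ℝ} (hA : rc β .sw * rc β .nw ≠ 0) : ∀ c : Cell, c = .o ∨ c = .v ∨ c = .nw ∨ c = .sw →
    rc β c = (if c.oc .N then rc β .nw else 1) * (if c.oc .S then rc β .sw else 1) *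
      (if c = .v then rc β .v / (rc β .sw * rc β .nw) else 1) := by
  intro c hc
  have h1 : rc β .sw ≠ 0 := left_ne_zero_of_mul hA
  have h2 : rc β .nw ≠ 0 := right_ne_zero_of_mul hA
  rcases hc with rfl | rfl | rfl | rfl
  · rw [rc_o, if_neg (by decide), if_neg (by decide), if_neg (by decide)]
    norm_num
  · rw [if_pos (by decide), if_pos (by decide), if_pos rfl]
    field_simp
  · rw [if_pos (by decide), if_neg (by decide), if_neg (by decide)]
    ring
  · rw [if_neg (by decide), if_pos (by decide), if_neg (by decide)]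
    ring

/-- the cells of the last column -/
theorem cell_R {γ : Cfg} (l : HL γ) {v : Pt} (hv : v.1 = A6.hc γ 1) : γ v = .o ∨ γ v = .v ∨ γ v = .nw ∨ γ v = .sw := by
  have h : ¬ oc γ (v, .E) := fun ho => by
    have := A6.side_E l.lp.mt ho
    rw [A6.hc1] at hv
    omega
  have hy := l.ny v
  have key : ∀ c : Cell, ¬ c.oc .E → c ≠ .y → c = .o ∨ c = .v ∨ c = .nw ∨ c = .sw := by decide
  exact key _ h hy

open Classical in
/-- **as many sides `N` as sides `S` in a column** -/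
theorem card_NS {γ : Cfg} (l : HL γ) (a : ℤ) :
    ((γ.support.filter fun v => v.1 = a).filter fun v => (γ v).oc .N).card =
      ((γ.support.filter fun v => v.1 = a).filter fun v => (γ v).oc .S).card := by
  refine Finset.card_nbij' (fun v => (v.1, v.2 + 1)) (fun v => (v.1, v.2 - 1)) ?_ ?_ ?_ ?_
  · intro v hv
    rw [Finset.mem_coe, Finset.mem_filter, Finset.mem_filter] at hv
    obtain ⟨⟨h1, h2⟩, h3⟩ := hv
    have h4 : oc γ (v, .N) := h3
    have h5 := (l.lp.mt (v, .N) (Set.mem_univ _) (Set.mem_univ _)).1 h4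
    have h6 : oc γ ((v.1, v.2 + 1), .S) := h5
    rw [Finset.mem_coe, Finset.mem_filter, Finset.mem_filter]
    exact ⟨⟨A6.oc_mem h6, h2⟩, h6⟩
  · intro v hv
    rw [Finset.mem_coe, Finset.mem_filter, Finset.mem_filter] at hv
    obtain ⟨⟨h1, h2⟩, h3⟩ := hv
    have h4 : oc γ (v, .S) := h3
    have h5 := (l.lp.mt (v, .S) (Set.mem_univ _) (Set.mem_univ _)).1 h4
    have h6 : oc γ ((v.1, v.2 - 1), .N) := h5
    rw [Finset.mem_coe, Finset.mem_filter, Finset.mem_filter]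
    exact ⟨⟨A6.oc_mem h6, h2⟩, h6⟩
  · intro v _
    simp
  · intro v _
    simp

open Classical in
/-- **the closed form**, last column -/
theorem qx_R {β : ℝ} (hA : rc β .sw * rc β .nw ≠ 0) {γ : Cfg} (l : HL γ) : ∃ k m : ℕ,
    qx β γ 1 = (rc β .sw * rc β .nw) ^ k * rc β .v ^ m := by
  set F := γ.support.filter fun v => crd 1 v = A6.hc γ 1 with hF
  have e1 : qx β γ 1 = ∏ v ∈ F, (if (γ v).oc .N then rc β .nw else 1) * (if (γ v).oc .S then rc β .sw else 1) *
      (if γ v = .v then rc β .v / (rc β .sw * rc β .nw) else 1) := by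
    unfold qx
    refine Finset.prod_congr (by rw [hF]) fun v hv => ?_
    exact rc_col hA _ (cell_R l (Finset.mem_filter.1 hv).2)
  rw [e1, Finset.prod_mul_distrib, Finset.prod_mul_distrib, Finset.prod_ite, Finset.prod_ite, Finset.prod_ite]
  simp only [Finset.prod_const, one_pow, mul_one]
  have hN : (F.filter fun v => (γ v).oc .N).card = (F.filter fun v => (γ v).oc .S).card := card_NS l (A6.hc γ 1)
  have hv : (F.filter fun v => γ v = .v).card ≤ (F.filter fun v => (γ v).oc .N).card := by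
    refine Finset.card_le_card fun v hv => ?_
    rw [Finset.mem_filter] at hv ⊢
    refine ⟨hv.1, ?_⟩
    rw [hv.2]
    decide
  set n := (F.filter fun v => (γ v).oc .N).card with hn
  set m := (F.filter fun v => γ v = .v).card with hm
  rw [← hN]
  refine ⟨n - m, m, ?_⟩
  have h1 : rc β .sw ≠ 0 := left_ne_zero_of_mul hA
  have h2 : rc β .nw ≠ 0 := right_ne_zero_of_mul hA
  obtain ⟨k, hk⟩ : ∃ k, n = k + m := ⟨n - m, by omega⟩
  rw [hk, Nat.add_sub_cancel_right, div_pow, pow_add, pow_add, mul_pow, mul_pow]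
  field_simp

/-! ### all sides -/

/-- a property of the last column of all loops holds at all sides -/
theorem qx_all {β : ℝ} {P : ℝ → Prop} (h : ∀ γ : Cfg, HL γ → P (qx β γ 1)) {γ : Cfg} (l : HL γ) (s : Fin 4) :
    P (qx β γ s) := by
  have h0 : ∀ γ : Cfg, HL γ → P (qx β γ 0) := fun γ l => by
    rw [← (qx_pr β l).2.1]
    exact h _ (A6.hl_pr l)
  have ht := qx_tr β γ
  fin_cases s
  · exact h0 γ l
  · exact h γ l
  · show P (qx β γ 2)
    rw [← ht.1]
    exact h0 _ (A6.hl_tr l)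
  · show P (qx β γ 3)
    rw [← ht.2.1]
    exact h _ (A6.hl_tr l)

/-- **`1 ≤ q_b`** -/
theorem one_le_qb {γ : Cfg} (l : HL γ) (s : Fin 4) : 1 ≤ qx bb γ s := by
  obtain ⟨h1, h2⟩ := num_b
  refine qx_all (P := fun x => 1 ≤ x) (fun γ l => ?_) l s
  obtain ⟨k, m, e⟩ := qx_R (by linarith) l
  rw [e]
  exact one_le_mul_of_one_le_of_one_le (one_le_pow₀ h1) (one_le_pow₀ h2)

/-- **`0 < q_d ≤ 1`** -/
theorem qd_le {γ : Cfg} (l : HL γ) (s : Fin 4) : 0 < qx dd γ s ∧ qx dd γ s ≤ 1 := by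
  obtain ⟨⟨h0, h1⟩, h2, h3⟩ := num_d
  refine qx_all (P := fun x => 0 < x ∧ x ≤ 1) (fun γ l => ?_) l s
  obtain ⟨k, m, e⟩ := qx_R h0.ne' l
  rw [e]
  refine ⟨mul_pos (pow_pos h0 _) (pow_pos h2 _), ?_⟩
  exact mul_le_one₀ (pow_le_one₀ h0.le h1) (pow_nonneg h2.le _) (pow_le_one₀ h2.le h3)

end Pool.Agent.ROT.U
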