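import Pool.Agent.ROT.ULnH
import Pool.Agent.ROT.ULine2
import Pool.Agent.ROT.UQ

/-!
# ROT, universality in the angle, row L1 (helper27): **(S2)** from the bumps of helper70 (ULine1, ULine2)
-/

set_option autoImplicit false

namespace Pool.Agent.ROT.U.Ln

open Pool.Agent.ROT.E
open Pool.Agent.ROT.U.Bp
open Pool.Agent.EXL (Wt)
open Pool.Agent.YBC (Dir)
open Pool.Agent.UNI (wR wR_nn wR_v_pos wR_u1_pos wR_u2_pos)
open scoped ENNReal

/-! ### numbers -/

theorem num2 {b : ℝ} (h1 : Real.pi / 8 ≤ b) (h2 : b ≤ Real.pi / 4) :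
    rc b .v ≤ 1.2 ∧ rc b .sw * rc b .nw ≤ 1.08 := by
  have hp := Real.pi_pos
  obtain ⟨c1, c2⟩ := numC
  obtain ⟨s1, s2⟩ := numS
  have ht : Real.cos (Real.pi / 8) ≤ tt b := by
    unfold tt
    rw [← Real.cos_abs (2 * b - 3 * Real.pi / 8)]
    refine Real.cos_le_cos_of_nonneg_of_le_pi (abs_nonneg _) (by linarith) ?_
    rw [abs_le]
    constructor <;> linarith
  have ht1 : tt b ≤ 1 := Real.cos_le_one _
  rw [rc_v, rc_u]
  set t := tt b
  set C := Real.cos (Real.pi / 8)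
  set S := Real.sin (Real.pi / 8)
  have a1 : 0 < C - S := by linarith
  have a2 : 0 < C := by linarith
  have a3 : 0 < C + t := by linarith
  constructor
  · rw [div_div, div_le_iff₀ (by positivity)]
    have e : 1.2 * ((C + t) * ((C - S) / (2 * C))) = 1.2 * ((C + t) * (C - S)) / (2 * C) := by ring
    rw [e, le_div_iff₀ (by positivity)]
    nlinarith
  · rw [div_div, div_le_iff₀ (by positivity)]
    have e : 1.08 * ((C + t) ^ 2 * ((C - S) / (2 * C) ^ 2)) = 1.08 * ((C + t) ^ 2 * (C - S)) / (2 * C) ^ 2 := by ring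
    rw [e, le_div_iff₀ (by positivity)]
    have k1 : (1 - S) * (2 * C) ^ 2 ≤ 1.08 * ((C + 1) ^ 2 * (C - S)) := by
      have b1 : (2 * C) ^ 2 ≤ 1.8478 ^ 2 := pow_le_pow_left₀ (by linarith) (by linarith) 2
      have b2 : 1.9238 ^ 2 ≤ (C + 1) ^ 2 := pow_le_pow_left₀ (by norm_num) (by linarith) 2
      have b3 : (1 - S) * (2 * C) ^ 2 ≤ 0.6174 * 1.8478 ^ 2 := mul_le_mul (by linarith) b1 (by positivity) (by norm_num)
      have b4 : 1.9238 ^ 2 * 0.5411 ≤ (C + 1) ^ 2 * (C - S) := mul_le_mul b2 (by linarith) (by norm_num) (by positivity)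
      refine b3.trans (le_trans ?_ (mul_le_mul_of_nonneg_left b4 (by norm_num)))
      norm_num
    have k2 : (1 - t) * (1.08 * (C - S) * (1 + t + 2 * C)) ≤ (1 - t) * (2 * C) ^ 2 := by
      refine mul_le_mul_of_nonneg_left ?_ (by linarith)
      have b5 : 1.08 * (C - S) * (1 + t + 2 * C) ≤ 1.08 * 0.5413 * 3.85 :=
        mul_le_mul (by linarith) (by linarith) (by linarith) (by norm_num)
      have b6 : 1.8476 ^ 2 ≤ (2 * C) ^ 2 := pow_le_pow_left₀ (by norm_num) (by linarith) 2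
      refine b5.trans (le_trans ?_ b6)
      norm_num
    nlinarith

/-- the weights of the honeycomb -/
theorem hexN : (wR (Real.pi / 8)).u1 ^ 2 = (wR (Real.pi / 8)).v ∧ (wR (Real.pi / 8)).u2 = (wR (Real.pi / 8)).v ∧
    0.2928 ≤ (wR (Real.pi / 8)).v := by
  have hw : (wR (Real.pi / 8)).v = HexObs.xc ^ 2 ∧ (wR (Real.pi / 8)).u1 = HexObs.xc ∧
      (wR (Real.pi / 8)).u2 = HexObs.xc ^ 2 := by
    rw [UNI.wR_hex]
    exact ⟨rfl, rfl, rfl⟩
  refine ⟨by rw [hw.1, hw.2.1], by rw [hw.1, hw.2.2], ?_⟩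
  rw [v_eq, tt_h]
  obtain ⟨c1, c2⟩ := numC
  obtain ⟨s1, s2⟩ := numS
  rw [le_div_iff₀ (by linarith)]
  linarith

/-! ### the columns -/

/-- all weights `1` -/
def one : Wt ℝ := ⟨1, 1, 1, 1, 1⟩

theorem wt_one (c : Cell) : c.wt one = 1 := by cases c <;> rfl

/-- the honeycomb in the columns `q, q + 1` -/
noncomputable def Wq (q : ℤ) : ℤ → Wt ℝ := fun j => if j = q ∨ j = q + 1 then wR (Real.pi / 8) else one

theorem Wq_nn (q j : ℤ) : (Wq q j).Nn := by
  have hp := Real.pi_pos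
  unfold Wq
  split_ifs
  · exact wR_nn le_rfl (by linarith)
  · exact ⟨zero_le_one, zero_le_one, zero_le_one, zero_le_one, zero_le_one⟩

theorem prod_wc (q : ℤ) (δ : Cfg) : (δ.prod fun v c => c.wt (Wq q v.1)) =
    wc (wR (Real.pi / 8)) q δ * wc (wR (Real.pi / 8)) (q + 1) δ := by
  classical
  rw [wc, wc, Finset.prod_filter, Finset.prod_filter, ← Finset.prod_mul_distrib, Finsupp.prod]
  refine Finset.prod_congr rfl fun v _ => ?_
  unfold Wq
  by_cases h1 : v.1 = q
  · rw [if_pos (Or.inl h1), if_pos h1, if_neg (by omega), mul_one]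
  · by_cases h2 : v.1 = q + 1
    · rw [if_pos (Or.inr h2), if_neg h1, if_pos h2, one_mul]
    · rw [if_neg (by tauto), if_neg h1, if_neg h2, wt_one, mul_one]

theorem prod_nn (q : ℤ) (δ : Cfg) : 0 ≤ δ.prod fun v c => c.wt (Wq q v.1) := by
  refine Finset.prod_nonneg fun v _ => ?_
  have h := Wq_nn q v.1
  cases δ v <;> simp only [Cell.wt] <;>
    first | exact zero_le_one | exact h.v | exact h.u1 | exact h.u2 | exact h.w1 | exact h.w2

/-- **(S2)** -/
theorem s2R {b : ℝ} (hb1 : Real.pi / 8 ≤ b) (hb2 : b ≤ Real.pi / 4) : S2R b := by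
  classical
  have hp := Real.pi_pos
  intro q γ hs hr
  have hv := wR_v_pos (u := Real.pi / 8) (by linarith) (by linarith)
  have hu1 := wR_u1_pos (u := Real.pi / 8) (by linarith) (by linarith)
  have hu2 := wR_u2_pos (u := Real.pi / 8) (by linarith) (by linarith)
  have kv := wR_v_pos (u := b) (by linarith) (by linarith)
  have ku1 := wR_u1_pos (u := b) (by linarith) (by linarith)
  have ku2 := wR_u2_pos (u := b) (by linarith) (by linarith)
  obtain ⟨n1, n2, n3⟩ := hexN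
  obtain ⟨m1, m2⟩ := num2 hb1 hb2
  have e1 : rc b .v = (wR b).v / (wR (Real.pi / 8)).v := rfl
  have e2 : rc b .sw = (wR b).u1 / (wR (Real.pi / 8)).u1 := rfl
  have e3 : rc b .nw = (wR b).u2 / (wR (Real.pi / 8)).u2 := rfl
  rw [e1] at m1
  rw [e2, e3] at m2
  have hWq : Wq q q = wR (Real.pi / 8) := if_pos (Or.inl rfl)
  have hWq1 : Wq q (q + 1) = wR (Real.pi / 8) := if_pos (Or.inr rfl)
  have key := bump_le (W := Wq q) (Wq_nn q) (q := q) (hWq1.trans hWq.symm)
    (al := (wR b).u2 / (wR (Real.pi / 8)).u2) (be := (wR b).u1 / (wR (Real.pi / 8)).u1)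
    (Y := (wR b).v / (wR (Real.pi / 8)).v) (div_pos ku2 hu2) (div_nonneg ku1.le hu1.le) (div_nonneg kv.le hv.le)
    (by rw [hWq, mul_comm]; nlinarith) (by rw [hWq, n1]; linarith)
    (by
      rw [hWq, n2]
      have := mul_le_mul_of_nonneg_right m1 (sq_nonneg (wR (Real.pi / 8)).v)
      nlinarith) hs.mt hr
  have hE : ∀ r, ¬ (γ (q, r)).oc .E := fun r =>
    (Bh.okc ⟨hs.mt, hr, fun r hr => absurd hr (Finset.notMem_empty r)⟩ r).1
  have eL : (γ.prod fun v c => if v.1 = q then gg (Wq q q) ((wR b).u2 / (wR (Real.pi / 8)).u2)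
      ((wR b).u1 / (wR (Real.pi / 8)).u1) ((wR b).v / (wR (Real.pi / 8)).v) c else c.wt (Wq q v.1)) = wc (wR b) q γ := by
    rw [wc, Finset.prod_filter, Finsupp.prod]
    refine Finset.prod_congr rfl fun v hv' => ?_
    by_cases h1 : v.1 = q
    · rw [if_pos h1, if_pos h1, hWq]
      obtain ⟨x, r⟩ := v
      have h1' : x = q := h1
      subst h1'
      rcases four (hE r) with h | h | h | h
      · exact absurd h (Finsupp.mem_support_iff.1 hv')
      · rw [h]
        exact div_mul_cancel₀ _ hv.ne'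
      · rw [h]
        exact div_mul_cancel₀ _ hu2.ne'
      · rw [h]
        exact div_mul_cancel₀ _ hu1.ne'
    · rw [if_neg h1, if_neg h1]
      have h2 : ¬ q < v.1 := fun h => Finsupp.mem_support_iff.1 hv' (hr v h)
      have h3 : Wq q v.1 = one := if_neg (by omega)
      rw [h3, wt_one]
  rw [eL] at key
  have hB : ∀ D ∈ (Ed q γ).powerset, Bh q D γ := fun D hD => bh_of hs.mt hr hD
  set g : Cfg → ℝ≥0∞ := fun δ => if Sm1 q γ δ then
    ENNReal.ofReal (wc (wR (Real.pi / 8)) q δ * wc (wR (Real.pi / 8)) (q + 1) δ) else 0 with hg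
  have inj : Set.InjOn (fun D => bump q D γ) ((Ed q γ).powerset : Set (Finset ℤ)) := by
    intro D hD D' hD' h
    exact (bump_inj (hB D hD) (hB D' hD') h).1
  calc ENNReal.ofReal (wc (wR b) q γ)
      ≤ ENNReal.ofReal (∑ D ∈ (Ed q γ).powerset, (bump q D γ).prod fun v c => c.wt (Wq q v.1)) :=
        ENNReal.ofReal_le_ofReal key
    _ = ∑ D ∈ (Ed q γ).powerset, ENNReal.ofReal ((bump q D γ).prod fun v c => c.wt (Wq q v.1)) :=
        ENNReal.ofReal_sum_of_nonneg fun D _ => prod_nn q _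
    _ = ∑ D ∈ (Ed q γ).powerset, g (bump q D γ) := by
        refine Finset.sum_congr rfl fun D hD => ?_
        rw [hg]
        simp only
        rw [if_pos (sm1_bump (hB D hD) hs.op), prod_wc]
    _ = ∑ δ ∈ (Ed q γ).powerset.image (fun D => bump q D γ), g δ := by
        rw [Finset.sum_image inj]
    _ ≤ ∑' δ, g δ := ENNReal.sum_le_tsum _

/-- **(S2) on the left side** -/
theorem s2A : S2A := s2A_of fun _ h1 h2 => s2R h1 h2

/-- **(LR-law)**, unconditional -/
theorem lawRP : LawR := lawR s2A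

/-- **(LR-law)**, unconditional -/
theorem lawLP : LawL := lawL s2A

end Pool.Agent.ROT.U.Ln
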