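import Pool.Agent.ROT.UA2c
import Pool.Agent.ROT.UFlowA

/-!
# ROT, UNIV, row LRW (helper10): the literal `WSys.LRW` from `lrw`

`WRel X Y` : a large loop which does not come near the root of a side does not see the cap of the tracer.
**`lrw_W`** : `Inp S Y`, `WRel X Y`, `X.Near` ⇒ `X.LRW a b` with bounded constants.
-/

set_option autoImplicit false

open Finset Filter Topology

namespace Pool.Agent.ROT.U

open Pool.Agent.ROT.A

variable {S : PSys} (X : WSys S) (Y : ∀ u, S.Side u)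

/-- **large loops do not see the cap** -/
def WRel : Prop := ∀ (u : Fin 4) (n : ℕ) (p p' : S.P) (w : X.W), (Y u).Sim n p p' →
  (¬ ∃ s ∈ X.st w, |s.1 - ((Y u).rt p).1| ≤ max ((Y u).cd n p : ℤ) ((Y u).cd n p') + 2 ∧
    |s.2 - ((Y u).rt p).2| ≤ max ((Y u).cd n p : ℤ) ((Y u).cd n p') + 2) →
  X.Dj w p → X.Dj w p' ∧ (X.In p w ↔ X.In p' w)

variable {X Y}

/-- the environment -/
def envW (h : WRel X Y) (τ : Bool) : XEnv S Y X.W where
  st := X.st
  G w p := X.Dj w p ∧ (X.In p w ↔ τ = true)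
  rel u n p p' w hs hn hG := by
    have h1 := h u n p p' w hs hn hG.1
    exact ⟨h1.1, h1.2.symm.trans hG.2⟩

/-- the sums over the tracer agree -/
theorem fac_tsm (h : WRel X Y) (τ : Bool) {K : ℝ} {N n : ℕ} (hN : 0 < N) (hn : (K + 1) * N ≤ n)
    (χ : S.P → ℝ) (a : ℝ) {θ : (Fin 4 → ℝ) → ℝ} (hθ : ∀ y, θ y ≠ 0 → ∀ u, |y u| ≤ K) (w : X.W) :
    X.fac n w τ (.inr fun v => (χ v - a) * θ (S.hN N v)) = (envW h τ).tsm ⌈K⌉₊ N χ a θ w := by
  classical
  have hNr : (0 : ℝ) < N := by exact_mod_cast hN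
  set F : S.P → ℝ := fun v => @ite ℝ (X.Dj w v ∧ (X.In v w ↔ τ = true)) (Classical.propDecidable _)
    (S.M v * ((χ v - a) * θ (S.hN N v))) 0 with hF
  have e1 : X.fac n w τ (.inr fun v => (χ v - a) * θ (S.hN N v)) = ∑ v ∈ S.box n, F v := by
    refine Finset.sum_congr rfl fun v _ => ?_
    by_cases hc : X.Dj w v ∧ (X.In v w ↔ τ = true)
    · rw [hF, if_pos hc]
      exact (if_pos hc).symm
    · rw [hF, if_neg hc]
      exact (if_neg hc).symm
  have e2 : (envW h τ).tsm ⌈K⌉₊ N χ a θ w = ∑ v ∈ S.box (⌈K⌉₊ * N), F v := rfl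
  rw [e1, e2]
  symm
  refine Finset.sum_subset ?_ ?_
  · intro v hv
    rw [S.mem_box] at hv ⊢
    intro u
    have h1 := hv u
    by_cases hK : 0 ≤ K
    · have h2 : ((⌈K⌉₊ * N : ℕ) : ℝ) ≤ n := by
        push_cast
        have h3 := (Nat.ceil_lt_add_one hK).le
        exact (mul_le_mul_of_nonneg_right h3 hNr.le).trans hn
      have h3 : ⌈K⌉₊ * N ≤ n := by exact_mod_cast h2
      exact h1.trans (by exact_mod_cast h3)
    · rw [Nat.ceil_eq_zero.2 (not_le.1 hK).le] at h1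
      refine h1.trans ?_
      rw [Nat.zero_mul]
      exact_mod_cast Nat.zero_le n
  · intro v _ hv
    have h0 : θ (S.hN N v) = 0 := by
      by_contra h1
      apply hv
      rw [S.mem_box]
      intro u
      have h2 := hθ _ h1 u
      unfold PSys.hN at h2
      rw [abs_div, abs_of_pos hNr, div_le_iff₀ hNr] at h2
      have h3 : (|S.ht v u| : ℝ) ≤ ((⌈K⌉₊ * N : ℕ) : ℝ) := by
        push_cast
        exact h2.trans (mul_le_mul_of_nonneg_right (Nat.le_ceil K) hNr.le)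
      exact_mod_cast h3
    rw [hF]
    simp only [h0, mul_zero, ite_self]

/-- **the mass of the tracers** of extents `≥ δ N` in the box -/
theorem mass_ev (hm : S.Mass) (K : ℕ) {δ : ℝ} (hδ : 0 < δ) : ∃ B : ℝ, 0 ≤ B ∧ ∃ N0 : ℕ, ∀ N : ℕ, N0 ≤ N →
    ∑ q ∈ (open Classical in (S.box (K * N)).filter (PSys.Okq δ N)), S.M q ≤ B := by
  classical
  set s1 : ℝ := max (2 * K) (δ + 1) with hs1
  have hs1' : 2 * (K : ℝ) ≤ s1 := le_max_left _ _
  obtain ⟨C2, N2, h2⟩ := hm.2 δ s1 hδ (lt_of_lt_of_le (by linarith) (le_max_right _ _))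
  refine ⟨9 * ((K : ℝ) + 1) ^ 2 * |C2|, by positivity, max ⌈N2⌉₊ 1, fun N hN => ?_⟩
  have k2 : N2 ≤ N := (Nat.le_ceil _).trans (by exact_mod_cast (le_max_left _ _).trans hN)
  have k7 : 1 ≤ N := (le_max_right _ _).trans hN
  have hNr1 : (1 : ℝ) ≤ N := by exact_mod_cast k7
  have hNr : (0 : ℝ) < N := by linarith
  have hnn : (((K * N : ℕ)) : ℝ) ≤ K * N := by push_cast; exact le_rfl
  have h6 := PSys.mass_box (S := S) (δ := δ) hnn hs1' hNr.le
  have h7 := h2 N k2 (2 * (K * N))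
  have h8 : 0 ≤ S.mass δ s1 N (2 * (K * N)) := by
    unfold PSys.mass
    exact Finset.sum_nonneg fun p _ => by split_ifs; exacts [S.M_nn p, le_rfl]
  have hn3 : (2 * ((K * N : ℕ) : ℝ) + 1) ^ 2 ≤ 9 * (K + 1) ^ 2 * N ^ 2 := by
    push_cast
    have hK0 : (0 : ℝ) ≤ K := Nat.cast_nonneg K
    have : 2 * ((K : ℝ) * N) + 1 ≤ 3 * (K + 1) * N := by nlinarith
    have h0 : 0 ≤ 2 * ((K : ℝ) * N) + 1 := by positivity
    calc (2 * ((K : ℝ) * N) + 1) ^ 2 ≤ (3 * (K + 1) * N) ^ 2 := pow_le_pow_left₀ h0 this 2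
      _ = _ := by ring
  refine h6.trans ((mul_le_mul_of_nonneg_right hn3 h8).trans ?_)
  rw [mul_assoc (9 * ((K : ℝ) + 1) ^ 2)]
  exact mul_le_mul_of_nonneg_left (h7.trans (le_abs_self _)) (by positivity)

/-- bound of the factor of a tracer -/
theorem fac_tr {K δ Λ : ℝ} {N n : ℕ} (hN : 0 < N) {G : (Fin 4 → ℝ) → ℝ}
    (hG : Tf1 K δ Λ G) (hnn : ∀ y, 0 ≤ G y) {B : ℝ}
    (hB : ∑ q ∈ (open Classical in (S.box (⌈K⌉₊ * N)).filter (PSys.Okq δ N)), S.M q ≤ B) (w : X.W) (τ : Bool) :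
    0 ≤ X.fac n w τ (WSys.tr S N G) ∧ X.fac n w τ (WSys.tr S N G) ≤ Λ * B := by
  classical
  have hNr : (0 : ℝ) < N := by exact_mod_cast hN
  have hΛ : 0 ≤ Λ := (abs_nonneg _).trans (hG.bd 0)
  have e : X.fac n w τ (WSys.tr S N G) =
      ∑ v ∈ S.box n, if X.Dj w v ∧ (X.In v w ↔ τ = true) then S.M v * G (S.hN N v) else 0 := rfl
  rw [e]
  refine ⟨Finset.sum_nonneg fun v _ => by split_ifs; exacts [mul_nonneg (S.M_nn v) (hnn _), le_rfl], ?_⟩
  have h1 : ∀ v ∈ S.box n, (if X.Dj w v ∧ (X.In v w ↔ τ = true) then S.M v * G (S.hN N v) else 0) ≤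
      if v ∈ (S.box (⌈K⌉₊ * N)).filter (PSys.Okq δ N) then Λ * S.M v else 0 := by
    intro v _
    by_cases h0 : G (S.hN N v) = 0
    · rw [h0, mul_zero, ite_self]
      split_ifs
      · exact mul_nonneg hΛ (S.M_nn v)
      · exact le_rfl
    · have h2 := hG.sup _ h0
      have h3 : v ∈ (S.box (⌈K⌉₊ * N)).filter (PSys.Okq δ N) := by
        rw [Finset.mem_filter, S.mem_box]
        refine ⟨fun u => ?_, ?_⟩
        · have h4 := h2.1 u
          unfold PSys.hN at h4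
          rw [abs_div, abs_of_pos hNr, div_le_iff₀ hNr] at h4
          have h5 : (|S.ht v u| : ℝ) ≤ ((⌈K⌉₊ * N : ℕ) : ℝ) := by
            push_cast
            exact h4.trans (mul_le_mul_of_nonneg_right (Nat.le_ceil K) hNr.le)
          exact_mod_cast h5
        · have h4 := h2.2
          unfold PSys.hN at h4
          rw [← sub_div, ← sub_div, le_div_iff₀ hNr, le_div_iff₀ hNr] at h4
          exact h4
      rw [if_pos h3]
      split_ifs
      · rw [mul_comm]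
        exact mul_le_mul_of_nonneg_right ((le_abs_self _).trans (hG.bd _)) (S.M_nn v)
      · exact mul_nonneg hΛ (S.M_nn v)
  refine (Finset.sum_le_sum h1).trans ?_
  rw [← Finset.sum_filter]
  have h2 : ∑ a ∈ (S.box n).filter (fun v => v ∈ (S.box (⌈K⌉₊ * N)).filter (PSys.Okq δ N)), Λ * S.M a ≤
      ∑ a ∈ (S.box (⌈K⌉₊ * N)).filter (PSys.Okq δ N), Λ * S.M a :=
    Finset.sum_le_sum_of_subset_of_nonneg (fun v hv => (Finset.mem_filter.1 hv).2)
      fun v _ _ => mul_nonneg hΛ (S.M_nn v)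
  refine h2.trans ?_
  rw [← Finset.mul_sum]
  exact mul_le_mul_of_nonneg_left hB hΛ

/-- a tracer of a factor which does not vanish -/
theorem fac_ne {n : ℕ} {w : X.W} {τ : Bool} {f : S.P → ℝ} (h : X.fac n w τ (.inr f) ≠ 0) :
    ∃ v, f v ≠ 0 ∧ X.Dj w v ∧ (X.In v w ↔ τ = true) := by
  classical
  obtain ⟨v, _, hv⟩ := Finset.exists_ne_zero_of_sum_ne_zero h
  by_cases h1 : X.Dj w v ∧ (X.In v w ↔ τ = true)
  · rw [if_pos h1] at hv
    exact ⟨v, right_ne_zero_of_mul hv, h1⟩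
  · rw [if_neg h1] at hv
    exact absurd rfl hv

/-- an object in the ball with the pattern `τ` -/
def Obj (K : ℝ) (N : ℕ) (δ : ℝ) (o : Z2 ⊕ (S.P → ℝ)) : Prop :=
  (∃ x : Z2, o = .inl x ∧ |(x.1 : ℝ)| ≤ K * N ∧ |(x.2 : ℝ)| ≤ K * N) ∨
    ∃ f : S.P → ℝ, o = .inr f ∧ ∀ v, f v ≠ 0 → (∀ u, |(S.ht v u : ℝ)| ≤ K * N) ∧
      δ * N ≤ (S.ht v 1 : ℝ) - S.ht v 0 ∧ δ * N ≤ (S.ht v 3 : ℝ) - S.ht v 2

theorem obj_loc {K δ : ℝ} {N n : ℕ} (hN : 1 ≤ N) {w : X.W} {τ : Bool} {o : Z2 ⊕ (S.P → ℝ)} (ho : Obj K N δ o)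
    (h : X.fac n w τ o ≠ 0) : X.Nr ((K + 1) * N) 0 w ∨
      ∃ x : Z2, |(x.1 : ℝ)| ≤ K * N ∧ |(x.2 : ℝ)| ≤ K * N ∧ (X.ip x w ↔ τ = true) := by
  have hNr1 : (1 : ℝ) ≤ N := by exact_mod_cast hN
  rcases ho with ⟨x, rfl, h1, h2⟩ | ⟨f, rfl, hf⟩
  · refine Or.inr ⟨x, h1, h2, ?_⟩
    by_contra hc
    exact h (if_neg hc)
  · obtain ⟨v, hv, hd, hi⟩ := fac_ne h
    obtain ⟨h1, -⟩ := hf v hv
    by_cases hs : ∀ s ∈ X.st w, ¬ (S.ht v 0 - 1 ≤ s.1 ∧ s.1 ≤ S.ht v 1 + 1 ∧ S.ht v 2 - 1 ≤ s.2 ∧ s.2 ≤ S.ht v 3 + 1)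
    · exact Or.inr ⟨(S.ht v 0, S.ht v 2), h1 0, h1 2, (X.sep v w hs).2.symm.trans hi⟩
    · push Not at hs
      obtain ⟨s, hs, a0, a1, a2, a3⟩ := hs
      refine Or.inl ⟨s, hs, ?_, ?_⟩
      · have b0 := abs_le.1 (h1 0)
        have b1 := abs_le.1 (h1 1)
        have c0 : (S.ht v 0 : ℝ) - 1 ≤ s.1 := by exact_mod_cast a0
        have c1 : (s.1 : ℝ) ≤ S.ht v 1 + 1 := by exact_mod_cast a1
        show |(s.1 : ℝ) - ((0 : ℤ) : ℝ)| ≤ (K + 1) * N
        rw [Int.cast_zero, sub_zero, abs_le]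
        constructor <;> nlinarith
      · have b0 := abs_le.1 (h1 2)
        have b1 := abs_le.1 (h1 3)
        have c0 : (S.ht v 2 : ℝ) - 1 ≤ s.2 := by exact_mod_cast a2
        have c1 : (s.2 : ℝ) ≤ S.ht v 3 + 1 := by exact_mod_cast a3
        show |(s.2 : ℝ) - ((0 : ℤ) : ℝ)| ≤ (K + 1) * N
        rw [Int.cast_zero, sub_zero, abs_le]
        constructor <;> nlinarith

/-- **the large loop comes near the origin** -/
theorem nr_of {K δ : ℝ} {N n : ℕ} (hN : 1 ≤ N) {w : X.W} {o o' : Z2 ⊕ (S.P → ℝ)} (ho : Obj K N δ o)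
    (ho' : Obj K N δ o') (h : X.fac n w true o ≠ 0) (h' : X.fac n w false o' ≠ 0) : X.Nr ((K + 1) * N) 0 w := by
  have hNr1 : (1 : ℝ) ≤ N := by exact_mod_cast hN
  rcases obj_loc hN ho h with h1 | ⟨x, x1, x2, x3⟩
  · exact h1
  rcases obj_loc hN ho' h' with h1 | ⟨y, y1, y2, y3⟩
  · exact h1
  obtain ⟨s, hs, a0, a1, a2, a3⟩ := X.ip_sep w x y (x3.2 rfl) (fun h => by simpa using y3.1 h)
  rw [abs_le] at x1 x2 y1 y2
  refine ⟨s, hs, ?_, ?_⟩
  · have c0 : (min x.1 y.1 : ℤ) - 1 ≤ (s.1 : ℝ) := by exact_mod_cast a0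
    have c1 : (s.1 : ℝ) ≤ (max x.1 y.1 : ℤ) + 1 := by exact_mod_cast a1
    rw [Int.cast_min] at c0
    rw [Int.cast_max] at c1
    have d0 : -(K * N) ≤ min (x.1 : ℝ) y.1 := le_min x1.1 y1.1
    have d1 : max (x.1 : ℝ) y.1 ≤ K * N := max_le x1.2 y1.2
    show |(s.1 : ℝ) - ((0 : ℤ) : ℝ)| ≤ (K + 1) * N
    rw [Int.cast_zero, sub_zero, abs_le]
    constructor <;> nlinarith
  · have c0 : (min x.2 y.2 : ℤ) - 1 ≤ (s.2 : ℝ) := by exact_mod_cast a2
    have c1 : (s.2 : ℝ) ≤ (max x.2 y.2 : ℤ) + 1 := by exact_mod_cast a3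
    rw [Int.cast_min] at c0
    rw [Int.cast_max] at c1
    have d0 : -(K * N) ≤ min (x.2 : ℝ) y.2 := le_min x2.1 y2.1
    have d1 : max (x.2 : ℝ) y.2 ≤ K * N := max_le x2.2 y2.2
    show |(s.2 : ℝ) - ((0 : ℤ) : ℝ)| ≤ (K + 1) * N
    rw [Int.cast_zero, sub_zero, abs_le]
    constructor <;> nlinarith

/-- a surrounded tracer forces a large extent -/
theorem ext_trc {K δ : ℝ} {N n : ℕ} {w : X.W} {f : S.P → ℝ} (ho : Obj K N δ (.inr f))
    (h : X.fac n w true (.inr f) ≠ 0) : X.Ext (δ * N) w := by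
  obtain ⟨v, hv, _, hi⟩ := fac_ne h
  rcases ho with ⟨x, hx, -⟩ | ⟨g, hg, hf⟩
  · exact absurd hx (by simp)
  · obtain rfl := Sum.inr.inj hg
    obtain ⟨-, h1, -⟩ := hf v hv
    obtain ⟨⟨s, hs, s1⟩, ⟨t, ht, t1⟩, -⟩ := X.In_box v w (hi.2 rfl)
    refine ⟨s, hs, t, ht, Or.inl ?_⟩
    have c0 : (s.1 : ℝ) ≤ S.ht v 0 := by exact_mod_cast s1
    have c1 : (S.ht v 1 : ℝ) ≤ t.1 := by exact_mod_cast t1
    rw [abs_sub_comm]
    exact le_trans (by linarith) (le_abs_self _)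

/-- two surrounded points force a large extent -/
theorem ext_ptc {D : ℝ} {n : ℕ} {w : X.W} {x y : Z2} (hD : D ≤ |(x.1 : ℝ) - y.1|)
    (h : X.fac n w true (.inl x) ≠ 0) (h' : X.fac n w true (.inl y) ≠ 0) : X.Ext D w := by
  have hx : X.ip x w := by
    by_contra hc
    exact h (if_neg (fun h => hc (h.2 rfl)))
  have hy : X.ip y w := by
    by_contra hc
    exact h' (if_neg (fun h => hc (h.2 rfl)))
  obtain ⟨⟨s, hs, s1⟩, ⟨t, ht, t1⟩, -⟩ := X.ip_box w x hx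
  obtain ⟨⟨s', hs', s1'⟩, ⟨t', ht', t1'⟩, -⟩ := X.ip_box w y hy
  have c0 : (s.1 : ℝ) ≤ x.1 := by exact_mod_cast s1
  have c1 : (x.1 : ℝ) ≤ t.1 := by exact_mod_cast t1
  have c0' : (s'.1 : ℝ) ≤ y.1 := by exact_mod_cast s1'
  have c1' : (y.1 : ℝ) ≤ t'.1 := by exact_mod_cast t1'
  rcases le_total (x.1 : ℝ) y.1 with h0 | h0
  · refine ⟨s, hs, t', ht', Or.inl ?_⟩
    rw [abs_sub_comm, abs_of_nonneg (by linarith)] at hD
    rw [abs_sub_comm]
    exact le_trans (by linarith) (le_abs_self _)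
  · refine ⟨s', hs', t, ht, Or.inl ?_⟩
    rw [abs_of_nonneg (by linarith)] at hD
    rw [abs_sub_comm]
    exact le_trans (by linarith) (le_abs_self _)

/-! ### the product of the factors -/

theorem obj_sup {K δ : ℝ} {N : ℕ} (hN : 0 < N) {f : S.P → ℝ} {θ : (Fin 4 → ℝ) → ℝ}
    (h : ∀ v, f v ≠ 0 → θ (S.hN N v) ≠ 0)
    (hθ : ∀ y, θ y ≠ 0 → (∀ u, |y u| ≤ K) ∧ δ ≤ y 1 - y 0 ∧ δ ≤ y 3 - y 2) :
    Obj (S := S) K N δ (.inr f) := by
  have hNr : (0 : ℝ) < N := by exact_mod_cast hN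
  refine Or.inr ⟨f, rfl, fun v hv => ?_⟩
  have h2 := hθ _ (h v hv)
  refine ⟨fun u => ?_, ?_⟩
  · have h4 := h2.1 u
    unfold PSys.hN at h4
    rwa [abs_div, abs_of_pos hNr, div_le_iff₀ hNr] at h4
  · have h4 := h2.2
    unfold PSys.hN at h4
    rwa [← sub_div, ← sub_div, le_div_iff₀ hNr, le_div_iff₀ hNr] at h4

section one

variable {m : ℕ} {K δ Λ κ d : ℝ} {N n : ℕ} {k : ℤ} {J : Finset (Fin m)} {G : Fin m → (Fin 4 → ℝ) → ℝ}
  {x : Fin m → Z2}

theorem obj_up (ha : WSys.Adm N K δ Λ κ d k J G x) {i : Fin m} (hN : 0 < N) {f : S.P → ℝ}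
    {θ : (Fin 4 → ℝ) → ℝ} (h : ∀ v, f v ≠ 0 → θ (S.hN N v) ≠ 0) (hθ : Tf0 K δ Λ θ) (j : Fin m) :
    Obj K N δ (Function.update (WSys.ob S N J G x) i (.inr f) j) := by
  by_cases hj : j = i
  · subst hj
    rw [Function.update_self]
    exact obj_sup hN h hθ.sup
  · rw [Function.update_of_ne hj]
    unfold WSys.ob
    by_cases hJ : j ∈ J
    · rw [if_pos hJ]
      exact obj_sup hN (θ := G j) (fun v hv => hv) (ha.tf j hJ).sup
    · rw [if_neg hJ]
      exact Or.inl ⟨x j, rfl, (ha.pt j hJ).2.1, (ha.pt j hJ).2.2⟩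

/-- **where the product does not vanish** -/
theorem prod_loc {π : Fin m → Bool} (hπ : PSys.NT π) (ha : WSys.Adm N K δ Λ κ d k J G x) {i : Fin m} (hi : i ∈ J)
    (hN : 1 ≤ N) {f : S.P → ℝ} {θ : (Fin 4 → ℝ) → ℝ} (h : ∀ v, f v ≠ 0 → θ (S.hN N v) ≠ 0) (hθ : Tf0 K δ Λ θ)
    {w : X.W} (h0 : ∀ j, X.fac n w (π j) (Function.update (WSys.ob S N J G x) i (.inr f) j) ≠ 0) :
    X.Ext (min δ d * N) w ∧ X.Nr ((K + 1) * N) 0 w := by
  have hNr : (0 : ℝ) ≤ N := Nat.cast_nonneg N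
  have ho := fun j => obj_up ha (i := i) (by omega) h hθ j
  obtain ⟨⟨p, q, hpq, hp, hq⟩, r, hr⟩ := hπ
  have hp0 := h0 p
  have hq0 := h0 q
  have hr0 := h0 r
  rw [hp] at hp0
  rw [hq] at hq0
  rw [hr] at hr0
  refine ⟨?_, nr_of hN (ho p) (ho r) hp0 hr0⟩
  -- a tracer
  have htr : ∀ j, (∃ g : S.P → ℝ, Function.update (WSys.ob S N J G x) i (.inr f) j = .inr g) →
      X.fac n w true (Function.update (WSys.ob S N J G x) i (.inr f) j) ≠ 0 → X.Ext (min δ d * N) w := by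
    rintro j ⟨g, hg⟩ hj
    have hoj := ho j
    rw [hg] at hj hoj
    exact (ext_trc hoj hj).mono (mul_le_mul_of_nonneg_right (min_le_left _ _) hNr)
  have hcs : ∀ j, (∃ g : S.P → ℝ, Function.update (WSys.ob S N J G x) i (.inr f) j = .inr g) ∨
      (j ∉ J ∧ Function.update (WSys.ob S N J G x) i (.inr f) j = .inl (x j)) := by
    intro j
    by_cases hj : j = i
    · subst hj
      exact Or.inl ⟨f, Function.update_self _ _ _⟩
    · rw [Function.update_of_ne hj]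
      unfold WSys.ob
      by_cases hJ : j ∈ J
      · rw [if_pos hJ]
        exact Or.inl ⟨_, rfl⟩
      · rw [if_neg hJ]
        exact Or.inr ⟨hJ, rfl⟩
  rcases hcs p with h1 | ⟨h1, h1'⟩
  · exact htr p h1 hp0
  rcases hcs q with h2 | ⟨h2, h2'⟩
  · exact htr q h2 hq0
  rw [h1'] at hp0
  rw [h2'] at hq0
  refine (ext_ptc (D := d * N) (ha.pp p q h1 h2 hpq) hp0 hq0).mono (mul_le_mul_of_nonneg_right (min_le_right _ _) hNr)

open Classical in
/-- the weight of the other objects -/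
noncomputable def Wo (X : WSys S) (g : X.W → ℝ) (K D : ℝ) (N n : ℕ) (π : Fin m → Bool) (o : Fin m → Z2 ⊕ (S.P → ℝ))
    (i : Fin m) (w : X.W) : ℝ :=
  g w * ((∏ j ∈ Finset.univ.erase i, X.fac n w (π j) (o j)) *
    if X.Ext (D * N) w ∧ X.Nr ((K + 1) * N) 0 w then 1 else 0)

/-- the pattern function is a sum over the environments -/
theorem po_tsm (hR : WRel X Y) {π : Fin m → Bool} (hπ : PSys.NT π) (ha : WSys.Adm N K δ Λ κ d k J G x) {i : Fin m}
    (hi : i ∈ J) (hN : 1 ≤ N) (hn : (K + 1) * N ≤ n) (g : X.W → ℝ) (χ : S.P → ℝ) (a : ℝ) {θ : (Fin 4 → ℝ) → ℝ}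
    (hθ : Tf0 K δ Λ θ) :
    X.PO g n π (Function.update (WSys.ob S N J G x) i (.inr fun v => (χ v - a) * θ (S.hN N v))) =
      ∑' w, Wo X g K (min δ d) N n π (WSys.ob S N J G x) i w * (envW hR (π i)).tsm ⌈K⌉₊ N χ a θ w := by
  classical
  unfold WSys.PO
  refine tsum_congr fun w => ?_
  rw [← Finset.mul_prod_erase Finset.univ _ (Finset.mem_univ i), Function.update_self]
  have e1 : ∏ j ∈ Finset.univ.erase i, X.fac n w (π j)
      (Function.update (WSys.ob S N J G x) i (.inr fun v => (χ v - a) * θ (S.hN N v)) j) =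
      ∏ j ∈ Finset.univ.erase i, X.fac n w (π j) (WSys.ob S N J G x j) := by
    refine Finset.prod_congr rfl fun j hj => ?_
    rw [Function.update_of_ne (Finset.ne_of_mem_erase hj)]
  rw [e1, fac_tsm hR (π i) hN hn χ a (fun y hy => (hθ.sup y hy).1) w]
  unfold Wo
  by_cases h : X.Ext (min δ d * N) w ∧ X.Nr ((K + 1) * N) 0 w
  · rw [if_pos h, mul_one]
    ring
  · rw [if_neg h, mul_zero, mul_zero, zero_mul]
    rw [← fac_tsm hR (π i) hN hn χ a (fun y hy => (hθ.sup y hy).1) w]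
    by_contra hne
    refine h (prod_loc hπ ha hi hN (f := fun v => (χ v - a) * θ (S.hN N v)) (θ := θ)
      (fun v hv => right_ne_zero_of_mul hv) hθ (n := n) (w := w) fun j => ?_)
    have h1 := right_ne_zero_of_mul hne
    by_cases hj : j = i
    · subst hj
      rw [Function.update_self]
      exact left_ne_zero_of_mul h1
    · rw [Function.update_of_ne hj]
      exact (Finset.prod_ne_zero_iff.1 (right_ne_zero_of_mul h1)) j (Finset.mem_erase.2 ⟨hj, Finset.mem_univ j⟩)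

end one

/-! ### the theorem -/

section two

variable {m : ℕ} {K δ Λ κ d : ℝ} {N n : ℕ} {k : ℤ} {J : Finset (Fin m)} {G : Fin m → (Fin 4 → ℝ) → ℝ}
  {x : Fin m → Z2}

open Classical in
/-- bounds of the other factors -/
theorem prod_bd (ha : WSys.Adm N K δ Λ κ d k J G x) (hN : 0 < N) {B : ℝ}
    (hB : ∑ q ∈ (S.box (⌈K⌉₊ * N)).filter (PSys.Okq δ N), S.M q ≤ B) (π : Fin m → Bool) (i : Fin m) (w : X.W) :
    0 ≤ ∏ j ∈ Finset.univ.erase i, X.fac n w (π j) (WSys.ob S N J G x j) ∧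
      ∏ j ∈ Finset.univ.erase i, X.fac n w (π j) (WSys.ob S N J G x j) ≤ max 1 (Λ * B) ^ m := by
  have h1 : ∀ j, 0 ≤ X.fac n w (π j) (WSys.ob S N J G x j) ∧
      X.fac n w (π j) (WSys.ob S N J G x j) ≤ max 1 (Λ * B) := by
    intro j
    unfold WSys.ob
    by_cases hJ : j ∈ J
    · rw [if_pos hJ]
      have h2 := fac_tr (X := X) (n := n) hN (ha.tf j hJ) (ha.nn j hJ) (B := B) (by convert hB) w (π j)
      exact ⟨h2.1, h2.2.trans (le_max_right _ _)⟩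
    · rw [if_neg hJ]
      have e : X.fac n w (π j) (.inl (x j)) = if X.ip (x j) w ↔ π j = true then 1 else 0 := rfl
      rw [e]
      split_ifs
      · exact ⟨zero_le_one, le_max_left _ _⟩
      · exact ⟨le_rfl, zero_le_one.trans (le_max_left _ _)⟩
  refine ⟨Finset.prod_nonneg fun j _ => (h1 j).1, ?_⟩
  refine (Finset.prod_le_prod (fun j _ => (h1 j).1) fun j _ => (h1 j).2).trans ?_
  rw [Finset.prod_const]
  refine pow_le_pow_right₀ (le_max_left _ _) ?_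
  refine (Finset.card_le_card (Finset.erase_subset _ _)).trans ?_
  rw [Finset.card_univ, Fintype.card_fin]

theorem lip_of {θ : (Fin 4 → ℝ) → ℝ} (h : Tf0 K δ Λ θ) : LipschitzWith Λ.toNNReal θ ∧
    (∀ y, |θ y| ≤ Λ.toNNReal) := by
  have hΛ : 0 ≤ Λ := (abs_nonneg _).trans (h.bd 0)
  refine ⟨LipschitzWith.of_dist_le_mul fun y z => ?_, fun y => ?_⟩
  · rw [Real.coe_toNNReal _ hΛ, Real.dist_eq, dist_eq_norm]
    have h1 := h.lip z (y - z)
    rwa [add_sub_cancel] at h1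
  · rw [Real.coe_toNNReal _ hΛ]
    exact h.bd y

end two

/-- **the literal LRW** -/
theorem lrw_W (hI : Inp S Y) (hR : WRel X Y) (hNr : X.Near) : ∃ (A : ℝ) (a b : ℕ → ℝ),
    (∀ N, 1 ≤ a N ∧ a N ≤ A ∧ 0 ≤ b N ∧ b N ≤ 1) ∧ X.LRW a b := by
  classical
  obtain ⟨A, a, b, hab, hL⟩ := lrw hI
  refine ⟨A, a, b, hab, ?_⟩
  intro m π K δ Λ κ d ε hπ hδ hκ hd hε
  obtain ⟨B, hB0, N1, hB⟩ := mass_ev hI.mass ⌈K⌉₊ hδ
  obtain ⟨Cf, hCf⟩ : ∃ Cf : ℝ, Cf = max 1 (Λ * B) ^ m := ⟨_, rfl⟩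
  have hCf0 : 0 < Cf := by
    rw [hCf]
    exact pow_pos (zero_lt_one.trans_le (le_max_left _ _)) _
  obtain ⟨D, hD⟩ : ∃ D : ℝ, D = min δ d := ⟨_, rfl⟩
  have hD0 : 0 < D := by rw [hD]; exact lt_min hδ hd
  obtain ⟨C0, hC0, N2, hC⟩ := X.mass_all hNr hD0 (K + 1)
  obtain ⟨εn, hεn, hL1⟩ := hL ⌈K⌉₊ δ (Cf * C0) Λ.toNNReal ε hδ hε
  obtain ⟨η, hη, N3, hη1⟩ := X.near_all hNr hD0 (ε := εn / Cf) (by positivity)
  obtain ⟨N4, hL2⟩ := hL1 η hη
  refine ⟨max (max N1 N2) (max (max N3 N4) 1), fun N hN => ?_⟩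
  have k1 : N1 ≤ N := (le_max_left _ _).trans ((le_max_left _ _).trans hN)
  have k2 : N2 ≤ N := (le_max_right _ _).trans ((le_max_left _ _).trans hN)
  have k3 : N3 ≤ N := (le_max_left _ _).trans ((le_max_left _ _).trans ((le_max_right _ _).trans hN))
  have k4 : N4 ≤ N := (le_max_right _ _).trans ((le_max_left _ _).trans ((le_max_right _ _).trans hN))
  have k5 : 1 ≤ N := (le_max_right _ _).trans ((le_max_right _ _).trans hN)
  intro k n J G x hn ha i hi θ hθ _ _ l _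
  obtain ⟨hl1, hl2⟩ := lip_of hθ
  have hg : X.IsW (X.wt l) := WSys.IsW.t l
  have hpb := fun w => prod_bd (X := X) (n := n) ha (by omega : 0 < N) (hB N k1) π i w
  -- the weight
  set P : X.W → ℝ := fun w => (∏ j ∈ Finset.univ.erase i, X.fac n w (π j) (WSys.ob S N J G x j)) *
    if X.Ext (D * N) w ∧ X.Nr ((K + 1) * N) 0 w then 1 else 0 with hP
  have hW : ∀ w, Wo X (X.wt l) K D N n π (WSys.ob S N J G x) i w = X.wt l w * P w := fun w => rfl
  have hP0 : ∀ w, 0 ≤ P w := fun w => mul_nonneg (hpb w).1 (by split_ifs <;> norm_num)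
  have hP1 : ∀ w, P w ≤ Cf := fun w => by
    rw [hP]
    dsimp only
    split_ifs
    · rw [mul_one, hCf]
      exact (hpb w).2
    · rw [mul_zero]
      exact hCf0.le
  have hP2 : ∀ w, w ∉ {w | X.Ext (D * N) w ∧ X.Nr ((K + 1) * N) 0 w} → P w = 0 := fun w hw => by
    rw [hP]
    dsimp only
    rw [if_neg (show ¬ (X.Ext (D * N) w ∧ X.Nr ((K + 1) * N) 0 w) from hw), mul_zero]
  have hmE := hC N k2 (X.wt l) hg 0
  rw [WSys.near_eq] at hmE
  have hPa : ∀ w, |P w| ≤ Cf := fun w => by rw [abs_of_nonneg (hP0 w)]; exact hP1 w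
  have hs : Summable fun w => X.wt l w * P w :=
    summable_of (fun w => X.wt_nn l w) (ne_top_of_le_ne_top ENNReal.ofReal_ne_top hmE) hPa hP2
  have hle : ∑' w, X.wt l w * P w ≤ Cf * C0 :=
    (le_abs_self _).trans (tsum_le (fun w => X.wt_nn l w) hCf0.le hC0 hmE hPa hP2)
  have hne : ∀ e : Z2, ∑' w, Wo X (X.wt l) K D N n π (WSys.ob S N J G x) i w *
      (if (envW hR (π i)).Nr (η * N) e w then 1 else 0) ≤ εn := by
    intro e
    have h1 := hη1 N k3 (X.wt l) hg e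
    rw [WSys.near_eq] at h1
    have h2 : |∑' w, X.wt l w * (P w * if X.Nr (η * N) e w then 1 else 0)| ≤ Cf * (εn / Cf) := by
      refine tsum_le (fun w => X.wt_nn l w) hCf0.le (by positivity) h1 (fun w => ?_) fun w hw => ?_
      · split_ifs
        · rw [mul_one]
          exact hPa w
        · rw [mul_zero, abs_zero]
          exact hCf0.le
      · by_cases h3 : X.Nr (η * N) e w
        · by_cases h4 : X.Ext (D * N) w
          · exact absurd ⟨h4, h3⟩ hw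
          · rw [hP2 w fun h5 => h4 h5.1, zero_mul]
        · rw [if_neg h3, mul_zero]
    rw [mul_div_cancel₀ εn hCf0.ne'] at h2
    refine le_trans (le_of_eq ?_) ((le_abs_self _).trans h2)
    refine tsum_congr fun w => ?_
    rw [hW w, mul_assoc]
    rfl
  have hfin := hL2 N k4 X.W (envW hR (π i)) (Wo X (X.wt l) K D N n π (WSys.ob S N J G x) i)
    (fun w => by rw [hW w]; exact mul_nonneg (X.wt_nn l w) (hP0 w)) (by rw [show Wo X (X.wt l) K D N n π (WSys.ob S N J G x) i = fun w => X.wt l w * P w from funext hW]; exact hs)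
    (by simpa only [hW] using hle) (fun e => by convert hne e) θ hl1 hl2
    (fun h hh => ⟨fun v => ((hθ.sup h hh).1 v).trans (Nat.le_ceil K), (hθ.sup h hh).2⟩)
  have key := fun (χ : S.P → ℝ) (c : ℝ) => po_tsm hR hπ ha hi k5 hn (X.wt l) χ c hθ
  rw [← hD] at key
  refine ⟨fun u _ => ?_, fun u _ => ?_⟩
  · rw [key (fun p => S.Qf p u) (a N)]
    exact (hfin u).1
  · rw [key (fun p => S.Cf p u) (b N)]
    exact (hfin u).2

end Pool.Agent.ROT.U
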