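import Pool.Agent.ROT.UNear
import Pool.Agent.ROT.EGeo

/-!
# ROT, UNIV: the near bound in the form of sums with real distances; patterns and events (helper98)
-/

set_option autoImplicit false

namespace Pool.Agent.ROT.U

open MeasureTheory Filter Topology
open Pool.Agent.ROT.E (Cfg Lp An)
open Pool.Agent.ROT.I (Lps mu)
open scoped ENNReal

noncomputable section

open Classical in
/-- masses as sums -/
theorem muU_if (u : ℤ → ℝ) (P : Lps → Prop) :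
    muU u {γ | P γ} = ∑' γ : Lps, if P γ then ENNReal.ofReal (MU u γ.1) else 0 := by
  rw [muU_ap]
  refine tsum_congr fun γ => ?_
  by_cases h : P γ
  · rw [if_pos h, Set.indicator_of_mem (show γ ∈ {γ | P γ} from h), Pi.one_apply, mul_one]
  · rw [if_neg h, Set.indicator_of_notMem (show γ ∉ {γ | P γ} from h), mul_zero]

/-- two vertices at (sup norm) distance `≥ D` -/
def ExtR (D : ℝ) (γ : Cfg) : Prop := ∃ s t, γ s ≠ 0 ∧ γ t ≠ 0 ∧ (D ≤ |(s.1 : ℝ) - t.1| ∨ D ≤ |(s.2 : ℝ) - t.2|)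

/-- a vertex within (sup norm) distance `ρ` of `x` -/
def NrR (ρ : ℝ) (x : ℤ × ℤ) (γ : Cfg) : Prop := ∃ s, γ s ≠ 0 ∧ |(s.1 : ℝ) - x.1| ≤ ρ ∧ |(s.2 : ℝ) - x.2| ≤ ρ

theorem extR_sub {D : ℝ} {γ : Lps} (h : ExtR D γ.1) : γ ∈ Ext ⌈D⌉ := by
  obtain ⟨s, t, hs, ht, h⟩ := h
  rcases h with h | h <;> rcases le_abs.1 h with h | h
  · refine ⟨t, s, ht, hs, Or.inl (Int.ceil_le.2 ?_)⟩
    push_cast
    exact h
  · refine ⟨s, t, hs, ht, Or.inl (Int.ceil_le.2 ?_)⟩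
    push_cast
    linarith
  · refine ⟨t, s, ht, hs, Or.inr (Int.ceil_le.2 ?_)⟩
    push_cast
    exact h
  · refine ⟨s, t, hs, ht, Or.inr (Int.ceil_le.2 ?_)⟩
    push_cast
    linarith

theorem nrR_sub {ρ : ℝ} {x : ℤ × ℤ} {γ : Lps} (h : NrR ρ x γ.1) : γ ∈ Vis x ⌊ρ⌋ := by
  obtain ⟨s, hs, h1, h2⟩ := h
  refine ⟨s, hs, Int.le_floor.2 ?_, Int.le_floor.2 ?_⟩
  · push_cast
    exact h1
  · push_cast
    exact h2

/-- **the near bound, real distances** -/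
theorem near_real {W : Set (ℤ → ℝ)} (h : NearM W) (d ε : ℝ) (hd : 0 < d) (hε : 0 < ε) : ∃ η : ℝ, 0 < η ∧
    ∀ᶠ N : ℕ in atTop, ∀ u ∈ W, ∀ x : ℤ × ℤ,
      muU u {γ | ExtR (d * N) γ.1 ∧ NrR (η * N) x γ.1} ≤ ENNReal.ofReal ε := by
  obtain ⟨η, hη, N0, h⟩ := h ε hε
  obtain ⟨K, hK⟩ := exists_nat_gt (|(N0 : ℝ)| / d)
  refine ⟨η * d, by positivity, ?_⟩
  filter_upwards [eventually_ge_atTop K] with N hN u hu x
  have hNK : (K : ℝ) ≤ N := by exact_mod_cast hN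
  have h1 : |(N0 : ℝ)| ≤ d * N := by
    have := (hK.trans_le hNK).le
    rwa [div_le_iff₀ hd, mul_comm] at this
  have h2 : N0 ≤ ⌈d * (N : ℝ)⌉ := by
    have : (N0 : ℝ) ≤ (⌈d * (N : ℝ)⌉ : ℤ) := (le_abs_self _).trans (h1.trans (Int.le_ceil _))
    exact_mod_cast this
  refine (measure_mono ?_).trans (h u hu ⌈d * (N : ℝ)⌉ h2 x ⌊η * d * N⌋ ?_)
  · rintro γ ⟨h3, h4⟩
    exact ⟨nrR_sub h4, extR_sub h3⟩
  · refine (Int.floor_le _).trans ?_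
    rw [mul_assoc]
    exact mul_le_mul_of_nonneg_left (Int.le_ceil _) hη.le

open Classical in
/-- the same as a sum -/
theorem near_sum {W : Set (ℤ → ℝ)} (h : NearM W) (d ε : ℝ) (hd : 0 < d) (hε : 0 < ε) : ∃ η : ℝ, 0 < η ∧
    ∀ᶠ N : ℕ in atTop, ∀ u ∈ W, ∀ x : ℤ × ℤ,
      (∑' γ : Lps, if ExtR (d * N) γ.1 ∧ NrR (η * N) x γ.1 then ENNReal.ofReal (MU u γ.1) else 0) ≤
        ENNReal.ofReal ε := by
  obtain ⟨η, hη, h⟩ := near_real h d ε hd hε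
  refine ⟨η, hη, h.mono fun N hN u hu x => ?_⟩
  refine le_trans (le_of_eq ?_) (hN u hu x)
  rw [muU_if u (fun γ => ExtR (d * N) γ.1 ∧ NrR (η * N) x γ.1)]
  refine tsum_congr fun γ => ?_
  by_cases hP : ExtR (d * N) γ.1 ∧ NrR (η * N) x γ.1
  · rw [if_pos hP, if_pos hP]
  · rw [if_neg hP, if_neg hP]

/-- **bounded mass**, real distances -/
theorem mass_real {W : Set (ℤ → ℝ)} (h : NearM W) (R0 d : ℝ) (hd : 0 < d) : ∃ C : ℝ, 0 < C ∧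
    ∀ᶠ N : ℕ in atTop, ∀ u ∈ W, ∀ x : ℤ × ℤ, muU u {γ | ExtR (d * N) γ.1 ∧ NrR (R0 * N) x γ.1} ≤ ENNReal.ofReal C := by
  obtain ⟨C, hC, N0, h⟩ := mass h R0 d hd
  refine ⟨C, hC, ?_⟩
  filter_upwards [eventually_ge_atTop N0.toNat] with N hN u hu x
  refine (measure_mono ?_).trans (h u hu N (by omega) x ⌊R0 * N⌋ ⌈d * N⌉ ?_ ?_)
  · rintro γ ⟨h3, h4⟩
    exact ⟨nrR_sub h4, extR_sub h3⟩
  · push_cast
    exact Int.floor_le _
  · push_cast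
    exact Int.le_ceil _

/-- **tails**, real distances -/
theorem tail_real {W : Set (ℤ → ℝ)} (h : NearM W) (R0 ε : ℝ) (hε : 0 < ε) : ∃ S : ℝ, 0 < S ∧
    ∀ᶠ N : ℕ in atTop, ∀ u ∈ W, ∀ x : ℤ × ℤ, muU u {γ | ExtR (S * N) γ.1 ∧ NrR (R0 * N) x γ.1} ≤ ENNReal.ofReal ε := by
  obtain ⟨S, hS, N0, h⟩ := tail h R0 ε hε
  refine ⟨S, hS, ?_⟩
  filter_upwards [eventually_ge_atTop N0.toNat] with N hN u hu x
  refine (measure_mono ?_).trans (h u hu N (by omega) x ⌊R0 * N⌋ ⌈S * N⌉ ?_ ?_)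
  · rintro γ ⟨h3, h4⟩
    exact ⟨nrR_sub h4, extR_sub h3⟩
  · push_cast
    exact Int.floor_le _
  · push_cast
    exact Int.le_ceil _

end

end Pool.Agent.ROT.U
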