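import Pool.Agent.ROT.UNearJ
import Pool.Agent.ROT.UNearX
import Pool.Agent.ROT.ULine7

/-!
# ROT, UNIV: the near bounds without hypothesis (helper98, from the line theorem of helper70)
-/

set_option autoImplicit false

namespace Pool.Agent.ROT.U

open Pool.Agent.ROT.X (bA LatJ)

/-- **near bounds for all lattices of the flow** -/
theorem nearB : NearM (LatB bA) := near_lat Ls.line bA_ge bA_le

/-- **near bounds for all lattices of the increment** -/
theorem nearJ : NearM LatJ := near_latj Ls.line

end Pool.Agent.ROT.U
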