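import Pool.Agent.ROT.XDefs

/-!
# UNIV, exact side: literals of the mass rows (helper99)

One member: `δ : VX →₀ Cell`, a loop of `gX j s`; `A1 k j s B g` = the sum of `|weight| * g` over the loops of the box.

* `Abs3` (X5), `Prod6`, `Cmp6` (X6), `NearG`, `MassG`, `EndG` (X7), `TopB` (X8), `SideB`, `MassC` (X9).
* hypothesis of X7, X8: `U.NearM LatJ` (helper98).
-/

set_option autoImplicit false

namespace Pool.Agent.ROT.X

open Pool.Agent.EXL (Wt YB)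
open Pool.Agent.YBC (Dir)
open Pool.Agent.UNI (wR)
open Pool.Agent.ROT.E (Cell IsUn Pt)
open Pool.Agent.ROT.L

noncomputable section

variable {I : Type}

/-! ### one member -/

/-- the weight of one loop -/
def W1X (W : VX → Wt ℝ) (δ : VX →₀ Cell) : ℝ := ∏ v ∈ δ.support, (δ v).wt (W v)

/-- the box -/
def Bx1 (B : ℤ) (δ : VX →₀ Cell) : Prop := ∀ a b : ℤ, δ (some (a, b)) ≠ 0 → |a| ≤ B ∧ |b| ≤ B

open Classical in
/-- **the sum of `|weight| * g` over the loops of the box on `gX j s`** -/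
def A1 (k j s B : ℤ) (g : (VX →₀ Cell) → ℝ) : ℝ :=
  ∑' δ : VX →₀ Cell, if Lp (gX j s) δ ∧ Bx1 B δ then |W1X (WE k j s) δ| * g δ else 0

/-- the same member as a family with one label -/
def fam1 (δ : VX →₀ Cell) : FX Unit := δ.mapRange (fun c _ => c) rfl

/-- the loop uses the region -/
def Us1 (j r : ℤ) (δ : VX →₀ Cell) : Prop := ∃ v ∈ Rg j r, δ v ≠ .o

/-- two cells in columns at distance at least `n` -/
def Big (n : ℤ) (δ : VX →₀ Cell) : Prop := ∃ p q : Pt, δ (some p) ≠ .o ∧ δ (some q) ≠ .o ∧ p.1 + n ≤ q.1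

/-- width or height at least `n` -/
def Ext1 (n : ℤ) (δ : VX →₀ Cell) : Prop :=
  ∃ p q : Pt, δ (some p) ≠ .o ∧ δ (some q) ≠ .o ∧ (p.1 + n ≤ q.1 ∨ p.2 + n ≤ q.2)

/-- a cell in the box of radius `r` around `x` -/
def Vs (x : Pt) (r : ℤ) (δ : VX →₀ Cell) : Prop := ∃ p : Pt, δ (some p) ≠ .o ∧ |p.1 - x.1| ≤ r ∧ |p.2 - x.2| ≤ r

/-- all cells in the columns `≥ k`, in the box of radius `K`, at least `n` columns -/
def Win (k K n : ℤ) (δ : VX →₀ Cell) : Prop := (∀ p : Pt, δ (some p) ≠ .o → k ≤ p.1 ∧ |p.1| ≤ K ∧ |p.2| ≤ K) ∧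
  ∃ p q : Pt, δ (some p) ≠ .o ∧ δ (some q) ≠ .o ∧ p.1 + n ≤ q.1

/-- the size of the coefficients of one member -/
def sz1 (j s : ℤ) (δ : VX →₀ Cell) : ℝ :=
  1 + |cR j s (fam1 δ) ()| + |cL j s (fam1 δ) ()| + |cT j s (fam1 δ) ()| + |cB j s (fam1 δ) ()|

/-- the lattices `E_j` -/
def LatJ : Set (ℤ → ℝ) := {u | ∃ k j : ℤ, k ≤ j ∧ u = latj k j}

/-! ### the rows -/

open Classical in
/-- **X5**: for events which are constant on all classes of the rows of the box and whose members leave the strip -/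
def Abs3 (I : Type) : Prop := ∀ (k j s B : ℤ) (Ev : FX I → Prop), k ≤ j → -B ≤ j → j + 1 ≤ B → -B ≤ s → s ≤ B + 1 →
  (∀ r, |r| ≤ B → Cs j r fun γ => if Ev γ then 1 else 0) →
  (∀ γ, Ev γ → ∀ i, ∃ p : Pt, p.1 ≠ j ∧ p.1 ≠ j + 1 ∧ γ (some p) i ≠ .o) →
  AX k j s B (fun γ => if Ev γ then 1 else 0) ≤ 3 * SX k j (B + 1) B (fun γ => if Ev γ then 1 else 0) ∧
  AX k j s B (fun γ => if Ev γ then 1 else 0) ≤ 3 * SX k j (-B) B (fun γ => if Ev γ then 1 else 0)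

/-- **X6, product** -/
def Prod6 (I : Type) [Fintype I] : Prop := ∃ C : ℝ, 0 < C ∧ ∀ (k j s B : ℤ) (g : I → (VX →₀ Cell) → ℝ), k ≤ j →
  (∀ i δ, 0 ≤ g i δ) → AX k j s B (fun γ => ∏ i, g i (co γ i)) ≤ C * ∏ i, A1 k j s B (g i)

open Classical in
/-- **X6, comparison inside a class** (one member): if every class of `Ev` contains a loop with `P` on the graph of `t'` whose
three cells have a nonzero weight, the mass of `Ev` on the graph of `t` is at most `C` times the mass of `Ev ∧ P` on the graph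
of `t'`. -/
def Cmp6 : Prop := ∃ C : ℝ, 0 < C ∧ ∀ (k j r B : ℤ) (t t' : ℤ) (Ev P : (VX →₀ Cell) → Prop), k ≤ j → |r| ≤ B → -B ≤ j →
  j + 1 ≤ B → (t = r ∨ t = r + 1) → (t' = r ∨ t' = r + 1) →
  (Cs j r fun γ : FX Unit => if Ev (co γ ()) then 1 else 0) →
  (∀ δ, Ev δ → ∃ v, v ∉ Rg j r ∧ δ v ≠ .o) →
  (∀ δ, Lp (gX j t) δ → Ev δ → ∃ δ', Eq6 (Rg j r) (gX j t) (gX j t') (fam1 δ) (fam1 δ') ∧ P δ' ∧
    (δ' none).wt (wR dA) ≠ 0 ∧ ∀ c, c = j ∨ c = j + 1 → (δ' (some (c, r))).wt (WE k j t' (some (c, r))) ≠ 0) →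
  A1 k j t B (fun δ => if Ev δ then 1 else 0) ≤ C * A1 k j t' B (fun δ => if Ev δ ∧ P δ then 1 else 0)

open Classical in
/-- **X7, near**: a large loop uses the region of a row -/
def NearG : Prop := ∀ ε : ℝ, 0 < ε → ∃ N0 : ℤ, ∀ N k j r t B : ℤ, N0 ≤ N → k ≤ j → |r| ≤ B → -B ≤ j → j + 1 ≤ B →
  (t = r ∨ t = r + 1) → A1 k j t B (fun δ => if Big N δ ∧ Us1 j r δ then 1 else 0) ≤ ε

open Classical in
/-- **X7, mass** of the large loops which visit a ball -/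
def MassG : Prop := ∀ d R : ℝ, 0 < d → 0 < R → ∃ C : ℝ, ∃ N0 : ℤ, ∀ N k j r t B : ℤ, ∀ x : Pt, N0 ≤ N → k ≤ j → |r| ≤ B →
  -B ≤ j → j + 1 ≤ B → (t = r ∨ t = r + 1) →
  A1 k j t B (fun δ => if Big ⌊d * N⌋ δ ∧ Vs x ⌊R * N⌋ δ then 1 else 0) ≤ C

open Classical in
/-- **X7, ends**: loops which use the crossing above the top row or below the bottom row of the box -/
def EndG : Prop := ∃ C : ENNReal, C ≠ ⊤ ∧ ∀ (k j B n : ℤ), k ≤ j → -B ≤ j → j + 1 ≤ B → 10 ≤ n →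
  ENNReal.ofReal (A1 k j (B + 1) B fun δ => if δ none ≠ .o ∧ Ext1 n δ then 1 else 0) ≤
    C * U.muU (latj k j) (U.Vis (j, B + 1) 2 ∩ U.Ext n) ∧
  ENNReal.ofReal (A1 k j (-B) B fun δ => if δ none ≠ .o ∧ Ext1 n δ then 1 else 0) ≤
    C * U.muU (latj k (j + 1)) (U.Vis (j, -B - 1) 2 ∩ U.Ext n)

open Classical in
/-- **X8**: top or bottom of a loop (in the honeycomb columns `≥ k`, at least `n` columns) at a given row of the strip -/
def TopB : Prop := ∃ C : ℝ, 0 < C ∧ ∀ k j r t B n : ℤ, k ≤ j → |r| ≤ B → -B ≤ j → j + 1 ≤ B → (t = r ∨ t = r + 1) → 100 ≤ n →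
  2 * (|j| + |r| + n) ≤ B →
  A1 k j t B (fun δ => if (ExT j r (fam1 δ) () ∨ ExB j r (fam1 δ) ()) ∧ Win k B n δ then 1 else 0) ≤ C / (n : ℝ) ^ 2

open Classical in
/-- **X9**: right or left side of a loop at a given row of the strip, with the coefficients -/
def SideB : Prop := ∃ C : ℝ, 0 < C ∧ ∀ k j r t B n : ℤ, k ≤ j → |r| ≤ B → -B ≤ j → j + 1 ≤ B → (t = r ∨ t = r + 1) → 100 ≤ n →
  A1 k j t B (fun δ => if (ExR j r (fam1 δ) () ∨ ExL j r (fam1 δ) ()) ∧ Win k B n δ then sz1 j t δ else 0) ≤ C / (n : ℝ) ^ 2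

open Classical in
/-- **X9, mass with the coefficients**: tracers in a window -/
def MassC : Prop := ∀ η K : ℝ, 0 < η → 0 < K → ∃ C : ℝ, ∃ N0 : ℤ, ∀ N k j r t B : ℤ, N0 ≤ N → k ≤ j → |r| ≤ B →
  -B ≤ j → j + 1 ≤ B → (t = r ∨ t = r + 1) →
  A1 k j t B (fun δ => if Win k ⌊K * N⌋ ⌊η * N⌋ δ then sz1 j t δ else 0) ≤ C

end

end Pool.Agent.ROT.X
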