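import Pool.Agent.ROT.UNear
import Pool.Agent.ROT.XDefs2

/-!
# ROT, UNIV: the near bound for the lattices `latj k j` of the increment (helper98)
-/

set_option autoImplicit false

namespace Pool.Agent.ROT.U

open Pool.Agent.ROT.E (An)
open Pool.Agent.ROT.X (bA hA latj LatJ)

theorem bA_ge : Real.pi / 8 ≤ bA := by
  unfold bA
  linarith [Real.pi_pos]

theorem bA_le : bA ≤ Real.pi / 4 := by
  unfold bA
  linarith [Real.pi_pos]

theorem an_latb {b : ℝ} (hb : Real.pi / 8 ≤ b) (hb' : b ≤ Real.pi / 4) {u : ℤ → ℝ} (hu : u ∈ LatB b) : An u := by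
  rcases hu with rfl | rfl | ⟨k, rfl⟩
  · exact fun _ => ⟨hb, hb'⟩
  · exact an_hc
  · intro j
    unfold lat
    split_ifs
    · exact ⟨hb, hb'⟩
    · exact an_hc j

theorem an_latj (k j : ℤ) : An (latj k j) := by
  intro c
  unfold latj
  split_ifs
  · exact ⟨bA_ge, bA_le⟩
  · unfold hA
    exact an_hc c

/-- **the lattices of the increment**: block on the left and one more column with the angle `b` -/
theorem near_latj (L : Line) : NearM LatJ := by
  have h := near_lat L bA_ge bA_le
  have ha : ∀ u ∈ LatB bA, An u := fun u hu => an_latb bA_ge bA_le hu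
  refine (glue L h h ha ha).mono ?_
  rintro u ⟨k, j, hkj, rfl⟩
  refine ⟨an_latj k j, j, lat bA k, Or.inr (Or.inr ⟨k, rfl⟩), lat bA (j + 1), Or.inr (Or.inr ⟨j + 1, rfl⟩),
    fun c hc => ?_, fun c hc => ?_⟩
  · unfold latj lat hA
    by_cases h1 : c < k
    · rw [if_pos (Or.inl h1), if_pos h1]
    · rw [if_neg (by omega), if_neg h1]
  · unfold latj lat hA
    by_cases h1 : c = j
    · rw [if_pos (Or.inr h1), if_pos (by omega)]
    · rw [if_neg (by omega), if_neg (by omega)]

end Pool.Agent.ROT.U
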