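import Pool.Agent.ROT.UNearDefs
import Pool.Agent.ROT.EHexT
import Pool.Agent.HexLoop.DefsD
import Pool.Agent.HexLoop.Jordan

/-!
# ROT, universality, row ID (helper41): the mass of the honeycomb loops around a point

The oriented polygons of the honeycomb (sets of directed edges, `HexObs.LP.IsPoly`) and the loops of the square lattice at the
honeycomb angle.

* **`nw_sg`** : winding number around the face of the corner `(p, y)` and side of the corner, mod 2;
* **`surr`** : from `LL (PP T M) f0 = (1 / (3 pi)) log T + O(1)`: the mass of the loops around the corner `(1, 0)` in the box of radius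
  `Λ n` and of extent `≥ n` is at least `1 / 2`.
-/

set_option autoImplicit false

namespace Pool.Agent.ROT.UId

open Finset
open HexObs (vs ds vx dx tf xc xc_pos)
open scoped ENNReal
open HexObs.LP (Poly De Vt Fc IsPoly pe eg VE Nw nn lv f0 PP LL polys mem_polys mem_PP)
open Pool.Agent.YBC (Dir)
open Pool.Agent.ROT.E (Cell Pt Cfg io io_eq io_of io_supp)
open Pool.Agent.ROT.E.Hx (Bo Sx ub us HL Ny hs inn st dr rev rt bt lpw Wo wh bk wi CW Os wl)

noncomputable section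

/-! ### the bond of a directed edge -/

/-- the directed edge of a bond -/
def key (f : Bo) : HexObs.Pt × HexObs.Pt := (st f, dr f.2)

lemma key_inj {e f : Bo} (h : key e = key f) : e = f :=
  E.Hx.bo_eq (congrArg Prod.fst h) (congrArg Prod.snd h)

lemma cl_iff (v : HexObs.Pt) : HexObs.cl v = 1 ↔ (v.1 - v.2) % 3 = 1 := by
  unfold HexObs.cl
  have h1 : ((1 : ℤ) : ZMod 3) = 1 := Int.cast_one
  rw [← h1, ZMod.intCast_eq_intCast_iff]
  unfold Int.ModEq
  norm_num

/-- every directed edge is the edge of a bond -/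
lemma ex_bo {v d : HexObs.Pt} (h : De (v, d)) : ∃ e : Bo, st e = v ∧ dr e.2 = d := by
  obtain ⟨h1, h2, h3⟩ := h
  simp only at h1 h2 h3
  unfold Vt at h2 h3
  rw [ne_eq, cl_iff] at h2 h3
  obtain ⟨a, b⟩ := v
  simp only at h2 h3
  have hcase : (a - b) % 3 = 0 ∨ (a - b) % 3 = 2 := by omega
  unfold HexObs.dirs at h1
  simp only [Finset.mem_insert, Finset.mem_singleton] at h1
  rcases hcase with hc | hc
  · obtain ⟨r, hr⟩ : ∃ r : ℤ, a - b = 3 * r := ⟨(a - b) / 3, by omega⟩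
    have hw : wh (a - r, -r) = (a, b) := by
      unfold wh
      refine Prod.ext ?_ ?_
      · show a - r - -r = a
        ring
      · show a - r + 2 * -r = b
        omega
    rcases h1 with rfl | rfl | rfl | rfl | rfl | rfl
    · exfalso
      apply h3
      show (a + 1 - (b + 0)) % 3 = 1
      omega
    · exact ⟨((a - r, -r), .ii), hw, rfl⟩
    · exfalso
      apply h3
      show (a + -1 - (b + 1)) % 3 = 1
      omega
    · exact ⟨((a - r, -r), .ww), hw, rfl⟩
    · exfalso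
      apply h3
      show (a + 0 - (b + -1)) % 3 = 1
      omega
    · exact ⟨((a - r, -r), .ss), hw, rfl⟩
  · obtain ⟨r, hr⟩ : ∃ r : ℤ, a - b = 3 * r + 2 := ⟨(a - b) / 3, by omega⟩
    have hw : bk (a - r - 1, -r - 1) = (a, b) := by
      unfold bk
      refine Prod.ext ?_ ?_
      · show a - r - 1 - (-r - 1) = a
        ring
      · show a - r - 1 + 2 * (-r - 1) + 1 = b
        omega
    rcases h1 with rfl | rfl | rfl | rfl | rfl | rfl
    · exact ⟨((a - r - 1, -r - 1), .ee), hw, rfl⟩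
    · exfalso
      apply h3
      show (a + 0 - (b + 1)) % 3 = 1
      omega
    · exact ⟨((a - r - 1, -r - 1), .nn), hw, rfl⟩
    · exfalso
      apply h3
      show (a + -1 - (b + 0)) % 3 = 1
      omega
    · exact ⟨((a - r - 1, -r - 1), .jj), hw, rfl⟩
    · exfalso
      apply h3
      show (a + 1 - (b + -1)) % 3 = 1
      omega

/-- the directed edges of a word -/
def eW (e : Bo) (t : List Bool) : Finset (HexObs.Pt × HexObs.Pt) := (range t.length).image fun i => key (bt e t i)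

lemma cw_of {e : Bo} {t : List Bool} (h : t ∈ Wo) : CW (st e) (dr e.2) t := (E.Hx.mem_wo e).1 h

lemma card_eW {e : Bo} {t : List Bool} (h : t ∈ Wo) : (eW e t).card = t.length := by
  unfold eW
  rw [Finset.card_image_of_injOn, card_range]
  intro i hi j hj hij
  rw [coe_range, Set.mem_Iio] at hi hj
  have h1 := congrArg Prod.fst hij
  simp only [key, E.Hx.st_bt] at h1
  exact (cw_of h).inj i j hi hj h1

/-- **a polygon with a directed edge is a bond with a closed word** -/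
theorem root_bo {E : Finset (HexObs.Pt × HexObs.Pt)} (hE : IsPoly E) {p : HexObs.Pt × HexObs.Pt} (hp : p ∈ E) :
    ∃ (e : Bo) (t : Wo), key e = p ∧ E = eW e t := by
  obtain ⟨τ, m, h, rfl⟩ := HexObs.LP.root_at hE hp
  obtain ⟨e, he1, he2⟩ := ex_bo (v := p.1) (d := p.2) h.de
  obtain ⟨t, ht⟩ : ∃ t : List Bool, t = (List.range m).map τ := ⟨_, rfl⟩
  have tl : t.length = m := by rw [ht, List.length_map, List.length_range]
  have ttf : ∀ i, i < m → tf t i = τ i := by
    intro i hi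
    have h1 : i < t.length := by rw [tl]; exact hi
    unfold tf
    rw [List.getD_eq_getElem _ _ h1]
    simp only [ht, List.getElem_map, List.getElem_range]
  have tv : ∀ v d : HexObs.Pt, ∀ i, i ≤ m → vx v d t i = vs v d τ i := fun v d i hi =>
    HexObs.vs_congr i fun k hk => ttf k (by omega)
  have td : ∀ d : HexObs.Pt, ∀ i, i ≤ m → dx d t i = ds d τ i := fun d i hi =>
    HexObs.ds_congr i fun k hk => ttf k (by omega)
  have hcw : CW (st e) (dr e.2) t := by
    refine ⟨?_, ?_, ?_, ?_⟩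
    · intro h0
      have h1 := h.pos
      rw [h0, List.length_nil] at tl
      omega
    · rw [tl, he1, he2, tv _ _ _ le_rfl]
      exact h.clv
    · rw [tl, he2, td _ _ le_rfl]
      exact h.cld
    · intro i j hi hj hij
      rw [tl] at hi hj
      rw [he1, he2, tv _ _ _ hi.le, tv _ _ _ hj.le] at hij
      rcases lt_trichotomy i j with h1 | h1 | h1
      · exact absurd hij (h.inj i j h1 hj)
      · exact h1
      · exact absurd hij.symm (h.inj j i h1 hi)
  refine ⟨e, ⟨t, (E.Hx.mem_wo e).2 hcw⟩, Prod.ext he1 he2, ?_⟩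
  unfold pe eW
  rw [tl]
  refine Finset.image_congr fun i hi => ?_
  rw [coe_range, Set.mem_Iio] at hi
  unfold eg key
  rw [E.Hx.st_bt, E.Hx.dr_bt]
  show (vs p.1 p.2 τ i, ds p.2 τ i) = (vx (st e) (dr e.2) t i, dx (dr e.2) t i)
  rw [he1, he2, tv _ _ _ hi.le, td _ _ hi.le]

/-! ### the side and the winding number -/

/-- the side as a sum along a row -/
theorem sg_row {γ : Cfg} (hm : E.Mt γ Set.univ) (p y : ℤ) :
    E.sg γ p y = ∑ v ∈ γ.support, if v.2 = y ∧ v.1 < p then io γ v .S else 0 := by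
  classical
  have hfar : ∃ a : ℤ, ∀ p, p ≤ a → ∀ v ∈ γ.support, p < v.1 := by
    obtain ⟨b, hb⟩ := (γ.support.image fun v => -v.1).bddAbove
    refine ⟨-b - 1, fun p hp v hv => ?_⟩
    have h0 : -v.1 ≤ b := hb (Finset.mem_coe.2 (Finset.mem_image_of_mem (fun v : Pt => -v.1) hv))
    omega
  obtain ⟨a, ha⟩ := hfar
  have hstep : ∀ p, (∑ v ∈ γ.support, if v.2 = y ∧ v.1 < p + 1 then io γ v .S else 0) =
      (∑ v ∈ γ.support, if v.2 = y ∧ v.1 < p then io γ v .S else 0) + io γ (p, y) .S := by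
    intro p
    have h1 : ∀ v : Pt, (if v.2 = y ∧ v.1 < p + 1 then io γ v .S else 0) =
        (if v.2 = y ∧ v.1 < p then io γ v .S else 0) + if v = (p, y) then io γ v .S else 0 := by
      intro v
      by_cases e : v = (p, y)
      · subst e
        simp
      · rw [if_neg e, add_zero]
        have : (v.2 = y ∧ v.1 < p + 1) ↔ (v.2 = y ∧ v.1 < p) := by
          constructor
          · rintro ⟨h1, h2⟩
            refine ⟨h1, ?_⟩
            by_contra h3
            exact e (Prod.ext (by omega) h1)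
          · rintro ⟨h1, h2⟩
            exact ⟨h1, by omega⟩
        simp only [this]
    simp only [h1]
    rw [Finset.sum_add_distrib]
    congr 1
    rw [Finset.sum_ite_eq' γ.support (p, y) (fun v => io γ v .S)]
    by_cases hm' : (p, y) ∈ γ.support
    · rw [if_pos hm']
    · rw [if_neg hm', io_supp hm']
  have key : ∀ n : ℕ, ∀ p : ℤ, p ≤ a + n →
      E.sg γ p y = ∑ v ∈ γ.support, if v.2 = y ∧ v.1 < p then io γ v .S else 0 := by
    intro n
    induction n with
    | zero =>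
      intro p hp
      have hp' : p ≤ a := by simpa using hp
      have h1 : E.sg γ p y = 0 := by
        unfold E.sg
        refine Finset.sum_eq_zero fun v hv => if_neg fun hc => ?_
        have := ha p hp' v hv
        omega
      rw [h1]
      symm
      refine Finset.sum_eq_zero fun v hv => if_neg fun hc => ?_
      have := ha p hp' v hv
      omega
    | succ n ih =>
      intro p hp
      have h1 := ih (p - 1) (by push_cast at hp ⊢; omega)
      have h2 := E.sg_right hm (p - 1) y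
      have h3 := hstep (p - 1)
      rw [sub_add_cancel] at h2 h3
      rw [h3, ← h1, h2]
      have : ∀ a b : ZMod 2, a = a + b + b := by decide
      exact this _ _
  exact key (p - a).toNat p (by
    have := Int.self_le_toNat (p - a)
    omega)

/-- the face of the corner `(p, y)` -/
def fc (p y : ℤ) : HexObs.Pt := (p - y, p + 2 * y - 1)

lemma fc_Fc (p y : ℤ) : Fc (fc p y) := by
  unfold Fc
  rw [cl_iff]
  unfold fc
  simp only
  omega

lemma cr_ss (p y : ℤ) (v : Pt) : HexObs.LP.cr (fc p y) (wh v, (1, -1)) = if v.2 = y ∧ v.1 < p then 1 else 0 := by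
  obtain ⟨v1, v2⟩ := v
  unfold HexObs.LP.cr fc wh HexObs.LP.nn HexObs.LP.lv
  simp only
  by_cases h : v2 = y ∧ v1 < p
  · rw [if_pos h, if_pos ⟨trivial, by omega, by omega⟩]
  · rw [if_neg h, if_neg, if_neg]
    · rintro ⟨h1, -, -⟩
      exact absurd (congrArg Prod.fst h1) (by norm_num)
    · rintro ⟨-, h1, h2⟩
      apply h
      omega

lemma cr_nn (p y : ℤ) (v : Pt) : HexObs.LP.cr (fc p y) (bk v, (-1, 1)) = if v.2 = y - 1 ∧ v.1 < p then -1 else 0 := by
  obtain ⟨v1, v2⟩ := v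
  unfold HexObs.LP.cr fc bk HexObs.LP.nn HexObs.LP.lv
  simp only
  rw [if_neg]
  · by_cases h : v2 = y - 1 ∧ v1 < p
    · rw [if_pos h, if_pos ⟨trivial, by omega, by omega⟩]
    · rw [if_neg h, if_neg]
      rintro ⟨-, h1, h2⟩
      apply h
      omega
  · rintro ⟨h1, -, -⟩
    exact absurd (congrArg Prod.fst h1) (by norm_num)

lemma cr_no {f q d : HexObs.Pt} (h1 : d ≠ (1, -1)) (h2 : d ≠ (-1, 1)) : HexObs.LP.cr f (q, d) = 0 := by
  unfold HexObs.LP.cr
  rw [if_neg fun h => h1 h.1, if_neg fun h => h2 h.1]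

/-- the crossings of the ray of the winding number -/
lemma cr_key (p y : ℤ) (b : Bo) : ((HexObs.LP.cr (fc p y) (key b) : ℤ) : ZMod 2) =
    if ((b.2 = .ss ∧ b.1.2 = y) ∨ (b.2 = .nn ∧ b.1.2 = y - 1)) ∧ b.1.1 < p then 1 else 0 := by
  obtain ⟨v, s⟩ := b
  have hm : ((-1 : ℤ) : ZMod 2) = 1 := by decide
  cases s
  · rw [show key (v, Sx.ww) = (wh v, (-1, 0)) from rfl, cr_no (by decide) (by decide), if_neg, Int.cast_zero]
    rintro ⟨⟨h, -⟩ | ⟨h, -⟩, -⟩ <;> exact Sx.noConfusion h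
  · rw [show key (v, Sx.ss) = (wh v, (1, -1)) from rfl, cr_ss]
    by_cases h : v.2 = y ∧ v.1 < p
    · rw [if_pos h, if_pos ⟨Or.inl ⟨rfl, h.1⟩, h.2⟩, Int.cast_one]
    · rw [if_neg h, if_neg, Int.cast_zero]
      rintro ⟨⟨-, h1⟩ | ⟨h1, -⟩, h2⟩
      · exact h ⟨h1, h2⟩
      · exact Sx.noConfusion h1
  · rw [show key (v, Sx.ii) = (wh v, (0, 1)) from rfl, cr_no (by decide) (by decide), if_neg, Int.cast_zero]
    rintro ⟨⟨h, -⟩ | ⟨h, -⟩, -⟩ <;> exact Sx.noConfusion h
  · rw [show key (v, Sx.ee) = (bk v, (1, 0)) from rfl, cr_no (by decide) (by decide), if_neg, Int.cast_zero]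
    rintro ⟨⟨h, -⟩ | ⟨h, -⟩, -⟩ <;> exact Sx.noConfusion h
  · rw [show key (v, Sx.nn) = (bk v, (-1, 1)) from rfl, cr_nn]
    by_cases h : v.2 = y - 1 ∧ v.1 < p
    · rw [if_pos h, if_pos ⟨Or.inr ⟨rfl, h.1⟩, h.2⟩, hm]
    · rw [if_neg h, if_neg, Int.cast_zero]
      rintro ⟨⟨h1, -⟩ | ⟨-, h1⟩, h2⟩
      · exact Sx.noConfusion h1
      · exact h ⟨h1, h2⟩
  · rw [show key (v, Sx.jj) = (bk v, (0, -1)) from rfl, cr_no (by decide) (by decide), if_neg, Int.cast_zero]
    rintro ⟨⟨h, -⟩ | ⟨h, -⟩, -⟩ <;> exact Sx.noConfusion h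

lemma oc_sp {γ : Cfg} {h : E.He} (ho : E.oc γ h) : h.1 ∈ γ.support :=
  E.Hx.ub_supp (E.Hx.ub_bd.2 ho)

/-- the walk never meets the reverse of its bonds -/
lemma bt_ne {e : Bo} {t : List Bool} (h : t ∈ Wo) {i j : ℕ} (hi : i < t.length) (hj : j < t.length) :
    bt e t j ≠ rev (bt e t i) := by
  have hc := cw_of (e := e) h
  have m := E.Hx.mt_lpw hc
  have y := E.Hx.ny_lpw e t
  have hu : ∀ i, i < t.length → ub (lpw e t) (bt e t i) := fun i hi =>
    (E.Hx.ub_lpw hc _).2 (E.Hx.os_bt hc hi.le)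
  have key : ∀ i j, i < t.length → j < t.length → i ≤ j → bt e t j ≠ rev (bt e t i) := by
    intro i j hi hj hij h2
    have h3 : (E.Hx.nxt (lpw e t))^[j - i] (bt e t i) = bt e t j := by
      rw [← E.Hx.it_lpw hc hi.le, ← Function.iterate_add_apply, Nat.sub_add_cancel hij, E.Hx.it_lpw hc hj.le]
    exact E.Hx.it_ne_rev m y (j - i) (hu i hi) (h3.trans h2)
  rcases le_total i j with h1 | h1
  · exact key i j hi hj h1
  · intro h2
    apply key j i hj hi h1
    rw [h2, E.Hx.rev_rev]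

/-- **the winding number and the side** -/
theorem nw_sg {e : Bo} {t : List Bool} (h : t ∈ Wo) (p y : ℤ) :
    ((Nw (eW e t) (fc p y) : ℤ) : ZMod 2) = E.sg (lpw e t) p y := by
  classical
  have hc := cw_of (e := e) h
  have m := E.Hx.mt_lpw hc
  obtain ⟨B, hB⟩ : ∃ B : Finset Bo, B = (range t.length).image (bt e t) := ⟨_, rfl⟩
  have hEB : eW e t = B.image key := by
    rw [hB, Finset.image_image]
    rfl
  have memB : ∀ b : Bo, b ∈ B ↔ ∃ i, i < t.length ∧ bt e t i = b := fun b => by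
    rw [hB, Finset.mem_image]
    simp only [mem_range]
  rw [sg_row m]
  unfold Nw
  rw [hEB, Finset.sum_image fun a _ b _ hab => key_inj hab, Int.cast_sum]
  simp only [cr_key]
  have e1 : ∀ v : Pt, (if v.2 = y ∧ v.1 < p then io (lpw e t) v .S else 0) =
      if (v.2 = y ∧ v.1 < p) ∧ E.oc (lpw e t) (v, .S) then 1 else 0 := by
    intro v
    unfold io
    by_cases h1 : v.2 = y ∧ v.1 < p
    · by_cases h2 : E.oc (lpw e t) (v, .S)
      · rw [if_pos h1, if_pos h2, if_pos ⟨h1, h2⟩]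
      · rw [if_pos h1, if_neg h2, if_neg fun h => h2 h.2]
    · rw [if_neg h1, if_neg fun h => h1 h.1]
  simp only [e1]
  rw [← Finset.sum_filter, ← Finset.sum_filter, Finset.sum_const, Finset.sum_const]
  congr 1
  have us : ∀ v : Pt, E.oc (lpw e t) (v, .S) ↔ Os e t (v, .ss) := fun v => by
    rw [← E.Hx.ub_lpw hc]
    exact (E.Hx.ub_bd (h := (v, .S))).symm
  refine Finset.card_bij (fun b _ => if b.2 = .ss then b.1 else (b.1.1, b.1.2 + 1)) ?_ ?_ ?_
  · rintro ⟨v, s⟩ hb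
    obtain ⟨h1, h2, h3⟩ := Finset.mem_filter.1 hb
    obtain ⟨i, hi, hbi⟩ := (memB _).1 h1
    rw [Finset.mem_filter]
    rcases h2 with ⟨h4, h5⟩ | ⟨h4, h5⟩
    · simp only at h3 h4 h5
      subst h4
      rw [if_pos rfl]
      have ho : E.oc (lpw e t) (v, .S) := (us v).2 ⟨i, hi, Or.inl hbi.symm⟩
      exact ⟨oc_sp ho, ⟨h5, h3⟩, ho⟩
    · simp only at h3 h4 h5
      subst h4
      rw [if_neg fun hh : Sx.nn = Sx.ss => Sx.noConfusion hh]
      have ho : E.oc (lpw e t) ((v.1, v.2 + 1), .S) := (us _).2 ⟨i, hi, Or.inr (by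
        rw [hbi]
        simp [rev])⟩
      exact ⟨oc_sp ho, ⟨by show v.2 + 1 = y; omega, h3⟩, ho⟩
  · rintro ⟨v, s⟩ hb ⟨v', s'⟩ hb' heq
    obtain ⟨h1, h2, h3⟩ := Finset.mem_filter.1 hb
    obtain ⟨i, hi, hbi⟩ := (memB _).1 h1
    obtain ⟨h1', h2', h3'⟩ := Finset.mem_filter.1 hb'
    obtain ⟨i', hi', hbi'⟩ := (memB _).1 h1'
    simp only at h2 h2' h3 h3' heq
    rcases h2 with ⟨h4, h5⟩ | ⟨h4, h5⟩ <;> rcases h2' with ⟨h4', h5'⟩ | ⟨h4', h5'⟩ <;> subst h4 <;> subst h4'
    · rw [if_pos rfl, if_pos rfl] at heq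
      rw [heq]
    · exfalso
      rw [if_pos rfl, if_neg fun hh : Sx.nn = Sx.ss => Sx.noConfusion hh] at heq
      apply bt_ne h hi' hi (e := e)
      rw [hbi, hbi', heq]
      simp [rev]
    · exfalso
      rw [if_neg fun hh : Sx.nn = Sx.ss => Sx.noConfusion hh, if_pos rfl] at heq
      apply bt_ne h hi hi' (e := e)
      rw [hbi, hbi', ← heq]
      simp [rev]
    · rw [if_neg fun hh : Sx.nn = Sx.ss => Sx.noConfusion hh, if_neg fun hh : Sx.nn = Sx.ss => Sx.noConfusion hh] at heq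
      have e1 := congrArg Prod.fst heq
      have e2 := congrArg Prod.snd heq
      simp only at e1 e2
      have e3 : v = v' := Prod.ext e1 (by omega)
      rw [e3]
  · intro v hv
    obtain ⟨h1, ⟨h2, h3⟩, h4⟩ := Finset.mem_filter.1 hv
    obtain ⟨i, hi, h5 | h5⟩ := (us v).1 h4
    · refine ⟨(v, .ss), Finset.mem_filter.2 ⟨(memB _).2 ⟨i, hi, h5.symm⟩, Or.inl ⟨rfl, h2⟩, h3⟩, ?_⟩
      rw [if_pos rfl]
    · have e3 : bt e t i = ((v.1, v.2 - 1), .nn) := h5.symm
      refine ⟨((v.1, v.2 - 1), .nn), Finset.mem_filter.2 ⟨(memB _).2 ⟨i, hi, e3⟩, Or.inr ⟨rfl, ?_⟩, h3⟩, ?_⟩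
      · show v.2 - 1 = y - 1
        omega
      · rw [if_neg fun hh : Sx.nn = Sx.ss => Sx.noConfusion hh]
        refine Prod.ext rfl ?_
        show v.2 - 1 + 1 = v.2
        omega

/-! ### boxes -/

lemma vt_st (b : Bo) : Vt (st b) := by
  unfold Vt
  rw [ne_eq, cl_iff]
  unfold st
  by_cases h : wi b.2
  · rw [if_pos h]
    unfold wh
    simp only
    omega
  · rw [if_neg h]
    unfold bk
    simp only
    omega

/-- the start of every used bond is a vertex of the polygon -/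
lemma st_mem {e : Bo} {t : List Bool} (h : t ∈ Wo) {f : Bo} (hf : ub (lpw e t) f) : st f ∈ VE (eW e t) := by
  have hc := cw_of (e := e) h
  have hmem : ∀ i, i ≤ t.length → st (bt e t i) ∈ VE (eW e t) := by
    have h1 : ∀ i, i < t.length → st (bt e t i) ∈ VE (eW e t) := fun i hi => by
      unfold VE eW
      rw [Finset.mem_image]
      exact ⟨key (bt e t i), Finset.mem_image.2 ⟨i, mem_range.2 hi, rfl⟩, rfl⟩
    intro i hi
    rcases lt_or_eq_of_le hi with h2 | h2
    · exact h1 i h2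
    · rw [h2, E.Hx.bt_len hc]
      have h3 : 0 < t.length := List.length_pos_iff.2 hc.ne
      exact h1 0 h3
  obtain ⟨i, hi, h1 | h1⟩ := (E.Hx.ub_lpw hc f).1 hf
  · rw [h1]
    exact hmem i hi.le
  · have h2 : f = rev (bt e t i) := by rw [← h1, E.Hx.rev_rev]
    have h3 : st f = st (bt e t (i + 1)) := by
      rw [h2, E.Hx.st_rev]
      exact (E.Hx.st_tb _ _).symm
    rw [h3]
    exact hmem (i + 1) hi

/-- the cells of a loop in a box -/
lemma in_box {e : Bo} {t : List Bool} (h : t ∈ Wo) {m : ℕ} (hm : VE (eW e t) ⊆ PP m m) {v : Pt}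
    (hv : lpw e t v ≠ 0) : |v.2| ≤ m ∧ |v.1 + v.2| ≤ m := by
  obtain ⟨s, hs⟩ := E.Hx.ex_us (c := lpw e t v) hv
  have h1 := hm (st_mem h (f := (v, s)) hs)
  rw [mem_PP] at h1
  obtain ⟨-, h2, h3⟩ := h1
  rw [abs_lt] at h2 h3
  unfold st wh bk HexObs.LP.lv at h2
  unfold st wh bk HexObs.LP.nn at h3
  obtain ⟨v1, v2⟩ := v
  by_cases hw : wi s
  · simp only [hw, if_true] at h2 h3
    rw [abs_le, abs_le]
    constructor <;> constructor <;> omega
  · simp only [hw, if_false, Bool.false_eq_true] at h2 h3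
    rw [abs_le, abs_le]
    constructor <;> constructor <;> omega

/-- a cell out of the box -/
lemma out_box {e : Bo} {t : List Bool} (h : t ∈ Wo) {m : ℕ} (hm : ¬ VE (eW e t) ⊆ PP m m) :
    ∃ v : Pt, lpw e t v ≠ 0 ∧ ((m : ℤ) ≤ |v.2| + 1 ∨ (m : ℤ) ≤ |v.1 + v.2| + 1) := by
  have hc := cw_of (e := e) h
  obtain ⟨w, hw, hw'⟩ := Finset.not_subset.1 hm
  unfold VE eW at hw
  obtain ⟨q, hq, rfl⟩ := Finset.mem_image.1 hw
  obtain ⟨i, hi, rfl⟩ := Finset.mem_image.1 hq
  rw [mem_range] at hi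
  obtain ⟨b, hb⟩ : ∃ b, b = bt e t i := ⟨_, rfl⟩
  rw [← hb] at hw'
  have hu : ub (lpw e t) b := by
    rw [hb]
    exact (E.Hx.ub_lpw hc _).2 (E.Hx.os_bt hc hi.le)
  obtain ⟨v, s⟩ := b
  refine ⟨v, Finsupp.mem_support_iff.1 (E.Hx.ub_supp hu), ?_⟩
  by_contra hcon
  rw [not_or, not_le, not_le] at hcon
  obtain ⟨h1, h2⟩ := hcon
  apply hw'
  show st (v, s) ∈ PP m m
  rw [mem_PP]
  refine ⟨vt_st _, ?_⟩
  have h3 : -(m : ℤ) + 1 < v.2 ∧ v.2 < m - 1 := by
    have := abs_lt.1 (show |v.2| < (m : ℤ) - 1 by omega)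
    constructor <;> omega
  have h4 : -(m : ℤ) + 1 < v.1 + v.2 ∧ v.1 + v.2 < m - 1 := by
    have := abs_lt.1 (show |v.1 + v.2| < (m : ℤ) - 1 by omega)
    constructor <;> omega
  rw [abs_lt, abs_lt]
  unfold st wh bk HexObs.LP.lv HexObs.LP.nn
  obtain ⟨v1, v2⟩ := v
  simp only at h3 h4
  by_cases hw : wi s
  · simp only [hw, if_true]
    constructor <;> constructor <;> omega
  · simp only [hw, if_false, Bool.false_eq_true]
    constructor <;> constructor <;> omega

/-- the loops around the corner `(1, 0)`, in the box of radius `M`, with a cell at distance about `T` -/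
def Sur (T M : ℕ) : Set Cfg := {γ | E.sg γ 1 0 = 1 ∧ (∀ v : Pt, γ v ≠ 0 → |v.2| ≤ M ∧ |v.1 + v.2| ≤ M) ∧
  ∃ v : Pt, γ v ≠ 0 ∧ ((T : ℤ) ≤ |v.2| + 1 ∨ (T : ℤ) ≤ |v.1 + v.2| + 1)}

open Classical in
/-- **the mass of the loops around a point, at a scale** -/
theorem surr (hL : ∃ C : ℝ, ∀ T M : ℕ, 1 ≤ T → T ≤ M → |LL (PP T M) f0 - 1 / (3 * Real.pi) * Real.log T| ≤ C) :
    ∃ L : ℕ, 1 ≤ L ∧ ∀ T : ℕ, 1 ≤ T → 2⁻¹ ≤ ∑' γ : {γ : Cfg // HL γ}, (if γ.1 ∈ Sur T (L * T) then wl γ.1 else 0) := by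
  obtain ⟨C, hC⟩ := hL
  have hpi := Real.pi_pos
  -- the ratio of the boxes
  obtain ⟨L, hL1, hL2⟩ : ∃ L : ℕ, 1 ≤ L ∧ 2 * C + 1 ≤ 1 / (3 * Real.pi) * Real.log L := by
    have h1 : Filter.Tendsto (fun n : ℕ => 1 / (3 * Real.pi) * Real.log n) Filter.atTop Filter.atTop :=
      (Real.tendsto_log_atTop.comp tendsto_natCast_atTop_atTop).const_mul_atTop (by positivity)
    obtain ⟨L, h2, h3⟩ := ((Filter.tendsto_atTop.1 h1 (2 * C + 1)).and (Filter.eventually_ge_atTop 1)).exists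
    exact ⟨L, h3, h2⟩
  refine ⟨L, hL1, fun T hT => ?_⟩
  have hLT : T ≤ L * T := Nat.le_mul_of_pos_left T hL1
  have hLT1 : 1 ≤ L * T := hT.trans hLT
  -- the polygons
  obtain ⟨S, hS⟩ : ∃ S : Finset (Finset (HexObs.Pt × HexObs.Pt)),
    S = ((polys (PP (L * T) (L * T))).filter fun E => Nw E f0 ≠ 0).filter fun E => ¬ VE E ⊆ PP T T := ⟨_, rfl⟩
  have memS : ∀ E, E ∈ S → IsPoly E ∧ VE E ⊆ PP (L * T) (L * T) ∧ Nw E f0 ≠ 0 ∧ ¬ VE E ⊆ PP T T := by
    intro E hE
    rw [hS, Finset.mem_filter, Finset.mem_filter, mem_polys] at hE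
    exact ⟨hE.1.1.1, hE.1.1.2, hE.1.2, hE.2⟩
  have sumS : 1 ≤ ∑ E ∈ S, xc ^ E.card := by
    have h1 : ∑ E ∈ ((polys (PP (L * T) (L * T))).filter fun E => Nw E f0 ≠ 0), xc ^ E.card =
        (∑ E ∈ ((polys (PP (L * T) (L * T))).filter fun E => Nw E f0 ≠ 0).filter fun E => VE E ⊆ PP T T, xc ^ E.card) +
        ∑ E ∈ S, xc ^ E.card := by
      rw [hS]
      exact (Finset.sum_filter_add_sum_filter_not _ _ _).symm
    have h2 : (∑ E ∈ ((polys (PP (L * T) (L * T))).filter fun E => Nw E f0 ≠ 0).filter fun E => VE E ⊆ PP T T,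
        xc ^ E.card) ≤ ∑ E ∈ ((polys (PP T T)).filter fun E => Nw E f0 ≠ 0), xc ^ E.card := by
      refine Finset.sum_le_sum_of_subset_of_nonneg (fun E hE => ?_) fun E _ _ => (pow_pos xc_pos _).le
      rw [Finset.mem_filter, Finset.mem_filter, mem_polys] at hE
      rw [Finset.mem_filter, mem_polys]
      exact ⟨⟨hE.1.1.1, hE.2⟩, hE.1.2⟩
    have h3 := (abs_le.1 (hC (L * T) (L * T) hLT1 le_rfl)).1
    have h4 := (abs_le.1 (hC T T hT le_rfl)).2
    have e3 : LL (PP (L * T) (L * T)) f0 = ∑ E ∈ ((polys (PP (L * T) (L * T))).filter fun E => Nw E f0 ≠ 0), xc ^ E.card := by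
      unfold LL
      exact Finset.sum_congr (Finset.filter_congr_decidable _ _ _).symm fun _ _ => rfl
    have e4 : LL (PP T T) f0 = ∑ E ∈ ((polys (PP T T)).filter fun E => Nw E f0 ≠ 0), xc ^ E.card := by
      unfold LL
      exact Finset.sum_congr (Finset.filter_congr_decidable _ _ _).symm fun _ _ => rfl
    have hlog : Real.log ((L * T : ℕ) : ℝ) = Real.log L + Real.log T := by
      push_cast
      exact Real.log_mul (by exact_mod_cast (by omega : L ≠ 0)) (by exact_mod_cast (by omega : T ≠ 0))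
    rw [hlog, mul_add] at h3
    rw [e3, h1] at h3
    rw [e4] at h4
    linarith
  have hcard : ∀ E ∈ S, E.card ≠ 0 := by
    intro E hE h0
    obtain ⟨v, d, τ, m, h1, h2⟩ := (memS E hE).1
    have h3 : eg v d τ 0 ∈ E := by
      rw [h2]
      exact Finset.mem_image.2 ⟨0, mem_range.2 h1.pos, rfl⟩
    rw [Finset.card_eq_zero] at h0
    rw [h0] at h3
    exact absurd h3 (Finset.notMem_empty _)
  -- the bond and the word of a polygon with an edge
  obtain ⟨y0⟩ : Nonempty (Bo × Wo) := by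
    have h1 : S.Nonempty := by
      by_contra h2
      rw [Finset.not_nonempty_iff_eq_empty] at h2
      rw [h2, Finset.sum_empty] at sumS
      linarith
    obtain ⟨E, hE⟩ := h1
    obtain ⟨p, hp⟩ := Finset.card_pos.1 (Nat.pos_of_ne_zero (hcard E hE))
    obtain ⟨e, t, -, -⟩ := root_bo (memS E hE).1 hp
    exact ⟨(e, t)⟩
  have hch : ∀ x : (Σ _ : Finset (HexObs.Pt × HexObs.Pt), HexObs.Pt × HexObs.Pt), ∃ y : Bo × Wo,
      x.1 ∈ S → x.2 ∈ x.1 → key y.1 = x.2 ∧ x.1 = eW y.1 y.2 := by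
    rintro ⟨E, p⟩
    by_cases h : E ∈ S ∧ p ∈ E
    · obtain ⟨e, t, h1, h2⟩ := root_bo (memS E h.1).1 h.2
      exact ⟨(e, t), fun _ _ => ⟨h1, h2⟩⟩
    · exact ⟨y0, fun h1 h2 => absurd ⟨h1, h2⟩ h⟩
  choose J hJ using hch
  obtain ⟨F, hF⟩ : ∃ F : Cfg → ℝ≥0∞, F = fun γ => if γ ∈ Sur T (L * T) then ((hs γ).card : ℝ≥0∞)⁻¹ else 0 := ⟨_, rfl⟩
  have hsum : (1 : ℝ≥0∞) ≤ ∑ E ∈ S, ENNReal.ofReal (xc ^ E.card) := by
    rw [← ENNReal.ofReal_sum_of_nonneg fun E _ => (pow_pos xc_pos _).le]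
    rw [← ENNReal.ofReal_one]
    exact ENNReal.ofReal_le_ofReal sumS
  have hspl : ∑ E ∈ S, ENNReal.ofReal (xc ^ E.card) =
      ∑ x ∈ S.sigma fun E => E, ENNReal.ofReal (xc ^ x.1.card) * (x.1.card : ℝ≥0∞)⁻¹ := by
    rw [Finset.sum_sigma]
    refine Finset.sum_congr rfl fun E hE => ?_
    simp only
    rw [Finset.sum_const, nsmul_eq_mul, mul_comm (ENNReal.ofReal _), ← mul_assoc,
      ENNReal.mul_inv_cancel (by exact_mod_cast hcard E hE) (ENNReal.natCast_ne_top _), one_mul]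
  have hle : ∀ x ∈ S.sigma fun E => E, ENNReal.ofReal (xc ^ x.1.card) * (x.1.card : ℝ≥0∞)⁻¹ =
      HexObs.wE ((J x).2 : List Bool) * F (lpw (J x).1 (J x).2) := by
    intro x hx
    rw [Finset.mem_sigma] at hx
    obtain ⟨h1, h2⟩ := hJ x hx.1 hx.2
    obtain ⟨k1, k2, k3, k4⟩ := memS x.1 hx.1
    have ht := (J x).2.2
    have hc : x.1.card = ((J x).2 : List Bool).length := by rw [h2, card_eW ht]
    have hh : (hs (lpw (J x).1 (J x).2)).card = x.1.card := by rw [E.Hx.card_lpw ht, hc]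
    have hA : lpw (J x).1 (J x).2 ∈ Sur T (L * T) := by
      refine ⟨?_, fun v hv => ?_, ?_⟩
      · have h3 := nw_sg (e := (J x).1) ht 1 0
        have h4 : fc 1 0 = f0 := by
          unfold fc f0
          norm_num
        rw [h4, ← h2] at h3
        rw [← h3]
        rcases HexObs.LP.Nw_cases k1 (h4 ▸ fc_Fc 1 0) with h5 | h5
        · exact absurd h5 k3
        · rw [h5]
          rcases HexObs.LP.sg_cases x.1 with h6 | h6
          · rw [h6]
            exact Int.cast_one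
          · rw [h6]
            decide
      · rw [h2] at k2
        exact in_box ht k2 hv
      · rw [h2] at k4
        exact out_box ht k4
    rw [hF]
    simp only
    rw [if_pos hA, hh, hc]
    rfl
  have hinj : Set.InjOn J (S.sigma fun E => E : Finset _) := by
    intro x hx x' hx' heq
    rw [Finset.mem_coe, Finset.mem_sigma] at hx hx'
    obtain ⟨h1, h2⟩ := hJ x hx.1 hx.2
    obtain ⟨h1', h2'⟩ := hJ x' hx'.1 hx'.2
    rw [heq] at h1 h2
    obtain ⟨E, p⟩ := x
    obtain ⟨E', p'⟩ := x'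
    simp only at h1 h2 h1' h2'
    have e1 : E = E' := h2.trans h2'.symm
    have e2 : p = p' := h1.symm.trans h1'
    rw [e1, e2]
  have hmain : (1 : ℝ≥0∞) ≤ ∑' e : Bo, ∑' t : Wo, HexObs.wE t * F (lpw e t) := by
    rw [← ENNReal.tsum_prod (f := fun (e : Bo) (t : Wo) => HexObs.wE t * F (lpw e t))]
    refine hsum.trans ?_
    rw [hspl, Finset.sum_congr rfl hle, ← Finset.sum_image (f := fun y : Bo × Wo => HexObs.wE (y.2 : List Bool) *
      F (lpw y.1 y.2)) (g := J) fun x hx x' hx' h => hinj hx hx' h]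
    exact ENNReal.sum_le_tsum _
  rw [← E.Hx.sum_loop F] at hmain
  have hup : ∑' γ : {γ : Cfg // HL γ}, 2 * ((hs γ.1).card : ℝ≥0∞) * (wl γ.1 * F γ.1) ≤
      2 * ∑' γ : {γ : Cfg // HL γ}, (if γ.1 ∈ Sur T (L * T) then wl γ.1 else 0) := by
    rw [← ENNReal.tsum_mul_left]
    refine ENNReal.tsum_le_tsum fun γ => ?_
    rw [hF]
    simp only
    by_cases h : γ.1 ∈ Sur T (L * T)
    · rw [if_pos h, if_pos h]
      calc 2 * ((hs γ.1).card : ℝ≥0∞) * (wl γ.1 * ((hs γ.1).card : ℝ≥0∞)⁻¹) =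
          2 * (wl γ.1 * (((hs γ.1).card : ℝ≥0∞) * ((hs γ.1).card : ℝ≥0∞)⁻¹)) := by ring
        _ ≤ 2 * (wl γ.1 * 1) := by
            gcongr
            exact ENNReal.mul_inv_le_one _
        _ = 2 * wl γ.1 := by rw [mul_one]
    · rw [if_neg h, mul_zero, mul_zero]
      exact zero_le
  have h3 := hmain.trans hup
  rw [ENNReal.inv_le_iff_le_mul (by simp) (by simp)]
  exact h3

end

end Pool.Agent.ROT.UId
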