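import Mathlib

/-!
# Polygons on the square lattice with Yang–Baxter weights and self-avoiding polygons of the honeycomb lattice:
the definitions (helper42)

Everything used in the statement of the universality theorem, from Mathlib only.

* The **square lattice** is `ℤ²` (vertex `(a, b)` at the point `a + b i`).  A polygon may visit a vertex twice, but it never
  crosses itself: it is given by the local state of every vertex.  Weights: `uS` for a turn, `vS` for a straight
  passage, `wS` for a vertex with two turns (the integrable weights of Nienhuis for loop weight `0` and the angle `π/2`).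
* The **honeycomb lattice** has two vertices `(a, b, false)`, `(a, b, true)` in the cell `(a, b)`.  A polygon is a finite connected
  subgraph with all degrees `2`; its weight is `x_c ^ (number of vertices)`, `x_c = 1 / √(2 + √2)`.
  Embedding: unit distance between the centres of neighbouring faces; the face `(a, b)` has the centre
  `a e^{iπ/6} + b i`, the vertex `(a, b, s)` is the point `(a + (1 + s)/3) e^{iπ/6} + (b + (1 + s)/3) i`.
-/

set_option autoImplicit false

namespace Pool.Agent.ROT.UPub

open scoped Classical in
/-- the parity of the number of `k` with `p k` is odd -/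
def OddMany (p : ℕ → Prop) : Prop := Odd {k : ℕ | p k}.ncard

/-! ### the square lattice -/

/-- the sides of a vertex: east, north, west, south -/
inductive Side
  | E | N | W | S
  deriving DecidableEq, Fintype

/-- the local states of a vertex: not visited; a straight passage, horizontal or vertical; one turn, between the two sides
in the name; two turns which touch at the vertex: `x` = `sw` and `ne`, `y` = `se` and `nw` -/
inductive State
  | o | h | v | sw | ne | se | nw | x | y
  deriving DecidableEq, Fintype

instance : Zero State := ⟨.o⟩

/-- the opposite side -/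
def Side.opp : Side → Side
  | .E => .W
  | .N => .S
  | .W => .E
  | .S => .N

/-- the neighbour of the vertex `v` at the side `d` -/
def nbr (v : ℤ × ℤ) : Side → ℤ × ℤ
  | .E => (v.1 + 1, v.2)
  | .N => (v.1, v.2 + 1)
  | .W => (v.1 - 1, v.2)
  | .S => (v.1, v.2 - 1)

/-- the side joined to the side `d` by a passage through the vertex (`d` itself if no passage uses the side `d`) -/
def State.join : State → Side → Side
  | .h, .E => .W
  | .h, .W => .E
  | .v, .N => .S
  | .v, .S => .N
  | .sw, .S => .W
  | .sw, .W => .S
  | .ne, .N => .E
  | .ne, .E => .N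
  | .se, .S => .E
  | .se, .E => .S
  | .nw, .N => .W
  | .nw, .W => .N
  | .x, .S => .W
  | .x, .W => .S
  | .x, .N => .E
  | .x, .E => .N
  | .y, .S => .E
  | .y, .E => .S
  | .y, .N => .W
  | .y, .W => .N
  | _, d => d

/-- configurations: a local state at every vertex, finitely many vertices are visited -/
abbrev Config := (ℤ × ℤ) →₀ State

/-- the half edge at the vertex `a.1`, side `a.2`, is used -/
def used (c : Config) (a : (ℤ × ℤ) × Side) : Prop := (c a.1).join a.2 ≠ a.2

/-- two used half edges joined by a passage through a vertex or forming an edge -/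
def link (c : Config) (a b : (ℤ × ℤ) × Side) : Prop :=
  used c a ∧ (b = (a.1, (c a.1).join a.2) ∨ b = (nbr a.1 a.2, a.2.opp))

/-- **a polygon of the square lattice**: not empty, the two halves of every edge fit, and it is one closed path -/
structure SqPol (c : Config) : Prop where
  ne : c ≠ 0
  fit : ∀ (v : ℤ × ℤ) (d : Side), used c (v, d) ↔ used c (nbr v d, d.opp)
  conn : ∀ a b : (ℤ × ℤ) × Side, used c a → used c b → Relation.EqvGen (link c) a b

/-- the weight of a turn, `0.4084…` -/
noncomputable def uS : ℝ := Real.sin (Real.pi / 4) * Real.sin (3 * Real.pi / 16) / Real.cos (Real.pi / 16) ^ 2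

/-- the weight of a straight passage, `0.3209…` -/
noncomputable def vS : ℝ := Real.sin (3 * Real.pi / 16) ^ 2 / Real.cos (Real.pi / 16) ^ 2

/-- the weight of a vertex with two turns, `0.1127…` -/
noncomputable def wS : ℝ := Real.sin (Real.pi / 16) * Real.sin (3 * Real.pi / 16) / Real.cos (Real.pi / 16) ^ 2

/-- the weight of a local state -/
noncomputable def State.wt : State → ℝ
  | .o => 1
  | .h => vS
  | .v => vS
  | .sw => uS
  | .ne => uS
  | .se => uS
  | .nw => uS
  | .x => wS
  | .y => wS

/-- the weight of a configuration: the product over the visited vertices -/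
noncomputable def sqWt (c : Config) : ℝ := c.prod fun _ s => s.wt

/-- the face `f` of the square lattice, with the centre `f - (1/2, 1/2)`, is surrounded: the vertical ray upwards from the centre
crosses an odd number of edges of the polygon (the crossed edge at the height `f.2 + k` is the west side of the vertex
`(f.1, f.2 + k)`) -/
def SqIn (c : Config) (f : ℤ × ℤ) : Prop := OddMany fun k => used c ((f.1, f.2 + k), .W)

/-- the face near `N z` -/
noncomputable def sqFace (N : ℕ) (z : ℂ) : ℤ × ℤ := (⌊(N : ℝ) * z.re⌋, ⌊(N : ℝ) * z.im⌋)

open scoped Classical in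
/-- the term of the polygon `c` in `Psq` -/
noncomputable def sqTerm {m : ℕ} (τ : Fin m → Bool) (f : Fin m → ℤ × ℤ) (c : Config) : ℝ :=
  if SqPol c ∧ ∀ i, (SqIn c (f i) ↔ τ i = true) then sqWt c else 0

/-- **square lattice**: the mass of the polygons which surround exactly the faces `f i` with `τ i = true` -/
noncomputable def Psq {m : ℕ} (τ : Fin m → Bool) (f : Fin m → ℤ × ℤ) : ℝ := ∑' c : Config, sqTerm τ f c

/-! ### the honeycomb lattice -/

/-- the bond from the vertex `true` of a cell to the vertex `false` of the same cell, of the cell on the right, of the cell above -/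
def Bond (a b : ℤ × ℤ × Bool) : Prop :=
  a.2.2 = true ∧ b.2.2 = false ∧ ((b.1 = a.1 ∧ b.2.1 = a.2.1) ∨ (b.1 = a.1 + 1 ∧ b.2.1 = a.2.1) ∨ (b.1 = a.1 ∧ b.2.1 = a.2.1 + 1))

/-- **the honeycomb lattice** -/
def honey : SimpleGraph (ℤ × ℤ × Bool) := SimpleGraph.fromRel Bond

/-- **a self-avoiding polygon of the honeycomb lattice**: a finite connected subgraph with all degrees `2` -/
structure HexPol (P : honey.Subgraph) : Prop where
  fin : P.verts.Finite
  conn : P.Connected
  deg : ∀ v ∈ P.verts, (P.neighborSet v).ncard = 2

/-- the critical fugacity -/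
noncomputable def xC : ℝ := 1 / Real.sqrt (2 + Real.sqrt 2)

/-- the face `f` of the honeycomb lattice is surrounded: the vertical ray upwards from its centre crosses an odd number of bonds of the
polygon (the crossed bonds are `(f.1 - 1, f.2 + k, true) – (f.1, f.2 + k, false)`) -/
def HexIn (P : honey.Subgraph) (f : ℤ × ℤ) : Prop :=
  OddMany fun k => P.Adj (f.1 - 1, f.2 + k, true) (f.1, f.2 + k, false)

/-- the face near `N z`: `z = s e^{iπ/6} + t i` for `s = (2/√3) Re z`, `t = Im z - Re z / √3` -/
noncomputable def hexFace (N : ℕ) (z : ℂ) : ℤ × ℤ :=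
  (⌊(N : ℝ) * (2 / Real.sqrt 3 * z.re)⌋, ⌊(N : ℝ) * (z.im - z.re / Real.sqrt 3)⌋)

open scoped Classical in
/-- the term of the subgraph `P` in `Phex` -/
noncomputable def hexTerm {m : ℕ} (τ : Fin m → Bool) (f : Fin m → ℤ × ℤ) (P : honey.Subgraph) : ℝ :=
  if HexPol P ∧ ∀ i, (HexIn P (f i) ↔ τ i = true) then xC ^ P.verts.ncard else 0

/-- **honeycomb lattice**: the mass of the self-avoiding polygons which surround exactly the faces `f i` with `τ i = true` -/
noncomputable def Phex {m : ℕ} (τ : Fin m → Bool) (f : Fin m → ℤ × ℤ) : ℝ := ∑' P : honey.Subgraph, hexTerm τ f P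

/-- at least two points inside and at least one outside -/
def Proper {m : ℕ} (τ : Fin m → Bool) : Prop := (∃ i j, i ≠ j ∧ τ i = true ∧ τ j = true) ∧ ∃ k, τ k = false

end Pool.Agent.ROT.UPub
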