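import Pool.Agent.ROT.UPubD

/-!
# Universality and rotation invariance of the critical polygons: the statement (helper53)

`PubU`: the polygons of the square lattice with the integrable weights and the self-avoiding polygons of the honeycomb lattice have
asymptotically the same masses of all inside / outside patterns of faces, and these are invariant under all rotations.
-/

set_option autoImplicit false

namespace Pool.Agent.ROT.UPub

/-- the points are in the disc of radius `R` and have mutual distances at least `d` -/
def Sep {m : ℕ} (R d : ℝ) (z : Fin m → ℂ) : Prop := (∀ i, ‖z i‖ ≤ R) ∧ ∀ i j, i ≠ j → d ≤ ‖z i - z j‖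

/-- the mass of the polygons of the square lattice of mesh `1 / N` with the pattern `τ` at the points `z` -/
noncomputable def PS {m : ℕ} (τ : Fin m → Bool) (N : ℕ) (z : Fin m → ℂ) : ℝ := Psq τ fun i => sqFace N (z i)

/-- the mass of the polygons of the honeycomb lattice of mesh `1 / N` with the pattern `τ` at the points `z` -/
noncomputable def PH {m : ℕ} (τ : Fin m → Bool) (N : ℕ) (z : Fin m → ℂ) : ℝ := Phex τ fun i => hexFace N (z i)

/-- **universality and rotation invariance of the critical polygons**.

For every pattern `τ` with at least two points inside and one outside, uniformly over all points in a disc with mutual distances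
at least `d`: (1) the masses are convergent sums; (2) the masses of the two lattices have the difference `o(1)`; (3) they are
invariant under all rotations up to `o(1)`; (4) they are bounded; (5) for two points inside and one outside they are not small. -/
def PubU : Prop :=
  (∀ (m : ℕ) (τ : Fin m → Bool), Proper τ → ∀ R d ε : ℝ, 0 < d → 0 < ε → ∃ N₀ : ℕ, ∀ N : ℕ, N₀ ≤ N → ∀ z : Fin m → ℂ,
    Sep R d z →
      Summable (sqTerm τ fun i => sqFace N (z i)) ∧ Summable (hexTerm τ fun i => hexFace N (z i)) ∧
      |PS τ N z - PH τ N z| ≤ ε ∧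
      ∀ w : ℂ, ‖w‖ = 1 → |PS τ N (fun i => w * z i) - PS τ N z| ≤ ε ∧ |PH τ N (fun i => w * z i) - PH τ N z| ≤ ε) ∧
  (∀ (m : ℕ) (τ : Fin m → Bool), Proper τ → ∀ R d : ℝ, 0 < d → ∃ (C : ℝ) (N₀ : ℕ), ∀ N : ℕ, N₀ ≤ N → ∀ z : Fin m → ℂ,
    Sep R d z → PS τ N z ≤ C) ∧
  ∃ (c R d : ℝ) (N₀ : ℕ), 0 < c ∧ 0 < d ∧ ∀ N : ℕ, N₀ ≤ N → ∃ z : Fin 3 → ℂ, Sep R d z ∧ c ≤ PS ![true, true, false] N z

end Pool.Agent.ROT.UPub
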