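import Pool.Agent.ROT.URotB
import Pool.Agent.ROT.UPubP
import Pool.Agent.ROT.UIdF41
import Pool.Agent.ROT.UOutF41

/-!
# ROT, UNIV: the public statement from the comparison of the lattices (helper53)

**`pubU_of`** : the two sums of the public definitions are the masses of block E (`psq_eq`, `phex_eq`), the comparison of the two
lattices, the near bound, the rotation invariance of the smeared functions of the honeycomb ⇒ `PubU`.
-/

set_option autoImplicit false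

namespace Pool.Agent.ROT.UPub

open MeasureTheory Filter Topology
open Pool.Agent.ROT.I (PP PBd sc e1 e2 cx cy)
open Pool.Agent.ROT.URt
open Pool.Agent.ROT.U (hc muU MU NearM)
open Pool.Agent.ROT.UId (Pu Pat Equi Dz tz Pos3 pz)

noncomputable section

/-! ### positions -/

lemma s3pos : 0 < Real.sqrt 3 := Real.sqrt_pos.2 (by norm_num)

lemma s3sq : Real.sqrt 3 * Real.sqrt 3 = 3 := Real.mul_self_sqrt (by norm_num)

lemma s3le : Real.sqrt 3 ≤ 2 := by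
  rw [Real.sqrt_le_left (by norm_num)]
  norm_num

lemma s3ge : 1 ≤ Real.sqrt 3 := by
  rw [Real.le_sqrt' (by norm_num)]
  norm_num

lemma hexFace_qz (N : ℕ) (z : ℂ) : hexFace N z = qz N ((Real.sqrt 3 : ℝ) * z) := by
  have h := s3pos.ne'
  have h2 := s3sq
  have h5 : 2 / Real.sqrt 3 = 2 / 3 * Real.sqrt 3 := by
    rw [div_eq_iff h]
    linear_combination (-(2 / 3)) * h2
  have h6 : z.re / Real.sqrt 3 = Real.sqrt 3 * z.re / 3 := by
    rw [div_eq_iff h]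
    linear_combination (-(z.re / 3)) * h2
  have e1 : cx ((Real.sqrt 3 : ℝ) * z) = 2 / Real.sqrt 3 * z.re := by
    unfold cx
    rw [Complex.re_ofReal_mul, h5]
    ring
  have e2 : cy ((Real.sqrt 3 : ℝ) * z) = z.im - z.re / Real.sqrt 3 := by
    unfold cy
    rw [Complex.re_ofReal_mul, Complex.im_ofReal_mul, h6, mul_div_cancel_left₀ _ h]
  unfold hexFace qz
  rw [e1, e2]

lemma hexFace_pz (N : ℕ) (z : ℂ) : pz N z = hexFace N z := rfl

lemma fl_abs (a : ℝ) : |(⌊a⌋ : ℝ) - a| ≤ 1 := by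
  have h1 := Int.floor_le a
  have h2 := Int.lt_floor_add_one a
  rw [abs_le]
  constructor <;> linarith

lemma sq_norm {N : ℕ} (hN : 0 < N) {z : ℂ} {R : ℝ} (h : ‖z‖ ≤ R) : ‖sqFace N z‖ ≤ (R + 1) * N := by
  have hN' : (1 : ℝ) ≤ N := by exact_mod_cast hN
  have key : ∀ x : ℝ, |x| ≤ R → |((⌊(N : ℝ) * x⌋ : ℤ) : ℝ)| ≤ (R + 1) * N := by
    intro x hx
    have h1 := fl_abs ((N : ℝ) * x)
    have h2 : |(N : ℝ) * x| ≤ N * R := by
      rw [abs_mul, abs_of_pos (by linarith : (0 : ℝ) < N)]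
      exact mul_le_mul_of_nonneg_left hx (by linarith)
    rw [abs_le] at h1 h2 ⊢
    constructor <;> nlinarith [h1.1, h1.2, h2.1, h2.2]
  exact nP (key _ ((Complex.abs_re_le_norm z).trans h)) (key _ ((Complex.abs_im_le_norm z).trans h))

lemma sq_sep {N : ℕ} {z w : ℂ} {d : ℝ} (h : d ≤ ‖z - w‖) (hd : 8 ≤ d * N) : d / 4 * N ≤ ‖sqFace N z - sqFace N w‖ := by
  have hN' : (0 : ℝ) ≤ N := Nat.cast_nonneg N
  have key : ∀ x y : ℝ, d / 2 ≤ |x - y| → d / 4 * N ≤ |((⌊(N : ℝ) * x⌋ - ⌊(N : ℝ) * y⌋ : ℤ) : ℝ)| := by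
    intro x y hxy
    have h1 := fl_abs ((N : ℝ) * x)
    have h2 := fl_abs ((N : ℝ) * y)
    have h3 : N * (d / 2) ≤ |(N : ℝ) * x - N * y| := by
      rw [← mul_sub, abs_mul, abs_of_nonneg hN']
      exact mul_le_mul_of_nonneg_left hxy hN'
    push_cast
    have h4 : |(N : ℝ) * x - N * y| ≤ |(⌊(N : ℝ) * x⌋ : ℝ) - ⌊(N : ℝ) * y⌋| + 2 := by
      have e : (N : ℝ) * x - N * y = ((⌊(N : ℝ) * x⌋ : ℝ) - ⌊(N : ℝ) * y⌋) - ((⌊(N : ℝ) * x⌋ : ℝ) - N * x) +
        ((⌊(N : ℝ) * y⌋ : ℝ) - N * y) := by ring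
      rw [e]
      refine (abs_add_le _ _).trans ?_
      have := abs_sub ((⌊(N : ℝ) * x⌋ : ℝ) - ⌊(N : ℝ) * y⌋) ((⌊(N : ℝ) * x⌋ : ℝ) - N * x)
      linarith
    linarith
  have hn : ‖sqFace N z - sqFace N w‖ = max ‖(sqFace N z - sqFace N w).1‖ ‖(sqFace N z - sqFace N w).2‖ := rfl
  rw [hn, Int.norm_eq_abs, Int.norm_eq_abs]
  have h5 := Complex.norm_le_abs_re_add_abs_im (z - w)
  rw [Complex.sub_re, Complex.sub_im] at h5
  by_cases h6 : d / 2 ≤ |z.re - w.re|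
  · exact (key _ _ h6).trans (le_max_left _ _)
  · have h7 : d / 2 ≤ |z.im - w.im| := by
      push Not at h6
      linarith
    exact (key _ _ h7).trans (le_max_right _ _)

lemma Dz_near (N : ℕ) (z : ℂ) :
    ‖hexFace N z - Dz (2 / Real.sqrt 3) (-(1 / Real.sqrt 3)) (sqFace N z)‖ ≤ 4 := by
  have h3 := s3pos
  have h4 := s3ge
  have i1 : 0 < 1 / Real.sqrt 3 := by positivity
  have i2 : 1 / Real.sqrt 3 ≤ 1 := by
    rw [div_le_one h3]
    exact h4
  obtain ⟨k, hk⟩ : ∃ k : ℝ, k = 1 / Real.sqrt 3 := ⟨_, rfl⟩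
  have e2k : 2 / Real.sqrt 3 = 2 * k := by
    rw [hk]
    ring
  have ek : ∀ x : ℝ, x / Real.sqrt 3 = x * k := fun x => by
    rw [hk]
    ring
  rw [← hk] at i1 i2
  have a1 := Int.floor_le ((N : ℝ) * z.re)
  have a2 := Int.lt_floor_add_one ((N : ℝ) * z.re)
  have a3 := fl_abs ((N : ℝ) * z.im)
  refine nP ?_ ?_
  · show |((⌊(N : ℝ) * (2 / Real.sqrt 3 * z.re)⌋ - ⌊2 / Real.sqrt 3 * ((⌊(N : ℝ) * z.re⌋ : ℤ) : ℝ)⌋ : ℤ) : ℝ)| ≤ 4
    rw [e2k]
    have b1 := fl_abs ((N : ℝ) * (2 * k * z.re))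
    have b2 := fl_abs (2 * k * ((⌊(N : ℝ) * z.re⌋ : ℤ) : ℝ))
    have b3 : |k * (((⌊(N : ℝ) * z.re⌋ : ℤ) : ℝ) - N * z.re)| ≤ 1 := by
      rw [abs_mul, abs_of_pos i1]
      have : |((⌊(N : ℝ) * z.re⌋ : ℤ) : ℝ) - N * z.re| ≤ 1 := fl_abs _
      calc k * |((⌊(N : ℝ) * z.re⌋ : ℤ) : ℝ) - N * z.re| ≤ 1 * 1 := mul_le_mul i2 this (abs_nonneg _) zero_le_one
        _ = 1 := one_mul 1
    push_cast
    rw [abs_le] at b1 b2 b3 ⊢
    constructor <;> nlinarith [b1.1, b1.2, b2.1, b2.2, b3.1, b3.2]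
  · show |((⌊(N : ℝ) * (z.im - z.re / Real.sqrt 3)⌋ -
      (⌊(N : ℝ) * z.im⌋ + ⌊-(1 / Real.sqrt 3) * ((⌊(N : ℝ) * z.re⌋ : ℤ) : ℝ)⌋) : ℤ) : ℝ)| ≤ 4
    rw [ek, ← hk]
    have b1 := fl_abs ((N : ℝ) * (z.im - z.re * k))
    have b2 := fl_abs (-k * ((⌊(N : ℝ) * z.re⌋ : ℤ) : ℝ))
    have b3 : |k * (((⌊(N : ℝ) * z.re⌋ : ℤ) : ℝ) - N * z.re)| ≤ 1 := by
      rw [abs_mul, abs_of_pos i1]
      have : |((⌊(N : ℝ) * z.re⌋ : ℤ) : ℝ) - N * z.re| ≤ 1 := fl_abs _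
      calc k * |((⌊(N : ℝ) * z.re⌋ : ℤ) : ℝ) - N * z.re| ≤ 1 * 1 := mul_le_mul i2 this (abs_nonneg _) zero_le_one
        _ = 1 := one_mul 1
    push_cast
    rw [abs_le] at b1 b2 b3 a3 ⊢
    constructor <;> nlinarith [b1.1, b1.2, b2.1, b2.2, b3.1, b3.2, a3.1, a3.2]

/-! ### the theorem -/

variable {W : Set (ℤ → ℝ)}

/-- **the public statement** -/
theorem pubU_of
    (sq : ∀ (m : ℕ) (τ : Fin m → Bool) (f : Fin m → ℤ × ℤ), Psq τ f = Pu (fun _ => 3 * Real.pi / 16) (tz τ) f)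
    (hx : ∀ (m : ℕ) (τ : Fin m → Bool) (f : Fin m → ℤ × ℤ), Phex τ f = Pu hc (tz τ) f)
    (sqs : ∀ (m : ℕ) (τ : Fin m → Bool) (f : Fin m → ℤ × ℤ), muU (fun _ => 3 * Real.pi / 16) (Pat (tz τ) f) ≠ ⊤ →
      Summable (sqTerm τ f))
    (hxs : ∀ (m : ℕ) (τ : Fin m → Bool) (f : Fin m → ℤ × ℤ), muU hc (Pat (tz τ) f) ≠ ⊤ → Summable (hexTerm τ f))
    (hFl : ∀ (m : ℕ) (τ : Fin m → Bool), A.PSys.NT τ → UId.Flow (Pu (fun _ => 3 * Real.pi / 16) (tz τ)) (Pu hc (tz τ))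
      (fun _ => 2 / Real.sqrt 3) (fun _ => -(1 / Real.sqrt 3)))
    (hN : NearM W) (hw1 : (fun _ => 3 * Real.pi / 16) ∈ W) (hw2 : hc ∈ W) (hb : PBd)
    (hU : ∀ (m : ℕ) (τ : Fin m → ZMod 2), RotU τ) : PubU := by
  have h3 := s3pos
  have h3' : (0 : ℝ) ≤ Real.sqrt 3 := h3.le
  have nr : ∀ z : ℂ, ‖((Real.sqrt 3 : ℝ) : ℂ) * z‖ = Real.sqrt 3 * ‖z‖ := fun z => by
    rw [norm_mul, Complex.norm_real, Real.norm_eq_abs, abs_of_nonneg h3']
  -- the patterns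
  have pat1 : ∀ (m : ℕ) (τ : Fin m → Bool), Proper τ → ∃ i j k : Fin m, i ≠ j ∧ tz τ i = 1 ∧ tz τ j = 1 ∧ tz τ k = 0 := by
    rintro m τ ⟨⟨i, j, hij, hi, hj⟩, k, hk⟩
    exact ⟨i, j, k, hij, by simp [tz, hi], by simp [tz, hj], by simp [tz, hk]⟩
  -- separated points
  have sep3 : ∀ (m : ℕ) (R d : ℝ) (z : Fin m → ℂ), Sep R d z → (∀ i, ‖((Real.sqrt 3 : ℝ) : ℂ) * z i‖ ≤ Real.sqrt 3 * |R|) ∧
      ∀ i j, i ≠ j → Real.sqrt 3 * d ≤ dist (((Real.sqrt 3 : ℝ) : ℂ) * z i) (((Real.sqrt 3 : ℝ) : ℂ) * z j) := by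
    rintro m R d z ⟨h1, h2⟩
    refine ⟨fun i => ?_, fun i j hij => ?_⟩
    · rw [nr]
      exact mul_le_mul_of_nonneg_left ((h1 i).trans (le_abs_self R)) h3'
    · rw [dist_eq_norm, ← mul_sub, nr]
      exact mul_le_mul_of_nonneg_left (h2 i j hij) h3'
  have rotS : ∀ (m : ℕ) (R d : ℝ) (z : Fin m → ℂ) (w : ℂ), ‖w‖ = 1 → Sep R d z → Sep R d fun i => w * z i := by
    rintro m R d z w hw ⟨h1, h2⟩
    refine ⟨fun i => ?_, fun i j hij => ?_⟩
    · rw [norm_mul, hw, one_mul]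
      exact h1 i
    · rw [← mul_sub, norm_mul, hw, one_mul]
      exact h2 i j hij
  obtain ⟨Nf, hf⟩ := UId.fin_pat hN
  -- the comparison
  have cmp : ∀ (m : ℕ) (τ : Fin m → Bool), Proper τ → ∀ R d ε : ℝ, 0 < d → 0 < ε → ∃ N₀ : ℕ, ∀ N : ℕ, N₀ ≤ N →
      ∀ z : Fin m → ℂ, Sep R d z → |PS τ N z - PH τ N z| ≤ ε := by
    intro m τ hτ R d ε hd hε
    obtain ⟨i0, j0, k0, hij, hi, hj, hk⟩ := pat1 m τ hτ
    obtain ⟨N1, h1⟩ := hFl m τ hτ (|R| + 1) (d / 4) (ε / 2) (by positivity) (by positivity) (by positivity)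
    obtain ⟨δ, hδ, N2, h2⟩ := UId.equi_of hN hw2 hij hi hj hk (Real.sqrt 3 * |R| + 1) (Real.sqrt 3 * d / 8) (ε / 2)
      (by positivity) (by positivity) (by positivity)
    obtain ⟨N3, hN3⟩ := exists_nat_ge (max (max (8 / d) (16 / (Real.sqrt 3 * d))) (4 / δ))
    refine ⟨max (max (max N1 N2) N3) 1, fun N hN z hz => ?_⟩
    have m1 : N1 ≤ N := (((le_max_left _ _).trans (le_max_left _ _)).trans (le_max_left _ _)).trans hN
    have m2 : N2 ≤ N := (((le_max_right _ _).trans (le_max_left _ _)).trans (le_max_left _ _)).trans hN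
    have m3 : N3 ≤ N := ((le_max_right _ _).trans (le_max_left _ _)).trans hN
    have hNp : 0 < N := (le_max_right _ _).trans hN
    have hN3r : (N3 : ℝ) ≤ N := by exact_mod_cast m3
    have q1 : 8 ≤ d * N := by
      have := (div_le_iff₀ hd).1 ((((le_max_left _ _).trans (le_max_left _ _)).trans hN3).trans hN3r)
      linarith
    have q2 : 16 ≤ Real.sqrt 3 * d * N := by
      have := (div_le_iff₀ (by positivity : 0 < Real.sqrt 3 * d)).1
        ((((le_max_right _ _).trans (le_max_left _ _)).trans hN3).trans hN3r)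
      linarith
    have q3 : 4 ≤ δ * N := by
      have := (div_le_iff₀ hδ).1 (((le_max_right _ _).trans hN3).trans hN3r)
      linarith
    obtain ⟨s1, s2⟩ := sep3 m R d z hz
    have a1 := h1 N m1 (fun i => sqFace N (z i)) (fun i => sq_norm hNp ((hz.1 i).trans (le_abs_self R)))
      fun i j hij => sq_sep (hz.2 i j hij) q1
    have a2 := h2 N m2 (fun i => hexFace N (z i)) (fun i => Dz (2 / Real.sqrt 3) (-(1 / Real.sqrt 3)) (sqFace N (z i)))
      (fun i => by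
        simp only [hexFace_qz]
        exact qz_norm hNp (s1 i)) (fun i j hij => by
        simp only [hexFace_qz]
        exact qz_sep hNp (s2 i j hij) q2) fun i => (Dz_near N (z i)).trans q3
    unfold PS PH
    rw [sq, hx]
    rw [abs_le] at a1 a2 ⊢
    constructor <;> linarith [a1.1, a1.2, a2.1, a2.2]
  -- the honeycomb is rotation invariant
  have rot : ∀ (m : ℕ) (τ : Fin m → Bool), Proper τ → ∀ R d ε : ℝ, 0 < d → 0 < ε → ∃ N₀ : ℕ, ∀ N : ℕ, N₀ ≤ N →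
      ∀ z : Fin m → ℂ, Sep R d z → ∀ w : ℂ, ‖w‖ = 1 → |PH τ N (fun i => w * z i) - PH τ N z| ≤ ε := by
    intro m τ hτ R d ε hd hε
    obtain ⟨i0, j0, k0, hij, hi, hj, hk⟩ := pat1 m τ hτ
    obtain ⟨N1, h1⟩ := rot_unif_pt (τ := tz τ) ⟨i0, j0, hij, hi, hj⟩ ⟨k0, hk⟩ (UId.equi_of hN hw2 hij hi hj hk) hb (hU m _)
      (R := Real.sqrt 3 * |R|) (d := Real.sqrt 3 * d) (ε := ε) (by positivity) (by positivity) hε
    refine ⟨N1, fun N hN z hz w hw => ?_⟩
    obtain ⟨s1, s2⟩ := sep3 m R d z hz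
    have a1 := h1 N hN (fun i => ((Real.sqrt 3 : ℝ) : ℂ) * z i) s1 s2 w hw
    unfold PH
    rw [hx, hx]
    simp only [hexFace_qz]
    rw [PP_eq, PP_eq] at a1
    have e : ∀ i, ((Real.sqrt 3 : ℝ) : ℂ) * (w * z i) = w * (((Real.sqrt 3 : ℝ) : ℂ) * z i) := fun i => by ring
    simp only [e]
    exact a1
  -- the sums converge
  have sm : ∀ (m : ℕ) (τ : Fin m → Bool), Proper τ → ∀ R d : ℝ, 0 < d → ∃ N₀ : ℕ, ∀ N : ℕ, N₀ ≤ N → ∀ z : Fin m → ℂ,
      Sep R d z → Summable (sqTerm τ fun i => sqFace N (z i)) ∧ Summable (hexTerm τ fun i => hexFace N (z i)) := by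
    intro m τ hτ R d hd
    obtain ⟨i0, j0, k0, hij, hi, hj, hk⟩ := pat1 m τ hτ
    obtain ⟨N3, hN3⟩ := exists_nat_ge (max (max (8 / d) (16 / (Real.sqrt 3 * d))) (max (4 * |(Nf : ℝ)| / d) (8 * |(Nf : ℝ)| / (Real.sqrt 3 * d))))
    refine ⟨max N3 1, fun N hN z hz => ?_⟩
    have m3 : N3 ≤ N := (le_max_left _ _).trans hN
    have hNp : 0 < N := (le_max_right _ _).trans hN
    have hN3r : (N3 : ℝ) ≤ N := by exact_mod_cast m3
    have q1 : 8 ≤ d * N := by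
      have := (div_le_iff₀ hd).1 ((((le_max_left _ _).trans (le_max_left _ _)).trans hN3).trans hN3r)
      linarith
    have q2 : 16 ≤ Real.sqrt 3 * d * N := by
      have := (div_le_iff₀ (by positivity : 0 < Real.sqrt 3 * d)).1
        ((((le_max_right _ _).trans (le_max_left _ _)).trans hN3).trans hN3r)
      linarith
    have q3 : |(Nf : ℝ)| ≤ d / 4 * N := by
      have := (div_le_iff₀ hd).1 ((((le_max_left _ _).trans (le_max_right _ _)).trans hN3).trans hN3r)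
      linarith
    have q4 : |(Nf : ℝ)| ≤ Real.sqrt 3 * d / 8 * N := by
      have := (div_le_iff₀ (by positivity : 0 < Real.sqrt 3 * d)).1
        ((((le_max_right _ _).trans (le_max_right _ _)).trans hN3).trans hN3r)
      linarith
    obtain ⟨s1, s2⟩ := sep3 m R d z hz
    constructor
    · refine sqs m τ _ (hf _ hw1 m (tz τ) i0 j0 k0 hi hj hk _ ?_)
      exact ((le_abs_self _).trans q3).trans (sq_sep (hz.2 i0 j0 hij) q1)
    · refine hxs m τ _ (hf _ hw2 m (tz τ) i0 j0 k0 hi hj hk _ ?_)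
      simp only [hexFace_qz]
      exact ((le_abs_self _).trans q4).trans (qz_sep hNp (s2 i0 j0 hij) q2)
  refine ⟨fun m τ hτ R d ε hd hε => ?_, fun m τ hτ R d hd => ?_, ?_⟩
  · obtain ⟨N1, h1⟩ := cmp m τ hτ R d (ε / 3) hd (by positivity)
    obtain ⟨N2, h2⟩ := rot m τ hτ R d (ε / 3) hd (by positivity)
    obtain ⟨N3, h3⟩ := sm m τ hτ R d hd
    refine ⟨max (max N1 N2) N3, fun N hN z hz => ?_⟩
    have m1 : N1 ≤ N := ((le_max_left _ _).trans (le_max_left _ _)).trans hN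
    have m2 : N2 ≤ N := ((le_max_right _ _).trans (le_max_left _ _)).trans hN
    have m3 : N3 ≤ N := (le_max_right _ _).trans hN
    refine ⟨(h3 N m3 z hz).1, (h3 N m3 z hz).2, (h1 N m1 z hz).trans (by linarith), fun w hw => ?_⟩
    have a1 := h1 N m1 z hz
    have a2 := h1 N m1 _ (rotS m R d z w hw hz)
    have a3 := h2 N m2 z hz w hw
    refine ⟨?_, a3.trans (by linarith)⟩
    rw [abs_le] at a1 a2 a3 ⊢
    constructor <;> linarith [a1.1, a1.2, a2.1, a2.2, a3.1, a3.2]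
  · obtain ⟨i0, j0, k0, hij, hi, hj, hk⟩ := pat1 m τ hτ
    obtain ⟨C, hC⟩ := hb m (tz τ) (Real.sqrt 3 * |R| + 4) (Real.sqrt 3 * d / 2) (by positivity) ⟨i0, j0, hij, hi, hj⟩ ⟨k0, hk⟩
    rw [Filter.eventually_atTop] at hC
    obtain ⟨N1, h1⟩ := hC
    obtain ⟨N2, h2⟩ := cmp m τ hτ R d 1 hd one_pos
    obtain ⟨N3, hN3⟩ := exists_nat_ge (16 / (Real.sqrt 3 * d))
    refine ⟨C + 1, max (max (max N1 N2) N3) 1, fun N hN z hz => ?_⟩
    have m1 : N1 ≤ N := (((le_max_left _ _).trans (le_max_left _ _)).trans (le_max_left _ _)).trans hN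
    have m2 : N2 ≤ N := (((le_max_right _ _).trans (le_max_left _ _)).trans (le_max_left _ _)).trans hN
    have m3 : N3 ≤ N := ((le_max_right _ _).trans (le_max_left _ _)).trans hN
    have hNp : 0 < N := (le_max_right _ _).trans hN
    have hNr : (1 : ℝ) ≤ N := by exact_mod_cast hNp
    have hN3r : (N3 : ℝ) ≤ N := by exact_mod_cast m3
    have q2 : 16 ≤ Real.sqrt 3 * d * N := by
      have := (div_le_iff₀ (by positivity : 0 < Real.sqrt 3 * d)).1 (hN3.trans hN3r)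
      linarith
    have q5 : 4 / (N : ℝ) ≤ Real.sqrt 3 * d / 4 := by
      rw [div_le_iff₀ (by linarith)]
      linarith
    have q6 : 4 / (N : ℝ) ≤ 4 := by
      rw [div_le_iff₀ (by linarith)]
      linarith
    obtain ⟨s1, s2⟩ := sep3 m R d z hz
    have a2 := h2 N m2 z hz
    have a1 := h1 N m1 (fun i => qz N (((Real.sqrt 3 : ℝ) : ℂ) * z i)) (fun i => by
      have t1 := sc_qz hNp (((Real.sqrt 3 : ℝ) : ℂ) * z i)
      have t2 := norm_sub_norm_le (sc N (qz N (((Real.sqrt 3 : ℝ) : ℂ) * z i))) (((Real.sqrt 3 : ℝ) : ℂ) * z i)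
      linarith [s1 i]) (fun i j hij => by
      have t1 := sc_qz hNp (((Real.sqrt 3 : ℝ) : ℂ) * z i)
      have t2 := sc_qz hNp (((Real.sqrt 3 : ℝ) : ℂ) * z j)
      have t3 := s2 i j hij
      rw [← dist_eq_norm] at t1 t2
      have t4 := dist_triangle4 (((Real.sqrt 3 : ℝ) : ℂ) * z i) (sc N (qz N (((Real.sqrt 3 : ℝ) : ℂ) * z i)))
        (sc N (qz N (((Real.sqrt 3 : ℝ) : ℂ) * z j))) (((Real.sqrt 3 : ℝ) : ℂ) * z j)
      rw [dist_comm (((Real.sqrt 3 : ℝ) : ℂ) * z i) (sc N (qz N (((Real.sqrt 3 : ℝ) : ℂ) * z i)))] at t4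
      linarith)
    rw [PP_eq] at a1
    have e : PH τ N z = Pu hc (tz τ) fun i => qz N (((Real.sqrt 3 : ℝ) : ℂ) * z i) := by
      unfold PH
      rw [hx]
      simp only [hexFace_qz]
    rw [← e] at a1
    have := (abs_le.1 a2).2
    linarith
  · obtain ⟨c, hc0, c', hc', S, N1, h1⟩ := UId.pos_hex hN hw2
    have hP : Proper (![true, true, false] : Fin 3 → Bool) := by
      refine ⟨⟨0, 1, by decide, rfl, rfl⟩, 2, rfl⟩
    obtain ⟨N2, h2⟩ := cmp 3 _ hP (|S|) c' (c / 2) hc' (by positivity)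
    refine ⟨c / 2, |S|, c', max N1 N2, by positivity, hc', fun N hN => ?_⟩
    obtain ⟨z, hz, g1, ⟨a, ha, g2⟩, g3⟩ := h1 N ((le_max_left _ _).trans hN) 1 norm_one
    have hS : Sep (|S|) c' z := by
      refine ⟨fun i => (hz i).trans (le_abs_self _), ?_⟩
      rw [map_one, one_mul] at g1
      rw [mul_one] at ha
      have n10 : c' ≤ ‖z 1 - z 0‖ := g1.trans (Complex.abs_im_le_norm _)
      have n20 : c' ≤ ‖z 2 - z 0‖ := by
        rw [ha, Complex.norm_real, Real.norm_eq_abs]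
        exact g2
      have n21 : c' ≤ ‖z 1 - z 2‖ := by
        have e : (z 1 - z 2).im = (z 1 - z 0).im := by
          have e1 : z 1 - z 2 = (z 1 - z 0) - (z 2 - z 0) := by ring
          rw [e1, Complex.sub_im, ha, Complex.ofReal_im, sub_zero]
        refine g1.trans ?_
        rw [← e]
        exact Complex.abs_im_le_norm _
      intro i j hij
      fin_cases i <;> fin_cases j
      · exact absurd rfl hij
      · show c' ≤ ‖z 0 - z 1‖
        rw [norm_sub_rev]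
        exact n10
      · show c' ≤ ‖z 0 - z 2‖
        rw [norm_sub_rev]
        exact n20
      · exact n10
      · exact absurd rfl hij
      · exact n21
      · exact n20
      · show c' ≤ ‖z 2 - z 1‖
        rw [norm_sub_rev]
        exact n21
      · exact absurd rfl hij
    refine ⟨z, hS, ?_⟩
    have a2 := h2 N ((le_max_right _ _).trans hN) z hS
    have e : tz (![true, true, false] : Fin 3 → Bool) = (![1, 1, 0] : Fin 3 → ZMod 2) := by
      funext i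
      fin_cases i <;> rfl
    have g4 : c ≤ PH (![true, true, false] : Fin 3 → Bool) N z := by
      unfold PH
      rw [hx, e]
      exact g3
    have := (abs_le.1 a2).1
    linarith

end

end Pool.Agent.ROT.UPub
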