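import Pool.Agent.ROT.UPubD
import Pool.Agent.ROT.UCC
import Pool.Agent.ROT.EHexS
import Pool.Agent.ROT.EHexT

/-!
# ROT, universality, public statement: the honeycomb side (helper42)

The loops of the square lattice without the cell `y` are the self-avoiding polygons of the honeycomb lattice:
`phex_eq : Phex τ f = Pn (π/8) τ f`.
-/

set_option autoImplicit false

namespace Pool.Agent.ROT.UPub

open Pool.Agent.YBC (Dir)
open Pool.Agent.ROT.E (Cell Cfg He Pt nx rv oc vp Mt Lk Cn Lp)
open Pool.Agent.ROT.E.Hx (Sx Bo wi us ub rev rt inn Ny HL bd hs nxt)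

/-! ### the honeycomb vertices -/

/-- the start of a bond -/
def si (e : Bo) : ℤ × ℤ × Bool := (e.1.1, e.1.2, !wi e.2)

theorem si_eq {e f : Bo} : si e = si f ↔ e.1 = f.1 ∧ wi e.2 = wi f.2 := by
  unfold si
  rw [Prod.mk.injEq, Prod.mk.injEq, Bool.not_inj_iff, Prod.ext_iff]
  tauto

theorem si_st {e f : Bo} : si e = si f ↔ E.Hx.st e = E.Hx.st f := by rw [si_eq, E.Hx.st_eq]

theorem si_same {e f : Bo} (h : si f = si e) : f = e ∨ ∃ b, f = (e.1, rt b e.2) := E.Hx.st_eq' (si_st.1 h).symm

theorem si_inj {e f : Bo} (h1 : si e = si f) (h2 : si (rev e) = si (rev f)) : e = f := by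
  rw [si_eq] at h1 h2
  obtain ⟨⟨a, b⟩, s⟩ := e
  obtain ⟨⟨a', b'⟩, s'⟩ := f
  obtain ⟨h1, h3⟩ := h1
  obtain ⟨h2, -⟩ := h2
  simp only [Prod.mk.injEq] at h1
  obtain ⟨rfl, rfl⟩ := h1
  revert h2 h3
  cases s <;> cases s' <;> simp [rev, wi] <;> omega

theorem si_rt (b : Bool) (e : Bo) : si (e.1, rt b e.2) = si e := by
  rw [si_eq]
  exact ⟨rfl, E.Hx.rt_wt _ _⟩

theorem honey_adj {a b : ℤ × ℤ × Bool} : honey.Adj a b ↔ ∃ e, si e = a ∧ si (rev e) = b := by
  obtain ⟨x, y, s⟩ := a
  obtain ⟨x', y', s'⟩ := b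
  unfold honey
  rw [SimpleGraph.fromRel_adj]
  constructor
  · rintro ⟨-, ⟨h1, h2, h⟩ | ⟨h1, h2, h⟩⟩
    · simp only at h1 h2 h
      subst h1 h2
      rcases h with ⟨h3, h4⟩ | ⟨h3, h4⟩ | ⟨h3, h4⟩
      · exact ⟨((x, y), .jj), rfl, by rw [h3, h4]; rfl⟩
      · exact ⟨((x, y), .ee), rfl, by rw [h3, h4]; rfl⟩
      · exact ⟨((x, y), .nn), rfl, by rw [h3, h4]; rfl⟩
    · simp only at h1 h2 h
      subst h1 h2
      rcases h with ⟨h3, h4⟩ | ⟨h3, h4⟩ | ⟨h3, h4⟩
      · exact ⟨((x', y'), .ii), by rw [h3, h4]; rfl, rfl⟩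
      · refine ⟨((x' + 1, y'), .ww), by rw [h3, h4]; rfl, ?_⟩
        simp [si, rev, wi]
      · refine ⟨((x', y' + 1), .ss), by rw [h3, h4]; rfl, ?_⟩
        simp [si, rev, wi]
  · rintro ⟨⟨⟨p, q⟩, r⟩, h1, h2⟩
    cases r <;> simp only [si, rev, wi, Bool.not_true, Bool.not_false, Prod.mk.injEq] at h1 h2 <;>
      obtain ⟨rfl, rfl, rfl⟩ := h1 <;> obtain ⟨rfl, rfl, rfl⟩ := h2 <;> simp [Bond]

theorem honey_si (e : Bo) : honey.Adj (si e) (si (rev e)) := honey_adj.2 ⟨e, rfl, rfl⟩

/-! ### connected subgraphs -/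

theorem conn_iff {P : honey.Subgraph} :
    P.Connected ↔ P.verts.Nonempty ∧ ∀ a ∈ P.verts, ∀ b ∈ P.verts, Relation.ReflTransGen P.Adj a b := by
  rw [SimpleGraph.Subgraph.connected_iff, and_comm]
  refine and_congr_right fun _ => ?_
  constructor
  · intro h a ha b hb
    have h1 := h.coe ⟨a, ha⟩ ⟨b, hb⟩
    rw [SimpleGraph.reachable_iff_reflTransGen] at h1
    exact Relation.ReflTransGen.lift (fun x : P.verts => (x : ℤ × ℤ × Bool)) (fun x y hxy => hxy) _ _ h1
  · intro h
    constructor
    rintro ⟨a, ha⟩ ⟨b, hb⟩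
    rw [SimpleGraph.reachable_iff_reflTransGen]
    have key : ∀ c, Relation.ReflTransGen P.Adj a c → ∀ hc : c ∈ P.verts, Relation.ReflTransGen P.coe.Adj ⟨a, ha⟩ ⟨c, hc⟩ := by
      intro c hc
      induction hc with
      | refl => exact fun _ => Relation.ReflTransGen.refl
      | tail h1 h2 ih =>
        intro hc
        exact (ih (P.edge_vert h2)).tail h2
    exact key b (h a ha b hb) hb

/-! ### the subgraph of a loop -/

/-- the subgraph of a configuration -/
def sub (γ : Cfg) (m : Mt γ Set.univ) : honey.Subgraph where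
  verts := {a | ∃ e, ub γ e ∧ si e = a}
  Adj a b := ∃ e, ub γ e ∧ si e = a ∧ si (rev e) = b
  adj_sub := fun ⟨e, _, h1, h2⟩ => honey_adj.2 ⟨e, h1, h2⟩
  edge_vert := fun ⟨e, h, h1, _⟩ => ⟨e, h, h1⟩
  symm := ⟨fun _ _ ⟨e, h, h1, h2⟩ => ⟨rev e, (E.Hx.ub_rev m).2 h, h2, by rw [E.Hx.rev_rev]; exact h1⟩⟩

theorem sub_adj {γ : Cfg} {m : Mt γ Set.univ} {e : Bo} : (sub γ m).Adj (si e) (si (rev e)) ↔ ub γ e := by
  constructor
  · rintro ⟨f, h, h1, h2⟩
    rw [← si_inj h1 h2]
    exact h
  · exact fun h => ⟨e, h, rfl, rfl⟩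

theorem fin_sx : Finite Sx :=
  Finite.of_injective (fun s : Sx => ((wi s, rt true s = .ii ∨ rt false s = .ii), s = .ii ∨ s = .jj, s = .ww ∨ s = .ee)) (by
    intro s s' h
    cases s <;> cases s' <;> simp_all [wi, rt])

theorem fin_ub (γ : Cfg) : {e : Bo | ub γ e}.Finite := by
  have := fin_sx
  refine ((γ.support.finite_toSet).prod (Set.finite_univ (α := Sx))).subset fun e he => ?_
  exact ⟨E.Hx.ub_supp he, trivial⟩

theorem verts_eq {γ : Cfg} {m : Mt γ Set.univ} : (sub γ m).verts = si '' {e | ub γ e} := rfl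

theorem ncard_verts {γ : Cfg} {m : Mt γ Set.univ} : (sub γ m).verts.ncard = (hs γ).card := by
  classical
  rw [← Set.ncard_coe_finset]
  have hc : ∀ a ∈ (sub γ m).verts, ∃ e, ub γ e ∧ si e = a := fun a ha => ha
  refine Set.ncard_congr (fun a ha => E.Hx.st (hc a ha).choose) (fun a ha => ?_) (fun a b ha hb h => ?_) fun p hp => ?_
  · rw [Finset.mem_coe, E.Hx.mem_hs]
    exact ⟨_, (hc a ha).choose_spec.1, rfl⟩
  · rw [← (hc a ha).choose_spec.2, ← (hc b hb).choose_spec.2, si_st]
    exact h
  · rw [Finset.mem_coe, E.Hx.mem_hs] at hp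
    obtain ⟨f, hf, rfl⟩ := hp
    have ha : si f ∈ (sub γ m).verts := ⟨f, hf, rfl⟩
    refine ⟨si f, ha, ?_⟩
    rw [← si_st]
    exact (hc _ ha).choose_spec.2

theorem rev_rt_ne (b : Bool) (e : Bo) : si (rev e) ≠ si (rev (e.1, rt b e.2)) := by
  intro h
  have h1 := si_inj (si_rt b e).symm h
  exact E.Hx.rt_ne b e.2 (congrArg Prod.snd h1).symm

theorem sub_pol {γ : Cfg} (l : HL γ) : HexPol (sub γ l.lp.mt) where
  fin := by
    rw [verts_eq]
    exact (fin_ub γ).image _
  conn := by
    rw [conn_iff]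
    obtain ⟨e, he⟩ := E.Hx.ex_ub l
    refine ⟨⟨si e, e, he, rfl⟩, ?_⟩
    have h1 : ∀ f, ub γ f → Relation.ReflTransGen (sub γ l.lp.mt).Adj (si f) (si (rev f)) := fun f hf =>
      Relation.ReflTransGen.single (sub_adj.2 hf)
    have h2 : ∀ f, si (nxt γ f) = si (rev f) := fun f => by
      rw [si_st]
      exact E.Hx.st_nxt' f
    rintro a ⟨f, hf, rfl⟩ b ⟨g, hg, rfl⟩
    -- every bond is on the walk from `f`
    have h3 : ∀ k, Relation.ReflTransGen (sub γ l.lp.mt).Adj (si f) (si ((nxt γ)^[k] f)) := by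
      intro k
      induction k with
      | zero => exact Relation.ReflTransGen.refl
      | succ k ih =>
        rw [Function.iterate_succ_apply', h2]
        exact ih.trans (h1 _ (E.Hx.it_ub l.lp.mt l.ny hf k))
    obtain ⟨k, hk⟩ := E.Hx.all_ob l.lp l.ny hf hg
    rcases hk with hk | hk
    · rw [hk]
      exact h3 k
    · have h4 := h1 _ (E.Hx.it_ub l.lp.mt l.ny hf k)
      have h5 := h3 k
      rw [← hk] at h4 h5
      rw [E.Hx.rev_rev] at h4
      exact h5.trans h4
  deg := by
    rintro v ⟨e, he, rfl⟩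
    obtain ⟨b, hb, hb'⟩ : ∃ b, ub γ (e.1, rt b e.2) ∧ ¬ ub γ (e.1, rt (!b) e.2) := by
      have h := E.Hx.us_xor (l.ny e.1) he
      cases h1 : us (γ e.1) (rt true e.2)
      · refine ⟨false, ?_, ?_⟩
        · show us (γ e.1) (rt false e.2) = true
          rw [h, h1]
          rfl
        · show ¬ us (γ e.1) (rt true e.2) = true
          rw [h1]
          simp
      · refine ⟨true, h1, ?_⟩
        show ¬ us (γ e.1) (rt false e.2) = true
        rw [h, h1]
        simp
    have hs : (sub γ l.lp.mt).neighborSet (si e) = {si (rev e), si (rev (e.1, rt b e.2))} := by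
      ext w
      rw [SimpleGraph.Subgraph.mem_neighborSet, Set.mem_insert_iff, Set.mem_singleton_iff]
      constructor
      · rintro ⟨f, hf, h1, rfl⟩
        rcases si_same h1 with rfl | ⟨b', rfl⟩
        · exact Or.inl rfl
        · right
          have : b' = b := by
            by_contra hne
            have h2 : b' = !b := by
              cases b <;> cases b' <;> simp_all
            rw [h2] at hf
            exact hb' hf
          rw [this]
      · rintro (rfl | rfl)
        · exact ⟨e, he, rfl, rfl⟩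
        · exact ⟨_, hb, si_rt b e, rfl⟩
    rw [hs, Set.ncard_pair (rev_rt_ne b e)]

/-! ### the loop of a polygon -/

/-- the cell with the given used bonds -/
def cB : Bool → Bool → Bool → Bool → Bool → Cell
  | true, false, true, true, false => .h
  | false, true, true, false, true => .v
  | false, true, true, true, false => .se
  | true, false, true, false, true => .nw
  | true, true, false, true, true => .x
  | true, true, false, false, false => .sw
  | false, false, false, true, true => .ne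
  | _, _, _, _, _ => .o

/-- the cell of a table of used bonds -/
def cF (f : Sx → Bool) : Cell := cB (f .ww) (f .ss) (f .ii) (f .ee) (f .nn)

theorem cF_ny (f : Sx → Bool) : cF f ≠ .y := by
  unfold cF
  generalize f .ww = a
  generalize f .ss = b
  generalize f .ii = c
  generalize f .ee = d
  generalize f .nn = e
  revert a b c d e
  decide

theorem us_cF {f : Sx → Bool} (h : f .jj = f .ii) (h1 : ((f .ww ^^ f .ss) ^^ f .ii) = false)
    (h2 : ((f .ee ^^ f .nn) ^^ f .jj) = false) (s : Sx) : us (cF f) s = f s := by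
  rw [h] at h2
  have h3 : ∀ a b c d e : Bool, ((a ^^ b) ^^ c) = false → ((d ^^ e) ^^ c) = false →
      us (cB a b c d e) .ww = a ∧ us (cB a b c d e) .ss = b ∧ us (cB a b c d e) .ii = c ∧ us (cB a b c d e) .ee = d ∧
        us (cB a b c d e) .nn = e ∧ us (cB a b c d e) .jj = c := by decide
  obtain ⟨k1, k2, k3, k4, k5, k6⟩ := h3 _ _ _ _ _ h1 h2
  cases s
  · exact k1
  · exact k2
  · exact k3
  · exact k4
  · exact k5
  · rw [h]
    exact k6

/-- the table of a subgraph -/
noncomputable def tab (P : honey.Subgraph) (v : Pt) (s : Sx) : Bool :=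
  @decide (P.Adj (si (v, s)) (si (rev (v, s)))) (Classical.propDecidable _)

theorem tab_true {P : honey.Subgraph} {v : Pt} {s : Sx} : tab P v s = true ↔ P.Adj (si (v, s)) (si (rev (v, s))) := by
  exact @decide_eq_true_iff _ (Classical.propDecidable _)

/-- the parity of the used bonds at a vertex -/
theorem par {P : honey.Subgraph} (hd : ∀ v ∈ P.verts, (P.neighborSet v).ncard = 2) (e : Bo) :
    ((tab P e.1 e.2 ^^ tab P e.1 (rt true e.2)) ^^ tab P e.1 (rt false e.2)) = false := by
  have hN : P.neighborSet (si e) = {w | (w = si (rev e) ∧ tab P e.1 e.2 = true) ∨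
      (w = si (rev (e.1, rt true e.2)) ∧ tab P e.1 (rt true e.2) = true) ∨
      (w = si (rev (e.1, rt false e.2)) ∧ tab P e.1 (rt false e.2) = true)} := by
    ext w
    rw [SimpleGraph.Subgraph.mem_neighborSet, Set.mem_ofPred_eq]
    constructor
    · intro h
      obtain ⟨f, h1, h2⟩ := honey_adj.1 (P.adj_sub h)
      rcases si_same h1 with rfl | ⟨b, rfl⟩
      · left
        refine ⟨h2.symm, ?_⟩
        rw [tab_true]
        rw [← h2] at h
        exact h
      · right
        rw [← h2] at h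
        have h3 : tab P e.1 (rt b e.2) = true := by
          rw [tab_true, si_rt]
          exact h
        cases b
        · exact Or.inr ⟨h2.symm, h3⟩
        · exact Or.inl ⟨h2.symm, h3⟩
    · rintro (⟨rfl, h⟩ | ⟨rfl, h⟩ | ⟨rfl, h⟩)
      · exact tab_true.1 h
      · have := tab_true.1 h
        rwa [si_rt] at this
      · have := tab_true.1 h
        rwa [si_rt] at this
  have n1 := rev_rt_ne true e
  have n2 := rev_rt_ne false e
  have n3 : si (rev (e.1, rt true e.2)) ≠ si (rev (e.1, rt false e.2)) := by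
    intro h
    have h1 := si_inj ((si_rt true e).trans (si_rt false e).symm) h
    have h2 := congrArg Prod.snd h1
    exact absurd (E.Hx.rt_bne h2) (by decide)
  by_cases hv : si e ∈ P.verts
  · have h2 := hd _ hv
    rw [hN] at h2
    cases h3 : tab P e.1 e.2 <;> cases h4 : tab P e.1 (rt true e.2) <;> cases h5 : tab P e.1 (rt false e.2) <;>
      simp only [h3, h4, h5, and_true, and_false, false_or, or_false, Bool.false_eq_true] at h2
    · rfl
    · rw [Set.ofPred_eq_eq_singleton, Set.ncard_singleton] at h2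
      omega
    · rw [Set.ofPred_eq_eq_singleton, Set.ncard_singleton] at h2
      omega
    · rfl
    · rw [Set.ofPred_eq_eq_singleton, Set.ncard_singleton] at h2
      omega
    · rfl
    · rfl
    · exfalso
      have e3 : {w | w = si (rev e) ∨ w = si (rev (e.1, rt true e.2)) ∨ w = si (rev (e.1, rt false e.2))} =
          ({si (rev e), si (rev (e.1, rt true e.2)), si (rev (e.1, rt false e.2))} : Set (ℤ × ℤ × Bool)) := by
        ext w
        simp
      rw [e3, Set.ncard_eq_three.2 ⟨_, _, _, n1, n2, n3, rfl⟩] at h2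
      omega
  · have h6 : ∀ f : Bo, si f = si e → tab P f.1 f.2 = false := by
      intro f hf
      rw [← Bool.not_eq_true, tab_true]
      intro h
      apply hv
      rw [← hf]
      exact P.edge_vert h
    rw [h6 e rfl, h6 (e.1, rt true e.2) (si_rt _ _), h6 (e.1, rt false e.2) (si_rt _ _)]
    rfl

theorem tab_jj (P : honey.Subgraph) (v : Pt) : tab P v .jj = tab P v .ii := by
  rw [Bool.eq_iff_iff, tab_true, tab_true]
  exact P.adj_comm _ _

theorem fin_tab {P : honey.Subgraph} (h : P.verts.Finite) : (Function.support fun v : Pt => cF (tab P v)).Finite := by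
  refine (h.image fun a => ((a.1, a.2.1) : Pt)).subset fun v hv => ?_
  obtain ⟨s, hs⟩ : ∃ s, tab P v s = true := by
    by_contra hc
    push Not at hc
    apply hv
    show cF (tab P v) = .o
    unfold cF
    have : ∀ s, tab P v s = false := fun s => by
      have := hc s
      simpa using this
    rw [this, this, this, this, this]
    rfl
  exact ⟨si (v, s), P.edge_vert (tab_true.1 hs), rfl⟩

/-- the configuration of a polygon -/
noncomputable def cfg (P : honey.Subgraph) (h : P.verts.Finite) : Cfg := Finsupp.ofSupportFinite _ (fin_tab h)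

theorem ub_cfg {P : honey.Subgraph} (h : HexPol P) {e : Bo} : ub (cfg P h.fin) e ↔ P.Adj (si e) (si (rev e)) := by
  have h1 : us (cF (tab P e.1)) e.2 = tab P e.1 e.2 := by
    refine us_cF (tab_jj P _) ?_ ?_ _
    · have := par h.deg (e.1, .ww)
      revert this
      show ((tab P e.1 .ww ^^ tab P e.1 (rt true .ww)) ^^ tab P e.1 (rt false .ww)) = false → _
      rw [show rt true .ww = .ii from rfl, show rt false .ww = .ss from rfl]
      cases tab P e.1 .ww <;> cases tab P e.1 .ii <;> cases tab P e.1 .ss <;> decide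
    · have := par h.deg (e.1, .jj)
      revert this
      show ((tab P e.1 .jj ^^ tab P e.1 (rt true .jj)) ^^ tab P e.1 (rt false .jj)) = false → _
      have h2 : (rt true .jj = .ee ∧ rt false .jj = .nn) ∨ (rt true .jj = .nn ∧ rt false .jj = .ee) := by decide
      rcases h2 with ⟨h2, h3⟩ | ⟨h2, h3⟩
      · rw [h2, h3]
        cases tab P e.1 .jj <;> cases tab P e.1 .ee <;> cases tab P e.1 .nn <;> decide
      · rw [h2, h3]
        cases tab P e.1 .jj <;> cases tab P e.1 .ee <;> cases tab P e.1 .nn <;> decide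
  show us (cF (tab P e.1)) e.2 = true ↔ _
  rw [h1, tab_true]

theorem ny_cfg {P : honey.Subgraph} (h : HexPol P) : Ny (cfg P h.fin) := fun _ => cF_ny _

theorem mt_cfg {P : honey.Subgraph} (h : HexPol P) : Mt (cfg P h.fin) Set.univ := by
  intro k _ _
  rw [← E.Hx.ub_bd, ← E.Hx.ub_bd, ub_cfg h, ub_cfg h]
  have e1 : (((rv k).1, bd (rv k).2) : Bo) = rev (k.1, bd k.2) := (E.Hx.rev_bd k.1 k.2).symm
  rw [e1, E.Hx.rev_rev]
  exact P.adj_comm _ _

end Pool.Agent.ROT.UPub
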