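import Pool.Agent.ROT.UPubH

/-!
# ROT, universality, public statement: the bijection of the honeycomb side (helper42)

* `lp_cfg` : the configuration of a polygon is a loop; `cfg_sub`, `sub_cfg` : the two maps are inverse;
* **`hexEquiv`** : self-avoiding polygons of the honeycomb lattice = loops without the cell `y`;
* `sg_odd` : the side parity as the number of crossed edges; **`hexIn_iff`** : `HexIn (sub γ) f` is `sg γ f.1 f.2 = 1`.
-/

set_option autoImplicit false

namespace Pool.Agent.ROT.UPub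

open Pool.Agent.YBC (Dir)
open Pool.Agent.ROT.E (Cell Cfg He Pt nx rv oc vp Mt Lk Cn Lp)
open Pool.Agent.ROT.E.Hx (Sx Bo wi us ub rev rt inn Ny HL bd hs nxt)

/-! ### the configuration of a polygon is a loop -/

/-- two used sides at one honeycomb vertex are joined -/
theorem p_same {c : Cell} (hy : c ≠ .y) {d d' : Dir} (h : wi (bd d) = wi (bd d')) (h1 : c.oc d) (h2 : c.oc d') (hne : d ≠ d') :
    c.p d = d' := by
  revert h h1 h2 hne hy
  cases c <;> cases d <;> cases d' <;> decide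

/-- a passage over the inner bond -/
theorem p_inn {c : Cell} (hy : c ≠ .y) {d d' : Dir} (h : wi (bd d) ≠ wi (bd d')) (hi : inn c = true) (h1 : c.oc d) (h2 : c.oc d') :
    c.p d = d' := by
  revert h h1 h2 hi hy
  cases c <;> cases d <;> cases d' <;> decide

/-- every used vertex has a used side -/
theorem ex_side {c : Cell} (hy : c ≠ .y) {s : Sx} (h : us c s = true) : ∃ d : Dir, wi (bd d) = wi s ∧ c.oc d := by
  have h1 : ∀ c : Cell, c ≠ .y → ∀ d : Dir, us c (bd d) = true → c.oc d := fun c _ d h => by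
    rw [E.Hx.us_bd] at h
    exact of_decide_eq_true h
  revert h hy
  cases c <;> cases s <;> intro hy h <;> first
    | exact absurd rfl hy
    | exact absurd h (by decide)
    | exact ⟨.W, rfl, by decide⟩
    | exact ⟨.S, rfl, by decide⟩
    | exact ⟨.E, rfl, by decide⟩
    | exact ⟨.N, rfl, by decide⟩

section lp

variable {γ : Cfg} (m : Mt γ Set.univ) (y : Ny γ)

/-- the half edge is used and starts at the honeycomb vertex `a` -/
def At (γ : Cfg) (a : ℤ × ℤ × Bool) (h : He) : Prop := oc γ h ∧ si (h.1, bd h.2) = a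

include y in
theorem at_same {a : ℤ × ℤ × Bool} {h k : He} (hh : At γ a h) (hk : At γ a k) : Cn γ Set.univ h k := by
  obtain ⟨h1, rfl⟩ := hh
  obtain ⟨h2, h3⟩ := hk
  obtain ⟨v, d⟩ := h
  obtain ⟨v', d'⟩ := k
  rw [si_eq] at h3
  obtain ⟨h3, h4⟩ := h3
  simp only at h3 h4
  subst h3
  by_cases hd : d = d'
  · rw [hd]
    exact Relation.EqvGen.refl _
  · refine Relation.EqvGen.rel _ _ ⟨h1, trivial, Or.inl ?_⟩
    have := p_same (y v') h4.symm h1 h2 hd
    show (v', d') = (v', (γ v').p d)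
    rw [this]

include y in
theorem ex_at {e : Bo} (h : ub γ e) : ∃ k : He, At γ (si e) k := by
  obtain ⟨d, h1, h2⟩ := ex_side (y e.1) h
  exact ⟨(e.1, d), h2, si_eq.2 ⟨rfl, h1⟩⟩

include m y in
theorem at_step {e : Bo} (h : ub γ e) {k l : He} (hk : At γ (si e) k) (hl : At γ (si (rev e)) l) : Cn γ Set.univ k l := by
  rcases E.Hx.bo_cases e with ⟨h', rfl⟩ | hi
  · have o1 : oc γ h' := E.Hx.ub_bd.1 h
    have o2 : oc γ (rv h') := (m h' trivial trivial).1 o1
    have e1 : At γ (si (h'.1, bd h'.2)) h' := ⟨o1, rfl⟩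
    have e2 : At γ (si (rev (h'.1, bd h'.2))) (rv h') := by
      rw [E.Hx.rev_bd]
      exact ⟨o2, rfl⟩
    refine (at_same y hk e1).trans _ _ _ (Relation.EqvGen.trans _ _ _ ?_ (at_same y e2 hl))
    exact Relation.EqvGen.rel _ _ ⟨o1, trivial, Or.inr ⟨rfl, trivial⟩⟩
  · obtain ⟨k1, k2⟩ := hk
    obtain ⟨l1, l2⟩ := hl
    rw [si_eq] at k2 l2
    obtain ⟨v, s⟩ := e
    obtain ⟨vk, dk⟩ := k
    obtain ⟨vl, dl⟩ := l
    have hv : (rev (v, s)).1 = v ∧ wi (rev (v, s)).2 ≠ wi s ∧ inn (γ v) = true := by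
      rcases hi with hi | hi
      · simp only at hi
        subst hi
        exact ⟨rfl, (by decide : wi .jj ≠ wi .ii), h⟩
      · simp only at hi
        subst hi
        exact ⟨rfl, (by decide : wi .ii ≠ wi .jj), h⟩
    simp only at k2 l2
    rw [hv.1] at l2
    obtain ⟨rfl, k3⟩ := k2
    obtain ⟨rfl, l3⟩ := l2
    refine Relation.EqvGen.rel _ _ ⟨k1, trivial, Or.inl ?_⟩
    have := p_inn (y _) (by rw [k3, l3]; exact hv.2.1.symm) hv.2.2 k1 l1
    show (_, dl) = (_, (γ _).p dk)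
    rw [this]

end lp

theorem lp_cfg {P : honey.Subgraph} (h : HexPol P) : Lp (cfg P h.fin) where
  mt := mt_cfg h
  ne := by
    obtain ⟨⟨a, ha⟩, -⟩ := conn_iff.1 h.conn
    obtain ⟨b, hb⟩ : (P.neighborSet a).Nonempty := by
      rw [Set.nonempty_iff_ne_empty]
      intro h0
      have := h.deg a ha
      rw [h0, Set.ncard_empty] at this
      omega
    obtain ⟨e, h1, h2⟩ := honey_adj.1 (P.adj_sub hb)
    have hu : ub (cfg P h.fin) e := (ub_cfg h).2 (by rw [h1, h2]; exact hb)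
    intro h0
    have := E.Hx.ub_supp hu
    rw [h0] at this
    simp at this
  cn := by
    obtain ⟨-, hc⟩ := conn_iff.1 h.conn
    have mm := mt_cfg h
    have yy := ny_cfg h
    intro k l hk hl
    have v1 : si (k.1, bd k.2) ∈ P.verts := P.edge_vert ((ub_cfg h).1 (E.Hx.ub_bd.2 hk))
    have v2 : si (l.1, bd l.2) ∈ P.verts := P.edge_vert ((ub_cfg h).1 (E.Hx.ub_bd.2 hl))
    have key : ∀ b, Relation.ReflTransGen P.Adj (si (k.1, bd k.2)) b → ∀ l, At (cfg P h.fin) b l → Cn (cfg P h.fin) Set.univ k l := by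
      intro b hb
      induction hb with
      | refl => exact fun l hl => at_same yy ⟨hk, rfl⟩ hl
      | tail h1 h2 ih =>
        intro l hl
        obtain ⟨e, h3, h4⟩ := honey_adj.1 (P.adj_sub h2)
        subst h3 h4
        have hu : ub (cfg P h.fin) e := (ub_cfg h).2 h2
        obtain ⟨k', hk'⟩ := ex_at yy hu
        exact (ih k' hk').trans _ _ _ (at_step mm yy hu hk' hl)
    exact key _ (hc _ v1 _ v2) l ⟨hl, rfl⟩

theorem hl_cfg {P : honey.Subgraph} (h : HexPol P) : HL (cfg P h.fin) := ⟨lp_cfg h, ny_cfg h⟩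

/-! ### the two maps are inverse -/

theorem cfg_sub {γ : Cfg} (l : HL γ) : cfg (sub γ l.lp.mt) (sub_pol l).fin = γ := by
  ext v
  refine E.Hx.us_inj (ny_cfg (sub_pol l) v) (l.ny v) fun s => ?_
  rw [Bool.eq_iff_iff]
  exact (ub_cfg (sub_pol l) (e := (v, s))).trans sub_adj

theorem sub_cfg {P : honey.Subgraph} (h : HexPol P) : sub (cfg P h.fin) (lp_cfg h).mt = P := by
  have hA : ∀ a b, (sub (cfg P h.fin) (lp_cfg h).mt).Adj a b ↔ P.Adj a b := by
    intro a b
    constructor
    · rintro ⟨e, h1, rfl, rfl⟩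
      exact (ub_cfg h).1 h1
    · intro hab
      obtain ⟨e, rfl, rfl⟩ := honey_adj.1 (P.adj_sub hab)
      exact ⟨e, (ub_cfg h).2 hab, rfl, rfl⟩
  refine SimpleGraph.Subgraph.ext ?_ (funext fun a => funext fun b => propext (hA a b))
  ext a
  constructor
  · rintro ⟨e, h1, rfl⟩
    exact P.edge_vert ((ub_cfg h).1 h1)
  · intro ha
    obtain ⟨b, hb⟩ : (P.neighborSet a).Nonempty := by
      rw [Set.nonempty_iff_ne_empty]
      intro h0
      have := h.deg a ha
      rw [h0, Set.ncard_empty] at this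
      omega
    obtain ⟨e, rfl, rfl⟩ := honey_adj.1 (P.adj_sub hb)
    exact ⟨e, (ub_cfg h).2 hb, rfl⟩

/-- **self-avoiding polygons of the honeycomb lattice are loops without the cell `y`** -/
noncomputable def hexEquiv : {P : honey.Subgraph // HexPol P} ≃ {γ : Cfg // HL γ} where
  toFun P := ⟨cfg P.1 P.2.fin, hl_cfg P.2⟩
  invFun γ := ⟨sub γ.1 γ.2.lp.mt, sub_pol γ.2⟩
  left_inv P := Subtype.ext (sub_cfg P.2)
  right_inv γ := Subtype.ext (cfg_sub γ.2)

/-- the weight -/
theorem ncard_cfg {P : honey.Subgraph} (h : HexPol P) : P.verts.ncard = (hs (cfg P h.fin)).card := by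
  rw [← ncard_verts (m := (lp_cfg h).mt), sub_cfg h]

/-! ### inside and outside -/

private theorem ocs {γ : Cfg} {h : He} (ho : oc γ h) : h.1 ∈ γ.support := by
  rw [Finsupp.mem_support_iff]
  intro e
  apply ho
  rw [e]
  rfl

theorem sg_odd (γ : Cfg) (p y : ℤ) : E.sg γ p y = 1 ↔ OddMany fun k => oc γ ((p, y + k), .W) := by
  classical
  have hf : {k : ℕ | oc γ ((p, y + k), .W)}.Finite := by
    refine Set.Finite.of_finite_image (f := fun k : ℕ => ((p, y + k) : Pt)) ((γ.support.finite_toSet).subset ?_) ?_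
    · rintro _ ⟨k, hk, rfl⟩
      exact ocs hk
    · intro k _ k' _ h
      have := congrArg Prod.snd h
      simp only at this
      omega
  have h1 : E.sg γ p y = ((γ.support.filter fun v => (v.1 = p ∧ y ≤ v.2) ∧ oc γ (v, .W)).card : ZMod 2) := by
    unfold E.sg E.io
    rw [Finset.card_filter, Nat.cast_sum]
    refine Finset.sum_congr rfl fun v _ => ?_
    by_cases h2 : v.1 = p ∧ y ≤ v.2
    · by_cases h3 : oc γ (v, .W)
      · rw [if_pos h2, if_pos h3, if_pos ⟨h2, h3⟩, Nat.cast_one]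
      · rw [if_pos h2, if_neg h3, if_neg fun h => h3 h.2, Nat.cast_zero]
    · rw [if_neg h2, if_neg fun h => h2 h.1, Nat.cast_zero]
  have h2 : (γ.support.filter fun v => (v.1 = p ∧ y ≤ v.2) ∧ oc γ (v, .W)).card = {k : ℕ | oc γ ((p, y + k), .W)}.ncard := by
    rw [← Set.ncard_coe_finset]
    symm
    refine Set.ncard_congr (fun k _ => ((p, y + k) : Pt)) (fun k hk => ?_) (fun k k' _ _ h => ?_) fun v hv => ?_
    · rw [Finset.mem_coe, Finset.mem_filter]
      exact ⟨ocs hk, ⟨rfl, by simp⟩, hk⟩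
    · have := congrArg Prod.snd h
      simp only at this
      omega
    · rw [Finset.mem_coe, Finset.mem_filter] at hv
      obtain ⟨-, ⟨h3, h4⟩, h5⟩ := hv
      obtain ⟨a, b⟩ := v
      simp only at h3 h4 h5
      subst h3
      refine ⟨(b - y).toNat, ?_, ?_⟩
      · show oc γ ((a, y + ((b - y).toNat : ℤ)), .W)
        rw [Int.toNat_of_nonneg (by omega), show y + (b - y) = b by ring]
        exact h5
      · rw [Int.toNat_of_nonneg (by omega), show y + (b - y) = b by ring]
  rw [h1, h2]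
  unfold OddMany
  exact ZMod.natCast_eq_one_iff_odd

theorem hexIn_iff {γ : Cfg} (l : HL γ) (f : ℤ × ℤ) : HexIn (sub γ l.lp.mt) f ↔ E.sg γ f.1 f.2 = 1 := by
  rw [sg_odd]
  unfold HexIn
  have h : ∀ k : ℕ, (sub γ l.lp.mt).Adj (f.1 - 1, f.2 + k, true) (f.1, f.2 + k, false) ↔ oc γ ((f.1, f.2 + k), .W) := by
    intro k
    have e1 : si (rev (((f.1, f.2 + k), bd .W) : Bo)) = (f.1 - 1, f.2 + k, true) := rfl
    have e2 : si (((f.1, f.2 + k), bd .W) : Bo) = (f.1, f.2 + k, false) := rfl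
    rw [← e1, ← e2, SimpleGraph.Subgraph.adj_comm, sub_adj]
    exact E.Hx.ub_bd (h := ((f.1, f.2 + k), .W))
  simp only [h]

theorem hexIn_cfg {P : honey.Subgraph} (h : HexPol P) (f : ℤ × ℤ) : HexIn P f ↔ E.sg (cfg P h.fin) f.1 f.2 = 1 := by
  have := hexIn_iff (hl_cfg h) f
  rwa [sub_cfg h] at this

end Pool.Agent.ROT.UPub
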