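import Pool.Agent.ROT.UPubH2
import Pool.Agent.ROT.UOutF41

/-!
# ROT, universality, public statement: the mass of the honeycomb polygons (helper42)

**`phex_eq`**, **`phex_sum`** : `Phex τ f` is the measure of the pattern for the column angles `π/8`.
-/

set_option autoImplicit false

namespace Pool.Agent.ROT.UPub

open Pool.Agent.YBC (Dir)
open Pool.Agent.ROT.E (Cell Cfg He Pt nx rv oc vp Mt Lk Cn Lp)
open Pool.Agent.ROT.E.Hx (Sx Bo wi us ub rev rt inn Ny HL bd hs nxt wl)
open Pool.Agent.ROT.UId (Pat Pu tz mu_hex)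
open Pool.Agent.ROT.U (muU hc)
open scoped ENNReal

theorem xC_eq : xC = HexObs.xc := by
  unfold xC HexObs.xc
  rw [Real.cos_pi_div_eight]
  congr 1
  ring

theorem zmod_iff {a : ZMod 2} {b : Bool} : a = (if b then 1 else 0) ↔ (a = 1 ↔ b = true) := by
  revert a b
  decide

theorem hexTerm_nonneg {m : ℕ} (τ : Fin m → Bool) (f : Fin m → ℤ × ℤ) (P : honey.Subgraph) : 0 ≤ hexTerm τ f P := by
  unfold hexTerm
  split_ifs
  · unfold xC
    positivity
  · exact le_rfl

/-- the configurations with the pattern -/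
def PatC {m : ℕ} (τ : Fin m → Bool) (f : Fin m → ℤ × ℤ) : Set Cfg := {γ | ∀ i, E.sg γ (f i).1 (f i).2 = tz τ i}

theorem hexTerm_cfg {m : ℕ} (τ : Fin m → Bool) (f : Fin m → ℤ × ℤ) {P : honey.Subgraph} (h : HexPol P) :
    ENNReal.ofReal (hexTerm τ f P) = (PatC τ f).indicator wl (cfg P h.fin) := by
  classical
  have h1 : (∀ i, (HexIn P (f i) ↔ τ i = true)) ↔ cfg P h.fin ∈ PatC τ f := by
    refine forall_congr' fun i => ?_
    rw [hexIn_cfg h]
    exact zmod_iff.symm
  unfold hexTerm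
  by_cases h2 : cfg P h.fin ∈ PatC τ f
  · rw [if_pos ⟨h, h1.2 h2⟩, Set.indicator_of_mem h2, ncard_cfg h, xC_eq]
    rfl
  · rw [if_neg fun h3 => h2 (h1.1 h3.2), Set.indicator_of_notMem h2, ENNReal.ofReal_zero]

theorem tsum_hex {m : ℕ} (τ : Fin m → Bool) (f : Fin m → ℤ × ℤ) :
    ∑' P : honey.Subgraph, ENNReal.ofReal (hexTerm τ f P) = muU hc (Pat (tz τ) f) := by
  classical
  have h1 : muU hc (Pat (tz τ) f) = ∑' γ : {γ : Cfg // HL γ}, (PatC τ f).indicator wl γ.1 := (mu_hex (PatC τ f)).symm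
  rw [h1, ← hexEquiv.tsum_eq]
  have h2 : ∑' P : honey.Subgraph, ENNReal.ofReal (hexTerm τ f P) =
      ∑' P : {P : honey.Subgraph // HexPol P}, ENNReal.ofReal (hexTerm τ f P.1) := by
    refine Eq.trans (tsum_congr fun P => ?_)
      (tsum_subtype {P : honey.Subgraph | HexPol P} fun P => ENNReal.ofReal (hexTerm τ f P)).symm
    by_cases h : HexPol P
    · rw [Set.indicator_of_mem (show P ∈ {P : honey.Subgraph | HexPol P} from h)]
    · rw [Set.indicator_of_notMem (show P ∉ {P : honey.Subgraph | HexPol P} from h)]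
      unfold hexTerm
      rw [if_neg fun h3 => h h3.1, ENNReal.ofReal_zero]
  rw [h2]
  exact tsum_congr fun P => hexTerm_cfg τ f P.2

/-- **the mass of the honeycomb polygons with the pattern** -/
theorem phex_eq {m : ℕ} (τ : Fin m → Bool) (f : Fin m → ℤ × ℤ) : Phex τ f = Pu hc (tz τ) f := by
  unfold Phex Pu
  rw [← tsum_hex, ENNReal.tsum_toReal_eq fun _ => ENNReal.ofReal_ne_top]
  exact tsum_congr fun P => (ENNReal.toReal_ofReal (hexTerm_nonneg τ f P)).symm

/-- **the sum converges** -/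
theorem phex_sum {m : ℕ} (τ : Fin m → Bool) (f : Fin m → ℤ × ℤ) (h : muU hc (Pat (tz τ) f) ≠ ⊤) : Summable (hexTerm τ f) := by
  rw [← tsum_hex] at h
  have := ENNReal.summable_toReal h
  refine this.congr fun P => ?_
  exact (ENNReal.toReal_ofReal (hexTerm_nonneg τ f P))

end Pool.Agent.ROT.UPub
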