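import Pool.Agent.ROT.UPubD
import Pool.Agent.ROT.UOutF41
import Pool.Agent.ROT.UNear0

/-!
# UNIV, the public text, square side (helper98)

`psq_eq` : the mass `Psq` of the public definitions is the mass `Pu` of the pattern; `psq_sum` : summability.
-/

set_option autoImplicit false

namespace Pool.Agent.ROT.UPub

open MeasureTheory
open Pool.Agent.YBC (Dir)
open Pool.Agent.UNI (wR DR)
open Pool.Agent.ROT.E (Cell Cfg)
open Pool.Agent.ROT.I (Lps)
open scoped ENNReal

/-! ### the dictionary -/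

/-- states and cells -/
def sc : State ≃ Cell where
  toFun
    | .o => .o
    | .h => .h
    | .v => .v
    | .sw => .sw
    | .ne => .ne
    | .se => .se
    | .nw => .nw
    | .x => .x
    | .y => .y
  invFun
    | .o => .o
    | .h => .h
    | .v => .v
    | .sw => .sw
    | .ne => .ne
    | .se => .se
    | .nw => .nw
    | .x => .x
    | .y => .y
  left_inv := by decide
  right_inv := by decide

/-- sides and directions -/
def sd : Side ≃ Dir where
  toFun
    | .E => .E
    | .N => .N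
    | .W => .W
    | .S => .S
  invFun
    | .E => .E
    | .N => .N
    | .W => .W
    | .S => .S
  left_inv := by decide
  right_inv := by decide

theorem sc_zero : sc 0 = 0 := rfl

theorem sc_join : ∀ (s : State) (d : Side), (sc s).p (sd d) = sd (s.join d) := by decide

theorem sd_opp : ∀ d : Side, (sd d).op = sd d.opp := by decide

theorem nx_sd (v : ℤ × ℤ) (d : Side) : E.nx v (sd d) = nbr v d := by cases d <;> rfl

/-- configurations -/
noncomputable def cc : Config ≃ Cfg := Finsupp.mapRange.equiv sc sc_zero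

theorem cc_apply (c : Config) (v : ℤ × ℤ) : cc c v = sc (c v) := rfl

/-- half edges -/
def hh : (ℤ × ℤ) × Side ≃ E.He := Equiv.prodCongr (Equiv.refl _) sd

theorem used_iff (c : Config) (a : (ℤ × ℤ) × Side) : used c a ↔ E.oc (cc c) (hh a) := by
  obtain ⟨v, d⟩ := a
  change (c v).join d ≠ d ↔ (sc (c v)).p (sd d) ≠ sd d
  rw [sc_join, ne_eq, ne_eq, sd.apply_eq_iff_eq]

theorem vp_hh (c : Config) (a : (ℤ × ℤ) × Side) : E.vp (cc c) (hh a) = hh (a.1, (c a.1).join a.2) := by
  obtain ⟨v, d⟩ := a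
  refine Prod.ext rfl ?_
  exact sc_join (c v) d

theorem rv_hh (a : (ℤ × ℤ) × Side) : E.rv (hh a) = hh (nbr a.1 a.2, a.2.opp) := by
  obtain ⟨v, d⟩ := a
  exact Prod.ext (nx_sd v d) (sd_opp d)

theorem link_iff (c : Config) (a b : (ℤ × ℤ) × Side) : link c a b ↔ E.Lk (cc c) Set.univ (hh a) (hh b) := by
  unfold link E.Lk
  rw [used_iff, vp_hh, rv_hh, hh.apply_eq_iff_eq, hh.apply_eq_iff_eq]
  constructor
  · rintro ⟨h1, h2⟩
    exact ⟨h1, trivial, h2.imp id fun h => ⟨h, trivial⟩⟩
  · rintro ⟨h1, -, h2⟩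
    exact ⟨h1, h2.imp id fun h => h.1⟩

theorem eqv_iff (c : Config) (a b : (ℤ × ℤ) × Side) :
    Relation.EqvGen (link c) a b ↔ E.Cn (cc c) Set.univ (hh a) (hh b) := by
  constructor
  · intro h
    induction h with
    | rel a b h => exact Relation.EqvGen.rel _ _ ((link_iff c a b).1 h)
    | refl a => exact Relation.EqvGen.refl _
    | symm a b _ ih => exact ih.symm
    | trans a b d _ _ ih1 ih2 => exact Relation.EqvGen.trans _ _ _ ih1 ih2
  · intro H
    have key : ∀ h k, E.Cn (cc c) Set.univ h k → Relation.EqvGen (link c) (hh.symm h) (hh.symm k) := by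
      intro h k hk
      induction hk with
      | rel h k l =>
        refine Relation.EqvGen.rel _ _ ((link_iff c _ _).2 ?_)
        rwa [Equiv.apply_symm_apply, Equiv.apply_symm_apply]
      | refl h => exact Relation.EqvGen.refl _
      | symm h k _ ih => exact ih.symm
      | trans h k l _ _ ih1 ih2 => exact Relation.EqvGen.trans _ _ _ ih1 ih2
    have := key _ _ H
    rwa [Equiv.symm_apply_apply, Equiv.symm_apply_apply] at this

/-- **polygons** -/
theorem pol_iff (c : Config) : SqPol c ↔ E.Lp (cc c) := by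
  have hz : cc 0 = 0 := by
    ext v
    rfl
  constructor
  · intro h
    refine ⟨?_, ?_, ?_⟩
    · intro k _ _
      obtain ⟨⟨v, d⟩, rfl⟩ := hh.surjective k
      have := h.fit v d
      rw [used_iff, used_iff, ← rv_hh (v, d)] at this
      exact this
    · intro h0
      apply h.ne
      apply cc.injective
      rw [h0, hz]
    · intro k l hk hl
      obtain ⟨a, rfl⟩ := hh.surjective k
      obtain ⟨b, rfl⟩ := hh.surjective l
      exact (eqv_iff c a b).1 (h.conn a b ((used_iff c a).2 hk) ((used_iff c b).2 hl))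
  · intro h
    refine ⟨?_, ?_, ?_⟩
    · rintro rfl
      exact h.ne hz
    · intro v d
      have := h.mt (hh (v, d)) trivial trivial
      rw [rv_hh, ← used_iff, ← used_iff] at this
      exact this
    · intro a b ha hb
      exact (eqv_iff c a b).2 (h.cn _ _ ((used_iff c a).1 ha) ((used_iff c b).1 hb))

/-! ### inside -/

/-- **the side of a face** -/
theorem in_iff (c : Config) (f : ℤ × ℤ) : SqIn c f ↔ E.sg (cc c) f.1 f.2 = 1 := by
  classical
  have e1 : E.sg (cc c) f.1 f.2 =
      (((cc c).support.filter fun v => (v.1 = f.1 ∧ f.2 ≤ v.2) ∧ E.oc (cc c) (v, .W)).card : ZMod 2) := by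
    unfold E.sg E.io
    rw [Finset.card_filter]
    push_cast
    refine Finset.sum_congr rfl fun v _ => ?_
    by_cases h1 : v.1 = f.1 ∧ f.2 ≤ v.2
    · by_cases h2 : E.oc (cc c) (v, .W)
      · rw [if_pos h1, if_pos h2, if_pos ⟨h1, h2⟩]
      · rw [if_pos h1, if_neg h2, if_neg fun h => h2 h.2]
    · rw [if_neg h1, if_neg fun h => h1 h.1]
  have e2 : {k : ℕ | used c ((f.1, f.2 + k), .W)}.ncard =
      ((cc c).support.filter fun v => (v.1 = f.1 ∧ f.2 ≤ v.2) ∧ E.oc (cc c) (v, .W)).card := by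
    rw [← Set.ncard_coe_finset]
    refine Set.ncard_congr (fun k _ => (f.1, f.2 + (k : ℤ))) ?_ ?_ ?_
    · intro k hk
      have hk' := (used_iff c _).1 hk
      rw [Finset.coe_filter]
      refine ⟨?_, ⟨rfl, ?_⟩, hk'⟩
      · rw [Finsupp.mem_support_iff]
        intro h0
        apply hk'
        change ((cc c) (f.1, f.2 + (k : ℤ))).p _ = _
        rw [h0]
        rfl
      · change f.2 ≤ f.2 + (k : ℤ)
        omega
    · intro a b _ _ h
      have h3 : f.2 + (a : ℤ) = f.2 + (b : ℤ) := congrArg Prod.snd h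
      omega
    · rintro ⟨p, y⟩ hv
      rw [Finset.coe_filter] at hv
      obtain ⟨-, ⟨h1, h2⟩, h3⟩ := hv
      change p = f.1 at h1
      change f.2 ≤ y at h2
      subst h1
      refine ⟨(y - f.2).toNat, ?_, ?_⟩
      · change used c ((f.1, f.2 + ((y - f.2).toNat : ℤ)), .W)
        rw [used_iff, Int.toNat_of_nonneg (by omega), add_sub_cancel]
        exact h3
      · change (f.1, f.2 + ((y - f.2).toNat : ℤ)) = (f.1, y)
        rw [Int.toNat_of_nonneg (by omega), add_sub_cancel]
  unfold SqIn OddMany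
  rw [e2, e1, ZMod.natCast_eq_one_iff_odd]

/-! ### weights -/

theorem DR90 : DR (3 * Real.pi / 16) = Real.cos (Real.pi / 16) ^ 2 := by
  unfold DR
  have e1 : 3 * Real.pi / 16 + Real.pi / 4 = Real.pi / 2 - Real.pi / 16 := by ring
  have e2 : 3 * Real.pi / 16 + 3 * Real.pi / 8 = Real.pi / 16 + Real.pi / 2 := by ring
  rw [e1, e2, Real.sin_pi_div_two_sub, Real.sin_add_pi_div_two, sq]

theorem wt90 (s : State) : (sc s).wt (wR (3 * Real.pi / 16)) = s.wt := by
  have e1 : 3 * Real.pi / 8 - 3 * Real.pi / 16 = 3 * Real.pi / 16 := by ring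
  have e2 : Real.pi / 4 - 3 * Real.pi / 16 = Real.pi / 16 := by ring
  have e3 : 3 * Real.pi / 16 - Real.pi / 8 = Real.pi / 16 := by ring
  cases s
  · rfl
  · change (wR (3 * Real.pi / 16)).v = vS
    unfold wR vS
    simp only
    rw [DR90, e1, sq (Real.sin (3 * Real.pi / 16))]
  · change (wR (3 * Real.pi / 16)).v = vS
    unfold wR vS
    simp only
    rw [DR90, e1, sq (Real.sin (3 * Real.pi / 16))]
  · change (wR (3 * Real.pi / 16)).u1 = uS
    unfold wR uS
    simp only
    rw [DR90, e1]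
  · change (wR (3 * Real.pi / 16)).u1 = uS
    unfold wR uS
    simp only
    rw [DR90, e1]
  · change (wR (3 * Real.pi / 16)).u2 = uS
    unfold wR uS
    simp only
    rw [DR90]
  · change (wR (3 * Real.pi / 16)).u2 = uS
    unfold wR uS
    simp only
    rw [DR90]
  · change (wR (3 * Real.pi / 16)).w1 = wS
    unfold wR wS
    simp only
    rw [DR90, e1, e2]
  · change (wR (3 * Real.pi / 16)).w2 = wS
    unfold wR wS
    simp only
    rw [DR90, e3, mul_comm]

theorem sqWt_eq (c : Config) : sqWt c = U.Wl (3 * Real.pi / 16) (cc c) := by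
  unfold sqWt U.Wl cc
  change _ = (Finsupp.mapRange sc sc_zero c).prod fun _ c => c.wt (wR (3 * Real.pi / 16))
  rw [Finsupp.prod_mapRange_index (fun _ => rfl)]
  unfold Finsupp.prod
  exact Finset.prod_congr rfl fun v _ => (wt90 _).symm

/-! ### the masses -/

theorem tz_iff {m : ℕ} (τ : Fin m → Bool) (c : Config) (f : Fin m → ℤ × ℤ) :
    (∀ i, (SqIn c (f i) ↔ τ i = true)) ↔ ∀ i, E.sg (cc c) (f i).1 (f i).2 = UId.tz τ i := by
  refine forall_congr' fun i => ?_
  rw [in_iff]
  unfold UId.tz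
  have z2 : ∀ a : ZMod 2, a = 0 ∨ a = 1 := by decide
  cases hb : τ i
  · rw [if_neg (by simp)]
    rcases z2 (E.sg (cc c) (f i).1 (f i).2) with h | h <;> simp [h]
  · rw [if_pos rfl]
    simp

open Classical in
theorem term_eq {m : ℕ} (τ : Fin m → Bool) (f : Fin m → ℤ × ℤ) (c : Config) : sqTerm τ f c =
    if E.Lp (cc c) ∧ ∀ i, E.sg (cc c) (f i).1 (f i).2 = UId.tz τ i then U.Wl (3 * Real.pi / 16) (cc c) else 0 := by
  unfold sqTerm
  by_cases h : SqPol c ∧ ∀ i, (SqIn c (f i) ↔ τ i = true)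
  · rw [if_pos h, if_pos ⟨(pol_iff c).1 h.1, (tz_iff τ c f).1 h.2⟩, sqWt_eq]
  · rw [if_neg h, if_neg fun h' => h ⟨(pol_iff c).2 h'.1, (tz_iff τ c f).2 h'.2⟩]

theorem a90 : Real.pi / 8 ≤ 3 * Real.pi / 16 ∧ 3 * Real.pi / 16 ≤ Real.pi / 4 := by
  have := Real.pi_pos
  constructor <;> linarith

/-- **the public mass is the mass of the pattern** -/
theorem psq_eq {m : ℕ} (τ : Fin m → Bool) (f : Fin m → ℤ × ℤ) :
    Psq τ f = UId.Pu (fun _ => 3 * Real.pi / 16) (UId.tz τ) f := by
  classical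
  rw [← UId.Pn_eq a90.1 a90.2]
  unfold Psq U.Pn
  rw [← cc.tsum_eq]
  refine tsum_congr fun c => ?_
  rw [term_eq]

/-- **summability** -/
theorem psq_sum {m : ℕ} (τ : Fin m → Bool) (f : Fin m → ℤ × ℤ)
    (h : U.muU (fun _ => 3 * Real.pi / 16) (UId.Pat (UId.tz τ) f) ≠ ⊤) : Summable (sqTerm τ f) := by
  classical
  have hu : E.An (fun _ => 3 * Real.pi / 16) := fun _ => a90
  have e1 : (fun c : Config => sqTerm τ f c) = fun c =>
      (fun w : Cfg => if E.Lp w ∧ ∀ i, E.sg w (f i).1 (f i).2 = UId.tz τ i then U.Wl (3 * Real.pi / 16) w else 0) (cc c) := by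
    funext c
    rw [term_eq]
  change Summable fun c : Config => sqTerm τ f c
  rw [e1]
  refine (cc.summable_iff (f := fun w : Cfg => if E.Lp w ∧ ∀ i, E.sg w (f i).1 (f i).2 = UId.tz τ i then
    U.Wl (3 * Real.pi / 16) w else 0)).2 ?_
  rw [UId.muU_apply] at h
  have h1 : Summable fun γ : Lps => ((UId.Pat (UId.tz τ) f).indicator
      (fun γ => ENNReal.ofReal (U.MU (fun _ => 3 * Real.pi / 16) γ.1)) γ).toReal := ENNReal.summable_toReal h
  have h2 : Summable ((fun w : Cfg => if E.Lp w ∧ ∀ i, E.sg w (f i).1 (f i).2 = UId.tz τ i then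
      U.Wl (3 * Real.pi / 16) w else 0) ∘ ((↑) : {w : Cfg // E.Lp w} → Cfg)) := by
    refine h1.congr fun γ => ?_
    by_cases hp : γ ∈ UId.Pat (UId.tz τ) f
    · rw [Set.indicator_of_mem hp, ENNReal.toReal_ofReal (U.MU_nn hu _), Function.comp_apply, if_pos ⟨γ.2, hp⟩]
      rfl
    · rw [Set.indicator_of_notMem hp, Function.comp_apply, if_neg fun h' => hp h'.2]
      rfl
  refine (summable_subtype_iff_indicator.1 h2).congr fun w => ?_
  by_cases hw : E.Lp w
  · exact Set.indicator_of_mem (s := {w : Cfg | E.Lp w}) hw _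
  · refine (Set.indicator_of_notMem (s := {w : Cfg | E.Lp w}) hw _).trans ?_
    rw [if_neg fun h' => hw h'.1]

end Pool.Agent.ROT.UPub
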