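import Pool.Agent.ROT.URotB
import Pool.Agent.ROT.Joint2

/-!
# ROT, UNIV: the smeared pattern functions of the honeycomb are asymptotically rotation invariant, no hypothesis (helper53)
-/

set_option autoImplicit false

namespace Pool.Agent.ROT.URt

open MeasureTheory Filter Topology
open Pool.Agent.ROT.I
open HexObs.ART

/-- **the smeared pattern functions of the honeycomb are asymptotically invariant under all rotations** -/
theorem rotU_hex (m : ℕ) (τ : Fin m → ZMod 2) : RotU τ := by
  obtain ⟨A, a, b, hab, hW⟩ := weak_hex (lrall_h3t h3T) (A6.cap_X (capD_of t2SX))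
  intro φ hφ t
  refine rot_U (I.mass_of HexObs.NK.massU) (I.massLo_of HexObs.NK.massL) I.far I.nts (A := A) (c := 2 - Real.sqrt 2)
    (fun N => ?_) (fun N => ?_) qm_pos (Eventually.of_forall fun N => ?_) hW hφ t
  · obtain ⟨h1, h2, -, -⟩ := hab N
    rw [abs_of_nonneg (qm_pos.le.trans h1)]
    exact h2
  · obtain ⟨-, -, h3, h4⟩ := hab N
    rw [abs_neg, abs_of_nonneg h3]
    exact h4
  · exact (hab N).1.trans (le_abs_self _)

/-- the bounds of the pattern functions -/
theorem pbd_hex : PBd := pbd_of (I.mass_of HexObs.NK.massU) I.far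

end Pool.Agent.ROT.URt
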