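import Pool.Agent.ROT.UPubF
import Pool.Agent.ROT.UPubS
import Pool.Agent.ROT.UPubH3
import Pool.Agent.ROT.URotC
import Pool.Agent.ROT.UAll
import Pool.Agent.ROT.UNearAll

/-!
# ROT, UNIV: the public statement from the exact increment (helper53)

**`pubU_inc`** : `instU.INC2 → PubU`.
-/

set_option autoImplicit false

namespace Pool.Agent.ROT.UPub

open Pool.Agent.ROT.URt

/-- **the public statement, from the exact increment of the instance** -/
theorem pubU_inc (hI : U.instU.INC2) : PubU :=
  pubU_of (W := U.LatB U.bb) (fun _ τ f => psq_eq τ f) (fun _ τ f => phex_eq τ f) (fun _ τ f h => psq_sum τ f h)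
    (fun _ τ f h => phex_sum τ f h) (U.univ_of_inc2 hI) U.nearB (Or.inl rfl) (Or.inr (Or.inl rfl)) pbd_hex rotU_hex

end Pool.Agent.ROT.UPub
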