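import Pool.Agent.ROT.IFin
import Pool.Agent.ROT.I2a
import Pool.Agent.ROT.UEq41

/-!
# ROT, UNIV: the pattern functions of the honeycomb are asymptotically invariant under all rotations, pointwise (helper53)

* `flow_mul` : the flow of the multiplication by `b I`;
* **`rot_U`** : the weak identity of block I ⇒ the smeared pattern functions are asymptotically invariant under every rotation
  (Group4 on the loops modulo translation gives the generator `b I`, `b ≠ 0`, along subsequences);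
* `equiI` : equicontinuity (helper41's `equi_of`) in the embedding of block I;
* **`rot_pt`**, **`rot_unif_pt`** : pointwise, and uniformly in the points and in the rotation.
-/

set_option autoImplicit false

namespace Pool.Agent.ROT.URt

open MeasureTheory Filter Topology
open Pool.Agent.ROT.I
open Pool.Agent.ROT.I.Tr
open Pool.Agent.ROT.U (hc muU MU NearM)
open Pool.Agent.ROT.UId (Pu Pat Equi)

noncomputable section

/-! ### the flow of a multiplication -/

/-- multiplication operators -/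
def mulH : ℂ →+* LB where
  toFun z := (ContinuousLinearMap.mul ℝ ℂ) z
  map_one' := by
    apply ContinuousLinearMap.ext
    intro z
    simp
  map_mul' a b := by
    apply ContinuousLinearMap.ext
    intro z
    simp [mul_assoc]
  map_zero' := map_zero _
  map_add' := map_add _

theorem mulH_apply (a z : ℂ) : mulH a z = a * z := rfl

theorem flow_mul {B : LB} {b : ℝ} (h : ∀ z, B z = b * Complex.I * z) (t : ℝ) (z : ℂ) :
    flow B t z = Complex.exp ((t * b : ℝ) * Complex.I) * z := by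
  have e : t • B = mulH (((t * b : ℝ) : ℂ) * Complex.I) := by
    apply ContinuousLinearMap.ext
    intro z
    rw [mulH_apply, smul_apply, h, Complex.real_smul]
    push_cast
    ring
  have hcont : Continuous (mulH : ℂ → LB) := (ContinuousLinearMap.mul ℝ ℂ).continuous
  rw [flow_apply, e, ← NormedSpace.map_exp mulH hcont, ← Complex.exp_eq_exp_ℂ]
  rfl

/-! ### the smeared pattern functions -/

variable {m : ℕ} {τ : Fin m → ZMod 2}

/-- **the smeared pattern functions are asymptotically invariant under every rotation** -/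
theorem rot_U {a b : ℕ → ℝ} (hM : I.Mass) (hLo : MassLo) (hF : Far) (hS : NTS) {A c : ℝ} (ha : ∀ N, |a N| ≤ A)
    (hb : ∀ N, |b N| ≤ A) (hc : 0 < c) (hac : ∀ᶠ N in atTop, c ≤ |a N|) (hW : Weak a b) {φ : Pm m → ℝ} (hφ : Tst τ φ)
    (t : ℝ) : Tendsto (fun N : ℕ => U N τ (fun x => φ fun i => Complex.exp (t * Complex.I) * x i) - U N τ φ) atTop
      (𝓝 0) := by
  have h2 : I2 a b := i2_weak hM hF hS ha hb hW
  have hB : ∀ N, ‖BC (a N) (b N) 1‖ ≤ 2 * A * (‖e1‖ + ‖e2‖) := fun N => by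
    refine (norm_BC_le _ _ _).trans ?_
    rw [norm_one, mul_one]
    exact mul_le_mul_of_nonneg_right (by linarith [ha N, hb N]) (by positivity)
  have hBI : ∀ N, ‖BC (a N) (b N) Complex.I‖ ≤ 2 * A * (‖e1‖ + ‖e2‖) := fun N => by
    refine (norm_BC_le _ _ _).trans ?_
    rw [Complex.norm_I, mul_one]
    exact mul_le_mul_of_nonneg_right (by linarith [ha N, hb N]) (by positivity)
  apply tendsto_of_subseq_tendsto
  intro ns hns
  obtain ⟨ψ, hψ, B', l1, lI, ⟨β, hβ⟩, -⟩ := sub_asy (asy_MT hM) (mass_MT hM hLo) (fun F hF => by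
      obtain ⟨C, L, r, hr, hF⟩ := hF
      exact MT_R6 hM hr hF) (fun N => BC (a N) (b N)) _ hB hBI (fun F hF τ => by
      obtain ⟨C, L, r, hr, hF⟩ := hF
      exact mt_flow hM ha hb h2 hr hF τ) ns hns
  have hk : Tendsto (fun n => ns (ψ n)) atTop atTop := hns.comp hψ.tendsto_atTop
  obtain ⟨C, hC1, hCI, hCt⟩ := tendsto_of_values (B := fun n => BC (a (ns (ψ n))) (b (ns (ψ n)))) l1 lI
  have hCB : C = B' := LB_ext hC1 hCI
  rw [hCB] at hCt
  have hβ0 : β ≠ 0 := by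
    intro h0
    have hz : ∀ z, B' z = 0 := fun z => by
      rw [hβ z, h0]
      simp
    have h3 : Tendsto (fun n => ‖BC (a (ns (ψ n))) (b (ns (ψ n))) 1‖ + ‖BC (a (ns (ψ n))) (b (ns (ψ n))) Complex.I‖) atTop
        (𝓝 (‖B' 1‖ + ‖B' Complex.I‖)) := l1.norm.add lI.norm
    have h4 : c ≤ ‖B' 1‖ + ‖B' Complex.I‖ := by
      refine ge_of_tendsto h3 ((hk.eventually hac).mono fun n hn => ?_)
      exact hn.trans (BC_lower _ _)
    rw [hz, hz, norm_zero] at h4
    linarith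
  refine ⟨ψ, ?_⟩
  have h := U_flow_lim (pbd_of hM hF) hW hk hCt hφ (t / β)
  refine h.congr fun n => ?_
  have e : (fun x : Pm m => φ (dgf (flow B' (t / β)) x)) = fun x => φ fun i => Complex.exp (t * Complex.I) * x i := by
    funext x
    congr 1
    funext i
    rw [dgf_eq]
    simp only
    rw [flow_mul hβ, div_mul_cancel₀ _ hβ0]
  rw [e]

/-! ### positions -/

/-- the vertex near `z` -/
def qz (N : ℕ) (z : ℂ) : Pt := (⌊(N : ℝ) * cx z⌋, ⌊(N : ℝ) * cy z⌋)

lemma ne1 : ‖e1‖ ≤ 2 := by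
  rw [e1, Complex.norm_def, Complex.normSq_mk]
  rw [Real.sqrt_le_left (by norm_num)]
  have : √3 * √3 = 3 := Real.mul_self_sqrt (by norm_num)
  nlinarith

lemma ne2 : ‖e2‖ ≤ 2 := by
  rw [e2, Complex.norm_def, Complex.normSq_mk]
  rw [Real.sqrt_le_left (by norm_num)]
  have : √3 * √3 = 3 := Real.mul_self_sqrt (by norm_num)
  nlinarith

lemma nEE (p : ℝ × ℝ) : ‖EE p‖ ≤ 4 * ‖p‖ := by
  refine (norm_EE_le p).trans (mul_le_mul_of_nonneg_right ?_ (norm_nonneg _))
  linarith [ne1, ne2]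

lemma sc_qz {N : ℕ} (hN : 0 < N) (z : ℂ) : ‖sc N (qz N z) - z‖ ≤ 4 / N := by
  have hN' : (0 : ℝ) < N := by exact_mod_cast hN
  have e : sc N (qz N z) - z = EE ((((qz N z).1 : ℝ) / N, ((qz N z).2 : ℝ) / N) - EE.symm z) := by
    rw [map_sub, ContinuousLinearEquiv.apply_symm_apply, ← sc_eq]
  rw [e]
  refine (nEE _).trans ?_
  have h : ‖((((qz N z).1 : ℝ) / N, ((qz N z).2 : ℝ) / N) : ℝ × ℝ) - EE.symm z‖ ≤ 1 / N := by
    have := gp_near hN (EE.symm z)
    rw [norm_sub_rev] at this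
    exact this
  calc 4 * ‖((((qz N z).1 : ℝ) / N, ((qz N z).2 : ℝ) / N) : ℝ × ℝ) - EE.symm z‖ ≤ 4 * (1 / N) := by linarith
    _ = 4 / N := by ring

lemma nP {x : ℤ × ℤ} {c : ℝ} (h1 : |(x.1 : ℝ)| ≤ c) (h2 : |(x.2 : ℝ)| ≤ c) : ‖x‖ ≤ c := by
  rw [Prod.norm_def, max_le_iff, Int.norm_eq_abs, Int.norm_eq_abs]
  exact ⟨h1, h2⟩

/-- two lattice points -/
lemma near_sc {N : ℕ} (hN : 0 < N) (q : Pt) (z : ℂ) : ‖q - qz N z‖ ≤ N * ‖sc N q - z‖ + 1 := by
  have hN' : (0 : ℝ) < N := by exact_mod_cast hN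
  have h := norm_EE_symm_le (sc N q - z)
  rw [map_sub, sc_eq, ContinuousLinearEquiv.symm_apply_apply, ← sc_eq, EE_symm_apply, Prod.norm_def, max_le_iff] at h
  obtain ⟨h1, h2⟩ := h
  rw [Real.norm_eq_abs] at h1 h2
  have key : ∀ (a : ℤ) (x : ℝ), |(a : ℝ) / N - x| ≤ ‖sc N q - z‖ → |((a - ⌊(N : ℝ) * x⌋ : ℤ) : ℝ)| ≤ N * ‖sc N q - z‖ + 1 := by
    intro a x h
    have h3 := Int.floor_le ((N : ℝ) * x)
    have h4 := Int.lt_floor_add_one ((N : ℝ) * x)
    have h5 : |(a : ℝ) - N * x| ≤ N * ‖sc N q - z‖ := by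
      have e : (a : ℝ) - N * x = N * ((a : ℝ) / N - x) := by
        field_simp
      rw [e, abs_mul, abs_of_pos hN']
      exact mul_le_mul_of_nonneg_left h hN'.le
    push_cast
    rw [abs_le] at h5 ⊢
    constructor <;> linarith
  exact nP (key _ _ h1) (key _ _ h2)

lemma sc_norm {N : ℕ} (hN : 0 < N) (p q : Pt) : ‖sc N p - sc N q‖ ≤ 4 * (‖p - q‖ / N) := by
  have hN' : (0 : ℝ) < N := by exact_mod_cast hN
  have e : sc N p - sc N q = EE (((p.1 - q.1 : ℤ) : ℝ) / N, ((p.2 - q.2 : ℤ) : ℝ) / N) := by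
    rw [sc_eq, sc_eq, ← map_sub]
    congr 1
    refine Prod.ext ?_ ?_ <;> simp <;> ring
  rw [e]
  refine (nEE _).trans (mul_le_mul_of_nonneg_left ?_ (by norm_num))
  rw [Prod.norm_def, max_le_iff, Real.norm_eq_abs, Real.norm_eq_abs, abs_div, abs_div, abs_of_pos hN']
  have h : ‖p - q‖ = max ‖p.1 - q.1‖ ‖p.2 - q.2‖ := rfl
  rw [h, Int.norm_eq_abs, Int.norm_eq_abs]
  exact ⟨div_le_div_of_nonneg_right (le_max_left _ _) hN'.le, div_le_div_of_nonneg_right (le_max_right _ _) hN'.le⟩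

lemma qz_norm {N : ℕ} (hN : 0 < N) {z : ℂ} {R : ℝ} (h : ‖z‖ ≤ R) : ‖qz N z‖ ≤ (R + 1) * N := by
  have hN' : (1 : ℝ) ≤ N := by exact_mod_cast hN
  have h1 := near_sc hN 0 z
  rw [zero_sub, norm_neg] at h1
  have h2 : sc N (0 : Pt) = 0 := by
    rw [sc_eq]
    have : (((0 : Pt).1 : ℝ) / N, ((0 : Pt).2 : ℝ) / N) = (0 : ℝ × ℝ) := by
      refine Prod.ext ?_ ?_ <;> simp
    rw [this, map_zero]
  rw [h2, zero_sub, norm_neg] at h1
  have h3 : (N : ℝ) * ‖z‖ ≤ N * R := mul_le_mul_of_nonneg_left h (by linarith)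
  nlinarith

lemma qz_sep {N : ℕ} (hN : 0 < N) {z w : ℂ} {r : ℝ} (h : r ≤ dist z w) (hr : 16 ≤ r * N) : r / 8 * N ≤ ‖qz N z - qz N w‖ := by
  have hN' : (0 : ℝ) < N := by exact_mod_cast hN
  have h1 := sc_norm hN (qz N z) (qz N w)
  have h2 := sc_qz hN z
  have h3 := sc_qz hN w
  have h4 : dist z w ≤ ‖sc N (qz N z) - sc N (qz N w)‖ + (4 / N + 4 / N) := by
    rw [dist_eq_norm]
    have e : z - w = (sc N (qz N z) - sc N (qz N w)) - (sc N (qz N z) - z) + (sc N (qz N w) - w) := by ring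
    rw [e]
    refine (norm_add_le _ _).trans ?_
    have := norm_sub_le (sc N (qz N z) - sc N (qz N w)) (sc N (qz N z) - z)
    linarith
  have h5 : r ≤ 4 * (‖qz N z - qz N w‖ / N) + (4 / N + 4 / N) := by linarith
  have h6 : r * N ≤ 4 * ‖qz N z - qz N w‖ + 8 := by
    have e : (4 * (‖qz N z - qz N w‖ / N) + (4 / N + 4 / N)) * N = 4 * ‖qz N z - qz N w‖ + 8 := by
      field_simp
      ring
    rw [← e]
    exact mul_le_mul_of_nonneg_right h5 hN'.le
  linarith

/-! ### the pattern functions -/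

theorem PP_eq (q : Fin m → Pt) : PP τ q = Pu hc τ q := by
  have e : (mu : Measure Lps) = muU hc := rfl
  have e2 : {γ : Lps | pat γ.1 q = τ} = Pat τ q := by
    ext γ
    exact funext_iff
  unfold PP Pu
  rw [e, e2]
  rfl

/-- equicontinuity in the embedding of block I -/
theorem equiI (hE : Equi (Pu hc τ)) {R r ε : ℝ} (hR : 0 ≤ R) (hr : 0 < r) (hε : 0 < ε) :
    ∃ δ > 0, ∃ N0 : ℕ, 1 ≤ N0 ∧ ∀ N ≥ N0, ∀ z : Fin m → ℂ, (∀ i, ‖z i‖ ≤ R) → (∀ i j, i ≠ j → r ≤ dist (z i) (z j)) →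
      ∀ q : Fin m → Pt, (∀ i, ‖sc N (q i) - z i‖ ≤ δ) → |PP τ q - PP τ fun i => qz N (z i)| ≤ ε := by
  obtain ⟨δ, hδ, N0, h0⟩ := hE (R + 1) (r / 8) ε (by linarith) (by positivity) hε
  obtain ⟨N1, h1⟩ := exists_nat_ge (max (16 / r) (2 / δ))
  refine ⟨δ / 2, by positivity, max (max N0 N1) 1, le_max_right _ _, fun N hN z hz hs q hq => ?_⟩
  have hN1 : N0 ≤ N := ((le_max_left _ _).trans (le_max_left _ _)).trans hN
  have hN2 : N1 ≤ N := ((le_max_right _ _).trans (le_max_left _ _)).trans hN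
  have hN3 : 0 < N := (le_max_right _ _).trans hN
  have hN4 : (0 : ℝ) < N := by exact_mod_cast hN3
  have hN5 : (N1 : ℝ) ≤ N := by exact_mod_cast hN2
  have h16 : 16 ≤ r * N := by
    have := (div_le_iff₀ hr).1 (((le_max_left _ _).trans h1).trans hN5)
    linarith
  have hd2 : 2 ≤ δ * N := by
    have := (div_le_iff₀ hδ).1 (((le_max_right _ _).trans h1).trans hN5)
    linarith
  rw [PP_eq, PP_eq, abs_sub_comm]
  refine h0 N hN1 (fun i => qz N (z i)) q (fun i => qz_norm hN3 (hz i)) (fun i j hij => qz_sep hN3 (hs i j hij) h16)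
    fun i => ?_
  rw [norm_sub_rev]
  have h2 := near_sc hN3 (q i) (z i)
  have h3 : (N : ℝ) * ‖sc N (q i) - z i‖ ≤ N * (δ / 2) := mul_le_mul_of_nonneg_left (hq i) hN4.le
  nlinarith

end

end Pool.Agent.ROT.URt
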