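import Pool.Agent.ROT.URotA

/-!
# ROT, UNIV: the pattern functions of the honeycomb are asymptotically invariant under all rotations, pointwise, second part
(helper53)

* `U_near` : a smeared pattern function and the value at the centre;
* **`rot_pt`** : pointwise;
* **`rot_unif_pt`** : uniformly in the points and in the rotation.
-/

set_option autoImplicit false

namespace Pool.Agent.ROT.URt

open MeasureTheory Filter Topology
open Pool.Agent.ROT.I
open Pool.Agent.ROT.I.Tr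
open Pool.Agent.ROT.U (hc muU MU NearM)
open Pool.Agent.ROT.UId (Pu Pat Equi)

noncomputable section

variable {m : ℕ} {τ : Fin m → ZMod 2} {β : ℂ → ℝ} {η Lb : ℝ}

theorem U_near (hβ : Bmp β η Lb) {g : LG} (hg : ∀ z, ‖g z‖ = ‖z‖) {P z : Fin m → ℂ} (hz : ∀ i, g (z i) = P i) {N : ℕ}
    (hN : 0 < N) {X ε : ℝ} (h : ∀ q : Fin m → Pt, (∀ i, ‖sc N (q i) - z i‖ ≤ η) → |PP τ q - X| ≤ ε) :
    |U N τ (fun x => ph β P fun i => g (x i)) - X * SN β P g N| ≤ ε * SN β P g N := by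
  obtain ⟨B, hB⟩ : ∃ B : ℝ, ∀ i, ‖P i‖ ≤ B := ⟨∑ i, ‖P i‖, fun i =>
    Finset.single_le_sum (fun j _ => norm_nonneg (P j)) (Finset.mem_univ i)⟩
  set T := (fin_g (g := g) le_rfl (fun z => by rw [one_mul, hg]) hN (B + η)).toFinset with hT
  have hψ : ∀ q : Fin m → Pt, q ∉ Fintype.piFinset (fun _ : Fin m => T) → (ph β P fun i => g (sc N (q i))) = 0 := by
    intro q hq
    rw [Fintype.mem_piFinset] at hq
    push Not at hq
    obtain ⟨i, hi⟩ := hq
    by_contra hc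
    have h1 := ph_ne hβ hc i
    apply hi
    rw [hT, Set.Finite.mem_toFinset]
    rw [dist_eq_norm] at h1
    have h2 := norm_sub_norm_le (g (sc N (q i))) (P i)
    show ‖g (sc N (q i))‖ ≤ B + η
    linarith [hB i]
  have e1 : U N τ (fun x => ph β P fun i => g (x i)) = ((N : ℝ) ^ (2 * m))⁻¹ *
      ∑ q ∈ Fintype.piFinset (fun _ : Fin m => T), (ph β P fun i => g (sc N (q i))) * PP τ q := by
    unfold U
    congr 1
    exact tsum_eq_sum fun q hq => by
      show (ph β P fun i => g (sc N (q i))) * PP τ q = 0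
      rw [hψ q hq, zero_mul]
  have e2 : SN β P g N = ((N : ℝ) ^ (2 * m))⁻¹ *
      ∑ q ∈ Fintype.piFinset (fun _ : Fin m => T), (ph β P fun i => g (sc N (q i))) := by
    unfold SN
    congr 1
    exact tsum_eq_sum fun q hq => hψ q hq
  have e3 : U N τ (fun x => ph β P fun i => g (x i)) - X * SN β P g N = ((N : ℝ) ^ (2 * m))⁻¹ *
      ∑ q ∈ Fintype.piFinset (fun _ : Fin m => T), (ph β P fun i => g (sc N (q i))) * (PP τ q - X) := by
    rw [e1, e2]
    have e4 : ∑ q ∈ Fintype.piFinset (fun _ : Fin m => T), (ph β P fun i => g (sc N (q i))) * (PP τ q - X) =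
        ∑ q ∈ Fintype.piFinset (fun _ : Fin m => T), (ph β P fun i => g (sc N (q i))) * PP τ q -
          (∑ q ∈ Fintype.piFinset (fun _ : Fin m => T), (ph β P fun i => g (sc N (q i)))) * X := by
      rw [Finset.sum_mul, ← Finset.sum_sub_distrib]
      exact Finset.sum_congr rfl fun q _ => by ring
    rw [e4]
    ring
  have hc : (0 : ℝ) ≤ ((N : ℝ) ^ (2 * m))⁻¹ := by positivity
  rw [e3, e2, abs_mul, abs_of_nonneg hc, mul_left_comm]
  refine mul_le_mul_of_nonneg_left ?_ hc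
  rw [Finset.mul_sum]
  refine (Finset.abs_sum_le_sum_abs _ _).trans (Finset.sum_le_sum fun q _ => ?_)
  rw [abs_mul, abs_of_nonneg (ph_nonneg hβ _ _), mul_comm]
  by_cases h0 : (ph β P fun i => g (sc N (q i))) = 0
  · rw [h0, mul_zero, mul_zero]
  · refine mul_le_mul_of_nonneg_right (h q fun i => ?_) (ph_nonneg hβ _ _)
    have h1 := ph_ne hβ h0 i
    rw [dist_eq_norm, ← hz i, ← map_sub, hg] at h1
    exact h1

lemma dt_rot {u : ℂ} (hu : u ≠ 0) (h : ‖u‖ = 1) : dt (rot u hu) = 1 := by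
  have hI : Complex.I * Complex.I = -1 := Complex.I_mul_I
  have e1 : ROT.P (rot u hu) = u := by
    unfold ROT.P
    rw [rot_apply, rot_apply]
    linear_combination (-(u / 2)) * hI
  have e2 : ROT.Q (rot u hu) = 0 := by
    unfold ROT.Q
    rw [rot_apply, rot_apply]
    linear_combination (u / 2) * hI
  unfold dt
  rw [e1, e2, map_zero, sub_zero, Complex.normSq_eq_norm_sq, h, one_pow]

/-- the smeared functions are invariant -/
def RotU (τ : Fin m → ZMod 2) : Prop := ∀ φ : Pm m → ℝ, Tst τ φ → ∀ t : ℝ,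
  Tendsto (fun N : ℕ => U N τ (fun x => φ fun i => Complex.exp (t * Complex.I) * x i) - U N τ φ) atTop (𝓝 0)

/-- **pointwise invariance** -/
theorem rot_pt (hin : ∃ i j, i ≠ j ∧ τ i = 1 ∧ τ j = 1) (hout : ∃ i, τ i = 0) (hE : Equi (Pu hc τ)) (hb : PBd)
    (hU : RotU τ) {P : Fin m → ℂ} {r : ℝ} (hr : 0 < r) (hP : ∀ i j, i ≠ j → r ≤ dist (P i) (P j)) {w : ℂ} (hw : ‖w‖ = 1)
    {ε : ℝ} (hε : 0 < ε) :
    ∃ N0 : ℕ, ∀ N ≥ N0, |PP τ (fun i => qz N (w * P i)) - PP τ (fun i => qz N (P i))| ≤ ε := by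
  obtain ⟨R, hR0, hR⟩ : ∃ R : ℝ, 0 ≤ R ∧ ∀ i, ‖P i‖ ≤ R := ⟨∑ i, ‖P i‖, Finset.sum_nonneg fun i _ => norm_nonneg _, fun i =>
    Finset.single_le_sum (fun j _ => norm_nonneg (P j)) (Finset.mem_univ i)⟩
  have hw0 : w ≠ 0 := by
    intro h
    rw [h, norm_zero] at hw
    exact zero_ne_one hw
  have hRw : ∀ i, ‖w * P i‖ ≤ R := fun i => by
    rw [norm_mul, hw, one_mul]
    exact hR i
  have hPw : ∀ i j, i ≠ j → r ≤ dist (w * P i) (w * P j) := fun i j hij => by
    rw [dist_eq_norm, ← mul_sub, norm_mul, hw, one_mul, ← dist_eq_norm]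
    exact hP i j hij
  obtain ⟨δ, hδ, N0, hN0, h0⟩ := equiI hE (R := R) (r := r) (ε := ε / 8) hR0 hr (by positivity)
  obtain ⟨η, hηe⟩ : ∃ η : ℝ, η = min δ (r / 4) := ⟨_, rfl⟩
  have hη : 0 < η := by
    rw [hηe]
    positivity
  have hηδ : η ≤ δ := by
    rw [hηe]
    exact min_le_left _ _
  have hηr : η ≤ r / 4 := by
    rw [hηe]
    exact min_le_right _ _
  obtain ⟨β, Lb, hβ⟩ := exists_bmp hη
  obtain ⟨J, hJe⟩ : ∃ J : ℝ, J = (∫ z, β z ∂mE) ^ m := ⟨_, rfl⟩
  have hJ : 0 < J := by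
    rw [hJe]
    exact pow_pos hβ.pos _
  -- the rotation
  obtain ⟨t, ht⟩ : ∃ t : ℝ, Complex.exp (t * Complex.I) = w⁻¹ := by
    refine ⟨(w⁻¹).arg, ?_⟩
    have h := Complex.norm_mul_exp_arg_mul_I w⁻¹
    rw [norm_inv, hw, inv_one, Complex.ofReal_one, one_mul] at h
    exact h
  have hg0 : ∀ z, rot w⁻¹ (inv_ne_zero hw0) z = w⁻¹ * z := fun z => rfl
  have hgn : ∀ z, ‖rot w⁻¹ (inv_ne_zero hw0) z‖ = ‖z‖ := fun z => by
    rw [hg0, norm_mul, norm_inv, hw, inv_one, one_mul]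
  have h1n : ∀ z, ‖(1 : LG) z‖ = ‖z‖ := fun z => rfl
  have hdg : dt (rot w⁻¹ (inv_ne_zero hw0)) = 1 := dt_rot _ (by rw [norm_inv, hw, inv_one])
  have s1 : Tendsto (fun N => SN β P (rot w⁻¹ (inv_ne_zero hw0)) N) atTop (𝓝 J) := by
    rw [hJe]
    exact SN_tendsto hβ hη P (g := fun _ => rot w⁻¹ (inv_ne_zero hw0)) (fun _ => hdg) le_rfl
      (fun _ z => by rw [one_mul, hgn]) (fun _ z => by rw [one_mul, hgn])
  have s0 : Tendsto (fun N => SN β P (1 : LG) N) atTop (𝓝 J) := by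
    rw [hJe]
    exact SN_tendsto hβ hη P (g := fun _ => (1 : LG)) (fun _ => dt_one) le_rfl
      (fun _ z => by rw [one_mul, h1n]) (fun _ z => by rw [one_mul, h1n])
  have hT : Tst τ (ph β P) := ph_tst hβ hr hηr hP hin hout
  have hu := hU _ hT t
  obtain ⟨C, hC⟩ := hb m τ (R + 4) (r / 2) (by positivity) hin hout
  obtain ⟨ε3, hε3e⟩ : ∃ ε3 : ℝ, ε3 = min J (ε * J / (8 * (|C| + 1))) := ⟨_, rfl⟩
  have hε3 : 0 < ε3 := by
    rw [hε3e]
    positivity
  have hε3J : ε3 ≤ J := by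
    rw [hε3e]
    exact min_le_left _ _
  have hε3C : |C| * ε3 ≤ ε * J / 8 := by
    have h1 : ε3 ≤ ε * J / (8 * (|C| + 1)) := by
      rw [hε3e]
      exact min_le_right _ _
    have h2 : |C| * ε3 ≤ (|C| + 1) * (ε * J / (8 * (|C| + 1))) := by
      refine mul_le_mul (by linarith) h1 hε3.le (by positivity)
    have h3 : (|C| + 1) * (ε * J / (8 * (|C| + 1))) = ε * J / 8 := by
      have : |C| + 1 ≠ 0 := by positivity
      field_simp
    linarith
  obtain ⟨N1, hN1⟩ := exists_nat_ge (16 / r)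
  have hev := ((Metric.tendsto_nhds.1 s1) ε3 hε3).and (((Metric.tendsto_nhds.1 s0) ε3 hε3).and
    (((Metric.tendsto_nhds.1 hu) (ε * J / 8) (by positivity)).and (hC.and
      ((eventually_ge_atTop N0).and (eventually_ge_atTop N1)))))
  rw [Filter.eventually_atTop] at hev
  obtain ⟨N2, hN2⟩ := hev
  refine ⟨N2, fun N hN => ?_⟩
  obtain ⟨k1, k0, ku, kC, kN0, kN1⟩ := hN2 N hN
  have hNp : 0 < N := hN0.trans kN0
  have hNr : (1 : ℝ) ≤ N := by exact_mod_cast hNp
  have hNr1 : (N1 : ℝ) ≤ N := by exact_mod_cast kN1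
  have h16 : 16 ≤ r * N := by
    have := (div_le_iff₀ hr).1 (hN1.trans hNr1)
    linarith
  have h4N : 4 / (N : ℝ) ≤ r / 4 := by
    rw [div_le_iff₀ (by linarith)]
    linarith
  have h4N' : 4 / (N : ℝ) ≤ 4 := by
    rw [div_le_iff₀ (by linarith)]
    linarith
  rw [Real.dist_eq] at k1 k0 ku
  rw [sub_zero] at ku
  -- bounds of the values
  have bd : ∀ z : Fin m → ℂ, (∀ i, ‖z i‖ ≤ R) → (∀ i j, i ≠ j → r ≤ dist (z i) (z j)) →
      |PP τ (fun i => qz N (z i))| ≤ |C| := by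
    intro z hz hs
    rw [abs_of_nonneg (PP_nonneg _)]
    refine (kC _ (fun i => ?_) fun i j hij => ?_).trans (le_abs_self _)
    · have h1 := sc_qz hNp (z i)
      have h2 := norm_sub_norm_le (sc N (qz N (z i))) (z i)
      linarith [hz i]
    · have h1 := sc_qz hNp (z i)
      have h2 := sc_qz hNp (z j)
      have h3 := hs i j hij
      rw [← dist_eq_norm] at h1 h2
      have h4 := dist_triangle4 (z i) (sc N (qz N (z i))) (sc N (qz N (z j))) (z j)
      rw [dist_comm (z i) (sc N (qz N (z i)))] at h4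
      linarith
  have b1 := bd (fun i => w * P i) hRw hPw
  have b0 := bd P hR hP
  -- the two smeared functions
  have u1 := U_near (τ := τ) hβ hgn (P := P) (z := fun i => w * P i) (fun i => by
    rw [hg0, inv_mul_cancel_left₀ hw0]) hNp (X := PP τ fun i => qz N (w * P i)) (ε := ε / 8) fun q hq =>
      h0 N kN0 (fun i => w * P i) hRw hPw q fun i => (hq i).trans hηδ
  have u0 := U_near (τ := τ) hβ h1n (P := P) (z := P) (fun i => rfl) hNp (X := PP τ fun i => qz N (P i)) (ε := ε / 8)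
    fun q hq => h0 N kN0 P hR hP q fun i => (hq i).trans hηδ
  have e1 : U N τ (fun x => ph β P fun i => rot w⁻¹ (inv_ne_zero hw0) (x i)) =
      U N τ (fun x => ph β P fun i => Complex.exp (t * Complex.I) * x i) := by
    simp only [hg0, ht]
  have e0 : U N τ (fun x => ph β P fun i => (1 : LG) (x i)) = U N τ (ph β P) := rfl
  rw [e1] at u1
  rw [e0] at u0
  obtain ⟨X1, hX1⟩ : ∃ X1 : ℝ, X1 = PP τ fun i => qz N (w * P i) := ⟨_, rfl⟩
  obtain ⟨X0, hX0⟩ : ∃ X0 : ℝ, X0 = PP τ fun i => qz N (P i) := ⟨_, rfl⟩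
  obtain ⟨S1, hS1⟩ : ∃ S1 : ℝ, S1 = SN β P (rot w⁻¹ (inv_ne_zero hw0)) N := ⟨_, rfl⟩
  obtain ⟨S0, hS0⟩ : ∃ S0 : ℝ, S0 = SN β P (1 : LG) N := ⟨_, rfl⟩
  obtain ⟨V1, hV1⟩ : ∃ V1 : ℝ, V1 = U N τ (fun x => ph β P fun i => Complex.exp (t * Complex.I) * x i) := ⟨_, rfl⟩
  obtain ⟨V0, hV0⟩ : ∃ V0 : ℝ, V0 = U N τ (ph β P) := ⟨_, rfl⟩
  rw [← hX1, ← hX0]
  rw [← hX1] at b1 u1
  rw [← hX0] at b0 u0
  rw [← hS1] at k1 u1
  rw [← hS0] at k0 u0
  rw [← hV1] at u1 ku
  rw [← hV0] at u0 ku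
  have c1 : |X1 * (J - S1)| ≤ ε * J / 8 := by
    rw [abs_mul, abs_sub_comm]
    exact (mul_le_mul b1 k1.le (abs_nonneg _) (abs_nonneg _)).trans hε3C
  have c0 : |X0 * (S0 - J)| ≤ ε * J / 8 := by
    rw [abs_mul]
    exact (mul_le_mul b0 k0.le (abs_nonneg _) (abs_nonneg _)).trans hε3C
  have d1 : ε / 8 * S1 ≤ ε * J / 4 := by
    have := (abs_lt.1 k1).2
    nlinarith
  have d0 : ε / 8 * S0 ≤ ε * J / 4 := by
    have := (abs_lt.1 k0).2
    nlinarith
  have key : |(X1 - X0) * J| ≤ ε * J := by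
    have e : (X1 - X0) * J = X1 * (J - S1) - (V1 - X1 * S1) + (V1 - V0) + (V0 - X0 * S0) + X0 * (S0 - J) := by ring
    rw [e, abs_le]
    rw [abs_le] at c1 c0 u1 u0
    rw [abs_lt] at ku
    constructor <;> nlinarith [c1.1, c1.2, c0.1, c0.2, u1.1, u1.2, u0.1, u0.2, ku.1, ku.2, mul_pos hε hJ]
  rw [abs_mul, abs_of_pos hJ] at key
  exact le_of_mul_le_mul_right key hJ

/-- **uniformly in the points and in the rotation** -/
theorem rot_unif_pt (hin : ∃ i j, i ≠ j ∧ τ i = 1 ∧ τ j = 1) (hout : ∃ i, τ i = 0) (hE : Equi (Pu hc τ)) (hb : PBd)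
    (hU : RotU τ) {R d ε : ℝ} (hR : 0 ≤ R) (hd : 0 < d) (hε : 0 < ε) :
    ∃ N0 : ℕ, ∀ N ≥ N0, ∀ z : Fin m → ℂ, (∀ i, ‖z i‖ ≤ R) → (∀ i j, i ≠ j → d ≤ dist (z i) (z j)) → ∀ w : ℂ, ‖w‖ = 1 →
      |PP τ (fun i => qz N (w * z i)) - PP τ (fun i => qz N (z i))| ≤ ε := by
  obtain ⟨K, hKe⟩ : ∃ K : Set ((Fin m → ℂ) × ℂ), K = {p | (∀ i, ‖p.1 i‖ ≤ R) ∧ (∀ i j, i ≠ j → d ≤ dist (p.1 i) (p.1 j)) ∧
      ‖p.2‖ = 1} := ⟨_, rfl⟩
  have hKc : IsCompact K := by
    refine (isCompact_closedBall (0 : (Fin m → ℂ) × ℂ) (max R 1)).of_isClosed_subset ?_ ?_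
    · have c1 : IsClosed {p : (Fin m → ℂ) × ℂ | ∀ i, ‖p.1 i‖ ≤ R} := by
        simp only [Set.ofPred_forall]
        exact isClosed_iInter fun i => isClosed_le (by fun_prop) continuous_const
      have c2 : IsClosed {p : (Fin m → ℂ) × ℂ | ∀ i j, i ≠ j → d ≤ dist (p.1 i) (p.1 j)} := by
        simp only [Set.ofPred_forall]
        exact isClosed_iInter fun i => isClosed_iInter fun j => isClosed_iInter fun _ =>
          isClosed_le continuous_const (by fun_prop)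
      have c3 : IsClosed {p : (Fin m → ℂ) × ℂ | ‖p.2‖ = 1} := isClosed_eq (by fun_prop) continuous_const
      rw [hKe]
      exact c1.inter (c2.inter c3)
    · rw [hKe]
      rintro p ⟨h1, -, h3⟩
      rw [mem_closedBall_zero_iff, Prod.norm_def, max_le_iff]
      refine ⟨((pi_norm_le_iff_of_nonneg hR).2 h1).trans (le_max_left _ _), ?_⟩
      rw [h3]
      exact le_max_right _ _
  have key : ∃ N0 : ℕ, ∀ N ≥ N0, ∀ p ∈ K, p ∈ K →
      |PP τ (fun i => qz N (p.2 * p.1 i)) - PP τ (fun i => qz N (p.1 i))| ≤ ε := by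
    refine hKc.induction_on (p := fun s => ∃ N0 : ℕ, ∀ N ≥ N0, ∀ p ∈ s, p ∈ K →
      |PP τ (fun i => qz N (p.2 * p.1 i)) - PP τ (fun i => qz N (p.1 i))| ≤ ε) ?_ ?_ ?_ ?_
    · exact ⟨0, fun N _ p hp => absurd hp (Set.notMem_empty p)⟩
    · rintro s s' hss ⟨N0, h0⟩
      exact ⟨N0, fun N hN p hp => h0 N hN p (hss hp)⟩
    · rintro s s' ⟨N0, h0⟩ ⟨N1, h1⟩
      refine ⟨max N0 N1, fun N hN p hp hK => ?_⟩
      rcases hp with hp | hp
      · exact h0 N (le_trans (le_max_left _ _) hN) p hp hK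
      · exact h1 N (le_trans (le_max_right _ _) hN) p hp hK
    · rintro ⟨z, w⟩ hzw
      have hzw' := hzw
      rw [hKe] at hzw'
      obtain ⟨hz, hs, hw⟩ := hzw'
      simp only at hz hs hw
      obtain ⟨N1, hN1⟩ := rot_pt hin hout hE hb hU hd hs hw (ε := ε / 3) (by positivity)
      obtain ⟨δ, hδ, N2, hN2, h2⟩ := equiI hE (R := R) (r := d) (ε := ε / 3) hR hd (by positivity)
      obtain ⟨N3, hN3⟩ := exists_nat_ge (8 / δ)
      have hcont : Continuous fun p : (Fin m → ℂ) × ℂ => fun i => p.2 * p.1 i := by fun_prop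
      refine ⟨{p | ‖p.1 - z‖ < δ / 2 ∧ ‖(fun i => p.2 * p.1 i) - fun i => w * z i‖ < δ / 2}, ?_, max (max N1 N2) N3,
        fun N hN p hp hpK => ?_⟩
      · refine mem_nhdsWithin_of_mem_nhds (Filter.inter_mem ?_ ?_)
        · have := (continuous_fst.tendsto (z, w)) (Metric.ball_mem_nhds z (show 0 < δ / 2 by positivity))
          filter_upwards [this] with p hp
          rw [Set.mem_preimage, Metric.mem_ball, dist_eq_norm] at hp
          exact hp
        · have := (hcont.tendsto (z, w)) (Metric.ball_mem_nhds _ (show 0 < δ / 2 by positivity))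
          filter_upwards [this] with p hp
          rw [Set.mem_preimage, Metric.mem_ball, dist_eq_norm] at hp
          exact hp
      · have m1 : N1 ≤ N := ((le_max_left _ _).trans (le_max_left _ _)).trans hN
        have m2 : N2 ≤ N := ((le_max_right _ _).trans (le_max_left _ _)).trans hN
        have m3 : N3 ≤ N := (le_max_right _ _).trans hN
        have hNp : 0 < N := hN2.trans m2
        have hNr : (0 : ℝ) < N := by exact_mod_cast hNp
        have hN3r : (N3 : ℝ) ≤ N := by exact_mod_cast m3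
        have h4N : 4 / (N : ℝ) ≤ δ / 2 := by
          have := (div_le_iff₀ hδ).1 (hN3.trans hN3r)
          rw [div_le_iff₀ hNr]
          linarith
        obtain ⟨p1, p2⟩ := hp
        rw [hKe] at hpK
        obtain ⟨hpz, hps, hpw⟩ := hpK
        have a0 := hN1 N m1
        have a1 := h2 N m2 z hz hs (fun i => qz N (p.1 i)) fun i => by
          have h5 := sc_qz hNp (p.1 i)
          have h6 := (norm_le_pi_norm (p.1 - z) i)
          rw [Pi.sub_apply] at h6
          have h7 : sc N (qz N (p.1 i)) - z i = (sc N (qz N (p.1 i)) - p.1 i) + (p.1 i - z i) := by ring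
          rw [h7]
          refine (norm_add_le _ _).trans ?_
          linarith
        have a2 := h2 N m2 (fun i => w * z i) (fun i => by
            rw [norm_mul, hw, one_mul]
            exact hz i) (fun i j hij => by
            rw [dist_eq_norm, ← mul_sub, norm_mul, hw, one_mul, ← dist_eq_norm]
            exact hs i j hij) (fun i => qz N (p.2 * p.1 i)) fun i => by
          have h5 := sc_qz hNp (p.2 * p.1 i)
          have h6 := (norm_le_pi_norm ((fun i => p.2 * p.1 i) - fun i => w * z i) i)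
          rw [Pi.sub_apply] at h6
          have h7 : sc N (qz N (p.2 * p.1 i)) - w * z i =
            (sc N (qz N (p.2 * p.1 i)) - p.2 * p.1 i) + (p.2 * p.1 i - w * z i) := by ring
          rw [h7]
          refine (norm_add_le _ _).trans ?_
          linarith
        rw [abs_le] at a0 a1 a2 ⊢
        constructor <;> linarith [a0.1, a0.2, a1.1, a1.2, a2.1, a2.2]
  obtain ⟨N0, h0⟩ := key
  refine ⟨N0, fun N hN z hz hs w hw => ?_⟩
  have hK : (z, w) ∈ K := by
    rw [hKe]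
    exact ⟨hz, hs, hw⟩
  exact h0 N hN (z, w) hK hK

end

end Pool.Agent.ROT.URt
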