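import Pool.Agent.ROT.UFlowDefs

/-!
# ROT, universality in the angle, side A: the row UStep, part A: objects, supports, masses, linearity (helper27)
-/

set_option autoImplicit false

open Finset Filter Topology

namespace Pool.Agent.ROT.U.St

open Pool.Agent.ROT.A (Z2 PSys)
open Pool.Agent.ROT.U

/-! ### products of reals -/

section prods

variable {ι : Type} [DecidableEq ι] {A β β' : ℝ} {a b c : ι → ℝ}

omit [DecidableEq ι] in
lemma prod_le_pow (s : Finset ι) (h : ∀ l ∈ s, |c l| ≤ A) : |∏ l ∈ s, c l| ≤ A ^ s.card := by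
  rw [Finset.abs_prod]
  calc ∏ l ∈ s, |c l| ≤ ∏ _l ∈ s, A := Finset.prod_le_prod (fun _ _ => abs_nonneg _) h
    _ = A ^ s.card := by simp

lemma prod_le1 (hA : 1 ≤ A) (s : Finset ι) {i : ι} (hi : i ∈ s) (h : ∀ l ∈ s, l ≠ i → |c l| ≤ A) :
    |∏ l ∈ s, c l| ≤ |c i| * A ^ s.card := by
  rw [← Finset.mul_prod_erase s c hi, abs_mul]
  refine mul_le_mul_of_nonneg_left ?_ (abs_nonneg _)
  refine (prod_le_pow (s.erase i) fun l hl => h l (Finset.mem_of_mem_erase hl)
    (Finset.ne_of_mem_erase hl)).trans ?_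
  exact pow_le_pow_right₀ hA (Finset.card_le_card (Finset.erase_subset _ _))

lemma prod_le2 (hA : 1 ≤ A) (s : Finset ι) {i j : ι} (hi : i ∈ s) (hj : j ∈ s) (hij : i ≠ j)
    (h : ∀ l ∈ s, l ≠ i → l ≠ j → |c l| ≤ A) : |∏ l ∈ s, c l| ≤ |c i| * |c j| * A ^ s.card := by
  rw [← Finset.mul_prod_erase s c hi, abs_mul, mul_assoc]
  refine mul_le_mul_of_nonneg_left ?_ (abs_nonneg _)
  refine (prod_le1 (i := j) hA (s.erase i) (Finset.mem_erase.2 ⟨hij.symm, hj⟩) fun l hl hlj =>
    h l (Finset.mem_of_mem_erase hl) (Finset.ne_of_mem_erase hl) hlj).trans ?_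
  refine mul_le_mul_of_nonneg_left ?_ (abs_nonneg _)
  exact pow_le_pow_right₀ hA (Finset.card_le_card (Finset.erase_subset _ _))

lemma prod_D (hA : 1 ≤ A) (hβ : 0 ≤ β) (s : Finset ι) (ha : ∀ l ∈ s, |a l| ≤ A) (hb : ∀ l ∈ s, |b l| ≤ β)
    (hab : ∀ l ∈ s, |a l + b l| ≤ A) :
    |∏ l ∈ s, (a l + b l) - ∏ l ∈ s, a l| ≤ s.card * A ^ s.card * β := by
  induction s using Finset.induction_on with
  | empty => simp
  | insert k s hk ih =>
    have ih' := ih (fun l hl => ha l (Finset.mem_insert_of_mem hl)) (fun l hl => hb l (Finset.mem_insert_of_mem hl))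
      (fun l hl => hab l (Finset.mem_insert_of_mem hl))
    rw [Finset.prod_insert hk, Finset.prod_insert hk, Finset.card_insert_of_notMem hk]
    have h1 : (a k + b k) * ∏ l ∈ s, (a l + b l) - a k * ∏ l ∈ s, a l =
        a k * (∏ l ∈ s, (a l + b l) - ∏ l ∈ s, a l) + b k * ∏ l ∈ s, (a l + b l) := by ring
    rw [h1]
    have h2 := prod_le_pow s fun l hl => hab l (Finset.mem_insert_of_mem hl)
    have h3 := ha k (Finset.mem_insert_self _ _)
    have h4 := hb k (Finset.mem_insert_self _ _)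
    have hp : 0 ≤ A ^ s.card := by positivity
    calc |a k * (∏ l ∈ s, (a l + b l) - ∏ l ∈ s, a l) + b k * ∏ l ∈ s, (a l + b l)|
        ≤ |a k| * |∏ l ∈ s, (a l + b l) - ∏ l ∈ s, a l| + |b k| * |∏ l ∈ s, (a l + b l)| := by
          refine (abs_add_le _ _).trans ?_
          rw [abs_mul, abs_mul]
      _ ≤ A * (s.card * A ^ s.card * β) + β * A ^ s.card :=
          add_le_add (mul_le_mul h3 ih' (abs_nonneg _) (by linarith)) (mul_le_mul h4 h2 (abs_nonneg _) hβ)
      _ ≤ A * (s.card * A ^ s.card * β) + β * (A * A ^ s.card) := by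
          have : A ^ s.card ≤ A * A ^ s.card := by nlinarith
          have := mul_le_mul_of_nonneg_left this hβ
          linarith
      _ = ((s.card + 1 : ℕ) : ℝ) * A ^ (s.card + 1) * β := by push_cast; ring

lemma prod_E (hA : 1 ≤ A) (hβ : 0 ≤ β) (s : Finset ι) (ha : ∀ l ∈ s, |a l| ≤ A) (hb : ∀ l ∈ s, |b l| ≤ β)
    (hab : ∀ l ∈ s, |a l + b l| ≤ A) :
    |∏ l ∈ s, (a l + b l) - ∏ l ∈ s, a l - ∑ i ∈ s, ∏ l ∈ s, Function.update a i (b i) l| ≤
      (s.card : ℝ) ^ 2 * A ^ s.card * β ^ 2 := by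
  induction s using Finset.induction_on with
  | empty => simp
  | insert k s hk ih =>
    have ih' := ih (fun l hl => ha l (Finset.mem_insert_of_mem hl)) (fun l hl => hb l (Finset.mem_insert_of_mem hl))
      (fun l hl => hab l (Finset.mem_insert_of_mem hl))
    have hD := prod_D hA hβ s (fun l hl => ha l (Finset.mem_insert_of_mem hl))
      (fun l hl => hb l (Finset.mem_insert_of_mem hl)) (fun l hl => hab l (Finset.mem_insert_of_mem hl))
    rw [Finset.prod_insert hk, Finset.prod_insert hk, Finset.sum_insert hk, Finset.card_insert_of_notMem hk,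
      Finset.prod_insert hk]
    have e1 : ∏ l ∈ s, Function.update a k (b k) l = ∏ l ∈ s, a l := by
      refine Finset.prod_congr rfl fun l hl => ?_
      rw [Function.update_of_ne]
      rintro rfl
      exact hk hl
    have e2 : ∑ i ∈ s, ∏ l ∈ insert k s, Function.update a i (b i) l =
        a k * ∑ i ∈ s, ∏ l ∈ s, Function.update a i (b i) l := by
      rw [Finset.mul_sum]
      refine Finset.sum_congr rfl fun i hi => ?_
      rw [Finset.prod_insert hk, Function.update_of_ne]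
      rintro rfl
      exact hk hi
    rw [e1, e2, Function.update_self]
    have h1 : (a k + b k) * ∏ l ∈ s, (a l + b l) - a k * ∏ l ∈ s, a l -
        (b k * ∏ l ∈ s, a l + a k * ∑ i ∈ s, ∏ l ∈ s, Function.update a i (b i) l) =
        a k * (∏ l ∈ s, (a l + b l) - ∏ l ∈ s, a l - ∑ i ∈ s, ∏ l ∈ s, Function.update a i (b i) l) +
          b k * (∏ l ∈ s, (a l + b l) - ∏ l ∈ s, a l) := by ring
    rw [h1]
    have h3 := ha k (Finset.mem_insert_self _ _)
    have h4 := hb k (Finset.mem_insert_self _ _)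
    have hp : 0 ≤ A ^ s.card := by positivity
    refine (abs_add_le _ _).trans ?_
    rw [abs_mul, abs_mul]
    calc |a k| * |∏ l ∈ s, (a l + b l) - ∏ l ∈ s, a l - ∑ i ∈ s, ∏ l ∈ s, Function.update a i (b i) l| +
          |b k| * |∏ l ∈ s, (a l + b l) - ∏ l ∈ s, a l|
        ≤ A * ((s.card : ℝ) ^ 2 * A ^ s.card * β ^ 2) + β * (s.card * A ^ s.card * β) :=
          add_le_add (mul_le_mul h3 ih' (abs_nonneg _) (by linarith)) (mul_le_mul h4 hD (abs_nonneg _) hβ)
      _ ≤ A * ((s.card : ℝ) ^ 2 * A ^ s.card * β ^ 2) + A * (β * (s.card * A ^ s.card * β)) := by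
          have h0 : 0 ≤ β * (s.card * A ^ s.card * β) := by positivity
          nlinarith
      _ = ((s.card : ℝ) ^ 2 + s.card) * (A ^ (s.card + 1) * β ^ 2) := by ring
      _ ≤ ((s.card + 1 : ℕ) : ℝ) ^ 2 * (A ^ (s.card + 1) * β ^ 2) := by
          have h0 : 0 ≤ A ^ (s.card + 1) * β ^ 2 := by positivity
          refine mul_le_mul_of_nonneg_right ?_ h0
          push_cast
          nlinarith [(Nat.cast_nonneg s.card : (0 : ℝ) ≤ s.card)]
      _ = ((s.card + 1 : ℕ) : ℝ) ^ 2 * A ^ (s.card + 1) * β ^ 2 := by ring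

end prods

/-! ### good tracers, objects -/

variable {S : PSys} (X : WSys S) {m : ℕ}

/-- heights in `[-K, K]`, extents `≥ δ` -/
def Gd (S : PSys) (N : ℕ) (K δ : ℝ) (v : S.P) : Prop :=
  (∀ u, |S.hN N v u| ≤ K) ∧ δ ≤ S.hN N v 1 - S.hN N v 0 ∧ δ ≤ S.hN N v 3 - S.hN N v 2

lemma Gd.mono {N : ℕ} {K K' δ δ' : ℝ} {v : S.P} (h : Gd S N K δ v) (hK : K ≤ K') (hδ : δ' ≤ δ) :
    Gd S N K' δ' v := ⟨fun u => (h.1 u).trans hK, hδ.trans h.2.1, hδ.trans h.2.2⟩

lemma Gd.ht {N : ℕ} {K δ : ℝ} {v : S.P} (h : Gd S N K δ v) (hN : 1 ≤ N) (u : Fin 4) :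
    |(S.ht v u : ℝ)| ≤ K * N := by
  have h1 := h.1 u
  have hN' : (0 : ℝ) < N := by exact_mod_cast hN
  rw [PSys.hN, abs_div, abs_of_pos hN', div_le_iff₀ hN'] at h1
  exact h1

lemma Gd.e01 {N : ℕ} {K δ : ℝ} {v : S.P} (h : Gd S N K δ v) (hN : 1 ≤ N) :
    δ * N ≤ (S.ht v 1 : ℝ) - S.ht v 0 := by
  have h1 := h.2.1
  have hN' : (0 : ℝ) < N := by exact_mod_cast hN
  rw [PSys.hN, PSys.hN, ← sub_div, le_div_iff₀ hN'] at h1
  exact h1

lemma Gd.e23 {N : ℕ} {K δ : ℝ} {v : S.P} (h : Gd S N K δ v) (hN : 1 ≤ N) :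
    δ * N ≤ (S.ht v 3 : ℝ) - S.ht v 2 := by
  have h1 := h.2.2
  have hN' : (0 : ℝ) < N := by exact_mod_cast hN
  rw [PSys.hN, PSys.hN, ← sub_div, le_div_iff₀ hN'] at h1
  exact h1

/-- the function is supported in the good tracers -/
def Okf (S : PSys) (N : ℕ) (K δ : ℝ) (f : S.P → ℝ) : Prop := ∀ v, f v ≠ 0 → Gd S N K δ v

/-- the objects: functions of the tracers for `i ∈ J`, points for the others -/
def Ob (J : Finset (Fin m)) (x : Fin m → Z2) (F : Fin m → S.P → ℝ) : Fin m → Z2 ⊕ (S.P → ℝ) :=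
  fun i => if i ∈ J then .inr (F i) else .inl (x i)

lemma ob_eq (N : ℕ) (J : Finset (Fin m)) (G : Fin m → (Fin 4 → ℝ) → ℝ) (x : Fin m → Z2) :
    WSys.ob S N J G x = Ob J x fun i v => G i (S.hN N v) := rfl

lemma Ob_update {J : Finset (Fin m)} (x : Fin m → Z2) (F : Fin m → S.P → ℝ) {i : Fin m} (hi : i ∈ J)
    (f : S.P → ℝ) : Function.update (Ob J x F) i (.inr f) = Ob J x (Function.update F i f) := by
  funext j
  by_cases hj : j = i
  · subst hj
    simp [Ob, hi]
  · simp [Ob, Function.update_of_ne hj]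

/-- the geometry of the points -/
structure Geo (N : ℕ) (K d : ℝ) (J : Finset (Fin m)) (x : Fin m → Z2) : Prop where
  pt : ∀ i, i ∉ J → |((x i).1 : ℝ)| ≤ K * N ∧ |((x i).2 : ℝ)| ≤ K * N
  pp : ∀ i j, i ∉ J → j ∉ J → i ≠ j → d * N ≤ |((x i).1 : ℝ) - (x j).1|

open Classical in
/-- what a nonzero factor says -/
lemma fac_ne {n : ℕ} {w : X.W} {b : Bool} {J : Finset (Fin m)} {x : Fin m → Z2} {F : Fin m → S.P → ℝ} {i : Fin m}
    (h : X.fac n w b (Ob J x F i) ≠ 0) :
    (i ∉ J ∧ (X.ip (x i) w ↔ b = true)) ∨ (i ∈ J ∧ ∃ v ∈ S.box n, F i v ≠ 0 ∧ X.Dj w v ∧ (X.In v w ↔ b = true)) := by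
  by_cases hi : i ∈ J
  · right
    refine ⟨hi, ?_⟩
    simp only [Ob, hi, if_true, WSys.fac] at h
    obtain ⟨v, hv, hne⟩ := Finset.exists_ne_zero_of_sum_ne_zero h
    refine ⟨v, hv, ?_⟩
    by_cases hc : X.Dj w v ∧ (X.In v w ↔ b = true)
    · refine ⟨fun h0 => hne ?_, hc⟩
      rw [h0]
      simp
    · exact (hne (if_neg hc)).elim
  · left
    refine ⟨hi, ?_⟩
    simp only [Ob, hi, if_false, WSys.fac] at h
    by_contra hc
    exact h (if_neg hc)

/-- the points in the box -/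
lemma site_pt {N : ℕ} {K : ℝ} {a b c : ℤ} (hN : 1 ≤ N) (ha : |(a : ℝ)| ≤ K * N) (hb : |(b : ℝ)| ≤ K * N)
    (h1 : min a b - 1 ≤ c) (h2 : c ≤ max a b + 1) : |(c : ℝ) - (0 : ℤ)| ≤ (K + 1) * N := by
  have hN' : (1 : ℝ) ≤ N := by exact_mod_cast hN
  rw [abs_le] at *
  have h1' : ((min a b : ℤ) : ℝ) - 1 ≤ c := by exact_mod_cast h1
  have h2' : (c : ℝ) ≤ ((max a b : ℤ) : ℝ) + 1 := by exact_mod_cast h2
  rw [Int.cast_min] at h1'
  rw [Int.cast_max] at h2'
  have h3 : -(K * N) ≤ min (a : ℝ) b := le_min (by linarith [ha.1]) (by linarith [hb.1])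
  have h4 : max (a : ℝ) b ≤ K * N := max_le ha.2 hb.2
  constructor <;> push_cast <;> linarith

/-- **the support**: `w` is large and comes near the origin -/
lemma supp {N n : ℕ} {K δ d : ℝ} {J : Finset (Fin m)} {x : Fin m → Z2} {π : Fin m → Bool} (hN : 1 ≤ N)
    (hNT : PSys.NT π) (hg : Geo N K d J x) {F : Fin m → S.P → ℝ} (hF : ∀ i ∈ J, Okf S N K δ (F i)) (w : X.W)
    (h : ∏ i, X.fac n w (π i) (Ob J x F i) ≠ 0) :
    X.Ext (min δ d * N) w ∧ X.Nr ((K + 1) * N) 0 w := by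
  have hN' : (1 : ℝ) ≤ N := by exact_mod_cast hN
  have hf : ∀ i, X.fac n w (π i) (Ob J x F i) ≠ 0 := fun i h0 => h (Finset.prod_eq_zero (Finset.mem_univ i) h0)
  obtain ⟨⟨i, j, hij, hi, hj⟩, k, hk⟩ := hNT
  have hmd : min δ d * N ≤ δ * N := mul_le_mul_of_nonneg_right (min_le_left _ _) (by linarith)
  have hmd' : min δ d * N ≤ d * N := mul_le_mul_of_nonneg_right (min_le_right _ _) (by linarith)
  -- an inside tracer
  have tr1 : ∀ l, π l = true → l ∈ J → X.Ext (min δ d * N) w := by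
    intro l hl hlJ
    rcases fac_ne X (hf l) with ⟨h0, _⟩ | ⟨_, v, _, hv, _, hin⟩
    · exact (h0 hlJ).elim
    · have hgd := hF l hlJ v hv
      obtain ⟨⟨s, hs, hs1⟩, ⟨t, ht, ht1⟩, _⟩ := X.In_box v w (hin.2 hl)
      refine ⟨s, hs, t, ht, Or.inl ?_⟩
      have e1 := hgd.e01 hN
      have hs1' : (s.1 : ℝ) ≤ S.ht v 0 := by exact_mod_cast hs1
      have ht1' : (S.ht v 1 : ℝ) ≤ t.1 := by exact_mod_cast ht1
      rw [abs_sub_comm]
      refine le_trans ?_ (le_abs_self _)
      linarith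
  refine ⟨?_, ?_⟩
  · by_cases hiJ : i ∈ J
    · exact tr1 i hi hiJ
    by_cases hjJ : j ∈ J
    · exact tr1 j hj hjJ
    rcases fac_ne X (hf i) with ⟨_, hi2⟩ | ⟨h0, _⟩
    swap
    · exact (hiJ h0).elim
    rcases fac_ne X (hf j) with ⟨_, hj2⟩ | ⟨h0, _⟩
    swap
    · exact (hjJ h0).elim
    obtain ⟨⟨s, hs, hs1⟩, ⟨t, ht, ht1⟩, _⟩ := X.ip_box w _ (hi2.2 hi)
    obtain ⟨⟨s', hs', hs1'⟩, ⟨t', ht', ht1'⟩, _⟩ := X.ip_box w _ (hj2.2 hj)
    have hd := hg.pp i j hiJ hjJ hij
    have c1 : (s.1 : ℝ) ≤ (x i).1 := by exact_mod_cast hs1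
    have c2 : ((x i).1 : ℝ) ≤ t.1 := by exact_mod_cast ht1
    have c3 : (s'.1 : ℝ) ≤ (x j).1 := by exact_mod_cast hs1'
    have c4 : ((x j).1 : ℝ) ≤ t'.1 := by exact_mod_cast ht1'
    rcases le_abs.1 hd with h1 | h1
    · refine ⟨s', hs', t, ht, Or.inl ?_⟩
      rw [abs_sub_comm]
      refine le_trans ?_ (le_abs_self _)
      linarith
    · refine ⟨s, hs, t', ht', Or.inl ?_⟩
      rw [abs_sub_comm]
      refine le_trans ?_ (le_abs_self _)
      linarith
  · by_contra hno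
    -- every object has a point
    have hp : ∀ l, ∃ p : Z2, |(p.1 : ℝ)| ≤ K * N ∧ |(p.2 : ℝ)| ≤ K * N ∧ (X.ip p w ↔ π l = true) := by
      intro l
      rcases fac_ne X (hf l) with ⟨hl, h2⟩ | ⟨hlJ, v, _, hv, _, hin⟩
      · exact ⟨x l, (hg.pt l hl).1, (hg.pt l hl).2, h2⟩
      · have hgd := hF l hlJ v hv
        refine ⟨(S.ht v 0, S.ht v 2), hgd.ht hN 0, hgd.ht hN 2, ?_⟩
        rw [← hin]
        refine ((X.sep v w ?_).2).symm
        intro s hs hbox
        refine hno ⟨s, hs, ?_, ?_⟩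
        · have h01 := S.le01 v
          refine site_pt hN (hgd.ht hN 0) (hgd.ht hN 1) ?_ ?_
          · rw [min_eq_left h01]; exact hbox.1
          · rw [max_eq_right h01]; exact hbox.2.1
        · have h23 := S.le23 v
          refine site_pt hN (hgd.ht hN 2) (hgd.ht hN 3) ?_ ?_
          · rw [min_eq_left h23]; exact hbox.2.2.1
          · rw [max_eq_right h23]; exact hbox.2.2.2
    obtain ⟨p, hp1, hp2, hp3⟩ := hp i
    obtain ⟨q, hq1, hq2, hq3⟩ := hp k
    obtain ⟨s, hs, h1, h2, h3, h4⟩ := X.ip_sep w p q (hp3.2 hi) (fun h0 => by simpa [hk] using hq3.1 h0)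
    exact hno ⟨s, hs, site_pt hN hp1 hq1 h1 h2, site_pt hN hp2 hq2 h3 h4⟩

/-! ### sums over `w` -/

open Classical in
/-- the weight on the large `w` which come near the origin -/
noncomputable def nr (g : X.W → ℝ) (D ρ : ℝ) (w : X.W) : ℝ := if X.Ext D w ∧ X.Nr ρ 0 w then g w else 0

lemma nr_nn {g : X.W → ℝ} (hg : ∀ w, 0 ≤ g w) (D ρ : ℝ) (w : X.W) : 0 ≤ nr X g D ρ w := by
  rw [nr]
  split_ifs
  · exact hg w
  · exact le_rfl

open Classical in
lemma nr_sum {g : X.W → ℝ} (hg : ∀ w, 0 ≤ g w) {D ρ : ℝ} (h : X.near g D ρ 0 ≠ ⊤) :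
    Summable (nr X g D ρ) ∧ ∑' w, nr X g D ρ w = (X.near g D ρ 0).toReal := by
  have e : (fun w => (if X.Ext D w ∧ X.Nr ρ 0 w then ENNReal.ofReal (g w) else 0 : ENNReal).toReal) =
      nr X g D ρ := by
    funext w
    rw [nr]
    split_ifs
    · exact ENNReal.toReal_ofReal (hg w)
    · rfl
  have h1 := ENNReal.summable_toReal h
  have h2 := ENNReal.tsum_toReal_eq (f := fun w : X.W =>
    (if X.Ext D w ∧ X.Nr ρ 0 w then ENNReal.ofReal (g w) else 0 : ENNReal)) (fun w => by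
      split_ifs <;> simp)
  rw [e] at h1
  refine ⟨h1, ?_⟩
  rw [WSys.near, h2, ← e]

/-- **bounds of sums** -/
lemma tsum_bd {g : X.W → ℝ} (hg : ∀ w, 0 ≤ g w) {D ρ : ℝ} (h : X.near g D ρ 0 ≠ ⊤) {H : X.W → ℝ} {B : ℝ}
    (hB : ∀ w, |H w| ≤ B) (hs : ∀ w, H w ≠ 0 → X.Ext D w ∧ X.Nr ρ 0 w) :
    (Summable fun w => g w * H w) ∧ |∑' w, g w * H w| ≤ (X.near g D ρ 0).toReal * B := by
  obtain ⟨s1, s2⟩ := nr_sum X hg h
  have key : ∀ w, ‖g w * H w‖ ≤ nr X g D ρ w * B := by
    intro w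
    by_cases h0 : H w = 0
    · rw [h0, mul_zero, norm_zero]
      exact mul_nonneg (nr_nn X hg _ _ _) ((abs_nonneg _).trans (hB w))
    · rw [nr, if_pos (hs w h0), norm_mul, Real.norm_of_nonneg (hg w), Real.norm_eq_abs]
      exact mul_le_mul_of_nonneg_left (hB w) (hg w)
  have s3 : Summable fun w => nr X g D ρ w * B := s1.mul_right B
  refine ⟨Summable.of_norm_bounded s3 key, ?_⟩
  have := tsum_of_norm_bounded s3.hasSum key
  rw [Real.norm_eq_abs, tsum_mul_right, s2] at this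
  exact this

/-! ### the factors -/

/-- the mass norm of a function of the tracers -/
noncomputable def Tn (S : PSys) (n : ℕ) (f : S.P → ℝ) : ℝ := ∑ v ∈ S.box n, S.M v * |f v|

lemma Tn_nn (n : ℕ) (f : S.P → ℝ) : 0 ≤ Tn S n f :=
  Finset.sum_nonneg fun v _ => mul_nonneg (S.M_nn v) (abs_nonneg _)

lemma fac_le (n : ℕ) (w : X.W) (b : Bool) (f : S.P → ℝ) : |X.fac n w b (.inr f)| ≤ Tn S n f := by
  classical
  rw [WSys.fac, Tn]
  refine (Finset.abs_sum_le_sum_abs _ _).trans (Finset.sum_le_sum fun v _ => ?_)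
  split_ifs
  · rw [abs_mul, abs_of_nonneg (S.M_nn v)]
  · rw [abs_zero]
    exact mul_nonneg (S.M_nn v) (abs_nonneg _)

lemma fac_pt (n : ℕ) (w : X.W) (b : Bool) (x : Z2) : |X.fac n w b (.inl x)| ≤ 1 := by
  classical
  rw [WSys.fac]
  split_ifs <;> simp

lemma fac_add (n : ℕ) (w : X.W) (b : Bool) (f g : S.P → ℝ) :
    X.fac n w b (.inr fun v => f v + g v) = X.fac n w b (.inr f) + X.fac n w b (.inr g) := by
  classical
  simp only [WSys.fac]
  rw [← Finset.sum_add_distrib]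
  refine Finset.sum_congr rfl fun v _ => ?_
  split_ifs <;> ring

lemma fac_smul (n : ℕ) (w : X.W) (b : Bool) (c : ℝ) (f : S.P → ℝ) :
    X.fac n w b (.inr fun v => c * f v) = c * X.fac n w b (.inr f) := by
  classical
  simp only [WSys.fac]
  rw [Finset.mul_sum]
  refine Finset.sum_congr rfl fun v _ => ?_
  split_ifs <;> ring

lemma fac_box {n n' : ℕ} (w : X.W) (b : Bool) (f : S.P → ℝ) (h : ∀ v, f v ≠ 0 → v ∈ S.box n ∧ v ∈ S.box n') :
    X.fac n w b (.inr f) = X.fac n' w b (.inr f) := by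
  classical
  simp only [WSys.fac]
  have h1 : (∑ v ∈ S.box n, if X.Dj w v ∧ (X.In v w ↔ b = true) then S.M v * f v else 0) =
      ∑ v ∈ S.box n ∪ S.box n', if X.Dj w v ∧ (X.In v w ↔ b = true) then S.M v * f v else 0 := by
    refine Finset.sum_subset Finset.subset_union_left fun v _ hv => ?_
    have : f v = 0 := by
      by_contra h0
      exact hv (h v h0).1
    rw [this]
    simp
  have h2 : (∑ v ∈ S.box n', if X.Dj w v ∧ (X.In v w ↔ b = true) then S.M v * f v else 0) =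
      ∑ v ∈ S.box n ∪ S.box n', if X.Dj w v ∧ (X.In v w ↔ b = true) then S.M v * f v else 0 := by
    refine Finset.sum_subset Finset.subset_union_right fun v _ hv => ?_
    have : f v = 0 := by
      by_contra h0
      exact hv (h v h0).2
    rw [this]
    simp
  rw [h1, h2]

/-! ### the pattern function in the functions of the tracers -/

/-- the pattern function with the tracer functions `F` -/
noncomputable def PF (g : X.W → ℝ) (n : ℕ) (π : Fin m → Bool) (J : Finset (Fin m)) (x : Fin m → Z2)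
    (F : Fin m → S.P → ℝ) : ℝ := X.PO g n π (Ob J x F)

/-- the factor -/
noncomputable def fc (n : ℕ) (π : Fin m → Bool) (J : Finset (Fin m)) (x : Fin m → Z2) (F : Fin m → S.P → ℝ)
    (w : X.W) (i : Fin m) : ℝ := X.fac n w (π i) (Ob J x F i)

lemma PF_eq (g : X.W → ℝ) (n : ℕ) (π : Fin m → Bool) (J : Finset (Fin m)) (x : Fin m → Z2)
    (F : Fin m → S.P → ℝ) : PF X g n π J x F = ∑' w, g w * ∏ i, fc X n π J x F w i := rfl

variable {X} {n : ℕ} {π : Fin m → Bool} {J : Finset (Fin m)} {x : Fin m → Z2}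

lemma fc_in {F : Fin m → S.P → ℝ} {w : X.W} {i : Fin m} (hi : i ∈ J) :
    fc X n π J x F w i = X.fac n w (π i) (.inr (F i)) := by
  rw [fc, Ob, if_pos hi]

lemma fc_out {F : Fin m → S.P → ℝ} {w : X.W} {i : Fin m} (hi : i ∉ J) :
    fc X n π J x F w i = X.fac n w (π i) (.inl (x i)) := by
  rw [fc, Ob, if_neg hi]

lemma fc_update {F : Fin m → S.P → ℝ} {w : X.W} {i : Fin m} (hi : i ∈ J) (f : S.P → ℝ) :
    fc X n π J x (Function.update F i f) w = Function.update (fc X n π J x F w) i (X.fac n w (π i) (.inr f)) := by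
  funext j
  by_cases hj : j = i
  · subst hj
    rw [Function.update_self, fc_in hi, Function.update_self]
  · rw [Function.update_of_ne hj]
    by_cases hJ : j ∈ J
    · rw [fc_in hJ, fc_in hJ, Function.update_of_ne hj]
    · rw [fc_out hJ, fc_out hJ]

lemma fc_le {F : Fin m → S.P → ℝ} {w : X.W} {i : Fin m} {A : ℝ} (hA : 1 ≤ A) (h : i ∈ J → Tn S n (F i) ≤ A) :
    |fc X n π J x F w i| ≤ A := by
  by_cases hi : i ∈ J
  · rw [fc_in hi]
    exact (fac_le X n w _ _).trans (h hi)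
  · rw [fc_out hi]
    exact (fac_pt X n w _ _).trans hA

/-- the setting -/
structure Set1 (X : WSys S) (g : X.W → ℝ) (N n : ℕ) (K δ d : ℝ) (π : Fin m → Bool) (J : Finset (Fin m))
    (x : Fin m → Z2) (W : ℝ) : Prop where
  hN : 1 ≤ N
  nt : PSys.NT π
  geo : Geo N K d J x
  nn : ∀ w, 0 ≤ g w
  nt' : X.near g (min δ d * N) ((K + 1) * N) 0 ≠ ⊤
  nW : (X.near g (min δ d * N) ((K + 1) * N) 0).toReal ≤ W

variable {g : X.W → ℝ} {N : ℕ} {K δ d W A β β' : ℝ}

lemma Set1.fin {F : Fin m → S.P → ℝ} (h : Set1 X g N n K δ d π J x W) (hF : ∀ i ∈ J, Okf S N K δ (F i)) :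
    Summable fun w => g w * ∏ i, fc X n π J x F w i := by
  have hA : ∀ w i, |fc X n π J x F w i| ≤ 1 + ∑ l, Tn S n (F l) := by
    intro w i
    refine fc_le ?_ fun _ => ?_
    · have := Finset.sum_nonneg fun l (_ : l ∈ (Finset.univ : Finset (Fin m))) => Tn_nn (S := S) n (F l)
      linarith
    · have := Finset.single_le_sum (fun l (_ : l ∈ (Finset.univ : Finset (Fin m))) => Tn_nn (S := S) n (F l))
        (Finset.mem_univ i)
      linarith
  exact (tsum_bd X h.nn h.nt' (B := (1 + ∑ l, Tn S n (F l)) ^ (Finset.univ : Finset (Fin m)).card)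
    (fun w => prod_le_pow _ fun l _ => hA w l) fun w hw => supp X h.hN h.nt h.geo hF w hw).1

lemma Okf.update {F : Fin m → S.P → ℝ} {i : Fin m} {f : S.P → ℝ} (hF : ∀ j ∈ J, Okf S N K δ (F j))
    (hf : Okf S N K δ f) : ∀ j ∈ J, Okf S N K δ (Function.update F i f j) := by
  intro j hj
  by_cases h : j = i
  · subst h
    rw [Function.update_self]
    exact hf
  · rw [Function.update_of_ne h]
    exact hF j hj

lemma Okf.update' {F : Fin m → S.P → ℝ} {i : Fin m} {f : S.P → ℝ} (hF : ∀ j ∈ J, j ≠ i → Okf S N K δ (F j))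
    (hf : Okf S N K δ f) : ∀ j ∈ J, Okf S N K δ (Function.update F i f j) := by
  intro j hj
  by_cases h : j = i
  · subst h
    rw [Function.update_self]
    exact hf
  · rw [Function.update_of_ne h]
    exact hF j hj h

lemma prod_upd {F : Fin m → S.P → ℝ} {w : X.W} {i : Fin m} (hi : i ∈ J) (f : S.P → ℝ) :
    ∏ j, fc X n π J x (Function.update F i f) w j =
      X.fac n w (π i) (.inr f) * ∏ j ∈ Finset.univ.erase i, fc X n π J x F w j := by
  rw [fc_update hi, ← Finset.mul_prod_erase _ _ (Finset.mem_univ i), Function.update_self]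
  congr 1
  refine Finset.prod_congr rfl fun j hj => ?_
  rw [Function.update_of_ne (Finset.ne_of_mem_erase hj)]

/-- additivity in one slot -/
lemma Set1.add {F : Fin m → S.P → ℝ} (h : Set1 X g N n K δ d π J x W) {i : Fin m} (hi : i ∈ J)
    (hF : ∀ j ∈ J, j ≠ i → Okf S N K δ (F j)) {f f' : S.P → ℝ} (hf : Okf S N K δ f) (hf' : Okf S N K δ f') :
    PF X g n π J x (Function.update F i fun v => f v + f' v) =
      PF X g n π J x (Function.update F i f) + PF X g n π J x (Function.update F i f') := by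
  rw [PF_eq, PF_eq, PF_eq, ← (h.fin (Okf.update' hF hf)).tsum_add (h.fin (Okf.update' hF hf'))]
  refine tsum_congr fun w => ?_
  rw [prod_upd hi, prod_upd hi, prod_upd hi, fac_add]
  ring

lemma PF_smul {F : Fin m → S.P → ℝ} {i : Fin m} (hi : i ∈ J) (c : ℝ) (f : S.P → ℝ) :
    PF X g n π J x (Function.update F i fun v => c * f v) = c * PF X g n π J x (Function.update F i f) := by
  rw [PF_eq, PF_eq, ← tsum_mul_left]
  refine tsum_congr fun w => ?_
  rw [prod_upd hi, prod_upd hi, fac_smul]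
  ring

lemma Okf.smul {f : S.P → ℝ} (c : ℝ) (hf : Okf S N K δ f) : Okf S N K δ fun v => c * f v :=
  fun v hv => hf v fun h0 => hv (by simp only [h0, mul_zero])

lemma Okf.add {f f' : S.P → ℝ} (hf : Okf S N K δ f) (hf' : Okf S N K δ f') : Okf S N K δ fun v => f v + f' v := by
  intro v hv
  by_cases h0 : f v = 0
  · refine hf' v fun h1 => hv ?_
    simp only [h0, h1, add_zero]
  · exact hf v h0

lemma Set1.sub {F : Fin m → S.P → ℝ} (h : Set1 X g N n K δ d π J x W) {i : Fin m} (hi : i ∈ J)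
    (hF : ∀ j ∈ J, j ≠ i → Okf S N K δ (F j)) {f f' : S.P → ℝ} (hf : Okf S N K δ f) (hf' : Okf S N K δ f') :
    PF X g n π J x (Function.update F i fun v => f v - f' v) =
      PF X g n π J x (Function.update F i f) - PF X g n π J x (Function.update F i f') := by
  have h1 := h.add hi hF hf (hf'.smul (-1))
  rw [PF_smul hi] at h1
  have e : (fun v => f v + -1 * f' v) = fun v => f v - f' v := by
    funext v
    ring
  rw [e] at h1
  rw [h1]
  ring

/-- bound with one small slot -/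
lemma Set1.le1 {F : Fin m → S.P → ℝ} (h : Set1 X g N n K δ d π J x W) {i : Fin m} (hi : i ∈ J)
    (hF : ∀ j ∈ J, Okf S N K δ (F j)) (hA : 1 ≤ A) (hβ : Tn S n (F i) ≤ β)
    (hT : ∀ j ∈ J, j ≠ i → Tn S n (F j) ≤ A) : |PF X g n π J x F| ≤ W * (β * A ^ m) := by
  have hβ0 : 0 ≤ β := (Tn_nn n _).trans hβ
  have h1 := (tsum_bd X h.nn h.nt' (H := fun w => ∏ i, fc X n π J x F w i) (B := β * A ^ m) (fun w => ?_)
    fun w hw => supp X h.hN h.nt h.geo hF w hw).2
  · rw [PF_eq]
    refine h1.trans (mul_le_mul_of_nonneg_right h.nW ?_)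
    positivity
  · refine (prod_le1 (A := A) hA Finset.univ (Finset.mem_univ i) fun l _ hl => fc_le hA fun hJ => hT l hJ hl).trans ?_
    rw [Finset.card_univ, Fintype.card_fin]
    refine mul_le_mul_of_nonneg_right ?_ (by positivity)
    rw [fc_in hi]
    exact (fac_le X n w _ _).trans hβ

/-- bound with two small slots -/
lemma Set1.le2 {F : Fin m → S.P → ℝ} (h : Set1 X g N n K δ d π J x W) {i j : Fin m} (hi : i ∈ J) (hj : j ∈ J)
    (hij : i ≠ j) (hF : ∀ j ∈ J, Okf S N K δ (F j)) (hA : 1 ≤ A) (hβ : Tn S n (F i) ≤ β) (hβ' : Tn S n (F j) ≤ β')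
    (hT : ∀ l ∈ J, l ≠ i → l ≠ j → Tn S n (F l) ≤ A) : |PF X g n π J x F| ≤ W * (β * β' * A ^ m) := by
  have hβ0 : 0 ≤ β := (Tn_nn n _).trans hβ
  have hβ0' : 0 ≤ β' := (Tn_nn n _).trans hβ'
  have h1 := (tsum_bd X h.nn h.nt' (H := fun w => ∏ i, fc X n π J x F w i) (B := β * β' * A ^ m) (fun w => ?_)
    fun w hw => supp X h.hN h.nt h.geo hF w hw).2
  · rw [PF_eq]
    refine h1.trans (mul_le_mul_of_nonneg_right h.nW ?_)
    positivity
  · refine (prod_le2 (A := A) hA Finset.univ (Finset.mem_univ i) (Finset.mem_univ j) hij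
      fun l _ hl hl' => fc_le hA fun hJ => hT l hJ hl hl').trans ?_
    rw [Finset.card_univ, Fintype.card_fin]
    refine mul_le_mul_of_nonneg_right ?_ (by positivity)
    rw [fc_in hi, fc_in hj]
    exact mul_le_mul ((fac_le X n w _ _).trans hβ) ((fac_le X n w _ _).trans hβ') (abs_nonneg _) hβ0

/-- **second order**: all tracers are changed -/
lemma Set1.sec {F F' : Fin m → S.P → ℝ} (h : Set1 X g N n K δ d π J x W) (hF : ∀ j ∈ J, Okf S N K δ (F j))
    (hF' : ∀ j ∈ J, Okf S N K δ (F' j)) (hA : 1 ≤ A) (hβ : 0 ≤ β) (hT : ∀ j ∈ J, Tn S n (F j) ≤ A)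
    (hT' : ∀ j ∈ J, Tn S n (F' j) ≤ A) (hD : ∀ j ∈ J, Tn S n (fun v => F' j v - F j v) ≤ β) :
    |PF X g n π J x F' - PF X g n π J x F -
      ∑ i ∈ J, PF X g n π J x (Function.update F i fun v => F' i v - F i v)| ≤ W * ((m : ℝ) ^ 2 * A ^ m * β ^ 2) := by
  have hOk : ∀ i ∈ J, Okf S N K δ fun v => F' i v - F i v := by
    intro i hi
    have h1 := (hF' i hi).add ((hF i hi).smul (-1))
    intro v hv
    refine h1 v ?_
    intro h0
    apply hv
    linarith
  have sF := h.fin hF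
  have sF' := h.fin hF'
  have sU : ∀ i ∈ J, Summable fun w => g w * ∏ l, fc X n π J x (Function.update F i fun v => F' i v - F i v) w l :=
    fun i hi => h.fin (Okf.update hF (hOk i hi))
  have e1 : PF X g n π J x F' - PF X g n π J x F -
      ∑ i ∈ J, PF X g n π J x (Function.update F i fun v => F' i v - F i v) =
      ∑' w, g w * (∏ l, fc X n π J x F' w l - ∏ l, fc X n π J x F w l -
        ∑ i ∈ J, ∏ l, fc X n π J x (Function.update F i fun v => F' i v - F i v) w l) := by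
    simp only [PF_eq]
    rw [← Summable.tsum_finsetSum sU, ← sF'.tsum_sub sF, ← (sF'.sub sF).tsum_sub (summable_sum sU)]
    refine tsum_congr fun w => ?_
    rw [mul_sub, mul_sub, Finset.mul_sum]
  rw [e1]
  have key : ∀ w : X.W, |∏ l, fc X n π J x F' w l - ∏ l, fc X n π J x F w l -
        ∑ i ∈ J, ∏ l, fc X n π J x (Function.update F i fun v => F' i v - F i v) w l| ≤
          (m : ℝ) ^ 2 * A ^ m * β ^ 2 := by
    intro w
    set a : Fin m → ℝ := fc X n π J x F w with ha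
    set b : Fin m → ℝ := fun l => fc X n π J x F' w l - a l with hb
    have hab : ∀ l, a l + b l = fc X n π J x F' w l := fun l => by rw [hb]; ring
    have hbJ : ∀ l, l ∉ J → b l = 0 := by
      intro l hl
      rw [hb]
      simp only
      rw [ha, fc_out hl, fc_out hl, sub_self]
    have hbi : ∀ l ∈ J, b l = X.fac n w (π l) (.inr fun v => F' l v - F l v) := by
      intro l hl
      rw [hb]
      simp only
      rw [ha, fc_in hl, fc_in hl]
      have e2 := fac_add X n w (π l) (F' l) (fun v => -1 * F l v)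
      rw [fac_smul] at e2
      have e3 : (fun v => F' l v + -1 * F l v) = fun v => F' l v - F l v := by
        funext v
        ring
      rw [e3] at e2
      rw [e2]
      ring
    have hE := prod_E (a := a) (b := b) hA hβ (Finset.univ : Finset (Fin m)) (fun l _ => fc_le hA (hT l))
      (fun l _ => ?_) (fun l _ => by rw [hab]; exact fc_le hA (hT' l))
    · rw [Finset.card_univ, Fintype.card_fin] at hE
      have e4 : ∏ l, (a l + b l) = ∏ l, fc X n π J x F' w l := Finset.prod_congr rfl fun l _ => hab l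
      have e5 : ∑ i, ∏ l, Function.update a i (b i) l =
          ∑ i ∈ J, ∏ l, fc X n π J x (Function.update F i fun v => F' i v - F i v) w l := by
        rw [← Finset.sum_subset (Finset.subset_univ J)]
        · refine Finset.sum_congr rfl fun i hi => ?_
          rw [fc_update hi, hbi i hi]
        · intro i _ hi
          refine Finset.prod_eq_zero (Finset.mem_univ i) ?_
          rw [Function.update_self, hbJ i hi]
      rw [e4, e5] at hE
      exact hE
    · by_cases hl : l ∈ J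
      · rw [hbi l hl]
        exact (fac_le X n w _ _).trans (hD l hl)
      · rw [hbJ l hl, abs_zero]
        exact hβ
  refine (tsum_bd X h.nn h.nt' key fun w hw => ?_).2.trans (mul_le_mul_of_nonneg_right h.nW (by positivity))
  by_cases h1 : ∏ l, fc X n π J x F' w l = 0
  · by_cases h2 : ∏ l, fc X n π J x F w l = 0
    · by_cases h3 : ∀ i ∈ J, ∏ l, fc X n π J x (Function.update F i fun v => F' i v - F i v) w l = 0
      · exfalso
        apply hw
        rw [h1, h2, Finset.sum_eq_zero h3]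
        ring
      · push Not at h3
        obtain ⟨i, hi, h3⟩ := h3
        exact supp X h.hN h.nt h.geo (Okf.update hF (hOk i hi)) w h3
    · exact supp X h.hN h.nt h.geo hF w h2
  · exact supp X h.hN h.nt h.geo hF' w h1

end Pool.Agent.ROT.U.St
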