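import Pool.Agent.ROT.UStA

/-!
# ROT, universality in the angle, side A: the row UStep, part B: the masses, Taylor (helper27)
-/

set_option autoImplicit false

open Finset Filter Topology

namespace Pool.Agent.ROT.U.St

open Pool.Agent.ROT.A (Z2 PSys)
open Pool.Agent.ROT.U

variable {S : PSys} (X : WSys S) {m : ℕ}

/-! ### the mass of the large `w` in a box -/

open Classical in
lemma near_cover (g : X.W → ℝ) {D r : ℝ} {N Q : ℕ} {R : ℝ} (hr : 2 ≤ r) (hQ : 2 * (R * N) / r + 1 ≤ Q)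
    (hR : 0 ≤ R * N) :
    X.near g D (R * N) 0 ≤ ∑ j ∈ Finset.Icc (-(Q : ℤ)) Q ×ˢ Finset.Icc (-(Q : ℤ)) Q,
      X.near g D r (⌊r⌋ * j.1, ⌊r⌋ * j.2) := by
  have hp : (1 : ℤ) ≤ ⌊r⌋ := Int.le_floor.2 (by push_cast; linarith)
  have hp1 : (⌊r⌋ : ℝ) ≤ r := Int.floor_le r
  have hp2 : r / 2 ≤ ⌊r⌋ := by
    have := Int.lt_floor_add_one r
    linarith
  have hp0 : (0 : ℝ) < ⌊r⌋ := by exact_mod_cast hp
  have hr0 : 0 < r := by linarith
  have key : ∀ c : ℤ, |(c : ℝ) - (0 : ℤ)| ≤ R * N → (c / ⌊r⌋) ∈ Finset.Icc (-(Q : ℤ)) Q ∧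
      |(c : ℝ) - ((⌊r⌋ * (c / ⌊r⌋) : ℤ) : ℝ)| ≤ r := by
    intro c hc
    have h1 := Int.emod_add_mul_ediv c ⌊r⌋
    have h2 := Int.emod_nonneg c (by omega : ⌊r⌋ ≠ 0)
    have h3 := Int.emod_lt_of_pos c (by omega : 0 < ⌊r⌋)
    set j : ℤ := c / ⌊r⌋ with hj
    have h1' : (c : ℝ) = ((c % ⌊r⌋ : ℤ) : ℝ) + (⌊r⌋ : ℝ) * (j : ℝ) := by exact_mod_cast h1.symm
    have h2' : (0 : ℝ) ≤ ((c % ⌊r⌋ : ℤ) : ℝ) := by exact_mod_cast h2
    have h3' : ((c % ⌊r⌋ : ℤ) : ℝ) < (⌊r⌋ : ℝ) := by exact_mod_cast h3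
    rw [Int.cast_zero, sub_zero, abs_le] at hc
    have hQ' : R * N / ⌊r⌋ ≤ 2 * (R * N) / r := by
      rw [div_le_div_iff₀ hp0 hr0]
      nlinarith
    constructor
    · rw [Finset.mem_Icc]
      constructor
      · have : -(Q : ℝ) ≤ j := by
          have h4 : -(R * N) ≤ (⌊r⌋ : ℝ) * ((j : ℝ) + 1) := by nlinarith [hc.1]
          have h5 : -((j : ℝ) + 1) ≤ R * N / ⌊r⌋ := by
            rw [le_div_iff₀ hp0]
            linarith
          linarith
        exact_mod_cast this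
      · have : (j : ℝ) ≤ Q := by
          have h5 : (j : ℝ) ≤ R * N / ⌊r⌋ := by
            rw [le_div_iff₀ hp0]
            nlinarith [hc.2]
          linarith
        exact_mod_cast this
    · push_cast
      rw [h1', abs_le]
      constructor <;> linarith
  have e1 : ∑ j ∈ Finset.Icc (-(Q : ℤ)) Q ×ˢ Finset.Icc (-(Q : ℤ)) Q, X.near g D r (⌊r⌋ * j.1, ⌊r⌋ * j.2) =
      ∑' w : X.W, ∑ j ∈ Finset.Icc (-(Q : ℤ)) Q ×ˢ Finset.Icc (-(Q : ℤ)) Q,
        if X.Ext D w ∧ X.Nr r (⌊r⌋ * j.1, ⌊r⌋ * j.2) w then ENNReal.ofReal (g w) else 0 := by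
    rw [Summable.tsum_finsetSum fun _ _ => ENNReal.summable]
    rfl
  rw [e1, WSys.near]
  refine ENNReal.tsum_le_tsum fun w => ?_
  by_cases h : X.Ext D w ∧ X.Nr (R * N) 0 w
  · obtain ⟨hE, s, hs, h1, h2⟩ := h
    obtain ⟨a1, a2⟩ := key s.1 h1
    obtain ⟨b1, b2⟩ := key s.2 h2
    rw [if_pos ⟨hE, s, hs, h1, h2⟩]
    have hmem : ((s.1 / ⌊r⌋, s.2 / ⌊r⌋) : ℤ × ℤ) ∈ Finset.Icc (-(Q : ℤ)) Q ×ˢ Finset.Icc (-(Q : ℤ)) Q :=
      Finset.mem_product.2 ⟨a1, b1⟩
    refine le_trans ?_ (Finset.single_le_sum (f := fun j : ℤ × ℤ =>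
      if X.Ext D w ∧ X.Nr r (⌊r⌋ * j.1, ⌊r⌋ * j.2) w then ENNReal.ofReal (g w) else 0) (fun _ _ => zero_le) hmem)
    rw [if_pos]
    exact ⟨hE, s, hs, a2, b2⟩
  · rw [if_neg h]
    exact zero_le

/-- **the mass of the large `w` in a box is bounded** -/
lemma near_big (hX : X.Near) {d R : ℝ} (hd : 0 < d) (hR : 0 ≤ R) : ∃ W : ℝ, 0 ≤ W ∧ ∀ᶠ N : ℕ in atTop, ∀ k : ℤ,
    X.near (X.wt k) (d * N) (R * N) 0 ≠ ⊤ ∧ (X.near (X.wt k) (d * N) (R * N) 0).toReal ≤ W := by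
  obtain ⟨η, hη, hev⟩ := hX d 1 hd one_pos
  obtain ⟨Q, hQ⟩ := exists_nat_ge (2 * R / η + 1)
  refine ⟨((Finset.Icc (-(Q : ℤ)) Q ×ˢ Finset.Icc (-(Q : ℤ)) Q).card : ℝ), Nat.cast_nonneg _, ?_⟩
  have hlarge : ∀ᶠ N : ℕ in atTop, 2 / η ≤ (N : ℝ) :=
    tendsto_natCast_atTop_atTop.eventually_ge_atTop (2 / η)
  filter_upwards [hev, hlarge] with N h1 h2 k
  have hN0 : (0 : ℝ) < N := lt_of_lt_of_le (by positivity) h2
  have h3 : 2 ≤ η * N := by
    rw [div_le_iff₀ hη] at h2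
    linarith
  have h4 : 2 * (R * N) / (η * N) + 1 ≤ Q := by
    have : 2 * (R * N) / (η * N) = 2 * R / η := by
      field_simp
    rw [this]
    exact hQ
  have h5 := near_cover X (X.wt k) (D := d * N) h3 h4 (by positivity)
  have h6 : X.near (X.wt k) (d * N) (R * N) 0 ≤
      ((Finset.Icc (-(Q : ℤ)) Q ×ˢ Finset.Icc (-(Q : ℤ)) Q).card : ENNReal) := by
    refine h5.trans ?_
    refine (Finset.sum_le_sum fun j _ => h1 k _).trans ?_
    rw [Finset.sum_const, ENNReal.ofReal_one, nsmul_eq_mul, mul_one]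
  refine ⟨ne_top_of_le_ne_top (ENNReal.natCast_ne_top _) h6, ?_⟩
  have := ENNReal.toReal_mono (ENNReal.natCast_ne_top _) h6
  rwa [ENNReal.toReal_natCast] at this

/-! ### the mass of the tracers in a box -/

open Classical in
lemma mass_one {N n : ℕ} {K δ : ℝ} (hN : 1 ≤ N) (hδ : 0 ≤ δ) (z : Z2) :
    ∑ v ∈ (S.box n).filter (fun v => Gd S N K δ v ∧ S.co v = z), S.M v ≤
      S.mass δ (2 * |K| + δ + 1) N (n + n) := by
  have e1 : ∑ v ∈ (S.box n).filter (fun v => Gd S N K δ v ∧ S.co v = z), S.M v =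
      ∑ p ∈ ((S.box n).filter (fun v => Gd S N K δ v ∧ S.co v = z)).map (S.tr (-z)).toEmbedding, S.M p := by
    rw [Finset.sum_map]
    refine Finset.sum_congr rfl fun v _ => ?_
    exact (S.tr_M (-z) v).symm
  rw [e1, PSys.mass, ← Finset.sum_filter]
  refine Finset.sum_le_sum_of_subset_of_nonneg ?_ fun p _ _ => S.M_nn p
  intro p hp
  rw [Finset.mem_map] at hp
  obtain ⟨v, hv, hpv⟩ := hp
  have hpv' : p = S.tr (-z) v := hpv.symm
  subst hpv'
  clear hpv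
  rw [Finset.mem_filter] at hv
  obtain ⟨hv1, hv2, hv3⟩ := hv
  rw [Finset.mem_filter]
  have hN0 : (0 : ℝ) ≤ N := Nat.cast_nonneg N
  have hN1 : (1 : ℝ) ≤ N := by exact_mod_cast hN
  obtain ⟨t0, t1, t2, t3⟩ := S.tr_ht (-z) v
  have hz1 : S.ht v 0 = z.1 := congrArg Prod.fst hv3
  have hz2 : S.ht v 2 = z.2 := congrArg Prod.snd hv3
  have hb := (S.mem_box n v).1 hv1
  have g1 : ((-z).1 : ℤ) = -z.1 := rfl
  have g2 : ((-z).2 : ℤ) = -z.2 := rfl
  rw [g1] at t0 t1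
  rw [g2] at t2 t3
  have hKK : K * N ≤ |K| * N := mul_le_mul_of_nonneg_right (le_abs_self K) hN0
  refine ⟨(S.mem_box _ _).2 ?_, ?_, ?_, ?_⟩
  · intro u
    have b0 := abs_le.1 (hb 0)
    have b1 := abs_le.1 (hb 1)
    have b2 := abs_le.1 (hb 2)
    have b3 := abs_le.1 (hb 3)
    rw [abs_le]
    fin_cases u
    · show _ ≤ S.ht (S.tr (-z) v) 0 ∧ S.ht (S.tr (-z) v) 0 ≤ _
      rw [t0]; push_cast; constructor <;> linarith [b0.1, b0.2]
    · show _ ≤ S.ht (S.tr (-z) v) 1 ∧ S.ht (S.tr (-z) v) 1 ≤ _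
      rw [t1]; push_cast; constructor <;> linarith [b0.1, b0.2, b1.1, b1.2]
    · show _ ≤ S.ht (S.tr (-z) v) 2 ∧ S.ht (S.tr (-z) v) 2 ≤ _
      rw [t2]; push_cast; constructor <;> linarith [b2.1, b2.2]
    · show _ ≤ S.ht (S.tr (-z) v) 3 ∧ S.ht (S.tr (-z) v) 3 ≤ _
      rw [t3]; push_cast; constructor <;> linarith [b2.1, b2.2, b3.1, b3.2]
  · show (S.ht (S.tr (-z) v) 0, S.ht (S.tr (-z) v) 2) = 0
    rw [t0, t2, hz1, hz2]
    simp
  · show δ * N ≤ (S.ht (S.tr (-z) v) 1 : ℝ) - S.ht (S.tr (-z) v) 0 ∧ _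
    rw [t0, t1]
    have e := hv2.e01 hN
    have k0 := abs_le.1 (hv2.ht hN 0)
    have k1 := abs_le.1 (hv2.ht hN 1)
    push_cast
    constructor
    · linarith
    · have : 0 ≤ δ * N := mul_nonneg hδ hN0
      linarith [k0.1, k1.2]
  · show δ * N ≤ (S.ht (S.tr (-z) v) 3 : ℝ) - S.ht (S.tr (-z) v) 2 ∧ _
    rw [t2, t3]
    have e := hv2.e23 hN
    have k0 := abs_le.1 (hv2.ht hN 2)
    have k1 := abs_le.1 (hv2.ht hN 3)
    push_cast
    constructor
    · linarith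
    · have : 0 ≤ δ * N := mul_nonneg hδ hN0
      linarith [k0.1, k1.2]

open Classical in
lemma mass_gd {N n : ℕ} {K δ C : ℝ} (hN : 1 ≤ N) (hδ : 0 ≤ δ)
    (hC : (N : ℝ) ^ 2 * S.mass δ (2 * |K| + δ + 1) N (n + n) ≤ C) :
    ∑ v ∈ (S.box n).filter (fun v => Gd S N K δ v), S.M v ≤ (2 * |K| + 1) ^ 2 * |C| := by
  have hN0 : (0 : ℝ) < N := by exact_mod_cast hN
  have hN1 : (1 : ℝ) ≤ N := by exact_mod_cast hN
  set L : ℕ := ⌊|K| * N⌋₊ with hL
  have hL1 : (L : ℝ) ≤ |K| * N := Nat.floor_le (by positivity)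
  set Z : Finset (ℤ × ℤ) := Finset.Icc (-(L : ℤ)) L ×ˢ Finset.Icc (-(L : ℤ)) L with hZ
  have hmap : ∀ v ∈ (S.box n).filter (fun v => Gd S N K δ v), S.co v ∈ Z := by
    intro v hv
    have hg := (Finset.mem_filter.1 hv).2
    have key : ∀ c : ℤ, |(c : ℝ)| ≤ K * N → c ∈ Finset.Icc (-(L : ℤ)) L := by
      intro c hc
      have h1 : ((|c| : ℤ) : ℝ) ≤ |K| * N := by
        rw [Int.cast_abs]
        exact hc.trans (mul_le_mul_of_nonneg_right (le_abs_self K) hN0.le)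
      have h2 : |c| ≤ (L : ℤ) := by
        have h3 : c.natAbs ≤ L := by
          refine Nat.le_floor ?_
          rw [← Int.cast_natCast, Int.natCast_natAbs]
          exact h1
        rw [Int.abs_eq_natAbs]
        exact_mod_cast h3
      rw [abs_le] at h2
      exact Finset.mem_Icc.2 h2
    exact Finset.mem_product.2 ⟨key _ (hg.ht hN 0), key _ (hg.ht hN 2)⟩
  rw [← Finset.sum_fiberwise_of_maps_to hmap]
  have h1 : ∀ z ∈ Z, ∑ v ∈ ((S.box n).filter (fun v => Gd S N K δ v)).filter (fun v => S.co v = z), S.M v ≤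
      C / (N : ℝ) ^ 2 := by
    intro z _
    rw [Finset.filter_filter, le_div_iff₀ (by positivity), mul_comm]
    exact (mul_le_mul_of_nonneg_left (mass_one hN hδ z) (by positivity)).trans hC
  refine (Finset.sum_le_sum h1).trans ?_
  rw [Finset.sum_const, nsmul_eq_mul]
  have hcard : (Z.card : ℝ) ≤ (2 * |K| + 1) ^ 2 * (N : ℝ) ^ 2 := by
    rw [hZ, Finset.card_product, Int.card_Icc]
    have e : ((L : ℤ) + 1 - -(L : ℤ)).toNat = 2 * L + 1 := by omega
    rw [e]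
    push_cast
    have h2 : (2 * (L : ℝ) + 1) ≤ (2 * |K| + 1) * N := by nlinarith
    have h3 : (0 : ℝ) ≤ 2 * (L : ℝ) + 1 := by positivity
    nlinarith
  calc (Z.card : ℝ) * (C / (N : ℝ) ^ 2) ≤ (Z.card : ℝ) * (|C| / (N : ℝ) ^ 2) := by
        refine mul_le_mul_of_nonneg_left ?_ (Nat.cast_nonneg _)
        exact div_le_div_of_nonneg_right (le_abs_self C) (by positivity)
    _ ≤ ((2 * |K| + 1) ^ 2 * (N : ℝ) ^ 2) * (|C| / (N : ℝ) ^ 2) := by
        refine mul_le_mul_of_nonneg_right hcard (by positivity)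
    _ = (2 * |K| + 1) ^ 2 * |C| := by
        field_simp

/-- **the mass of the good tracers is bounded** -/
lemma mass_big (hM : S.Mass) (K : ℝ) {δ : ℝ} (hδ : 0 < δ) : ∃ C : ℝ, 0 ≤ C ∧ ∀ᶠ N : ℕ in atTop, ∀ (n : ℕ)
    (f : S.P → ℝ) (B : ℝ), Okf S N K δ f → (∀ v, |f v| ≤ B) → Tn S n f ≤ B * C := by
  classical
  obtain ⟨C, N0, hC⟩ := hM.2 δ (2 * |K| + δ + 1) hδ (by
    have := abs_nonneg K
    linarith)
  refine ⟨(2 * |K| + 1) ^ 2 * |C|, by positivity, ?_⟩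
  have h1 : ∀ᶠ N : ℕ in atTop, N0 ≤ (N : ℝ) := tendsto_natCast_atTop_atTop.eventually_ge_atTop N0
  filter_upwards [h1, eventually_ge_atTop 1] with N h1 hN n f B hf hB
  have h2 := mass_gd hN hδ.le (hC N h1 (n + n)) (S := S)
  have h3 : Tn S n f = ∑ v ∈ (S.box n).filter (fun v => Gd S N K δ v), S.M v * |f v| := by
    rw [Tn]
    refine (Finset.sum_subset (Finset.filter_subset _ _) fun v hv hv' => ?_).symm
    have : f v = 0 := by
      by_contra h0
      exact hv' (Finset.mem_filter.2 ⟨hv, hf v h0⟩)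
    rw [this, abs_zero, mul_zero]
  rw [h3]
  rcases (S.box n).eq_empty_or_nonempty with he | ⟨v0, _⟩
  · rw [he]
    simp only [Finset.filter_empty, Finset.sum_empty]
    by_cases hB0 : 0 ≤ B
    · positivity
    · exfalso
      obtain ⟨r, s, c, hr, hrs, hc, N1, hlow⟩ := hM.1
      -- some polygon exists
      obtain ⟨n1, hn1⟩ := exists_nat_ge (s * (|N1| + 1))
      have h4 := hlow (|N1| + 1) (by linarith [le_abs_self N1]) n1 hn1
      have h5 : 0 < S.mass r s (|N1| + 1) n1 := by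
        by_contra h6
        push Not at h6
        have : (|N1| + 1) ^ 2 * S.mass r s (|N1| + 1) n1 ≤ 0 := mul_nonpos_of_nonneg_of_nonpos (by positivity) h6
        linarith
      rw [PSys.mass] at h5
      obtain ⟨p, _, _⟩ := Finset.exists_ne_zero_of_sum_ne_zero h5.ne'
      exact hB0 ((abs_nonneg _).trans (hB p))
  · have hB0 : 0 ≤ B := (abs_nonneg _).trans (hB v0)
    calc ∑ v ∈ (S.box n).filter (fun v => Gd S N K δ v), S.M v * |f v| ≤
          ∑ v ∈ (S.box n).filter (fun v => Gd S N K δ v), S.M v * B :=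
          Finset.sum_le_sum fun v _ => mul_le_mul_of_nonneg_left (hB v) (S.M_nn v)
      _ = B * ∑ v ∈ (S.box n).filter (fun v => Gd S N K δ v), S.M v := by
          rw [← Finset.sum_mul, mul_comm]
      _ ≤ B * ((2 * |K| + 1) ^ 2 * |C|) := mul_le_mul_of_nonneg_left h2 hB0

/-! ### Taylor -/

/-- one dimension: bounded second differences -/
lemma taylor1 {f : ℝ → ℝ} {L L' : ℝ} (hL : 0 ≤ L) (hL' : 0 ≤ L')
    (h2 : ∀ t s s', |f (t + s + s') - f (t + s) - f (t + s') + f t| ≤ L * |s| * |s'|)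
    (h1 : ∀ t s, |f (t + s) - f t| ≤ L' * |s|) {c : ℝ} (hc : 0 ≤ c) :
    |f c - f 0 - c * (f 1 - f 0)| ≤ L * (c ^ 2 + c) := by
  have step : ∀ (h : ℝ), 0 ≤ h → ∀ p : ℕ, |f (p * h) - f 0 - p * (f h - f 0)| ≤ L * (p * h) ^ 2 := by
    intro h hh p
    induction p with
    | zero => simp
    | succ p ih =>
      have e := h2 0 (p * h) h
      rw [zero_add, zero_add, abs_of_nonneg hh, abs_of_nonneg (by positivity : (0 : ℝ) ≤ p * h)] at e
      have e1 : f ((p + 1 : ℕ) * h) - f 0 - (p + 1 : ℕ) * (f h - f 0) =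
          (f (p * h) - f 0 - p * (f h - f 0)) + (f (p * h + h) - f (p * h) - f h + f 0) := by
        have : ((p + 1 : ℕ) : ℝ) * h = p * h + h := by push_cast; ring
        rw [this]
        push_cast
        ring
      rw [e1]
      refine (abs_add_le _ _).trans ?_
      have e2 : L * (((p + 1 : ℕ) : ℝ) * h) ^ 2 = L * (p * h) ^ 2 + L * (p * h) * h + (L * (p * h) * h + L * h ^ 2) := by
        push_cast
        ring
      have e3 : 0 ≤ L * (p * h) * h + L * h ^ 2 := by positivity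
      linarith
  refine le_of_forall_pos_le_add fun ε hε => ?_
  obtain ⟨q, hq⟩ := exists_nat_gt (2 * L' / ε)
  have hq0 : (0 : ℝ) < q := lt_of_le_of_lt (by positivity) hq
  set p : ℕ := ⌊c * q⌋₊ with hp
  have hp1 : (p : ℝ) ≤ c * q := Nat.floor_le (by positivity)
  have hp2 : c * q < p + 1 := Nat.lt_floor_add_one _
  have s1 := step (1 / q) (by positivity) p
  have s2 := step (1 / q) (by positivity) q
  have e1 : (q : ℝ) * (1 / q) = 1 := by field_simp
  rw [e1] at s2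
  set c' : ℝ := p * (1 / q) with hc'
  have c1 : c' ≤ c := by
    rw [hc', mul_one_div, div_le_iff₀ hq0]
    exact hp1
  have c2 : c - c' ≤ 1 / q := by
    rw [hc', sub_le_iff_le_add, ← sub_le_iff_le_add', mul_one_div]
    rw [sub_le_iff_le_add, ← add_div, le_div_iff₀ hq0]
    linarith
  have c0 : 0 ≤ c' := by positivity
  have h3 := h1 c' (c - c')
  have h4 := h1 0 1
  rw [add_sub_cancel, abs_of_nonneg (by linarith : 0 ≤ c - c')] at h3
  rw [zero_add, abs_one, mul_one] at h4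
  have e5 : f c - f 0 - c * (f 1 - f 0) = (f c - f c') + (f c' - f 0 - p * (f (1 / q) - f 0)) -
      c' * (f 1 - f 0 - q * (f (1 / q) - f 0)) - (c - c') * (f 1 - f 0) := by
    have : c' * q = p := by
      rw [hc']
      field_simp
    rw [show c' * (f 1 - f 0 - q * (f (1 / q) - f 0)) = c' * (f 1 - f 0) - (c' * q) * (f (1 / q) - f 0) by ring, this]
    ring
  have h5 : |c' * (f 1 - f 0 - q * (f (1 / q) - f 0))| ≤ c * L := by
    rw [abs_mul, abs_of_nonneg c0]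
    have : L * (1 : ℝ) ^ 2 = L := by ring
    rw [this] at s2
    exact mul_le_mul c1 s2 (abs_nonneg _) hc
  have h6 : |(c - c') * (f 1 - f 0)| ≤ 1 / q * L' := by
    rw [abs_mul, abs_of_nonneg (by linarith : 0 ≤ c - c')]
    exact mul_le_mul c2 h4 (abs_nonneg _) (by positivity)
  have h7 : L * c' ^ 2 ≤ L * c ^ 2 := by
    refine mul_le_mul_of_nonneg_left ?_ hL
    nlinarith
  have h8 : L' * (c - c') ≤ L' * (1 / q) := mul_le_mul_of_nonneg_left c2 hL'
  have h9 : 2 * L' * (1 / q) ≤ ε := by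
    rw [mul_one_div, div_le_iff₀ hq0]
    rw [div_lt_iff₀ hε] at hq
    linarith
  rw [e5]
  have t1 := abs_sub ((f c - f c') + (f c' - f 0 - p * (f (1 / q) - f 0)) -
      c' * (f 1 - f 0 - q * (f (1 / q) - f 0))) ((c - c') * (f 1 - f 0))
  have t2 := abs_sub ((f c - f c') + (f c' - f 0 - p * (f (1 / q) - f 0)))
      (c' * (f 1 - f 0 - q * (f (1 / q) - f 0)))
  have t3 := abs_add_le (f c - f c') (f c' - f 0 - p * (f (1 / q) - f 0))
  nlinarith

/-- one dimension, all `c` -/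
lemma taylor1' {f : ℝ → ℝ} {L L' : ℝ} (hL : 0 ≤ L) (hL' : 0 ≤ L')
    (h2 : ∀ t s s', |f (t + s + s') - f (t + s) - f (t + s') + f t| ≤ L * |s| * |s'|)
    (h1 : ∀ t s, |f (t + s) - f t| ≤ L' * |s|) (c : ℝ) :
    |f c - f 0 - c * (f 1 - f 0)| ≤ L * (c ^ 2 + 2 * |c|) := by
  rcases le_total 0 c with hc | hc
  · refine (taylor1 hL hL' h2 h1 hc).trans ?_
    rw [abs_of_nonneg hc]
    refine mul_le_mul_of_nonneg_left ?_ hL
    linarith
  · have a1 := taylor1 (f := fun t => f (-t)) hL hL' (fun t s s' => by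
      have := h2 (-t) (-s) (-s')
      rw [abs_neg, abs_neg] at this
      have e1 : -(t + s + s') = -t + -s + -s' := by ring
      have e2 : -(t + s) = -t + -s := by ring
      have e3 : -(t + s') = -t + -s' := by ring
      simp only [e1, e2, e3]
      exact this) (fun t s => by
      have := h1 (-t) (-s)
      rw [abs_neg] at this
      have e2 : -(t + s) = -t + -s := by ring
      simp only [e2]
      exact this) (c := -c) (by linarith)
    simp only [neg_neg, neg_zero] at a1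
    have a2 := h2 0 1 (-1)
    rw [abs_one, abs_neg, abs_one, mul_one, mul_one, zero_add, zero_add, add_neg_cancel] at a2
    rw [abs_of_nonpos hc]
    have e1 : f c - f 0 - c * (f 1 - f 0) = (f c - f 0 - -c * (f (-1) - f 0)) + c * (f 0 - f 1 - f (-1) + f 0) := by
      ring
    rw [e1]
    refine (abs_add_le _ _).trans ?_
    rw [abs_mul, abs_of_nonpos hc]
    have a3 := mul_le_mul_of_nonneg_left a2 (by linarith : 0 ≤ -c)
    nlinarith

end Pool.Agent.ROT.U.St
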