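import Pool.Agent.ROT.UStB

/-!
# ROT, universality in the angle, side A: the row UStep, part C: (INC) and (LRW) together (helper27)
-/

set_option autoImplicit false

open Finset Filter Topology

namespace Pool.Agent.ROT.U.St

open Pool.Agent.ROT.A (Z2 PSys)
open Pool.Agent.ROT.U

variable {S : PSys} {X : WSys S} {m : ℕ}

/-! ### shifts -/

lemma single_apply_le {u u' : Fin 4} {t : ℝ} (ht : 0 ≤ t) :
    0 ≤ (Pi.single u t : Fin 4 → ℝ) u' ∧ (Pi.single u t : Fin 4 → ℝ) u' ≤ t := by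
  rw [Pi.single_apply]
  split_ifs
  · exact ⟨ht, le_rfl⟩
  · exact ⟨le_rfl, ht⟩

lemma norm_sg (u : Fin 4) (t : ℝ) : ‖(Pi.single u t : Fin 4 → ℝ)‖ = |t| := by
  rw [Pi.norm_single, Real.norm_eq_abs]

/-- small steps -/
structure Sml (N : ℕ) (δ κ d : ℝ) : Prop where
  n1 : 1 ≤ N
  dl : 1 / (N : ℝ) ≤ δ / 2
  kp : 1 / (N : ℝ) ≤ κ / 2
  dd : 1 / (N : ℝ) ≤ d / 2

lemma Sml.pos {N : ℕ} {δ κ d : ℝ} (h : Sml N δ κ d) : (0 : ℝ) < N := by exact_mod_cast h.n1

lemma Sml.le1 {N : ℕ} {δ κ d : ℝ} (h : Sml N δ κ d) : 1 / (N : ℝ) ≤ 1 := by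
  have : (1 : ℝ) ≤ N := by exact_mod_cast h.n1
  rw [div_le_one h.pos]
  exact this

lemma ev_sml {δ κ d : ℝ} (hδ : 0 < δ) (hκ : 0 < κ) (hd : 0 < d) : ∀ᶠ N : ℕ in atTop, Sml N δ κ d := by
  have h0 : Tendsto (fun N : ℕ => 1 / (N : ℝ)) atTop (𝓝 0) := tendsto_one_div_atTop_nhds_zero_nat
  filter_upwards [eventually_ge_atTop 1, h0.eventually_le_const (by positivity : (0 : ℝ) < δ / 2),
    h0.eventually_le_const (by positivity : (0 : ℝ) < κ / 2), h0.eventually_le_const (by positivity : (0 : ℝ) < d / 2)]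
    with N h1 h2 h3 h4
  exact ⟨h1, h2, h3, h4⟩

variable {N n : ℕ} {K δ Λ κ d : ℝ} {k : ℤ} {J : Finset (Fin m)} {G : Fin m → (Fin 4 → ℝ) → ℝ} {x : Fin m → Z2}
  {π : Fin m → Bool}

/-- the support of a shifted function -/
lemma sup_shift {g : (Fin 4 → ℝ) → ℝ} (hs : Sml N δ κ d)
    (hsup : ∀ y, g y ≠ 0 → (∀ u, |y u| ≤ K) ∧ δ ≤ y 1 - y 0 ∧ δ ≤ y 3 - y 2) (u : Fin 4) (y : Fin 4 → ℝ)
    (h : g (y + Pi.single u (1 / (N : ℝ))) ≠ 0) :
    (∀ u, |y u| ≤ K + 1) ∧ δ / 2 ≤ y 1 - y 0 ∧ δ / 2 ≤ y 3 - y 2 := by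
  have ht : (0 : ℝ) ≤ 1 / N := by positivity
  have h1 := hs.le1
  have h2 := hs.dl
  obtain ⟨a1, a2, a3⟩ := hsup _ h
  simp only [Pi.add_apply] at a1 a2 a3
  refine ⟨fun u' => ?_, ?_, ?_⟩
  · have b := abs_le.1 (a1 u')
    have c := single_apply_le (u := u) (u' := u') ht
    rw [abs_le]
    constructor <;> linarith [b.1, b.2, c.1, c.2]
  · linarith [(single_apply_le (u := u) (u' := 0) ht).1, (single_apply_le (u := u) (u' := 1) ht).2]
  · linarith [(single_apply_le (u := u) (u' := 2) ht).1, (single_apply_le (u := u) (u' := 3) ht).2]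

lemma sup_mono {g : (Fin 4 → ℝ) → ℝ} (hδ : 0 ≤ δ)
    (hsup : ∀ y, g y ≠ 0 → (∀ u, |y u| ≤ K) ∧ δ ≤ y 1 - y 0 ∧ δ ≤ y 3 - y 2) (y : Fin 4 → ℝ)
    (h : g y ≠ 0) : (∀ u, |y u| ≤ K + 1) ∧ δ / 2 ≤ y 1 - y 0 ∧ δ / 2 ≤ y 3 - y 2 := by
  obtain ⟨a1, a2, a3⟩ := hsup _ h
  exact ⟨fun u => (a1 u).trans (by linarith), by linarith, by linarith⟩

lemma D1_ne {g : (Fin 4 → ℝ) → ℝ} {u : Fin 4} {y : Fin 4 → ℝ} (h : D1 N u g y ≠ 0) :
    g (y + Pi.single u (1 / (N : ℝ))) ≠ 0 ∨ g y ≠ 0 := by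
  by_contra h0
  push Not at h0
  exact h (by rw [D1, h0.1, h0.2, sub_zero])

lemma Tf1.Lnn {g : (Fin 4 → ℝ) → ℝ} (h : Tf1 K δ Λ g) : 0 ≤ Λ := (abs_nonneg _).trans (h.bd 0)

lemma Tf1.shift {g : (Fin 4 → ℝ) → ℝ} (h : Tf1 K δ Λ g) (hs : Sml N δ κ d) (u : Fin 4) :
    Tf1 (K + 1) (δ / 2) Λ fun y => g (y + Pi.single u (1 / (N : ℝ))) where
  bd y := h.bd _
  lip y z := by
    have := h.lip (y + Pi.single u (1 / (N : ℝ))) z
    rwa [show y + Pi.single u (1 / (N : ℝ)) + z = y + z + Pi.single u (1 / (N : ℝ)) by abel] at this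
  lip2 y z z' := by
    have := h.lip2 (y + Pi.single u (1 / (N : ℝ))) z z'
    rwa [show y + Pi.single u (1 / (N : ℝ)) + z + z' = y + z + z' + Pi.single u (1 / (N : ℝ)) by abel,
      show y + Pi.single u (1 / (N : ℝ)) + z = y + z + Pi.single u (1 / (N : ℝ)) by abel,
      show y + Pi.single u (1 / (N : ℝ)) + z' = y + z' + Pi.single u (1 / (N : ℝ)) by abel] at this
  sup y hy := sup_shift hs h.sup u y hy

lemma Tf1.mono {K' δ' : ℝ} {g : (Fin 4 → ℝ) → ℝ} (h : Tf1 K δ Λ g) (hK : K ≤ K') (hδ : δ' ≤ δ) :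
    Tf1 K' δ' Λ g where
  bd := h.bd
  lip := h.lip
  lip2 := h.lip2
  sup y hy := ⟨fun u => ((h.sup y hy).1 u).trans hK, hδ.trans (h.sup y hy).2.1, hδ.trans (h.sup y hy).2.2⟩

/-- the scaled difference is a Lipschitz test function -/
lemma Tf1.th {g : (Fin 4 → ℝ) → ℝ} (h : Tf1 K δ Λ g) (hδ : 0 ≤ δ) (hs : Sml N δ κ d) (u : Fin 4) :
    Tf0 (K + 1) (δ / 2) Λ fun y => (N : ℝ) * D1 N u g y where
  bd y := by
    have h1 := h.lip y (Pi.single u (1 / (N : ℝ)))
    rw [norm_sg, abs_of_nonneg (by positivity : (0 : ℝ) ≤ 1 / N)] at h1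
    rw [abs_mul, abs_of_pos hs.pos, D1]
    have h2 := mul_le_mul_of_nonneg_left h1 hs.pos.le
    have h3 : (N : ℝ) * (Λ * (1 / N)) = Λ := by
      have := hs.pos
      field_simp
    rwa [h3] at h2
  lip y z := by
    have h1 := h.lip2 y z (Pi.single u (1 / (N : ℝ)))
    rw [norm_sg, abs_of_nonneg (by positivity : (0 : ℝ) ≤ 1 / N)] at h1
    rw [← mul_sub, abs_mul, abs_of_pos hs.pos, D1, D1]
    have h2 := mul_le_mul_of_nonneg_left h1 hs.pos.le
    have h3 : (N : ℝ) * (Λ * ‖z‖ * (1 / N)) = Λ * ‖z‖ := by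
      have := hs.pos
      field_simp
    rw [h3] at h2
    rw [show g (y + z + Pi.single u (1 / (N : ℝ))) - g (y + z) - (g (y + Pi.single u (1 / (N : ℝ))) - g y) =
      g (y + z + Pi.single u (1 / (N : ℝ))) - g (y + z) - g (y + Pi.single u (1 / (N : ℝ))) + g y by ring]
    exact h2
  sup y hy := by
    rcases D1_ne (N := N) (g := g) (u := u) (y := y) (fun h0 => hy (by simp only [h0, mul_zero])) with h1 | h1
    · exact sup_shift hs h.sup u y h1
    · exact sup_mono hδ h.sup y h1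

lemma adm_mono {K' δ' κ' d' : ℝ} (h : WSys.Adm N K δ Λ κ d k J G x) (hK : K ≤ K') (hδ : δ' ≤ δ) (hκ : κ' ≤ κ)
    (hd : d' ≤ d) : WSys.Adm N K' δ' Λ κ' d' k J G x where
  kk := h.kk.trans (mul_le_mul_of_nonneg_right hK (Nat.cast_nonneg _))
  pt i hi := ⟨(h.pt i hi).1, (h.pt i hi).2.1.trans (mul_le_mul_of_nonneg_right hK (Nat.cast_nonneg _)),
    (h.pt i hi).2.2.trans (mul_le_mul_of_nonneg_right hK (Nat.cast_nonneg _))⟩
  tf i hi := Tf1.mono (h.tf i hi) hK hδ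
  nn := h.nn
  rt i hi y hy := (by have := h.rt i hi y hy; linarith)
  pp i j hi hj hij := (mul_le_mul_of_nonneg_right hd (Nat.cast_nonneg _)).trans (h.pp i j hi hj hij)
  tt i hi j hj hij y z hy hz := by
    rcases h.tt i hi j hj hij y z hy hz with h1 | h1
    · left; linarith
    · right; linarith

/-- the separation with one shifted function -/
lemma tt_shift (h : WSys.Adm N K δ Λ κ d k J G x) (hs : Sml N δ κ d) (hd : 0 ≤ d) {i j : Fin m} (hi : i ∈ J) (hj : j ∈ J)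
    (hij : i ≠ j) (u : Fin 4) (y z : Fin 4 → ℝ)
    (hy : G i (y + Pi.single u (1 / (N : ℝ))) ≠ 0 ∨ G i y ≠ 0) (hz : G j z ≠ 0) :
    y 1 + d / 2 ≤ z 0 ∨ z 1 + d / 2 ≤ y 0 := by
  have ht : (0 : ℝ) ≤ 1 / N := by positivity
  have h2 := hs.dd
  rcases hy with hy | hy
  · have h3 := h.tt i hi j hj hij _ z hy hz
    simp only [Pi.add_apply] at h3
    have c0 := single_apply_le (u := u) (u' := 0) ht
    have c1 := single_apply_le (u := u) (u' := 1) ht
    rcases h3 with h3 | h3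
    · left; linarith [c1.1]
    · right; linarith [c0.2]
  · rcases h.tt i hi j hj hij _ z hy hz with h3 | h3
    · left; linarith
    · right; linarith

lemma rt_shift (h : WSys.Adm N K δ Λ κ d k J G x) (hs : Sml N δ κ d) (hκ : 0 ≤ κ) {i : Fin m} (hi : i ∈ J)
    (u : Fin 4) (y : Fin 4 → ℝ) (hy : G i (y + Pi.single u (1 / (N : ℝ))) ≠ 0 ∨ G i y ≠ 0) :
    k / N + κ / 2 ≤ y 0 := by
  have ht : (0 : ℝ) ≤ 1 / N := by positivity
  have h2 := hs.kp
  rcases hy with hy | hy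
  · have h3 := h.rt i hi _ hy
    simp only [Pi.add_apply] at h3
    have c0 := single_apply_le (u := u) (u' := 0) ht
    linarith [c0.2]
  · have h3 := h.rt i hi _ hy
    linarith

lemma adm_shift (h : WSys.Adm N K δ Λ κ d k J G x) (hs : Sml N δ κ d) (hδ : 0 ≤ δ) (hκ : 0 ≤ κ) (hd : 0 ≤ d) {i : Fin m}
    (hi : i ∈ J) (u : Fin 4) : WSys.Adm N (K + 1) (δ / 2) Λ (κ / 2) (d / 2) k J
      (Function.update G i fun y => G i (y + Pi.single u (1 / (N : ℝ)))) x where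
  kk := h.kk.trans (mul_le_mul_of_nonneg_right (by linarith) (Nat.cast_nonneg _))
  pt l hl := ⟨(h.pt l hl).1, (h.pt l hl).2.1.trans (mul_le_mul_of_nonneg_right (by linarith) (Nat.cast_nonneg _)),
    (h.pt l hl).2.2.trans (mul_le_mul_of_nonneg_right (by linarith) (Nat.cast_nonneg _))⟩
  tf l hl := by
    by_cases hli : l = i
    · subst hli
      rw [Function.update_self]
      exact Tf1.shift (h.tf l hl) hs u
    · rw [Function.update_of_ne hli]
      exact Tf1.mono (h.tf l hl) (by linarith) (by linarith)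
  nn l hl y := by
    by_cases hli : l = i
    · subst hli
      rw [Function.update_self]
      exact h.nn l hl _
    · rw [Function.update_of_ne hli]
      exact h.nn l hl _
  rt l hl y hy := by
    by_cases hli : l = i
    · subst hli
      rw [Function.update_self] at hy
      exact rt_shift h hs hκ hl u y (Or.inl hy)
    · rw [Function.update_of_ne hli] at hy
      have := h.rt l hl y hy
      linarith
  pp l j hl hj hlj := (mul_le_mul_of_nonneg_right (by linarith) (Nat.cast_nonneg _)).trans (h.pp l j hl hj hlj)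
  tt l hl j hj hlj y z hy hz := by
    by_cases hli : l = i
    · subst hli
      rw [Function.update_self] at hy
      rw [Function.update_of_ne hlj.symm] at hz
      exact tt_shift h hs hd hl hj hlj u y z (Or.inl hy) hz
    · rw [Function.update_of_ne hli] at hy
      by_cases hji : j = i
      · subst hji
        rw [Function.update_self] at hz
        exact (tt_shift h hs hd hj hl hlj.symm u z y (Or.inl hz) hy).symm
      · rw [Function.update_of_ne hji] at hz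
        rcases h.tt l hl j hj hlj y z hy hz with h3 | h3
        · left; linarith
        · right; linarith

/-! ### tracers of the test functions -/

/-- the functions of the tracers -/
noncomputable def Fo (S : PSys) (N : ℕ) (G : Fin m → (Fin 4 → ℝ) → ℝ) : Fin m → S.P → ℝ := fun i v => G i (S.hN N v)

/-- the difference of one tracer -/
noncomputable def fD (S : PSys) (N : ℕ) (u : Fin 4) (g : (Fin 4 → ℝ) → ℝ) : S.P → ℝ := fun v => D1 N u g (S.hN N v)

lemma okf_of {K' δ' : ℝ} {g : (Fin 4 → ℝ) → ℝ} {f : S.P → ℝ} (hf : ∀ v, f v ≠ 0 → g (S.hN N v) ≠ 0)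
    (hsup : ∀ y, g y ≠ 0 → (∀ u, |y u| ≤ K') ∧ δ' ≤ y 1 - y 0 ∧ δ' ≤ y 3 - y 2) : Okf S N K' δ' f :=
  fun v hv => hsup _ (hf v hv)

lemma okf_Fo (h : ∀ i ∈ J, Tf1 K δ Λ (G i)) : ∀ i ∈ J, Okf S N K δ (Fo S N G i) :=
  fun i hi => okf_of (fun _ h0 => h0) (h i hi).sup

lemma Okf.mono {K' δ' : ℝ} {f : S.P → ℝ} (h : Okf S N K δ f) (hK : K ≤ K') (hδ : δ' ≤ δ) : Okf S N K' δ' f :=
  fun v hv => (h v hv).mono hK hδ

lemma okf_fD {g : (Fin 4 → ℝ) → ℝ} (h : Tf1 K δ Λ g) (hδ : 0 ≤ δ) (hs : Sml N δ κ d) (u : Fin 4) :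
    Okf S N (K + 1) (δ / 2) (fD S N u g) :=
  okf_of (g := fun y => (N : ℝ) * D1 N u g y) (fun _ hv => mul_ne_zero hs.pos.ne' hv) (Tf1.th h hδ hs u).sup

lemma Set1.lin4 {g : X.W → ℝ} {W : ℝ} {F : Fin m → S.P → ℝ} (h : Set1 X g N n K δ d π J x W) {i : Fin m} (hi : i ∈ J)
    (hF : ∀ j ∈ J, j ≠ i → Okf S N K δ (F j)) {f1 f2 f3 f4 : S.P → ℝ} (h1 : Okf S N K δ f1) (h2 : Okf S N K δ f2)
    (h3 : Okf S N K δ f3) (h4 : Okf S N K δ f4) (c1 c2 c3 c4 : ℝ) :
    PF X g n π J x (Function.update F i fun v => (c1 * f1 v + c2 * f2 v) + (c3 * f3 v + c4 * f4 v)) =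
      (c1 * PF X g n π J x (Function.update F i f1) + c2 * PF X g n π J x (Function.update F i f2)) +
      (c3 * PF X g n π J x (Function.update F i f3) + c4 * PF X g n π J x (Function.update F i f4)) := by
  rw [h.add hi hF ((h1.smul c1).add (h2.smul c2)) ((h3.smul c3).add (h4.smul c4)),
    h.add hi hF (h1.smul c1) (h2.smul c2), h.add hi hF (h3.smul c3) (h4.smul c4), PF_smul hi, PF_smul hi,
    PF_smul hi, PF_smul hi]

/-- the main terms of the increment -/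
noncomputable def Mn (X : WSys S) (N n : ℕ) (π : Fin m → Bool) (J : Finset (Fin m)) (x : Fin m → Z2) (k : ℤ) (a b : ℝ)
    (G : Fin m → (Fin 4 → ℝ) → ℝ) : ℝ :=
  ∑ i ∈ J, (-(a - 1) * (PF X (X.wt k) n π J x (Function.update (Fo S N G) i (fD S N 0 (G i))) +
      PF X (X.wt k) n π J x (Function.update (Fo S N G) i (fD S N 1 (G i)))) +
    b * (PF X (X.wt (k + 1)) n π J x (Function.update (Fo S N G) i (fD S N 2 (G i))) +
      PF X (X.wt (k + 1)) n π J x (Function.update (Fo S N G) i (fD S N 3 (G i)))))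

/-- **(INC) and (LRW)** -/
lemma stepA {a b : ℕ → ℝ} (hI : X.INC) (hL : X.LRW a b) (hX : X.Near) {m : ℕ} (π : Fin m → Bool) {K δ Λ κ d ε : ℝ}
    (hK : 0 ≤ K) (hπ : PSys.NT π) (hδ : 0 < δ) (hκ : 0 < κ) (hd : 0 < d) (hε : 0 < ε) : ∀ᶠ N : ℕ in atTop,
    ∀ (k : ℤ) (n : ℕ) (J : Finset (Fin m)) (G : Fin m → (Fin 4 → ℝ) → ℝ) (x : Fin m → Z2),
    (K + 2) * N ≤ n → WSys.Adm N K δ Λ κ d k J G x →
    |PF X (X.wt (k + 1)) n π J x (Fo S N G) - PF X (X.wt k) n π J x (Fo S N G) -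
      Mn X N n π J x k (a N) (b N) G| ≤ ε / N := by
  set ε1 : ℝ := ε / (1 + 4 * (m + 1)) with hε1
  have hε1' : 0 < ε1 := by positivity
  obtain ⟨N1, hN1⟩ := hI m π K δ Λ κ d ε1 hπ hδ hκ hd hε1'
  obtain ⟨N2, hN2⟩ := hL m π (K + 1) (δ / 2) Λ (κ / 2) (d / 2) ε1 hπ (by positivity) (by positivity) (by positivity) hε1'
  obtain ⟨W, hW0, hW⟩ := near_big X hX (d := min (δ / 2) (d / 2)) (R := K + 1 + 1) (by positivity) (by positivity)
  filter_upwards [eventually_ge_atTop N1, eventually_ge_atTop N2, hW, ev_sml hδ hκ hd] with N h1 h2 h3 hs k n J G x hn hA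
  have hN0 := hs.pos
  have hn1 : (K + 1) * N ≤ n := by nlinarith
  have hn2 : (K + 1 + 1) * N ≤ n := by linarith
  have hA2 : WSys.Adm N (K + 1) (δ / 2) Λ (κ / 2) (d / 2) k J G x :=
    adm_mono hA (by linarith) (by linarith) (by linarith) (by linarith)
  have hgeo : Geo N (K + 1) (d / 2) J x := ⟨fun i hi => ⟨(hA2.pt i hi).2.1, (hA2.pt i hi).2.2⟩, hA2.pp⟩
  have hset : ∀ l : ℤ, Set1 X (X.wt l) N n (K + 1) (δ / 2) (d / 2) π J x W := fun l =>
    ⟨hs.n1, hπ, hgeo, X.wt_nn l, (h3 l).1, (h3 l).2⟩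
  have hFo : ∀ i ∈ J, Okf S N (K + 1) (δ / 2) (Fo S N G i) := okf_Fo hA2.tf
  have hI1 := hN1 N h1 k n J G x hn1 hA
  rw [ob_eq] at hI1
  have key : ∀ i ∈ J,
      |X.PO (X.wt k) n π (Function.update (Ob J x (Fo S N G)) i (.inr (WSys.rC S N (G i)))) -
        -(a N - 1) * (PF X (X.wt k) n π J x (Function.update (Fo S N G) i (fD S N 0 (G i))) +
          PF X (X.wt k) n π J x (Function.update (Fo S N G) i (fD S N 1 (G i))))| ≤ 2 * (ε1 / N) ∧
      |X.PO (X.wt (k + 1)) n π (Function.update (Ob J x (Fo S N G)) i (.inr (WSys.rR S N (G i)))) -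
        b N * (PF X (X.wt (k + 1)) n π J x (Function.update (Fo S N G) i (fD S N 2 (G i))) +
          PF X (X.wt (k + 1)) n π J x (Function.update (Fo S N G) i (fD S N 3 (G i))))| ≤ 2 * (ε1 / N) := by
    intro i hi
    have hFi : ∀ j ∈ J, j ≠ i → Okf S N (K + 1) (δ / 2) (Fo S N G j) := fun j hj _ => hFo j hj
    have hth : ∀ u : Fin 4, ∀ l : ℤ, (l = k ∨ l = k + 1) →
        (∀ u' : Fin 4, (u' = 0 ∨ u' = 1) → |X.PO (X.wt l) n π (Function.update (WSys.ob S N J G x) i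
          (.inr fun v => (S.Qf v u' - a N) * ((N : ℝ) * D1 N u (G i) (S.hN N v))))| ≤ ε1) ∧
        (∀ u' : Fin 4, (u' = 2 ∨ u' = 3) → |X.PO (X.wt l) n π (Function.update (WSys.ob S N J G x) i
          (.inr fun v => (S.Cf v u' - b N) * ((N : ℝ) * D1 N u (G i) (S.hN N v))))| ≤ ε1) := by
      intro u l hl
      exact hN2 N h2 k n J G x hn2 hA2 i hi (fun y => (N : ℝ) * D1 N u (G i) y) (Tf1.th (hA.tf i hi) hδ.le hs u)
        (fun y hy => rt_shift hA hs hκ.le hi u y (D1_ne (N := N) (fun h0 => hy (by simp only [h0, mul_zero]))))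
        (fun j hj hji y z hy hz => tt_shift hA hs hd.le hi hj hji.symm u y z
          (D1_ne (N := N) (fun h0 => hy (by simp only [h0, mul_zero]))) hz) l hl
    have okp : ∀ (c : S.P → ℝ) (u : Fin 4), Okf S N (K + 1) (δ / 2)
        fun v => c v * ((N : ℝ) * D1 N u (G i) (S.hN N v)) := by
      intro c u
      exact okf_of (g := fun y => (N : ℝ) * D1 N u (G i) y) (fun v hv h0 => hv (by simp only [h0, mul_zero]))
        (Tf1.th (hA.tf i hi) hδ.le hs u).sup
    have okd : ∀ u : Fin 4, Okf S N (K + 1) (δ / 2) (fD S N u (G i)) := fun u => okf_fD (hA.tf i hi) hδ.le hs u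
    constructor
    · have e1 : WSys.rC S N (G i) = fun v => ((-(1 / (N : ℝ))) * ((S.Qf v 0 - a N) * ((N : ℝ) * D1 N 0 (G i) (S.hN N v))) +
          (-(a N - 1)) * fD S N 0 (G i) v) + ((-(1 / (N : ℝ))) * ((S.Qf v 1 - a N) * ((N : ℝ) * D1 N 1 (G i) (S.hN N v))) +
          (-(a N - 1)) * fD S N 1 (G i) v) := by
        funext v
        simp only [WSys.rC, fD]
        field_simp
        ring
      have e2 := (hset k).lin4 hi hFi (okp (fun v => S.Qf v 0 - a N) 0) (okd 0) (okp (fun v => S.Qf v 1 - a N) 1)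
        (okd 1) (-(1 / (N : ℝ))) (-(a N - 1)) (-(1 / (N : ℝ))) (-(a N - 1))
      rw [← e1] at e2
      have q0 := (hth 0 k (Or.inl rfl)).1 0 (Or.inl rfl)
      have q1 := (hth 1 k (Or.inl rfl)).1 1 (Or.inr rfl)
      rw [ob_eq] at q0 q1
      have u0 := Ob_update (S := S) x (Fo S N G) hi (fun v => (S.Qf v 0 - a N) * ((N : ℝ) * D1 N 0 (G i) (S.hN N v)))
      have u1 := Ob_update (S := S) x (Fo S N G) hi (fun v => (S.Qf v 1 - a N) * ((N : ℝ) * D1 N 1 (G i) (S.hN N v)))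
      rw [Ob_update (S := S) x (Fo S N G) hi]
      change |PF X (X.wt k) n π J x (Function.update (Fo S N G) i (WSys.rC S N (G i))) - _| ≤ _
      rw [e2]
      change |X.PO (X.wt k) n π (Function.update (Ob J x (Fo S N G)) i _)| ≤ _ at q0 q1
      rw [u0] at q0
      rw [u1] at q1
      change |PF X (X.wt k) n π J x _| ≤ _ at q0 q1
      set p0 := PF X (X.wt k) n π J x (Function.update (Fo S N G) i
        fun v => (S.Qf v 0 - a N) * ((N : ℝ) * D1 N 0 (G i) (S.hN N v)))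
      set p1 := PF X (X.wt k) n π J x (Function.update (Fo S N G) i
        fun v => (S.Qf v 1 - a N) * ((N : ℝ) * D1 N 1 (G i) (S.hN N v)))
      set r0 := PF X (X.wt k) n π J x (Function.update (Fo S N G) i (fD S N 0 (G i)))
      set r1 := PF X (X.wt k) n π J x (Function.update (Fo S N G) i (fD S N 1 (G i)))
      have e3 : -(1 / (N : ℝ)) * p0 + -(a N - 1) * r0 + (-(1 / (N : ℝ)) * p1 + -(a N - 1) * r1) -
          -(a N - 1) * (r0 + r1) = -((p0 + p1) / N) := by ring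
      rw [e3, abs_neg, abs_div, abs_of_pos hN0, ← mul_div_assoc]
      refine div_le_div_of_nonneg_right ?_ hN0.le
      exact (abs_add_le _ _).trans (by linarith)
    · have e1 : WSys.rR S N (G i) = fun v => ((1 / (N : ℝ)) * ((S.Cf v 2 - b N) * ((N : ℝ) * D1 N 2 (G i) (S.hN N v))) +
          (b N) * fD S N 2 (G i) v) + ((1 / (N : ℝ)) * ((S.Cf v 3 - b N) * ((N : ℝ) * D1 N 3 (G i) (S.hN N v))) +
          (b N) * fD S N 3 (G i) v) := by
        funext v
        simp only [WSys.rR, fD]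
        field_simp
        ring
      have e2 := (hset (k + 1)).lin4 hi hFi (okp (fun v => S.Cf v 2 - b N) 2) (okd 2) (okp (fun v => S.Cf v 3 - b N) 3)
        (okd 3) (1 / (N : ℝ)) (b N) (1 / (N : ℝ)) (b N)
      rw [← e1] at e2
      have q0 := (hth 2 (k + 1) (Or.inr rfl)).2 2 (Or.inl rfl)
      have q1 := (hth 3 (k + 1) (Or.inr rfl)).2 3 (Or.inr rfl)
      rw [ob_eq] at q0 q1
      have u0 := Ob_update (S := S) x (Fo S N G) hi (fun v => (S.Cf v 2 - b N) * ((N : ℝ) * D1 N 2 (G i) (S.hN N v)))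
      have u1 := Ob_update (S := S) x (Fo S N G) hi (fun v => (S.Cf v 3 - b N) * ((N : ℝ) * D1 N 3 (G i) (S.hN N v)))
      rw [Ob_update (S := S) x (Fo S N G) hi]
      change |PF X (X.wt (k + 1)) n π J x (Function.update (Fo S N G) i (WSys.rR S N (G i))) - _| ≤ _
      rw [e2]
      change |X.PO (X.wt (k + 1)) n π (Function.update (Ob J x (Fo S N G)) i _)| ≤ _ at q0 q1
      rw [u0] at q0
      rw [u1] at q1
      change |PF X (X.wt (k + 1)) n π J x _| ≤ _ at q0 q1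
      set p0 := PF X (X.wt (k + 1)) n π J x (Function.update (Fo S N G) i
        fun v => (S.Cf v 2 - b N) * ((N : ℝ) * D1 N 2 (G i) (S.hN N v)))
      set p1 := PF X (X.wt (k + 1)) n π J x (Function.update (Fo S N G) i
        fun v => (S.Cf v 3 - b N) * ((N : ℝ) * D1 N 3 (G i) (S.hN N v)))
      set r0 := PF X (X.wt (k + 1)) n π J x (Function.update (Fo S N G) i (fD S N 2 (G i)))
      set r1 := PF X (X.wt (k + 1)) n π J x (Function.update (Fo S N G) i (fD S N 3 (G i)))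
      have e3 : 1 / (N : ℝ) * p0 + b N * r0 + (1 / (N : ℝ) * p1 + b N * r1) - b N * (r0 + r1) = (p0 + p1) / N := by
        ring
      rw [e3, abs_div, abs_of_pos hN0, ← mul_div_assoc]
      refine div_le_div_of_nonneg_right ?_ hN0.le
      exact (abs_add_le _ _).trans (by linarith)
  -- assembly
  rw [Mn]
  set T1 : Fin m → ℝ := fun i => X.PO (X.wt k) n π (Function.update (Ob J x (Fo S N G)) i (.inr (WSys.rC S N (G i)))) +
    X.PO (X.wt (k + 1)) n π (Function.update (Ob J x (Fo S N G)) i (.inr (WSys.rR S N (G i)))) with hT1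
  set T2 : Fin m → ℝ := fun i => -(a N - 1) * (PF X (X.wt k) n π J x (Function.update (Fo S N G) i (fD S N 0 (G i))) +
      PF X (X.wt k) n π J x (Function.update (Fo S N G) i (fD S N 1 (G i)))) +
    b N * (PF X (X.wt (k + 1)) n π J x (Function.update (Fo S N G) i (fD S N 2 (G i))) +
      PF X (X.wt (k + 1)) n π J x (Function.update (Fo S N G) i (fD S N 3 (G i)))) with hT2
  have hI2 : |PF X (X.wt (k + 1)) n π J x (Fo S N G) - PF X (X.wt k) n π J x (Fo S N G) - ∑ i ∈ J, T1 i| ≤ ε1 / N := hI1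
  have hT : ∀ i ∈ J, |T1 i - T2 i| ≤ 4 * (ε1 / N) := by
    intro i hi
    obtain ⟨k1, k2⟩ := key i hi
    rw [hT1, hT2]
    simp only
    have e : ∀ p q r s : ℝ, p + q - (r + s) = (p - r) + (q - s) := fun p q r s => by ring
    rw [e]
    refine (abs_add_le _ _).trans ?_
    linarith
  have hTs : |∑ i ∈ J, T1 i - ∑ i ∈ J, T2 i| ≤ (m : ℝ) * (4 * (ε1 / N)) := by
    rw [← Finset.sum_sub_distrib]
    refine (Finset.abs_sum_le_sum_abs _ _).trans ((Finset.sum_le_sum hT).trans ?_)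
    rw [Finset.sum_const, nsmul_eq_mul]
    refine mul_le_mul_of_nonneg_right ?_ (by positivity)
    have := Finset.card_le_univ J
    rw [Fintype.card_fin] at this
    exact_mod_cast this
  change |_ - _ - ∑ i ∈ J, T2 i| ≤ _
  have e4 : PF X (X.wt (k + 1)) n π J x (Fo S N G) - PF X (X.wt k) n π J x (Fo S N G) - ∑ i ∈ J, T2 i =
      (PF X (X.wt (k + 1)) n π J x (Fo S N G) - PF X (X.wt k) n π J x (Fo S N G) - ∑ i ∈ J, T1 i) +
        (∑ i ∈ J, T1 i - ∑ i ∈ J, T2 i) := by ring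
  rw [e4]
  refine (abs_add_le _ _).trans ((add_le_add hI2 hTs).trans ?_)
  have e5 : ε1 / N + (m : ℝ) * (4 * (ε1 / N)) = (ε1 * (1 + 4 * m)) / N := by ring
  rw [e5]
  refine div_le_div_of_nonneg_right ?_ hN0.le
  rw [hε1, div_mul_eq_mul_div, div_le_iff₀ (by positivity)]
  nlinarith

end Pool.Agent.ROT.U.St
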