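import Pool.Agent.ROT.UQ
import Pool.Agent.ROT.UA2a
import Pool.Agent.ROT.ULine2
import Pool.Agent.ROT.A6U

/-!
# ROT, UNIV, row UI_q (helper19): the moment `3/2` of the product over an extreme line

`qx bb γ s` = the product of the ratios (angle `90` against the honeycomb) over the cells of the extreme line `s`.  By the
bumps (ULine2, helper70), its moment of order `3/2` over the loops of size `≥ R` with a given corner is `≤ C / R ^ 2`
(minimal cap: `x ^ (3/2) = 1.08 ≤ 1 + v ^ 2 = 1.0858`; straight cells: `y ^ (3/2) = 1.147 ≤ 1 + u1 ^ 2 = 1.29`).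

* `uiQ`, `uiQ_root` : the moment at any root;
* **`ui3 s : UI3 (sideU s)`**.
-/

set_option autoImplicit false

open Finset

namespace Pool.Agent.ROT.U

open Pool.Agent.UNI (wR)
open Pool.Agent.YBC (Dir)
open Pool.Agent.ROT.E (Cell Cfg Pt Lp oc Sp Mt)
open Pool.Agent.ROT.E.Hx (HL trc hs Ny wl cor big exC exR cor_trc MassU)
open Pool.Agent.ROT.A6 (HLs hexP crd pr wr trE)
open Pool.Agent.ROT.L (hL hR hB hT hL_le le_hR hB_le le_hT hL_mem hR_mem hB_mem hT_mem hL_eq hR_eq hB_eq hT_eq)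
open scoped ENNReal

/-! ### numbers -/

theorem m3_nn {x : ℝ} (h : 0 ≤ x) : 0 ≤ m3 x := mul_nonneg h (Real.sqrt_nonneg x)

theorem m3_mul {x y : ℝ} (h : 0 ≤ x) : m3 (x * y) = m3 x * m3 y := by
  unfold m3
  rw [Real.sqrt_mul h]
  ring

theorem m3_prod {ι : Type*} (s : Finset ι) {f : ι → ℝ} (h : ∀ i ∈ s, 0 ≤ f i) :
    m3 (∏ i ∈ s, f i) = ∏ i ∈ s, m3 (f i) := by
  classical
  induction s using Finset.induction_on with
  | empty => simp [m3]
  | insert a s ha ih =>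
    rw [Finset.prod_insert ha, Finset.prod_insert ha, m3_mul (h a (Finset.mem_insert_self _ _)),
      ih fun i hi => h i (Finset.mem_insert_of_mem hi)]

theorem m3_le {x a : ℝ} (h : 0 ≤ x) (ha : 0 ≤ a) (h2 : x ^ 3 ≤ a ^ 2) : m3 x ≤ a := by
  have h1 : m3 x ^ 2 = x ^ 3 := by
    unfold m3
    rw [mul_pow, Real.sq_sqrt h]
    ring
  rw [← h1] at h2
  exact (pow_le_pow_iff_left₀ (m3_nn h) ha two_ne_zero).1 h2

theorem hex_wts : (wR (Real.pi / 8)).v = HexObs.xc ^ 2 ∧ (wR (Real.pi / 8)).u1 = HexObs.xc ∧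
    (wR (Real.pi / 8)).u2 = HexObs.xc ^ 2 := by
  rw [UNI.wR_hex]
  exact ⟨rfl, rfl, rfl⟩

theorem hex_num : 0.2928 ≤ HexObs.xc ^ 2 ∧ HexObs.xc ^ 2 ≤ 1 := by
  rw [← hex_wts.1, v_eq, tt_h]
  obtain ⟨c1, c2⟩ := numC
  obtain ⟨s1, s2⟩ := numS
  constructor
  · rw [le_div_iff₀ (by linarith)]
    linarith
  · rw [div_le_one (by linarith)]
    linarith

theorem rc_nn : 0 ≤ rc bb .v ∧ 0 ≤ rc bb .nw ∧ 0 ≤ rc bb .sw := by
  have hp := Real.pi_pos
  have h : ∀ c : Cell, c = .v ∨ c = .nw ∨ c = .sw → 0 ≤ rc bb c := by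
    intro c hc
    have w := UNI.wR_nn (u := bb) (by unfold bb; linarith) (by unfold bb; linarith)
    have w' := UNI.wR_nn (u := Real.pi / 8) le_rfl (by linarith)
    rcases hc with rfl | rfl | rfl
    · exact div_nonneg w.v w'.v
    · exact div_nonneg w.u2 w'.u2
    · exact div_nonneg w.u1 w'.u1
  exact ⟨h _ (Or.inl rfl), h _ (Or.inr (Or.inl rfl)), h _ (Or.inr (Or.inr rfl))⟩

theorem num_b3 : m3 (rc bb .nw) * m3 (rc bb .sw) ≤ 1.0857 ∧ m3 (rc bb .v) ≤ 1.15 := by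
  obtain ⟨n1, n2, n3⟩ := rc_nn
  rw [← m3_mul n2, mul_comm (rc bb .nw)]
  obtain ⟨c1, c2⟩ := numC
  obtain ⟨s1, s2⟩ := numS
  have hX : rc bb .sw * rc bb .nw ≤ 1.053 := by
    rw [rc_u, tt_b]
    set C := Real.cos (Real.pi / 8)
    set S := Real.sin (Real.pi / 8)
    have h1 : 0 < C - S := by linarith
    have h2 : 0 < C := by linarith
    rw [div_le_iff₀ (by positivity), div_le_iff₀ (by positivity)]
    have a : 1.9238 ^ 2 ≤ (C + 1) ^ 2 := pow_le_pow_left₀ (by norm_num) (by linarith) 2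
    have b : (2 * C) ^ 2 ≤ 1.8478 ^ 2 := pow_le_pow_left₀ (by linarith) (by linarith) 2
    have e : 1.053 * ((C - S) / (2 * C) ^ 2) * (C + 1) ^ 2 = 1.053 * ((C - S) * (C + 1) ^ 2) / (2 * C) ^ 2 := by ring
    rw [e, le_div_iff₀ (by positivity)]
    have a' : 0.5411 * 1.9238 ^ 2 ≤ (C - S) * (C + 1) ^ 2 := mul_le_mul (by linarith) a (by norm_num) (by linarith)
    have b' : (1 - S) * (2 * C) ^ 2 ≤ 0.6174 * 1.8478 ^ 2 := mul_le_mul (by linarith) b (by positivity) (by norm_num)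
    refine b'.trans (le_trans ?_ (mul_le_mul_of_nonneg_left a' (by norm_num)))
    norm_num
  have hY : rc bb .v ≤ 1.096 := by
    rw [rc_v, tt_b]
    set C := Real.cos (Real.pi / 8)
    set S := Real.sin (Real.pi / 8)
    have h1 : 0 < C - S := by linarith
    have h2 : 0 < C := by linarith
    rw [div_le_iff₀ (by positivity), div_le_iff₀ (by positivity)]
    have e : 1.096 * ((C - S) / (2 * C)) * (C + 1) = 1.096 * ((C - S) * (C + 1)) / (2 * C) := by ring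
    rw [e, le_div_iff₀ (by positivity)]
    have a' : 0.5411 * 1.9238 ≤ (C - S) * (C + 1) := mul_le_mul (by linarith) (by linarith) (by norm_num) (by linarith)
    have b' : (1 - S) * (2 * C) ≤ 0.6174 * 1.8478 := mul_le_mul (by linarith) (by linarith) (by positivity) (by norm_num)
    refine b'.trans (le_trans ?_ (mul_le_mul_of_nonneg_left a' (by norm_num)))
    norm_num
  constructor
  · refine m3_le (mul_nonneg n3 n2) (by norm_num) ?_
    refine (pow_le_pow_left₀ (mul_nonneg n3 n2) hX 3).trans ?_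
    norm_num
  · refine m3_le n1 (by norm_num) ?_
    refine (pow_le_pow_left₀ n1 hY 3).trans ?_
    norm_num

/-! ### the weight with the factors -/

/-- the weight of a loop with the factors in the last column -/
theorem prod_gg {γ : Cfg} (l : HL γ) {q : ℤ} (hq : hR γ.support = q) :
    (γ.prod fun v c => if v.1 = q then Bp.gg (wR (Real.pi / 8)) (m3 (rc bb .nw)) (m3 (rc bb .sw)) (m3 (rc bb .v)) c
      else c.wt (wR (Real.pi / 8))) = HexObs.xc ^ (hs γ).card * m3 (qx bb γ 1) := by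
  classical
  have e0 : HexObs.xc ^ (hs γ).card = ∏ v ∈ γ.support, (γ v).wt (wR (Real.pi / 8)) := by
    have h := E.Hx.prod_hex γ
    rw [if_pos l.ny] at h
    exact h.symm
  have hcol : ∀ v ∈ γ.support, v.1 = q → γ v = .v ∨ γ v = .nw ∨ γ v = .sw := by
    intro v hv h1
    rcases cell_R l (v := v) (h1.trans hq.symm) with h | h | h | h
    · exact absurd h (A6.mem_supp.1 hv)
    · exact Or.inl h
    · exact Or.inr (Or.inl h)
    · exact Or.inr (Or.inr h)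
  obtain ⟨n1, n2, n3⟩ := rc_nn
  have e1 : m3 (qx bb γ 1) = ∏ v ∈ γ.support, if v.1 = q then m3 (rc bb (γ v)) else 1 := by
    unfold qx
    rw [m3_prod, ← Finset.prod_filter]
    · refine Finset.prod_congr ?_ fun _ _ => rfl
      ext v
      rw [Finset.mem_filter, Finset.mem_filter]
      have : crd 1 v = v.1 := rfl
      rw [this, ← hq]
      rfl
    · intro v hv
      rw [Finset.mem_filter] at hv
      have h2 : v.1 = q := hv.2.trans hq
      rcases hcol v hv.1 h2 with h | h | h <;> rw [h] <;> assumption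
  rw [e0, e1, ← Finset.prod_mul_distrib]
  unfold Finsupp.prod
  refine Finset.prod_congr rfl fun v hv => ?_
  beta_reduce
  by_cases h1 : v.1 = q
  · rw [if_pos h1, if_pos h1]
    rcases hcol v hv h1 with h | h | h <;> rw [h] <;> simp only [Bp.gg, Cell.wt] <;> ring
  · rw [if_neg h1, if_neg h1, mul_one]

/-- **the bumps of a loop** -/
theorem bump_m3 {γ : Cfg} (l : HL γ) {q : ℤ} (hq : hR γ.support = q) :
    HexObs.xc ^ (hs γ).card * m3 (qx bb γ 1) ≤
      ∑ D ∈ (Bp.Ed q γ).powerset, LT.M1 (wR (Real.pi / 8)) (Bp.bump q D γ) := by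
  have hp := Real.pi_pos
  obtain ⟨w1, w2, w3⟩ := hex_wts
  obtain ⟨x1, x2⟩ := hex_num
  obtain ⟨n1, n2, n3⟩ := rc_nn
  obtain ⟨m1, m2⟩ := num_b3
  have hpos : 0 < rc bb .nw := by
    rcases n2.lt_or_eq with h | h
    · exact h
    · exfalso
      have := num_b.1
      rw [← h, mul_zero] at this
      linarith
  have ha : 0 < m3 (rc bb .nw) := mul_pos hpos (Real.sqrt_pos.2 hpos)
  have hx4 : 0.0857 ≤ (HexObs.xc ^ 2) ^ 2 := by
    refine le_trans ?_ (pow_le_pow_left₀ (by norm_num) x1 2)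
    norm_num
  rw [← prod_gg l hq]
  refine Bp.bump_le (W := fun _ => wR (Real.pi / 8)) (fun _ => UNI.wR_nn le_rfl (by linarith)) rfl ha (m3_nn n3)
    (m3_nn n1) ?_ ?_ ?_ l.lp.mt ?_
  · rw [w1]
    linarith
  · rw [w2]
    linarith
  · rw [w1, w3]
    have h4 : 0 ≤ (HexObs.xc ^ 2) ^ 2 := by positivity
    nlinarith
  · intro v hv
    by_contra h
    have := le_hR (A6.mem_supp.2 h)
    omega

/-! ### the geometry of the bumps -/

section geo

variable {γ : Cfg} {q : ℤ} {D : Finset ℤ}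

theorem rbq (hq : hR γ.support = q) : ∀ v : Pt, q < v.1 → γ v = .o := by
  intro v hv
  by_contra h
  have := le_hR (A6.mem_supp.2 h)
  omega

/-- a loop has at least two columns -/
theorem hL_lt (l : HL γ) (hq : hR γ.support = q) : hL γ.support < q := by
  classical
  obtain ⟨v0, h0, e0⟩ := hR_mem (A6.supp_ne l)
  -- the highest cell of the last column
  obtain ⟨w, hw, hmax⟩ := Finset.exists_max_image (γ.support.filter fun v => v.1 = q) Prod.snd
    ⟨v0, Finset.mem_filter.2 ⟨h0, e0.trans hq⟩⟩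
  rw [Finset.mem_filter] at hw
  have hN : ¬ oc γ (w, .N) := by
    intro hN
    have h1 : oc γ ((w.1, w.2 + 1), .S) := (l.lp.mt (w, .N) (Set.mem_univ _) (Set.mem_univ _)).1 hN
    have h2 := hmax _ (Finset.mem_filter.2 ⟨A6.oc_mem h1, hw.2⟩)
    simp only at h2
    omega
  have hW : oc γ (w, .W) := by
    have hN' : ¬ (γ w).oc .N := hN
    show (γ w).oc .W
    rcases cell_R l (v := w) (hw.2.trans hq.symm) with h | h | h | h
    · exact absurd h (A6.mem_supp.1 hw.1)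
    · rw [h] at hN'
      exact absurd (by decide) hN'
    · rw [h] at hN'
      exact absurd (by decide) hN'
    · rw [h]
      decide
  have := A6.side_W l.lp.mt hW
  omega

theorem leaves (l : HL γ) (hq : hR γ.support = q) : ∃ v, v ∉ Sp q ∧ γ v ≠ 0 := by
  obtain ⟨v, hv, e⟩ := hL_mem (A6.supp_ne l)
  have := hL_lt l hq
  refine ⟨v, ?_, A6.mem_supp.1 hv⟩
  rintro (h | h) <;> omega

theorem bh (l : HL γ) (hq : hR γ.support = q) (hD : D ⊆ Bp.Ed q γ) : Bp.Bh q D γ :=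
  Bp.bh_of l.lp.mt (rbq hq) (Finset.mem_powerset.2 hD)

theorem bump_lp (l : HL γ) (hq : hR γ.support = q) (hD : D ⊆ Bp.Ed q γ) : Lp (Bp.bump q D γ) :=
  Bp.lp_bump (bh l hq hD) l.lp (leaves l hq)

/-- every cell gives a cell in the same row, not more to the left -/
theorem cell_up (l : HL γ) (hq : hR γ.support = q) {v : Pt} (hv : v ∈ γ.support) :
    ∃ v' ∈ (Bp.bump q D γ).support, v'.2 = v.2 ∧ v.1 ≤ v'.1 ∧ (v.1 < q → v' = v) := by
  obtain ⟨x, r⟩ := v
  have hv' := A6.mem_supp.1 hv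
  have hx : x ≤ q := by
    have := le_hR hv
    simp only at this
    omega
  rcases hx.lt_or_eq with h | h
  · refine ⟨(x, r), A6.mem_supp.2 ?_, rfl, le_rfl, fun _ => rfl⟩
    rw [Bp.bump_out (by rintro (h' | h') <;> simp only at h' <;> omega)]
    exact hv'
  · subst h
    have key : ∀ (c : Cell) (s n : Bool), c = .o ∨ c = .v ∨ c = .nw ∨ c = .sw → c ≠ .o →
        Bp.ca c s n ≠ .o ∨ Bp.cb c s n ≠ .o := by decide
    rcases key _ (decide (r - 1 ∈ D)) (decide (r ∈ D)) (cell_R l (v := (x, r)) hq.symm) hv' with h1 | h1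
    · refine ⟨(x, r), A6.mem_supp.2 ?_, rfl, le_rfl, fun h2 => absurd h2 (lt_irrefl _)⟩
      rw [Bp.bump_q]
      exact h1
    · refine ⟨(x + 1, r), A6.mem_supp.2 ?_, rfl, by simp, fun h2 => absurd h2 (lt_irrefl _)⟩
      rw [Bp.bump_q1]
      exact h1

/-- and conversely -/
theorem cell_dn (l : HL γ) (hq : hR γ.support = q) (hD : D ⊆ Bp.Ed q γ) {v : Pt} (hv : v ∈ (Bp.bump q D γ).support) :
    v.1 ≤ q + 1 ∧ ∃ v' ∈ γ.support, v'.2 = v.2 ∧ (v'.1 = v.1 ∨ q ≤ v.1) := by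
  obtain ⟨x, r⟩ := v
  have hv' := A6.mem_supp.1 hv
  have hx : x ≤ q + 1 := by
    by_contra h
    exact hv' (Bp.bump_right (bh l hq hD) (by simp only; omega))
  refine ⟨hx, ?_⟩
  by_cases h1 : x = q
  · subst h1
    refine ⟨(x, r), A6.mem_supp.2 fun h => hv' ?_, rfl, Or.inl rfl⟩
    rw [Bp.bump_q, h, Bp.ca_o]
  · by_cases h2 : x = q + 1
    · subst h2
      refine ⟨(q, r), A6.mem_supp.2 fun h => hv' ?_, rfl, Or.inr (by simp only; omega)⟩
      rw [Bp.bump_q1, h, Bp.cb_o]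
    · rw [Bp.bump_out (by rintro (h' | h') <;> simp only at h' <;> omega)] at hv'
      exact ⟨(x, r), A6.mem_supp.2 hv', rfl, Or.inl rfl⟩

/-- **the extremes of a bumped loop** -/
theorem bump_ext (l : HL γ) (hq : hR γ.support = q) (hD : D ⊆ Bp.Ed q γ) :
    (hR (Bp.bump q D γ).support = q ∨ hR (Bp.bump q D γ).support = q + 1) ∧
      hB (Bp.bump q D γ).support = hB γ.support ∧ exC γ ≤ exC (Bp.bump q D γ) ∧
      exR (Bp.bump q D γ) = exR γ := by
  have hn := A6.supp_ne l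
  have hlt := hL_lt l hq
  have e1 : hL (Bp.bump q D γ).support = hL γ.support := by
    obtain ⟨w, hw, e⟩ := hL_mem hn
    obtain ⟨w', h1, -, -, h4⟩ := cell_up (D := D) l hq hw
    refine hL_eq ⟨w', h1, ?_⟩ ?_
    · rw [h4 (by omega), e]
    · intro v hv
      obtain ⟨-, v', h5, -, h6⟩ := cell_dn l hq hD hv
      have := hL_le h5
      rcases h6 with h6 | h6 <;> omega
  have e2 : hB (Bp.bump q D γ).support = hB γ.support := by
    obtain ⟨w, hw, e⟩ := hB_mem hn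
    obtain ⟨w', h1, h2, -⟩ := cell_up (D := D) l hq hw
    refine hB_eq ⟨w', h1, by rw [h2, e]⟩ ?_
    intro v hv
    obtain ⟨-, v', h5, h6, -⟩ := cell_dn l hq hD hv
    rw [← h6]
    exact hB_le h5
  have e3 : hT (Bp.bump q D γ).support = hT γ.support := by
    obtain ⟨w, hw, e⟩ := hT_mem hn
    obtain ⟨w', h1, h2, -⟩ := cell_up (D := D) l hq hw
    refine hT_eq ⟨w', h1, by rw [h2, e]⟩ ?_
    intro v hv
    obtain ⟨-, v', h5, h6, -⟩ := cell_dn l hq hD hv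
    rw [← h6]
    exact le_hT h5
  have hn' : (Bp.bump q D γ).support.Nonempty := by
    obtain ⟨w, hw⟩ := hn
    obtain ⟨w', h1, -⟩ := cell_up (D := D) l hq hw
    exact ⟨w', h1⟩
  have e4 : q ≤ hR (Bp.bump q D γ).support ∧ hR (Bp.bump q D γ).support ≤ q + 1 := by
    constructor
    · obtain ⟨w, hw, e⟩ := hR_mem hn
      obtain ⟨w', h1, -, h3, -⟩ := cell_up (D := D) l hq hw
      have := le_hR h1
      omega
    · obtain ⟨w, hw, e⟩ := hR_mem hn'
      have := (cell_dn l hq hD hw).1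
      omega
  refine ⟨by omega, e2, ?_, ?_⟩
  · unfold exC
    rw [e1]
    omega
  · unfold exR
    rw [e2, e3]

end geo

/-! ### the sum -/

theorem wr_one (p : HLs) : 0 ≤ wr p := A6.wr_nn p

open Classical in
/-- sums over all loops -/
theorem sum_Lp (G : Cfg → ℝ≥0∞) : ∑' δ : {γ : Cfg // Lp γ}, ENNReal.ofReal (LT.M1 (wR (Real.pi / 8)) δ.1) * G δ.1 =
    ∑' p : HLs, ENNReal.ofReal (wr p) * G p.1 := by
  have h4 := tsum_subtype {γ : Cfg | Lp γ} (fun γ => ENNReal.ofReal (LT.M1 (wR (Real.pi / 8)) γ) * G γ)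
  have h5 := tsum_subtype {γ : Cfg | HL γ} (fun γ => wl γ * G γ)
  have h6 : ∑' p : HLs, ENNReal.ofReal (wr p) * G p.1 = ∑' p : {γ : Cfg // HL γ}, wl p.1 * G p.1 := rfl
  rw [h6]
  refine h4.trans (Eq.trans ?_ h5.symm)
  apply tsum_congr
  intro γ
  simp only [Set.indicator_apply, Set.mem_ofPred_eq]
  have e1 : LT.M1 (wR (Real.pi / 8)) γ = if Ny γ then HexObs.xc ^ (hs γ).card else 0 := by
    rw [← E.Hx.prod_hex]
    rfl
  by_cases hl : Lp γ
  · by_cases hy : Ny γ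
    · rw [if_pos hl, if_pos (⟨hl, hy⟩ : HL γ), e1, if_pos hy]
      rfl
    · rw [if_pos hl, if_neg (fun h : HL γ => hy h.ny), e1, if_neg hy, ENNReal.ofReal_zero, zero_mul]
  · rw [if_neg hl, if_neg (fun h : HL γ => hl h.lp)]

open Classical in
/-- **the sum over the bumps** -/
theorem right_aux (R : ℝ) : ∑' p : HLs, (if hR p.1.support = 0 ∧ hB p.1.support = 0 then
    ENNReal.ofReal (wr p) * (big R p.1 * ENNReal.ofReal (m3 (qx bb p.1 1))) else 0) ≤
    ∑' p : HLs, ENNReal.ofReal (wr p) *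
      (if (hR p.1.support = 0 ∨ hR p.1.support = 1) ∧ hB p.1.support = 0 then big R p.1 else 0) := by
  rw [← sum_Lp fun δ => if (hR δ.support = 0 ∨ hR δ.support = 1) ∧ hB δ.support = 0 then big R δ else 0]
  obtain ⟨M, hM⟩ : ∃ M : Cfg → ℝ, M = LT.M1 (wR (Real.pi / 8)) := ⟨_, rfl⟩
  have hp := Real.pi_pos
  have M0 : ∀ γ, 0 ≤ M γ := fun γ => by
    rw [hM, UNI.wR_hex]
    exact LT.M1_nn HexObs.xc_pos γ
  obtain ⟨T, hT⟩ : ∃ T : Set (HLs × Finset ℤ), ∀ x, x ∈ T ↔ (hR x.1.1.support = 0 ∧ hB x.1.1.support = 0) ∧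
      x.2 ⊆ Bp.Ed 0 x.1.1 := ⟨{x | (hR x.1.1.support = 0 ∧ hB x.1.1.support = 0) ∧ x.2 ⊆ Bp.Ed 0 x.1.1}, fun _ => Iff.rfl⟩
  obtain ⟨H, hH⟩ : ∃ H : HLs × Finset ℤ → ℝ≥0∞, H = fun x => ENNReal.ofReal (M (Bp.bump 0 x.2 x.1.1)) * big R x.1.1 :=
    ⟨_, rfl⟩
  have e1 : ∀ p : HLs, (if hR p.1.support = 0 ∧ hB p.1.support = 0 then
      ENNReal.ofReal (wr p) * (big R p.1 * ENNReal.ofReal (m3 (qx bb p.1 1))) else 0) ≤
      ∑' D : Finset ℤ, (if (p, D) ∈ T then H (p, D) else 0) := by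
    intro p
    by_cases hc : hR p.1.support = 0 ∧ hB p.1.support = 0
    · rw [if_pos hc]
      have h1 := bump_m3 p.2 hc.1
      have h2 : ∑' D : Finset ℤ, (if (p, D) ∈ T then H (p, D) else 0) =
          ∑ D ∈ (Bp.Ed 0 p.1).powerset, H (p, D) := by
        rw [tsum_eq_sum (s := (Bp.Ed 0 p.1).powerset)]
        · refine Finset.sum_congr rfl fun D hD => ?_
          have hm : (p, D) ∈ T := (hT (p, D)).2 ⟨hc, Finset.mem_powerset.1 hD⟩
          rw [if_pos hm]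
        · intro D hD
          have hm : (p, D) ∉ T := fun h => hD (Finset.mem_powerset.2 ((hT (p, D)).1 h).2)
          rw [if_neg hm]
      have h3 : ∑ D ∈ (Bp.Ed 0 p.1).powerset, H (p, D) =
          ENNReal.ofReal (∑ D ∈ (Bp.Ed 0 p.1).powerset, M (Bp.bump 0 D p.1)) * big R p.1 := by
        rw [ENNReal.ofReal_sum_of_nonneg fun D _ => M0 _, Finset.sum_mul]
        exact Finset.sum_congr rfl fun D _ => by rw [hH]
      rw [h2, h3]
      calc ENNReal.ofReal (wr p) * (big R p.1 * ENNReal.ofReal (m3 (qx bb p.1 1))) =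
          ENNReal.ofReal (wr p * m3 (qx bb p.1 1)) * big R p.1 := by
            rw [ENNReal.ofReal_mul (A6.wr_nn p)]
            ring
        _ ≤ _ := by
            gcongr
            rw [hM]
            exact h1
    · rw [if_neg hc]
      exact zero_le
  refine (ENNReal.tsum_le_tsum e1).trans ?_
  rw [← ENNReal.tsum_prod (f := fun (p : HLs) (D : Finset ℤ) => if (p, D) ∈ T then H (p, D) else 0)]
  have e3 : (∑' x : HLs × Finset ℤ, (if (x.1, x.2) ∈ T then H (x.1, x.2) else 0)) = ∑' x : T, H x.1 := by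
    rw [tsum_subtype T H]
    refine tsum_congr fun x => ?_
    by_cases hx : x ∈ T
    · rw [Set.indicator_of_mem hx, if_pos hx]
    · rw [Set.indicator_of_notMem hx, if_neg hx]
  rw [e3]
  have tl : ∀ x : T, hR x.1.1.1.support = 0 := fun x => ((hT x.1).1 x.2).1.1
  have td : ∀ x : T, x.1.2 ⊆ Bp.Ed 0 x.1.1.1 := fun x => ((hT x.1).1 x.2).2
  obtain ⟨F, hF⟩ : ∃ F : T → {γ : Cfg // Lp γ}, F = fun x => ⟨Bp.bump 0 x.1.2 x.1.1.1, bump_lp x.1.1.2 (tl x) (td x)⟩ :=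
    ⟨_, rfl⟩
  have hi : Function.Injective F := by
    intro x y hxy
    rw [hF] at hxy
    have h1 : Bp.bump 0 x.1.2 x.1.1.1 = Bp.bump 0 y.1.2 y.1.1.1 := congrArg Subtype.val hxy
    obtain ⟨h2, h3⟩ := Bp.bump_inj (bh x.1.1.2 (tl x) (td x)) (bh y.1.1.2 (tl y) (td y)) h1
    exact Subtype.ext (Prod.ext (Subtype.ext h3) h2)
  refine le_trans ?_ (ENNReal.tsum_comp_le_tsum_of_injective hi fun δ : {γ : Cfg // Lp γ} =>
    ENNReal.ofReal (LT.M1 (wR (Real.pi / 8)) δ.1) *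
      (if (hR δ.1.support = 0 ∨ hR δ.1.support = 1) ∧ hB δ.1.support = 0 then big R δ.1 else 0))
  refine ENNReal.tsum_le_tsum fun x => ?_
  obtain ⟨h1, h2, h3, h4⟩ := bump_ext (D := x.1.2) x.1.1.2 (tl x) (td x)
  have hb : hB x.1.1.1.support = 0 := ((hT x.1).1 x.2).1.2
  rw [hF, hH, ← hM]
  simp only
  rw [if_pos ⟨by simpa using h1, h2.trans hb⟩]
  gcongr
  unfold big
  by_cases h5 : R ≤ exC x.1.1.1 ∨ R ≤ exR x.1.1.1
  · have h6 : R ≤ exC (Bp.bump 0 x.1.2 x.1.1.1) ∨ R ≤ exR (Bp.bump 0 x.1.2 x.1.1.1) := by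
      rcases h5 with h5 | h5
      · left
        refine h5.trans ?_
        exact_mod_cast h3
      · right
        rw [h4]
        exact h5
    rw [if_pos h5, if_pos h6]
  · rw [if_neg h5]
    exact zero_le

open Classical in
/-- the root: last column, first row -/
noncomputable def rtR (a : ℤ) (p : HLs) : Pt := (A6.hc p.1 1 - a, A6.hc p.1 2)

theorem rtR_tr (a : ℤ) (z : Pt) (p : HLs) : rtR a (trE z p) = rtR a p + z := by
  obtain ⟨-, h1, h2, -⟩ := A6.hc_trc p.2 z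
  have h1' : A6.hc (trE z p).1 1 = A6.hc p.1 1 + z.1 := h1
  have h2' : A6.hc (trE z p).1 2 = A6.hc p.1 2 + z.2 := h2
  unfold rtR
  rw [h1', h2']
  ext
  · show A6.hc p.1 1 + z.1 - a = A6.hc p.1 1 - a + z.1
    ring
  · rfl

/-- the function of the moment -/
noncomputable def Gs (R : ℝ) (s : Fin 4) (γ : Cfg) : ℝ≥0∞ := big R γ * ENNReal.ofReal (m3 (qx bb γ s))

theorem Gs_trc (R : ℝ) (s : Fin 4) (a : Pt) (γ : Cfg) (h : HL γ) : Gs R s (trc a γ) = Gs R s γ := by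
  unfold Gs
  rw [E.Hx.big_trc R a h, qx_trc bb h]

/-- **the moment, last column** -/
theorem uiQ1 (h : MassU) : ∃ C : ℝ, 0 < C ∧ ∀ R : ℝ, 1 ≤ R →
    ∑' γ : {γ : Cfg // HL γ ∧ cor γ = 0}, wl γ.1 * Gs R 1 γ.1 ≤ ENNReal.ofReal (C / R ^ 2) := by
  classical
  obtain ⟨C, hC, hU⟩ := E.Hx.loopU h
  refine ⟨2 * C, by positivity, fun R h1R => ?_⟩
  rw [← A6.sum_rt (rtR_tr 0) (Gs R 1) fun a γ h => Gs_trc R 1 a γ h]
  have e1 : ∀ (a : ℤ) (p : HLs), rtR a p = 0 ↔ hR p.1.support = a ∧ hB p.1.support = 0 := by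
    intro a p
    unfold rtR
    rw [Prod.mk_eq_zero, A6.hc1, A6.hc2, sub_eq_zero]
  have e2 : ∑' p : HLs, (if rtR 0 p = 0 then ENNReal.ofReal (wr p) * Gs R 1 p.1 else 0) =
      ∑' p : HLs, (if hR p.1.support = 0 ∧ hB p.1.support = 0 then
        ENNReal.ofReal (wr p) * (big R p.1 * ENNReal.ofReal (m3 (qx bb p.1 1))) else 0) := by
    apply tsum_congr
    intro p
    simp only [e1]
    rfl
  rw [e2]
  refine (right_aux R).trans ?_
  have e3 : ∀ p : HLs, ENNReal.ofReal (wr p) *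
      (if (hR p.1.support = 0 ∨ hR p.1.support = 1) ∧ hB p.1.support = 0 then big R p.1 else 0) ≤
      (if rtR 0 p = 0 then ENNReal.ofReal (wr p) * big R p.1 else 0) +
        (if rtR 1 p = 0 then ENNReal.ofReal (wr p) * big R p.1 else 0) := by
    intro p
    by_cases h2 : hB p.1.support = 0
    · by_cases h0 : hR p.1.support = 0
      · rw [if_pos ⟨Or.inl h0, h2⟩, if_pos ((e1 0 p).2 ⟨h0, h2⟩)]
        exact le_self_add
      · by_cases h1 : hR p.1.support = 1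
        · rw [if_pos ⟨Or.inr h1, h2⟩, if_pos ((e1 1 p).2 ⟨h1, h2⟩)]
          exact le_add_self
        · rw [if_neg (fun h => h.1.elim h0 h1), mul_zero]
          exact zero_le
    · rw [if_neg fun h => h2 h.2, mul_zero]
      exact zero_le
  refine (ENNReal.tsum_le_tsum e3).trans ?_
  rw [ENNReal.tsum_add, A6.sum_rt (rtR_tr 0) (big R) fun a γ h => E.Hx.big_trc R a h,
    A6.sum_rt (rtR_tr 1) (big R) fun a γ h => E.Hx.big_trc R a h]
  have h3 : ∑' γ : {γ : Cfg // HL γ ∧ cor γ = 0}, wl γ.1 * big R γ.1 ≤ ENNReal.ofReal (C / R ^ 2) := hU R h1R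
  refine (add_le_add h3 h3).trans (le_of_eq ?_)
  rw [← ENNReal.ofReal_add (by positivity) (by positivity)]
  congr 1
  ring

/-! ### the four sides -/

/-- a symmetry -/
theorem sum_sym (e : HLs ≃ HLs) (l : Pt ≃+ Pt) (he : ∀ z p, e (trE z p) = trE (l z) (e p))
    (hw : ∀ p, wr (e p) = wr p) (G G' : Cfg → ℝ≥0∞) (hG : ∀ a γ, HL γ → G (trc a γ) = G γ)
    (hG' : ∀ a γ, HL γ → G' (trc a γ) = G' γ) (hGG : ∀ p : HLs, G' (e p).1 = G p.1) :
    ∑' γ : {γ : Cfg // HL γ ∧ cor γ = 0}, wl γ.1 * G γ.1 = ∑' γ : {γ : Cfg // HL γ ∧ cor γ = 0}, wl γ.1 * G' γ.1 := by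
  classical
  rw [← A6.sum_rt (rt := fun p => cor p.1) (fun z p => cor_trc z p.1 p.2) G hG]
  have hrt : ∀ z q, (fun q : HLs => l (cor (e.symm q).1)) (trE z q) = (fun q : HLs => l (cor (e.symm q).1)) q + z := by
    intro z q
    obtain ⟨p, rfl⟩ := e.surjective q
    have h1 : trE z (e p) = e (trE (l.symm z) p) := by rw [he, l.apply_symm_apply]
    simp only [h1, e.symm_apply_apply]
    show l (cor (trc (l.symm z) p.1)) = _
    rw [cor_trc _ _ p.2, map_add, l.apply_symm_apply]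
  rw [← A6.sum_rt (rt := fun q => l (cor (e.symm q).1)) hrt G' hG',
    ← e.tsum_eq fun q : HLs => if l (cor (e.symm q).1) = 0 then ENNReal.ofReal (wr q) * G' q.1 else 0]
  apply tsum_congr
  intro p
  simp only [e.symm_apply_apply, hw, hGG, EmbeddingLike.map_eq_zero_iff]

theorem ex_hc (γ : Cfg) : exC γ = A6.hc γ 1 - A6.hc γ 0 ∧ exR γ = A6.hc γ 3 - A6.hc γ 2 := ⟨rfl, rfl⟩

theorem big_pr (R : ℝ) (p : HLs) : big R (pr p.1) = big R p.1 := by
  obtain ⟨h0, h1, h2, h3⟩ := A6.hc_pr p.2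
  obtain ⟨a, b⟩ := ex_hc (pr p.1)
  obtain ⟨c, d⟩ := ex_hc p.1
  unfold big
  rw [a, b, c, d, h0, h1, h2, h3]
  congr 3 <;> push_cast <;> ring

theorem big_tr (R : ℝ) (p : HLs) : big R (E.tr p.1) = big R p.1 := by
  obtain ⟨h0, h1, h2, h3⟩ := A6.hc_sw p.1
  obtain ⟨a, b⟩ := ex_hc (E.tr p.1)
  obtain ⟨c, d⟩ := ex_hc p.1
  unfold big
  rw [a, b, c, d, h0, h1, h2, h3]
  exact if_congr or_comm rfl rfl

/-- **the moment `3/2`, all four sides** -/
theorem uiQ (h : MassU) : ∃ C : ℝ, 0 < C ∧ ∀ (s : Fin 4) (R : ℝ), 1 ≤ R →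
    ∑' γ : {γ : Cfg // HL γ ∧ cor γ = 0}, wl γ.1 * Gs R s γ.1 ≤ ENNReal.ofReal (C / R ^ 2) := by
  obtain ⟨C, hC, h1⟩ := uiQ1 h
  have hp : ∀ (R : ℝ) (s s' : Fin 4), (∀ p : HLs, qx bb (pr p.1) s' = qx bb p.1 s) →
      ∑' γ : {γ : Cfg // HL γ ∧ cor γ = 0}, wl γ.1 * Gs R s γ.1 =
        ∑' γ : {γ : Cfg // HL γ ∧ cor γ = 0}, wl γ.1 * Gs R s' γ.1 := by
    intro R s s' hq
    refine sum_sym A6.SymH.ngE (AddEquiv.neg Pt) (fun z p => Subtype.ext (A6.SymH.pr_trc z p.1)) (fun p => ?_) _ _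
      (fun a γ h => Gs_trc R s a γ h) (fun a γ h => Gs_trc R s' a γ h) fun p => ?_
    · show HexObs.xc ^ (hs (pr p.1)).card = HexObs.xc ^ (hs p.1).card
      rw [A6.card_pr p.2]
    · show big R (pr p.1) * ENNReal.ofReal (m3 (qx bb (pr p.1) s')) = _
      rw [big_pr, hq]
      rfl
  have ht : ∀ (R : ℝ) (s s' : Fin 4), (∀ p : HLs, qx bb (E.tr p.1) s' = qx bb p.1 s) →
      ∑' γ : {γ : Cfg // HL γ ∧ cor γ = 0}, wl γ.1 * Gs R s γ.1 =
        ∑' γ : {γ : Cfg // HL γ ∧ cor γ = 0}, wl γ.1 * Gs R s' γ.1 := by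
    intro R s s' hq
    refine sum_sym A6.swE AddEquiv.prodComm (fun z p => Subtype.ext (A6.SymH.tr_trc z p.1)) (fun p => ?_) _ _
      (fun a γ h => Gs_trc R s a γ h) (fun a γ h => Gs_trc R s' a γ h) fun p => ?_
    · show HexObs.xc ^ (hs (E.tr p.1)).card = HexObs.xc ^ (hs p.1).card
      rw [A6.card_tr p.2]
    · show big R (E.tr p.1) * ENNReal.ofReal (m3 (qx bb (E.tr p.1) s')) = _
      rw [big_tr, hq]
      rfl
  have h0 : ∀ R : ℝ, 1 ≤ R → ∑' γ : {γ : Cfg // HL γ ∧ cor γ = 0}, wl γ.1 * Gs R 0 γ.1 ≤ ENNReal.ofReal (C / R ^ 2) :=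
    fun R hR => by
      rw [hp R 0 1 fun p => (qx_pr bb p.2).2.1]
      exact h1 R hR
  refine ⟨C, hC, fun s R hR => ?_⟩
  have hu : s = 0 ∨ s = 1 ∨ s = 2 ∨ s = 3 := by
    revert s
    decide
  rcases hu with rfl | rfl | rfl | rfl
  · exact h0 R hR
  · exact h1 R hR
  · rw [ht R 2 0 fun p => (qx_tr bb p.1).1]
    exact h0 R hR
  · rw [ht R 3 1 fun p => (qx_tr bb p.1).2.1]
    exact h1 R hR

open Classical in
/-- **the moment at any root**: real form -/
theorem uiQ_root (hU : MassU) : ∃ C : ℝ, 0 < C ∧ ∀ (s : Fin 4) (R : ℝ), 1 ≤ R → ∀ rt : HLs → Pt,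
    (∀ z p, rt (trE z p) = rt p + z) → ∀ f : HLs → ℝ, (∀ p, 0 ≤ f p) →
    (∀ p, f p ≤ if rt p = 0 ∧ (R ≤ exC p.1 ∨ R ≤ exR p.1) then wr p * m3 (qx bb p.1 s) else 0) →
    Summable f ∧ ∑' p, f p ≤ C / R ^ 2 := by
  obtain ⟨C, hC, h⟩ := uiQ hU
  refine ⟨C, hC, fun s R hR rt hrt f f0 hf => ?_⟩
  have h1 := h s R hR
  rw [← A6.sum_rt hrt (Gs R s) (fun a γ h => Gs_trc R s a γ h)] at h1
  have h2 : ∑' p, ENNReal.ofReal (f p) ≤ ENNReal.ofReal (C / R ^ 2) := by
    refine le_trans (ENNReal.tsum_le_tsum fun p => ?_) h1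
    refine (ENNReal.ofReal_le_ofReal (hf p)).trans ?_
    by_cases hr : rt p = 0
    · by_cases hb : R ≤ exC p.1 ∨ R ≤ exR p.1
      · rw [if_pos ⟨hr, hb⟩, if_pos hr, ENNReal.ofReal_mul (A6.wr_nn p)]
        have e2 : big R p.1 = 1 := if_pos hb
        unfold Gs
        rw [e2, one_mul]
      · rw [if_neg (fun h => hb h.2), ENNReal.ofReal_zero]
        exact zero_le
    · rw [if_neg (fun h => hr h.1), ENNReal.ofReal_zero]
      exact zero_le
  have h3 : ∑' p, ENNReal.ofReal (f p) ≠ ⊤ := (h2.trans_lt ENNReal.ofReal_lt_top).ne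
  have h4 : Summable f := by
    have := ENNReal.summable_toReal h3
    refine this.congr fun p => ?_
    exact ENNReal.toReal_ofReal (f0 p)
  refine ⟨h4, ?_⟩
  have h5 := ENNReal.ofReal_tsum_of_nonneg f0 h4
  rw [← h5] at h2
  exact (ENNReal.ofReal_le_ofReal_iff (by positivity)).1 h2

end Pool.Agent.ROT.U
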