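import Pool.Agent.ROT.UiQ

/-!
# ROT, UNIV, row UI_q (helper19): the number of cells of an extreme line against the product; finite sums

* **`cells_le`** : the number of cells of the extreme line `s` is at most `C * √ (qx bb γ s)`;
* **`uiS`** : the moment `3/2` over finite sets of loops with the corner `0` and one extent `≥ n`.
-/

set_option autoImplicit false

open Finset

namespace Pool.Agent.ROT.U

open Pool.Agent.UNI (wR)
open Pool.Agent.YBC (Dir)
open Pool.Agent.ROT.E (Cell Cfg Pt Lp oc Sp Mt)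
open Pool.Agent.ROT.E.Hx (HL trc hs Ny wl cor big exC exR cor_trc MassU nE)
open Pool.Agent.ROT.A6 (HLs hexP crd pr wr trE)
open Pool.Agent.ROT.L (hL hR hB hT)
open scoped ENNReal

open Classical in
/-- **the closed form**, last column, with the number of cells -/
theorem qx_card {γ : Cfg} (l : HL γ) : ∃ k m : ℕ,
    qx bb γ 1 = (rc bb .sw * rc bb .nw) ^ k * rc bb .v ^ m ∧ nE γ 1 = 2 * k + m := by
  have hA : rc bb .sw * rc bb .nw ≠ 0 := by
    have := num_b.1
    intro h
    rw [h] at this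
    linarith
  set F := γ.support.filter fun v => crd 1 v = A6.hc γ 1 with hF
  have e1 : qx bb γ 1 = ∏ v ∈ F, (if (γ v).oc .N then rc bb .nw else 1) * (if (γ v).oc .S then rc bb .sw else 1) *
      (if γ v = .v then rc bb .v / (rc bb .sw * rc bb .nw) else 1) := by
    unfold qx
    refine Finset.prod_congr (by rw [hF]) fun v hv => ?_
    exact rc_col hA _ (cell_R l (Finset.mem_filter.1 hv).2)
  rw [Finset.prod_mul_distrib, Finset.prod_mul_distrib, Finset.prod_ite, Finset.prod_ite, Finset.prod_ite] at e1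
  simp only [Finset.prod_const, one_pow, mul_one] at e1
  have hN : (F.filter fun v => (γ v).oc .N).card = (F.filter fun v => (γ v).oc .S).card := card_NS l (A6.hc γ 1)
  have hv : (F.filter fun v => γ v = .v).card ≤ (F.filter fun v => (γ v).oc .N).card := by
    refine Finset.card_le_card fun v hv => ?_
    rw [Finset.mem_filter] at hv ⊢
    refine ⟨hv.1, ?_⟩
    rw [hv.2]
    decide
  have hc : F.card + (F.filter fun v => γ v = .v).card =
      (F.filter fun v => (γ v).oc .N).card + (F.filter fun v => (γ v).oc .S).card := by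
    rw [Finset.card_filter (fun v => γ v = .v) F, Finset.card_filter (fun v => (γ v).oc .N) F,
      Finset.card_filter (fun v => (γ v).oc .S) F, Finset.card_eq_sum_ones F, ← Finset.sum_add_distrib,
      ← Finset.sum_add_distrib]
    refine Finset.sum_congr rfl fun v hv => ?_
    rw [hF, Finset.mem_filter] at hv
    rcases cell_R l hv.2 with h | h | h | h
    · exact absurd h (A6.mem_supp.1 hv.1)
    · rw [h]; decide
    · rw [h]; decide
    · rw [h]; decide
  have hnE : nE γ 1 = F.card := rfl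
  set n := (F.filter fun v => (γ v).oc .N).card with hn
  set m := (F.filter fun v => γ v = .v).card with hm
  rw [← hN] at e1 hc
  refine ⟨n - m, m, ?_, by omega⟩
  rw [e1]
  have h1 : rc bb .sw ≠ 0 := left_ne_zero_of_mul hA
  have h2 : rc bb .nw ≠ 0 := right_ne_zero_of_mul hA
  obtain ⟨k, hk⟩ : ∃ k, n = k + m := ⟨n - m, by omega⟩
  rw [hk, Nat.add_sub_cancel_right, div_pow, pow_add, pow_add, mul_pow, mul_pow]
  field_simp

/-- **the numbers `x(b) ≥ 1.02 ^ 2`, `y(b) ≥ 1.02`** -/
theorem num_b4 : (1.02 : ℝ) ^ 2 ≤ rc bb .sw * rc bb .nw ∧ 1.02 ≤ rc bb .v := by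
  obtain ⟨c1, c2⟩ := numC
  obtain ⟨s1, s2⟩ := numS
  rw [rc_u, rc_v, tt_b]
  set C := Real.cos (Real.pi / 8)
  set S := Real.sin (Real.pi / 8)
  have h1 : 0 < C - S := by linarith
  have h2 : 0 < C := by linarith
  constructor
  · rw [le_div_iff₀ (by positivity), ← mul_div_assoc, div_le_div_iff₀ (by positivity) (by positivity)]
    have a : (C + 1) ^ 2 ≤ 1.9239 ^ 2 := pow_le_pow_left₀ (by linarith) (by linarith) 2
    have b : 1.8476 ^ 2 ≤ (2 * C) ^ 2 := pow_le_pow_left₀ (by norm_num) (by linarith) 2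
    have a' : (C - S) * (C + 1) ^ 2 ≤ 0.5413 * 1.9239 ^ 2 := mul_le_mul (by linarith) a (by positivity) (by norm_num)
    have b' : 0.6173 * 1.8476 ^ 2 ≤ (1 - S) * (2 * C) ^ 2 := mul_le_mul (by linarith) b (by positivity) (by linarith)
    rw [mul_assoc]
    refine (mul_le_mul_of_nonneg_left a' (by norm_num)).trans (le_trans ?_ b')
    norm_num
  · rw [le_div_iff₀ (by positivity), ← mul_div_assoc, div_le_div_iff₀ (by positivity) (by positivity)]
    have a' : (C - S) * (C + 1) ≤ 0.5413 * 1.9239 := mul_le_mul (by linarith) (by linarith) (by linarith) (by norm_num)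
    have b' : 0.6173 * 1.8476 ≤ (1 - S) * (2 * C) := mul_le_mul (by linarith) (by linarith) (by norm_num) (by linarith)
    rw [mul_assoc]
    refine (mul_le_mul_of_nonneg_left a' (by norm_num)).trans (le_trans ?_ b')
    norm_num

/-- **the number of cells of the last column** -/
theorem cells_1 {γ : Cfg} (l : HL γ) : (nE γ 1 : ℝ) ≤ 112 * √(qx bb γ 1) := by
  obtain ⟨k, m, e, hn⟩ := qx_card l
  obtain ⟨h1, h2⟩ := num_b4
  have h3 : (1.02 : ℝ) ^ (nE γ 1) ≤ qx bb γ 1 := by
    rw [e, hn, pow_add, pow_mul]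
    exact mul_le_mul (pow_le_pow_left₀ (by norm_num) h1 k) (pow_le_pow_left₀ (by norm_num) h2 m) (by positivity)
      (by
        have : (0 : ℝ) ≤ rc bb .sw * rc bb .nw := le_trans (by norm_num) h1
        positivity)
  have h5 : (1 : ℝ) + nE γ 1 * 0.009 ≤ 1.009 ^ (nE γ 1) := by
    have := one_add_mul_le_pow (a := (0.009 : ℝ)) (by norm_num) (nE γ 1)
    rwa [show (1 : ℝ) + 0.009 = 1.009 by norm_num] at this
  have h6 : ((1.009 : ℝ) ^ (nE γ 1)) ^ 2 ≤ qx bb γ 1 := by
    refine le_trans ?_ h3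
    rw [← pow_mul, mul_comm, pow_mul]
    exact pow_le_pow_left₀ (by norm_num) (by norm_num) _
  have h7 : (1.009 : ℝ) ^ (nE γ 1) ≤ √(qx bb γ 1) := Real.le_sqrt_of_sq_le h6
  have h8 : (0 : ℝ) ≤ nE γ 1 := Nat.cast_nonneg _
  linarith

theorem nE_ng {γ : Cfg} (l : HL γ) : nE (pr γ) 1 = nE γ 0 := by
  classical
  obtain ⟨-, h1, -, -⟩ := A6.hc_pr l
  have h1' : hR (pr γ).support = -hL γ.support := h1
  show ((pr γ).support.filter fun v => v.1 = hR (pr γ).support).card = (γ.support.filter fun v => v.1 = hL γ.support).card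
  rw [h1']
  refine Finset.card_nbij' (fun v => -v) (fun v => -v) ?_ ?_ (fun v _ => neg_neg v) fun v _ => neg_neg v
  · intro v hv
    rw [Finset.mem_coe, Finset.mem_filter] at hv ⊢
    refine ⟨A6.supp_pr.1 hv.1, ?_⟩
    show -v.1 = _
    rw [hv.2, neg_neg]
  · intro v hv
    rw [Finset.mem_coe, Finset.mem_filter] at hv ⊢
    refine ⟨A6.supp_pr.2 (by rw [neg_neg]; exact hv.1), ?_⟩
    show -v.1 = _
    rw [hv.2]

/-- **the number of cells of an extreme line** -/
theorem cells_le {γ : Cfg} (l : HL γ) (s : Fin 4) : (nE γ s : ℝ) ≤ 112 * √(qx bb γ s) := by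
  have h0 : ∀ {γ : Cfg}, HL γ → (nE γ 0 : ℝ) ≤ 112 * √(qx bb γ 0) := fun {γ} l => by
    rw [← nE_ng l, ← (qx_pr bb l).2.1]
    exact cells_1 (A6.hl_pr l)
  have hu : s = 0 ∨ s = 1 ∨ s = 2 ∨ s = 3 := by
    revert s
    decide
  rcases hu with rfl | rfl | rfl | rfl
  · exact h0 l
  · exact cells_1 l
  · rw [← (A6.nE_tr γ).1, ← (qx_tr bb γ).1]
    exact h0 (A6.hl_tr l)
  · rw [← (A6.nE_tr γ).2, ← (qx_tr bb γ).2.1]
    exact cells_1 (A6.hl_tr l)

/-- `q_b` times the number of cells -/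
theorem q_cells {γ : Cfg} (l : HL γ) (s : Fin 4) : qx bb γ s * nE γ s ≤ 112 * m3 (qx bb γ s) := by
  have h := cells_le l s
  have h1 := one_le_qb l s
  unfold m3
  calc qx bb γ s * nE γ s ≤ qx bb γ s * (112 * √(qx bb γ s)) := mul_le_mul_of_nonneg_left h (by linarith)
    _ = _ := by ring

/-- **finite sums**: loops with the corner `0` and one extent `≥ n` -/
theorem uiS (hU : MassU) : ∃ C : ℝ, 0 < C ∧ ∀ (s : Fin 4) (n : ℤ), 1 ≤ n → ∀ S : Finset HLs,
    (∀ p ∈ S, A6.hc p.1 0 = 0 ∧ A6.hc p.1 2 = 0 ∧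
      (n ≤ A6.hc p.1 1 - A6.hc p.1 0 ∨ n ≤ A6.hc p.1 3 - A6.hc p.1 2)) →
    ∑ p ∈ S, wr p * m3 (qx bb p.1 s) ≤ C / (n : ℝ) ^ 2 := by
  classical
  obtain ⟨C, hC, h⟩ := uiQ_root hU
  refine ⟨C, hC, fun s n hn S hS => ?_⟩
  have hn' : (1 : ℝ) ≤ n := by exact_mod_cast hn
  obtain ⟨h1, h2⟩ := h s n hn' (fun p => cor p.1) (fun z p => cor_trc z p.1 p.2)
    (fun p => if p ∈ S then wr p * m3 (qx bb p.1 s) else 0) (by
      intro p
      have h0 := one_le_qb p.2 s
      split_ifs
      · exact mul_nonneg (A6.wr_nn p) (m3_nn (by linarith))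
      · exact le_rfl) (by
      intro p
      have h0 := one_le_qb p.2 s
      by_cases hp : p ∈ S
      · obtain ⟨a, b, c⟩ := hS p hp
        have hc : cor p.1 = 0 := Prod.ext a b
        have hb : (n : ℝ) ≤ exC p.1 ∨ (n : ℝ) ≤ exR p.1 := by
          rcases c with c | c
          · left
            exact_mod_cast c
          · right
            exact_mod_cast c
        rw [if_pos hp, if_pos ⟨hc, hb⟩]
      · rw [if_neg hp]
        split_ifs
        · exact mul_nonneg (A6.wr_nn p) (m3_nn (by linarith))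
        · exact le_rfl)
  refine le_trans (le_of_eq ?_) h2
  rw [tsum_eq_sum (s := S)]
  · exact Finset.sum_congr rfl fun p hp => (if_pos hp).symm
  · intro p hp
    exact if_neg hp

end Pool.Agent.ROT.U
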