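import Pool.Agent.ROT.F3StbV
import Pool.Agent.ROT.F3MacU

/-!
# ROT, block F3, row W4 (helper36): the gates of the strands of a polygon, 1: the same middle letters, other ends

* `Tw w F S a a' l s s'` : the letters `a, ..., a + l - 1` of `s` are the letters `a', ..., a' + l - 1` of `s'`, the initial tips are
  confined to balls of radius `w S`, the rest behind the middle pieces is outside of the ball of radius `F S`;
* `Tw.sc` : the start cuts of the middle piece with a level at least `4 w S` are the same;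
* `Cpl w S X a b t` : completion of a strand `X` : a word `t` with `X` in its middle and two short ends (in balls of radius `w S`);
* **`cpl_stb`** : stability of the start cuts up to a translation (`StbV`) for the completions gives stability for the strands;
* `FarS κ c S s` : the last steps are far away from `0`, in the unit `S`; `zc_pos_of`, `cpl_zc` : positive factor of the completion.
-/

set_option autoImplicit false

open Set Filter Topology MeasureTheory

namespace Pool.Agent.ROT.W4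

open Pool.Agent.NTS.Res
open Pool.Agent.SCF.M
open Pool.Agent.SCF.Z
open Pool.Agent.CRT (CI)

/-- **the same middle letters, other tips**, unit `S` -/
structure Tw (w F S : ℝ) (a a' l : ℕ) {n n' : ℕ} (s : Fin n → Fin 3) (s' : Fin n' → Fin 3) : Prop where
  par : Even a ↔ Even a'
  hl : a + l ≤ n
  hl' : a' + l ≤ n'
  eq : ∀ i : ℕ, i ≤ l → pos s (a + i) - pos s a = pos s' (a' + i) - pos s' a'
  t0 : ∀ i : ℕ, i ≤ a → ‖pos s i - pos s a‖ ≤ w * S
  t0' : ∀ i : ℕ, i ≤ a' → ‖pos s' i - pos s' a'‖ ≤ w * S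
  far : ∀ i : ℕ, a + l ≤ i → i ≤ n → F * S ≤ ‖pos s i‖
  far' : ∀ i : ℕ, a' + l ≤ i → i ≤ n' → F * S ≤ ‖pos s' i‖

section

variable {w F S : ℝ} {a a' l n n' : ℕ} {s : Fin n → Fin 3} {s' : Fin n' → Fin 3}

lemma Tw.symm (h : Tw w F S a a' l s s') : Tw w F S a' a l s' s :=
  ⟨h.par.symm, h.hl', h.hl, fun i hi => (h.eq i hi).symm, h.t0', h.t0, h.far', h.far⟩

lemma Tw.na (h : Tw w F S a a' l s s') : ‖pos s a‖ ≤ w * S := by
  have h1 := h.t0 0 (Nat.zero_le _)
  rwa [NTSF.pos_zero, zero_sub, norm_neg] at h1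

lemma Tw.na' (h : Tw w F S a a' l s s') : ‖pos s' a'‖ ≤ w * S := h.symm.na

/-- the initial tip is in a small ball -/
lemma Tw.tip (h : Tw w F S a a' l s s') {i : ℕ} (hi : i ≤ a) : ‖pos s i‖ ≤ 2 * w * S := by
  have h1 := h.t0 i hi
  have h2 := h.na
  calc ‖pos s i‖ = ‖(pos s i - pos s a) + pos s a‖ := by ring_nf
    _ ≤ ‖pos s i - pos s a‖ + ‖pos s a‖ := norm_add_le _ _
    _ ≤ 2 * w * S := by linarith

lemma Tw.tip' (h : Tw w F S a a' l s s') {i : ℕ} (hi : i ≤ a') : ‖pos s' i‖ ≤ 2 * w * S := h.symm.tip hi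

/-- the translation of the middle pieces -/
lemma Tw.tra (h : Tw w F S a a' l s s') {i : ℕ} (hi : i ≤ l) : pos s (a + i) = pos s' (a' + i) + (pos s a - pos s' a') := by
  have := h.eq i hi
  linear_combination this

lemma Tw.v (h : Tw w F S a a' l s s') : ‖pos s a - pos s' a'‖ ≤ 2 * w * S := by
  have := norm_sub_le (pos s a) (pos s' a')
  linarith [h.na, h.na']

lemma Tw.vre (h : Tw w F S a a' l s s') : |(pos s a - pos s' a').re| ≤ 2 * w * S := (Complex.abs_re_le_norm _).trans h.v

/-- a high vertex in a ball is in the middle piece -/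
lemma Tw.mid (h : Tw w F S a a' l s s') (hS : 0 < S) {i : ℕ} (hin : i ≤ n) {x : ℝ} (hx : 2 * w < x) (h1 : x * S ≤ (pos s i).re)
    {y : ℝ} (hy : y < F) (h2 : ‖pos s i‖ ≤ y * S) : ∃ j : ℕ, 0 < j ∧ j < l ∧ i = a + j := by
  have h3 : a < i := by
    by_contra hc
    have h4 := h.tip (not_lt.1 hc)
    have h5 := Complex.re_le_norm (pos s i)
    have h6 := mul_lt_mul_of_pos_right hx hS
    linarith
  have h4 : i < a + l := by
    by_contra hc
    have h5 := h.far i (not_lt.1 hc) hin
    have h6 := mul_lt_mul_of_pos_right hy hS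
    linarith
  exact ⟨i - a, by omega, by omega, by omega⟩

/-- **the start cuts of the middle piece** -/
lemma Tw.sc (h : Tw w F S a a' l s s') (hS : 0 < S) {ρ x Q : ℝ} (hw : 0 ≤ w) (hx : 4 * w ≤ x) {j : ℕ} (hj : j < l)
    (hc : SC (ρ * S) s (a + j)) (hlev : x * S ≤ (pos s (a + j)).re) (hQ : ‖pos s (a + j)‖ ≤ Q * S)
    (hF : Q + 2 * w + ρ < F) : SC (ρ * S) s' (a' + j) := by
  obtain ⟨c1, c2, c3, c4, c5⟩ := hc
  have tj := h.tra hj.le
  have hv := abs_le.1 h.vre
  have hvn := h.v
  have hwS : 0 ≤ w * S := mul_nonneg hw hS.le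
  have hxS : 4 * w * S ≤ x * S := mul_le_mul_of_nonneg_right hx hS.le
  have ej : (pos s' (a' + j)).re = (pos s (a + j)).re - (pos s a - pos s' a').re := by
    rw [tj, Complex.add_re]
    ring
  refine ⟨?_, fun i hi => ?_, by have := h.hl'; omega, ?_, fun i hi hin hd => ?_⟩
  · have := h.par
    rw [Nat.even_add] at c1 ⊢
    tauto
  · rcases le_or_gt i a' with h1 | h1
    · have h2 := (Complex.re_le_norm (pos s' i)).trans (h.tip' h1)
      rw [ej]
      linarith [hv.2]
    · obtain ⟨k, rfl⟩ := Nat.exists_eq_add_of_le h1.le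
      have h2 := c2 (a + k) (by omega)
      have h3 := congrArg Complex.re (h.tra (i := k) (by omega))
      rw [Complex.add_re] at h3
      rw [ej]
      linarith
  · have h1 := h.tra (i := j + 1) (by omega)
    have h2 : pos s (a + j + 1) = pos s (a + j) + 1 := c4
    rw [show a + j + 1 = a + (j + 1) by ring, h1, tj] at h2
    rw [show a' + j + 1 = a' + (j + 1) by ring]
    linear_combination h2
  · rcases le_or_gt (a' + l) i with h1 | h1
    · exfalso
      have h2 := h.far' i h1 hin
      have h3 : ‖pos s' (a' + j)‖ ≤ Q * S + 2 * w * S := by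
        have e : pos s' (a' + j) = pos s (a + j) - (pos s a - pos s' a') := by rw [tj]; ring
        rw [e]
        exact (norm_sub_le _ _).trans (add_le_add hQ hvn)
      have h4 : ‖pos s' i‖ ≤ ‖pos s' i - pos s' (a' + j)‖ + ‖pos s' (a' + j)‖ := by
        calc ‖pos s' i‖ = ‖(pos s' i - pos s' (a' + j)) + pos s' (a' + j)‖ := by ring_nf
          _ ≤ _ := norm_add_le _ _
      have h5 := mul_lt_mul_of_pos_right hF hS
      have e : (Q + 2 * w + ρ) * S = Q * S + 2 * w * S + ρ * S := by ring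
      linarith
    · obtain ⟨k, rfl⟩ := Nat.exists_eq_add_of_le (show a' ≤ i by omega)
      have hk := h.tra (i := k) (by omega)
      have h2 := c5 (a + k) (by omega) (by have := h.hl; omega) (by
        rw [hk, tj]
        have e : pos s' (a' + k) + (pos s a - pos s' a') - (pos s' (a' + j) + (pos s a - pos s' a')) =
          pos s' (a' + k) - pos s' (a' + j) := by ring
        rwa [e])
      have h3 := congrArg Complex.re hk
      rw [Complex.add_re] at h3
      rw [ej]
      linarith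

end

/-- the last steps are far away from `0`, unit `S` -/
def FarS (κ c S : ℝ) {n : ℕ} (s : Fin n → Fin 3) : Prop := ∀ i : ℕ, i ≤ n → (1 - κ) * n ≤ i → c * S ≤ ‖pos s i‖

/-- a completion of the strand `X` : the word `t` has `X` in its middle, the two ends are in balls of radius `w S` -/
structure Cpl (w S : ℝ) {j : ℕ} (X : Fin j → Fin 3) (a b : ℕ) (t : Fin (a + j + b) → Fin 3) : Prop where
  ev : Even a
  eq : ∀ k : ℕ, k ≤ j → pos t (a + k) - pos t a = pos X k
  t0 : ∀ k : ℕ, k ≤ a → ‖pos t k - pos t a‖ ≤ w * S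
  t1 : ∀ k : ℕ, a + j ≤ k → k ≤ a + j + b → ‖pos t k - pos t (a + j)‖ ≤ w * S

section

variable {w F S : ℝ} {j a b : ℕ} {X : Fin j → Fin 3} {t : Fin (a + j + b) → Fin 3}

lemma Cpl.mono {w' S' : ℝ} (h : Cpl w S X a b t) (h1 : w * S ≤ w' * S') : Cpl w' S' X a b t :=
  ⟨h.ev, h.eq, fun k hk => (h.t0 k hk).trans h1, fun k hk hk' => (h.t1 k hk hk').trans h1⟩

lemma Cpl.na (h : Cpl w S X a b t) : ‖pos t a‖ ≤ w * S := by
  have h1 := h.t0 0 (Nat.zero_le _)
  rwa [NTSF.pos_zero, zero_sub, norm_neg] at h1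

lemma Cpl.tip (h : Cpl w S X a b t) {i : ℕ} (hi : i ≤ a) : ‖pos t i‖ ≤ 2 * (w * S) := by
  have h1 := h.t0 i hi
  have h2 := h.na
  calc ‖pos t i‖ = ‖(pos t i - pos t a) + pos t a‖ := by ring_nf
    _ ≤ ‖pos t i - pos t a‖ + ‖pos t a‖ := norm_add_le _ _
    _ ≤ 2 * (w * S) := by linarith

lemma Cpl.at (h : Cpl w S X a b t) {k : ℕ} (hk : k ≤ j) : pos t (a + k) = pos X k + pos t a := by
  have := h.eq k hk
  linear_combination this

/-- the positions behind the strand -/
lemma Cpl.endp (h : Cpl w S X a b t) {i : ℕ} (h1 : a + j ≤ i) (h2 : i ≤ a + j + b) : ‖pos X j‖ - 2 * (w * S) ≤ ‖pos t i‖ := by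
  have h3 := h.t1 i h1 h2
  have h4 := h.at (k := j) le_rfl
  have h5 : pos X j = pos t i - (pos t i - pos t (a + j)) - pos t a := by
    rw [h4]
    ring
  have h6 : ‖pos X j‖ ≤ ‖pos t i‖ + ‖pos t i - pos t (a + j)‖ + ‖pos t a‖ := by
    conv_lhs => rw [h5]
    exact (norm_sub_le _ _).trans (add_le_add (norm_sub_le _ _) le_rfl)
  linarith [h.na]

/-- the completion and the strand have the same middle letters -/
lemma Cpl.tw (h : Cpl w S X a b t) (hw : 0 ≤ w * S) (hF : F * S + 2 * (w * S) ≤ ‖pos X j‖) : Tw w F S a 0 j t X where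
  par := by simp [h.ev]
  hl := Nat.le_add_right _ _
  hl' := by omega
  eq i hi := by
    rw [h.eq i hi, zero_add, NTSF.pos_zero, sub_zero]
  t0 := h.t0
  t0' i hi := by
    have : i = 0 := by omega
    rw [this, sub_self, norm_zero]
    exact hw
  far i h1 h2 := by
    have := h.endp h1 h2
    linarith
  far' i h1 h2 := by
    have : i = j := by omega
    rw [this]
    linarith

end

/-- **from the completions to the strands** -/
theorem cpl_stb {S R w θ0 θ1 lam N : ℝ} (hS : 0 < S) (hR : 0 < R) (hw : 0 ≤ w) (hwR : 100 * w ≤ R) (hlam : 0 < lam)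
    (hθ0 : 0 ≤ θ1) (hθ : θ1 * lam ≤ θ0) (hθR : 100 * θ0 ≤ R) {j j' a a' b b' : ℕ} {X : Fin j → Fin 3} {X' : Fin j' → Fin 3}
    {t : Fin (a + j + b) → Fin 3} {t' : Fin (a' + j' + b') → Fin 3} (hc : Cpl w S X a b t) (hc' : Cpl w S X' a' b' t')
    (hf : 1010 * R * S ≤ ‖pos X j‖) (hf' : 1010 * R * S ≤ ‖pos X' j'‖)
    (hV : StbV (R / lam) θ1 (lam * S) N (pos t a - pos t' a') a a' t t') (ρ : ℝ) (c : ℕ) (hρ : 40 * R ≤ ρ) (hρ' : ρ ≤ 130 * R)
    (h3 : SC (ρ * S) X c) (h4 : ∀ i : ℕ, i ≤ c → ‖pos X i‖ ≤ 4 * R * S) (h5 : R / 8 * S ≤ (pos X c).re) :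
    ∃ c' : ℕ, SC ((ρ - θ0) * S) X' c' ∧ |(c : ℝ) - c'| ≤ θ1 * N ∧ ‖pos X c - pos X' c'‖ ≤ θ0 * S := by
  have hwS : 0 ≤ w * S := mul_nonneg hw hS.le
  have hRS : 0 < R * S := mul_pos hR hS
  have hwR' : 100 * (w * S) ≤ R * S := by
    have := mul_le_mul_of_nonneg_right hwR hS.le
    linarith
  have hθRS : 100 * (θ0 * S) ≤ R * S := by
    have := mul_le_mul_of_nonneg_right hθR hS.le
    linarith
  have hθ00 : 0 ≤ θ0 := (mul_nonneg hθ0 hlam.le).trans hθ
  have T := (hc.tw (F := 1009 * R) hwS (by linarith)).symm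
  have T' := hc'.tw (F := 1009 * R) hwS (by linarith)
  have hcj : c < j := h3.lt
  have na := hc.na
  have na' := hc'.na
  have lam0 : lam ≠ 0 := hlam.ne'
  have e1 : R / lam * (lam * S) = R * S := by field_simp
  have k1 : SC (ρ * S) t (a + c) := by
    refine T.sc hS hw (x := R / 8) (by linarith) (j := c) hcj ?_ ?_ (Q := 4 * R) ?_ (by linarith)
    · rwa [zero_add]
    · rwa [zero_add]
    · rw [zero_add]
      exact h4 c le_rfl
  have ec : pos t (a + c) = pos X c + pos t a := hc.at hcj.le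
  have ecr := congrArg Complex.re ec
  rw [Complex.add_re] at ecr
  have tipre : ∀ i : ℕ, i ≤ a → (pos t i).re ≤ (pos t a).re + w * S := fun i hi => by
    have h6 := (Complex.re_le_norm (pos t i - pos t a)).trans (hc.t0 i hi)
    rw [Complex.sub_re] at h6
    linarith
  have tipre' : ∀ i : ℕ, i ≤ a' → (pos t' i).re ≤ (pos t' a').re + w * S := fun i hi => by
    have h6 := (Complex.re_le_norm (pos t' i - pos t' a')).trans (hc'.t0 i hi)
    rw [Complex.sub_re] at h6
    linarith
  have e2 : R / lam / 16 * (lam * S) = R * S / 16 := by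
    rw [← e1]
    ring
  obtain ⟨c1, g0, g1, g2, g3⟩ := hV (ρ / lam) (a + c) (by
      rw [← mul_div_assoc]
      exact div_le_div_of_nonneg_right hρ hlam.le) (by
      rw [← mul_div_assoc]
      exact div_le_div_of_nonneg_right hρ' hlam.le) (by
      have e : ρ / lam * (lam * S) = ρ * S := by field_simp
      rwa [e]) (by
      intro i hi
      have e : 5 * (R / lam) * (lam * S) = 5 * (R * S) := by rw [mul_assoc, e1]
      rw [e]
      rcases le_or_gt i a with h6 | h6
      · exact (hc.tip h6).trans (by linarith)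
      · obtain ⟨k, rfl⟩ := Nat.exists_eq_add_of_le h6.le
        rw [hc.at (k := k) (by omega)]
        refine (norm_add_le _ _).trans ?_
        have := h4 k (by omega)
        linarith) (Or.inr ⟨fun i hi => by
        rw [e2]
        have := tipre i hi
        linarith, fun i hi => by
        rw [e2, Complex.sub_re]
        have := tipre' i hi
        linarith⟩)
  have hθS : θ1 * (lam * S) ≤ θ0 * S := by
    rw [← mul_assoc]
    exact mul_le_mul_of_nonneg_right hθ hS.le
  have g3' : ‖pos X c - (pos t' c1 - pos t' a')‖ ≤ θ0 * S := by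
    refine le_trans (le_of_eq ?_) (g3.trans hθS)
    rw [ec]
    congr 1
    ring
  have g4 : |(pos X c).re - ((pos t' c1).re - (pos t' a').re)| ≤ θ0 * S := by
    rw [← Complex.sub_re, ← Complex.sub_re]
    exact (Complex.abs_re_le_norm _).trans g3'
  have g4' := abs_le.1 g4
  have na're := (abs_le.1 ((Complex.abs_re_le_norm (pos t' a')).trans na')).1
  have g5 : ‖pos t' c1‖ ≤ 5 * R * S := by
    have h6 := h4 c le_rfl
    have e : pos t' c1 = pos X c - (pos X c - (pos t' c1 - pos t' a')) + pos t' a' := by ring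
    have h7 : ‖pos t' c1‖ ≤ ‖pos X c‖ + ‖pos X c - (pos t' c1 - pos t' a')‖ + ‖pos t' a'‖ := by
      conv_lhs => rw [e]
      exact (norm_add_le _ _).trans (add_le_add (norm_sub_le _ _) le_rfl)
    linarith
  have g6 : R / 10 * S ≤ (pos t' c1).re := by linarith
  obtain ⟨k, k0, k2, rfl⟩ := T'.mid hS (i := c1) g1.lt.le (x := R / 10) (by linarith) g6 (y := 5 * R) (by linarith) g5
  have ek : pos t' (a' + k) - pos t' a' = pos X' k := hc'.eq k k2.le
  rw [ek] at g3'
  have k3 : SC ((ρ - θ0) * S) t' (a' + k) := by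
    refine g1.mono ?_
    have e : (ρ / lam - θ1) * (lam * S) = (ρ - θ1 * lam) * S := by field_simp
    rw [e]
    exact mul_le_mul_of_nonneg_right (by linarith) hS.le
  have k4 := T'.sc hS hw (x := R / 10) (by linarith) k2 k3 g6 (Q := 5 * R) g5 (by linarith)
  rw [zero_add] at k4
  refine ⟨k, k4, ?_, g3'⟩
  refine le_trans (le_of_eq ?_) g2
  congr 1
  push_cast
  ring

/-- a positive factor from the positions -/
lemma zc_pos_of {κ c : ℝ} (hκ : 0 ≤ κ) (hc : 0 < c) {n : ℕ} (hn : 1 ≤ n) {s : Fin n → Fin 3}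
    (h : ∀ i : ℕ, i ≤ n → (1 - κ) * n - 1 ≤ i → c * size n + 2 ≤ ‖pos s i‖) : 0 < zc κ c (curve s) := by
  have hs := NTSF.size_pos hn
  have hn0 : (0 : ℝ) < n := by exact_mod_cast hn
  have key : c + 1 / size n ≤ SCF.fd κ (curve s) := by
    refine le_csInf ⟨_, ⟨1, by show 1 - κ ≤ (1 : ℝ); linarith, rfl⟩⟩ ?_
    rintro _ ⟨u, hu, rfl⟩
    change 1 - κ ≤ (u : ℝ) at hu
    show c + 1 / size n ≤ ‖curve s u‖
    obtain ⟨i, hi, h1, h2⟩ := curve_flr hn s u
    have h3 := (abs_le.1 h1).2
    have h4 := h i hi (by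
      have h5 : (u : ℝ) * n ≤ i + 1 := by
        have h6 : (u : ℝ) ≤ ((i : ℝ) + 1) / n := by
          rw [add_div]
          linarith
        rwa [le_div_iff₀ hn0] at h6
      have h7 : (1 - κ) * n ≤ u * n := mul_le_mul_of_nonneg_right hu hn0.le
      linarith)
    have h5 : c + 2 / size n ≤ ‖pos s i / (size n : ℂ)‖ := by
      rw [norm_div, Complex.norm_of_nonneg hs.le, le_div_iff₀ hs, add_mul, div_mul_cancel₀ _ hs.ne']
      exact h4
    have h6 : ‖pos s i / (size n : ℂ)‖ ≤ ‖curve s u‖ + ‖curve s u - pos s i / (size n : ℂ)‖ := by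
      have e : pos s i / (size n : ℂ) = curve s u - (curve s u - pos s i / (size n : ℂ)) := by ring
      conv_lhs => rw [e]
      exact norm_sub_le _ _
    have e : 2 / size n = 1 / size n + 1 / size n := by ring
    linarith
  rw [SCF.zc_eq]
  have h1 : 0 < SCF.fd κ (curve s) / c - 1 := by
    have h2 : 0 < 1 / size n := by positivity
    have h3 : 1 < SCF.fd κ (curve s) / c := by
      rw [lt_div_iff₀ hc]
      linarith
    linarith
  unfold Pool.Agent.SCF.Z.tr
  exact lt_max_of_lt_right (lt_min one_pos h1)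

/-- **the factor of the completion is positive** -/
lemma cpl_zc {S R w lam κ : ℝ} (hS : 0 < S) (hR : 0 < R) (hwR : 100 * w ≤ R) (hlam : 0 < lam) (hκ : 0 < κ)
    {j a b : ℕ} (hj : 1 ≤ j) {X : Fin j → Fin 3} {t : Fin (a + j + b) → Fin 3} (hc : Cpl w S X a b t)
    (hf : FarS κ (1010 * R) S X) (hab : (1 - κ / 2) * ((a + j + b : ℕ) : ℝ) - 1 ≥ a + (1 - κ) * j)
    (hsz : size (a + j + b) ≤ 1009 / 1000 * (lam * S)) (h2 : 2 ≤ R / 2 * S) :
    0 < zc (κ / 2) (1000 * (R / lam)) (curve t) := by
  have hRS : 0 < R * S := mul_pos hR hS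
  have hwR' : 100 * (w * S) ≤ R * S := by
    have := mul_le_mul_of_nonneg_right hwR hS.le
    linarith
  have k1 : 1000 * (R / lam) * size (a + j + b) ≤ 1009 * (R * S) := by
    have h3 : 0 ≤ 1000 * (R / lam) := by positivity
    calc 1000 * (R / lam) * size (a + j + b) ≤ 1000 * (R / lam) * (1009 / 1000 * (lam * S)) := mul_le_mul_of_nonneg_left hsz h3
      _ = 1009 * (R * S) := by field_simp
  refine zc_pos_of (by positivity) (by positivity) (by omega) fun i hi h1 => ?_
  have h3 : (a : ℝ) + (1 - κ) * j ≤ i := by linarith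
  have hj0 : (0 : ℝ) < j := by exact_mod_cast hj
  have key : 1010 * (R * S) - 2 * (w * S) ≤ ‖pos t i‖ := by
    rcases le_or_gt i (a + j) with h4 | h4
    · have hκ1 : a ≤ i ∨ i < a := le_or_gt a i
      rcases hκ1 with h5 | h5
      · obtain ⟨k, rfl⟩ := Nat.exists_eq_add_of_le h5
        have hk : (1 - κ) * j ≤ k := by
          push_cast at h3
          linarith
        have h6 := hf k (by omega) hk
        rw [hc.at (k := k) (by omega)]
        have h7 : ‖pos X k‖ ≤ ‖pos X k + pos t a‖ + ‖pos t a‖ := by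
          have e : pos X k = (pos X k + pos t a) - pos t a := by ring
          conv_lhs => rw [e]
          exact norm_sub_le _ _
        have h8 := hc.na
        have h9 : 0 ≤ w * S := (norm_nonneg _).trans h8
        linarith
      · exfalso
        -- the first steps: impossible
        have h6 : (i : ℝ) < a := by exact_mod_cast h5
        have h7 : (1 - κ) * (j : ℝ) < 0 := by linarith
        have h8 := hf 0 (Nat.zero_le _) (by rw [Nat.cast_zero]; exact h7.le)
        rw [NTSF.pos_zero, norm_zero] at h8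
        linarith
    · have h5 := hc.endp h4.le hi
      have h6 := hf j le_rfl (by
        have : 0 ≤ κ * j := by positivity
        linarith)
      linarith
  have h9 : 2 * (w * S) ≤ R * S / 50 := by linarith
  linarith

end Pool.Agent.ROT.W4
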