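import Pool.Agent.MC.Slow

/-!
# ROT, row W4 (helper14): transport of a functional of the strands from the free words, abstract form

`av W S M` = the mean over `u, v < W` of the indicator of `M without its first u and its last v letters is in S u v`.

* **`strand_abs`**: if the laws of the middle words of the strands `X ω` are dominated by the laws of the middle words of free words
  (tested against every `S`, `hAC`), if `f` hardly depends on the two confined ends (`hT`), and if `f` is small and the ends are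
  confined for the free words (`hW`), then `f` is small for the strands.
-/

set_option autoImplicit false

namespace Pool.Agent.ROT.W4

open Finset

open HexObs hiding pos

open HexObs.TS HexObs.TIW HexObs.SDN HexObs.MCP

open scoped Classical

/-- the mean over the letters cut at the two ends -/
noncomputable def av (W : ℕ) (S : ℕ → ℕ → Set (List Bool)) (M : List Bool) : ℝ :=
  ((W : ℝ) ^ 2)⁻¹ * ∑ u ∈ range W, ∑ v ∈ range W, if (M.drop u).take (M.length - u - v) ∈ S u v then (1 : ℝ) else 0

lemma av_nonneg (W : ℕ) (S : ℕ → ℕ → Set (List Bool)) (M : List Bool) : 0 ≤ av W S M := by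
  unfold av
  refine mul_nonneg (by positivity) (sum_nonneg fun u _ => sum_nonneg fun v _ => ?_)
  split_ifs <;> norm_num

lemma av_one {W : ℕ} (hW : 0 < W) {S : ℕ → ℕ → Set (List Bool)} {M : List Bool}
    (h : ∀ u v, u < W → v < W → (M.drop u).take (M.length - u - v) ∈ S u v) : av W S M = 1 := by
  unfold av
  have e : ∀ u ∈ range W, (∑ v ∈ range W, if (M.drop u).take (M.length - u - v) ∈ S u v then (1 : ℝ) else 0) = W := by
    intro u hu
    have e2 : ∀ v ∈ range W, (if (M.drop u).take (M.length - u - v) ∈ S u v then (1 : ℝ) else 0) = 1 := fun v hv =>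
      if_pos (h u v (mem_range.1 hu) (mem_range.1 hv))
    rw [sum_congr rfl e2, sum_const, card_range, nsmul_eq_mul, mul_one]
  rw [sum_congr rfl e, sum_const, card_range, nsmul_eq_mul]
  have : (W : ℝ) ≠ 0 := by exact_mod_cast hW.ne'
  field_simp

lemma av_le {W : ℕ} {S : ℕ → ℕ → Set (List Bool)} {M : List Bool} {c : ℝ} (hc : 0 ≤ c)
    (h : ∀ u v, u < W → v < W → (M.drop u).take (M.length - u - v) ∈ S u v → 1 ≤ c) : av W S M ≤ c := by
  unfold av
  have e : (∑ u ∈ range W, ∑ v ∈ range W, if (M.drop u).take (M.length - u - v) ∈ S u v then (1 : ℝ) else 0) ≤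
      ∑ _u ∈ range W, ∑ _v ∈ range W, c := by
    refine sum_le_sum fun u hu => sum_le_sum fun v hv => ?_
    split_ifs with h1
    · exact h u v (mem_range.1 hu) (mem_range.1 hv) h1
    · exact hc
  have e2 : (∑ _u ∈ range W, ∑ _v ∈ range W, c) = (W : ℝ) ^ 2 * c := by
    rw [sum_const, sum_const, card_range, nsmul_eq_mul, nsmul_eq_mul]
    ring
  rw [e2] at e
  rcases Nat.eq_zero_or_pos W with h0 | h0
  · rw [h0]
    simp [hc]
  · have hp : (0 : ℝ) < (W : ℝ) ^ 2 := by positivity
    calc _ ≤ ((W : ℝ) ^ 2)⁻¹ * ((W : ℝ) ^ 2 * c) := mul_le_mul_of_nonneg_left e (by positivity)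
      _ = c := by field_simp

/-- the word is its two ends and the trimmed middle -/
lemma split3 {t : List Bool} {p l q u v : ℕ} (ht : t.length = p + l + q) (hu : u + v ≤ l) :
    t = t.take (p + u) ++ ((((t.drop p).take l).drop u).take (l - u - v) ++ t.drop (p + l - v)) ∧
      (t.take (p + u)).length = p + u ∧ (t.drop (p + l - v)).length = q + v := by
  refine ⟨?_, ?_, ?_⟩
  · have e1 : (((t.drop p).take l).drop u).take (l - u - v) = (t.drop (p + u)).take (l - u - v) := by
      rw [List.drop_take, List.drop_drop, List.take_take, min_eq_left (by omega)]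
    have e2 : t.drop (p + l - v) = (t.drop (p + u)).drop (l - u - v) := by
      rw [List.drop_drop]
      congr 1
      omega
    rw [e1, e2, List.take_append_drop, List.take_append_drop]
  · rw [List.length_take]
    omega
  · rw [List.length_drop]
    omega

/-- **the transport of a functional**, abstract form. `hAC`: domination with the indicator of the confined ends on the right side
(so that `κ` may be chosen after `C`). -/
theorem strand_abs {Ω : Type*} (s : Finset Ω) (μ : Ω → ℝ) (hμ : ∀ ω ∈ s, 0 ≤ μ ω) (X : Ω → List Bool)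
    (f : List Bool → ℝ) (h1 : ∀ t, f t ≤ 1) (Cf : List Bool → Prop) (AB : ℕ → ℕ → Prop) {W p q l : ℕ} {η C ε κ κ' : ℝ}
    (hW0 : 0 < W) (hWl : 2 * W ≤ l) (hη : 0 ≤ η) (hC0 : 0 ≤ C)
    (hX : ∀ ω ∈ s, (X ω).length = p + l + q ∧ X ω ∈ SA)
    (hAC : ∀ S : ℕ → ℕ → Set (List Bool), ∃ a b : ℕ, AB a b ∧
      ∑ ω ∈ s, μ ω * av W S (((X ω).drop p).take l) ≤
        (∑ ω ∈ s, μ ω) * (C * Eu (a + l + b) (fun t => if Cf t then av W S ((t.drop a).take l) else 0) + ε))
    (hT : ∀ a b u v : ℕ, AB a b → u < W → v < W → ∀ P Q P' Q' M : List Bool,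
      P.length = p + u → Q.length = q + v → P'.length = a + u → Q'.length = b + v →
      P ++ (M ++ Q) ∈ SA → P' ++ (M ++ Q') ∈ SA → Cf (P ++ (M ++ Q)) → Cf (P' ++ (M ++ Q')) →
        f (P ++ (M ++ Q)) ≤ f (P' ++ (M ++ Q')) + η)
    (hW : ∀ a b : ℕ, AB a b → Eu (a + l + b) (fun t => if η < f t then 1 else 0) ≤ κ)
    (hC : ∑ ω ∈ s, μ ω * (if Cf (X ω) then 0 else 1) ≤ (∑ ω ∈ s, μ ω) * κ') :
    ∑ ω ∈ s, μ ω * f (X ω) ≤ (∑ ω ∈ s, μ ω) * (2 * η + C * κ + ε + κ') := by
  obtain ⟨S, hS⟩ : ∃ S : ℕ → ℕ → Set (List Bool), S = fun u v => {M | ∃ P Q : List Bool, P.length = p + u ∧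
      Q.length = q + v ∧ P ++ (M ++ Q) ∈ SA ∧ Cf (P ++ (M ++ Q)) ∧ 2 * η < f (P ++ (M ++ Q))} := ⟨_, rfl⟩
  obtain ⟨a, b, hAB, hab⟩ := hAC S
  have hZ : 0 ≤ ∑ ω ∈ s, μ ω := sum_nonneg hμ
  -- the free words
  have hfree : Eu (a + l + b) (fun t => if Cf t then av W S ((t.drop a).take l) else 0) ≤ κ := by
    refine le_trans ?_ (hW a b hAB)
    unfold Eu
    refine div_le_div_of_nonneg_right (sum_le_sum fun t ht => ?_) (cS0 _).le
    have ht2 : t ∈ SawN (a + l + b) := (sawN_fin _).mem_toFinset.1 ht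
    have hlen : t.length = a + l + b := ht2.1
    have hsa : t ∈ SA := ht2.2
    have hml : ((t.drop a).take l).length = l := by
      rw [List.length_take, List.length_drop]
      omega
    by_cases hct : Cf t
    · rw [if_pos hct]
      refine av_le (by split_ifs <;> norm_num) fun u v hu hv hmem => ?_
      rw [hml] at hmem
      obtain ⟨e, el, er⟩ := split3 (u := u) (v := v) hlen (by omega)
      rw [hS] at hmem
      obtain ⟨P, Q, hP, hQ, hPQ, hcf, hfe⟩ := hmem
      rw [if_pos]
      have := hT a b u v hAB hu hv P Q _ _ _ hP hQ el er hPQ (e ▸ hsa) hcf (e ▸ hct)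
      rw [← e] at this
      linarith
    · rw [if_neg hct]
      split_ifs <;> norm_num
  -- the strands
  have hst : ∑ ω ∈ s, μ ω * f (X ω) ≤ ∑ ω ∈ s, (μ ω * (2 * η) + μ ω * av W S (((X ω).drop p).take l) +
      μ ω * (if Cf (X ω) then 0 else 1)) := by
    refine sum_le_sum fun ω hω => ?_
    rw [← mul_add, ← mul_add]
    refine mul_le_mul_of_nonneg_left ?_ (hμ ω hω)
    obtain ⟨hlen, hsa⟩ := hX ω hω
    have hav := av_nonneg W S (((X ω).drop p).take l)
    by_cases hc : Cf (X ω)
    · rw [if_pos hc]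
      by_cases hf : 2 * η < f (X ω)
      · have hml : (((X ω).drop p).take l).length = l := by
          rw [List.length_take, List.length_drop]
          omega
        rw [av_one hW0 (S := S)]
        · have := h1 (X ω)
          linarith
        · intro u v hu hv
          rw [hml, hS]
          obtain ⟨e, el, er⟩ := split3 (u := u) (v := v) hlen (by omega)
          exact ⟨_, _, el, er, e ▸ hsa, e ▸ hc, e ▸ hf⟩
      · linarith [not_lt.1 hf]
    · rw [if_neg hc]
      have := h1 (X ω)
      linarith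
  rw [sum_add_distrib, sum_add_distrib, ← sum_mul] at hst
  have h3 : (∑ ω ∈ s, μ ω) * (C * Eu (a + l + b) (fun t => if Cf t then av W S ((t.drop a).take l) else 0) + ε) ≤
      (∑ ω ∈ s, μ ω) * (C * κ + ε) := by
    refine mul_le_mul_of_nonneg_left ?_ hZ
    have := mul_le_mul_of_nonneg_left hfree hC0
    linarith
  have e : (∑ ω ∈ s, μ ω) * (2 * η + C * κ + ε + κ') = (∑ ω ∈ s, μ ω) * (2 * η) + (∑ ω ∈ s, μ ω) * (C * κ + ε) +
      (∑ ω ∈ s, μ ω) * κ' := by ring
  rw [e]
  linarith

end Pool.Agent.ROT.W4
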