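import Pool.Agent.ROT.W4Pol
import Pool.Agent.ROT.F3S2Lit

/-!
# ROT, row W4 (helper14): **windows of the polygons against windows of the walks with confined ends**, over `S2mid`
-/

set_option autoImplicit false

open scoped Classical

namespace Pool.Agent.ROT.W4

open Finset

open Pool.Agent.PMA Pool.Agent.PMA.Res Pool.Agent.NTS.Res

open HexObs hiding pos turn

open HexObs.SDN HexObs.TS HexObs.TIW HexObs.POLP HexObs.MCP

open NTF (sw aa de Ed JJ)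

open NTSF (rot)

lemma cnf_leA (R : ℝ) (a l : ℕ) (t : List Bool) : F3.cnf R a l t ≤ cnfW R a l t := by
  unfold F3.cnf
  by_cases h : F3.HdR R a t ∧ F3.TpR R (a + l) t
  · rw [if_pos h]
    unfold cnfW
    rw [if_pos]
    refine ⟨fun j hj => (JJ_le_hn _).trans (h.1 j hj), fun j h1 h2 => (JJ_le_hn _).trans (h.2 j h1 h2)⟩
  · rw [if_neg h]
    unfold cnfW
    split_ifs <;> norm_num

lemma s2H_of (h : F3.S2mid) {κ dt : ℝ} (hκ : 0 < κ) (hdt : 0 < dt) {ε δ : ℝ} (hε : 0 < ε) (hδ : 0 < δ) :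
    S2H (fun n a l t => F3.cnf (κ * (n : ℝ) ^ (3 / 4 : ℝ)) a l t) ε δ dt := by
  obtain ⟨θ, C, n0, hθ, hC, h⟩ := h ε κ δ dt hε hκ hδ hdt
  refine ⟨θ, C + 1, n0, hθ, by linarith, fun n N i l hn hN hi hil g g0 g1 η hη hyp => ?_⟩
  refine (h n N i l hn hN hi hil g η g0 g1 hη fun a b a1 a2 b1 b2 hp => hyp a b a1 a2 b1 b2 ?_).trans ?_
  · rw [Nat.even_iff, Nat.even_iff, hp]
  · nlinarith

/-- **windows of the polygons** -/
theorem polAC_of (h : F3.S2mid) {ε κ c dt : ℝ} (hε : 0 < ε) (hκ : 0 < κ) (hc : 0 < c) (hdt : 0 < dt) :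
    ∃ (θ C : ℝ) (n0 : ℕ), 0 < θ ∧ 0 < C ∧ ∀ n : ℕ, n0 ≤ n → Odd n → ∀ i l : ℕ, i + l < n → (l : ℝ) ≤ (1 - c) * n →
      ∀ g : List Bool → ℝ, (∀ L, 0 ≤ g L) → (∀ L, g L ≤ 1) → ∀ η : ℝ, 0 ≤ η →
        (∀ a b : ℕ, θ * n ≤ a → (a : ℝ) ≤ dt * n → θ * n ≤ b → (b : ℝ) ≤ dt * n → Even a →
          ∑ s ∈ saw (a + l + b), g (tl s a l) * cnfS (κ * (n : ℝ) ^ (3 / 4 : ℝ)) a l s ≤ η * ((saw (a + l + b)).card : ℝ)) →
            ∑ s ∈ pol n, g (tl s i l) ≤ (C * η + ε) * ((pol n).card : ℝ) :=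
  pol_of (P := fun n a l t => F3.cnf (κ * (n : ℝ) ^ (3 / 4 : ℝ)) a l t) (fun _ _ h1 h2 => s2H_of h hκ hdt h1 h2)
    (fun _ a l t => cnf_leA _ a l t) hε hc

end Pool.Agent.ROT.W4
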