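import Pool.Agent.ROT.W4Dic

/-!
# ROT, row W4 (helper14): windows of the polygons from windows of the walks with confined ends

* `S2H P ε δ dt` : 85's literal for a weight `P` of the words (confined ends);
* **`cM_of`** : `S2H` + `F3.acE` : windows of the closed words from windows of the open words;
* **`pol_of`** : the same for `pol n` and `saw k` (`tl s i l` = the turns number `i, ..., i + l - 1`), with the indicator `cnfS` of the
  confined ends.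
-/

set_option autoImplicit false

open scoped Classical

namespace Pool.Agent.ROT.W4

open Finset

open Pool.Agent.PMA Pool.Agent.PMA.Res Pool.Agent.NTS.Res

open HexObs hiding pos turn

open HexObs.SDN HexObs.TS HexObs.TIW HexObs.POLP HexObs.MCP

open NTF (sw aa de Ed JJ)

open NTSF (rot)

/-- windows of the open words (exact numbers) from windows between two short ends with the weight `P` -/
def S2H (P : ℕ → ℕ → ℕ → List Bool → ℝ) (ε δ dt : ℝ) : Prop := ∃ (θ C : ℝ) (n0 : ℕ), 0 < θ ∧ 0 < C ∧ ∀ n N i l : ℕ,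
  n0 ≤ n → N ≤ n → δ * n ≤ i → (i : ℝ) + l + δ * n ≤ N → ∀ g : List Bool → ℝ, (∀ L, 0 ≤ g L) → (∀ L, g L ≤ 1) → ∀ η : ℝ,
    0 ≤ η → (∀ a b : ℕ, θ * n ≤ a → (a : ℝ) ≤ dt * n → θ * n ≤ b → (b : ℝ) ≤ dt * n → (Even a ↔ Even i) →
      Eu (a + l + b) (fun t => g ((t.drop a).take l) * P n a l t) ≤ η) →
        Eu N (fun t => g ((t.drop i).take l)) ≤ C * η + ε

lemma sum_le_Eu {k : ℕ} {f : List Bool → ℝ} {c : ℝ} (h : Eu k f ≤ c) : ∑ t ∈ sawF k, f t ≤ c * (sawF k).card := by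
  unfold Eu at h
  rw [div_le_iff₀ (cS0 k)] at h
  rwa [SLW.card_sawF]

/-- **windows of the closed words** -/
theorem cM_of {P : ℕ → ℕ → ℕ → List Bool → ℝ} {dt : ℝ} (hS : ∀ ε δ : ℝ, 0 < ε → 0 < δ → S2H P ε δ dt) {ε c : ℝ} (hε : 0 < ε)
    (hc : 0 < c) : ∃ (θ C : ℝ) (n0 : ℕ), 0 < θ ∧ 0 < C ∧ ∀ n : ℕ, n0 ≤ n → Odd n → ∀ l : ℕ, (l : ℝ) ≤ (1 - c) * n →
      ∀ g : List Bool → ℝ, (∀ L, 0 ≤ g L) → (∀ L, g L ≤ 1) → ∀ η : ℝ, 0 ≤ η →
        (∀ a b : ℕ, θ * n ≤ a → (a : ℝ) ≤ dt * n → θ * n ≤ b → (b : ℝ) ≤ dt * n → Even a →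
          Eu (a + l + b) (fun t => g ((t.drop a).take l) * P n a l t) ≤ η) →
            F3.cM (n + 1) (fun K => g (K.take l)) ≤ C * η + ε := by
  obtain ⟨δ, hδ⟩ : ∃ δ : ℝ, δ = c / 8 := ⟨_, rfl⟩
  have hδ0 : 0 < δ := by
    rw [hδ]
    positivity
  obtain ⟨C1, n1, hC1, h1⟩ := F3.acE (ε / 2) δ (by positivity) hδ0
  obtain ⟨θ, C2, n2, hθ, hC2, h2⟩ := hS (ε / (2 * C1)) δ (by positivity) hδ0
  refine ⟨θ, C1 * C2, n1 + n2 + ⌈12 / c⌉₊, hθ, by positivity, fun n hn ho l hl g g0 g1 η hη hg => ?_⟩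
  have hnc : 12 ≤ c * n := by
    have h3 : 12 / c ≤ n := (Nat.le_ceil _).trans (by exact_mod_cast (by omega : ⌈12 / c⌉₊ ≤ n))
    rw [div_le_iff₀ hc] at h3
    linarith
  obtain ⟨V, hV⟩ : ∃ V : ℕ, V = ⌈δ * n / 2⌉₊ := ⟨_, rfl⟩
  have hV1 : δ * n ≤ 2 * V := by
    have := Nat.le_ceil (δ * n / 2)
    rw [← hV] at this
    linarith
  have hV2 : (2 : ℝ) * V ≤ δ * n + 2 := by
    have := Nat.ceil_lt_add_one (show 0 ≤ δ * n / 2 by positivity)
    rw [← hV] at this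
    linarith
  have hδn : δ * n = c * n / 8 := by
    rw [hδ]
    ring
  have hlV : l + 6 * V ≤ n := by
    have : ((l + 6 * V : ℕ) : ℝ) ≤ n := by
      push_cast
      linarith
    exact_mod_cast this
  have hV0 : 0 < V := by
    have h3 : (0 : ℝ) < V := by linarith
    exact_mod_cast h3
  have h4 := h1 n (by omega) ho V l g (C2 * η + ε / (2 * C1)) hV1 hlV g0 g1 (by positivity) (by
    intro k hk1 hk2
    have h5 : ∀ s ∈ range V, ∑ t ∈ sawF k, g ((t.drop (2 * V + 2 * s)).take l) ≤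
        (C2 * η + ε / (2 * C1)) * (sawF k).card := by
      intro s hs
      rw [mem_range] at hs
      have hsV : (s : ℝ) ≤ V := by exact_mod_cast hs.le
      refine sum_le_Eu (h2 n k (2 * V + 2 * s) l (by omega) hk2 (by push_cast; linarith [Nat.cast_nonneg (α := ℝ) s]) ?_ g g0 g1 η
        hη fun a b a1 a2 b1 b2 hp => ?_)
      · push_cast
        linarith
      · exact hg a b a1 a2 b1 b2 (hp.2 ⟨V + s, by ring⟩)
    unfold F3.avE
    rw [← sum_div, sum_comm, div_le_iff₀ (by exact_mod_cast hV0)]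
    calc _ ≤ ∑ _s ∈ range V, (C2 * η + ε / (2 * C1)) * ((sawF k).card : ℝ) := sum_le_sum h5
      _ = _ := by
          rw [sum_const, card_range, nsmul_eq_mul]
          ring)
  calc _ ≤ _ := h4
    _ = C1 * C2 * η + (C1 * (ε / (2 * C1)) + ε / 2) := by ring
    _ = _ := by
        field_simp
        ring

/-- the two ends are confined: words -/
noncomputable def cnfW (R : ℝ) (a l : ℕ) (t : List Bool) : ℝ :=
  if (∀ j, j ≤ a → ‖JJ (vx oo up t j - vx oo up t a)‖ ≤ R) ∧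
    (∀ j, a + l ≤ j → j ≤ t.length → ‖JJ (vx oo up t j - vx oo up t (a + l))‖ ≤ R) then 1 else 0

/-- the two ends are confined: walks -/
noncomputable def cnfS (R : ℝ) (a l : ℕ) {k : ℕ} (s : Fin k → Fin 3) : ℝ :=
  if (∀ j, j ≤ a → ‖pos s j - pos s a‖ ≤ R) ∧ (∀ j, a + l ≤ j → j ≤ k → ‖pos s j - pos s (a + l)‖ ≤ R) then 1 else 0

lemma JJ_sub (p q : Pt) : JJ (p - q) = JJ p - JJ q := by
  have h1 := NTF.JJ_add (p - q) q
  rw [sub_add_cancel] at h1
  rw [h1, add_sub_cancel_right]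

lemma cnf_sw {R : ℝ} {a l k : ℕ} {t : List Bool} (ht : t.length = k) (h : a + l ≤ k) : cnfS R a l (sw k t) = cnfW R a l t := by
  unfold cnfS cnfW
  have e1 : (∀ j, j ≤ a → ‖pos (sw k t) j - pos (sw k t) a‖ ≤ R) ↔ ∀ j, j ≤ a → ‖JJ (vx oo up t j - vx oo up t a)‖ ≤ R := by
    refine forall_congr' fun j => imp_congr_right fun hj => ?_
    rw [NTSF.pos_sw k t j (by omega), NTSF.pos_sw k t a (by omega), JJ_sub]
  have e2 : (∀ j, a + l ≤ j → j ≤ k → ‖pos (sw k t) j - pos (sw k t) (a + l)‖ ≤ R) ↔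
      ∀ j, a + l ≤ j → j ≤ t.length → ‖JJ (vx oo up t j - vx oo up t (a + l))‖ ≤ R := by
    rw [ht]
    refine forall_congr' fun j => imp_congr_right fun _ => imp_congr_right fun hj => ?_
    rw [NTSF.pos_sw k t j (by omega), NTSF.pos_sw k t (a + l) h, JJ_sub]
  exact if_congr (and_congr e1 e2) rfl rfl

lemma cnfS_rot {R : ℝ} {a l k : ℕ} (s : Fin k → Fin 3) : cnfS R a l (rot s) = cnfS R a l s := by
  have e : ∀ i j, ‖pos (rot s) i - pos (rot s) j‖ = ‖pos s i - pos s j‖ := by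
    intro i j
    rw [NTSF.pos_rot, NTSF.pos_rot, ← mul_sub, norm_mul, NTSF.om_norm, one_mul]
  unfold cnfS
  simp only [e]

/-- **windows of the polygons** -/
theorem pol_of {P : ℕ → ℕ → ℕ → List Bool → ℝ} {κ dt : ℝ} (hS : ∀ ε δ : ℝ, 0 < ε → 0 < δ → S2H P ε δ dt)
    (hP : ∀ n a l t, P n a l t ≤ cnfW (κ * (n : ℝ) ^ (3 / 4 : ℝ)) a l t) {ε c : ℝ} (hε : 0 < ε) (hc : 0 < c) :
    ∃ (θ C : ℝ) (n0 : ℕ), 0 < θ ∧ 0 < C ∧ ∀ n : ℕ, n0 ≤ n → Odd n → ∀ i l : ℕ, i + l < n → (l : ℝ) ≤ (1 - c) * n →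
      ∀ g : List Bool → ℝ, (∀ L, 0 ≤ g L) → (∀ L, g L ≤ 1) → ∀ η : ℝ, 0 ≤ η →
        (∀ a b : ℕ, θ * n ≤ a → (a : ℝ) ≤ dt * n → θ * n ≤ b → (b : ℝ) ≤ dt * n → Even a →
          ∑ s ∈ saw (a + l + b), g (tl s a l) * cnfS (κ * (n : ℝ) ^ (3 / 4 : ℝ)) a l s ≤ η * ((saw (a + l + b)).card : ℝ)) →
            ∑ s ∈ pol n, g (tl s i l) ≤ (C * η + ε) * ((pol n).card : ℝ) := by
  obtain ⟨θ, C, n0, hθ, hC, h⟩ := cM_of hS hε hc
  obtain ⟨n1, hn1⟩ := exists_nat_ge (1 / θ)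
  refine ⟨θ, C, n0 + n1 + 3, hθ, hC, fun n hn ho i l hil hl g g0 g1 η hη hg => ?_⟩
  have hθn : 1 ≤ θ * n := by
    have h3 : 1 / θ ≤ n := hn1.trans (by exact_mod_cast (by omega : n1 ≤ n))
    rw [div_le_iff₀ hθ] at h3
    linarith
  have h1 := h n (by omega) ho l hl g g0 g1 η hη (by
    intro a b a1 a2 b1 b2 hae
    have hb : 1 ≤ b := by
      have : (1 : ℝ) ≤ b := hθn.trans b1
      exact_mod_cast this
    have h2 := hg a b a1 a2 b1 b2 hae
    have h3 := saw_mean (n := a + l + b) (by omega) (fun s => g (tl s a l) * cnfS (κ * (n : ℝ) ^ (3 / 4 : ℝ)) a l s) (fun s => by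
      rw [tl_rot, cnfS_rot])
    have hs : (0 : ℝ) < (saw (a + l + b)).card := by exact_mod_cast (NTSF.saw_nonempty _).card_pos
    rw [← div_le_iff₀ hs, h3] at h2
    refine le_trans ?_ h2
    unfold Eu
    refine div_le_div_of_nonneg_right (sum_le_sum fun t ht => ?_) (cS0 _).le
    have hlen : t.length = a + l + b := (mem_sawF.1 ht).1
    rw [tl_sw (by omega) (by omega), cnf_sw hlen (by omega)]
    exact mul_le_mul_of_nonneg_left (hP n a l t) (g0 _))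
  have h2 := pol_mean (n := n) (by omega) ho (fun s => g (tl s i l)) (fun s => by rw [tl_rot])
  have h3 : F3.cM (n + 1) (fun H => g (tl (sw n H) i l)) = F3.cM (n + 1) fun K => g (K.take l) := by
    rw [← F3.cM_win (N := n + 1) (i := i) (l := l) (by omega)]
    unfold F3.cM
    congr 1
    refine sum_congr rfl fun H hH => ?_
    have hl2 : H.length = n + 1 := (mem_cyF.1 hH).1
    show g (tl (sw n H) i l) = g ((H.drop i).take l)
    rw [tl_sw (by omega) hil]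
  rw [h3] at h2
  rcases Nat.eq_zero_or_pos (pol n).card with h0 | h0
  · rw [Finset.card_eq_zero] at h0
    rw [h0]
    simp
  · have hp : (0 : ℝ) < (pol n).card := by exact_mod_cast h0
    rw [div_eq_iff hp.ne'] at h2
    rw [h2]
    exact mul_le_mul_of_nonneg_right h1 hp.le

end Pool.Agent.ROT.W4
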