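import Pool.Agent.ROT.W4A
import Pool.Agent.ROT.W4J
import Pool.Agent.ROT.W4Pol

/-!
# ROT, block F3, row W4 (helper36): the gates of the strands of a polygon, 2: stability

* `CompH` : (W4C, helper14) the strands of the polygons have good completions;
* **`stbPol_of : CompH → StbPol`** : two good strands of polygons, far away from `0` at their last steps, with close positions in the unit
  `S` : the start cuts (level at least `R / 8 S`) are stable (`StbS LG`), both for the same set of good strands; every unit `S`.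
-/

set_option autoImplicit false

open Set Filter Topology MeasureTheory

namespace Pool.Agent.ROT.W4

open Pool.Agent.NTS.Res
open Pool.Agent.PMA.Res (pol)
open Pool.Agent.SCF.M
open Pool.Agent.SCF.Z
open Pool.Agent.SCF (tk pos_tk)
open Pool.Agent.CRT (CI)
open Pool.Agent.CRT.V.VC (pr)

open Classical in
/-- **completions of the windows of the polygons**: the event `Bad` of free words -/
def CompH : Prop := ∀ κ dt ε c : ℝ, 0 < κ → 0 < dt → 0 < ε → 0 < c → ∃ (θ C : ℝ) (n0 : ℕ), 0 < θ ∧ 0 < C ∧ ∀ n : ℕ, n0 ≤ n →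
  Odd n → ∀ i l : ℕ, Even i → i + l < n → (l : ℝ) ≤ (1 - c) * n → ∀ (Bad : ∀ k : ℕ, (Fin k → Fin 3) → Prop) (η : ℝ), 0 ≤ η →
    (∀ a b : ℕ, θ * n ≤ a → (a : ℝ) ≤ dt * n → θ * n ≤ b → (b : ℝ) ≤ dt * n → Even a →
      (((saw (a + l + b)).filter fun s => Bad _ s).card : ℝ) ≤ η * ((saw (a + l + b)).card : ℝ)) →
    (((pol n).filter fun s => ¬ ∃ (a b : ℕ) (t : Fin (a + l + b) → Fin 3), θ * n ≤ a ∧ (a : ℝ) ≤ dt * n ∧ θ * n ≤ b ∧
      (b : ℝ) ≤ dt * n ∧ Even a ∧ t ∈ saw (a + l + b) ∧ (∀ k : ℕ, k ≤ l → pos t (a + k) - pos t a = pos s (i + k) - pos s i) ∧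
      cnfS (κ * (n : ℝ) ^ (3 / 4 : ℝ)) a l t = 1 ∧ ¬ Bad _ t).card : ℝ) ≤ (C * (3 * η) + ε) * ((pol n).card : ℝ)

/-- good strands -/
def GdX (dt w : ℝ) (Bad : ∀ k : ℕ, (Fin k → Fin 3) → Prop) (n j : ℕ) (X : Fin j → Fin 3) : Prop :=
  ∃ (a b : ℕ) (t : Fin (a + j + b) → Fin 3), (a : ℝ) ≤ dt * n ∧ (b : ℝ) ≤ dt * n ∧ Cpl w ((n : ℝ) ^ (3 / 4 : ℝ)) X a b t ∧ ¬ Bad _ t

open Classical in
/-- **stability of the start cuts of the strands of the polygons**, every unit of length `S` -/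
def StbPol : Prop := ∀ R κ θ ε c K0 : ℝ, 0 < R → 0 < κ → κ < 1 → 0 < θ → 0 < ε → 0 < c → c < 1 → 1 ≤ K0 →
  ∃ (δ : ℝ) (n0 : ℕ) (Gd : ∀ n j : ℕ, (Fin j → Fin 3) → Prop), 0 < δ ∧
    (∀ n j : ℕ, n0 ≤ n → Odd n → c * n ≤ j → (j : ℝ) ≤ (1 - c) * n → ∀ h : j ≤ n,
      (((pol n).filter fun s => ¬ Gd n j (tk s j h)).card : ℝ) ≤ ε * ((pol n).card : ℝ)) ∧
    ∀ (n n' j j' : ℕ) (X : Fin j → Fin 3) (X' : Fin j' → Fin 3) (S : ℝ), n0 ≤ n → n0 ≤ n' → c * n ≤ j → j ≤ n → c * n' ≤ j' →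
      j' ≤ n' → 0 < S → S ≤ K0 * (n : ℝ) ^ (3 / 4 : ℝ) → (n : ℝ) ^ (3 / 4 : ℝ) ≤ K0 * S → S ≤ K0 * (n' : ℝ) ^ (3 / 4 : ℝ) →
      (n' : ℝ) ^ (3 / 4 : ℝ) ≤ K0 * S → FarS κ (1010 * R) S X → FarS κ (1010 * R) S X' → Gd n j X → Gd n' j' X' →
      |(j : ℝ) - j'| ≤ δ * j → (∀ i : ℕ, i ≤ j → i ≤ j' → ‖pos X i - pos X' i‖ ≤ δ * S) → StbS Pool.Agent.SCF.M.LG R θ S X X'

lemma cardF {α : Type*} {A : Finset α} {P Q : α → Prop} {i1 : DecidablePred P} {i2 : DecidablePred Q}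
    (h : ∀ s ∈ A, P s → Q s) : (@Finset.filter α P i1 A).card ≤ (@Finset.filter α Q i2 A).card :=
  Finset.card_le_card fun s hs => by
    rw [Finset.mem_filter] at hs ⊢
    exact ⟨hs.1, h s hs.1 hs.2⟩

/-- a finite net of factors -/
lemma net {K q : ℝ} (hK : 1 ≤ K) (hq : 1 < q) : ∃ Λ : Finset ℝ, (∀ x ∈ Λ, 0 < x) ∧
    ∀ x : ℝ, 1 / K ≤ x → x ≤ K → ∃ y ∈ Λ, y ≤ x ∧ x ≤ q * y := by
  have hK0 : 0 < K := by linarith
  have hq0 : 0 < q := by linarith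
  obtain ⟨M, hM⟩ := pow_unbounded_of_one_lt (K * K) hq
  refine ⟨(Finset.range (M + 1)).image fun m => q ^ m / K, ?_, fun x h1 h2 => ?_⟩
  · intro x hx
    obtain ⟨m, -, rfl⟩ := Finset.mem_image.1 hx
    positivity
  · have h1' : 1 ≤ x * K := by rwa [div_le_iff₀ hK0] at h1
    obtain ⟨m, h3, h4⟩ := exists_nat_pow_near h1' hq
    refine ⟨q ^ m / K, Finset.mem_image.2 ⟨m, Finset.mem_range.2 ?_, rfl⟩, ?_, ?_⟩
    · by_contra hc
      have h5 : M ≤ m := by omega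
      have h6 : q ^ M ≤ q ^ m := pow_le_pow_right₀ hq.le h5
      have h7 : x * K ≤ K * K := mul_le_mul_of_nonneg_right h2 hK0.le
      linarith
    · rw [div_le_iff₀ hK0]
      exact h3
    · rw [mul_div_assoc', le_div_iff₀ hK0, ← pow_succ']
      exact h4.le

lemma min_fin (Λ : Finset ℝ) (f : ℝ → ℝ) (h : ∀ x ∈ Λ, 0 < f x) : ∃ δ : ℝ, 0 < δ ∧ ∀ x ∈ Λ, δ ≤ f x := by
  obtain ⟨δ, h1, h2⟩ := min_list (Λ.toList.map f) (by
    intro x hx
    obtain ⟨y, hy, rfl⟩ := List.mem_map.1 hx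
    exact h y (Finset.mem_toList.1 hy))
  exact ⟨δ, h1, fun x hx => h2 _ (List.mem_map.2 ⟨x, Finset.mem_toList.2 hx, rfl⟩)⟩

lemma cnf_iff {R : ℝ} {a l k : ℕ} {t : Fin k → Fin 3} (h : cnfS R a l t = 1) : (∀ j, j ≤ a → ‖pos t j - pos t a‖ ≤ R) ∧
    (∀ j, a + l ≤ j → j ≤ k → ‖pos t j - pos t (a + l)‖ ≤ R) := by
  by_contra hc
  unfold cnfS at h
  rw [if_neg hc] at h
  exact zero_ne_one h

/-- the completion is far away from `0` at its last steps -/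
lemma far_cpl {R S κ : ℝ} (hRS : 0 < R * S) {i a b m : ℕ} {X : Fin i → Fin 3} {t : Fin (a + i + b) → Fin 3}
    (hcpl : Cpl (R / 100) S X a b t) (hfar : FarS κ (1010 * R) S X) (h1 : (1 - κ) * (i : ℝ) ≤ (m : ℝ))
    (hκi : 0 ≤ κ * (i : ℝ)) {k : ℕ} (h2 : a + m ≤ k) (h3 : k ≤ a + i + b) : 500 * (R * S) ≤ ‖pos t k‖ := by
  have hna := hcpl.na
  rcases le_or_gt k (a + i) with h4 | h4
  · obtain ⟨q, rfl⟩ := Nat.exists_eq_add_of_le (show a ≤ k by omega)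
    have h5 := hfar q (by omega) (by
      refine h1.trans ?_
      exact_mod_cast (by omega : m ≤ q))
    rw [hcpl.at (k := q) (by omega)]
    have h7 : ‖pos X q‖ ≤ ‖pos X q + pos t a‖ + ‖pos t a‖ := by
      have e : pos X q = (pos X q + pos t a) - pos t a := by ring
      conv_lhs => rw [e]
      exact norm_sub_le _ _
    linarith
  · have h5 := hcpl.endp h4.le h3
    have h6 := hfar i le_rfl (by linarith)
    linarith

/-- the completion has a positive factor -/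
lemma nb_cpl {R S κ y sj : ℝ} (hS0 : 0 < S) (hR : 0 < R) (hy0 : 0 < y) (hκ : 0 < κ) (hκ1 : κ < 1)
    (hSbig : 2 ≤ R / 2 * S) (hyS2 : 999 / 1000 * sj ≤ 1001 / 1000 * (y * S)) {i a b : ℕ} {X : Fin i → Fin 3}
    {t : Fin (a + i + b) → Fin 3} (hi : 1 ≤ i) (hκi : 8 ≤ κ * i) (hai : (a : ℝ) ≤ κ / 16 * i) (hcpl : Cpl (R / 100) S X a b t)
    (hfar : FarS κ (1010 * R) S X) (hsize : size (a + i + b) ≤ 1001 / 1000 * sj) :
    0 < zc (κ / 2) (1000 * (R / y)) (curve t) := by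
  have hyS0 : 0 < y * S := mul_pos hy0 hS0
  refine cpl_zc hS0 hR (w := R / 100) (by linarith) hy0 hκ hi hcpl hfar ?_ (by linarith) hSbig
  push_cast
  have hb0 : (0 : ℝ) ≤ b := Nat.cast_nonneg _
  have ha0 : (0 : ℝ) ≤ a := Nat.cast_nonneg _
  have h1 : κ / 2 * (a : ℝ) ≤ 1 / 2 * a := mul_le_mul_of_nonneg_right (by linarith) ha0
  have h2 : 0 ≤ (1 - κ / 2) * (b : ℝ) := mul_nonneg (by linarith) hb0
  have e : (1 - κ / 2) * ((a : ℝ) + i + b) - 1 - (a + (1 - κ) * i) = κ * i / 2 - κ / 2 * a + (1 - κ / 2) * b - 1 := by ring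
  have h3 : 0 ≤ (1 - κ / 2) * ((a : ℝ) + i + b) - 1 - (a + (1 - κ) * i) := by
    rw [e]
    linarith
  linarith

/-- **from the completions to the strands**, stability at one scale -/
theorem stb_core {R κ θ θ0 δy y S δ : ℝ} (hR : 0 < R) (hκ : 0 < κ) (hS0 : 0 < S) (hy0 : 0 < y) (hθ00 : 0 < θ0)
    (hθa : θ0 ≤ θ / 4) (hθb : 100 * θ0 ≤ R) {Bad : ∀ n : ℕ, (Fin n → Fin 3) → Prop} {nf : ℕ}
    (hstb : ∀ (n n' : ℕ) (s : Fin n → Fin 3) (s' : Fin n' → Fin 3) (S N : ℝ) (v : ℂ) (i0 i0' L : ℕ), nf ≤ n → nf ≤ n' →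
        ¬ Bad n s → ¬ Bad n' s' → size n / 2 ≤ S → S ≤ size n → size n' / 2 ≤ S → S ≤ size n' → (n : ℝ) ≤ 2 * N →
        ‖v‖ ≤ R / y * S → (∀ i : ℕ, i ≤ i0 → ‖pos s i‖ ≤ 4 * (R / y) * S) → (∀ i : ℕ, i ≤ i0' → ‖pos s' i‖ ≤ 4 * (R / y) * S) →
        LV (δy * S) (500 * (R / y) * S) v i0 i0' L s s' → StbV (R / y) (min θ0 (θ0 / y)) S N v i0 i0' s s')
    {j j' a b a' b' : ℕ} {X : Fin j → Fin 3} {X' : Fin j' → Fin 3} {t : Fin (a + j + b) → Fin 3} {t' : Fin (a' + j' + b') → Fin 3}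
    (cp : Cpl (R / 100) S X a b t) (cp' : Cpl (R / 100) S X' a' b' t') (hf : FarS κ (1010 * R) S X) (hf' : FarS κ (1010 * R) S X')
    (nb1 : ¬ Bad _ t) (nb2 : ¬ Bad _ t') (z1 : size (a + j + b) / 2 ≤ y * S) (z2 : y * S ≤ size (a + j + b))
    (z1' : size (a' + j' + b') / 2 ≤ y * S) (z2' : y * S ≤ size (a' + j' + b')) (l1 : nf ≤ a + j + b) (l2 : nf ≤ a' + j' + b')
    (hN : (((a + j + b : ℕ)) : ℝ) ≤ 2 * (j : ℝ)) (hj : 1 ≤ j) (hj' : 1 ≤ j') (hjj : |(j : ℝ) - j'| ≤ δ * j)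
    (hXX : ∀ i : ℕ, i ≤ j → i ≤ j' → ‖pos X i - pos X' i‖ ≤ δ * S) (t2 : δ ≤ κ / 4) (t3 : δ ≤ θ / 4) (t4 : δ ≤ 1 / 4)
    (t5 : δ ≤ δy * y) : StbS Pool.Agent.SCF.M.LG R θ S X X' := by
  have hj0 : (0 : ℝ) < j := by exact_mod_cast hj
  have hj0' : (0 : ℝ) < j' := by exact_mod_cast hj'
  have hRS : 0 < R * S := mul_pos hR hS0
  have na := cp.na
  have na' := cp'.na
  have e2 : R / y * (y * S) = R * S := by field_simp
  have hjab := abs_le.1 hjj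
  have hδκ : δ * j ≤ κ / 4 * j := mul_le_mul_of_nonneg_right t2 hj0.le
  have hδj : δ * j ≤ 1 / 4 * j := mul_le_mul_of_nonneg_right t4 hj0.le
  have hκj : 0 ≤ κ * (j : ℝ) := by positivity
  have hκj' : 0 ≤ κ * (j' : ℝ) := by positivity
  have hm1 : (1 - κ) * (j : ℝ) ≤ ((min j j' : ℕ) : ℝ) := by
    rw [Nat.cast_min]
    exact le_min (by linarith) (by linarith)
  have hm2 : (1 - κ) * (j' : ℝ) ≤ ((min j j' : ℕ) : ℝ) := by
    have h2 : κ * (3 / 4 * (j : ℝ)) ≤ κ * j' := mul_le_mul_of_nonneg_left (by linarith) hκ.le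
    rw [Nat.cast_min]
    exact le_min (by linarith) (by linarith)
  have hLV : LV (δy * (y * S)) (500 * (R / y) * (y * S)) (pos t a - pos t' a') a a' (min j j') t t' := by
    have e3 : 500 * (R / y) * (y * S) = 500 * (R * S) := by rw [mul_assoc, e2]
    rw [e3]
    refine ⟨by omega, by omega, fun k hk => ?_, fun i h1 h2 => far_cpl hRS cp hf hm1 hκj h1.le h2,
      fun i h1 h2 => far_cpl hRS cp' hf' hm2 hκj' h1.le h2, far_cpl hRS cp hf hm1 hκj (by omega) le_rfl,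
      far_cpl hRS cp' hf' hm2 hκj' (by omega) le_rfl⟩
    have hk1 : k ≤ j := hk.trans (min_le_left _ _)
    have hk2 : k ≤ j' := hk.trans (min_le_right _ _)
    rw [cp.at hk1, cp'.at hk2]
    have e4 : pos X k + pos t a - (pos X' k + pos t' a' + (pos t a - pos t' a')) = pos X k - pos X' k := by ring
    rw [e4]
    refine (hXX k hk1 hk2).trans ?_
    rw [← mul_assoc]
    exact mul_le_mul_of_nonneg_right t5 hS0.le
  have e5 : 4 * (R / y) * (y * S) = 4 * (R * S) := by rw [mul_assoc, e2]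
  have hStb := hstb (a + j + b) (a' + j' + b') t t' (y * S) j (pos t a - pos t' a') a a' (min j j') l1 l2 nb1 nb2 z1 z2 z1' z2' hN
    (by
      rw [e2]
      refine (norm_sub_le _ _).trans ?_
      linarith) (fun i hi => by
      rw [e5]
      exact (cp.tip hi).trans (by linarith)) (fun i hi => by
      rw [e5]
      exact (cp'.tip hi).trans (by linarith)) hLV
  have hθy0 : 0 < min θ0 (θ0 / y) := lt_min hθ00 (by positivity)
  have hfe : 1010 * R * S ≤ ‖pos X j‖ := hf j le_rfl (by linarith)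
  have hfe' : 1010 * R * S ≤ ‖pos X' j'‖ := hf' j' le_rfl (by linarith)
  have hθy : min θ0 (θ0 / y) * y ≤ θ0 := by
    calc min θ0 (θ0 / y) * y ≤ θ0 / y * y := mul_le_mul_of_nonneg_right (min_le_right _ _) hy0.le
      _ = θ0 := by field_simp
  intro ρ q h1 h2 h3 h4 h5
  obtain ⟨q', g1, g2, g3⟩ := cpl_stb (θ0 := θ0) hS0 hR (by positivity) (by linarith) hy0 hθy0.le hθy hθb cp cp' hfe hfe' hStb
    ρ q h1 h2 h3 h4 h5
  refine ⟨q', g1.mono (mul_le_mul_of_nonneg_right (by linarith) hS0.le), ?_,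
    g3.trans (mul_le_mul_of_nonneg_right (by linarith) hS0.le)⟩
  have e : (q : ℝ) / j - (q' : ℝ) / j' = ((q : ℝ) - q') / j + (q' : ℝ) / j' * ((j' - j) / j) := by
    field_simp
    ring
  rw [e]
  have k1 : |((q : ℝ) - q') / j| ≤ θ / 4 := by
    rw [abs_div, abs_of_pos hj0, div_le_iff₀ hj0]
    exact g2.trans (mul_le_mul_of_nonneg_right ((min_le_left _ _).trans hθa) hj0.le)
  have k2 : |(q' : ℝ) / j' * ((j' - j) / j)| ≤ θ / 4 := by
    rw [abs_mul]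
    have h6 : |(q' : ℝ) / j'| ≤ 1 := by
      rw [abs_of_nonneg (by positivity), div_le_one hj0']
      exact_mod_cast g1.lt.le
    have h7 : |((j' : ℝ) - j) / j| ≤ δ := by
      rw [abs_div, abs_of_pos hj0, div_le_iff₀ hj0, abs_sub_comm]
      exact hjj
    exact (mul_le_mul h6 h7 (abs_nonneg _) zero_le_one).trans (by linarith)
  exact (abs_add_le _ _).trans ((add_le_add k1 k2).trans (by linarith))

/-- the ratio of the size of the strand to the unit -/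
lemma ratio_bd {K0 K cs Cs c : ℝ} (hK00 : 0 < K0) (hK1 : 1 ≤ K) (hcs : 0 < cs) (hCs : 0 < Cs) (hc : 0 < c)
    (hKa : 1000 / 999 * (K0 / (cs * c ^ (3 / 4 : ℝ))) ≤ K) (hKb : Cs * K0 ≤ K) {n j : ℕ} {S sj : ℝ} (hS0 : 0 < S) (hn : 0 < n)
    (hj : c * n ≤ j) (hjn : j ≤ n) (hS1 : S ≤ K0 * (n : ℝ) ^ (3 / 4 : ℝ)) (hS2 : (n : ℝ) ^ (3 / 4 : ℝ) ≤ K0 * S)
    (h1 : cs * (j : ℝ) ^ (3 / 4 : ℝ) ≤ sj) (h2 : sj ≤ Cs * (j : ℝ) ^ (3 / 4 : ℝ)) :
    1 / K ≤ 999 / 1000 * sj / S ∧ 999 / 1000 * sj / S ≤ K := by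
  have hp34 : (0 : ℝ) ≤ 3 / 4 := by norm_num
  have hn0 : (0 : ℝ) < n := by exact_mod_cast hn
  have hc34 : 0 < c ^ (3 / 4 : ℝ) := Real.rpow_pos_of_pos hc _
  constructor
  · have h3 : cs * (c ^ (3 / 4 : ℝ) * (n : ℝ) ^ (3 / 4 : ℝ)) ≤ sj := by
      rw [← Real.mul_rpow hc.le hn0.le]
      exact (mul_le_mul_of_nonneg_left (Real.rpow_le_rpow (by positivity) hj hp34) hcs.le).trans h1
    have h4 : cs * (c ^ (3 / 4 : ℝ) * (S / K0)) ≤ sj := by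
      refine le_trans (mul_le_mul_of_nonneg_left (mul_le_mul_of_nonneg_left ?_ hc34.le) hcs.le) h3
      rw [div_le_iff₀ hK00, mul_comm]
      exact hS1
    rw [div_le_iff₀ (by linarith)]
    have h5 : 1 ≤ 999 / 1000 * (cs * (c ^ (3 / 4 : ℝ) / K0)) * K := by
      have h6 : 999 / 1000 * (cs * (c ^ (3 / 4 : ℝ) / K0)) * (1000 / 999 * (K0 / (cs * c ^ (3 / 4 : ℝ)))) = 1 := by
        field_simp
      rw [← h6]
      exact mul_le_mul_of_nonneg_left hKa (by positivity)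
    have h7 : 999 / 1000 * (cs * (c ^ (3 / 4 : ℝ) / K0)) ≤ 999 / 1000 * sj / S := by
      rw [le_div_iff₀ hS0]
      calc 999 / 1000 * (cs * (c ^ (3 / 4 : ℝ) / K0)) * S = 999 / 1000 * (cs * (c ^ (3 / 4 : ℝ) * (S / K0))) := by ring
        _ ≤ 999 / 1000 * sj := mul_le_mul_of_nonneg_left h4 (by norm_num)
    exact h5.trans (mul_le_mul_of_nonneg_right h7 (by linarith))
  · rw [div_le_iff₀ hS0]
    have h3 : sj ≤ Cs * (K0 * S) := by
      refine h2.trans (mul_le_mul_of_nonneg_left ?_ hCs.le)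
      exact (Real.rpow_le_rpow (Nat.cast_nonneg _) (by exact_mod_cast hjn) hp34).trans hS2
    have h4 := mul_le_mul_of_nonneg_right hKb hS0.le
    have h5 : 0 < K0 * S := mul_pos hK00 hS0
    have h6 : 0 ≤ Cs * (K0 * S) := by positivity
    have e : Cs * K0 * S = Cs * (K0 * S) := by ring
    linarith

/-- the sizes of the completions -/
lemma size_cpl {sj : ℝ} (hsj : 0 < sj) {m : ℕ} (h1 : |size m / sj - 1| ≤ 1 / 1000) :
    999 / 1000 * sj ≤ size m ∧ size m ≤ 1001 / 1000 * sj := by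
  obtain ⟨h2, h3⟩ := abs_le.1 h1
  have h4 : 999 / 1000 ≤ size m / sj := by linarith
  have h5 : size m / sj ≤ 1001 / 1000 := by linarith
  rw [le_div_iff₀ hsj] at h4
  rw [div_le_iff₀ hsj] at h5
  exact ⟨h4, h5⟩

/-- the numbers of steps of the completions -/
lemma len_cpl {c κ δs δ dt : ℝ} (hδs : 0 < δs) (hκ : 0 < κ) (hκ1 : κ < 1) (hdt1 : dt ≤ c * δs / 16) (hdt2 : dt ≤ c * κ / 16)
    {n n' j j' a b a' b' : ℕ} (hj : c * n ≤ j) (hj' : c * n' ≤ j') (a1 : (a : ℝ) ≤ dt * n) (a2 : (b : ℝ) ≤ dt * n)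
    (a1' : (a' : ℝ) ≤ dt * n') (a2' : (b' : ℝ) ≤ dt * n') (hjj : |(j : ℝ) - j'| ≤ δ * j) (t1 : δ ≤ δs / 4) (t4 : δ ≤ 1 / 4) :
    |(j : ℝ) - ((a + j + b : ℕ) : ℝ)| ≤ δs * j ∧ |(j : ℝ) - ((a' + j' + b' : ℕ) : ℝ)| ≤ δs * j ∧ (a : ℝ) ≤ κ / 16 * j ∧
      (a' : ℝ) ≤ κ / 16 * j' ∧ ((a + j + b : ℕ) : ℝ) ≤ 2 * (j : ℝ) := by
  have e1 : ∀ {m i : ℕ} {y : ℕ}, c * m ≤ i → (y : ℝ) ≤ dt * m → (y : ℝ) ≤ δs / 16 * i ∧ (y : ℝ) ≤ κ / 16 * i := by
    intro m i y h1 h2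
    constructor
    · have h3 : dt * m ≤ c * δs / 16 * m := mul_le_mul_of_nonneg_right hdt1 (Nat.cast_nonneg _)
      have h4 : δs / 16 * (c * m) ≤ δs / 16 * i := mul_le_mul_of_nonneg_left h1 (by positivity)
      have e : c * δs / 16 * m = δs / 16 * (c * m) := by ring
      linarith
    · have h3 : dt * m ≤ c * κ / 16 * m := mul_le_mul_of_nonneg_right hdt2 (Nat.cast_nonneg _)
      have h4 : κ / 16 * (c * m) ≤ κ / 16 * i := mul_le_mul_of_nonneg_left h1 (by positivity)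
      have e : c * κ / 16 * m = κ / 16 * (c * m) := by ring
      linarith
  obtain ⟨ea1, ea2⟩ := e1 hj a1
  obtain ⟨eb1, eb2⟩ := e1 hj a2
  obtain ⟨ea1', ea2'⟩ := e1 hj' a1'
  obtain ⟨eb1', eb2'⟩ := e1 hj' a2'
  have hj0 : (0 : ℝ) ≤ j := Nat.cast_nonneg _
  have hjab := abs_le.1 hjj
  have h1 : δ * j ≤ δs / 4 * j := mul_le_mul_of_nonneg_right t1 hj0
  have h2 : δ * j ≤ 1 / 4 * j := mul_le_mul_of_nonneg_right t4 hj0
  have h3 : δs / 16 * (j' : ℝ) ≤ δs / 16 * (5 / 4 * j) := mul_le_mul_of_nonneg_left (by linarith) (by positivity)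
  have h4 : 0 ≤ δs * j := mul_nonneg hδs.le hj0
  have h5 : κ / 16 * (j : ℝ) ≤ 1 / 16 * j := mul_le_mul_of_nonneg_right (by linarith) hj0
  have g1 : (0 : ℝ) ≤ a := Nat.cast_nonneg _
  have g2 : (0 : ℝ) ≤ b := Nat.cast_nonneg _
  have g3 : (0 : ℝ) ≤ a' := Nat.cast_nonneg _
  have g4 : (0 : ℝ) ≤ b' := Nat.cast_nonneg _
  refine ⟨?_, ?_, ea2, ea2', ?_⟩
  · push_cast
    rw [abs_le]
    constructor <;> linarith
  · push_cast
    rw [abs_le]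
    constructor <;> linarith
  · push_cast
    linarith

open Classical in
/-- the union bound -/
lemma pr_union {Λ : Finset ℝ} {η : ℝ} (hη : 0 ≤ η) {k : ℕ} {Q : ℝ → (Fin k → Fin 3) → Prop}
    (h : ∀ x ∈ Λ, pr k (Q x) ≤ η / (Λ.card + 1)) :
    (((saw k).filter fun s => ∃ x ∈ Λ, Q x s).card : ℝ) ≤ η * ((saw k).card : ℝ) := by
  have hcard := NTSF.saw_card_pos k
  have h2 : ∀ x ∈ Λ, (((saw k).filter fun s => Q x s).card : ℝ) ≤ η / (Λ.card + 1) * ((saw k).card : ℝ) := by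
    intro x hx
    have h3 := h x hx
    rwa [Pool.Agent.SCF.pr_eq, div_le_iff₀ hcard] at h3
  have h4 : (((saw k).filter fun s => ∃ x ∈ Λ, Q x s).card : ℝ) ≤ ∑ x ∈ Λ, (((saw k).filter fun s => Q x s).card : ℝ) := by
    have h5 : ((saw k).filter fun s => ∃ x ∈ Λ, Q x s) ⊆ Λ.biUnion fun x => (saw k).filter fun s => Q x s := by
      intro s hs
      rw [Finset.mem_filter] at hs
      obtain ⟨h6, x, hx, h7⟩ := hs
      rw [Finset.mem_biUnion]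
      exact ⟨x, hx, Finset.mem_filter.2 ⟨h6, h7⟩⟩
    exact_mod_cast (Finset.card_le_card h5).trans Finset.card_biUnion_le
  refine h4.trans ((Finset.sum_le_sum h2).trans ?_)
  rw [Finset.sum_const, nsmul_eq_mul, ← mul_assoc]
  refine mul_le_mul_of_nonneg_right ?_ (Nat.cast_nonneg _)
  rw [mul_div_assoc', div_le_iff₀ (by positivity)]
  have h6 : (Λ.card : ℝ) * η + η = η * (Λ.card + 1) := by ring
  linarith

/-- 28's `stbLV` at the scale `R / x` -/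
lemma stb_at {R κ θ0 η : ℝ} (hR : 0 < R) (hκ : 0 < κ) (hκ1 : κ < 1) (hθ00 : 0 < θ0) (hη : 0 < η) (x : ℝ) :
    ∃ (δ : ℝ) (n0 : ℕ) (Bad : ∀ n : ℕ, (Fin n → Fin 3) → Prop), 0 < x → 0 < δ ∧
      (∀ n : ℕ, n0 ≤ n → pr n (fun s => Bad n s ∧ 0 < zc (κ / 2) (1000 * (R / x)) (curve s)) ≤ η) ∧
      ∀ (n n' : ℕ) (s : Fin n → Fin 3) (s' : Fin n' → Fin 3) (S N : ℝ) (v : ℂ) (i0 i0' L : ℕ), n0 ≤ n → n0 ≤ n' →
        ¬ Bad n s → ¬ Bad n' s' → size n / 2 ≤ S → S ≤ size n → size n' / 2 ≤ S → S ≤ size n' → (n : ℝ) ≤ 2 * N →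
        ‖v‖ ≤ R / x * S → (∀ i : ℕ, i ≤ i0 → ‖pos s i‖ ≤ 4 * (R / x) * S) → (∀ i : ℕ, i ≤ i0' → ‖pos s' i‖ ≤ 4 * (R / x) * S) →
        LV (δ * S) (500 * (R / x) * S) v i0 i0' L s s' → StbV (R / x) (min θ0 (θ0 / x)) S N v i0 i0' s s' := by
  by_cases hx : 0 < x
  · obtain ⟨δ, n0, Bad, h1, h2, h3⟩ := stbLV (R / x) 2 2 (κ / 2) (min θ0 (θ0 / x)) η (by positivity)
      (by norm_num) (by norm_num) (by positivity) (by linarith) (lt_min hθ00 (by positivity)) hη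
    exact ⟨δ, n0, Bad, fun _ => ⟨h1, h2, h3⟩⟩
  · exact ⟨0, 0, fun _ _ => False, fun h => absurd h hx⟩

/-- large numbers of steps -/
lemma big_len {M : ℕ} {c κ R K0 : ℝ} (hc : 0 < c) (hκ : 0 < κ) (hR : 0 < R) (hK00 : 0 < K0) : ∃ N1 : ℕ, ∀ n : ℕ, N1 ≤ n →
    0 < n ∧ (∀ j : ℕ, c * n ≤ j → M ≤ j ∧ 1 ≤ j ∧ 8 ≤ κ * j) ∧ ∀ S : ℝ, (n : ℝ) ^ (3 / 4 : ℝ) ≤ K0 * S → 2 ≤ R / 2 * S := by
  obtain ⟨N1, hN1⟩ := exists_nat_ge (((M + 1 : ℕ) : ℝ) / c + 8 / (κ * c))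
  have hp34 : (0 : ℝ) < 3 / 4 := by norm_num
  obtain ⟨N2, hN2⟩ := Filter.eventually_atTop.1 ((tendsto_rpow_atTop hp34).comp tendsto_natCast_atTop_atTop |>.eventually_ge_atTop
    (4 * K0 / R))
  refine ⟨N1 + N2 + 1, fun n hn => ⟨by omega, fun j hj => ?_, fun S hS => ?_⟩⟩
  · have h1 : ((M + 1 : ℕ) : ℝ) / c + 8 / (κ * c) ≤ n := hN1.trans (by exact_mod_cast (by omega : N1 ≤ n))
    have h2 : (0 : ℝ) ≤ ((M + 1 : ℕ) : ℝ) / c := by positivity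
    have h3 : (0 : ℝ) < 8 / (κ * c) := by positivity
    have h4 : ((M + 1 : ℕ) : ℝ) / c ≤ n := by linarith
    have h5 : 8 / (κ * c) ≤ n := by linarith
    rw [div_le_iff₀ hc] at h4
    rw [div_le_iff₀ (by positivity)] at h5
    have h6 : M + 1 ≤ j := by
      have : ((M + 1 : ℕ) : ℝ) ≤ j := by linarith
      exact_mod_cast this
    refine ⟨by omega, by omega, ?_⟩
    have h7 := mul_le_mul_of_nonneg_left hj hκ.le
    linarith
  · have h1 : 4 * K0 / R ≤ (n : ℝ) ^ (3 / 4 : ℝ) := hN2 n (by omega)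
    have h2 := h1.trans hS
    rw [div_le_iff₀ hR] at h2
    have h3 : K0 * 4 ≤ K0 * (S * R) := by linarith
    have h4 := le_of_mul_le_mul_left h3 hK00
    linarith

/-- **stability for the strands** -/
theorem stbPol_of (hcomp : CompH) : StbPol := by
  classical
  intro R κ θ ε c K0 hR hκ hκ1 hθ hε hc hc1 hK0
  have hK00 : 0 < K0 := by linarith
  obtain ⟨cs, Cs, hcs, hCs, hsz⟩ := F3.size34
  obtain ⟨K, hK1, hKa, hKb⟩ : ∃ K : ℝ, 1 ≤ K ∧ 1000 / 999 * (K0 / (cs * c ^ (3 / 4 : ℝ))) ≤ K ∧ Cs * K0 ≤ K :=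
    ⟨max 1 (max (1000 / 999 * (K0 / (cs * c ^ (3 / 4 : ℝ)))) (Cs * K0)), le_max_left _ _,
      (le_max_left _ _).trans (le_max_right _ _), (le_max_right _ _).trans (le_max_right _ _)⟩
  obtain ⟨Λ, hΛ0, hΛ⟩ := net (q := 1001 / 1000) hK1 (by norm_num)
  obtain ⟨θ0, hθ00, hθa, hθb⟩ : ∃ θ0 : ℝ, 0 < θ0 ∧ θ0 ≤ θ / 4 ∧ 100 * θ0 ≤ R :=
    ⟨min (θ / 4) (R / 100), lt_min (by positivity) (by positivity), min_le_left _ _, by
      have := min_le_right (θ / 4) (R / 100)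
      linarith⟩
  obtain ⟨δs, Ns, hδs, -, hslow⟩ := size_slow (θ := 1 / 1000) (by norm_num)
  obtain ⟨w, hw⟩ : ∃ w : ℝ, w = R / (100 * K0) := ⟨_, rfl⟩
  have hw0 : 0 < w := by rw [hw]; positivity
  have hwK : w * K0 = R / 100 := by
    rw [hw]
    field_simp
  obtain ⟨dt, hdt0, hdt1, hdt2⟩ : ∃ dt : ℝ, 0 < dt ∧ dt ≤ c * δs / 16 ∧ dt ≤ c * κ / 16 :=
    ⟨min (c * δs / 16) (c * κ / 16), lt_min (by positivity) (by positivity), min_le_left _ _, min_le_right _ _⟩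
  obtain ⟨ϑ, C, n1, hϑ, hC, hcp⟩ := hcomp w dt (ε / 2) c hw0 hdt0 (by positivity) hc
  obtain ⟨η, hη⟩ : ∃ η : ℝ, η = ε / (6 * C) := ⟨_, rfl⟩
  have hη0 : 0 < η := by rw [hη]; positivity
  have hηC : C * (3 * η) + ε / 2 = ε := by
    rw [hη]
    field_simp
    ring
  have hst := stb_at (θ0 := θ0) (η := η / (Λ.card + 1)) hR hκ hκ1 hθ00 (by positivity)
  choose δf nf Bad hst using hst
  obtain ⟨δΛ, hδΛ0, hδΛ⟩ := min_fin Λ (fun x => δf x * x) fun x hx => mul_pos (hst x (hΛ0 x hx)).1 (hΛ0 x hx)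
  obtain ⟨δ, hδ0, ht⟩ := min_list [δs / 4, κ / 4, θ / 4, 1 / 4, δΛ] (by
    intro x hx
    simp only [List.mem_cons, List.not_mem_nil, or_false] at hx
    rcases hx with rfl | rfl | rfl | rfl | rfl <;> positivity)
  simp only [List.mem_cons, List.not_mem_nil, or_false, forall_eq_or_imp, forall_eq] at ht
  obtain ⟨t1, t2, t3, t4, t5⟩ := ht
  obtain ⟨N1, hN1⟩ := big_len (M := Λ.sup nf + Ns) hc hκ hR hK00
  obtain ⟨BT, hBT⟩ : ∃ BT : ∀ k : ℕ, (Fin k → Fin 3) → Prop, BT = fun k t => ∃ x ∈ Λ, Bad x k t ∧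
    0 < zc (κ / 2) (1000 * (R / x)) (curve t) := ⟨_, rfl⟩
  refine ⟨δ, n1 + N1, GdX dt w BT, hδ0, fun n j hn ho hj1 hj2 hjn => ?_, ?_⟩
  · -- the proportion of the good strands
    obtain ⟨hn0, hbig, -⟩ := hN1 n (by omega)
    obtain ⟨b1, b3, b4⟩ := hbig j hj1
    have hjn' : 0 + j < n := by
      have h2 : (0 : ℝ) < c * n := mul_pos hc (by exact_mod_cast hn0)
      have : (j : ℝ) < n := by
        have e : (1 - c) * (n : ℝ) = n - c * n := by ring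
        rw [e] at hj2
        linarith
      have h3 : j < n := by exact_mod_cast this
      omega
    have h1 := hcp n (by omega) ho 0 j Even.zero hjn' hj2 BT η hη0.le (by
      intro a b _ _ _ _ _
      have h2 := pr_union (Λ := Λ) (η := η) hη0.le (k := a + j + b)
        (Q := fun x s => Bad x _ s ∧ 0 < zc (κ / 2) (1000 * (R / x)) (curve s)) fun x hx => (hst x (hΛ0 x hx)).2.1 (a + j + b) (by
          have := Finset.le_sup (f := nf) hx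
          omega)
      refine le_trans ?_ h2
      have h3 : ∀ s ∈ saw (a + j + b), BT _ s → ∃ x ∈ Λ, Bad x _ s ∧ 0 < zc (κ / 2) (1000 * (R / x)) (curve s) := by
        intro s _ h
        rw [hBT] at h
        exact h
      exact Nat.cast_le.2 (cardF h3))
    rw [hηC] at h1
    refine le_trans (Nat.cast_le.2 (Finset.card_le_card fun s hs => ?_)) h1
    rw [Finset.mem_filter] at hs ⊢
    refine ⟨hs.1, ?_⟩
    rintro ⟨a, b, t, c1, c2, c3, c4, c5, c6, c7, c8, c9⟩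
    obtain ⟨d1, d2⟩ := cnf_iff c8
    refine hs.2 ⟨a, b, t, c2, c4, ⟨c5, fun k hk => ?_, d1, d2⟩, c9⟩
    rw [c7 k hk, zero_add, NTSF.pos_zero, sub_zero, pos_tk s hjn hk]
  · -- stability
    intro n n' j j' X X' S hn hn' hj hjn hj' hjn' hS0 hS1 hS2 hS1' hS2' hf hf' hg hg' hjj hXX
    obtain ⟨hn0, hbig, hSb⟩ := hN1 n (by omega)
    obtain ⟨hn0', hbig', -⟩ := hN1 n' (by omega)
    obtain ⟨b1, b3, b4⟩ := hbig j hj
    obtain ⟨b1', b3', b4'⟩ := hbig' j' hj'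
    have hSbig := hSb S hS2
    obtain ⟨a, b, t, a1, a2, hcl, hbd⟩ := hg
    obtain ⟨a', b', t', a1', a2', hcl', hbd'⟩ := hg'
    have cp : Cpl (R / 100) S X a b t := hcl.mono (by
      calc w * (n : ℝ) ^ (3 / 4 : ℝ) ≤ w * (K0 * S) := mul_le_mul_of_nonneg_left hS2 hw0.le
        _ = R / 100 * S := by rw [← mul_assoc, hwK])
    have cp' : Cpl (R / 100) S X' a' b' t' := hcl'.mono (by
      calc w * (n' : ℝ) ^ (3 / 4 : ℝ) ≤ w * (K0 * S) := mul_le_mul_of_nonneg_left hS2' hw0.le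
        _ = R / 100 * S := by rw [← mul_assoc, hwK])
    obtain ⟨l1, l2, l3, l4, l5⟩ := len_cpl hδs hκ hκ1 hdt1 hdt2 hj hj' a1 a2 a1' a2' hjj t1 t4
    obtain ⟨r1, r2⟩ := size_cpl (NTSF.size_pos b3) (hslow j (a + j + b) (by omega) (by omega) l1).2
    obtain ⟨r1', r2'⟩ := size_cpl (NTSF.size_pos b3) (hslow j (a' + j' + b') (by omega) (by omega) l2).2
    obtain ⟨hxK1, hxK2⟩ := ratio_bd hK00 hK1 hcs hCs hc hKa hKb hS0 hn0 hj hjn hS1 hS2 (hsz j b3).1 (hsz j b3).2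
    obtain ⟨y, hyΛ, hy1, hy2⟩ := hΛ _ hxK1 hxK2
    have hy0 := hΛ0 y hyΛ
    obtain ⟨-, -, hstb⟩ := hst y hy0
    rw [le_div_iff₀ hS0] at hy1
    rw [div_le_iff₀ hS0] at hy2
    have hyS2 : 999 / 1000 * size j ≤ 1001 / 1000 * (y * S) := by
      rw [← mul_assoc]
      exact hy2
    have hyS0 : 0 < y * S := mul_pos hy0 hS0
    have hnf := Finset.le_sup (f := nf) hyΛ
    have nb1 : ¬ Bad y _ t := fun h => hbd (by
      rw [hBT]
      exact ⟨y, hyΛ, h, nb_cpl hS0 hR hy0 hκ hκ1 hSbig hyS2 b3 b4 l3 cp hf r2⟩)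
    have nb2 : ¬ Bad y _ t' := fun h => hbd' (by
      rw [hBT]
      exact ⟨y, hyΛ, h, nb_cpl hS0 hR hy0 hκ hκ1 hSbig hyS2 b3' b4' l4 cp' hf' r2'⟩)
    clear hcp hst hslow hN1 hsz hΛ hbig hbig' hSb hδΛ0 hKa hKb
    exact stb_core hR hκ hS0 hy0 hθ00 hθa hθb hstb cp cp' hf hf' nb1 nb2 (by linarith) (by linarith) (by linarith) (by linarith)
      (by omega) (by omega) l5 b3 b3' hjj hXX t2 t3 t4 (t5.trans (hδΛ y hyΛ))

end Pool.Agent.ROT.W4
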