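import Pool.Agent.ROT.W4B
import Pool.Agent.ROT.W4E

/-!
# ROT, block F3, row W4 (helper36): the gates of the strands of a polygon, 4: the functionals

* `CmpE κ c Rs N l G` : comparison of the values of the functional `G` at two words with close curves, moduli of continuity and stable start
  cuts (scales `Rs`), far away from `0` at their last steps, outside of an exceptional set `Bd` of strands of small proportion;
* `CmpG κ c Rs N l G` : the same without an exceptional set; `CmpG.e`;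
* **`arcJ_cmpE`, `arcJ_cmp`** : `ArcJ` for `G a S w * zc κ c (curve of w in the unit S)`.
-/

set_option autoImplicit false

open Set Filter Topology MeasureTheory

namespace Pool.Agent.ROT.W4

open Pool.Agent.NTS.Res
open Pool.Agent.PMA.Res (pol)
open Pool.Agent.SCF.M
open Pool.Agent.SCF.Z
open Pool.Agent.SCF (tk pos_tk take_ofFn)
open Pool.Agent.CRT (CI)
open Pool.Agent.ROT.F3 (cv W3 crv clw ArcJ)
open scoped NNReal

/-- the curve of a word in the unit `S` -/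
lemma crv_cv {n : ℕ} (hn : 1 ≤ n) (s : Fin n → Fin 3) (S : ℝ) : crv (List.ofFn s) n S = cv S s := by
  have hs := NTSF.size_pos hn
  ext u
  unfold cv
  rw [ContinuousMap.smul_apply, F3.curve_ofFn, F3.crv_eq hn, F3.crv_eq hn, Complex.real_smul]
  have hsc : (size n : ℂ) ≠ 0 := by exact_mod_cast hs.ne'
  push_cast
  rw [div_mul_div_comm, mul_comm (size n : ℂ), mul_div_mul_right _ _ hsc]

/-- the first letters of a polygon -/
lemma take_clw {n : ℕ} (s : Fin n → Fin 3) {j : ℕ} (h : j ≤ n) : (clw s).take j = List.ofFn (tk s j h) := by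
  unfold F3.clw
  rw [List.take_append_of_le_length (by rw [List.length_ofFn]; exact h), take_ofFn s h]

/-- a positive factor: the word is far away at its last steps -/
lemma farS_of {κ c S : ℝ} (hc : 0 < c) (hS : 0 < S) {m : ℕ} (hm : 1 ≤ m) {s : Fin m → Fin 3} (h : 0 < zc κ c (cv S s)) :
    FarS κ c S s := by
  intro i hi h1
  have hs := NTSF.size_pos hm
  have hm0 : (0 : ℝ) < m := by exact_mod_cast hm
  rw [SCF.zc_eq] at h
  have h2 := SCF.tr_pos h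
  have h3 : c < SCF.fd κ (cv S s) := by
    have h4 : 1 < SCF.fd κ (cv S s) / c := by linarith
    rwa [lt_div_iff₀ hc, one_mul] at h4
  obtain ⟨u, hu, hcu⟩ := Pool.Agent.CRT.R.curve_at hm s hi
  have h4 : 1 - κ ≤ (u : ℝ) := by
    rw [hu, le_div_iff₀ hm0]
    exact h1
  have h5 := (h3.trans_le (SCF.fd_le (cv S s) h4)).le
  unfold F3.cv at h5
  rw [ContinuousMap.smul_apply, hcu, norm_smul, Real.norm_eq_abs, abs_of_pos (by positivity), norm_div,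
    Complex.norm_of_nonneg hs.le] at h5
  have e : size m / S * (‖pos s i‖ / size m) = ‖pos s i‖ / S := by field_simp
  rw [e, le_div_iff₀ hS] at h5
  exact h5

/-- **comparison under stability**, scales `Rs`, at most `N` moduli of continuity -/
def CmpG {α : Type*} (κ c : ℝ) (Rs : Finset ℝ) (N : ℕ) (l : Filter α) (G : α → ℝ → W3 → ℝ) : Prop :=
  ∀ ε K0 : ℝ, 0 < ε → 1 ≤ K0 → ∀ ηf : ℝ → ℝ, (∀ ω : ℝ, 0 < ω → 0 < ηf ω) →
    ∃ (Ω : Finset ℝ) (θ : ℝ) (n0 : ℕ), Ω.card ≤ N ∧ (∀ ω ∈ Ω, 0 < ω) ∧ 0 < θ ∧ ∀ᶠ a in l,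
      ∀ (n n' : ℕ) (s : Fin n → Fin 3) (s' : Fin n' → Fin 3) (S : ℝ), n0 ≤ n → n0 ≤ n' → 0 < S → size n ≤ K0 * S →
        S ≤ K0 * size n → size n' ≤ K0 * S → S ≤ K0 * size n' → (∀ ω ∈ Ω, Md (ηf ω) ω s) → (∀ ω ∈ Ω, Md (ηf ω) ω s') →
        dist (XS S s) (XS S s') ≤ θ → dist (curve s) (curve s') ≤ θ → |size n / size n' - 1| ≤ θ →
        FarS κ c S s → FarS κ c S s' → (∀ R ∈ Rs, StbS Pool.Agent.SCF.M.LG R θ S s s' ∧ StbS Pool.Agent.SCF.M.LG R θ S s' s) →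
          G a S (List.ofFn s) ≤ G a S (List.ofFn s') + ε

open Classical in
/-- **comparison under stability, with an exceptional set** `Bd` of strands of polygons, scales `Rs`, at most `N` moduli of continuity -/
def CmpE {α : Type*} (κ c : ℝ) (Rs : Finset ℝ) (N : ℕ) (l : Filter α) (G : α → ℝ → W3 → ℝ) : Prop :=
  ∀ ε K0 c0 : ℝ, 0 < ε → 1 ≤ K0 → 0 < c0 → c0 < 1 → ∀ ηf : ℝ → ℝ, (∀ ω : ℝ, 0 < ω → 0 < ηf ω) →
    ∃ (Ω : Finset ℝ) (θ : ℝ) (n0 : ℕ), Ω.card ≤ N ∧ (∀ ω ∈ Ω, 0 < ω) ∧ 0 < θ ∧ ∀ᶠ a in l, ∀ S : ℝ, 0 < S →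
      ∃ Bd : ∀ n j : ℕ, (Fin j → Fin 3) → Prop,
      (∀ n j : ℕ, n0 ≤ n → Odd n → Even j → c0 * n ≤ j → (j : ℝ) ≤ (1 - c0) * n → S ≤ K0 * (n : ℝ) ^ (3 / 4 : ℝ) →
        (n : ℝ) ^ (3 / 4 : ℝ) ≤ K0 * S → ∀ h : j ≤ n,
        (((pol n).filter fun s => Bd n j (tk s j h)).card : ℝ) ≤ ε * ((pol n).card : ℝ)) ∧
      ∀ (n n' j j' : ℕ) (s : Fin j → Fin 3) (s' : Fin j' → Fin 3), n0 ≤ j → n0 ≤ j' → c0 * n ≤ j → j ≤ n → c0 * n' ≤ j' → j' ≤ n' →
        S ≤ K0 * (n : ℝ) ^ (3 / 4 : ℝ) → (n : ℝ) ^ (3 / 4 : ℝ) ≤ K0 * S → S ≤ K0 * (n' : ℝ) ^ (3 / 4 : ℝ) →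
        (n' : ℝ) ^ (3 / 4 : ℝ) ≤ K0 * S → size j ≤ K0 * S → S ≤ K0 * size j → size j' ≤ K0 * S → S ≤ K0 * size j' →
        ¬ Bd n j s → ¬ Bd n' j' s' → (∀ ω ∈ Ω, Md (ηf ω) ω s) → (∀ ω ∈ Ω, Md (ηf ω) ω s') →
        dist (XS S s) (XS S s') ≤ θ → dist (curve s) (curve s') ≤ θ → |size j / size j' - 1| ≤ θ →
        FarS κ c S s → FarS κ c S s' → (∀ R ∈ Rs, StbS Pool.Agent.SCF.M.LG R θ S s s' ∧ StbS Pool.Agent.SCF.M.LG R θ S s' s) →
          G a S (List.ofFn s) ≤ G a S (List.ofFn s') + ε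

theorem CmpG.e {α : Type*} {κ c : ℝ} {Rs : Finset ℝ} {N : ℕ} {l : Filter α} {G : α → ℝ → W3 → ℝ} (h : CmpG κ c Rs N l G) :
    CmpE κ c Rs N l G := by
  classical
  intro ε K0 c0 hε hK0 hc0 hc1 ηf hηf
  obtain ⟨Ω, θ, n0, h1, h2, h3, h4⟩ := h ε K0 hε hK0 ηf hηf
  refine ⟨Ω, θ, n0, h1, h2, h3, h4.mono fun a ha S hS => ⟨fun _ _ _ => False, fun n j _ _ _ _ _ _ _ hj => ?_, ?_⟩⟩
  · rw [Finset.filter_false, Finset.card_empty, Nat.cast_zero]
    positivity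
  · intro n n' j j' s s' b1 b2 _ _ _ _ _ _ _ _ b3 b4 b5 b6 _ _ b7 b8 b9 b10 b11 b12 b13 b14
    exact ha j j' s s' S b1 b2 hS b3 b4 b5 b6 b7 b8 b9 b10 b11 b12 b13 b14

lemma sup_fin (Λ : Finset ℝ) (f : ℝ → ℕ) : ∃ N : ℕ, ∀ x ∈ Λ, f x ≤ N := ⟨Λ.sup f, fun _ hx => Finset.le_sup hx⟩

/-- **from the comparison to `ArcJ`** -/
theorem arcJ_cmpE (hst : StbPol) {α : Type*} {κ c : ℝ} {Rs : Finset ℝ} {N : ℕ} {l : Filter α} {G : α → ℝ → W3 → ℝ} (hκ : 0 < κ)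
    (hκ1 : κ < 1) (hc : 0 < c) (hRs : ∀ R ∈ Rs, 0 < R ∧ 1010 * R ≤ c) (hG : ∀ᶠ a in l, ∀ S : ℝ, 0 < S → ∀ w, |G a S w| ≤ 1)
    (h : CmpE κ c Rs N l G) : ArcJ l fun a S w => G a S w * zc κ c (crv w w.length S) := by
  classical
  intro ε δ K0 hε hδ hK0
  obtain ⟨e, he⟩ : ∃ e : ℝ, e = ε / 8 := ⟨_, rfl⟩
  have he0 : 0 < e := by rw [he]; positivity
  obtain ⟨c0, hc00, hc01, hc0δ⟩ : ∃ c0 : ℝ, 0 < c0 ∧ c0 < 1 ∧ c0 ≤ δ :=
    ⟨min δ (1 / 2), lt_min hδ (by norm_num), (min_le_right _ _).trans_lt (by norm_num), min_le_left _ _⟩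
  obtain ⟨cs, Cs, hcs, hCs, hsz⟩ := F3.size34
  have hp34 : (0 : ℝ) < 3 / 4 := by norm_num
  have hc34 : 0 < c0 ^ (3 / 4 : ℝ) := Real.rpow_pos_of_pos hc00 _
  obtain ⟨K1, hK1, hK1'⟩ : ∃ K1 : ℝ, 1 ≤ K1 ∧ K0 ≤ K1 := ⟨max 1 K0, le_max_left _ _, le_max_right _ _⟩
  obtain ⟨K2, hK12, hK2a, hK2b⟩ : ∃ K2 : ℝ, K1 ≤ K2 ∧ Cs * K0 ≤ K2 ∧ K0 / (cs * c0 ^ (3 / 4 : ℝ)) ≤ K2 :=
    ⟨max K1 (max (Cs * K0) (K0 / (cs * c0 ^ (3 / 4 : ℝ)))), le_max_left _ _, (le_max_left _ _).trans (le_max_right _ _),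
      (le_max_right _ _).trans (le_max_right _ _)⟩
  have hK2 : 1 ≤ K2 := hK1.trans hK12
  have hK20 : 0 < K2 := by linarith
  -- the moduli of continuity
  have hmd : ∀ ω : ℝ, ∃ (η : ℝ) (n0 : ℕ), 0 < ω → 0 < η ∧ ∀ n : ℕ, n0 ≤ n → Odd n →
      (((pol n).filter fun s => ∃ (j : ℕ) (t : Fin j → Fin 3), c0 * n ≤ j ∧ j ≤ n ∧ (∀ i : ℕ, i ≤ j → pos t i = pos s i) ∧
        ¬ Md η ω t).card : ℝ) ≤ e / (N + 2) * ((pol n).card : ℝ) := by
    intro ω
    by_cases hω : 0 < ω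
    · obtain ⟨η, n0, h1, h2⟩ := F3.md_take (ε := e / (N + 2)) (ω := ω) (δ := c0) (by positivity) hω hc00
      refine ⟨η, n0, fun _ => ⟨h1, fun n hn ho => le_trans ?_ (h2 n hn ho)⟩⟩
      exact_mod_cast cardF fun s _ h => h
    · exact ⟨0, 0, fun h => absurd h hω⟩
  choose ηf nm hmd using hmd
  obtain ⟨Ω, θ, n1, hΩN, hΩ, hθ, hcmp⟩ := h e K2 c0 he0 hK2 hc00 hc01 ηf fun ω hω => (hmd ω hω).1
  -- stability
  have hsts : ∀ R : ℝ, ∃ (δ : ℝ) (n0 : ℕ) (Gd : ∀ n j : ℕ, (Fin j → Fin 3) → Prop), 0 < R → 0 < δ ∧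
      (∀ n j : ℕ, n0 ≤ n → Odd n → c0 * n ≤ j → (j : ℝ) ≤ (1 - c0) * n → ∀ h : j ≤ n,
        (((pol n).filter fun s => ¬ Gd n j (tk s j h)).card : ℝ) ≤ e / (Rs.card + 1) * ((pol n).card : ℝ)) ∧
      ∀ (n n' j j' : ℕ) (X : Fin j → Fin 3) (X' : Fin j' → Fin 3) (S : ℝ), n0 ≤ n → n0 ≤ n' → c0 * n ≤ j → j ≤ n → c0 * n' ≤ j' →
        j' ≤ n' → 0 < S → S ≤ K1 * (n : ℝ) ^ (3 / 4 : ℝ) → (n : ℝ) ^ (3 / 4 : ℝ) ≤ K1 * S → S ≤ K1 * (n' : ℝ) ^ (3 / 4 : ℝ) →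
        (n' : ℝ) ^ (3 / 4 : ℝ) ≤ K1 * S → FarS κ (1010 * R) S X → FarS κ (1010 * R) S X' → Gd n j X → Gd n' j' X' →
        |(j : ℝ) - j'| ≤ δ * j → (∀ i : ℕ, i ≤ j → i ≤ j' → ‖pos X i - pos X' i‖ ≤ δ * S) → StbS Pool.Agent.SCF.M.LG R θ S X X' := by
    intro R
    by_cases hR : 0 < R
    · obtain ⟨δ, n0, Gd, h1, h2, h3⟩ := hst R κ θ (e / (Rs.card + 1)) c0 K1 hR hκ hκ1 hθ (by positivity) hc00 hc01 hK1
      refine ⟨δ, n0, Gd, fun _ => ⟨h1, fun n j hn ho a1 a2 hj => le_trans ?_ (h2 n j hn ho a1 a2 hj), h3⟩⟩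
      exact_mod_cast cardF fun s _ h => h
    · exact ⟨0, 0, fun _ _ _ => True, fun h => absurd h hR⟩
  choose δR nR Gd hsts using hsts
  obtain ⟨δ1, hδ10, hδ1⟩ := min_fin Rs δR fun R hR => (hsts R (hRs R hR).1).1
  obtain ⟨ω5, hω5⟩ : ∃ ω5, ω5 = δ1 / (4 * K2) := ⟨_, rfl⟩
  have hω50 : 0 < ω5 := by rw [hω5]; positivity
  have hη5 := (hmd ω5 hω50).1
  obtain ⟨C, hC⟩ : ∃ C, C = (2 / ηf ω5 + 1) * ω5 := ⟨_, rfl⟩
  have hC0 : 0 < C := by rw [hC]; positivity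
  obtain ⟨θ1, hθ10, ht⟩ := min_list [θ / 4, ω5 / 4, ω5 / (4 * C), ηf ω5 / 4, 1 / 2, δ1 / 4]
    (by
      intro x hx
      simp only [List.mem_cons, List.not_mem_nil, or_false] at hx
      rcases hx with rfl | rfl | rfl | rfl | rfl | rfl <;> positivity)
  simp only [List.mem_cons, List.not_mem_nil, or_false, forall_eq_or_imp, forall_eq] at ht
  obtain ⟨t1, t2, t3, t4, t5, t6⟩ := ht
  have r1 : C * θ1 ≤ ω5 / 4 := by
    have h1 := mul_le_mul_of_nonneg_left t3 hC0.le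
    have e : C * (ω5 / (4 * C)) = ω5 / 4 := by field_simp
    linarith
  obtain ⟨δX, N0, hδX, hnear⟩ := nearU (K0 := K2) (C := C + 1) hK20 (by positivity) hθ10
  obtain ⟨n3, hn3⟩ := inv_small (θ := min θ1 1) (lt_min hθ10 one_pos)
  obtain ⟨δ', hδ'0, hδ'1, hδ'2, hδ'3⟩ : ∃ δ' : ℝ, 0 < δ' ∧ δ' ≤ δX ∧ δ' ≤ θ ∧ δ' ≤ c * e :=
    ⟨min δX (min θ (c * e)), lt_min hδX (lt_min hθ (by positivity)), min_le_left _ _, (min_le_right _ _).trans (min_le_left _ _),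
      (min_le_right _ _).trans (min_le_right _ _)⟩
  obtain ⟨nmS, hnmS⟩ := sup_fin (insert ω5 Ω) nm
  obtain ⟨nRS, hnRS⟩ := sup_fin Rs nR
  obtain ⟨Nc, hNc⟩ := exists_nat_ge (((n1 + n3 + N0 + 1 : ℕ) : ℝ) / c0)
  obtain ⟨n0, hn0⟩ : ∃ n0 : ℕ, n0 = nmS + nRS + Nc + n1 + 1 := ⟨_, rfl⟩
  have big : ∀ n j : ℕ, n0 ≤ n → c0 * n ≤ j → n1 ≤ j ∧ n3 ≤ j ∧ N0 ≤ j ∧ 1 ≤ j := by
    intro n j hn hj
    have h1 : ((n1 + n3 + N0 + 1 : ℕ) : ℝ) / c0 ≤ n := hNc.trans (by exact_mod_cast (by omega : Nc ≤ n))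
    rw [div_le_iff₀ hc00] at h1
    have h2 : n1 + n3 + N0 + 1 ≤ j := by
      have : ((n1 + n3 + N0 + 1 : ℕ) : ℝ) ≤ j := by linarith
      exact_mod_cast this
    omega
  refine ⟨Real.toNNReal (2 / δ'), n0, ?_⟩
  filter_upwards [hG, hcmp] with a haG hacmp0 S hS0
  obtain ⟨Bd, hBd, hacmp⟩ := hacmp0 S hS0
  obtain ⟨BT, hBT⟩ : ∃ BT : ∀ n j : ℕ, (Fin j → Fin 3) → Prop, BT = fun n j X => (∃ ω ∈ insert ω5 Ω, ¬ Md (ηf ω) ω X) ∨
    (∃ R ∈ Rs, ¬ Gd R n j X) ∨ Bd n j X := ⟨_, rfl⟩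
  have hz0 : ∀ γ : CI, 0 ≤ zc κ c γ := fun γ => SCF.tr_nonneg _
  have hz1 : ∀ γ : CI, zc κ c γ ≤ 1 := fun γ => SCF.tr_le _
  obtain ⟨φ, h1, h2, h3⟩ := F3.mcsJ
    (I := {x : Σ n : ℕ, Σ j : ℕ, (Fin j → Fin 3) // n0 ≤ x.1 ∧ c0 * (x.1 : ℝ) ≤ (x.2.1 : ℝ) ∧ x.2.1 ≤ x.1 ∧
      S ≤ K0 * (x.1 : ℝ) ^ (3 / 4 : ℝ) ∧ (x.1 : ℝ) ^ (3 / 4 : ℝ) ≤ K0 * S ∧ ¬ BT x.1 x.2.1 x.2.2})
    (c := fun x => XS S x.1.2.2) (f := fun x => G a S (List.ofFn x.1.2.2) * zc κ c (cv S x.1.2.2))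
    (fun x => by
      rw [abs_mul, abs_of_nonneg (hz0 _)]
      exact mul_le_one₀ (haG S hS0 _) (hz0 _) (hz1 _)) (ε := 2 * e) (δ := δ')
    (by positivity) hδ'0 (by
      rintro ⟨⟨n, j, X⟩, hn, hj1, hj2, hS1, hS2, hg⟩ ⟨⟨n', j', X'⟩, hn', hj1', hj2', hS1', hS2', hg'⟩ hd
      simp only at hn hj1 hj2 hS1 hS2 hg hn' hj1' hj2' hS1' hS2' hg'
      change dist (XS S X) (XS S X') ≤ δ' at hd
      show G a S (List.ofFn X) * zc κ c (cv S X) ≤ G a S (List.ofFn X') * zc κ c (cv S X') + 2 * e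
      obtain ⟨k1, k2, k3, k4⟩ := big n j hn hj1
      obtain ⟨k1', k2', k3', k4'⟩ := big n' j' hn' hj1'
      obtain ⟨a1, a2, a3⟩ := hn3 j k2
      obtain ⟨b1, b2, b3⟩ := hn3 j' k2'
      have a2' := a2.trans (min_le_left _ _)
      have b2' := b2.trans (min_le_left _ _)
      have a3' := a3.trans (min_le_left _ _)
      have a4' := a3.trans (min_le_right _ _)
      have hs := NTSF.size_pos a1
      have hs' := NTSF.size_pos b1
      have hj0 : (0 : ℝ) < j := by exact_mod_cast a1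
      have hj0' : (0 : ℝ) < j' := by exact_mod_cast b1
      -- the factor
      have hzz : |zc κ c (cv S X) - zc κ c (cv S X')| ≤ e := by
        refine (SCF.zc_lip hκ hc _ _).trans ?_
        have h4 : dist (cv S X) (cv S X') ≤ c * e := ((le_max_right _ _).trans hd).trans hδ'3
        calc 1 / c * dist (cv S X) (cv S X') ≤ 1 / c * (c * e) := mul_le_mul_of_nonneg_left h4 (by positivity)
          _ = e := by field_simp
      have hzz' := abs_le.1 hzz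
      have gX := abs_le.1 (haG S hS0 (List.ofFn X))
      have gX' := abs_le.1 (haG S hS0 (List.ofFn X'))
      rcases eq_or_lt_of_le (hz0 (cv S X)) with c1 | c1
      · rw [← c1, mul_zero]
        rw [← c1] at hzz'
        have h5 : -(1 : ℝ) * zc κ c (cv S X') ≤ G a S (List.ofFn X') * zc κ c (cv S X') :=
          mul_le_mul_of_nonneg_right gX'.1 (hz0 _)
        linarith
      rcases eq_or_lt_of_le (hz0 (cv S X')) with c2 | c2
      · rw [← c2, mul_zero]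
        rw [← c2] at hzz'
        have h5 : G a S (List.ofFn X) * zc κ c (cv S X) ≤ 1 * zc κ c (cv S X) := mul_le_mul_of_nonneg_right gX.2 (hz0 _)
        linarith
      have hF := farS_of hc hS0 a1 c1
      have hF' := farS_of hc hS0 b1 c2
      rw [hBT] at hg hg'
      push Not at hg hg'
      obtain ⟨m1, m2, m3⟩ := hg
      obtain ⟨m1', m2', m3'⟩ := hg'
      have m4 : Md (ηf ω5) ω5 X := m1 ω5 (Finset.mem_insert_self _ _)
      have m4' : Md (ηf ω5) ω5 X' := m1' ω5 (Finset.mem_insert_self _ _)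
      -- the sizes
      have hSz : ∀ {n j : ℕ}, 1 ≤ j → c0 * (n : ℝ) ≤ j → j ≤ n → S ≤ K0 * (n : ℝ) ^ (3 / 4 : ℝ) → (n : ℝ) ^ (3 / 4 : ℝ) ≤ K0 * S →
          size j ≤ K2 * S ∧ S ≤ K2 * size j := by
        intro n j hj1 hj2 hj3 hS1 hS2
        have hj0 : (0 : ℝ) < j := by exact_mod_cast hj1
        have hn0 : (0 : ℝ) < n := by exact_mod_cast (by omega : 0 < n)
        constructor
        · have h4 : (j : ℝ) ^ (3 / 4 : ℝ) ≤ K0 * S :=
            (Real.rpow_le_rpow hj0.le (by exact_mod_cast hj3) hp34.le).trans hS2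
          calc size j ≤ Cs * (j : ℝ) ^ (3 / 4 : ℝ) := (hsz j hj1).2
            _ ≤ Cs * (K0 * S) := mul_le_mul_of_nonneg_left h4 hCs.le
            _ = Cs * K0 * S := by ring
            _ ≤ K2 * S := mul_le_mul_of_nonneg_right hK2a hS0.le
        · have h4 : c0 ^ (3 / 4 : ℝ) * (n : ℝ) ^ (3 / 4 : ℝ) ≤ (j : ℝ) ^ (3 / 4 : ℝ) := by
            rw [← Real.mul_rpow hc00.le hn0.le]
            exact Real.rpow_le_rpow (by positivity) hj2 hp34.le
          have h5 : cs * (c0 ^ (3 / 4 : ℝ) * (n : ℝ) ^ (3 / 4 : ℝ)) ≤ size j :=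
            (mul_le_mul_of_nonneg_left h4 hcs.le).trans (hsz j hj1).1
          calc S ≤ K0 * (n : ℝ) ^ (3 / 4 : ℝ) := hS1
            _ = K0 / (cs * c0 ^ (3 / 4 : ℝ)) * (cs * (c0 ^ (3 / 4 : ℝ) * (n : ℝ) ^ (3 / 4 : ℝ))) := by field_simp
            _ ≤ K0 / (cs * c0 ^ (3 / 4 : ℝ)) * size j := mul_le_mul_of_nonneg_left h5 (by positivity)
            _ ≤ K2 * size j := mul_le_mul_of_nonneg_right hK2b (NTSF.size_pos hj1).le
      obtain ⟨q1, q2⟩ := hSz a1 hj1 hj2 hS1 hS2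
      obtain ⟨q1', q2'⟩ := hSz b1 hj1' hj2' hS1' hS2'
      have hbd : ∀ i : ℕ, i ≤ j → ‖pos X i‖ ≤ C * size j := by
        rw [hC]
        refine md_bd hη5 hω50.le ?_ m4
        have h1 : 1 / (j : ℝ) ≤ ηf ω5 := a2'.trans (by linarith)
        rwa [div_le_iff₀ hj0] at h1
      obtain ⟨g1, g2, g3, g4⟩ := hnear j' j X' X S k3' k3 hS0 q2' (fun u => (curve_bd a1 hbd u).trans (by linarith))
        (by rw [dist_comm]; exact hd.trans hδ'1)
      rw [dist_comm] at g1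
      have g5 : |(j : ℝ) - j'| ≤ θ1 * j' := by rw [abs_sub_comm]; exact g4
      have g5' := abs_le.1 g5
      have hθj : θ1 * (j' : ℝ) ≤ 1 / 2 * j' := mul_le_mul_of_nonneg_right t5 hj0'.le
      have hnn' : (j' : ℝ) ≤ 2 * j := by linarith
      have g6 : |(j : ℝ) - j'| ≤ 2 * θ1 * j := by
        refine g5.trans ?_
        have := mul_le_mul_of_nonneg_left hnn' hθ10.le
        linarith
      have hClX : ClS S 2 (ηf ω5 / 2) δ1 X' X := by
        refine clS_of b1 a1 (cl_of b1 a1 (by rw [dist_comm]; exact g1) m4 (by linarith) (le_refl (θ1 + 1 / size j + ω5)))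
          q1' q1 (by positivity) hbd g2 hC0.le ?_ hS0.le
        have h1 : θ1 + 1 / size j + ω5 + C * θ1 ≤ 4 * ω5 := by linarith
        calc K2 * (θ1 + 1 / size j + ω5 + C * θ1) ≤ K2 * (4 * ω5) := mul_le_mul_of_nonneg_left h1 hK20.le
          _ = δ1 := by rw [hω5]; field_simp
      have hidx : ∀ i : ℕ, i ≤ j → i ≤ j' → ‖pos X i - pos X' i‖ ≤ δ1 * S := by
        intro i h1 h2
        have h1' : (i : ℝ) ≤ j := by exact_mod_cast h1
        have h2' : (i : ℝ) ≤ j' := by exact_mod_cast h2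
        refine hClX.symm i i h1 h2 ?_ ?_ ?_
        · exact ((div_le_one hj0).2 h1').trans (by norm_num)
        · exact ((div_le_one hj0').2 h2').trans (by norm_num)
        · have e : (i : ℝ) / j - (i : ℝ) / j' = (i : ℝ) / j' * ((j' - j) / j) := by
            field_simp
          rw [e, abs_mul, abs_of_nonneg (by positivity : 0 ≤ (i : ℝ) / j'), abs_div, abs_of_pos hj0, abs_sub_comm]
          have h3 : (i : ℝ) / j' ≤ 1 := (div_le_one hj0').2 h2'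
          refine (mul_le_of_le_one_left (by positivity) h3).trans ?_
          rw [div_le_iff₀ hj0]
          refine g6.trans (mul_le_mul_of_nonneg_right (by linarith) hj0.le)
      have hR1 : ∀ {n : ℕ}, S ≤ K0 * (n : ℝ) ^ (3 / 4 : ℝ) → (n : ℝ) ^ (3 / 4 : ℝ) ≤ K0 * S →
          S ≤ K1 * (n : ℝ) ^ (3 / 4 : ℝ) ∧ (n : ℝ) ^ (3 / 4 : ℝ) ≤ K1 * S := fun {n} h1 h2 =>
        ⟨h1.trans (mul_le_mul_of_nonneg_right hK1' (by positivity)), h2.trans (mul_le_mul_of_nonneg_right hK1' hS0.le)⟩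
      obtain ⟨u1, u2⟩ := hR1 hS1 hS2
      obtain ⟨u1', u2'⟩ := hR1 hS1' hS2'
      have hR2 : ∀ {n : ℕ}, S ≤ K1 * (n : ℝ) ^ (3 / 4 : ℝ) → (n : ℝ) ^ (3 / 4 : ℝ) ≤ K1 * S →
          S ≤ K2 * (n : ℝ) ^ (3 / 4 : ℝ) ∧ (n : ℝ) ^ (3 / 4 : ℝ) ≤ K2 * S := fun {n} h1 h2 =>
        ⟨h1.trans (mul_le_mul_of_nonneg_right hK12 (by positivity)), h2.trans (mul_le_mul_of_nonneg_right hK12 hS0.le)⟩
      obtain ⟨v1, v2⟩ := hR2 u1 u2
      obtain ⟨v1', v2'⟩ := hR2 u1' u2'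
      have hstab : ∀ R ∈ Rs, StbS Pool.Agent.SCF.M.LG R θ S X X' ∧ StbS Pool.Agent.SCF.M.LG R θ S X' X := by
        intro R hR
        obtain ⟨-, -, h3⟩ := hsts R (hRs R hR).1
        have hRc : 1010 * R * S ≤ c * S := mul_le_mul_of_nonneg_right (hRs R hR).2 hS0.le
        have f1 : FarS κ (1010 * R) S X := fun i h1 h2 => hRc.trans (hF i h1 h2)
        have f2 : FarS κ (1010 * R) S X' := fun i h1 h2 => hRc.trans (hF' i h1 h2)
        have hδR := hδ1 R hR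
        have hnR := hnRS R hR
        constructor
        · refine h3 n n' j j' X X' S (by omega) (by omega) hj1 hj2 hj1' hj2' hS0 u1 u2 u1' u2' f1 f2 (m2 R hR) (m2' R hR) ?_
            fun i h1 h2 => (hidx i h1 h2).trans (mul_le_mul_of_nonneg_right hδR hS0.le)
          exact g6.trans (mul_le_mul_of_nonneg_right (by linarith) hj0.le)
        · refine h3 n' n j' j X' X S (by omega) (by omega) hj1' hj2' hj1 hj2 hS0 u1' u2' u1 u2 f2 f1 (m2' R hR) (m2 R hR) ?_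
            fun i h1 h2 => by
              rw [norm_sub_rev]
              exact (hidx i h2 h1).trans (mul_le_mul_of_nonneg_right hδR hS0.le)
          exact g4.trans (mul_le_mul_of_nonneg_right (by linarith) hj0'.le)
      have h5 := hacmp n n' j j' X X' k1 k1' hj1 hj2 hj1' hj2' v1 v2 v1' v2' q1 q2 q1' q2' m3 m3'
        (fun ω hω => m1 ω (Finset.mem_insert_of_mem hω))
        (fun ω hω => m1' ω (Finset.mem_insert_of_mem hω)) (hd.trans hδ'2) (g1.trans (by linarith)) (g3.trans (by linarith))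
        hF hF' hstab
      have h6 : G a S (List.ofFn X) * zc κ c (cv S X) ≤ (G a S (List.ofFn X') + e) * zc κ c (cv S X) :=
        mul_le_mul_of_nonneg_right h5 c1.le
      have h7 : G a S (List.ofFn X') * (zc κ c (cv S X) - zc κ c (cv S X')) ≤ 1 * e := by
        refine (le_abs_self _).trans ?_
        rw [abs_mul]
        exact mul_le_mul (haG S hS0 _) hzz (abs_nonneg _) zero_le_one
      have h8 : e * zc κ c (cv S X) ≤ e * 1 := mul_le_mul_of_nonneg_left (hz1 _) he0.le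
      have e9 : (G a S (List.ofFn X') + e) * zc κ c (cv S X) = G a S (List.ofFn X') * zc κ c (cv S X') +
          G a S (List.ofFn X') * (zc κ c (cv S X) - zc κ c (cv S X')) + e * zc κ c (cv S X) := by ring
      linarith)
  refine ⟨φ, h1, h2, fun n j hn ho hev hj1 hj2 hS1 hS2 => ?_⟩
  have hn0r : (0 : ℝ) < n := by exact_mod_cast (by omega : 0 < n)
  have hjc : c0 * n ≤ j := (mul_le_mul_of_nonneg_right hc0δ hn0r.le).trans hj1
  have hjc2 : (j : ℝ) ≤ (1 - c0) * n := hj2.trans (mul_le_mul_of_nonneg_right (by linarith) hn0r.le)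
  have hjn : j ≤ n := by
    have : (j : ℝ) ≤ n := by nlinarith
    exact_mod_cast this
  obtain ⟨k1, k2, k3, k4⟩ := big n j hn hjc
  -- the bad polygons
  have hP0 : (0 : ℝ) ≤ ((pol n).card : ℝ) := Nat.cast_nonneg _
  have hB : (((pol n).filter fun s => BT n j (tk s j hjn)).card : ℝ) ≤ 3 * e * ((pol n).card : ℝ) := by
    have hsub : ((pol n).filter fun s => BT n j (tk s j hjn)) ⊆
        ((insert ω5 Ω).biUnion fun ω => (pol n).filter fun s => ∃ (j : ℕ) (t : Fin j → Fin 3), c0 * n ≤ j ∧ j ≤ n ∧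
          (∀ i : ℕ, i ≤ j → pos t i = pos s i) ∧ ¬ Md (ηf ω) ω t) ∪
        ((Rs.biUnion fun R => (pol n).filter fun s => ¬ Gd R n j (tk s j hjn)) ∪ (pol n).filter fun s => Bd n j (tk s j hjn)) := by
      intro s hs
      rw [Finset.mem_filter, hBT] at hs
      obtain ⟨h4, h5 | h5 | h5⟩ := hs
      · obtain ⟨ω, hω, h6⟩ := h5
        refine Finset.mem_union_left _ (Finset.mem_biUnion.2 ⟨ω, hω, Finset.mem_filter.2 ⟨h4, j, tk s j hjn, hjc, hjn, ?_, h6⟩⟩)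
        exact fun i hi => pos_tk s hjn hi
      · obtain ⟨R, hR, h6⟩ := h5
        exact Finset.mem_union_right _ (Finset.mem_union_left _ (Finset.mem_biUnion.2 ⟨R, hR, Finset.mem_filter.2 ⟨h4, h6⟩⟩))
      · exact Finset.mem_union_right _ (Finset.mem_union_right _ (Finset.mem_filter.2 ⟨h4, h5⟩))
    have c1 := Finset.card_le_card hsub
    have c2 := (c1.trans (Finset.card_union_le _ _)).trans (add_le_add Finset.card_biUnion_le ((Finset.card_union_le _ _).trans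
      (add_le_add Finset.card_biUnion_le le_rfl)))
    have c3 : (((pol n).filter fun s => BT n j (tk s j hjn)).card : ℝ) ≤
        (∑ ω ∈ insert ω5 Ω, (((pol n).filter fun s => ∃ (j : ℕ) (t : Fin j → Fin 3), c0 * n ≤ j ∧ j ≤ n ∧
          (∀ i : ℕ, i ≤ j → pos t i = pos s i) ∧ ¬ Md (ηf ω) ω t).card : ℝ)) +
        ((∑ R ∈ Rs, (((pol n).filter fun s => ¬ Gd R n j (tk s j hjn)).card : ℝ)) +
          (((pol n).filter fun s => Bd n j (tk s j hjn)).card : ℝ)) := by exact_mod_cast c2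
    have c6 : (((pol n).filter fun s => Bd n j (tk s j hjn)).card : ℝ) ≤ e * ((pol n).card : ℝ) := by
      refine le_trans ?_ (hBd n j (by omega) ho hev hjc hjc2 (hS1.trans (mul_le_mul_of_nonneg_right (hK1'.trans hK12)
        (by positivity))) (hS2.trans (mul_le_mul_of_nonneg_right (hK1'.trans hK12) hS0.le)) hjn)
      exact_mod_cast cardF fun s _ h => h
    have c4 : (∑ ω ∈ insert ω5 Ω, (((pol n).filter fun s => ∃ (j : ℕ) (t : Fin j → Fin 3), c0 * n ≤ j ∧ j ≤ n ∧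
          (∀ i : ℕ, i ≤ j → pos t i = pos s i) ∧ ¬ Md (ηf ω) ω t).card : ℝ)) ≤ e * ((pol n).card : ℝ) := by
      have h4 : ∀ ω ∈ insert ω5 Ω, (((pol n).filter fun s => ∃ (j : ℕ) (t : Fin j → Fin 3), c0 * n ≤ j ∧ j ≤ n ∧
          (∀ i : ℕ, i ≤ j → pos t i = pos s i) ∧ ¬ Md (ηf ω) ω t).card : ℝ) ≤ e / (N + 2) * ((pol n).card : ℝ) := by
        intro ω hω
        have h5 : 0 < ω := by
          rcases Finset.mem_insert.1 hω with rfl | h6
          · exact hω50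
          · exact hΩ ω h6
        refine le_trans ?_ ((hmd ω h5).2 n (by have := hnmS ω hω; omega) ho)
        exact_mod_cast cardF fun s _ h => h
      refine (Finset.sum_le_sum h4).trans ?_
      rw [Finset.sum_const, nsmul_eq_mul, ← mul_assoc]
      refine mul_le_mul_of_nonneg_right ?_ hP0
      have h5 : ((insert ω5 Ω).card : ℝ) ≤ N + 1 := by
        have := Finset.card_insert_le ω5 Ω
        exact_mod_cast this.trans (by omega)
      rw [mul_div_assoc', div_le_iff₀ (by positivity)]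
      nlinarith
    have c5 : ∑ R ∈ Rs, (((pol n).filter fun s => ¬ Gd R n j (tk s j hjn)).card : ℝ) ≤ e * ((pol n).card : ℝ) := by
      have h4 : ∀ R ∈ Rs, (((pol n).filter fun s => ¬ Gd R n j (tk s j hjn)).card : ℝ) ≤
          e / (Rs.card + 1) * ((pol n).card : ℝ) := by
        intro R hR
        refine le_trans ?_ ((hsts R (hRs R hR).1).2.1 n j (by have := hnRS R hR; omega) ho hjc hjc2 hjn)
        exact_mod_cast cardF fun s _ h => h
      refine (Finset.sum_le_sum h4).trans ?_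
      rw [Finset.sum_const, nsmul_eq_mul, ← mul_assoc]
      refine mul_le_mul_of_nonneg_right ?_ hP0
      rw [mul_div_assoc', div_le_iff₀ (by positivity)]
      nlinarith
    linarith
  have hsum : ∀ s ∈ pol n, |G a S ((clw s).take j) * zc κ c (crv ((clw s).take j) ((clw s).take j).length S) -
      φ ((j : ℝ) / S ^ (4 / 3 : ℝ), crv ((clw s).take j) j S)| ≤ 2 * e + if BT n j (tk s j hjn) then (2 : ℝ) else 0 := by
    intro s hs
    rw [take_clw s hjn, List.length_ofFn, crv_cv k4]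
    split_ifs with hb
    · have a1 : |G a S (List.ofFn (tk s j hjn)) * zc κ c (cv S (tk s j hjn))| ≤ 1 := by
        rw [abs_mul, abs_of_nonneg (hz0 _)]
        exact mul_le_one₀ (haG S hS0 _) (hz0 _) (hz1 _)
      have a2 := h2 ((j : ℝ) / S ^ (4 / 3 : ℝ), cv S (tk s j hjn))
      refine (abs_sub _ _).trans ?_
      linarith
    · have h4 := h3 ⟨⟨n, j, tk s j hjn⟩, hn, hjc, hjn, hS1, hS2, hb⟩
      rw [add_zero]
      exact h4
  calc ∑ s ∈ pol n, |G a S ((clw s).take j) * zc κ c (crv ((clw s).take j) ((clw s).take j).length S) -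
        φ ((j : ℝ) / S ^ (4 / 3 : ℝ), crv ((clw s).take j) j S)|
      ≤ ∑ s ∈ pol n, (2 * e + if BT n j (tk s j hjn) then (2 : ℝ) else 0) := Finset.sum_le_sum hsum
    _ = 2 * e * ((pol n).card : ℝ) + 2 * (((pol n).filter fun s => BT n j (tk s j hjn)).card : ℝ) := by
        rw [Finset.sum_add_distrib, Finset.sum_const, nsmul_eq_mul, Finset.sum_ite, Finset.sum_const_zero, add_zero,
          Finset.sum_const, nsmul_eq_mul]
        ring
    _ ≤ ε * ((pol n).card : ℝ) := by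
        have h4 : e * ((pol n).card : ℝ) = ε / 8 * ((pol n).card : ℝ) := by rw [he]
        have h5 : 0 ≤ ε * ((pol n).card : ℝ) := by positivity
        linarith

/-- **from the comparison without an exceptional set** -/
theorem arcJ_cmp (hst : StbPol) {α : Type*} {κ c : ℝ} {Rs : Finset ℝ} {N : ℕ} {l : Filter α} {G : α → ℝ → W3 → ℝ} (hκ : 0 < κ)
    (hκ1 : κ < 1) (hc : 0 < c) (hRs : ∀ R ∈ Rs, 0 < R ∧ 1010 * R ≤ c) (hG : ∀ᶠ a in l, ∀ S : ℝ, 0 < S → ∀ w, |G a S w| ≤ 1)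
    (h : CmpG κ c Rs N l G) : ArcJ l fun a S w => G a S w * zc κ c (crv w w.length S) :=
  arcJ_cmpE hst hκ hκ1 hc hRs hG h.e

end Pool.Agent.ROT.W4
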