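import Pool.Agent.ROT.W4J

/-!
# ROT, row W4D (helper14): McShane for the arcs of the polygons

* `XC S j w` : the point (length, curve) of an arc;
* **`arcJ_mc`** : `ArcJ l G` from a comparison of the values of `G` at two arcs with close points, off events of small proportion.
-/

set_option autoImplicit false

open Filter

namespace Pool.Agent.ROT.F3

open Finset
open Pool.Agent.NTS.Res (step pos saw fug size curve)
open Pool.Agent.PMA.Res (pol)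
open scoped NNReal

variable {α : Type*}

/-- the point of an arc with `j` letters, unit `S` -/
noncomputable def XC (S : ℝ) (j : ℕ) (w : W3) : ℝ × C(unitInterval, ℂ) := ((j : ℝ) / S ^ (4 / 3 : ℝ), crv w j S)

/-- the ranges: polygons with `n + 1` edges, arcs with `j` letters, unit `S` -/
structure Rg (δ K0 S : ℝ) (n0 n j : ℕ) : Prop where
  n0 : n0 ≤ n
  odd : Odd n
  even : Even j
  lo : δ * n ≤ j
  hi : (j : ℝ) ≤ (1 - δ) * n
  S1 : size j / K0 ≤ S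
  S2 : S ≤ size j

open Classical in
/-- **McShane for the arcs** -/
theorem arcJ_mc {l : Filter α} {G : α → ℝ → W3 → ℝ} (hG : ∀ᶠ a in l, ∀ S : ℝ, 0 < S → ∀ w, |G a S w| ≤ 1)
    (h : ∀ κ : ℝ, 0 < κ → ∀ ε δ K0 : ℝ, 0 < ε → 0 < δ → 0 < K0 →
      ∃ (θ : ℝ) (n0 : ℕ) (Bd : ℝ → ∀ n j : ℕ, (Fin n → Fin 3) → Prop), 0 < θ ∧
        (∀ (S : ℝ) (n j : ℕ), 0 < S → Rg δ K0 S n0 n j →
          (((pol n).filter fun s => Bd S n j s).card : ℝ) ≤ ε * ((pol n).card : ℝ)) ∧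
        ∀ᶠ a in l, ∀ S : ℝ, 0 < S → ∀ (n j : ℕ) (s : Fin n → Fin 3) (n' j' : ℕ) (s' : Fin n' → Fin 3), Rg δ K0 S n0 n j →
          Rg δ K0 S n0 n' j' → s ∈ pol n → s' ∈ pol n' → ¬ Bd S n j s → ¬ Bd S n' j' s' →
          dist (XC S j ((clw s).take j)) (XC S j' ((clw s').take j')) ≤ θ →
            G a (κ⁻¹ * S) ((clw s).take j) ≤ G a (κ⁻¹ * S) ((clw s').take j') + ε) : ArcJ l G := by
  refine arcJ_of fun κ hκ ε δ K0 hε hδ hK0 => ?_
  obtain ⟨θ, n0, Bd, hθ, hBd, hcmp⟩ := h κ hκ (ε / 4) δ K0 (by positivity) hδ hK0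
  refine ⟨Real.toNNReal (2 / θ), n0, ?_⟩
  filter_upwards [hcmp, hG] with a ha hGa S hS
  have hκS : 0 < κ⁻¹ * S := by positivity
  obtain ⟨φ, h1, h2, h3⟩ := mcsJ
    (I := {x : Σ (n : ℕ) (_ : ℕ), (Fin n → Fin 3) // Rg δ K0 S n0 x.1 x.2.1 ∧ x.2.2 ∈ pol x.1 ∧ ¬ Bd S x.1 x.2.1 x.2.2})
    (c := fun x => XC S x.1.2.1 ((clw x.1.2.2).take x.1.2.1)) (f := fun x => G a (κ⁻¹ * S) ((clw x.1.2.2).take x.1.2.1))
    (fun x => hGa _ hκS _) (ε := ε / 4) (δ := θ) (by positivity) hθ (by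
      rintro ⟨⟨n, j, s⟩, h1, h2, h3⟩ ⟨⟨n', j', s'⟩, h1', h2', h3'⟩ hd
      exact ha S hS n j s n' j' s' h1 h1' h2 h2' h3 h3' hd)
  refine ⟨φ, h1, h2, fun n j hn ho he b1 b2 b3 b4 => ?_⟩
  have hR : Rg δ K0 S n0 n j := ⟨hn, ho, he, b1, b2, b3, b4⟩
  have hone : ∀ s ∈ pol n, |G a (κ⁻¹ * S) ((clw s).take j) - φ ((j : ℝ) / S ^ (4 / 3 : ℝ), crv ((clw s).take j) j S)| ≤
      ε / 4 + if Bd S n j s then 2 else 0 := by
    intro s hs
    by_cases hb : Bd S n j s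
    · rw [if_pos hb]
      have a1 := abs_sub (G a (κ⁻¹ * S) ((clw s).take j)) (φ ((j : ℝ) / S ^ (4 / 3 : ℝ), crv ((clw s).take j) j S))
      have a2 := hGa _ hκS ((clw s).take j)
      have a3 := h2 ((j : ℝ) / S ^ (4 / 3 : ℝ), crv ((clw s).take j) j S)
      linarith
    · rw [if_neg hb, add_zero]
      exact h3 ⟨⟨n, j, s⟩, hR, hs, hb⟩
  refine (sum_le_sum hone).trans ?_
  rw [sum_add_distrib, sum_const, nsmul_eq_mul, ← sum_filter, sum_const, nsmul_eq_mul]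
  have h5 := hBd S n j hS hR
  linarith

end Pool.Agent.ROT.F3
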