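import Pool.Agent.ROT.TwoA
import Pool.Agent.ROT.F3AC

/-!
# ROT, row W4 (helper14): turn words and walks, sums

* `tl s u l` : the turns number `u, ..., u + l - 1` of the walk `s`; `tl_sw`, `tl_rot`;
* **`sum_saw`**, **`sum_pol`** : sums over the walks / the polygons of functions which do not see the rotation by 120 degrees, as sums over
  the words / the closed words; `saw_mean`, `pol_mean`: the means.
-/

set_option autoImplicit false

open scoped Classical

namespace Pool.Agent.ROT.W4

open Finset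

open Pool.Agent.PMA Pool.Agent.PMA.Res Pool.Agent.NTS.Res

open HexObs hiding pos turn

open HexObs.SDN HexObs.TS HexObs.TIW HexObs.POLP HexObs.MCP

open NTF (sw aa de Ed JJ)

open NTSF (rot)

/-- the turns number `u, ..., u + l - 1` -/
def tl {n : ℕ} (s : Fin n → Fin 3) (u l : ℕ) : List Bool := (List.range l).map fun i => Pool.Agent.TSW.turn s (u + i)

lemma tl_length {n : ℕ} (s : Fin n → Fin 3) (u l : ℕ) : (tl s u l).length = l := by
  unfold tl
  rw [List.length_map, List.length_range]

lemma tl_rot {n : ℕ} (s : Fin n → Fin 3) (u l : ℕ) : tl (rot s) u l = tl s u l := by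
  unfold tl
  simp only [Pool.Agent.TSW.turn_rot]

lemma tl_sw {n : ℕ} {t : List Bool} {u l : ℕ} (ht : u + l ≤ t.length) (h : u + l < n) : tl (sw n t) u l = (t.drop u).take l := by
  have hl : ((t.drop u).take l).length = l := by
    rw [List.length_take, List.length_drop]
    omega
  unfold tl
  refine List.ext_getElem (by rw [List.length_map, List.length_range, hl]) fun i hi hi' => ?_
  have hi2 : i < l := by rwa [List.length_map, List.length_range] at hi
  rw [List.getElem_map, List.getElem_range, Pool.Agent.TSW.turn_sw t (by omega), List.getElem_take, List.getElem_drop]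
  unfold tf
  rw [List.getD_eq_getElem _ _ (by omega)]

/-- from the numbers of the values to the sums -/
lemma sum_vals {α β : Type*} {A : Finset α} {B : Finset β} {g : α → ℝ} {g' : β → ℝ} {c1 c2 : ℝ}
    (h : ∀ v : ℝ, c1 * ((A.filter fun s => g s = v).card : ℝ) = c2 * ((B.filter fun t => g' t = v).card : ℝ)) :
    c1 * ∑ s ∈ A, g s = c2 * ∑ t ∈ B, g' t := by
  obtain ⟨U, hU⟩ : ∃ U : Finset ℝ, U = A.image g ∪ B.image g' := ⟨_, rfl⟩
  have h1 : ∑ s ∈ A, g s = ∑ v ∈ U, ((A.filter fun s => g s = v).card : ℝ) * v := by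
    rw [← sum_fiberwise_of_maps_to (t := U) (g := g) (f := g) (s := A)]
    · refine sum_congr rfl fun v _ => ?_
      rw [sum_congr rfl fun s hs => (mem_filter.1 hs).2, sum_const, nsmul_eq_mul]
    · intro s hs
      rw [hU]
      exact mem_union_left _ (mem_image_of_mem _ hs)
  have h2 : ∑ t ∈ B, g' t = ∑ v ∈ U, ((B.filter fun s => g' s = v).card : ℝ) * v := by
    rw [← sum_fiberwise_of_maps_to (t := U) (g := g') (f := g') (s := B)]
    · refine sum_congr rfl fun v _ => ?_
      rw [sum_congr rfl fun s hs => (mem_filter.1 hs).2, sum_const, nsmul_eq_mul]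
    · intro s hs
      rw [hU]
      exact mem_union_right _ (mem_image_of_mem _ hs)
  rw [h1, h2, mul_sum, mul_sum]
  refine sum_congr rfl fun v _ => ?_
  rw [← mul_assoc, h v, mul_assoc]

/-- **the walks** -/
theorem sum_saw {n : ℕ} (hn : 0 < n) (g : (Fin n → Fin 3) → ℝ) (hg : ∀ s, g (rot s) = g s) :
    2 * ∑ s ∈ saw n, g s = 3 * ∑ t ∈ sawF n, g (sw n t) := by
  refine sum_vals fun v => ?_
  have h := NTSF.card_saw hn (fun s => g s = v) (fun s => by rw [hg])
  have e : {t | t ∈ SawN n ∧ g (sw n t) = v} = (((sawF n).filter fun t => g (sw n t) = v : Finset (List Bool)) : Set (List Bool)) := by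
    ext t
    rw [Set.mem_ofPred_eq, mem_coe, mem_filter, mem_sawF]
  rw [e, Set.ncard_coe_finset] at h
  exact_mod_cast h

/-- **the polygons** -/
theorem sum_pol {n : ℕ} (hn : 3 ≤ n) (ho : Odd n) (g : (Fin n → Fin 3) → ℝ) (hg : ∀ s, g (rot s) = g s) :
    ∑ s ∈ pol n, g s = 3 * ∑ H ∈ cyF (n + 1), g (sw n H) := by
  have h : (1 : ℝ) * ∑ s ∈ pol n, g s = 3 * ∑ H ∈ cyF (n + 1), g (sw n H) := by
    refine sum_vals fun v => ?_
    have h := Pool.Agent.ROT.pol_count hn ho (fun s => g s = v) (fun s => by rw [hg])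
    rw [one_mul]
    exact_mod_cast h
  rwa [one_mul] at h

/-- the mean over the walks -/
theorem saw_mean {n : ℕ} (hn : 0 < n) (g : (Fin n → Fin 3) → ℝ) (hg : ∀ s, g (rot s) = g s) :
    (∑ s ∈ saw n, g s) / ((saw n).card : ℝ) = Eu n fun t => g (sw n t) := by
  have h1 := sum_saw hn g hg
  have h2 := sum_saw hn (fun _ => 1) fun _ => rfl
  rw [sum_const, sum_const, nsmul_eq_mul, nsmul_eq_mul, mul_one, mul_one] at h2
  have hs : (0 : ℝ) < (saw n).card := by exact_mod_cast (NTSF.saw_nonempty n).card_pos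
  have hc := cS0 n
  have e : ((sawF n).card : ℝ) = cS n := by rw [SLW.card_sawF]
  rw [e] at h2
  unfold Eu
  rw [div_eq_div_iff hs.ne' hc.ne']
  have h3 : (∑ s ∈ saw n, g s) * cS n * 6 = (∑ t ∈ sawF n, g (sw n t)) * (saw n).card * 6 := by
    linear_combination 3 * (cS n : ℝ) * h1 - 3 * (∑ t ∈ sawF n, g (sw n t)) * h2
  linarith

/-- the mean over the polygons -/
theorem pol_mean {n : ℕ} (hn : 3 ≤ n) (ho : Odd n) (g : (Fin n → Fin 3) → ℝ) (hg : ∀ s, g (rot s) = g s) :
    (∑ s ∈ pol n, g s) / ((pol n).card : ℝ) = F3.cM (n + 1) fun H => g (sw n H) := by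
  have h1 := sum_pol hn ho g hg
  have h2 := sum_pol hn ho (fun _ => 1) fun _ => rfl
  rw [sum_const, sum_const, nsmul_eq_mul, nsmul_eq_mul, mul_one, mul_one] at h2
  unfold F3.cM
  rw [h1, h2]
  rcases eq_or_ne ((cyF (n + 1)).card : ℝ) 0 with h0 | h0
  · rw [h0]
    simp
  · field_simp

end Pool.Agent.ROT.W4
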