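import Pool.Agent.ROT.W4D

/-!
# ROT, block F3, row W4 (helper11): the grid means of the single level gate

* **`cmpG_psV`** : the comparison `CmpG` for the grid means `psV LG M B S (h S)`, along `M → ∞`, from helper66's `cmpU`;
* **`arcJ_psV`** : `ArcJ` for these grid means (helper16's hypothesis `hJ`), from `StbPol`.
-/

set_option autoImplicit false

open Set Filter Topology MeasureTheory

namespace Pool.Agent.ROT.W4

open Pool.Agent.NTS.Res
open Pool.Agent.SCF.M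
open Pool.Agent.SCF.Z
open Pool.Agent.CRT (CI)
open Pool.Agent.ROT.F3 (cv W3 crv ArcJ ofg ofg_ofFn)

/-- the grid means of the gates are compared under stability -/
theorem cmpG_psV {R K κ c : ℝ} (hR : 0 < R) (hK : 0 ≤ K) {B : Box} (hB : B.Ok R)
    {h : ℝ → ∀ n : ℕ, (Fin n → Fin 3) → ℕ → ℝ} (hh : ∀ S : ℝ, 0 < S → TestV K S (h S)) :
    CmpG κ c {R} 3 atTop (fun (M : ℕ) S w => psV Pool.Agent.SCF.M.LG M B S (h S) w.get) := by
  intro ε K0 hε hK0 ηf hηf
  obtain ⟨ω2, ω3, ω4, θ, M1, n0, h2, h3, h4, hθ, hc⟩ := cmpU szS_LG hR hK hK0 hε hB ηf hηf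
  refine ⟨{ω2, ω3, ω4}, θ, n0, Finset.card_le_three, ?_, hθ, ?_⟩
  · intro ω hω
    simp only [Finset.mem_insert, Finset.mem_singleton] at hω
    rcases hω with rfl | rfl | rfl <;> assumption
  · filter_upwards [eventually_ge_atTop (max M1 1)] with M hM n n' s s' S hn hn' hS a1 _ b1 _ _ hm hX hd hr _ _ hst
    have e : ∀ {m : ℕ} (t : Fin m → Fin 3), psV Pool.Agent.SCF.M.LG M B S (h S) (List.ofFn t).get =
        psV Pool.Agent.SCF.M.LG M B S (h S) t := fun t => ofg_ofFn (fun n s => psV Pool.Agent.SCF.M.LG M B S (h S) s) t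
    rw [e, e]
    obtain ⟨s1, s2⟩ := hst R (Finset.mem_singleton_self R)
    exact hc n n' s s' S hn hn' hS a1 b1 (hm ω2 (by simp)) (hm ω3 (by simp)) (hm ω4 (by simp)) hX hd hr s1 s2 M
      ((le_max_left _ _).trans hM) ((le_max_right _ _).trans hM) (h S) (hh S hS)

/-- **the arcs of the polygons**: the grid means of the single level gate -/
theorem arcJ_psV (hst : StbPol) {R K κ c0 : ℝ} (hR : 0 < R) (hc : 1010 * R ≤ c0) (hκ : 0 < κ) (hκ1 : κ < 1) (hK : 0 ≤ K)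
    {B : Box} (hB : B.Ok R) {h : ℝ → ∀ n : ℕ, (Fin n → Fin 3) → ℕ → ℝ} (hh : ∀ S : ℝ, 0 < S → TestV K S (h S)) :
    ArcJ atTop fun (M : ℕ) S w => psV Pool.Agent.SCF.M.LG M B S (h S) w.get * zc κ c0 (crv w w.length S) := by
  have hc0 : 0 < c0 := lt_of_lt_of_le (by positivity) hc
  refine arcJ_cmp hst (Rs := {R}) hκ hκ1 hc0 (fun R' h' => ?_) ?_ (cmpG_psV hR hK hB hh)
  · rw [Finset.mem_singleton] at h'
    subst h'
    exact ⟨hR, hc⟩
  · refine Eventually.of_forall fun M S hS w => ?_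
    have h0 : 0 ≤ psV Pool.Agent.SCF.M.LG M B S (h S) w.get := psP_nn fun k => (hh S hS).nn _ _ _
    have h1 : psV Pool.Agent.SCF.M.LG M B S (h S) w.get ≤ 1 := psP_le hB hR.le hS.le fun k => (hh S hS).le _ _ _
    rwa [abs_of_nonneg h0]

/-- the literal of helper16 -/
theorem arcJ_X (hst : StbPol) {R c0 : ℝ} (hR : 0 < R) (hc : 1010 * R ≤ c0) : ∀ (κ : ℝ) (B : Box) (K : ℝ) (H : ℝ × CI → ℝ → ℝ),
    0 < κ → κ < 1 → B.Ok R → 0 ≤ K → TestX K H → ArcJ atTop fun (M : ℕ) S w =>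
      psV Pool.Agent.SCF.M.LG M B S (fun n s k => H (XS S s) ((k : ℝ) / n)) w.get * zc κ c0 (crv w w.length S) :=
  fun κ B K H h1 h2 h3 h4 h5 => arcJ_psV hst hR hc h1 h2 h4 h3 (h := fun S n s k => H (XS S s) ((k : ℝ) / n))
    fun _ _ => testV_X h4 h5

end Pool.Agent.ROT.W4
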