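import Pool.Agent.ROT.W4Pol
import Pool.Agent.MC.Rev
import Pool.Agent.NPR.InitU

/-!
# ROT, row W4 (helper14): middle windows of the open words from beginnings

* `S2T` : the one sided form (85's S2tip): beginnings of the words with exact numbers of letters, the free end is confined;
* **`s2mid_of`** : `S2T` implies `S2H cnf`, the form for middle windows, both free ends confined, parity kept: reversal and the
  second cut.
-/

set_option autoImplicit false

open scoped Classical

namespace Pool.Agent.ROT.W4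

open Finset

open Pool.Agent.PMA Pool.Agent.PMA.Res Pool.Agent.NTS.Res

open HexObs hiding pos turn

open HexObs.SDN HexObs.TS HexObs.TIW HexObs.POLP HexObs.MCP

open NTF (sw aa de Ed JJ)

open NTSF (rot)

open Pool.Agent.IW (rvw rvw_app rvw_mem rvw_rvw split_last)

/-- the vertices up to the number `a` are near the vertex `a` -/
def HdN (R : ℝ) (a : ℕ) (t : List Bool) : Prop := ∀ j, j ≤ a → ‖JJ (vx oo up t j - vx oo up t a)‖ ≤ R

/-- the vertices from the number `k` on are near the vertex `k` -/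
def TpN (R : ℝ) (k : ℕ) (t : List Bool) : Prop := ∀ j, k ≤ j → j ≤ t.length → ‖JJ (vx oo up t j - vx oo up t k)‖ ≤ R

lemma cnfW_eq (R : ℝ) (a l : ℕ) (t : List Bool) : cnfW R a l t = if HdN R a t ∧ TpN R (a + l) t then 1 else 0 := by
  by_cases h : HdN R a t ∧ TpN R (a + l) t
  · rw [if_pos h]
    exact if_pos h
  · rw [if_neg h]
    exact if_neg h

/-- **beginnings of the open words**, exact number of letters; the free end is confined on the right side -/
def S2T : Prop := ∀ ε κ δ : ℝ, 0 < ε → 0 < κ → 0 < δ → ∃ d0 : ℝ, 0 < d0 ∧ ∀ d : ℝ, 0 < d → d ≤ d0 → ∃ (C : ℝ) (n0 : ℕ), 0 < C ∧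
  ∀ n k1 k : ℕ, n0 ≤ n → (k1 : ℝ) + d * n ≤ k → (k : ℝ) ≤ k1 + 2 * (d * n) → (k : ℝ) ≤ (1 - δ) * n →
    ∀ g : List Bool → ℝ, (∀ L, 0 ≤ g L) → (∀ L, g L ≤ 1) → ∀ η : ℝ, 0 ≤ η →
      (∀ m : ℕ, k ≤ m → (m : ℝ) ≤ (1 + d) * k →
        Eu m (fun t => g (t.take k1) * (if TpN (κ * (n : ℝ) ^ (3 / 4 : ℝ)) k1 t then 1 else 0)) ≤ η) →
          Eu n (fun t => g (t.take k1)) ≤ C * η + ε

lemma TpN.mono {R R' : ℝ} (h : R ≤ R') {k : ℕ} {t : List Bool} (ht : TpN R k t) : TpN R' k t :=
  fun j h1 h2 => (ht j h1 h2).trans h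

lemma HdN.mono {R R' : ℝ} (h : R ≤ R') {k : ℕ} {t : List Bool} (ht : HdN R k t) : HdN R' k t :=
  fun j h1 => (ht j h1).trans h

lemma JJ_mul_norm {u : Pt} (hu : nrm u = 1) (p : Pt) : ‖JJ (mulE u p)‖ = ‖JJ p‖ := by
  have h1 := NTF.JJ_norm (mulE u p)
  have h2 := NTF.JJ_norm p
  rw [nrm_mulE, hu, one_mul] at h1
  have h3 : ‖JJ (mulE u p)‖ ^ 2 = ‖JJ p‖ ^ 2 := by rw [h1, h2]
  exact (sq_eq_sq₀ (norm_nonneg _) (norm_nonneg _)).1 h3

lemma JJ_dir {d : Pt} (hd : d ∈ dirs) : ‖JJ d‖ = 1 := by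
  have h := NTF.JJ_norm d
  have h2 : nrm d = 1 := mem_dirs.1 hd
  rw [h2, Int.cast_one] at h
  nlinarith [norm_nonneg (JJ d), sq_nonneg (‖JJ d‖ - 1), sq_nonneg (‖JJ d‖ + 1)]

lemma vx_step (t : List Bool) (j : ℕ) : ‖JJ (vx oo up t (j + 1) - vx oo up t j)‖ = 1 := by
  have e : vx oo up t (j + 1) - vx oo up t j = dx up t j := by
    show vx oo up t j + dx up t j - vx oo up t j = _
    rw [add_sub_cancel_left]
  rw [e]
  exact JJ_dir (dx_mem upd' t j)

lemma JJ_tri (p q r : Pt) : ‖JJ (p - r)‖ ≤ ‖JJ (p - q)‖ + ‖JJ (q - r)‖ := by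
  have e : JJ (p - r) = JJ (p - q) + JJ (q - r) := by
    rw [JJ_sub, JJ_sub, JJ_sub]
    ring
  rw [e]
  exact norm_add_le _ _

lemma JJ_symm (p q : Pt) : ‖JJ (p - q)‖ = ‖JJ (q - p)‖ := by
  rw [JJ_sub, JJ_sub, norm_sub_rev]

/-- the vertices of the reversed word -/
lemma rvw_vx {t : List Bool} {m : ℕ} (hm : 0 < m) (ht : t.length = m) : ∃ u : Pt, nrm u = 1 ∧ ∀ j, j ≤ m →
    vx oo up t (m - j) = vx oo up t m + mulE u (vx oo up (rvw t) j) := by
  obtain ⟨s, b, rfl, hs⟩ := split_last hm ht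
  obtain ⟨u, hu, h⟩ := rev_key s
  refine ⟨u, hu, fun j hj => ?_⟩
  have h1 := h j (by omega)
  have e1 : vx oo up (s ++ [b]) (m - j) = vx oo up s (m - j) := vx_append (by omega)
  have e2 : vx oo up (s ++ [b]) m = vx oo up s (s.length + 1) := by
    rw [← hs]
    exact vx_append le_rfl
  have e3 : vx oo up (rev s ++ [b]) j = vx oo up (rev s) j := vx_append (by rw [rev_length]; omega)
  rw [rvw_app, e1, e2, e3, ← hs]
  exact h1

/-- distances in the reversed word -/
lemma rvw_dist {t : List Bool} {m : ℕ} (hm : 0 < m) (ht : t.length = m) {i j : ℕ} (hi : i ≤ m) (hj : j ≤ m) :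
    ‖JJ (vx oo up (rvw t) i - vx oo up (rvw t) j)‖ = ‖JJ (vx oo up t (m - i) - vx oo up t (m - j))‖ := by
  obtain ⟨u, hu, h⟩ := rvw_vx hm ht
  rw [h i hi, h j hj, add_sub_add_left_eq_sub, ← mulE_sub, JJ_mul_norm hu]

lemma rvw_len {t : List Bool} {m : ℕ} (hm : 0 < m) (ht : t.length = m) : (rvw t).length = m := by
  obtain ⟨s, b, rfl, hs⟩ := split_last hm ht
  rw [rvw_app, List.length_append, rev_length, List.length_singleton, hs]

/-- the window of the reversed word -/
lemma rvw_win {t : List Bool} {m i l : ℕ} (ht : t.length = m) (h : i + l + 1 ≤ m) :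
    ((rvw t).drop i).take l = rev ((t.drop (m - 1 - i - l)).take l) := by
  obtain ⟨s, b, rfl, hs⟩ := split_last (by omega) ht
  have e1 : ((rvw (s ++ [b])).drop i).take l = ((rev s).drop i).take l := by
    rw [rvw_app, List.drop_append_of_le_length (by rw [rev_length]; omega),
      List.take_append_of_le_length (by rw [List.length_drop, rev_length]; omega)]
  have e2 : ((s ++ [b]).drop (m - 1 - i - l)).take l = (s.drop (m - 1 - i - l)).take l := by
    rw [List.drop_append_of_le_length (by omega), List.take_append_of_le_length (by rw [List.length_drop]; omega)]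
  rw [e1, e2]
  have h1 := NPR.rev_drop s (x := m - 1 - i - l) (by omega)
  have h2 := NPR.rev_take (s.drop (m - 1 - i - l)) (y := l) (by rw [List.length_drop]; omega)
  rw [h2, h1, List.length_drop, List.drop_take]
  congr 1
  · omega
  · congr 1
    omega

/-- the mean does not change under the reversal -/
lemma Eu_rvw (n : ℕ) (F : List Bool → ℝ) : Eu n (fun t => F (rvw t)) = Eu n F := by
  unfold Eu
  rw [sum_rvw]

lemma Eu_mono' {n : ℕ} {F G : List Bool → ℝ} (h : ∀ t, t.length = n → F t ≤ G t) : Eu n F ≤ Eu n G := by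
  unfold Eu
  refine div_le_div_of_nonneg_right (sum_le_sum fun t ht => h t (mem_sawF.1 ht).1) (cS0 n).le

/-- the tail of a word: distances -/
lemma tail_dist (t : List Bool) (i j : ℕ) :
    ‖JJ (vx oo up t.tail i - vx oo up t.tail j)‖ = ‖JJ (vx oo up t (i + 1) - vx oo up t (j + 1))‖ := by
  obtain ⟨c, hc, -, h3⟩ := drop_frame' t 1
  have e : ∀ i, vx oo up t (i + 1) = vx oo up t 1 + mulE c (vx oo up t.tail i) := by
    intro i
    rw [add_comm i 1, h3, List.drop_one]
  rw [e i, e j, add_sub_add_left_eq_sub, ← mulE_sub, JJ_mul_norm (mem_dirs.1 hc)]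

lemma vx_take {t : List Bool} {K j : ℕ} (hK : K ≤ t.length) (hj : j ≤ K + 1) : vx oo up (t.take K) j = vx oo up t j := by
  conv_rhs => rw [← List.take_append_drop K t]
  rw [vx_append]
  rw [List.length_take]
  omega

lemma HdN_take {R : ℝ} {a K : ℕ} {t : List Bool} (hK : K ≤ t.length) (ha : a ≤ K) : HdN R a (t.take K) ↔ HdN R a t := by
  unfold HdN
  refine forall_congr' fun j => imp_congr_right fun hj => ?_
  rw [vx_take hK (by omega), vx_take hK (by omega)]

/-- the free end becomes the beginning -/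
lemma hd_of_tp {R : ℝ} {t : List Bool} {m k : ℕ} (hk : k < m) (ht : t.length = m) (h : TpN R k (rvw t)) :
    HdN (2 * R) (m - 1 - k) t := by
  have hm : 0 < m := by omega
  have key : ∀ j, j ≤ m - k → ‖JJ (vx oo up t j - vx oo up t (m - k))‖ ≤ R := by
    intro j hj
    have h1 := h (m - j) (by omega) (by rw [rvw_len hm ht]; omega)
    rw [rvw_dist hm ht (by omega) (by omega), show m - (m - j) = j by omega] at h1
    exact h1
  intro j hj
  have h1 := key j (by omega)
  have h2 := key (m - 1 - k) (by omega)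
  rw [JJ_symm] at h2
  have := JJ_tri (vx oo up t j) (vx oo up t (m - k)) (vx oo up t (m - 1 - k))
  linarith

/-- the beginning becomes the free end -/
lemma tp_of_hd {R : ℝ} {t : List Bool} {m i : ℕ} (hi : i < m) (ht : t.length = m) (h : HdN R i (rvw t)) :
    TpN (R + 1) (m - 1 - i) t := by
  have hm : 0 < m := by omega
  have key : ∀ j, m - i ≤ j → j ≤ m → ‖JJ (vx oo up t j - vx oo up t (m - i))‖ ≤ R := by
    intro j hj hj2
    have h1 := h (m - j) (by omega)
    rw [rvw_dist hm ht (by omega) (by omega), show m - (m - j) = j by omega] at h1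
    exact h1
  have h3 := vx_step t (m - 1 - i)
  rw [show m - 1 - i + 1 = m - i by omega] at h3
  intro j hj hj2
  rcases Nat.lt_or_ge j (m - i) with h4 | h4
  · have e : j = m - 1 - i := by omega
    rw [e, JJ_sub, sub_self, norm_zero]
    have := key (m - i) le_rfl (by omega)
    have := norm_nonneg (JJ (vx oo up t (m - i) - vx oo up t (m - i)))
    linarith
  · have h1 := key j h4 (by omega)
    have := JJ_tri (vx oo up t j) (vx oo up t (m - i)) (vx oo up t (m - 1 - i))
    linarith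

/-- one letter less at the start -/
lemma cnfW_tail {R : ℝ} {a l k : ℕ} {t : List Bool} (ht : t.length = k + 1) (h : HdN R (a + 1) t)
    (h' : TpN R (a + 1 + l) t) : HdN R a t.tail ∧ TpN R (a + l) t.tail := by
  have hl : t.tail.length = k := by
    rw [List.length_tail, ht, Nat.add_sub_cancel]
  constructor
  · intro j hj
    rw [tail_dist]
    exact h (j + 1) (by omega)
  · intro j hj hj2
    rw [hl] at hj2
    rw [tail_dist, show a + l + 1 = a + 1 + l by ring]
    exact h' (j + 1) (by omega) (by omega)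

/-- **the second cut**: from the beginnings of the reversed words to the middle windows -/
theorem s2mid_of (hT : S2T) {κ dt : ℝ} (hκ : 0 < κ) (hdt : 0 < dt) {ε δ : ℝ} (hε : 0 < ε) (hδ : 0 < δ) :
    S2H (fun n a l t => cnfW (κ * (n : ℝ) ^ (3 / 4 : ℝ)) a l t) ε δ dt := by
  -- the constants
  obtain ⟨κ1, hκ1⟩ : ∃ κ1 : ℝ, κ1 = κ / 16 := ⟨_, rfl⟩
  have hκ10 : 0 < κ1 := by
    rw [hκ1]
    positivity
  obtain ⟨d0, hd0, hA⟩ := hT (ε / 2) κ1 (δ / 2) (by positivity) hκ10 (by positivity)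
  obtain ⟨d, hd⟩ : ∃ d : ℝ, d = min d0 (min (dt / 3) (min (δ / 4) (1 / 4))) := ⟨_, rfl⟩
  have hdp : 0 < d := by
    rw [hd]
    positivity
  have hd1 : d ≤ d0 := by
    rw [hd]
    exact min_le_left _ _
  have hd2 : d ≤ dt / 3 := by
    rw [hd]
    exact (min_le_right _ _).trans (min_le_left _ _)
  have hd3 : d ≤ δ / 4 := by
    rw [hd]
    exact (min_le_right _ _).trans ((min_le_right _ _).trans (min_le_left _ _))
  have hd4 : d ≤ 1 / 4 := by
    rw [hd]
    exact (min_le_right _ _).trans ((min_le_right _ _).trans (min_le_right _ _))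
  obtain ⟨C1, n1, hC1, hA⟩ := hA d hdp hd1
  obtain ⟨e0, he0, hB⟩ := hT (ε / (2 * C1)) κ1 (δ / 4) (by positivity) hκ10 (by positivity)
  obtain ⟨e, he⟩ : ∃ e : ℝ, e = min e0 (min (dt / 6) (min (δ / 4) (1 / 4))) := ⟨_, rfl⟩
  have hep : 0 < e := by
    rw [he]
    positivity
  have he1 : e ≤ e0 := by
    rw [he]
    exact min_le_left _ _
  have he2 : e ≤ dt / 6 := by
    rw [he]
    exact (min_le_right _ _).trans (min_le_left _ _)
  have he3 : e ≤ δ / 4 := by
    rw [he]
    exact (min_le_right _ _).trans ((min_le_right _ _).trans (min_le_left _ _))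
  have he4 : e ≤ 1 / 4 := by
    rw [he]
    exact (min_le_right _ _).trans ((min_le_right _ _).trans (min_le_right _ _))
  obtain ⟨C2, n2, hC2, hB⟩ := hB e hep he1
  obtain ⟨C3, hC3, hnx⟩ := F3.cS_next
  obtain ⟨θ, hθ⟩ : ∃ θ : ℝ, θ = min (d * δ) (e * δ / 2) := ⟨_, rfl⟩
  have hθ0 : 0 < θ := by
    rw [hθ]
    positivity
  have hθ1 : θ ≤ d * δ := by
    rw [hθ]
    exact min_le_left _ _
  have hθ2 : θ ≤ e * δ / 2 := by
    rw [hθ]
    exact min_le_right _ _
  obtain ⟨n3, hn3⟩ : ∃ n3 : ℕ, ∀ n : ℕ, n3 ≤ n → 2 / κ ≤ (n : ℝ) ^ (3 / 4 : ℝ) := by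
    have h := (tendsto_rpow_atTop (show (0 : ℝ) < 3 / 4 by norm_num)).comp (tendsto_natCast_atTop_atTop (R := ℝ))
    obtain ⟨n3, h3⟩ := (Filter.tendsto_atTop_atTop.1 h) (2 / κ)
    exact ⟨n3, h3⟩
  obtain ⟨Λ, hΛ⟩ : ∃ Λ : ℕ, Λ = ⌈((n1 : ℝ) + n2 + 4) / δ⌉₊ + ⌈4 / (d * δ)⌉₊ + ⌈4 / (e * δ)⌉₊ + ⌈4 / (δ * δ)⌉₊ := ⟨_, rfl⟩
  refine ⟨θ, C1 * C2 * (1 + 2 * C3), n3 + Λ + 4, hθ0, by positivity, fun n N i l hn hN hi hil g g0 g1 η hη hyp => ?_⟩
  have hnΛ : (Λ : ℝ) ≤ n := by exact_mod_cast (by omega : Λ ≤ n)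
  have q1 : ((n1 : ℝ) + n2 + 4) ≤ δ * n := by
    have h1 := Nat.le_ceil (((n1 : ℝ) + n2 + 4) / δ)
    have h2 : ((⌈((n1 : ℝ) + n2 + 4) / δ⌉₊ : ℕ) : ℝ) ≤ Λ := Nat.cast_le.2 (by omega)
    have h3 := (h1.trans h2).trans hnΛ
    rw [div_le_iff₀ hδ] at h3
    linarith
  have q2 : 4 ≤ d * δ * n := by
    have h1 := Nat.le_ceil (4 / (d * δ))
    have h2 : ((⌈4 / (d * δ)⌉₊ : ℕ) : ℝ) ≤ Λ := Nat.cast_le.2 (by omega)
    have h3 := (h1.trans h2).trans hnΛ
    rw [div_le_iff₀ (by positivity)] at h3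
    linarith
  have q3 : 4 ≤ e * δ * n := by
    have h1 := Nat.le_ceil (4 / (e * δ))
    have h2 : ((⌈4 / (e * δ)⌉₊ : ℕ) : ℝ) ≤ Λ := Nat.cast_le.2 (by omega)
    have h3 := (h1.trans h2).trans hnΛ
    rw [div_le_iff₀ (by positivity)] at h3
    linarith
  have q4 : 4 ≤ δ * δ * n := by
    have h1 := Nat.le_ceil (4 / (δ * δ))
    have h2 : ((⌈4 / (δ * δ)⌉₊ : ℕ) : ℝ) ≤ Λ := Nat.cast_le.2 (by omega)
    have h3 := (h1.trans h2).trans hnΛ
    rw [div_le_iff₀ (by positivity)] at h3
    linarith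
  have hNn : (N : ℝ) ≤ n := by exact_mod_cast hN
  have l0 : (0 : ℝ) ≤ l := Nat.cast_nonneg l
  have hNδ : δ * n ≤ N := by nlinarith [mul_nonneg hδ.le (Nat.cast_nonneg (α := ℝ) n)]
  have hn0 : (0 : ℝ) < n := by
    by_contra hc
    have h1 : (n : ℝ) = 0 := le_antisymm (not_lt.1 hc) (Nat.cast_nonneg n)
    rw [h1] at q1
    have := Nat.cast_nonneg (α := ℝ) n1
    have := Nat.cast_nonneg (α := ℝ) n2
    linarith
  have hN0 : (0 : ℝ) < N := lt_of_lt_of_le (by positivity) hNδ
  have hdN : 4 ≤ d * N := by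
    have := mul_le_mul_of_nonneg_left hNδ hdp.le
    linarith
  have hdNn : d * N ≤ d * n := mul_le_mul_of_nonneg_left hNn hdp.le
  have hdN4 : d * N ≤ δ / 4 * N := mul_le_mul_of_nonneg_right hd3 hN0.le
  have hδN : δ * N ≤ δ * n := mul_le_mul_of_nonneg_left hNn hδ.le
  have hdNq : d * N ≤ 1 / 4 * N := mul_le_mul_of_nonneg_right hd4 hN0.le
  -- the first cut
  obtain ⟨k1, hk1⟩ : ∃ k1 : ℕ, k1 = i + l := ⟨_, rfl⟩
  obtain ⟨c1, hc1⟩ : ∃ c1 : ℕ, c1 = ⌈d * N⌉₊ := ⟨_, rfl⟩
  have c1a : d * N ≤ c1 := by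
    rw [hc1]
    exact Nat.le_ceil _
  have c1b : (c1 : ℝ) ≤ d * N + 1 := by
    rw [hc1]
    exact (Nat.ceil_lt_add_one (by positivity)).le
  have hk1r : (k1 : ℝ) = i + l := by
    rw [hk1]
    push_cast
    ring
  obtain ⟨k, hk⟩ : ∃ k : ℕ, k = k1 + c1 := ⟨_, rfl⟩
  have hkr : (k : ℝ) = k1 + c1 := by
    rw [hk]
    push_cast
    ring
  have hkN : (k : ℝ) ≤ (1 - δ / 2) * N := by
    have : δ / 4 * N + 1 ≤ δ / 2 * N := by
      have h1 := mul_le_mul_of_nonneg_left hNδ (show (0 : ℝ) ≤ δ / 4 by positivity)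
      linarith
    linarith
  have n1N : n1 ≤ N := by
    have : (n1 : ℝ) ≤ N := by
      have := Nat.cast_nonneg (α := ℝ) n2
      linarith
    exact_mod_cast this
  obtain ⟨R1, hR1⟩ : ∃ R1 : ℝ, R1 = κ1 * (N : ℝ) ^ (3 / 4 : ℝ) := ⟨_, rfl⟩
  obtain ⟨R3, hR3⟩ : ∃ R3 : ℝ, R3 = κ * (n : ℝ) ^ (3 / 4 : ℝ) := ⟨_, rfl⟩
  have hpn := hn3 n (by omega)
  have hR3a : 2 ≤ R3 := by
    rw [hR3]
    rw [div_le_iff₀ hκ] at hpn
    linarith
  have hR1a : 2 * R1 + 1 ≤ R3 := by
    have h1 : (N : ℝ) ^ (3 / 4 : ℝ) ≤ (n : ℝ) ^ (3 / 4 : ℝ) := Real.rpow_le_rpow hN0.le hNn (by norm_num)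
    have h2 : R1 ≤ κ / 16 * (n : ℝ) ^ (3 / 4 : ℝ) := by
      rw [hR1, hκ1]
      exact mul_le_mul_of_nonneg_left h1 (by positivity)
    have h3 : κ / 16 * (n : ℝ) ^ (3 / 4 : ℝ) = R3 / 16 := by
      rw [hR3]
      ring
    linarith
  have hmain : ∀ m : ℕ, k ≤ m → (m : ℝ) ≤ (1 + d) * k →
      Eu m (fun t => (fun L : List Bool => g (L.drop i)) (t.take k1) * (if TpN R1 k1 t then 1 else 0)) ≤
        C2 * ((1 + 2 * C3) * η) + ε / (2 * C1) := by
    intro m hm1 hm2
    have hkN' : (k : ℝ) ≤ N := by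
      have : 0 ≤ δ / 2 * N := by positivity
      linarith
    have hdk : d * k ≤ d * N := mul_le_mul_of_nonneg_left hkN' hdp.le
    have hmk1 : (m : ℝ) ≤ k1 + 3 * (d * N) := by
      linarith
    have hmk : (k : ℝ) ≤ m := by exact_mod_cast hm1
    have hm2n : (m : ℝ) ≤ 2 * n := by linarith
    have hmδ : δ * n ≤ m := by linarith [Nat.cast_nonneg (α := ℝ) c1]
    have hm0 : (0 : ℝ) < m := lt_of_lt_of_le (by positivity) hmδ
    have hk1m : k1 < m := by
      have : (k1 : ℝ) < m := by linarith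
      exact_mod_cast this
    obtain ⟨i', hi'⟩ : ∃ i' : ℕ, i' = m - 1 - k1 := ⟨_, rfl⟩
    have hi'm : m = i' + 1 + k1 := by omega
    have hi'r : (m : ℝ) = i' + 1 + k1 := by
      rw [hi'm]
      push_cast
      ring
    -- reversal
    have hrev : Eu m (fun t => (fun L : List Bool => g (L.drop i)) (t.take k1) * (if TpN R1 k1 t then 1 else 0)) ≤
        Eu m (fun t => (fun L : List Bool => g (rev (L.drop i')) * (if HdN (2 * R1) i' L then 1 else 0)) (t.take (i' + l))) := by
      rw [← Eu_rvw]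
      refine Eu_mono' fun t ht => ?_
      show g (((rvw t).take k1).drop i) * (if TpN R1 k1 (rvw t) then 1 else 0) ≤
        g (rev ((t.take (i' + l)).drop i')) * (if HdN (2 * R1) i' (t.take (i' + l)) then 1 else 0)
      have e1 : ((rvw t).take k1).drop i = rev ((t.drop i').take l) := by
        rw [List.drop_take, hk1, Nat.add_sub_cancel_left, rvw_win ht (by omega)]
        congr 3
        omega
      have e2 : (t.take (i' + l)).drop i' = (t.drop i').take l := by
        rw [List.drop_take, Nat.add_sub_cancel_left]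
      rw [e1, e2]
      refine mul_le_mul_of_nonneg_left ?_ (g0 _)
      by_cases h : TpN R1 k1 (rvw t)
      · have h2 := hd_of_tp hk1m ht h
        rw [← hi'] at h2
        rw [if_pos h, if_pos ((HdN_take (by omega) (by omega)).2 h2)]
      · rw [if_neg h]
        split_ifs <;> norm_num
    refine hrev.trans ?_
    -- the second cut
    obtain ⟨k1', hk1'⟩ : ∃ k1' : ℕ, k1' = i' + l := ⟨_, rfl⟩
    rw [← hk1']
    obtain ⟨c2, hc2⟩ : ∃ c2 : ℕ, c2 = ⌈e * m⌉₊ := ⟨_, rfl⟩
    have hem : 4 ≤ e * m := by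
      have := mul_le_mul_of_nonneg_left hmδ hep.le
      linarith
    have c2a : e * m ≤ c2 := by
      rw [hc2]
      exact Nat.le_ceil _
    have c2b : (c2 : ℝ) ≤ e * m + 1 := by
      rw [hc2]
      exact (Nat.ceil_lt_add_one (by positivity)).le
    obtain ⟨k', hk'⟩ : ∃ k' : ℕ, k' = k1' + c2 := ⟨_, rfl⟩
    have hk1'r : (k1' : ℝ) = i' + l := by
      rw [hk1']
      push_cast
      ring
    have hk'r : (k' : ℝ) = k1' + c2 := by
      rw [hk']
      push_cast
      ring
    have hmi : (m : ℝ) = k1' + 1 + i := by linarith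
    have hemn : e * m ≤ δ / 4 * m := mul_le_mul_of_nonneg_right he3 hm0.le
    have hδm : δ / 2 * m ≤ δ * n := by
      have := mul_le_mul_of_nonneg_left hm2n (show (0 : ℝ) ≤ δ / 2 by positivity)
      linarith
    have hk'm : (k' : ℝ) ≤ (1 - δ / 4) * m := by linarith
    have n2m : n2 ≤ m := by
      have : (n2 : ℝ) ≤ m := by
        have := Nat.cast_nonneg (α := ℝ) n1
        linarith
      exact_mod_cast this
    obtain ⟨R2, hR2⟩ : ∃ R2 : ℝ, R2 = κ1 * (m : ℝ) ^ (3 / 4 : ℝ) := ⟨_, rfl⟩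
    have hR2a : 2 * R2 ≤ R3 := by
      have h1 : (m : ℝ) ^ (3 / 4 : ℝ) ≤ 2 * (n : ℝ) ^ (3 / 4 : ℝ) := by
        calc (m : ℝ) ^ (3 / 4 : ℝ) ≤ (2 * n : ℝ) ^ (3 / 4 : ℝ) := Real.rpow_le_rpow hm0.le hm2n (by norm_num)
          _ = (2 : ℝ) ^ (3 / 4 : ℝ) * (n : ℝ) ^ (3 / 4 : ℝ) := Real.mul_rpow (by norm_num) hn0.le
          _ ≤ 2 * (n : ℝ) ^ (3 / 4 : ℝ) := by
              refine mul_le_mul_of_nonneg_right ?_ (by positivity)
              calc (2 : ℝ) ^ (3 / 4 : ℝ) ≤ (2 : ℝ) ^ (1 : ℝ) :=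
                    Real.rpow_le_rpow_of_exponent_le (by norm_num) (by norm_num)
                _ = 2 := Real.rpow_one _
      have h2 : R2 ≤ κ / 16 * (2 * (n : ℝ) ^ (3 / 4 : ℝ)) := by
        rw [hR2, hκ1]
        exact mul_le_mul_of_nonneg_left h1 (by positivity)
      have h3 : κ / 16 * (2 * (n : ℝ) ^ (3 / 4 : ℝ)) = R3 / 8 := by
        rw [hR3]
        ring
      linarith
    have hkey := hB m k1' k' n2m (by rw [hk'r]; linarith) (by rw [hk'r]; linarith) hk'm
      (fun L => g (rev (L.drop i')) * (if HdN (2 * R1) i' L then 1 else 0))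
      (fun L => mul_nonneg (g0 _) (by split_ifs <;> norm_num))
      (fun L => by
        split_ifs
        · rw [mul_one]
          exact g1 _
        · rw [mul_zero]
          norm_num) ((1 + 2 * C3) * η) (by positivity) (by
      intro m' hm'1 hm'2
      rw [← hR2]
      have hk'm' : (k' : ℝ) ≤ m := by
        have : 0 ≤ δ / 4 * m := by positivity
        linarith
      have hek : e * k' ≤ e * m := mul_le_mul_of_nonneg_left hk'm' hep.le
      have hm'k : (k' : ℝ) ≤ m' := by exact_mod_cast hm'1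
      have hm'k1 : (m' : ℝ) ≤ k1' + 3 * (e * m) := by linarith
      have hk1'm : k1' < m' := by
        have : (k1' : ℝ) < m' := by linarith
        exact_mod_cast this
      obtain ⟨a, ha⟩ : ∃ a : ℕ, a = m' - 1 - k1' := ⟨_, rfl⟩
      have ham : m' = a + l + (i' + 1) := by omega
      have har : (m' : ℝ) = a + 1 + k1' := by
        have : m' = a + 1 + k1' := by omega
        rw [this]
        push_cast
        ring
      have a1 : e * m - 1 ≤ a := by linarith
      have a2 : (a : ℝ) ≤ 3 * (e * m) := by linarith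
      have hemδ : e * (δ * n) ≤ e * m := mul_le_mul_of_nonneg_left hmδ hep.le
      have hθn2 : θ * n ≤ e * δ / 2 * n := mul_le_mul_of_nonneg_right hθ2 hn0.le
      have hθn1 : θ * n ≤ d * δ * n := mul_le_mul_of_nonneg_right hθ1 hn0.le
      have a3 : θ * n + 1 ≤ a := by linarith
      have a4 : (a : ℝ) ≤ dt * n := by
        have h1 : e * m ≤ dt / 6 * (2 * n) := by
          calc e * m ≤ dt / 6 * m := mul_le_mul_of_nonneg_right he2 hm0.le
            _ ≤ _ := mul_le_mul_of_nonneg_left hm2n (by positivity)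
        linarith
      have b1 : θ * n ≤ ((i' + 1 : ℕ) : ℝ) := by
        push_cast
        have := mul_le_mul_of_nonneg_left hNδ hdp.le
        linarith
      have b2 : ((i' + 1 : ℕ) : ℝ) ≤ dt * n := by
        push_cast
        have h1 : d * n ≤ dt / 3 * n := mul_le_mul_of_nonneg_right hd2 hn0.le
        linarith
      -- reversal
      have hrev2 : Eu m' (fun t => (fun L : List Bool => g (rev (L.drop i')) * (if HdN (2 * R1) i' L then 1 else 0)) (t.take k1') *
          (if TpN R2 k1' t then 1 else 0)) ≤ Eu m' (fun t => g ((t.drop a).take l) * cnfW R3 a l t) := by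
        rw [← Eu_rvw]
        refine Eu_mono' fun t ht => ?_
        show g (rev (((rvw t).take k1').drop i')) * (if HdN (2 * R1) i' ((rvw t).take k1') then 1 else 0) *
          (if TpN R2 k1' (rvw t) then 1 else 0) ≤ g ((t.drop a).take l) * cnfW R3 a l t
        have hm'0 : 0 < m' := by omega
        have hlr := rvw_len hm'0 ht
        have e1 : rev (((rvw t).take k1').drop i') = (t.drop a).take l := by
          rw [List.drop_take, hk1', Nat.add_sub_cancel_left, rvw_win ht (by omega), rev_rev]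
          congr 2
          omega
        rw [e1, mul_assoc, cnfW_eq]
        refine mul_le_mul_of_nonneg_left ?_ (g0 _)
        by_cases h : HdN (2 * R1) i' ((rvw t).take k1')
        · by_cases h' : TpN R2 k1' (rvw t)
          · have h2 := hd_of_tp hk1'm ht h'
            rw [← ha] at h2
            have h3 := tp_of_hd (by omega) ht ((HdN_take (by rw [hlr]; omega) (by omega)).1 h)
            rw [show m' - 1 - i' = a + l by omega] at h3
            rw [if_pos h, if_pos h', if_pos ⟨h2.mono hR2a, h3.mono hR1a⟩, mul_one]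
          · rw [if_neg h', mul_zero]
            split_ifs <;> norm_num
        · rw [if_neg h, zero_mul]
          split_ifs <;> norm_num
      refine hrev2.trans ?_
      have hη3 : 0 ≤ 2 * C3 * η := by positivity
      by_cases hpar : Even a ↔ Even i
      · have h1 := hyp a (i' + 1) (by linarith) a4 b1 b2 hpar
        beta_reduce at h1
        rw [← hR3, ← ham] at h1
        linarith
      · -- one letter less
        obtain ⟨a', ha'⟩ : ∃ a', a = a' + 1 := ⟨a - 1, by
          have : (0 : ℝ) < a := by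
            have : 0 ≤ θ * n := by positivity
            linarith
          have : 0 < a := by exact_mod_cast this
          omega⟩
        obtain ⟨p, hp⟩ : ∃ p, m' = p + 1 := ⟨m' - 1, by omega⟩
        have hpar' : Even a' ↔ Even i := by
          rw [ha', Nat.even_add_one] at hpar
          tauto
        have ha'r : (a : ℝ) = a' + 1 := by
          rw [ha']
          push_cast
          ring
        have h1 := hyp a' (i' + 1) (by linarith) (by linarith) b1 b2 hpar'
        beta_reduce at h1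
        rw [← hR3, show a' + l + (i' + 1) = p by omega] at h1
        have h2 : ∀ t : List Bool, t ∈ sawF m' → g ((t.drop a).take l) * cnfW R3 a l t ≤
            g ((t.tail.drop a').take l) * cnfW R3 a' l t.tail := by
          intro t ht
          have hl : t.length = p + 1 := by
            rw [← hp]
            exact (mem_sawF.1 ht).1
          have e1 : t.drop a = t.tail.drop a' := by
            rw [← List.drop_one, List.drop_drop, ha', add_comm]
          rw [e1, cnfW_eq, cnfW_eq]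
          refine mul_le_mul_of_nonneg_left ?_ (g0 _)
          by_cases h : HdN R3 a t ∧ TpN R3 (a + l) t
          · rw [ha'] at h
            have h3 := cnfW_tail hl h.1 h.2
            rw [if_pos h3]
            split_ifs <;> norm_num
          · rw [if_neg h]
            split_ifs <;> norm_num
        have h3 := sum_le_sum h2
        rw [hp] at h3
        have h4 := F3.sum_tail (f := fun t => g ((t.drop a').take l) * cnfW R3 a' l t) (fun L => by
          rw [cnfW_eq]
          exact mul_nonneg (g0 _) (by split_ifs <;> norm_num)) p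
        have h5 := sum_le_Eu h1
        rw [SLW.card_sawF] at h5
        have hp1 : 1 ≤ p := by omega
        have h6 := hnx p hp1
        have h7 : η * cS p ≤ η * (C3 * cS (p + 1)) := mul_le_mul_of_nonneg_left h6 hη
        unfold Eu
        rw [hp, div_le_iff₀ (cS0 _)]
        have h8 : 0 ≤ η * cS (p + 1) := mul_nonneg hη (cS0 _).le
        have h9 : (1 + 2 * C3) * η * cS (p + 1) = η * cS (p + 1) + 2 * (η * (C3 * cS (p + 1))) := by ring
        rw [h9]
        exact (h3.trans h4).trans (by linarith only [h5, h7, h8]))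
    linarith
  have hfin := hA N k1 k n1N (by rw [hkr]; linarith) (by rw [hkr]; linarith) hkN (fun L => g (L.drop i)) (fun L => g0 _) (fun L => g1 _)
    (C2 * ((1 + 2 * C3) * η) + ε / (2 * C1)) (by positivity) (by rw [← hR1]; exact hmain)
  have e1 : (fun t : List Bool => (fun L : List Bool => g (L.drop i)) (t.take k1)) = fun t => g ((t.drop i).take l) := by
    funext t
    show g ((t.take k1).drop i) = _
    rw [List.drop_take, hk1, Nat.add_sub_cancel_left]
  rw [e1] at hfin
  calc _ ≤ _ := hfin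
    _ = C1 * C2 * (1 + 2 * C3) * η + (C1 * (ε / (2 * C1)) + ε / 2) := by ring
    _ = _ := by
        field_simp
        ring

end Pool.Agent.ROT.W4
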