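import Pool.Agent.ROT.W4J
import Pool.Agent.ROT.F3SysV
import Pool.Agent.ROT.F3Gen
import Pool.Agent.ROT.F3LimF

/-!
# ROT, row W4 (helper16): the functionals of the arcs in the system of the closed words with two roots

* **`mac_sys`** : from `ArcJ` (one arc, one number of steps) to the measures `mwE N b`: a finite product of functionals of the arcs is,
  up to `ε` in `L¹(mwE N b)`, a Lipschitz functional of `cN N`, constant uniform in `N` and in the family;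
* **`arc_l1a`**, **`arcs_l1a`** : along an ultrafilter they are macroscopic (`L1A` of F3Gen, `LF.L1A` of F3LimF);
* `root_one` : one number of steps, one or more arcs, functional of the closed curve only.
-/

set_option autoImplicit false

open Filter MeasureTheory Topology

open scoped NNReal BoundedContinuousFunction

namespace Pool.Agent.ROT.F3

open Pool.Agent.NTS.Res (step pos saw fug size curve)
open Pool.Agent.PMA.Res (pol)
open Pool.Agent.ROT.F (QB)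

variable {α : Type*}

/-- **the products over the arcs, in the system of the closed words with two roots** -/
theorem mac_sys (hQ : QB) {ι : Type*} (J : Finset ι) (k : ι → Arm) {l : Filter α} {G : ι → α → ℝ → W3 → ℝ}
    (hG : ∀ᶠ a in l, ∀ i ∈ J, ∀ S : ℝ, 0 < S → ∀ w, |G i a S w| ≤ 1) (h : ∀ i ∈ J, ArcJ l (G i)) {b : ℝ} (hb : 0 ≤ b) :
    ∀ ε : ℝ, 0 < ε → ∃ (K : ℝ≥0) (N0 : ℕ), ∀ᶠ a in l, ∀ N : ℕ, N0 ≤ N → ∃ Φ : ℝ × ℝ × C(unitInterval, ℂ) → ℝ,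
      LipschitzWith K Φ ∧ (∀ x, |Φ x| ≤ 1) ∧
        ∫ x, |∏ i ∈ J, G i a N (arcw x.2 (k i) x.1) - Φ (cN N x)| ∂(mwE N b) ≤ ε := by
  intro ε hε
  obtain ⟨δ, K0, ε', hδ, hK0, hε', hsum⟩ := mwE_sum hQ (b := b) (ε := ε / 2) hb (by positivity)
  obtain ⟨K, n0, hm⟩ := macJ J k hG h (2 * ε') δ K0 (by positivity) hδ hK0
  obtain ⟨N0, hN0⟩ := hsum n0
  refine ⟨K, max N0 1, ?_⟩
  filter_upwards [hm, hG] with a ha hGa N hN
  have hN1 : 1 ≤ N := (le_max_right _ _).trans hN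
  have hNp : (0 : ℝ) < N := by exact_mod_cast hN1
  obtain ⟨Φ, h1, h2, h3⟩ := ha N hNp
  refine ⟨Φ, h1, h2, ?_⟩
  have hP : ∀ x : W3 × ℕ, |∏ i ∈ J, G i a N (arcw x.2 (k i) x.1)| ≤ 1 := fun x => by
    rw [Finset.abs_prod]
    exact Finset.prod_le_one (fun i _ => abs_nonneg _) fun i hi => hGa i hi N hNp _
  have h4 := hN0 N ((le_max_left _ _).trans hN) (fun x => 1 / 2 * |∏ i ∈ J, G i a N (arcw x.2 (k i) x.1) - Φ (cN N x)|) (fun x => by
    have a1 := abs_sub (∏ i ∈ J, G i a N (arcw x.2 (k i) x.1)) (Φ (cN N x))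
    have a2 := hP x
    have a3 := h2 (cN N x)
    show 1 / 2 * |∏ i ∈ J, G i a N (arcw x.2 (k i) x.1) - Φ (cN N x)| ≤ 1
    linarith) (fun n hn ho b1 b2 m m1 m2 he => by
    have h5 := h3 n m hn ho he m1 m2 b1 b2
    have e : ∀ s ∈ pol n, (1 : ℝ) / 2 * |∏ i ∈ J, G i a N (arcw m (k i) (clw s)) - Φ (cN N (clw s, m))| =
        1 / 2 * |∏ i ∈ J, G i a N (arcw m (k i) (clw s)) - Φ (((n + 1 : ℕ) : ℝ) / (N : ℝ) ^ (4 / 3 : ℝ),
          (m : ℝ) / (N : ℝ) ^ (4 / 3 : ℝ), crv (clw s) (n + 1) N)| := by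
      intro s _
      unfold cN
      rw [length_clw]
    show ∑ s ∈ pol n, (1 : ℝ) / 2 * |∏ i ∈ J, G i a N (arcw m (k i) (clw s)) - Φ (cN N (clw s, m))| ≤ _
    rw [Finset.sum_congr rfl e, ← Finset.mul_sum]
    linarith)
  rw [integral_const_mul] at h4
  linarith

/-- **macroscopic functionals**: the products over the arcs, along an ultrafilter (`L1A` of F3Gen) -/
theorem arcs_l1a (hQ : QB) {ι : Type*} (J : Finset ι) (k : ι → Arm) {l : Filter α} {G : ι → α → ℝ → W3 → ℝ}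
    (hG : ∀ᶠ a in l, ∀ i ∈ J, ∀ S : ℝ, 0 < S → ∀ w, |G i a S w| ≤ 1) (h : ∀ i ∈ J, ArcJ l (G i)) {b : ℝ} (hb : 0 ≤ b)
    (U : Ultrafilter ℕ) (hU : (U : Filter ℕ) ≤ atTop) {a : ℕ → α} (ha : Tendsto a U l)
    (hbd : ∀ N : ℕ, ∀ i ∈ J, ∀ w, |G i (a N) N w| ≤ 1) :
    L1A (U : Filter ℕ) (fun N => mwE N b) cN fun N x => ∏ i ∈ J, G i (a N) N (arcw x.2 (k i) x.1) := by
  refine ⟨⟨1, fun N x => ?_⟩, fun ε hε => ?_⟩
  · rw [Finset.abs_prod]
    exact Finset.prod_le_one (fun i _ => abs_nonneg _) fun i hi => hbd N i hi _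
  obtain ⟨K, N0, h1⟩ := mac_sys hQ J k hG h hb (ε / 2) (by positivity)
  have h2 := ha.eventually h1
  have h3 : ∀ᶠ N : ℕ in U, N0 ≤ N := hU (eventually_ge_atTop N0)
  -- the functionals
  have hex : ∀ N : ℕ, ∃ Φ : ℝ × ℝ × C(unitInterval, ℂ) → ℝ, LipschitzWith K Φ ∧ (∀ x, |Φ x| ≤ 1) ∧
      ((∃ Φ' : ℝ × ℝ × C(unitInterval, ℂ) → ℝ, LipschitzWith K Φ' ∧ (∀ x, |Φ' x| ≤ 1) ∧
        ∫ x, |∏ i ∈ J, G i (a N) N (arcw x.2 (k i) x.1) - Φ' (cN N x)| ∂(mwE N b) ≤ ε / 2) →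
        ∫ x, |∏ i ∈ J, G i (a N) N (arcw x.2 (k i) x.1) - Φ (cN N x)| ∂(mwE N b) ≤ ε / 2) := by
    intro N
    by_cases hc : ∃ Φ' : ℝ × ℝ × C(unitInterval, ℂ) → ℝ, LipschitzWith K Φ' ∧ (∀ x, |Φ' x| ≤ 1) ∧
        ∫ x, |∏ i ∈ J, G i (a N) N (arcw x.2 (k i) x.1) - Φ' (cN N x)| ∂(mwE N b) ≤ ε / 2
    · obtain ⟨Φ', c1, c2, c3⟩ := hc
      exact ⟨Φ', c1, c2, fun _ => c3⟩
    · exact ⟨fun _ => 0, LipschitzWith.const' 0, fun _ => by simp, fun hc' => absurd hc' hc⟩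
  choose Φ c1 c2 c3 using hex
  obtain ⟨ψ, d1, d2, -, d3⟩ := mwE_sel hQ hb U hU Φ c1 c2
  refine ⟨BoundedContinuousFunction.ofNormedAddCommGroup ψ d1.continuous 1 fun x => by rw [Real.norm_eq_abs]; exact d2 x, ?_⟩
  filter_upwards [h2, h3, d3 (ε / 2) (by positivity)] with N e1 e2 e3
  have e4 := c3 N (e1 N e2)
  have e5 : ∫ x, |∏ i ∈ J, G i (a N) N (arcw x.2 (k i) x.1) - ψ (cN N x)| ∂(mwE N b) ≤
      ∫ x, (|∏ i ∈ J, G i (a N) N (arcw x.2 (k i) x.1) - Φ N (cN N x)| + |Φ N (cN N x) - ψ (cN N x)|) ∂(mwE N b) := by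
    have hfin : IsFiniteMeasure (mwE N b) := by
      unfold mwE
      infer_instance
    refine integral_mono (Integrable.of_bound (C := 2) Measurable.of_discrete.aestronglyMeasurable (Eventually.of_forall fun x => ?_))
      (Integrable.of_bound (C := 4) Measurable.of_discrete.aestronglyMeasurable (Eventually.of_forall fun x => ?_)) fun x =>
        abs_sub_le _ _ _
    · have a1 := abs_sub (∏ i ∈ J, G i (a N) N (arcw x.2 (k i) x.1)) (ψ (cN N x))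
      have a2 : |∏ i ∈ J, G i (a N) N (arcw x.2 (k i) x.1)| ≤ 1 := by
        rw [Finset.abs_prod]
        exact Finset.prod_le_one (fun i _ => abs_nonneg _) fun i hi => hbd N i hi _
      have a3 := d2 (cN N x)
      rw [Real.norm_eq_abs, abs_abs]
      linarith
    · have a1 := abs_sub (∏ i ∈ J, G i (a N) N (arcw x.2 (k i) x.1)) (Φ N (cN N x))
      have a2 : |∏ i ∈ J, G i (a N) N (arcw x.2 (k i) x.1)| ≤ 1 := by
        rw [Finset.abs_prod]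
        exact Finset.prod_le_one (fun i _ => abs_nonneg _) fun i hi => hbd N i hi _
      have a3 := d2 (cN N x)
      have a4 := c2 N (cN N x)
      have a5 := abs_sub (Φ N (cN N x)) (ψ (cN N x))
      rw [Real.norm_eq_abs, abs_of_nonneg (by positivity)]
      linarith
  have hfin : IsFiniteMeasure (mwE N b) := by
    unfold mwE
    infer_instance
  rw [integral_add] at e5
  · show ∫ x, |∏ i ∈ J, G i (a N) N (arcw x.2 (k i) x.1) - ψ (cN N x)| ∂(mwE N b) ≤ ε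
    linarith
  · refine Integrable.of_bound (C := 2) Measurable.of_discrete.aestronglyMeasurable (Eventually.of_forall fun x => ?_)
    have a1 := abs_sub (∏ i ∈ J, G i (a N) N (arcw x.2 (k i) x.1)) (Φ N (cN N x))
    have a2 : |∏ i ∈ J, G i (a N) N (arcw x.2 (k i) x.1)| ≤ 1 := by
      rw [Finset.abs_prod]
      exact Finset.prod_le_one (fun i _ => abs_nonneg _) fun i hi => hbd N i hi _
    have a4 := c2 N (cN N x)
    rw [Real.norm_eq_abs, abs_abs]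
    linarith
  · refine Integrable.of_bound (C := 2) Measurable.of_discrete.aestronglyMeasurable (Eventually.of_forall fun x => ?_)
    have a3 := d2 (cN N x)
    have a4 := c2 N (cN N x)
    have a5 := abs_sub (Φ N (cN N x)) (ψ (cN N x))
    rw [Real.norm_eq_abs, abs_abs]
    linarith

/-- **one arc** -/
theorem arc_l1a (hQ : QB) (k : Arm) {l : Filter α} {G : α → ℝ → W3 → ℝ}
    (hG : ∀ᶠ a in l, ∀ S : ℝ, 0 < S → ∀ w, |G a S w| ≤ 1) (h : ArcJ l G) {b : ℝ} (hb : 0 ≤ b)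
    (U : Ultrafilter ℕ) (hU : (U : Filter ℕ) ≤ atTop) {a : ℕ → α} (ha : Tendsto a U l) (hbd : ∀ (N : ℕ) (w : W3), |G (a N) N w| ≤ 1) :
    L1A (U : Filter ℕ) (fun N => mwE N b) cN fun N x => G (a N) N (arcw x.2 k x.1) := by
  have h1 := arcs_l1a hQ (ι := Unit) {()} (fun _ => k) (G := fun _ => G) (hG.mono fun a h2 _ _ => h2) (fun _ _ => h) hb U hU ha
    fun N _ _ => hbd N
  simpa only [Finset.prod_singleton] using h1

/-- the same in the form of F3LimF -/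
theorem L1A.lf {U : Filter ℕ} {b : ℝ} {p : ℕ → W3 × ℕ → ℝ} (h : L1A U (fun N => mwE N b) cN p) :
    LF.L1A U (fun N => mwE N b) cN p :=
  ⟨fun _ => Measurable.of_discrete, h.bd, h.ap⟩

/-- **one number of steps**: products over the arcs as functionals of the closed curve -/
theorem root_one {ι : Type*} (J : Finset ι) (k : ι → Arm) {l : Filter α} {G : ι → α → ℝ → W3 → ℝ}
    (hG : ∀ᶠ a in l, ∀ i ∈ J, ∀ S : ℝ, 0 < S → ∀ w, |G i a S w| ≤ 1) (h : ∀ i ∈ J, ArcJ l (G i)) :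
    ∀ ε δ K0 : ℝ, 0 < ε → 0 < δ → 0 < K0 → ∃ (K : ℝ≥0) (n0 : ℕ), ∀ᶠ a in l, ∀ n m : ℕ, n0 ≤ n → Odd n → Even m →
      δ * n ≤ m → (m : ℝ) ≤ (1 - δ) * n → ∀ S : ℝ, 0 < S → S ≤ K0 * (n : ℝ) ^ (3 / 4 : ℝ) → (n : ℝ) ^ (3 / 4 : ℝ) ≤ K0 * S →
        ∃ φ : C(unitInterval, ℂ) → ℝ, LipschitzWith K φ ∧ (∀ γ, |φ γ| ≤ 1) ∧
          ∑ s ∈ pol n, |∏ i ∈ J, G i a S (arcw m (k i) (clw s)) - φ (crv (clw s) (n + 1) S)| ≤ ε * ((pol n).card : ℝ) := by
  intro ε δ K0 hε hδ hK0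
  obtain ⟨K, n0, hm⟩ := macJ J k hG h ε δ K0 hε hδ hK0
  refine ⟨K, n0, hm.mono fun a ha n m hn ho he m1 m2 S hS s1 s2 => ?_⟩
  obtain ⟨Φ, h1, h2, h3⟩ := ha S hS
  refine ⟨fun γ => Φ (((n + 1 : ℕ) : ℝ) / S ^ (4 / 3 : ℝ), (m : ℝ) / S ^ (4 / 3 : ℝ), γ), ?_, fun γ => h2 _,
    h3 n m hn ho he m1 m2 s1 s2⟩
  refine LipschitzWith.of_dist_le_mul fun γ γ' => (h1.dist_le_mul _ _).trans (mul_le_mul_of_nonneg_left ?_ K.2)
  rw [Prod.dist_eq, Prod.dist_eq, dist_self, dist_self]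
  exact max_le dist_nonneg (max_le dist_nonneg le_rfl)

end Pool.Agent.ROT.F3
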