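import Pool.Agent.ROT.F3ExP
import Pool.Agent.SCF.EpGlue2

/-!
# ROT / W8Bm (helper84): the weighted mass of a class of blocks, words and walks

* **`sb_bm`** : `sum over the words b of B of wx b * psi b = bm (ofFn b in B) (psi (ofFn b)) M`, if the blocks have at most `M` letters.
-/

set_option autoImplicit false

namespace Pool.Agent.ROT.F3.W8

open Finset
open scoped ENNReal Classical
open Pool.Agent.NTS.Res (step pos saw fug)
open Pool.Agent.SCF.Z (bm)

/-- **the mass of the blocks, in words and in walks** -/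
theorem sb_bm {B : Set W3} {ψ : W3 → ℝ≥0∞} {M : ℕ} (hsw : ∀ b ∈ B, SW b) (hM : ∀ b ∈ B, b.length ≤ M)
    (hψ : ∀ b ∈ B, ψ b ≠ ⊤) : (∑' b : W3, if b ∈ B then wx b * ψ b else 0) =
      ENNReal.ofReal (bm (fun _ b => List.ofFn b ∈ B) (fun _ b => (ψ (List.ofFn b)).toReal) M) := by
  have hf : (0 : ℝ) ≤ fug := by
    unfold fug
    positivity
  obtain ⟨f, hfd⟩ : ∃ f : W3 → ℝ≥0∞, f = fun b => if b ∈ B then wx b * ψ b else 0 := ⟨_, rfl⟩
  have h1 : (∑' b : W3, if b ∈ B then wx b * ψ b else 0) = ∑' b : W3, (if SW b then f b else 0) := by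
    refine tsum_congr fun b => ?_
    rw [hfd]
    by_cases hb : b ∈ B
    · simp only [if_pos hb, if_pos (hsw b hb)]
    · simp only [if_neg hb, ite_self]
  have h2 : ∀ n : ℕ, n ∉ range (M + 1) → ∑ s ∈ saw n, f (List.ofFn s) = 0 := by
    intro n hn
    refine sum_eq_zero fun s _ => ?_
    rw [hfd]
    simp only
    rw [if_neg]
    intro hb
    have := hM _ hb
    rw [List.length_ofFn] at this
    rw [mem_range] at hn
    omega
  rw [h1, tsum_SW, tsum_eq_sum h2]
  unfold bm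
  rw [ENNReal.ofReal_sum_of_nonneg fun m _ => mul_nonneg (sum_nonneg fun b _ => ENNReal.toReal_nonneg) (pow_nonneg hf _)]
  refine sum_congr rfl fun m _ => ?_
  rw [ENNReal.ofReal_mul (sum_nonneg fun b _ => ENNReal.toReal_nonneg),
    ENNReal.ofReal_sum_of_nonneg fun b _ => ENNReal.toReal_nonneg, ENNReal.ofReal_pow hf, sum_mul, sum_filter]
  refine sum_congr rfl fun s _ => ?_
  rw [hfd]
  simp only
  split_ifs with hb
  · rw [ENNReal.ofReal_toReal (hψ _ hb), wx, List.length_ofFn, mul_comm]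
  · rfl

/-- lower bound of the mass of the blocks -/
theorem bm_ge {B : Set W3} {ψ : W3 → ℝ≥0∞} {M : ℕ} {c : ℝ} (hsw : ∀ b ∈ B, SW b) (hM : ∀ b ∈ B, b.length ≤ M)
    (hψ : ∀ b ∈ B, ψ b ≠ ⊤) (h : ENNReal.ofReal c ≤ ∑' b : W3, if b ∈ B then wx b * ψ b else 0) :
    c ≤ bm (fun _ b => List.ofFn b ∈ B) (fun _ b => (ψ (List.ofFn b)).toReal) M := by
  rw [sb_bm hsw hM hψ] at h
  have hf : (0 : ℝ) ≤ fug := by
    unfold fug
    positivity
  refine (ENNReal.ofReal_le_ofReal_iff ?_).1 h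
  unfold bm
  exact sum_nonneg fun m _ => mul_nonneg (sum_nonneg fun b _ => ENNReal.toReal_nonneg) (pow_nonneg hf _)

end Pool.Agent.ROT.F3.W8
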