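import Pool.Agent.ROT.F3W9

/-!
# ROT, F3, row W8 (walks), the transfer row (helper95)

* `Loc R G` : `G` is a function of the start of the walk: two walks (of any numbers of steps `k`, `k'`) which agree up to a time `m`
  and stay at distances `> R` from the start after `m` have the same value of `G`;
* **`transfer`** : the means of such functions over the walks with `n` and with `n'` steps are almost equal, if `n`, `n'` are comparable
  and `R` is small compared with the size.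

Proof: the law of the first `m = δ min (n, n')` letters is almost that of the infinite walk, for both numbers of steps, and after the
time `m` the walk does not come back.
-/

set_option autoImplicit false

noncomputable section

open MeasureTheory Filter Topology Set
open scoped Classical

namespace Pool.Agent.ROT.F3.W8

open Pool.Agent.NTS.Res (pos saw step size)

open Pool.Agent.IW.Res (mean Begins)

open Pool.Agent.ROT.F3 (mean_sub mean_one mean_dist1 near_of_bad farS)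

open NTSF (pos_zero pos_succ)

/-- a function of the start of the walk -/
def Loc (R : ℝ) (G : ∀ k : ℕ, (Fin k → Fin 3) → ℝ) : Prop :=
  ∀ (m k k' : ℕ) (s : Fin k → Fin 3) (s' : Fin k' → Fin 3), s ∈ saw k → s' ∈ saw k' → m ≤ k → m ≤ k' →
    (∀ t : ℕ, t ≤ m → pos s t = pos s' t) → (∀ j : ℕ, m ≤ j → j ≤ k → R < ‖pos s j‖) →
      (∀ j : ℕ, m ≤ j → j ≤ k' → R < ‖pos s' j‖) → G k s = G k' s'

/-- the positions of the start -/
lemma pos_begins {n m : ℕ} {s : Fin n → Fin 3} {η : Fin m → Fin 3} (hmn : m ≤ n) (h : Begins s η) :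
    ∀ t : ℕ, t ≤ m → pos s t = pos η t := by
  intro t
  induction t with
  | zero => intro _; rw [pos_zero, pos_zero]
  | succ t ih =>
    intro ht
    rw [pos_succ s t (by omega), pos_succ η t (by omega), ih (by omega), h ⟨t, by omega⟩ ⟨t, by omega⟩ rfl]

/-- there is exactly one start -/
lemma sum_begins {n m : ℕ} (hmn : m ≤ n) (s : Fin n → Fin 3) (g : (Fin m → Fin 3) → ℝ) :
    (∑ η : Fin m → Fin 3, if Begins s η then g η else 0) = g fun j : Fin m => s ⟨(j : ℕ), lt_of_lt_of_le j.2 hmn⟩ := by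
  have e1 : ∀ η : Fin m → Fin 3, Begins s η ↔ η = fun j : Fin m => s ⟨(j : ℕ), lt_of_lt_of_le j.2 hmn⟩ := by
    intro η
    constructor
    · intro hb
      funext j
      rw [hb ⟨(j : ℕ), lt_of_lt_of_le j.2 hmn⟩ j rfl]
    · rintro rfl i j hij
      show s i = s ⟨j, _⟩
      congr 1
      exact Fin.ext hij
  simp only [e1]
  rw [Finset.sum_ite_eq' Finset.univ (fun j : Fin m => s ⟨j, lt_of_lt_of_le j.2 hmn⟩) g, if_pos (Finset.mem_univ _)]

/-- **one side**: the mean of a function of the start is almost an integral over the infinite walk -/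
theorem one_side {n m : ℕ} {R e κ τ : ℝ} (G : ∀ k : ℕ, (Fin k → Fin 3) → ℝ) (g : (Fin m → Fin 3) → ℝ)
    (q : (Fin m → Fin 3) → ℝ) (hmn : m ≤ n) (hτ : τ * n ≤ m) (hR : R ≤ κ * size n) (bG : ∀ k s, |G k s| ≤ 1) (bg : ∀ η, |g η| ≤ 1)
    (hg : ∀ (s : Fin n → Fin 3) (η : Fin m → Fin 3), s ∈ saw n → Begins s η →
      (∀ j : ℕ, m ≤ j → j ≤ n → R < ‖pos s j‖) → G n s = g η)
    (hfar : (((saw n).filter fun s => ∃ j : ℕ, τ * n ≤ j ∧ j ≤ n ∧ ‖pos s j‖ ≤ κ * size n).card : ℝ) ≤ e * ((saw n).card : ℝ))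
    (hTV : ∑ η : Fin m → Fin 3, |mean n (fun s => if Begins s η then 1 else 0) - q η| ≤ e) :
    |mean n (G n) - ∑ η : Fin m → Fin 3, g η * q η| ≤ 3 * e := by
  obtain ⟨Φ, hΦ⟩ : ∃ Φ : (Fin n → Fin 3) → ℝ, Φ = fun s => ∑ η : Fin m → Fin 3, if Begins s η then g η else 0 := ⟨_, rfl⟩
  have e1 : ∀ s, Φ s = g fun j : Fin m => s ⟨(j : ℕ), lt_of_lt_of_le j.2 hmn⟩ := by
    intro s
    rw [hΦ]
    exact sum_begins hmn s g
  have bΦ : ∀ s, |Φ s| ≤ 1 := fun s => by
    rw [e1]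
    exact bg _
  obtain ⟨B, hB⟩ : ∃ B : Set (Fin n → Fin 3), B = {s | s ∉ saw n ∨ ∃ j : ℕ, τ * n ≤ j ∧ j ≤ n ∧ ‖pos s j‖ ≤ κ * size n} := ⟨_, rfl⟩
  have h1 : mean n (fun s => |G n s - Φ s|) ≤ 2 * e := by
    refine near_of_bad (B := B) (bG n) bΦ (fun s hs => ?_) ?_
    · rw [hB, Set.mem_setOf_eq, not_or, not_not] at hs
      rw [e1]
      refine hg s _ hs.1 (fun i j hij => ?_) fun j hj hjn => ?_
      · show s i = s ⟨j, _⟩
        congr 1
        exact Fin.ext hij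
      · by_contra hc
        refine hs.2 ⟨j, hτ.trans (by exact_mod_cast hj), hjn, ?_⟩
        exact (not_lt.1 hc).trans hR
    · refine le_trans (Nat.cast_le.2 (Finset.card_le_card fun s hs => ?_)) hfar
      rw [Finset.mem_filter] at hs ⊢
      refine ⟨hs.1, ?_⟩
      have h2 := hs.2
      rw [hB, Set.mem_setOf_eq] at h2
      exact h2.resolve_left fun h => h hs.1
  have h2 := mean_dist1 h1
  have h3 : mean n Φ = ∑ η : Fin m → Fin 3, g η * mean n (fun s => if Begins s η then 1 else 0) := by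
    rw [hΦ]
    unfold mean
    simp only [Finset.mul_sum, mul_div_assoc', ← Finset.sum_div]
    congr 1
    rw [Finset.sum_comm]
    refine Finset.sum_congr rfl fun η _ => Finset.sum_congr rfl fun s _ => ?_
    split_ifs <;> ring
  have h4 : |mean n Φ - ∑ η : Fin m → Fin 3, g η * q η| ≤ e := by
    rw [h3, ← Finset.sum_sub_distrib]
    refine (Finset.abs_sum_le_sum_abs _ _).trans (le_trans (Finset.sum_le_sum fun η _ => ?_) hTV)
    rw [← mul_sub, abs_mul]
    exact mul_le_of_le_one_left (abs_nonneg _) (bg η)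
  have h5 := abs_sub_le (mean n (G n)) (mean n Φ) (∑ η : Fin m → Fin 3, g η * q η)
  have h2' : |mean n (G n) - mean n Φ| ≤ 2 * e := h2
  linarith

/-- **transfer**: functions of the start have almost equal means for comparable numbers of steps -/
theorem transfer : ∀ ε : ℝ, 0 < ε → ∃ (δ : ℝ) (n0 : ℕ), 0 < δ ∧ ∀ (n n' : ℕ) (R : ℝ) (G : ∀ k : ℕ, (Fin k → Fin 3) → ℝ),
    n0 ≤ n → n0 ≤ n' → n ≤ 4 * n' → n' ≤ 4 * n → R ≤ δ * size n → R ≤ δ * size n' → (∀ k s, |G k s| ≤ 1) → Loc R G →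
      |mean n (G n) - mean n' (G n')| ≤ ε := by
  intro ε hε
  obtain ⟨P, hPp, -, hTV, -⟩ := Pool.Agent.IW.fin6
  obtain ⟨δ0, hδ0, h⟩ := hTV (ε / 8) 0 (by positivity)
  obtain ⟨δ1, hδ1⟩ : ∃ δ1 : ℝ, δ1 = min δ0 1 := ⟨_, rfl⟩
  have hδ1p : 0 < δ1 := by rw [hδ1]; positivity
  have hδ1a : δ1 ≤ δ0 := by rw [hδ1]; exact min_le_left _ _
  have hδ1b : δ1 ≤ 1 := by rw [hδ1]; exact min_le_right _ _
  obtain ⟨κ, hκ, n1, hfar⟩ := farS (τ := δ1 / 8) (ε := ε / 8) (by positivity) (by positivity)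
  obtain ⟨n2, hn2⟩ := exists_nat_ge (8 / δ1)
  refine ⟨κ, max n1 n2, hκ, fun n n' R G hn hn' h1 h2 hR hR' bG hloc => ?_⟩
  have hn1 : n1 ≤ n := (le_max_left _ _).trans hn
  have hn1' : n1 ≤ n' := (le_max_left _ _).trans hn'
  have hb : 8 ≤ δ1 * n := by
    have h3 : 8 / δ1 ≤ n := hn2.trans (by exact_mod_cast (le_max_right _ _).trans hn)
    rw [div_le_iff₀ hδ1p] at h3
    linarith
  have hb' : 8 ≤ δ1 * n' := by
    have h3 : 8 / δ1 ≤ n' := hn2.trans (by exact_mod_cast (le_max_right _ _).trans hn')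
    rw [div_le_iff₀ hδ1p] at h3
    linarith
  have h1' : (n : ℝ) ≤ 4 * n' := by exact_mod_cast h1
  have h2' : (n' : ℝ) ≤ 4 * n := by exact_mod_cast h2
  obtain ⟨N, hN⟩ : ∃ N : ℝ, N = min (n : ℝ) n' := ⟨_, rfl⟩
  have hNn : N ≤ n := by rw [hN]; exact min_le_left _ _
  have hNn' : N ≤ n' := by rw [hN]; exact min_le_right _ _
  have hN0 : 0 ≤ N := by rw [hN]; positivity
  have hN1 : (n : ℝ) / 4 ≤ N := by rw [hN]; exact le_min (by linarith [(Nat.cast_nonneg n : (0 : ℝ) ≤ n)]) (by linarith)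
  have hN2 : (n' : ℝ) / 4 ≤ N := by rw [hN]; exact le_min (by linarith) (by linarith [(Nat.cast_nonneg n' : (0 : ℝ) ≤ n')])
  obtain ⟨m, hm⟩ : ∃ m : ℕ, m = ⌊δ1 * N⌋₊ := ⟨_, rfl⟩
  have hm1 : (m : ℝ) ≤ δ1 * N := by rw [hm]; exact Nat.floor_le (by positivity)
  have hm2 : δ1 * N - 1 ≤ m := by
    have := Nat.lt_floor_add_one (δ1 * N)
    rw [← hm] at this
    linarith
  have hmn0 : (m : ℝ) ≤ δ1 * n := hm1.trans (mul_le_mul_of_nonneg_left hNn hδ1p.le)
  have hmn0' : (m : ℝ) ≤ δ1 * n' := hm1.trans (mul_le_mul_of_nonneg_left hNn' hδ1p.le)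
  have hmn : m ≤ n := by
    have h3 : δ1 * (n : ℝ) ≤ 1 * n := mul_le_mul_of_nonneg_right hδ1b (Nat.cast_nonneg n)
    have : (m : ℝ) ≤ n := by linarith
    exact_mod_cast this
  have hmn' : m ≤ n' := by
    have h3 : δ1 * (n' : ℝ) ≤ 1 * n' := mul_le_mul_of_nonneg_right hδ1b (Nat.cast_nonneg n')
    have : (m : ℝ) ≤ n' := by linarith
    exact_mod_cast this
  have hτ : δ1 / 8 * n ≤ m := by
    have h3 : δ1 * ((n : ℝ) / 4) ≤ δ1 * N := mul_le_mul_of_nonneg_left hN1 hδ1p.le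
    linarith
  have hτ' : δ1 / 8 * n' ≤ m := by
    have h3 : δ1 * ((n' : ℝ) / 4) ≤ δ1 * N := mul_le_mul_of_nonneg_left hN2 hδ1p.le
    linarith
  -- the function of the start
  obtain ⟨Q, hQ⟩ : ∃ Q : (Fin m → Fin 3) → (k : ℕ) → (Fin k → Fin 3) → Prop,
      Q = fun η k s => s ∈ saw k ∧ m ≤ k ∧ Begins s η ∧ ∀ j : ℕ, m ≤ j → j ≤ k → R < ‖pos s j‖ := ⟨_, rfl⟩
  obtain ⟨g, hg⟩ : ∃ g : (Fin m → Fin 3) → ℝ, (∀ η, |g η| ≤ 1) ∧ ∀ η k s, Q η k s → G k s = g η := by
    have key : ∀ η : Fin m → Fin 3, ∃ x : ℝ, |x| ≤ 1 ∧ ∀ k s, Q η k s → G k s = x := by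
      intro η
      by_cases he : ∃ (k : ℕ) (s : Fin k → Fin 3), Q η k s
      · obtain ⟨k, s, hks⟩ := he
        refine ⟨G k s, bG k s, fun k' s' hks' => ?_⟩
        rw [hQ] at hks hks'
        obtain ⟨a1, a2, a3, a4⟩ := hks
        obtain ⟨b1, b2, b3, b4⟩ := hks'
        refine hloc m k' k s' s b1 a1 b2 a2 (fun t ht => ?_) b4 a4
        rw [pos_begins b2 b3 t ht, pos_begins a2 a3 t ht]
      · push Not at he
        exact ⟨0, by rw [abs_zero]; exact zero_le_one, fun k s hks => absurd hks (he k s)⟩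
    choose g hg1 hg2 using key
    exact ⟨g, hg1, hg2⟩
  have side : ∀ l : ℕ, n1 ≤ l → m ≤ l → (m : ℝ) ≤ δ1 * l → δ1 / 8 * l ≤ m → R ≤ κ * size l →
      |mean l (G l) - ∑ η : Fin m → Fin 3, g η * P.real {w | ∀ i : Fin m, w i = η i}| ≤ 3 * (ε / 8) := by
    intro l hl1 hml hml0 hτl hRl
    refine one_side (κ := κ) (τ := δ1 / 8) G g _ hml hτl hRl bG hg.1 (fun s η hs hb hf => hg.2 η l s ?_) (hfar l hl1) ?_
    · rw [hQ]
      exact ⟨hs, hml, hb, hf⟩
    · have h3 := h l m (hml0.trans (mul_le_mul_of_nonneg_right hδ1a (Nat.cast_nonneg l))) (fun _ => 1)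
        ((LipschitzWith.const 1).weaken bot_le) fun _ => by rw [abs_one]
      simp only [mean_one, mul_one] at h3
      exact h3
  have s1 := side n hn1 hmn hmn0 hτ hR
  have s2 := side n' hn1' hmn' hmn0' hτ' hR'
  rw [abs_le] at s1 s2 ⊢
  constructor <;> linarith [s1.1, s1.2, s2.1, s2.2]

end Pool.Agent.ROT.F3.W8

end
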