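import Pool.Agent.ROT.W8Win
import Pool.Agent.ROT.W8Tr

/-!
# ROT, F3, row W8 (walks), part 5 (helper94): the native class for every number of steps

* `NE.bd`, `ne_loc` : the class `NE` is a condition on the part of the walk before its last visit of a ball;
* **`nat_exact`** : for every number of steps `n ≥ n0` and every scale `δ1 size n ≤ S ≤ δ0 size n` the class has at least the share
  `p` of the walks, with all marks at most `τ n`; `p` depends neither on `τ` nor on `δ1`.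
-/

set_option autoImplicit false

open Filter Topology

namespace Pool.Agent.ROT.F3.W8

open Finset HexObs.NTA

open Pool.Agent.NTS.Res (pos saw fug step size)

open Pool.Agent.IW.Res (mean)

open NTSF (pos_zero pos_succ mem_saw)

open Pool.Agent.SCF.Z (GC SCut GBt PC UQ E4 glue_low bwt gbt_pref)

section Loc

variable {ra η Q S T h2 h3 h4 θ ρ : ℝ} {n : ℕ} {s : Fin n → Fin 3} {k0 k1 k2 k3 k4 : ℕ}

lemma NE.lt (h : NE ra S T h2 h3 h4 θ ρ s k0 k1 k2 k3 k4) : k0 < k1 ∧ k1 < k2 ∧ k2 < k3 ∧ k3 < k4 ∧ k4 < n :=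
  E4.lt h

/-- the walk up to its last mark is in the ball of radius `ρ / 2` -/
lemma NE.bd (h : NE ra S T h2 h3 h4 θ ρ s k0 k1 k2 k3 k4) (hs : Shp ra η Q S T h2 h3 h4 θ ρ) {j : ℕ} (hj : j ≤ k4) :
    ‖pos s j‖ ≤ ρ := by
  obtain ⟨l0, l1, l2, l3, l4⟩ := h.lt
  obtain ⟨a0, g1, g2, g3, g4, -⟩ := h
  have z0 : pos s 0 = 0 := pos_zero _
  have e0 := a0.2.2.1 0 (Nat.zero_le _)
  rw [z0, zero_sub, norm_neg] at e0
  have hra : 0 ≤ ra * S := (norm_nonneg _).trans e0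
  have hθ : 0 ≤ θ := (abs_nonneg _).trans (g2.2 k1 le_rfl g2.1.1.le).1
  have w0 := a0.2.1 0 (Nat.zero_le _)
  have v1 := g2.1.2.2.2.2.1 k1 le_rfl g2.1.1.le
  have b1 : ∀ i : ℕ, k0 ≤ i → i ≤ k1 → ‖pos s i - pos s k0‖ ≤ S + 2 * θ := fun i i1 i2 =>
    (g1.1.2.2.2.2.2.1 i i1 i2).trans (by linarith [hs.T2])
  have b2 : ∀ i : ℕ, k1 ≤ i → i ≤ k2 → ‖pos s i - pos s k1‖ ≤ S + 2 * θ := fun i i1 i2 =>
    (g2.1.2.2.2.2.2.1 i i1 i2).trans (by linarith [hs.h22])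
  have b3 : ∀ i : ℕ, k2 ≤ i → i ≤ k3 → ‖pos s i - pos s k2‖ ≤ S + 2 * θ := fun i i1 i2 =>
    (g3.1.2.2.2.2.2.1 i i1 i2).trans (by linarith [hs.h32])
  have b4 : ∀ i : ℕ, k3 ≤ i → i ≤ k4 → ‖pos s i - pos s k3‖ ≤ S + 2 * θ := fun i i1 i2 =>
    (g4.1.2.2.2.2.2.1 i i1 i2).trans (by linarith [hs.h42])
  have hS2 : 0 ≤ S + 2 * θ := (norm_nonneg _).trans (b1 k0 le_rfl l0.le)
  have key : ∀ {x y : ℂ} {A B : ℝ}, ‖x - y‖ ≤ A → ‖y‖ ≤ B → ‖x‖ ≤ A + B := fun {x y A B} hx hy => by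
    calc ‖x‖ = ‖(x - y) + y‖ := by ring_nf
      _ ≤ ‖x - y‖ + ‖y‖ := norm_add_le _ _
      _ ≤ A + B := add_le_add hx hy
  have c1 := key (b1 k1 l0.le le_rfl) e0
  have c2 := key (b2 k2 l1.le le_rfl) c1
  have c3 := key (b3 k3 l2.le le_rfl) c2
  have hr := hs.r1
  rcases le_or_gt j k0 with h5 | h5
  · have := key (a0.2.2.1 j h5) e0
    linarith
  rcases le_or_gt j k1 with h6 | h6
  · have := key (b1 j h5.le h6) e0
    linarith
  rcases le_or_gt j k2 with h7 | h7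
  · have := key (b2 j h6.le h7) c1
    linarith
  rcases le_or_gt j k3 with h8 | h8
  · have := key (b3 j h7.le h8) c2
    linarith
  · have := key (b4 j h8.le hj) c3
    linarith

/-- the class does not change if the walk is changed outside of the ball, behind its last visit of the ball -/
lemma NE.congr {n' m : ℕ} {s' : Fin n' → Fin 3} (h : NE ra S T h2 h3 h4 θ ρ s k0 k1 k2 k3 k4)
    (hs : Shp ra η Q S T h2 h3 h4 θ ρ) (hm : m ≤ n) (hm' : m ≤ n') (he : ∀ t : ℕ, t ≤ m → pos s t = pos s' t)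
    (h1 : ∀ j : ℕ, m ≤ j → j ≤ n → 2 * ρ < ‖pos s j‖) (h1' : ∀ j : ℕ, m ≤ j → j ≤ n' → 2 * ρ < ‖pos s' j‖) :
    NE ra S T h2 h3 h4 θ ρ s' k0 k1 k2 k3 k4 := by
  have hb := fun j hj => NE.bd h hs (j := j) hj
  obtain ⟨l0, l1, l2, l3, l4⟩ := h.lt
  have hρ : 0 ≤ ρ := (norm_nonneg _).trans (hb 0 (Nat.zero_le _))
  have hk4 : k4 < m := by
    by_contra hcon
    push Not at hcon
    have := h1 k4 hcon l4.le
    linarith [hb k4 le_rfl]
  obtain ⟨a0, g1, g2, g3, g4, c1, c2, c3⟩ := h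
  have e : ∀ t : ℕ, t ≤ m → pos s' t = pos s t := fun t ht => (he t ht).symm
  refine ⟨nc0_congr (fun t ht => e t (by omega)) a0, ?_, ?_, ?_, ?_, by omega, ?_, fun j j1 j2 j3 => ?_⟩
  · rw [e k0 (by omega), e 0 (by omega)]
    exact gbt_pref a0.1 (fun t ht => e t (by omega)) g1
  · exact gbt_pref g1.1.2.1 (fun t ht => e t (by omega)) g2
  · rw [e k2 (by omega), e k1 (by omega)]
    exact gbt_pref g2.1.2.1 (fun t ht => e t (by omega)) g3
  · exact gbt_pref g3.1.2.1 (fun t ht => e t (by omega)) g4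
  · rw [e (k4 + 1) (by omega), e k4 (by omega)]
    exact c2
  · rw [e k4 (by omega)] at j3 ⊢
    rcases le_or_gt m j with h5 | h5
    · exfalso
      have h6 := h1' j h5 j2
      have h7 : ‖pos s' j‖ ≤ ρ + ρ := by
        calc ‖pos s' j‖ = ‖(pos s' j - pos s k4) + pos s k4‖ := by ring_nf
          _ ≤ ‖pos s' j - pos s k4‖ + ‖pos s k4‖ := norm_add_le _ _
          _ ≤ ρ + ρ := add_le_add j3 (hb k4 le_rfl)
      linarith
    · have h6 : j ≤ n := by omega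
      rw [e j h5.le] at j3 ⊢
      exact c3 j j1 h6 j3

end Loc

lemma Loc.mono {R R' : ℝ} {G : ∀ k : ℕ, (Fin k → Fin 3) → ℝ} (h : Loc R G) (hR : R ≤ R') : Loc R' G :=
  fun m k k' s s' h1 h2 h3 h4 h5 h6 h7 => h m k k' s s' h1 h2 h3 h4 h5 (fun j j1 j2 => lt_of_le_of_lt hR (h6 j j1 j2))
    fun j j1 j2 => lt_of_le_of_lt hR (h7 j j1 j2)

open Classical in
/-- the indicator of the class -/
noncomputable def NEG (ra S T h2 h3 h4 θ ρ : ℝ) (k : ℕ) (s : Fin k → Fin 3) : ℝ :=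
  if ∃ k0 k1 k2 k3 k4 : ℕ, NE ra S T h2 h3 h4 θ ρ s k0 k1 k2 k3 k4 then 1 else 0

/-- **the class is local** -/
theorem ne_loc {ra η Q S T h2 h3 h4 θ ρ : ℝ} (hs : Shp ra η Q S T h2 h3 h4 θ ρ) : Loc (2 * ρ) (NEG ra S T h2 h3 h4 θ ρ) := by
  classical
  intro m k k' s s' _ _ hm hm' he h1 h1'
  have key : (∃ k0 k1 k2 k3 k4 : ℕ, NE ra S T h2 h3 h4 θ ρ s k0 k1 k2 k3 k4) ↔
      ∃ k0 k1 k2 k3 k4 : ℕ, NE ra S T h2 h3 h4 θ ρ s' k0 k1 k2 k3 k4 := by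
    refine ⟨?_, ?_⟩
    · rintro ⟨k0, k1, k2, k3, k4, h⟩
      exact ⟨k0, k1, k2, k3, k4, h.congr hs hm hm' he h1 h1'⟩
    · rintro ⟨k0, k1, k2, k3, k4, h⟩
      exact ⟨k0, k1, k2, k3, k4, h.congr hs hm' hm (fun t ht => (he t ht).symm) h1' h1⟩
  unfold NEG
  simp only [key]

open Classical in
lemma mean_neg (ra S T h2 h3 h4 θ ρ : ℝ) (n : ℕ) : mean n (NEG ra S T h2 h3 h4 θ ρ n) =
    (((saw n).filter fun s => ∃ k0 k1 k2 k3 k4 : ℕ, NE ra S T h2 h3 h4 θ ρ s k0 k1 k2 k3 k4).card : ℝ) / ((saw n).card : ℝ) := by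
  show (∑ s ∈ saw n, NEG ra S T h2 h3 h4 θ ρ n s) / ((saw n).card : ℝ) = _
  congr 1
  unfold NEG
  rw [Finset.sum_boole]

/-- the sizes of comparable numbers of steps -/
lemma size_comp : ∃ c : ℝ, 0 < c ∧ ∀ n n' : ℕ, 1 ≤ n → n ≤ 4 * n' → c * size n ≤ size n' := by
  obtain ⟨cs, Cs, hcs, hsz, -⟩ := NTSF.finE
  have hCs : 0 < Cs := by
    have h1 := (hsz 1 le_rfl).2
    have h2 := NTSF.size_pos (n := 1) le_rfl
    rw [Nat.cast_one, Real.one_rpow, mul_one] at h1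
    linarith
  refine ⟨cs / (4 * Cs), by positivity, fun n n' hn h => ?_⟩
  have h1 := (hsz n hn).2
  have h2 := (hsz n' (by omega)).1
  have h3 : (n : ℝ) ^ (3 / 4 : ℝ) ≤ 4 * (n' : ℝ) ^ (3 / 4 : ℝ) := by
    calc (n : ℝ) ^ (3 / 4 : ℝ) ≤ (4 * n' : ℝ) ^ (3 / 4 : ℝ) := Real.rpow_le_rpow (Nat.cast_nonneg _) (by exact_mod_cast h)
          (by norm_num)
      _ = 4 ^ (3 / 4 : ℝ) * (n' : ℝ) ^ (3 / 4 : ℝ) := Real.mul_rpow (by norm_num) (Nat.cast_nonneg _)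
      _ ≤ 4 * (n' : ℝ) ^ (3 / 4 : ℝ) := by
        refine mul_le_mul_of_nonneg_right ?_ (by positivity)
        have := Real.rpow_le_rpow_of_exponent_le (x := (4 : ℝ)) (by norm_num) (show (3 / 4 : ℝ) ≤ 1 by norm_num)
        rwa [Real.rpow_one] at this
  calc cs / (4 * Cs) * size n ≤ cs / (4 * Cs) * (Cs * (n : ℝ) ^ (3 / 4 : ℝ)) := mul_le_mul_of_nonneg_left h1 (by positivity)
    _ ≤ cs / (4 * Cs) * (Cs * (4 * (n' : ℝ) ^ (3 / 4 : ℝ))) := by gcongr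
    _ = cs * (n' : ℝ) ^ (3 / 4 : ℝ) := by field_simp
    _ ≤ size n' := h2

open Classical in
/-- **from one number of steps to all comparable ones**, local functionals; no return behind `τ n` -/
theorem exact_abs (p1 Q τ : ℝ) (hp1 : 0 < p1) (hQ : 0 < Q) (hτ : 0 < τ) : ∃ (δ0 : ℝ) (n0 : ℕ), 0 < δ0 ∧
    ∀ (n n' : ℕ) (S : ℝ) (G : ∀ k : ℕ, (Fin k → Fin 3) → ℝ), n0 ≤ n → n ≤ 4 * n' → n' ≤ 4 * n → S ≤ δ0 * size n →
      (∀ k s, 0 ≤ G k s ∧ G k s ≤ 1) → Loc (Q * S) G → p1 * ((saw n').card : ℝ) ≤ ∑ s ∈ saw n', G n' s →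
        p1 / 2 * ((saw n).card : ℝ) ≤
          ∑ s ∈ (saw n).filter (fun s => ∀ j : ℕ, τ * n ≤ j → j ≤ n → Q * S < ‖pos s j‖), G n s := by
  obtain ⟨dt, nt, hdt, htr⟩ := transfer (p1 / 4) (by positivity)
  obtain ⟨cc, hcc, hcomp⟩ := size_comp
  obtain ⟨dF, hdF, nF, hF⟩ := Pool.Agent.SCF.Z.far1 (min τ (1 / 2)) (p1 / 4) (by positivity)
    (lt_of_le_of_lt (min_le_right _ _) (by norm_num)) (by positivity)
  obtain ⟨δ0, hδ0⟩ : ∃ δ0 : ℝ, δ0 = min (dF / Q) (min (dt / Q) (dt * cc / Q)) := ⟨_, rfl⟩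
  have e2 : δ0 ≤ dF / Q := by rw [hδ0]; exact min_le_left _ _
  have e3 : δ0 ≤ dt / Q := by rw [hδ0]; exact (min_le_right _ _).trans (min_le_left _ _)
  have e4 : δ0 ≤ dt * cc / Q := by rw [hδ0]; exact (min_le_right _ _).trans (min_le_right _ _)
  refine ⟨δ0, max nF (4 * nt + 4), by rw [hδ0]; positivity, fun n n' S G hn m1 m2 hS2 hG hloc m3 => ?_⟩
  have n2 : nF ≤ n := (le_max_left _ _).trans hn
  have n3 : 4 * nt + 4 ≤ n := (le_max_right _ _).trans hn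
  have hsz := NTSF.size_pos (n := n) (by omega)
  have hρ1 : Q * S ≤ dF * size n := by
    calc Q * S ≤ Q * (δ0 * size n) := mul_le_mul_of_nonneg_left hS2 hQ.le
      _ ≤ Q * (dF / Q * size n) := mul_le_mul_of_nonneg_left (mul_le_mul_of_nonneg_right e2 hsz.le) hQ.le
      _ = dF * size n := by field_simp
  have hρ2 : Q * S ≤ dt * size n := by
    calc Q * S ≤ Q * (δ0 * size n) := mul_le_mul_of_nonneg_left hS2 hQ.le
      _ ≤ Q * (dt / Q * size n) := by gcongr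
      _ = dt * size n := by field_simp
  have hρ3 : Q * S ≤ dt * size n' := by
    calc Q * S ≤ Q * (δ0 * size n) := mul_le_mul_of_nonneg_left hS2 hQ.le
      _ ≤ Q * (dt * cc / Q * size n) := by gcongr
      _ = dt * (cc * size n) := by field_simp
      _ ≤ dt * size n' := mul_le_mul_of_nonneg_left (hcomp n n' (by omega) m1) hdt.le
  have ht := htr n n' (Q * S) G (by omega) (by omega) m1 m2 hρ2 hρ3 (fun k s => by
    rw [abs_of_nonneg (hG k s).1]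
    exact (hG k s).2) hloc
  have hc0 : (0 : ℝ) < ((saw n).card : ℝ) := NTSF.saw_card_pos n
  have hc0' : (0 : ℝ) < ((saw n').card : ℝ) := NTSF.saw_card_pos n'
  have em : ∀ k : ℕ, mean k (G k) = (∑ s ∈ saw k, G k s) / ((saw k).card : ℝ) := fun _ => rfl
  rw [em, em] at ht
  have h5 : p1 ≤ (∑ s ∈ saw n', G n' s) / ((saw n').card : ℝ) := by
    rw [le_div_iff₀ hc0']
    exact m3
  have h6 := (abs_le.1 ht).1
  have h7 : 3 / 4 * p1 ≤ (∑ s ∈ saw n, G n s) / ((saw n).card : ℝ) := by linarith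
  rw [le_div_iff₀ hc0] at h7
  obtain ⟨F, hFd⟩ : ∃ F : Finset (Fin n → Fin 3), F = (saw n).filter fun s => ∀ j : ℕ, τ * n ≤ j → j ≤ n → Q * S < ‖pos s j‖ :=
    ⟨_, rfl⟩
  rw [← hFd]
  have h8 : ∑ s ∈ saw n, G n s ≤ ∑ s ∈ F, G n s +
      (((saw n).filter fun s => ∃ j : ℕ, min τ (1 / 2) * n ≤ j ∧ j ≤ n ∧ ‖pos s j‖ ≤ dF * size n).card : ℝ) := by
    have e : F ⊆ saw n := by
      rw [hFd]
      exact filter_subset _ _
    rw [← sum_sdiff e, add_comm]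
    refine add_le_add le_rfl ?_
    have h9 : ∑ s ∈ saw n \ F, G n s ≤ ((saw n \ F).card : ℝ) := by
      have := sum_le_card_nsmul (saw n \ F) (fun s => G n s) 1 fun s _ => (hG n s).2
      rwa [nsmul_eq_mul, mul_one] at this
    refine h9.trans ?_
    rw [Nat.cast_le]
    refine card_le_card fun s hs => ?_
    rw [Finset.mem_sdiff, hFd, mem_filter, not_and] at hs
    obtain ⟨q1, q2⟩ := hs
    have q3 := q2 q1
    push Not at q3
    obtain ⟨j, j1, j2, j3⟩ := q3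
    rw [mem_filter]
    exact ⟨q1, j, le_trans (mul_le_mul_of_nonneg_right (min_le_left _ _) (Nat.cast_nonneg _)) j1, j2, j3.trans hρ1⟩
  have h9 := hF n n2
  linarith

open Classical in
/-- **the native class, every number of steps** -/
theorem nat_exact (ra η Q : ℝ) (hra : 0 < ra) (hη : 0 < η) (hQ : ra ≤ Q) : ∃ p : ℝ, 0 < p ∧ ∀ τ : ℝ, 0 < τ → ∃ δ0 : ℝ, 0 < δ0 ∧
    ∀ δ1 : ℝ, 0 < δ1 → ∃ n0 : ℕ, ∀ (n : ℕ) (S : ℝ), n0 ≤ n → δ1 * size n ≤ S → S ≤ δ0 * size n → ∀ T h2 h3 h4 θ ρ : ℝ,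
      Shp ra η Q S T h2 h3 h4 θ ρ → p * ((saw n).card : ℝ) ≤ (((saw n).filter fun s => ∃ k0 k1 k2 k3 k4 : ℕ,
        NE ra S T h2 h3 h4 θ ρ s k0 k1 k2 k3 k4 ∧ (k4 : ℝ) ≤ τ * n ∧
          ∀ j : ℕ, τ * n ≤ j → j ≤ n → 2 * ρ < ‖pos s j‖).card : ℝ) := by
  obtain ⟨p1, d0, hp1, hd0, hwin⟩ := win_low ra η Q hra hη hQ
  have hQ0 : 0 < Q := lt_of_lt_of_le hra hQ
  refine ⟨p1 / 2, by positivity, fun τ hτ => ?_⟩
  obtain ⟨d2, n2, hd2, hex⟩ := exact_abs p1 (2 * Q) τ hp1 (by positivity) hτ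
  refine ⟨min d0 d2, lt_min hd0 hd2, fun δ1 hδ1 => ?_⟩
  obtain ⟨nw, hw⟩ := hwin δ1 hδ1
  refine ⟨max (max nw n2) 1, fun n S hn hS1 hS2 T h2 h3 h4 θ ρ hs => ?_⟩
  have q1 : nw ≤ n := (le_max_left _ _).trans ((le_max_left _ _).trans hn)
  have q2 : n2 ≤ n := (le_max_right _ _).trans ((le_max_left _ _).trans hn)
  have hsz := NTSF.size_pos (n := n) ((le_max_right _ _).trans hn)
  obtain ⟨n', m1, m2, m3⟩ := hw n S q1 hS1 (hS2.trans (mul_le_mul_of_nonneg_right (min_le_left _ _) hsz.le)) T h2 h3 h4 θ ρ hs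
  have h5 := hex n n' S (NEG ra S T h2 h3 h4 θ ρ) q2 m1 m2 (hS2.trans (mul_le_mul_of_nonneg_right (min_le_right _ _) hsz.le))
    (fun k s => by
      unfold NEG
      split_ifs <;> norm_num) ((ne_loc hs).mono (by have := hs.r2; linarith)) (by
      refine m3.trans (le_of_eq ?_)
      unfold NEG
      rw [Finset.sum_boole])
  refine h5.trans ?_
  unfold NEG
  rw [Finset.sum_boole, filter_filter, Nat.cast_le]
  refine card_le_card fun s hs' => ?_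
  rw [mem_filter] at hs' ⊢
  obtain ⟨r1, r2, k0, k1, k2, k3, k4, r3⟩ := hs'
  have hρ := hs.r2
  have hb := r3.bd hs (le_refl k4)
  have hρ0 : 0 ≤ ρ := (norm_nonneg _).trans hb
  refine ⟨r1, k0, k1, k2, k3, k4, r3, ?_, fun j j1 j2 => lt_of_le_of_lt (by linarith) (r2 j j1 j2)⟩
  by_contra hcon
  push Not at hcon
  have := r2 k4 hcon.le r3.lt.2.2.2.2.le
  linarith

end Pool.Agent.ROT.F3.W8
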