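import Pool.Agent.ROT.W8PsiE
import Pool.Agent.ROT.W8Hp
import Pool.Agent.ROT.W8Cls
import Pool.Agent.ROT.F3W9

/-!
# ROT, F3, row W8 (walks), part 9 (helper94): the start gates with an outer block have a positive mean

* **`hp_low`** : `p * #saw n ≤ ∑ Hp`, uniformly in the classes (ratios of the constants of `Wc`), the weight, the scale; all `n ≥ n0`;
* **`hp_nearS`** : `Hp` is almost a function of the first `δ n` letters.
-/

set_option autoImplicit false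

open Filter Topology

namespace Pool.Agent.ROT.F3.W8

open Finset

open Pool.Agent.NTS.Res (pos saw fug step size)

open Pool.Agent.IW.Res (mean)

open Pool.Agent.SCF.Z (GB bm md E5 w5_eq w5_zero)

open NTSF (pos_zero)

open Classical in
/-- **the start gates have a positive mean** -/
theorem hp_low (a Q A c1 : ℝ) (ha : 0 < a) (hQ : a ≤ Q) (hA : 0 ≤ A) (hc1 : 0 < c1) : ∃ p : ℝ, 0 < p ∧ ∀ τ : ℝ, 0 < τ →
    ∃ δ0 : ℝ, 0 < δ0 ∧ ∀ δ1 : ℝ, 0 < δ1 → ∃ n0 : ℕ, ∀ (n : ℕ) (P : Tp) (O : Ot) (Y : Tp) (x K ρ0 S T : ℝ) (ψ : W3 → ℝ) (M2 : ℕ),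
      n0 ≤ n → W8R P O Y → P.cs ≤ 1 → Wc P O Y x K ρ0 → x = a * K → ρ0 = Q * K → 0 < S → δ1 * size n ≤ K * S → K * S ≤ δ0 * size n →
        τ * n ≤ P.la * T → τ * n ≤ P.lb * T → (∀ b, 0 ≤ ψ b ∧ ψ b ≤ 1) → (M2 : ℝ) ≤ A * (K * S) ^ (4 / 3 : ℝ) →
          c1 ≤ bm (fun _ b => List.ofFn b ∈ OtB 1 O S T) (fun _ b => ψ (List.ofFn b)) M2 →
            p * ((saw n).card : ℝ) ≤ ∑ s ∈ saw n, Hp 1 P O Y S T ψ (List.ofFn s) := by
  obtain ⟨p, hp, hex⟩ := psi_exact a a Q A c1 ha ha hQ hA hc1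
  refine ⟨p, hp, fun τ hτ => ?_⟩
  obtain ⟨δ0, hδ0, h0⟩ := hex τ hτ
  refine ⟨δ0, hδ0, fun δ1 hδ1 => ?_⟩
  obtain ⟨n0, h1⟩ := h0 δ1 hδ1
  refine ⟨n0, fun n P O Y x K ρ0 S T ψ M2 hn hW hcs hw hx hρ hS hS1 hS2 hla hlb hψ hM hc => ?_⟩
  have hK := hw.K0
  have ex : x / K = a := by rw [hx]; field_simp
  have eρ : ρ0 / K = Q := by rw [hρ]; field_simp
  have hshp := hw.shp hS.le
  rw [ex, eρ] at hshp
  have hB : ∀ (m : ℕ) (b : Fin m → Fin 3), List.ofFn b ∈ OtB 1 O S T → GB (O.m * S) (O.r * S) b 0 m := fun m b hb =>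
    gb_of_blk hb.k hb.f
  have h2 := h1 n (K * S) hn hS1 hS2 (P.l * S) (P.th * P.m * S) (P.m * S) (O.m * S) (K * S) (x * S) (ρ0 * S) (O.r * S)
    (fun _ b => List.ofFn b ∈ OtB 1 O S T) (fun _ b => ψ (List.ofFn b)) M2 hshp hB (fun m b => hψ _) hM hc
  refine h2.trans ((sum_le_sum (g := fun s : Fin n → Fin 3 => Hp 1 P O Y S T ψ (List.ofFn s)) fun s hs => ?_).trans
    (sum_le_sum_of_subset_of_nonneg (filter_subset _ _) fun s _ _ => Hp_nonneg fun b => (hψ b).1))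
  rw [mem_filter] at hs
  obtain ⟨hs1, hs2⟩ := hs
  by_cases h : ∃ k0 k1 k2 k3 k4 k5 : ℕ, P5 (fun _ b => List.ofFn b ∈ OtB 1 O S T) a (K * S) (P.l * S) (P.th * P.m * S)
      (P.m * S) (K * S) (x * S) (ρ0 * S) s k0 k1 k2 k3 k4 k5
  · obtain ⟨k0, k1, k2, k3, k4, k5, h⟩ := h
    have haK : 0 ≤ a * (K * S) := by positivity
    have e1 : v5 (fun _ b => List.ofFn b ∈ OtB 1 O S T) (fun _ b => ψ (List.ofFn b)) a (K * S) (P.l * S)
        (P.th * P.m * S) (P.m * S) (K * S) (x * S) (ρ0 * S) n s = ψ (List.ofFn (md s k3 (k4 - k3))) :=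
      w5_eq (fun _ _ _ _ _ _ h'' => P5.uniq hshp hB haK haK h h'') h
    rw [e1]
    have hb := h.bd hshp hB (le_refl k5)
    have hlt := E5.lt h
    have hρ0 : 0 ≤ ρ0 * S := (norm_nonneg _).trans hb
    have hk5 : (k5 : ℝ) ≤ τ * n := by
      by_contra hcon
      push Not at hcon
      have := hs2 k5 hcon.le hlt.2.2.2.2.2.le
      linarith
    rw [← ex] at h
    have hM := P5.term hW hcs hw hS hs1 h (hk5.trans hla) (hk5.trans hlb)
    have e2 : List.ofFn (md s k3 (k4 - k3)) = seg (List.ofFn s) k3 k4 :=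
      seg_md s hM.ij (by have := hM.jw; rwa [List.length_ofFn] at this)
    rw [e2]
    exact Hp_ge (fun b => (hψ b).1) hM
  · push Not at h
    have e1 : v5 (fun _ b => List.ofFn b ∈ OtB 1 O S T) (fun _ b => ψ (List.ofFn b)) a (K * S) (P.l * S)
        (P.th * P.m * S) (P.m * S) (K * S) (x * S) (ρ0 * S) n s = 0 := w5_zero h
    rw [e1]
    exact Hp_nonneg fun b => (hψ b).1

open Classical in
/-- **the start gates are almost a function of the first letters** -/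
theorem hp_nearS {e δ : ℝ} (he : 0 < e) (hδ : 0 < δ) : ∃ (κ : ℝ) (n0 : ℕ), 0 < κ ∧ ∀ (n : ℕ) (d : ℂ) (P : Tp) (O : Ot) (Y : Tp)
    (S T : ℝ) (ψ : W3 → ℝ), n0 ≤ n → 0 ≤ S → HpR P O Y * S ≤ κ * size n → 2 * (P.r + P.r2) + 2 * O.r ≤ Y.rg → 0 ≤ Y.rg →
      0 ≤ Y.r0 → 0 ≤ Y.κ → 0 ≤ O.r → (∀ b, 0 ≤ ψ b ∧ ψ b ≤ 1) →
        NearS n ⌊δ * n⌋₊ e (fun s => Hp d P O Y S T ψ (List.ofFn s)) := by
  obtain ⟨κ, hκ, n1, hF⟩ := Pool.Agent.SCF.Z.far1 (min (δ / 2) (1 / 2)) (e / 2) (by positivity)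
    (lt_of_le_of_lt (min_le_right _ _) (by norm_num)) (by positivity)
  refine ⟨κ, max n1 (⌈2 / δ⌉₊ + 1), hκ, fun n d P O Y S T ψ hn hS hR hu hrg hr0 hκY hOr hψ => ?_⟩
  have hn1 : n1 ≤ n := (le_max_left _ _).trans hn
  have hn2 : ⌈2 / δ⌉₊ + 1 ≤ n := (le_max_right _ _).trans hn
  have hn2' : 2 / δ ≤ n := (Nat.le_ceil _).trans (by exact_mod_cast (by omega : ⌈2 / δ⌉₊ ≤ n))
  have hfl : δ / 2 * n ≤ ((⌊δ * n⌋₊ : ℕ) : ℝ) := by
    have h1 := Nat.lt_floor_add_one (δ * (n : ℝ))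
    rw [div_le_iff₀ hδ] at hn2'
    linarith
  have e0 : e = 2 * (e / 2) := by ring
  rw [e0]
  refine locS_of (B := {s | ∃ j : ℕ, min (δ / 2) (1 / 2) * n ≤ j ∧ j ≤ n ∧ ‖pos s j‖ ≤ κ * size n}) ?_ ?_ (hF n hn1)
  · intro s
    rw [abs_of_nonneg (Hp_nonneg fun b => (hψ b).1)]
    exact Hp_le_one (fun b => (hψ b).2) hS hu
  · intro s s' hB hB' hag
    rcases le_or_gt ⌊δ * (n : ℝ)⌋₊ n with hm | hm
    · have key : ∀ t : Fin n → Fin 3, t ∉ {s : Fin n → Fin 3 | ∃ j : ℕ, min (δ / 2) (1 / 2) * n ≤ j ∧ j ≤ n ∧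
          ‖pos s j‖ ≤ κ * size n} → ∀ j : ℕ, ⌊δ * (n : ℝ)⌋₊ ≤ j → j ≤ (List.ofFn t).length → HpR P O Y * S < ‖ps (List.ofFn t) j‖ := by
        intro t htB j j1 j2
        rw [List.length_ofFn] at j2
        rw [ps_ofFn]
        by_contra hc
        push Not at hc
        refine htB ⟨j, ?_, j2, hc.trans hR⟩
        calc min (δ / 2) (1 / 2) * (n : ℝ) ≤ δ / 2 * n := mul_le_mul_of_nonneg_right (min_le_left _ _) (Nat.cast_nonneg _)
          _ ≤ ((⌊δ * n⌋₊ : ℕ) : ℝ) := hfl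
          _ ≤ j := by exact_mod_cast j1
      refine Hp_congr (m := ⌊δ * (n : ℝ)⌋₊) (by rw [List.length_ofFn]; exact hm) (by rw [List.length_ofFn]; exact hm) ?_
        (key s hB) (key s' hB') hS hu hrg hr0 hκY hOr
      refine List.ext_getElem (by simp) fun i h1 h2 => ?_
      rw [List.getElem_take, List.getElem_take, List.getElem_ofFn, List.getElem_ofFn]
      refine hag ⟨i, by rw [List.length_take, List.length_ofFn] at h1; omega⟩ ?_
      rw [List.length_take, List.length_ofFn] at h1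
      exact lt_of_lt_of_le h1 (min_le_left _ _)
    · have : s = s' := funext fun i => hag i (lt_trans i.2 hm)
      rw [this]

end Pool.Agent.ROT.F3.W8
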