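import Pool.Agent.SCF.EpGlue
import Pool.Agent.ROT.F3GW
import Pool.Agent.ROT.F3PosK

/-!
# ROT / W8Geo (helper84): row W8 of ROT / F3, walks with native gates in the frame W3

A walk `s` with the marks `k0 <= k1 < k2 < k3 <= k4 < k5` as in `SCF/EpGlue2` (`E5`): start piece without cuts, thin blocks up to
`c = w_k1`, `c+ = w_k2`, `x = w_k3`, a block of a class with the end `w_k4`, a thin block with the end `w_k5`, and the rest, which
never comes back. The direction is `1 = ev 0`.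

* `Dg` : the part up to `x`; **`Dg.dbl`** : double gate `DblC 1 r T r2 h3` of the prefix up to `x`; `Dg.endK_c`, `Dg.endK_x`,
  `Dg.cell`, `Dg.cell_x`, `Dg.coneK`, `Dg.cut` : the ends of the prefixes, the block and its cut `c+`;
* `Rg` : the part behind `x`; **`Rg.restK`**, `Rg.restC`, `Rg.restC_y` : the rest behind `x` and behind `w_k4`;
* **`gb_of_blk`, `blk_of_gb`** : blocks of lists = middle pieces of SCF;
* `ofFn_split` : the pieces (reversed walks: `ofFn_rvw` of `ROT/F3End`).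
-/

set_option autoImplicit false

namespace Pool.Agent.ROT.F3.W8

open Finset ComplexConjugate
open Pool.Agent.NTS.Res (step pos saw fug)
open Pool.Agent.SCF.Z (SCut GB GBt GC nx_bd md pos_md gb_congr)
open NTSF (pos_zero)

section

variable {n : ℕ} {s : Fin n → Fin 3}

lemma lv_w (s : Fin n → Fin 3) (j : ℕ) : lv (ev 0) (ps (List.ofFn s) j) = (pos s j).re := by
  rw [ev_zero, lv_one, ps_ofFn]

lemma pc_w (s : Fin n → Fin 3) : Pc (List.ofFn s) n (pos s) :=
  ⟨List.length_ofFn, fun j _ => ps_ofFn s j⟩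

/-- a strict cut at an even vertex is a cut in the sense of SCF -/
lemma scut_of {a k' k : ℕ} (hk : k ≤ n) (ek : Even k') (ak : a ≤ k') (hk' : k' < k)
    (h1 : ∀ i : ℕ, a ≤ i → i ≤ k' → (pos s i).re ≤ (pos s k').re)
    (h2 : ∀ j : ℕ, k' < j → j ≤ k → (pos s k').re < (pos s j).re) : SCut s a k' k := by
  have hl : (List.ofFn s).length = n := List.length_ofFn
  refine ⟨ak, hk', ek, ?_, h1, fun j j1 j2 => ?_⟩
  · have h3 := first_step 0 (w := List.ofFn s) ek (by omega) (by rw [lv_w, lv_w]; exact h2 _ (by omega) (by omega))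
    rwa [ps_ofFn, ps_ofFn, ev_zero] at h3
  · have h3 := one_le_lv 0 (w := List.ofFn s) ek (by omega) (by omega) (j := j) (by rw [lv_w, lv_w]; exact h2 _ j1 j2)
    rwa [lv_w, lv_w] at h3

/-- the norm in terms of the two coordinates -/
lemma norm_le_ri (z : ℂ) {A B : ℝ} (h1 : |z.re| ≤ A) (h2 : |z.im| ≤ B) : ‖z‖ ≤ A + B :=
  (Complex.norm_le_abs_re_add_abs_im z).trans (add_le_add h1 h2)

end

/-! ### up to `x` -/

/-- start piece and the blocks up to `x`: `c = w_k1`, `c+ = w_k2`, `x = w_k3` -/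
structure Dg (A0 : ∀ n : ℕ, (Fin n → Fin 3) → ℕ → Prop) (T h2 h3 θ : ℝ) {n : ℕ} (s : Fin n → Fin 3) (k0 k1 k2 k3 : ℕ) : Prop where
  a : A0 n s k0
  g1 : GBt (T - ((pos s k0).re - (pos s 0).re)) θ s k0 k1
  g2 : GBt h2 θ s k1 k2
  g3 : GBt (h3 - ((pos s k2).re - (pos s k1).re)) θ s k2 k3

section

variable {A0 : ∀ n : ℕ, (Fin n → Fin 3) → ℕ → Prop} {R T h2 h3 θ : ℝ} {n : ℕ} {s : Fin n → Fin 3} {k0 k1 k2 k3 : ℕ}

lemma Dg.lt (h : Dg A0 T h2 h3 θ s k0 k1 k2 k3) : k0 < k1 ∧ k1 < k2 ∧ k2 < k3 := ⟨h.g1.1.1, h.g2.1.1, h.g3.1.1⟩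

lemma Dg.even (h : Dg A0 T h2 h3 θ s k0 k1 k2 k3) : Even k1 ∧ Even k2 ∧ Even k3 := ⟨h.g1.1.2.1, h.g2.1.2.1, h.g3.1.2.1⟩

lemma Dg.th (h : Dg A0 T h2 h3 θ s k0 k1 k2 k3) : 0 ≤ θ := (abs_nonneg _).trans (h.g2.2 k1 le_rfl h.g2.1.1.le).1

lemma Dg.R0 (h : Dg A0 T h2 h3 θ s k0 k1 k2 k3) (hP : SCF.Z.PC A0 id R) : 0 ≤ R :=
  (norm_nonneg _).trans (hP.ball n s k0 h.a 0 (Nat.zero_le _))

/-- the end of the start piece -/
lemma Dg.k0_pos (h : Dg A0 T h2 h3 θ s k0 k1 k2 k3) (hP : SCF.Z.PC A0 id R) :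
    0 ≤ (pos s k0).re ∧ (pos s k0).re ≤ R ∧ |(pos s k0).im| ≤ R := by
  have z0 : pos s 0 = 0 := pos_zero _
  have e1 := hP.left n s k0 h.a 0 (Nat.zero_le _)
  have e3 := hP.ball n s k0 h.a 0 (Nat.zero_le _)
  simp only [id] at e1 e3
  rw [z0, zero_sub, norm_neg] at e3
  rw [z0, Complex.zero_re] at e1
  exact ⟨e1, (le_abs_self _).trans ((Complex.abs_re_le_norm _).trans e3), (Complex.abs_im_le_norm _).trans e3⟩

/-- the mark `c`: its level and its lateral coordinate -/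
lemma Dg.c_pos (h : Dg A0 T h2 h3 θ s k0 k1 k2 k3) (hP : SCF.Z.PC A0 id R) :
    T ≤ (pos s k1).re ∧ (pos s k1).re ≤ T + θ ∧ |(pos s k1).im| ≤ R + θ := by
  have h0 := h.k0_pos hP
  have e1 := nx_bd h.g1
  have z0 : pos s 0 = 0 := pos_zero _
  rw [z0, Complex.zero_re] at e1
  have e2 := (h.g1.2 k1 h.g1.1.1.le le_rfl).1
  refine ⟨by linarith, by linarith, ?_⟩
  calc |(pos s k1).im| = |((pos s k1).im - (pos s k0).im) + (pos s k0).im| := by ring_nf
    _ ≤ |(pos s k1).im - (pos s k0).im| + |(pos s k0).im| := abs_add_le _ _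
    _ ≤ R + θ := by linarith

/-- the prefix of `c` is weakly to the left of `c` -/
lemma Dg.c_left (h : Dg A0 T h2 h3 θ s k0 k1 k2 k3) (hP : SCF.Z.PC A0 id R) {j : ℕ} (hj : j ≤ k1) :
    (pos s j).re ≤ (pos s k1).re := by
  rcases le_or_gt j k0 with h4 | h4
  · exact (hP.left n s k0 h.a j h4).trans (h.g1.1.2.2.2.2.1 _ le_rfl h.g1.1.1.le)
  · exact h.g1.1.2.2.2.2.1 j h4.le hj

/-- the prefix of `c` -/
lemma Dg.c_pref (h : Dg A0 T h2 h3 θ s k0 k1 k2 k3) (hP : SCF.Z.PC A0 id R) {j : ℕ} (hj : j ≤ k1) :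
    -2 * R ≤ (pos s j).re ∧ (pos s j).re ≤ T + θ ∧ |(pos s j).im| ≤ 2 * R + θ := by
  have hc := h.c_pos hP
  have hl := h.c_left hP hj
  have h0 := h.k0_pos hP
  have hth := h.th
  have hR := h.R0 hP
  rcases le_or_gt j k0 with h4 | h4
  · have e4 := hP.ball n s k0 h.a j h4
    simp only [id] at e4
    have f3 := (Complex.abs_re_le_norm (pos s j - pos s k0)).trans e4
    have f4 := (Complex.abs_im_le_norm (pos s j - pos s k0)).trans e4
    rw [Complex.sub_re, abs_le] at f3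
    rw [Complex.sub_im] at f4
    refine ⟨by linarith, by linarith [hc.2.1], ?_⟩
    calc |(pos s j).im| = |((pos s j).im - (pos s k0).im) + (pos s k0).im| := by ring_nf
      _ ≤ |(pos s j).im - (pos s k0).im| + |(pos s k0).im| := abs_add_le _ _
      _ ≤ 2 * R + θ := by linarith
  · have e5 := h.g1.1.2.2.2.1 j h4 hj
    have e6 := (h.g1.2 j h4.le hj).1
    refine ⟨by linarith, by linarith [hc.2.1], ?_⟩
    calc |(pos s j).im| = |((pos s j).im - (pos s k0).im) + (pos s k0).im| := by ring_nf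
      _ ≤ |(pos s j).im - (pos s k0).im| + |(pos s k0).im| := abs_add_le _ _
      _ ≤ 2 * R + θ := by linarith

/-- the level of `c+` over `c` -/
lemma Dg.cp_pos (h : Dg A0 T h2 h3 θ s k0 k1 k2 k3) :
    (pos s k1).re + h2 ≤ (pos s k2).re ∧ (pos s k2).re ≤ (pos s k1).re + h2 + θ ∧ |(pos s k2).im - (pos s k1).im| ≤ θ :=
  ⟨(nx_bd h.g2).1, (nx_bd h.g2).2, (h.g2.2 k2 h.g2.1.1.le le_rfl).1⟩

/-- the level of `x` over `c` -/
lemma Dg.x_pos (h : Dg A0 T h2 h3 θ s k0 k1 k2 k3) :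
    (pos s k1).re + h3 ≤ (pos s k3).re ∧ (pos s k3).re ≤ (pos s k1).re + h3 + θ ∧ |(pos s k3).im - (pos s k1).im| ≤ 2 * θ := by
  have hp := h.cp_pos
  have e1 := nx_bd h.g3
  have e2 := (h.g3.2 k3 h.g3.1.1.le le_rfl).1
  refine ⟨by linarith, by linarith, ?_⟩
  calc |(pos s k3).im - (pos s k1).im| = |((pos s k3).im - (pos s k2).im) + ((pos s k2).im - (pos s k1).im)| := by ring_nf
    _ ≤ |(pos s k3).im - (pos s k2).im| + |(pos s k2).im - (pos s k1).im| := abs_add_le _ _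
    _ ≤ 2 * θ := by linarith

/-- the block from `c` to `x` -/
lemma Dg.cx (h : Dg A0 T h2 h3 θ s k0 k1 k2 k3) {j : ℕ} (h1 : k1 < j) (hj : j ≤ k3) :
    (pos s k1).re + 1 ≤ (pos s j).re ∧ (pos s j).re ≤ (pos s k3).re ∧ |(pos s j).im - (pos s k1).im| ≤ 2 * θ := by
  have hp := h.cp_pos
  have hx := h.x_pos
  have hth := h.th
  rcases le_or_gt j k2 with h4 | h4
  · have e1 := h.g2.1.2.2.2.1 j h1 h4
    have e2 := h.g2.1.2.2.2.2.1 j h1.le h4
    have e3 := (h.g2.2 j h1.le h4).1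
    have e4 := h.g3.1.2.2.2.2.1 k2 le_rfl h.g3.1.1.le
    exact ⟨e1, by linarith, by linarith⟩
  · have e1 := h.g3.1.2.2.2.1 j h4 hj
    have e2 := h.g3.1.2.2.2.2.1 j h4.le hj
    have e3 := (h.g3.2 j h4.le hj).1
    have e4 := h.g2.1.2.2.2.1 k2 h.g2.1.1 le_rfl
    refine ⟨by linarith, by linarith, ?_⟩
    calc |(pos s j).im - (pos s k1).im| = |((pos s j).im - (pos s k2).im) + ((pos s k2).im - (pos s k1).im)| := by ring_nf
      _ ≤ |(pos s j).im - (pos s k2).im| + |(pos s k2).im - (pos s k1).im| := abs_add_le _ _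
      _ ≤ 2 * θ := by linarith

/-- **`c` is the first cut at least `T` higher than the tip** -/
lemma Dg.c_first (h : Dg A0 T h2 h3 θ s k0 k1 k2 k3) (hP : SCF.Z.PC A0 id R) (hN : ∀ k' : ℕ, ¬ SCut s 0 k' k0) (hT : R < T)
    {k' : ℕ} (hc : SCut s 0 k' k1) : (pos s k').re < T := by
  have h0 := h.k0_pos hP
  have z0 : pos s 0 = 0 := pos_zero _
  rcases lt_trichotomy k' k0 with h4 | h4 | h4
  · exact absurd (hc.mono h.g1.1.1.le h4) (hN k')
  · rw [h4]
    linarith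
  · have e4 := h.g1.1.2.2.2.2.2.2.2 k' (hc.start (Nat.zero_le _) h4.le)
    rw [z0, Complex.zero_re] at e4
    linarith

/-- **`x` is the first cut at least `h3` higher than `c`** -/
lemma Dg.x_first (h : Dg A0 T h2 h3 θ s k0 k1 k2 k3) (h23 : h2 + θ < h3) {k' : ℕ} (hc : SCut s k1 k' k3) :
    (pos s k').re < (pos s k1).re + h3 := by
  have hp := h.cp_pos
  have hth := h.th
  rcases lt_trichotomy k' k2 with h4 | h4 | h4
  · have := h.g2.1.2.2.2.2.2.2.2 k' (hc.mono h.g3.1.1.le h4)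
    linarith
  · rw [h4]
    linarith [hp.2.1]
  · have := h.g3.1.2.2.2.2.2.2.2 k' (hc.start h.g2.1.1.le h4.le)
    linarith

/-! ### the frame W3 -/

/-- **the double gate** as predicate of the position function -/
theorem Dg.dblP (h : Dg A0 T h2 h3 θ s k0 k1 k2 k3) (hP : SCF.Z.PC A0 id R) (hN : ∀ k' : ℕ, ¬ SCut s 0 k' k0) (hT : R < T)
    (h23 : h2 + θ < h3) (hk : k3 ≤ n) {r r2 : ℝ} (hr : T + 4 * R + 2 * θ ≤ r) (hr2 : h3 + 3 * θ ≤ r2) :
    F3.dblP 1 r T r2 h3 k3 (pos s) k1 := by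
  have hl := h.lt
  have hev := h.even
  have hth := h.th
  have hR := h.R0 hP
  have hc := h.c_pos hP
  have hx := h.x_pos
  refine ⟨by omega, hev.1, ⟨by omega, fun k hk1 => ?_, fun k hk1 => ?_⟩, ⟨?_, fun k ek hk1 hcut => ?_⟩,
    ⟨⟨by omega, fun k hk1 => ?_, fun k hk1 => ?_⟩, fun k hk0 hk1 => ?_⟩, ⟨?_, fun k ek hk1 hcut => ?_⟩⟩
  · rw [lv_one, lv_one]
    exact h.c_left hP hk1
  · obtain ⟨a1, a2, a3⟩ := h.c_pref hP hk1
    have a4 : |(pos s k).re| ≤ 2 * R + T + θ := abs_le.2 ⟨by linarith, by linarith⟩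
    linarith [norm_le_ri _ a4 a3]
  · rw [lv_one]
    exact hc.1
  · obtain ⟨c1, c2⟩ := hcut
    simp only [lv_one] at c1 c2 ⊢
    exact h.c_first hP hN hT (scut_of (by omega) ek (Nat.zero_le _) hk1 (fun i _ hi => c1 i hi) c2)
  · rcases Nat.eq_zero_or_pos k with h0 | h0
    · rw [h0]
      simp only [lv_one, psh, add_zero, sub_self, Complex.zero_re, Complex.sub_re]
      rw [show k1 + (k3 - k1) = k3 by omega]
      linarith [(h.cx (j := k3) (by omega) le_rfl).1]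
    · have := (h.cx (j := k1 + k) (by omega) (by omega)).2.1
      simp only [lv_one, psh, Complex.sub_re]
      rw [show k1 + (k3 - k1) = k3 by omega]
      linarith
  · rcases Nat.eq_zero_or_pos k with h0 | h0
    · rw [h0]
      simp only [psh, add_zero, sub_self, norm_zero]
      linarith [(h.cp_pos).1, (h.cx (j := k3) (by omega) le_rfl).1]
    · obtain ⟨a1, a2, a3⟩ := h.cx (j := k1 + k) (by omega) (by omega)
      have a4 : |(psh (pos s) k1 k).re| ≤ h3 + θ := by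
        simp only [psh, Complex.sub_re]
        exact abs_le.2 ⟨by linarith, by linarith⟩
      have a5 : |(psh (pos s) k1 k).im| ≤ 2 * θ := by
        simp only [psh, Complex.sub_im]
        exact a3
      linarith [norm_le_ri _ a4 a5]
  · obtain ⟨a1, a2, a3⟩ := h.cx (j := k1 + k) (by omega) (by omega)
    simp only [lv_one, psh, Complex.sub_re]
    linarith
  · simp only [lv_one, psh, Complex.sub_re]
    rw [show k1 + (k3 - k1) = k3 by omega]
    linarith
  · obtain ⟨c1, c2⟩ := hcut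
    simp only [lv_one, psh, Complex.sub_re] at c1 c2 ⊢
    have := h.x_first h23 (k' := k1 + k) (scut_of hk (hev.1.add ek) (by omega) (by omega) (fun i i1 i2 => ?_)
      fun j j1 j2 => ?_)
    · linarith
    · have := c1 (i - k1) (by omega)
      rw [show k1 + (i - k1) = i by omega] at this
      linarith
    · have := c2 (j - k1) (by omega) (by omega)
      rw [show k1 + (j - k1) = j by omega] at this
      linarith

lemma pc_take (hk : k3 ≤ n) : Pc ((List.ofFn s).take k3) k3 (pos s) := (pc_w s).take hk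

lemma sw_w (hs : s ∈ saw n) : SW (List.ofFn s) := (SW_ofFn s).2 hs

/-- **the double gate** -/
theorem Dg.dbl (h : Dg A0 T h2 h3 θ s k0 k1 k2 k3) (hP : SCF.Z.PC A0 id R) (hN : ∀ k' : ℕ, ¬ SCut s 0 k' k0) (hT : R < T)
    (h23 : h2 + θ < h3) (hs : s ∈ saw n) (hk : k3 ≤ n) {r r2 : ℝ} (hr : T + 4 * R + 2 * θ ≤ r) (hr2 : h3 + 3 * θ ≤ r2) :
    DblC 1 r T r2 h3 ((List.ofFn s).take k3) k1 :=
  ((pc_take hk).dbl h.even.2.2 (SW.take' (sw_w hs) k3) 1 r T r2 h3 k1).2 (h.dblP hP hN hT h23 hk hr hr2)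

/-- the end of the prefix of `c` -/
lemma Dg.endK_c (h : Dg A0 T h2 h3 θ s k0 k1 k2 k3) (hP : SCF.Z.PC A0 id R) (hk : k3 ≤ n) {κ : ℝ} (hκ : R + θ + 2 * κ ≤ T) :
    EndK 1 κ ((List.ofFn s).take k1) := by
  rw [((pc_w s).take (by have := h.lt; omega)).endK, endKP, lv_one]
  obtain ⟨a1, a2, a3⟩ := h.c_pos hP
  have hR := h.R0 hP
  have hth := h.th
  have a4 : |(pos s k1).re| ≤ (pos s k1).re ∨ (pos s k1).re < 0 := by
    rcases le_or_gt 0 (pos s k1).re with h4 | h4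
    · exact Or.inl (abs_of_nonneg h4).le
    · exact Or.inr h4
  have h5 : 0 ≤ (pos s k1).re := by
    have := h.c_left hP (Nat.zero_le k1)
    rwa [pos_zero, Complex.zero_re] at this
  have := norm_le_ri _ (abs_of_nonneg h5).le a3
  linarith

/-- the end of the prefix of `x` -/
lemma Dg.endK_x (h : Dg A0 T h2 h3 θ s k0 k1 k2 k3) (hP : SCF.Z.PC A0 id R) (hk : k3 ≤ n) {κ : ℝ} (hκ : R + 3 * θ + 2 * κ ≤ T + h3) :
    EndK 1 κ ((List.ofFn s).take k3) := by
  rw [(pc_take hk).endK, endKP, lv_one]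
  obtain ⟨a1, a2, a3⟩ := h.c_pos hP
  obtain ⟨b1, b2, b3⟩ := h.x_pos
  have hR := h.R0 hP
  have hth := h.th
  have h5 : 0 ≤ (pos s k1).re := by
    have := h.c_left hP (Nat.zero_le k1)
    rwa [pos_zero, Complex.zero_re] at this
  have h6 := (h.cx (j := k3) (by have := h.lt; omega) le_rfl).1
  have h7 : |(pos s k3).im| ≤ R + 3 * θ := by
    calc |(pos s k3).im| = |((pos s k3).im - (pos s k1).im) + (pos s k1).im| := by ring_nf
      _ ≤ |(pos s k3).im - (pos s k1).im| + |(pos s k1).im| := abs_add_le _ _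
      _ ≤ R + 3 * θ := by linarith
  have := norm_le_ri _ (abs_of_nonneg (show 0 ≤ (pos s k3).re by linarith)).le h7
  linarith

/-- the cell of `c` -/
lemma Dg.cell (h : Dg A0 T h2 h3 θ s k0 k1 k2 k3) (hP : SCF.Z.PC A0 id R) (hk : k3 ≤ n) :
    ‖en ((List.ofFn s).take k1) - (T : ℂ) * 1‖ ≤ R + 2 * θ := by
  rw [((pc_w s).take (by have := h.lt; omega)).en, mul_one]
  obtain ⟨a1, a2, a3⟩ := h.c_pos hP
  have a4 : |(pos s k1 - (T : ℂ)).re| ≤ θ := by
    rw [Complex.sub_re, Complex.ofReal_re]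
    exact abs_le.2 ⟨by linarith [h.th], by linarith⟩
  have a5 : |(pos s k1 - (T : ℂ)).im| ≤ R + θ := by
    rw [Complex.sub_im, Complex.ofReal_im, sub_zero]
    exact a3
  linarith [norm_le_ri _ a4 a5]

/-- the cell of `x` -/
lemma Dg.cell_x (h : Dg A0 T h2 h3 θ s k0 k1 k2 k3) (hP : SCF.Z.PC A0 id R) (hk : k3 ≤ n) :
    ‖en ((List.ofFn s).take k3) - ((T + h3 : ℝ) : ℂ) * 1‖ ≤ R + 5 * θ := by
  rw [(pc_take hk).en, mul_one]
  obtain ⟨a1, a2, a3⟩ := h.c_pos hP
  obtain ⟨b1, b2, b3⟩ := h.x_pos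
  have hth := h.th
  have a4 : |(pos s k3 - ((T + h3 : ℝ) : ℂ)).re| ≤ 2 * θ := by
    rw [Complex.sub_re, Complex.ofReal_re]
    exact abs_le.2 ⟨by linarith, by linarith⟩
  have a5 : |(pos s k3 - ((T + h3 : ℝ) : ℂ)).im| ≤ R + 3 * θ := by
    rw [Complex.sub_im, Complex.ofReal_im, sub_zero]
    calc |(pos s k3).im| = |((pos s k3).im - (pos s k1).im) + (pos s k1).im| := by ring_nf
      _ ≤ |(pos s k3).im - (pos s k1).im| + |(pos s k1).im| := abs_add_le _ _
      _ ≤ R + 3 * θ := by linarith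
  linarith [norm_le_ri _ a4 a5]

/-- the block from `c` to `x` is in the cone -/
lemma Dg.coneK (h : Dg A0 T h2 h3 θ s k0 k1 k2 k3) (hk : k3 ≤ n) {κ : ℝ} (hκ : θ ≤ κ) :
    ConeK 1 κ (((List.ofFn s).take k3).drop k1) := by
  have hl := h.lt
  rw [((pc_take hk).drop (by omega) h.even.1).coneK]
  intro k hk0 hk1
  obtain ⟨a1, a2, a3⟩ := h.cx (j := k1 + k) (by omega) (by omega)
  have a4 : 1 ≤ (psh (pos s) k1 k).re := by
    simp only [psh, Complex.sub_re]
    linarith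
  have a5 : |(psh (pos s) k1 k).im| ≤ 2 * θ := by
    simp only [psh, Complex.sub_im]
    exact a3
  have := norm_le_ri _ (abs_of_nonneg (show 0 ≤ (psh (pos s) k1 k).re by linarith)).le a5
  rw [lv_one]
  linarith

/-- **the cut `c+` of the block from `c` to `x`** -/
theorem Dg.cut (h : Dg A0 T h2 h3 θ s k0 k1 k2 k3) (hk : k3 ≤ n) :
    Even (k2 - k1) ∧ 0 < k2 - k1 ∧ k2 - k1 < (((List.ofFn s).take k3).drop k1).length ∧
      CutC 1 (((List.ofFn s).take k3).drop k1) (k2 - k1) ∧ h2 ≤ lv 1 (ps (((List.ofFn s).take k3).drop k1) (k2 - k1)) ∧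
      lv 1 (ps (((List.ofFn s).take k3).drop k1) (k2 - k1)) ≤ h2 + θ := by
  have hl := h.lt
  have hev := h.even
  have hpc : Pc (((List.ofFn s).take k3).drop k1) (k3 - k1) (psh (pos s) k1) := (pc_take hk).drop (by omega) hev.1
  have e1 : psh (pos s) k1 (k2 - k1) = pos s k2 - pos s k1 := by
    rw [psh, show k1 + (k2 - k1) = k2 by omega]
  obtain ⟨a1, a2, a3⟩ := h.cp_pos
  refine ⟨(Nat.even_sub hl.2.1.le).2 ⟨fun _ => hev.1, fun _ => hev.2.1⟩, by omega, by rw [hpc.len]; omega, ?_, ?_, ?_⟩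
  · unfold CutC
    rw [hpc.len, hpc.pos _ (by omega), e1]
    refine ⟨fun j hj => ?_, fun j j1 j2 => ?_⟩
    · rw [hpc.pos _ (by omega), lv_one, lv_one, psh, Complex.sub_re, Complex.sub_re]
      have := h.g2.1.2.2.2.2.1 (k1 + j) (by omega) (by omega)
      linarith
    · rw [hpc.pos _ (by omega), lv_one, lv_one, psh, Complex.sub_re, Complex.sub_re]
      have := h.g3.1.2.2.2.1 (k1 + j) (by omega) (by omega)
      linarith
  · rw [hpc.pos _ (by omega), e1, lv_one, Complex.sub_re]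
    linarith
  · rw [hpc.pos _ (by omega), e1, lv_one, Complex.sub_re]
    linarith

end

/-! ### behind `x` -/

/-- behind `x = w_k3`: a block up to `w_k4`, a thin block up to `w_k5`, and the rest -/
structure Rg (h4 h5 L2 θ ρ : ℝ) {n : ℕ} (s : Fin n → Fin 3) (k3 k4 k5 : ℕ) : Prop where
  g4 : GB h4 L2 s k3 k4
  g5 : GBt h5 θ s k4 k5
  c : GC ρ s k5

/-- the block of a class is a middle piece of the walk -/
lemma gb_md {n : ℕ} {s : Fin n → Fin 3} {h L : ℝ} {k k' : ℕ} (ek : Even k) (hk : k ≤ k') (hk' : k' ≤ n)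
    (h1 : GB h L (md s k (k' - k)) 0 (k' - k)) : GB h L s k k' := by
  have h2 := gb_congr (s := md s k (k' - k)) (s' := s) (k := 0) (m := k' - k) (k' := k) Even.zero ek (fun t ht => by
    rw [pos_zero, sub_zero, zero_add, pos_md (s := s) ek (by omega) t ht]) (by rw [zero_add]; exact h1)
  rwa [show k + (k' - k) = k' by omega] at h2

section

variable {h4 h5 L2 θ ρ : ℝ} {n : ℕ} {s : Fin n → Fin 3} {k3 k4 k5 : ℕ}

lemma Rg.lt (h : Rg h4 h5 L2 θ ρ s k3 k4 k5) : k3 < k4 ∧ k4 < k5 ∧ k5 < n := ⟨h.g4.1, h.g5.1.1, h.c.1⟩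

lemma Rg.th (h : Rg h4 h5 L2 θ ρ s k3 k4 k5) : 0 ≤ θ := (abs_nonneg _).trans (h.g5.2 k4 le_rfl h.g5.1.1.le).1

/-- **the rest behind `y = w_k4`** is to the right of `y`, as long as it is in a ball about `y` -/
lemma Rg.y (h : Rg h4 h5 L2 θ ρ s k3 k4 k5) {r0 : ℝ} (hr : r0 + h5 + 2 * θ ≤ ρ) {j : ℕ} (h1 : k4 < j) (hj : j ≤ n)
    (hn : ‖pos s j - pos s k4‖ ≤ r0) : (j ≤ k5 ∧ (pos s k4).re + 1 ≤ (pos s j).re ∧ |(pos s j).im - (pos s k4).im| ≤ θ) ∨
      (k5 < j ∧ (pos s k4).re + h5 + 1 ≤ (pos s j).re) := by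
  rcases le_or_gt j k5 with h6 | h6
  · exact Or.inl ⟨h6, h.g5.1.2.2.2.1 j h1 h6, (h.g5.2 j h1.le h6).1⟩
  · refine Or.inr ⟨h6, ?_⟩
    have e1 := h.g5.1.2.2.2.2.2.1 k5 h.g5.1.1.le le_rfl
    have e2 := h.c.2.2 j h6 hj (by
      calc ‖pos s j - pos s k5‖ = ‖(pos s j - pos s k4) - (pos s k5 - pos s k4)‖ := by ring_nf
        _ ≤ ‖pos s j - pos s k4‖ + ‖pos s k5 - pos s k4‖ := norm_sub_le _ _
        _ ≤ ρ := by linarith)
    linarith [(nx_bd h.g5).1]

/-- **the rest behind `y`**, frame W3 -/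
theorem Rg.restC_y (h : Rg h4 h5 L2 θ ρ s k3 k4 k5) {r0 : ℝ} (hr : r0 + h5 + 2 * θ ≤ ρ) (h50 : 0 ≤ h5) :
    RestC 1 r0 ((List.ofFn s).drop k4) := by
  have hl := h.lt
  have hpc : Pc ((List.ofFn s).drop k4) (n - k4) (psh (pos s) k4) := (pc_w s).drop (by omega) h.g4.2.1
  intro k hk0 hk1 hn
  rw [hpc.len] at hk1
  rw [hpc.pos k hk1] at hn ⊢
  rw [lv_one, psh, Complex.sub_re]
  rw [psh] at hn
  rcases h.y hr (j := k4 + k) (by omega) (by omega) hn with ⟨-, h6, -⟩ | ⟨-, h6⟩ <;> linarith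

/-- **the rest behind `y` in the cone**, frame W3 -/
theorem Rg.restK_y (h : Rg h4 h5 L2 θ ρ s k3 k4 k5) {r0 κ : ℝ} (hr : r0 + h5 + 2 * θ ≤ ρ) (h50 : 0 ≤ h5) (hκ : θ ≤ 2 * κ)
    (hr0 : r0 ≤ 2 * h5) : RestK 1 r0 κ ((List.ofFn s).drop k4) := by
  have hl := h.lt
  have hth := h.th
  have hpc : Pc ((List.ofFn s).drop k4) (n - k4) (psh (pos s) k4) := (pc_w s).drop (by omega) h.g4.2.1
  intro k hk0 hk1 hn
  rw [hpc.len] at hk1
  rw [hpc.pos k hk1] at hn ⊢
  rw [lv_one]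
  rw [psh] at hn
  rcases h.y hr (j := k4 + k) (by omega) (by omega) hn with ⟨-, h6, h7⟩ | ⟨-, h6⟩
  · have a4 : 1 ≤ (psh (pos s) k4 k).re := by
      simp only [psh, Complex.sub_re]
      linarith
    have a5 : |(psh (pos s) k4 k).im| ≤ θ := by
      simp only [psh, Complex.sub_im]
      exact h7
    have := norm_le_ri _ (abs_of_nonneg (show 0 ≤ (psh (pos s) k4 k).re by linarith)).le a5
    exact ⟨by linarith, by linarith⟩
  · have a4 : h5 + 1 ≤ (psh (pos s) k4 k).re := by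
      simp only [psh, Complex.sub_re]
      linarith
    rw [← psh] at hn
    exact ⟨by linarith, by linarith⟩

/-- the block from `x` to `y`, position function -/
lemma Rg.xy (h : Rg h4 h5 L2 θ ρ s k3 k4 k5) {j : ℕ} (h1 : k3 < j) (hj : j ≤ k4) :
    (pos s k3).re + 1 ≤ (pos s j).re ∧ (pos s j).re ≤ (pos s k4).re ∧ ‖pos s j - pos s k3‖ ≤ L2 :=
  ⟨h.g4.2.2.2.1 j h1 hj, h.g4.2.2.2.2.1 j h1.le hj, h.g4.2.2.2.2.2.1 j h1.le hj⟩

/-- **the rest behind `x`**: in the cone, if the block from `x` to `y` is in the cone -/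
theorem Rg.restK (h : Rg h4 h5 L2 θ ρ s k3 k4 k5) (e3 : Even k3) {r0 κ κ' : ℝ} (hr : r0 + L2 + h5 + 2 * θ ≤ ρ) (h50 : 0 ≤ h5)
    (hb : ConeK 1 κ' (((List.ofFn s).take k4).drop k3)) (hκ0 : 0 ≤ κ) (hκ : κ' + θ / 2 ≤ κ) (hr0 : r0 ≤ 2 * (h4 + h5)) :
    RestK 1 r0 κ ((List.ofFn s).drop k3) := by
  have hl := h.lt
  have hth := h.th
  have hpc : Pc ((List.ofFn s).drop k3) (n - k3) (psh (pos s) k3) := (pc_w s).drop (by omega) e3
  have hpb : Pc (((List.ofFn s).take k4).drop k3) (k4 - k3) (psh (pos s) k3) := ((pc_w s).take (by omega)).drop (by omega) e3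
  have hb' : ∀ k : ℕ, 0 < k → k ≤ k4 - k3 → ‖psh (pos s) k3 k‖ / 2 - κ' < (psh (pos s) k3 k).re := by
    intro k h1 h2
    have := hb k h1 (by rw [hpb.len]; exact h2)
    rwa [hpb.pos k h2, lv_one] at this
  intro k hk0 hk1 hn
  rw [hpc.len] at hk1
  rw [hpc.pos k hk1] at hn ⊢
  rw [lv_one]
  have e4 : (pos s k3).re + h4 ≤ (pos s k4).re := h.g4.2.2.2.2.2.2.1
  have e5 : (pos s k3).re + 1 ≤ (pos s k4).re := h.g4.2.2.2.1 k4 h.g4.1 le_rfl
  rcases le_or_gt (k3 + k) k4 with h6 | h6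
  · have a1 := (h.xy (j := k3 + k) (by omega) h6).1
    have a2 := hb' k hk0 (by omega)
    refine ⟨?_, by linarith⟩
    simp only [psh, Complex.sub_re]
    linarith
  · have hL : ‖pos s k4 - pos s k3‖ ≤ L2 := h.g4.2.2.2.2.2.1 k4 h.g4.1.le le_rfl
    have e6 : psh (pos s) k3 k = (pos s k4 - pos s k3) + (pos s (k3 + k) - pos s k4) := by
      rw [psh]
      ring
    have e7 : ‖pos s (k3 + k) - pos s k4‖ ≤ r0 + L2 := by
      have : pos s (k3 + k) - pos s k4 = psh (pos s) k3 k - (pos s k4 - pos s k3) := by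
        rw [e6]
        ring
      rw [this]
      exact (norm_sub_le _ _).trans (by linarith)
    rcases h.y (r0 := r0 + L2) (by linarith) h6 (by omega) e7 with ⟨-, h7, h8⟩ | ⟨-, h7⟩
    · have b1 := hb' (k4 - k3) (by omega) le_rfl
      have e8 : psh (pos s) k3 (k4 - k3) = pos s k4 - pos s k3 := by rw [psh, show k3 + (k4 - k3) = k4 by omega]
      rw [e8, Complex.sub_re] at b1
      have a4 : 1 ≤ (pos s (k3 + k) - pos s k4).re := by
        rw [Complex.sub_re]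
        linarith
      have a5 : |(pos s (k3 + k) - pos s k4).im| ≤ θ := by
        rw [Complex.sub_im]
        exact h8
      have a6 := norm_le_ri _ (abs_of_nonneg (show 0 ≤ (pos s (k3 + k) - pos s k4).re by linarith)).le a5
      have a7 : ‖psh (pos s) k3 k‖ ≤ ‖pos s k4 - pos s k3‖ + ‖pos s (k3 + k) - pos s k4‖ := by
        rw [e6]
        exact norm_add_le _ _
      have a8 : (psh (pos s) k3 k).re = ((pos s k4).re - (pos s k3).re) + (pos s (k3 + k) - pos s k4).re := by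
        rw [e6, Complex.add_re, Complex.sub_re]
      rw [a8]
      exact ⟨by linarith, by linarith⟩
    · have a4 : h4 + h5 + 1 ≤ (psh (pos s) k3 k).re := by
        simp only [psh, Complex.sub_re]
        linarith
      have a5 : 1 + h5 + 1 ≤ (psh (pos s) k3 k).re := by
        simp only [psh, Complex.sub_re]
        linarith
      exact ⟨by linarith, by linarith⟩

/-- **the rest behind `x`** is to the right of `x` -/
theorem Rg.restC (h : Rg h4 h5 L2 θ ρ s k3 k4 k5) (e3 : Even k3) {r0 : ℝ} (hr : r0 + L2 + h5 + 2 * θ ≤ ρ) (h50 : 0 ≤ h5) :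
    RestC 1 r0 ((List.ofFn s).drop k3) := by
  have hl := h.lt
  have hpc : Pc ((List.ofFn s).drop k3) (n - k3) (psh (pos s) k3) := (pc_w s).drop (by omega) e3
  intro k hk0 hk1 hn
  rw [hpc.len] at hk1
  rw [hpc.pos k hk1] at hn ⊢
  rw [lv_one]
  have e5 : (pos s k3).re + 1 ≤ (pos s k4).re := h.g4.2.2.2.1 k4 h.g4.1 le_rfl
  rcases le_or_gt (k3 + k) k4 with h6 | h6
  · have a1 := (h.xy (j := k3 + k) (by omega) h6).1
    simp only [psh, Complex.sub_re]
    linarith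
  · have hL : ‖pos s k4 - pos s k3‖ ≤ L2 := h.g4.2.2.2.2.2.1 k4 h.g4.1.le le_rfl
    have e7 : ‖pos s (k3 + k) - pos s k4‖ ≤ r0 + L2 := by
      have : pos s (k3 + k) - pos s k4 = psh (pos s) k3 k - (pos s k4 - pos s k3) := by
        rw [psh]
        ring
      rw [this]
      exact (norm_sub_le _ _).trans (by linarith)
    simp only [psh, Complex.sub_re]
    rcases h.y (r0 := r0 + L2) (by linarith) h6 (by omega) e7 with ⟨-, h7, h8⟩ | ⟨-, h7⟩ <;> linarith

/-- the block from `x` to `y` in the frame W3 -/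
theorem Rg.blk (h : Rg h4 h5 L2 θ ρ s k3 k4 k5) (e3 : Even k3) (hs : s ∈ saw n) :
    BlkC 1 L2 (((List.ofFn s).take k4).drop k3) := by
  have hl := h.lt
  have hpb : Pc (((List.ofFn s).take k4).drop k3) (k4 - k3) (psh (pos s) k3) := ((pc_w s).take (by omega)).drop (by omega) e3
  have hsw : SW (((List.ofFn s).take k4).drop k3) :=
    SW.drop' (SW.take' (sw_w hs) k4) (by rw [List.length_take, List.length_ofFn]; omega) e3
  rw [hpb.blk ((Nat.even_sub hl.1.le).2 ⟨fun _ => e3, fun _ => h.g4.2.1⟩) hsw]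
  have hre : ∀ k, (psh (pos s) k3 k).re = (pos s (k3 + k)).re - (pos s k3).re := fun k => by rw [psh, Complex.sub_re]
  refine ⟨⟨by omega, fun k hk => ?_, fun k hk => ?_⟩, fun k hk0 hk => ?_⟩
  · rw [lv_one, lv_one, hre, hre, show k3 + (k4 - k3) = k4 by omega]
    linarith [h.g4.2.2.2.2.1 (k3 + k) (by omega) (by omega)]
  · rw [psh]
    exact h.g4.2.2.2.2.2.1 (k3 + k) (by omega) (by omega)
  · rw [lv_one, hre]
    linarith [(h.xy (j := k3 + k) (by omega) (by omega)).1]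

end

/-! ### blocks of lists -/

section

variable {m : ℕ} {b : Fin m → Fin 3} {h L : ℝ}

/-- **blocks between two gates are middle pieces** (the converse: `blk_of_gb`) -/
theorem gb_of_blk (hb : BlkC 1 L (List.ofFn b)) (hf : FstC 1 h (List.ofFn b)) : GB h L b 0 m := by
  have hl : (List.ofFn b).length = m := List.length_ofFn
  have z0 : pos b 0 = 0 := pos_zero _
  have hpos : 0 < m := hl ▸ hb.t.pos
  have hev : Even m := hl ▸ hb.t.ev
  have hr : ∀ j : ℕ, 0 < j → j ≤ m → 0 < (pos b j).re := fun j j1 j2 => by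
    have := hb.right j j1 (by omega)
    rwa [ps_ofFn, lv_one] at this
  have hen : en (List.ofFn b) = pos b m := by rw [en, hl, ps_ofFn]
  have h0 : lv (ev 0) (ps (List.ofFn b) 0) < lv (ev 0) (ps (List.ofFn b) (0 + 1)) := by
    rw [lv_w, lv_w, z0, Complex.zero_re]
    exact hr _ (by omega) (by omega)
  refine ⟨hpos, hev, ?_, fun j j1 j2 => ?_, fun j j1 j2 => ?_, fun j j1 j2 => ?_, ?_, fun k' hk' => ?_⟩
  · have h3 := first_step 0 (w := List.ofFn b) Even.zero (by omega) h0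
    rwa [ps_ofFn, ps_ofFn, ev_zero] at h3
  · have h3 := one_le_lv 0 (w := List.ofFn b) Even.zero (by omega) (by omega) (j := j) (by
      rw [lv_w, lv_w, z0, Complex.zero_re]
      exact hr j j1 j2)
    rwa [lv_w, lv_w] at h3
  · have := hb.t.left j (by omega)
    rwa [hen, ps_ofFn, lv_one, lv_one] at this
  · have := hb.t.ball j (by omega)
    rwa [ps_ofFn, ← sub_zero (pos b j), ← z0] at this
  · have := hf.1
    rw [hen, lv_one] at this
    rw [z0, Complex.zero_re]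
    linarith
  · obtain ⟨-, c2, c3, -, c5, c6⟩ := hk'
    have := hf.2 k' c3 (by omega) ⟨fun j hj => by
      rw [ps_ofFn, ps_ofFn, lv_one, lv_one]
      exact c5 j (Nat.zero_le _) hj, fun j j1 j2 => by
      rw [ps_ofFn, ps_ofFn, lv_one, lv_one]
      linarith [c6 j j1 (by omega)]⟩
    rw [ps_ofFn, lv_one] at this
    rw [z0, Complex.zero_re]
    linarith

/-- the converse -/
theorem blk_of_gb (hs : b ∈ saw m) (hg : GB h L b 0 m) : BlkC 1 L (List.ofFn b) ∧ FstC 1 h (List.ofFn b) := by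
  have hl : (List.ofFn b).length = m := List.length_ofFn
  have z0 : pos b 0 = 0 := pos_zero _
  have hen : en (List.ofFn b) = pos b m := by rw [en, hl, ps_ofFn]
  obtain ⟨g1, g2, g3, g4, g5, g6, g7, g8⟩ := hg
  rw [z0, Complex.zero_re] at g4 g7 g8
  refine ⟨⟨⟨by rw [hl]; exact g2, sw_w hs, by rw [hl]; exact g1, fun k hk => ?_, fun k hk => ?_⟩, fun k hk0 hk => ?_⟩, ?_,
    fun k ek hk hc => ?_⟩
  · rw [hen, ps_ofFn, lv_one, lv_one]
    exact g5 k (Nat.zero_le _) (by omega)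
  · have := g6 k (Nat.zero_le _) (by omega)
    rwa [z0, sub_zero, ← ps_ofFn] at this
  · rw [ps_ofFn, lv_one]
    linarith [g4 k hk0 (by omega)]
  · rw [hen, lv_one]
    linarith
  · rw [hl] at hk
    obtain ⟨c1, c2⟩ := hc
    rw [ps_ofFn, lv_one]
    have := g8 k (scut_of le_rfl ek (Nat.zero_le _) hk (fun i _ hi => ?_) fun j j1 j2 => ?_)
    · linarith
    · have := c1 i hi
      rwa [ps_ofFn, ps_ofFn, lv_one, lv_one] at this
    · have := c2 j j1 (by omega)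
      rwa [ps_ofFn, ps_ofFn, lv_one, lv_one] at this

/-- **the first cut behind `x` in the frame W3** -/
theorem Rg.fst {h4 h5 L2 θ ρ : ℝ} {n : ℕ} {s : Fin n → Fin 3} {k3 k4 k5 : ℕ} (h : Rg h4 h5 L2 θ ρ s k3 k4 k5) (e3 : Even k3) :
    FstC 1 h4 (((List.ofFn s).take k4).drop k3) := by
  have hl := h.lt
  have hpb : Pc (((List.ofFn s).take k4).drop k3) (k4 - k3) (psh (pos s) k3) := ((pc_w s).take (by omega)).drop (by omega) e3
  rw [hpb.fst]
  have hre : ∀ k, lv 1 (psh (pos s) k3 k) = (pos s (k3 + k)).re - (pos s k3).re := fun k => by rw [lv_one, psh, Complex.sub_re]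
  refine ⟨?_, fun k ek hk hc => ?_⟩
  · rw [hre, show k3 + (k4 - k3) = k4 by omega]
    linarith [h.g4.2.2.2.2.2.2.1]
  · obtain ⟨c1, c2⟩ := hc
    simp only [hre] at c1 c2 ⊢
    have := h.g4.2.2.2.2.2.2.2 (k3 + k) (scut_of (by omega) (e3.add ek) (by omega) (by omega) (fun i i1 i2 => ?_)
      fun j j1 j2 => ?_)
    · linarith
    · have := c1 (i - k3) (by omega)
      rw [show k3 + (i - k3) = i by omega] at this
      linarith
    · have := c2 (j - k3) (by omega) (by omega)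
      rw [show k3 + (j - k3) = j by omega] at this
      linarith

end

/-! ### words -/

/-- the pieces of the word -/
lemma ofFn_split {n : ℕ} (s : Fin n → Fin 3) {k1 k3 k4 : ℕ} (h1 : k1 ≤ k3) (h3 : k3 ≤ k4) :
    List.ofFn s = (List.ofFn s).take k1 ++ ((((List.ofFn s).take k3).drop k1) ++
      ((((List.ofFn s).take k4).drop k3) ++ (List.ofFn s).drop k4)) := by
  have e1 : ∀ (w : W3) (i j : ℕ), i ≤ j → (w.take j).drop i ++ w.drop j = w.drop i := by
    intro w i j hij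
    rw [List.drop_take]
    have : w.drop j = (w.drop i).drop (j - i) := by
      rw [List.drop_drop]
      congr 1
      omega
    rw [this, List.take_append_drop]
  rw [e1 _ _ _ h3, e1 _ _ _ h1, List.take_append_drop]

end Pool.Agent.ROT.F3.W8
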