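import Pool.Agent.ROT.W8Geo
import Pool.Agent.ROT.F3Cls
import Pool.Agent.ROT.F3End

/-!
# ROT / W8Geo3 (helper84): row W8 of ROT / F3, walks with native gates at both ends are in the classes of `F3Cls`

* `Dg.pre` : `PreM` (tip .. `x`); `Yg` : thin block behind `x`, then the rest in front of its start; `Yg.edQ`, `Rg.edQ` : `EdQ`;
* **`two_ends`** : native double gates at both ends: `w = p ++ (R ++ q.reverse)` with `p`, `q`, `R` in `Pre`, `Pre`, `Rst`.
-/

set_option autoImplicit false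

namespace Pool.Agent.ROT.F3.W8

open Finset ComplexConjugate
open Pool.Agent.NTS.Res (step pos saw fug)
open Pool.Agent.SCF.Z (SCut GB GBt GC nx_bd rvw)
open NTSF (pos_zero)

section

variable {A0 : ∀ n : ℕ, (Fin n → Fin 3) → ℕ → Prop} {R T h2 h3 θ : ℝ} {n : ℕ} {s : Fin n → Fin 3} {k0 k1 k2 k3 : ℕ}

/-- the inequalities between the shape of the class and the data of the gate -/
structure ShT (P : Tp) (S R h2 θ : ℝ) : Prop where
  RT : R < P.l * S
  h23 : h2 + θ < P.m * S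
  th : P.th * P.m * S ≤ h2
  hr : P.l * S + 4 * R + 2 * θ ≤ P.r * S
  hr2 : P.m * S + 3 * θ ≤ P.r2 * S
  e : P.cs * (R + θ) + P.e * S ≤ (1 - P.cs) * (P.l * S)
  s : 2 * (P.c * θ) ≤ P.κ1 * S
  cs0 : 0 ≤ P.cs
  cs1 : P.cs ≤ 1
  c0 : 0 ≤ P.c
  c1 : P.c ≤ 1

/-- **tip .. `x` is in the class of `F3Cls`** -/
theorem Dg.pre {P : Tp} {S T' : ℝ} (hS : ShT P S R h2 θ) (h : Dg A0 (P.l * S) h2 (P.m * S) θ s k0 k1 k2 k3)
    (hP : SCF.Z.PC A0 id R) (hN : ∀ k' : ℕ, ¬ SCut s 0 k' k0) (hs : s ∈ saw n) (hk : k3 ≤ n) (la : (k1 : ℝ) ≤ P.la * T')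
    (lb : ((k3 - k1 : ℕ) : ℝ) ≤ P.lb * T') : PreM (ev 0) P S T' ((List.ofFn s).take k3) k1 := by
  have hl := h.lt
  have hev := h.even
  have hpt : Pc ((List.ofFn s).take k3) k3 (pos s) := pc_take hk
  have hpd : Pc (((List.ofFn s).take k3).drop k1) (k3 - k1) (psh (pos s) k1) := hpt.drop (by omega) hev.1
  have hth := h.th
  have hR := h.R0 hP
  rw [ev_zero]
  refine ⟨h.dbl hP hN hS.RT hS.h23 hs hk hS.hr hS.hr2, ?_, ?_, ?_, la, by rw [hpd.len]; exact lb⟩
  · obtain ⟨q1, q2, q3, q4, q5, q6⟩ := h.cut hk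
    exact ⟨k2 - k1, q1, q2, q3, q4, hS.th.trans q5⟩
  · unfold EndQ
    rw [List.take_take, min_eq_left (by omega : k1 ≤ k3), ((pc_w s).take (by omega : k1 ≤ n)).en, lv_one]
    obtain ⟨a1, a2, a3⟩ := h.c_pos hP
    have h5 : 0 ≤ (pos s k1).re := by
      have := h.c_left hP (Nat.zero_le k1)
      rwa [pos_zero, Complex.zero_re] at this
    have h6 := norm_le_ri _ (abs_of_nonneg h5).le a3
    have h7 := mul_le_mul_of_nonneg_left h6 hS.cs0
    have h8 := mul_le_mul_of_nonneg_left a1 (sub_nonneg.2 hS.cs1)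
    have := hS.e
    linarith [mul_add P.cs (pos s k1).re (R + θ)]
  · intro k hk0
    rw [hpd.len] at hk0
    rw [hpd.pos k hk0]
    unfold Kn
    rw [lv_one]
    have hκ0 : 0 ≤ P.κ1 * S := le_trans (by have := mul_nonneg hS.c0 hth; linarith) hS.s
    rcases Nat.eq_zero_or_pos k with h0 | h0
    · rw [h0]
      simp only [psh, add_zero, sub_self, norm_zero, Complex.zero_re, mul_zero]
      linarith
    · obtain ⟨a1, a2, a3⟩ := h.cx (j := k1 + k) (by omega) (by omega)
      have a4 : 1 ≤ (psh (pos s) k1 k).re := by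
        simp only [psh, Complex.sub_re]
        linarith
      have a5 : |(psh (pos s) k1 k).im| ≤ 2 * θ := by
        simp only [psh, Complex.sub_im]
        exact a3
      have h6 := norm_le_ri _ (abs_of_nonneg (show 0 ≤ (psh (pos s) k1 k).re by linarith)).le a5
      have h7 := mul_le_mul_of_nonneg_left h6 hS.c0
      have h8 : P.c * (psh (pos s) k1 k).re ≤ (psh (pos s) k1 k).re := by
        have := mul_le_mul_of_nonneg_right hS.c1 (show 0 ≤ (psh (pos s) k1 k).re by linarith)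
        linarith
      have := hS.s
      linarith [mul_add P.c (psh (pos s) k1 k).re (2 * θ)]

end

/-! ### behind `x` -/

/-- a thin block behind `x`, then the rest in front of its start -/
structure Yg (h θ ρ : ℝ) {n : ℕ} (s : Fin n → Fin 3) (k k' : ℕ) : Prop where
  e2 : Even k
  g : GBt h θ s k k'
  c : GC ρ s k'

section

variable {h θ ρ : ℝ} {n : ℕ} {s : Fin n → Fin 3} {k k' : ℕ}

lemma Yg.lt (y : Yg h θ ρ s k k') : k < k' ∧ k' < n := ⟨y.g.1.1, y.c.1⟩

lemma Yg.th (y : Yg h θ ρ s k k') : 0 ≤ θ := (abs_nonneg _).trans (y.g.2 k le_rfl y.g.1.1.le).1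

/-- the rest behind `x` in a ball about `x` -/
lemma Yg.beh (y : Yg h θ ρ s k k') {r0 : ℝ} (hr : r0 + h + 2 * θ ≤ ρ) {j : ℕ} (h1 : k < j) (hj : j ≤ n)
    (hn : ‖pos s j - pos s k‖ ≤ r0) : (j ≤ k' ∧ (pos s k).re + 1 ≤ (pos s j).re ∧ |(pos s j).im - (pos s k).im| ≤ θ) ∨
      (k' < j ∧ (pos s k).re + h + 1 ≤ (pos s j).re) := by
  rcases le_or_gt j k' with h6 | h6
  · exact Or.inl ⟨h6, y.g.1.2.2.2.1 j h1 h6, (y.g.2 j h1.le h6).1⟩
  · refine Or.inr ⟨h6, ?_⟩
    have e1 := y.g.1.2.2.2.2.2.1 k' y.g.1.1.le le_rfl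
    have e2 := y.c.2.2 j h6 hj (by
      calc ‖pos s j - pos s k'‖ = ‖(pos s j - pos s k) - (pos s k' - pos s k)‖ := by ring_nf
        _ ≤ ‖pos s j - pos s k‖ + ‖pos s k' - pos s k‖ := norm_sub_le _ _
        _ ≤ ρ := by linarith)
    linarith [(nx_bd y.g).1]

/-- the inequalities between the thin block behind `x` and the data of the gate -/
structure ShY (P : Tp) (S h θ ρ : ℝ) : Prop where
  h0 : 0 ≤ h
  rg : P.rg * S + h + 2 * θ ≤ ρ
  r0 : (P.r0 * S - P.κ * S) + h + 2 * θ ≤ ρ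
  c0 : 0 ≤ P.c
  c1 : P.c ≤ 1
  κ : P.c * θ ≤ P.κ * S
  hh : P.c * (P.r0 * S - P.κ * S) ≤ h + P.κ * S

/-- **one end of the rest** behind `x` -/
theorem Yg.edQ {P : Tp} {S : ℝ} (hS : ShY P S h θ ρ) (y : Yg h θ ρ s k k') {N : ℕ} (hN : k ≤ N) (hNn : N ≤ n) :
    EdQ (ev 0) P S (((List.ofFn s).take N).drop k) := by
  have hp : Pc (((List.ofFn s).take N).drop k) (N - k) (psh (pos s) k) := ((pc_w s).take hNn).drop hN y.e2
  have hth := y.th
  have h0 := hS.h0
  have hκ0 : 0 ≤ P.κ * S := le_trans (mul_nonneg hS.c0 hth) hS.κ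
  rw [ev_zero]
  constructor
  · intro i i0 hi hn
    rw [hp.len] at hi
    rw [hp.pos i hi] at hn ⊢
    rw [lv_one, psh, Complex.sub_re]
    rw [psh] at hn
    rcases y.beh hS.rg (j := k + i) (by omega) (by omega) hn with ⟨-, h6, -⟩ | ⟨-, h6⟩ <;> linarith
  · intro i hi
    rw [hp.len] at hi
    rw [hp.pos i hi]
    rcases le_or_gt (P.r0 * S - P.κ * S) ‖psh (pos s) k i‖ with h5 | h5
    · exact Or.inr h5
    left
    unfold Kn
    rw [lv_one]
    rcases Nat.eq_zero_or_pos i with i0 | i0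
    · rw [i0]
      simp only [psh, add_zero, sub_self, norm_zero, Complex.zero_re, mul_zero]
      linarith
    · have hre : (psh (pos s) k i).re = (pos s (k + i)).re - (pos s k).re := by rw [psh, Complex.sub_re]
      have him : (psh (pos s) k i).im = (pos s (k + i)).im - (pos s k).im := by rw [psh, Complex.sub_im]
      rcases y.beh hS.r0 (j := k + i) (by omega) (by omega) (by rw [psh] at h5; exact h5.le) with ⟨-, h6, h7⟩ | ⟨-, h6⟩
      · have a4 : 0 ≤ (psh (pos s) k i).re := by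
          rw [hre]
          linarith
        have a5 : |(psh (pos s) k i).im| ≤ θ := by
          rw [him]
          exact h7
        have h8 := mul_le_mul_of_nonneg_left (norm_le_ri _ (abs_of_nonneg a4).le a5) hS.c0
        have h9 := mul_le_mul_of_nonneg_right hS.c1 a4
        linarith [hS.κ, mul_add P.c (psh (pos s) k i).re θ]
      · have h8 := mul_le_mul_of_nonneg_left h5.le hS.c0
        have := hS.hh
        rw [hre]
        linarith

end

/-! ### both ends -/

/-- the rest between the two gates, reversed -/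
lemma mid_reverse {w : W3} {k l : ℕ} (hkl : k + l ≤ w.length) :
    ((w.take (w.length - l)).drop k).reverse = (w.reverse.take (w.length - k)).drop l := by
  refine List.ext_getElem ?_ fun i h1 h2 => ?_
  · simp only [List.length_reverse, List.length_drop, List.length_take]
    omega
  · simp only [List.length_reverse, List.length_drop, List.length_take] at h1 h2
    simp only [List.getElem_reverse, List.getElem_drop, List.getElem_take, List.length_drop, List.length_take]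
    congr 1
    omega

/-- the word with two marks -/
lemma three_split {w : W3} {k l : ℕ} (hkl : k + l ≤ w.length) :
    w = w.take k ++ (((w.take (w.length - l)).drop k) ++ (w.reverse.take l).reverse) := by
  have e1 : (w.reverse.take l).reverse = w.drop (w.length - l) := by
    rw [List.take_reverse, List.reverse_reverse]
  have e2 : ((w.take (w.length - l)).drop k) ++ w.drop (w.length - l) = w.drop k := by
    have h1 : w.drop (w.length - l) = (w.drop k).drop (w.length - l - k) := by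
      rw [List.drop_drop]
      congr 1
      omega
    rw [List.drop_take, h1, List.take_append_drop]
  rw [e1, e2, List.take_append_drop]

/-- **native double gates at both ends**: the word is in the classes of `F3Cls` -/
theorem two_ends {P Q : Tp} {W : Wn} {S T' R R' h2 h2' θ θ' h h' ρ ρ' : ℝ} {A0 A0' : ∀ n : ℕ, (Fin n → Fin 3) → ℕ → Prop}
    (hSP : ShT P S R h2 θ) (hSQ : ShT Q S R' h2' θ') (hYP : ShY P S h θ ρ) (hYQ : ShY Q S h' θ' ρ')
    (hP : SCF.Z.PC A0 id R) (hP' : SCF.Z.PC A0' id R')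
    (hN : ∀ (n : ℕ) (s : Fin n → Fin 3) (k : ℕ), A0 n s k → ∀ k' : ℕ, ¬ SCut s 0 k' k)
    (hN' : ∀ (n : ℕ) (s : Fin n → Fin 3) (k : ℕ), A0' n s k → ∀ k' : ℕ, ¬ SCut s 0 k' k)
    {n : ℕ} (hn : Even n) {s : Fin n → Fin 3} (hs : s ∈ saw n) {k0 k1 k2 k3 k4 l0 l1 l2 l3 l4 : ℕ}
    (hd : Dg A0 (P.l * S) h2 (P.m * S) θ s k0 k1 k2 k3) (hd' : Dg A0' (Q.l * S) h2' (Q.m * S) θ' (rvw s) l0 l1 l2 l3)
    (hy : Yg h θ ρ s k3 k4) (hy' : Yg h' θ' ρ' (rvw s) l3 l4)
    (la : (k1 : ℝ) ≤ P.la * T') (lb : ((k3 - k1 : ℕ) : ℝ) ≤ P.lb * T') (la' : (l1 : ℝ) ≤ Q.la * T')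
    (lb' : ((l3 - l1 : ℕ) : ℝ) ≤ Q.lb * T') (hkl : k3 + l3 ≤ n)
    (far : W.D0 * S ≤ ‖pos s (n - l3) - pos s k3‖) (near : ‖pos s (n - l3) - pos s k3‖ ≤ W.D1 * S)
    (lo : W.t0 * T' ≤ ((n - l3 - k3 : ℕ) : ℝ)) (hi : ((n - l3 - k3 : ℕ) : ℝ) ≤ W.t1 * T') :
    List.ofFn s = (List.ofFn s).take k3 ++ ((((List.ofFn s).take (n - l3)).drop k3) ++
        ((List.ofFn s).reverse.take l3).reverse) ∧
      (List.ofFn s).take k3 ∈ Pre (ev 0) P S T' ∧ (List.ofFn s).reverse.take l3 ∈ Pre (ev 0) Q S T' ∧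
        ((List.ofFn s).take (n - l3)).drop k3 ∈ Rst (ev 0) (ev 0) P Q W S T' := by
  have hl : (List.ofFn s).length = n := List.length_ofFn
  have e0 := three_split (w := List.ofFn s) (k := k3) (l := l3) (by rw [hl]; exact hkl)
  rw [hl] at e0
  have hr : List.ofFn (rvw s) = (List.ofFn s).reverse := ofFn_rvw s
  have ekl := hd.even.2.2
  have ell := hd'.even.2.2
  have hp : Pc (((List.ofFn s).take (n - l3)).drop k3) (n - l3 - k3) (psh (pos s) k3) :=
    ((pc_w s).take (by omega)).drop (by omega) ekl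
  have hsw := sw_w hs
  have hen : en (((List.ofFn s).take (n - l3)).drop k3) = pos s (n - l3) - pos s k3 := by
    rw [hp.en, psh, show k3 + (n - l3 - k3) = n - l3 by omega]
  have hrev := mid_reverse (w := List.ofFn s) (k := k3) (l := l3) (by rw [hl]; exact hkl)
  rw [hl] at hrev
  refine ⟨e0, ⟨k1, hd.pre hSP hP (hN n s k0 hd.a) hs (show k3 ≤ n by omega) la lb⟩, ⟨l1, ?_⟩, ?_⟩
  · rw [← hr]
    exact hd'.pre hSQ hP' (hN' n (rvw s) l0 hd'.a) (rvw_saw.2 hs) (show l3 ≤ n by omega) la' lb'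
  · refine ⟨?_, SW.drop' (SW.take' hsw _) (show k3 ≤ ((List.ofFn s).take (n - l3)).length by rw [List.length_take, hl]; omega) ekl, hy.edQ hYP (show k3 ≤ n - l3 by omega) (show n - l3 ≤ n by omega), ?_,
      by rw [hen]; exact far, by rw [hen]; exact near, by rw [hp.len]; exact lo, by rw [hp.len]; exact hi⟩
    · rw [hp.len, Nat.even_sub (by omega), Nat.even_sub (by omega)]
      exact ⟨fun _ => ekl, fun _ => ⟨fun _ => ell, fun _ => hn⟩⟩
    · rw [hrev, ← hr]
      exact hy'.edQ hYQ (show l3 ≤ n - k3 by omega) (show n - k3 ≤ n by omega)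

end Pool.Agent.ROT.F3.W8
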