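import Pool.Agent.ROT.W8Two
import Pool.Agent.ROT.F3Tip12

/-!
# ROT, F3, row W8 (walks), part 11 (helper94): the lower bounds in natural units

* `Gam_ge` : the gates of a class; `EdM` : the data of one end in natural units (scale `M`, letters in units of `uT M`);
* **`two_nm`** : `two_lowF` in natural units, the scale `M N` is comparable with `size N`, all even `n` in `[N / 2, 2 N]`.
-/

set_option autoImplicit false

open Filter Topology

namespace Pool.Agent.ROT.F3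

open Finset ComplexConjugate
open scoped ENNReal Classical

open Pool.Agent.NTS.Res (pos saw size)

open Pool.Agent.SCF.Z (bm)

/-! ### gates -/

/-- **the gates of a word of the class** -/
lemma Gam_ge {T Rs T' : Set W3} {f Ψ f' : W3 → ℝ} (hf : ∀ a, 0 ≤ f a) (hΨ : ∀ a, 0 ≤ Ψ a) (hf' : ∀ a, 0 ≤ f' a)
    {a R b : W3} (ha : a ∈ T) (hR : R ∈ Rs) (hb : b ∈ T') :
    f a * (Ψ R * f' b) ≤ F3E.Gam (gG T Rs T' f Ψ f') (a ++ (R ++ b.reverse)) := by
  obtain ⟨w, hw⟩ : ∃ w, w = a ++ (R ++ b.reverse) := ⟨_, rfl⟩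
  have hl : w.length = a.length + (R.length + b.length) := by
    rw [hw, List.length_append, List.length_append, List.length_reverse]
  have e1 : w.take a.length = a := by rw [hw, List.take_left]
  have e2 : w.drop a.length = R ++ b.reverse := by rw [hw, List.drop_left]
  have e3 : seg w a.length (a.length + R.length) = R := by
    unfold seg
    rw [e2, Nat.add_sub_cancel_left, List.take_left]
  have e4 : (w.drop (a.length + R.length)).reverse = b := by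
    rw [← List.drop_drop, e2, List.drop_left, List.reverse_reverse]
  have nn : ∀ i j, 0 ≤ gG T Rs T' f Ψ f' w i j := fun i j => by
    unfold gG
    split_ifs
    · exact mul_nonneg (hf _) (mul_nonneg (hΨ _) (hf' _))
    · exact le_rfl
  have e5 : gG T Rs T' f Ψ f' w a.length (a.length + R.length) = f a * (Ψ R * f' b) := by
    unfold gG
    rw [e1, e3, e4, if_pos ⟨⟨by omega, by omega⟩, ha, hR, hb⟩]
  rw [← hw, ← e5]
  unfold F3E.Gam
  have h1 : a.length ∈ range (w.length + 1) := mem_range.2 (by omega)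
  have h2 : a.length + R.length ∈ range (w.length + 1) := mem_range.2 (by omega)
  exact (single_le_sum (f := fun j => gG T Rs T' f Ψ f' w a.length j) (fun j _ => nn _ j) h2).trans
    (single_le_sum (f := fun i => ∑ j ∈ range (w.length + 1), gG T Rs T' f Ψ f' w i j)
      (fun i _ => sum_nonneg fun j _ => nn i j) h1)

/-! ### natural units -/

/-- the data of one end at the scale `M` (lengths in units of `M`, numbers of letters in units of `uT M`): `K` between `r1` and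
`r0`, the outer block has the mass `c1` up to `A (K M) ^ (4 / 3)` letters -/
structure EdM (a Q H A c1 r0 r1 τ : ℝ) (M : ℕ) (P : Tp) (O : Ot) (Y : Tp) (ψ : W3 → ℝ) : Prop where
  r : W8R P O Y
  cs : P.cs ≤ 1
  w : ∃ x K ρ0 : ℝ, W8.Wc P O Y x K ρ0 ∧ x = a * K ∧ ρ0 = Q * K ∧ r1 ≤ K ∧ K ≤ r0 ∧ HpR P O Y ≤ H * K ∧
    ∃ L : ℕ, (L : ℝ) ≤ A * (K * M) ^ (4 / 3 : ℝ) ∧
      c1 ≤ bm (fun _ b => List.ofFn b ∈ OtB 1 O M (uT M)) (fun _ b => ψ (List.ofFn b)) L
  la : τ ≤ P.la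
  lb : τ ≤ P.lb
  ψ : ∀ b, 0 ≤ ψ b ∧ ψ b ≤ 1

/-- the unit of the numbers of letters and the number of steps -/
lemma uT_bd : ∃ cT CT : ℝ, 0 < cT ∧ 0 < CT ∧ ∀ N M : ℕ, 1 ≤ N → size N ≤ 2 * (M : ℝ) → (M : ℝ) ≤ 2 * size N →
    cT * N ≤ uT M ∧ uT M ≤ CT * N := by
  obtain ⟨cs, Cs, hcs, hsz, -⟩ := NTSF.finE
  have hCs : 0 < Cs := by
    have h1 := (hsz 1 le_rfl).2
    have h2 := NTSF.size_pos (n := 1) le_rfl
    rw [Nat.cast_one, Real.one_rpow, mul_one] at h1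
    linarith
  refine ⟨(cs / 2) ^ (4 / 3 : ℝ), (2 * Cs) ^ (4 / 3 : ℝ), by positivity, by positivity, fun N M hN h1 h2 => ?_⟩
  obtain ⟨h3, h4⟩ := hsz N hN
  have hN0 : (0 : ℝ) ≤ N := Nat.cast_nonneg N
  have e : ∀ c : ℝ, 0 ≤ c → (c * (N : ℝ) ^ (3 / 4 : ℝ)) ^ (4 / 3 : ℝ) = c ^ (4 / 3 : ℝ) * N := by
    intro c hc
    rw [Real.mul_rpow hc (by positivity), ← Real.rpow_mul hN0]
    norm_num
  unfold uT
  constructor
  · rw [← e (cs / 2) (by positivity)]
    exact Real.rpow_le_rpow (by positivity) (by linarith) (by norm_num)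
  · rw [← e (2 * Cs) (by positivity)]
    exact Real.rpow_le_rpow (Nat.cast_nonneg _) (by linarith) (by norm_num)

/-- **start gates and end gates together, in natural units**: all even numbers of steps in the window -/
theorem two_nm (a Q H A c1 : ℝ) (ha : 0 < a) (hQ : a ≤ Q) (hH : 0 ≤ H) (hA : 0 ≤ A) (hc1 : 0 < c1) :
    ∃ p k0 K1 : ℝ, 0 < p ∧ 0 < k0 ∧ 0 < K1 ∧ ∀ τ : ℝ, 0 < τ → ∃ r0 : ℝ, 0 < r0 ∧ ∀ r1 : ℝ, 0 < r1 → ∀ M : ℕ → ℕ,
      (∀ᶠ N in atTop, size N ≤ 2 * (M N : ℝ) ∧ (M N : ℝ) ≤ 2 * size N) → ∀ᶠ N : ℕ in atTop, ∀ n : ℕ, Even n →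
        (N : ℝ) / 2 ≤ n → (n : ℝ) ≤ 2 * N → ∀ (P P' : Tp) (O O' : Ot) (Y Y' : Tp) (W : Wn) (ψ ψ' Γ : W3 → ℝ),
          EdM a Q H A c1 r0 r1 τ (M N) P O Y ψ → EdM a Q H A c1 r0 r1 τ (M N) P' O' Y' ψ' →
            W.D0 ≤ k0 → K1 ≤ W.D1 → W.t0 ≤ k0 → K1 ≤ W.t1 → (∀ w, 0 ≤ Γ w) →
              (∀ a ∈ Pre 1 P (M N) (uT (M N)), ∀ b ∈ OtB 1 O (M N) (uT (M N)),
                ∀ R ∈ Rst 1 1 Y Y' W (M N) (uT (M N)), ∀ b' ∈ OtB 1 O' (M N) (uT (M N)),
                  ∀ a' ∈ Pre 1 P' (M N) (uT (M N)), SW (a ++ (b ++ (R ++ (b'.reverse ++ a'.reverse)))) →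
                    ψ b * ψ' b' ≤ Γ (a ++ (b ++ (R ++ (b'.reverse ++ a'.reverse))))) →
                p * ((saw n).card : ℝ) ≤ ∑ s ∈ saw n, Γ (List.ofFn s) := by
  obtain ⟨p, k1, k2, hp, hk1, hk2, H1⟩ := two_lowF a Q H A c1 ha hQ hH hA hc1
  obtain ⟨cT, CT, hcT, hCT, hT⟩ := uT_bd
  obtain ⟨cc, hcc, hcomp⟩ := W8.size_comp
  refine ⟨p, min (k1 * cc / 2) (1 / (4 * CT)), max (2 * k2 / cc) (2 / cT), hp, by positivity, by positivity, fun τ hτ => ?_⟩
  obtain ⟨d0, hd0, H3⟩ := H1 (cT * τ / 2) (by positivity)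
  refine ⟨d0 * cc / 2, by positivity, fun r1 hr1 M hM => ?_⟩
  obtain ⟨n0, H4⟩ := H3 (r1 * cc / 2) (by positivity)
  filter_upwards [hM, eventually_ge_atTop (2 * n0 + 2)] with N g1 g5 n hev w1 w2
    P P' O O' Y Y' W ψ ψ' Γ E E' hD0 hD1 ht0 ht1 hΓ hG
  have hN1 : 1 ≤ N := by omega
  have hN0 : (0 : ℝ) < N := by exact_mod_cast (show 0 < N by omega)
  have hn0 : n0 ≤ n := by
    have : ((2 * n0 + 2 : ℕ) : ℝ) ≤ N := by exact_mod_cast g5
    push_cast at this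
    have h1 : (n0 : ℝ) ≤ n := by linarith
    exact_mod_cast h1
  have hnp : (0 : ℝ) < n := by linarith
  have hn1 : 1 ≤ n := by exact_mod_cast hnp
  have sN := NTSF.size_pos hN1
  have sn := NTSF.size_pos hn1
  have z1 : cc * size n ≤ size N := hcomp n N hn1 (by
    have : (n : ℝ) ≤ 4 * N := by linarith
    exact_mod_cast this)
  have z2 : cc * size N ≤ size n := hcomp N n hN1 (by
    have : (N : ℝ) ≤ 4 * n := by linarith
    exact_mod_cast this)
  obtain ⟨g2, g3⟩ := g1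
  have hS : (0 : ℝ) < M N := by linarith
  obtain ⟨T1, T2⟩ := hT N (M N) hN1 g2 g3
  have hT0 : 0 < uT (M N) := lt_of_lt_of_le (by positivity) T1
  have a1 : cc * (M N : ℝ) ≤ 2 * size n := by
    calc cc * (M N : ℝ) ≤ cc * (2 * size N) := mul_le_mul_of_nonneg_left g3 hcc.le
      _ = 2 * (cc * size N) := by ring
      _ ≤ 2 * size n := by linarith
  have a2 : cc * size n ≤ 2 * (M N : ℝ) := z1.trans g2
  have a3 : cT / 2 * n ≤ uT (M N) := by
    calc cT / 2 * n ≤ cT / 2 * (2 * N) := mul_le_mul_of_nonneg_left w2 (by positivity)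
      _ = cT * N := by ring
      _ ≤ _ := T1
  have a4 : uT (M N) ≤ 2 * CT * n := by
    calc uT (M N) ≤ CT * N := T2
      _ ≤ CT * (2 * n) := mul_le_mul_of_nonneg_left (by linarith) hCT.le
      _ = _ := by ring
  have ed : ∀ (P : Tp) (O : Ot) (Y : Tp) (ψ : W3 → ℝ), EdM a Q H A c1 (d0 * cc / 2) r1 τ (M N) P O Y ψ →
      EdF a Q H A c1 (cT * τ / 2) d0 (r1 * cc / 2) n (M N) (uT (M N)) P O Y ψ := by
    intro P O Y ψ E
    obtain ⟨x, K, ρ0, e1, e2, e3, e4, e5, e6, L, e7, e8⟩ := E.w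
    have hK : 0 < K := by linarith
    refine ⟨E.r, E.cs, ⟨x, K, ρ0, e1, e2, e3, ?_, ?_, e6, L, e7, e8⟩, ?_, ?_, E.ψ⟩
    · calc r1 * cc / 2 * size n = r1 / 2 * (cc * size n) := by ring
        _ ≤ r1 / 2 * (2 * (M N : ℝ)) := mul_le_mul_of_nonneg_left a2 (by positivity)
        _ = r1 * (M N : ℝ) := by ring
        _ ≤ K * (M N : ℝ) := mul_le_mul_of_nonneg_right e4 hS.le
    · calc K * (M N : ℝ) ≤ d0 * cc / 2 * (M N : ℝ) := mul_le_mul_of_nonneg_right e5 hS.le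
        _ = d0 / 2 * (cc * (M N : ℝ)) := by ring
        _ ≤ d0 / 2 * (2 * size n) := mul_le_mul_of_nonneg_left a1 (by positivity)
        _ = d0 * size n := by ring
    · calc cT * τ / 2 * n = τ * (cT / 2 * n) := by ring
        _ ≤ P.la * uT (M N) := mul_le_mul E.la a3 (by positivity) (hτ.le.trans E.la)
    · calc cT * τ / 2 * n = τ * (cT / 2 * n) := by ring
        _ ≤ P.lb * uT (M N) := mul_le_mul E.lb a3 (by positivity) (hτ.le.trans E.lb)
  refine H4 n (M N) (uT (M N)) P P' O O' Y Y' W ψ ψ' Γ hn0 hev hS (ed _ _ _ _ E) (ed _ _ _ _ E') ?_ ?_ ?_ ?_ hΓ hG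
  · calc W.D0 * (M N : ℝ) ≤ k1 * cc / 2 * (M N : ℝ) := mul_le_mul_of_nonneg_right (hD0.trans (min_le_left _ _)) hS.le
      _ = k1 / 2 * (cc * (M N : ℝ)) := by ring
      _ ≤ k1 / 2 * (2 * size n) := mul_le_mul_of_nonneg_left a1 (by positivity)
      _ = k1 * size n := by ring
  · calc k2 * size n = k2 / cc * (cc * size n) := by field_simp
      _ ≤ k2 / cc * (2 * (M N : ℝ)) := mul_le_mul_of_nonneg_left a2 (by positivity)
      _ = 2 * k2 / cc * (M N : ℝ) := by ring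
      _ ≤ W.D1 * (M N : ℝ) := mul_le_mul_of_nonneg_right ((le_max_left _ _).trans hD1) hS.le
  · have h1 : W.t0 ≤ 1 / (4 * CT) := ht0.trans (min_le_right _ _)
    calc 2 * (W.t0 * uT (M N)) ≤ 2 * (1 / (4 * CT) * uT (M N)) := by
          have := mul_le_mul_of_nonneg_right h1 hT0.le
          linarith
      _ ≤ 2 * (1 / (4 * CT) * (2 * CT * n)) := by
          have := mul_le_mul_of_nonneg_left a4 (show 0 ≤ 1 / (4 * CT) by positivity)
          linarith
      _ = n := by field_simp; norm_num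
  · have h1 : 2 / cT ≤ W.t1 := (le_max_right _ _).trans ht1
    calc (n : ℝ) = 2 / cT * (cT / 2 * n) := by field_simp
      _ ≤ 2 / cT * uT (M N) := mul_le_mul_of_nonneg_left a3 (by positivity)
      _ ≤ W.t1 * uT (M N) := mul_le_mul_of_nonneg_right h1 hT0.le

end Pool.Agent.ROT.F3
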