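import Pool.Agent.ROT.F3ClsU

/-!
# ROT / W8Man (helper84): rests and main arcs from two blocks up to outer native gates and a rest between the outer gates

* `OuR P O Y` : relations of the gate `P`, the outer block `O`, the outer gate `Y`; `WnR` : relations of the windows;
* **`rst_out`** : `b ++ (U ++ b'.reverse)` is in `Rst d d' P Q W`, if `b`, `b'` are in `OtB` and `U` is in `Rst d d' Y Y' W2`;
* `nrt_out`, **`man_out`** : the same word is in `Man d d' P Q W s s'`.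
-/

set_option autoImplicit false

namespace Pool.Agent.ROT.F3

open Finset ComplexConjugate
open scoped ENNReal Classical

/-- relations of the gate `P`, of the outer block `O` and of the outer gate `Y` -/
structure OuR (P : Tp) (O : Ot) (Y : Tp) : Prop where
  c : P.c ≤ O.c
  κ : O.κ ≤ P.κ
  cy : O.c ≤ Y.c
  κy : Y.κ < O.m
  κe : Y.κ ≤ O.e + P.κ
  un : 2 * O.r ≤ Y.rg
  r0 : P.r0 + O.r < Y.r0 - Y.κ

/-- relations of the windows: `W2` between the outer gates, `W` between the gates -/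
structure WnR (P Q : Tp) (O O' : Ot) (W2 W : Wn) : Prop where
  D0 : W.D0 + (O.r + O'.r) ≤ W2.D0
  D1 : W2.D1 ≤ W.D1 - (O.r + O'.r)
  t0 : W.t0 ≤ W2.t0
  t1 : W2.t1 ≤ W.t1 - (O.lb + O'.lb)
  far : P.r0 + Q.r0 + 2 * (O.r + O'.r) < W2.D0

/-- the outer block inside of the strip, no return behind `y` -/
structure OuS (O : Ot) (Y : Tp) (s : Sr) : Prop where
  e : 0 ≤ s.e
  hw : O.hw ≤ s.hw
  len : O.r ≤ s.len
  bn : s.bn + Y.κ ≤ O.m
  bn' : O.r + s.bn ≤ Y.r0 - Y.κ

section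

variable {d d' : ℂ} {P Q Y Y' : Tp} {O O' : Ot} {W W2 : Wn} {s s' : Sr} {S T : ℝ} {b b' U : W3}

lemma cone_out {U : W3} (hS : 0 < S) (h : OuR P O Y) (hU : EdQ d Y S U) {i : ℕ} (hi : i ≤ U.length) :
    Kn d O.c (Y.κ * S) (ps U i) ∨ (P.r0 + O.r) * S < ‖ps U i‖ := by
  rcases hU.cone i hi with h1 | h1
  · left
    unfold Kn at h1 ⊢
    have := mul_le_mul_of_nonneg_right h.cy (norm_nonneg (ps U i))
    linarith
  · right
    have := mul_lt_mul_of_pos_right h.r0 hS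
    linarith

/-- **rests** -/
theorem rst_out (hP : P.Ok) (hQ : Q.Ok) (hS : 0 < S) (hT : 0 ≤ T) (h : OuR P O Y) (h' : OuR Q O' Y') (hW : WnR P Q O O' W2 W)
    (hb : OtM d O S T b) (hb' : OtM d' O' S T b') (hU : RsQ d d' Y Y' W2 S T U) :
    RsQ d d' P Q W S T (b ++ (U ++ b'.reverse)) := by
  have m1 : ∀ {x y : ℝ}, x ≤ y → x * S ≤ y * S := fun h => mul_le_mul_of_nonneg_right h hS.le
  have er : U.reverse.length = U.length := List.length_reverse
  refine rst_bTb (κ := Y.κ) (κ' := Y'.κ) hP hQ hS hb hb' h.c h'.c h.κ h'.κ h.κy h.κe h'.κy h'.κe hU.ev hU.sw ?_ ?_ ?_ ?_ ?_ ?_ ?_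
    ?_ ?_
  · exact fun k h0 hk hn => hU.s.right k h0 hk (hn.trans (m1 h.un))
  · exact fun k h0 hk hn => hU.e.right k h0 hk (hn.trans (m1 h'.un))
  · exact fun i _ hi => cone_out hS h hU.s hi
  · exact fun i _ hi => cone_out hS h' hU.e (by rw [er]; exact hi)
  · have := mul_lt_mul_of_pos_right hW.far hS
    linarith [hU.far]
  · linarith [hU.far, m1 hW.D0]
  · linarith [hU.near, m1 hW.D1]
  · have := mul_le_mul_of_nonneg_right hW.t0 hT
    linarith [hU.lo]
  · have := mul_le_mul_of_nonneg_right hW.t1 hT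
    linarith [hU.hi]

/-- **strip and no return** -/
theorem nrt_out (hS : 0 < S) (hs : OuS O Y s) (hYc : 0 ≤ Y.c) (hb : OtM d O S T b) (eb' : Even b'.length)
    (hb' : ∀ k : ℕ, k ≤ b'.length → ‖ps b' k‖ ≤ O'.r * S) (eU : Even U.length) (hU : EdQ d Y S U) {D : ℝ}
    (hD : D * S ≤ ‖en U‖) (hD' : s.bn + O.r + 2 * O'.r ≤ D) (hd : ‖d‖ = 1) : NRt d s S (b ++ (U ++ b'.reverse)) := by
  have m1 : ∀ {x y : ℝ}, x ≤ y → x * S ≤ y * S := fun h => mul_le_mul_of_nonneg_right h hS.le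
  have eb := hb.k.t.ev
  have nb : ‖en b‖ ≤ O.r * S := norm_en_le hb.k.t
  have hlv : ∀ z : ℂ, lv d z ≤ ‖z‖ := fun z => by
    have := lv_le d z
    rwa [hd, one_mul] at this
  refine ⟨b.length, by rw [List.length_append]; omega, fun k hk => ?_, fun k hk hk' => ?_⟩
  · rw [ps_append_left hk]
    refine ⟨?_, ?_, ?_⟩
    · have h1 := mul_nonneg hs.e hS.le
      rcases Nat.eq_zero_or_pos k with h0 | h0
      · rw [h0, ps_zero, lv_zero]
        linarith
      · linarith [hb.k.right k h0 hk]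
    · exact (hlv _).trans ((hb.k.t.ball k hk).trans (m1 hs.len))
    · exact (hb.hw k hk).trans (m1 hs.hw)
  · rw [List.length_append, List.length_append, List.length_reverse] at hk'
    rw [ps_app eb hk]
    obtain ⟨i, hi⟩ : ∃ i, i = k - b.length := ⟨_, rfl⟩
    rw [← hi]
    rcases le_or_gt i U.length with h1 | h1
    · rw [ps_append_left h1]
      rcases hU.cone i h1 with h2 | h2
      · have h3 := hb.f.1
        have h4 : -(Y.κ * S) ≤ lv d (ps U i) := by
          unfold Kn at h2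
          linarith [mul_nonneg hYc (norm_nonneg (ps U i))]
        have h5 : s.bn * S ≤ lv d (en b + ps U i) := by
          rw [lv_add]
          linarith [m1 hs.bn]
        exact h5.trans (hlv _)
      · have h3 : ‖ps U i‖ ≤ ‖en b + ps U i‖ + ‖en b‖ := by
          have : ps U i = (en b + ps U i) - en b := by ring
          conv_lhs => rw [this]
          exact norm_sub_le _ _
        linarith [m1 hs.bn']
    · rw [ps_app eU h1.le, ps_reverse eb' (by omega)]
      obtain ⟨l, hl⟩ : ∃ l, l = b'.length - (i - U.length) := ⟨_, rfl⟩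
      rw [← hl]
      have e1 : en U = (en b + (en U + (ps b' l - en b'))) - en b - ps b' l + en b' := by ring
      have h2 : ‖en U‖ ≤ ‖en b + (en U + (ps b' l - en b'))‖ + ‖en b‖ + ‖ps b' l‖ + ‖en b'‖ := by
        conv_lhs => rw [e1]
        refine (norm_add_le _ _).trans ?_
        refine add_le_add ?_ le_rfl
        refine (norm_sub_le _ _).trans ?_
        exact add_le_add (norm_sub_le _ _) le_rfl
      have h3 := hb' l (by omega)
      have h4 : ‖en b'‖ ≤ O'.r * S := hb' b'.length le_rfl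
      linarith [m1 hD']

/-- **main arcs** -/
theorem man_out (hP : P.Ok) (hQ : Q.Ok) (hS : 0 < S) (hT : 0 ≤ T) (hd : ‖d‖ = 1) (hd' : ‖d'‖ = 1) (h : OuR P O Y)
    (h' : OuR Q O' Y') (hW : WnR P Q O O' W2 W) (hs : OuS O Y s) (hs' : OuS O' Y' s')
    (f1 : s.bn + O.r + 2 * O'.r ≤ W2.D0) (f2 : s'.bn + O'.r + 2 * O.r ≤ W2.D0)
    (hb : OtM d O S T b) (hb' : OtM d' O' S T b') (hU : RsQ d d' Y Y' W2 S T U) :
    MnQ d d' P Q W s s' S T (b ++ (U ++ b'.reverse)) := by
  have hc : 0 ≤ O.c := le_trans (by linarith [hP.c, hP.cs]) h.c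
  have hc' : 0 ≤ O'.c := le_trans (by linarith [hQ.c, hQ.cs]) h'.c
  refine ⟨rst_out hP hQ hS hT h h' hW hb hb' hU, ?_, ?_⟩
  · exact nrt_out hS hs (hc.trans h.cy) hb hb'.k.t.ev (fun k hk => hb'.k.t.ball k hk) hU.ev hU.s hU.far f1 hd
  · have e1 : (b ++ (U ++ b'.reverse)).reverse = b' ++ (U.reverse ++ b.reverse) := by
      simp [List.reverse_append]
    rw [e1]
    refine nrt_out hS hs' (hc'.trans h'.cy) hb' hb.k.t.ev (fun k hk => hb.k.t.ball k hk)
      (by rw [List.length_reverse]; exact hU.ev) hU.e ?_ f2 hd'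
    rw [en_reverse hU.ev, norm_neg]
    exact hU.far

lemma mem_rst_out (hP : P.Ok) (hQ : Q.Ok) (hS : 0 < S) (hT : 0 ≤ T) (h : OuR P O Y) (h' : OuR Q O' Y')
    (hW : WnR P Q O O' W2 W) (hb : b ∈ OtB d O S T) (hb' : b' ∈ OtB d' O' S T) (hU : U ∈ Rst d d' Y Y' W2 S T) :
    b ++ (U ++ b'.reverse) ∈ Rst d d' P Q W S T := rst_out hP hQ hS hT h h' hW hb hb' hU

lemma mem_man_out (hP : P.Ok) (hQ : Q.Ok) (hS : 0 < S) (hT : 0 ≤ T) (hd : ‖d‖ = 1) (hd' : ‖d'‖ = 1) (h : OuR P O Y)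
    (h' : OuR Q O' Y') (hW : WnR P Q O O' W2 W) (hs : OuS O Y s) (hs' : OuS O' Y' s')
    (f1 : s.bn + O.r + 2 * O'.r ≤ W2.D0) (f2 : s'.bn + O'.r + 2 * O.r ≤ W2.D0) (hb : b ∈ OtB d O S T)
    (hb' : b' ∈ OtB d' O' S T) (hU : U ∈ Rst d d' Y Y' W2 S T) : b ++ (U ++ b'.reverse) ∈ Man d d' P Q W s s' S T :=
  man_out hP hQ hS hT hd hd' h h' hW hs hs' f1 f2 hb hb' hU

end

end Pool.Agent.ROT.F3
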