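import Pool.Agent.ROT.W8Man
import Pool.Agent.ROT.F3PrmO22

/-!
# ROT / W8ManO (helper84): the relations of `W8Man` from helper22's `OutOk`

`OutOk.ouN`, `OutOk.ouF`, `OutOk.ouUp`, `OutOk.ouS`.
-/

set_option autoImplicit false

namespace Pool.Agent.ROT.F3

section

variable {E : En} {O : Ot} {Y : Tp} {ε : ℝ}

lemma OuR.up {P : Tp} (h : OuR P O Y) (y : ℝ) : OuR (P.up y) O Y := ⟨h.c, h.κ, h.cy, h.κy, h.κe, h.un, h.r0⟩

lemma OutOk.ouN (h : OutOk E O Y ε) (hE : E.Ok ε) : OuR E.n O Y :=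
  ⟨h.cn, h.κn, h.cy, h.κy', by linarith [h.κy, hE.n.κ], by linarith [h.un, hE.n.r, hE.n.r2], h.r0n⟩

lemma OutOk.ouF (h : OutOk E O Y ε) (hE : E.Ok ε) (hε : 0 ≤ ε) : OuR E.f O Y :=
  ⟨by linarith [h.cf], h.κf, h.cy, h.κy', by linarith [h.κy, hE.f.κ], by linarith [h.unf, hE.f.r, hE.f.r2],
    by linarith [h.r0f, h.m, h.mr]⟩

lemma OutOk.ouUp (h : OutOk E O Y ε) (hE : E.Ok ε) (hε : 0 ≤ ε) (y : ℝ) : OuR (E.f.up y) O Y := (h.ouF hE hε).up y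

lemma OutOk.ouS (h : OutOk E O Y ε) (hE : E.Ok ε) (hε : 0 ≤ ε) : OuS O Y E.s := by
  have hk : 0 ≤ E.k := by
    unfold En.k
    linarith [hE.rk, hE.f.r2]
  have h1 : 0 ≤ ε * (2 * O.r) := mul_nonneg hε (by linarith [h.m, h.mr])
  exact ⟨hE.se.le, by linarith [h.hws, h.hw], h.len, by linarith [h.bn], by linarith [h.bn']⟩

end

end Pool.Agent.ROT.F3
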