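import Pool.Agent.ROT.W8Geo
import Pool.Agent.ROT.W8Bm
import Pool.Agent.ROT.F3Cls

/-!
# ROT / W8Ot (helper4 for helper94): the mass of the blocks up to an outer native gate, from below

* `gbt_ot` : a thin block is a block of the class `OtB`;
* **`ot_mass`**, `ot_massW` : the blocks of `OtB 1 O S T` with at most `A * S ^ (4 / 3)` letters have a mass bounded below.
-/

set_option autoImplicit false

namespace Pool.Agent.ROT.F3.W8

open Finset ComplexConjugate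
open scoped ENNReal Classical
open Pool.Agent.NTS.Res (step pos saw fug)
open Pool.Agent.SCF.Z (bm bwt GBt GB blk)

/-- **a thin block is in the class** -/
theorem gbt_ot {O : Ot} {h θ S T : ℝ} {m : ℕ} {b : Fin m → Fin 3} (hs : b ∈ saw m) (hb : GBt h θ b 0 m) (hh : h = O.m * S)
    (hθ : 0 ≤ θ) (h1 : h + 2 * θ ≤ O.r * S) (h2 : θ ≤ O.hw * S) (h3 : θ ≤ O.κ * S) (hc : O.c ≤ 1)
    (h4 : O.e * S + θ ≤ (1 - O.c) * h) (hl : (m : ℝ) ≤ O.lb * T) : List.ofFn b ∈ OtB 1 O S T := by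
  have hlen : (List.ofFn b).length = m := List.length_ofFn
  have z0 : pos b 0 = 0 := NTSF.pos_zero _
  obtain ⟨q1, q2⟩ := blk_of_gb hs hb.1
  have hps : ∀ k : ℕ, k ≤ (List.ofFn b).length → 0 ≤ (pos b k).re ∧ |(pos b k).im| ≤ θ ∧ ps (List.ofFn b) k = pos b k := by
    intro k hk
    rw [hlen] at hk
    refine ⟨?_, ?_, ps_ofFn b k⟩
    · rcases Nat.eq_zero_or_pos k with h0 | h0
      · rw [h0, z0, Complex.zero_re]
      · have := hb.1.2.2.2.1 k h0 hk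
        rw [z0, Complex.zero_re] at this
        linarith
    · have := (hb.2 k (Nat.zero_le _) hk).1
      rwa [z0, Complex.zero_im, sub_zero] at this
  have hlv : ∀ z : ℂ, lv 1 z = z.re := fun z => by rw [lv, map_one, one_mul]
  have hlt : ∀ z : ℂ, ltl 1 z = z.im := fun z => by rw [ltl, map_one, one_mul]
  -- the norm
  have hcn : ∀ k : ℕ, k ≤ (List.ofFn b).length → O.c * ‖pos b k‖ ≤ O.c * (pos b k).re + θ ∨
      (O.c < 0 ∧ O.c * ‖pos b k‖ ≤ O.c * (pos b k).re) := by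
    intro k hk
    obtain ⟨a1, a2, -⟩ := hps k hk
    have a3 := Complex.norm_le_abs_re_add_abs_im (pos b k)
    have a4 := Complex.abs_re_le_norm (pos b k)
    rw [abs_of_nonneg a1] at a3 a4
    rcases le_or_gt 0 O.c with hc0 | hc0
    · left
      have a5 : O.c * ‖pos b k‖ ≤ O.c * ((pos b k).re + |(pos b k).im|) := mul_le_mul_of_nonneg_left a3 hc0
      have a6 : O.c * |(pos b k).im| ≤ 1 * θ := mul_le_mul hc a2 (abs_nonneg _) zero_le_one
      linarith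
    · exact Or.inr ⟨hc0, mul_le_mul_of_nonpos_left a4 hc0.le⟩
  refine ⟨⟨⟨q1.t.ev, q1.t.sw, q1.t.pos, fun k hk => q1.t.left k hk, fun k hk => (q1.t.ball k hk).trans h1⟩, q1.right⟩, ?_,
    fun k hk => ?_, fun k hk => ?_, ?_, by rw [hlen]; exact hl⟩
  · rw [← hh]
    exact q2
  · obtain ⟨-, a2, a3⟩ := hps k hk
    rw [a3, hlt]
    exact a2.trans h2
  · obtain ⟨a1, a2, a3⟩ := hps k hk
    unfold Kn
    rw [a3, hlv]
    rcases hcn k hk with h5 | ⟨h5, h6⟩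
    · have : O.c * (pos b k).re ≤ 1 * (pos b k).re := mul_le_mul_of_nonneg_right hc a1
      linarith
    · have : O.c * (pos b k).re ≤ 0 := mul_nonpos_of_nonpos_of_nonneg h5.le a1
      linarith
  · obtain ⟨a1, a2, a3⟩ := hps _ le_rfl
    unfold EndQ
    rw [en, a3, hlv]
    rw [hlen] at a1 ⊢
    have a4 : h ≤ (pos b m).re := by
      have := hb.1.2.2.2.2.2.2.1
      rw [z0, Complex.zero_re] at this
      linarith
    have a5 : (1 - O.c) * h ≤ (1 - O.c) * (pos b m).re := mul_le_mul_of_nonneg_left a4 (by linarith)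
    rcases hcn m (by rw [hlen]) with h5 | ⟨h5, h6⟩
    · linarith
    · linarith

/-- **the mass of the blocks** -/
theorem ot_mass {O : Ot} {A : ℝ} (hm : 0 < O.m) (hr : O.m < O.r) (hw : 0 < O.hw) (hκ : 0 < O.κ) (hc : O.c ≤ 1)
    (he : O.e < (1 - O.c) * O.m) (hA : 0 < A) : ∃ c1 S0 : ℝ, 0 < c1 ∧ ∀ S T : ℝ, S0 ≤ S → A * S ^ (4 / 3 : ℝ) ≤ O.lb * T →
      ∀ M : ℕ, ⌊A * S ^ (4 / 3 : ℝ)⌋₊ ≤ M →
        c1 ≤ bm (fun _ b => List.ofFn b ∈ {b | b ∈ OtB 1 O S T ∧ (b.length : ℝ) ≤ A * S ^ (4 / 3 : ℝ)}) (fun _ _ => 1) M := by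
  -- the width
  obtain ⟨x, hx⟩ : ∃ x : ℝ, x = min (min (O.hw) (O.κ)) (min ((O.r - O.m) / 2) ((1 - O.c) * O.m - O.e)) := ⟨_, rfl⟩
  have hx0 : 0 < x := by
    rw [hx]
    exact lt_min (lt_min hw hκ) (lt_min (by linarith) (by linarith))
  have hx1 : x ≤ O.hw := by rw [hx]; exact (min_le_left _ _).trans (min_le_left _ _)
  have hx2 : x ≤ O.κ := by rw [hx]; exact (min_le_left _ _).trans (min_le_right _ _)
  have hx3 : x ≤ (O.r - O.m) / 2 := by rw [hx]; exact (min_le_right _ _).trans (min_le_left _ _)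
  have hx4 : x ≤ (1 - O.c) * O.m - O.e := by rw [hx]; exact (min_le_right _ _).trans (min_le_right _ _)
  have hmp : 0 < O.m ^ (4 / 3 : ℝ) := Real.rpow_pos_of_pos hm _
  obtain ⟨t, h0, ht, hb⟩ := blk (x / O.m) (A / (2 * O.m ^ (4 / 3 : ℝ))) (by positivity) (by positivity)
  obtain ⟨S1, hS1⟩ : ∃ S1 : ℝ, S1 = max (max (h0 / O.m) 1) ((2 / A) ^ (3 / 4 : ℝ)) := ⟨_, rfl⟩
  refine ⟨t, S1, ht, fun S T hS hT M hM => ?_⟩
  have hSa : h0 / O.m ≤ S := by
    refine le_trans ?_ hS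
    rw [hS1]
    exact (le_max_left _ _).trans (le_max_left _ _)
  have hSb : 1 ≤ S := by
    refine le_trans ?_ hS
    rw [hS1]
    exact (le_max_right _ _).trans (le_max_left _ _)
  have hSc : (2 / A) ^ (3 / 4 : ℝ) ≤ S := by
    refine le_trans ?_ hS
    rw [hS1]
    exact le_max_right _ _
  have hS0 : 0 < S := by linarith
  have hSp : 0 < S ^ (4 / 3 : ℝ) := Real.rpow_pos_of_pos hS0 _
  -- the number of letters
  have hS2 : 2 ≤ A * S ^ (4 / 3 : ℝ) := by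
    have h1 := Real.rpow_le_rpow (by positivity) hSc (by norm_num : (0 : ℝ) ≤ 4 / 3)
    rw [← Real.rpow_mul (by positivity)] at h1
    norm_num at h1
    rw [div_le_iff₀ hA] at h1
    linarith
  obtain ⟨M0, hM0⟩ : ∃ M0 : ℕ, M0 = ⌊A * S ^ (4 / 3 : ℝ)⌋₊ := ⟨_, rfl⟩
  rw [← hM0] at hM
  have hM1 : (M0 : ℝ) ≤ A * S ^ (4 / 3 : ℝ) := by
    rw [hM0]
    exact Nat.floor_le (by positivity)
  have hM2 : A * S ^ (4 / 3 : ℝ) - 1 < M0 := by
    rw [hM0]
    have := Nat.lt_floor_add_one (A * S ^ (4 / 3 : ℝ))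
    linarith
  have hfug : (0 : ℝ) ≤ fug := by
    unfold fug
    positivity
  have hO : O.m * (x / O.m) = x := by field_simp
  have key := hb (O.m * S) (x * S) (by
    rw [div_le_iff₀ hm] at hSa
    linarith) (le_of_eq (by
      calc x / O.m * (O.m * S) = O.m * (x / O.m) * S := by ring
        _ = x * S := by rw [hO])) M0 (by
      rw [Real.mul_rpow hm.le hS0.le]
      have e : A / (2 * O.m ^ (4 / 3 : ℝ)) * (O.m ^ (4 / 3 : ℝ) * S ^ (4 / 3 : ℝ)) = A * S ^ (4 / 3 : ℝ) / 2 := by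
        field_simp
      rw [e]
      linarith)
  refine key.trans ?_
  obtain ⟨B, hB⟩ : ∃ B : Set W3, B = {b | b ∈ OtB 1 O S T ∧ (b.length : ℝ) ≤ A * S ^ (4 / 3 : ℝ)} := ⟨_, rfl⟩
  rw [← hB]
  unfold bm
  refine (sum_le_sum fun m hm' => ?_).trans (sum_le_sum_of_subset_of_nonneg (range_subset_range.2 (Nat.succ_le_succ hM))
    fun m _ _ => mul_nonneg (sum_nonneg fun _ _ => zero_le_one) (pow_nonneg hfug _))
  unfold bwt
  refine mul_le_mul_of_nonneg_right ?_ (pow_nonneg hfug _)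
  rw [sum_const, nsmul_eq_mul, mul_one, Nat.cast_le]
  refine card_le_card fun b hb' => ?_
  rw [mem_filter] at hb' ⊢
  refine ⟨hb'.1, ?_⟩
  rw [hB]
  have hml : (m : ℝ) ≤ A * S ^ (4 / 3 : ℝ) := by
    have h1 : m ≤ M0 := by
      have := mem_range.1 hm'
      omega
    have h2 : (m : ℝ) ≤ M0 := by exact_mod_cast h1
    linarith
  refine ⟨gbt_ot hb'.1 hb'.2 rfl (by positivity) ?_ (mul_le_mul_of_nonneg_right hx1 hS0.le)
    (mul_le_mul_of_nonneg_right hx2 hS0.le) hc ?_ (hml.trans hT), ?_⟩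
  · have h1 : 2 * x ≤ O.r - O.m := by linarith
    have h2 := mul_le_mul_of_nonneg_right h1 hS0.le
    linarith
  · have h2 := mul_le_mul_of_nonneg_right hx4 hS0.le
    linarith
  · rw [List.length_ofFn]
    exact hml

/-- the blocks with at most `A * S ^ (4 / 3)` letters -/
def OtL (O : Ot) (A S T : ℝ) : Set W3 := {b | b ∈ OtB 1 O S T ∧ (b.length : ℝ) ≤ A * S ^ (4 / 3 : ℝ)}

/-- **the mass of the blocks, in words** -/
theorem ot_massW {O : Ot} {A : ℝ} (hm : 0 < O.m) (hr : O.m < O.r) (hw : 0 < O.hw) (hκ : 0 < O.κ) (hc : O.c ≤ 1)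
    (he : O.e < (1 - O.c) * O.m) (hA : 0 < A) : ∃ c1 S0 : ℝ, 0 < c1 ∧ ∀ S T : ℝ, S0 ≤ S → A * S ^ (4 / 3 : ℝ) ≤ O.lb * T →
      ENNReal.ofReal c1 ≤ ∑' b : W3, if b ∈ OtL O A S T then wx b * 1 else 0 := by
  obtain ⟨c1, S0, h1, h2⟩ := ot_mass hm hr hw hκ hc he hA
  refine ⟨c1, max S0 1, h1, fun S T hS hT => ?_⟩
  have hS0 : 0 < S := lt_of_lt_of_le one_pos ((le_max_right _ _).trans hS)
  have h3 := h2 S T ((le_max_left _ _).trans hS) hT _ le_rfl
  have e := sb_bm (B := OtL O A S T) (ψ := fun _ => 1) (M := ⌊A * S ^ (4 / 3 : ℝ)⌋₊) (fun b hb => hb.1.k.t.sw)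
    (fun b hb => Nat.le_floor hb.2) fun _ _ => ENNReal.one_ne_top
  rw [e]
  refine ENNReal.ofReal_le_ofReal (h3.trans (le_of_eq ?_))
  simp only [ENNReal.toReal_one]
  rfl

end Pool.Agent.ROT.F3.W8
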