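import Pool.Agent.ROT.W8Ex
import Pool.Agent.ROT.W8Psi

/-!
# ROT, F3, row W8 (walks), part 7 (helper94): the class with a weighted block, every number of steps

**`psi_exact`** : if the mass of the blocks with the weight `ψ` is at least `c1`, then for every number of steps `n ≥ n0` and every
scale `δ1 size n ≤ S ≤ δ0 size n` the mean of the weight is at least `p`, even restricted to the walks which are outside of the ball
from the time `τ n` on; `p` depends neither on `τ` nor on `δ1` nor on the class of blocks and the weight.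
-/

set_option autoImplicit false

open Filter Topology

namespace Pool.Agent.ROT.F3.W8

open Finset

open Pool.Agent.NTS.Res (pos saw fug step size)

open Pool.Agent.SCF.Z (GB bm)

open Classical in
/-- **the class with a weighted block, every number of steps** -/
theorem psi_exact (ra η Q A c1 : ℝ) (hra : 0 < ra) (hη : 0 < η) (hQ : ra ≤ Q) (hA : 0 ≤ A) (hc1 : 0 < c1) :
    ∃ p : ℝ, 0 < p ∧ ∀ τ : ℝ, 0 < τ → ∃ δ0 : ℝ, 0 < δ0 ∧ ∀ δ1 : ℝ, 0 < δ1 → ∃ n0 : ℕ, ∀ (n : ℕ) (S : ℝ), n0 ≤ n →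
      δ1 * size n ≤ S → S ≤ δ0 * size n →
        ∀ (T h2 h3 h4 h5 θ ρ L2 : ℝ) (Bk : ∀ m : ℕ, (Fin m → Fin 3) → Prop) (ψ : ∀ m : ℕ, (Fin m → Fin 3) → ℝ) (M2 : ℕ),
          Shp5 ra η Q S T h2 h3 h5 θ ρ L2 → (∀ (m : ℕ) (b : Fin m → Fin 3), Bk m b → GB h4 L2 b 0 m) →
            (∀ (m : ℕ) (b : Fin m → Fin 3), 0 ≤ ψ m b ∧ ψ m b ≤ 1) → (M2 : ℝ) ≤ A * S ^ (4 / 3 : ℝ) → c1 ≤ bm Bk ψ M2 →
              p * ((saw n).card : ℝ) ≤ ∑ s ∈ (saw n).filter (fun s => ∀ j : ℕ, τ * n ≤ j → j ≤ n → 2 * ρ < ‖pos s j‖),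
                v5 Bk ψ ra S T h2 h3 h5 θ ρ n s := by
  obtain ⟨p1, d0, hp1, hd0, hwin⟩ := psi_win ra η Q A hra hη hQ hA
  have hQ0 : 0 < Q := lt_of_lt_of_le hra hQ
  refine ⟨p1 * c1 / 2, by positivity, fun τ hτ => ?_⟩
  obtain ⟨d2, n2, hd2, hex⟩ := exact_abs (p1 * c1) (2 * Q) τ (by positivity) (by positivity) hτ
  refine ⟨min d0 d2, lt_min hd0 hd2, fun δ1 hδ1 => ?_⟩
  obtain ⟨nw, hw⟩ := hwin δ1 hδ1
  refine ⟨max (max nw n2) 1, fun n S hn hS1 hS2 T h2 h3 h4 h5 θ ρ L2 Bk ψ M2 hs hB hψ hM hc => ?_⟩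
  have q1 : nw ≤ n := (le_max_left _ _).trans ((le_max_left _ _).trans hn)
  have q2 : n2 ≤ n := (le_max_right _ _).trans ((le_max_left _ _).trans hn)
  have hsz := NTSF.size_pos (n := n) ((le_max_right _ _).trans hn)
  obtain ⟨g1, g2, g3⟩ := hw n S q1 hS1 (hS2.trans (mul_le_mul_of_nonneg_right (min_le_left _ _) hsz.le))
  have g4 := g3 T h2 h3 h4 h5 θ ρ L2 Bk ψ M2 hs hB (fun m b => (hψ m b).1) hM
  have hra' : 0 ≤ ra * S := by positivity
  have hη' : 0 ≤ η * S := by positivity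
  have hX : 0 ≤ ∑ N ∈ Finset.Icc (n / 2) (3 * n), ((saw N).card : ℝ) * fug ^ N :=
    sum_nonneg fun N _ => mul_nonneg (Nat.cast_nonneg _) (pow_nonneg fug_pos.le _)
  obtain ⟨n', m1, m2, m3⟩ := pick (p := p1 * c1) (e := fun N => ∑ s ∈ saw N, v5 Bk ψ ra S T h2 h3 h5 θ ρ N s) g1
    (le_trans (mul_le_mul_of_nonneg_right (mul_le_mul_of_nonneg_left hc hp1.le) hX) g4)
  have hρ := hs.r2
  have h5 := hex n n' S (fun k s => v5 Bk ψ ra S T h2 h3 h5 θ ρ k s) q2 m1 m2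
    (hS2.trans (mul_le_mul_of_nonneg_right (min_le_right _ _) hsz.le))
    (fun k s => ⟨v5_nonneg fun m b => (hψ m b).1, v5_le_one hs hB hra' hη' fun m b => (hψ m b).2⟩)
    (fun m k k' s s' _ _ hm hm' he e1 e2 => v5_congr hs hB hra' hη' hm hm' he
      (fun j j1 j2 => lt_of_le_of_lt (by linarith) (e1 j j1 j2)) fun j j1 j2 => lt_of_le_of_lt (by linarith) (e2 j j1 j2)) m3
  refine h5.trans (sum_le_sum_of_subset_of_nonneg (fun s hs' => ?_) fun s _ _ => v5_nonneg fun m b => (hψ m b).1)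
  rw [mem_filter] at hs' ⊢
  exact ⟨hs'.1, fun j j1 j2 => lt_of_le_of_lt (by linarith) (hs'.2 j j1 j2)⟩

end Pool.Agent.ROT.F3.W8
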