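import Pool.Agent.ROT.W8Up
import Pool.Agent.SCF.P0Z
import Pool.Agent.SCF.Del
import Pool.Agent.SCF.Uniq
import Pool.Agent.SCF.FarZ

/-!
# ROT, F3, row W8 (walks), part 2 (helper94): the mass of the rests from below

* `rst ρ m` : mass of the walks with `m` steps, first step `+1`, to the right of the start in the ball of radius `ρ`;
* `t0_split` : the start gates are pairs (start piece, rest);
* **`rlow`** : `c * sum of the walks <= Xb K * sum of the rests`, from `SCF.Z.p0`, `far1`, `gu_mass`.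
-/

set_option autoImplicit false

open Filter Topology

namespace Pool.Agent.ROT.F3.W8

open Finset HexObs.NTA

open Pool.Agent.NTS.Res (pos saw fug step size)

open NTSF (pos_zero pos_succ mem_saw)

open Pool.Agent.SCF.Z

open scoped ENNReal

lemma fug_pos : 0 < fug := by
  unfold fug
  positivity

open Classical in
/-- the mass of the rests with `m` steps -/
noncomputable def rst (ρ : ℝ) (m : ℕ) : ℝ := (((saw m).filter fun v => GC ρ v 0).card : ℝ) * fug ^ m

lemma rst_nonneg (ρ : ℝ) (m : ℕ) : 0 ≤ rst ρ m := mul_nonneg (Nat.cast_nonneg _) (pow_nonneg fug_pos.le _)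

lemma gc_mono {ρ ρ' : ℝ} {n k : ℕ} {s : Fin n → Fin 3} (h : GC ρ s k) (hρ : ρ' ≤ ρ) : GC ρ' s k :=
  ⟨h.1, h.2.1, fun j h1 h2 h3 => h.2.2 j h1 h2 (h3.trans hρ)⟩

lemma rst_mono {ρ ρ' : ℝ} (hρ : ρ' ≤ ρ) (m : ℕ) : rst ρ m ≤ rst ρ' m := by
  classical
  unfold rst
  refine mul_le_mul_of_nonneg_right ?_ (pow_nonneg fug_pos.le _)
  exact_mod_cast Finset.card_le_card fun v hv => by
    rw [mem_filter] at hv ⊢
    exact ⟨hv.1, gc_mono hv.2 hρ⟩

/-- a piece of a walk is a walk -/
lemma md_mem {n k m : ℕ} (hk : Even k) (hkm : k + m ≤ n) {s : Fin n → Fin 3} (hs : s ∈ saw n) : md s k m ∈ saw m := by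
  rw [mem_saw] at hs ⊢
  intro i j hi hj he
  rw [pos_md s hk hkm i hi, pos_md s hk hkm j hj, sub_left_inj] at he
  have := hs (k + i) (k + j) (by omega) (by omega) he
  omega

open Classical in
/-- **a start gate is a start piece and a rest** -/
theorem t0_split {a r ρ : ℝ} {n k : ℕ} (hkn : k ≤ n) :
    ((saw n).filter fun s => T0 a r ρ s k).card ≤
      ((saw k).filter fun s => GU a r s k).card * ((saw (n - k)).filter fun v => GC ρ v 0).card := by
  rw [← card_product]
  refine card_le_card_of_injOn (fun s => (md s 0 k, md s k (n - k))) (fun s hs => ?_) (fun s hs t ht he => ?_)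
  · rw [mem_coe, mem_filter] at hs
    obtain ⟨hs, hg, hc⟩ := hs
    have hk := hg.1
    rw [mem_coe, mem_product, mem_filter, mem_filter]
    refine ⟨⟨md_mem (by simp) (by omega) hs, gu_congr (fun t ht => ?_) hg⟩, md_mem hk (by omega) hs, ?_, ?_, ?_⟩
    · rw [pos_md s (by simp) (by omega) t ht, pos_zero, sub_zero, zero_add]
    · have := hc.1
      omega
    · rw [zero_add, pos_md s hk (by omega) 1 (by have := hc.1; omega), pos_zero, hc.2.1]
      ring
    · intro j h1 h2 h3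
      rw [pos_zero, sub_zero, pos_md s hk (by omega) j h2] at h3
      have h4 := hc.2.2 (k + j) (by omega) (by omega) h3
      rw [pos_zero, pos_md s hk (by omega) j h2, Complex.sub_re, Complex.zero_re]
      linarith
  · simp only [Prod.mk.injEq] at he
    funext i
    rcases Nat.lt_or_ge (i : ℕ) k with h | h
    · have h1 := congrFun he.1 ⟨i, h⟩
      unfold md at h1
      have e : (⟨0 + (i : ℕ), by have := i.2; omega⟩ : Fin n) = i := Fin.ext (by simp)
      simp only [zero_add] at h1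
      first
        | simpa using h1
        | (rw [dif_pos i.2, dif_pos i.2] at h1; exact h1)
    · have h1 := congrFun he.2 ⟨(i : ℕ) - k, by have := i.2; omega⟩
      unfold md at h1
      have e : k + ((i : ℕ) - k) = i := by omega
      simp only [e] at h1
      first
        | simpa using h1
        | (rw [dif_pos i.2, dif_pos i.2] at h1; exact h1)

open Classical in
/-- the early start gates of one number of steps -/
theorem early {ε κ δF : ℝ} (hκ : 0 < κ) {n : ℕ} {a r ρ : ℝ} (hr : r ≤ ρ) (hrF : r ≤ δF * size n)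
    (hfar : (((saw n).filter fun s => ∃ j : ℕ, κ * n ≤ j ∧ j ≤ n ∧ ‖pos s j‖ ≤ δF * size n).card : ℝ) ≤ ε * ((saw n).card : ℝ)) :
    ∑ s ∈ saw n, th0 a r ρ s ≤ ε * ((saw n).card : ℝ) +
      ∑ k ∈ (range (n + 1)).filter (fun k : ℕ => (k : ℝ) < κ * n), (((saw k).filter fun s => GU a r s k).card : ℝ) *
        (((saw (n - k)).filter fun v => GC ρ v 0).card : ℝ) := by
  obtain ⟨F, hF⟩ : ∃ F : Finset (Fin n → Fin 3), F = (saw n).filter fun s => ∃ j : ℕ, κ * n ≤ j ∧ j ≤ n ∧
    ‖pos s j‖ ≤ δF * size n := ⟨_, rfl⟩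
  obtain ⟨I, hI⟩ : ∃ I : Finset ℕ, I = (range (n + 1)).filter (fun k : ℕ => (k : ℝ) < κ * n) := ⟨_, rfl⟩
  rw [← hF] at hfar
  rw [← hI]
  have h1 : ∀ s ∈ saw n, th0 a r ρ s ≤ (if s ∈ F then (1 : ℝ) else 0) + ∑ k ∈ I, if T0 a r ρ s k then (1 : ℝ) else 0 := by
    intro s hs
    by_cases h : s ∈ F
    · rw [if_pos h]
      have h2 := th0_le (a := a) hr s
      have h3 : (0 : ℝ) ≤ ∑ k ∈ I, if T0 a r ρ s k then (1 : ℝ) else 0 := sum_nonneg fun k _ => by split_ifs <;> norm_num
      linarith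
    · rw [if_neg h, zero_add]
      unfold th0
      rw [Finset.sum_boole]
      refine Nat.cast_le.2 (Finset.card_le_card fun k hk => ?_)
      rw [mem_filter] at hk ⊢
      refine ⟨?_, hk.2⟩
      rw [hI, mem_filter]
      refine ⟨hk.1, ?_⟩
      by_contra hcon
      push Not at hcon
      refine h ?_
      rw [hF, mem_filter]
      have hkn : k ≤ n := by
        have := mem_range.1 hk.1
        omega
      refine ⟨hs, k, hcon, hkn, ?_⟩
      have h4 := hk.2.1.2.2.1 k 0 le_rfl (Nat.zero_le _)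
      rw [pos_zero, sub_zero] at h4
      exact h4.trans hrF
  have h2 : ∑ s ∈ saw n, (if s ∈ F then (1 : ℝ) else 0) ≤ ε * ((saw n).card : ℝ) := by
    rw [Finset.sum_boole]
    refine le_trans ?_ hfar
    refine Nat.cast_le.2 (Finset.card_le_card fun s hs => ?_)
    exact (mem_filter.1 hs).2
  have h3 : ∑ s ∈ saw n, ∑ k ∈ I, (if T0 a r ρ s k then (1 : ℝ) else 0) ≤
      ∑ k ∈ I, (((saw k).filter fun s => GU a r s k).card : ℝ) * (((saw (n - k)).filter fun v => GC ρ v 0).card : ℝ) := by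
    rw [sum_comm]
    refine sum_le_sum fun k hk => ?_
    rw [Finset.sum_boole]
    have hkn : k ≤ n := by
      rw [hI, mem_filter] at hk
      have := mem_range.1 hk.1
      omega
    have := t0_split (a := a) (r := r) (ρ := ρ) hkn
    exact_mod_cast this
  refine (sum_le_sum h1).trans ?_
  rw [sum_add_distrib]
  exact add_le_add h2 h3

/-- **the mass of the rests from below** -/
theorem rlow : ∀ Q κ : ℝ, 1 ≤ Q → 0 < κ → κ < 1 → ∃ c δ0 : ℝ, 0 < c ∧ 0 < δ0 ∧ ∀ δ1 : ℝ, 0 < δ1 → ∃ n0 : ℕ,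
    ∀ (A B K : ℕ) (L : ℝ), n0 ≤ A → A ≤ B → (∀ n : ℕ, A ≤ n → n ≤ B → δ1 * size n ≤ L ∧ L ≤ δ0 * size n) → L ≤ 2 ^ (K + 1) →
      ENNReal.ofReal (c * ∑ n ∈ Finset.Icc A B, ((saw n).card : ℝ) * fug ^ n) ≤
        Xb K * ENNReal.ofReal (∑ m ∈ Finset.Icc ⌊(1 - κ) * A⌋₊ B, rst (Q * L) m) := by
  classical
  intro Q κ hQ hκ hκ1
  obtain ⟨M0, p, δP, hp, hδP, hP⟩ := p0
  obtain ⟨C, hC, hgu⟩ := gu_mass
  obtain ⟨CX, hCX, hXd⟩ := XDbl.pow xDbl
  have hM0 : 0 < M0 := by
    rcases Nat.eq_zero_or_pos M0 with h | h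
    · subst h
      obtain ⟨n0, h1⟩ := hP δP hδP
      have h2 := h1 (max n0 1) (le_max_left _ _) (δP * size (max n0 1)) le_rfl le_rfl 0 0 0 le_rfl zero_le_one le_rfl zero_le_one
        le_rfl zero_le_one
      rw [sum_range_zero] at h2
      have h3 := NTSF.saw_card_pos (max n0 1)
      have : 0 < p * ((saw (max n0 1)).card : ℝ) := by positivity
      linarith
    · exact h
  obtain ⟨ε, hε⟩ : ∃ ε : ℝ, ε = p / (2 * M0) := ⟨_, rfl⟩
  have hM0R : (0 : ℝ) < M0 := by exact_mod_cast hM0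
  have hε0 : 0 < ε := by rw [hε]; positivity
  obtain ⟨δF, hδF, nF, hF⟩ := far1 κ ε hκ hκ1 hε0
  obtain ⟨T, hT⟩ : ∃ T : ℝ, T = 2 ^ M0 * Q := ⟨_, rfl⟩
  have hT1 : 1 ≤ T := by
    rw [hT]
    have : (1 : ℝ) ≤ 2 ^ M0 := one_le_pow₀ (by norm_num)
    nlinarith
  obtain ⟨q, hq⟩ := pow_unbounded_of_one_lt (2 * T + 2) (one_lt_two (α := ℝ))
  obtain ⟨c, hc⟩ : ∃ c : ℝ, c = p / (2 * (M0 * C * CX ^ q)) := ⟨_, rfl⟩
  have hCXq : 0 < CX ^ q := by positivity
  have hc0 : 0 < c := by rw [hc]; positivity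
  refine ⟨c, min (δP / T) (δF / T), hc0, by positivity, fun δ1 hδ1 => ?_⟩
  obtain ⟨nP, hP'⟩ := hP (T * δ1) (by positivity)
  refine ⟨max (max nP nF) 1, fun A B K L hA hAB hL hLK => ?_⟩
  have hnP : nP ≤ A := (le_max_left _ _).trans ((le_max_left _ _).trans hA)
  have hnF : nF ≤ A := (le_max_right _ _).trans ((le_max_left _ _).trans hA)
  have hn1 : 1 ≤ A := (le_max_right _ _).trans hA
  have hL0 : 0 < L := by
    have h1 := (hL A le_rfl hAB).1
    have h2 := NTSF.size_pos hn1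
    exact lt_of_lt_of_le (by positivity) h1
  obtain ⟨R, hR⟩ : ∃ R : ℝ, R = T * L := ⟨_, rfl⟩
  have hR0 : 0 < R := by rw [hR]; positivity
  obtain ⟨Ri, hRi⟩ : ∃ Ri : ℕ → ℝ, Ri = fun i => R / 2 ^ i := ⟨_, rfl⟩
  have hRi0 : ∀ i, 0 < Ri i := fun i => by rw [hRi]; positivity
  have hRiR : ∀ i, Ri i ≤ R := fun i => by
    rw [hRi]
    exact div_le_self hR0.le (one_le_pow₀ (by norm_num))
  have hRiQ : ∀ i, i < M0 → Q * L ≤ 64 * Ri i := fun i hi => by
    rw [hRi]
    simp only
    have h1 : (2 : ℝ) ^ i ≤ 2 ^ M0 := pow_le_pow_right₀ (by norm_num) hi.le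
    have h2 : Q * L ≤ R / 2 ^ i := by
      rw [le_div_iff₀ (by positivity), hR, hT]
      have : 0 ≤ Q * L := by positivity
      nlinarith
    have h3 : 0 < R / 2 ^ i := by positivity
    linarith
  obtain ⟨gm, hgm⟩ : ∃ gm : ℕ → ℕ → ℝ, gm = fun i k => gum (Ri i / 4) (Ri i) k := ⟨_, rfl⟩
  obtain ⟨J, hJ⟩ : ∃ J : Finset ℕ, J = Finset.Icc ⌊(1 - κ) * A⌋₊ B := ⟨_, rfl⟩
  rw [← hJ]
  -- one number of steps
  have hone : ∀ n, A ≤ n → n ≤ B → p / 2 * (((saw n).card : ℝ) * fug ^ n) ≤ ∑ i ∈ range M0,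
      ∑ k ∈ (range (n + 1)).filter (fun k : ℕ => (k : ℝ) < κ * n), gm i k * rst (Q * L) (n - k) := by
    intro n hn1' hn2'
    obtain ⟨hL1, hL2⟩ := hL n hn1' hn2'
    have hsz := NTSF.size_pos (hn1.trans hn1')
    have h1 := hP' n (hnP.trans hn1') R (by rw [hR, mul_assoc]; exact mul_le_mul_of_nonneg_left hL1 (by linarith)) (by
      rw [hR]
      calc T * L ≤ T * (min (δP / T) (δF / T) * size n) := mul_le_mul_of_nonneg_left hL2 (by linarith)
        _ ≤ T * (δP / T * size n) := mul_le_mul_of_nonneg_left (mul_le_mul_of_nonneg_right (min_le_left _ _) hsz.le) (by linarith)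
        _ = δP * size n := by field_simp) 0 0 0 le_rfl zero_le_one le_rfl zero_le_one le_rfl zero_le_one
    have hRF : R ≤ δF * size n := by
      rw [hR]
      calc T * L ≤ T * (min (δP / T) (δF / T) * size n) := mul_le_mul_of_nonneg_left hL2 (by linarith)
        _ ≤ T * (δF / T * size n) := mul_le_mul_of_nonneg_left (mul_le_mul_of_nonneg_right (min_le_right _ _) hsz.le) (by linarith)
        _ = δF * size n := by field_simp
    have h2 : ∀ i ∈ range M0, ∑ s ∈ saw n, th0 ((1 + 0) * (R / 2 ^ i) / 4) ((1 + 0) * (R / 2 ^ i)) (64 * (1 + 0) * (R / 2 ^ i)) s ≤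
        ε * ((saw n).card : ℝ) + ∑ k ∈ (range (n + 1)).filter (fun k : ℕ => (k : ℝ) < κ * n),
          (((saw k).filter fun s => GU (Ri i / 4) (Ri i) s k).card : ℝ) *
            (((saw (n - k)).filter fun v => GC (Q * L) v 0).card : ℝ) := by
      intro i hi
      have e1 : (1 + 0 : ℝ) * (R / 2 ^ i) / 4 = Ri i / 4 := by rw [hRi]; ring
      have e2 : (1 + 0 : ℝ) * (R / 2 ^ i) = Ri i := by rw [hRi]; ring
      have e3 : (64 : ℝ) * (1 + 0) * (R / 2 ^ i) = 64 * Ri i := by rw [hRi]; ring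
      rw [e1, e2, e3]
      refine (early hκ (by linarith [hRi0 i]) ((hRiR i).trans hRF) (hF n (hnF.trans hn1'))).trans ?_
      refine add_le_add le_rfl (sum_le_sum fun k _ => mul_le_mul_of_nonneg_left ?_ (Nat.cast_nonneg _))
      refine Nat.cast_le.2 (Finset.card_le_card fun v hv => ?_)
      rw [mem_filter] at hv ⊢
      exact ⟨hv.1, gc_mono hv.2 (hRiQ i (mem_range.1 hi))⟩
    have h3 := h1.trans (sum_le_sum h2)
    rw [sum_add_distrib, sum_const, card_range, nsmul_eq_mul] at h3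
    have h4 : (M0 : ℝ) * (ε * ((saw n).card : ℝ)) = p / 2 * ((saw n).card : ℝ) := by
      rw [hε]
      field_simp
    rw [h4] at h3
    have h5 : p / 2 * ((saw n).card : ℝ) ≤ ∑ i ∈ range M0, ∑ k ∈ (range (n + 1)).filter (fun k : ℕ => (k : ℝ) < κ * n),
        (((saw k).filter fun s => GU (Ri i / 4) (Ri i) s k).card : ℝ) *
            (((saw (n - k)).filter fun v => GC (Q * L) v 0).card : ℝ) := by linarith
    have h6 := mul_le_mul_of_nonneg_right h5 (pow_nonneg fug_pos.le n)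
    rw [mul_assoc, sum_mul] at h6
    refine h6.trans (le_of_eq (sum_congr rfl fun i _ => ?_))
    rw [sum_mul]
    refine sum_congr rfl fun k hk => ?_
    rw [mem_filter, mem_range] at hk
    rw [hgm]
    unfold gum rst
    have e : fug ^ n = fug ^ k * fug ^ (n - k) := by
      rw [← pow_add]
      congr 1
      omega
    rw [e]
    ring
  -- the sum over the numbers of steps
  have hgm0 : ∀ i k, 0 ≤ gm i k := fun i k => by
    rw [hgm]
    exact gum_nonneg _ _ _
  have hsum : p / 2 * ∑ n ∈ Finset.Icc A B, ((saw n).card : ℝ) * fug ^ n ≤ (∑ i ∈ range M0, ∑ k ∈ range (B + 1), gm i k) *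
      ∑ m ∈ J, rst (Q * L) m := by
    rw [mul_sum]
    calc ∑ n ∈ Finset.Icc A B, p / 2 * (((saw n).card : ℝ) * fug ^ n)
        ≤ ∑ n ∈ Finset.Icc A B, ∑ i ∈ range M0, ∑ k ∈ range (B + 1), gm i k *
            (if k ≤ n ∧ (k : ℝ) < κ * n then rst (Q * L) (n - k) else 0) := by
          refine sum_le_sum fun n hn => ?_
          rw [Finset.mem_Icc] at hn
          refine (hone n hn.1 hn.2).trans (sum_le_sum fun i _ => ?_)
          have e : ∑ k ∈ (range (n + 1)).filter (fun k : ℕ => (k : ℝ) < κ * n), gm i k * rst (Q * L) (n - k) =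
              ∑ k ∈ (range (n + 1)).filter (fun k : ℕ => (k : ℝ) < κ * n), gm i k *
                (if k ≤ n ∧ (k : ℝ) < κ * n then rst (Q * L) (n - k) else 0) := by
            refine sum_congr rfl fun k hk => ?_
            rw [mem_filter, mem_range] at hk
            rw [if_pos ⟨by omega, hk.2⟩]
          rw [e]
          refine sum_le_sum_of_subset_of_nonneg (fun k hk => ?_) fun k _ _ => mul_nonneg (hgm0 i k) ?_
          · rw [mem_filter, mem_range] at hk
            rw [mem_range]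
            omega
          · split_ifs
            · exact rst_nonneg _ _
            · exact le_rfl
      _ = ∑ i ∈ range M0, ∑ k ∈ range (B + 1), gm i k *
            ∑ n ∈ Finset.Icc A B, (if k ≤ n ∧ (k : ℝ) < κ * n then rst (Q * L) (n - k) else 0) := by
          rw [sum_comm]
          refine sum_congr rfl fun i _ => ?_
          rw [sum_comm]
          refine sum_congr rfl fun k _ => ?_
          rw [mul_sum]
      _ ≤ ∑ i ∈ range M0, ∑ k ∈ range (B + 1), gm i k * ∑ m ∈ J, rst (Q * L) m := by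
          refine sum_le_sum fun i _ => sum_le_sum fun k _ => mul_le_mul_of_nonneg_left ?_ (hgm0 i k)
          rw [← sum_filter]
          rw [← sum_image (f := fun m => rst (Q * L) m) (g := fun n => n - k) (s := (Finset.Icc A B).filter
            (fun n : ℕ => k ≤ n ∧ (k : ℝ) < κ * n))]
          · refine sum_le_sum_of_subset_of_nonneg (fun m hm => ?_) fun m _ _ => rst_nonneg _ _
            rw [mem_image] at hm
            obtain ⟨n, hn, rfl⟩ := hm
            rw [mem_filter, Finset.mem_Icc] at hn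
            obtain ⟨⟨n1, n2⟩, n3, n4⟩ := hn
            rw [hJ, Finset.mem_Icc]
            refine ⟨?_, by omega⟩
            have h7 : (1 - κ) * A ≤ ((n - k : ℕ) : ℝ) := by
              rw [Nat.cast_sub n3]
              have h8 : (A : ℝ) ≤ n := by exact_mod_cast n1
              nlinarith
            exact Nat.cast_le.1 ((Nat.floor_le (mul_nonneg (by linarith) (Nat.cast_nonneg _))).trans h7)
          · intro n hn n' hn' he
            rw [mem_coe, mem_filter] at hn hn'
            simp only at he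
            omega
      _ = _ := by
          rw [sum_mul]
          refine sum_congr rfl fun i _ => ?_
          rw [sum_mul]
  -- the start pieces
  have hK : ∀ i ∈ range M0, ENNReal.ofReal (∑ k ∈ range (B + 1), gm i k) ≤ ENNReal.ofReal (C * CX ^ q) * Xb K := by
    intro i _
    have h1 := hgu (Ri i / 4) (Ri i) (K + q) (B + 1) (by
      have h2 := hRiR i
      have h3 : R ≤ T * 2 ^ (K + 1) := by
        rw [hR]
        exact mul_le_mul_of_nonneg_left hLK (by linarith)
      have h4 : (2 * T + 2) * 2 ^ K ≤ 2 ^ q * 2 ^ K := mul_le_mul_of_nonneg_right hq.le (by positivity)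
      have h5 : (1 : ℝ) ≤ 2 ^ K := one_le_pow₀ (by norm_num)
      have h6 : (2 : ℝ) ^ (K + q) = 2 ^ q * 2 ^ K := by rw [pow_add]; ring
      have h7 : (2 : ℝ) ^ (K + 1) = 2 * 2 ^ K := by rw [pow_succ]; ring
      rw [h7] at h3
      rw [h6]
      have h8 : (0 : ℝ) < 2 ^ q * 2 ^ K := by positivity
      nlinarith)
    rw [hgm]
    refine h1.trans ?_
    rw [ENNReal.ofReal_mul hC.le, mul_assoc]
    exact mul_le_mul' le_rfl (hXd K q)
  have hS0 : 0 ≤ ∑ m ∈ J, rst (Q * L) m := sum_nonneg fun m _ => rst_nonneg _ _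
  have hG0 : 0 ≤ ∑ i ∈ range M0, ∑ k ∈ range (B + 1), gm i k := sum_nonneg fun i _ => sum_nonneg fun k _ => hgm0 i k
  have h9 : ENNReal.ofReal (∑ i ∈ range M0, ∑ k ∈ range (B + 1), gm i k) ≤ ENNReal.ofReal (M0 * (C * CX ^ q)) * Xb K := by
    rw [ENNReal.ofReal_sum_of_nonneg fun i _ => sum_nonneg fun k _ => hgm0 i k]
    refine (sum_le_sum hK).trans (le_of_eq ?_)
    rw [sum_const, card_range, nsmul_eq_mul, ENNReal.ofReal_mul (Nat.cast_nonneg _), ENNReal.ofReal_natCast]
    ring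
  have e1 : c * ∑ n ∈ Finset.Icc A B, ((saw n).card : ℝ) * fug ^ n =
      1 / (M0 * (C * CX ^ q)) * (p / 2 * ∑ n ∈ Finset.Icc A B, ((saw n).card : ℝ) * fug ^ n) := by
    rw [hc]
    field_simp
  rw [e1]
  have hpos : 0 < (M0 : ℝ) * (C * CX ^ q) := by positivity
  calc ENNReal.ofReal (1 / (M0 * (C * CX ^ q)) * (p / 2 * ∑ n ∈ Finset.Icc A B, ((saw n).card : ℝ) * fug ^ n))
      ≤ ENNReal.ofReal (1 / (M0 * (C * CX ^ q)) * ((∑ i ∈ range M0, ∑ k ∈ range (B + 1), gm i k) *
          ∑ m ∈ J, rst (Q * L) m)) := ENNReal.ofReal_le_ofReal (mul_le_mul_of_nonneg_left hsum (by positivity))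
    _ = ENNReal.ofReal (1 / (M0 * (C * CX ^ q))) * (ENNReal.ofReal (∑ i ∈ range M0, ∑ k ∈ range (B + 1), gm i k) *
          ENNReal.ofReal (∑ m ∈ J, rst (Q * L) m)) := by
        rw [ENNReal.ofReal_mul (by positivity), ENNReal.ofReal_mul hG0]
    _ ≤ ENNReal.ofReal (1 / (M0 * (C * CX ^ q))) * (ENNReal.ofReal (M0 * (C * CX ^ q)) * Xb K *
          ENNReal.ofReal (∑ m ∈ J, rst (Q * L) m)) := mul_le_mul' le_rfl (mul_le_mul' h9 le_rfl)
    _ = Xb K * ENNReal.ofReal (∑ m ∈ J, rst (Q * L) m) := by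
        rw [← mul_assoc, ← mul_assoc, ← ENNReal.ofReal_mul (by positivity), one_div, inv_mul_cancel₀ hpos.ne',
          ENNReal.ofReal_one, one_mul]

end Pool.Agent.ROT.F3.W8
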