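import Pool.Agent.ROT.W8RowA
import Pool.Agent.ROT.F3Rows

/-!
# ROT, F3, row W8 (walks), part 13 (helper84): **`lowRow : LowRow`**
-/

set_option autoImplicit false

namespace Pool.Agent.ROT.F3E

open Pool.Agent.ROT.F3

/-- **row LOW** -/
theorem lowRow : LowRow := by
  obtain ⟨p1, k0, K1, h1, h2, h3, h⟩ := low_row
  refine ⟨p1, k0, K1, h1, h2, h3, fun τ hτ _ => ?_⟩
  obtain ⟨ρ0, hρ0, h⟩ := h τ hτ
  exact ⟨ρ0, hρ0, fun ρ hρ hρ1 z P hP hz hW => h ρ hρ hρ1 P hP hz.p hz.q hW.D0 hW.D1 hW.t0 hW.t1⟩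

end Pool.Agent.ROT.F3E
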