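import Pool.Agent.ROT.W8Two
import Pool.Agent.ROT.W8Bm
import Pool.Agent.ROT.W8Ot
import Pool.Agent.ROT.W8ManO
import Pool.Agent.ROT.F3PrmW22
import Pool.Agent.ROT.FBd

/-!
# ROT, F3, row W8 (walks), part 12 (helper84): the shares of the native gates for the explicit data

* `unit_bd` : `size n`, `n` against the units `Nm N`, `uT (Nm N)` for `N / 2 ≤ n ≤ 2 N`;
* `Tp.sh8`, `Ot.sh8` : the same data with less letters; `OtSl` : the outer blocks with at most `A * (ρ * S) ^ (4 / 3)` letters;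
* `EdR`, **`low_core`** : the data of one end at the scale `ρ`, the mass of the outer blocks in words; 94's `two_lowW` in natural units,
  `A`, `c1` given, any number `τ` of letters;
* `gam_geW` : a walk with marks;
* **`low_row`** : both native classes (`Prm.W0`, `Prm.WR`) have shares at least `p1`, even numbers of steps.
-/

set_option autoImplicit false

open Filter Topology

namespace Pool.Agent.ROT.F3

open Finset
open Pool.Agent.NTS.Res (pos saw size fug)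
open Pool.Agent.SCF.Z (bm)
open Pool.Agent.ROT.F (Nm nm_bd nm_ratio nm_top)

/-! ### the units -/

lemma unit_bd : ∃ R : ℝ, 1 ≤ R ∧ ∃ N0 : ℕ, ∀ N : ℕ, N0 ≤ N → ∀ n : ℕ, (N : ℝ) / 2 ≤ n → (n : ℝ) ≤ 2 * N →
    1 ≤ Nm N ∧ size n ≤ R * (Nm N : ℝ) ∧ (Nm N : ℝ) ≤ R * size n ∧ (n : ℝ) ≤ R * uT (Nm N) ∧ uT (Nm N) ≤ R * n := by
  obtain ⟨c, C, m0, hc, hC, h⟩ := nm_bd
  obtain ⟨R, hR⟩ : ∃ R : ℝ, R = max (max 1 (4 * C / c)) (max (2 / c) (2 * C)) := ⟨_, rfl⟩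
  have r1 : 1 ≤ R := by rw [hR]; exact (le_max_left _ _).trans (le_max_left _ _)
  have r2 : 4 * C / c ≤ R := by rw [hR]; exact (le_max_right _ _).trans (le_max_left _ _)
  have r3 : 2 / c ≤ R := by rw [hR]; exact (le_max_left _ _).trans (le_max_right _ _)
  have r4 : 2 * C ≤ R := by rw [hR]; exact (le_max_right _ _).trans (le_max_right _ _)
  refine ⟨R, r1, 2 * m0 + 2, fun N hN n h1 h2 => ?_⟩
  have hn : m0 ≤ n := by
    have : (m0 : ℝ) ≤ n := by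
      have h3 : ((2 * m0 + 2 : ℕ) : ℝ) ≤ N := by exact_mod_cast hN
      push_cast at h3
      linarith
    exact_mod_cast this
  have hN0 : m0 ≤ N := by omega
  obtain ⟨a1, a2, a3, a4, a5⟩ := h N hN0
  obtain ⟨b1, b2, b3, b4, b5⟩ := h n hn
  have p1 : (0 : ℝ) ≤ (N : ℝ) := Nat.cast_nonneg N
  have p2 : (0 : ℝ) ≤ (n : ℝ) := Nat.cast_nonneg n
  have q1 : (2 : ℝ) ^ (3 / 4 : ℝ) ≤ 2 := by
    calc (2 : ℝ) ^ (3 / 4 : ℝ) ≤ 2 ^ (1 : ℝ) := Real.rpow_le_rpow_of_exponent_le (by norm_num) (by norm_num)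
      _ = 2 := Real.rpow_one 2
  have e1 : (n : ℝ) ^ (3 / 4 : ℝ) ≤ 2 * (N : ℝ) ^ (3 / 4 : ℝ) := by
    calc (n : ℝ) ^ (3 / 4 : ℝ) ≤ (2 * N) ^ (3 / 4 : ℝ) := Real.rpow_le_rpow p2 h2 (by norm_num)
      _ = 2 ^ (3 / 4 : ℝ) * (N : ℝ) ^ (3 / 4 : ℝ) := Real.mul_rpow (by norm_num) p1
      _ ≤ _ := mul_le_mul_of_nonneg_right q1 (Real.rpow_nonneg p1 _)
  have e2 : (N : ℝ) ^ (3 / 4 : ℝ) ≤ 2 * (n : ℝ) ^ (3 / 4 : ℝ) := by
    calc (N : ℝ) ^ (3 / 4 : ℝ) ≤ (2 * n) ^ (3 / 4 : ℝ) := Real.rpow_le_rpow p1 (by linarith) (by norm_num)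
      _ = 2 ^ (3 / 4 : ℝ) * (n : ℝ) ^ (3 / 4 : ℝ) := Real.mul_rpow (by norm_num) p2
      _ ≤ _ := mul_le_mul_of_nonneg_right q1 (Real.rpow_nonneg p2 _)
  have s1 : size n ≤ 2 * (Nm n : ℝ) := by
    have h3 : size n < (Nm n : ℝ) + 1 := Nat.lt_floor_add_one _
    have h4 : (1 : ℝ) ≤ Nm n := by exact_mod_cast b1
    linarith
  have s2 : (Nm n : ℝ) ≤ size n := Nat.floor_le (by
    by_contra hneg
    push Not at hneg
    have : Nm n = 0 := Nat.floor_of_nonpos hneg.le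
    omega)
  have t1 : (n : ℝ) ^ (3 / 4 : ℝ) ≤ 2 * ((Nm N : ℝ) / c) := by
    refine e1.trans ?_
    have : (N : ℝ) ^ (3 / 4 : ℝ) ≤ (Nm N : ℝ) / c := by
      rw [le_div_iff₀ hc]
      linarith
    linarith
  have t2 : (n : ℝ) ^ (3 / 4 : ℝ) ≤ (Nm n : ℝ) / c := by
    rw [le_div_iff₀ hc]
    linarith
  have pS : (0 : ℝ) ≤ (Nm N : ℝ) := Nat.cast_nonneg _
  have pS' : (0 : ℝ) ≤ (Nm n : ℝ) := Nat.cast_nonneg _
  have pT : 0 ≤ uT (Nm N) := Real.rpow_nonneg pS _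
  refine ⟨a1, ?_, ?_, ?_, ?_⟩
  · calc size n ≤ 2 * (Nm n : ℝ) := s1
      _ ≤ 2 * (C * (n : ℝ) ^ (3 / 4 : ℝ)) := by linarith
      _ ≤ 2 * (C * (2 * ((Nm N : ℝ) / c))) := by
          have := mul_le_mul_of_nonneg_left t1 hC.le
          linarith
      _ = 4 * C / c * (Nm N : ℝ) := by ring
      _ ≤ _ := mul_le_mul_of_nonneg_right r2 pS
  · calc (Nm N : ℝ) ≤ C * (N : ℝ) ^ (3 / 4 : ℝ) := a3
      _ ≤ C * (2 * ((Nm n : ℝ) / c)) := mul_le_mul_of_nonneg_left (e2.trans (by linarith)) hC.le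
      _ = 2 * C / c * (Nm n : ℝ) := by ring
      _ ≤ R * (Nm n : ℝ) := by
          refine mul_le_mul_of_nonneg_right ?_ pS'
          have h5 : 2 * C / c ≤ 4 * C / c := by
            rw [div_le_div_iff_of_pos_right hc]
            linarith
          linarith
      _ ≤ _ := mul_le_mul_of_nonneg_left s2 (by linarith)
  · have h3 : (N : ℝ) ≤ uT (Nm N) / c := by
      rw [le_div_iff₀ hc]
      have : c * (N : ℝ) ≤ uT (Nm N) := a4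
      linarith
    calc (n : ℝ) ≤ 2 * (uT (Nm N) / c) := by linarith
      _ = 2 / c * uT (Nm N) := by ring
      _ ≤ _ := mul_le_mul_of_nonneg_right r3 pT
  · have h3 : uT (Nm N) ≤ C * N := a5
    calc uT (Nm N) ≤ C * N := h3
      _ ≤ C * (2 * n) := mul_le_mul_of_nonneg_left (by linarith) hC.le
      _ = 2 * C * n := by ring
      _ ≤ _ := mul_le_mul_of_nonneg_right r4 p2

/-! ### less letters -/

/-- the same gate with at most `s * T` letters in each piece -/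
def Tp.sh8 (P : Tp) (s : ℝ) : Tp := { P with la := s, lb := s }

/-- the same block with at most `s * T` letters -/
def Ot.sh8 (O : Ot) (s : ℝ) : Ot := { O with lb := s }

lemma pre_sh {d : ℂ} {P : Tp} {s S T : ℝ} (h1 : s ≤ P.la) (h2 : s ≤ P.lb) (hT : 0 ≤ T) {a : W3} (ha : a ∈ Pre d (P.sh8 s) S T) :
    a ∈ Pre d P S T := by
  obtain ⟨k, hk⟩ := ha
  exact ⟨k, hk.g, hk.th, hk.e, hk.s, hk.la.trans (mul_le_mul_of_nonneg_right h1 hT),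
    hk.lb.trans (mul_le_mul_of_nonneg_right h2 hT)⟩

lemma W8R.sh8 {P : Tp} {O : Ot} {Y : Tp} (h : W8R P O Y) (s s' : ℝ) : W8R (P.sh8 s) (O.sh8 s') Y :=
  ⟨h.l, h.lr, h.m, h.mr, h.th, h.th1, h.cs, h.e, h.κ1, h.c0, h.c1, h.Om, h.Or, h.Yc0, h.Yc1, h.Yκ, h.Yrg, h.Yr0, h.un⟩

lemma W8R.shO {P : Tp} {O : Ot} {Y : Tp} (h : W8R P O Y) (s' : ℝ) : W8R P (O.sh8 s') Y :=
  ⟨h.l, h.lr, h.m, h.mr, h.th, h.th1, h.cs, h.e, h.κ1, h.c0, h.c1, h.Om, h.Or, h.Yc0, h.Yc1, h.Yκ, h.Yrg, h.Yr0, h.un⟩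

lemma OuR.sh8 {P : Tp} {O : Ot} {Y : Tp} (h : OuR P O Y) (s : ℝ) : OuR P (O.sh8 s) Y := ⟨h.c, h.κ, h.cy, h.κy, h.κe, h.un, h.r0⟩

lemma OuS.sh8 {O : Ot} {Y : Tp} {t : Sr} (h : OuS O Y t) (s : ℝ) : OuS (O.sh8 s) Y t := ⟨h.e, h.hw, h.len, h.bn, h.bn'⟩

lemma ot_sh {d : ℂ} {O : Ot} {s s' S T : ℝ} (h : s ≤ s') (hT : 0 ≤ T) {b : W3} (hb : b ∈ OtB d (O.sh8 s) S T) :
    b ∈ OtB d (O.sh8 s') S T := ⟨hb.k, hb.f, hb.hw, hb.s, hb.e, hb.lb.trans (mul_le_mul_of_nonneg_right h hT)⟩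

/-- the outer blocks with at most `A * (ρ * S) ^ (4 / 3)` letters -/
def OtSl (O : Ot) (A ρ S T : ℝ) : Set W3 := {b | b ∈ OtB 1 O S T ∧ (b.length : ℝ) ≤ A * (ρ * S) ^ (4 / 3 : ℝ)}

/-- **the data of one end at the scale `ρ`**, at least `s * T` letters allowed, `ψ` = weight of the outer block -/
structure EdR (c1 A ρ s S T : ℝ) (P : Tp) (O : Ot) (Y : Tp) (ψ : W3 → ℝ) : Prop where
  r : W8R P O Y
  cs : P.cs ≤ 1
  w : W8.Wc P O Y (9/1000 * ρ) (50000000 * ρ) (600000000 * ρ)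
  H : HpR P O Y ≤ 150000000 * ρ
  la : s ≤ P.la
  lb : s ≤ P.lb
  lO : A * ρ ^ (4 / 3 : ℝ) ≤ O.lb
  m : ENNReal.ofReal c1 ≤ Sb (OtSl O A ρ S T) fun b => ENNReal.ofReal (ψ b)
  ψ : ∀ b, 0 ≤ ψ b ∧ ψ b ≤ 1

/-- short blocks of `O` are the blocks with few letters -/
lemma ots_eq {O : Ot} {A ρ S : ℝ} (hρ : 0 ≤ ρ) (hS : 0 ≤ S) (hl : A * ρ ^ (4 / 3 : ℝ) ≤ O.lb) :
    OtSl O A ρ S (S ^ (4 / 3 : ℝ)) = OtB 1 (O.sh8 (A * ρ ^ (4 / 3 : ℝ))) S (S ^ (4 / 3 : ℝ)) := by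
  have e : A * (ρ * S) ^ (4 / 3 : ℝ) = A * ρ ^ (4 / 3 : ℝ) * S ^ (4 / 3 : ℝ) := by
    rw [Real.mul_rpow hρ hS, mul_assoc]
  have hT : 0 ≤ S ^ (4 / 3 : ℝ) := Real.rpow_nonneg hS _
  ext b
  constructor
  · rintro ⟨h1, h2⟩
    exact ⟨h1.k, h1.f, h1.hw, h1.s, h1.e, h2.trans e.le⟩
  · intro h
    have h2 : (b.length : ℝ) ≤ A * ρ ^ (4 / 3 : ℝ) * S ^ (4 / 3 : ℝ) := h.lb
    exact ⟨⟨h.k, h.f, h.hw, h.s, h.e, h2.trans (mul_le_mul_of_nonneg_right hl hT)⟩, h2.trans e.ge⟩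

/-- the data of one end for `two_lowW` -/
lemma EdR.edh {c1 A ρ s τ' δ0 δ1 : ℝ} {n : ℕ} {S T : ℝ} {P : Tp} {O : Ot} {Y : Tp} {ψ : W3 → ℝ} (h : EdR c1 A ρ s S T P O Y ψ)
    (hρ : 0 < ρ) (hS : 0 < S) (hT : T = S ^ (4 / 3 : ℝ)) (hA : 0 ≤ A) (hAs : A * ρ ^ (4 / 3 : ℝ) ≤ s)
    (h1 : δ1 * size n ≤ 50000000 * ρ * S) (h2 : 50000000 * ρ * S ≤ δ0 * size n) (h3 : τ' * n ≤ s * T) (h4 : 3 * s * T ≤ n / 4) :
    EdH (9 / 50000000000) 12 3 A c1 τ' δ0 δ1 n S T (P.sh8 s) (O.sh8 (A * ρ ^ (4 / 3 : ℝ))) Y ψ where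
  r := h.r.sh8 s _
  cs := h.cs
  w := by
    have hlen : ∀ b ∈ OtSl O A ρ S T, b.length ≤ ⌊A * (ρ * S) ^ (4 / 3 : ℝ)⌋₊ := fun b hb => Nat.le_floor hb.2
    have e1 := W8.bm_ge (fun b hb => hb.1.k.t.sw) hlen (fun b _ => ENNReal.ofReal_ne_top) h.m
    have e2 : (fun (m : ℕ) (b : Fin m → Fin 3) => (ENNReal.ofReal (ψ (List.ofFn b))).toReal) =
        fun (m : ℕ) (b : Fin m → Fin 3) => ψ (List.ofFn b) := by
      funext m b
      exact ENNReal.toReal_ofReal (h.ψ _).1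
    rw [e2, hT, ots_eq hρ.le hS.le h.lO, ← hT] at e1
    refine ⟨9/1000 * ρ, 50000000 * ρ, 600000000 * ρ, ?_, by ring, by ring, h1, h2, ?_, ⌊A * (ρ * S) ^ (4 / 3 : ℝ)⌋₊, ?_, e1⟩
    · exact { h.w with }
    · have e3 : HpR (P.sh8 s) (O.sh8 (A * ρ ^ (4 / 3 : ℝ))) Y = HpR P O Y := rfl
      rw [e3]
      linarith [h.H]
    · have h5 : ρ * S ≤ 50000000 * ρ * S := by
        have := mul_nonneg hρ.le hS.le
        linarith
      exact (Nat.floor_le (by positivity)).trans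
        (mul_le_mul_of_nonneg_left (Real.rpow_le_rpow (by positivity) h5 (by norm_num)) hA)
  la := h3
  lb := h3
  len := by
    have h5 : A * ρ ^ (4 / 3 : ℝ) * T ≤ s * T := mul_le_mul_of_nonneg_right hAs (by rw [hT]; positivity)
    show (s + s + A * ρ ^ (4 / 3 : ℝ)) * T ≤ n / 4
    linarith
  ψ := h.ψ

/-! ### natural units -/

/-- **the shares in natural units**: the constants `p`, `k0`, `K1` depend on `c1`, `A` only -/
theorem low_core (c1 A : ℝ) (hc1 : 0 < c1) (hA : 0 < A) : ∃ p k0 K1 : ℝ, 0 < p ∧ 0 < k0 ∧ 0 < K1 ∧ ∀ τ : ℝ, 0 < τ →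
    ∃ s ρ0 : ℝ, 0 < s ∧ s ≤ τ ∧ s ≤ 1 / 12 ∧ 0 < ρ0 ∧ ∀ ρ : ℝ, 0 < ρ → ρ ≤ ρ0 → A * ρ ^ (4 / 3 : ℝ) ≤ s ∧
      ∀ᶠ N : ℕ in atTop, ∀ n : ℕ, Even n → (N : ℝ) / 2 ≤ n → (n : ℝ) ≤ 2 * N →
        ∀ (P P' : Tp) (O O' : Ot) (Y Y' : Tp) (W : Wn) (ψ ψ' Γ : W3 → ℝ), EdR c1 A ρ s (Nm N) (uT (Nm N)) P O Y ψ →
          EdR c1 A ρ s (Nm N) (uT (Nm N)) P' O' Y' ψ' → W.D0 ≤ k0 → K1 ≤ W.D1 → W.t0 ≤ k0 → K1 ≤ W.t1 → (∀ w, 0 ≤ Γ w) →
            (∀ a ∈ Pre 1 P (Nm N) (uT (Nm N)), ∀ b ∈ OtSl O A ρ (Nm N) (uT (Nm N)),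
              ∀ R ∈ Rst 1 1 Y Y' W (Nm N) (uT (Nm N)), ∀ b' ∈ OtSl O' A ρ (Nm N) (uT (Nm N)), ∀ a' ∈ Pre 1 P' (Nm N) (uT (Nm N)),
                SW (a ++ (b ++ (R ++ (b'.reverse ++ a'.reverse)))) →
                  ψ b * ψ' b' ≤ Γ (a ++ (b ++ (R ++ (b'.reverse ++ a'.reverse))))) →
              p * ((saw n).card : ℝ) ≤ ∑ s ∈ saw n, Γ (List.ofFn s) := by
  obtain ⟨R, hR, N0, hu⟩ := unit_bd
  obtain ⟨p, k1, k2, hp, hk1, hk2, hmain⟩ := two_lowW (9 / 50000000000) 12 3 A c1 (by norm_num) (by norm_num) (by norm_num)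
    hA.le hc1
  have hR0 : 0 < R := by linarith
  refine ⟨p, min (k1 / R) (1 / (2 * R)), (k2 + 1) * R, hp, lt_min (by positivity) (by positivity), by positivity,
    fun τ hτ => ?_⟩
  -- the letters
  obtain ⟨s, hs, hsτ, hsR⟩ : ∃ s : ℝ, 0 < s ∧ s ≤ τ ∧ 12 * s * R ≤ 1 := by
    refine ⟨min τ (1 / (12 * R)), lt_min hτ (by positivity), min_le_left _ _, ?_⟩
    have h1 : min τ (1 / (12 * R)) ≤ 1 / (12 * R) := min_le_right _ _
    calc 12 * min τ (1 / (12 * R)) * R = min τ (1 / (12 * R)) * (12 * R) := by ring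
      _ ≤ 1 / (12 * R) * (12 * R) := mul_le_mul_of_nonneg_right h1 (by positivity)
      _ = 1 := by field_simp
  have hs1 : s ≤ 1 / 12 := by
    have : 12 * s * 1 ≤ 12 * s * R := mul_le_mul_of_nonneg_left hR (by positivity)
    linarith
  obtain ⟨δ0, hδ0, hmain⟩ := hmain (s / R) (by positivity)
  refine ⟨s, min (min (s / A) 1) (δ0 / (50000000 * R)), hs, hsτ, hs1, by positivity, fun ρ hρ hρ0 => ?_⟩
  have g1 : ρ ≤ s / A := hρ0.trans ((min_le_left _ _).trans (min_le_left _ _))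
  have g2 : ρ ≤ 1 := hρ0.trans ((min_le_left _ _).trans (min_le_right _ _))
  have g3 : 50000000 * ρ * R ≤ δ0 := by
    have h1 : ρ ≤ δ0 / (50000000 * R) := hρ0.trans (min_le_right _ _)
    rw [le_div_iff₀ (by positivity)] at h1
    linarith
  have g4 : A * ρ ^ (4 / 3 : ℝ) ≤ s := by
    have h1 : ρ ^ (4 / 3 : ℝ) ≤ ρ := by
      calc ρ ^ (4 / 3 : ℝ) ≤ ρ ^ (1 : ℝ) := Real.rpow_le_rpow_of_exponent_ge hρ g2 (by norm_num)
        _ = ρ := Real.rpow_one ρ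
    rw [le_div_iff₀ hA] at g1
    calc A * ρ ^ (4 / 3 : ℝ) ≤ A * ρ := mul_le_mul_of_nonneg_left h1 hA.le
      _ = ρ * A := mul_comm _ _
      _ ≤ s := g1
  refine ⟨g4, ?_⟩
  obtain ⟨n0, hmain⟩ := hmain (50000000 * ρ / R) (by positivity)
  filter_upwards [eventually_ge_atTop N0, eventually_ge_atTop (2 * n0)] with N hN2 hN3 n hn h1 h2 P P' O O' Y Y' W ψ ψ' Γ E E'
    hD0 hD1 ht0 ht1 hΓ hG
  obtain ⟨a1, a2, a3, a4, a5⟩ := hu N hN2 n h1 h2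
  obtain ⟨S, hSd⟩ : ∃ S : ℝ, S = (Nm N : ℝ) := ⟨_, rfl⟩
  obtain ⟨T, hTd⟩ : ∃ T : ℝ, T = uT (Nm N) := ⟨_, rfl⟩
  have hS1 : 1 ≤ S := by rw [hSd]; exact_mod_cast a1
  have hS : 0 < S := by linarith
  have hTS : T = S ^ (4 / 3 : ℝ) := by rw [hTd, hSd]; rfl
  have hT : 0 < T := by rw [hTS]; exact Real.rpow_pos_of_pos hS _
  rw [← hSd] at a2 a3
  rw [← hTd] at a4 a5
  rw [← hSd, ← hTd] at E E' hG
  have hnn : (0 : ℝ) ≤ (n : ℝ) := Nat.cast_nonneg n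
  have hn0 : n0 ≤ n := by
    have h3 : ((2 * n0 : ℕ) : ℝ) ≤ N := by exact_mod_cast hN3
    push_cast at h3
    have h4 : (n0 : ℝ) ≤ n := by linarith
    exact_mod_cast h4
  have hsz : 0 ≤ size n := by
    unfold size
    exact Real.sqrt_nonneg _
  have b1 : 50000000 * ρ / R * size n ≤ 50000000 * ρ * S := by
    rw [div_mul_eq_mul_div, div_le_iff₀ hR0]
    calc 50000000 * ρ * size n ≤ 50000000 * ρ * (R * S) := mul_le_mul_of_nonneg_left a2 (by positivity)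
      _ = _ := by ring
  have b2 : 50000000 * ρ * S ≤ δ0 * size n := by
    calc 50000000 * ρ * S ≤ 50000000 * ρ * (R * size n) := mul_le_mul_of_nonneg_left a3 (by positivity)
      _ = 50000000 * ρ * R * size n := by ring
      _ ≤ _ := mul_le_mul_of_nonneg_right g3 hsz
  have b3 : s / R * n ≤ s * T := by
    rw [div_mul_eq_mul_div, div_le_iff₀ hR0]
    calc s * (n : ℝ) ≤ s * (R * T) := mul_le_mul_of_nonneg_left a4 hs.le
      _ = _ := by ring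
  have b4 : 3 * s * T ≤ n / 4 := by
    calc 3 * s * T ≤ 3 * s * (R * n) := mul_le_mul_of_nonneg_left a5 (by positivity)
      _ = 12 * s * R * (n / 4) := by ring
      _ ≤ 1 * (n / 4) := mul_le_mul_of_nonneg_right hsR (by positivity)
      _ = _ := one_mul _
  -- the windows
  have v1 : W.D0 * S ≤ k1 * size n := by
    calc W.D0 * S ≤ k1 / R * S := mul_le_mul_of_nonneg_right (hD0.trans (min_le_left _ _)) hS.le
      _ ≤ k1 / R * (R * size n) := mul_le_mul_of_nonneg_left a3 (by positivity)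
      _ = k1 * size n := by field_simp
  have v2 : k2 * size n ≤ W.D1 * S := by
    calc k2 * size n ≤ k2 * (R * S) := mul_le_mul_of_nonneg_left a2 hk2.le
      _ = k2 * R * S := by ring
      _ ≤ _ := mul_le_mul_of_nonneg_right (by linarith) hS.le
  have v3 : 2 * (W.t0 * T) ≤ n := by
    have q2 : W.t0 * T ≤ 1 / (2 * R) * T := mul_le_mul_of_nonneg_right (ht0.trans (min_le_right _ _)) hT.le
    have q3 : 1 / (2 * R) * T ≤ 1 / (2 * R) * (R * n) := mul_le_mul_of_nonneg_left a5 (by positivity)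
    have q4 : 1 / (2 * R) * (R * n) = (n : ℝ) / 2 := by field_simp
    linarith
  have v4 : (n : ℝ) ≤ W.t1 * T := by
    have : 0 < k2 * R := by positivity
    exact a4.trans (mul_le_mul_of_nonneg_right (by linarith) hT.le)
  refine hmain n S T _ _ _ _ _ _ W ψ ψ' Γ hn0 hn hS (E.edh hρ hS hTS hA.le g4 b1 b2 b3 b4) (E'.edh hρ hS hTS hA.le g4 b1 b2 b3 b4)
    v1 v2 v3 v4 hΓ fun a ha b hb U hU b' hb' a' ha' hsw => ?_
  have c1' : ∀ {O : Ot} {b : W3}, A * ρ ^ (4 / 3 : ℝ) ≤ O.lb → b ∈ OtB 1 (O.sh8 (A * ρ ^ (4 / 3 : ℝ))) S T →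
      b ∈ OtSl O A ρ S T := by
    intro O b h3 h4
    rw [hTS] at h4 ⊢
    rwa [ots_eq hρ.le hS.le h3]
  exact hG a (pre_sh E.la E.lb hT.le ha) b (c1' E.lO hb) U hU b' (c1' E'.lO hb') a' (pre_sh E'.la E'.lb hT.le ha') hsw

/-! ### the gates -/

lemma seg_mid (a m c : W3) : seg (a ++ (m ++ c)) a.length (a.length + m.length) = m := by
  unfold seg
  rw [List.drop_left, Nat.add_sub_cancel_left, List.take_left]

/-- the gates of a class are nonnegative -/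
lemma WCls.Gam_nn (C : WCls) (N : ℕ) (w : W3) : 0 ≤ F3E.Gam (C.G N fun _ => 1) w := by
  refine F3E.Gam_nonneg (fun w i j => ?_) w
  unfold WCls.G gG
  split_ifs
  · exact mul_nonneg (C.nf _) (mul_nonneg (mul_nonneg (C.nw _) zero_le_one) (C.nf' _))
  · exact le_rfl

/-- **a walk with marks** -/
lemma gam_geW {C : WCls} {N : ℕ} {a R a' : W3} (ha : a ∈ C.T) (hR : R ∈ C.Rs) (ha' : a' ∈ C.T') :
    C.f a * (C.w R * C.f' a') ≤ F3E.Gam (C.G N fun _ => 1) (a ++ (R ++ a'.reverse)) := by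
  have hnn : ∀ w i j, 0 ≤ C.G N (fun _ => 1) w i j := by
    intro w i j
    unfold WCls.G gG
    split_ifs
    · exact mul_nonneg (C.nf _) (mul_nonneg (mul_nonneg (C.nw _) zero_le_one) (C.nf' _))
    · exact le_rfl
  have e1 : (a ++ (R ++ a'.reverse)).take a.length = a := by rw [List.take_left]
  have e2 := seg_mid a R a'.reverse
  have e3 : ((a ++ (R ++ a'.reverse)).drop (a.length + R.length)).reverse = a' := by
    rw [← List.append_assoc, ← List.length_append, List.drop_left, List.reverse_reverse]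
  have h1 : C.G N (fun _ => 1) (a ++ (R ++ a'.reverse)) a.length (a.length + R.length) = C.f a * (C.w R * C.f' a') := by
    unfold WCls.G gG
    rw [if_pos ⟨⟨by omega, by rw [List.length_append, List.length_append]; omega⟩, by rw [e1]; exact ha, by rw [e2]; exact hR,
      by rw [e3]; exact ha'⟩, e1, e2, e3]
    show C.f a * (C.w R * 1 * C.f' a') = _
    rw [mul_one]
  have h2 : C.f a * (C.w R * C.f' a') ≤ C.G N (fun _ => 1) (a ++ (R ++ a'.reverse)) a.length (a.length + R.length) :=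
    le_of_eq h1.symm
  refine h2.trans ?_
  unfold F3E.Gam
  refine le_trans (single_le_sum (f := fun j => C.G N (fun _ => 1) (a ++ (R ++ a'.reverse)) a.length j)
    (fun j _ => hnn _ _ _) (mem_range.2 ?_ : a.length + R.length ∈ range ((a ++ (R ++ a'.reverse)).length + 1))) ?_
  · rw [List.length_append, List.length_append]
    omega
  · refine single_le_sum (f := fun i => ∑ j ∈ range ((a ++ (R ++ a'.reverse)).length + 1),
      C.G N (fun _ => 1) (a ++ (R ++ a'.reverse)) i j) (fun i _ => sum_nonneg fun j _ => hnn _ _ _) (mem_range.2 ?_)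
    rw [List.length_append]
    omega

/-! ### the row -/

/-- the mass of the outer blocks of the data `bO ρ τ` -/
lemma ot_sb : ∃ c1 S0 : ℝ, 0 < c1 ∧ ∀ ρ τ s S T : ℝ, 0 < ρ → 0 ≤ S → S0 ≤ ρ * S → (ρ * S) ^ (4 / 3 : ℝ) ≤ s * T →
    ENNReal.ofReal c1 ≤ Sb (OtSl ((bO ρ τ).sh8 s) 1 ρ S T) fun _ => ENNReal.ofReal 1 := by
  obtain ⟨c1, S0, hc, h⟩ := W8.ot_massW (O := (bO 1 1).sh8 1) (A := 1) (by simp only [Ot.sh8, bO]; norm_num)
    (by simp only [Ot.sh8, bO]; norm_num) (by simp only [Ot.sh8, bO]; norm_num) (by simp only [Ot.sh8, bO]; norm_num)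
    (by simp only [Ot.sh8, bO]; norm_num) (by simp only [Ot.sh8, bO]; norm_num) one_pos
  refine ⟨c1, S0, hc, fun ρ τ s S T hρ hS hS0 hl => ?_⟩
  have h1 := h (ρ * S) (s * T) hS0 (by rw [one_mul]; show (ρ * S) ^ (4 / 3 : ℝ) ≤ 1 * (s * T); rw [one_mul]; exact hl)
  refine h1.trans ?_
  unfold Sb
  refine ENNReal.tsum_le_tsum fun b => ?_
  by_cases hb : b ∈ W8.OtL ((bO 1 1).sh8 1) 1 (ρ * S) (s * T)
  swap
  · rw [if_neg hb]
    exact bot_le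
  rw [if_pos hb, if_pos, ENNReal.ofReal_one]
  obtain ⟨⟨k, f, hw, cs, e, lb⟩, h2⟩ := hb
  have e1 : ((bO 1 1).sh8 1).r * (ρ * S) = ((bO ρ τ).sh8 s).r * S := by simp only [Ot.sh8, bO]; ring
  have e2 : ((bO 1 1).sh8 1).m * (ρ * S) = ((bO ρ τ).sh8 s).m * S := by simp only [Ot.sh8, bO]; ring
  have e3 : ((bO 1 1).sh8 1).hw * (ρ * S) = ((bO ρ τ).sh8 s).hw * S := by simp only [Ot.sh8, bO]; ring
  have e4 : ((bO 1 1).sh8 1).κ * (ρ * S) = ((bO ρ τ).sh8 s).κ * S := by simp only [Ot.sh8, bO]; ring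
  have e5 : ((bO 1 1).sh8 1).e * (ρ * S) = ((bO ρ τ).sh8 s).e * S := by simp only [Ot.sh8, bO]; ring
  rw [e1] at k
  rw [e2] at f
  rw [e3] at hw
  rw [e4] at cs
  rw [e5] at e
  refine ⟨⟨k, f, hw, cs, e, ?_⟩, h2⟩
  have : (b.length : ℝ) ≤ 1 * (s * T) := lb
  rw [one_mul] at this
  exact this

lemma bO_nr {ρ τ : ℝ} (hρ : 0 < ρ) (hτ : 0 < τ) : (bO ρ τ).Nr (bO ρ τ) := by
  have w1 : ∀ x : ℝ, 0 ≤ x → Wi x x := fun x hx => ⟨le_rfl, by linarith⟩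
  constructor <;> refine w1 _ ?_ <;> unfold bO <;> dsimp only <;> positivity

lemma bY_nr {ρ τ : ℝ} (hρ : 0 < ρ) (hτ : 0 < τ) : (bY ρ τ).Nr (bY ρ τ) := by
  have w1 : ∀ x : ℝ, 0 ≤ x → Wi x x := fun x hx => ⟨le_rfl, by linarith⟩
  constructor <;> refine w1 _ ?_ <;> unfold bY <;> dsimp only <;> positivity

/-- **the native gates of both lattices have positive shares** -/
theorem low_row : ∃ p1 k0 K1 : ℝ, 0 < p1 ∧ 0 < k0 ∧ 0 < K1 ∧ ∀ τ : ℝ, 0 < τ → ∃ ρ0 : ℝ, 0 < ρ0 ∧ ∀ ρ : ℝ, 0 < ρ → ρ ≤ ρ0 →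
    ∀ (P : Prm) (h : P.Ok), P.p.Nr (bE ρ τ) → P.q.Nr (bE ρ τ) → P.W.D0 ≤ k0 → K1 ≤ P.W.D1 → P.W.t0 ≤ k0 → K1 ≤ P.W.t1 →
      ∀ᶠ N : ℕ in atTop, ∀ n : ℕ, Even n → (N : ℝ) / 2 ≤ n → (n : ℝ) ≤ 2 * N →
        p1 * (saw n).card ≤ ∑ s ∈ saw n, F3E.Gam ((P.W0 h (Nm N)).G N fun _ => 1) (List.ofFn s) ∧
        p1 * (saw n).card ≤ ∑ s ∈ saw n,
          F3E.Gam ((P.WR h (P.p.n.l + P.p.n.m) (P.q.n.l + P.q.n.m) (Nm N)).G N fun _ => 1) (List.ofFn s) := by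
  obtain ⟨c1, S0, hc1, hbm⟩ := ot_sb
  obtain ⟨p, k0, K1, hp, hk0, hK1, hmain⟩ := low_core c1 1 hc1 one_pos
  refine ⟨p, k0 / 2, K1 + 1, hp, by positivity, by positivity, fun τ hτ => ?_⟩
  obtain ⟨s, ρ0, hs, hsτ, hs1, hρ0, hmain⟩ := hmain τ hτ
  refine ⟨min ρ0 (min (1 / 44000000) (k0 / 88000000)), by positivity, fun ρ hρ hρ1 => ?_⟩
  have g4 : 44000000 * ρ ≤ 1 := by
    have h1 : ρ ≤ 1 / 44000000 := hρ1.trans ((min_le_right _ _).trans (min_le_left _ _))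
    linarith
  have g5 : 44000000 * ρ ≤ k0 / 2 := by
    have h1 : ρ ≤ k0 / 88000000 := hρ1.trans ((min_le_right _ _).trans (min_le_right _ _))
    linarith
  obtain ⟨g6, hmain⟩ := hmain ρ hρ (hρ1.trans (min_le_left _ _))
  intro P h hp1 hq1 hD0 hD1 ht0 ht1
  have hev : ∀ᶠ N : ℕ in atTop, max S0 1 ≤ ρ * (Nm N : ℝ) := by
    have h1 : Tendsto (fun N : ℕ => ρ * (Nm N : ℝ)) atTop atTop :=
      (tendsto_natCast_atTop_atTop.comp nm_top).const_mul_atTop hρ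
    exact h1.eventually_ge_atTop _
  filter_upwards [hev, hmain] with N hN1 hN2 n hn h1 h2
  have hmain := hN2 n hn h1 h2
  obtain ⟨S, hSd⟩ : ∃ S : ℝ, S = (Nm N : ℝ) := ⟨_, rfl⟩
  obtain ⟨T, hTd⟩ : ∃ T : ℝ, T = uT (Nm N) := ⟨_, rfl⟩
  rw [← hSd] at hN1
  rw [← hSd, ← hTd] at hmain
  have hS : 0 < S := by
    have h3 : (0 : ℝ) < ρ * S := lt_of_lt_of_le one_pos ((le_max_right _ _).trans hN1)
    exact pos_of_mul_pos_right h3 hρ.le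
  have hTS : T = S ^ (4 / 3 : ℝ) := by rw [hTd, hSd]; rfl
  have hT : 0 < T := by rw [hTS]; exact Real.rpow_pos_of_pos hS _
  rw [one_mul] at g6
  have hρT : (ρ * S) ^ (4 / 3 : ℝ) ≤ s * T := by
    rw [Real.mul_rpow hρ.le hS.le, ← hTS]
    exact mul_le_mul_of_nonneg_right g6 hT.le
  have hb := hbm ρ τ s S T hρ hS.le ((le_max_left _ _).trans hN1) hρT
  have hO := bO_nr (ρ := ρ) (τ := τ) hρ hτ
  have hY := bY_nr (ρ := ρ) (τ := τ) hρ hτ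
  have ho : ∀ {E : En}, E.Nr (bE ρ τ) → OutOk E (bO ρ τ) (bY ρ τ) 0 := fun {E} hE =>
    outOk hρ hτ le_rfl (by norm_num) hE hO hY
  have hE : ∀ {E : En}, E.Nr (bE ρ τ) → E.Ok 0 := fun {E} hE => hE.ok hρ hτ le_rfl (by norm_num)
  have ψ1 : ∀ b : W3, 0 ≤ (fun _ : W3 => (1 : ℝ)) b ∧ (fun _ : W3 => (1 : ℝ)) b ≤ 1 := fun _ => ⟨zero_le_one, le_rfl⟩
  -- one end
  have endN : ∀ {E : En}, E.Nr (bE ρ τ) → EdR c1 1 ρ s S T E.n ((bO ρ τ).sh8 s) (bY ρ τ) fun _ => 1 := by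
    intro E hEn
    have r1 : E.n.r ≤ 101 / 100 * (1 * ρ) := hEn.n.r.2
    have r2 : E.n.r2 ≤ 101 / 100 * (41/2 * ρ) := hEn.n.r2.2
    have cs : E.n.cs ≤ 101 / 100 * (3/5) := hEn.n.cs.2
    have q1 : 1 * τ ≤ E.n.la := hEn.n.la.1
    have q2 : 1 * τ ≤ E.n.lb := hEn.n.lb.1
    refine ⟨(w8rN hρ hτ hEn hO hY).shO s, by linarith, { wcN hρ hEn hO hY with }, ?_, by linarith, by linarith, ?_, hb, ψ1⟩
    · show E.n.r + E.n.r2 + 22000000 * ρ + 46000000 * ρ + 48000000 * ρ ≤ 150000000 * ρ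
      linarith
    · show 1 * ρ ^ (4 / 3 : ℝ) ≤ s
      rw [one_mul]
      exact g6
  have endF : ∀ {E : En}, E.Nr (bE ρ τ) → EdR c1 1 ρ s S T (E.f.up (E.n.l + E.n.m)) ((bO ρ τ).sh8 s) (bY ρ τ) fun _ => 1 := by
    intro E hEn
    have l1 : 1/2 * ρ ≤ E.n.l := hEn.n.l.1
    have l2 : E.n.l ≤ 101 / 100 * (1/2 * ρ) := hEn.n.l.2
    have m1 : 81/10 * ρ ≤ E.n.m := hEn.n.m.1
    have m2 : E.n.m ≤ 101 / 100 * (81/10 * ρ) := hEn.n.m.2
    have r1 : E.f.r ≤ 101 / 100 * (105 * ρ) := hEn.f.r.2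
    have r2 : E.f.r2 ≤ 101 / 100 * (28500 * ρ) := hEn.f.r2.2
    have cs : E.f.cs ≤ 101 / 100 * (11/20) := hEn.f.cs.2
    have q3 : 4 * τ ≤ E.f.la := hEn.f.la.1
    have q4 : 2 * τ ≤ E.f.lb := hEn.f.lb.1
    refine ⟨(w8rF hρ hτ hEn hO hY (by linarith) (by linarith)).shO s, by show E.f.cs ≤ 1; linarith,
      { wcF hρ hEn hO hY (by linarith) (by linarith) with }, ?_, by show s ≤ E.f.la; linarith, by show s ≤ E.f.lb; linarith, ?_, hb,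
      ψ1⟩
    · show E.f.r + E.f.r2 + 22000000 * ρ + 46000000 * ρ + 48000000 * ρ ≤ 150000000 * ρ
      linarith
    · show 1 * ρ ^ (4 / 3 : ℝ) ≤ s
      rw [one_mul]
      exact g6
  -- the window between the outer gates
  obtain ⟨W2, hW2⟩ : ∃ W2 : Wn, W2 = ⟨P.W.D0 + 44000000 * ρ, P.W.D1 - 44000000 * ρ, P.W.t0, P.W.t1 - 2 * s⟩ := ⟨_, rfl⟩
  have v1 : W2.D0 ≤ k0 := by
    rw [hW2]
    show P.W.D0 + 44000000 * ρ ≤ k0
    linarith
  have v2 : K1 ≤ W2.D1 := by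
    rw [hW2]
    show K1 ≤ P.W.D1 - 44000000 * ρ
    linarith
  have v3 : W2.t0 ≤ k0 := by
    rw [hW2]
    show P.W.t0 ≤ k0
    linarith
  have v4 : K1 ≤ W2.t1 := by
    rw [hW2]
    show K1 ≤ P.W.t1 - 2 * s
    linarith
  have kp : 0 ≤ P.p.k ∧ 0 ≤ P.p.lk := by
    have q1 := h.p.rk
    have q2 := h.p.f.r2
    have q3 := h.p.lk
    exact ⟨by unfold En.k; linarith, by linarith⟩
  have kq : 0 ≤ P.q.k ∧ 0 ≤ P.q.lk := by
    have q1 := h.q.rk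
    have q2 := h.q.f.r2
    have q3 := h.q.lk
    exact ⟨by unfold En.k; linarith, by linarith⟩
  have hfar : 2400000000 * ρ < P.W.D0 := by
    have := h.nr
    have l1 : 60000000 * ρ ≤ P.p.s.len := hp1.s.len.1
    have l2 : 60000000 * ρ ≤ P.q.s.len := hq1.s.len.1
    linarith
  have w0 : WnR P.p.n P.q.n ((bO ρ τ).sh8 s) ((bO ρ τ).sh8 s) W2 (P.wd P.W) := by
    have r1 : P.p.n.r0 ≤ 101 / 100 * (1415 * ρ) := hp1.n.r0.2
    have r2 : P.q.n.r0 ≤ 101 / 100 * (1415 * ρ) := hq1.n.r0.2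
    rw [hW2]
    refine ⟨?_, ?_, le_rfl, ?_, ?_⟩
    · show P.W.D0 - (P.p.k + P.q.k) + (22000000 * ρ + 22000000 * ρ) ≤ P.W.D0 + 44000000 * ρ
      linarith [kp.1, kq.1]
    · show P.W.D1 - 44000000 * ρ ≤ P.W.D1 + (P.p.k + P.q.k) - (22000000 * ρ + 22000000 * ρ)
      linarith [kp.1, kq.1]
    · show P.W.t1 - 2 * s ≤ P.W.t1 + (P.p.lk + P.q.lk) - (s + s)
      linarith [kp.2, kq.2]
    · show P.p.n.r0 + P.q.n.r0 + 2 * (22000000 * ρ + 22000000 * ρ) < P.W.D0 + 44000000 * ρ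
      linarith
  have wF : WnR P.p.f P.q.f ((bO ρ τ).sh8 s) ((bO ρ τ).sh8 s) W2 P.W := by
    have r1 : P.p.f.r0 ≤ 101 / 100 * (1950000 * ρ) := hp1.f.r0.2
    have r2 : P.q.f.r0 ≤ 101 / 100 * (1950000 * ρ) := hq1.f.r0.2
    rw [hW2]
    refine ⟨?_, ?_, le_rfl, ?_, ?_⟩
    · show P.W.D0 + (22000000 * ρ + 22000000 * ρ) ≤ P.W.D0 + 44000000 * ρ
      linarith
    · show P.W.D1 - 44000000 * ρ ≤ P.W.D1 - (22000000 * ρ + 22000000 * ρ)
      linarith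
    · show P.W.t1 - 2 * s ≤ P.W.t1 - (s + s)
      linarith
    · show P.p.f.r0 + P.q.f.r0 + 2 * (22000000 * ρ + 22000000 * ρ) < P.W.D0 + 44000000 * ρ
      linarith
  constructor
  · refine hmain _ _ _ _ _ _ W2 (fun _ => 1) (fun _ => 1) _ (endN hp1) (endN hq1) v1 v2 v3 v4
      ((P.W0 h (Nm N)).Gam_nn N) fun a m1 b hb' U hU b' hb'' a' m2 _ => ?_
    rw [hSd, hTd] at m1 m2
    have m1' : a ∈ P.T0p (Nm N) := by
      unfold Prm.T0p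
      rw [ev_zero]
      exact m1
    have m2' : a' ∈ P.T0q (Nm N) := by
      unfold Prm.T0q
      rw [ev_zero]
      exact m2
    have m3 : b ++ (U ++ b'.reverse) ∈ P.R0 0 P.W (Nm N) := by
      unfold Prm.R0
      rw [neg_zero, ev_zero, ← hSd, ← hTd]
      exact mem_rst_out h.p.n h.q.n hS hT.le (((ho hp1).ouN (hE hp1)).sh8 s) (((ho hq1).ouN (hE hq1)).sh8 s) w0 hb'.1 hb''.1 hU
    have m4 := gam_geW (C := P.W0 h (Nm N)) (N := N) (a := a) (R := b ++ (U ++ b'.reverse)) (a' := a') m1' m3 m2'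
    rw [List.append_assoc, List.append_assoc] at m4
    have m5 : (1 : ℝ) * (1 * 1) ≤ F3E.Gam ((P.W0 h (Nm N)).G N fun _ => 1)
      (a ++ (b ++ (U ++ (b'.reverse ++ a'.reverse)))) := m4
    show (1 : ℝ) * 1 ≤ _
    linarith
  · refine hmain _ _ _ _ _ _ W2 (fun _ => 1) (fun _ => 1) _ (endF hp1) (endF hq1) v1 v2 v3 v4
      ((P.WR h (P.p.n.l + P.p.n.m) (P.q.n.l + P.q.n.m) (Nm N)).Gam_nn N) fun a m1 b hb' U hU b' hb'' a' m2 _ => ?_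
    rw [hSd, hTd] at m1 m2
    have m1' : a ∈ P.TRp (P.p.n.l + P.p.n.m) (Nm N) := by
      unfold Prm.TRp
      rw [ev_zero]
      exact m1
    have m2' : a' ∈ P.TRq (P.q.n.l + P.q.n.m) (Nm N) := by
      unfold Prm.TRq
      rw [ev_zero]
      exact m2
    have m3 : b ++ (U ++ b'.reverse) ∈ P.A0 (Nm N) := by
      have sb1 : P.p.s.bn ≤ 101 / 100 * (8000000 * ρ) := hp1.s.bn.2
      have sb2 : P.q.s.bn ≤ 101 / 100 * (8000000 * ρ) := hq1.s.bn.2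
      unfold Prm.A0
      rw [ev_zero, ← hSd, ← hTd]
      refine mem_man_out h.p.f h.q.f hS hT.le norm_one norm_one (((ho hp1).ouF (hE hp1) le_rfl).sh8 s)
        (((ho hq1).ouF (hE hq1) le_rfl).sh8 s) wF (((ho hp1).ouS (hE hp1) le_rfl).sh8 s) (((ho hq1).ouS (hE hq1) le_rfl).sh8 s)
        ?_ ?_ hb'.1 hb''.1 hU
      · rw [hW2]
        show P.p.s.bn + 22000000 * ρ + 2 * (22000000 * ρ) ≤ P.W.D0 + 44000000 * ρ
        linarith
      · rw [hW2]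
        show P.q.s.bn + 22000000 * ρ + 2 * (22000000 * ρ) ≤ P.W.D0 + 44000000 * ρ
        linarith
    have m4 := gam_geW (C := P.WR h (P.p.n.l + P.p.n.m) (P.q.n.l + P.q.n.m) (Nm N)) (N := N) (a := a)
      (R := b ++ (U ++ b'.reverse)) (a' := a') m1' m3 m2'
    rw [List.append_assoc, List.append_assoc] at m4
    have m5 : (1 : ℝ) * (1 * 1) ≤ F3E.Gam ((P.WR h (P.p.n.l + P.p.n.m) (P.q.n.l + P.q.n.m) (Nm N)).G N fun _ => 1)
      (a ++ (b ++ (U ++ (b'.reverse ++ a'.reverse)))) := m4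
    show (1 : ℝ) * 1 ≤ _
    linarith

end Pool.Agent.ROT.F3
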