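import Pool.Agent.ROT.W8Hp
import Pool.Agent.ROT.F3SymX
import Pool.Agent.ROT.F3End

/-!
# ROT / W8Sym (helper84): the classes of `F3Cls` and the functional `Hp` under the symmetries of the lattice; reversed walks

`S : LSym`, `mp S w` = image of the word, `S.L d` = image of the direction.
* `lvL`, `ltlL` : levels and lateral coordinates; `TipC.mp`, `DblC.mp`, `PreM.mp`, `OtM.mp`, `EdQ.mp`, `RsQ.mp`, `NRt.mp`, `MnQ.mp`,
  `PaiM.mp`, `KcM.mp`; with `mem_.._mp` : the sets;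
* **`Hp_mp`** : `Hp (S.L d) .. psi (mp S w) = Hp d .. (psi o mp S) w`; **`sum_Hp_ev`** : the sums over the walks in the direction `ev a`;
* `sum_rev` : reversed walks as words.
-/

set_option autoImplicit false

namespace Pool.Agent.ROT.F3

open Finset ComplexConjugate
open scoped ENNReal Classical
open Pool.Agent.NTS.Res (step pos saw fug)

section

variable {d d' : ℂ} {S : LSym}

lemma lv_dt (d z : ℂ) : lv d z = dt z d := by
  rw [dt_mul_conj, mul_comm]
  rfl

/-- levels -/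
lemma lvL (S : LSym) (d z : ℂ) : lv (S.L d) (S.L z) = lv d z := by
  rw [lv_dt, lv_dt, dt_map]

lemma lv_sq (d z : ℂ) : lv d z ^ 2 + ltl d z ^ 2 = (‖d‖ * ‖z‖) ^ 2 := by
  unfold lv ltl
  rw [← Complex.norm_conj d, ← norm_mul, ← Complex.normSq_eq_norm_sq, Complex.normSq_apply]
  ring

/-- lateral coordinates -/
lemma ltlL (S : LSym) (d z : ℂ) : |ltl (S.L d) (S.L z)| = |ltl d z| := by
  have h1 := lv_sq (S.L d) (S.L z)
  have h2 := lv_sq d z
  rw [lvL, LinearIsometryEquiv.norm_map, LinearIsometryEquiv.norm_map] at h1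
  rw [← sq_eq_sq_iff_abs_eq_abs]
  linarith

lemma KnL (S : LSym) {c κ : ℝ} {v : ℂ} : Kn (S.L d) c κ (S.L v) ↔ Kn d c κ v := by
  unfold Kn
  rw [lvL, LinearIsometryEquiv.norm_map]

lemma L_sub (S : LSym) (z z' : ℂ) : S.L z - S.L z' = S.L (z - z') := (map_sub _ _ _).symm

variable {r r2 l m r0 : ℝ} {w p R b : W3} {k : ℕ}

lemma TipC.mp (h : TipC d r w) : TipC (S.L d) r (mp S w) where
  ev := by rw [mp_length]; exact h.ev
  sw := SW_mp.2 h.sw
  pos := by rw [mp_length]; exact h.pos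
  left k hk := by
    rw [mp_length] at hk
    rw [ps_mp, en_mp, lvL, lvL]
    exact h.left k hk
  ball k hk := by
    rw [mp_length] at hk
    rw [ps_mp, LinearIsometryEquiv.norm_map]
    exact h.ball k hk

lemma cutC_mp : CutC (S.L d) (mp S w) k ↔ CutC d w k := by
  unfold CutC
  simp only [mp_length, ps_mp, lvL]

lemma fstC_mp : FstC (S.L d) l (mp S w) ↔ FstC d l w := by
  unfold FstC
  simp only [mp_length, ps_mp, en_mp, lvL, cutC_mp]

lemma restC_mp : RestC (S.L d) r0 (mp S w) ↔ RestC d r0 w := by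
  unfold RestC
  simp only [mp_length, ps_mp, lvL, LinearIsometryEquiv.norm_map]

lemma BlkC.mp (h : BlkC d r w) : BlkC (S.L d) r (mp S w) where
  t := h.t.mp
  right k h0 hk := by
    rw [mp_length] at hk
    rw [ps_mp, lvL]
    exact h.right k h0 hk

lemma DblC.mp (h : DblC d r l r2 m p k) : DblC (S.L d) r l r2 m (mp S p) k where
  le := by rw [mp_length]; exact h.le
  a := by rw [← mp_take]; exact h.a.mp
  fa := by rw [← mp_take]; exact fstC_mp.2 h.fa
  b := by rw [← mp_drop]; exact h.b.mp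
  fb := by rw [← mp_drop]; exact fstC_mp.2 h.fb

lemma endQ_mp {c e : ℝ} : EndQ (S.L d) c e (mp S w) ↔ EndQ d c e w := by
  unfold EndQ
  rw [en_mp, lvL, LinearIsometryEquiv.norm_map]

lemma coneQ_mp {c κ : ℝ} : ConeQ (S.L d) c κ (mp S w) ↔ ConeQ d c κ w := by
  unfold ConeQ
  simp only [mp_length, ps_mp, KnL]

lemma coneR_mp {c r0 κ : ℝ} : ConeR (S.L d) c r0 κ (mp S w) ↔ ConeR d c r0 κ w := by
  unfold ConeR
  simp only [mp_length, ps_mp, KnL, LinearIsometryEquiv.norm_map]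

lemma thC_mp {h : ℝ} : ThC (S.L d) h (mp S w) ↔ ThC d h w := by
  unfold ThC
  simp only [mp_length, ps_mp, lvL, cutC_mp]

variable {P Q : Tp} {O : Ot} {E : En} {W : Wn} {s s' : Sr} {U T : ℝ}

lemma PreM.mp (h : PreM d P U T p k) : PreM (S.L d) P U T (mp S p) k where
  g := h.g.mp
  th := by rw [← mp_drop]; exact thC_mp.2 h.th
  e := by rw [← mp_take]; exact endQ_mp.2 h.e
  s := by rw [← mp_drop]; exact coneQ_mp.2 h.s
  la := h.la
  lb := by rw [← mp_drop, mp_length]; exact h.lb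

/-- a class which is stable under all symmetries is invariant -/
lemma mp_iff {X : ℂ → W3 → Prop} (h : ∀ (S : LSym) (d : ℂ) (w : W3), X d w → X (S.L d) (mp S w)) (S : LSym) (d : ℂ) (w : W3) :
    X (S.L d) (mp S w) ↔ X d w := by
  refine ⟨fun h1 => ?_, h S d w⟩
  have h2 := h S.inv _ _ h1
  rwa [S.inv_L, mp_inv_mp] at h2

lemma mem_pre_mp : mp S p ∈ Pre (S.L d) P U T ↔ p ∈ Pre d P U T :=
  mp_iff (X := fun d w => w ∈ Pre d P U T) (fun _ _ _ ⟨k, hk⟩ => ⟨k, hk.mp⟩) S d p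

lemma OtM.mp (h : OtM d O U T b) : OtM (S.L d) O U T (mp S b) where
  k := h.k.mp
  f := fstC_mp.2 h.f
  hw k hk := by
    rw [mp_length] at hk
    rw [ps_mp, ltlL]
    exact h.hw k hk
  s := coneQ_mp.2 h.s
  e := endQ_mp.2 h.e
  lb := by rw [mp_length]; exact h.lb

lemma mem_otB_mp : mp S b ∈ OtB (S.L d) O U T ↔ b ∈ OtB d O U T :=
  mp_iff (X := fun d w => w ∈ OtB d O U T) (fun _ _ _ h => OtM.mp h) S d b

lemma EdQ.mp (h : EdQ d P U R) : EdQ (S.L d) P U (mp S R) := ⟨restC_mp.2 h.right, coneR_mp.2 h.cone⟩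

lemma edQ_mp : EdQ (S.L d) P U (mp S R) ↔ EdQ d P U R := mp_iff (X := fun d w => EdQ d P U w) (fun _ _ _ h => EdQ.mp h) S d R

lemma RsQ.mp (h : RsQ d d' P Q W U T R) : RsQ (S.L d) (S.L d') P Q W U T (mp S R) where
  ev := by rw [mp_length]; exact h.ev
  sw := SW_mp.2 h.sw
  s := h.s.mp
  e := by rw [← mp_reverse]; exact h.e.mp
  far := by rw [en_mp, LinearIsometryEquiv.norm_map]; exact h.far
  near := by rw [en_mp, LinearIsometryEquiv.norm_map]; exact h.near
  lo := by rw [mp_length]; exact h.lo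
  hi := by rw [mp_length]; exact h.hi

lemma mem_rst_mp : mp S R ∈ Rst (S.L d) (S.L d') P Q W U T ↔ R ∈ Rst d d' P Q W U T := by
  refine ⟨fun h1 => ?_, fun h => RsQ.mp h⟩
  have h2 : F3.mp S.inv (F3.mp S R) ∈ Rst (S.inv.L (S.L d)) (S.inv.L (S.L d')) P Q W U T := RsQ.mp h1
  rwa [S.inv_L, S.inv_L, mp_inv_mp] at h2

/-! ### the other classes of `F3Cls` -/

lemma nrt_mp {sr : Sr} : NRt (S.L d) sr U (mp S w) ↔ NRt d sr U w := by
  unfold NRt
  simp only [mp_length, ps_mp, lvL, ltlL, LinearIsometryEquiv.norm_map]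

lemma MnQ.mp (h : MnQ d d' P Q W s s' U T R) : MnQ (S.L d) (S.L d') P Q W s s' U T (mp S R) where
  q := h.q.mp
  np := nrt_mp.2 h.np
  nq := by rw [← mp_reverse]; exact nrt_mp.2 h.nq

/-! ### the functional with an outer block -/

variable {Y : Tp} {i j : ℕ}

lemma HpM.mp (h : HpM d P O Y U T w i j) : HpM (S.L d) P O Y U T (mp S w) i j where
  ij := h.ij
  jw := by rw [mp_length]; exact h.jw
  pre := by rw [← mp_take]; exact mem_pre_mp.2 h.pre
  blk := by rw [seg_mp]; exact mem_otB_mp.2 h.blk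
  ey := by rw [← mp_drop]; exact h.ey.mp

lemma hpM_mp : HpM (S.L d) P O Y U T (mp S w) i j ↔ HpM d P O Y U T w i j :=
  mp_iff (X := fun d w => HpM d P O Y U T w i j) (fun _ _ _ h => HpM.mp h) S d w

/-- **the functional under a symmetry** -/
theorem Hp_mp (ψ : W3 → ℝ) : Hp (S.L d) P O Y U T ψ (mp S w) = Hp d P O Y U T (fun b => ψ (mp S b)) w := by
  unfold Hp
  rw [mp_length]
  refine sum_congr rfl fun i _ => sum_congr rfl fun j _ => ?_
  rw [seg_mp]
  by_cases h : HpM d P O Y U T w i j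
  · rw [if_pos h, if_pos h.mp]
  · rw [if_neg h, if_neg fun h' => h (hpM_mp.1 h')]

end

lemma rS_one (a : Fin 3) : (rS a).L 1 = ev a := by
  rw [← ev_zero, L_ev, rS_σ, zero_add]

/-- **the sums over the walks, direction `ev a`** -/
theorem sum_Hp_ev {n : ℕ} (a : Fin 3) (P : Tp) (O : Ot) (Y : Tp) (U T : ℝ) (ψ : W3 → ℝ) :
    ∑ s ∈ saw n, Hp (ev a) P O Y U T ψ (List.ofFn s) =
      ∑ s ∈ saw n, Hp 1 P O Y U T (fun b => ψ (mp (rS a) b)) (List.ofFn s) := by
  rw [← sum_mpn (rS a) (fun s => Hp (ev a) P O Y U T ψ (List.ofFn s))]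
  refine sum_congr rfl fun s _ => ?_
  rw [ofFn_mpn, ← rS_one, Hp_mp]

/-- the functional in the direction `ev a` is the functional in the direction `1` of the turned walk -/
theorem Hp_ev {n : ℕ} (a : Fin 3) (P : Tp) (O : Ot) (Y : Tp) (U T : ℝ) (ψ : W3 → ℝ) (s : Fin n → Fin 3) :
    Hp (ev a) P O Y U T ψ (List.ofFn s) = Hp 1 P O Y U T (fun b => ψ (mp (rS a) b)) (List.ofFn (mpn (rS a).inv s)) := by
  conv_lhs => rw [← inv_mpn (rS a) s, ofFn_mpn, ← rS_one]
  rw [Hp_mp]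

/-- **the mass of the blocks, direction `ev a`** (any further condition `X` which is a function of the number of letters) -/
theorem mass_ev (a : Fin 3) (O : Ot) (U T : ℝ) (X : ℕ → Prop) (ψ : W3 → ℝ≥0∞) :
    (∑' b : W3, if b ∈ OtB (ev a) O U T ∧ X b.length then wx b * ψ b else 0) =
      ∑' b : W3, if b ∈ OtB 1 O U T ∧ X b.length then wx b * ψ (mp (rS a) b) else 0 := by
  rw [← tsum_mp (rS a)]
  refine tsum_congr fun b => ?_
  rw [mp_length, wx_mp]
  congr 1
  rw [← rS_one, mem_otB_mp]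

/-! ### reversed walks -/

/-- **reversed walks as words** -/
theorem sum_rev {M : Type*} [AddCommMonoid M] {n : ℕ} (G : W3 → M) :
    ∑ s ∈ saw n, G (List.ofFn s).reverse = ∑ s ∈ saw n, G (List.ofFn s) := by
  rw [← sum_rvw fun s => G (List.ofFn s)]
  exact sum_congr rfl fun s _ => by rw [ofFn_rvw]

end Pool.Agent.ROT.F3
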