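import Pool.Agent.ROT.W8Sym
import Pool.Agent.ROT.F3W9

/-!
# ROT / W8SymN (helper84): means and locality under reversal and symmetries

* `mean_mpn`, `mean_rvw`; **`NearS.rvw : NearS n m ε G → NearE n m ε (fun s => G (rvw s))`**, `NearE.rvw`; `NearS.mpn`, `NearE.mpn`.
-/

set_option autoImplicit false

namespace Pool.Agent.ROT.F3

open Finset
open Pool.Agent.NTS.Res (saw)
open Pool.Agent.IW.Res (mean)
open Pool.Agent.SCF.Z (rvw rvw_rvw)

section

variable {n m : ℕ} {ε : ℝ} {G : (Fin n → Fin 3) → ℝ}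

lemma mean_eq (f : (Fin n → Fin 3) → ℝ) : mean n f = (∑ s ∈ saw n, f s) / ((saw n).card : ℝ) := rfl

lemma mean_mpn (S : LSym) (f : (Fin n → Fin 3) → ℝ) : mean n (fun s => f (mpn S s)) = mean n f := by
  rw [mean_eq, mean_eq, sum_mpn]

lemma mean_rvw (f : (Fin n → Fin 3) → ℝ) : mean n (fun s => f (rvw s)) = mean n f := by
  rw [mean_eq, mean_eq, sum_rvw]

lemma LocS.rvw {Φ : (Fin n → Fin 3) → ℝ} (h : LocS m Φ) : LocE m fun s => Φ (SCF.Z.rvw s) := by
  intro s s' hs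
  refine h _ _ fun i hi => ?_
  have hi' := i.2
  show s (Fin.rev i) = s' (Fin.rev i)
  exact hs _ (by rw [Fin.val_rev]; omega)

lemma LocE.rvw {Φ : (Fin n → Fin 3) → ℝ} (h : LocE m Φ) : LocS m fun s => Φ (SCF.Z.rvw s) := by
  intro s s' hs
  refine h _ _ fun i hi => ?_
  have hi' := i.2
  show s (Fin.rev i) = s' (Fin.rev i)
  exact hs _ (by rw [Fin.val_rev]; omega)

/-- **start gates of the reversed walk are end gates** -/
theorem NearS.rvw (h : NearS n m ε G) : NearE n m ε fun s => G (SCF.Z.rvw s) := by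
  obtain ⟨Φ, h1, h2, h3⟩ := h
  refine ⟨fun s => Φ (SCF.Z.rvw s), h1.rvw, fun s => h2 _, ?_⟩
  rwa [mean_rvw fun s => |G s - Φ s|]

theorem NearE.rvw (h : NearE n m ε G) : NearS n m ε fun s => G (SCF.Z.rvw s) := by
  obtain ⟨Φ, h1, h2, h3⟩ := h
  refine ⟨fun s => Φ (SCF.Z.rvw s), h1.rvw, fun s => h2 _, ?_⟩
  rwa [mean_rvw fun s => |G s - Φ s|]

theorem NearS.mpn (h : NearS n m ε G) (S : LSym) : NearS n m ε fun s => G (F3.mpn S s) := by
  obtain ⟨Φ, h1, h2, h3⟩ := h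
  refine ⟨fun s => Φ (F3.mpn S s), fun s s' hs => h1 _ _ fun i hi => ?_, fun s => h2 _, ?_⟩
  · show S.σ (s i) = S.σ (s' i)
    rw [hs i hi]
  · rwa [mean_mpn S fun s => |G s - Φ s|]

theorem NearE.mpn (h : NearE n m ε G) (S : LSym) : NearE n m ε fun s => G (F3.mpn S s) := by
  obtain ⟨Φ, h1, h2, h3⟩ := h
  refine ⟨fun s => Φ (F3.mpn S s), fun s s' hs => h1 _ _ fun i hi => ?_, fun s => h2 _, ?_⟩
  · show S.σ (s i) = S.σ (s' i)
    rw [hs i hi]
  · rwa [mean_mpn S fun s => |G s - Φ s|]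

/-- the functional of the reversed word is the functional of the reversed walk -/
lemma rev_eq_rvw (F : W3 → ℝ) (s : Fin n → Fin 3) : F (List.ofFn s).reverse = F (List.ofFn (SCF.Z.rvw s)) := by
  rw [ofFn_rvw]

/-- **the end gate**: `Hp` of the reversed word -/
theorem nearE_rev {F : W3 → ℝ} (h : NearS n m ε fun s => F (List.ofFn s)) : NearE n m ε fun s => F (List.ofFn s).reverse := by
  have h1 := h.rvw
  simp only [← rev_eq_rvw F] at h1
  exact h1

/-- the gate in the direction `ev a` -/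
theorem nearS_Hp_ev (a : Fin 3) {P : Tp} {O : Ot} {Y : Tp} {U T : ℝ} {ψ : W3 → ℝ}
    (h : NearS n m ε fun s => Hp 1 P O Y U T (fun b => ψ (mp (rS a) b)) (List.ofFn s)) :
    NearS n m ε fun s => Hp (ev a) P O Y U T ψ (List.ofFn s) := by
  have h1 := h.mpn (rS a).inv
  simp only [← Hp_ev a] at h1
  exact h1

/-- the mean of the functional in the direction `ev a` -/
theorem mean_Hp_ev (a : Fin 3) (P : Tp) (O : Ot) (Y : Tp) (U T : ℝ) (ψ : W3 → ℝ) :
    mean n (fun s => Hp (ev a) P O Y U T ψ (List.ofFn s)) =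
      mean n (fun s => Hp 1 P O Y U T (fun b => ψ (mp (rS a) b)) (List.ofFn s)) := by
  rw [mean_eq, mean_eq, sum_Hp_ev]

/-- the mean at the end -/
theorem mean_rev (F : W3 → ℝ) : mean n (fun s => F (List.ofFn s).reverse) = mean n (fun s => F (List.ofFn s)) := by
  rw [mean_eq, mean_eq, sum_rev F]

end

end Pool.Agent.ROT.F3
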