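import Pool.Agent.ROT.W8Fin
import Pool.Agent.ROT.F3Mix
import Pool.Agent.ROT.W8SymN
import Pool.Agent.ROT.F3ClsW

/-!
# ROT, F3, row W8 (walks), part 10 (helper94): start gates and end gates together

* `two_mid` : the middle piece between the two outer gates is a rest of `F3Cls`;
* `EdF` (`EdH` : and few letters) : the data of one end, with a weight of its outer block;
* **`two_lowF`**, **`two_lowW`** : `p * #saw n ≤ ∑ Γ` for every functional `Γ ≥ 0` which is at least `ψ b * ψ' b'` on the words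
  `a b R b'⁻¹ a'⁻¹`; `p` depends only on the ratios of the constants;
* `Gam_ge` : the gates of a class.
-/

set_option autoImplicit false

open Filter Topology

namespace Pool.Agent.ROT.F3

open Finset ComplexConjugate
open scoped ENNReal Classical

/-! ### the middle piece -/

section mid

variable {d d' : ℂ} {P P' : Tp} {O O' : Ot} {Y Y' : Tp} {W : Wn} {S T : ℝ} {w : W3} {i j i' j' : ℕ}

lemma EdQ.tk {R : W3} (h : EdQ d P S R) (k : ℕ) : EdQ d P S (R.take k) := by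
  rcases le_total k R.length with hk | hk
  · refine ⟨fun i h0 hi hn => ?_, fun i hi => ?_⟩
    · rw [List.length_take, min_eq_left hk] at hi
      rw [ps_take R hi hk] at hn ⊢
      exact h.right i h0 (by omega) hn
    · rw [List.length_take, min_eq_left hk] at hi
      rw [ps_take R hi hk]
      exact h.cone i (by omega)
  · rwa [List.take_of_length_le hk]

lemma HpM.lenj (h : HpM d P O Y S T w i j) : (j : ℝ) ≤ (P.la + P.lb + O.lb) * T := by
  have h1 := Pre.len h.pre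
  have h2 := h.blk.lb
  rw [seg_length w h.ij h.jw, Nat.cast_sub h.ij] at h2
  rw [List.length_take, min_eq_left (h.ij.trans h.jw)] at h1
  linarith

lemma HpM.bj' (h : HpM d P O Y S T w i j) : ‖ps w j‖ ≤ (P.r + P.r2 + O.r) * S := by
  have bi := h.bi
  have bj := h.bj
  calc ‖ps w j‖ = ‖(ps w j - ps w i) + ps w i‖ := by ring_nf
    _ ≤ ‖ps w j - ps w i‖ + ‖ps w i‖ := norm_add_le _ _
    _ ≤ _ := by linarith

lemma rev_seg {w : W3} {a b : ℕ} (hab : a ≤ b) (hb : b ≤ w.length) :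
    (seg w a b).reverse = (w.reverse.drop (w.length - b)).take (b - a) := by
  unfold seg
  rw [List.drop_reverse, show w.length - (w.length - b) = b by omega, List.take_reverse, List.length_take, min_eq_left hb,
    show b - (b - a) = a by omega, List.drop_take]

/-- **the middle piece** -/
theorem two_mid (h : HpM d P O Y S T w i j) (h' : HpM d' P' O' Y' S T w.reverse i' j') (he : Even w.length) (hs : SW w)
    (hj : 2 * (j + j') ≤ w.length)
    (far : W.D0 * S + ((P.r + P.r2 + O.r) * S + (P'.r + P'.r2 + O'.r) * S) ≤ ‖en w‖)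
    (near : ‖en w‖ + ((P.r + P.r2 + O.r) * S + (P'.r + P'.r2 + O'.r) * S) ≤ W.D1 * S)
    (lo : 2 * (W.t0 * T) ≤ (w.length : ℝ)) (hi : (w.length : ℝ) ≤ W.t1 * T) :
    seg w j (w.length - j') ∈ Rst d d' Y Y' W S T := by
  have e1 := h.ej
  have e2 := h'.ej
  have l1 : j ≤ w.length - j' := by omega
  have hl : (seg w j (w.length - j')).length = w.length - j' - j := seg_length w l1 (by omega)
  have hen : en (seg w j (w.length - j')) = ps w (w.length - j') - ps w j := by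
    rw [en, hl]
    unfold seg
    rw [ps_take _ le_rfl (by rw [List.length_drop]; omega), ps_append_drop w h.jw e1,
      show j + (w.length - j' - j) = w.length - j' by omega]
  have hrv : ps w.reverse j' = ps w (w.length - j') - en w := ps_reverse he (by omega)
  have b1 := h.bj'
  have b2 := h'.bj'
  have e3 : en (seg w j (w.length - j')) = en w + (ps w.reverse j' - ps w j) := by rw [hen, hrv]; ring
  have n1 : ‖ps w.reverse j' - ps w j‖ ≤ (P.r + P.r2 + O.r) * S + (P'.r + P'.r2 + O'.r) * S :=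
    (norm_sub_le _ _).trans (by linarith)
  refine ⟨?_, ?_, ?_, ?_, ?_, ?_, ?_, ?_⟩
  · rw [hl]
    obtain ⟨a, ha⟩ := he
    obtain ⟨b, hb⟩ := e1
    obtain ⟨c, hc⟩ := e2
    exact ⟨a - c - b, by omega⟩
  · exact (hs.drop' h.jw e1).take' _
  · exact h.ey.tk _
  · rw [rev_seg l1 (by omega), show w.length - (w.length - j') = j' by omega]
    exact h'.ey.tk _
  · rw [e3]
    have h3 : ‖en w‖ ≤ ‖en w + (ps w.reverse j' - ps w j)‖ + ‖ps w.reverse j' - ps w j‖ := by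
      have := norm_sub_le (en w + (ps w.reverse j' - ps w j)) (ps w.reverse j' - ps w j)
      rwa [add_sub_cancel_right] at this
    linarith
  · rw [e3]
    exact (norm_add_le _ _).trans (by linarith)
  · rw [hl, Nat.cast_sub (by omega), Nat.cast_sub (by omega)]
    have h4 : (2 : ℝ) * (j + j') ≤ (w.length : ℝ) := by exact_mod_cast hj
    linarith
  · refine le_trans ?_ hi
    rw [hl]
    exact_mod_cast (by omega : w.length - j' - j ≤ w.length)

/-- the word and its pieces -/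
lemma two_split {w : W3} {i j i' j' : ℕ} (h1 : i ≤ j) (h2 : i' ≤ j') (h3 : j + j' ≤ w.length) :
    w.take i ++ (seg w i j ++ (seg w j (w.length - j') ++ ((seg w.reverse i' j').reverse ++ (w.reverse.take i').reverse))) = w := by
  have e1 : (seg w.reverse i' j').reverse ++ (w.reverse.take i').reverse = w.drop (w.length - j') := by
    rw [← List.reverse_append]
    have : w.reverse.take i' ++ seg w.reverse i' j' = w.reverse.take j' := by
      unfold seg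
      rw [← List.take_add, Nat.add_sub_cancel' h2]
    rw [this, List.take_reverse, List.reverse_reverse]
  rw [e1, seg_app w (show j ≤ w.length - j' by omega), seg_app w h1, List.take_append_drop]

end mid

/-! ### both ends -/

open Pool.Agent.NTS.Res (pos saw size)

open Pool.Agent.IW.Res (mean)

open Pool.Agent.SCF.Z (bm)

/-- the data of one end: ratios `x = a K`, `ρ0 = Q K` of the constants of `Wc`, the scale `K * S` between `δ1` and `δ0` times the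
size of the walk, the radius of locality at most `H * K`, the outer block has the mass `c1` up to `A (K S) ^ (4 / 3)` letters -/
structure EdF (a Q H A c1 τ δ0 δ1 : ℝ) (n : ℕ) (S T : ℝ) (P : Tp) (O : Ot) (Y : Tp) (ψ : W3 → ℝ) : Prop where
  r : W8R P O Y
  cs : P.cs ≤ 1
  w : ∃ x K ρ0 : ℝ, W8.Wc P O Y x K ρ0 ∧ x = a * K ∧ ρ0 = Q * K ∧ δ1 * size n ≤ K * S ∧ K * S ≤ δ0 * size n ∧
    HpR P O Y ≤ H * K ∧ ∃ M : ℕ, (M : ℝ) ≤ A * (K * S) ^ (4 / 3 : ℝ) ∧
      c1 ≤ bm (fun _ b => List.ofFn b ∈ OtB 1 O S T) (fun _ b => ψ (List.ofFn b)) M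
  la : τ * n ≤ P.la * T
  lb : τ * n ≤ P.lb * T
  ψ : ∀ b, 0 ≤ ψ b ∧ ψ b ≤ 1

/-- few walks are much longer than their size -/
lemma big_end {n : ℕ} {K : ℝ} (hK : 0 < K) (hn : 1 ≤ n) :
    (((saw n).filter fun s => K * size n < ‖pos s n‖).card : ℝ) * K ^ 2 ≤ ((saw n).card : ℝ) := by
  have h0 := NTSF.size_pos hn
  have hc : (0 : ℝ) < ((saw n).card : ℝ) := NTSF.saw_card_pos n
  have e1 : size n ^ 2 * ((saw n).card : ℝ) = ∑ s ∈ saw n, ‖pos s n‖ ^ 2 := by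
    unfold size
    rw [Real.sq_sqrt (div_nonneg (sum_nonneg fun s _ => sq_nonneg _) hc.le), div_mul_cancel₀ _ hc.ne']
  have h1 : ∑ s ∈ (saw n).filter (fun s => K * size n < ‖pos s n‖), (K * size n) ^ 2 ≤ ∑ s ∈ saw n, ‖pos s n‖ ^ 2 := by
    refine le_trans (sum_le_sum fun s hs => ?_) (sum_le_sum_of_subset_of_nonneg (filter_subset _ _) fun s _ _ => sq_nonneg _)
    exact pow_le_pow_left₀ (by positivity) (mem_filter.1 hs).2.le 2
  rw [sum_const, nsmul_eq_mul, ← e1] at h1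
  have h2 : (((saw n).filter fun s => K * size n < ‖pos s n‖).card : ℝ) * K ^ 2 * size n ^ 2 ≤ ((saw n).card : ℝ) * size n ^ 2 := by
    calc _ = (((saw n).filter fun s => K * size n < ‖pos s n‖).card : ℝ) * (K * size n) ^ 2 := by ring
      _ ≤ size n ^ 2 * ((saw n).card : ℝ) := h1
      _ = _ := by ring
  exact le_of_mul_le_mul_right h2 (by positivity)

/-- **start and end gates together have a positive mean** -/
theorem two_lowF (a Q H A c1 : ℝ) (ha : 0 < a) (hQ : a ≤ Q) (hH : 0 ≤ H) (hA : 0 ≤ A) (hc1 : 0 < c1) :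
    ∃ p k1 k2 : ℝ, 0 < p ∧ 0 < k1 ∧ 0 < k2 ∧ ∀ τ : ℝ, 0 < τ → ∃ δ0 : ℝ, 0 < δ0 ∧ ∀ δ1 : ℝ, 0 < δ1 → ∃ n0 : ℕ,
      ∀ (n : ℕ) (S T : ℝ) (P P' : Tp) (O O' : Ot) (Y Y' : Tp) (W : Wn) (ψ ψ' Γ : W3 → ℝ), n0 ≤ n → Even n → 0 < S →
        EdF a Q H A c1 τ δ0 δ1 n S T P O Y ψ → EdF a Q H A c1 τ δ0 δ1 n S T P' O' Y' ψ' →
          W.D0 * S ≤ k1 * size n → k2 * size n ≤ W.D1 * S → 2 * (W.t0 * T) ≤ n → (n : ℝ) ≤ W.t1 * T → (∀ w, 0 ≤ Γ w) →
            (∀ a ∈ Pre 1 P S T, ∀ b ∈ OtB 1 O S T, ∀ R ∈ Rst 1 1 Y Y' W S T, ∀ b' ∈ OtB 1 O' S T,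
              ∀ a' ∈ Pre 1 P' S T, SW (a ++ (b ++ (R ++ (b'.reverse ++ a'.reverse)))) →
                ψ b * ψ' b' ≤ Γ (a ++ (b ++ (R ++ (b'.reverse ++ a'.reverse))))) →
              p * ((saw n).card : ℝ) ≤ ∑ s ∈ saw n, Γ (List.ofFn s) := by
  obtain ⟨p, hp, hlow⟩ := W8.hp_low a Q A c1 ha hQ hA hc1
  obtain ⟨e, δ, he, hδ, hδ1, hmix⟩ := mix3A (ε := 1) one_pos hp 1
  obtain ⟨κ, nS, hκ, hnear⟩ := W8.hp_nearS he hδ
  obtain ⟨κf, hκf, nf, hfar⟩ := farS (τ := 1 / 4) (ε := p ^ 2 / 16) (by norm_num) (by positivity)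
  obtain ⟨KB, hKB, hKB2⟩ : ∃ KB : ℝ, 0 < KB ∧ 8 / p ^ 2 ≤ KB ^ 2 := by
    refine ⟨max 1 (8 / p ^ 2), lt_max_of_lt_left one_pos, ?_⟩
    have h1 := le_max_left 1 (8 / p ^ 2)
    have h2 := le_max_right 1 (8 / p ^ 2)
    nlinarith
  refine ⟨p ^ 2 / 4, κf / 2, KB + κf, by positivity, by positivity, by positivity, fun τ hτ => ?_⟩
  obtain ⟨d0, hd0, h0⟩ := hlow τ hτ
  obtain ⟨d, hd, hd1, hd2, hd3⟩ : ∃ d : ℝ, 0 < d ∧ d ≤ d0 ∧ H * d ≤ κ ∧ H * d ≤ κf / 4 := by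
    have hH1 : 0 < H + 1 := by linarith
    refine ⟨min d0 (min (κ / (H + 1)) (κf / 4 / (H + 1))), lt_min hd0 (lt_min (by positivity) (by positivity)),
      min_le_left _ _, ?_, ?_⟩
    · have h1 : min d0 (min (κ / (H + 1)) (κf / 4 / (H + 1))) ≤ κ / (H + 1) := (min_le_right _ _).trans (min_le_left _ _)
      rw [le_div_iff₀ hH1] at h1
      have h2 : 0 ≤ min d0 (min (κ / (H + 1)) (κf / 4 / (H + 1))) := by positivity
      nlinarith
    · have h1 : min d0 (min (κ / (H + 1)) (κf / 4 / (H + 1))) ≤ κf / 4 / (H + 1) := (min_le_right _ _).trans (min_le_right _ _)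
      rw [le_div_iff₀ hH1] at h1
      have h2 : 0 ≤ min d0 (min (κ / (H + 1)) (κf / 4 / (H + 1))) := by positivity
      nlinarith
  refine ⟨d, hd, fun δ1 hδ1 => ?_⟩
  obtain ⟨n1, h1⟩ := h0 δ1 hδ1
  refine ⟨max (max n1 nS) (max nf 1), fun n S T P P' O O' Y Y' W ψ ψ' Γ hn hev hS E E' hD0 hD1 ht0 ht1 hΓ hG => ?_⟩
  have m1 : n1 ≤ n := (le_max_left _ _).trans ((le_max_left _ _).trans hn)
  have m2 : nS ≤ n := (le_max_right _ _).trans ((le_max_left _ _).trans hn)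
  have m3 : nf ≤ n := (le_max_left _ _).trans ((le_max_right _ _).trans hn)
  have m4 : 1 ≤ n := (le_max_right _ _).trans ((le_max_right _ _).trans hn)
  have hsz := NTSF.size_pos m4
  have hcard : (0 : ℝ) < ((saw n).card : ℝ) := NTSF.saw_card_pos n
  -- one end
  have one : ∀ (P : Tp) (O : Ot) (Y : Tp) (ψ : W3 → ℝ), EdF a Q H A c1 τ d δ1 n S T P O Y ψ →
      p ≤ mean n (fun s => Hp 1 P O Y S T ψ (List.ofFn s)) ∧
        NearS n ⌊δ * n⌋₊ e (fun s => Hp 1 P O Y S T ψ (List.ofFn s)) ∧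
          (P.r + P.r2 + O.r) * S ≤ κf / 4 * size n ∧ ∀ w, 0 ≤ Hp 1 P O Y S T ψ w ∧ Hp 1 P O Y S T ψ w ≤ 1 := by
    intro P O Y ψ E
    obtain ⟨x, K, ρ0, hw, hx, hρ, hs1, hs2, hR, M, hM, hc⟩ := E.w
    have hOr : 0 ≤ O.r := hw.R0.le
    have hR' : HpR P O Y * S ≤ H * d * size n := by
      calc HpR P O Y * S ≤ H * K * S := mul_le_mul_of_nonneg_right hR hS.le
        _ = H * (K * S) := by ring
        _ ≤ H * (d * size n) := mul_le_mul_of_nonneg_left hs2 hH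
        _ = H * d * size n := by ring
    have hR2 : (P.r + P.r2 + O.r) * S ≤ HpR P O Y * S := by
      refine mul_le_mul_of_nonneg_right ?_ hS.le
      unfold HpR
      linarith [E.r.Yrg, E.r.Yr0]
    refine ⟨?_, ?_, ?_, fun w => ⟨Hp_nonneg fun b => (E.ψ b).1, Hp_le_one (fun b => (E.ψ b).2) hS.le E.r.un⟩⟩
    · rw [mean_eq, le_div_iff₀ hcard]
      exact h1 n P O Y x K ρ0 S T ψ M m1 E.r E.cs hw hx hρ hS hs1 (hs2.trans (mul_le_mul_of_nonneg_right hd1 hsz.le))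
        E.la E.lb E.ψ hM hc
    · exact hnear n 1 P O Y S T ψ m2 hS.le (hR'.trans (mul_le_mul_of_nonneg_right hd2 hsz.le)) E.r.un E.r.Yrg E.r.Yr0
        E.r.Yκ.le hOr E.ψ
    · exact hR2.trans (hR'.trans (mul_le_mul_of_nonneg_right hd3 hsz.le))
  obtain ⟨a1, a2, a3, a4⟩ := one P O Y ψ E
  obtain ⟨b1, b2, b3, b4⟩ := one P' O' Y' ψ' E'
  have hfl : ((⌊δ * n⌋₊ : ℕ) : ℝ) ≤ δ * n := Nat.floor_le (by positivity)
  have c1' : p ≤ mean n (fun s => Hp 1 P' O' Y' S T ψ' (List.ofFn s).reverse) := by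
    rw [mean_rev fun w => Hp 1 P' O' Y' S T ψ' w]
    exact b1
  obtain ⟨hmx, -⟩ := hmix n ⌊δ * n⌋₊ ⌊δ * n⌋₊ m4 hfl hfl (fun s => Hp 1 P O Y S T ψ (List.ofFn s))
    (fun s => Hp 1 P' O' Y' S T ψ' (List.ofFn s).reverse) (fun s => by rw [abs_of_nonneg (a4 _).1]; exact (a4 _).2)
    (fun s => by rw [abs_of_nonneg (b4 _).1]; exact (b4 _).2) a1 c1' a2 (nearE_rev b2)
  rw [mean_eq, le_div_iff₀ hcard] at hmx
  -- the bad walks
  have B1 := hfar n m3
  have B2 := big_end (n := n) hKB m4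
  have B2' : (((saw n).filter fun s => KB * size n < ‖pos s n‖).card : ℝ) ≤ p ^ 2 / 8 * ((saw n).card : ℝ) := by
    have h3 : (((saw n).filter fun s => KB * size n < ‖pos s n‖).card : ℝ) * (8 / p ^ 2) ≤ ((saw n).card : ℝ) :=
      (mul_le_mul_of_nonneg_left hKB2 (Nat.cast_nonneg _)).trans B2
    have h4 := mul_le_mul_of_nonneg_left h3 (show 0 ≤ p ^ 2 / 8 by positivity)
    calc _ = p ^ 2 / 8 * ((((saw n).filter fun s => KB * size n < ‖pos s n‖).card : ℝ) * (8 / p ^ 2)) := by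
          field_simp
      _ ≤ _ := h4
  obtain ⟨Bd, hBd⟩ : ∃ Bd : (Fin n → Fin 3) → Prop, Bd = fun s => ∃ j : ℕ, 1 / 4 * (n : ℝ) ≤ j ∧ j ≤ n ∧ ‖pos s j‖ ≤ κf * size n :=
    ⟨_, rfl⟩
  have B1a : ∑ s ∈ saw n, (if Bd s then (1 : ℝ) else 0) ≤ p ^ 2 / 16 * ((saw n).card : ℝ) := by
    rw [sum_boole, hBd]
    exact B1
  have B1b : ∑ s ∈ saw n, (if Bd (SCF.Z.rvw s) then (1 : ℝ) else 0) ≤ p ^ 2 / 16 * ((saw n).card : ℝ) := by
    rw [sum_rvw fun s => if Bd s then (1 : ℝ) else 0]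
    exact B1a
  have pt : ∀ s ∈ saw n, Hp 1 P O Y S T ψ (List.ofFn s) * Hp 1 P' O' Y' S T ψ' (List.ofFn s).reverse ≤
      Γ (List.ofFn s) + ((if Bd s then (1 : ℝ) else 0) + ((if Bd (SCF.Z.rvw s) then (1 : ℝ) else 0) +
        (if KB * size n < ‖pos s n‖ then 1 else 0))) := by
    intro s hs
    have q1 := mul_le_one₀ (a4 (List.ofFn s)).2 (b4 (List.ofFn s).reverse).1 (b4 (List.ofFn s).reverse).2
    have q2 := hΓ (List.ofFn s)
    have i1 : (0 : ℝ) ≤ if KB * size n < ‖pos s n‖ then 1 else 0 := by split_ifs <;> norm_num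
    have i2 : (0 : ℝ) ≤ if Bd (SCF.Z.rvw s) then 1 else 0 := by split_ifs <;> norm_num
    by_cases g1 : Bd s
    · rw [if_pos g1]
      linarith
    rw [if_neg g1]
    by_cases g1' : Bd (SCF.Z.rvw s)
    · rw [if_pos g1']
      linarith
    rw [if_neg g1']
    by_cases g2 : KB * size n < ‖pos s n‖
    · rw [if_pos g2]
      linarith
    rw [if_neg g2, add_zero, add_zero, add_zero]
    push Not at g2
    have hκs : 0 < κf * size n := mul_pos hκf hsz
    have far : ∀ t : Fin n → Fin 3, ¬ Bd t → ∀ j : ℕ, j ≤ n → ‖pos t j‖ ≤ κf * size n → (j : ℝ) < 1 / 4 * n := by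
      intro t ht j hj hle
      by_contra hc
      push Not at hc
      rw [hBd] at ht
      exact ht ⟨j, hc, hj, hle⟩
    have g3 : κf * size n < ‖pos s n‖ := by
      by_contra hc
      push Not at hc
      have h5 := far s g1 n le_rfl hc
      have h6 : (1 : ℝ) ≤ n := by exact_mod_cast m4
      linarith
    by_cases u1 : ∃ i j, HpM 1 P O Y S T (List.ofFn s) i j
    swap
    · push Not at u1
      rw [Hp_zero u1, zero_mul]
      exact q2
    by_cases u2 : ∃ i j, HpM 1 P' O' Y' S T (List.ofFn s).reverse i j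
    swap
    · push Not at u2
      rw [Hp_zero u2, mul_zero]
      exact q2
    obtain ⟨i, j, u1⟩ := u1
    obtain ⟨i', j', u2⟩ := u2
    rw [Hp_eq u1 hS.le E.r.un, Hp_eq u2 hS.le E'.r.un]
    have hsw : SW (List.ofFn s) := (SW_ofFn s).2 hs
    have hln : (List.ofFn s).length = n := by rw [List.length_ofFn]
    have hen : en (List.ofFn s) = pos s n := by rw [en, hln, ps_ofFn]
    have v1 : (j : ℝ) < 1 / 4 * n := by
      refine far s g1 j (by have := u1.jw; rwa [hln] at this) ?_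
      have := u1.bj'
      rw [ps_ofFn] at this
      linarith
    have v2 : (j' : ℝ) < 1 / 4 * n := by
      refine far (SCF.Z.rvw s) g1' j' (by have := u2.jw; rwa [List.length_reverse, hln] at this) ?_
      have := u2.bj'
      rw [← ofFn_rvw, ps_ofFn] at this
      linarith
    have v3 : 2 * (j + j') ≤ n := by
      have : (2 : ℝ) * (j + j') ≤ n := by linarith
      exact_mod_cast this
    have hmid := two_mid (W := W) u1 u2 (by rw [hln]; exact hev) hsw (by rw [hln]; exact v3) (by rw [hen]; linarith)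
      (by rw [hen]; linarith) (by rw [hln]; exact ht0) (by rw [hln]; exact ht1)
    rw [hln] at hmid
    have hsp := two_split (w := List.ofFn s) (i := i) (j := j) (i' := i') (j' := j') u1.ij u2.ij (by rw [hln]; omega)
    rw [hln] at hsp
    have := hG _ u1.pre _ u1.blk _ hmid _ u2.blk _ u2.pre (by rw [hsp]; exact hsw)
    rwa [hsp] at this
  have tot := sum_le_sum pt
  rw [sum_add_distrib, sum_add_distrib, sum_add_distrib] at tot
  have B3 : ∑ s ∈ saw n, (if KB * size n < ‖pos s n‖ then (1 : ℝ) else 0) ≤ p ^ 2 / 8 * ((saw n).card : ℝ) := by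
    rw [sum_boole]
    exact B2'
  linarith

/-- the same data, and the letters of one end are at most `n / 4` -/
structure EdH (a Q H A c1 τ δ0 δ1 : ℝ) (n : ℕ) (S T : ℝ) (P : Tp) (O : Ot) (Y : Tp) (ψ : W3 → ℝ) : Prop where
  r : W8R P O Y
  cs : P.cs ≤ 1
  w : ∃ x K ρ0 : ℝ, W8.Wc P O Y x K ρ0 ∧ x = a * K ∧ ρ0 = Q * K ∧ δ1 * size n ≤ K * S ∧ K * S ≤ δ0 * size n ∧
    HpR P O Y ≤ H * K ∧ ∃ M : ℕ, (M : ℝ) ≤ A * (K * S) ^ (4 / 3 : ℝ) ∧
      c1 ≤ bm (fun _ b => List.ofFn b ∈ OtB 1 O S T) (fun _ b => ψ (List.ofFn b)) M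
  la : τ * n ≤ P.la * T
  lb : τ * n ≤ P.lb * T
  len : (P.la + P.lb + O.lb) * T ≤ n / 4
  ψ : ∀ b, 0 ≤ ψ b ∧ ψ b ≤ 1

lemma EdH.edF {a Q H A c1 τ δ0 δ1 : ℝ} {n : ℕ} {S T : ℝ} {P : Tp} {O : Ot} {Y : Tp} {ψ : W3 → ℝ}
    (h : EdH a Q H A c1 τ δ0 δ1 n S T P O Y ψ) : EdF a Q H A c1 τ δ0 δ1 n S T P O Y ψ :=
  ⟨h.r, h.cs, h.w, h.la, h.lb, h.ψ⟩

/-- **start and end gates together have a positive mean** -/
theorem two_lowW (a Q H A c1 : ℝ) (ha : 0 < a) (hQ : a ≤ Q) (hH : 0 ≤ H) (hA : 0 ≤ A) (hc1 : 0 < c1) :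
    ∃ p k1 k2 : ℝ, 0 < p ∧ 0 < k1 ∧ 0 < k2 ∧ ∀ τ : ℝ, 0 < τ → ∃ δ0 : ℝ, 0 < δ0 ∧ ∀ δ1 : ℝ, 0 < δ1 → ∃ n0 : ℕ,
      ∀ (n : ℕ) (S T : ℝ) (P P' : Tp) (O O' : Ot) (Y Y' : Tp) (W : Wn) (ψ ψ' Γ : W3 → ℝ), n0 ≤ n → Even n → 0 < S →
        EdH a Q H A c1 τ δ0 δ1 n S T P O Y ψ → EdH a Q H A c1 τ δ0 δ1 n S T P' O' Y' ψ' →
          W.D0 * S ≤ k1 * size n → k2 * size n ≤ W.D1 * S → 2 * (W.t0 * T) ≤ n → (n : ℝ) ≤ W.t1 * T → (∀ w, 0 ≤ Γ w) →
            (∀ a ∈ Pre 1 P S T, ∀ b ∈ OtB 1 O S T, ∀ R ∈ Rst 1 1 Y Y' W S T, ∀ b' ∈ OtB 1 O' S T,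
              ∀ a' ∈ Pre 1 P' S T, SW (a ++ (b ++ (R ++ (b'.reverse ++ a'.reverse)))) →
                ψ b * ψ' b' ≤ Γ (a ++ (b ++ (R ++ (b'.reverse ++ a'.reverse))))) →
              p * ((saw n).card : ℝ) ≤ ∑ s ∈ saw n, Γ (List.ofFn s) := by
  obtain ⟨p, k1, k2, hp, hk1, hk2, h⟩ := two_lowF a Q H A c1 ha hQ hH hA hc1
  refine ⟨p, k1, k2, hp, hk1, hk2, fun τ hτ => ?_⟩
  obtain ⟨d0, hd0, h0⟩ := h τ hτ
  refine ⟨d0, hd0, fun δ1 hδ1 => ?_⟩
  obtain ⟨n0, h1⟩ := h0 δ1 hδ1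
  exact ⟨n0, fun n S T P P' O O' Y Y' W ψ ψ' Γ hn hev hS E E' => h1 n S T P P' O O' Y Y' W ψ ψ' Γ hn hev hS E.edF E'.edF⟩

end Pool.Agent.ROT.F3
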