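import Pool.Agent.SCF.PosW
import Pool.Agent.SCF.P0A
import Pool.Agent.ARM.TipS

/-!
# ROT, F3, row W8 (walks), part 1 (helper94): the mass of the start pieces from above

* `EP Q d` : end pieces of half plane words: `Q` holds and holds for no part behind a cut;
* **`ep_mass`** : bridges of height at most `H` in front of end pieces are half plane words, so
  `UU H * gf (EP Q d) <= HH (H + d)`;
* **`gu_mass`** : the mass of the start pieces `GU a r` is at most `C * Xb K` if `r <= 2 ^ K`.
-/

set_option autoImplicit false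

open Set Filter Topology

namespace Pool.Agent.ROT.F3.W8

open HexObs hiding pos curve

open HexObs.TS HexObs.SDN HexObs.ARM HexObs.BAR HexObs.NTA

open Pool.Agent.NTS.Res (pos saw fug step)

open NTF (sw JJ)

open NTSF (pos_zero pos_succ mem_saw pos_sw)

open Pool.Agent.SCF.Z (GU DmG SCut re_sw rvw pos_rvw rvw_mem)

open scoped ENNReal

/-- end pieces -/
def EP (Q : List Bool → Prop) (d : ℕ) : Set (List Bool) :=
  {U | U ∈ SSt d ∧ Q U ∧ ∀ D U' : List Bool, D ∈ BU → D ≠ [] → U' ∈ SSt d → U = D ++ U' → ¬ Q U'}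

/-- the difference of two bridges is a bridge -/
lemma brd_diff {r r' : ℕ} {B D : List Bool} (hB : B ∈ Brd r) (hBD : B ++ D ∈ Brd r') (hD : Pos D) : D ∈ Brd (r' - r) := by
  rw [mem_Brd] at hB hBD
  obtain ⟨b1, b2, b3, b4⟩ := hB
  obtain ⟨c1, c2, c3, c4⟩ := hBD
  have hlev : ∀ i, i ≤ D.length → lev (B ++ D) (B.length + i) = 3 * r + lev D i := by
    intro i _
    rw [lev_cat b3, b4]
  have hend := hlev D.length le_rfl
  rw [← List.length_append, c4] at hend
  have hrr : r ≤ r' := by
    rcases Nat.eq_zero_or_pos D.length with h | h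
    · rw [h, lev_zero] at hend
      omega
    · have := hD D.length h le_rfl
      omega
  rw [mem_Brd]
  refine ⟨fun i hi1 hi2 => ⟨hD i hi1 hi2, ?_⟩, ?_, ?_, by omega⟩
  · have h1 := (c1 (B.length + i) (by omega) (by rw [List.length_append]; omega)).2
    rw [hlev i hi2] at h1
    omega
  · intro i k hik hk he
    refine c2 (B.length + i) (B.length + k) (by omega) (by rw [List.length_append]; omega) ?_
    rw [vx_cat b3, vx_cat b3, he]
  · have h1 := dx_cat (s := B) (t := D) b3 D.length
    rw [← h1, ← List.length_append]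
    exact c3

/-- **the mass of the end pieces** -/
theorem ep_mass (Q : List Bool → Prop) (H d : ℕ) : ENNReal.ofReal (UU H) * gf (EP Q d) ≤ BAR.HH (H + d) := by
  have h0 : ENNReal.ofReal (UU H) ≤ gf {B | B ∈ BU ∧ hgt B ≤ H} := by
    rw [← FPS.sum_BT_range]
    have h1 : ∀ m, BT m = gf (Brd m) := fun m => (gf_Brd m).symm
    rw [Finset.sum_congr rfl fun m _ => h1 m]
    refine (BAR.gf_bi_eq (Finset.range (H + 1)) (fun m => Brd m) fun i j w hi hj => ?_).trans (gf_mono ?_)
    · rw [← hgt_eq hi, ← hgt_eq hj]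
    · intro w hw
      simp only [Set.mem_iUnion, exists_prop, Finset.mem_range] at hw
      obtain ⟨m, hm, hw⟩ := hw
      exact ⟨⟨m, hw⟩, by rw [hgt_eq hw]; omega⟩
  refine (mul_le_mul' h0 le_rfl).trans ?_
  show _ ≤ gf (SSt (H + d))
  have key : ∀ B B' U U' : List Bool, B ∈ BU → B' ∈ BU → U ∈ EP Q d → U' ∈ EP Q d → B ++ U = B' ++ U' →
      B.length ≤ B'.length → B = B' := by
    intro B B' U U' hB hB' hU hU' he hl
    obtain ⟨D, rfl⟩ : ∃ D, B' = B ++ D := by
      have h1 : B <+: B' := List.prefix_of_prefix_length_le ⟨U, he⟩ ⟨U', rfl⟩ hl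
      obtain ⟨D, hD⟩ := h1
      exact ⟨D, hD.symm⟩
    rw [List.append_assoc, List.append_cancel_left_eq] at he
    by_contra hne
    have hD : D ≠ [] := fun h => hne (by rw [h, List.append_nil])
    obtain ⟨r, hr⟩ := hB
    obtain ⟨r', hr'⟩ := hB'
    have hpos : Pos D := by
      intro i hi1 hi2
      have h1 := BAR.pos_SSt hU.1 i hi1 (by rw [he, List.length_append]; omega)
      rwa [he, lev_append (by omega)] at h1
    exact hU.2.2 D U' ⟨_, brd_diff hr hr' hpos⟩ hD hU'.1 he hU'.2.1
  refine mul_le_gf (fun B hB U hU => ?_) (fun B hB U hU B' hB' U' hU' he => ?_)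
  · have h1 := BAR.SSt_cat (TIP.BU_hgt hB.1) hU.1
    exact BAR.SSt_mono (by have := hB.2; omega) h1
  · rcases le_total B.length B'.length with h | h
    · exact key B B' U U' hB.1 hB'.1 hU hU' he h
    · exact (key B' B U' U hB'.1 hB.1 hU' hU he.symm h).symm

/-- the mass of the end pieces against `Xb` -/
theorem ep_Xb : ∃ C : ℝ, 0 < C ∧ ∀ (Q : List Bool → Prop) (K d : ℕ), d ≤ 2 ^ K → gf (EP Q d) ≤ ENNReal.ofReal C * Xb K := by
  obtain ⟨CX, hCX, hXd⟩ := XDbl.pow xDbl
  refine ⟨CX * 8, by linarith, fun Q K d hd => ?_⟩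
  have h1 := ep_mass Q (2 ^ K) d
  have h2 : BAR.HH (2 ^ K + d) ≤ BAR.HH (2 ^ (K + 1)) := by
    unfold BAR.HH
    refine gf_mono fun w hw => BAR.SSt_mono ?_ hw
    rw [pow_succ]
    omega
  have h3 : BAR.HH (2 ^ (K + 1)) ≤ ENNReal.ofReal (UU (2 ^ (K + 1))) * Xb (K + 1) := HH_le_Xb le_rfl
  have hU : 0 < UU (2 ^ K) := Num2Aux.UU_pos _
  have h4 : UU (2 ^ (K + 1)) ≤ 8 * UU (2 ^ K) := by
    have := TPC.Ub_pow K 1
    unfold Ub at this
    refine this.trans ?_
    have h5 : (2 : ℝ) ^ (1 : ℕ) * UU (2 ^ K) ≤ 8 * UU (2 ^ K) := by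
      nlinarith
    first
      | exact h5
      | linarith
  have h6 : ENNReal.ofReal (UU (2 ^ K)) * gf (EP Q d) ≤ ENNReal.ofReal (UU (2 ^ K)) * (ENNReal.ofReal (CX * 8) * Xb K) := by
    calc ENNReal.ofReal (UU (2 ^ K)) * gf (EP Q d) ≤ BAR.HH (2 ^ K + d) := h1
      _ ≤ ENNReal.ofReal (UU (2 ^ (K + 1))) * Xb (K + 1) := h2.trans h3
      _ ≤ ENNReal.ofReal (8 * UU (2 ^ K)) * (ENNReal.ofReal CX * Xb K) := by
          refine mul_le_mul' (ENNReal.ofReal_le_ofReal h4) ?_
          have := hXd K 1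
          rwa [pow_one] at this
      _ = _ := by
          rw [ENNReal.ofReal_mul (by norm_num), ENNReal.ofReal_mul (by linarith)]
          ring
  have h7 : ENNReal.ofReal (UU (2 ^ K)) ≠ 0 := by simpa using hU
  exact (ENNReal.mul_le_mul_iff_right h7 ENNReal.ofReal_ne_top).1 h6

/-! ### start pieces as words -/

/-- the start piece with one more step `+1` -/
def ext {k : ℕ} (s : Fin k → Fin 3) : Fin (k + 1) → Fin 3 := Fin.snoc s 0

lemma pos_ext {k : ℕ} (s : Fin k → Fin 3) {j : ℕ} (hj : j ≤ k) : pos (ext s) j = pos s j := by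
  induction j with
  | zero => rw [pos_zero, pos_zero]
  | succ j ih =>
    rw [pos_succ (ext s) j (by omega), pos_succ s j (by omega), ih (by omega)]
    congr 2
    show (Fin.snoc s 0 : Fin (k + 1) → Fin 3) ⟨j, _⟩ = s ⟨j, _⟩
    have h : (⟨j, by omega⟩ : Fin (k + 1)) = Fin.castSucc ⟨j, by omega⟩ := rfl
    rw [h, Fin.snoc_castSucc]

lemma pos_ext_last {k : ℕ} (hk : Even k) (s : Fin k → Fin 3) : pos (ext s) (k + 1) = pos s k + 1 := by
  rw [pos_succ (ext s) k (by omega), pos_ext s le_rfl]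
  congr 1
  have h : (ext s) ⟨k, by omega⟩ = 0 := by
    show (Fin.snoc s 0 : Fin (k + 1) → Fin 3) (Fin.last k) = 0
    rw [Fin.snoc_last]
  rw [h]
  unfold step
  rw [hk.neg_one_pow]
  simp

lemma ext_mem {k : ℕ} (hk : Even k) {s : Fin k → Fin 3} (hs : s ∈ saw k)
    (hl : ∀ i, i ≤ k → (pos s i).re ≤ (pos s k).re) : ext s ∈ saw (k + 1) := by
  rw [mem_saw] at hs ⊢
  have key : ∀ i, i ≤ k → pos (ext s) i ≠ pos (ext s) (k + 1) := by
    intro i hi he
    rw [pos_ext s hi, pos_ext_last hk] at he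
    have h1 := hl i hi
    rw [he, Complex.add_re, Complex.one_re] at h1
    linarith
  intro i j hi hj he
  rcases Nat.lt_or_ge k i with h1 | h1 <;> rcases Nat.lt_or_ge k j with h2 | h2
  · omega
  · obtain rfl : i = k + 1 := by omega
    exact absurd he.symm (key j h2)
  · obtain rfl : j = k + 1 := by omega
    exact absurd he (key i h1)
  · rw [pos_ext s h1, pos_ext s h2] at he
    exact hs i j h1 h2 he

/-- the word of a start piece, read from its end -/
theorem sp_word {k : ℕ} (hk : Even k) {s : Fin k → Fin 3} (hs : s ∈ saw k)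
    (hl : ∀ i, i ≤ k → (pos s i).re ≤ (pos s k).re) : ∃ U : List Bool, U.length = k + 1 ∧ U ∈ SA ∧
      sw (k + 1) U = rvw (ext s) ∧ ∀ i, i ≤ k → JJ (vx oo up U (i + 1)) = pos s k + 1 - pos s (k - i) := by
  have hodd : Odd (k + 1) := hk.add_one
  have h1 := (rvw_mem hodd (s := ext s)).2 (ext_mem hk hs hl)
  have h0 : rvw (ext s) ⟨0, by omega⟩ = 0 := by
    show (Fin.snoc s 0 : Fin (k + 1) → Fin 3) (Fin.rev ⟨0, _⟩) = 0
    have h : Fin.rev (⟨0, by omega⟩ : Fin (k + 1)) = Fin.last k := by
      ext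
      simp [Fin.rev, Fin.last]
    rw [h, Fin.snoc_last]
  obtain ⟨U, hU, hsw, -⟩ := NTSF.sw_surj (by omega : 0 < k + 1) h1 h0 false
  refine ⟨U, hU.1, hU.2, hsw, fun i hi => ?_⟩
  rw [← pos_sw (k + 1) U (i + 1) (by omega), hsw, pos_rvw hodd _ (by omega), pos_ext_last hk,
    show k + 1 - (i + 1) = k - i by omega, pos_ext s (by omega)]

/-- diameter at least `a` (without the first vertex) -/
def QD (a : ℝ) (U : List Bool) : Prop :=
  ∃ i j : ℕ, 1 ≤ i ∧ i ≤ U.length ∧ 1 ≤ j ∧ j ≤ U.length ∧ a ≤ ‖JJ (vx oo up U i) - JJ (vx oo up U j)‖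

lemma re_JJ (v : Pt) : (JJ v).re = ((ip v up : ℤ) : ℝ) / 2 := by
  rw [NTF.JJ_lvl]
  rfl

/-- a start piece is an end piece of a half plane word -/
theorem gu_EP {k : ℕ} {a r : ℝ} {s : Fin k → Fin 3} (hs : s ∈ saw k) (hg : GU a r s k) {U : List Bool} (hlen : U.length = k + 1)
    (hSA : U ∈ SA) (hv : ∀ i, i ≤ k → JJ (vx oo up U (i + 1)) = pos s k + 1 - pos s (k - i)) {d : ℕ} (hd : 2 * r + 2 ≤ 3 * d) :
    U ∈ EP (QD a) d := by
  obtain ⟨hk, hl, hdm, hDm, hcut⟩ := hg
  have hlev : ∀ i, 1 ≤ i → i ≤ U.length → ((lev U i : ℤ) : ℝ) / 2 = 1 + ((pos s k).re - (pos s (k + 1 - i)).re) := by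
    intro i h1 h2
    have h3 := congrArg Complex.re (hv (i - 1) (by omega))
    rw [show i - 1 + 1 = i by omega, re_JJ, show k - (i - 1) = k + 1 - i by omega] at h3
    have e : ip (vx oo up U i) up = lev U i := rfl
    rw [e] at h3
    rw [h3, Complex.sub_re, Complex.add_re, Complex.one_re]
    ring
  refine ⟨⟨fun i h1 h2 => ?_, hSA.inj⟩, ?_, ?_⟩
  · rw [mem_St]
    have h3 := hlev i h1 h2
    have h4 := hl (k + 1 - i) (by omega)
    have h5 : (pos s k).re - (pos s (k + 1 - i)).re ≤ r := by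
      have h6 := hdm k (k + 1 - i) le_rfl (by omega)
      have h7 := Complex.abs_re_le_norm (pos s k - pos s (k + 1 - i))
      rw [Complex.sub_re] at h7
      exact (le_abs_self _).trans (h7.trans h6)
    constructor
    · have : (0 : ℝ) < ((lev U i : ℤ) : ℝ) := by linarith
      exact_mod_cast this
    · have h8 : ((lev U i : ℤ) : ℝ) ≤ ((3 * d : ℤ) : ℝ) := by
        push_cast
        linarith
      have h9 : lev U i ≤ 3 * d := by exact_mod_cast h8
      omega
  · obtain ⟨i, j, hi, hj, h⟩ := hDm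
    refine ⟨k - i + 1, k - j + 1, by omega, by omega, by omega, by omega, ?_⟩
    rw [hv _ (by omega), hv _ (by omega), show k - (k - i) = i by omega, show k - (k - j) = j by omega]
    have e : pos s k + 1 - pos s i - (pos s k + 1 - pos s j) = -(pos s i - pos s j) := by ring
    rw [e, norm_neg]
    exact h
  · rintro D U' ⟨m, hD⟩ hne hU' rfl ⟨i, j, hi1, hi2, hj1, hj2, h⟩
    obtain ⟨d1, d2, d3, d4⟩ := mem_Brd.1 hD
    have hDl : 1 ≤ D.length := by
      rcases D with _ | ⟨x, D⟩
      · exact absurd rfl hne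
      · simp
    have hDev : Even D.length := by
      have := TIP.brd_even hD
      rw [Nat.even_iff]
      have h2 : D.length % 2 = if D.length.bodd then 1 else 0 := by
        rw [Nat.mod_two_of_bodd]
        cases D.length.bodd <;> rfl
      rw [h2, this]
      rfl
    have hUl : 1 ≤ U'.length := by omega
    rw [List.length_append] at hlen
    obtain ⟨k', hk'⟩ : ∃ k', k' = k - D.length := ⟨_, rfl⟩
    have hpos' : ∀ q, q ≤ k' → JJ (vx oo up U' (k' - q + 1)) + JJ (vx oo up D D.length) = pos s k + 1 - pos s q := by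
      intro q hq
      have h3 := hv (k - q) (by omega)
      rw [show k - q + 1 = D.length + (k' - q + 1) by omega, vx_cat d3, NTF.JJ_add, show k - (k - q) = q by omega] at h3
      rw [← h3]
      ring
    refine hcut k' ⟨Nat.zero_le _, by omega, ?_, ?_, ?_, ?_⟩ ?_
    · rw [hk']
      exact (Nat.even_sub (by omega)).2 ⟨fun _ => hDev, fun _ => hk⟩
    · -- the step
      have h3 := hpos' k' le_rfl
      have h4 := hv (D.length - 1) (by omega)
      rw [show D.length - 1 + 1 = D.length by omega, show k - (D.length - 1) = k' + 1 by omega,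
        vx_append (by omega)] at h4
      rw [Nat.sub_self, zero_add] at h3
      have h5 : vx oo up U' 1 = up := by
        have h6 : vx oo up U' (0 + 1) = vx oo up U' 0 + dx up U' 0 := rfl
        rw [zero_add] at h6
        rw [h6]
        show (0 : Pt) + up = up
        exact zero_add _
      have h7 : JJ up = 1 := by
        apply Complex.ext
        · rw [NTF.JJ_re, Complex.one_re]
          simp only [up]
          norm_num
        · rw [NTF.JJ_im, Complex.one_im]
          simp only [up]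
          norm_num
      rw [h5, h7] at h3
      linear_combination h4 - h3
    · intro q _ hq
      have h3 := hlev (k + 1 - q) (by omega) (by rw [List.length_append]; omega)
      have h4 := hlev (k + 1 - k') (by omega) (by rw [List.length_append]; omega)
      rw [show k + 1 - (k + 1 - q) = q by omega] at h3
      rw [show k + 1 - (k + 1 - k') = k' by omega] at h4
      have e1 : lev (D ++ U') (k + 1 - q) = 3 * m + lev U' (k' - q + 1) := by
        rw [show k + 1 - q = D.length + (k' - q + 1) by omega, lev_cat d3, d4]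
      have e2 : lev (D ++ U') (k + 1 - k') = 3 * m + 2 := by
        rw [show k + 1 - k' = D.length + 1 by omega, lev_cat d3, d4]
        congr 1
      have h5 : 2 ≤ lev U' (k' - q + 1) := by
        have h7 := BAR.pos_SSt hU' (k' - q + 1) (by omega) (by omega)
        obtain ⟨y, hy⟩ := Pool.Agent.SCF.Z.lev_mod U' (k := k' - q + 1) (by omega)
        rw [hy] at h7 ⊢
        split_ifs at h7 ⊢ <;> omega
      rw [e1] at h3
      rw [e2] at h4
      have h6 : (2 : ℝ) ≤ ((lev U' (k' - q + 1) : ℤ) : ℝ) := by exact_mod_cast h5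
      push_cast at h3 h4
      linarith
    · intro q hq1 hq2
      have h3 := hlev (k + 1 - q) (by omega) (by rw [List.length_append]; omega)
      have h4 := hlev (k + 1 - k') (by omega) (by rw [List.length_append]; omega)
      rw [show k + 1 - (k + 1 - q) = q by omega] at h3
      rw [show k + 1 - (k + 1 - k') = k' by omega] at h4
      have e2 : lev (D ++ U') (k + 1 - k') = 3 * m + 2 := by
        rw [show k + 1 - k' = D.length + 1 by omega, lev_cat d3, d4]
        congr 1
      have e1 : lev (D ++ U') (k + 1 - q) ≤ 3 * m := by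
        rw [lev_append (by omega)]
        exact (d1 _ (by omega) (by omega)).2
      rw [e2] at h4
      have h6 : ((lev (D ++ U') (k + 1 - q) : ℤ) : ℝ) ≤ 3 * m := by exact_mod_cast e1
      push_cast at h4
      linarith
    · refine ⟨k' - (i - 1), k' - (j - 1), by omega, by omega, ?_⟩
      have h3 := hpos' (k' - (i - 1)) (by omega)
      have h4 := hpos' (k' - (j - 1)) (by omega)
      rw [show k' - (k' - (i - 1)) + 1 = i by omega] at h3
      rw [show k' - (k' - (j - 1)) + 1 = j by omega] at h4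
      have e : JJ (vx oo up U' i) - JJ (vx oo up U' j) = -(pos s (k' - (i - 1)) - pos s (k' - (j - 1))) := by
        linear_combination h3 - h4
      rw [e, norm_neg] at h
      exact h

open Classical in
/-- the mass of the start pieces with `k` steps -/
noncomputable def gum (a r : ℝ) (k : ℕ) : ℝ := (((saw k).filter fun s => GU a r s k).card : ℝ) * fug ^ k

lemma gum_nonneg (a r : ℝ) (k : ℕ) : 0 ≤ gum a r k := by
  unfold gum fug
  positivity

open Classical in
lemma gum_le {a r : ℝ} {k d : ℕ} (hd : 2 * r + 2 ≤ 3 * d) :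
    ENNReal.ofReal (gum a r k * fug) ≤ gf {U | U ∈ EP (QD a) d ∧ U.length = k + 1} := by
  have hlen : ∀ t ∈ {U | U ∈ EP (QD a) d ∧ U.length = k + 1}, t.length = k + 1 := fun t ht => ht.2
  rw [NTF.gf_card hlen]
  have hcard : ((saw k).filter fun s => GU a r s k).card ≤ {U | U ∈ EP (QD a) d ∧ U.length = k + 1}.ncard := by
    have hex : ∀ s : Fin k → Fin 3, s ∈ saw k → GU a r s k → ∃ U : List Bool, (U ∈ EP (QD a) d ∧ U.length = k + 1) ∧
        sw (k + 1) U = rvw (ext s) := by
      intro s hs hg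
      obtain ⟨U, h1, h2, h3, h4⟩ := sp_word hg.1 hs hg.2.1
      exact ⟨U, ⟨gu_EP hs hg h1 h2 h4 hd, h1⟩, h3⟩
    choose! f hf hf' using hex
    rw [← Set.ncard_coe_finset]
    have hfin : {U | U ∈ EP (QD a) d ∧ U.length = k + 1}.Finite :=
      (List.finite_length_eq Bool (k + 1)).subset fun U hU => hU.2
    refine Set.ncard_le_ncard_of_injOn f ?_ ?_ hfin
    · intro s hs
      rw [Finset.mem_coe, Finset.mem_filter] at hs
      exact hf s hs.1 hs.2
    · intro s hs t ht he
      rw [Finset.mem_coe, Finset.mem_filter] at hs ht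
      have h1 := hf' s hs.1 hs.2
      have h2 := hf' t ht.1 ht.2
      rw [he, h2] at h1
      have h3 := congrArg rvw h1
      rw [Pool.Agent.SCF.Z.rvw_rvw, Pool.Agent.SCF.Z.rvw_rvw] at h3
      funext i
      have h4 := congrFun h3 i.castSucc
      unfold ext at h4
      rw [Fin.snoc_castSucc, Fin.snoc_castSucc] at h4
      exact h4.symm
  have e : gum a r k * fug = (((saw k).filter fun s => GU a r s k).card : ℝ) * fug ^ (k + 1) := by
    unfold gum
    ring
  rw [e, ENNReal.ofReal_mul (Nat.cast_nonneg _), ENNReal.ofReal_natCast, NTSF.fug_eq]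
  refine mul_le_mul' ?_ le_rfl
  exact_mod_cast hcard

/-- **the mass of the start pieces** -/
theorem gu_mass : ∃ C : ℝ, 0 < C ∧ ∀ (a r : ℝ) (K M : ℕ), 2 * r + 2 ≤ 3 * 2 ^ K →
    ENNReal.ofReal (∑ k ∈ Finset.range M, gum a r k) ≤ ENNReal.ofReal C * Xb K := by
  obtain ⟨C, hC, h⟩ := ep_Xb
  have hf : 0 < fug := by
    unfold fug
    positivity
  refine ⟨C / fug, by positivity, fun a r K M hr => ?_⟩
  have h1 := h (QD a) K (2 ^ K) le_rfl
  have h2 : ENNReal.ofReal ((∑ k ∈ Finset.range M, gum a r k) * fug) ≤ gf (EP (QD a) (2 ^ K)) := by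
    rw [Finset.sum_mul, ENNReal.ofReal_sum_of_nonneg fun k _ => mul_nonneg (gum_nonneg a r k) hf.le]
    refine (Finset.sum_le_sum fun k _ => gum_le (d := 2 ^ K) (by push_cast; exact hr)).trans ?_
    refine (BAR.gf_bi_eq (Finset.range M) (fun k => {U | U ∈ EP (QD a) (2 ^ K) ∧ U.length = k + 1})
      fun i j w hi hj => ?_).trans (gf_mono ?_)
    · have := hi.2.symm.trans hj.2
      omega
    · intro w hw
      simp only [Set.mem_iUnion, exists_prop] at hw
      obtain ⟨m, -, hw, -⟩ := hw
      exact hw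
  have h3 : ENNReal.ofReal fug ≠ 0 := by simpa using hf
  refine (ENNReal.mul_le_mul_iff_right h3 ENNReal.ofReal_ne_top).1 ?_
  rw [← ENNReal.ofReal_mul hf.le, mul_comm fug, ← mul_assoc, ← ENNReal.ofReal_mul hf.le, mul_div_cancel₀ _ hf.ne']
  exact h2.trans h1

end Pool.Agent.ROT.F3.W8
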