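import Pool.Agent.ROT.W8Nat

/-!
# ROT, F3, row W8 (walks), part 4 (helper94): the start pieces and the rests together, window form

* **`core`** : `p * sum of the walks over [n/2, 3n] <= (mass of the start pieces without cuts) * (mass of the rests)`, uniformly in the
  scale `S`, together with the bounds of the lengths which the gluing needs.
-/

set_option autoImplicit false

open Filter Topology

namespace Pool.Agent.ROT.F3.W8

open Finset HexObs.NTA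

open Pool.Agent.NTS.Res (pos saw fug step size)

open NTSF (pos_zero pos_succ mem_saw)

open Pool.Agent.SCF.Z (GC SCut GBt PC UQ E4 e4m glue_low bwt)

open scoped ENNReal

lemma pow_small' {x : ℝ} {n : ℕ} (hx : 0 ≤ x) (h : x ≤ 1 / 20 * (n : ℝ) ^ (3 / 4 : ℝ)) : x ^ (4 / 3 : ℝ) ≤ n / 20 := by
  have h1 : x ^ (4 / 3 : ℝ) ≤ (1 / 20 * (n : ℝ) ^ (3 / 4 : ℝ)) ^ (4 / 3 : ℝ) := Real.rpow_le_rpow hx h (by norm_num)
  have h2 : (1 / 20 * (n : ℝ) ^ (3 / 4 : ℝ)) ^ (4 / 3 : ℝ) = (1 / 20) ^ (4 / 3 : ℝ) * n := by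
    rw [Real.mul_rpow (by norm_num) (by positivity), ← Real.rpow_mul (Nat.cast_nonneg _)]
    norm_num
  have h3 : (1 / 20 : ℝ) ^ (4 / 3 : ℝ) ≤ 1 / 20 := by
    have := Real.rpow_le_rpow_of_exponent_ge (x := (1 / 20 : ℝ)) (by norm_num) (by norm_num) (show (1 : ℝ) ≤ 4 / 3 by norm_num)
    rwa [Real.rpow_one] at this
  rw [h2] at h1
  have h4 := mul_le_mul_of_nonneg_right h3 (Nat.cast_nonneg (α := ℝ) n)
  linarith

/-- **start pieces and rests, window form** -/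
theorem core (ra Q X : ℝ) (hra : 0 < ra) (hQ : ra ≤ Q) : ∃ p δ0 : ℝ, 0 < p ∧ 0 < δ0 ∧ ∀ δ1 : ℝ, 0 < δ1 →
    ∃ n0 : ℕ, ∀ (n : ℕ) (S : ℝ), n0 ≤ n → δ1 * size n ≤ S → S ≤ δ0 * size n →
      10 ≤ n ∧ 0 < S ∧ X ≤ S ∧ S ^ (4 / 3 : ℝ) ≤ (n / 10 : ℕ) ∧
      ∀ ρ : ℝ, ρ ≤ Q * S → p * ∑ N ∈ Finset.Icc (n / 2) (3 * n), ((saw N).card : ℝ) * fug ^ N ≤
        (∑ k ∈ range (n / 10 + 1), nc0m (ra * S) k) * ∑ m ∈ Finset.Icc (n / 2) (2 * n), rst ρ m := by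
  obtain ⟨ca, R0, hca, halow⟩ := alow 1 one_pos
  obtain ⟨c, d0, hc, hd0, hrlow⟩ := rlow (Q / ra) (1 / 2) ((one_le_div hra).2 hQ) (by norm_num) (by norm_num)
  obtain ⟨cN, CN, hcN, hCN, haN⟩ := CRT.Mass.aN_bounds
  obtain ⟨cs, Cs, hcs, hsz, -⟩ := NTSF.finE
  have hCs : 0 < Cs := by
    have h1 := (hsz 1 le_rfl).2
    have h2 := NTSF.size_pos (n := 1) le_rfl
    rw [Nat.cast_one, Real.one_rpow, mul_one] at h1
    linarith
  obtain ⟨δ0, hδ0⟩ : ∃ δ0 : ℝ, δ0 = min (d0 * cs / (ra * Cs)) (min (1 / (20 * Cs)) (1 / (20 * Cs * ra))) := ⟨_, rfl⟩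
  have hδ0p : 0 < δ0 := by rw [hδ0]; positivity
  have hδa : δ0 ≤ d0 * cs / (ra * Cs) := by rw [hδ0]; exact min_le_left _ _
  have hδb : δ0 ≤ 1 / (20 * Cs) := by rw [hδ0]; exact (min_le_right _ _).trans (min_le_left _ _)
  have hδc : δ0 ≤ 1 / (20 * Cs * ra) := by rw [hδ0]; exact (min_le_right _ _).trans (min_le_right _ _)
  refine ⟨ca * c * cN / (12 * CN), δ0, by positivity, hδ0p, fun δ1 hδ1 => ?_⟩
  obtain ⟨n1, hr⟩ := hrlow (ra * δ1 * cs / (2 * Cs)) (by positivity)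
  obtain ⟨X0, hX0⟩ : ∃ X0 : ℝ, X0 = (|X| + |R0| / ra + 1 / ra) / (δ1 * cs) := ⟨_, rfl⟩
  obtain ⟨n2, hn2⟩ : ∃ n2 : ℕ, ∀ n : ℕ, n2 ≤ n → X0 ≤ (n : ℝ) ^ (3 / 4 : ℝ) := by
    have h1 := ((tendsto_rpow_atTop (show (0 : ℝ) < 3 / 4 by norm_num)).comp tendsto_natCast_atTop_atTop).eventually_ge_atTop X0
    exact eventually_atTop.1 h1
  refine ⟨max (max n1 n2) 10, fun n S hn hS1 hS2 => ?_⟩
  have hn1 : n1 ≤ n := (le_max_left _ _).trans ((le_max_left _ _).trans hn)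
  have hn2' : n2 ≤ n := (le_max_right _ _).trans ((le_max_left _ _).trans hn)
  have hn10 : 10 ≤ n := (le_max_right _ _).trans hn
  have hn0 : (0 : ℝ) < n := by exact_mod_cast (by omega : 0 < n)
  obtain ⟨N34, hN34⟩ : ∃ x : ℝ, x = (n : ℝ) ^ (3 / 4 : ℝ) := ⟨_, rfl⟩
  have hN34p : 0 < N34 := by rw [hN34]; positivity
  obtain ⟨z1, z2⟩ := hsz n (by omega)
  rw [← hN34] at z1 z2
  -- the scale
  have hSlow : |X| + |R0| / ra + 1 / ra ≤ S := by
    have h5 := hn2 n hn2'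
    rw [← hN34, hX0, div_le_iff₀ (by positivity)] at h5
    have h6 : δ1 * (cs * N34) ≤ δ1 * size n := mul_le_mul_of_nonneg_left z1 hδ1.le
    linarith [mul_comm N34 (δ1 * cs), mul_assoc δ1 cs N34]
  have a1 : 0 ≤ |X| := abs_nonneg _
  have a2 : 0 ≤ |R0| / ra := by positivity
  have a3 : 0 < 1 / ra := by positivity
  have hS0 : 0 < S := by linarith
  have hXS : X ≤ S := by linarith [le_abs_self X]
  have hR0 : R0 ≤ ra * S := by
    have h5 : |R0| / ra ≤ S := by linarith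
    rw [div_le_iff₀ hra] at h5
    linarith [le_abs_self R0]
  have hra1 : 1 ≤ ra * S := by
    have h5 : 1 / ra ≤ S := by linarith
    rw [div_le_iff₀ hra] at h5
    linarith
  have hL0 : 0 < ra * S := by positivity
  -- the lengths
  have hM20 : (n : ℝ) / 20 ≤ ((n / 10 : ℕ) : ℝ) := by
    have : n ≤ 20 * (n / 10) := by omega
    have h5 : (n : ℝ) ≤ 20 * ((n / 10 : ℕ) : ℝ) := by exact_mod_cast this
    linarith
  have b1 : S ≤ 1 / 20 * N34 := by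
    calc S ≤ δ0 * size n := hS2
      _ ≤ 1 / (20 * Cs) * (Cs * N34) := mul_le_mul hδb z2 (NTSF.size_pos (by omega)).le (by positivity)
      _ = 1 / 20 * N34 := by field_simp
  have b2 : ra * S ≤ 1 / 20 * N34 := by
    calc ra * S ≤ ra * (δ0 * size n) := mul_le_mul_of_nonneg_left hS2 hra.le
      _ ≤ ra * (1 / (20 * Cs * ra) * (Cs * N34)) := mul_le_mul_of_nonneg_left
        (mul_le_mul hδc z2 (NTSF.size_pos (by omega)).le (by positivity)) hra.le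
      _ = 1 / 20 * N34 := by field_simp
  have hMS : S ^ (4 / 3 : ℝ) ≤ ((n / 10 : ℕ) : ℝ) := by
    rw [hN34] at b1
    exact (pow_small' hS0.le b1).trans hM20
  have hMR : 1 * (ra * S) ^ (4 / 3 : ℝ) ≤ ((n / 10 : ℕ) : ℝ) := by
    rw [one_mul]
    rw [hN34] at b2
    exact (pow_small' hL0.le b2).trans hM20
  refine ⟨hn10, hS0, hXS, hMS, fun ρ hρ => ?_⟩
  -- the dyadic scale
  obtain ⟨K, hK1, hK2⟩ := exists_nat_pow_near (x := 2 * (ra * S)) (y := 2) (by linarith) (by norm_num)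
  have g1 := halow (ra * S) hR0 (n / 10) hMR K hK1
  have g2 := hr n (2 * n) K (ra * S) hn1 (by omega) (fun m m1 m2 => by
    obtain ⟨y1, y2⟩ := hsz m (by omega)
    have e1 : N34 ≤ (m : ℝ) ^ (3 / 4 : ℝ) := by
      rw [hN34]
      exact Real.rpow_le_rpow (Nat.cast_nonneg _) (by exact_mod_cast m1) (by norm_num)
    have e2 : (m : ℝ) ^ (3 / 4 : ℝ) ≤ 2 * N34 := by
      calc (m : ℝ) ^ (3 / 4 : ℝ) ≤ (2 * n : ℝ) ^ (3 / 4 : ℝ) := Real.rpow_le_rpow (Nat.cast_nonneg _) (by exact_mod_cast m2)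
            (by norm_num)
        _ = 2 ^ (3 / 4 : ℝ) * N34 := by rw [hN34, Real.mul_rpow (by norm_num) (Nat.cast_nonneg _)]
        _ ≤ 2 * N34 := by
          refine mul_le_mul_of_nonneg_right ?_ hN34p.le
          have := Real.rpow_le_rpow_of_exponent_le (x := (2 : ℝ)) (by norm_num) (show (3 / 4 : ℝ) ≤ 1 by norm_num)
          rwa [Real.rpow_one] at this
    constructor
    · calc ra * δ1 * cs / (2 * Cs) * size m ≤ ra * δ1 * cs / (2 * Cs) * (Cs * (2 * N34)) :=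
            mul_le_mul_of_nonneg_left (y2.trans (mul_le_mul_of_nonneg_left e2 hCs.le)) (by positivity)
        _ = ra * (δ1 * (cs * N34)) := by field_simp
        _ ≤ ra * (δ1 * size n) := mul_le_mul_of_nonneg_left (mul_le_mul_of_nonneg_left z1 hδ1.le) hra.le
        _ ≤ ra * S := mul_le_mul_of_nonneg_left hS1 hra.le
    · calc ra * S ≤ ra * (δ0 * size n) := mul_le_mul_of_nonneg_left hS2 hra.le
        _ ≤ ra * (d0 * cs / (ra * Cs) * (Cs * N34)) := mul_le_mul_of_nonneg_left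
          (mul_le_mul hδa z2 (NTSF.size_pos (by omega)).le (by positivity)) hra.le
        _ = d0 * (cs * N34) := by field_simp
        _ ≤ d0 * size m := mul_le_mul_of_nonneg_left (le_trans (mul_le_mul_of_nonneg_left e1 hcs.le) y1) hd0.le) (by linarith)
  have hN1 : ⌊(1 - 1 / 2 : ℝ) * n⌋₊ = n / 2 := by
    have e : (1 - 1 / 2 : ℝ) * n = (n : ℝ) / ((2 : ℕ) : ℝ) := by
      push_cast
      ring
    rw [e, Nat.floor_div_eq_div]
  rw [hN1] at g2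
  have hQS : Q / ra * (ra * S) = Q * S := by field_simp
  rw [hQS] at g2
  obtain ⟨A, hA⟩ : ∃ A : ℝ, A = ∑ k ∈ range (n / 10 + 1), nc0m (ra * S) k := ⟨_, rfl⟩
  obtain ⟨B, hB⟩ : ∃ B : ℝ, B = ∑ m ∈ Finset.Icc (n / 2) (2 * n), rst ρ m := ⟨_, rfl⟩
  obtain ⟨B', hB'⟩ : ∃ B' : ℝ, B' = ∑ m ∈ Finset.Icc (n / 2) (2 * n), rst (Q * S) m := ⟨_, rfl⟩
  obtain ⟨Y, hY⟩ : ∃ Y : ℝ, Y = ∑ n ∈ Finset.Icc n (2 * n), ((saw n).card : ℝ) * fug ^ n := ⟨_, rfl⟩
  have hA0 : 0 ≤ A := by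
    rw [hA]
    exact sum_nonneg fun k _ => nc0m_nonneg _ _
  have hB'0 : 0 ≤ B' := by
    rw [hB']
    exact sum_nonneg fun k _ => rst_nonneg _ _
  have hBB : B' ≤ B := by
    rw [hB, hB']
    exact sum_le_sum fun m _ => rst_mono hρ m
  rw [← hA] at g1
  rw [← hY, ← hB'] at g2
  rw [← hA, ← hB]
  have g4 : ca * (c * Y) ≤ A * B' := by
    have h5 : ENNReal.ofReal (ca * (c * Y)) ≤ ENNReal.ofReal (A * B') := by
      rw [ENNReal.ofReal_mul hca.le, ENNReal.ofReal_mul hA0]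
      calc ENNReal.ofReal ca * ENNReal.ofReal (c * Y) ≤ ENNReal.ofReal ca * (Xb K * ENNReal.ofReal B') := mul_le_mul' le_rfl g2
        _ = ENNReal.ofReal ca * Xb K * ENNReal.ofReal B' := by rw [mul_assoc]
        _ ≤ ENNReal.ofReal A * ENNReal.ofReal B' := mul_le_mul' g1 le_rfl
    exact (ENNReal.ofReal_le_ofReal_iff (mul_nonneg hA0 hB'0)).1 h5
  -- the numbers of walks
  obtain ⟨Z, hZ⟩ : ∃ Z : ℝ, Z = n * (n : ℝ) ^ (11 / 32 : ℝ) := ⟨_, rfl⟩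
  have hZ0 : 0 < Z := by rw [hZ]; positivity
  have g6 : cN * Z ≤ Y := by
    rw [hY, hZ]
    have h5 : (Finset.Icc n (2 * n)).card • (cN * (n : ℝ) ^ (11 / 32 : ℝ)) ≤
        ∑ m ∈ Finset.Icc n (2 * n), ((saw m).card : ℝ) * fug ^ m := by
      refine card_nsmul_le_sum _ _ _ fun m hm => ?_
      rw [Finset.mem_Icc] at hm
      refine le_trans (mul_le_mul_of_nonneg_left ?_ hcN.le) (haN m (by omega)).1
      exact Real.rpow_le_rpow (Nat.cast_nonneg _) (by exact_mod_cast hm.1) (by norm_num)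
    rw [Nat.card_Icc, nsmul_eq_mul] at h5
    refine le_trans ?_ h5
    have h6 : (n : ℝ) ≤ ((2 * n + 1 - n : ℕ) : ℝ) := by exact_mod_cast (by omega : n ≤ 2 * n + 1 - n)
    have h7 : 0 ≤ cN * (n : ℝ) ^ (11 / 32 : ℝ) := by positivity
    calc cN * (n * (n : ℝ) ^ (11 / 32 : ℝ)) = n * (cN * (n : ℝ) ^ (11 / 32 : ℝ)) := by ring
      _ ≤ _ := mul_le_mul_of_nonneg_right h6 h7
  have g7 : ∑ N ∈ Finset.Icc (n / 2) (3 * n), ((saw N).card : ℝ) * fug ^ N ≤ 12 * CN * Z := by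
    have h5 : ∑ N ∈ Finset.Icc (n / 2) (3 * n), ((saw N).card : ℝ) * fug ^ N ≤
        (Finset.Icc (n / 2) (3 * n)).card • (CN * (3 * (n : ℝ) ^ (11 / 32 : ℝ))) := by
      refine sum_le_card_nsmul _ _ _ fun N hN => ?_
      rw [Finset.mem_Icc] at hN
      refine (haN N (by omega)).2.trans (mul_le_mul_of_nonneg_left ?_ hCN.le)
      calc (N : ℝ) ^ (11 / 32 : ℝ) ≤ (3 * n : ℝ) ^ (11 / 32 : ℝ) := by
            refine Real.rpow_le_rpow (Nat.cast_nonneg _) ?_ (by norm_num)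
            exact_mod_cast hN.2
        _ = 3 ^ (11 / 32 : ℝ) * (n : ℝ) ^ (11 / 32 : ℝ) := Real.mul_rpow (by norm_num) (Nat.cast_nonneg _)
        _ ≤ 3 * (n : ℝ) ^ (11 / 32 : ℝ) := by
          refine mul_le_mul_of_nonneg_right ?_ (by positivity)
          have := Real.rpow_le_rpow_of_exponent_le (x := (3 : ℝ)) (by norm_num) (show (11 / 32 : ℝ) ≤ 1 by norm_num)
          rwa [Real.rpow_one] at this
    refine h5.trans ?_
    rw [Nat.card_Icc, nsmul_eq_mul, hZ]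
    have h6 : ((3 * n + 1 - n / 2 : ℕ) : ℝ) ≤ 4 * n := by exact_mod_cast (by omega : 3 * n + 1 - n / 2 ≤ 4 * n)
    have h7 : 0 ≤ CN * (3 * (n : ℝ) ^ (11 / 32 : ℝ)) := by positivity
    calc _ ≤ 4 * (n : ℝ) * (CN * (3 * (n : ℝ) ^ (11 / 32 : ℝ))) := mul_le_mul_of_nonneg_right h6 h7
      _ = _ := by ring
  have hp0 : 0 ≤ ca * c * cN / (12 * CN) := by positivity
  calc ca * c * cN / (12 * CN) * ∑ N ∈ Finset.Icc (n / 2) (3 * n), ((saw N).card : ℝ) * fug ^ N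
      ≤ ca * c * cN / (12 * CN) * (12 * CN * Z) := mul_le_mul_of_nonneg_left g7 hp0
    _ = ca * (c * (cN * Z)) := by field_simp
    _ ≤ ca * (c * Y) := mul_le_mul_of_nonneg_left (mul_le_mul_of_nonneg_left g6 hc.le) hca.le
    _ ≤ A * B' := g4
    _ ≤ A * B := mul_le_mul_of_nonneg_left hBB hA0

/-- one number of steps of the window -/
theorem pick {n : ℕ} (hn : 10 ≤ n) {p : ℝ} {e : ℕ → ℝ}
    (h : p * ∑ N ∈ Finset.Icc (n / 2) (3 * n), ((saw N).card : ℝ) * fug ^ N ≤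
      ∑ N ∈ Finset.Icc (n / 2) (3 * n), e N * fug ^ N) :
    ∃ n' : ℕ, n ≤ 4 * n' ∧ n' ≤ 4 * n ∧ p * ((saw n').card : ℝ) ≤ e n' := by
  by_contra hcon
  push Not at hcon
  have h8 : ∑ N ∈ Finset.Icc (n / 2) (3 * n), e N * fug ^ N <
      ∑ N ∈ Finset.Icc (n / 2) (3 * n), p * (((saw N).card : ℝ) * fug ^ N) := by
    refine sum_lt_sum_of_nonempty ⟨n, Finset.mem_Icc.2 ⟨by omega, by omega⟩⟩ fun N hN => ?_
    rw [Finset.mem_Icc] at hN
    rw [← mul_assoc]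
    exact mul_lt_mul_of_pos_right (hcon N (by omega) (by omega)) (pow_pos fug_pos _)
  rw [← mul_sum] at h8
  linarith

end Pool.Agent.ROT.F3.W8
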