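import Pool.Agent.ROT.XNgA

/-!
# UNIV, exact side, row X5 (helper39): the absolute mass of a class constant event

* `ab_row`, **`ab_dn`** : the row identity and the telescope for a function which depends on the row of the crossing;
* **`cn_big`** : the connections of the ports of a region `B ⊇ A` are constant on the classes of `A`;
* `Qx` : both edges above the crossing are used and there is no other exit from their components below (crossing and rows `< s` of
  the strip), `L1x` : the same for the edges below the crossing and the rows `< s`, `L0x` : these are not used;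
* only the crossing `y` has a negative weight; `ab_pt` : `|W| 1[y] ≤ W (1[L0x] + 1[L1x] - 1[Qx])`;
* **`abs3`** : `Abs3 I`.
-/

set_option autoImplicit false

namespace Pool.Agent.ROT.X

open Pool.Agent.EXL (Wt YB)
open Pool.Agent.YBC (Dir)
open Pool.Agent.UNI (wR)
open Pool.Agent.ROT.E (Cell IsUn Pt nx)
open Pool.Agent.ROT.E.Lab (un_oc un_unique)
open Pool.Agent.ROT.L

noncomputable section

/-! ### bigger regions -/

section big

variable {V : Type} {G G' : Gr V} {A B : Set V} {δ δ' : V →₀ Cell}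

theorem port_big (ag : Agr A G G') (hAB : A ⊆ B) {p : V × Dir} (h : p ∈ Port G B) : p ∈ Port G' B := by
  have h1 : p.1 ∉ A := fun h2 => h.1 (hAB h2)
  refine ⟨h.1, ?_⟩
  by_cases h2 : (G.e p).1 ∈ A
  · exact hAB ((ag.prt p h1).1 h2)
  · rw [ag.out p h1 h2]
    exact h.2

/-- **the connections of a bigger region** -/
theorem cn_big (ag : Agr A G G') (hAB : A ⊆ B) (out : ∀ v, v ∉ A → δ v = δ' v) (mt : Mt G δ Set.univ)
    (pr : ∀ h ∈ Port G A, ∀ k ∈ Port G A, Cn G δ A (G.e h) (G.e k) → Cn G' δ' A (G'.e h) (G'.e k)) {h0 k0 : V × Dir}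
    (hh : h0 ∈ Port G B) (hk : k0 ∈ Port G B) (c : Cn G δ B (G.e h0) (G.e k0)) : Cn G' δ' B (G'.e h0) (G'.e k0) := by
  have hport : ∀ {h}, h ∈ Port G A → (G'.e h).1 ∈ A := fun {h} hh => (ag.prt h hh.1).1 hh.2
  have hA0 : h0.1 ∉ A := fun h => hh.1 (hAB h)
  have hAk : k0.1 ∉ A := fun h => hk.1 (hAB h)
  rcases cn_oc (mt_mono mt) c with e | ⟨⟨o1, -⟩, -⟩
  · have e' : h0 = k0 := by rw [← G.inv h0, e, G.inv]
    rw [e']
    exact cn_refl _
  · have hP := cn_of (mt_mono mt) (P := fun h => (oc δ h ∧ h.1 ∈ B) ∧ (h.1 ∉ A → Cn G' δ' B (G'.e h0) h) ∧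
      (h.1 ∈ A → ∀ b ∈ Port G A, Cn G δ A h (G.e b) → Cn G' δ' B (G'.e h0) (G'.e b))) ?_ c
      ⟨⟨o1, hh.2⟩, fun h => by rw [ag.out h0 hA0 h]; exact cn_refl _, fun h b hb cc => cn_mono hAB (pr h0 ⟨hA0, h⟩ b hb cc)⟩
    · by_cases hkA : (G.e k0).1 ∈ A
      · exact hP.2.2 hkA k0 ⟨hAk, hkA⟩ (cn_refl _)
      · rw [ag.out k0 hAk hkA]
        exact hP.2.1 hkA
    · rintro a b ⟨⟨a1, a0⟩, a2, a3⟩ ⟨-, -, rfl | ⟨rfl, hbB⟩⟩
      · refine ⟨⟨(oc_vp _ _).2 a1, a0⟩, fun hb => ?_, fun hb c hc cc => ?_⟩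
        · have hb' : a.1 ∉ A := hb
          rw [vp_out out hb']
          exact cn_trans (a2 hb') (cn_vp ((oc_out out hb').1 a1) a0)
        · exact a3 hb c hc (cn_trans (cn_vp a1 hb) cc)
      · refine ⟨⟨(mt a trivial trivial).1 a1, hbB⟩, fun hb => ?_, fun hb c hc cc => ?_⟩
        · by_cases ha : a.1 ∈ A
          · have hp : G.e a ∈ Port G A := ⟨hb, by rw [G.inv]; exact ha⟩
            have h1 : Cn G' δ' B (G'.e h0) (G'.e (G.e a)) := by
              refine a3 ha _ hp ?_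
              rw [G.inv]; exact cn_refl _
            refine cn_trans h1 ?_
            have ho : oc δ' (G.e a) := by
              rw [← oc_out out hb]
              exact (mt a trivial trivial).1 a1
            exact cn_symm (cn_e ho hbB (hAB (hport hp)))
          · have e1 : G'.e a = G.e a := ag.out a ha hb
            rw [← e1]
            exact cn_trans (a2 ha) (cn_e ((oc_out out ha).1 a1) a0 (by rw [e1]; exact hbB))
        · by_cases ha : a.1 ∈ A
          · exact a3 ha c hc (cn_trans (cn_e a1 ha hb) cc)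
          · have hp : a ∈ Port G A := ⟨ha, hb⟩
            exact cn_trans (cn_trans (a2 ha) (cn_e ((oc_out out ha).1 a1) a0 (hAB (hport hp))))
              (cn_mono hAB (pr a hp c hc cc))

/-- the connections inside of a set where the configurations agree -/
theorem cn_same {S : Set V} (out : ∀ v, v ∈ S → δ v = δ' v) {x y : V × Dir} (c : Cn G δ S x y) : Cn G δ' S x y := by
  refine cn_mono' (fun a b l => ?_) c
  have e : δ a.1 = δ' a.1 := out _ l.2.1
  refine ⟨?_, l.2.1, ?_⟩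
  · show (δ' a.1).oc a.2
    rw [← e]
    exact l.1
  · rcases l.2.2 with h | h
    · left
      rw [h]
      simp only [vp, e]
    · exact Or.inr h

end big

variable {I : Type} {k j r s B : ℤ} {γ γ' : FX I}

/-! ### rows -/

open Classical in
/-- one row, the function depends on the graph -/
theorem ab_row [Finite I] {G1 G2 : FX I → ℝ} (c1 : ∀ γ γ', Eq6 (Rg j r) (gX j (r + 1)) (gX j (r + 1)) γ γ' → G1 γ = G1 γ')
    (c2 : ∀ γ γ', Eq6 (Rg j r) (gX j r) (gX j r) γ γ' → G2 γ = G2 γ')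
    (c12 : ∀ γ γ', Eq6 (Rg j r) (gX j (r + 1)) (gX j r) γ γ' → G1 γ = G2 γ') (ho1 : NgOut j G1) (ho2 : NgOut j G2)
    (hr : |r| ≤ B) (h1 : -B ≤ j) (h2 : j + 1 ≤ B) : SX k j (r + 1) B G1 = SX k j r B G2 := by
  set H : ℤ → FX I → ℝ := fun t γ => if Bx B γ then (if t = r then G2 γ else G1 γ) else 0 with hH
  have H1 : ∀ γ, H (r + 1) γ = if Bx B γ then G1 γ else 0 := fun γ => by
    show (if Bx B γ then (if r + 1 = r then G2 γ else G1 γ) else 0) = _
    rw [if_neg (show ¬ (r + 1 = r) by omega)]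
  have H2 : ∀ γ, H r γ = if Bx B γ then G2 γ else 0 := fun γ => by
    show (if Bx B γ then (if r = r then G2 γ else G1 γ) else 0) = _
    rw [if_pos rfl]
  have e1 : SX k j (r + 1) B G1 = ∑' γ : FX I, if Fam (gX j (r + 1)) γ then WX (WE k j (r + 1)) γ * H (r + 1) γ else 0 := by
    refine tsum_congr fun γ => ?_
    rw [H1]
    by_cases hb : Bx B γ <;> by_cases hf : Fam (gX j (r + 1)) γ <;> simp [hb, hf]
  have e2 : SX k j r B G2 = ∑' γ : FX I, if Fam (gX j r) γ then WX (WE k j r) γ * H r γ else 0 := by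
    refine tsum_congr fun γ => ?_
    rw [H2]
    by_cases hb : Bx B γ <;> by_cases hf : Fam (gX j r) γ <;> simp [hb, hf]
  have bx : ∀ {G G' : Gr VX} {γ γ' : FX I}, Eq6 (Rg j r) G G' γ γ' → (Bx B γ ↔ Bx B γ') := fun e =>
    ⟨ng_bx hr h1 h2 e.out, ng_bx hr h1 h2 fun v hv => (e.out v hv).symm⟩
  rw [e1, e2]
  refine row_eq_of (j := j) (r := r) ((bx_fin (I := I) B).subset fun γ h => ?_) ((bx_fin (I := I) B).subset fun γ h => ?_)
    (fun γ h => ?_) (fun γ h => ?_) fun t γ ht f g => ?_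
  · by_contra hc
    exact h (by rw [H1, if_neg (show ¬ Bx B γ from hc), mul_zero])
  · by_contra hc
    exact h (by rw [H2, if_neg (show ¬ Bx B γ from hc), mul_zero])
  · refine ng_gd ho1 fun h0 => h ?_
    rw [H1, h0, ite_self, mul_zero]
  · refine ng_gd ho2 fun h0 => h ?_
    rw [H2, h0, ite_self, mul_zero]
  · obtain ⟨q, hq⟩ := cls_sumX f g
    obtain ⟨x, hx1, hx2⟩ : ∃ x : ℝ, (∀ γ', Eq6 (Rg j r) (Gt j r t) (Gt j r 1) γ γ' → H (r + 1) γ' = x) ∧
        ∀ γ', Eq6 (Rg j r) (Gt j r t) (Gt j r 2) γ γ' → H r γ' = x := by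
      match t, ht, f with
      | 0, ht, f => exact absurd rfl ht
      | 1, ht, f =>
        refine ⟨H (r + 1) γ, fun γ' e => ?_, fun γ' e => ?_⟩
        · rw [H1, H1, c1 γ γ' e]
          exact (if_congr (bx e) rfl rfl).symm
        · rw [H1, H2, c12 γ γ' e]
          exact (if_congr (bx e) rfl rfl).symm
      | 2, ht, f =>
        refine ⟨H r γ, fun γ' e => ?_, fun γ' e => ?_⟩
        · rw [H1, H2, c12 γ' γ (e.symm (agr 2 1))]
          exact (if_congr (bx e) rfl rfl).symm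
        · rw [H2, H2, c2 γ γ' e]
          exact (if_congr (bx e) rfl rfl).symm
    rw [hq 1 (WE k j (r + 1)) (H (r + 1)) (fun _ => x) fun γ' c e _ _ _ => hx1 γ' e,
      hq 2 (WE k j r) (H r) (fun _ => x) fun γ' c e _ _ _ => hx2 γ' e,
      OX_congr (W := WE k j (r + 1)) (W' := WE k j r) fun v hv => WL_out hv]
    have w0 : WE k j (r + 1) none = wR dA := rfl
    have w0' : WE k j r none = wR dA := rfl
    have w1 : WE k j (r + 1) (some (j, r)) = wR bA := by simp [WE, WL]
    have w2 : WE k j (r + 1) (some (j + 1, r)) = wR hA := by simp [WE, WL]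
    have w3 : WE k j r (some (j, r)) = wR hA := by simp [WE, WL]
    have w4 : WE k j r (some (j + 1, r)) = wR bA := by simp [WE, WL]
    rw [w0, w0', w1, w2, w3, w4]
    have e : ∀ (p : Cell × Cell × Cell → Prop) [DecidablePred p] (F : Cell × Cell × Cell → ℝ) (x : ℝ),
        (∑ c, if p c then F c * x else 0) = (∑ c, if p c then F c else 0) * x := fun p _ F x => by
      rw [Finset.sum_mul]
      refine Finset.sum_congr rfl fun c _ => ?_
      split_ifs
      · rfl
      · rw [zero_mul]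
    rw [e, e, tabYB ng_yb q]

/-- **down to the bottom of the box**, the function depends on the row of the crossing -/
theorem ab_dn [Finite I] {G : ℤ → FX I → ℝ} (ho : ∀ t, NgOut j (G t)) (h1 : -B ≤ j) (h2 : j + 1 ≤ B) (hs : -B ≤ s)
    (hs' : s ≤ B + 1) (cst : ∀ r, -B ≤ r → r < s → ∀ t t' : ℤ, (t = r ∨ t = r + 1) → (t' = r ∨ t' = r + 1) → ∀ γ γ',
      Eq6 (Rg j r) (gX j t) (gX j t') γ γ' → G t γ = G t' γ') : SX k j s B (G s) = SX k j (-B) B (G (-B)) := by
  obtain ⟨n, hn⟩ := Int.le.dest hs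
  have key : ∀ m : ℕ, m ≤ n → SX k j (-B + (m : ℤ)) B (G (-B + m)) = SX k j (-B) B (G (-B)) := by
    intro m
    induction m with
    | zero => intro _; simp
    | succ m ih =>
      intro hm
      rw [← ih (by omega)]
      have e : -B + ((m + 1 : ℕ) : ℤ) = -B + m + 1 := by push_cast; ring
      rw [e]
      have c := cst (-B + m) (by omega) (by omega)
      exact ab_row (c _ _ (Or.inr rfl) (Or.inr rfl)) (c _ _ (Or.inl rfl) (Or.inl rfl)) (c _ _ (Or.inr rfl) (Or.inl rfl))
        (ho _) (ho _) (abs_le.2 ⟨by omega, by omega⟩) h1 h2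
  rw [← hn]
  exact key n le_rfl

/-! ### the sets and the events -/

/-- the cells of the strip in the rows `< s` -/
def Slo (j s : ℤ) : Set VX := {v | ∃ a b : ℤ, v = some (a, b) ∧ (a = j ∨ a = j + 1) ∧ b < s}

/-- the same with the crossing -/
def Alo (j s : ℤ) : Set VX := {v | v = none ∨ v ∈ Slo j s}

theorem mem_Slo {a b : ℤ} : (some (a, b) : VX) ∈ Slo j s ↔ (a = j ∨ a = j + 1) ∧ b < s := by
  constructor
  · rintro ⟨a', b', e, h⟩
    simp only [Option.some.injEq, Prod.mk.injEq] at e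
    obtain ⟨rfl, rfl⟩ := e
    exact h
  · intro h
    exact ⟨a, b, rfl, h⟩

theorem none_Slo : (none : VX) ∉ Slo j s := by
  rintro ⟨a, b, e, -⟩
  simp at e

theorem Slo_Alo {v : VX} (h : v ∈ Slo j s) : v ∈ Alo j s := Or.inr h

theorem Rg_Alo (h : r < s) : Rg j r ⊆ Alo j s := by
  rintro v (rfl | rfl | rfl)
  · exact Or.inl rfl
  · exact Or.inr (mem_Slo.2 ⟨Or.inl rfl, h⟩)
  · exact Or.inr (mem_Slo.2 ⟨Or.inr rfl, h⟩)

/-- the edges above the crossing -/
def u1x (j s : ℤ) : VX × Dir := (some (j, s), .S)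
def u2x (j s : ℤ) : VX × Dir := (some (j + 1, s), .S)

/-- the edges below the crossing -/
def l1x (j s : ℤ) : VX × Dir := (some (j, s - 1), .N)
def l2x (j s : ℤ) : VX × Dir := (some (j + 1, s - 1), .N)

/-- no other exit below -/
def Qx (j s : ℤ) (G : Gr VX) (γ : FX I) : Prop := (∃ i, oc (co γ i) (u1x j s)) ∧ (∃ i, oc (co γ i) (u2x j s)) ∧
  ∀ i, ∀ p ∈ Port G (Alo j s), (Cn G (co γ i) (Alo j s) (G.e (u1x j s)) (G.e p) ∨
    Cn G (co γ i) (Alo j s) (G.e (u2x j s)) (G.e p)) → p = u1x j s ∨ p = u2x j s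

/-- the edges below the crossing are not used -/
def L0x (j s : ℤ) (γ : FX I) : Prop := ∀ i, ¬ oc (co γ i) (l1x j s) ∧ ¬ oc (co γ i) (l2x j s)

/-- no other exit from the rows below -/
def L1x (j s : ℤ) (γ : FX I) : Prop := (∃ i, oc (co γ i) (l1x j s)) ∧ (∃ i, oc (co γ i) (l2x j s)) ∧
  ∀ i, ∀ z : VX × Dir, z.1 ∈ Slo j s → (g0.e z).1 ∉ Slo j s → (Cn g0 (co γ i) (Slo j s) (l1x j s) z ∨
    Cn g0 (co γ i) (Slo j s) (l2x j s) z) → z = l1x j s ∨ z = l2x j s

theorem L01 (h : L0x j s γ) (h' : L1x j s γ) : False := by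
  obtain ⟨⟨i, hi⟩, -⟩ := h'
  exact (h i).1 hi

/-! ### class constancy -/

theorem Slo_out (h : s ≤ r) (out : ∀ v, v ∉ Rg j r → γ v = γ' v) {v : VX} (hv : v ∈ Slo j s) : γ v = γ' v := by
  refine out v fun hm => ?_
  obtain ⟨a, b, rfl, h1, h2⟩ := hv
  rcases hm with h3 | h3 | h3
  · simp at h3
  · simp only [Option.some.injEq, Prod.mk.injEq] at h3
    omega
  · simp only [Set.mem_singleton_iff, Option.some.injEq, Prod.mk.injEq] at h3
    omega

theorem l1x_mem : (l1x j s).1 ∈ Slo j s := mem_Slo.2 ⟨Or.inl rfl, by omega⟩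
theorem l2x_mem : (l2x j s).1 ∈ Slo j s := mem_Slo.2 ⟨Or.inr rfl, by omega⟩

theorem oc_eq (h : ∀ v ∈ Slo j s, γ v = γ' v) {x : VX × Dir} (hx : x.1 ∈ Slo j s) {i : I} (ho : oc (co γ i) x) :
    oc (co γ' i) x := by
  show (γ' x.1 i).oc x.2
  rw [← h _ hx]
  exact ho

theorem L0x_cst (h : ∀ v ∈ Slo j s, γ v = γ' v) (hl : L0x j s γ) : L0x j s γ' := by
  have h' : ∀ v ∈ Slo j s, γ' v = γ v := fun v hv => (h v hv).symm
  exact fun i => ⟨fun o => (hl i).1 (oc_eq h' l1x_mem o), fun o => (hl i).2 (oc_eq h' l2x_mem o)⟩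

theorem L1x_cst (h : ∀ v ∈ Slo j s, γ v = γ' v) (hl : L1x j s γ) : L1x j s γ' := by
  have h' : ∀ v ∈ Slo j s, γ' v = γ v := fun v hv => (h v hv).symm
  obtain ⟨⟨i, hi⟩, ⟨i', hi'⟩, hz⟩ := hl
  refine ⟨⟨i, oc_eq h l1x_mem hi⟩, ⟨i', oc_eq h l2x_mem hi'⟩, fun m z z1 z2 c => hz m z z1 z2 ?_⟩
  have co' : ∀ v ∈ Slo j s, co γ' m v = co γ m v := fun v hv => by rw [co_apply, co_apply, h' v hv]
  exact c.imp (cn_same co') (cn_same co')

theorem Qx_cst {G G' : Gr VX} (ag : Agr (Rg j r) G G') (ag' : Agr (Rg j r) G' G) (hr : r < s) (e : Eq6 (Rg j r) G G' γ γ')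
    (h : Qx j s G γ) (h1 : u1x j s ∈ Port G' (Alo j s)) (h2 : u2x j s ∈ Port G' (Alo j s)) : Qx j s G' γ' := by
  obtain ⟨⟨i, hi⟩, ⟨i', hi'⟩, hz⟩ := h
  have n1 : (u1x j s).1 ∉ Rg j r := by
    show (some (j, s) : VX) ∉ Rg j r
    simp only [Rg, Set.mem_insert_iff, Set.mem_singleton_iff, reduceCtorEq, Option.some.injEq, Prod.mk.injEq, false_or]
    omega
  have n2 : (u2x j s).1 ∉ Rg j r := by
    show (some (j + 1, s) : VX) ∉ Rg j r
    simp only [Rg, Set.mem_insert_iff, Set.mem_singleton_iff, reduceCtorEq, Option.some.injEq, Prod.mk.injEq, false_or]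
    omega
  refine ⟨⟨i, (oc_out (co_out e.out i) n1).1 hi⟩, ⟨i', (oc_out (co_out e.out i') n2).1 hi'⟩, fun m p hp c => ?_⟩
  refine hz m p (port_big ag' (Rg_Alo hr) hp) ?_
  have e' := e.symm ag
  have key : ∀ {u : VX × Dir}, u ∈ Port G' (Alo j s) → Cn G' (co γ' m) (Alo j s) (G'.e u) (G'.e p) →
      Cn G (co γ m) (Alo j s) (G.e u) (G.e p) := fun {u} hu c =>
    cn_big ag' (Rg_Alo hr) (co_out e'.out m) (e.fam'.lp m).mt (fun a ha b hb => (e'.pr m a ha b hb).1) hu hp c
  exact c.imp (key h1) (key h2)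

/-! ### signs -/

theorem ab_sin {x : ℝ} (h1 : 0 ≤ x) (h2 : x ≤ Real.pi) : 0 ≤ Real.sin x := Real.sin_nonneg_of_nonneg_of_le_pi h1 h2

theorem ab_wt {u : ℝ} (h1 : 0 ≤ u) (h2 : u ≤ Real.pi / 4) {c : Cell} (hc : c ≠ .y ∨ Real.pi / 8 ≤ u) : 0 ≤ c.wt (wR u) := by
  have hp := Real.pi_pos
  have hD := (UNI.DR_pos (u := u) (by linarith) (by linarith)).le
  have e1 := ab_sin h1 (by linarith)
  have e2 := ab_sin (x := 3 * Real.pi / 8 - u) (by linarith) (by linarith)
  have e3 := ab_sin (x := Real.pi / 4) (by linarith) (by linarith)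
  have e4 := ab_sin (x := Real.pi / 4 - u) (by linarith) (by linarith)
  cases c
  · exact zero_le_one
  · exact div_nonneg (mul_nonneg e1 e2) hD
  · exact div_nonneg (mul_nonneg e1 e2) hD
  · exact div_nonneg (mul_nonneg e3 e2) hD
  · exact div_nonneg (mul_nonneg e3 e2) hD
  · exact div_nonneg (mul_nonneg e3 e1) hD
  · exact div_nonneg (mul_nonneg e3 e1) hD
  · exact div_nonneg (mul_nonneg e4 e2) hD
  · rcases hc with hc | hc
    · exact absurd rfl hc
    · exact div_nonneg (mul_nonneg e1 (ab_sin (by linarith) (by linarith))) hD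

theorem ab_y : (wR dA).w2 ≤ 0 := by
  have hp := Real.pi_pos
  have hD := (UNI.DR_pos (u := dA) (by unfold dA; linarith) (by unfold dA; linarith)).le
  have e1 := ab_sin (x := dA) (by unfold dA; linarith) (by unfold dA; linarith)
  have e2 : Real.sin (dA - Real.pi / 8) ≤ 0 :=
    Real.sin_nonpos_of_nonpos_of_neg_pi_le (by unfold dA; linarith) (by unfold dA; linarith)
  exact div_nonpos_of_nonpos_of_nonneg (mul_nonpos_of_nonneg_of_nonpos e1 e2) hD

theorem ab_wtE (p : Pt) (c : Cell) : 0 ≤ c.wt (WE k j s (some p)) := by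
  have hp := Real.pi_pos
  have b : 0 ≤ c.wt (wR bA) := ab_wt (by unfold bA; linarith) (by unfold bA; linarith) (Or.inr (by unfold bA; linarith))
  have h : 0 ≤ c.wt (wR hA) := ab_wt (by unfold hA; linarith) (by unfold hA; linarith) (Or.inr (by unfold hA; linarith))
  simp only [WE, WL, latj]
  split_ifs <;> assumption

/-- **the sign of a family** -/
theorem ab_sgn (dj : ∀ v, ∃ c, IsUn (γ v) c) {c : Cell} (hc : IsUn (γ none) c) :
    (c ≠ .y → 0 ≤ WX (WE k j s) γ) ∧ (c = .y → WX (WE k j s) γ ≤ 0) := by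
  classical
  have hp := Real.pi_pos
  have key : ∀ v : VX, v ≠ none → 0 ≤ wfg (fun c => c.wt (WE k j s v)) (γ v) := by
    intro v hv
    obtain ⟨c', hc'⟩ := dj v
    rw [wfg_unX hc']
    rcases v with _ | p
    · exact absurd rfl hv
    · exact ab_wtE p c'
  have e0 : wfg (fun c => c.wt (WE k j s none)) (γ none) = c.wt (wR dA) := wfg_unX hc
  by_cases hn : (none : VX) ∈ γ.support
  · have e : WX (WE k j s) γ = c.wt (wR dA) * ∏ v ∈ γ.support.erase none, wfg (fun c => c.wt (WE k j s v)) (γ v) := by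
      unfold WX
      rw [← Finset.mul_prod_erase _ _ hn, e0]
    have h1 : 0 ≤ ∏ v ∈ γ.support.erase none, wfg (fun c => c.wt (WE k j s v)) (γ v) :=
      Finset.prod_nonneg fun v hv => key v (Finset.ne_of_mem_erase hv)
    rw [e]
    refine ⟨fun hy => mul_nonneg (ab_wt (by unfold dA; linarith) (by unfold dA; linarith) (Or.inl hy)) h1, fun hy => ?_⟩
    rw [hy]
    exact mul_nonpos_of_nonpos_of_nonneg ab_y h1
  · have h1 : 0 ≤ WX (WE k j s) γ := by
      unfold WX
      exact Finset.prod_nonneg fun v hv => key v fun h => hn (by rw [← h]; exact hv)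
    refine ⟨fun _ => h1, fun hy => ?_⟩
    exfalso
    rw [Finsupp.mem_support_iff, not_not] at hn
    have : c = .o := (E.Lab.un_o hc).2 fun i => by rw [hn]; rfl
    rw [this] at hy
    exact absurd hy (by decide)

/-! ### the events at the row of the crossing -/

theorem ab_use (f : Fam (gX j s) γ) {c : Cell} (hc : IsUn (γ none) c) {d : Dir} (hd : c.oc d) :
    ∃ i, oc (co γ i) (none, d) ∧ oc (co γ i) ((gX j s).e (none, d)) := by
  obtain ⟨i, hi⟩ := (un_oc hc d).1 hd
  exact ⟨i, hi, ((f.lp i).mt (none, d) trivial trivial).1 hi⟩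

theorem ab_cell (f : Fam (gX j s) γ) {c : Cell} (hc : IsUn (γ none) c) {d : Dir} {i : I}
    (h : oc (co γ i) ((gX j s).e (none, d))) : oc (co γ i) (none, d) ∧ c.oc d ∧ c.p d = (γ none i).p d := by
  have h1 : oc (co γ i) (none, d) := ((f.lp i).mt (none, d) trivial trivial).2 h
  exact ⟨h1, (un_oc hc d).2 ⟨i, h1⟩, hc.1 i d h1⟩

theorem ab_e1 : (gX j s).e (none, .S) = l1x j s := rfl
theorem ab_e2 : (gX j s).e (none, .E) = l2x j s := rfl
theorem ab_e3 : (gX j s).e (none, .W) = u1x j s := rfl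
theorem ab_e4 : (gX j s).e (none, .N) = u2x j s := rfl
theorem ab_i1 : (gX j s).e (l1x j s) = (none, .S) := by rw [← ab_e1, Gr.inv]
theorem ab_i2 : (gX j s).e (l2x j s) = (none, .E) := by rw [← ab_e2, Gr.inv]
theorem ab_i3 : (gX j s).e (u1x j s) = (none, .W) := by rw [← ab_e3, Gr.inv]
theorem ab_i4 : (gX j s).e (u2x j s) = (none, .N) := by rw [← ab_e4, Gr.inv]

theorem u1x_nS : (u1x j s).1 ∉ Alo j s := by
  rintro (h | h)
  · exact absurd h (by simp [u1x])
  · exact absurd (mem_Slo.1 h).2 (by omega)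

theorem u2x_nS : (u2x j s).1 ∉ Alo j s := by
  rintro (h | h)
  · exact absurd h (by simp [u2x])
  · exact absurd (mem_Slo.1 h).2 (by omega)

/-- in the rows below, the edges are those of the square lattice -/
theorem ab_low {z : VX × Dir} (hz : z.1 ∈ Slo j s) : z = l1x j s ∨ z = l2x j s ∨ (gX j s).e z = g0.e z := by
  obtain ⟨v, d⟩ := z
  obtain ⟨a, b, rfl, h1, h2⟩ := hz
  cases d
  · exact Or.inr (Or.inr rfl)
  · by_cases h3 : ((a, b) : Pt) = (j, s - 1)
    · left
      rw [h3]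
      rfl
    · by_cases h4 : ((a, b) : Pt) = (j + 1, s - 1)
      · right; left
        rw [h4]
        rfl
      · right; right
        show (if ((a, b) : Pt) = (j, s - 1) then ((none, .S) : VX × Dir) else if ((a, b) : Pt) = (j + 1, s - 1) then (none, .E) else
          (some (nx (a, b) .N), .S)) = _
        rw [if_neg h3, if_neg h4]
        rfl
  · exact Or.inr (Or.inr rfl)
  · right; right
    show (if ((a, b) : Pt) = (j, s) then ((none, .W) : VX × Dir) else if ((a, b) : Pt) = (j + 1, s) then (none, .N) else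
      (some (nx (a, b) .S), .N)) = _
    rw [if_neg, if_neg]
    · rfl
    · intro h
      have := congrArg Prod.snd h
      simp only at this
      omega
    · intro h
      have := congrArg Prod.snd h
      simp only at this
      omega

/-- the edges out of the last row below in the square lattice -/
theorem ab_l1 : (g0.e (l1x j s)).1 ∉ Slo j s := by
  have e : (g0.e (l1x j s)).1 = some (j, s) := by
    show (some (nx (j, s - 1) .N) : VX) = _
    simp [nx]
  rw [e]
  intro h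
  exact absurd (mem_Slo.1 h).2 (by omega)

theorem ab_l2 : (g0.e (l2x j s)).1 ∉ Slo j s := by
  have e : (g0.e (l2x j s)).1 = some (j + 1, s) := by
    show (some (nx (j + 1, s - 1) .N) : VX) = _
    simp [nx]
  rw [e]
  intro h
  exact absurd (mem_Slo.1 h).2 (by omega)

/-- a connection of the square lattice in the rows below is one on the graph with the crossing -/
theorem ab_cn {δ : VX →₀ Cell} {x y : VX × Dir} (c : Cn g0 δ (Slo j s) x y) : Cn (gX j s) δ (Slo j s) x y := by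
  refine cn_mono' (fun a b l => ?_) c
  obtain ⟨o, h1, h2⟩ := l
  refine ⟨o, h1, ?_⟩
  rcases h2 with h2 | ⟨rfl, h3⟩
  · exact Or.inl h2
  · rcases ab_low h1 with h4 | h4 | h4
    · rw [h4] at h3
      exact absurd h3 ab_l1
    · rw [h4] at h3
      exact absurd h3 ab_l2
    · right
      rw [h4]
      exact ⟨rfl, h3⟩

/-- crossing `y`: no other exit above -/
theorem ab_yQ (f : Fam (gX j s) γ) (hc : IsUn (γ none) .y) : Qx j s (gX j s) γ := by
  obtain ⟨i, -, hi⟩ := ab_use f hc (d := .W) (by decide)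
  obtain ⟨i', -, hi'⟩ := ab_use f hc (d := .N) (by decide)
  refine ⟨⟨i, hi⟩, ⟨i', hi'⟩, fun m p hp c => ?_⟩
  have key : ∀ x y : VX × Dir, Cn (gX j s) (co γ m) (Alo j s) x y → (x = (none, .W) ∨ x = (none, .N)) →
      (y = (none, .W) ∨ y = (none, .N)) := by
    intro x y c
    refine cn_of (mt_mono (f.lp m).mt) (P := fun z => z = (none, .W) ∨ z = (none, .N)) ?_ c
    rintro a b (rfl | rfl) ⟨o, -, rfl | ⟨rfl, hB⟩⟩
    · right
      have h1 := hc.1 m .W o
      show ((none : VX), (γ none m).p .W) = _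
      rw [← h1]
      rfl
    · exact absurd hB u1x_nS
    · left
      have h1 := hc.1 m .N o
      show ((none : VX), (γ none m).p .N) = _
      rw [← h1]
      rfl
    · exact absurd hB u2x_nS
  have h2 : (gX j s).e p = (none, .W) ∨ (gX j s).e p = (none, .N) := by
    rcases c with c | c
    · rw [ab_i3] at c
      exact key _ _ c (Or.inl rfl)
    · rw [ab_i4] at c
      exact key _ _ c (Or.inr rfl)
  rcases h2 with h2 | h2
  · left
    rw [← ab_e3, ← h2, Gr.inv]
  · right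
    rw [← ab_e4, ← h2, Gr.inv]

/-- crossing `y`: the edges below have another exit -/
theorem ab_yL (f : Fam (gX j s) γ) (hc : IsUn (γ none) .y) (hl : ∀ i, ∃ p : Pt, p.1 ≠ j ∧ p.1 ≠ j + 1 ∧ γ (some p) i ≠ .o)
    (h : L1x j s γ) : False := by
  obtain ⟨-, -, hz⟩ := h
  obtain ⟨i, hi, hi1⟩ := ab_use f hc (d := .S) (by decide)
  have l := f.lp i
  have pS : vp (co γ i) (none, .S) = (none, .E) := by
    show ((none : VX), (γ none i).p .S) = _
    rw [← hc.1 i .S hi]
    rfl
  have oE : oc (co γ i) (none, .E) := by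
    rw [← pS]
    exact (oc_vp _ _).2 hi
  have pE : vp (co γ i) (none, .E) = (none, .S) := by rw [← pS, vp_vp]
  have hi2 : oc (co γ i) (l2x j s) := (l.mt (none, .E) trivial trivial).1 oE
  obtain ⟨p, hp1, hp2, hp3⟩ := hl i
  obtain ⟨d, hd⟩ := ex_side (show co γ i (some p) ≠ 0 from hp3)
  have hP := cn_of l.mt (P := fun x => x = (none, .S) ∨ x = (none, .E) ∨ (x.1 ∈ Slo j s ∧ oc (co γ i) x ∧
    (Cn g0 (co γ i) (Slo j s) (l1x j s) x ∨ Cn g0 (co γ i) (Slo j s) (l2x j s) x))) ?_ (l.cn (none, .S) (some p, d) hi hd) (Or.inl rfl)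
  · rcases hP with h1 | h1 | h1
    · exact absurd (congrArg Prod.fst h1) (by simp)
    · exact absurd (congrArg Prod.fst h1) (by simp)
    · obtain ⟨a, b, e, h2, -⟩ := h1.1
      simp only [Option.some.injEq] at e
      rw [e] at hp1 hp2
      simp only at hp1 hp2
      omega
  · rintro a b (rfl | rfl | ⟨h1, h2, h3⟩) ⟨o, -, rfl | ⟨rfl, -⟩⟩
    · exact Or.inr (Or.inl pS)
    · exact Or.inr (Or.inr ⟨l1x_mem, hi1, Or.inl (cn_refl _)⟩)
    · exact Or.inl pE
    · exact Or.inr (Or.inr ⟨l2x_mem, hi2, Or.inr (cn_refl _)⟩)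
    · have c := cn_vp (G := g0) o h1
      exact Or.inr (Or.inr ⟨h1, (oc_vp _ _).2 h2, h3.imp (fun h => cn_trans h c) fun h => cn_trans h c⟩)
    · by_cases h4 : (g0.e a).1 ∈ Slo j s
      · rcases ab_low h1 with h5 | h5 | h5
        · rw [h5] at h4
          exact absurd h4 ab_l1
        · rw [h5] at h4
          exact absurd h4 ab_l2
        · rw [h5]
          have c := cn_e (G := g0) h2 h1 h4
          refine Or.inr (Or.inr ⟨h4, ?_, h3.imp (fun h => cn_trans h c) fun h => cn_trans h c⟩)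
          rw [← h5]
          exact (l.mt a trivial trivial).1 h2
      · rcases hz i a h1 h4 h3 with h5 | h5
        · rw [h5, ab_i1]
          exact Or.inl rfl
        · rw [h5, ab_i2]
          exact Or.inr (Or.inl rfl)

/-- crossing `x`: no other exit above ⟹ no other exit below -/
theorem ab_xL (f : Fam (gX j s) γ) (hc : IsUn (γ none) .x) (h : Qx j s (gX j s) γ) : L1x j s γ := by
  obtain ⟨-, -, hz⟩ := h
  obtain ⟨i, -, hi⟩ := ab_use f hc (d := .S) (by decide)
  obtain ⟨i', -, hi'⟩ := ab_use f hc (d := .E) (by decide)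
  refine ⟨⟨i, hi⟩, ⟨i', hi'⟩, fun m z z1 z2 c => ?_⟩
  by_contra hno
  push Not at hno
  have l := f.lp m
  have ez : (gX j s).e z = g0.e z := by
    rcases ab_low z1 with h5 | h5 | h5
    · exact absurd h5 hno.1
    · exact absurd h5 hno.2
    · exact h5
  have hn : ((gX j s).e z).1 ≠ none := by
    rw [ez]
    obtain ⟨v, d⟩ := z
    obtain ⟨a, b, e, -⟩ := z1
    simp only at e
    rw [e]
    simp [g0, e0]
  have hp : (gX j s).e z ∈ Port (gX j s) (Alo j s) := by
    refine ⟨?_, by rw [Gr.inv]; exact Slo_Alo z1⟩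
    rintro (h5 | h5)
    · exact hn h5
    · exact z2 (by rw [← ez]; exact h5)
  have main : ∀ (u w : VX × Dir) (d : Dir) (d' : Dir), w = (gX j s).e (none, d) → w.1 ∈ Slo j s → u = (gX j s).e (none, d') →
      Cell.x.p d = d' → Cn g0 (co γ m) (Slo j s) w z → w ≠ z → Cn (gX j s) (co γ m) (Alo j s) ((gX j s).e u)
        ((gX j s).e ((gX j s).e z)) := by
    intro u w d d' ew hw eu ed c1 c2
    rcases cn_oc (mt_mono l.mt) (ab_cn c1) with h5 | ⟨⟨o1, -⟩, -⟩
    · exact absurd h5 c2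
    · rw [ew] at o1
      obtain ⟨a1, a2, a3⟩ := ab_cell f hc o1
      rw [Gr.inv, eu, Gr.inv]
      have v1 : vp (co γ m) (none, d) = (none, d') := by
        show ((none : VX), (γ none m).p d) = _
        rw [← a3, ed]
      have b1 : Cn (gX j s) (co γ m) (Alo j s) (none, d) (none, d') := by
        rw [← v1]
        exact cn_vp a1 (Or.inl rfl)
      have b2 : Cn (gX j s) (co γ m) (Alo j s) (none, d) w := by
        rw [ew]
        exact cn_e a1 (Or.inl rfl) (by rw [← ew]; exact Slo_Alo hw)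
      exact cn_trans (cn_symm b1) (cn_trans b2 (cn_mono (fun v hv => Slo_Alo hv) (ab_cn c1)))
  have fin : (gX j s).e z = u1x j s ∨ (gX j s).e z = u2x j s := by
    refine hz m _ hp ?_
    rcases c with c | c
    · exact Or.inl (main _ _ .S .W rfl l1x_mem rfl rfl c hno.1.symm)
    · exact Or.inr (main _ _ .E .N rfl l2x_mem rfl rfl c hno.2.symm)
  rcases fin with h5 | h5
  · have : z = (none, .W) := by rw [← ab_i3, ← h5, Gr.inv]
    rw [this] at z1
    exact none_Slo z1
  · have : z = (none, .N) := by rw [← ab_i4, ← h5, Gr.inv]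
    rw [this] at z1
    exact none_Slo z1

/-- crossing `nw`: the edges below are not used -/
theorem ab_nw (f : Fam (gX j s) γ) (hc : IsUn (γ none) .nw) : L0x j s γ := by
  intro i
  refine ⟨fun h => ?_, fun h => ?_⟩
  · have := (ab_cell f hc (d := .S) (i := i) h).2.1
    exact absurd this (by decide)
  · have := (ab_cell f hc (d := .E) (i := i) h).2.1
    exact absurd this (by decide)

theorem ab_WN : ∀ c : Cell, c.oc .W → c.oc .N → c = .nw ∨ c = .x ∨ c = .y := by decide

open Classical in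
/-- **the pointwise inequality** -/
theorem ab_pt (f : Fam (gX j s) γ) (hl : ∀ i, ∃ p : Pt, p.1 ≠ j ∧ p.1 ≠ j + 1 ∧ γ (some p) i ≠ .o) :
    (if IsUn (γ none) .y then |WX (WE k j s) γ| else 0) + WX (WE k j s) γ * (if Qx j s (gX j s) γ then 1 else 0) ≤
      WX (WE k j s) γ * (if L0x j s γ then 1 else 0) + WX (WE k j s) γ * (if L1x j s γ then 1 else 0) := by
  obtain ⟨c, hc⟩ := f.dj none
  obtain ⟨s1, s2⟩ := ab_sgn (k := k) (j := j) (s := s) f.dj hc
  by_cases hy : c = .y
  · subst hy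
    have n0 : ¬ L0x j s γ := by
      intro h
      obtain ⟨i, -, hi⟩ := ab_use f hc (d := .S) (by decide)
      exact (h i).1 hi
    have n1 : ¬ L1x j s γ := fun h => ab_yL f hc hl h
    rw [if_pos hc, if_pos (ab_yQ f hc), if_neg n0, if_neg n1, abs_of_nonpos (s2 rfl)]
    linarith
  · have w0 := s1 hy
    have ny : ¬ IsUn (γ none) .y := fun h => hy (un_unique hc h)
    rw [if_neg ny, zero_add, ← mul_add]
    refine mul_le_mul_of_nonneg_left ?_ w0
    by_cases hQ : Qx j s (gX j s) γ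
    · rw [if_pos hQ]
      obtain ⟨⟨i, hi⟩, ⟨i', hi'⟩, -⟩ := id hQ
      have oW := (ab_cell f hc (d := .W) hi).2.1
      have oN := (ab_cell f hc (d := .N) hi').2.1
      rcases ab_WN c oW oN with rfl | rfl | rfl
      · rw [if_pos (ab_nw f hc)]
        split_ifs <;> norm_num
      · rw [if_pos (ab_xL f hc hQ)]
        split_ifs <;> norm_num
      · exact absurd rfl hy
    · rw [if_neg hQ]
      split_ifs <;> norm_num

/-! ### the theorem -/

open Classical in
/-- the indicator -/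
def abI (Ev : FX I → Prop) : FX I → ℝ := fun γ => if Ev γ then 1 else 0

open Classical in
theorem ab_SX [Finite I] {G : FX I → ℝ} :
    SX k j s B G = ∑ γ ∈ (fin_Bx B).toFinset, if Fam (gX j s) γ ∧ Bx B γ then WX (WE k j s) γ * G γ else 0 :=
  tsum_eq_sum fun _ hγ => if_neg fun h => hγ ((Set.Finite.mem_toFinset _).2 h.2)

theorem abI_congr {P P' : FX I → Prop} (h : P γ ↔ P' γ') : abI P γ = abI P' γ' := by
  classical
  exact if_congr h rfl rfl

theorem abI_nn (P : FX I → Prop) (γ : FX I) : 0 ≤ abI P γ := by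
  unfold abI
  split_ifs
  · exact zero_le_one
  · exact le_rfl

theorem ab_T (f : Fam (gX j (B + 1)) γ) (hb : Bx B γ) : 0 ≤ WX (WE k j (B + 1)) γ := by
  obtain ⟨c, hc⟩ := f.dj none
  refine (ab_sgn f.dj hc).1 fun hy => ?_
  obtain ⟨i, hi⟩ := (un_oc hc .W).1 (by rw [hy]; decide)
  rcases cell_T f hb i with h | h
  · rw [h] at hi
    exact absurd hi (by decide)
  · rw [h] at hi
    exact absurd hi (by decide)

theorem ab_B (f : Fam (gX j (-B)) γ) (hb : Bx B γ) : 0 ≤ WX (WE k j (-B)) γ := by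
  obtain ⟨c, hc⟩ := f.dj none
  refine (ab_sgn f.dj hc).1 fun hy => ?_
  obtain ⟨i, hi⟩ := (un_oc hc .S).1 (by rw [hy]; decide)
  rcases cell_B f hb i with h | h
  · rw [h] at hi
    exact absurd hi (by decide)
  · rw [h] at hi
    exact absurd hi (by decide)

/-- the graphs of the classes -/
theorem ab_Gt {t : ℤ} (ht : t = r ∨ t = r + 1) : ∃ i : Fin 3, i ≠ 0 ∧ Gt j r i = gX j t := by
  rcases ht with rfl | rfl
  · exact ⟨2, by decide, rfl⟩
  · exact ⟨1, by decide, rfl⟩

theorem ab_Gt' {i : Fin 3} (hi : i ≠ 0) : ∃ t : ℤ, (t = r ∨ t = r + 1) ∧ Gt j r i = gX j t := by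
  match i, hi with
  | 0, h => exact absurd rfl h
  | 1, _ => exact ⟨r + 1, Or.inr rfl, rfl⟩
  | 2, _ => exact ⟨r, Or.inl rfl, rfl⟩

theorem ab_cs {P : FX I → Prop} (h : ∀ t t' : ℤ, (t = r ∨ t = r + 1) → (t' = r ∨ t' = r + 1) → ∀ γ γ',
    Eq6 (Rg j r) (gX j t) (gX j t') γ γ' → (P γ ↔ P γ')) : Cs j r (abI P) := by
  classical
  intro i i' γ γ' hi hi' e
  obtain ⟨t, ht, et⟩ := ab_Gt' (j := j) (r := r) hi
  obtain ⟨t', ht', et'⟩ := ab_Gt' (j := j) (r := r) hi'
  rw [et, et'] at e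
  exact if_congr (h t t' ht ht' γ γ' e) rfl rfl

theorem u1x_port (t : ℤ) : u1x j s ∈ Port (gX j t) (Alo j s) := by
  refine ⟨u1x_nS, ?_⟩
  show ((gX j t).e (some (j, s), .S)).1 ∈ Alo j s
  show (if ((j, s) : Pt) = (j, t) then ((none, .W) : VX × Dir) else if ((j, s) : Pt) = (j + 1, t) then (none, .N) else
    (some (nx (j, s) .S), .N)).1 ∈ Alo j s
  split_ifs with h3 h4
  · exact Or.inl rfl
  · exact Or.inl rfl
  · exact Or.inr (mem_Slo.2 ⟨Or.inl rfl, by omega⟩)

theorem u2x_port (t : ℤ) : u2x j s ∈ Port (gX j t) (Alo j s) := by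
  refine ⟨u2x_nS, ?_⟩
  show (if ((j + 1, s) : Pt) = (j, t) then ((none, .W) : VX × Dir) else if ((j + 1, s) : Pt) = (j + 1, t) then (none, .N) else
    (some (nx (j + 1, s) .S), .N)).1 ∈ Alo j s
  split_ifs with h3 h4
  · exact Or.inl rfl
  · exact Or.inl rfl
  · exact Or.inr (mem_Slo.2 ⟨Or.inr rfl, by omega⟩)

open Classical in
/-- **X5** -/
theorem abs3 (I : Type) [Finite I] : Abs3 I := by
  intro k j s B Ev hk h1 h2 hs hs' hcs hl
  have hl' : ∀ {P : FX I → Prop}, (∀ γ, P γ → Ev γ) → NgOut j (abI P) := by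
    intro P hP γ hγ i
    refine hl γ (hP γ ?_) i
    by_contra hc
    exact hγ (if_neg hc)
  have evc : ∀ r, |r| ≤ B → ∀ t t' : ℤ, (t = r ∨ t = r + 1) → (t' = r ∨ t' = r + 1) → ∀ γ γ',
      Eq6 (Rg j r) (gX j t) (gX j t') γ γ' → (Ev γ ↔ Ev γ') := by
    intro r hr t t' ht ht' γ γ' e
    obtain ⟨i, hi, ei⟩ := ab_Gt (j := j) ht
    obtain ⟨i', hi', ei'⟩ := ab_Gt (j := j) ht'
    rw [← ei, ← ei'] at e
    have h3 := hcs r hr i i' γ γ' hi hi' e
    by_cases a : Ev γ <;> by_cases b : Ev γ'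
    · exact ⟨fun _ => b, fun _ => a⟩
    · simp only [a, b, if_true, if_false] at h3
      exact absurd h3 one_ne_zero
    · simp only [a, b, if_true, if_false] at h3
      exact absurd h3.symm one_ne_zero
    · exact ⟨fun h => absurd h a, fun h => absurd h b⟩
  have agX : ∀ r t t' : ℤ, (t = r ∨ t = r + 1) → (t' = r ∨ t' = r + 1) → Agr (Rg j r) (gX j t) (gX j t') := by
    intro r t t' ht ht'
    obtain ⟨i, hi, ei⟩ := ab_Gt (j := j) ht
    obtain ⟨i', hi', ei'⟩ := ab_Gt (j := j) ht'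
    rw [← ei, ← ei']
    exact agr i i'
  obtain ⟨M, hM⟩ : ∃ M : ℝ, M = SX k j (B + 1) B (abI Ev) := ⟨_, rfl⟩
  -- the sums of `Ev`
  have e1 : SX k j s B (abI Ev) = M := by
    rw [hM]
    exact ng_up (hl' fun _ h => h) h1 h2 hs hs' fun r q1 q2 => ab_cs (evc r (abs_le.2 ⟨by omega, by omega⟩))
  have e2 : SX k j (-B) B (abI Ev) = M := by
    rw [← e1]
    exact (ng_dn (hl' fun _ h => h) h1 h2 hs hs' fun r q1 q2 => ab_cs (evc r (abs_le.2 ⟨by omega, by omega⟩))).symm
  -- the events below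
  have e3 : SX k j s B (abI fun γ => Ev γ ∧ L0x j s γ) = SX k j (B + 1) B (abI fun γ => Ev γ ∧ L0x j s γ) := by
    refine ng_up (hl' fun _ h => h.1) h1 h2 hs hs' fun r q1 q2 => ab_cs fun t t' ht ht' γ γ' e => ?_
    refine and_congr (evc r (abs_le.2 ⟨by omega, by omega⟩) t t' ht ht' γ γ' e) ⟨fun h => ?_, fun h => ?_⟩
    · exact L0x_cst (fun v hv => Slo_out q1 e.out hv) h
    · exact L0x_cst (fun v hv => (Slo_out q1 e.out hv).symm) h
  have e4 : SX k j s B (abI fun γ => Ev γ ∧ L1x j s γ) = SX k j (B + 1) B (abI fun γ => Ev γ ∧ L1x j s γ) := by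
    refine ng_up (hl' fun _ h => h.1) h1 h2 hs hs' fun r q1 q2 => ab_cs fun t t' ht ht' γ γ' e => ?_
    refine and_congr (evc r (abs_le.2 ⟨by omega, by omega⟩) t t' ht ht' γ γ' e) ⟨fun h => ?_, fun h => ?_⟩
    · exact L1x_cst (fun v hv => Slo_out q1 e.out hv) h
    · exact L1x_cst (fun v hv => (Slo_out q1 e.out hv).symm) h
  -- the event above
  have e5 : 0 ≤ SX k j s B (abI fun γ => Ev γ ∧ Qx j s (gX j s) γ) := by
    have e6 := ab_dn (k := k) (j := j) (s := s) (B := B) (G := fun t => abI fun γ => Ev γ ∧ Qx j s (gX j t) γ)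
      (fun t => hl' fun _ h => h.1) h1 h2 hs hs' (by
        intro r hrB hr t t' ht ht' γ γ' e
        refine abI_congr (and_congr (evc r (abs_le.2 ⟨hrB, by omega⟩) t t' ht ht' γ γ' e) ⟨fun h => ?_, fun h => ?_⟩)
        · exact Qx_cst (agX r t t' ht ht') (agX r t' t ht' ht) hr e h (u1x_port t') (u2x_port t')
        · exact Qx_cst (agX r t' t ht' ht) (agX r t t' ht ht') hr (e.symm (agX r t t' ht ht')) h (u1x_port t) (u2x_port t))
    have e7 : SX k j s B (abI fun γ => Ev γ ∧ Qx j s (gX j s) γ) = SX k j (-B) B (abI fun γ => Ev γ ∧ Qx j s (gX j (-B)) γ) := e6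
    rw [e7, ab_SX]
    refine Finset.sum_nonneg fun γ _ => ?_
    split_ifs with hf
    · exact mul_nonneg (ab_B hf.1 hf.2) (abI_nn _ _)
    · exact le_rfl
  -- the crossings `y`
  obtain ⟨Y, hY⟩ : ∃ Y : ℝ, Y = ∑ γ ∈ (fin_Bx (I := I) B).toFinset, if Fam (gX j s) γ ∧ Bx B γ then
    (if Ev γ then (if IsUn (γ none) .y then |WX (WE k j s) γ| else 0) else 0) else 0 := ⟨_, rfl⟩
  have e8 : Y + SX k j s B (abI fun γ => Ev γ ∧ Qx j s (gX j s) γ) ≤
      SX k j s B (abI fun γ => Ev γ ∧ L0x j s γ) + SX k j s B (abI fun γ => Ev γ ∧ L1x j s γ) := by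
    rw [hY, ab_SX, ab_SX, ab_SX, ← Finset.sum_add_distrib, ← Finset.sum_add_distrib]
    refine Finset.sum_le_sum fun γ _ => ?_
    by_cases hf : Fam (gX j s) γ ∧ Bx B γ
    · rw [if_pos hf, if_pos hf, if_pos hf, if_pos hf]
      by_cases he : Ev γ
      · rw [if_pos he]
        have a1 : ∀ P : FX I → Prop, (abI fun γ => Ev γ ∧ P γ) γ = if P γ then 1 else 0 := fun P =>
          abI_congr (P' := P) (γ' := γ) ⟨fun h => h.2, fun h => ⟨he, h⟩⟩
        rw [a1, a1, a1]
        exact ab_pt hf.1 (hl γ he)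
      · rw [if_neg he]
        have a1 : ∀ P : FX I → Prop, (abI fun γ => Ev γ ∧ P γ) γ = 0 := fun P => if_neg fun h => he h.1
        rw [a1, a1, a1]
        simp
    · rw [if_neg hf, if_neg hf, if_neg hf, if_neg hf]
  have e9 : SX k j (B + 1) B (abI fun γ => Ev γ ∧ L0x j s γ) + SX k j (B + 1) B (abI fun γ => Ev γ ∧ L1x j s γ) ≤ M := by
    rw [hM, ab_SX, ab_SX, ab_SX, ← Finset.sum_add_distrib]
    refine Finset.sum_le_sum fun γ _ => ?_
    by_cases hf : Fam (gX j (B + 1)) γ ∧ Bx B γ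
    · rw [if_pos hf, if_pos hf, if_pos hf, ← mul_add]
      refine mul_le_mul_of_nonneg_left ?_ (ab_T hf.1 hf.2)
      unfold abI
      by_cases he : Ev γ
      · by_cases q0 : L0x j s γ
        · by_cases q1 : L1x j s γ
          · exact (L01 q0 q1).elim
          · simp [he, q0, q1]
        · by_cases q1 : L1x j s γ
          · simp [he, q0, q1]
          · simp [he, q0, q1]
      · simp [he]
    · rw [if_neg hf, if_neg hf, if_neg hf, add_zero]
  have e10 : AX k j s B (abI Ev) ≤ SX k j s B (abI Ev) + 2 * Y := by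
    rw [AX_eq, ab_SX, hY, Finset.mul_sum, ← Finset.sum_add_distrib]
    refine Finset.sum_le_sum fun γ _ => ?_
    by_cases hf : Fam (gX j s) γ ∧ Bx B γ
    · rw [if_pos hf, if_pos hf, if_pos hf]
      by_cases he : Ev γ
      · have a1 : abI Ev γ = 1 := if_pos he
        rw [a1, if_pos he]
        obtain ⟨c, hc⟩ := hf.1.dj none
        by_cases hy : IsUn (γ none) .y
        · rw [if_pos hy]
          have := neg_abs_le (WX (WE k j s) γ)
          linarith
        · rw [if_neg hy]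
          have := (ab_sgn (k := k) (j := j) (s := s) hf.1.dj hc).1 fun h => hy (by rw [← h]; exact hc)
          rw [abs_of_nonneg this]
          linarith
      · have a1 : abI Ev γ = 0 := if_neg he
        rw [a1, if_neg he]
        simp
    · rw [if_neg hf, if_neg hf, if_neg hf]
      simp
  rw [e3, e4] at e8
  rw [e1] at e10
  have fin : AX k j s B (abI Ev) ≤ 3 * M := by linarith
  constructor
  · show AX k j s B (abI Ev) ≤ 3 * SX k j (B + 1) B (abI Ev)
    rw [← hM]
    exact fin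
  · show AX k j s B (abI Ev) ≤ 3 * SX k j (-B) B (abI Ev)
    rw [e2]
    exact fin

end

end Pool.Agent.ROT.X
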