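import Pool.Agent.ROT.XIncDefs
import Pool.Agent.ROT.UInst

/-!
# UNIV, exact side: the last rows (helper99)

`POT u n πT πP x g` = the pattern function `WSys.PO` of `instU` in the lattice with the column angles `u` for tracers of the
type `T` (weight functions `g i`) and points of the type `P`.

* **`XLim`** (R1): the limit of the boxes, with the coefficients read off (`j = k`: left and top, `j` right of all tracers:
  right and bottom);
* **`XBack`** (R4): backward differences = forward differences;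
* **`IncT`** : the exact increment for finite types of tracers (`WSys.INC2` of UStep2: XFm41).
-/

set_option autoImplicit false

open Filter Topology

namespace Pool.Agent.ROT.X

open Pool.Agent.ROT.E (Cell Pt Cfg)
open Pool.Agent.ROT.E.Hx (hs)
open Pool.Agent.ROT.I (Lps)
open Pool.Agent.ROT.A (PSys)
open Pool.Agent.ROT.A6 (HLs Ins)
open Pool.Agent.ROT.U (hexU instU qx bb dd lat MU WSys D1)

noncomputable section

variable {T P : Type} [Fintype T]

open Classical in
/-- **the pattern function** in the lattice with the column angles `u` -/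
def POT (u : ℤ → ℝ) (n : ℕ) (πT : T → Bool) (πP : P → Bool) (x : P → Pt) (g : T → HLs → ℝ) : ℝ :=
  ∑' w : Lps, MU u w.1 * ((if ∀ l, E.sg w.1 (x l).1 (x l).2 = 1 ↔ πP l = true then 1 else 0) *
    ∏ i : T, ∑ v ∈ hexU.box n, if Disjoint (hs w.1) (hs v.1) ∧ (Ins v.1 w.1 ↔ πT i = true) then hexU.M v * g i v else 0)

/-- the tracers with the test functions `G` -/
def gT (N : ℕ) (G : T → (Fin 4 → ℝ) → ℝ) : T → HLs → ℝ := fun i v => G i (hexU.hN N v)

/-- the response of the right and of the bottom side (forward differences) -/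
def rhoK (N : ℕ) (G : (Fin 4 → ℝ) → ℝ) (v : HLs) : ℝ :=
  -(hexU.Qf v 1 - 1) * D1 N 1 G (hexU.hN N v) + hexU.Cf v 2 * D1 N 2 G (hexU.hN N v)

/-- the response of the left and of the top side (backward differences) -/
def rhoL (N : ℕ) (G : (Fin 4 → ℝ) → ℝ) (v : HLs) : ℝ :=
  -(hexU.Qf v 0 - 1) * (G (hexU.hN N v) - G (hexU.hN N v - Pi.single 0 (1 / (N : ℝ)))) +
    hexU.Cf v 3 * (G (hexU.hN N v) - G (hexU.hN N v - Pi.single 3 (1 / (N : ℝ))))

/-- the response of the left and of the top side (forward differences) -/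
def rhoF (N : ℕ) (G : (Fin 4 → ℝ) → ℝ) (v : HLs) : ℝ :=
  -(hexU.Qf v 0 - 1) * D1 N 0 G (hexU.hN N v) + hexU.Cf v 3 * D1 N 3 G (hexU.hN N v)

/-- **R1**: the limit of the boxes -/
def XLim (T P : Type) [Fintype T] : Prop := ∀ (πT : T → Bool) (πP : P → Bool) (K δ Λ κ d : ℝ), NTs πT πP → 0 < δ →
  0 < κ → 0 < d → ∃ N0 : ℕ, ∀ N : ℕ, N0 ≤ N → ∀ (k : ℤ) (G : T → (Fin 4 → ℝ) → ℝ) (x : P → Pt), AdmX N K δ Λ κ d k G x →
  ∀ n : ℕ, (K + 1) * N ≤ n →
  Tendsto (fun B : ℤ => SE k k B fun γ => chi0 πT πP x γ * gA (JT T) (fG N G) k (B + 1) γ) atTop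
    (𝓝 (POT (lat bb (k + 1)) n πT πP x (gT N G) -
      ∑ i, by classical exact POT (lat bb (k + 1)) n πT πP x (Function.update (gT N G) i (rhoL N (G i))))) ∧
  ∀ j1 : ℤ, k ≤ j1 → (K + 1) * N ≤ j1 →
    Tendsto (fun B : ℤ => SE k j1 B fun γ => chi0 πT πP x γ * gA (JT T) (fG N G) j1 (B + 1) γ) atTop
      (𝓝 (POT (latj k j1) n πT πP x (gT N G) +
        ∑ i, by classical exact POT (latj k j1) n πT πP x (Function.update (gT N G) i (rhoK N (G i)))))

/-- **R4**: backward and forward differences -/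
def XBack (T P : Type) [Fintype T] : Prop := ∀ (πT : T → Bool) (πP : P → Bool) (K δ Λ κ d ε : ℝ), NTs πT πP → 0 < δ →
  0 < κ → 0 < d → 0 < ε → ∃ N0 : ℕ, ∀ N : ℕ, N0 ≤ N → ∀ (k : ℤ) (G : T → (Fin 4 → ℝ) → ℝ) (x : P → Pt),
  AdmX N K δ Λ κ d k G x → ∀ (n : ℕ) (i : T), by classical exact
    (|POT (lat bb (k + 1)) n πT πP x (Function.update (gT N G) i (rhoL N (G i))) -
      POT (lat bb (k + 1)) n πT πP x (Function.update (gT N G) i (rhoF N (G i)))| ≤ ε / N)

/-- **the exact increment** for the types `T`, `P` -/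
def IncT (T P : Type) [Fintype T] : Prop := ∀ (πT : T → Bool) (πP : P → Bool) (K δ Λ κ d ε : ℝ), NTs πT πP → 0 < δ →
  0 < κ → 0 < d → 0 < ε → ∃ N0 : ℕ, ∀ N : ℕ, N0 ≤ N → ∀ (k : ℤ) (G : T → (Fin 4 → ℝ) → ℝ) (x : P → Pt),
  AdmX N K δ Λ κ d k G x → ∀ n : ℕ, (K + 1) * N ≤ n → by classical exact
    (|POT (lat bb (k + 1)) n πT πP x (gT N G) - POT (lat bb k) n πT πP x (gT N G) -
      ∑ i, (POT (lat bb k) n πT πP x (Function.update (gT N G) i (rhoK N (G i))) +
        POT (lat bb (k + 1)) n πT πP x (Function.update (gT N G) i (rhoF N (G i))))| ≤ ε / N)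

end

end Pool.Agent.ROT.X
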