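import Pool.Agent.ROT.XBackB
import Pool.Agent.ROT.XFinDefs

/-!
# UNIV, exact side: **the row XBack (R4)** (helper27): backward differences = forward differences
-/

set_option autoImplicit false

open Filter Topology

namespace Pool.Agent.ROT.X

open Pool.Agent.ROT.E (Cell Pt Cfg)
open Pool.Agent.ROT.E.Hx (hs MassU)
open Pool.Agent.ROT.I (Lps)
open Pool.Agent.ROT.A6 (HLs Ins)
open Pool.Agent.ROT.U (hexU instU qx bb dd lat MU WSys D1)
open Pool.Agent.ROT.U.St (PG NTg GeoP back_core)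

variable {T P : Type} [Fintype T]

theorem pot_pg (k : ℤ) (n : ℕ) (πT : T → Bool) (πP : P → Bool) (x : P → Pt) (g : T → HLs → ℝ) :
    POT (lat bb k) n πT πP x g = PG instU (instU.wt k) n πT πP x g := by
  classical
  unfold POT PG
  refine tsum_congr fun w => ?_
  refine congrArg₂ (· * ·) rfl (congrArg₂ (· * ·) (if_congr Iff.rfl rfl rfl) ?_)
  refine Finset.prod_congr rfl fun i _ => ?_
  refine Finset.sum_congr rfl fun v _ => ?_
  exact if_congr Iff.rfl rfl rfl

/-- **R4** -/
theorem xBack (hX : instU.Near) (hU : MassU) (T P : Type) [Fintype T] : XBack T P := by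
  intro πT πP K δ Λ κ d ε hNT hδ hκ hd hε
  by_cases hK : 0 ≤ K
  swap
  · refine ⟨1, fun N hN k G x hA n i => ?_⟩
    exfalso
    have h1 := (abs_nonneg _).trans hA.kk
    have h2 : (0 : ℝ) < N := by exact_mod_cast hN
    push Not at hK
    nlinarith
  obtain ⟨N0, hN0⟩ := eventually_atTop.1
    (back_core hX hU πT πP (K := K) (δ := δ) (Λ := Λ) (d := d) (ε := ε) hNT hK hδ hd hε)
  refine ⟨N0, fun N hN k G x hA n i => ?_⟩
  have h := hN0 N hN (k + 1) n G x ⟨fun l => ⟨(hA.pt l).2.1, (hA.pt l).2.2⟩, hA.pp⟩ hA.tf i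
  rw [pot_pg, pot_pg]
  exact h

end Pool.Agent.ROT.X
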