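import Pool.Agent.ROT.UStB

/-!
# UNIV, exact side: the row XBack (R4), part A: pattern functions for types of tracers and points (helper27)
-/

set_option autoImplicit false

open Finset Filter Topology

namespace Pool.Agent.ROT.U.St

open Pool.Agent.ROT.A (Z2 PSys)
open Pool.Agent.ROT.U

variable {S : PSys} (X : WSys S) {T P : Type} [Fintype T]

open Classical in
/-- the pattern function for tracers of the type `T` and points of the type `P` -/
noncomputable def PG (g : X.W → ℝ) (n : ℕ) (πT : T → Bool) (πP : P → Bool) (x : P → Z2) (f : T → S.P → ℝ) : ℝ :=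
  ∑' w, g w * ((if ∀ l, X.ip (x l) w ↔ πP l = true then 1 else 0) * ∏ i, X.fac n w (πT i) (.inr (f i)))

/-- two inside, one outside -/
def NTg (πT : T → Bool) (πP : P → Bool) : Prop :=
  (∃ a b : T ⊕ P, a ≠ b ∧ Sum.elim πT πP a = true ∧ Sum.elim πT πP b = true) ∧ ∃ c : T ⊕ P, Sum.elim πT πP c = false

/-- the geometry of the points -/
structure GeoP (N : ℕ) (K d : ℝ) (x : P → Z2) : Prop where
  pt : ∀ l, |((x l).1 : ℝ)| ≤ K * N ∧ |((x l).2 : ℝ)| ≤ K * N
  pp : ∀ l l', l ≠ l' → d * N ≤ |((x l).1 : ℝ) - (x l').1|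

lemma facT_ne {n : ℕ} {w : X.W} {b : Bool} {f : S.P → ℝ} (h : X.fac n w b (.inr f) ≠ 0) :
    ∃ v ∈ S.box n, f v ≠ 0 ∧ X.Dj w v ∧ (X.In v w ↔ b = true) := by
  classical
  simp only [WSys.fac] at h
  obtain ⟨v, hv, hne⟩ := Finset.exists_ne_zero_of_sum_ne_zero h
  refine ⟨v, hv, ?_⟩
  by_cases hc : X.Dj w v ∧ (X.In v w ↔ b = true)
  · refine ⟨fun h0 => hne ?_, hc⟩
    rw [h0]
    simp
  · exact (hne (if_neg hc)).elim

omit [Fintype T] in
/-- **the support** -/
lemma suppG {N n : ℕ} {K δ d : ℝ} {x : P → Z2} {πT : T → Bool} {πP : P → Bool} (hN : 1 ≤ N)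
    (hNT : NTg πT πP) (hg : GeoP N K d x) {f : T → S.P → ℝ} (hf : ∀ i, Okf S N K δ (f i)) (w : X.W)
    (h1 : ∀ l, X.ip (x l) w ↔ πP l = true) (h2 : ∀ i, X.fac n w (πT i) (.inr (f i)) ≠ 0) :
    X.Ext (min δ d * N) w ∧ X.Nr ((K + 1) * N) 0 w := by
  have hN' : (1 : ℝ) ≤ N := by exact_mod_cast hN
  obtain ⟨⟨a, b, hab, ha, hb⟩, c, hc⟩ := hNT
  have hmd : min δ d * N ≤ δ * N := mul_le_mul_of_nonneg_right (min_le_left _ _) (by linarith)
  have hmd' : min δ d * N ≤ d * N := mul_le_mul_of_nonneg_right (min_le_right _ _) (by linarith)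
  have tr1 : ∀ l : T, πT l = true → X.Ext (min δ d * N) w := by
    intro l hl
    obtain ⟨v, _, hv, _, hin⟩ := facT_ne X (h2 l)
    have hgd := hf l v hv
    obtain ⟨⟨s, hs, hs1⟩, ⟨t, ht, ht1⟩, _⟩ := X.In_box v w (hin.2 hl)
    refine ⟨s, hs, t, ht, Or.inl ?_⟩
    have e1 := hgd.e01 hN
    have hs1' : (s.1 : ℝ) ≤ S.ht v 0 := by exact_mod_cast hs1
    have ht1' : (S.ht v 1 : ℝ) ≤ t.1 := by exact_mod_cast ht1
    rw [abs_sub_comm]
    refine le_trans ?_ (le_abs_self _)
    linarith
  refine ⟨?_, ?_⟩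
  · rcases a with i | i
    · exact tr1 i ha
    rcases b with j | j
    · exact tr1 j hb
    have hij : i ≠ j := fun h => hab (by rw [h])
    have ha' : πP i = true := ha
    have hb' : πP j = true := hb
    obtain ⟨⟨s, hs, hs1⟩, ⟨t, ht, ht1⟩, _⟩ := X.ip_box w _ ((h1 i).2 ha')
    obtain ⟨⟨s', hs', hs1'⟩, ⟨t', ht', ht1'⟩, _⟩ := X.ip_box w _ ((h1 j).2 hb')
    have hd := hg.pp i j hij
    have c1 : (s.1 : ℝ) ≤ (x i).1 := by exact_mod_cast hs1
    have c2 : ((x i).1 : ℝ) ≤ t.1 := by exact_mod_cast ht1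
    have c3 : (s'.1 : ℝ) ≤ (x j).1 := by exact_mod_cast hs1'
    have c4 : ((x j).1 : ℝ) ≤ t'.1 := by exact_mod_cast ht1'
    rcases le_abs.1 hd with h3 | h3
    · refine ⟨s', hs', t, ht, Or.inl ?_⟩
      rw [abs_sub_comm]
      refine le_trans ?_ (le_abs_self _)
      linarith
    · refine ⟨s, hs, t', ht', Or.inl ?_⟩
      rw [abs_sub_comm]
      refine le_trans ?_ (le_abs_self _)
      linarith
  · by_contra hno
    have hp : ∀ l : T ⊕ P, ∃ p : Z2, |(p.1 : ℝ)| ≤ K * N ∧ |(p.2 : ℝ)| ≤ K * N ∧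
        (X.ip p w ↔ Sum.elim πT πP l = true) := by
      rintro (l | l)
      · obtain ⟨v, _, hv, _, hin⟩ := facT_ne X (h2 l)
        have hgd := hf l v hv
        refine ⟨(S.ht v 0, S.ht v 2), hgd.ht hN 0, hgd.ht hN 2, ?_⟩
        show X.ip _ w ↔ πT l = true
        rw [← hin]
        refine ((X.sep v w ?_).2).symm
        intro s hs hbox
        refine hno ⟨s, hs, ?_, ?_⟩
        · have h01 := S.le01 v
          refine site_pt hN (hgd.ht hN 0) (hgd.ht hN 1) ?_ ?_
          · rw [min_eq_left h01]; exact hbox.1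
          · rw [max_eq_right h01]; exact hbox.2.1
        · have h23 := S.le23 v
          refine site_pt hN (hgd.ht hN 2) (hgd.ht hN 3) ?_ ?_
          · rw [min_eq_left h23]; exact hbox.2.2.1
          · rw [max_eq_right h23]; exact hbox.2.2.2
      · exact ⟨x l, (hg.pt l).1, (hg.pt l).2, h1 l⟩
    obtain ⟨p, hp1, hp2, hp3⟩ := hp a
    obtain ⟨q, hq1, hq2, hq3⟩ := hp c
    obtain ⟨s, hs, k1, k2, k3, k4⟩ := X.ip_sep w p q (hp3.2 ha) (fun h0 => by simpa [hc] using hq3.1 h0)
    exact hno ⟨s, hs, site_pt hN hp1 hq1 k1 k2, site_pt hN hp2 hq2 k3 k4⟩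

variable {X} {n N : ℕ} {πT : T → Bool} {πP : P → Bool} {x : P → Z2} {g : X.W → ℝ} {K δ d W A β : ℝ}

open Classical in
/-- **one tracer function changed**: the difference is at most the mass of the large loops times the mass norms -/
lemma PG_diff (hN : 1 ≤ N) (hNT : NTg πT πP) (hgeo : GeoP N K d x) (hg : ∀ w, 0 ≤ g w)
    (hnt : X.near g (min δ d * N) ((K + 1) * N) 0 ≠ ⊤) (hnW : (X.near g (min δ d * N) ((K + 1) * N) 0).toReal ≤ W)
    (hA : 1 ≤ A) {f : T → S.P → ℝ} (hf : ∀ j, Okf S N K δ (f j)) (hT : ∀ j, Tn S n (f j) ≤ A) (i : T)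
    {h h' : S.P → ℝ} (ok : Okf S N K δ h) (ok' : Okf S N K δ h') (hβ : Tn S n (fun v => h v - h' v) ≤ β) :
    |PG X g n πT πP x (Function.update f i h) - PG X g n πT πP x (Function.update f i h')| ≤
      W * (β * A ^ Fintype.card T) := by
  have hβ0 : 0 ≤ β := (Tn_nn n _).trans hβ
  set c : X.W → ℝ := fun w => if ∀ l, X.ip (x l) w ↔ πP l = true then 1 else 0 with hc
  have hc1 : ∀ w, |c w| ≤ 1 := by
    intro w
    rw [hc]
    simp only
    split_ifs <;> simp
  -- the general bound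
  have key : ∀ (f' : T → S.P → ℝ) (β' : ℝ), (∀ j, Okf S N K δ (f' j)) → (∀ j, j ≠ i → Tn S n (f' j) ≤ A) →
      Tn S n (f' i) ≤ β' → (Summable fun w => g w * (c w * ∏ j, X.fac n w (πT j) (.inr (f' j)))) ∧
      |∑' w, g w * (c w * ∏ j, X.fac n w (πT j) (.inr (f' j)))| ≤
        (X.near g (min δ d * N) ((K + 1) * N) 0).toReal * (β' * A ^ Fintype.card T) := by
    intro f' β' hf' hA' hβ'
    have hβ0' : 0 ≤ β' := (Tn_nn n _).trans hβ'
    refine tsum_bd X hg hnt (H := fun w => c w * ∏ j, X.fac n w (πT j) (.inr (f' j))) (fun w => ?_) fun w hw => ?_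
    · have h1 := prod_le1 (c := fun j => X.fac n w (πT j) (.inr (f' j))) hA Finset.univ (Finset.mem_univ i)
        fun l _ hl => (fac_le X n w _ _).trans (hA' l hl)
      rw [Finset.card_univ] at h1
      rw [abs_mul]
      calc |c w| * |∏ j, X.fac n w (πT j) (.inr (f' j))| ≤
            1 * (|X.fac n w (πT i) (.inr (f' i))| * A ^ Fintype.card T) :=
            mul_le_mul (hc1 w) h1 (abs_nonneg _) zero_le_one
        _ ≤ β' * A ^ Fintype.card T := by
            rw [one_mul]
            exact mul_le_mul_of_nonneg_right ((fac_le X n w _ _).trans hβ') (by positivity)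
    · have h1 : ∀ l, X.ip (x l) w ↔ πP l = true := by
        by_contra h0
        apply hw
        rw [hc]
        simp only
        rw [if_neg h0, zero_mul]
      refine suppG X (n := n) hN hNT hgeo hf' w h1 fun j h0 => hw ?_
      rw [Finset.prod_eq_zero (Finset.mem_univ j) h0, mul_zero]
  have okU : ∀ (h : S.P → ℝ), Okf S N K δ h → ∀ j, Okf S N K δ (Function.update f i h j) := by
    intro h ok j
    by_cases hj : j = i
    · subst hj
      rw [Function.update_self]
      exact ok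
    · rw [Function.update_of_ne hj]
      exact hf j
  have TU : ∀ (h : S.P → ℝ) (j : T), j ≠ i → Tn S n (Function.update f i h j) ≤ A := by
    intro h j hj
    rw [Function.update_of_ne hj]
    exact hT j
  have okd : Okf S N K δ fun v => h v - h' v := by
    intro v hv
    by_cases h0 : h v = 0
    · refine ok' v fun h1 => hv ?_
      simp only [h0, h1, sub_zero]
    · exact ok v h0
  have s1 := (key (Function.update f i h) _ (okU h ok) (TU h) le_rfl).1
  have s2 := (key (Function.update f i h') _ (okU h' ok') (TU h') le_rfl).1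
  have s3 := (key (Function.update f i fun v => h v - h' v) β (okU _ okd) (TU _) (by
    rw [Function.update_self]
    exact hβ)).2
  have prodU : ∀ (h : S.P → ℝ) (w : X.W), ∏ j, X.fac n w (πT j) (.inr (Function.update f i h j)) =
      X.fac n w (πT i) (.inr h) * ∏ j ∈ Finset.univ.erase i, X.fac n w (πT j) (.inr (f j)) := by
    intro h w
    rw [← Finset.mul_prod_erase _ _ (Finset.mem_univ i), Function.update_self]
    congr 1
    refine Finset.prod_congr rfl fun j hj => ?_
    rw [Function.update_of_ne (Finset.ne_of_mem_erase hj)]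
  have e : PG X g n πT πP x (Function.update f i h) - PG X g n πT πP x (Function.update f i h') =
      ∑' w, g w * (c w * ∏ j, X.fac n w (πT j) (.inr (Function.update f i (fun v => h v - h' v) j))) := by
    unfold PG
    rw [← s1.tsum_sub s2]
    refine tsum_congr fun w => ?_
    have e2 := fac_add X n w (πT i) h (fun v => -1 * h' v)
    rw [fac_smul] at e2
    have e3 : (fun v => h v + -1 * h' v) = fun v => h v - h' v := by
      funext v
      ring
    rw [e3] at e2
    rw [prodU, prodU, prodU, e2]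
    ring
  rw [e]
  refine s3.trans (mul_le_mul_of_nonneg_right hnW (by positivity))

end Pool.Agent.ROT.U.St
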