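import Pool.Agent.ROT.XBackA
import Pool.Agent.ROT.UStep2
import Pool.Agent.ROT.UHex
import Pool.Agent.ROT.UiQ2

/-!
# UNIV, exact side: the row XBack (R4), part B: backward and forward differences (helper27)
-/

set_option autoImplicit false

open Finset Filter Topology

namespace Pool.Agent.ROT.U.St

open Pool.Agent.ROT.A (Z2 PSys)
open Pool.Agent.ROT.U
open Pool.Agent.ROT.A6 (HLs wr)
open Pool.Agent.ROT.E.Hx (MassU)

/-! ### the mass of the tracers with `q` -/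

open Classical in
lemma qm_one (hU : MassU) : ∃ C : ℝ, 0 < C ∧ ∀ (s : Fin 4) (N n : ℕ) (K δ : ℝ) (z : Z2), 1 ≤ N → 0 < δ →
    ∑ v ∈ (hexU.box n).filter (fun v => Gd hexU N K δ v ∧ hexU.co v = z), hexU.M v * hexU.Qf v s ≤
      C / (δ * N) ^ 2 := by
  obtain ⟨C, hC, h⟩ := uiS hU
  refine ⟨C, hC, fun s N n K δ z hN hδ => ?_⟩
  have hN0 : (0 : ℝ) < N := by exact_mod_cast hN
  have hδN : 0 < δ * N := by positivity
  have hn1 : 1 ≤ ⌈δ * N⌉ := Int.one_le_ceil_iff.2 hδN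
  have hn2 : δ * N ≤ (⌈δ * N⌉ : ℝ) := Int.le_ceil _
  set F := (hexU.box n).filter (fun v => Gd hexU N K δ v ∧ hexU.co v = z) with hF
  have e1 : ∑ v ∈ F, hexU.M v * hexU.Qf v s =
      ∑ p ∈ F.map (hexU.tr (-z)).toEmbedding, hexU.M p * hexU.Qf p s := by
    rw [Finset.sum_map]
    refine Finset.sum_congr rfl fun v _ => ?_
    show hexU.M v * hexU.Qf v s = hexU.M (hexU.tr (-z) v) * hexU.Qf (hexU.tr (-z) v) s
    rw [hexU.tr_M, hexU_rct.Q]
  rw [e1]
  have h1 := h s ⌈δ * N⌉ hn1 (F.map (hexU.tr (-z)).toEmbedding) (fun p hp => ?_)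
  · refine le_trans (Finset.sum_le_sum fun p _ => ?_) (h1.trans ?_)
    · show wr p * qx bb p.1 s ≤ wr p * m3 (qx bb p.1 s)
      exact mul_le_mul_of_nonneg_left (m3_ge (one_le_qb p.2 s)) (A6.wr_nn p)
    · refine div_le_div_of_nonneg_left hC.le (by positivity) ?_
      exact pow_le_pow_left₀ hδN.le hn2 2
  · rw [Finset.mem_map] at hp
    obtain ⟨v, hv, hpv⟩ := hp
    have hpv' : p = hexU.tr (-z) v := hpv.symm
    subst hpv'
    rw [hF, Finset.mem_filter] at hv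
    obtain ⟨_, hg, hz⟩ := hv
    obtain ⟨t0, t1, t2, t3⟩ := hexU.tr_ht (-z) v
    have hz1 : hexU.ht v 0 = z.1 := congrArg Prod.fst hz
    have hz2 : hexU.ht v 2 = z.2 := congrArg Prod.snd hz
    have g1 : ((-z).1 : ℤ) = -z.1 := rfl
    have g2 : ((-z).2 : ℤ) = -z.2 := rfl
    rw [g1] at t0 t1
    rw [g2] at t2 t3
    refine ⟨?_, ?_, Or.inl ?_⟩
    · show hexU.ht (hexU.tr (-z) v) 0 = 0
      rw [t0, hz1, add_neg_cancel]
    · show hexU.ht (hexU.tr (-z) v) 2 = 0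
      rw [t2, hz2, add_neg_cancel]
    · show ⌈δ * N⌉ ≤ hexU.ht (hexU.tr (-z) v) 1 - hexU.ht (hexU.tr (-z) v) 0
      rw [t0, t1]
      have e := hg.e01 hN
      rw [Int.ceil_le]
      push_cast
      linarith

open Classical in
/-- **the `q` mass** -/
lemma qm_gd (hU : MassU) : ∃ C : ℝ, 0 < C ∧ ∀ (s : Fin 4) (N n : ℕ) (K δ : ℝ), 1 ≤ N → 0 < δ →
    ∑ v ∈ (hexU.box n).filter (fun v => Gd hexU N K δ v), hexU.M v * hexU.Qf v s ≤
      (2 * |K| + 1) ^ 2 * (C / δ ^ 2) := by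
  obtain ⟨C, hC, h⟩ := qm_one hU
  refine ⟨C, hC, fun s N n K δ hN hδ => ?_⟩
  have hN0 : (0 : ℝ) < N := by exact_mod_cast hN
  have hN1 : (1 : ℝ) ≤ N := by exact_mod_cast hN
  set L : ℕ := ⌊|K| * N⌋₊ with hL
  have hL1 : (L : ℝ) ≤ |K| * N := Nat.floor_le (by positivity)
  set Z : Finset (ℤ × ℤ) := Finset.Icc (-(L : ℤ)) L ×ˢ Finset.Icc (-(L : ℤ)) L with hZ
  have hmap : ∀ v ∈ (hexU.box n).filter (fun v => Gd hexU N K δ v), hexU.co v ∈ Z := by
    intro v hv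
    have hg := (Finset.mem_filter.1 hv).2
    have key : ∀ c : ℤ, |(c : ℝ)| ≤ K * N → c ∈ Finset.Icc (-(L : ℤ)) L := by
      intro c hc
      have h1 : ((|c| : ℤ) : ℝ) ≤ |K| * N := by
        rw [Int.cast_abs]
        exact hc.trans (mul_le_mul_of_nonneg_right (le_abs_self K) hN0.le)
      have h2 : |c| ≤ (L : ℤ) := by
        have h3 : c.natAbs ≤ L := by
          refine Nat.le_floor ?_
          rw [← Int.cast_natCast, Int.natCast_natAbs]
          exact h1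
        rw [Int.abs_eq_natAbs]
        exact_mod_cast h3
      rw [abs_le] at h2
      exact Finset.mem_Icc.2 h2
    exact Finset.mem_product.2 ⟨key _ (hg.ht hN 0), key _ (hg.ht hN 2)⟩
  rw [← Finset.sum_fiberwise_of_maps_to hmap]
  have h1 : ∀ z ∈ Z, ∑ v ∈ ((hexU.box n).filter (fun v => Gd hexU N K δ v)).filter (fun v => hexU.co v = z),
      hexU.M v * hexU.Qf v s ≤ C / (δ * N) ^ 2 := by
    intro z _
    rw [Finset.filter_filter]
    exact h s N n K δ z hN hδ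
  refine (Finset.sum_le_sum h1).trans ?_
  rw [Finset.sum_const, nsmul_eq_mul]
  have hcard : (Z.card : ℝ) ≤ (2 * |K| + 1) ^ 2 * (N : ℝ) ^ 2 := by
    rw [hZ, Finset.card_product, Int.card_Icc]
    have e : ((L : ℤ) + 1 - -(L : ℤ)).toNat = 2 * L + 1 := by omega
    rw [e]
    push_cast
    have h2 : (2 * (L : ℝ) + 1) ≤ (2 * |K| + 1) * N := by nlinarith
    have h3 : (0 : ℝ) ≤ 2 * (L : ℝ) + 1 := by positivity
    nlinarith
  calc (Z.card : ℝ) * (C / (δ * N) ^ 2) ≤ ((2 * |K| + 1) ^ 2 * (N : ℝ) ^ 2) * (C / (δ * N) ^ 2) := by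
        refine mul_le_mul_of_nonneg_right hcard (by positivity)
    _ = (2 * |K| + 1) ^ 2 * (C / δ ^ 2) := by
        field_simp

/-- **the mass norm of a function bounded by a multiple of `q`** -/
lemma qm_Tn (hU : MassU) (K : ℝ) {δ : ℝ} (hδ : 0 < δ) : ∃ C : ℝ, 0 ≤ C ∧ ∀ (s : Fin 4) (N n : ℕ) (f : HLs → ℝ)
    (B : ℝ), 1 ≤ N → 0 ≤ B → Okf hexU N K δ f → (∀ v : hexU.P, |f v| ≤ B * hexU.Qf v s) → Tn hexU n f ≤ B * C := by
  classical
  obtain ⟨C, hC, h⟩ := qm_gd hU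
  refine ⟨(2 * |K| + 1) ^ 2 * (C / δ ^ 2), by positivity, fun s N n f B hN hB hf hfB => ?_⟩
  have h3 : Tn hexU n f = ∑ v ∈ (hexU.box n).filter (fun v => Gd hexU N K δ v), hexU.M v * |f v| := by
    rw [Tn]
    refine (Finset.sum_subset (Finset.filter_subset _ _) fun v hv hv' => ?_).symm
    have : f v = 0 := by
      by_contra h0
      exact hv' (Finset.mem_filter.2 ⟨hv, hf v h0⟩)
    rw [this, abs_zero, mul_zero]
  rw [h3]
  calc ∑ v ∈ (hexU.box n).filter (fun v => Gd hexU N K δ v), hexU.M v * |f v| ≤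
        ∑ v ∈ (hexU.box n).filter (fun v => Gd hexU N K δ v), B * (hexU.M v * hexU.Qf v s) :=
        Finset.sum_le_sum fun v _ => by
          have := mul_le_mul_of_nonneg_left (hfB v) (hexU.M_nn v)
          linarith
    _ = B * ∑ v ∈ (hexU.box n).filter (fun v => Gd hexU N K δ v), hexU.M v * hexU.Qf v s := by
        rw [← Finset.mul_sum]
    _ ≤ B * ((2 * |K| + 1) ^ 2 * (C / δ ^ 2)) := mul_le_mul_of_nonneg_left (h s N n K δ hN hδ) hB

/-! ### backward differences -/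

/-- the response of the left and of the top side with backward differences -/
noncomputable def rB (N : ℕ) (G : (Fin 4 → ℝ) → ℝ) (v : hexU.P) : ℝ :=
  -(hexU.Qf v 0 - 1) * (G (hexU.hN N v) - G (hexU.hN N v - Pi.single 0 (1 / (N : ℝ)))) +
    hexU.Cf v 3 * (G (hexU.hN N v) - G (hexU.hN N v - Pi.single 3 (1 / (N : ℝ))))

/-- the support of a function shifted back -/
lemma sup_back {N : ℕ} {K δ κ d : ℝ} {g : (Fin 4 → ℝ) → ℝ} (hs : Sml N δ κ d)
    (hsup : ∀ y, g y ≠ 0 → (∀ u, |y u| ≤ K) ∧ δ ≤ y 1 - y 0 ∧ δ ≤ y 3 - y 2) (u : Fin 4) (y : Fin 4 → ℝ)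
    (h : g (y - Pi.single u (1 / (N : ℝ))) ≠ 0) :
    (∀ u, |y u| ≤ K + 1) ∧ δ / 2 ≤ y 1 - y 0 ∧ δ / 2 ≤ y 3 - y 2 := by
  have ht : (0 : ℝ) ≤ 1 / N := by positivity
  have h1 := hs.le1
  have h2 := hs.dl
  obtain ⟨a1, a2, a3⟩ := hsup _ h
  simp only [Pi.sub_apply] at a1 a2 a3
  refine ⟨fun u' => ?_, ?_, ?_⟩
  · have b := abs_le.1 (a1 u')
    have c := single_apply_le (u := u) (u' := u') ht
    rw [abs_le]
    constructor <;> linarith [b.1, b.2, c.1, c.2]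
  · linarith [(single_apply_le (u := u) (u' := 1) ht).1, (single_apply_le (u := u) (u' := 0) ht).2]
  · linarith [(single_apply_le (u := u) (u' := 3) ht).1, (single_apply_le (u := u) (u' := 2) ht).2]

lemma dd_le {N : ℕ} {K δ Λ : ℝ} {g : (Fin 4 → ℝ) → ℝ} (hg : Tf1 K δ Λ g) (u : Fin 4) (y : Fin 4 → ℝ) :
    |(g y - g (y - Pi.single u (1 / (N : ℝ)))) - D1 N u g y| ≤ Λ / (N : ℝ) ^ 2 := by
  have h1 := hg.lip2 (y - Pi.single u (1 / (N : ℝ))) (Pi.single u (1 / (N : ℝ))) (Pi.single u (1 / (N : ℝ)))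
  rw [norm_sg, abs_of_nonneg (by positivity : (0 : ℝ) ≤ 1 / N), sub_add_cancel] at h1
  have e : (g y - g (y - Pi.single u (1 / (N : ℝ)))) - D1 N u g y =
      -(g (y + Pi.single u (1 / (N : ℝ))) - g y - g y + g (y - Pi.single u (1 / (N : ℝ)))) := by
    rw [D1]
    ring
  rw [e, abs_neg]
  refine h1.trans (le_of_eq ?_)
  ring

open Classical in
/-- **backward against forward differences** -/
theorem back_core {X : WSys hexU} (hX : X.Near) (hU : MassU) {T P : Type} [Fintype T] (πT : T → Bool)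
    (πP : P → Bool) {K δ Λ d ε : ℝ} (hNT : NTg πT πP) (hK : 0 ≤ K) (hδ : 0 < δ) (hd : 0 < d) (hε : 0 < ε) :
    ∀ᶠ N : ℕ in atTop, ∀ (k : ℤ) (n : ℕ) (G : T → (Fin 4 → ℝ) → ℝ) (x : P → Z2), GeoP N K d x →
    (∀ i, Tf1 K δ Λ (G i)) → ∀ i : T,
    |PG X (X.wt k) n πT πP x (Function.update (fun i v => G i (hexU.hN N v)) i (rB N (G i))) -
      PG X (X.wt k) n πT πP x (Function.update (fun i v => G i (hexU.hN N v)) i (WSys.rL hexU N (G i)))| ≤ ε / N := by
  obtain ⟨W, hW0, hW⟩ := near_big X hX (d := min (δ / 2) (d / 2)) (R := K + 1 + 1) (by positivity) (by positivity)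
  obtain ⟨C, hC0, hC⟩ := qm_Tn hU (K + 1) (half_pos hδ)
  set A : ℝ := 1 + |Λ| * C with hA
  have hA1 : 1 ≤ A := by
    have : 0 ≤ |Λ| * C := by positivity
    linarith
  set Ct : ℝ := W * (2 * |Λ| * C * A ^ Fintype.card T) with hCt
  obtain ⟨N1, hN1⟩ := exists_nat_ge (Ct / ε)
  filter_upwards [hW, ev_sml hδ hδ hd, eventually_ge_atTop N1] with N hW hs hNN k n G x hgeo hG i
  have hNp := hs.pos
  have hΛ : 0 ≤ Λ := Tf1.Lnn (hG i)
  have hgeo' : GeoP N (K + 1) (d / 2) x := ⟨fun l => ⟨(hgeo.pt l).1.trans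
    (mul_le_mul_of_nonneg_right (by linarith) (Nat.cast_nonneg _)), (hgeo.pt l).2.trans
    (mul_le_mul_of_nonneg_right (by linarith) (Nat.cast_nonneg _))⟩, fun l l' hl =>
    (mul_le_mul_of_nonneg_right (by linarith) (Nat.cast_nonneg _)).trans (hgeo.pp l l' hl)⟩
  have hf : ∀ j, Okf hexU N (K + 1) (δ / 2) fun v => G j (hexU.hN N v) := fun j =>
    okf_of (g := G j) (fun _ h0 => h0) fun y hy => sup_mono hδ.le (hG j).sup y hy
  have hT : ∀ j, Tn hexU n (fun v => G j (hexU.hN N v)) ≤ A := by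
    intro j
    refine (hC 0 N n _ |Λ| hs.n1 (abs_nonneg _) (hf j) fun v => ?_).trans (by rw [hA]; linarith)
    have h1 := ((hG j).bd (hexU.hN N v)).trans (le_abs_self _)
    have h2 := hexU_Qge v 0
    nlinarith [abs_nonneg Λ]
  have okD : ∀ u : Fin 4, ∀ v : hexU.P, D1 N u (G i) (hexU.hN N v) ≠ 0 → Gd hexU N (K + 1) (δ / 2) v := by
    intro u v hv
    rcases D1_ne (N := N) hv with h1 | h1
    · exact sup_shift hs (hG i).sup u _ h1
    · exact sup_mono hδ.le (hG i).sup _ h1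
  have okB : ∀ u : Fin 4, ∀ v : hexU.P, G i (hexU.hN N v) - G i (hexU.hN N v - Pi.single u (1 / (N : ℝ))) ≠ 0 →
      Gd hexU N (K + 1) (δ / 2) v := by
    intro u v hv
    by_cases h1 : G i (hexU.hN N v) = 0
    · refine sup_back hs (hG i).sup u _ fun h2 => hv ?_
      rw [h1, h2, sub_zero]
    · exact sup_mono hδ.le (hG i).sup _ h1
  have ok1 : Okf hexU N (K + 1) (δ / 2) (rB N (G i)) := by
    intro v hv
    by_contra hno
    apply hv
    have h1 : G i (hexU.hN N v) - G i (hexU.hN N v - Pi.single 0 (1 / (N : ℝ))) = 0 := by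
      by_contra h0
      exact hno (okB 0 v h0)
    have h2 : G i (hexU.hN N v) - G i (hexU.hN N v - Pi.single 3 (1 / (N : ℝ))) = 0 := by
      by_contra h0
      exact hno (okB 3 v h0)
    rw [rB, h1, h2]
    ring
  have ok2 : Okf hexU N (K + 1) (δ / 2) (WSys.rL hexU N (G i)) := by
    intro v hv
    by_contra hno
    apply hv
    have h1 : D1 N 0 (G i) (hexU.hN N v) = 0 := by
      by_contra h0
      exact hno (okD 0 v h0)
    have h2 : D1 N 3 (G i) (hexU.hN N v) = 0 := by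
      by_contra h0
      exact hno (okD 3 v h0)
    rw [WSys.rL, h1, h2]
    ring
  have hβ : Tn hexU n (fun v => rB N (G i) v - WSys.rL hexU N (G i) v) ≤ 2 * |Λ| / (N : ℝ) ^ 2 * C := by
    refine hC 0 N n _ _ hs.n1 (by positivity) ?_ fun v => ?_
    · intro v hv
      by_cases h0 : rB N (G i) v = 0
      · refine ok2 v fun h1 => hv ?_
        simp only [h0, h1, sub_zero]
      · exact ok1 v h0
    · have a0 := dd_le (N := N) (hG i) 0 (hexU.hN N v)
      have a3 := dd_le (N := N) (hG i) 3 (hexU.hN N v)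
      have q0 := hexU_Qge v 0
      have c0 := hexU.C_nn v 3
      have c1 := hexU_Cle v 3
      rw [rB, WSys.rL]
      set p := G i (hexU.hN N v) - G i (hexU.hN N v - Pi.single 0 (1 / (N : ℝ)))
      set p' := G i (hexU.hN N v) - G i (hexU.hN N v - Pi.single 3 (1 / (N : ℝ)))
      set r := D1 N 0 (G i) (hexU.hN N v)
      set r' := D1 N 3 (G i) (hexU.hN N v)
      have e : -(hexU.Qf v 0 - 1) * p + hexU.Cf v 3 * p' - (-(hexU.Qf v 0 - 1) * r + hexU.Cf v 3 * r') =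
          -(hexU.Qf v 0 - 1) * (p - r) + hexU.Cf v 3 * (p' - r') := by ring
      rw [e]
      refine (abs_add_le _ _).trans ?_
      rw [abs_mul, abs_mul, abs_neg, abs_of_nonneg (by linarith : 0 ≤ hexU.Qf v 0 - 1), abs_of_nonneg c0,
        abs_of_nonneg hΛ]
      have hq : 0 ≤ Λ / (N : ℝ) ^ 2 := by positivity
      have t1 := mul_le_mul_of_nonneg_left a0 (by linarith : 0 ≤ hexU.Qf v 0 - 1)
      have t2 := mul_le_mul c1 a3 (abs_nonneg _) zero_le_one
      have e2 : 2 * Λ / (N : ℝ) ^ 2 * hexU.Qf v 0 = 2 * (Λ / (N : ℝ) ^ 2) * hexU.Qf v 0 := by ring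
      rw [e2]
      nlinarith
  have hmain := PG_diff (X := X) (n := n) (πT := πT) (πP := πP) (x := x) hs.n1 hNT hgeo' (X.wt_nn k) (hW k).1 (hW k).2
    hA1 hf hT i ok1 ok2 hβ
  refine (le_of_eq ?_).trans (hmain.trans ?_)
  · congr 1
  · have e : W * (2 * |Λ| / (N : ℝ) ^ 2 * C * A ^ Fintype.card T) = Ct / (N : ℝ) ^ 2 := by
      rw [hCt]
      ring
    rw [e]
    have h7 : Ct / ε ≤ N := hN1.trans (by exact_mod_cast hNN)
    rw [div_le_iff₀ hε] at h7
    rw [div_le_div_iff₀ (by positivity) hNp]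
    nlinarith

end Pool.Agent.ROT.U.St
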