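import Mathlib

/-!
# UNIV, exact side (helper65): linearization of a function of the heights

`f : (P → ℤ) → ℝ`, `P` finite, `D2` = a bound of the mixed second differences with steps at most one.

* `lin_a` : the first difference in one coordinate at two close points;
* `lin_b` : `f x - f y` = the sum of the changes of one coordinate at a time, up to `|P| ^ 2 D2`;
* **`lin`** : `f x + SUM_p c_p (f x - f (x_p -> x_p + e_p))` against the sum of the functionals of one coordinate.
-/

set_option autoImplicit false

namespace Pool.Agent.ROT.X.Bl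

section

variable {P : Type} [DecidableEq P]

/-- **the mixed second differences with steps at most one are at most `D2`** -/
def Sd (f : (P → ℤ) → ℝ) (D2 : ℝ) : Prop :=
  ∀ (z : P → ℤ) (p q : P), p ≠ q → ∀ a b : ℤ, |a - z p| ≤ 1 → |b - z q| ≤ 1 →
    |f z - f (Function.update z p a) - (f (Function.update z q b) - f (Function.update (Function.update z q b) p a))| ≤ D2

variable {f : (P → ℤ) → ℝ} {D2 : ℝ} {x y : P → ℤ}

/-- the difference in the coordinate `p` at two close points -/
theorem lin_a (h2 : Sd f D2) (hxy : ∀ p, |x p - y p| ≤ 1) (p : P) (a : ℤ) (ha : |a - y p| ≤ 1) (s : Finset P) (hs : p ∉ s) :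
    |(f (s.piecewise x y) - f (Function.update (s.piecewise x y) p a)) - (f y - f (Function.update y p a))| ≤ s.card * D2 := by
  induction s using Finset.induction_on with
  | empty => simp
  | @insert q s hq ih =>
    have hps : p ∉ s := fun h => hs (Finset.mem_insert_of_mem h)
    have hpq : p ≠ q := fun h => hs (by rw [h]; exact Finset.mem_insert_self _ _)
    have e : (insert q s).piecewise x y = Function.update (s.piecewise x y) q (x q) := Finset.piecewise_insert ..
    have zp : s.piecewise x y p = y p := Finset.piecewise_eq_of_notMem _ _ _ hps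
    have zq : s.piecewise x y q = y q := Finset.piecewise_eq_of_notMem _ _ _ hq
    have h := h2 (s.piecewise x y) p q hpq a (x q) (by rw [zp]; exact ha) (by rw [zq]; exact hxy q)
    rw [e, Finset.card_insert_of_notMem hq]
    push_cast
    have h' := ih hps
    rw [abs_le] at h h' ⊢
    constructor <;> linarith [h.1, h.2, h'.1, h'.2]

theorem lin_b (h2 : Sd f D2) (hD : 0 ≤ D2) (hxy : ∀ p, |x p - y p| ≤ 1) (s : Finset P) :
    |f (s.piecewise x y) - f y - ∑ p ∈ s, (f (Function.update y p (x p)) - f y)| ≤ (s.card : ℝ) ^ 2 * D2 := by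
  induction s using Finset.induction_on with
  | empty => simp
  | @insert q s hq ih =>
    have e : (insert q s).piecewise x y = Function.update (s.piecewise x y) q (x q) := Finset.piecewise_insert ..
    have h := lin_a h2 hxy q (x q) (hxy q) s hq
    rw [e, Finset.card_insert_of_notMem hq, Finset.sum_insert hq]
    push_cast
    have hc : (0 : ℝ) ≤ s.card := Nat.cast_nonneg _
    have h3 : 0 ≤ (s.card : ℝ) * D2 := mul_nonneg hc hD
    rw [abs_le] at h ih ⊢
    constructor <;> nlinarith [h.1, h.2, ih.1, ih.2]

variable [Fintype P]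

/-- the functional of one coordinate -/
def Ap (g : ℤ → ℝ) (c : ℝ) (ε m : ℤ) : ℝ := g m + c * (g m - g (m + ε))

/-- **the functional** -/
def Af (f : (P → ℤ) → ℝ) (c : P → ℝ) (ε x : P → ℤ) : ℝ :=
  f x + ∑ p, c p * (f x - f (Function.update x p (x p + ε p)))

/-- **linearization at `y`** -/
theorem lin (h2 : Sd f D2) (hD : 0 ≤ D2) (hxy : ∀ p, |x p - y p| ≤ 1) (c : P → ℝ) (ε : P → ℤ) (hε : ∀ p, |ε p| ≤ 1) :
    |Af f c ε x - (f y + ∑ p, (Ap (fun m => f (Function.update y p m)) (c p) (ε p) (x p) - f y))| ≤
      (Fintype.card P : ℝ) ^ 2 * (1 + ∑ p, |c p|) * D2 := by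
  have h1 := lin_b h2 hD hxy Finset.univ
  rw [Finset.piecewise_univ, Finset.card_univ] at h1
  have h3 : ∀ p : P, |(f x - f (Function.update x p (x p + ε p))) -
      (f (Function.update y p (x p)) - f (Function.update y p (x p + ε p)))| ≤ (Fintype.card P : ℝ) * D2 := by
    intro p
    have hy : ∀ q, |x q - Function.update y p (x p) q| ≤ 1 := by
      intro q
      by_cases h : q = p
      · subst h; simp
      · rw [Function.update_of_ne h]; exact hxy q
    have h := lin_a h2 hy p (x p + ε p) (by rw [Function.update_self]; simpa using hε p) (Finset.univ.erase p)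
      (Finset.notMem_erase p _)
    have e : (Finset.univ.erase p).piecewise x (Function.update y p (x p)) = x := by
      funext q
      by_cases h : q = p
      · subst h
        rw [Finset.piecewise_eq_of_notMem _ _ _ (Finset.notMem_erase _ _), Function.update_self]
      · rw [Finset.piecewise_eq_of_mem _ _ _ (Finset.mem_erase.2 ⟨h, Finset.mem_univ _⟩)]
    rw [e, Function.update_idem] at h
    refine h.trans (mul_le_mul_of_nonneg_right ?_ hD)
    exact_mod_cast Finset.card_le_univ _
  have e : Af f c ε x - (f y + ∑ p, (Ap (fun m => f (Function.update y p m)) (c p) (ε p) (x p) - f y)) =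
      (f x - f y - ∑ p, (f (Function.update y p (x p)) - f y)) + ∑ p, c p * ((f x - f (Function.update x p (x p + ε p))) -
        (f (Function.update y p (x p)) - f (Function.update y p (x p + ε p)))) := by
    simp only [Af, Ap, mul_sub, Finset.sum_add_distrib, Finset.sum_sub_distrib]
    ring
  rw [e]
  refine (abs_add_le _ _).trans ?_
  have h4 : |∑ p, c p * ((f x - f (Function.update x p (x p + ε p))) -
        (f (Function.update y p (x p)) - f (Function.update y p (x p + ε p))))| ≤ ∑ p, |c p| * ((Fintype.card P : ℝ) * D2) := by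
    refine (Finset.abs_sum_le_sum_abs _ _).trans (Finset.sum_le_sum fun p _ => ?_)
    rw [abs_mul]
    exact mul_le_mul_of_nonneg_left (h3 p) (abs_nonneg _)
  have h5 : ∑ p, |c p| * ((Fintype.card P : ℝ) * D2) ≤ (Fintype.card P : ℝ) ^ 2 * (∑ p, |c p|) * D2 := by
    rw [← Finset.sum_mul]
    have hs : 0 ≤ ∑ p, |c p| := Finset.sum_nonneg fun p _ => abs_nonneg _
    have hn : (Fintype.card P : ℝ) ≤ (Fintype.card P : ℝ) ^ 2 := by
      have : Fintype.card P ≤ Fintype.card P ^ 2 := Nat.le_self_pow (by norm_num) _
      exact_mod_cast this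
    calc (∑ p, |c p|) * ((Fintype.card P : ℝ) * D2) ≤ (∑ p, |c p|) * ((Fintype.card P : ℝ) ^ 2 * D2) :=
          mul_le_mul_of_nonneg_left (mul_le_mul_of_nonneg_right hn hD) hs
      _ = _ := by ring
  calc _ ≤ (Fintype.card P : ℝ) ^ 2 * D2 + (Fintype.card P : ℝ) ^ 2 * (∑ p, |c p|) * D2 := add_le_add h1 (h4.trans h5)
    _ = _ := by ring

/-- the linearization is exact at `y` -/
theorem lin_self (c : P → ℝ) (ε : P → ℤ) :
    Af f c ε y = f y + ∑ p, (Ap (fun m => f (Function.update y p m)) (c p) (ε p) (y p) - f y) := by
  simp only [Af, Ap, Function.update_eq_self]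
  congr 1
  refine Finset.sum_congr rfl fun p _ => ?_
  ring

end

end Pool.Agent.ROT.X.Bl
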