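import Pool.Agent.ROT.XRow
import Pool.Agent.ROT.XLin

/-!
# UNIV, exact side (helper65): the inequality of a row for a functional of the heights

`CS` = the sum over a class.  **`row_lin`**: the functionals `Af` (`ROT/XLin`) of the heights `x t γ` with coefficients
`c t γ` in the graphs `t = 1` (crossing above the row `r`) and `t = 2` (below), times a class constant `χ`.  `y γ` = class
constant heights, `Al` = the linearization at `y` without the coordinates `bd`; `bal` = for the coordinates which are not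
`bd`, the functional of one coordinate has the same class sums in both graphs.  Then the two sums over all families differ at
most by the sum over both sides of `|weight| |χ|` times the bound `E` of `|Af - Al|`.  `Al_err`: `|Af - Al| ≤ Er`.
-/

set_option autoImplicit false

namespace Pool.Agent.ROT.X.Bl

open Pool.Agent.EXL (Wt YB)
open Pool.Agent.YBC (Dir)
open Pool.Agent.ROT.E (Cell IsUn Pt)
open Pool.Agent.ROT.L

noncomputable section

variable {I : Type} {j r : ℤ} {t t' : Fin 3} {γ γ' : FX I}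

/-! ### sums over a class -/

open Classical in
/-- the sum over the class of `γ` in the graph `t'` -/
def CS (j r : ℤ) (t t' : Fin 3) (γ : FX I) (F : FX I → ℝ) : ℝ :=
  ∑' γ' : FX I, if Eq6 (Rg j r) (Gt j r t) (Gt j r t') γ γ' then F γ' else 0

theorem cls_finite (f : Fam (Gt j r t) γ) (g : Gd (Rg j r) γ) (t' : Fin 3) :
    {γ' : FX I | Eq6 (Rg j r) (Gt j r t) (Gt j r t') γ γ'}.Finite := by
  obtain ⟨q, h⟩ := cls f g
  obtain ⟨e, -⟩ := h t'
  exact Set.finite_coe_iff.1 (Finite.of_equiv _ e.symm)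

open Classical in
theorem CS_eq (f : Fam (Gt j r t) γ) (g : Gd (Rg j r) γ) (F : FX I → ℝ) :
    CS j r t t' γ F = ∑ γ' ∈ (cls_finite f g t').toFinset, F γ' := by
  rw [CS, tsum_eq_sum (s := (cls_finite f g t').toFinset)]
  · refine Finset.sum_congr rfl fun γ' h => ?_
    rw [Set.Finite.mem_toFinset] at h
    exact if_pos h
  · intro γ' h
    rw [Set.Finite.mem_toFinset] at h
    exact if_neg h

theorem CS_congr {F G : FX I → ℝ} (h : ∀ γ', Eq6 (Rg j r) (Gt j r t) (Gt j r t') γ γ' → F γ' = G γ') :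
    CS j r t t' γ F = CS j r t t' γ G := by
  classical
  refine tsum_congr fun γ' => ?_
  by_cases e : Eq6 (Rg j r) (Gt j r t) (Gt j r t') γ γ'
  · rw [if_pos e, if_pos e, h γ' e]
  · rw [if_neg e, if_neg e]

theorem CS_add (f : Fam (Gt j r t) γ) (g : Gd (Rg j r) γ) (F G : FX I → ℝ) :
    CS j r t t' γ (fun γ' => F γ' + G γ') = CS j r t t' γ F + CS j r t t' γ G := by
  rw [CS_eq f g, CS_eq f g, CS_eq f g, Finset.sum_add_distrib]

theorem CS_mul (f : Fam (Gt j r t) γ) (g : Gd (Rg j r) γ) (a : ℝ) (F : FX I → ℝ) :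
    CS j r t t' γ (fun γ' => a * F γ') = a * CS j r t t' γ F := by
  rw [CS_eq f g, CS_eq f g, Finset.mul_sum]

theorem CS_sum (f : Fam (Gt j r t) γ) (g : Gd (Rg j r) γ) {P : Type} (s : Finset P) (F : P → FX I → ℝ) :
    CS j r t t' γ (fun γ' => ∑ p ∈ s, F p γ') = ∑ p ∈ s, CS j r t t' γ (F p) := by
  rw [CS_eq f g, Finset.sum_comm]
  exact Finset.sum_congr rfl fun p _ => (CS_eq f g (F p)).symm

/-! ### the row -/

variable {P : Type} [Fintype P] [DecidableEq P]

/-- **the first differences with steps at most one are at most `D1`** -/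
def Fd (f : (P → ℤ) → ℝ) (D1 : ℝ) : Prop := ∀ (z : P → ℤ) (p : P) (a : ℤ), |a - z p| ≤ 1 → |f z - f (Function.update z p a)| ≤ D1

open Classical in
/-- **the bound of the error at a family** -/
def Er (D1 D2 : ℝ) (ac : Prop) (bd : P → Prop) (c : P → ℝ) : ℝ :=
  (Fintype.card P : ℝ) ^ 2 * (1 + ∑ p, |c p|) * (if ac then D2 else 0) + ∑ p, if bd p then (1 + |c p|) * D1 else 0

omit [DecidableEq P] in
theorem Er_nonneg {D1 D2 : ℝ} (h1 : 0 ≤ D1) (h2 : 0 ≤ D2) (ac : Prop) (bd : P → Prop) (c : P → ℝ) : 0 ≤ Er D1 D2 ac bd c := by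
  classical
  have hs : 0 ≤ ∑ p, |c p| := Finset.sum_nonneg fun p _ => abs_nonneg _
  refine add_nonneg (mul_nonneg (mul_nonneg (by positivity) (by linarith)) ?_) (Finset.sum_nonneg fun p _ => ?_)
  · split_ifs
    · exact h2
    · exact le_rfl
  · split_ifs
    · exact mul_nonneg (by linarith [abs_nonneg (c p)]) h1
    · exact le_rfl

open Classical in
/-- the linearized functional without the bad coordinates -/
def Al (f : (P → ℤ) → ℝ) (c : P → ℝ) (ε x y : P → ℤ) (bd : P → Prop) : ℝ :=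
  f y + ∑ p, if bd p then 0 else Ap (fun m => f (Function.update y p m)) (c p) (ε p) (x p) - f y

theorem Al_err {f : (P → ℤ) → ℝ} {D1 D2 : ℝ} (h1 : Fd f D1) (h2 : Sd f D2) (hD2 : 0 ≤ D2) {x y : P → ℤ}
    (hxy : ∀ p, |x p - y p| ≤ 1) (c : P → ℝ) {ε : P → ℤ} (hε : ∀ p, |ε p| ≤ 1) {ac : Prop} (hac : ¬ ac → x = y) (bd : P → Prop) :
    |Af f c ε x - Al f c ε x y bd| ≤ Er D1 D2 ac bd c := by
  classical
  have e1 : Af f c ε x - Al f c ε x y bd =
      (Af f c ε x - (f y + ∑ p, (Ap (fun m => f (Function.update y p m)) (c p) (ε p) (x p) - f y))) +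
        ∑ p, if bd p then Ap (fun m => f (Function.update y p m)) (c p) (ε p) (x p) - f y else 0 := by
    have e2 : ∑ p, (Ap (fun m => f (Function.update y p m)) (c p) (ε p) (x p) - f y) =
        (∑ p, if bd p then 0 else Ap (fun m => f (Function.update y p m)) (c p) (ε p) (x p) - f y) +
          ∑ p, if bd p then Ap (fun m => f (Function.update y p m)) (c p) (ε p) (x p) - f y else 0 := by
      rw [← Finset.sum_add_distrib]
      refine Finset.sum_congr rfl fun p _ => ?_
      split_ifs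
      · rw [zero_add]
      · rw [add_zero]
    rw [Al, e2]
    ring
  rw [e1]
  refine (abs_add_le _ _).trans (add_le_add ?_ ?_)
  · by_cases h : ac
    · rw [if_pos h]
      exact lin h2 hD2 hxy c ε hε
    · rw [if_neg h, mul_zero, hac h, lin_self, sub_self, abs_zero]
  · refine (Finset.abs_sum_le_sum_abs _ _).trans (Finset.sum_le_sum fun p _ => ?_)
    split_ifs
    · have k1 := h1 (Function.update y p (x p)) p (y p) (by rw [Function.update_self, abs_sub_comm]; exact hxy p)
      have k2 := h1 (Function.update y p (x p)) p (x p + ε p) (by rw [Function.update_self]; simpa using hε p)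
      rw [Function.update_idem] at k1 k2
      rw [Function.update_eq_self] at k1
      have e3 : Ap (fun m => f (Function.update y p m)) (c p) (ε p) (x p) - f y = (f (Function.update y p (x p)) - f y) +
          c p * (f (Function.update y p (x p)) - f (Function.update y p (x p + ε p))) := by
        simp only [Ap]
        ring
      rw [e3]
      refine (abs_add_le _ _).trans ?_
      rw [abs_mul, add_mul, one_mul]
      exact add_le_add k1 (mul_le_mul_of_nonneg_left k2 (abs_nonneg _))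
    · rw [abs_zero]

open Classical in
/-- **the inequality of the row** -/
theorem row_lin {f : (P → ℤ) → ℝ} {W : Fin 3 → VX → Wt ℝ} {x : Fin 3 → FX I → P → ℤ} {c : Fin 3 → FX I → P → ℝ} {ε : P → ℤ}
    {y : FX I → P → ℤ} {χ : FX I → ℝ} {bd : FX I → P → Prop} {E : Fin 3 → FX I → ℝ}
    (hE : ∀ (t : Fin 3) (γ : FX I), t ≠ 0 → Fam (Gt j r t) γ → χ γ ≠ 0 →
      |Af f (c t γ) ε (x t γ) - Al f (c t γ) ε (x t γ) (y γ) (bd γ)| ≤ E t γ)
    (cst : ∀ (t t' : Fin 3) (γ γ' : FX I), t ≠ 0 → t' ≠ 0 → Eq6 (Rg j r) (Gt j r t) (Gt j r t') γ γ' →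
      χ γ = χ γ' ∧ y γ = y γ' ∧ bd γ = bd γ')
    (yb : ∀ (t : Fin 3) (γ : FX I), t ≠ 0 → Fam (Gt j r t) γ → Gd (Rg j r) γ →
      CS j r t 1 γ (WX (W 1)) = CS j r t 2 γ (WX (W 2)))
    (bal : ∀ (t : Fin 3) (γ : FX I), t ≠ 0 → Fam (Gt j r t) γ → Gd (Rg j r) γ → ∀ p, ¬ bd γ p → ∀ g : ℤ → ℝ,
      CS j r t 1 γ (fun γ' => WX (W 1) γ' * Ap g (c 1 γ' p) (ε p) (x 1 γ' p)) =
        CS j r t 2 γ (fun γ' => WX (W 2) γ' * Ap g (c 2 γ' p) (ε p) (x 2 γ' p)))
    (fin : {γ | χ γ ≠ 0}.Finite) (gd : ∀ γ, χ γ ≠ 0 → Gd (Rg j r) γ) :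
    |∑' γ : FX I, (if Fam (gX j (r + 1)) γ then WX (W 1) γ * (χ γ * Af f (c 1 γ) ε (x 1 γ)) else 0) -
      ∑' γ : FX I, (if Fam (gX j r) γ then WX (W 2) γ * (χ γ * Af f (c 2 γ) ε (x 2 γ)) else 0)| ≤
      ∑' γ : FX I, (if Fam (gX j (r + 1)) γ then |WX (W 1) γ| * (|χ γ| * E 1 γ) else 0) +
        ∑' γ : FX I, (if Fam (gX j r) γ then |WX (W 2) γ| * (|χ γ| * E 2 γ) else 0) := by
  set L : Fin 3 → FX I → ℝ := fun t γ => Al f (c t γ) ε (x t γ) (y γ) (bd γ) with hL
  have key : ∑' γ : FX I, (if Fam (gX j (r + 1)) γ then WX (W 1) γ * (χ γ * L 1 γ) else 0) =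
      ∑' γ : FX I, if Fam (gX j r) γ then WX (W 2) γ * (χ γ * L 2 γ) else 0 := by
    refine row_eq_of (fin.subset fun γ h => ?_) (fin.subset fun γ h => ?_) (fun γ h => gd γ ?_) (fun γ h => gd γ ?_) ?_
    · exact left_ne_zero_of_mul (right_ne_zero_of_mul h)
    · exact left_ne_zero_of_mul (right_ne_zero_of_mul h)
    · exact left_ne_zero_of_mul (right_ne_zero_of_mul h)
    · exact left_ne_zero_of_mul (right_ne_zero_of_mul h)
    · intro t γ ht hf hg
      have e : ∀ t' : Fin 3, t' ≠ 0 → CS j r t t' γ (fun γ' => WX (W t') γ' * (χ γ' * L t' γ')) =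
          χ γ * (f (y γ) * CS j r t t' γ (WX (W t')) + ∑ p, if bd γ p then 0 else
            CS j r t t' γ (fun γ' => WX (W t') γ' * Ap (fun m => f (Function.update (y γ) p m)) (c t' γ' p) (ε p) (x t' γ' p)) -
              f (y γ) * CS j r t t' γ (WX (W t'))) := by
        intro t' ht'
        have e1 : CS j r t t' γ (fun γ' => WX (W t') γ' * (χ γ' * L t' γ')) =
            CS j r t t' γ (fun γ' => χ γ * (f (y γ) * WX (W t') γ' + ∑ p, if bd γ p then 0 else
              (WX (W t') γ' * Ap (fun m => f (Function.update (y γ) p m)) (c t' γ' p) (ε p) (x t' γ' p) +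
                (-f (y γ)) * WX (W t') γ'))) := by
          refine CS_congr fun γ' h => ?_
          obtain ⟨c1, c2, c3⟩ := cst t t' γ γ' ht ht' h
          have e3 : ∀ p, (if bd γ p then (0 : ℝ) else
              (WX (W t') γ' * Ap (fun m => f (Function.update (y γ) p m)) (c t' γ' p) (ε p) (x t' γ' p) +
                (-f (y γ)) * WX (W t') γ')) = WX (W t') γ' * (if bd γ p then 0 else
                  Ap (fun m => f (Function.update (y γ) p m)) (c t' γ' p) (ε p) (x t' γ' p) - f (y γ)) := by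
            intro p
            split_ifs
            · rw [mul_zero]
            · ring
          simp only [e3]
          rw [← Finset.mul_sum, hL]
          simp only [Al]
          rw [← c1, ← c2, ← c3]
          ring
        rw [e1, CS_mul hf hg, CS_add hf hg, CS_mul hf hg, CS_sum hf hg]
        congr 2
        refine Finset.sum_congr rfl fun p _ => ?_
        by_cases hb : bd γ p
        · simp only [if_pos hb]
          have := CS_mul (t' := t') hf hg 0 (fun _ => (0 : ℝ))
          simpa using this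
        · simp only [if_neg hb]
          rw [CS_add hf hg, CS_mul hf hg]
          ring
      show CS j r t 1 γ (fun γ' => WX (W 1) γ' * (χ γ' * L 1 γ')) = CS j r t 2 γ (fun γ' => WX (W 2) γ' * (χ γ' * L 2 γ'))
      rw [e 1 (by decide), e 2 (by decide), yb t γ ht hf hg]
      congr 2
      refine Finset.sum_congr rfl fun p _ => ?_
      by_cases hb : bd γ p
      · rw [if_pos hb, if_pos hb]
      · rw [if_neg hb, if_neg hb, bal t γ ht hf hg p hb]
  have fs : ∀ (F : FX I → ℝ) (Q : FX I → Prop), (∀ γ, F γ ≠ 0 → χ γ ≠ 0) →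
      ∑' γ : FX I, (if Q γ then F γ else 0) = ∑ γ ∈ fin.toFinset, if Q γ then F γ else 0 := by
    intro F Q h
    refine tsum_eq_sum fun γ hγ => ?_
    rw [Set.Finite.mem_toFinset] at hγ
    by_contra h0
    apply hγ
    refine h γ fun h3 => h0 ?_
    rw [h3, ite_self]
  have bnd : ∀ (t : Fin 3) (_ : t ≠ 0) (γ : FX I), χ γ ≠ 0 → Fam (Gt j r t) γ → |WX (W t) γ * (χ γ * Af f (c t γ) ε (x t γ)) -
      WX (W t) γ * (χ γ * L t γ)| ≤ |WX (W t) γ| * (|χ γ| * E t γ) := by
    intro t ht γ hc hf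
    rw [← mul_sub, ← mul_sub, abs_mul, abs_mul]
    exact mul_le_mul_of_nonneg_left (mul_le_mul_of_nonneg_left (hE t γ ht hf hc) (abs_nonneg _)) (abs_nonneg _)
  have nz : ∀ (a : ℝ) {w b : ℝ}, w * (a * b) ≠ 0 → a ≠ 0 := fun a w b h => left_ne_zero_of_mul (right_ne_zero_of_mul h)
  have nz' : ∀ (a : ℝ) {w b : ℝ}, w * (|a| * b) ≠ 0 → a ≠ 0 := fun a w b h =>
    abs_ne_zero.1 (left_ne_zero_of_mul (right_ne_zero_of_mul h))
  have one : ∀ (t : Fin 3) (_ : t ≠ 0), |∑' γ : FX I, (if Fam (Gt j r t) γ then WX (W t) γ * (χ γ * Af f (c t γ) ε (x t γ)) else 0) -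
      ∑' γ : FX I, (if Fam (Gt j r t) γ then WX (W t) γ * (χ γ * L t γ) else 0)| ≤
      ∑' γ : FX I, (if Fam (Gt j r t) γ then |WX (W t) γ| * (|χ γ| * E t γ) else 0) := by
    intro t ht
    rw [fs _ _ fun γ => nz (χ γ), fs _ _ fun γ => nz (χ γ), fs _ _ fun γ => nz' (χ γ), ← Finset.sum_sub_distrib]
    refine (Finset.abs_sum_le_sum_abs _ _).trans (Finset.sum_le_sum fun γ hγ => ?_)
    rw [Set.Finite.mem_toFinset] at hγ
    split_ifs with hf
    · exact bnd t ht γ hγ hf
    · simp
  have o1 := one 1 (by decide)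
  have o2 := one 2 (by decide)
  have g1 : Gt j r 1 = gX j (r + 1) := rfl
  have g2 : Gt j r 2 = gX j r := rfl
  rw [g1] at o1
  rw [g2] at o2
  rw [key] at o1
  rw [abs_le] at o1 o2 ⊢
  constructor <;> linarith [o1.1, o1.2, o2.1, o2.2]

end

end Pool.Agent.ROT.X.Bl
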