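import Pool.Agent.ROT.XRow

/-!
# UNIV, exact side (helper21): the identity of a row with local functionals of the members

`LW ρ γ` = the product of `ρ i v (γ v i)` over the vertices and the members.

* `tab3` : an identity of products of effective weights for every pairing of the ports = 51 explicit sums;
  **`tabT`, `tabB`, `tabR`, `tabL`** : the four tables (top row, bottom row, last column, first column);
* `Lo j r a c b ρ ρ'` : a local functional (`ρ`: the crossing above the row, `ρ'`: below) which satisfies its table in the row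
  `r`; `Crd` : a member with a nontrivial functional in the region is not alone there;
* **`cls_loc`** : the identity of a class without a crowd; **`row_loc`** : the identity of a row up to the crowds,
  `row_loc_eq` : the identity for functions which vanish on the crowds;
* `fT`, `fB`, `fR`, `fL` : the functionals top row, bottom row, last column, first column; **`lo_T`, `lo_B`, `lo_R`, `lo_L`** :
  they satisfy their tables in every row (`fT .. j (r + 1)`, `fT .. j r`).
-/

set_option autoImplicit false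
set_option linter.unusedSimpArgs false

namespace Pool.Agent.ROT.X

open Pool.Agent.EXL (Wt YB)
open Pool.Agent.YBC (Dir)
open Pool.Agent.ROT.E (Cell IsUn Pt)
open Pool.Agent.ROT.E.Lab (un_unique un_zero)
open Pool.Agent.ROT.L

noncomputable section

/-! ### tables of effective weights -/

/-- the sum over the triples of cells with the pairing `q` of the ports -/
def T3 (t : Fin 3) (q : Fin 6 → Fin 6) (α κ β : Cell → ℝ) : ℝ :=
  ∑ c : Cell × Cell × Cell, if conn t ![c.1, c.2.1, c.2.2] = some q then α c.1 * (κ c.2.1 * β c.2.2) else 0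

theorem tab3 {α κ β α' κ' β' : Cell → ℝ} (h : ∀ g ∈ grp, (g.2.map fun x =>
    if x.1 = 1 then α x.2.1 * (κ x.2.2.1 * β x.2.2.2) else -(α' x.2.1 * (κ' x.2.2.1 * β' x.2.2.2))).sum = 0)
    (q : Fin 6 → Fin 6) : T3 1 q α κ β = T3 2 q α' κ' β' := by
  have h1 := tab_of (f := fun t s c1 c2 => if t = 1 then α s * (κ c1 * β c2) else -(α' s * (κ' c1 * β' c2))) h q
  have e2 : ∀ s c1 c2 : Cell, (if (2 : Fin 3) = 1 then α s * (κ c1 * β c2) else -(α' s * (κ' c1 * β' c2))) =
      -(α' s * (κ' c1 * β' c2)) := fun _ _ _ => if_neg (by decide)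
  simp only [if_true, e2] at h1
  have h2 : (∑ s : Cell × Cell × Cell, if conn 2 ![s.1, s.2.1, s.2.2] = some q then -(α' s.1 * (κ' s.2.1 * β' s.2.2)) else 0) =
      -T3 2 q α' κ' β' := by
    rw [T3, ← Finset.sum_neg_distrib]
    refine Finset.sum_congr rfl fun s _ => ?_
    split_ifs
    · rfl
    · rw [neg_zero]
  rw [h2] at h1
  show T3 1 q α κ β = _
  have h3 : T3 1 q α κ β + -T3 2 q α' κ' β' = 0 := h1
  linarith

/-- empty -/
def kO : Cell → ℝ
  | .o => 1
  | _ => 0

/-- the caps open below: `se`, `h`, `sw` -/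
def kT (p m s : ℝ) : Cell → ℝ
  | .o => 1
  | .se => p
  | .h => m
  | .sw => s
  | _ => 0

/-- the caps open above: `nw`, `h`, `ne` -/
def kB (p m s : ℝ) : Cell → ℝ
  | .o => 1
  | .nw => p
  | .h => m
  | .ne => s
  | _ => 0

/-- the caps open to the left: `nw`, `v`, `sw` -/
def kR (p m s : ℝ) : Cell → ℝ
  | .o => 1
  | .nw => p
  | .v => m
  | .sw => s
  | _ => 0

/-- the caps open to the right: `se`, `v`, `ne` -/
def kL (p m s : ℝ) : Cell → ℝ
  | .o => 1
  | .se => p
  | .v => m
  | .ne => s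
  | _ => 0

/-- **the table of the top row** -/
theorem tabT {a : Wt ℝ} (ha : a.u1 ≠ 0) (q : Fin 6 → Fin 6) :
    T3 1 q kO (kT (a.u2 / a.u1) 0 0) (kT a.u2 a.v a.u1) = T3 2 q (fun c => c.wt a) kO (kT (a.u2 / a.u1) 0 0) := by
  refine tab3 ?_ q
  simp only [grp, List.forall_mem_cons, List.map_cons, List.map_nil, List.sum_cons, List.sum_nil, Cell.wt, kO, kT, kB, kR, kL,
    if_true, show ((2 : Fin 3) = 1) = False from by decide, if_false, mul_zero, zero_mul, neg_zero, add_zero, zero_add, mul_one,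
    one_mul, true_and, and_true, List.not_mem_nil, false_imp_iff, implies_true, and_assoc]
  refine ⟨by ring, ?_, ?_, by ring⟩ <;> · field_simp; ring

/-- **the table of the bottom row** -/
theorem tabB {a : Wt ℝ} (ha : a.u1 ≠ 0) (q : Fin 6 → Fin 6) :
    T3 1 q (fun c => c.wt a) (kB (a.u2 / a.u1) 0 0) kO = T3 2 q kO (kB a.u2 a.v a.u1) (kB (a.u2 / a.u1) 0 0) := by
  refine tab3 ?_ q
  simp only [grp, List.forall_mem_cons, List.map_cons, List.map_nil, List.sum_cons, List.sum_nil, Cell.wt, kO, kT, kB, kR, kL,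
    if_true, show ((2 : Fin 3) = 1) = False from by decide, if_false, mul_zero, zero_mul, neg_zero, add_zero, zero_add, mul_one,
    one_mul, true_and, and_true, List.not_mem_nil, false_imp_iff, implies_true, and_assoc]
  refine ⟨by ring, ?_, ?_, by ring⟩ <;> · field_simp; ring

/-- **the table of the last column** -/
theorem tabR (p m s : ℝ) (q : Fin 6 → Fin 6) : T3 1 q (kR 0 0 1) (kR p m s) kO = T3 2 q (kR 0 0 1) (kR p m s) kO := by
  refine tab3 ?_ q
  simp only [grp, List.forall_mem_cons, List.map_cons, List.map_nil, List.sum_cons, List.sum_nil, Cell.wt, kO, kT, kB, kR, kL,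
    if_true, show ((2 : Fin 3) = 1) = False from by decide, if_false, mul_zero, zero_mul, neg_zero, add_zero, zero_add, mul_one,
    one_mul, true_and, and_true, List.not_mem_nil, false_imp_iff, implies_true, and_assoc]
  refine ⟨?_, ?_, ?_, ?_⟩ <;> ring

/-- **the table of the first column** -/
theorem tabL (p m s : ℝ) (q : Fin 6 → Fin 6) : T3 1 q (kL 0 0 1) kO (kL p m s) = T3 2 q (kL 0 0 1) kO (kL p m s) := by
  refine tab3 ?_ q
  simp only [grp, List.forall_mem_cons, List.map_cons, List.map_nil, List.sum_cons, List.sum_nil, Cell.wt, kO, kT, kB, kR, kL,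
    if_true, show ((2 : Fin 3) = 1) = False from by decide, if_false, mul_zero, zero_mul, neg_zero, add_zero, zero_add, mul_one,
    one_mul, true_and, and_true, List.not_mem_nil, false_imp_iff, implies_true, and_assoc]
  refine ⟨?_, ?_, ?_, ?_⟩ <;> ring

theorem tabO (q : Fin 6 → Fin 6) : T3 1 q kO kO kO = T3 2 q kO kO kO := by
  refine tab3 ?_ q
  simp only [grp, List.forall_mem_cons, List.map_cons, List.map_nil, List.sum_cons, List.sum_nil, Cell.wt, kO, kT, kB, kR, kL,
    if_true, show ((2 : Fin 3) = 1) = False from by decide, if_false, mul_zero, zero_mul, neg_zero, add_zero, zero_add, mul_one,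
    one_mul, true_and, and_true, List.not_mem_nil, false_imp_iff, implies_true, and_assoc]
  ring

/-- the corner first column, top row -/
theorem tabLT (x : ℝ) (q : Fin 6 → Fin 6) : T3 1 q kO kO (kT x 0 0) = T3 2 q (kL 0 0 1) kO (kT x 0 0) := by
  refine tab3 ?_ q
  simp only [grp, List.forall_mem_cons, List.map_cons, List.map_nil, List.sum_cons, List.sum_nil, Cell.wt, kO, kT, kB, kR, kL,
    if_true, show ((2 : Fin 3) = 1) = False from by decide, if_false, mul_zero, zero_mul, neg_zero, add_zero, zero_add, mul_one,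
    one_mul, true_and, and_true, List.not_mem_nil, false_imp_iff, implies_true, and_assoc]
  refine ⟨?_, ?_⟩ <;> ring

/-- the corner last column, bottom row -/
theorem tabRB (x : ℝ) (q : Fin 6 → Fin 6) : T3 1 q (kR 0 0 1) (kB x 0 0) kO = T3 2 q kO (kB x 0 0) kO := by
  refine tab3 ?_ q
  simp only [grp, List.forall_mem_cons, List.map_cons, List.map_nil, List.sum_cons, List.sum_nil, Cell.wt, kO, kT, kB, kR, kL,
    if_true, show ((2 : Fin 3) = 1) = False from by decide, if_false, mul_zero, zero_mul, neg_zero, add_zero, zero_add, mul_one,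
    one_mul, true_and, and_true, List.not_mem_nil, false_imp_iff, implies_true, and_assoc]
  refine ⟨?_, ?_⟩ <;> ring

/-- the corner last column, top row -/
theorem tabRT (q : Fin 6 → Fin 6) : T3 1 q kO kO kO = T3 2 q (kR 0 0 1) kO kO := by
  refine tab3 ?_ q
  simp only [grp, List.forall_mem_cons, List.map_cons, List.map_nil, List.sum_cons, List.sum_nil, Cell.wt, kO, kT, kB, kR, kL,
    if_true, show ((2 : Fin 3) = 1) = False from by decide, if_false, mul_zero, zero_mul, neg_zero, add_zero, zero_add, mul_one,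
    one_mul, true_and, and_true, List.not_mem_nil, false_imp_iff, implies_true, and_assoc]
  ring

/-- the corner first column, bottom row -/
theorem tabLB (q : Fin 6 → Fin 6) : T3 1 q (kL 0 0 1) kO kO = T3 2 q kO kO kO := by
  refine tab3 ?_ q
  simp only [grp, List.forall_mem_cons, List.map_cons, List.map_nil, List.sum_cons, List.sum_nil, Cell.wt, kO, kT, kB, kR, kL,
    if_true, show ((2 : Fin 3) = 1) = False from by decide, if_false, mul_zero, zero_mul, neg_zero, add_zero, zero_add, mul_one,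
    one_mul, true_and, and_true, List.not_mem_nil, false_imp_iff, implies_true, and_assoc]
  ring

/-! ### the class of a family with local functionals -/

variable {I : Type} {j r : ℤ} {t : Fin 3} {γ γ' : FX I} {W W' : VX → Wt ℝ}

/-- **a local functional for the row `r`**: `ρ` (the crossing above the row) and `ρ'` (below) are 1 at the empty cell, agree
outside of the region, and satisfy the table with the crossing `a`, above: left `c`, right `b`, below: left `b`, right `c` -/
structure Lo (j r : ℤ) (a c b : Wt ℝ) (ρ ρ' : VX → Cell → ℝ) : Prop where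
  o : ∀ v, ρ v .o = 1
  o' : ∀ v, ρ' v .o = 1
  out : ∀ v, v ∉ Rg j r → ρ v = ρ' v
  tab : ∀ q, T3 1 q (fun u => u.wt a * ρ none u) (fun u => u.wt c * ρ (some (j, r)) u) (fun u => u.wt b * ρ (some (j + 1, r)) u) =
    T3 2 q (fun u => u.wt a * ρ' none u) (fun u => u.wt b * ρ' (some (j, r)) u) (fun u => u.wt c * ρ' (some (j + 1, r)) u)

/-- trivial in the region -/
def Tv (j r : ℤ) (ρ ρ' : VX → Cell → ℝ) : Prop := ∀ v ∈ Rg j r, ∀ c, ρ v c = 1 ∧ ρ' v c = 1

/-- the functional 1 -/
theorem lo_one {a c b : Wt ℝ} (h : YB a c b) {ρ : VX → Cell → ℝ} (o : ∀ v, ρ v .o = 1) (tv : Tv j r ρ ρ) : Lo j r a c b ρ ρ := by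
  refine ⟨o, o, fun _ _ => rfl, fun q => ?_⟩
  have h0 : ρ none = fun _ => 1 := funext fun c => (tv _ (Or.inl rfl) c).1
  have h1 : ρ (some (j, r)) = fun _ => 1 := funext fun c => (tv _ (Or.inr (Or.inl rfl)) c).1
  have h2 : ρ (some (j + 1, r)) = fun _ => 1 := funext fun c => (tv _ (Or.inr (Or.inr rfl)) c).1
  simp only [h0, h1, h2, mul_one]
  exact tabYB h q

variable [Fintype I]

/-- the product over the members at a vertex -/
def lc (ρ : I → VX → Cell → ℝ) (v : VX) (f : I → Cell) : ℝ := ∏ i, ρ i v (f i)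

/-- **the product of the local functionals of the members** -/
def LW (ρ : I → VX → Cell → ℝ) (γ : FX I) : ℝ := ∏ v ∈ γ.support, lc ρ v (γ v)

theorem lc_zero {ρ : I → VX → Cell → ℝ} (o : ∀ i v, ρ i v .o = 1) (v : VX) : lc ρ v 0 = 1 :=
  Finset.prod_eq_one fun i _ => o i v

open Classical in
theorem LW_eq {ρ : I → VX → Cell → ℝ} (o : ∀ i v, ρ i v .o = 1) {s : Finset VX} (h : γ.support ⊆ s) :
    LW ρ γ = ∏ v ∈ s, lc ρ v (γ v) := by
  refine Finset.prod_subset h fun v _ hv => ?_
  rw [Finsupp.notMem_support_iff] at hv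
  rw [hv, lc_zero o]

/-- the product outside of the region -/
def OW (ρ : I → VX → Cell → ℝ) (j r : ℤ) (γ : FX I) : ℝ := ∏ v ∈ So j r γ, lc ρ v (γ v)

theorem OW_congr {ρ ρ' : I → VX → Cell → ℝ} (h : ∀ i v, v ∉ Rg j r → ρ i v = ρ' i v) : OW ρ j r γ = OW ρ' j r γ :=
  Finset.prod_congr rfl fun v hv => Finset.prod_congr rfl fun i _ => by rw [h i v (mem_So'.1 hv).1]

/-- the functional of a family of the class -/
theorem LW_cls {ρ : I → VX → Cell → ℝ} (o : ∀ i v, ρ i v .o = 1) (out : ∀ v, v ∉ Rg j r → γ v = γ' v) :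
    LW ρ γ' = OW ρ j r γ * (lc ρ none (γ' none) * (lc ρ (some (j, r)) (γ' (some (j, r))) *
      lc ρ (some (j + 1, r)) (γ' (some (j + 1, r))))) := by
  classical
  have sup : γ'.support ⊆ insert none (insert (some (j, r)) (insert (some (j + 1, r)) (So j r γ))) := by
    intro v hv
    simp only [Finset.mem_insert]
    by_cases h : v ∈ Rg j r
    · simp only [Rg, Set.mem_insert_iff, Set.mem_singleton_iff] at h
      tauto
    · right; right; right
      rw [mem_So']
      exact ⟨h, by rw [out v h]; exact Finsupp.mem_support_iff.1 hv⟩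
  have n0 : (none : VX) ∉ So j r γ := fun h => (mem_So'.1 h).1 (Or.inl rfl)
  have n1 : (some (j, r) : VX) ∉ So j r γ := fun h => (mem_So'.1 h).1 (Or.inr (Or.inl rfl))
  have n2 : (some (j + 1, r) : VX) ∉ So j r γ := fun h => (mem_So'.1 h).1 (Or.inr (Or.inr rfl))
  have e : ∏ v ∈ So j r γ, lc ρ v (γ' v) = OW ρ j r γ :=
    Finset.prod_congr rfl fun v hv => by rw [out v (mem_So'.1 hv).1]
  rw [LW_eq o sup, Finset.prod_insert, Finset.prod_insert, Finset.prod_insert n2, e]
  · ring
  · simp only [Finset.mem_insert, Option.some.injEq, Prod.mk.injEq, and_true, n1, or_false]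
    omega
  · simp only [Finset.mem_insert, reduceCtorEq, n0, or_self, not_false_eq_true]

theorem port_Gt (j r : ℤ) (t : Fin 3) : Port (Gt j r t) (Rg j r) = pt6 j r := by
  fin_cases t
  · exact port_g0 j r
  · exact port_gX' j r
  · exact port_gX j r

omit [Fintype I] in
/-- a single member at a vertex is the union -/
theorem un_single {f : I → Cell} {c : Cell} (h : IsUn f c) {i : I} (hk : ∀ k, k ≠ i → f k = .o) : f i = c := by
  refine un_unique ?_ h
  refine ⟨fun k d hd => ?_, fun k k' d hk1 hk2 => h.2.1 k k' d hk1 hk2, fun d hd => ⟨i, hd⟩⟩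
  by_cases e : k = i
  · rw [e]
  · rw [hk k e] at hd
    exact absurd rfl hd

/-- **a crowd**: a member with a nontrivial functional in the region is not alone there -/
def Crd (j r : ℤ) (ρ ρ' : I → VX → Cell → ℝ) (γ : FX I) : Prop :=
  ∃ i k, i ≠ k ∧ us j r γ i ∧ us j r γ k ∧ ¬ Tv j r (ρ i) (ρ' i)

omit [Fintype I] in
theorem Crd_congr {ρ ρ' : I → VX → Cell → ℝ} (out : ∀ v, v ∉ Rg j r → γ v = γ' v) : Crd j r ρ ρ' γ ↔ Crd j r ρ ρ' γ' := by
  have h := fun i => us_congr out i
  simp only [Crd, h]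

open Classical in
/-- **the identity of a class with local functionals** -/
theorem cls_loc {a c b : Wt ℝ} (h : YB a c b) (hW : ∀ v, v ∉ Rg j r → W v = W' v) (w0 : W none = a) (w0' : W' none = a)
    (w1 : W (some (j, r)) = c) (w2 : W (some (j + 1, r)) = b) (w1' : W' (some (j, r)) = b) (w2' : W' (some (j + 1, r)) = c)
    {ρ ρ' : I → VX → Cell → ℝ} (lo : ∀ i, Lo j r a c b (ρ i) (ρ' i)) {G : FX I → ℝ}
    (cst : ∀ (t t' : Fin 3) (γ γ' : FX I), t ≠ 0 → t' ≠ 0 → Eq6 (Rg j r) (Gt j r t) (Gt j r t') γ γ' → G γ = G γ')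
    (ht : t ≠ 0) (f : Fam (Gt j r t) γ) (g : Gd (Rg j r) γ) (al : ¬ Crd j r ρ ρ' γ) :
    ∑' γ' : FX I, (if Eq6 (Rg j r) (Gt j r t) (Gt j r 1) γ γ' then WX W γ' * (LW ρ γ' * G γ') else 0) =
      ∑' γ' : FX I, if Eq6 (Rg j r) (Gt j r t) (Gt j r 2) γ γ' then WX W' γ' * (LW ρ' γ' * G γ') else 0 := by
  have eOW : OW ρ j r γ = OW ρ' j r γ := OW_congr fun i v hv => (lo i).out v hv
  have nin : ∀ (t' : Fin 3) (γ' : FX I), Eq6 (Rg j r) (Gt j r t) (Gt j r t') γ γ' → ∀ i, ¬ us j r γ i →
      ∀ v ∈ Rg j r, γ' v i = .o := by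
    intro t' γ' e i hi v hv
    by_contra hc
    have gd' : Gd (Rg j r) γ' := fun k => by
      obtain ⟨v, hv, h0⟩ := e.gd k
      exact ⟨v, hv, by rw [← e.out v hv]; exact h0⟩
    exact hi ((us_congr e.out i).2 ((us_iff (port_Gt j r t') e.fam' gd' i).2 ⟨v, hv, hc⟩))
  obtain ⟨q, hq⟩ := cls_sumX f g
  by_cases hc : ∃ i, us j r γ i ∧ ¬ Tv j r (ρ i) (ρ' i)
  · obtain ⟨i, hi, hti⟩ := hc
    have alo : ∀ k, k ≠ i → ¬ us j r γ k := fun k hk hu => al ⟨i, k, hk.symm, hi, hu, hti⟩
    have one : ∀ (t' : Fin 3) (γ' : FX I), Eq6 (Rg j r) (Gt j r t) (Gt j r t') γ γ' → ∀ (σ : I → VX → Cell → ℝ),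
        (∀ i v, σ i v .o = 1) → ∀ v ∈ Rg j r, ∀ c, IsUn (γ' v) c → lc σ v (γ' v) = σ i v c := by
      intro t' γ' e σ ho v hv c hu
      have h0 : ∀ k, k ≠ i → γ' v k = .o := fun k hk => nin t' γ' e k (alo k hk) v hv
      rw [lc, Finset.prod_eq_single i (fun k _ hk => by rw [h0 k hk, ho]) fun h => absurd (Finset.mem_univ i) h,
        un_single hu h0]
    have val : ∀ (t' : Fin 3) (γ' : FX I) (c : Cell × Cell × Cell), Eq6 (Rg j r) (Gt j r t) (Gt j r t') γ γ' →
        IsUn (γ' none) c.1 → IsUn (γ' (some (j, r))) c.2.1 → IsUn (γ' (some (j + 1, r))) c.2.2 →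
        ∀ (σ : I → VX → Cell → ℝ), (∀ i v, σ i v .o = 1) →
        LW σ γ' = OW σ j r γ * (σ i none c.1 * (σ i (some (j, r)) c.2.1 * σ i (some (j + 1, r)) c.2.2)) := by
      intro t' γ' c e h0 h1 h2 σ ho
      rw [LW_cls ho e.out, one t' γ' e σ ho _ (Or.inl rfl) _ h0, one t' γ' e σ ho _ (Or.inr (Or.inl rfl)) _ h1,
        one t' γ' e σ ho _ (Or.inr (Or.inr rfl)) _ h2]
    rw [hq 1 W (fun γ' => LW ρ γ' * G γ') (fun c => OW ρ j r γ * (ρ i none c.1 * (ρ i (some (j, r)) c.2.1 *
        ρ i (some (j + 1, r)) c.2.2)) * G γ) fun γ' c e h0 h1 h2 => by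
          show LW ρ γ' * G γ' = _
          rw [val 1 γ' c e h0 h1 h2 ρ fun i => (lo i).o, cst t 1 γ γ' ht (by decide) e],
      hq 2 W' (fun γ' => LW ρ' γ' * G γ') (fun c => OW ρ' j r γ * (ρ' i none c.1 * (ρ' i (some (j, r)) c.2.1 *
        ρ' i (some (j + 1, r)) c.2.2)) * G γ) fun γ' c e h0 h1 h2 => by
          show LW ρ' γ' * G γ' = _
          rw [val 2 γ' c e h0 h1 h2 ρ' fun i => (lo i).o', cst t 2 γ γ' ht (by decide) e],
      OX_congr hW, w0, w0', w1, w2, w1', w2', eOW]
    have e1 : ∀ (t' : Fin 3) (x y z : Wt ℝ) (σ : VX → Cell → ℝ) (m : ℝ),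
        (∑ c : Cell × Cell × Cell, if conn t' ![c.1, c.2.1, c.2.2] = some q then c.1.wt x * (c.2.1.wt y * c.2.2.wt z) *
          (m * (σ none c.1 * (σ (some (j, r)) c.2.1 * σ (some (j + 1, r)) c.2.2)) * G γ) else 0) =
        m * G γ * T3 t' q (fun u => u.wt x * σ none u) (fun u => u.wt y * σ (some (j, r)) u)
          (fun u => u.wt z * σ (some (j + 1, r)) u) := by
      intro t' x y z σ m
      rw [T3, Finset.mul_sum]
      refine Finset.sum_congr rfl fun u _ => ?_
      split_ifs
      · ring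
      · rw [mul_zero]
    rw [e1, e1, (lo i).tab q]
  · have hc' : ∀ i, us j r γ i → Tv j r (ρ i) (ρ' i) := fun i hi => by
      by_contra h0
      exact hc ⟨i, hi, h0⟩
    have val : ∀ (t' : Fin 3) (γ' : FX I), Eq6 (Rg j r) (Gt j r t) (Gt j r t') γ γ' →
        LW ρ γ' = OW ρ j r γ ∧ LW ρ' γ' = OW ρ' j r γ := by
      intro t' γ' e
      have one : ∀ v ∈ Rg j r, lc ρ v (γ' v) = 1 ∧ lc ρ' v (γ' v) = 1 := by
        intro v hv
        constructor
        · refine Finset.prod_eq_one fun i _ => ?_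
          by_cases hi : us j r γ i
          · exact (hc' i hi v hv _).1
          · rw [nin t' γ' e i hi v hv]; exact (lo i).o v
        · refine Finset.prod_eq_one fun i _ => ?_
          by_cases hi : us j r γ i
          · exact (hc' i hi v hv _).2
          · rw [nin t' γ' e i hi v hv]; exact (lo i).o' v
      constructor
      · rw [LW_cls (fun i => (lo i).o) e.out, (one _ (Or.inl rfl)).1, (one _ (Or.inr (Or.inl rfl))).1,
          (one _ (Or.inr (Or.inr rfl))).1, mul_one, mul_one, mul_one]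
      · rw [LW_cls (fun i => (lo i).o') e.out, (one _ (Or.inl rfl)).2, (one _ (Or.inr (Or.inl rfl))).2,
          (one _ (Or.inr (Or.inr rfl))).2, mul_one, mul_one, mul_one]
    rw [hq 1 W (fun γ' => LW ρ γ' * G γ') (fun _ => OW ρ j r γ * G γ) fun γ' c e _ _ _ => by
          show LW ρ γ' * G γ' = _
          rw [(val 1 γ' e).1, cst t 1 γ γ' ht (by decide) e],
      hq 2 W' (fun γ' => LW ρ' γ' * G γ') (fun _ => OW ρ' j r γ * G γ) fun γ' c e _ _ _ => by
          show LW ρ' γ' * G γ' = _
          rw [(val 2 γ' e).2, cst t 2 γ γ' ht (by decide) e],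
      OX_congr hW, w0, w0', w1, w2, w1', w2', eOW]
    have e : ∀ (p : Cell × Cell × Cell → Prop) [DecidablePred p] (F : Cell × Cell × Cell → ℝ) (x : ℝ),
        (∑ c, if p c then F c * x else 0) = (∑ c, if p c then F c else 0) * x := fun p _ F x => by
      rw [Finset.sum_mul]
      refine Finset.sum_congr rfl fun c _ => ?_
      split_ifs
      · rfl
      · rw [zero_mul]
    rw [e, e, tabYB h q]

open Classical in
/-- **the identity of a row with local functionals** (above: the graph `1`, tables `W`, functionals `ρ`) -/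
theorem row_loc {a c b : Wt ℝ} (h : YB a c b) (hW : ∀ v, v ∉ Rg j r → W v = W' v) (w0 : W none = a) (w0' : W' none = a)
    (w1 : W (some (j, r)) = c) (w2 : W (some (j + 1, r)) = b) (w1' : W' (some (j, r)) = b) (w2' : W' (some (j + 1, r)) = c)
    {ρ ρ' : I → VX → Cell → ℝ} (lo : ∀ i, Lo j r a c b (ρ i) (ρ' i)) {G : FX I → ℝ} (fin : {γ | G γ ≠ 0}.Finite)
    (gd : ∀ γ, G γ ≠ 0 → Gd (Rg j r) γ)
    (cst : ∀ (t t' : Fin 3) (γ γ' : FX I), t ≠ 0 → t' ≠ 0 → Eq6 (Rg j r) (Gt j r t) (Gt j r t') γ γ' → G γ = G γ') :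
    |∑' γ : FX I, (if Fam (gX j (r + 1)) γ then WX W γ * (LW ρ γ * G γ) else 0) -
        ∑' γ : FX I, (if Fam (gX j r) γ then WX W' γ * (LW ρ' γ * G γ) else 0)| ≤
      ∑' γ : FX I, (if Fam (gX j (r + 1)) γ ∧ Crd j r ρ ρ' γ then |WX W γ * (LW ρ γ * G γ)| else 0) +
        ∑' γ : FX I, if Fam (gX j r) γ ∧ Crd j r ρ ρ' γ then |WX W' γ * (LW ρ' γ * G γ)| else 0 := by
  refine row_err_of (F1 := fun γ => WX W γ * (LW ρ γ * G γ)) (F2 := fun γ => WX W' γ * (LW ρ' γ * G γ))
    (fun _ γ => Crd j r ρ ρ' γ) (fun t t' γ γ' _ _ e => Crd_congr e.out) (fin.subset fun γ h => ?_)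
    (fin.subset fun γ h => ?_) (fun γ h => gd γ ?_) (fun γ h => gd γ ?_)
    fun t γ ht f g al => cls_loc h hW w0 w0' w1 w2 w1' w2' lo cst ht f g al
  · exact right_ne_zero_of_mul (right_ne_zero_of_mul h)
  · exact right_ne_zero_of_mul (right_ne_zero_of_mul h)
  · exact right_ne_zero_of_mul (right_ne_zero_of_mul h)
  · exact right_ne_zero_of_mul (right_ne_zero_of_mul h)

open Classical in
/-- the same for a function which vanishes where a member with a nontrivial functional is not alone -/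
theorem row_loc_eq {a c b : Wt ℝ} (h : YB a c b) (hW : ∀ v, v ∉ Rg j r → W v = W' v) (w0 : W none = a) (w0' : W' none = a)
    (w1 : W (some (j, r)) = c) (w2 : W (some (j + 1, r)) = b) (w1' : W' (some (j, r)) = b) (w2' : W' (some (j + 1, r)) = c)
    {ρ ρ' : I → VX → Cell → ℝ} (lo : ∀ i, Lo j r a c b (ρ i) (ρ' i)) {G : FX I → ℝ} (fin : {γ | G γ ≠ 0}.Finite)
    (gd : ∀ γ, G γ ≠ 0 → Gd (Rg j r) γ)
    (cst : ∀ (t t' : Fin 3) (γ γ' : FX I), t ≠ 0 → t' ≠ 0 → Eq6 (Rg j r) (Gt j r t) (Gt j r t') γ γ' → G γ = G γ')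
    (al : ∀ γ, G γ ≠ 0 → ¬ Crd j r ρ ρ' γ) :
    ∑' γ : FX I, (if Fam (gX j (r + 1)) γ then WX W γ * (LW ρ γ * G γ) else 0) =
        ∑' γ : FX I, (if Fam (gX j r) γ then WX W' γ * (LW ρ' γ * G γ) else 0) := by
  refine row_eq_of (F1 := fun γ => WX W γ * (LW ρ γ * G γ)) (F2 := fun γ => WX W' γ * (LW ρ' γ * G γ))
    (fin.subset fun γ h => ?_)
    (fin.subset fun γ h => ?_) (fun γ h => gd γ ?_) (fun γ h => gd γ ?_)
    fun t γ ht f g => ?_
  · exact right_ne_zero_of_mul (right_ne_zero_of_mul h)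
  · exact right_ne_zero_of_mul (right_ne_zero_of_mul h)
  · exact right_ne_zero_of_mul (right_ne_zero_of_mul h)
  · exact right_ne_zero_of_mul (right_ne_zero_of_mul h)
  · by_cases h0 : G γ = 0
    · have z : ∀ (t' : Fin 3), t' ≠ 0 → ∀ (V : VX → Wt ℝ) (σ : I → VX → Cell → ℝ),
          ∑' γ' : FX I, (if Eq6 (Rg j r) (Gt j r t) (Gt j r t') γ γ' then WX V γ' * (LW σ γ' * G γ') else 0) = 0 := by
        intro t' ht' V σ
        refine (tsum_congr fun γ' => ?_).trans tsum_zero
        by_cases he : Eq6 (Rg j r) (Gt j r t) (Gt j r t') γ γ'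
        · rw [if_pos he, ← cst t t' γ γ' ht ht' he, h0, mul_zero, mul_zero]
        · rw [if_neg he]
      rw [z 1 (by decide) W ρ, z 2 (by decide) W' ρ']
    · exact cls_loc h hW w0 w0' w1 w2 w1' w2' lo cst ht f g (al γ h0)

/-! ### the four functionals -/

/-- **top row `t`**, the crossing below the row `s`: rows below `t`: 1, rows above: empty; in the row `t`: empty up to the new
column, `kT (u2 (a) / (u2 (c) u1 (a))) 0 0` in the new column, the table `a` right of it; `σ` in the other columns -/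
def fT (a c b : Wt ℝ) (σ : ℤ → Cell → ℝ) (t j s : ℤ) : VX → Cell → ℝ
  | none => if s ≤ t then fun _ => 1 else kO
  | some v => if v.2 < t then fun _ => 1 else if v.2 = t then
      (if v.1 = j then (if s ≤ t then kO else kT (a.u2 / (c.u2 * a.u1)) 0 0) else
        if v.1 = j + 1 then (if s ≤ t then kT (a.u2 / (c.u2 * a.u1)) 0 0 else kT (a.u2 / b.u2) (a.v / b.v) (a.u1 / b.u1)) else
          σ v.1) else kO

/-- **bottom row `t`** -/
def fB (a c b : Wt ℝ) (σ : ℤ → Cell → ℝ) (t j s : ℤ) : VX → Cell → ℝ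
  | none => if s ≤ t then kO else fun _ => 1
  | some v => if t < v.2 then fun _ => 1 else if v.2 = t then
      (if v.1 = j then (if s ≤ t then kB (a.u2 / b.u2) (a.v / b.v) (a.u1 / b.u1) else kB (a.u2 / (c.u2 * a.u1)) 0 0) else
        if v.1 = j + 1 then (if s ≤ t then kB (a.u2 / (c.u2 * a.u1)) 0 0 else kO) else
          σ v.1) else kO

/-- **last column `j`**: the column `j` counts with the table `c`; `σ` in the other columns -/
def fR (a c b : Wt ℝ) (σ : Pt → Cell → ℝ) (j s : ℤ) : VX → Cell → ℝ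
  | none => kR 0 0 (1 / a.u1)
  | some v => if v.1 = j then (if v.2 < s then kR 1 1 1 else kR (c.u2 / b.u2) (c.v / b.v) (c.u1 / b.u1)) else
      if v.1 = j + 1 then kO else σ v

/-- **first column `j + 1`** -/
def fL (a c b : Wt ℝ) (σ : Pt → Cell → ℝ) (j s : ℤ) : VX → Cell → ℝ
  | none => kL 0 0 (1 / a.u1)
  | some v => if v.1 = j then kO else
      if v.1 = j + 1 then (if v.2 < s then kL (c.u2 / b.u2) (c.v / b.v) (c.u1 / b.u1) else kL 1 1 1) else σ v

theorem e_O (w : Wt ℝ) : (fun c : Cell => c.wt w * kO c) = kO := by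
  funext c
  cases c <;> simp [kO, Cell.wt]

theorem e_T (w : Wt ℝ) (p m s : ℝ) : (fun c : Cell => c.wt w * kT p m s c) = kT (w.u2 * p) (w.v * m) (w.u1 * s) := by
  funext c
  cases c <;> simp [kT, Cell.wt]

theorem e_B (w : Wt ℝ) (p m s : ℝ) : (fun c : Cell => c.wt w * kB p m s c) = kB (w.u2 * p) (w.v * m) (w.u1 * s) := by
  funext c
  cases c <;> simp [kB, Cell.wt]

theorem e_R (w : Wt ℝ) (p m s : ℝ) : (fun c : Cell => c.wt w * kR p m s c) = kR (w.u2 * p) (w.v * m) (w.u1 * s) := by
  funext c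
  cases c <;> simp [kR, Cell.wt]

theorem e_L (w : Wt ℝ) (p m s : ℝ) : (fun c : Cell => c.wt w * kL p m s c) = kL (w.u2 * p) (w.v * m) (w.u1 * s) := by
  funext c
  cases c <;> simp [kL, Cell.wt]

/-- the weights which must not vanish -/
structure Nz (a c b : Wt ℝ) : Prop where
  a1 : a.u1 ≠ 0
  c2 : c.u2 ≠ 0
  b1 : b.u1 ≠ 0
  b2 : b.u2 ≠ 0
  bv : b.v ≠ 0


theorem kO_o : kO .o = 1 := rfl
theorem kT_o (p m s : ℝ) : kT p m s .o = 1 := rfl
theorem kB_o (p m s : ℝ) : kB p m s .o = 1 := rfl
theorem kR_o (p m s : ℝ) : kR p m s .o = 1 := rfl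
theorem kL_o (p m s : ℝ) : kL p m s .o = 1 := rfl

theorem fT_o {a c b : Wt ℝ} {σ : ℤ → Cell → ℝ} (h : ∀ x, σ x .o = 1) (t j s : ℤ) (v : VX) : fT a c b σ t j s v .o = 1 := by
  obtain _ | v := v
  · simp only [fT]; split_ifs <;> rfl
  · simp only [fT]; split_ifs <;> first | rfl | exact h _

theorem fB_o {a c b : Wt ℝ} {σ : ℤ → Cell → ℝ} (h : ∀ x, σ x .o = 1) (t j s : ℤ) (v : VX) : fB a c b σ t j s v .o = 1 := by
  obtain _ | v := v
  · simp only [fB]; split_ifs <;> rfl
  · simp only [fB]; split_ifs <;> first | rfl | exact h _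

theorem fR_o {a c b : Wt ℝ} {σ : Pt → Cell → ℝ} (h : ∀ x, σ x .o = 1) (j s : ℤ) (v : VX) : fR a c b σ j s v .o = 1 := by
  obtain _ | v := v
  · rfl
  · simp only [fR]; split_ifs <;> first | rfl | exact h _

theorem fL_o {a c b : Wt ℝ} {σ : Pt → Cell → ℝ} (h : ∀ x, σ x .o = 1) (j s : ℤ) (v : VX) : fL a c b σ j s v .o = 1 := by
  obtain _ | v := v
  · rfl
  · simp only [fL]; split_ifs <;> first | rfl | exact h _

/-- the two rows of tables agree outside of the region -/
theorem nR {x y : ℤ} (hv : (some (x, y) : VX) ∉ Rg j r) : ¬ ((x = j ∨ x = j + 1) ∧ y = r) := fun h => hv (some_mem_Rg.2 h)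

/-- **the functional of the top row in every row** -/
theorem lo_T {a c b : Wt ℝ} (h : YB a c b) (z : Nz a c b) {σ : ℤ → Cell → ℝ} (hσ : ∀ x, σ x .o = 1) (t j r : ℤ) :
    Lo j r a c b (fT a c b σ t j (r + 1)) (fT a c b σ t j r) := by
  refine ⟨fT_o hσ t j _, fT_o hσ t j _, ?_, fun q => ?_⟩
  · rintro (_ | ⟨x, y⟩) hv
    · exact absurd (Or.inl rfl) hv
    · have h1 := nR hv
      simp only [fT]
      by_cases h2 : y < t
      · rw [if_pos h2, if_pos h2]
      · rw [if_neg h2, if_neg h2]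
        by_cases h3 : y = t
        · rw [if_pos h3, if_pos h3]
          by_cases h4 : x = j
          · rw [if_pos h4, if_pos h4]
            by_cases h5 : r ≤ t
            · rw [if_pos h5, if_pos (show r + 1 ≤ t by omega)]
            · rw [if_neg h5, if_neg (show ¬ r + 1 ≤ t by omega)]
          · rw [if_neg h4, if_neg h4]
            by_cases h6 : x = j + 1
            · rw [if_pos h6, if_pos h6]
              by_cases h5 : r ≤ t
              · rw [if_pos h5, if_pos (show r + 1 ≤ t by omega)]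
              · rw [if_neg h5, if_neg (show ¬ r + 1 ≤ t by omega)]
            · rw [if_neg h6, if_neg h6]
        · rw [if_neg h3, if_neg h3]
  · rcases lt_trichotomy r t with h1 | h1 | h1
    · have e1 : r + 1 ≤ t := h1
      have e2 : r ≤ t := h1.le
      simp only [fT, if_pos e1, if_pos e2, if_pos h1, mul_one]
      exact tabYB h q
    · subst h1
      have e1 : ¬ r + 1 ≤ r := by omega
      have e2 : r ≤ r := le_rfl
      have e3 : ¬ r < r := lt_irrefl r
      have e4 : ¬ j + 1 = j := by omega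
      simp only [fT, if_neg e1, if_pos e2, if_neg e3, if_neg e4, if_true, e_O, e_T, mul_zero, mul_one]
      have f1 : c.u2 * (a.u2 / (c.u2 * a.u1)) = a.u2 / a.u1 := by
        have := z.a1; have := z.c2
        field_simp
      have f2 : b.u2 * (a.u2 / b.u2) = a.u2 := by have := z.b2; field_simp
      have f3 : b.v * (a.v / b.v) = a.v := by have := z.bv; field_simp
      have f4 : b.u1 * (a.u1 / b.u1) = a.u1 := by have := z.b1; field_simp
      rw [f1, f2, f3, f4]
      exact tabT z.a1 q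
    · have e1 : ¬ r + 1 ≤ t := by omega
      have e2 : ¬ r ≤ t := by omega
      have e3 : ¬ r < t := by omega
      have e4 : ¬ r = t := by omega
      simp only [fT, if_neg e1, if_neg e2, if_neg e3, if_neg e4, e_O]
      exact tabO q

/-- **the functional of the bottom row in every row** -/
theorem lo_B {a c b : Wt ℝ} (h : YB a c b) (z : Nz a c b) {σ : ℤ → Cell → ℝ} (hσ : ∀ x, σ x .o = 1) (t j r : ℤ) :
    Lo j r a c b (fB a c b σ t j (r + 1)) (fB a c b σ t j r) := by
  refine ⟨fB_o hσ t j _, fB_o hσ t j _, ?_, fun q => ?_⟩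
  · rintro (_ | ⟨x, y⟩) hv
    · exact absurd (Or.inl rfl) hv
    · have h1 := nR hv
      simp only [fB]
      by_cases h2 : t < y
      · rw [if_pos h2, if_pos h2]
      · rw [if_neg h2, if_neg h2]
        by_cases h3 : y = t
        · rw [if_pos h3, if_pos h3]
          by_cases h4 : x = j
          · rw [if_pos h4, if_pos h4]
            by_cases h5 : r ≤ t
            · rw [if_pos h5, if_pos (show r + 1 ≤ t by omega)]
            · rw [if_neg h5, if_neg (show ¬ r + 1 ≤ t by omega)]
          · rw [if_neg h4, if_neg h4]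
            by_cases h6 : x = j + 1
            · rw [if_pos h6, if_pos h6]
              by_cases h5 : r ≤ t
              · rw [if_pos h5, if_pos (show r + 1 ≤ t by omega)]
              · rw [if_neg h5, if_neg (show ¬ r + 1 ≤ t by omega)]
            · rw [if_neg h6, if_neg h6]
        · rw [if_neg h3, if_neg h3]
  · rcases lt_trichotomy r t with h1 | h1 | h1
    · have e1 : r + 1 ≤ t := h1
      have e2 : r ≤ t := h1.le
      have e3 : ¬ t < r := by omega
      have e4 : ¬ r = t := by omega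
      simp only [fB, if_pos e1, if_pos e2, if_neg e3, if_neg e4, e_O]
      exact tabO q
    · subst h1
      have e1 : ¬ r + 1 ≤ r := by omega
      have e2 : r ≤ r := le_rfl
      have e3 : ¬ r < r := lt_irrefl r
      have e4 : ¬ j + 1 = j := by omega
      simp only [fB, if_neg e1, if_pos e2, if_neg e3, if_neg e4, if_true, e_O, e_B, mul_zero, mul_one]
      have f1 : c.u2 * (a.u2 / (c.u2 * a.u1)) = a.u2 / a.u1 := by
        have := z.a1; have := z.c2
        field_simp
      have f2 : b.u2 * (a.u2 / b.u2) = a.u2 := by have := z.b2; field_simp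
      have f3 : b.v * (a.v / b.v) = a.v := by have := z.bv; field_simp
      have f4 : b.u1 * (a.u1 / b.u1) = a.u1 := by have := z.b1; field_simp
      rw [f1, f2, f3, f4]
      exact tabB z.a1 q
    · have e1 : ¬ r + 1 ≤ t := by omega
      have e2 : ¬ r ≤ t := by omega
      simp only [fB, if_neg e1, if_neg e2, if_pos h1, mul_one]
      exact tabYB h q

/-- **the functional of the last column in every row** -/
theorem lo_R {a c b : Wt ℝ} (z : Nz a c b) {σ : Pt → Cell → ℝ} (hσ : ∀ x, σ x .o = 1) (j r : ℤ) :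
    Lo j r a c b (fR a c b σ j (r + 1)) (fR a c b σ j r) := by
  refine ⟨fR_o hσ j _, fR_o hσ j _, ?_, fun q => ?_⟩
  · rintro (_ | ⟨x, y⟩) hv
    · exact absurd (Or.inl rfl) hv
    · have h1 := nR hv
      simp only [fR]
      by_cases h4 : x = j
      · rw [if_pos h4, if_pos h4]
        by_cases h5 : y < r
        · rw [if_pos h5, if_pos (show y < r + 1 by omega)]
        · rw [if_neg h5, if_neg (show ¬ y < r + 1 by omega)]
      · rw [if_neg h4, if_neg h4]
  · have e1 : r < r + 1 := by omega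
    have e3 : ¬ r < r := lt_irrefl r
    have e4 : ¬ j + 1 = j := by omega
    simp only [fR, if_pos e1, if_neg e3, if_neg e4, if_true, e_O, e_R, mul_zero, mul_one]
    have f1 : a.u1 * (1 / a.u1) = 1 := by have := z.a1; field_simp
    have f2 : b.u2 * (c.u2 / b.u2) = c.u2 := by have := z.b2; field_simp
    have f3 : b.v * (c.v / b.v) = c.v := by have := z.bv; field_simp
    have f4 : b.u1 * (c.u1 / b.u1) = c.u1 := by have := z.b1; field_simp
    rw [f1, f2, f3, f4]
    exact tabR _ _ _ q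

/-- **the functional of the first column in every row** -/
theorem lo_L {a c b : Wt ℝ} (z : Nz a c b) {σ : Pt → Cell → ℝ} (hσ : ∀ x, σ x .o = 1) (j r : ℤ) :
    Lo j r a c b (fL a c b σ j (r + 1)) (fL a c b σ j r) := by
  refine ⟨fL_o hσ j _, fL_o hσ j _, ?_, fun q => ?_⟩
  · rintro (_ | ⟨x, y⟩) hv
    · exact absurd (Or.inl rfl) hv
    · have h1 := nR hv
      simp only [fL]
      by_cases h4 : x = j
      · rw [if_pos h4, if_pos h4]
      · rw [if_neg h4, if_neg h4]
        by_cases h6 : x = j + 1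
        · rw [if_pos h6, if_pos h6]
          by_cases h5 : y < r
          · rw [if_pos h5, if_pos (show y < r + 1 by omega)]
          · rw [if_neg h5, if_neg (show ¬ y < r + 1 by omega)]
        · rw [if_neg h6, if_neg h6]
  · have e1 : r < r + 1 := by omega
    have e3 : ¬ r < r := lt_irrefl r
    have e4 : ¬ j + 1 = j := by omega
    simp only [fL, if_pos e1, if_neg e3, if_neg e4, if_true, e_O, e_L, mul_zero, mul_one]
    have f1 : a.u1 * (1 / a.u1) = 1 := by have := z.a1; field_simp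
    have f2 : b.u2 * (c.u2 / b.u2) = c.u2 := by have := z.b2; field_simp
    have f3 : b.v * (c.v / b.v) = c.v := by have := z.bv; field_simp
    have f4 : b.u1 * (c.u1 / b.u1) = c.u1 := by have := z.b1; field_simp
    rw [f1, f2, f3, f4]
    exact tabL _ _ _ q

end

end Pool.Agent.ROT.X
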