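import Pool.Agent.ROT.XDefs
import Pool.Agent.ROT.LApi

/-!
# UNIV, exact side, row X6 (helper25): product domination with a crossing

* `Dom w K` : `|w1| ≤ K u1 ^ 2`, `|w2| ≤ K u2 ^ 2`; `dom_of` : the angles `π / 8 ≤ u ≤ π / 4` with `K = 1`; `dom_d` : the crossing
  `π / 16` with `K = 2`; `dom_WE`;
* `un_prod` : the weight of a union of local states is at most `K` times the product of the weights of the states;
* `mb γ l : FX Unit` : the member `l` as a family with one member; `mb_fam`, `WX_mb`, `ht_mb`, `lf_mb`, `cR_mb` .. `cB_mb`, `Us_mb`,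
  `ExR_mb` .. `ExB_mb`, `Bx_mb`;
* **`WX_prod`** : `|WX W γ| ≤ K ∏ l, |WX W (mb γ l)|`; `WE_prod` : on the lattices of the sweep with `K = 2`;
* **`AX_prod`** : `AX (∏ l, A l (member l)) ≤ 2 ∏ l, AX (A l)` (sums over the families with one member).
-/

set_option autoImplicit false

namespace Pool.Agent.ROT.X

open Pool.Agent.EXL (Wt YB)
open Pool.Agent.YBC (Dir)
open Pool.Agent.UNI (wR)
open Pool.Agent.ROT.E (Cell IsUn Pt)
open Pool.Agent.ROT.E.Lab (un_oc un_o un_zero)
open Pool.Agent.ROT.L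

noncomputable section

variable {I : Type}

/-! ### one vertex -/

/-- domination of the double states by the squares of the turns -/
structure Dom (w : Wt ℝ) (K : ℝ) : Prop where
  one : 1 ≤ K
  w1 : |w.w1| ≤ K * w.u1 ^ 2
  w2 : |w.w2| ≤ K * w.u2 ^ 2

theorem sub_cases : ∀ a c : Cell, (∀ d, a.oc d → c.p d = a.p d) →
    a = .o ∨ a = c ∨ (c = .x ∧ (a = .sw ∨ a = .ne)) ∨ (c = .y ∧ (a = .se ∨ a = .nw)) := by decide

/-- two arcs at one vertex -/
private theorem two_arcs [Fintype I] {w : Wt ℝ} {f : I → Cell} {c a b : Cell} (hc : IsUn f c) {i0 : I} (h0 : f i0 = a)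
    (hd : ∀ d : Dir, a.oc d ∨ b.oc d) (hb : ∃ d, c.oc d ∧ b.oc d ∧ ¬ a.oc d)
    (hs : ∀ z : Cell, (∃ d, b.oc d ∧ ¬ a.oc d ∧ z.oc d) → (∀ d, a.oc d → ¬ z.oc d) → (∀ d, z.oc d → c.p d = z.p d) → z = b) :
    ∏ l, |(f l).wt w| = |a.wt w| * |b.wt w| := by
  classical
  obtain ⟨d, hcd, hd1, hd2⟩ := hb
  obtain ⟨i1, hi1⟩ := (un_oc hc d).1 hcd
  have hne : i0 ≠ i1 := by
    rintro rfl
    rw [h0] at hi1
    exact hd2 hi1
  have h1 : f i1 = b := by
    refine hs _ ⟨d, hd1, hd2, hi1⟩ (fun d' ha hx => hne ?_) fun d' hx => hc.1 i1 d' hx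
    exact hc.2.1 i0 i1 d' (by rw [h0]; exact ha) hx
  rw [Finset.prod_eq_mul i0 i1 hne, h0, h1]
  · rintro l - ⟨hl0, hl1⟩
    have h2 : f l = .o := by
      rw [E.Lab.eq_o]
      intro d' hd'
      rcases hd d' with h | h
      · exact hl0 (hc.2.1 l i0 d' hd' (by rw [h0]; exact h))
      · exact hl1 (hc.2.1 l i1 d' hd' (by rw [h1]; exact h))
    rw [h2]
    simp [E.Cell.wt]
  · intro h; exact (h (Finset.mem_univ _)).elim
  · intro h; exact (h (Finset.mem_univ _)).elim

/-- **the weight of the union of local states** -/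
theorem un_prod [Fintype I] {w : Wt ℝ} {K : ℝ} (h : Dom w K) {f : I → Cell} {c : Cell} (hc : IsUn f c) :
    |c.wt w| ≤ K * ∏ l, |(f l).wt w| := by
  classical
  have hK : 0 ≤ K := zero_le_one.trans h.one
  have all_o : (∀ l, f l = .o) → ∏ l, |(f l).wt w| = 1 := fun hl =>
    Finset.prod_eq_one fun l _ => by rw [hl l]; simp [E.Cell.wt]
  by_cases hco : c = .o
  · rw [all_o ((un_o hc).1 hco), hco]
    simpa [E.Cell.wt] using h.one
  · have hsome : ∃ i, f i ≠ .o := by
      by_contra hn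
      push Not at hn
      exact hco ((un_o hc).2 hn)
    obtain ⟨i0, hi0⟩ := hsome
    have hsub := sub_cases (f i0) c fun d hd => hc.1 i0 d hd
    rcases hsub with h1 | h1 | ⟨hx, h1 | h1⟩ | ⟨hy, h1 | h1⟩
    · exact absurd h1 hi0
    · have e : ∏ l, |(f l).wt w| = |c.wt w| := by
        rw [Finset.prod_eq_single i0, h1]
        · intro l _ hl
          have h2 : f l = .o := by
            rw [E.Lab.eq_o]
            intro d hd
            refine hl (hc.2.1 l i0 d hd ?_)
            rw [h1]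
            exact (un_oc hc d).2 ⟨l, hd⟩
          rw [h2]
          simp [E.Cell.wt]
        · intro h'; exact (h' (Finset.mem_univ _)).elim
      rw [e]
      exact le_mul_of_one_le_left (abs_nonneg _) h.one
    · subst hx
      rw [two_arcs (w := w) (b := .ne) hc h1 (by decide) (by decide) (by decide)]
      show |w.w1| ≤ K * (|w.u1| * |w.u1|)
      rw [abs_mul_abs_self, ← pow_two]
      exact h.w1
    · subst hx
      rw [two_arcs (w := w) (b := .sw) hc h1 (by decide) (by decide) (by decide)]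
      show |w.w1| ≤ K * (|w.u1| * |w.u1|)
      rw [abs_mul_abs_self, ← pow_two]
      exact h.w1
    · subst hy
      rw [two_arcs (w := w) (b := .nw) hc h1 (by decide) (by decide) (by decide)]
      show |w.w2| ≤ K * (|w.u2| * |w.u2|)
      rw [abs_mul_abs_self, ← pow_two]
      exact h.w2
    · subst hy
      rw [two_arcs (w := w) (b := .se) hc h1 (by decide) (by decide) (by decide)]
      show |w.w2| ≤ K * (|w.u2| * |w.u2|)
      rw [abs_mul_abs_self, ← pow_two]
      exact h.w2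

theorem wfg_prod [Fintype I] {w : Wt ℝ} {K : ℝ} (h : Dom w K) {f : I → Cell} (hc : ∃ c, IsUn f c) :
    |wfg (fun c => c.wt w) f| ≤ K * ∏ l, |(f l).wt w| := by
  obtain ⟨c, hc⟩ := hc
  rw [wfg_unX hc]
  exact un_prod h hc

/-! ### members -/

/-- **the member `l`** as a family with one member -/
def mb (γ : FX I) (l : I) : FX Unit := γ.mapRange (fun f _ => f l) rfl

theorem mb_apply (γ : FX I) (l : I) (v : VX) (a : Unit) : mb γ l v a = γ v l := rfl

theorem co_mb (γ : FX I) (l : I) : co (mb γ l) () = co γ l := by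
  ext1 v
  rfl

theorem mb_ne {γ : FX I} {l : I} {v : VX} : mb γ l v ≠ 0 ↔ γ v l ≠ .o := by
  constructor
  · intro h h1
    exact h (funext fun _ => h1)
  · intro h h1
    exact h (congrFun h1 ())

theorem mb_supp {γ : FX I} {l : I} : (mb γ l).support ⊆ γ.support := by
  intro v hv
  rw [Finsupp.mem_support_iff, mb_ne] at hv
  rw [Finsupp.mem_support_iff]
  intro h
  exact hv (by rw [h]; rfl)

theorem un_one {f : Unit → Cell} : IsUn f (f ()) :=
  ⟨fun _ _ _ => rfl, fun _ _ _ _ _ => rfl, fun _ h => ⟨(), h⟩⟩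

theorem mb_fam {G : Gr VX} {γ : FX I} (f : Fam G γ) (l : I) : Fam G (mb γ l) :=
  ⟨fun _ => by
    show Lp G (co (mb γ l) ())
    rw [co_mb]
    exact f.lp l, fun v => ⟨mb γ l v (), un_one⟩⟩

/-- a family with one member from a configuration -/
theorem fam_one {G : Gr VX} {δ : FX Unit} : Fam G δ ↔ Lp G (co δ ()) :=
  ⟨fun f => f.lp (), fun h => ⟨fun _ => h, fun v => ⟨δ v (), un_one⟩⟩⟩

theorem WX_one {W : VX → Wt ℝ} {δ : FX Unit} : WX W δ = ∏ v ∈ δ.support, (δ v ()).wt (W v) :=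
  Finset.prod_congr rfl fun v _ => wfg_unX un_one

theorem WX_mb {W : VX → Wt ℝ} {γ : FX I} {l : I} : WX W (mb γ l) = ∏ v ∈ γ.support, (γ v l).wt (W v) := by
  rw [WX_one]
  refine Finset.prod_subset mb_supp fun v _ hv => ?_
  rw [Finsupp.mem_support_iff, mb_ne, not_not] at hv
  rw [mb_apply, hv]
  rfl

theorem cl_mb (γ : FX I) (l : I) : cl (mb γ l) () = cl γ l := by
  ext v
  rw [mem_cl, mem_cl, mb_apply]

theorem ht_mb (γ : FX I) (l : I) : ht (mb γ l) () = ht γ l := by
  unfold ht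
  rw [cl_mb]

/-- local products read the member only -/
theorem lf_mb {θ : VX → Cell → ℝ} (h : ∀ v, θ v .o = 1) (γ : FX I) (l : I) : lf θ (mb γ l) () = lf θ γ l := by
  unfold lf
  simp only [mb_apply]
  refine Finset.prod_subset mb_supp fun v _ hv => ?_
  rw [Finsupp.mem_support_iff, mb_ne, not_not] at hv
  rw [hv, h]

theorem rt_o : rt .o = 1 := by simp [rt, E.Cell.wt]

theorem thR_o (j s R : ℤ) (v : VX) : thR j s R v .o = 1 := by
  cases v <;> simp [thR, rt_o]

theorem thL_o (j s R : ℤ) (v : VX) : thL j s R v .o = 1 := by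
  cases v <;> simp [thL, rt_o]

theorem thT_o (j s R : ℤ) (v : VX) : thT j s R v .o = 1 := by
  cases v <;> simp [thT, tf]

theorem thB_o (j s R : ℤ) (v : VX) : thB j s R v .o = 1 := by
  cases v <;> simp [thB, bf]

theorem cR_mb (j s : ℤ) (γ : FX I) (l : I) : cR j s (mb γ l) () = cR j s γ l := by
  unfold cR
  rw [ht_mb, lf_mb (thR_o _ _ _)]

theorem cL_mb (j s : ℤ) (γ : FX I) (l : I) : cL j s (mb γ l) () = cL j s γ l := by
  unfold cL
  rw [ht_mb, lf_mb (thL_o _ _ _)]

theorem cT_mb (j s : ℤ) (γ : FX I) (l : I) : cT j s (mb γ l) () = cT j s γ l := by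
  unfold cT
  rw [ht_mb, lf_mb (thT_o _ _ _)]

theorem cB_mb (j s : ℤ) (γ : FX I) (l : I) : cB j s (mb γ l) () = cB j s γ l := by
  unfold cB
  rw [ht_mb, lf_mb (thB_o _ _ _)]

theorem Us_mb {j r : ℤ} {γ : FX I} {l : I} : Us j r (mb γ l) () ↔ Us j r γ l := Iff.rfl
theorem ExR_mb {j r : ℤ} {γ : FX I} {l : I} : ExR j r (mb γ l) () ↔ ExR j r γ l := Iff.rfl
theorem ExL_mb {j r : ℤ} {γ : FX I} {l : I} : ExL j r (mb γ l) () ↔ ExL j r γ l := Iff.rfl
theorem ExT_mb {j r : ℤ} {γ : FX I} {l : I} : ExT j r (mb γ l) () ↔ ExT j r γ l := Iff.rfl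
theorem ExB_mb {j r : ℤ} {γ : FX I} {l : I} : ExB j r (mb γ l) () ↔ ExB j r γ l := Iff.rfl
theorem Ex_mb {j r : ℤ} {γ : FX I} {l : I} : Ex j r (mb γ l) () ↔ Ex j r γ l := Iff.rfl

theorem Bx_mb {B : ℤ} {γ : FX I} (h : Bx B γ) (l : I) : Bx B (mb γ l) := fun a b hv => h a b fun h0 => by
  rw [mb_ne] at hv
  exact hv (by rw [h0]; rfl)

/-- a family is in the box iff its members are -/
theorem Bx_iff {B : ℤ} {γ : FX I} : Bx B γ ↔ ∀ l, Bx B (mb γ l) := by
  refine ⟨Bx_mb, fun h a b hv => ?_⟩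
  obtain ⟨l, hl⟩ : ∃ l, γ (some (a, b)) l ≠ .o := by
    by_contra hn
    push Not at hn
    exact hv (funext hn)
  exact h l a b (mb_ne.2 hl)

theorem mb_inj {γ γ' : FX I} (h : ∀ l, mb γ l = mb γ' l) : γ = γ' := by
  ext v l
  exact congrFun (DFunLike.congr_fun (h l) v) ()

/-! ### the weight of a family -/

/-- **product domination** -/
theorem WX_prod [Fintype I] {W : VX → Wt ℝ} {K : ℝ} (h0 : Dom (W none) K) (h : ∀ v, Dom (W (some v)) 1) {γ : FX I}
    (dj : ∀ v, ∃ c, IsUn (γ v) c) : |WX W γ| ≤ K * ∏ l, |WX W (mb γ l)| := by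
  classical
  have hK : 0 ≤ K := zero_le_one.trans h0.one
  have e1 : |WX W γ| = ∏ v ∈ γ.support, |wfg (fun c => c.wt (W v)) (γ v)| := Finset.abs_prod _ _
  have e2 : ∏ l, |WX W (mb γ l)| = ∏ v ∈ γ.support, ∏ l, |(γ v l).wt (W v)| := by
    rw [Finset.prod_comm]
    exact Finset.prod_congr rfl fun l _ => by rw [WX_mb, Finset.abs_prod]
  set κ : VX → ℝ := fun v => if v = none then K else 1 with hκ
  have h1 : ∀ v, |wfg (fun c => c.wt (W v)) (γ v)| ≤ κ v * ∏ l, |(γ v l).wt (W v)| := by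
    intro v
    obtain _ | v := v
    · exact wfg_prod h0 (dj _)
    · exact wfg_prod (h v) (dj _)
  have h2 : ∏ v ∈ γ.support, κ v ≤ K := by
    by_cases hn : (none : VX) ∈ γ.support
    · rw [Finset.prod_eq_single_of_mem none hn fun v _ hv => if_neg hv]
      exact (if_pos rfl).le
    · rw [Finset.prod_eq_one fun v hv => if_neg fun hv' => hn (by rw [← hv']; exact hv)]
      exact h0.one
  rw [e1, e2]
  calc ∏ v ∈ γ.support, |wfg (fun c => c.wt (W v)) (γ v)| ≤ ∏ v ∈ γ.support, (κ v * ∏ l, |(γ v l).wt (W v)|) :=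
        Finset.prod_le_prod (fun _ _ => abs_nonneg _) fun v _ => h1 v
    _ = (∏ v ∈ γ.support, κ v) * ∏ v ∈ γ.support, ∏ l, |(γ v l).wt (W v)| := Finset.prod_mul_distrib
    _ ≤ K * ∏ v ∈ γ.support, ∏ l, |(γ v l).wt (W v)| :=
        mul_le_mul_of_nonneg_right h2 (Finset.prod_nonneg fun _ _ => Finset.prod_nonneg fun _ _ => abs_nonneg _)

/-! ### the angles -/

theorem dom_aux {u K : ℝ} (h0 : 0 < u) (h1 : u < 3 * Real.pi / 8) (hK : 1 ≤ K)
    (a : 2 * |Real.sin (Real.pi / 4 - u)| * UNI.DR u ≤ K * Real.sin (3 * Real.pi / 8 - u))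
    (b : 2 * |Real.sin (u - Real.pi / 8)| * UNI.DR u ≤ K * Real.sin u) : Dom (wR u) K := by
  have hp := Real.pi_pos
  have hD : 0 < UNI.DR u := UNI.DR_pos (by linarith) (by linarith)
  have hS : 0 < Real.sin (3 * Real.pi / 8 - u) := Real.sin_pos_of_pos_of_lt_pi (by linarith) (by linarith)
  have hu : 0 < Real.sin u := Real.sin_pos_of_pos_of_lt_pi h0 (by linarith)
  have hq : Real.sin (Real.pi / 4) ^ 2 = 1 / 2 := by
    rw [Real.sin_pi_div_four, div_pow, Real.sq_sqrt (by norm_num)]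
    norm_num
  refine ⟨hK, ?_, ?_⟩
  · show |Real.sin (Real.pi / 4 - u) * Real.sin (3 * Real.pi / 8 - u) / UNI.DR u| ≤
      K * (Real.sin (Real.pi / 4) * Real.sin (3 * Real.pi / 8 - u) / UNI.DR u) ^ 2
    rw [abs_div, abs_mul, abs_of_pos hS, abs_of_pos hD, div_pow, mul_pow, hq, ← sub_nonneg]
    have e : K * (1 / 2 * Real.sin (3 * Real.pi / 8 - u) ^ 2 / UNI.DR u ^ 2) -
        |Real.sin (Real.pi / 4 - u)| * Real.sin (3 * Real.pi / 8 - u) / UNI.DR u =
        Real.sin (3 * Real.pi / 8 - u) / (2 * UNI.DR u ^ 2) *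
          (K * Real.sin (3 * Real.pi / 8 - u) - 2 * |Real.sin (Real.pi / 4 - u)| * UNI.DR u) := by
      field_simp
    rw [e]
    exact mul_nonneg (by positivity) (by linarith)
  · show |Real.sin u * Real.sin (u - Real.pi / 8) / UNI.DR u| ≤ K * (Real.sin (Real.pi / 4) * Real.sin u / UNI.DR u) ^ 2
    rw [abs_div, abs_mul, abs_of_pos hu, abs_of_pos hD, div_pow, mul_pow, hq, ← sub_nonneg]
    have e : K * (1 / 2 * Real.sin u ^ 2 / UNI.DR u ^ 2) - Real.sin u * |Real.sin (u - Real.pi / 8)| / UNI.DR u =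
        Real.sin u / (2 * UNI.DR u ^ 2) * (K * Real.sin u - 2 * |Real.sin (u - Real.pi / 8)| * UNI.DR u) := by
      field_simp
    rw [e]
    exact mul_nonneg (by positivity) (by linarith)

/-- **all the angles from 60 to 120 degrees with `u1 ≥ u2`**: `K = 1` -/
theorem dom_of {u : ℝ} (h1 : Real.pi / 8 ≤ u) (h2 : u ≤ Real.pi / 4) : Dom (wR u) 1 := by
  have hp := Real.pi_pos
  refine dom_aux (by linarith) (by linarith) le_rfl ?_ ?_
  · have hA : 0 ≤ Real.sin (Real.pi / 4 - u) := Real.sin_nonneg_of_nonneg_of_le_pi (by linarith) (by linarith)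
    rw [abs_of_nonneg hA, one_mul]
    unfold UNI.DR
    have e1 : 2 * Real.sin (Real.pi / 4 - u) * (Real.sin (u + Real.pi / 4) * Real.sin (u + 3 * Real.pi / 8)) =
        (Real.sin (3 * u + 3 * Real.pi / 8) + Real.sin (3 * Real.pi / 8 - u)) / 2 := by
      have h3 : 2 * Real.sin (Real.pi / 4 - u) * Real.sin (u + Real.pi / 4) = Real.cos (2 * u) := by
        have := Real.cos_sub (Real.pi / 4 - u) (u + Real.pi / 4)
        have h4 := Real.cos_add (Real.pi / 4 - u) (u + Real.pi / 4)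
        rw [show Real.pi / 4 - u - (u + Real.pi / 4) = -(2 * u) by ring, Real.cos_neg] at this
        rw [show Real.pi / 4 - u + (u + Real.pi / 4) = Real.pi / 2 by ring, Real.cos_pi_div_two] at h4
        linarith
      have h5 : 2 * Real.cos (2 * u) * Real.sin (u + 3 * Real.pi / 8) =
          Real.sin (3 * u + 3 * Real.pi / 8) + Real.sin (3 * Real.pi / 8 - u) := by
        have h6 := Real.sin_add (u + 3 * Real.pi / 8) (2 * u)
        have h7 := Real.sin_sub (u + 3 * Real.pi / 8) (2 * u)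
        rw [show u + 3 * Real.pi / 8 + 2 * u = 3 * u + 3 * Real.pi / 8 by ring] at h6
        rw [show u + 3 * Real.pi / 8 - 2 * u = 3 * Real.pi / 8 - u by ring] at h7
        linarith
      rw [← mul_assoc, h3]
      linarith
    have h8 : Real.sin (3 * u + 3 * Real.pi / 8) ≤ Real.sin (3 * Real.pi / 8 - u) := by
      rw [← Real.sin_pi_sub]
      exact Real.sin_le_sin_of_le_of_le_pi_div_two (by linarith) (by linarith) (by linarith)
    rw [e1]
    linarith
  · have hA : 0 ≤ Real.sin (u - Real.pi / 8) := Real.sin_nonneg_of_nonneg_of_le_pi (by linarith) (by linarith)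
    rw [abs_of_nonneg hA, one_mul]
    unfold UNI.DR
    have h3 : 2 * Real.sin (u - Real.pi / 8) * Real.sin (u + 3 * Real.pi / 8) = Real.sin (2 * u - Real.pi / 4) := by
      have h4 := Real.cos_sub (u - Real.pi / 8) (u + 3 * Real.pi / 8)
      have h5 := Real.cos_add (u - Real.pi / 8) (u + 3 * Real.pi / 8)
      rw [show u - Real.pi / 8 - (u + 3 * Real.pi / 8) = -(Real.pi / 2) by ring, Real.cos_neg, Real.cos_pi_div_two] at h4
      rw [show u - Real.pi / 8 + (u + 3 * Real.pi / 8) = 2 * u - Real.pi / 4 + Real.pi / 2 by ring, Real.cos_add_pi_div_two] at h5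
      linarith
    have h6 : 2 * Real.sin (2 * u - Real.pi / 4) * Real.sin (u + Real.pi / 4) = Real.sin u - Real.cos (3 * u) := by
      have h4 := Real.cos_sub (2 * u - Real.pi / 4) (u + Real.pi / 4)
      have h5 := Real.cos_add (2 * u - Real.pi / 4) (u + Real.pi / 4)
      rw [show 2 * u - Real.pi / 4 - (u + Real.pi / 4) = u - Real.pi / 2 by ring, Real.cos_sub_pi_div_two] at h4
      rw [show 2 * u - Real.pi / 4 + (u + Real.pi / 4) = 3 * u by ring] at h5
      linarith
    have h7 : -Real.sin u ≤ Real.cos (3 * u) := by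
      rw [← Real.cos_add_pi_div_two]
      exact Real.cos_le_cos_of_nonneg_of_le_pi (by linarith) (by linarith) (by linarith)
    calc 2 * Real.sin (u - Real.pi / 8) * (Real.sin (u + Real.pi / 4) * Real.sin (u + 3 * Real.pi / 8))
        = (2 * Real.sin (u - Real.pi / 8) * Real.sin (u + 3 * Real.pi / 8)) * Real.sin (u + Real.pi / 4) := by ring
      _ = (Real.sin u - Real.cos (3 * u)) / 2 := by rw [h3, ← h6]; ring
      _ ≤ Real.sin u := by linarith

/-- the crossing -/
theorem dom_d : Dom (wR dA) 2 := by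
  have hp := Real.pi_pos
  have hD : UNI.DR dA ≤ 1 := by
    unfold UNI.DR
    exact mul_le_one₀ (Real.sin_le_one _) (Real.sin_nonneg_of_nonneg_of_le_pi (by unfold dA; linarith) (by unfold dA; linarith))
      (Real.sin_le_one _)
  have hD0 : 0 < UNI.DR dA := UNI.DR_pos (by unfold dA; linarith) (by unfold dA; linarith)
  refine dom_aux (by unfold dA; linarith) (by unfold dA; linarith) (by norm_num) ?_ ?_
  · have h1 : 0 ≤ Real.sin (Real.pi / 4 - dA) := Real.sin_nonneg_of_nonneg_of_le_pi (by unfold dA; linarith) (by unfold dA; linarith)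
    have h2 : Real.sin (Real.pi / 4 - dA) ≤ Real.sin (3 * Real.pi / 8 - dA) :=
      Real.sin_le_sin_of_le_of_le_pi_div_two (by unfold dA; linarith) (by unfold dA; linarith) (by linarith)
    rw [abs_of_nonneg h1]
    nlinarith
  · have h1 : Real.sin (dA - Real.pi / 8) = -Real.sin dA := by
      rw [← Real.sin_neg]
      congr 1
      unfold dA
      ring
    have h2 : 0 < Real.sin dA := Real.sin_pos_of_pos_of_lt_pi (by unfold dA; linarith) (by unfold dA; linarith)
    rw [h1, abs_neg, abs_of_pos h2]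
    nlinarith

theorem dom_b : Dom (wR bA) 1 := dom_of (by unfold bA; linarith [Real.pi_pos]) (by unfold bA; linarith [Real.pi_pos])

theorem dom_h : Dom (wR hA) 1 := dom_of (by unfold hA; linarith [Real.pi_pos]) (by unfold hA; linarith [Real.pi_pos])

theorem dom_latj (k j c : ℤ) : Dom (wR (latj k j c)) 1 := by
  unfold latj
  split_ifs
  · exact dom_b
  · exact dom_h

theorem dom_WE (k j s : ℤ) (v : Pt) : Dom (WE k j s (some v)) 1 := by
  simp only [WE, WL]
  split_ifs
  · exact dom_b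
  · exact dom_h
  · exact dom_h
  · exact dom_b
  · exact dom_latj _ _ _

/-- **product domination on the lattices of the sweep** -/
theorem WE_prod [Fintype I] {k j s : ℤ} {γ : FX I} (f : Fam (gX j s) γ) :
    |WX (WE k j s) γ| ≤ 2 * ∏ l, |WX (WE k j s) (mb γ l)| :=
  WX_prod dom_d (dom_WE k j s) f.dj

/-! ### sums -/

theorem fin_Bx [Finite I] (B : ℤ) : {γ : FX I | Bx B γ}.Finite := by
  refine (fin_supp (bxs B)).subset fun γ h v hv => ?_
  rw [Finsupp.mem_support_iff] at hv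
  obtain _ | ⟨a, b⟩ := v
  · exact Finset.mem_insert_self _ _
  · have h1 := h a b hv
    rw [abs_le, abs_le] at h1
    refine Finset.mem_insert_of_mem (Finset.mem_map.2 ⟨(a, b), ?_, rfl⟩)
    rw [Finset.mem_product, Finset.mem_Icc, Finset.mem_Icc]
    exact h1

open Classical in
/-- `AX` is a finite sum -/
theorem AX_eq [Finite I] {k j s B : ℤ} {G : FX I → ℝ} : AX k j s B G =
    ∑ γ ∈ (fin_Bx B).toFinset, if Fam (gX j s) γ ∧ Bx B γ then |WX (WE k j s) γ| * G γ else 0 :=
  tsum_eq_sum fun γ hγ => if_neg fun h => hγ ((Set.Finite.mem_toFinset _).2 h.2)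

/-- **the sum over the families against the sums over their members** -/
theorem AX_prod [Fintype I] {k j s B : ℤ} {A : I → FX Unit → ℝ} (hA : ∀ l δ, 0 ≤ A l δ) :
    AX k j s B (fun γ : FX I => ∏ l, A l (mb γ l)) ≤ 2 * ∏ l, AX k j s B (A l) := by
  classical
  rw [AX_eq]
  have e : ∀ l, AX k j s B (A l) = ∑ δ ∈ (fin_Bx (I := Unit) B).toFinset,
      if Fam (gX j s) δ ∧ Bx B δ then |WX (WE k j s) δ| * A l δ else 0 := fun l => AX_eq
  simp only [e]
  rw [Finset.prod_univ_sum, Finset.mul_sum]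
  set g : FX I → (I → FX Unit) := fun γ l => mb γ l with hg
  have inj : Function.Injective g := fun γ γ' h => mb_inj fun l => congrFun h l
  set F : (I → FX Unit) → ℝ := fun θ => 2 * ∏ l, if Fam (gX j s) (θ l) ∧ Bx B (θ l) then |WX (WE k j s) (θ l)| * A l (θ l) else 0
    with hF
  have F0 : ∀ θ, 0 ≤ F θ := fun θ => mul_nonneg (by norm_num) (Finset.prod_nonneg fun l _ => by
    split_ifs
    · exact mul_nonneg (abs_nonneg _) (hA _ _)
    · exact le_rfl)
  calc ∑ γ ∈ (fin_Bx B).toFinset, (if Fam (gX j s) γ ∧ Bx B γ then |WX (WE k j s) γ| * ∏ l, A l (mb γ l) else 0)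
      ≤ ∑ γ ∈ (fin_Bx (I := I) B).toFinset, F (g γ) := by
        refine Finset.sum_le_sum fun γ _ => ?_
        by_cases h : Fam (gX j s) γ ∧ Bx B γ
        · rw [if_pos h]
          have h1 : ∀ l, (if Fam (gX j s) (g γ l) ∧ Bx B (g γ l) then |WX (WE k j s) (g γ l)| * A l (g γ l) else 0) =
              |WX (WE k j s) (mb γ l)| * A l (mb γ l) := fun l => if_pos ⟨mb_fam h.1 l, Bx_mb h.2 l⟩
          show _ ≤ 2 * ∏ l, _
          rw [Finset.prod_congr rfl fun l _ => h1 l, Finset.prod_mul_distrib, ← mul_assoc]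
          exact mul_le_mul_of_nonneg_right (WE_prod h.1) (Finset.prod_nonneg fun l _ => hA _ _)
        · rw [if_neg h]
          exact F0 _
    _ = ∑ θ ∈ ((fin_Bx (I := I) B).toFinset.image g), F θ := (Finset.sum_image fun γ _ γ' _ h => inj h).symm
    _ ≤ ∑ θ ∈ Fintype.piFinset fun _ => (fin_Bx (I := Unit) B).toFinset, F θ := by
        refine Finset.sum_le_sum_of_subset_of_nonneg ?_ fun θ _ _ => F0 θ
        intro θ hθ
        obtain ⟨γ, hγ, rfl⟩ := Finset.mem_image.1 hθ
        rw [Fintype.mem_piFinset]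
        intro l
        rw [Set.Finite.mem_toFinset] at hγ ⊢
        exact Bx_mb hγ l

end

end Pool.Agent.ROT.X
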