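import Pool.Agent.ROT.XBalT
import Pool.Agent.ROT.XIneq
import Pool.Agent.ROT.XLoc
import Pool.Agent.ROT.XProd
import Pool.Agent.ROT.EAlg
import Pool.Agent.ROT.LHeX
import Pool.Agent.ROT.LHe

/-!
# UNIV, exact side (helper65): the functional of one height is balanced

`sg r t` = the row of the crossing of the graph `t` (`r + 1`, `r` for `t = 1, 2`).

* `val_R .. val_B` : for a member which is not extreme (on that side) the height and the coefficient are class constants;
* `ext_R .. ext_B` : for an extreme member the functional of one height is `K + k t (cells) * M` (`k` = the kernels of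
  `ROT/XBalT`, `K`, `M` class constants);
* **`bal`** : the class sums of the functional of one height agree in the two graphs if the member is not extreme on that side
  or is alone in the region.
-/

set_option autoImplicit false

namespace Pool.Agent.ROT.X.Bl

open Pool.Agent.EXL (Wt YB)
open Pool.Agent.YBC (Dir)
open Pool.Agent.UNI (wR)
open Pool.Agent.ROT.E (Cell IsUn Pt)
open Pool.Agent.ROT.L

noncomputable section

variable {I : Type} {j r : ℤ} {t t' : Fin 3} {γ γ' : FX I} {i : I}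

/-- the row of the crossing of the graph `t` -/
def sg (r : ℤ) (t : Fin 3) : ℤ := if t = 1 then r + 1 else r

theorem sg_cases (r : ℤ) (t : Fin 3) : sg r t = r + 1 ∨ sg r t = r := by
  rw [sg]
  split_ifs
  · exact Or.inl rfl
  · exact Or.inr rfl

theorem t_cases (ht : t ≠ 0) : t = 1 ∨ t = 2 := by
  fin_cases t
  · exact absurd rfl ht
  · exact Or.inl rfl
  · exact Or.inr rfl

theorem Gt_sg (ht : t ≠ 0) : Gt j r t = gX j (sg r t) := by
  rcases t_cases ht with rfl | rfl
  · rfl
  · rfl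

/-! ### local products -/

/-- the local product outside of the region -/
def lfO (θ : VX → Cell → ℝ) (j r : ℤ) (γ : FX I) (i : I) : ℝ := ∏ v ∈ So j r γ, θ v (γ v i)

theorem lf_eq {θ : VX → Cell → ℝ} (h0 : ∀ v, θ v .o = 1) {s : Finset VX} (h : γ.support ⊆ s) :
    lf θ γ i = ∏ v ∈ s, θ v (γ v i) := by
  refine Finset.prod_subset h fun v _ hv => ?_
  rw [Finsupp.notMem_support_iff] at hv
  rw [hv]
  exact h0 v

theorem lf_cls {θ : VX → Cell → ℝ} (h0 : ∀ v, θ v .o = 1) : lf θ γ i = lfO θ j r γ i * (θ none (γ none i) *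
    (θ (some (j, r)) (γ (some (j, r)) i) * θ (some (j + 1, r)) (γ (some (j + 1, r)) i))) := by
  classical
  have sup : γ.support ⊆ insert none (insert (some (j, r)) (insert (some (j + 1, r)) (So j r γ))) := by
    intro v hv
    simp only [Finset.mem_insert]
    by_cases h : v ∈ Rg j r
    · simp only [Rg, Set.mem_insert_iff, Set.mem_singleton_iff] at h
      tauto
    · right; right; right
      rw [mem_So']
      exact ⟨h, Finsupp.mem_support_iff.1 hv⟩
  have n0 : (none : VX) ∉ So j r γ := fun h => (mem_So'.1 h).1 (Or.inl rfl)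
  have n1 : (some (j, r) : VX) ∉ So j r γ := fun h => (mem_So'.1 h).1 (Or.inr (Or.inl rfl))
  have n2 : (some (j + 1, r) : VX) ∉ So j r γ := fun h => (mem_So'.1 h).1 (Or.inr (Or.inr rfl))
  rw [lf_eq h0 sup, Finset.prod_insert, Finset.prod_insert, Finset.prod_insert n2, lfO]
  · ring
  · simp only [Finset.mem_insert, Option.some.injEq, Prod.mk.injEq, and_true, n1, or_false]
    omega
  · simp only [Finset.mem_insert, reduceCtorEq, n0, or_self, not_false_eq_true]

theorem So_eq (out : ∀ v, v ∉ Rg j r → γ v = γ' v) : So j r γ = So j r γ' := by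
  ext v
  rw [mem_So', mem_So']
  constructor
  · rintro ⟨h1, h2⟩
    exact ⟨h1, by rw [← out v h1]; exact h2⟩
  · rintro ⟨h1, h2⟩
    exact ⟨h1, by rw [out v h1]; exact h2⟩

theorem lfO_out (θ : VX → Cell → ℝ) (out : ∀ v, v ∉ Rg j r → γ v = γ' v) (i : I) : lfO θ j r γ i = lfO θ j r γ' i := by
  rw [lfO, lfO, So_eq out]
  exact Finset.prod_congr rfl fun v hv => by rw [out v (mem_So'.1 hv).1]

theorem lfO_congr {θ θ' : VX → Cell → ℝ} (h : ∀ a b : ℤ, (some (a, b) : VX) ∉ Rg j r → γ (some (a, b)) i ≠ .o →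
    θ (some (a, b)) (γ (some (a, b)) i) = θ' (some (a, b)) (γ (some (a, b)) i)) (h0 : ∀ v, θ v .o = 1) (h0' : ∀ v, θ' v .o = 1) :
    lfO θ j r γ i = lfO θ' j r γ i := by
  refine Finset.prod_congr rfl fun v hv => ?_
  obtain ⟨h1, h2⟩ := mem_So'.1 hv
  obtain _ | ⟨a, b⟩ := v
  · exact absurd (none_mem_Rg j r) h1
  · by_cases h3 : γ (some (a, b)) i = .o
    · rw [h3, h0, h0']
    · exact h a b h1 h3

theorem lfO_one {θ : VX → Cell → ℝ} (h : ∀ a b : ℤ, (some (a, b) : VX) ∉ Rg j r → γ (some (a, b)) i ≠ .o →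
    θ (some (a, b)) (γ (some (a, b)) i) = 1) (h0 : ∀ v, θ v .o = 1) : lfO θ j r γ i = 1 := by
  have := lfO_congr (θ := θ) (θ' := fun _ _ => 1) h h0 fun _ => rfl
  rw [this]
  exact Finset.prod_const_one

theorem lfO_zero {θ : VX → Cell → ℝ} {a b : ℤ} (h1 : (some (a, b) : VX) ∉ Rg j r) (h2 : γ (some (a, b)) i ≠ .o)
    (h : θ (some (a, b)) (γ (some (a, b)) i) = 0) : lfO θ j r γ i = 0 := by
  refine Finset.prod_eq_zero (i := some (a, b)) ?_ h
  rw [mem_So']
  refine ⟨h1, fun h3 => h2 ?_⟩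
  rw [h3]
  rfl

/-! ### members in the region -/

theorem us_Us (f : Fam (Gt j r t) γ) (g : Gd (Rg j r) γ) : us j r γ i ↔ Us j r γ i := us_iff (port_Gt j r t) f g i

theorem Us_eq (h : Eq6 (Rg j r) (Gt j r t) (Gt j r t') γ γ') (i : I) : Us j r γ i ↔ Us j r γ' i := by
  rw [← us_Us h.fam h.gd, ← us_Us h.fam' h.gd']
  exact us_congr h.out i

theorem Off_eq (h : Eq6 (Rg j r) (Gt j r t) (Gt j r t') γ γ') (i : I) (P : Pt → Prop) : Off j r γ i P ↔ Off j r γ' i P := by
  constructor
  · intro k p hp h0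
    exact k p hp (by rw [h.out _ hp]; exact h0)
  · intro k p hp h0
    exact k p hp (by rw [← h.out _ hp]; exact h0)

theorem not_Us (h : ¬ Us j r γ i) : γ none i = .o ∧ γ (some (j, r)) i = .o ∧ γ (some (j + 1, r)) i = .o := by
  refine ⟨?_, ?_, ?_⟩
  · by_contra h0
    exact h ⟨_, Or.inl rfl, h0⟩
  · by_contra h0
    exact h ⟨_, Or.inr (Or.inl rfl), h0⟩
  · by_contra h0
    exact h ⟨_, Or.inr (Or.inr rfl), h0⟩

theorem Us_cases (h : Us j r γ i) : γ none i ≠ .o ∨ γ (some (j, r)) i ≠ .o ∨ γ (some (j + 1, r)) i ≠ .o := by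
  obtain ⟨v, rfl | rfl | rfl, h0⟩ := h
  · exact Or.inl h0
  · exact Or.inr (Or.inl h0)
  · exact Or.inr (Or.inr h0)

/-- a cell of the member: in the region or off it -/
theorem cell_cases {a b : ℤ} : (some (a, b) : VX) ∈ Rg j r ∨ (some (a, b) : VX) ∉ Rg j r := em _

/-- the heights of a member which is not in the region -/
theorem he_not (f : Fam (Gt j r t) γ) (g : Gd (Rg j r) γ) (h : ¬ Us j r γ i) : he j r γ i = ht γ i :=
  heX_nus fun h1 => h ((us_Us f g).1 h1)

theorem ex_us (f : Fam (Gt j r t) γ) (g : Gd (Rg j r) γ) (h : Us j r γ i) :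
    ex j r γ i = insert (j, r) (insert (j + 1, r) (cl γ i)) := ex_of_us ((us_Us f g).2 h)

/-- the extended heights of a member in the region -/
theorem he_us (f : Fam (Gt j r t) γ) (g : Gd (Rg j r) γ) (h : Us j r γ i) : he j r γ i 0 = min j (ht γ i 0) ∧
    he j r γ i 1 = max (j + 1) (ht γ i 1) ∧ he j r γ i 2 = min r (ht γ i 2) ∧ he j r γ i 3 = max r (ht γ i 3) := by
  have hn : (cl γ i).Nonempty := cl_ne g i
  have hn' : (insert (j + 1, r) (cl γ i)).Nonempty := Finset.insert_nonempty _ _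
  rw [he0, he1, he2, he3, ht0, ht1, ht2, ht3, ex_us f g h]
  refine ⟨?_, ?_, ?_, ?_⟩
  · rw [hL_insert hn', hL_insert hn]
    show min j (min (j + 1) _) = _
    omega
  · rw [hR_insert hn', hR_insert hn]
    show max j (max (j + 1) _) = _
    omega
  · rw [hB_insert hn', hB_insert hn]
    show min r (min r _) = _
    omega
  · rw [hT_insert hn', hT_insert hn]
    show max r (max r _) = _
    omega

theorem lf_free {θ : VX → Cell → ℝ} (h0 : ∀ v, θ v .o = 1) (h : ¬ Us j r γ i) : lf θ γ i = lfO θ j r γ i := by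
  obtain ⟨e0, e1, e2⟩ := not_Us h
  rw [lf_cls (j := j) (r := r) h0, e0, e1, e2, h0, h0, h0, mul_one, mul_one, mul_one]

/-- the cells next to the legs of the crossing -/
theorem legs {s : ℤ} (f : Fam (gX j s) γ) (i : I) : ((γ none i).oc .S → γ (some (j, s - 1)) i ≠ .o) ∧
    ((γ none i).oc .E → γ (some (j + 1, s - 1)) i ≠ .o) ∧ ((γ none i).oc .W → γ (some (j, s)) i ≠ .o) ∧
    ((γ none i).oc .N → γ (some (j + 1, s)) i ≠ .o) :=
  ⟨fun h => mem_cl.1 (leg_S f h).2, fun h => mem_cl.1 (leg_E f h).2, fun h => mem_cl.1 (leg_W f h).2,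
    fun h => mem_cl.1 (leg_N f h).2⟩

theorem ex_leg {c : Cell} (h : c ≠ .o) : c.oc .S ∨ c.oc .E ∨ c.oc .W ∨ c.oc .N := by
  revert c
  decide

/-- the member attains its heights -/
theorem ht_att (g : Gd (Rg j r) γ) (i : I) : (∃ a b, γ (some (a, b)) i ≠ .o ∧ a = ht γ i 0) ∧
    (∃ a b, γ (some (a, b)) i ≠ .o ∧ a = ht γ i 1) ∧ (∃ a b, γ (some (a, b)) i ≠ .o ∧ b = ht γ i 2) ∧
    ∃ a b, γ (some (a, b)) i ≠ .o ∧ b = ht γ i 3 := by
  have hn : (cl γ i).Nonempty := cl_ne g i
  refine ⟨?_, ?_, ?_, ?_⟩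
  · obtain ⟨⟨a, b⟩, h1, h2⟩ := hL_mem hn
    exact ⟨a, b, mem_cl.1 h1, h2⟩
  · obtain ⟨⟨a, b⟩, h1, h2⟩ := hR_mem hn
    exact ⟨a, b, mem_cl.1 h1, h2⟩
  · obtain ⟨⟨a, b⟩, h1, h2⟩ := hB_mem hn
    exact ⟨a, b, mem_cl.1 h1, h2⟩
  · obtain ⟨⟨a, b⟩, h1, h2⟩ := hT_mem hn
    exact ⟨a, b, mem_cl.1 h1, h2⟩

theorem off_rg {a b : ℤ} (h : (some (a, b) : VX) ∉ Rg j r) : ¬ ((a = j ∨ a = j + 1) ∧ b = r) := fun h' => h (some_mem_Rg.2 h')

/-! ### right -/

theorem thR_off {s R : ℤ} (hs : s = r + 1 ∨ s = r) {a b : ℤ} (h : (some (a, b) : VX) ∉ Rg j r) (c : Cell) :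
    thR j s R (some (a, b)) c = thR j r R (some (a, b)) c := by
  have h' := off_rg h
  refine if_congr ?_ rfl rfl
  show a = R ∧ (R < j ∨ R = j ∧ s ≤ b) ↔ a = R ∧ (R < j ∨ R = j ∧ r ≤ b)
  omega

theorem val_R (f : Fam (Gt j r t) γ) (g : Gd (Rg j r) γ) (nx : ¬ ExR j r γ i) : ht γ i 1 = he j r γ i 1 ∧
    cR j (sg r t) γ i = lfO (thR j r (he j r γ i 1)) j r γ i := by
  by_cases u : Us j r γ i
  · have h1 : ∃ a b : ℤ, (some (a, b) : VX) ∉ Rg j r ∧ γ (some (a, b)) i ≠ .o ∧ j + 1 ≤ a := by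
      by_contra hc
      refine nx ⟨u, ?_⟩
      rintro ⟨a, b⟩ hp h0
      show a ≤ j
      by_contra h2
      exact hc ⟨a, b, hp, h0, by omega⟩
    obtain ⟨a, b, hp, h0, ha⟩ := h1
    have h2 : a ≤ ht γ i 1 := (ht_le h0).2.1
    have e := (he_us f g u).2.1
    have e1 : ht γ i 1 = he j r γ i 1 := by omega
    have one : ∀ s v c, thR j s (he j r γ i 1) v c = 1 := by
      intro s v c
      obtain _ | p := v
      · exact if_neg (by omega)
      · exact if_neg (by omega)
    refine ⟨e1, ?_⟩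
    rw [cR, e1, lf, Finset.prod_eq_one fun v _ => one _ _ _, lfO, Finset.prod_eq_one fun v _ => one _ _ _]
  · have e := he_not f g u
    refine ⟨by rw [e], ?_⟩
    rw [e, cR, lf_free (thR_o _ _ _) u]
    exact lfO_congr (fun a b h _ => thR_off (sg_cases r t) h _) (thR_o _ _ _) (thR_o _ _ _)

theorem ext_R (ht0 : t ≠ 0) (f : Fam (Gt j r t) γ) (g : Gd (Rg j r) γ) (x : ExR j r γ i) (G : ℤ → ℝ) :
    Ap G (cR j (sg r t) γ i - 1) 1 (ht γ i 1) = G (j + 1) + kR t (γ none i) (γ (some (j, r)) i) (γ (some (j + 1, r)) i) *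
      (lfO (thR j r j) j r γ i * (G j - G (j + 1))) := by
  have f' := f
  rw [Gt_sg ht0] at f'
  obtain ⟨lS, lE, lW, lN⟩ := legs f' i
  obtain ⟨u, off⟩ := x
  have cel : ∀ {a b : ℤ}, γ (some (a, b)) i ≠ .o → a ≤ ht γ i 1 := fun h => (ht_le h).2.1
  have h1 : j ≤ ht γ i 1 := by
    rcases Us_cases u with h | h | h
    · rcases ex_leg h with h | h | h | h
      · exact cel (lS h)
      · have := cel (lE h); omega
      · exact cel (lW h)
      · have := cel (lN h); omega
    · exact cel h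
    · have := cel h; omega
  obtain ⟨a, b, hab, ha⟩ := (ht_att g i).2.1
  by_cases h2 : γ (some (j + 1, r)) i = .o
  · have h3 : ht γ i 1 = j := by
      by_cases h4 : (some (a, b) : VX) ∈ Rg j r
      · rw [some_mem_Rg] at h4
        obtain ⟨h5 | h5, h6⟩ := h4
        · omega
        · rw [h5, h6] at hab
          exact absurd h2 hab
      · have : a ≤ j := off _ h4 hab
        omega
    have cross : γ none i = .o ∨ γ none i = .sw := by
      have key : ∀ c : Cell, ¬ c.oc .N → ¬ c.oc .E → c = .o ∨ c = .sw := by decide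
      refine key _ (fun h => ?_) (fun h => ?_)
      · have h5 := cel (lN h)
        omega
      · have h5 := cel (lE h)
        omega
    rw [cR, h3, lf_cls (j := j) (r := r) (thR_o _ _ _), h2, thR_o, mul_one, kR, if_pos ⟨rfl, cross⟩,
      lfO_congr (fun a b h _ => thR_off (sg_cases r t) h _) (thR_o _ _ _) (thR_o _ _ _)]
    have e1 : thR j (sg r t) j none (γ none i) = if γ none i ≠ .o then ((wR dA).u1)⁻¹ else 1 :=
      if_congr (by simp) rfl rfl
    have e2 : thR j (sg r t) j (some (j, r)) (γ (some (j, r)) i) = if t = 2 then rt (γ (some (j, r)) i) else 1 := by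
      refine if_congr ?_ rfl rfl
      show j = j ∧ (j < j ∨ j = j ∧ sg r t ≤ r) ↔ t = 2
      rcases t_cases ht0 with rfl | rfl
      · simp [sg]
      · simp [sg]
    rw [e1, e2, Ap]
    ring
  · have h3 : ht γ i 1 = j + 1 := by
      have h5 := cel h2
      by_cases h4 : (some (a, b) : VX) ∈ Rg j r
      · rw [some_mem_Rg] at h4
        omega
      · have : a ≤ j := off _ h4 hab
        omega
    have one : ∀ v c, thR j (sg r t) (j + 1) v c = 1 := by
      intro v c
      obtain _ | p := v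
      · exact if_neg (by omega)
      · exact if_neg (by omega)
    rw [cR, h3, lf, Finset.prod_eq_one fun v _ => one _ _, kR, if_neg fun h => h2 h.1, Ap]
    ring

/-! ### left -/

theorem thL_off {s L : ℤ} (hs : s = r + 1 ∨ s = r) {a b : ℤ} (h : (some (a, b) : VX) ∉ Rg j r) (c : Cell) :
    thL j s L (some (a, b)) c = thL j r L (some (a, b)) c := by
  have h' := off_rg h
  refine if_congr ?_ rfl rfl
  show a = L ∧ (j + 1 < L ∨ L = j + 1 ∧ b < s) ↔ a = L ∧ (j + 1 < L ∨ L = j + 1 ∧ b < r)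
  omega

theorem val_L (f : Fam (Gt j r t) γ) (g : Gd (Rg j r) γ) (nx : ¬ ExL j r γ i) : ht γ i 0 = he j r γ i 0 ∧
    cL j (sg r t) γ i = lfO (thL j r (he j r γ i 0)) j r γ i := by
  by_cases u : Us j r γ i
  · have h1 : ∃ a b : ℤ, (some (a, b) : VX) ∉ Rg j r ∧ γ (some (a, b)) i ≠ .o ∧ a ≤ j := by
      by_contra hc
      refine nx ⟨u, ?_⟩
      rintro ⟨a, b⟩ hp h0
      show j + 1 ≤ a
      by_contra h2
      exact hc ⟨a, b, hp, h0, by omega⟩
    obtain ⟨a, b, hp, h0, ha⟩ := h1
    have h2 : ht γ i 0 ≤ a := (ht_le h0).1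
    have e := (he_us f g u).1
    have e1 : ht γ i 0 = he j r γ i 0 := by omega
    have one : ∀ s v c, thL j s (he j r γ i 0) v c = 1 := by
      intro s v c
      obtain _ | p := v
      · exact if_neg (by omega)
      · exact if_neg (by omega)
    refine ⟨e1, ?_⟩
    rw [cL, e1, lf, Finset.prod_eq_one fun v _ => one _ _ _, lfO, Finset.prod_eq_one fun v _ => one _ _ _]
  · have e := he_not f g u
    refine ⟨by rw [e], ?_⟩
    rw [e, cL, lf_free (thL_o _ _ _) u]
    exact lfO_congr (fun a b h _ => thL_off (sg_cases r t) h _) (thL_o _ _ _) (thL_o _ _ _)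

theorem ext_L (ht0 : t ≠ 0) (f : Fam (Gt j r t) γ) (g : Gd (Rg j r) γ) (x : ExL j r γ i) (G : ℤ → ℝ) :
    Ap G (cL j (sg r t) γ i - 1) (-1) (ht γ i 0) = G j + kL t (γ none i) (γ (some (j, r)) i) (γ (some (j + 1, r)) i) *
      (lfO (thL j r (j + 1)) j r γ i * (G (j + 1) - G j)) := by
  have f' := f
  rw [Gt_sg ht0] at f'
  obtain ⟨lS, lE, lW, lN⟩ := legs f' i
  obtain ⟨u, off⟩ := x
  have cel : ∀ {a b : ℤ}, γ (some (a, b)) i ≠ .o → ht γ i 0 ≤ a := fun h => (ht_le h).1
  have h1 : ht γ i 0 ≤ j + 1 := by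
    rcases Us_cases u with h | h | h
    · rcases ex_leg h with h | h | h | h
      · have := cel (lS h); omega
      · exact cel (lE h)
      · have := cel (lW h); omega
      · exact cel (lN h)
    · have := cel h; omega
    · exact cel h
  obtain ⟨a, b, hab, ha⟩ := (ht_att g i).1
  by_cases h2 : γ (some (j, r)) i = .o
  · have h3 : ht γ i 0 = j + 1 := by
      by_cases h4 : (some (a, b) : VX) ∈ Rg j r
      · rw [some_mem_Rg] at h4
        obtain ⟨h5 | h5, h6⟩ := h4
        · rw [h5, h6] at hab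
          exact absurd h2 hab
        · omega
      · have : j + 1 ≤ a := off _ h4 hab
        omega
    have cross : γ none i = .o ∨ γ none i = .ne := by
      have key : ∀ c : Cell, ¬ c.oc .S → ¬ c.oc .W → c = .o ∨ c = .ne := by decide
      refine key _ (fun h => ?_) (fun h => ?_)
      · have h5 := cel (lS h)
        omega
      · have h5 := cel (lW h)
        omega
    rw [cL, h3, lf_cls (j := j) (r := r) (thL_o _ _ _), h2, thL_o, one_mul, kL, if_pos ⟨rfl, cross⟩,
      lfO_congr (fun a b h _ => thL_off (sg_cases r t) h _) (thL_o _ _ _) (thL_o _ _ _)]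
    have e1 : thL j (sg r t) (j + 1) none (γ none i) = if γ none i ≠ .o then ((wR dA).u1)⁻¹ else 1 :=
      if_congr (by simp) rfl rfl
    have e2 : thL j (sg r t) (j + 1) (some (j + 1, r)) (γ (some (j + 1, r)) i) =
        if t = 1 then rt (γ (some (j + 1, r)) i) else 1 := by
      refine if_congr ?_ rfl rfl
      show j + 1 = j + 1 ∧ (j + 1 < j + 1 ∨ j + 1 = j + 1 ∧ r < sg r t) ↔ t = 1
      rcases t_cases ht0 with rfl | rfl
      · simp [sg]
      · simp [sg]
    rw [e1, e2, Ap, add_neg_cancel_right]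
    ring
  · have h3 : ht γ i 0 = j := by
      have h5 := cel h2
      by_cases h4 : (some (a, b) : VX) ∈ Rg j r
      · rw [some_mem_Rg] at h4
        omega
      · have : j + 1 ≤ a := off _ h4 hab
        omega
    have one : ∀ v c, thL j (sg r t) j v c = 1 := by
      intro v c
      obtain _ | p := v
      · exact if_neg (by omega)
      · exact if_neg (by omega)
    rw [cL, h3, lf, Finset.prod_eq_one fun v _ => one _ _, kL, if_neg fun h => h2 h.1, Ap]
    ring

/-! ### top -/

theorem tf_neg {x : ℤ} {c : Cell} (hx : x < 0) (hc : c ≠ .o) : tf x c = 0 := by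
  rw [tf, if_neg hc, if_pos hx]

theorem tf_pos {x y : ℤ} (hx : 0 < x) (hy : 0 < y) (c : Cell) : tf x c = tf y c := by
  simp only [tf, if_neg (show ¬ x < 0 by omega), if_neg (show ¬ y < 0 by omega), if_neg (show ¬ x = 0 by omega),
    if_neg (show ¬ y = 0 by omega)]

theorem thT_off {s T : ℤ} (hs : s = r + 1 ∨ s = r) {a b : ℤ} (h : (some (a, b) : VX) ∉ Rg j r) (c : Cell) :
    thT j s T (some (a, b)) c = thT j r T (some (a, b)) c := by
  have h' := off_rg h
  show (if b = T then tf (a - qb j s T) c else 1) = if b = T then tf (a - qb j r T) c else 1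
  by_cases hb : b = T
  · rw [if_pos hb, if_pos hb]
    by_cases hT : T = r
    · by_cases hc : c = .o
      · simp [tf, hc]
      · have q1 : qb j s T = j ∨ qb j s T = j + 1 := by rw [qb]; split_ifs <;> simp
        have q2 : qb j r T = j ∨ qb j r T = j + 1 := by rw [qb]; split_ifs <;> simp
        by_cases ha : a < j
        · rw [tf_neg (by omega) hc, tf_neg (by omega) hc]
        · exact tf_pos (by omega) (by omega) c
    · have : qb j s T = qb j r T := by
        refine if_congr ?_ rfl rfl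
        omega
      rw [this]
  · rw [if_neg hb, if_neg hb]

theorem val_T (f : Fam (Gt j r t) γ) (g : Gd (Rg j r) γ) (nx : ¬ ExT j r γ i) : ht γ i 3 = he j r γ i 3 ∧
    cT j (sg r t) γ i = lfO (thT j r (he j r γ i 3)) j r γ i := by
  have hs := sg_cases r t
  by_cases u : Us j r γ i
  · have h1 : ∃ a b : ℤ, (some (a, b) : VX) ∉ Rg j r ∧ γ (some (a, b)) i ≠ .o ∧ (r < b ∨ (b = r ∧ a < j)) := by
      by_contra hc
      refine nx ⟨u, ?_⟩
      rintro ⟨a, b⟩ hp h0
      have h' := off_rg hp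
      show b < r ∨ (b = r ∧ j + 1 < a)
      by_contra h2
      exact hc ⟨a, b, hp, h0, by omega⟩
    obtain ⟨a, b, hp, h0, ha⟩ := h1
    have h2 : b ≤ ht γ i 3 := (ht_le h0).2.2.2
    have e := (he_us f g u).2.2.2
    have e1 : ht γ i 3 = he j r γ i 3 := by omega
    refine ⟨e1, ?_⟩
    rw [cT, e1, lf_cls (j := j) (r := r) (thT_o _ _ _), lfO_congr (fun a b h _ => thT_off hs h _) (thT_o _ _ _) (thT_o _ _ _)]
    rcases lt_or_ge r (he j r γ i 3) with h3 | h3
    · have e2 : thT j (sg r t) (he j r γ i 3) none (γ none i) = 1 := if_neg (by omega)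
      have e3 : thT j (sg r t) (he j r γ i 3) (some (j, r)) (γ (some (j, r)) i) = 1 := if_neg (by
        show ¬ r = he j r γ i 3
        omega)
      have e4 : thT j (sg r t) (he j r γ i 3) (some (j + 1, r)) (γ (some (j + 1, r)) i) = 1 := if_neg (by
        show ¬ r = he j r γ i 3
        omega)
      rw [e2, e3, e4, mul_one, mul_one, mul_one]
    · have h4 : b = he j r γ i 3 := by omega
      have z : lfO (thT j r (he j r γ i 3)) j r γ i = 0 := by
        refine lfO_zero hp h0 ?_
        show (if b = he j r γ i 3 then tf (a - qb j r (he j r γ i 3)) _ else 1) = 0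
        have q2 : qb j r (he j r γ i 3) = j ∨ qb j r (he j r γ i 3) = j + 1 := by rw [qb]; split_ifs <;> simp
        rw [if_pos h4, tf_neg (by omega) h0]
      rw [z, zero_mul]
  · have e := he_not f g u
    refine ⟨by rw [e], ?_⟩
    rw [e, cT, lf_free (thT_o _ _ _) u]
    exact lfO_congr (fun a b h _ => thT_off hs h _) (thT_o _ _ _) (thT_o _ _ _)

theorem tf_m (c : Cell) : tf (-1) c = if c = .o then 1 else 0 := by
  by_cases h : c = .o
  · rw [if_pos h, tf, if_pos h]
  · rw [if_neg h, tf_neg (by omega) h]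

theorem ext_T (ht0 : t ≠ 0) (f : Fam (Gt j r t) γ) (g : Gd (Rg j r) γ) (x : ExT j r γ i) (G : ℤ → ℝ) :
    Ap G (-cT j (sg r t) γ i) (-1) (ht γ i 3) = G r + kT t (γ none i) (γ (some (j, r)) i) (γ (some (j + 1, r)) i) *
      (-(lfO (thT j r r) j r γ i * (G r - G (r - 1)))) := by
  have f' := f
  rw [Gt_sg ht0] at f'
  obtain ⟨lS, lE, lW, lN⟩ := legs f' i
  obtain ⟨u, off⟩ := x
  have cel : ∀ {a b : ℤ}, γ (some (a, b)) i ≠ .o → b ≤ ht γ i 3 := fun h => (ht_le h).2.2.2
  have row : ∀ {a b : ℤ}, γ (some (a, b)) i ≠ .o → b ≤ r := by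
    intro a b hab
    by_cases h4 : (some (a, b) : VX) ∈ Rg j r
    · rw [some_mem_Rg] at h4
      exact h4.2.le
    · have : b < r ∨ (b = r ∧ j + 1 < a) := off _ h4 hab
      omega
  obtain ⟨a, b, hab, hb⟩ := (ht_att g i).2.2.2
  have top : ht γ i 3 ≤ r := by
    rw [← hb]
    exact row hab
  rcases t_cases ht0 with rfl | rfl
  · have s1 : sg r 1 = r + 1 := if_pos rfl
    rw [s1] at lS lE lW lN ⊢
    have h3 : ht γ i 3 = r := by
      refine le_antisymm top ?_
      rcases Us_cases u with h | h | h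
      · rcases ex_leg h with h | h | h | h
        · have := cel (lS h); omega
        · have := cel (lE h); omega
        · have := row (lW h); omega
        · have := row (lN h); omega
      · exact cel h
      · exact cel h
    have e0 : kT 1 (γ none i) (γ (some (j, r)) i) (γ (some (j + 1, r)) i) =
        if γ none i = .o then tf 0 (γ (some (j, r)) i) * tf 1 (γ (some (j + 1, r)) i) else 0 := if_pos rfl
    have e1 : thT j (r + 1) r none (γ none i) = if γ none i = .o then 1 else 0 := by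
      show (if r = r + 1 - 1 ∧ γ none i ≠ .o then (0 : ℝ) else 1) = _
      by_cases h : γ none i = .o
      · rw [if_neg fun h' => h'.2 h, if_pos h]
      · rw [if_pos ⟨by omega, h⟩, if_neg h]
    have q : qb j (r + 1) r = j := if_pos (by omega)
    have e2 : thT j (r + 1) r (some (j, r)) (γ (some (j, r)) i) = tf 0 (γ (some (j, r)) i) := by
      show (if r = r then tf (j - qb j (r + 1) r) _ else 1) = _
      rw [if_pos rfl, q, sub_self]
    have e3 : thT j (r + 1) r (some (j + 1, r)) (γ (some (j + 1, r)) i) = tf 1 (γ (some (j + 1, r)) i) := by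
      show (if r = r then tf (j + 1 - qb j (r + 1) r) _ else 1) = _
      rw [if_pos rfl, q, add_sub_cancel_left]
    rw [cT, h3, lf_cls (j := j) (r := r) (thT_o _ _ _),
      lfO_congr (fun a b h _ => thT_off (Or.inl rfl) h _) (thT_o _ _ _) (thT_o _ _ _), e0, e1, e2, e3, Ap, ← sub_eq_add_neg]
    split_ifs <;> ring
  · have s2 : sg r 2 = r := if_neg (by decide)
    rw [s2] at lS lE lW lN ⊢
    have e0 : kT 2 (γ none i) (γ (some (j, r)) i) (γ (some (j + 1, r)) i) =
        if γ (some (j, r)) i = .o then tf 0 (γ (some (j + 1, r)) i) else 0 := if_neg (by decide)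
    by_cases h3 : ht γ i 3 = r
    · have e1 : thT j r r none (γ none i) = 1 := if_neg (by omega)
      have q : qb j r r = j + 1 := if_neg (by omega)
      have e2 : thT j r r (some (j, r)) (γ (some (j, r)) i) = if γ (some (j, r)) i = .o then 1 else 0 := by
        show (if r = r then tf (j - qb j r r) _ else 1) = _
        rw [if_pos rfl, q, show j - (j + 1) = -1 by ring, tf_m]
      have e3 : thT j r r (some (j + 1, r)) (γ (some (j + 1, r)) i) = tf 0 (γ (some (j + 1, r)) i) := by
        show (if r = r then tf (j + 1 - qb j r r) _ else 1) = _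
        rw [if_pos rfl, q, sub_self]
      rw [cT, h3, lf_cls (j := j) (r := r) (thT_o _ _ _), e0, e1, e2, e3, Ap, ← sub_eq_add_neg]
      split_ifs <;> ring
    · have low : ∀ {a b : ℤ}, γ (some (a, b)) i ≠ .o → b < r := fun h => lt_of_le_of_lt (cel h) (by omega)
      have z1 : γ (some (j, r)) i = .o := by
        by_contra h
        have := low h
        omega
      have z2 : γ (some (j + 1, r)) i = .o := by
        by_contra h
        have := low h
        omega
      have z0 : γ none i ≠ .o := by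
        rcases Us_cases u with h | h | h
        · exact h
        · exact absurd z1 h
        · exact absurd z2 h
      have h5 : ht γ i 3 = r - 1 := by
        rcases ex_leg z0 with h | h | h | h
        · have := cel (lS h); omega
        · have := cel (lE h); omega
        · exact absurd z1 (lW h)
        · exact absurd z2 (lN h)
      have e1 : thT j r (r - 1) none (γ none i) = 0 := if_pos ⟨rfl, z0⟩
      have q1 : lfO (thT j r r) j r γ i = 1 := by
        refine lfO_one (fun a b _ h0 => if_neg ?_) (thT_o _ _ _)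
        show ¬ b = r
        have := low h0
        omega
      have t0 : tf 0 .o = 1 := if_pos rfl
      rw [cT, h5, lf_cls (j := j) (r := r) (thT_o _ _ _), e0, e1, z1, z2, q1, if_pos rfl, t0, Ap]
      ring

/-! ### bottom -/

theorem bf_pos {x : ℤ} {c : Cell} (hx : 0 < x) (hc : c ≠ .o) : bf x c = 0 := by
  rw [bf, if_neg hc, if_pos hx]

theorem bf_neg {x y : ℤ} (hx : x < 0) (hy : y < 0) (c : Cell) : bf x c = bf y c := by
  simp only [bf, if_neg (show ¬ 0 < x by omega), if_neg (show ¬ 0 < y by omega), if_neg (show ¬ x = 0 by omega),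
    if_neg (show ¬ y = 0 by omega)]

theorem thB_off {s T : ℤ} (hs : s = r + 1 ∨ s = r) {a b : ℤ} (h : (some (a, b) : VX) ∉ Rg j r) (c : Cell) :
    thB j s T (some (a, b)) c = thB j r T (some (a, b)) c := by
  have h' := off_rg h
  show (if b = T then bf (a - qb j s T) c else 1) = if b = T then bf (a - qb j r T) c else 1
  by_cases hb : b = T
  · rw [if_pos hb, if_pos hb]
    by_cases hT : T = r
    · by_cases hc : c = .o
      · simp [bf, hc]
      · have q1 : qb j s T = j ∨ qb j s T = j + 1 := by rw [qb]; split_ifs <;> simp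
        have q2 : qb j r T = j ∨ qb j r T = j + 1 := by rw [qb]; split_ifs <;> simp
        by_cases ha : a < j
        · exact bf_neg (by omega) (by omega) c
        · rw [bf_pos (by omega) hc, bf_pos (by omega) hc]
    · have : qb j s T = qb j r T := by
        refine if_congr ?_ rfl rfl
        omega
      rw [this]
  · rw [if_neg hb, if_neg hb]

theorem val_B (f : Fam (Gt j r t) γ) (g : Gd (Rg j r) γ) (nx : ¬ ExB j r γ i) : ht γ i 2 = he j r γ i 2 ∧
    cB j (sg r t) γ i = lfO (thB j r (he j r γ i 2)) j r γ i := by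
  have hs := sg_cases r t
  by_cases u : Us j r γ i
  · have h1 : ∃ a b : ℤ, (some (a, b) : VX) ∉ Rg j r ∧ γ (some (a, b)) i ≠ .o ∧ (b < r ∨ (b = r ∧ j + 1 < a)) := by
      by_contra hc
      refine nx ⟨u, ?_⟩
      rintro ⟨a, b⟩ hp h0
      have h' := off_rg hp
      show r < b ∨ (b = r ∧ a < j)
      by_contra h2
      exact hc ⟨a, b, hp, h0, by omega⟩
    obtain ⟨a, b, hp, h0, ha⟩ := h1
    have h2 : ht γ i 2 ≤ b := (ht_le h0).2.2.1
    have e := (he_us f g u).2.2.1
    have e1 : ht γ i 2 = he j r γ i 2 := by omega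
    refine ⟨e1, ?_⟩
    rw [cB, e1, lf_cls (j := j) (r := r) (thB_o _ _ _), lfO_congr (fun a b h _ => thB_off hs h _) (thB_o _ _ _) (thB_o _ _ _)]
    rcases lt_or_ge (he j r γ i 2) r with h3 | h3
    · have e2 : thB j (sg r t) (he j r γ i 2) none (γ none i) = 1 := if_neg (by omega)
      have e3 : thB j (sg r t) (he j r γ i 2) (some (j, r)) (γ (some (j, r)) i) = 1 := if_neg (by
        show ¬ r = he j r γ i 2
        omega)
      have e4 : thB j (sg r t) (he j r γ i 2) (some (j + 1, r)) (γ (some (j + 1, r)) i) = 1 := if_neg (by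
        show ¬ r = he j r γ i 2
        omega)
      rw [e2, e3, e4, mul_one, mul_one, mul_one]
    · have h4 : b = he j r γ i 2 := by omega
      have z : lfO (thB j r (he j r γ i 2)) j r γ i = 0 := by
        refine lfO_zero hp h0 ?_
        show (if b = he j r γ i 2 then bf (a - qb j r (he j r γ i 2)) _ else 1) = 0
        have q2 : qb j r (he j r γ i 2) = j ∨ qb j r (he j r γ i 2) = j + 1 := by rw [qb]; split_ifs <;> simp
        rw [if_pos h4, bf_pos (by omega) h0]
      rw [z, zero_mul]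
  · have e := he_not f g u
    refine ⟨by rw [e], ?_⟩
    rw [e, cB, lf_free (thB_o _ _ _) u]
    exact lfO_congr (fun a b h _ => thB_off hs h _) (thB_o _ _ _) (thB_o _ _ _)

theorem bf_p (c : Cell) : bf 1 c = if c = .o then 1 else 0 := by
  by_cases h : c = .o
  · rw [if_pos h, bf, if_pos h]
  · rw [if_neg h, bf_pos (by omega) h]

theorem ext_B (ht0 : t ≠ 0) (f : Fam (Gt j r t) γ) (g : Gd (Rg j r) γ) (x : ExB j r γ i) (G : ℤ → ℝ) :
    Ap G (-cB j (sg r t) γ i) 1 (ht γ i 2) = G r + kB t (γ none i) (γ (some (j, r)) i) (γ (some (j + 1, r)) i) *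
      (-(lfO (thB j r r) j r γ i * (G r - G (r + 1)))) := by
  have f' := f
  rw [Gt_sg ht0] at f'
  obtain ⟨lS, lE, lW, lN⟩ := legs f' i
  obtain ⟨u, off⟩ := x
  have cel : ∀ {a b : ℤ}, γ (some (a, b)) i ≠ .o → ht γ i 2 ≤ b := fun h => (ht_le h).2.2.1
  have row : ∀ {a b : ℤ}, γ (some (a, b)) i ≠ .o → r ≤ b := by
    intro a b hab
    by_cases h4 : (some (a, b) : VX) ∈ Rg j r
    · rw [some_mem_Rg] at h4
      exact h4.2.ge
    · have : r < b ∨ (b = r ∧ a < j) := off _ h4 hab
      omega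
  obtain ⟨a, b, hab, hb⟩ := (ht_att g i).2.2.1
  have bot : r ≤ ht γ i 2 := by
    rw [← hb]
    exact row hab
  rcases t_cases ht0 with rfl | rfl
  · have s1 : sg r 1 = r + 1 := if_pos rfl
    rw [s1] at lS lE lW lN ⊢
    rw [add_sub_cancel_right] at lS lE
    have e0 : kB 1 (γ none i) (γ (some (j, r)) i) (γ (some (j + 1, r)) i) =
        if γ (some (j + 1, r)) i = .o then bf 0 (γ (some (j, r)) i) else 0 := if_neg (by decide)
    by_cases h3 : ht γ i 2 = r
    · have e1 : thB j (r + 1) r none (γ none i) = 1 := if_neg (by omega)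
      have q : qb j (r + 1) r = j := if_pos (by omega)
      have e2 : thB j (r + 1) r (some (j, r)) (γ (some (j, r)) i) = bf 0 (γ (some (j, r)) i) := by
        show (if r = r then bf (j - qb j (r + 1) r) _ else 1) = _
        rw [if_pos rfl, q, sub_self]
      have e3 : thB j (r + 1) r (some (j + 1, r)) (γ (some (j + 1, r)) i) = if γ (some (j + 1, r)) i = .o then 1 else 0 := by
        show (if r = r then bf (j + 1 - qb j (r + 1) r) _ else 1) = _
        rw [if_pos rfl, q, add_sub_cancel_left, bf_p]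
      rw [cB, h3, lf_cls (j := j) (r := r) (thB_o _ _ _),
        lfO_congr (fun a b h _ => thB_off (Or.inl rfl) h _) (thB_o _ _ _) (thB_o _ _ _), e0, e1, e2, e3, Ap]
      split_ifs <;> ring
    · have low : ∀ {a b : ℤ}, γ (some (a, b)) i ≠ .o → r < b := fun h => lt_of_lt_of_le (by omega) (cel h)
      have z1 : γ (some (j, r)) i = .o := by
        by_contra h
        have := low h
        omega
      have z2 : γ (some (j + 1, r)) i = .o := by
        by_contra h
        have := low h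
        omega
      have z0 : γ none i ≠ .o := by
        rcases Us_cases u with h | h | h
        · exact h
        · exact absurd z1 h
        · exact absurd z2 h
      have h5 : ht γ i 2 = r + 1 := by
        rcases ex_leg z0 with h | h | h | h
        · exact absurd z1 (lS h)
        · exact absurd z2 (lE h)
        · have := cel (lW h); omega
        · have := cel (lN h); omega
      have e1 : thB j (r + 1) (r + 1) none (γ none i) = 0 := if_pos ⟨rfl, z0⟩
      have q1 : lfO (thB j r r) j r γ i = 1 := by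
        refine lfO_one (fun a b _ h0 => if_neg ?_) (thB_o _ _ _)
        show ¬ b = r
        have := low h0
        omega
      have t0 : bf 0 .o = 1 := if_pos rfl
      rw [cB, h5, lf_cls (j := j) (r := r) (thB_o _ _ _), e0, e1, z1, z2, q1, if_pos rfl, t0, Ap]
      ring
  · have s2 : sg r 2 = r := if_neg (by decide)
    rw [s2] at lS lE lW lN ⊢
    have h3 : ht γ i 2 = r := by
      refine le_antisymm ?_ bot
      rcases Us_cases u with h | h | h
      · rcases ex_leg h with h | h | h | h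
        · have := row (lS h); omega
        · have := row (lE h); omega
        · exact cel (lW h)
        · exact cel (lN h)
      · exact cel h
      · exact cel h
    have e0 : kB 2 (γ none i) (γ (some (j, r)) i) (γ (some (j + 1, r)) i) =
        if γ none i = .o then bf (-1) (γ (some (j, r)) i) * bf 0 (γ (some (j + 1, r)) i) else 0 := if_pos rfl
    have e1 : thB j r r none (γ none i) = if γ none i = .o then 1 else 0 := by
      show (if r = r ∧ γ none i ≠ .o then (0 : ℝ) else 1) = _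
      by_cases h : γ none i = .o
      · rw [if_neg fun h' => h'.2 h, if_pos h]
      · rw [if_pos ⟨rfl, h⟩, if_neg h]
    have q : qb j r r = j + 1 := if_neg (by omega)
    have e2 : thB j r r (some (j, r)) (γ (some (j, r)) i) = bf (-1) (γ (some (j, r)) i) := by
      show (if r = r then bf (j - qb j r r) _ else 1) = _
      rw [if_pos rfl, q, show j - (j + 1) = -1 by ring]
    have e3 : thB j r r (some (j + 1, r)) (γ (some (j + 1, r)) i) = bf 0 (γ (some (j + 1, r)) i) := by
      show (if r = r then bf (j + 1 - qb j r r) _ else 1) = _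
      rw [if_pos rfl, q, sub_self]
    rw [cB, h3, lf_cls (j := j) (r := r) (thB_o _ _ _), e0, e1, e2, e3, Ap]
    split_ifs <;> ring

/-! ### the balance -/

/-- the coefficients of the four heights: left, right, bottom, top -/
def cf (j s : ℤ) (γ : FX I) (i : I) : Fin 4 → ℝ := ![cL j s γ i - 1, cR j s γ i - 1, -cB j s γ i, -cT j s γ i]

/-- the steps of the four heights -/
def ep : Fin 4 → ℤ := ![-1, 1, 1, -1]

/-- extreme on the side `a` -/
def ExA (j r : ℤ) (γ : FX I) (i : I) : Fin 4 → Prop := ![ExL j r γ i, ExR j r γ i, ExB j r γ i, ExT j r γ i]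

theorem Gt_Gs (j r : ℤ) (t : Fin 3) : Gt j r t ∈ Gs j r := by
  fin_cases t
  · exact Or.inl rfl
  · exact Or.inr (Or.inr rfl)
  · exact Or.inr (Or.inl rfl)

theorem he_Eq (h : Eq6 (Rg j r) (Gt j r t) (Gt j r t') γ γ') : he j r γ = he j r γ' := he_eq (Gt_Gs j r t) (Gt_Gs j r t') h

theorem ExA_eq (h : Eq6 (Rg j r) (Gt j r t) (Gt j r t') γ γ') (i : I) : ExA j r γ i = ExA j r γ' i := by
  have u := Us_eq h i
  have o := Off_eq h i
  funext a
  fin_cases a
  · exact propext (and_congr u (o _))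
  · exact propext (and_congr u (o _))
  · exact propext (and_congr u (o _))
  · exact propext (and_congr u (o _))

theorem YB_dbh : YB (wR dA) (wR bA) (wR hA) := by
  have hp := Real.pi_pos
  have h := Pool.Agent.ROT.E.YB_wR (x := dA) (y := hA) (by rw [dA]; constructor <;> linarith) (by rw [hA]; constructor <;> linarith)
    (by rw [dA, hA]; constructor <;> linarith)
  have e : dA + hA = bA := by rw [dA, hA, bA]; ring
  rwa [e] at h

open Classical in
/-- **class sums of a functional which is `K + κ t (cells) * M`** -/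
theorem CS_bal {k : ℤ} {κ : Fin 3 → Cell → Cell → Cell → ℝ} (hκ : TabK κ) (f : Fam (Gt j r t) γ) (g : Gd (Rg j r) γ)
    (K M : ℝ) {A : Fin 3 → FX I → ℝ} (h : ∀ t' : Fin 3, t' ≠ 0 → ∀ (γ' : FX I) (c : Cell × Cell × Cell), Eq6 (Rg j r) (Gt j r t) (Gt j r t') γ γ' →
      IsUn (γ' none) c.1 → IsUn (γ' (some (j, r))) c.2.1 → IsUn (γ' (some (j + 1, r))) c.2.2 →
      A t' γ' = K + κ t' c.1 c.2.1 c.2.2 * M) :
    CS j r t 1 γ (fun γ' => WX (WE k j (r + 1)) γ' * A 1 γ') = CS j r t 2 γ (fun γ' => WX (WE k j r) γ' * A 2 γ') := by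
  obtain ⟨q, hq⟩ := cls_sumX f g
  have tY := tabYB YB_dbh q
  have tK := hκ q
  have h1 := hq 1 (WE k j (r + 1)) (A 1) (fun c => K + κ 1 c.1 c.2.1 c.2.2 * M) fun γ' c e e0 e1 e2 =>
    h 1 (by decide) γ' c e e0 e1 e2
  have h2 := hq 2 (WE k j r) (A 2) (fun c => K + κ 2 c.1 c.2.1 c.2.2 * M) fun γ' c e e0 e1 e2 =>
    h 2 (by decide) γ' c e e0 e1 e2
  have a0 : ∀ s, WE k j s none = wR dA := fun _ => rfl
  have a1 : WE k j (r + 1) (some (j, r)) = wR bA := by simp [WE, WL]
  have a2 : WE k j (r + 1) (some (j + 1, r)) = wR hA := by simp [WE, WL]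
  have a3 : WE k j r (some (j, r)) = wR hA := by simp [WE, WL]
  have a4 : WE k j r (some (j + 1, r)) = wR bA := by simp [WE, WL]
  have o : OX (WE k j (r + 1)) j r γ = OX (WE k j r) j r γ := OX_congr fun v hv => WL_out hv
  rw [a0, a1, a2] at h1
  rw [a0, a3, a4] at h2
  have sp : ∀ (p : Cell × Cell × Cell → Prop) [DecidablePred p] (w κ' : Cell × Cell × Cell → ℝ),
      (∑ c, if p c then w c * (K + κ' c * M) else 0) = K * (∑ c, if p c then w c else 0) + M * ∑ c, if p c then w c * κ' c else 0 := by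
    intro p _ w κ'
    rw [Finset.mul_sum, Finset.mul_sum, ← Finset.sum_add_distrib]
    refine Finset.sum_congr rfl fun c _ => ?_
    split_ifs
    · ring
    · ring
  rw [sp] at h1 h2
  rw [CS, CS, h1, h2, o]
  congr 1
  rw [tY]
  congr 2

theorem tab0 : TabK fun _ _ _ _ => 0 := fun q => by
  simp only [mul_zero, ite_self]

/-- a member alone in the region is the union there -/
theorem alone (f : Fam (Gt j r t) γ) (h : Eq6 (Rg j r) (Gt j r t) (Gt j r t') γ γ') (o : ∀ k, k ≠ i → ¬ Us j r γ k)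
    {c : Cell × Cell × Cell} (e0 : IsUn (γ' none) c.1) (e1 : IsUn (γ' (some (j, r))) c.2.1)
    (e2 : IsUn (γ' (some (j + 1, r))) c.2.2) : γ' none i = c.1 ∧ γ' (some (j, r)) i = c.2.1 ∧
      γ' (some (j + 1, r)) i = c.2.2 := by
  have o' : ∀ k, k ≠ i → γ' none k = .o ∧ γ' (some (j, r)) k = .o ∧ γ' (some (j + 1, r)) k = .o := fun k hk =>
    not_Us fun h' => o k hk ((Us_eq h k).2 h')
  exact ⟨un_single e0 fun k hk => (o' k hk).1, un_single e1 fun k hk => (o' k hk).2.1, un_single e2 fun k hk => (o' k hk).2.2⟩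

/-- **the functional of one height is balanced** -/
theorem bal {k : ℤ} (ht0 : t ≠ 0) (f : Fam (Gt j r t) γ) (g : Gd (Rg j r) γ) (a : Fin 4)
    (h : ExA j r γ i a → ∀ k, k ≠ i → ¬ Us j r γ k) (G : ℤ → ℝ) :
    CS j r t 1 γ (fun γ' => WX (WE k j (r + 1)) γ' * Ap G (cf j (r + 1) γ' i a) (ep a) (ht γ' i a)) =
      CS j r t 2 γ (fun γ' => WX (WE k j r) γ' * Ap G (cf j r γ' i a) (ep a) (ht γ' i a)) := by
  have s1 : sg r 1 = r + 1 := if_pos rfl
  have s2 : sg r 2 = r := if_neg (by decide)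
  have fin := fun (κ : Fin 3 → Cell → Cell → Cell → ℝ) (hκ : TabK κ) (K M : ℝ)
    (hh : ∀ t' : Fin 3, t' ≠ 0 → ∀ (γ' : FX I) (c : Cell × Cell × Cell), Eq6 (Rg j r) (Gt j r t) (Gt j r t') γ γ' →
      IsUn (γ' none) c.1 → IsUn (γ' (some (j, r))) c.2.1 → IsUn (γ' (some (j + 1, r))) c.2.2 →
      Ap G (cf j (sg r t') γ' i a) (ep a) (ht γ' i a) = K + κ t' c.1 c.2.1 c.2.2 * M) =>
    CS_bal (k := k) hκ f g K M (A := fun t' γ' => Ap G (cf j (sg r t') γ' i a) (ep a) (ht γ' i a)) hh
  simp only [s1, s2] at fin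
  by_cases x : ExA j r γ i a
  · have o := h x
    fin_cases a
    · refine fin kL tabL (G j) (lfO (thL j r (j + 1)) j r γ i * (G (j + 1) - G j)) fun t' ht' γ' c e e0 e1 e2 => ?_
      obtain ⟨i0, i1, i2⟩ := alone f e o e0 e1 e2
      have x' : ExL j r γ' i := (congrFun (ExA_eq e i) 0).mp x
      rw [lfO_out _ e.out, ← i0, ← i1, ← i2]
      exact ext_L ht' e.fam' e.gd' x' G
    · refine fin kR tabR (G (j + 1)) (lfO (thR j r j) j r γ i * (G j - G (j + 1))) fun t' ht' γ' c e e0 e1 e2 => ?_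
      obtain ⟨i0, i1, i2⟩ := alone f e o e0 e1 e2
      have x' : ExR j r γ' i := (congrFun (ExA_eq e i) 1).mp x
      rw [lfO_out _ e.out, ← i0, ← i1, ← i2]
      exact ext_R ht' e.fam' e.gd' x' G
    · refine fin kB tabB (G r) (-(lfO (thB j r r) j r γ i * (G r - G (r + 1)))) fun t' ht' γ' c e e0 e1 e2 => ?_
      obtain ⟨i0, i1, i2⟩ := alone f e o e0 e1 e2
      have x' : ExB j r γ' i := (congrFun (ExA_eq e i) 2).mp x
      rw [lfO_out _ e.out, ← i0, ← i1, ← i2]
      exact ext_B ht' e.fam' e.gd' x' G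
    · refine fin kT tabT (G r) (-(lfO (thT j r r) j r γ i * (G r - G (r - 1)))) fun t' ht' γ' c e e0 e1 e2 => ?_
      obtain ⟨i0, i1, i2⟩ := alone f e o e0 e1 e2
      have x' : ExT j r γ' i := (congrFun (ExA_eq e i) 3).mp x
      rw [lfO_out _ e.out, ← i0, ← i1, ← i2]
      exact ext_T ht' e.fam' e.gd' x' G
  · fin_cases a
    · refine fin _ tab0 (Ap G (lfO (thL j r (he j r γ i 0)) j r γ i - 1) (-1) (he j r γ i 0)) 0 fun t' ht' γ' c e _ _ _ => ?_
      have x' : ¬ ExL j r γ' i := fun x' => x ((congrFun (ExA_eq e i) 0).mpr x')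
      obtain ⟨v1, v2⟩ := val_L e.fam' e.gd' x'
      rw [lfO_out _ e.out, he_Eq e, ← v2, ← v1, zero_mul, add_zero]
      rfl
    · refine fin _ tab0 (Ap G (lfO (thR j r (he j r γ i 1)) j r γ i - 1) 1 (he j r γ i 1)) 0 fun t' ht' γ' c e _ _ _ => ?_
      have x' : ¬ ExR j r γ' i := fun x' => x ((congrFun (ExA_eq e i) 1).mpr x')
      obtain ⟨v1, v2⟩ := val_R e.fam' e.gd' x'
      rw [lfO_out _ e.out, he_Eq e, ← v2, ← v1, zero_mul, add_zero]
      rfl
    · refine fin _ tab0 (Ap G (-lfO (thB j r (he j r γ i 2)) j r γ i) 1 (he j r γ i 2)) 0 fun t' ht' γ' c e _ _ _ => ?_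
      have x' : ¬ ExB j r γ' i := fun x' => x ((congrFun (ExA_eq e i) 2).mpr x')
      obtain ⟨v1, v2⟩ := val_B e.fam' e.gd' x'
      rw [lfO_out _ e.out, he_Eq e, ← v2, ← v1, zero_mul, add_zero]
      rfl
    · refine fin _ tab0 (Ap G (-lfO (thT j r (he j r γ i 3)) j r γ i) (-1) (he j r γ i 3)) 0 fun t' ht' γ' c e _ _ _ => ?_
      have x' : ¬ ExT j r γ' i := fun x' => x ((congrFun (ExA_eq e i) 3).mpr x')
      obtain ⟨v1, v2⟩ := val_T e.fam' e.gd' x'
      rw [lfO_out _ e.out, he_Eq e, ← v2, ← v1, zero_mul, add_zero]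
      rfl

end

end Pool.Agent.ROT.X.Bl
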