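import Pool.Agent.ROT.XDefs

/-!
# UNIV, exact side (helper65): the tables of the four coefficients

Region of the row `r`; graph `1`: the crossing above the row, left cell `b`, right cell `h`; graph `2`: the crossing below,
left cell `h`, right cell `b`.  `kR`, `kL`, `kT`, `kB` = the part of the coefficients in the region when the member is alone
there and extreme.  **`tabR`, `tabL`, `tabT`, `tabB`**: their sums (with the weights) over the states with the same pairing of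
the ports agree in the two graphs.
-/

set_option autoImplicit false

namespace Pool.Agent.ROT.X.Bl

open Pool.Agent.EXL (Wt YB)
open Pool.Agent.YBC (Dir)
open Pool.Agent.UNI (wR)
open Pool.Agent.ROT.E (Cell IsUn Pt)
open Pool.Agent.ROT.L

noncomputable section

theorem bA_ne : (wR bA).v ≠ 0 ∧ (wR bA).u1 ≠ 0 ∧ (wR bA).u2 ≠ 0 := by
  have hp := Real.pi_pos
  have h1 : 0 < bA := by rw [bA]; linarith
  have h2 : bA < 3 * Real.pi / 8 := by rw [bA]; linarith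
  exact ⟨(Pool.Agent.UNI.wR_v_pos h1 h2).ne', (Pool.Agent.UNI.wR_u1_pos h1 h2).ne', (Pool.Agent.UNI.wR_u2_pos h1 h2).ne'⟩

theorem hA_ne : (wR hA).v ≠ 0 ∧ (wR hA).u1 ≠ 0 ∧ (wR hA).u2 ≠ 0 := by
  have hp := Real.pi_pos
  have h1 : 0 < hA := by rw [hA]; linarith
  have h2 : hA < 3 * Real.pi / 8 := by rw [hA]; linarith
  exact ⟨(Pool.Agent.UNI.wR_v_pos h1 h2).ne', (Pool.Agent.UNI.wR_u1_pos h1 h2).ne', (Pool.Agent.UNI.wR_u2_pos h1 h2).ne'⟩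

theorem dA_ne : (wR dA).v ≠ 0 ∧ (wR dA).u1 ≠ 0 ∧ (wR dA).u2 ≠ 0 := by
  have hp := Real.pi_pos
  have h1 : 0 < dA := by rw [dA]; linarith
  have h2 : dA < 3 * Real.pi / 8 := by rw [dA]; linarith
  exact ⟨(Pool.Agent.UNI.wR_v_pos h1 h2).ne', (Pool.Agent.UNI.wR_u1_pos h1 h2).ne', (Pool.Agent.UNI.wR_u2_pos h1 h2).ne'⟩

/-- the right side: the right cell is free -/
def kR (t : Fin 3) (s c1 c2 : Cell) : ℝ :=
  if c2 = .o ∧ (s = .o ∨ s = .sw) then (if s ≠ .o then ((wR dA).u1)⁻¹ else 1) * (if t = 2 then rt c1 else 1) else 0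

/-- the left side: the left cell is free -/
def kL (t : Fin 3) (s c1 c2 : Cell) : ℝ :=
  if c1 = .o ∧ (s = .o ∨ s = .ne) then (if s ≠ .o then ((wR dA).u1)⁻¹ else 1) * (if t = 1 then rt c2 else 1) else 0

/-- the top -/
def kT (t : Fin 3) (s c1 c2 : Cell) : ℝ :=
  if t = 1 then (if s = .o then tf 0 c1 * tf 1 c2 else 0) else (if c1 = .o then tf 0 c2 else 0)

/-- the bottom -/
def kB (t : Fin 3) (s c1 c2 : Cell) : ℝ :=
  if t = 2 then (if s = .o then bf (-1) c1 * bf 0 c2 else 0) else (if c2 = .o then bf 0 c1 else 0)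

/-- the summand with its sign -/
def fk (k : Fin 3 → Cell → Cell → Cell → ℝ) (t : Fin 3) (s c1 c2 : Cell) : ℝ :=
  if t = 1 then s.wt (wR dA) * (c1.wt (wR bA) * c2.wt (wR hA)) * k 1 s c1 c2 else
    -(s.wt (wR dA) * (c1.wt (wR hA) * c2.wt (wR bA)) * k 2 s c1 c2)

/-- the sums of the kernel `k` over the states with the same pairing agree -/
def TabK (k : Fin 3 → Cell → Cell → Cell → ℝ) : Prop := ∀ q : Fin 6 → Fin 6,
  (∑ c : Cell × Cell × Cell, if conn 1 ![c.1, c.2.1, c.2.2] = some q then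
    c.1.wt (wR dA) * (c.2.1.wt (wR bA) * c.2.2.wt (wR hA)) * k 1 c.1 c.2.1 c.2.2 else 0) =
  ∑ c : Cell × Cell × Cell, if conn 2 ![c.1, c.2.1, c.2.2] = some q then
    c.1.wt (wR dA) * (c.2.1.wt (wR hA) * c.2.2.wt (wR bA)) * k 2 c.1 c.2.1 c.2.2 else 0

theorem tab_k {k : Fin 3 → Cell → Cell → Cell → ℝ}
    (h : ∀ g ∈ grp, (g.2.map fun x => fk k x.1 x.2.1 x.2.2.1 x.2.2.2).sum = 0) : TabK k := fun q => by
  have h1 := tab_of h q
  have e1 : ∀ s c1 c2, fk k 1 s c1 c2 = s.wt (wR dA) * (c1.wt (wR bA) * c2.wt (wR hA)) * k 1 s c1 c2 := fun _ _ _ => if_pos rfl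
  have e2 : ∀ s c1 c2, fk k 2 s c1 c2 = -(s.wt (wR dA) * (c1.wt (wR hA) * c2.wt (wR bA)) * k 2 s c1 c2) :=
    fun _ _ _ => if_neg (by decide)
  simp only [e1, e2] at h1
  have h2 : (∑ c : Cell × Cell × Cell, if conn 2 ![c.1, c.2.1, c.2.2] = some q then
      -(c.1.wt (wR dA) * (c.2.1.wt (wR hA) * c.2.2.wt (wR bA)) * k 2 c.1 c.2.1 c.2.2) else 0) =
      -∑ c : Cell × Cell × Cell, if conn 2 ![c.1, c.2.1, c.2.2] = some q then
        c.1.wt (wR dA) * (c.2.1.wt (wR hA) * c.2.2.wt (wR bA)) * k 2 c.1 c.2.1 c.2.2 else 0 := by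
    rw [← Finset.sum_neg_distrib]
    refine Finset.sum_congr rfl fun s _ => ?_
    split_ifs
    · rfl
    · rw [neg_zero]
  rw [h2] at h1
  linarith


theorem tabR : TabK kR := by
  obtain ⟨a1, a2, a3⟩ := bA_ne
  obtain ⟨b1, b2, b3⟩ := hA_ne
  obtain ⟨c1, c2, c3⟩ := dA_ne
  refine tab_k ?_
  simp only [grp, List.forall_mem_cons, List.map_cons, List.map_nil, List.sum_cons, List.sum_nil]
  refine ⟨?_, ?_, ?_, ?_, ?_, ?_, ?_, ?_, ?_, ?_, ?_, ?_, ?_, ?_, ?_, ?_, ?_, ?_, ?_, ?_, ?_, ?_, ?_, ?_, ?_, ?_, ?_, ?_, ?_, ?_, ?_, ?_, ?_, ?_, ?_, ?_, ?_, ?_, ?_, ?_, ?_, ?_, ?_, ?_, ?_, ?_, ?_, ?_, ?_, ?_, ?_, fun _ h => absurd h (List.not_mem_nil)⟩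
  all_goals simp [fk, kR, rt, Cell.wt]
  all_goals try (field_simp)
  all_goals try ring

theorem tabL : TabK kL := by
  obtain ⟨a1, a2, a3⟩ := bA_ne
  obtain ⟨b1, b2, b3⟩ := hA_ne
  obtain ⟨c1, c2, c3⟩ := dA_ne
  refine tab_k ?_
  simp only [grp, List.forall_mem_cons, List.map_cons, List.map_nil, List.sum_cons, List.sum_nil]
  refine ⟨?_, ?_, ?_, ?_, ?_, ?_, ?_, ?_, ?_, ?_, ?_, ?_, ?_, ?_, ?_, ?_, ?_, ?_, ?_, ?_, ?_, ?_, ?_, ?_, ?_, ?_, ?_, ?_, ?_, ?_, ?_, ?_, ?_, ?_, ?_, ?_, ?_, ?_, ?_, ?_, ?_, ?_, ?_, ?_, ?_, ?_, ?_, ?_, ?_, ?_, ?_, fun _ h => absurd h (List.not_mem_nil)⟩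
  all_goals simp [fk, kL, rt, Cell.wt]
  all_goals try (field_simp)
  all_goals try ring

theorem tabT : TabK kT := by
  obtain ⟨a1, a2, a3⟩ := bA_ne
  obtain ⟨b1, b2, b3⟩ := hA_ne
  obtain ⟨c1, c2, c3⟩ := dA_ne
  refine tab_k ?_
  simp only [grp, List.forall_mem_cons, List.map_cons, List.map_nil, List.sum_cons, List.sum_nil]
  refine ⟨?_, ?_, ?_, ?_, ?_, ?_, ?_, ?_, ?_, ?_, ?_, ?_, ?_, ?_, ?_, ?_, ?_, ?_, ?_, ?_, ?_, ?_, ?_, ?_, ?_, ?_, ?_, ?_, ?_, ?_, ?_, ?_, ?_, ?_, ?_, ?_, ?_, ?_, ?_, ?_, ?_, ?_, ?_, ?_, ?_, ?_, ?_, ?_, ?_, ?_, ?_, fun _ h => absurd h (List.not_mem_nil)⟩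
  all_goals simp [fk, kT, tf, Cell.wt]
  all_goals try (field_simp)
  all_goals try ring

theorem tabB : TabK kB := by
  obtain ⟨a1, a2, a3⟩ := bA_ne
  obtain ⟨b1, b2, b3⟩ := hA_ne
  obtain ⟨c1, c2, c3⟩ := dA_ne
  refine tab_k ?_
  simp only [grp, List.forall_mem_cons, List.map_cons, List.map_nil, List.sum_cons, List.sum_nil]
  refine ⟨?_, ?_, ?_, ?_, ?_, ?_, ?_, ?_, ?_, ?_, ?_, ?_, ?_, ?_, ?_, ?_, ?_, ?_, ?_, ?_, ?_, ?_, ?_, ?_, ?_, ?_, ?_, ?_, ?_, ?_, ?_, ?_, ?_, ?_, ?_, ?_, ?_, ?_, ?_, ?_, ?_, ?_, ?_, ?_, ?_, ?_, ?_, ?_, ?_, ?_, ?_, fun _ h => absurd h (List.not_mem_nil)⟩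
  all_goals simp [fk, kB, bf, Cell.wt]
  all_goals try (field_simp)
  all_goals try ring

end

end Pool.Agent.ROT.X.Bl
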