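import Pool.Agent.ROT.XNgA

/-!
# UNIV, exact side, row X6 (helper39): comparison inside a class

`cmp6` : `Cmp6`: a class of the row `r` has at most `9 ^ 3` members with the same outside, and the weights which do not vanish are
bounded below.
-/

set_option autoImplicit false

namespace Pool.Agent.ROT.X

open Pool.Agent.EXL (Wt YB)
open Pool.Agent.YBC (Dir)
open Pool.Agent.UNI (wR)
open Pool.Agent.ROT.E (Cell IsUn Pt)
open Pool.Agent.ROT.L

noncomputable section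

variable {k j r t t' B : ℤ}

/-- the three tables -/
def cmW : Fin 3 → Wt ℝ
  | 0 => wR dA
  | 1 => wR bA
  | 2 => wR hA

theorem cm_lo : ∃ c0 : ℝ, 0 < c0 ∧ ∀ (i : Fin 3) (c : Cell), c.wt (cmW i) ≠ 0 → c0 ≤ |c.wt (cmW i)| := by
  classical
  obtain ⟨x, -, hx⟩ := Finset.exists_min_image (Finset.univ : Finset (Fin 3 × Cell))
    (fun x => if x.2.wt (cmW x.1) = 0 then 1 else |x.2.wt (cmW x.1)|) Finset.univ_nonempty
  refine ⟨if x.2.wt (cmW x.1) = 0 then 1 else |x.2.wt (cmW x.1)|, ?_, fun i c h => ?_⟩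
  · split_ifs with h
    · exact one_pos
    · exact abs_pos.2 h
  · have := hx (i, c) (Finset.mem_univ _)
    simp only [h, if_false] at this
    exact this

theorem cm_hi : ∃ C1 : ℝ, 0 < C1 ∧ ∀ (i : Fin 3) (c : Cell), |c.wt (cmW i)| ≤ C1 := by
  classical
  obtain ⟨x, -, hx⟩ := Finset.exists_max_image (Finset.univ : Finset (Fin 3 × Cell)) (fun x => |x.2.wt (cmW x.1)|)
    Finset.univ_nonempty
  exact ⟨|x.2.wt (cmW x.1)| + 1, by positivity, fun i c => (hx (i, c) (Finset.mem_univ _)).trans (by linarith)⟩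

theorem cm_none (s : ℤ) : WE k j s none = cmW 0 := rfl

theorem cm_some (s : ℤ) (p : Pt) (hp : p.1 = j ∨ p.1 = j + 1) : ∃ i, WE k j s (some p) = cmW i := by
  obtain ⟨a, b⟩ := p
  simp only at hp
  simp only [WE, WL]
  rcases hp with rfl | rfl
  · rw [if_pos rfl]
    split_ifs
    · exact ⟨1, rfl⟩
    · exact ⟨2, rfl⟩
  · rw [if_neg (by omega), if_pos rfl]
    split_ifs
    · exact ⟨2, rfl⟩
    · exact ⟨1, rfl⟩

theorem cm_out (ht : t = r ∨ t = r + 1) (ht' : t' = r ∨ t' = r + 1) {v : VX} (hv : v ∉ Rg j r) : WE k j t v = WE k j t' v := by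
  have h : WE k j (r + 1) v = WE k j r v := WL_out hv
  rcases ht with rfl | rfl <;> rcases ht' with rfl | rfl <;> first | rfl | exact h | exact h.symm

/-- the weight of one loop as a product -/
theorem cm_wt {W : VX → Wt ℝ} {δ δ' : VX →₀ Cell} (out : ∀ v, v ∉ Rg j r → δ v = δ' v) : W1X W δ' =
    OX W j r (fam1 δ) * ((δ' none).wt (W none) * ((δ' (some (j, r))).wt (W (some (j, r))) *
      (δ' (some (j + 1, r))).wt (W (some (j + 1, r))))) := by
  rw [← W1X_eq]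
  exact WX_cls (γ := fam1 δ) (γ' := fam1 δ') (c := (δ' none, δ' (some (j, r)), δ' (some (j + 1, r))))
    (fun v hv => by
      funext a
      exact out v hv) un_one un_one un_one

open Classical in
/-- **X6, comparison inside a class** -/
theorem cmp6 : Cmp6 := by
  obtain ⟨c0, hc0, hlo⟩ := cm_lo
  obtain ⟨C1, hC1, hhi⟩ := cm_hi
  refine ⟨C1 ^ 3 / c0 ^ 3 * (Fintype.card (Cell × Cell × Cell) : ℝ), by
    have : 0 < Fintype.card (Cell × Cell × Cell) := Fintype.card_pos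
    positivity, ?_⟩
  intro k j r B t t' Ev P hk hr h1 h2 ht ht' hcs hgd hex
  have A1f : ∀ (t : ℤ) (Q : (VX →₀ Cell) → Prop), A1 k j t B (fun δ => if Q δ then 1 else 0) =
      ∑ δ ∈ (fin_Bx1 B).toFinset.filter (fun δ => (Lp (gX j t) δ ∧ Bx1 B δ) ∧ Q δ), |W1X (WE k j t) δ| := by
    intro t Q
    rw [A1_sum, Finset.sum_filter]
    refine Finset.sum_congr rfl fun δ _ => ?_
    by_cases hf : Lp (gX j t) δ ∧ Bx1 B δ
    · by_cases hq : Q δ
      · rw [if_pos hf, if_pos hq, if_pos ⟨hf, hq⟩, mul_one]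
      · rw [if_pos hf, if_neg hq, if_neg fun h => hq h.2, mul_zero]
    · rw [if_neg hf, if_neg fun h => hf h.1]
  obtain ⟨Q, hQ⟩ : ∃ Q : (VX →₀ Cell) → Prop, Q = fun δ => Ev δ ∧ P δ := ⟨_, rfl⟩
  have e2 : A1 k j t' B (fun δ => if Ev δ ∧ P δ then 1 else 0) = A1 k j t' B (fun δ => if Q δ then 1 else 0) := by
    refine congrArg _ (funext fun δ => ?_)
    have hq : Q δ ↔ Ev δ ∧ P δ := by rw [hQ]
    by_cases h : Ev δ ∧ P δ
    · rw [if_pos h, if_pos (hq.2 h)]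
    · rw [if_neg h, if_neg fun h' => h (hq.1 h')]
  rw [e2, A1f t Ev, A1f t' Q]
  set S : Finset (VX →₀ Cell) := (fin_Bx1 B).toFinset.filter (fun δ => (Lp (gX j t) δ ∧ Bx1 B δ) ∧ Ev δ) with hS
  set T : Finset (VX →₀ Cell) := (fin_Bx1 B).toFinset.filter (fun δ => (Lp (gX j t') δ ∧ Bx1 B δ) ∧ Q δ) with hT
  -- the other member of the class
  have hψ : ∀ δ : VX →₀ Cell, ∃ δ' : VX →₀ Cell, δ ∈ S → (∀ v, v ∉ Rg j r → δ v = δ' v) ∧ δ' ∈ T ∧
      (δ' none).wt (wR dA) ≠ 0 ∧ ∀ c, c = j ∨ c = j + 1 → (δ' (some (c, r))).wt (WE k j t' (some (c, r))) ≠ 0 := by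
    intro δ
    by_cases hδ : δ ∈ S
    · obtain ⟨-, ⟨l, b⟩, he⟩ := Finset.mem_filter.1 hδ
      obtain ⟨δ', e, hP, w0, w1⟩ := hex δ l he
      have out : ∀ v, v ∉ Rg j r → δ v = δ' v := fun v hv => congrFun (e.out v hv) ()
      have b' : Bx1 B δ' := by
        rw [← fam1_bx]
        exact ng_bx hr h1 h2 e.out (fam1_bx.2 b)
      have l' : Lp (gX j t') δ' := fam1_lp.1 e.fam'
      have he' : Ev δ' := by
        obtain ⟨i, hi, ei⟩ : ∃ i : Fin 3, i ≠ 0 ∧ Gt j r i = gX j t := by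
          rcases ht with rfl | rfl
          · exact ⟨2, by decide, rfl⟩
          · exact ⟨1, by decide, rfl⟩
        obtain ⟨i', hi', ei'⟩ : ∃ i : Fin 3, i ≠ 0 ∧ Gt j r i = gX j t' := by
          rcases ht' with rfl | rfl
          · exact ⟨2, by decide, rfl⟩
          · exact ⟨1, by decide, rfl⟩
        rw [← ei, ← ei'] at e
        have h3 := hcs i i' _ _ hi hi' e
        simp only [co_fam1] at h3
        rw [if_pos he] at h3
        by_contra hc
        rw [if_neg hc] at h3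
        exact one_ne_zero h3
      exact ⟨δ', fun _ => ⟨out, Finset.mem_filter.2 ⟨(Set.Finite.mem_toFinset _).2 b', ⟨l', b'⟩, by rw [hQ]; exact ⟨he', hP⟩⟩, w0, w1⟩⟩
    · exact ⟨δ, fun h => absurd h hδ⟩
  choose ψ hψ using hψ
  -- the weights
  have wt : ∀ δ ∈ S, |W1X (WE k j t) δ| ≤ C1 ^ 3 / c0 ^ 3 * |W1X (WE k j t') (ψ δ)| := by
    intro δ hδ
    obtain ⟨out, -, w0, w1⟩ := hψ δ hδ
    rw [cm_wt (W := WE k j t) (j := j) (r := r) (δ := δ) (δ' := δ) fun _ _ => rfl, cm_wt (W := WE k j t') out,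
      OX_congr (W := WE k j t) (W' := WE k j t') fun v hv => cm_out ht ht' hv]
    obtain ⟨i1, hi1⟩ := cm_some (k := k) (j := j) t (j, r) (Or.inl rfl)
    obtain ⟨i2, hi2⟩ := cm_some (k := k) (j := j) t (j + 1, r) (Or.inr rfl)
    obtain ⟨i3, hi3⟩ := cm_some (k := k) (j := j) t' (j, r) (Or.inl rfl)
    obtain ⟨i4, hi4⟩ := cm_some (k := k) (j := j) t' (j + 1, r) (Or.inr rfl)
    have v1 := w1 j (Or.inl rfl)
    have v2 := w1 (j + 1) (Or.inr rfl)
    rw [hi3] at v1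
    rw [hi4] at v2
    rw [hi1, hi2, hi3, hi4, cm_none, cm_none, abs_mul, abs_mul, abs_mul, abs_mul, abs_mul, abs_mul]
    have a0 := hhi 0 (δ none)
    have a1 := hhi i1 (δ (some (j, r)))
    have a2 := hhi i2 (δ (some (j + 1, r)))
    have b0 := hlo 0 (ψ δ none) w0
    have b1 := hlo i3 (ψ δ (some (j, r))) v1
    have b2 := hlo i4 (ψ δ (some (j + 1, r))) v2
    have u : |(δ none).wt (cmW 0)| * (|(δ (some (j, r))).wt (cmW i1)| * |(δ (some (j + 1, r))).wt (cmW i2)|) ≤ C1 ^ 3 := by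
      calc _ ≤ C1 * (C1 * C1) := mul_le_mul a0 (mul_le_mul a1 a2 (abs_nonneg _) hC1.le) (by positivity) hC1.le
        _ = C1 ^ 3 := by ring
    have v : c0 ^ 3 ≤ |(ψ δ none).wt (cmW 0)| * (|(ψ δ (some (j, r))).wt (cmW i3)| * |(ψ δ (some (j + 1, r))).wt (cmW i4)|) := by
      calc c0 ^ 3 = c0 * (c0 * c0) := by ring
        _ ≤ _ := mul_le_mul b0 (mul_le_mul b1 b2 hc0.le (abs_nonneg _)) (by positivity) (abs_nonneg _)
    obtain ⟨x, hx⟩ : ∃ x, x = |(ψ δ none).wt (cmW 0)| * (|(ψ δ (some (j, r))).wt (cmW i3)| *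
      |(ψ δ (some (j + 1, r))).wt (cmW i4)|) := ⟨_, rfl⟩
    rw [← hx] at v ⊢
    have w : C1 ^ 3 ≤ C1 ^ 3 / c0 ^ 3 * x := by
      rw [div_mul_eq_mul_div, le_div_iff₀ (by positivity)]
      exact mul_le_mul_of_nonneg_left v (by positivity)
    calc _ ≤ |OX (WE k j t') j r (fam1 δ)| * C1 ^ 3 := mul_le_mul_of_nonneg_left u (abs_nonneg _)
      _ ≤ |OX (WE k j t') j r (fam1 δ)| * (C1 ^ 3 / c0 ^ 3 * x) := mul_le_mul_of_nonneg_left w (abs_nonneg _)
      _ = _ := by ring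
  -- the members with the same outside
  set Φ : (VX →₀ Cell) → (VX →₀ Cell) × (Cell × Cell × Cell) := fun δ => (ψ δ, (δ none, δ (some (j, r)), δ (some (j + 1, r))))
    with hΦ
  have inj : Set.InjOn Φ S := by
    intro δ hδ δ' hδ' e
    simp only [hΦ, Prod.mk.injEq] at e
    obtain ⟨e0, e1, e2, e3⟩ := e
    ext1 v
    by_cases hv : v ∈ Rg j r
    · rcases hv with rfl | rfl | rfl
      · exact e1
      · exact e2
      · exact e3
    · rw [(hψ δ hδ).1 v hv, (hψ δ' hδ').1 v hv, e0]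
  calc ∑ δ ∈ S, |W1X (WE k j t) δ| ≤ ∑ δ ∈ S, C1 ^ 3 / c0 ^ 3 * |W1X (WE k j t') (ψ δ)| := Finset.sum_le_sum wt
    _ = ∑ x ∈ S.image Φ, C1 ^ 3 / c0 ^ 3 * |W1X (WE k j t') x.1| :=
        (Finset.sum_image (f := fun x : (VX →₀ Cell) × (Cell × Cell × Cell) => C1 ^ 3 / c0 ^ 3 * |W1X (WE k j t') x.1|) inj).symm
    _ ≤ ∑ x ∈ T ×ˢ (Finset.univ : Finset (Cell × Cell × Cell)), C1 ^ 3 / c0 ^ 3 * |W1X (WE k j t') x.1| := by
        refine Finset.sum_le_sum_of_subset_of_nonneg ?_ fun _ _ _ => by positivity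
        intro x hx
        obtain ⟨δ, hδ, rfl⟩ := Finset.mem_image.1 hx
        exact Finset.mem_product.2 ⟨(hψ δ hδ).2.1, Finset.mem_univ _⟩
    _ = _ := by
        rw [Finset.sum_product]
        simp only [Finset.sum_const, Finset.card_univ, nsmul_eq_mul]
        rw [Finset.mul_sum]
        refine Finset.sum_congr rfl fun δ _ => ?_
        ring

end

end Pool.Agent.ROT.X
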