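import Pool.Agent.ROT.XRow
import Pool.Agent.ROT.UNearDefs

/-!
# UNIV, exact side: definitions (helper99)

Lattice `E_j` = `latj k j`: the angle `b = 3 π / 16` in the columns `< k` and in the column `j`, the honeycomb `π / 8` in all
others.  `WE k j s` = the tables of the strip `j`, `j + 1` with the crossing below the row `s` (rows `< s`: `E_j`, rows `≥ s`:
`E_(j+1)`), for `XRow.WX` on `gX j s`.

* `cR`, `cL`, `cT`, `cB j s γ i` : the coefficients of the member `i` (right, left, top, bottom), local products;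
* **`gA J f j s γ`** : the functional `f(heights) + Σ_i Σ_a (coefficient)(difference of f)`, exact along the sweep;
* `ExR`, `ExL`, `ExT`, `ExB`, `Ex j r γ i` : the member `i` is extreme in the region of the row `r`;
* `Bx B` : the box; `SX k j s B G` : the (finite) sum over the families of the box on `gX j s`; `SE k j B G` on `g0`.

Rows (Props): `Bal` (X2), `RowErr` (X3), `RowSum`, `Tel` (X4), `Abs3` (X5), `Prod` (X6).
-/

set_option autoImplicit false

namespace Pool.Agent.ROT.X

open Pool.Agent.EXL (Wt YB)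
open Pool.Agent.YBC (Dir)
open Pool.Agent.UNI (wR)
open Pool.Agent.ROT.E (Cell IsUn Pt)
open Pool.Agent.ROT.L

noncomputable section

variable {I : Type}

/-! ### angles and weights -/

/-- the angle of the block (90 degrees) -/
def bA : ℝ := 3 * Real.pi / 16

/-- the angle of the honeycomb -/
def hA : ℝ := Real.pi / 8

/-- the angle of the crossing -/
def dA : ℝ := Real.pi / 16

/-- the lattice `E_j` -/
def latj (k j : ℤ) : ℤ → ℝ := fun c => if c < k ∨ c = j then bA else hA

/-- **the tables of the strip**, crossing below the row `s` -/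
def WE (k j s : ℤ) : VX → Wt ℝ := WL (fun c => wR (latj k j c)) j s (wR dA) (wR bA) (wR hA)

/-- the tables of `E_j` on the square lattice (the crossing is isolated, its table does not matter) -/
def W0E (k j : ℤ) : VX → Wt ℝ
  | none => wR dA
  | some v => wR (latj k j v.1)

/-! ### the coefficients -/

/-- a product over the cells of the member `i` -/
def lf (θ : VX → Cell → ℝ) (γ : FX I) (i : I) : ℝ := ∏ v ∈ γ.support, θ v (γ v i)

/-- the ratio of the weights of a cell in a `b` column and in a honeycomb column -/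
def rt (c : Cell) : ℝ := c.wt (wR bA) / c.wt (wR hA)

/-- factor of a cell, right side: `R` = the rightmost column -/
def thR (j s R : ℤ) : VX → Cell → ℝ
  | none, c => if R = j ∧ c ≠ .o then ((wR dA).u1)⁻¹ else 1
  | some p, c => if p.1 = R ∧ (R < j ∨ (R = j ∧ s ≤ p.2)) then rt c else 1

/-- factor of a cell, left side: `L` = the leftmost column -/
def thL (j s L : ℤ) : VX → Cell → ℝ
  | none, c => if L = j + 1 ∧ c ≠ .o then ((wR dA).u1)⁻¹ else 1
  | some p, c => if p.1 = L ∧ (j + 1 < L ∨ (L = j + 1 ∧ p.2 < s)) then rt c else 1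

/-- factor of a cell of the top row at the distance `x` from the `b` column -/
def tf (x : ℤ) (c : Cell) : ℝ :=
  if c = .o then 1 else if x < 0 then 0 else if x = 0 then (if c = .se then ((wR bA).u2)⁻¹ else 0) else
    if c = .se then (wR dA).u1 / (wR hA).u2 else if c = .sw then (wR dA).u2 / (wR hA).u1 else
      if c = .h then (wR dA).v / (wR hA).v else 0

/-- factor of a cell of the bottom row at the distance `x` from the `b` column -/
def bf (x : ℤ) (c : Cell) : ℝ :=
  if c = .o then 1 else if 0 < x then 0 else if x = 0 then (if c = .nw then ((wR bA).u2)⁻¹ else 0) else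
    if c = .nw then (wR dA).u1 / (wR hA).u2 else if c = .ne then (wR dA).u2 / (wR hA).u1 else
      if c = .h then (wR dA).v / (wR hA).v else 0

/-- the `b` column in the row `t` -/
def qb (j s t : ℤ) : ℤ := if t < s then j else j + 1

/-- factor of a cell, top: `t` = the top row -/
def thT (j s t : ℤ) : VX → Cell → ℝ
  | none, c => if t = s - 1 ∧ c ≠ .o then 0 else 1
  | some p, c => if p.2 = t then tf (p.1 - qb j s t) c else 1

/-- factor of a cell, bottom: `t` = the bottom row -/
def thB (j s t : ℤ) : VX → Cell → ℝ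
  | none, c => if t = s ∧ c ≠ .o then 0 else 1
  | some p, c => if p.2 = t then bf (p.1 - qb j s t) c else 1

/-- coefficient, right -/
def cR (j s : ℤ) (γ : FX I) (i : I) : ℝ := lf (thR j s (ht γ i 1)) γ i

/-- coefficient, left -/
def cL (j s : ℤ) (γ : FX I) (i : I) : ℝ := lf (thL j s (ht γ i 0)) γ i

/-- coefficient, top -/
def cT (j s : ℤ) (γ : FX I) (i : I) : ℝ := lf (thT j s (ht γ i 3)) γ i

/-- coefficient, bottom -/
def cB (j s : ℤ) (γ : FX I) (i : I) : ℝ := lf (thB j s (ht γ i 2)) γ i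

/-- functions of the heights -/
abbrev Hf (I : Type) := (I → Fin 4 → ℤ) → ℝ

/-- the corrections of one member -/
def cor (f : Hf I) (j s : ℤ) (γ : FX I) (i : I) : ℝ :=
  (cR j s γ i - 1) * (f (ht γ) - f (upd (ht γ) i 1 (ht γ i 1 + 1))) +
    (cL j s γ i - 1) * (f (ht γ) - f (upd (ht γ) i 0 (ht γ i 0 - 1))) -
    cT j s γ i * (f (ht γ) - f (upd (ht γ) i 3 (ht γ i 3 - 1))) -
    cB j s γ i * (f (ht γ) - f (upd (ht γ) i 2 (ht γ i 2 + 1)))

/-- **the functional** -/
def gA (J : Finset I) (f : Hf I) (j s : ℤ) (γ : FX I) : ℝ := f (ht γ) + ∑ i ∈ J, cor f j s γ i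

/-- the size of the coefficients -/
def szA (J : Finset I) (j s : ℤ) (γ : FX I) : ℝ :=
  1 + ∑ i ∈ J, (|cR j s γ i| + |cL j s γ i| + |cT j s γ i| + |cB j s γ i|)

/-! ### extreme members in the region of a row -/

/-- the member `i` uses the region of the row `r` -/
def Us (j r : ℤ) (γ : FX I) (i : I) : Prop := ∃ v ∈ Rg j r, γ v i ≠ .o

/-- the cells of the member `i` off the region have `P` -/
def Off (j r : ℤ) (γ : FX I) (i : I) (P : Pt → Prop) : Prop := ∀ p : Pt, (some p : VX) ∉ Rg j r → γ (some p) i ≠ .o → P p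

def ExR (j r : ℤ) (γ : FX I) (i : I) : Prop := Us j r γ i ∧ Off j r γ i fun p => p.1 ≤ j
def ExL (j r : ℤ) (γ : FX I) (i : I) : Prop := Us j r γ i ∧ Off j r γ i fun p => j + 1 ≤ p.1
def ExT (j r : ℤ) (γ : FX I) (i : I) : Prop := Us j r γ i ∧ Off j r γ i fun p => p.2 < r ∨ (p.2 = r ∧ j + 1 < p.1)
def ExB (j r : ℤ) (γ : FX I) (i : I) : Prop := Us j r γ i ∧ Off j r γ i fun p => r < p.2 ∨ (p.2 = r ∧ p.1 < j)

/-- the member `i` is extreme in the region -/
def Ex (j r : ℤ) (γ : FX I) (i : I) : Prop := ExR j r γ i ∨ ExL j r γ i ∨ ExT j r γ i ∨ ExB j r γ i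

/-- a tracer is extreme and another member uses the region -/
def BadX (J : Finset I) (j r : ℤ) (γ : FX I) : Prop := ∃ i ∈ J, Ex j r γ i ∧ ∃ k, k ≠ i ∧ Us j r γ k

/-! ### boxes and sums -/

/-- the box -/
def Bx (B : ℤ) (γ : FX I) : Prop := ∀ a b : ℤ, γ (some (a, b)) ≠ 0 → |a| ≤ B ∧ |b| ≤ B

open Classical in
/-- **the sum over the families of the box on the lattice with the crossing below the row `s`** -/
def SX (k j s B : ℤ) (G : FX I → ℝ) : ℝ := ∑' γ : FX I, if Fam (gX j s) γ ∧ Bx B γ then WX (WE k j s) γ * G γ else 0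

open Classical in
/-- the sum over the families of the box on the square lattice `E_j` -/
def SE (k j B : ℤ) (G : FX I → ℝ) : ℝ :=
  ∑' γ : FX I, if Fam g0 γ ∧ γ none = 0 ∧ Bx B γ then WX (W0E k j) γ * G γ else 0

open Classical in
/-- the same with absolute values -/
def AX (k j s B : ℤ) (G : FX I → ℝ) : ℝ := ∑' γ : FX I, if Fam (gX j s) γ ∧ Bx B γ then |WX (WE k j s) γ| * G γ else 0

/-! ### test functions -/

/-- first differences at most `δ` -/
def Df1 (f : Hf I) (δ : ℝ) : Prop := ∀ h i a, |f (upd h i a (h i a + 1)) - f h| ≤ δ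

/-- second differences at most `δ` (also `(i, a) = (i', a')`) -/
def Df2 (f : Hf I) (δ : ℝ) : Prop := ∀ h i a i' a',
  |f (upd (upd h i a (h i a + 1)) i' a' (upd h i a (h i a + 1) i' a' + 1)) - f (upd h i a (h i a + 1)) -
    f (upd h i' a' (h i' a' + 1)) + f h| ≤ δ

/-- `f` does not depend on the heights of the members off `J` -/
def OnJ (J : Finset I) (f : Hf I) : Prop := ∀ h h' : I → Fin 4 → ℤ, (∀ i ∈ J, h i = h' i) → f h = f h'

/-- `f` vanishes unless the tracers have at least 12 columns and rows -/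
def Wid (J : Finset I) (f : Hf I) : Prop := ∀ h, f h ≠ 0 → ∀ i ∈ J, h i 0 + 12 ≤ h i 1 ∧ h i 2 + 12 ≤ h i 3

/-- heights within distance 2 of the support -/
def Sp2 (f : Hf I) (γ : FX I) : Prop := ∃ h, f h ≠ 0 ∧ ∀ i a, |h i a - ht γ i a| ≤ 2

/-- constant on the classes of the row `r` of the two graphs with a crossing -/
def Cs (j r : ℤ) (G : FX I → ℝ) : Prop := ∀ (t t' : Fin 3) (γ γ' : FX I), t ≠ 0 → t' ≠ 0 →
  Eq6 (Rg j r) (Gt j r t) (Gt j r t') γ γ' → G γ = G γ'

/-- every member off `J` is large where `χ` does not vanish (12 columns or rows) -/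
def Lar (J : Finset I) (χ : FX I → ℝ) : Prop := ∀ γ, χ γ ≠ 0 → ∀ i, i ∉ J →
  ∃ p q : Pt, γ (some p) i ≠ .o ∧ γ (some q) i ≠ .o ∧ (p.1 + 12 ≤ q.1 ∨ p.2 + 12 ≤ q.2)

/-! ### the rows -/

open Classical in
/-- **X3**: the error of one row step -/
def RowErr (I : Type) : Prop := ∃ C : ℝ, 0 < C ∧ ∀ (k j r B : ℤ) (J : Finset I) (f : Hf I) (χ : FX I → ℝ) (δ1 δ2 : ℝ),
  k ≤ j → |r| ≤ B → -B ≤ j → j + 1 ≤ B → Df1 f δ1 → Df2 f δ2 → OnJ J f → Wid J f → Cs j r χ → (∀ γ, |χ γ| ≤ 1) → Lar J χ →
  |SX k j (r + 1) B (fun γ => χ γ * gA J f j (r + 1) γ) - SX k j r B (fun γ => χ γ * gA J f j r γ)| ≤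
    ∑ t ∈ ({r + 1, r} : Finset ℤ), AX k j t B fun γ =>
      if χ γ ≠ 0 ∧ Sp2 f γ ∧ ∃ i ∈ J, Ex j r γ i then C * (δ2 + if BadX J j r γ then δ1 else 0) * szA J j t γ else 0

open Classical in
/-- **X4, one strip**: at the top of the box the crossing is a cap over the row `B`, at the bottom a cup below the row `-B` -/
def Ends (I : Type) : Prop := ∀ (k j B : ℤ) (G : FX I → ℝ), k ≤ j → -B ≤ j → j + 1 ≤ B →
  SX k j (B + 1) B G = SE k j B G + SX k j (B + 1) B (fun γ => if γ none = 0 then 0 else G γ) ∧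
  SX k j (-B) B G = SE k (j + 1) B G + SX k j (-B) B (fun γ => if γ none = 0 then 0 else G γ)

end

end Pool.Agent.ROT.X
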