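import Pool.Agent.ROT.XDefs2
import Pool.Agent.ROT.LPat

/-!
# UNIV, exact side: the separation event of the large loop (helper99)

`Sepd j D R δ` : in the ball of radius `R` the loop surrounds two objects at column distance `≥ D` and does not surround a
third one, read on lines `≠ j + 1` (constant on the classes of the strip `j`).  `MassS` replaces `MassG` (helper39).
-/

set_option autoImplicit false

namespace Pool.Agent.ROT.X

open Pool.Agent.ROT.E (Cell IsUn Pt)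
open Pool.Agent.ROT.L

noncomputable section

/-- the loop separates objects of the ball -/
def Sepd (j D R : ℤ) (δ : VX →₀ Cell) : Prop := ∃ p1 y1 p2 y2 p3 y3 : ℤ,
  (|p1| ≤ R ∧ |y1| ≤ R ∧ |p2| ≤ R ∧ |y2| ≤ R ∧ |p3| ≤ R ∧ |y3| ≤ R) ∧ (p1 ≠ j + 1 ∧ p2 ≠ j + 1 ∧ p3 ≠ j + 1) ∧
    p1 + D ≤ p2 ∧ sgx δ p1 y1 = 1 ∧ sgx δ p2 y2 = 1 ∧ sgx δ p3 y3 = 0

open Classical in
/-- **X7, mass** -/
def MassS : Prop := ∀ d R : ℝ, 0 < d → 0 < R → ∃ C : ℝ, ∃ N0 : ℤ, ∀ N k j r t B : ℤ, N0 ≤ N → k ≤ j → |r| ≤ B →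
  -B ≤ j → j + 1 ≤ B → (t = r ∨ t = r + 1) →
  A1 k j t B (fun δ => if Sepd j ⌊d * N⌋ ⌊R * N⌋ δ then 1 else 0) ≤ C

end

end Pool.Agent.ROT.X
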