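import Pool.Agent.ROT.XDefs2
import Pool.Agent.ROT.XProd

/-!
# UNIV, exact side, row X6 (helper25): `Prod6`

`fam1e : (VX →₀ Cell) ≃ FX Unit`; `fam1_lp`, `fam1_bx`, `W1X_eq`; **`A1_eq`** : the sum over one loop = the sum over the families
with one label; `co_fam1`, `fam1_co`; **`prod6`**.
-/

set_option autoImplicit false

namespace Pool.Agent.ROT.X

open Pool.Agent.EXL (Wt YB)
open Pool.Agent.YBC (Dir)
open Pool.Agent.UNI (wR)
open Pool.Agent.ROT.E (Cell IsUn Pt)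
open Pool.Agent.ROT.L

noncomputable section

variable {I : Type}

theorem fam1_apply (δ : VX →₀ Cell) (v : VX) (a : Unit) : fam1 δ v a = δ v := rfl

theorem co_fam1 (δ : VX →₀ Cell) : co (fam1 δ) () = δ := by
  ext1 v
  rfl

theorem fam1_co (γ : FX Unit) : fam1 (co γ ()) = γ := by
  ext1 v
  rfl

theorem mb_eq (γ : FX I) (l : I) : mb γ l = fam1 (co γ l) := by
  ext1 v
  rfl

/-- one loop = a family with one label -/
def fam1e : (VX →₀ Cell) ≃ FX Unit := ⟨fam1, fun γ => co γ (), co_fam1, fam1_co⟩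

theorem fam1_lp {G : Gr VX} {δ : VX →₀ Cell} : Fam G (fam1 δ) ↔ Lp G δ := by
  rw [fam_one, co_fam1]

theorem fam1_ne {δ : VX →₀ Cell} {v : VX} : fam1 δ v ≠ 0 ↔ δ v ≠ .o := by
  constructor
  · intro h h1
    exact h (funext fun _ => h1)
  · intro h h1
    exact h (congrFun h1 ())

theorem fam1_bx {B : ℤ} {δ : VX →₀ Cell} : Bx B (fam1 δ) ↔ Bx1 B δ :=
  forall_congr' fun _ => forall_congr' fun _ => imp_congr_left fam1_ne

theorem fam1_supp (δ : VX →₀ Cell) : (fam1 δ).support = δ.support := by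
  ext v
  rw [Finsupp.mem_support_iff, Finsupp.mem_support_iff, fam1_ne]
  exact Iff.rfl

theorem W1X_eq (W : VX → Wt ℝ) (δ : VX →₀ Cell) : WX W (fam1 δ) = W1X W δ := by
  rw [WX_one, fam1_supp]
  rfl

open Classical in
/-- **the sum over one loop = the sum over the families with one label** -/
theorem A1_eq (k j s B : ℤ) (g : (VX →₀ Cell) → ℝ) : A1 k j s B g = AX k j s B (fun γ : FX Unit => g (co γ ())) := by
  unfold A1 AX
  rw [← fam1e.tsum_eq]
  refine tsum_congr fun δ => ?_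
  show _ = if Fam (gX j s) (fam1 δ) ∧ Bx B (fam1 δ) then |WX (WE k j s) (fam1 δ)| * g (co (fam1 δ) ()) else 0
  rw [co_fam1, W1X_eq]
  exact if_congr (and_congr fam1_lp.symm fam1_bx.symm) rfl rfl

/-- **X6, product** -/
theorem prod6 (I : Type) [Fintype I] : Prod6 I := by
  refine ⟨2, by norm_num, fun k j s B g _ hg => ?_⟩
  have h := AX_prod (I := I) (k := k) (j := j) (s := s) (B := B) (A := fun l δ => g l (co δ ())) fun l δ => hg l _
  simp only [co_mb] at h
  simp only [A1_eq]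
  exact h

/-! ### finiteness -/

theorem fin_Bx1 (B : ℤ) : {δ : VX →₀ Cell | Bx1 B δ}.Finite := by
  refine Set.Finite.of_finite_image (f := fam1) ((fin_Bx (I := Unit) B).subset ?_) fam1e.injective.injOn
  rintro _ ⟨δ, hδ, rfl⟩
  exact fam1_bx.2 hδ

open Classical in
/-- `A1` is a finite sum -/
theorem A1_sum {k j s B : ℤ} {g : (VX →₀ Cell) → ℝ} : A1 k j s B g =
    ∑ δ ∈ (fin_Bx1 B).toFinset, if Lp (gX j s) δ ∧ Bx1 B δ then |W1X (WE k j s) δ| * g δ else 0 :=
  tsum_eq_sum fun _ hγ => if_neg fun h => hγ ((Set.Finite.mem_toFinset _).2 h.2)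

theorem A1_mono {k j s B : ℤ} {g g' : (VX →₀ Cell) → ℝ} (h : ∀ δ, g δ ≤ g' δ) : A1 k j s B g ≤ A1 k j s B g' := by
  rw [A1_sum, A1_sum]
  refine Finset.sum_le_sum fun δ _ => ?_
  split_ifs
  · exact mul_le_mul_of_nonneg_left (h δ) (abs_nonneg _)
  · exact le_rfl

theorem A1_nonneg {k j s B : ℤ} {g : (VX →₀ Cell) → ℝ} (h : ∀ δ, 0 ≤ g δ) : 0 ≤ A1 k j s B g := by
  rw [A1_sum]
  refine Finset.sum_nonneg fun δ _ => ?_
  split_ifs
  · exact mul_nonneg (abs_nonneg _) (h δ)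
  · exact le_rfl

theorem A1_add {k j s B : ℤ} (g g' : (VX →₀ Cell) → ℝ) : A1 k j s B (fun δ => g δ + g' δ) = A1 k j s B g + A1 k j s B g' := by
  rw [A1_sum, A1_sum, A1_sum, ← Finset.sum_add_distrib]
  refine Finset.sum_congr rfl fun δ _ => ?_
  split_ifs
  · ring
  · ring

end

end Pool.Agent.ROT.X
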