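import Pool.Agent.ROT.XEnds
import Pool.Agent.ROT.XProd6

/-!
# UNIV, exact side, row X7, first part (helper60): the ends

A loop of the box which uses the crossing above the row `B` (below the row `-B`) is a loop of the square lattice `E_j`
(`E_(j+1)`) with a minimal cap in the row `B + 1` (a minimal cup in the row `-B - 1`), with a fixed ratio of the weights.

* `cap_cls` : exchange of the three cells of the region; `cap_wt` : the weight of the exchanged family;
* `toL γ` : the loop of the square lattice of a family with one member; `MU_toL` : its weight;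
* `cap_T`, `cap_B` : the loop with the cap, with the cup; `A1_muU` : a sum over loops of the box and the measure of their images;
  **`endG : EndG`**.
-/

set_option autoImplicit false

namespace Pool.Agent.ROT.X

open MeasureTheory
open Pool.Agent.EXL (Wt)
open Pool.Agent.YBC (Dir)
open Pool.Agent.UNI (wR wR_nn wR_u1_pos wR_u2_pos)
open Pool.Agent.ROT.E (Cell IsUn Pt Cfg)
open Pool.Agent.ROT.E.Lab (un_unique)
open Pool.Agent.ROT.L
open Pool.Agent.ROT.I (Lps)
open scoped ENNReal

noncomputable section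

variable {j r : ℤ}

/-! ### exchange of the three cells -/

/-- **exchange of the three cells of the region** -/
theorem cap_cls {t t' : Fin 3} {γ : FX Unit} (f : Fam (Gt j r t) γ) (g : Gd (Rg j r) γ) {a b c : Cell}
    (h : conn t' ![a, b, c] = conn t ![γ none (), γ (some (j, r)) (), γ (some (j + 1, r)) ()]) :
    ∃ γ' : FX Unit, Eq6 (Rg j r) (Gt j r t) (Gt j r t') γ γ' ∧ γ' none () = a ∧ γ' (some (j, r)) () = b ∧
      γ' (some (j + 1, r)) () = c := by
  obtain ⟨q, hq⟩ := cls f g
  have hc : conn t ![γ none (), γ (some (j, r)) (), γ (some (j + 1, r)) ()] = some q := by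
    obtain ⟨e, he⟩ := hq t
    have refl : Eq6 (Rg j r) (Gt j r t) (Gt j r t) γ γ := ⟨f, f, g, fun _ _ => rfl, fun _ _ _ _ _ => Iff.rfl⟩
    obtain ⟨h0, h1, h2⟩ := he ⟨γ, refl⟩
    rw [un_unique un_one h0, un_unique un_one h1, un_unique un_one h2]
    exact (e ⟨γ, refl⟩).2
  obtain ⟨e, he⟩ := hq t'
  obtain ⟨x, hx⟩ : ∃ x, x = e.symm ⟨(a, b, c), h.trans hc⟩ := ⟨_, rfl⟩
  have h3 : (e x).1 = (a, b, c) := by rw [hx, Equiv.apply_symm_apply]
  obtain ⟨h0, h1, h2⟩ := he x
  rw [h3] at h0 h1 h2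
  exact ⟨x.1, x.2, un_unique un_one h0, un_unique un_one h1, un_unique un_one h2⟩

/-- the weight of the class -/
theorem cap_wt {W : VX → Wt ℝ} {γ γ' : FX Unit} (out : ∀ v, v ∉ Rg j r → γ v = γ' v) {a b c : Cell} (h0 : γ' none () = a)
    (h1 : γ' (some (j, r)) () = b) (h2 : γ' (some (j + 1, r)) () = c) :
    WX W γ' = OX W j r γ * (a.wt (W none) * (b.wt (W (some (j, r))) * c.wt (W (some (j + 1, r))))) :=
  WX_cls (c := (a, b, c)) out (by rw [← h0]; exact un_one) (by rw [← h1]; exact un_one) (by rw [← h2]; exact un_one)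

/-! ### loops of the square lattice -/

/-- the loop -/
def toL (γ : FX Unit) : Cfg := E.co (dn γ) ()

theorem toL_app (γ : FX Unit) (v : Pt) : toL γ v = γ (some v) () := by
  show dn γ v () = _
  rw [dn_apply]

theorem toL_lp {γ : FX Unit} (f : Fam g0 γ) (h0 : γ none = 0) : E.Lp (toL γ) := by
  rw [← emb_dn h0, emb_fam] at f
  exact f.lp ()

theorem MU_toL {k : ℤ} {γ : FX Unit} (h0 : γ none = 0) : U.MU (latj k j) (toL γ) = WX (W0E k j) γ := by
  classical
  have e : γ.support = (toL γ).support.map Function.Embedding.some := by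
    ext v
    rw [Finset.mem_map]
    constructor
    · intro hv
      rw [Finsupp.mem_support_iff] at hv
      rcases v with _ | v
      · exact absurd h0 hv
      · refine ⟨v, ?_, rfl⟩
        rw [Finsupp.mem_support_iff, toL_app]
        intro h
        apply hv
        funext a
        exact h
    · rintro ⟨w, hw, rfl⟩
      rw [Finsupp.mem_support_iff, toL_app] at hw
      rw [Finsupp.mem_support_iff]
      intro h
      exact hw (congrFun h ())
  rw [WX_one, e, Finset.prod_map]
  refine Finset.prod_congr rfl fun v _ => ?_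
  simp only
  rw [toL_app]
  rfl

private theorem MU_nn (k j : ℤ) (γ : Cfg) : 0 ≤ U.MU (latj k j) γ := by
  refine Finset.prod_nonneg fun v _ => ?_
  have hp := Real.pi_pos
  have h : (wR (latj k j v.1)).Nn := by
    unfold latj
    split_ifs
    · exact wR_nn (by unfold bA; linarith) (by unfold bA; linarith)
    · exact wR_nn (by unfold hA; linarith) (by unfold hA; linarith)
  simp only
  cases γ v <;> simp only [Cell.wt] <;>
    first | exact zero_le_one | exact h.v | exact h.u1 | exact h.u2 | exact h.w1 | exact h.w2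

/-! ### the ratio of the weights -/

/-- the ratio of the weights -/
def rE : ℝ := (wR dA).u2 / ((wR bA).u2 * (wR hA).u1)

private theorem pos3 : 0 < (wR dA).u2 ∧ 0 < (wR bA).u2 ∧ 0 < (wR hA).u1 := by
  have hp := Real.pi_pos
  exact ⟨wR_u2_pos (by unfold dA; linarith) (by unfold dA; linarith), wR_u2_pos (by unfold bA; linarith) (by unfold bA; linarith),
    wR_u1_pos (by unfold hA; linarith) (by unfold hA; linarith)⟩

theorem rE_pos : 0 < rE := div_pos pos3.1 (mul_pos pos3.2.1 pos3.2.2)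

variable {k B : ℤ} {δ : VX →₀ Cell}

private theorem ratio {k' j' s : ℤ} {γ : FX Unit} {O : ℝ} (h0 : γ none = 0)
    (h1 : WX (WE k j s) (fam1 δ) = O * (wR dA).u2) (h2 : WX (W0E k' j') γ = O * ((wR bA).u2 * (wR hA).u1)) :
    |W1X (WE k j s) δ| = rE * U.MU (latj k' j') (toL γ) := by
  obtain ⟨pd, pb, ph⟩ := pos3
  have pos := mul_pos pb ph
  have hO : 0 ≤ O := by
    have h3 := MU_nn k' j' (toL γ)
    rw [MU_toL h0, h2] at h3
    exact nonneg_of_mul_nonneg_left h3 pos
  rw [MU_toL h0, h2, ← W1X_eq, h1, abs_of_nonneg (mul_nonneg hO pd.le), rE]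
  rw [div_mul_eq_mul_div, eq_div_iff pos.ne']
  ring

/-- **the loop with the cap** -/
theorem cap_T (hk : k ≤ j) (hl : Lp (gX j (B + 1)) δ) (hb : Bx1 B δ) (h0 : δ none ≠ .o) :
    δ none = .se ∧ ∃ γ : Lps, (∀ v : Pt, v.2 ≤ B → γ.1 v = δ (some v)) ∧ γ.1 (j, B + 1) = .se ∧
      |W1X (WE k j (B + 1)) δ| = rE * U.MU (latj k j) γ.1 := by
  have f : Fam (Gt j (B + 1) 2) (fam1 δ) := fam1_lp.2 hl
  have hb' := fam1_bx.2 hb
  have hse : δ none = .se := by
    rcases cell_T (i := ()) f hb' with h | h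
    · exact absurd h h0
    · exact h
  have z : ∀ c : ℤ, δ (some (c, B + 1)) = .o := fun c => congrFun (bx_T hb' c) ()
  have g : Gd (Rg j (B + 1)) (fam1 δ) := by
    intro i
    refine ⟨some (j, B), ?_, ?_⟩
    · simp only [Rg, Set.mem_insert_iff, Set.mem_singleton_iff, reduceCtorEq, Option.some.injEq, Prod.mk.injEq, false_or,
        not_or]
      omega
    · have h1 : oc (co (fam1 δ) i) ((Gt j (B + 1) 2).e (none, .S)) := ((f.lp i).mt (none, .S) trivial trivial).1 (by
        show (δ none).p .S ≠ .S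
        rw [hse]
        decide)
      have h2 : (Gt j (B + 1) 2).e (none, .S) = (some (j, B + 1 - 1), .N) := rfl
      rw [h2, add_sub_cancel_right] at h1
      exact oc_co h1
  obtain ⟨γ', e6, a0, a1, a2⟩ := cap_cls (t := 2) (t' := 1) f g (a := .o) (b := .se) (c := .sw) (by
    rw [fam1_apply, fam1_apply, fam1_apply, hse, z, z]
    decide +kernel)
  have a0' : γ' none = 0 := by
    funext x
    exact a0
  have f0 : Fam g0 γ' := famX_g0 (j := j) (s := B + 1 + 1) e6.fam' a0'
  refine ⟨hse, ⟨toL γ', toL_lp f0 a0'⟩, fun v hv => ?_, ?_, ?_⟩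
  · show toL γ' v = _
    rw [toL_app, ← e6.out (some v) (by
      simp only [Rg, Set.mem_insert_iff, Set.mem_singleton_iff, reduceCtorEq, Option.some.injEq, false_or, not_or]
      constructor <;> (rintro rfl; simp only at hv; omega))]
    rfl
  · show toL γ' (j, B + 1) = _
    rw [toL_app, a1]
  · have hO : OX (W0E k j) j (B + 1) (fam1 δ) = OX (WE k j (B + 1)) j (B + 1) (fam1 δ) := by
      refine Finset.prod_congr rfl fun v hv => ?_
      obtain ⟨hv1, hv2⟩ := mem_So'.1 hv
      rcases v with _ | v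
      · exact absurd (Or.inl rfl) hv1
      · have h3 : v.2 < B + 1 := by
          have := (abs_le.1 (hb' v.1 v.2 hv2).2).2
          omega
        have e : W0E k j (some v) = WE k j (B + 1) (some v) := by
          show wR (latj k j v.1) = (if v.1 = j then (if v.2 < B + 1 then wR bA else wR hA) else
            if v.1 = j + 1 then (if v.2 < B + 1 then wR hA else wR bA) else wR (latj k j v.1))
          rw [if_pos h3, if_pos h3]
          unfold latj
          split_ifs with h1 h2 h3 h4 h5 <;> first | rfl | (exfalso; omega)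
        rw [e]
    refine ratio a0' (O := OX (WE k j (B + 1)) j (B + 1) (fam1 δ)) ?_ ?_
    · rw [cap_wt (γ := fam1 δ) (γ' := fam1 δ) (fun _ _ => rfl) (a := .se) (b := .o) (c := .o) hse (z j) (z (j + 1))]
      show _ * ((wR dA).u2 * (1 * 1)) = _
      rw [mul_one, mul_one]
    · rw [cap_wt e6.out a0 a1 a2, hO]
      have e1 : W0E k j (some (j, B + 1)) = wR bA := by
        show wR (latj k j j) = _
        rw [latj, if_pos (Or.inr rfl)]
      have e2 : W0E k j (some (j + 1, B + 1)) = wR hA := by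
        show wR (latj k j (j + 1)) = _
        rw [latj, if_neg (by omega)]
      rw [e1, e2]
      show _ * (1 * ((wR bA).u2 * (wR hA).u1)) = _
      rw [one_mul]

/-- **the loop with the cup** -/
theorem cap_B (hk : k ≤ j) (hl : Lp (gX j (-B)) δ) (hb : Bx1 B δ) (h0 : δ none ≠ .o) :
    δ none = .nw ∧ ∃ γ : Lps, (∀ v : Pt, -B ≤ v.2 → γ.1 v = δ (some v)) ∧ γ.1 (j, -B - 1) = .ne ∧
      |W1X (WE k j (-B)) δ| = rE * U.MU (latj k (j + 1)) γ.1 := by
  have f : Fam (Gt j (-B - 1) 1) (fam1 δ) := by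
    show Fam (gX j (-B - 1 + 1)) (fam1 δ)
    rw [sub_add_cancel]
    exact fam1_lp.2 hl
  have hb' := fam1_bx.2 hb
  have hse : δ none = .nw := by
    rcases cell_B (i := ()) (fam1_lp.2 hl) hb' with h | h
    · exact absurd h h0
    · exact h
  have z : ∀ c : ℤ, δ (some (c, -B - 1)) = .o := fun c => congrFun (bx_B hb' c) ()
  have g : Gd (Rg j (-B - 1)) (fam1 δ) := by
    intro i
    refine ⟨some (j, -B), ?_, ?_⟩
    · simp only [Rg, Set.mem_insert_iff, Set.mem_singleton_iff, reduceCtorEq, Option.some.injEq, Prod.mk.injEq, false_or,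
        not_or]
      omega
    · have h1 : oc (co (fam1 δ) i) ((Gt j (-B - 1) 1).e (none, .W)) := ((f.lp i).mt (none, .W) trivial trivial).1 (by
        show (δ none).p .W ≠ .W
        rw [hse]
        decide)
      have h2 : (Gt j (-B - 1) 1).e (none, .W) = (some (j, -B - 1 + 1), .S) := rfl
      rw [h2, sub_add_cancel] at h1
      exact oc_co h1
  obtain ⟨γ', e6, a0, a1, a2⟩ := cap_cls (t := 1) (t' := 2) f g (a := .o) (b := .ne) (c := .nw) (by
    rw [fam1_apply, fam1_apply, fam1_apply, hse, z, z]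
    decide +kernel)
  have a0' : γ' none = 0 := by
    funext x
    exact a0
  have f0 : Fam g0 γ' := famX_g0 (j := j) (s := -B - 1) e6.fam' a0'
  refine ⟨hse, ⟨toL γ', toL_lp f0 a0'⟩, fun v hv => ?_, ?_, ?_⟩
  · show toL γ' v = _
    rw [toL_app, ← e6.out (some v) (by
      simp only [Rg, Set.mem_insert_iff, Set.mem_singleton_iff, reduceCtorEq, Option.some.injEq, false_or, not_or]
      constructor <;> (rintro rfl; simp only at hv; omega))]
    rfl
  · show toL γ' (j, -B - 1) = _
    rw [toL_app, a1]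
  · have hO : OX (W0E k (j + 1)) j (-B - 1) (fam1 δ) = OX (WE k j (-B)) j (-B - 1) (fam1 δ) := by
      refine Finset.prod_congr rfl fun v hv => ?_
      obtain ⟨hv1, hv2⟩ := mem_So'.1 hv
      rcases v with _ | v
      · exact absurd (Or.inl rfl) hv1
      · have h3 : ¬ v.2 < -B := by
          have := (abs_le.1 (hb' v.1 v.2 hv2).2).1
          omega
        have e : W0E k (j + 1) (some v) = WE k j (-B) (some v) := by
          show wR (latj k (j + 1) v.1) = (if v.1 = j then (if v.2 < -B then wR bA else wR hA) else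
            if v.1 = j + 1 then (if v.2 < -B then wR hA else wR bA) else wR (latj k j v.1))
          rw [if_neg h3, if_neg h3]
          unfold latj
          split_ifs with h1 h2 h3 h4 h5 <;> first | rfl | (exfalso; omega)
        rw [e]
    refine ratio a0' (O := OX (WE k j (-B)) j (-B - 1) (fam1 δ)) ?_ ?_
    · rw [cap_wt (γ := fam1 δ) (γ' := fam1 δ) (fun _ _ => rfl) (a := .nw) (b := .o) (c := .o) hse (z j) (z (j + 1))]
      show _ * ((wR dA).u2 * (1 * 1)) = _
      rw [mul_one, mul_one]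
    · rw [cap_wt e6.out a0 a1 a2, hO]
      have e1 : W0E k (j + 1) (some (j, -B - 1)) = wR hA := by
        show wR (latj k (j + 1) j) = _
        rw [latj, if_neg (by omega)]
      have e2 : W0E k (j + 1) (some (j + 1, -B - 1)) = wR bA := by
        show wR (latj k (j + 1) (j + 1)) = _
        rw [latj, if_pos (Or.inr rfl)]
      rw [e1, e2]
      show _ * (1 * ((wR hA).u1 * (wR bA).u2)) = _
      rw [one_mul, mul_comm (wR hA).u1]

/-! ### the sum -/

private theorem muU_ap (u : ℤ → ℝ) (A : Set Lps) :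
    U.muU u A = ∑' γ : Lps, A.indicator (fun γ : Lps => ENNReal.ofReal (U.MU u γ.1)) γ := by
  unfold U.muU
  rw [Measure.sum_apply _ (MeasurableSpace.measurableSet_top)]
  refine tsum_congr fun γ => ?_
  rw [Measure.smul_apply, Measure.dirac_apply' _ (MeasurableSpace.measurableSet_top), smul_eq_mul]
  by_cases h : γ ∈ A
  · rw [Set.indicator_of_mem h, Set.indicator_of_mem h, Pi.one_apply, mul_one]
  · rw [Set.indicator_of_notMem h, Set.indicator_of_notMem h, mul_zero]

/-- **a sum over loops of the box and the measure of their images** -/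
theorem A1_muU {s : ℤ} {u : ℤ → ℝ} {S : Set Lps} {Q : (VX →₀ Cell) → Prop} [DecidablePred Q]
    {R : (VX →₀ Cell) → Lps → Prop} {C : ℝ}
    (h : ∀ δ, Lp (gX j s) δ → Bx1 B δ → Q δ → ∃ γ : Lps, R δ γ ∧ γ ∈ S ∧ |W1X (WE k j s) δ| = C * U.MU u γ.1)
    (hC : 0 ≤ C) (inj : ∀ δ δ' γ, Bx1 B δ → Bx1 B δ' → R δ γ → R δ' γ → δ = δ') :
    ENNReal.ofReal (A1 k j s B fun δ => if Q δ then 1 else 0) ≤ ENNReal.ofReal C * U.muU u S := by
  classical
  set T := (fin_Bx1 B).toFinset.filter fun δ => Lp (gX j s) δ ∧ Q δ with hT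
  have mem : ∀ δ ∈ T, Lp (gX j s) δ ∧ Bx1 B δ ∧ Q δ := by
    intro δ hδ
    rw [hT, Finset.mem_filter, Set.Finite.mem_toFinset] at hδ
    exact ⟨hδ.2.1, hδ.1, hδ.2.2⟩
  have e : A1 k j s B (fun δ => if Q δ then 1 else 0) = ∑ δ ∈ T, |W1X (WE k j s) δ| := by
    rw [A1_sum, hT, Finset.sum_filter]
    refine Finset.sum_congr rfl fun δ hδ => ?_
    rw [Set.Finite.mem_toFinset] at hδ
    by_cases h1 : Lp (gX j s) δ
    · by_cases h2 : Q δ
      · rw [if_pos ⟨h1, hδ⟩, if_pos h2, if_pos ⟨h1, h2⟩, mul_one]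
      · rw [if_neg h2, mul_zero, ite_self, if_neg fun h => h2 h.2]
    · rw [if_neg fun h => h1 h.1, if_neg fun h => h1 h.1]
  rw [e, ENNReal.ofReal_sum_of_nonneg fun _ _ => abs_nonneg _, ← Finset.sum_attach]
  choose γ hR hS hw using fun δ : {x // x ∈ T} => h δ.1 (mem δ.1 δ.2).1 (mem δ.1 δ.2).2.1 (mem δ.1 δ.2).2.2
  have ij : Function.Injective γ := by
    intro a b hab
    exact Subtype.ext (inj a.1 b.1 (γ a) (mem a.1 a.2).2.1 (mem b.1 b.2).2.1 (hR a) (by rw [hab]; exact hR b))
  calc ∑ δ ∈ T.attach, ENNReal.ofReal |W1X (WE k j s) δ.1|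
      = ∑ δ ∈ T.attach, ENNReal.ofReal C * S.indicator (fun γ : Lps => ENNReal.ofReal (U.MU u γ.1)) (γ δ) := by
        refine Finset.sum_congr rfl fun δ _ => ?_
        rw [hw δ, ENNReal.ofReal_mul hC, Set.indicator_of_mem (hS δ)]
    _ = ENNReal.ofReal C * ∑ x ∈ T.attach.image γ, S.indicator (fun γ : Lps => ENNReal.ofReal (U.MU u γ.1)) x := by
        rw [← Finset.mul_sum, Finset.sum_image fun a _ b _ hab => ij hab]
    _ ≤ ENNReal.ofReal C * U.muU u S := by
        rw [muU_ap]
        gcongr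
        exact ENNReal.sum_le_tsum _

/-- **X7, ends** -/
theorem endG : EndG := by
  classical
  refine ⟨ENNReal.ofReal rE, ENNReal.ofReal_ne_top, fun k j B n hk _ _ _ => ⟨?_, ?_⟩⟩
  · refine A1_muU (Q := fun δ => δ none ≠ .o ∧ Ext1 n δ)
      (R := fun δ γ => δ none = .se ∧ ∀ v : Pt, v.2 ≤ B → γ.1 v = δ (some v)) (fun δ hl hb hq => ?_) rE_pos.le
      fun δ δ' γ hb hb' h h' => ?_
    · obtain ⟨h1, γ, h2, h3, h4⟩ := cap_T hk hl hb hq.1
      refine ⟨γ, ⟨h1, h2⟩, ⟨⟨(j, B + 1), ?_, ?_, ?_⟩, ?_⟩, h4⟩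
      · rw [h3]
        decide
      · simp
      · simp
      · obtain ⟨p, q, hp, hq', hn⟩ := hq.2
        refine ⟨p, q, ?_, ?_, ?_⟩
        · rw [h2 p ((abs_le.1 (hb p.1 p.2 hp).2).2)]
          exact hp
        · rw [h2 q ((abs_le.1 (hb q.1 q.2 hq').2).2)]
          exact hq'
        · omega
    · ext1 v
      rcases v with _ | v
      · rw [h.1, h'.1]
      · by_cases hv : v.2 ≤ B
        · rw [← h.2 v hv, ← h'.2 v hv]
        · have z : ∀ δ : VX →₀ Cell, Bx1 B δ → δ (some v) = .o := by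
            intro δ hb
            by_contra hc
            exact hv (abs_le.1 (hb v.1 v.2 hc).2).2
          rw [z δ hb, z δ' hb']
  · refine A1_muU (Q := fun δ => δ none ≠ .o ∧ Ext1 n δ)
      (R := fun δ γ => δ none = .nw ∧ ∀ v : Pt, -B ≤ v.2 → γ.1 v = δ (some v)) (fun δ hl hb hq => ?_) rE_pos.le
      fun δ δ' γ hb hb' h h' => ?_
    · obtain ⟨h1, γ, h2, h3, h4⟩ := cap_B hk hl hb hq.1
      refine ⟨γ, ⟨h1, h2⟩, ⟨⟨(j, -B - 1), ?_, ?_, ?_⟩, ?_⟩, h4⟩
      · rw [h3]
        decide
      · simp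
      · simp
      · obtain ⟨p, q, hp, hq', hn⟩ := hq.2
        refine ⟨p, q, ?_, ?_, ?_⟩
        · rw [h2 p ((abs_le.1 (hb p.1 p.2 hp).2).1)]
          exact hp
        · rw [h2 q ((abs_le.1 (hb q.1 q.2 hq').2).1)]
          exact hq'
        · omega
    · ext1 v
      rcases v with _ | v
      · rw [h.1, h'.1]
      · by_cases hv : -B ≤ v.2
        · rw [← h.2 v hv, ← h'.2 v hv]
        · have z : ∀ δ : VX →₀ Cell, Bx1 B δ → δ (some v) = .o := by
            intro δ hb
            by_contra hc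
            exact hv (abs_le.1 (hb v.1 v.2 hc).2).1
          rw [z δ hb, z δ' hb']

end

end Pool.Agent.ROT.X
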