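import Pool.Agent.ROT.XDefs
import Pool.Agent.ROT.LApi

/-!
# UNIV, exact side, row X4 (helper60): the ends of the row telescope, the telescope of rows and strips

* `famX_g0` : a family whose members do not use the crossing is a family of the square lattice; `g0_famX_T`, `g0_famX_B` : the
  converse if the cells above (below) the crossing are free;
* `cell_T`, `cell_B` : with the crossing above (below) the box it is `se` (`nw`) or free;
* **`ends`** : the sum with the crossing above (below) the box = the sum of the lattice `E_j` (`E_(j+1)`) + the families which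
  use the crossing;
* `gA_T` : the functional does not depend on the row of the crossing above the family, **`gA_fit`** : with the crossing below the
  family of the strip `j` it is the functional of the strip `j + 1` with the crossing above;
* **`tel_rows`**, **`tel`** : the telescope of the rows of a strip, of the strips `k, …, j1 - 1`.
-/

set_option autoImplicit false

namespace Pool.Agent.ROT.X

open Pool.Agent.EXL (Wt)
open Pool.Agent.YBC (Dir)
open Pool.Agent.UNI (wR)
open Pool.Agent.ROT.E (Cell IsUn Pt nx)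
open Pool.Agent.ROT.L

noncomputable section

variable {V I : Type}

/-! ### only the used half edges count -/

private theorem lp_of_eq {G G' : Gr V} {δ : V →₀ Cell} (h : ∀ x, oc δ x → G'.e x = G.e x) (hl : Lp G δ) : Lp G' δ := by
  refine ⟨fun x _ _ => ⟨fun hx => ?_, fun hx => ?_⟩, hl.ne, fun x y hx hy => ?_⟩
  · rw [h x hx]
    exact (hl.mt x trivial trivial).1 hx
  · have h1 := h _ hx
    rw [G'.inv] at h1
    have h2 := (hl.mt (G'.e x) trivial trivial).1 hx
    rw [← h1] at h2
    exact h2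
  · refine (hl.cn x y hx hy).mono fun a b hab => ?_
    obtain ⟨h1, h2, h3⟩ := hab
    refine ⟨h1, h2, ?_⟩
    rw [h a h1]
    exact h3

private theorem fam_of_eq {G G' : Gr V} {γ : V →₀ (I → Cell)} (h : ∀ i x, oc (co γ i) x → G'.e x = G.e x)
    (f : Fam G γ) : Fam G' γ :=
  ⟨fun i => lp_of_eq (h i) (f.lp i), f.dj⟩

/-! ### families which do not use the crossing -/

variable {j s : ℤ} {γ : FX I}

theorem noc_none (h0 : γ none = 0) (i : I) (d : Dir) : ¬ oc (co γ i) (none, d) := by
  intro h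
  apply h
  show (γ none i).p d = d
  rw [h0]
  cases d <;> rfl

theorem noc_some {v : Pt} (h0 : γ (some v) = 0) (i : I) (d : Dir) : ¬ oc (co γ i) (some v, d) := by
  intro h
  apply h
  show (γ (some v) i).p d = d
  rw [h0]
  cases d <;> rfl

/-- the four edges at the crossing are not used -/
def Fr (j s : ℤ) (γ : FX I) : Prop := ∀ i, ¬ oc (co γ i) (some (j, s - 1), .N) ∧ ¬ oc (co γ i) (some (j + 1, s - 1), .N) ∧
  ¬ oc (co γ i) (some (j, s), .S) ∧ ¬ oc (co γ i) (some (j + 1, s), .S)

theorem e_eq (h0 : γ none = 0) (hf : Fr j s γ) (i : I) (x : VX × Dir) (hx : oc (co γ i) x) : (gX j s).e x = g0.e x := by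
  obtain ⟨f1, f2, f3, f4⟩ := hf i
  obtain ⟨_ | v, d⟩ := x
  · exact absurd hx (noc_none h0 i d)
  · cases d
    · rfl
    · show (if v = (j, s - 1) then _ else if v = (j + 1, s - 1) then _ else _) = _
      rw [if_neg, if_neg]
      · rfl
      · rintro rfl
        exact f2 hx
      · rintro rfl
        exact f1 hx
    · rfl
    · show (if v = (j, s) then _ else if v = (j + 1, s) then _ else _) = _
      rw [if_neg, if_neg]
      · rfl
      · rintro rfl
        exact f4 hx
      · rintro rfl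
        exact f3 hx

theorem fr_of_gX (h : Fam (gX j s) γ) (h0 : γ none = 0) : Fr j s γ := by
  intro i
  have key : ∀ d, ¬ oc (co γ i) ((gX j s).e (none, d)) := fun d hd =>
    noc_none h0 i d (((h.lp i).mt (none, d) trivial trivial).2 hd)
  exact ⟨key .S, key .E, key .W, key .N⟩

/-- **a family which does not use the crossing is a family of the square lattice** -/
theorem famX_g0 (h : Fam (gX j s) γ) (h0 : γ none = 0) : Fam g0 γ :=
  fam_of_eq (fun i x hx => (e_eq h0 (fr_of_gX h h0) i x hx).symm) h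

theorem g0_famX (h : Fam g0 γ) (h0 : γ none = 0) (hf : Fr j s γ) : Fam (gX j s) γ :=
  fam_of_eq (fun i x hx => e_eq h0 hf i x hx) h

/-- the cells above the crossing are free -/
theorem g0_famX_T (h : Fam g0 γ) (h0 : γ none = 0) (h1 : γ (some (j, s)) = 0) (h2 : γ (some (j + 1, s)) = 0) :
    Fam (gX j s) γ := by
  refine g0_famX h h0 fun i => ?_
  have e1 : g0.e (some (j, s - 1), .N) = (some (j, s), .S) := by
    show (some (j, s - 1 + 1), Dir.S) = _
    rw [sub_add_cancel]
  have e2 : g0.e (some (j + 1, s - 1), .N) = (some (j + 1, s), .S) := by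
    show (some (j + 1, s - 1 + 1), Dir.S) = _
    rw [sub_add_cancel]
  refine ⟨fun hx => noc_some h1 i .S ?_, fun hx => noc_some h2 i .S ?_, noc_some h1 i .S, noc_some h2 i .S⟩
  · rw [← e1]
    exact ((h.lp i).mt _ trivial trivial).1 hx
  · rw [← e2]
    exact ((h.lp i).mt _ trivial trivial).1 hx

/-- the cells below the crossing are free -/
theorem g0_famX_B (h : Fam g0 γ) (h0 : γ none = 0) (h1 : γ (some (j, s - 1)) = 0) (h2 : γ (some (j + 1, s - 1)) = 0) :
    Fam (gX j s) γ := by
  refine g0_famX h h0 fun i => ?_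
  have e1 : g0.e (some (j, s), .S) = (some (j, s - 1), .N) := rfl
  have e2 : g0.e (some (j + 1, s), .S) = (some (j + 1, s - 1), .N) := rfl
  refine ⟨noc_some h1 i .N, noc_some h2 i .N, fun hx => noc_some h1 i .N ?_, fun hx => noc_some h2 i .N ?_⟩
  · rw [← e1]
    exact ((h.lp i).mt _ trivial trivial).1 hx
  · rw [← e2]
    exact ((h.lp i).mt _ trivial trivial).1 hx

/-! ### the box -/

variable {k B : ℤ}

theorem bx_T (hb : Bx B γ) (c : ℤ) : γ (some (c, B + 1)) = 0 := by
  by_contra hc
  have h1 := (abs_le.1 (hb _ _ hc).2).2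
  omega

theorem bx_B (hb : Bx B γ) (c : ℤ) : γ (some (c, -B - 1)) = 0 := by
  by_contra hc
  have h1 := (abs_le.1 (hb _ _ hc).2).1
  omega

/-- the crossing above the box is free or `se` -/
theorem cell_T (h : Fam (gX j (B + 1)) γ) (hb : Bx B γ) (i : I) : γ none i = .o ∨ γ none i = .se := by
  have w : ¬ oc (co γ i) (none, .W) := fun hx =>
    noc_some (bx_T hb j) i .S (((h.lp i).mt (none, .W) trivial trivial).1 hx)
  have n : ¬ oc (co γ i) (none, .N) := fun hx =>
    noc_some (bx_T hb (j + 1)) i .S (((h.lp i).mt (none, .N) trivial trivial).1 hx)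
  have key : ∀ c : Cell, ¬ c.oc .W → ¬ c.oc .N → c = .o ∨ c = .se := by decide
  exact key _ w n

/-- the crossing below the box is free or `nw` -/
theorem cell_B (h : Fam (gX j (-B)) γ) (hb : Bx B γ) (i : I) : γ none i = .o ∨ γ none i = .nw := by
  have w : ¬ oc (co γ i) (none, .S) := fun hx =>
    noc_some (bx_B hb j) i .N (((h.lp i).mt (none, .S) trivial trivial).1 hx)
  have n : ¬ oc (co γ i) (none, .E) := fun hx =>
    noc_some (bx_B hb (j + 1)) i .N (((h.lp i).mt (none, .E) trivial trivial).1 hx)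
  have key : ∀ c : Cell, ¬ c.oc .S → ¬ c.oc .E → c = .o ∨ c = .nw := by decide
  exact key _ w n

/-- finitely many families in the box -/
theorem bx_fin [Finite I] (B : ℤ) : {γ : FX I | Bx B γ}.Finite := by
  classical
  refine (fin_supp (I := I) (insert none ((Finset.Icc (-B) B ×ˢ Finset.Icc (-B) B).map Function.Embedding.some))).subset ?_
  intro γ hγ v hv
  rw [Finset.mem_insert]
  rcases v with _ | ⟨a, b⟩
  · exact Or.inl rfl
  · right
    obtain ⟨h1, h2⟩ := hγ a b (Finsupp.mem_support_iff.1 hv)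
    rw [abs_le] at h1 h2
    rw [Finset.mem_map]
    exact ⟨(a, b), by rw [Finset.mem_product, Finset.mem_Icc, Finset.mem_Icc]; exact ⟨h1, h2⟩, rfl⟩

/-! ### the weights -/

/-- all cells below the crossing -/
theorem WE_T (hk : k ≤ j) (h0 : γ none = 0) (hr : ∀ v : Pt, γ (some v) ≠ 0 → v.2 < s) :
    WX (WE k j s) γ = WX (W0E k j) γ := by
  refine WX_congr fun v hv => ?_
  rcases v with _ | v
  · exact absurd h0 hv
  · show (if v.1 = j then (if v.2 < s then wR bA else wR hA) else if v.1 = j + 1 then (if v.2 < s then wR hA else wR bA)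
      else wR (latj k j v.1)) = wR (latj k j v.1)
    rw [if_pos (hr v hv), if_pos (hr v hv)]
    unfold latj
    split_ifs with h1 h2 h3 h4 h5 <;> first | rfl | (exfalso; omega)

/-- all cells above the crossing -/
theorem WE_B (hk : k ≤ j) (h0 : γ none = 0) (hr : ∀ v : Pt, γ (some v) ≠ 0 → s ≤ v.2) :
    WX (WE k j s) γ = WX (W0E k (j + 1)) γ := by
  refine WX_congr fun v hv => ?_
  rcases v with _ | v
  · exact absurd h0 hv
  · show (if v.1 = j then (if v.2 < s then wR bA else wR hA) else if v.1 = j + 1 then (if v.2 < s then wR hA else wR bA)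
      else wR (latj k j v.1)) = wR (latj k (j + 1) v.1)
    rw [if_neg (not_lt.2 (hr v hv)), if_neg (not_lt.2 (hr v hv))]
    unfold latj
    split_ifs with h1 h2 h3 h4 h5 <;> first | rfl | (exfalso; omega)

/-! ### the ends -/

open Classical in
private theorem split {g : Gr VX} {W W' : VX → Wt ℝ} {G : FX I → ℝ} [Finite I] (h : ∀ γ : FX I, Bx B γ → γ none = 0 →
    (Fam g γ ↔ Fam g0 γ) ∧ WX W γ = WX W' γ) :
    ∑' γ : FX I, (if Fam g γ ∧ Bx B γ then WX W γ * G γ else 0) =
      (∑' γ : FX I, if Fam g0 γ ∧ γ none = 0 ∧ Bx B γ then WX W' γ * G γ else 0) +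
        ∑' γ : FX I, if Fam g γ ∧ Bx B γ then WX W γ * (if γ none = 0 then 0 else G γ) else 0 := by
  have fin : ∀ f : FX I → ℝ, (∀ γ, ¬ Bx B γ → f γ = 0) → Summable f := fun f hf =>
    summable_of_hasFiniteSupport ((bx_fin (I := I) B).subset fun γ hγ => by
      by_contra hc
      exact hγ (hf γ hc))
  rw [← Summable.tsum_add (fin _ fun γ hγ => if_neg fun h => hγ h.2.2) (fin _ fun γ hγ => if_neg fun h => hγ h.2)]
  refine tsum_congr fun γ => ?_
  by_cases hb : Bx B γ
  · by_cases h0 : γ none = 0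
    · obtain ⟨e1, e2⟩ := h γ hb h0
      rw [if_pos h0, mul_zero, ite_self, add_zero]
      by_cases hf : Fam g γ
      · rw [if_pos ⟨hf, hb⟩, if_pos ⟨e1.1 hf, h0, hb⟩, e2]
      · rw [if_neg fun h => hf h.1, if_neg fun h => hf (e1.2 h.1)]
    · rw [if_neg h0, if_neg (c := Fam g0 γ ∧ γ none = 0 ∧ Bx B γ) fun h => h0 h.2.1, zero_add]
  · rw [if_neg fun h => hb h.2, if_neg (c := Fam g0 γ ∧ γ none = 0 ∧ Bx B γ) fun h => hb h.2.2,
      if_neg fun h => hb h.2, add_zero]

/-- **the ends of a strip** -/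
theorem ends [Finite I] : Ends I := by
  intro k j B G hk _ _
  refine ⟨split fun γ hb h0 => ⟨⟨fun h => famX_g0 h h0, fun h => g0_famX_T h h0 (bx_T hb j) (bx_T hb (j + 1))⟩,
    WE_T hk h0 fun v hv => ?_⟩, split fun γ hb h0 => ⟨⟨fun h => famX_g0 h h0, fun h => g0_famX_B h h0 (bx_B hb j)
    (bx_B hb (j + 1))⟩, WE_B hk h0 fun v hv => ?_⟩⟩
  · have h1 := (abs_le.1 (hb v.1 v.2 hv).2).2
    omega
  · have h1 := (abs_le.1 (hb v.1 v.2 hv).2).1
    omega

/-! ### the functionals -/

private theorem lf_congr {θ θ' : VX → Cell → ℝ} {i : I} (h0 : γ none = 0)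
    (h : ∀ p : Pt, γ (some p) ≠ 0 → θ (some p) (γ (some p) i) = θ' (some p) (γ (some p) i)) : lf θ γ i = lf θ' γ i := by
  refine Finset.prod_congr rfl fun v hv => ?_
  rcases v with _ | p
  · exact absurd h0 (Finsupp.mem_support_iff.1 hv)
  · exact h p (Finsupp.mem_support_iff.1 hv)

private theorem gA_congr {J : Finset I} {f : Hf I} {j' s' : ℤ} (hR : ∀ i, cR j s γ i = cR j' s' γ i)
    (hL : ∀ i, cL j s γ i = cL j' s' γ i) (hT : ∀ i, cT j s γ i = cT j' s' γ i) (hB : ∀ i, cB j s γ i = cB j' s' γ i) :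
    gA J f j s γ = gA J f j' s' γ := by
  unfold gA cor
  simp only [hR, hL, hT, hB]

/-- **above the family the functional does not depend on the row of the crossing** -/
theorem gA_T {J : Finset I} {f : Hf I} {s' : ℤ} (h0 : γ none = 0) (h : ∀ v : Pt, γ (some v) ≠ 0 → v.2 < s)
    (h' : ∀ v : Pt, γ (some v) ≠ 0 → v.2 < s') : gA J f j s γ = gA J f j s' γ := by
  refine gA_congr (fun i => lf_congr h0 fun p hp => ?_) (fun i => lf_congr h0 fun p hp => ?_)
    (fun i => lf_congr h0 fun p hp => ?_) fun i => lf_congr h0 fun p hp => ?_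
  · have h1 := h p hp
    have h2 := h' p hp
    unfold thR
    simp only
    split_ifs <;> first | rfl | (exfalso; omega)
  · have h1 := h p hp
    have h2 := h' p hp
    unfold thL
    simp only
    split_ifs <;> first | rfl | (exfalso; omega)
  · have h1 := h p hp
    have h2 := h' p hp
    unfold thT qb
    simp only
    by_cases h3 : p.2 = ht γ i 3
    · rw [if_pos h3, if_pos h3, if_pos (by omega), if_pos (by omega)]
    · rw [if_neg h3, if_neg h3]
  · have h1 := h p hp
    have h2 := h' p hp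
    unfold thB qb
    simp only
    by_cases h3 : p.2 = ht γ i 2
    · rw [if_pos h3, if_pos h3, if_pos (by omega), if_pos (by omega)]
    · rw [if_neg h3, if_neg h3]

/-- **the functionals of two strips fit** -/
theorem gA_fit {J : Finset I} {f : Hf I} {s' : ℤ} (h0 : γ none = 0) (h : ∀ v : Pt, γ (some v) ≠ 0 → s ≤ v.2)
    (h' : ∀ v : Pt, γ (some v) ≠ 0 → v.2 < s') : gA J f j s γ = gA J f (j + 1) s' γ := by
  refine gA_congr (fun i => lf_congr h0 fun p hp => ?_) (fun i => lf_congr h0 fun p hp => ?_)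
    (fun i => lf_congr h0 fun p hp => ?_) fun i => lf_congr h0 fun p hp => ?_
  · have h1 := h p hp
    have h2 := h' p hp
    unfold thR
    simp only
    split_ifs <;> first | rfl | (exfalso; omega)
  · have h1 := h p hp
    have h2 := h' p hp
    unfold thL
    simp only
    split_ifs <;> first | rfl | (exfalso; omega)
  · have h1 := h p hp
    have h2 := h' p hp
    unfold thT qb
    simp only
    by_cases h3 : p.2 = ht γ i 3
    · rw [if_pos h3, if_pos h3, if_neg (by omega), if_pos (by omega)]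
    · rw [if_neg h3, if_neg h3]
  · have h1 := h p hp
    have h2 := h' p hp
    unfold thB qb
    simp only
    by_cases h3 : p.2 = ht γ i 2
    · rw [if_pos h3, if_pos h3, if_neg (by omega), if_pos (by omega)]
    · rw [if_neg h3, if_neg h3]

open Classical in
/-- the sums on the square lattice -/
theorem SE_congr {G G' : FX I → ℝ} (h : ∀ γ, γ none = 0 → Bx B γ → G γ = G' γ) : SE k j B G = SE k j B G' := by
  refine tsum_congr fun γ => ?_
  by_cases hc : Fam g0 γ ∧ γ none = 0 ∧ Bx B γ
  · rw [if_pos hc, if_pos hc, h γ hc.2.1 hc.2.2]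
  · rw [if_neg hc, if_neg hc]

/-! ### the telescopes -/

private theorem tele_le {S E : ℤ → ℝ} {a b : ℤ} (hab : a ≤ b) (h : ∀ r, a ≤ r → r < b → |S (r + 1) - S r| ≤ E r) :
    |S b - S a| ≤ ∑ r ∈ Finset.Ico a b, E r := by
  obtain ⟨n, rfl⟩ := Int.le.dest hab
  clear hab
  induction n with
  | zero => simp
  | succ n ih =>
    have e : Finset.Ico a (a + ((n + 1 : ℕ) : ℤ)) = insert (a + (n : ℤ)) (Finset.Ico a (a + (n : ℤ))) := by
      ext x
      simp only [Finset.mem_Ico, Finset.mem_insert]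
      push_cast
      omega
    rw [e, Finset.sum_insert (by simp)]
    have h1 := ih fun r h1 h2 => h r h1 (by push_cast; omega)
    have h2 := h (a + n) (by omega) (by push_cast; omega)
    have e2 : a + ((n + 1 : ℕ) : ℤ) = a + n + 1 := by push_cast; ring
    rw [e2]
    calc |S (a + n + 1) - S a| = |(S (a + n + 1) - S (a + n)) + (S (a + n) - S a)| := by ring_nf
      _ ≤ _ := abs_add_le _ _
      _ ≤ _ := add_le_add h2 h1

open Classical in
/-- the families of the box which use the crossing -/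
def cx (G : FX I → ℝ) (γ : FX I) : ℝ := if γ none = 0 then 0 else G γ

/-- **the telescope of the rows of one strip** -/
theorem tel_rows [Finite I] {J : Finset I} {f : Hf I} {χ : FX I → ℝ} {e : ℤ → ℝ} (hk : k ≤ j) (hB : 0 ≤ B) (h1 : -B ≤ j)
    (h2 : j + 1 ≤ B)
    (he : ∀ r, |r| ≤ B → |SX k j (r + 1) B (fun γ => χ γ * gA J f j (r + 1) γ) -
      SX k j r B (fun γ => χ γ * gA J f j r γ)| ≤ e r) :
    |SE k (j + 1) B (fun γ => χ γ * gA J f (j + 1) (B + 1) γ) - SE k j B (fun γ => χ γ * gA J f j (B + 1) γ)| ≤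
      (∑ r ∈ Finset.Icc (-B) B, e r) + |SX k j (B + 1) B (cx fun γ => χ γ * gA J f j (B + 1) γ)| +
        |SX k j (-B) B (cx fun γ => χ γ * gA J f j (-B) γ)| := by
  have t : |SX k j (B + 1) B (fun γ => χ γ * gA J f j (B + 1) γ) - SX k j (-B) B (fun γ => χ γ * gA J f j (-B) γ)| ≤
      ∑ r ∈ Finset.Ico (-B) (B + 1), e r :=
    tele_le (S := fun s => SX k j s B fun γ => χ γ * gA J f j s γ) (E := e) (a := -B) (b := B + 1) (by omega)
      fun r h3 h4 => he r (abs_le.2 ⟨h3, by omega⟩)
  have e1 := (ends (I := I) k j B (fun γ => χ γ * gA J f j (B + 1) γ) hk h1 h2).1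
  have e2 := (ends (I := I) k j B (fun γ => χ γ * gA J f j (-B) γ) hk h1 h2).2
  have e3 : SE k (j + 1) B (fun γ => χ γ * gA J f (j + 1) (B + 1) γ) = SE k (j + 1) B (fun γ => χ γ * gA J f j (-B) γ) := by
    refine SE_congr fun γ h0 hb => ?_
    rw [gA_fit (s := -B) (s' := B + 1) h0 (fun v hv => (abs_le.1 (hb v.1 v.2 hv).2).1) fun v hv => by
      have := (abs_le.1 (hb v.1 v.2 hv).2).2
      omega]
  have e4 : Finset.Ico (-B) (B + 1) = Finset.Icc (-B) B := by
    ext x
    simp only [Finset.mem_Ico, Finset.mem_Icc]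
    omega
  rw [e4, e1, e2] at t
  rw [e3]
  obtain ⟨x, hx⟩ : ∃ x, x = SE k (j + 1) B fun γ => χ γ * gA J f j (-B) γ := ⟨_, rfl⟩
  obtain ⟨y, hy⟩ : ∃ y, y = SE k j B fun γ => χ γ * gA J f j (B + 1) γ := ⟨_, rfl⟩
  obtain ⟨p, hp⟩ : ∃ p, p = SX k j (B + 1) B (cx fun γ => χ γ * gA J f j (B + 1) γ) := ⟨_, rfl⟩
  obtain ⟨q, hq⟩ : ∃ q, q = SX k j (-B) B (cx fun γ => χ γ * gA J f j (-B) γ) := ⟨_, rfl⟩
  have t2 : |(y + p) - (x + q)| ≤ ∑ r ∈ Finset.Icc (-B) B, e r := by
    rw [hx, hy, hp, hq]
    exact t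
  rw [← hx, ← hy, ← hp, ← hq]
  have e5 : x - y = -((y + p) - (x + q)) + p - q := by ring
  rw [e5]
  calc |-((y + p) - (x + q)) + p - q| ≤ |-((y + p) - (x + q)) + p| + |q| := abs_sub _ _
    _ ≤ |-((y + p) - (x + q))| + |p| + |q| := by
      gcongr
      exact abs_add_le _ _
    _ ≤ _ := by
      rw [abs_neg]
      gcongr

/-- **the telescope of the strips** -/
theorem tel [Finite I] {J : Finset I} {f : Hf I} {χ : FX I → ℝ} {e : ℤ → ℤ → ℝ} {j1 : ℤ} (hk : k ≤ j1) (hB : 0 ≤ B)
    (h1 : -B ≤ k) (h2 : j1 ≤ B)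
    (he : ∀ j, k ≤ j → j < j1 → ∀ r, |r| ≤ B → |SX k j (r + 1) B (fun γ => χ γ * gA J f j (r + 1) γ) -
      SX k j r B (fun γ => χ γ * gA J f j r γ)| ≤ e j r) :
    |SE k j1 B (fun γ => χ γ * gA J f j1 (B + 1) γ) - SE k k B (fun γ => χ γ * gA J f k (B + 1) γ)| ≤
      ∑ j ∈ Finset.Ico k j1, ((∑ r ∈ Finset.Icc (-B) B, e j r) +
        |SX k j (B + 1) B (cx fun γ => χ γ * gA J f j (B + 1) γ)| +
        |SX k j (-B) B (cx fun γ => χ γ * gA J f j (-B) γ)|) :=
  tele_le (S := fun j => SE k j B fun γ => χ γ * gA J f j (B + 1) γ) hk fun j h3 h4 =>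
    tel_rows h3 hB (by omega) (by omega) fun r hr => he j h3 h4 r hr

end

end Pool.Agent.ROT.X
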