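import Pool.Agent.ROT.XBal
import Pool.Agent.ROT.XIneq

/-!
# UNIV, exact side (helper65): the error of one row step

**`rowErr : RowErr I`** (the literal of `ROT/XDefs`).
-/

set_option autoImplicit false

namespace Pool.Agent.ROT.X.Bl

open Pool.Agent.EXL (Wt YB)
open Pool.Agent.YBC (Dir)
open Pool.Agent.UNI (wR)
open Pool.Agent.ROT.E (Cell IsUn Pt)
open Pool.Agent.ROT.L

noncomputable section

/-! ### a family has finitely many members -/

theorem fam_finite {V I : Type} {G : Gr V} {γ : V →₀ (I → Cell)} (f : Fam G γ) : Finite I := by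
  have ex : ∀ i : I, ∃ p : γ.support × Dir, oc (co γ i) (p.1.1, p.2) := by
    intro i
    obtain ⟨v, hv⟩ : ∃ v, co γ i v ≠ 0 := by
      by_contra hc
      push Not at hc
      exact (f.lp i).ne (Finsupp.ext hc)
    obtain ⟨d, hd⟩ := exists_oc (γ := γ) (i := i) (v := v) hv
    refine ⟨(⟨v, ?_⟩, d), hd⟩
    rw [Finsupp.mem_support_iff]
    intro h0
    apply hv
    rw [co_app, h0]
    rfl
  choose p hp using ex
  refine Finite.of_injective p fun i i' h => ?_
  obtain ⟨c, hc⟩ := f.dj (p i).1.1
  refine hc.2.1 i i' (p i).2 (hp i) ?_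
  have := hp i'
  rw [← h] at this
  exact this

/-! ### functions of the heights as functions of the coordinates -/

variable {I : Type}

/-- the heights with the coordinates `z` -/
def cur (z : I × Fin 4 → ℤ) : I → Fin 4 → ℤ := fun i a => z (i, a)

theorem upd_apply (h : I → Fin 4 → ℤ) (i : I) (a : Fin 4) (v : ℤ) (i' : I) (a' : Fin 4) :
    upd h i a v i' a' = by classical exact if i' = i ∧ a' = a then v else h i' a' := by
  classical
  by_cases h1 : i' = i
  · subst h1
    by_cases h2 : a' = a
    · subst h2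
      simp [upd]
    · simp [upd, h2]
  · simp [upd, h1]

theorem cur_update [DecidableEq (I × Fin 4)] (z : I × Fin 4 → ℤ) (i : I) (a : Fin 4) (v : ℤ) :
    cur (Function.update z (i, a) v) = upd (cur z) i a v := by
  classical
  funext i' a'
  rw [upd_apply]
  by_cases h : i' = i ∧ a' = a
  · obtain ⟨rfl, rfl⟩ := h
    simp [cur]
  · rw [if_neg h]
    show Function.update z (i, a) v (i', a') = z (i', a')
    rw [Function.update_of_ne]
    intro e
    rw [Prod.mk.injEq] at e
    exact h e

/-- the function of the coordinates -/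
def fc (f : Hf I) (z : I × Fin 4 → ℤ) : ℝ := f (cur z)

theorem fc_update [DecidableEq (I × Fin 4)] (f : Hf I) (z : I × Fin 4 → ℤ) (p : I × Fin 4) (v : ℤ) :
    fc f (Function.update z p v) = f (upd (cur z) p.1 p.2 v) := by
  rw [fc, ← cur_update]

variable {f : Hf I} {δ1 δ2 : ℝ}

theorem int_cases {a z : ℤ} (h : |a - z| ≤ 1) : a = z ∨ a = z + 1 ∨ z = a + 1 := by
  rw [abs_le] at h
  omega

theorem fd_of [DecidableEq (I × Fin 4)] (h : Df1 f δ1) : Fd (fc f) δ1 := by
  intro z p a ha
  have h0 : 0 ≤ δ1 := (abs_nonneg _).trans (h (cur z) p.1 p.2)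
  rcases int_cases ha with h1 | h1 | h1
  · rw [h1, Function.update_eq_self, sub_self, abs_zero]
    exact h0
  · rw [fc_update, abs_sub_comm, h1]
    exact h (cur z) p.1 p.2
  · have k := h (cur (Function.update z p a)) p.1 p.2
    have e : cur (Function.update z p a) p.1 p.2 = a := by
      show Function.update z p a (p.1, p.2) = a
      exact Function.update_self ..
    rw [e, ← h1, ← fc_update f, Function.update_idem, Function.update_eq_self] at k
    exact k

theorem sd_of [DecidableEq (I × Fin 4)] (h : Df2 f δ2) : Sd (fc f) δ2 := by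
  intro z p q hpq a b ha hb
  have h0 : 0 ≤ δ2 := (abs_nonneg _).trans (h (cur z) p.1 p.2 p.1 p.2)
  set F : ℤ → ℤ → ℝ := fun u v => fc f (Function.update (Function.update z p u) q v) with hF
  have sf : ∀ u v, |F (u + 1) (v + 1) - F (u + 1) v - F u (v + 1) + F u v| ≤ δ2 := by
    intro u v
    have k := h (cur (Function.update (Function.update z p u) q v)) p.1 p.2 q.1 q.2
    have e1 : cur (Function.update (Function.update z p u) q v) p.1 p.2 = u := by
      show Function.update (Function.update z p u) q v (p.1, p.2) = u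
      rw [Function.update_of_ne hpq, Function.update_self]
    have e2 : cur (Function.update (Function.update z p u) q v) q.1 q.2 = v := by
      show Function.update (Function.update z p u) q v (q.1, q.2) = v
      exact Function.update_self ..
    rw [e1, e2] at k
    have e3 : upd (cur (Function.update (Function.update z p u) q v)) p.1 p.2 (u + 1) =
        cur (Function.update (Function.update z p (u + 1)) q v) := by
      rw [← cur_update]
      show cur (Function.update (Function.update (Function.update z p u) q v) p (u + 1)) = _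
      rw [Function.update_comm hpq.symm, Function.update_idem]
    have e4 : upd (cur (Function.update (Function.update z p u) q v)) q.1 q.2 (v + 1) =
        cur (Function.update (Function.update z p u) q (v + 1)) := by
      rw [← cur_update]
      show cur (Function.update (Function.update (Function.update z p u) q v) q (v + 1)) = _
      rw [Function.update_idem]
    have e5 : upd (cur (Function.update (Function.update z p (u + 1)) q v)) q.1 q.2
        (cur (Function.update (Function.update z p (u + 1)) q v) q.1 q.2 + 1) =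
        cur (Function.update (Function.update z p (u + 1)) q (v + 1)) := by
      have e6 : cur (Function.update (Function.update z p (u + 1)) q v) q.1 q.2 = v := by
        show Function.update (Function.update z p (u + 1)) q v (q.1, q.2) = v
        exact Function.update_self ..
      rw [e6, ← cur_update]
      show cur (Function.update (Function.update (Function.update z p (u + 1)) q v) q (v + 1)) = _
      rw [Function.update_idem]
    rw [e3, e4, e5] at k
    exact k
  have z0 : fc f z = F (z p) (z q) := by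
    simp only [hF]
    rw [Function.update_eq_self, Function.update_eq_self]
  have z1 : fc f (Function.update z p a) = F a (z q) := by
    simp only [hF]
    congr 1
    have : z q = Function.update z p a q := (Function.update_of_ne hpq.symm _ _).symm
    rw [this, Function.update_eq_self]
  have z2 : fc f (Function.update z q b) = F (z p) b := by
    simp only [hF]
    rw [Function.update_eq_self]
  have z3 : fc f (Function.update (Function.update z q b) p a) = F a b := by
    simp only [hF]
    rw [Function.update_comm hpq.symm]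
  rw [z0, z1, z2, z3]
  rcases int_cases ha with h1 | h1 | h1
  · rw [h1, sub_self, sub_self, sub_self, abs_zero]
    exact h0
  · rcases int_cases hb with h2 | h2 | h2
    · rw [h2, sub_self, abs_zero]
      exact h0
    · rw [h1, h2]
      have k := sf (z p) (z q)
      rw [abs_le] at k ⊢
      constructor <;> linarith [k.1, k.2]
    · rw [h1, h2]
      have k := sf (z p) b
      rw [abs_le] at k ⊢
      constructor <;> linarith [k.1, k.2]
  · rcases int_cases hb with h2 | h2 | h2
    · rw [h2, sub_self, abs_zero]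
      exact h0
    · rw [h1, h2]
      have k := sf a (z q)
      rw [abs_le] at k ⊢
      constructor <;> linarith [k.1, k.2]
    · rw [h1, h2]
      have k := sf a b
      rw [abs_le] at k ⊢
      constructor <;> linarith [k.1, k.2]

/-! ### the coordinates of the tracers -/

variable {j r k B : ℤ} {t t' : Fin 3} {γ γ' : FX I} {i : I} {J : Finset I}

open Classical in
/-- the coordinates of the tracers -/
def xJ (J : Finset I) (h : I → Fin 4 → ℤ) : I × Fin 4 → ℤ := fun p => if p.1 ∈ J then h p.1 p.2 else 0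

open Classical in
/-- the coefficients of the tracers -/
def cJ (J : Finset I) (j s : ℤ) (γ : FX I) : I × Fin 4 → ℝ := fun p => if p.1 ∈ J then cf j s γ p.1 p.2 else 0

/-- the bad coordinates -/
def bJ (J : Finset I) (j r : ℤ) (γ : FX I) : I × Fin 4 → Prop := fun p => p.1 ∈ J ∧ Ex j r γ p.1 ∧ ∃ k, k ≠ p.1 ∧ Us j r γ k

theorem fc_xJ (hJ : OnJ J f) (h : I → Fin 4 → ℤ) : fc f (xJ J h) = f h :=
  hJ _ _ fun _ hi => funext fun _ => if_pos hi

theorem fc_upd [DecidableEq (I × Fin 4)] (hJ : OnJ J f) (h : I → Fin 4 → ℤ) (i : I) (a : Fin 4) (v : ℤ) :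
    fc f (Function.update (xJ J h) (i, a) v) = f (upd h i a v) := by
  classical
  rw [fc_update]
  refine hJ _ _ fun i' hi' => funext fun a' => ?_
  show upd (cur (xJ J h)) i a v i' a' = upd h i a v i' a'
  rw [upd_apply, upd_apply]
  split_ifs
  · rfl
  · exact if_pos hi'

/-- a point next to the heights of the tracers -/
theorem near_val (hJ : OnJ J f) {h : I → Fin 4 → ℤ} {z : I × Fin 4 → ℤ} (hz : ∀ p, |z p - xJ J h p| ≤ 1) :
    ∃ h', f h' = fc f z ∧ ∀ i a, |h' i a - h i a| ≤ 1 := by
  classical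
  refine ⟨fun i a => if i ∈ J then z (i, a) else h i a, ?_, fun i a => ?_⟩
  · exact hJ _ _ fun i hi => funext fun a => if_pos hi
  · by_cases hi : i ∈ J
    · have := hz (i, a)
      simp only [xJ, if_pos hi] at this
      simp only [if_pos hi]
      exact this
    · simp only [if_neg hi, sub_self, abs_zero]
      exact zero_le_one

theorem fc_zero (hJ : OnJ J f) (hs : ¬ Sp2 f γ) {z : I × Fin 4 → ℤ} (hz : ∀ p, |z p - xJ J (ht γ) p| ≤ 1) : fc f z = 0 := by
  obtain ⟨h', h1, h2⟩ := near_val hJ hz
  rw [← h1]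
  by_contra h0
  exact hs ⟨h', h0, fun i a => (h2 i a).trans (by norm_num)⟩

theorem ep_le (a : Fin 4) : |ep a| ≤ 1 := by
  fin_cases a <;> simp [ep]

theorem upd_near {x y : I × Fin 4 → ℤ} [DecidableEq (I × Fin 4)] (h : ∀ p, |y p - x p| ≤ 1) (p : I × Fin 4) {v : ℤ}
    (hv : |v - x p| ≤ 1) (q : I × Fin 4) : |Function.update y p v q - x q| ≤ 1 := by
  by_cases e : q = p
  · subst e
    rw [Function.update_self]
    exact hv
  · rw [Function.update_of_ne e]
    exact h q

section fin

variable [Fintype I] [DecidableEq (I × Fin 4)]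

theorem Af_gA (hJ : OnJ J f) (s : ℤ) : Af (fc f) (cJ J j s γ) (fun p => ep p.2) (xJ J (ht γ)) = gA J f j s γ := by
  classical
  rw [Af, gA, fc_xJ hJ, Fintype.sum_prod_type]
  congr 1
  rw [← Finset.sum_subset (Finset.subset_univ J)]
  · refine Finset.sum_congr rfl fun i hi => ?_
    have e : ∀ a : Fin 4, cJ J j s γ (i, a) * (f (ht γ) - fc f (Function.update (xJ J (ht γ)) (i, a)
        (xJ J (ht γ) (i, a) + ep a))) = cf j s γ i a * (f (ht γ) - f (upd (ht γ) i a (ht γ i a + ep a))) := by
      intro a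
      have e1 : cJ J j s γ (i, a) = cf j s γ i a := if_pos hi
      have e2 : xJ J (ht γ) (i, a) = ht γ i a := if_pos hi
      rw [fc_upd hJ, e1, e2]
    rw [Fin.sum_univ_four, e, e, e, e, cor]
    simp only [cf, ep, Matrix.cons_val_zero, Matrix.cons_val_one, Matrix.cons_val]
    simp only [← sub_eq_add_neg]
    ring
  · intro i _ hi
    refine Finset.sum_eq_zero fun a _ => ?_
    have e1 : cJ J j s γ (i, a) = 0 := if_neg hi
    rw [e1, zero_mul]

omit [DecidableEq (I × Fin 4)] in
theorem sz_le (J : Finset I) (j s : ℤ) (γ : FX I) : 1 ≤ szA J j s γ ∧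
    1 + ∑ p, |cJ J j s γ p| ≤ (1 + 2 * (Fintype.card I : ℝ)) * szA J j s γ := by
  classical
  have h1 : 0 ≤ ∑ i ∈ J, (|cR j s γ i| + |cL j s γ i| + |cT j s γ i| + |cB j s γ i|) :=
    Finset.sum_nonneg fun i _ => by positivity
  have h2 : ∑ p, |cJ J j s γ p| ≤ 2 * (Fintype.card I : ℝ) + ∑ i ∈ J, (|cR j s γ i| + |cL j s γ i| + |cT j s γ i| + |cB j s γ i|) := by
    rw [Fintype.sum_prod_type, ← Finset.sum_subset (Finset.subset_univ J)]
    · have h3 : ∑ i ∈ J, ∑ a, |cJ J j s γ (i, a)| ≤ ∑ i ∈ J, (2 + (|cR j s γ i| + |cL j s γ i| + |cT j s γ i| + |cB j s γ i|)) := by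
        refine Finset.sum_le_sum fun i hi => ?_
        have e1 : ∀ a, cJ J j s γ (i, a) = cf j s γ i a := fun a => if_pos hi
        rw [Fin.sum_univ_four, e1, e1, e1, e1]
        simp only [cf, Matrix.cons_val_zero, Matrix.cons_val_one, Matrix.cons_val]
        have k1 : |cL j s γ i - 1| ≤ |cL j s γ i| + 1 := by
          refine (abs_sub _ _).trans ?_
          rw [abs_one]
        have k2 : |cR j s γ i - 1| ≤ |cR j s γ i| + 1 := by
          refine (abs_sub _ _).trans ?_
          rw [abs_one]
        rw [abs_neg, abs_neg]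
        linarith
      refine h3.trans ?_
      rw [Finset.sum_add_distrib, Finset.sum_const, nsmul_eq_mul]
      have h4 : (J.card : ℝ) ≤ Fintype.card I := by exact_mod_cast Finset.card_le_univ J
      linarith
    · intro i _ hi
      refine Finset.sum_eq_zero fun a _ => ?_
      have e1 : cJ J j s γ (i, a) = 0 := if_neg hi
      rw [e1, abs_zero]
  have h5 : 1 ≤ szA J j s γ := by
    rw [szA]
    linarith
  refine ⟨h5, ?_⟩
  have h6 : (0 : ℝ) ≤ Fintype.card I := Nat.cast_nonneg _
  rw [szA] at h5 ⊢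
  nlinarith

omit [Fintype I] [DecidableEq (I × Fin 4)] in
theorem nearJ (ht0 : t ≠ 0) (f' : Fam (Gt j r t) γ) (p : I × Fin 4) : |xJ J (ht γ) p - xJ J (he j r γ) p| ≤ 1 := by
  classical
  have h : Nr (he j r γ) (ht γ) := by
    rw [Gt_sg ht0] at f'
    rcases t_cases ht0 with rfl | rfl
    · have := (he_nrX f').2.1
      rw [show sg r 1 - 1 = r by simp [sg]] at this
      exact this
    · exact (he_nrX f').1
  by_cases hp : p.1 ∈ J
  · simp only [xJ, if_pos hp]
    rw [abs_sub_comm]
    exact h p.1 p.2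
  · simp only [xJ, if_neg hp, sub_self, abs_zero]
    exact zero_le_one

omit [Fintype I] [DecidableEq (I × Fin 4)] in
theorem selfJ (f' : Fam (Gt j r t) γ) (g : Gd (Rg j r) γ) (h : ¬ ∃ i ∈ J, Ex j r γ i) :
    xJ J (ht γ) = xJ J (he j r γ) := by
  classical
  funext ⟨i, a⟩
  by_cases hp : i ∈ J
  · have n : ¬ Ex j r γ i := fun x => h ⟨i, hp, x⟩
    simp only [xJ, if_pos hp]
    fin_cases a
    · exact (val_L f' g fun x => n (Or.inr (Or.inl x))).1
    · exact (val_R f' g fun x => n (Or.inl x)).1
    · exact (val_B f' g fun x => n (Or.inr (Or.inr (Or.inr x)))).1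
    · exact (val_T f' g fun x => n (Or.inr (Or.inr (Or.inl x)))).1
  · simp only [xJ, if_neg hp]

open Classical in
/-- **the error at a family** -/
theorem err_le (h1 : Df1 f δ1) (h2 : Df2 f δ2) (hJ : OnJ J f) (ht0 : t ≠ 0) (f' : Fam (Gt j r t) γ) (g : Gd (Rg j r) γ) :
    |Af (fc f) (cJ J j (sg r t) γ) (fun p => ep p.2) (xJ J (ht γ)) -
      Al (fc f) (cJ J j (sg r t) γ) (fun p => ep p.2) (xJ J (ht γ)) (xJ J (he j r γ)) (bJ J j r γ)| ≤
      if Sp2 f γ ∧ ∃ i ∈ J, Ex j r γ i then (((Fintype.card (I × Fin 4) : ℝ) ^ 2 * (1 + 2 * (Fintype.card I : ℝ))) + 1) *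
        (δ2 + if BadX J j r γ then δ1 else 0) * szA J j (sg r t) γ else 0 := by
  have near := nearJ (J := J) ht0 f'
  by_cases hs : Sp2 f γ
  · by_cases ha : ∃ i ∈ J, Ex j r γ i
    · rw [if_pos ⟨hs, ha⟩]
      obtain ⟨i, hi, hx⟩ := ha
      have d1 : 0 ≤ δ1 := (abs_nonneg _).trans (h1 (ht γ) i 0)
      have d2 : 0 ≤ δ2 := (abs_nonneg _).trans (h2 (ht γ) i 0 i 0)
      refine (Al_err (fd_of h1) (sd_of h2) d2 near _ (fun p => ep_le p.2) (ac := True) (fun h => absurd trivial h) _).trans ?_
      obtain ⟨s1, s2⟩ := sz_le J j (sg r t) γ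
      set S : ℝ := ∑ p, |cJ J j (sg r t) γ p| with hS
      set N : ℝ := (Fintype.card (I × Fin 4) : ℝ) with hN
      set z : ℝ := szA J j (sg r t) γ with hz
      have S0 : 0 ≤ S := Finset.sum_nonneg fun p _ => abs_nonneg _
      have N1 : 1 ≤ N := by
        rw [hN]
        exact_mod_cast Fintype.card_pos_iff.2 ⟨(i, 0)⟩
      have N2 : N ≤ N ^ 2 := by nlinarith
      have N3 : 1 ≤ N ^ 2 := by nlinarith
      have k1 : (∑ p, if bJ J j r γ p then (1 + |cJ J j (sg r t) γ p|) * δ1 else 0) ≤
          N ^ 2 * (1 + S) * (if BadX J j r γ then δ1 else 0) := by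
        by_cases hb : BadX J j r γ
        · rw [if_pos hb]
          have k2 : (∑ p, if bJ J j r γ p then (1 + |cJ J j (sg r t) γ p|) * δ1 else 0) ≤
              ∑ p : I × Fin 4, (1 + |cJ J j (sg r t) γ p|) * δ1 := by
            refine Finset.sum_le_sum fun p _ => ?_
            split_ifs
            · exact le_rfl
            · positivity
          refine k2.trans ?_
          rw [← Finset.sum_mul, Finset.sum_add_distrib, Finset.sum_const, Finset.card_univ, nsmul_eq_mul, mul_one, ← hS, ← hN]
          refine mul_le_mul_of_nonneg_right ?_ d1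
          nlinarith
        · rw [if_neg hb, mul_zero]
          refine (Finset.sum_eq_zero fun p _ => ?_).le
          exact if_neg fun h => hb ⟨p.1, h.1, h.2.1, h.2.2⟩
      have b0 : 0 ≤ (if BadX J j r γ then δ1 else 0) := by
        split_ifs
        · exact d1
        · exact le_rfl
      rw [Er, if_pos trivial]
      have k3 : N ^ 2 * (1 + S) * δ2 + N ^ 2 * (1 + S) * (if BadX J j r γ then δ1 else 0) ≤
          (N ^ 2 * (1 + 2 * (Fintype.card I : ℝ)) + 1) * (δ2 + if BadX J j r γ then δ1 else 0) * z := by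
        rw [← mul_add]
        have k4 : N ^ 2 * (1 + S) ≤ (N ^ 2 * (1 + 2 * (Fintype.card I : ℝ)) + 1) * z := by
          have : N ^ 2 * (1 + S) ≤ N ^ 2 * ((1 + 2 * (Fintype.card I : ℝ)) * z) :=
            mul_le_mul_of_nonneg_left s2 (by positivity)
          nlinarith
        calc _ ≤ (N ^ 2 * (1 + 2 * (Fintype.card I : ℝ)) + 1) * z * (δ2 + if BadX J j r γ then δ1 else 0) :=
              mul_le_mul_of_nonneg_right k4 (by linarith)
          _ = _ := by ring
      exact (add_le_add le_rfl k1).trans k3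
    · rw [if_neg fun h => ha h.2]
      have e := selfJ f' g ha
      have nb : ∀ p, ¬ bJ J j r γ p := fun p h => ha ⟨p.1, h.1, h.2.1⟩
      rw [e, lin_self, Al]
      simp only [if_neg (nb _)]
      rw [sub_self, abs_zero]
  · rw [if_neg fun h => hs h.1]
    have zx : ∀ {z : I × Fin 4 → ℤ}, (∀ p, |z p - xJ J (ht γ) p| ≤ 1) → fc f z = 0 := fun hz => fc_zero hJ hs hz
    have self : ∀ p, |xJ J (ht γ) p - xJ J (ht γ) p| ≤ 1 := fun p => by simp
    have near' : ∀ p, |xJ J (he j r γ) p - xJ J (ht γ) p| ≤ 1 := fun p => by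
      rw [abs_sub_comm]
      exact near p
    have step : ∀ p : I × Fin 4, |xJ J (ht γ) p + ep p.2 - xJ J (ht γ) p| ≤ 1 := fun p => by
      rw [add_sub_cancel_left]
      exact ep_le p.2
    have a1 : Af (fc f) (cJ J j (sg r t) γ) (fun p => ep p.2) (xJ J (ht γ)) = 0 := by
      rw [Af, zx self, Finset.sum_eq_zero, add_zero]
      intro p _
      rw [zx (upd_near self p (step p)), sub_zero, mul_zero]
    have a2 : Al (fc f) (cJ J j (sg r t) γ) (fun p => ep p.2) (xJ J (ht γ)) (xJ J (he j r γ)) (bJ J j r γ) = 0 := by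
      rw [Al, zx near', Finset.sum_eq_zero, add_zero]
      intro p _
      split_ifs
      · rfl
      · rw [Ap, zx (upd_near near' p (self p)), zx (upd_near near' p (step p))]
        ring
    rw [a1, a2, sub_self, abs_zero]

end fin

/-! ### the members leave the region -/

theorem gd_of [Fintype I] [DecidableEq (I × Fin 4)] {χ : FX I → ℝ} (hJ : OnJ J f) (hW : Wid J f) (hLar : Lar J χ) {s : ℤ}
    (hc : χ γ ≠ 0) (hg : gA J f j s γ ≠ 0) : Gd (Rg j r) γ := by
  classical
  intro i
  by_cases hi : i ∈ J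
  · by_contra hc'
    push Not at hc'
    have cell : ∀ a b : ℤ, γ (some (a, b)) i ≠ .o → (a = j ∨ a = j + 1) ∧ b = r := by
      intro a b h
      by_contra h1
      exact h (hc' _ fun h2 => h1 (some_mem_Rg.1 h2))
    have ex : ∃ h, f h ≠ 0 ∧ ∀ i a, |h i a - ht γ i a| ≤ 1 := by
      by_contra hn
      push Not at hn
      have zx : ∀ {z : I × Fin 4 → ℤ}, (∀ p, |z p - xJ J (ht γ) p| ≤ 1) → fc f z = 0 := by
        intro z hz
        obtain ⟨h', h1, h2⟩ := near_val hJ hz
        rw [← h1]
        by_contra h0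
        obtain ⟨i', a', h3⟩ := hn h' h0
        exact absurd (h2 i' a') (by omega)
      have self : ∀ p, |xJ J (ht γ) p - xJ J (ht γ) p| ≤ 1 := fun p => by simp
      have step : ∀ p : I × Fin 4, |xJ J (ht γ) p + ep p.2 - xJ J (ht γ) p| ≤ 1 := fun p => by
        rw [add_sub_cancel_left]
        exact ep_le p.2
      apply hg
      rw [← Af_gA hJ, Af, zx self, Finset.sum_eq_zero, add_zero]
      intro p _
      rw [zx (upd_near self p (step p)), sub_zero, mul_zero]
    obtain ⟨h, h1, h2⟩ := ex
    have h3 := (hW h h1 i hi).1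
    have h4 := h2 i 0
    have h5 := h2 i 1
    rw [abs_le] at h4 h5
    by_cases hn : (cl γ i).Nonempty
    · obtain ⟨⟨a, b⟩, h6, h7⟩ := hL_mem hn
      obtain ⟨⟨a', b'⟩, h8, h9⟩ := hR_mem hn
      have c1 := cell a b (mem_cl.1 h6)
      have c2 := cell a' b' (mem_cl.1 h8)
      have h7' : a = ht γ i 0 := h7
      have h9' : a' = ht γ i 1 := h9
      omega
    · rw [Finset.not_nonempty_iff_eq_empty] at hn
      have e0 : ht γ i 0 = 0 := by
        rw [L.ht0, hn, hL]
        simp
      have e1 : ht γ i 1 = 0 := by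
        rw [L.ht1, hn, hR]
        simp
      omega
  · obtain ⟨p, q, hp, hq, hd⟩ := hLar γ hc i hi
    by_cases h1 : (some p : VX) ∈ Rg j r
    · by_cases h2 : (some q : VX) ∈ Rg j r
      · obtain ⟨a, b⟩ := p
        obtain ⟨a', b'⟩ := q
        rw [some_mem_Rg] at h1 h2
        simp only at hd
        omega
      · exact ⟨_, h2, hq⟩
    · exact ⟨_, h1, hp⟩

theorem bx_eq (hr : |r| ≤ B) (h1 : -B ≤ j) (h2 : j + 1 ≤ B) (h : Eq6 (Rg j r) (Gt j r t) (Gt j r t') γ γ') : Bx B γ ↔ Bx B γ' := by
  have key : ∀ γ γ' : FX I, (∀ v, v ∉ Rg j r → γ v = γ' v) → Bx B γ → Bx B γ' := by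
    intro γ γ' out hb a b h0
    by_cases hm : (some (a, b) : VX) ∈ Rg j r
    · rw [some_mem_Rg] at hm
      obtain ⟨h3, h4⟩ := hm
      rw [h4]
      refine ⟨?_, hr⟩
      rw [abs_le]
      omega
    · rw [← out _ hm] at h0
      exact hb a b h0
  exact ⟨key _ _ h.out, key _ _ fun v hv => (h.out v hv).symm⟩

theorem Ex_eq (h : Eq6 (Rg j r) (Gt j r t) (Gt j r t') γ γ') (i : I) : Ex j r γ i ↔ Ex j r γ' i := by
  have u := Us_eq h i
  have o := Off_eq h i
  exact or_congr (and_congr u (o _)) (or_congr (and_congr u (o _)) (or_congr (and_congr u (o _)) (and_congr u (o _))))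

theorem bJ_eq (h : Eq6 (Rg j r) (Gt j r t) (Gt j r t') γ γ') : bJ J j r γ = bJ J j r γ' := by
  funext p
  exact propext (and_congr Iff.rfl (and_congr (Ex_eq h p.1) (exists_congr fun k => and_congr Iff.rfl (Us_eq h k))))

theorem ExA_Ex {a : Fin 4} (h : ExA j r γ i a) : Ex j r γ i := by
  fin_cases a
  · exact Or.inr (Or.inl h)
  · exact Or.inl h
  · exact Or.inr (Or.inr (Or.inr h))
  · exact Or.inr (Or.inr (Or.inl h))

theorem cls_const {k : ℤ} (f' : Fam (Gt j r t) γ) (g : Gd (Rg j r) γ) (K : ℝ) :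
    CS j r t 1 γ (fun γ' => WX (WE k j (r + 1)) γ' * K) = CS j r t 2 γ (fun γ' => WX (WE k j r) γ' * K) :=
  CS_bal (k := k) tab0 f' g K 0 (A := fun _ _ => K) fun _ _ _ _ _ _ _ _ => by rw [mul_zero, add_zero]

open Classical in
/-- **the error of one row step** -/
theorem rowErr_fin (I : Type) [Fintype I] : RowErr I := by
  have hC : 0 < ((Fintype.card (I × Fin 4) : ℝ) ^ 2 * (1 + 2 * (Fintype.card I : ℝ))) + 1 := by positivity
  refine ⟨_, hC, ?_⟩
  intro k j r B J f χ δ1 δ2 _ hr hj1 hj2 h1 h2 hJ hW cs hχ hL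
  set C : ℝ := ((Fintype.card (I × Fin 4) : ℝ) ^ 2 * (1 + 2 * (Fintype.card I : ℝ))) + 1 with hCd
  set χ' : FX I → ℝ := fun γ => if Bx B γ ∧ Gd (Rg j r) γ then χ γ else 0 with hχ'
  have cne : ∀ γ, χ' γ ≠ 0 → Bx B γ ∧ Gd (Rg j r) γ ∧ χ γ ≠ 0 := by
    intro γ h
    by_cases h3 : Bx B γ ∧ Gd (Rg j r) γ
    · refine ⟨h3.1, h3.2, fun h4 => h ?_⟩
      rw [hχ']
      simp only [if_pos h3, h4]
    · refine absurd ?_ h
      rw [hχ']
      simp only [if_neg h3]
  set E : Fin 3 → FX I → ℝ := fun t γ => if Sp2 f γ ∧ ∃ i ∈ J, Ex j r γ i then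
    C * (δ2 + if BadX J j r γ then δ1 else 0) * szA J j (sg r t) γ else 0 with hEd
  have key := row_lin (j := j) (r := r) (f := fc f) (W := fun t => WE k j (sg r t)) (x := fun _ γ => xJ J (ht γ))
    (c := fun t γ => cJ J j (sg r t) γ) (ε := fun p => ep p.2) (y := fun γ => xJ J (he j r γ)) (χ := χ')
    (bd := fun γ => bJ J j r γ) (E := E)
    (fun t γ ht0 f' hc => err_le h1 h2 hJ ht0 f' (cne γ hc).2.1)
    (fun t t' γ γ' ht0 ht0' h => by
      refine ⟨?_, ?_, bJ_eq h⟩
      · show (if Bx B γ ∧ Gd (Rg j r) γ then χ γ else 0) = if Bx B γ' ∧ Gd (Rg j r) γ' then χ γ' else 0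
        rw [cs t t' γ γ' ht0 ht0' h]
        exact if_congr (and_congr (bx_eq hr hj1 hj2 h) (iff_of_true h.gd h.gd')) rfl rfl
      · show xJ J (he j r γ) = xJ J (he j r γ')
        rw [he_Eq h])
    (fun t γ ht0 f' g => by
      have := cls_const (k := k) f' g 1
      simpa [sg] using this)
    (fun t γ ht0 f' g p hp G => by
      have s1 : sg r 1 = r + 1 := if_pos rfl
      have s2 : sg r 2 = r := if_neg (by decide)
      by_cases hi : p.1 ∈ J
      · have e1 : ∀ γ' : FX I, xJ J (ht γ') p = ht γ' p.1 p.2 := fun γ' => if_pos hi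
        have e2 : ∀ (s : ℤ) (γ' : FX I), cJ J j s γ' p = cf j s γ' p.1 p.2 := fun s γ' => if_pos hi
        simp only [e1, e2, s1, s2]
        refine bal ht0 f' g p.2 (fun hx k' hk' hu => hp ⟨hi, ExA_Ex hx, k', hk', hu⟩) G
      · have e1 : ∀ γ' : FX I, xJ J (ht γ') p = 0 := fun γ' => if_neg hi
        have e2 : ∀ (s : ℤ) (γ' : FX I), cJ J j s γ' p = 0 := fun s γ' => if_neg hi
        simp only [e1, e2, s1, s2]
        exact cls_const f' g _)
    ((fin_Bx B).subset fun γ h => (cne γ h).1) (fun γ h => (cne γ h).2.1)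
  have s1 : sg r 1 = r + 1 := if_pos rfl
  have s2 : sg r 2 = r := if_neg (by decide)
  simp only [s1, s2, Af_gA hJ] at key
  have left : ∀ s : ℤ, SX k j s B (fun γ => χ γ * gA J f j s γ) =
      ∑' γ : FX I, if Fam (gX j s) γ then WX (WE k j s) γ * (χ' γ * gA J f j s γ) else 0 := by
    intro s
    refine tsum_congr fun γ => ?_
    by_cases hf : Fam (gX j s) γ
    · rw [if_pos hf]
      by_cases hb : Bx B γ
      · rw [if_pos ⟨hf, hb⟩]
        by_cases hg : Gd (Rg j r) γ
        · have e : χ' γ = χ γ := if_pos ⟨hb, hg⟩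
          rw [e]
        · have e : χ' γ = 0 := if_neg fun h => hg h.2
          rw [e, zero_mul, mul_zero]
          show WX (WE k j s) γ * (χ γ * gA J f j s γ) = 0
          by_cases hc : χ γ = 0
          · rw [hc, zero_mul, mul_zero]
          · by_cases hA : gA J f j s γ = 0
            · rw [hA, mul_zero, mul_zero]
            · exact absurd (gd_of hJ hW hL hc hA) hg
      · have e : χ' γ = 0 := if_neg fun h => hb h.1
        rw [if_neg fun h => hb h.2, e, zero_mul, mul_zero]
    · rw [if_neg hf, if_neg fun h => hf h.1]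
  have right : ∀ t : Fin 3, ∑' γ : FX I, (if Fam (gX j (sg r t)) γ then |WX (WE k j (sg r t)) γ| * (|χ' γ| * E t γ) else 0) ≤
      AX k j (sg r t) B fun γ => if χ γ ≠ 0 ∧ Sp2 f γ ∧ ∃ i ∈ J, Ex j r γ i then
        C * (δ2 + if BadX J j r γ then δ1 else 0) * szA J j (sg r t) γ else 0 := by
    intro t
    have en : ∀ γ, 0 ≤ E t γ := by
      intro γ
      simp only [hEd]
      split_ifs with h3 h4
      · obtain ⟨_, i, _, _⟩ := h3
        have d1 : 0 ≤ δ1 := (abs_nonneg _).trans (h1 (ht γ) i 0)
        have d2 : 0 ≤ δ2 := (abs_nonneg _).trans (h2 (ht γ) i 0 i 0)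
        exact mul_nonneg (mul_nonneg hC.le (by linarith)) (by linarith [(sz_le J j (sg r t) γ).1])
      · obtain ⟨_, i, _, _⟩ := h3
        have d2 : 0 ≤ δ2 := (abs_nonneg _).trans (h2 (ht γ) i 0 i 0)
        exact mul_nonneg (mul_nonneg hC.le (by linarith)) (by linarith [(sz_le J j (sg r t) γ).1])
      · exact le_rfl
    rw [AX, tsum_eq_sum (s := (fin_Bx B).toFinset), tsum_eq_sum (s := (fin_Bx B).toFinset)]
    · refine Finset.sum_le_sum fun γ hγ => ?_
      rw [Set.Finite.mem_toFinset] at hγ
      have hb : Bx B γ := hγ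
      by_cases hf : Fam (gX j (sg r t)) γ
      · rw [if_pos hf, if_pos ⟨hf, hb⟩]
        refine mul_le_mul_of_nonneg_left ?_ (abs_nonneg _)
        by_cases hc : χ' γ = 0
        · rw [hc, abs_zero, zero_mul]
          by_cases h5 : χ γ ≠ 0 ∧ Sp2 f γ ∧ ∃ i ∈ J, Ex j r γ i
          · rw [if_pos h5]
            have := en γ
            simp only [hEd, if_pos h5.2] at this
            exact this
          · rw [if_neg h5]
        · obtain ⟨_, hg, hc'⟩ := cne γ hc
          have e : χ' γ = χ γ := if_pos ⟨hb, hg⟩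
          rw [e]
          have e2 : (if χ γ ≠ 0 ∧ Sp2 f γ ∧ ∃ i ∈ J, Ex j r γ i then
              C * (δ2 + if BadX J j r γ then δ1 else 0) * szA J j (sg r t) γ else 0) = E t γ := by
            simp only [hEd]
            exact if_congr (and_iff_right hc') rfl rfl
          rw [e2]
          exact (mul_le_mul_of_nonneg_right (hχ γ) (en γ)).trans (by rw [one_mul])
      · rw [if_neg hf, if_neg fun h => hf h.1]
    · intro γ hγ
      rw [Set.Finite.mem_toFinset] at hγ
      exact if_neg fun h => hγ h.2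
    · intro γ hγ
      rw [Set.Finite.mem_toFinset] at hγ
      have e : χ' γ = 0 := if_neg fun h => hγ h.1
      rw [e, abs_zero, zero_mul, mul_zero, ite_self]
  have r1 := right 1
  have r2 := right 2
  rw [s1] at r1
  rw [s2] at r2
  rw [left, left, Finset.sum_pair (by omega)]
  exact key.trans (add_le_add r1 r2)

end

end Pool.Agent.ROT.X.Bl

namespace Pool.Agent.ROT.X

open Pool.Agent.ROT.L

/-- **X3: the error of one row step** -/
theorem rowErr (I : Type) : RowErr I := by
  classical
  rcases finite_or_infinite I with h | h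
  · have := Fintype.ofFinite I
    exact Bl.rowErr_fin I
  · have nf : ∀ (G : Gr VX) (γ : FX I), ¬ Fam G γ := fun G γ f => not_finite_iff_infinite.2 h (Bl.fam_finite f)
    refine ⟨1, one_pos, ?_⟩
    intro k j r B J f χ δ1 δ2 _ _ _ _ _ _ _ _ _ _ _
    have s0 : ∀ (s : ℤ) (G : FX I → ℝ), SX k j s B G = 0 := fun s G => by
      refine (tsum_congr fun γ => ?_).trans tsum_zero
      exact if_neg fun h' => nf _ _ h'.1
    have a0 : ∀ (s : ℤ) (G : FX I → ℝ), AX k j s B G = 0 := fun s G => by
      refine (tsum_congr fun γ => ?_).trans tsum_zero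
      exact if_neg fun h' => nf _ _ h'.1
    rw [s0, s0, sub_self, abs_zero]
    exact (Finset.sum_eq_zero fun s _ => a0 s _).ge

end Pool.Agent.ROT.X
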