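import Pool.Agent.ROT.XRot

/-!
# UNIV, exact side, row X9 (helper25): filling the region of a loop whose last column is in the strip

* `fill_of` : replacing the region (and the graph inside) by cells with the same pairing of the ports keeps a loop a loop;
* `chkR` : if the right ports are free, the pairing is the one of a single cell `v`, `sw` or `nw` in the left column of the square
  lattice;
* **`fillR`** : a loop with `ExR` : the region can be replaced by one cell at `(j, r)`, a loop of the square lattice.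
-/

set_option autoImplicit false

namespace Pool.Agent.ROT.X

open Pool.Agent.EXL (Wt YB)
open Pool.Agent.YBC (Dir)
open Pool.Agent.UNI (wR)
open Pool.Agent.ROT.E (Cell IsUn Pt)
open Pool.Agent.ROT.L
open Pool.Agent.ROT.L.Tb (good en conn_eq sts)

noncomputable section

variable {j r : ℤ}

/-- **refilling the region** -/
theorem fill_of {t t' : Fin 3} {δ : VX →₀ Cell} (l : Lp (Gt j r t) δ) (lv : ∃ v, v ∉ Rg j r ∧ δ v ≠ .o)
    {c : Cell × Cell × Cell} (h : conn t' ![c.1, c.2.1, c.2.2] = some (qF t (cF j r δ))) :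
    Lp (Gt j r t') (upc j r δ c) := by
  have e := (eq6u_iff (j := j) (s := r) (t := t) (t' := t') (δ := upc j r δ c) l.mt).2 ⟨upc_out c, by rw [cF_upc]; exact h⟩
  exact glue (agr t t') l lv e.out e.mt e.op e.pr

/-- the state with free right ports -/
def freeR (x : Fin 3 × Cell × Cell × Cell) : Bool :=
  !(oF ![x.2.1, x.2.2.1, x.2.2.2] (L.st x.1 1)) && !(oF ![x.2.1, x.2.2.1, x.2.2.2] (L.st x.1 3)) &&
    !(oF ![x.2.1, x.2.2.1, x.2.2.2] (L.st x.1 5))

theorem chkR_all : ((sts.filter fun x => decide (x.1 ≠ 0) && good x.1 x.2.1 x.2.2.1 x.2.2.2 && freeR x &&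
    decide (x.2 ≠ (.o, .o, .o))).all fun x => [Cell.v, .sw, .nw].any fun f => good 0 .o f .o &&
      decide (en 0 .o f .o = en x.1 x.2.1 x.2.2.1 x.2.2.2)) = true := by decide +kernel

theorem mem_sts (x : Fin 3 × Cell × Cell × Cell) : x ∈ sts := by
  obtain ⟨t, s, c1, c2⟩ := x
  have h : ∀ c : Cell, c ∈ L.Tb.cells := by decide
  simp only [sts, List.mem_flatMap, List.mem_map]
  exact ⟨t, by fin_cases t <;> simp, s, h s, c1, h c1, c2, h c2, rfl⟩

theorem chkR {t : Fin 3} (ht : t ≠ 0) {s c1 c2 : Cell} (g : good t s c1 c2 = true)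
    (h1 : oF ![s, c1, c2] (L.st t 1) = false) (h3 : oF ![s, c1, c2] (L.st t 3) = false)
    (h5 : oF ![s, c1, c2] (L.st t 5) = false) (hne : (s, c1, c2) ≠ (Cell.o, Cell.o, Cell.o)) :
    ∃ f : Cell, (f = .v ∨ f = .sw ∨ f = .nw) ∧ conn 0 ![.o, f, .o] = some (en t s c1 c2) := by
  have h := List.all_eq_true.1 chkR_all (t, s, c1, c2) (List.mem_filter.2 ⟨mem_sts _, by
    simp only [freeR, h1, h3, h5, g, Bool.and_eq_true, decide_eq_true_eq, Bool.not_false]
    exact ⟨⟨⟨ht, trivial⟩, ⟨trivial, trivial⟩, trivial⟩, hne⟩⟩)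
  obtain ⟨f, hf, h2⟩ := List.any_eq_true.1 h
  simp only [Bool.and_eq_true, decide_eq_true_eq] at h2
  refine ⟨f, ?_, conn_eq.2 h2⟩
  simpa using hf

/-- the pairing of the region of a loop -/
theorem conn_lp {t : Fin 3} {δ : VX →₀ Cell} (l : Lp (Gt j r t) δ) (lv : ∃ v, v ∉ Rg j r ∧ δ v ≠ .o) :
    conn t (cF j r δ) = some (qF t (cF j r δ)) :=
  conn_of l.mt fun _ h1 ho => esc l lv h1 ho

theorem port_free {t : Fin 3} {δ : VX →₀ Cell} (l : Lp (Gt j r t) δ) {a : Fin 6} (h : ¬ oc δ (L.P j r a)) :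
    oF (cF j r δ) (L.st t a) = false := by
  rw [Bool.eq_false_iff]
  intro h1
  apply h
  have h2 := (oF_iff _).1 h1
  rwa [← e_P (t := t), oc_port l.mt] at h2

/-- **the fill of a loop whose cells off the region are in the columns `≤ j`** -/
theorem fillT {t : Fin 3} (ht : t ≠ 0) {δ : VX →₀ Cell} (l : Lp (Gt j r t) δ) (lv : ∃ v, v ∉ Rg j r ∧ δ v ≠ .o)
    (us : Us1 j r δ) (off : ∀ p : Pt, (some p : VX) ∉ Rg j r → δ (some p) ≠ .o → p.1 ≤ j) :
    ∃ f : Cell, (f = .v ∨ f = .sw ∨ f = .nw) ∧ Lp g0 (upc j r δ (.o, f, .o)) := by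
  have hc := conn_lp l lv
  have hc' : conn t ![δ none, δ (some (j, r)), δ (some (j + 1, r))] = some (qF t (cF j r δ)) := hc
  obtain ⟨g, he⟩ := conn_eq.1 hc'
  have fr : ∀ (a : Fin 6) (p : Pt) (d : Dir), L.P j r a = (some p, d) → ¬ p.1 ≤ j → (some p : VX) ∉ Rg j r →
      oF (cF j r δ) (L.st t a) = false := by
    intro a p d ha hp hR
    refine port_free l fun h => ?_
    rw [ha] at h
    refine hp (off p hR fun h0 => ?_)
    unfold oc at h
    simp only at h
    rw [h0] at h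
    exact h rfl
  obtain ⟨f, hf, h2⟩ := chkR ht g
    (fr 1 (j + 1, r - 1) .N rfl (by simp) (by simp [Rg]))
    (fr 3 (j + 2, r) .W rfl (by simp) (by simp [Rg]))
    (fr 5 (j + 1, r + 1) .S rfl (by simp) (by simp [Rg])) (by
      obtain ⟨v, hv, h0⟩ := us
      intro e
      simp only [Prod.mk.injEq] at e
      rcases hv with rfl | rfl | rfl
      · exact h0 e.1
      · exact h0 e.2.1
      · exact h0 e.2.2)
  rw [he] at h2
  exact ⟨f, hf, fill_of (t' := 0) l lv h2⟩

theorem fillR {s : ℤ} (hs : s = r ∨ s = r + 1) {δ : VX →₀ Cell} (l : Lp (gX j s) δ) (lv : ∃ v, v ∉ Rg j r ∧ δ v ≠ .o)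
    (ex : ExR j r (fam1 δ) ()) : ∃ f : Cell, (f = .v ∨ f = .sw ∨ f = .nw) ∧ Lp g0 (upc j r δ (.o, f, .o)) := by
  rcases hs with rfl | rfl
  · exact fillT (t := 2) (by decide) l lv ex.1 ex.2
  · exact fillT (t := 1) (by decide) l lv ex.1 ex.2

end

end Pool.Agent.ROT.X
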