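import Pool.Agent.ROT.UStep2
import Pool.Agent.ROT.XFinDefs

/-!
# UNIV, exact side, row R3 (helper41): from finite types of tracers and points to `Fin m`

* **`po_pot`** : the pattern function `WSys.PO` of `instU` = `POT` for the tracers `↥J`, the points `{l // l ∉ J}`;
* `po_upd`, **`inc_pot`** : updated objects, the exact increment;
* **`inc2_of`** : (INC2) of `instU` from `IncT T P` for all finite types.
-/

set_option autoImplicit false

open Filter Topology

namespace Pool.Agent.ROT.X

open Pool.Agent.ROT.E (Cell Pt Cfg)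
open Pool.Agent.ROT.E.Hx (hs)
open Pool.Agent.ROT.I (Lps)
open Pool.Agent.ROT.A (PSys Z2)
open Pool.Agent.ROT.A6 (HLs Ins)
open Pool.Agent.ROT.U (hexU instU qx bb dd lat MU WSys D1)

noncomputable section

variable {m : ℕ}

/-- **the pattern function of `instU` in terms of types** -/
theorem po_pot (k : ℤ) (n : ℕ) (π : Fin m → Bool) (J : Finset (Fin m)) (x : Fin m → Z2) (F : Fin m → HLs → ℝ) :
    instU.PO (instU.wt k) n π (U.St.Ob (S := hexU) J x F) =
      POT (lat bb k) n (fun i : ↥J => π i) (fun l : {l // l ∉ J} => π l) (fun l : {l // l ∉ J} => x l)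
        fun i : ↥J => F i := by
  classical
  unfold WSys.PO POT
  refine tsum_congr fun w => ?_
  show MU (lat bb k) w.1 * _ = MU (lat bb k) w.1 * _
  congr 1
  rw [← Finset.prod_mul_prod_compl J, mul_comm]
  congr 1
  · have e1 : ∀ i, i ∉ J → instU.fac n w (π i) (U.St.Ob (S := hexU) J x F i) =
        if E.sg w.1 (x i).1 (x i).2 = 1 ↔ π i = true then 1 else 0 := fun i hi => by
      unfold U.St.Ob
      rw [if_neg hi]
      unfold WSys.fac
      exact if_congr Iff.rfl rfl rfl
    split_ifs with h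
    · refine Finset.prod_eq_one fun i hi => ?_
      have hi' := Finset.mem_compl.1 hi
      rw [e1 i hi']
      exact if_pos (h ⟨i, hi'⟩)
    · obtain ⟨l, hl⟩ := not_forall.1 h
      refine Finset.prod_eq_zero (Finset.mem_compl.2 l.2) ?_
      rw [e1 l.1 l.2]
      exact if_neg hl
  · rw [← Finset.prod_coe_sort]
    refine Finset.prod_congr rfl fun i _ => ?_
    unfold U.St.Ob
    rw [if_pos i.2]
    unfold WSys.fac
    exact Finset.sum_congr rfl fun v _ => if_congr Iff.rfl rfl rfl

/-- restriction of an updated family -/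
lemma upd_sub {J : Finset (Fin m)} (F : Fin m → HLs → ℝ) {i : Fin m} (hi : i ∈ J) (f : HLs → ℝ) :
    (fun l : ↥J => Function.update F i f l) = by
      classical exact Function.update (fun l : ↥J => F l) (⟨i, hi⟩ : ↥J) f := by
  classical
  funext l
  by_cases h : l = ⟨i, hi⟩
  · rw [h]
    simp
  · have h' : (l : Fin m) ≠ i := fun e => h (Subtype.ext e)
    rw [Function.update_of_ne h']
    symm
    convert Function.update_of_ne h f (fun l : ↥J => F l)

/-- the update of one object -/
lemma po_upd (k : ℤ) (n : ℕ) (π : Fin m → Bool) (J : Finset (Fin m)) (x : Fin m → Z2) (F : Fin m → HLs → ℝ) {i : Fin m}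
    (hi : i ∈ J) (f : HLs → ℝ) :
    instU.PO (instU.wt k) n π (Function.update (U.St.Ob (S := hexU) J x F) i (.inr f)) =
      POT (lat bb k) n (fun i : ↥J => π i) (fun l : {l // l ∉ J} => π l) (fun l : {l // l ∉ J} => x l)
        (by classical exact Function.update (fun l : ↥J => F l) (⟨i, hi⟩ : ↥J) f) := by
  rw [U.St.Ob_update (S := hexU) x F hi f, po_pot]
  exact congrArg (POT (lat bb k) n (fun i : ↥J => π i) (fun l : {l // l ∉ J} => π l) fun l : {l // l ∉ J} => x l) (upd_sub F hi f)

/-- **the exact increment in terms of types** -/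
theorem inc_pot (N : ℕ) (k : ℤ) (n : ℕ) (π : Fin m → Bool) (J : Finset (Fin m)) (G : Fin m → (Fin 4 → ℝ) → ℝ) (x : Fin m → Z2) :
    instU.PO (instU.wt (k + 1)) n π (WSys.ob hexU N J G x) - instU.PO (instU.wt k) n π (WSys.ob hexU N J G x) -
      ∑ i ∈ J, (instU.PO (instU.wt k) n π (Function.update (WSys.ob hexU N J G x) i (.inr (WSys.rK hexU N (G i)))) +
        instU.PO (instU.wt (k + 1)) n π (Function.update (WSys.ob hexU N J G x) i (.inr (WSys.rL hexU N (G i))))) =
    POT (lat bb (k + 1)) n (fun i : ↥J => π i) (fun l : {l // l ∉ J} => π l) (fun l : {l // l ∉ J} => x l)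
        (gT N fun i : ↥J => G i) -
      POT (lat bb k) n (fun i : ↥J => π i) (fun l : {l // l ∉ J} => π l) (fun l : {l // l ∉ J} => x l)
        (gT N fun i : ↥J => G i) -
      ∑ i : ↥J, by classical exact
        (POT (lat bb k) n (fun i : ↥J => π i) (fun l : {l // l ∉ J} => π l) (fun l : {l // l ∉ J} => x l)
          (Function.update (gT N fun i : ↥J => G i) i (rhoK N (G i))) +
        POT (lat bb (k + 1)) n (fun i : ↥J => π i) (fun l : {l // l ∉ J} => π l) (fun l : {l // l ∉ J} => x l)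
          (Function.update (gT N fun i : ↥J => G i) i (rhoF N (G i)))) := by
  classical
  have e0 : WSys.ob hexU N J G x = U.St.Ob (S := hexU) J x fun i v => G i (hexU.hN N v) := rfl
  rw [e0, po_pot, po_pot, ← Finset.sum_coe_sort J]
  congr 1
  refine Finset.sum_congr rfl fun i _ => ?_
  rw [po_upd k n π J x _ i.2, po_upd (k + 1) n π J x _ i.2]
  congr 3

/-- the pattern is not trivial -/
lemma nts_of {π : Fin m → Bool} (h : PSys.NT π) (J : Finset (Fin m)) :
    NTs (fun i : ↥J => π i) (fun l : {l // l ∉ J} => π l) := by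
  classical
  have key : ∀ i : Fin m, ∃ a : ↥J ⊕ {l // l ∉ J}, Sum.elim (fun i : ↥J => (i : Fin m)) (fun l : {l // l ∉ J} => (l : Fin m)) a = i ∧
      Sum.elim (fun i : ↥J => π i) (fun l : {l // l ∉ J} => π l) a = π i := by
    intro i
    by_cases hi : i ∈ J
    · exact ⟨Sum.inl ⟨i, hi⟩, rfl, rfl⟩
    · exact ⟨Sum.inr ⟨i, hi⟩, rfl, rfl⟩
  obtain ⟨⟨i, j, hij, hi, hj⟩, l, hl⟩ := h
  obtain ⟨a, a1, a2⟩ := key i
  obtain ⟨b, b1, b2⟩ := key j
  obtain ⟨c, c1, c2⟩ := key l
  exact ⟨⟨a, b, fun e => hij (by rw [← a1, ← b1, e]), a2.trans hi, b2.trans hj⟩, c, c2.trans hl⟩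

/-- admissible data -/
lemma admX_of {N : ℕ} {K δ Λ κ d : ℝ} {k : ℤ} {J : Finset (Fin m)} {G : Fin m → (Fin 4 → ℝ) → ℝ} {x : Fin m → Z2}
    (h : WSys.Adm N K δ Λ κ d k J G x) :
    AdmX N K δ Λ κ d k (fun i : ↥J => G i) fun l : {l // l ∉ J} => x l :=
  ⟨h.kk, fun l => h.pt l l.2, fun i => h.tf i i.2, fun i => h.rt i i.2,
    fun l l' hl => h.pp l l' l.2 l'.2 fun e => hl (Subtype.ext e),
    fun i j hij => h.tt i i.2 j j.2 fun e => hij (Subtype.ext e)⟩

/-- the update does not depend on the decision procedure -/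
lemma upd_inst {T : Type} {β : T → Type*} (i1 i2 : DecidableEq T) (f : ∀ a, β a) (i : T) (a : β i) :
    @Function.update T β i1 f i a = @Function.update T β i2 f i a := by
  have e : i1 = i2 := by
    funext x y
    exact Subsingleton.elim _ _
  rw [e]

/-- **R3**: from the types to `Fin m` -/
theorem inc2_of (H : ∀ (T P : Type) [Fintype T] [Fintype P], IncT T P) : instU.INC2 := by
  classical
  intro m π K δ Λ κ d ε hπ hδ hκ hd hε
  choose N0 hN0 using fun J : Finset (Fin m) =>
    H ↥J {l // l ∉ J} (fun i => π i) (fun l => π l) K δ Λ κ d ε (nts_of hπ J) hδ hκ hd hε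
  refine ⟨Finset.univ.sup N0, fun N hN k n J G x hn hA => ?_⟩
  have h3 := hN0 J N ((Finset.le_sup (Finset.mem_univ J)).trans hN) k (fun i : ↥J => G i) (fun l : {l // l ∉ J} => x l)
    (admX_of hA) n hn
  rw [inc_pot]
  refine le_of_eq_of_le (congrArg abs (congrArg₂ (fun a b : ℝ => a - b) rfl (Finset.sum_congr rfl fun i _ => ?_))) h3
  exact congrArg₂ (fun a b : ℝ => a + b) (congrArg (POT (lat bb k) n (fun i : ↥J => π i) (fun l : {l // l ∉ J} => π l)
    fun l : {l // l ∉ J} => x l) (upd_inst _ _ _ _ _)) (congrArg (POT (lat bb (k + 1)) n (fun i : ↥J => π i)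
    (fun l : {l // l ∉ J} => π l) fun l : {l // l ∉ J} => x l) (upd_inst _ _ _ _ _))

end

end Pool.Agent.ROT.X
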