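import Pool.Agent.ROT.XPot
import Pool.Agent.ROT.XFinDefs

/-!
# UNIV, exact side, row XIncT (helper60): the increment for finite types of tracers

**`incT_of`** : `IncA T P` (the increment in the box), the masses of the lattices `LatJ` (`U.NearM LatJ`) and the backward
differences `XBack T P` give `IncT T P`.
-/

set_option autoImplicit false

namespace Pool.Agent.ROT.X

open Filter Topology
open Pool.Agent.ROT.E (Cell Pt Cfg)
open Pool.Agent.ROT.E.Hx (HL hs)
open Pool.Agent.ROT.I (Lps)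
open Pool.Agent.ROT.A6 (HLs Ins)
open Pool.Agent.ROT.L
open Pool.Agent.ROT.U (hexU qx bb dd lat D1 MU Tf1)

noncomputable section

variable {T P : Type} [Fintype T]

omit [Fintype T] in
theorem dn_co_emb (γ : E.Fm (Option T)) (i : Option T) : dn (co (emb γ) i) = E.co γ i := by
  ext1 v
  rw [dn_apply, co_emb]

omit [Fintype T] in
open Classical in
/-- the pattern on the families of the lattice -/
theorem chi0_emb (πT : T → Bool) (πP : P → Bool) (x : P → Pt) (γ : E.Fm (Option T)) :
    chi0 πT πP x (emb γ) = if ChiF πT πP x γ then 1 else 0 := by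
  unfold chi0
  refine if_congr ?_ rfl rfl
  rw [dn_co_emb, dn_emb]
  rfl

omit [Fintype T] in
theorem chi0_le (πT : T → Bool) (πP : P → Bool) (x : P → Pt) (γ : FX (Option T)) : |chi0 πT πP x γ| ≤ 1 := by
  unfold chi0
  split_ifs <;> simp

/-- `POT` and `PT` -/
theorem pot_PT (u : ℤ → ℝ) (n : ℕ) (πT : T → Bool) (πP : P → Bool) (x : P → Pt) {g : T → HLs → ℝ} {F : T → Cfg → ℝ}
    (h : ∀ i v, g i v = F i v.1) : POT u n πT πP x g = PT u n πT πP x F := by
  unfold POT PT
  simp only [h]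

theorem pot_F0 (u : ℤ → ℝ) (n : ℕ) (πT : T → Bool) (πP : P → Bool) (x : P → Pt) (N : ℕ) (G : T → (Fin 4 → ℝ) → ℝ) :
    POT u n πT πP x (gT N G) = PT u n πT πP x (F0 N G) := pot_PT _ _ _ _ _ fun _ _ => rfl

theorem pot_FK [DecidableEq T] (u : ℤ → ℝ) (n : ℕ) (πT : T → Bool) (πP : P → Bool) (x : P → Pt) (N : ℕ)
    (G : T → (Fin 4 → ℝ) → ℝ) (i : T) : POT u n πT πP x (Function.update (gT N G) i (rhoK N (G i))) =
      PT u n πT πP x (Function.update (F0 N G) i (FK N (G i))) := by
  refine pot_PT _ _ _ _ _ fun i' v => ?_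
  by_cases e : i' = i
  · subst e
    rw [Function.update_self, Function.update_self]
    rfl
  · rw [Function.update_of_ne e, Function.update_of_ne e]
    rfl

theorem pot_FL [DecidableEq T] (u : ℤ → ℝ) (n : ℕ) (πT : T → Bool) (πP : P → Bool) (x : P → Pt) (N : ℕ)
    (G : T → (Fin 4 → ℝ) → ℝ) (i : T) : POT u n πT πP x (Function.update (gT N G) i (rhoL N (G i))) =
      PT u n πT πP x (Function.update (F0 N G) i (FL N (G i))) := by
  refine pot_PT _ _ _ _ _ fun i' v => ?_
  by_cases e : i' = i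
  · subst e
    rw [Function.update_self, Function.update_self]
    rfl
  · rw [Function.update_of_ne e, Function.update_of_ne e]
    rfl

omit [Fintype T] in
/-- the hypotheses of `xpot` -/
theorem hyp_of {N : ℕ} {K δ Λ κ d : ℝ} {k : ℤ} {πT : T → Bool} {πP : P → Bool} {G : T → (Fin 4 → ℝ) → ℝ} {x : P → Pt}
    (hπ : NTs πT πP) (hA : AdmX N K δ Λ κ d k G x) (h1 : 1 ≤ N) (hκ : 3 ≤ κ * N) (hd : 5 ≤ d * N) :
    Hyp N K δ Λ κ d k πT πP G x where
  tf := hA.tf
  rt := hA.rt
  tt := hA.tt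
  pt l := (hA.pt l).2
  one := by
    obtain ⟨⟨a, -, -, ha, -⟩, -⟩ := hπ
    rcases a with i | l
    · exact Or.inr ⟨i, ha⟩
    · exact Or.inl ⟨l, ha⟩
  zer := by
    obtain ⟨-, a, ha⟩ := hπ
    rcases a with i | l
    · exact Or.inr ⟨i, ha⟩
    · exact Or.inl ⟨l, ha⟩
  N1 := h1
  Nκ := hκ
  Nd := hd

/-- a multiple of `N` is large -/
private theorem large {c : ℝ} (hc : 0 < c) (a : ℝ) : ∃ N0 : ℕ, ∀ N : ℕ, N0 ≤ N → a ≤ c * N := by
  obtain ⟨N0, h0⟩ := exists_nat_ge (a / c)
  refine ⟨N0, fun N hN => ?_⟩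
  have h1 : a / c ≤ N := h0.trans (by exact_mod_cast hN)
  rw [div_le_iff₀ hc] at h1
  linarith

/-- **from the increment in the box to the increment of the pattern functions** -/
theorem incT_of (hn : U.NearM LatJ) (hA : IncA T P) (hB : XBack T P) : IncT T P := by
  classical
  intro πT πP K δ Λ κ d ε hπ hδ hκ hd hε
  have hc : (0 : ℝ) < Fintype.card T + 1 := by positivity
  have hε1 : 0 < ε / 2 := half_pos hε
  have hε2 : 0 < ε / 2 / (Fintype.card T + 1) := div_pos hε1 hc
  obtain ⟨N1, h1⟩ := hA πT πP K δ Λ κ d (ε / 2) hπ hδ hκ hd hε1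
  obtain ⟨N2, h2⟩ := hB πT πP K δ Λ κ d (ε / 2 / (Fintype.card T + 1)) hπ hδ hκ hd hε2
  obtain ⟨N3, h3⟩ := large hκ 3
  obtain ⟨N4, h4⟩ := large hd 5
  refine ⟨max (max N1 N2) (max (max N3 N4) 1), fun N hN k G x hx n hn' => ?_⟩
  have g1 : N1 ≤ N := (le_max_left _ _).trans ((le_max_left _ _).trans hN)
  have g2 : N2 ≤ N := (le_max_right _ _).trans ((le_max_left _ _).trans hN)
  have g3 : N3 ≤ N := (le_max_left _ _).trans ((le_max_left _ _).trans ((le_max_right _ _).trans hN))
  have g4 : N4 ≤ N := (le_max_right _ _).trans ((le_max_left _ _).trans ((le_max_right _ _).trans hN))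
  have g5 : 1 ≤ N := (le_max_right _ _).trans ((le_max_right _ _).trans hN)
  have n0 : (0 : ℝ) < N := by exact_mod_cast g5
  have H : Hyp N K δ Λ κ d k πT πP G x := hyp_of hπ hx g5 (h3 N g3) (h4 N g4)
  have main := xpot hn H hn' (chi0_le πT πP x) (fun γ _ => chi0_emb πT πP x γ) (e := ε / 2 / N) (by
    filter_upwards [eventually_ge_atTop k] with j hj
    obtain ⟨B0, hB0⟩ := h1 N g1 k G x hx j hj
    filter_upwards [eventually_ge_atTop B0] with B hB'
    exact hB0 B hB')
  have hb : ∀ i, |POT (lat bb (k + 1)) n πT πP x (Function.update (gT N G) i (rhoL N (G i))) -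
      POT (lat bb (k + 1)) n πT πP x (Function.update (gT N G) i (rhoF N (G i)))| ≤ ε / 2 / (Fintype.card T + 1) / N := by
    intro i
    have := h2 N g2 k G x hx n i
    convert this
  have hs : |∑ i, (POT (lat bb (k + 1)) n πT πP x (Function.update (gT N G) i (rhoL N (G i))) -
      POT (lat bb (k + 1)) n πT πP x (Function.update (gT N G) i (rhoF N (G i))))| ≤ ε / 2 / N := by
    refine (Finset.abs_sum_le_sum_abs _ _).trans ((Finset.sum_le_sum fun i _ => hb i).trans ?_)
    rw [Finset.sum_const, Finset.card_univ, nsmul_eq_mul]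
    have e1 : (Fintype.card T : ℝ) * (ε / 2 / (Fintype.card T + 1) / N) =
        (Fintype.card T / (Fintype.card T + 1)) * (ε / 2 / N) := by ring
    rw [e1]
    have e2 : (Fintype.card T : ℝ) / (Fintype.card T + 1) ≤ 1 := by
      rw [div_le_one hc]
      linarith
    calc _ ≤ 1 * (ε / 2 / N) := mul_le_mul_of_nonneg_right e2 (by positivity)
      _ = _ := one_mul _
  have eK : ∀ i, PT (lat bb k) n πT πP x (Function.update (F0 N G) i (FK N (G i))) =
      POT (lat bb k) n πT πP x (Function.update (gT N G) i (rhoK N (G i))) := fun i => (pot_FK _ _ _ _ _ _ _ _).symm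
  have eL : ∀ i, PT (lat bb (k + 1)) n πT πP x (Function.update (F0 N G) i (FL N (G i))) =
      POT (lat bb (k + 1)) n πT πP x (Function.update (gT N G) i (rhoL N (G i))) := fun i => (pot_FL _ _ _ _ _ _ _ _).symm
  simp only [eK, eL, ← pot_F0] at main
  rw [Finset.sum_sub_distrib] at hs
  rw [Finset.sum_add_distrib]
  have e3 : ε / N = ε / 2 / N + ε / 2 / N := by ring
  rw [e3]
  rw [abs_le] at main hs ⊢
  constructor <;> linarith [main.1, main.2, hs.1, hs.2]

end

end Pool.Agent.ROT.X
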