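import Pool.Agent.ROT.XSideS
import Pool.Agent.ROT.XDefs3
import Pool.Agent.ROT.XEnds
import Pool.Agent.ROT.A6M

/-!
# UNIV, exact side, row X9 (helper25): the mass with the coefficients in a window

* `cross` : a loop with cells on both sides of a line `≠ j + 1` has an edge on it; `sepd_win` : a wide loop of a window
  separates objects of the ball (`Sepd` of XDefs3);
* `win_sum` : honeycomb loops of a window with the ratio product of the last column;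
* **`massC : MassU → MassS → MassC`**.
-/

set_option autoImplicit false

namespace Pool.Agent.ROT.X

open Pool.Agent.EXL (Wt YB)
open Pool.Agent.YBC (Dir)
open Pool.Agent.UNI (wR)
open Pool.Agent.ROT.E (Cell IsUn Pt Cfg nx)
open Pool.Agent.ROT.L
open Pool.Agent.ROT.E.Hx (HL trc hs Ny nE MassU)
open Pool.Agent.ROT.A6 (HLs wr crd hc trE)
open Pool.Agent.ROT.U (qx m3 bb rc)

noncomputable section

variable {j s r : ℤ} {δ : VX →₀ Cell} {f : Cell}

/-! ### lines crossed by a loop -/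

/-- left of the line `m` -/
def LfX (j m : ℤ) : VX → Prop
  | none => j + 1 < m
  | some p => p.1 < m

theorem lf_link {m : ℤ} (hm : m ≠ j + 1) (mt : Mt (gX j s) δ Set.univ) (h0 : ∀ y, ¬ hz δ m y) {h : VX × Dir} (ho : oc δ h) :
    LfX j m h.1 ↔ LfX j m ((gX j s).e h).1 := by
  obtain ⟨v, d⟩ := h
  obtain _ | ⟨a, b⟩ := v
  · cases d
    · exact Iff.rfl
    · exact Iff.rfl
    · show j + 1 < m ↔ j < m
      omega
    · show j + 1 < m ↔ j < m
      omega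
  · cases d
    · show a < m ↔ a + 1 < m
      have h1 : a + 1 ≠ m := fun e => h0 b (by
        have h2 := (edge_h mt a b).1 ho
        rw [e] at h2
        exact h2)
      omega
    · show a < m ↔ LfX j m (eX j s (some (a, b), .N)).1
      simp only [eX, Prod.mk.injEq]
      split_ifs with h1 h2
      · show a < m ↔ j + 1 < m
        omega
      · show a < m ↔ j + 1 < m
        omega
      · exact Iff.rfl
    · show a < m ↔ a - 1 < m
      have h1 : a ≠ m := fun e => h0 b (by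
        rw [← e]
        exact ho)
      omega
    · show a < m ↔ LfX j m (eX j s (some (a, b), .S)).1
      simp only [eX, Prod.mk.injEq]
      split_ifs with h1 h2
      · show a < m ↔ j + 1 < m
        omega
      · show a < m ↔ j + 1 < m
        omega
      · exact Iff.rfl

/-- **the crossed lines** -/
theorem cross {m : ℤ} (hm : m ≠ j + 1) (l : Lp (gX j s) δ) {p q : Pt} (hp : δ (some p) ≠ .o) (hq : δ (some q) ≠ .o)
    (h1 : p.1 < m) (h2 : m ≤ q.1) : ∃ y, hz δ m y := by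
  by_contra hc
  push Not at hc
  have key : ∀ h k, Cn (gX j s) δ Set.univ h k → (LfX j m h.1 ↔ LfX j m k.1) := by
    intro h k c
    induction c with
    | rel h k l' =>
      rcases l'.2.2 with rfl | ⟨rfl, -⟩
      · exact Iff.rfl
      · exact lf_link hm l.mt hc l'.1
    | refl h => exact Iff.rfl
    | symm h k _ ih => exact ih.symm
    | trans h k l' _ _ ih1 ih2 => exact ih1.trans ih2
  obtain ⟨d, hd⟩ := ex_side hp
  obtain ⟨d', hd'⟩ := ex_side hq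
  have h3 : q.1 < m := (key _ _ (l.cn (some p, d) (some q, d') hd hd')).1 h1
  omega

/-- the top edge of a line -/
theorem sg_top {m : ℤ} (h : ∃ y, hz δ m y) : ∃ y, hz δ m y ∧ sgx δ m y = 1 := by
  have hf := hz_fin δ m
  obtain ⟨y, hy, hm⟩ := Set.exists_max_image _ (fun y : ℤ => y) hf h
  refine ⟨y, hy, ?_⟩
  have e : {y' : ℤ | y ≤ y' ∧ hz δ m y'} = {y} := by
    ext y'
    simp only [Set.mem_ofPred_eq, Set.mem_singleton_iff]
    constructor
    · rintro ⟨h1, h2⟩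
      exact le_antisymm (hm y' h2) h1
    · rintro rfl
      exact ⟨le_rfl, hy⟩
  unfold sgx
  rw [e, Set.ncard_singleton]
  rfl

/-- no edge above -/
theorem sg_zero {m y : ℤ} (h : ∀ y', y ≤ y' → ¬ hz δ m y') : sgx δ m y = 0 := by
  have e : {y' : ℤ | y ≤ y' ∧ hz δ m y'} = ∅ := by
    ext y'
    simp only [Set.mem_ofPred_eq, Set.mem_empty_iff_false, iff_false, not_and]
    exact h y'
  unfold sgx
  rw [e, Set.ncard_empty]
  rfl

/-- **a wide loop of a window separates** -/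
theorem sepd_win (l : Lp (gX j s) δ) {k K n D : ℤ} (w : Win k K n δ) (hn : 4 ≤ n) (hD : D + 3 ≤ n) (hK : 0 ≤ K) :
    Sepd j D (K + 2) δ := by
  obtain ⟨w1, p, q, hp, hq, hw⟩ := w
  obtain ⟨-, b1, b2⟩ := w1 p hp
  obtain ⟨-, b3, b4⟩ := w1 q hq
  rw [abs_le] at b1 b2 b3 b4
  obtain ⟨m1, hm1, a1, a2, a3⟩ : ∃ m1 : ℤ, m1 ≠ j + 1 ∧ p.1 < m1 ∧ m1 ≤ p.1 + 2 ∧ m1 ≤ q.1 := by
    by_cases h : p.1 + 1 = j + 1
    · exact ⟨p.1 + 2, by omega, by omega, by omega, by omega⟩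
    · exact ⟨p.1 + 1, h, by omega, by omega, by omega⟩
  obtain ⟨m2, hm2, c1, c2, c3⟩ : ∃ m2 : ℤ, m2 ≠ j + 1 ∧ p.1 < m2 ∧ q.1 - 1 ≤ m2 ∧ m2 ≤ q.1 := by
    by_cases h : q.1 = j + 1
    · exact ⟨q.1 - 1, by omega, by omega, by omega, by omega⟩
    · exact ⟨q.1, h, by omega, by omega, by omega⟩
  obtain ⟨y1, d1, e1⟩ := sg_top (cross hm1 l hp hq a1 a3)
  obtain ⟨y2, d2, e2⟩ := sg_top (cross hm2 l hp hq c1 c3)
  have f1 := (w1 (m1, y1) (oc_zero d1)).2.2
  have f2 := (w1 (m2, y2) (oc_zero d2)).2.2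
  simp only at f1 f2
  have f3 : sgx δ m1 (K + 1) = 0 := sg_zero fun y' h1 h2 => by
    have := (w1 (m1, y') (oc_zero h2)).2.2
    simp only at this
    rw [abs_le] at this
    omega
  refine ⟨m1, y1, m2, y2, m1, K + 1, ⟨?_, ?_, ?_, ?_, ?_, ?_⟩, ⟨hm1, hm2, hm1⟩, by omega, e1, e2, f3⟩
  · rw [abs_le]; constructor <;> omega
  · omega
  · rw [abs_le]; constructor <;> omega
  · omega
  · rw [abs_le]; constructor <;> omega
  · rw [abs_le]; constructor <;> omega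

/-! ### window sums -/

open Classical in
/-- **the loops of a window** -/
theorem win_sum (hU : MassU) : ∃ C : ℝ, 0 < C ∧ ∀ (a : Pt) (M n : ℤ), 1 ≤ n → 0 ≤ M → ∀ T : Finset HLs,
    (∀ p ∈ T, |hc p.1 0 - a.1| ≤ M ∧ |hc p.1 2 - a.2| ≤ M ∧ n ≤ hc p.1 1 - hc p.1 0) →
    ∑ p ∈ T, wr p * qx bb p.1 1 ≤ C * (2 * (M : ℝ) + 1) ^ 2 / (n : ℝ) ^ 2 := by
  obtain ⟨C, hC, key⟩ := U.uiS hU
  refine ⟨C, hC, fun a M n hn hM T hT => ?_⟩
  have e1 : ∀ p : HLs, wr p * qx bb p.1 1 = wr (nmz p) * qx bb (nmz p).1 1 := by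
    intro p
    unfold nmz
    rw [wr_tr]
    show _ = wr p * qx bb (trc _ p.1) 1
    rw [U.qx_trc bb p.2]
  have q1 : ∀ p : HLs, 1 ≤ qx bb p.1 1 := fun p => U.one_le_qb p.2 1
  have e2 : ∑ p ∈ T, wr p * qx bb p.1 1 = ∑ σ ∈ T.image nmz, ∑ p ∈ T with nmz p = σ, wr p * qx bb p.1 1 :=
    (Finset.sum_fiberwise_of_maps_to (fun p hp => Finset.mem_image_of_mem _ hp) _).symm
  have h3 : ∀ σ ∈ T.image nmz, ∑ p ∈ T with nmz p = σ, wr p * qx bb p.1 1 ≤
      (2 * (M : ℝ) + 1) ^ 2 * (wr σ * m3 (qx bb σ.1 1)) := by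
    intro σ _
    have a1 : ∑ p ∈ T with nmz p = σ, wr p * qx bb p.1 1 = ((T.filter fun p => nmz p = σ).card : ℝ) * (wr σ * qx bb σ.1 1) := by
      rw [Finset.sum_congr rfl fun p hp => by rw [e1 p, (Finset.mem_filter.1 hp).2], Finset.sum_const, nsmul_eq_mul]
    have a2 : (T.filter fun p => nmz p = σ).card ≤
        (Finset.Icc (a.1 - M) (a.1 + M) ×ˢ Finset.Icc (a.2 - M) (a.2 + M)).card := by
      refine Finset.card_le_card_of_injOn (fun p => (hc p.1 0, hc p.1 2)) (fun p hp => ?_) fun p hp p' hp' h => ?_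
      · rw [Finset.mem_coe, Finset.mem_filter] at hp
        obtain ⟨b1, b2, -⟩ := hT p hp.1
        rw [abs_le] at b1 b2
        rw [Finset.mem_coe, Finset.mem_product, Finset.mem_Icc, Finset.mem_Icc]
        exact ⟨⟨by simp only; omega, by simp only; omega⟩, by simp only; omega, by simp only; omega⟩
      · rw [Finset.mem_coe, Finset.mem_filter] at hp hp'
        simp only [Prod.mk.injEq] at h
        exact nmz_inj (hp.2.trans hp'.2.symm) h.1 h.2
    have a3 : (((Finset.Icc (a.1 - M) (a.1 + M) ×ˢ Finset.Icc (a.2 - M) (a.2 + M)).card : ℕ) : ℝ) = (2 * (M : ℝ) + 1) ^ 2 := by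
      rw [Finset.card_product, Int.card_Icc, Int.card_Icc]
      have c1 : (((a.1 + M + 1 - (a.1 - M)).toNat : ℕ) : ℝ) = 2 * (M : ℝ) + 1 := by
        have : (((a.1 + M + 1 - (a.1 - M)).toNat : ℕ) : ℤ) = 2 * M + 1 := by
          rw [Int.toNat_of_nonneg (by omega)]
          ring
        exact_mod_cast congrArg (fun z : ℤ => (z : ℝ)) this
      have c2 : (((a.2 + M + 1 - (a.2 - M)).toNat : ℕ) : ℝ) = 2 * (M : ℝ) + 1 := by
        have : (((a.2 + M + 1 - (a.2 - M)).toNat : ℕ) : ℤ) = 2 * M + 1 := by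
          rw [Int.toNat_of_nonneg (by omega)]
          ring
        exact_mod_cast congrArg (fun z : ℤ => (z : ℝ)) this
      push_cast
      rw [c1, c2]
      ring
    have w0 := A6.wr_nn σ
    have q0 : 0 ≤ qx bb σ.1 1 := zero_le_one.trans (q1 σ)
    have a4 : qx bb σ.1 1 ≤ m3 (qx bb σ.1 1) := by
      unfold m3
      have : (1 : ℝ) ≤ √(qx bb σ.1 1) := Real.one_le_sqrt.2 (q1 σ)
      nlinarith
    rw [a1]
    calc ((T.filter fun p => nmz p = σ).card : ℝ) * (wr σ * qx bb σ.1 1) ≤ (2 * (M : ℝ) + 1) ^ 2 * (wr σ * qx bb σ.1 1) := by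
          rw [← a3]
          exact mul_le_mul_of_nonneg_right (by exact_mod_cast a2) (mul_nonneg w0 q0)
      _ ≤ _ := mul_le_mul_of_nonneg_left (mul_le_mul_of_nonneg_left a4 w0) (by positivity)
  rw [e2]
  refine (Finset.sum_le_sum h3).trans ?_
  rw [← Finset.mul_sum]
  calc _ ≤ (2 * (M : ℝ) + 1) ^ 2 * (C / (n : ℝ) ^ 2) :=
        mul_le_mul_of_nonneg_left (key 1 n hn _ fun σ hσ => by
          obtain ⟨p, hp, rfl⟩ := Finset.mem_image.1 hσ
          obtain ⟨b1, b2, b3⟩ := hT p hp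
          obtain ⟨c0, c1, c2, c3⟩ := nmz_hc p
          exact ⟨c0, c2, Or.inl (by rw [c0, c1]; omega)⟩) (by positivity)
    _ = _ := by ring

open Classical in
/-- **loops of the square lattice in a window** -/
theorem win_G (hU : MassU) : ∃ C : ℝ, 0 < C ∧ ∀ (a : Pt) (M n : ℤ), 1 ≤ n → 0 ≤ M → ∀ T : Finset Cfg,
    (∀ γ ∈ T, (∀ v, γ v ≠ .o → |v.1 - a.1| ≤ M ∧ |v.2 - a.2| ≤ M) ∧ ∃ p q : Pt, γ p ≠ .o ∧ γ q ≠ .o ∧ p.1 + n ≤ q.1) →
    ∑ γ ∈ T, Gw γ ≤ C * (2 * (M : ℝ) + 1) ^ 2 / (n : ℝ) ^ 2 := by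
  obtain ⟨C, hC, key⟩ := win_sum hU
  refine ⟨C, hC, fun a M n hn hM T hT => ?_⟩
  have e4 : ∑ γ ∈ T, Gw γ = ∑ p ∈ T.subtype HL, wr p * qx bb p.1 1 := by
    have a1 : ∑ p ∈ T.subtype HL, Gw p.1 = ∑ γ ∈ T with HL γ, Gw γ := Finset.sum_subtype_eq_sum_filter _
    rw [← Finset.sum_filter_of_ne (p := HL), ← a1]
    · refine Finset.sum_congr rfl fun p _ => ?_
      unfold Gw
      rw [dif_pos p.2]
    · intro γ _ h
      by_contra hc
      exact h (dif_neg hc)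
  rw [e4]
  refine key a M n hn hM _ fun p hp => ?_
  rw [Finset.mem_subtype] at hp
  obtain ⟨b1, u, v, hu, hv, hw⟩ := hT p.1 hp
  obtain ⟨x, hx, ex⟩ := hL_mem (A6.supp_ne p.2)
  obtain ⟨y, hy, ey⟩ := hB_mem (A6.supp_ne p.2)
  refine ⟨?_, ?_, ?_⟩
  · show |hL p.1.support - a.1| ≤ M
    rw [← ex]
    exact (b1 x (A6.mem_supp.1 hx)).1
  · show |hB p.1.support - a.2| ≤ M
    rw [← ey]
    exact (b1 y (A6.mem_supp.1 hy)).2
  · have c1 : hc p.1 0 ≤ u.1 := hL_le (A6.mem_supp.2 hu)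
    have c2 : v.1 ≤ hc p.1 1 := le_hR (A6.mem_supp.2 hv)
    omega

/-! ### the right coefficient off the crossing -/

theorem lp_g0 (l : Lp (gX j s) δ) (h0 : δ none = .o) : Lp g0 δ :=
  fam1_lp.1 (famX_g0 (fam1_lp.2 l) (funext fun _ => h0))

theorem lp_dn (l : Lp (gX j s) δ) (h0 : δ none = .o) : E.Lp (dn δ) := by
  refine (lp_g0 l h0).dn ?_
  obtain ⟨v, hv⟩ := Finsupp.ne_iff.1 l.ne
  obtain _ | p := v
  · exact absurd h0 hv
  · exact ⟨p, hv⟩

theorem hc_dn : hc (dn δ) 1 = ht (fam1 δ) () 1 := by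
  have e : (dn δ).support = cl (fam1 δ) () := by
    ext v
    rw [Finsupp.mem_support_iff, dn_apply, mem_cl]
    rfl
  show L.hR (dn δ).support = L.hR (cl (fam1 δ) ())
  rw [e]

theorem cR_one (h : j < ht (fam1 δ) () 1) : cR j s (fam1 δ) () = 1 := by
  unfold cR lf
  refine Finset.prod_eq_one fun v _ => ?_
  obtain _ | ⟨x, y⟩ := v
  · show (if ht (fam1 δ) () 1 = j ∧ _ then _ else (1 : ℝ)) = 1
    exact if_neg fun h' => by omega
  · show (if x = ht (fam1 δ) () 1 ∧ (ht (fam1 δ) () 1 < j ∨ (ht (fam1 δ) () 1 = j ∧ s ≤ y)) then _ else (1 : ℝ)) = 1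
    exact if_neg fun h' => by omega

open Classical in
/-- **the weight times the right coefficient** is the honeycomb weight times the ratio product of the last column -/
theorem wcR (l : Lp (gX j s) δ) (h0 : δ none = .o) (hR : ht (fam1 δ) () 1 ≤ j) :
    |W1X (WH j s) δ| * |cR j s (fam1 δ) ()| = Gw (dn δ) := by
  have hl := lp_dn l h0
  have e0 : δ.support = (dn δ).support.map Function.Embedding.some := by
    ext v
    rw [Finsupp.mem_support_iff, Finset.mem_map]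
    constructor
    · intro hv
      rcases v with _ | v
      · exact absurd h0 hv
      · exact ⟨v, by rw [Finsupp.mem_support_iff, dn_apply]; exact hv, rfl⟩
    · rintro ⟨w, hw, rfl⟩
      rw [Finsupp.mem_support_iff, dn_apply] at hw
      exact hw
  have e1 : W1X (WH j s) δ * cR j s (fam1 δ) () =
      ((dn δ).prod fun _ c => c.wt (wR (Real.pi / 8))) * qx bb (dn δ) 1 := by
    unfold W1X cR lf
    rw [fam1_supp, ← Finset.prod_mul_distrib, e0, Finset.prod_map, Finsupp.prod]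
    unfold qx
    rw [Finset.prod_filter, ← Finset.prod_mul_distrib, hc_dn]
    refine Finset.prod_congr rfl fun v hv => ?_
    rw [Finsupp.mem_support_iff, dn_apply] at hv
    have h1 := (ht_in hv).2.1
    rw [dn_apply]
    show (δ (some v)).wt (WH j s (some v)) * thR j s (ht (fam1 δ) () 1) (some v) (δ (some v)) =
      (δ (some v)).wt (wR hA) * (if v.1 = ht (fam1 δ) () 1 then rt (δ (some v)) else 1)
    have h2 : thR j s (ht (fam1 δ) () 1) (some v) (δ (some v)) = if v.1 = ht (fam1 δ) () 1 ∧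
      (ht (fam1 δ) () 1 < j ∨ (ht (fam1 δ) () 1 = j ∧ s ≤ v.2)) then rt (δ (some v)) else 1 := rfl
    have h3 : WH j s (some v) = if v.1 = j then (if v.2 < s then wR bA else wR hA) else
      if v.1 = j + 1 then (if v.2 < s then wR hA else wR bA) else wR hA := rfl
    rw [h2, h3]
    by_cases h4 : v.1 = ht (fam1 δ) () 1
    · rw [if_pos h4]
      by_cases h5 : v.1 = j
      · rw [if_pos h5]
        by_cases h6 : v.2 < s
        · rw [if_pos h6, if_neg (by omega), mul_one]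
          have h7 : ¬ (δ (some v)).oc .E := fun h => by
            have h8 := (edge_h l.mt v.1 v.2).1 h
            have h9 := (ht_in (p := (v.1 + 1, v.2)) (oc_zero h8)).2.1
            simp only at h9
            omega
          have h8 : δ (some v) = .v ∨ δ (some v) = .sw ∨ δ (some v) = .nw := by
            have key : ∀ c : Cell, c ≠ .o → ¬ c.oc .E → c = .v ∨ c = .sw ∨ c = .nw := by decide
            exact key _ hv h7
          have h9 : (δ (some v)).wt (wR hA) ≠ 0 := (wt_pos hA_rg.1 hA_rg.2 h8).ne'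
          show (δ (some v)).wt (wR bA) = (δ (some v)).wt (wR hA) * ((δ (some v)).wt (wR bA) / (δ (some v)).wt (wR hA))
          field_simp
        · rw [if_neg h6, if_pos ⟨h4, by omega⟩]
      · rw [if_neg h5, if_neg (by omega), if_pos ⟨h4, by omega⟩]
    · rw [if_neg h4, if_neg (by omega), if_neg (by omega), if_neg fun h => h4 h.1]
  rw [← abs_mul, e1, E.Hx.prod_hex]
  by_cases hN : Ny (dn δ)
  · rw [if_pos hN]
    have hl : HL (dn δ) := ⟨hl, hN⟩
    unfold Gw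
    rw [dif_pos hl, abs_of_nonneg (mul_nonneg (pow_nonneg HexObs.xc_pos.le _) (zero_le_one.trans (U.one_le_qb hl 1)))]
    rfl
  · rw [if_neg hN, zero_mul, abs_zero]
    unfold Gw
    rw [dif_neg fun hl => hN hl.ny]

/-! ### the mass -/

/-- all cells in the box of radius `M` around `a` -/
def InW (a : Pt) (M : ℤ) (δ : VX →₀ Cell) : Prop := ∀ p : Pt, δ (some p) ≠ .o → |p.1 - a.1| ≤ M ∧ |p.2 - a.2| ≤ M

theorem InW.rot {a : Pt} {M : ℤ} (h : InW a M δ) : InW (2 * j + 1 - a.1, 2 * s - 1 - a.2) M (rot1 j s δ) := by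
  intro p hp
  have e : rot1 j s δ (some p) = (δ (some (2 * j + 1 - p.1, 2 * s - 1 - p.2))).pr := by
    rw [← rot1_some]
    congr 2
    ext
    · simp
    · simp
  rw [e] at hp
  have h1 := h _ fun h0 => hp (pr_o.2 h0)
  simp only at h1 ⊢
  rw [abs_le, abs_le] at h1 ⊢
  constructor <;> constructor <;> omega

theorem sz1_ge : |cR j s (fam1 δ) ()| ≤ sz1 j s δ := by
  unfold sz1
  have h1 := abs_nonneg (cL j s (fam1 δ) ())
  have h2 := abs_nonneg (cT j s (fam1 δ) ())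
  have h3 := abs_nonneg (cB j s (fam1 δ) ())
  linarith

open Classical in
/-- **the right coefficients in a window** -/
theorem massR (hU : MassU) : ∃ C : ℝ, 0 < C ∧ ∀ (j s : ℤ) (a : Pt) (M n : ℤ), 100 ≤ n → 0 ≤ M → ∀ S : Finset (VX →₀ Cell),
    (∀ δ ∈ S, Lp (gX j s) δ ∧ InW a M δ ∧ Wd n δ) →
    ∑ δ ∈ S, |W1X (WH j s) δ| * |cR j s (fam1 δ) ()| ≤ ∑ δ ∈ S, |W1X (WH j s) δ| + C * (2 * (M : ℝ) + 1) ^ 2 / (n : ℝ) ^ 2 := by
  obtain ⟨C1, hC1, key1⟩ := core hU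
  obtain ⟨C2, hC2, key2⟩ := win_G hU
  refine ⟨C1 + C2, by positivity, fun j s a M n hn hM S hS => ?_⟩
  have hn0 : (0 : ℝ) < (n : ℝ) ^ 2 := by
    have : (100 : ℝ) ≤ n := by exact_mod_cast hn
    positivity
  have hM1 : (1 : ℝ) ≤ (2 * (M : ℝ) + 1) ^ 2 := by
    have : (0 : ℝ) ≤ M := by exact_mod_cast hM
    nlinarith
  set F : (VX →₀ Cell) → ℝ := fun δ => |W1X (WH j s) δ| * |cR j s (fam1 δ) ()| with hF
  have s1 : ∑ δ ∈ S, F δ = ∑ δ ∈ S with j < ht (fam1 δ) () 1, F δ + ∑ δ ∈ S with ¬ j < ht (fam1 δ) () 1, F δ :=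
    (Finset.sum_filter_add_sum_filter_not S _ _).symm
  set S' := S.filter fun δ => ¬ j < ht (fam1 δ) () 1 with hS'
  have s2 : ∑ δ ∈ S', F δ = ∑ δ ∈ S' with δ none = .o, F δ + ∑ δ ∈ S' with ¬ δ none = .o, F δ :=
    (Finset.sum_filter_add_sum_filter_not S' _ _).symm
  have t1 : ∑ δ ∈ S with j < ht (fam1 δ) () 1, F δ ≤ ∑ δ ∈ S, |W1X (WH j s) δ| := by
    calc ∑ δ ∈ S with j < ht (fam1 δ) () 1, F δ = ∑ δ ∈ S with j < ht (fam1 δ) () 1, |W1X (WH j s) δ| := by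
          refine Finset.sum_congr rfl fun δ hδ => ?_
          show |W1X (WH j s) δ| * |cR j s (fam1 δ) ()| = _
          rw [cR_one (Finset.mem_filter.1 hδ).2, abs_one, mul_one]
      _ ≤ _ := Finset.sum_le_sum_of_subset_of_nonneg (Finset.filter_subset _ _) fun _ _ _ => abs_nonneg _
  have t2 : ∑ δ ∈ S' with ¬ δ none = .o, F δ ≤ C1 / (n : ℝ) ^ 2 := by
    refine le_trans (Finset.sum_le_sum fun δ _ => mul_le_mul_of_nonneg_left sz1_ge (abs_nonneg _)) ?_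
    refine key1 j s s n hn _ fun δ hδ => ?_
    rw [Finset.mem_filter, hS', Finset.mem_filter] at hδ
    obtain ⟨⟨h1, h2⟩, h3⟩ := hδ
    obtain ⟨a1, a2, a3⟩ := hS δ h1
    refine ⟨⟨Or.inl rfl, a1, ⟨none, Or.inl rfl, h3⟩, fun p _ hp => ?_⟩, a3⟩
    have := (ht_in hp).2.1
    omega
  have t3 : ∑ δ ∈ S' with δ none = .o, F δ ≤ C2 * (2 * (M : ℝ) + 1) ^ 2 / (n : ℝ) ^ 2 := by
    have inj : Set.InjOn (fun δ : VX →₀ Cell => (dn δ : Cfg)) ((S'.filter fun δ => δ none = .o : Finset (VX →₀ Cell)) : Set _) := by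
      intro δ h1 δ' h2 h
      rw [Finset.mem_coe, Finset.mem_filter] at h1 h2
      ext1 v
      obtain _ | p := v
      · rw [h1.2, h2.2]
      · rw [← dn_apply δ p, ← dn_apply δ' p]
        exact congrArg (fun γ : Cfg => γ p) h
    have e : ∑ δ ∈ S' with δ none = .o, F δ = ∑ γ ∈ (S'.filter fun δ => δ none = .o).image (fun δ => (dn δ : Cfg)), Gw γ := by
      rw [Finset.sum_image inj]
      refine Finset.sum_congr rfl fun δ hδ => ?_
      rw [Finset.mem_filter, hS', Finset.mem_filter] at hδ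
      exact wcR (hS δ hδ.1.1).1 hδ.2 (not_lt.1 hδ.1.2)
    rw [e]
    refine key2 a M n (by omega) hM _ fun γ hγ => ?_
    obtain ⟨δ, hδ, rfl⟩ := Finset.mem_image.1 hγ
    rw [Finset.mem_filter, hS', Finset.mem_filter] at hδ
    obtain ⟨a1, a2, p, q, hp, hq, hw⟩ := hS δ hδ.1.1
    exact ⟨fun v hv => a2 v (by rwa [dn_apply] at hv), p, q, by rwa [dn_apply], by rwa [dn_apply], hw⟩
  have t4 : C1 / (n : ℝ) ^ 2 ≤ C1 * (2 * (M : ℝ) + 1) ^ 2 / (n : ℝ) ^ 2 := by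
    rw [div_le_div_iff_of_pos_right hn0]
    nlinarith
  show ∑ δ ∈ S, F δ ≤ _
  rw [s1, s2]
  calc _ ≤ ∑ δ ∈ S, |W1X (WH j s) δ| + (C2 * (2 * (M : ℝ) + 1) ^ 2 / (n : ℝ) ^ 2 + C1 * (2 * (M : ℝ) + 1) ^ 2 / (n : ℝ) ^ 2) :=
        add_le_add t1 (add_le_add t3 (t2.trans t4))
    _ = _ := by ring

open Classical in
/-- **the sizes in a window** -/
theorem massZ (hU : MassU) : ∃ C : ℝ, 0 < C ∧ ∀ (j s : ℤ) (a : Pt) (M n : ℤ), 100 ≤ n → 0 ≤ M → ∀ S : Finset (VX →₀ Cell),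
    (∀ δ ∈ S, Lp (gX j s) δ ∧ InW a M δ ∧ Wd n δ) →
    ∑ δ ∈ S, |W1X (WH j s) δ| * sz1 j s δ ≤
      (3 + 2 * Mc) * ∑ δ ∈ S, |W1X (WH j s) δ| + C * (2 * (M : ℝ) + 1) ^ 2 / (n : ℝ) ^ 2 := by
  obtain ⟨C, hC, key⟩ := massR hU
  refine ⟨2 * C, by positivity, fun j s a M n hn hM S hS => ?_⟩
  have h1 := key j s a M n hn hM S hS
  have h2 := key j s (2 * j + 1 - a.1, 2 * s - 1 - a.2) M n hn hM (S.image (rot1 j s)) fun δ' hδ' => by
    obtain ⟨δ, hδ, rfl⟩ := Finset.mem_image.1 hδ'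
    obtain ⟨a1, a2, a3⟩ := hS δ hδ
    exact ⟨rot1_lp.2 a1, a2.rot, a3.rot⟩
  rw [Finset.sum_image fun _ _ _ _ h => rot1_inj h, Finset.sum_image fun _ _ _ _ h => rot1_inj h] at h2
  have e1 : ∑ δ ∈ S, |W1X (WH j s) (rot1 j s δ)| * |cR j s (fam1 (rot1 j s δ)) ()| =
      ∑ δ ∈ S, |W1X (WH j s) δ| * |cL j s (fam1 δ) ()| := by
    refine Finset.sum_congr rfl fun δ hδ => ?_
    rw [W1X_rot, fam1_rot, cR_rot (hS δ hδ).2.2.ne]
  have e2 : ∑ δ ∈ S, |W1X (WH j s) (rot1 j s δ)| = ∑ δ ∈ S, |W1X (WH j s) δ| :=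
    Finset.sum_congr rfl fun δ _ => by rw [W1X_rot]
  rw [e1, e2] at h2
  have h3 : ∑ δ ∈ S, |W1X (WH j s) δ| * sz1 j s δ ≤ (1 + 2 * Mc) * ∑ δ ∈ S, |W1X (WH j s) δ| +
      ∑ δ ∈ S, |W1X (WH j s) δ| * |cR j s (fam1 δ) ()| + ∑ δ ∈ S, |W1X (WH j s) δ| * |cL j s (fam1 δ) ()| := by
    rw [Finset.mul_sum, ← Finset.sum_add_distrib, ← Finset.sum_add_distrib]
    refine Finset.sum_le_sum fun δ hδ => ?_
    have b1 := cT_bd (j := j) (s := s) (hS δ hδ).1.mt
    have b2 := cB_bd (j := j) (s := s) (hS δ hδ).1.mt (hS δ hδ).2.2.ne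
    have w := abs_nonneg (W1X (WH j s) δ)
    unfold sz1
    nlinarith
  linarith [h1, h2, h3, show (2 * C) * (2 * (M : ℝ) + 1) ^ 2 / (n : ℝ) ^ 2 = C * (2 * (M : ℝ) + 1) ^ 2 / (n : ℝ) ^ 2 +
    C * (2 * (M : ℝ) + 1) ^ 2 / (n : ℝ) ^ 2 by ring]

/-- **X9, the mass with the coefficients** -/
theorem massC (hU : MassU) (hS : MassS) : MassC := by
  classical
  obtain ⟨C, hC, key⟩ := massZ hU
  intro η K hη hK
  obtain ⟨C', N', key'⟩ := hS (η / 2) (K + 1) (by positivity) (by positivity)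
  refine ⟨(3 + 2 * Mc) * C' + C * (2 * K + 1) ^ 2 / (η / 2) ^ 2, max N' (max 2 ⌈200 / η⌉), fun N k j r t B hN hk hr h1 h2 ht => ?_⟩
  have hN1 : N' ≤ N := (le_max_left _ _).trans hN
  have hN2 : 2 ≤ N := ((le_max_left _ _).trans (le_max_right _ _)).trans hN
  have hN3 : ⌈200 / η⌉ ≤ N := ((le_max_right _ _).trans (le_max_right _ _)).trans hN
  have hN4 : 200 ≤ η * N := by
    have := Int.ceil_le.1 hN3
    rw [div_le_iff₀ hη] at this
    linarith
  have hN5 : (2 : ℝ) ≤ N := by exact_mod_cast hN2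
  have n100 : 100 ≤ ⌊η * N⌋ := Int.le_floor.2 (by push_cast; linarith)
  have M0 : 0 ≤ ⌊K * N⌋ := Int.floor_nonneg.2 (by positivity)
  rw [A1_WH fun δ hδ p hp => (hδ.1 p hp).1]
  set S : Finset (VX →₀ Cell) := (fin_Bx1 B).toFinset.filter fun δ => Lp (gX j t) δ ∧ Bx1 B δ ∧ Win k ⌊K * N⌋ ⌊η * N⌋ δ with hSd
  have h3 := key j t (0, 0) ⌊K * N⌋ ⌊η * N⌋ n100 M0 S fun δ hδ => by
    rw [hSd, Finset.mem_filter] at hδ
    refine ⟨hδ.2.1, fun p hp => ?_, hδ.2.2.2.2⟩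
    rw [sub_zero, sub_zero]
    exact (hδ.2.2.2.1 p hp).2
  have h4 : ∑ δ ∈ S, |W1X (WH j t) δ| ≤ C' := by
    refine le_trans ?_ (key' N k j r t B hN1 hk hr h1 h2 ht)
    have e : ∑ δ ∈ S, |W1X (WH j t) δ| = A1 k j t B (fun δ => if Win k ⌊K * N⌋ ⌊η * N⌋ δ then 1 else 0) := by
      rw [A1_WH fun δ hδ p hp => (hδ.1 p hp).1]
      exact Finset.sum_congr rfl fun δ _ => (mul_one _).symm
    rw [e, A1_sum, A1_sum]
    refine Finset.sum_le_sum fun δ _ => ?_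
    by_cases hl : Lp (gX j t) δ ∧ Bx1 B δ
    · rw [if_pos hl, if_pos hl]
      refine mul_le_mul_of_nonneg_left ?_ (abs_nonneg _)
      by_cases hw : Win k ⌊K * N⌋ ⌊η * N⌋ δ
      · have h5 : Sepd j ⌊η / 2 * N⌋ (⌊K * N⌋ + 2) δ := sepd_win hl.1 hw (by omega) (by
          have b1 := Int.floor_le (η / 2 * (N : ℝ))
          have b2 : ((⌊η / 2 * (N : ℝ)⌋ + 3 : ℤ) : ℝ) ≤ η * N := by
            push_cast
            nlinarith
          exact Int.le_floor.2 b2) M0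
        have h6 : Sepd j ⌊η / 2 * N⌋ ⌊(K + 1) * N⌋ δ := by
          have b3 : ⌊K * (N : ℝ)⌋ + 2 ≤ ⌊(K + 1) * (N : ℝ)⌋ := by
            refine Int.le_floor.2 ?_
            push_cast
            have := Int.floor_le (K * (N : ℝ))
            linarith
          obtain ⟨p1, y1, p2, y2, p3, y3, ⟨c1, c2, c3, c4, c5, c6⟩, c7⟩ := h5
          exact ⟨p1, y1, p2, y2, p3, y3, ⟨c1.trans b3, c2.trans b3, c3.trans b3, c4.trans b3, c5.trans b3, c6.trans b3⟩, c7⟩
        rw [if_pos hw, if_pos h6]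
      · rw [if_neg hw]
        split_ifs
        · exact zero_le_one
        · exact le_rfl
    · rw [if_neg hl, if_neg hl]
  have h5 : C * (2 * (⌊K * N⌋ : ℝ) + 1) ^ 2 / (⌊η * N⌋ : ℝ) ^ 2 ≤ C * (2 * K + 1) ^ 2 / (η / 2) ^ 2 := by
    have b1 := Int.floor_le (K * (N : ℝ))
    have b2 := Int.lt_floor_add_one (η * (N : ℝ))
    have b3 : (0 : ℝ) ≤ ⌊K * (N : ℝ)⌋ := by exact_mod_cast M0
    have b4 : η / 2 * N ≤ ⌊η * (N : ℝ)⌋ := by nlinarith
    have b5 : 2 * (⌊K * (N : ℝ)⌋ : ℝ) + 1 ≤ (2 * K + 1) * N := by nlinarith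
    have b6 : 0 < η / 2 * N := by positivity
    calc C * (2 * (⌊K * N⌋ : ℝ) + 1) ^ 2 / (⌊η * N⌋ : ℝ) ^ 2 ≤ C * ((2 * K + 1) * N) ^ 2 / (η / 2 * N) ^ 2 := by gcongr
      _ = _ := by field_simp
  have h6 : 0 ≤ 3 + 2 * Mc := by linarith [Mc_ge]
  calc _ ≤ _ := h3
    _ ≤ _ := add_le_add (mul_le_mul_of_nonneg_left h4 h6) h5

/-- **X9** with the mass of the honeycomb loops of the pool -/
theorem sideB_all : SideB := sideB A6.hx_massU

theorem massC_all (hS : MassS) : MassC := massC A6.hx_massU hS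

end

end Pool.Agent.ROT.X
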