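import Pool.Agent.ROT.XNgA

/-!
# UNIV, exact side, row X7 (helper39): the mass of the separation events

* `ng_cs` : an event of the cells off the region is constant on the classes; `ng_ax1` : `Abs3` for one member;
* **`ng_top`**, **`ng_bot`** : the sums with the crossing above (below) the box: measure of `E_j` (`E_(j+1)`) + `EndG`;
* `ng_cover` : the measure of the loops of extension `≥ d N` which visit the ball of radius `R N`;
* **`massS`** : `MassS` from `Abs3`, `EndG` and `NearM LatJ`.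
-/

set_option autoImplicit false

namespace Pool.Agent.ROT.X

open MeasureTheory
open Pool.Agent.EXL (Wt YB)
open Pool.Agent.YBC (Dir)
open Pool.Agent.UNI (wR)
open Pool.Agent.ROT.E (Cell IsUn Pt nx)
open Pool.Agent.ROT.L
open Pool.Agent.ROT.I (Lps)
open scoped ENNReal

noncomputable section

variable {k j r s B : ℤ}

open Classical in
/-- the indicator of an event of one member -/
def ngI (Ev : (VX →₀ Cell) → Prop) : FX Unit → ℝ := fun γ => if Ev (co γ ()) then 1 else 0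

theorem ngI_ne {Ev : (VX →₀ Cell) → Prop} {γ : FX Unit} (h : ngI Ev γ ≠ 0) : Ev (co γ ()) := by
  by_contra hc
  exact h (if_neg hc)

theorem ngI_nonneg {Ev : (VX →₀ Cell) → Prop} (γ : FX Unit) : 0 ≤ ngI Ev γ := by
  unfold ngI
  split_ifs
  · exact zero_le_one
  · exact le_rfl

/-- the loops of the event leave the strip -/
def NgOff (j : ℤ) (Ev : (VX →₀ Cell) → Prop) : Prop := ∀ δ, Ev δ → ∃ p : Pt, p.1 ≠ j ∧ p.1 ≠ j + 1 ∧ δ (some p) ≠ .o

theorem NgOff.out {Ev : (VX →₀ Cell) → Prop} (h : NgOff j Ev) : NgOut j (ngI Ev) := by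
  intro γ hγ i
  obtain ⟨p, h1, h2, h3⟩ := h _ (ngI_ne hγ)
  exact ⟨p, h1, h2, h3⟩

/-- an event of one member which is constant on the classes of the row `r` -/
def NgC (j r : ℤ) (Ev : (VX →₀ Cell) → Prop) : Prop := ∀ (t t' : ℤ) (δ δ' : VX →₀ Cell), (t = r ∨ t = r + 1) →
  (t' = r ∨ t' = r + 1) → Lp (gX j t) δ → Lp (gX j t') δ' → (∀ v, v ∉ Rg j r → δ v = δ' v) → Ev δ → Ev δ'

theorem NgC.and {Ev Ev' : (VX →₀ Cell) → Prop} (h : NgC j r Ev) (h' : NgC j r Ev') : NgC j r fun δ => Ev δ ∧ Ev' δ :=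
  fun t t' δ δ' ht ht' l l' o e => ⟨h t t' δ δ' ht ht' l l' o e.1, h' t t' δ δ' ht ht' l l' o e.2⟩

theorem Gt_ne {t : Fin 3} (ht : t ≠ 0) : ∃ s : ℤ, (s = r ∨ s = r + 1) ∧ Gt j r t = gX j s := by
  match t, ht with
  | 0, h => exact absurd rfl h
  | 1, _ => exact ⟨r + 1, Or.inr rfl, rfl⟩
  | 2, _ => exact ⟨r, Or.inl rfl, rfl⟩

theorem ng_cs {Ev : (VX →₀ Cell) → Prop} (h : NgC j r Ev) : Cs j r (ngI Ev) := by
  classical
  intro t t' γ γ' ht ht' e
  obtain ⟨s, hs, es⟩ := Gt_ne (j := j) (r := r) ht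
  obtain ⟨s', hs', es'⟩ := Gt_ne (j := j) (r := r) ht'
  rw [es, es'] at e
  have o : ∀ v, v ∉ Rg j r → co γ () v = co γ' () v := fun v hv => by rw [co_apply, co_apply, e.out v hv]
  have l := e.fam.lp ()
  have l' := e.fam'.lp ()
  exact if_congr ⟨h s s' _ _ hs hs' l l' o, h s' s _ _ hs' hs l' l fun v hv => (o v hv).symm⟩ rfl rfl

open Classical in
theorem ng_A1 (Ev : (VX →₀ Cell) → Prop) : A1 k j s B (fun δ => if Ev δ then 1 else 0) = AX k j s B (ngI Ev) := A1_eq _ _ _ _ _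

open Classical in
theorem ng_SX {G : FX Unit → ℝ} : SX k j s B G = ∑ γ ∈ (fin_Bx B).toFinset, if Fam (gX j s) γ ∧ Bx B γ then WX (WE k j s) γ * G γ else 0 :=
  tsum_eq_sum fun _ hγ => if_neg fun h => hγ ((Set.Finite.mem_toFinset _).2 h.2)

open Classical in
/-- the families of the event which use the crossing -/
theorem ng_cx {Ev : (VX →₀ Cell) → Prop} {n : ℤ} (hx : ∀ δ, Ev δ → Ext1 n δ) {F : FX Unit → ℝ}
    (hF0 : ∀ γ, γ none = 0 → F γ = 0) (hF1 : ∀ γ, γ none ≠ 0 → F γ = ngI Ev γ) :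
    SX k j s B F ≤ A1 k j s B (fun δ => if δ none ≠ .o ∧ Ext1 n δ then 1 else 0) := by
  rw [A1_eq, ng_SX, AX_eq]
  refine Finset.sum_le_sum fun γ _ => ?_
  by_cases hf : Fam (gX j s) γ ∧ Bx B γ
  · rw [if_pos hf, if_pos hf]
    by_cases h0 : γ none = 0
    · rw [hF0 γ h0, mul_zero]
      refine mul_nonneg (abs_nonneg _) ?_
      show 0 ≤ (if _ then (1 : ℝ) else 0)
      split_ifs
      · exact zero_le_one
      · exact le_rfl
    · have h1 : co γ () none ≠ .o := by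
        intro h2
        apply h0
        funext a
        exact h2
      show _ ≤ _ * (if co γ () none ≠ .o ∧ Ext1 n (co γ ()) then 1 else 0)
      rw [hF1 γ h0]
      by_cases he : Ev (co γ ())
      · have e1 : ngI Ev γ = 1 := if_pos he
        rw [e1, if_pos ⟨h1, hx _ he⟩, mul_one, mul_one]
        exact le_abs_self _
      · have e1 : ngI Ev γ = 0 := if_neg he
        rw [e1, mul_zero]
        refine mul_nonneg (abs_nonneg _) ?_
        split_ifs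
        · exact zero_le_one
        · exact le_rfl
  · rw [if_neg hf, if_neg hf]

open Classical in
/-- **the top of the box** -/
theorem ng_top {Ev : (VX →₀ Cell) → Prop} {n : ℤ} {A A' : Set Lps} {C : ℝ≥0∞} (hk : k ≤ j) (h1 : -B ≤ j) (h2 : j + 1 ≤ B)
    (hx : ∀ δ, Ev δ → Ext1 n δ)
    (hE : ENNReal.ofReal (A1 k j (B + 1) B fun δ => if δ none ≠ .o ∧ Ext1 n δ then 1 else 0) ≤ C * U.muU (latj k j) A')
    (hA : ∀ δ : VX →₀ Cell, Lp g0 δ → δ none = .o → Ev δ → ∀ l : E.Lp (dn δ), (⟨dn δ, l⟩ : Lps) ∈ A) :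
    ENNReal.ofReal (SX k j (B + 1) B (ngI Ev)) ≤ U.muU (latj k j) A + C * U.muU (latj k j) A' := by
  rw [(ends (I := Unit) k j B (ngI Ev) hk h1 h2).1]
  refine ENNReal.ofReal_add_le.trans (add_le_add (ng_se hA) ?_)
  refine (ENNReal.ofReal_le_ofReal ?_).trans hE
  exact ng_cx hx (fun γ h => if_pos h) fun γ h => if_neg h

open Classical in
/-- **the bottom of the box** -/
theorem ng_bot {Ev : (VX →₀ Cell) → Prop} {n : ℤ} {A A' : Set Lps} {C : ℝ≥0∞} (hk : k ≤ j) (h1 : -B ≤ j) (h2 : j + 1 ≤ B)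
    (hx : ∀ δ, Ev δ → Ext1 n δ)
    (hE : ENNReal.ofReal (A1 k j (-B) B fun δ => if δ none ≠ .o ∧ Ext1 n δ then 1 else 0) ≤ C * U.muU (latj k (j + 1)) A')
    (hA : ∀ δ : VX →₀ Cell, Lp g0 δ → δ none = .o → Ev δ → ∀ l : E.Lp (dn δ), (⟨dn δ, l⟩ : Lps) ∈ A) :
    ENNReal.ofReal (SX k j (-B) B (ngI Ev)) ≤ U.muU (latj k (j + 1)) A + C * U.muU (latj k (j + 1)) A' := by
  rw [(ends (I := Unit) k j B (ngI Ev) hk h1 h2).2]
  refine ENNReal.ofReal_add_le.trans (add_le_add (ng_se hA) ?_)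
  refine (ENNReal.ofReal_le_ofReal ?_).trans hE
  exact ng_cx hx (fun γ h => if_pos h) fun γ h => if_neg h

/-- **`Abs3` for one member** -/
theorem ng_ax1 (ha : Abs3 Unit) {Ev : (VX →₀ Cell) → Prop} (hk : k ≤ j) (h1 : -B ≤ j) (h2 : j + 1 ≤ B) (hs : -B ≤ s)
    (hs' : s ≤ B + 1) (hc : ∀ r, |r| ≤ B → NgC j r Ev) (ho : NgOff j Ev) :
    AX k j s B (ngI Ev) ≤ 3 * SX k j (B + 1) B (ngI Ev) := by
  classical
  refine (ha k j s B (fun γ => Ev (co γ ())) hk h1 h2 hs hs' (fun r hr => ng_cs (hc r hr)) ?_).1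
  intro γ hγ i
  obtain ⟨p, q1, q2, q3⟩ := ho _ hγ
  exact ⟨p, q1, q2, q3⟩

/-! ### the measure of the loops which visit a ball -/

theorem ng_cover {S : Set (ℤ → ℝ)} (h : U.NearM S) {d R : ℝ} (hd : 0 < d) (hR : 0 < R) :
    ∃ C : ℝ, 0 ≤ C ∧ ∃ N0 : ℤ, ∀ u ∈ S, ∀ N : ℤ, N0 ≤ N →
      U.muU u (U.Vis (0, 0) ⌊R * N⌋ ∩ U.Ext ⌊d * N⌋) ≤ ENNReal.ofReal C := by
  classical
  obtain ⟨η, hη, N1, hN⟩ := h 1 one_pos
  obtain ⟨M, hM⟩ : ∃ M : ℤ, M = ⌈4 * R / (η * d)⌉ + 1 := ⟨_, rfl⟩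
  have hM1 : 4 * R / (η * d) ≤ M := by
    rw [hM]
    push_cast
    linarith [Int.le_ceil (4 * R / (η * d))]
  have hM0 : (0 : ℝ) < M := lt_of_lt_of_le (by positivity) hM1
  refine ⟨((Finset.Icc (-M) M ×ˢ Finset.Icc (-M) M).card : ℝ), by positivity,
    max (⌈2 / d⌉) (max (⌈4 / (η * d)⌉) (⌈((N1 : ℝ) + 1) / d⌉)), fun u hu N hNN => ?_⟩
  have b1 : 2 / d ≤ N := (Int.le_ceil _).trans (by exact_mod_cast (le_max_left _ _).trans hNN)
  have b2 : 4 / (η * d) ≤ N := (Int.le_ceil _).trans (by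
    exact_mod_cast ((le_max_left _ _).trans (le_max_right _ _)).trans hNN)
  have b3 : ((N1 : ℝ) + 1) / d ≤ N := (Int.le_ceil _).trans (by
    exact_mod_cast ((le_max_right _ _).trans (le_max_right _ _)).trans hNN)
  rw [div_le_iff₀ hd] at b1 b3
  rw [div_le_iff₀ (by positivity)] at b2
  obtain ⟨n, hn⟩ : ∃ n : ℤ, n = ⌊d * N⌋ := ⟨_, rfl⟩
  have n1 : d * N - 1 < n := by
    rw [hn]
    exact Int.sub_one_lt_floor _
  have n2 : N1 ≤ n := by
    have : (N1 : ℝ) < n + 1 := by nlinarith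
    have : N1 < n + 1 := by exact_mod_cast this
    omega
  obtain ⟨q, hq⟩ : ∃ q : ℤ, q = ⌊η * n⌋ := ⟨_, rfl⟩
  have q1 : η * n - 1 < q := by
    rw [hq]
    exact Int.sub_one_lt_floor _
  have q2 : (q : ℝ) ≤ η * n := by
    rw [hq]
    exact Int.floor_le _
  have q3 : η * d * N / 4 ≤ q := by
    have e1 : d * N / 2 ≤ n := by nlinarith
    have e2 : η * (d * N / 2) ≤ η * n := by gcongr
    nlinarith
  have q4 : (1 : ℝ) ≤ q := by nlinarith
  have q5 : 1 ≤ q := by exact_mod_cast q4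
  have q6 : R * N ≤ M * q := by
    have e1 : 4 * R / (η * d) * (η * d * N / 4) = R * N := by field_simp
    have hN0 : (0 : ℝ) < N := by
      by_contra hc
      push Not at hc
      nlinarith
    rw [← e1]
    exact mul_le_mul hM1 q3 (by positivity) hM0.le
  have q7 : ⌊R * N⌋ ≤ M * q := by
    have : ((⌊R * N⌋ : ℤ) : ℝ) ≤ ((M * q : ℤ) : ℝ) := by
      push_cast
      exact (Int.floor_le _).trans q6
    exact_mod_cast this
  rw [← hn]
  have cov : U.Vis (0, 0) ⌊R * N⌋ ∩ U.Ext n ⊆ ⋃ a ∈ Finset.Icc (-M) M ×ˢ Finset.Icc (-M) M,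
      (U.Vis (a.1 * q, a.2 * q) q ∩ U.Ext n) := by
    rintro γ ⟨⟨v, h0, h1, h2⟩, h3⟩
    simp only [sub_zero] at h1 h2
    have key : ∀ x : ℤ, |x| ≤ ⌊R * N⌋ → -M ≤ x / q ∧ x / q ≤ M ∧ |x - x / q * q| ≤ q := by
      intro x hx
      rw [abs_le] at hx
      have e1 := Int.emod_add_mul_ediv x q
      have e2 := Int.emod_nonneg x (show q ≠ 0 by omega)
      have e3 := Int.emod_lt_of_pos x (show 0 < q by omega)
      have e4 : x - x / q * q = x % q := by linarith [mul_comm q (x / q)]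
      refine ⟨?_, ?_, ?_⟩
      · rw [Int.le_ediv_iff_mul_le (by omega)]
        nlinarith
      · have : x / q < M + 1 := by
          rw [Int.ediv_lt_iff_lt_mul (by omega)]
          nlinarith
        omega
      · rw [e4, abs_of_nonneg e2]
        exact e3.le
    obtain ⟨x1, x2, x3⟩ := key v.1 h1
    obtain ⟨y1, y2, y3⟩ := key v.2 h2
    simp only [Set.mem_iUnion]
    exact ⟨(v.1 / q, v.2 / q), Finset.mem_product.2 ⟨Finset.mem_Icc.2 ⟨x1, x2⟩, Finset.mem_Icc.2 ⟨y1, y2⟩⟩,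
      ⟨v, h0, x3, y3⟩, h3⟩
  calc U.muU u (U.Vis (0, 0) ⌊R * N⌋ ∩ U.Ext n) ≤ _ := measure_mono cov
    _ ≤ ∑ a ∈ Finset.Icc (-M) M ×ˢ Finset.Icc (-M) M, U.muU u (U.Vis (a.1 * q, a.2 * q) q ∩ U.Ext n) :=
        measure_biUnion_finset_le _ _
    _ ≤ ∑ a ∈ Finset.Icc (-M) M ×ˢ Finset.Icc (-M) M, ENNReal.ofReal 1 :=
        Finset.sum_le_sum fun a _ => hN u hu n n2 _ q q2
    _ = _ := by
        rw [Finset.sum_const, ENNReal.ofReal_one, nsmul_eq_mul, mul_one, ENNReal.ofReal_natCast]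

/-! ### separation on the square lattice -/

theorem ng_sg {γ : E.Cfg} (hm : E.Mt γ Set.univ) {R : ℤ} (h : ∀ v : Pt, |v.1| ≤ R → |v.2| ≤ R → γ v = 0) {p y p' y' : ℤ}
    (h1 : |p| ≤ R) (h2 : |y| ≤ R) (h3 : |p'| ≤ R) (h4 : |y'| ≤ R) : E.sg γ p y = E.sg γ p' y' := by
  rw [abs_le] at h1 h2 h3 h4
  have vert : ∀ (p : ℤ) (n : ℕ) (y : ℤ), -R ≤ p → p ≤ R → -R ≤ y → y + n ≤ R → E.sg γ p y = E.sg γ p (y + n) := by
    intro p n
    induction n with
    | zero => intro y _ _ _ _; simp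
    | succ n ih =>
      intro y a1 a2 a3 a4
      push_cast at a4
      rw [E.sg_succ, E.io_supp (by
        rw [Finsupp.mem_support_iff, not_not]
        exact h (p, y) (abs_le.2 ⟨a1, a2⟩) (abs_le.2 ⟨a3, by show y ≤ R; omega⟩)), add_zero,
        ih (y + 1) a1 a2 (by omega) (by omega)]
      congr 1
      push_cast
      ring
  have hor : ∀ (y : ℤ) (n : ℕ) (p : ℤ), -R ≤ y → y ≤ R → -R ≤ p → p + n ≤ R → E.sg γ p y = E.sg γ (p + n) y := by
    intro y n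
    induction n with
    | zero => intro y _ _ _ _; simp
    | succ n ih =>
      intro p a1 a2 a3 a4
      push_cast at a4
      rw [E.sg_right hm, E.io_supp (by
        rw [Finsupp.mem_support_iff, not_not]
        exact h (p, y) (abs_le.2 ⟨a3, by show p ≤ R; omega⟩) (abs_le.2 ⟨a1, a2⟩)), add_zero,
        ih (p + 1) a1 a2 (by omega) (by omega)]
      congr 1
      push_cast
      ring
  have e1 : E.sg γ p y = E.sg γ p y' := by
    rcases le_total y y' with hy | hy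
    · obtain ⟨n, hn⟩ := Int.le.dest hy
      rw [← hn]
      exact vert p n y h1.1 h1.2 h2.1 (by omega)
    · obtain ⟨n, hn⟩ := Int.le.dest hy
      rw [← hn]
      exact (vert p n y' h1.1 h1.2 h4.1 (by omega)).symm
  rw [e1]
  rcases le_total p p' with hy | hy
  · obtain ⟨n, hn⟩ := Int.le.dest hy
    rw [← hn]
    exact hor y' n p h4.1 h4.2 h1.1 (by omega)
  · obtain ⟨n, hn⟩ := Int.le.dest hy
    rw [← hn]
    exact (hor y' n p' h4.1 h4.2 h3.1 (by omega)).symm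

/-- odd parity: the line is met -/
theorem ng_hz {δ : VX →₀ Cell} {p y : ℤ} (h : sgx δ p y = 1) : ∃ y', δ (some (p, y')) ≠ .o := by
  by_contra hc
  push Not at hc
  have e : {y' : ℤ | y ≤ y' ∧ hz δ p y'} = ∅ := by
    ext y'
    simp only [Set.mem_ofPred_eq, Set.mem_empty_iff_false, iff_false, not_and]
    intro _ h1
    exact oc_zero h1 (hc y')
  unfold sgx at h
  rw [e, Set.ncard_empty] at h
  exact absurd h (by decide)

theorem sepd_ext {D R : ℤ} {δ : VX →₀ Cell} (h : Sepd j D R δ) : Ext1 D δ := by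
  obtain ⟨p1, y1, p2, y2, p3, y3, -, -, h1, h2, h3, -⟩ := h
  obtain ⟨a, ha⟩ := ng_hz h2
  obtain ⟨b, hb⟩ := ng_hz h3
  exact ⟨(p1, a), (p2, b), ha, hb, Or.inl h1⟩

theorem sepd_big {D R : ℤ} {δ : VX →₀ Cell} (h : Sepd j D R δ) : Big D δ := by
  obtain ⟨p1, y1, p2, y2, p3, y3, -, -, h1, h2, h3, -⟩ := h
  obtain ⟨a, ha⟩ := ng_hz h2
  obtain ⟨b, hb⟩ := ng_hz h3
  exact ⟨(p1, a), (p2, b), ha, hb, h1⟩

theorem sepd_off {D R : ℤ} (hD : 3 ≤ D) : NgOff j (Sepd j D R) := by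
  intro δ h
  obtain ⟨p1, y1, p2, y2, p3, y3, -, hp, h1, h2, h3, -⟩ := h
  obtain ⟨a, ha⟩ := ng_hz h2
  obtain ⟨b, hb⟩ := ng_hz h3
  by_cases h4 : p1 = j
  · exact ⟨(p2, b), by show p2 ≠ j; omega, by show p2 ≠ j + 1; omega, hb⟩
  · exact ⟨(p1, a), h4, hp.1, ha⟩

theorem sepd_cs (D R r : ℤ) : NgC j r (Sepd j D R) := by
  intro t t' δ δ' _ _ l l' o h
  obtain ⟨p1, y1, p2, y2, p3, y3, h0, hp, h1, h2, h3, h4⟩ := h
  have key : ∀ p, p ≠ j + 1 → ∀ y, sgx δ p y = sgx δ' p y := fun p hp y =>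
    sgx_congr (fun y => hz_out (s := r) (gX_W j t) (gX_W j t') l.mt l'.mt o hp y) y
  exact ⟨p1, y1, p2, y2, p3, y3, h0, hp, h1, by rw [← key _ hp.1, h2], by rw [← key _ hp.2.1, h3], by rw [← key _ hp.2.2, h4]⟩

open Classical in
/-- **X7, mass** -/
theorem massS (ha : Abs3 Unit) (he : EndG) (hn : U.NearM LatJ) : MassS := by
  intro d R hd hR
  obtain ⟨C1, hC1, N1, hcov⟩ := ng_cover hn hd hR
  obtain ⟨CE, hCE, hend⟩ := he
  obtain ⟨η, hη, N2, hnear⟩ := hn 1 one_pos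
  refine ⟨3 * (C1 + CE.toReal), max N1 (⌈((max N2 (max 10 ⌈2 / η⌉) : ℤ) + 1 : ℝ) / d⌉), ?_⟩
  intro N k j r t B hN hk hr h1 h2 ht
  have g1 : N1 ≤ N := (le_max_left _ _).trans hN
  have g2 : (((max N2 (max 10 ⌈2 / η⌉) : ℤ) : ℝ) + 1) / d ≤ N :=
    (Int.le_ceil _).trans (by exact_mod_cast (le_max_right _ _).trans hN)
  rw [div_le_iff₀ hd] at g2
  obtain ⟨n, hn'⟩ : ∃ n : ℤ, n = ⌊d * N⌋ := ⟨_, rfl⟩
  have n1 : d * N - 1 < n := by
    rw [hn']
    exact Int.sub_one_lt_floor _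
  have n2 : max N2 (max 10 ⌈2 / η⌉) ≤ n := by
    have : ((max N2 (max 10 ⌈2 / η⌉) : ℤ) : ℝ) < n + 1 := by nlinarith
    have : max N2 (max 10 ⌈2 / η⌉) < n + 1 := by exact_mod_cast this
    omega
  have n3 : N2 ≤ n := (le_max_left _ _).trans n2
  have n4 : 10 ≤ n := ((le_max_left _ _).trans (le_max_right _ _)).trans n2
  have n5 : ⌈2 / η⌉ ≤ n := ((le_max_right _ _).trans (le_max_right _ _)).trans n2
  have n6 : ((2 : ℤ) : ℝ) ≤ η * n := by
    have h3 : 2 / η ≤ n := (Int.le_ceil _).trans (by exact_mod_cast n5)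
    rw [div_le_iff₀ hη] at h3
    push_cast
    linarith
  rw [← hn'] 
  have hs : -B ≤ t ∧ t ≤ B + 1 := by
    rw [abs_le] at hr
    rcases ht with rfl | rfl <;> constructor <;> omega
  have a1 : A1 k j t B (fun δ => if Sepd j n ⌊R * N⌋ δ then 1 else 0) ≤ 3 * SX k j (B + 1) B (ngI (Sepd j n ⌊R * N⌋)) := by
    rw [ng_A1]
    exact ng_ax1 ha hk h1 h2 hs.1 hs.2 (fun r _ => sepd_cs _ _ _) (sepd_off (by omega))
  have a2 : ENNReal.ofReal (SX k j (B + 1) B (ngI (Sepd j n ⌊R * N⌋))) ≤ ENNReal.ofReal (C1 + CE.toReal) := by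
    refine (ng_top (A := U.Vis (0, 0) ⌊R * N⌋ ∩ U.Ext n) hk h1 h2 (fun δ hδ => sepd_ext hδ) (hend k j B n hk h1 h2 n4).1 ?_).trans ?_
    · intro δ _ _ hS l
      obtain ⟨p1, y1, p2, y2, p3, y3, hb, hp, q1, q2, q3, q4⟩ := hS
      refine ⟨?_, ?_⟩
      · by_contra hc
        have hz : ∀ v : Pt, |v.1| ≤ ⌊R * N⌋ → |v.2| ≤ ⌊R * N⌋ → dn δ v = 0 := by
          intro v hv1 hv2
          by_contra hv
          exact hc ⟨v, hv, by simpa using hv1, by simpa using hv2⟩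
        have e1 := ng_sg l.mt hz hb.1 hb.2.1 hb.2.2.2.2.1 hb.2.2.2.2.2
        rw [← sgx_eq, ← sgx_eq, q2, q4] at e1
        exact absurd e1 (by decide)
      · obtain ⟨a, ha⟩ := ng_hz q2
        obtain ⟨b, hb⟩ := ng_hz q3
        refine ⟨(p1, a), (p2, b), ?_, ?_, Or.inl ?_⟩
        · show dn δ (p1, a) ≠ 0
          rw [dn_apply]
          exact ha
        · show dn δ (p2, b) ≠ 0
          rw [dn_apply]
          exact hb
        · show n ≤ p2 - p1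
          omega
    · have e1 := hcov (latj k j) ⟨k, j, hk, rfl⟩ N g1
      have e2 := hnear (latj k j) ⟨k, j, hk, rfl⟩ n n3 (j, B + 1) 2 n6
      rw [← hn'] at e1
      rw [ENNReal.ofReal_add hC1 ENNReal.toReal_nonneg, ENNReal.ofReal_toReal hCE]
      refine add_le_add e1 ?_
      calc CE * U.muU (latj k j) (U.Vis (j, B + 1) 2 ∩ U.Ext n) ≤ CE * ENNReal.ofReal 1 := by gcongr
        _ = CE := by rw [ENNReal.ofReal_one, mul_one]
  rw [ENNReal.ofReal_le_ofReal_iff (add_nonneg hC1 ENNReal.toReal_nonneg)] at a2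
  linarith

end

end Pool.Agent.ROT.X
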