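import Pool.Agent.ROT.XMassS

/-!
# UNIV, exact side, row X7 (helper39): a large loop uses the region of a row

* `BigO`, `NcO` : two cells off the strip at column distance `≥ n`; a cell off the strip near `(j, r)`;
* `LowL`, `UpL` : the edges of the strip below (above) the crossing; `ng_crr`, `ng_crl`, `big_off` : a large loop is large off the
  strip; `us_leg` : it enters the region through the strip or has a cell near;
* **`ng_mate`** : without cells near, the mass of the crossings `y` is at most half of the mass of the crossings `nw` (the two cells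
  below the crossing are vertical: `(y, v, v)` against `(nw, se, sw)` in the class of the row below);
* **`nearG`** : `NearG` from `Abs3`, `EndG` and `NearM LatJ`.
-/

set_option autoImplicit false

namespace Pool.Agent.ROT.X

open MeasureTheory
open Pool.Agent.EXL (Wt YB)
open Pool.Agent.YBC (Dir)
open Pool.Agent.UNI (wR)
open Pool.Agent.ROT.E (Cell IsUn Pt nx)
open Pool.Agent.ROT.L
open Pool.Agent.ROT.I (Lps)
open scoped ENNReal

noncomputable section

variable {k j r s t B : ℤ} {δ δ' : VX →₀ Cell}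

/-! ### events -/

/-- two cells off the strip at column distance `≥ n` -/
def BigO (j n : ℤ) (δ : VX →₀ Cell) : Prop := ∃ p q : Pt, (p.1 ≠ j ∧ p.1 ≠ j + 1) ∧ (q.1 ≠ j ∧ q.1 ≠ j + 1) ∧
  δ (some p) ≠ .o ∧ δ (some q) ≠ .o ∧ p.1 + n ≤ q.1

/-- a cell off the strip near `(j, r)` -/
def NcO (j r : ℤ) (δ : VX →₀ Cell) : Prop := ∃ p : Pt, (p.1 ≠ j ∧ p.1 ≠ j + 1) ∧ δ (some p) ≠ .o ∧ |p.1 - j| ≤ 4 ∧ |p.2 - r| ≤ 4

/-- an edge of the strip into the row `t - 1` from above -/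
def LowL (j t : ℤ) (δ : VX →₀ Cell) : Prop := oc δ (some (j, t - 1), .N) ∨ oc δ (some (j + 1, t - 1), .N)

/-- an edge of the strip into the row `t` from below -/
def UpL (j t : ℤ) (δ : VX →₀ Cell) : Prop := oc δ (some (j, t), .S) ∨ oc δ (some (j + 1, t), .S)

theorem ng_off {p : Pt} (h : p.1 ≠ j ∧ p.1 ≠ j + 1) : (some p : VX) ∉ Rg j r := by
  obtain ⟨a, b⟩ := p
  simp only at h
  simp [Rg, h.1, h.2]

theorem ng_rowR {a b : ℤ} (h : b ≠ r) : (some (a, b) : VX) ∉ Rg j r := by simp [Rg, h]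

theorem NgC.not {Ev : (VX →₀ Cell) → Prop} (h : NgC j r Ev) : NgC j r fun δ => ¬ Ev δ :=
  fun t t' δ δ' ht ht' l l' o e e' => e (h t' t δ' δ ht' ht l' l (fun v hv => (o v hv).symm) e')

theorem bigO_cs (n : ℤ) : NgC j r (BigO j n) := by
  rintro t t' δ δ' - - - - o ⟨p, q, hp, hq, h1, h2, h3⟩
  exact ⟨p, q, hp, hq, by rw [← o _ (ng_off hp)]; exact h1, by rw [← o _ (ng_off hq)]; exact h2, h3⟩

theorem ncO_cs (r0 : ℤ) : NgC j r (NcO j r0) := by
  rintro t t' δ δ' - - - - o ⟨p, hp, h1, h2, h3⟩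
  exact ⟨p, hp, by rw [← o _ (ng_off hp)]; exact h1, h2, h3⟩

theorem lowL_cs {t0 : ℤ} (h : t0 ≤ r) : NgC j r (LowL j t0) := by
  rintro t t' δ δ' - - - - o e
  unfold LowL at e ⊢
  rw [← oc_out o (h := (some (j, t0 - 1), .N)) (ng_rowR (by omega)), ← oc_out o (h := (some (j + 1, t0 - 1), .N)) (ng_rowR (by omega))]
  exact e

theorem upL_cs {t0 : ℤ} (h : r < t0) : NgC j r (UpL j t0) := by
  rintro t t' δ δ' - - - - o e
  unfold UpL at e ⊢
  rw [← oc_out o (h := (some (j, t0), .S)) (ng_rowR (by omega)), ← oc_out o (h := (some (j + 1, t0), .S)) (ng_rowR (by omega))]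
  exact e

theorem BigO.off {n : ℤ} (h : BigO j n δ) : ∃ p : Pt, p.1 ≠ j ∧ p.1 ≠ j + 1 ∧ δ (some p) ≠ .o := by
  obtain ⟨p, q, hp, hq, h1, h2, h3⟩ := h
  exact ⟨p, hp.1, hp.2, h1⟩

theorem BigO.ext {n : ℤ} (h : BigO j n δ) : Ext1 n δ := by
  obtain ⟨p, q, hp, hq, h1, h2, h3⟩ := h
  exact ⟨p, q, h1, h2, Or.inl h3⟩

/-! ### geometry -/

theorem ng_use {v : VX} (h : δ v ≠ .o) : ∃ d, oc δ (v, d) := ex_side h

/-- a loop with cells on both sides visits the column `j + 2` -/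
theorem ng_crr (l : Lp (gX j s) δ) {p q : Pt} (hp : δ (some p) ≠ .o) (hq : δ (some q) ≠ .o) (h1 : p.1 ≤ j + 1) (h2 : j + 2 ≤ q.1) :
    ∃ y, δ (some (j + 2, y)) ≠ .o := by
  set A : Set VX := {v | ∀ p : Pt, v = some p → p.1 ≤ j + 1} with hA
  have mA : ∀ p : Pt, (some p : VX) ∈ A ↔ p.1 ≤ j + 1 := fun p =>
    ⟨fun h => h p rfl, fun h p' e => by rw [← Option.some.inj e]; exact h⟩
  obtain ⟨d, hd⟩ := ng_use hp
  obtain ⟨e, he, c⟩ := esc (A := A) l ⟨some q, fun h => by have := (mA q).1 h; omega, hq⟩ (h := (some p, d)) ((mA p).2 h1) hd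
  have o1 : oc δ e := (oc_port l.mt e).1 (cn_oc' (mt_mono l.mt) c hd)
  obtain ⟨e1, e2⟩ := he
  obtain ⟨v, d'⟩ := e
  rcases v with _ | ⟨a, b⟩
  · exact absurd (fun p e => by simp at e) e1
  · have ha : ¬ a ≤ j + 1 := fun h => e1 ((mA (a, b)).2 h)
    cases d'
    · exact absurd ((mA (a + 1, b)).1 e2) (by show ¬ a + 1 ≤ j + 1; omega)
    · exfalso
      have e3 : ((gX j s).e (some (a, b), .N)) = (some (a, b + 1), .S) := by
        show (if ((a, b) : Pt) = (j, s - 1) then ((none, .S) : VX × Dir) else if ((a, b) : Pt) = (j + 1, s - 1) then (none, .E) else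
          (some (nx (a, b) .N), .S)) = _
        rw [if_neg, if_neg]
        · rfl
        · intro h; have := congrArg Prod.fst h; simp only at this; omega
        · intro h; have := congrArg Prod.fst h; simp only at this; omega
      rw [e3] at e2
      exact ha ((mA (a, b + 1)).1 e2)
    · have h3 : a - 1 ≤ j + 1 := (mA (a - 1, b)).1 e2
      have : a = j + 2 := by omega
      subst this
      exact ⟨b, oc_zero o1⟩
    · exfalso
      have e3 : ((gX j s).e (some (a, b), .S)) = (some (a, b - 1), .N) := by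
        show (if ((a, b) : Pt) = (j, s) then ((none, .W) : VX × Dir) else if ((a, b) : Pt) = (j + 1, s) then (none, .N) else
          (some (nx (a, b) .S), .N)) = _
        rw [if_neg, if_neg]
        · rfl
        · intro h; have := congrArg Prod.fst h; simp only at this; omega
        · intro h; have := congrArg Prod.fst h; simp only at this; omega
      rw [e3] at e2
      exact ha ((mA (a, b - 1)).1 e2)

/-- a loop with cells on both sides visits the column `j - 1` -/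
theorem ng_crl (l : Lp (gX j s) δ) {p q : Pt} (hp : δ (some p) ≠ .o) (hq : δ (some q) ≠ .o) (h1 : p.1 ≤ j - 1) (h2 : j ≤ q.1) :
    ∃ y, δ (some (j - 1, y)) ≠ .o := by
  set A : Set VX := {v | ∀ p : Pt, v = some p → j ≤ p.1} with hA
  have mA : ∀ p : Pt, (some p : VX) ∈ A ↔ j ≤ p.1 := fun p =>
    ⟨fun h => h p rfl, fun h p' e => by rw [← Option.some.inj e]; exact h⟩
  obtain ⟨d, hd⟩ := ng_use hq
  obtain ⟨e, he, c⟩ := esc (A := A) l ⟨some p, fun h => by have := (mA p).1 h; omega, hp⟩ (h := (some q, d)) ((mA q).2 h2) hd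
  have o1 : oc δ e := (oc_port l.mt e).1 (cn_oc' (mt_mono l.mt) c hd)
  obtain ⟨e1, e2⟩ := he
  obtain ⟨v, d'⟩ := e
  rcases v with _ | ⟨a, b⟩
  · exact absurd (fun p e => by simp at e) e1
  · have ha : ¬ j ≤ a := fun h => e1 ((mA (a, b)).2 h)
    cases d'
    · have h3 : j ≤ a + 1 := (mA (a + 1, b)).1 e2
      have : a = j - 1 := by omega
      subst this
      exact ⟨b, oc_zero o1⟩
    · exfalso
      have e3 : ((gX j s).e (some (a, b), .N)) = (some (a, b + 1), .S) := by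
        show (if ((a, b) : Pt) = (j, s - 1) then ((none, .S) : VX × Dir) else if ((a, b) : Pt) = (j + 1, s - 1) then (none, .E) else
          (some (nx (a, b) .N), .S)) = _
        rw [if_neg, if_neg]
        · rfl
        · intro h; have := congrArg Prod.fst h; simp only at this; omega
        · intro h; have := congrArg Prod.fst h; simp only at this; omega
      rw [e3] at e2
      exact ha ((mA (a, b + 1)).1 e2)
    · exact absurd ((mA (a - 1, b)).1 e2) (by show ¬ j ≤ a - 1; omega)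
    · exfalso
      have e3 : ((gX j s).e (some (a, b), .S)) = (some (a, b - 1), .N) := by
        show (if ((a, b) : Pt) = (j, s) then ((none, .W) : VX × Dir) else if ((a, b) : Pt) = (j + 1, s) then (none, .N) else
          (some (nx (a, b) .S), .N)) = _
        rw [if_neg, if_neg]
        · rfl
        · intro h; have := congrArg Prod.fst h; simp only at this; omega
        · intro h; have := congrArg Prod.fst h; simp only at this; omega
      rw [e3] at e2
      exact ha ((mA (a, b - 1)).1 e2)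

/-- **a large loop is large off the strip** -/
theorem big_off {N : ℤ} (l : Lp (gX j s) δ) (hN : 3 ≤ N) (h : Big N δ) : BigO j (N - 2) δ := by
  obtain ⟨p, q, hp, hq, h1⟩ := h
  by_cases hps : p.1 ≠ j ∧ p.1 ≠ j + 1
  · by_cases hqs : q.1 ≠ j ∧ q.1 ≠ j + 1
    · exact ⟨p, q, hps, hqs, hp, hq, by omega⟩
    · have h2 : q.1 = j ∨ q.1 = j + 1 := by
        by_contra hc
        push Not at hc
        exact hqs hc
      obtain ⟨y, hy⟩ := ng_crl l hp hq (by omega) (by omega)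
      exact ⟨p, (j - 1, y), hps, ⟨by show j - 1 ≠ j; omega, by show j - 1 ≠ j + 1; omega⟩, hp, hy, by
        show p.1 + (N - 2) ≤ j - 1
        omega⟩
  · have h2 : p.1 = j ∨ p.1 = j + 1 := by
      by_contra hc
      push Not at hc
      exact hps hc
    obtain ⟨y, hy⟩ := ng_crr l hp hq (by omega) (by omega)
    exact ⟨(j + 2, y), q, ⟨by show j + 2 ≠ j; omega, by show j + 2 ≠ j + 1; omega⟩, ⟨by omega, by omega⟩, hy, hq, by
      show j + 2 + (N - 2) ≤ q.1
      omega⟩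

/-- **a large loop which uses the region** enters it through the strip or has a cell near -/
theorem us_leg {n : ℤ} (ht : t = r ∨ t = r + 1) (l : Lp (gX j t) δ) (hb : BigO j n δ) (hu : Us1 j r δ) :
    NcO j r δ ∨ LowL j r δ ∨ UpL j (r + 1) δ := by
  obtain ⟨i, hi⟩ : ∃ i : Fin 3, Gt j r i = gX j t := by
    rcases ht with rfl | rfl
    · exact ⟨2, rfl⟩
    · exact ⟨1, rfl⟩
  obtain ⟨v, hv, hv0⟩ := hu
  obtain ⟨p, hp1, hp2, hp3⟩ := hb.off
  obtain ⟨d, hd⟩ := ng_use hv0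
  obtain ⟨e, he, c⟩ := esc (A := Rg j r) l ⟨some p, ng_off ⟨hp1, hp2⟩, hp3⟩ (h := (v, d)) hv hd
  have o1 : oc δ e := (oc_port l.mt e).1 (cn_oc' (mt_mono l.mt) c hd)
  rw [← hi] at he
  obtain ⟨a, rfl⟩ := port_iff.1 he
  match a, o1 with
  | 0, o1 => exact Or.inr (Or.inl (Or.inl o1))
  | 1, o1 => exact Or.inr (Or.inl (Or.inr o1))
  | 2, o1 =>
    refine Or.inl ⟨(j - 1, r), ⟨by show j - 1 ≠ j; omega, by show j - 1 ≠ j + 1; omega⟩, oc_zero o1, ?_, ?_⟩
    · show |j - 1 - j| ≤ 4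
      rw [abs_le]
      omega
    · show |r - r| ≤ 4
      rw [abs_le]
      omega
  | 3, o1 =>
    refine Or.inl ⟨(j + 2, r), ⟨by show j + 2 ≠ j; omega, by show j + 2 ≠ j + 1; omega⟩, oc_zero o1, ?_, ?_⟩
    · show |j + 2 - j| ≤ 4
      rw [abs_le]
      omega
    · show |r - r| ≤ 4
      rw [abs_le]
      omega
  | 4, o1 => exact Or.inr (Or.inr (Or.inl o1))
  | 5, o1 => exact Or.inr (Or.inr (Or.inr o1))

/-! ### signs -/

theorem ng_sin {x : ℝ} (h1 : 0 ≤ x) (h2 : x ≤ Real.pi) : 0 ≤ Real.sin x := Real.sin_nonneg_of_nonneg_of_le_pi h1 h2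

theorem ng_wt {u : ℝ} (h1 : 0 ≤ u) (h2 : u ≤ Real.pi / 4) {c : Cell} (hc : c ≠ .y ∨ Real.pi / 8 ≤ u) : 0 ≤ c.wt (wR u) := by
  have hp := Real.pi_pos
  have hD := (UNI.DR_pos (u := u) (by linarith) (by linarith)).le
  have e1 := ng_sin h1 (by linarith)
  have e2 := ng_sin (x := 3 * Real.pi / 8 - u) (by linarith) (by linarith)
  have e3 := ng_sin (x := Real.pi / 4) (by linarith) (by linarith)
  have e4 := ng_sin (x := Real.pi / 4 - u) (by linarith) (by linarith)
  cases c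
  · exact zero_le_one
  · exact div_nonneg (mul_nonneg e1 e2) hD
  · exact div_nonneg (mul_nonneg e1 e2) hD
  · exact div_nonneg (mul_nonneg e3 e2) hD
  · exact div_nonneg (mul_nonneg e3 e2) hD
  · exact div_nonneg (mul_nonneg e3 e1) hD
  · exact div_nonneg (mul_nonneg e3 e1) hD
  · exact div_nonneg (mul_nonneg e4 e2) hD
  · rcases hc with hc | hc
    · exact absurd rfl hc
    · exact div_nonneg (mul_nonneg e1 (ng_sin (by linarith) (by linarith))) hD

theorem ng_wtb (c : Cell) : 0 ≤ c.wt (wR bA) :=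
  ng_wt (by unfold bA; linarith [Real.pi_pos]) (by unfold bA; linarith [Real.pi_pos]) (Or.inr (by unfold bA; linarith [Real.pi_pos]))

theorem ng_wth (c : Cell) : 0 ≤ c.wt (wR hA) :=
  ng_wt (by unfold hA; linarith [Real.pi_pos]) (by unfold hA; linarith [Real.pi_pos]) (Or.inr (by unfold hA; linarith [Real.pi_pos]))

theorem ng_wtE (p : Pt) (c : Cell) : 0 ≤ c.wt (WE k j s (some p)) := by
  simp only [WE, WL, latj]
  split_ifs <;> first | exact ng_wtb c | exact ng_wth c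

/-- **only the crossing `y` has a negative weight** -/
theorem ng_W1 (h : δ none ≠ .y) : 0 ≤ W1X (WE k j s) δ := by
  refine Finset.prod_nonneg fun v _ => ?_
  rcases v with _ | p
  · exact ng_wt (by unfold dA; linarith [Real.pi_pos]) (by unfold dA; linarith [Real.pi_pos]) (Or.inl h)
  · exact ng_wtE p _

theorem ng_Wnn {γ : FX Unit} (h : co γ () none ≠ .y) : 0 ≤ WX (WE k j s) γ := by
  rw [← fam1_co γ, W1X_eq]
  exact ng_W1 h

/-! ### sums with absolute values -/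

theorem ng_AXmono {Ev Ev' : (VX →₀ Cell) → Prop} (h : ∀ δ, Lp (gX j s) δ → Bx1 B δ → Ev δ → Ev' δ) :
    AX k j s B (ngI Ev) ≤ AX k j s B (ngI Ev') := by
  classical
  rw [AX_eq, AX_eq]
  refine Finset.sum_le_sum fun γ _ => ?_
  by_cases hf : Fam (gX j s) γ ∧ Bx B γ
  · rw [if_pos hf, if_pos hf]
    refine mul_le_mul_of_nonneg_left ?_ (abs_nonneg _)
    by_cases he : Ev (co γ ())
    · have h1 : Bx1 B (co γ ()) := by
        rw [← fam1_bx, fam1_co]
        exact hf.2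
      have e1 : ngI Ev γ = 1 := if_pos he
      have e2 : ngI Ev' γ = 1 := if_pos (h _ (fam_one.1 hf.1) h1 he)
      rw [e1, e2]
    · have e1 : ngI Ev γ = 0 := if_neg he
      rw [e1]
      exact ngI_nonneg _
  · rw [if_neg hf, if_neg hf]

theorem ng_AXor {Ev Ev' : (VX →₀ Cell) → Prop} :
    AX k j s B (ngI fun δ => Ev δ ∨ Ev' δ) ≤ AX k j s B (ngI Ev) + AX k j s B (ngI Ev') := by
  classical
  rw [AX_eq, AX_eq, AX_eq, ← Finset.sum_add_distrib]
  refine Finset.sum_le_sum fun γ _ => ?_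
  by_cases hf : Fam (gX j s) γ ∧ Bx B γ
  · rw [if_pos hf, if_pos hf, if_pos hf, ← mul_add]
    refine mul_le_mul_of_nonneg_left ?_ (abs_nonneg _)
    unfold ngI
    by_cases h1 : Ev (co γ ()) <;> by_cases h2 : Ev' (co γ ()) <;> simp [h1, h2]
  · rw [if_neg hf, if_neg hf, if_neg hf, add_zero]

/-- absolute sum = signed sum + twice the crossings `y` -/
theorem ng_abs {Ev : (VX →₀ Cell) → Prop} :
    AX k j s B (ngI Ev) ≤ SX k j s B (ngI Ev) + 2 * AX k j s B (ngI fun δ => Ev δ ∧ δ none = .y) := by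
  classical
  rw [AX_eq, AX_eq, ng_SX, Finset.mul_sum, ← Finset.sum_add_distrib]
  refine Finset.sum_le_sum fun γ _ => ?_
  by_cases hf : Fam (gX j s) γ ∧ Bx B γ
  · rw [if_pos hf, if_pos hf, if_pos hf]
    by_cases he : Ev (co γ ())
    · have e1 : ngI Ev γ = 1 := if_pos he
      by_cases hy : co γ () none = .y
      · have e2 : (ngI fun δ => Ev δ ∧ δ none = .y) γ = 1 := if_pos ⟨he, hy⟩
        rw [e1, e2]
        have := neg_abs_le (WX (WE k j s) γ)
        linarith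
      · have e2 : (ngI fun δ => Ev δ ∧ δ none = .y) γ = 0 := if_neg fun h => hy h.2
        rw [e1, e2, abs_of_nonneg (ng_Wnn hy)]
        linarith
    · have e1 : ngI Ev γ = 0 := if_neg he
      have e2 : (ngI fun δ => Ev δ ∧ δ none = .y) γ = 0 := if_neg fun h => he h.1
      rw [e1, e2]
      simp
  · rw [if_neg hf, if_neg hf, if_neg hf]
    simp

/-- the signed sum of the loops which use the edges above the crossing -/
theorem ng_sgn {Ev : (VX →₀ Cell) → Prop} : AX k j t B (ngI fun δ => Ev δ ∧ δ none = .nw) ≤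
    SX k j t B (ngI fun δ => Ev δ ∧ UpL j t δ) + AX k j t B (ngI fun δ => Ev δ ∧ δ none = .y) := by
  classical
  rw [AX_eq, AX_eq, ng_SX, ← Finset.sum_add_distrib]
  refine Finset.sum_le_sum fun γ _ => ?_
  by_cases hf : Fam (gX j t) γ ∧ Bx B γ
  · rw [if_pos hf, if_pos hf, if_pos hf]
    have l : Lp (gX j t) (co γ ()) := fam_one.1 hf.1
    by_cases he : Ev (co γ ())
    · by_cases hy : co γ () none = .y
      · have e1 : (ngI fun δ => Ev δ ∧ δ none = .nw) γ = 0 := if_neg fun h => absurd (hy.symm.trans h.2) (by decide)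
        have e2 : (ngI fun δ => Ev δ ∧ δ none = .y) γ = 1 := if_pos ⟨he, hy⟩
        rw [e1, e2, mul_zero, mul_one]
        have h1 := neg_abs_le (WX (WE k j t) γ)
        have h2 := abs_nonneg (WX (WE k j t) γ)
        rcases (show (ngI fun δ => Ev δ ∧ UpL j t δ) γ = 0 ∨ (ngI fun δ => Ev δ ∧ UpL j t δ) γ = 1 by
          unfold ngI
          split_ifs
          · exact Or.inr rfl
          · exact Or.inl rfl) with h3 | h3
        · rw [h3]; linarith
        · rw [h3]; linarith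
      · have w0 : 0 ≤ WX (WE k j t) γ := ng_Wnn hy
        have e2 : (ngI fun δ => Ev δ ∧ δ none = .y) γ = 0 := if_neg fun h => hy h.2
        rw [e2, mul_zero, add_zero, abs_of_nonneg w0]
        refine mul_le_mul_of_nonneg_left ?_ w0
        by_cases hn : co γ () none = .nw
        · have hu : UpL j t (co γ ()) := by
            left
            have o1 : oc (co γ ()) (none, .W) := by
              show (co γ () none).oc .W
              rw [hn]
              decide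
            exact (l.mt (none, .W) trivial trivial).1 o1
          have e3 : (ngI fun δ => Ev δ ∧ UpL j t δ) γ = 1 := if_pos ⟨he, hu⟩
          rw [e3]
          unfold ngI
          split_ifs
          · exact le_rfl
          · exact zero_le_one
        · have e1 : (ngI fun δ => Ev δ ∧ δ none = .nw) γ = 0 := if_neg fun h => hn h.2
          rw [e1]
          exact ngI_nonneg _
    · have e1 : (ngI fun δ => Ev δ ∧ δ none = .nw) γ = 0 := if_neg fun h => he h.1
      have e2 : (ngI fun δ => Ev δ ∧ δ none = .y) γ = 0 := if_neg fun h => he h.1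
      have e3 : (ngI fun δ => Ev δ ∧ UpL j t δ) γ = 0 := if_neg fun h => he h.1
      rw [e1, e2, e3]
      simp
  · rw [if_neg hf, if_neg hf, if_neg hf]
    simp

/-! ### the mate of a crossing `y` -/

theorem ng_cm : conn 1 ![.nw, .se, .sw] = some (qF 1 ![.y, .v, .v]) := by decide +kernel

theorem ng_cn : conn 1 ![.y, .ne, .nw] = none := by decide +kernel

theorem ng_yp : ∀ a b : Cell, a.oc .N → ¬ a.oc .W → b.oc .N → ¬ b.oc .E → (a.oc .E ↔ b.oc .W) →
    (a = .v ∧ b = .v) ∨ (a = .ne ∧ b = .nw) := by decide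

/-- the cells below a crossing `y` without cells near -/
theorem ng_yc {n : ℤ} (l : Lp (gX j (s + 1)) δ) (hy : δ none = .y) (hb : BigO j n δ)
    (h1 : δ (some (j - 1, s)) = .o) (h2 : δ (some (j + 2, s)) = .o) :
    δ (some (j, s)) = .v ∧ δ (some (j + 1, s)) = .v := by
  have es : s + 1 - 1 = s := by ring
  have o1 : oc δ (some (j, s), .N) := by
    have o : oc δ (none, .S) := by
      show (δ none).oc .S
      rw [hy]
      decide
    have := (l.mt (none, .S) trivial trivial).1 o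
    have e : (gX j (s + 1)).e (none, .S) = (some (j, s), .N) := by
      show (some (j, s + 1 - 1), Dir.N) = _
      rw [es]
    rwa [e] at this
  have o2 : oc δ (some (j + 1, s), .N) := by
    have o : oc δ (none, .E) := by
      show (δ none).oc .E
      rw [hy]
      decide
    have := (l.mt (none, .E) trivial trivial).1 o
    have e : (gX j (s + 1)).e (none, .E) = (some (j + 1, s), .N) := by
      show (some (j + 1, s + 1 - 1), Dir.N) = _
      rw [es]
    rwa [e] at this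
  have o3 : ¬ oc δ (some (j, s), .W) := by
    intro o
    have := (l.mt (some (j, s), .W) trivial trivial).1 o
    exact oc_zero (v := some (j - 1, s)) (d := .E) this h1
  have o4 : ¬ oc δ (some (j + 1, s), .E) := by
    intro o
    have := (l.mt (some (j + 1, s), .E) trivial trivial).1 o
    have e : (gX j (s + 1)).e (some (j + 1, s), .E) = (some (j + 2, s), .W) := by
      show (some (j + 1 + 1, s), Dir.W) = _
      rw [show j + 1 + 1 = j + 2 by ring]
    rw [e] at this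
    exact oc_zero this h2
  have o5 : oc δ (some (j, s), .E) ↔ oc δ (some (j + 1, s), .W) := l.mt (some (j, s), .E) trivial trivial
  rcases ng_yp _ _ o1 o3 o2 o4 o5 with h | h
  · exact h
  · exfalso
    obtain ⟨p, hp1, hp2, hp3⟩ := hb.off
    have c := conn_of (j := j) (s := s) (t := 1) (Γ := δ) l.mt fun h hh ho =>
      esc (A := Rg j s) l ⟨some p, ng_off ⟨hp1, hp2⟩, hp3⟩ hh ho
    have e : cF j s δ = ![.y, .ne, .nw] := by
      rw [cF, hy, h.1, h.2]
    rw [e, ng_cn] at c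
    exact absurd c (by simp)

/-- the mate -/
def ngMat (j s : ℤ) (δ : VX →₀ Cell) : VX →₀ Cell := upc j s δ (.nw, .se, .sw)

theorem ngm_out (v : VX) (hv : v ∉ Rg j s) : δ v = ngMat j s δ v := upc_out _ v hv

theorem ngm_lp {n : ℤ} (l : Lp (gX j (s + 1)) δ) (hy : δ none = .y) (hb : BigO j n δ)
    (h1 : δ (some (j, s)) = .v) (h2 : δ (some (j + 1, s)) = .v) : Lp (gX j (s + 1)) (ngMat j s δ) := by
  obtain ⟨p, hp1, hp2, hp3⟩ := hb.off
  have e : Eq6u (Rg j s) (Gt j s 1) (Gt j s 1) δ (ngMat j s δ) := by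
    refine (eq6u_iff (j := j) (s := s) (t := 1) (t' := 1) (show Mt (Gt j s 1) δ Set.univ from l.mt)).2 ⟨ngm_out, ?_⟩
    have e1 : cF j s δ = ![.y, .v, .v] := by rw [cF, hy, h1, h2]
    have e2 : cF j s (ngMat j s δ) = ![.nw, .se, .sw] := cF_upc _
    rw [e1, e2]
    exact ng_cm
  exact glue (agr 1 1) l ⟨some p, ng_off ⟨hp1, hp2⟩, hp3⟩ e.out e.mt e.op e.pr

theorem ngm_inj {δ δ' : VX →₀ Cell} (h0 : δ none = .y) (h1 : δ (some (j, s)) = .v) (h2 : δ (some (j + 1, s)) = .v)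
    (h0' : δ' none = .y) (h1' : δ' (some (j, s)) = .v) (h2' : δ' (some (j + 1, s)) = .v) (e : ngMat j s δ = ngMat j s δ') :
    δ = δ' := by
  ext1 v
  by_cases hv : v ∈ Rg j s
  · rcases hv with rfl | rfl | rfl
    · rw [h0, h0']
    · rw [h1, h1']
    · rw [h2, h2']
  · rw [ngm_out v hv, ngm_out (δ := δ') v hv, e]

theorem ng_nd : |(wR dA).w2| ≤ 1 / 2 * (wR dA).u2 := by
  have hp := Real.pi_pos
  have hp2 := Real.pi_lt_d2
  have hD := UNI.DR_pos (u := dA) (by unfold dA; linarith) (by unfold dA; linarith)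
  have e1 : 0 ≤ Real.sin dA := ng_sin (by unfold dA; linarith) (by unfold dA; linarith)
  have e2 : Real.sin (dA - Real.pi / 8) = -Real.sin dA := by
    rw [← Real.sin_neg]
    congr 1
    unfold dA
    ring
  have e3 : Real.sin dA ≤ 0.2 := by
    have := Real.sin_le (x := dA) (by unfold dA; positivity)
    refine this.trans ?_
    unfold dA
    linarith
  have e4 : (0.4 : ℝ) ≤ Real.sin (Real.pi / 4) := by
    rw [Real.sin_pi_div_four]
    have : (0.8 : ℝ) ≤ √2 := by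
      rw [show (0.8 : ℝ) = √(0.8 ^ 2) by rw [Real.sqrt_sq (by norm_num)]]
      exact Real.sqrt_le_sqrt (by norm_num)
    linarith
  show |Real.sin dA * Real.sin (dA - Real.pi / 8) / UNI.DR dA| ≤ 1 / 2 * (Real.sin (Real.pi / 4) * Real.sin dA / UNI.DR dA)
  rw [e2, abs_div, abs_of_pos hD, mul_neg, abs_neg, abs_mul_self, ← mul_div_assoc]
  exact div_le_div_of_nonneg_right (by nlinarith) hD.le

theorem ng_nb : (wR bA).v ≤ (wR bA).u2 := by
  have hp := Real.pi_pos
  have hD := UNI.DR_pos (u := bA) (by unfold bA; linarith) (by unfold bA; linarith)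
  have e1 : 0 ≤ Real.sin bA := ng_sin (by unfold bA; linarith) (by unfold bA; linarith)
  have e2 : Real.sin (3 * Real.pi / 8 - bA) ≤ Real.sin (Real.pi / 4) :=
    Real.sin_le_sin_of_le_of_le_pi_div_two (by unfold bA; linarith) (by linarith) (by unfold bA; linarith)
  show Real.sin bA * Real.sin (3 * Real.pi / 8 - bA) / UNI.DR bA ≤ Real.sin (Real.pi / 4) * Real.sin bA / UNI.DR bA
  exact div_le_div_of_nonneg_right (by nlinarith) hD.le

theorem ng_nh : (wR hA).v ≤ (wR hA).u1 := by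
  have hp := Real.pi_pos
  have hD := UNI.DR_pos (u := hA) (by unfold hA; linarith) (by unfold hA; linarith)
  have e1 : 0 ≤ Real.sin (3 * Real.pi / 8 - hA) := ng_sin (by unfold hA; linarith) (by unfold hA; linarith)
  have e2 : Real.sin hA ≤ Real.sin (Real.pi / 4) :=
    Real.sin_le_sin_of_le_of_le_pi_div_two (by unfold hA; linarith) (by linarith) (by unfold hA; linarith)
  show Real.sin hA * Real.sin (3 * Real.pi / 8 - hA) / UNI.DR hA ≤ Real.sin (Real.pi / 4) * Real.sin (3 * Real.pi / 8 - hA) / UNI.DR hA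
  gcongr

theorem ng_We : WE k j (s + 1) (some (j, s)) = wR bA := by
  simp [WE, WL]

theorem ng_We1 : WE k j (s + 1) (some (j + 1, s)) = wR hA := by
  simp [WE, WL]

theorem ngm_wt {γ : FX Unit} (h0 : co γ () none = .y) (h1 : co γ () (some (j, s)) = .v) (h2 : co γ () (some (j + 1, s)) = .v) :
    |WX (WE k j (s + 1)) γ| ≤ 1 / 2 * |WX (WE k j (s + 1)) (fam1 (ngMat j s (co γ ())))| := by
  have u : ∀ (δ : VX →₀ Cell) (v : VX) (c : Cell), δ v = c → IsUn (fam1 δ v) c := by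
    intro δ v c h
    rw [← h]
    exact un_one
  have a1 := WX_cls (W := WE k j (s + 1)) (j := j) (r := s) (γ := γ) (γ' := fam1 (co γ ())) (c := (.y, .v, .v))
    (fun v _ => by rw [fam1_co]) (u _ _ _ h0) (u _ _ _ h1) (u _ _ _ h2)
  have a2 := WX_cls (W := WE k j (s + 1)) (j := j) (r := s) (γ := γ) (γ' := fam1 (ngMat j s (co γ ()))) (c := (.nw, .se, .sw))
    (fun v hv => by
      funext a
      exact ngm_out (δ := co γ ()) v hv) (u _ _ _ (upc_none _)) (u _ _ _ (upc_left _)) (u _ _ _ (upc_right _))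
  rw [fam1_co] at a1
  rw [a1, a2, ng_We, ng_We1, abs_mul (OX (WE k j (s + 1)) j s γ), abs_mul (OX (WE k j (s + 1)) j s γ)]
  have e : |(Cell.y.wt (WE k j (s + 1) none) * (Cell.v.wt (wR bA) * Cell.v.wt (wR hA)))| ≤
      1 / 2 * |(Cell.nw.wt (WE k j (s + 1) none) * (Cell.se.wt (wR bA) * Cell.sw.wt (wR hA)))| := by
    show |(wR dA).w2 * ((wR bA).v * (wR hA).v)| ≤ 1 / 2 * |(wR dA).u2 * ((wR bA).u2 * (wR hA).u1)|
    have b1 : 0 ≤ (wR bA).v := ng_wtb .v
    have b2 : 0 ≤ (wR hA).v := ng_wth .v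
    have b3 : 0 ≤ (wR bA).u2 := ng_wtb .se
    have b4 : 0 ≤ (wR hA).u1 := ng_wth .sw
    have b5 : 0 ≤ (wR dA).u2 :=
      ng_wt (c := .se) (by unfold dA; linarith [Real.pi_pos]) (by unfold dA; linarith [Real.pi_pos]) (Or.inl (by decide))
    rw [abs_mul, abs_of_nonneg (mul_nonneg b1 b2), abs_of_nonneg (mul_nonneg b5 (mul_nonneg b3 b4))]
    calc |(wR dA).w2| * ((wR bA).v * (wR hA).v) ≤ (1 / 2 * (wR dA).u2) * ((wR bA).u2 * (wR hA).u1) :=
          mul_le_mul ng_nd (mul_le_mul ng_nb ng_nh b2 b3) (mul_nonneg b1 b2) (by positivity)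
      _ = _ := by ring
  calc |OX (WE k j (s + 1)) j s γ| * |(Cell.y.wt (WE k j (s + 1) none) * (Cell.v.wt (wR bA) * Cell.v.wt (wR hA)))|
      ≤ |OX (WE k j (s + 1)) j s γ| * (1 / 2 * |(Cell.nw.wt (WE k j (s + 1) none) * (Cell.se.wt (wR bA) * Cell.sw.wt (wR hA)))|) :=
        mul_le_mul_of_nonneg_left e (abs_nonneg _)
    _ = _ := by ring

/-- **the crossings `y` without cells near**: at most half of the crossings `nw` -/
theorem ng_mate {n : ℤ} (h1 : -B ≤ j) (h2 : j + 1 ≤ B) (ht : t = r ∨ t = r + 1) (htB : t ≤ B + 1) :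
    AX k j t B (ngI fun δ => (BigO j n δ ∧ ¬ NcO j r δ) ∧ δ none = .y) ≤
      1 / 2 * AX k j t B (ngI fun δ => (BigO j n δ ∧ ¬ NcO j r δ) ∧ δ none = .nw) := by
  classical
  obtain ⟨s, rfl⟩ : ∃ s, t = s + 1 := ⟨t - 1, by ring⟩
  set S : Finset (FX Unit) := (fin_Bx B).toFinset.filter fun γ => (Fam (gX j (s + 1)) γ ∧ Bx B γ) ∧
    (BigO j n (co γ ()) ∧ ¬ NcO j r (co γ ())) ∧ co γ () none = .y with hS
  set T : Finset (FX Unit) := (fin_Bx B).toFinset.filter fun γ => (Fam (gX j (s + 1)) γ ∧ Bx B γ) ∧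
    (BigO j n (co γ ()) ∧ ¬ NcO j r (co γ ())) ∧ co γ () none = .nw with hT
  have mS : ∀ γ, γ ∈ S → (Fam (gX j (s + 1)) γ ∧ Bx B γ) ∧
    (BigO j n (co γ ()) ∧ ¬ NcO j r (co γ ())) ∧ co γ () none = .y := fun γ h => (Finset.mem_filter.1 h).2
  have key : ∀ c : Cell, AX k j (s + 1) B (ngI fun δ => (BigO j n δ ∧ ¬ NcO j r δ) ∧ δ none = c) =
      ∑ γ ∈ (fin_Bx B).toFinset.filter (fun γ => (Fam (gX j (s + 1)) γ ∧ Bx B γ) ∧
        (BigO j n (co γ ()) ∧ ¬ NcO j r (co γ ())) ∧ co γ () none = c), |WX (WE k j (s + 1)) γ| := by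
    intro c
    rw [AX_eq, Finset.sum_filter]
    refine Finset.sum_congr rfl fun γ _ => ?_
    by_cases hf : Fam (gX j (s + 1)) γ ∧ Bx B γ
    · by_cases he : (BigO j n (co γ ()) ∧ ¬ NcO j r (co γ ())) ∧ co γ () none = c
      · rw [if_pos hf, if_pos ⟨hf, he⟩, show (ngI fun δ => (BigO j n δ ∧ ¬ NcO j r δ) ∧ δ none = c) γ = 1 from if_pos he, mul_one]
      · rw [if_pos hf, if_neg fun h => he h.2, show (ngI fun δ => (BigO j n δ ∧ ¬ NcO j r δ) ∧ δ none = c) γ = 0 from if_neg he,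
          mul_zero]
    · rw [if_neg hf, if_neg fun h => hf h.1]
  -- the cells of the members of `S`
  have cel : ∀ γ ∈ S, co γ () (some (j, s)) = .v ∧ co γ () (some (j + 1, s)) = .v := by
    intro γ hγ
    obtain ⟨⟨f, b⟩, ⟨hb, hn⟩, hy⟩ := mS γ hγ
    have near : ∀ c : ℤ, c ≠ j → c ≠ j + 1 → |c - j| ≤ 4 → co γ () (some (c, s)) = .o := by
      intro c c1 c2 c3
      by_contra hc
      refine hn ⟨(c, s), ⟨c1, c2⟩, hc, c3, ?_⟩
      show |s - r| ≤ 4
      rw [abs_le]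
      omega
    exact ng_yc (fam_one.1 f) hy hb (near _ (by omega) (by omega) (by rw [abs_le]; omega))
      (near _ (by omega) (by omega) (by rw [abs_le]; omega))
  have sB : ∀ γ ∈ S, |s| ≤ B := by
    intro γ hγ
    obtain ⟨⟨f, b⟩, -, hy⟩ := mS γ hγ
    refine (b j s fun h => ?_).2
    have := (cel γ hγ).1
    rw [co_apply, h] at this
    exact absurd this (by decide)
  set φ : FX Unit → FX Unit := fun γ => fam1 (ngMat j s (co γ ())) with hφ
  have inj : Set.InjOn φ S := by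
    intro γ hγ γ' hγ' e
    have e' : ngMat j s (co γ ()) = ngMat j s (co γ' ()) := by
      have := congrArg (fun g => co g ()) e
      simpa only [hφ, co_fam1] using this
    have := ngm_inj (mS γ hγ).2.2 (cel γ hγ).1 (cel γ hγ).2 (mS γ' hγ').2.2 (cel γ' hγ').1 (cel γ' hγ').2 e'
    rw [← fam1_co γ, ← fam1_co γ', this]
  have im : S.image φ ⊆ T := by
    intro γ' hγ'
    obtain ⟨γ, hγ, rfl⟩ := Finset.mem_image.1 hγ'
    obtain ⟨⟨f, b⟩, ⟨hb, hn⟩, hy⟩ := mS γ hγ
    have l := fam_one.1 f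
    have l' : Lp (gX j (s + 1)) (ngMat j s (co γ ())) := ngm_lp l hy hb (cel γ hγ).1 (cel γ hγ).2
    have o : ∀ v, v ∉ Rg j s → γ v = φ γ v := fun v hv => by
      funext a
      exact ngm_out (δ := co γ ()) v hv
    have b' : Bx B (φ γ) := ng_bx (sB γ hγ) h1 h2 o b
    have c1 : BigO j n (ngMat j s (co γ ())) := bigO_cs n (s + 1) (s + 1) _ _ (Or.inr rfl) (Or.inr rfl) l l' ngm_out hb
    have c2 : ¬ NcO j r (ngMat j s (co γ ())) := (ncO_cs r).not (s + 1) (s + 1) _ _ (Or.inr rfl) (Or.inr rfl) l l' ngm_out hn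
    refine Finset.mem_filter.2 ⟨(Set.Finite.mem_toFinset _).2 b', ⟨fam1_lp.2 l', b'⟩, ?_⟩
    show (BigO j n (co (fam1 (ngMat j s (co γ ()))) ()) ∧ ¬ NcO j r (co (fam1 (ngMat j s (co γ ()))) ())) ∧
      co (fam1 (ngMat j s (co γ ()))) () none = .nw
    rw [co_fam1]
    exact ⟨⟨c1, c2⟩, upc_none _⟩
  rw [key .y, key .nw, Finset.mul_sum]
  calc ∑ γ ∈ S, |WX (WE k j (s + 1)) γ| ≤ ∑ γ ∈ S, 1 / 2 * |WX (WE k j (s + 1)) (φ γ)| :=
        Finset.sum_le_sum fun γ hγ => ngm_wt (mS γ hγ).2.2 (cel γ hγ).1 (cel γ hγ).2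
    _ = ∑ γ' ∈ S.image φ, 1 / 2 * |WX (WE k j (s + 1)) γ'| :=
        (Finset.sum_image (f := fun γ' => 1 / 2 * |WX (WE k j (s + 1)) γ'|) inj).symm
    _ ≤ ∑ γ' ∈ T, 1 / 2 * |WX (WE k j (s + 1)) γ'| :=
        Finset.sum_le_sum_of_subset_of_nonneg im fun _ _ _ => by positivity

/-! ### the theorem -/

theorem ng_low {Ev Ev' : (VX →₀ Cell) → Prop} (h : NgOff j Ev) : NgOff j fun δ => Ev δ ∧ Ev' δ := fun δ e => h δ e.1

open Classical in
/-- **X7, near** -/
theorem nearG (ha : Abs3 Unit) (he : EndG) (hn : U.NearM LatJ) : NearG := by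
  intro ε hε
  obtain ⟨CE, hCE, hend⟩ := he
  have hC0 : 0 ≤ CE.toReal := ENNReal.toReal_nonneg
  obtain ⟨ε', hε', he'⟩ : ∃ ε' : ℝ, 0 < ε' ∧ 9 * ((1 + CE.toReal) * ε') ≤ ε :=
    ⟨ε / (9 * (1 + CE.toReal)), by positivity, le_of_eq (by field_simp)⟩
  obtain ⟨η, hη, N1, hnear⟩ := hn ε' hε'
  refine ⟨max (N1 + 2) (max 12 (⌈8 / η⌉ + 2)), ?_⟩
  intro N k j r t B hN hk hr h1 h2 ht
  obtain ⟨n, rfl⟩ : ∃ n, N = n + 2 := ⟨N - 2, by ring⟩
  have n1 : N1 ≤ n := by
    have := (le_max_left _ _).trans hN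
    omega
  have n2 : 10 ≤ n := by
    have := ((le_max_left _ _).trans (le_max_right _ _)).trans hN
    omega
  have n3 : ⌈8 / η⌉ ≤ n := by
    have := ((le_max_right _ _).trans (le_max_right _ _)).trans hN
    omega
  have n4 : (8 : ℝ) ≤ η * n := by
    have h3 : 8 / η ≤ n := (Int.le_ceil _).trans (by exact_mod_cast n3)
    rw [div_le_iff₀ hη] at h3
    linarith
  have hs : -B ≤ t ∧ t ≤ B + 1 := by
    rw [abs_le] at hr
    rcases ht with rfl | rfl <;> constructor <;> omega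
  obtain ⟨X, hX⟩ : ∃ X : ℝ, X = (1 + CE.toReal) * ε' := ⟨_, rfl⟩
  have X0 : 0 ≤ X := by
    rw [hX]
    positivity
  rw [← hX] at he'
  have near8 : ∀ u ∈ LatJ, ∀ p, U.muU u (U.Vis p 8 ∩ U.Ext n) ≤ ENNReal.ofReal ε' := fun u hu p =>
    hnear u hu n n1 p 8 (by push_cast; exact n4)
  have near2 : ∀ u ∈ LatJ, ∀ p, U.muU u (U.Vis p 2 ∩ U.Ext n) ≤ ENNReal.ofReal ε' := fun u hu p =>
    hnear u hu n n1 p 2 (by push_cast; linarith)
  have fin : ∀ u ∈ LatJ, ∀ p p', U.muU u (U.Vis p 8 ∩ U.Ext n) + CE * U.muU u (U.Vis p' 2 ∩ U.Ext n) ≤ ENNReal.ofReal X := by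
    intro u hu p p'
    calc U.muU u (U.Vis p 8 ∩ U.Ext n) + CE * U.muU u (U.Vis p' 2 ∩ U.Ext n)
        ≤ ENNReal.ofReal ε' + CE * ENNReal.ofReal ε' := by
          gcongr
          · exact near8 u hu p
          · exact near2 u hu p'
      _ = ENNReal.ofReal X := by
          rw [hX, add_mul, one_mul, ENNReal.ofReal_add hε'.le (by positivity), ENNReal.ofReal_mul hC0, ENNReal.ofReal_toReal hCE]
  have memA : ∀ {Ev : (VX →₀ Cell) → Prop}, (∀ δ, Ev δ → BigO j n δ) →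
      (∀ δ, Ev δ → ∃ p : Pt, δ (some p) ≠ .o ∧ |p.1 - j| ≤ 8 ∧ |p.2 - r| ≤ 8) → ∀ δ : VX →₀ Cell, Ev δ →
        ∀ l : E.Lp (dn δ), (⟨dn δ, l⟩ : Lps) ∈ U.Vis (j, r) 8 ∩ U.Ext n := by
    intro Ev hb hv δ hδ l
    obtain ⟨p, hp, hp1, hp2⟩ := hv δ hδ
    obtain ⟨a, b, -, -, q1, q2, q3⟩ := hb δ hδ
    refine ⟨⟨p, ?_, hp1, hp2⟩, ⟨a, b, ?_, ?_, Or.inl ?_⟩⟩
    · show dn δ p ≠ 0
      rw [dn_apply]
      exact hp
    · show dn δ a ≠ 0
      rw [dn_apply]
      exact q1
    · show dn δ b ≠ 0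
      rw [dn_apply]
      exact q2
    · show n ≤ b.1 - a.1
      omega
  have top : ∀ {Ev : (VX →₀ Cell) → Prop}, (∀ δ, Ev δ → BigO j n δ) →
      (∀ δ, Ev δ → ∃ p : Pt, δ (some p) ≠ .o ∧ |p.1 - j| ≤ 8 ∧ |p.2 - r| ≤ 8) → SX k j (B + 1) B (ngI Ev) ≤ X := by
    intro Ev hb hv
    have := (ng_top (A := U.Vis (j, r) 8 ∩ U.Ext n) hk h1 h2 (fun δ hδ => (hb δ hδ).ext) (hend k j B n hk h1 h2 n2).1
      fun δ _ _ hδ l => memA hb hv δ hδ l).trans (fin _ ⟨k, j, hk, rfl⟩ _ _)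
    rwa [ENNReal.ofReal_le_ofReal_iff X0] at this
  have bot : ∀ {Ev : (VX →₀ Cell) → Prop}, (∀ δ, Ev δ → BigO j n δ) →
      (∀ δ, Ev δ → ∃ p : Pt, δ (some p) ≠ .o ∧ |p.1 - j| ≤ 8 ∧ |p.2 - r| ≤ 8) → SX k j (-B) B (ngI Ev) ≤ X := by
    intro Ev hb hv
    have := (ng_bot (A := U.Vis (j, r) 8 ∩ U.Ext n) hk h1 h2 (fun δ hδ => (hb δ hδ).ext) (hend k j B n hk h1 h2 n2).2
      fun δ _ _ hδ l => memA hb hv δ hδ l).trans (fin _ ⟨k, j + 1, by omega, rfl⟩ _ _)
    rwa [ENNReal.ofReal_le_ofReal_iff X0] at this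
  have cellUp : ∀ {t0 : ℤ}, |t0 - r| ≤ 1 → ∀ δ, UpL j t0 δ → ∃ p : Pt, δ (some p) ≠ .o ∧ |p.1 - j| ≤ 8 ∧ |p.2 - r| ≤ 8 := by
    intro t0 h0 δ hu
    rw [abs_le] at h0
    rcases hu with hu | hu
    · refine ⟨(j, t0), oc_zero hu, ?_, ?_⟩
      · show |j - j| ≤ 8
        rw [abs_le]; omega
      · show |t0 - r| ≤ 8
        rw [abs_le]; omega
    · refine ⟨(j + 1, t0), oc_zero hu, ?_, ?_⟩
      · show |j + 1 - j| ≤ 8
        rw [abs_le]; omega
      · show |t0 - r| ≤ 8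
        rw [abs_le]; omega
  have cellLo : ∀ δ, LowL j r δ → ∃ p : Pt, δ (some p) ≠ .o ∧ |p.1 - j| ≤ 8 ∧ |p.2 - r| ≤ 8 := by
    intro δ hu
    rcases hu with hu | hu
    · refine ⟨(j, r - 1), oc_zero hu, ?_, ?_⟩
      · show |j - j| ≤ 8
        rw [abs_le]; omega
      · show |r - 1 - r| ≤ 8
        rw [abs_le]; omega
    · refine ⟨(j + 1, r - 1), oc_zero hu, ?_, ?_⟩
      · show |j + 1 - j| ≤ 8
        rw [abs_le]; omega
      · show |r - 1 - r| ≤ 8
        rw [abs_le]; omega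
  obtain ⟨Ev, hEv⟩ : ∃ Ev : (VX →₀ Cell) → Prop, Ev = fun δ => BigO j n δ ∧ ¬ NcO j r δ := ⟨_, rfl⟩
  have off : NgOff j Ev := by
    intro δ hδ
    rw [hEv] at hδ
    exact hδ.1.off
  have big : ∀ δ, Ev δ → BigO j n δ := by
    intro δ hδ
    rw [hEv] at hδ
    exact hδ.1
  have evc : ∀ r', NgC j r' Ev := by
    intro r'
    rw [hEv]
    exact (bigO_cs n).and (ncO_cs r).not
  -- near
  have cA : AX k j t B (ngI fun δ => BigO j n δ ∧ NcO j r δ) ≤ 3 * X := by
    have e1 := ng_ax1 (s := t) ha hk h1 h2 hs.1 hs.2 (Ev := fun δ => BigO j n δ ∧ NcO j r δ)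
      (fun r' _ => (bigO_cs n).and (ncO_cs r)) (fun δ hδ => hδ.1.off)
    have e2 := top (Ev := fun δ => BigO j n δ ∧ NcO j r δ) (fun δ hδ => hδ.1) fun δ hδ => by
      obtain ⟨p, -, q1, q2, q3⟩ := hδ.2
      exact ⟨p, q1, q2.trans (by norm_num), q3.trans (by norm_num)⟩
    linarith
  -- signed sums
  have sL : SX k j t B (ngI fun δ => Ev δ ∧ LowL j r δ) ≤ X := by
    rw [ng_up (ng_low off).out h1 h2 hs.1 hs.2 fun r' q1 q2 => ng_cs ((evc r').and (lowL_cs (by omega)))]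
    exact top (fun δ hδ => big δ hδ.1) fun δ hδ => cellLo δ hδ.2
  have sU : SX k j t B (ngI fun δ => Ev δ ∧ UpL j (r + 1) δ) ≤ X := by
    rw [ng_dn (ng_low off).out h1 h2 hs.1 hs.2 fun r' q1 q2 => ng_cs ((evc r').and (upL_cs (by omega)))]
    exact bot (fun δ hδ => big δ hδ.1) fun δ hδ => cellUp (by rw [abs_le]; omega) δ hδ.2
  have sT : SX k j t B (ngI fun δ => Ev δ ∧ UpL j t δ) ≤ X := by
    rw [ng_dn (ng_low off).out h1 h2 hs.1 hs.2 fun r' q1 q2 => ng_cs ((evc r').and (upL_cs (by omega)))]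
    exact bot (fun δ hδ => big δ hδ.1) fun δ hδ => cellUp (by rw [abs_le]; omega) δ hδ.2
  -- the crossings `y`
  have cY : AX k j t B (ngI fun δ => Ev δ ∧ δ none = .y) ≤ X := by
    have e1 := ng_mate (k := k) (n := n) h1 h2 ht hs.2
    have e2 := ng_sgn (k := k) (j := j) (t := t) (B := B) (Ev := Ev)
    rw [hEv] at e2 sT ⊢
    linarith
  have absb : ∀ {Q : (VX →₀ Cell) → Prop}, SX k j t B (ngI fun δ => Ev δ ∧ Q δ) ≤ X →
      AX k j t B (ngI fun δ => Ev δ ∧ Q δ) ≤ 3 * X := by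
    intro Q hQ
    have e1 := ng_abs (k := k) (j := j) (s := t) (B := B) (Ev := fun δ => Ev δ ∧ Q δ)
    have e2 : AX k j t B (ngI fun δ => (Ev δ ∧ Q δ) ∧ δ none = .y) ≤ AX k j t B (ngI fun δ => Ev δ ∧ δ none = .y) :=
      ng_AXmono fun δ _ _ h => ⟨h.1.1, h.2⟩
    linarith
  have cL := absb sL
  have cU := absb sU
  have e0 : A1 k j t B (fun δ => if Big (n + 2) δ ∧ Us1 j r δ then 1 else 0) = AX k j t B (ngI fun δ => Big (n + 2) δ ∧ Us1 j r δ) := by
    rw [← ng_A1]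
    refine congrArg _ (funext fun δ => ?_)
    by_cases h : Big (n + 2) δ ∧ Us1 j r δ
    · rw [if_pos h, if_pos h]
    · rw [if_neg h, if_neg h]
  rw [e0]
  have e1 : AX k j t B (ngI fun δ => Big (n + 2) δ ∧ Us1 j r δ) ≤
      AX k j t B (ngI fun δ => (BigO j n δ ∧ NcO j r δ) ∨ ((Ev δ ∧ LowL j r δ) ∨ (Ev δ ∧ UpL j (r + 1) δ))) := by
    refine ng_AXmono fun δ l _ h => ?_
    have hb : BigO j n δ := by
      have := big_off l (by omega) h.1
      rwa [add_sub_cancel_right] at this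
    by_cases hc : NcO j r δ
    · exact Or.inl ⟨hb, hc⟩
    · have hE : Ev δ := by
        rw [hEv]
        exact ⟨hb, hc⟩
      rcases us_leg ht l hb h.2 with h3 | h3 | h3
      · exact absurd h3 hc
      · exact Or.inr (Or.inl ⟨hE, h3⟩)
      · exact Or.inr (Or.inr ⟨hE, h3⟩)
  have e2 := ng_AXor (k := k) (j := j) (s := t) (B := B) (Ev := fun δ => BigO j n δ ∧ NcO j r δ)
    (Ev' := fun δ => (Ev δ ∧ LowL j r δ) ∨ (Ev δ ∧ UpL j (r + 1) δ))
  have e3 := ng_AXor (k := k) (j := j) (s := t) (B := B) (Ev := fun δ => Ev δ ∧ LowL j r δ)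
    (Ev' := fun δ => Ev δ ∧ UpL j (r + 1) δ)
  linarith

end

end Pool.Agent.ROT.X
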