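import Pool.Agent.ROT.XTop6
import Pool.Agent.ROT.XCmp6
import Pool.Agent.ROT.ULine7

/-!
# UNIV, exact side, row X8 (helper21), part 7: without hypothesis
-/

set_option autoImplicit false

namespace Pool.Agent.ROT.X

/-- **row X8: top or bottom of a large loop at a given row of the strip** -/
theorem topB_all : TopB := topB cmp6 U.Ls.lawR

end Pool.Agent.ROT.X
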