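import Pool.Agent.ROT.XIncA
import Pool.Agent.ROT.XTop7
import Pool.Agent.ROT.XIncT
import Pool.Agent.ROT.XFm41
import Pool.Agent.ROT.XBack
import Pool.Agent.ROT.XNearG
import Pool.Agent.ROT.XMassC
import Pool.Agent.ROT.XMassS
import Pool.Agent.ROT.XEndG
import Pool.Agent.ROT.XErr
import Pool.Agent.ROT.XAbs3
import Pool.Agent.ROT.UNearAll
import Pool.Agent.ROT.A6M

/-!
# UNIV, exact side: **the increment without hypotheses** (helper41, assembly of the rows of helpers 99, 60, 65, 39, 25, 98, 21, 27, 10)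

* `ctb : CTB`;
* `incT_all : IncT T P`;
* **`inc2_all : U.instU.INC2`**.
-/

set_option autoImplicit false

namespace Pool.Agent.ROT.X

open Pool.Agent.ROT.E (Cell)
open Pool.Agent.ROT.L

theorem lp_cl {j s : ℤ} {δ : VX →₀ Cell} (l : Lp (gX j s) δ) : (cl (fam1 δ) ()).Nonempty := by
  obtain ⟨v, hv⟩ := Finsupp.ne_iff.1 l.ne
  rcases v with _ | p
  · obtain ⟨d, hd⟩ := ex_side hv
    have h1 : oc δ ((gX j s).e (none, d)) := (l.mt (none, d) trivial trivial).1 hd
    cases d
    · exact cl_ne (p := (j + 1, s - 1)) (oc_zero h1)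
    · exact cl_ne (p := (j + 1, s)) (oc_zero h1)
    · exact cl_ne (p := (j, s)) (oc_zero h1)
    · exact cl_ne (p := (j, s - 1)) (oc_zero h1)
  · exact cl_ne hv

/-- **the coefficients of top and bottom are bounded** -/
theorem ctb : CTB := ⟨Mc, fun _ _ _ h => ⟨cT_bd h.mt, cB_bd h.mt (lp_cl h)⟩⟩

/-- **the increment for finite types of tracers** -/
theorem incT_all (T P : Type) [Fintype T] : IncT T P := by
  have hE : EndG := endG
  have hJ : U.NearM LatJ := U.nearJ
  have hS : MassS := massS (abs3 Unit) hE hJ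
  exact incT_of hJ (incA T P (rowErr (Option T)) hS (nearG (abs3 Unit) hE hJ) (massC_all hS) sideB_all topB_all hE hJ ctb)
    (xBack (U.nearU U.nearB) A6.hx_massU T P)

/-- **INC2 for the square lattices** -/
theorem inc2_all : U.instU.INC2 := inc2_of fun T P => incT_all T P

end Pool.Agent.ROT.X
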