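import Pool.Agent.ROT.XLim
import Pool.Agent.ROT.UDefs

/-!
# UNIV, exact side, row XGk (helper60): the functional left of the strip and right of the strip

For a family of the square lattice below the crossing:

* `cR_E`, `cL_E`, `cT_E`, `cB_E` : the coefficient is the product `U.qx` over the extreme line; `cR_1`, `cL_1`, `cT_0`, `cB_0` :
  the trivial values;
* `gRt J f`, `gLt J f` : the functionals of the response; **`gA_R`** : tracers left of the strip; **`gA_L`** : tracers right of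
  the strip; `vb_RL` : the condition `Vb`; **`inc_lim`** : the limits with these functionals.
-/

set_option autoImplicit false

namespace Pool.Agent.ROT.X

open Pool.Agent.EXL (Wt)
open Pool.Agent.YBC (Dir)
open Pool.Agent.UNI (wR wR_u1_pos wR_u2_pos wR_v_pos)
open Pool.Agent.ROT.E (Cell IsUn Pt Cfg)
open Pool.Agent.ROT.L

noncomputable section

variable {I : Type} {γ : E.Fm I} {i : I} {j s : ℤ}

/-! ### cells and heights -/

theorem cl_emb (γ : E.Fm I) (i : I) : cl (emb γ) i = (E.co γ i).support := by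
  ext v
  rw [mem_cl, emb_some, Finsupp.mem_support_iff]
  exact Iff.rfl

theorem ht_emb (γ : E.Fm I) (i : I) : ht (emb γ) i = A6.hc (E.co γ i) := by
  unfold ht A6.hc
  rw [cl_emb]

theorem lf_emb {θ : VX → Cell → ℝ} (hθ : ∀ v, θ v .o = 1) (γ : E.Fm I) (i : I) :
    lf θ (emb γ) i = ∏ p ∈ (E.co γ i).support, θ (some p) (E.co γ i p) := by
  classical
  have h : (emb γ).support = γ.support.map Function.Embedding.some := Finsupp.support_embDomain _ _
  unfold lf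
  rw [h, Finset.prod_map]
  symm
  refine Finset.prod_subset_one_on_sdiff (fun v hv => ?_) (fun v hv => ?_) fun v _ => ?_
  · rw [Finsupp.mem_support_iff] at hv ⊢
    intro h0
    apply hv
    show γ v i = 0
    rw [h0]
    rfl
  · rw [Finset.mem_sdiff, Finsupp.notMem_support_iff] at hv
    show θ (some v) (emb γ (some v) i) = 1
    rw [emb_some]
    have h1 : γ v i = .o := hv.2
    rw [h1, hθ]
  · show _ = θ (some v) (emb γ (some v) i)
    rw [emb_some]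
    rfl

/-! ### right and left -/

theorem cR_E (h : A6.hc (E.co γ i) 1 < j) : cR j s (emb γ) i = U.qx U.bb (E.co γ i) 1 := by
  classical
  unfold cR
  rw [lf_emb (thR_o j s _), ht_emb, U.qx, Finset.prod_filter]
  refine Finset.prod_congr rfl fun p _ => ?_
  show (if p.1 = A6.hc (E.co γ i) 1 ∧ (A6.hc (E.co γ i) 1 < j ∨ _) then rt _ else 1) = if p.1 = A6.hc (E.co γ i) 1 then _ else 1
  by_cases hp : p.1 = A6.hc (E.co γ i) 1
  · rw [if_pos ⟨hp, Or.inl h⟩, if_pos hp]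
    rfl
  · rw [if_neg fun hc => hp hc.1, if_neg hp]

theorem cR_1 (h : j < A6.hc (E.co γ i) 1) : cR j s (emb γ) i = 1 := by
  unfold cR
  rw [lf_emb (thR_o j s _), ht_emb]
  refine Finset.prod_eq_one fun p _ => ?_
  show (if p.1 = A6.hc (E.co γ i) 1 ∧ (A6.hc (E.co γ i) 1 < j ∨ (A6.hc (E.co γ i) 1 = j ∧ s ≤ p.2)) then rt _ else 1) = 1
  rw [if_neg]
  omega

theorem cL_E (h : j + 1 < A6.hc (E.co γ i) 0) : cL j s (emb γ) i = U.qx U.bb (E.co γ i) 0 := by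
  classical
  unfold cL
  rw [lf_emb (thL_o j s _), ht_emb, U.qx, Finset.prod_filter]
  refine Finset.prod_congr rfl fun p _ => ?_
  show (if p.1 = A6.hc (E.co γ i) 0 ∧ (j + 1 < A6.hc (E.co γ i) 0 ∨ _) then rt _ else 1) =
    if p.1 = A6.hc (E.co γ i) 0 then _ else 1
  by_cases hp : p.1 = A6.hc (E.co γ i) 0
  · rw [if_pos ⟨hp, Or.inl h⟩, if_pos hp]
    rfl
  · rw [if_neg fun hc => hp hc.1, if_neg hp]

theorem cL_1 (h : A6.hc (E.co γ i) 0 ≤ j) : cL j s (emb γ) i = 1 := by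
  unfold cL
  rw [lf_emb (thL_o j s _), ht_emb]
  refine Finset.prod_eq_one fun p _ => ?_
  show (if p.1 = A6.hc (E.co γ i) 0 ∧ (j + 1 < A6.hc (E.co γ i) 0 ∨ (A6.hc (E.co γ i) 0 = j + 1 ∧ p.2 < s)) then rt _ else 1) = 1
  rw [if_neg]
  omega

/-! ### top and bottom: the trivial values -/

private theorem le3 {δ : Cfg} {p : Pt} (hp : p ∈ δ.support) :
    A6.hc δ 0 ≤ p.1 ∧ p.1 ≤ A6.hc δ 1 ∧ A6.hc δ 2 ≤ p.2 ∧ p.2 ≤ A6.hc δ 3 :=
  ⟨hL_le hp, le_hR hp, hB_le hp, le_hT hp⟩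

theorem cT_0 (l : E.Lp (E.co γ i)) (hs : A6.hc (E.co γ i) 3 < s) (h : A6.hc (E.co γ i) 1 < j) : cT j s (emb γ) i = 0 := by
  unfold cT
  rw [lf_emb (thT_o j s _), ht_emb]
  obtain ⟨v, hv, e⟩ : ∃ v ∈ (E.co γ i).support, v.2 = A6.hc (E.co γ i) 3 := hT_mem (Finsupp.support_nonempty_iff.2 l.ne)
  refine Finset.prod_eq_zero hv ?_
  show (if v.2 = A6.hc (E.co γ i) 3 then tf (v.1 - qb j s (A6.hc (E.co γ i) 3)) _ else 1) = 0
  rw [if_pos e, qb, if_pos hs, tf, if_neg (A6.mem_supp.1 hv), if_pos]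
  have := (le3 hv).2.1
  omega

theorem cB_0 (l : E.Lp (E.co γ i)) (hs : A6.hc (E.co γ i) 2 < s) (h : j < A6.hc (E.co γ i) 0) : cB j s (emb γ) i = 0 := by
  unfold cB
  rw [lf_emb (thB_o j s _), ht_emb]
  obtain ⟨v, hv, e⟩ : ∃ v ∈ (E.co γ i).support, v.2 = A6.hc (E.co γ i) 2 := hB_mem (Finsupp.support_nonempty_iff.2 l.ne)
  refine Finset.prod_eq_zero hv ?_
  show (if v.2 = A6.hc (E.co γ i) 2 then bf (v.1 - qb j s (A6.hc (E.co γ i) 2)) _ else 1) = 0
  rw [if_pos e, qb, if_pos hs, bf, if_neg (A6.mem_supp.1 hv), if_pos]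
  have := (le3 hv).1
  omega

/-! ### as many sides `E` as sides `W` in a row -/

open Classical in
theorem card_EW {δ : Cfg} (l : E.Lp δ) (b : ℤ) :
    ((δ.support.filter fun v => v.2 = b).filter fun v => (δ v).oc .E).card =
      ((δ.support.filter fun v => v.2 = b).filter fun v => (δ v).oc .W).card := by
  refine Finset.card_nbij' (fun v => (v.1 + 1, v.2)) (fun v => (v.1 - 1, v.2)) ?_ ?_ ?_ ?_
  · intro v hv
    rw [Finset.mem_coe, Finset.mem_filter, Finset.mem_filter] at hv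
    obtain ⟨⟨h1, h2⟩, h3⟩ := hv
    have h5 : E.oc δ ((v.1 + 1, v.2), .W) := (l.mt (v, .E) (Set.mem_univ _) (Set.mem_univ _)).1 h3
    rw [Finset.mem_coe, Finset.mem_filter, Finset.mem_filter]
    exact ⟨⟨A6.oc_mem h5, h2⟩, h5⟩
  · intro v hv
    rw [Finset.mem_coe, Finset.mem_filter, Finset.mem_filter] at hv
    obtain ⟨⟨h1, h2⟩, h3⟩ := hv
    have h5 : E.oc δ ((v.1 - 1, v.2), .E) := (l.mt (v, .W) (Set.mem_univ _) (Set.mem_univ _)).1 h3
    rw [Finset.mem_coe, Finset.mem_filter, Finset.mem_filter]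
    exact ⟨⟨A6.oc_mem h5, h2⟩, h5⟩
  · intro v _
    simp
  · intro v _
    simp

private theorem posd : 0 < (wR dA).u1 ∧ 0 < (wR dA).u2 ∧ 0 < (wR hA).u1 ∧ 0 < (wR hA).u2 := by
  have hp := Real.pi_pos
  exact ⟨wR_u1_pos (by unfold dA; linarith) (by unfold dA; linarith), wR_u2_pos (by unfold dA; linarith) (by unfold dA; linarith),
    wR_u1_pos (by unfold hA; linarith) (by unfold hA; linarith), wR_u2_pos (by unfold hA; linarith) (by unfold hA; linarith)⟩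

/-- the gauge -/
private def ga : ℝ := (wR dA).u1 / (wR dA).u2

private theorem ga_ne : ga ≠ 0 := (div_pos posd.1 posd.2.1).ne'

open Classical in
private theorem gauge_prod {δ : Cfg} (l : E.Lp δ) (b : ℤ) {x : ℝ} (hx : x ≠ 0) :
    ∏ v ∈ δ.support.filter fun v => v.2 = b, ((if (δ v).oc .E then x else 1) * (if (δ v).oc .W then x⁻¹ else 1)) = 1 := by
  rw [Finset.prod_mul_distrib, Finset.prod_ite, Finset.prod_ite]
  simp only [Finset.prod_const, one_pow, mul_one]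
  rw [card_EW l b, ← mul_pow, mul_inv_cancel₀ hx, one_pow]

theorem cT_E (l : E.Lp (E.co γ i)) (hs : A6.hc (E.co γ i) 3 < s) (h : j < A6.hc (E.co γ i) 0) :
    cT j s (emb γ) i = U.qx U.dd (E.co γ i) 3 := by
  classical
  unfold cT
  rw [lf_emb (thT_o j s _), ht_emb, U.qx]
  have e1 : ∏ p ∈ (E.co γ i).support, thT j s (A6.hc (E.co γ i) 3) (some p) (E.co γ i p) =
      ∏ p ∈ (E.co γ i).support.filter fun v => v.2 = A6.hc (E.co γ i) 3, U.rc U.dd (E.co γ i p) *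
        ((if (E.co γ i p).oc .E then ga else 1) * (if (E.co γ i p).oc .W then ga⁻¹ else 1)) := by
    rw [Finset.prod_filter]
    refine Finset.prod_congr rfl fun p hp => ?_
    show (if p.2 = A6.hc (E.co γ i) 3 then tf (p.1 - qb j s (A6.hc (E.co γ i) 3)) _ else 1) = _
    by_cases e : p.2 = A6.hc (E.co γ i) 3
    · rw [if_pos e, if_pos e, qb, if_pos hs]
      have h1 := (le3 hp).1
      have h2 : ¬ (E.co γ i p).oc .N := fun ho => by
        have := A6.side_N l.mt (v := p) ho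
        have e2 : A6.hc (E.co γ i) 3 = hT (E.co γ i).support := rfl
        omega
      have h3 : E.co γ i p ≠ .o := Finsupp.mem_support_iff.1 hp
      obtain ⟨c, hc⟩ : ∃ c, c = E.co γ i p := ⟨_, rfl⟩
      rw [← hc] at h2 h3 ⊢
      have key : ∀ c : Cell, ¬ c.oc .N → c ≠ .o → c = .h ∨ c = .se ∨ c = .sw := by decide
      obtain ⟨q1, q2, q3, q4⟩ := posd
      rw [tf, if_neg h3, if_neg (by omega), if_neg (by omega)]
      rcases key c h2 h3 with rfl | rfl | rfl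
      · rw [if_neg (by decide), if_neg (by decide), if_pos rfl, if_pos (by decide), if_pos (by decide), mul_inv_cancel₀ ga_ne,
          mul_one]
        rfl
      · rw [if_pos rfl, if_pos (by decide), if_neg (by decide), mul_one]
        show _ = (wR dA).u2 / (wR hA).u2 * ((wR dA).u1 / (wR dA).u2)
        field_simp
      · rw [if_neg (by decide), if_pos rfl, if_neg (by decide), if_pos (by decide), one_mul]
        show _ = (wR dA).u1 / (wR hA).u1 * ((wR dA).u1 / (wR dA).u2)⁻¹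
        rw [inv_div]
        field_simp
    · rw [if_neg e, if_neg e]
  rw [e1, Finset.prod_mul_distrib, gauge_prod l _ ga_ne, mul_one]
  rfl

theorem cB_E (l : E.Lp (E.co γ i)) (hs : A6.hc (E.co γ i) 2 < s) (h : A6.hc (E.co γ i) 1 < j) :
    cB j s (emb γ) i = U.qx U.dd (E.co γ i) 2 := by
  classical
  unfold cB
  rw [lf_emb (thB_o j s _), ht_emb, U.qx]
  have e1 : ∏ p ∈ (E.co γ i).support, thB j s (A6.hc (E.co γ i) 2) (some p) (E.co γ i p) =
      ∏ p ∈ (E.co γ i).support.filter fun v => v.2 = A6.hc (E.co γ i) 2, U.rc U.dd (E.co γ i p) *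
        ((if (E.co γ i p).oc .E then ga⁻¹ else 1) * (if (E.co γ i p).oc .W then (ga⁻¹)⁻¹ else 1)) := by
    rw [Finset.prod_filter]
    refine Finset.prod_congr rfl fun p hp => ?_
    show (if p.2 = A6.hc (E.co γ i) 2 then bf (p.1 - qb j s (A6.hc (E.co γ i) 2)) _ else 1) = _
    by_cases e : p.2 = A6.hc (E.co γ i) 2
    · rw [if_pos e, if_pos e, qb, if_pos hs]
      have h1 := (le3 hp).2.1
      have h2 : ¬ (E.co γ i p).oc .S := fun ho => by
        have := A6.side_S l.mt (v := p) ho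
        have e2 : A6.hc (E.co γ i) 2 = hB (E.co γ i).support := rfl
        omega
      have h3 : E.co γ i p ≠ .o := Finsupp.mem_support_iff.1 hp
      obtain ⟨c, hc⟩ : ∃ c, c = E.co γ i p := ⟨_, rfl⟩
      rw [← hc] at h2 h3 ⊢
      have key : ∀ c : Cell, ¬ c.oc .S → c ≠ .o → c = .h ∨ c = .nw ∨ c = .ne := by decide
      obtain ⟨q1, q2, q3, q4⟩ := posd
      rw [bf, if_neg h3, if_neg (by omega), if_neg (by omega), inv_inv]
      rcases key c h2 h3 with rfl | rfl | rfl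
      · rw [if_neg (by decide), if_neg (by decide), if_pos rfl, if_pos (by decide), if_pos (by decide), inv_mul_cancel₀ ga_ne,
          mul_one]
        rfl
      · rw [if_pos rfl, if_neg (by decide), if_pos (by decide), one_mul]
        show _ = (wR dA).u2 / (wR hA).u2 * ((wR dA).u1 / (wR dA).u2)
        field_simp
      · rw [if_neg (by decide), if_pos rfl, if_pos (by decide), if_neg (by decide), mul_one]
        show _ = (wR dA).u1 / (wR hA).u1 * ((wR dA).u1 / (wR dA).u2)⁻¹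
        rw [inv_div]
        field_simp
    · rw [if_neg e, if_neg e]
  rw [e1, Finset.prod_mul_distrib, gauge_prod l _ (inv_ne_zero ga_ne), mul_one]
  rfl

/-! ### the functionals -/

/-- **the functional of the tracers left of the strip** (right column, bottom row) -/
def gRt (J : Finset I) (f : Hf I) (γ : FX I) : ℝ := f (ht γ) + ∑ i ∈ J,
  ((U.qx U.bb (E.co (dn γ) i) 1 - 1) * (f (ht γ) - f (upd (ht γ) i 1 (ht γ i 1 + 1))) -
    U.qx U.dd (E.co (dn γ) i) 2 * (f (ht γ) - f (upd (ht γ) i 2 (ht γ i 2 + 1))))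

/-- **the functional of the tracers right of the strip** (left column, top row) -/
def gLt (J : Finset I) (f : Hf I) (γ : FX I) : ℝ := f (ht γ) + ∑ i ∈ J,
  ((U.qx U.bb (E.co (dn γ) i) 0 - 1) * (f (ht γ) - f (upd (ht γ) i 0 (ht γ i 0 - 1))) -
    U.qx U.dd (E.co (dn γ) i) 3 * (f (ht γ) - f (upd (ht γ) i 3 (ht γ i 3 - 1))))

theorem gA_R0 {J : Finset I} {f : Hf I} (l : ∀ i ∈ J, E.Lp (E.co γ i)) (hs : ∀ i ∈ J, A6.hc (E.co γ i) 3 < s)
    (h : ∀ i ∈ J, A6.hc (E.co γ i) 1 < j) : gA J f j s (emb γ) = gRt J f (emb γ) := by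
  unfold gA gRt
  congr 1
  refine Finset.sum_congr rfl fun i hi => ?_
  obtain ⟨v, hv⟩ := Finsupp.support_nonempty_iff.2 (l i hi).ne
  obtain ⟨q1, q2, q3, q4⟩ := le3 hv
  have h1 := h i hi
  have h2 := hs i hi
  rw [cor, cR_E h1, cL_1 (by omega), cT_0 (l i hi) h2 h1, cB_E (l i hi) (by omega) h1, dn_emb]
  ring

theorem gA_L0 {J : Finset I} {f : Hf I} (l : ∀ i ∈ J, E.Lp (E.co γ i)) (hs : ∀ i ∈ J, A6.hc (E.co γ i) 3 < s)
    (h : ∀ i ∈ J, j + 1 < A6.hc (E.co γ i) 0) : gA J f j s (emb γ) = gLt J f (emb γ) := by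
  unfold gA gLt
  congr 1
  refine Finset.sum_congr rfl fun i hi => ?_
  obtain ⟨v, hv⟩ := Finsupp.support_nonempty_iff.2 (l i hi).ne
  obtain ⟨q1, q2, q3, q4⟩ := le3 hv
  have h1 := h i hi
  have h2 := hs i hi
  rw [cor, cR_1 (by omega), cL_E h1, cT_E (l i hi) h2 (by omega), cB_0 (l i hi) (by omega) (by omega), dn_emb]
  ring

/-! ### functions with a bounded support -/

private theorem upd_at [DecidableEq I] (h : I → Fin 4 → ℤ) (i a : I) (b c : Fin 4) (x : ℤ) :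
    upd h i b x a c = if a = i ∧ c = b then x else h a c := by
  unfold upd
  by_cases h1 : a = i
  · subst h1
    by_cases h2 : c = b
    · subst h2
      rw [if_pos ⟨rfl, rfl⟩]
      simp [Function.update]
    · rw [if_neg fun hc => h2 hc.2]
      simp [Function.update, h2]
  · rw [if_neg fun hc => h1 hc.1]
    simp [Function.update, h1]

/-- **tracers left of the strip**: `f` has its support in the columns `≤ K` -/
theorem gA_R {J : Finset I} {f : Hf I} {K : ℤ} (hf : ∀ h, f h ≠ 0 → ∀ i ∈ J, h i 1 ≤ K) (l : ∀ i ∈ J, E.Lp (E.co γ i))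
    (hs : ∀ i ∈ J, A6.hc (E.co γ i) 3 < s) (hj : K < j) : gA J f j s (emb γ) = gRt J f (emb γ) := by
  classical
  by_cases hc : ∀ i ∈ J, A6.hc (E.co γ i) 1 < j
  · exact gA_R0 l hs hc
  push Not at hc
  obtain ⟨a, ha, h1⟩ := hc
  have z : ∀ h : I → Fin 4 → ℤ, K < h a 1 → f h = 0 := fun h hk => by
    by_contra h0
    have := hf h h0 a ha
    omega
  have e0 : K < ht (emb γ) a 1 := by
    rw [ht_emb]
    omega
  have e1 : f (ht (emb γ)) = 0 := z _ e0
  have e2 : ∀ i (b : Fin 4) x, (b = 1 → ht (emb γ) i 1 ≤ x) → f (upd (ht (emb γ)) i b x) = 0 := by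
    intro i b x hx
    refine z _ ?_
    rw [upd_at]
    by_cases hc : a = i ∧ (1 : Fin 4) = b
    · rw [if_pos hc]
      have := hx hc.2.symm
      rw [← hc.1] at this
      omega
    · rw [if_neg hc]
      exact e0
  have c1 : gA J f j s (emb γ) = 0 := by
    unfold gA cor
    rw [e1, zero_add]
    refine Finset.sum_eq_zero fun i _ => ?_
    rw [e2 i 1 _ fun _ => by omega, e2 i 0 _ fun h => absurd h (by decide), e2 i 3 _ fun h => absurd h (by decide),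
      e2 i 2 _ fun h => absurd h (by decide)]
    ring
  have c2 : gRt J f (emb γ) = 0 := by
    unfold gRt
    rw [e1, zero_add]
    refine Finset.sum_eq_zero fun i _ => ?_
    rw [e2 i 1 _ fun _ => by omega, e2 i 2 _ fun h => absurd h (by decide)]
    ring
  rw [c1, c2]

/-- **tracers right of the strip**: `f` has its support in the columns `≥ K` -/
theorem gA_L {J : Finset I} {f : Hf I} {K : ℤ} (hf : ∀ h, f h ≠ 0 → ∀ i ∈ J, K ≤ h i 0) (l : ∀ i ∈ J, E.Lp (E.co γ i))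
    (hs : ∀ i ∈ J, A6.hc (E.co γ i) 3 < s) (hj : j + 1 < K) : gA J f j s (emb γ) = gLt J f (emb γ) := by
  classical
  by_cases hc : ∀ i ∈ J, j + 1 < A6.hc (E.co γ i) 0
  · exact gA_L0 l hs hc
  push Not at hc
  obtain ⟨a, ha, h1⟩ := hc
  have z : ∀ h : I → Fin 4 → ℤ, h a 0 < K → f h = 0 := fun h hk => by
    by_contra h0
    have := hf h h0 a ha
    omega
  have e0 : ht (emb γ) a 0 < K := by
    rw [ht_emb]
    omega
  have e1 : f (ht (emb γ)) = 0 := z _ e0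
  have e2 : ∀ i (b : Fin 4) x, (b = 0 → x ≤ ht (emb γ) i 0) → f (upd (ht (emb γ)) i b x) = 0 := by
    intro i b x hx
    refine z _ ?_
    rw [upd_at]
    by_cases hc : a = i ∧ (0 : Fin 4) = b
    · rw [if_pos hc]
      have := hx hc.2.symm
      rw [← hc.1] at this
      omega
    · rw [if_neg hc]
      exact e0
  have c1 : gA J f j s (emb γ) = 0 := by
    unfold gA cor
    rw [e1, zero_add]
    refine Finset.sum_eq_zero fun i _ => ?_
    rw [e2 i 1 _ fun h => absurd h (by decide), e2 i 0 _ fun _ => by omega, e2 i 3 _ fun h => absurd h (by decide),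
      e2 i 2 _ fun h => absurd h (by decide)]
    ring
  have c2 : gLt J f (emb γ) = 0 := by
    unfold gLt
    rw [e1, zero_add]
    refine Finset.sum_eq_zero fun i _ => ?_
    rw [e2 i 0 _ fun _ => by omega, e2 i 3 _ fun h => absurd h (by decide)]
    ring
  rw [c1, c2]

/-! ### the conditions of `xlimG` -/

private theorem hs_bx {B : ℤ} (l : E.Lp (E.co γ i)) (hb : Bx B (emb γ)) : A6.hc (E.co γ i) 3 < B + 1 := by
  obtain ⟨v, hv, e⟩ : ∃ v ∈ (E.co γ i).support, v.2 = A6.hc (E.co γ i) 3 := hT_mem (Finsupp.support_nonempty_iff.2 l.ne)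
  have h1 : emb γ (some (v.1, v.2)) ≠ 0 := by
    rw [emb_some]
    intro h0
    apply A6.mem_supp.1 hv
    show γ v i = .o
    rw [h0]
    rfl
  have h2 := (abs_le.1 (hb v.1 v.2 h1).2).2
  omega

/-- **`eR` of `xlimG`** -/
theorem gA_eR {J : Finset I} {f : Hf I} {χ : FX I → ℝ} {K : ℤ} (hf : ∀ h, f h ≠ 0 → ∀ i ∈ J, h i 1 ≤ K) {j B : ℤ} (hj : K < j)
    (γ : E.Fm I) (hγ : E.Fam γ) (hb : Bx B (emb γ)) :
    χ (emb γ) * gA J f j (B + 1) (emb γ) = χ (emb γ) * gRt J f (emb γ) := by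
  rw [gA_R hf (fun i _ => hγ.lp i) (fun i _ => hs_bx (hγ.lp i) hb) hj]

/-- **`eL` of `xlimG`** -/
theorem gA_eL {J : Finset I} {f : Hf I} {χ : FX I → ℝ} {K k : ℤ} (hf : ∀ h, f h ≠ 0 → ∀ i ∈ J, K ≤ h i 0) {B : ℤ} (hk : k + 1 < K)
    (γ : E.Fm I) (hγ : E.Fam γ) (hb : Bx B (emb γ)) :
    χ (emb γ) * gA J f k (B + 1) (emb γ) = χ (emb γ) * gLt J f (emb γ) := by
  rw [gA_L hf (fun i _ => hγ.lp i) (fun i _ => hs_bx (hγ.lp i) hb) hk]

/-! ### the condition `Vb` -/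

/-- finitely many configurations in a box -/
theorem cfg_fin (K : ℤ) : {δ : Cfg | ∀ v, δ v ≠ 0 → |v.1| ≤ K ∧ |v.2| ≤ K}.Finite := by
  refine Set.Finite.of_finite_image (f := fun δ : Cfg => fun v : (Finset.Icc (-K) K ×ˢ Finset.Icc (-K) K : Finset Pt) => δ v.1)
    (Set.toFinite _) ?_
  intro δ hδ δ' hδ' e
  ext1 v
  by_cases hv : v ∈ (Finset.Icc (-K) K ×ˢ Finset.Icc (-K) K : Finset Pt)
  · exact congrFun e ⟨v, hv⟩
  · have z : ∀ δ : Cfg, (∀ v, δ v ≠ 0 → |v.1| ≤ K ∧ |v.2| ≤ K) → δ v = 0 := by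
      intro δ h
      by_contra hc
      obtain ⟨h1, h2⟩ := h v hc
      rw [abs_le] at h1 h2
      exact hv (by rw [Finset.mem_product, Finset.mem_Icc, Finset.mem_Icc]; exact ⟨h1, h2⟩)
    rw [z δ hδ, z δ' hδ']

private theorem q_bd (K : ℤ) : ∃ Q : ℝ, 0 ≤ Q ∧ ∀ δ : Cfg, (∀ a, |A6.hc δ a| ≤ K) → ∀ a,
    |U.qx U.bb δ a| ≤ Q ∧ |U.qx U.dd δ a| ≤ Q := by
  classical
  refine ⟨∑ δ ∈ (cfg_fin K).toFinset, ∑ a : Fin 4, (|U.qx U.bb δ a| + |U.qx U.dd δ a|),
    Finset.sum_nonneg fun δ _ => Finset.sum_nonneg fun a _ => by positivity, fun δ hδ a => ?_⟩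
  have hm : δ ∈ (cfg_fin K).toFinset := by
    rw [Set.Finite.mem_toFinset]
    intro v hv
    obtain ⟨q1, q2, q3, q4⟩ := le3 (A6.mem_supp.2 hv)
    have h0 := abs_le.1 (hδ 0)
    have h1 := abs_le.1 (hδ 1)
    have h2 := abs_le.1 (hδ 2)
    have h3 := abs_le.1 (hδ 3)
    rw [abs_le, abs_le]
    omega
  have h1 : ∑ a : Fin 4, (|U.qx U.bb δ a| + |U.qx U.dd δ a|) ≤
      ∑ δ ∈ (cfg_fin K).toFinset, ∑ a : Fin 4, (|U.qx U.bb δ a| + |U.qx U.dd δ a|) :=
    Finset.single_le_sum (f := fun δ : Cfg => ∑ a : Fin 4, (|U.qx U.bb δ a| + |U.qx U.dd δ a|))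
      (fun δ _ => Finset.sum_nonneg fun a _ => by positivity) hm
  have h2 : |U.qx U.bb δ a| + |U.qx U.dd δ a| ≤ ∑ a : Fin 4, (|U.qx U.bb δ a| + |U.qx U.dd δ a|) :=
    Finset.single_le_sum (f := fun a : Fin 4 => |U.qx U.bb δ a| + |U.qx U.dd δ a|) (fun a _ => by positivity) (Finset.mem_univ a)
  have h3 := abs_nonneg (U.qx U.bb δ a)
  have h4 := abs_nonneg (U.qx U.dd δ a)
  constructor <;> linarith

/-- the tracers have their support in the box `K`, `f` is bounded by `Λ` -/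
structure Fs (J : Finset I) (f : Hf I) (K : ℤ) (Λ : ℝ) : Prop where
  sup : ∀ h, f h ≠ 0 → ∀ i ∈ J, ∀ a, |h i a| ≤ K
  bd : ∀ h, |f h| ≤ Λ

private theorem vb_gen {J : Finset I} {f : Hf I} {K : ℤ} {Λ : ℝ} (hf : Fs J f K Λ) {g : E.Fm I → ℝ}
    {q1 q2 : E.Fm I → I → ℝ} {b1 b2 : Fin 4} {s1 s2 : ℤ} (n1 : |s1| ≤ 1) (n2 : |s2| ≤ 1) {Q : ℝ} (hQ : 0 ≤ Q)
    (hq : ∀ γ i, (∀ a, |A6.hc (E.co γ i) a| ≤ K + 1) → |q1 γ i| ≤ Q ∧ |q2 γ i| ≤ Q)
    (hg : ∀ γ, g γ = f (ht (emb γ)) + ∑ i ∈ J, ((q1 γ i - 1) * (f (ht (emb γ)) - f (upd (ht (emb γ)) i b1 (ht (emb γ) i b1 + s1))) -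
      q2 γ i * (f (ht (emb γ)) - f (upd (ht (emb γ)) i b2 (ht (emb γ) i b2 + s2))))) :
    (∀ γ, |g γ| ≤ Λ + J.card * ((Q + 1) * (2 * Λ) + Q * (2 * Λ))) ∧
      ∀ γ, g γ ≠ 0 → ∀ i ∈ J, ∀ a, |A6.hc (E.co γ i) a| ≤ K + 1 := by
  classical
  have Λ0 : 0 ≤ Λ := (abs_nonneg _).trans (hf.bd 0)
  have out : ∀ γ, (∃ i ∈ J, ∃ a, ¬ |A6.hc (E.co γ i) a| ≤ K + 1) → g γ = 0 := by
    rintro γ ⟨i0, hi0, a0, h0⟩
    have e0 : K + 1 < |ht (emb γ) i0 a0| := by
      rw [ht_emb]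
      exact not_le.1 h0
    have z : ∀ h : I → Fin 4 → ℤ, K < |h i0 a0| → f h = 0 := fun h hk => by
      by_contra h1
      have := hf.sup h h1 i0 hi0 a0
      omega
    have e1 : f (ht (emb γ)) = 0 := z _ (by omega)
    have e2 : ∀ i b (s : ℤ), |s| ≤ 1 → f (upd (ht (emb γ)) i b (ht (emb γ) i b + s)) = 0 := by
      intro i b s hs
      refine z _ ?_
      rw [upd_at]
      by_cases hc : i0 = i ∧ a0 = b
      · rw [if_pos hc, ← hc.1, ← hc.2]
        have h1 := abs_le.1 hs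
        rcases lt_abs.1 e0 with h2 | h2
        · exact lt_abs.2 (Or.inl (by omega))
        · exact lt_abs.2 (Or.inr (by omega))
      · rw [if_neg hc]
        omega
    rw [hg, e1, zero_add]
    refine Finset.sum_eq_zero fun i _ => ?_
    rw [e2 i b1 s1 n1, e2 i b2 s2 n2]
    ring
  constructor
  · intro γ
    by_cases hc : ∃ i ∈ J, ∃ a, ¬ |A6.hc (E.co γ i) a| ≤ K + 1
    · rw [out γ hc, abs_zero]
      positivity
    · push Not at hc
      rw [hg]
      refine (abs_add_le _ _).trans (add_le_add (hf.bd _) ((Finset.abs_sum_le_sum_abs _ _).trans ?_))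
      rw [← nsmul_eq_mul]
      refine Finset.sum_le_card_nsmul _ _ _ fun i hi => ?_
      obtain ⟨h1, h2⟩ := hq γ i (hc i hi)
      have h3 : ∀ x y : ℝ, |x| ≤ Λ → |y| ≤ Λ → |x - y| ≤ 2 * Λ := fun x y hx hy => (abs_sub _ _).trans (by linarith)
      refine (abs_sub _ _).trans (add_le_add ?_ ?_)
      · rw [abs_mul]
        refine mul_le_mul ((abs_sub _ _).trans ?_) (h3 _ _ (hf.bd _) (hf.bd _)) (abs_nonneg _) (by linarith)
        rw [abs_one]
        linarith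
      · rw [abs_mul]
        exact mul_le_mul h2 (h3 _ _ (hf.bd _) (hf.bd _)) (abs_nonneg _) hQ
  · intro γ h i hi a
    by_contra hc
    exact h (out γ ⟨i, hi, a, hc⟩)

private theorem vb_of {J : Finset I} {K R : ℤ} {C : ℝ} {χ : FX I → ℝ} {g : FX I → ℝ} (hC : 0 ≤ C) (hχ : ∀ γ, |χ γ| ≤ 1)
    (hv : ∀ γ : E.Fm I, E.Fam γ → χ (emb γ) ≠ 0 → (∀ i ∈ J, ∀ a, |A6.hc (E.co γ i) a| ≤ K) → ∀ i ∉ J,
      ∃ p : Pt, γ p i ≠ .o ∧ |p.1| ≤ R ∧ |p.2| ≤ R)
    (h1 : ∀ γ : E.Fm I, |g (emb γ)| ≤ C) (h2 : ∀ γ : E.Fm I, g (emb γ) ≠ 0 → ∀ i ∈ J, ∀ a, |A6.hc (E.co γ i) a| ≤ K) :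
    Vb (max R K) C fun γ => χ γ * g γ := by
  refine ⟨hC, fun γ _ => ?_, fun γ f h0 i => ?_⟩
  · rw [abs_mul]
    calc |χ (emb γ)| * |g (emb γ)| ≤ 1 * C := mul_le_mul (hχ _) (h1 γ) (abs_nonneg _) zero_le_one
      _ = C := one_mul C
  · by_cases hi : i ∈ J
    · obtain ⟨v, hv⟩ := Finsupp.support_nonempty_iff.2 (f.lp i).ne
      obtain ⟨q1, q2, q3, q4⟩ := le3 hv
      have h3 := h2 γ (right_ne_zero_of_mul h0) i hi
      have a0 := abs_le.1 (h3 0)
      have a1 := abs_le.1 (h3 1)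
      have a2 := abs_le.1 (h3 2)
      have a3 := abs_le.1 (h3 3)
      refine ⟨v, A6.mem_supp.1 hv, ?_, ?_⟩
      · exact (abs_le.2 (by omega)).trans (le_max_right R K)
      · exact (abs_le.2 (by omega)).trans (le_max_right R K)
    · obtain ⟨p, hp, p1, p2⟩ := hv γ f (left_ne_zero_of_mul h0) (h2 γ (right_ne_zero_of_mul h0)) i hi
      exact ⟨p, hp, p1.trans (le_max_left _ _), p2.trans (le_max_left _ _)⟩

/-- **`hR` and `hL` of `xlimG`** -/
theorem vb_RL {J : Finset I} {f : Hf I} {K R : ℤ} {Λ : ℝ} (hf : Fs J f K Λ) {χ : FX I → ℝ} (hχ : ∀ γ, |χ γ| ≤ 1)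
    (hv : ∀ γ : E.Fm I, E.Fam γ → χ (emb γ) ≠ 0 → (∀ i ∈ J, ∀ a, |A6.hc (E.co γ i) a| ≤ K + 1) → ∀ i ∉ J,
      ∃ p : Pt, γ p i ≠ .o ∧ |p.1| ≤ R ∧ |p.2| ≤ R) :
    ∃ C : ℝ, Vb (max R (K + 1)) C (fun γ => χ γ * gRt J f γ) ∧ Vb (max R (K + 1)) C (fun γ => χ γ * gLt J f γ) := by
  obtain ⟨Q, hQ, hq⟩ := q_bd (K + 1)
  have Λ0 : 0 ≤ Λ := (abs_nonneg _).trans (hf.bd 0)
  have A := vb_gen hf (g := fun γ => gRt J f (emb γ)) (q1 := fun γ i => U.qx U.bb (E.co γ i) 1)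
    (q2 := fun γ i => U.qx U.dd (E.co γ i) 2) (b1 := 1) (b2 := 2) (s1 := 1) (s2 := 1) (by decide) (by decide) hQ
    (fun γ i h => ⟨(hq _ h 1).1, (hq _ h 2).2⟩) fun γ => by rw [gRt, dn_emb]
  have B := vb_gen hf (g := fun γ => gLt J f (emb γ)) (q1 := fun γ i => U.qx U.bb (E.co γ i) 0)
    (q2 := fun γ i => U.qx U.dd (E.co γ i) 3) (b1 := 0) (b2 := 3) (s1 := -1) (s2 := -1) (by decide) (by decide) hQ
    (fun γ i h => ⟨(hq _ h 0).1, (hq _ h 3).2⟩) fun γ => by rw [gLt, dn_emb]; rfl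
  exact ⟨_, vb_of (by positivity) hχ hv A.1 A.2, vb_of (by positivity) hχ hv B.1 B.2⟩

/-- **the box and the last strip to infinity**, with the functionals -/
theorem inc_lim [Fintype I] (hn : U.NearM LatJ) {J : Finset I} {f : Hf I} {k K R K0 : ℤ} {Λ e : ℝ} (hf : Fs J f K Λ)
    (h0 : ∀ h, f h ≠ 0 → ∀ i ∈ J, K0 ≤ h i 0) (hk : k + 1 < K0) {χ : FX I → ℝ} (hχ : ∀ γ, |χ γ| ≤ 1)
    (hv : ∀ γ : E.Fm I, E.Fam γ → χ (emb γ) ≠ 0 → (∀ i ∈ J, ∀ a, |A6.hc (E.co γ i) a| ≤ K + 1) → ∀ i ∉ J,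
      ∃ p : Pt, γ p i ≠ .o ∧ |p.1| ≤ R ∧ |p.2| ≤ R)
    (h : ∀ᶠ j : ℤ in Filter.atTop, ∀ᶠ B : ℤ in Filter.atTop, |SE k j B (fun γ => χ γ * gA J f j (B + 1) γ) -
      SE k k B (fun γ => χ γ * gA J f k (B + 1) γ)| ≤ e) :
    |FE (U.lat U.bb k) (fun γ => χ γ * gRt J f γ) - FE (U.lat U.bb (k + 1)) (fun γ => χ γ * gLt J f γ)| ≤ e := by
  obtain ⟨C, hR, hL⟩ := vb_RL hf hχ hv
  refine xlimG hn (g := fun j B γ => χ γ * gA J f j (B + 1) γ) hL hR ?_ ?_ h
  · filter_upwards [Filter.eventually_gt_atTop K] with j hj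
    exact Filter.Eventually.of_forall fun B γ f1 hb =>
      gA_eR (fun h hh i hi => (abs_le.1 (hf.sup h hh i hi 1)).2) hj γ f1 hb
  · exact Filter.Eventually.of_forall fun B γ f1 hb => gA_eL h0 hk γ f1 hb

end

end Pool.Agent.ROT.X
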