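import Pool.Agent.ROT.XIncDefs

/-!
# UNIV, exact side: the test function of the tracers (helper99)

`df1`, `df2`, `fG_bd` (constant `LL T Λ`), `onJ`, `wid`; `Loc` : where the tracers are on the support.
-/

set_option autoImplicit false

namespace Pool.Agent.ROT.X

open Pool.Agent.ROT.E (Cell IsUn Pt)
open Pool.Agent.ROT.L
open Pool.Agent.ROT.U (Tf1)

noncomputable section

variable {T P : Type} [Fintype T] {N : ℕ} {K δ Λ κ d : ℝ} {k : ℤ} {G : T → (Fin 4 → ℝ) → ℝ} {x : P → Pt}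

/-- the normalised heights -/
def Yh (N : ℕ) (h : Option T → Fin 4 → ℤ) (i : T) : Fin 4 → ℝ := fun u => (h (some i) u : ℝ) / N

omit [Fintype T] in
theorem Yh_none (h : Option T → Fin 4 → ℤ) (a : Fin 4) (y : ℤ) : Yh N (upd h none a y) = Yh N h := by
  funext i u
  simp [Yh, upd]

omit [Fintype T] in
theorem Yh_ne (h : Option T → Fin 4 → ℤ) {i l : T} (hl : l ≠ i) (a : Fin 4) (y : ℤ) :
    Yh N (upd h (some i) a y) l = Yh N h l := by
  funext u
  simp [Yh, upd, hl]

omit [Fintype T] in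
theorem Yh_same (h : Option T → Fin 4 → ℤ) (i : T) (a : Fin 4) :
    Yh N (upd h (some i) a (h (some i) a + 1)) i = Yh N h i + Pi.single a (1 / (N : ℝ)) := by
  funext u
  simp only [Yh, upd, Function.update_self, Pi.add_apply]
  by_cases hu : u = a
  · subst hu
    rw [Function.update_self, Pi.single_eq_same]
    push_cast
    ring
  · rw [Function.update_of_ne hu, Pi.single_eq_of_ne hu, add_zero]

/-- the constant -/
def LL (T : Type) [Fintype T] (Λ : ℝ) : ℝ := (max 1 Λ) ^ (Fintype.card T + 2)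

theorem one_le_LL : 1 ≤ LL T Λ := one_le_pow₀ (le_max_left _ _)

theorem prod_bd (hb : ∀ i y, |G i y| ≤ Λ) (s : Finset T) (Y : T → Fin 4 → ℝ) :
    |∏ i ∈ s, G i (Y i)| ≤ (max 1 Λ) ^ Fintype.card T := by
  rw [Finset.abs_prod]
  calc ∏ i ∈ s, |G i (Y i)| ≤ ∏ _i ∈ s, max 1 Λ :=
        Finset.prod_le_prod (fun _ _ => abs_nonneg _) fun i _ => (hb i _).trans (le_max_right _ _)
    _ = (max 1 Λ) ^ s.card := by rw [Finset.prod_const]
    _ ≤ _ := pow_le_pow_right₀ (le_max_left _ _) (Finset.card_le_univ s)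

theorem fG_bd (hb : ∀ i y, |G i y| ≤ Λ) (h : Option T → Fin 4 → ℤ) : |fG N G h| ≤ LL T Λ :=
  (prod_bd hb Finset.univ (Yh N h)).trans (pow_le_pow_right₀ (le_max_left _ _) (by omega))

omit [Fintype T] in
theorem norm_sg (a : Fin 4) : ‖(Pi.single a (1 / (N : ℝ)) : Fin 4 → ℝ)‖ = 1 / N := by
  rw [Pi.norm_single, Real.norm_eq_abs, abs_of_nonneg (by positivity)]

theorem fG_split [DecidableEq T] (i : T) (h : Option T → Fin 4 → ℤ) : fG N G h = (∏ l ∈ Finset.univ.erase i, G l (Yh N h l)) * G i (Yh N h i) :=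
  (Finset.prod_erase_mul _ _ (Finset.mem_univ i)).symm

omit [Fintype T] in
theorem er_congr [DecidableEq T] {h h' : Option T → Fin 4 → ℤ} {s : Finset T} (e : ∀ l ∈ s, Yh N h l = Yh N h' l) :
    ∏ l ∈ s, G l (Yh N h l) = ∏ l ∈ s, G l (Yh N h' l) :=
  Finset.prod_congr rfl fun l hl => by rw [e l hl]

theorem df1 (ha : ∀ i, Tf1 K δ Λ (G i)) : Df1 (fG N G) (LL T Λ / N) := by
  classical
  intro h i a
  have h0 : 0 ≤ LL T Λ / N := div_nonneg (zero_le_one.trans one_le_LL) (Nat.cast_nonneg _)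
  rcases i with _ | i
  · have e : fG N G (upd h none a (h none a + 1)) = fG N G h := by
      show ∏ i, G i (Yh N _ i) = ∏ i, G i (Yh N _ i)
      rw [Yh_none]
    rw [e, sub_self, abs_zero]
    exact h0
  · rw [fG_split i, fG_split i h, er_congr (h' := h) fun l hl => Yh_ne h (Finset.ne_of_mem_erase hl) _ _, Yh_same, ← mul_sub,
      abs_mul]
    have h1 := prod_bd (fun i => (ha i).bd) (Finset.univ.erase i) (Yh N h)
    have h2 := (ha i).lip (Yh N h i) (Pi.single a (1 / (N : ℝ)))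
    rw [norm_sg] at h2
    have hM : 1 ≤ max 1 Λ := le_max_left _ _
    have hΛ : Λ ≤ max 1 Λ := le_max_right _ _
    calc _ ≤ (max 1 Λ) ^ Fintype.card T * (Λ * (1 / N)) := mul_le_mul h1 h2 (abs_nonneg _) (by positivity)
      _ ≤ (max 1 Λ) ^ Fintype.card T * (max 1 Λ ^ 2 * (1 / N)) := by
        have : Λ ≤ max 1 Λ ^ 2 := hΛ.trans (le_self_pow₀ hM (by norm_num))
        gcongr
      _ = _ := by
        unfold LL
        rw [pow_add]
        ring

theorem df2 (ha : ∀ i, Tf1 K δ Λ (G i)) : Df2 (fG N G) (LL T Λ / N ^ 2) := by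
  classical
  intro h i a i' a'
  have hM : 1 ≤ max 1 Λ := le_max_left _ _
  have hΛ : Λ ≤ max 1 Λ := le_max_right _ _
  have h0 : 0 ≤ LL T Λ / (N : ℝ) ^ 2 := div_nonneg (zero_le_one.trans one_le_LL) (by positivity)
  have en : ∀ (h : Option T → Fin 4 → ℤ) a y, fG N G (upd h none a y) = fG N G h := by
    intro h a y
    show ∏ i, G i (Yh N _ i) = ∏ i, G i (Yh N _ i)
    rw [Yh_none]
  have lp : ∀ i (y : Fin 4 → ℝ) (a : Fin 4), |G i (y + Pi.single a (1 / (N : ℝ))) - G i y| ≤ max 1 Λ * (1 / N) := by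
    intro i y a
    have h2 := (ha i).lip y (Pi.single a (1 / (N : ℝ)))
    rw [norm_sg] at h2
    exact h2.trans (by gcongr)
  rcases i with _ | i
  · have e2 : upd (upd h none a (h none a + 1)) i' a' (upd h none a (h none a + 1) i' a' + 1) =
      upd (upd h none a (h none a + 1)) i' a' (upd h none a (h none a + 1) i' a' + 1) := rfl
    rw [en h]
    rcases i' with _ | i'
    · rw [en, en, en]
      simpa using h0
    · have e3 : fG N G (upd (upd h none a (h none a + 1)) (some i') a' (upd h none a (h none a + 1) (some i') a' + 1)) =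
          fG N G (upd h (some i') a' (h (some i') a' + 1)) := by
        rw [fG_split i', fG_split i' (upd h (some i') a' (h (some i') a' + 1)), Yh_same, Yh_same, Yh_none,
          er_congr (h' := h) fun l hl => by rw [Yh_ne _ (Finset.ne_of_mem_erase hl), Yh_none],
          er_congr (h' := h) (h := upd h (some i') a' _) fun l hl => Yh_ne h (Finset.ne_of_mem_erase hl) _ _]
      rw [e3]
      simpa using h0
  · rcases i' with _ | i'
    · rw [en, en]
      simpa using h0
    · by_cases hi : i = i'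
      · subst hi
        set h1 := upd h (some i) a (h (some i) a + 1) with hh1
        have r1 : ∀ l ∈ Finset.univ.erase i, Yh N h1 l = Yh N h l := fun l hl => Yh_ne h (Finset.ne_of_mem_erase hl) _ _
        rw [fG_split i (upd h1 _ _ _), fG_split i h1, fG_split i h, fG_split i (upd h _ a' _), Yh_same, Yh_same, hh1, Yh_same,
          ← hh1, er_congr (h' := h) (h := upd h1 (some i) a' _) fun l hl => by rw [Yh_ne _ (Finset.ne_of_mem_erase hl), r1 l hl],
          er_congr r1, er_congr (h' := h) (h := upd h (some i) a' _) fun l hl => Yh_ne h (Finset.ne_of_mem_erase hl) _ _]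
        set p := ∏ l ∈ Finset.univ.erase i, G l (Yh N h l) with hp
        have e : ∀ A B C D : ℝ, p * A - p * B - p * C + p * D = p * (A - B - C + D) := fun A B C D => by ring
        rw [e, abs_mul]
        have b1 := prod_bd (fun i => (ha i).bd) (Finset.univ.erase i) (Yh N h)
        have b2 := (ha i).lip2 (Yh N h i) (Pi.single a (1 / (N : ℝ))) (Pi.single a' (1 / (N : ℝ)))
        rw [norm_sg, norm_sg] at b2
        calc _ ≤ (max 1 Λ) ^ Fintype.card T * (Λ * (1 / N) * (1 / N)) := mul_le_mul b1 b2 (abs_nonneg _) (by positivity)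
          _ ≤ (max 1 Λ) ^ Fintype.card T * (max 1 Λ ^ 2 * (1 / N) * (1 / N)) := by
            have : Λ ≤ max 1 Λ ^ 2 := hΛ.trans (le_self_pow₀ hM (by norm_num))
            gcongr
          _ = _ := by
            unfold LL
            rw [pow_add]
            ring
      · have hi' : i' ∈ (Finset.univ : Finset T).erase i := Finset.mem_erase.2 ⟨Ne.symm hi, Finset.mem_univ _⟩
        have sp : ∀ g : Option T → Fin 4 → ℤ, fG N G g =
            ((∏ l ∈ (Finset.univ.erase i).erase i', G l (Yh N g l)) * G i' (Yh N g i')) * G i (Yh N g i) := by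
          intro g
          rw [fG_split i g, Finset.prod_erase_mul _ _ hi']
        set h1 := upd h (some i) a (h (some i) a + 1) with hh1
        have m1 : ∀ l ∈ (Finset.univ.erase i).erase i', l ≠ i' ∧ l ≠ i := fun l hl =>
          ⟨Finset.ne_of_mem_erase hl, Finset.ne_of_mem_erase (Finset.mem_of_mem_erase hl)⟩
        have r1 : ∀ l, l ≠ i → Yh N h1 l = Yh N h l := fun l hl => Yh_ne h hl _ _
        rw [sp (upd h1 _ _ _), sp h1, sp h, sp (upd h _ a' _), Yh_same, Yh_same, r1 i' (Ne.symm hi), Yh_ne h1 hi, Yh_ne h hi,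
          hh1, Yh_same, ← hh1,
          er_congr (h' := h) (h := upd h1 (some i') a' _) fun l hl => by rw [Yh_ne _ (m1 l hl).1, r1 l (m1 l hl).2],
          er_congr (h' := h) (h := h1) fun l hl => r1 l (m1 l hl).2,
          er_congr (h' := h) (h := upd h (some i') a' _) fun l hl => Yh_ne h (m1 l hl).1 _ _, Yh_same]
        set p := ∏ l ∈ (Finset.univ.erase i).erase i', G l (Yh N h l) with hp
        have e : ∀ A' A B' B : ℝ, p * B' * A' - p * B * A' - p * B' * A + p * B * A = p * ((B' - B) * (A' - A)) :=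
          fun A' A B' B => by ring
        rw [e, abs_mul, abs_mul]
        have b1 := prod_bd (fun i => (ha i).bd) ((Finset.univ.erase i).erase i') (Yh N h)
        have b2 := lp i' (Yh N h i') a'
        have b3 := lp i (Yh N h i) a
        calc _ ≤ (max 1 Λ) ^ Fintype.card T * ((max 1 Λ * (1 / N)) * (max 1 Λ * (1 / N))) :=
              mul_le_mul b1 (mul_le_mul b2 b3 (abs_nonneg _) (by positivity)) (by positivity) (by positivity)
          _ = _ := by
            unfold LL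
            rw [pow_add]
            ring

theorem mem_JT {i : Option T} : i ∈ JT T ↔ ∃ t, some t = i := by
  simp [JT]

theorem onJ : OnJ (JT T) (fG N G) := by
  intro h h' e
  unfold fG
  refine Finset.prod_congr rfl fun i _ => ?_
  rw [e (some i) (mem_JT.2 ⟨i, rfl⟩)]

theorem wid (ha : ∀ i, Tf1 K δ Λ (G i)) (hN : 12 ≤ δ * N) : Wid (JT T) (fG N G) := by
  intro h hh i hi
  obtain ⟨t, rfl⟩ := mem_JT.1 hi
  have h1 : G t (Yh N h t) ≠ 0 := fun h0 => hh (Finset.prod_eq_zero (Finset.mem_univ t) h0)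
  obtain ⟨-, h2, h3⟩ := (ha t).sup _ h1
  have hN0 : (0 : ℝ) < N := by
    rcases Nat.eq_zero_or_pos N with rfl | h
    · norm_num at hN
    · exact_mod_cast h
  simp only [Yh] at h2 h3
  rw [← sub_div, le_div_iff₀ hN0] at h2 h3
  have h4 : (h (some t) 0 : ℝ) + 12 ≤ h (some t) 1 := by linarith
  have h5 : (h (some t) 2 : ℝ) + 12 ≤ h (some t) 3 := by linarith
  exact ⟨by exact_mod_cast h4, by exact_mod_cast h5⟩

/-- **the tracers are in their windows**: `R` = box, `n` = least extent, `D` = least column distance -/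
structure Loc (G : T → (Fin 4 → ℝ) → ℝ) (N : ℕ) (k R n D : ℤ) (h : Option T → Fin 4 → ℤ) : Prop where
  rt : ∀ i, k + 20 ≤ h (some i) 0 ∧ k + D ≤ h (some i) 0
  bx : ∀ i a, |h (some i) a| + 20 ≤ R
  wd : ∀ i, h (some i) 0 + n ≤ h (some i) 1 ∧ h (some i) 2 + n ≤ h (some i) 3
  sp : ∀ i i', i ≠ i' → (h (some i) 1 + 20 ≤ h (some i') 0 ∧ h (some i) 1 + D ≤ h (some i') 0) ∨
    (h (some i') 1 + 20 ≤ h (some i) 0 ∧ h (some i') 1 + D ≤ h (some i) 0)
  wn : ∀ i (p : ℤ), h (some i) 0 ≤ p → p ≤ h (some i) 1 → p ∈ Wn N G i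

/-- **where the tracers are** -/
theorem loc_of (ha : AdmX N K δ Λ κ d k G x) {R n D : ℤ} (hN : 100 ≤ (N : ℝ)) (hR : K * N + 50 ≤ R) (hn : (n : ℝ) + 10 ≤ δ * N)
    (hD : (D : ℝ) + 10 ≤ d * N) (hD' : (D : ℝ) + 10 ≤ κ * N) (h20 : 50 ≤ κ * N) (h20' : 50 ≤ d * N)
    {γ : FX (Option T)} (h : Sp2 (fG N G) γ) : Loc G N k R n D (ht γ) := by
  obtain ⟨g, hg, hc⟩ := h
  have hN0 : (0 : ℝ) < N := by linarith
  have key : ∀ t, ∃ y : Fin 4 → ℝ, G t y ≠ 0 ∧ ∀ a, |y a * N - ht γ (some t) a| ≤ 2 := by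
    intro t
    refine ⟨Yh N g t, fun h0 => hg (Finset.prod_eq_zero (Finset.mem_univ t) h0), fun a => ?_⟩
    have h1 : |((g (some t) a - ht γ (some t) a : ℤ) : ℝ)| ≤ 2 := by
      have := hc (some t) a
      exact_mod_cast this
    unfold Yh
    rw [div_mul_cancel₀ _ hN0.ne']
    push_cast at h1
    exact h1
  have ub : ∀ {t} {y : Fin 4 → ℝ}, (∀ a, |y a * N - ht γ (some t) a| ≤ 2) → ∀ a, y a * N ≤ ht γ (some t) a + 2 ∧
      (ht γ (some t) a : ℝ) ≤ y a * N + 2 := fun {t y} hy a => by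
    have := abs_le.1 (hy a)
    exact ⟨by linarith, by linarith⟩
  refine ⟨fun i => ?_, fun i a => ?_, fun i => ?_, fun i i' hii => ?_, fun i p h1 h2 => ?_⟩
  · obtain ⟨y, hy, hc⟩ := key i
    have h1 := ha.rt i y hy
    have h2 := ub hc 0
    have h3 : (k : ℝ) + κ * N ≤ y 0 * N := by
      have := mul_le_mul_of_nonneg_right h1 hN0.le
      rw [add_mul, div_mul_cancel₀ _ hN0.ne'] at this
      exact this
    have h4 : ((k + 20 : ℤ) : ℝ) ≤ (ht γ (some i) 0 : ℤ) := by
      push_cast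
      linarith
    have h5 : ((k + D : ℤ) : ℝ) ≤ (ht γ (some i) 0 : ℤ) := by
      push_cast
      linarith
    exact ⟨by exact_mod_cast h4, by exact_mod_cast h5⟩
  · obtain ⟨y, hy, hc⟩ := key i
    have h1 := ((ha.tf i).sup y hy).1 a
    have h2 := ub hc a
    have h3 : |y a * N| ≤ K * N := by
      rw [abs_mul, abs_of_pos hN0]
      exact mul_le_mul_of_nonneg_right h1 hN0.le
    have h4 := abs_le.1 h3
    have h5 : |((ht γ (some i) a : ℤ) : ℝ)| + 20 ≤ R := by
      have : |((ht γ (some i) a : ℤ) : ℝ)| ≤ K * N + 2 := abs_le.2 ⟨by linarith, by linarith⟩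
      linarith
    exact_mod_cast h5
  · obtain ⟨y, hy, hc⟩ := key i
    obtain ⟨-, h1, h2⟩ := (ha.tf i).sup y hy
    have e1 := mul_le_mul_of_nonneg_right h1 hN0.le
    have e2 := mul_le_mul_of_nonneg_right h2 hN0.le
    rw [sub_mul] at e1 e2
    have u0 := ub hc 0
    have u1 := ub hc 1
    have u2 := ub hc 2
    have u3 := ub hc 3
    have h4 : ((ht γ (some i) 0 + n : ℤ) : ℝ) ≤ (ht γ (some i) 1 : ℤ) := by
      push_cast
      linarith
    have h5 : ((ht γ (some i) 2 + n : ℤ) : ℝ) ≤ (ht γ (some i) 3 : ℤ) := by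
      push_cast
      linarith
    exact ⟨by exact_mod_cast h4, by exact_mod_cast h5⟩
  · have key2 : ∀ i i', (∃ y z : Fin 4 → ℝ, (∀ a, |y a * N - ht γ (some i) a| ≤ 2) ∧ (∀ a, |z a * N - ht γ (some i') a| ≤ 2) ∧
        y 1 + d ≤ z 0) → ht γ (some i) 1 + 20 ≤ ht γ (some i') 0 ∧ ht γ (some i) 1 + D ≤ ht γ (some i') 0 := by
      rintro i i' ⟨y, z, hy, hz, h⟩
      have e := mul_le_mul_of_nonneg_right h hN0.le
      rw [add_mul] at e
      have u0 := ub hy 1
      have u1 := ub hz 0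
      have h4 : ((ht γ (some i) 1 + 20 : ℤ) : ℝ) ≤ (ht γ (some i') 0 : ℤ) := by
        push_cast
        linarith
      have h5 : ((ht γ (some i) 1 + D : ℤ) : ℝ) ≤ (ht γ (some i') 0 : ℤ) := by
        push_cast
        linarith
      exact ⟨by exact_mod_cast h4, by exact_mod_cast h5⟩
    obtain ⟨y, hy, hc⟩ := key i
    obtain ⟨z, hz, hc'⟩ := key i'
    rcases ha.tt i i' hii y z hy hz with h | h
    · exact Or.inl (key2 i i' ⟨y, z, hc, hc', h⟩)
    · exact Or.inr (key2 i' i ⟨z, y, hc', hc, h⟩)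
  · obtain ⟨y, hy, hc⟩ := key i
    have u0 := ub hc 0
    have u1 := ub hc 1
    have h3 : (ht γ (some i) 0 : ℝ) ≤ p := by exact_mod_cast h1
    have h4 : (p : ℝ) ≤ ht γ (some i) 1 := by exact_mod_cast h2
    exact ⟨y, hy, by linarith, by linarith⟩

end

end Pool.Agent.ROT.X
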