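import Pool.Agent.ROT.XInc1
import Pool.Agent.ROT.XProd6

/-!
# UNIV, exact side: the pattern of the strip (helper99)

* `chi_cs` : constant on the classes; `chi_le`; `chi_lar`;
* `sepd_of` : on the families the large loop has the separation event;
* `chi_eq` : on the families of the square lattice it is `chi0`.
-/

set_option autoImplicit false

namespace Pool.Agent.ROT.X

open Pool.Agent.YBC (Dir)
open Pool.Agent.ROT.E (Cell IsUn Pt nx)
open Pool.Agent.ROT.L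
open Pool.Agent.ROT.U (Tf1)

noncomputable section

variable {T P : Type} {N : ℕ} {K δ Λ κ d : ℝ} {k j : ℤ} {G : T → (Fin 4 → ℝ) → ℝ} {x : P → Pt}
  {πT : T → Bool} {πP : P → Bool} {W : T → Set ℤ} {γ γ' : FX (Option T)}

theorem Gt_W (j r : ℤ) (t : Fin 3) (v : Pt) : (Gt j r t).e (some v, .W) = (some (nx v .W), .E) := by
  fin_cases t
  · exact g0_W v
  · exact gX_W j r v
  · exact gX_W j (r + 1) v

/-- **constant on the classes** -/
theorem chi_cs (hx : ∀ l, (x l).1 ≤ j) (r : ℤ) : Cs j r (chi πT πP x W j) := by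
  intro t t' γ γ' _ _ h
  have key : ∀ i, ∀ p, p ≠ j + 1 → ∀ y, hz (co γ i) p y ↔ hz (co γ' i) p y := by
    intro i p hp y
    refine hz_out (s := r) (Gt_W j r t) (Gt_W j r t') (h.fam.lp i).mt (h.fam'.lp i).mt (fun v hv => ?_) hp y
    rw [co_apply, co_apply, h.out v hv]
  have e1 : pf j γ = pf j γ' := pf_class (Gt_W j r t) (Gt_W j r t') h
  have e2 : ∀ l, sgx (co γ none) (x l).1 (x l).2 = sgx (co γ' none) (x l).1 (x l).2 := fun l =>
    sgx_congr (key none _ (by have := hx l; omega)) _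
  have e3 : ∀ i, lns j (co γ i) = lns j (co γ' i) := by
    intro i
    ext p
    constructor
    · rintro ⟨hp, y, hy⟩
      exact ⟨hp, y, (key i p hp y).1 hy⟩
    · rintro ⟨hp, y, hy⟩
      exact ⟨hp, y, (key i p hp y).2 hy⟩
  have e : ((∀ l, sgx (co γ none) (x l).1 (x l).2 = 1 ↔ πP l = true) ∧ (∀ i, pf j γ none (some i) = 1 ↔ πT i = true) ∧
      ∀ i, lns j (co γ (some i)) ⊆ W i) ↔ ((∀ l, sgx (co γ' none) (x l).1 (x l).2 = 1 ↔ πP l = true) ∧
      (∀ i, pf j γ' none (some i) = 1 ↔ πT i = true) ∧ ∀ i, lns j (co γ' (some i)) ⊆ W i) := by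
    rw [e1]
    simp only [e2, e3]
  unfold chi
  by_cases h1 : (∀ l, sgx (co γ none) (x l).1 (x l).2 = 1 ↔ πP l = true) ∧
      (∀ i, pf j γ none (some i) = 1 ↔ πT i = true) ∧ ∀ i, lns j (co γ (some i)) ⊆ W i
  · rw [if_pos h1, if_pos (e.1 h1)]
  · rw [if_neg h1, if_neg fun h2 => h1 (e.2 h2)]

theorem chi_le (γ : FX (Option T)) : |chi πT πP x W j γ| ≤ 1 := by
  unfold chi
  split_ifs <;> simp

theorem chi_ne (h : chi πT πP x W j γ ≠ 0) : (∀ l, sgx (co γ none) (x l).1 (x l).2 = 1 ↔ πP l = true) ∧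
    (∀ i, pf j γ none (some i) = 1 ↔ πT i = true) ∧ ∀ i, lns j (co γ (some i)) ⊆ W i := by
  unfold chi at h
  split_ifs at h with h1
  · exact h1
  · exact absurd rfl h

/-! ### objects -/

/-- the columns of an object -/
def Cl (W : T → Set ℤ) (x : P → Pt) : T ⊕ P → ℤ → Prop
  | .inl i, p => p ∈ W i
  | .inr l, p => p = (x l).1

/-- different objects have different columns -/
theorem cl_sep (ha : AdmX N K δ Λ κ d k G x) {D : ℤ} (hN : 0 < (N : ℝ)) (hD : (D : ℝ) + 10 ≤ d * N)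
    (hD' : (D : ℝ) + 10 ≤ κ * N) {a b : T ⊕ P} (hab : a ≠ b) {p q : ℤ} (hp : Cl (Wn N G) x a p)
    (hq : Cl (Wn N G) x b q) : p + D ≤ q ∨ q + D ≤ p := by
  have key1 : ∀ (i : T) (l : P) (p : ℤ), p ∈ Wn N G i → (x l).1 + D ≤ p := by
    rintro i l p ⟨y, hy, h1, -⟩
    have h2 := ha.rt i y hy
    have h3 : (k : ℝ) + κ * N ≤ y 0 * N := by
      have := mul_le_mul_of_nonneg_right h2 hN.le
      rw [add_mul, div_mul_cancel₀ _ hN.ne'] at this
      exact this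
    have h4 : ((x l).1 : ℝ) ≤ k := by exact_mod_cast (ha.pt l).1
    have h5 : (((x l).1 + D : ℤ) : ℝ) ≤ p := by
      push_cast
      linarith
    exact_mod_cast h5
  have key2 : ∀ {p q : ℤ} {y z : Fin 4 → ℝ}, (p : ℝ) ≤ y 1 * N + 3 → z 0 * N - 3 ≤ q → y 1 + d ≤ z 0 → p + D ≤ q := by
    intro p q y z h1 h2 h3
    have e := mul_le_mul_of_nonneg_right h3 hN.le
    rw [add_mul] at e
    have h5 : ((p + D : ℤ) : ℝ) ≤ q := by
      push_cast
      linarith
    exact_mod_cast h5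
  rcases a with i | l <;> rcases b with i' | l'
  · have hii : i ≠ i' := fun e => hab (by rw [e])
    obtain ⟨y, hy, h1, h2⟩ := hp
    obtain ⟨z, hz, h3, h4⟩ := hq
    rcases ha.tt i i' hii y z hy hz with h | h
    · exact Or.inl (key2 h2 h3 h)
    · exact Or.inr (key2 h4 h1 h)
  · right
    have e : q = (x l').1 := hq
    rw [e]
    exact key1 i l' p hp
  · left
    have e : p = (x l).1 := hp
    rw [e]
    exact key1 i' l q hq
  · have hll : l ≠ l' := fun e => hab (by rw [e])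
    have e : p = (x l).1 := hp
    have e' : q = (x l').1 := hq
    have h1 := ha.pp l l' hll
    rw [← e, ← e'] at h1
    have h2 : ((D : ℤ) : ℝ) ≤ |((p - q : ℤ) : ℝ)| := by
      push_cast
      linarith
    have h3 : D ≤ |p - q| := by exact_mod_cast h2
    rcases le_abs.1 h3 with h | h <;> omega

theorem cell_of_sgx {δ : VX →₀ Cell} {p y : ℤ} (h : sgx δ p y = 1) : ∃ y', y ≤ y' ∧ δ (some (p, y')) ≠ .o := by
  by_contra hc
  push Not at hc
  have e : {y' : ℤ | y ≤ y' ∧ hz δ p y'} = ∅ := by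
    ext y'
    simp only [Set.mem_ofPred_eq, Set.mem_empty_iff_false, iff_false]
    rintro ⟨h1, h2⟩
    exact oc_zero h2 (hc y' h1)
  unfold sgx at h
  rw [e] at h
  simp at h

/-- an object inside, no family needed -/
theorem obj_true (hx : ∀ l, (x l).1 ≤ j) (h : chi πT πP x W j γ ≠ 0) {a : T ⊕ P} (ha : Sum.elim πT πP a = true) :
    ∃ p y, p ≠ j + 1 ∧ Cl W x a p ∧ sgx (co γ none) p y = 1 := by
  obtain ⟨h1, h2, h3⟩ := chi_ne h
  rcases a with i | l
  · have h4 := (h2 i).2 ha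
    unfold pf pt at h4
    split_ifs at h4 with hn
    · have h5 := lns_mem hn
      exact ⟨_, _, h5.1, h3 i h5, h4⟩
    · exact absurd h4 (by decide)
  · exact ⟨(x l).1, (x l).2, by have := hx l; omega, rfl, (h1 l).2 ha⟩

/-- **the large loop is large** -/
theorem chi_lar [Fintype T] (ha : AdmX N K δ Λ κ d k G x) (hN : 0 < (N : ℝ)) (hD : 22 ≤ d * N) (hD' : 22 ≤ κ * N)
    (hx : ∀ l, (x l).1 ≤ j) (hnt : NTs πT πP) : Lar (JT T) (chi πT πP x (Wn N G) j) := by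
  intro γ h i hi
  have ei : i = none := by
    rcases i with _ | t
    · rfl
    · exact absurd (mem_JT.2 ⟨t, rfl⟩) hi
  subst ei
  obtain ⟨⟨a, b, hab, h1, h2⟩, -⟩ := hnt
  obtain ⟨p, y, -, cp, sp⟩ := obj_true hx h h1
  obtain ⟨q, z, -, cq, sq⟩ := obj_true hx h h2
  obtain ⟨y', -, hy⟩ := cell_of_sgx sp
  obtain ⟨z', -, hz'⟩ := cell_of_sgx sq
  have hs := cl_sep ha (D := 12) hN (by push_cast; linarith) (by push_cast; linarith) hab cp cq
  rcases hs with h3 | h3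
  · exact ⟨(p, y'), (q, z'), hy, hz', Or.inl h3⟩
  · exact ⟨(q, z'), (p, y'), hz', hy, Or.inl h3⟩

/-- the cells of a tracer are in its box -/
theorem in_ht {i : Option T} {p : Pt} (h : γ (some p) i ≠ .o) : ht γ i 0 ≤ p.1 ∧ p.1 ≤ ht γ i 1 ∧ ht γ i 2 ≤ p.2 ∧
    p.2 ≤ ht γ i 3 := by
  have h1 : p ∈ cl γ i := mem_cl.2 h
  exact ⟨hL_le h1, le_hR h1, hB_le h1, le_hT h1⟩

/-- wide tracers meet a line -/
theorem lns_ne {t : ℤ} (f : Fam (gX j t) γ) {i : Option T} (hw : ht γ i 0 + 5 ≤ ht γ i 1) : (lns j (co γ i)).Nonempty := by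
  have hne : (cl γ i).Nonempty := by
    by_contra hc
    rw [Finset.not_nonempty_iff_eq_empty] at hc
    have e0 : ht γ i 0 = hL (cl γ i) := rfl
    have e1 : ht γ i 1 = hR (cl γ i) := rfl
    rw [e0, e1, hc] at hw
    simp [hL, hR] at hw
  obtain ⟨u, hu, eu⟩ := hL_mem hne
  obtain ⟨v, hv, ev⟩ := hR_mem hne
  have e0 : ht γ i 0 = hL (cl γ i) := rfl
  have e1 : ht γ i 1 = hR (cl γ i) := rfl
  rw [mem_cl] at hu hv
  have key : ∃ w : Pt, co γ i (some w) ≠ 0 ∧ w.1 ≠ j ∧ w.1 ≠ j + 1 := by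
    by_cases h : u.1 = j ∨ u.1 = j + 1
    · exact ⟨v, hv, by omega, by omega⟩
    · push Not at h
      exact ⟨u, hu, h.1, h.2⟩
  obtain ⟨w, hw, h1, h2⟩ := key
  exact (f.lp i).meets (fun v => gX_W j t v) (fun v h1 h2 => gX_N v h1 h2) hw h1 h2

/-- an object of a family -/
theorem obj_fam {t R n D : ℤ} (ha : AdmX N K δ Λ κ d k G x) (hR : K * N ≤ R) (hn : 5 ≤ n) (f : Fam (gX j t) γ)
    (hl : Loc G N k R n D (ht γ)) (hx : ∀ l, (x l).1 ≤ j) (h : chi πT πP x W j γ ≠ 0) (a : T ⊕ P) :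
    ∃ p y, |p| ≤ R ∧ |y| ≤ R ∧ p ≠ j + 1 ∧ Cl W x a p ∧ (sgx (co γ none) p y = 1 ↔ Sum.elim πT πP a = true) := by
  obtain ⟨h1, h2, h3⟩ := chi_ne h
  rcases a with i | l
  · have hn := lns_ne f (i := some i) (by have := (hl.wd i).1; omega)
    have h4 := h2 i
    unfold pf pt at h4
    rw [if_pos hn] at h4
    have h5 := lns_mem hn
    have h6 := edge_mem hn
    have h7 := in_ht (γ := γ) (i := some i) (oc_zero h6)
    have b0 := abs_le.1 (show |ht γ (some i) 0| ≤ R by have := hl.bx i 0; omega)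
    have b1 := abs_le.1 (show |ht γ (some i) 1| ≤ R by have := hl.bx i 1; omega)
    have b2 := abs_le.1 (show |ht γ (some i) 2| ≤ R by have := hl.bx i 2; omega)
    have b3 := abs_le.1 (show |ht γ (some i) 3| ≤ R by have := hl.bx i 3; omega)
    simp only at h7
    exact ⟨_, _, abs_le.2 ⟨by omega, by omega⟩, abs_le.2 ⟨by omega, by omega⟩, h5.1, h3 i h5, h4⟩
  · have b := ha.pt l
    have b1 : |((x l).1 : ℝ)| ≤ R := b.2.1.trans hR
    have b2 : |((x l).2 : ℝ)| ≤ R := b.2.2.trans hR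
    exact ⟨(x l).1, (x l).2, by exact_mod_cast b1, by exact_mod_cast b2, by have := hx l; omega, rfl, h1 l⟩

/-- **the separation event** -/
theorem sepd_of {t R n D : ℤ} (ha : AdmX N K δ Λ κ d k G x) (hN : 0 < (N : ℝ)) (hR : K * N ≤ R) (hn : 5 ≤ n)
    (hD : (D : ℝ) + 10 ≤ d * N) (hD' : (D : ℝ) + 10 ≤ κ * N) (f : Fam (gX j t) γ) (hl : Loc G N k R n D (ht γ))
    (hx : ∀ l, (x l).1 ≤ j) (hnt : NTs πT πP) (h : chi πT πP x (Wn N G) j γ ≠ 0) : Sepd j D R (co γ none) := by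
  obtain ⟨⟨a, b, hab, ha1, hb1⟩, c, hc⟩ := hnt
  obtain ⟨p, y, p1, p2, p3, p4, p5⟩ := obj_fam ha hR hn f hl hx h a
  obtain ⟨q, z, q1, q2, q3, q4, q5⟩ := obj_fam ha hR hn f hl hx h b
  obtain ⟨u, w, u1, u2, u3, u4, u5⟩ := obj_fam ha hR hn f hl hx h c
  have e : sgx (co γ none) u w = 0 := by
    have hne : sgx (co γ none) u w ≠ 1 := by
      rw [Ne, u5, hc]
      simp
    have key : ∀ z : ZMod 2, z ≠ 1 → z = 0 := by decide
    exact key _ hne
  rcases cl_sep ha hN hD hD' hab p4 q4 with h1 | h1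
  · exact ⟨p, y, q, z, u, w, ⟨p1, p2, q1, q2, u1, u2⟩, ⟨p3, q3, u3⟩, h1, p5.2 ha1, q5.2 hb1, e⟩
  · exact ⟨q, z, p, y, u, w, ⟨q1, q2, p1, p2, u1, u2⟩, ⟨q3, p3, u3⟩, h1, q5.2 hb1, p5.2 ha1, e⟩

theorem big_of {j D R : ℤ} {δ : VX →₀ Cell} (h : Sepd j D R δ) : Big D δ := by
  obtain ⟨p1, y1, p2, y2, p3, y3, -, -, hD, s1, s2, -⟩ := h
  obtain ⟨z1, -, h1⟩ := cell_of_sgx s1
  obtain ⟨z2, -, h2⟩ := cell_of_sgx s2
  exact ⟨(p1, z1), (p2, z2), h1, h2, hD⟩

/-- the lines of a tracer are in its window -/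
theorem lns_sub {i : T} (hl : ∀ p : ℤ, ht γ (some i) 0 ≤ p → p ≤ ht γ (some i) 1 → p ∈ W i) :
    lns j (co γ (some i)) ⊆ W i := by
  rintro p ⟨-, y, hy⟩
  have h := in_ht (γ := γ) (i := some i) (oc_zero hy)
  exact hl p h.1 h.2.1

/-- **on the families of the square lattice it is `chi0`** -/
theorem chi_eq (f : Fam g0 γ) (h0 : γ none = 0) (hw : ∀ i : T, ht γ (some i) 0 + 5 ≤ ht γ (some i) 1)
    (hl : ∀ (i : T) (p : ℤ), ht γ (some i) 0 ≤ p → p ≤ ht γ (some i) 1 → p ∈ W i) :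
    chi πT πP x W j γ = chi0 πT πP x γ := by
  have hn : ∀ i, ∃ v : Pt, γ (some v) i ≠ 0 := by
    intro i
    obtain ⟨v, hv⟩ := Finsupp.ne_iff.1 (f.lp i).ne
    rw [co_apply] at hv
    rcases v with _ | v
    · rw [h0] at hv
      exact absurd rfl hv
    · exact ⟨v, hv⟩
  have hm : ∀ i : T, (lns j (co γ (some i))).Nonempty := by
    intro i
    have hne : (cl γ (some i)).Nonempty := by
      obtain ⟨v, hv⟩ := hn (some i)
      exact ⟨v, mem_cl.2 hv⟩
    obtain ⟨u, hu, eu⟩ := hL_mem hne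
    obtain ⟨v, hv, ev⟩ := hR_mem hne
    have e0 : ht γ (some i) 0 = hL (cl γ (some i)) := rfl
    have e1 : ht γ (some i) 1 = hR (cl γ (some i)) := rfl
    have hw' := hw i
    rw [mem_cl] at hu hv
    have key : ∃ w : Pt, co γ (some i) (some w) ≠ 0 ∧ w.1 ≠ j ∧ w.1 ≠ j + 1 := by
      by_cases h : u.1 = j ∨ u.1 = j + 1
      · exact ⟨v, hv, by omega, by omega⟩
      · push Not at h
        exact ⟨u, hu, h.1, h.2⟩
    obtain ⟨w, hw, h1, h2⟩ := key
    exact (f.lp (some i)).meets g0_W (fun v _ _ => g0_N v) hw h1 h2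
  have e1 : ∀ i : T, pf j γ none (some i) = 1 ↔ ∃ h, E.oc (E.co (dn γ) (some i)) h ∧ E.sd (E.co (dn γ) none) h = 1 := by
    intro i
    constructor
    · intro h
      have h1 := edge_mem (hm i)
      have h2 : E.oc (E.co (dn γ) (some i)) ((sInf (lns j (co γ (some i))),
          sSup {y | hz (co γ (some i)) (sInf (lns j (co γ (some i)))) y}), .W) := by
        rw [co_dn]
        exact (oc_dn _ _ _).2 h1
      exact ⟨_, h2, by rw [← pf_true f hn (by simp) (hm i) h2, h]⟩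
    · rintro ⟨h, h1, h2⟩
      rw [pf_true f hn (by simp) (hm i) h1, h2]
  have e2 : ∀ i, lns j (co γ (some i)) ⊆ W i := fun i => lns_sub (hl i)
  by_cases hc : (∀ l, E.sg (dn (co γ none)) (x l).1 (x l).2 = 1 ↔ πP l = true) ∧
      ∀ i, (∃ h, E.oc (E.co (dn γ) (some i)) h ∧ E.sd (E.co (dn γ) none) h = 1) ↔ πT i = true
  · unfold chi chi0
    rw [if_pos hc, if_pos ⟨fun l => by rw [sgx_eq]; exact hc.1 l, fun i => (e1 i).trans (hc.2 i), e2⟩]
  · have hc' : chi πT πP x W j γ = 0 := by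
      by_contra hne
      obtain ⟨h1, h2, -⟩ := chi_ne hne
      exact hc ⟨fun l => by rw [← sgx_eq]; exact h1 l, fun i => (e1 i).symm.trans (h2 i)⟩
    rw [hc']
    unfold chi0
    rw [if_neg hc]

end

end Pool.Agent.ROT.X
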