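import Pool.Agent.ROT.XInc2

/-!
# UNIV, exact side: the error of one row (helper99)

* `us_cell` : a loop which uses the region of the row `r` has a cell near it;
* `sz_str` : bounded coefficients of a loop which straddles the strip;
* **`row_bd`**, `row_zero` : the error terms of one row.
-/

set_option autoImplicit false

namespace Pool.Agent.ROT.X

open Pool.Agent.YBC (Dir)
open Pool.Agent.ROT.E (Cell IsUn Pt nx)
open Pool.Agent.ROT.L
open Pool.Agent.ROT.U (Tf1)

noncomputable section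

section sums

variable {I : Type} [Finite I] {k j s B : ℤ} {F F' : FX I → ℝ}

theorem AX_mono (h : ∀ γ, Fam (gX j s) γ → Bx B γ → F γ ≤ F' γ) : AX k j s B F ≤ AX k j s B F' := by
  rw [AX_eq, AX_eq]
  refine Finset.sum_le_sum fun γ _ => ?_
  split_ifs with h1
  · exact mul_le_mul_of_nonneg_left (h γ h1.1 h1.2) (abs_nonneg _)
  · exact le_rfl

theorem AX_zero (h : ∀ γ, Fam (gX j s) γ → Bx B γ → F γ = 0) : AX k j s B F = 0 := by
  rw [AX_eq]
  refine Finset.sum_eq_zero fun γ _ => ?_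
  split_ifs with h1
  · rw [h γ h1.1 h1.2, mul_zero]
  · rfl

theorem AX_add : AX k j s B (fun γ => F γ + F' γ) = AX k j s B F + AX k j s B F' := by
  rw [AX_eq, AX_eq, AX_eq, ← Finset.sum_add_distrib]
  refine Finset.sum_congr rfl fun γ _ => ?_
  split_ifs
  · ring
  · ring

theorem AX_mul (c : ℝ) : AX k j s B (fun γ => c * F γ) = c * AX k j s B F := by
  rw [AX_eq, AX_eq, Finset.mul_sum]
  refine Finset.sum_congr rfl fun γ _ => ?_
  split_ifs
  · ring
  · ring

theorem AX_sum {ι : Type} (S : Finset ι) (F : ι → FX I → ℝ) :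
    AX k j s B (fun γ => ∑ i ∈ S, F i γ) = ∑ i ∈ S, AX k j s B (F i) := by
  simp only [AX_eq]
  rw [Finset.sum_comm]
  refine Finset.sum_congr rfl fun γ _ => ?_
  split_ifs
  · rw [Finset.mul_sum]
  · simp

theorem A1_mono' {k j s B : ℤ} {g g' : (VX →₀ Cell) → ℝ} (h : ∀ δ, Lp (gX j s) δ → Bx1 B δ → g δ ≤ g' δ) :
    A1 k j s B g ≤ A1 k j s B g' := by
  rw [A1_sum, A1_sum]
  refine Finset.sum_le_sum fun δ _ => ?_
  split_ifs with h1
  · exact mul_le_mul_of_nonneg_left (h δ h1.1 h1.2) (abs_nonneg _)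
  · exact le_rfl

theorem A1_mul {k j s B : ℤ} {g : (VX →₀ Cell) → ℝ} (c : ℝ) : A1 k j s B (fun δ => c * g δ) = c * A1 k j s B g := by
  rw [A1_sum, A1_sum, Finset.mul_sum]
  refine Finset.sum_congr rfl fun δ _ => ?_
  split_ifs
  · ring
  · ring

end sums

/-! ### the region -/

theorem cross_cell {j t : ℤ} {δ : VX →₀ Cell} (l : Lp (gX j t) δ) (h : δ none ≠ .o) :
    ∃ c r', (c = j ∨ c = j + 1) ∧ (r' = t - 1 ∨ r' = t) ∧ δ (some (c, r')) ≠ .o := by
  obtain ⟨d, hd⟩ := ex_side h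
  have h1 := (l.mt (none, d) trivial trivial).1 hd
  cases d
  · exact ⟨j + 1, t - 1, Or.inr rfl, Or.inl rfl, oc_zero h1⟩
  · exact ⟨j + 1, t, Or.inr rfl, Or.inr rfl, oc_zero h1⟩
  · exact ⟨j, t, Or.inl rfl, Or.inr rfl, oc_zero h1⟩
  · exact ⟨j, t - 1, Or.inl rfl, Or.inl rfl, oc_zero h1⟩

theorem us_cell {j r t : ℤ} (ht : t = r ∨ t = r + 1) {δ : VX →₀ Cell} (l : Lp (gX j t) δ) (h : Us1 j r δ) :
    ∃ c r', (c = j ∨ c = j + 1) ∧ (r - 1 ≤ r' ∧ r' ≤ r + 1) ∧ δ (some (c, r')) ≠ .o := by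
  obtain ⟨v, hv, hne⟩ := h
  rcases hv with rfl | rfl | rfl
  · obtain ⟨c, r', h1, h2, h3⟩ := cross_cell l hne
    exact ⟨c, r', h1, by omega, h3⟩
  · exact ⟨j, r, Or.inl rfl, by omega, hne⟩
  · exact ⟨j + 1, r, Or.inr rfl, by omega, hne⟩

/-- **a loop which straddles the strip has bounded coefficients** -/
theorem sz_str {C : ℝ} {j r t : ℤ} {δ : VX →₀ Cell} (hu : Us1 j r δ) (nR : ¬ ExR j r (fam1 δ) ()) (nL : ¬ ExL j r (fam1 δ) ())
    (hc : |cT j t (fam1 δ) ()| ≤ C ∧ |cB j t (fam1 δ) ()| ≤ C) : sz1 j t δ ≤ 3 + 2 * C := by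
  have hu' : Us j r (fam1 δ) () := hu
  have h1 : j + 1 ≤ ht (fam1 δ) () 1 := by
    by_contra hlt
    refine nR ⟨hu', fun p _ hp => ?_⟩
    have h2 : p.1 ≤ hR (cl (fam1 δ) ()) := le_hR (mem_cl.2 hp)
    have h3 : hR (cl (fam1 δ) ()) = ht (fam1 δ) () 1 := rfl
    omega
  have h2 : ht (fam1 δ) () 0 ≤ j := by
    by_contra hlt
    refine nL ⟨hu', fun p _ hp => ?_⟩
    have h2 : hL (cl (fam1 δ) ()) ≤ p.1 := hL_le (mem_cl.2 hp)
    have h3 : hL (cl (fam1 δ) ()) = ht (fam1 δ) () 0 := rfl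
    omega
  have e1 : cR j t (fam1 δ) () = 1 := by
    refine Finset.prod_eq_one fun v _ => ?_
    rcases v with _ | p
    · exact if_neg fun h => by omega
    · exact if_neg fun h => by omega
  have e2 : cL j t (fam1 δ) () = 1 := by
    refine Finset.prod_eq_one fun v _ => ?_
    rcases v with _ | p
    · exact if_neg fun h => by omega
    · exact if_neg fun h => by omega
  unfold sz1
  rw [e1, e2, abs_one]
  linarith [hc.1, hc.2]

/-! ### one row -/

variable {T P : Type} [Fintype T] {N : ℕ} {k j r t B R n D : ℤ} {G : T → (Fin 4 → ℝ) → ℝ} {x : P → Pt} {γ : FX (Option T)}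

open Classical in
/-- the events of the members -/
def gE (k j r t R n D : ℤ) (i : T) (b : Bool) : Option T → (VX →₀ Cell) → ℝ
  | none => fun δ => if b = true then (if Big D δ ∧ Us1 j r δ then 1 else 0) else if Sepd j D R δ then 1 else 0
  | some l => fun δ => if Win k R n δ ∧ (l = i → Ex j r (fam1 δ) ()) then sz1 j t δ else 0

theorem one_le_sz1 (j t : ℤ) (δ : VX →₀ Cell) : 1 ≤ sz1 j t δ := by
  have h1 := abs_nonneg (cR j t (fam1 δ) ())
  have h2 := abs_nonneg (cL j t (fam1 δ) ())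
  have h3 := abs_nonneg (cT j t (fam1 δ) ())
  have h4 := abs_nonneg (cB j t (fam1 δ) ())
  unfold sz1
  linarith

omit [Fintype T] in
open Classical in
theorem gE_nn (i : T) (b : Bool) (l : Option T) (δ : VX →₀ Cell) : 0 ≤ gE k j r t R n D i b l δ := by
  rcases l with _ | l
  · show (0 : ℝ) ≤ if b = true then (if Big D δ ∧ Us1 j r δ then 1 else 0) else if Sepd j D R δ then 1 else 0
    by_cases h1 : b = true
    · rw [if_pos h1]
      by_cases h2 : Big D δ ∧ Us1 j r δ
      · rw [if_pos h2]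
        norm_num
      · rw [if_neg h2]
    · rw [if_neg h1]
      by_cases h2 : Sepd j D R δ
      · rw [if_pos h2]
        norm_num
      · rw [if_neg h2]
  · show (0 : ℝ) ≤ if Win k R n δ ∧ (l = i → Ex j r (fam1 δ) ()) then sz1 j t δ else 0
    by_cases h2 : Win k R n δ ∧ (l = i → Ex j r (fam1 δ) ())
    · rw [if_pos h2]
      exact zero_le_one.trans (one_le_sz1 _ _ _)
    · rw [if_neg h2]

omit [Fintype T] in
theorem win_of (hn : 1 ≤ n) (hl : Loc G N k R n D (ht γ)) (i : T) : Win k R n (co γ (some i)) := by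
  have hw := hl.wd i
  have b0 := abs_le.1 (show |ht γ (some i) 0| ≤ R by have := hl.bx i 0; omega)
  have b1 := abs_le.1 (show |ht γ (some i) 1| ≤ R by have := hl.bx i 1; omega)
  have b2 := abs_le.1 (show |ht γ (some i) 2| ≤ R by have := hl.bx i 2; omega)
  have b3 := abs_le.1 (show |ht γ (some i) 3| ≤ R by have := hl.bx i 3; omega)
  have hk := hl.rt i
  refine ⟨fun p hp => ?_, ?_⟩
  · have h := in_ht (γ := γ) (i := some i) hp
    exact ⟨by omega, abs_le.2 ⟨by omega, by omega⟩, abs_le.2 ⟨by omega, by omega⟩⟩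
  · have hne : (cl γ (some i)).Nonempty := by
      by_contra hc
      rw [Finset.not_nonempty_iff_eq_empty] at hc
      have e0 : ht γ (some i) 0 = hL (cl γ (some i)) := rfl
      have e1 : ht γ (some i) 1 = hR (cl γ (some i)) := rfl
      have h1 := hw.1
      rw [e0, e1, hc] at h1
      simp [hL, hR] at h1
      omega
    obtain ⟨u, hu, eu⟩ := hL_mem hne
    obtain ⟨v, hv, ev⟩ := hR_mem hne
    have e0 : ht γ (some i) 0 = hL (cl γ (some i)) := rfl
    have e1 : ht γ (some i) 1 = hR (cl γ (some i)) := rfl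
    rw [mem_cl] at hu hv
    exact ⟨u, v, hu, hv, by omega⟩

omit [Fintype T] in
theorem sz1_co (i : Option T) : sz1 j t (co γ i) = 1 + |cR j t γ i| + |cL j t γ i| + |cT j t γ i| + |cB j t γ i| := by
  unfold sz1
  rw [← mb_eq, cR_mb, cL_mb, cT_mb, cB_mb]

/-- the size of the coefficients -/
theorem szA_le : szA (JT T) j t γ ≤ ∏ i : T, sz1 j t (co γ (some i)) := by
  classical
  unfold szA JT
  rw [Finset.sum_map]
  have key : ∀ S : Finset T, 1 + ∑ i ∈ S, (|cR j t γ (some i)| + |cL j t γ (some i)| + |cT j t γ (some i)| + |cB j t γ (some i)|) ≤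
      ∏ i ∈ S, sz1 j t (co γ (some i)) := by
    intro S
    induction S using Finset.induction_on with
    | empty => simp
    | insert a S ha ih =>
      rw [Finset.sum_insert ha, Finset.prod_insert ha, sz1_co (some a)]
      set A := |cR j t γ (some a)| + |cL j t γ (some a)| + |cT j t γ (some a)| + |cB j t γ (some a)| with hA
      have hA0 : 0 ≤ A := by positivity
      have h1 : 1 ≤ ∏ i ∈ S, sz1 j t (co γ (some i)) := by
        refine le_trans ?_ ih
        have : 0 ≤ ∑ i ∈ S, (|cR j t γ (some i)| + |cL j t γ (some i)| + |cT j t γ (some i)| + |cB j t γ (some i)|) :=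
          Finset.sum_nonneg fun i _ => by positivity
        linarith
      have e : 1 + |cR j t γ (some a)| + |cL j t γ (some a)| + |cT j t γ (some a)| + |cB j t γ (some a)| = 1 + A := by
        rw [hA]
        ring
      rw [e]
      nlinarith
  exact key Finset.univ

omit [Fintype T] in
theorem us_tracer (ht' : t = r ∨ t = r + 1) (f : Fam (gX j t) γ) {i : Option T} (h : Us j r γ i) :
    ht γ i 0 ≤ j + 1 ∧ j ≤ ht γ i 1 ∧ ht γ i 2 ≤ r + 1 ∧ r - 1 ≤ ht γ i 3 := by
  obtain ⟨c, r', h1, h2, h3⟩ := us_cell ht' (f.lp i) (δ := co γ i) h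
  have h4 := in_ht (γ := γ) (i := i) h3
  simp only at h4
  omega

/-- **the pointwise bound** -/
theorem row_pt {χ : FX (Option T) → ℝ} {f : Hf (Option T)} {C δ1 δ2 : ℝ} (hC : 0 ≤ C) (h1 : 0 ≤ δ1) (h2 : 0 ≤ δ2)
    (ht' : t = r ∨ t = r + 1) (hn : 1 ≤ n) (fm : Fam (gX j t) γ) (hl : Sp2 f γ → Loc G N k R n D (ht γ))
    (hs : Sp2 f γ → χ γ ≠ 0 → Sepd j D R (co γ none)) (h : χ γ ≠ 0 ∧ Sp2 f γ ∧ ∃ i ∈ JT T, Ex j r γ i) :
    by classical exact C * (δ2 + if BadX (JT T) j r γ then δ1 else 0) * szA (JT T) j t γ ≤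
      ∑ i : T, (C * δ2 * (∏ l, gE k j r t R n D i false l (co γ l)) + C * δ1 * ∏ l, gE k j r t R n D i true l (co γ l)) := by
  classical
  obtain ⟨hχ, hsp, hex⟩ := h
  have L := hl hsp
  have S := hs hsp hχ
  set Z := ∏ i : T, sz1 j t (co γ (some i)) with hZ
  have hZ1 : szA (JT T) j t γ ≤ Z := szA_le
  have hZ0 : 0 ≤ Z := Finset.prod_nonneg fun i _ => zero_le_one.trans (one_le_sz1 _ _ _)
  have A0 : ∀ i b, 0 ≤ ∏ l, gE k j r t R n D i b l (co γ l) := fun i b => Finset.prod_nonneg fun l _ => gE_nn _ _ _ _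
  have term : ∀ i, 0 ≤ C * δ2 * (∏ l, gE k j r t R n D i false l (co γ l)) + C * δ1 * ∏ l, gE k j r t R n D i true l (co γ l) :=
    fun i => add_nonneg (mul_nonneg (mul_nonneg hC h2) (A0 i _)) (mul_nonneg (mul_nonneg hC h1) (A0 i _))
  have tr : ∀ i : T, Ex j r γ (some i) → ∀ l : T, ∀ b, gE k j r t R n D i b (some l) (co γ (some l)) = sz1 j t (co γ (some l)) := by
    intro i hi l b
    refine if_pos ⟨win_of hn L l, fun e => ?_⟩
    subst e
    rw [← mb_eq, Ex_mb]
    exact hi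
  have fa : ∀ i : T, Ex j r γ (some i) → ∏ l, gE k j r t R n D i false l (co γ l) = Z := by
    intro i hi
    rw [Fintype.prod_option]
    have e : gE k j r t R n D i false none (co γ none) = 1 := by
      show (if (false : Bool) = true then (if Big D (co γ none) ∧ Us1 j r (co γ none) then (1 : ℝ) else 0) else
        if Sepd j D R (co γ none) then (1 : ℝ) else 0) = 1
      rw [if_neg (by decide), if_pos S]
    rw [e, one_mul]
    exact Finset.prod_congr rfl fun l _ => tr i hi l false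
  have tru : ∀ i : T, Ex j r γ (some i) → Us j r γ none → ∏ l, gE k j r t R n D i true l (co γ l) = Z := by
    intro i hi hu
    rw [Fintype.prod_option]
    have e : gE k j r t R n D i true none (co γ none) = 1 := by
      show (if (true : Bool) = true then (if Big D (co γ none) ∧ Us1 j r (co γ none) then (1 : ℝ) else 0) else
        if Sepd j D R (co γ none) then (1 : ℝ) else 0) = 1
      rw [if_pos rfl, if_pos ⟨big_of S, hu⟩]
    rw [e, one_mul]
    exact Finset.prod_congr rfl fun l _ => tr i hi l true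
  by_cases hb : BadX (JT T) j r γ
  · rw [if_pos hb]
    obtain ⟨i, hi, he, l, hli, hul⟩ := hb
    obtain ⟨i, rfl⟩ := mem_JT.1 hi
    have hui : Us j r γ (some i) := by
      rcases he with h | h | h | h <;> exact h.1
    have hl0 : l = none := by
      rcases l with _ | l
      · rfl
      · exfalso
        have a1 := us_tracer ht' fm hui
        have a2 := us_tracer ht' fm hul
        rcases L.sp i l (fun e => hli (by rw [e])) with h | h <;> omega
    subst hl0
    calc C * (δ2 + δ1) * szA (JT T) j t γ ≤ C * (δ2 + δ1) * Z := mul_le_mul_of_nonneg_left hZ1 (mul_nonneg hC (by linarith))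
      _ = C * δ2 * (∏ l, gE k j r t R n D i false l (co γ l)) + C * δ1 * ∏ l, gE k j r t R n D i true l (co γ l) := by
        rw [fa i he, tru i he hul]
        ring
      _ ≤ _ := Finset.single_le_sum (f := fun i => C * δ2 * (∏ l, gE k j r t R n D i false l (co γ l)) +
          C * δ1 * ∏ l, gE k j r t R n D i true l (co γ l)) (fun i _ => term i) (Finset.mem_univ i)
  · rw [if_neg hb, add_zero]
    obtain ⟨i, hi, he⟩ := hex
    obtain ⟨i, rfl⟩ := mem_JT.1 hi
    calc C * δ2 * szA (JT T) j t γ ≤ C * δ2 * Z := mul_le_mul_of_nonneg_left hZ1 (mul_nonneg hC h2)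
      _ ≤ C * δ2 * (∏ l, gE k j r t R n D i false l (co γ l)) + C * δ1 * ∏ l, gE k j r t R n D i true l (co γ l) := by
        rw [fa i he]
        have := mul_nonneg (mul_nonneg hC h1) (A0 i true)
        linarith
      _ ≤ _ := Finset.single_le_sum (f := fun i => C * δ2 * (∏ l, gE k j r t R n D i false l (co γ l)) +
          C * δ1 * ∏ l, gE k j r t R n D i true l (co γ l)) (fun i _ => term i) (Finset.mem_univ i)

theorem prod_le_of {a : T → ℝ} {A M : ℝ} (h0 : ∀ i, 0 ≤ a i) (hM : 1 ≤ M) (h : ∀ i, a i ≤ M) (i : T) (hi : a i ≤ A) (hA : 0 ≤ A) :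
    ∏ l, a l ≤ A * M ^ Fintype.card T := by
  classical
  rw [← Finset.mul_prod_erase _ _ (Finset.mem_univ i)]
  have h1 : ∏ l ∈ Finset.univ.erase i, a l ≤ M ^ Fintype.card T := by
    calc ∏ l ∈ Finset.univ.erase i, a l ≤ ∏ _l ∈ Finset.univ.erase i, M := Finset.prod_le_prod (fun l _ => h0 l) fun l _ => h l
      _ = M ^ (Finset.univ.erase i).card := by rw [Finset.prod_const]
      _ ≤ _ := pow_le_pow_right₀ hM (Finset.card_le_univ _)
  exact mul_le_mul hi h1 (Finset.prod_nonneg fun l _ => h0 l) hA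

open Classical in
/-- **the error terms of one row** -/
theorem row_bd {χ : FX (Option T) → ℝ} {f : Hf (Option T)} {C C6 δ1 δ2 CS ε' C1 CM : ℝ} (hC : 0 ≤ C) (h1 : 0 ≤ δ1)
    (h2 : 0 ≤ δ2) (h60 : 0 ≤ C6) (hCM1 : 1 ≤ CM) (ht' : t = r ∨ t = r + 1) (hn : 1 ≤ n)
    (hl : ∀ γ, Sp2 f γ → Loc G N k R n D (ht γ))
    (hs : ∀ γ, Fam (gX j t) γ → Sp2 f γ → χ γ ≠ 0 → Sepd j D R (co γ none))
    (h6 : ∀ g : Option T → (VX →₀ Cell) → ℝ, (∀ i δ, 0 ≤ g i δ) →
      AX k j t B (fun γ => ∏ i, g i (co γ i)) ≤ C6 * ∏ i, A1 k j t B (g i))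
    (aS : A1 k j t B (fun δ => if Sepd j D R δ then 1 else 0) ≤ CS)
    (aN : A1 k j t B (fun δ => if Big D δ ∧ Us1 j r δ then 1 else 0) ≤ ε')
    (aE : A1 k j t B (fun δ => if Win k R n δ ∧ Ex j r (fam1 δ) () then sz1 j t δ else 0) ≤ C1)
    (aM : A1 k j t B (fun δ => if Win k R n δ then sz1 j t δ else 0) ≤ CM) :
    AX k j t B (fun γ => if χ γ ≠ 0 ∧ Sp2 f γ ∧ ∃ i ∈ JT T, Ex j r γ i then
      C * (δ2 + if BadX (JT T) j r γ then δ1 else 0) * szA (JT T) j t γ else 0) ≤
      Fintype.card T * (C * C6 * (δ2 * CS + δ1 * ε') * (C1 * CM ^ Fintype.card T)) := by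
  have hC1 : 0 ≤ C1 := le_trans (A1_nonneg fun δ => by
      split_ifs
      · exact zero_le_one.trans (one_le_sz1 _ _ _)
      · exact le_rfl) aE
  have hCS : 0 ≤ CS := le_trans (A1_nonneg fun δ => by split_ifs <;> norm_num) aS
  have hε : 0 ≤ ε' := le_trans (A1_nonneg fun δ => by split_ifs <;> norm_num) aN
  have step : AX k j t B (fun γ => if χ γ ≠ 0 ∧ Sp2 f γ ∧ ∃ i ∈ JT T, Ex j r γ i then
      C * (δ2 + if BadX (JT T) j r γ then δ1 else 0) * szA (JT T) j t γ else 0) ≤
      AX k j t B (fun γ => ∑ i : T, (C * δ2 * (∏ l, gE k j r t R n D i false l (co γ l)) +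
        C * δ1 * ∏ l, gE k j r t R n D i true l (co γ l))) := by
    refine AX_mono fun γ fm _ => ?_
    by_cases h3 : χ γ ≠ 0 ∧ Sp2 f γ ∧ ∃ i ∈ JT T, Ex j r γ i
    · rw [if_pos h3]
      exact row_pt hC h1 h2 ht' hn fm (hl γ) (hs γ fm) h3
    · rw [if_neg h3]
      exact Finset.sum_nonneg fun i _ => add_nonneg (mul_nonneg (mul_nonneg hC h2) (Finset.prod_nonneg fun l _ => gE_nn _ _ _ _))
        (mul_nonneg (mul_nonneg hC h1) (Finset.prod_nonneg fun l _ => gE_nn _ _ _ _))
  refine step.trans ?_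
  rw [AX_sum]
  have tb : ∀ (i : T) (b : Bool), ∏ l : T, A1 k j t B (gE k j r t R n D i b (some l)) ≤ C1 * CM ^ Fintype.card T := by
    intro i b
    refine prod_le_of (fun l => A1_nonneg fun δ => gE_nn _ _ _ _) hCM1 (fun l => ?_) i ?_ hC1
    · refine (A1_mono fun δ => ?_).trans aM
      show (if Win k R n δ ∧ (l = i → Ex j r (fam1 δ) ()) then sz1 j t δ else 0) ≤ _
      by_cases hw : Win k R n δ
      · rw [if_pos hw]
        split_ifs
        · exact le_rfl
        · exact zero_le_one.trans (one_le_sz1 _ _ _)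
      · rw [if_neg hw, if_neg fun h => hw h.1]
    · refine (A1_mono fun δ => ?_).trans aE
      show (if Win k R n δ ∧ (i = i → Ex j r (fam1 δ) ()) then sz1 j t δ else 0) ≤ _
      by_cases hw : Win k R n δ ∧ Ex j r (fam1 δ) ()
      · rw [if_pos hw, if_pos ⟨hw.1, fun _ => hw.2⟩]
      · rw [if_neg hw, if_neg fun h => hw ⟨h.1, h.2 rfl⟩]
  have pb : ∀ (i : T) (b : Bool) (A : ℝ), A1 k j t B (gE k j r t R n D i b none) ≤ A → 0 ≤ A →
      AX k j t B (fun γ => ∏ l, gE k j r t R n D i b l (co γ l)) ≤ C6 * (A * (C1 * CM ^ Fintype.card T)) := by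
    intro i b A hA hA0
    refine (h6 (gE k j r t R n D i b) fun l δ => gE_nn _ _ _ _).trans (mul_le_mul_of_nonneg_left ?_ h60)
    rw [Fintype.prod_option]
    exact mul_le_mul hA (tb i b) (Finset.prod_nonneg fun l _ => A1_nonneg fun δ => gE_nn _ _ _ _) hA0
  have each : ∀ i : T, AX k j t B (fun γ => C * δ2 * (∏ l, gE k j r t R n D i false l (co γ l)) +
      C * δ1 * ∏ l, gE k j r t R n D i true l (co γ l)) ≤ C * C6 * (δ2 * CS + δ1 * ε') * (C1 * CM ^ Fintype.card T) := by
    intro i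
    rw [AX_add, AX_mul, AX_mul]
    have a1 := pb i false CS (by
      have e : gE k j r t R n D i false none = fun δ => if Sepd j D R δ then (1 : ℝ) else 0 := by
        funext δ
        show (if (false : Bool) = true then (if Big D δ ∧ Us1 j r δ then (1 : ℝ) else 0) else
          if Sepd j D R δ then (1 : ℝ) else 0) = _
        rw [if_neg (by decide)]
      rw [e]
      exact aS) hCS
    have a2 := pb i true ε' (by
      have e : gE k j r t R n D i true none = fun δ => if Big D δ ∧ Us1 j r δ then (1 : ℝ) else 0 := by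
        funext δ
        show (if (true : Bool) = true then (if Big D δ ∧ Us1 j r δ then (1 : ℝ) else 0) else
          if Sepd j D R δ then (1 : ℝ) else 0) = _
        rw [if_pos rfl]
      rw [e]
      exact aN) hε
    have b1 := mul_le_mul_of_nonneg_left a1 (mul_nonneg hC h2)
    have b2 := mul_le_mul_of_nonneg_left a2 (mul_nonneg hC h1)
    refine (add_le_add b1 b2).trans (le_of_eq ?_)
    ring
  calc ∑ i : T, AX k j t B (fun γ => C * δ2 * (∏ l, gE k j r t R n D i false l (co γ l)) +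
        C * δ1 * ∏ l, gE k j r t R n D i true l (co γ l)) ≤
        ∑ _i : T, C * C6 * (δ2 * CS + δ1 * ε') * (C1 * CM ^ Fintype.card T) := Finset.sum_le_sum fun i _ => each i
    _ = _ := by
      rw [Finset.sum_const, Finset.card_univ, nsmul_eq_mul]

open Classical in
/-- **far rows have no error** -/
theorem row_zero {χ : FX (Option T) → ℝ} {f : Hf (Option T)} {C δ1 δ2 : ℝ} (ht' : t = r ∨ t = r + 1)
    (hl : ∀ γ, Sp2 f γ → Loc G N k R n D (ht γ)) (hf : ¬ (|j| ≤ R ∧ |r| ≤ R)) :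
    AX k j t B (fun γ => if χ γ ≠ 0 ∧ Sp2 f γ ∧ ∃ i ∈ JT T, Ex j r γ i then
      C * (δ2 + if BadX (JT T) j r γ then δ1 else 0) * szA (JT T) j t γ else 0) = 0 := by
  refine AX_zero fun γ fm _ => if_neg ?_
  rintro ⟨-, hsp, i, hi, he⟩
  obtain ⟨i, rfl⟩ := mem_JT.1 hi
  have hui : Us j r γ (some i) := by
    rcases he with h | h | h | h <;> exact h.1
  have a1 := us_tracer ht' fm hui
  have L := hl γ hsp
  have b0 := abs_le.1 (show |ht γ (some i) 0| ≤ R - 20 by have := L.bx i 0; omega)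
  have b1 := abs_le.1 (show |ht γ (some i) 1| ≤ R - 20 by have := L.bx i 1; omega)
  have b2 := abs_le.1 (show |ht γ (some i) 2| ≤ R - 20 by have := L.bx i 2; omega)
  have b3 := abs_le.1 (show |ht γ (some i) 3| ≤ R - 20 by have := L.bx i 3; omega)
  exact hf ⟨abs_le.2 ⟨by omega, by omega⟩, abs_le.2 ⟨by omega, by omega⟩⟩

end

end Pool.Agent.ROT.X
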