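import Pool.Agent.ROT.XInc3
import Pool.Agent.ROT.XEnds

/-!
# UNIV, exact side: the ends of the box (helper99)

* `sgx_even`, `below_sgx` : every line `p ≠ j + 1` has an even number of edges; a loop around an object has a cell below it;
* `gA_bd`, `gA_sp` : size and support of the functional;
* **`end_T`**, **`end_B`** : the families which use the crossing above the box, below the box.
-/

set_option autoImplicit false

namespace Pool.Agent.ROT.X

open Pool.Agent.YBC (Dir)
open Pool.Agent.ROT.E (Cell IsUn Pt nx)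
open Pool.Agent.ROT.L
open Pool.Agent.ROT.U (Tf1)

noncomputable section

/-! ### parity of the lines -/

section parity

variable {j s p : ℤ} {δ : VX →₀ Cell}

/-- the right side of the line `p` -/
def RtI (j p : ℤ) : Set VX := {v | match v with | none => p ≤ j | some v => p ≤ v.1}

theorem rt_out {h : VX × Dir} (hp : p ≠ j + 1) (h1 : h.1 ∈ RtI j p) :
    ((gX j s).e h).1 ∉ RtI j p ↔ ∃ y, h = (some (p, y), .W) := by
  obtain ⟨_ | ⟨a, b⟩, d⟩ := h
  · have h1' : p ≤ j := h1
    constructor
    · intro h2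
      exfalso
      apply h2
      cases d
      · show p ≤ j + 1
        omega
      · show p ≤ j + 1
        omega
      · show p ≤ j
        exact h1'
      · show p ≤ j
        exact h1'
    · rintro ⟨y, e⟩
      simp at e
  · have h1' : p ≤ a := h1
    cases d
    · refine iff_of_false (fun h2 => h2 ?_) (by rintro ⟨y, e⟩; simp at e)
      show p ≤ a + 1
      omega
    · refine iff_of_false (fun h2 => h2 ?_) (by rintro ⟨y, e⟩; simp at e)
      show (eX j s (some (a, b), .N)).1 ∈ RtI j p
      simp only [eX]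
      split_ifs with h3 h4
      · simp only [Prod.mk.injEq] at h3
        show p ≤ j
        omega
      · simp only [Prod.mk.injEq] at h4
        show p ≤ j
        omega
      · exact h1'
    · constructor
      · intro h2
        have h3 : ¬ p ≤ a - 1 := h2
        exact ⟨b, by
          have : a = p := by omega
          rw [this]⟩
      · rintro ⟨y, e⟩
        simp only [Prod.mk.injEq, Option.some.injEq] at e
        show ¬ p ≤ a - 1
        omega
    · refine iff_of_false (fun h2 => h2 ?_) (by rintro ⟨y, e⟩; simp at e)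
      show (eX j s (some (a, b), .S)).1 ∈ RtI j p
      simp only [eX]
      split_ifs with h3 h4
      · simp only [Prod.mk.injEq] at h3
        show p ≤ j
        omega
      · simp only [Prod.mk.injEq] at h4
        show p ≤ j
        omega
      · exact h1'

/-- **every line `p ≠ j + 1` has an even number of edges** -/
theorem line_even (l : Lp (gX j s) δ) (hp : p ≠ j + 1) : ((({y : ℤ | hz δ p y}).ncard : ℕ) : ZMod 2) = 0 := by
  classical
  set H : Finset (VX × Dir) := (δ.support ×ˢ Finset.univ).filter fun h => h.1 ∈ RtI j p ∧ oc δ h with hH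
  have mem : ∀ h, h ∈ H ↔ h.1 ∈ RtI j p ∧ oc δ h := by
    intro h
    rw [hH, Finset.mem_filter, Finset.mem_product]
    constructor
    · exact fun x => x.2
    · intro x
      exact ⟨⟨Finsupp.mem_support_iff.2 (oc_zero (v := h.1) (d := h.2) x.2), Finset.mem_univ _⟩, x⟩
  have vpi : ∀ (c : Cell) (d : Dir), c.oc d → c.oc (c.p d) ∧ c.p (c.p d) = d ∧ c.p d ≠ d := by decide
  have e1 : ∑ _h ∈ H, (1 : ZMod 2) = 0 := by
    refine Finset.sum_involution (fun h _ => vp δ h) (fun h _ => by decide) (fun h hh _ e => ?_) (fun h hh => ?_) fun h hh => ?_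
    · have h1 := (vpi _ _ ((mem h).1 hh).2).2.2
      exact h1 (congrArg Prod.snd e)
    · have h1 := (mem h).1 hh
      exact (mem _).2 ⟨h1.1, (vpi _ _ h1.2).1⟩
    · have h1 := (mem h).1 hh
      exact Prod.ext rfl (vpi _ _ h1.2).2.1
  set Hi := H.filter fun h => ((gX j s).e h).1 ∈ RtI j p with hHi
  have e2 : ∑ _h ∈ Hi, (1 : ZMod 2) = 0 := by
    refine Finset.sum_involution (fun h _ => (gX j s).e h) (fun h _ => by decide) (fun h hh _ e => ?_) (fun h hh => ?_)
      fun h hh => (gX j s).inv h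
    · obtain ⟨_ | ⟨a, b⟩, d⟩ := h
      · cases d <;> simp [gX, eX] at e
      · cases d
        · simp [gX, eX] at e
        · simp only [gX, eX] at e
          split_ifs at e <;> simp at e
        · simp [gX, eX] at e
        · simp only [gX, eX] at e
          split_ifs at e <;> simp at e
    · rw [hHi, Finset.mem_filter, mem] at hh ⊢
      refine ⟨⟨hh.2, (l.mt h trivial trivial).1 hh.1.2⟩, ?_⟩
      rw [(gX j s).inv]
      exact hh.1.1
  have e3 : ∑ _h ∈ H.filter (fun h => ¬ ((gX j s).e h).1 ∈ RtI j p), (1 : ZMod 2) = 0 := by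
    have := Finset.sum_filter_add_sum_filter_not H (fun h => ((gX j s).e h).1 ∈ RtI j p) fun _ => (1 : ZMod 2)
    rw [← hHi, e2, e1, zero_add] at this
    exact this
  rw [Finset.sum_const, nsmul_eq_mul, mul_one] at e3
  have e4 : ({y : ℤ | hz δ p y}).ncard = (H.filter (fun h => ¬ ((gX j s).e h).1 ∈ RtI j p)).card := by
    rw [← Set.ncard_coe_finset]
    refine Set.ncard_congr (fun y _ => (some (p, y), Dir.W)) (fun y hy => ?_) (fun a b _ _ e => ?_) fun h hh => ?_
    · rw [Finset.mem_coe, Finset.mem_filter, mem]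
      have h1 : ((some (p, y), Dir.W) : VX × Dir).1 ∈ RtI j p := le_refl p
      exact ⟨⟨h1, hy⟩, (rt_out hp h1).2 ⟨y, rfl⟩⟩
    · simpa using e
    · rw [Finset.mem_coe, Finset.mem_filter, mem] at hh
      obtain ⟨y, rfl⟩ := (rt_out hp hh.1.1).1 hh.2
      exact ⟨y, hh.1.2, rfl⟩
  rw [e4]
  exact e3

/-- a loop around an object has an edge below it -/
theorem below_sgx (l : Lp (gX j s) δ) (hp : p ≠ j + 1) {y : ℤ} (h : sgx δ p y = 1) : ∃ y', y' < y ∧ δ (some (p, y')) ≠ .o := by
  by_contra hc
  push Not at hc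
  have e : {y' : ℤ | y ≤ y' ∧ hz δ p y'} = {y' : ℤ | hz δ p y'} := by
    ext y'
    refine ⟨fun h => h.2, fun h => ⟨?_, h⟩⟩
    by_contra hlt
    exact oc_zero h (hc y' (by omega))
  unfold sgx at h
  rw [e, line_even l hp] at h
  exact absurd h (by decide)

end parity

/-! ### the functional -/

section func

variable {I : Type} {j s : ℤ} {γ : FX I} {J : Finset I} {f : Hf I}

theorem upd_near (h : I → Fin 4 → ℤ) (i : I) (a : Fin 4) (c : ℤ) (hc : |c| ≤ 1) (i' : I) (a' : Fin 4) :
    |upd h i a (h i a + c) i' a' - h i' a'| ≤ 1 := by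
  classical
  unfold upd
  by_cases h1 : i' = i
  · subst h1
    rw [Function.update_self]
    by_cases h2 : a' = a
    · subst h2
      rw [Function.update_self]
      have : h i' a' + c - h i' a' = c := by ring
      rw [this]
      exact hc
    · rw [Function.update_of_ne h2, sub_self]
      norm_num
  · rw [Function.update_of_ne h1, sub_self]
    norm_num

theorem sp_of_ne {i : I} {a : Fin 4} {c : ℤ} (hc : |c| ≤ 1) (h : f (upd (ht γ) i a (ht γ i a + c)) ≠ 0) : Sp2 f γ :=
  ⟨_, h, fun i' a' => (upd_near (ht γ) i a c hc i' a').trans (by norm_num)⟩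

/-- **the support of the functional** -/
theorem gA_sp (h : gA J f j s γ ≠ 0) : Sp2 f γ := by
  by_contra hn
  apply h
  have h0 : f (ht γ) = 0 := by
    by_contra hc
    exact hn ⟨_, hc, fun i a => by simp⟩
  have h1 : ∀ i a, f (upd (ht γ) i a (ht γ i a + 1)) = 0 := fun i a => by
    by_contra hc
    exact hn (sp_of_ne (by norm_num) hc)
  have h2 : ∀ i a, f (upd (ht γ) i a (ht γ i a - 1)) = 0 := fun i a => by
    by_contra hc
    exact hn (sp_of_ne (c := -1) (by norm_num) hc)
  unfold gA cor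
  simp only [h0, h1, h2]
  simp

/-- **the size of the functional** -/
theorem gA_bd {L : ℝ} (hL : ∀ h, |f h| ≤ L) : |gA J f j s γ| ≤ 2 * L * (1 + 2 * J.card) * szA J j s γ := by
  have hL0 : 0 ≤ L := (abs_nonneg _).trans (hL (ht γ))
  have dif : ∀ h h' : I → Fin 4 → ℤ, |f h - f h'| ≤ 2 * L := fun h h' => by
    have := abs_sub (f h) (f h')
    have h1 := hL h
    have h2 := hL h'
    linarith
  have c1 : ∀ i, |cor f j s γ i| ≤ 2 * L * (2 + (|cR j s γ i| + |cL j s γ i| + |cT j s γ i| + |cB j s γ i|)) := by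
    intro i
    unfold cor
    have a1 : |(cR j s γ i - 1) * (f (ht γ) - f (upd (ht γ) i 1 (ht γ i 1 + 1)))| ≤ (|cR j s γ i| + 1) * (2 * L) := by
      rw [abs_mul]
      exact mul_le_mul ((abs_sub _ _).trans (by rw [abs_one])) (dif _ _) (abs_nonneg _) (by positivity)
    have a2 : |(cL j s γ i - 1) * (f (ht γ) - f (upd (ht γ) i 0 (ht γ i 0 - 1)))| ≤ (|cL j s γ i| + 1) * (2 * L) := by
      rw [abs_mul]
      exact mul_le_mul ((abs_sub _ _).trans (by rw [abs_one])) (dif _ _) (abs_nonneg _) (by positivity)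
    have a3 : |cT j s γ i * (f (ht γ) - f (upd (ht γ) i 3 (ht γ i 3 - 1)))| ≤ |cT j s γ i| * (2 * L) := by
      rw [abs_mul]
      exact mul_le_mul_of_nonneg_left (dif _ _) (abs_nonneg _)
    have a4 : |cB j s γ i * (f (ht γ) - f (upd (ht γ) i 2 (ht γ i 2 + 1)))| ≤ |cB j s γ i| * (2 * L) := by
      rw [abs_mul]
      exact mul_le_mul_of_nonneg_left (dif _ _) (abs_nonneg _)
    generalize (cR j s γ i - 1) * (f (ht γ) - f (upd (ht γ) i 1 (ht γ i 1 + 1))) = x1 at a1 ⊢
    generalize (cL j s γ i - 1) * (f (ht γ) - f (upd (ht γ) i 0 (ht γ i 0 - 1))) = x2 at a2 ⊢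
    generalize cT j s γ i * (f (ht γ) - f (upd (ht γ) i 3 (ht γ i 3 - 1))) = x3 at a3 ⊢
    generalize cB j s γ i * (f (ht γ) - f (upd (ht γ) i 2 (ht γ i 2 + 1))) = x4 at a4 ⊢
    have b := abs_le.1 a1
    have b2 := abs_le.1 a2
    have b3 := abs_le.1 a3
    have b4 := abs_le.1 a4
    exact abs_le.2 ⟨by nlinarith, by nlinarith⟩
  unfold gA szA
  set A := ∑ i ∈ J, (|cR j s γ i| + |cL j s γ i| + |cT j s γ i| + |cB j s γ i|) with hA
  have hA0 : 0 ≤ A := Finset.sum_nonneg fun i _ => by positivity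
  calc |f (ht γ) + ∑ i ∈ J, cor f j s γ i| ≤ |f (ht γ)| + ∑ i ∈ J, |cor f j s γ i| :=
        (abs_add_le _ _).trans (add_le_add_right (Finset.abs_sum_le_sum_abs _ _) _)
    _ ≤ L + ∑ i ∈ J, 2 * L * (2 + (|cR j s γ i| + |cL j s γ i| + |cT j s γ i| + |cB j s γ i|)) :=
        add_le_add (hL _) (Finset.sum_le_sum fun i _ => c1 i)
    _ = L + (2 * L * (2 * J.card) + 2 * L * A) := by
        rw [← Finset.mul_sum, Finset.sum_add_distrib, Finset.sum_const, nsmul_eq_mul, ← hA]
        ring
    _ ≤ 2 * L * (1 + 2 * J.card) * (1 + A) := by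
        have h1 : 0 ≤ L * A * J.card := by positivity
        nlinarith

end func

/-! ### sums -/

theorem SX_le {I : Type} [Finite I] {k j s B : ℤ} {F : FX I → ℝ} : |SX k j s B F| ≤ AX k j s B fun γ => |F γ| := by
  classical
  have e : SX k j s B F = ∑ γ ∈ (fin_Bx B).toFinset, if Fam (gX j s) γ ∧ Bx B γ then WX (WE k j s) γ * F γ else 0 :=
    tsum_eq_sum fun γ hγ => if_neg fun h => hγ ((Set.Finite.mem_toFinset _).2 h.2)
  rw [e, AX_eq]
  refine (Finset.abs_sum_le_sum_abs _ _).trans (Finset.sum_le_sum fun γ _ => ?_)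
  split_ifs
  · rw [abs_mul]
  · rw [abs_zero]

end

end Pool.Agent.ROT.X
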