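import Pool.Agent.ROT.XInc4

/-!
# UNIV, exact side: the ends of the box, sums (helper99)

* **`end_bd`** : the families which use the crossing above the box (`t = B + 1`), below the box (`t = -B`);
* `end_lim` : `EndG` and `NearM LatJ` make them small.
-/

set_option autoImplicit false

namespace Pool.Agent.ROT.X

open Pool.Agent.YBC (Dir)
open Pool.Agent.ROT.E (Cell IsUn Pt nx)
open Pool.Agent.ROT.L
open Pool.Agent.ROT.U (Tf1)

noncomputable section

variable {T P : Type} [Fintype T] {N : ℕ} {k j t B R n D : ℤ} {G : T → (Fin 4 → ℝ) → ℝ} {x : P → Pt} {γ : FX (Option T)}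

omit [Fintype T] in
/-- the crossing of the ends is used by the large loop, which is then large -/
theorem end_cell (ht' : t = B + 1 ∨ t = -B) (hB : R + 2 ≤ B) (fm : Fam (gX j t) γ) (hb : Bx B γ)
    (L : Loc G N k R n D (ht γ)) (S : Sepd j D R (co γ none)) (h0 : γ none ≠ 0) :
    co γ none none ≠ .o ∧ Ext1 (B - R) (co γ none) := by
  obtain ⟨l, hl⟩ := Function.ne_iff.1 h0
  have hl' : co γ l none ≠ .o := hl
  have cc := cross_cell (fm.lp l) hl'
  have rows : ∃ c r', (c = j ∨ c = j + 1) ∧ ((t = B + 1 ∧ r' = B) ∨ (t = -B ∧ r' = -B)) ∧ co γ l (some (c, r')) ≠ .o := by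
    obtain ⟨c, r', h1, h2, h3⟩ := cc
    have h4 : γ (some (c, r')) ≠ 0 := fun h => h3 (congrFun h l)
    have h5 := abs_le.1 (hb c r' h4).2
    refine ⟨c, r', h1, ?_, h3⟩
    rcases ht' with h6 | h6
    · left
      omega
    · right
      omega
  obtain ⟨c, r', h1, h2, h3⟩ := rows
  have hn : l = none := by
    rcases l with _ | i
    · rfl
    · exfalso
      have h4 := in_ht (γ := γ) (i := some i) h3
      have b2 := abs_le.1 (show |ht γ (some i) 2| ≤ R - 20 by have := L.bx i 2; omega)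
      have b3 := abs_le.1 (show |ht γ (some i) 3| ≤ R - 20 by have := L.bx i 3; omega)
      simp only at h4
      rcases h2 with h2 | h2 <;> omega
  subst hn
  refine ⟨hl', ?_⟩
  obtain ⟨p1, y1, p2, y2, p3, y3, bd, hp, -, s1, -, -⟩ := S
  have b1 := abs_le.1 bd.2.1
  rcases h2 with ⟨-, h2⟩ | ⟨-, h2⟩
  · obtain ⟨y', h4, h5⟩ := below_sgx (fm.lp none) hp.1 s1
    exact ⟨(p1, y'), (c, r'), h5, h3, Or.inr (by simp only; omega)⟩
  · obtain ⟨y', h4, h5⟩ := cell_of_sgx s1
    exact ⟨(c, r'), (p1, y'), h3, h5, Or.inr (by simp only; omega)⟩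

open Classical in
/-- the events of the members at the ends -/
def gN (k j t R n M : ℤ) : Option T → (VX →₀ Cell) → ℝ
  | none => fun δ => if δ none ≠ .o ∧ Ext1 M δ then 1 else 0
  | some _ => fun δ => if Win k R n δ then sz1 j t δ else 0

omit [Fintype T] in
open Classical in
theorem gN_nn (M : ℤ) (l : Option T) (δ : VX →₀ Cell) : 0 ≤ gN k j t R n M l δ := by
  rcases l with _ | l
  · show (0 : ℝ) ≤ if δ none ≠ .o ∧ Ext1 M δ then 1 else 0
    by_cases h2 : δ none ≠ .o ∧ Ext1 M δ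
    · rw [if_pos h2]
      norm_num
    · rw [if_neg h2]
  · show (0 : ℝ) ≤ if Win k R n δ then sz1 j t δ else 0
    by_cases h2 : Win k R n δ
    · rw [if_pos h2]
      exact zero_le_one.trans (one_le_sz1 _ _ _)
    · rw [if_neg h2]

open Classical in
/-- **the ends** -/
theorem end_bd {χ : FX (Option T) → ℝ} {f : Hf (Option T)} {L C6 ε' CM : ℝ} (hL : ∀ h, |f h| ≤ L) (hχ : ∀ γ, |χ γ| ≤ 1)
    (h60 : 0 ≤ C6) (ht' : t = B + 1 ∨ t = -B) (hB : R + 2 ≤ B) (hn : 1 ≤ n)
    (hl : ∀ γ, Sp2 f γ → Loc G N k R n D (ht γ))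
    (hs : ∀ γ, Fam (gX j t) γ → Sp2 f γ → χ γ ≠ 0 → Sepd j D R (co γ none))
    (h6 : ∀ g : Option T → (VX →₀ Cell) → ℝ, (∀ i δ, 0 ≤ g i δ) →
      AX k j t B (fun γ => ∏ i, g i (co γ i)) ≤ C6 * ∏ i, A1 k j t B (g i))
    (aN : A1 k j t B (fun δ => if δ none ≠ .o ∧ Ext1 (B - R) δ then 1 else 0) ≤ ε')
    (aM : A1 k j t B (fun δ => if Win k R n δ then sz1 j t δ else 0) ≤ CM) :
    |SX k j t B (cx fun γ => χ γ * gA (JT T) f j t γ)| ≤
      2 * L * (1 + 2 * Fintype.card T) * (C6 * (ε' * CM ^ Fintype.card T)) := by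
  have hL0 : 0 ≤ L := (abs_nonneg _).trans (hL 0)
  have hε : 0 ≤ ε' := le_trans (A1_nonneg fun δ => by split_ifs <;> norm_num) aN
  have hCM : 0 ≤ A1 k j t B (fun δ => if Win k R n δ then sz1 j t δ else 0) := A1_nonneg fun δ => by
      split_ifs
      · exact zero_le_one.trans (one_le_sz1 _ _ _)
      · exact le_rfl
  have hF : 0 ≤ 2 * L * (1 + 2 * (Fintype.card T : ℝ)) := by positivity
  have hJ : (JT T).card = Fintype.card T := by
    unfold JT
    rw [Finset.card_map, Finset.card_univ]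
  refine SX_le.trans ?_
  have step : AX k j t B (fun γ => |cx (fun γ => χ γ * gA (JT T) f j t γ) γ|) ≤
      AX k j t B (fun γ => 2 * L * (1 + 2 * Fintype.card T) * ∏ l : Option T, gN k j t R n (B - R) l (co γ l)) := by
    refine AX_mono fun γ fm hb => ?_
    have P0 : 0 ≤ ∏ l : Option T, gN k j t R n (B - R) l (co γ l) := Finset.prod_nonneg fun l _ => gN_nn _ _ _
    by_cases h0 : γ none = 0
    · have e0 : cx (fun γ => χ γ * gA (JT T) f j t γ) γ = 0 := if_pos h0
      rw [e0, abs_zero]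
      exact mul_nonneg hF P0
    · have e0 : cx (fun γ => χ γ * gA (JT T) f j t γ) γ = χ γ * gA (JT T) f j t γ := if_neg h0
      rw [e0]
      by_cases hz : χ γ * gA (JT T) f j t γ = 0
      · rw [hz, abs_zero]
        exact mul_nonneg hF P0
      · have h1 : χ γ ≠ 0 := left_ne_zero_of_mul hz
        have h2 := gA_sp (right_ne_zero_of_mul hz)
        have L1 := hl γ h2
        have S1 := hs γ fm h2 h1
        obtain ⟨e1, e2⟩ := end_cell ht' hB fm hb L1 S1 h0
        have e3 : ∏ l : Option T, gN k j t R n (B - R) l (co γ l) = ∏ i : T, sz1 j t (co γ (some i)) := by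
          rw [Fintype.prod_option]
          have e4 : gN (T := T) k j t R n (B - R) none (co γ none) = 1 := by
            show (if co γ none none ≠ .o ∧ Ext1 (B - R) (co γ none) then (1 : ℝ) else 0) = 1
            rw [if_pos ⟨e1, e2⟩]
          rw [e4, one_mul]
          refine Finset.prod_congr rfl fun l _ => ?_
          show (if Win k R n (co γ (some l)) then sz1 j t (co γ (some l)) else 0) = _
          rw [if_pos (win_of hn L1 l)]
        rw [e3, abs_mul]
        calc |χ γ| * |gA (JT T) f j t γ| ≤ 1 * (2 * L * (1 + 2 * (JT T).card) * szA (JT T) j t γ) :=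
              mul_le_mul (hχ γ) (gA_bd hL) (abs_nonneg _) zero_le_one
          _ ≤ _ := by
            rw [one_mul, hJ]
            exact mul_le_mul_of_nonneg_left szA_le hF
  refine step.trans ?_
  rw [AX_mul]
  refine mul_le_mul_of_nonneg_left ((h6 (gN k j t R n (B - R)) fun l δ => gN_nn _ _ _).trans ?_) hF
  refine mul_le_mul_of_nonneg_left ?_ h60
  rw [Fintype.prod_option]
  refine mul_le_mul aN ?_ (Finset.prod_nonneg fun l _ => A1_nonneg fun δ => gN_nn _ _ _) hε
  calc ∏ _l : T, A1 k j t B (fun δ => if Win k R n δ then sz1 j t δ else 0) ≤ ∏ _l : T, CM :=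
        Finset.prod_le_prod (fun _ _ => hCM) fun _ _ => aM
    _ = _ := by rw [Finset.prod_const, Finset.card_univ]

open Classical in
/-- **the ends are small** -/
theorem end_lim (he : EndG) (hn : U.NearM LatJ) {ε : ℝ} (hε : 0 < ε) : ∃ M0 : ℤ, ∀ k j B M t : ℤ, M0 ≤ M → k ≤ j →
    -B ≤ j → j + 1 ≤ B → (t = B + 1 ∨ t = -B) → A1 k j t B (fun δ => if δ none ≠ .o ∧ Ext1 M δ then 1 else 0) ≤ ε := by
  obtain ⟨C, hC, h⟩ := he
  have hC0 : 0 ≤ C.toReal := ENNReal.toReal_nonneg
  have hC1 : 0 < C.toReal + 1 := by linarith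
  obtain ⟨η, hη, N0, hN⟩ := hn (ε / (C.toReal + 1)) (div_pos hε hC1)
  refine ⟨max (max N0 10) ⌈2 / η⌉, fun k j B M t hM hk h1 h2 ht => ?_⟩
  have m1 : N0 ≤ M := (le_max_left _ _).trans ((le_max_left _ _).trans hM)
  have m2 : 10 ≤ M := (le_max_right _ _).trans ((le_max_left _ _).trans hM)
  have m3 : (2 / η : ℝ) ≤ M := (Int.le_ceil _).trans (by exact_mod_cast (le_max_right _ _).trans hM)
  have m4 : ((2 : ℤ) : ℝ) ≤ η * M := by
    rw [div_le_iff₀ hη] at m3
    push_cast
    linarith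
  have key : ∀ (u : ℤ → ℝ) (p : ℤ × ℤ), u ∈ LatJ → ∀ A : ℝ, ENNReal.ofReal A ≤ C * U.muU u (U.Vis p 2 ∩ U.Ext M) → A ≤ ε := by
    intro u p hu A hA
    have h3 := hN u hu M m1 p 2 m4
    have h4 : ENNReal.ofReal A ≤ ENNReal.ofReal (C.toReal * (ε / (C.toReal + 1))) := by
      rw [ENNReal.ofReal_mul hC0, ENNReal.ofReal_toReal hC]
      exact hA.trans (by gcongr)
    have h5 : 0 ≤ C.toReal * (ε / (C.toReal + 1)) := by positivity
    have h6 := (ENNReal.ofReal_le_ofReal_iff h5).1 h4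
    refine h6.trans ?_
    rw [mul_div_assoc', div_le_iff₀ hC1]
    nlinarith
  have hh := h k j B M hk h1 h2 m2
  rcases ht with rfl | rfl
  · exact key _ _ ⟨k, j, hk, rfl⟩ _ hh.1
  · exact key _ _ ⟨k, j + 1, by omega, rfl⟩ _ hh.2

end

end Pool.Agent.ROT.X
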