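import Pool.Agent.ROT.XInc5

/-!
# UNIV, exact side: the middle assembly (helper99)

**`incA`** : `RowErr`, `MassS`, `NearG`, `MassC`, `SideB`, `TopB`, `EndG`, `NearM LatJ`, `CTB` give `IncA T P`.
-/

set_option autoImplicit false

namespace Pool.Agent.ROT.X

open Pool.Agent.YBC (Dir)
open Pool.Agent.ROT.E (Cell IsUn Pt nx)
open Pool.Agent.ROT.L
open Pool.Agent.ROT.U (Tf1)

noncomputable section

/-! ### helpers -/

theorem tele_J {S E : ℤ → ℝ} {a b : ℤ} (hab : a ≤ b) (h : ∀ r, a ≤ r → r < b → |S (r + 1) - S r| ≤ E r) :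
    |S b - S a| ≤ ∑ r ∈ Finset.Ico a b, E r := by
  obtain ⟨n, rfl⟩ := Int.le.dest hab
  induction n with
  | zero => simp
  | succ n ih =>
    have h1 := ih (by omega) fun r hr hr' => h r hr (by push_cast; omega)
    have h2 := h (a + n) (by omega) (by push_cast; omega)
    have e : Finset.Ico a (a + ((n + 1 : ℕ) : ℤ)) = insert (a + (n : ℤ)) (Finset.Ico a (a + n)) := by
      ext r
      simp only [Finset.mem_Ico, Finset.mem_insert]
      push_cast
      omega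
    rw [e, Finset.sum_insert (by simp)]
    have e2 : a + ((n + 1 : ℕ) : ℤ) = a + n + 1 := by push_cast; ring
    rw [e2]
    calc |S (a + n + 1) - S a| = |(S (a + n + 1) - S (a + n)) + (S (a + n) - S a)| := by ring_nf
      _ ≤ _ := abs_add_le _ _
      _ ≤ _ := add_le_add h2 h1

theorem win_card {S S' : Finset ℤ} {R : ℤ} (hR : 0 ≤ R) {c : ℝ} (hc : 0 ≤ c) :
    ∑ j ∈ S, ∑ r ∈ S', (if |j| ≤ R ∧ |r| ≤ R then c else 0) ≤ (2 * R + 1) ^ 2 * c := by
  rw [← Finset.sum_product', ← Finset.sum_filter, Finset.sum_const, nsmul_eq_mul]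
  refine mul_le_mul_of_nonneg_right ?_ hc
  have h1 : ((S ×ˢ S').filter fun p => |p.1| ≤ R ∧ |p.2| ≤ R) ⊆ Finset.Icc (-R) R ×ˢ Finset.Icc (-R) R := by
    intro p hp
    have h2 := (Finset.mem_filter.1 hp).2
    rw [Finset.mem_product, Finset.mem_Icc, Finset.mem_Icc]
    exact ⟨abs_le.1 h2.1, abs_le.1 h2.2⟩
  have h2 := Finset.card_le_card h1
  rw [Finset.card_product, Int.card_Icc] at h2
  have h3 : ((R + 1 - -R).toNat : ℤ) = 2 * R + 1 := by
    rw [Int.toNat_of_nonneg (by omega)]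
    ring
  have h4 : ((((S ×ˢ S').filter fun p => |p.1| ≤ R ∧ |p.2| ≤ R).card : ℕ) : ℤ) ≤ (2 * R + 1) ^ 2 := by
    calc ((((S ×ˢ S').filter fun p => |p.1| ≤ R ∧ |p.2| ≤ R).card : ℕ) : ℤ) ≤ (((R + 1 - -R).toNat * (R + 1 - -R).toNat : ℕ) : ℤ) := by
          exact_mod_cast h2
      _ = _ := by
        push_cast
        rw [h3]
        ring
  exact_mod_cast h4

theorem SE_congr' {I : Type} {k j B : ℤ} {G G' : FX I → ℝ} (h : ∀ γ, Fam g0 γ → γ none = 0 → G γ = G' γ) :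
    SE k j B G = SE k j B G' := by
  unfold SE
  refine tsum_congr fun γ => ?_
  by_cases h1 : Fam g0 γ ∧ γ none = 0 ∧ Bx B γ
  · rw [if_pos h1, if_pos h1, h γ h1.1 h1.2.1]
  · rw [if_neg h1, if_neg h1]

theorem win_mono {k K K' n : ℤ} {δ : VX →₀ Cell} (h : K ≤ K') (w : Win k K n δ) : Win k K' n δ :=
  ⟨fun p hp => ⟨(w.1 p hp).1, (w.1 p hp).2.1.trans h, (w.1 p hp).2.2.trans h⟩, w.2⟩

open Classical in
/-- extreme tracers in a window -/
theorem ex_bd {Cs Ct c0 : ℝ} (hct : ∀ (j s : ℤ) (δ : VX →₀ Cell), Lp (gX j s) δ → |cT j s (fam1 δ) ()| ≤ c0 ∧ |cB j s (fam1 δ) ()| ≤ c0)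
    (hc0 : 0 ≤ c0) {k j r t B R n : ℤ} (hRB : R ≤ B)
    (hs : A1 k j t B (fun δ => if (ExR j r (fam1 δ) () ∨ ExL j r (fam1 δ) ()) ∧ Win k B n δ then sz1 j t δ else 0) ≤ Cs / (n : ℝ) ^ 2)
    (htp : A1 k j t B (fun δ => if (ExT j r (fam1 δ) () ∨ ExB j r (fam1 δ) ()) ∧ Win k B n δ then 1 else 0) ≤ Ct / (n : ℝ) ^ 2) :
    A1 k j t B (fun δ => if Win k R n δ ∧ Ex j r (fam1 δ) () then sz1 j t δ else 0) ≤ (Cs + (3 + 2 * c0) * Ct) / (n : ℝ) ^ 2 := by
  have h1 : A1 k j t B (fun δ => if Win k R n δ ∧ Ex j r (fam1 δ) () then sz1 j t δ else 0) ≤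
      A1 k j t B (fun δ => (if (ExR j r (fam1 δ) () ∨ ExL j r (fam1 δ) ()) ∧ Win k B n δ then sz1 j t δ else 0) +
        (3 + 2 * c0) * (if (ExT j r (fam1 δ) () ∨ ExB j r (fam1 δ) ()) ∧ Win k B n δ then 1 else 0)) := by
    refine A1_mono' fun δ l _ => ?_
    have p1 : (0 : ℝ) ≤ if (ExR j r (fam1 δ) () ∨ ExL j r (fam1 δ) ()) ∧ Win k B n δ then sz1 j t δ else 0 := by
      by_cases h : (ExR j r (fam1 δ) () ∨ ExL j r (fam1 δ) ()) ∧ Win k B n δ
      · rw [if_pos h]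
        exact zero_le_one.trans (one_le_sz1 _ _ _)
      · rw [if_neg h]
    have p2 : (0 : ℝ) ≤ if (ExT j r (fam1 δ) () ∨ ExB j r (fam1 δ) ()) ∧ Win k B n δ then 1 else 0 := by
      by_cases h : (ExT j r (fam1 δ) () ∨ ExB j r (fam1 δ) ()) ∧ Win k B n δ
      · rw [if_pos h]
        norm_num
      · rw [if_neg h]
    by_cases h : Win k R n δ ∧ Ex j r (fam1 δ) ()
    · rw [if_pos h]
      have hw := win_mono hRB h.1
      by_cases h2 : ExR j r (fam1 δ) () ∨ ExL j r (fam1 δ) ()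
      · rw [if_pos ⟨h2, hw⟩]
        have : 0 ≤ (3 + 2 * c0) * (if (ExT j r (fam1 δ) () ∨ ExB j r (fam1 δ) ()) ∧ Win k B n δ then (1 : ℝ) else 0) :=
          mul_nonneg (by positivity) p2
        linarith
      · have h3 : ExT j r (fam1 δ) () ∨ ExB j r (fam1 δ) () := by
          rcases h.2 with h4 | h4 | h4 | h4
          · exact absurd (Or.inl h4) h2
          · exact absurd (Or.inr h4) h2
          · exact Or.inl h4
          · exact Or.inr h4
        have h4 : (if (ExT j r (fam1 δ) () ∨ ExB j r (fam1 δ) ()) ∧ Win k B n δ then (1 : ℝ) else 0) = 1 := if_pos ⟨h3, hw⟩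
        rw [h4, mul_one]
        have hu : Us1 j r δ := by
          rcases h3 with h4 | h4 <;> exact h4.1
        have := sz_str (t := t) hu (fun h => h2 (Or.inl h)) (fun h => h2 (Or.inr h)) (hct j t δ l)
        linarith
    · rw [if_neg h]
      exact add_nonneg p1 (mul_nonneg (by positivity) p2)
  refine h1.trans ?_
  rw [A1_add, A1_mul]
  have h2 := mul_le_mul_of_nonneg_left htp (show 0 ≤ 3 + 2 * c0 by positivity)
  calc _ ≤ Cs / (n : ℝ) ^ 2 + (3 + 2 * c0) * (Ct / (n : ℝ) ^ 2) := add_le_add hs h2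
    _ = _ := by ring

variable {T P : Type} [Fintype T]

/-- one strip: the telescope of the rows for `chi0` -/
theorem strip {N : ℕ} {k j B R n D : ℤ} {G : T → (Fin 4 → ℝ) → ℝ} {x : P → Pt} {πT : T → Bool} {πP : P → Bool}
    (hn : 5 ≤ n) (hl : ∀ γ, Sp2 (fG N G) γ → Loc G N k R n D (ht γ)) {e : ℤ → ℝ} {E1 E2 : ℝ} (hk : k ≤ j) (hB : 0 ≤ B)
    (h1 : -B ≤ j) (h2 : j + 1 ≤ B)
    (he : ∀ r, |r| ≤ B → |SX k j (r + 1) B (fun γ => chi πT πP x (Wn N G) j γ * gA (JT T) (fG N G) j (r + 1) γ) -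
      SX k j r B (fun γ => chi πT πP x (Wn N G) j γ * gA (JT T) (fG N G) j r γ)| ≤ e r)
    (hE1 : |SX k j (B + 1) B (cx fun γ => chi πT πP x (Wn N G) j γ * gA (JT T) (fG N G) j (B + 1) γ)| ≤ E1)
    (hE2 : |SX k j (-B) B (cx fun γ => chi πT πP x (Wn N G) j γ * gA (JT T) (fG N G) j (-B) γ)| ≤ E2) :
    |SE k (j + 1) B (fun γ => chi0 πT πP x γ * gA (JT T) (fG N G) (j + 1) (B + 1) γ) -
      SE k j B (fun γ => chi0 πT πP x γ * gA (JT T) (fG N G) j (B + 1) γ)| ≤ (∑ r ∈ Finset.Icc (-B) B, e r) + E1 + E2 := by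
  have key : ∀ j', SE k j' B (fun γ => chi0 πT πP x γ * gA (JT T) (fG N G) j' (B + 1) γ) =
      SE k j' B (fun γ => chi πT πP x (Wn N G) j γ * gA (JT T) (fG N G) j' (B + 1) γ) := by
    intro j'
    refine SE_congr' fun γ fm h0 => ?_
    by_cases hg : gA (JT T) (fG N G) j' (B + 1) γ = 0
    · rw [hg, mul_zero, mul_zero]
    · have L := hl γ (gA_sp hg)
      rw [chi_eq fm h0 (fun i => by have := (L.wd i).1; omega) L.wn]
  rw [key, key]
  have := tel_rows (χ := chi πT πP x (Wn N G) j) hk hB h1 h2 he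
  linarith

open Classical in
/-- the two sums of one row -/
theorem row_all {N : ℕ} {k j r B R n D : ℤ} {G : T → (Fin 4 → ℝ) → ℝ} {χ : FX (Option T) → ℝ} {f : Hf (Option T)}
    {C C6 δ1 δ2 CS ε' C1 CM : ℝ} (hC : 0 ≤ C) (h1 : 0 ≤ δ1) (h2 : 0 ≤ δ2) (h60 : 0 ≤ C6) (hCM1 : 1 ≤ CM) (hn : 1 ≤ n)
    (hCS : 0 ≤ CS) (hε : 0 ≤ ε') (hC1 : 0 ≤ C1)
    (hl : ∀ γ, Sp2 f γ → Loc G N k R n D (ht γ))
    (hs : ∀ t γ, Fam (gX j t) γ → Sp2 f γ → χ γ ≠ 0 → Sepd j D R (co γ none))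
    (h6 : ∀ t, ∀ g : Option T → (VX →₀ Cell) → ℝ, (∀ i δ, 0 ≤ g i δ) →
      AX k j t B (fun γ => ∏ i, g i (co γ i)) ≤ C6 * ∏ i, A1 k j t B (g i))
    (aS : ∀ t, (t = r ∨ t = r + 1) → A1 k j t B (fun δ => if Sepd j D R δ then 1 else 0) ≤ CS)
    (aN : ∀ t, (t = r ∨ t = r + 1) → A1 k j t B (fun δ => if Big D δ ∧ Us1 j r δ then 1 else 0) ≤ ε')
    (aE : ∀ t, (t = r ∨ t = r + 1) → |j| ≤ R → |r| ≤ R →
      A1 k j t B (fun δ => if Win k R n δ ∧ Ex j r (fam1 δ) () then sz1 j t δ else 0) ≤ C1)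
    (aM : ∀ t, (t = r ∨ t = r + 1) → A1 k j t B (fun δ => if Win k R n δ then sz1 j t δ else 0) ≤ CM) :
    ∑ t ∈ ({r + 1, r} : Finset ℤ), AX k j t B (fun γ => if χ γ ≠ 0 ∧ Sp2 f γ ∧ ∃ i ∈ JT T, Ex j r γ i then
      C * (δ2 + if BadX (JT T) j r γ then δ1 else 0) * szA (JT T) j t γ else 0) ≤
      if |j| ≤ R ∧ |r| ≤ R then 2 * (Fintype.card T * (C * C6 * (δ2 * CS + δ1 * ε') * (C1 * CM ^ Fintype.card T))) else 0 := by
  rw [Finset.sum_pair (by omega)]
  by_cases hw : |j| ≤ R ∧ |r| ≤ R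
  · rw [if_pos hw]
    have a := fun t ht => row_bd (t := t) hC h1 h2 h60 hCM1 ht hn hl (hs t) (h6 t) (aS t ht) (aN t ht) (aE t ht hw.1 hw.2)
      (aM t ht)
    have b1 := a (r + 1) (Or.inr rfl)
    have b2 := a r (Or.inl rfl)
    linarith
  · rw [if_neg hw, row_zero (Or.inr rfl) hl hw, row_zero (Or.inl rfl) hl hw, add_zero]

/-- **the middle assembly** -/
theorem incA (T P : Type) [Fintype T] (hRow : RowErr (Option T)) (hS : MassS) (hNr : NearG) (hMc : MassC) (hSd : SideB)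
    (hTp : TopB) (hE : EndG) (hnear : U.NearM LatJ) (hct : CTB) : IncA T P := by
  classical
  intro πT πP K δ Λ κ d ε hnt hδ hκ hd hε
  obtain ⟨C, hC0, hrow⟩ := hRow
  obtain ⟨C6, hC60, h6⟩ := prod6 (Option T)
  obtain ⟨c0', hct⟩ := hct
  set c0 := max c0' 0 with hc0d
  have hc0 : 0 ≤ c0 := le_max_right _ _
  obtain ⟨Cs, hCs, hside⟩ := hSd
  obtain ⟨Ct, hCt, htop⟩ := hTp
  set K' : ℝ := |K| + 2 with hK'
  have hK'0 : 0 < K' := by positivity
  set d' : ℝ := min d κ / 2 with hd'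
  have hd'0 : 0 < d' := by
    have : 0 < min d κ := lt_min hd hκ
    positivity
  have hη : 0 < δ / 2 := by positivity
  obtain ⟨CS', NS, hmS⟩ := hS d' K' hd'0 hK'0
  obtain ⟨CM', NM, hmM⟩ := hMc (δ / 2) K' hη hK'0
  set CS := max CS' 0 with hCS
  have hCS0 : 0 ≤ CS := le_max_right _ _
  set CM := max CM' 1 with hCM
  have hCM1 : 1 ≤ CM := le_max_right _ _
  set C1 := Cs + (3 + 2 * c0) * Ct with hC1
  have hC10 : 0 ≤ C1 := by positivity
  set LLc := LL T Λ with hLLc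
  have hLL1 : 1 ≤ LLc := one_le_LL
  set Q : ℝ := 2 * (12 * K' / δ) ^ 2 * (Fintype.card T * (C * C6 * (C1 * CM ^ Fintype.card T))) with hQ
  have hQ0 : 0 ≤ Q := by positivity
  set ε' : ℝ := ε / (4 * (Q * LLc + 1)) with hε'
  have hQL : 0 < Q * LLc + 1 := by positivity
  have hε'0 : 0 < ε' := by positivity
  obtain ⟨NN, hmN⟩ := hNr ε' hε'0
  -- the size
  obtain ⟨N0, hN0⟩ : ∃ N0 : ℕ, ∀ N : ℕ, N0 ≤ N → 100 ≤ (N : ℝ) ∧ NS ≤ (N : ℤ) ∧ NM ≤ (N : ℤ) ∧ ((NN : ℝ) + 1) / d' ≤ N ∧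
      400 / δ ≤ N ∧ 100 / d' ≤ N ∧ 100 / κ ≤ N ∧ 100 / d ≤ N ∧ 4 * (Q * LLc * CS) / ε ≤ N ∧ 1 / K' ≤ N := by
    obtain ⟨N0, h0⟩ := exists_nat_ge (max (max (max (max 100 (NS : ℝ)) (max (NM : ℝ) (((NN : ℝ) + 1) / d')))
      (max (max (400 / δ) (100 / d')) (max (100 / κ) (100 / d)))) (max (4 * (Q * LLc * CS) / ε) (1 / K')))
    refine ⟨N0, fun N hN => ?_⟩
    have h1 : (N0 : ℝ) ≤ N := by exact_mod_cast hN
    have h2 := h0.trans h1
    simp only [max_le_iff] at h2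
    obtain ⟨⟨⟨⟨a1, a2⟩, a3, a4⟩, ⟨a5, a6⟩, a7, a8⟩, a9, a10⟩ := h2
    exact ⟨a1, by exact_mod_cast a2, by exact_mod_cast a3, a4, a5, a6, a7, a8, a9, a10⟩
  refine ⟨N0, fun N hN k G x ha j1 hk1 => ?_⟩
  obtain ⟨n1, n2, n3, n4, n5, n6, n7, n8, n9, n10⟩ := hN0 N hN
  have hNp : (0 : ℝ) < N := by linarith
  have hZ : (((N : ℤ) : ℤ) : ℝ) = (N : ℝ) := Int.cast_natCast N
  set R : ℤ := ⌊K' * (((N : ℤ) : ℤ) : ℝ)⌋ with hR
  set n : ℤ := ⌊δ / 2 * (((N : ℤ) : ℤ) : ℝ)⌋ with hnn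
  set D : ℤ := ⌊d' * (((N : ℤ) : ℤ) : ℝ)⌋ with hD
  have r1 : (R : ℝ) ≤ K' * N := by rw [hR, hZ]; exact Int.floor_le _
  have r2 : K' * N < R + 1 := by rw [hR, hZ]; exact Int.lt_floor_add_one _
  have e1 : (n : ℝ) ≤ δ / 2 * N := by rw [hnn, hZ]; exact Int.floor_le _
  have e2 : δ / 2 * N < n + 1 := by rw [hnn, hZ]; exact Int.lt_floor_add_one _
  have g1 : (D : ℝ) ≤ d' * N := by rw [hD, hZ]; exact Int.floor_le _
  have g2 : d' * N < D + 1 := by rw [hD, hZ]; exact Int.lt_floor_add_one _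
  have m5 : 400 ≤ δ * N := by rw [div_le_iff₀ hδ] at n5; linarith
  have m6 : 100 ≤ d' * N := by rw [div_le_iff₀ hd'0] at n6; linarith
  have m7 : 100 ≤ κ * N := by rw [div_le_iff₀ hκ] at n7; linarith
  have m8 : 100 ≤ d * N := by rw [div_le_iff₀ hd] at n8; linarith
  have m4 : (NN : ℝ) + 1 ≤ d' * N := by rw [div_le_iff₀ hd'0] at n4; linarith
  have m10 : 1 ≤ K' * N := by rw [div_le_iff₀ hK'0] at n10; linarith
  have dd1 : d' * N ≤ d * N / 2 := by
    have : d' ≤ d / 2 := by rw [hd']; have := min_le_left d κ; linarith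
    have := mul_le_mul_of_nonneg_right this hNp.le
    linarith
  have dd2 : d' * N ≤ κ * N / 2 := by
    have : d' ≤ κ / 2 := by rw [hd']; have := min_le_right d κ; linarith
    have := mul_le_mul_of_nonneg_right this hNp.le
    linarith
  have hKK : K * N ≤ |K| * N := mul_le_mul_of_nonneg_right (le_abs_self K) hNp.le
  have hKN : K' * N = |K| * N + 2 * N := by rw [hK']; ring
  have hR50 : K * N + 50 ≤ R := by linarith
  have hn100 : (100 : ℤ) ≤ n := by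
    have : (99 : ℝ) < n := by linarith
    have : (99 : ℤ) < n := by exact_mod_cast this
    omega
  have hNN : NN ≤ D := by
    have : (NN : ℝ) < D + 1 := by linarith
    have : NN < D + 1 := by exact_mod_cast this
    omega
  have hR0 : 0 ≤ R := by
    have : (-1 : ℝ) < R := by linarith
    have : (-1 : ℤ) < R := by exact_mod_cast this
    omega
  have hloc : ∀ γ, Sp2 (fG N G) γ → Loc G N k R n D (ht γ) := fun γ h =>
    loc_of ha n1 hR50 (by linarith) (by linarith) (by linarith) (by linarith) (by linarith) h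
  have hsep : ∀ j, k ≤ j → ∀ t γ, Fam (gX j t) γ → Sp2 (fG N G) γ → chi πT πP x (Wn N G) j γ ≠ 0 → Sepd j D R (co γ none) :=
    fun j hj t γ fm hsp hχ => sepd_of ha hNp (by linarith) (by omega) (by linarith) (by linarith) fm (hloc γ hsp)
      (fun l => (ha.pt l).1.trans hj) hnt hχ
  -- differences
  have hf1 : Df1 (fG N G) (LLc / N) := df1 ha.tf
  have hf2 : Df2 (fG N G) (LLc / N ^ 2) := df2 ha.tf
  have hδ1 : 0 ≤ LLc / N := by positivity
  have hδ2 : 0 ≤ LLc / (N : ℝ) ^ 2 := by positivity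
  set V : ℝ := 2 * (Fintype.card T * (C * C6 * (LLc / N ^ 2 * CS + LLc / N * ε') * (C1 / (n : ℝ) ^ 2 * CM ^ Fintype.card T))) with hV
  have hn0 : (0 : ℝ) < n := by
    have : (0 : ℤ) < n := by omega
    exact_mod_cast this
  have hV0 : 0 ≤ V := by positivity
  -- the main term
  have hmain : (2 * (R : ℝ) + 1) ^ 2 * V ≤ ε / (2 * N) := by
    have s1 : 2 * (R : ℝ) + 1 ≤ 3 * (K' * N) := by linarith
    have s2 : δ / 4 * N ≤ n := by linarith
    have s3 : (2 * (R : ℝ) + 1) ^ 2 / (n : ℝ) ^ 2 ≤ (12 * K' / δ) ^ 2 := by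
      rw [← div_pow]
      refine pow_le_pow_left₀ (by positivity) ?_ 2
      rw [div_le_div_iff₀ hn0 hδ]
      calc (2 * (R : ℝ) + 1) * δ ≤ 3 * (K' * N) * δ := mul_le_mul_of_nonneg_right s1 hδ.le
        _ = 12 * K' * (δ / 4 * N) := by ring
        _ ≤ 12 * K' * n := mul_le_mul_of_nonneg_left s2 (by positivity)
    have s4 : (2 * (R : ℝ) + 1) ^ 2 * V = (2 * (R : ℝ) + 1) ^ 2 / (n : ℝ) ^ 2 *
        (2 * (Fintype.card T * (C * C6 * (C1 * CM ^ Fintype.card T)))) * (LLc / N ^ 2 * CS + LLc / N * ε') := by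
      rw [hV]
      field_simp
    have s5 : (2 * (R : ℝ) + 1) ^ 2 * V ≤ Q * (LLc / N ^ 2 * CS + LLc / N * ε') := by
      rw [s4]
      have h0 : 0 ≤ LLc / N ^ 2 * CS + LLc / N * ε' := by positivity
      refine mul_le_mul_of_nonneg_right ?_ h0
      have := mul_le_mul_of_nonneg_right s3 (show 0 ≤ 2 * (Fintype.card T * (C * C6 * (C1 * CM ^ Fintype.card T))) by positivity)
      refine this.trans (le_of_eq ?_)
      rw [hQ]
      ring
    refine s5.trans ?_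
    have s6 : Q * (LLc / N * ε') ≤ ε / (4 * N) := by
      have h0 : Q * LLc * ε' ≤ ε / 4 := by
        rw [hε', mul_div_assoc', div_le_div_iff₀ (by positivity) (by norm_num)]
        have e0 : Q * LLc * ε * 4 = ε * (4 * (Q * LLc + 1)) - 4 * ε := by ring
        rw [e0]
        linarith only [hε]
      have e0 : Q * (LLc / N * ε') = Q * LLc * ε' / N := by ring
      have e9 : ε / (4 * N) = ε / 4 / N := by rw [div_div]
      rw [e0, e9]
      exact div_le_div_of_nonneg_right h0 hNp.le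
    have s7 : Q * (LLc / N ^ 2 * CS) ≤ ε / (4 * N) := by
      have h0 : 4 * (Q * LLc * CS) ≤ N * ε := by rw [div_le_iff₀ hε] at n9; exact n9
      have e0 : Q * (LLc / N ^ 2 * CS) = Q * LLc * CS / N ^ 2 := by ring
      rw [e0, div_le_div_iff₀ (by positivity) (by positivity)]
      calc Q * LLc * CS * (4 * N) = 4 * (Q * LLc * CS) * N := by ring
        _ ≤ N * ε * N := mul_le_mul_of_nonneg_right h0 hNp.le
        _ = ε * N ^ 2 := by ring
    have e10 : ε / (2 * N) = ε / (4 * N) + ε / (4 * N) := by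
      field_simp
      ring
    rw [mul_add, e10]
    linarith
  -- the ends
  set E : ℝ := 2 * LLc * (1 + 2 * Fintype.card T) * (C6 * CM ^ Fintype.card T) with hEd
  have hE0 : 0 ≤ E := by positivity
  have hj1 : (0 : ℝ) ≤ (j1 - k : ℤ) := by
    have : (0 : ℤ) ≤ j1 - k := by omega
    exact_mod_cast this
  set ε2 : ℝ := ε / (2 * N) / (2 * ((j1 - k : ℤ) * E + 1)) with hε2
  have hε20 : 0 < ε2 := by positivity
  obtain ⟨M0, hM0⟩ := end_lim hE hnear hε20
  refine ⟨max (max (M0 + R) (2 * (2 * R + n))) (max (max (R + 2) (|k| + 1)) (max (|j1| + 1) 0)), fun B hB => ?_⟩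
  simp only [max_le_iff] at hB
  obtain ⟨⟨b1, b2⟩, ⟨b3, b4⟩, b5, b6⟩ := hB
  have bk := abs_le.1 (show |k| ≤ B by omega)
  have bj := abs_le.1 (show |j1| ≤ B by omega)
  have hend : ∀ j, k ≤ j → j < j1 → ∀ t, (t = B + 1 ∨ t = -B) →
      |SX k j t B (cx fun γ => chi πT πP x (Wn N G) j γ * gA (JT T) (fG N G) j t γ)| ≤ E * ε2 := by
    intro j hj hj' t ht
    have hMM := hM0 k j B (B - R) t (by omega) hj (by omega) (by omega) ht
    have hMt : A1 k j t B (fun δ => if Win k R n δ then sz1 j t δ else 0) ≤ CM := by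
      rcases ht with rfl | rfl
      · exact (hmM N k j B (B + 1) B n3 hj (abs_le.2 ⟨by omega, le_rfl⟩) (by omega) (by omega) (Or.inr rfl)).trans (le_max_left _ _)
      · exact (hmM N k j (-B) (-B) B n3 hj (abs_le.2 ⟨le_rfl, by omega⟩) (by omega) (by omega) (Or.inl rfl)).trans (le_max_left _ _)
    have := end_bd (L := LLc) (fun h => fG_bd (fun i => (ha.tf i).bd) h) (fun γ => chi_le γ) hC60.le ht (by omega) (by omega)
      hloc (hsep j hj t) (fun g hg => h6 k j t B g hj hg) hMM hMt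
    refine this.trans (le_of_eq ?_)
    rw [hEd]
    ring
  have hstrip : ∀ j, k ≤ j → j < j1 →
      |SE k (j + 1) B (fun γ => chi0 πT πP x γ * gA (JT T) (fG N G) (j + 1) (B + 1) γ) -
        SE k j B (fun γ => chi0 πT πP x γ * gA (JT T) (fG N G) j (B + 1) γ)| ≤
        (∑ r ∈ Finset.Icc (-B) B, if |j| ≤ R ∧ |r| ≤ R then V else 0) + E * ε2 + E * ε2 := by
    intro j hj hj'
    refine strip (by omega) hloc hj b6 (by omega) (by omega) (fun r hr => ?_) (hend j hj hj' _ (Or.inl rfl))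
      (hend j hj hj' _ (Or.inr rfl))
    refine (hrow k j r B (JT T) (fG N G) (chi πT πP x (Wn N G) j) (LLc / N) (LLc / N ^ 2) hj hr (by omega) (by omega) hf1 hf2
      onJ (wid ha.tf (by linarith)) (chi_cs (fun l => (ha.pt l).1.trans hj) r) (fun γ => chi_le γ)
      (chi_lar ha hNp (by linarith) (by linarith) (fun l => (ha.pt l).1.trans hj) hnt)).trans ?_
    refine row_all hC0.le hδ1 hδ2 hC60.le hCM1 (by omega) hCS0 hε'0.le (by positivity) hloc (hsep j hj)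
      (fun t g hg => h6 k j t B g hj hg) (fun t ht => ?_) (fun t ht => ?_) (fun t ht h3 h4 => ?_) (fun t ht => ?_)
    · exact (hmS N k j r t B n2 hj hr (by omega) (by omega) ht).trans (le_max_left _ _)
    · exact hmN D k j r t B hNN hj hr (by omega) (by omega) ht
    · refine ex_bd (fun j s δ l => ⟨((hct j s δ l).1).trans (le_max_left _ _), ((hct j s δ l).2).trans (le_max_left _ _)⟩) hc0
        (by omega) (hside k j r t B n hj hr (by omega) (by omega) ht hn100)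
        (htop k j r t B n hj hr (by omega) (by omega) ht hn100 (by omega))
    · exact (hmM N k j r t B n3 hj hr (by omega) (by omega) ht).trans (le_max_left _ _)
  have htel := tele_J (S := fun j => SE k j B (fun γ => chi0 πT πP x γ * gA (JT T) (fG N G) j (B + 1) γ)) hk1 hstrip
  refine htel.trans ?_
  rw [Finset.sum_add_distrib, Finset.sum_add_distrib, Finset.sum_const, nsmul_eq_mul, Int.card_Ico]
  have hcard : (((j1 - k).toNat : ℕ) : ℝ) = ((j1 - k : ℤ) : ℝ) := by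
    have : (((j1 - k).toNat : ℕ) : ℤ) = j1 - k := Int.toNat_of_nonneg (by omega)
    exact_mod_cast congrArg (fun z : ℤ => (z : ℝ)) this
  rw [hcard]
  have w1 := (win_card (S := Finset.Ico k j1) (S' := Finset.Icc (-B) B) hR0 hV0).trans hmain
  have w2 : ((j1 - k : ℤ) : ℝ) * (E * ε2) + ((j1 - k : ℤ) : ℝ) * (E * ε2) ≤ ε / (2 * N) := by
    have h0 : 0 ≤ ((j1 - k : ℤ) : ℝ) * E := mul_nonneg hj1 hE0
    have h1 : 2 * (((j1 - k : ℤ) : ℝ) * E) * ε2 ≤ ε / (2 * N) := by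
      have hp : 0 < ε / (2 * N) := by positivity
      rw [hε2, mul_div_assoc', div_le_iff₀ (by positivity)]
      have e0 : 2 * (((j1 - k : ℤ) : ℝ) * E) * (ε / (2 * N)) =
          ε / (2 * N) * (2 * (((j1 - k : ℤ) : ℝ) * E + 1)) - 2 * (ε / (2 * N)) := by ring
      rw [e0]
      linarith only [hp]
    linarith
  have e11 : ε / N = ε / (2 * N) + ε / (2 * N) := by
    field_simp
    ring
  rw [e11]
  linarith

end

end Pool.Agent.ROT.X
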