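import Pool.Agent.ROT.XDefs3
import Pool.Agent.ROT.UFlowDefs

/-!
# UNIV, exact side: the middle assembly, definitions (helper99)

Tracers `T` (finite), points `P`; members `Option T` (`none` = the large loop, `some i` = the tracers).

* `fG N G` : the product of the test functions of the tracers;
* `chi0` : the pattern on the square lattice; `chi j` : the pattern of the strip `j` (constant on its classes);
* `AdmX` : admissible data (as `U.WSys.Adm`);
* **`IncA T P`** : the increment in the box.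
-/

set_option autoImplicit false

namespace Pool.Agent.ROT.X

open Pool.Agent.ROT.E (Cell IsUn Pt)
open Pool.Agent.ROT.L
open Pool.Agent.ROT.U (Tf1)

noncomputable section

variable {T P : Type}

/-- the product of the test functions -/
def fG [Fintype T] (N : ℕ) (G : T → (Fin 4 → ℝ) → ℝ) : Hf (Option T) := fun h => ∏ i, G i fun u => (h (some i) u : ℝ) / N

/-- the tracers -/
def JT (T : Type) [Fintype T] : Finset (Option T) := Finset.univ.map Function.Embedding.some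

open Classical in
/-- **the pattern on the square lattice** -/
def chi0 (πT : T → Bool) (πP : P → Bool) (x : P → Pt) (γ : FX (Option T)) : ℝ :=
  if (∀ l, E.sg (dn (co γ none)) (x l).1 (x l).2 = 1 ↔ πP l = true) ∧
    ∀ i, (∃ h, E.oc (E.co (dn γ) (some i)) h ∧ E.sd (E.co (dn γ) none) h = 1) ↔ πT i = true then 1 else 0

/-- the lines of the support of a test function -/
def Wn (N : ℕ) (G : T → (Fin 4 → ℝ) → ℝ) (i : T) : Set ℤ := {p | ∃ y, G i y ≠ 0 ∧ y 0 * N - 3 ≤ p ∧ (p : ℝ) ≤ y 1 * N + 3}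

open Classical in
/-- **the pattern of the strip `j`** -/
def chi (πT : T → Bool) (πP : P → Bool) (x : P → Pt) (W : T → Set ℤ) (j : ℤ) (γ : FX (Option T)) : ℝ :=
  if (∀ l, sgx (co γ none) (x l).1 (x l).2 = 1 ↔ πP l = true) ∧ (∀ i, pf j γ none (some i) = 1 ↔ πT i = true) ∧
    ∀ i, lns j (co γ (some i)) ⊆ W i then 1 else 0

/-- at least two objects inside, at least one outside -/
def NTs (πT : T → Bool) (πP : P → Bool) : Prop :=
  (∃ a b, a ≠ b ∧ Sum.elim πT πP a = true ∧ Sum.elim πT πP b = true) ∧ ∃ a, Sum.elim πT πP a = false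

/-- **admissible data** -/
structure AdmX (N : ℕ) (K δ Λ κ d : ℝ) (k : ℤ) (G : T → (Fin 4 → ℝ) → ℝ) (x : P → Pt) : Prop where
  kk : |(k : ℝ)| ≤ K * N
  pt : ∀ i, (x i).1 ≤ k ∧ |((x i).1 : ℝ)| ≤ K * N ∧ |((x i).2 : ℝ)| ≤ K * N
  tf : ∀ i, Tf1 K δ Λ (G i)
  rt : ∀ i y, G i y ≠ 0 → k / N + κ ≤ y 0
  pp : ∀ i j, i ≠ j → d * N ≤ |((x i).1 : ℝ) - (x j).1|
  tt : ∀ i j, i ≠ j → ∀ y z, G i y ≠ 0 → G j z ≠ 0 → y 1 + d ≤ z 0 ∨ z 1 + d ≤ y 0

/-- **the increment in the box** (the boxes grow first, at fixed `j1`) -/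
def IncA (T P : Type) [Fintype T] : Prop := ∀ (πT : T → Bool) (πP : P → Bool) (K δ Λ κ d ε : ℝ), NTs πT πP → 0 < δ →
  0 < κ → 0 < d → 0 < ε → ∃ N0 : ℕ, ∀ N : ℕ, N0 ≤ N → ∀ (k : ℤ) (G : T → (Fin 4 → ℝ) → ℝ) (x : P → Pt),
  AdmX N K δ Λ κ d k G x → ∀ j1 : ℤ, k ≤ j1 → ∃ B0 : ℤ, ∀ B : ℤ, B0 ≤ B →
  |SE k j1 B (fun γ => chi0 πT πP x γ * gA (JT T) (fG N G) j1 (B + 1) γ) -
    SE k k B (fun γ => chi0 πT πP x γ * gA (JT T) (fG N G) k (B + 1) γ)| ≤ ε / N

/-- **the coefficients of top and bottom are bounded** (helper25) -/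
def CTB : Prop := ∃ C : ℝ, ∀ (j s : ℤ) (δ : VX →₀ Cell), Lp (gX j s) δ →
  |cT j s (fam1 δ) ()| ≤ C ∧ |cB j s (fam1 δ) ()| ≤ C

end

end Pool.Agent.ROT.X
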