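import Pool.Agent.ROT.XRow
import Pool.Agent.ROT.LApi
import Pool.Agent.ROT.EAlg

/-!
# UNIV, exact side (helper25): the crossing goes from below to above everything

`Vis s γ` = somebody visits one of the four cells at a crossing below the row `s`.

* `lp_congr`, `fam_congr` : two graphs which agree at the used half edges have the same families;
* `far_none`, `far_iff` : a crossing whose four cells are not visited is not visited, and the family is a family of the lattice;
* `WX_emb`, `WX_top`, `WX_bot` : the weights without crossing;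
* `WLu u j s` : the tables with the angle `u j` in the column `j` below the crossing and in the column `j + 1` above it;
* **`sum_top`**, **`sum_bot`** : the sums with a crossing far above / far below = the sums of the families of the lattice with the
  angles `u` / `sw j u`;
* **`sweep`** : the difference as the sum over the rows.
-/

set_option autoImplicit false

namespace Pool.Agent.ROT.X

open Pool.Agent.EXL (Wt YB)
open Pool.Agent.YBC (Dir)
open Pool.Agent.UNI (wR)
open Pool.Agent.ROT.E (Cell IsUn Pt wf)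
open Pool.Agent.ROT.L

noncomputable section

variable {I : Type} {j s : ℤ} {γ : FX I}

/-! ### graphs which agree at the used half edges -/

theorem lp_congr {V : Type} {G G' : Gr V} {γ : V →₀ Cell} (h : ∀ k, oc γ k → G.e k = G'.e k) (l : Lp G γ) : Lp G' γ where
  mt := by
    intro k _ _
    constructor
    · intro hk
      rw [← h k hk]
      exact (l.mt k trivial trivial).1 hk
    · intro hk
      have h1 := h _ hk
      rw [G'.inv] at h1
      have h2 := (l.mt (G'.e k) trivial trivial).1 hk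
      rwa [h1] at h2
  ne := l.ne
  cn := by
    intro a b ha hb
    have c := l.cn a b ha hb
    clear ha hb
    induction c with
    | rel x y hxy =>
      obtain ⟨h1, h2, h3⟩ := hxy
      refine .rel _ _ ⟨h1, h2, ?_⟩
      rcases h3 with h3 | ⟨h3, h4⟩
      · exact Or.inl h3
      · exact Or.inr ⟨by rw [h3, h x h1], trivial⟩
    | refl x => exact .refl x
    | symm x y _ ih => exact .symm _ _ ih
    | trans x y z _ _ ih1 ih2 => exact .trans _ _ _ ih1 ih2

theorem fam_congr {V : Type} {G G' : Gr V} {γ : V →₀ (I → Cell)} (h : ∀ i k, oc (co γ i) k → G.e k = G'.e k) :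
    Fam G γ ↔ Fam G' γ :=
  ⟨fun f => ⟨fun i => lp_congr (h i) (f.lp i), f.dj⟩,
    fun f => ⟨fun i => lp_congr (fun k hk => (h i k hk).symm) (f.lp i), f.dj⟩⟩

/-- the graph at a vertex which is not one of the four cells -/
theorem eX_off {v : Pt} (hv : v ∉ Bk j s) (d : Dir) : (gX j s).e (some v, d) = g0.e (some v, d) := by
  simp only [Bk, Set.mem_insert_iff, Set.mem_singleton_iff, not_or] at hv
  obtain ⟨h1, h2, h3, h4⟩ := hv
  show eX j s (some v, d) = e0 (some v, d)
  cases d <;> simp [eX, e0, h1, h2, h3, h4, Dir.op]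

/-- **a crossing whose four cells are not visited is not visited** -/
theorem far_none (f : Fam (gX j s) γ) (hv : ∀ v ∈ Bk j s, γ (some v) = 0) : γ none = 0 := by
  funext i
  show γ none i = Cell.o
  by_contra h
  have key : ∀ d : Dir, ¬ oc (co γ i) (none, d) := by
    intro d hd
    have h1 := ((f.lp i).mt (none, d) trivial trivial).1 hd
    obtain ⟨v, d', hv', he⟩ : ∃ v d', v ∈ Bk j s ∧ (gX j s).e (none, d) = (some v, d') := by
      cases d
      · exact ⟨_, _, by simp [Bk], rfl⟩
      · exact ⟨_, _, by simp [Bk], rfl⟩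
      · exact ⟨_, _, by simp [Bk], rfl⟩
      · exact ⟨_, _, by simp [Bk], rfl⟩
    rw [he] at h1
    have h2 : (γ (some v) i).oc d' := h1
    rw [hv v hv'] at h2
    exact h2 rfl
  have h3 : ∃ d : Dir, (γ none i).oc d := by
    revert h
    cases γ none i <;> intro h
    · exact absurd rfl h
    all_goals first
      | exact ⟨.E, by decide⟩
      | exact ⟨.W, by decide⟩
      | exact ⟨.N, by decide⟩
  obtain ⟨d, hd⟩ := h3
  exact key d hd

theorem far_iff (h0 : γ none = 0) (hv : ∀ v ∈ Bk j s, γ (some v) = 0) : Fam (gX j s) γ ↔ Fam g0 γ := by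
  refine fam_congr fun i k hk => ?_
  obtain ⟨_ | v, d⟩ := k
  · exfalso
    have h1 : (γ none i).oc d := hk
    rw [h0] at h1
    exact h1 rfl
  · refine eX_off (fun hb => ?_) d
    have h1 : (γ (some v) i).oc d := hk
    rw [hv v hb] at h1
    exact h1 rfl

/-! ### weights without crossing -/

theorem WX_emb (W : VX → Wt ℝ) (γ : E.Fm I) : WX W (emb γ) = γ.prod fun v f => wf (W (some v)) f := by
  classical
  unfold WX
  have h : (emb γ).support = γ.support.map Function.Embedding.some := Finsupp.support_embDomain _ _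
  rw [h, Finset.prod_map, Finsupp.prod]
  refine Finset.prod_congr rfl fun v _ => ?_
  show wfg (fun c => c.wt (W (some v))) (emb γ (some v)) = _
  rw [emb_some]
  rfl

theorem WX_M {W : VX → Wt ℝ} {u : ℤ → ℝ} {γ : E.Fm I} (h : ∀ v, γ v ≠ 0 → W (some v) = wR (u v.1)) :
    WX W (emb γ) = E.M u γ := by
  rw [WX_emb]
  exact Finset.prod_congr rfl fun v hv => by
    simp only
    rw [h v (Finsupp.mem_support_iff.1 hv)]

/-- **the tables**: the angle `u j` is in the column `j` below the crossing and in the column `j + 1` above it -/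
def WLu (u : ℤ → ℝ) (j s : ℤ) : VX → Wt ℝ :=
  WL (fun x => wR (u x)) j s (wR (u j - u (j + 1))) (wR (u j)) (wR (u (j + 1)))

theorem WLu_top {u : ℤ → ℝ} {v : Pt} (h : v.2 < s) : WLu u j s (some v) = wR (u v.1) := by
  simp only [WLu, WL]
  by_cases h1 : v.1 = j
  · rw [if_pos h1, if_pos h, h1]
  · rw [if_neg h1]
    by_cases h2 : v.1 = j + 1
    · rw [if_pos h2, if_pos h, h2]
    · rw [if_neg h2]

theorem WLu_bot {u : ℤ → ℝ} {v : Pt} (h : s ≤ v.2) : WLu u j s (some v) = wR (E.sw j u v.1) := by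
  simp only [WLu, WL, E.sw]
  by_cases h1 : v.1 = j
  · rw [if_pos h1, if_neg (by omega), if_pos h1]
  · rw [if_neg h1, if_neg h1]
    by_cases h2 : v.1 = j + 1
    · rw [if_pos h2, if_neg (by omega), if_pos h2]
    · rw [if_neg h2, if_neg h2]

theorem WX_top {u : ℤ → ℝ} {γ : E.Fm I} (h : ∀ v, γ v ≠ 0 → v.2 < s) : WX (WLu u j s) (emb γ) = E.M u γ :=
  WX_M fun v hv => WLu_top (h v hv)

theorem WX_bot {u : ℤ → ℝ} {γ : E.Fm I} (h : ∀ v, γ v ≠ 0 → s ≤ v.2) : WX (WLu u j s) (emb γ) = E.M (E.sw j u) γ :=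
  WX_M fun v hv => WLu_bot (h v hv)

/-- the tables differ in the region of the row only -/
theorem WLu_out {u : ℤ → ℝ} {r : ℤ} {v : VX} (hv : v ∉ Rg j r) : WLu u j (r + 1) v = WLu u j r v := WL_out hv

/-! ### the sums -/

open Classical in
/-- the sum with the crossing below the row `s` -/
def Sx (u : ℤ → ℝ) (j s : ℤ) (G : FX I → ℝ) : ℝ := ∑' γ : FX I, if Fam (gX j s) γ then WX (WLu u j s) γ * G γ else 0

open Classical in
private theorem sum_far {u u' : ℤ → ℝ} {G : FX I → ℝ} (hb : ∀ γ, G γ ≠ 0 → ∀ v ∈ Bk j s, γ (some v) = 0)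
    (hw : ∀ γ : E.Fm I, G (emb γ) ≠ 0 → WX (WLu u j s) (emb γ) = E.M u' γ) :
    Sx u j s G = ∑' γ : E.Fm I, if E.Fam γ then E.M u' γ * G (emb γ) else 0 := by
  have inj : Function.Injective (emb : E.Fm I → FX I) := fun _ _ h => emb_inj h
  unfold Sx
  rw [← inj.tsum_eq]
  · refine tsum_congr fun γ => ?_
    by_cases hG : G (emb γ) = 0
    · rw [hG, mul_zero, mul_zero, ite_self, ite_self]
    · have h1 : Fam (gX j s) (emb γ) ↔ E.Fam γ := (far_iff (emb_none γ) (hb _ hG)).trans (emb_fam γ)
      by_cases hf : E.Fam γ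
      · rw [if_pos hf, if_pos (h1.2 hf), hw γ hG]
      · rw [if_neg hf, if_neg fun h => hf (h1.1 h)]
  · intro γ hγ
    have h2 : (if Fam (gX j s) γ then WX (WLu u j s) γ * G γ else 0) ≠ 0 := hγ
    have h3 : Fam (gX j s) γ := by
      by_contra h
      exact h2 (if_neg h)
    rw [if_pos h3] at h2
    exact ⟨dn γ, emb_dn (far_none h3 (hb γ (right_ne_zero_of_mul h2)))⟩

/-- the support of the function is in the rows `[-K, K]` -/
def InR (K : ℤ) (G : FX I → ℝ) : Prop := ∀ γ, G γ ≠ 0 → ∀ v : Pt, γ (some v) ≠ 0 → |v.2| ≤ K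

open Classical in
/-- **the crossing is far above** -/
theorem sum_top {u : ℤ → ℝ} {K : ℤ} {G : FX I → ℝ} (hK : InR K G) (hs : K + 2 ≤ s) :
    Sx u j s G = ∑' γ : E.Fm I, if E.Fam γ then E.M u γ * G (emb γ) else 0 := by
  refine sum_far (fun γ hG v hv => ?_) fun γ hG => WX_top fun v hv => ?_
  · by_contra h
    have h1 := abs_le.1 (hK γ hG v h)
    simp only [Bk, Set.mem_insert_iff, Set.mem_singleton_iff] at hv
    rcases hv with rfl | rfl | rfl | rfl <;> simp only at h1 <;> omega
  · have h1 := abs_le.1 (hK _ hG v (by rw [emb_some]; exact hv))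
    omega

open Classical in
/-- **the crossing is far below** -/
theorem sum_bot {u : ℤ → ℝ} {K : ℤ} {G : FX I → ℝ} (hK : InR K G) (hs : s ≤ -K - 1) :
    Sx u j s G = ∑' γ : E.Fm I, if E.Fam γ then E.M (E.sw j u) γ * G (emb γ) else 0 := by
  refine sum_far (fun γ hG v hv => ?_) fun γ hG => WX_bot fun v hv => ?_
  · by_contra h
    have h1 := abs_le.1 (hK γ hG v h)
    simp only [Bk, Set.mem_insert_iff, Set.mem_singleton_iff] at hv
    rcases hv with rfl | rfl | rfl | rfl <;> simp only at h1 <;> omega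
  · have h1 := abs_le.1 (hK _ hG v (by rw [emb_some]; exact hv))
    omega

/-- the telescope -/
theorem tele (f : ℤ → ℝ) {a b : ℤ} (h : a ≤ b) : ∑ r ∈ Finset.Ico a b, (f (r + 1) - f r) = f b - f a := by
  induction b, h using Int.leInduction with
  | base => simp
  | succ n hn ih =>
    have e : Finset.Ico a (n + 1) = insert n (Finset.Ico a n) := by
      ext x
      simp only [Finset.mem_Ico, Finset.mem_insert]
      omega
    rw [e, Finset.sum_insert (by simp), ih]
    ring

open Classical in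
/-- **the sweep** -/
theorem sweep {u : ℤ → ℝ} {K : ℤ} {Gs : ℤ → FX I → ℝ} {G : E.Fm I → ℝ} (hK : 0 ≤ K) (hR : ∀ s, InR K (Gs s))
    (ht : ∀ γ, Gs (K + 2) (emb γ) = G γ) (hb : ∀ γ, Gs (-K - 1) (emb γ) = G γ) :
    (∑' γ : E.Fm I, if E.Fam γ then E.M u γ * G γ else 0) - (∑' γ : E.Fm I, if E.Fam γ then E.M (E.sw j u) γ * G γ else 0) =
      ∑ r ∈ Finset.Ico (-K - 1) (K + 2), (Sx u j (r + 1) (Gs (r + 1)) - Sx u j r (Gs r)) := by
  rw [tele (fun s => Sx u j s (Gs s)) (by omega), sum_top (hR _) le_rfl, sum_bot (hR _) le_rfl]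
  simp only [ht, hb]

/-- the Yang-Baxter equation of the tables -/
theorem yb_u {u : ℤ → ℝ} {j : ℤ} (h : -(Real.pi / 4) < u j - u (j + 1) ∧ u j - u (j + 1) < 5 * Real.pi / 8)
    (h1 : -(Real.pi / 4) < u j ∧ u j < 5 * Real.pi / 8) (h2 : -(Real.pi / 4) < u (j + 1) ∧ u (j + 1) < 5 * Real.pi / 8) :
    YB (wR (u j - u (j + 1))) (wR (u j)) (wR (u (j + 1))) := by
  have h3 := Pool.Agent.ROT.E.YB_wR (x := u j - u (j + 1)) (y := u (j + 1)) h h2 (by rwa [sub_add_cancel])
  rwa [sub_add_cancel] at h3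

open Classical in
/-- **no error at a row**: a function which is constant on the classes of the row `r` -/
theorem Sx_row {u : ℤ → ℝ} {r : ℤ} (yb : YB (wR (u j - u (j + 1))) (wR (u j)) (wR (u (j + 1)))) {G : FX I → ℝ}
    (fin : {γ | G γ ≠ 0}.Finite) (gd : ∀ γ, G γ ≠ 0 → Gd (Rg j r) γ)
    (cst : ∀ (t t' : Fin 3) (γ γ' : FX I), t ≠ 0 → t' ≠ 0 → Eq6 (Rg j r) (Gt j r t) (Gt j r t') γ γ' → G γ = G γ') :
    Sx u j (r + 1) G = Sx u j r G :=
  row_WL yb (fun x => wR (u x)) fin gd cst

end

end Pool.Agent.ROT.X
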