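import Pool.Agent.ROT.XEndG
import Pool.Agent.ROT.XSweep

/-!
# UNIV, exact side, row XLim (helper60): the boxes, the last strip

* `FE u G` : the sum over the families of the square lattice with the angles `u`; `Vb R C G` : `|G| ≤ C`, every member visits the
  box `R` (on the families of the square lattice);
* `M_le`, `fam_sum` : a sum over families against the masses of the members; `vis_mass`, `vis_tail` : the masses from `NearM LatJ`;
* `FE_sum` : summability; **`SE_lim`** : `SE k j B G` goes to `FE (latj k j) G` for `B → ∞`;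
* **`FE_lim`** : `FE (latj k j) G` goes to `FE (lat bA k) G` for `j → ∞`; `latj_kk` : `latj k k = lat bA (k + 1)`;
* **`xlim`**, **`xlimG`** : the difference of the two lattices.
-/

set_option autoImplicit false

namespace Pool.Agent.ROT.X

open MeasureTheory Filter Topology
open Pool.Agent.EXL (Wt)
open Pool.Agent.YBC (Dir)
open Pool.Agent.UNI (wR wR_nn)
open Pool.Agent.ROT.E (Cell IsUn Pt Cfg)
open Pool.Agent.ROT.L
open Pool.Agent.ROT.I (Lps)
open scoped ENNReal

noncomputable section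

variable {I : Type} {u : ℤ → ℝ} {k j B R : ℤ} {C : ℝ}

/-! ### the lattices -/

theorem latj_kk (k : ℤ) : latj k k = U.lat bA (k + 1) := by
  funext c
  show (if c < k ∨ c = k then bA else hA) = if c < k + 1 then bA else Real.pi / 8
  split_ifs with h1 h2 h3
  · rfl
  · omega
  · omega
  · rfl

theorem lat_LatJ (k : ℤ) : U.lat bA k ∈ LatJ :=
  ⟨k - 1, k - 1, le_rfl, by rw [latj_kk, sub_add_cancel]⟩

theorem latj_LatJ (h : k ≤ j) : latj k j ∈ LatJ := ⟨k, j, h, rfl⟩

theorem LatJ_val (hu : u ∈ LatJ) (c : ℤ) : u c = bA ∨ u c = hA := by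
  obtain ⟨k, j, -, rfl⟩ := hu
  unfold latj
  split_ifs
  · exact Or.inl rfl
  · exact Or.inr rfl

theorem LatJ_nn (hu : u ∈ LatJ) (c : ℤ) : (wR (u c)).Nn := by
  have hp := Real.pi_pos
  rcases LatJ_val hu c with h | h
  · rw [h]
    exact wR_nn (by unfold bA; linarith) (by unfold bA; linarith)
  · rw [h]
    exact wR_nn (by unfold hA; linarith) (by unfold hA; linarith)

theorem LatJ_dom (hu : u ∈ LatJ) (c : ℤ) : Dom (wR (u c)) 1 := by
  rcases LatJ_val hu c with h | h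
  · rw [h]
    exact dom_b
  · rw [h]
    exact dom_h

theorem MU_nonneg (hu : u ∈ LatJ) (γ : Cfg) : 0 ≤ U.MU u γ := by
  refine Finset.prod_nonneg fun v _ => ?_
  have h := LatJ_nn hu v.1
  simp only
  cases γ v <;> simp only [Cell.wt] <;>
    first | exact zero_le_one | exact h.v | exact h.u1 | exact h.u2 | exact h.w1 | exact h.w2

/-- a bound of the weights of one cell -/
private def mx : ℝ := 1 + ∑ c : Cell, (|c.wt (wR bA)| + |c.wt (wR hA)|)

private theorem mx_one : 1 ≤ mx := by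
  have : 0 ≤ ∑ c : Cell, (|c.wt (wR bA)| + |c.wt (wR hA)|) := Finset.sum_nonneg fun c _ => by positivity
  unfold mx
  linarith

private theorem wt_mx (hu : u ∈ LatJ) (c : ℤ) (a : Cell) : |a.wt (wR (u c))| ≤ mx := by
  have h1 : |a.wt (wR bA)| + |a.wt (wR hA)| ≤ ∑ c : Cell, (|c.wt (wR bA)| + |c.wt (wR hA)|) :=
    Finset.single_le_sum (f := fun c : Cell => |c.wt (wR bA)| + |c.wt (wR hA)|) (fun c _ => by positivity) (Finset.mem_univ a)
  have h2 := abs_nonneg (a.wt (wR bA))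
  have h3 := abs_nonneg (a.wt (wR hA))
  unfold mx
  rcases LatJ_val hu c with h | h <;> rw [h] <;> linarith

private theorem MU_mx (hu : u ∈ LatJ) (γ : Cfg) : U.MU u γ ≤ mx ^ γ.support.card := by
  refine (le_abs_self _).trans ?_
  rw [U.MU, Finsupp.prod, Finset.abs_prod]
  refine (Finset.prod_le_prod (fun _ _ => abs_nonneg _) fun v _ => wt_mx hu v.1 _).trans (le_of_eq ?_)
  rw [Finset.prod_const]

/-! ### the masses -/

private theorem muU_ap (u : ℤ → ℝ) (A : Set Lps) :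
    U.muU u A = ∑' γ : Lps, A.indicator (fun γ : Lps => ENNReal.ofReal (U.MU u γ.1)) γ := by
  unfold U.muU
  rw [Measure.sum_apply _ (MeasurableSpace.measurableSet_top)]
  refine tsum_congr fun γ => ?_
  rw [Measure.smul_apply, Measure.dirac_apply' _ (MeasurableSpace.measurableSet_top), smul_eq_mul]
  by_cases h : γ ∈ A
  · rw [Set.indicator_of_mem h, Set.indicator_of_mem h, Pi.one_apply, mul_one]
  · rw [Set.indicator_of_notMem h, Set.indicator_of_notMem h, mul_zero]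

/-- finitely many loops in a box -/
theorem lps_fin (K : ℤ) : {γ : Lps | ∀ v, γ.1 v ≠ 0 → |v.1| ≤ K ∧ |v.2| ≤ K}.Finite := by
  refine Set.Finite.of_finite_image (f := fun γ : Lps => fun v : (Finset.Icc (-K) K ×ˢ Finset.Icc (-K) K : Finset Pt) => γ.1 v.1)
    (Set.toFinite _) ?_
  intro γ hγ γ' hγ' e
  refine Subtype.ext ?_
  ext1 v
  by_cases hv : v ∈ (Finset.Icc (-K) K ×ˢ Finset.Icc (-K) K : Finset Pt)
  · exact congrFun e ⟨v, hv⟩
  · have z : ∀ γ : Lps, (∀ v, γ.1 v ≠ 0 → |v.1| ≤ K ∧ |v.2| ≤ K) → γ.1 v = 0 := by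
      intro γ h
      by_contra hc
      obtain ⟨h1, h2⟩ := h v hc
      rw [abs_le] at h1 h2
      exact hv (by rw [Finset.mem_product, Finset.mem_Icc, Finset.mem_Icc]; exact ⟨h1, h2⟩)
    rw [z γ hγ, z γ' hγ']

private theorem fin_mass {A : Set Lps} (hA : A.Finite) : ∃ m : ℝ, 1 ≤ m ∧ ∀ u ∈ LatJ, U.muU u A ≤ ENNReal.ofReal m := by
  refine ⟨1 + ∑ γ ∈ hA.toFinset, mx ^ γ.1.support.card, ?_, fun u hu => ?_⟩
  · have : 0 ≤ ∑ γ ∈ hA.toFinset, mx ^ γ.1.support.card :=
      Finset.sum_nonneg fun γ _ => pow_nonneg (zero_le_one.trans mx_one) _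
    linarith
  · rw [muU_ap, tsum_eq_sum (s := hA.toFinset) fun γ hγ => Set.indicator_of_notMem
      (fun h => hγ ((Set.Finite.mem_toFinset _).2 h)) _]
    calc ∑ γ ∈ hA.toFinset, A.indicator (fun γ : Lps => ENNReal.ofReal (U.MU u γ.1)) γ
        ≤ ∑ γ ∈ hA.toFinset, ENNReal.ofReal (mx ^ γ.1.support.card) := by
          refine Finset.sum_le_sum fun γ hγ => ?_
          rw [Set.indicator_of_mem ((Set.Finite.mem_toFinset _).1 hγ)]
          exact ENNReal.ofReal_le_ofReal (MU_mx hu _)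
      _ = ENNReal.ofReal (∑ γ ∈ hA.toFinset, mx ^ γ.1.support.card) :=
          (ENNReal.ofReal_sum_of_nonneg fun γ _ => pow_nonneg (zero_le_one.trans mx_one) _).symm
      _ ≤ _ := ENNReal.ofReal_le_ofReal (by linarith)

/-- **the mass of the loops which visit a box** is bounded, uniformly over the lattices -/
theorem vis_mass (hn : U.NearM LatJ) (R : ℤ) : ∃ m : ℝ, 1 ≤ m ∧ ∀ u ∈ LatJ, U.muU u (U.Vis (0, 0) R) ≤ ENNReal.ofReal m := by
  obtain ⟨η, hη, N0, h⟩ := hn 1 one_pos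
  obtain ⟨N, hN⟩ : ∃ N : ℤ, N = max (max N0 0) ⌈(R : ℝ) / η⌉ := ⟨_, rfl⟩
  have h1 : N0 ≤ N := by rw [hN]; exact (le_max_left _ _).trans (le_max_left _ _)
  have h0 : 0 ≤ N := by rw [hN]; exact (le_max_right _ _).trans (le_max_left _ _)
  have h2 : (R : ℝ) ≤ η * N := by
    have h3 : (⌈(R : ℝ) / η⌉ : ℝ) ≤ N := by
      rw [hN]
      exact_mod_cast le_max_right _ _
    have h4 := (Int.le_ceil ((R : ℝ) / η)).trans h3
    rwa [div_le_iff₀ hη, mul_comm] at h4
  obtain ⟨m, hm1, hm⟩ := fin_mass (lps_fin (|R| + N))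
  refine ⟨1 + m, by linarith, fun u hu => ?_⟩
  have sub : U.Vis (0, 0) R ⊆ (U.Vis (0, 0) R ∩ U.Ext N) ∪ {γ : Lps | ∀ v, γ.1 v ≠ 0 → |v.1| ≤ |R| + N ∧ |v.2| ≤ |R| + N} := by
    rintro γ ⟨v, hv, hv1, hv2⟩
    by_cases he : γ ∈ U.Ext N
    · exact Or.inl ⟨⟨v, hv, hv1, hv2⟩, he⟩
    · right
      intro w hw
      have e1 : ¬ (N ≤ w.1 - v.1 ∨ N ≤ w.2 - v.2) := fun hc => he ⟨v, w, hv, hw, hc⟩
      have e2 : ¬ (N ≤ v.1 - w.1 ∨ N ≤ v.2 - w.2) := fun hc => he ⟨w, v, hw, hv, hc⟩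
      simp only [sub_zero] at hv1 hv2
      rw [abs_le] at hv1 hv2 ⊢
      rw [abs_le]
      have e3 := le_abs_self R
      omega
  refine (measure_mono sub).trans ((measure_union_le _ _).trans ?_)
  rw [ENNReal.ofReal_add zero_le_one (by linarith)]
  exact add_le_add (h u hu N h1 (0, 0) R h2) (hm u hu)

/-- the mass of those which reach a far column is small -/
theorem vis_tail (hn : U.NearM LatJ) (R : ℤ) {ε : ℝ} (hε : 0 < ε) : ∃ n0 : ℤ, ∀ u ∈ LatJ,
    U.muU u (U.Vis (0, 0) R ∩ U.GeC n0) ≤ ENNReal.ofReal ε := by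
  obtain ⟨η, hη, N0, h⟩ := hn ε hε
  obtain ⟨N, hN⟩ : ∃ N : ℤ, N = max N0 ⌈(R : ℝ) / η⌉ := ⟨_, rfl⟩
  have h1 : N0 ≤ N := by rw [hN]; exact le_max_left _ _
  have h2 : (R : ℝ) ≤ η * N := by
    have h3 : (⌈(R : ℝ) / η⌉ : ℝ) ≤ N := by
      rw [hN]
      exact_mod_cast le_max_right _ _
    have h4 := (Int.le_ceil ((R : ℝ) / η)).trans h3
    rwa [div_le_iff₀ hη, mul_comm] at h4
  refine ⟨N + R, fun u hu => (measure_mono ?_).trans (h u hu N h1 (0, 0) R h2)⟩
  rintro γ ⟨⟨v, hv, hv1, hv2⟩, w, hw, hw1⟩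
  refine ⟨⟨v, hv, hv1, hv2⟩, v, w, hv, hw, Or.inl ?_⟩
  simp only [sub_zero] at hv1
  rw [abs_le] at hv1
  omega

/-! ### products -/

open Classical in
/-- the weight of a loop of `S` -/
def vl (u : ℤ → ℝ) (S : Set Lps) (δ : Cfg) : ℝ := if ∃ l : E.Lp δ, (⟨δ, l⟩ : Lps) ∈ S then U.MU u δ else 0

theorem vl_nonneg (hu : u ∈ LatJ) (S : Set Lps) (δ : Cfg) : 0 ≤ vl u S δ := by
  unfold vl
  split_ifs
  · exact MU_nonneg hu δ
  · exact le_rfl

theorem vl_sum (hu : u ∈ LatJ) {S : Set Lps} (hS : U.muU u S ≠ ⊤) (t : Finset Cfg) : ∑ δ ∈ t, vl u S δ ≤ (U.muU u S).toReal := by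
  rw [← ENNReal.ofReal_le_iff_le_toReal hS, ENNReal.ofReal_sum_of_nonneg fun δ _ => vl_nonneg hu S δ]
  have sup : Function.support (fun δ : Cfg => ENNReal.ofReal (vl u S δ)) ⊆ Set.range (fun γ : Lps => γ.1) := by
    intro δ hδ
    by_cases hc : ∃ l : E.Lp δ, (⟨δ, l⟩ : Lps) ∈ S
    · obtain ⟨l, -⟩ := hc
      exact ⟨⟨δ, l⟩, rfl⟩
    · exfalso
      apply hδ
      show ENNReal.ofReal (vl u S δ) = 0
      rw [vl, if_neg hc, ENNReal.ofReal_zero]
  calc ∑ δ ∈ t, ENNReal.ofReal (vl u S δ) ≤ ∑' δ : Cfg, ENNReal.ofReal (vl u S δ) := ENNReal.sum_le_tsum _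
    _ = ∑' γ : Lps, ENNReal.ofReal (vl u S γ.1) := (Subtype.val_injective.tsum_eq sup).symm
    _ = U.muU u S := by
        rw [muU_ap]
        refine tsum_congr fun γ => ?_
        by_cases hγ : γ ∈ S
        · rw [Set.indicator_of_mem hγ, vl, if_pos ⟨γ.2, hγ⟩]
        · rw [Set.indicator_of_notMem hγ, vl, if_neg fun ⟨_, h⟩ => hγ h, ENNReal.ofReal_zero]

/-- **a family against its members** -/
theorem M_le [Fintype I] (hu : u ∈ LatJ) {γ : E.Fm I} (f : E.Fam γ) : |E.M u γ| ≤ ∏ i, U.MU u (E.co γ i) := by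
  classical
  set W : VX → Wt ℝ := fun v => v.elim (wR hA) fun p => wR (u p.1) with hW
  have e1 : WX W (emb γ) = E.M u γ := WX_M fun v _ => rfl
  have dj : ∀ v, ∃ c, IsUn (emb γ v) c := ((emb_fam γ).2 f).dj
  have h1 := WX_prod (W := W) (K := 1) dom_h (fun v => LatJ_dom hu v.1) dj
  rw [e1, one_mul] at h1
  refine h1.trans (le_of_eq (Finset.prod_congr rfl fun i _ => ?_))
  have e2 : WX W (mb (emb γ) i) = U.MU u (E.co γ i) := by
    have h : (emb γ).support = γ.support.map Function.Embedding.some := Finsupp.support_embDomain _ _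
    rw [WX_mb, h, Finset.prod_map, U.MU, Finsupp.prod_of_support_subset (E.co γ i) (s := γ.support)]
    · refine Finset.prod_congr rfl fun v _ => ?_
      show (emb γ (some v) i).wt (W (some v)) = _
      rw [emb_some]
      rfl
    · intro v hv
      rw [Finsupp.mem_support_iff] at hv ⊢
      intro h0
      apply hv
      show γ v i = 0
      rw [h0]
      rfl
    · intro v _
      rfl
  rw [e2, abs_of_nonneg (MU_nonneg hu _)]

open Classical in
/-- **a sum over families against the masses of the members** -/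
theorem fam_sum [Fintype I] (hu : u ∈ LatJ) {S : I → Set Lps} (hS : ∀ i, U.muU u (S i) ≠ ⊤) (s : Finset (E.Fm I)) :
    ∑ γ ∈ s, (if E.Fam γ ∧ ∀ i, ∃ l : E.Lp (E.co γ i), (⟨E.co γ i, l⟩ : Lps) ∈ S i then |E.M u γ| else 0) ≤
      ∏ i, (U.muU u (S i)).toReal := by
  set g : E.Fm I → (I → Cfg) := fun γ i => E.co γ i with hg
  have inj : Function.Injective g := by
    intro γ γ' h
    ext v i
    exact DFunLike.congr_fun (congrFun h i) v
  have nn : ∀ θ : I → Cfg, 0 ≤ ∏ i, vl u (S i) (θ i) := fun θ => Finset.prod_nonneg fun i _ => vl_nonneg hu _ _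
  calc ∑ γ ∈ s, (if E.Fam γ ∧ ∀ i, ∃ l : E.Lp (E.co γ i), (⟨E.co γ i, l⟩ : Lps) ∈ S i then |E.M u γ| else 0)
      ≤ ∑ γ ∈ s, ∏ i, vl u (S i) (g γ i) := by
        refine Finset.sum_le_sum fun γ _ => ?_
        by_cases h : E.Fam γ ∧ ∀ i, ∃ l : E.Lp (E.co γ i), (⟨E.co γ i, l⟩ : Lps) ∈ S i
        · rw [if_pos h]
          refine (M_le hu h.1).trans (le_of_eq (Finset.prod_congr rfl fun i _ => ?_))
          rw [vl, if_pos (h.2 i)]
        · rw [if_neg h]
          exact nn _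
    _ = ∑ θ ∈ s.image g, ∏ i, vl u (S i) (θ i) :=
        (Finset.sum_image (f := fun θ : I → Cfg => ∏ i, vl u (S i) (θ i)) fun γ _ γ' _ h => inj h).symm
    _ ≤ ∑ θ ∈ Fintype.piFinset fun i => s.image fun γ => E.co γ i, ∏ i, vl u (S i) (θ i) := by
        refine Finset.sum_le_sum_of_subset_of_nonneg ?_ fun θ _ _ => nn θ
        intro θ hθ
        obtain ⟨γ, hγ, rfl⟩ := Finset.mem_image.1 hθ
        rw [Fintype.mem_piFinset]
        exact fun i => Finset.mem_image.2 ⟨γ, hγ, rfl⟩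
    _ = ∏ i, ∑ δ ∈ s.image fun γ => E.co γ i, vl u (S i) δ := (Finset.prod_univ_sum _ _).symm
    _ ≤ ∏ i, (U.muU u (S i)).toReal :=
        Finset.prod_le_prod (fun i _ => Finset.sum_nonneg fun δ _ => vl_nonneg hu _ _) fun i _ => vl_sum hu (hS i) _

/-! ### sums over the families of the square lattice -/

open Classical in
/-- **the sum over the families of the lattice with the angles `u`** -/
def FE (u : ℤ → ℝ) (G : FX I → ℝ) : ℝ := ∑' γ : E.Fm I, if E.Fam γ then E.M u γ * G (emb γ) else 0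

/-- bounded, every member visits the box `R` (on the families of the square lattice) -/
structure Vb (R : ℤ) (C : ℝ) (G : FX I → ℝ) : Prop where
  nn : 0 ≤ C
  bd : ∀ γ : E.Fm I, E.Fam γ → |G (emb γ)| ≤ C
  vis : ∀ γ : E.Fm I, E.Fam γ → G (emb γ) ≠ 0 → ∀ i, ∃ p : Pt, γ p i ≠ .o ∧ |p.1| ≤ R ∧ |p.2| ≤ R

private theorem Vb.mem {G : FX I → ℝ} (h : Vb R C G) {γ : E.Fm I} (f : E.Fam γ) (h0 : G (emb γ) ≠ 0) (i : I) :
    (⟨E.co γ i, f.lp i⟩ : Lps) ∈ U.Vis (0, 0) R := by
  obtain ⟨p, hp, h1, h2⟩ := h.vis γ f h0 i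
  exact ⟨p, hp, by rw [sub_zero]; exact h1, by rw [sub_zero]; exact h2⟩

open Classical in
private theorem sum_le_mass [Fintype I] (hu : u ∈ LatJ) {G : FX I → ℝ} (h : Vb R C G) {n : ℕ} {S : Fin n → I → Set Lps} {m : ℝ}
    (hS : ∀ a i, U.muU u (S a i) ≠ ⊤) (hm : ∀ a, ∏ i, (U.muU u (S a i)).toReal ≤ m)
    (cov : ∀ γ : E.Fm I, ∀ f : E.Fam γ, G (emb γ) ≠ 0 → ∃ a, ∀ i, (⟨E.co γ i, f.lp i⟩ : Lps) ∈ S a i) (s : Finset (E.Fm I)) :
    ∑ γ ∈ s, ‖if E.Fam γ then E.M u γ * G (emb γ) else 0‖ ≤ C * (n * m) := by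
  have C0 : 0 ≤ C := h.nn
  calc ∑ γ ∈ s, ‖if E.Fam γ then E.M u γ * G (emb γ) else 0‖
      ≤ ∑ γ ∈ s, C * ∑ a : Fin n, (if E.Fam γ ∧ ∀ i, ∃ l : E.Lp (E.co γ i), (⟨E.co γ i, l⟩ : Lps) ∈ S a i then
          |E.M u γ| else 0) := by
        refine Finset.sum_le_sum fun γ _ => ?_
        have nn : ∀ a : Fin n, 0 ≤ (if E.Fam γ ∧ ∀ i, ∃ l : E.Lp (E.co γ i), (⟨E.co γ i, l⟩ : Lps) ∈ S a i then
          |E.M u γ| else 0) := fun a => by
          split_ifs
          · exact abs_nonneg _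
          · exact le_rfl
        have nn2 := mul_nonneg C0 (Finset.sum_nonneg fun (a : Fin n) (_ : a ∈ Finset.univ) => nn a)
        by_cases f : E.Fam γ
        · rw [if_pos f]
          by_cases h0 : G (emb γ) = 0
          · rw [h0, mul_zero, norm_zero]
            exact nn2
          · obtain ⟨a, ha⟩ := cov γ f h0
            rw [Real.norm_eq_abs, abs_mul, mul_comm]
            refine mul_le_mul (h.bd γ f) ?_ (abs_nonneg _) C0
            refine le_trans (le_of_eq ?_) (Finset.single_le_sum (fun a _ => nn a) (Finset.mem_univ a))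
            rw [if_pos ⟨f, fun i => ⟨f.lp i, ha i⟩⟩]
        · rw [if_neg f, norm_zero]
          exact nn2
    _ = C * ∑ a : Fin n, ∑ γ ∈ s, (if E.Fam γ ∧ ∀ i, ∃ l : E.Lp (E.co γ i), (⟨E.co γ i, l⟩ : Lps) ∈ S a i then
          |E.M u γ| else 0) := by rw [← Finset.mul_sum, Finset.sum_comm]
    _ ≤ C * ∑ a : Fin n, m := by
        refine mul_le_mul_of_nonneg_left (Finset.sum_le_sum fun a _ => ?_) C0
        exact (fam_sum hu (hS a) s).trans (hm a)
    _ = C * (n * m) := by rw [Finset.sum_const, Finset.card_univ, Fintype.card_fin, nsmul_eq_mul]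

private theorem ne_top {x : ℝ≥0∞} {m : ℝ} (h : x ≤ ENNReal.ofReal m) : x ≠ ⊤ := ne_top_of_le_ne_top ENNReal.ofReal_ne_top h

open Classical in
/-- **summability** -/
theorem FE_sum [Fintype I] (hn : U.NearM LatJ) {G : FX I → ℝ} (h : Vb R C G) (hu : u ∈ LatJ) :
    Summable fun γ : E.Fm I => if E.Fam γ then E.M u γ * G (emb γ) else 0 := by
  obtain ⟨m, hm1, hm⟩ := vis_mass hn R
  refine Summable.of_norm (summable_of_sum_le (fun _ => norm_nonneg _) (c := C * ((1 : ℕ) * m ^ Fintype.card I)) fun s => ?_)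
  refine sum_le_mass hu h (n := 1) (S := fun _ _ => U.Vis (0, 0) R) (fun _ _ => ne_top (hm u hu)) (fun _ => ?_)
    (fun γ f h0 => ⟨0, h.mem f h0⟩) s
  rw [Finset.prod_const, Finset.card_univ]
  exact pow_le_pow_left₀ ENNReal.toReal_nonneg (ENNReal.toReal_le_of_le_ofReal (zero_le_one.trans hm1) (hm u hu)) _

open Classical in
/-- **the families which reach a far column** -/
theorem FE_tail [Fintype I] (hn : U.NearM LatJ) (R : ℤ) (C : ℝ) {ε : ℝ} (hε : 0 < ε) : ∃ n0 : ℤ, ∀ u ∈ LatJ, ∀ G : FX I → ℝ,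
    Vb R C G → (∀ γ : E.Fm I, G (emb γ) ≠ 0 → ∃ i v, γ v i ≠ .o ∧ n0 ≤ v.1) → |FE u G| ≤ ε := by
  obtain ⟨m, hm1, hm⟩ := vis_mass hn R
  have m0 : 0 < m := zero_lt_one.trans_le hm1
  obtain ⟨c, hc⟩ : ∃ c : ℕ, c = Fintype.card I := ⟨_, rfl⟩
  obtain ⟨δ, hδ, hδ2⟩ : ∃ δ : ℝ, 0 < δ ∧ |C| * (c * (δ * m ^ c)) ≤ ε := by
    refine ⟨ε / ((|C| + 1) * ((c + 1) * m ^ c)), by positivity, ?_⟩
    have h1 : |C| * (c * (ε / ((|C| + 1) * ((c + 1) * m ^ c)) * m ^ c)) = ε * ((|C| / (|C| + 1)) * (c / (c + 1))) := by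
      field_simp
    rw [h1]
    have h2 : |C| / (|C| + 1) ≤ 1 := by
      rw [div_le_one (by positivity)]
      linarith
    have h3 : (c : ℝ) / (c + 1) ≤ 1 := by
      rw [div_le_one (by positivity)]
      linarith
    have h4 : |C| / (|C| + 1) * (c / (c + 1)) ≤ 1 := mul_le_one₀ h2 (by positivity) h3
    exact mul_le_of_le_one_right hε.le h4
  obtain ⟨n0, ht⟩ := vis_tail hn R hδ
  refine ⟨n0, fun u hu G h hf => ?_⟩
  have e : Fintype.card I = c := hc.symm
  obtain ⟨eq⟩ : Nonempty (Fin c ≃ I) := ⟨(finCongr hc).trans (Fintype.equivFin I).symm⟩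
  set S : Fin c → I → Set Lps := fun a i => if i = eq a then U.Vis (0, 0) R ∩ U.GeC n0 else U.Vis (0, 0) R with hS
  have key : ∀ s : Finset (E.Fm I), ∑ γ ∈ s, ‖if E.Fam γ then E.M u γ * G (emb γ) else 0‖ ≤ C * (c * (δ * m ^ c)) := by
    refine sum_le_mass hu h (S := S) (fun a i => ?_) (fun a => ?_) fun γ f h0 => ?_
    · simp only [hS]
      split_ifs
      · exact ne_top (ht u hu)
      · exact ne_top (hm u hu)
    · have h1 : ∀ i, (U.muU u (S a i)).toReal ≤ (if i = eq a then δ else 1) * m := by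
        intro i
        simp only [hS]
        split_ifs
        · refine (ENNReal.toReal_le_of_le_ofReal hδ.le (ht u hu)).trans ?_
          nlinarith
        · rw [one_mul]
          exact ENNReal.toReal_le_of_le_ofReal m0.le (hm u hu)
      refine (Finset.prod_le_prod (fun _ _ => ENNReal.toReal_nonneg) fun i _ => h1 i).trans (le_of_eq ?_)
      rw [Finset.prod_mul_distrib, Finset.prod_ite_eq' Finset.univ (eq a) fun _ => δ, if_pos (Finset.mem_univ _),
        Finset.prod_const, Finset.card_univ, e]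
    · obtain ⟨i, v, hv, hn0⟩ := hf γ h0
      refine ⟨eq.symm i, fun i' => ?_⟩
      simp only [hS, Equiv.apply_symm_apply]
      split_ifs with hi
      · refine ⟨h.mem f h0 i', v, ?_, hn0⟩
        rw [hi]
        exact hv
      · exact h.mem f h0 i'
  have C0 : 0 ≤ C := h.nn
  have sm := (FE_sum hn h hu).norm
  refine (norm_tsum_le_tsum_norm sm).trans ((sm.tsum_le_of_sum_le key).trans ?_)
  rwa [abs_of_nonneg C0] at hδ2

open Classical in
/-- the sum over the box on the square lattice -/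
theorem SE_FE (k j B : ℤ) (G : FX I → ℝ) : SE k j B G =
    ∑' γ : E.Fm I, if E.Fam γ ∧ Bx B (emb γ) then E.M (latj k j) γ * G (emb γ) else 0 := by
  have inj : Function.Injective (emb : E.Fm I → FX I) := fun _ _ h => emb_inj h
  unfold SE
  rw [← inj.tsum_eq]
  · refine tsum_congr fun γ => ?_
    by_cases hc : E.Fam γ ∧ Bx B (emb γ)
    · rw [if_pos hc, if_pos ⟨(emb_fam γ).2 hc.1, emb_none γ, hc.2⟩, WX_M (u := latj k j) fun v _ => rfl]
    · rw [if_neg hc, if_neg fun h => hc ⟨(emb_fam γ).1 h.1, h.2.2⟩]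
  · intro γ hγ
    by_contra hc
    apply hγ
    show (if Fam g0 γ ∧ γ none = 0 ∧ Bx B γ then WX (W0E k j) γ * G γ else 0) = 0
    exact if_neg fun h => hc ⟨dn γ, emb_dn h.2.1⟩

/-- every family is in a box -/
theorem ex_Bx (γ : FX I) : ∃ B0 : ℤ, ∀ B, B0 ≤ B → Bx B γ := by
  classical
  refine ⟨∑ v ∈ γ.support, (match v with | none => 0 | some p => |p.1| + |p.2|), fun B hB a b hv => ?_⟩
  have h1 : |a| + |b| ≤ ∑ v ∈ γ.support, (match v with | none => (0 : ℤ) | some p => |p.1| + |p.2|) :=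
    Finset.single_le_sum (f := fun v : VX => (match v with | none => (0 : ℤ) | some p => |p.1| + |p.2|))
      (fun v _ => by
        rcases v with _ | p
        · exact le_rfl
        · exact add_nonneg (abs_nonneg _) (abs_nonneg _)) (Finsupp.mem_support_iff.2 hv)
  have h2 := abs_nonneg a
  have h3 := abs_nonneg b
  omega

/-- **the box goes to the whole lattice** -/
theorem SE_lim [Fintype I] (hn : U.NearM LatJ) (hk : k ≤ j) {G : FX I → ℝ} (h : Vb R C G) :
    Tendsto (fun B : ℤ => SE k j B G) atTop (𝓝 (FE (latj k j) G)) := by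
  classical
  simp only [SE_FE]
  refine tendsto_tsum_of_dominated_convergence (FE_sum hn h (latj_LatJ hk)).norm (fun γ => ?_)
    (Eventually.of_forall fun B γ => ?_)
  · obtain ⟨B0, hB⟩ := ex_Bx (emb γ)
    refine tendsto_const_nhds.congr' ?_
    filter_upwards [eventually_ge_atTop B0] with B h1
    by_cases f : E.Fam γ
    · rw [if_pos f, if_pos ⟨f, hB B h1⟩]
    · rw [if_neg f, if_neg fun h => f h.1]
  · by_cases f : E.Fam γ
    · rw [if_pos f]
      split_ifs
      · exact le_rfl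
      · rw [norm_zero]
        exact norm_nonneg _
    · rw [if_neg f, if_neg fun h => f h.1]

/-- **the last strip goes to infinity** -/
theorem FE_lim [Fintype I] (hn : U.NearM LatJ) (k : ℤ) {G : FX I → ℝ} (h : Vb R C G) :
    Tendsto (fun j : ℤ => FE (latj k j) G) atTop (𝓝 (FE (U.lat bA k) G)) := by
  classical
  rw [Metric.tendsto_atTop]
  intro ε hε
  obtain ⟨n0, ht⟩ := FE_tail (I := I) hn R C (ε := ε / 3) (by positivity)
  refine ⟨max k n0, fun j hj => ?_⟩
  have hk : k ≤ j := (le_max_left _ _).trans hj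
  have hj0 : n0 ≤ j := (le_max_right _ _).trans hj
  set P : FX I → Prop := fun γ => ∃ i, ∃ v : Pt, γ (some v) i ≠ .o ∧ n0 ≤ v.1 with hP
  set G0 : FX I → ℝ := fun γ => if P γ then 0 else G γ with hG0
  set G1 : FX I → ℝ := fun γ => if P γ then G γ else 0 with hG1
  have C0 : 0 ≤ C := h.nn
  have v0 : Vb R C G0 := by
    refine ⟨C0, fun γ f => ?_, fun γ f h0 => ?_⟩
    · simp only [hG0]
      split_ifs
      · rw [abs_zero]; exact C0
      · exact h.bd γ f
    · refine h.vis γ f fun hz => h0 ?_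
      simp only [hG0, hz, ite_self]
  have v1 : Vb R C G1 := by
    refine ⟨C0, fun γ f => ?_, fun γ f h0 => ?_⟩
    · simp only [hG1]
      split_ifs
      · exact h.bd γ f
      · rw [abs_zero]; exact C0
    · refine h.vis γ f fun hz => h0 ?_
      simp only [hG1, hz, ite_self]
  have sp : ∀ u ∈ LatJ, FE u G = FE u G0 + FE u G1 := by
    intro u hu
    unfold FE
    rw [← (FE_sum hn v0 hu).tsum_add (FE_sum hn v1 hu)]
    refine tsum_congr fun γ => ?_
    by_cases f : E.Fam γ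
    · rw [if_pos f, if_pos f, if_pos f, ← mul_add]
      congr 1
      simp only [hG0, hG1]
      split_ifs
      · rw [zero_add]
      · rw [add_zero]
    · rw [if_neg f, if_neg f, if_neg f, add_zero]
  have tl : ∀ u ∈ LatJ, |FE u G1| ≤ ε / 3 := by
    intro u hu
    refine ht u hu G1 v1 fun γ h0 => ?_
    by_cases hp : P (emb γ)
    · obtain ⟨i, v, h1, h2⟩ := hp
      rw [emb_some] at h1
      exact ⟨i, v, h1, h2⟩
    · exact absurd (if_neg hp) h0
  have eq : FE (latj k j) G0 = FE (U.lat bA k) G0 := by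
    refine tsum_congr fun γ => ?_
    by_cases f : E.Fam γ
    · rw [if_pos f, if_pos f]
      by_cases hp : P (emb γ)
      · simp only [hG0, if_pos hp, mul_zero]
      · congr 1
        refine Finset.prod_congr rfl fun v hv => ?_
        have h1 : latj k j v.1 = U.lat bA k v.1 := by
          have h2 : v.1 < n0 := by
            by_contra hc
            apply hp
            rw [Finsupp.mem_support_iff] at hv
            obtain ⟨i, hi⟩ : ∃ i, γ v i ≠ .o := by
              by_contra hx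
              push Not at hx
              exact hv (funext hx)
            exact ⟨i, v, by rw [emb_some]; exact hi, not_lt.1 hc⟩
          show (if v.1 < k ∨ v.1 = j then bA else hA) = if v.1 < k then bA else Real.pi / 8
          by_cases h3 : v.1 < k
          · rw [if_pos (Or.inl h3), if_pos h3]
          · rw [if_neg (by omega), if_neg h3]
            rfl
        simp only
        rw [h1]
    · rw [if_neg f, if_neg f]
  have l1 := latj_LatJ hk
  have l2 := lat_LatJ k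
  rw [Real.dist_eq, sp _ l1, sp _ l2, eq, add_sub_add_left_eq_sub]
  have h1 := tl _ l1
  have h2 := tl _ l2
  have h3 := abs_sub (FE (latj k j) G1) (FE (U.lat bA k) G1)
  linarith

/-- **the difference of the two lattices** -/
theorem xlim [Fintype I] (hn : U.NearM LatJ) {k : ℤ} {e : ℝ} {gl gr : FX I → ℝ} (hL : Vb R C gl) (hR : Vb R C gr)
    (h : ∀ᶠ j : ℤ in atTop, ∀ᶠ B : ℤ in atTop, |SE k j B gr - SE k k B gl| ≤ e) :
    |FE (U.lat bA k) gr - FE (U.lat bA (k + 1)) gl| ≤ e := by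
  rw [← latj_kk]
  have h1 : ∀ᶠ j : ℤ in atTop, |FE (latj k j) gr - FE (latj k k) gl| ≤ e := by
    filter_upwards [h, eventually_ge_atTop k] with j hj hk
    exact le_of_tendsto ((SE_lim hn hk hR).sub (SE_lim hn le_rfl hL)).abs hj
  exact le_of_tendsto ((FE_lim hn k hR).sub_const _).abs h1

/-- the sums over the box depend on the families of the square lattice only -/
theorem SE_congrE {G G' : FX I → ℝ} (h : ∀ γ : E.Fm I, E.Fam γ → Bx B (emb γ) → G (emb γ) = G' (emb γ)) :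
    SE k j B G = SE k j B G' := by
  classical
  rw [SE_FE, SE_FE]
  refine tsum_congr fun γ => ?_
  by_cases hc : E.Fam γ ∧ Bx B (emb γ)
  · rw [if_pos hc, if_pos hc, h γ hc.1 hc.2]
  · rw [if_neg hc, if_neg hc]

/-- the same for functions which depend on the strip and the box -/
theorem xlimG [Fintype I] (hn : U.NearM LatJ) {k : ℤ} {e : ℝ} {gl gr : FX I → ℝ} {g : ℤ → ℤ → FX I → ℝ} (hL : Vb R C gl)
    (hR : Vb R C gr)
    (eR : ∀ᶠ j : ℤ in atTop, ∀ᶠ B : ℤ in atTop, ∀ γ : E.Fm I, E.Fam γ → Bx B (emb γ) → g j B (emb γ) = gr (emb γ))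
    (eL : ∀ᶠ B : ℤ in atTop, ∀ γ : E.Fm I, E.Fam γ → Bx B (emb γ) → g k B (emb γ) = gl (emb γ))
    (h : ∀ᶠ j : ℤ in atTop, ∀ᶠ B : ℤ in atTop, |SE k j B (g j B) - SE k k B (g k B)| ≤ e) :
    |FE (U.lat bA k) gr - FE (U.lat bA (k + 1)) gl| ≤ e := by
  refine xlim hn hL hR ?_
  filter_upwards [h, eR] with j h1 h2
  filter_upwards [h1, h2, eL] with B h3 h4 h5
  rwa [SE_congrE h4, SE_congrE h5] at h3

end

end Pool.Agent.ROT.X
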