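import Pool.Agent.ROT.XDefs3
import Pool.Agent.ROT.XProd6
import Pool.Agent.ROT.XEnds
import Pool.Agent.ROT.EAlg

/-!
# UNIV, exact side, row X7 (helper39), tools for `NearG` and `MassS`

* `ng_row` : a function which is constant on the classes of the row `r` and whose members leave the strip has the same sum with
  the crossing above and below the row; **`ng_up`**, **`ng_dn`** : the telescopes to the top (bottom) of the box;
* **`ng_se`** : the mass of an event of `E_j` in the box is at most its measure `muU (latj k j)`;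
* `ng_ax` : absolute sum = signed sum + 2 (mass of the crossings with two arcs `y`).
-/

set_option autoImplicit false

namespace Pool.Agent.ROT.X

open MeasureTheory
open Pool.Agent.EXL (Wt YB)
open Pool.Agent.YBC (Dir)
open Pool.Agent.UNI (wR)
open Pool.Agent.ROT.E (Cell IsUn Pt)
open Pool.Agent.ROT.L
open Pool.Agent.ROT.I (Lps)
open scoped ENNReal

noncomputable section

variable {I : Type} {k j r s B : ℤ}

/-! ### rows -/

theorem ng_yb : YB (wR dA) (wR bA) (wR hA) := by
  have hp := Real.pi_pos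
  have e : dA + hA = bA := by unfold dA hA bA; ring
  have h := Pool.Agent.ROT.E.YB_wR (x := dA) (y := hA) (by unfold dA; constructor <;> linarith) (by unfold hA; constructor <;> linarith)
    (by rw [e]; unfold bA; constructor <;> linarith)
  rwa [e] at h

theorem ng_bx (hr : |r| ≤ B) (h1 : -B ≤ j) (h2 : j + 1 ≤ B) {γ γ' : FX I} (out : ∀ v, v ∉ Rg j r → γ v = γ' v) (h : Bx B γ) :
    Bx B γ' := by
  intro a b hv
  by_cases hm : (some (a, b) : VX) ∈ Rg j r
  · simp only [Rg, Set.mem_insert_iff, Set.mem_singleton_iff, reduceCtorEq, Option.some.injEq, Prod.mk.injEq, false_or] at hm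
    rcases hm with ⟨rfl, rfl⟩ | ⟨rfl, rfl⟩
    · exact ⟨abs_le.2 ⟨h1, by omega⟩, hr⟩
    · exact ⟨abs_le.2 ⟨by omega, h2⟩, hr⟩
  · exact h a b (by rw [out _ hm]; exact hv)

/-- every member leaves the strip where `G` does not vanish -/
def NgOut (j : ℤ) (G : FX I → ℝ) : Prop := ∀ γ, G γ ≠ 0 → ∀ i, ∃ p : Pt, p.1 ≠ j ∧ p.1 ≠ j + 1 ∧ γ (some p) i ≠ .o

theorem ng_gd {G : FX I → ℝ} (h : NgOut j G) {γ : FX I} (hγ : G γ ≠ 0) : Gd (Rg j r) γ := by
  intro i
  obtain ⟨p, h1, h2, h3⟩ := h γ hγ i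
  refine ⟨some p, ?_, h3⟩
  obtain ⟨a, b⟩ := p
  simp only at h1 h2
  simp [Rg, h1, h2]

open Classical in
/-- **one row** -/
theorem ng_row [Finite I] {G : FX I → ℝ} (cst : Cs j r G) (ho : NgOut j G) (hr : |r| ≤ B) (h1 : -B ≤ j) (h2 : j + 1 ≤ B) :
    SX k j (r + 1) B G = SX k j r B G := by
  set G' : FX I → ℝ := fun γ => if Bx B γ then G γ else 0 with hG'
  have key := row_WL (j := j) (r := r) ng_yb (fun c => wR (latj k j c)) (G := G')
    ((bx_fin (I := I) B).subset fun γ h => by
      by_contra hc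
      exact h (if_neg hc))
    (fun γ h => ng_gd ho fun h0 => h (by
      show (if Bx B γ then G γ else 0) = 0
      rw [h0, ite_self]))
    (fun t t' γ γ' ht ht' e => by
      show (if Bx B γ then G γ else 0) = if Bx B γ' then G γ' else 0
      rw [cst t t' γ γ' ht ht' e]
      exact if_congr ⟨ng_bx hr h1 h2 e.out, ng_bx hr h1 h2 fun v hv => (e.out v hv).symm⟩ rfl rfl)
  have e1 : ∀ t : ℤ, SX k j t B G = ∑' γ : FX I, if Fam (gX j t) γ then WX (WE k j t) γ * G' γ else 0 := by
    intro t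
    refine tsum_congr fun γ => ?_
    by_cases hb : Bx B γ
    · have : G' γ = G γ := if_pos hb
      rw [this]
      by_cases hf : Fam (gX j t) γ
      · rw [if_pos ⟨hf, hb⟩, if_pos hf]
      · rw [if_neg fun h => hf h.1, if_neg hf]
    · have : G' γ = 0 := if_neg hb
      rw [this, mul_zero, ite_self, if_neg fun h => hb h.2]
  rw [e1, e1]
  exact key

/-- **up to the top of the box** -/
theorem ng_up [Finite I] {G : FX I → ℝ} (ho : NgOut j G) (h1 : -B ≤ j) (h2 : j + 1 ≤ B) (hs : -B ≤ s) (hs' : s ≤ B + 1)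
    (cst : ∀ r, s ≤ r → r ≤ B → Cs j r G) : SX k j s B G = SX k j (B + 1) B G := by
  obtain ⟨n, hn⟩ := Int.le.dest hs'
  rw [← hn]
  have key : ∀ m : ℕ, m ≤ n → SX k j s B G = SX k j (s + (m : ℤ)) B G := by
    intro m
    induction m with
    | zero => intro _; simp
    | succ m ih =>
      intro hm
      rw [ih (by omega)]
      have e : s + ((m + 1 : ℕ) : ℤ) = s + m + 1 := by push_cast; ring
      rw [e]
      exact (ng_row (cst _ (by omega) (by omega)) ho (abs_le.2 ⟨by omega, by omega⟩) h1 h2).symm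
  exact key n le_rfl

/-- **down to the bottom of the box** -/
theorem ng_dn [Finite I] {G : FX I → ℝ} (ho : NgOut j G) (h1 : -B ≤ j) (h2 : j + 1 ≤ B) (hs : -B ≤ s) (hs' : s ≤ B + 1)
    (cst : ∀ r, r < s → -B ≤ r → Cs j r G) : SX k j s B G = SX k j (-B) B G := by
  obtain ⟨n, hn⟩ := Int.le.dest hs
  have key : ∀ m : ℕ, m ≤ n → SX k j (-B + (m : ℤ)) B G = SX k j (-B) B G := by
    intro m
    induction m with
    | zero => intro _; simp
    | succ m ih =>
      intro hm
      rw [← ih (by omega)]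
      have e : -B + ((m + 1 : ℕ) : ℤ) = -B + m + 1 := by push_cast; ring
      rw [e]
      exact ng_row (cst _ (by omega) (by omega)) ho (abs_le.2 ⟨by omega, by omega⟩) h1 h2
  rw [← hn]
  exact key n le_rfl

/-! ### the mass of the square lattice -/

theorem ng_MU {δ : VX →₀ Cell} (h : δ none = .o) : W1X (W0E k j) δ = U.MU (latj k j) (dn δ) := by
  classical
  have e : δ.support = (dn δ).support.map Function.Embedding.some := by
    ext v
    rw [Finsupp.mem_support_iff, Finset.mem_map]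
    constructor
    · intro hv
      rcases v with _ | v
      · exact absurd h hv
      · exact ⟨v, by rw [Finsupp.mem_support_iff, dn_apply]; exact hv, rfl⟩
    · rintro ⟨w, hw, rfl⟩
      rw [Finsupp.mem_support_iff, dn_apply] at hw
      exact hw
  unfold W1X U.MU Finsupp.prod
  rw [e, Finset.prod_map]
  refine Finset.prod_congr rfl fun v _ => ?_
  rw [dn_apply]
  rfl

open Classical in
/-- **the mass of an event of `E_j` in the box** -/
theorem ng_se {Ev : (VX →₀ Cell) → Prop} {A : Set Lps}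
    (h : ∀ δ : VX →₀ Cell, Lp g0 δ → δ none = .o → Ev δ → ∀ l : E.Lp (dn δ), (⟨dn δ, l⟩ : Lps) ∈ A) :
    ENNReal.ofReal (SE k j B (fun γ : FX Unit => if Ev (co γ ()) then 1 else 0)) ≤ U.muU (latj k j) A := by
  set P : FX Unit → Prop := fun γ => (Fam g0 γ ∧ γ none = 0 ∧ Bx B γ) ∧ Ev (co γ ()) with hP
  set T : Finset (FX Unit) := (bx_fin (I := Unit) B).toFinset.filter P with hT
  have mT : ∀ γ, γ ∈ T ↔ P γ := fun γ => by
    rw [hT, Finset.mem_filter, Set.Finite.mem_toFinset]
    exact ⟨fun h => h.2, fun h => ⟨h.1.2.2, h⟩⟩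
  have e1 : SE k j B (fun γ : FX Unit => if Ev (co γ ()) then 1 else 0) = ∑ γ ∈ T, WX (W0E k j) γ := by
    unfold SE
    rw [tsum_eq_sum (s := T)]
    · refine Finset.sum_congr rfl fun γ hγ => ?_
      rw [mT] at hγ
      rw [if_pos hγ.1]
      show _ * (if Ev (co γ ()) then 1 else 0) = _
      rw [if_pos hγ.2, mul_one]
    · intro γ hγ
      rw [mT] at hγ
      by_cases h1 : Fam g0 γ ∧ γ none = 0 ∧ Bx B γ
      · rw [if_pos h1]
        show _ * (if Ev (co γ ()) then 1 else 0) = _
        rw [if_neg fun h2 => hγ ⟨h1, h2⟩, mul_zero]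
      · rw [if_neg h1]
  have lp : ∀ γ, P γ → Lp g0 (co γ ()) := fun γ hγ => fam_one.1 hγ.1.1
  have c0 : ∀ γ, P γ → co γ () none = .o := fun γ hγ => by
    show γ none () = .o
    rw [hγ.1.2.1]
    rfl
  have ex : ∀ γ, P γ → ∃ v : Pt, co γ () (some v) ≠ 0 := by
    intro γ hγ
    by_contra hc
    push Not at hc
    apply (lp γ hγ).ne
    ext1 v
    rcases v with _ | v
    · exact c0 γ hγ
    · exact hc v
  set φ : T → Lps := fun γ => ⟨dn (co γ.1 ()), (lp γ.1 ((mT _).1 γ.2)).dn (ex γ.1 ((mT _).1 γ.2))⟩ with hφ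
  have inj : Function.Injective φ := by
    intro γ γ' e
    have e' : dn (co γ.1 ()) = dn (co γ'.1 ()) := congrArg Subtype.val e
    refine Subtype.ext ?_
    ext v a
    rcases v with _ | v
    · rw [((mT _).1 γ.2).1.2.1, ((mT _).1 γ'.2).1.2.1]
    · have := DFunLike.congr_fun e' v
      rw [dn_apply, dn_apply] at this
      exact this
  have muA : U.muU (latj k j) A = ∑' γ : Lps, ENNReal.ofReal (U.MU (latj k j) γ.1) * (if γ ∈ A then 1 else 0) := by
    unfold U.muU
    rw [Measure.sum_apply _ (show MeasurableSet A from trivial)]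
    refine tsum_congr fun γ => ?_
    rw [Measure.smul_apply, Measure.dirac_apply' _ (show MeasurableSet A from trivial), smul_eq_mul]
    congr 1
  rw [e1, muA]
  calc ENNReal.ofReal (∑ γ ∈ T, WX (W0E k j) γ) ≤ ∑ γ ∈ T, ENNReal.ofReal (WX (W0E k j) γ) :=
        Finset.le_sum_of_subadditive _ ENNReal.ofReal_zero.le (fun _ _ => ENNReal.ofReal_add_le) _ _
    _ = ∑ γ ∈ T.attach, ENNReal.ofReal (WX (W0E k j) γ.1) := (Finset.sum_attach _ _).symm
    _ = ∑ γ ∈ T.attach, (fun l : Lps => ENNReal.ofReal (U.MU (latj k j) l.1) * (if l ∈ A then 1 else 0)) (φ γ) := by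
        refine Finset.sum_congr rfl fun γ _ => ?_
        have hγ := (mT _).1 γ.2
        have hA : φ γ ∈ A := h _ (lp _ hγ) (c0 _ hγ) hγ.2 _
        show _ = ENNReal.ofReal (U.MU (latj k j) (dn (co γ.1 ()))) * _
        rw [if_pos hA, mul_one, ← ng_MU (c0 _ hγ), ← W1X_eq, fam1_co]
    _ = ∑ l ∈ T.attach.map ⟨φ, inj⟩, ENNReal.ofReal (U.MU (latj k j) l.1) * (if l ∈ A then 1 else 0) := by
        rw [Finset.sum_map]
        rfl
    _ ≤ _ := ENNReal.sum_le_tsum _

end

end Pool.Agent.ROT.X
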