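import Pool.Agent.ROT.XLim
import Pool.Agent.ROT.UInst

/-!
# UNIV, exact side, row XPo (helper10): the sum over the families is the pattern function

`I = Option T` : the large loop and the tracers.  `F i : Cfg → ℝ` : the weight functions of the tracers.
**`fe_pot`** : `FE u (χ * ∏ F i) = ∑' w, MU u w * [points] * ∏ i, ∑ v, [pattern] M v * F i v` and
**`fe_pot_sum`** : the sum over the families is summable.
-/

set_option autoImplicit false

open Filter Topology

namespace Pool.Agent.ROT.X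

open Pool.Agent.ROT.L
open Pool.Agent.ROT.E (Cell Pt Cfg)
open Pool.Agent.ROT.E.Hx (HL hs)
open Pool.Agent.ROT.I (Lps)
open Pool.Agent.ROT.A6 (HLs Ins wr)
open Pool.Agent.ROT.U (hexU instU qx bb dd lat MU inF tO Ok)

noncomputable section

variable {T P : Type} [Fintype T] {u : ℤ → ℝ} {n : ℕ} {πT : T → Bool} {πP : P → Bool} {x : P → Pt}

/-- the pattern of a family -/
def ChiF (πT : T → Bool) (πP : P → Bool) (x : P → Pt) (γ : E.Fm (Option T)) : Prop :=
  (∀ l, E.sg (E.co γ none) (x l).1 (x l).2 = 1 ↔ πP l = true) ∧ ∀ i, inF γ none (some i) ↔ πT i = true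

/-- the pattern of a large loop and tracers -/
def ChiW (πT : T → Bool) (πP : P → Bool) (x : P → Pt) (w : Cfg) (v : T → HLs) : Prop :=
  (∀ l, E.sg w (x l).1 (x l).2 = 1 ↔ πP l = true) ∧ ∀ i, Disjoint (hs w) (hs (v i).1) ∧ (Ins (v i).1 w ↔ πT i = true)

theorem chiF_tO {w : Cfg} {v : T → HLs} (dj : ∀ i, Disjoint (hs w) (hs (v i).1)) :
    ChiF πT πP x (tO w v) ↔ ChiW πT πP x w v := by
  unfold ChiF ChiW
  rw [U.co_tO_none]
  refine and_congr_right fun _ => forall_congr' fun i => ?_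
  rw [U.inF_tO dj i]
  exact ⟨fun h => ⟨dj i, h⟩, fun h => h.2⟩

/-- **the hypotheses on the weight functions** -/
structure Wf (u : ℤ → ℝ) (n : ℕ) (πT : T → Bool) (πP : P → Bool) (x : P → Pt) (F : T → Cfg → ℝ) : Prop where
  box : ∀ i (v : HLs), F i v.1 ≠ 0 → v ∈ hexU.box n
  col : ∀ i c, F i c ≠ 0 → ∀ p, c p ≠ .o → u p.1 = Real.pi / 8
  sep : ∀ i i' (v v' : HLs), i ≠ i' → F i v.1 ≠ 0 → F i' v'.1 ≠ 0 → Disjoint (hs v.1) (hs v'.1)
  fin : ∀ v : T → HLs, (∀ i, F i (v i).1 ≠ 0) →
    Summable fun w : Lps => by classical exact if ChiW πT πP x w.1 v then MU u w.1 else 0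

variable {F : T → Cfg → ℝ}

open Classical in
/-- the summand over the tuples -/
def fW (u : ℤ → ℝ) (πT : T → Bool) (πP : P → Bool) (x : P → Pt) (F : T → Cfg → ℝ) (w : Cfg) (v : T → HLs) : ℝ :=
  if ChiW πT πP x w v then MU u w * ((∏ i, wr (v i)) * ∏ i, F i (v i).1) else 0

open Classical in
theorem fW_ok (h : Wf u n πT πP x F) {w : Cfg} (hw : E.Lp w) (v : T → HLs) : fW u πT πP x F w v =
    if Ok u (w, v) then MU u w * (∏ i, wr (v i)) *
      ((if ChiW πT πP x w v then 1 else 0) * ∏ i, F i (v i).1) else 0 := by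
  unfold fW
  by_cases hF : ∀ i, F i (v i).1 ≠ 0
  · by_cases hc : ChiW πT πP x w v
    · have ok : Ok u (w, v) := ⟨hw, fun i p hp => h.col i _ (hF i) p hp, fun i i' hi => h.sep i i' _ _ hi (hF i) (hF i'),
        fun i => (hc.2 i).1⟩
      rw [if_pos hc, if_pos ok, if_pos hc, one_mul, mul_assoc]
    · rw [if_neg hc, if_neg hc, zero_mul, mul_zero, ite_self]
  · push Not at hF
    obtain ⟨i, hi⟩ := hF
    have h0 : ∏ i, F i (v i).1 = 0 := Finset.prod_eq_zero (Finset.mem_univ i) hi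
    rw [h0, mul_zero, mul_zero, mul_zero, mul_zero, ite_self, ite_self]

/-- the tuples of the box -/
def T0 (T : Type) [Fintype T] (n : ℕ) : Finset (T → HLs) := by
  classical exact Fintype.piFinset fun _ : T => hexU.box n

theorem fW_out (h : Wf u n πT πP x F) {w : Cfg} {v : T → HLs} (hv : v ∉ T0 T n) : fW u πT πP x F w v = 0 := by
  classical
  have h1 : ∃ i, F i (v i).1 = 0 := by
    by_contra hc
    push Not at hc
    exact hv (Fintype.mem_piFinset.2 fun i => h.box i _ (hc i))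
  obtain ⟨i, hi⟩ := h1
  unfold fW
  split_ifs
  · rw [Finset.prod_eq_zero (f := fun i => F i (v i).1) (Finset.mem_univ i) hi, mul_zero, mul_zero]
  · rfl

theorem fW_fin (h : Wf u n πT πP x F) (v : T → HLs) : Summable fun w : Lps => fW u πT πP x F w.1 v := by
  classical
  by_cases hF : ∀ i, F i (v i).1 ≠ 0
  · refine ((h.fin v hF).mul_right ((∏ i, wr (v i)) * ∏ i, F i (v i).1)).congr fun w => ?_
    unfold fW
    split_ifs
    · rfl
    · rw [zero_mul]
  · push Not at hF
    obtain ⟨i, hi⟩ := hF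
    have h0 : ∏ i, F i (v i).1 = 0 := Finset.prod_eq_zero (Finset.mem_univ i) hi
    refine summable_zero.congr fun w => ?_
    unfold fW
    rw [h0, mul_zero, mul_zero, ite_self]

open Classical in
/-- the summand over all tuples -/
def gW (u : ℤ → ℝ) (πT : T → Bool) (πP : P → Bool) (x : P → Pt) (F : T → Cfg → ℝ) (g : Cfg × (T → HLs)) : ℝ :=
  if Ok u g then MU u g.1 * (∏ i, wr (g.2 i)) * ((if ChiW πT πP x g.1 g.2 then 1 else 0) * ∏ i, F i (g.2 i).1) else 0

theorem gW_fW (h : Wf u n πT πP x F) (w : Lps) (v : T → HLs) : gW u πT πP x F (w.1, v) = fW u πT πP x F w.1 v :=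
  (fW_ok h w.2 v).symm

theorem gW_lp {w : Cfg} {v : T → HLs} (hw : ¬ E.Lp w) : gW u πT πP x F (w, v) = 0 := by
  unfold gW
  rw [if_neg fun h => hw h.lp]

theorem gW_sum (h : Wf u n πT πP x F) : Summable (gW u πT πP x F) := by
  classical
  have e : gW u πT πP x F = fun g => ∑ v ∈ T0 T n, if g.2 = v then gW u πT πP x F g else 0 := by
    funext g
    rw [Finset.sum_ite_eq]
    by_cases hv : g.2 ∈ T0 T n
    · rw [if_pos hv]
    · rw [if_neg hv]
      by_cases hw : E.Lp g.1
      · exact (gW_fW h ⟨g.1, hw⟩ g.2).trans (fW_out h hv)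
      · exact gW_lp hw
  rw [e]
  refine summable_sum fun v _ => ?_
  have hi : Function.Injective fun w : Lps => ((w.1, v) : Cfg × (T → HLs)) := fun w w' hw =>
    Subtype.ext (congrArg Prod.fst hw)
  rw [← hi.summable_iff]
  · refine (fW_fin h v).congr fun w => ?_
    show fW u πT πP x F w.1 v = if v = v then gW u πT πP x F (w.1, v) else 0
    rw [if_pos rfl, gW_fW h]
  · rintro ⟨w, v'⟩ hg
    by_cases hv : v' = v
    · subst hv
      rw [if_pos rfl]
      refine gW_lp fun hw => hg ⟨⟨w, hw⟩, rfl⟩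
    · exact if_neg hv

/-- families with the tracers in the honeycomb columns -/
def FCol (u : ℤ → ℝ) (γ : E.Fm (Option T)) : Prop := E.Fam γ ∧ ∀ i p, γ p (some i) ≠ .o → u p.1 = Real.pi / 8

open Classical in
/-- the integrand -/
def iF (πT : T → Bool) (πP : P → Bool) (x : P → Pt) (F : T → Cfg → ℝ) (γ : E.Fm (Option T)) : ℝ :=
  (if ChiF πT πP x γ then 1 else 0) * ∏ i, F i (E.co γ (some i))

open Classical in
/-- the summand over the families -/
theorem fe_summand (h : Wf u n πT πP x F) {χ : FX (Option T) → ℝ}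
    (hχ : ∀ γ : E.Fm (Option T), E.Fam γ → χ (emb γ) = if ChiF πT πP x γ then 1 else 0) (γ : E.Fm (Option T)) :
    (if E.Fam γ then E.M u γ * (χ (emb γ) * ∏ i, F i (E.co (dn (emb γ)) (some i))) else 0) =
      if FCol u γ then E.M u γ * iF πT πP x F γ else 0 := by
  rw [dn_emb]
  by_cases hf : E.Fam γ
  · rw [if_pos hf, hχ γ hf]
    by_cases hc : ∀ i p, γ p (some i) ≠ .o → u p.1 = Real.pi / 8
    · rw [if_pos (show FCol u γ from ⟨hf, hc⟩)]
      rfl
    · rw [if_neg (show ¬ FCol u γ from fun h => hc h.2)]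
      have h0 : ∏ i, F i (E.co γ (some i)) = 0 := by
        by_contra hne
        refine hc fun i p hp => h.col i _ ((Finset.prod_ne_zero_iff.1 hne) i (Finset.mem_univ i)) p hp
      rw [h0, mul_zero, mul_zero]
  · rw [if_neg hf, if_neg (show ¬ FCol u γ from fun h => hf h.1)]

open Classical in
theorem gW_tO (g : Cfg × (T → HLs)) : gW u πT πP x F g =
    if Ok u g then MU u g.1 * (∏ i, wr (g.2 i)) * iF πT πP x F (tO g.1 g.2) else 0 := by
  unfold gW iF
  by_cases ok : Ok u g
  · rw [if_pos ok, if_pos ok]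
    simp only [U.co_tO_some]
    by_cases hc : ChiW πT πP x g.1 g.2
    · rw [if_pos hc, if_pos ((chiF_tO ok.dj).2 hc)]
    · rw [if_neg hc, if_neg fun h => hc ((chiF_tO ok.dj).1 h)]
  · rw [if_neg ok, if_neg ok]

open Classical in
theorem fe_tO (g : Cfg × (T → HLs)) : (if FCol u (tO g.1 g.2) then E.M u (tO g.1 g.2) * iF πT πP x F (tO g.1 g.2) else 0) =
    gW u πT πP x F g := by
  rw [gW_tO]
  by_cases ok : Ok u g
  · rw [if_pos ok, if_pos (show FCol u (tO g.1 g.2) from ⟨U.fam_ext ok.lp ok.pd ok.dj, ok.col⟩), U.M_ext ok.col ok.pd ok.dj]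
  · rw [if_neg ok]
    by_cases hc : FCol u (tO g.1 g.2)
    · rw [if_pos hc]
      by_contra hne
      obtain ⟨g', ok', hg⟩ := U.ext_of hc.1 (left_ne_zero_of_mul hne) hc.2
      rw [U.tO_inj hg] at ok'
      exact ok ok'
    · exact if_neg hc

open Classical in
theorem fe_rng (γ : E.Fm (Option T)) (h : (if FCol u γ then E.M u γ * iF πT πP x F γ else 0) ≠ 0) :
    γ ∈ Set.range fun g : Cfg × (T → HLs) => tO g.1 g.2 := by
  by_cases hc : FCol u γ
  · rw [if_pos hc] at h
    obtain ⟨g, -, hg⟩ := U.ext_of hc.1 (left_ne_zero_of_mul h) hc.2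
    exact ⟨g, hg⟩
  · exact absurd (if_neg hc) h

theorem tO_inj' : Function.Injective fun g : Cfg × (T → HLs) => tO g.1 g.2 := fun _ _ h => U.tO_inj h

open Classical in
/-- **the sum over the families is summable** -/
theorem fe_pot_sum (h : Wf u n πT πP x F) {χ : FX (Option T) → ℝ}
    (hχ : ∀ γ : E.Fm (Option T), E.Fam γ → χ (emb γ) = if ChiF πT πP x γ then 1 else 0) :
    Summable fun γ : E.Fm (Option T) =>
      if E.Fam γ then E.M u γ * (χ (emb γ) * ∏ i, F i (E.co (dn (emb γ)) (some i))) else 0 := by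
  simp only [fe_summand h hχ]
  rw [← tO_inj'.summable_iff]
  · exact (gW_sum h).congr fun g => (fe_tO g).symm
  · intro γ hγ
    by_contra hne
    exact hγ (fe_rng γ hne)

open Classical in
/-- **the sum over the families is the pattern function** -/
theorem fe_pot (h : Wf u n πT πP x F) {χ : FX (Option T) → ℝ}
    (hχ : ∀ γ : E.Fm (Option T), E.Fam γ → χ (emb γ) = if ChiF πT πP x γ then 1 else 0) :
    FE u (fun γ => χ γ * ∏ i, F i (E.co (dn γ) (some i))) =
      ∑' w : Lps, MU u w.1 * ((if ∀ l, E.sg w.1 (x l).1 (x l).2 = 1 ↔ πP l = true then 1 else 0) *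
        ∏ i : T, ∑ v ∈ hexU.box n, if Disjoint (hs w.1) (hs v.1) ∧ (Ins v.1 w.1 ↔ πT i = true) then
          hexU.M v * F i v.1 else 0) := by
  unfold FE
  simp only [fe_summand h hχ]
  rw [← tO_inj'.tsum_eq fun γ hγ => fe_rng γ hγ]
  simp only [fe_tO]
  rw [(gW_sum h).tsum_prod]
  have e1 : ∀ w : Cfg, ∑' v, gW u πT πP x F (w, v) = ∑ v ∈ T0 T n, gW u πT πP x F (w, v) := fun w => by
    refine tsum_eq_sum fun v hv => ?_
    by_cases hw : E.Lp w
    · exact (gW_fW h ⟨w, hw⟩ v).trans (fW_out h hv)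
    · exact gW_lp hw
  simp only [e1]
  have hi : Function.Injective (fun w : Lps => w.1) := Subtype.val_injective
  rw [← hi.tsum_eq]
  · refine tsum_congr fun w => ?_
    have e2 : (∏ i : T, ∑ v ∈ hexU.box n, if Disjoint (hs w.1) (hs v.1) ∧ (Ins v.1 w.1 ↔ πT i = true) then
          hexU.M v * F i v.1 else 0) = ∑ v ∈ T0 T n, ∏ i : T, (if Disjoint (hs w.1) (hs (v i).1) ∧
            (Ins (v i).1 w.1 ↔ πT i = true) then hexU.M (v i) * F i (v i).1 else 0) :=
      Finset.prod_univ_sum _ _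
    rw [e2, Finset.mul_sum, Finset.mul_sum]
    refine Finset.sum_congr rfl fun v _ => ?_
    rw [gW_fW h]
    unfold fW
    by_cases hc : ChiW πT πP x w.1 v
    · rw [if_pos hc, if_pos hc.1, one_mul, ← Finset.prod_mul_distrib]
      congr 1
      refine Finset.prod_congr rfl fun i _ => ?_
      rw [if_pos (hc.2 i)]
      rfl
    · rw [if_neg hc]
      by_cases hp : ∀ l, E.sg w.1 (x l).1 (x l).2 = 1 ↔ πP l = true
      · have h2 : ∃ i, ¬ (Disjoint (hs w.1) (hs (v i).1) ∧ (Ins (v i).1 w.1 ↔ πT i = true)) := by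
          by_contra hx
          push Not at hx
          exact hc ⟨hp, fun i => by
            by_contra hy
            exact hy (hx i)⟩
        obtain ⟨i, h3⟩ := h2
        rw [Finset.prod_eq_zero (Finset.mem_univ i) (if_neg h3), mul_zero, mul_zero]
      · rw [if_neg hp, zero_mul, mul_zero]
  · intro w hw
    by_contra hc
    refine hw (Finset.sum_eq_zero fun v _ => gW_lp fun hl => hc ⟨⟨w, hl⟩, rfl⟩)

end

end Pool.Agent.ROT.X
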