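import Pool.Agent.ROT.XPo
import Pool.Agent.ROT.ULrw

/-!
# UNIV, exact side, row XPo (helper10): the hypotheses of `fe_pot`

`Gd N K δ d k x F` : the tracers have heights in the box `K N`, extents `≥ δ N`, columns `≥ k + 1`, different tracers in
different columns; the points are in the box and at column distance `≥ d N`.
**`wf_gd`** : `Gd`, a pattern with two true objects and a false one, and `Near` ⇒ `Wf` in the lattices `k` and `k + 1`.
-/

set_option autoImplicit false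

open Filter Topology

namespace Pool.Agent.ROT.X

open Pool.Agent.ROT.L
open Pool.Agent.ROT.E (Cell Pt Cfg)
open Pool.Agent.ROT.E.Hx (HL hs)
open Pool.Agent.ROT.I (Lps)
open Pool.Agent.ROT.A6 (HLs Ins wr)
open Pool.Agent.ROT.U (hexU instU qx bb dd lat MU inF tO Ok)

noncomputable section

variable {T P : Type} [Fintype T]

/-- **the geometry** -/
structure Gd (N : ℕ) (K δ d : ℝ) (k : ℤ) (x : P → Pt) (F : T → Cfg → ℝ) : Prop where
  ht : ∀ i c, F i c ≠ 0 → (∀ s, |(A6.hc c s : ℝ)| ≤ K * N) ∧ δ * N ≤ (A6.hc c 1 : ℝ) - A6.hc c 0 ∧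
    δ * N ≤ (A6.hc c 3 : ℝ) - A6.hc c 2
  col : ∀ i c, F i c ≠ 0 → k + 1 ≤ A6.hc c 0
  sep : ∀ i i' c c', i ≠ i' → F i c ≠ 0 → F i' c' ≠ 0 → A6.hc c 1 < A6.hc c' 0 ∨ A6.hc c' 1 < A6.hc c 0
  pt : ∀ l, |((x l).1 : ℝ)| ≤ K * N ∧ |((x l).2 : ℝ)| ≤ K * N
  pp : ∀ l l', l ≠ l' → d * N ≤ |((x l).1 : ℝ) - (x l').1|

/-- the pattern has two true objects and a false one -/
def Nt2 (πT : T → Bool) (πP : P → Bool) : Prop :=
  (∃ a b : T ⊕ P, a ≠ b ∧ Sum.elim πT πP a = true ∧ Sum.elim πT πP b = true) ∧ ∃ c : T ⊕ P, Sum.elim πT πP c = false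

variable {N n : ℕ} {K δ d : ℝ} {k : ℤ} {x : P → Pt} {F : T → Cfg → ℝ} {πT : T → Bool} {πP : P → Bool}

/-- the object of one tracer or one point -/
def ob1 (x : P → Pt) (v : T → HLs) : T ⊕ P → Pt ⊕ (HLs → ℝ)
  | .inl i => .inr (Set.indicator {v i} fun _ => 1)
  | .inr l => .inl (x l)

theorem wr_pos (v : HLs) : 0 < wr v := pow_pos HexObs.xc_pos _

theorem facl {S : A.PSys} (X : U.WSys S) {n : ℕ} {w : X.W} {b : Bool} {y : A.Z2} (h : X.ip y w ↔ b = true) :
    X.fac n w b (.inl y) ≠ 0 := by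
  intro h0
  have h1 : X.fac n w b (.inl y) = 1 := if_pos h
  rw [h1] at h0
  exact one_ne_zero h0

theorem facr {S : A.PSys} (X : U.WSys S) {n : ℕ} {w : X.W} {b : Bool} {v : S.P} (hv : v ∈ S.box n) (hM : S.M v ≠ 0)
    (h : X.Dj w v ∧ (X.In v w ↔ b = true)) : X.fac n w b (.inr (Set.indicator {v} fun _ => 1)) ≠ 0 := by
  have h1 : X.fac n w b (.inr (Set.indicator {v} fun _ => 1)) = S.M v := by
    refine Eq.trans (Finset.sum_eq_single (M := ℝ) (s := S.box n) v ?_ ?_) ?_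
    · intro v' _ hne
      rw [Set.indicator_of_notMem (fun hc => hne (Set.mem_singleton_iff.1 hc)), mul_zero, ite_self]
    · intro hc
      exact absurd hv hc
    · rw [if_pos h, Set.indicator_of_mem (Set.mem_singleton v), mul_one]
  rw [h1]
  exact hM

omit [Fintype T] in
theorem fac_ob1 {w : Lps} {v : T → HLs} (hb : ∀ i, v i ∈ hexU.box n) (hc : ChiW πT πP x w.1 v) (a : T ⊕ P) :
    instU.fac n w (Sum.elim πT πP a) (ob1 x v a) ≠ 0 := by
  rcases a with i | l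
  · exact facr instU (hb i) (wr_pos (v i)).ne' (hc.2 i)
  · exact facl instU (hc.1 l)

omit [Fintype T] in
theorem obj_ob1 (h : Gd N K δ d k x F) {v : T → HLs} (hv : ∀ i, F i (v i).1 ≠ 0) (a : T ⊕ P) :
    U.Obj (S := hexU) K N δ (ob1 x v a) := by
  classical
  rcases a with i | l
  · refine Or.inr ⟨_, rfl, fun v' hv' => ?_⟩
    have e : v' = v i := by
      by_contra hc
      exact hv' (Set.indicator_of_notMem (fun h => hc (Set.mem_singleton_iff.1 h)) _)
    subst e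
    exact h.ht i _ (hv i)
  · exact Or.inl ⟨x l, rfl, h.pt l⟩

omit [Fintype T] in
/-- **where the pattern holds** -/
theorem loc_ob1 (hπ : Nt2 πT πP) (h : Gd N K δ d k x F) (hN : 1 ≤ N) {w : Lps} {v : T → HLs}
    (hv : ∀ i, F i (v i).1 ≠ 0) (hb : ∀ i, v i ∈ hexU.box n) (hc : ChiW πT πP x w.1 v) :
    instU.Ext (min δ d * N) w ∧ instU.Nr ((K + 1) * N) 0 w := by
  have hNr : (0 : ℝ) ≤ N := Nat.cast_nonneg N
  obtain ⟨⟨p, q, hpq, hp, hq⟩, r, hr⟩ := hπ
  have hp0 := fac_ob1 (n := n) hb hc p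
  have hq0 := fac_ob1 (n := n) hb hc q
  have hr0 := fac_ob1 (n := n) hb hc r
  rw [hp] at hp0
  rw [hq] at hq0
  rw [hr] at hr0
  refine ⟨?_, U.nr_of hN (obj_ob1 h hv p) (obj_ob1 h hv r) hp0 hr0⟩
  have htr : ∀ i : T, instU.fac n w true (ob1 x v (.inl i)) ≠ 0 → instU.Ext (min δ d * N) w := by
    intro i hi
    exact (U.ext_trc (obj_ob1 h hv (.inl i)) hi).mono (mul_le_mul_of_nonneg_right (min_le_left _ _) hNr)
  rcases p with i | l
  · exact htr i hp0
  rcases q with i | l'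
  · exact htr i hq0
  have hll : l ≠ l' := fun e => hpq (by rw [e])
  exact (U.ext_ptc (D := d * N) (h.pp l l' hll) hp0 hq0).mono (mul_le_mul_of_nonneg_right (min_le_right _ _) hNr)

omit [Fintype T] in
theorem box_of (h : Gd N K δ d k x F) (hn : K * N ≤ n) (i : T) (v : HLs) (hv : F i v.1 ≠ 0) : v ∈ hexU.box n := by
  refine (hexU.mem_box n v).2 fun s => ?_
  have h1 := ((h.ht i _ hv).1 s).trans hn
  have h2 : ((|A6.hc v.1 s| : ℤ) : ℝ) ≤ ((n : ℤ) : ℝ) := by
    rw [Int.cast_abs]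
    exact_mod_cast h1
  exact_mod_cast h2

omit [Fintype T] in
theorem sep_of (h : Gd N K δ d k x F) (i i' : T) (v v' : HLs) (hi : i ≠ i') (hv : F i v.1 ≠ 0) (hv' : F i' v'.1 ≠ 0) :
    Disjoint (hs v.1) (hs v'.1) := by
  refine A6.disj_of_supp fun s h1 h2 => ?_
  have b1 := A6.in_box h1
  have b2 := A6.in_box h2
  rcases h.sep i i' _ _ hi hv hv' with h3 | h3 <;> omega

omit [Fintype T] in
/-- **the hypotheses of `fe_pot`** -/
theorem wf_gd (hX : instU.Near) (K : ℝ) {δ d : ℝ} (hδ : 0 < δ) (hd : 0 < d) : ∃ N0 : ℕ, ∀ N : ℕ, N0 ≤ N →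
    ∀ (πT : T → Bool) (πP : P → Bool), Nt2 πT πP → ∀ (k : ℤ) (x : P → Pt) (F : T → Cfg → ℝ), Gd N K δ d k x F →
    ∀ (n : ℕ), K * N ≤ n → ∀ l : ℤ, (l = k ∨ l = k + 1) → Wf (lat bb l) n πT πP x F := by
  classical
  obtain ⟨C, hC, N1, h1⟩ := instU.mass_all hX (lt_min hδ hd) (K + 1)
  refine ⟨max N1 1, fun N hN πT πP hπ k x F h n hn l hl => ?_⟩
  have k1 : N1 ≤ N := (le_max_left _ _).trans hN
  have k2 : 1 ≤ N := (le_max_right _ _).trans hN
  refine ⟨box_of h hn, fun i c hc p hp => ?_, sep_of h, fun v hv => ?_⟩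
  · have h2 := h.col i c hc
    have h3 := A6.in_box (A6.mem_supp.2 hp : p ∈ c.support)
    unfold lat
    rw [if_neg (by omega)]
  · have h2 := h1 N k1 (instU.wt l) (U.WSys.IsW.t l) 0
    rw [U.WSys.near_eq] at h2
    refine (U.summable_of (g := instU.wt l) (F := fun w : Lps => if ChiW πT πP x w.1 v then (1 : ℝ) else 0) (C := 1)
      (fun w => instU.wt_nn l w) (ne_top_of_le_ne_top ENNReal.ofReal_ne_top h2) (fun w => ?_) fun w hw => ?_).congr
        fun w => ?_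
    · show |if ChiW πT πP x w.1 v then (1 : ℝ) else 0| ≤ 1
      split_ifs <;> simp
    · refine if_neg fun hc => hw ?_
      exact loc_ob1 hπ h k2 hv (fun i => box_of h hn i _ (hv i)) hc
    · show MU (lat bb l) w.1 * (if ChiW πT πP x w.1 v then (1 : ℝ) else 0) = _
      split_ifs
      · rw [mul_one]
      · rw [mul_zero]

end

end Pool.Agent.ROT.X
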