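import Pool.Agent.ROT.XGk
import Pool.Agent.ROT.XPo

/-!
# UNIV, exact side, row XPot (helper60): the increment in terms of the pattern functions

`I = Option T`, tracers `T`, points `P`.  `F0 N G`, `FK N g`, `FL N g` : the test functions and the responses as functions of the
configuration; `PT u n πT πP x F` : the pattern function.

* `gRt_eq`, `gLt_eq` : the functionals as sums of products over the tracers;
* `vis_none` : the large loop visits the box; `Hyp` : the hypotheses on the data; `Near1 i c` : `F i c ≠ 0` gives a point of the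
  support of `G i` at distance `1 / N`; `wf_of` : `Wf`;
* **`xpot`** : from the boxes to the pattern functions of the lattices `lat bb k`, `lat bb (k + 1)`.
-/

set_option autoImplicit false

namespace Pool.Agent.ROT.X

open Filter Topology
open Pool.Agent.ROT.E (Cell Pt Cfg)
open Pool.Agent.ROT.E.Hx (HL hs)
open Pool.Agent.ROT.I (Lps)
open Pool.Agent.ROT.A6 (HLs Ins)
open Pool.Agent.ROT.L
open Pool.Agent.ROT.U (hexU qx bb dd lat D1 MU Tf1)

noncomputable section

variable {T : Type} [Fintype T]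

/-- the heights of a configuration in units of `N` -/
def yN (N : ℕ) (c : Cfg) : Fin 4 → ℝ := fun a => (A6.hc c a : ℝ) / N

/-- the test function of a tracer -/
def F0 (N : ℕ) (G : T → (Fin 4 → ℝ) → ℝ) (i : T) (c : Cfg) : ℝ := G i (yN N c)

/-- the response, right and bottom -/
def FK (N : ℕ) (g : (Fin 4 → ℝ) → ℝ) (c : Cfg) : ℝ :=
  -(qx bb c 1 - 1) * D1 N 1 g (yN N c) + qx dd c 2 * D1 N 2 g (yN N c)

/-- the response, left and top -/
def FL (N : ℕ) (g : (Fin 4 → ℝ) → ℝ) (c : Cfg) : ℝ :=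
  -(qx bb c 0 - 1) * (g (yN N c) - g (yN N c - Pi.single 0 (1 / (N : ℝ)))) +
    qx dd c 3 * (g (yN N c) - g (yN N c - Pi.single 3 (1 / (N : ℝ))))

variable {N : ℕ} {G : T → (Fin 4 → ℝ) → ℝ}

/-- the functional -/
def fG' (N : ℕ) (G : T → (Fin 4 → ℝ) → ℝ) (h : Option T → Fin 4 → ℤ) : ℝ := ∏ i, G i fun a => (h (some i) a : ℝ) / N

theorem fG_ht (γ : E.Fm (Option T)) : fG' N G (ht (emb γ)) = ∏ i, F0 N G i (E.co γ (some i)) := by
  unfold fG' F0 yN
  simp only [ht_emb]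

theorem yN_upd (c : Cfg) (b : Fin 4) (s : ℤ) (h : Fin 4 → ℤ) (hh : h = Function.update (A6.hc c) b (A6.hc c b + s)) :
    (fun a => (h a : ℝ) / N) = yN N c + Pi.single b ((s : ℝ) / N) := by
  funext a
  rw [hh, Pi.add_apply]
  unfold yN
  by_cases hab : a = b
  · subst hab
    rw [Function.update_self, Pi.single_eq_same]
    push_cast
    ring
  · rw [Function.update_of_ne hab, Pi.single_eq_of_ne hab, add_zero]

private theorem upd_self' {I : Type} (h : I → Fin 4 → ℤ) (i : I) (b : Fin 4) (x : ℤ) :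
    upd h i b x i = Function.update (h i) b x := by
  unfold upd
  exact @Function.update_self _ _ (fun a b => Classical.propDecidable (a = b)) _ _ _

private theorem upd_ne' {I : Type} (h : I → Fin 4 → ℤ) {i i' : I} (hi : i' ≠ i) (b : Fin 4) (x : ℤ) :
    upd h i b x i' = h i' := by
  unfold upd
  exact @Function.update_of_ne _ _ (fun a b => Classical.propDecidable (a = b)) _ _ hi _ _

theorem fG_upd [DecidableEq T] (γ : E.Fm (Option T)) (i : T) (b : Fin 4) (s : ℤ) :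
    fG' N G (upd (ht (emb γ)) (some i) b (ht (emb γ) (some i) b + s)) =
      ∏ i', Function.update (F0 N G) i (fun c => G i (yN N c + Pi.single b ((s : ℝ) / N))) i' (E.co γ (some i')) := by
  classical
  unfold fG'
  refine Finset.prod_congr rfl fun i' _ => ?_
  by_cases hi : i' = i
  · subst hi
    rw [Function.update_self]
    congr 1
    refine yN_upd _ b s _ ?_
    rw [upd_self', ht_emb]
  · rw [Function.update_of_ne hi, upd_ne' _ (fun e => hi (Option.some.inj e)), ht_emb]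
    rfl

private theorem prod_upd [DecidableEq T] (F : T → Cfg → ℝ) (i : T) (φ : Cfg → ℝ) (c : T → Cfg) :
    ∏ i', Function.update F i φ i' (c i') = φ (c i) * ∏ i' ∈ Finset.univ.erase i, F i' (c i') := by
  rw [← Finset.mul_prod_erase _ _ (Finset.mem_univ i), Function.update_self]
  congr 1
  refine Finset.prod_congr rfl fun i' hi' => ?_
  rw [Function.update_of_ne (Finset.ne_of_mem_erase hi')]

theorem gRt_eq [DecidableEq T] (γ : E.Fm (Option T)) : gRt (Finset.univ.map Function.Embedding.some) (fG' N G) (emb γ) =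
    ∏ i, F0 N G i (E.co γ (some i)) + ∑ i, ∏ i', Function.update (F0 N G) i (FK N (G i)) i' (E.co γ (some i')) := by
  unfold gRt
  rw [fG_ht, Finset.sum_map, dn_emb]
  congr 1
  refine Finset.sum_congr rfl fun i _ => ?_
  have h1 := fG_upd (N := N) (G := G) γ i 1 1
  have h2 := fG_upd (N := N) (G := G) γ i 2 1
  show (qx bb (E.co γ (some i)) 1 - 1) * (_ - fG' N G (upd (ht (emb γ)) (some i) 1 (ht (emb γ) (some i) 1 + 1))) -
    qx dd (E.co γ (some i)) 2 * (_ - fG' N G (upd (ht (emb γ)) (some i) 2 (ht (emb γ) (some i) 2 + 1))) = _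
  rw [h1, h2, prod_upd (F0 N G) i _ fun i' => E.co γ (some i'), prod_upd (F0 N G) i _ fun i' => E.co γ (some i'),
    prod_upd (F0 N G) i _ fun i' => E.co γ (some i'), ← Finset.mul_prod_erase _ _ (Finset.mem_univ i)]
  unfold FK D1 F0
  push_cast
  ring

theorem gLt_eq [DecidableEq T] (γ : E.Fm (Option T)) : gLt (Finset.univ.map Function.Embedding.some) (fG' N G) (emb γ) =
    ∏ i, F0 N G i (E.co γ (some i)) - ∑ i, ∏ i', Function.update (F0 N G) i (FL N (G i)) i' (E.co γ (some i')) := by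
  unfold gLt
  rw [fG_ht, Finset.sum_map, dn_emb, sub_eq_add_neg, ← Finset.sum_neg_distrib]
  congr 1
  refine Finset.sum_congr rfl fun i _ => ?_
  have h1 := fG_upd (N := N) (G := G) γ i 0 (-1)
  have h2 := fG_upd (N := N) (G := G) γ i 3 (-1)
  show (qx bb (E.co γ (some i)) 0 - 1) * (_ - fG' N G (upd (ht (emb γ)) (some i) 0 (ht (emb γ) (some i) 0 + -1))) -
    qx dd (E.co γ (some i)) 3 * (_ - fG' N G (upd (ht (emb γ)) (some i) 3 (ht (emb γ) (some i) 3 + -1))) = _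
  rw [h1, h2, prod_upd (F0 N G) i _ fun i' => E.co γ (some i'), prod_upd (F0 N G) i _ fun i' => E.co γ (some i'),
    prod_upd (F0 N G) i _ fun i' => E.co γ (some i'), ← Finset.mul_prod_erase _ _ (Finset.mem_univ i)]
  have e : ∀ (b : Fin 4) (y : Fin 4 → ℝ), y + Pi.single b (((-1 : ℤ) : ℝ) / N) = y - Pi.single b (1 / (N : ℝ)) := by
    intro b y
    rw [sub_eq_add_neg, ← Pi.single_neg]
    push_cast
    ring_nf
  rw [e, e]
  unfold FL F0
  ring

/-! ### the large loop -/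

omit [Fintype T] in
/-- **the large loop separates two objects of the box**: it visits the box -/
theorem vis_none {P : Type} {γ : E.Fm (Option T)} (f : E.Fam γ) {πT : T → Bool} {πP : P → Bool} {x : P → Pt}
    (hP : ∀ l, E.sg (E.co γ none) (x l).1 (x l).2 = 1 ↔ πP l = true) (hT : ∀ i, U.inF γ none (some i) ↔ πT i = true)
    (h1 : (∃ l, πP l = true) ∨ ∃ i, πT i = true) (h0 : (∃ l, πP l = false) ∨ ∃ i, πT i = false) {R : ℤ}
    (bx : ∀ l, |(x l).1| ≤ R ∧ |(x l).2| ≤ R) (bt : ∀ i a, |A6.hc (E.co γ (some i)) a| ≤ R) :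
    ∃ p : Pt, γ p none ≠ .o ∧ |p.1| ≤ R + 2 ∧ |p.2| ≤ R + 2 := by
  have hcr : ∀ i (h : E.He), E.oc (E.co γ (some i)) h → |(E.cr h).1| ≤ R + 1 ∧ |(E.cr h).2| ≤ R + 1 := by
    intro i h ho
    have hb := A6.cr_box ho
    have b0 := abs_le.1 (bt i 0)
    have b1 := abs_le.1 (bt i 1)
    have b2 := abs_le.1 (bt i 2)
    have b3 := abs_le.1 (bt i 3)
    rw [abs_le, abs_le]
    omega
  obtain ⟨p, hp, p1, p2⟩ : ∃ p : Pt, E.sg (E.co γ none) p.1 p.2 = 1 ∧ |p.1| ≤ R + 1 ∧ |p.2| ≤ R + 1 := by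
    rcases h1 with ⟨l, hl⟩ | ⟨i, hi⟩
    · exact ⟨x l, (hP l).2 hl, (bx l).1.trans (by omega), (bx l).2.trans (by omega)⟩
    · obtain ⟨h, ho, e⟩ := (hT i).2 hi
      exact ⟨E.cr h, e, hcr i h ho⟩
  obtain ⟨q, hq, q1, q2⟩ : ∃ q : Pt, E.sg (E.co γ none) q.1 q.2 ≠ 1 ∧ |q.1| ≤ R + 1 ∧ |q.2| ≤ R + 1 := by
    rcases h0 with ⟨l, hl⟩ | ⟨i, hi⟩
    · refine ⟨x l, fun e => ?_, (bx l).1.trans (by omega), (bx l).2.trans (by omega)⟩
      rw [(hP l).1 e] at hl
      exact absurd hl (by decide)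
    · obtain ⟨v, hv⟩ := Finsupp.support_nonempty_iff.2 (f.lp (some i)).ne
      obtain ⟨d, ho⟩ := A6.ex_oc hv
      refine ⟨E.cr (v, d), fun e => ?_, hcr i _ ho⟩
      rw [(hT i).1 ⟨_, ho, e⟩] at hi
      exact absurd hi (by decide)
  obtain ⟨s, hs, s1, s2, s3, s4⟩ := A6.sg_sep (f.lp none).mt (x := p) (y := q) fun e => hq (e ▸ hp)
  refine ⟨s, A6.mem_supp.1 hs, ?_, ?_⟩
  · rw [abs_le] at p1 q1 ⊢
    rcases min_le_iff.1 (le_refl (min p.1 q.1)) with m | m <;> rcases le_max_iff.1 (le_refl (max p.1 q.1)) with m' | m' <;>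
      (constructor <;> omega)
  · rw [abs_le] at p2 q2 ⊢
    constructor <;> omega

/-! ### linear combinations -/

open Classical in
/-- the summand of `FE` -/
def sF {I : Type} (u : ℤ → ℝ) (G : FX I → ℝ) (γ : E.Fm I) : ℝ := if E.Fam γ then E.M u γ * G (emb γ) else 0

theorem FE_lin {I : Type} {u : ℤ → ℝ} {ι : Type} [Fintype ι] {A H : FX I → ℝ} {B : ι → FX I → ℝ} (σ : ℝ)
    (hA : Summable (sF u A)) (hB : ∀ i, Summable (sF u (B i)))
    (h : ∀ γ : E.Fm I, E.Fam γ → H (emb γ) = A (emb γ) + σ * ∑ i, B i (emb γ)) :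
    FE u H = FE u A + σ * ∑ i, FE u (B i) := by
  classical
  have e1 : FE u A = ∑' γ, sF u A γ := rfl
  have e2 : ∀ i, FE u (B i) = ∑' γ, sF u (B i) γ := fun i => rfl
  rw [e1, Finset.sum_congr rfl fun i _ => e2 i, ← Summable.tsum_finsetSum fun i _ => hB i, ← tsum_mul_left,
    ← hA.tsum_add ((summable_sum fun i _ => hB i).mul_left σ)]
  refine tsum_congr fun γ => ?_
  unfold sF
  by_cases f : E.Fam γ
  · simp only [if_pos f]
    rw [h γ f, mul_add, Finset.mul_sum, Finset.mul_sum, Finset.mul_sum]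
    congr 1
    refine Finset.sum_congr rfl fun i _ => ?_
    ring
  · simp only [if_neg f, Finset.sum_const_zero, mul_zero, add_zero]

/-! ### the data -/

/-- the tracers -/
abbrev JO (T : Type) [Fintype T] : Finset (Option T) := Finset.univ.map Function.Embedding.some

/-- **the hypotheses** -/
structure Hyp {P : Type} (N : ℕ) (K δ Λ κ d : ℝ) (k : ℤ) (πT : T → Bool) (πP : P → Bool) (G : T → (Fin 4 → ℝ) → ℝ)
    (x : P → Pt) : Prop where
  tf : ∀ i, Tf1 K δ Λ (G i)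
  rt : ∀ i y, G i y ≠ 0 → (k : ℝ) / N + κ ≤ y 0
  tt : ∀ i i', i ≠ i' → ∀ y z, G i y ≠ 0 → G i' z ≠ 0 → y 1 + d ≤ z 0 ∨ z 1 + d ≤ y 0
  pt : ∀ l, |((x l).1 : ℝ)| ≤ K * N ∧ |((x l).2 : ℝ)| ≤ K * N
  one : (∃ l, πP l = true) ∨ ∃ i, πT i = true
  zer : (∃ l, πP l = false) ∨ ∃ i, πT i = false
  N1 : 1 ≤ N
  Nκ : 3 ≤ κ * N
  Nd : 5 ≤ d * N

/-- near the support -/
def Nr1 (N : ℕ) (G : T → (Fin 4 → ℝ) → ℝ) (i : T) (c : Cfg) : Prop :=
  ∃ y, G i y ≠ 0 ∧ (∀ a, |y a - yN N c a| ≤ 1 / N) ∧ y 0 ≤ yN N c 0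

omit [Fintype T] in
private theorem nr_shift {N : ℕ} (G : T → (Fin 4 → ℝ) → ℝ) {i : T} {c : Cfg} {b : Fin 4} {s : ℝ}
    (hs : s = 0 ∨ (s = 1 / N ∧ b ≠ 0) ∨ s = -(1 / N)) (h : G i (yN N c + Pi.single b s) ≠ 0) : Nr1 N G i c := by
  have n0 : (0 : ℝ) ≤ 1 / N := by positivity
  have hs' : |s| ≤ 1 / N := by
    rcases hs with rfl | ⟨rfl, -⟩ | rfl
    · rwa [abs_zero]
    · rw [abs_of_nonneg n0]
    · rw [abs_neg, abs_of_nonneg n0]
  refine ⟨_, h, fun a => ?_, ?_⟩
  · rw [Pi.add_apply, add_sub_cancel_left]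
    by_cases hab : a = b
    · subst hab
      rwa [Pi.single_eq_same]
    · rwa [Pi.single_eq_of_ne hab, abs_zero]
  · rw [Pi.add_apply]
    by_cases hb : (0 : Fin 4) = b
    · subst hb
      rw [Pi.single_eq_same]
      rcases hs with rfl | ⟨-, h0⟩ | rfl
      · rw [add_zero]
      · exact absurd rfl h0
      · linarith
    · rw [Pi.single_eq_of_ne hb, add_zero]

omit [Fintype T] in
theorem nr_F0 {i : T} {c : Cfg} (h : F0 N G i c ≠ 0) : Nr1 N G i c := by
  refine nr_shift G (b := 1) (s := 0) (Or.inl rfl) ?_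
  rw [Pi.single_zero, add_zero]
  exact h

omit [Fintype T] in
theorem nr_FK {i : T} {c : Cfg} (h : FK N (G i) c ≠ 0) : Nr1 N G i c := by
  by_contra hc
  have z0 : G i (yN N c) = 0 := by
    by_contra h0
    exact hc (nr_F0 h0)
  have z : ∀ b : Fin 4, b ≠ 0 → G i (yN N c + Pi.single b (1 / (N : ℝ))) = 0 := by
    intro b hb
    by_contra h0
    exact hc (nr_shift G (Or.inr (Or.inl ⟨rfl, hb⟩)) h0)
  apply h
  unfold FK D1
  rw [z 1 (by decide), z 2 (by decide), z0]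
  ring

omit [Fintype T] in
theorem nr_FL {i : T} {c : Cfg} (h : FL N (G i) c ≠ 0) : Nr1 N G i c := by
  by_contra hc
  have z0 : G i (yN N c) = 0 := by
    by_contra h0
    exact hc (nr_F0 h0)
  have z : ∀ b : Fin 4, G i (yN N c - Pi.single b (1 / (N : ℝ))) = 0 := by
    intro b
    by_contra h0
    refine hc (nr_shift G (b := b) (Or.inr (Or.inr rfl)) ?_)
    rwa [Pi.single_neg, ← sub_eq_add_neg]
  apply h
  unfold FL
  rw [z 0, z 3, z0]
  ring

omit [Fintype T] in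
theorem nr_upd [DecidableEq T] {i i' : T} {φ : Cfg → ℝ} (hφ : ∀ c, φ c ≠ 0 → Nr1 N G i c) {c : Cfg}
    (h : Function.update (F0 N G) i φ i' c ≠ 0) : Nr1 N G i' c := by
  by_cases e : i' = i
  · subst e
    rw [Function.update_self] at h
    exact hφ c h
  · rw [Function.update_of_ne e] at h
    exact nr_F0 h

section hyp

variable {P : Type} {K δ Λ κ d : ℝ} {k : ℤ} {πT : T → Bool} {πP : P → Bool} {x : P → Pt}

omit [Fintype T] in
private theorem hc_yN (hN : 1 ≤ N) (c : Cfg) (a : Fin 4) : (A6.hc c a : ℝ) = N * yN N c a := by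
  have : (0 : ℝ) < N := by exact_mod_cast hN
  unfold yN
  field_simp

omit [Fintype T] in
theorem Hyp.ht (H : Hyp N K δ Λ κ d k πT πP G x) {i : T} {c : Cfg} (h : Nr1 N G i c) (a : Fin 4) :
    |(A6.hc c a : ℝ)| ≤ K * N + 1 := by
  obtain ⟨y, hy, h1, -⟩ := h
  have n0 : (0 : ℝ) < N := by exact_mod_cast H.N1
  have h2 := ((H.tf i).sup y hy).1 a
  have h3 := h1 a
  rw [hc_yN H.N1, abs_mul, abs_of_pos n0]
  have h4 : |yN N c a| ≤ K + 1 / N := by
    rw [abs_le] at h2 h3 ⊢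
    constructor <;> linarith
  calc (N : ℝ) * |yN N c a| ≤ N * (K + 1 / N) := mul_le_mul_of_nonneg_left h4 n0.le
    _ = K * N + 1 := by field_simp

omit [Fintype T] in
theorem Hyp.left (H : Hyp N K δ Λ κ d k πT πP G x) {i : T} {c : Cfg} (h : Nr1 N G i c) : k + 3 ≤ A6.hc c 0 := by
  obtain ⟨y, hy, -, h1⟩ := h
  have n0 : (0 : ℝ) < N := by exact_mod_cast H.N1
  have h2 := (H.rt i y hy).trans h1
  have h3 : (k : ℝ) + 3 ≤ A6.hc c 0 := by
    rw [hc_yN H.N1]
    have h4 := mul_le_mul_of_nonneg_left h2 n0.le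
    have h5 : (N : ℝ) * (k / N + κ) = k + κ * N := by field_simp
    linarith [H.Nκ]
  exact_mod_cast h3

omit [Fintype T] in
theorem Hyp.sep (H : Hyp N K δ Λ κ d k πT πP G x) {i i' : T} (hi : i ≠ i') {c c' : Cfg} (h : Nr1 N G i c) (h' : Nr1 N G i' c') :
    A6.hc c 1 + 1 < A6.hc c' 0 ∨ A6.hc c' 1 + 1 < A6.hc c 0 := by
  obtain ⟨y, hy, h1, -⟩ := h
  obtain ⟨z, hz, h2, -⟩ := h'
  have n0 : (0 : ℝ) < N := by exact_mod_cast H.N1
  have e : (N : ℝ) * (1 / N) = 1 := by field_simp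
  have key : ∀ (y z : Fin 4 → ℝ) (c c' : Cfg), (∀ a, |y a - yN N c a| ≤ 1 / N) → (∀ a, |z a - yN N c' a| ≤ 1 / N) →
      y 1 + d ≤ z 0 → A6.hc c 1 + 1 < A6.hc c' 0 := by
    intro y z c c' h1 h2 h3
    have a1 := (abs_le.1 (h1 1)).1
    have a2 := (abs_le.1 (h2 0)).2
    have h4 : yN N c 1 + d ≤ yN N c' 0 + 2 * (1 / N) := by linarith
    have h5 := mul_le_mul_of_nonneg_left h4 n0.le
    have h6 : (A6.hc c 1 : ℝ) + 1 < A6.hc c' 0 := by
      rw [hc_yN H.N1 c, hc_yN H.N1 c']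
      have := H.Nd
      nlinarith
    exact_mod_cast h6
  rcases H.tt i i' hi y z hy hz with h3 | h3
  · exact Or.inl (key y z c c' h1 h2 h3)
  · exact Or.inr (key z y c' c h2 h1 h3)

/-- the radius of the box -/
def Rr (N : ℕ) (K : ℝ) : ℤ := ⌊K * N⌋ + 1

omit [Fintype T] in
theorem Hyp.htZ (H : Hyp N K δ Λ κ d k πT πP G x) {i : T} {c : Cfg} (h : Nr1 N G i c) (a : Fin 4) :
    |A6.hc c a| ≤ Rr N K := by
  have h1 := H.ht h a
  have h2 : ((|A6.hc c a| - 1 : ℤ) : ℝ) ≤ K * N := by push_cast; linarith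
  have h3 := Int.le_floor.2 h2
  unfold Rr
  omega

omit [Fintype T] in
theorem Hyp.ptZ (H : Hyp N K δ Λ κ d k πT πP G x) (l : P) : |(x l).1| ≤ Rr N K ∧ |(x l).2| ≤ Rr N K := by
  obtain ⟨h1, h2⟩ := H.pt l
  have h3 : ((|(x l).1| : ℤ) : ℝ) ≤ K * N := by push_cast; exact h1
  have h4 : ((|(x l).2| : ℤ) : ℝ) ≤ K * N := by push_cast; exact h2
  have h5 := Int.le_floor.2 h3
  have h6 := Int.le_floor.2 h4
  unfold Rr
  omega

/-! ### the masses -/

open Classical in
theorem vis_sum (hn : U.NearM LatJ) {u : ℤ → ℝ} (hu : u ∈ LatJ) (R : ℤ) :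
    Summable fun w : Lps => if w ∈ U.Vis (0, 0) R then MU u w.1 else 0 := by
  obtain ⟨m, hm1, hm⟩ := vis_mass hn R
  have e : ∀ w : Lps, ENNReal.ofReal (if w ∈ U.Vis (0, 0) R then MU u w.1 else 0) =
      (U.Vis (0, 0) R).indicator (fun w : Lps => ENNReal.ofReal (MU u w.1)) w := by
    intro w
    by_cases h : w ∈ U.Vis (0, 0) R
    · rw [if_pos h, Set.indicator_of_mem h]
    · rw [if_neg h, Set.indicator_of_notMem h, ENNReal.ofReal_zero]
  have h1 : ∑' w : Lps, ENNReal.ofReal (if w ∈ U.Vis (0, 0) R then MU u w.1 else 0) ≠ ⊤ := by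
    rw [tsum_congr e, ← UId.muU_apply]
    exact ne_top_of_le_ne_top ENNReal.ofReal_ne_top (hm u hu)
  have h2 := ENNReal.summable_toReal h1
  refine h2.congr fun w => ?_
  refine ENNReal.toReal_ofReal ?_
  split_ifs
  · exact MU_nonneg hu _
  · exact le_rfl

/-- **`Wf`** -/
theorem wf_of (hn : U.NearM LatJ) (H : Hyp N K δ Λ κ d k πT πP G x) {n : ℕ} (hn' : (K + 1) * N ≤ n) {l : ℤ}
    (hl : l = k ∨ l = k + 1) {F : T → Cfg → ℝ} (hF : ∀ i c, F i c ≠ 0 → Nr1 N G i c) : Wf (lat bb l) n πT πP x F where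
  box i v h := by
    refine (hexU.mem_box n v).2 fun a => ?_
    have h1 := H.ht (hF i _ h) a
    have n1 : (1 : ℝ) ≤ N := by exact_mod_cast H.N1
    have h2 : |(A6.hc v.1 a : ℝ)| ≤ n := by linarith
    have h3 : ((|A6.hc v.1 a| : ℤ) : ℝ) ≤ n := by push_cast; exact h2
    exact_mod_cast h3
  col i c h p hp := by
    have h1 := H.left (hF i c h)
    have h2 := (A6.in_box (A6.mem_supp.2 hp)).1
    show (if p.1 < l then _ else _) = _
    rw [if_neg (by omega)]
  sep i i' v v' hi h h' := by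
    refine A6.disj_of_supp fun s h1 h2 => ?_
    have b1 := A6.in_box h1
    have b2 := A6.in_box h2
    rcases H.sep hi (hF i _ h) (hF i' _ h') with h3 | h3 <;> omega
  fin v hv := by
    classical
    refine Summable.of_nonneg_of_le (fun w => ?_) (fun w => ?_) (vis_sum hn (lat_LatJ l) (Rr N K + 2))
    · split_ifs
      · exact MU_nonneg (lat_LatJ l) _
      · exact le_rfl
    · by_cases hc : ChiW πT πP x w.1 v
      · have pd : A6.PD v := fun i i' hi => by
          refine A6.disj_of_supp fun s h1 h2 => ?_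
          have b1 := A6.in_box h1
          have b2 := A6.in_box h2
          rcases H.sep hi (hF i _ (hv i)) (hF i' _ (hv i')) with h3 | h3 <;> omega
        have f : E.Fam (U.tO w.1 v) := U.fam_ext w.2 pd fun i => (hc.2 i).1
        have hc' := (chiF_tO (fun i => (hc.2 i).1)).2 hc
        obtain ⟨p, hp, p1, p2⟩ := vis_none f hc'.1 hc'.2 H.one H.zer H.ptZ fun i a => by
          rw [U.co_tO_some]
          exact H.htZ (hF i _ (hv i)) a
        have hm : w ∈ U.Vis (0, 0) (Rr N K + 2) := ⟨p, hp, by rw [sub_zero]; exact p1, by rw [sub_zero]; exact p2⟩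
        rw [if_pos hc, if_pos hm]
        exact le_rfl
      · rw [if_neg hc]
        split_ifs
        · exact MU_nonneg (lat_LatJ l) _
        · exact le_rfl

/-! ### the increment -/

open Classical in
/-- **the pattern function** -/
def PT {P : Type} (u : ℤ → ℝ) (n : ℕ) (πT : T → Bool) (πP : P → Bool) (x : P → Pt) (F : T → Cfg → ℝ) : ℝ :=
  ∑' w : Lps, MU u w.1 * ((if ∀ l, E.sg w.1 (x l).1 (x l).2 = 1 ↔ πP l = true then 1 else 0) *
    ∏ i : T, ∑ v ∈ hexU.box n, if Disjoint (hs w.1) (hs v.1) ∧ (Ins v.1 w.1 ↔ πT i = true) then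
      hexU.M v * F i v.1 else 0)

open Classical in
/-- **from the boxes to the pattern functions** -/
theorem xpot (hn : U.NearM LatJ) (H : Hyp N K δ Λ κ d k πT πP G x) {n : ℕ} (hn' : (K + 1) * N ≤ n) {χ : FX (Option T) → ℝ}
    (hχ1 : ∀ γ, |χ γ| ≤ 1) (hχ : ∀ γ : E.Fm (Option T), E.Fam γ → χ (emb γ) = if ChiF πT πP x γ then 1 else 0) {e : ℝ}
    (h : ∀ᶠ j : ℤ in atTop, ∀ᶠ B : ℤ in atTop, |SE k j B (fun γ => χ γ * gA (JO T) (fG' N G) j (B + 1) γ) -
      SE k k B (fun γ => χ γ * gA (JO T) (fG' N G) k (B + 1) γ)| ≤ e) :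
    |(PT (lat bb k) n πT πP x (F0 N G) + ∑ i, PT (lat bb k) n πT πP x (Function.update (F0 N G) i (FK N (G i)))) -
      (PT (lat bb (k + 1)) n πT πP x (F0 N G) -
        ∑ i, PT (lat bb (k + 1)) n πT πP x (Function.update (F0 N G) i (FL N (G i))))| ≤ e := by
  have w0 : ∀ l, l = k ∨ l = k + 1 → Wf (lat bb l) n πT πP x (F0 N G) := fun l hl =>
    wf_of hn H hn' hl fun i c => nr_F0
  have wK : ∀ l, l = k ∨ l = k + 1 → ∀ i, Wf (lat bb l) n πT πP x (Function.update (F0 N G) i (FK N (G i))) := fun l hl i =>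
    wf_of hn H hn' hl fun i' c => nr_upd fun c => nr_FK
  have wL : ∀ l, l = k ∨ l = k + 1 → ∀ i, Wf (lat bb l) n πT πP x (Function.update (F0 N G) i (FL N (G i))) := fun l hl i =>
    wf_of hn H hn' hl fun i' c => nr_upd fun c => nr_FL
  have eK : FE (lat bb k) (fun γ => χ γ * gRt (JO T) (fG' N G) γ) = PT (lat bb k) n πT πP x (F0 N G) +
      1 * ∑ i, PT (lat bb k) n πT πP x (Function.update (F0 N G) i (FK N (G i))) := by
    have h1 := FE_lin (u := lat bb k) (A := fun γ => χ γ * ∏ i, F0 N G i (E.co (dn γ) (some i)))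
      (H := fun γ => χ γ * gRt (JO T) (fG' N G) γ)
      (B := fun i γ => χ γ * ∏ i', Function.update (F0 N G) i (FK N (G i)) i' (E.co (dn γ) (some i'))) 1
      (fe_pot_sum (w0 k (Or.inl rfl)) hχ) (fun i => fe_pot_sum (wK k (Or.inl rfl) i) hχ) fun γ _ => by
        rw [gRt_eq, dn_emb, mul_add, one_mul, Finset.mul_sum]
    rw [h1, fe_pot (w0 k (Or.inl rfl)) hχ, Finset.sum_congr rfl fun i _ => fe_pot (wK k (Or.inl rfl) i) hχ]
    rfl
  have eL : FE (lat bb (k + 1)) (fun γ => χ γ * gLt (JO T) (fG' N G) γ) = PT (lat bb (k + 1)) n πT πP x (F0 N G) +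
      (-1) * ∑ i, PT (lat bb (k + 1)) n πT πP x (Function.update (F0 N G) i (FL N (G i))) := by
    have h1 := FE_lin (u := lat bb (k + 1)) (A := fun γ => χ γ * ∏ i, F0 N G i (E.co (dn γ) (some i)))
      (H := fun γ => χ γ * gLt (JO T) (fG' N G) γ)
      (B := fun i γ => χ γ * ∏ i', Function.update (F0 N G) i (FL N (G i)) i' (E.co (dn γ) (some i'))) (-1)
      (fe_pot_sum (w0 (k + 1) (Or.inr rfl)) hχ) (fun i => fe_pot_sum (wL (k + 1) (Or.inr rfl) i) hχ) fun γ _ => by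
        rw [gLt_eq, dn_emb, mul_sub, neg_one_mul, Finset.mul_sum, sub_eq_add_neg]
    rw [h1, fe_pot (w0 (k + 1) (Or.inr rfl)) hχ, Finset.sum_congr rfl fun i _ => fe_pot (wL (k + 1) (Or.inr rfl) i) hχ]
    rfl
  have n0 : (0 : ℝ) < N := by exact_mod_cast H.N1
  have fs : Fs (JO T) (fG' N G) (Rr N K - 1) (∏ _i : T, Λ) := by
    refine ⟨fun h h0 i hi a => ?_, fun h => ?_⟩
    · obtain ⟨i', -, rfl⟩ := Finset.mem_map.1 hi
      have h1 := (Finset.prod_ne_zero_iff.1 h0) i' (Finset.mem_univ _)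
      have h2 := ((H.tf i').sup _ h1).1 a
      rw [abs_div, abs_of_pos n0, div_le_iff₀ n0] at h2
      have h3 : ((|h (some i') a| : ℤ) : ℝ) ≤ K * N := by push_cast; exact h2
      have h4 := Int.le_floor.2 h3
      unfold Rr
      show |h (some i') a| ≤ _
      omega
    · unfold fG'
      rw [Finset.abs_prod]
      exact Finset.prod_le_prod (fun _ _ => abs_nonneg _) fun i _ => (H.tf i).bd _
  have hK0 : ∀ h, fG' N G h ≠ 0 → ∀ i ∈ JO T, k + 3 ≤ h i 0 := by
    intro h h0 i hi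
    obtain ⟨i', -, rfl⟩ := Finset.mem_map.1 hi
    have h1 := (Finset.prod_ne_zero_iff.1 h0) i' (Finset.mem_univ _)
    have h2 := H.rt i' _ h1
    have h3 : (k : ℝ) + 3 ≤ (h (some i') 0 : ℝ) := by
      have h4 : (k : ℝ) / N + κ ≤ (h (some i') 0 : ℝ) / N := h2
      have h5 : ((k : ℝ) / N + κ) * N ≤ h (some i') 0 := (le_div_iff₀ n0).1 h4
      have h6 : ((k : ℝ) / N + κ) * N = k + κ * N := by field_simp
      linarith [H.Nκ]
    show k + 3 ≤ h (some i') 0
    exact_mod_cast h3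
  have main := inc_lim hn fs hK0 (by omega) hχ1 (R := Rr N K + 2) (fun γ f hc hb i hi => ?_) h
  · have main' : |FE (lat bb k) (fun γ => χ γ * gRt (JO T) (fG' N G) γ) -
      FE (lat bb (k + 1)) (fun γ => χ γ * gLt (JO T) (fG' N G) γ)| ≤ e := main
    rw [eK, eL, one_mul, neg_one_mul, ← sub_eq_add_neg] at main'
    exact main'
  · rcases i with _ | i
    · rw [hχ γ f] at hc
      have hC : ChiF πT πP x γ := by
        by_contra h0
        exact hc (if_neg h0)
      exact vis_none f hC.1 hC.2 H.one H.zer H.ptZ fun i a => by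
        have := hb (some i) (Finset.mem_map.2 ⟨i, Finset.mem_univ _, rfl⟩) a
        rwa [sub_add_cancel] at this
    · exact absurd (Finset.mem_map.2 ⟨i, Finset.mem_univ _, rfl⟩) hi

end hyp

end

end Pool.Agent.ROT.X
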