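import Pool.Agent.ROT.XProd6
import Pool.Agent.ROT.LSym

/-!
# UNIV, exact side (helper25): the point reflection about the crossing

`rotX j s : SyG (gX j s)` : `(x, y) ↦ (2 j + 1 - x, 2 s - 1 - y)`, the crossing is fixed, the cells are turned by 180 degrees.
`WH j s` = the tables of the strip with the honeycomb outside.

* `WH_rot`, **`WX_rot`**, `W1X_rot` : the weights; `WE_WH` : loops in the columns `≥ k` do not see `k`;
* `ht_rot` : heights; **`cR_rot`**, `cL_rot`, `cT_rot`, `cB_rot` : the coefficients are exchanged;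
* `ExR_rot`, `ExL_rot`, `ExT_rot`, `ExB_rot` : the row `r` becomes the row `2 s - 1 - r`;
* `fam1_rot`, `sz1_rot`, `lp_rot`.
-/

set_option autoImplicit false

namespace Pool.Agent.ROT.X

open Pool.Agent.EXL (Wt YB)
open Pool.Agent.YBC (Dir)
open Pool.Agent.UNI (wR)
open Pool.Agent.ROT.E (Cell IsUn Pt)
open Pool.Agent.ROT.L

noncomputable section

variable {I : Type} {j s : ℤ}

/-- the vertices -/
def rotP (j s : ℤ) : Pt ≃ Pt := Equiv.prodCongr (Equiv.subLeft (2 * j + 1)) (Equiv.subLeft (2 * s - 1))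

theorem rotP_apply (j s : ℤ) (p : Pt) : rotP j s p = (2 * j + 1 - p.1, 2 * s - 1 - p.2) := rfl

theorem rotP_rotP (j s : ℤ) (p : Pt) : rotP j s (rotP j s p) = p := by
  refine Prod.ext ?_ ?_
  · show 2 * j + 1 - (2 * j + 1 - p.1) = p.1
    ring
  · show 2 * s - 1 - (2 * s - 1 - p.2) = p.2
    ring

/-- **the point reflection about the crossing** -/
def rotX (j s : ℤ) : SyG (gX j s) where
  e := Equiv.optionCongr (rotP j s)
  g := ⟨Dir.op, Dir.op, by decide, by decide⟩
  f := ⟨Cell.pr, Cell.pr, by decide, by decide⟩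
  f0 := rfl
  ge := by
    intro v d
    obtain _ | ⟨x, y⟩ := v
    · cases d
      · show ((some (j, s), Dir.S) : VX × Dir) = (some (rotP j s (j + 1, s - 1)), Dir.N.op)
        rw [rotP_apply]
        simp only [Dir.op, Prod.mk.injEq, Option.some.injEq, and_true]
        constructor <;> ring
      · show ((some (j, s - 1), Dir.N) : VX × Dir) = (some (rotP j s (j + 1, s)), Dir.S.op)
        rw [rotP_apply]
        simp only [Dir.op, Prod.mk.injEq, Option.some.injEq, and_true]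
        constructor <;> ring
      · show ((some (j + 1, s - 1), Dir.N) : VX × Dir) = (some (rotP j s (j, s)), Dir.S.op)
        rw [rotP_apply]
        simp only [Dir.op, Prod.mk.injEq, Option.some.injEq, and_true]
        constructor <;> ring
      · show ((some (j + 1, s), Dir.S) : VX × Dir) = (some (rotP j s (j, s - 1)), Dir.N.op)
        rw [rotP_apply]
        simp only [Dir.op, Prod.mk.injEq, Option.some.injEq, and_true]
        constructor <;> ring
    · cases d
      · show ((some (E.nx (rotP j s (x, y)) .W), Dir.E) : VX × Dir) = (some (rotP j s (E.nx (x, y) .E)), Dir.W.op)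
        rw [rotP_apply, rotP_apply]
        simp only [Dir.op, E.nx, Prod.mk.injEq, Option.some.injEq, and_true]
        ring
      · show eX j s (some (2 * j + 1 - x, 2 * s - 1 - y), .S) = (((Equiv.optionCongr (rotP j s)) (eX j s (some (x, y), .N)).1,
          ((eX j s (some (x, y), .N)).2).op) : VX × Dir)
        simp only [eX, Prod.mk.injEq]
        by_cases h1 : x = j ∧ y = s - 1
        · rw [if_neg (by omega), if_pos (by omega), if_pos h1]
          rfl
        · rw [if_neg h1]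
          by_cases h2 : x = j + 1 ∧ y = s - 1
          · rw [if_pos (by omega), if_pos h2]
            rfl
          · rw [if_neg (by omega), if_neg (by omega), if_neg h2]
            show ((some (2 * j + 1 - x, 2 * s - 1 - y - 1), Dir.N) : VX × Dir) = (some (rotP j s (x, y + 1)), Dir.N)
            refine congrArg (fun z : Pt => ((some z, Dir.N) : VX × Dir)) (Prod.ext rfl ?_)
            show 2 * s - 1 - y - 1 = 2 * s - 1 - (y + 1)
            ring
      · show ((some (E.nx (rotP j s (x, y)) .E), Dir.W) : VX × Dir) = (some (rotP j s (E.nx (x, y) .W)), Dir.E.op)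
        rw [rotP_apply, rotP_apply]
        simp only [Dir.op, E.nx, Prod.mk.injEq, Option.some.injEq, and_true]
        ring
      · show eX j s (some (2 * j + 1 - x, 2 * s - 1 - y), .N) = (((Equiv.optionCongr (rotP j s)) (eX j s (some (x, y), .S)).1,
          ((eX j s (some (x, y), .S)).2).op) : VX × Dir)
        simp only [eX, Prod.mk.injEq]
        by_cases h1 : x = j ∧ y = s
        · rw [if_neg (by omega), if_pos (by omega), if_pos h1]
          rfl
        · rw [if_neg h1]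
          by_cases h2 : x = j + 1 ∧ y = s
          · rw [if_pos (by omega), if_pos h2]
            rfl
          · rw [if_neg (by omega), if_neg (by omega), if_neg h2]
            show ((some (2 * j + 1 - x, 2 * s - 1 - y + 1), Dir.S) : VX × Dir) = (some (rotP j s (x, y - 1)), Dir.S)
            refine congrArg (fun z : Pt => ((some z, Dir.S) : VX × Dir)) (Prod.ext rfl ?_)
            show 2 * s - 1 - y + 1 = 2 * s - 1 - (y - 1)
            ring
  p := by decide

/-! ### weights -/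

/-- the tables of the strip with the honeycomb outside -/
def WH (j s : ℤ) : VX → Wt ℝ := WL (fun _ => wR hA) j s (wR dA) (wR bA) (wR hA)

theorem WH_rot (j s : ℤ) (v : VX) : WH j s ((rotX j s).e v) = WH j s v := by
  obtain _ | ⟨x, y⟩ := v
  · rfl
  · show WL (fun _ => wR hA) j s (wR dA) (wR bA) (wR hA) (some (2 * j + 1 - x, 2 * s - 1 - y)) =
      WL (fun _ => wR hA) j s (wR dA) (wR bA) (wR hA) (some (x, y))
    simp only [WL]
    by_cases h1 : x = j
    · rw [if_neg (show ¬ 2 * j + 1 - x = j by omega), if_pos (show 2 * j + 1 - x = j + 1 by omega), if_pos h1]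
      by_cases h2 : y < s
      · rw [if_neg (show ¬ 2 * s - 1 - y < s by omega), if_pos h2]
      · rw [if_pos (show 2 * s - 1 - y < s by omega), if_neg h2]
    · by_cases h3 : x = j + 1
      · rw [if_pos (show 2 * j + 1 - x = j by omega), if_neg h1, if_pos h3]
        by_cases h2 : y < s
        · rw [if_neg (show ¬ 2 * s - 1 - y < s by omega), if_pos h2]
        · rw [if_pos (show 2 * s - 1 - y < s by omega), if_neg h2]
      · rw [if_neg (show ¬ 2 * j + 1 - x = j by omega), if_neg (show ¬ 2 * j + 1 - x = j + 1 by omega), if_neg h1, if_neg h3]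

/-- the reflected family -/
def rt2 (j s : ℤ) (γ : FX I) : FX I := (rotX j s).acF γ

theorem rt2_some (γ : FX I) (p : Pt) (i : I) : rt2 j s γ (some (2 * j + 1 - p.1, 2 * s - 1 - p.2)) i = (γ (some p) i).pr :=
  congrFun ((rotX j s).acF_apply γ (some p)) i

theorem rt2_none (γ : FX I) (i : I) : rt2 j s γ none i = (γ none i).pr :=
  congrFun ((rotX j s).acF_apply γ none) i

theorem pr_o {c : Cell} : c.pr = .o ↔ c = .o := by revert c; decide

theorem rt2_fam (γ : FX I) : Fam (gX j s) (rt2 j s γ) ↔ Fam (gX j s) γ := (rotX j s).fam_iff γ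

theorem wfg_pr (w : Wt ℝ) (φ : I → Cell) : wfg (fun c => c.wt w) (fun i => (φ i).pr) = wfg (fun c => c.wt w) φ :=
  wfg_f E.prS (θ := fun c => c.wt w) (fun c => E.pr_wt w c) φ

/-- **weights** -/
theorem WX_rot (γ : FX I) : WX (WH j s) (rt2 j s γ) = WX (WH j s) γ := by
  classical
  unfold WX rt2
  rw [(rotX j s).supp_acF, Finset.prod_map]
  refine Finset.prod_congr rfl fun v _ => ?_
  show wfg (fun c => c.wt (WH j s ((rotX j s).e v))) ((rotX j s).acF γ ((rotX j s).e v)) = _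
  rw [(rotX j s).acF_apply, WH_rot]
  exact wfg_pr _ _

theorem lf_rot {θ θ' : VX → Cell → ℝ} (h : ∀ v c, θ ((rotX j s).e v) c.pr = θ' v c) (γ : FX I) (i : I) :
    lf θ (rt2 j s γ) i = lf θ' γ i := by
  classical
  unfold lf rt2
  rw [(rotX j s).supp_acF, Finset.prod_map]
  refine Finset.prod_congr rfl fun v _ => ?_
  show θ ((rotX j s).e v) ((rotX j s).acF γ ((rotX j s).e v) i) = _
  rw [(rotX j s).acF_apply]
  exact h v _

/-! ### heights -/

theorem mem_cl_rot {γ : FX I} {i : I} {v : Pt} : v ∈ cl (rt2 j s γ) i ↔ rotP j s v ∈ cl γ i := by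
  rw [mem_cl, mem_cl]
  have h := rt2_some (j := j) (s := s) γ (rotP j s v) i
  rw [show (2 * j + 1 - (rotP j s v).1, 2 * s - 1 - (rotP j s v).2) = v from rotP_rotP j s v] at h
  rw [h, not_iff_not, pr_o]

/-- **heights** -/
theorem ht_rot {γ : FX I} {i : I} (hn : (cl γ i).Nonempty) : ht (rt2 j s γ) i =
    ![2 * j + 1 - ht γ i 1, 2 * j + 1 - ht γ i 0, 2 * s - 1 - ht γ i 3, 2 * s - 1 - ht γ i 2] := by
  have m : ∀ v ∈ cl γ i, rotP j s v ∈ cl (rt2 j s γ) i := fun v hv => by
    rw [mem_cl_rot, rotP_rotP]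
    exact hv
  have e0 : hL (cl (rt2 j s γ) i) = 2 * j + 1 - hR (cl γ i) := by
    obtain ⟨v, hv, e⟩ := hR_mem hn
    refine hL_eq ⟨_, m v hv, ?_⟩ fun w hw => ?_
    · rw [← e]; rfl
    · have h1 := le_hR (mem_cl_rot.1 hw)
      change 2 * j + 1 - w.1 ≤ _ at h1
      omega
  have e1 : hR (cl (rt2 j s γ) i) = 2 * j + 1 - hL (cl γ i) := by
    obtain ⟨v, hv, e⟩ := hL_mem hn
    refine hR_eq ⟨_, m v hv, ?_⟩ fun w hw => ?_
    · rw [← e]; rfl
    · have h1 := hL_le (mem_cl_rot.1 hw)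
      change _ ≤ 2 * j + 1 - w.1 at h1
      omega
  have e2 : hB (cl (rt2 j s γ) i) = 2 * s - 1 - hT (cl γ i) := by
    obtain ⟨v, hv, e⟩ := hT_mem hn
    refine hB_eq ⟨_, m v hv, ?_⟩ fun w hw => ?_
    · rw [← e]; rfl
    · have h1 := le_hT (mem_cl_rot.1 hw)
      change 2 * s - 1 - w.2 ≤ _ at h1
      omega
  have e3 : hT (cl (rt2 j s γ) i) = 2 * s - 1 - hB (cl γ i) := by
    obtain ⟨v, hv, e⟩ := hB_mem hn
    refine hT_eq ⟨_, m v hv, ?_⟩ fun w hw => ?_
    · rw [← e]; rfl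
    · have h1 := hB_le (mem_cl_rot.1 hw)
      change _ ≤ 2 * s - 1 - w.2 at h1
      omega
  unfold ht
  rw [e0, e1, e2, e3]
  rfl

/-! ### the coefficients -/

theorem rt_pr (c : Cell) : rt c.pr = rt c := by
  unfold rt
  rw [E.pr_wt, E.pr_wt]

theorem thL_rot (R : ℤ) (v : VX) (c : Cell) : thL j s (2 * j + 1 - R) ((rotX j s).e v) c.pr = thR j s R v c := by
  obtain _ | ⟨x, y⟩ := v
  · show (if 2 * j + 1 - R = j + 1 ∧ c.pr ≠ .o then _ else (1 : ℝ)) = if R = j ∧ c ≠ .o then _ else 1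
    refine if_congr ?_ rfl rfl
    rw [ne_eq, ne_eq, pr_o]
    exact and_congr (by omega) Iff.rfl
  · show (if 2 * j + 1 - x = 2 * j + 1 - R ∧ (j + 1 < 2 * j + 1 - R ∨ (2 * j + 1 - R = j + 1 ∧ 2 * s - 1 - y < s)) then
      rt c.pr else 1) = if x = R ∧ (R < j ∨ (R = j ∧ s ≤ y)) then rt c else 1
    rw [rt_pr]
    exact if_congr (by omega) rfl rfl

theorem thR_rot (R : ℤ) (v : VX) (c : Cell) : thR j s (2 * j + 1 - R) ((rotX j s).e v) c.pr = thL j s R v c := by
  obtain _ | ⟨x, y⟩ := v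
  · show (if 2 * j + 1 - R = j ∧ c.pr ≠ .o then _ else (1 : ℝ)) = if R = j + 1 ∧ c ≠ .o then _ else 1
    refine if_congr ?_ rfl rfl
    rw [ne_eq, ne_eq, pr_o]
    exact and_congr (by omega) Iff.rfl
  · show (if 2 * j + 1 - x = 2 * j + 1 - R ∧ (2 * j + 1 - R < j ∨ (2 * j + 1 - R = j ∧ s ≤ 2 * s - 1 - y)) then
      rt c.pr else 1) = if x = R ∧ (j + 1 < R ∨ (R = j + 1 ∧ y < s)) then rt c else 1
    rw [rt_pr]
    exact if_congr (by omega) rfl rfl

theorem qb_rot (t : ℤ) : qb j s (2 * s - 1 - t) = 2 * j + 1 - qb j s t := by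
  unfold qb
  split_ifs <;> omega

theorem tf_pr (x : ℤ) (c : Cell) : tf (-x) c.pr = bf x c := by
  unfold tf bf
  by_cases h0 : c = .o
  · rw [if_pos (pr_o.2 h0), if_pos h0]
  rw [if_neg (fun h => h0 (pr_o.1 h)), if_neg h0]
  by_cases h1 : 0 < x
  · rw [if_pos (show -x < 0 by omega), if_pos h1]
  rw [if_neg (show ¬ -x < 0 by omega), if_neg h1]
  by_cases h2 : x = 0
  · rw [if_pos (show -x = 0 by omega), if_pos h2]
    exact if_congr (by revert h0; cases c <;> simp [E.Cell.pr]) rfl rfl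
  rw [if_neg (show ¬ -x = 0 by omega), if_neg h2]
  revert h0
  cases c <;> simp [E.Cell.pr]

theorem bf_pr (x : ℤ) (c : Cell) : bf (-x) c.pr = tf x c := by
  have h := tf_pr (-x) c.pr
  rw [neg_neg, show c.pr.pr = c by cases c <;> rfl] at h
  exact h.symm

theorem thT_rot (t : ℤ) (v : VX) (c : Cell) : thT j s (2 * s - 1 - t) ((rotX j s).e v) c.pr = thB j s t v c := by
  obtain _ | ⟨x, y⟩ := v
  · show (if 2 * s - 1 - t = s - 1 ∧ c.pr ≠ .o then (0 : ℝ) else 1) = if t = s ∧ c ≠ .o then 0 else 1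
    refine if_congr ?_ rfl rfl
    rw [ne_eq, ne_eq, pr_o]
    exact and_congr (by omega) Iff.rfl
  · show (if 2 * s - 1 - y = 2 * s - 1 - t then tf (2 * j + 1 - x - qb j s (2 * s - 1 - t)) c.pr else 1) =
      if y = t then bf (x - qb j s t) c else 1
    rw [qb_rot, show 2 * j + 1 - x - (2 * j + 1 - qb j s t) = -(x - qb j s t) by ring, tf_pr]
    exact if_congr (by omega) rfl rfl

theorem thB_rot (t : ℤ) (v : VX) (c : Cell) : thB j s (2 * s - 1 - t) ((rotX j s).e v) c.pr = thT j s t v c := by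
  obtain _ | ⟨x, y⟩ := v
  · show (if 2 * s - 1 - t = s ∧ c.pr ≠ .o then (0 : ℝ) else 1) = if t = s - 1 ∧ c ≠ .o then 0 else 1
    refine if_congr ?_ rfl rfl
    rw [ne_eq, ne_eq, pr_o]
    exact and_congr (by omega) Iff.rfl
  · show (if 2 * s - 1 - y = 2 * s - 1 - t then bf (2 * j + 1 - x - qb j s (2 * s - 1 - t)) c.pr else 1) =
      if y = t then tf (x - qb j s t) c else 1
    rw [qb_rot, show 2 * j + 1 - x - (2 * j + 1 - qb j s t) = -(x - qb j s t) by ring, bf_pr]
    exact if_congr (by omega) rfl rfl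

theorem cL_rot {γ : FX I} {i : I} (hn : (cl γ i).Nonempty) : cL j s (rt2 j s γ) i = cR j s γ i := by
  unfold cL cR
  rw [ht_rot hn]
  exact lf_rot (thL_rot _) γ i

theorem cR_rot {γ : FX I} {i : I} (hn : (cl γ i).Nonempty) : cR j s (rt2 j s γ) i = cL j s γ i := by
  unfold cL cR
  rw [ht_rot hn]
  exact lf_rot (thR_rot _) γ i

theorem cT_rot {γ : FX I} {i : I} (hn : (cl γ i).Nonempty) : cT j s (rt2 j s γ) i = cB j s γ i := by
  unfold cT cB
  rw [ht_rot hn]
  exact lf_rot (thT_rot _) γ i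

theorem cB_rot {γ : FX I} {i : I} (hn : (cl γ i).Nonempty) : cB j s (rt2 j s γ) i = cT j s γ i := by
  unfold cT cB
  rw [ht_rot hn]
  exact lf_rot (thB_rot _) γ i

/-! ### extreme members -/

theorem Rg_rot {r : ℤ} {v : VX} : (rotX j s).e v ∈ Rg j (2 * s - 1 - r) ↔ v ∈ Rg j r := by
  obtain _ | ⟨x, y⟩ := v
  · exact iff_of_true (Or.inl rfl) (Or.inl rfl)
  · show (some (2 * j + 1 - x, 2 * s - 1 - y) : VX) ∈ _ ↔ _
    simp only [Rg, Set.mem_insert_iff, reduceCtorEq, Set.mem_singleton_iff, Option.some.injEq, Prod.mk.injEq, false_or]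
    omega

theorem Us_rot {r : ℤ} {γ : FX I} {i : I} : Us j (2 * s - 1 - r) (rt2 j s γ) i ↔ Us j r γ i := by
  constructor
  · rintro ⟨v, hv, h⟩
    obtain ⟨w, rfl⟩ := (rotX j s).e.surjective v
    exact ⟨w, Rg_rot.1 hv, ((rotX j s).acF_app_ne γ w i).1 h⟩
  · rintro ⟨v, hv, h⟩
    exact ⟨_, Rg_rot.2 hv, ((rotX j s).acF_app_ne γ v i).2 h⟩

theorem Off_rot {r : ℤ} {γ : FX I} {i : I} {P : Pt → Prop} :
    Off j (2 * s - 1 - r) (rt2 j s γ) i P ↔ Off j r γ i fun p => P (rotP j s p) := by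
  constructor
  · intro h p hp hc
    refine h (rotP j s p) (fun h' => hp (Rg_rot.1 (show (rotX j s).e (some p) ∈ _ from h'))) ?_
    exact ((rotX j s).acF_app_ne γ (some p) i).2 hc
  · intro h p hp hc
    have h1 := h (rotP j s p) (fun h' => hp ?_) ?_
    · change P (rotP j s (rotP j s p)) at h1
      rwa [rotP_rotP] at h1
    · have h2 := (Rg_rot (j := j) (s := s)).2 h'
      change (some (rotP j s (rotP j s p)) : VX) ∈ _ at h2
      rwa [rotP_rotP] at h2
    · have h2 := ((rotX j s).acF_app_ne γ (some (rotP j s p)) i).1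
      refine h2 ?_
      change (rt2 j s γ (some (rotP j s (rotP j s p))) i) ≠ .o
      rw [rotP_rotP]
      exact hc

theorem ExL_rot {r : ℤ} {γ : FX I} {i : I} : ExL j (2 * s - 1 - r) (rt2 j s γ) i ↔ ExR j r γ i := by
  unfold ExL ExR
  rw [Us_rot, Off_rot]
  refine and_congr Iff.rfl (forall_congr' fun p => forall_congr' fun _ => forall_congr' fun _ => ?_)
  show j + 1 ≤ 2 * j + 1 - p.1 ↔ p.1 ≤ j
  omega

theorem ExR_rot {r : ℤ} {γ : FX I} {i : I} : ExR j (2 * s - 1 - r) (rt2 j s γ) i ↔ ExL j r γ i := by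
  unfold ExL ExR
  rw [Us_rot, Off_rot]
  refine and_congr Iff.rfl (forall_congr' fun p => forall_congr' fun _ => forall_congr' fun _ => ?_)
  show 2 * j + 1 - p.1 ≤ j ↔ j + 1 ≤ p.1
  omega

theorem ExT_rot {r : ℤ} {γ : FX I} {i : I} : ExT j (2 * s - 1 - r) (rt2 j s γ) i ↔ ExB j r γ i := by
  unfold ExT ExB
  rw [Us_rot, Off_rot]
  refine and_congr Iff.rfl (forall_congr' fun p => forall_congr' fun _ => forall_congr' fun _ => ?_)
  show 2 * s - 1 - p.2 < 2 * s - 1 - r ∨ (2 * s - 1 - p.2 = 2 * s - 1 - r ∧ j + 1 < 2 * j + 1 - p.1) ↔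
    r < p.2 ∨ (p.2 = r ∧ p.1 < j)
  omega

theorem ExB_rot {r : ℤ} {γ : FX I} {i : I} : ExB j (2 * s - 1 - r) (rt2 j s γ) i ↔ ExT j r γ i := by
  unfold ExT ExB
  rw [Us_rot, Off_rot]
  refine and_congr Iff.rfl (forall_congr' fun p => forall_congr' fun _ => forall_congr' fun _ => ?_)
  show 2 * s - 1 - r < 2 * s - 1 - p.2 ∨ (2 * s - 1 - p.2 = 2 * s - 1 - r ∧ 2 * j + 1 - p.1 < j) ↔
    p.2 < r ∨ (p.2 = r ∧ j + 1 < p.1)
  omega

/-! ### one loop -/

/-- the reflected loop -/
def rot1 (j s : ℤ) (δ : VX →₀ Cell) : VX →₀ Cell := (rotX j s).ac δ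

theorem fam1_rot (δ : VX →₀ Cell) : fam1 (rot1 j s δ) = rt2 j s (fam1 δ) := by
  ext1 v
  obtain ⟨w, rfl⟩ := (rotX j s).e.surjective v
  funext a
  show (rotX j s).ac δ ((rotX j s).e w) = (rotX j s).acF (fam1 δ) ((rotX j s).e w) a
  rw [(rotX j s).ac_apply, (rotX j s).acF_apply]
  rfl

theorem rot1_lp {δ : VX →₀ Cell} : Lp (gX j s) (rot1 j s δ) ↔ Lp (gX j s) δ := (rotX j s).lp_iff δ

theorem rot1_some (δ : VX →₀ Cell) (p : Pt) : rot1 j s δ (some (2 * j + 1 - p.1, 2 * s - 1 - p.2)) = (δ (some p)).pr :=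
  (rotX j s).ac_apply δ (some p)

theorem rot1_none (δ : VX →₀ Cell) : rot1 j s δ none = (δ none).pr := (rotX j s).ac_apply δ none

theorem rot1_rot1 (δ : VX →₀ Cell) : rot1 j s (rot1 j s δ) = δ := by
  ext1 v
  have hpp : ∀ c : Cell, c.pr.pr = c := by decide
  obtain _ | p := v
  · rw [rot1_none, rot1_none, hpp]
  · have h := rot1_some (j := j) (s := s) (rot1 j s δ) (rotP j s p)
    have h2 := rot1_some (j := j) (s := s) δ p
    rw [show (2 * j + 1 - (rotP j s p).1, 2 * s - 1 - (rotP j s p).2) = p from rotP_rotP j s p] at h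
    rw [h, show rotP j s p = (2 * j + 1 - p.1, 2 * s - 1 - p.2) from rfl, h2, hpp]

theorem rot1_inj : Function.Injective (rot1 j s) := fun δ δ' h => by
  rw [← rot1_rot1 (j := j) (s := s) δ, h, rot1_rot1]

theorem W1X_rot (δ : VX →₀ Cell) : W1X (WH j s) (rot1 j s δ) = W1X (WH j s) δ := by
  rw [← W1X_eq, fam1_rot, WX_rot, W1X_eq]

/-- loops in the columns `≥ k` do not see `k` -/
theorem WE_WH {k : ℤ} {δ : VX →₀ Cell} (h : ∀ p : Pt, δ (some p) ≠ .o → k ≤ p.1) :
    W1X (WE k j s) δ = W1X (WH j s) δ := by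
  refine Finset.prod_congr rfl fun v hv => ?_
  rw [Finsupp.mem_support_iff] at hv
  congr 1
  obtain _ | p := v
  · rfl
  · have h1 := h p hv
    simp only [WE, WH, WL]
    by_cases h2 : p.1 = j
    · rw [if_pos h2, if_pos h2]
    · rw [if_neg h2, if_neg h2]
      by_cases h3 : p.1 = j + 1
      · rw [if_pos h3, if_pos h3]
      · rw [if_neg h3, if_neg h3]
        unfold latj
        rw [if_neg (by omega)]

theorem sz1_rot {δ : VX →₀ Cell} (hn : (cl (fam1 δ) ()).Nonempty) : sz1 j s (rot1 j s δ) = sz1 j s δ := by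
  unfold sz1
  rw [fam1_rot, cR_rot hn, cL_rot hn, cT_rot hn, cB_rot hn]
  ring

end

end Pool.Agent.ROT.X
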