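import Pool.Agent.ROT.XTab
import Pool.Agent.ROT.LRow

/-!
# UNIV, exact side (helper25): the identity of a row with finite weights

Families on the graph `gX j s` (one crossing in the columns `j`, `j + 1` between the rows `s - 1` and `s`), arbitrary weights
`W : VX → Wt ℝ` at the vertices and at the crossing.

* `WX W γ` : the weight; `WL w j s a c b` : columns `w`, crossing `a`, column `j` = `c` below the crossing and `b` above,
  column `j + 1` = `b` below and `c` above;
* `WX_cls` : the weight on a class of the row `r`; `cls_sumX` : the sum over a class as a sum over the triples of cells;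
* **`row_eq_of`** : two functions with the same sums over every class of the row `r` (graphs `1` : crossing above the row,
  `2` : below) have the same sums over all families; `row_err_of` : up to an exceptional set of classes;
* **`cls_eq`**, **`row_eq`** : the row swap for weights with `YB a c b` and a function which is constant on the classes.
-/

set_option autoImplicit false

namespace Pool.Agent.ROT.X

open Pool.Agent.EXL (Wt YB)
open Pool.Agent.YBC (Dir)
open Pool.Agent.ROT.E (Cell IsUn Pt)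
open Pool.Agent.ROT.E.Lab (un_unique un_zero)
open Pool.Agent.ROT.L

noncomputable section

variable {I : Type} {j r : ℤ} {t : Fin 3} {γ γ' : FX I} {W W' : VX → Wt ℝ}

/-! ### weights -/

/-- **the weight of a family**: `W v` = the table of weights of the vertex `v` (`v = none`: the crossing) -/
def WX (W : VX → Wt ℝ) (γ : FX I) : ℝ := ∏ v ∈ γ.support, wfg (fun c => c.wt (W v)) (γ v)

/-- the tables of the lattice with a crossing below the row `s`, in the columns `j`, `j + 1` -/
def WL (w : ℤ → Wt ℝ) (j s : ℤ) (a c b : Wt ℝ) : VX → Wt ℝ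
  | none => a
  | some v => if v.1 = j then (if v.2 < s then c else b) else if v.1 = j + 1 then (if v.2 < s then b else c) else w v.1

theorem wfg_unX {θ : Cell → ℝ} {f : I → Cell} {c : Cell} (h : IsUn f c) : wfg θ f = θ c := by
  classical
  rw [wfg, Finset.sum_eq_single c]
  · rw [if_pos h]
  · intro b _ hb
    rw [if_neg fun h' => hb (un_unique h' h)]
  · intro h1; exact (h1 (Finset.mem_univ _)).elim

theorem wfg_one (w : Wt ℝ) : wfg (fun c => c.wt w) (0 : I → Cell) = 1 := by
  show wfg (fun c => c.wt w) (fun _ : I => Cell.o) = 1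
  rw [wfg_unX un_zero]
  rfl

open Classical in
theorem WX_eq {s : Finset VX} (h : γ.support ⊆ s) : WX W γ = ∏ v ∈ s, wfg (fun c => c.wt (W v)) (γ v) := by
  refine Finset.prod_subset h fun v _ hv => ?_
  rw [Finsupp.notMem_support_iff] at hv
  rw [hv, wfg_one]

/-- the weight depends on the tables of the visited vertices only -/
theorem WX_congr (h : ∀ v, γ v ≠ 0 → W v = W' v) : WX W γ = WX W' γ :=
  Finset.prod_congr rfl fun v hv => by rw [h v (Finsupp.mem_support_iff.1 hv)]

/-- the product outside of the region -/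
def OX (W : VX → Wt ℝ) (j r : ℤ) (γ : FX I) : ℝ := ∏ v ∈ So j r γ, wfg (fun c => c.wt (W v)) (γ v)

theorem mem_So' {v : VX} : v ∈ So j r γ ↔ v ∉ Rg j r ∧ γ v ≠ 0 := by
  simp only [So, Finset.mem_erase, Finsupp.mem_support_iff, Rg, Set.mem_insert_iff, Set.mem_singleton_iff, not_or]
  tauto

theorem OX_congr (h : ∀ v, v ∉ Rg j r → W v = W' v) : OX W j r γ = OX W' j r γ :=
  Finset.prod_congr rfl fun v hv => by rw [h v (mem_So'.1 hv).1]

/-- **the weight of a family of the class** -/
theorem WX_cls (out : ∀ v, v ∉ Rg j r → γ v = γ' v) {c : Cell × Cell × Cell} (h0 : IsUn (γ' none) c.1)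
    (h1 : IsUn (γ' (some (j, r))) c.2.1) (h2 : IsUn (γ' (some (j + 1, r))) c.2.2) :
    WX W γ' = OX W j r γ * (c.1.wt (W none) * (c.2.1.wt (W (some (j, r))) * c.2.2.wt (W (some (j + 1, r))))) := by
  classical
  have sup : γ'.support ⊆ insert none (insert (some (j, r)) (insert (some (j + 1, r)) (So j r γ))) := by
    intro v hv
    simp only [Finset.mem_insert]
    by_cases h : v ∈ Rg j r
    · simp only [Rg, Set.mem_insert_iff, Set.mem_singleton_iff] at h
      tauto
    · right; right; right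
      rw [mem_So']
      exact ⟨h, by rw [out v h]; exact Finsupp.mem_support_iff.1 hv⟩
  have n0 : (none : VX) ∉ So j r γ := fun h => (mem_So'.1 h).1 (Or.inl rfl)
  have n1 : (some (j, r) : VX) ∉ So j r γ := fun h => (mem_So'.1 h).1 (Or.inr (Or.inl rfl))
  have n2 : (some (j + 1, r) : VX) ∉ So j r γ := fun h => (mem_So'.1 h).1 (Or.inr (Or.inr rfl))
  have e : ∏ v ∈ So j r γ, wfg (fun c => c.wt (W v)) (γ' v) = OX W j r γ :=
    Finset.prod_congr rfl fun v hv => by rw [out v (mem_So'.1 hv).1]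
  rw [WX_eq sup, Finset.prod_insert, Finset.prod_insert, Finset.prod_insert n2, e, wfg_unX h0, wfg_unX h1, wfg_unX h2]
  · ring
  · simp only [Finset.mem_insert, Option.some.injEq, Prod.mk.injEq, and_true, n1, or_false]
    omega
  · simp only [Finset.mem_insert, reduceCtorEq, n0, or_self, not_false_eq_true]

open Classical in
/-- **the sum over a class** of weight times a function of the three cells -/
theorem cls_sumX (f : Fam (Gt j r t) γ) (g : Gd (Rg j r) γ) : ∃ q : Fin 6 → Fin 6, ∀ (t' : Fin 3) (W : VX → Wt ℝ)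
    (A : FX I → ℝ) (φ : Cell × Cell × Cell → ℝ),
    (∀ γ' c, Eq6 (Rg j r) (Gt j r t) (Gt j r t') γ γ' → IsUn (γ' none) c.1 → IsUn (γ' (some (j, r))) c.2.1 →
      IsUn (γ' (some (j + 1, r))) c.2.2 → A γ' = φ c) →
    ∑' γ' : FX I, (if Eq6 (Rg j r) (Gt j r t) (Gt j r t') γ γ' then WX W γ' * A γ' else 0) =
      OX W j r γ * ∑ c : Cell × Cell × Cell, if conn t' ![c.1, c.2.1, c.2.2] = some q then
        c.1.wt (W none) * (c.2.1.wt (W (some (j, r))) * c.2.2.wt (W (some (j + 1, r)))) * φ c else 0 := by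
  obtain ⟨q, hq⟩ := cls_sum f g
  refine ⟨q, fun t' W A φ h => ?_⟩
  rw [hq t' (fun γ' => WX W γ' * A γ') (fun c => OX W j r γ * (c.1.wt (W none) * (c.2.1.wt (W (some (j, r))) *
    c.2.2.wt (W (some (j + 1, r)))) * φ c)) fun γ' c e h0 h1 h2 => by
      rw [WX_cls e.out h0 h1 h2, h γ' c e h0 h1 h2]; ring, Finset.mul_sum]
  refine Finset.sum_congr rfl fun c _ => ?_
  split_ifs
  · rfl
  · rw [mul_zero]

/-! ### partition into classes -/

/-- the classes of the pairs (graph, family) -/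
private def stdX (I : Type) (j r : ℤ) : Setoid (Fin 3 × FX I) where
  r a b := a = b ∨ Eq6 (Rg j r) (Gt j r a.1) (Gt j r b.1) a.2 b.2
  iseqv := by
    refine ⟨fun a => Or.inl rfl, fun {a b} h => ?_, fun {a b c} h h' => ?_⟩
    · rcases h with rfl | h
      · exact Or.inl rfl
      · exact Or.inr (h.symm (agr _ _))
    · rcases h with rfl | h
      · exact h'
      · rcases h' with rfl | h'
        · exact Or.inr h
        · exact Or.inr (h.trans (agr _ _) h')

open Classical in
private theorem tsum_finX {S : Finset (FX I)} {f : FX I → ℝ} (h : ∀ γ, f γ ≠ 0 → γ ∈ S) :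
    ∑' γ : FX I, f γ = ∑ γ ∈ S, f γ :=
  tsum_eq_sum fun γ hγ => by
    by_contra h0
    exact hγ (h γ h0)

open Classical in
/-- **the same sums over every class ⟹ the same sums over all families** (graph `1`: the crossing above the row `r`,
graph `2`: below) -/
theorem row_eq_of {F1 F2 : FX I → ℝ} (fin1 : {γ | F1 γ ≠ 0}.Finite) (fin2 : {γ | F2 γ ≠ 0}.Finite)
    (gd1 : ∀ γ, F1 γ ≠ 0 → Gd (Rg j r) γ) (gd2 : ∀ γ, F2 γ ≠ 0 → Gd (Rg j r) γ)
    (cl : ∀ (t : Fin 3) (γ : FX I), t ≠ 0 → Fam (Gt j r t) γ → Gd (Rg j r) γ →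
      ∑' γ' : FX I, (if Eq6 (Rg j r) (Gt j r t) (Gt j r 1) γ γ' then F1 γ' else 0) =
        ∑' γ' : FX I, if Eq6 (Rg j r) (Gt j r t) (Gt j r 2) γ γ' then F2 γ' else 0) :
    ∑' γ : FX I, (if Fam (gX j (r + 1)) γ then F1 γ else 0) = ∑' γ : FX I, if Fam (gX j r) γ then F2 γ else 0 := by
  set S : Finset (FX I) := fin1.toFinset ∪ fin2.toFinset with hS
  have mS : ∀ γ, γ ∈ S ↔ F1 γ ≠ 0 ∨ F2 γ ≠ 0 := fun γ => by
    rw [hS, Finset.mem_union, Set.Finite.mem_toFinset, Set.Finite.mem_toFinset]; exact Iff.rfl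
  have gS : ∀ γ, γ ∈ S → Gd (Rg j r) γ := fun γ h => by
    rcases (mS γ).1 h with h | h
    · exact gd1 γ h
    · exact gd2 γ h
  set F : Fin 3 × FX I → ℝ := fun a => if a.1 = 1 then F1 a.2 else -F2 a.2 with hF
  have F1' : ∀ γ, F (1, γ) = F1 γ := fun γ => if_pos rfl
  have F2' : ∀ γ, F (2, γ) = -F2 γ := fun γ => if_neg (by decide : (2 : Fin 3) ≠ 1)
  set T : Finset (Fin 3 × FX I) := (({1, 2} : Finset (Fin 3)) ×ˢ S).filter fun a => Fam (Gt j r a.1) a.2 with hT
  have mT : ∀ a, a ∈ T ↔ (a.1 = 1 ∨ a.1 = 2) ∧ a.2 ∈ S ∧ Fam (Gt j r a.1) a.2 := fun a => by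
    rw [hT, Finset.mem_filter, Finset.mem_product]
    simp [and_assoc]
  have h1 : ∑' γ : FX I, (if Fam (gX j (r + 1)) γ then F1 γ else 0) = ∑ γ ∈ S, if Fam (Gt j r 1) γ then F (1, γ) else 0 := by
    rw [tsum_finX (S := S) fun γ h => ?_]
    · exact Finset.sum_congr rfl fun γ _ => by rw [F1']; rfl
    · rw [mS]
      left
      intro h0
      apply h
      rw [h0, ite_self]
  have h2 : ∑' γ : FX I, (if Fam (gX j r) γ then F2 γ else 0) = -∑ γ ∈ S, if Fam (Gt j r 2) γ then F (2, γ) else 0 := by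
    rw [tsum_finX (S := S) fun γ h => ?_]
    · rw [← Finset.sum_neg_distrib]
      refine Finset.sum_congr rfl fun γ _ => ?_
      rw [F2']
      by_cases h : Fam (gX j r) γ
      · rw [if_pos h, if_pos (show Fam (Gt j r 2) γ from h), neg_neg]
      · rw [if_neg h, if_neg (show ¬ Fam (Gt j r 2) γ from h), neg_zero]
    · rw [mS]
      right
      intro h0
      apply h
      rw [h0, ite_self]
  have h3 : (∑ γ ∈ S, if Fam (Gt j r 1) γ then F (1, γ) else 0) + (∑ γ ∈ S, if Fam (Gt j r 2) γ then F (2, γ) else 0) =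
      ∑ a ∈ T, F a := by
    rw [hT, Finset.sum_filter, Finset.sum_product, Finset.sum_pair (by decide)]
  suffices hs : ∑ a ∈ T, F a = 0 by
    rw [h1, h2]
    linarith
  refine Finset.sum_cancels_of_partition_cancels (stdX I j r) fun x hx => ?_
  obtain ⟨t, γ⟩ := x
  rw [mT] at hx
  obtain ⟨ht, hγ, hf⟩ := hx
  have ht0 : t ≠ 0 := by
    rintro rfl
    rcases ht with h | h
    · exact absurd (show (0 : Fin 3) = 1 from h) (by decide)
    · exact absurd (show (0 : Fin 3) = 2 from h) (by decide)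
  have hgd := gS γ hγ
  have self : Eq6 (Rg j r) (Gt j r t) (Gt j r t) γ γ := Eq6.rfl' hf hgd
  have rel : ∀ a : Fin 3 × FX I, (stdX I j r).r a (t, γ) ↔ Eq6 (Rg j r) (Gt j r t) (Gt j r a.1) γ a.2 := by
    intro a
    constructor
    · rintro (rfl | h)
      · exact self
      · exact h.symm (agr _ _)
    · intro h
      exact Or.inr (h.symm (agr _ _))
  have step : ∑ a ∈ T.filter (fun a => (stdX I j r).r a (t, γ)), F a =
      ∑ a ∈ ({1, 2} : Finset (Fin 3)) ×ˢ S, if Eq6 (Rg j r) (Gt j r t) (Gt j r a.1) γ a.2 then F a else 0 := by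
    rw [hT, Finset.filter_filter, Finset.sum_filter]
    refine Finset.sum_congr rfl fun a _ => ?_
    by_cases h : Eq6 (Rg j r) (Gt j r t) (Gt j r a.1) γ a.2
    · rw [if_pos h, if_pos ⟨h.fam', (rel a).2 h⟩]
    · rw [if_neg h, if_neg fun h' => h ((rel a).1 h'.2)]
  have s1 : ∑ γ' ∈ S, (if Eq6 (Rg j r) (Gt j r t) (Gt j r 1) γ γ' then F (1, γ') else 0) =
      ∑' γ' : FX I, if Eq6 (Rg j r) (Gt j r t) (Gt j r 1) γ γ' then F1 γ' else 0 := by
    rw [tsum_finX (S := S) fun γ' h => ?_]
    · exact Finset.sum_congr rfl fun γ' _ => by rw [F1']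
    · rw [mS]
      left
      intro h0
      apply h
      rw [h0, ite_self]
  have s2 : ∑ γ' ∈ S, (if Eq6 (Rg j r) (Gt j r t) (Gt j r 2) γ γ' then F (2, γ') else 0) =
      -∑' γ' : FX I, if Eq6 (Rg j r) (Gt j r t) (Gt j r 2) γ γ' then F2 γ' else 0 := by
    rw [tsum_finX (S := S) fun γ' h => ?_]
    · rw [← Finset.sum_neg_distrib]
      refine Finset.sum_congr rfl fun γ' _ => ?_
      rw [F2']
      split_ifs
      · rfl
      · rw [neg_zero]
    · rw [mS]
      right
      intro h0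
      apply h
      rw [h0, ite_self]
  have e := cl t γ ht0 hf hgd
  show ∑ a ∈ T.filter (fun a => (stdX I j r).r a (t, γ)), F a = 0
  rw [step, Finset.sum_product, Finset.sum_pair (by decide), s1, s2, e, add_neg_cancel]

open Classical in
/-- the same up to an exceptional set `B` of classes -/
theorem row_err_of {F1 F2 : FX I → ℝ} (B : Fin 3 → FX I → Prop)
    (hB : ∀ (t t' : Fin 3) (γ γ' : FX I), t ≠ 0 → t' ≠ 0 → Eq6 (Rg j r) (Gt j r t) (Gt j r t') γ γ' → (B t γ ↔ B t' γ'))
    (fin1 : {γ | F1 γ ≠ 0}.Finite) (fin2 : {γ | F2 γ ≠ 0}.Finite)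
    (gd1 : ∀ γ, F1 γ ≠ 0 → Gd (Rg j r) γ) (gd2 : ∀ γ, F2 γ ≠ 0 → Gd (Rg j r) γ)
    (cl : ∀ (t : Fin 3) (γ : FX I), t ≠ 0 → Fam (Gt j r t) γ → Gd (Rg j r) γ → ¬ B t γ →
      ∑' γ' : FX I, (if Eq6 (Rg j r) (Gt j r t) (Gt j r 1) γ γ' then F1 γ' else 0) =
        ∑' γ' : FX I, if Eq6 (Rg j r) (Gt j r t) (Gt j r 2) γ γ' then F2 γ' else 0) :
    |∑' γ : FX I, (if Fam (gX j (r + 1)) γ then F1 γ else 0) - ∑' γ : FX I, (if Fam (gX j r) γ then F2 γ else 0)| ≤
      ∑' γ : FX I, (if Fam (gX j (r + 1)) γ ∧ B 1 γ then |F1 γ| else 0) +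
        ∑' γ : FX I, if Fam (gX j r) γ ∧ B 2 γ then |F2 γ| else 0 := by
  have spl : ∀ (P : FX I → Prop) (Q : FX I → Prop) (F : FX I → ℝ), {γ | F γ ≠ 0}.Finite →
      ∑' γ : FX I, (if P γ then F γ else 0) = ∑' γ : FX I, (if P γ then (if Q γ then 0 else F γ) else 0) +
        ∑' γ : FX I, (if P γ ∧ Q γ then F γ else 0) := by
    intro P Q F hf
    rw [tsum_finX (S := hf.toFinset), tsum_finX (S := hf.toFinset) (f := fun γ => if P γ then (if Q γ then 0 else F γ) else 0),
      tsum_finX (S := hf.toFinset) (f := fun γ => if P γ ∧ Q γ then F γ else 0), ← Finset.sum_add_distrib]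
    · refine Finset.sum_congr rfl fun γ _ => ?_
      by_cases h1 : P γ <;> by_cases h2 : Q γ <;> simp [h1, h2]
    · intro γ h
      rw [Set.Finite.mem_toFinset]
      intro h0
      apply h
      rw [h0, ite_self]
    · intro γ h
      rw [Set.Finite.mem_toFinset]
      intro h0
      apply h
      rw [h0, ite_self, ite_self]
    · intro γ h
      rw [Set.Finite.mem_toFinset]
      intro h0
      apply h
      rw [h0, ite_self]
  have abs : ∀ (P : FX I → Prop) (_ : ∀ γ, Decidable (P γ)) (F : FX I → ℝ), {γ | F γ ≠ 0}.Finite →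
      |∑' γ : FX I, (if P γ then F γ else 0)| ≤ ∑' γ : FX I, if P γ then |F γ| else 0 := by
    intro P _ F hf
    rw [tsum_finX (S := hf.toFinset), tsum_finX (S := hf.toFinset) (f := fun γ => if P γ then |F γ| else 0)]
    · refine (Finset.abs_sum_le_sum_abs _ _).trans (Finset.sum_le_sum fun γ _ => ?_)
      split_ifs
      · exact le_rfl
      · rw [abs_zero]
    · intro γ h
      rw [Set.Finite.mem_toFinset]
      intro h0
      apply h
      rw [h0, abs_zero, ite_self]
    · intro γ h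
      rw [Set.Finite.mem_toFinset]
      intro h0
      apply h
      rw [h0, ite_self]
  have key := row_eq_of (j := j) (r := r) (F1 := fun γ => if B 1 γ then 0 else F1 γ) (F2 := fun γ => if B 2 γ then 0 else F2 γ)
    (fin1.subset fun γ h => by
      show F1 γ ≠ 0
      intro h0
      exact h (by rw [h0, ite_self]))
    (fin2.subset fun γ h => by
      show F2 γ ≠ 0
      intro h0
      exact h (by rw [h0, ite_self]))
    (fun γ h => gd1 γ fun h0 => h (by rw [h0, ite_self]))
    (fun γ h => gd2 γ fun h0 => h (by rw [h0, ite_self])) (by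
      intro t γ ht hf hg
      by_cases hb : B t γ
      · have z : ∀ (t' : Fin 3), t' ≠ 0 → ∀ F : FX I → ℝ,
            ∑' γ' : FX I, (if Eq6 (Rg j r) (Gt j r t) (Gt j r t') γ γ' then (if B t' γ' then 0 else F γ') else 0) = 0 := by
          intro t' ht' F
          refine (tsum_congr fun γ' => ?_).trans tsum_zero
          by_cases he : Eq6 (Rg j r) (Gt j r t) (Gt j r t') γ γ'
          · rw [if_pos he, if_pos ((hB t t' γ γ' ht ht' he).1 hb)]
          · rw [if_neg he]
        rw [z 1 (by decide) F1, z 2 (by decide) F2]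
      · have z : ∀ (t' : Fin 3), t' ≠ 0 → ∀ F : FX I → ℝ,
            ∑' γ' : FX I, (if Eq6 (Rg j r) (Gt j r t) (Gt j r t') γ γ' then (if B t' γ' then 0 else F γ') else 0) =
              ∑' γ' : FX I, if Eq6 (Rg j r) (Gt j r t) (Gt j r t') γ γ' then F γ' else 0 := by
          intro t' ht' F
          refine tsum_congr fun γ' => ?_
          by_cases he : Eq6 (Rg j r) (Gt j r t) (Gt j r t') γ γ'
          · rw [if_pos he, if_pos he, if_neg fun h => hb ((hB t t' γ γ' ht ht' he).2 h)]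
          · rw [if_neg he, if_neg he]
        rw [z 1 (by decide) F1, z 2 (by decide) F2]
        exact cl t γ ht hf hg hb)
  rw [spl _ (B 1) F1 fin1, spl _ (B 2) F2 fin2, key]
  rw [add_sub_add_left_eq_sub]
  exact (abs_sub _ _).trans (add_le_add (abs _ _ F1 fin1) (abs _ _ F2 fin2))

/-! ### the row swap -/

open Classical in
/-- **the identity of a class** -/
theorem cls_eq {a c b : Wt ℝ} (h : YB a c b) (hW : ∀ v, v ∉ Rg j r → W v = W' v) (w0 : W none = a) (w0' : W' none = a)
    (w1 : W (some (j, r)) = c) (w2 : W (some (j + 1, r)) = b) (w1' : W' (some (j, r)) = b) (w2' : W' (some (j + 1, r)) = c)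
    {G : FX I → ℝ} (cst : ∀ (t t' : Fin 3) (γ γ' : FX I), t ≠ 0 → t' ≠ 0 → Eq6 (Rg j r) (Gt j r t) (Gt j r t') γ γ' →
      G γ = G γ') (ht : t ≠ 0) (f : Fam (Gt j r t) γ) (g : Gd (Rg j r) γ) :
    ∑' γ' : FX I, (if Eq6 (Rg j r) (Gt j r t) (Gt j r 1) γ γ' then WX W γ' * G γ' else 0) =
      ∑' γ' : FX I, if Eq6 (Rg j r) (Gt j r t) (Gt j r 2) γ γ' then WX W' γ' * G γ' else 0 := by
  obtain ⟨q, hq⟩ := cls_sumX f g
  rw [hq 1 W G (fun _ => G γ) fun γ' c e _ _ _ => (cst t 1 γ γ' ht (by decide) e).symm,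
    hq 2 W' G (fun _ => G γ) fun γ' c e _ _ _ => (cst t 2 γ γ' ht (by decide) e).symm, OX_congr hW, w0, w0', w1, w2, w1', w2']
  have e : ∀ (p : Cell × Cell × Cell → Prop) [DecidablePred p] (F : Cell × Cell × Cell → ℝ) (x : ℝ),
      (∑ c, if p c then F c * x else 0) = (∑ c, if p c then F c else 0) * x := fun p _ F x => by
    rw [Finset.sum_mul]
    refine Finset.sum_congr rfl fun c _ => ?_
    split_ifs
    · rfl
    · rw [zero_mul]
  rw [e, e, tabYB h q]

open Classical in
/-- **the row swap**: `W`, `W'` agree outside of the region of the row `r`; for a function which is constant on the classes -/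
theorem row_eq {a c b : Wt ℝ} (h : YB a c b) (hW : ∀ v, v ∉ Rg j r → W v = W' v) (w0 : W none = a) (w0' : W' none = a)
    (w1 : W (some (j, r)) = c) (w2 : W (some (j + 1, r)) = b) (w1' : W' (some (j, r)) = b) (w2' : W' (some (j + 1, r)) = c)
    {G : FX I → ℝ} (fin : {γ | G γ ≠ 0}.Finite) (gd : ∀ γ, G γ ≠ 0 → Gd (Rg j r) γ)
    (cst : ∀ (t t' : Fin 3) (γ γ' : FX I), t ≠ 0 → t' ≠ 0 → Eq6 (Rg j r) (Gt j r t) (Gt j r t') γ γ' → G γ = G γ') :
    ∑' γ : FX I, (if Fam (gX j (r + 1)) γ then WX W γ * G γ else 0) =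
      ∑' γ : FX I, if Fam (gX j r) γ then WX W' γ * G γ else 0 := by
  refine row_eq_of (fin.subset fun γ h => ?_) (fin.subset fun γ h => ?_) (fun γ h => gd γ ?_) (fun γ h => gd γ ?_)
    fun t γ ht f g => cls_eq h hW w0 w0' w1 w2 w1' w2' cst ht f g
  · exact right_ne_zero_of_mul h
  · exact right_ne_zero_of_mul h
  · exact right_ne_zero_of_mul h
  · exact right_ne_zero_of_mul h

/-- the tables `WL` at the rows `r + 1` and `r` -/
theorem WL_out {w : ℤ → Wt ℝ} {a c b : Wt ℝ} {v : VX} (hv : v ∉ Rg j r) : WL w j (r + 1) a c b v = WL w j r a c b v := by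
  obtain _ | ⟨x, y⟩ := v
  · rfl
  · simp only [Rg, Set.mem_insert_iff, Set.mem_singleton_iff, reduceCtorEq, Option.some.injEq, Prod.mk.injEq, false_or,
      not_or, not_and] at hv
    simp only [WL]
    by_cases h1 : x = j
    · have := hv.1 h1
      rw [if_pos h1, if_pos h1]
      by_cases h2 : y < r
      · rw [if_pos h2, if_pos (by omega)]
      · rw [if_neg h2, if_neg (by omega)]
    · rw [if_neg h1, if_neg h1]
      by_cases h3 : x = j + 1
      · have := hv.2 h3
        rw [if_pos h3, if_pos h3]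
        by_cases h2 : y < r
        · rw [if_pos h2, if_pos (by omega)]
        · rw [if_neg h2, if_neg (by omega)]
      · rw [if_neg h3, if_neg h3]

open Classical in
/-- **the row swap for the lattices `WL`** -/
theorem row_WL {a c b : Wt ℝ} (h : YB a c b) (w : ℤ → Wt ℝ) {G : FX I → ℝ} (fin : {γ | G γ ≠ 0}.Finite)
    (gd : ∀ γ, G γ ≠ 0 → Gd (Rg j r) γ)
    (cst : ∀ (t t' : Fin 3) (γ γ' : FX I), t ≠ 0 → t' ≠ 0 → Eq6 (Rg j r) (Gt j r t) (Gt j r t') γ γ' → G γ = G γ') :
    ∑' γ : FX I, (if Fam (gX j (r + 1)) γ then WX (WL w j (r + 1) a c b) γ * G γ else 0) =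
      ∑' γ : FX I, if Fam (gX j r) γ then WX (WL w j r a c b) γ * G γ else 0 :=
  row_eq h (fun _ hv => WL_out hv) rfl rfl (by simp [WL]) (by simp [WL]) (by simp [WL]) (by simp [WL]) fin gd cst

end

end Pool.Agent.ROT.X
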