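import Pool.Agent.ROT.XSideW
import Pool.Agent.ROT.UiQ2

/-!
# UNIV, exact side, row X9 (helper25): sums over the loops whose last column is in the strip

* `siteR` : the honeycomb loops with last column `j` through the cell `(j, r)`, at least `n` columns, with the ratio product:
  `≤ C / n ^ 2`;
* `core` : the loops of `gX j s` whose cells off the region are in the columns `≤ j`, with the sizes of the coefficients;
* **`sideB : MassU → SideB`**.
-/

set_option autoImplicit false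

namespace Pool.Agent.ROT.X

open Pool.Agent.EXL (Wt YB)
open Pool.Agent.YBC (Dir)
open Pool.Agent.UNI (wR)
open Pool.Agent.ROT.E (Cell IsUn Pt Cfg)
open Pool.Agent.ROT.L
open Pool.Agent.ROT.E.Hx (HL trc hs Ny nE MassU)
open Pool.Agent.ROT.A6 (HLs wr crd hc trE)
open Pool.Agent.ROT.U (qx m3 bb rc)

noncomputable section

variable {j s r : ℤ} {δ : VX →₀ Cell} {f : Cell}

/-! ### honeycomb loops with a given cell in the last column -/

theorem wr_tr (z : Pt) (p : HLs) : wr (trE z p) = wr p := by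
  show HexObs.xc ^ (hs (trc z p.1)).card = HexObs.xc ^ (hs p.1).card
  rw [E.Hx.hs_trc]

/-- the normalized loop -/
def nmz (p : HLs) : HLs := trE (-(hc p.1 0, hc p.1 2)) p

theorem nmz_hc (p : HLs) : hc (nmz p).1 0 = 0 ∧ hc (nmz p).1 1 = hc p.1 1 - hc p.1 0 ∧ hc (nmz p).1 2 = 0 ∧
    hc (nmz p).1 3 = hc p.1 3 - hc p.1 2 := by
  obtain ⟨h0, h1, h2, h3⟩ := A6.hc_trc p.2 (-(hc p.1 0, hc p.1 2))
  simp only [Prod.fst_neg, Prod.snd_neg] at h0 h1 h2 h3
  refine ⟨?_, ?_, ?_, ?_⟩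
  · exact h0.trans (by ring)
  · exact h1.trans (by ring)
  · exact h2.trans (by ring)
  · exact h3.trans (by ring)

theorem nmz_inj {p p' : HLs} (h : nmz p = nmz p') (h0 : hc p.1 0 = hc p'.1 0) (h2 : hc p.1 2 = hc p'.1 2) : p = p' := by
  unfold nmz at h
  rw [h0, h2] at h
  exact (trE _).injective h

open Classical in
/-- **a site** : the honeycomb loops with last column `j` through `(j, r)` with at least `n` columns -/
theorem siteR (hU : MassU) : ∃ C : ℝ, 0 < C ∧ ∀ (j r n : ℤ), 1 ≤ n → ∀ T : Finset HLs,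
    (∀ p ∈ T, p.1 (j, r) ≠ .o ∧ hc p.1 1 = j ∧ n ≤ hc p.1 1 - hc p.1 0) →
    ∑ p ∈ T, wr p * qx bb p.1 1 ≤ C / (n : ℝ) ^ 2 := by
  obtain ⟨C, hC, key⟩ := U.uiS hU
  refine ⟨112 * C, by positivity, fun j r n hn T hT => ?_⟩
  have e1 : ∀ p : HLs, wr p * qx bb p.1 1 = wr (nmz p) * qx bb (nmz p).1 1 := by
    intro p
    unfold nmz
    rw [wr_tr]
    show _ = wr p * qx bb (trc _ p.1) 1
    rw [U.qx_trc bb p.2]
  have e2 : ∑ p ∈ T, wr p * qx bb p.1 1 = ∑ σ ∈ T.image nmz, ∑ p ∈ T with nmz p = σ, wr p * qx bb p.1 1 :=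
    (Finset.sum_fiberwise_of_maps_to (fun p hp => Finset.mem_image_of_mem _ hp) _).symm
  have q0 : ∀ p : HLs, 0 ≤ qx bb p.1 1 := fun p => zero_le_one.trans (U.one_le_qb p.2 1)
  have h3 : ∀ σ ∈ T.image nmz, ∑ p ∈ T with nmz p = σ, wr p * qx bb p.1 1 ≤ 112 * (wr σ * m3 (qx bb σ.1 1)) := by
    intro σ _
    have a1 : ∑ p ∈ T with nmz p = σ, wr p * qx bb p.1 1 = ((T.filter fun p => nmz p = σ).card : ℝ) * (wr σ * qx bb σ.1 1) := by
      rw [Finset.sum_congr rfl fun p hp => by rw [e1 p, (Finset.mem_filter.1 hp).2], Finset.sum_const, nsmul_eq_mul]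
    have a2 : (T.filter fun p => nmz p = σ).card ≤ nE σ.1 1 := by
      show _ ≤ (σ.1.support.filter fun v => v.1 = hR σ.1.support).card
      refine Finset.card_le_card_of_injOn (fun p => ((j, r) : Pt) - (hc p.1 0, hc p.1 2)) (fun p hp => ?_) fun p hp p' hp' h => ?_
      · rw [Finset.mem_coe, Finset.mem_filter] at hp
        obtain ⟨hp, rfl⟩ := hp
        obtain ⟨b1, b2, b3⟩ := hT p hp
        rw [Finset.mem_coe, Finset.mem_filter]
        constructor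
        · have := (A6.supp_trc (z := -(hc p.1 0, hc p.1 2)) (γ := p.1) (v := (j, r))).2 (A6.mem_supp.2 b1)
          rwa [← sub_eq_add_neg] at this
        · show j - hc p.1 0 = hc (nmz p).1 1
          rw [(nmz_hc p).2.1, b2]
      · rw [Finset.mem_coe, Finset.mem_filter] at hp hp'
        simp only [Prod.mk_sub_mk, Prod.mk.injEq] at h
        exact nmz_inj (hp.2.trans hp'.2.symm) (by omega) (by omega)
    rw [a1]
    have a3 := U.q_cells σ.2 1
    have w0 := A6.wr_nn σ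
    calc ((T.filter fun p => nmz p = σ).card : ℝ) * (wr σ * qx bb σ.1 1) ≤ (nE σ.1 1 : ℝ) * (wr σ * qx bb σ.1 1) :=
          mul_le_mul_of_nonneg_right (by exact_mod_cast a2) (mul_nonneg w0 (q0 σ))
      _ = wr σ * (qx bb σ.1 1 * nE σ.1 1) := by ring
      _ ≤ wr σ * (112 * m3 (qx bb σ.1 1)) := mul_le_mul_of_nonneg_left a3 w0
      _ = _ := by ring
  rw [e2]
  refine (Finset.sum_le_sum h3).trans ?_
  rw [← Finset.mul_sum, mul_div_assoc]
  refine mul_le_mul_of_nonneg_left (key 1 n hn _ fun σ hσ => ?_) (by norm_num)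
  obtain ⟨p, hp, rfl⟩ := Finset.mem_image.1 hσ
  obtain ⟨b1, b2, b3⟩ := hT p hp
  obtain ⟨c0, c1, c2, c3⟩ := nmz_hc p
  exact ⟨c0, c2, Or.inl (by rw [c0, c1]; omega)⟩

/-! ### the filled loop -/

/-- the filled loop on the square lattice -/
def fl (j r : ℤ) (f : Cell) (δ : VX →₀ Cell) : Cfg := L.dn (upc j r δ (.o, f, .o))

theorem fl_at : fl j r f δ (j, r) = f := by
  unfold fl
  rw [dn_apply, upc_left]

theorem fl_rt : fl j r f δ (j + 1, r) = .o := by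
  unfold fl
  rw [dn_apply, upc_right]

theorem fl_out {p : Pt} (h : (some p : VX) ∉ Rg j r) : fl j r f δ p = δ (some p) := by
  unfold fl
  rw [dn_apply, ← upc_out _ _ h]

theorem in_Rg {p : Pt} (h : (some p : VX) ∈ Rg j r) : p = (j, r) ∨ p = (j + 1, r) := by
  simpa [Rg] using h

/-- the filled loop is in the columns `≤ j` -/
theorem fl_le (h : RtC j s r δ) {p : Pt} (hp : fl j r f δ p ≠ .o) : p.1 ≤ j := by
  by_cases hR : (some p : VX) ∈ Rg j r
  · rcases in_Rg hR with rfl | rfl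
    · exact le_rfl
    · exact absurd fl_rt hp
  · rw [fl_out hR] at hp
    exact h.off p hR hp

/-- the cells of the last column -/
theorem fl_col (h : RtC j s r δ) (hf : f = .v ∨ f = .sw ∨ f = .nw) {p : Pt} (hp : fl j r f δ p ≠ .o) (h1 : p.1 = j) :
    fl j r f δ p = .v ∨ fl j r f δ p = .sw ∨ fl j r f δ p = .nw := by
  obtain ⟨x, y⟩ := p
  simp only at h1
  subst h1
  by_cases hy : y = r
  · subst hy
    rw [fl_at]
    exact hf
  · have hR : (some (x, y) : VX) ∉ Rg x r := nRg (Or.inl hy)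
    rw [fl_out hR] at hp ⊢
    rcases h.cell hy with h1 | h1 | h1 | h1
    · exact absurd h1 hp
    · exact Or.inl h1
    · exact Or.inr (Or.inl h1)
    · exact Or.inr (Or.inr h1)

/-- the loop leaves the region -/
theorem RtC.lv (h : RtC j s r δ) {p q : Pt} (hp : δ (some p) ≠ .o) (hq : δ (some q) ≠ .o) {n : ℤ} (hn : 2 ≤ n) (hw : p.1 + n ≤ q.1) :
    (some p : VX) ∉ Rg j r ∧ p.1 + n ≤ j + 1 := by
  have h1 : q.1 ≤ j + 1 := by
    by_cases hR : (some q : VX) ∈ Rg j r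
    · rcases in_Rg hR with rfl | rfl
      · simp
      · exact le_rfl
    · exact (h.off q hR hq).trans (by omega)
  refine ⟨fun hR => ?_, by omega⟩
  rcases in_Rg hR with rfl | rfl
  · simp only at hw; omega
  · simp only at hw; omega

/-- the weight of the filled loop -/
theorem fl_w : W1X (Wu j) (upc j r δ (.o, f, .o)) = ∏ v ∈ (fl j r f δ).support, (fl j r f δ v).wt (Wu j (some v)) := by
  classical
  have e : (upc j r δ (.o, f, .o)).support = (fl j r f δ).support.map Function.Embedding.some := by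
    ext v
    rw [Finsupp.mem_support_iff, Finset.mem_map]
    constructor
    · intro hv
      rcases v with _ | v
      · exact absurd (upc_none _) hv
      · exact ⟨v, by rw [Finsupp.mem_support_iff, fl, dn_apply]; exact hv, rfl⟩
    · rintro ⟨w, hw, rfl⟩
      rw [Finsupp.mem_support_iff, fl, dn_apply] at hw
      exact hw
  unfold W1X
  rw [e, Finset.prod_map]
  refine Finset.prod_congr rfl fun v _ => ?_
  rw [fl, dn_apply]
  rfl

open Classical in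
/-- the weight of a loop of the square lattice with the ratio product of the last column -/
def Gw (γ : Cfg) : ℝ := if h : HL γ then wr ⟨γ, h⟩ * qx bb γ 1 else 0

theorem Gw_nn (γ : Cfg) : 0 ≤ Gw γ := by
  unfold Gw
  split_ifs with h
  · exact mul_nonneg (A6.wr_nn _) (zero_le_one.trans (U.one_le_qb h 1))
  · exact le_rfl

open Classical in
theorem fl_Gw (h : RtC j s r δ) (hf : f = .v ∨ f = .sw ∨ f = .nw) (l : E.Lp (fl j r f δ)) (hj : hc (fl j r f δ) 1 = j) :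
    |W1X (Wu j) (upc j r δ (.o, f, .o))| = Gw (fl j r f δ) := by
  have e1 : W1X (Wu j) (upc j r δ (.o, f, .o)) =
      ((fl j r f δ).prod fun _ c => c.wt (wR (Real.pi / 8))) * qx bb (fl j r f δ) 1 := by
    rw [fl_w, Finsupp.prod]
    unfold qx
    rw [Finset.prod_filter, ← Finset.prod_mul_distrib]
    refine Finset.prod_congr rfl fun v hv => ?_
    rw [hj]
    by_cases h1 : v.1 = j
    · rw [if_pos (show crd 1 v = j from h1)]
      have h2 := fl_col h hf (A6.mem_supp.1 hv) h1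
      have h3 : (fl j r f δ v).wt (wR hA) ≠ 0 := (wt_pos hA_rg.1 hA_rg.2 h2).ne'
      show (fl j r f δ v).wt (wR (if v.1 = j then bA else hA)) = _
      rw [if_pos h1]
      show _ = (fl j r f δ v).wt (wR hA) * ((fl j r f δ v).wt (wR bA) / (fl j r f δ v).wt (wR hA))
      field_simp
    · rw [if_neg (show ¬ crd 1 v = j from h1), mul_one]
      show (fl j r f δ v).wt (wR (if v.1 = j then bA else hA)) = _
      rw [if_neg h1]
      rfl
  rw [e1, E.Hx.prod_hex]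
  by_cases hN : Ny (fl j r f δ)
  · rw [if_pos hN]
    have hl : HL (fl j r f δ) := ⟨l, hN⟩
    unfold Gw
    rw [dif_pos hl, abs_of_nonneg (mul_nonneg (pow_nonneg HexObs.xc_pos.le _) (zero_le_one.trans (U.one_le_qb hl 1)))]
    rfl
  · rw [if_neg hN, zero_mul, abs_zero]
    unfold Gw
    rw [dif_neg fun hl => hN hl.ny]

/-! ### the core -/

/-- a loop which uses the region has a cell in the strip -/
theorem use_cell (l : Lp (gX j s) δ) (us : Us1 j r δ) : ∃ x y : ℤ, (x = j ∨ x = j + 1) ∧ δ (some (x, y)) ≠ .o := by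
  obtain ⟨v, hv, h0⟩ := us
  rcases hv with rfl | rfl | rfl
  · obtain ⟨d, hd⟩ := ex_side h0
    have h1 : oc δ ((gX j s).e (none, d)) := (l.mt (none, d) trivial trivial).1 hd
    cases d
    · exact ⟨j + 1, s - 1, Or.inr rfl, oc_zero h1⟩
    · exact ⟨j + 1, s, Or.inr rfl, oc_zero h1⟩
    · exact ⟨j, s, Or.inl rfl, oc_zero h1⟩
    · exact ⟨j, s - 1, Or.inl rfl, oc_zero h1⟩
  · exact ⟨j, r, Or.inl rfl, h0⟩
  · exact ⟨j + 1, r, Or.inr rfl, h0⟩

theorem ht_in {p : Pt} (hp : δ (some p) ≠ .o) : ht (fam1 δ) () 0 ≤ p.1 ∧ p.1 ≤ ht (fam1 δ) () 1 ∧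
    ht (fam1 δ) () 2 ≤ p.2 ∧ p.2 ≤ ht (fam1 δ) () 3 := by
  have h : p ∈ cl (fam1 δ) () := mem_cl.2 hp
  exact ⟨hL_le h, le_hR h, hB_le h, le_hT h⟩

theorem RtC.R1 (h : RtC j s r δ) : j ≤ ht (fam1 δ) () 1 := by
  obtain ⟨x, y, hx, h0⟩ := use_cell h.lp h.us
  have := (ht_in h0).2.1
  simp only at this
  omega

theorem cl_ne {p : Pt} (h : δ (some p) ≠ .o) : (cl (fam1 δ) ()).Nonempty := ⟨p, mem_cl.2 h⟩

/-- two loops with the same filled loop and the same cells of the region -/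
theorem fl_inj {δ δ' : VX →₀ Cell} {f f' : Cell} (h : fl j r f δ = fl j r f' δ') (h0 : δ none = δ' none)
    (h1 : δ (some (j, r)) = δ' (some (j, r))) (h2 : δ (some (j + 1, r)) = δ' (some (j + 1, r))) : δ = δ' := by
  ext1 v
  by_cases hR : v ∈ Rg j r
  · rcases hR with rfl | rfl | rfl
    · exact h0
    · exact h1
    · exact h2
  · obtain _ | p := v
    · exact absurd (Or.inl rfl) hR
    · rw [← fl_out (f := f) hR, h, fl_out hR]

/-- wide loops -/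
def Wd (n : ℤ) (δ : VX →₀ Cell) : Prop := ∃ p q : Pt, δ (some p) ≠ .o ∧ δ (some q) ≠ .o ∧ p.1 + n ≤ q.1

/-- **one loop** -/
theorem one_w (h : RtC j s r δ) {n : ℤ} (hn : 100 ≤ n) (w : Wd n δ) : ∃ f : Cell, (f = .v ∨ f = .sw ∨ f = .nw) ∧
    E.Lp (fl j r f δ) ∧ hc (fl j r f δ) 1 = j ∧ n - 1 ≤ hc (fl j r f δ) 1 - hc (fl j r f δ) 0 ∧
    |W1X (WH j s) δ| * sz1 j s δ ≤ (2 + 2 * Mc + Kw ^ 3) / κq * (Kw ^ 3 / kf) * Gw (fl j r f δ) := by
  obtain ⟨p, q, hp, hq, hw⟩ := w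
  obtain ⟨p1, p2⟩ := h.lv hp hq (by omega) hw
  obtain ⟨f, hf, hl⟩ := fillR h.sr h.lp ⟨some p, p1, hp⟩ ⟨h.us, h.off⟩
  have f0 : f ≠ .o := by rcases hf with rfl | rfl | rfl <;> decide
  have hv : fl j r f δ (j, r) ≠ .o := by rw [fl_at]; exact f0
  have l : E.Lp (fl j r f δ) := hl.dn ⟨(j, r), by rw [upc_left]; exact f0⟩
  have hj : hc (fl j r f δ) 1 = j := by
    refine le_antisymm ?_ (le_hR (A6.mem_supp.2 hv))
    obtain ⟨v, hv', e⟩ := L.hR_mem (S := (fl j r f δ).support) ⟨_, A6.mem_supp.2 hv⟩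
    show L.hR (fl j r f δ).support ≤ j
    rw [← e]
    exact fl_le h (A6.mem_supp.1 hv')
  have h0 : hc (fl j r f δ) 0 ≤ p.1 := by
    refine hL_le (A6.mem_supp.2 ?_)
    rw [fl_out p1]
    exact hp
  refine ⟨f, hf, l, hj, by omega, ?_⟩
  have a1 := side_w h hf
  rw [fl_Gw h hf l hj] at a1
  have a2 := sz_le h h.R1 ((ht_in hp).1.trans (by omega)) (cl_ne hp)
  have c0 : 0 ≤ (2 + 2 * Mc + Kw ^ 3) / κq := by
    have := Mc_ge
    have := Kw_pos
    have := κq_pos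
    positivity
  calc |W1X (WH j s) δ| * sz1 j s δ ≤ |W1X (WH j s) δ| * ((2 + 2 * Mc + Kw ^ 3) / κq * Qs j r δ) :=
        mul_le_mul_of_nonneg_left a2 (abs_nonneg _)
    _ = (2 + 2 * Mc + Kw ^ 3) / κq * (|W1X (WH j s) δ| * Qs j r δ) := by ring
    _ ≤ (2 + 2 * Mc + Kw ^ 3) / κq * (Kw ^ 3 / kf * Gw (fl j r f δ)) := mul_le_mul_of_nonneg_left a1 c0
    _ = _ := by ring

open Classical in
/-- **the core** -/
theorem core (hU : MassU) : ∃ C : ℝ, 0 < C ∧ ∀ (j s r n : ℤ), 100 ≤ n → ∀ S : Finset (VX →₀ Cell),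
    (∀ δ ∈ S, RtC j s r δ ∧ Wd n δ) → ∑ δ ∈ S, |W1X (WH j s) δ| * sz1 j s δ ≤ C / (n : ℝ) ^ 2 := by
  obtain ⟨C, hC, key⟩ := siteR hU
  set K1 : ℝ := (2 + 2 * Mc + Kw ^ 3) / κq * (Kw ^ 3 / kf) with hK1
  have K0 : 0 < K1 := by
    have := Mc_ge
    have := Kw_pos
    have := κq_pos
    have := kf_pos
    positivity
  set c9 : ℝ := (Fintype.card (Cell × Cell × Cell) : ℝ) with hc9
  have c0 : 0 < c9 := by rw [hc9]; exact_mod_cast Fintype.card_pos
  refine ⟨K1 * (c9 * (4 * C)), by positivity, fun j s r n hn S hS => ?_⟩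
  have hex : ∀ δ : VX →₀ Cell, ∃ f : Cell, δ ∈ S → (E.Lp (fl j r f δ) ∧ hc (fl j r f δ) 1 = j ∧
      n - 1 ≤ hc (fl j r f δ) 1 - hc (fl j r f δ) 0 ∧ fl j r f δ (j, r) ≠ .o ∧
      |W1X (WH j s) δ| * sz1 j s δ ≤ K1 * Gw (fl j r f δ)) := by
    intro δ
    by_cases h : δ ∈ S
    · obtain ⟨f, hf, h1, h2, h3, h4⟩ := one_w (hS δ h).1 hn (hS δ h).2
      exact ⟨f, fun _ => ⟨h1, h2, h3, by rw [fl_at]; rcases hf with rfl | rfl | rfl <;> decide, h4⟩⟩
    · exact ⟨.v, fun h' => absurd h' h⟩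
  choose F hF using hex
  set φ : (VX →₀ Cell) → Cfg × (Cell × Cell × Cell) := fun δ =>
    (fl j r (F δ) δ, (δ none, δ (some (j, r)), δ (some (j + 1, r)))) with hφ
  have inj : Set.InjOn φ (S : Set (VX →₀ Cell)) := by
    intro δ _ δ' _ h
    simp only [hφ, Prod.mk.injEq] at h
    exact fl_inj h.1 h.2.1 h.2.2.1 h.2.2.2
  set T : Finset Cfg := S.image fun δ => fl j r (F δ) δ with hT
  have e1 : ∑ δ ∈ S, |W1X (WH j s) δ| * sz1 j s δ ≤ ∑ x ∈ S.image φ, K1 * Gw x.1 := by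
    rw [Finset.sum_image inj]
    exact Finset.sum_le_sum fun δ hδ => (hF δ hδ).2.2.2.2
  have e2 : ∑ x ∈ S.image φ, K1 * Gw x.1 ≤ ∑ x ∈ T ×ˢ (Finset.univ : Finset (Cell × Cell × Cell)), K1 * Gw x.1 := by
    refine Finset.sum_le_sum_of_subset_of_nonneg (fun x hx => ?_) fun x _ _ => mul_nonneg K0.le (Gw_nn _)
    obtain ⟨δ, hδ, rfl⟩ := Finset.mem_image.1 hx
    exact Finset.mem_product.2 ⟨Finset.mem_image_of_mem _ hδ, Finset.mem_univ _⟩
  have e3 : ∑ x ∈ T ×ˢ (Finset.univ : Finset (Cell × Cell × Cell)), K1 * Gw x.1 = K1 * (c9 * ∑ γ ∈ T, Gw γ) := by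
    rw [Finset.sum_product, Finset.mul_sum, Finset.mul_sum]
    refine Finset.sum_congr rfl fun γ _ => ?_
    simp only [Finset.sum_const, Finset.card_univ, nsmul_eq_mul]
    rw [hc9]
    ring
  have e4 : ∑ γ ∈ T, Gw γ = ∑ p ∈ T.subtype HL, wr p * qx bb p.1 1 := by
    have a1 : ∑ p ∈ T.subtype HL, Gw p.1 = ∑ γ ∈ T with HL γ, Gw γ := Finset.sum_subtype_eq_sum_filter _
    rw [← Finset.sum_filter_of_ne (p := HL), ← a1]
    · refine Finset.sum_congr rfl fun p _ => ?_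
      unfold Gw
      rw [dif_pos p.2]
    · intro γ _ h
      by_contra hc
      exact h (dif_neg hc)
  have e5 : ∑ p ∈ T.subtype HL, wr p * qx bb p.1 1 ≤ C / ((n - 1 : ℤ) : ℝ) ^ 2 := by
    refine key j r (n - 1) (by omega) _ fun p hp => ?_
    rw [Finset.mem_subtype] at hp
    obtain ⟨δ, hδ, e⟩ := Finset.mem_image.1 hp
    obtain ⟨-, b1, b2, b3, -⟩ := hF δ hδ
    rw [e] at b1 b2 b3
    exact ⟨b3, b1, b2⟩
  have e6 : C / ((n - 1 : ℤ) : ℝ) ^ 2 ≤ 4 * C / (n : ℝ) ^ 2 := by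
    have hn' : (100 : ℝ) ≤ n := by exact_mod_cast hn
    push_cast
    rw [div_le_div_iff₀ (by nlinarith) (by positivity)]
    have h1 : (n : ℝ) ^ 2 ≤ 4 * ((n : ℝ) - 1) ^ 2 := by nlinarith
    calc C * (n : ℝ) ^ 2 ≤ C * (4 * ((n : ℝ) - 1) ^ 2) := mul_le_mul_of_nonneg_left h1 hC.le
      _ = _ := by ring
  calc ∑ δ ∈ S, |W1X (WH j s) δ| * sz1 j s δ ≤ K1 * (c9 * ∑ γ ∈ T, Gw γ) := (e1.trans e2).trans e3.le
    _ ≤ K1 * (c9 * (4 * C / (n : ℝ) ^ 2)) := by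
        rw [e4]
        exact mul_le_mul_of_nonneg_left (mul_le_mul_of_nonneg_left (e5.trans e6) c0.le) K0.le
    _ = _ := by ring

/-! ### both sides -/

theorem rt_of (hs : s = r ∨ s = r + 1) (l : Lp (gX j s) δ) (ex : ExR j r (fam1 δ) ()) : RtC j s r δ := ⟨hs, l, ex.1, ex.2⟩

theorem Wd.ne {n : ℤ} (w : Wd n δ) : (cl (fam1 δ) ()).Nonempty := by
  obtain ⟨p, q, hp, -⟩ := w
  exact cl_ne hp

theorem Wd.rot {n : ℤ} (w : Wd n δ) : Wd n (rot1 j s δ) := by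
  obtain ⟨p, q, hp, hq, h⟩ := w
  refine ⟨(2 * j + 1 - q.1, 2 * s - 1 - q.2), (2 * j + 1 - p.1, 2 * s - 1 - p.2), ?_, ?_, ?_⟩
  · rw [rot1_some]
    exact fun h0 => hq (pr_o.1 h0)
  · rw [rot1_some]
    exact fun h0 => hp (pr_o.1 h0)
  · simp only
    omega

open Classical in
/-- **both sides** -/
theorem core2 (hU : MassU) : ∃ C : ℝ, 0 < C ∧ ∀ (j s r n : ℤ), (s = r ∨ s = r + 1) → 100 ≤ n → ∀ S : Finset (VX →₀ Cell),
    (∀ δ ∈ S, Lp (gX j s) δ ∧ (ExR j r (fam1 δ) () ∨ ExL j r (fam1 δ) ()) ∧ Wd n δ) →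
    ∑ δ ∈ S, |W1X (WH j s) δ| * sz1 j s δ ≤ C / (n : ℝ) ^ 2 := by
  obtain ⟨C, hC, key⟩ := core hU
  refine ⟨2 * C, by positivity, fun j s r n hs hn S hS => ?_⟩
  have sp : ∑ δ ∈ S, |W1X (WH j s) δ| * sz1 j s δ =
      ∑ δ ∈ S with ExR j r (fam1 δ) (), |W1X (WH j s) δ| * sz1 j s δ +
      ∑ δ ∈ S with ¬ ExR j r (fam1 δ) (), |W1X (WH j s) δ| * sz1 j s δ := (Finset.sum_filter_add_sum_filter_not S _ _).symm
  have h1 := key j s r n hn (S.filter fun δ => ExR j r (fam1 δ) ()) fun δ hδ => by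
    rw [Finset.mem_filter] at hδ
    obtain ⟨a1, a2, a3⟩ := hS δ hδ.1
    exact ⟨rt_of hs a1 hδ.2, a3⟩
  have h2 : ∑ δ ∈ S with ¬ ExR j r (fam1 δ) (), |W1X (WH j s) δ| * sz1 j s δ =
      ∑ δ ∈ (S.filter fun δ => ¬ ExR j r (fam1 δ) ()).image (rot1 j s), |W1X (WH j s) δ| * sz1 j s δ := by
    rw [Finset.sum_image fun _ _ _ _ h => rot1_inj h]
    refine Finset.sum_congr rfl fun δ hδ => ?_
    rw [Finset.mem_filter] at hδ
    rw [W1X_rot, sz1_rot (hS δ hδ.1).2.2.ne]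
  have h3 := key j s (2 * s - 1 - r) n hn ((S.filter fun δ => ¬ ExR j r (fam1 δ) ()).image (rot1 j s)) fun δ' hδ' => by
    obtain ⟨δ, hδ, rfl⟩ := Finset.mem_image.1 hδ'
    rw [Finset.mem_filter] at hδ
    obtain ⟨a1, a2, a3⟩ := hS δ hδ.1
    refine ⟨rt_of (by omega) (rot1_lp.2 a1) ?_, a3.rot⟩
    rw [fam1_rot]
    exact ExR_rot.2 (a2.resolve_left hδ.2)
  rw [sp, h2]
  calc _ ≤ C / (n : ℝ) ^ 2 + C / (n : ℝ) ^ 2 := add_le_add h1 h3
    _ = _ := by ring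

open Classical in
/-- a sum over an event of the box in the honeycomb columns -/
theorem A1_WH {k j s B : ℤ} {Q : (VX →₀ Cell) → Prop} [DecidablePred Q] {g : (VX →₀ Cell) → ℝ}
    (hk : ∀ δ, Q δ → ∀ p : Pt, δ (some p) ≠ .o → k ≤ p.1) : A1 k j s B (fun δ => if Q δ then g δ else 0) =
    ∑ δ ∈ (fin_Bx1 B).toFinset with Lp (gX j s) δ ∧ Bx1 B δ ∧ Q δ, |W1X (WH j s) δ| * g δ := by
  rw [A1_sum, Finset.sum_filter]
  refine Finset.sum_congr rfl fun δ _ => ?_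
  by_cases h : Lp (gX j s) δ ∧ Bx1 B δ
  · rw [if_pos h]
    by_cases hQ : Q δ
    · rw [if_pos hQ, if_pos ⟨h.1, h.2, hQ⟩, WE_WH (hk δ hQ)]
    · rw [if_neg hQ, if_neg fun h' => hQ h'.2.2, mul_zero]
  · rw [if_neg h, if_neg fun h' => h ⟨h'.1, h'.2.1⟩]

/-- **X9, sides** -/
theorem sideB (hU : MassU) : SideB := by
  classical
  obtain ⟨C, hC, key⟩ := core2 hU
  refine ⟨C, hC, fun k j r t B n _ _ _ _ ht hn => ?_⟩
  rw [A1_WH fun δ hδ p hp => (hδ.2.1 p hp).1]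
  refine key j t r n ht hn _ fun δ hδ => ?_
  rw [Finset.mem_filter] at hδ
  exact ⟨hδ.2.1, hδ.2.2.2.1, hδ.2.2.2.2.2⟩

end

end Pool.Agent.ROT.X
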