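import Pool.Agent.ROT.XFill
import Pool.Agent.ROT.UQ

/-!
# UNIV, exact side, row X9 (helper25): the weights of a loop whose last column is in the strip

* `cT_bd`, `cB_bd` : the coefficients top and bottom are bounded, all loops;
* `prod_sp` : products over a loop = off the region times region; `Qs` : the ratio of the weights in the column `j` above the
  region; `Qs_low`;
* `side_w` : weight times size ≤ constant times the weight of the filled loop with the column `j` of the angle `b`.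
-/

set_option autoImplicit false

namespace Pool.Agent.ROT.X

open Pool.Agent.EXL (Wt YB)
open Pool.Agent.YBC (Dir)
open Pool.Agent.UNI (wR wR_v_pos wR_u1_pos wR_u2_pos)
open Pool.Agent.ROT.E (Cell IsUn Pt)
open Pool.Agent.ROT.L

noncomputable section

variable {j s r : ℤ} {δ : VX →₀ Cell}

/-! ### numbers -/

theorem hA_rg : 0 < hA ∧ hA < 3 * Real.pi / 8 := by
  have := Real.pi_pos
  unfold hA
  constructor <;> linarith

theorem bA_rg : 0 < bA ∧ bA < 3 * Real.pi / 8 := by
  have := Real.pi_pos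
  unfold bA
  constructor <;> linarith

theorem dA_rg : 0 < dA ∧ dA < 3 * Real.pi / 8 := by
  have := Real.pi_pos
  unfold dA
  constructor <;> linarith

theorem rt_v1 : 1 ≤ rt .v := U.num_b.2

theorem rt_sn : 1 ≤ rt .sw * rt .nw := U.num_b.1

theorem rt_pos {c : Cell} (h : c = .v ∨ c = .sw ∨ c = .nw) : 0 < rt c := by
  rcases h with rfl | rfl | rfl
  · exact div_pos (wR_v_pos bA_rg.1 bA_rg.2) (wR_v_pos hA_rg.1 hA_rg.2)
  · exact div_pos (wR_u1_pos bA_rg.1 bA_rg.2) (wR_u1_pos hA_rg.1 hA_rg.2)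
  · exact div_pos (wR_u2_pos bA_rg.1 bA_rg.2) (wR_u2_pos hA_rg.1 hA_rg.2)

theorem wt_pos {w : ℝ} (h0 : 0 < w) (h1 : w < 3 * Real.pi / 8) {c : Cell} (h : c = .v ∨ c = .sw ∨ c = .nw) :
    0 < c.wt (wR w) := by
  rcases h with rfl | rfl | rfl
  · exact wR_v_pos h0 h1
  · exact wR_u1_pos h0 h1
  · exact wR_u2_pos h0 h1

/-- `u1(d) / u2(h) * u2(d) / u1(h) ≤ 1` -/
theorem tf_sn : (wR dA).u1 / (wR hA).u2 * ((wR dA).u2 / (wR hA).u1) ≤ 1 := by
  have h := U.num_d.1.2
  have e : (wR dA).u1 / (wR hA).u2 * ((wR dA).u2 / (wR hA).u1) = U.rc U.dd .sw * U.rc U.dd .nw := by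
    show _ = (wR dA).u1 / (wR hA).u1 * ((wR dA).u2 / (wR hA).u2)
    have h1 := (wR_u1_pos hA_rg.1 hA_rg.2).ne'
    have h2 := (wR_u2_pos hA_rg.1 hA_rg.2).ne'
    field_simp
  rw [e]
  exact h

theorem tf_v : 0 ≤ (wR dA).v / (wR hA).v ∧ (wR dA).v / (wR hA).v ≤ 1 := ⟨U.num_d.2.1.le, U.num_d.2.2⟩

/-! ### the top row -/

/-- a local product against the product over a set of places -/
theorem lf_line {θ : VX → Cell → ℝ} (ho : ∀ v, θ v .o = 1) (S1 : Finset VX)
    (h1 : ∀ v, v ∉ S1 → |θ v (δ v)| ≤ 1) : |lf θ (fam1 δ) ()| ≤ ∏ v ∈ S1, |θ v (δ v)| := by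
  classical
  have e : lf θ (fam1 δ) () = ∏ v ∈ δ.support ∪ S1, θ v (δ v) := by
    unfold lf
    rw [fam1_supp]
    simp only [fam1_apply]
    refine Finset.prod_subset Finset.subset_union_left fun v _ hv => ?_
    rw [Finsupp.notMem_support_iff.1 hv]
    exact ho v
  rw [e, Finset.abs_prod, ← Finset.prod_sdiff (Finset.subset_union_right (s₁ := δ.support) (s₂ := S1))]
  refine mul_le_of_le_one_left (Finset.prod_nonneg fun _ _ => abs_nonneg _) ?_
  exact Finset.prod_le_one (fun _ _ => abs_nonneg _) fun v hv => h1 v (Finset.mem_sdiff.1 hv).2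

/-- a bound of the coordinates -/
theorem ex_M (δ : VX →₀ Cell) : ∃ M : ℤ, 0 ≤ M ∧ ∀ p : Pt, δ (some p) ≠ .o → |p.1| < M ∧ |p.2| < M := by
  classical
  obtain ⟨Y, hY⟩ := (δ.support.image fun v => match v with | none => (0 : ℤ) | some p => max |p.1| |p.2|).bddAbove
  refine ⟨max Y 0 + 1, by positivity, fun p hp => ?_⟩
  have h1 : max |p.1| |p.2| ≤ Y := hY (Finset.mem_coe.2 (Finset.mem_image_of_mem _ (Finsupp.mem_support_iff.2 hp)))
  have h2 := le_max_left |p.1| |p.2|
  have h3 := le_max_right |p.1| |p.2|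
  have h4 := le_max_left Y 0
  omega

/-- horizontal edges -/
theorem gX_E (v : Pt) : (gX j s).e (some v, .E) = (some (E.nx v .E), .W) := rfl

theorem edge_h (mt : Mt (gX j s) δ Set.univ) (x y : ℤ) : (δ (some (x, y))).oc .E ↔ (δ (some (x + 1, y))).oc .W :=
  mt (some (x, y), .E) trivial trivial

open Classical in
/-- the potential of a line -/
def pot (κ : ℝ) (δ : VX →₀ Cell) (y x : ℤ) : ℝ := if (δ (some (x, y))).oc .W then κ else 1

theorem pot_le {κ : ℝ} (hκ : κ ≤ 1) (δ : VX →₀ Cell) (y x : ℤ) : pot κ δ y x ≤ 1 := by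
  unfold pot
  split_ifs
  · exact hκ
  · exact le_rfl

/-- the constant -/
def kt : ℝ := (wR dA).u2 / (wR hA).u1

theorem kt_pos : 0 < kt := div_pos (wR_u2_pos dA_rg.1 dA_rg.2) (wR_u1_pos hA_rg.1 hA_rg.2)

theorem tf_nn {x : ℤ} {c : Cell} : 0 ≤ tf x c := by
  unfold tf
  have h1 := wR_u1_pos dA_rg.1 dA_rg.2
  have h2 := wR_u2_pos dA_rg.1 dA_rg.2
  have h3 := wR_v_pos dA_rg.1 dA_rg.2
  have h4 := wR_u1_pos hA_rg.1 hA_rg.2
  have h5 := wR_u2_pos hA_rg.1 hA_rg.2
  have h6 := wR_v_pos hA_rg.1 hA_rg.2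
  have h7 := wR_u2_pos bA_rg.1 bA_rg.2
  split_ifs <;> positivity

theorem tf_cell {x : ℤ} (hx : 0 < x) (c : Cell) :
    tf x c * (if c.oc .E then kt else 1) ≤ if c.oc .W then kt else 1 := by
  have hk := kt_pos
  have h1 : ¬ (x < 0) := by omega
  have h2 : ¬ (x = 0) := by omega
  have hsn := tf_sn
  have hv := tf_v
  cases c
  · show (1 : ℝ) * 1 ≤ 1
    norm_num
  · have e : tf x .h = (wR dA).v / (wR hA).v := by simp [tf, h1, h2]
    rw [e, if_pos (by decide), if_pos (by decide)]
    exact mul_le_of_le_one_left hk.le hv.2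
  · have e : tf x .v = 0 := by simp [tf, h1, h2]
    rw [e, zero_mul]
    split_ifs <;> linarith
  · have e : tf x .sw = kt := by simp [tf, h1, h2, kt]
    rw [e, if_neg (by decide), if_pos (by decide), mul_one]
  · have e : tf x .ne = 0 := by simp [tf, h1, h2]
    rw [e, zero_mul]
    split_ifs <;> linarith
  · have e : tf x .se = (wR dA).u1 / (wR hA).u2 := by simp [tf, h1, h2]
    rw [e, if_pos (by decide), if_neg (by decide)]
    exact hsn
  · have e : tf x .nw = 0 := by simp [tf, h1, h2]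
    rw [e, zero_mul]
    split_ifs <;> linarith
  · have e : tf x .x = 0 := by simp [tf, h1, h2]
    rw [e, zero_mul]
    split_ifs <;> linarith
  · have e : tf x .y = 0 := by simp [tf, h1, h2]
    rw [e, zero_mul]
    split_ifs <;> linarith

theorem tf_step (mt : Mt (gX j s) δ Set.univ) {q T x : ℤ} (hx : q < x) :
    tf (x - q) (δ (some (x, T))) * pot kt δ T (x + 1) ≤ pot kt δ T x := by
  have e : pot kt δ T (x + 1) = if (δ (some (x, T))).oc .E then kt else 1 := if_congr (edge_h mt x T).symm rfl rfl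
  rw [e]
  exact tf_cell (by omega) _

/-- the product right of the column `q` -/
theorem tf_prod (mt : Mt (gX j s) δ Set.univ) (q T : ℤ) (n : ℕ) :
    (∏ x ∈ Finset.Ico (q + 1) (q + 1 + n), tf (x - q) (δ (some (x, T)))) * pot kt δ T (q + 1 + n) ≤ pot kt δ T (q + 1) := by
  induction n with
  | zero => simp
  | succ n ih =>
    have e : Finset.Ico (q + 1) (q + 1 + (n + 1 : ℕ)) = insert (q + 1 + n) (Finset.Ico (q + 1) (q + 1 + n)) := by
      ext x
      simp only [Finset.mem_Ico, Finset.mem_insert]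
      push_cast
      omega
    rw [e, Finset.prod_insert (by simp)]
    have h1 := tf_step mt (q := q) (T := T) (x := q + 1 + n) (by omega)
    have h2 : 0 ≤ ∏ x ∈ Finset.Ico (q + 1) (q + 1 + (n : ℤ)), tf (x - q) (δ (some (x, T))) :=
      Finset.prod_nonneg fun _ _ => tf_nn
    have e2 : q + 1 + ((n + 1 : ℕ) : ℤ) = q + 1 + n + 1 := by push_cast; ring
    rw [e2]
    calc _ = (∏ x ∈ Finset.Ico (q + 1) (q + 1 + (n : ℤ)), tf (x - q) (δ (some (x, T)))) *
          (tf (q + 1 + n - q) (δ (some (q + 1 + n, T))) * pot kt δ T (q + 1 + n + 1)) := by ring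
      _ ≤ (∏ x ∈ Finset.Ico (q + 1) (q + 1 + (n : ℤ)), tf (x - q) (δ (some (x, T)))) * pot kt δ T (q + 1 + n) :=
          mul_le_mul_of_nonneg_left h1 h2
      _ ≤ _ := ih

/-- the bound of the coefficients -/
def Mc : ℝ := max 1 kt * max 1 ((wR bA).u2)⁻¹

theorem Mc_ge : 1 ≤ Mc := one_le_mul_of_one_le_of_one_le (le_max_left _ _) (le_max_left _ _)

/-- **the coefficient of the top is bounded** -/
theorem cT_bd (mt : Mt (gX j s) δ Set.univ) : |cT j s (fam1 δ) ()| ≤ Mc := by
  classical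
  set T : ℤ := ht (fam1 δ) () 3 with hT
  set q : ℤ := qb j s T with hq
  obtain ⟨M, hM0, hM⟩ := ex_M δ
  set n : ℕ := (|q| + M + 1).toNat with hn
  have hn' : (n : ℤ) = |q| + M + 1 := Int.toNat_of_nonneg (by positivity)
  have hq1 := neg_abs_le q
  set e : ℤ ↪ VX := ⟨fun x => some (x, T), fun a b h => by simpa using h⟩ with he
  set S1 : Finset VX := (Finset.Ico q (q + 1 + n)).map e with hS1
  have h0 : |lf (thT j s T) (fam1 δ) ()| ≤ ∏ v ∈ S1, |thT j s T v (δ v)| := by
    refine lf_line (fun v => thT_o _ _ _ _) S1 fun v hv => ?_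
    obtain _ | ⟨x, y⟩ := v
    · show |if T = s - 1 ∧ δ none ≠ .o then (0 : ℝ) else 1| ≤ 1
      split_ifs <;> simp
    · show |if y = T then tf (x - qb j s T) (δ (some (x, y))) else 1| ≤ 1
      split_ifs with hy
      · by_cases hc : δ (some (x, y)) = .o
        · rw [hc]
          simp [tf]
        · have hx : ¬ (q ≤ x ∧ x < q + 1 + n) := by
            intro h
            apply hv
            rw [hS1, Finset.mem_map]
            exact ⟨x, Finset.mem_Ico.2 h, by rw [hy]; rfl⟩
          have hx2 := (abs_lt.1 (hM (x, y) hc).1).2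
          have hx3 : x - qb j s T < 0 := by
            rw [← hq]
            have : x < q + 1 + n := by
              change x < M at hx2
              omega
            omega
          simp [tf, hc, hx3]
      · simp
  have e1 : ∏ v ∈ S1, |thT j s T v (δ v)| = ∏ x ∈ Finset.Ico q (q + 1 + n), tf (x - q) (δ (some (x, T))) := by
    rw [hS1, Finset.prod_map]
    refine Finset.prod_congr rfl fun x _ => ?_
    show |if T = T then tf (x - qb j s T) (δ (some (x, T))) else 1| = _
    rw [if_pos rfl, abs_of_nonneg tf_nn]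
  have e2 : ∏ x ∈ Finset.Ico q (q + 1 + (n : ℤ)), tf (x - q) (δ (some (x, T))) =
      tf 0 (δ (some (q, T))) * ∏ x ∈ Finset.Ico (q + 1) (q + 1 + (n : ℤ)), tf (x - q) (δ (some (x, T))) := by
    have e3 : Finset.Ico q (q + 1 + (n : ℤ)) = insert q (Finset.Ico (q + 1) (q + 1 + (n : ℤ))) := by
      ext x
      simp only [Finset.mem_Ico, Finset.mem_insert]
      omega
    rw [e3, Finset.prod_insert (by simp), sub_self]
  have h3 := tf_prod mt q T n
  have h4 : pot kt δ T (q + 1 + n) = 1 := by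
    refine if_neg fun h => ?_
    have h5 : δ (some (q + 1 + n, T)) ≠ .o := by
      intro h6
      rw [h6] at h
      exact h rfl
    have h6 := (abs_lt.1 (hM _ h5).1).2
    change q + 1 + n < M at h6
    omega
  have h5 : pot kt δ T (q + 1) ≤ max 1 kt := by
    unfold pot
    split_ifs
    · exact le_max_right _ _
    · exact le_max_left _ _
  have h6 : tf 0 (δ (some (q, T))) ≤ max 1 ((wR bA).u2)⁻¹ := by
    unfold tf
    rw [if_neg (lt_irrefl _), if_pos rfl]
    split_ifs
    · exact le_max_left _ _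
    · exact le_max_right _ _
    · exact zero_le_one.trans (le_max_left _ _)
  rw [h4, mul_one] at h3
  show |lf (thT j s T) (fam1 δ) ()| ≤ Mc
  refine h0.trans ?_
  rw [e1, e2, mul_comm]
  exact mul_le_mul (h3.trans h5) h6 tf_nn (zero_le_one.trans (le_max_left _ _))

/-- **the coefficient of the bottom is bounded** -/
theorem cB_bd (mt : Mt (gX j s) δ Set.univ) (hn : (cl (fam1 δ) ()).Nonempty) : |cB j s (fam1 δ) ()| ≤ Mc := by
  rw [← cT_rot hn, ← fam1_rot]
  refine cT_bd ?_
  have h := (rotX j s).mt_iff δ Set.univ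
  rw [(rotX j s).image_univ'] at h
  exact h.2 mt

/-! ### products over a loop: off the region and in the region -/

open Classical in
/-- the places of the loop off the region -/
def So1 (j r : ℤ) (δ : VX →₀ Cell) : Finset VX := δ.support.filter fun v => v ∉ Rg j r

theorem mem_So1 {v : VX} : v ∈ So1 j r δ ↔ δ v ≠ .o ∧ v ∉ Rg j r := by
  classical
  rw [So1, Finset.mem_filter, Finsupp.mem_support_iff]
  exact Iff.rfl

/-- **a product over a loop** -/
theorem prod_sp (F : VX → ℝ) (hF : ∀ v, δ v = .o → F v = 1) (j r : ℤ) :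
    ∏ v ∈ δ.support, F v = (∏ v ∈ So1 j r δ, F v) * (F none * (F (some (j, r)) * F (some (j + 1, r)))) := by
  classical
  have e1 : ∏ v ∈ δ.support, F v = ∏ v ∈ So1 j r δ ∪ {none, some (j, r), some (j + 1, r)}, F v := by
    refine Finset.prod_subset (fun v hv => ?_) fun v _ hv => hF v (Finsupp.notMem_support_iff.1 hv)
    rw [Finset.mem_union, mem_So1]
    by_cases h : v ∈ Rg j r
    · right
      simpa [Rg] using h
    · exact Or.inl ⟨Finsupp.mem_support_iff.1 hv, h⟩
  have hd : Disjoint (So1 j r δ) {none, some (j, r), some (j + 1, r)} := by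
    rw [Finset.disjoint_left]
    intro v hv h
    refine (mem_So1.1 hv).2 ?_
    simpa [Rg] using h
  rw [e1, Finset.prod_union hd, Finset.prod_insert (by simp), Finset.prod_insert (by simp), Finset.prod_singleton]

theorem W1X_sp (W : VX → Wt ℝ) (j r : ℤ) (δ : VX →₀ Cell) : W1X W δ = (∏ v ∈ So1 j r δ, (δ v).wt (W v)) *
    ((δ none).wt (W none) * ((δ (some (j, r))).wt (W (some (j, r))) * (δ (some (j + 1, r))).wt (W (some (j + 1, r))))) :=
  prod_sp (fun v => (δ v).wt (W v)) (fun v hv => by rw [hv]; rfl) j r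

theorem lf_sp {θ : VX → Cell → ℝ} (ho : ∀ v, θ v .o = 1) (j r : ℤ) (δ : VX →₀ Cell) :
    lf θ (fam1 δ) () = (∏ v ∈ So1 j r δ, θ v (δ v)) *
      (θ none (δ none) * (θ (some (j, r)) (δ (some (j, r))) * θ (some (j + 1, r)) (δ (some (j + 1, r))))) := by
  unfold lf
  rw [fam1_supp]
  simp only [fam1_apply]
  exact prod_sp (fun v => θ v (δ v)) (fun v hv => by rw [hv]; exact ho v) j r

/-! ### the last column above the region -/

/-- the ratio of the weights of the column `j` above the row `r` -/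
def Qs (j r : ℤ) (δ : VX →₀ Cell) : ℝ := ∏ v ∈ So1 j r δ, match v with
  | none => (1 : ℝ)
  | some p => if p.1 = j ∧ r < p.2 then rt (δ (some p)) else 1

/-- a loop in the columns `≤ j` off the region -/
structure RtC (j s r : ℤ) (δ : VX →₀ Cell) : Prop where
  sr : s = r ∨ s = r + 1
  lp : Lp (gX j s) δ
  us : Us1 j r δ
  off : ∀ p : Pt, (some p : VX) ∉ Rg j r → δ (some p) ≠ .o → p.1 ≤ j

theorem nRg {x y : ℤ} (h : y ≠ r ∨ x < j ∨ j + 1 < x) : (some (x, y) : VX) ∉ Rg j r := by
  simp only [Rg, Set.mem_insert_iff, reduceCtorEq, Set.mem_singleton_iff, Option.some.injEq, Prod.mk.injEq, false_or]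
  omega

/-- the cells of the column `j` above and below the region -/
theorem RtC.cell (h : RtC j s r δ) {y : ℤ} (hy : y ≠ r) :
    δ (some (j, y)) = .o ∨ δ (some (j, y)) = .v ∨ δ (some (j, y)) = .sw ∨ δ (some (j, y)) = .nw := by
  have hE : ¬ (δ (some (j, y))).oc .E := by
    intro h1
    rw [edge_h (h.lp.mt) j y] at h1
    have h2 : δ (some (j + 1, y)) ≠ .o := by
      intro h3
      rw [h3] at h1
      exact h1 rfl
    have h4 := h.off (j + 1, y) (nRg (Or.inl hy)) h2
    simp only at h4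
    omega
  revert hE
  cases δ (some (j, y)) <;> simp [E.Cell.oc, E.Cell.p]

/-- the vertical edges above the region are ordinary -/
theorem edge_v (mt : Mt (gX j s) δ Set.univ) {x y : ℤ} (hy : y + 1 ≠ s) :
    (δ (some (x, y))).oc .N ↔ (δ (some (x, y + 1))).oc .S := by
  have h := mt (some (x, y), .N) trivial trivial
  have e : (gX j s).e (some (x, y), .N) = (some (x, y + 1), .S) := by
    show eX j s (some (x, y), .N) = _
    simp only [eX, Prod.mk.injEq]
    rw [if_neg (by omega), if_neg (by omega)]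
    rfl
  rw [e] at h
  exact h

open Classical in
/-- the potential of the column -/
def pov (δ : VX →₀ Cell) (x y : ℤ) : ℝ := if (δ (some (x, y))).oc .S then rt .sw else 1

theorem rt_step (h : RtC j s r δ) {y : ℤ} (hy : r < y) : pov δ j y ≤ rt (δ (some (j, y))) * pov δ j (y + 1) := by
  have e : pov δ j (y + 1) = if (δ (some (j, y))).oc .N then rt .sw else 1 :=
    if_congr (edge_v h.lp.mt (by rcases h.sr with h1 | h1 <;> omega)).symm rfl rfl
  rw [e]
  unfold pov
  have p1 := rt_pos (c := .sw) (by simp)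
  rcases h.cell (show y ≠ r by omega) with h1 | h1 | h1 | h1 <;> rw [h1]
  · rw [if_neg (by decide), if_neg (by decide), rt_o, mul_one]
  · rw [if_pos (by decide), if_pos (by decide)]
    exact le_mul_of_one_le_left p1.le rt_v1
  · rw [if_pos (by decide), if_neg (by decide), mul_one]
  · rw [if_neg (by decide), if_pos (by decide), mul_comm]
    exact rt_sn

theorem rt_prod (h : RtC j s r δ) (n : ℕ) :
    pov δ j (r + 1) ≤ (∏ y ∈ Finset.Ico (r + 1) (r + 1 + n), rt (δ (some (j, y)))) * pov δ j (r + 1 + n) := by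
  induction n with
  | zero => simp
  | succ n ih =>
    have e : Finset.Ico (r + 1) (r + 1 + (n + 1 : ℕ)) = insert (r + 1 + n) (Finset.Ico (r + 1) (r + 1 + n)) := by
      ext x
      simp only [Finset.mem_Ico, Finset.mem_insert]
      push_cast
      omega
    rw [e, Finset.prod_insert (by simp)]
    have h1 := rt_step h (y := r + 1 + n) (by omega)
    have h2 : 0 ≤ ∏ y ∈ Finset.Ico (r + 1) (r + 1 + (n : ℤ)), rt (δ (some (j, y))) := by
      refine Finset.prod_nonneg fun y hy => ?_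
      have hy' := Finset.mem_Ico.1 hy
      rcases h.cell (show y ≠ r by omega) with h1 | h1
      · rw [h1, rt_o]
        exact zero_le_one
      · exact (rt_pos h1).le
    have e2 : r + 1 + ((n + 1 : ℕ) : ℤ) = r + 1 + n + 1 := by push_cast; ring
    rw [e2]
    calc _ ≤ (∏ y ∈ Finset.Ico (r + 1) (r + 1 + (n : ℤ)), rt (δ (some (j, y)))) * pov δ j (r + 1 + n) := ih
      _ ≤ (∏ y ∈ Finset.Ico (r + 1) (r + 1 + (n : ℤ)), rt (δ (some (j, y)))) *
          (rt (δ (some (j, r + 1 + n))) * pov δ j (r + 1 + n + 1)) := mul_le_mul_of_nonneg_left h1 h2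
      _ = _ := by ring

/-- the lower bound of `Qs` -/
def κq : ℝ := min 1 (rt .sw)

theorem κq_pos : 0 < κq := lt_min one_pos (rt_pos (by simp))

/-- **`Qs` is bounded below** -/
theorem Qs_low (h : RtC j s r δ) : κq ≤ Qs j r δ := by
  classical
  obtain ⟨M, hM0, hM⟩ := ex_M δ
  set n : ℕ := (|r| + M + 1).toNat with hn
  have hn' : (n : ℤ) = |r| + M + 1 := Int.toNat_of_nonneg (by positivity)
  have hr1 := neg_abs_le r
  set e : ℤ ↪ VX := ⟨fun y => some (j, y), fun a b h => by simpa using h⟩ with he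
  have e1 : Qs j r δ = ∏ y ∈ Finset.Ico (r + 1) (r + 1 + n), rt (δ (some (j, y))) := by
    have e2 : ∏ y ∈ Finset.Ico (r + 1) (r + 1 + (n : ℤ)), rt (δ (some (j, y))) =
        ∏ v ∈ (Finset.Ico (r + 1) (r + 1 + (n : ℤ))).map e, match v with
          | none => (1 : ℝ)
          | some p => if p.1 = j ∧ r < p.2 then rt (δ (some p)) else 1 := by
      rw [Finset.prod_map]
      refine Finset.prod_congr rfl fun y hy => ?_
      have hy' := Finset.mem_Ico.1 hy
      show _ = if j = j ∧ r < y then rt (δ (some (j, y))) else 1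
      rw [if_pos ⟨rfl, by omega⟩]
    rw [e2]
    unfold Qs
    refine Finset.prod_congr_of_eq_on_inter ?_ ?_ ?_
    · intro v hv hv'
      obtain _ | ⟨x, y⟩ := v
      · rfl
      · show (if x = j ∧ r < y then rt (δ (some (x, y))) else 1) = 1
        refine if_neg fun h1 => hv' ?_
        rw [Finset.mem_map]
        have h2 := (mem_So1.1 hv).1
        have h3 := (abs_lt.1 (hM _ h2).2).2
        change y < M at h3
        exact ⟨y, Finset.mem_Ico.2 ⟨by omega, by omega⟩, by rw [h1.1]; rfl⟩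
    · intro v hv hv'
      obtain ⟨y, hy, rfl⟩ := Finset.mem_map.1 hv
      have hy' := Finset.mem_Ico.1 hy
      show (if j = j ∧ r < y then rt (δ (some (j, y))) else 1) = 1
      by_cases h1 : δ (some (j, y)) = .o
      · rw [h1, rt_o, ite_self]
      · exact (hv' (mem_So1.2 ⟨h1, nRg (Or.inl (by omega))⟩)).elim
    · intro v _ _
      rfl
  have h4 : pov δ j (r + 1 + n) = 1 := by
    refine if_neg fun h => ?_
    have h5 : δ (some (j, r + 1 + n)) ≠ .o := by
      intro h6
      rw [h6] at h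
      exact h rfl
    have h6 := (abs_lt.1 (hM _ h5).2).2
    change r + 1 + n < M at h6
    omega
  have h5 := rt_prod h n
  rw [h4, mul_one] at h5
  rw [e1]
  refine le_trans ?_ h5
  unfold pov κq
  split_ifs
  · exact min_le_right _ _
  · exact min_le_left _ _

/-! ### comparison of the weights -/

/-- the tables with the angle `b` in the column `j`, the honeycomb elsewhere -/
def Wu (j : ℤ) : VX → Wt ℝ
  | none => wR dA
  | some v => wR (if v.1 = j then bA else hA)

/-- the bound of one weight -/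
def Kw : ℝ := 1 + ∑ c : Cell, (|c.wt (wR hA)| + |c.wt (wR bA)| + |c.wt (wR dA)| + |rt c|) + (wR dA).u1⁻¹

theorem wt_Kw (c : Cell) : |c.wt (wR hA)| ≤ Kw ∧ |c.wt (wR bA)| ≤ Kw ∧ |c.wt (wR dA)| ≤ Kw ∧ |rt c| ≤ Kw := by
  have h := Finset.single_le_sum (f := fun c : Cell => |c.wt (wR hA)| + |c.wt (wR bA)| + |c.wt (wR dA)| + |rt c|)
    (fun _ _ => by positivity) (Finset.mem_univ c)
  have h1 := abs_nonneg (c.wt (wR hA))
  have h2 := abs_nonneg (c.wt (wR bA))
  have h3 := abs_nonneg (c.wt (wR dA))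
  have h4 := abs_nonneg (rt c)
  have h5 : 0 < (wR dA).u1⁻¹ := inv_pos.2 (wR_u1_pos dA_rg.1 dA_rg.2)
  unfold Kw
  refine ⟨?_, ?_, ?_, ?_⟩ <;> linarith

theorem Kw_one : 1 ≤ Kw ∧ (wR dA).u1⁻¹ ≤ Kw := by
  have h : 0 ≤ ∑ c : Cell, (|c.wt (wR hA)| + |c.wt (wR bA)| + |c.wt (wR dA)| + |rt c|) :=
    Finset.sum_nonneg fun _ _ => by positivity
  have h5 : 0 < (wR dA).u1⁻¹ := inv_pos.2 (wR_u1_pos dA_rg.1 dA_rg.2)
  unfold Kw
  constructor <;> linarith

theorem Kw_pos : 0 < Kw := zero_lt_one.trans_le Kw_one.1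

theorem WH_Kw (v : VX) (c : Cell) : |c.wt (WH j s v)| ≤ Kw := by
  obtain ⟨h1, h2, h3, -⟩ := wt_Kw c
  obtain _ | v := v
  · exact h3
  · simp only [WH, WL]
    split_ifs <;> assumption

/-- **off the region** the weight times the ratio is the weight with the angle `b` in the column `j` -/
theorem off_w (h : RtC j s r δ) : (∏ v ∈ So1 j r δ, (δ v).wt (WH j s v)) * Qs j r δ = ∏ v ∈ So1 j r δ, (δ v).wt (Wu j v) := by
  unfold Qs
  rw [← Finset.prod_mul_distrib]
  refine Finset.prod_congr rfl fun v hv => ?_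
  obtain ⟨h1, h2⟩ := mem_So1.1 hv
  obtain _ | ⟨x, y⟩ := v
  · exact (h2 (Or.inl rfl)).elim
  · have h3 := h.off (x, y) h2 h1
    simp only at h3
    show (δ (some (x, y))).wt (WH j s (some (x, y))) * (if x = j ∧ r < y then rt (δ (some (x, y))) else 1) =
      (δ (some (x, y))).wt (wR (if x = j then bA else hA))
    simp only [WH, WL]
    by_cases hx : x = j
    · subst hx
      have hy : y ≠ r := by
        rintro rfl
        exact h2 (Or.inr (Or.inl rfl))
      have hc := h.cell hy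
      by_cases hy2 : r < y
      · rw [if_pos rfl, if_neg (show ¬ y < s by rcases h.sr with h4 | h4 <;> omega), if_pos ⟨rfl, hy2⟩, if_pos rfl]
        have h5 : (δ (some (x, y))).wt (wR hA) ≠ 0 := by
          rcases hc with h6 | h6
          · exact (h1 h6).elim
          · exact (wt_pos hA_rg.1 hA_rg.2 h6).ne'
        unfold rt
        field_simp
      · rw [if_pos rfl, if_pos (show y < s by rcases h.sr with h4 | h4 <;> omega), if_neg (fun h' => hy2 h'.2), if_pos rfl, mul_one]
    · rw [if_neg hx, if_neg (show ¬ x = j + 1 by omega), if_neg (fun h' => hx h'.1), if_neg hx, mul_one]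

/-- the coefficient `cR` -/
theorem cR_le (h : RtC j s r δ) (hR : j ≤ ht (fam1 δ) () 1) : |cR j s (fam1 δ) ()| ≤ Kw ^ 3 / κq * Qs j r δ := by
  have hQ := Qs_low h
  have hκ := κq_pos
  have hQ0 : 0 < Qs j r δ := hκ.trans_le hQ
  have hK := Kw_one
  have hK0 := Kw_pos
  have hK3 : 1 ≤ Kw ^ 3 := one_le_pow₀ hK.1
  have hκ1 : κq ≤ 1 := min_le_left _ _
  rcases hR.eq_or_lt with hR | hR
  · -- the last column is `j`
    have e : cR j s (fam1 δ) () = lf (thR j s j) (fam1 δ) () := by
      unfold cR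
      rw [← hR]
    have e2 : ∏ v ∈ So1 j r δ, thR j s j v (δ v) = Qs j r δ := by
      unfold Qs
      refine Finset.prod_congr rfl fun v hv => ?_
      obtain ⟨h1, h2⟩ := mem_So1.1 hv
      obtain _ | ⟨x, y⟩ := v
      · exact (h2 (Or.inl rfl)).elim
      · show (if x = j ∧ (j < j ∨ (j = j ∧ s ≤ y)) then rt (δ (some (x, y))) else 1) =
          if x = j ∧ r < y then rt (δ (some (x, y))) else 1
        refine if_congr (and_congr_right fun hx => ?_) rfl rfl
        have hy : y ≠ r := by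
          rintro rfl
          subst hx
          exact h2 (Or.inr (Or.inl rfl))
        rcases h.sr with h4 | h4 <;> omega
    have b : ∀ v c, |thR j s j v c| ≤ Kw := by
      intro v c
      obtain _ | ⟨x, y⟩ := v
      · show |if j = j ∧ c ≠ .o then ((wR dA).u1)⁻¹ else 1| ≤ Kw
        split_ifs
        · rw [abs_of_pos (inv_pos.2 (wR_u1_pos dA_rg.1 dA_rg.2))]
          exact hK.2
        · rw [abs_one]
          exact hK.1
      · show |if x = j ∧ (j < j ∨ (j = j ∧ s ≤ y)) then rt c else 1| ≤ Kw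
        split_ifs
        · exact (wt_Kw c).2.2.2
        · rw [abs_one]
          exact hK.1
    rw [e, lf_sp (fun v => thR_o _ _ _ _) j r δ, e2, abs_mul, abs_mul, abs_mul, abs_of_pos hQ0, mul_comm]
    refine mul_le_mul_of_nonneg_right ?_ hQ0.le
    calc |thR j s j none (δ none)| * (|thR j s j (some (j, r)) (δ (some (j, r)))| *
          |thR j s j (some (j + 1, r)) (δ (some (j + 1, r)))|) ≤ Kw * (Kw * Kw) := by
          have := b none (δ none)
          have := b (some (j, r)) (δ (some (j, r)))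
          have := b (some (j + 1, r)) (δ (some (j + 1, r)))
          gcongr
      _ = Kw ^ 3 := by ring
      _ ≤ Kw ^ 3 / κq := le_div_self (by positivity) hκ hκ1
  · have e : cR j s (fam1 δ) () = 1 := by
      unfold cR lf
      refine Finset.prod_eq_one fun v _ => ?_
      obtain _ | ⟨x, y⟩ := v
      · show (if ht (fam1 δ) () 1 = j ∧ _ then _ else (1 : ℝ)) = 1
        exact if_neg fun h' => by omega
      · show (if x = ht (fam1 δ) () 1 ∧ (ht (fam1 δ) () 1 < j ∨ (ht (fam1 δ) () 1 = j ∧ s ≤ y)) then _ else (1 : ℝ)) = 1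
        exact if_neg fun h' => by omega
    rw [e, abs_one]
    calc (1 : ℝ) ≤ Kw ^ 3 * 1 := by rw [mul_one]; exact hK3
      _ ≤ Kw ^ 3 * (Qs j r δ / κq) := mul_le_mul_of_nonneg_left ((one_le_div hκ).2 hQ) (by positivity)
      _ = _ := by ring

/-- the coefficient `cL` of a loop which begins left of the strip -/
theorem cL_one (hL : ht (fam1 δ) () 0 ≤ j) : cL j s (fam1 δ) () = 1 := by
  unfold cL lf
  refine Finset.prod_eq_one fun v _ => ?_
  obtain _ | ⟨x, y⟩ := v
  · show (if ht (fam1 δ) () 0 = j + 1 ∧ _ then _ else (1 : ℝ)) = 1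
    exact if_neg fun h' => by omega
  · show (if x = ht (fam1 δ) () 0 ∧ (j + 1 < ht (fam1 δ) () 0 ∨ (ht (fam1 δ) () 0 = j + 1 ∧ y < s)) then _ else (1 : ℝ)) = 1
    exact if_neg fun h' => by omega

/-- **the size of the coefficients** -/
theorem sz_le (h : RtC j s r δ) (hR : j ≤ ht (fam1 δ) () 1) (hL : ht (fam1 δ) () 0 ≤ j) (hn : (cl (fam1 δ) ()).Nonempty) :
    sz1 j s δ ≤ (2 + 2 * Mc + Kw ^ 3) / κq * Qs j r δ := by
  have hQ := Qs_low h
  have hκ := κq_pos
  have h1 := cR_le h hR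
  have h2 := cT_bd (j := j) (s := s) h.lp.mt
  have h3 := cB_bd (j := j) (s := s) h.lp.mt hn
  have h4 : (1 : ℝ) ≤ Qs j r δ / κq := (one_le_div hκ).2 hQ
  have hM := Mc_ge
  unfold sz1
  rw [cL_one hL, abs_one]
  calc 1 + |cR j s (fam1 δ) ()| + 1 + |cT j s (fam1 δ) ()| + |cB j s (fam1 δ) ()|
      ≤ 1 + Kw ^ 3 / κq * Qs j r δ + 1 + Mc + Mc := by linarith
    _ = (2 + 2 * Mc) * 1 + Kw ^ 3 / κq * Qs j r δ := by ring
    _ ≤ (2 + 2 * Mc) * (Qs j r δ / κq) + Kw ^ 3 / κq * Qs j r δ := by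
        have := mul_le_mul_of_nonneg_left h4 (show (0 : ℝ) ≤ 2 + 2 * Mc by linarith)
        linarith
    _ = _ := by ring

theorem upc_So1 (c : Cell × Cell × Cell) : So1 j r (upc j r δ c) = So1 j r δ := by
  ext v
  rw [mem_So1, mem_So1]
  refine and_congr_left fun hv => ?_
  rw [← upc_out c v hv]

/-- the constant of the fill -/
def kf : ℝ := min (min ((Cell.v).wt (wR bA)) ((Cell.sw).wt (wR bA))) ((Cell.nw).wt (wR bA))

theorem kf_pos : 0 < kf := lt_min (lt_min (wt_pos bA_rg.1 bA_rg.2 (by simp)) (wt_pos bA_rg.1 bA_rg.2 (by simp)))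
  (wt_pos bA_rg.1 bA_rg.2 (by simp))

theorem kf_le {f : Cell} (hf : f = .v ∨ f = .sw ∨ f = .nw) : kf ≤ f.wt (wR bA) := by
  rcases hf with rfl | rfl | rfl
  · exact (min_le_left _ _).trans (min_le_left _ _)
  · exact (min_le_left _ _).trans (min_le_right _ _)
  · exact min_le_right _ _

/-- **the weight of the loop against the weight of the filled loop** -/
theorem side_w (h : RtC j s r δ) {f : Cell} (hf : f = .v ∨ f = .sw ∨ f = .nw) :
    |W1X (WH j s) δ| * Qs j r δ ≤ Kw ^ 3 / kf * |W1X (Wu j) (upc j r δ (.o, f, .o))| := by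
  have hQ0 : 0 < Qs j r δ := κq_pos.trans_le (Qs_low h)
  have hk := kf_pos
  have hK0 := Kw_pos
  have e1 : W1X (Wu j) (upc j r δ (.o, f, .o)) = (∏ v ∈ So1 j r δ, (δ v).wt (Wu j v)) * f.wt (wR bA) := by
    rw [W1X_sp (Wu j) j r, upc_So1, upc_none, upc_left, upc_right]
    have e2 : ∏ v ∈ So1 j r δ, (upc j r δ (.o, f, .o) v).wt (Wu j v) = ∏ v ∈ So1 j r δ, (δ v).wt (Wu j v) :=
      Finset.prod_congr rfl fun v hv => by rw [← upc_out _ v (mem_So1.1 hv).2]
    rw [e2]
    show _ * ((1 : ℝ) * (f.wt (wR (if j = j then bA else hA)) * 1)) = _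
    rw [if_pos rfl, one_mul, mul_one]
  have hf0 : kf ≤ f.wt (wR bA) := kf_le hf
  rw [e1, W1X_sp (WH j s) j r δ, abs_mul (∏ v ∈ So1 j r δ, (δ v).wt (WH j s v)),
    abs_mul (∏ v ∈ So1 j r δ, (δ v).wt (Wu j v)), abs_of_pos (hk.trans_le hf0), ← off_w h, abs_mul _ (Qs j r δ),
    abs_of_pos hQ0]
  set A := |∏ v ∈ So1 j r δ, (δ v).wt (WH j s v)| with hA
  have hA0 : 0 ≤ A := abs_nonneg _
  have h3 : |(δ none).wt (WH j s none) * ((δ (some (j, r))).wt (WH j s (some (j, r))) *
      (δ (some (j + 1, r))).wt (WH j s (some (j + 1, r))))| ≤ Kw ^ 3 := by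
    rw [abs_mul, abs_mul]
    have b1 := WH_Kw (j := j) (s := s) none (δ none)
    have b2 := WH_Kw (j := j) (s := s) (some (j, r)) (δ (some (j, r)))
    have b3 := WH_Kw (j := j) (s := s) (some (j + 1, r)) (δ (some (j + 1, r)))
    calc _ ≤ Kw * (Kw * Kw) := by gcongr
      _ = Kw ^ 3 := by ring
  calc A * |(δ none).wt (WH j s none) * ((δ (some (j, r))).wt (WH j s (some (j, r))) *
        (δ (some (j + 1, r))).wt (WH j s (some (j + 1, r))))| * Qs j r δ ≤ A * Kw ^ 3 * Qs j r δ := by gcongr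
    _ = Kw ^ 3 / kf * (A * Qs j r δ * kf) := by field_simp
    _ ≤ Kw ^ 3 / kf * (A * Qs j r δ * f.wt (wR bA)) := by gcongr

end

end Pool.Agent.ROT.X
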