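import Pool.Agent.ROT.LTab
import Pool.Agent.EXL.YBgen

/-!
# UNIV, exact side (helper25): the table of a row swap, for all weights

The region of the row `r` (the crossing, the cells `(j, r)`, `(j + 1, r)`) in the graph `1` (the crossing above the row) and `2`
(below). `grp` = the 174 good states of the two graphs, in 51 groups = the pairings of the six ports.

* **`tab_of`** : an identity for every pairing of the ports = 51 explicit sums (`f t s c1 c2`, `t = 1, 2` the graph, `s` the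
  crossing, `c1`, `c2` the left and the right cell);
* **`tabYB`** : with a solution `YB a c b` of the Yang-Baxter equation: crossing `a`; above: left cell `c`, right cell `b`;
  below: left cell `b`, right cell `c`: the same sum for every pairing of the ports.
-/

set_option autoImplicit false

namespace Pool.Agent.ROT.X

open Pool.Agent.EXL (Wt YB)
open Pool.Agent.ROT.E (Cell)
open Pool.Agent.ROT.L (conn)
open Pool.Agent.ROT.L.Tb (good en cd cd_inj conn_eq sts sum_sts sum_filter)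

/-- a state: the graph, the crossing, the left cell, the right cell -/
abbrev St4 := Fin 3 × Cell × Cell × Cell

/-- **the good states of the two graphs with a crossing**, by the pairing of the ports (the code of the pairing) -/
def grp : List (ℕ × List St4) := [
  (1865, [(1, .o, .o, .o), (2, .o, .o, .o)]),
  (1870, [(1, .nw, .o, .o), (1, .x, .ne, .nw), (2, .o, .ne, .nw), (2, .nw, .v, .v)]),
  (1895, [(1, .h, .o, .ne), (1, .sw, .ne, .h), (2, .o, .ne, .h), (2, .nw, .v, .se)]),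
  (1935, [(1, .v, .ne, .h), (1, .ne, .o, .ne), (2, .o, .o, .ne), (2, .nw, .se, .y)]),
  (2045, [(1, .o, .h, .h), (1, .se, .nw, .ne), (2, .o, .h, .h), (2, .nw, .sw, .se)]),
  (2050, [(1, .nw, .h, .h), (1, .y, .nw, .ne), (2, .nw, .x, .y)]),
  (2285, [(1, .h, .h, .nw), (1, .sw, .nw, .o), (2, .o, .nw, .o), (2, .nw, .x, .sw)]),
  (2355, [(1, .x, .nw, .ne), (2, .o, .nw, .ne), (2, .nw, .x, .x), (2, .nw, .y, .y)]),
  (2510, [(1, .v, .nw, .o), (1, .ne, .h, .nw), (2, .o, .h, .nw), (2, .nw, .sw, .v)]),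
  (2945, [(1, .o, .h, .sw), (1, .se, .nw, .v), (2, .h, .sw, .o), (2, .ne, .h, .sw)]),
  (2950, [(1, .nw, .h, .sw), (1, .y, .nw, .v), (2, .h, .x, .nw)]),
  (2975, [(1, .h, .h, .x), (2, .h, .x, .h)]),
  (3015, [(1, .ne, .h, .x), (2, .h, .sw, .ne), (2, .ne, .h, .x)]),
  (4385, [(1, .o, .o, .se), (1, .se, .ne, .x), (2, .h, .se, .h), (2, .ne, .o, .se)]),
  (4390, [(1, .nw, .o, .se), (1, .x, .ne, .y), (1, .y, .ne, .x), (2, .ne, .ne, .y)]),
  (4805, [(1, .h, .h, .y), (1, .sw, .nw, .se), (2, .h, .y, .h), (2, .ne, .nw, .se)]),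
  (5030, [(1, .v, .nw, .se), (1, .ne, .h, .y), (2, .ne, .h, .y)]),
  (5735, [(1, .h, .o, .v), (1, .sw, .ne, .sw), (2, .h, .v, .o), (2, .ne, .ne, .sw)]),
  (5805, [(1, .x, .ne, .x), (2, .h, .v, .ne), (2, .ne, .ne, .x)]),
  (7045, [(1, .v, .ne, .sw), (1, .ne, .o, .v), (2, .h, .se, .nw), (2, .ne, .o, .v)]),
  (7465, [(1, .x, .nw, .v), (2, .h, .y, .nw), (2, .ne, .nw, .v)]),
  (8345, [(1, .o, .se, .sw), (1, .se, .v, .v), (2, .se, .o, .o), (2, .x, .se, .sw)]),
  (8350, [(1, .nw, .se, .sw), (1, .y, .v, .v), (2, .se, .ne, .nw), (2, .y, .v, .v)]),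
  (8375, [(1, .h, .se, .x), (2, .se, .ne, .h), (2, .y, .v, .se)]),
  (8415, [(1, .ne, .se, .x), (2, .se, .o, .ne), (2, .x, .se, .x), (2, .y, .se, .y)]),
  (8525, [(1, .se, .y, .x), (2, .se, .h, .h), (2, .y, .sw, .se)]),
  (8530, [(1, .y, .y, .x), (2, .y, .x, .y)]),
  (8765, [(1, .sw, .y, .sw), (2, .se, .nw, .o), (2, .x, .y, .sw), (2, .y, .x, .sw)]),
  (8835, [(1, .x, .y, .x), (2, .se, .nw, .ne), (2, .x, .y, .x), (2, .y, .x, .x), (2, .y, .y, .y)]),
  (8990, [(1, .v, .y, .sw), (2, .se, .h, .nw), (2, .y, .sw, .v)]),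
  (16985, [(1, .o, .sw, .o), (1, .se, .y, .nw), (2, .v, .h, .sw), (2, .sw, .sw, .o)]),
  (16990, [(1, .nw, .sw, .o), (1, .x, .x, .nw), (1, .y, .y, .nw), (2, .sw, .x, .nw)]),
  (17015, [(1, .h, .sw, .ne), (1, .sw, .x, .h), (2, .sw, .x, .h)]),
  (17055, [(1, .v, .x, .h), (1, .ne, .sw, .ne), (2, .v, .h, .x), (2, .sw, .sw, .ne)]),
  (19505, [(1, .o, .sw, .se), (1, .se, .x, .x), (1, .se, .y, .y), (2, .x, .sw, .se)]),
  (19510, [(1, .nw, .sw, .se), (1, .x, .x, .y), (1, .y, .x, .x), (1, .y, .y, .y), (2, .x, .x, .y)]),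
  (20855, [(1, .h, .sw, .v), (1, .sw, .x, .sw), (2, .x, .x, .sw)]),
  (20925, [(1, .x, .x, .x), (2, .x, .x, .x)]),
  (22165, [(1, .v, .x, .sw), (1, .ne, .sw, .v), (2, .x, .sw, .v)]),
  (25085, [(1, .o, .se, .h), (1, .se, .v, .ne), (2, .v, .o, .se), (2, .sw, .se, .h)]),
  (25090, [(1, .nw, .se, .h), (1, .y, .v, .ne), (2, .v, .ne, .y)]),
  (25505, [(1, .sw, .y, .h), (2, .v, .nw, .se), (2, .sw, .y, .h)]),
  (25730, [(1, .v, .y, .h), (2, .v, .h, .y)]),
  (32945, [(1, .h, .se, .nw), (1, .sw, .v, .o), (2, .v, .ne, .sw), (2, .sw, .v, .o)]),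
  (33015, [(1, .x, .v, .ne), (2, .v, .ne, .x), (2, .sw, .v, .ne)]),
  (35465, [(1, .h, .se, .y), (1, .sw, .v, .se), (2, .x, .v, .se)]),
  (38125, [(1, .x, .v, .v), (2, .x, .v, .v)]),
  (40740, [(1, .v, .v, .o), (1, .ne, .se, .nw), (2, .v, .o, .v), (2, .sw, .se, .nw)]),
  (41160, [(1, .x, .y, .nw), (2, .v, .nw, .v), (2, .sw, .y, .nw)]),
  (43260, [(1, .v, .v, .se), (1, .ne, .se, .y), (2, .x, .se, .y)]),
  (43680, [(1, .x, .y, .y), (2, .x, .y, .y)])]

/-- the good states with their codes -/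
def tbX : List (ℕ × St4) := (sts.filter fun x => decide (x.1 ≠ 0) && good x.1 x.2.1 x.2.2.1 x.2.2.2).map fun x =>
  (cd (en x.1 x.2.1 x.2.2.1 x.2.2.2), x)

/-- the list of the groups, flat -/
def flX : List (ℕ × St4) := grp.flatMap fun g => g.2.map fun x => (g.1, x)

theorem tb_isPerm : tbX.isPerm flX = true := by decide +kernel

theorem tb_perm : tbX.Perm flX := List.isPerm_iff.1 tb_isPerm

theorem sum_grp (f : St4 → ℝ) (n : ℕ) : (tbX.map fun e => if e.1 = n then f e.2 else 0).sum =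
    (grp.map fun g => if g.1 = n then (g.2.map f).sum else 0).sum := by
  rw [(tb_perm.map fun e => if e.1 = n then f e.2 else 0).sum_eq, flX, L.Tb.sum_flatMap']
  congr 1
  apply List.map_congr_left
  intro g _
  rw [List.map_map]
  by_cases h : g.1 = n
  · simp only [Function.comp_def, if_pos h]
  · simp only [Function.comp_def, if_neg h]
    exact List.sum_eq_zero fun y hy => by
      obtain ⟨_, _, rfl⟩ := List.mem_map.1 hy
      rfl

/-- **every identity of the table is a list of 51 sums** -/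
theorem tab_of {f : Fin 3 → Cell → Cell → Cell → ℝ}
    (h : ∀ g ∈ grp, (g.2.map fun x => f x.1 x.2.1 x.2.2.1 x.2.2.2).sum = 0) (q : Fin 6 → Fin 6) :
    (∑ c : Cell × Cell × Cell, if conn 1 ![c.1, c.2.1, c.2.2] = some q then f 1 c.1 c.2.1 c.2.2 else 0) +
      (∑ c : Cell × Cell × Cell, if conn 2 ![c.1, c.2.1, c.2.2] = some q then f 2 c.1 c.2.1 c.2.2 else 0) = 0 := by
  have e : ∀ t : Fin 3, (∑ c : Cell × Cell × Cell, if conn t ![c.1, c.2.1, c.2.2] = some q then f t c.1 c.2.1 c.2.2 else 0) =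
      ∑ s : Cell, ∑ c1 : Cell, ∑ c2 : Cell, if conn t ![s, c1, c2] = some q then f t s c1 c2 else 0 := by
    intro t
    rw [Fintype.sum_prod_type]
    refine Finset.sum_congr rfl fun s _ => ?_
    rw [Fintype.sum_prod_type]
  have key : ∑ t : Fin 3, ∑ s : Cell, ∑ c1 : Cell, ∑ c2 : Cell,
      (if t ≠ 0 ∧ conn t ![s, c1, c2] = some q then f t s c1 c2 else 0) =
      (tbX.map fun e => if e.1 = cd q then f e.2.1 e.2.2.1 e.2.2.2.1 e.2.2.2.2 else 0).sum := by
    rw [tbX, List.map_map, sum_filter, ← sum_sts fun t s c1 c2 => if t ≠ 0 ∧ conn t ![s, c1, c2] = some q then f t s c1 c2 else 0]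
    refine congrArg List.sum (List.map_congr_left fun x _ => ?_)
    simp only [Function.comp, Bool.and_eq_true, decide_eq_true_eq]
    by_cases h0 : x.1 ≠ 0
    · by_cases hg : good x.1 x.2.1 x.2.2.1 x.2.2.2
      · have hc : x.1 ≠ 0 ∧ good x.1 x.2.1 x.2.2.1 x.2.2.2 = true := ⟨h0, hg⟩
        rw [if_pos hc]
        by_cases he : cd (en x.1 x.2.1 x.2.2.1 x.2.2.2) = cd q
        · rw [if_pos he, if_pos ⟨h0, conn_eq.2 ⟨hg, cd_inj he⟩⟩]
        · rw [if_neg he, if_neg]
          rintro ⟨-, e⟩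
          exact he (by rw [(conn_eq.1 e).2])
      · have hc : ¬(x.1 ≠ 0 ∧ good x.1 x.2.1 x.2.2.1 x.2.2.2 = true) := fun e => hg e.2
        have hd : ¬(x.1 ≠ 0 ∧ conn x.1 ![x.2.1, x.2.2.1, x.2.2.2] = some q) := fun e => hg (conn_eq.1 e.2).1
        rw [if_neg hc, if_neg hd]
    · have hc : ¬(x.1 ≠ 0 ∧ good x.1 x.2.1 x.2.2.1 x.2.2.2 = true) := fun e => h0 e.1
      have hd : ¬(x.1 ≠ 0 ∧ conn x.1 ![x.2.1, x.2.2.1, x.2.2.2] = some q) := fun e => h0 e.1
      rw [if_neg hc, if_neg hd]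
  have h2 : (tbX.map fun e => if e.1 = cd q then f e.2.1 e.2.2.1 e.2.2.2.1 e.2.2.2.2 else 0).sum = 0 := by
    rw [sum_grp fun x => f x.1 x.2.1 x.2.2.1 x.2.2.2]
    apply List.sum_eq_zero
    intro y hy
    obtain ⟨g, hg, rfl⟩ := List.mem_map.1 hy
    split_ifs
    · exact h g hg
    · rfl
  have h3 := key.trans h2
  rw [Fin.sum_univ_three] at h3
  have z0 : (∑ s : Cell, ∑ c1 : Cell, ∑ c2 : Cell,
      (if (0 : Fin 3) ≠ 0 ∧ conn 0 ![s, c1, c2] = some q then f 0 s c1 c2 else 0)) = 0 := by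
    simp
  have z1 : (∑ s : Cell, ∑ c1 : Cell, ∑ c2 : Cell,
      (if (1 : Fin 3) ≠ 0 ∧ conn 1 ![s, c1, c2] = some q then f 1 s c1 c2 else 0)) =
      ∑ s : Cell, ∑ c1 : Cell, ∑ c2 : Cell, if conn 1 ![s, c1, c2] = some q then f 1 s c1 c2 else 0 := by
    refine Finset.sum_congr rfl fun s _ => Finset.sum_congr rfl fun c1 _ => Finset.sum_congr rfl fun c2 _ => ?_
    exact if_congr (and_iff_right (by decide)) rfl rfl
  have z2 : (∑ s : Cell, ∑ c1 : Cell, ∑ c2 : Cell,
      (if (2 : Fin 3) ≠ 0 ∧ conn 2 ![s, c1, c2] = some q then f 2 s c1 c2 else 0)) =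
      ∑ s : Cell, ∑ c1 : Cell, ∑ c2 : Cell, if conn 2 ![s, c1, c2] = some q then f 2 s c1 c2 else 0 := by
    refine Finset.sum_congr rfl fun s _ => Finset.sum_congr rfl fun c1 _ => Finset.sum_congr rfl fun c2 _ => ?_
    exact if_congr (and_iff_right (by decide)) rfl rfl
  rw [z0, z1, z2, zero_add] at h3
  rw [e 1, e 2, h3]

/-! ### the Yang-Baxter equation -/

/-- the weight of a state with its sign -/
noncomputable def fyb (a c b : Wt ℝ) (t : Fin 3) (s c1 c2 : Cell) : ℝ :=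
  if t = 1 then s.wt a * (c1.wt c * c2.wt b) else -(s.wt a * (c1.wt b * c2.wt c))

theorem grp_yb {a c b : Wt ℝ} (h : YB a c b) : ∀ g ∈ grp, (g.2.map fun x => fyb a c b x.1 x.2.1 x.2.2.1 x.2.2.2).sum = 0 := by
  have e1 : ∀ s c1 c2, fyb a c b 1 s c1 c2 = s.wt a * (c1.wt c * c2.wt b) := fun _ _ _ => if_pos rfl
  have e2 : ∀ s c1 c2, fyb a c b 2 s c1 c2 = -(s.wt a * (c1.wt b * c2.wt c)) := fun _ _ _ => if_neg (by decide)
  simp only [grp, List.forall_mem_cons, List.map_cons, List.map_nil, List.sum_cons, List.sum_nil, e1, e2, Cell.wt]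
  refine ⟨?_, ?_, ?_, ?_, ?_, ?_, ?_, ?_, ?_, ?_, ?_, ?_, ?_, ?_, ?_, ?_, ?_, ?_, ?_, ?_, ?_, ?_, ?_, ?_, ?_, ?_, ?_, ?_, ?_, ?_, ?_, ?_, ?_, ?_, ?_, ?_, ?_, ?_, ?_, ?_, ?_, ?_, ?_, ?_, ?_, ?_, ?_, ?_, ?_, ?_, ?_, fun _ h => absurd h (List.not_mem_nil)⟩
  · ring
  · linear_combination h.e13
  · linear_combination h.e15
  · linear_combination h.e11
  · ring
  · linear_combination h.e9
  · linear_combination h.e10
  · linear_combination h.e12
  · linear_combination h.e14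
  · linear_combination -h.e15
  · linear_combination h.e8
  · ring
  · linear_combination h.e4
  · linear_combination -h.e10
  · linear_combination h.e18
  · ring
  · linear_combination h.e5
  · ring
  · linear_combination h.e6
  · linear_combination h.e16
  · linear_combination h.e3
  · linear_combination -h.e13
  · ring
  · linear_combination -h.e8
  · linear_combination -h.e17
  · linear_combination -h.e9
  · ring
  · linear_combination -h.e18
  · linear_combination -h.e19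
  · linear_combination -h.e7
  · linear_combination -h.e11
  · linear_combination h.e17
  · linear_combination -h.e4
  · ring
  · linear_combination -h.e12
  · linear_combination h.e19
  · linear_combination -h.e6
  · ring
  · linear_combination h.e1
  · linear_combination -h.e14
  · linear_combination h.e7
  · linear_combination -h.e5
  · ring
  · linear_combination -h.e16
  · linear_combination -h.e1
  · linear_combination -h.e3
  · ring
  · ring
  · linear_combination -h.e2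
  · linear_combination h.e2
  · ring

/-- **the table of a row swap** -/
theorem tabYB {a c b : Wt ℝ} (h : YB a c b) (q : Fin 6 → Fin 6) :
    (∑ s : Cell × Cell × Cell, if conn 1 ![s.1, s.2.1, s.2.2] = some q then s.1.wt a * (s.2.1.wt c * s.2.2.wt b) else 0) =
      ∑ s : Cell × Cell × Cell, if conn 2 ![s.1, s.2.1, s.2.2] = some q then s.1.wt a * (s.2.1.wt b * s.2.2.wt c) else 0 := by
  have h1 := tab_of (grp_yb h) q
  have e1 : ∀ s c1 c2, fyb a c b 1 s c1 c2 = s.wt a * (c1.wt c * c2.wt b) := fun _ _ _ => if_pos rfl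
  have e2 : ∀ s c1 c2, fyb a c b 2 s c1 c2 = -(s.wt a * (c1.wt b * c2.wt c)) := fun _ _ _ => if_neg (by decide)
  simp only [e1, e2] at h1
  have h2 : (∑ s : Cell × Cell × Cell, if conn 2 ![s.1, s.2.1, s.2.2] = some q then -(s.1.wt a * (s.2.1.wt b * s.2.2.wt c)) else 0) =
      -∑ s : Cell × Cell × Cell, if conn 2 ![s.1, s.2.1, s.2.2] = some q then s.1.wt a * (s.2.1.wt b * s.2.2.wt c) else 0 := by
    rw [← Finset.sum_neg_distrib]
    refine Finset.sum_congr rfl fun s _ => ?_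
    split_ifs
    · rfl
    · rw [neg_zero]
  rw [h2] at h1
  linarith

end Pool.Agent.ROT.X
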