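import Pool.Agent.ROT.XLoc
import Pool.Agent.ROT.XEnds
import Pool.Agent.ROT.XProd6
import Pool.Agent.ROT.EAlg

/-!
# UNIV, exact side, row X8 (helper21), part 1: the functional of the top row along all strips

`fQ q t` : rows below `t`: 1; row `t`: empty left of the `b` column `q`, `kT e0 0 0` in it, `kT pR mR 1` right of it; rows above
`t`: empty.  `LQ q t γ` = its product over the cells of one loop.

* `lo_G` : the functional with the crossing (`fTp t j s`) satisfies its table in every row;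
* `stripT` : `SE k (j + 1) B (LQ (j + 1) t * G) ≤ SE k j B (LQ j t * G)` for `G ≥ 0` constant on the classes of the rows of the
  strip; **`strips`** : the same from `q` down to `m`;
* `LQ_nn`, `LQ_le` : `0 ≤ LQ ≤ 1 + e0`.
-/

set_option autoImplicit false

namespace Pool.Agent.ROT.X

open Pool.Agent.EXL (Wt YB)
open Pool.Agent.YBC (Dir)
open Pool.Agent.UNI (wR)
open Pool.Agent.ROT.E (Cell IsUn Pt)
open Pool.Agent.ROT.L

noncomputable section

/-! ### numbers -/

theorem wR_pos {u : ℝ} (h1 : 0 < u) (h2 : u < 3 * Real.pi / 8) : 0 < (wR u).v ∧ 0 < (wR u).u1 ∧ 0 < (wR u).u2 :=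
  ⟨UNI.wR_v_pos h1 h2, UNI.wR_u1_pos h1 h2, UNI.wR_u2_pos h1 h2⟩

theorem pos_d : 0 < (wR dA).v ∧ 0 < (wR dA).u1 ∧ 0 < (wR dA).u2 := by
  have := Real.pi_pos
  exact wR_pos (by unfold dA; linarith) (by unfold dA; linarith)

theorem pos_b : 0 < (wR bA).v ∧ 0 < (wR bA).u1 ∧ 0 < (wR bA).u2 := by
  have := Real.pi_pos
  exact wR_pos (by unfold bA; linarith) (by unfold bA; linarith)

theorem pos_h : 0 < (wR hA).v ∧ 0 < (wR hA).u1 ∧ 0 < (wR hA).u2 := by
  have := Real.pi_pos
  exact wR_pos (by unfold hA; linarith) (by unfold hA; linarith)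

private theorem P_eq (u : ℝ) : Real.sin u * Real.sin (3 * Real.pi / 8 - u) =
    (Real.cos (2 * u - 3 * Real.pi / 8) - Real.sin (Real.pi / 8)) / 2 := by
  have h1 : Real.sin (Real.pi / 8) = Real.cos (3 * Real.pi / 8) := by
    rw [← Real.cos_pi_div_two_sub]
    congr 1
    ring
  rw [h1]
  have e1 : 2 * u - 3 * Real.pi / 8 = u - (3 * Real.pi / 8 - u) := by ring
  have e2 : Real.cos (3 * Real.pi / 8) = Real.cos (u + (3 * Real.pi / 8 - u)) := by
    congr 1
    ring
  rw [e1, e2, Real.cos_sub, Real.cos_add]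
  ring

private theorem D_eq (u : ℝ) : UNI.DR u = (Real.cos (Real.pi / 8) + Real.cos (2 * u - 3 * Real.pi / 8)) / 2 := by
  unfold UNI.DR
  have e1 : Real.cos (2 * u - 3 * Real.pi / 8) = -Real.cos ((u + Real.pi / 4) + (u + 3 * Real.pi / 8)) := by
    rw [← Real.cos_sub_pi]
    rw [← Real.cos_neg ((u + Real.pi / 4) + (u + 3 * Real.pi / 8) - Real.pi), ← Real.cos_neg]
    congr 1
    ring
  have e2 : Real.cos (Real.pi / 8) = Real.cos ((u + Real.pi / 4) - (u + 3 * Real.pi / 8)) := by
    rw [← Real.cos_neg]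
    congr 1
    ring
  have h1 := Real.cos_sub (u + Real.pi / 4) (u + 3 * Real.pi / 8)
  have h2 := Real.cos_add (u + Real.pi / 4) (u + 3 * Real.pi / 8)
  rw [e1, e2, h1, h2]
  ring

private theorem num2 : 1.4142 < √2 ∧ √2 < 1.4143 := by
  constructor
  · rw [Real.lt_sqrt (by norm_num)]
    norm_num
  · rw [Real.sqrt_lt' (by norm_num)]
    norm_num

private theorem numC : 0.9238 < Real.cos (Real.pi / 8) ∧ Real.cos (Real.pi / 8) < 0.9239 := by
  obtain ⟨h1, h2⟩ := num2
  rw [Real.cos_pi_div_eight]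
  have a : 1.8476 < √(2 + √2) := by
    rw [Real.lt_sqrt (by norm_num)]
    norm_num
    linarith
  have b : √(2 + √2) < 1.8478 := by
    rw [Real.sqrt_lt' (by norm_num)]
    norm_num
    linarith
  constructor <;> linarith

private theorem numS : 0.3826 < Real.sin (Real.pi / 8) ∧ Real.sin (Real.pi / 8) < 0.3827 := by
  obtain ⟨h1, h2⟩ := num2
  rw [Real.sin_pi_div_eight]
  have a : 0.7652 < √(2 - √2) := by
    rw [Real.lt_sqrt (by norm_num)]
    norm_num
    linarith
  have b : √(2 - √2) < 0.7654 := by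
    rw [Real.sqrt_lt' (by norm_num)]
    norm_num
    linarith
  constructor <;> linarith

/-- the parameter of the formulas -/
private def tt (β : ℝ) : ℝ := Real.cos (2 * β - 3 * Real.pi / 8)

private theorem tt_h : tt hA = Real.cos (Real.pi / 8) := by
  unfold tt hA
  rw [← Real.cos_neg]
  congr 1
  ring

private theorem tt_d : tt dA = √2 / 2 := by
  unfold tt dA
  rw [← Real.cos_neg, show -(2 * (Real.pi / 16) - 3 * Real.pi / 8) = Real.pi / 4 by ring, Real.cos_pi_div_four]

private theorem v_eq (β : ℝ) : (wR β).v = (tt β - Real.sin (Real.pi / 8)) / (Real.cos (Real.pi / 8) + tt β) := by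
  show Real.sin β * Real.sin (3 * Real.pi / 8 - β) / UNI.DR β = _
  rw [P_eq, D_eq]
  unfold tt
  rw [div_div_div_cancel_right₀ (by norm_num)]

private theorem u_eq (β : ℝ) : (wR β).u1 * (wR β).u2 =
    (tt β - Real.sin (Real.pi / 8)) / (Real.cos (Real.pi / 8) + tt β) ^ 2 := by
  show Real.sin (Real.pi / 4) * Real.sin (3 * Real.pi / 8 - β) / UNI.DR β *
    (Real.sin (Real.pi / 4) * Real.sin β / UNI.DR β) = _
  have h1 : Real.sin (Real.pi / 4) ^ 2 = 1 / 2 := by
    rw [Real.sin_pi_div_four, div_pow, Real.sq_sqrt (by norm_num)]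
    norm_num
  have e : Real.sin (Real.pi / 4) * Real.sin (3 * Real.pi / 8 - β) / UNI.DR β *
      (Real.sin (Real.pi / 4) * Real.sin β / UNI.DR β) =
      Real.sin (Real.pi / 4) ^ 2 * (Real.sin β * Real.sin (3 * Real.pi / 8 - β)) / UNI.DR β ^ 2 := by
    ring
  rw [e, h1, P_eq, D_eq]
  unfold tt
  rw [div_pow]
  field_simp
  try ring

/-- factor of a cell `se` right of the `b` column -/
def pR : ℝ := (wR dA).u1 * (wR dA).u2 / ((wR hA).u1 * (wR hA).u2)

/-- factor of a cell `h` right of the `b` column -/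
def mR : ℝ := (wR dA).v / (wR hA).v

/-- factor of a cell `se` in the `b` column -/
def e0 : ℝ := (wR dA).u2 / ((wR hA).u1 * (wR bA).u2)

theorem pR_pos : 0 < pR := by
  obtain ⟨-, h1, h2⟩ := pos_d
  obtain ⟨-, h3, h4⟩ := pos_h
  unfold pR
  positivity

theorem mR_pos : 0 < mR := div_pos pos_d.1 pos_h.1

theorem e0_pos : 0 < e0 := by
  obtain ⟨-, h1, h2⟩ := pos_d
  obtain ⟨-, h3, h4⟩ := pos_h
  obtain ⟨-, h5, h6⟩ := pos_b
  unfold e0
  positivity

theorem pR_le : pR ≤ 1 := by
  obtain ⟨c1, c2⟩ := numC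
  obtain ⟨s1, s2⟩ := numS
  obtain ⟨r1, r2⟩ := num2
  rw [pR, u_eq, u_eq, tt_d, tt_h]
  set C := Real.cos (Real.pi / 8)
  set S := Real.sin (Real.pi / 8)
  set R := √2 / 2 with hR
  have h1 : 0 < C - S := by linarith
  have h2 : 0 < C := by linarith
  have h3 : 0 < R - S := by linarith
  have h4 : 0 < R := by linarith
  rw [div_le_one (by positivity), div_le_div_iff₀ (by positivity) (by positivity)]
  have a : (C + C) ^ 2 ≤ 1.8478 ^ 2 := pow_le_pow_left₀ (by linarith) (by linarith) 2
  have b : 1.6309 ^ 2 ≤ (C + R) ^ 2 := pow_le_pow_left₀ (by norm_num) (by linarith) 2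
  have a' : (R - S) * (C + C) ^ 2 ≤ 0.3246 * 1.8478 ^ 2 := mul_le_mul (by linarith) a (by positivity) (by norm_num)
  have b' : 0.5411 * 1.6309 ^ 2 ≤ (C - S) * (C + R) ^ 2 := mul_le_mul (by linarith) b (by positivity) (by linarith)
  refine a'.trans (le_trans ?_ b')
  norm_num

theorem mR_le : mR ≤ 1 := by
  obtain ⟨c1, c2⟩ := numC
  obtain ⟨s1, s2⟩ := numS
  obtain ⟨r1, r2⟩ := num2
  rw [mR, v_eq, v_eq, tt_d, tt_h]
  set C := Real.cos (Real.pi / 8)
  set S := Real.sin (Real.pi / 8)
  set R := √2 / 2 with hR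
  have h1 : 0 < C - S := by linarith
  have h2 : 0 < C := by linarith
  have h3 : 0 < R - S := by linarith
  have h4 : 0 < R := by linarith
  rw [div_le_one (by positivity), div_le_div_iff₀ (by positivity) (by positivity)]
  have a' : (R - S) * (C + C) ≤ 0.3246 * 1.8478 := mul_le_mul (by linarith) (by linarith) (by linarith) (by norm_num)
  have b' : 0.5411 * 1.6309 ≤ (C - S) * (C + R) := mul_le_mul (by linarith) (by linarith) (by norm_num) (by linarith)
  refine a'.trans (le_trans ?_ b')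
  norm_num

/-! ### the functional -/

/-- **the functional of the top row `t`**, the `b` column at `q` -/
def fQ (q t : ℤ) (v : Pt) : Cell → ℝ :=
  if v.2 < t then fun _ => 1 else if v.2 = t then (if v.1 < q then kO else if v.1 = q then kT e0 0 0 else kT pR mR 1) else kO

/-- the same with the crossing of the strip `j` below the row `s` -/
def fTp (t j s : ℤ) : VX → Cell → ℝ
  | none => if s ≤ t then fun _ => 1 else kO
  | some v => fQ (if s ≤ t then j + 1 else j) t v

theorem fQ_o (q t : ℤ) (v : Pt) : fQ q t v .o = 1 := by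
  unfold fQ
  split_ifs <;> rfl

theorem fTp_o (t j s : ℤ) (v : VX) : fTp t j s v .o = 1 := by
  obtain _ | v := v
  · simp only [fTp]; split_ifs <;> rfl
  · exact fQ_o _ _ _

theorem lo_G (t j r : ℤ) : Lo j r (wR dA) (wR bA) (wR hA) (fTp t j (r + 1)) (fTp t j r) := by
  have hy : YB (wR dA) (wR bA) (wR hA) := by
    have hp := Real.pi_pos
    have h := E.YB_wR (x := dA) (y := hA) ⟨by unfold dA; linarith, by unfold dA; linarith⟩
      ⟨by unfold hA; linarith, by unfold hA; linarith⟩ ⟨by unfold dA hA; linarith, by unfold dA hA; linarith⟩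
    have e : dA + hA = bA := by unfold dA hA bA; ring
    rwa [e] at h
  refine ⟨fTp_o t j _, fTp_o t j _, ?_, fun q => ?_⟩
  · rintro (_ | ⟨x, y⟩) hv
    · exact absurd (Or.inl rfl) hv
    · have h1 := nR hv
      show fQ _ t (x, y) = fQ _ t (x, y)
      by_cases h5 : r + 1 ≤ t
      · rw [if_pos h5, if_pos (show r ≤ t by omega)]
      · by_cases h6 : r ≤ t
        · have h7 : r = t := by omega
          rw [if_neg h5, if_pos h6]
          unfold fQ
          simp only
          by_cases h2 : y < t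
          · rw [if_pos h2, if_pos h2]
          · rw [if_neg h2, if_neg h2]
            by_cases h3 : y = t
            · rw [if_pos h3, if_pos h3]
              have h8 : x ≠ j ∧ x ≠ j + 1 := by
                constructor <;> intro h9 <;> apply h1 <;> simp [h9, h3, h7]
              by_cases h9 : x < j
              · rw [if_pos h9, if_pos (show x < j + 1 by omega)]
              · rw [if_neg h9, if_neg h8.1, if_neg (show ¬ x < j + 1 by omega), if_neg h8.2]
            · rw [if_neg h3, if_neg h3]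
        · rw [if_neg h5, if_neg h6]
  · rcases lt_trichotomy r t with h1 | h1 | h1
    · have e1 : r + 1 ≤ t := h1
      have e2 : r ≤ t := h1.le
      simp only [fTp, fQ, if_pos e1, if_pos e2, if_pos h1, mul_one]
      exact tabYB hy q
    · subst h1
      obtain ⟨d1, d2, d3⟩ := pos_d
      obtain ⟨b1, b2, b3⟩ := pos_b
      obtain ⟨h1, h2, h3⟩ := pos_h
      have e1 : ¬ r + 1 ≤ r := by omega
      have e2 : r ≤ r := le_rfl
      have e3 : ¬ r < r := lt_irrefl r
      have e4 : ¬ j + 1 = j := by omega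
      have e5 : ¬ j + 1 < j := by omega
      have e6 : ¬ j < j := lt_irrefl j
      have e7 : j < j + 1 := by omega
      have e8 : ¬ j + 1 < j + 1 := lt_irrefl _
      simp only [fTp, fQ, if_neg e1, if_pos e2, if_neg e3, if_neg e4, if_neg e5, if_neg e6, if_pos e7, if_neg e8, if_true, e_O, e_T,
        mul_zero, mul_one]
      set L := (wR dA).u1 / (wR hA).u1 with hL
      have f1 : (wR bA).u2 * e0 = L * ((wR dA).u2 / (wR dA).u1) := by
        rw [e0, hL]; field_simp
      have f2 : (wR hA).u2 * pR = L * (wR dA).u2 := by rw [pR, hL]; field_simp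
      have f3 : (wR hA).v * mR = (wR dA).v := by rw [mR]; field_simp
      have f4 : (wR hA).u1 = (wR dA).u1 / L := by rw [hL]; field_simp
      rw [f1, f2, f3, f4]
      refine tab3 ?_ q
      have hL0 : L ≠ 0 := by rw [hL]; positivity
      have hd0 := d2.ne'
      simp only [grp, List.forall_mem_cons, List.map_cons, List.map_nil, List.sum_cons, List.sum_nil, Cell.wt, kO, kT,
        if_true, show ((2 : Fin 3) = 1) = False from by decide, if_false, mul_zero, zero_mul, neg_zero, add_zero, zero_add, mul_one,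
        one_mul, true_and, and_true, List.not_mem_nil, false_imp_iff, implies_true]
      refine ⟨by ring, ?_, ?_, by ring⟩ <;> · field_simp; ring
    · have e1 : ¬ r + 1 ≤ t := by omega
      have e2 : ¬ r ≤ t := by omega
      have e3 : ¬ r < t := by omega
      have e4 : ¬ r = t := by omega
      simp only [fTp, fQ, if_neg e1, if_neg e2, if_neg e3, if_neg e4, e_O]
      exact tabO q

/-! ### the product over one loop -/

/-- **the product of the functional over the cells of the loop** -/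
def LQ (q t : ℤ) (γ : FX Unit) : ℝ := ∏ v ∈ γ.support, v.elim 1 fun p => fQ q t p (γ v ())

variable {k j t B r : ℤ} {γ : FX Unit}

theorem kO_nn (c : Cell) : 0 ≤ kO c ∧ kO c ≤ 1 := by cases c <;> simp [kO]

theorem fQ_nn (q t : ℤ) (v : Pt) (c : Cell) : 0 ≤ fQ q t v c := by
  have h1 := pR_pos.le
  have h2 := mR_pos.le
  have h3 := e0_pos.le
  unfold fQ
  split_ifs
  · exact zero_le_one
  · exact (kO_nn c).1
  · cases c <;> simp [kT, h3]
  · cases c <;> simp [kT, h1, h2]
  · exact (kO_nn c).1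

theorem fTp_nn (t j s : ℤ) (v : VX) (c : Cell) : 0 ≤ fTp t j s v c := by
  obtain _ | v := v
  · simp only [fTp]
    split_ifs
    · exact zero_le_one
    · exact (kO_nn c).1
  · exact fQ_nn _ _ _ _

theorem fQ_le {q t : ℤ} {v : Pt} (hv : v ≠ (q, t)) (c : Cell) : fQ q t v c ≤ 1 := by
  have h1 := pR_le
  have h2 := mR_le
  unfold fQ
  split_ifs with a1 a2 a3 a4
  · exact le_rfl
  · exact (kO_nn c).2
  · exact absurd (Prod.ext a4 a2) hv
  · cases c <;> simp [kT, h1, h2]
  · exact (kO_nn c).2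

theorem fQ_le' (q t : ℤ) (v : Pt) (c : Cell) : fQ q t v c ≤ 1 + e0 := by
  have h3 := e0_pos.le
  by_cases hv : v = (q, t)
  · subst hv
    have : fQ q t (q, t) c = kT e0 0 0 c := by simp [fQ]
    rw [this]
    cases c <;> simp [kT] <;> linarith
  · exact (fQ_le hv c).trans (by linarith)

theorem LQ_nn (q t : ℤ) (γ : FX Unit) : 0 ≤ LQ q t γ := by
  refine Finset.prod_nonneg fun v _ => ?_
  obtain _ | v := v
  · exact zero_le_one
  · exact fQ_nn _ _ _ _

theorem LQ_le (q t : ℤ) (γ : FX Unit) : LQ q t γ ≤ 1 + e0 := by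
  classical
  have h3 := e0_pos.le
  have nn : ∀ v : VX, 0 ≤ v.elim 1 fun p => fQ q t p (γ v ()) := fun v => by
    obtain _ | v := v
    · exact zero_le_one
    · exact fQ_nn _ _ _ _
  have le1 : ∀ v ∈ γ.support.erase (some (q, t)), (v.elim 1 fun p => fQ q t p (γ v ())) ≤ 1 := fun v hv => by
    obtain _ | v := v
    · exact le_rfl
    · exact fQ_le (fun h => (Finset.mem_erase.1 hv).1 (congrArg some h)) _
  by_cases h : some (q, t) ∈ γ.support
  · rw [LQ, ← Finset.mul_prod_erase _ _ h]
    calc _ ≤ (1 + e0) * 1 := mul_le_mul (fQ_le' _ _ _ _) (Finset.prod_le_one (fun v _ => nn v) le1)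
          (Finset.prod_nonneg fun v _ => nn v) (by linarith)
      _ = _ := mul_one _
  · rw [Finset.erase_eq_of_notMem h] at le1
    exact (Finset.prod_le_one (fun v _ => nn v) le1).trans (by linarith)

/-- a cell above the row `t` -/
theorem LQ_zero {q t : ℤ} {p : Pt} (h : t < p.2) (h0 : γ (some p) () ≠ .o) : LQ q t γ = 0 := by
  refine Finset.prod_eq_zero (i := some p) ?_ ?_
  · rw [Finsupp.mem_support_iff]
    exact fun e => h0 (by rw [e]; rfl)
  · show fQ q t p (γ (some p) ()) = 0
    rw [fQ, if_neg (by omega), if_neg (by omega)]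
    revert h0
    cases γ (some p) () <;> simp [kO]

theorem LW_one {ρ : Unit → VX → Cell → ℝ} (γ : FX Unit) : LW ρ γ = ∏ v ∈ γ.support, ρ () v (γ v ()) :=
  Finset.prod_congr rfl fun v _ => by simp [lc]

theorem LW_LQ {s q : ℤ} (h0 : γ none = 0) (hq : (if s ≤ t then j + 1 else j) = q) :
    LW (fun _ : Unit => fTp t j s) γ = LQ q t γ := by
  rw [LW_one, LQ]
  refine Finset.prod_congr rfl fun v hv => ?_
  obtain _ | v := v
  · exact absurd h0 (Finsupp.mem_support_iff.1 hv)
  · show fQ _ t v (γ (some v) ()) = fQ q t v (γ (some v) ())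
    rw [hq]

theorem LW_zero {s : ℤ} (h0 : γ none ≠ 0) (hs : t < s) : LW (fun _ : Unit => fTp t j s) γ = 0 := by
  rw [LW_one]
  refine Finset.prod_eq_zero (i := none) (Finsupp.mem_support_iff.2 h0) ?_
  have h1 : γ none () ≠ .o := fun e => h0 (funext fun _ => e)
  simp only [fTp, if_neg (not_le.2 hs)]
  revert h1
  cases γ none () <;> simp [kO]

/-! ### the box -/

/-- the box is constant on the classes of its rows -/
theorem bx_cls {I : Type} {G G' : Gr VX} {γ γ' : FX I} (e : Eq6 (Rg j r) G G' γ γ') (hr : |r| ≤ B) (h1 : -B ≤ j)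
    (h2 : j + 1 ≤ B) : Bx B γ ↔ Bx B γ' := by
  have key : ∀ {γ γ' : FX I}, (∀ v, v ∉ Rg j r → γ v = γ' v) → Bx B γ → Bx B γ' := by
    intro γ γ' out hb x y hv
    by_cases h : (some (x, y) : VX) ∈ Rg j r
    · obtain ⟨h3, h4⟩ := some_mem_Rg.1 h
      subst h4
      refine ⟨abs_le.2 ?_, hr⟩
      rcases h3 with h3 | h3 <;> constructor <;> omega
    · exact hb x y (by rw [out _ h]; exact hv)
  exact ⟨key e.out, key fun v hv => (e.out v hv).symm⟩

open Classical in
/-- **one row** -/
theorem row_G {G : FX Unit → ℝ} (cs : Cs j r G) (gd : ∀ γ, G γ ≠ 0 → Gd (Rg j r) γ) (hr : |r| ≤ B) (h1 : -B ≤ j)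
    (h2 : j + 1 ≤ B) : SX k j (r + 1) B (fun γ => LW (fun _ : Unit => fTp t j (r + 1)) γ * G γ) =
      SX k j r B (fun γ => LW (fun _ : Unit => fTp t j r) γ * G γ) := by
  have hy : YB (wR dA) (wR bA) (wR hA) := by
    have hp := Real.pi_pos
    have h := E.YB_wR (x := dA) (y := hA) ⟨by unfold dA; linarith, by unfold dA; linarith⟩
      ⟨by unfold hA; linarith, by unfold hA; linarith⟩ ⟨by unfold dA hA; linarith, by unfold dA hA; linarith⟩
    have e : dA + hA = bA := by unfold dA hA bA; ring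
    rwa [e] at h
  set G' : FX Unit → ℝ := fun γ => if Bx B γ then G γ else 0 with hG'
  have key := row_loc_eq (W := WE k j (r + 1)) (W' := WE k j r) hy (fun _ hv => WL_out hv) rfl rfl (by simp [WE, WL])
    (by simp [WE, WL]) (by simp [WE, WL]) (by simp [WE, WL]) (ρ := fun _ : Unit => fTp t j (r + 1))
    (ρ' := fun _ : Unit => fTp t j r) (fun _ => lo_G t j r) (G := G')
    ((fin_Bx (I := Unit) B).subset fun γ h => by
      by_contra hb
      exact h (if_neg hb))
    (fun γ h => gd γ fun h0 => h (by simp only [hG', h0, ite_self]))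
    (fun t1 t2 γ γ' a b e => by
      simp only [hG']
      rw [cs t1 t2 γ γ' a b e]
      exact if_congr (bx_cls e hr h1 h2) rfl rfl)
    (fun γ _ ⟨i, k, hik, _⟩ => hik (Subsingleton.elim i k))
  have e : ∀ s, SX k j s B (fun γ => LW (fun _ : Unit => fTp t j s) γ * G γ) =
      ∑' γ : FX Unit, if Fam (gX j s) γ then WX (WE k j s) γ * (LW (fun _ : Unit => fTp t j s) γ * G' γ) else 0 := by
    intro s
    refine tsum_congr fun γ => ?_
    by_cases hb : Bx B γ
    · simp only [hG', if_pos hb, hb, and_true]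
    · simp only [hG', if_neg hb, hb, and_false, if_false, mul_zero, ite_self]
  rw [e, e]
  exact key

/-- all rows of the box -/
theorem rows_G {G : FX Unit → ℝ} (cs : ∀ r, |r| ≤ B → Cs j r G) (gd : ∀ r, |r| ≤ B → ∀ γ, G γ ≠ 0 → Gd (Rg j r) γ)
    (hB : 0 ≤ B) (h1 : -B ≤ j) (h2 : j + 1 ≤ B) : SX k j (B + 1) B (fun γ => LW (fun _ : Unit => fTp t j (B + 1)) γ * G γ) =
      SX k j (-B) B (fun γ => LW (fun _ : Unit => fTp t j (-B)) γ * G γ) := by
  have key : ∀ n : ℕ, (n : ℤ) ≤ 2 * B + 1 → SX k j (-B + n) B (fun γ => LW (fun _ : Unit => fTp t j (-B + n)) γ * G γ) =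
      SX k j (-B) B (fun γ => LW (fun _ : Unit => fTp t j (-B)) γ * G γ) := by
    intro n
    induction n with
    | zero => intro _; simp
    | succ n ih =>
      intro hn
      push_cast at hn
      rw [← ih (by omega)]
      have h := row_G (k := k) (t := t) (B := B) (cs (-B + n) (abs_le.2 ⟨by omega, by omega⟩))
        (gd (-B + n) (abs_le.2 ⟨by omega, by omega⟩)) (abs_le.2 ⟨by omega, by omega⟩) h1 h2
      push_cast
      rw [← add_assoc]
      exact h
  have h := key (2 * B + 1).toNat (by rw [Int.toNat_of_nonneg (by omega)])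
  rw [Int.toNat_of_nonneg (by omega)] at h
  rw [show -B + (2 * B + 1) = B + 1 by ring] at h
  exact h

/-! ### one strip -/

theorem wtR_nn {u : ℝ} (h1 : Real.pi / 8 ≤ u) (h2 : u ≤ Real.pi / 4) (c : Cell) : 0 ≤ c.wt (wR u) := by
  have h := UNI.wR_nn h1 h2
  cases c <;> first | exact zero_le_one | exact h.v | exact h.u1 | exact h.u2 | exact h.w1 | exact h.w2

theorem wtb_nn (c : Cell) : 0 ≤ c.wt (wR bA) :=
  wtR_nn (by unfold bA; linarith [Real.pi_pos]) (by unfold bA; linarith [Real.pi_pos]) c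

theorem wth_nn (c : Cell) : 0 ≤ c.wt (wR hA) :=
  wtR_nn (by unfold hA; linarith [Real.pi_pos]) (by unfold hA; linarith [Real.pi_pos]) c

theorem WE_nn (k j s : ℤ) (v : Pt) (c : Cell) : 0 ≤ c.wt (WE k j s (some v)) := by
  simp only [WE, WL, latj]
  split_ifs <;> first | exact wtb_nn c | exact wth_nn c

theorem W0E_nn (k j : ℤ) (v : Pt) (c : Cell) : 0 ≤ c.wt (W0E k j (some v)) := by
  simp only [W0E, latj]
  split_ifs <;> first | exact wtb_nn c | exact wth_nn c

/-- the weight is not negative if the crossing is free or `nw` or `se` -/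
theorem WX_nn {k s : ℤ} (h : γ none () = .o ∨ γ none () = .nw ∨ γ none () = .se) : 0 ≤ WX (WE k j s) γ := by
  rw [WX_one]
  refine Finset.prod_nonneg fun v _ => ?_
  obtain _ | v := v
  · have hd := pos_d
    show 0 ≤ (γ none ()).wt (wR dA)
    rcases h with h | h | h <;> rw [h]
    · exact zero_le_one
    · exact hd.2.2.le
    · exact hd.2.2.le
  · exact WE_nn _ _ _ _ _

open Classical in
/-- **one strip**: the `b` column goes one to the left -/
theorem stripT {G : FX Unit → ℝ} (hk : k ≤ j) (h1 : -B ≤ j) (h2 : j + 1 ≤ B) (ht : |t| ≤ B)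
    (cs : ∀ r, |r| ≤ B → Cs j r G) (gd : ∀ r, |r| ≤ B → ∀ γ, G γ ≠ 0 → Gd (Rg j r) γ) (nn : ∀ γ, 0 ≤ G γ) :
    SE k (j + 1) B (fun γ => LQ (j + 1) t γ * G γ) ≤ SE k j B (fun γ => LQ j t γ * G γ) := by
  have hB : 0 ≤ B := (abs_nonneg t).trans ht
  obtain ⟨t1, t2⟩ := abs_le.1 ht
  obtain ⟨e1, -⟩ := ends (I := Unit) k j B (fun γ => LW (fun _ : Unit => fTp t j (B + 1)) γ * G γ) hk h1 h2
  obtain ⟨-, e2⟩ := ends (I := Unit) k j B (fun γ => LW (fun _ : Unit => fTp t j (-B)) γ * G γ) hk h1 h2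
  have e3 : SX k j (B + 1) B (fun γ => LW (fun _ : Unit => fTp t j (B + 1)) γ * G γ) =
      SE k j B (fun γ => LW (fun _ : Unit => fTp t j (B + 1)) γ * G γ) := by
    rw [e1]
    refine add_eq_left.2 ((tsum_congr fun γ => ?_).trans tsum_zero)
    beta_reduce
    by_cases h0 : γ none = 0
    · rw [if_pos h0, mul_zero, ite_self]
    · rw [if_neg h0, LW_zero h0 (by omega), zero_mul, mul_zero, ite_self]
  have e4 : SE k (j + 1) B (fun γ => LW (fun _ : Unit => fTp t j (-B)) γ * G γ) ≤
      SX k j (-B) B (fun γ => LW (fun _ : Unit => fTp t j (-B)) γ * G γ) := by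
    rw [e2]
    refine le_add_of_nonneg_right (tsum_nonneg fun γ => ?_)
    beta_reduce
    by_cases hf : Fam (gX j (-B)) γ ∧ Bx B γ
    · rw [if_pos hf]
      refine mul_nonneg (WX_nn ?_) ?_
      · rcases cell_B hf.1 hf.2 () with h | h
        · exact Or.inl h
        · exact Or.inr (Or.inl h)
      · split_ifs
        · exact le_rfl
        · rw [LW_one]
          exact mul_nonneg (Finset.prod_nonneg fun v _ => fTp_nn _ _ _ _ _) (nn γ)
    · rw [if_neg hf]
  have e5 := rows_G (k := k) (t := t) cs gd hB h1 h2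
  have e6 : SE k j B (fun γ => LW (fun _ : Unit => fTp t j (B + 1)) γ * G γ) = SE k j B (fun γ => LQ j t γ * G γ) := by
    refine tsum_congr fun γ => ?_
    beta_reduce
    by_cases hf : Fam g0 γ ∧ γ none = 0 ∧ Bx B γ
    · rw [if_pos hf, if_pos hf, LW_LQ hf.2.1 (if_neg (show ¬ B + 1 ≤ t by omega))]
    · rw [if_neg hf, if_neg hf]
  have e7 : SE k (j + 1) B (fun γ => LW (fun _ : Unit => fTp t j (-B)) γ * G γ) =
      SE k (j + 1) B (fun γ => LQ (j + 1) t γ * G γ) := by
    refine tsum_congr fun γ => ?_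
    beta_reduce
    by_cases hf : Fam g0 γ ∧ γ none = 0 ∧ Bx B γ
    · rw [if_pos hf, if_pos hf, LW_LQ hf.2.1 (if_pos (show -B ≤ t by omega))]
    · rw [if_neg hf, if_neg hf]
  linarith

/-- **all strips from the column `q` down to the column `m`** -/
theorem strips {G : FX Unit → ℝ} {m q : ℤ} (hm : m ≤ q) (hk : k ≤ m) (h1 : -B ≤ m) (h2 : q ≤ B) (ht : |t| ≤ B)
    (cs : ∀ j, m ≤ j → j < q → ∀ r, |r| ≤ B → Cs j r G)
    (gd : ∀ j, m ≤ j → j < q → ∀ r, |r| ≤ B → ∀ γ, G γ ≠ 0 → Gd (Rg j r) γ) (nn : ∀ γ, 0 ≤ G γ) :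
    SE k q B (fun γ => LQ q t γ * G γ) ≤ SE k m B (fun γ => LQ m t γ * G γ) := by
  have key : ∀ n : ℕ, m + n ≤ q → SE k (m + n) B (fun γ => LQ (m + n) t γ * G γ) ≤ SE k m B (fun γ => LQ m t γ * G γ) := by
    intro n
    induction n with
    | zero => intro _; simp
    | succ n ih =>
      intro hn
      push_cast at hn
      refine le_trans ?_ (ih (by omega))
      have h := stripT (k := k) (j := m + n) (B := B) (t := t) (G := G) (by omega) (by omega) (by omega) ht
        (cs (m + n) (by omega) (by omega)) (gd (m + n) (by omega) (by omega)) nn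
      push_cast
      rw [← add_assoc]
      exact h
  have h := key (q - m).toNat (by rw [Int.toNat_of_nonneg (by omega)]; omega)
  rw [Int.toNat_of_nonneg (by omega), add_sub_cancel] at h
  exact h

end

end Pool.Agent.ROT.X
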