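import Pool.Agent.ROT.XTop1

/-!
# UNIV, exact side, row X8 (helper21), part 2: the `b` column goes to the left edge of the box

`Xr l j t` : the row `t` in the columns `≥ j + 1` is the end of a minimal cap in the columns `l`, `l + 1`;
`Gr a`, `Le a` : a cell in a column `≥ a`, `≤ a`.

**`chainR`**, **`chainL`** : `SE` of `LQ · 1[Xr ∧ Gr a]` (`1[Xr ∧ Le a]`) on the lattice with the `b` column `j` is at most the same
(with `Le (a + 2)`) on the lattice with the `b` column at the left edge of the box.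
-/

set_option autoImplicit false

namespace Pool.Agent.ROT.X

open Pool.Agent.EXL (Wt YB)
open Pool.Agent.YBC (Dir)
open Pool.Agent.UNI (wR)
open Pool.Agent.ROT.E (Cell IsUn Pt)
open Pool.Agent.ROT.L

noncomputable section

variable {k j t B r l a : ℤ} {γ γ' : FX Unit}

/-- the minimal cap in the columns `l`, `l + 1` -/
def pat (l x : ℤ) : Cell := if x = l then .se else if x = l + 1 then .sw else .o

/-- the row `t` in the columns `≥ j + 1` -/
def Xr (l j t : ℤ) (γ : FX Unit) : Prop := ∀ x, j + 1 ≤ x → γ (some (x, t)) () = pat l x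

/-- a cell in a column `≥ a` -/
def Gre (a : ℤ) (γ : FX Unit) : Prop := ∃ p : Pt, a ≤ p.1 ∧ γ (some p) () ≠ .o

/-- a cell in a column `≤ a` -/
def Lee (a : ℤ) (γ : FX Unit) : Prop := ∃ p : Pt, p.1 ≤ a ∧ γ (some p) () ≠ .o

/-- same class of the row `r` of the strip `j` -/
def ClT (j r : ℤ) (γ γ' : FX Unit) : Prop := ∃ t t' : Fin 3, Eq6 (Rg j r) (Gt j r t) (Gt j r t') γ γ'

theorem ClT.symm (h : ClT j r γ γ') : ClT j r γ' γ := by
  obtain ⟨t, t', e⟩ := h
  exact ⟨t', t, e.symm (agr _ _)⟩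

/-- an event which is kept by the classes -/
theorem cs_of {Ev : FX Unit → Prop} [DecidablePred Ev] (h : ∀ γ γ', ClT j r γ γ' → Ev γ → Ev γ') :
    Cs j r (fun γ : FX Unit => if Ev γ then (1 : ℝ) else 0) := fun t t' γ γ' _ _ e =>
  if_congr ⟨h γ γ' ⟨t, t', e⟩, h γ' γ (ClT.symm ⟨t, t', e⟩)⟩ rfl rfl

theorem not_Rg {x y : ℤ} (h : x < j ∨ j + 1 < x) : (some (x, y) : VX) ∉ Rg j r := fun h1 => by
  have := (some_mem_Rg.1 h1).1
  omega

theorem xr_cl (h : ClT j r γ γ') {j' : ℤ} (hj : j < j') (e : Xr l j' t γ) : Xr l j' t γ' := by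
  obtain ⟨_, _, h⟩ := h
  intro x hx
  rw [← h.out _ (not_Rg (Or.inr (by omega)))]
  exact e x hx

theorem gre_cl (h : ClT j r γ γ') (ha : j + 1 < a) (e : Gre a γ) : Gre a γ' := by
  obtain ⟨_, _, h⟩ := h
  obtain ⟨p, h1, h2⟩ := e
  refine ⟨p, h1, ?_⟩
  rw [← h.out _ (not_Rg (x := p.1) (y := p.2) (Or.inr (by omega)))]
  exact h2

theorem lee_cl (h : ClT j r γ γ') (ha : a < j) (e : Lee a γ) : Lee a γ' := by
  obtain ⟨_, _, h⟩ := h
  obtain ⟨p, h1, h2⟩ := e
  refine ⟨p, h1, ?_⟩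
  rw [← h.out _ (not_Rg (x := p.1) (y := p.2) (Or.inl (by omega)))]
  exact h2

/-- a loop which uses the region has a cell next to it -/
theorem us_port {G : Gr VX} (hG : Port G (Rg j r) = pt6 j r) (f : Fam G γ) (g : Gd (Rg j r) γ) {v : VX} (hv : v ∈ Rg j r)
    (h : γ v () ≠ .o) : ∃ p : Pt, (some p : VX) ∉ Rg j r ∧ γ (some p) () ≠ .o ∧ j - 1 ≤ p.1 ∧ p.1 ≤ j + 2 ∧
      ∃ d, (some p, d) ∈ pt6 j r ∧ (γ (some p) ()).oc d := by
  obtain ⟨k, hk, ho⟩ := (us_iff hG f g ()).2 ⟨v, hv, h⟩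
  have ho' := oc_co ho
  rcases (mem_pt6.1 hk) with rfl | rfl | rfl | rfl | rfl | rfl
  · exact ⟨_, out_pt6 hk, ho', by simp, by simp, _, hk, ho⟩
  · exact ⟨_, out_pt6 hk, ho', by simp; omega, by simp, _, hk, ho⟩
  · exact ⟨_, out_pt6 hk, ho', by simp, by simp; omega, _, hk, ho⟩
  · exact ⟨_, out_pt6 hk, ho', by simp; omega, by simp, _, hk, ho⟩
  · exact ⟨_, out_pt6 hk, ho', by simp, by simp, _, hk, ho⟩
  · exact ⟨_, out_pt6 hk, ho', by simp; omega, by simp, _, hk, ho⟩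

theorem lee_cl' (h : ClT j r γ γ') (ha : j + 2 ≤ a) (e : Lee a γ) : Lee a γ' := by
  obtain ⟨t1, t2, h⟩ := h
  obtain ⟨p, h1, h2⟩ := e
  by_cases hp : (some p : VX) ∈ Rg j r
  · obtain ⟨q, q1, q2, -, q3, -⟩ := us_port (port_Gt j r t1) h.fam h.gd hp h2
    refine ⟨q, by omega, ?_⟩
    rw [← h.out _ q1]
    exact q2
  · refine ⟨p, h1, ?_⟩
    rw [← h.out _ hp]
    exact h2

/-- the loop leaves the region -/
theorem gd_xr {j' : ℤ} (hj : j < j') (hl : j' ≤ l) (e : Xr l j' t γ) : Gd (Rg j r) γ := fun _ => by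
  refine ⟨some (l + 1, t), not_Rg (Or.inr (by omega)), ?_⟩
  rw [e (l + 1) (by omega), pat, if_neg (by omega), if_pos rfl]
  decide

/-! ### sums on the lattice -/

open Classical in
theorem SE_sum {I : Type} [Finite I] {F : FX I → ℝ} : SE k j B F =
    ∑ γ ∈ (fin_Bx (I := I) B).toFinset, if Fam g0 γ ∧ γ none = 0 ∧ Bx B γ then WX (W0E k j) γ * F γ else 0 :=
  tsum_eq_sum fun γ hγ => if_neg fun h => hγ ((Set.Finite.mem_toFinset _).2 h.2.2)

theorem W0_nn (h0 : γ none = 0) : 0 ≤ WX (W0E k j) γ := by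
  rw [WX_one]
  refine Finset.prod_nonneg fun v hv => ?_
  obtain _ | v := v
  · exact absurd h0 (Finsupp.mem_support_iff.1 hv)
  · exact W0E_nn _ _ _ _

theorem SE_mono {F F' : FX Unit → ℝ} (h : ∀ γ, Fam g0 γ → γ none = 0 → Bx B γ → F γ ≤ F' γ) : SE k j B F ≤ SE k j B F' := by
  rw [SE_sum, SE_sum]
  refine Finset.sum_le_sum fun γ _ => ?_
  split_ifs with hc
  · exact mul_le_mul_of_nonneg_left (h γ hc.1 hc.2.1 hc.2.2) (W0_nn hc.2.1)
  · exact le_rfl

theorem SE_smul {F : FX Unit → ℝ} (c : ℝ) : SE k j B (fun γ => c * F γ) = c * SE k j B F := by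
  rw [SE_sum, SE_sum, Finset.mul_sum]
  refine Finset.sum_congr rfl fun γ _ => ?_
  split_ifs
  · ring
  · rw [mul_zero]

/-! ### the chains -/

open Classical in
theorem chainR (hl : j ≤ l) (ha : j + 1 ≤ a) (h1 : -B ≤ j) (h2 : j ≤ B) (ht : |t| ≤ B) :
    SE (-B - 1) j B (fun γ => LQ j t γ * if Xr l j t γ ∧ Gre a γ then 1 else 0) ≤
      SE (-B - 1) (-B) B (fun γ => LQ (-B) t γ * if Xr l j t γ ∧ Gre a γ then 1 else 0) := by
  refine strips h1 (by omega) le_rfl h2 ht (fun j' _ hj' r _ => cs_of fun γ γ' hc e => ?_) (fun j' _ hj' r _ γ hγ => ?_)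
    fun γ => ?_
  · exact ⟨xr_cl hc hj' e.1, gre_cl hc (by omega) e.2⟩
  · have hE : Xr l j t γ ∧ Gre a γ := by
      by_contra h
      exact hγ (if_neg h)
    exact gd_xr hj' hl hE.1
  · split_ifs
    · exact zero_le_one
    · exact le_rfl

open Classical in
theorem chainL (hl : j ≤ l) (ha : a + 1 ≤ j) (h1 : -B ≤ j) (h2 : j ≤ B) (ht : |t| ≤ B) :
    SE (-B - 1) j B (fun γ => LQ j t γ * if Xr l j t γ ∧ Lee a γ then 1 else 0) ≤
      SE (-B - 1) (-B) B (fun γ => LQ (-B) t γ * if Xr l j t γ ∧ Lee (a + 2) γ then 1 else 0) := by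
  have nn : ∀ (P : Prop) [Decidable P], (0 : ℝ) ≤ if P then 1 else 0 := fun P _ => by
    split_ifs
    · exact zero_le_one
    · exact le_rfl
  set m := max (-B) (a + 1) with hm
  have s1 : SE (-B - 1) j B (fun γ => LQ j t γ * if Xr l j t γ ∧ Lee a γ then 1 else 0) ≤
      SE (-B - 1) m B (fun γ => LQ m t γ * if Xr l j t γ ∧ Lee a γ then 1 else 0) := by
    refine strips (by omega) (by omega) (by omega) h2 ht (fun j' h3 hj' r _ => cs_of fun γ γ' hc e => ?_)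
      (fun j' _ hj' r _ γ hγ => ?_) fun γ => nn _
    · exact ⟨xr_cl hc hj' e.1, lee_cl hc (by omega) e.2⟩
    · have hE : Xr l j t γ ∧ Lee a γ := by
        by_contra h
        exact hγ (if_neg h)
      exact gd_xr hj' hl hE.1
  have s2 : SE (-B - 1) m B (fun γ => LQ m t γ * if Xr l j t γ ∧ Lee a γ then 1 else 0) ≤
      SE (-B - 1) m B (fun γ => LQ m t γ * if Xr l j t γ ∧ Lee (a + 2) γ then 1 else 0) := by
    refine SE_mono fun γ _ _ _ => mul_le_mul_of_nonneg_left ?_ (LQ_nn _ _ _)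
    by_cases hc : Xr l j t γ ∧ Lee a γ
    · obtain ⟨h3, p, h4, h5⟩ := hc
      rw [if_pos ⟨h3, p, h4, h5⟩, if_pos ⟨h3, p, by omega, h5⟩]
    · rw [if_neg hc]
      exact nn _
  have s3 : SE (-B - 1) m B (fun γ => LQ m t γ * if Xr l j t γ ∧ Lee (a + 2) γ then 1 else 0) ≤
      SE (-B - 1) (-B) B (fun γ => LQ (-B) t γ * if Xr l j t γ ∧ Lee (a + 2) γ then 1 else 0) := by
    refine strips (by omega) (by omega) le_rfl (by omega) ht (fun j' _ hj' r _ => cs_of fun γ γ' hc e => ?_)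
      (fun j' _ hj' r _ γ hγ => ?_) fun γ => nn _
    · rcases max_choice (-B) (a + 1) with h6 | h6
      · exact absurd hj' (by omega)
      · exact ⟨xr_cl hc (by omega) e.1, lee_cl' hc (by omega) e.2⟩
    · have hE : Xr l j t γ ∧ Lee (a + 2) γ := by
        by_contra h
        exact hγ (if_neg h)
      exact gd_xr (by omega) hl hE.1
  exact s1.trans (s2.trans s3)

end

end Pool.Agent.ROT.X
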