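import Pool.Agent.ROT.XTop2
import Pool.Agent.ROT.LCap

/-!
# UNIV, exact side, row X8 (helper65), part 3: the surgery at the top

A loop of the lattice with the top row `r`, whose leftmost top cell `l` is in the strip `j`, `j + 1`: the passage
`(l, r) = se`, `(l + 1, r) = h` or `sw` is lifted to a minimal cap in the row `r + 1` (`(l, r) = v`, `(l + 1, r) = ne` or `v`,
`(l, r + 1) = se`, `(l + 1, r + 1) = sw`).  **`surg`**: mass of these loops `≤ C` times the mass of the loops whose row `r + 1`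
is the top row and one minimal cap in the columns `l`, `l + 1` (`l = j`, `j + 1`).
-/

set_option autoImplicit false
set_option linter.unusedSimpArgs false
set_option linter.unreachableTactic false
set_option linter.unusedTactic false

namespace Pool.Agent.ROT.X

open Pool.Agent.EXL (Wt YB)
open Pool.Agent.YBC (Dir)
open Pool.Agent.UNI (wR)
open Pool.Agent.ROT.E (Cell IsUn Pt nx)
open Pool.Agent.ROT.L
open Pool.Agent.ROT.L.Cap (glue2 SPr e0s)

noncomputable section

/-- lattice loops with top row `r`, in the columns `≥ j` there, with a cell of the strip -/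
structure TopE (j r : ℤ) (γ : FX Unit) : Prop where
  up : ∀ p : Pt, γ (some p) () ≠ .o → p.2 ≤ r
  lf : ∀ x, x < j → γ (some (x, r)) () = .o
  st : γ (some (j, r)) () ≠ .o ∨ γ (some (j + 1, r)) () ≠ .o

/-- the row `t` is the top row = one minimal cap in the columns `l`, `l + 1` (`pat` of XTop2) -/
def CapE (l t : ℤ) (γ : FX Unit) : Prop := (∀ p : Pt, γ (some p) () ≠ .o → p.2 ≤ t) ∧ ∀ x, γ (some (x, t)) () = pat l x

/-- the four vertices of the surgery -/
def A4 (l r : ℤ) : Set VX := {some (l, r), some (l + 1, r), some (l, r + 1), some (l + 1, r + 1)}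

/-- a table for the half edges of four vertices -/
theorem all16 {p q r s : VX} {P : VX × Dir → Prop} (h : ∀ d, P (p, d)) (h' : ∀ d, P (q, d)) (h'' : ∀ d, P (r, d))
    (h''' : ∀ d, P (s, d)) : ∀ k : VX × Dir, k.1 ∈ ({p, q, r, s} : Set VX) → P k := by
  rintro ⟨v, d⟩ (rfl | rfl | rfl | rfl)
  · exact h d
  · exact h' d
  · exact h'' d
  · exact h''' d

/-- **the cap is lifted**, the right neighbour of the leftmost cell is straight -/
theorem bump_h {δ δ' : VX →₀ Cell} {l r : ℤ} (L : Lp g0 δ) (h1 : δ (some (l, r)) = .se) (h2 : δ (some (l + 1, r)) = .h)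
    (h3 : δ (some (l, r + 1)) = .o) (h4 : δ (some (l + 1, r + 1)) = .o) (out : ∀ v, v ∉ A4 l r → δ v = δ' v)
    (h1' : δ' (some (l, r)) = .v) (h2' : δ' (some (l + 1, r)) = .ne) (h3' : δ' (some (l, r + 1)) = .se)
    (h4' : δ' (some (l + 1, r + 1)) = .sw) : Lp g0 δ' := by
  have F := e0s
  have m1 : (some (l, r) : VX) ∈ A4 l r := Or.inl rfl
  have m2 : (some (l + 1, r) : VX) ∈ A4 l r := Or.inr (Or.inl rfl)
  have m3 : (some (l, r + 1) : VX) ∈ A4 l r := Or.inr (Or.inr (Or.inl rfl))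
  have m4 : (some (l + 1, r + 1) : VX) ∈ A4 l r := Or.inr (Or.inr (Or.inr rfl))
  have oa : oc δ (some (l, r - 1), .N) := by
    rw [L.mt _ trivial trivial]
    simp [oc, F, h1, Cell.oc, Cell.p]
  have e1 : g0.e (some (l, r - 1), .N) = (some (l, r), .S) := by simp [F]
  have e2 : g0.e (some (l + 2, r), .W) = (some (l + 1, r), .E) := by
    simp only [F.2.2.1]
    rw [show l + 2 - 1 = l + 1 by ring]
  refine (glue2 (A := A4 l r) Agr.rfl' L out ?_ ?_ (a := (some (l, r - 1), .N)) (b := (some (l + 2, r), .W))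
    ⟨by simp [A4]; omega, by rw [e1]; exact m1⟩ oa ?_ ?_ ?_).1
  · intro k hk g1
    rw [g0.inv]
    revert g1
    refine all16 (P := fun k => (g0.e k).1 ∉ A4 l r → (oc δ k ↔ oc δ' k)) ?_ ?_ ?_ ?_ k hk <;> intro e g1 <;> cases e <;>
      simp [F, oc, h1, h2, h3, h4, h1', h2', h3', h4', Cell.oc, Cell.p, A4] at g1 ⊢ <;> omega
  · refine all16 ?_ ?_ ?_ ?_ <;> intro e g1 <;> cases e <;>
      simp [F, oc, h1', h2', h3', h4', Cell.oc, Cell.p, A4] at g1 ⊢ <;> omega
  · refine all16 ?_ ?_ ?_ ?_ <;> intro e g1 g2 <;> cases e <;>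
      simp [F, oc, h1, h2, h3, h4, Cell.oc, Cell.p, A4] at g1 g2 ⊢ <;> omega
  · rw [e1, e2]
    have c1 : Cn g0 δ (A4 l r) (some (l, r), .S) (some (l, r), .E) := by
      have := cn_vp (G := g0) (δ := δ) (B := A4 l r) (h := (some (l, r), .S)) (by simp [oc, h1, Cell.oc, Cell.p]) m1
      simpa [vp, h1, Cell.p] using this
    have c2 : Cn g0 δ (A4 l r) (some (l, r), .E) (some (l + 1, r), .W) := by
      have := cn_e (G := g0) (δ := δ) (B := A4 l r) (h := (some (l, r), .E)) (by simp [oc, h1, Cell.oc, Cell.p]) m1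
        (by simp [F, A4])
      simpa [F] using this
    have c3 : Cn g0 δ (A4 l r) (some (l + 1, r), .W) (some (l + 1, r), .E) := by
      have := cn_vp (G := g0) (δ := δ) (B := A4 l r) (h := (some (l + 1, r), .W)) (by simp [oc, h2, Cell.oc, Cell.p]) m2
      simpa [vp, h2, Cell.p] using this
    exact cn_trans c1 (cn_trans c2 c3)
  · rw [e1]
    have d1 : Cn g0 δ' (A4 l r) (some (l, r), .N) (some (l, r), .S) := by
      have := cn_vp (G := g0) (δ := δ') (B := A4 l r) (h := (some (l, r), .N)) (by simp [oc, h1', Cell.oc, Cell.p]) m1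
      simpa [vp, h1', Cell.p] using this
    have d2 : Cn g0 δ' (A4 l r) (some (l, r + 1), .S) (some (l, r), .N) := by
      have := cn_e (G := g0) (δ := δ') (B := A4 l r) (h := (some (l, r + 1), .S)) (by simp [oc, h3', Cell.oc, Cell.p]) m3
        (by simp [F, A4])
      simpa [F] using this
    have d3 : Cn g0 δ' (A4 l r) (some (l, r + 1), .E) (some (l, r + 1), .S) := by
      have := cn_vp (G := g0) (δ := δ') (B := A4 l r) (h := (some (l, r + 1), .E)) (by simp [oc, h3', Cell.oc, Cell.p]) m3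
      simpa [vp, h3', Cell.p] using this
    have d4 : Cn g0 δ' (A4 l r) (some (l + 1, r + 1), .W) (some (l, r + 1), .E) := by
      have := cn_e (G := g0) (δ := δ') (B := A4 l r) (h := (some (l + 1, r + 1), .W)) (by simp [oc, h4', Cell.oc, Cell.p]) m4
        (by simp [F, A4])
      simpa [F] using this
    have d5 : Cn g0 δ' (A4 l r) (some (l + 1, r + 1), .S) (some (l + 1, r + 1), .W) := by
      have := cn_vp (G := g0) (δ := δ') (B := A4 l r) (h := (some (l + 1, r + 1), .S)) (by simp [oc, h4', Cell.oc, Cell.p]) m4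
      simpa [vp, h4', Cell.p] using this
    have d6 : Cn g0 δ' (A4 l r) (some (l + 1, r), .N) (some (l + 1, r + 1), .S) := by
      have := cn_e (G := g0) (δ := δ') (B := A4 l r) (h := (some (l + 1, r), .N)) (by simp [oc, h2', Cell.oc, Cell.p]) m2
        (by simp [F, A4])
      simpa [F] using this
    have d7 : Cn g0 δ' (A4 l r) (some (l + 1, r), .E) (some (l + 1, r), .N) := by
      have := cn_vp (G := g0) (δ := δ') (B := A4 l r) (h := (some (l + 1, r), .E)) (by simp [oc, h2', Cell.oc, Cell.p]) m2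
      simpa [vp, h2', Cell.p] using this
    have t2 := cn_trans d2 d1
    have t3 := cn_trans d3 t2
    have t4 := cn_trans d4 t3
    have t5 := cn_trans d5 t4
    have t6 := cn_trans d6 t5
    have t7 := cn_trans d7 t6
    refine all16 ?_ ?_ ?_ ?_ <;> intro e g1 <;> cases e <;> simp [oc, h1', h2', h3', h4', Cell.oc, Cell.p] at g1
    all_goals first | exact d1 | exact cn_refl _ | exact t2 | exact t3 | exact t4 | exact t5 | exact t6 | exact t7

/-- **the cap is lifted**, the right neighbour of the leftmost cell goes down -/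
theorem bump_s {δ δ' : VX →₀ Cell} {l r : ℤ} (L : Lp g0 δ) (h1 : δ (some (l, r)) = .se) (h2 : δ (some (l + 1, r)) = .sw)
    (h3 : δ (some (l, r + 1)) = .o) (h4 : δ (some (l + 1, r + 1)) = .o) (out : ∀ v, v ∉ A4 l r → δ v = δ' v)
    (h1' : δ' (some (l, r)) = .v) (h2' : δ' (some (l + 1, r)) = .v) (h3' : δ' (some (l, r + 1)) = .se)
    (h4' : δ' (some (l + 1, r + 1)) = .sw) : Lp g0 δ' := by
  have F := e0s
  have m1 : (some (l, r) : VX) ∈ A4 l r := Or.inl rfl
  have m2 : (some (l + 1, r) : VX) ∈ A4 l r := Or.inr (Or.inl rfl)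
  have m3 : (some (l, r + 1) : VX) ∈ A4 l r := Or.inr (Or.inr (Or.inl rfl))
  have m4 : (some (l + 1, r + 1) : VX) ∈ A4 l r := Or.inr (Or.inr (Or.inr rfl))
  have oa : oc δ (some (l, r - 1), .N) := by
    rw [L.mt _ trivial trivial]
    simp [oc, F, h1, Cell.oc, Cell.p]
  have e1 : g0.e (some (l, r - 1), .N) = (some (l, r), .S) := by simp [F]
  have e2 : g0.e (some (l + 1, r - 1), .N) = (some (l + 1, r), .S) := by simp [F]
  refine (glue2 (A := A4 l r) Agr.rfl' L out ?_ ?_ (a := (some (l, r - 1), .N)) (b := (some (l + 1, r - 1), .N))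
    ⟨by simp [A4]; omega, by rw [e1]; exact m1⟩ oa ?_ ?_ ?_).1
  · intro k hk g1
    rw [g0.inv]
    revert g1
    refine all16 (P := fun k => (g0.e k).1 ∉ A4 l r → (oc δ k ↔ oc δ' k)) ?_ ?_ ?_ ?_ k hk <;> intro e g1 <;> cases e <;>
      simp [F, oc, h1, h2, h3, h4, h1', h2', h3', h4', Cell.oc, Cell.p, A4] at g1 ⊢ <;> omega
  · refine all16 ?_ ?_ ?_ ?_ <;> intro e g1 <;> cases e <;>
      simp [F, oc, h1', h2', h3', h4', Cell.oc, Cell.p, A4] at g1 ⊢ <;> omega
  · refine all16 ?_ ?_ ?_ ?_ <;> intro e g1 g2 <;> cases e <;>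
      simp [F, oc, h1, h2, h3, h4, Cell.oc, Cell.p, A4] at g1 g2 ⊢ <;> omega
  · rw [e1, e2]
    have c1 : Cn g0 δ (A4 l r) (some (l, r), .S) (some (l, r), .E) := by
      have := cn_vp (G := g0) (δ := δ) (B := A4 l r) (h := (some (l, r), .S)) (by simp [oc, h1, Cell.oc, Cell.p]) m1
      simpa [vp, h1, Cell.p] using this
    have c2 : Cn g0 δ (A4 l r) (some (l, r), .E) (some (l + 1, r), .W) := by
      have := cn_e (G := g0) (δ := δ) (B := A4 l r) (h := (some (l, r), .E)) (by simp [oc, h1, Cell.oc, Cell.p]) m1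
        (by simp [F, A4])
      simpa [F] using this
    have c3 : Cn g0 δ (A4 l r) (some (l + 1, r), .W) (some (l + 1, r), .S) := by
      have := cn_vp (G := g0) (δ := δ) (B := A4 l r) (h := (some (l + 1, r), .W)) (by simp [oc, h2, Cell.oc, Cell.p]) m2
      simpa [vp, h2, Cell.p] using this
    exact cn_trans c1 (cn_trans c2 c3)
  · rw [e1]
    have d1 : Cn g0 δ' (A4 l r) (some (l, r), .N) (some (l, r), .S) := by
      have := cn_vp (G := g0) (δ := δ') (B := A4 l r) (h := (some (l, r), .N)) (by simp [oc, h1', Cell.oc, Cell.p]) m1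
      simpa [vp, h1', Cell.p] using this
    have d2 : Cn g0 δ' (A4 l r) (some (l, r + 1), .S) (some (l, r), .N) := by
      have := cn_e (G := g0) (δ := δ') (B := A4 l r) (h := (some (l, r + 1), .S)) (by simp [oc, h3', Cell.oc, Cell.p]) m3
        (by simp [F, A4])
      simpa [F] using this
    have d3 : Cn g0 δ' (A4 l r) (some (l, r + 1), .E) (some (l, r + 1), .S) := by
      have := cn_vp (G := g0) (δ := δ') (B := A4 l r) (h := (some (l, r + 1), .E)) (by simp [oc, h3', Cell.oc, Cell.p]) m3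
      simpa [vp, h3', Cell.p] using this
    have d4 : Cn g0 δ' (A4 l r) (some (l + 1, r + 1), .W) (some (l, r + 1), .E) := by
      have := cn_e (G := g0) (δ := δ') (B := A4 l r) (h := (some (l + 1, r + 1), .W)) (by simp [oc, h4', Cell.oc, Cell.p]) m4
        (by simp [F, A4])
      simpa [F] using this
    have d5 : Cn g0 δ' (A4 l r) (some (l + 1, r + 1), .S) (some (l + 1, r + 1), .W) := by
      have := cn_vp (G := g0) (δ := δ') (B := A4 l r) (h := (some (l + 1, r + 1), .S)) (by simp [oc, h4', Cell.oc, Cell.p]) m4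
      simpa [vp, h4', Cell.p] using this
    have d6 : Cn g0 δ' (A4 l r) (some (l + 1, r), .N) (some (l + 1, r + 1), .S) := by
      have := cn_e (G := g0) (δ := δ') (B := A4 l r) (h := (some (l + 1, r), .N)) (by simp [oc, h2', Cell.oc, Cell.p]) m2
        (by simp [F, A4])
      simpa [F] using this
    have d7 : Cn g0 δ' (A4 l r) (some (l + 1, r), .S) (some (l + 1, r), .N) := by
      have := cn_vp (G := g0) (δ := δ') (B := A4 l r) (h := (some (l + 1, r), .S)) (by simp [oc, h2', Cell.oc, Cell.p]) m2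
      simpa [vp, h2', Cell.p] using this
    have t2 := cn_trans d2 d1
    have t3 := cn_trans d3 t2
    have t4 := cn_trans d4 t3
    have t5 := cn_trans d5 t4
    have t6 := cn_trans d6 t5
    have t7 := cn_trans d7 t6
    refine all16 ?_ ?_ ?_ ?_ <;> intro e g1 <;> cases e <;> simp [oc, h1', h2', h3', h4', Cell.oc, Cell.p] at g1
    all_goals first | exact d1 | exact cn_refl _ | exact t2 | exact t3 | exact t4 | exact t5 | exact t6 | exact t7

/-! ### the map on the loops -/

/-- the new cell at `(l + 1, r)` -/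
def nwc (c : Cell) : Cell := if c = .h then .ne else .v

open Classical in
/-- **the lifted loop** -/
def bmp (l r : ℤ) (γ : FX Unit) : FX Unit :=
  (((γ.update (some (l + 1, r)) fun _ => nwc (γ (some (l + 1, r)) ())).update (some (l, r)) fun _ => .v).update
    (some (l, r + 1)) fun _ => .se).update (some (l + 1, r + 1)) fun _ => .sw

variable {k j r B l : ℤ} {γ γ' : FX Unit}

theorem bmp_1 : bmp l r γ (some (l, r)) = fun _ => .v := by
  simp only [bmp, Finsupp.coe_update]
  rw [Function.update_of_ne (by simp), Function.update_of_ne (by simp), Function.update_self]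

theorem bmp_2 : bmp l r γ (some (l + 1, r)) = fun _ => nwc (γ (some (l + 1, r)) ()) := by
  simp only [bmp, Finsupp.coe_update]
  rw [Function.update_of_ne (by simp), Function.update_of_ne (by simp), Function.update_of_ne (by simp),
    Function.update_self]

theorem bmp_3 : bmp l r γ (some (l, r + 1)) = fun _ => .se := by
  simp only [bmp, Finsupp.coe_update]
  rw [Function.update_of_ne (by simp), Function.update_self]

theorem bmp_4 : bmp l r γ (some (l + 1, r + 1)) = fun _ => .sw := by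
  simp only [bmp, Finsupp.coe_update]
  rw [Function.update_self]

theorem bmp_out {v : VX} (h : v ∉ A4 l r) : bmp l r γ v = γ v := by
  simp only [A4, Set.mem_insert_iff, Set.mem_singleton_iff, not_or] at h
  simp only [bmp, Finsupp.coe_update]
  rw [Function.update_of_ne h.2.2.2, Function.update_of_ne h.2.2.1, Function.update_of_ne h.1, Function.update_of_ne h.2.1]

/-- the loops with the leftmost top cell `(l, r)` -/
structure TopL (l r : ℤ) (γ : FX Unit) : Prop where
  fam : Fam g0 γ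
  no : γ none = 0
  up : ∀ p : Pt, γ (some p) () ≠ .o → p.2 ≤ r
  lf : ∀ x, x < l → γ (some (x, r)) () = .o
  st : γ (some (l, r)) () ≠ .o

theorem TopL.cells (h : TopL l r γ) : γ (some (l, r)) () = .se ∧ (γ (some (l + 1, r)) () = .h ∨ γ (some (l + 1, r)) () = .sw) ∧
    γ (some (l, r + 1)) () = .o ∧ γ (some (l + 1, r + 1)) () = .o := by
  have F := e0s
  have o : ∀ x y, r < y → γ (some (x, y)) () = .o := by
    intro x y hy
    by_contra h0
    have := h.up (x, y) h0
    simp only at this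
    omega
  have mt := (h.fam.lp ()).mt
  have noN : ∀ x, ¬ (γ (some (x, r)) ()).oc .N := by
    intro x hx
    have h1 : oc (co γ ()) (some (x, r), .N) := hx
    have h2 := (mt (some (x, r), .N) trivial trivial).1 h1
    rw [F.2.2.2.1] at h2
    exact oc_co h2 (o x (r + 1) (by omega))
  have noW : ¬ (γ (some (l, r)) ()).oc .W := by
    intro hx
    have h1 : oc (co γ ()) (some (l, r), .W) := hx
    have h2 := (mt (some (l, r), .W) trivial trivial).1 h1
    rw [F.2.2.1] at h2
    exact oc_co h2 (h.lf (l - 1) (by omega))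
  have k1 : ∀ c : Cell, ¬ c.oc .N → ¬ c.oc .W → c ≠ .o → c = .se := by decide
  have k2 : ∀ c : Cell, ¬ c.oc .N → c.oc .W → c = .h ∨ c = .sw := by decide
  have c1 := k1 _ (noN l) noW h.st
  refine ⟨c1, k2 _ (noN (l + 1)) ?_, o _ _ (by omega), o _ _ (by omega)⟩
  have h1 : oc (co γ ()) (some (l, r), .E) := by
    show (γ (some (l, r)) ()).oc .E
    rw [c1]
    decide
  have h2 := (mt (some (l, r), .E) trivial trivial).1 h1
  rw [F.2.1] at h2
  exact h2

theorem TopL.fam_bmp (h : TopL l r γ) : Fam g0 (bmp l r γ) := by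
  obtain ⟨c1, c2, c3, c4⟩ := h.cells
  rw [fam_one]
  have out : ∀ v, v ∉ A4 l r → co γ () v = co (bmp l r γ) () v := fun v hv => by
    rw [co_app, co_app, bmp_out hv]
  have e1 : co (bmp l r γ) () (some (l, r)) = .v := by rw [co_app, bmp_1]
  have e2 : co (bmp l r γ) () (some (l + 1, r)) = nwc (γ (some (l + 1, r)) ()) := by rw [co_app, bmp_2]
  have e3 : co (bmp l r γ) () (some (l, r + 1)) = .se := by rw [co_app, bmp_3]
  have e4 : co (bmp l r γ) () (some (l + 1, r + 1)) = .sw := by rw [co_app, bmp_4]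
  rcases c2 with c2 | c2
  · rw [c2] at e2
    exact bump_h (h.fam.lp ()) c1 c2 c3 c4 out e1 e2 e3 e4
  · rw [c2] at e2
    exact bump_s (h.fam.lp ()) c1 c2 c3 c4 out e1 e2 e3 e4

theorem TopL.cap (h : TopL l r γ) : CapE l (r + 1) (bmp l r γ) := by
  have key : ∀ x y, r < y → (some (x, y) : VX) ∉ A4 l r → bmp l r γ (some (x, y)) () = .o := by
    intro x y hy hm
    rw [bmp_out hm]
    by_contra h0
    have := h.up (x, y) h0
    simp only at this
    omega
  constructor
  · rintro ⟨x, y⟩ h0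
    show y ≤ r + 1
    by_contra hy
    refine h0 (key x y (by omega) ?_)
    simp only [A4, Set.mem_insert_iff, Set.mem_singleton_iff, Option.some.injEq, Prod.mk.injEq, not_or]
    omega
  · intro x
    rw [pat]
    by_cases h1 : x = l
    · rw [if_pos h1, h1, bmp_3]
    · by_cases h2 : x = l + 1
      · rw [if_neg h1, if_pos h2, h2, bmp_4]
      · rw [if_neg h1, if_neg h2]
        refine key x (r + 1) (by omega) ?_
        simp only [A4, Set.mem_insert_iff, Set.mem_singleton_iff, Option.some.injEq, Prod.mk.injEq, not_or]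
        omega

theorem TopL.none_bmp (h : TopL l r γ) : bmp l r γ none = 0 := by
  rw [bmp_out (by simp [A4])]
  exact h.no

theorem bmp_sub (v : VX) (hv : γ v () ≠ .o) : bmp l r γ v () ≠ .o := by
  by_cases hm : v ∈ A4 l r
  · rcases hm with rfl | rfl | rfl | rfl
    · rw [bmp_1]; decide
    · rw [bmp_2]
      show nwc _ ≠ .o
      rw [nwc]
      split_ifs <;> decide
    · rw [bmp_3]; decide
    · rw [bmp_4]; decide
  · rw [bmp_out hm]
    exact hv

theorem ne_o {v : VX} : γ v ≠ 0 ↔ γ v () ≠ .o := by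
  constructor
  · intro h h1
    exact h (funext fun _ => h1)
  · intro h h1
    exact h (by rw [h1]; rfl)

theorem TopL.bx (h : TopL l r γ) (hb : Bx B γ) : Bx (B + 1) (bmp l r γ) := by
  obtain ⟨c1, c2, c3, c4⟩ := h.cells
  have b1 := hb l r (ne_o.2 (by rw [c1]; decide))
  have b2 := hb (l + 1) r (ne_o.2 (by rcases c2 with c2 | c2 <;> rw [c2] <;> decide))
  rw [abs_le, abs_le] at b1 b2
  intro a b h0
  rw [abs_le, abs_le]
  by_cases hm : (some (a, b) : VX) ∈ A4 l r
  · simp only [A4, Set.mem_insert_iff, Set.mem_singleton_iff, Option.some.injEq, Prod.mk.injEq] at hm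
    omega
  · rw [bmp_out hm] at h0
    have := hb a b h0
    rw [abs_le, abs_le] at this
    omega

theorem TopL.inj (h : TopL l r γ) (h' : TopL l r γ') (e : bmp l r γ = bmp l r γ') : γ = γ' := by
  obtain ⟨c1, c2, c3, c4⟩ := h.cells
  obtain ⟨d1, d2, d3, d4⟩ := h'.cells
  ext1 v
  funext u
  cases u
  by_cases hm : v ∈ A4 l r
  · rcases hm with rfl | rfl | rfl | rfl
    · rw [c1, d1]
    · have e2 : nwc (γ (some (l + 1, r)) ()) = nwc (γ' (some (l + 1, r)) ()) := by
        have := congrFun (DFunLike.congr_fun e (some (l + 1, r))) ()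
        rw [bmp_2, bmp_2] at this
        exact this
      rcases c2 with c2 | c2 <;> rcases d2 with d2 | d2 <;> rw [c2, d2] at e2 ⊢
      · exact absurd e2 (by decide)
      · exact absurd e2 (by decide)
    · rw [c3, d3]
    · rw [c4, d4]
  · have := DFunLike.congr_fun e v
    rw [bmp_out hm, bmp_out hm] at this
    rw [this]

/-! ### weights -/

/-- the weights of the six simple cells in all columns are between `m` and `M` -/
theorem wt_bd : ∃ m M : ℝ, 0 < m ∧ 0 < M ∧ ∀ (k j : ℤ) (v : Pt) (c : Cell), c ≠ .o → c ≠ .x → c ≠ .y →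
    m ≤ c.wt (W0E k j (some v)) ∧ c.wt (W0E k j (some v)) ≤ M := by
  obtain ⟨b1, b2, b3⟩ := pos_b
  obtain ⟨h1, h2, h3⟩ := pos_h
  set S : Finset ℝ := {(wR bA).v, (wR bA).u1, (wR bA).u2, (wR hA).v, (wR hA).u1, (wR hA).u2} with hS
  have ne : S.Nonempty := ⟨(wR bA).v, by simp [hS]⟩
  have mem : ∀ (k j : ℤ) (v : Pt) (c : Cell), c ≠ .o → c ≠ .x → c ≠ .y → c.wt (W0E k j (some v)) ∈ S := by
    intro k j v c g1 g2 g3
    simp only [W0E, latj]
    split_ifs <;> cases c <;> simp_all [Cell.wt]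
  refine ⟨S.min' ne, S.max' ne, ?_, ?_, fun k j v c g1 g2 g3 => ⟨S.min'_le _ (mem k j v c g1 g2 g3),
    S.le_max' _ (mem k j v c g1 g2 g3)⟩⟩
  · have hall : ∀ z ∈ S, 0 < z := by
      intro z hz
      simp only [hS, Finset.mem_insert, Finset.mem_singleton] at hz
      rcases hz with e | e | e | e | e | e <;> rw [e] <;> assumption
    exact hall _ (S.min'_mem ne)
  · exact b1.trans_le (S.le_max' _ (by simp [hS]))

/-- the weight of a configuration with the four vertices of the surgery apart -/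
theorem WX_A4 {W : VX → Wt ℝ} {T : Finset VX} (hT : ∀ v ∈ T, v ∉ A4 l r) (hs : ∀ v, γ v ≠ 0 → v ∉ A4 l r → v ∈ T) :
    WX W γ = (∏ v ∈ T, (γ v ()).wt (W v)) * ((γ (some (l, r)) ()).wt (W (some (l, r))) *
      ((γ (some (l + 1, r)) ()).wt (W (some (l + 1, r))) * ((γ (some (l, r + 1)) ()).wt (W (some (l, r + 1))) *
        (γ (some (l + 1, r + 1)) ()).wt (W (some (l + 1, r + 1)))))) := by
  classical
  have sup : γ.support ⊆ insert (some (l, r)) (insert (some (l + 1, r)) (insert (some (l, r + 1))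
      (insert (some (l + 1, r + 1)) T))) := by
    intro v hv
    simp only [Finset.mem_insert]
    by_cases h : v ∈ A4 l r
    · simp only [A4, Set.mem_insert_iff, Set.mem_singleton_iff] at h
      tauto
    · right; right; right; right
      exact hs v (Finsupp.mem_support_iff.1 hv) h
  have n1 : (some (l, r) : VX) ∉ T := fun h => hT _ h (Or.inl rfl)
  have n2 : (some (l + 1, r) : VX) ∉ T := fun h => hT _ h (Or.inr (Or.inl rfl))
  have n3 : (some (l, r + 1) : VX) ∉ T := fun h => hT _ h (Or.inr (Or.inr (Or.inl rfl)))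
  have n4 : (some (l + 1, r + 1) : VX) ∉ T := fun h => hT _ h (Or.inr (Or.inr (Or.inr rfl)))
  rw [WX_one, Finset.prod_subset sup fun v _ hv => by
    rw [Finsupp.notMem_support_iff] at hv
    rw [hv]
    rfl, Finset.prod_insert, Finset.prod_insert, Finset.prod_insert, Finset.prod_insert n4]
  · ring
  · simp only [Finset.mem_insert, Option.some.injEq, Prod.mk.injEq, n3, or_false]
    omega
  · simp only [Finset.mem_insert, Option.some.injEq, Prod.mk.injEq, n2, or_false]
    omega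
  · simp only [Finset.mem_insert, Option.some.injEq, Prod.mk.injEq, n1, or_false]
    omega

theorem TopL.wt_le {m M : ℝ} (hm : 0 < m) (hM : 0 < M) (bd : ∀ (k j : ℤ) (v : Pt) (c : Cell), c ≠ .o → c ≠ .x → c ≠ .y →
    m ≤ c.wt (W0E k j (some v)) ∧ c.wt (W0E k j (some v)) ≤ M) (h : TopL l r γ) :
    WX (W0E k j) γ ≤ M ^ 2 / m ^ 4 * WX (W0E k j) (bmp l r γ) := by
  classical
  obtain ⟨c1, c2, c3, c4⟩ := h.cells
  set T : Finset VX := γ.support.filter fun v => v ∉ A4 l r with hT
  have mT : ∀ v, v ∈ T ↔ γ v ≠ 0 ∧ v ∉ A4 l r := fun v => by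
    rw [hT, Finset.mem_filter, Finsupp.mem_support_iff]
  have e1 := WX_A4 (W := W0E k j) (γ := γ) (l := l) (r := r) (T := T) (fun v hv => ((mT v).1 hv).2)
    fun v h1 h2 => (mT v).2 ⟨h1, h2⟩
  have e2 := WX_A4 (W := W0E k j) (γ := bmp l r γ) (l := l) (r := r) (T := T) (fun v hv => ((mT v).1 hv).2)
    fun v h1 h2 => (mT v).2 ⟨by rwa [bmp_out h2] at h1, h2⟩
  have e3 : ∏ v ∈ T, (bmp l r γ v ()).wt (W0E k j v) = ∏ v ∈ T, (γ v ()).wt (W0E k j v) :=
    Finset.prod_congr rfl fun v hv => by rw [bmp_out ((mT v).1 hv).2]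
  have p0 : 0 ≤ ∏ v ∈ T, (γ v ()).wt (W0E k j v) := by
    refine Finset.prod_nonneg fun v hv => ?_
    obtain _ | v := v
    · exact absurd h.no ((mT _).1 hv).1
    · exact W0E_nn _ _ _ _
  rw [e1, e2, e3, c3, c4, bmp_1, bmp_2, bmp_3, bmp_4]
  set Pr := ∏ v ∈ T, (γ v ()).wt (W0E k j v) with hPr
  have nn : ∀ c : Cell, nwc c ≠ .o ∧ nwc c ≠ .x ∧ nwc c ≠ .y := by
    intro c
    rw [nwc]
    split_ifs <;> decide
  have a1 := bd k j (l, r) (γ (some (l, r)) ()) (by rw [c1]; decide) (by rw [c1]; decide) (by rw [c1]; decide)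
  have a2 := bd k j (l + 1, r) (γ (some (l + 1, r)) ()) (by rcases c2 with c2 | c2 <;> rw [c2] <;> decide)
    (by rcases c2 with c2 | c2 <;> rw [c2] <;> decide) (by rcases c2 with c2 | c2 <;> rw [c2] <;> decide)
  have b1 := bd k j (l, r) .v (by decide) (by decide) (by decide)
  have b2 := bd k j (l + 1, r) (nwc (γ (some (l + 1, r)) ())) (nn _).1 (nn _).2.1 (nn _).2.2
  have b3 := bd k j (l, r + 1) .se (by decide) (by decide) (by decide)
  have b4 := bd k j (l + 1, r + 1) .sw (by decide) (by decide) (by decide)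
  have o1 : (Cell.o).wt (W0E k j (some (l, r + 1))) = 1 := rfl
  have o2 : (Cell.o).wt (W0E k j (some (l + 1, r + 1))) = 1 := rfl
  rw [o1, o2, mul_one, mul_one]
  set x1 := (γ (some (l, r)) ()).wt (W0E k j (some (l, r)))
  set x2 := (γ (some (l + 1, r)) ()).wt (W0E k j (some (l + 1, r)))
  set y1 := (Cell.v).wt (W0E k j (some (l, r)))
  set y2 := (nwc (γ (some (l + 1, r)) ())).wt (W0E k j (some (l + 1, r)))
  set y3 := (Cell.se).wt (W0E k j (some (l, r + 1)))
  set y4 := (Cell.sw).wt (W0E k j (some (l + 1, r + 1)))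
  have k1 : x1 * x2 ≤ M ^ 2 := by
    rw [pow_two]
    exact mul_le_mul a1.2 a2.2 (hm.le.trans a2.1) hM.le
  have k2 : m ^ 4 ≤ y1 * (y2 * (y3 * y4)) := by
    have t1 : m * m ≤ y3 * y4 := mul_le_mul b3.1 b4.1 hm.le (hm.le.trans b3.1)
    have t2 : m * (m * m) ≤ y2 * (y3 * y4) := mul_le_mul b2.1 t1 (by positivity) (hm.le.trans b2.1)
    have t3 : m * (m * (m * m)) ≤ y1 * (y2 * (y3 * y4)) := mul_le_mul b1.1 t2 (by positivity) (hm.le.trans b1.1)
    calc m ^ 4 = m * (m * (m * m)) := by ring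
      _ ≤ _ := t3
  have k3 : M ^ 2 ≤ M ^ 2 / m ^ 4 * (y1 * (y2 * (y3 * y4))) := by
    have : M ^ 2 = M ^ 2 / m ^ 4 * m ^ 4 := by field_simp
    calc M ^ 2 = M ^ 2 / m ^ 4 * m ^ 4 := this
      _ ≤ _ := mul_le_mul_of_nonneg_left k2 (by positivity)
  calc Pr * (x1 * x2) ≤ Pr * (M ^ 2 / m ^ 4 * (y1 * (y2 * (y3 * y4)))) := mul_le_mul_of_nonneg_left (k1.trans k3) p0
    _ = _ := by ring

/-! ### the sum -/

open Classical in
/-- one leftmost cell -/
theorem surg1 {m M : ℝ} (hm : 0 < m) (hM : 0 < M) (bd : ∀ (k j : ℤ) (v : Pt) (c : Cell), c ≠ .o → c ≠ .x → c ≠ .y →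
    m ≤ c.wt (W0E k j (some v)) ∧ c.wt (W0E k j (some v)) ≤ M) (l : ℤ) (S : FX Unit → Prop)
    (hS : ∀ γ γ' : FX Unit, (∀ v, γ v () ≠ .o → γ' v () ≠ .o) → S γ → S γ') :
    (∑ γ ∈ (fin_Bx (I := Unit) B).toFinset, if TopL l r γ ∧ S γ then WX (W0E k j) γ else 0) ≤
      M ^ 2 / m ^ 4 * SE k j (B + 1) (fun γ => if CapE l (r + 1) γ ∧ S γ then 1 else 0) := by
  rw [SE_sum, ← Finset.sum_filter]
  set F := (fin_Bx (I := Unit) B).toFinset.filter fun γ => TopL l r γ ∧ S γ with hF
  have mF : ∀ γ, γ ∈ F ↔ Bx B γ ∧ TopL l r γ ∧ S γ := fun γ => by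
    rw [hF, Finset.mem_filter, Set.Finite.mem_toFinset]
    rfl
  have h1 : ∑ γ ∈ F, WX (W0E k j) γ ≤ ∑ γ ∈ F, M ^ 2 / m ^ 4 * WX (W0E k j) (bmp l r γ) :=
    Finset.sum_le_sum fun γ hγ => ((mF γ).1 hγ).2.1.wt_le hm hM bd
  refine h1.trans ?_
  rw [← Finset.mul_sum]
  refine mul_le_mul_of_nonneg_left ?_ (by positivity)
  rw [← Finset.sum_image (g := fun γ => bmp l r γ) (f := fun γ => WX (W0E k j) γ)
    fun γ hγ γ' hγ' e => ((mF γ).1 hγ).2.1.inj ((mF γ').1 hγ').2.1 e]
  have h2 : ∑ γ ∈ F.image (fun γ => bmp l r γ), WX (W0E k j) γ = ∑ γ ∈ F.image (fun γ => bmp l r γ),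
      if Fam g0 γ ∧ γ none = 0 ∧ Bx (B + 1) γ then WX (W0E k j) γ * (if CapE l (r + 1) γ ∧ S γ then 1 else 0) else 0 := by
    refine Finset.sum_congr rfl fun γ' hγ' => ?_
    obtain ⟨γ, hγ, rfl⟩ := Finset.mem_image.1 hγ'
    obtain ⟨hb, ht, hs⟩ := (mF γ).1 hγ
    rw [if_pos ⟨ht.fam_bmp, ht.none_bmp, ht.bx hb⟩, if_pos ⟨ht.cap, hS _ _ (fun v hv => bmp_sub v hv) hs⟩, mul_one]
  rw [h2]
  refine (Finset.sum_le_sum_of_subset_of_nonneg (t := (fin_Bx (I := Unit) (B + 1)).toFinset) ?_ ?_).trans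
    (le_of_eq (Finset.sum_congr rfl fun γ _ => ?_))
  rotate_right
  · by_cases c1 : Fam g0 γ ∧ γ none = 0 ∧ Bx (B + 1) γ
    · rw [if_pos c1, if_pos c1]
    · rw [if_neg c1, if_neg c1]
  · intro γ' hγ'
    obtain ⟨γ, hγ, rfl⟩ := Finset.mem_image.1 hγ'
    obtain ⟨hb, ht, hs⟩ := (mF γ).1 hγ
    exact (Set.Finite.mem_toFinset _).2 (ht.bx hb)
  · intro γ' _ _
    split_ifs with c1 c2
    · rw [mul_one]
      exact W0_nn c1.2.1
    · rw [mul_zero]
    · exact le_rfl

open Classical in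
/-- **the surgery** -/
theorem surg : ∃ C : ℝ, 0 < C ∧ ∀ (k j r B : ℤ) (S : FX Unit → Prop), k ≤ j → -B ≤ j → |r| ≤ B →
    (∀ γ γ' : FX Unit, (∀ v, γ v () ≠ .o → γ' v () ≠ .o) → S γ → S γ') →
    SE k j B (fun γ => if TopE j r γ ∧ S γ then 1 else 0) ≤
      C * (SE k j (B + 1) (fun γ => if CapE j (r + 1) γ ∧ S γ then 1 else 0) +
        SE k j (B + 1) (fun γ => if CapE (j + 1) (r + 1) γ ∧ S γ then 1 else 0)) := by
  obtain ⟨m, M, hm, hM, bd⟩ := wt_bd
  refine ⟨M ^ 2 / m ^ 4, by positivity, ?_⟩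
  intro k j r B S _ _ _ hS
  have s1 := surg1 (k := k) (j := j) (r := r) (B := B) hm hM bd j S hS
  have s2 := surg1 (k := k) (j := j) (r := r) (B := B) hm hM bd (j + 1) S hS
  rw [mul_add]
  have s3 := add_le_add s1 s2
  refine le_trans ?_ s3
  rw [SE_sum, ← Finset.sum_add_distrib]
  refine Finset.sum_le_sum fun γ _ => ?_
  have n1 : ∀ l : ℤ, 0 ≤ (if TopL l r γ ∧ S γ then WX (W0E k j) γ else 0) := by
    intro l
    split_ifs with h
    · exact W0_nn h.1.no
    · exact le_rfl
  by_cases hc : Fam g0 γ ∧ γ none = 0 ∧ Bx B γ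
  · rw [if_pos hc]
    by_cases ht : TopE j r γ ∧ S γ
    · rw [if_pos ht, mul_one]
      by_cases h0 : γ (some (j, r)) () = .o
      · have t : TopL (j + 1) r γ := ⟨hc.1, hc.2.1, ht.1.up, fun x hx => by
          by_cases hx' : x = j
          · rw [hx', h0]
          · exact ht.1.lf x (by omega), by
          rcases ht.1.st with h | h
          · exact absurd h0 h
          · exact h⟩
        have := n1 j
        rw [if_pos (⟨t, ht.2⟩ : TopL (j + 1) r γ ∧ S γ)]
        linarith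
      · have t : TopL j r γ := ⟨hc.1, hc.2.1, ht.1.up, ht.1.lf, h0⟩
        have := n1 (j + 1)
        rw [if_pos (⟨t, ht.2⟩ : TopL j r γ ∧ S γ)]
        linarith
    · rw [if_neg ht, mul_zero]
      exact add_nonneg (n1 j) (n1 (j + 1))
  · rw [if_neg hc]
    exact add_nonneg (n1 j) (n1 (j + 1))

end

end Pool.Agent.ROT.X
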