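import Pool.Agent.ROT.UNear
import Pool.Agent.ROT.XTop2

/-!
# UNIV, exact side, row X8 (helper21), part 4: the mass of the loops with a given top cap

* **`site`** : in the honeycomb the loops with a given top right cell and extent `≥ n` have mass `≤ C / n ^ 2`;
* `iX` : a loop of the lattice as a family with one label; `SE_mu` : the box sum is at most the mass;
* **`edge`** : with the `b` column at the left edge of the box, by `LawR`;
* `SE_box` : larger boxes.
-/

set_option autoImplicit false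

namespace Pool.Agent.ROT.X

open MeasureTheory
open Pool.Agent.EXL (Wt YB)
open Pool.Agent.YBC (Dir)
open Pool.Agent.UNI (wR)
open Pool.Agent.ROT.E (Cell IsUn Pt Cfg)
open Pool.Agent.ROT.L
open Pool.Agent.ROT.I (Lps)
open Pool.Agent.ROT.U (MU muU hc Vis Ext NearM LawR GeC eqL muU_ap muU_tr MU_nn near_h cross_V)
open scoped ENNReal

noncomputable section

/-! ### one loop as a family with one label -/

/-- one loop with one label -/
def oneE (γ : Cfg) : E.Fm Unit := γ.mapRange (fun c _ => c) rfl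

/-- a loop of the lattice as a family with one label -/
def iX (γ : Cfg) : FX Unit := emb (oneE γ)

theorem iX_some (γ : Cfg) (v : Pt) (a : Unit) : iX γ (some v) a = γ v := by
  show emb (oneE γ) (some v) a = γ v
  rw [emb_some]
  rfl

theorem iX_none (γ : Cfg) : iX γ none = 0 := emb_none _

theorem iX_inj {γ γ' : Cfg} (h : iX γ = iX γ') : γ = γ' := by
  ext v
  rw [← iX_some γ v (), h, iX_some]

theorem iX_ne {γ : Cfg} {v : Pt} : iX γ (some v) ≠ 0 ↔ γ v ≠ 0 := by
  constructor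
  · intro h h0
    exact h (funext fun a => by rw [iX_some, h0]; rfl)
  · intro h h0
    exact h (by rw [← iX_some γ v (), h0]; rfl)

theorem co_oneE (γ : Cfg) : E.co (oneE γ) () = γ := by
  ext v
  rfl

theorem iX_fam {γ : Cfg} : Fam g0 (iX γ) ↔ E.Lp γ := by
  rw [iX, emb_fam]
  constructor
  · intro h
    have := h.lp ()
    rwa [co_oneE] at this
  · intro h
    exact ⟨fun _ => by rw [co_oneE]; exact h, fun v => ⟨_, un_one⟩⟩

theorem iX_surj {γ : FX Unit} (h : γ none = 0) : ∃ δ : Cfg, iX δ = γ := by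
  refine ⟨(dn γ).mapRange (fun f => f ()) rfl, ?_⟩
  conv_rhs => rw [← emb_dn h]
  rw [iX]
  congr 1
  ext v
  rfl

theorem WX_iX (k q : ℤ) (γ : Cfg) : WX (W0E k q) (iX γ) = MU (latj k q) γ := by
  classical
  rw [WX_one]
  have h : (iX γ).support = γ.support.map Function.Embedding.some := by
    ext v
    rw [Finsupp.mem_support_iff, Finset.mem_map]
    constructor
    · intro hv
      obtain _ | v := v
      · exact absurd (iX_none γ) hv
      · exact ⟨v, Finsupp.mem_support_iff.2 (iX_ne.1 hv), rfl⟩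
    · rintro ⟨w, hw, rfl⟩
      exact iX_ne.2 (Finsupp.mem_support_iff.1 hw)
  rw [h, Finset.prod_map]
  refine Finset.prod_congr rfl fun v _ => ?_
  show (iX γ (some v) ()).wt (wR (latj k q v.1)) = (γ v).wt (wR (latj k q v.1))
  rw [iX_some]

/-- **the box sum is at most the mass** -/
theorem SE_mu (k q B : ℤ) (E : FX Unit → Prop) [DecidablePred E] :
    ENNReal.ofReal (SE k q B (fun γ => if E γ then 1 else 0)) ≤ muU (latj k q) {γ : Lps | Bx B (iX γ.1) ∧ E (iX γ.1)} := by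
  rw [SE_sum, muU_ap, ENNReal.ofReal_sum_of_nonneg fun γ _ => ?_]
  · refine (ENNReal.sum_le_tsum _).trans ?_
    have inj : Function.Injective fun γ : Lps => iX γ.1 := fun γ γ' h => Subtype.ext (iX_inj h)
    rw [← inj.tsum_eq]
    · refine ENNReal.tsum_le_tsum fun γ => ?_
      split_ifs with hc he
      · rw [mul_one, WX_iX, Set.indicator_of_mem (show γ ∈ {γ : Lps | Bx B (iX γ.1) ∧ E (iX γ.1)} from ⟨hc.2.2, he⟩),
          Pi.one_apply, mul_one]
      · rw [mul_zero, ENNReal.ofReal_zero]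
        exact zero_le
      · rw [ENNReal.ofReal_zero]
        exact zero_le
    · intro γ hγ
      rw [Function.mem_support] at hγ
      split_ifs at hγ with hc
      · obtain ⟨δ, rfl⟩ := iX_surj hc.2.1
        exact ⟨⟨δ, iX_fam.1 hc.1⟩, rfl⟩
      · obtain ⟨δ, rfl⟩ := iX_surj hc.2.1
        exact ⟨⟨δ, iX_fam.1 hc.1⟩, rfl⟩
      · exact absurd ENNReal.ofReal_zero hγ
  · split_ifs with hc he
    · rw [mul_one]
      exact W0_nn hc.2.1
    · rw [mul_zero]
    · exact le_rfl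

/-! ### the site mass of the honeycomb -/

/-- the top right cell is `x` -/
def TopR (x : Pt) : Set Lps := {γ | γ.1 x ≠ 0 ∧ ∀ v, γ.1 v ≠ 0 → v.2 < x.2 ∨ (v.2 = x.2 ∧ v.1 ≤ x.1)}

theorem topR_tr (a x : Pt) : eqL (E.trS a) ⁻¹' (TopR (x + a)) = TopR x := by
  have ne : ∀ (γ : Lps) (v : Pt), (eqL (E.trS a) γ).1 (v + a) ≠ 0 ↔ γ.1 v ≠ 0 := fun γ v => U.eqL_ne (E.trS a) γ v
  ext γ
  simp only [Set.mem_preimage, TopR, Set.mem_ofPred_eq, ne]
  refine and_congr_right fun _ => ⟨fun h v hv => ?_, fun h v hv => ?_⟩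
  · have := h (v + a) ((ne γ v).2 hv)
    simp only [Prod.fst_add, Prod.snd_add] at this
    omega
  · have h1 := h (v - a) ((ne γ (v - a)).1 (by rwa [sub_add_cancel]))
    simp only [Prod.fst_add, Prod.snd_add, Prod.fst_sub, Prod.snd_sub] at h1 ⊢
    omega

theorem topR_disj {x y : Pt} (h : x ≠ y) : Disjoint (TopR x) (TopR y) := by
  rw [Set.disjoint_left]
  rintro γ ⟨h1, h2⟩ ⟨h3, h4⟩
  have a1 := h2 y h3
  have a2 := h4 x h1
  exact h (Prod.ext (by omega) (by omega))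

theorem extR_tr (a : Pt) (R : ℤ) : eqL (E.trS a) ⁻¹' (Ext R) = Ext R := by
  have ne : ∀ (γ : Lps) (v : Pt), (eqL (E.trS a) γ).1 (v + a) ≠ 0 ↔ γ.1 v ≠ 0 := fun γ v => U.eqL_ne (E.trS a) γ v
  ext γ
  constructor
  · rintro ⟨v, w, hv, hw, h⟩
    refine ⟨v - a, w - a, (ne γ _).1 (by rwa [sub_add_cancel]), (ne γ _).1 (by rwa [sub_add_cancel]), ?_⟩
    simp only [Prod.fst_sub, Prod.snd_sub]
    omega
  · rintro ⟨v, w, hv, hw, h⟩
    refine ⟨v + a, w + a, (ne γ v).2 hv, (ne γ w).2 hw, ?_⟩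
    simp only [Prod.fst_add, Prod.snd_add]
    omega

theorem topR_mass (n : ℤ) (x : Pt) : muU hc (TopR x ∩ Ext n) = muU hc (TopR 0 ∩ Ext n) := by
  have h1 := topR_tr x 0
  rw [zero_add] at h1
  have e : eqL (E.trS x) ⁻¹' (TopR x ∩ Ext n) = TopR 0 ∩ Ext n := by
    rw [Set.preimage_inter, h1, extR_tr]
  rw [← e]
  exact (muU_tr hc x _).symm

/-- the loops in a box -/
theorem fin_box (R : ℤ) : {γ : Lps | ∀ v, γ.1 v ≠ 0 → |v.1| ≤ R ∧ |v.2| ≤ R}.Finite := by
  have inj : Function.Injective fun γ : Lps => iX γ.1 := fun γ γ' h => Subtype.ext (iX_inj h)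
  refine Set.Finite.of_finite_image (f := fun γ : Lps => iX γ.1) ((fin_Bx (I := Unit) R).subset ?_) inj.injOn
  rintro _ ⟨γ, hγ, rfl⟩
  intro a b h
  exact hγ (a, b) (iX_ne.1 h)

theorem muU_fin {u : ℤ → ℝ} {A : Set Lps} (h : A.Finite) : muU u A ≠ ∞ := by
  rw [muU_ap, tsum_eq_sum (s := h.toFinset) fun γ hγ => ?_]
  · refine ENNReal.sum_ne_top.2 fun γ _ => ENNReal.mul_ne_top ENNReal.ofReal_ne_top ?_
    exact ne_top_of_le_ne_top ENNReal.one_ne_top (Set.indicator_le_self' (fun _ _ => zero_le_one) γ)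
  · rw [Set.indicator_of_notMem fun h0 => hγ (h.mem_toFinset.2 h0), mul_zero]

/-- **the site mass** -/
theorem site : ∃ C : ℝ, 0 < C ∧ ∀ n : ℤ, 1 ≤ n → ∀ x : Pt, muU hc (TopR x ∩ Ext n) ≤ ENNReal.ofReal (C / (n : ℝ) ^ 2) := by
  obtain ⟨η, hη, N0, h0⟩ := near_h 1 one_pos
  set N1 := max N0 1 with hN1
  have hfin : muU hc (TopR 0 ∩ Ext 1) ≠ ∞ := by
    have h1 : TopR 0 ∩ Ext 1 ⊆ (Vis 0 0 ∩ Ext N1) ∪ {γ : Lps | ∀ v, γ.1 v ≠ 0 → |v.1| ≤ N1 ∧ |v.2| ≤ N1} := by
      rintro γ ⟨⟨hx, -⟩, -⟩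
      by_cases he : γ ∈ Ext N1
      · exact Or.inl ⟨⟨0, hx, by simp, by simp⟩, he⟩
      · right
        intro v hv
        have a1 : ¬ (N1 ≤ v.1 - (0 : Pt).1 ∨ N1 ≤ v.2 - (0 : Pt).2) := fun h => he ⟨0, v, hx, hv, h⟩
        have a2 : ¬ (N1 ≤ (0 : Pt).1 - v.1 ∨ N1 ≤ (0 : Pt).2 - v.2) := fun h => he ⟨v, 0, hv, hx, h⟩
        simp only [Prod.fst_zero, Prod.snd_zero, sub_zero, zero_sub] at a1 a2
        push Not at a1 a2
        exact ⟨abs_le.2 ⟨by omega, by omega⟩, abs_le.2 ⟨by omega, by omega⟩⟩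
    refine ne_top_of_le_ne_top ?_ ((measure_mono h1).trans (measure_union_le _ _))
    refine ENNReal.add_ne_top.2 ⟨?_, muU_fin (fin_box N1)⟩
    refine ne_top_of_le_ne_top ENNReal.ofReal_ne_top (h0 hc rfl N1 (le_max_left _ _) 0 0 ?_)
    have : (0 : ℝ) ≤ N1 := by exact_mod_cast (zero_le_one.trans (le_max_right N0 1))
    rw [Int.cast_zero]
    positivity
  set K := (muU hc (TopR 0 ∩ Ext 1)).toReal with hK
  have hK0 : 0 ≤ K := ENNReal.toReal_nonneg
  refine ⟨1 / η ^ 2 + K * (N1 : ℝ) ^ 2, by positivity, fun n hn x => ?_⟩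
  have hn' : (1 : ℝ) ≤ n := by exact_mod_cast hn
  rw [topR_mass]
  by_cases hc1 : N1 ≤ n
  · set r := ⌊η * n⌋ with hr
    have hr0 : 0 ≤ r := Int.floor_nonneg.2 (by positivity)
    set S : Finset Pt := Finset.Icc (-r) r ×ˢ Finset.Icc (-r) r with hS
    have hcard : (S.card : ℝ) = (2 * r + 1) ^ 2 := by
      rw [hS, Finset.card_product, Int.card_Icc]
      have : ((r + 1 - -r).toNat : ℝ) = 2 * r + 1 := by
        have h1 : ((r + 1 - -r).toNat : ℤ) = 2 * r + 1 := by rw [Int.toNat_of_nonneg (by omega)]; ring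
        exact_mod_cast h1
      push_cast
      rw [this]
      ring
    have h1 : ∑ y ∈ S, muU hc (TopR y ∩ Ext n) ≤ ENNReal.ofReal 1 := by
      rw [← measure_biUnion_finset (fun y _ z _ hyz => (topR_disj hyz).mono Set.inter_subset_left Set.inter_subset_left)
        fun _ _ => trivial]
      refine (measure_mono ?_).trans (h0 hc rfl n ((le_max_left _ _).trans hc1) 0 r (Int.floor_le _))
      rintro γ hγ
      obtain ⟨y, hy, ⟨h2, h3⟩, h4⟩ := Set.mem_iUnion₂.1 hγ
      rw [hS, Finset.mem_product, Finset.mem_Icc, Finset.mem_Icc] at hy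
      exact ⟨⟨y, h2, by simpa using abs_le.2 hy.1, by simpa using abs_le.2 hy.2⟩, h4⟩
    rw [Finset.sum_congr rfl fun y _ => topR_mass n y, Finset.sum_const, nsmul_eq_mul, ENNReal.ofReal_one] at h1
    have h5 : η * n ≤ 2 * r + 1 := by
      have := Int.lt_floor_add_one (η * n)
      have h6 : (0 : ℝ) ≤ r := by exact_mod_cast hr0
      rw [← hr] at this
      linarith
    have hpos : (0 : ℝ) < S.card := by rw [hcard]; positivity
    have h7 : muU hc (TopR 0 ∩ Ext n) ≤ ENNReal.ofReal (1 / S.card) := by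
      rw [ENNReal.ofReal_div_of_pos hpos, ENNReal.ofReal_one, ENNReal.ofReal_natCast]
      rw [ENNReal.le_div_iff_mul_le (Or.inl (by exact_mod_cast hpos.ne')) (Or.inl (ENNReal.natCast_ne_top _)), mul_comm]
      exact h1
    refine h7.trans (ENNReal.ofReal_le_ofReal ?_)
    rw [hcard]
    calc 1 / (2 * (r : ℝ) + 1) ^ 2 ≤ 1 / (η * n) ^ 2 := by
          refine one_div_le_one_div_of_le (by positivity) (pow_le_pow_left₀ (by positivity) h5 2)
      _ = (1 / η ^ 2) / n ^ 2 := by rw [mul_pow]; field_simp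
      _ ≤ _ := by
        gcongr
        have : 0 ≤ K * (N1 : ℝ) ^ 2 := by positivity
        linarith
  · have h1 : muU hc (TopR 0 ∩ Ext n) ≤ ENNReal.ofReal K := by
      rw [hK, ENNReal.ofReal_toReal hfin]
      exact measure_mono (Set.inter_subset_inter_right _ (U.Ext.anti hn))
    refine h1.trans (ENNReal.ofReal_le_ofReal ?_)
    have h2 : (n : ℝ) ^ 2 ≤ (N1 : ℝ) ^ 2 := by
      have : (n : ℝ) ≤ N1 := by exact_mod_cast (not_le.1 hc1).le
      gcongr
    rw [le_div_iff₀ (by positivity)]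
    have h3 : K * (n : ℝ) ^ 2 ≤ K * (N1 : ℝ) ^ 2 := mul_le_mul_of_nonneg_left h2 hK0
    have : 0 < 1 / η ^ 2 := by positivity
    linarith

/-! ### the `b` column at the edge of the box -/

theorem an_latj (k q : ℤ) : E.An (latj k q) := by
  intro c
  have hp := Real.pi_pos
  unfold latj bA hA
  split_ifs <;> constructor <;> linarith

theorem an_h : E.An hc := by
  intro c
  have hp := Real.pi_pos
  unfold hc
  constructor <;> linarith

/-- **the edge** -/
theorem edge (hL : LawR) {B n : ℤ} {x : Pt} (hx : -B + 1 ≤ x.1) {A : Set Lps} (h1 : A ⊆ TopR x ∩ Ext n) :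
    muU (latj (-B - 1) (-B)) A ≤ muU hc (TopR x ∩ Ext n) + muU hc (Vis x 0 ∩ Ext (x.1 - 1 + B)) := by
  set A1 : Set Lps := A ∩ {γ | ∀ v, γ.1 v ≠ 0 → -B < v.1} with hA1
  set A2 : Set Lps := {γ | γ.1 x ≠ 0 ∧ ∃ v, γ.1 v ≠ 0 ∧ v.1 = -B + 1} with hA2
  have hsub : A ⊆ A1 ∪ A2 := by
    intro γ hγ
    by_cases hc : ∀ v, γ.1 v ≠ 0 → -B < v.1
    · exact Or.inl ⟨hγ, hc⟩
    · right
      push Not at hc
      obtain ⟨v, hv, hv'⟩ := hc
      have hx0 := (h1 hγ).1.1
      obtain ⟨y, -, -, hy⟩ := cross_V γ.2 (c := -B + 1) hv hx0 (by omega) hx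
      exact ⟨hx0, (-B + 1, y), hy, rfl⟩
  refine (measure_mono hsub).trans ((measure_union_le _ _).trans (add_le_add ?_ ?_))
  · rw [U.muU_congr (u' := hc) fun γ hγ v hv => ?_]
    · exact measure_mono (Set.inter_subset_left.trans h1)
    · have h3 := hγ.2 v hv
      unfold latj
      rw [if_neg (by omega)]
      rfl
  · rw [hL (latj (-B - 1) (-B)) hc (an_latj _ _) an_h (-B + 1) (fun i hi => ?_) A2 (fun γ γ' h h3 => ?_) fun γ hγ => ?_]
    · refine measure_mono fun γ hγ => ?_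
      obtain ⟨h3, v, h4, h5⟩ := hγ
      exact ⟨⟨x, h3, by simp, by simp⟩, v, x, h4, h3, Or.inl (by omega)⟩
    · unfold latj
      rw [if_neg (by omega)]
      rfl
    · obtain ⟨h3, v, h4, h5⟩ := h3
      exact ⟨by rw [← h x hx]; exact h3, v, by rw [← h v (by omega)]; exact h4, h5⟩
    · obtain ⟨h3, v, h4, h5⟩ := hγ
      exact ⟨v, h4, by omega⟩

/-! ### minimal caps at the top -/

variable {k j t B r l a n : ℤ} {γ γ' : FX Unit}

/-- larger boxes -/
theorem SE_box {F : FX Unit → ℝ} (hF : ∀ γ, 0 ≤ F γ) {B' : ℤ} (hB : B ≤ B') : SE (-B - 1) j B F ≤ SE (-B' - 1) j B' F := by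
  rw [SE_sum, SE_sum]
  have hsub : (fin_Bx (I := Unit) B).toFinset ⊆ (fin_Bx (I := Unit) B').toFinset := by
    intro γ hγ
    rw [Set.Finite.mem_toFinset] at hγ ⊢
    intro x y h
    obtain ⟨h1, h2⟩ := hγ x y h
    exact ⟨h1.trans hB, h2.trans hB⟩
  refine le_trans ?_ (Finset.sum_le_sum_of_subset_of_nonneg hsub fun γ _ _ => ?_)
  · refine Finset.sum_le_sum fun γ _ => ?_
    by_cases h : Fam g0 γ ∧ γ none = 0 ∧ Bx B γ
    · rw [if_pos h, if_pos ⟨h.1, h.2.1, fun x y h3 => ⟨(h.2.2 x y h3).1.trans hB, (h.2.2 x y h3).2.trans hB⟩⟩]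
      refine le_of_eq (congrArg (· * F γ) (WX_congr fun v hv => ?_))
      obtain _ | v := v
      · exact absurd h.2.1 hv
      · have h3 := abs_le.1 (h.2.2 v.1 v.2 hv).1
        have e : latj (-B - 1) j v.1 = latj (-B' - 1) j v.1 := by
          unfold latj
          refine if_congr ?_ rfl rfl
          constructor <;> rintro (h4 | h4) <;> omega
        show wR (latj (-B - 1) j v.1) = wR (latj (-B' - 1) j v.1)
        rw [e]
    · rw [if_neg h]
      split_ifs with h3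
      · exact mul_nonneg (W0_nn h3.2.1) (hF γ)
      · exact le_rfl
  · split_ifs with h3
    · exact mul_nonneg (W0_nn h3.2.1) (hF γ)
    · exact le_rfl

end

end Pool.Agent.ROT.X
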