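import Pool.Agent.ROT.XTop4
import Pool.Agent.ROT.XTop3

/-!
# UNIV, exact side, row X8 (helper21), part 5: minimal caps at the top

* `LQ_cap` : the functional at a minimal cap near the `b` column;
* `cap_gen` : minimal caps at the top, on the lattice with the `b` column `j`, from a chain; `capR`, `capL`;
* **`topE_big`** : the loops with the top in the strip and a cell at distance `≥ n` from it.
-/

set_option autoImplicit false

namespace Pool.Agent.ROT.X

open MeasureTheory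
open Pool.Agent.EXL (Wt YB)
open Pool.Agent.YBC (Dir)
open Pool.Agent.UNI (wR)
open Pool.Agent.ROT.E (Cell IsUn Pt Cfg)
open Pool.Agent.ROT.L
open Pool.Agent.ROT.I (Lps)
open Pool.Agent.ROT.U (MU muU hc Vis Ext NearM LawR GeC eqL muU_ap muU_tr MU_nn near_h cross_V)
open scoped ENNReal

noncomputable section

variable {k j t B r l a n : ℤ} {γ γ' : FX Unit}

/-- the functional at a minimal cap near the `b` column -/
theorem LQ_cap (hl : l = j ∨ l = j + 1) (h1 : ∀ p : Pt, γ (some p) () ≠ .o → p.2 ≤ t)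
    (h2 : ∀ x, γ (some (x, t)) () = pat l x) : min e0 pR ≤ LQ j t γ := by
  have hs : γ (some (l, t)) () = .se := by rw [h2, pat, if_pos rfl]
  rw [LQ, Finset.prod_eq_single (some (l, t))]
  · show min e0 pR ≤ fQ j t (l, t) (γ (some (l, t)) ())
    rw [hs]
    rcases hl with rfl | rfl
    · have : fQ l t (l, t) .se = e0 := by simp [fQ, kT]
      rw [this]
      exact min_le_left _ _
    · have : fQ j t (j + 1, t) .se = pR := by simp [fQ, kT]
      rw [this]
      exact min_le_right _ _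
  · intro v hv hvl
    obtain _ | v := v
    · rfl
    · show fQ j t v (γ (some v) ()) = 1
      have hne : γ (some v) () ≠ .o := fun h => (Finsupp.mem_support_iff.1 hv) (funext fun _ => h)
      rcases (h1 v hne).lt_or_eq with h3 | h3
      · rw [fQ, if_pos h3]
      · obtain ⟨x, y⟩ := v
        simp only at h3
        subst h3
        rw [h2, pat] at hne ⊢
        by_cases h4 : x = l
        · exact absurd (by rw [h4]) hvl
        · rw [if_neg h4] at hne ⊢
          by_cases h5 : x = l + 1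
          · rw [if_pos h5]
            have h6 : ¬ x < j := by omega
            have h7 : ¬ x = j := by omega
            simp [fQ, kT, h6, h7]
          · rw [if_neg h5] at hne
            exact absurd rfl hne
  · intro h
    rw [Finsupp.notMem_support_iff] at h
    rw [h] at hs
    exact absurd hs (by decide)


/-- all cells at the rows up to `t` -/
def LoT (t : ℤ) (γ : FX Unit) : Prop := ∀ p : Pt, γ (some p) () ≠ .o → p.2 ≤ t

theorem ite_nn (P : Prop) [Decidable P] : (0 : ℝ) ≤ if P then 1 else 0 := by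
  split_ifs
  · exact zero_le_one
  · exact le_rfl

/-- the constant of a cap -/
def cC : ℝ := (min e0 pR)⁻¹ * (1 + e0)

theorem cC_pos : 0 < cC := by
  have h1 : 0 < min e0 pR := lt_min e0_pos pR_pos
  have h2 := e0_pos
  unfold cC
  positivity

open Classical in
/-- **minimal caps, from a chain: sums** -/
theorem cap_a {B B' : ℤ} (hl : l = j ∨ l = j + 1) (hB' : B ≤ B') {S S' : FX Unit → Prop}
    (ch : SE (-B' - 1) j B' (fun γ => LQ j t γ * if Xr l j t γ ∧ S γ then 1 else 0) ≤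
      SE (-B' - 1) (-B') B' (fun γ => LQ (-B') t γ * if Xr l j t γ ∧ S' γ then 1 else 0)) :
    SE (-B - 1) j B (fun γ => if CapE l t γ ∧ S γ then 1 else 0) ≤
      cC * SE (-B' - 1) (-B') B' (fun γ => if LoT t γ ∧ Xr l j t γ ∧ S' γ then 1 else 0) := by
  have hc0 : 0 < min e0 pR := lt_min e0_pos pR_pos
  have he0 := e0_pos
  have s1 : SE (-B - 1) j B (fun γ => if CapE l t γ ∧ S γ then (1 : ℝ) else 0) ≤
      SE (-B' - 1) j B' (fun γ => (min e0 pR)⁻¹ * (LQ j t γ * if Xr l j t γ ∧ S γ then 1 else 0)) := by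
    refine (SE_box (fun γ => ite_nn _) hB').trans (SE_mono fun γ _ h0 _ => ?_)
    by_cases hc : CapE l t γ ∧ S γ
    · rw [if_pos hc, if_pos ⟨fun x _ => hc.1.2 x, hc.2⟩, mul_one]
      have := LQ_cap (j := j) hl hc.1.1 hc.1.2
      rw [inv_mul_eq_div, one_le_div hc0]
      exact this
    · rw [if_neg hc]
      exact mul_nonneg (inv_nonneg.2 hc0.le) (mul_nonneg (LQ_nn _ _ _) (ite_nn _))
  rw [SE_smul] at s1
  have s3 : SE (-B' - 1) (-B') B' (fun γ => LQ (-B') t γ * if Xr l j t γ ∧ S' γ then 1 else 0) ≤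
      SE (-B' - 1) (-B') B' (fun γ => (1 + e0) * if LoT t γ ∧ Xr l j t γ ∧ S' γ then 1 else 0) := by
    refine SE_mono fun γ _ h0 _ => ?_
    by_cases hT : LoT t γ
    · by_cases hc : Xr l j t γ ∧ S' γ
      · rw [if_pos hc, if_pos ⟨hT, hc⟩, mul_one, mul_one]
        exact LQ_le _ _ _
      · rw [if_neg hc, if_neg fun h => hc h.2, mul_zero, mul_zero]
    · unfold LoT at hT
      push Not at hT
      obtain ⟨p, h3, h4⟩ := hT
      rw [LQ_zero h4 h3, zero_mul]
      exact mul_nonneg (by linarith) (ite_nn _)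
  rw [SE_smul] at s3
  refine s1.trans ?_
  rw [cC, mul_assoc]
  exact mul_le_mul_of_nonneg_left (ch.trans s3) (inv_nonneg.2 hc0.le)

/-- **minimal caps: the mass** -/
theorem cap_b (hL : LawR) {B' : ℤ} (hB : -B' ≤ l) (hj : j ≤ l) {S' : FX Unit → Prop} {M : ℝ≥0∞}
    (hs : muU hc (TopR (l + 1, t) ∩ Ext n) ≤ M)
    (hS : ∀ γ : Cfg, γ (l + 1, t) ≠ 0 → S' (iX γ) → ∃ v, γ v ≠ 0 ∧ (l + 1 + n ≤ v.1 ∨ v.1 + n ≤ l + 1)) :
    muU (latj (-B' - 1) (-B')) {γ : Lps | Bx B' (iX γ.1) ∧ LoT t (iX γ.1) ∧ Xr l j t (iX γ.1) ∧ S' (iX γ.1)} ≤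
      M + muU hc (Vis (l + 1, t) 0 ∩ Ext (l + B')) := by
  have e1 : (l + 1 - 1 + B') = l + B' := by ring
  have hx : -B' + 1 ≤ ((l + 1, t) : Pt).1 := by show -B' + 1 ≤ l + 1; omega
  have h := edge (B := B') (n := n) (x := (l + 1, t)) hL hx
    (A := {γ : Lps | Bx B' (iX γ.1) ∧ LoT t (iX γ.1) ∧ Xr l j t (iX γ.1) ∧ S' (iX γ.1)}) ?_
  · refine h.trans ?_
    show _ + muU hc (Vis (l + 1, t) 0 ∩ Ext (l + 1 - 1 + B')) ≤ _
    rw [e1]
    gcongr
  · rintro γ ⟨hb, h3, h4, h5⟩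
    have h6 : γ.1 (l + 1, t) ≠ 0 := by
      intro h7
      have h8 := h4 (l + 1) (by omega)
      rw [iX_some, pat, if_neg (by omega), if_pos rfl, h7] at h8
      exact absurd h8 (by decide)
    refine ⟨⟨h6, fun v hv => ?_⟩, ?_⟩
    · have h7 : iX γ.1 (some v) () ≠ .o := by rw [iX_some]; exact hv
      rcases (h3 v h7).lt_or_eq with h8 | h8
      · exact Or.inl h8
      · refine Or.inr ⟨h8, ?_⟩
        show v.1 ≤ l + 1
        by_contra h9
        rw [not_le] at h9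
        obtain ⟨v1, v2⟩ := v
        simp only at h8 h9
        subst h8
        have h10 := h4 v1 (by omega)
        rw [pat, if_neg (by omega), if_neg (by omega)] at h10
        exact h7 h10
    · obtain ⟨v, h7, h8⟩ := hS γ.1 h6 h5
      rcases h8 with h8 | h8
      · exact ⟨(l + 1, t), v, h6, h7, Or.inl (by show n ≤ v.1 - (l + 1); omega)⟩
      · exact ⟨v, (l + 1, t), h7, h6, Or.inl (by show n ≤ l + 1 - v.1; omega)⟩

/-- the far part tends to zero -/
theorem far_le (x : Pt) {ε : ℝ} (hε : 0 < ε) : ∃ R0 : ℤ, ∀ R, R0 ≤ R → muU hc (Vis x 0 ∩ Ext R) ≤ ENNReal.ofReal ε := by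
  obtain ⟨η, hη, N0, h0⟩ := near_h ε hε
  refine ⟨max N0 0, fun R hR => h0 hc rfl R ((le_max_left _ _).trans hR) x 0 ?_⟩
  have : (0 : ℝ) ≤ R := by exact_mod_cast (le_max_right N0 0).trans hR
  rw [Int.cast_zero]
  positivity

open Classical in
/-- **minimal caps, from a chain** -/
theorem cap_gen (hL : LawR) {C0 : ℝ} (hC0 : 0 < C0)
    (hs : ∀ n : ℤ, 1 ≤ n → ∀ x : Pt, muU hc (TopR x ∩ Ext n) ≤ ENNReal.ofReal (C0 / (n : ℝ) ^ 2))
    (hl : l = j ∨ l = j + 1) (hn : 1 ≤ n) (h1 : -B ≤ j) {S S' : FX Unit → Prop}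
    (ch : ∀ B', B ≤ B' → SE (-B' - 1) j B' (fun γ => LQ j t γ * if Xr l j t γ ∧ S γ then 1 else 0) ≤
      SE (-B' - 1) (-B') B' (fun γ => LQ (-B') t γ * if Xr l j t γ ∧ S' γ then 1 else 0))
    (hS : ∀ γ : Cfg, γ (l + 1, t) ≠ 0 → S' (iX γ) → ∃ v, γ v ≠ 0 ∧ (l + 1 + n ≤ v.1 ∨ v.1 + n ≤ l + 1)) :
    SE (-B - 1) j B (fun γ => if CapE l t γ ∧ S γ then 1 else 0) ≤ cC * (C0 / (n : ℝ) ^ 2) := by
  have hD := cC_pos
  have hn' : (0 : ℝ) < n := by exact_mod_cast (zero_lt_one.trans_le hn)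
  have main : ∀ B', B ≤ B' → ENNReal.ofReal (SE (-B - 1) j B (fun γ => if CapE l t γ ∧ S γ then 1 else 0)) ≤
      ENNReal.ofReal cC * (ENNReal.ofReal (C0 / (n : ℝ) ^ 2) + muU hc (Vis (l + 1, t) 0 ∩ Ext (l + B'))) := by
    intro B' hB'
    refine (ENNReal.ofReal_le_ofReal (cap_a hl hB' (ch B' hB'))).trans ?_
    rw [ENNReal.ofReal_mul hD.le]
    have h3 := SE_mu (-B' - 1) (-B') B' (fun γ => LoT t γ ∧ Xr l j t γ ∧ S' γ)
    have h4 := cap_b (B' := B') (j := j) (S' := S') hL (by omega) (by omega) (hs n hn (l + 1, t)) hS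
    exact mul_le_mul_right (h3.trans h4) _
  have fin : ENNReal.ofReal (SE (-B - 1) j B (fun γ => if CapE l t γ ∧ S γ then 1 else 0)) ≤
      ENNReal.ofReal (cC * (C0 / (n : ℝ) ^ 2)) := by
    refine ENNReal.le_of_forall_pos_le_add fun ε hε _ => ?_
    have hε' : (0 : ℝ) < ε := by exact_mod_cast hε
    obtain ⟨R0, h3⟩ := far_le (l + 1, t) (div_pos hε' hD)
    have h4 := main (max B (R0 - l)) (le_max_left _ _)
    have h5 := h3 (l + max B (R0 - l)) (by have := le_max_right B (R0 - l); omega)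
    refine h4.trans ?_
    rw [mul_add, ← ENNReal.ofReal_mul hD.le]
    refine add_le_add_right ?_ _
    refine (mul_le_mul_right h5 _).trans ?_
    rw [← ENNReal.ofReal_mul hD.le, mul_div_cancel₀ _ hD.ne', ENNReal.ofReal_coe_nnreal]
  exact (ENNReal.ofReal_le_ofReal_iff (by positivity)).1 fin

open Classical in
/-- **minimal caps with a cell far to the right** -/
theorem capR (hL : LawR) : ∃ C : ℝ, 0 < C ∧ ∀ l j t B n a : ℤ, (l = j ∨ l = j + 1) → 1 ≤ n → -B ≤ j → j ≤ B → |t| ≤ B →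
    l + 1 + n ≤ a → SE (-B - 1) j B (fun γ => if CapE l t γ ∧ Gre a γ then 1 else 0) ≤ C / (n : ℝ) ^ 2 := by
  obtain ⟨C0, hC0, hs⟩ := site
  refine ⟨cC * C0, mul_pos cC_pos hC0, fun l j t B n a hl hn h1 h2 ht ha => ?_⟩
  refine (cap_gen (n := n) hL hC0 hs hl hn h1 (S := Gre a) (S' := Gre a)
    (fun B' hB' => chainR (by omega) (by omega) (by omega) (by omega) (ht.trans hB')) ?_).trans (le_of_eq (by ring))
  rintro γ - ⟨p, hp, hp'⟩
  exact ⟨p, fun h => hp' (by rw [iX_some, h]; rfl), Or.inl (by omega)⟩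

open Classical in
/-- **minimal caps with a cell far to the left** -/
theorem capL (hL : LawR) : ∃ C : ℝ, 0 < C ∧ ∀ l j t B n a : ℤ, (l = j ∨ l = j + 1) → 1 ≤ n → -B ≤ j → j ≤ B → |t| ≤ B →
    a + 2 + n ≤ l + 1 → a + 1 ≤ j → SE (-B - 1) j B (fun γ => if CapE l t γ ∧ Lee a γ then 1 else 0) ≤ C / (n : ℝ) ^ 2 := by
  obtain ⟨C0, hC0, hs⟩ := site
  refine ⟨cC * C0, mul_pos cC_pos hC0, fun l j t B n a hl hn h1 h2 ht ha hj => ?_⟩
  refine (cap_gen (n := n) hL hC0 hs hl hn h1 (S := Lee a) (S' := Lee (a + 2))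
    (fun B' hB' => chainL (by omega) (by omega) (by omega) (by omega) (ht.trans hB')) ?_).trans (le_of_eq (by ring))
  rintro γ - ⟨p, hp, hp'⟩
  exact ⟨p, fun h => hp' (by rw [iX_some, h]; rfl), Or.inr (by omega)⟩

/-- a cell far from the strip -/
def SzE (j m : ℤ) (γ : FX Unit) : Prop := Gre (j + 2 + m) γ ∨ Lee (j - 1 - m) γ

open Classical in
/-- **the loops with the top in the strip** -/
theorem topE_big (hL : LawR) : ∃ C : ℝ, 0 < C ∧ ∀ j r B n : ℤ, 1 ≤ n → -B ≤ j → j ≤ B → |r| ≤ B →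
    SE (-(B + 1) - 1) j B (fun γ => if TopE j r γ ∧ SzE j n γ then 1 else 0) ≤ C / (n : ℝ) ^ 2 := by
  obtain ⟨C1, hC1, s1⟩ := surg
  obtain ⟨C2, hC2, s2⟩ := capR hL
  obtain ⟨C3, hC3, s3⟩ := capL hL
  refine ⟨C1 * (2 * (C2 + C3)), by positivity, fun j r B n hn h1 h2 hr => ?_⟩
  have hr' : |r + 1| ≤ B + 1 := by
    rw [abs_le] at hr ⊢
    omega
  refine (s1 (-(B + 1) - 1) j r B (SzE j n) (by omega) h1 hr ?_).trans ?_
  · rintro γ γ' h (⟨p, hp, hp'⟩ | ⟨p, hp, hp'⟩)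
    · exact Or.inl ⟨p, hp, h _ hp'⟩
    · exact Or.inr ⟨p, hp, h _ hp'⟩
  · have key : ∀ l : ℤ, (l = j ∨ l = j + 1) → SE (-(B + 1) - 1) j (B + 1) (fun γ => if CapE l (r + 1) γ ∧ SzE j n γ
        then 1 else 0) ≤ (C2 + C3) / (n : ℝ) ^ 2 := by
      intro l hl
      have b1 := s2 l j (r + 1) (B + 1) n (j + 2 + n) hl hn (by omega) (by omega) hr' (by omega)
      have b2 := s3 l j (r + 1) (B + 1) n (j - 1 - n) hl hn (by omega) (by omega) hr' (by omega) (by omega)
      rw [add_div]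
      refine le_trans ?_ (add_le_add b1 b2)
      rw [SE_sum, SE_sum, SE_sum, ← Finset.sum_add_distrib]
      refine Finset.sum_le_sum fun γ _ => ?_
      by_cases hc : Fam g0 γ ∧ γ none = 0 ∧ Bx (B + 1) γ
      · rw [if_pos hc, if_pos hc, if_pos hc, ← mul_add]
        refine mul_le_mul_of_nonneg_left ?_ (W0_nn hc.2.1)
        by_cases h3 : CapE l (r + 1) γ ∧ SzE j n γ
        · rw [if_pos h3]
          rcases h3.2 with h4 | h4
          · rw [if_pos ⟨h3.1, h4⟩]
            have := ite_nn (CapE l (r + 1) γ ∧ Lee (j - 1 - n) γ)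
            linarith
          · rw [if_pos (c := CapE l (r + 1) γ ∧ Lee (j - 1 - n) γ) ⟨h3.1, h4⟩]
            have := ite_nn (CapE l (r + 1) γ ∧ Gre (j + 2 + n) γ)
            linarith
        · rw [if_neg h3]
          exact add_nonneg (ite_nn _) (ite_nn _)
      · rw [if_neg hc, if_neg hc, if_neg hc, add_zero]
    calc _ ≤ C1 * ((C2 + C3) / (n : ℝ) ^ 2 + (C2 + C3) / (n : ℝ) ^ 2) :=
          mul_le_mul_of_nonneg_left (add_le_add (key j (Or.inl rfl)) (key (j + 1) (Or.inr rfl))) hC1.le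
      _ = _ := by ring

end

end Pool.Agent.ROT.X
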