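import Pool.Agent.ROT.XTop5
import Pool.Agent.ROT.XDefs2
import Pool.Agent.ROT.XRot

/-!
# UNIV, exact side, row X8 (helper21), part 6: the top and the bottom of a loop at a given row of the strip

* `ex_cls` : a class of a row whose upper and left ports are free contains a family on the graph with the crossing above the row
  which does not use the crossing;
* `EvT j r m` : top in the region of the row `r`, two cells off the region in columns at distance `≥ m`;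
* **`topX`** : the loops with the top in the region (absolute weights), by `Cmp6` and `LawR`;
* **`topB : Cmp6 → U.LawR → TopB`** : row X8.
-/

set_option autoImplicit false

namespace Pool.Agent.ROT.X

open MeasureTheory
open Pool.Agent.EXL (Wt YB)
open Pool.Agent.YBC (Dir)
open Pool.Agent.UNI (wR)
open Pool.Agent.ROT.E (Cell IsUn Pt)
open Pool.Agent.ROT.L
open Pool.Agent.ROT.U (LawR)

noncomputable section

variable {k j t B r n m : ℤ} {γ γ' : FX Unit} {δ : VX →₀ Cell}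

/-! ### the classes -/

/-- the pairings of the ports below and right of the row, on the graph with the crossing above the row -/
theorem key6 : ∀ (t : Fin 3) (a b c : Cell), (fitF t ![a, b, c] && opF t ![a, b, c]) = true → qF t ![a, b, c] 2 = 2 →
    qF t ![a, b, c] 4 = 4 → qF t ![a, b, c] 5 = 5 → ¬ (a = .o ∧ b = .o ∧ c = .o) →
    conn 1 ![.o, .se, .sw] = some (qF t ![a, b, c]) ∨ conn 1 ![.o, .se, .h] = some (qF t ![a, b, c]) ∨
      conn 1 ![.o, .o, .se] = some (qF t ![a, b, c]) := by decide +kernel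

theorem un_unit {f : Unit → Cell} {c : Cell} (h : IsUn f c) : f () = c := by
  refine E.Lab.un_unique (f := f) ⟨fun i d _ => rfl, fun _ _ _ _ _ => rfl, fun d h => ⟨(), h⟩⟩ h

/-- **a family of the class without the crossing** -/
theorem ex_cls {t : Fin 3} (f : Fam (Gt j r t) γ) (g : Gd (Rg j r) γ) (hu : ∃ v ∈ Rg j r, γ v () ≠ .o)
    (h2 : γ (some (j - 1, r)) () = .o) (h4 : γ (some (j, r + 1)) () = .o) (h5 : γ (some (j + 1, r + 1)) () = .o) :
    ∃ γ' : FX Unit, Eq6 (Rg j r) (Gt j r t) (Gt j r 1) γ γ' ∧ γ' none () = .o ∧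
      ((γ' (some (j, r)) () = .se ∧ γ' (some (j + 1, r)) () = .sw) ∨ (γ' (some (j, r)) () = .se ∧ γ' (some (j + 1, r)) () = .h) ∨
        (γ' (some (j, r)) () = .o ∧ γ' (some (j + 1, r)) () = .se)) := by
  obtain ⟨q, hq⟩ := cls f g
  obtain ⟨e0, h0⟩ := hq t
  obtain ⟨e1, h1⟩ := hq 1
  have c0 := (e0 ⟨γ, Eq6.rfl' f g⟩).2
  obtain ⟨a0, b0, d0⟩ := h0 ⟨γ, Eq6.rfl' f g⟩
  rw [← un_unit a0, ← un_unit b0, ← un_unit d0] at c0
  unfold conn at c0
  split_ifs at c0 with hfo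
  rw [Option.some.injEq] at c0
  have mt : Mt (Gt j r t) (co γ ()) (Rg j r) := mt_mono (f.lp ()).mt
  have hport : ∀ a : Fin 6, (L.P j r a).1 ∉ Rg j r → γ (L.P j r a).1 () = .o → qF t ![γ none (), γ (some (j, r)) (),
      γ (some (j + 1, r)) ()] a = a := by
    intro a _ ha
    by_contra hc
    have := (oc_qF mt a).2 hc
    rw [oc_port (f.lp ()).mt] at this
    have h3 : (γ (L.P j r a).1 ()).oc (L.P j r a).2 := this
    rw [ha] at h3
    revert h3
    cases (L.P j r a).2 <;> simp [Cell.oc, Cell.p]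
  have k6 := key6 t _ _ _ hfo (hport 2 (P_out 2) h2) (hport 4 (P_out 4) h4) (hport 5 (P_out 5) h5) (by
    rintro ⟨z1, z2, z3⟩
    obtain ⟨v, hv, hv'⟩ := hu
    rcases hv with rfl | rfl | rfl
    · exact hv' z1
    · exact hv' z2
    · exact hv' z3)
  rw [c0] at k6
  have mk : ∀ b c : Cell, conn 1 ![.o, b, c] = some q → ∃ γ' : FX Unit, Eq6 (Rg j r) (Gt j r t) (Gt j r 1) γ γ' ∧
      γ' none () = .o ∧ γ' (some (j, r)) () = b ∧ γ' (some (j + 1, r)) () = c := by
    intro b c hbc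
    set x := e1.symm ⟨(.o, b, c), hbc⟩ with hx
    have h3 := h1 x
    rw [hx, Equiv.apply_symm_apply, ← hx] at h3
    exact ⟨x.1, x.2, un_unit h3.1, un_unit h3.2.1, un_unit h3.2.2⟩
  rcases k6 with h | h | h
  · obtain ⟨γ', x1, x2, x3, x4⟩ := mk _ _ h
    exact ⟨γ', x1, x2, Or.inl ⟨x3, x4⟩⟩
  · obtain ⟨γ', x1, x2, x3, x4⟩ := mk _ _ h
    exact ⟨γ', x1, x2, Or.inr (Or.inl ⟨x3, x4⟩)⟩
  · obtain ⟨γ', x1, x2, x3, x4⟩ := mk _ _ h
    exact ⟨γ', x1, x2, Or.inr (Or.inr ⟨x3, x4⟩)⟩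

/-! ### the event -/

/-- the top is in the region of the row `r`, two cells off the region in columns at distance `≥ m` -/
def EvT (j r m : ℤ) (δ : VX →₀ Cell) : Prop := ExT j r (fam1 δ) () ∧
  ∃ p q : Pt, (some p : VX) ∉ Rg j r ∧ (some q : VX) ∉ Rg j r ∧ δ (some p) ≠ .o ∧ δ (some q) ≠ .o ∧ p.1 + m ≤ q.1

theorem EvT.gd (h : EvT j r m δ) : ∃ v, v ∉ Rg j r ∧ δ v ≠ .o := by
  obtain ⟨-, p, q, h1, -, h2, -⟩ := h
  exact ⟨_, h1, h2⟩

/-- the event is kept by the classes -/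
theorem EvT_cl {t t' : Fin 3} (h : Eq6 (Rg j r) (Gt j r t) (Gt j r t') γ γ') (e : EvT j r m (co γ ())) :
    EvT j r m (co γ' ()) := by
  obtain ⟨h1, p, q, h2, h3, h4, h5, h6⟩ := e
  rw [fam1_co] at h1
  refine ⟨?_, p, q, h2, h3, ?_, ?_, h6⟩
  · rw [fam1_co]
    refine ⟨?_, fun p hp hp' => h1.2 p hp (by rwa [h.out _ hp])⟩
    have h7 := (us_iff (port_Gt j r t) h.fam h.gd ()).2 h1.1
    have h8 : us j r γ' () := by
      obtain ⟨k, hk, ho⟩ := h7
      refine ⟨k, hk, ?_⟩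
      rwa [← oc_out (δ := co γ ()) (δ' := co γ' ()) (A := Rg j r) (fun v hv => congrFun (h.out v hv) ()) (out_pt6 hk)]
    exact (us_iff (port_Gt j r t') h.fam' h.gd' ()).1 h8
  · show γ' (some p) () ≠ .o
    rw [← h.out _ h2]
    exact h4
  · show γ' (some q) () ≠ .o
    rw [← h.out _ h3]
    exact h5

open Classical in
theorem EvT_cs (j r m : ℤ) : Cs j r fun γ : FX Unit => if EvT j r m (co γ ()) then 1 else 0 :=
  cs_of fun _ _ h e => by
    obtain ⟨_, _, h⟩ := h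
    exact EvT_cl h e

/-- the crossing is not used -/
def NoX (δ : VX →₀ Cell) : Prop := δ none = .o

/-- the ports above and left of the row are free -/
theorem EvT.free (h : EvT j r m δ) {p : Pt} (hp : (some p : VX) ∉ Rg j r) (hp' : ¬ (p.2 < r ∨ (p.2 = r ∧ j + 1 < p.1))) :
    δ (some p) = .o := by
  by_contra hc
  exact hp' (h.1.2 p hp hc)

open Classical in
/-- **the comparison** -/
theorem cmp_top (h6 : Cmp6) : ∃ C : ℝ, 0 < C ∧ ∀ k j r t B m : ℤ, k ≤ j → |r| ≤ B → -B ≤ j → j + 1 ≤ B →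
    (t = r ∨ t = r + 1) → A1 k j t B (fun δ => if EvT j r m δ then 1 else 0) ≤
      C * A1 k j (r + 1) B (fun δ => if EvT j r m δ ∧ NoX δ then 1 else 0) := by
  obtain ⟨C, hC, h⟩ := h6
  refine ⟨C, hC, fun k j r t B m hk hr h1 h2 ht => ?_⟩
  refine h k j r B t (r + 1) (EvT j r m) NoX hk hr h1 h2 ht (Or.inr rfl) (EvT_cs j r m) (fun δ hδ => hδ.gd)
    fun δ hl hδ => ?_
  have hp2 : (some (j - 1, r) : VX) ∉ Rg j r := not_Rg (Or.inl (by omega))
  have hp4 : (some (j, r + 1) : VX) ∉ Rg j r := fun h => by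
    have := (some_mem_Rg.1 h).2
    omega
  have hp5 : (some (j + 1, r + 1) : VX) ∉ Rg j r := fun h => by
    have := (some_mem_Rg.1 h).2
    omega
  have key : ∀ t' : Fin 3, Lp (Gt j r t') δ → ∃ δ' : VX →₀ Cell, Eq6 (Rg j r) (Gt j r t') (Gt j r 1) (fam1 δ) (fam1 δ') ∧
      δ' none = .o ∧ (δ' none).wt (wR dA) ≠ 0 ∧ ∀ c, c = j ∨ c = j + 1 → (δ' (some (c, r))).wt (WE k j (r + 1) (some (c, r))) ≠ 0 := by
    intro t' hl'
    obtain ⟨γ', x1, x2, x3⟩ := ex_cls (γ := fam1 δ) (t := t') (fam1_lp.2 hl') (fun _ => hδ.gd) hδ.1.1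
      (hδ.free hp2 (by show ¬ (r < r ∨ _); omega)) (hδ.free hp4 (by show ¬ (r + 1 < r ∨ (r + 1 = r ∧ _)); omega))
      (hδ.free hp5 (by show ¬ (r + 1 < r ∨ (r + 1 = r ∧ _)); omega))
    refine ⟨co γ' (), by rw [fam1_co]; exact x1, x2, ?_, ?_⟩
    · show (γ' none ()).wt (wR dA) ≠ 0
      rw [x2]
      exact one_ne_zero
    · obtain ⟨b1, b2, b3⟩ := pos_b
      obtain ⟨c1, c2, c3⟩ := pos_h
      have w1 : WE k j (r + 1) (some (j, r)) = wR bA := by
        show (if j = j then (if r < r + 1 then wR bA else wR hA) else _) = _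
        rw [if_pos rfl, if_pos (by omega)]
      have w2 : WE k j (r + 1) (some (j + 1, r)) = wR hA := by
        show (if j + 1 = j then _ else if j + 1 = j + 1 then (if r < r + 1 then wR hA else wR bA) else _) = _
        rw [if_neg (by omega), if_pos rfl, if_pos (by omega)]
      rintro c (rfl | rfl)
      · rw [w1]
        show (γ' (some (c, r)) ()).wt (wR bA) ≠ 0
        rcases x3 with x3 | x3 | x3 <;> rw [x3.1] <;> simp [Cell.wt, b3.ne']
      · rw [w2]
        show (γ' (some (j + 1, r)) ()).wt (wR hA) ≠ 0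
        rcases x3 with x3 | x3 | x3 <;> rw [x3.2] <;> simp [Cell.wt, c1.ne', c2.ne', c3.ne']
  rcases ht with rfl | rfl
  · exact key 2 hl
  · exact key 1 hl

/-! ### without the crossing -/

open Classical in
theorem AX_sumT {I : Type} [Finite I] {k j s B : ℤ} {F : FX I → ℝ} : AX k j s B F =
    ∑ γ ∈ (fin_Bx (I := I) B).toFinset, if Fam (gX j s) γ ∧ Bx B γ then |WX (WE k j s) γ| * F γ else 0 :=
  tsum_eq_sum fun _ hγ => if_neg fun h => hγ ((Set.Finite.mem_toFinset _).2 h.2)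

open Classical in
/-- **on the lattice without the crossing** -/
theorem A1_SE (hk : k ≤ j) {m' : ℤ} (hm : 2 * m' + 2 ≤ m) :
    A1 k j (r + 1) B (fun δ => if EvT j r m δ ∧ NoX δ then 1 else 0) ≤
      SE k j B (fun γ => if TopE j r γ ∧ SzE j m' γ then 1 else 0) := by
  rw [A1_eq, AX_sumT, SE_sum]
  refine Finset.sum_le_sum fun γ _ => ?_
  by_cases hc : (Fam (gX j (r + 1)) γ ∧ Bx B γ) ∧ EvT j r m (co γ ()) ∧ NoX (co γ ())
  · obtain ⟨⟨h1, h2⟩, h3, h4⟩ := hc
    have h0 : γ none = 0 := funext fun _ => h4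
    have h5 := h3.1
    rw [fam1_co] at h5
    have up : ∀ p : Pt, γ (some p) () ≠ .o → p.2 ≤ r := fun p hp => by
      by_cases hR : (some p : VX) ∈ Rg j r
      · exact (some_mem_Rg.1 hR).2.le
      · have := h5.2 p hR hp
        omega
    have hW : WX (WE k j (r + 1)) γ = WX (W0E k j) γ := by
      refine WE_T hk h0 fun v hv => ?_
      have := up v fun h => hv (funext fun _ => h)
      omega
    have hT : TopE j r γ := by
      refine ⟨up, fun x hx => ?_, ?_⟩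
      · by_contra hc
        have := h5.2 (x, r) (not_Rg (Or.inl hx)) hc
        simp only at this
        omega
      · obtain ⟨v, hv, hv'⟩ := h5.1
        rcases hv with rfl | rfl | rfl
        · exact absurd h4 hv'
        · exact Or.inl hv'
        · exact Or.inr hv'
    have hS : SzE j m' γ := by
      obtain ⟨-, p, q, -, -, h6, h7, h8⟩ := h3
      by_cases h9 : j + 2 + m' ≤ q.1
      · exact Or.inl ⟨q, h9, h7⟩
      · exact Or.inr ⟨p, by omega, h6⟩
    rw [if_pos ⟨h1, h2⟩, if_pos ⟨h3, h4⟩, if_pos ⟨famX_g0 h1 h0, h0, h2⟩, if_pos ⟨hT, hS⟩, hW, abs_of_nonneg (W0_nn h0)]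
  · have e : (if Fam (gX j (r + 1)) γ ∧ Bx B γ then |WX (WE k j (r + 1)) γ| *
        (if EvT j r m (co γ ()) ∧ NoX (co γ ()) then (1 : ℝ) else 0) else 0) = 0 := by
      split_ifs with h1 h2
      · exact absurd ⟨h1, h2⟩ hc
      · rw [mul_zero]
      · rfl
    rw [e]
    split_ifs with h1 h2
    · rw [mul_one]
      exact W0_nn h1.2.1
    · rw [mul_zero]
    · exact le_rfl

theorem A1_monoT {g g' : (VX →₀ Cell) → ℝ} (h : ∀ δ, Lp (gX j t) δ → Bx1 B δ → g δ ≤ g' δ) : A1 k j t B g ≤ A1 k j t B g' := by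
  rw [A1_sum, A1_sum]
  refine Finset.sum_le_sum fun δ _ => ?_
  split_ifs with hc
  · exact mul_le_mul_of_nonneg_left (h δ hc.1 hc.2) (abs_nonneg _)
  · exact le_rfl

/-- a wide loop with the top in the region -/
theorem big_ev (ht : t = r ∨ t = r + 1) (hl : Lp (gX j t) δ) (hn : 100 ≤ n) (hT : ExT j r (fam1 δ) ()) (hB : Big n δ) :
    EvT j r (n - 3) δ := by
  obtain ⟨p, q, hp, hq, hpq⟩ := hB
  have key : ∀ t' : Fin 3, Lp (Gt j r t') δ → EvT j r (n - 3) δ := by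
    intro t' hl'
    have port : Gd (Rg j r) (fam1 δ) → ∃ p : Pt, (some p : VX) ∉ Rg j r ∧ δ (some p) ≠ .o ∧ j - 1 ≤ p.1 ∧ p.1 ≤ j + 2 := by
      intro g
      obtain ⟨v, hv, hv'⟩ := hT.1
      obtain ⟨p, h1, h2, h3, h4, -⟩ := us_port (port_Gt j r t') (fam1_lp.2 hl') g hv hv'
      exact ⟨p, h1, h2, h3, h4⟩
    by_cases h1 : (some p : VX) ∈ Rg j r
    · by_cases h2 : (some q : VX) ∈ Rg j r
      · have := (some_mem_Rg.1 h1).1
        have := (some_mem_Rg.1 h2).1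
        omega
      · obtain ⟨p', h3, h4, h5, h6⟩ := port fun _ => ⟨_, h2, hq⟩
        have := (some_mem_Rg.1 h1).1
        exact ⟨hT, p', q, h3, h2, h4, hq, by omega⟩
    · by_cases h2 : (some q : VX) ∈ Rg j r
      · obtain ⟨p', h3, h4, h5, h6⟩ := port fun _ => ⟨_, h1, hp⟩
        have := (some_mem_Rg.1 h2).1
        exact ⟨hT, p, p', h1, h3, hp, h4, by omega⟩
      · exact ⟨hT, p, q, h1, h2, hp, hq, by omega⟩
  rcases ht with rfl | rfl
  · exact key 2 hl
  · exact key 1 hl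

open Classical in
/-- **the top in the region of a row** -/
theorem topX (h6 : Cmp6) (hL : LawR) : ∃ C : ℝ, 0 < C ∧ ∀ j r t B n : ℤ, |r| ≤ B → -B ≤ j → j + 1 ≤ B →
    (t = r ∨ t = r + 1) → 100 ≤ n →
    A1 (-(B + 1) - 1) j t B (fun δ => if ExT j r (fam1 δ) () ∧ Big n δ then 1 else 0) ≤ C / (n : ℝ) ^ 2 := by
  obtain ⟨C1, hC1, s1⟩ := cmp_top h6
  obtain ⟨C2, hC2, s2⟩ := topE_big hL
  refine ⟨C1 * (16 * C2), by positivity, fun j r t B n hr h1 h2 ht hn => ?_⟩
  have a1 : A1 (-(B + 1) - 1) j t B (fun δ => if ExT j r (fam1 δ) () ∧ Big n δ then 1 else 0) ≤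
      A1 (-(B + 1) - 1) j t B (fun δ => if EvT j r (n - 3) δ then 1 else 0) := by
    refine A1_monoT fun δ hl _ => ?_
    by_cases hc : ExT j r (fam1 δ) () ∧ Big n δ
    · rw [if_pos hc, if_pos (big_ev ht hl hn hc.1 hc.2)]
    · rw [if_neg hc]
      exact ite_nn _
  have a2 := s1 (-(B + 1) - 1) j r t B (n - 3) (by omega) hr h1 h2 ht
  have a3 := A1_SE (k := -(B + 1) - 1) (j := j) (r := r) (B := B) (m := n - 3) (m' := (n - 5) / 2) (by omega) (by omega)
  have a4 := s2 j r B ((n - 5) / 2) (by omega) h1 (by omega) hr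
  refine a1.trans (a2.trans ?_)
  rw [mul_div_assoc]
  refine mul_le_mul_of_nonneg_left (a3.trans (a4.trans ?_)) hC1.le
  have h7 : (n : ℝ) ≤ 4 * (((n - 5) / 2 : ℤ) : ℝ) := by
    have : n ≤ 4 * ((n - 5) / 2) := by omega
    exact_mod_cast this
  have h8 : (100 : ℝ) ≤ n := by exact_mod_cast hn
  have h9 : (0 : ℝ) < (((n - 5) / 2 : ℤ) : ℝ) := by linarith
  rw [div_le_div_iff₀ (by positivity) (by positivity)]
  have h10 : (n : ℝ) ^ 2 ≤ (4 * (((n - 5) / 2 : ℤ) : ℝ)) ^ 2 := pow_le_pow_left₀ (by linarith) h7 2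
  nlinarith

/-! ### the row X8 -/

theorem WE_box (hb : Bx1 B δ) : W1X (WE (-(B + 1) - 1) j t) δ = W1X (WH j t) δ :=
  WE_WH fun p hp => by
    have := (abs_le.1 (hb p.1 p.2 hp).1).1
    omega

theorem bx_rot {B' : ℤ} (hb : Bx1 B δ) (hB : B + 2 * |j| + 2 * |t| + 2 ≤ B') : Bx1 B' (rot1 j t δ) := by
  intro x y h
  have e : (some (x, y) : VX) = some (2 * j + 1 - (2 * j + 1 - x), 2 * t - 1 - (2 * t - 1 - y)) := by
    rw [sub_sub_cancel, sub_sub_cancel]
  rw [e] at h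
  have h1 := rot1_some (j := j) (s := t) δ (2 * j + 1 - x, 2 * t - 1 - y)
  simp only at h1
  rw [h1] at h
  have h2 : δ (some (2 * j + 1 - x, 2 * t - 1 - y)) ≠ 0 := fun h3 => h (pr_o.2 h3)
  obtain ⟨h3, h4⟩ := hb _ _ h2
  rw [abs_le] at h3 h4 ⊢
  rw [abs_le]
  have := abs_le.1 (le_refl |j|)
  have := abs_le.1 (le_refl |t|)
  omega

open Classical in
/-- **row X8** -/
theorem topB (h6 : Cmp6) (hL : LawR) : TopB := by
  obtain ⟨C, hC, h⟩ := topX h6 hL
  refine ⟨2 * C, by positivity, fun k j r t B n hk hr h1 h2 ht hn _ => ?_⟩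
  have a1 : A1 k j t B (fun δ => if ExT j r (fam1 δ) () ∧ Win k B n δ then 1 else 0) ≤ C / (n : ℝ) ^ 2 := by
    refine le_trans ?_ (h j r t B n hr h1 h2 ht hn)
    rw [A1_sum, A1_sum]
    refine Finset.sum_le_sum fun δ _ => ?_
    by_cases hc : Lp (gX j t) δ ∧ Bx1 B δ
    · rw [if_pos hc, if_pos hc]
      by_cases hE : ExT j r (fam1 δ) () ∧ Win k B n δ
      · rw [if_pos hE, if_pos ⟨hE.1, hE.2.2⟩, WE_box hc.2, WE_WH fun p hp => (hE.2.1 p hp).1]
      · rw [if_neg hE, mul_zero]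
        exact mul_nonneg (abs_nonneg _) (ite_nn _)
    · rw [if_neg hc, if_neg hc]
  have a2 : A1 k j t B (fun δ => if ExB j r (fam1 δ) () ∧ Win k B n δ then 1 else 0) ≤ C / (n : ℝ) ^ 2 := by
    set B' := B + 2 * |j| + 2 * |t| + 2 with hB'
    have j0 := abs_nonneg j
    have t0 := abs_nonneg t
    have j1 := abs_le.1 (le_refl |j|)
    have t1 := abs_le.1 (le_refl |t|)
    have r1 := abs_le.1 hr
    refine le_trans ?_ (h j (2 * t - 1 - r) t B' n (abs_le.2 (by omega)) (by omega) (by omega) (by omega) hn)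
    rw [A1_sum, A1_sum]
    set f : (VX →₀ Cell) → ℝ := fun δ => if Lp (gX j t) δ ∧ Bx1 B' δ then |W1X (WE (-(B' + 1) - 1) j t) δ| *
      (if ExT j (2 * t - 1 - r) (fam1 δ) () ∧ Big n δ then 1 else 0) else 0 with hf
    have f0 : ∀ δ, 0 ≤ f δ := fun δ => by
      rw [hf]
      show (0 : ℝ) ≤ if Lp (gX j t) δ ∧ Bx1 B' δ then |W1X (WE (-(B' + 1) - 1) j t) δ| *
        (if ExT j (2 * t - 1 - r) (fam1 δ) () ∧ Big n δ then 1 else 0) else 0
      by_cases hc : Lp (gX j t) δ ∧ Bx1 B' δ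
      · rw [if_pos hc]
        exact mul_nonneg (abs_nonneg _) (ite_nn _)
      · rw [if_neg hc]
    have s1 : ∑ δ ∈ (fin_Bx1 B).toFinset, (if Lp (gX j t) δ ∧ Bx1 B δ then |W1X (WE k j t) δ| *
        (if ExB j r (fam1 δ) () ∧ Win k B n δ then (1 : ℝ) else 0) else 0) ≤ ∑ δ ∈ (fin_Bx1 B).toFinset, f (rot1 j t δ) := by
      refine Finset.sum_le_sum fun δ _ => ?_
      by_cases hc : (Lp (gX j t) δ ∧ Bx1 B δ) ∧ ExB j r (fam1 δ) () ∧ Win k B n δ
      · obtain ⟨⟨c1, c2⟩, c3, c4⟩ := hc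
        have hbx := bx_rot (j := j) (t := t) (B' := B') c2 le_rfl
        have hE : ExT j (2 * t - 1 - r) (fam1 (rot1 j t δ)) () := by
          rw [fam1_rot]
          exact ExT_rot.2 c3
        have hG : Big n (rot1 j t δ) := by
          obtain ⟨p, q, hp, hq, hpq⟩ := c4.2
          refine ⟨(2 * j + 1 - q.1, 2 * t - 1 - q.2), (2 * j + 1 - p.1, 2 * t - 1 - p.2), ?_, ?_, ?_⟩
          · rw [rot1_some]
            exact fun h => hq (pr_o.1 h)
          · rw [rot1_some]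
            exact fun h => hp (pr_o.1 h)
          · show 2 * j + 1 - q.1 + n ≤ 2 * j + 1 - p.1
            omega
        rw [if_pos ⟨c1, c2⟩, if_pos ⟨c3, c4⟩, hf]
        show |W1X (WE k j t) δ| * 1 ≤ if Lp (gX j t) (rot1 j t δ) ∧ Bx1 B' (rot1 j t δ) then
          |W1X (WE (-(B' + 1) - 1) j t) (rot1 j t δ)| * (if ExT j (2 * t - 1 - r) (fam1 (rot1 j t δ)) () ∧ Big n (rot1 j t δ)
            then 1 else 0) else 0
        rw [if_pos ⟨rot1_lp.2 c1, hbx⟩, if_pos ⟨hE, hG⟩, WE_box hbx, W1X_rot, WE_WH fun p hp => (c4.1 p hp).1]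
      · have e : (if Lp (gX j t) δ ∧ Bx1 B δ then |W1X (WE k j t) δ| *
            (if ExB j r (fam1 δ) () ∧ Win k B n δ then (1 : ℝ) else 0) else 0) = 0 := by
          by_cases h3 : Lp (gX j t) δ ∧ Bx1 B δ
          · rw [if_pos h3, if_neg fun h4 => hc ⟨h3, h4⟩, mul_zero]
          · rw [if_neg h3]
        rw [e]
        exact f0 _
    refine s1.trans ?_
    rw [← Finset.sum_image (f := f) (g := rot1 j t) fun _ _ _ _ e => rot1_inj e]
    refine Finset.sum_le_sum_of_subset_of_nonneg ?_ fun δ _ _ => f0 δ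
    intro δ hδ
    obtain ⟨δ0, h3, rfl⟩ := Finset.mem_image.1 hδ
    rw [Set.Finite.mem_toFinset] at h3 ⊢
    exact bx_rot h3 le_rfl
  have a3 : A1 k j t B (fun δ => if (ExT j r (fam1 δ) () ∨ ExB j r (fam1 δ) ()) ∧ Win k B n δ then 1 else 0) ≤
      A1 k j t B (fun δ => (if ExT j r (fam1 δ) () ∧ Win k B n δ then 1 else 0) +
        (if ExB j r (fam1 δ) () ∧ Win k B n δ then 1 else 0)) := by
    refine A1_mono fun δ => ?_
    by_cases hc : (ExT j r (fam1 δ) () ∨ ExB j r (fam1 δ) ()) ∧ Win k B n δ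
    · rw [if_pos hc]
      rcases hc.1 with h3 | h3
      · rw [if_pos ⟨h3, hc.2⟩]
        have := ite_nn (ExB j r (fam1 δ) () ∧ Win k B n δ)
        linarith
      · rw [if_pos (c := ExB j r (fam1 δ) () ∧ Win k B n δ) ⟨h3, hc.2⟩]
        have := ite_nn (ExT j r (fam1 δ) () ∧ Win k B n δ)
        linarith
    · rw [if_neg hc]
      exact add_nonneg (ite_nn _) (ite_nn _)
  rw [A1_add] at a3
  refine a3.trans ((add_le_add a1 a2).trans (le_of_eq (by ring)))

end

end Pool.Agent.ROT.X
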